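import Mathlib

/-! The parts of this file: H91.GoldMertens, H91.GoldMertens2. -/

section

/-!
Explicit weak forms of the theorem of Mertens for `∑ 1/p`.
-/

namespace Pool.Agent.H91.Gold

open Finset Real
open scoped ArithmeticFunction.vonMangoldt

/-- Discrete partial summation. -/
theorem abel_le {w z : ℕ} (hwz : w ≤ z) {c : ℝ} (hc : 0 ≤ c) {a b f : ℕ → ℝ}
    (hf0 : ∀ k, w < k → k ≤ z → 0 ≤ f k) (hf1 : 0 ≤ f (w + 1)) (hf : ∀ k, w < k → k < z → f (k + 1) ≤ f k)
    (hA : ∀ m, w ≤ m → m ≤ z → ∑ k ∈ Ioc w m, a k ≤ ∑ k ∈ Ioc w m, b k + c) :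
    ∑ k ∈ Ioc w z, a k * f k ≤ ∑ k ∈ Ioc w z, b k * f k + c * f (w + 1) := by
  have key : ∀ m, w ≤ m → m < z →
      (∑ k ∈ Ioc w (m + 1), b k + c - ∑ k ∈ Ioc w (m + 1), a k) * f (m + 1)
        ≤ ∑ k ∈ Ioc w (m + 1), b k * f k + c * f (w + 1) - ∑ k ∈ Ioc w (m + 1), a k * f k := by
    intro m hm
    induction m, hm using Nat.le_induction with
    | base =>
      intro _
      have : Ioc w (w + 1) = {w + 1} := by ext x; simp only [mem_Ioc, mem_singleton]; omega
      rw [this]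
      simp
      linarith
    | succ m hm ih =>
      intro hmz
      have ih' := ih (by omega)
      have e : ∀ h : ℕ → ℝ, ∑ k ∈ Ioc w (m + 1 + 1), h k = ∑ k ∈ Ioc w (m + 1), h k + h (m + 1 + 1) := by
        intro h
        rw [sum_Ioc_succ_top (by omega)]
      rw [e, e, e, e]
      have h1 := hA (m + 1) (by omega) (by omega)
      have h2 := hf (m + 1) (by omega) hmz
      have h3 : (∑ k ∈ Ioc w (m + 1), b k + c - ∑ k ∈ Ioc w (m + 1), a k) * f (m + 1 + 1)
          ≤ (∑ k ∈ Ioc w (m + 1), b k + c - ∑ k ∈ Ioc w (m + 1), a k) * f (m + 1) :=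
        mul_le_mul_of_nonneg_left h2 (by linarith)
      nlinarith
  rcases eq_or_lt_of_le hwz with h | h
  · subst h
    simp
    positivity
  · obtain ⟨m, rfl⟩ : ∃ m, z = m + 1 := ⟨z - 1, by omega⟩
    have h1 := key m (by omega) (by omega)
    have h2 := hA (m + 1) (by omega) le_rfl
    have h3 := hf0 (m + 1) (by omega) le_rfl
    have h4 : 0 ≤ (∑ k ∈ Ioc w (m + 1), b k + c - ∑ k ∈ Ioc w (m + 1), a k) * f (m + 1) :=
      mul_nonneg (by linarith) h3
    linarith

/-- The sum of `Λ d / d` for `d ≤ n`. -/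
noncomputable def Mt (n : ℕ) : ℝ := ∑ d ∈ Ioc 0 n, Λ d / d

theorem log_fact_eq (n : ℕ) : ∑ k ∈ Ioc 0 n, Real.log k = ∑ d ∈ Ioc 0 n, Λ d * ((n / d : ℕ) : ℝ) := by
  rw [← ArithmeticFunction.sum_Ioc_mul_zeta_eq_sum, ArithmeticFunction.vonMangoldt_mul_zeta]
  rfl

theorem log_fact_ge (n : ℕ) (hn : 1 ≤ n) : n * Real.log n - n ≤ ∑ k ∈ Ioc 0 n, Real.log k := by
  induction n, hn using Nat.le_induction with
  | base => simp
  | succ n hn ih =>
    rw [sum_Ioc_succ_top (by omega)]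
    have hn0 : (0 : ℝ) < n := by exact_mod_cast hn
    have h1 : Real.log ((n + 1 : ℕ) : ℝ) - Real.log n ≤ 1 / n := by
      rw [← Real.log_div (by positivity) hn0.ne']
      have := Real.log_le_sub_one_of_pos (x := ((n + 1 : ℕ) : ℝ) / n) (by positivity)
      have e : ((n + 1 : ℕ) : ℝ) / n - 1 = 1 / n := by push_cast; field_simp; ring
      linarith
    have h2 : (n : ℝ) * (Real.log ((n + 1 : ℕ) : ℝ) - Real.log n) ≤ 1 := by
      calc (n : ℝ) * (Real.log ((n + 1 : ℕ) : ℝ) - Real.log n) ≤ n * (1 / n) :=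
            mul_le_mul_of_nonneg_left h1 hn0.le
        _ = 1 := by field_simp
    push_cast at *
    nlinarith

theorem log_fact_le (n : ℕ) (hn : 1 ≤ n) :
    ∑ k ∈ Ioc 0 n, Real.log k ≤ n * Real.log n - n + 1 + Real.log n := by
  induction n, hn using Nat.le_induction with
  | base => simp
  | succ n hn ih =>
    rw [sum_Ioc_succ_top (by omega)]
    have hn0 : (0 : ℝ) < n := by exact_mod_cast hn
    have h1 : 1 / ((n + 1 : ℕ) : ℝ) ≤ Real.log ((n + 1 : ℕ) : ℝ) - Real.log n := by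
      have h := Real.log_le_sub_one_of_pos (x := (n : ℝ) / ((n + 1 : ℕ) : ℝ)) (by positivity)
      rw [Real.log_div hn0.ne' (by positivity)] at h
      have e : (n : ℝ) / ((n + 1 : ℕ) : ℝ) - 1 = - (1 / ((n + 1 : ℕ) : ℝ)) := by
        push_cast; field_simp; ring
      linarith
    have h2 : 1 ≤ ((n + 1 : ℕ) : ℝ) * (Real.log ((n + 1 : ℕ) : ℝ) - Real.log n) := by
      calc (1 : ℝ) = ((n + 1 : ℕ) : ℝ) * (1 / ((n + 1 : ℕ) : ℝ)) := by field_simp
        _ ≤ _ := mul_le_mul_of_nonneg_left h1 (by positivity)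
    push_cast at *
    nlinarith

theorem Mt_ge (n : ℕ) (hn : 1 ≤ n) : Real.log n - 1 ≤ Mt n := by
  have hn0 : (0 : ℝ) < n := by exact_mod_cast hn
  have h1 := log_fact_ge n hn
  rw [log_fact_eq] at h1
  have h2 : ∑ d ∈ Ioc 0 n, Λ d * ((n / d : ℕ) : ℝ) ≤ n * Mt n := by
    unfold Mt
    rw [mul_sum]
    apply sum_le_sum
    intro d _
    have := @Nat.cast_div_le ℝ _ _ _ n d
    calc Λ d * ((n / d : ℕ) : ℝ) ≤ Λ d * ((n : ℝ) / d) :=
          mul_le_mul_of_nonneg_left this ArithmeticFunction.vonMangoldt_nonneg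
      _ = n * (Λ d / d) := by ring
  have h3 : (n : ℝ) * (Real.log n - 1) ≤ n * Mt n := by linarith
  exact le_of_mul_le_mul_left h3 hn0

theorem sum_inv_le_log (m n : ℕ) (hm : 1 ≤ m) (hmn : m ≤ n) :
    ∑ k ∈ Ioc m n, (1 : ℝ) / k ≤ Real.log n - Real.log m := by
  induction n, hmn using Nat.le_induction with
  | base => simp
  | succ n hn ih =>
    rw [sum_Ioc_succ_top (by omega)]
    have hn0 : (0 : ℝ) < n := by exact_mod_cast (by omega : 0 < n)
    have h1 : 1 / ((n + 1 : ℕ) : ℝ) ≤ Real.log ((n + 1 : ℕ) : ℝ) - Real.log n := by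
      have h := Real.log_le_sub_one_of_pos (x := (n : ℝ) / ((n + 1 : ℕ) : ℝ)) (by positivity)
      rw [Real.log_div hn0.ne' (by positivity)] at h
      have e : (n : ℝ) / ((n + 1 : ℕ) : ℝ) - 1 = - (1 / ((n + 1 : ℕ) : ℝ)) := by
        push_cast; field_simp; ring
      linarith
    linarith

/-- Weight bounding the fractional part of `n / d`. -/
noncomputable def hf (n d : ℕ) : ℝ := if 2 * d ≤ n then 1 else (n : ℝ) / d - 1

theorem frac_le {n d : ℕ} (hd : 0 < d) (hdn : d ≤ n) :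
    (n : ℝ) / d ≤ ((n / d : ℕ) : ℝ) + hf n d := by
  have hd0 : (0 : ℝ) < d := by exact_mod_cast hd
  unfold hf
  split_ifs with h
  · rw [div_le_iff₀ hd0]
    have h1 := Nat.div_add_mod n d
    have h2 := Nat.mod_lt n hd
    have h3 : n ≤ d * (n / d) + d := by omega
    have h4 : (n : ℝ) ≤ d * ((n / d : ℕ) : ℝ) + d := by exact_mod_cast h3
    linarith
  · have : n / d = 1 := by
      apply Nat.div_eq_of_lt_le
      · omega
      · omega
    rw [this]; push_cast; linarith

theorem hf_nonneg {n d : ℕ} (hd : 0 < d) (hdn : d ≤ n) : 0 ≤ hf n d := by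
  unfold hf
  split_ifs with h
  · norm_num
  · have hd0 : (0 : ℝ) < d := by exact_mod_cast hd
    rw [sub_nonneg, one_le_div hd0]
    exact_mod_cast hdn

theorem hf_le_one {n d : ℕ} (hd : 0 < d) : hf n d ≤ 1 := by
  unfold hf
  split_ifs with h
  · norm_num
  · have hd0 : (0 : ℝ) < d := by exact_mod_cast hd
    have : (n : ℝ) ≤ 2 * d := by exact_mod_cast (by omega : n ≤ 2 * d)
    rw [sub_le_iff_le_add, div_le_iff₀ hd0]
    linarith

theorem hf_anti {n d : ℕ} (hd : 0 < d) (_hdn : d < n) : hf n (d + 1) ≤ hf n d := by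
  by_cases h : 2 * d ≤ n
  · have : hf n d = 1 := by unfold hf; rw [if_pos h]
    rw [this]; exact hf_le_one (by omega)
  · have h' : ¬ 2 * (d + 1) ≤ n := by omega
    unfold hf
    rw [if_neg h, if_neg h']
    have hd0 : (0 : ℝ) < d := by exact_mod_cast hd
    have : (n : ℝ) / ((d + 1 : ℕ) : ℝ) ≤ n / d := by
      apply div_le_div_of_nonneg_left (by positivity) hd0
      push_cast; linarith
    linarith

theorem sum_hf_le (n : ℕ) (hn : 2 ≤ n) : ∑ d ∈ Ioc 0 n, hf n d ≤ n * Real.log 2 + 1 := by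
  have h1 : Ioc 0 n = Ioc 0 (n / 2) ∪ Ioc (n / 2) n := by
    rw [Ioc_union_Ioc_eq_Ioc (by omega) (by omega)]
  have h2 : Disjoint (Ioc 0 (n / 2)) (Ioc (n / 2) n) := by
    rw [disjoint_left]; intro x hx hy; simp at hx hy; omega
  rw [h1, sum_union h2]
  have h3 : ∑ d ∈ Ioc 0 (n / 2), hf n d = (n / 2 : ℕ) := by
    rw [sum_congr rfl (g := fun _ => (1 : ℝ))]
    · simp
    · intro d hd
      unfold hf
      rw [if_pos]
      simp at hd; omega
  have h4 : ∑ d ∈ Ioc (n / 2) n, hf n d = n * ∑ d ∈ Ioc (n / 2) n, (1 : ℝ) / d - ((n - n / 2 : ℕ) : ℝ) := by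
    rw [sum_congr rfl (g := fun d : ℕ => (n : ℝ) * (1 / (d : ℝ)) - 1)]
    · rw [sum_sub_distrib, ← mul_sum]
      simp
    · intro d hd
      unfold hf
      rw [if_neg]
      · ring
      · simp at hd; omega
  have h5 := sum_inv_le_log (n / 2) n (by omega) (by omega)
  rw [h3, h4]
  have hm0 : (0 : ℝ) < (n / 2 : ℕ) := by exact_mod_cast (by omega : 0 < n / 2)
  rcases Nat.even_or_odd' n with ⟨m, rfl | rfl⟩
  · have e1 : 2 * m / 2 = m := by omega
    have e2 : 2 * m - 2 * m / 2 = m := by omega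
    rw [e1] at h5 ⊢
    rw [show 2 * m - m = m by omega]
    have hm : (0 : ℝ) < m := by rw [e1] at hm0; exact hm0
    have : Real.log ((2 * m : ℕ) : ℝ) - Real.log m = Real.log 2 := by
      push_cast; rw [Real.log_mul (by norm_num) hm.ne']; ring
    rw [this] at h5
    have h6 := mul_le_mul_of_nonneg_left h5 (by positivity : (0 : ℝ) ≤ ((2 * m : ℕ) : ℝ))
    linarith
  · have e1 : (2 * m + 1) / 2 = m := by omega
    rw [e1] at h5 hm0 ⊢
    rw [show 2 * m + 1 - m = m + 1 by omega]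
    have h6 : Real.log ((2 * m + 1 : ℕ) : ℝ) - Real.log m ≤ Real.log 2 + 1 / (2 * m) := by
      have : Real.log ((2 * m + 1 : ℕ) : ℝ) - Real.log m = Real.log 2 + Real.log (((2 * m + 1 : ℕ) : ℝ) / (2 * m)) := by
        rw [← Real.log_div (by positivity) hm0.ne', ← Real.log_mul (by norm_num) (by positivity)]
        congr 1; field_simp
      rw [this]
      have h7 := Real.log_le_sub_one_of_pos (x := ((2 * m + 1 : ℕ) : ℝ) / (2 * m)) (by positivity)
      have e : ((2 * m + 1 : ℕ) : ℝ) / (2 * m) - 1 = 1 / (2 * m) := by push_cast; field_simp; ring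
      linarith
    have h8 := mul_le_mul_of_nonneg_left (h5.trans h6) (by positivity : (0 : ℝ) ≤ ((2 * m + 1 : ℕ) : ℝ))
    have h9 : ((2 * m + 1 : ℕ) : ℝ) * (1 / (2 * m)) ≤ 2 := by
      rw [mul_one_div, div_le_iff₀ (by positivity)]
      push_cast
      have : (1 : ℝ) ≤ m := by exact_mod_cast (by omega : 1 ≤ m)
      linarith
    push_cast at *
    linarith

theorem card_primesLE_le (m : ℕ) (hm : 1 ≤ m) : 2 * (Nat.primesLE m).card ≤ m + 1 := by
  have h : ∀ m : ℕ, 1 ≤ m → 2 * (Nat.primesLE m).card ≤ m + 1 ∧ 2 * (Nat.primesLE (m + 1)).card ≤ m + 2 := by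
    intro m hm
    induction m, hm using Nat.le_induction with
    | base => decide
    | succ m hm ih =>
      refine ⟨ih.2, ?_⟩
      have h1 : Nat.primesLE (m + 1 + 1) ⊆ Nat.primesLE m ∪ {m + 1 + 1, m + 1} := by
        intro p hp
        rw [Nat.mem_primesLE] at hp
        simp only [mem_union, Nat.mem_primesLE, mem_insert, mem_singleton]
        by_cases h : p ≤ m
        · exact Or.inl ⟨h, hp.2⟩
        · right; omega
      have h2 : ∃ q, (Nat.primesLE (m + 1 + 1)) ⊆ insert q (Nat.primesLE m) ∨ m + 1 + 1 ≤ 3 := by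
        rcases le_or_gt (m + 1 + 1) 3 with h | h
        · exact ⟨0, Or.inr h⟩
        · have h3 : ∃ q, ∀ p, p.Prime → m < p → p ≤ m + 1 + 1 → p = q := by
            rcases Nat.even_or_odd m with hm | hm
            · refine ⟨m + 1, fun p hp h4 h5 => ?_⟩
              by_contra h6
              have h7 : p = m + 1 + 1 := by omega
              have h8 : Even p := by rw [h7]; exact (hm.add_one).add_one
              have := (hp.even_iff).1 h8
              omega
            · refine ⟨m + 1 + 1, fun p hp h4 h5 => ?_⟩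
              by_contra h6
              have h7 : p = m + 1 := by omega
              have h8 : Even p := by rw [h7]; exact hm.add_one
              have := (hp.even_iff).1 h8
              omega
          obtain ⟨q, hq⟩ := h3
          refine ⟨q, Or.inl ?_⟩
          intro p hp
          rw [Nat.mem_primesLE] at hp
          rw [mem_insert, Nat.mem_primesLE]
          by_cases h : p ≤ m
          · exact Or.inr ⟨h, hp.2⟩
          · exact Or.inl (hq p hp.2 (by omega) hp.1)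
      obtain ⟨q, hq | hq⟩ := h2
      · have := card_le_card hq
        have h4 := card_insert_le q (Nat.primesLE m)
        have := ih.1
        omega
      · have : m = 1 := by omega
        subst this
        decide
  exact (h m hm).1

theorem psi_sub_theta_le' (n : ℕ) (hn : 1 ≤ n) :
    Chebyshev.psi n - Chebyshev.theta n ≤ (Real.sqrt n + 1) / 2 * Real.log n := by
  rw [Chebyshev.psi_eq_sum_mul_log_prime, Chebyshev.theta_eq_sum_primesLE_log, ← sum_sub_distrib]
  have hs : 1 ≤ n.sqrt := Nat.le_sqrt.2 (by simpa using hn)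
  have hsub : Nat.primesLE n.sqrt ⊆ Nat.primesLE n := by
    intro p hp
    rw [Nat.mem_primesLE] at hp ⊢
    exact ⟨hp.1.trans (Nat.sqrt_le_self n), hp.2⟩
  have h0 : ∑ p ∈ Nat.primesLE n, ((Nat.log p n : ℝ) * Real.log p - Real.log p)
      = ∑ p ∈ Nat.primesLE n.sqrt, ((Nat.log p n : ℝ) * Real.log p - Real.log p) := by
    symm
    apply sum_subset hsub
    intro p hp hnp
    rw [Nat.mem_primesLE] at hp hnp
    have hlt : n.sqrt < p := by
      by_contra h
      push Not at h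
      exact hnp ⟨h, hp.2⟩
    have h1 : n < p * p := Nat.sqrt_lt.1 hlt
    have h2 : Nat.log p n = 1 := by
      rw [Nat.log_eq_iff]
      · refine ⟨by simp; exact hp.1, by rw [sq]; exact h1⟩
      · left; norm_num
    rw [h2]; simp
  rw [h0]
  have h1 : ∀ p ∈ Nat.primesLE n.sqrt, ((Nat.log p n : ℝ) * Real.log p - Real.log p) ≤ Real.log n := by
    intro p hp
    rw [Nat.mem_primesLE] at hp
    have hp0 : (0 : ℝ) < p := by exact_mod_cast hp.2.pos
    have h2 : (Nat.log p n : ℝ) * Real.log p ≤ Real.log n := by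
      rw [← Real.log_pow]
      apply Real.log_le_log (by positivity)
      exact_mod_cast Nat.pow_log_le_self p (by omega)
    have h3 : 0 ≤ Real.log p := Real.log_natCast_nonneg p
    linarith
  refine (sum_le_sum h1).trans ?_
  rw [sum_const, nsmul_eq_mul]
  apply mul_le_mul_of_nonneg_right _ (Real.log_natCast_nonneg n)
  have h4 := card_primesLE_le n.sqrt hs
  have h5 : (2 : ℝ) * (Nat.primesLE n.sqrt).card ≤ n.sqrt + 1 := by exact_mod_cast h4
  have h6 : (n.sqrt : ℝ) ≤ Real.sqrt n := Real.nat_sqrt_le_real_sqrt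
  linarith

theorem Mt_le (n : ℕ) (hn : 1024 ≤ n) : Mt n ≤ Real.log n + 0.0818 := by
  have hn0 : (0 : ℝ) < n := by exact_mod_cast (by omega : 0 < n)
  have hnr : (1024 : ℝ) ≤ n := by exact_mod_cast hn
  have h1 : n * Mt n ≤ ∑ d ∈ Ioc 0 n, Λ d * ((n / d : ℕ) : ℝ) + ∑ d ∈ Ioc 0 n, Λ d * hf n d := by
    unfold Mt
    rw [mul_sum, ← sum_add_distrib]
    apply sum_le_sum
    intro d hd
    rw [mem_Ioc] at hd
    have := frac_le hd.1 hd.2
    have := mul_le_mul_of_nonneg_left this (ArithmeticFunction.vonMangoldt_nonneg (n := d))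
    calc (n : ℝ) * (Λ d / d) = Λ d * (n / d) := by ring
      _ ≤ _ := by linarith
  rw [← log_fact_eq] at h1
  have h2 := log_fact_le n (by omega)
  -- the fractional part sum
  have h3 : ∑ d ∈ Ioc 0 n, Λ d * hf n d
      ≤ ∑ d ∈ Ioc 0 n, (if d.Prime then Real.log d else 0) * hf n d
        + (Chebyshev.psi n - Chebyshev.theta n) := by
    have e1 : Chebyshev.psi n - Chebyshev.theta n
        = ∑ d ∈ Ioc 0 n, (Λ d - (if d.Prime then Real.log d else 0)) := by
      rw [sum_sub_distrib, Chebyshev.psi, Chebyshev.theta, sum_filter]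
      simp
    rw [e1, ← sum_add_distrib]
    apply sum_le_sum
    intro d hd
    rw [mem_Ioc] at hd
    have k1 := hf_le_one (n := n) hd.1
    have k2 : 0 ≤ Λ d - (if d.Prime then Real.log d else 0) := by
      split_ifs with hp
      · rw [ArithmeticFunction.vonMangoldt_apply_prime hp]; simp
      · simpa using ArithmeticFunction.vonMangoldt_nonneg
    nlinarith
  have h4 : ∑ d ∈ Ioc 0 n, (if d.Prime then Real.log d else 0) * hf n d
      ≤ ∑ d ∈ Ioc 0 n, Real.log 4 * hf n d + 0 * hf n (0 + 1) := by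
    apply abel_le (Nat.zero_le n) le_rfl
    · intro k hk1 hk2; exact hf_nonneg hk1 hk2
    · exact hf_nonneg (by omega) (by omega)
    · intro k hk1 hk2; exact hf_anti hk1 hk2
    · intro m _ _
      have := Chebyshev.theta_le_log4_mul_x (x := (m : ℝ)) (by positivity)
      rw [Chebyshev.theta, sum_filter] at this
      simp only [Nat.floor_natCast] at this
      simp only [sum_const, Nat.card_Ioc, nsmul_eq_mul, Nat.sub_zero, add_zero]
      linarith
  rw [← mul_sum] at h4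
  have h5 := sum_hf_le n (by omega)
  have h6 := psi_sub_theta_le' n (by omega)
  -- numerical bounds
  have l2 := Real.log_two_lt_d9
  have l2' := Real.log_two_gt_d9
  have l4 : Real.log 4 = 2 * Real.log 2 := by
    rw [show (4 : ℝ) = 2 ^ 2 by norm_num, Real.log_pow]; norm_num
  have l4pos : 0 < Real.log 4 := by rw [l4]; linarith
  have hs32 : (32 : ℝ) ≤ Real.sqrt n := by
    rw [show (32 : ℝ) = Real.sqrt 1024 by
      rw [show (1024 : ℝ) = 32 ^ 2 by norm_num, Real.sqrt_sq (by norm_num)]]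
    exact Real.sqrt_le_sqrt hnr
  have hss : Real.sqrt n * Real.sqrt n = n := Real.mul_self_sqrt hn0.le
  have hlog : Real.log n ≤ 0.21661 * Real.sqrt n := by
    have hanti := Real.log_div_sqrt_antitoneOn
    have he : Real.exp 2 ≤ 1024 := by
      have := Real.exp_one_lt_d9
      have h : Real.exp 2 = Real.exp 1 * Real.exp 1 := by rw [← Real.exp_add]; norm_num
      rw [h]
      have := Real.exp_pos 1
      nlinarith
    have := hanti (Set.mem_Ici.2 he) (Set.mem_Ici.2 (he.trans hnr)) hnr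
    simp only at this
    have e1 : Real.sqrt 1024 = 32 := by
      rw [show (1024 : ℝ) = 32 ^ 2 by norm_num, Real.sqrt_sq (by norm_num)]
    have e2 : Real.log 1024 = 10 * Real.log 2 := by
      rw [show (1024 : ℝ) = 2 ^ 10 by norm_num, Real.log_pow]; norm_num
    rw [e1, e2] at this
    have hspos : 0 < Real.sqrt n := by linarith
    rw [div_le_iff₀ hspos] at this
    refine this.trans ?_
    apply mul_le_mul_of_nonneg_right _ hspos.le
    linarith
  have hlog0 : 0 ≤ Real.log n := Real.log_natCast_nonneg n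
  have h7 : (Real.sqrt n + 1) / 2 * Real.log n ≤ 0.11169 * n := by
    calc (Real.sqrt n + 1) / 2 * Real.log n ≤ (Real.sqrt n + 1) / 2 * (0.21661 * Real.sqrt n) :=
          mul_le_mul_of_nonneg_left hlog (by positivity)
      _ = 0.108305 * (Real.sqrt n * Real.sqrt n) + 0.108305 * Real.sqrt n := by ring
      _ ≤ 0.11169 * n := by
        rw [hss]
        nlinarith
  have h8 : Real.log n ≤ 0.00677 * n := by nlinarith
  have h9 : Real.log 4 * (∑ d ∈ Ioc 0 n, hf n d) ≤ Real.log 4 * (n * Real.log 2 + 1) :=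
    mul_le_mul_of_nonneg_left h5 l4pos.le
  have h10 : Real.log 4 * (n * Real.log 2 + 1) ≤ 0.96091 * n + 1.3863 := by
    rw [l4]
    have : Real.log 2 * Real.log 2 ≤ 0.480453015 := by nlinarith
    nlinarith
  have h11 : n * Mt n ≤ n * (Real.log n + 0.0818) := by nlinarith
  exact le_of_mul_le_mul_left h11 hn0

end Pool.Agent.H91.Gold

end

section

/-!
A sharper explicit form of the theorem of Mertens for `∑ log p / p` and `∑ 1/p`, by linear
combinations of `log n!`.
-/

namespace Pool.Agent.H91.Gold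

open Finset Real
open scoped ArithmeticFunction.vonMangoldt

/-- `log n!` -/
noncomputable def Tf (n : ℕ) : ℝ := ∑ k ∈ Ioc 0 n, Real.log k

theorem psi_eq (n : ℕ) : Chebyshev.psi n = ∑ d ∈ Ioc 0 n, Λ d := by
  rw [Chebyshev.psi]; simp

theorem Tf_div (m n i : ℕ) (hmi : m / i ≤ n) :
    Tf (m / i) = ∑ d ∈ Ioc 0 n, Λ d * (((m / d) / i : ℕ) : ℝ) := by
  unfold Tf
  rw [log_fact_eq]
  have h1 : ∑ d ∈ Ioc 0 (m / i), Λ d * ((m / i / d : ℕ) : ℝ)
      = ∑ d ∈ Ioc 0 (m / i), Λ d * (((m / d) / i : ℕ) : ℝ) := by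
    apply sum_congr rfl
    intro d _
    rw [Nat.div_div_eq_div_mul, Nat.div_div_eq_div_mul, mul_comm i d]
  rw [h1]
  apply sum_subset
  · intro d hd
    rw [mem_Ioc] at hd ⊢
    omega
  · intro d hd hd'
    rw [mem_Ioc] at hd hd'
    have h2 : m / i < d := by omega
    have h3 : m / d / i = 0 := by
      rw [Nat.div_div_eq_div_mul, mul_comm d i, ← Nat.div_div_eq_div_mul]
      exact Nat.div_eq_of_lt h2
    rw [h3]; simp

theorem Tf_ge {m i : ℕ} (hi : 1 ≤ i) (him : i ≤ m) :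
    (m : ℝ) / i * Real.log ((m : ℝ) / i) - (m : ℝ) / i - Real.log ((m : ℝ) / i) ≤ Tf (m / i) := by
  have hi0 : (0 : ℝ) < i := by exact_mod_cast hi
  have hm0 : (0 : ℝ) < m := by exact_mod_cast (by omega : 0 < m)
  have h1 : 1 ≤ m / i := (Nat.one_le_div_iff hi).2 him
  have h2 := log_fact_ge (m / i) h1
  set k := m / i with hk
  set x : ℝ := (m : ℝ) / i with hx
  have hx0 : 0 < x := by positivity
  have hk0 : (0 : ℝ) < k := by exact_mod_cast h1
  have hkx : (k : ℝ) ≤ x := Nat.cast_div_le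
  have hxk : x ≤ k + 1 := by
    rw [hx, div_le_iff₀ hi0]
    have h3 := Nat.div_add_mod m i
    have h4 := Nat.mod_lt m (show 0 < i by omega)
    have h5 : m ≤ (k + 1) * i := by rw [hk]; nlinarith only [h3, h4]
    exact_mod_cast h5
  have hx1 : 1 ≤ x := by
    have : (1 : ℝ) ≤ k := by exact_mod_cast h1
    linarith
  have h3 := Real.log_le_sub_one_of_pos (x := x / k) (by positivity)
  rw [Real.log_div hx0.ne' hk0.ne'] at h3
  have h4 : (k : ℝ) * (Real.log x - Real.log k) ≤ x - k := by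
    calc (k : ℝ) * (Real.log x - Real.log k) ≤ k * (x / k - 1) :=
          mul_le_mul_of_nonneg_left h3 hk0.le
      _ = x - k := by field_simp
  have h5 : 0 ≤ Real.log x := Real.log_nonneg hx1
  have h6 : (x - k) * Real.log x ≤ 1 * Real.log x :=
    mul_le_mul_of_nonneg_right (by linarith) h5
  unfold Tf
  nlinarith only [h2, h4, h6]

theorem Tf_le {m i : ℕ} (hi : 1 ≤ i) (him : i ≤ m) :
    Tf (m / i) ≤ (m : ℝ) / i * Real.log ((m : ℝ) / i) - (m : ℝ) / i + 1 + Real.log ((m : ℝ) / i) := by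
  have hi0 : (0 : ℝ) < i := by exact_mod_cast hi
  have hm0 : (0 : ℝ) < m := by exact_mod_cast (by omega : 0 < m)
  have h1 : 1 ≤ m / i := (Nat.one_le_div_iff hi).2 him
  have h2 := log_fact_le (m / i) h1
  set k := m / i with hk
  set x : ℝ := (m : ℝ) / i with hx
  have hx0 : 0 < x := by positivity
  have hk0 : (0 : ℝ) < k := by exact_mod_cast h1
  have hk1 : (1 : ℝ) ≤ k := by exact_mod_cast h1
  have hkx : (k : ℝ) ≤ x := Nat.cast_div_le
  have h3 := Real.log_le_sub_one_of_pos (x := k / x) (by positivity)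
  rw [Real.log_div hk0.ne' hx0.ne'] at h3
  have h4 : x - k ≤ x * (Real.log x - Real.log k) := by
    calc x - k = x * (-(k / x - 1)) := by field_simp; ring
      _ ≤ x * (Real.log x - Real.log k) := mul_le_mul_of_nonneg_left (by linarith only [h3]) hx0.le
  have h5 : 0 ≤ Real.log k := Real.log_nonneg hk1
  have h6 : Real.log k ≤ Real.log x := Real.log_le_log hk0 hkx
  have h7 : 0 ≤ (x - k) * Real.log k := mul_nonneg (by linarith) h5
  unfold Tf
  nlinarith only [h2, h4, h6, h7]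

/-! ### The theorem of Hanson: `ψ(n) ≤ n log 3` -/

def lcmChk : ℕ → ℕ → ℕ → ℕ → Bool
  | 0, _, _, _ => true
  | f + 1, n, L, T => Nat.ble L T && lcmChk f (n + 1) (Nat.lcm L (n + 1)) (3 * T)

theorem lcmUpto_succ (n : ℕ) : Nat.lcmUpto (n + 1) = Nat.lcm (Nat.lcmUpto n) (n + 1) := by
  have h1 : Icc 1 (n + 1) = insert (n + 1) (Icc 1 n) := by
    ext x; simp only [mem_Icc, mem_insert]; omega
  unfold Nat.lcmUpto
  rw [h1, Finset.lcm_insert]
  simp only [id_eq]
  rw [← lcm_comm]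
  rfl

theorem lcmChk_spec (f n : ℕ) (h : lcmChk f n (Nat.lcmUpto n) (3 ^ n) = true) :
    ∀ m, n ≤ m → m < n + f → Nat.lcmUpto m ≤ 3 ^ m := by
  induction f generalizing n with
  | zero => intro m h1 h2; omega
  | succ f ih =>
    intro m h1 h2
    simp only [lcmChk, Bool.and_eq_true, Nat.ble_eq] at h
    rcases eq_or_lt_of_le h1 with h3 | h3
    · subst h3; exact h.1
    · apply ih (n + 1) _ m (by omega) (by omega)
      rw [lcmUpto_succ, pow_succ, mul_comm (3 ^ n) 3]
      exact h.2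

theorem lcmChk_run : lcmChk 3001 0 1 1 = true := by decide +kernel

theorem psi_small {n : ℕ} (hn : n ≤ 3000) : Chebyshev.psi n ≤ Real.log 3 * n := by
  have h0 : Nat.lcmUpto 0 = 1 := by unfold Nat.lcmUpto; simp
  have h1 := lcmChk_spec 3001 0 (by rw [h0, pow_zero]; exact lcmChk_run) n (by omega) (by omega)
  rw [Chebyshev.psi_eq_log_lcmUpto]
  have h2 : (0 : ℝ) < Nat.lcmUpto n := by exact_mod_cast Nat.lcmUpto_pos n
  calc Real.log (Nat.lcmUpto n) ≤ Real.log ((3 : ℝ) ^ n) := by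
        apply Real.log_le_log h2
        exact_mod_cast h1
    _ = Real.log 3 * n := by rw [Real.log_pow]; ring

theorem psi_step (n : ℕ) : Chebyshev.psi n ≤ Chebyshev.psi ((n / 1806 : ℕ) : ℝ)
    + (Tf n - Tf (n / 2) - Tf (n / 3) - Tf (n / 7) - Tf (n / 43) - Tf (n / 1806)) := by
  have e : ∀ i : ℕ, 1 ≤ i → Tf (n / i) = ∑ d ∈ Ioc 0 n, Λ d * (((n / d) / i : ℕ) : ℝ) := by
    intro i hi
    exact Tf_div _ _ _ (Nat.div_le_self _ _)
  have e1 := e 1 le_rfl
  rw [Nat.div_one] at e1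
  rw [e1, e 2 (by norm_num), e 3 (by norm_num), e 7 (by norm_num), e 43 (by norm_num),
    e 1806 (by norm_num), psi_eq, psi_eq]
  have h1 : ∑ d ∈ Ioc 0 (n / 1806), Λ d = ∑ d ∈ Ioc 0 n, (if 1806 ≤ n / d then Λ d else 0) := by
    rw [← sum_filter]
    apply sum_congr _ (fun _ _ => rfl)
    ext d
    simp only [mem_Ioc, mem_filter]
    constructor
    · rintro ⟨h1, h2⟩
      have h3 : d * 1806 ≤ n := (Nat.le_div_iff_mul_le (by norm_num)).1 h2
      refine ⟨⟨h1, by omega⟩, (Nat.le_div_iff_mul_le h1).2 (by linarith)⟩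
    · rintro ⟨⟨h1, h2⟩, h3⟩
      refine ⟨h1, (Nat.le_div_iff_mul_le (by norm_num)).2 ?_⟩
      have := (Nat.le_div_iff_mul_le h1).1 h3
      linarith
  rw [h1]
  simp only [← sum_sub_distrib, ← sum_add_distrib]
  apply sum_le_sum
  intro d hd
  rw [mem_Ioc] at hd
  have hL := ArithmeticFunction.vonMangoldt_nonneg (n := d)
  have ht : 1 ≤ n / d := (Nat.one_le_div_iff hd.1).2 hd.2
  set t := n / d with htd
  have key : 1 + (t / 2 + t / 3 + t / 7 + t / 43 + t / 1806) ≤ (if 1806 ≤ t then 1 else 0) + t := by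
    split_ifs with h <;> omega
  have key2 : (1 : ℝ) + ((t / 2 : ℕ) + (t / 3 : ℕ) + (t / 7 : ℕ) + (t / 43 : ℕ) + (t / 1806 : ℕ))
      ≤ (if 1806 ≤ t then (1 : ℝ) else 0) + t := by
    have := (Nat.cast_le (α := ℝ)).2 key
    push_cast at this
    exact this
  rw [Nat.div_one]
  have := mul_le_mul_of_nonneg_left key2 hL
  have h5 : Λ d * (if 1806 ≤ t then (1 : ℝ) else 0) = if 1806 ≤ t then Λ d else 0 := by
    split_ifs <;> simp
  simp only [mul_add, h5] at this
  linarith only [this]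

theorem log_three_bounds : (84 : ℝ) / 53 * Real.log 2 ≤ Real.log 3 ∧ Real.log 3 ≤ 485 / 306 * Real.log 2 := by
  constructor
  · have h : Real.log ((2 : ℝ) ^ 84) ≤ Real.log ((3 : ℝ) ^ 53) :=
      Real.log_le_log (by norm_num) (by norm_num)
    rw [Real.log_pow, Real.log_pow] at h
    push_cast at h
    linarith
  · have h : Real.log ((9 : ℝ) ^ 153) ≤ Real.log ((32 : ℝ) ^ 97) :=
      Real.log_le_log (by norm_num) (by norm_num)
    rw [Real.log_pow, Real.log_pow, show (9 : ℝ) = 3 ^ 2 by norm_num,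
      show (32 : ℝ) = 2 ^ 5 by norm_num, Real.log_pow, Real.log_pow] at h
    push_cast at h
    linarith

theorem log_seven_le : Real.log 7 ≤ 73 / 26 * Real.log 2 := by
  have h : Real.log ((7 : ℝ) ^ 26) ≤ Real.log ((2 : ℝ) ^ 73) :=
    Real.log_le_log (by norm_num) (by norm_num)
  rw [Real.log_pow, Real.log_pow] at h
  push_cast at h
  linarith

theorem log_43_le : Real.log 43 ≤ 38 / 7 * Real.log 2 := by
  have h : Real.log ((43 : ℝ) ^ 7) ≤ Real.log ((2 : ℝ) ^ 38) :=
    Real.log_le_log (by norm_num) (by norm_num)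
  rw [Real.log_pow, Real.log_pow] at h
  push_cast at h
  linarith

/-- The theorem of Hanson: `lcm(1,...,n) ≤ 3 ^ n`. -/
theorem psi_le_log_three (n : ℕ) : Chebyshev.psi n ≤ Real.log 3 * n := by
  induction n using Nat.strong_induction_on with
  | _ n ih =>
    by_cases hn : n ≤ 3000
    · exact psi_small hn
    push Not at hn
    have h0 := ih (n / 1806) (by omega)
    have h1 := psi_step n
    have hn0 : (3000 : ℝ) < n := by exact_mod_cast hn
    have hnp : (0 : ℝ) < n := by linarith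
    have hd : ((n / 1806 : ℕ) : ℝ) ≤ (n : ℝ) / 1806 := by
      have := @Nat.cast_div_le ℝ _ _ _ n 1806
      exact_mod_cast this
    have t1 := Tf_le (m := n) (i := 1) le_rfl (by omega)
    have t2 := Tf_ge (m := n) (i := 2) (by norm_num) (by omega)
    have t3 := Tf_ge (m := n) (i := 3) (by norm_num) (by omega)
    have t7 := Tf_ge (m := n) (i := 7) (by norm_num) (by omega)
    have t43 := Tf_ge (m := n) (i := 43) (by norm_num) (by omega)
    have t1806 := Tf_ge (m := n) (i := 1806) (by norm_num) (by omega)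
    rw [Nat.div_one] at t1
    push_cast at t1 t2 t3 t7 t43 t1806
    rw [div_one] at t1
    rw [Real.log_div hnp.ne' (by norm_num)] at t2 t3 t7 t43 t1806
    have l3 := log_three_bounds
    have l7 := log_seven_le
    have l43 := log_43_le
    have l2 := Real.log_two_lt_d9
    have l2' := Real.log_two_gt_d9
    have e1806 : Real.log 1806 = Real.log 2 + Real.log 3 + Real.log 7 + Real.log 43 := by
      rw [← Real.log_mul (by norm_num) (by norm_num), ← Real.log_mul (by norm_num) (by norm_num),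
        ← Real.log_mul (by norm_num) (by norm_num)]
      norm_num
    have p7 : 0 < Real.log 7 := Real.log_pos (by norm_num)
    have p43 : (3.5 : ℝ) ≤ Real.log 43 := by
      have h : Real.log ((2 : ℝ) ^ 5) ≤ Real.log 43 := Real.log_le_log (by norm_num) (by norm_num)
      rw [Real.log_pow] at h
      have h' : (3.4657 : ℝ) ≤ Real.log 43 := by push_cast at h; linarith only [l2', h]
      have h2 : Real.log ((2 : ℝ) ^ 27) ≤ Real.log ((43 : ℝ) ^ 5) := Real.log_le_log (by norm_num) (by norm_num)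
      rw [Real.log_pow, Real.log_pow] at h2
      push_cast at h2
      linarith only [l2', h2]
    have p7' : (1.9 : ℝ) ≤ Real.log 7 := by
      have h2 : Real.log ((2 : ℝ) ^ 14) ≤ Real.log ((7 : ℝ) ^ 5) := Real.log_le_log (by norm_num) (by norm_num)
      rw [Real.log_pow, Real.log_pow] at h2
      push_cast at h2
      linarith only [l2', h2]
    -- `log n ≤ n / 4096 - 1 + log 4096`
    have hlog : Real.log n ≤ n / 4096 - 1 + 12 * Real.log 2 := by
      have h := Real.log_le_sub_one_of_pos (x := (n : ℝ) / 4096) (by positivity)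
      rw [Real.log_div hnp.ne' (by norm_num)] at h
      have e : Real.log (4096 : ℝ) = 12 * Real.log 2 := by
        rw [show (4096 : ℝ) = 2 ^ 12 by norm_num, Real.log_pow]; norm_num
      rw [e] at h
      linarith only [h]
    rw [e1806] at t1806
    have main : Chebyshev.psi n ≤ Real.log 3 * (n / 1806)
        + n * (Real.log 2 / 2 + Real.log 3 / 3 + Real.log 7 / 7 + Real.log 43 / 43
            + (Real.log 2 + Real.log 3 + Real.log 7 + Real.log 43) / 1806)
        + 1 + 6 * Real.log n - 2 * (Real.log 2 + Real.log 3 + Real.log 7 + Real.log 43) := by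
      have l3pos : 0 ≤ Real.log 3 := by linarith only [l2', l3.1]
      have := mul_le_mul_of_nonneg_left hd l3pos
      nlinarith
    have e5 : n * (Real.log 2 / 2 + Real.log 3 / 3 + Real.log 7 / 7 + Real.log 43 / 43
            + (Real.log 2 + Real.log 3 + Real.log 7 + Real.log 43) / 1806) + Real.log 3 * (n / 1806) + 6 * (n / 4096)
            + 32
          ≤ Real.log 3 * n := by
      have q1 : Real.log 2 / 2 + Real.log 3 / 3 + Real.log 7 / 7 + Real.log 43 / 43
            + (Real.log 2 + Real.log 3 + Real.log 7 + Real.log 43) / 1806 + Real.log 3 / 1806 + 6 / 4096 + 0.011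
            ≤ Real.log 3 := by linarith only [l7, l43, l2', l3.1]
      have q2 := mul_le_mul_of_nonneg_left q1 hnp.le
      nlinarith only [hn0, q2]
    linarith only [l2, p43, p7', hlog, main, e5, l3.1]

/-! ### Linear combinations of `log n!` -/

/-- `∑ a ⌊k / i⌋` -/
def evl : List (ℕ × ℕ) → ℕ → ℕ
  | [], _ => 0
  | x :: l, k => x.2 * (k / x.1) + evl l k

/-- `∑ a` -/
def sml : List (ℕ × ℕ) → ℕ
  | [] => 0
  | x :: l => x.2 + sml l

/-- `∑ J [s ≤ k]` -/
def stp : List (ℕ × ℕ) → ℕ → ℕ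
  | [], _ => 0
  | x :: l, k => (if x.1 ≤ k then x.2 else 0) + stp l k

/-- `∑ a / i` -/
def rsq : List (ℕ × ℕ) → ℚ
  | [] => 0
  | x :: l => (x.2 : ℚ) / x.1 + rsq l

/-- `∑ a T(q n / i)` -/
noncomputable def Tl (q : ℕ) : List (ℕ × ℕ) → ℕ → ℝ
  | [], _ => 0
  | x :: l, n => x.2 * Tf (q * n / x.1) + Tl q l n

/-- `∑ a (q / i) log (q / i)` -/
noncomputable def c0l (q : ℕ) : List (ℕ × ℕ) → ℝ
  | [] => 0
  | x :: l => x.2 * ((q : ℝ) / x.1 * Real.log ((q : ℝ) / x.1)) + c0l q l

theorem Tl_eq {q : ℕ} (l : List (ℕ × ℕ)) (n : ℕ) (hl : ∀ x ∈ l, q ≤ x.1) :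
    Tl q l n = ∑ d ∈ Ioc 0 n, Λ d * (evl l (q * n / d) : ℝ) := by
  induction l with
  | nil => simp [Tl, evl]
  | cons x l ih =>
    have hx := hl x (by simp)
    simp only [Tl, evl]
    rw [ih (fun y hy => hl y (by simp [hy])), Tf_div (q * n) n x.1, mul_sum, ← sum_add_distrib]
    · apply sum_congr rfl
      intro d _
      push_cast
      ring
    · apply Nat.div_le_of_le_mul
      nlinarith

theorem stp_sum {q : ℕ} (l : List (ℕ × ℕ)) (n : ℕ) (hl : ∀ x ∈ l, 1 ≤ x.1) :
    ∑ d ∈ Ioc 0 n, Λ d * (stp l (q * n / d) : ℝ) ≤ Real.log 3 * (q * n) * (rsq l : ℝ) := by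
  induction l with
  | nil => simp [stp, rsq]
  | cons x l ih =>
    have ih' := ih (fun y hy => hl y (by simp [hy]))
    have hx := hl x (by simp)
    have hx0 : (0 : ℝ) < x.1 := by exact_mod_cast hx
    simp only [stp, rsq]
    have h1 : ∑ d ∈ Ioc 0 n, Λ d * (((if x.1 ≤ q * n / d then x.2 else 0) + stp l (q * n / d) : ℕ) : ℝ)
        = x.2 * ∑ d ∈ Ioc 0 n, (if x.1 ≤ q * n / d then Λ d else 0)
          + ∑ d ∈ Ioc 0 n, Λ d * (stp l (q * n / d) : ℝ) := by
      rw [mul_sum, ← sum_add_distrib]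
      apply sum_congr rfl
      intro d _
      split_ifs
      · push_cast; ring
      · push_cast; ring
    have h2 : ∑ d ∈ Ioc 0 n, (if x.1 ≤ q * n / d then Λ d else 0)
        ≤ Chebyshev.psi ((q * n / x.1 : ℕ) : ℝ) := by
      rw [← sum_filter, psi_eq]
      apply sum_le_sum_of_subset_of_nonneg
      · intro d hd
        rw [mem_filter, mem_Ioc] at hd
        rw [mem_Ioc]
        refine ⟨hd.1.1, (Nat.le_div_iff_mul_le hx).2 ?_⟩
        have := (Nat.le_div_iff_mul_le hd.1.1).1 hd.2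
        linarith only [this]
      · intro d _ _
        exact ArithmeticFunction.vonMangoldt_nonneg
    have h3 := psi_le_log_three (q * n / x.1)
    have h4 : ((q * n / x.1 : ℕ) : ℝ) ≤ (q * n : ℝ) / x.1 := by
      have := @Nat.cast_div_le ℝ _ _ _ (q * n) x.1
      push_cast at this
      exact this
    have h5 : 0 ≤ Real.log 3 := Real.log_nonneg (by norm_num)
    have h6 : ∑ d ∈ Ioc 0 n, (if x.1 ≤ q * n / d then Λ d else 0) ≤ Real.log 3 * ((q * n : ℝ) / x.1) :=
      (h2.trans h3).trans (mul_le_mul_of_nonneg_left h4 h5)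
    have h7 := mul_le_mul_of_nonneg_left h6 (Nat.cast_nonneg x.2 : (0 : ℝ) ≤ x.2)
    rw [h1]
    push_cast
    have h8 : (x.2 : ℝ) * (Real.log 3 * ((q * n : ℝ) / x.1)) = Real.log 3 * (q * n) * ((x.2 : ℝ) / x.1) := by
      field_simp
    rw [mul_add, ← h8]
    linarith only [ih', h7]

/-- Main terms of `Tl`. -/
noncomputable def mainT (q : ℕ) (l : List (ℕ × ℕ)) (n : ℕ) : ℝ :=
  n * (Real.log n - 1) * (q * (rsq l : ℝ)) + n * c0l q l

theorem Tl_bounds {q : ℕ} (l : List (ℕ × ℕ)) (n : ℕ) (hq : 1 ≤ q) (hn : 1 ≤ n)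
    (hl : ∀ x ∈ l, q ≤ x.1 ∧ x.1 ≤ n) :
    mainT q l n - sml l * (Real.log n + 1) ≤ Tl q l n
      ∧ Tl q l n ≤ mainT q l n + sml l * (Real.log n + 1) := by
  induction l with
  | nil => simp [Tl, sml, mainT, rsq, c0l]
  | cons x l ih =>
    obtain ⟨ih1, ih2⟩ := ih (fun y hy => hl y (by simp [hy]))
    obtain ⟨hx1, hx2⟩ := hl x (by simp)
    have hx0 : (0 : ℝ) < x.1 := by exact_mod_cast (by omega : 0 < x.1)
    have hq0 : (0 : ℝ) < q := by exact_mod_cast hq
    have hn0 : (0 : ℝ) < n := by exact_mod_cast hn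
    have hle : x.1 ≤ q * n := by nlinarith only [hq, hx2]
    have g1 := Tf_ge (m := q * n) (i := x.1) (by omega) hle
    have g2 := Tf_le (m := q * n) (i := x.1) (by omega) hle
    have e1 : ((q * n : ℕ) : ℝ) / x.1 = n * ((q : ℝ) / x.1) := by push_cast; ring
    have e2 : Real.log ((n : ℝ) * ((q : ℝ) / x.1)) = Real.log n + Real.log ((q : ℝ) / x.1) :=
      Real.log_mul hn0.ne' (by positivity)
    have e3 : Real.log ((q : ℝ) / x.1) ≤ 0 := by
      apply Real.log_nonpos (by positivity)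
      rw [div_le_one hx0]
      exact_mod_cast hx1
    rw [e1, e2] at g1 g2
    have hlog : 0 ≤ Real.log n + 1 := by
      have := Real.log_natCast_nonneg n
      linarith
    have a0 : (0 : ℝ) ≤ x.2 := Nat.cast_nonneg _
    simp only [Tl, sml, mainT, rsq, c0l] at *
    push_cast
    set r : ℝ := (q : ℝ) / x.1 with hr
    have e4 : (q : ℝ) * ((x.2 : ℝ) / x.1) = x.2 * r := by rw [hr]; ring
    have m1 := mul_le_mul_of_nonneg_left g1 a0
    have m2 := mul_le_mul_of_nonneg_left g2 a0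
    have m3 : (x.2 : ℝ) * (Real.log r) ≤ 0 := mul_nonpos_of_nonneg_of_nonpos a0 e3
    have e5 : (n : ℝ) * (Real.log n - 1) * (q * ((x.2 : ℝ) / x.1 + (rsq l : ℝ)))
        = n * (Real.log n - 1) * (q * (rsq l : ℝ)) + x.2 * (n * r * Real.log n - n * r) := by
      rw [mul_add (q : ℝ), e4]; ring
    rw [e5]
    constructor
    · linarith
    · linarith only [ih2, m2, m3]

/-- The parameters of a linear combination, with all conditions checked by computation. -/
structure Cmb where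
  q : ℕ
  L : ℕ
  K : ℕ
  M : ℕ
  P : List (ℕ × ℕ)
  N : List (ℕ × ℕ)
  SU : List (ℕ × ℕ)
  SL : List (ℕ × ℕ)
  w : ℕ

def Cmb.chkU (c : Cmb) (k : ℕ) : Bool :=
  Nat.ble ((2 * (k + 1) + evl c.N k) * c.M) (evl c.P k * c.M + c.w * (k / c.L) + stp c.SU k)

def Cmb.chkL (c : Cmb) (k : ℕ) : Bool :=
  Nat.ble (evl c.P k * c.M + (c.w + 1) * (k / c.L)) ((2 * k + evl c.N k) * c.M + stp c.SL k)

/-- Fast checking loop for the kernel: `f m` for all `lo ≤ m < hi`. -/
def allD (f : ℕ → Bool) (lo hi : ℕ) : Bool :=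
  Nat.rec (motive := fun _ => Bool) true
    (fun m ih => cond (Nat.ble lo m) (cond (f m) ih false) true) hi

theorem allD_spec {f : ℕ → Bool} {lo hi : ℕ} (h : allD f lo hi = true) :
    ∀ k, lo ≤ k → k < hi → f k = true := by
  induction hi with
  | zero => intro k h1 h2; omega
  | succ n ih =>
    intro k h1 h2
    have h3 : cond (Nat.ble lo n) (cond (f n) (allD f lo n) false) true = true := h
    have h4 : lo ≤ n := by omega
    have h5 : Nat.ble lo n = true := by rw [Nat.ble_eq]; exact h4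
    rw [h5] at h3
    simp only [cond_true] at h3
    cases h6 : f n with
    | false => rw [h6] at h3; simp at h3
    | true =>
      rw [h6] at h3
      simp only [cond_true] at h3
      rcases Nat.lt_or_ge k n with h7 | h7
      · exact ih h3 k h1 h7
      · have : k = n := by omega
        rw [this]; exact h6

def stpB : List (ℕ × ℕ) → ℕ → ℕ
  | [], _ => 0
  | x :: l, k => cond (Nat.ble x.1 k) x.2 0 + stpB l k

theorem stp_eq (l : List (ℕ × ℕ)) (k : ℕ) : stp l k = stpB l k := by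
  induction l with
  | nil => rfl
  | cons x l ih =>
    simp only [stp, stpB, ih]
    congr 1
    by_cases h : x.1 ≤ k
    · have h5 : Nat.ble x.1 k = true := by rw [Nat.ble_eq]; exact h
      rw [if_pos h, h5]; rfl
    · have h5 : Nat.ble x.1 k = false := by
        rw [← Bool.not_eq_true, Nat.ble_eq]; exact h
      rw [if_neg h, h5]; rfl

/-- Validity of the parameters. -/
structure Cmb.Valid (c : Cmb) : Prop where
  hq : 1 ≤ c.q
  hM : 1 ≤ c.M
  hL : c.q ≤ c.L
  hP : ∀ x ∈ c.P, c.q ≤ x.1 ∧ x.1 ≤ c.L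
  hN : ∀ x ∈ c.N, c.q ≤ x.1 ∧ x.1 ≤ c.L
  hSU : ∀ x ∈ c.SU, 1 ≤ x.1 ∧ x.1 ≤ c.K
  hSL : ∀ x ∈ c.SL, 1 ≤ x.1 ∧ x.1 ≤ c.K
  w1 : (c.w : ℚ) ≤ (2 - rsq c.P + rsq c.N) * c.L * c.M
  w2 : (2 - rsq c.P + rsq c.N) * c.L * c.M ≤ (c.w : ℚ) + 1
  tU : sml c.P * c.M + c.w + 1 ≤ sml c.SU
  tL : sml c.N * c.M ≤ sml c.SL
  U : ∀ k, c.q ≤ k → k < c.K → c.chkU k = true
  D : ∀ k, c.q ≤ k → k < c.K → c.chkL k = true

theorem stp_top (l : List (ℕ × ℕ)) (k : ℕ) (h : ∀ x ∈ l, x.1 ≤ k) : stp l k = sml l := by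
  induction l with
  | nil => rfl
  | cons x l ih =>
    simp only [stp, sml]
    rw [ih (fun y hy => h y (by simp [hy])), if_pos (h x (by simp))]

theorem evl_bounds (l : List (ℕ × ℕ)) (k : ℕ) (h : ∀ x ∈ l, 1 ≤ x.1) :
    (evl l k : ℝ) ≤ (rsq l : ℝ) * k ∧ (rsq l : ℝ) * (k + 1) ≤ evl l k + sml l
      ∧ (0 : ℝ) ≤ (rsq l : ℝ) := by
  induction l with
  | nil => simp [evl, sml, rsq]
  | cons x l ih =>
    obtain ⟨ih1, ih2, ih3⟩ := ih (fun y hy => h y (by simp [hy]))
    have hx := h x (by simp)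
    have hx0 : (0 : ℝ) < x.1 := by exact_mod_cast hx
    have a0 : (0 : ℝ) ≤ x.2 := Nat.cast_nonneg _
    have h1 : ((k / x.1 : ℕ) : ℝ) ≤ (k : ℝ) / x.1 := Nat.cast_div_le
    have h2 : ((k : ℝ) + 1) / x.1 ≤ ((k / x.1 : ℕ) : ℝ) + 1 := by
      rw [div_le_iff₀ hx0]
      have h3 := Nat.div_add_mod k x.1
      have h4 := Nat.mod_lt k (show 0 < x.1 by omega)
      have h5 : k + 1 ≤ (k / x.1 + 1) * x.1 := by nlinarith only [h3, h4]
      exact_mod_cast h5
    simp only [evl, sml, rsq]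
    push_cast
    have m1 := mul_le_mul_of_nonneg_left h1 a0
    have m2 := mul_le_mul_of_nonneg_left h2 a0
    refine ⟨?_, ?_, ?_⟩
    · have : (x.2 : ℝ) * (k / x.1) = x.2 / x.1 * k := by ring
      nlinarith only [ih1, m1, this]
    · have : (x.2 : ℝ) * ((k + 1) / x.1) = x.2 / x.1 * (k + 1) := by ring
      nlinarith
    · positivity

/-- The real weight of the last term. -/
noncomputable def Cmb.wr (c : Cmb) : ℝ := (2 - (rsq c.P : ℝ) + (rsq c.N : ℝ)) * c.L

noncomputable def Cmb.G (c : Cmb) (k : ℕ) : ℝ :=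
  (evl c.P k : ℝ) - evl c.N k + c.wr * ((k / c.L : ℕ) : ℝ)

theorem Cmb.wr_bounds {c : Cmb} (h : c.Valid) :
    (c.w : ℝ) ≤ c.wr * c.M ∧ c.wr * c.M ≤ c.w + 1 := by
  have h1 : ((c.w : ℚ) : ℝ) ≤ (((2 - rsq c.P + rsq c.N) * c.L * c.M : ℚ) : ℝ) := by
    exact_mod_cast h.w1
  have h2 : (((2 - rsq c.P + rsq c.N) * c.L * c.M : ℚ) : ℝ) ≤ (((c.w : ℚ) + 1 : ℚ) : ℝ) := by
    exact_mod_cast h.w2
  push_cast at h1 h2
  unfold Cmb.wr
  exact ⟨h1, h2⟩

theorem Cmb.wr_nonneg {c : Cmb} (h : c.Valid) : 0 ≤ c.wr := by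
  have h1 := (c.wr_bounds h).1
  have h2 : (1 : ℝ) ≤ c.M := by exact_mod_cast h.hM
  have h3 : (0 : ℝ) ≤ c.w := Nat.cast_nonneg _
  by_contra h4
  push Not at h4
  nlinarith

theorem Cmb.upper {c : Cmb} (h : c.Valid) {k : ℕ} (hk : c.q ≤ k) :
    (2 * (k + 1) - c.G k) * c.M ≤ stp c.SU k := by
  have hM : (1 : ℝ) ≤ c.M := by exact_mod_cast h.hM
  have hwr := c.wr_bounds h
  have hw0 := c.wr_nonneg h
  rcases Nat.lt_or_ge k c.K with hK | hK
  · have h1 := h.U k hk hK
    unfold Cmb.chkU at h1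
    rw [Nat.ble_eq] at h1
    have h2 : (((2 * (k + 1) + evl c.N k) * c.M : ℕ) : ℝ)
        ≤ ((evl c.P k * c.M + c.w * (k / c.L) + stp c.SU k : ℕ) : ℝ) := Nat.cast_le.2 h1
    rw [Nat.cast_add, Nat.cast_add, Nat.cast_mul, Nat.cast_mul, Nat.cast_mul, Nat.cast_add] at h2
    push_cast at h2
    unfold Cmb.G
    have h3 : (0 : ℝ) ≤ ((k / c.L : ℕ) : ℝ) := Nat.cast_nonneg _
    have h4 := mul_le_mul_of_nonneg_right hwr.1 h3
    nlinarith
  · have h1 := stp_top c.SU k (fun x hx => ((h.hSU x hx).2).trans hK)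
    rw [h1]
    have hq := h.hq
    have b1 := evl_bounds c.P k (fun x hx => by have := (h.hP x hx).1; omega)
    have b2 := evl_bounds c.N k (fun x hx => by have := (h.hN x hx).1; omega)
    have hL0 : (0 : ℝ) < c.L := by exact_mod_cast (by have := h.hL; omega : 0 < c.L)
    have h2 : ((k : ℝ) + 1) / c.L ≤ ((k / c.L : ℕ) : ℝ) + 1 := by
      rw [div_le_iff₀ hL0]
      have h3 := Nat.div_add_mod k c.L
      have h4 := Nat.mod_lt k (show 0 < c.L by have := h.hL; omega)
      have h5 : k + 1 ≤ (k / c.L + 1) * c.L := by nlinarith only [h3, h4]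
      exact_mod_cast h5
    have h3 : 2 * ((k : ℝ) + 1) = (rsq c.P : ℝ) * (k + 1) - (rsq c.N : ℝ) * (k + 1)
        + c.wr * ((k + 1) / c.L) := by
      unfold Cmb.wr; field_simp; ring
    have h4 : 2 * ((k : ℝ) + 1) - c.G k ≤ sml c.P + c.wr := by
      unfold Cmb.G
      have := mul_le_mul_of_nonneg_left h2 hw0
      nlinarith [b1.2.1, b2.1, b2.2.2]
    have h5 : ((sml c.P * c.M + c.w + 1 : ℕ) : ℝ) ≤ sml c.SU := Nat.cast_le.2 h.tU
    push_cast at h5
    have h6 := mul_le_mul_of_nonneg_right h4 (by linarith : (0 : ℝ) ≤ c.M)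
    nlinarith only [h5, h6, hwr.2]

theorem Cmb.lower {c : Cmb} (h : c.Valid) {k : ℕ} (hk : c.q ≤ k) :
    (c.G k - 2 * k) * c.M ≤ stp c.SL k := by
  have hM : (1 : ℝ) ≤ c.M := by exact_mod_cast h.hM
  have hwr := c.wr_bounds h
  have hw0 := c.wr_nonneg h
  rcases Nat.lt_or_ge k c.K with hK | hK
  · have h1 := h.D k hk hK
    unfold Cmb.chkL at h1
    rw [Nat.ble_eq] at h1
    have h2 : ((evl c.P k * c.M + (c.w + 1) * (k / c.L) : ℕ) : ℝ)
        ≤ (((2 * k + evl c.N k) * c.M + stp c.SL k : ℕ) : ℝ) := Nat.cast_le.2 h1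
    rw [Nat.cast_add, Nat.cast_add, Nat.cast_mul, Nat.cast_mul, Nat.cast_mul, Nat.cast_add] at h2
    push_cast at h2
    unfold Cmb.G
    have h3 : (0 : ℝ) ≤ ((k / c.L : ℕ) : ℝ) := Nat.cast_nonneg _
    have h4 := mul_le_mul_of_nonneg_right hwr.2 h3
    nlinarith only [h2, h4]
  · have h1 := stp_top c.SL k (fun x hx => ((h.hSL x hx).2).trans hK)
    rw [h1]
    have hq := h.hq
    have b1 := evl_bounds c.P k (fun x hx => by have := (h.hP x hx).1; omega)
    have b2 := evl_bounds c.N k (fun x hx => by have := (h.hN x hx).1; omega)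
    have hL0 : (0 : ℝ) < c.L := by exact_mod_cast (by have := h.hL; omega : 0 < c.L)
    have h2 : ((k / c.L : ℕ) : ℝ) ≤ (k : ℝ) / c.L := Nat.cast_div_le
    have h3 : 2 * (k : ℝ) = (rsq c.P : ℝ) * k - (rsq c.N : ℝ) * k
        + c.wr * (k / c.L) := by
      unfold Cmb.wr; field_simp; ring
    have h4 : c.G k - 2 * k ≤ sml c.N := by
      unfold Cmb.G
      have := mul_le_mul_of_nonneg_left h2 hw0
      nlinarith [b1.1, b2.2.1, b2.2.2]
    have h5 : ((sml c.N * c.M : ℕ) : ℝ) ≤ sml c.SL := Nat.cast_le.2 h.tL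
    push_cast at h5
    have h6 := mul_le_mul_of_nonneg_right h4 (by linarith : (0 : ℝ) ≤ c.M)
    nlinarith only [h5, h6]

/-- The constant of the main term. -/
noncomputable def Cmb.C (c : Cmb) : ℝ := c0l c.q c.P - c0l c.q c.N + c.wr * c0l c.q [(c.L, 1)]

/-- Total weight. -/
noncomputable def Cmb.W (c : Cmb) : ℝ := sml c.P + sml c.N + c.wr

theorem Cmb.sum_G {c : Cmb} (h : c.Valid) (n : ℕ) :
    ∑ d ∈ Ioc 0 n, Λ d * c.G (c.q * n / d)
      = Tl c.q c.P n - Tl c.q c.N n + c.wr * Tl c.q [(c.L, 1)] n := by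
  rw [Tl_eq c.P n (fun x hx => (h.hP x hx).1), Tl_eq c.N n (fun x hx => (h.hN x hx).1),
    Tl_eq [(c.L, 1)] n (fun x hx => by
      simp only [List.mem_singleton] at hx; rw [hx]; exact h.hL), mul_sum, ← sum_sub_distrib,
    ← sum_add_distrib]
  apply sum_congr rfl
  intro d _
  unfold Cmb.G
  simp only [evl]
  push_cast
  ring

theorem Cmb.sum_G_bounds {c : Cmb} (h : c.Valid) {n : ℕ} (hn : c.L ≤ n) :
    |∑ d ∈ Ioc 0 n, Λ d * c.G (c.q * n / d) - (2 * c.q * (n * (Real.log n - 1)) + n * c.C)|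
      ≤ c.W * (Real.log n + 1) := by
  have hq := h.hq
  have hL := h.hL
  rw [c.sum_G h n]
  have b1 := Tl_bounds c.P n hq (by omega) (fun x hx => ⟨(h.hP x hx).1, (h.hP x hx).2.trans hn⟩)
  have b2 := Tl_bounds c.N n hq (by omega) (fun x hx => ⟨(h.hN x hx).1, (h.hN x hx).2.trans hn⟩)
  have b3 := Tl_bounds [(c.L, 1)] n hq (by omega) (fun x hx => by
      simp only [List.mem_singleton] at hx; rw [hx]; exact ⟨hL, hn⟩)
  have hw := c.wr_nonneg h
  have hL0 : (0 : ℝ) < c.L := by exact_mod_cast (by omega : 0 < c.L)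
  have e : mainT c.q c.P n - mainT c.q c.N n + c.wr * mainT c.q [(c.L, 1)] n
      = 2 * c.q * (n * (Real.log n - 1)) + n * c.C := by
    unfold mainT Cmb.C
    simp only [rsq]
    push_cast
    have e2 : c.wr * (1 / c.L + 0 : ℝ) = 2 - (rsq c.P : ℝ) + (rsq c.N : ℝ) := by
      unfold Cmb.wr; field_simp; ring
    have e3 : c.wr * (n * (Real.log n - 1) * (c.q * (1 / c.L + 0 : ℝ)) + n * c0l c.q [(c.L, 1)])
        = n * (Real.log n - 1) * c.q * (c.wr * (1 / c.L + 0 : ℝ)) + n * (c.wr * c0l c.q [(c.L, 1)]) := by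
      ring
    rw [e3, e2]
    ring
  have m1 := mul_le_mul_of_nonneg_left b3.1 hw
  have m2 := mul_le_mul_of_nonneg_left b3.2 hw
  simp only [sml] at m1 m2
  push_cast at m1 m2
  rw [← e, abs_le]
  unfold Cmb.W
  constructor
  · nlinarith only [m1, b1.1, b2.2]
  · nlinarith only [m2, b1.2, b2.1]

theorem Cmb.bounds {c : Cmb} (h : c.Valid) {n : ℕ} (hn : c.L ≤ n) :
    |Mt n - (Real.log n - 1 + c.C / (2 * c.q)) - Real.log 3 / (4 * c.M) * ((rsq c.SU : ℝ) - rsq c.SL)|
      ≤ c.W * (Real.log n + 1) / (2 * c.q * n) + Real.log 3 / (4 * c.M) * ((rsq c.SU : ℝ) + rsq c.SL) := by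
  have hq := h.hq
  have hL := h.hL
  have hq0 : (0 : ℝ) < c.q := by exact_mod_cast hq
  have hn0 : (0 : ℝ) < n := by exact_mod_cast (by omega : 0 < n)
  have hM0 : (0 : ℝ) < c.M := by exact_mod_cast h.hM
  have hG := abs_le.1 (c.sum_G_bounds h hn)
  have s1 := stp_sum (q := c.q) c.SU n (fun x hx => (h.hSU x hx).1)
  have s2 := stp_sum (q := c.q) c.SL n (fun x hx => (h.hSL x hx).1)
  have hk : ∀ d ∈ Ioc 0 n, c.q ≤ c.q * n / d ∧ ((c.q * n / d : ℕ) : ℝ) ≤ (c.q * n : ℝ) / d
      ∧ (c.q * n : ℝ) / d ≤ ((c.q * n / d : ℕ) : ℝ) + 1 := by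
    intro d hd
    rw [mem_Ioc] at hd
    have hd0 : (0 : ℝ) < d := by exact_mod_cast hd.1
    refine ⟨(Nat.le_div_iff_mul_le hd.1).2 (Nat.mul_le_mul_left _ hd.2), ?_, ?_⟩
    · have := @Nat.cast_div_le ℝ _ _ _ (c.q * n) d
      push_cast at this
      exact this
    · rw [div_le_iff₀ hd0]
      have h3 := Nat.div_add_mod (c.q * n) d
      have h4 := Nat.mod_lt (c.q * n) (show 0 < d by omega)
      have h5 : c.q * n ≤ (c.q * n / d + 1) * d := by nlinarith only [h3, h4]
      exact_mod_cast h5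
  have eM : ∑ d ∈ Ioc 0 n, Λ d * (2 * ((c.q * n : ℝ) / d)) = 2 * c.q * n * Mt n := by
    unfold Mt
    rw [mul_sum]
    apply sum_congr rfl
    intro d _
    ring
  have up : 2 * c.q * n * Mt n ≤ ∑ d ∈ Ioc 0 n, Λ d * c.G (c.q * n / d)
      + (∑ d ∈ Ioc 0 n, Λ d * (stp c.SU (c.q * n / d) : ℝ)) / c.M := by
    rw [← eM, sum_div, ← sum_add_distrib]
    apply sum_le_sum
    intro d hd
    obtain ⟨k1, k2, k3⟩ := hk d hd
    have hu := c.upper h k1
    have hL0 := ArithmeticFunction.vonMangoldt_nonneg (n := d)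
    have h1 : 2 * ((c.q * n : ℝ) / d) ≤ c.G (c.q * n / d) + (stp c.SU (c.q * n / d) : ℝ) / c.M := by
      have h2 : 2 * (((c.q * n / d : ℕ) : ℝ) + 1) - c.G (c.q * n / d)
          ≤ (stp c.SU (c.q * n / d) : ℝ) / c.M := by
        rw [le_div_iff₀ hM0]; exact hu
      linarith only [k3, h2]
    have h3 := mul_le_mul_of_nonneg_left h1 hL0
    calc Λ d * (2 * ((c.q * n : ℝ) / d)) ≤ _ := h3
      _ = _ := by ring
  have lo : ∑ d ∈ Ioc 0 n, Λ d * c.G (c.q * n / d)
      - (∑ d ∈ Ioc 0 n, Λ d * (stp c.SL (c.q * n / d) : ℝ)) / c.M ≤ 2 * c.q * n * Mt n := by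
    rw [← eM, sum_div, ← sum_sub_distrib]
    apply sum_le_sum
    intro d hd
    obtain ⟨k1, k2, k3⟩ := hk d hd
    have hu := c.lower h k1
    have hL0 := ArithmeticFunction.vonMangoldt_nonneg (n := d)
    have h1 : c.G (c.q * n / d) - (stp c.SL (c.q * n / d) : ℝ) / c.M ≤ 2 * ((c.q * n : ℝ) / d) := by
      have h2 : c.G (c.q * n / d) - 2 * ((c.q * n / d : ℕ) : ℝ)
          ≤ (stp c.SL (c.q * n / d) : ℝ) / c.M := by
        rw [le_div_iff₀ hM0]; exact hu
      linarith only [k2, h2]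
    have h3 := mul_le_mul_of_nonneg_left h1 hL0
    calc _ = Λ d * (c.G (c.q * n / d) - (stp c.SL (c.q * n / d) : ℝ) / c.M) := by ring
      _ ≤ _ := h3
  have s1' := div_le_div_of_nonneg_right s1 hM0.le
  have s2' := div_le_div_of_nonneg_right s2 hM0.le
  have hqn : (0 : ℝ) < 2 * c.q * n := by positivity
  have f1 : 2 * c.q * n * (Mt n - (Real.log n - 1 + c.C / (2 * c.q)))
      = 2 * c.q * n * Mt n - (2 * c.q * (n * (Real.log n - 1)) + n * c.C) := by
    field_simp
  have f2 : 2 * c.q * n * (c.W * (Real.log n + 1) / (2 * c.q * n)) = c.W * (Real.log n + 1) := by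
    field_simp
  have f3 : 2 * c.q * n * (Real.log 3 / (2 * c.M) * (rsq c.SU : ℝ))
      = Real.log 3 * (c.q * n) * (rsq c.SU : ℝ) / c.M := by
    field_simp
  have f4 : 2 * c.q * n * (Real.log 3 / (2 * c.M) * (rsq c.SL : ℝ))
      = Real.log 3 * (c.q * n) * (rsq c.SL : ℝ) / c.M := by
    field_simp
  have g1 : Mt n - (Real.log n - 1 + c.C / (2 * c.q))
      ≤ c.W * (Real.log n + 1) / (2 * c.q * n) + Real.log 3 / (2 * c.M) * (rsq c.SU : ℝ) := by
    apply le_of_mul_le_mul_left _ hqn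
    rw [f1, mul_add, f2, f3]
    linarith only [up, s1', hG.2]
  have g2 : -(c.W * (Real.log n + 1) / (2 * c.q * n) + Real.log 3 / (2 * c.M) * (rsq c.SL : ℝ))
      ≤ Mt n - (Real.log n - 1 + c.C / (2 * c.q)) := by
    apply le_of_mul_le_mul_left _ hqn
    rw [f1, mul_neg, mul_add, f2, f4]
    linarith only [lo, s2', hG.1]
  have e4 : Real.log 3 / (2 * c.M) = 2 * (Real.log 3 / (4 * c.M)) := by
    field_simp; ring
  rw [e4] at g1 g2
  rw [abs_le]
  constructor
  · linarith only [g2]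
  · linarith only [g1]

theorem Cmb.osc {c : Cmb} (h : c.Valid) {n m : ℕ} (hn : c.L ≤ n) (hm : c.L ≤ m) :
    Mt m - Mt n ≤ Real.log m - Real.log n
      + Real.log 3 / (2 * c.M) * ((rsq c.SU : ℝ) + rsq c.SL)
      + c.W / (2 * c.q) * ((Real.log m + 1) / m + (Real.log n + 1) / n) := by
  have h1 := abs_le.1 (c.bounds h hn)
  have h2 := abs_le.1 (c.bounds h hm)
  have e4 : Real.log 3 / (2 * c.M) = 2 * (Real.log 3 / (4 * c.M)) := by
    have hM0 : (0 : ℝ) < c.M := by exact_mod_cast h.hM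
    field_simp; ring
  have e5 : c.W * (Real.log m + 1) / (2 * c.q * m) = c.W / (2 * c.q) * ((Real.log m + 1) / m) := by
    rw [mul_div_mul_comm]
  have e6 : c.W * (Real.log n + 1) / (2 * c.q * n) = c.W / (2 * c.q) * ((Real.log n + 1) / n) := by
    rw [mul_div_mul_comm]
  rw [e6] at h1
  rw [e5] at h2
  rw [e4]
  linarith only [h1.1, h2.2]

end Pool.Agent.H91.Gold

end
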