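import Mathlib

/-! The parts of this file: H95.GC.Defs, H95.GC.ZetaForm. -/

section

set_option autoImplicit false

namespace Pool.Agent.H95.GC

open Set MeasureTheory

/-- `M x H` is the sum of `μ(n)` over the integers `n` with `|n - x| < H / 2`
(written exactly as in the frozen statement S15903). -/
noncomputable def M (x H : ℝ) : ℝ :=
  ∑ n ∈ (Finset.range (⌈x + H⌉₊ + 1)).filter (fun n : ℕ => |(n : ℝ) - x| < H / 2),
    ((ArithmeticFunction.moebius n : ℤ) : ℝ)

/-- The variance `V(X;H) = (1/X) ∫_X^{2X} M(x;H)^2 dx`. -/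
noncomputable def V (X H : ℝ) : ℝ := (1 / X) * ∫ x in X..2 * X, (M x H) ^ 2

/-- The periodic function `({x}^2 - {x})/2`, which lies in `[-1/8, 0]`. -/
noncomputable def Q (x : ℝ) : ℝ := ((Int.fract x) ^ 2 - Int.fract x) / 2

end Pool.Agent.H95.GC

end

section

set_option autoImplicit false

namespace Pool.Agent.H95.GC

open Set MeasureTheory

private theorem zf_Q_eq (k : ℕ) {x : ℝ} (h1 : (k : ℝ) ≤ x) (h2 : x ≤ k + 1) :
    Q x = ((x - k) ^ 2 - (x - k)) / 2 := by
  rcases eq_or_lt_of_le h2 with h | h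
  · subst h
    unfold Q
    have : Int.fract ((k : ℝ) + 1) = 0 := by
      have h3 : ((k : ℝ) + 1) = ((k + 1 : ℕ) : ℝ) := by push_cast; ring
      rw [h3, Int.fract_natCast]
    rw [this]; ring
  · unfold Q
    have h3 : Int.fract x = x - k := by
      rw [Int.fract_eq_iff]
      refine ⟨by linarith, by linarith, k, by push_cast; ring⟩
    rw [h3]

private theorem zf_measurable_Q : Measurable Q := by
  unfold Q
  exact ((measurable_fract.pow_const 2).sub measurable_fract).div_const 2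

private theorem zf_abs_Q_le (x : ℝ) : |Q x| ≤ 1 / 8 := by
  unfold Q
  have h1 := Int.fract_nonneg x
  have h2 := Int.fract_lt_one x
  rw [abs_le]
  constructor
  · nlinarith [sq_nonneg (Int.fract x - 1 / 2)]
  · nlinarith

/-- One step of Euler-Maclaurin. -/
private theorem zf_step (g g₁ g₂ : ℝ → ℂ) (hg : ∀ x, 0 < x → HasDerivAt g (g₁ x) x)
    (hg₁ : ∀ x, 0 < x → HasDerivAt g₁ (g₂ x) x) (hg₂ : ContinuousOn g₂ (Ioi 0)) (k : ℕ)
    (hk : 1 ≤ k) :
    ∫ x in (k : ℝ)..((k + 1 : ℕ) : ℝ), (Q x : ℂ) * g₂ x =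
      (∫ x in (k : ℝ)..((k + 1 : ℕ) : ℝ), g x) - (g k + g ((k + 1 : ℕ) : ℝ)) / 2 := by
  have hk0 : (0 : ℝ) < k := by exact_mod_cast hk
  have hle : (k : ℝ) ≤ ((k + 1 : ℕ) : ℝ) := by push_cast; linarith
  have hmem : ∀ x ∈ uIcc (k : ℝ) ((k + 1 : ℕ) : ℝ), (k : ℝ) ≤ x ∧ x ≤ k + 1 := by
    intro x hx
    rw [uIcc_of_le hle] at hx
    exact ⟨hx.1, by have := hx.2; push_cast at this; exact this⟩
  have hpos : ∀ x ∈ uIcc (k : ℝ) ((k + 1 : ℕ) : ℝ), 0 < x := fun x hx => by
    have := (hmem x hx).1; linarith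
  have c0 : ContinuousOn g (uIcc (k : ℝ) ((k + 1 : ℕ) : ℝ)) := fun x hx =>
    (hg x (hpos x hx)).continuousAt.continuousWithinAt
  have c1 : ContinuousOn g₁ (uIcc (k : ℝ) ((k + 1 : ℕ) : ℝ)) := fun x hx =>
    (hg₁ x (hpos x hx)).continuousAt.continuousWithinAt
  have c2 : ContinuousOn g₂ (uIcc (k : ℝ) ((k + 1 : ℕ) : ℝ)) := hg₂.mono fun x hx => hpos x hx
  have e1 : ∫ x in (k : ℝ)..((k + 1 : ℕ) : ℝ), (Q x : ℂ) * g₂ x =
      ∫ x in (k : ℝ)..((k + 1 : ℕ) : ℝ), (((x : ℂ) - k) ^ 2 - ((x : ℂ) - k)) / 2 * g₂ x := by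
    apply intervalIntegral.integral_congr
    intro x hx
    obtain ⟨h1, h2⟩ := hmem x hx
    simp only
    rw [zf_Q_eq k h1 h2]
    push_cast
    ring
  have dq : ∀ x : ℝ, HasDerivAt (fun x : ℝ => (((x : ℂ) - k) ^ 2 - ((x : ℂ) - k)) / 2)
      ((x : ℂ) - k - 1 / 2) x := by
    intro x
    have h1 : HasDerivAt (fun x : ℝ => (x : ℂ) - k) 1 x := by
      simpa using (hasDerivAt_id x).ofReal_comp.sub_const (k : ℂ)
    have h2 := (((h1.fun_pow 2).fun_sub h1).div_const 2)
    exact h2.congr_deriv (by norm_num; ring)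
  have dl : ∀ x : ℝ, HasDerivAt (fun x : ℝ => (x : ℂ) - k - 1 / 2) 1 x := by
    intro x
    have h1 : HasDerivAt (fun x : ℝ => (x : ℂ) - k) 1 x := by
      simpa using (hasDerivAt_id x).ofReal_comp.sub_const (k : ℂ)
    exact h1.sub_const _
  have i1 := intervalIntegral.integral_mul_deriv_eq_deriv_mul
    (u := fun x : ℝ => (((x : ℂ) - k) ^ 2 - ((x : ℂ) - k)) / 2) (v := g₁)
    (u' := fun x : ℝ => (x : ℂ) - k - 1 / 2) (v' := g₂)
    (a := (k : ℝ)) (b := ((k + 1 : ℕ) : ℝ)) (fun x _ => dq x) (fun x hx => hg₁ x (hpos x hx))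
    (by apply Continuous.intervalIntegrable; fun_prop) c2.intervalIntegrable
  have i2 := intervalIntegral.integral_mul_deriv_eq_deriv_mul
    (u := fun x : ℝ => (x : ℂ) - k - 1 / 2) (v := g)
    (u' := fun _ : ℝ => (1 : ℂ)) (v' := g₁)
    (a := (k : ℝ)) (b := ((k + 1 : ℕ) : ℝ)) (fun x _ => dl x) (fun x hx => hg x (hpos x hx))
    (by apply Continuous.intervalIntegrable; fun_prop) c1.intervalIntegrable
  rw [e1, i1, i2]
  simp only [one_mul]
  push_cast
  ring

private theorem zf_intble (g₂ : ℝ → ℂ) (hg₂ : ContinuousOn g₂ (Ioi 0)) {a b : ℝ} (ha : 0 < a)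
    (hb : 0 < b) : IntervalIntegrable (fun x => (Q x : ℂ) * g₂ x) volume a b := by
  have c2 : ContinuousOn g₂ (uIcc a b) := hg₂.mono fun x hx => by
    rcases le_total a b with h | h
    · rw [uIcc_of_le h] at hx; exact lt_of_lt_of_le ha hx.1
    · rw [uIcc_of_ge h] at hx; exact lt_of_lt_of_le hb hx.1
  have h := c2.intervalIntegrable (μ := volume)
  rw [intervalIntegrable_iff] at h ⊢
  refine Integrable.bdd_mul (c := 1 / 8) h ?_ ?_
  · exact (Complex.measurable_ofReal.comp zf_measurable_Q).aestronglyMeasurable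
  · refine Filter.Eventually.of_forall fun x => ?_
    rw [Complex.norm_real]
    exact zf_abs_Q_le x

/-- Second order Euler-Maclaurin on `[1, N]`. -/
theorem em_sum (g g₁ g₂ : ℝ → ℂ) (hg : ∀ x, 0 < x → HasDerivAt g (g₁ x) x)
    (hg₁ : ∀ x, 0 < x → HasDerivAt g₁ (g₂ x) x) (hg₂ : ContinuousOn g₂ (Ioi 0)) (N : ℕ)
    (hN : 1 ≤ N) :
    ∑ k ∈ Finset.Icc 1 N, g k
      = (∫ x in (1 : ℝ)..N, g x) + (g 1 + g N) / 2 - ∫ x in (1 : ℝ)..N, (Q x : ℂ) * g₂ x := by
  induction N, hN using Nat.le_induction with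
  | base => simp
  | succ N hN ih =>
    have hN0 : (0 : ℝ) < N := by exact_mod_cast hN
    have hN1 : (0 : ℝ) < ((N + 1 : ℕ) : ℝ) := by positivity
    have hgi : ∀ {a b : ℝ}, 0 < a → 0 < b → IntervalIntegrable g volume a b := by
      intro a b ha hb
      apply ContinuousOn.intervalIntegrable
      intro x hx
      have : 0 < x := by
        rcases le_total a b with h | h
        · rw [uIcc_of_le h] at hx; exact lt_of_lt_of_le ha hx.1
        · rw [uIcc_of_ge h] at hx; exact lt_of_lt_of_le hb hx.1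
      exact (hg x this).continuousAt.continuousWithinAt
    rw [Finset.sum_Icc_succ_top (by omega), ih,
      ← intervalIntegral.integral_add_adjacent_intervals (hgi one_pos hN0) (hgi hN0 hN1),
      ← intervalIntegral.integral_add_adjacent_intervals (zf_intble g₂ hg₂ one_pos hN0)
        (zf_intble g₂ hg₂ hN0 hN1), zf_step g g₁ g₂ hg hg₁ hg₂ N hN]
    ring

/-- The domain. -/
private def zfU : Set ℂ := {s : ℂ | -1 < s.re ∧ s ≠ 1}

private theorem zf_isOpen : IsOpen zfU :=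
  (isOpen_lt continuous_const Complex.continuous_re).inter isOpen_ne

private theorem zf_preconnected : IsPreconnected zfU := by
  set A : Set ℂ := {s | -1 < s.re} ∩ {s | 0 < s.im} with hA
  set B : Set ℂ := {s | 1 < s.re} with hB
  set C : Set ℂ := {s | -1 < s.re} ∩ {s | s.im < 0} with hC
  set D : Set ℂ := {s | -1 < s.re} ∩ {s | s.re < 1} with hD
  have pA : IsPreconnected A :=
    ((convex_halfSpace_re_gt _).inter (convex_halfSpace_im_gt _)).isPreconnected
  have pB : IsPreconnected B := (convex_halfSpace_re_gt _).isPreconnected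
  have pC : IsPreconnected C :=
    ((convex_halfSpace_re_gt _).inter (convex_halfSpace_im_lt _)).isPreconnected
  have pD : IsPreconnected D :=
    ((convex_halfSpace_re_gt _).inter (convex_halfSpace_re_lt _)).isPreconnected
  have h1 : IsPreconnected (A ∪ B) := by
    refine pA.union (⟨2, 1⟩ : ℂ) ?_ ?_ pB
    · constructor
      · simp; norm_num
      · simp
    · simp [hB]
  have h2 : IsPreconnected ((A ∪ B) ∪ C) := by
    refine h1.union (⟨2, -1⟩ : ℂ) ?_ ?_ pC
    · right; simp [hB]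
    · constructor
      · simp; norm_num
      · simp
  have h3 : IsPreconnected (((A ∪ B) ∪ C) ∪ D) := by
    refine h2.union (⟨0, 1⟩ : ℂ) ?_ ?_ pD
    · left; left; constructor <;> simp
    · constructor <;> simp
  have h4 : ((A ∪ B) ∪ C) ∪ D = zfU := by
    ext s
    simp only [hA, hB, hC, hD, zfU, mem_union, mem_inter_iff, mem_ofPred_eq]
    constructor
    · rintro (((⟨h1, h2⟩ | h) | ⟨h1, h2⟩) | ⟨h1, h2⟩)
      · exact ⟨h1, by rintro rfl; simp at h2⟩
      · exact ⟨by linarith, by rintro rfl; simp at h⟩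
      · exact ⟨h1, by rintro rfl; simp at h2⟩
      · exact ⟨h1, by rintro rfl; simp at h2⟩
    · rintro ⟨h1, h2⟩
      by_cases him : s.im = 0
      · rcases lt_trichotomy s.re 1 with h | h | h
        · exact Or.inr ⟨h1, h⟩
        · exact absurd (Complex.ext h (by simpa using him)) h2
        · exact Or.inl (Or.inl (Or.inr h))
      · rcases lt_or_gt_of_ne him with h | h
        · exact Or.inl (Or.inr ⟨h1, h⟩)
        · exact Or.inl (Or.inl (Or.inl ⟨h1, h⟩))
  rw [← h4]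
  exact h3

/-- The remainder integral. -/
private noncomputable def zfJ (s : ℂ) : ℂ := ∫ x in Ioi (1 : ℝ), (Q x : ℂ) * (x : ℂ) ^ (-s - 2)

private noncomputable def zff (x : ℝ) : ℂ := (Ioi (1 : ℝ)).indicator (fun x => (Q x : ℂ)) x

private theorem zfJ_eq (s : ℂ) : zfJ s = mellin zff (-s - 1) := by
  unfold zfJ mellin
  rw [← integral_indicator measurableSet_Ioi, ← integral_indicator measurableSet_Ioi]
  congr 1
  funext x
  by_cases h1 : x ∈ Ioi (1 : ℝ)
  · have h0 : x ∈ Ioi (0 : ℝ) := mem_Ioi.2 (lt_trans one_pos (mem_Ioi.1 h1))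
    rw [indicator_of_mem h1, indicator_of_mem h0]
    unfold zff
    rw [indicator_of_mem h1, smul_eq_mul, mul_comm]
    congr 2
    ring
  · rw [indicator_of_notMem h1]
    by_cases h0 : x ∈ Ioi (0 : ℝ)
    · rw [indicator_of_mem h0]
      unfold zff
      rw [indicator_of_notMem h1, smul_zero]
    · rw [indicator_of_notMem h0]

private theorem zff_le (x : ℝ) : ‖zff x‖ ≤ 1 / 8 := by
  unfold zff
  by_cases h1 : x ∈ Ioi (1 : ℝ)
  · rw [indicator_of_mem h1, Complex.norm_real]; exact zf_abs_Q_le x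
  · rw [indicator_of_notMem h1, norm_zero]; norm_num

private theorem zff_measurable : Measurable zff :=
  (Complex.measurable_ofReal.comp zf_measurable_Q).indicator measurableSet_Ioi

private theorem zfJ_diff {s : ℂ} (hs : -1 < s.re) : DifferentiableAt ℂ zfJ s := by
  have h1 : zfJ = fun s => mellin zff (-s - 1) := funext zfJ_eq
  rw [h1]
  have h2 : DifferentiableAt ℂ (mellin zff) (-s - 1) := by
    refine mellin_differentiableAt_of_isBigO_rpow (a := 0) (b := (-s - 1).re - 1) ?_ ?_ ?_ ?_ ?_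
    · apply LocallyIntegrable.locallyIntegrableOn
      refine (locallyIntegrable_const (1 / 8 : ℝ)).mono zff_measurable.aestronglyMeasurable ?_
      refine Filter.Eventually.of_forall fun x => ?_
      rw [Real.norm_eq_abs, abs_of_pos (by norm_num : (0 : ℝ) < 1 / 8)]
      exact zff_le x
    · simp only [neg_zero, Real.rpow_zero]
      rw [Asymptotics.isBigO_iff]
      refine ⟨1 / 8, Filter.Eventually.of_forall fun x => ?_⟩
      simpa using zff_le x
    · simp; linarith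
    · rw [Asymptotics.isBigO_iff]
      refine ⟨1, ?_⟩
      have : Ioo (0 : ℝ) 1 ∈ nhdsWithin (0 : ℝ) (Ioi 0) := Ioo_mem_nhdsGT one_pos
      filter_upwards [this] with x hx
      unfold zff
      rw [indicator_of_notMem (by simp; exact hx.2.le), norm_zero]
      positivity
    · linarith
  have h3 : DifferentiableAt ℂ (fun s : ℂ => -s - 1) s := by fun_prop
  exact DifferentiableAt.comp (g := mellin zff) (f := fun s : ℂ => -s - 1) s h2 h3

private theorem zf_norm_cpow {x : ℝ} (hx : 0 < x) (s : ℂ) : ‖(x : ℂ) ^ s‖ = x ^ s.re :=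
  Complex.norm_cpow_eq_rpow_re_of_pos hx s

private theorem zf_integrable {s : ℂ} (hs : -1 < s.re) :
    IntegrableOn (fun x : ℝ => (Q x : ℂ) * (x : ℂ) ^ (-s - 2)) (Ioi 1) := by
  have h1 : IntegrableOn (fun x : ℝ => (x : ℂ) ^ (-s - 2)) (Ioi 1) := by
    apply integrableOn_Ioi_cpow_of_lt _ one_pos
    simp; linarith
  refine Integrable.bdd_mul (c := 1 / 8) h1 ?_ ?_
  · exact (Complex.measurable_ofReal.comp zf_measurable_Q).aestronglyMeasurable
  · refine Filter.Eventually.of_forall fun x => ?_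
    rw [Complex.norm_real]
    exact zf_abs_Q_le x

private theorem zf_of_one_lt {s : ℂ} (hs : 1 < s.re) :
    riemannZeta s = 1 / (s - 1) + 1 / 2 - s * (s + 1) * zfJ s := by
  have hs0 : s ≠ 0 := by rintro rfl; simp at hs; linarith
  have hs1 : s + 1 ≠ 0 := by
    intro h
    have := congrArg Complex.re h
    simp at this
    linarith
  -- Euler-Maclaurin for the powers
  have hd : ∀ (a : ℂ), a ≠ 0 → ∀ x : ℝ, 0 < x →
      HasDerivAt (fun y : ℝ => (y : ℂ) ^ a) (a * (x : ℂ) ^ (a - 1)) x := fun a ha x hx =>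
    hasDerivAt_ofReal_cpow_const hx.ne' ha
  have hem : ∀ N : ℕ, 1 ≤ N → ∑ k ∈ Finset.Icc 1 N, ((k : ℝ) : ℂ) ^ (-s) =
      (∫ x in (1 : ℝ)..N, (x : ℂ) ^ (-s)) + (((1 : ℝ) : ℂ) ^ (-s) + ((N : ℝ) : ℂ) ^ (-s)) / 2 -
        ∫ x in (1 : ℝ)..N, (Q x : ℂ) * (s * (s + 1) * (x : ℂ) ^ (-s - 2)) := by
    intro N hN
    refine em_sum (fun x : ℝ => (x : ℂ) ^ (-s)) (fun x : ℝ => -s * (x : ℂ) ^ (-s - 1))
      (fun x : ℝ => s * (s + 1) * (x : ℂ) ^ (-s - 2)) ?_ ?_ ?_ N hN
    · intro x hx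
      exact hd (-s) (neg_ne_zero.2 hs0) x hx
    · intro x hx
      have h1 := (hd (-s - 1) (by
        intro h
        apply hs1
        linear_combination -h) x hx).const_mul (-s)
      refine h1.congr_deriv ?_
      rw [show -s - 1 - 1 = -s - 2 by ring]
      ring
    · intro x hx
      apply ContinuousAt.continuousWithinAt
      refine ContinuousAt.mul continuousAt_const ?_
      exact (Complex.continuousAt_ofReal_cpow_const x (-s - 2) (Or.inr (ne_of_gt hx)))
  have hlim1 : Filter.Tendsto (fun N : ℕ => ∑ k ∈ Finset.Icc 1 N, ((k : ℝ) : ℂ) ^ (-s))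
      Filter.atTop (nhds (riemannZeta s)) := by
    have h1 : HasSum (fun n : ℕ => 1 / ((n : ℂ) + 1) ^ s) (riemannZeta s) := by
      rw [zeta_eq_tsum_one_div_nat_add_one_cpow hs]
      apply Summable.hasSum
      have := (summable_nat_add_iff 1).2 (Complex.summable_one_div_nat_cpow.2 hs)
      simpa using this
    have h2 := h1.tendsto_sum_nat
    refine h2.congr fun N => ?_
    induction N with
    | zero => simp
    | succ N ih =>
      rw [Finset.sum_range_succ, ih, Finset.sum_Icc_succ_top (by omega)]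
      congr 1
      rw [Complex.cpow_neg, one_div]
      push_cast
      rfl
  have hlim2 : Filter.Tendsto (fun N : ℕ => ∫ x in (1 : ℝ)..N, (x : ℂ) ^ (-s))
      Filter.atTop (nhds (1 / (s - 1))) := by
    have h1 : IntegrableOn (fun x : ℝ => (x : ℂ) ^ (-s)) (Ioi 1) :=
      integrableOn_Ioi_cpow_of_lt (by simp; exact hs) one_pos
    have h2 := intervalIntegral_tendsto_integral_Ioi 1 h1 tendsto_natCast_atTop_atTop
    have h3 : ∫ x in Ioi (1 : ℝ), (x : ℂ) ^ (-s) = 1 / (s - 1) := by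
      rw [integral_Ioi_cpow_of_lt (by simp; exact hs) one_pos]
      rw [Complex.ofReal_one, Complex.one_cpow, show -s + 1 = -(s - 1) by ring, neg_div_neg_eq]
    rw [← h3]
    exact h2
  have hlim3 : Filter.Tendsto (fun N : ℕ => ((N : ℝ) : ℂ) ^ (-s)) Filter.atTop (nhds 0) := by
    rw [tendsto_zero_iff_norm_tendsto_zero]
    have h1 : Filter.Tendsto (fun N : ℕ => (N : ℝ) ^ (-s.re)) Filter.atTop (nhds 0) :=
      (tendsto_rpow_neg_atTop (by linarith)).comp tendsto_natCast_atTop_atTop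
    refine h1.congr' ?_
    filter_upwards [Filter.eventually_gt_atTop 0] with N hN
    rw [zf_norm_cpow (by exact_mod_cast hN)]
    simp
  have hlim4 : Filter.Tendsto (fun N : ℕ => ∫ x in (1 : ℝ)..N,
      (Q x : ℂ) * (s * (s + 1) * (x : ℂ) ^ (-s - 2))) Filter.atTop
      (nhds (s * (s + 1) * zfJ s)) := by
    have h1 : ∀ x : ℝ, (Q x : ℂ) * (s * (s + 1) * (x : ℂ) ^ (-s - 2)) =
        s * (s + 1) * ((Q x : ℂ) * (x : ℂ) ^ (-s - 2)) := fun x => by ring
    simp only [h1, intervalIntegral.integral_const_mul]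
    exact (intervalIntegral_tendsto_integral_Ioi 1 (zf_integrable (by linarith))
      tendsto_natCast_atTop_atTop).const_mul _
  have hlim5 := (hlim2.add ((hlim3.const_add (((1 : ℝ) : ℂ) ^ (-s))).div_const 2)).sub hlim4
  have hlim6 := hlim1.congr' (Filter.eventually_atTop.2 ⟨1, fun N hN => hem N hN⟩)
  have := tendsto_nhds_unique hlim6 hlim5
  rw [this]
  simp

/-- Analytic continuation of `ζ` to `Re s > -1`. -/
theorem zeta_formula (s : ℂ) (hs : -1 < s.re) (hs1 : s ≠ 1) :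
    riemannZeta s = 1 / (s - 1) + 1 / 2
      - s * (s + 1) * ∫ x in Ioi (1 : ℝ), (Q x : ℂ) * (x : ℂ) ^ (-s - 2) := by
  have hf : AnalyticOnNhd ℂ riemannZeta zfU := by
    apply DifferentiableOn.analyticOnNhd _ zf_isOpen
    intro z hz
    exact (differentiableAt_riemannZeta hz.2).differentiableWithinAt
  have hg : AnalyticOnNhd ℂ (fun s => 1 / (s - 1) + 1 / 2 - s * (s + 1) * zfJ s) zfU := by
    apply DifferentiableOn.analyticOnNhd _ zf_isOpen
    intro z hz
    apply DifferentiableAt.differentiableWithinAt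
    have h1 : z - 1 ≠ 0 := sub_ne_zero.2 hz.2
    have h2 := zfJ_diff hz.1
    have h3 : DifferentiableAt ℂ (fun s : ℂ => 1 / (s - 1)) z := by
      exact DifferentiableAt.fun_div (by fun_prop) (by fun_prop) h1
    exact (h3.add_const _).sub ((by fun_prop : DifferentiableAt ℂ (fun s : ℂ => s * (s + 1)) z).mul h2)
  have heq := hf.eqOn_of_preconnected_of_eventuallyEq hg zf_preconnected
    (z₀ := 2) ⟨by norm_num, by norm_num⟩ (by
      have : {s : ℂ | 1 < s.re} ∈ nhds (2 : ℂ) :=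
        (isOpen_lt continuous_const Complex.continuous_re).mem_nhds (by simp)
      filter_upwards [this] with z hz
      exact zf_of_one_lt hz)
  exact heq ⟨hs, hs1⟩

theorem zeta_growth (s : ℂ) (hs : -1 / 2 ≤ s.re) (hs1 : 1 ≤ |s.im|) :
    ‖riemannZeta s‖ ≤ 2 * (1 + ‖s‖) ^ 2 := by
  have hs' : -1 < s.re := by linarith
  have hne : s ≠ 1 := by
    rintro rfl
    simp at hs1
    linarith
  rw [zeta_formula s hs' hne]
  have h1 : ‖1 / (s - 1)‖ ≤ 1 := by
    rw [norm_div, norm_one]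
    have h2 : 1 ≤ ‖s - 1‖ := by
      have := Complex.abs_im_le_norm (s - 1)
      simp at this
      linarith
    rw [div_le_one (by linarith)]
    exact h2
  have h3 : ‖∫ x in Ioi (1 : ℝ), (Q x : ℂ) * (x : ℂ) ^ (-s - 2)‖ ≤ 1 / 4 := by
    have h4 : IntegrableOn (fun x : ℝ => 1 / 8 * x ^ (-s.re - 2)) (Ioi 1) :=
      (integrableOn_Ioi_rpow_of_lt (by linarith) one_pos).const_mul _
    have h5 : ‖∫ x in Ioi (1 : ℝ), (Q x : ℂ) * (x : ℂ) ^ (-s - 2)‖ ≤
        ∫ x in Ioi (1 : ℝ), 1 / 8 * x ^ (-s.re - 2) := by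
      refine norm_integral_le_of_norm_le h4 ?_
      filter_upwards [ae_restrict_mem measurableSet_Ioi] with x hx
      have hx0 : 0 < x := lt_trans one_pos (mem_Ioi.1 hx)
      rw [norm_mul, Complex.norm_real, zf_norm_cpow hx0]
      have : (-s - 2).re = -s.re - 2 := by simp
      rw [this]
      exact mul_le_mul_of_nonneg_right (zf_abs_Q_le x) (by positivity)
    refine h5.trans ?_
    rw [integral_const_mul, integral_Ioi_rpow_of_lt (by linarith) one_pos, Real.one_rpow]
    have h6 : (1 : ℝ) / 2 ≤ s.re + 1 := by linarith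
    have h7 : -(1 : ℝ) / (-s.re - 2 + 1) = 1 / (s.re + 1) := by
      rw [show -s.re - 2 + 1 = -(s.re + 1) by ring, neg_div_neg_eq]
    rw [h7]
    have h8 : 1 / (s.re + 1) ≤ 2 := by
      rw [div_le_iff₀ (by linarith)]
      linarith
    linarith
  have h9 : ‖s * (s + 1) * ∫ x in Ioi (1 : ℝ), (Q x : ℂ) * (x : ℂ) ^ (-s - 2)‖ ≤
      ‖s‖ * (‖s‖ + 1) * (1 / 4) := by
    rw [norm_mul, norm_mul]
    have h10 : ‖s + 1‖ ≤ ‖s‖ + 1 := by
      have := norm_add_le s 1
      rwa [norm_one] at this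
    exact mul_le_mul (mul_le_mul_of_nonneg_left h10 (norm_nonneg _)) h3 (norm_nonneg _)
      (by positivity)
  have h11 : ‖(1 / 2 : ℂ)‖ = 1 / 2 := by norm_num
  calc ‖1 / (s - 1) + 1 / 2 - s * (s + 1) * ∫ x in Ioi (1 : ℝ), (Q x : ℂ) * (x : ℂ) ^ (-s - 2)‖
      ≤ ‖1 / (s - 1) + 1 / 2‖ +
        ‖s * (s + 1) * ∫ x in Ioi (1 : ℝ), (Q x : ℂ) * (x : ℂ) ^ (-s - 2)‖ := norm_sub_le _ _
    _ ≤ (‖1 / (s - 1)‖ + ‖(1 / 2 : ℂ)‖) + ‖s‖ * (‖s‖ + 1) * (1 / 4) :=
        add_le_add (norm_add_le _ _) h9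
    _ ≤ 2 * (1 + ‖s‖) ^ 2 := by
        rw [h11]
        nlinarith [norm_nonneg s]

end Pool.Agent.H95.GC

end
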