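import Mathlib

/-! The parts of this file: H95.GC.Reflect. -/

section

set_option autoImplicit false

namespace Pool.Agent.H95.GC

open Set MeasureTheory

private theorem zeta_tsum_bound (s : ℂ) (σ : ℝ) (hσ : 1 < σ) (hs : σ ≤ s.re) :
    ‖riemannZeta s‖ ≤ ∑' n : ℕ, 1 / ((n : ℝ) + 1) ^ σ := by
  have h1 : 1 < s.re := lt_of_lt_of_le hσ hs
  rw [zeta_eq_tsum_one_div_nat_add_one_cpow h1]
  have hsum : Summable fun n : ℕ => 1 / ((n : ℝ) + 1) ^ σ := by
    have := (Real.summable_one_div_nat_rpow (p := σ)).mpr hσ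
    have h2 := (summable_nat_add_iff 1).mpr this
    simpa using h2
  refine tsum_of_norm_bounded hsum.hasSum (fun n => ?_)
  have hpos : (0 : ℝ) < (n : ℝ) + 1 := by positivity
  have h3 : ((n : ℂ) + 1) = (((n : ℝ) + 1 : ℝ) : ℂ) := by push_cast; ring
  rw [norm_div, norm_one, h3, Complex.norm_cpow_eq_rpow_re_of_pos hpos]
  refine one_div_le_one_div_of_le (by positivity) ?_
  exact Real.rpow_le_rpow_of_exponent_le (by linarith) hs

private theorem step (n : ℕ) (hn : 1 ≤ n) :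
    1 / ((n : ℝ) + 1) ^ (5 / 4 : ℝ) ≤
      4 / (n : ℝ) ^ (1 / 4 : ℝ) - 4 / ((n : ℝ) + 1) ^ (1 / 4 : ℝ) := by
  have hn' : (1 : ℝ) ≤ n := by exact_mod_cast hn
  have hpos : (0 : ℝ) < (n : ℝ) + 1 := by positivity
  have hn0 : (0 : ℝ) < n := by linarith only [hn']
  set b := ((n : ℝ) + 1) ^ (1 / 4 : ℝ) with hb
  set a := (n : ℝ) ^ (1 / 4 : ℝ) with ha
  have hb0 : 0 < b := Real.rpow_pos_of_pos hpos _
  have ha0 : 0 < a := Real.rpow_pos_of_pos hn0 _
  have hb4 : b ^ 4 = (n : ℝ) + 1 := by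
    rw [hb, ← Real.rpow_natCast, ← Real.rpow_mul hpos.le]; norm_num
  have ha4 : a ^ 4 = (n : ℝ) := by
    rw [ha, ← Real.rpow_natCast, ← Real.rpow_mul hn0.le]; norm_num
  have h5 : ((n : ℝ) + 1) ^ (5 / 4 : ℝ) = ((n : ℝ) + 1) * b := by
    rw [hb]
    nth_rewrite 2 [← Real.rpow_one ((n : ℝ) + 1)]
    rw [← Real.rpow_add hpos]; norm_num
  rw [h5]
  -- key: a * (1 + 1 / (4 (n+1))) ≤ b
  have key : a * (1 + 1 / (4 * ((n : ℝ) + 1))) ≤ b := by
    refine le_of_pow_le_pow_left₀ (n := 4) (by norm_num) hb0.le ?_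
    rw [mul_pow, ha4, hb4]
    have h6 : (1 + 1 / (4 * ((n : ℝ) + 1))) = (4 * n + 5) / (4 * ((n : ℝ) + 1)) := by
      field_simp; ring
    rw [h6, div_pow, mul_div_assoc', div_le_iff₀ (by positivity)]
    nlinarith only [hn', hn0, pow_pos hn0 2, pow_pos hn0 3, pow_pos hn0 4]
  rw [div_sub_div _ _ ha0.ne' hb0.ne', div_le_div_iff₀ (by positivity) (by positivity)]
  have key2 : a ≤ 4 * ((n : ℝ) + 1) * (b - a) := by
    have h7 : a * (1 + 1 / (4 * ((n : ℝ) + 1))) * (4 * ((n : ℝ) + 1)) ≤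
        b * (4 * ((n : ℝ) + 1)) := by gcongr
    have h8 : a * (1 + 1 / (4 * ((n : ℝ) + 1))) * (4 * ((n : ℝ) + 1)) =
        a * (4 * ((n : ℝ) + 1)) + a := by
      field_simp
    rw [h8] at h7
    linarith only [h7]
  nlinarith only [hb0, key2]

theorem zeta_right_upper (s : ℂ) (hs : 5 / 4 ≤ s.re) : ‖riemannZeta s‖ ≤ 5 := by
  refine (zeta_tsum_bound s (5 / 4) (by norm_num) hs).trans ?_
  refine Real.tsum_le_of_sum_range_le (fun n => by positivity) (fun N => ?_)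
  have h : ∀ N : ℕ, ∑ i ∈ Finset.range (N + 1), 1 / ((i : ℝ) + 1) ^ (5 / 4 : ℝ) ≤
      5 - 4 / ((N : ℝ) + 1) ^ (1 / 4 : ℝ) := by
    intro N
    induction N with
    | zero => norm_num
    | succ N ih =>
      rw [Finset.sum_range_succ]
      have := step (N + 1) (by omega)
      push_cast at this ⊢
      linarith only [ih, this]
  rcases N with _ | N
  · norm_num
  · refine (h N).trans ?_
    have : 0 ≤ 4 / ((N : ℝ) + 1) ^ (1 / 4 : ℝ) := by positivity
    linarith only [this]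

end Pool.Agent.H95.GC

end
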