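import Mathlib

/-! The parts of this file: H10.GoldLoc.Comb, H14.CO.BfDef. -/

section

/-!
The combinatorial part: residues for the small, medium and large primes.
-/

namespace Pool.Agent.H10.GoldLoc

open Finset

/-- The primes in `(a, b]`. -/
def PP (a b : ℕ) : Finset ℕ := (Ioc a b).filter Nat.Prime

lemma mem_PP {a b q : ℕ} : q ∈ PP a b ↔ a < q ∧ q ≤ b ∧ q.Prime := by
  unfold PP
  rw [mem_filter, mem_Ioc, and_assoc]

end Pool.Agent.H10.GoldLoc

end

section

/-!
# CO: the functions `rad`, `bf`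
-/

set_option autoImplicit false

namespace Pool.Agent.H14.CO

open Set MeasureTheory Complex

/-- the product of the primes dividing `f` -/
noncomputable def rad (f : ℕ) : ℕ := ∏ p ∈ f.primeFactors, p

/-- `b(f) = ∑_{g₁,g₂ ∣ rad f, f ∣ g₁ g₂} 1/(g₁ g₂)` -/
noncomputable def bf (f : ℕ) : ℝ :=
  ∑ g₁ ∈ (rad f).divisors, ∑ g₂ ∈ (rad f).divisors, if f ∣ g₁ * g₂ then 1 / ((g₁ : ℝ) * g₂) else 0

end Pool.Agent.H14.CO

end
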