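import Mathlib

/-! The parts of this file: H14.CO.MobLog, H14.CO.MobCop. -/

section

/-!
# CO module MobLog: the elementary bound for the smoothed sum of `μ(e)/e`
-/

set_option autoImplicit false

namespace Pool.Agent.H14.CO

open Set MeasureTheory Complex

theorem MobLog_dvd_sum (n e : ℕ) (he : 1 ≤ e) (g : ℕ → ℝ) :
    ∑ k ∈ (Finset.Icc 1 n).filter (fun k => e ∣ k), g k
      = ∑ m ∈ Finset.Icc 1 (n / e), g (e * m) := by
  refine Finset.sum_nbij' (fun k => k / e) (fun m => e * m) ?_ ?_ ?_ ?_ ?_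
  · intro k hk
    rw [Finset.mem_filter, Finset.mem_Icc] at hk
    obtain ⟨⟨h1, h2⟩, h3⟩ := hk
    rw [Finset.mem_Icc]
    exact ⟨Nat.div_pos (Nat.le_of_dvd (by omega) h3) he, Nat.div_le_div_right h2⟩
  · intro m hm
    rw [Finset.mem_Icc] at hm
    rw [Finset.mem_filter, Finset.mem_Icc]
    refine ⟨⟨Nat.mul_pos he hm.1, ?_⟩, dvd_mul_right e m⟩
    calc e * m ≤ e * (n / e) := Nat.mul_le_mul_left e hm.2
      _ ≤ n := Nat.mul_div_le n e
  · intro k hk
    rw [Finset.mem_filter] at hk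
    exact Nat.mul_div_cancel' hk.2
  · intro m _
    exact Nat.mul_div_cancel_left m he
  · intro k hk
    rw [Finset.mem_filter] at hk
    rw [Nat.mul_div_cancel' hk.2]

theorem MobLog_exchange (n : ℕ) (hn : 1 ≤ n) (a : ℕ → ℝ) :
    ∑ e ∈ Finset.Icc 1 n, ((ArithmeticFunction.moebius e : ℤ) : ℝ) *
      ∑ m ∈ Finset.Icc 1 (n / e), a (e * m) = a 1 := by
  have h1 : ∀ e ∈ Finset.Icc 1 n, ((ArithmeticFunction.moebius e : ℤ) : ℝ) *
      ∑ m ∈ Finset.Icc 1 (n / e), a (e * m)
      = ∑ k ∈ Finset.Icc 1 n, if e ∣ k then ((ArithmeticFunction.moebius e : ℤ) : ℝ) * a k else 0 := by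
    intro e he
    rw [Finset.mem_Icc] at he
    rw [← MobLog_dvd_sum n e he.1 a, Finset.mul_sum, Finset.sum_filter]
  rw [Finset.sum_congr rfl h1, Finset.sum_comm]
  have h2 : ∀ k ∈ Finset.Icc 1 n,
      (∑ e ∈ Finset.Icc 1 n, if e ∣ k then ((ArithmeticFunction.moebius e : ℤ) : ℝ) * a k else 0)
        = if k = 1 then a 1 else 0 := by
    intro k hk
    rw [Finset.mem_Icc] at hk
    rw [← Finset.sum_filter, ← Finset.sum_mul]
    have h3 : (Finset.Icc 1 n).filter (fun e => e ∣ k) = k.divisors := by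
      ext e
      rw [Finset.mem_filter, Finset.mem_Icc, Nat.mem_divisors]
      constructor
      · rintro ⟨-, h⟩
        exact ⟨h, by omega⟩
      · rintro ⟨h, h0⟩
        exact ⟨⟨Nat.pos_of_dvd_of_pos h (by omega), (Nat.le_of_dvd (by omega) h).trans hk.2⟩, h⟩
    rw [h3]
    have h4 : ∑ d ∈ k.divisors, (ArithmeticFunction.moebius d : ℤ) = if k = 1 then 1 else 0 := by
      rw [← ArithmeticFunction.coe_mul_zeta_apply, ArithmeticFunction.moebius_mul_coe_zeta,
        ArithmeticFunction.one_apply]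
    have h5 : ∑ d ∈ k.divisors, ((ArithmeticFunction.moebius d : ℤ) : ℝ)
        = if k = 1 then 1 else 0 := by
      rw [← Int.cast_sum, h4]
      split_ifs <;> simp
    rw [h5]
    split_ifs with h6
    · rw [h6, one_mul]
    · rw [zero_mul]
  rw [Finset.sum_congr rfl h2, Finset.sum_ite_eq' (Finset.Icc 1 n) 1 (fun _ => a 1),
    if_pos (Finset.mem_Icc.mpr ⟨le_refl _, hn⟩)]

theorem MobLog_mu_abs (e : ℕ) : |((ArithmeticFunction.moebius e : ℤ) : ℝ)| ≤ 1 := by
  have := ArithmeticFunction.abs_moebius_le_one (n := e)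
  exact_mod_cast this

theorem MobLog_mu_sum (n : ℕ) (hn : 1 ≤ n) :
    |∑ e ∈ Finset.Icc 1 n, ((ArithmeticFunction.moebius e : ℤ) : ℝ) / e| ≤ 2 := by
  have h1 := MobLog_exchange n hn (fun _ => 1)
  have h2 : ∀ e ∈ Finset.Icc 1 n, ((ArithmeticFunction.moebius e : ℤ) : ℝ) *
      ∑ m ∈ Finset.Icc 1 (n / e), (1 : ℝ)
      = ((ArithmeticFunction.moebius e : ℤ) : ℝ) * ((n / e : ℕ) : ℝ) := by
    intro e _
    simp
  rw [Finset.sum_congr rfl h2] at h1
  have hn0 : (0 : ℝ) < n := by exact_mod_cast hn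
  have h3 : (n : ℝ) * ∑ e ∈ Finset.Icc 1 n, ((ArithmeticFunction.moebius e : ℤ) : ℝ) / e
      = 1 + ∑ e ∈ Finset.Icc 1 n, ((ArithmeticFunction.moebius e : ℤ) : ℝ) *
        ((n : ℝ) / e - ((n / e : ℕ) : ℝ)) := by
    rw [← h1, ← Finset.sum_add_distrib, Finset.mul_sum]
    apply Finset.sum_congr rfl
    intro e _
    ring
  have h4 : |∑ e ∈ Finset.Icc 1 n, ((ArithmeticFunction.moebius e : ℤ) : ℝ) *
        ((n : ℝ) / e - ((n / e : ℕ) : ℝ))| ≤ n := by
    calc |∑ e ∈ Finset.Icc 1 n, ((ArithmeticFunction.moebius e : ℤ) : ℝ) *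
        ((n : ℝ) / e - ((n / e : ℕ) : ℝ))|
        ≤ ∑ e ∈ Finset.Icc 1 n, |((ArithmeticFunction.moebius e : ℤ) : ℝ) *
        ((n : ℝ) / e - ((n / e : ℕ) : ℝ))| := Finset.abs_sum_le_sum_abs _ _
      _ ≤ ∑ _e ∈ Finset.Icc 1 n, (1 : ℝ) := by
          apply Finset.sum_le_sum
          intro e he
          rw [Finset.mem_Icc] at he
          have he0 : (0 : ℝ) < e := by exact_mod_cast he.1
          rw [abs_mul]
          have h5 : |(n : ℝ) / e - ((n / e : ℕ) : ℝ)| ≤ 1 := by
            have h6 : ((n / e : ℕ) : ℝ) ≤ (n : ℝ) / e := Nat.cast_div_le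
            have h7 : (n : ℝ) / e < ((n / e : ℕ) : ℝ) + 1 := by
              rw [div_lt_iff₀ he0]
              have h8 : n < (n / e + 1) * e := by
                have := Nat.lt_div_mul_add (a := n) (b := e) he.1
                linarith only [this, Nat.add_mul (n / e) 1 e]
              exact_mod_cast h8
            rw [abs_le]
            constructor <;> linarith only [h6, h7]
          calc |((ArithmeticFunction.moebius e : ℤ) : ℝ)| * |(n : ℝ) / e - ((n / e : ℕ) : ℝ)|
              ≤ 1 * 1 := mul_le_mul (MobLog_mu_abs e) h5 (abs_nonneg _) zero_le_one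
            _ = 1 := one_mul 1
      _ = n := by simp
  have h5 : |(n : ℝ) * ∑ e ∈ Finset.Icc 1 n, ((ArithmeticFunction.moebius e : ℤ) : ℝ) / e|
      ≤ 1 + n := by
    rw [h3]
    refine (abs_add_le _ _).trans ?_
    rw [abs_one]
    linarith only [h4]
  rw [abs_mul, abs_of_pos hn0] at h5
  have hn1 : (1 : ℝ) ≤ n := by exact_mod_cast hn
  by_contra hcon
  push Not at hcon
  nlinarith only [hn0, h5, hcon, hn1]

theorem MobLog_harm (k : ℕ) (hk : 1 ≤ k) (x : ℝ) (h1 : (k : ℝ) ≤ x) (h2 : x < k + 1) :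
    |((harmonic k : ℚ) : ℝ) - Real.log x - Real.eulerMascheroniConstant| ≤ 2 / x := by
  have hk0 : (0 : ℝ) < k := by exact_mod_cast hk
  have hk1 : (1 : ℝ) ≤ k := by exact_mod_cast hk
  have hx0 : 0 < x := hk0.trans_le h1
  have h3 := Real.eulerMascheroniSeq_lt_eulerMascheroniConstant k
  have h4 := Real.eulerMascheroniConstant_lt_eulerMascheroniSeq' k
  have h5 : Real.eulerMascheroniSeq' k = ((harmonic k : ℚ) : ℝ) - Real.log k := by
    unfold Real.eulerMascheroniSeq'
    rw [if_neg (by omega)]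
  have h6 : Real.eulerMascheroniSeq k = ((harmonic k : ℚ) : ℝ) - Real.log (k + 1) := rfl
  rw [h5] at h4
  rw [h6] at h3
  have h7 : Real.log k ≤ Real.log x := Real.log_le_log hk0 h1
  have h8 : Real.log x ≤ Real.log (k + 1) := Real.log_le_log hx0 h2.le
  have h9 : Real.log (k + 1) - Real.log k ≤ 1 / k := by
    rw [← Real.log_div (by positivity) hk0.ne']
    have h10 : ((k : ℝ) + 1) / k = 1 + 1 / k := by
      field_simp
    rw [h10]
    have := Real.log_le_sub_one_of_pos (show (0 : ℝ) < 1 + 1 / k by positivity)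
    linarith only [this]
  have h10 : 1 / (k : ℝ) ≤ 2 / x := by
    rw [div_le_div_iff₀ hk0 hx0]
    linarith only [h2, hk1]
  rw [abs_le]
  constructor
  · linarith only [h4, h8, h9, h10]
  · linarith only [h3, h7, h9, h10]

theorem MobLog_harmonic (k : ℕ) : ∑ m ∈ Finset.Icc 1 k, 1 / (m : ℝ) = ((harmonic k : ℚ) : ℝ) := by
  induction k with
  | zero => simp
  | succ k ih =>
    rw [Finset.sum_Icc_succ_top (by omega), ih, harmonic_succ]
    push_cast
    rw [one_div]

/-- `|∑_{e ≤ X} μ(e)/e log(X/e)| ≤ C`.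

PROOF. `F(x) = ∑_{n ≤ x} x/n = x (log x + γ) + O(1)`, and `∑_{e ≤ X} μ(e) F(X/e) = X` (Möbius
inversion). So `X ∑ μ(e)/e log(X/e) = X - γ X ∑ μ(e)/e + O(X)`, `|∑_{e≤X} μ(e)/e| ≤ 1` (e.g.
`Pool.Agent.H91.…Msq.sum_moebius_coprime`, file H91/PK/Msq, with `g = 1`, or
`∑ μ(e) ⌊X/e⌋ = 1`). Harmonic sums: `Mathlib/NumberTheory/Harmonic/EulerMascheroni`. -/
theorem moebius_log : ∃ C : ℝ, 0 < C ∧ ∀ X : ℝ, 1 ≤ X →
    |∑ e ∈ Finset.Icc 1 ⌊X⌋₊, ((ArithmeticFunction.moebius e : ℤ) : ℝ) / e * Real.log (X / e)| ≤ C := by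
  refine ⟨3 + 2 * |Real.eulerMascheroniConstant|, by positivity, ?_⟩
  intro X hX
  set n : ℕ := ⌊X⌋₊ with hn
  have hX0 : 0 < X := zero_lt_one.trans_le hX
  have hn1 : 1 ≤ n := Nat.one_le_floor_iff X |>.mpr hX
  have hnX : (n : ℝ) ≤ X := Nat.floor_le hX0.le
  -- the identity
  have h1 := MobLog_exchange n hn1 (fun k => 1 / (k : ℝ))
  have h2 : ∀ e ∈ Finset.Icc 1 n, ((ArithmeticFunction.moebius e : ℤ) : ℝ) *
      ∑ m ∈ Finset.Icc 1 (n / e), 1 / ((e * m : ℕ) : ℝ)
      = ((ArithmeticFunction.moebius e : ℤ) : ℝ) / e * ((harmonic (n / e) : ℚ) : ℝ) := by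
    intro e he
    rw [← MobLog_harmonic, Finset.mul_sum, Finset.mul_sum]
    apply Finset.sum_congr rfl
    intro m _
    push_cast
    rw [div_mul_div_comm, mul_one, mul_one_div]
  rw [Finset.sum_congr rfl h2] at h1
  simp only [Nat.cast_one, div_one] at h1
  have h3 : ∑ e ∈ Finset.Icc 1 n, ((ArithmeticFunction.moebius e : ℤ) : ℝ) / e * Real.log (X / e)
      = 1 - Real.eulerMascheroniConstant *
          ∑ e ∈ Finset.Icc 1 n, ((ArithmeticFunction.moebius e : ℤ) : ℝ) / e
        - ∑ e ∈ Finset.Icc 1 n, ((ArithmeticFunction.moebius e : ℤ) : ℝ) / e *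
          (((harmonic (n / e) : ℚ) : ℝ) - Real.log (X / e) - Real.eulerMascheroniConstant) := by
    rw [← h1, Finset.mul_sum, ← Finset.sum_sub_distrib, ← Finset.sum_sub_distrib]
    apply Finset.sum_congr rfl
    intro e _
    ring
  have h4 : |∑ e ∈ Finset.Icc 1 n, ((ArithmeticFunction.moebius e : ℤ) : ℝ) / e *
          (((harmonic (n / e) : ℚ) : ℝ) - Real.log (X / e) - Real.eulerMascheroniConstant)| ≤ 2 := by
    calc |∑ e ∈ Finset.Icc 1 n, ((ArithmeticFunction.moebius e : ℤ) : ℝ) / e *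
          (((harmonic (n / e) : ℚ) : ℝ) - Real.log (X / e) - Real.eulerMascheroniConstant)|
        ≤ ∑ e ∈ Finset.Icc 1 n, |((ArithmeticFunction.moebius e : ℤ) : ℝ) / e *
          (((harmonic (n / e) : ℚ) : ℝ) - Real.log (X / e) - Real.eulerMascheroniConstant)| :=
          Finset.abs_sum_le_sum_abs _ _
      _ ≤ ∑ _e ∈ Finset.Icc 1 n, 2 / X := by
          apply Finset.sum_le_sum
          intro e he
          rw [Finset.mem_Icc] at he
          have he0 : (0 : ℝ) < e := by exact_mod_cast he.1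
          have hfl : ⌊X / e⌋₊ = n / e := by rw [hn, Nat.floor_div_natCast]
          have hk1 : 1 ≤ n / e := Nat.div_pos he.2 he.1
          have hxe0 : 0 < X / e := div_pos hX0 he0
          have hle : ((n / e : ℕ) : ℝ) ≤ X / e := by
            rw [← hfl]
            exact Nat.floor_le hxe0.le
          have hlt : X / e < ((n / e : ℕ) : ℝ) + 1 := by
            rw [← hfl]
            exact Nat.lt_floor_add_one _
          have h5 := MobLog_harm (n / e) hk1 (X / e) hle hlt
          rw [abs_mul, abs_div, abs_of_pos he0]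
          have h6 : |((ArithmeticFunction.moebius e : ℤ) : ℝ)| / (e : ℝ) ≤ 1 / e :=
            div_le_div_of_nonneg_right (MobLog_mu_abs e) he0.le
          calc |((ArithmeticFunction.moebius e : ℤ) : ℝ)| / (e : ℝ) *
              |((harmonic (n / e) : ℚ) : ℝ) - Real.log (X / e) - Real.eulerMascheroniConstant|
              ≤ 1 / e * (2 / (X / e)) :=
                mul_le_mul h6 h5 (abs_nonneg _) (by positivity)
            _ = 2 / X := by field_simp
      _ = n * (2 / X) := by simp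
      _ ≤ X * (2 / X) := mul_le_mul_of_nonneg_right hnX (by positivity)
      _ = 2 := by field_simp
  have h5 := MobLog_mu_sum n hn1
  rw [h3]
  have h6 : |Real.eulerMascheroniConstant *
          ∑ e ∈ Finset.Icc 1 n, ((ArithmeticFunction.moebius e : ℤ) : ℝ) / e|
        ≤ |Real.eulerMascheroniConstant| * 2 := by
    rw [abs_mul]
    exact mul_le_mul_of_nonneg_left h5 (abs_nonneg _)
  rw [abs_le] at h4 h6 ⊢
  constructor <;> linarith only [h4, h6, h4.1, h4.2, h6.1, h6.2]

end Pool.Agent.H14.CO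

end

section

/-!
# CO module MobCop: smoothed Möbius sums with a coprimality condition and a shift
-/

set_option autoImplicit false

namespace Pool.Agent.H14.CO

open Set MeasureTheory Complex

/-- `∏_{p ∣ r} (1 - 1/p)^{-1}` -/
noncomputable def sg (r : ℕ) : ℝ := ∏ p ∈ r.primeFactors, (1 - 1 / (p : ℝ))⁻¹

/-- the general term -/
private noncomputable def tm (u : ℂ) (X : ℝ) (e : ℕ) : ℂ :=
  ((ArithmeticFunction.moebius e : ℤ) : ℂ) * (e : ℂ) ^ (-(1 + u)) * (Real.log (X / e) : ℂ)

private noncomputable def ms (u : ℂ) (S : Finset ℕ) (X : ℝ) : ℂ :=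
  ∑ e ∈ (Finset.Icc 1 ⌊X⌋₊).filter (fun e => ∀ p ∈ S, ¬ p ∣ e), tm u X e

/-! ## The case without coprimality condition -/

private noncomputable def ph (u : ℂ) (L s : ℝ) : ℂ := Complex.exp (-u * s) * ((L - s : ℝ) : ℂ)

private noncomputable def ps (u : ℂ) (L s : ℝ) : ℂ :=
  (u ^ 2 * ((L - s : ℝ) : ℂ) + 2 * u) * Complex.exp (-u * s)

private theorem ps_cont (u : ℂ) (L : ℝ) : Continuous (ps u L) := by
  unfold ps
  fun_prop

private theorem taylor (u : ℂ) {L l : ℝ} (h0 : 0 ≤ l) (h1 : l ≤ L) :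
    ph u L l = Complex.exp (-u * L) * ((L - l : ℝ) : ℂ) +
      ∫ s in (0 : ℝ)..L, ((max 0 (s - l) : ℝ) : ℂ) * ps u L s := by
  have hc : Continuous fun s : ℝ => ((max 0 (s - l) : ℝ) : ℂ) * ps u L s := by
    have := ps_cont u L
    fun_prop
  have hsplit : ∫ s in (0 : ℝ)..L, ((max 0 (s - l) : ℝ) : ℂ) * ps u L s =
      (∫ s in (0 : ℝ)..l, ((max 0 (s - l) : ℝ) : ℂ) * ps u L s) +
      ∫ s in l..L, ((max 0 (s - l) : ℝ) : ℂ) * ps u L s :=
    (intervalIntegral.integral_add_adjacent_intervals (hc.intervalIntegrable _ _)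
      (hc.intervalIntegrable _ _)).symm
  have hz : ∫ s in (0 : ℝ)..l, ((max 0 (s - l) : ℝ) : ℂ) * ps u L s = 0 := by
    rw [intervalIntegral.integral_congr (g := fun _ => (0 : ℂ))]
    · simp
    · intro s hs
      rw [Set.uIcc_of_le h0] at hs
      have : max 0 (s - l) = 0 := max_eq_left (by linarith [hs.2])
      simp only [this, Complex.ofReal_zero, zero_mul]
  have hm : ∫ s in l..L, ((max 0 (s - l) : ℝ) : ℂ) * ps u L s =
      ∫ s in l..L, ((s - l : ℝ) : ℂ) * ps u L s := by
    apply intervalIntegral.integral_congr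
    intro s hs
    rw [Set.uIcc_of_le h1] at hs
    have : max 0 (s - l) = s - l := max_eq_right (by linarith [hs.1])
    simp only [this]
  let G : ℝ → ℂ := fun s => ((s - l : ℝ) : ℂ) *
    (-u * Complex.exp (-u * s) * ((L - s : ℝ) : ℂ) - Complex.exp (-u * s)) -
    Complex.exp (-u * s) * ((L - s : ℝ) : ℂ)
  have hG : ∀ s ∈ Set.uIcc l L, HasDerivAt G (((s - l : ℝ) : ℂ) * ps u L s) s := by
    intro s _
    have hid : HasDerivAt (fun s : ℝ => (s : ℂ)) 1 s := Complex.ofRealCLM.hasDerivAt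
    have he : HasDerivAt (fun s : ℝ => Complex.exp (-u * s)) (Complex.exp (-u * s) * (-u * 1)) s :=
      (hid.const_mul (-u)).cexp
    have h2 : HasDerivAt (fun s : ℝ => ((L - s : ℝ) : ℂ)) (-1) s := by
      have := hid.const_sub (L : ℂ)
      refine this.congr_of_eventuallyEq (Filter.Eventually.of_forall fun t => ?_)
      push_cast
      rfl
    have h3 : HasDerivAt (fun s : ℝ => ((s - l : ℝ) : ℂ)) 1 s := by
      have := hid.sub_const (l : ℂ)
      refine this.congr_of_eventuallyEq (Filter.Eventually.of_forall fun t => ?_)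
      push_cast
      rfl
    have h4 := (h3.mul (((he.const_mul (-u)).mul h2).sub he)).sub (he.mul h2)
    refine h4.congr_deriv ?_
    simp only [ps, Pi.sub_apply, Pi.mul_apply]
    ring
  have hi : IntervalIntegrable (fun s : ℝ => ((s - l : ℝ) : ℂ) * ps u L s) volume l L := by
    apply Continuous.intervalIntegrable
    have := ps_cont u L
    fun_prop
  have h5 := intervalIntegral.integral_eq_sub_of_hasDerivAt hG hi
  rw [hsplit, hz, zero_add, hm, h5]
  simp only [G, ph]
  push_cast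
  ring

private theorem ps_norm (u : ℂ) {L s : ℝ} (h0 : 0 ≤ s) (h1 : s ≤ L) :
    ‖ps u L s‖ ≤ (‖u‖ ^ 2 * L + 2 * ‖u‖) * Real.exp (|u.re| * L) := by
  rw [ps, norm_mul]
  have hL : 0 ≤ L := h0.trans h1
  apply mul_le_mul _ _ (norm_nonneg _) (by positivity)
  · refine (norm_add_le _ _).trans ?_
    rw [norm_mul, norm_mul, norm_pow, Complex.norm_real, Real.norm_of_nonneg (by linarith : 0 ≤ L - s),
      Complex.norm_ofNat]
    have : ‖u‖ ^ 2 * (L - s) ≤ ‖u‖ ^ 2 * L := by
      apply mul_le_mul_of_nonneg_left (by linarith) (by positivity)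
    linarith
  · rw [Complex.norm_exp]
    apply Real.exp_le_exp.2
    have h2 : (-u * (s : ℂ)).re = -u.re * s := by
      rw [Complex.re_mul_ofReal, Complex.neg_re]
    rw [h2]
    calc -u.re * s ≤ |u.re| * s := mul_le_mul_of_nonneg_right (neg_le_abs _) h0
      _ ≤ |u.re| * L := mul_le_mul_of_nonneg_left h1 (abs_nonneg _)

private theorem ms_empty {C : ℝ} (hC : 0 < C) (hA : ∀ X : ℝ, 1 ≤ X →
    |∑ e ∈ Finset.Icc 1 ⌊X⌋₊, ((ArithmeticFunction.moebius e : ℤ) : ℝ) / e *
      Real.log (X / e)| ≤ C) (u : ℂ) {X : ℝ} (hX : 1 ≤ X) :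
    ‖ms u ∅ X‖ ≤ C * X ^ |u.re| * (1 + ‖u‖ * Real.log X) ^ 2 := by
  set L := Real.log X with hL
  have hL0 : 0 ≤ L := Real.log_nonneg hX
  have hX0 : 0 < X := by linarith
  have hps := ps_cont u L
  have hterm : ∀ e ∈ Finset.Icc 1 ⌊X⌋₊, tm u X e =
      (((ArithmeticFunction.moebius e : ℤ) : ℝ) / e : ℝ) *
        (Complex.exp (-u * L) * ((Real.log (X / e) : ℝ) : ℂ) +
        ∫ s in (0 : ℝ)..L, ((max 0 (s - Real.log e) : ℝ) : ℂ) * ps u L s) := by
    intro e he
    rw [Finset.mem_Icc] at he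
    have he1 : (1 : ℝ) ≤ e := by exact_mod_cast he.1
    have he0 : (0 : ℝ) < e := by linarith
    have heX : (e : ℝ) ≤ X := (Nat.le_floor_iff hX0.le).1 he.2
    have hlog : Real.log (X / e) = L - Real.log e := Real.log_div hX0.ne' he0.ne'
    rw [tm, hlog, ← taylor u (Real.log_nonneg he1) (Real.log_le_log he0 heX), ph]
    have hec : (e : ℂ) ≠ 0 := by exact_mod_cast he0.ne'
    have hcp : (e : ℂ) ^ (-(1 + u)) = (e : ℂ)⁻¹ * Complex.exp (-u * (Real.log e : ℝ)) := by
      rw [neg_add, Complex.cpow_add _ _ hec, Complex.cpow_neg_one, Complex.cpow_def_of_ne_zero hec,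
        Complex.natCast_log, mul_comm (Complex.log _)]
    rw [hcp]
    push_cast
    ring
  have hsum : ms u ∅ X = Complex.exp (-u * L) *
      ((∑ e ∈ Finset.Icc 1 ⌊X⌋₊, ((ArithmeticFunction.moebius e : ℤ) : ℝ) / e *
        Real.log (X / e) : ℝ) : ℂ) +
      ∫ s in (0 : ℝ)..L, ((∑ e ∈ Finset.Icc 1 ⌊X⌋₊, ((ArithmeticFunction.moebius e : ℤ) : ℝ) / e *
        max 0 (s - Real.log e) : ℝ) : ℂ) * ps u L s := by
    have hf : (Finset.Icc 1 ⌊X⌋₊).filter (fun e => ∀ p ∈ (∅ : Finset ℕ), ¬ p ∣ e) =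
        Finset.Icc 1 ⌊X⌋₊ := by
      apply Finset.filter_true_of_mem
      intro e _ p hp
      simp at hp
    rw [ms, hf, Finset.sum_congr rfl hterm]
    simp only [mul_add]
    rw [Finset.sum_add_distrib]
    congr 1
    · push_cast
      rw [Finset.mul_sum]
      apply Finset.sum_congr rfl
      intro e _
      ring
    · have h1 : ∀ s : ℝ, ((∑ e ∈ Finset.Icc 1 ⌊X⌋₊, ((ArithmeticFunction.moebius e : ℤ) : ℝ) / e *
          max 0 (s - Real.log e) : ℝ) : ℂ) * ps u L s =
          ∑ e ∈ Finset.Icc 1 ⌊X⌋₊, ((((ArithmeticFunction.moebius e : ℤ) : ℝ) / e : ℝ) : ℂ) *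
            (((max 0 (s - Real.log e) : ℝ) : ℂ) * ps u L s) := by
        intro s
        push_cast
        rw [Finset.sum_mul]
        apply Finset.sum_congr rfl
        intro e _
        ring
      simp only [h1]
      rw [intervalIntegral.integral_finsetSum]
      · apply Finset.sum_congr rfl
        intro e _
        rw [intervalIntegral.integral_const_mul]
      · intro e _
        apply Continuous.intervalIntegrable
        fun_prop
  have hAs : ∀ s : ℝ, 0 ≤ s → s ≤ L →
      |∑ e ∈ Finset.Icc 1 ⌊X⌋₊, ((ArithmeticFunction.moebius e : ℤ) : ℝ) / e *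
        max 0 (s - Real.log e)| ≤ C := by
    intro s hs0 hsL
    have h1 := hA (Real.exp s) (Real.one_le_exp hs0)
    have hle : Real.exp s ≤ X := by
      rw [← Real.exp_log hX0]
      exact Real.exp_le_exp.2 hsL
    have h2 : ∑ e ∈ Finset.Icc 1 ⌊X⌋₊, ((ArithmeticFunction.moebius e : ℤ) : ℝ) / e *
        max 0 (s - Real.log e) =
        ∑ e ∈ Finset.Icc 1 ⌊Real.exp s⌋₊, ((ArithmeticFunction.moebius e : ℤ) : ℝ) / e *
        Real.log (Real.exp s / e) := by
      symm
      have hsub : Finset.Icc 1 ⌊Real.exp s⌋₊ ⊆ Finset.Icc 1 ⌊X⌋₊ :=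
        Finset.Icc_subset_Icc_right (Nat.floor_le_floor hle)
      rw [← Finset.sum_subset_zero_on_sdiff hsub (f := fun e =>
        ((ArithmeticFunction.moebius e : ℤ) : ℝ) / e * Real.log (Real.exp s / e))]
      · intro e he
        rw [Finset.mem_sdiff, Finset.mem_Icc, Finset.mem_Icc] at he
        have he1 : (1 : ℝ) ≤ e := by exact_mod_cast he.1.1
        have h3 : Real.exp s < e := by
          by_contra hcon
          push Not at hcon
          exact he.2 ⟨he.1.1, (Nat.le_floor_iff (Real.exp_pos s).le).2 hcon⟩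
        have h4 : s ≤ Real.log e := by
          rw [← Real.log_exp s]
          exact Real.log_le_log (Real.exp_pos s) h3.le
        rw [max_eq_left (by linarith only [h4]), mul_zero]
      · intro e he
        rw [Finset.mem_Icc] at he
        have he1 : (1 : ℝ) ≤ e := by exact_mod_cast he.1
        have he0 : (0 : ℝ) < e := by linarith only [he1]
        have h3 : (e : ℝ) ≤ Real.exp s := (Nat.le_floor_iff (Real.exp_pos s).le).1 he.2
        have h4 : Real.log e ≤ s := by
          rw [← Real.log_exp s]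
          exact Real.log_le_log he0 h3
        rw [Real.log_div (Real.exp_pos s).ne' he0.ne', Real.log_exp,
          max_eq_right (by linarith only [h4])]
    rw [h2]
    exact h1
  have hXe : X ^ |u.re| = Real.exp (|u.re| * L) := by
    rw [Real.rpow_def_of_pos hX0, mul_comm]
  have hn1 : ‖Complex.exp (-u * L)‖ ≤ X ^ |u.re| := by
    rw [hXe, Complex.norm_exp]
    apply Real.exp_le_exp.2
    rw [Complex.re_mul_ofReal, Complex.neg_re]
    exact mul_le_mul_of_nonneg_right (neg_le_abs _) hL0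
  rw [hsum]
  refine (norm_add_le _ _).trans ?_
  have hb1 : ‖Complex.exp (-u * L) *
      ((∑ e ∈ Finset.Icc 1 ⌊X⌋₊, ((ArithmeticFunction.moebius e : ℤ) : ℝ) / e *
        Real.log (X / e) : ℝ) : ℂ)‖ ≤ X ^ |u.re| * C := by
    rw [norm_mul, Complex.norm_real, Real.norm_eq_abs]
    exact mul_le_mul hn1 (hA X hX) (abs_nonneg _) (Real.rpow_nonneg hX0.le _)
  have hb2 : ‖∫ s in (0 : ℝ)..L, ((∑ e ∈ Finset.Icc 1 ⌊X⌋₊,
      ((ArithmeticFunction.moebius e : ℤ) : ℝ) / e *
        max 0 (s - Real.log e) : ℝ) : ℂ) * ps u L s‖ ≤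
      (C * ((‖u‖ ^ 2 * L + 2 * ‖u‖) * X ^ |u.re|)) * |L - 0| := by
    apply intervalIntegral.norm_integral_le_of_norm_le_const
    intro s hs
    rw [Set.uIoc_of_le hL0] at hs
    rw [norm_mul, Complex.norm_real, Real.norm_eq_abs, hXe]
    exact mul_le_mul (hAs s hs.1.le hs.2) (ps_norm u hs.1.le hs.2) (norm_nonneg _) hC.le
  refine (add_le_add hb1 hb2).trans (le_of_eq ?_)
  rw [sub_zero, abs_of_nonneg hL0]
  ring

/-! ## Coprimality conditions -/

private theorem ms_insert (u : ℂ) (S : Finset ℕ) (p : ℕ) (hp : p.Prime)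
    (hS : ∀ q ∈ S, q.Prime) (hpS : p ∉ S) {X : ℝ} (hX : 1 ≤ X) :
    ms u (insert p S) X =
      ms u S X + (p : ℂ) ^ (-(1 + u)) * ms u (insert p S) (X / p) := by
  have hX0 : 0 < X := by linarith
  have hp0 : (0 : ℝ) < p := by exact_mod_cast hp.pos
  have hXp : 0 < X / p := div_pos hX0 hp0
  set T := (Finset.Icc 1 ⌊X⌋₊).filter (fun e => ∀ q ∈ S, ¬ q ∣ e) with hT
  have h1 : ms u (insert p S) X = ∑ e ∈ T.filter (fun e => ¬ p ∣ e), tm u X e := by
    rw [ms]
    apply Finset.sum_congr _ (fun _ _ => rfl)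
    ext e
    rw [hT, Finset.mem_filter, Finset.mem_filter, Finset.mem_filter, Finset.forall_mem_insert]
    tauto
  have h2 : ∑ e ∈ T.filter (fun e => p ∣ e), tm u X e =
      -((p : ℂ) ^ (-(1 + u)) * ms u (insert p S) (X / p)) := by
    set T' := (Finset.Icc 1 ⌊X / p⌋₊).filter (fun e => ∀ q ∈ insert p S, ¬ q ∣ e) with hT'
    have hinj : Set.InjOn (fun e : ℕ => p * e) (T' : Set ℕ) := by
      intro a _ b _ hab
      exact Nat.eq_of_mul_eq_mul_left hp.pos hab
    have hsub : T'.image (fun e => p * e) ⊆ T.filter (fun e => p ∣ e) := by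
      intro e he
      rw [Finset.mem_image] at he
      obtain ⟨f, hf, rfl⟩ := he
      rw [hT', Finset.mem_filter, Finset.mem_Icc, Finset.forall_mem_insert] at hf
      rw [Finset.mem_filter, hT, Finset.mem_filter, Finset.mem_Icc]
      refine ⟨⟨⟨Nat.mul_pos hp.pos hf.1.1, ?_⟩, ?_⟩, dvd_mul_right p f⟩
      · rw [Nat.le_floor_iff hX0.le]
        have h3 := (Nat.le_floor_iff hXp.le).1 hf.1.2
        rw [le_div_iff₀ hp0] at h3
        push_cast
        linarith only [h3]
      · intro q hq hdvd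
        rcases (Nat.Prime.dvd_mul (hS q hq)).1 hdvd with h | h
        · have : q = p := (Nat.prime_dvd_prime_iff_eq (hS q hq) hp).1 h
          exact hpS (this ▸ hq)
        · exact hf.2.2 q hq h
    rw [← Finset.sum_subset hsub, Finset.sum_image hinj, ms, ← hT', Finset.mul_sum,
      ← Finset.sum_neg_distrib]
    · apply Finset.sum_congr rfl
      intro e he
      rw [hT', Finset.mem_filter, Finset.mem_Icc, Finset.forall_mem_insert] at he
      have hcop : Nat.Coprime p e := (Nat.Prime.coprime_iff_not_dvd hp).2 he.2.1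
      rw [tm, tm, ArithmeticFunction.isMultiplicative_moebius.map_mul_of_coprime hcop,
        ArithmeticFunction.moebius_apply_prime hp]
      push_cast
      rw [natCast_mul_natCast_cpow, div_div]
      ring
    · intro e he hne
      rw [Finset.mem_filter, hT, Finset.mem_filter, Finset.mem_Icc] at he
      obtain ⟨f, rfl⟩ := he.2
      have hpf : p ∣ f := by
        by_contra hcon
        apply hne
        rw [Finset.mem_image]
        refine ⟨f, ?_, rfl⟩
        rw [hT', Finset.mem_filter, Finset.mem_Icc, Finset.forall_mem_insert]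
        have hf1 : 1 ≤ f := by
          rcases Nat.eq_zero_or_pos f with h | h
          · rw [h] at he
            simp at he
          · exact h
        refine ⟨⟨hf1, ?_⟩, hcon, fun q hq hdvd => he.1.2 q hq (hdvd.mul_left p)⟩
        rw [Nat.le_floor_iff hXp.le, le_div_iff₀ hp0]
        have h3 := (Nat.le_floor_iff hX0.le).1 he.1.1.2
        push_cast at h3
        linarith only [h3]
      have hmu : ArithmeticFunction.moebius (p * f) = 0 := by
        apply ArithmeticFunction.moebius_eq_zero_of_not_squarefree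
        intro hsq
        obtain ⟨g, rfl⟩ := hpf
        have h3 := hsq p ⟨g, by ring⟩
        exact hp.one_lt.ne' (Nat.isUnit_iff.1 h3)
      rw [tm, hmu]
      simp
  have h3 := Finset.sum_filter_add_sum_filter_not T (fun e => p ∣ e) (tm u X)
  rw [h2, ← h1] at h3
  have h4 : ms u S X = ∑ e ∈ T, tm u X e := rfl
  rw [h4, ← h3]
  ring

private theorem ms_bound {C : ℝ} (hC : 0 < C) (hA : ∀ X : ℝ, 1 ≤ X →
    |∑ e ∈ Finset.Icc 1 ⌊X⌋₊, ((ArithmeticFunction.moebius e : ℤ) : ℝ) / e *
      Real.log (X / e)| ≤ C) (u : ℂ) (S : Finset ℕ) :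
    (∀ q ∈ S, q.Prime) → ∀ X : ℝ, 1 ≤ X →
    ‖ms u S X‖ ≤ C * (∏ p ∈ S, (1 - 1 / (p : ℝ))⁻¹) * X ^ |u.re| *
      (1 + ‖u‖ * Real.log X) ^ 2 := by
  induction S using Finset.induction_on with
  | empty =>
    intro _ X hX
    rw [Finset.prod_empty, mul_one]
    exact ms_empty hC hA u hX
  | insert p S hpS ih =>
    intro hS
    have hS' : ∀ q ∈ S, q.Prime := fun q hq => hS q (Finset.mem_insert_of_mem hq)
    have hp : p.Prime := hS p (Finset.mem_insert_self p S)
    have ih' := ih hS'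
    have key : ∀ n : ℕ, ∀ X : ℝ, 1 ≤ X → X < n + 1 →
        ‖ms u (insert p S) X‖ ≤ C * (∏ q ∈ insert p S, (1 - 1 / (q : ℝ))⁻¹) * X ^ |u.re| *
          (1 + ‖u‖ * Real.log X) ^ 2 := by
      intro n
      induction n with
      | zero =>
        intro X hX hlt
        push_cast at hlt
        linarith only [hX, hlt]
      | succ n ihn =>
        intro X hX hlt
        have hX0 : 0 < X := by linarith
        have hp2 : (2 : ℝ) ≤ p := by exact_mod_cast hp.two_le
        have hp0 : (0 : ℝ) < p := by linarith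
        have hP : 0 < ∏ q ∈ S, (1 - 1 / (q : ℝ))⁻¹ := by
          apply Finset.prod_pos
          intro q hq
          have hq2 : (2 : ℝ) ≤ q := by exact_mod_cast (hS' q hq).two_le
          rw [inv_pos, sub_pos, div_lt_one (by linarith)]
          linarith
        have hfac : 0 < 1 - 1 / (p : ℝ) := by
          rw [sub_pos, div_lt_one hp0]
          linarith only [hp2]
        rw [Finset.prod_insert hpS]
        set P := ∏ q ∈ S, (1 - 1 / (q : ℝ))⁻¹ with hPdef
        have hL0 : 0 ≤ Real.log X := Real.log_nonneg hX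
        rw [ms_insert u S p hp hS' hpS hX]
        refine (norm_add_le _ _).trans ?_
        have hb1 := ih' X hX
        have hb2 : ‖(p : ℂ) ^ (-(1 + u)) * ms u (insert p S) (X / p)‖ ≤
            (1 / p) * (C * ((1 - 1 / (p : ℝ))⁻¹ * P) * X ^ |u.re| *
              (1 + ‖u‖ * Real.log X) ^ 2) := by
          rcases lt_or_ge (X / p) 1 with h | h
          · have h0 : ms u (insert p S) (X / p) = 0 := by
              have h1 : ⌊X / p⌋₊ = 0 := Nat.floor_eq_zero.2 h
              rw [ms, h1]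
              simp
            rw [h0, mul_zero, norm_zero]
            positivity
          · have hlt2 : X / p < n + 1 := by
              have hX2 : 2 ≤ X := by
                rw [le_div_iff₀ hp0] at h
                linarith only [hp2, h]
              have h1 : X / p ≤ X / 2 := div_le_div_of_nonneg_left hX0.le (by norm_num) hp2
              push_cast at hlt
              linarith only [hX2, h1, hlt]
            have h1 := ihn (X / p) h hlt2
            rw [Finset.prod_insert hpS, ← hPdef] at h1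
            have hnp : ‖(p : ℂ) ^ (-(1 + u))‖ = (p : ℝ) ^ (-(1 + u.re)) := by
              rw [Complex.norm_natCast_cpow_of_pos hp.pos]
              simp
            rw [norm_mul, hnp]
            have h2 : (1 + ‖u‖ * Real.log (X / p)) ^ 2 ≤ (1 + ‖u‖ * Real.log X) ^ 2 := by
              have h3 : Real.log (X / p) ≤ Real.log X := by
                apply Real.log_le_log (by positivity)
                exact div_le_self hX0.le (by linarith only [hp2])
              have h4 : 0 ≤ Real.log (X / p) := Real.log_nonneg h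
              have h5 : ‖u‖ * Real.log (X / p) ≤ ‖u‖ * Real.log X :=
                mul_le_mul_of_nonneg_left h3 (norm_nonneg _)
              have h6 : 0 ≤ ‖u‖ * Real.log (X / p) := mul_nonneg (norm_nonneg _) h4
              apply pow_le_pow_left₀ (by linarith only [h6])
              linarith only [h5]
            have h3 : (p : ℝ) ^ (-(1 + u.re)) * (X / p) ^ |u.re| ≤ (1 / p) * X ^ |u.re| := by
              rw [Real.div_rpow hX0.le hp0.le, ← mul_div_assoc, mul_comm _ (X ^ |u.re|),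
                mul_div_assoc, mul_comm (1 / (p : ℝ))]
              apply mul_le_mul_of_nonneg_left _ (Real.rpow_nonneg hX0.le _)
              rw [← Real.rpow_sub hp0, one_div, ← Real.rpow_neg_one]
              apply Real.rpow_le_rpow_of_exponent_le (by linarith only [hp2])
              have := neg_le_abs u.re
              linarith only [this]
            have hK : 0 ≤ C * ((1 - 1 / (p : ℝ))⁻¹ * P) := by positivity
            calc (p : ℝ) ^ (-(1 + u.re)) * ‖ms u (insert p S) (X / p)‖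
                ≤ (p : ℝ) ^ (-(1 + u.re)) * (C * ((1 - 1 / (p : ℝ))⁻¹ * P) * (X / p) ^ |u.re| *
                  (1 + ‖u‖ * Real.log (X / p)) ^ 2) :=
                  mul_le_mul_of_nonneg_left h1 (Real.rpow_nonneg hp0.le _)
              _ = (C * ((1 - 1 / (p : ℝ))⁻¹ * P)) *
                  ((p : ℝ) ^ (-(1 + u.re)) * (X / p) ^ |u.re|) *
                  (1 + ‖u‖ * Real.log (X / p)) ^ 2 := by ring
              _ ≤ (C * ((1 - 1 / (p : ℝ))⁻¹ * P)) * ((1 / p) * X ^ |u.re|) *
                  (1 + ‖u‖ * Real.log X) ^ 2 := by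
                  apply mul_le_mul _ h2 (by positivity) (by positivity)
                  exact mul_le_mul_of_nonneg_left h3 hK
              _ = _ := by ring
        refine (add_le_add hb1 hb2).trans (le_of_eq ?_)
        have hne : 1 - 1 / (p : ℝ) ≠ 0 := hfac.ne'
        have e1 : P + 1 / (p : ℝ) * ((1 - 1 / (p : ℝ))⁻¹ * P) = (1 - 1 / (p : ℝ))⁻¹ * P := by
          have e2 : (1 - 1 / (p : ℝ)) * (1 - 1 / (p : ℝ))⁻¹ = 1 := mul_inv_cancel₀ hne
          calc P + 1 / (p : ℝ) * ((1 - 1 / (p : ℝ))⁻¹ * P)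
              = P * ((1 - 1 / (p : ℝ)) * (1 - 1 / (p : ℝ))⁻¹) +
                1 / (p : ℝ) * ((1 - 1 / (p : ℝ))⁻¹ * P) := by rw [e2, mul_one]
            _ = _ := by ring
        calc C * P * X ^ |u.re| * (1 + ‖u‖ * Real.log X) ^ 2 +
              1 / (p : ℝ) * (C * ((1 - 1 / (p : ℝ))⁻¹ * P) * X ^ |u.re| *
                (1 + ‖u‖ * Real.log X) ^ 2)
            = C * (P + 1 / (p : ℝ) * ((1 - 1 / (p : ℝ))⁻¹ * P)) * X ^ |u.re| *
              (1 + ‖u‖ * Real.log X) ^ 2 := by ring
          _ = _ := by rw [e1]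
    intro X hX
    obtain ⟨n, hn⟩ := exists_nat_gt X
    exact key n X hX (by linarith)

/-- PROOF. (i) `r = 1`: Abel summation against `A(t) = ∑_{e ≤ t} μ(e)/e log(t/e)` (bounded by
`moebius_log`; `A` is continuous, `t A'(t) = ∑_{e≤t} μ(e)/e`): with `φ(t) = t^{-u} log(X/t)`,
`∑ μ(e)/e φ(e) = -[A(t) t φ'(t)]_1^X + ∫_1^X A(t) (t φ'(t))' dt`,
`t φ' = -u t^{-u} log(X/t) - t^{-u}`, `t (t φ')' = u² t^{-u} log(X/t) + 2 u t^{-u}`, so
`≤ C X^{|Re u|} (1 + 2|u| log X + |u|² log² X)`.
(Alternatively avoid calculus by a discrete Abel summation.)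
(ii) general `r`, induction on the prime factors `p` of `r` and (strong) on `⌊X⌋`: for `p ∤ r`,
`m_{rp}(X) = m_r(X) + p^{-(1+u)} m_{rp}(X/p)`, where `m_r(X) = ∑_{e≤X,(e,r)=1} μ(e) e^{-(1+u)} log(X/e)`,
and `X^{|Re u|} sg(r) + p^{-1-Re u} (X/p)^{|Re u|} sg(rp) ≤ X^{|Re u|} sg(rp)`. -/
theorem moebius_cop : ∃ C : ℝ, 0 < C ∧ ∀ (r : ℕ), r ≠ 0 → ∀ (X : ℝ), 1 ≤ X → ∀ u : ℂ,
    ‖∑ e ∈ (Finset.Icc 1 ⌊X⌋₊).filter (fun e => Nat.Coprime e r),
      ((ArithmeticFunction.moebius e : ℤ) : ℂ) * (e : ℂ) ^ (-(1 + u)) * (Real.log (X / e) : ℂ)‖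
      ≤ C * sg r * X ^ |u.re| * (1 + ‖u‖ * Real.log X) ^ 2 := by
  obtain ⟨C, hC, hA⟩ := moebius_log
  refine ⟨C, hC, fun r hr X hX u => ?_⟩
  have h1 := ms_bound hC hA u r.primeFactors (fun q hq => Nat.prime_of_mem_primeFactors hq) X hX
  have h2 : (Finset.Icc 1 ⌊X⌋₊).filter (fun e => Nat.Coprime e r) =
      (Finset.Icc 1 ⌊X⌋₊).filter (fun e => ∀ p ∈ r.primeFactors, ¬ p ∣ e) := by
    apply Finset.filter_congr
    intro e _
    constructor
    · intro h p hp hdvd
      have hp1 := Nat.prime_of_mem_primeFactors hp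
      have hp2 := Nat.dvd_of_mem_primeFactors hp
      exact hp1.one_lt.ne' (Nat.eq_one_of_dvd_coprimes h hdvd hp2)
    · intro h
      apply Nat.coprime_of_dvd
      intro p hp hpe hpr
      exact h p (Nat.mem_primeFactors.2 ⟨hp, hpr, hr⟩) hpe
  rw [h2]
  exact h1

end Pool.Agent.H14.CO

end
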