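import Mathlib

/-! The parts of this file: H91.EHA.SwD1, H91.EHA.SwD2. -/

section

/-!
# Bounds for `L(s,χ)` in `Re s ≥ 1/2` (for Siegel's theorem)

`LF_le`: for `Re s > 1`, `L(s,χ) = s ∫_1^∞ S(u) u^{-s-1} du`, `S(u) = ∑_{n≤u} χ(n)`, `‖S(u)‖ ≤ q`
(Mathlib: `LSeries_eq_mul_integral`, file `SumCoeff.lean`).  The right side is analytic for `Re s > 0`
and equals `LFunction χ` (entire for `χ ≠ 1`, `DirichletCharacter.differentiable_LFunction`)
by the identity theorem on the half plane.  So `‖L(s,χ)‖ ≤ ‖s‖ q / Re s ≤ 2 q ‖s‖`.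
`LF1_le`: `A(u) = #{n ≤ u, (n,q)=1} = (φ(q)/q) u + E(u)`, `|E(u)| ≤ q`:
`(s-1) L(s,χ0) = (φ(q)/q) s + (s-1) s ∫ E(u) u^{-s-1} du`.
-/

set_option autoImplicit false

namespace Pool.Agent.H91.EHA

open Finset

/-! ### partial sums of periodic functions -/

private lemma swd1_period (q : ℕ) (f : ℕ → ℂ) (hf : ∀ k, f (k + q) = f k) (N : ℕ) :
    ∑ k ∈ range (N + q), f k = ∑ k ∈ range N, f k + ∑ k ∈ range q, f k := by
  rw [add_comm N q, Finset.sum_range_add, add_comm]
  congr 1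
  exact Finset.sum_congr rfl fun k _ => by rw [add_comm q k, hf]

/-- mean value of a periodic function -/
private noncomputable def swd1_mean (q : ℕ) (f : ℕ → ℂ) : ℂ := (∑ k ∈ range q, f k) / q

private lemma swd1_mean_le (q : ℕ) (hq : 0 < q) (f : ℕ → ℂ) (h1 : ∀ k, ‖f k‖ ≤ 1) :
    ‖swd1_mean q f‖ ≤ 1 := by
  unfold swd1_mean
  rw [norm_div, Complex.norm_natCast]
  rw [div_le_one (by exact_mod_cast hq)]
  calc ‖∑ k ∈ range q, f k‖ ≤ ∑ k ∈ range q, ‖f k‖ := norm_sum_le _ _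
    _ ≤ ∑ k ∈ range q, (1 : ℝ) := Finset.sum_le_sum fun k _ => h1 k
    _ = q := by simp

private lemma swd1_dev (q : ℕ) (hq : 0 < q) (f : ℕ → ℂ) (hf : ∀ k, f (k + q) = f k)
    (h1 : ∀ k, ‖f k‖ ≤ 1) (N : ℕ) :
    ‖∑ k ∈ range N, f k - swd1_mean q f * N‖ ≤ 2 * q := by
  induction N using Nat.strong_induction_on with
  | _ N ih =>
    by_cases hN : N < q
    · have hm := swd1_mean_le q hq f h1
      have hNq : (N : ℝ) ≤ q := by exact_mod_cast hN.le
      calc ‖∑ k ∈ range N, f k - swd1_mean q f * N‖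
          ≤ ‖∑ k ∈ range N, f k‖ + ‖swd1_mean q f * N‖ := norm_sub_le _ _
        _ ≤ (N : ℝ) + 1 * N := by
            refine add_le_add ?_ ?_
            · calc ‖∑ k ∈ range N, f k‖ ≤ ∑ k ∈ range N, ‖f k‖ := norm_sum_le _ _
                _ ≤ ∑ k ∈ range N, (1 : ℝ) := Finset.sum_le_sum fun k _ => h1 k
                _ = N := by simp
            · rw [norm_mul, Complex.norm_natCast]
              exact mul_le_mul_of_nonneg_right hm (Nat.cast_nonneg _)
        _ ≤ 2 * q := by linarith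
    · push Not at hN
      obtain ⟨M, rfl⟩ := Nat.exists_eq_add_of_le hN
      have hM : M < q + M := by omega
      have h := ih M hM
      have e : ∑ k ∈ range (q + M), f k - swd1_mean q f * ((q + M : ℕ) : ℂ)
          = ∑ k ∈ range M, f k - swd1_mean q f * M := by
        rw [add_comm q M, swd1_period q f hf M]
        have hq' : (q : ℂ) ≠ 0 := by exact_mod_cast hq.ne'
        unfold swd1_mean
        push_cast
        field_simp
        ring
      rw [e]
      exact h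

/-- the error term -/
private noncomputable def swd1_E (q : ℕ) (f : ℕ → ℂ) (t : ℝ) : ℂ :=
  ∑ k ∈ Icc 1 ⌊t⌋₊, f k - swd1_mean q f * t

private lemma swd1_E_le (q : ℕ) (hq : 0 < q) (f : ℕ → ℂ) (hf : ∀ k, f (k + q) = f k)
    (h1 : ∀ k, ‖f k‖ ≤ 1) (t : ℝ) (ht : 0 ≤ t) : ‖swd1_E q f t‖ ≤ 4 * q := by
  have hq1 : (1 : ℝ) ≤ q := by exact_mod_cast hq
  have e0 : ∑ k ∈ Icc 1 ⌊t⌋₊, f k = ∑ k ∈ range (⌊t⌋₊ + 1), f k - f 0 := by
    rw [Finset.sum_range_succ', Finset.range_eq_Ico, Finset.sum_Ico_add' f 0 ⌊t⌋₊ 1]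
    simp only [zero_add, add_sub_cancel_right]
    rfl
  have hm := swd1_mean_le q hq f h1
  have e : swd1_E q f t = (∑ k ∈ range (⌊t⌋₊ + 1), f k - swd1_mean q f * ((⌊t⌋₊ + 1 : ℕ) : ℂ))
      - f 0 + swd1_mean q f * (((⌊t⌋₊ + 1 : ℝ) - t : ℝ) : ℂ) := by
    unfold swd1_E
    rw [e0]
    push_cast
    ring
  rw [e]
  have hfl1 := Nat.floor_le ht
  have hfl2 := Nat.lt_floor_add_one t
  have h3 : ‖(((⌊t⌋₊ + 1 : ℝ) - t : ℝ) : ℂ)‖ ≤ 1 := by
    rw [Complex.norm_real, Real.norm_eq_abs, abs_le]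
    constructor <;> linarith
  calc ‖(∑ k ∈ range (⌊t⌋₊ + 1), f k - swd1_mean q f * ((⌊t⌋₊ + 1 : ℕ) : ℂ))
      - f 0 + swd1_mean q f * (((⌊t⌋₊ + 1 : ℝ) - t : ℝ) : ℂ)‖
      ≤ ‖(∑ k ∈ range (⌊t⌋₊ + 1), f k - swd1_mean q f * ((⌊t⌋₊ + 1 : ℕ) : ℂ))
      - f 0‖ + ‖swd1_mean q f * (((⌊t⌋₊ + 1 : ℝ) - t : ℝ) : ℂ)‖ := norm_add_le _ _
    _ ≤ (2 * q + 1) + 1 * 1 := by
        refine add_le_add ((norm_sub_le _ _).trans
          (add_le_add (swd1_dev q hq f hf h1 _) (h1 0))) ?_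
        rw [norm_mul]
        exact mul_le_mul hm h3 (norm_nonneg _) zero_le_one
    _ ≤ 4 * q := by linarith

private lemma swd1_E_meas (q : ℕ) (f : ℕ → ℂ) : Measurable (swd1_E q f) := by
  unfold swd1_E
  refine Measurable.sub ?_ ?_
  · have h : Measurable (fun n : ℕ => ∑ k ∈ Icc 1 n, f k) := measurable_from_top
    exact h.comp Nat.measurable_floor
  · exact measurable_const.mul Complex.measurable_ofReal

/-! ### the integral -/

private noncomputable def swd1_G (E : ℝ → ℂ) (s : ℂ) : ℂ :=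
  ∫ t in Set.Ioi (1 : ℝ), E t * (t : ℂ) ^ (-(s + 1))

private lemma swd1_int (E : ℝ → ℂ) (hE : Measurable E) (K : ℝ)
    (hK : ∀ t, 1 ≤ t → ‖E t‖ ≤ K) (s : ℂ) (hs : 0 < s.re) :
    MeasureTheory.IntegrableOn (fun t : ℝ => E t * (t : ℂ) ^ (-(s + 1))) (Set.Ioi 1) ∧
    ‖swd1_G E s‖ ≤ K / s.re := by
  have hr : -(s.re + 1) < -1 := by linarith
  have hi := integrableOn_Ioi_rpow_of_lt hr one_pos
  have hb : ∀ t ∈ Set.Ioi (1 : ℝ), ‖E t * (t : ℂ) ^ (-(s + 1))‖ ≤ K * t ^ (-(s.re + 1)) := by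
    intro t ht
    have ht1 : (1 : ℝ) < t := ht
    have ht0 : 0 < t := by linarith
    rw [norm_mul, Complex.norm_cpow_eq_rpow_re_of_pos ht0]
    have : (-(s + 1)).re = -(s.re + 1) := by simp
    rw [this]
    exact mul_le_mul_of_nonneg_right (hK t ht1.le) (Real.rpow_nonneg ht0.le _)
  have hmeas : Measurable (fun t : ℝ => E t * (t : ℂ) ^ (-(s + 1))) := by
    refine hE.mul ?_
    exact Complex.measurable_ofReal.pow_const _
  refine ⟨?_, ?_⟩
  · refine MeasureTheory.Integrable.mono' (hi.const_mul K) hmeas.aestronglyMeasurable ?_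
    exact (MeasureTheory.ae_restrict_iff' measurableSet_Ioi).mpr
      (Filter.Eventually.of_forall fun t ht => hb t ht)
  · unfold swd1_G
    have h1 : ‖∫ t in Set.Ioi (1 : ℝ), E t * (t : ℂ) ^ (-(s + 1))‖
        ≤ ∫ t in Set.Ioi (1 : ℝ), K * t ^ (-(s.re + 1)) := by
      refine MeasureTheory.norm_integral_le_of_norm_le (hi.const_mul K) ?_
      exact (MeasureTheory.ae_restrict_iff' measurableSet_Ioi).mpr
        (Filter.Eventually.of_forall fun t ht => hb t ht)
    refine h1.trans (le_of_eq ?_)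
    rw [MeasureTheory.integral_const_mul, integral_Ioi_rpow_of_lt hr one_pos]
    rw [Real.one_rpow]
    have : -(s.re + 1) + 1 = - s.re := by ring
    rw [this]
    field_simp

private lemma swd1_G_diff (E : ℝ → ℂ) (hE : Measurable E) (K : ℝ)
    (hK : ∀ t, 1 ≤ t → ‖E t‖ ≤ K) (s : ℂ) (hs : 0 < s.re) :
    DifferentiableAt ℂ (swd1_G E) s := by
  have hK0 : 0 ≤ K := (norm_nonneg _).trans (hK 1 le_rfl)
  set F : ℝ → ℂ := (Set.Ioi (1 : ℝ)).indicator E with hF
  have hFm : Measurable F := hE.indicator measurableSet_Ioi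
  have hFb : ∀ t, ‖F t‖ ≤ K := by
    intro t
    rw [hF]
    by_cases ht : t ∈ Set.Ioi (1 : ℝ)
    · rw [Set.indicator_of_mem ht]
      exact hK t (le_of_lt ht)
    · rw [Set.indicator_of_notMem ht, norm_zero]
      exact hK0
  have hG : ∀ z : ℂ, swd1_G E z = mellin F (-z) := by
    intro z
    unfold swd1_G mellin
    have h1 : Set.Ioi (1 : ℝ) ⊆ Set.Ioi 0 := Set.Ioi_subset_Ioi zero_le_one
    rw [← MeasureTheory.integral_indicator measurableSet_Ioi,
      ← MeasureTheory.integral_indicator measurableSet_Ioi]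
    refine MeasureTheory.integral_congr_ae (Filter.Eventually.of_forall fun t => ?_)
    by_cases ht : t ∈ Set.Ioi (1 : ℝ)
    · rw [Set.indicator_of_mem ht, Set.indicator_of_mem (h1 ht), hF, Set.indicator_of_mem ht,
        smul_eq_mul, mul_comm]
      congr 2
      ring
    · rw [Set.indicator_of_notMem ht]
      by_cases ht0 : t ∈ Set.Ioi (0 : ℝ)
      · rw [Set.indicator_of_mem ht0, hF, Set.indicator_of_notMem ht, smul_zero]
      · rw [Set.indicator_of_notMem ht0]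
  have hfun : swd1_G E = fun z => mellin F (-z) := funext hG
  rw [hfun]
  have hloc : MeasureTheory.LocallyIntegrableOn F (Set.Ioi 0) := by
    have h := (MeasureTheory.memLp_top_of_bound (μ := MeasureTheory.volume)
      hFm.aestronglyMeasurable K (Filter.Eventually.of_forall hFb)).locallyIntegrable le_top
    exact h.locallyIntegrableOn _
  have htop : F =O[Filter.atTop] (fun t : ℝ => t ^ (-(0 : ℝ))) := by
    refine Asymptotics.IsBigO.of_bound K (Filter.Eventually.of_forall fun t => ?_)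
    simp only [neg_zero, Real.rpow_zero, norm_one, mul_one]
    exact hFb t
  have hbot : F =O[nhdsWithin 0 (Set.Ioi 0)] (fun t : ℝ => t ^ (-(-(s.re + 1)))) := by
    have : F =ᶠ[nhdsWithin 0 (Set.Ioi 0)] (fun _ => (0 : ℂ)) := by
      have h1 : Set.Iio (1 : ℝ) ∈ nhdsWithin (0 : ℝ) (Set.Ioi 0) :=
        mem_nhdsWithin_of_mem_nhds (Iio_mem_nhds one_pos)
      filter_upwards [h1] with t ht
      rw [hF, Set.indicator_of_notMem]
      simp only [Set.mem_Ioi, not_lt]
      exact le_of_lt ht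
    exact this.trans_isBigO (Asymptotics.isBigO_zero _ _)
  have hd : DifferentiableAt ℂ (mellin F) (-s) := by
    refine mellin_differentiableAt_of_isBigO_rpow hloc htop ?_ hbot ?_
    · simp only [Complex.neg_re]; linarith
    · simp only [Complex.neg_re]; linarith
  exact hd.comp s differentiableAt_id.neg

/-! ### the L-function -/

private noncomputable def swd1_S (q : ℕ) (χ : DirichletCharacter ℂ q) : ℕ → ℂ :=
  fun n => χ (n : ZMod q)

private lemma swd1_S_per (q : ℕ) (χ : DirichletCharacter ℂ q) (k : ℕ) :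
    swd1_S q χ (k + q) = swd1_S q χ k := by
  unfold swd1_S
  push_cast
  rw [ZMod.natCast_self, add_zero]

private lemma swd1_S_norm (q : ℕ) (χ : DirichletCharacter ℂ q) (k : ℕ) :
    ‖swd1_S q χ k‖ ≤ 1 := by
  unfold swd1_S
  exact χ.norm_le_one _

private lemma swd1_rep (q : ℕ) [NeZero q] (χ : DirichletCharacter ℂ q) (s : ℂ) (hs : 1 < s.re) :
    DirichletCharacter.LFunction χ s
      = swd1_mean q (swd1_S q χ) * s / (s - 1) + s * swd1_G (swd1_E q (swd1_S q χ)) s := by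
  have hq : 0 < q := Nat.pos_of_ne_zero (NeZero.ne q)
  rw [DirichletCharacter.LFunction_eq_LSeries χ hs]
  have h0 : (0 : ℝ) < s.re := by linarith
  have hs1 : s - 1 ≠ 0 := by
    intro h
    have := congrArg Complex.re h
    simp at this
    linarith
  have hO : (fun n : ℕ => ∑ k ∈ Icc 1 n, swd1_S q χ k) =O[Filter.atTop]
      fun n : ℕ => (n : ℝ) ^ (1 : ℝ) := by
    refine Asymptotics.IsBigO.of_bound 1 (Filter.Eventually.of_forall fun n => ?_)
    rw [Real.rpow_one, one_mul, Real.norm_natCast]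
    calc ‖∑ k ∈ Icc 1 n, swd1_S q χ k‖ ≤ ∑ k ∈ Icc 1 n, ‖swd1_S q χ k‖ := norm_sum_le _ _
      _ ≤ ∑ k ∈ Icc 1 n, (1 : ℝ) := Finset.sum_le_sum fun k _ => swd1_S_norm q χ k
      _ = n := by simp
  have hsum := DirichletCharacter.LSeriesSummable_of_one_lt_re χ hs
  have h := LSeries_eq_mul_integral (swd1_S q χ) zero_le_one hs hsum hO
  have e1 : (fun n : ℕ => χ (n : ZMod q)) = swd1_S q χ := rfl
  rw [e1, h]
  obtain ⟨hi, -⟩ := swd1_int (swd1_E q (swd1_S q χ)) (swd1_E_meas q _) (4 * q)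
    (fun t ht => swd1_E_le q hq _ (swd1_S_per q χ) (swd1_S_norm q χ) t (by linarith)) s h0
  have hre : (-s).re < -1 := by simp only [Complex.neg_re]; linarith
  have hi2 : MeasureTheory.IntegrableOn (fun t : ℝ => swd1_mean q (swd1_S q χ) * (t : ℂ) ^ (-s))
      (Set.Ioi 1) := (integrableOn_Ioi_cpow_of_lt hre one_pos).const_mul _
  have hsplit : (∫ t in Set.Ioi (1 : ℝ), (∑ k ∈ Icc 1 ⌊t⌋₊, swd1_S q χ k) * (t : ℂ) ^ (-(s + 1)))
      = ∫ t in Set.Ioi (1 : ℝ), (swd1_mean q (swd1_S q χ) * (t : ℂ) ^ (-s)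
        + swd1_E q (swd1_S q χ) t * (t : ℂ) ^ (-(s + 1))) := by
    refine MeasureTheory.setIntegral_congr_fun measurableSet_Ioi fun t ht => ?_
    have ht1 : (1 : ℝ) < t := ht
    have ht0 : (t : ℂ) ≠ 0 := by
      exact_mod_cast (by linarith : t ≠ 0)
    have e2 : (t : ℂ) ^ (-s) = t * (t : ℂ) ^ (-(s + 1)) := by
      have : (-s : ℂ) = 1 + (-(s + 1)) := by ring
      rw [this, Complex.cpow_add _ _ ht0, Complex.cpow_one]
    rw [e2]
    unfold swd1_E
    ring
  rw [hsplit, MeasureTheory.integral_add hi2 hi, MeasureTheory.integral_const_mul,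
    integral_Ioi_cpow_of_lt hre one_pos]
  unfold swd1_G
  rw [Complex.ofReal_one, Complex.one_cpow]
  have e3 : (-s + 1 : ℂ) = -(s - 1) := by ring
  rw [e3]
  have hs1' : -(s - 1) ≠ 0 := neg_ne_zero.mpr hs1
  field_simp

private lemma swd1_halfplane : IsPreconnected {z : ℂ | 0 < z.re} :=
  (convex_halfSpace_re_gt 0).isPreconnected

private lemma swd1_open : IsOpen {z : ℂ | 0 < z.re} :=
  isOpen_lt continuous_const Complex.continuous_re

private lemma swd1_eqon (f g : ℂ → ℂ) (hf : ∀ s : ℂ, 0 < s.re → DifferentiableAt ℂ f s)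
    (hg : ∀ s : ℂ, 0 < s.re → DifferentiableAt ℂ g s) (h : ∀ s : ℂ, 1 < s.re → f s = g s)
    (s : ℂ) (hs : 0 < s.re) : f s = g s := by
  have hf' : AnalyticOnNhd ℂ f {z : ℂ | 0 < z.re} :=
    DifferentiableOn.analyticOnNhd (fun z hz => (hf z hz).differentiableWithinAt) swd1_open
  have hg' : AnalyticOnNhd ℂ g {z : ℂ | 0 < z.re} :=
    DifferentiableOn.analyticOnNhd (fun z hz => (hg z hz).differentiableWithinAt) swd1_open
  have h2 : (2 : ℂ) ∈ {z : ℂ | 0 < z.re} := by simp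
  refine hf'.eqOn_of_preconnected_of_eventuallyEq hg' swd1_halfplane h2 ?_ hs
  have : {z : ℂ | 1 < z.re} ∈ nhds (2 : ℂ) :=
    (isOpen_lt continuous_const Complex.continuous_re).mem_nhds (by simp)
  filter_upwards [this] with z hz
  exact h z hz

private lemma swd1_mean_zero (q : ℕ) [NeZero q] (χ : DirichletCharacter ℂ q) (hχ : χ ≠ 1) :
    swd1_mean q (swd1_S q χ) = 0 := by
  unfold swd1_mean swd1_S
  have h : ∑ k ∈ range q, χ ((k : ℕ) : ZMod q) = ∑ a : ZMod q, χ a := by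
    refine Finset.sum_bij' (fun k _ => ((k : ℕ) : ZMod q)) (fun a _ => a.val) ?_ ?_ ?_ ?_ ?_
    · intro k _; exact mem_univ _
    · intro a _; exact mem_range.mpr (ZMod.val_lt a)
    · intro k hk; exact ZMod.val_cast_of_lt (mem_range.mp hk)
    · intro a _; exact ZMod.natCast_zmod_val a
    · intro k _; rfl
  rw [h, MulChar.sum_eq_zero_of_ne_one hχ, zero_div]

theorem LF_le : ∃ C : ℝ, 1 ≤ C ∧ ∀ (q : ℕ) [NeZero q] (χ : DirichletCharacter ℂ q), χ ≠ 1 →
    ∀ s : ℂ, 1 / 2 ≤ s.re → ‖DirichletCharacter.LFunction χ s‖ ≤ C * q * ‖s‖ := by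
  refine ⟨8, by norm_num, ?_⟩
  intro q _ χ hχ s hs
  have hq : 0 < q := Nat.pos_of_ne_zero (NeZero.ne q)
  have hb : ∀ t : ℝ, 1 ≤ t → ‖swd1_E q (swd1_S q χ) t‖ ≤ 4 * q := fun t ht =>
    swd1_E_le q hq _ (swd1_S_per q χ) (swd1_S_norm q χ) t (by linarith)
  have hs0 : 0 < s.re := by linarith
  have h := swd1_eqon (DirichletCharacter.LFunction χ)
    (fun z => z * swd1_G (swd1_E q (swd1_S q χ)) z)
    (fun z _ => (DirichletCharacter.differentiable_LFunction hχ) z)
    (fun z hz => differentiableAt_id.mul (swd1_G_diff _ (swd1_E_meas q _) (4 * q) hb z hz))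
    (fun z hz => by
      rw [swd1_rep q χ z hz, swd1_mean_zero q χ hχ, zero_mul, zero_div, zero_add]) s hs0
  rw [h]
  simp only [norm_mul]
  have hG := (swd1_int _ (swd1_E_meas q (swd1_S q χ)) (4 * q) hb s hs0).2
  have h4 : (4 * q : ℝ) / s.re ≤ 8 * q := by
    rw [div_le_iff₀ hs0]
    have : (0 : ℝ) ≤ q := Nat.cast_nonneg q
    nlinarith
  calc ‖s‖ * ‖swd1_G (swd1_E q (swd1_S q χ)) s‖ ≤ ‖s‖ * (8 * q) :=
        mul_le_mul_of_nonneg_left (hG.trans h4) (norm_nonneg _)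
    _ = 8 * q * ‖s‖ := by ring

theorem LF1_le : ∃ C : ℝ, 1 ≤ C ∧ ∀ (q : ℕ) [NeZero q], ∀ s : ℂ, 1 / 2 ≤ s.re → s ≠ 1 →
    ‖(s - 1) * DirichletCharacter.LFunction (1 : DirichletCharacter ℂ q) s‖
      ≤ C * q * (1 + ‖s‖) ^ 2 := by
  refine ⟨9, by norm_num, ?_⟩
  intro q _ s hs hs1
  have hq : 0 < q := Nat.pos_of_ne_zero (NeZero.ne q)
  have hq1 : (1 : ℝ) ≤ q := by exact_mod_cast hq
  set f := swd1_S q (1 : DirichletCharacter ℂ q) with hf
  have hb : ∀ t : ℝ, 1 ≤ t → ‖swd1_E q f t‖ ≤ 4 * q := fun t ht =>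
    swd1_E_le q hq _ (swd1_S_per q _) (swd1_S_norm q _) t (by linarith)
  have hs0 : 0 < s.re := by linarith
  have h := swd1_eqon (DirichletCharacter.LFunctionTrivChar₁ q)
    (fun z => swd1_mean q f * z + (z - 1) * (z * swd1_G (swd1_E q f) z))
    (fun z _ => (DirichletCharacter.differentiable_LFunctionTrivChar₁ q) z)
    (fun z hz => (differentiableAt_id.const_mul _).add ((differentiableAt_id.sub_const 1).mul
      (differentiableAt_id.mul (swd1_G_diff _ (swd1_E_meas q _) (4 * q) hb z hz))))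
    (fun z hz => by
      have hz1 : z ≠ 1 := by
        rintro rfl
        simp at hz
      have hz1' : z - 1 ≠ 0 := sub_ne_zero.mpr hz1
      rw [DirichletCharacter.LFunctionTrivChar₁, Function.update_of_ne hz1]
      show (z - 1) * DirichletCharacter.LFunction (1 : DirichletCharacter ℂ q) z = _
      rw [swd1_rep q _ z hz]
      simp only [← hf]
      field_simp) s hs0
  rw [DirichletCharacter.LFunctionTrivChar₁, Function.update_of_ne hs1] at h
  have h' : (s - 1) * DirichletCharacter.LFunction (1 : DirichletCharacter ℂ q) s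
      = swd1_mean q f * s + (s - 1) * (s * swd1_G (swd1_E q f) s) := h
  rw [h']
  have hG := (swd1_int _ (swd1_E_meas q f) (4 * q) hb s hs0).2
  have h4 : (4 * q : ℝ) / s.re ≤ 8 * q := by
    rw [div_le_iff₀ hs0]
    nlinarith
  have hm := swd1_mean_le q hq f (swd1_S_norm q _)
  have hns := norm_nonneg s
  have hs1n : ‖s - 1‖ ≤ 1 + ‖s‖ := by
    calc ‖s - 1‖ ≤ ‖s‖ + ‖(1 : ℂ)‖ := norm_sub_le _ _
      _ = 1 + ‖s‖ := by rw [norm_one, add_comm]
  have hA : ‖(s - 1) * (s * swd1_G (swd1_E q f) s)‖ ≤ (1 + ‖s‖) * (‖s‖ * (8 * q)) := by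
    rw [norm_mul, norm_mul]
    exact mul_le_mul hs1n (mul_le_mul_of_nonneg_left (hG.trans h4) hns)
      (mul_nonneg hns (norm_nonneg _)) (by linarith)
  have hB : ‖swd1_mean q f * s‖ ≤ 1 * ‖s‖ := by
    rw [norm_mul]
    exact mul_le_mul_of_nonneg_right hm hns
  calc ‖swd1_mean q f * s + (s - 1) * (s * swd1_G (swd1_E q f) s)‖
      ≤ 1 * ‖s‖ + (1 + ‖s‖) * (‖s‖ * (8 * q)) := (norm_add_le _ _).trans (add_le_add hB hA)
    _ ≤ 9 * q * (1 + ‖s‖) ^ 2 := by nlinarith [mul_nonneg hns hns, mul_nonneg (sub_nonneg.mpr hq1) hns]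

end Pool.Agent.H91.EHA

end

section

/-!
# Estermann's lemma

`χ1, χ2` real characters mod `N` (possibly imprimitive), `F(s) = L(s,χ0)L(s,χ1)L(s,χ2)L(s,χ1χ2)`,
`λ = (φ(N)/N) L(1,χ1)L(1,χ2)L(1,χ1χ2)`.
(1) For `Re s > 1`, `F(s) = ∑ a(n) n^{-s}` with `a(n) ≥ 0`, `a(1) = 1`.  (For instance
`a = g * (χ2 g)`, `g = χ0 * χ1` (Dirichlet convolution), multiplicative; at prime powers the local factor is
`1/((1-z)(1-χ1(p)z)(1-χ2(p)z)(1-χ1χ2(p)z))`, `χ1(p),χ2(p) ∈ {±1}` for `p ∤ N` (equal to `1` for `p ∣ N`):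
`(1-z)^{-4}` or `(1-z²)^{-2}`.  Or: `log F` has nonnegative coefficients
`Λ(n)/log n (1+χ1(n))(1+χ2(n))` for `(n,N)=1`; whatever is easiest.  Mathlib: `DirichletCharacter.zetaMul`,
`Mathlib/NumberTheory/LSeries/Positivity.lean`.)
(2) `F(s) - λ/(s-1)` is analytic in `Re s ≥ 1/2` (removable singularity,
`DirichletCharacter.LFunctionTrivChar_residue_one`).  Its Taylor series at `2`:
`F(s) - λ/(s-1) = ∑ (b_m - λ)(2-s)^m` for `|s-2| < 3/2`, `b_m = (-1)^m F^{(m)}(2)/m! ≥ 0`, `b_0 ≥ 1`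
(since `1/(s-1) = ∑ (2-s)^m` for `|s-2|<1`).  By Cauchy and SwD1 `|b_m - λ| ≤ C N^4 (2/3)^m`.
(3) For `7/8 < s < 1`, `(2-s) ≤ 9/8`: tail `∑_{m≥M} |b_m-λ|(2-s)^m ≤ 4 C N^4 (3/4)^M ≤ 1/2` for
`M = ⌈(4 log N + C')/log(4/3)⌉`.  Hence `F(s) ≥ λ/(s-1) + b_0 - λ ∑_{m<M}(2-s)^m - 1/2
≥ 1/2 - λ (2-s)^M/(1-s)`, and `(2-s)^M ≤ e^{M(1-s)} ≤ C N^{14(1-s)}`.
(`λ` is real and `≥ 0`: each `L(1,χ)` is a limit of values at real `s>1`, which are `> 0`.)
-/

set_option autoImplicit false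

namespace Pool.Agent.H91.EHA

open Finset ArithmeticFunction DirichletCharacter
open scoped ComplexOrder

/-- the arithmetic function of a character -/
private noncomputable def swd2Af {N : ℕ} (χ : DirichletCharacter ℂ N) : ArithmeticFunction ℂ :=
  toArithmeticFunction (χ ·)

private theorem swd2_conv_nonneg {f g : ArithmeticFunction ℂ} {p : ℕ} (hp : p.Prime)
    (hf : ∀ k, 0 ≤ f (p ^ k)) (hg : ∀ k, 0 ≤ g (p ^ k)) (k : ℕ) : 0 ≤ (f * g) (p ^ k) := by
  rw [ArithmeticFunction.mul_apply]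
  apply Finset.sum_nonneg
  intro x hx
  rw [Nat.mem_divisorsAntidiagonal] at hx
  obtain ⟨i, _, hi⟩ := (Nat.dvd_prime_pow hp).mp (Dvd.intro _ hx.1)
  obtain ⟨j, _, hj⟩ := (Nat.dvd_prime_pow hp).mp (Dvd.intro_left _ hx.1)
  rw [hi, hj]
  exact mul_nonneg (hf i) (hg j)

private theorem swd2_geom_nonneg {f g : ArithmeticFunction ℂ} {p : ℕ} (hp : p.Prime) {e : ℂ}
    (he : e = 1 ∨ e = -1)
    (hf : ∀ k, f (p ^ k) = 1) (hg : ∀ k, g (p ^ k) = e ^ k) (k : ℕ) : 0 ≤ (f * g) (p ^ k) := by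
  have h1 : (f * g) (p ^ k) = ∑ i ∈ range (k + 1), e ^ i := by
    rw [ArithmeticFunction.mul_apply]
    have h2 : ∑ x ∈ (p ^ k).divisorsAntidiagonal, f x.1 * g x.2 =
        ∑ x ∈ (p ^ k).divisorsAntidiagonal, g x.2 := by
      apply Finset.sum_congr rfl
      intro x hx
      rw [Nat.mem_divisorsAntidiagonal] at hx
      obtain ⟨i, _, hi⟩ := (Nat.dvd_prime_pow hp).mp (Dvd.intro _ hx.1)
      rw [hi, hf, one_mul]
    rw [h2, Nat.sum_divisorsAntidiagonal' (f := fun _ y => g y), Nat.sum_divisors_prime_pow hp]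
    exact Finset.sum_congr rfl fun i _ => hg i
  rw [h1]
  rcases he with rfl | rfl
  · apply Finset.sum_nonneg
    intro i _
    rw [one_pow]
    exact zero_le_one
  · rw [neg_one_geom_sum]
    split_ifs
    exacts [le_rfl, zero_le_one]

private theorem swd2Af_pow {N : ℕ} (χ : DirichletCharacter ℂ N) {p : ℕ} (hp : p.Prime) (k : ℕ) :
    swd2Af χ (p ^ k) = χ p ^ k := by
  unfold swd2Af
  rw [← apply_eq_toArithmeticFunction_apply χ (pow_ne_zero k hp.ne_zero)]
  rw [Nat.cast_pow, map_pow]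

/-- the coefficients -/
private noncomputable def swd2A {N : ℕ} (χ1 χ2 : DirichletCharacter ℂ N) : ArithmeticFunction ℂ :=
  (swd2Af (1 : DirichletCharacter ℂ N) * swd2Af χ1) * (swd2Af χ2 * swd2Af (χ1 * χ2))

private theorem swd2A_mult {N : ℕ} (χ1 χ2 : DirichletCharacter ℂ N) :
    (swd2A χ1 χ2).IsMultiplicative :=
  ((isMultiplicative_toArithmeticFunction _).mul (isMultiplicative_toArithmeticFunction _)).mul
    ((isMultiplicative_toArithmeticFunction _).mul (isMultiplicative_toArithmeticFunction _))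

private theorem swd2A_pow_nonneg {N : ℕ} {χ1 χ2 : DirichletCharacter ℂ N} (h1 : χ1 ^ 2 = 1)
    (h2 : χ2 ^ 2 = 1) {p : ℕ} (hp : p.Prime) (k : ℕ) : 0 ≤ swd2A χ1 χ2 (p ^ k) := by
  have hmul : (χ1 * χ2) p = χ1 p * χ2 p := MulChar.mul_apply χ1 χ2 _
  by_cases hu : IsUnit (p : ZMod N)
  · have h0 : (1 : DirichletCharacter ℂ N) p = 1 := MulChar.one_apply hu
    have q1 : χ1 p = 1 ∨ χ1 p = -1 := by
      have h : χ1 p * χ1 p = 1 := by
        rw [← MulChar.mul_apply, ← pow_two, h1, MulChar.one_apply hu]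
      exact mul_self_eq_one_iff.mp h
    have q2 : χ2 p = 1 ∨ χ2 p = -1 := by
      have h : χ2 p * χ2 p = 1 := by
        rw [← MulChar.mul_apply, ← pow_two, h2, MulChar.one_apply hu]
      exact mul_self_eq_one_iff.mp h
    have f0 : ∀ k, swd2Af (1 : DirichletCharacter ℂ N) (p ^ k) = 1 := fun k => by
      rw [swd2Af_pow _ hp, h0, one_pow]
    rcases q2 with e2 | e2
    · -- `χ2 p = 1`
      have f2 : ∀ k, swd2Af χ2 (p ^ k) = 1 := fun k => by rw [swd2Af_pow _ hp, e2, one_pow]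
      exact swd2_conv_nonneg hp (swd2_geom_nonneg hp q1 f0 (fun k => swd2Af_pow _ hp k))
        (swd2_geom_nonneg hp q1 f2 (fun k => by rw [swd2Af_pow _ hp, hmul, e2, mul_one])) k
    · rcases q1 with e1 | e1
      · -- `χ1 p = 1`
        have f1 : ∀ k, swd2Af χ1 (p ^ k) = 1 := fun k => by rw [swd2Af_pow _ hp, e1, one_pow]
        have hre : swd2A χ1 χ2 = (swd2Af (1 : DirichletCharacter ℂ N) * swd2Af χ2) * (swd2Af χ1 * swd2Af (χ1 * χ2)) := by
          unfold swd2A; ring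
        rw [hre]
        exact swd2_conv_nonneg hp (swd2_geom_nonneg hp (Or.inr rfl) f0
          (fun k => by rw [swd2Af_pow _ hp, e2]))
          (swd2_geom_nonneg hp (Or.inr rfl) f1
            (fun k => by rw [swd2Af_pow _ hp, hmul, e1, e2, one_mul])) k
      · have f3 : ∀ k, swd2Af (χ1 * χ2) (p ^ k) = 1 := fun k => by
          rw [swd2Af_pow _ hp, hmul, e1, e2]; norm_num
        have hre : swd2A χ1 χ2 = (swd2Af (1 : DirichletCharacter ℂ N) * swd2Af χ1) * (swd2Af (χ1 * χ2) * swd2Af χ2) := by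
          unfold swd2A; ring
        rw [hre]
        exact swd2_conv_nonneg hp (swd2_geom_nonneg hp (Or.inr rfl) f0
          (fun k => by rw [swd2Af_pow _ hp, e1]))
          (swd2_geom_nonneg hp (Or.inr rfl) f3 (fun k => by rw [swd2Af_pow _ hp, e2])) k
  · have hz : ∀ (χ : DirichletCharacter ℂ N) (k : ℕ), 0 ≤ swd2Af χ (p ^ k) := by
      intro χ k
      rw [swd2Af_pow _ hp, MulChar.map_nonunit χ hu]
      exact pow_nonneg le_rfl k
    exact swd2_conv_nonneg hp (swd2_conv_nonneg hp (hz _) (hz _))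
      (swd2_conv_nonneg hp (hz _) (hz _)) k

private theorem swd2A_nonneg {N : ℕ} {χ1 χ2 : DirichletCharacter ℂ N} (h1 : χ1 ^ 2 = 1)
    (h2 : χ2 ^ 2 = 1) (n : ℕ) : 0 ≤ swd2A χ1 χ2 n := by
  rcases eq_or_ne n 0 with rfl | hn
  · simp only [ArithmeticFunction.map_zero, le_refl]
  · rw [(swd2A_mult χ1 χ2).multiplicative_factorization _ hn]
    exact Finset.prod_nonneg
        fun p hp ↦ swd2A_pow_nonneg h1 h2 (Nat.prime_of_mem_primeFactors hp) _

private theorem swd2_summable {N : ℕ} [NeZero N] (χ : DirichletCharacter ℂ N) {s : ℂ}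
    (hs : 1 < s.re) : LSeriesSummable (swd2Af χ) s := by
  refine (LSeriesSummable_congr _ fun h ↦ (χ.apply_eq_toArithmeticFunction_apply h).symm).mpr <|
      ZMod.LSeriesSummable_of_one_lt_re χ hs

private theorem swd2_LSeries {N : ℕ} [NeZero N] (χ : DirichletCharacter ℂ N) {s : ℂ}
    (hs : 1 < s.re) : LSeries (swd2Af χ) s = LFunction χ s := by
  rw [LFunction_eq_LSeries χ hs]
  exact (LSeries_congr χ.apply_eq_toArithmeticFunction_apply s).symm

private theorem swd2A_summable {N : ℕ} [NeZero N] (χ1 χ2 : DirichletCharacter ℂ N) {s : ℂ}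
    (hs : 1 < s.re) : LSeriesSummable (swd2A χ1 χ2) s := by
  have h1 : LSeriesSummable (fun n => (swd2Af (1 : DirichletCharacter ℂ N) * swd2Af χ1) n) s :=
    ArithmeticFunction.LSeriesSummable_mul (swd2_summable 1 hs) (swd2_summable χ1 hs)
  have h2 : LSeriesSummable (fun n => (swd2Af χ2 * swd2Af (χ1 * χ2)) n) s :=
    ArithmeticFunction.LSeriesSummable_mul (swd2_summable χ2 hs) (swd2_summable (χ1 * χ2) hs)
  exact ArithmeticFunction.LSeriesSummable_mul h1 h2

private theorem swd2A_LSeries {N : ℕ} [NeZero N] (χ1 χ2 : DirichletCharacter ℂ N) {s : ℂ}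
    (hs : 1 < s.re) : LSeries (swd2A χ1 χ2) s =
      LFunction (1 : DirichletCharacter ℂ N) s * LFunction χ1 s * LFunction χ2 s *
          LFunction (χ1 * χ2) s := by
  have e1 : LSeries (swd2A χ1 χ2) s =
      LSeries (fun n => (swd2Af (1 : DirichletCharacter ℂ N) * swd2Af χ1) n) s *
      LSeries (fun n => (swd2Af χ2 * swd2Af (χ1 * χ2)) n) s :=
    ArithmeticFunction.LSeries_mul'
      (ArithmeticFunction.LSeriesSummable_mul (swd2_summable 1 hs) (swd2_summable χ1 hs))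
      (ArithmeticFunction.LSeriesSummable_mul (swd2_summable χ2 hs) (swd2_summable (χ1 * χ2) hs))
  have e2 : LSeries (fun n => (swd2Af (1 : DirichletCharacter ℂ N) * swd2Af χ1) n) s =
      LSeries (swd2Af (1 : DirichletCharacter ℂ N)) s * LSeries (swd2Af χ1) s :=
    ArithmeticFunction.LSeries_mul' (swd2_summable 1 hs) (swd2_summable χ1 hs)
  have e3 : LSeries (fun n => (swd2Af χ2 * swd2Af (χ1 * χ2)) n) s =
      LSeries (swd2Af χ2) s * LSeries (swd2Af (χ1 * χ2)) s :=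
    ArithmeticFunction.LSeries_mul' (swd2_summable χ2 hs) (swd2_summable (χ1 * χ2) hs)
  rw [e1, e2, e3, swd2_LSeries _ hs, swd2_LSeries _ hs, swd2_LSeries _ hs, swd2_LSeries _ hs]
  ring

/-- the purely real part of the argument -/
private theorem swd2_real {r : ℕ → ℝ} {l B t S : ℝ} (hB : 0 ≤ B) (ht1 : 1 < t) (ht2 : t < 9 / 8)
    (hS : HasSum (fun m => r m * t ^ m) S) (hr : ∀ m, |r m| ≤ B * (2 / 3) ^ m)
    (h0 : ∀ m, 0 ≤ r m + l) (h1 : 1 ≤ r 0 + l) {M : ℕ} (hM : 1 ≤ M)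
    (hBM : B * 4 * (3 / 4) ^ M ≤ 1 / 2) :
    1 / 2 - l * (t ^ M / (t - 1)) ≤ S - l / (t - 1) := by
  have hsplit := hS.summable.sum_add_tsum_nat_add M
  rw [hS.tsum_eq] at hsplit
  have ht0 : 0 < t := by linarith
  have htail : |∑' i, r (i + M) * t ^ (i + M)| ≤ 1 / 2 := by
    have hg : HasSum (fun i : ℕ => B * (3 / 4) ^ M * (3 / 4) ^ i) (B * (3 / 4) ^ M * 4) := by
      have h := (hasSum_geometric_of_lt_one (r := (3 / 4 : ℝ)) (by norm_num)
        (by norm_num)).mul_left (B * (3 / 4) ^ M)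
      norm_num at h
      norm_num
      exact h
    have hb : ∀ i, ‖r (i + M) * t ^ (i + M)‖ ≤ B * (3 / 4) ^ M * (3 / 4) ^ i := by
      intro i
      rw [Real.norm_eq_abs, abs_mul, abs_of_nonneg (pow_nonneg ht0.le _)]
      have e1 : t ^ (i + M) ≤ (9 / 8) ^ (i + M) := pow_le_pow_left₀ ht0.le ht2.le _
      calc |r (i + M)| * t ^ (i + M) ≤ B * (2 / 3) ^ (i + M) * (9 / 8) ^ (i + M) :=
            mul_le_mul (hr _) e1 (pow_nonneg ht0.le _) (by positivity)
        _ = B * (3 / 4) ^ M * (3 / 4) ^ i := by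
            rw [mul_assoc, ← mul_pow]
            norm_num
            rw [pow_add]
            ring
    have h := tsum_of_norm_bounded hg hb
    rw [Real.norm_eq_abs] at h
    linarith
  have hgeom : ∑ m ∈ Finset.range M, t ^ m = (t ^ M - 1) / (t - 1) := geom_sum_eq ht1.ne' M
  have hfin : 1 - l * ((t ^ M - 1) / (t - 1)) ≤ ∑ m ∈ Finset.range M, r m * t ^ m := by
    rw [← hgeom]
    have e1 : ∑ m ∈ Finset.range M, r m * t ^ m + l * ∑ m ∈ Finset.range M, t ^ m =
        ∑ m ∈ Finset.range M, (r m + l) * t ^ m := by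
      rw [Finset.mul_sum, ← Finset.sum_add_distrib]
      exact Finset.sum_congr rfl fun m _ => by ring
    have e2 : (r 0 + l) * t ^ 0 ≤ ∑ m ∈ Finset.range M, (r m + l) * t ^ m :=
      Finset.single_le_sum (f := fun m => (r m + l) * t ^ m)
        (fun m _ => mul_nonneg (h0 m) (pow_nonneg ht0.le m)) (Finset.mem_range.mpr (by omega))
    rw [pow_zero, mul_one] at e2
    linarith
  have hlow := (abs_le.mp htail).1
  have htt : 0 < t - 1 := by linarith
  have e3 : l * (t ^ M / (t - 1)) = l * ((t ^ M - 1) / (t - 1)) + l / (t - 1) := by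
    field_simp
    ring
  rw [e3]
  linarith

private theorem swd2_totient (N : ℕ) [NeZero N] :
    (∏ p ∈ N.primeFactors, (1 - (p : ℂ)⁻¹)) = (((N.totient : ℝ) / N : ℝ) : ℂ) := by
  have h := Nat.totient_eq_mul_prod_factors N
  have hN : (N : ℂ) ≠ 0 := by exact_mod_cast NeZero.ne N
  have h2 : ((N.totient : ℚ) : ℂ) = ((N * ∏ p ∈ N.primeFactors, (1 - (p : ℚ)⁻¹) : ℚ) : ℂ) := by
    rw [h]
  push_cast at h2
  push_cast
  rw [h2]
  field_simp

private theorem swd2_iter_inv (m : ℕ) :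
    iteratedDeriv m (fun s : ℂ => (s - 1)⁻¹) 2 = (-1) ^ m * (m.factorial : ℂ) := by
  have h := congrFun (iter_deriv_inv_linear_sub (𝕜 := ℂ) m 1 1) 2
  rw [iteratedDeriv_eq_iterate]
  simp only [one_mul, one_pow, mul_one] at h
  rw [h]
  norm_num

private theorem swd2_ev {N : ℕ} [NeZero N] (χ1 χ2 : DirichletCharacter ℂ N) (s : ℂ) (hs : s ≠ 1) :
    DirichletCharacter.LFunctionTrivChar₁ N s * DirichletCharacter.LFunction χ1 s *
      DirichletCharacter.LFunction χ2 s * DirichletCharacter.LFunction (χ1 * χ2) s =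
    (s - 1) * (DirichletCharacter.LFunction (1 : DirichletCharacter ℂ N) s *
      DirichletCharacter.LFunction χ1 s * DirichletCharacter.LFunction χ2 s *
      DirichletCharacter.LFunction (χ1 * χ2) s) := by
  rw [show DirichletCharacter.LFunctionTrivChar₁ N s =
    (s - 1) * DirichletCharacter.LFunctionTrivChar N s from Function.update_of_ne hs ..]
  ring

private theorem swd2_core {C0 C1 : ℝ} (hC0 : 1 ≤ C0) (hC1 : 1 ≤ C1) {N : ℕ} [NeZero N]
    (hL : ∀ χ : DirichletCharacter ℂ N, χ ≠ 1 →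
      ∀ s : ℂ, 1 / 2 ≤ s.re → ‖DirichletCharacter.LFunction χ s‖ ≤ C1 * N * ‖s‖)
    (hL0 : ∀ s : ℂ, 1 / 2 ≤ s.re → s ≠ 1 →
      ‖(s - 1) * DirichletCharacter.LFunction (1 : DirichletCharacter ℂ N) s‖
      ≤ C0 * N * (1 + ‖s‖) ^ 2)
    (χ1 χ2 : DirichletCharacter ℂ N) (h1 : χ1 ^ 2 = 1) (h2 : χ2 ^ 2 = 1) (n1 : χ1 ≠ 1)
    (n2 : χ2 ≠ 1) (n3 : χ1 * χ2 ≠ 1) {s : ℝ} (hs1 : 7 / 8 < s) (hs2 : s < 1) {M : ℕ} (hM : 1 ≤ M)
    (hBM : 2000 * C0 * C1 ^ 3 * (N : ℝ) ^ 4 * 4 * (3 / 4) ^ M ≤ 1 / 2) :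
    0 ≤ (((N.totient : ℝ) / N) *
        (DirichletCharacter.LFunction χ1 1 * DirichletCharacter.LFunction χ2 1 *
          DirichletCharacter.LFunction (χ1 * χ2) 1).re) ∧
    1 / 2 - (((N.totient : ℝ) / N) *
        (DirichletCharacter.LFunction χ1 1 * DirichletCharacter.LFunction χ2 1 *
          DirichletCharacter.LFunction (χ1 * χ2) 1).re) * ((2 - s) ^ M / (1 - s))
      ≤ (DirichletCharacter.LFunction (1 : DirichletCharacter ℂ N) s *
          DirichletCharacter.LFunction χ1 s * DirichletCharacter.LFunction χ2 s *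
          DirichletCharacter.LFunction (χ1 * χ2) s).re := by
  set W : ℂ → ℂ := fun s => DirichletCharacter.LFunctionTrivChar₁ N s *
    DirichletCharacter.LFunction χ1 s * DirichletCharacter.LFunction χ2 s *
      DirichletCharacter.LFunction (χ1 * χ2) s with hW
  set F : ℂ → ℂ := fun s => DirichletCharacter.LFunction (1 : DirichletCharacter ℂ N) s *
    DirichletCharacter.LFunction χ1 s * DirichletCharacter.LFunction χ2 s *
      DirichletCharacter.LFunction (χ1 * χ2) s with hF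
  have hN1 : (1 : ℝ) ≤ (N : ℝ) := by exact_mod_cast NeZero.one_le
  have hWd : Differentiable ℂ W :=
    (((DirichletCharacter.differentiable_LFunctionTrivChar₁ N).mul
      (DirichletCharacter.differentiable_LFunction n1)).mul
      (DirichletCharacter.differentiable_LFunction n2)).mul
      (DirichletCharacter.differentiable_LFunction n3)
  have hWF : ∀ s : ℂ, s ≠ 1 → W s = (s - 1) * F s := fun s hs => swd2_ev χ1 χ2 s hs
  set lam : ℂ := W 1 with hlam
  have hlam2 : lam = (((N.totient : ℝ) / N : ℝ) : ℂ) *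
      (DirichletCharacter.LFunction χ1 1 * DirichletCharacter.LFunction χ2 1 *
          DirichletCharacter.LFunction (χ1 * χ2) 1) := by
    rw [hlam, hW, ← swd2_totient N]
    simp only [Function.update_self]
    ring
  have hlre : lam.re = (((N.totient : ℝ) / N) *
        (DirichletCharacter.LFunction χ1 1 * DirichletCharacter.LFunction χ2 1 *
          DirichletCharacter.LFunction (χ1 * χ2) 1).re) := by
    rw [hlam2, Complex.re_ofReal_mul]
  rw [← hlre]
  -- the entire function `H`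
  set H : ℂ → ℂ := dslope W 1 with hH
  have hHd : Differentiable ℂ H := by
    rw [← differentiableOn_univ, hH, Complex.differentiableOn_dslope Filter.univ_mem,
      differentiableOn_univ]
    exact hWd
  have hHF : ∀ s : ℂ, s ≠ 1 → H s = F s - lam * (s - 1)⁻¹ := by
    intro s hs
    have hs' : s - 1 ≠ 0 := sub_ne_zero.mpr hs
    rw [hH, dslope_of_ne _ hs, slope_def_field, hWF s hs, ← hlam]
    field_simp
  -- bound on the circle
  set B : ℝ := 2000 * C0 * C1 ^ 3 * (N : ℝ) ^ 4 with hB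
  have hB0 : 0 ≤ B := by positivity
  have hsph : ∀ z ∈ Metric.sphere (2 : ℂ) (3 / 2), ‖H z‖ ≤ B := by
    intro z hz
    rw [mem_sphere_iff_norm] at hz
    have hre : |z.re - 2| ≤ 3 / 2 := by
      have h := Complex.abs_re_le_norm (z - 2)
      rw [hz] at h
      simpa using h
    have hre1 : 1 / 2 ≤ z.re := by have := (abs_le.mp hre).1; linarith
    have hzn : ‖z‖ ≤ 7 / 2 := by
      have h := norm_add_le (z - 2) 2
      rw [hz, sub_add_cancel, Complex.norm_ofNat] at h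
      linarith
    have hz1 : 1 / 2 ≤ ‖z - 1‖ := by
      have h := norm_sub_norm_le (z - 2) (-1)
      rw [hz, norm_neg, norm_one] at h
      have e : z - 2 - -1 = z - 1 := by ring
      rw [e] at h
      linarith
    have hzne : z ≠ 1 := by
      rintro rfl
      norm_num at hz1
    have hz1' : 0 < ‖z - 1‖ := by linarith only [hz1]
    have e0 : ‖(z - 1) * DirichletCharacter.LFunction (1 : DirichletCharacter ℂ N) z‖ ≤
        C0 * N * (9 / 2) ^ 2 := by
      refine (hL0 z hre1 hzne).trans ?_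
      apply mul_le_mul_of_nonneg_left _ (by positivity)
      apply pow_le_pow_left₀ (by positivity)
      linarith only [hzn]
    have e1 : ∀ χ : DirichletCharacter ℂ N, χ ≠ 1 →
        ‖DirichletCharacter.LFunction χ z‖ ≤ C1 * N * (7 / 2) := by
      intro χ hχ
      refine (hL χ hχ z hre1).trans ?_
      apply mul_le_mul_of_nonneg_left hzn (by positivity)
    have e2 : ∀ χ : DirichletCharacter ℂ N, χ ≠ 1 →
        ‖DirichletCharacter.LFunction χ 1‖ ≤ C1 * N := by
      intro χ hχ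
      have h := hL χ hχ 1 (by norm_num)
      rw [norm_one, mul_one] at h
      exact h
    have hWz : ‖W z‖ ≤ C0 * N * (9 / 2) ^ 2 * (C1 * N * (7 / 2)) * (C1 * N * (7 / 2)) *
        (C1 * N * (7 / 2)) := by
      have e : W z = (z - 1) * DirichletCharacter.LFunction (1 : DirichletCharacter ℂ N) z *
        DirichletCharacter.LFunction χ1 z * DirichletCharacter.LFunction χ2 z *
          DirichletCharacter.LFunction (χ1 * χ2) z := by
        rw [hWF z hzne, hF]; ring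
      rw [e, norm_mul, norm_mul, norm_mul]
      gcongr
      · exact e1 χ1 n1
      · exact e1 χ2 n2
      · exact e1 (χ1 * χ2) n3
    have hlamn : ‖lam‖ ≤ (C1 * N) * (C1 * N) * (C1 * N) := by
      rw [hlam2, norm_mul, norm_mul, norm_mul]
      have et : ‖(((N.totient : ℝ) / N : ℝ) : ℂ)‖ ≤ 1 := by
        rw [Complex.norm_real, Real.norm_eq_abs, abs_of_nonneg (by positivity)]
        rw [div_le_one (by linarith only [hN1])]
        exact_mod_cast Nat.totient_le N
      calc _ ≤ 1 * ((C1 * N) * (C1 * N) * (C1 * N)) := by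
            gcongr
            · exact e2 χ1 n1
            · exact e2 χ2 n2
            · exact e2 (χ1 * χ2) n3
        _ = _ := one_mul _
    rw [hH, dslope_of_ne _ hzne, slope_def_field, norm_div, div_le_iff₀ hz1', ← hlam]
    have e3 : ‖W z - lam‖ ≤ ‖W z‖ + ‖lam‖ := norm_sub_le _ _
    have e4 : (C1 * N) * (C1 * N) * (C1 * N) ≤ C0 * C1 ^ 3 * (N : ℝ) ^ 4 := by
      have f1 : (1 : ℝ) ≤ C0 * N := by nlinarith only [hC0, hN1]
      have f2 : 0 ≤ (C1 * N) * (C1 * N) * (C1 * N) := by positivity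
      have f3 : C0 * C1 ^ 3 * (N : ℝ) ^ 4 = (C1 * N) * (C1 * N) * (C1 * N) * (C0 * N) := by ring
      rw [f3]
      exact le_mul_of_one_le_right f2 f1
    have e5 : C0 * N * (9 / 2) ^ 2 * (C1 * N * (7 / 2)) * (C1 * N * (7 / 2)) *
        (C1 * N * (7 / 2)) = 27783 / 32 * (C0 * C1 ^ 3 * (N : ℝ) ^ 4) := by ring
    have e6 : 0 ≤ C0 * C1 ^ 3 * (N : ℝ) ^ 4 := by positivity
    have e7 : B * (1 / 2) ≤ B * ‖z - 1‖ := mul_le_mul_of_nonneg_left hz1 hB0
    have e8 : B = 2000 * (C0 * C1 ^ 3 * (N : ℝ) ^ 4) := by rw [hB]; ring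
    rw [e5] at hWz
    rw [e8] at e7 ⊢
    linarith only [hB0, hWz, hlamn, e3, e4, e7]
  -- derivatives at `2`
  have hder : ∀ m, ‖iteratedDeriv m H 2‖ ≤ m.factorial * B / (3 / 2) ^ m := fun m =>
    Complex.norm_iteratedDeriv_le_of_forall_mem_sphere_norm_le m (by norm_num)
      hHd.diffContOnCl hsph
  have habs : LSeries.abscissaOfAbsConv (swd2A χ1 χ2) < ((2 : ℝ) : EReal) := by
    refine lt_of_le_of_lt (b := ((1 : ℝ) : EReal)) ?_ (by exact_mod_cast one_lt_two)
    exact LSeries.abscissaOfAbsConv_le_of_forall_lt_LSeriesSummable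
      fun y hy => swd2A_summable χ1 χ2 (by simpa using hy)
  have hnonneg : ∀ m : ℕ, 0 ≤ (-1) ^ m * iteratedDeriv m (LSeries (swd2A χ1 χ2)) (2 : ℂ) := by
    intro m
    have h := ArithmeticFunction.iteratedDeriv_LSeries_alternating (swd2A χ1 χ2)
      (swd2A_nonneg h1 h2) habs m
    simpa using h
  have hev : LSeries (swd2A χ1 χ2) =ᶠ[nhds (2 : ℂ)] fun z => H z + lam * (z - 1)⁻¹ := by
    have hopen : IsOpen {z : ℂ | 1 < z.re} := isOpen_lt continuous_const Complex.continuous_re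
    filter_upwards [hopen.mem_nhds (show (2 : ℂ) ∈ {z : ℂ | 1 < z.re} by simp)] with z hz
    have hz' : z ≠ 1 := by
      rintro rfl
      simp at hz
    rw [swd2A_LSeries χ1 χ2 hz, hHF z hz', hF]
    ring
  have hsm : ∀ m : ℕ, iteratedDeriv m (LSeries (swd2A χ1 χ2)) (2 : ℂ) =
      iteratedDeriv m H 2 + lam * ((-1) ^ m * (m.factorial : ℂ)) := by
    intro m
    rw [(hev.iteratedDeriv m).eq_of_nhds]
    have ha : ContDiffAt ℂ m H 2 := (hHd.contDiff).contDiffAt
    have hb' : ContDiffAt ℂ m (fun z : ℂ => (z - 1)⁻¹) 2 := by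
      apply ContDiffAt.inv
      · exact contDiffAt_id.sub contDiffAt_const
      · norm_num
    have hb : ContDiffAt ℂ m (fun z : ℂ => lam * (z - 1)⁻¹) 2 := contDiffAt_const.mul hb'
    rw [iteratedDeriv_fun_add ha hb, iteratedDeriv_const_mul_field, swd2_iter_inv]
  -- the real coefficients
  set r : ℕ → ℝ := fun m => ((-1) ^ m * iteratedDeriv m H 2).re / m.factorial with hr
  have hfac : ∀ m : ℕ, (0 : ℝ) < (m.factorial : ℝ) := fun m => by
    exact_mod_cast Nat.factorial_pos m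
  have hrle : ∀ m, |r m| ≤ B * (2 / 3) ^ m := by
    intro m
    rw [hr]
    simp only
    rw [abs_div, abs_of_pos (hfac m), div_le_iff₀ (hfac m)]
    refine (Complex.abs_re_le_norm _).trans ?_
    rw [norm_mul, norm_pow, norm_neg, norm_one, one_pow, one_mul]
    refine (hder m).trans (le_of_eq ?_)
    rw [div_eq_iff (by positivity)]
    have : ((2 : ℝ) / 3) ^ m * (3 / 2) ^ m = 1 := by
      rw [← mul_pow]; norm_num
    calc (m.factorial : ℝ) * B = B * m.factorial * 1 := by ring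
      _ = B * m.factorial * (((2 : ℝ) / 3) ^ m * (3 / 2) ^ m) := by rw [this]
      _ = _ := by ring
  have hre_eq : ∀ m, ((-1) ^ m * iteratedDeriv m (LSeries (swd2A χ1 χ2)) (2 : ℂ)).re =
      (r m + lam.re) * m.factorial := by
    intro m
    have e : (-1) ^ m * iteratedDeriv m (LSeries (swd2A χ1 χ2)) (2 : ℂ) =
        (-1) ^ m * iteratedDeriv m H 2 + ((m.factorial : ℝ) : ℂ) * lam := by
      rw [hsm m, mul_add]
      have : ((-1 : ℂ)) ^ m * (-1) ^ m = 1 := by
        rw [← mul_pow]; norm_num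
      push_cast
      linear_combination (lam * (m.factorial : ℂ)) * this
    rw [e, Complex.add_re, Complex.re_ofReal_mul, hr]
    simp only
    have := (hfac m).ne'
    field_simp
  have hr0 : ∀ m, 0 ≤ r m + lam.re := by
    intro m
    have h := (Complex.le_def.mp (hnonneg m)).1
    rw [hre_eq m, Complex.zero_re] at h
    exact nonneg_of_mul_nonneg_left h (hfac m)
  have hr1 : 1 ≤ r 0 + lam.re := by
    have h := hre_eq 0
    rw [pow_zero, one_mul, iteratedDeriv_zero, Nat.factorial_zero, Nat.cast_one, mul_one] at h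
    rw [← h]
    have hsum : Summable (fun n => LSeries.term (swd2A χ1 χ2) 2 n) :=
      swd2A_summable χ1 χ2 (s := 2) (by norm_num)
    have h3 := hsum.le_tsum 1 (fun n _ => by
      have := LSeries.term_nonneg (a := fun n => swd2A χ1 χ2 n) (n := n)
        (swd2A_nonneg h1 h2 n) 2
      simpa using this)
    have h4 : LSeries.term (swd2A χ1 χ2) 2 1 = 1 := by
      rw [LSeries.term_of_ne_zero one_ne_zero, (swd2A_mult χ1 χ2).map_one]
      simp
    rw [h4] at h3
    have h5 := (Complex.le_def.mp h3).1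
    rw [Complex.one_re] at h5
    exact h5
  have hl0 : 0 ≤ lam.re := by
    by_contra hneg
    push Not at hneg
    have ht : Filter.Tendsto (fun m : ℕ => B * (2 / 3 : ℝ) ^ m) Filter.atTop (nhds (B * 0)) :=
      (tendsto_pow_atTop_nhds_zero_of_lt_one (by norm_num) (by norm_num)).const_mul B
    rw [mul_zero] at ht
    obtain ⟨m, hm⟩ := (ht.eventually (gt_mem_nhds (show (0 : ℝ) < -lam.re by linarith))).exists
    have := hr0 m
    have h6 := (abs_le.mp (hrle m)).2
    linarith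
  refine ⟨hl0, ?_⟩
  -- the Taylor series at real `s`
  have hsne : (s : ℂ) ≠ 1 := by
    intro h
    have : s = 1 := by exact_mod_cast h
    linarith
  have hS : HasSum (fun m => r m * (2 - s) ^ m) (H s).re := by
    have h := Complex.hasSum_re (Complex.hasSum_taylorSeries_of_entire hHd 2 (s : ℂ))
    have hfun : (fun m => r m * (2 - s) ^ m) = fun m : ℕ =>
        (((m.factorial : ℂ))⁻¹ • ((s : ℂ) - 2) ^ m • iteratedDeriv m H 2).re := by
      funext m
      have e : (((m.factorial : ℂ))⁻¹ • ((s : ℂ) - 2) ^ m • iteratedDeriv m H 2) =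
          (((m.factorial : ℝ)⁻¹ * (2 - s) ^ m : ℝ) : ℂ) * ((-1) ^ m * iteratedDeriv m H 2) := by
        have e' : ((s : ℂ) - 2) ^ m = (-1) ^ m * (2 - (s : ℂ)) ^ m := by
          rw [← mul_pow]; congr 1; ring
        rw [smul_eq_mul, smul_eq_mul, e']
        push_cast
        ring
      rw [e, Complex.re_ofReal_mul, hr]
      simp only
      rw [div_eq_mul_inv]
      ring
    rw [hfun]
    exact h
  have hmain := swd2_real hB0 (t := 2 - s) (by linarith) (by linarith) hS hrle hr0 hr1 hM hBM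
  have e9 : (2 : ℝ) - s - 1 = 1 - s := by ring
  rw [e9] at hmain
  refine hmain.trans (le_of_eq ?_)
  have e10 : F s = H s + lam * ((s : ℂ) - 1)⁻¹ := by rw [hHF s hsne]; ring
  have e11 : ((s : ℂ) - 1)⁻¹ = (((s - 1)⁻¹ : ℝ) : ℂ) := by push_cast; ring
  show (H s).re - lam.re / (1 - s) = (F s).re
  rw [e10, e11, Complex.add_re, Complex.re_mul_ofReal]
  have e12 : (s - 1)⁻¹ = - (1 - s)⁻¹ := by
    rw [← inv_neg]; congr 1; ring
  rw [e12]
  ring

theorem estermann : ∃ C : ℝ, 1 ≤ C ∧ ∀ (N : ℕ) [NeZero N] (χ1 χ2 : DirichletCharacter ℂ N),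
    χ1 ^ 2 = 1 → χ2 ^ 2 = 1 → χ1 ≠ 1 → χ2 ≠ 1 → χ1 * χ2 ≠ 1 → ∀ s : ℝ, 7 / 8 < s → s < 1 →
    1 / 2 - C * (N : ℝ) ^ (C * (1 - s)) / (1 - s) * (((N.totient : ℝ) / N) *
        (DirichletCharacter.LFunction χ1 1 * DirichletCharacter.LFunction χ2 1 *
          DirichletCharacter.LFunction (χ1 * χ2) 1).re)
      ≤ (DirichletCharacter.LFunction (1 : DirichletCharacter ℂ N) s *
          DirichletCharacter.LFunction χ1 s * DirichletCharacter.LFunction χ2 s *
          DirichletCharacter.LFunction (χ1 * χ2) s).re := by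
  obtain ⟨C1, hC1, hL⟩ := LF_le
  obtain ⟨C0, hC0, hL0⟩ := LF1_le
  set K : ℝ := 2000 * C0 * C1 ^ 3 with hK
  have hC13 : (1 : ℝ) ≤ C1 ^ 3 := one_le_pow₀ hC1
  have hK1 : 2000 ≤ K := by
    have h := mul_le_mul hC0 hC13 zero_le_one (by linarith : (0 : ℝ) ≤ C0)
    rw [hK, mul_assoc]
    linarith
  have hEpos := Real.exp_pos (4 * Real.log (8 * K) + 1)
  refine ⟨16 + Real.exp (4 * Real.log (8 * K) + 1), by linarith, ?_⟩
  intro N _ χ1 χ2 h1 h2 n1 n2 n3 s hs1 hs2
  have hN1 : (1 : ℝ) ≤ (N : ℝ) := by exact_mod_cast NeZero.one_le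
  have hN4 : (1 : ℝ) ≤ (N : ℝ) ^ 4 := one_le_pow₀ hN1
  have hKN : 2000 ≤ K * (N : ℝ) ^ 4 := by nlinarith only [hK1, hN4]
  set Y : ℝ := 8 * (K * (N : ℝ) ^ 4) with hY
  have hY1 : 16000 ≤ Y := by rw [hY]; linarith
  have hY0 : 0 < Y := by linarith
  have hlogY : 0 < Real.log Y := Real.log_pos (by linarith)
  set M : ℕ := ⌈4 * Real.log Y⌉₊ with hMdef
  have hM0 : 4 * Real.log Y ≤ M := Nat.le_ceil _
  have hM2 : (M : ℝ) < 4 * Real.log Y + 1 := Nat.ceil_lt_add_one (by positivity)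
  have hM1 : 1 ≤ M := by
    rw [hMdef, Nat.one_le_ceil_iff]
    positivity
  have h43 : (1 : ℝ) / 4 ≤ Real.log (4 / 3) := by
    have h := Real.one_sub_inv_le_log_of_pos (show (0 : ℝ) < 4 / 3 by norm_num)
    norm_num at h ⊢
    linarith
  have hpow : Y ≤ (4 / 3 : ℝ) ^ M := by
    have e1 : (4 / 3 : ℝ) ^ M = Real.exp (M * Real.log (4 / 3)) := by
      rw [Real.exp_nat_mul, Real.exp_log (by norm_num)]
    have e2 : Real.log Y ≤ M * Real.log (4 / 3) := by nlinarith only [hM0, h43]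
    calc Y = Real.exp (Real.log Y) := (Real.exp_log hY0).symm
      _ ≤ Real.exp (M * Real.log (4 / 3)) := Real.exp_le_exp.mpr e2
      _ = _ := e1.symm
  have hBM : 2000 * C0 * C1 ^ 3 * (N : ℝ) ^ 4 * 4 * (3 / 4) ^ M ≤ 1 / 2 := by
    rw [← hK]
    have e1 : (3 / 4 : ℝ) ^ M * (4 / 3) ^ M = 1 := by rw [← mul_pow]; norm_num
    have e2 : 0 < (3 / 4 : ℝ) ^ M := by positivity
    have e3 : (3 / 4 : ℝ) ^ M * Y ≤ 1 := by
      rw [← e1]; exact mul_le_mul_of_nonneg_left hpow e2.le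
    rw [hY] at e3
    nlinarith only [e3]
  obtain ⟨hl0, hmain⟩ := swd2_core hC0 hC1 (hL N) (hL0 N) χ1 χ2 h1 h2 n1 n2 n3 hs1 hs2 hM1 hBM
  refine le_trans ?_ hmain
  set l : ℝ := (((N.totient : ℝ) / N) *
        (DirichletCharacter.LFunction χ1 1 * DirichletCharacter.LFunction χ2 1 *
          DirichletCharacter.LFunction (χ1 * χ2) 1).re) with hl
  have h1s : 0 < 1 - s := by linarith
  set C : ℝ := 16 + Real.exp (4 * Real.log (8 * K) + 1) with hC
  have hCbig : (2 - s) ^ M ≤ C * (N : ℝ) ^ (C * (1 - s)) := by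
    have e1 : (2 - s) ≤ Real.exp (1 - s) := by
      have := Real.add_one_le_exp (1 - s)
      linarith
    have e2 : (2 - s) ^ M ≤ Real.exp (M * (1 - s)) := by
      rw [Real.exp_nat_mul]
      exact pow_le_pow_left₀ (by linarith) e1 M
    have e3 : (M : ℝ) * (1 - s) ≤ (4 * Real.log (8 * K) + 1) + Real.log N * (16 * (1 - s)) := by
      have f1 : Real.log Y = Real.log (8 * K) + 4 * Real.log N := by
        rw [hY, ← mul_assoc, Real.log_mul (by positivity) (by positivity), Real.log_pow]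
        push_cast
        ring
      have f2 : 0 ≤ Real.log N := Real.log_nonneg hN1
      have f3 : 0 ≤ Real.log (8 * K) := Real.log_nonneg (by linarith)
      have f4 : (M : ℝ) * (1 - s) ≤ (4 * Real.log Y + 1) * (1 - s) :=
        mul_le_mul_of_nonneg_right hM2.le h1s.le
      rw [f1] at f4
      have f5 : (4 * Real.log (8 * K) + 1) * (1 - s) ≤ (4 * Real.log (8 * K) + 1) * 1 :=
        mul_le_mul_of_nonneg_left (by linarith only [hs1]) (by linarith)
      nlinarith only [f4, f5]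
    have e4 : Real.exp (M * (1 - s)) ≤
        Real.exp (4 * Real.log (8 * K) + 1) * (N : ℝ) ^ (16 * (1 - s)) := by
      rw [Real.rpow_def_of_pos (by linarith), ← Real.exp_add]
      exact Real.exp_le_exp.mpr e3
    have e5 : (N : ℝ) ^ (16 * (1 - s)) ≤ (N : ℝ) ^ (C * (1 - s)) := by
      apply Real.rpow_le_rpow_of_exponent_le hN1
      apply mul_le_mul_of_nonneg_right _ h1s.le
      linarith
    have e6 : 0 ≤ (N : ℝ) ^ (16 * (1 - s)) := by positivity
    calc (2 - s) ^ M ≤ Real.exp (4 * Real.log (8 * K) + 1) * (N : ℝ) ^ (16 * (1 - s)) :=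
          e2.trans e4
      _ ≤ C * (N : ℝ) ^ (C * (1 - s)) := by
          apply mul_le_mul _ e5 e6 (by linarith)
          linarith
  have e7 : l * ((2 - s) ^ M / (1 - s)) ≤ C * (N : ℝ) ^ (C * (1 - s)) / (1 - s) * l := by
    rw [mul_comm]
    apply mul_le_mul_of_nonneg_right _ hl0
    exact div_le_div_of_nonneg_right hCbig h1s.le
  linarith only [e7]

end Pool.Agent.H91.EHA

end
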