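import Mathlib

/-! The parts of this file: H37.PPC.Defs. -/

section

/-!
PROJECT PPC (MP_e38f6a_co): the number of orders `n ≤ x` of cyclic planar difference sets is
`O (x (log log x)^C / log x)`.  Common definitions.
-/

set_option autoImplicit false

namespace Pool.Agent.H37.PPC

open Finset

/-- primes in `[a, b)` -/
def pr (a b : ℕ) : Finset ℕ := (Ico a b).filter Nat.Prime

theorem mem_pr {a b p : ℕ} : p ∈ pr a b ↔ (a ≤ p ∧ p < b) ∧ p.Prime := by
  unfold pr
  rw [mem_filter, mem_Ico]

end Pool.Agent.H37.PPC

end
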