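import Pool.Agent.H15.TB1.M02

/-! The parts of this file: H91.EHA.Defs, H91.EHA.SwA. -/

section

/-!
# Project EHA: definitions

Elliott-Halberstam on average over short intervals of residue classes.
-/

set_option autoImplicit false

namespace Pool.Agent.H91.EHA

open Finset
open Pool.Agent.H91.PK

/-- The von Mangoldt function, as a real function on `ℕ`. -/
noncomputable def Lam (n : ℕ) : ℝ := ArithmeticFunction.vonMangoldt n

/-- `psi(y; q, a)`: the sum of `Lam n` over `1 ≤ n ≤ y`, `n ≡ a mod q`. -/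
noncomputable def psiA (y q a : ℕ) : ℝ :=
  ∑ n ∈ (Icc 1 y).filter (fun n => n ≡ a [MOD q]), Lam n

/-- The Ramanujan sum `c_c(n) = ∑_{d | (c, n)} d μ(c/d)` (for `n ≥ 1`). -/
noncomputable def ramS (c n : ℕ) : ℝ :=
  ∑ d ∈ (Nat.gcd c n).divisors, (d : ℝ) * (ArithmeticFunction.moebius (c / d) : ℝ)

/-- The truncated Ramanujan expansion of the von Mangoldt function:
`lamR R n = ∑_{c ≤ R} μ(c)/φ(c) c_c(n)`. -/
noncomputable def lamR (R n : ℕ) : ℝ :=
  ∑ c ∈ Icc 1 R, (ArithmeticFunction.moebius c : ℝ) / (c.totient : ℝ) * ramS c n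

/-- The function whose second moments are estimated. -/
noncomputable def hR (R n : ℕ) : ℝ := Lam n - lamR R n

/-- The Dirichlet series of `χ(n) (log n)^k`. -/
noncomputable def Lk (q : ℕ) (χ : DirichletCharacter ℂ q) (k : ℕ) (s : ℂ) : ℂ :=
  LSeries (fun n => ((Real.log n : ℝ) : ℂ) ^ k * χ (n : ZMod q)) s

/-- The Dirichlet series of `Λ(n) χ(n) (log n)^k`. -/
noncomputable def Fk (q : ℕ) (χ : DirichletCharacter ℂ q) (k : ℕ) (s : ℂ) : ℂ :=
  LSeries (fun n => ((Lam n * Real.log n ^ k : ℝ) : ℂ) * χ (n : ZMod q)) s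

/-- The smoothed error term in the progression `a mod q` (weight `om(n/N)`,
`om(t) = t (1-t)^2` on `[0,1]`, `0` outside). -/
noncomputable def Eom (N q a : ℕ) : ℝ :=
  (∑ n ∈ (Icc 1 N).filter (fun n => n ≡ a [MOD q]), Lam n * om ((n : ℝ) / N))
    - (1 / (q.totient : ℝ)) * ∑ n ∈ (Icc 1 N).filter (fun n => Nat.Coprime n q),
        Lam n * om ((n : ℝ) / N)

/-- Primes up to `x` in the class `a mod q`, minus the expected number. -/
noncomputable def err (x q : ℕ) (a : ZMod q) : ℝ :=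
  (((Finset.Icc 1 x).filter (fun p : ℕ => Nat.Prime p ∧ ((p : ZMod q) = a))).card : ℝ)
    - (Nat.primeCounting x : ℝ) / (Nat.totient q : ℝ)

end Pool.Agent.H91.EHA

end

section

/-!
# Upper bounds for `L(s,χ)` and its derivatives on `1 < Re s ≤ 2`, nonprincipal characters

Proof of `Lk_le`: put `M = q (|t| + 2)`.  Terms `n ≤ M`: `∑ (log n)^k / n ≤ (1 + log M)^(k+1)`
(and `1 + log M ≤ 2 log M` since `M ≥ 4`).  Terms `n > M`: partial summation with
`‖∑_{n ≤ u} χ(n)‖ ≤ q` (all complete periods vanish): at most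
`q ((log M)^k M^{-1} + |s| ∫_M^∞ ((log u)^k + k (log u)^(k-1)) u^{-2} du) ≤ C_k (log M)^k`,
because `q |s| / M ≤ 2`.  It may be convenient to use discrete Abel summation
`∑_{n > M} χ(n) g(n) = ∑_{n > M} S(n) (g(n) - g(n+1)) - ...` with `g(u) = (log u)^k u^{-s}`,
`|g'(u)| ≤ (|s| (log u)^k + k (log u)^(k-1)) u^{-2}`.
`Lk_hasDeriv`: Mathlib `LSeries_hasDerivAt` / `LSeries.logMul`.
-/

set_option autoImplicit false

namespace Pool.Agent.H91.EHA

open Finset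
open Pool.Agent.H91.PK

private theorem swA_fun_eq (q : ℕ) (χ : DirichletCharacter ℂ q) (k : ℕ) :
    (fun n : ℕ => ((Real.log n : ℝ) : ℂ) ^ k * χ (n : ZMod q))
      = LSeries.logMul^[k] (fun n : ℕ => χ (n : ZMod q)) := by
  induction k with
  | zero => funext n; simp
  | succ k ih =>
    rw [Function.iterate_succ_apply', ← ih]
    funext n
    simp only [LSeries.logMul]
    rw [pow_succ, Complex.natCast_log]
    ring

private theorem swA_absc (q : ℕ) (χ : DirichletCharacter ℂ q) (k : ℕ) (s : ℂ) (hs : 1 < s.re) :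
    LSeries.abscissaOfAbsConv (fun n : ℕ => ((Real.log n : ℝ) : ℂ) ^ k * χ (n : ZMod q)) < s.re := by
  rw [swA_fun_eq, LSeries.absicssaOfAbsConv_logPowMul]
  have h1 : LSeries.abscissaOfAbsConv (fun n : ℕ => χ (n : ZMod q)) ≤ (1 : ℝ) := by
    apply LSeries.abscissaOfAbsConv_le_of_forall_lt_LSeriesSummable
    intro y hy
    exact DirichletCharacter.LSeriesSummable_of_one_lt_re χ (by simpa using hy)
  refine lt_of_le_of_lt h1 ?_
  exact_mod_cast hs

theorem Lk_summable (q : ℕ) (χ : DirichletCharacter ℂ q) (k : ℕ) (s : ℂ) (hs : 1 < s.re) :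
    LSeriesSummable (fun n => ((Real.log n : ℝ) : ℂ) ^ k * χ (n : ZMod q)) s :=
  LSeriesSummable_of_abscissaOfAbsConv_lt_re (swA_absc q χ k s hs)

theorem Lk_hasDeriv (q : ℕ) (χ : DirichletCharacter ℂ q) (k : ℕ) (s : ℂ) (hs : 1 < s.re) :
    HasDerivAt (Lk q χ k) (-(Lk q χ (k + 1) s)) s := by
  have h1 := LSeries_hasDerivAt (swA_absc q χ k s hs)
  have h2 : LSeries.logMul (fun n : ℕ => ((Real.log n : ℝ) : ℂ) ^ k * χ (n : ZMod q))
      = fun n : ℕ => ((Real.log n : ℝ) : ℂ) ^ (k + 1) * χ (n : ZMod q) := by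
    funext n
    simp only [LSeries.logMul]
    rw [pow_succ, Complex.natCast_log]
    ring
  rw [h2] at h1
  exact h1

theorem Lk_zero_eq (q : ℕ) [NeZero q] (χ : DirichletCharacter ℂ q) (s : ℂ) (hs : 1 < s.re) :
    Lk q χ 0 s = DirichletCharacter.LFunction χ s := by
  rw [DirichletCharacter.LFunction_eq_LSeries χ hs, Lk]
  congr 1
  funext n
  simp

/-! ### Character sums over a full period -/

private theorem swA_period {r : ℕ} (hr : 0 < r) (χ : DirichletCharacter ℂ r) (hχ : χ ≠ 1) (B : ℕ) :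
    ∑ b ∈ Ico B (B + r), χ (b : ZMod r) = 0 := by
  have : NeZero r := ⟨hr.ne'⟩
  induction B with
  | zero =>
    obtain ⟨n, rfl⟩ : ∃ n, r = n + 1 := ⟨r - 1, by omega⟩
    have h1 : ∑ x : ZMod (n + 1), χ x = 0 := MulChar.sum_eq_zero_of_ne_one hχ
    have h2 : ∑ b ∈ range (n + 1), χ ((b : ℕ) : ZMod (n + 1)) = ∑ x : Fin (n + 1), χ (((x : ℕ) : ZMod (n + 1))) :=
      Finset.sum_range (fun b : ℕ => χ (b : ZMod (n + 1)))
    have h3 : ∑ x : Fin (n + 1), χ (((x : ℕ) : ZMod (n + 1))) = ∑ x : ZMod (n + 1), χ x := by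
      apply Finset.sum_congr rfl
      intro x _
      congr 1
      exact Fin.cast_val_eq_self x
    have h4 : Ico 0 (0 + (n + 1)) = range (n + 1) := by
      rw [zero_add, Finset.range_eq_Ico]
    rw [h4, h2, h3, h1]
  | succ B ih =>
    have h1 : ∑ b ∈ Ico B (B + r + 1), χ (b : ZMod r)
        = ∑ b ∈ Ico B (B + r), χ (b : ZMod r) + χ ((B + r : ℕ) : ZMod r) :=
      Finset.sum_Ico_succ_top (by omega) _
    have h2 : ∑ b ∈ Ico B (B + r + 1), χ (b : ZMod r)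
        = χ (B : ZMod r) + ∑ b ∈ Ico (B + 1) (B + r + 1), χ (b : ZMod r) :=
      Finset.sum_eq_sum_Ico_succ_bot (by omega) _
    have h3 : ((B + r : ℕ) : ZMod r) = (B : ZMod r) := by
      push_cast
      simp
    rw [h3, ih] at h1
    rw [h1] at h2
    have h4 : B + 1 + r = B + r + 1 := by omega
    rw [h4]
    have h5 : (0 : ℂ) + χ (B : ZMod r) = χ (B : ZMod r) + 0 := by ring
    rw [h5] at h2
    exact (add_left_cancel h2).symm

private theorem swA_char_partial {r : ℕ} (hr : 0 < r) (χ : DirichletCharacter ℂ r) (hχ : χ ≠ 1)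
    (B : ℕ) : ‖∑ b ∈ Icc 1 B, χ (b : ZMod r)‖ ≤ r := by
  induction B using Nat.strong_induction_on with
  | _ B ih =>
    by_cases hB : B < r
    · calc ‖∑ b ∈ Icc 1 B, χ (b : ZMod r)‖ ≤ ∑ b ∈ Icc 1 B, ‖χ (b : ZMod r)‖ := norm_sum_le _ _
        _ ≤ ∑ b ∈ Icc 1 B, (1 : ℝ) := Finset.sum_le_sum fun b _ => DirichletCharacter.norm_le_one χ _
        _ = B := by simp
        _ ≤ r := by exact_mod_cast hB.le
    · push Not at hB
      have h1 := ih (B - r) (by omega)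
      have h2 : ∑ b ∈ Icc 1 B, χ (b : ZMod r) = ∑ b ∈ Icc 1 (B - r), χ (b : ZMod r)
          + ∑ b ∈ Ico (B - r + 1) (B - r + 1 + r), χ (b : ZMod r) := by
        have e1 : Icc 1 B = Ico 1 (B + 1) := by ext x; rw [mem_Icc, mem_Ico]; omega
        have e2 : Icc 1 (B - r) = Ico 1 (B - r + 1) := by ext x; rw [mem_Icc, mem_Ico]; omega
        have e3 : B - r + 1 + r = B + 1 := by omega
        rw [e1, e2, e3]
        exact (Finset.sum_Ico_consecutive _ (by omega) (by omega)).symm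
      rw [h2, swA_period hr χ hχ, add_zero]
      exact h1

/-! ### Summation by parts -/

private theorem swA_abel_eq (f g : ℕ → ℂ) (a b : ℕ) (hab : a + 1 ≤ b) :
    ∑ j ∈ Ioc a b, f j * g j = (∑ j ∈ Icc 1 b, f j) * g b - (∑ j ∈ Icc 1 a, f j) * g (a + 1)
      + ∑ j ∈ Ico (a + 1) b, (∑ i ∈ Icc 1 j, f i) * (g j - g (j + 1)) := by
  induction b, hab using Nat.le_induction with
  | base =>
    rw [Finset.sum_Icc_succ_top (by omega), Finset.Ico_self, Finset.sum_empty]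
    have : Ioc a (a + 1) = {a + 1} := by ext x; simp only [mem_Ioc, mem_singleton]; omega
    rw [this, Finset.sum_singleton]
    ring
  | succ b hb ih =>
    have e1 : Ioc a (b + 1) = insert (b + 1) (Ioc a b) := by
      ext x; simp only [mem_Ioc, mem_insert]; omega
    have e2 : b + 1 ∉ Ioc a b := by simp
    rw [e1, Finset.sum_insert e2, ih, Finset.sum_Ico_succ_top hb,
      Finset.sum_Icc_succ_top (by omega : 1 ≤ b + 1)]
    ring

private theorem swA_abel (f g : ℕ → ℂ) (a b : ℕ) (hab : a + 1 ≤ b) (ρ : ℝ)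
    (hf : ∀ B : ℕ, ‖∑ j ∈ Icc 1 B, f j‖ ≤ ρ) :
    ‖∑ j ∈ Ioc a b, f j * g j‖ ≤ ρ * (‖g b‖ + ‖g (a + 1)‖ +
      ∑ j ∈ Ico (a + 1) b, ‖g j - g (j + 1)‖) := by
  rw [swA_abel_eq f g a b hab]
  calc ‖(∑ j ∈ Icc 1 b, f j) * g b - (∑ j ∈ Icc 1 a, f j) * g (a + 1)
      + ∑ j ∈ Ico (a + 1) b, (∑ i ∈ Icc 1 j, f i) * (g j - g (j + 1))‖
      ≤ ‖(∑ j ∈ Icc 1 b, f j) * g b - (∑ j ∈ Icc 1 a, f j) * g (a + 1)‖
        + ‖∑ j ∈ Ico (a + 1) b, (∑ i ∈ Icc 1 j, f i) * (g j - g (j + 1))‖ := norm_add_le _ _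
    _ ≤ (‖(∑ j ∈ Icc 1 b, f j) * g b‖ + ‖(∑ j ∈ Icc 1 a, f j) * g (a + 1)‖)
        + ∑ j ∈ Ico (a + 1) b, ‖(∑ i ∈ Icc 1 j, f i) * (g j - g (j + 1))‖ :=
        add_le_add (norm_sub_le _ _) (norm_sum_le _ _)
    _ ≤ (ρ * ‖g b‖ + ρ * ‖g (a + 1)‖) + ∑ j ∈ Ico (a + 1) b, ρ * ‖g j - g (j + 1)‖ := by
        simp only [norm_mul]
        refine add_le_add (add_le_add ?_ ?_) (Finset.sum_le_sum fun j _ => ?_)
        · exact mul_le_mul_of_nonneg_right (hf _) (norm_nonneg _)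
        · exact mul_le_mul_of_nonneg_right (hf _) (norm_nonneg _)
        · exact mul_le_mul_of_nonneg_right (hf _) (norm_nonneg _)
    _ = _ := by rw [← Finset.mul_sum]; ring

/-! ### Growth of powers of the logarithm -/

private theorem swA_log_pow (k : ℕ) : ∃ A : ℝ, 1 ≤ A ∧ ∀ Y u : ℝ, 3 ≤ Y → Y ≤ u →
    Real.log u ^ k ≤ A * Real.log Y ^ k * Real.sqrt (u / Y) := by
  refine ⟨(1 + 2 * ((k : ℝ) + 1)) ^ k, ?_, ?_⟩
  · apply one_le_pow₀
    have : (0 : ℝ) ≤ k := Nat.cast_nonneg k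
    linarith only []
  · intro Y u hY hu
    have hY0 : 0 < Y := by linarith only [hY]
    have hu0 : 0 < u := by linarith only [hY, hu]
    have hlY : 1 ≤ Real.log Y := by
      rw [Real.le_log_iff_exp_le hY0]
      have := Real.exp_one_lt_d9
      linarith only [hY, this]
    set y : ℝ := u / Y with hy
    have hy1 : 1 ≤ y := by rw [hy, le_div_iff₀ hY0]; linarith only [hu]
    have hy0 : 0 < y := by linarith only [hy1]
    have hly : 0 ≤ Real.log y := Real.log_nonneg hy1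
    have hk0 : (0 : ℝ) ≤ k := Nat.cast_nonneg k
    have h1 : Real.log u ≤ Real.log Y * (1 + Real.log y) := by
      have : u = Y * y := by rw [hy]; field_simp
      rw [this, Real.log_mul hY0.ne' hy0.ne']
      nlinarith only [hlY, hly]
    have hlu : 0 ≤ Real.log u := Real.log_nonneg (by linarith only [hY, hu])
    set ε : ℝ := 1 / (2 * ((k : ℝ) + 1)) with hε
    have hε0 : 0 < ε := by rw [hε]; positivity
    have h2 : Real.log y ≤ y ^ ε / ε := Real.log_le_rpow_div hy0.le hε0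
    have h3 : 1 ≤ y ^ ε := Real.one_le_rpow hy1 hε0.le
    have h4 : 1 + Real.log y ≤ (1 + 2 * ((k : ℝ) + 1)) * y ^ ε := by
      have e : y ^ ε / ε = 2 * ((k : ℝ) + 1) * y ^ ε := by
        rw [hε]; field_simp
      rw [e] at h2
      linarith only [h2, h3]
    have h5 : (y ^ ε) ^ k ≤ Real.sqrt y := by
      rw [Real.sqrt_eq_rpow, ← Real.rpow_natCast, ← Real.rpow_mul hy0.le]
      apply Real.rpow_le_rpow_of_exponent_le hy1
      rw [hε, div_mul_eq_mul_div, one_mul, div_le_div_iff₀ (by positivity) (by norm_num)]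
      linarith only []
    calc Real.log u ^ k ≤ (Real.log Y * (1 + Real.log y)) ^ k := pow_le_pow_left₀ hlu h1 k
      _ = Real.log Y ^ k * (1 + Real.log y) ^ k := mul_pow _ _ _
      _ ≤ Real.log Y ^ k * ((1 + 2 * ((k : ℝ) + 1)) * y ^ ε) ^ k := by
          apply mul_le_mul_of_nonneg_left _ (by positivity)
          exact pow_le_pow_left₀ (by linarith only [hly]) h4 k
      _ = Real.log Y ^ k * (1 + 2 * ((k : ℝ) + 1)) ^ k * (y ^ ε) ^ k := by rw [mul_pow]; ring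
      _ ≤ Real.log Y ^ k * (1 + 2 * ((k : ℝ) + 1)) ^ k * Real.sqrt y := by
          apply mul_le_mul_of_nonneg_left h5
          positivity
      _ = _ := by ring

/-! ### The weight -/

private noncomputable def swA_g (k : ℕ) (s : ℂ) (u : ℝ) : ℂ :=
  ((Real.log u : ℝ) : ℂ) ^ k * (u : ℂ) ^ (-s)

private theorem swA_norm_cpow {u : ℝ} (hu : 1 ≤ u) {s : ℂ} (hs : 1 < s.re) (j : ℕ) :
    ‖(u : ℂ) ^ (-s - j)‖ ≤ 1 / u ^ (j + 1) := by
  have hu0 : 0 < u := by linarith only [hu]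
  rw [Complex.norm_cpow_eq_rpow_re_of_pos hu0]
  have h1 : (-s - (j : ℂ)).re ≤ -((j + 1 : ℕ) : ℝ) := by
    simp only [Complex.sub_re, Complex.neg_re, Complex.natCast_re]
    push_cast
    linarith only [hs]
  calc u ^ (-s - (j : ℂ)).re ≤ u ^ (-((j + 1 : ℕ) : ℝ)) :=
        Real.rpow_le_rpow_of_exponent_le hu h1
    _ = 1 / u ^ (j + 1) := by
        rw [Real.rpow_neg hu0.le, Real.rpow_natCast, one_div]

private theorem swA_g_norm (k : ℕ) {s : ℂ} (hs : 1 < s.re) {u : ℝ} (hu : 1 ≤ u) :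
    ‖swA_g k s u‖ ≤ Real.log u ^ k / u := by
  have h1 := swA_norm_cpow hu hs 0
  simp only [Nat.cast_zero, sub_zero, zero_add, pow_one] at h1
  have h2 : 0 ≤ Real.log u := Real.log_nonneg hu
  rw [swA_g, norm_mul, norm_pow, Complex.norm_real, Real.norm_eq_abs, abs_of_nonneg h2]
  calc Real.log u ^ k * ‖(u : ℂ) ^ (-s)‖ ≤ Real.log u ^ k * (1 / u) :=
        mul_le_mul_of_nonneg_left h1 (by positivity)
    _ = _ := by ring

private theorem swA_g_deriv (k : ℕ) {s : ℂ} (hs : 1 < s.re) {u : ℝ} (hu : 0 < u) :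
    HasDerivAt (swA_g k s)
      ((k : ℂ) * ((Real.log u : ℝ) : ℂ) ^ (k - 1) * ((u⁻¹ : ℝ) : ℂ) * (u : ℂ) ^ (-s)
        + ((Real.log u : ℝ) : ℂ) ^ k * (-s * (u : ℂ) ^ (-s - 1))) u := by
  have h1 : HasDerivAt (fun v : ℝ => ((Real.log v : ℝ) : ℂ)) ((u⁻¹ : ℝ) : ℂ) u :=
    (Real.hasDerivAt_log hu.ne').ofReal_comp
  have h2 := h1.pow k
  have hs0 : (-s : ℂ) ≠ 0 := by
    intro h
    have : s = 0 := by simpa using h
    rw [this] at hs
    simp at hs
    linarith only [hs]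
  have h3 := hasDerivAt_ofReal_cpow_const hu.ne' hs0
  exact h2.mul h3

private theorem swA_g_diff (k : ℕ) {s : ℂ} (hs : 1 < s.re) (n : ℕ) (hn : 3 ≤ n) :
    ‖swA_g k s n - swA_g k s ((n + 1 : ℕ) : ℝ)‖
      ≤ (‖s‖ + k) * Real.log ((n + 1 : ℕ) : ℝ) ^ k / (n : ℝ) ^ 2 := by
  have hn3 : (3 : ℝ) ≤ n := by exact_mod_cast hn
  have hn0 : (0 : ℝ) < n := by linarith only [hn3]
  set L : ℝ := Real.log ((n + 1 : ℕ) : ℝ) with hL
  have hbound : ∀ u ∈ Set.Ico (n : ℝ) ((n + 1 : ℕ) : ℝ),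
      ‖(k : ℂ) * ((Real.log u : ℝ) : ℂ) ^ (k - 1) * ((u⁻¹ : ℝ) : ℂ) * (u : ℂ) ^ (-s)
        + ((Real.log u : ℝ) : ℂ) ^ k * (-s * (u : ℂ) ^ (-s - 1))‖
        ≤ (‖s‖ + k) * L ^ k / (n : ℝ) ^ 2 := by
    intro u hu
    have hu1 : (n : ℝ) ≤ u := hu.1
    have hu2 : u < ((n + 1 : ℕ) : ℝ) := hu.2
    have hu3 : (1 : ℝ) ≤ u := by linarith only [hn3, hu1]
    have hu0 : 0 < u := by linarith only [hn3, hu1]
    have hl1 : 1 ≤ Real.log u := by
      rw [Real.le_log_iff_exp_le hu0]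
      have := Real.exp_one_lt_d9
      linarith only [hn3, hu1, this]
    have hl2 : Real.log u ≤ L := Real.log_le_log hu0 hu2.le
    have hc0 := swA_norm_cpow hu3 hs 0
    have hc1 := swA_norm_cpow hu3 hs 1
    simp only [Nat.cast_zero, sub_zero, zero_add, pow_one] at hc0
    simp only [Nat.cast_one] at hc1
    have hlk : Real.log u ^ k ≤ L ^ k := pow_le_pow_left₀ (by linarith only [hl1]) hl2 k
    have hlk1 : Real.log u ^ (k - 1) ≤ L ^ k :=
      le_trans (pow_le_pow_right₀ hl1 (Nat.sub_le k 1)) hlk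
    have hL0 : 0 ≤ L ^ k := le_trans (by positivity) hlk
    have hu2n : 1 / u ^ 2 ≤ 1 / (n : ℝ) ^ 2 := by
      apply one_div_le_one_div_of_le (by positivity)
      exact pow_le_pow_left₀ hn0.le hu1 2
    have hA : ‖(k : ℂ) * ((Real.log u : ℝ) : ℂ) ^ (k - 1) * ((u⁻¹ : ℝ) : ℂ) * (u : ℂ) ^ (-s)‖
        ≤ k * L ^ k * (1 / (n : ℝ) ^ 2) := by
      rw [norm_mul, norm_mul, norm_mul, norm_pow, Complex.norm_real, Complex.norm_real,
        Real.norm_eq_abs, Real.norm_eq_abs, abs_of_nonneg (by linarith only [hl1] : 0 ≤ Real.log u),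
        abs_of_nonneg (inv_nonneg.2 hu0.le), Complex.norm_natCast]
      calc (k : ℝ) * Real.log u ^ (k - 1) * u⁻¹ * ‖(u : ℂ) ^ (-s)‖
          ≤ (k : ℝ) * L ^ k * u⁻¹ * (1 / u) := by
            apply mul_le_mul _ hc0 (norm_nonneg _) (by positivity)
            apply mul_le_mul_of_nonneg_right _ (inv_nonneg.2 hu0.le)
            exact mul_le_mul_of_nonneg_left hlk1 (Nat.cast_nonneg k)
        _ = (k : ℝ) * L ^ k * (1 / u ^ 2) := by field_simp
        _ ≤ _ := mul_le_mul_of_nonneg_left hu2n (by positivity)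
    have hB : ‖((Real.log u : ℝ) : ℂ) ^ k * (-s * (u : ℂ) ^ (-s - 1))‖
        ≤ ‖s‖ * L ^ k * (1 / (n : ℝ) ^ 2) := by
      rw [norm_mul, norm_mul, norm_neg, norm_pow, Complex.norm_real, Real.norm_eq_abs,
        abs_of_nonneg (by linarith only [hl1] : 0 ≤ Real.log u)]
      calc Real.log u ^ k * (‖s‖ * ‖(u : ℂ) ^ (-s - 1)‖)
          ≤ L ^ k * (‖s‖ * (1 / u ^ (1 + 1))) := by
            apply mul_le_mul hlk _ (by positivity) hL0
            exact mul_le_mul_of_nonneg_left hc1 (norm_nonneg _)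
        _ = ‖s‖ * L ^ k * (1 / u ^ 2) := by ring
        _ ≤ _ := mul_le_mul_of_nonneg_left hu2n (by positivity)
    calc _ ≤ _ + _ := norm_add_le _ _
      _ ≤ k * L ^ k * (1 / (n : ℝ) ^ 2) + ‖s‖ * L ^ k * (1 / (n : ℝ) ^ 2) := add_le_add hA hB
      _ = _ := by ring
  have hmv := norm_image_sub_le_of_norm_deriv_le_segment' (f := swA_g k s)
    (a := (n : ℝ)) (b := ((n + 1 : ℕ) : ℝ))
    (fun u hu => (swA_g_deriv k hs (lt_of_lt_of_le hn0 hu.1)).hasDerivWithinAt) hbound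
    ((n + 1 : ℕ) : ℝ) (by
      constructor
      · push_cast; linarith only []
      · exact le_refl _)
  rw [norm_sub_rev]
  refine le_trans hmv (le_of_eq ?_)
  push_cast
  ring

private theorem swA_tele (j : ℕ) (hj : 2 ≤ j) :
    Real.sqrt ((j : ℝ) + 1) / (j : ℝ) ^ 2
      ≤ 4 * (1 / Real.sqrt ((j : ℝ) - 1) - 1 / Real.sqrt (j : ℝ)) := by
  have hj2 : (2 : ℝ) ≤ j := by exact_mod_cast hj
  set a := Real.sqrt ((j : ℝ) - 1) with ha
  set b := Real.sqrt (j : ℝ) with hb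
  set c := Real.sqrt ((j : ℝ) + 1) with hc
  have ha2 : a ^ 2 = (j : ℝ) - 1 := Real.sq_sqrt (by linarith only [hj2])
  have hb2 : b ^ 2 = (j : ℝ) := Real.sq_sqrt (by linarith only [])
  have hc2 : c ^ 2 = (j : ℝ) + 1 := Real.sq_sqrt (by linarith only [])
  have ha0 : 0 < a := Real.sqrt_pos.2 (by linarith only [hj2])
  have hb0 : 0 < b := Real.sqrt_pos.2 (by linarith only [hj2])
  have hc0 : 0 < c := Real.sqrt_pos.2 (by linarith only [])
  have hab : a ≤ b := Real.sqrt_le_sqrt (by linarith only [])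
  have hcb : c ≤ 2 * b := by
    nlinarith only [hj2, hb2, hc2, hb0]
  have hj4 : (j : ℝ) ^ 2 = b ^ 4 := by rw [← hb2]; ring
  have hsum : (b - a) * (b + a) = 1 := by linarith only [ha2, hb2]
  have h1 : 1 / a - 1 / b = 1 / (a * b * (a + b)) := by
    field_simp
    linarith only [ha2, hb2]
  rw [h1, hj4]
  have h2 : 1 / (2 * b ^ 3) ≤ 1 / (a * b * (a + b)) := by
    apply one_div_le_one_div_of_le (by positivity)
    have e1 : a * b ≤ b * b := mul_le_mul_of_nonneg_right hab hb0.le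
    calc a * b * (a + b) ≤ (b * b) * (b + b) := by
          apply mul_le_mul e1 (by linarith only [hab]) (by positivity) (by positivity)
      _ = 2 * b ^ 3 := by ring
  calc c / b ^ 4 ≤ 2 * b / b ^ 4 := by
        apply div_le_div_of_nonneg_right hcb (by positivity)
    _ = 4 * (1 / (2 * b ^ 3)) := by field_simp; ring
    _ ≤ _ := by linarith only [h2]

private theorem swA_tele_sum (a b : ℕ) (ha : 1 ≤ a) (hab : a + 1 ≤ b) :
    ∑ j ∈ Ico (a + 1) b, Real.sqrt ((j : ℝ) + 1) / (j : ℝ) ^ 2 ≤ 4 / Real.sqrt (a : ℝ) := by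
  have h1 : ∀ b : ℕ, a + 1 ≤ b → ∑ j ∈ Ico (a + 1) b, Real.sqrt ((j : ℝ) + 1) / (j : ℝ) ^ 2
      ≤ 4 * (1 / Real.sqrt (a : ℝ) - 1 / Real.sqrt ((b : ℝ) - 1)) := by
    intro b hb
    induction b, hb using Nat.le_induction with
    | base => simp
    | succ b hb ih =>
      rw [Finset.sum_Ico_succ_top hb]
      have h2 := swA_tele b (by omega)
      have h3 : ((b + 1 : ℕ) : ℝ) - 1 = b := by push_cast; ring
      rw [h3]
      linarith only [ih, h2]
  have h2 := h1 b hab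
  have h3 : 0 ≤ 1 / Real.sqrt ((b : ℝ) - 1) := by positivity
  have h4 : 4 / Real.sqrt (a : ℝ) = 4 * (1 / Real.sqrt (a : ℝ)) := by ring
  rw [h4]
  linarith only [h2, h3]

private theorem swA_small (Y u : ℝ) (hY : 3 ≤ Y) (hu : Y ≤ u) :
    Real.sqrt (u / Y) / u ≤ 1 / Y := by
  have hY0 : 0 < Y := by linarith only [hY]
  have hu0 : 0 < u := by linarith only [hY, hu]
  have h1 : 1 ≤ u / Y := by rw [le_div_iff₀ hY0]; linarith only [hu]
  have h2 : Real.sqrt (u / Y) ≤ u / Y := by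
    rw [Real.sqrt_le_left (by linarith only [h1])]
    nlinarith only [h1]
  calc Real.sqrt (u / Y) / u ≤ (u / Y) / u := div_le_div_of_nonneg_right h2 hu0.le
    _ = 1 / Y := by field_simp

private theorem swA_tail (k : ℕ) : ∃ C : ℝ, 0 < C ∧ ∀ q : ℕ, 2 ≤ q →
    ∀ χ : DirichletCharacter ℂ q, χ ≠ 1 → ∀ s : ℂ, 1 < s.re → s.re ≤ 2 → ∀ N : ℕ,
      ‖∑ n ∈ Ioc ⌊(q : ℝ) * (|s.im| + 2)⌋₊ N, χ (n : ZMod q) * swA_g k s (n : ℝ)‖
        ≤ C * Real.log (q * (|s.im| + 2)) ^ k := by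
  obtain ⟨A, hA1, hA⟩ := swA_log_pow k
  refine ⟨A * (9 + 4 * k), by positivity, ?_⟩
  intro q hq χ hχ s hs hs2 N
  have hq2 : (2 : ℝ) ≤ q := by exact_mod_cast hq
  have hq0 : (0 : ℝ) < q := by linarith only [hq2]
  have ht := abs_nonneg s.im
  set Y : ℝ := (q : ℝ) * (|s.im| + 2) with hYdef
  have hY4 : 4 ≤ Y := by rw [hYdef]; nlinarith only [hq2, ht]
  have hY0 : 0 < Y := by linarith only [hY4]
  set M : ℕ := ⌊Y⌋₊ with hM
  have hM1 : (M : ℝ) ≤ Y := Nat.floor_le hY0.le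
  have hM2 : Y < (M : ℝ) + 1 := Nat.lt_floor_add_one Y
  have hM4 : 4 ≤ M := by
    rw [hM]; exact Nat.le_floor (by exact_mod_cast hY4)
  have hlY : 0 ≤ Real.log Y ^ k := by
    have := Real.log_nonneg (by linarith only [hY4] : 1 ≤ Y)
    positivity
  have hk0 : (0 : ℝ) ≤ k := Nat.cast_nonneg k
  by_cases hN : M + 1 ≤ N
  swap
  · have : Ioc M N = ∅ := by
      rw [Finset.Ioc_eq_empty_iff]; omega
    rw [this, Finset.sum_empty, norm_zero]
    positivity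
  have hab := swA_abel (fun n : ℕ => χ (n : ZMod q)) (fun n : ℕ => swA_g k s (n : ℝ)) M N hN q
    (fun B => swA_char_partial (by omega) χ hχ B)
  refine le_trans hab ?_
  have hg : ∀ n : ℕ, M + 1 ≤ n → ‖swA_g k s (n : ℝ)‖ ≤ A * Real.log Y ^ k * (1 / Y) := by
    intro n hn
    have hn1 : ((M : ℝ) + 1) ≤ n := by exact_mod_cast hn
    have hYn : Y ≤ n := by linarith only [hM2, hn1]
    have hn0 : (0 : ℝ) < n := by linarith only [hn1]
    calc ‖swA_g k s (n : ℝ)‖ ≤ Real.log n ^ k / n := swA_g_norm k hs (by linarith only [hn1])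
      _ ≤ A * Real.log Y ^ k * Real.sqrt ((n : ℝ) / Y) / n :=
          div_le_div_of_nonneg_right (hA Y n (by linarith only [hY4]) hYn) hn0.le
      _ = A * Real.log Y ^ k * (Real.sqrt ((n : ℝ) / Y) / n) := by ring
      _ ≤ _ := mul_le_mul_of_nonneg_left (swA_small Y n (by linarith only [hY4]) hYn) (by positivity)
  have hsn : ‖s‖ ≤ |s.im| + 2 := by
    have := Complex.norm_le_abs_re_add_abs_im s
    rw [abs_of_pos (by linarith only [hs] : 0 < s.re)] at this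
    linarith only [hs2, this]
  have hd : ∑ j ∈ Ico (M + 1) N, ‖swA_g k s (j : ℝ) - swA_g k s ((j + 1 : ℕ) : ℝ)‖
      ≤ (‖s‖ + k) * (A * Real.log Y ^ k) * (8 / Y) := by
    have hterm : ∀ j ∈ Ico (M + 1) N, ‖swA_g k s (j : ℝ) - swA_g k s ((j + 1 : ℕ) : ℝ)‖
        ≤ (‖s‖ + k) * (A * Real.log Y ^ k) / Real.sqrt Y *
          (Real.sqrt ((j : ℝ) + 1) / (j : ℝ) ^ 2) := by
      intro j hj
      rw [mem_Ico] at hj
      have hj1 : ((M : ℝ) + 1) ≤ j := by exact_mod_cast hj.1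
      have hj0 : (0 : ℝ) < j := by linarith only [hj1]
      have hYj : Y ≤ ((j + 1 : ℕ) : ℝ) := by push_cast; linarith only [hM2, hj1]
      have h1 := swA_g_diff k hs j (by omega)
      have h2 := hA Y ((j + 1 : ℕ) : ℝ) (by linarith only [hY4]) hYj
      have h3 : Real.sqrt (((j + 1 : ℕ) : ℝ) / Y) = Real.sqrt ((j : ℝ) + 1) / Real.sqrt Y := by
        rw [Real.sqrt_div (by positivity)]
        push_cast
        rfl
      rw [h3] at h2
      refine le_trans h1 ?_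
      calc (‖s‖ + k) * Real.log ((j + 1 : ℕ) : ℝ) ^ k / (j : ℝ) ^ 2
          ≤ (‖s‖ + k) * (A * Real.log Y ^ k * (Real.sqrt ((j : ℝ) + 1) / Real.sqrt Y))
              / (j : ℝ) ^ 2 := by
            apply div_le_div_of_nonneg_right _ (by positivity)
            exact mul_le_mul_of_nonneg_left h2 (by positivity)
        _ = _ := by
            have : Real.sqrt Y ≠ 0 := (Real.sqrt_pos.2 hY0).ne'
            field_simp
    refine le_trans (Finset.sum_le_sum hterm) ?_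
    rw [← Finset.mul_sum]
    have h1 := swA_tele_sum M N (by omega) hN
    have hMr : (4 : ℝ) ≤ M := by exact_mod_cast hM4
    have hMY : Y / 2 ≤ M := by linarith only [hY4, hM2]
    have hsM : Real.sqrt Y / 2 ≤ Real.sqrt M := by
      apply Real.le_sqrt_of_sq_le
      rw [div_pow, Real.sq_sqrt hY0.le]
      linarith only [hY4, hM2]
    have hsY : 0 < Real.sqrt Y := Real.sqrt_pos.2 hY0
    have h2 : 4 / Real.sqrt (M : ℝ) ≤ 8 / Real.sqrt Y := by
      rw [div_le_div_iff₀ (Real.sqrt_pos.2 (by linarith only [hY4, hM2])) hsY]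
      linarith only [hsM]
    calc (‖s‖ + k) * (A * Real.log Y ^ k) / Real.sqrt Y *
          ∑ i ∈ Ico (M + 1) N, Real.sqrt ((i : ℝ) + 1) / (i : ℝ) ^ 2
        ≤ (‖s‖ + k) * (A * Real.log Y ^ k) / Real.sqrt Y * (8 / Real.sqrt Y) := by
          apply mul_le_mul_of_nonneg_left (le_trans h1 h2)
          positivity
      _ = (‖s‖ + k) * (A * Real.log Y ^ k) * (8 / (Real.sqrt Y * Real.sqrt Y)) := by
          field_simp
      _ = _ := by rw [Real.mul_self_sqrt hY0.le]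
  have hqY : (q : ℝ) / Y ≤ 1 / 2 := by
    rw [div_le_div_iff₀ hY0 (by norm_num), hYdef]
    nlinarith only [ht]
  have hqs : (q : ℝ) * ‖s‖ / Y ≤ 1 := by
    rw [div_le_one hY0, hYdef]
    exact mul_le_mul_of_nonneg_left hsn hq0.le
  calc (q : ℝ) * (‖swA_g k s (N : ℝ)‖ + ‖swA_g k s ((M + 1 : ℕ) : ℝ)‖ +
        ∑ j ∈ Ico (M + 1) N, ‖swA_g k s (j : ℝ) - swA_g k s ((j + 1 : ℕ) : ℝ)‖)
      ≤ (q : ℝ) * (A * Real.log Y ^ k * (1 / Y) + A * Real.log Y ^ k * (1 / Y) +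
          (‖s‖ + k) * (A * Real.log Y ^ k) * (8 / Y)) := by
        apply mul_le_mul_of_nonneg_left _ hq0.le
        exact add_le_add (add_le_add (hg N hN) (hg (M + 1) le_rfl)) hd
    _ = A * Real.log Y ^ k * (2 * (q / Y) + 8 * (q * ‖s‖ / Y) + 8 * k * (q / Y)) := by ring
    _ ≤ A * Real.log Y ^ k * (2 * (1 / 2) + 8 * 1 + 8 * k * (1 / 2)) := by
        apply mul_le_mul_of_nonneg_left _ (by positivity)
        have := mul_le_mul_of_nonneg_left hqY (by positivity : (0 : ℝ) ≤ 8 * k)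
        linarith only [hqY, hqs, this]
    _ = _ := by ring

private theorem swA_head (k : ℕ) (q : ℕ) (χ : DirichletCharacter ℂ q) (s : ℂ) (hs : 1 < s.re)
    (Y : ℝ) (hY : 4 ≤ Y) :
    ‖∑ n ∈ Icc 1 ⌊Y⌋₊, χ (n : ZMod q) * swA_g k s (n : ℝ)‖ ≤ 2 * Real.log Y ^ (k + 1) := by
  have hY0 : 0 < Y := by linarith only [hY]
  have hM1 : ((⌊Y⌋₊ : ℕ) : ℝ) ≤ Y := Nat.floor_le hY0.le
  have hM4 : 4 ≤ ⌊Y⌋₊ := Nat.le_floor (by exact_mod_cast hY)
  have hlY : 1 ≤ Real.log Y := by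
    rw [Real.le_log_iff_exp_le hY0]
    have := Real.exp_one_lt_d9
    linarith only [hY, this]
  have hterm : ∀ n ∈ Icc 1 ⌊Y⌋₊, ‖χ (n : ZMod q) * swA_g k s (n : ℝ)‖
      ≤ Real.log Y ^ k * ((n : ℝ)⁻¹) := by
    intro n hn
    rw [mem_Icc] at hn
    have hn1 : (1 : ℝ) ≤ n := by exact_mod_cast hn.1
    have hn2 : (n : ℝ) ≤ Y := le_trans (by exact_mod_cast hn.2) hM1
    rw [norm_mul]
    calc ‖χ (n : ZMod q)‖ * ‖swA_g k s (n : ℝ)‖ ≤ 1 * (Real.log n ^ k / n) := by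
          apply mul_le_mul (DirichletCharacter.norm_le_one χ _) (swA_g_norm k hs hn1)
            (norm_nonneg _) zero_le_one
      _ = Real.log n ^ k * (n : ℝ)⁻¹ := by rw [one_mul, div_eq_mul_inv]
      _ ≤ _ := by
          apply mul_le_mul_of_nonneg_right _ (by positivity)
          exact pow_le_pow_left₀ (Real.log_nonneg hn1) (Real.log_le_log (by linarith only [hn1]) hn2) k
  have hharm : ∑ n ∈ Icc 1 ⌊Y⌋₊, ((n : ℝ)⁻¹) ≤ 1 + Real.log Y := by
    have h1 := harmonic_le_one_add_log ⌊Y⌋₊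
    have h2 : ((harmonic ⌊Y⌋₊ : ℚ) : ℝ) = ∑ n ∈ Icc 1 ⌊Y⌋₊, ((n : ℝ)⁻¹) := by
      rw [harmonic_eq_sum_Icc]
      push_cast
      rfl
    rw [← h2]
    refine le_trans h1 ?_
    have : Real.log ((⌊Y⌋₊ : ℕ) : ℝ) ≤ Real.log Y :=
      Real.log_le_log (by exact_mod_cast (by omega : 0 < ⌊Y⌋₊)) hM1
    linarith only [this]
  calc ‖∑ n ∈ Icc 1 ⌊Y⌋₊, χ (n : ZMod q) * swA_g k s (n : ℝ)‖
      ≤ ∑ n ∈ Icc 1 ⌊Y⌋₊, ‖χ (n : ZMod q) * swA_g k s (n : ℝ)‖ := norm_sum_le _ _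
    _ ≤ ∑ n ∈ Icc 1 ⌊Y⌋₊, Real.log Y ^ k * ((n : ℝ)⁻¹) := Finset.sum_le_sum hterm
    _ = Real.log Y ^ k * ∑ n ∈ Icc 1 ⌊Y⌋₊, ((n : ℝ)⁻¹) := by rw [Finset.mul_sum]
    _ ≤ Real.log Y ^ k * (1 + Real.log Y) := mul_le_mul_of_nonneg_left hharm (by positivity)
    _ ≤ Real.log Y ^ k * (2 * Real.log Y) := by
        apply mul_le_mul_of_nonneg_left _ (by positivity)
        linarith only [hlY]
    _ = _ := by rw [pow_succ]; ring

theorem Lk_le (k : ℕ) : ∃ C : ℝ, 0 < C ∧ ∀ q : ℕ, 2 ≤ q → ∀ χ : DirichletCharacter ℂ q, χ ≠ 1 →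
    ∀ s : ℂ, 1 < s.re → s.re ≤ 2 →
      ‖Lk q χ k s‖ ≤ C * Real.log (q * (|s.im| + 2)) ^ (k + 1) := by
  obtain ⟨C, hC, htail⟩ := swA_tail k
  refine ⟨C + 2, by linarith only [hC], ?_⟩
  intro q hq χ hχ s hs hs2
  have hq2 : (2 : ℝ) ≤ q := by exact_mod_cast hq
  have ht := abs_nonneg s.im
  set Y : ℝ := (q : ℝ) * (|s.im| + 2) with hYdef
  have hY4 : 4 ≤ Y := by rw [hYdef]; nlinarith only [hq2, ht]
  have hY0 : 0 < Y := by linarith only [hY4]
  have hlY : 1 ≤ Real.log Y := by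
    rw [Real.le_log_iff_exp_le hY0]
    have := Real.exp_one_lt_d9
    linarith only [hY4, this]
  have hsum := Lk_summable q χ k s hs
  have hlim := hsum.hasSum.tendsto_sum_nat
  have hterm : ∀ n : ℕ, n ≠ 0 →
      LSeries.term (fun n : ℕ => ((Real.log n : ℝ) : ℂ) ^ k * χ (n : ZMod q)) s n
        = χ (n : ZMod q) * swA_g k s (n : ℝ) := by
    intro n hn
    rw [LSeries.term_of_ne_zero hn, swA_g, Complex.cpow_neg]
    push_cast
    rw [div_eq_mul_inv]
    ring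
  refine le_of_tendsto hlim.norm ?_
  filter_upwards [Filter.eventually_ge_atTop (⌊Y⌋₊ + 1)] with N hN
  obtain ⟨N', rfl⟩ : ∃ N', N = N' + 1 := ⟨N - 1, by omega⟩
  have hN' : ⌊Y⌋₊ ≤ N' := by omega
  have h1 : ∑ i ∈ range (N' + 1),
      LSeries.term (fun n : ℕ => ((Real.log n : ℝ) : ℂ) ^ k * χ (n : ZMod q)) s i
      = ∑ n ∈ Icc 1 ⌊Y⌋₊, χ (n : ZMod q) * swA_g k s (n : ℝ)
        + ∑ n ∈ Ioc ⌊Y⌋₊ N', χ (n : ZMod q) * swA_g k s (n : ℝ) := by
    have e1 : range (N' + 1) = insert 0 (Icc 1 ⌊Y⌋₊ ∪ Ioc ⌊Y⌋₊ N') := by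
      ext x; simp only [mem_range, mem_insert, mem_union, mem_Icc, mem_Ioc]; omega
    have e2 : 0 ∉ Icc 1 ⌊Y⌋₊ ∪ Ioc ⌊Y⌋₊ N' := by simp
    have e3 : Disjoint (Icc 1 ⌊Y⌋₊) (Ioc ⌊Y⌋₊ N') := by
      rw [Finset.disjoint_left]; intro x hx hx'
      rw [mem_Icc] at hx; rw [mem_Ioc] at hx'; omega
    rw [e1, Finset.sum_insert e2, LSeries.term_zero, zero_add, Finset.sum_union e3]
    congr 1
    · apply Finset.sum_congr rfl
      intro n hn
      rw [mem_Icc] at hn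
      exact hterm n (by omega)
    · apply Finset.sum_congr rfl
      intro n hn
      rw [mem_Ioc] at hn
      exact hterm n (by omega)
  rw [h1]
  have h2 := swA_head k q χ s hs Y hY4
  have h3 := htail q hq χ hχ s hs hs2 N'
  have h4 : Real.log Y ^ k ≤ Real.log Y ^ (k + 1) := pow_le_pow_right₀ hlY (Nat.le_succ k)
  calc _ ≤ _ + _ := norm_add_le _ _
    _ ≤ 2 * Real.log Y ^ (k + 1) + C * Real.log Y ^ k := add_le_add h2 h3
    _ ≤ 2 * Real.log Y ^ (k + 1) + C * Real.log Y ^ (k + 1) := by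
        have := mul_le_mul_of_nonneg_left h4 hC.le
        linarith only [this]
    _ = _ := by ring

end Pool.Agent.H91.EHA

end
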