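import Pool.Agent.H15.TB1.M09
import Pool.Agent.H15.TB1.M20

/-! The parts of this file: H91.EHA.SwD3. -/

section

/-!
# Siegel's theorem

Fix `ε` (small; `ε ≤ 1/100`, and so small that `ζ(s) < 0` on `[1-ε,1)`, possible by the residue at 1).
Let `C` be the constant of `estermann`, `η = ε/(8C)`.
Case A: some real primitive `χ1 ≠ 1` mod `q1` has a real zero `β ∈ [1-η,1)` of `LFunction χ1`.
Case B: none; take any real primitive `χ1 ≠ 1` (e.g. mod 4 or mod 3) and `β = 1-η`.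
Let `χ` be real primitive `≠ 1` mod `q`, `χ ≠ χ1` (different modulus or different character; if it is `χ1` itself
adjust the constant, `LFunction χ1 1 ≠ 0` by Mathlib).  `N = q1 q`, lifts `χ1', χ'` to level `N`
(`DirichletCharacter.changeLevel`), `χ1' χ' ≠ 1` (primitive characters inducing the same character are equal:
compare conductors).  `LFunction_changeLevel`: `L(s,χ1') = L(s,χ1) ∏_{p|N}(1-χ1(p)p^{-s})`.
At `s = β` the value `F(β) ≤ 0`: in case A it is `0`; in case B `L(β,χ0) < 0` (product of `ζ(β)<0` and positive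
factors) and the other three are `≥ 0`: a real `L(s,ψ)` without zeros of its primitive character on `[β,1]`
is positive there (real valued, continuous, positive for `s>1`, nonzero at `1`).
So `λ ≥ c (1-β) N^{-C(1-β)}·... ≥ c' q^{-ε/4}`.  And `λ ≤ L(1,χ)·∏_{p|N}(1+1/p) · |L(1,χ1')||L(1,χ1'χ')|`,
`‖L(1,ψ)‖ ≤ C log N` for `ψ ≠ 1` mod `N` (limit of `Lk_le 0`), `∏_{p|N}(1+1/p) ≤ 1 + log N` type bound (or
`≤ C N^{ε'}`).  Hence `L(1,χ) ≥ c'' q^{-ε}`.
-/

set_option autoImplicit false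

namespace Pool.Agent.H91.EHA

open Finset
open Pool.Agent.H91.PK

private theorem swd3_val {N : ℕ} (ψ : DirichletCharacter ℂ N) (h : ψ ^ 2 = 1) (a : ZMod N) :
    (starRingEnd ℂ) (ψ a) = ψ a := by
  by_cases ha : IsUnit a
  · have h1 : (ψ a) ^ 2 = 1 := by
      have h2 := congrArg (fun f : DirichletCharacter ℂ N => f a) h
      rw [MulChar.pow_apply' _ two_ne_zero, MulChar.one_apply ha] at h2
      exact h2
    have h2 : (ψ a - 1) * (ψ a + 1) = 0 := by
      have : (ψ a - 1) * (ψ a + 1) = ψ a ^ 2 - 1 := by ring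
      rw [this, h1, sub_self]
    rcases mul_eq_zero.mp h2 with h3 | h3
    · rw [sub_eq_zero.mp h3, map_one]
    · rw [eq_neg_of_add_eq_zero_left h3, map_neg, map_one]
  · rw [MulChar.map_nonunit _ ha, map_zero]

private theorem swd3_conj_series {N : ℕ} (ψ : DirichletCharacter ℂ N) (h : ψ ^ 2 = 1) (s : ℂ) :
    (starRingEnd ℂ) (LSeries (fun n => ψ n) ((starRingEnd ℂ) s)) = LSeries (fun n => ψ n) s := by
  unfold LSeries
  rw [Complex.conj_tsum]
  apply tsum_congr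
  intro n
  by_cases hn : n = 0
  · subst hn
    simp [LSeries.term_zero]
  · rw [LSeries.term_of_ne_zero hn, LSeries.term_of_ne_zero hn, map_div₀, swd3_val ψ h]
    congr 1
    have h1 : ((n : ℂ)).arg ≠ Real.pi := by
      rw [Complex.natCast_arg]
      exact Real.pi_pos.ne
    rw [← Complex.conj_cpow _ _ h1, Complex.conj_natCast]

private theorem swd3_conj {N : ℕ} [NeZero N] (ψ : DirichletCharacter ℂ N) (h : ψ ^ 2 = 1)
    (h1 : ψ ≠ 1) (s : ℂ) :
    (starRingEnd ℂ) (DirichletCharacter.LFunction ψ ((starRingEnd ℂ) s)) =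
      DirichletCharacter.LFunction ψ s := by
  have hd : Differentiable ℂ (DirichletCharacter.LFunction ψ) :=
    DirichletCharacter.differentiable_LFunction h1
  have hd2 : Differentiable ℂ
      ((starRingEnd ℂ) ∘ DirichletCharacter.LFunction ψ ∘ (starRingEnd ℂ)) := by
    intro z
    rw [differentiableAt_conj_conj_iff]
    exact hd _
  have hA : AnalyticOnNhd ℂ (DirichletCharacter.LFunction ψ) Set.univ :=
    fun z _ => hd.analyticAt z
  have hB : AnalyticOnNhd ℂ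
      ((starRingEnd ℂ) ∘ DirichletCharacter.LFunction ψ ∘ (starRingEnd ℂ)) Set.univ :=
    fun z _ => hd2.analyticAt z
  have hev : ((starRingEnd ℂ) ∘ DirichletCharacter.LFunction ψ ∘ (starRingEnd ℂ)) =ᶠ[nhds 2]
      DirichletCharacter.LFunction ψ := by
    have hopen : {z : ℂ | 1 < z.re} ∈ nhds (2 : ℂ) := by
      apply (isOpen_lt continuous_const Complex.continuous_re).mem_nhds
      simp
    filter_upwards [hopen] with z hz
    have hz1 : 1 < z.re := hz
    have hz' : 1 < ((starRingEnd ℂ) z).re := by rw [Complex.conj_re]; exact hz1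
    simp only [Function.comp_apply]
    rw [DirichletCharacter.LFunction_eq_LSeries ψ hz', DirichletCharacter.LFunction_eq_LSeries ψ hz1]
    exact swd3_conj_series ψ h z
  have := hB.eq_of_eventuallyEq hA hev
  exact congrFun this s

private theorem swd3_im {N : ℕ} [NeZero N] (ψ : DirichletCharacter ℂ N) (h : ψ ^ 2 = 1)
    (h1 : ψ ≠ 1) (x : ℝ) : (DirichletCharacter.LFunction ψ (x : ℂ)).im = 0 := by
  have h2 := swd3_conj ψ h h1 (x : ℂ)
  rw [Complex.conj_ofReal] at h2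
  have h3 := congrArg Complex.im h2
  rw [Complex.conj_im] at h3
  linarith

private theorem swd3_two {N : ℕ} [NeZero N] (ψ : DirichletCharacter ℂ N) :
    0 < (DirichletCharacter.LFunction ψ 2).re := by
  have hre : 1 < (2 : ℂ).re := by simp
  rw [DirichletCharacter.LFunction_eq_LSeries ψ hre]
  have hsum : HasSum (LSeries.term (fun n => ψ n) 2) (LSeries (fun n => ψ n) 2) :=
    (DirichletCharacter.LSeriesSummable_of_one_lt_re ψ hre).hasSum
  have h1 : HasSum (fun k : ℕ => if k = 1 then (1 : ℂ) else 0) 1 := hasSum_ite_eq 1 1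
  have h2 := hsum.sub h1
  have h3 : HasSum (fun k : ℕ => 1 / (k : ℝ) ^ 2 - if k = 1 then (1 : ℝ) else 0)
      (Real.pi ^ 2 / 6 - 1) := hasSum_zeta_two.sub (hasSum_ite_eq 1 1)
  have h4 : ∀ k : ℕ, ‖LSeries.term (fun n => ψ n) 2 k - (if k = 1 then (1 : ℂ) else 0)‖ ≤
      1 / (k : ℝ) ^ 2 - if k = 1 then (1 : ℝ) else 0 := by
    intro k
    by_cases hk0 : k = 0
    · subst hk0
      simp [LSeries.term_zero]
    · by_cases hk1 : k = 1
      · subst hk1
        rw [LSeries.term_of_ne_zero one_ne_zero]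
        simp
      · rw [if_neg hk1, if_neg hk1, sub_zero, sub_zero, LSeries.term_of_ne_zero hk0, norm_div,
          Complex.norm_natCast_cpow_of_pos (Nat.pos_of_ne_zero hk0)]
        have hk : (0 : ℝ) < (k : ℝ) := by exact_mod_cast Nat.pos_of_ne_zero hk0
        have e : (k : ℝ) ^ ((2 : ℂ).re) = (k : ℝ) ^ 2 := by
          have : ((2 : ℂ).re) = ((2 : ℕ) : ℝ) := by simp
          rw [this, Real.rpow_natCast]
        rw [e]
        exact div_le_div_of_nonneg_right (ψ.norm_le_one _) (by positivity)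
  have h5 := h2.norm_le_of_bounded h3 h4
  have h6 : |(LSeries (fun n => ψ n) 2 - 1).re| ≤ Real.pi ^ 2 / 6 - 1 :=
    (Complex.abs_re_le_norm _).trans h5
  have h7 := (abs_le.mp h6).1
  rw [Complex.sub_re, Complex.one_re] at h7
  have h8 : Real.pi ^ 2 < 12 := by
    have := Real.pi_lt_d2
    have := Real.pi_pos
    nlinarith
  linarith

private theorem swd3_pos {N : ℕ} [NeZero N] (ψ : DirichletCharacter ℂ N) (h : ψ ^ 2 = 1)
    (h1 : ψ ≠ 1) (β : ℝ) (hβ : β < 1)
    (hz : ∀ x : ℝ, β ≤ x → x < 1 → DirichletCharacter.LFunction ψ (x : ℂ) ≠ 0) :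
    0 < (DirichletCharacter.LFunction ψ (β : ℂ)).re := by
  by_contra hcon
  push Not at hcon
  have hcont : Continuous (fun x : ℝ => (DirichletCharacter.LFunction ψ (x : ℂ)).re) :=
    Complex.continuous_re.comp
      ((DirichletCharacter.differentiable_LFunction h1).continuous.comp Complex.continuous_ofReal)
  have h2 : 0 < (DirichletCharacter.LFunction ψ ((2 : ℝ) : ℂ)).re := by
    have := swd3_two ψ
    simpa using this
  have hmem : (0 : ℝ) ∈ Set.Icc ((DirichletCharacter.LFunction ψ (β : ℂ)).re)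
      ((DirichletCharacter.LFunction ψ ((2 : ℝ) : ℂ)).re) := ⟨hcon, h2.le⟩
  obtain ⟨x, hx, hx0⟩ := intermediate_value_Icc (by linarith : β ≤ 2) hcont.continuousOn hmem
  have hx00 : DirichletCharacter.LFunction ψ (x : ℂ) = 0 := by
    apply Complex.ext
    · exact hx0
    · rw [swd3_im ψ h h1]
      simp
  by_cases hx1 : x < 1
  · exact hz x hx.1 hx1 hx00
  · push Not at hx1
    exact DirichletCharacter.LFunction_ne_zero_of_one_le_re ψ (Or.inl h1)
      (by simpa using hx1) hx00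

private theorem swd3_upper : ∃ C : ℝ, 0 < C ∧ ∀ (N : ℕ) [NeZero N] (ψ : DirichletCharacter ℂ N),
    ψ ≠ 1 → ‖DirichletCharacter.LFunction ψ 1‖ ≤ C * Real.log (2 * N) := by
  obtain ⟨C, hC, hL⟩ := Lk_le 0
  refine ⟨C, hC, ?_⟩
  intro N _ ψ hψ
  have hN2 : 2 ≤ N := by
    rcases Nat.lt_or_ge N 2 with h | h
    · exfalso
      have hN0 : N ≠ 0 := NeZero.ne N
      have hN1 : N = 1 := by omega
      exact hψ (DirichletCharacter.level_one' ψ hN1)
    · exact h
  have hcont : Continuous (fun x : ℝ => ‖DirichletCharacter.LFunction ψ (x : ℂ)‖) :=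
    ((DirichletCharacter.differentiable_LFunction hψ).continuous.comp
      Complex.continuous_ofReal).norm
  have ht : Filter.Tendsto (fun x : ℝ => ‖DirichletCharacter.LFunction ψ (x : ℂ)‖)
      (nhdsWithin 1 (Set.Ioi 1)) (nhds ‖DirichletCharacter.LFunction ψ ((1 : ℝ) : ℂ)‖) :=
    (hcont.tendsto 1).mono_left nhdsWithin_le_nhds
  rw [Complex.ofReal_one] at ht
  apply le_of_tendsto ht
  have hev : ∀ᶠ x : ℝ in nhdsWithin 1 (Set.Ioi 1), x < 2 := by
    apply Filter.Eventually.filter_mono nhdsWithin_le_nhds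
    exact (isOpen_Iio (a := (2 : ℝ))).mem_nhds (by norm_num)
  filter_upwards [hev, self_mem_nhdsWithin] with x hx2 hx1
  have hx1' : (1 : ℝ) < x := hx1
  have hre : 1 < ((x : ℝ) : ℂ).re := by simpa using hx1'
  have h1 := hL N hN2 ψ hψ (x : ℂ) hre (by simpa using hx2.le)
  rw [Lk_zero_eq N ψ _ hre] at h1
  simp only [Complex.ofReal_im, abs_zero, zero_add, pow_one] at h1
  rw [mul_comm (2 : ℝ)]
  exact h1

private theorem swd3_prod (N : ℕ) (hN : 1 ≤ N) :
    ∏ p ∈ N.primeFactors, (1 + 1 / (p : ℝ)) ≤ 1 + Real.log N := by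
  rw [Finset.prod_one_add]
  have hprime : ∀ t ∈ N.primeFactors.powerset, ∀ p ∈ t, p.Prime := by
    intro t ht p hp
    exact Nat.prime_of_mem_primeFactors (Finset.mem_powerset.mp ht hp)
  have e1 : ∀ t ∈ N.primeFactors.powerset, ∏ p ∈ t, 1 / (p : ℝ) =
      1 / ((∏ p ∈ t, p : ℕ) : ℝ) := by
    intro t _
    rw [Finset.prod_div_distrib, Finset.prod_const_one, Nat.cast_prod]
  rw [Finset.sum_congr rfl e1]
  have hinj : ∀ t ∈ N.primeFactors.powerset, ∀ t' ∈ N.primeFactors.powerset,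
      (∏ p ∈ t, p : ℕ) = ∏ p ∈ t', p → t = t' := by
    intro t ht t' ht' he
    rw [← Nat.primeFactors_prod (hprime t ht), ← Nat.primeFactors_prod (hprime t' ht'), he]
  have e2 : ∑ t ∈ N.primeFactors.powerset, 1 / ((∏ p ∈ t, p : ℕ) : ℝ) =
      ∑ d ∈ N.primeFactors.powerset.image (fun t => ∏ p ∈ t, p), 1 / (d : ℝ) := by
    rw [Finset.sum_image]
    intro t ht t' ht' he
    exact hinj t ht t' ht' he
  rw [e2]
  have hsub : N.primeFactors.powerset.image (fun t => ∏ p ∈ t, p) ⊆ Finset.Icc 1 N := by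
    intro d hd
    rw [Finset.mem_image] at hd
    obtain ⟨t, ht, rfl⟩ := hd
    rw [Finset.mem_Icc]
    constructor
    · exact Finset.prod_pos fun p hp => (hprime t ht p hp).pos
    · have h1 : (∏ p ∈ t, p) ∣ ∏ p ∈ N.primeFactors, p :=
        Finset.prod_dvd_prod_of_subset _ _ _ (Finset.mem_powerset.mp ht)
      exact Nat.le_of_dvd (by omega) (h1.trans (Nat.prod_primeFactors_dvd N))
  have h2 : ∑ d ∈ N.primeFactors.powerset.image (fun t => ∏ p ∈ t, p), 1 / (d : ℝ) ≤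
      ∑ d ∈ Finset.Icc 1 N, 1 / (d : ℝ) :=
    Finset.sum_le_sum_of_subset_of_nonneg hsub fun _ _ _ => by positivity
  refine h2.trans ?_
  have h3 := harmonic_le_one_add_log N
  rw [harmonic_eq_sum_Icc] at h3
  push_cast at h3
  simpa [one_div] using h3

private theorem swd3_zeta : ∃ η : ℝ, 0 < η ∧ ∀ β : ℝ, 1 - η ≤ β → β < 1 →
    (riemannZeta (β : ℂ)).re < 0 := by
  have h := riemannZeta_residue_one
  have hopen : {z : ℂ | 0 < z.re} ∈ nhds (1 : ℂ) := by
    apply (isOpen_lt continuous_const Complex.continuous_re).mem_nhds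
    simp
  have hev := h.eventually hopen
  rw [eventually_nhdsWithin_iff, Metric.eventually_nhds_iff] at hev
  obtain ⟨δ, hδ, hb⟩ := hev
  refine ⟨δ / 2, by positivity, ?_⟩
  intro β hβ1 hβ2
  have hne : (β : ℂ) ≠ 1 := by
    intro h
    have h2 : ((β : ℝ) : ℂ) = ((1 : ℝ) : ℂ) := by rw [h, Complex.ofReal_one]
    have h3 := Complex.ofReal_injective h2
    linarith
  have hdist : dist (β : ℂ) 1 < δ := by
    rw [Complex.dist_eq, ← Complex.ofReal_one, ← Complex.ofReal_sub, Complex.norm_real,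
      Real.norm_eq_abs, abs_lt]
    constructor <;> linarith
  have h4 := hb hdist hne
  have h5 : (((β : ℂ) - 1) * riemannZeta (β : ℂ)).re = (β - 1) * (riemannZeta (β : ℂ)).re := by
    rw [← Complex.ofReal_one, ← Complex.ofReal_sub, Complex.re_ofReal_mul]
  have h6 : 0 < (β - 1) * (riemannZeta (β : ℂ)).re := by
    rw [← h5]
    exact h4
  by_contra h7
  push Not at h7
  nlinarith

private theorem swd3_factor {N M : ℕ} (χ : DirichletCharacter ℂ M) (p : ℕ)
    (hp : p ∈ N.primeFactors) (β : ℝ) (hβ : 0 < β) :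
    (1 - χ (p : ZMod M) * (p : ℂ) ^ (-(β : ℂ))) ≠ 0 := by
  have hpp := Nat.prime_of_mem_primeFactors hp
  intro h
  have h1 : ‖χ (p : ZMod M) * (p : ℂ) ^ (-(β : ℂ))‖ = 1 := by
    rw [← sub_eq_zero.mp h, norm_one]
  rw [norm_mul, Complex.norm_natCast_cpow_of_pos hpp.pos] at h1
  have h2 : ((-(β : ℂ))).re = -β := by simp
  rw [h2] at h1
  have h3 : (p : ℝ) ^ (-β) < 1 :=
    Real.rpow_lt_one_of_one_lt_of_neg (by exact_mod_cast hpp.one_lt) (by linarith)
  have h4 : ‖χ (p : ZMod M)‖ ≤ 1 := χ.norm_le_one _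
  have h5 : 0 ≤ (p : ℝ) ^ (-β) := by positivity
  nlinarith [norm_nonneg (χ (p : ZMod M))]

/-- the imprimitive characters have no zeros either -/
private theorem swd3_nz (η : ℝ) (hη : η ≤ 1 / 8)
    (hB : ∀ (q : ℕ) [NeZero q] (χ : DirichletCharacter ℂ q), χ.IsPrimitive → χ ^ 2 = 1 → χ ≠ 1 →
      ∀ x : ℝ, 1 - η ≤ x → x < 1 → DirichletCharacter.LFunction χ (x : ℂ) ≠ 0)
    {N : ℕ} [NeZero N] (ψ : DirichletCharacter ℂ N) (h : ψ ^ 2 = 1) (h1 : ψ ≠ 1) (x : ℝ)
    (hx : 1 - η ≤ x) (hx1 : x < 1) : DirichletCharacter.LFunction ψ (x : ℂ) ≠ 0 := by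
  have : NeZero ψ.conductor := ⟨ψ.conductor_ne_zero⟩
  have e : DirichletCharacter.changeLevel ψ.conductor_dvd_level ψ.primitiveCharacter = ψ :=
    ψ.changeLevel_primitiveCharacter
  have hne : ψ.primitiveCharacter ≠ 1 := by
    intro h2
    apply h1
    rw [← e, h2, map_one]
  have hsq : ψ.primitiveCharacter ^ 2 = 1 := by
    apply DirichletCharacter.changeLevel_injective ψ.conductor_dvd_level
    rw [map_pow, e, h, map_one]
  rw [← e, DirichletCharacter.LFunction_changeLevel ψ.conductor_dvd_level _ (Or.inl hne)]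
  apply mul_ne_zero
  · exact hB _ _ ψ.primitiveCharacter_isPrimitive hsq hne x hx hx1
  · rw [Finset.prod_ne_zero_iff]
    intro p hp
    exact swd3_factor _ p hp x (by linarith)

/-- two primitive real characters with trivial product (at a common level) are equal -/
private theorem swd3_eq {q1 q : ℕ} [NeZero q1] [NeZero q] (χ1 : DirichletCharacter ℂ q1)
    (χ : DirichletCharacter ℂ q) (hp1 : χ1.IsPrimitive) (hp : χ.IsPrimitive) (h2 : χ ^ 2 = 1)
    (h : DirichletCharacter.changeLevel (Nat.dvd_mul_right q1 q) χ1 *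
      DirichletCharacter.changeLevel (Nat.dvd_mul_left q q1) χ = 1) :
    ∃ e : q = q1, e ▸ χ = χ1 := by
  have : NeZero (q1 * q) := ⟨Nat.mul_ne_zero (NeZero.ne q1) (NeZero.ne q)⟩
  have h3 : DirichletCharacter.changeLevel (Nat.dvd_mul_left q q1) χ *
      DirichletCharacter.changeLevel (Nat.dvd_mul_left q q1) χ = 1 := by
    rw [← map_mul, ← pow_two, h2, map_one]
  have h4 : DirichletCharacter.changeLevel (Nat.dvd_mul_right q1 q) χ1 =
      DirichletCharacter.changeLevel (Nat.dvd_mul_left q q1) χ := by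
    calc DirichletCharacter.changeLevel (Nat.dvd_mul_right q1 q) χ1
        = DirichletCharacter.changeLevel (Nat.dvd_mul_right q1 q) χ1 *
          (DirichletCharacter.changeLevel (Nat.dvd_mul_left q q1) χ *
            DirichletCharacter.changeLevel (Nat.dvd_mul_left q q1) χ) := by rw [h3, mul_one]
      _ = DirichletCharacter.changeLevel (Nat.dvd_mul_left q q1) χ := by
          rw [← mul_assoc, h, one_mul]
  have h5 : q = q1 := by
    have e1 := DirichletCharacter.conductor_changeLevel χ1 (Nat.dvd_mul_right q1 q)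
    have e2 := DirichletCharacter.conductor_changeLevel χ (Nat.dvd_mul_left q q1)
    rw [h4, e2] at e1
    rw [DirichletCharacter.isPrimitive_def] at hp1 hp
    rw [hp1, hp] at e1
    exact e1
  subst h5
  refine ⟨rfl, ?_⟩
  exact (DirichletCharacter.changeLevel_injective (Nat.dvd_mul_right q q) h4).symm

private theorem swd3_triv {N : ℕ} [NeZero N] (β : ℝ) (hβ : 0 < β) (hβ1 : β < 1)
    (hζ : (riemannZeta (β : ℂ)).re < 0) :
    (DirichletCharacter.LFunction (1 : DirichletCharacter ℂ N) (β : ℂ)).re ≤ 0 := by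
  have hne : (β : ℂ) ≠ 1 := by
    intro h
    have h2 : ((β : ℝ) : ℂ) = ((1 : ℝ) : ℂ) := by rw [h, Complex.ofReal_one]
    have h3 := Complex.ofReal_injective h2
    linarith
  have h1 := DirichletCharacter.LFunctionTrivChar_eq_mul_riemannZeta (N := N) hne
  have h2 : (∏ p ∈ N.primeFactors, (1 - (p : ℂ) ^ (-(β : ℂ)))) =
      ((∏ p ∈ N.primeFactors, (1 - (p : ℝ) ^ (-β)) : ℝ) : ℂ) := by
    rw [Complex.ofReal_prod]
    apply Finset.prod_congr rfl
    intro p _
    rw [Complex.ofReal_sub, Complex.ofReal_one, Complex.ofReal_cpow (Nat.cast_nonneg p),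
      Complex.ofReal_neg, Complex.ofReal_natCast]
  have h3 : 0 ≤ ∏ p ∈ N.primeFactors, (1 - (p : ℝ) ^ (-β)) := by
    apply Finset.prod_nonneg
    intro p hp
    have hpp := Nat.prime_of_mem_primeFactors hp
    have h3 : (p : ℝ) ^ (-β) < 1 :=
      Real.rpow_lt_one_of_one_lt_of_neg (by exact_mod_cast hpp.one_lt) (by linarith)
    linarith
  rw [h2] at h1
  have h4 : (DirichletCharacter.LFunction (1 : DirichletCharacter ℂ N) (β : ℂ)).re =
      (∏ p ∈ N.primeFactors, (1 - (p : ℝ) ^ (-β))) * (riemannZeta (β : ℂ)).re := by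
    rw [← Complex.re_ofReal_mul, ← h1]
  rw [h4]
  exact mul_nonpos_of_nonneg_of_nonpos h3 hζ.le

private theorem swd3_caseB (η : ℝ) (hη : η ≤ 1 / 8)
    (hB : ∀ (q : ℕ) [NeZero q] (χ : DirichletCharacter ℂ q), χ.IsPrimitive → χ ^ 2 = 1 → χ ≠ 1 →
      ∀ x : ℝ, 1 - η ≤ x → x < 1 → DirichletCharacter.LFunction χ (x : ℂ) ≠ 0)
    {N : ℕ} [NeZero N] (ψ1 ψ2 : DirichletCharacter ℂ N) (h1 : ψ1 ^ 2 = 1) (h2 : ψ2 ^ 2 = 1)
    (n1 : ψ1 ≠ 1) (n2 : ψ2 ≠ 1) (n3 : ψ1 * ψ2 ≠ 1) (β : ℝ) (hβ : 1 - η ≤ β) (hβ1 : β < 1)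
    (hζ : (riemannZeta (β : ℂ)).re < 0) :
    (DirichletCharacter.LFunction (1 : DirichletCharacter ℂ N) β *
          DirichletCharacter.LFunction ψ1 β * DirichletCharacter.LFunction ψ2 β *
          DirichletCharacter.LFunction (ψ1 * ψ2) β).re ≤ 0 := by
  have h3 : (ψ1 * ψ2) ^ 2 = 1 := by rw [mul_pow, h1, h2, mul_one]
  have key : ∀ ψ : DirichletCharacter ℂ N, ψ ^ 2 = 1 → ψ ≠ 1 →
      ∃ r : ℝ, 0 ≤ r ∧ DirichletCharacter.LFunction ψ (β : ℂ) = (r : ℂ) := by
    intro ψ h n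
    refine ⟨(DirichletCharacter.LFunction ψ (β : ℂ)).re, ?_, ?_⟩
    · apply le_of_lt
      apply swd3_pos ψ h n β hβ1
      intro x hx hx1
      exact swd3_nz η hη hB ψ h n x (by linarith) hx1
    · apply Complex.ext
      · simp
      · rw [swd3_im ψ h n]
        simp
  obtain ⟨r1, hr1, e1⟩ := key ψ1 h1 n1
  obtain ⟨r2, hr2, e2⟩ := key ψ2 h2 n2
  obtain ⟨r3, hr3, e3⟩ := key (ψ1 * ψ2) h3 n3
  rw [e1, e2, e3]
  have h4 := swd3_triv (N := N) β (by linarith) hβ1 hζ
  have h5 : (DirichletCharacter.LFunction (1 : DirichletCharacter ℂ N) (β : ℂ) * (r1 : ℂ) *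
      (r2 : ℂ) * (r3 : ℂ)).re =
      (DirichletCharacter.LFunction (1 : DirichletCharacter ℂ N) (β : ℂ)).re * (r1 * r2 * r3) := by
    have : DirichletCharacter.LFunction (1 : DirichletCharacter ℂ N) (β : ℂ) * (r1 : ℂ) *
      (r2 : ℂ) * (r3 : ℂ) = ((r1 * r2 * r3 : ℝ) : ℂ) *
      DirichletCharacter.LFunction (1 : DirichletCharacter ℂ N) (β : ℂ) := by
      push_cast
      ring
    rw [this, Complex.re_ofReal_mul]
    ring
  rw [h5]
  exact mul_nonpos_of_nonpos_of_nonneg h4 (by positivity)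

private theorem swd3_level {q N : ℕ} [NeZero q] [NeZero N] (hd : q ∣ N)
    (χ : DirichletCharacter ℂ q) (n : χ ≠ 1) :
    ‖DirichletCharacter.LFunction (DirichletCharacter.changeLevel hd χ) 1‖ ≤
      ‖DirichletCharacter.LFunction χ 1‖ * (1 + Real.log N) := by
  rw [DirichletCharacter.LFunction_changeLevel hd _ (Or.inl n), norm_mul]
  apply mul_le_mul_of_nonneg_left _ (norm_nonneg _)
  refine le_trans ?_ (swd3_prod N (Nat.one_le_iff_ne_zero.mpr (NeZero.ne N)))
  rw [norm_prod]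
  apply Finset.prod_le_prod
  · intro p _
    exact norm_nonneg _
  · intro p hp
    have hpp := Nat.prime_of_mem_primeFactors hp
    refine (norm_sub_le _ _).trans ?_
    rw [norm_one, norm_mul, Complex.norm_natCast_cpow_of_pos hpp.pos]
    have h2 : ((-(1 : ℂ))).re = -1 := by simp
    rw [h2, Real.rpow_neg_one, one_div]
    have h4 : ‖χ (p : ZMod q)‖ ≤ 1 := χ.norm_le_one _
    have h5 : 0 ≤ ((p : ℝ))⁻¹ := by positivity
    have h6 := mul_le_mul_of_nonneg_right h4 h5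
    linarith

private theorem swd3_core (C C2 : ℝ) (hC : 1 ≤ C) (hC2 : 0 < C2)
    (hE : ∀ (N : ℕ) [NeZero N] (χ1 χ2 : DirichletCharacter ℂ N),
    χ1 ^ 2 = 1 → χ2 ^ 2 = 1 → χ1 ≠ 1 → χ2 ≠ 1 → χ1 * χ2 ≠ 1 → ∀ s : ℝ, 7 / 8 < s → s < 1 →
    1 / 2 - C * (N : ℝ) ^ (C * (1 - s)) / (1 - s) * (((N.totient : ℝ) / N) *
        (DirichletCharacter.LFunction χ1 1 * DirichletCharacter.LFunction χ2 1 *
          DirichletCharacter.LFunction (χ1 * χ2) 1).re)
      ≤ (DirichletCharacter.LFunction (1 : DirichletCharacter ℂ N) s *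
          DirichletCharacter.LFunction χ1 s * DirichletCharacter.LFunction χ2 s *
          DirichletCharacter.LFunction (χ1 * χ2) s).re)
    (hU : ∀ (N : ℕ) [NeZero N] (ψ : DirichletCharacter ℂ N),
      ψ ≠ 1 → ‖DirichletCharacter.LFunction ψ 1‖ ≤ C2 * Real.log (2 * N))
    (ε : ℝ) (hε : 0 < ε) (hε1 : ε ≤ 1) (β : ℝ) (hβ : 7 / 8 < β) (hβ1 : β < 1)
    (hβε : C * (1 - β) ≤ ε / 8) (q1 : ℕ) [NeZero q1] (χ1 : DirichletCharacter ℂ q1)
    (h1 : χ1 ^ 2 = 1) (n1 : χ1 ≠ 1) :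
    ∃ c : ℝ, 0 < c ∧ ∀ (q N : ℕ) [NeZero q] [NeZero N] (_hN : N = q1 * q) (hd1 : q1 ∣ N)
      (hd : q ∣ N) (χ : DirichletCharacter ℂ q),
      χ ^ 2 = 1 → χ ≠ 1 →
      DirichletCharacter.changeLevel hd1 χ1 * DirichletCharacter.changeLevel hd χ ≠ 1 →
      (DirichletCharacter.LFunction (1 : DirichletCharacter ℂ N) β *
          DirichletCharacter.LFunction (DirichletCharacter.changeLevel hd1 χ1) β *
          DirichletCharacter.LFunction (DirichletCharacter.changeLevel hd χ) β *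
          DirichletCharacter.LFunction (DirichletCharacter.changeLevel hd1 χ1 *
            DirichletCharacter.changeLevel hd χ) β).re ≤ 0 →
      c * (q : ℝ) ^ (-ε) ≤ ‖DirichletCharacter.LFunction χ 1‖ := by
  set δ : ℝ := ε / 24 with hδ
  have hδ0 : 0 < δ := by positivity
  set K : ℝ := C * (C2 * (2 / δ)) ^ 2 * (1 + 1 / δ) with hK
  have hC0 : 0 < C := by linarith
  have hK0 : 0 < K := by positivity
  have hq1 : (0 : ℝ) < q1 := by
    have : 0 < q1 := Nat.pos_of_ne_zero (NeZero.ne q1)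
    exact_mod_cast this
  have ha : 0 < 1 - β := by linarith
  refine ⟨(1 - β) / (2 * K * (q1 : ℝ) ^ ε), by positivity, ?_⟩
  intro q N _ _ hN hd1 hd χ h2 n2 n3 hF
  have hq : (0 : ℝ) < q := by
    have : 0 < q := Nat.pos_of_ne_zero (NeZero.ne q)
    exact_mod_cast this
  set ψ1 := DirichletCharacter.changeLevel hd1 χ1 with hψ1
  set ψ2 := DirichletCharacter.changeLevel hd χ with hψ2
  have m1 : ψ1 ≠ 1 := fun h => n1 ((DirichletCharacter.changeLevel_eq_one_iff _).mp h)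
  have m2 : ψ2 ≠ 1 := fun h => n2 ((DirichletCharacter.changeLevel_eq_one_iff _).mp h)
  have s1 : ψ1 ^ 2 = 1 := by rw [hψ1, ← map_pow, h1, map_one]
  have s2 : ψ2 ^ 2 = 1 := by rw [hψ2, ← map_pow, h2, map_one]
  have hest := hE N ψ1 ψ2 s1 s2 m1 m2 n3 β hβ hβ1
  set X := ‖DirichletCharacter.LFunction χ 1‖ with hX
  have hX0 : 0 ≤ X := norm_nonneg _
  have hNR : (0 : ℝ) < N := by rw [hN]; push_cast; positivity
  have hN1 : (1 : ℝ) ≤ N := by
    have : 1 ≤ N := Nat.one_le_iff_ne_zero.mpr (NeZero.ne N)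
    exact_mod_cast this
  set lam : ℝ := ((N.totient : ℝ) / N) *
        (DirichletCharacter.LFunction ψ1 1 * DirichletCharacter.LFunction ψ2 1 *
          DirichletCharacter.LFunction (ψ1 * ψ2) 1).re with hlam
  have hlog2 : Real.log (2 * N) ≤ (2 / δ) * (N : ℝ) ^ δ := by
    have e1 := Real.log_le_rpow_div (x := 2 * (N : ℝ)) (by positivity) hδ0
    have e2 : (2 * (N : ℝ)) ^ δ = 2 ^ δ * (N : ℝ) ^ δ :=
      Real.mul_rpow (by norm_num) hNR.le
    have e3 : (2 : ℝ) ^ δ ≤ 2 := by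
      calc (2 : ℝ) ^ δ ≤ 2 ^ (1 : ℝ) :=
            Real.rpow_le_rpow_of_exponent_le (by norm_num) (by rw [hδ]; linarith)
        _ = 2 := Real.rpow_one 2
    refine e1.trans ?_
    rw [e2, div_mul_eq_mul_div]
    apply div_le_div_of_nonneg_right _ hδ0.le
    exact mul_le_mul_of_nonneg_right e3 (by positivity)
  have hlog1 : 1 + Real.log N ≤ (1 + 1 / δ) * (N : ℝ) ^ δ := by
    have e1 := Real.log_le_rpow_div (x := (N : ℝ)) hNR.le hδ0
    have e2 : (1 : ℝ) ≤ (N : ℝ) ^ δ := Real.one_le_rpow hN1 hδ0.le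
    have e3 : (1 + 1 / δ) * (N : ℝ) ^ δ = (N : ℝ) ^ δ + (N : ℝ) ^ δ / δ := by ring
    rw [e3]
    linarith
  have hlam1 : lam ≤ (C2 * ((2 / δ) * (N : ℝ) ^ δ)) * (X * ((1 + 1 / δ) * (N : ℝ) ^ δ)) *
      (C2 * ((2 / δ) * (N : ℝ) ^ δ)) := by
    have u1 : ‖DirichletCharacter.LFunction ψ1 1‖ ≤ C2 * ((2 / δ) * (N : ℝ) ^ δ) :=
      (hU N ψ1 m1).trans (mul_le_mul_of_nonneg_left hlog2 hC2.le)
    have u3 : ‖DirichletCharacter.LFunction (ψ1 * ψ2) 1‖ ≤ C2 * ((2 / δ) * (N : ℝ) ^ δ) :=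
      (hU N _ n3).trans (mul_le_mul_of_nonneg_left hlog2 hC2.le)
    have u2 : ‖DirichletCharacter.LFunction ψ2 1‖ ≤ X * ((1 + 1 / δ) * (N : ℝ) ^ δ) :=
      (swd3_level hd χ n2).trans (mul_le_mul_of_nonneg_left hlog1 hX0)
    have hφ0 : 0 ≤ (N.totient : ℝ) / N := by positivity
    have hφ1 : (N.totient : ℝ) / N ≤ 1 := by
      rw [div_le_one hNR]
      exact_mod_cast Nat.totient_le N
    have hnorm : (DirichletCharacter.LFunction ψ1 1 * DirichletCharacter.LFunction ψ2 1 *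
          DirichletCharacter.LFunction (ψ1 * ψ2) 1).re ≤
        ‖DirichletCharacter.LFunction ψ1 1‖ * ‖DirichletCharacter.LFunction ψ2 1‖ *
          ‖DirichletCharacter.LFunction (ψ1 * ψ2) 1‖ := by
      refine (Complex.re_le_norm _).trans (le_of_eq ?_)
      rw [norm_mul, norm_mul]
    calc lam ≤ ((N.totient : ℝ) / N) * (‖DirichletCharacter.LFunction ψ1 1‖ *
          ‖DirichletCharacter.LFunction ψ2 1‖ * ‖DirichletCharacter.LFunction (ψ1 * ψ2) 1‖) :=
          mul_le_mul_of_nonneg_left hnorm hφ0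
      _ ≤ 1 * (‖DirichletCharacter.LFunction ψ1 1‖ *
          ‖DirichletCharacter.LFunction ψ2 1‖ * ‖DirichletCharacter.LFunction (ψ1 * ψ2) 1‖) :=
          mul_le_mul_of_nonneg_right hφ1 (by positivity)
      _ = ‖DirichletCharacter.LFunction ψ1 1‖ *
          ‖DirichletCharacter.LFunction ψ2 1‖ * ‖DirichletCharacter.LFunction (ψ1 * ψ2) 1‖ :=
          one_mul _
      _ ≤ _ := by
          apply mul_le_mul _ u3 (norm_nonneg _) (by positivity)
          exact mul_le_mul u1 u2 (norm_nonneg _) (by positivity)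
  have hNε : C * (N : ℝ) ^ (C * (1 - β)) ≤ C * (N : ℝ) ^ (ε / 8) :=
    mul_le_mul_of_nonneg_left (Real.rpow_le_rpow_of_exponent_le hN1 hβε) hC0.le
  have hmain : (1 - β) / 2 ≤ C * (N : ℝ) ^ (C * (1 - β)) * lam := by
    have e1 : 1 / 2 ≤ C * (N : ℝ) ^ (C * (1 - β)) / (1 - β) * lam := by linarith
    have e2 := mul_le_mul_of_nonneg_left e1 ha.le
    have e3 : (1 - β) * (C * (N : ℝ) ^ (C * (1 - β)) / (1 - β) * lam) =
        C * (N : ℝ) ^ (C * (1 - β)) * lam := by
      field_simp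
    rw [e3] at e2
    linarith
  have hlam0 : 0 ≤ lam := by
    by_contra hneg
    push Not at hneg
    have : C * (N : ℝ) ^ (C * (1 - β)) * lam < 0 := mul_neg_of_pos_of_neg (by positivity) hneg
    linarith
  have hfin : (1 - β) / 2 ≤ K * (N : ℝ) ^ (ε / 4) * X := by
    calc (1 - β) / 2 ≤ C * (N : ℝ) ^ (C * (1 - β)) * lam := hmain
      _ ≤ C * (N : ℝ) ^ (ε / 8) * lam := mul_le_mul_of_nonneg_right hNε hlam0
      _ ≤ C * (N : ℝ) ^ (ε / 8) * ((C2 * ((2 / δ) * (N : ℝ) ^ δ)) *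
          (X * ((1 + 1 / δ) * (N : ℝ) ^ δ)) * (C2 * ((2 / δ) * (N : ℝ) ^ δ))) :=
          mul_le_mul_of_nonneg_left hlam1 (by positivity)
      _ = K * ((N : ℝ) ^ (ε / 8) * (N : ℝ) ^ δ * (N : ℝ) ^ δ * (N : ℝ) ^ δ) * X := by
          rw [hK]
          ring
      _ = K * (N : ℝ) ^ (ε / 4) * X := by
          rw [← Real.rpow_add hNR, ← Real.rpow_add hNR, ← Real.rpow_add hNR]
          congr 3
          rw [hδ]
          ring
  have hNe : (N : ℝ) ^ (ε / 4) ≤ (q1 : ℝ) ^ ε * (q : ℝ) ^ ε := by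
    calc (N : ℝ) ^ (ε / 4) ≤ (N : ℝ) ^ ε :=
          Real.rpow_le_rpow_of_exponent_le hN1 (by linarith)
      _ = (q1 : ℝ) ^ ε * (q : ℝ) ^ ε := by
          rw [hN]
          push_cast
          exact Real.mul_rpow hq1.le hq.le
  have hfin2 : (1 - β) / 2 ≤ K * ((q1 : ℝ) ^ ε * (q : ℝ) ^ ε) * X :=
    hfin.trans (mul_le_mul_of_nonneg_right (mul_le_mul_of_nonneg_left hNe hK0.le) hX0)
  have hqe : 0 < (q : ℝ) ^ ε := by positivity
  have hq1e : 0 < (q1 : ℝ) ^ ε := by positivity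
  rw [Real.rpow_neg hq.le, div_mul_eq_mul_div, div_le_iff₀ (by positivity)]
  rw [mul_inv_le_iff₀ hqe]
  have e9 : X * (2 * K * (q1 : ℝ) ^ ε) * (q : ℝ) ^ ε =
      2 * (K * ((q1 : ℝ) ^ ε * (q : ℝ) ^ ε) * X) := by ring
  rw [e9]
  linarith

theorem siegel (ε : ℝ) (hε : 0 < ε) : ∃ c : ℝ, 0 < c ∧ ∀ (q : ℕ) [NeZero q]
    (χ : DirichletCharacter ℂ q), χ.IsPrimitive → χ ^ 2 = 1 → χ ≠ 1 →
      c * (q : ℝ) ^ (-ε) ≤ ‖DirichletCharacter.LFunction χ 1‖ := by
  -- reduce to ε ≤ 1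
  suffices hmain : ∀ ε : ℝ, 0 < ε → ε ≤ 1 → ∃ c : ℝ, 0 < c ∧ ∀ (q : ℕ) [NeZero q]
      (χ : DirichletCharacter ℂ q), χ.IsPrimitive → χ ^ 2 = 1 → χ ≠ 1 →
        c * (q : ℝ) ^ (-ε) ≤ ‖DirichletCharacter.LFunction χ 1‖ by
    rcases le_total ε 1 with h | h
    · exact hmain ε hε h
    · obtain ⟨c, hc, hb⟩ := hmain 1 one_pos le_rfl
      refine ⟨c, hc, ?_⟩
      intro q _ χ h1 h2 h3
      refine le_trans ?_ (hb q χ h1 h2 h3)
      apply mul_le_mul_of_nonneg_left _ hc.le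
      apply Real.rpow_le_rpow_of_exponent_le _ (by linarith)
      have : 1 ≤ q := Nat.one_le_iff_ne_zero.mpr (NeZero.ne q)
      exact_mod_cast this
  intro ε hε hε1
  obtain ⟨C, hC, hE⟩ := estermann
  obtain ⟨C2, hC2, hU⟩ := swd3_upper
  obtain ⟨η0, hη0, hζ⟩ := swd3_zeta
  have hC0 : 0 < C := by linarith
  set η : ℝ := min (min η0 (1 / 16)) (ε / (8 * C)) with hη
  have hηpos : 0 < η := by
    rw [hη]
    exact lt_min (lt_min hη0 (by norm_num)) (by positivity)
  have hη1 : η ≤ η0 := (min_le_left _ _).trans (min_le_left _ _)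
  have hη2 : η ≤ 1 / 16 := (min_le_left _ _).trans (min_le_right _ _)
  have hη3 : C * η ≤ ε / 8 := by
    have h1 : η ≤ ε / (8 * C) := min_le_right _ _
    have h2 := mul_le_mul_of_nonneg_left h1 hC0.le
    have h3 : C * (ε / (8 * C)) = ε / 8 := by
      field_simp
    rw [h3] at h2
    exact h2
  by_cases hex : ∃ (q1 : ℕ) (_ : NeZero q1) (χ1 : DirichletCharacter ℂ q1),
      χ1.IsPrimitive ∧ χ1 ^ 2 = 1 ∧ χ1 ≠ 1
  swap
  · refine ⟨1, one_pos, ?_⟩
    intro q _ χ h1 h2 h3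
    exact absurd ⟨q, inferInstance, χ, h1, h2, h3⟩ hex
  -- the fixed character and the point β
  have hfix : ∃ (q1 : ℕ) (_ : NeZero q1) (χ1 : DirichletCharacter ℂ q1) (β : ℝ),
      χ1.IsPrimitive ∧ χ1 ^ 2 = 1 ∧ χ1 ≠ 1 ∧ 1 - η ≤ β ∧ β < 1 ∧
      ∀ (q : ℕ) [NeZero q] [NeZero (q1 * q)] (χ : DirichletCharacter ℂ q),
      χ ^ 2 = 1 → χ ≠ 1 →
      DirichletCharacter.changeLevel (Nat.dvd_mul_right q1 q) χ1 *
        DirichletCharacter.changeLevel (Nat.dvd_mul_left q q1) χ ≠ 1 →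
      (DirichletCharacter.LFunction (1 : DirichletCharacter ℂ (q1 * q)) β *
          DirichletCharacter.LFunction (DirichletCharacter.changeLevel
            (Nat.dvd_mul_right q1 q) χ1) β *
          DirichletCharacter.LFunction (DirichletCharacter.changeLevel
            (Nat.dvd_mul_left q q1) χ) β *
          DirichletCharacter.LFunction (DirichletCharacter.changeLevel (Nat.dvd_mul_right q1 q) χ1 *
            DirichletCharacter.changeLevel (Nat.dvd_mul_left q q1) χ) β).re ≤ 0 := by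
    by_cases hA : ∃ (q1 : ℕ) (_ : NeZero q1) (χ1 : DirichletCharacter ℂ q1) (β : ℝ),
        χ1.IsPrimitive ∧ χ1 ^ 2 = 1 ∧ χ1 ≠ 1 ∧ 1 - η ≤ β ∧ β < 1 ∧
        DirichletCharacter.LFunction χ1 (β : ℂ) = 0
    · obtain ⟨q1, hq1, χ1, β, a1, a2, a3, a4, a5, a6⟩ := hA
      refine ⟨q1, hq1, χ1, β, a1, a2, a3, a4, a5, ?_⟩
      intro q _ _ χ h2 n2 n3
      rw [DirichletCharacter.LFunction_changeLevel (Nat.dvd_mul_right q1 q) χ1 (Or.inl a3), a6]
      simp
    · have hB : ∀ (q : ℕ) [NeZero q] (χ : DirichletCharacter ℂ q), χ.IsPrimitive → χ ^ 2 = 1 →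
          χ ≠ 1 → ∀ x : ℝ, 1 - η ≤ x → x < 1 →
          DirichletCharacter.LFunction χ (x : ℂ) ≠ 0 := by
        intro q _ χ h1 h2 h3 x hx hx1 h0
        exact hA ⟨q, inferInstance, χ, x, h1, h2, h3, hx, hx1, h0⟩
      obtain ⟨q1, hq1, χ1, a1, a2, a3⟩ := hex
      refine ⟨q1, hq1, χ1, 1 - η, a1, a2, a3, le_rfl, by linarith, ?_⟩
      intro q _ _ χ h2 n2 n3
      apply swd3_caseB η (by linarith) hB
      · rw [← map_pow, a2, map_one]
      · rw [← map_pow, h2, map_one]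
      · exact fun h => a3 ((DirichletCharacter.changeLevel_eq_one_iff _).mp h)
      · exact fun h => n2 ((DirichletCharacter.changeLevel_eq_one_iff _).mp h)
      · exact n3
      · exact le_rfl
      · linarith
      · exact hζ _ (by linarith) (by linarith)
  obtain ⟨q1, hq1, χ1, β, a1, a2, a3, a4, a5, a6⟩ := hfix
  have hβε : C * (1 - β) ≤ ε / 8 := by
    refine le_trans ?_ hη3
    exact mul_le_mul_of_nonneg_left (by linarith) hC0.le
  obtain ⟨c, hc, hb⟩ := swd3_core C C2 hC hC2 hE hU ε hε hε1 β (by linarith) a5 hβε q1 χ1 a2 a3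
  have hL1 : 0 < ‖DirichletCharacter.LFunction χ1 1‖ :=
    norm_pos_iff.mpr (DirichletCharacter.LFunction_apply_one_ne_zero a3)
  refine ⟨min c ‖DirichletCharacter.LFunction χ1 1‖, lt_min hc hL1, ?_⟩
  intro q _ χ h1 h2 h3
  have hqpos : 0 < (q : ℝ) ^ (-ε) := by
    have : 0 < q := Nat.pos_of_ne_zero (NeZero.ne q)
    have : (0 : ℝ) < q := by exact_mod_cast this
    positivity
  have : NeZero (q1 * q) := ⟨Nat.mul_ne_zero (NeZero.ne q1) (NeZero.ne q)⟩
  by_cases hprod : DirichletCharacter.changeLevel (Nat.dvd_mul_right q1 q) χ1 *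
        DirichletCharacter.changeLevel (Nat.dvd_mul_left q q1) χ = 1
  · obtain ⟨e, he⟩ := swd3_eq χ1 χ a1 h1 h2 hprod
    subst e
    simp only [] at he
    subst he
    have hq1' : (q : ℝ) ^ (-ε) ≤ 1 := by
      apply Real.rpow_le_one_of_one_le_of_nonpos
      · have : 1 ≤ q := Nat.one_le_iff_ne_zero.mpr (NeZero.ne q)
        exact_mod_cast this
      · linarith
    calc min c ‖DirichletCharacter.LFunction χ 1‖ * (q : ℝ) ^ (-ε)
        ≤ ‖DirichletCharacter.LFunction χ 1‖ * (q : ℝ) ^ (-ε) :=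
          mul_le_mul_of_nonneg_right (min_le_right _ _) hqpos.le
      _ ≤ ‖DirichletCharacter.LFunction χ 1‖ * 1 :=
          mul_le_mul_of_nonneg_left hq1' (norm_nonneg _)
      _ = _ := mul_one _
  · refine le_trans ?_ (hb q (q1 * q) rfl _ _ χ h2 h3 hprod (a6 q χ h2 h3 hprod))
    exact mul_le_mul_of_nonneg_right (min_le_left _ _) hqpos.le

end Pool.Agent.H91.EHA

end
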