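import Pool.Agent.H15.TB1.M15

/-! The parts of this file: H91.EHA.SwG. -/

section

/-!
# Smooth sums from Dirichlet series bounds

`om(n/N) = (1/2π) ∫ KK β t (N/n)^{β+it} dt` (`om_fourier'` in `PK/Om.lean`; holds for all `n ≥ 1`, both sides are `0`
for `n > N`).  Take `β = 1 + 1/log N` for `N ≥ 3`, `β = 2` for `N = 2`; interchange sum and integral
(absolutely convergent): `∑ a_n om(n/N) = (1/2π) ∫ KK β t N^{β+it} LSeries a (β+it) dt`;
`N^β ≤ 4 N`, `‖KK β t‖ ≤ 2/(1+t²)^{3/2}`-type decay against `log(|t|+3)^K`.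
-/

set_option autoImplicit false

namespace Pool.Agent.H91.EHA

open Finset
open Pool.Agent.H91.PK
open MeasureTheory

/-- decay of the kernel against a power of the logarithm -/
private theorem swG_kernel (K : ℕ) (β t : ℝ) (hβ : 0 ≤ β) :
    ‖KK β t‖ * Real.log (|t| + 3) ^ K ≤
      1.7544 / (1 / (2 * ((K : ℝ) + 1))) ^ K * (1 + ‖t‖) ^ (-(3 / 2 : ℝ)) := by
  set ε : ℝ := 1 / (2 * ((K : ℝ) + 1)) with hε
  have hK : (0 : ℝ) ≤ K := Nat.cast_nonneg K
  have hε0 : 0 < ε := by positivity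
  have hεK : ε * K ≤ 1 / 2 := by
    rw [hε, div_mul_eq_mul_div, one_mul, div_le_div_iff₀ (by positivity) (by norm_num)]
    nlinarith
  have ht : 0 ≤ |t| := abs_nonneg t
  rw [Real.norm_eq_abs]
  have hx1 : (0 : ℝ) < 1 + |t| := by positivity
  have h1 : ‖KK β t‖ ≤ 0.8772 / (1 + |t|) ^ 2 := by
    refine (norm_KK_le β t hβ).trans ?_
    rw [div_le_div_iff₀ (by positivity) (by positivity)]
    have : t ^ 2 = |t| ^ 2 := (sq_abs t).symm
    rw [this]
    nlinarith [sq_nonneg (1 - |t|)]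
  have h2 : Real.log (|t| + 3) ^ K ≤ 2 / ε ^ K * (1 + |t|) ^ (1 / 2 : ℝ) := by
    have h3 : Real.log (|t| + 3) ≤ (|t| + 3) ^ ε / ε :=
      Real.log_le_rpow_div (by positivity) hε0
    have h4 : 0 ≤ Real.log (|t| + 3) := Real.log_nonneg (by linarith)
    have h5 : Real.log (|t| + 3) ^ K ≤ ((|t| + 3) ^ ε / ε) ^ K := pow_le_pow_left₀ h4 h3 K
    have h6 : ((|t| + 3) ^ ε / ε) ^ K = (|t| + 3) ^ (ε * K) / ε ^ K := by
      rw [div_pow, ← Real.rpow_natCast ((|t| + 3) ^ ε) K, ← Real.rpow_mul (by positivity)]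
    have h7 : (|t| + 3) ^ (ε * K) ≤ (|t| + 3) ^ (1 / 2 : ℝ) :=
      Real.rpow_le_rpow_of_exponent_le (by linarith) hεK
    have h8 : (|t| + 3) ^ (1 / 2 : ℝ) ≤ 2 * (1 + |t|) ^ (1 / 2 : ℝ) := by
      have h9 : (2 : ℝ) * (1 + |t|) ^ (1 / 2 : ℝ) = (4 * (1 + |t|)) ^ (1 / 2 : ℝ) := by
        rw [Real.mul_rpow (by norm_num) (by positivity)]
        congr 1
        rw [← Real.sqrt_eq_rpow, show (4 : ℝ) = 2 ^ 2 by norm_num, Real.sqrt_sq (by norm_num)]
      rw [h9]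
      exact Real.rpow_le_rpow (by positivity) (by linarith) (by norm_num)
    calc Real.log (|t| + 3) ^ K ≤ (|t| + 3) ^ (ε * K) / ε ^ K := by rw [← h6]; exact h5
      _ ≤ (2 * (1 + |t|) ^ (1 / 2 : ℝ)) / ε ^ K := by
          gcongr
          exact h7.trans h8
      _ = 2 / ε ^ K * (1 + |t|) ^ (1 / 2 : ℝ) := by ring
  have h10 : (1 + |t|) ^ (-(3 / 2 : ℝ)) = (1 + |t|) ^ (1 / 2 : ℝ) / (1 + |t|) ^ 2 := by
    rw [← Real.rpow_natCast (1 + |t|) 2, ← Real.rpow_sub hx1]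
    norm_num
  calc ‖KK β t‖ * Real.log (|t| + 3) ^ K
      ≤ (0.8772 / (1 + |t|) ^ 2) * (2 / ε ^ K * (1 + |t|) ^ (1 / 2 : ℝ)) := by
        apply mul_le_mul h1 h2 _ (by positivity)
        exact pow_nonneg (Real.log_nonneg (by linarith)) K
    _ = 1.7544 / ε ^ K * (1 + |t|) ^ (-(3 / 2 : ℝ)) := by
        rw [h10]; ring

/-- the summand -/
private noncomputable def swG_F (a : ℕ → ℂ) (β : ℝ) (N n : ℕ) (t : ℝ) : ℂ :=
  KK β t * ((N : ℂ) ^ (t * Complex.I) * LSeries.term a ((β : ℂ) + t * Complex.I) n)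

private theorem swG_F_eq (a : ℕ → ℂ) (β : ℝ) (N n : ℕ) (hn : 1 ≤ n) (t : ℝ) :
    swG_F a β N n t = (a n / (n : ℂ) ^ (β : ℂ)) *
      (KK β t * ((N : ℂ) ^ (t * Complex.I) * (n : ℂ) ^ (-(t * Complex.I)))) := by
  unfold swG_F
  have hn0 : (n : ℂ) ≠ 0 := by exact_mod_cast (by omega : n ≠ 0)
  rw [LSeries.term_of_ne_zero (by omega), Complex.cpow_add _ _ hn0, Complex.cpow_neg]
  have h1 : (n : ℂ) ^ (β : ℂ) ≠ 0 := by
    rw [Complex.cpow_def_of_ne_zero hn0]; exact Complex.exp_ne_zero _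
  have h2 : (n : ℂ) ^ ((t : ℂ) * Complex.I) ≠ 0 := by
    rw [Complex.cpow_def_of_ne_zero hn0]; exact Complex.exp_ne_zero _
  field_simp

private theorem swG_norm_F (a : ℕ → ℂ) (β : ℝ) (N n : ℕ) (hN : 1 ≤ N) (t : ℝ) :
    ‖swG_F a β N n t‖ = ‖LSeries.term a (β : ℂ) n‖ * ‖KK β t‖ := by
  unfold swG_F
  rw [norm_mul, norm_mul, Complex.norm_natCast_cpow_of_pos (by omega)]
  have h1 : ((t : ℂ) * Complex.I).re = 0 := by simp
  have h2 : ‖LSeries.term a ((β : ℂ) + t * Complex.I) n‖ = ‖LSeries.term a (β : ℂ) n‖ := by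
    rw [LSeries.norm_term_eq, LSeries.norm_term_eq]
    simp
  rw [h1, Real.rpow_zero, one_mul, h2, mul_comm]

private theorem swG_F_cont (a : ℕ → ℂ) (β : ℝ) (hβ : 0 ≤ β) (N n : ℕ) (hN : 1 ≤ N) :
    Continuous (swG_F a β N n) := by
  rcases Nat.eq_zero_or_pos n with rfl | hn
  · have : swG_F a β N 0 = fun _ => 0 := by
      funext t; unfold swG_F; rw [LSeries.term_zero, mul_zero, mul_zero]
    rw [this]; exact continuous_const
  · have : swG_F a β N n = fun t : ℝ => (a n / (n : ℂ) ^ (β : ℂ)) *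
      (KK β t * ((N : ℂ) ^ (t * Complex.I) * (n : ℂ) ^ (-(t * Complex.I)))) := by
      funext t; exact swG_F_eq a β N n hn t
    rw [this]
    have hn0 : (n : ℂ) ≠ 0 := by exact_mod_cast (by omega : n ≠ 0)
    have hN0 : (N : ℂ) ≠ 0 := by exact_mod_cast (by omega : N ≠ 0)
    refine continuous_const.mul ((KK_continuous β hβ).mul (Continuous.mul ?_ ?_))
    · exact Continuous.const_cpow (by fun_prop) (Or.inl hN0)
    · exact Continuous.const_cpow (by fun_prop) (Or.inl hn0)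

private theorem swG_F_int (a : ℕ → ℂ) (β : ℝ) (hβ : 0 ≤ β) (N n : ℕ) (hN : 1 ≤ N) :
    Integrable (swG_F a β N n) := by
  refine Integrable.mono' ((KK_integrable β hβ).norm.const_mul ‖LSeries.term a (β : ℂ) n‖)
    (swG_F_cont a β hβ N n hN).aestronglyMeasurable (Filter.Eventually.of_forall fun t => ?_)
  rw [swG_norm_F a β N n hN t]

private theorem swG_identity (a : ℕ → ℂ) (β : ℝ) (hβ : 0 ≤ β) (N : ℕ) (hN : 1 ≤ N)
    (hs : LSeriesSummable a (β : ℂ)) :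
    ∑ n ∈ Icc 1 N, a n * ((om ((n : ℝ) / N) : ℝ) : ℂ) =
      (((N : ℝ) ^ β : ℝ) : ℂ) * (1 / (2 * Real.pi)) *
        ∫ t : ℝ, KK β t * ((N : ℂ) ^ (t * Complex.I) * LSeries a ((β : ℂ) + t * Complex.I)) := by
  have hN0 : (0 : ℝ) < N := by exact_mod_cast hN
  have h1 : HasSum (fun n => ∫ t, swG_F a β N n t) (∫ t, ∑' n, swG_F a β N n t) := by
    apply hasSum_integral_of_summable_integral_norm (swG_F_int a β hβ N · hN)
    have h2 : (fun n => ∫ t, ‖swG_F a β N n t‖) =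
        fun n => ‖LSeries.term a (β : ℂ) n‖ * ∫ t, ‖KK β t‖ := by
      funext n
      simp only [swG_norm_F a β N n hN]
      rw [integral_const_mul]
    rw [h2]
    exact (Summable.norm hs).mul_right _
  have h3 : ∀ t : ℝ, ∑' n, swG_F a β N n t =
      KK β t * ((N : ℂ) ^ (t * Complex.I) * LSeries a ((β : ℂ) + t * Complex.I)) := by
    intro t
    unfold swG_F LSeries
    rw [tsum_mul_left, tsum_mul_left]
  simp only [h3] at h1
  have h4 := h1.mul_left ((((N : ℝ) ^ β : ℝ) : ℂ) * (1 / (2 * Real.pi)))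
  have hval : ∀ n : ℕ, 1 ≤ n → (((N : ℝ) ^ β : ℝ) : ℂ) * (1 / (2 * Real.pi)) *
      (∫ t, swG_F a β N n t) = a n * ((om ((n : ℝ) / N) : ℝ) : ℂ) := by
    intro n hn
    have hn0 : (0 : ℝ) < n := by exact_mod_cast hn
    have e1 : ∫ t, swG_F a β N n t = (a n / (n : ℂ) ^ (β : ℂ)) *
        ∫ t : ℝ, KK β t * ((N : ℂ) ^ (t * Complex.I) * (n : ℂ) ^ (-(t * Complex.I))) := by
      simp only [swG_F_eq a β N n hn]
      rw [integral_const_mul]
    rw [e1, om_fourier' β hβ hN hn, Real.div_rpow hN0.le hn0.le]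
    have e2 : (n : ℂ) ^ (β : ℂ) = (((n : ℝ) ^ β : ℝ) : ℂ) := by
      rw [Complex.ofReal_cpow hn0.le]; simp
    rw [e2]
    push_cast
    ring
  have h5 : HasSum (fun n => (((N : ℝ) ^ β : ℝ) : ℂ) * (1 / (2 * Real.pi)) *
      (∫ t, swG_F a β N n t)) (∑ n ∈ Icc 1 N, (((N : ℝ) ^ β : ℝ) : ℂ) * (1 / (2 * Real.pi)) *
      (∫ t, swG_F a β N n t)) := by
    apply hasSum_sum_of_ne_finset_zero
    intro n hn
    rcases Nat.eq_zero_or_pos n with rfl | hn1
    · have : ∀ t, swG_F a β N 0 t = 0 := by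
        intro t; unfold swG_F; rw [LSeries.term_zero, mul_zero, mul_zero]
      simp only [this, integral_zero, mul_zero]
    · rw [hval n hn1]
      have hnN : N < n := by
        by_contra h
        exact hn (Finset.mem_Icc.2 ⟨hn1, not_lt.1 h⟩)
      rw [om_eq_zero, Complex.ofReal_zero, mul_zero]
      rw [le_div_iff₀ hN0, one_mul]
      exact_mod_cast hnN.le
  rw [← h5.unique h4]
  apply Finset.sum_congr rfl
  intro n hn
  rw [hval n (Finset.mem_Icc.1 hn).1]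

theorem smooth_gen (K : ℕ) : ∃ C : ℝ, 0 < C ∧ ∀ (a : ℕ → ℂ) (B : ℝ), 0 ≤ B →
    (∀ s : ℂ, 1 < s.re → s.re ≤ 2 → LSeriesSummable a s ∧
      ‖LSeries a s‖ ≤ B * Real.log (|s.im| + 3) ^ K) →
    ∀ N : ℕ, 2 ≤ N → ‖∑ n ∈ Icc 1 N, a n * ((om ((n : ℝ) / N) : ℝ) : ℂ)‖ ≤ C * B * N := by
  set C0 : ℝ := 1.7544 / (1 / (2 * ((K : ℝ) + 1))) ^ K with hC0
  have hC0pos : 0 < C0 := by positivity
  set I0 : ℝ := ∫ t : ℝ, (1 + ‖t‖) ^ (-(3 / 2 : ℝ)) with hI0
  have hI0nn : 0 ≤ I0 := integral_nonneg (fun t => by positivity)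
  have hint : Integrable (fun t : ℝ => (1 + ‖t‖) ^ (-(3 / 2 : ℝ))) :=
    integrable_one_add_norm (by simp; norm_num)
  refine ⟨C0 * I0 + 1, by positivity, ?_⟩
  intro a B hB h N hN
  have hN0 : (0 : ℝ) < N := by exact_mod_cast (by omega : 0 < N)
  have hlog : 0 < Real.log N := Real.log_pos (by exact_mod_cast (by omega : 1 < N))
  set β : ℝ := 1 + 1 / (1 + Real.log N) with hβ
  have hβ1 : 1 < β := by rw [hβ]; have : 0 < 1 / (1 + Real.log N) := by positivity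
                         linarith
  have hβ2 : β ≤ 2 := by
    have : 1 / (1 + Real.log N) ≤ 1 := by
      rw [div_le_one (by positivity)]; linarith
    linarith
  have hs : LSeriesSummable a (β : ℂ) := (h (β : ℂ) (by simpa using hβ1) (by simpa using hβ2)).1
  rw [swG_identity a β (by linarith) N (by omega) hs]
  have hpow : (N : ℝ) ^ β ≤ Real.exp 1 * N := by
    rw [hβ, Real.rpow_add hN0, Real.rpow_one, mul_comm]
    gcongr
    rw [Real.rpow_def_of_pos hN0, Real.exp_le_exp, mul_one_div, div_le_one (by positivity)]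
    linarith
  have hbound : ‖∫ t : ℝ, KK β t * ((N : ℂ) ^ (t * Complex.I) *
      LSeries a ((β : ℂ) + t * Complex.I))‖ ≤ ∫ t : ℝ, B * (C0 * (1 + ‖t‖) ^ (-(3 / 2 : ℝ))) := by
    apply norm_integral_le_of_norm_le ((hint.const_mul C0).const_mul B)
    refine Filter.Eventually.of_forall fun t => ?_
    rw [norm_mul, norm_mul, Complex.norm_natCast_cpow_of_pos (by omega)]
    have h1 : ((t : ℂ) * Complex.I).re = 0 := by simp
    have h2 := (h ((β : ℂ) + t * Complex.I) (by simpa using hβ1) (by simpa using hβ2)).2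
    have h3 : ((β : ℂ) + t * Complex.I).im = t := by simp
    rw [h3] at h2
    rw [h1, Real.rpow_zero, one_mul]
    have h4 := swG_kernel K β t (by linarith)
    calc ‖KK β t‖ * ‖LSeries a ((β : ℂ) + t * Complex.I)‖
        ≤ ‖KK β t‖ * (B * Real.log (|t| + 3) ^ K) := by gcongr
      _ = B * (‖KK β t‖ * Real.log (|t| + 3) ^ K) := by ring
      _ ≤ B * (C0 * (1 + ‖t‖) ^ (-(3 / 2 : ℝ))) := by
          apply mul_le_mul_of_nonneg_left h4 hB
  rw [integral_const_mul, integral_const_mul, ← hI0] at hbound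
  have hpi : Real.exp 1 * (1 / (2 * Real.pi)) ≤ 1 := by
    have h1 := Real.exp_one_lt_d9
    have h2 := Real.pi_gt_three
    rw [mul_one_div, div_le_one (by positivity)]
    linarith
  rw [norm_mul, norm_mul]
  have e1 : ‖(((N : ℝ) ^ β : ℝ) : ℂ)‖ = (N : ℝ) ^ β := by
    rw [Complex.norm_real, Real.norm_of_nonneg (by positivity)]
  have e2 : ‖(1 / (2 * Real.pi) : ℂ)‖ = 1 / (2 * Real.pi) := by
    have : (1 / (2 * Real.pi) : ℂ) = ((1 / (2 * Real.pi) : ℝ) : ℂ) := by push_cast; rfl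
    rw [this, Complex.norm_real, Real.norm_of_nonneg (by positivity)]
  rw [e1, e2]
  have hpi0 : 0 < 1 / (2 * Real.pi) := by positivity
  calc (N : ℝ) ^ β * (1 / (2 * Real.pi)) * ‖∫ t : ℝ, KK β t * ((N : ℂ) ^ (t * Complex.I) *
        LSeries a ((β : ℂ) + t * Complex.I))‖
      ≤ (Real.exp 1 * N) * (1 / (2 * Real.pi)) * (B * (C0 * I0)) := by gcongr
    _ = (Real.exp 1 * (1 / (2 * Real.pi))) * (C0 * I0 * B * N) := by ring
    _ ≤ 1 * (C0 * I0 * B * N) := by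
        apply mul_le_mul_of_nonneg_right hpi (by positivity)
    _ ≤ (C0 * I0 + 1) * B * N := by
        have : 0 ≤ B * N := by positivity
        nlinarith

end Pool.Agent.H91.EHA

end
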