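import Pool.Agent.H15.TB1.M13
import Pool.Agent.H15.TB1.M31
import Pool.Agent.H15.TB1.M37
import Pool.Agent.H15.TB1.M38

/-! The parts of this file: H91.EHA.SwE, H91.EHA.SwF, H91.EHA.SwI, H91.EHA.ChF. -/

section

/-!
# Combined lower bound

Combine `L_lower_complex`, `L_lower_real`, `siegel` and
`log(q(|t|+2)) ≤ C_ε q^{ε/20} log(|t|+3)`.
-/

set_option autoImplicit false

namespace Pool.Agent.H91.EHA

open Finset
open Pool.Agent.H91.PK

private theorem swe_log (δ : ℝ) (hδ : 0 < δ) (q : ℕ) (hq : 2 ≤ q) (t : ℝ) :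
    0 < Real.log (q * (|t| + 2)) ∧
      Real.log (q * (|t| + 2)) ≤ (1 / δ + 1) * ((q : ℝ) ^ δ * Real.log (|t| + 3)) := by
  have hq1 : (2 : ℝ) ≤ q := by exact_mod_cast hq
  have ht : 0 ≤ |t| := abs_nonneg t
  have h3 : 1 ≤ Real.log (|t| + 3) := by
    rw [Real.le_log_iff_exp_le (by linarith)]
    have := Real.exp_one_lt_d9
    linarith
  have hqd : 1 ≤ (q : ℝ) ^ δ := Real.one_le_rpow (by linarith) hδ.le
  refine ⟨Real.log_pos (by nlinarith), ?_⟩
  rw [Real.log_mul (by linarith) (by linarith)]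
  have h1 : Real.log q ≤ (q : ℝ) ^ δ / δ := Real.log_le_rpow_div (by linarith) hδ
  have h2 : Real.log (|t| + 2) ≤ Real.log (|t| + 3) :=
    Real.log_le_log (by linarith) (by linarith)
  have h4 : (q : ℝ) ^ δ / δ ≤ (q : ℝ) ^ δ / δ * Real.log (|t| + 3) :=
    le_mul_of_one_le_right (by positivity) h3
  have h5 : Real.log (|t| + 3) ≤ (q : ℝ) ^ δ * Real.log (|t| + 3) :=
    le_mul_of_one_le_left (by linarith) hqd
  calc Real.log q + Real.log (|t| + 2) ≤
      (q : ℝ) ^ δ / δ * Real.log (|t| + 3) + (q : ℝ) ^ δ * Real.log (|t| + 3) := by linarith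
    _ = _ := by ring

private theorem swe_low (ε : ℝ) (hε : 0 < ε) (c : ℝ) (hc : 0 < c) (q : ℕ) (hq : 2 ≤ q) (t : ℝ) :
    c / (1 / (ε / 9) + 1) ^ 9 * ((q : ℝ) ^ (-ε) / Real.log (|t| + 3) ^ 9) ≤
      c / Real.log (q * (|t| + 2)) ^ 9 := by
  obtain ⟨h0, h1⟩ := swe_log (ε / 9) (by positivity) q hq t
  have hq0 : (0 : ℝ) < q := by exact_mod_cast (by omega : 0 < q)
  have h3 : 0 < Real.log (|t| + 3) := by
    apply Real.log_pos
    have := abs_nonneg t
    linarith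
  have h4 : Real.log (q * (|t| + 2)) ^ 9 ≤
      ((1 / (ε / 9) + 1) * ((q : ℝ) ^ (ε / 9) * Real.log (|t| + 3))) ^ 9 :=
    pow_le_pow_left₀ h0.le h1 9
  have h5 : ((q : ℝ) ^ (ε / 9)) ^ 9 = (q : ℝ) ^ ε := by
    rw [← Real.rpow_natCast, ← Real.rpow_mul hq0.le]
    congr 1
    push_cast
    ring
  have h6 : c / (1 / (ε / 9) + 1) ^ 9 * ((q : ℝ) ^ (-ε) / Real.log (|t| + 3) ^ 9) =
      c / ((1 / (ε / 9) + 1) * ((q : ℝ) ^ (ε / 9) * Real.log (|t| + 3))) ^ 9 := by
    rw [mul_pow, mul_pow, h5, Real.rpow_neg hq0.le]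
    have h7 : (q : ℝ) ^ ε ≠ 0 := (Real.rpow_pos_of_pos hq0 _).ne'
    field_simp
  rw [h6]
  exact div_le_div_of_nonneg_left hc.le (by positivity) h4

theorem L_low (ε : ℝ) (hε : 0 < ε) : ∃ c : ℝ, 0 < c ∧ ∀ q : ℕ, 2 ≤ q →
    ∀ χ : DirichletCharacter ℂ q, χ.IsPrimitive → ∀ s : ℂ, 1 < s.re → s.re ≤ 2 →
      c * (q : ℝ) ^ (-ε) / Real.log (|s.im| + 3) ^ 9 ≤ ‖Lk q χ 0 s‖ := by
  obtain ⟨c1, hc1, h1⟩ := L_lower_complex
  obtain ⟨c2, hc2, h2⟩ := L_lower_real
  obtain ⟨c3, hc3, h3⟩ := siegel (ε / 2) (by positivity)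
  have hK : 0 < (1 / (ε / 9) + 1) ^ 9 := by positivity
  have hK' : 0 < (1 / (ε / 2 / 9) + 1) ^ 9 := by positivity
  refine ⟨min (c1 / (1 / (ε / 9) + 1) ^ 9) (c2 * c3 / (1 / (ε / 2 / 9) + 1) ^ 9),
    lt_min (by positivity) (by positivity), ?_⟩
  intro q hq χ hχ s hs1 hs2
  have : NeZero q := ⟨by omega⟩
  have hq0 : (0 : ℝ) < q := by exact_mod_cast (by omega : 0 < q)
  have hlog : 0 < Real.log (|s.im| + 3) := by
    apply Real.log_pos
    have := abs_nonneg s.im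
    linarith
  have hne : χ ≠ 1 := by
    rintro rfl
    have h4 : DirichletCharacter.conductor (1 : DirichletCharacter ℂ q) = q := hχ
    rw [DirichletCharacter.conductor_one] at h4
    omega
  by_cases hsq : χ ^ 2 = 1
  · refine le_trans ?_ (h2 q hq χ hne hsq s hs1 hs2)
    have h4 := h3 q χ hχ hsq hne
    have h5 := swe_low (ε / 2) (by positivity) (c2 * (c3 * (q : ℝ) ^ (-(ε / 2)))) (by positivity)
      q hq s.im
    have h6 : c2 * (c3 * (q : ℝ) ^ (-(ε / 2))) / Real.log (q * (|s.im| + 2)) ^ 9 ≤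
        c2 * ‖DirichletCharacter.LFunction χ 1‖ / Real.log (q * (|s.im| + 2)) ^ 9 := by
      have h7 := (swe_log 1 one_pos q hq s.im).1
      gcongr
    refine le_trans ?_ (h5.trans h6)
    have h8 : (q : ℝ) ^ (-ε) = (q : ℝ) ^ (-(ε / 2)) * (q : ℝ) ^ (-(ε / 2)) := by
      rw [← Real.rpow_add hq0]
      congr 1
      ring
    rw [h8]
    calc min (c1 / (1 / (ε / 9) + 1) ^ 9) (c2 * c3 / (1 / (ε / 2 / 9) + 1) ^ 9) *
          ((q : ℝ) ^ (-(ε / 2)) * (q : ℝ) ^ (-(ε / 2))) / Real.log (|s.im| + 3) ^ 9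
        ≤ (c2 * c3 / (1 / (ε / 2 / 9) + 1) ^ 9) *
          ((q : ℝ) ^ (-(ε / 2)) * (q : ℝ) ^ (-(ε / 2))) / Real.log (|s.im| + 3) ^ 9 := by
          have := min_le_right (c1 / (1 / (ε / 9) + 1) ^ 9)
            (c2 * c3 / (1 / (ε / 2 / 9) + 1) ^ 9)
          gcongr
      _ = _ := by ring
  · refine le_trans ?_ (h1 q hq χ hne hsq s hs1 hs2)
    refine le_trans ?_ (swe_low ε hε c1 hc1 q hq s.im)
    rw [mul_div_assoc]
    exact mul_le_mul_of_nonneg_right (min_le_left _ _) (by positivity)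

end Pool.Agent.H91.EHA

end

section

/-!
# Bounds for the series of `Λ(n) χ(n) (log n)^k`

`Lk (k+1) = ∑_{i ≤ k} binom(k,i) Lk i · Fk (k-i)` (from `log = Λ * 1`; `k = 0`:
`Lk 1 = Lk 0 · Fk 0`, Mathlib `DirichletCharacter.deriv_LFunction...` / `LSeries_vonMangoldt...`
(`ArithmeticFunction.LSeries_vonMangoldt_eq`, `LSeries_twist_vonMangoldt_eq`); differentiate `k` times with
`Lk_hasDeriv` and `Fk_hasDeriv`).  Solve for `Fk k` and use induction, `L_low (ε')`, `Lk_le`: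
`‖Fk k‖ ≤ C q^{ε'...} (log(|t|+3))^{20(k+1)}`; note `log(q(|t|+2)) ≤ C q^{ε'} log(|t|+3)`.
Exponent check: `9 + (k+2) ≤ 20(k+1)` and `9 + (i+1) + 20(k-i+1) ≤ 20(k+1)` for `i ≥ 1`.
-/

set_option autoImplicit false

namespace Pool.Agent.H91.EHA

open Finset
open Pool.Agent.H91.PK

theorem Fk_summable (q : ℕ) (χ : DirichletCharacter ℂ q) (k : ℕ) (s : ℂ) (hs : 1 < s.re) :
    LSeriesSummable (fun n => ((Lam n * Real.log n ^ k : ℝ) : ℂ) * χ (n : ZMod q)) s := by
  refine Summable.of_norm_bounded (Lk_summable q χ (k + 1) s hs).norm ?_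
  intro n
  apply LSeries.norm_term_le
  have hlog : 0 ≤ Real.log n := Real.log_natCast_nonneg n
  have hLam : Lam n ≤ Real.log n := ArithmeticFunction.vonMangoldt_le_log
  have hLam0 : 0 ≤ Lam n := ArithmeticFunction.vonMangoldt_nonneg
  rw [norm_mul, norm_mul]
  refine mul_le_mul_of_nonneg_right ?_ (norm_nonneg _)
  rw [norm_pow, Complex.norm_real, Complex.norm_real, Real.norm_eq_abs, Real.norm_eq_abs,
    abs_of_nonneg (mul_nonneg hLam0 (pow_nonneg hlog k)), abs_of_nonneg hlog, pow_succ,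
    mul_comm (Real.log n ^ k)]
  exact mul_le_mul_of_nonneg_right hLam (pow_nonneg hlog k)

theorem Fk_hasDeriv (q : ℕ) (χ : DirichletCharacter ℂ q) (k : ℕ) (s : ℂ) (hs : 1 < s.re) :
    HasDerivAt (Fk q χ k) (-(Fk q χ (k + 1) s)) s := by
  have habs : LSeries.abscissaOfAbsConv
      (fun n : ℕ => ((Lam n * Real.log n ^ k : ℝ) : ℂ) * χ (n : ZMod q)) < s.re := by
    refine lt_of_le_of_lt (b := ((1 : ℝ) : EReal)) ?_ (by exact_mod_cast hs)
    apply LSeries.abscissaOfAbsConv_le_of_forall_lt_LSeriesSummable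
    intro y hy
    exact Fk_summable q χ k y (by simpa using hy)
  have h := LSeries_hasDerivAt habs
  have he : LSeries (LSeries.logMul
      (fun n : ℕ => ((Lam n * Real.log n ^ k : ℝ) : ℂ) * χ (n : ZMod q))) s =
      Fk q χ (k + 1) s := by
    unfold Fk
    apply LSeries_congr
    intro n _
    unfold LSeries.logMul
    rw [← Complex.natCast_log]
    push_cast
    ring
  rw [he] at h
  exact h

private theorem swf_one (q : ℕ) (χ : DirichletCharacter ℂ q) (s : ℂ) (hs : 1 < s.re) :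
    Lk q χ 1 s = Lk q χ 0 s * Fk q χ 0 s := by
  have hL0 : Lk q χ 0 = LSeries (fun n => χ (n : ZMod q)) := by
    funext z
    unfold Lk
    apply LSeries_congr
    intro n _
    simp
  have hF0 : Fk q χ 0 s = LSeries ((fun n : ℕ => χ (n : ZMod q)) *
      (fun n : ℕ => (ArithmeticFunction.vonMangoldt n : ℂ))) s := by
    unfold Fk
    apply LSeries_congr
    intro n _
    simp only [Pi.mul_apply, Lam, pow_zero, mul_one]
    ring
  have h1 := DirichletCharacter.LSeries_twist_vonMangoldt_eq χ hs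
  have h2 := (Lk_hasDeriv q χ 0 s hs).deriv
  have h3 := DirichletCharacter.LSeries_ne_zero_of_one_lt_re χ hs
  rw [hF0, h1, hL0]
  rw [hL0] at h2
  rw [h2, neg_neg, zero_add]
  field_simp

private theorem swf_pascal (a b : ℕ → ℂ) (k : ℕ) :
    ∑ i ∈ range (k + 1), (k.choose i : ℂ) * (a (i + 1) * b (k - i) + a i * b (k - i + 1)) =
      ∑ i ∈ range (k + 1 + 1), ((k + 1).choose i : ℂ) * (a i * b (k + 1 - i)) := by
  rw [Finset.sum_range_succ' (fun i => ((k + 1).choose i : ℂ) * (a i * b (k + 1 - i)))]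
  have h1 : ∀ i ∈ range (k + 1), ((k + 1).choose (i + 1) : ℂ) * (a (i + 1) * b (k + 1 - (i + 1))) =
      (k.choose i : ℂ) * (a (i + 1) * b (k - i)) +
        (k.choose (i + 1) : ℂ) * (a (i + 1) * b (k + 1 - (i + 1))) := by
    intro i _
    rw [Nat.choose_succ_succ, Nat.add_sub_add_right]
    push_cast
    ring
  rw [Finset.sum_congr rfl h1, Finset.sum_add_distrib]
  have h2 : ∑ i ∈ range (k + 1), (k.choose (i + 1) : ℂ) * (a (i + 1) * b (k + 1 - (i + 1))) +
      ((k + 1).choose 0 : ℂ) * (a 0 * b (k + 1 - 0)) =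
      ∑ i ∈ range (k + 1), (k.choose i : ℂ) * (a i * b (k - i + 1)) := by
    have h3 := Finset.sum_range_succ' (fun i => (k.choose i : ℂ) * (a i * b (k + 1 - i))) (k + 1)
    have h4 := Finset.sum_range_succ (fun i => (k.choose i : ℂ) * (a i * b (k + 1 - i))) (k + 1)
    rw [Nat.choose_succ_self, Nat.cast_zero, zero_mul, add_zero] at h4
    rw [Nat.choose_zero_right]
    rw [Nat.choose_zero_right] at h3
    rw [← h3, h4]
    apply Finset.sum_congr rfl
    intro i hi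
    rw [Finset.mem_range] at hi
    rw [show k + 1 - i = k - i + 1 by omega]
  rw [add_assoc, h2, ← Finset.sum_add_distrib]
  apply Finset.sum_congr rfl
  intro i _
  ring

theorem Lk_succ_eq (q : ℕ) (χ : DirichletCharacter ℂ q) (k : ℕ) (s : ℂ) (hs : 1 < s.re) :
    Lk q χ (k + 1) s = ∑ i ∈ range (k + 1), (k.choose i : ℂ) * (Lk q χ i s * Fk q χ (k - i) s) := by
  induction k generalizing s with
  | zero =>
    rw [zero_add, swf_one q χ s hs]
    simp
  | succ k ih =>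
    have h1 := Lk_hasDeriv q χ (k + 1) s hs
    have h2 : HasDerivAt (fun z => ∑ i ∈ range (k + 1),
        (k.choose i : ℂ) * (Lk q χ i z * Fk q χ (k - i) z))
        (∑ i ∈ range (k + 1), (k.choose i : ℂ) *
          (-(Lk q χ (i + 1) s) * Fk q χ (k - i) s + Lk q χ i s * -(Fk q χ (k - i + 1) s))) s := by
      apply HasDerivAt.fun_sum
      intro i _
      exact ((Lk_hasDeriv q χ i s hs).mul (Fk_hasDeriv q χ (k - i) s hs)).const_mul _
    have h3 : (fun z => ∑ i ∈ range (k + 1), (k.choose i : ℂ) * (Lk q χ i z * Fk q χ (k - i) z))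
        =ᶠ[nhds s] Lk q χ (k + 1) := by
      have hopen : IsOpen {z : ℂ | 1 < z.re} := isOpen_lt continuous_const Complex.continuous_re
      filter_upwards [hopen.mem_nhds hs] with z hz
      exact (ih z hz).symm
    have h4 := (h1.congr_of_eventuallyEq h3).unique h2
    have h5 : Lk q χ (k + 1 + 1) s = ∑ i ∈ range (k + 1), (k.choose i : ℂ) *
          (Lk q χ (i + 1) s * Fk q χ (k - i) s + Lk q χ i s * Fk q χ (k - i + 1) s) := by
      rw [← neg_neg (Lk q χ (k + 1 + 1) s), h4, ← Finset.sum_neg_distrib]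
      apply Finset.sum_congr rfl
      intro i _
      ring
    rw [h5]
    exact swf_pascal (fun i => Lk q χ i s) (fun j => Fk q χ j s) k

/-- powers of `1 + log q` -/
private theorem swf_logpow (m : ℕ) (ε : ℝ) (hε : 0 < ε) : ∃ C : ℝ, 0 < C ∧ ∀ q : ℕ, 2 ≤ q →
    (1 + Real.log q) ^ (m + 1) ≤ C * (q : ℝ) ^ ε := by
  set δ : ℝ := ε / (m + 1) with hδ
  have hm : (0 : ℝ) < m + 1 := by positivity
  have hδ0 : 0 < δ := by positivity
  refine ⟨(1 + 1 / δ) ^ (m + 1), by positivity, ?_⟩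
  intro q hq
  have hq1 : (1 : ℝ) ≤ q := by exact_mod_cast (by omega : 1 ≤ q)
  have h1 : Real.log q ≤ (q : ℝ) ^ δ / δ := Real.log_le_rpow_div (by linarith) hδ0
  have h2 : (1 : ℝ) ≤ (q : ℝ) ^ δ := Real.one_le_rpow hq1 hδ0.le
  have h3 : 1 + Real.log q ≤ (1 + 1 / δ) * (q : ℝ) ^ δ := by
    have : (1 + 1 / δ) * (q : ℝ) ^ δ = (q : ℝ) ^ δ + (q : ℝ) ^ δ / δ := by ring
    rw [this]
    linarith
  have h0 : 0 ≤ 1 + Real.log q := by
    have := Real.log_nonneg hq1
    linarith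
  calc (1 + Real.log q) ^ (m + 1) ≤ ((1 + 1 / δ) * (q : ℝ) ^ δ) ^ (m + 1) :=
        pow_le_pow_left₀ h0 h3 _
    _ = (1 + 1 / δ) ^ (m + 1) * (q : ℝ) ^ ε := by
        rw [mul_pow, ← Real.rpow_natCast ((q : ℝ) ^ δ), ← Real.rpow_mul (by linarith)]
        congr 2
        rw [hδ]
        push_cast
        field_simp

private theorem swf_ell (t : ℝ) : 1 ≤ Real.log (|t| + 3) := by
  have h1 : Real.exp 1 ≤ |t| + 3 := by
    have := Real.exp_one_lt_d9
    have := abs_nonneg t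
    linarith
  have h2 : 0 < |t| + 3 := by
    have := abs_nonneg t
    linarith
  rwa [Real.le_log_iff_exp_le h2]

/-- `Lk j` in terms of `q ^ ε` and `log (|t| + 3)` -/
private theorem swf_Lk (j : ℕ) (ε : ℝ) (hε : 0 < ε) : ∃ C : ℝ, 0 < C ∧ ∀ q : ℕ, 2 ≤ q →
    ∀ χ : DirichletCharacter ℂ q, χ ≠ 1 → ∀ s : ℂ, 1 < s.re → s.re ≤ 2 →
      ‖Lk q χ j s‖ ≤ C * (q : ℝ) ^ ε * Real.log (|s.im| + 3) ^ (j + 1) := by
  obtain ⟨C1, hC1, h1⟩ := Lk_le j
  obtain ⟨C2, hC2, h2⟩ := swf_logpow j ε hε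
  refine ⟨C1 * C2, by positivity, ?_⟩
  intro q hq χ hχ s hs hs2
  have hq0 : (0 : ℝ) < q := by exact_mod_cast (by omega : 0 < q)
  have hq1 : (1 : ℝ) ≤ q := by exact_mod_cast (by omega : 1 ≤ q)
  have hlq : 0 ≤ Real.log q := Real.log_nonneg hq1
  have ht := abs_nonneg s.im
  have hell := swf_ell s.im
  have h3 : Real.log (q * (|s.im| + 2)) ≤ (1 + Real.log q) * Real.log (|s.im| + 3) := by
    rw [Real.log_mul hq0.ne' (by linarith)]
    have h4 : Real.log (|s.im| + 2) ≤ Real.log (|s.im| + 3) :=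
      Real.log_le_log (by linarith) (by linarith)
    nlinarith
  have h5 : 0 ≤ Real.log (q * (|s.im| + 2)) := by
    apply Real.log_nonneg
    nlinarith
  calc ‖Lk q χ j s‖ ≤ C1 * Real.log (q * (|s.im| + 2)) ^ (j + 1) := h1 q hq χ hχ s hs hs2
    _ ≤ C1 * ((1 + Real.log q) * Real.log (|s.im| + 3)) ^ (j + 1) := by
        apply mul_le_mul_of_nonneg_left _ hC1.le
        exact pow_le_pow_left₀ h5 h3 _
    _ = C1 * (1 + Real.log q) ^ (j + 1) * Real.log (|s.im| + 3) ^ (j + 1) := by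
        rw [mul_pow]
        ring
    _ ≤ C1 * (C2 * (q : ℝ) ^ ε) * Real.log (|s.im| + 3) ^ (j + 1) := by
        apply mul_le_mul_of_nonneg_right _ (pow_nonneg (by linarith) _)
        exact mul_le_mul_of_nonneg_left (h2 q hq) hC1.le
    _ = C1 * C2 * (q : ℝ) ^ ε * Real.log (|s.im| + 3) ^ (j + 1) := by ring

theorem Fk_le (k : ℕ) (ε : ℝ) (hε : 0 < ε) : ∃ C : ℝ, 0 < C ∧ ∀ q : ℕ, 2 ≤ q →
    ∀ χ : DirichletCharacter ℂ q, χ.IsPrimitive → ∀ s : ℂ, 1 < s.re → s.re ≤ 2 →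
      ‖Fk q χ k s‖ ≤ C * (q : ℝ) ^ ε * Real.log (|s.im| + 3) ^ (20 * (k + 1)) := by
  induction k using Nat.strong_induction_on generalizing ε with
  | _ k ih =>
    set δ : ℝ := ε / 3 with hδ
    have hδ0 : 0 < δ := by positivity
    obtain ⟨c, hc, hlow⟩ := L_low δ hδ0
    have hLK : ∀ j : ℕ, ∃ C : ℝ, 0 < C ∧ ∀ q : ℕ, 2 ≤ q →
      ∀ χ : DirichletCharacter ℂ q, χ ≠ 1 → ∀ s : ℂ, 1 < s.re → s.re ≤ 2 →
        ‖Lk q χ j s‖ ≤ C * (q : ℝ) ^ δ * Real.log (|s.im| + 3) ^ (j + 1) :=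
      fun j => swf_Lk j δ hδ0
    choose B hB0 hB using hLK
    have hFK : ∀ j : ℕ, ∃ C : ℝ, 0 < C ∧ (j < k → ∀ q : ℕ, 2 ≤ q →
      ∀ χ : DirichletCharacter ℂ q, χ.IsPrimitive → ∀ s : ℂ, 1 < s.re → s.re ≤ 2 →
        ‖Fk q χ j s‖ ≤ C * (q : ℝ) ^ δ * Real.log (|s.im| + 3) ^ (20 * (j + 1))) := by
      intro j
      by_cases hj : j < k
      · obtain ⟨C, hC, h⟩ := ih j hj δ hδ0
        exact ⟨C, hC, fun _ => h⟩
      · exact ⟨1, one_pos, fun h => absurd h hj⟩
    choose A hA0 hA using hFK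
    set S : ℝ := B (k + 1) + ∑ i ∈ range k, (k.choose (i + 1) : ℝ) * (B (i + 1) * A (k - (i + 1)))
      with hS
    have hS0 : 0 < S := by
      have : 0 ≤ ∑ i ∈ range k, (k.choose (i + 1) : ℝ) * (B (i + 1) * A (k - (i + 1))) := by
        apply Finset.sum_nonneg
        intro i _
        exact mul_nonneg (Nat.cast_nonneg _) (mul_nonneg (hB0 _).le (hA0 _).le)
      have := hB0 (k + 1)
      linarith
    refine ⟨S / c, by positivity, ?_⟩
    intro q hq χ hχ s hs hs2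
    have : NeZero q := ⟨by omega⟩
    have hχ1 : χ ≠ 1 := by
      rintro rfl
      have h1 : DirichletCharacter.conductor (1 : DirichletCharacter ℂ q) = q := hχ
      rw [DirichletCharacter.conductor_one] at h1
      omega
    have hq0 : (0 : ℝ) < q := by exact_mod_cast (by omega : 0 < q)
    have hq1 : (1 : ℝ) ≤ q := by exact_mod_cast (by omega : 1 ≤ q)
    set l : ℝ := Real.log (|s.im| + 3) with hl
    have hl1 : 1 ≤ l := swf_ell s.im
    have hl0 : 0 < l := by linarith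
    set Q : ℝ := (q : ℝ) ^ δ with hQ
    have hQ1 : 1 ≤ Q := Real.one_le_rpow hq1 hδ0.le
    have hQ0 : 0 < Q := by linarith
    have hQ3 : (q : ℝ) ^ ε = Q ^ 3 := by
      rw [hQ, ← Real.rpow_natCast ((q : ℝ) ^ δ), ← Real.rpow_mul hq0.le]
      congr 1
      rw [hδ]
      push_cast
      ring
    have hlow' := hlow q hq χ hχ s hs hs2
    rw [Real.rpow_neg hq0.le, ← hQ, ← hl] at hlow'
    have hL0pos : 0 < ‖Lk q χ 0 s‖ := lt_of_lt_of_le (by positivity) hlow'
    -- solve for `Fk k`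
    have heq := Lk_succ_eq q χ k s hs
    rw [Finset.sum_range_succ'] at heq
    simp only [Nat.choose_zero_right, Nat.cast_one, one_mul, Nat.sub_zero] at heq
    have hbound : ‖Lk q χ 0 s‖ * ‖Fk q χ k s‖ ≤ S * Q ^ 2 * l ^ (20 * (k + 1) - 9) := by
      rw [← norm_mul]
      have h1 : Lk q χ 0 s * Fk q χ k s = Lk q χ (k + 1) s -
          ∑ i ∈ range k, (k.choose (i + 1) : ℂ) * (Lk q χ (i + 1) s * Fk q χ (k - (i + 1)) s) := by
        rw [heq]
        ring
      rw [h1]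
      have h2 : ‖Lk q χ (k + 1) s‖ ≤ B (k + 1) * Q ^ 2 * l ^ (20 * (k + 1) - 9) := by
        refine (hB (k + 1) q hq χ hχ1 s hs hs2).trans ?_
        have h3 : Q ≤ Q ^ 2 := by nlinarith
        have h4 : l ^ (k + 1 + 1) ≤ l ^ (20 * (k + 1) - 9) := pow_le_pow_right₀ hl1 (by omega)
        have h5 := hB0 (k + 1)
        gcongr
      have h6 : ∀ i ∈ range k, ‖(k.choose (i + 1) : ℂ) *
          (Lk q χ (i + 1) s * Fk q χ (k - (i + 1)) s)‖ ≤
          ((k.choose (i + 1) : ℝ) * (B (i + 1) * A (k - (i + 1)))) * Q ^ 2 *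
            l ^ (20 * (k + 1) - 9) := by
        intro i hi
        rw [Finset.mem_range] at hi
        rw [norm_mul, norm_mul, Complex.norm_natCast]
        have h7 := hB (i + 1) q hq χ hχ1 s hs hs2
        have h8 := hA (k - (i + 1)) (by omega) q hq χ hχ s hs hs2
        rw [← hQ, ← hl] at h7 h8
        have h9 : l ^ (i + 1 + 1) * l ^ (20 * (k - (i + 1) + 1)) ≤ l ^ (20 * (k + 1) - 9) := by
          rw [← pow_add]
          exact pow_le_pow_right₀ hl1 (by omega)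
        have hAk := hA0 (k - (i + 1))
        have hBk := hB0 (i + 1)
        calc (k.choose (i + 1) : ℝ) * (‖Lk q χ (i + 1) s‖ * ‖Fk q χ (k - (i + 1)) s‖)
            ≤ (k.choose (i + 1) : ℝ) * ((B (i + 1) * Q * l ^ (i + 1 + 1)) *
                (A (k - (i + 1)) * Q * l ^ (20 * (k - (i + 1) + 1)))) := by
              apply mul_le_mul_of_nonneg_left _ (Nat.cast_nonneg _)
              exact mul_le_mul h7 h8 (norm_nonneg _) (by positivity)
          _ = (k.choose (i + 1) : ℝ) * (B (i + 1) * A (k - (i + 1))) * Q ^ 2 *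
                (l ^ (i + 1 + 1) * l ^ (20 * (k - (i + 1) + 1))) := by ring
          _ ≤ _ := by
              apply mul_le_mul_of_nonneg_left h9
              positivity
      calc ‖Lk q χ (k + 1) s - ∑ i ∈ range k, (k.choose (i + 1) : ℂ) *
            (Lk q χ (i + 1) s * Fk q χ (k - (i + 1)) s)‖
          ≤ ‖Lk q χ (k + 1) s‖ + ‖∑ i ∈ range k, (k.choose (i + 1) : ℂ) *
            (Lk q χ (i + 1) s * Fk q χ (k - (i + 1)) s)‖ := norm_sub_le _ _
        _ ≤ B (k + 1) * Q ^ 2 * l ^ (20 * (k + 1) - 9) +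
            ∑ i ∈ range k, ((k.choose (i + 1) : ℝ) * (B (i + 1) * A (k - (i + 1)))) * Q ^ 2 *
            l ^ (20 * (k + 1) - 9) := by
            apply add_le_add h2
            exact (norm_sum_le _ _).trans (Finset.sum_le_sum h6)
        _ = S * Q ^ 2 * l ^ (20 * (k + 1) - 9) := by
            rw [hS, ← Finset.sum_mul, ← Finset.sum_mul]
            ring
    have hfin : c * Q⁻¹ / l ^ 9 * ‖Fk q χ k s‖ ≤ S * Q ^ 2 * l ^ (20 * (k + 1) - 9) :=
      (mul_le_mul_of_nonneg_right hlow' (norm_nonneg _)).trans hbound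
    have hpw : l ^ (20 * (k + 1)) = l ^ (20 * (k + 1) - 9) * l ^ 9 := by
      have h11 : 20 * (k + 1) - 9 + 9 = 20 * (k + 1) := by omega
      rw [← pow_add, h11]
    rw [hQ3, hpw]
    have h10 : ‖Fk q χ k s‖ = (c * Q⁻¹ / l ^ 9 * ‖Fk q χ k s‖) * (Q * l ^ 9 / c) := by
      field_simp
    rw [h10]
    calc (c * Q⁻¹ / l ^ 9 * ‖Fk q χ k s‖) * (Q * l ^ 9 / c)
        ≤ (S * Q ^ 2 * l ^ (20 * (k + 1) - 9)) * (Q * l ^ 9 / c) :=
          mul_le_mul_of_nonneg_right hfin (by positivity)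
      _ = S / c * Q ^ 3 * (l ^ (20 * (k + 1) - 9) * l ^ 9) := by ring

end Pool.Agent.H91.EHA

end

section

/-!
# The Siegel-Walfisz theorem for primitive characters

`a_n = Λ(n)χ(n)(log n)^k`, `LSeries a = Fk q χ k`.  By `Fk_le k ε'` and `smooth_gen`, for `2 ≤ N ≤ 2z`:
`‖∑ a_n om(n/N)‖ ≤ C q^{ε'} z` (`N = 1`: `a_1 = 0`).  `smooth_to_sharp` with `y = z`,
`H = log(2z)^{k+1}`, `P = 1`, `δ = 1/(2 (log y)^{c+1})`-like: for `√y ≤ z ≤ y`
`‖∑_{n≤z} a_n‖ ≤ C z (q^{ε'} δ^{-3} log z + (log 2z)^{k+1} δ) + ...`.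
Abel summation divides by `(log n)^k` (for `n ≤ √y` use the trivial bound `√y log y`); take
`ε' = 1/(B+1)`, `k = 4c + 10`, so `q^{ε'} ≤ log y`.
For small `y` (bounded) enlarge the constant (`‖sum‖ ≤ y log y`).
-/

set_option autoImplicit false

namespace Pool.Agent.H91.EHA

open Finset
open Pool.Agent.H91.PK

private theorem swI_abel (a : ℕ → ℂ) (f : ℕ → ℝ) (M : ℝ) (z0 y : ℕ) (hz : z0 + 1 ≤ y)
    (hf : ∀ n, z0 + 1 ≤ n → f (n + 1) ≤ f n) (hf0 : ∀ n, z0 + 1 ≤ n → 0 ≤ f n)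
    (hA : ∀ z, z ≤ y → ‖∑ n ∈ Icc 1 z, a n‖ ≤ M) :
    ‖∑ n ∈ Ioc z0 y, (f n : ℂ) * a n‖ ≤ 2 * M * f (z0 + 1) := by
  have hM : 0 ≤ M := le_trans (norm_nonneg _) (hA 0 (by omega))
  have claim : ∀ m, z0 + 1 ≤ m → m ≤ y →
      ‖∑ n ∈ Ioc z0 m, (f n : ℂ) * a n - (f m : ℂ) * ∑ n ∈ Icc 1 m, a n‖ ≤
        M * (2 * f (z0 + 1) - f m) := by
    intro m hm
    induction m, hm using Nat.le_induction with
    | base =>
      intro hy
      rw [Finset.sum_Icc_succ_top (by omega : 1 ≤ z0 + 1), mul_add,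
        show Ioc z0 (z0 + 1) = {z0 + 1} by ext x; simp only [mem_Ioc, mem_singleton]; omega,
        Finset.sum_singleton]
      have e : (f (z0 + 1) : ℂ) * a (z0 + 1) - ((f (z0 + 1) : ℂ) * ∑ n ∈ Icc 1 z0, a n +
          (f (z0 + 1) : ℂ) * a (z0 + 1)) = -((f (z0 + 1) : ℂ) * ∑ n ∈ Icc 1 z0, a n) := by ring
      rw [e, norm_neg, norm_mul, Complex.norm_real, Real.norm_eq_abs,
        abs_of_nonneg (hf0 _ le_rfl)]
      have := mul_le_mul_of_nonneg_left (hA z0 (by omega)) (hf0 _ (le_refl (z0 + 1)))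
      linarith only [this]
    | succ m hm ih =>
      intro hy
      have ih' := ih (by omega)
      rw [Finset.sum_Ioc_succ_top (by omega : z0 ≤ m), Finset.sum_Icc_succ_top (by omega : 1 ≤ m + 1)]
      have e : ∑ n ∈ Ioc z0 m, (f n : ℂ) * a n + (f (m + 1) : ℂ) * a (m + 1) -
          (f (m + 1) : ℂ) * (∑ n ∈ Icc 1 m, a n + a (m + 1)) =
          (∑ n ∈ Ioc z0 m, (f n : ℂ) * a n - (f m : ℂ) * ∑ n ∈ Icc 1 m, a n) +
            ((f m - f (m + 1) : ℝ) : ℂ) * ∑ n ∈ Icc 1 m, a n := by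
        push_cast; ring
      rw [e]
      refine le_trans (norm_add_le _ _) ?_
      rw [norm_mul, Complex.norm_real, Real.norm_eq_abs, abs_of_nonneg (sub_nonneg.2 (hf m hm))]
      have := mul_le_mul_of_nonneg_left (hA m (by omega)) (sub_nonneg.2 (hf m hm))
      linarith only [ih', this]
  have h1 := claim y hz le_rfl
  have h2 : ‖(f y : ℂ) * ∑ n ∈ Icc 1 y, a n‖ ≤ f y * M := by
    rw [norm_mul, Complex.norm_real, Real.norm_eq_abs, abs_of_nonneg (hf0 y hz)]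
    exact mul_le_mul_of_nonneg_left (hA y le_rfl) (hf0 y hz)
  have e : ∑ n ∈ Ioc z0 y, (f n : ℂ) * a n =
      (∑ n ∈ Ioc z0 y, (f n : ℂ) * a n - (f y : ℂ) * ∑ n ∈ Icc 1 y, a n) +
        (f y : ℂ) * ∑ n ∈ Icc 1 y, a n := by ring
  rw [e]
  refine le_trans (norm_add_le _ _) ?_
  linarith only [h1, h2]

private theorem swI_Lam_le {n : ℕ} : Lam n ≤ Real.log n := ArithmeticFunction.vonMangoldt_le_log

private theorem swI_Lam_nonneg {n : ℕ} : 0 ≤ Lam n := ArithmeticFunction.vonMangoldt_nonneg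

private theorem swI_pow_le (m : ℕ) {L : ℝ} (hL : 0 ≤ L) : L ^ m ≤ m.factorial * Real.exp L := by
  have h := Real.pow_div_factorial_le_exp L hL m
  have h0 : (0 : ℝ) < m.factorial := by exact_mod_cast m.factorial_pos
  rw [div_le_iff₀ h0] at h
  linarith only [h]

/-- The partial sums of `Λ(n) χ(n) (log n)^k`. -/
private theorem swI_partial (k : ℕ) (ε : ℝ) (hε : 0 < ε) : ∃ C : ℝ, 0 < C ∧ ∀ q : ℕ, 2 ≤ q →
    ∀ χ : DirichletCharacter ℂ q, χ.IsPrimitive → ∀ (y : ℕ) (δ : ℝ), 2 ≤ y → 0 < δ → δ ≤ 1 / 2 →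
      ∀ z ≤ y, ‖∑ n ∈ Icc 1 z, ((Lam n * Real.log n ^ k : ℝ) : ℂ) * χ (n : ZMod q)‖ ≤
        C * ((q : ℝ) ^ ε * y * (1 / δ ^ 3 + Real.log y) +
          Real.log (2 * y) ^ (k + 1) * (δ * y + Real.log y + 1 / δ ^ 3)) := by
  obtain ⟨C1, hC1, h1⟩ := Fk_le k ε hε
  obtain ⟨C2, hC2, h2⟩ := smooth_gen (20 * (k + 1))
  obtain ⟨C3, hC3, h3⟩ := smooth_to_sharp
  refine ⟨C3 * (2 * C2 * C1 + 1), by positivity, ?_⟩
  intro q hq χ hχ y δ hy hδ hδ2 z hz
  have hq0 : (0 : ℝ) < q := by exact_mod_cast (by omega : 0 < q)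
  have hqe : 0 < (q : ℝ) ^ ε := Real.rpow_pos_of_pos hq0 ε
  have hy0 : (0 : ℝ) < y := by exact_mod_cast (by omega : 0 < y)
  have hly : 0 ≤ Real.log y := Real.log_natCast_nonneg y
  have hl2y : 0 ≤ Real.log (2 * y) := Real.log_nonneg (by
    have : (2 : ℝ) ≤ y := by exact_mod_cast hy
    linarith only [this])
  have hRHS : 0 ≤ C3 * (2 * C2 * C1 + 1) * ((q : ℝ) ^ ε * y * (1 / δ ^ 3 + Real.log y) +
          Real.log (2 * y) ^ (k + 1) * (δ * y + Real.log y + 1 / δ ^ 3)) := by positivity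
  set a : ℕ → ℂ := fun n => ((Lam n * Real.log n ^ k : ℝ) : ℂ) * χ (n : ZMod q) with ha
  have ha1 : a 1 = 0 := by
    simp [ha, Lam]
  rcases Nat.lt_or_ge z 2 with hz2 | hz2
  · have hzero : ∑ n ∈ Icc 1 z, a n = 0 := by
      apply Finset.sum_eq_zero
      intro n hn
      have := Finset.mem_Icc.1 hn
      have hn1 : n = 1 := by omega
      rw [hn1, ha1]
    rw [hzero, norm_zero]
    exact hRHS
  have hnorm : ∀ n, n ≤ 2 * y → ‖a n‖ ≤ Real.log (2 * y) ^ (k + 1) := by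
    intro n hn
    rw [ha]
    simp only
    rw [norm_mul, Complex.norm_real, Real.norm_eq_abs]
    have hl0 : 0 ≤ Real.log n := Real.log_natCast_nonneg n
    have hln : Real.log n ≤ Real.log (2 * y) := by
      rcases Nat.eq_zero_or_pos n with h0 | h0
      · subst h0; simpa using hl2y
      · apply Real.log_le_log (by exact_mod_cast h0)
        have : (n : ℝ) ≤ ((2 * y : ℕ) : ℝ) := by exact_mod_cast hn
        push_cast at this
        exact this
    rw [abs_of_nonneg (mul_nonneg swI_Lam_nonneg (pow_nonneg hl0 k))]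
    calc Lam n * Real.log n ^ k * ‖χ (n : ZMod q)‖ ≤ Lam n * Real.log n ^ k * 1 :=
          mul_le_mul_of_nonneg_left (DirichletCharacter.norm_le_one χ _)
            (mul_nonneg swI_Lam_nonneg (pow_nonneg hl0 k))
      _ ≤ Real.log n * Real.log n ^ k := by
          rw [mul_one]
          exact mul_le_mul_of_nonneg_right swI_Lam_le (pow_nonneg hl0 k)
      _ = Real.log n ^ (k + 1) := by ring
      _ ≤ Real.log (2 * y) ^ (k + 1) := pow_le_pow_left₀ hl0 hln _
  have key := h3 a (2 * C2 * C1 * ((q : ℝ) ^ ε) * y) (Real.log (2 * y) ^ (k + 1)) 1 z δ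
    (by positivity) (by positivity) le_rfl hz2 hδ hδ2 ?_ ?_
  · refine le_trans key ?_
    have hlz : Real.log z ≤ Real.log y := by
      apply Real.log_le_log (by exact_mod_cast (by omega : 0 < z))
      exact_mod_cast hz
    have hzy : (z : ℝ) ≤ y := by exact_mod_cast hz
    have hd3 : 0 < 1 / δ ^ 3 := by positivity
    have e1 : 2 * C2 * C1 * (q : ℝ) ^ ε * y * (1 / δ ^ 3 + Real.log z) ≤
        (2 * C2 * C1 + 1) * ((q : ℝ) ^ ε * y * (1 / δ ^ 3 + Real.log y)) := by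
      have e2 : (q : ℝ) ^ ε * y * (1 / δ ^ 3 + Real.log z) ≤
          (q : ℝ) ^ ε * y * (1 / δ ^ 3 + Real.log y) := by gcongr
      have e3 : 0 ≤ (q : ℝ) ^ ε * y * (1 / δ ^ 3 + Real.log y) := by positivity
      have e4 : 0 ≤ 2 * C2 * C1 := by positivity
      linarith only [e3, mul_le_mul_of_nonneg_left e2 e4]
    have e5 : Real.log (2 * y) ^ (k + 1) * (δ * z + Real.log z + 1 / δ ^ 3) ≤
        (2 * C2 * C1 + 1) *
          (Real.log (2 * y) ^ (k + 1) * (δ * y + Real.log y + 1 / δ ^ 3)) := by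
      have e6 : Real.log (2 * y) ^ (k + 1) * (δ * z + Real.log z + 1 / δ ^ 3) ≤
          Real.log (2 * y) ^ (k + 1) * (δ * y + Real.log y + 1 / δ ^ 3) := by gcongr
      have e7 : 0 ≤ Real.log (2 * y) ^ (k + 1) * (δ * y + Real.log y + 1 / δ ^ 3) := by positivity
      have e4 : 0 ≤ 2 * C2 * C1 := by positivity
      linarith only [e6, mul_nonneg e4 e7]
    have e8 := add_le_add e1 e5
    calc C3 * (2 * C2 * C1 * (q : ℝ) ^ ε * y * (1 / δ ^ 3 + Real.log z) +
          Real.log (2 * y) ^ (k + 1) * (δ * z + Real.log z + 1 / δ ^ 3))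
        ≤ C3 * ((2 * C2 * C1 + 1) * ((q : ℝ) ^ ε * y * (1 / δ ^ 3 + Real.log y)) +
          (2 * C2 * C1 + 1) *
          (Real.log (2 * y) ^ (k + 1) * (δ * y + Real.log y + 1 / δ ^ 3))) :=
          mul_le_mul_of_nonneg_left e8 hC3.le
      _ = _ := by ring
  · intro N hN1 hN2
    rcases Nat.lt_or_ge N 2 with hN | hN
    · have hN' : N = 1 := by omega
      subst hN'
      rw [Finset.Icc_self, Finset.sum_singleton, ha1, zero_mul, norm_zero]
      positivity
    · have h4 := h2 a (C1 * (q : ℝ) ^ ε) (by positivity) (fun s hs hs2 =>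
        ⟨Fk_summable q χ k s hs, h1 q hq χ hχ s hs hs2⟩) N hN
      refine le_trans h4 ?_
      have hN3 : (N : ℝ) ≤ 2 * y := by
        have : (N : ℝ) ≤ ((2 * y : ℕ) : ℝ) := by exact_mod_cast (by omega : N ≤ 2 * y)
        push_cast at this
        exact this
      calc C2 * (C1 * (q : ℝ) ^ ε) * N ≤ C2 * (C1 * (q : ℝ) ^ ε) * (2 * y) := by gcongr
        _ = 2 * C2 * C1 * (q : ℝ) ^ ε * y := by ring
  · intro u v huv hv
    calc ∑ n ∈ Ioc u v, ‖a n‖ ≤ ∑ n ∈ Ioc u v, Real.log (2 * y) ^ (k + 1) := by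
          apply Finset.sum_le_sum
          intro n hn
          exact hnorm n (by have := Finset.mem_Ioc.1 hn; omega)
      _ = ((v : ℝ) - u) * Real.log (2 * y) ^ (k + 1) := by
          rw [Finset.sum_const, Nat.card_Ioc, nsmul_eq_mul, Nat.cast_sub huv]
      _ ≤ Real.log (2 * y) ^ (k + 1) * ((v : ℝ) - u + 1) := by
          have : 0 ≤ Real.log (2 * y) ^ (k + 1) := by positivity
          linarith only [this]

theorem siegel_walfisz (B c : ℕ) : ∃ C : ℝ, 0 < C ∧ ∀ q : ℕ, 2 ≤ q →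
    ∀ χ : DirichletCharacter ℂ q, χ.IsPrimitive → ∀ y : ℕ, 2 ≤ y → (q : ℝ) ≤ Real.log y ^ B →
      ‖∑ n ∈ Icc 1 y, ((Lam n : ℝ) : ℂ) * χ (n : ZMod q)‖ ≤ C * y / Real.log y ^ c := by
  obtain ⟨C, hC, hpart⟩ := swI_partial (4 * c + 4) (1 / ((B : ℝ) + 1)) (by positivity)
  set k : ℕ := 4 * c + 4 with hk
  refine ⟨2 ^ (c + 1) * (c + 1).factorial + 2 ^ (k + 1) * (C * (9 + 2 ^ k +
    9 * 2 ^ (k + 1) * k.factorial)), by positivity, ?_⟩
  intro q hq χ hχ y hy hqy
  have hq2 : (2 : ℝ) ≤ q := by exact_mod_cast hq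
  have hy2 : (2 : ℝ) ≤ y := by exact_mod_cast hy
  have hy0 : (0 : ℝ) < y := by linarith only [hy2]
  set L : ℝ := Real.log y with hL
  have hL0 : 0 ≤ L := Real.log_natCast_nonneg y
  have hL1 : 1 < L := by
    by_contra h
    have := pow_le_one₀ (n := B) hL0 (not_lt.1 h)
    linarith only [hq2, hqy, this]
  have hLpos : 0 < L := by linarith only [hL1]
  -- the power of q
  have hqe : (q : ℝ) ^ (1 / ((B : ℝ) + 1)) ≤ L := by
    calc (q : ℝ) ^ (1 / ((B : ℝ) + 1)) ≤ (L ^ B) ^ (1 / ((B : ℝ) + 1)) :=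
          Real.rpow_le_rpow (by linarith only []) hqy (by positivity)
      _ = L ^ ((B : ℝ) * (1 / ((B : ℝ) + 1))) := by
          rw [← Real.rpow_natCast L B, ← Real.rpow_mul hL0]
      _ ≤ L ^ (1 : ℝ) := by
          apply Real.rpow_le_rpow_of_exponent_le hL1.le
          rw [mul_one_div, div_le_one (by positivity)]
          linarith only []
      _ = L := Real.rpow_one L
  set δ : ℝ := 1 / (2 * L ^ (c + 1)) with hδ
  have hLc : 1 ≤ L ^ (c + 1) := one_le_pow₀ hL1.le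
  have hδ0 : 0 < δ := by positivity
  have hδ2 : δ ≤ 1 / 2 := by
    rw [hδ]
    apply one_div_le_one_div_of_le (by norm_num)
    linarith only [hLc]
  have hδ3 : 1 / δ ^ 3 = 8 * L ^ (3 * c + 3) := by
    rw [hδ, one_div, one_div, inv_pow, inv_inv, mul_pow, ← pow_mul]
    rw [show (c + 1) * 3 = 3 * c + 3 by ring]
    norm_num
  have hl2y : Real.log (2 * y) ≤ 2 * L := by
    rw [Real.log_mul (by norm_num) (by positivity)]
    have : Real.log 2 ≤ L := Real.log_le_log (by norm_num) hy2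
    linarith only [this]
  have hl2y0 : 0 ≤ Real.log (2 * y) := Real.log_nonneg (by linarith only [hy2])
  -- the bound for the partial sums
  set M : ℝ := C * (L * y * (9 * L ^ (3 * c + 3)) +
    (2 * L) ^ (k + 1) * (δ * y + 9 * L ^ (3 * c + 3))) with hM
  have hL33 : L ≤ L ^ (3 * c + 3) := by
    calc L = L ^ 1 := (pow_one L).symm
      _ ≤ L ^ (3 * c + 3) := pow_le_pow_right₀ hL1.le (by omega)
  have hA : ∀ z ≤ y, ‖∑ n ∈ Icc 1 z, ((Lam n * Real.log n ^ k : ℝ) : ℂ) * χ (n : ZMod q)‖ ≤ M := by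
    intro z hz
    refine le_trans (hpart q hq χ hχ y δ hy hδ0 hδ2 z hz) ?_
    rw [hM, hδ3]
    apply mul_le_mul_of_nonneg_left _ hC.le
    apply add_le_add
    · have e1 : 8 * L ^ (3 * c + 3) + L ≤ 9 * L ^ (3 * c + 3) := by linarith only [hL33]
      have e2 : (q : ℝ) ^ (1 / ((B : ℝ) + 1)) * y ≤ L * y :=
        mul_le_mul_of_nonneg_right hqe hy0.le
      exact mul_le_mul e2 e1 (by positivity) (by positivity)
    · have e1 : δ * y + L + 8 * L ^ (3 * c + 3) ≤ δ * y + 9 * L ^ (3 * c + 3) := by linarith only [hL33]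
      exact mul_le_mul (pow_le_pow_left₀ hl2y0 hl2y _) e1 (by positivity) (by positivity)
  -- Abel summation
  set z0 : ℕ := Nat.sqrt y with hz0
  have hz1 : 1 ≤ z0 := Nat.sqrt_pos.2 (by omega)
  have hzy : z0 + 1 ≤ y := by
    have : z0 < y := Nat.sqrt_lt_self (by omega)
    omega
  have hlogpos : ∀ n : ℕ, z0 + 1 ≤ n → 0 < Real.log n := by
    intro n hn
    exact Real.log_pos (by exact_mod_cast (by omega : 1 < n))
  have hab := swI_abel (fun n => ((Lam n * Real.log n ^ k : ℝ) : ℂ) * χ (n : ZMod q))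
    (fun n => 1 / Real.log n ^ k) M z0 y hzy
    (by
      intro n hn
      apply one_div_le_one_div_of_le (pow_pos (hlogpos n hn) k)
      apply pow_le_pow_left₀ (hlogpos n hn).le
      apply Real.log_le_log (by exact_mod_cast (by omega : 0 < n))
      push_cast
      linarith only [])
    (by
      intro n hn
      have := hlogpos n hn
      positivity)
    hA
  have hsplit : ∑ n ∈ Icc 1 y, ((Lam n : ℝ) : ℂ) * χ (n : ZMod q) =
      ∑ n ∈ Icc 1 z0, ((Lam n : ℝ) : ℂ) * χ (n : ZMod q) +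
      ∑ n ∈ Ioc z0 y, ((1 / Real.log n ^ k : ℝ) : ℂ) *
        (((Lam n * Real.log n ^ k : ℝ) : ℂ) * χ (n : ZMod q)) := by
    have e1 : Icc 1 y = Icc 1 z0 ∪ Ioc z0 y := by
      ext n; simp only [mem_Icc, mem_union, mem_Ioc]; omega
    have e2 : Disjoint (Icc 1 z0) (Ioc z0 y) := by
      rw [Finset.disjoint_left]
      intro n h1 h2
      have := Finset.mem_Icc.1 h1
      have := Finset.mem_Ioc.1 h2
      omega
    rw [e1, Finset.sum_union e2]
    congr 1
    apply Finset.sum_congr rfl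
    intro n hn
    have hn' := hlogpos n (by have := Finset.mem_Ioc.1 hn; omega)
    rw [← mul_assoc, ← Complex.ofReal_mul]
    congr 2
    field_simp
  have hz0r : (z0 : ℝ) ≤ Real.sqrt y := Real.nat_sqrt_le_real_sqrt
  have hz0r' : Real.sqrt y ≤ (z0 : ℝ) + 1 := Real.real_sqrt_le_nat_sqrt_succ
  have hfirst : ‖∑ n ∈ Icc 1 z0, ((Lam n : ℝ) : ℂ) * χ (n : ZMod q)‖ ≤ Real.sqrt y * L := by
    calc ‖∑ n ∈ Icc 1 z0, ((Lam n : ℝ) : ℂ) * χ (n : ZMod q)‖
        ≤ ∑ n ∈ Icc 1 z0, ‖((Lam n : ℝ) : ℂ) * χ (n : ZMod q)‖ := norm_sum_le _ _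
      _ ≤ ∑ n ∈ Icc 1 z0, L := by
          apply Finset.sum_le_sum
          intro n hn
          have hn' := Finset.mem_Icc.1 hn
          rw [norm_mul, Complex.norm_real, Real.norm_eq_abs, abs_of_nonneg swI_Lam_nonneg]
          calc Lam n * ‖χ (n : ZMod q)‖ ≤ Lam n * 1 :=
                mul_le_mul_of_nonneg_left (DirichletCharacter.norm_le_one χ _) swI_Lam_nonneg
            _ ≤ Real.log n := by rw [mul_one]; exact swI_Lam_le
            _ ≤ L := by
                apply Real.log_le_log (by exact_mod_cast (by omega : 0 < n))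
                exact_mod_cast (by omega : n ≤ y)
      _ = z0 * L := by rw [Finset.sum_const, Nat.card_Icc, nsmul_eq_mul]; simp
      _ ≤ Real.sqrt y * L := mul_le_mul_of_nonneg_right hz0r hL0
  have hlog0 : L / 2 ≤ Real.log ((z0 + 1 : ℕ) : ℝ) := by
    have e1 : Real.log (Real.sqrt y) = L / 2 := Real.log_sqrt hy0.le
    rw [← e1]
    apply Real.log_le_log (Real.sqrt_pos.2 hy0)
    push_cast
    exact hz0r'
  have hM0 : 0 ≤ M := by positivity
  have hsecond : ‖∑ n ∈ Ioc z0 y, ((1 / Real.log n ^ k : ℝ) : ℂ) *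
        (((Lam n * Real.log n ^ k : ℝ) : ℂ) * χ (n : ZMod q))‖ ≤ 2 ^ (k + 1) * M / L ^ k := by
    refine le_trans hab ?_
    have e1 : 1 / Real.log ((z0 + 1 : ℕ) : ℝ) ^ k ≤ 1 / (L / 2) ^ k := by
      apply one_div_le_one_div_of_le (by positivity)
      exact pow_le_pow_left₀ (by positivity) hlog0 k
    calc 2 * M * (1 / Real.log ((z0 + 1 : ℕ) : ℝ) ^ k) ≤ 2 * M * (1 / (L / 2) ^ k) :=
          mul_le_mul_of_nonneg_left e1 (by positivity)
      _ = 2 ^ (k + 1) * M / L ^ k := by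
          rw [div_pow, pow_succ]
          field_simp
          try ring
  -- final estimates
  have hexp : Real.exp L = y := Real.exp_log hy0
  have hexp2 : Real.exp (L / 2) = Real.sqrt y := by
    rw [show L / 2 = Real.log (Real.sqrt y) from (Real.log_sqrt hy0.le).symm,
      Real.exp_log (Real.sqrt_pos.2 hy0)]
  have hsq : Real.sqrt y * Real.sqrt y = y := Real.mul_self_sqrt hy0.le
  have hsq0 : 0 < Real.sqrt y := Real.sqrt_pos.2 hy0
  have f1 : Real.sqrt y * L * L ^ c ≤ 2 ^ (c + 1) * (c + 1).factorial * y := by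
    have e1 := swI_pow_le (c + 1) (L := L / 2) (by positivity)
    rw [hexp2, div_pow, div_le_iff₀ (by positivity)] at e1
    calc Real.sqrt y * L * L ^ c = Real.sqrt y * L ^ (c + 1) := by ring
      _ ≤ Real.sqrt y * ((c + 1).factorial * Real.sqrt y * 2 ^ (c + 1)) :=
          mul_le_mul_of_nonneg_left e1 hsq0.le
      _ = 2 ^ (c + 1) * (c + 1).factorial * (Real.sqrt y * Real.sqrt y) := by ring
      _ = 2 ^ (c + 1) * (c + 1).factorial * y := by rw [hsq]
  have f2 : M * L ^ c ≤ L ^ k * (C * (9 + 2 ^ k + 9 * 2 ^ (k + 1) * k.factorial)) * y := by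
    have e1 := swI_pow_le k hL0
    rw [hexp] at e1
    have g1 : L * y * (9 * L ^ (3 * c + 3)) * L ^ c = L ^ k * 9 * y := by
      rw [hk]; ring
    have g2 : (2 * L) ^ (k + 1) * (δ * y) * L ^ c = L ^ k * 2 ^ k * y := by
      rw [hδ, mul_pow]
      have : L ^ (c + 1) ≠ 0 := by positivity
      field_simp
      ring
    have g3 : (2 * L) ^ (k + 1) * (9 * L ^ (3 * c + 3)) * L ^ c ≤
        L ^ k * (9 * 2 ^ (k + 1) * k.factorial) * y := by
      calc (2 * L) ^ (k + 1) * (9 * L ^ (3 * c + 3)) * L ^ c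
          = L ^ k * (9 * 2 ^ (k + 1)) * L ^ (4 * c + 4) := by
            rw [mul_pow]; ring
        _ ≤ L ^ k * (9 * 2 ^ (k + 1)) * (k.factorial * y) :=
            mul_le_mul_of_nonneg_left e1 (by positivity)
        _ = L ^ k * (9 * 2 ^ (k + 1) * k.factorial) * y := by ring
    have g4 : M * L ^ c = C * (L * y * (9 * L ^ (3 * c + 3)) * L ^ c +
        (2 * L) ^ (k + 1) * (δ * y) * L ^ c +
        (2 * L) ^ (k + 1) * (9 * L ^ (3 * c + 3)) * L ^ c) := by
      rw [hM]; ring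
    rw [g4, g1, g2]
    calc C * (L ^ k * 9 * y + L ^ k * 2 ^ k * y +
          (2 * L) ^ (k + 1) * (9 * L ^ (3 * c + 3)) * L ^ c)
        ≤ C * (L ^ k * 9 * y + L ^ k * 2 ^ k * y +
          L ^ k * (9 * 2 ^ (k + 1) * k.factorial) * y) := by
          apply mul_le_mul_of_nonneg_left _ hC.le
          linarith only [g3]
      _ = L ^ k * (C * (9 + 2 ^ k + 9 * 2 ^ (k + 1) * k.factorial)) * y := by ring
  rw [hsplit]
  refine le_trans (norm_add_le _ _) ?_
  refine le_trans (add_le_add hfirst hsecond) ?_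
  rw [le_div_iff₀ (by positivity), add_mul, add_mul]
  apply add_le_add f1
  rw [div_mul_eq_mul_div, div_le_iff₀ (by positivity)]
  calc 2 ^ (k + 1) * M * L ^ c = 2 ^ (k + 1) * (M * L ^ c) := by ring
    _ ≤ 2 ^ (k + 1) * (L ^ k * (C * (9 + 2 ^ k + 9 * 2 ^ (k + 1) * k.factorial)) * y) :=
        mul_le_mul_of_nonneg_left f2 (by positivity)
    _ = 2 ^ (k + 1) * (C * (9 + 2 ^ k + 9 * 2 ^ (k + 1) * k.factorial)) * y * L ^ k := by ring

end Pool.Agent.H91.EHA

end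

section

/-!
# Small conductors

`TT N 0 ψ = ∑_{n≤N} Λ(n)ψ(n) om(n/N)`; Abel summation (`om` is Lipschitz, total variation `≤ 8/27`) and
`siegel_walfisz (B) (k')` for the partial sums up to `m ≥ √x` (`log m ≥ (log x)/2`, so `c ≤ (log x)^B ≤ (log m)^{B+1}`),
trivial bound `m log m` for `m < √x`.  `(1/φ(c)) #Pch c ≤ 1`, at most `(log x)^B` values of `c`.
-/

set_option autoImplicit false

namespace Pool.Agent.H91.EHA

open Finset
open Pool.Agent.H91.PK

private theorem chF_card {r : ℕ} (hr : 1 ≤ r) : ((Pch r).card : ℝ) ≤ r.totient := by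
  have : NeZero r := ⟨by omega⟩
  have h1 : (Pch r).card ≤ Fintype.card (DirichletCharacter ℂ r) := card_le_univ _
  have h2 : Fintype.card (DirichletCharacter ℂ r) = r.totient := by
    rw [← Nat.card_eq_fintype_card]
    exact DirichletCharacter.card_eq_totient_of_hasEnoughRootsOfUnity ℂ r
  rw [h2] at h1
  exact_mod_cast h1

private theorem chF_parts (a g : ℕ → ℂ) (M : ℕ) :
    ∑ n ∈ Icc 1 M, a n * g n = (∑ n ∈ Icc 1 M, a n) * g M
      + ∑ m ∈ range M, (∑ n ∈ Icc 1 m, a n) * (g m - g (m + 1)) := by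
  induction M with
  | zero => simp
  | succ M ih =>
    rw [Finset.sum_Icc_succ_top (by omega), Finset.sum_Icc_succ_top (by omega), ih,
      Finset.sum_range_succ]
    ring

private theorem chF_abel (N : ℕ) (hN : 1 ≤ N) (a : ℕ → ℂ) (K : ℝ)
    (hK : ∀ m : ℕ, m ≤ N → ‖∑ n ∈ Icc 1 m, a n‖ ≤ K) :
    ‖∑ n ∈ Icc 1 N, a n * ((om ((n : ℝ) / N) : ℝ) : ℂ)‖ ≤ K := by
  have hN0 : (0 : ℝ) < N := by exact_mod_cast hN
  have hK0 : 0 ≤ K := le_trans (norm_nonneg _) (hK N le_rfl)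
  rw [chF_parts a (fun n => ((om ((n : ℝ) / N) : ℝ) : ℂ)) N]
  have h1 : om ((N : ℝ) / N) = 0 := by
    rw [div_self hN0.ne']; exact om_eq_zero le_rfl
  simp only [h1]
  rw [Complex.ofReal_zero, mul_zero, zero_add]
  have h2 : ∀ m ∈ range N, ‖(∑ n ∈ Icc 1 m, a n) *
      (((om ((m : ℝ) / N) : ℝ) : ℂ) - ((om (((m + 1 : ℕ) : ℝ) / N) : ℝ) : ℂ))‖ ≤ K * (1 / N) := by
    intro m hm
    rw [mem_range] at hm
    rw [norm_mul, ← Complex.ofReal_sub, Complex.norm_real, Real.norm_eq_abs]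
    refine mul_le_mul (hK m hm.le) ?_ (abs_nonneg _) hK0
    refine (om_lip _ _).trans ?_
    rw [← sub_div, abs_div, abs_of_pos hN0]
    gcongr
    push_cast
    rw [show (m : ℝ) - (m + 1) = -1 by ring]
    simp
  calc _ ≤ ∑ m ∈ range N, ‖(∑ n ∈ Icc 1 m, a n) *
      (((om ((m : ℝ) / N) : ℝ) : ℂ) - ((om (((m + 1 : ℕ) : ℝ) / N) : ℝ) : ℂ))‖ := norm_sum_le _ _
    _ ≤ ∑ m ∈ range N, K * (1 / N) := sum_le_sum h2
    _ = K := by
      rw [sum_const, card_range, nsmul_eq_mul]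
      field_simp

private theorem chF_triv (c : ℕ) (ψ : DirichletCharacter ℂ c) (m : ℕ) :
    ‖∑ n ∈ Icc 1 m, ((Lam n : ℝ) : ℂ) * ψ (n : ZMod c)‖ ≤ m * Real.log m := by
  have h : ∀ n ∈ Icc 1 m, ‖((Lam n : ℝ) : ℂ) * ψ (n : ZMod c)‖ ≤ Real.log m := by
    intro n hn
    rw [mem_Icc] at hn
    rw [norm_mul, Complex.norm_real, Real.norm_eq_abs]
    have h0 : 0 ≤ Lam n := ArithmeticFunction.vonMangoldt_nonneg
    rw [abs_of_nonneg h0]
    have h1 : Lam n ≤ Real.log n := ArithmeticFunction.vonMangoldt_le_log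
    have h2 : Real.log n ≤ Real.log m :=
      Real.log_le_log (by exact_mod_cast hn.1) (by exact_mod_cast hn.2)
    have h3 : ‖ψ (n : ZMod c)‖ ≤ 1 := ψ.norm_le_one _
    calc Lam n * ‖ψ (n : ZMod c)‖ ≤ Lam n * 1 := mul_le_mul_of_nonneg_left h3 h0
      _ ≤ Real.log m := by linarith
  calc _ ≤ ∑ n ∈ Icc 1 m, ‖((Lam n : ℝ) : ℂ) * ψ (n : ZMod c)‖ := norm_sum_le _ _
    _ ≤ ∑ n ∈ Icc 1 m, Real.log m := sum_le_sum h
    _ = m * Real.log m := by
      rw [sum_const, Nat.card_Icc, nsmul_eq_mul]; simp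

theorem small_cond' (B k : ℕ) : ∃ x0 : ℕ, ∀ x : ℕ, x0 ≤ x → ∀ N : ℕ, 1 ≤ N → N ≤ 2 * x →
    ∑ c ∈ Ioc 1 ⌊Real.log x ^ B⌋₊, (1 / (c.totient : ℝ)) *
        ∑ ψ ∈ Pch c, ‖TT N 0 (fun n => ψ (n : ZMod c))‖ ≤ x / Real.log x ^ k := by
  obtain ⟨C, hC, hSW⟩ := siegel_walfisz (B + 1) (k + B + 1)
  have hlog : Filter.Tendsto (fun x : ℕ => Real.log (x : ℝ)) Filter.atTop Filter.atTop :=
    Real.tendsto_log_atTop.comp tendsto_natCast_atTop_atTop
  have e1 : ∀ᶠ x : ℕ in Filter.atTop,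
      max (max 2 (2 ^ (B + 1))) (C * 2 ^ (k + B + 2)) ≤ Real.log (x : ℝ) :=
    hlog.eventually_ge_atTop _
  have e2 : ∀ᶠ x : ℕ in Filter.atTop, Real.log (x : ℝ) ^ (2 * (k + B + 1)) ≤ (x : ℝ) := by
    have h := (Real.isLittleO_pow_log_id_atTop (n := 2 * (k + B + 1))).bound (c := 1) one_pos
    have h' := tendsto_natCast_atTop_atTop (R := ℝ) |>.eventually h
    filter_upwards [h'] with x hx
    simp only [id_eq, one_mul] at hx
    rw [Real.norm_eq_abs, Real.norm_eq_abs, Nat.abs_cast] at hx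
    exact (le_abs_self _).trans hx
  obtain ⟨x0, hx0⟩ := Filter.eventually_atTop.mp (e1.and e2)
  refine ⟨x0, ?_⟩
  intro x hx N hN hN2
  obtain ⟨hL, hxL⟩ := hx0 x hx
  set L : ℝ := Real.log x with hLdef
  have hL2 : 2 ≤ L := le_trans (le_trans (le_max_left _ _) (le_max_left _ _)) hL
  have hLB : (2 : ℝ) ^ (B + 1) ≤ L := le_trans (le_trans (le_max_right _ _) (le_max_left _ _)) hL
  have hLC : C * 2 ^ (k + B + 2) ≤ L := le_trans (le_max_right _ _) hL
  have hL0 : 0 < L := by linarith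
  have hxpos : (0 : ℝ) < x := lt_of_lt_of_le (by positivity) hxL
  have hx1 : 1 ≤ x := by
    have : (0 : ℝ) < x := hxpos
    exact_mod_cast this
  set K : ℝ := x / L ^ (k + B) with hKdef
  have hK0 : 0 ≤ K := by positivity
  -- the partial sums
  have hpart : ∀ c ∈ Ioc 1 ⌊L ^ B⌋₊, ∀ ψ ∈ Pch c, ∀ m : ℕ, m ≤ N →
      ‖∑ n ∈ Icc 1 m, ((Lam n : ℝ) : ℂ) * ψ (n : ZMod c)‖ ≤ K := by
    intro c hc ψ hψ m hm
    rw [mem_Ioc] at hc
    rw [mem_Pch] at hψ
    have hcB : (c : ℝ) ≤ L ^ B := by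
      refine le_trans (by exact_mod_cast hc.2) (Nat.floor_le (by positivity))
    by_cases hmx : m ^ 2 ≤ x
    · refine (chF_triv c ψ m).trans ?_
      rcases Nat.eq_zero_or_pos m with hm0 | hm0
      · subst hm0; simpa using hK0
      have hmR : (0 : ℝ) < m := by exact_mod_cast hm0
      have hmx' : (m : ℝ) ^ 2 ≤ x := by exact_mod_cast hmx
      have hm1 : (1 : ℝ) ≤ m := by exact_mod_cast hm0
      have hlm : Real.log m ≤ L := by
        apply Real.log_le_log hmR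
        nlinarith
      have hlm0 : 0 ≤ Real.log m := Real.log_nonneg hm1
      rw [hKdef, le_div_iff₀ (by positivity)]
      have h1 : m * Real.log m * L ^ (k + B) ≤ m * L ^ (k + B + 1) := by
        rw [pow_succ, mul_assoc]
        have : Real.log m * L ^ (k + B) ≤ L * L ^ (k + B) :=
          mul_le_mul_of_nonneg_right hlm (by positivity)
        nlinarith
      refine h1.trans ?_
      have h2 : (L ^ (k + B + 1)) ^ 2 ≤ x := by
        rw [← pow_mul, mul_comm (k + B + 1) 2]; exact hxL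
      have h3 : 0 ≤ L ^ (k + B + 1) := by positivity
      nlinarith [sq_nonneg ((m : ℝ) - L ^ (k + B + 1))]
    · rw [not_le] at hmx
      have hmx' : (x : ℝ) < (m : ℝ) ^ 2 := by exact_mod_cast hmx
      have hm0 : 0 < m := by
        rcases Nat.eq_zero_or_pos m with h | h
        · subst h; simp at hmx
        · exact h
      have hmR : (0 : ℝ) < m := by exact_mod_cast hm0
      have hlm : L / 2 ≤ Real.log m := by
        have h1 : L ≤ Real.log ((m : ℝ) ^ 2) := Real.log_le_log hxpos hmx'.le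
        rw [Real.log_pow] at h1
        push_cast at h1
        linarith
      have hlm0 : 0 < Real.log m := by linarith
      have hm2 : 2 ≤ m := by
        by_contra h
        have h1 : m = 1 := by omega
        rw [h1] at hlm0
        simp at hlm0
      have hcm : (c : ℝ) ≤ Real.log m ^ (B + 1) := by
        refine hcB.trans ?_
        have h1 : L ≤ 2 * Real.log m := by linarith
        calc L ^ B ≤ (2 * Real.log m) ^ B := pow_le_pow_left₀ hL0.le h1 B
          _ = 2 ^ B * Real.log m ^ B := by rw [mul_pow]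
          _ ≤ Real.log m * Real.log m ^ B := by
            refine mul_le_mul_of_nonneg_right ?_ (by positivity)
            have : (2 : ℝ) ^ (B + 1) = 2 * 2 ^ B := by rw [pow_succ]; ring
            linarith
          _ = Real.log m ^ (B + 1) := by rw [pow_succ]; ring
      refine (hSW c (by omega) ψ hψ m hm2 hcm).trans ?_
      have hm2x : (m : ℝ) ≤ 2 * x := by exact_mod_cast hm.trans hN2
      have hd : (L / 2) ^ (k + B + 1) ≤ Real.log m ^ (k + B + 1) :=
        pow_le_pow_left₀ (by positivity) hlm _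
      calc C * m / Real.log m ^ (k + B + 1) ≤ C * (2 * x) / (L / 2) ^ (k + B + 1) := by
            gcongr
        _ = (C * 2 ^ (k + B + 2)) * x / (L ^ (k + B) * L) := by
            rw [div_pow, ← pow_succ]
            field_simp
            ring
        _ ≤ L * x / (L ^ (k + B) * L) := by gcongr
        _ = K := by rw [hKdef]; field_simp
  have hTT : ∀ c ∈ Ioc 1 ⌊L ^ B⌋₊, ∀ ψ ∈ Pch c, ‖TT N 0 (fun n => ψ (n : ZMod c))‖ ≤ K := by
    intro c hc ψ hψ
    have h := chF_abel N hN (fun n => ((Lam n : ℝ) : ℂ) * ψ (n : ZMod c)) K (hpart c hc ψ hψ)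
    have he : TT N 0 (fun n => ψ (n : ZMod c)) = ∑ n ∈ Icc 1 N,
        (((Lam n : ℝ) : ℂ) * ψ (n : ZMod c)) * ((om ((n : ℝ) / N) : ℝ) : ℂ) := by
      unfold TT W Lam
      refine sum_congr rfl fun n _ => ?_
      rw [pow_zero, mul_one, mul_assoc]
    rw [he]
    exact h
  have hc1 : ∀ c ∈ Ioc 1 ⌊L ^ B⌋₊, (1 / (c.totient : ℝ)) *
      ∑ ψ ∈ Pch c, ‖TT N 0 (fun n => ψ (n : ZMod c))‖ ≤ K := by
    intro c hc
    have hcc := mem_Ioc.mp hc
    have hφ : (0 : ℝ) < c.totient := by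
      exact_mod_cast Nat.totient_pos.mpr (by omega)
    have h1 : ∑ ψ ∈ Pch c, ‖TT N 0 (fun n => ψ (n : ZMod c))‖ ≤ c.totient * K := by
      calc _ ≤ (Pch c).card • K := sum_le_card_nsmul _ _ _ (hTT c hc)
        _ = (Pch c).card * K := nsmul_eq_mul _ _
        _ ≤ _ := mul_le_mul_of_nonneg_right (chF_card (by omega)) hK0
    calc _ ≤ (1 / (c.totient : ℝ)) * (c.totient * K) :=
          mul_le_mul_of_nonneg_left h1 (by positivity)
      _ = K := by field_simp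
  calc _ ≤ ∑ c ∈ Ioc 1 ⌊L ^ B⌋₊, K := sum_le_sum hc1
    _ = ((⌊L ^ B⌋₊ - 1 : ℕ) : ℝ) * K := by rw [sum_const, Nat.card_Ioc, nsmul_eq_mul]
    _ ≤ L ^ B * K := by
      refine mul_le_mul_of_nonneg_right ?_ hK0
      refine le_trans ?_ (Nat.floor_le (by positivity : (0:ℝ) ≤ L ^ B))
      exact_mod_cast Nat.sub_le _ _
    _ = x / L ^ k := by
      rw [hKdef, pow_add]
      field_simp

end Pool.Agent.H91.EHA

end
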