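import Pool.Agent.H15.TB1.M11
import Pool.Agent.H15.TB1.M65

/-! The parts of this file: H36.IS.Pnt. -/

section

/-!
# IS Pnt: the prime number theorem for (x, 2x]

From any form of the PNT in the pool (`Pool.Agent.H91.EHA` : `pnt'` is used in GMain.lean; or other finished files).
-/

set_option autoImplicit false

namespace Pool.Agent.H36.IS

open Finset Filter

open Chebyshev in
private theorem Pnt_psi (y : ℕ) : ∑ n ∈ Icc 1 y, (ArithmeticFunction.vonMangoldt n : ℝ) = psi y := by
  unfold psi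
  rw [Nat.floor_natCast]
  rfl

private theorem Pnt_theta_diff (x : ℕ) :
    DP x = (Nat.primesLE (2 * x) \ Nat.primesLE x).card ∧
    Chebyshev.theta ((2 * x : ℕ) : ℝ) - Chebyshev.theta x =
      ∑ p ∈ Nat.primesLE (2 * x) \ Nat.primesLE x, Real.log p := by
  have hsub : Nat.primesLE x ⊆ Nat.primesLE (2 * x) := by
    intro p hp
    rw [Nat.mem_primesLE] at hp ⊢
    exact ⟨hp.1.trans (by omega), hp.2⟩
  constructor
  · unfold DP
    rw [Finset.card_sdiff_of_subset hsub, Nat.cast_sub (Finset.card_le_card hsub)]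
    rw [Nat.primesLE_card_eq_primeCounting, Nat.primesLE_card_eq_primeCounting]
  · rw [Chebyshev.theta_eq_sum_primesLE_log, Chebyshev.theta_eq_sum_primesLE_log,
      ← Finset.sum_sdiff hsub]
    ring

private theorem Pnt_bounds {C : ℝ} (hC : 0 < C)
    (hp : ∀ y : ℕ, 2 ≤ y → |(∑ n ∈ Icc 1 y, (ArithmeticFunction.vonMangoldt n : ℝ)) - y| ≤
      C * y / Real.log y ^ 1) (x : ℕ) (hx : 2 ≤ x) :
    DP x * Real.log x ≤ x + 3 * C * x / Real.log x + 4 * √(2 * x) * Real.log (2 * x) ∧
    x - 3 * C * x / Real.log x - 4 * √(2 * x) * Real.log (2 * x) ≤ DP x * Real.log (2 * x) := by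
  have hx2 : (2 : ℝ) ≤ x := by exact_mod_cast hx
  have hx0 : (0 : ℝ) < x := by linarith only [hx2]
  have hlx : 0 < Real.log x := Real.log_pos (by linarith only [hx2])
  have hl2x : Real.log x ≤ Real.log (2 * x) := Real.log_le_log hx0 (by linarith only [])
  obtain ⟨h1, h2⟩ := Pnt_theta_diff x
  have p1 := abs_le.1 (hp x hx)
  have p2 := abs_le.1 (hp (2 * x) (by omega))
  rw [Pnt_psi] at p1 p2
  push_cast at p2 h2
  rw [pow_one] at p1 p2
  have q1 : C * (2 * x) / Real.log (2 * x) ≤ C * (2 * x) / Real.log x :=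
    div_le_div_of_nonneg_left (by positivity) hlx hl2x
  have q2 : C * (2 * x) / Real.log x = 2 * (C * x / Real.log x) := by ring
  have q3 : 3 * C * x / Real.log x = 3 * (C * x / Real.log x) := by ring
  have t1 := Chebyshev.psi_sub_theta_le (x := (x : ℝ)) (by linarith only [hx2])
  have t2 := Chebyshev.psi_sub_theta_le (x := 2 * (x : ℝ)) (by linarith only [hx2])
  have t3 := Chebyshev.theta_le_psi (x : ℝ)
  have t4 := Chebyshev.theta_le_psi (2 * (x : ℝ))
  have s1 : √(x : ℝ) ≤ √(2 * x) := Real.sqrt_le_sqrt (by linarith only [])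
  have s2 : 2 * √(x : ℝ) * Real.log x ≤ 2 * √(2 * x) * Real.log (2 * x) := by
    apply mul_le_mul _ hl2x hlx.le (by positivity)
    linarith only [s1]
  have s3 : 0 ≤ 2 * √(2 * (x : ℝ)) * Real.log (2 * x) := by
    have := hlx.le.trans hl2x
    positivity
  have mem : ∀ p ∈ Nat.primesLE (2 * x) \ Nat.primesLE x, x < p ∧ p ≤ 2 * x := by
    intro p hp
    rw [Finset.mem_sdiff, Nat.mem_primesLE, Nat.mem_primesLE] at hp
    refine ⟨?_, hp.1.1⟩
    by_contra h
    exact hp.2 ⟨by omega, hp.1.2⟩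
  have lo : DP x * Real.log x ≤ Chebyshev.theta (2 * (x : ℝ)) - Chebyshev.theta x := by
    rw [h2, h1, ← nsmul_eq_mul]
    refine Finset.card_nsmul_le_sum _ _ _ fun p hp => ?_
    exact Real.log_le_log hx0 (by exact_mod_cast (mem p hp).1.le)
  have hi : Chebyshev.theta (2 * (x : ℝ)) - Chebyshev.theta x ≤ DP x * Real.log (2 * x) := by
    rw [h2, h1, ← nsmul_eq_mul]
    refine Finset.sum_le_card_nsmul _ _ _ fun p hp => ?_
    have hpos : (0 : ℝ) < p := by
      have := (mem p hp).1
      exact_mod_cast (by omega : 0 < p)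
    exact Real.log_le_log hpos (by exact_mod_cast (mem p hp).2)
  constructor
  · linarith only [p1, p2, q1, q2, q3, t1, t2, t4, s2, lo]
  · linarith only [p1, p2, q1, q2, q3, t2, t3, t4, hi]

private theorem Pnt_lim (C : ℝ) : Tendsto (fun x : ℕ => 3 * C / Real.log x +
    4 * √(2 * x) * Real.log (2 * x) / x) atTop (nhds 0) := by
  have h1 : Tendsto (fun x : ℝ => Real.log x) atTop atTop := Real.tendsto_log_atTop
  have h2 : Tendsto (fun x : ℝ => 3 * C / Real.log x) atTop (nhds 0) :=
    tendsto_const_nhds.div_atTop h1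
  have h3 : Tendsto (fun x : ℝ => Real.log x / x ^ (1 / 2 : ℝ)) atTop (nhds 0) :=
    (isLittleO_log_rpow_atTop (by norm_num : (0 : ℝ) < 1 / 2)).tendsto_div_nhds_zero
  have h4 : Tendsto (fun x : ℝ => 2 * x) atTop atTop :=
    tendsto_id.const_mul_atTop (by norm_num : (0 : ℝ) < 2)
  have h5 : Tendsto (fun x : ℝ => Real.log (2 * x) / (2 * x) ^ (1 / 2 : ℝ)) atTop (nhds 0) :=
    h3.comp h4
  have h6 : Tendsto (fun x : ℝ => 3 * C / Real.log x +
      8 * (Real.log (2 * x) / (2 * x) ^ (1 / 2 : ℝ))) atTop (nhds (0 + 8 * 0)) :=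
    h2.add (h5.const_mul 8)
  rw [mul_zero, add_zero] at h6
  have h7 := h6.comp (tendsto_natCast_atTop_atTop (R := ℝ))
  refine h7.congr' ?_
  filter_upwards [eventually_gt_atTop 0] with x hx
  have hx0 : (0 : ℝ) < x := by exact_mod_cast hx
  simp only [Function.comp]
  congr 1
  rw [← Real.sqrt_eq_rpow]
  have hs : √(2 * (x : ℝ)) * √(2 * (x : ℝ)) = 2 * x := Real.mul_self_sqrt (by positivity)
  have hs0 : 0 < √(2 * (x : ℝ)) := Real.sqrt_pos.2 (by positivity)
  rw [mul_div_assoc', div_eq_div_iff hs0.ne' hx0.ne']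
  linear_combination (-4 * Real.log (2 * x)) * hs

theorem DP_pnt (ε : ℝ) (hε : 0 < ε) : ∀ᶠ x : ℕ in atTop,
    (1 - ε) * (x / Real.log x) ≤ DP x ∧ DP x ≤ (1 + ε) * (x / Real.log x) := by
  obtain ⟨C, hC, hp'⟩ := Pool.Agent.H91.EHA.pnt 1
  have hp : ∀ y : ℕ, 2 ≤ y → |(∑ n ∈ Icc 1 y, (ArithmeticFunction.vonMangoldt n : ℝ)) - y| ≤
      C * y / Real.log y ^ 1 := hp'
  have h1 := Pnt_lim C
  have h2 : Tendsto (fun x : ℕ => Real.log (2 * x) / Real.log x) atTop (nhds 1) := by
    have h3 : Tendsto (fun x : ℝ => Real.log 2 / Real.log x) atTop (nhds 0) :=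
      tendsto_const_nhds.div_atTop Real.tendsto_log_atTop
    have h4 : Tendsto (fun x : ℝ => Real.log 2 / Real.log x + 1) atTop (nhds (0 + 1)) :=
      h3.add tendsto_const_nhds
    rw [zero_add] at h4
    have h5 := h4.comp (tendsto_natCast_atTop_atTop (R := ℝ))
    refine h5.congr' ?_
    filter_upwards [eventually_gt_atTop 1] with x hx
    have hx1 : (1 : ℝ) < x := by exact_mod_cast hx
    have hl := Real.log_pos hx1
    simp only [Function.comp]
    rw [Real.log_mul (by norm_num) (by linarith only [hx1])]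
    field_simp
  have h3 : Tendsto (fun x : ℕ => (1 - ε) * (Real.log (2 * x) / Real.log x) +
      (3 * C / Real.log x + 4 * √(2 * x) * Real.log (2 * x) / x)) atTop
      (nhds ((1 - ε) * 1 + 0)) := (h2.const_mul _).add h1
  have e1 := h3.eventually_le_const (u := 1) (by linarith only [hε])
  have e2 := h1.eventually_le_const (u := ε) hε
  filter_upwards [e1, e2, eventually_ge_atTop 2] with x e1 e2 hx
  have hx2 : (2 : ℝ) ≤ x := by exact_mod_cast hx
  have hx0 : (0 : ℝ) < x := by linarith only [hx2]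
  have hlx : 0 < Real.log x := Real.log_pos (by linarith only [hx2])
  have hl2x : Real.log x ≤ Real.log (2 * x) := Real.log_le_log hx0 (by linarith only [])
  have hl2 : 0 < Real.log (2 * x) := hlx.trans_le hl2x
  obtain ⟨b1, b2⟩ := Pnt_bounds hC hp x hx
  set E : ℝ := 3 * C / Real.log x + 4 * √(2 * x) * Real.log (2 * x) / x with hE
  have hE2 : E * x = 3 * C * x / Real.log x + 4 * √(2 * x) * Real.log (2 * x) := by
    rw [hE]
    field_simp
  constructor
  · have h6 : (1 - E) * x ≤ DP x * Real.log (2 * x) := by linarith only [b2, hE2]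
    have h7 : (1 - ε) * (Real.log (2 * x) / Real.log x) * x ≤ (1 - E) * x :=
      mul_le_mul_of_nonneg_right (by linarith only [e1]) hx0.le
    have h8 : (1 - ε) * (x / Real.log x) * Real.log (2 * x) ≤ DP x * Real.log (2 * x) := by
      refine le_trans (le_of_eq ?_) (h7.trans h6)
      ring
    exact le_of_mul_le_mul_right h8 hl2
  · have h6 : DP x * Real.log x ≤ (1 + ε) * x := by
      have : E * x ≤ ε * x := mul_le_mul_of_nonneg_right e2 hx0.le
      linarith only [b1, hE2, this]
    rw [← mul_div_assoc, le_div_iff₀ hlx]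
    exact h6

end Pool.Agent.H36.IS

end
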