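import Pool.Agent.H15.TB1.M28
import Pool.Agent.H15.TB1.M65

/-! The parts of this file: H91.EHA.Main. -/

section

/-!
# Assembly over all moduli
-/

set_option autoImplicit false

namespace Pool.Agent.H91.EHA

open Finset
open Pool.Agent.H91.PK

/-- The prime number theorem, uniformly below `x`. -/
lemma pnt' (c : ℕ) : ∃ x0 : ℕ, ∀ x : ℕ, x0 ≤ x → ∀ t : ℕ, t ≤ x →
    |(∑ n ∈ Icc 1 t, Lam n) - t| ≤ x / Real.log x ^ c := by
  obtain ⟨C, hC, hp⟩ := pnt (c + 1)
  obtain ⟨x1, hx1⟩ := log_ge (max 2 (C * 2 ^ (c + 1)))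
  obtain ⟨x2, hx2⟩ := log_pow_le_rpow (c + 2) (1 / 2) (by norm_num)
  refine ⟨max (max x1 x2) 3, fun x hx t ht => ?_⟩
  have e1 : x1 ≤ x := le_trans (le_trans (le_max_left _ _) (le_max_left _ _)) hx
  have e2 : x2 ≤ x := le_trans (le_trans (le_max_right _ _) (le_max_left _ _)) hx
  have e3 : 3 ≤ x := le_trans (le_max_right _ _) hx
  have hx3' : (3 : ℝ) ≤ x := by exact_mod_cast e3
  have hxpos : (0 : ℝ) < x := by linarith
  have hxone : (1 : ℝ) ≤ x := by linarith
  set L : ℝ := Real.log x with hL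
  have hl := hx1 x e1
  have hL2 : 2 ≤ L := (le_max_left _ _).trans hl
  have hLC : C * 2 ^ (c + 1) ≤ L := (le_max_right _ _).trans hl
  have hLpos : 0 < L := by linarith
  have hp2 := hx2 x e2
  by_cases hts : (x : ℝ) ^ (1 / 2 : ℝ) ≤ t
  · have ht1 : 1 < (t : ℝ) := by
      refine lt_of_lt_of_le ?_ hts
      exact Real.one_lt_rpow (by linarith) (by norm_num)
    have ht2 : 2 ≤ t := by
      have : 1 < t := by exact_mod_cast ht1
      omega
    have htpos : (0 : ℝ) < t := by linarith
    have h1 := hp t ht2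
    have h2 : L / 2 ≤ Real.log t := by
      have h3 := Real.log_le_log (by positivity) hts
      rw [Real.log_rpow hxpos] at h3
      linarith
    refine h1.trans ?_
    have htx : (t : ℝ) ≤ x := by exact_mod_cast ht
    have hlt : 0 < Real.log t := by linarith
    rw [div_le_div_iff₀ (by positivity) (by positivity)]
    calc C * t * L ^ c ≤ C * x * L ^ c := by
          apply mul_le_mul_of_nonneg_right _ (by positivity)
          exact mul_le_mul_of_nonneg_left htx hC.le
      _ = x * (C * 2 ^ (c + 1)) * L ^ c / 2 ^ (c + 1) := by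
          field_simp
      _ ≤ x * L * L ^ c / 2 ^ (c + 1) := by
          apply div_le_div_of_nonneg_right _ (by positivity)
          apply mul_le_mul_of_nonneg_right _ (by positivity)
          exact mul_le_mul_of_nonneg_left hLC hxpos.le
      _ = x * (L / 2) ^ (c + 1) := by
          rw [div_pow]
          ring
      _ ≤ x * Real.log t ^ (c + 1) := by
          apply mul_le_mul_of_nonneg_left _ hxpos.le
          exact pow_le_pow_left₀ (by positivity) h2 _
  · push Not at hts
    have h1 : |(∑ n ∈ Icc 1 t, Lam n) - t| ≤ t * (L + 1) := by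
      have h2 : 0 ≤ ∑ n ∈ Icc 1 t, Lam n :=
        Finset.sum_nonneg fun n _ => ArithmeticFunction.vonMangoldt_nonneg
      have h3 : ∑ n ∈ Icc 1 t, Lam n ≤ t * L := by
        have h4 : ∀ n ∈ Icc 1 t, Lam n ≤ L := by
          intro n hn
          rw [mem_Icc] at hn
          refine ArithmeticFunction.vonMangoldt_le_log.trans ?_
          apply Real.log_le_log
          · exact_mod_cast hn.1
          · exact_mod_cast hn.2.trans ht
        refine (Finset.sum_le_sum h4).trans ?_
        rw [Finset.sum_const, Nat.card_Icc, nsmul_eq_mul]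
        simp
      have h5 : (0 : ℝ) ≤ t := by positivity
      rw [abs_le]
      constructor
      · nlinarith
      · nlinarith
    refine h1.trans ?_
    rw [le_div_iff₀ (by positivity)]
    have h2 : (x : ℝ) ^ (1 / 2 : ℝ) * (x : ℝ) ^ (1 / 2 : ℝ) = x := by
      rw [← Real.rpow_add hxpos]
      norm_num
    calc (t : ℝ) * (L + 1) * L ^ c ≤ (x : ℝ) ^ (1 / 2 : ℝ) * (L * L) * L ^ c := by
          apply mul_le_mul_of_nonneg_right _ (by positivity)
          apply mul_le_mul hts.le _ (by positivity) (by positivity)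
          nlinarith
      _ = (x : ℝ) ^ (1 / 2 : ℝ) * L ^ (c + 2) := by ring
      _ ≤ (x : ℝ) ^ (1 / 2 : ℝ) * (x : ℝ) ^ (1 / 2 : ℝ) := by
          apply mul_le_mul_of_nonneg_left hp2 (by positivity)
      _ = x := h2

/-- `err x 1 a = 0`. -/
lemma err_one (x : ℕ) (a : ZMod 1) : err x 1 a = 0 := by
  unfold err
  have h1 : ((Icc 1 x).filter (fun p : ℕ => Nat.Prime p ∧ ((p : ZMod 1) = a))).card
      = Nat.primeCounting x := by
    rw [Nat.primeCounting, Nat.primeCounting', Nat.count_eq_card_filter_range]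
    congr 1
    ext p
    simp only [mem_filter, mem_Icc, mem_range]
    constructor
    · rintro ⟨⟨_, h2⟩, h3, _⟩
      exact ⟨by omega, h3⟩
    · rintro ⟨h2, h3⟩
      exact ⟨⟨h3.one_le, by omega⟩, h3, Subsingleton.elim _ _⟩
  rw [h1]
  simp

/-- a sum over a union is at most the sum of the sums. -/
lemma sum_biUnion_le' (J : Finset ℕ) (S : ℕ → Finset ℕ) (F : ℕ → ℝ) (hF : ∀ q, 0 ≤ F q) :
    ∑ q ∈ J.biUnion S, F q ≤ ∑ j ∈ J, ∑ q ∈ S j, F q := by
  classical
  induction J using Finset.induction_on with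
  | empty => simp
  | insert j J hj ih =>
    rw [Finset.biUnion_insert, Finset.sum_insert hj]
    have h := Finset.sum_union_inter (s₁ := S j) (s₂ := J.biUnion S) (f := F)
    have h2 : 0 ≤ ∑ q ∈ S j ∩ J.biUnion S, F q := Finset.sum_nonneg fun q _ => hF q
    linarith

/-- the union of dyadic intervals. -/
lemma dyadic_cover (F : ℕ → ℝ) (hF : ∀ q, 0 ≤ F q) (M J : ℕ) (hM : M < 2 ^ J) (P : ℕ → Prop)
    [DecidablePred P] (hF1 : F 1 = 0) (b : ℝ) (hb : 0 ≤ b)
    (hblock : ∀ j < J, ∀ q : ℕ, q ≤ M → P q → 2 ^ j < q → q ≤ 2 ^ (j + 1) →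
      ∑ q ∈ Ioc (2 ^ j) (2 * 2 ^ j), F q ≤ b) :
    ∑ q ∈ (Icc 1 M).filter P, F q ≤ J * b := by
  have h1 : ∑ q ∈ (Icc 1 M).filter P, F q
      ≤ ∑ j ∈ range J, ∑ q ∈ (Ioc (2 ^ j) (2 * 2 ^ j)).filter (fun q => q ≤ M ∧ P q), F q := by
    rw [← Finset.sum_erase _ hF1]
    have h2 : ((Icc 1 M).filter P).erase 1
        ⊆ (range J).biUnion
          (fun j => (Ioc (2 ^ j) (2 * 2 ^ j)).filter (fun q => q ≤ M ∧ P q)) := by
      intro q hq
      rw [mem_erase, mem_filter, mem_Icc] at hq
      obtain ⟨hq1, ⟨hq2, hq3⟩, hq4⟩ := hq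
      rw [mem_biUnion]
      have hq5 : 2 ≤ q := by omega
      -- `j = log2 (q - 1)`
      have h3 : q - 1 ≠ 0 := by omega
      refine ⟨Nat.log 2 (q - 1), ?_, ?_⟩
      · rw [mem_range]
        apply Nat.log_lt_of_lt_pow h3
        omega
      · rw [mem_filter, mem_Ioc]
        refine ⟨⟨?_, ?_⟩, hq3, hq4⟩
        · have := Nat.pow_log_le_self 2 h3
          omega
        · have := Nat.lt_pow_succ_log_self (b := 2) (by norm_num) (q - 1)
          rw [pow_succ] at this
          omega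
    refine (Finset.sum_le_sum_of_subset_of_nonneg h2 (fun q _ _ => hF q)).trans ?_
    exact sum_biUnion_le' _ _ F hF
  refine h1.trans ?_
  have h2 : ∀ j ∈ range J,
      ∑ q ∈ (Ioc (2 ^ j) (2 * 2 ^ j)).filter (fun q => q ≤ M ∧ P q), F q ≤ b := by
    intro j hj
    rw [mem_range] at hj
    by_cases hne : ((Ioc (2 ^ j) (2 * 2 ^ j)).filter (fun q => q ≤ M ∧ P q)).Nonempty
    · obtain ⟨q, hq⟩ := hne
      rw [mem_filter, mem_Ioc] at hq
      refine le_trans ?_ (hblock j hj q hq.2.1 hq.2.2 hq.1.1 (by rw [pow_succ]; omega))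
      exact Finset.sum_le_sum_of_subset_of_nonneg (Finset.filter_subset _ _)
        (fun q _ _ => hF q)
    · rw [Finset.not_nonempty_iff_eq_empty] at hne
      rw [hne, Finset.sum_empty]
      exact hb
  refine (Finset.sum_le_sum h2).trans ?_
  rw [Finset.sum_const, card_range, nsmul_eq_mul]

end Pool.Agent.H91.EHA

end
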