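import Pool.Agent.H15.TB1.M76

/-! The parts of this file: H91.EHA.GFinA. -/

section

/-!
# From `psi` to `pi`, arbitrary sets of residue classes (adapted from `FinA`, by helper68)

`θ`-version: `T(y;q,a) = ∑_{p ≤ y, p ≡ a (q)} log p - (1/φ(q)) ∑_{p≤y} log p`.  By Abel summation
`err x q a = T(x)/log x + ∑_{t=2}^{x-1} T(t) (1/log t - 1/log(t+1))`.
`∑_{q,a} |T(t;q,a)| ≤ ∑_{q,a}|psiA t q a - t/φ(q)| + ∑_{q,a} (1/φ(q)) |ψ(t) - t| + (prime powers)`; here
`|ψ(t)-t|` is bounded by the hypothesis `h0`.  Prime powers `n = p^j ≤ x`, `j ≥ 2`: at most `√x (log x)²` in total weight;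
number of pairs `(q,a)` with `a ≡ n mod q`: for `a ≠ n` at most `τ(|n-a|) ≤ C x^{ε'}`
(`Pool/Agent/H92/EH3/DivBound.lean`), and the pairs with `a = n`: `Q` of them for each prime power `n ∈ (a0,a0+H]`, total
weight `≤ Q H log x`.
Use the hypothesis for `t ≥ x/(log x)^{c+5}`... in fact the hypothesis is for all `t ≤ x`: then
`∑_t (1/log t - 1/log(t+1))` telescopes, `≤ 1/log 2`.  (No splitting needed.)
-/

set_option autoImplicit false

namespace Pool.Agent.H91.EHA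

open Finset
open Pool.Agent.H91.PK

/-! ### Abel summation -/

private theorem gfinA_abel (g : ℕ → ℝ) (h1 : g 1 = 0) (x : ℕ) (hx : 2 ≤ x) :
    ∑ n ∈ Icc 1 x, g n = (∑ n ∈ Icc 1 x, g n * Real.log n) / Real.log x +
      ∑ t ∈ Ico 2 x, (∑ n ∈ Icc 1 t, g n * Real.log n) *
        (1 / Real.log t - 1 / Real.log ((t + 1 : ℕ) : ℝ)) := by
  induction x, hx using Nat.le_induction with
  | base =>
    have hl : Real.log ((2 : ℕ) : ℝ) ≠ 0 := (Real.log_pos (by norm_num)).ne'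
    have e1 : Icc 1 2 = ({1, 2} : Finset ℕ) := by decide
    rw [Ico_self, sum_empty, add_zero, e1, sum_pair (by norm_num), sum_pair (by norm_num), h1,
      zero_mul, zero_add, zero_add, mul_div_assoc, div_self hl, mul_one]
  | succ x hx ih =>
    have hl : Real.log (((x + 1 : ℕ)) : ℝ) ≠ 0 := by
      apply (Real.log_pos _).ne'
      exact_mod_cast (by omega : 1 < x + 1)
    have hl' : Real.log (x : ℝ) ≠ 0 := by
      apply (Real.log_pos _).ne'
      exact_mod_cast (by omega : 1 < x)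
    rw [sum_Icc_succ_top (by omega), sum_Icc_succ_top (by omega), sum_Ico_succ_top hx, ih]
    field_simp
    ring

private theorem gfinA_tele (x : ℕ) (hx : 2 ≤ x) :
    1 / Real.log x + ∑ t ∈ Ico 2 x, (1 / Real.log t - 1 / Real.log ((t + 1 : ℕ) : ℝ)) =
      1 / Real.log 2 := by
  induction x, hx using Nat.le_induction with
  | base => simp
  | succ x hx ih =>
    rw [sum_Ico_succ_top hx]
    linarith

/-! ### The functions -/

/-- the weight -/
private noncomputable def gfinA_g (q a n : ℕ) : ℝ :=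
  (if n.Prime ∧ n ≡ a [MOD q] then 1 else 0) - (if n.Prime then 1 else 0) / (q.totient : ℝ)

/-- `Lam` on the numbers which are not prime -/
private noncomputable def gfinA_L (n : ℕ) : ℝ := if n.Prime then 0 else Lam n

/-- prime powers in the class -/
private noncomputable def gfinA_pa (t q a : ℕ) : ℝ :=
  ∑ n ∈ Icc 1 t, gfinA_L n * if n ≡ a [MOD q] then 1 else 0

/-- prime powers -/
private noncomputable def gfinA_pp (t : ℕ) : ℝ := ∑ n ∈ Icc 1 t, gfinA_L n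

private theorem gfinA_Lam_nonneg (n : ℕ) : 0 ≤ Lam n := ArithmeticFunction.vonMangoldt_nonneg

private theorem gfinA_L_nonneg (n : ℕ) : 0 ≤ gfinA_L n := by
  unfold gfinA_L
  split_ifs
  · exact le_rfl
  · exact gfinA_Lam_nonneg n

private theorem gfinA_err (x q a : ℕ) :
    err x q (a : ZMod q) = ∑ n ∈ Icc 1 x, gfinA_g q a n := by
  unfold err gfinA_g
  rw [sum_sub_distrib, ← sum_div]
  congr 1
  · rw [card_filter, Nat.cast_sum]
    refine sum_congr rfl fun n _ => ?_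
    by_cases h : n.Prime ∧ n ≡ a [MOD q]
    · rw [if_pos h, if_pos ⟨h.1, (ZMod.natCast_eq_natCast_iff n a q).2 h.2⟩, Nat.cast_one]
    · rw [if_neg h, if_neg, Nat.cast_zero]
      rintro ⟨h1, h2⟩
      exact h ⟨h1, (ZMod.natCast_eq_natCast_iff n a q).1 h2⟩
  · congr 1
    have h1 : Nat.primeCounting x = ((Icc 1 x).filter Nat.Prime).card := by
      rw [Nat.primeCounting, Nat.primeCounting', Nat.count_eq_card_filter_range]
      congr 1
      ext p
      simp only [mem_filter, mem_Icc, mem_range]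
      constructor
      · rintro ⟨h, hp⟩
        exact ⟨⟨hp.one_lt.le, by omega⟩, hp⟩
      · rintro ⟨⟨_, h⟩, hp⟩
        exact ⟨by omega, hp⟩
    rw [h1, card_filter, Nat.cast_sum]
    refine sum_congr rfl fun n _ => ?_
    split_ifs <;> simp

private theorem gfinA_T (t q a : ℕ) :
    ∑ n ∈ Icc 1 t, gfinA_g q a n * Real.log n =
      (psiA t q a - t / (q.totient : ℝ)) - gfinA_pa t q a +
        (t - ∑ n ∈ Icc 1 t, Lam n) / (q.totient : ℝ) + gfinA_pp t / (q.totient : ℝ) := by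
  have h1 : ∑ n ∈ Icc 1 t, gfinA_g q a n * Real.log n =
      ∑ n ∈ Icc 1 t, ((if n ≡ a [MOD q] then Lam n else 0) -
        (gfinA_L n * if n ≡ a [MOD q] then 1 else 0) - Lam n / (q.totient : ℝ) +
        gfinA_L n / (q.totient : ℝ)) := by
    refine sum_congr rfl fun n _ => ?_
    unfold gfinA_g gfinA_L
    by_cases hp : n.Prime
    · have hL : Lam n = Real.log n := ArithmeticFunction.vonMangoldt_apply_prime hp
      rw [hL]
      by_cases ha : n ≡ a [MOD q]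
      · simp [hp, ha]
        ring
      · simp [hp, ha]
        ring
    · by_cases ha : n ≡ a [MOD q]
      · simp [hp, ha]
      · simp [hp, ha]
  rw [h1, sum_add_distrib, sum_sub_distrib, sum_sub_distrib, ← sum_div, ← sum_div]
  unfold psiA gfinA_pa gfinA_pp
  rw [sum_filter]
  ring

private theorem gfinA_abs (t q a : ℕ) :
    |∑ n ∈ Icc 1 t, gfinA_g q a n * Real.log n| ≤
      |psiA t q a - t / (q.totient : ℝ)| + gfinA_pa t q a +
        (|(∑ n ∈ Icc 1 t, Lam n) - t| + gfinA_pp t) * (1 / (q.totient : ℝ)) := by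
  have hpa : 0 ≤ gfinA_pa t q a := sum_nonneg fun n _ =>
    mul_nonneg (gfinA_L_nonneg n) (by split_ifs <;> norm_num)
  have hpp : 0 ≤ gfinA_pp t := sum_nonneg fun n _ => gfinA_L_nonneg n
  have hq : 0 ≤ 1 / (q.totient : ℝ) := by positivity
  rw [gfinA_T]
  have h1 : (t - ∑ n ∈ Icc 1 t, Lam n) / (q.totient : ℝ) =
      (t - ∑ n ∈ Icc 1 t, Lam n) * (1 / (q.totient : ℝ)) := by ring
  have h2 : gfinA_pp t / (q.totient : ℝ) = gfinA_pp t * (1 / (q.totient : ℝ)) := by ring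
  rw [h1, h2]
  have h3 : |(t - ∑ n ∈ Icc 1 t, Lam n) * (1 / (q.totient : ℝ))| =
      |(∑ n ∈ Icc 1 t, Lam n) - t| * (1 / (q.totient : ℝ)) := by
    rw [abs_mul, abs_of_nonneg hq, abs_sub_comm]
  have h4 : 0 ≤ gfinA_pp t * (1 / (q.totient : ℝ)) := mul_nonneg hpp hq
  have h5 := neg_abs_le (psiA t q a - t / (q.totient : ℝ))
  have h6 := le_abs_self (psiA t q a - t / (q.totient : ℝ))
  have h7 := neg_abs_le ((t - ∑ n ∈ Icc 1 t, Lam n) * (1 / (q.totient : ℝ)))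
  have h8 := le_abs_self ((t - ∑ n ∈ Icc 1 t, Lam n) * (1 / (q.totient : ℝ)))
  rw [h3] at h7 h8
  rw [abs_le]
  constructor <;> nlinarith only [h4, h5, h7, hpa, h6, h8]

/-! ### The prime powers -/

private theorem gfinA_pp_le (t x : ℕ) (htx : t ≤ x) (hx : 1 ≤ x) :
    gfinA_pp t ≤ 2 * Real.sqrt x * Real.log x := by
  have h1 : gfinA_pp t ≤ gfinA_pp x :=
    sum_le_sum_of_subset_of_nonneg (Icc_subset_Icc_right htx) fun n _ _ => gfinA_L_nonneg n
  refine h1.trans ?_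
  have h2 := Chebyshev.psi_sub_theta_le (x := (x : ℝ)) (by exact_mod_cast hx)
  rw [Chebyshev.psi_sub_theta_eq_sum_not_prime, Nat.floor_natCast] at h2
  refine le_trans (le_of_eq ?_) h2
  unfold gfinA_pp gfinA_L Lam
  rw [sum_filter]
  simp only [ite_not]
  rfl

private theorem gfinA_count (x Q n : ℕ) (ε H : ℝ) (S : ℕ → Finset ℕ) (hS : Fam x Q ε H S) :
    (∑ q ∈ Ioc Q (2 * Q), ∑ a ∈ (S q).filter (fun a => Nat.Coprime a q),
      if n ≡ a [MOD q] then (1 : ℝ) else 0) ≤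
        Real.sqrt (Q * ((Q * H + H ^ 2) * (x : ℝ) ^ (ε / 8))) := by
  set m : ℕ → ℝ := fun q => (((S q).filter (fun a => n ≡ a [MOD q])).card : ℝ) with hm
  have h1 : (∑ q ∈ Ioc Q (2 * Q), ∑ a ∈ (S q).filter (fun a => Nat.Coprime a q),
      if n ≡ a [MOD q] then (1 : ℝ) else 0) ≤ ∑ q ∈ Ioc Q (2 * Q), m q := by
    refine sum_le_sum fun q _ => ?_
    have h2 : (∑ a ∈ (S q).filter (fun a => Nat.Coprime a q),
        if n ≡ a [MOD q] then (1 : ℝ) else 0) ≤ ∑ a ∈ S q, if n ≡ a [MOD q] then (1 : ℝ) else 0 := by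
      refine sum_le_sum_of_subset_of_nonneg (filter_subset _ _) fun a _ _ => ?_
      split_ifs <;> norm_num
    refine h2.trans (le_of_eq ?_)
    rw [← sum_filter, sum_const, nsmul_eq_mul, mul_one]
  refine h1.trans ?_
  have h3 : ∀ q, m q ^ 2 ≤
      ((((S q) ×ˢ (S q)).filter (fun p => p.1 ≡ p.2 [MOD q])).card : ℝ) := by
    intro q
    have h4 : ((S q).filter (fun a => n ≡ a [MOD q])) ×ˢ ((S q).filter (fun a => n ≡ a [MOD q])) ⊆
        ((S q) ×ˢ (S q)).filter (fun p => p.1 ≡ p.2 [MOD q]) := by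
      intro p hp
      rw [mem_product, mem_filter, mem_filter] at hp
      rw [mem_filter, mem_product]
      exact ⟨⟨hp.1.1, hp.2.1⟩, hp.1.2.symm.trans hp.2.2⟩
    have h5 := card_le_card h4
    rw [card_product] at h5
    rw [hm]
    calc (((S q).filter (fun a => n ≡ a [MOD q])).card : ℝ) ^ 2
        = ((((S q).filter (fun a => n ≡ a [MOD q])).card *
          ((S q).filter (fun a => n ≡ a [MOD q])).card : ℕ) : ℝ) := by push_cast; ring
      _ ≤ _ := by exact_mod_cast h5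
  have h6 : (∑ q ∈ Ioc Q (2 * Q), m q) ^ 2 ≤ Q * ((Q * H + H ^ 2) * (x : ℝ) ^ (ε / 8)) := by
    refine (sq_sum_le_card_mul_sum_sq (s := Ioc Q (2 * Q)) (f := m)).trans ?_
    have h7 : 2 * Q - Q = Q := by omega
    rw [Nat.card_Ioc, h7]
    refine mul_le_mul_of_nonneg_left ?_ (Nat.cast_nonneg _)
    exact (sum_le_sum fun q _ => h3 q).trans hS.2
  exact Real.le_sqrt_of_sq_le h6

private theorem gfinA_pa_le (x Q t : ℕ) (ε H : ℝ) (S : ℕ → Finset ℕ) (hS : Fam x Q ε H S)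
    (hx : 1 ≤ x) (ht : t ≤ x) :
    (∑ q ∈ Ioc Q (2 * Q), ∑ a ∈ (S q).filter (fun a => Nat.Coprime a q),
      gfinA_pa t q a) ≤
        2 * Real.sqrt x * Real.log x *
          Real.sqrt (Q * ((Q * H + H ^ 2) * (x : ℝ) ^ (ε / 8))) := by
  have h1 : (∑ q ∈ Ioc Q (2 * Q), ∑ a ∈ (S q).filter (fun a => Nat.Coprime a q),
      gfinA_pa t q a) =
      ∑ n ∈ Icc 1 t, gfinA_L n *
        ∑ q ∈ Ioc Q (2 * Q), ∑ a ∈ (S q).filter (fun a => Nat.Coprime a q),
          (if n ≡ a [MOD q] then (1 : ℝ) else 0) := by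
    unfold gfinA_pa
    simp only [mul_sum]
    have e1 : ∀ q ∈ Ioc Q (2 * Q), (∑ a ∈ (S q).filter (fun a => Nat.Coprime a q),
        ∑ n ∈ Icc 1 t, gfinA_L n * (if n ≡ a [MOD q] then (1 : ℝ) else 0)) =
        ∑ n ∈ Icc 1 t, ∑ a ∈ (S q).filter (fun a => Nat.Coprime a q),
          gfinA_L n * (if n ≡ a [MOD q] then (1 : ℝ) else 0) := fun q _ => sum_comm
    rw [sum_congr rfl e1, sum_comm]
  rw [h1]
  have h2 : ∀ n ∈ Icc 1 t, gfinA_L n *
        (∑ q ∈ Ioc Q (2 * Q), ∑ a ∈ (S q).filter (fun a => Nat.Coprime a q),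
          (if n ≡ a [MOD q] then (1 : ℝ) else 0)) ≤
        gfinA_L n * Real.sqrt (Q * ((Q * H + H ^ 2) * (x : ℝ) ^ (ε / 8))) := fun n _ =>
    mul_le_mul_of_nonneg_left (gfinA_count x Q n ε H S hS) (gfinA_L_nonneg n)
  refine (sum_le_sum h2).trans ?_
  rw [← sum_mul]
  exact mul_le_mul_of_nonneg_right (gfinA_pp_le t x ht hx) (Real.sqrt_nonneg _)

private theorem gfinA_phi (x Q : ℕ) (H : ℝ) (S : ℕ → Finset ℕ) (hH0 : 0 ≤ H)
    (hS : ∀ q ∈ Ioc Q (2 * Q), ((S q).card : ℝ) ≤ H) (hL : 1 ≤ Real.log x) (hQ : 1 ≤ Q) (hQx : Q ≤ x) :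
    (∑ q ∈ Ioc Q (2 * Q), ∑ _a ∈ (S q).filter (fun a => Nat.Coprime a q),
      (1 / (q.totient : ℝ))) ≤ H * (4 * Real.log x) := by
  have hQ' : (0 : ℝ) < Q := by exact_mod_cast hQ
  have h1 : ∀ q ∈ Ioc Q (2 * Q), (∑ _a ∈ (S q).filter (fun a => Nat.Coprime a q),
      (1 / (q.totient : ℝ))) ≤ H * (4 * Real.log x) / Q := by
    intro q hq
    have hcard : (((S q).filter (fun a => Nat.Coprime a q)).card : ℝ) ≤ H := by
      refine le_trans ?_ (hS q hq)
      exact_mod_cast card_filter_le _ _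
    rw [mem_Ioc] at hq
    have hq0 : 0 < q := by omega
    have hphi : (0 : ℝ) < q.totient := by exact_mod_cast Nat.totient_pos.2 hq0
    have h2 : (q : ℝ) ≤ q.totient * (4 * Real.log x) := by
      refine (Pool.Agent.H92.EH.le_totient_mul q).trans ?_
      refine mul_le_mul_of_nonneg_left ?_ hphi.le
      have h3 : (q.primeFactors.card : ℝ) ≤ Nat.log 2 q := by
        exact_mod_cast Pool.Agent.H92.EH.card_primeFactors_le q
      have h4 : ((Nat.log 2 q : ℕ) : ℝ) ≤ Real.logb 2 q := by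
        have := Real.natLog_le_logb q 2
        exact_mod_cast this
      have h5 : Real.log q ≤ Real.log 2 + Real.log x := by
        rw [← Real.log_mul (by norm_num) (by
          have : 0 < x := by omega
          positivity)]
        refine Real.log_le_log (by exact_mod_cast hq0) ?_
        have : q ≤ 2 * x := by omega
        exact_mod_cast this
      have hl2 : 0.6931 < Real.log 2 := by
        have := Real.log_two_gt_d9
        linarith
      have h6 : Real.logb 2 q ≤ 1 + 1.5 * Real.log x := by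
        rw [Real.logb, div_le_iff₀ (by linarith)]
        nlinarith only [hL, h5, hl2]
      linarith only [hL, h3, h4, h6]
    rw [sum_const, nsmul_eq_mul, mul_one_div, div_le_div_iff₀ hphi hQ']
    have h7 : (Q : ℝ) ≤ q.totient * (4 * Real.log x) := by
      refine le_trans ?_ h2
      exact_mod_cast hq.1.le
    calc (((S q).filter (fun a => Nat.Coprime a q)).card : ℝ) * Q
        ≤ H * (q.totient * (4 * Real.log x)) :=
          mul_le_mul hcard h7 hQ'.le hH0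
      _ = H * (4 * Real.log x) * q.totient := by ring
  refine (sum_le_sum h1).trans (le_of_eq ?_)
  rw [sum_const, Nat.card_Ioc, nsmul_eq_mul]
  have h8 : 2 * Q - Q = Q := by omega
  rw [h8]
  field_simp

private theorem gfinA_ev (K δ : ℝ) (hδ : 0 < δ) (k : ℕ) :
    ∀ᶠ x : ℕ in Filter.atTop, K * Real.log x ^ k ≤ (x : ℝ) ^ δ := by
  have hK : 0 < |K| + 1 := by positivity
  have h1 := (isLittleO_log_rpow_rpow_atTop (k : ℝ) hδ).def (c := 1 / (|K| + 1)) (by positivity)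
  have h2 := tendsto_natCast_atTop_atTop (R := ℝ) |>.eventually h1
  filter_upwards [h2] with x hx
  rw [Real.rpow_natCast, Real.norm_eq_abs, Real.norm_eq_abs,
    abs_of_nonneg (Real.rpow_nonneg (Nat.cast_nonneg x) δ), one_div, ← div_eq_inv_mul,
    le_div_iff₀ hK] at hx
  have h3 : K * Real.log x ^ k ≤ |K| * |Real.log x ^ k| := by
    rw [← abs_mul]
    exact le_abs_self _
  have h4 : 0 ≤ |Real.log (x : ℝ) ^ k| := abs_nonneg _
  linarith

private theorem gfinA_S (Q t : ℕ) (S : ℕ → Finset ℕ) :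
    (∑ q ∈ Ioc Q (2 * Q), ∑ a ∈ (S q).filter (fun a => Nat.Coprime a q),
      |∑ n ∈ Icc 1 t, gfinA_g q a n * Real.log n|) ≤
    (∑ q ∈ Ioc Q (2 * Q), ∑ a ∈ (S q).filter (fun a => Nat.Coprime a q),
      |psiA t q a - t / (q.totient : ℝ)|) +
    (∑ q ∈ Ioc Q (2 * Q), ∑ a ∈ (S q).filter (fun a => Nat.Coprime a q),
      gfinA_pa t q a) +
    (|(∑ n ∈ Icc 1 t, Lam n) - t| + gfinA_pp t) *
      ∑ q ∈ Ioc Q (2 * Q), ∑ _a ∈ (S q).filter (fun a => Nat.Coprime a q),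
        (1 / (q.totient : ℝ)) := by
  rw [mul_sum, ← sum_add_distrib, ← sum_add_distrib]
  refine sum_le_sum fun q _ => ?_
  rw [mul_sum, ← sum_add_distrib, ← sum_add_distrib]
  exact sum_le_sum fun a _ => gfinA_abs t q a

private theorem gfinA_main (x Q : ℕ) (S : ℕ → Finset ℕ) (hx : 2 ≤ x) (B : ℝ)
    (hB : ∀ t : ℕ, t ≤ x →
      (∑ q ∈ Ioc Q (2 * Q), ∑ a ∈ (S q).filter (fun a => Nat.Coprime a q),
        |∑ n ∈ Icc 1 t, gfinA_g q a n * Real.log n|) ≤ B) :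
    (∑ q ∈ Ioc Q (2 * Q), ∑ a ∈ (S q).filter (fun a => Nat.Coprime a q),
        |err x q (a : ZMod q)|) ≤ B * (1 / Real.log 2) := by
  have hlx : 0 < Real.log x := Real.log_pos (by exact_mod_cast (by omega : 1 < x))
  have hw : ∀ t ∈ Ico 2 x, 0 ≤ 1 / Real.log t - 1 / Real.log ((t + 1 : ℕ) : ℝ) := by
    intro t ht
    rw [mem_Ico] at ht
    have h1 : 0 < Real.log t := Real.log_pos (by exact_mod_cast (by omega : 1 < t))
    have h2 : Real.log t ≤ Real.log ((t + 1 : ℕ) : ℝ) :=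
      Real.log_le_log (by exact_mod_cast (by omega : 0 < t)) (by exact_mod_cast Nat.le_succ t)
    rw [sub_nonneg]
    exact one_div_le_one_div_of_le h1 h2
  have h1 : ∀ q a : ℕ, |err x q (a : ZMod q)| ≤
      |∑ n ∈ Icc 1 x, gfinA_g q a n * Real.log n| * (1 / Real.log x) +
      ∑ t ∈ Ico 2 x, |∑ n ∈ Icc 1 t, gfinA_g q a n * Real.log n| *
        (1 / Real.log t - 1 / Real.log ((t + 1 : ℕ) : ℝ)) := by
    intro q a
    rw [gfinA_err, gfinA_abel (gfinA_g q a) (by simp [gfinA_g, Nat.not_prime_one]) x hx]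
    refine (abs_add_le _ _).trans (add_le_add ?_ ?_)
    · rw [abs_div, abs_of_pos hlx, mul_one_div]
    · refine (abs_sum_le_sum_abs _ _).trans (sum_le_sum fun t ht => ?_)
      rw [abs_mul, abs_of_nonneg (hw t ht)]
  have h2 : (∑ q ∈ Ioc Q (2 * Q), ∑ a ∈ (S q).filter (fun a => Nat.Coprime a q),
        |err x q (a : ZMod q)|) ≤
      (∑ q ∈ Ioc Q (2 * Q), ∑ a ∈ (S q).filter (fun a => Nat.Coprime a q),
        |∑ n ∈ Icc 1 x, gfinA_g q a n * Real.log n|) * (1 / Real.log x) +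
      ∑ t ∈ Ico 2 x, (∑ q ∈ Ioc Q (2 * Q),
        ∑ a ∈ (S q).filter (fun a => Nat.Coprime a q),
        |∑ n ∈ Icc 1 t, gfinA_g q a n * Real.log n|) *
          (1 / Real.log t - 1 / Real.log ((t + 1 : ℕ) : ℝ)) := by
    refine (sum_le_sum fun q _ => sum_le_sum fun a _ => h1 q a).trans (le_of_eq ?_)
    simp only [sum_add_distrib, sum_mul]
    congr 1
    have e1 : ∀ q ∈ Ioc Q (2 * Q), (∑ a ∈ (S q).filter (fun a => Nat.Coprime a q),
        ∑ t ∈ Ico 2 x, |∑ n ∈ Icc 1 t, gfinA_g q a n * Real.log n| *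
          (1 / Real.log t - 1 / Real.log ((t + 1 : ℕ) : ℝ))) =
        ∑ t ∈ Ico 2 x, ∑ a ∈ (S q).filter (fun a => Nat.Coprime a q),
          |∑ n ∈ Icc 1 t, gfinA_g q a n * Real.log n| *
          (1 / Real.log t - 1 / Real.log ((t + 1 : ℕ) : ℝ)) := fun q _ => sum_comm
    rw [sum_congr rfl e1, sum_comm]
  refine h2.trans ?_
  rw [← gfinA_tele x hx, mul_add, mul_sum]
  refine add_le_add (mul_le_mul_of_nonneg_right (hB x le_rfl) (by positivity)) ?_
  refine sum_le_sum fun t ht => mul_le_mul_of_nonneg_right (hB t ?_) (hw t ht)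
  rw [mem_Ico] at ht
  omega

theorem gerr_of_psi (θ ε : ℝ) (hθ : θ < 1) (hε : 0 < ε) (hεθ : ε ≤ 1 - θ) (c : ℕ) :
    ∃ x0 : ℕ, ∀ x : ℕ, x0 ≤ x →
    ∀ Q : ℕ, ∀ H : ℝ, ∀ S : ℕ → Finset ℕ, 1 ≤ H → 1 ≤ Q → (Q : ℝ) ≤ (x : ℝ) ^ θ →
      Fam x Q ε H S → (Q : ℝ) ^ 2 ≤ H * (x : ℝ) ^ (1 - ε) →
      (∀ t : ℕ, t ≤ x → |(∑ n ∈ Icc 1 t, Lam n) - t| ≤ x / Real.log x ^ (c + 5)) →
      (∀ t : ℕ, t ≤ x → ∑ q ∈ Ioc Q (2 * Q),
        ∑ a ∈ (S q).filter (fun a => Nat.Coprime a q),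
          |psiA t q a - t / (q.totient : ℝ)| ≤ H * x / Real.log x ^ (c + 1)) →
      ∑ q ∈ Ioc Q (2 * Q), ∑ a ∈ (S q).filter (fun a => Nat.Coprime a q),
        |err x q (a : ZMod q)| ≤ H * x / Real.log x ^ c := by
  have e1 := gfinA_ev 4 (7 * ε / 16) (by linarith) (c + 2)
  have e3 := gfinA_ev 8 (1 / 2) (by norm_num) (c + 3)
  have e4 : ∀ᶠ x : ℕ in Filter.atTop, 10 ≤ Real.log x :=
    (Real.tendsto_log_atTop.comp tendsto_natCast_atTop_atTop).eventually_ge_atTop 10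
  obtain ⟨x0, hx0⟩ := Filter.eventually_atTop.1 (e1.and (e3.and e4))
  refine ⟨max x0 2, ?_⟩
  intro x hx Q H S hH1 hQ1 hQx hFam hQH h0 h1
  have hS := hFam.1
  obtain ⟨f1, f3, hL⟩ := hx0 x ((le_max_left _ _).trans hx)
  have hx2 : 2 ≤ x := (le_max_right _ _).trans hx
  have hxp : (0 : ℝ) < x := by exact_mod_cast (by omega : 0 < x)
  have hx1 : (1 : ℝ) ≤ x := by exact_mod_cast (by omega : 1 ≤ x)
  set L := Real.log (x : ℝ) with hLdef
  have hLp : 0 < L := by linarith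
  have hHp : (0 : ℝ) < H := by linarith
  have hQ0 : (0 : ℝ) < Q := by exact_mod_cast hQ1
  have hQx' : Q ≤ x := by
    have h2 : (x : ℝ) ^ θ ≤ (x : ℝ) ^ (1 : ℝ) := Real.rpow_le_rpow_of_exponent_le hx1 hθ.le
    rw [Real.rpow_one] at h2
    exact_mod_cast hQx.trans h2
  have hD : 0 < L ^ (c + 1) := by positivity
  -- the estimates
  have g1 : 2 * Real.sqrt x * L * Real.sqrt (Q * ((Q * H + H ^ 2) * (x : ℝ) ^ (ε / 8)))
      ≤ H * (x / L ^ (c + 1)) := by
    have h2 : (Q : ℝ) * ((Q * H + H ^ 2) * (x : ℝ) ^ (ε / 8))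
        ≤ (2 * H * (x : ℝ) ^ ((1 - ε) / 2 + ε / 16)) ^ 2 := by
      have h3 : (x : ℝ) ^ ((1 - ε) / 2 + ε / 16) * (x : ℝ) ^ ((1 - ε) / 2 + ε / 16)
          = (x : ℝ) ^ (1 - ε) * (x : ℝ) ^ (ε / 8) := by
        rw [← Real.rpow_add hxp, ← Real.rpow_add hxp]
        congr 1
        ring
      have h4 : (Q : ℝ) ≤ (x : ℝ) ^ (1 - ε) :=
        hQx.trans (Real.rpow_le_rpow_of_exponent_le hx1 (by linarith))
      have h5 : (0 : ℝ) ≤ (x : ℝ) ^ (ε / 8) := by positivity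
      have h6 : (Q : ℝ) ^ 2 * H ≤ (H * (x : ℝ) ^ (1 - ε)) * H :=
        mul_le_mul_of_nonneg_right hQH hHp.le
      have h7 : (Q : ℝ) * H ^ 2 ≤ (x : ℝ) ^ (1 - ε) * H ^ 2 :=
        mul_le_mul_of_nonneg_right h4 (by positivity)
      calc (Q : ℝ) * ((Q * H + H ^ 2) * (x : ℝ) ^ (ε / 8))
          = (Q ^ 2 * H + Q * H ^ 2) * (x : ℝ) ^ (ε / 8) := by ring
        _ ≤ ((H * (x : ℝ) ^ (1 - ε)) * H + (x : ℝ) ^ (1 - ε) * H ^ 2) * (x : ℝ) ^ (ε / 8) :=
            mul_le_mul_of_nonneg_right (add_le_add h6 h7) h5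
        _ = 2 * H ^ 2 * ((x : ℝ) ^ (1 - ε) * (x : ℝ) ^ (ε / 8)) := by ring
        _ ≤ 4 * H ^ 2 * ((x : ℝ) ^ (1 - ε) * (x : ℝ) ^ (ε / 8)) := by
            apply mul_le_mul_of_nonneg_right _ (by positivity)
            nlinarith only []
        _ = (2 * H * (x : ℝ) ^ ((1 - ε) / 2 + ε / 16)) ^ 2 := by
            rw [← h3]
            ring
    have h8 : Real.sqrt (Q * ((Q * H + H ^ 2) * (x : ℝ) ^ (ε / 8)))
        ≤ 2 * H * (x : ℝ) ^ ((1 - ε) / 2 + ε / 16) := by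
      rw [← Real.sqrt_sq (by positivity : (0 : ℝ) ≤ 2 * H * (x : ℝ) ^ ((1 - ε) / 2 + ε / 16))]
      exact Real.sqrt_le_sqrt h2
    rw [mul_div_assoc', le_div_iff₀ hD]
    have h9 : Real.sqrt x * (x : ℝ) ^ ((1 - ε) / 2 + ε / 16) * (x : ℝ) ^ (7 * ε / 16) = x := by
      rw [Real.sqrt_eq_rpow, ← Real.rpow_add hxp, ← Real.rpow_add hxp]
      have : 1 / 2 + ((1 - ε) / 2 + ε / 16) + 7 * ε / 16 = 1 := by ring
      rw [this, Real.rpow_one]
    calc 2 * Real.sqrt x * L * Real.sqrt (Q * ((Q * H + H ^ 2) * (x : ℝ) ^ (ε / 8)))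
          * L ^ (c + 1)
        ≤ 2 * Real.sqrt x * L * (2 * H * (x : ℝ) ^ ((1 - ε) / 2 + ε / 16)) * L ^ (c + 1) := by
          gcongr
      _ = H * (Real.sqrt x * (x : ℝ) ^ ((1 - ε) / 2 + ε / 16) * (4 * L ^ (c + 2))) := by ring
      _ ≤ H * (Real.sqrt x * (x : ℝ) ^ ((1 - ε) / 2 + ε / 16) * (x : ℝ) ^ (7 * ε / 16)) := by
          gcongr
      _ = H * x := by rw [h9]
  have g3 : x / L ^ (c + 5) * (4 * L) ≤ x / L ^ (c + 1) := by
    have h2 : (4 : ℝ) ≤ L ^ 3 := by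
      calc (4 : ℝ) ≤ 10 ^ 3 := by norm_num
        _ ≤ L ^ 3 := pow_le_pow_left₀ (by norm_num) hL 3
    rw [div_mul_eq_mul_div, div_le_div_iff₀ (by positivity) hD]
    calc x * (4 * L) * L ^ (c + 1) = x * L ^ (c + 2) * 4 := by ring
      _ ≤ x * L ^ (c + 2) * L ^ 3 := mul_le_mul_of_nonneg_left h2 (by positivity)
      _ = x * L ^ (c + 5) := by ring
  have g4 : 2 * Real.sqrt x * L * (4 * L) ≤ x / L ^ (c + 1) := by
    rw [le_div_iff₀ hD]
    have h3 : Real.sqrt x * (x : ℝ) ^ (1 / 2 : ℝ) = x := by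
      rw [← Real.sqrt_eq_rpow]
      exact Real.mul_self_sqrt hxp.le
    calc 2 * Real.sqrt x * L * (4 * L) * L ^ (c + 1) = Real.sqrt x * (8 * L ^ (c + 3)) := by ring
      _ ≤ Real.sqrt x * (x : ℝ) ^ (1 / 2 : ℝ) := mul_le_mul_of_nonneg_left f3 (by positivity)
      _ = x := h3
  have hB : ∀ t : ℕ, t ≤ x →
      (∑ q ∈ Ioc Q (2 * Q), ∑ a ∈ (S q).filter (fun a => Nat.Coprime a q),
        |∑ n ∈ Icc 1 t, gfinA_g q a n * Real.log n|) ≤ 4 * (H * (x / L ^ (c + 1))) := by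
    intro t ht
    refine (gfinA_S Q t S).trans ?_
    have k1 := h1 t ht
    have k2 := gfinA_pa_le x Q t ε H S hFam (by omega) ht
    have k3 := gfinA_phi x Q H S hHp.le hS (by linarith) hQ1 hQx'
    have k4 := gfinA_pp_le t x ht (by omega)
    have k5 := h0 t ht
    have k6 : (|(∑ n ∈ Icc 1 t, Lam n) - t| + gfinA_pp t) *
        (∑ q ∈ Ioc Q (2 * Q), ∑ _a ∈ (S q).filter (fun a => Nat.Coprime a q),
          (1 / (q.totient : ℝ))) ≤
        (x / L ^ (c + 5) + 2 * Real.sqrt x * L) * (H * (4 * L)) :=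
      mul_le_mul (add_le_add k5 k4) k3
        (sum_nonneg fun q _ => sum_nonneg fun a _ => by positivity) (by positivity)
    have k7 : (x / L ^ (c + 5) + 2 * Real.sqrt x * L) * (H * (4 * L)) =
        H * (x / L ^ (c + 5) * (4 * L)) + H * (2 * Real.sqrt x * L * (4 * L)) := by ring
    have k8 : H * (x / L ^ (c + 5) * (4 * L)) ≤ H * (x / L ^ (c + 1)) :=
      mul_le_mul_of_nonneg_left g3 hHp.le
    have k9 : H * (2 * Real.sqrt x * L * (4 * L)) ≤ H * (x / L ^ (c + 1)) :=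
      mul_le_mul_of_nonneg_left g4 hHp.le
    have k12 : H * x / L ^ (c + 1) = H * (x / L ^ (c + 1)) := by ring
    rw [k12] at k1
    linarith only [g1, k1, k2, k6, k8, k9]
  refine (gfinA_main x Q S hx2 _ hB).trans ?_
  have hl2 : 0.6931 < Real.log 2 := by
    have := Real.log_two_gt_d9
    linarith
  have hl2' : 0 < Real.log 2 := by linarith
  rw [mul_one_div, div_le_div_iff₀ hl2' (by positivity)]
  have m1 : 4 * (H * (x / L ^ (c + 1))) * L ^ c = 4 * (H * x) / L := by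
    rw [pow_succ]
    field_simp
  rw [m1, div_le_iff₀ hLp]
  have m2 : (4 : ℝ) ≤ Real.log 2 * L := by nlinarith only [hL, hl2]
  have m3 : 0 ≤ (H : ℝ) * x := by positivity
  nlinarith only [m2, m3]

end Pool.Agent.H91.EHA

end
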