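import Pool.Agent.H15.TB1.M02

/-! The parts of this file: H91.PK.Om, H91.PK.Bil. -/

section

/-!
PK Om: the weight `om t = t(1-t)^2` and its Fourier representation.

* `0 ≤ om ≤ 4/27`, `om` is 1-Lipschitz on ℝ (on [0,1] the derivative (1-t)(1-3t) is in [-1/3, 1]; om(0)=om(1)=0).
* For β ≥ 0 let g(v) = e^{-βv} om(e^{-v}) = e^{-(β+1)v} (1-e^{-v})² for v ≥ 0 and 0 for v < 0.  g is continuous,
  integrable and ∫ g(v) e^{-itv} dv = ∑ of three exponentials = 1/(s+1) - 2/(s+2) + 1/(s+3)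
  = 2/((s+1)(s+2)(s+3)), s = β + it, i.e. = KK β t, which is integrable in t.  Fourier inversion
  (Mathlib: `MeasureTheory.Integrable.fourierInv_fourier_eq`, with the change of variable w = t/(2π)) gives
     g(v) = (1/2π) ∫ KK β t e^{itv} dt   for every real v.
* |KK β t| ≤ |KK 0 t| = 2/√((1+t²)(4+t²)(9+t²)) ≤ 0.4386/(1+t²)  since (4+u)(9+u) ≥ 20.797 (1+u) for u ≥ 0
  ((4+u)(9+u) - 20.797(1+u) = u² - 7.797u + 15.203 has negative discriminant 60.79-60.81) and 4/20.797 ≤ 0.4386².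
  Also |KK β t| ≤ 2/|t|³.
-/

set_option autoImplicit false

namespace Pool.Agent.H91.PK

open Finset MeasureTheory

theorem om_nonneg (t : ℝ) : 0 ≤ om t := by
  unfold om
  split_ifs with h
  · have := h.1
    positivity
  · exact le_rfl

theorem om_le (t : ℝ) : om t ≤ 4 / 27 := by
  unfold om
  split_ifs with h
  · have e : 4 / 27 - t * (1 - t) ^ 2 = (t - 1 / 3) ^ 2 * (4 / 3 - t) := by ring
    have : 0 ≤ (t - 1 / 3) ^ 2 * (4 / 3 - t) :=
      mul_nonneg (sq_nonneg _) (by linarith [h.2])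
    linarith
  · norm_num

private theorem om_lip01 {s t : ℝ} (hs0 : 0 ≤ s) (hs1 : s ≤ 1) (ht0 : 0 ≤ t) (ht1 : t ≤ 1) :
    |s * (1 - s) ^ 2 - t * (1 - t) ^ 2| ≤ |s - t| := by
  have e : s * (1 - s) ^ 2 - t * (1 - t) ^ 2 =
      (s - t) * ((1 - (s + t)) ^ 2 - s * t) := by ring
  rw [e, abs_mul]
  have h : |(1 - (s + t)) ^ 2 - s * t| ≤ 1 := by
    rw [abs_le]
    have hst : 0 ≤ s * t := mul_nonneg hs0 ht0
    constructor
    · nlinarith [sq_nonneg (s - t), sq_nonneg (3 * (s + t) - 4)]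
    · nlinarith [mul_nonneg (sub_nonneg.2 hs1) (sub_nonneg.2 ht1)]
  calc |s - t| * |(1 - (s + t)) ^ 2 - s * t| ≤ |s - t| * 1 := by gcongr
    _ = |s - t| := mul_one _

theorem om_lip (s t : ℝ) : |om s - om t| ≤ |s - t| := by
  have key : ∀ s : ℝ, om s = (max 0 (min s 1)) * (1 - max 0 (min s 1)) ^ 2 := by
    intro s
    unfold om
    split_ifs with h
    · rw [min_eq_left h.2, max_eq_right h.1]
    · rcases lt_or_ge s 0 with h1 | h1
      · rw [min_eq_left (by linarith), max_eq_left h1.le]; ring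
      · have h2 : 1 < s := by
          by_contra h3
          exact h ⟨h1, not_lt.1 h3⟩
        rw [min_eq_right h2.le, max_eq_right zero_le_one]; ring
  rw [key s, key t]
  have hb : ∀ s : ℝ, 0 ≤ max 0 (min s 1) ∧ max 0 (min s 1) ≤ 1 := fun s =>
    ⟨le_max_left _ _, max_le zero_le_one (min_le_right _ _)⟩
  refine (om_lip01 (hb s).1 (hb s).2 (hb t).1 (hb t).2).trans ?_
  calc |max 0 (min s 1) - max 0 (min t 1)| ≤ max |(0 : ℝ) - 0| |min s 1 - min t 1| :=
        abs_max_sub_max_le_max _ _ _ _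
    _ ≤ |s - t| := by
        refine max_le (by simp) ?_
        refine (abs_min_sub_min_le_max _ _ _ _).trans (max_le le_rfl (by simp))

theorem om_zero : om 0 = 0 := by
  unfold om; simp

theorem om_eq_zero {t : ℝ} (h : 1 ≤ t) : om t = 0 := by
  unfold om
  split_ifs with h1
  · have : t = 1 := le_antisymm h1.2 h
    rw [this]; norm_num
  · rfl

private theorem normSq_add (b t : ℝ) : ‖(b : ℂ) + t * Complex.I‖ ^ 2 = b ^ 2 + t ^ 2 := by
  rw [← Complex.normSq_eq_norm_sq, Complex.normSq_add_mul_I]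

private theorem KK_eq (β t : ℝ) : KK β t = 2 / ((((β + 1 : ℝ) : ℂ) + t * Complex.I) *
    (((β + 2 : ℝ) : ℂ) + t * Complex.I) * (((β + 3 : ℝ) : ℂ) + t * Complex.I)) := by
  unfold KK; push_cast; rfl

private theorem norm_KK (β t : ℝ) : ‖KK β t‖ = 2 / (‖((β + 1 : ℝ) : ℂ) + t * Complex.I‖ *
    ‖((β + 2 : ℝ) : ℂ) + t * Complex.I‖ * ‖((β + 3 : ℝ) : ℂ) + t * Complex.I‖) := by
  rw [KK_eq, norm_div, norm_mul, norm_mul, RCLike.norm_ofNat]

theorem norm_KK_le (β t : ℝ) (hβ : 0 ≤ β) : ‖KK β t‖ ≤ 0.4386 / (1 + t ^ 2) := by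
  rw [norm_KK]
  set a := ‖((β + 1 : ℝ) : ℂ) + t * Complex.I‖ with ha
  set b := ‖((β + 2 : ℝ) : ℂ) + t * Complex.I‖ with hb
  set c := ‖((β + 3 : ℝ) : ℂ) + t * Complex.I‖ with hc
  have ha2 : 1 + t ^ 2 ≤ a ^ 2 := by rw [ha, normSq_add]; nlinarith
  have hb2 : 4 + t ^ 2 ≤ b ^ 2 := by rw [hb, normSq_add]; nlinarith
  have hc2 : 9 + t ^ 2 ≤ c ^ 2 := by rw [hc, normSq_add]; nlinarith
  have ha0 : 0 ≤ a := norm_nonneg _
  have hb0 : 0 ≤ b := norm_nonneg _
  have hc0 : 0 ≤ c := norm_nonneg _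
  have ht : 0 < 1 + t ^ 2 := by positivity
  have h1 : (2 / 0.4386 * (1 + t ^ 2)) ^ 2 ≤ (a * b * c) ^ 2 := by
    have h2 : (1 + t ^ 2) * (4 + t ^ 2) * (9 + t ^ 2) ≤ a ^ 2 * b ^ 2 * c ^ 2 := by
      gcongr
    have h3 : (2 / 0.4386 : ℝ) ^ 2 * (1 + t ^ 2) ≤ (4 + t ^ 2) * (9 + t ^ 2) := by
      have h4 : (2 / 0.4386 : ℝ) ^ 2 ≤ 20.7935 := by norm_num
      have h5 : 20.7935 * (1 + t ^ 2) ≤ (4 + t ^ 2) * (9 + t ^ 2) := by
        nlinarith [sq_nonneg (t ^ 2 - 3.89675)]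
      calc (2 / 0.4386 : ℝ) ^ 2 * (1 + t ^ 2) ≤ 20.7935 * (1 + t ^ 2) := by gcongr
        _ ≤ _ := h5
    calc (2 / 0.4386 * (1 + t ^ 2)) ^ 2 = (1 + t ^ 2) * ((2 / 0.4386 : ℝ) ^ 2 * (1 + t ^ 2)) := by
          ring
      _ ≤ (1 + t ^ 2) * ((4 + t ^ 2) * (9 + t ^ 2)) := by gcongr
      _ = (1 + t ^ 2) * (4 + t ^ 2) * (9 + t ^ 2) := by ring
      _ ≤ a ^ 2 * b ^ 2 * c ^ 2 := h2
      _ = (a * b * c) ^ 2 := by ring
  have h6 : 2 / 0.4386 * (1 + t ^ 2) ≤ a * b * c :=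
    le_of_sq_le_sq h1 (by positivity)
  have h7 : 0 < a * b * c := lt_of_lt_of_le (by positivity) h6
  rw [div_le_div_iff₀ h7 ht]
  have : (0.4386 : ℝ) * (2 / 0.4386 * (1 + t ^ 2)) = 2 * (1 + t ^ 2) := by ring
  nlinarith

theorem norm_KK_le' (β t : ℝ) (hβ : 0 ≤ β) (ht : t ≠ 0) : ‖KK β t‖ ≤ 2 / |t| ^ 3 := by
  rw [norm_KK]
  have key : ∀ b : ℝ, |t| ≤ ‖(b : ℂ) + t * Complex.I‖ := by
    intro b
    refine le_of_sq_le_sq ?_ (norm_nonneg _)
    rw [normSq_add, sq_abs]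
    nlinarith [sq_nonneg b]
  have ht0 : 0 < |t| := abs_pos.2 ht
  have h1 := key (β + 1)
  have h2 := key (β + 2)
  have h3 := key (β + 3)
  have : |t| ^ 3 ≤ ‖((β + 1 : ℝ) : ℂ) + t * Complex.I‖ * ‖((β + 2 : ℝ) : ℂ) + t * Complex.I‖ *
      ‖((β + 3 : ℝ) : ℂ) + t * Complex.I‖ := by
    calc |t| ^ 3 = |t| * |t| * |t| := by ring
      _ ≤ _ := by gcongr
  gcongr

private theorem ne_zero_of_pos {b : ℝ} (hb : 0 < b) (t : ℝ) : (b : ℂ) + t * Complex.I ≠ 0 := by
  intro h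
  have := congrArg Complex.re h
  simp at this
  exact hb.ne' this

theorem KK_continuous (β : ℝ) (hβ : 0 ≤ β) : Continuous (fun t : ℝ => KK β t) := by
  have e : (fun t : ℝ => KK β t) = fun t : ℝ => 2 / ((((β + 1 : ℝ) : ℂ) + t * Complex.I) *
    (((β + 2 : ℝ) : ℂ) + t * Complex.I) * (((β + 3 : ℝ) : ℂ) + t * Complex.I)) := by
    funext t; exact KK_eq β t
  rw [e]
  refine Continuous.div continuous_const (by fun_prop) fun t => ?_
  exact mul_ne_zero (mul_ne_zero (ne_zero_of_pos (by linarith) t) (ne_zero_of_pos (by linarith) t))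
    (ne_zero_of_pos (by linarith) t)

theorem KK_integrable (β : ℝ) (hβ : 0 ≤ β) : Integrable (fun t : ℝ => KK β t) := by
  refine Integrable.mono' (integrable_inv_one_add_sq.const_mul 0.4386)
    (KK_continuous β hβ).aestronglyMeasurable (Filter.Eventually.of_forall fun t => ?_)
  simpa [div_eq_mul_inv] using norm_KK_le β t hβ

theorem integral_norm_KK_le (β : ℝ) (hβ : 0 ≤ β) : ∫ t : ℝ, ‖KK β t‖ ≤ 0.4386 * Real.pi := by
  calc ∫ t : ℝ, ‖KK β t‖ ≤ ∫ t : ℝ, 0.4386 * (1 + t ^ 2)⁻¹ := by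
        refine integral_mono (KK_integrable β hβ).norm
          (integrable_inv_one_add_sq.const_mul 0.4386) fun t => ?_
        simpa [div_eq_mul_inv] using norm_KK_le β t hβ
    _ = 0.4386 * Real.pi := by rw [integral_const_mul, integral_univ_inv_one_add_sq]

private theorem om_continuous : Continuous om := by
  rw [Metric.continuous_iff]
  intro t ε hε
  refine ⟨ε, hε, fun s hs => ?_⟩
  rw [Real.dist_eq] at hs ⊢
  exact (om_lip s t).trans_lt hs

private noncomputable def gg (β v : ℝ) : ℂ := ((Real.exp (-β * v) * om (Real.exp (-v)) : ℝ) : ℂ)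

private theorem gg_continuous (β : ℝ) : Continuous (gg β) := by
  unfold gg
  refine Complex.continuous_ofReal.comp ?_
  exact (by fun_prop : Continuous fun v : ℝ => Real.exp (-β * v)).mul
    (om_continuous.comp (by fun_prop))

private theorem gg_of_nonpos (β : ℝ) {v : ℝ} (hv : v ≤ 0) : gg β v = 0 := by
  unfold gg
  rw [om_eq_zero (Real.one_le_exp (by linarith)), mul_zero, Complex.ofReal_zero]

/-- the exponent -/
private noncomputable def aa (β w : ℝ) (j : ℝ) : ℂ := -(((β + j : ℝ) : ℂ) + (2 * Real.pi * w : ℝ) * Complex.I)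

private theorem aa_re (β w j : ℝ) : (aa β w j).re = -(β + j) := by
  unfold aa; simp

private theorem gg_of_pos (β w : ℝ) {v : ℝ} (hv : 0 < v) :
    Complex.exp ((-2 * Real.pi * v * w : ℝ) * Complex.I) • gg β v =
      Complex.exp (aa β w 1 * v) - 2 * Complex.exp (aa β w 2 * v) + Complex.exp (aa β w 3 * v) := by
  have h1 : om (Real.exp (-v)) = Real.exp (-v) * (1 - Real.exp (-v)) ^ 2 := by
    unfold om
    rw [if_pos ⟨(Real.exp_pos _).le, Real.exp_le_one_iff.2 (by linarith)⟩]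
  unfold gg
  rw [h1, smul_eq_mul]
  have e : ∀ j : ℕ, Complex.exp (aa β w j * v) =
      Complex.exp ((-2 * Real.pi * v * w : ℝ) * Complex.I) *
        ((Real.exp (-β * v) * Real.exp (-v) ^ j : ℝ) : ℂ) := by
    intro j
    rw [← Real.exp_nat_mul, ← Real.exp_add, Complex.ofReal_exp, ← Complex.exp_add]
    congr 1
    unfold aa
    push_cast
    ring
  have e1 := e 1
  have e2 := e 2
  have e3 := e 3
  push_cast at e1 e2 e3
  rw [e1, e2, e3]
  push_cast
  ring

private theorem intOn_aa (β w j : ℝ) (h : 0 < β + j) :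
    IntegrableOn (fun v : ℝ => Complex.exp (aa β w j * v)) (Set.Ioi 0) :=
  integrableOn_exp_mul_complex_Ioi (by rw [aa_re]; linarith) 0

private theorem int_aa (β w j : ℝ) (h : 0 < β + j) :
    ∫ v : ℝ in Set.Ioi 0, Complex.exp (aa β w j * v) =
      1 / (((β + j : ℝ) : ℂ) + (2 * Real.pi * w : ℝ) * Complex.I) := by
  rw [integral_exp_mul_complex_Ioi (by rw [aa_re]; linarith) 0]
  unfold aa
  rw [Complex.ofReal_zero, mul_zero, Complex.exp_zero, neg_div_neg_eq]

private theorem gg_integrable (β : ℝ) (hβ : 0 ≤ β) : Integrable (gg β) := by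
  have h1 : gg β = (Set.Ioi (0 : ℝ)).indicator (gg β) := by
    funext v
    by_cases hv : v ∈ Set.Ioi (0 : ℝ)
    · rw [Set.indicator_of_mem hv]
    · rw [Set.indicator_of_notMem hv, gg_of_nonpos β (not_lt.1 hv)]
  rw [h1, integrable_indicator_iff measurableSet_Ioi]
  have h2 : IntegrableOn (fun v : ℝ => Complex.exp (aa β 0 1 * v) - 2 * Complex.exp (aa β 0 2 * v)
      + Complex.exp (aa β 0 3 * v)) (Set.Ioi 0) :=
    ((intOn_aa β 0 1 (by linarith)).sub ((intOn_aa β 0 2 (by linarith)).const_mul 2)).add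
      (intOn_aa β 0 3 (by linarith))
  refine h2.congr_fun (fun v hv => ?_) measurableSet_Ioi
  have := gg_of_pos β 0 hv
  simp only [mul_zero, Complex.ofReal_zero, zero_mul, Complex.exp_zero, one_smul] at this
  exact this.symm

private theorem gg_fourier (β : ℝ) (hβ : 0 ≤ β) (w : ℝ) :
    FourierTransform.fourier (gg β) w = KK β (2 * Real.pi * w) := by
  rw [Real.fourier_real_eq_integral_exp_smul]
  have h1 : ∫ v : ℝ, Complex.exp ((-2 * Real.pi * v * w : ℝ) * Complex.I) • gg β v =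
      ∫ v : ℝ in Set.Ioi 0, (Complex.exp (aa β w 1 * v) - 2 * Complex.exp (aa β w 2 * v) +
        Complex.exp (aa β w 3 * v)) := by
    rw [← setIntegral_eq_integral_of_forall_compl_eq_zero (s := Set.Ioi (0 : ℝ))
      (fun v hv => by rw [gg_of_nonpos β (not_lt.1 hv), smul_zero])]
    exact setIntegral_congr_fun measurableSet_Ioi fun v hv => gg_of_pos β w hv
  rw [h1, integral_add, integral_sub, integral_const_mul, int_aa β w 1 (by linarith),
    int_aa β w 2 (by linarith), int_aa β w 3 (by linarith)]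
  · rw [KK_eq]
    have n1 := ne_zero_of_pos (show 0 < β + 1 by linarith) (2 * Real.pi * w)
    have n2 := ne_zero_of_pos (show 0 < β + 2 by linarith) (2 * Real.pi * w)
    have n3 := ne_zero_of_pos (show 0 < β + 3 by linarith) (2 * Real.pi * w)
    push_cast at n1 n2 n3 ⊢
    field_simp
    ring
  · exact intOn_aa β w 1 (by linarith)
  · exact (intOn_aa β w 2 (by linarith)).const_mul 2
  · exact (intOn_aa β w 1 (by linarith)).sub ((intOn_aa β w 2 (by linarith)).const_mul 2)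
  · exact intOn_aa β w 3 (by linarith)

/-- The Fourier representation. -/
theorem om_fourier (β v : ℝ) (hβ : 0 ≤ β) :
    ((Real.exp (-β * v) * om (Real.exp (-v)) : ℝ) : ℂ)
      = (1 / (2 * Real.pi)) * ∫ t : ℝ, KK β t * Complex.exp (t * v * Complex.I) := by
  have hF : FourierTransform.fourier (gg β) = fun w => KK β (2 * Real.pi * w) := by
    funext w; exact gg_fourier β hβ w
  have hint : Integrable (FourierTransform.fourier (gg β)) := by
    rw [hF]
    exact (KK_integrable β hβ).comp_mul_left' (by positivity)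
  have hinv := congrFun ((gg_continuous β).fourierInv_fourier_eq (gg_integrable β hβ) hint) v
  rw [hF, Real.fourierInv_eq'] at hinv
  show gg β v = _
  rw [← hinv]
  have h1 := Measure.integral_comp_mul_left
    (fun t : ℝ => KK β t * Complex.exp (t * v * Complex.I)) (2 * Real.pi)
  have h2 : ∫ w : ℝ, Complex.exp ((2 * Real.pi * inner ℝ w v : ℝ) * Complex.I) •
      KK β (2 * Real.pi * w) = ∫ w : ℝ, KK β (2 * Real.pi * w) *
        Complex.exp (((2 * Real.pi * w : ℝ) : ℂ) * v * Complex.I) := by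
    refine integral_congr_ae (Filter.Eventually.of_forall fun w => ?_)
    simp only [smul_eq_mul]
    rw [mul_comm]
    congr 2
    simp only [RCLike.inner_apply, conj_trivial]
    push_cast
    ring
  rw [h2, h1, abs_of_pos (by positivity)]
  rw [Complex.real_smul]
  push_cast
  ring

/-- In terms of `N / n`. -/
theorem om_fourier' (β : ℝ) (hβ : 0 ≤ β) {N n : ℕ} (hN : 1 ≤ N) (hn : 1 ≤ n) :
    ((om ((n : ℝ) / N) : ℝ) : ℂ)
      = (((N : ℝ) / n) ^ β : ℝ) * ((1 / (2 * Real.pi)) *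
        ∫ t : ℝ, KK β t * ((N : ℂ) ^ (t * Complex.I) * (n : ℂ) ^ (-(t * Complex.I)))) := by
  have hN0 : (0 : ℝ) < N := by exact_mod_cast hN
  have hn0 : (0 : ℝ) < n := by exact_mod_cast hn
  set v : ℝ := Real.log (N / n) with hv
  have hexp : Real.exp (-v) = n / N := by
    rw [Real.exp_neg, hv, Real.exp_log (by positivity), inv_div]
  have hβv : Real.exp (-β * v) = (((N : ℝ) / n) ^ β)⁻¹ := by
    rw [Real.rpow_def_of_pos (by positivity), ← Real.exp_neg]
    congr 1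
    rw [← hv]; ring
  have h := om_fourier β v hβ
  rw [hexp, hβv] at h
  have hint : ∫ t : ℝ, KK β t * ((N : ℂ) ^ (t * Complex.I) * (n : ℂ) ^ (-(t * Complex.I))) =
      ∫ t : ℝ, KK β t * Complex.exp (t * v * Complex.I) := by
    refine integral_congr_ae (Filter.Eventually.of_forall fun t => ?_)
    simp only
    congr 1
    have hNc : (N : ℂ) ≠ 0 := by exact_mod_cast hN0.ne'
    have hnc : (n : ℂ) ≠ 0 := by exact_mod_cast hn0.ne'
    rw [Complex.cpow_def_of_ne_zero hNc, Complex.cpow_def_of_ne_zero hnc, ← Complex.exp_add]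
    congr 1
    rw [hv, Real.log_div hN0.ne' hn0.ne', Complex.natCast_log.symm, Complex.natCast_log.symm]
    push_cast
    ring
  rw [hint, ← h]
  have hpos : (0 : ℝ) < ((N : ℝ) / n) ^ β := by positivity
  rw [← Complex.ofReal_mul]
  congr 1
  field_simp

end Pool.Agent.H91.PK

end

section

/-!
PK Bil: separation of variables for the weight, and the bilinear bound from two (abstract) large sieve inequalities.

Setting: a finite family of completely multiplicative functions χ_i with weights w_i ≥ 0, satisfying the two mean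
square bounds (h1), (h2).  L = log N, Y = N / M (floor).

Proof.  For M < m ≤ 2M and n ∈ Ioc V Y with n > N/m one has mn > N so W N k (mn) = 0; hence the inner sum may be
extended to n ∈ Ioc V Y.  For m, n ≥ 1 (note V < n so n ≥ 1)
 W N k (mn) = (1/2π) ∫ KK 0 t N^{it} m^{-it} n^{-it} dt · ∑_{j ≤ k} C(k,j) (log m/L)^j (log n/L)^{k-j}
 (`om_fourier'` with β = 0, and log(mn) = log m + log n, `add_pow`).
So the sum over m, n for χ_i is (1/2π) ∫ KK 0 t N^{it} ∑_j C(k,j) A_{j,t}(χ_i) B_{j,t}(χ_i) dt, where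
 A_{j,t} = ∑_m a_m (log m/L)^j m^{-it} χ_i(m), B_{j,t} = ∑_n b_n (log n/L)^{k-j} n^{-it} χ_i(n).
For fixed t, j: ∑_i w_i |A||B| ≤ (∑ w|A|²)^{1/2} (∑ w|B|²)^{1/2} ≤ A B α^j β^{k-j} ‖a‖ ‖b‖ with α = log(2M)/L,
 β = log(Y)/L ≥ 0 (for n ≤ Y), so ∑_j C(k,j) α^j β^{k-j} = (α+β)^k ≤ (1 + log 2/L)^k as log(2M) + log Y ≤ log 2 + log N.
Finally (1/2π) ∫ |KK 0 t| dt ≤ 0.2193 (`integral_norm_KK_le`).
(Everything is a finite sum of integrable functions, so the interchange of the integral and the finite sums is easy.)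
-/

set_option autoImplicit false

namespace Pool.Agent.H91.PK

open Finset MeasureTheory

/-- kernel `KK 0 t * N^{it}` times `(m^{-it})(n^{-it})` -/
noncomputable def BilK (N : ℕ) (t : ℝ) (m n : ℕ) : ℂ :=
  KK 0 t * ((N : ℂ) ^ (t * Complex.I) * ((m : ℂ) ^ (-(t * Complex.I)) * (n : ℂ) ^ (-(t * Complex.I))))

theorem Bil_norm_cpow {n : ℕ} (hn : 1 ≤ n) (t : ℝ) : ‖(n : ℂ) ^ (t * Complex.I)‖ = 1 := by
  rw [Complex.norm_natCast_cpow_of_pos (by omega)]
  simp

theorem Bil_norm_cpow' {n : ℕ} (hn : 1 ≤ n) (t : ℝ) : ‖(n : ℂ) ^ (-(t * Complex.I))‖ = 1 := by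
  rw [Complex.norm_natCast_cpow_of_pos (by omega)]
  simp

theorem Bil_continuous_cpow {n : ℕ} (hn : 1 ≤ n) : Continuous (fun t : ℝ => (n : ℂ) ^ (t * Complex.I)) := by
  have h0 : (n : ℂ) ≠ 0 := by exact_mod_cast (by omega : n ≠ 0)
  apply Continuous.const_cpow
  · fun_prop
  · left; exact h0

theorem Bil_continuous_cpow' {n : ℕ} (hn : 1 ≤ n) : Continuous (fun t : ℝ => (n : ℂ) ^ (-(t * Complex.I))) := by
  have h0 : (n : ℂ) ≠ 0 := by exact_mod_cast (by omega : n ≠ 0)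
  apply Continuous.const_cpow
  · fun_prop
  · left; exact h0

theorem BilK_integrable {N m n : ℕ} (hN : 1 ≤ N) (hm : 1 ≤ m) (hn : 1 ≤ n) :
    Integrable (fun t : ℝ => BilK N t m n) := by
  unfold BilK
  apply (KK_integrable 0 le_rfl).mul_bdd (c := 1)
  · apply Continuous.aestronglyMeasurable
    exact (Bil_continuous_cpow hN).mul ((Bil_continuous_cpow' hm).mul (Bil_continuous_cpow' hn))
  · filter_upwards with t
    rw [norm_mul, norm_mul, Bil_norm_cpow hN, Bil_norm_cpow' hm, Bil_norm_cpow' hn]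
    norm_num

theorem Bil_W {N m n : ℕ} (k : ℕ) (hN : 2 ≤ N) (hm : 1 ≤ m) (hn : 1 ≤ n) :
    ((W N k (m * n) : ℝ) : ℂ) = (1 / (2 * Real.pi)) * ∫ t : ℝ, BilK N t m n *
      (((Real.log m / Real.log N + Real.log n / Real.log N) ^ k : ℝ) : ℂ) := by
  have h := om_fourier' 0 le_rfl (N := N) (n := m * n) (by omega) (Nat.mul_pos hm hn)
  unfold W
  have hlog : Real.log ((m * n : ℕ) : ℝ) = Real.log m + Real.log n := by
    push_cast
    rw [Real.log_mul]
    · exact_mod_cast (by omega : m ≠ 0)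
    · exact_mod_cast (by omega : n ≠ 0)
  rw [hlog, Complex.ofReal_mul, h, integral_mul_const]
  rw [Real.rpow_zero, add_div]
  have e : ∀ t : ℝ, KK 0 t * ((N : ℂ) ^ (t * Complex.I) * (((m * n : ℕ) : ℂ)) ^ (-(t * Complex.I))) = BilK N t m n := by
    intro t
    unfold BilK
    push_cast
    rw [Complex.natCast_mul_natCast_cpow]
  simp only [e]
  push_cast
  ring

/-- weighted Cauchy-Schwarz -/
theorem Bil_cs {ι : Type*} (I : Finset ι) (w : ι → ℝ) (hw : ∀ i ∈ I, 0 ≤ w i) (P Q : ι → ℝ)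
    {p q : ℝ} (hp : 0 ≤ p) (hq : 0 ≤ q)
    (h1 : ∑ i ∈ I, w i * P i ^ 2 ≤ p ^ 2) (h2 : ∑ i ∈ I, w i * Q i ^ 2 ≤ q ^ 2) :
    ∑ i ∈ I, w i * (P i * Q i) ≤ p * q := by
  have h := Finset.sum_mul_sq_le_sq_mul_sq I (fun i => Real.sqrt (w i) * P i) (fun i => Real.sqrt (w i) * Q i)
  have e1 : ∑ i ∈ I, Real.sqrt (w i) * P i * (Real.sqrt (w i) * Q i) = ∑ i ∈ I, w i * (P i * Q i) := by
    apply sum_congr rfl
    intro i hi
    have := Real.mul_self_sqrt (hw i hi)
    calc Real.sqrt (w i) * P i * (Real.sqrt (w i) * Q i) = (Real.sqrt (w i) * Real.sqrt (w i)) * (P i * Q i) := by ring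
      _ = _ := by rw [this]
  have e2 : ∀ P : ι → ℝ, ∑ i ∈ I, (Real.sqrt (w i) * P i) ^ 2 = ∑ i ∈ I, w i * P i ^ 2 := by
    intro P
    apply sum_congr rfl
    intro i hi
    have := Real.mul_self_sqrt (hw i hi)
    calc (Real.sqrt (w i) * P i) ^ 2 = (Real.sqrt (w i) * Real.sqrt (w i)) * P i ^ 2 := by ring
      _ = _ := by rw [this]
  rw [e1, e2, e2] at h
  have h0 : 0 ≤ ∑ i ∈ I, w i * P i ^ 2 := sum_nonneg (fun i hi => mul_nonneg (hw i hi) (sq_nonneg _))
  have h0' : 0 ≤ ∑ i ∈ I, w i * Q i ^ 2 := sum_nonneg (fun i hi => mul_nonneg (hw i hi) (sq_nonneg _))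
  have h3 : (∑ i ∈ I, w i * (P i * Q i)) ^ 2 ≤ (p * q) ^ 2 := by
    rw [mul_pow]
    exact h.trans (mul_le_mul h1 h2 h0' (by positivity))
  exact le_of_sq_le_sq h3 (mul_nonneg hp hq) 

theorem Bil_coef {ι : Type*} (I : Finset ι) (w : ι → ℝ) (χ : ι → ℕ → ℂ)
    (R : Finset ℕ) (A : ℝ) 
    (h1 : ∀ α : ℕ → ℂ, ∑ i ∈ I, w i * ‖∑ m ∈ R, α m * χ i m‖ ^ 2 ≤ A ^ 2 * ∑ m ∈ R, ‖α m‖ ^ 2)
    (a : ℕ → ℝ) (c : ℕ → ℂ) {γ : ℝ} (hc : ∀ m ∈ R, ‖c m‖ ≤ γ) :
    ∑ i ∈ I, w i * ‖∑ m ∈ R, ((a m : ℝ) : ℂ) * c m * χ i m‖ ^ 2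
      ≤ (A * (γ * Real.sqrt (∑ m ∈ R, a m ^ 2))) ^ 2 := by
  refine (h1 (fun m => ((a m : ℝ) : ℂ) * c m)).trans ?_
  rw [mul_pow]
  apply mul_le_mul_of_nonneg_left _ (sq_nonneg A)
  rw [mul_pow, Real.sq_sqrt (sum_nonneg (fun m _ => sq_nonneg _)), mul_sum]
  apply sum_le_sum
  intro m hm
  rw [norm_mul, mul_pow, Complex.norm_real, Real.norm_eq_abs, sq_abs, mul_comm]
  apply mul_le_mul_of_nonneg_right _ (sq_nonneg _)
  exact pow_le_pow_left₀ (norm_nonneg _) (hc m hm) 2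

theorem bilinear_sep {ι : Type*} (I : Finset ι) (w : ι → ℝ) (hw : ∀ i ∈ I, 0 ≤ w i) (χ : ι → ℕ → ℂ)
    (hmul : ∀ i ∈ I, ∀ m n : ℕ, χ i (m * n) = χ i m * χ i n)
    (N k M V : ℕ) (hN : 2 ≤ N) (hM : 1 ≤ M) (a b : ℕ → ℝ) (A B : ℝ) (hA : 0 ≤ A) (hB : 0 ≤ B)
    (h1 : ∀ α : ℕ → ℂ, ∑ i ∈ I, w i * ‖∑ m ∈ Ioc M (2 * M), α m * χ i m‖ ^ 2
      ≤ A ^ 2 * ∑ m ∈ Ioc M (2 * M), ‖α m‖ ^ 2)
    (h2 : ∀ β : ℕ → ℂ, ∑ i ∈ I, w i * ‖∑ n ∈ Ioc V (N / M), β n * χ i n‖ ^ 2
      ≤ B ^ 2 * ∑ n ∈ Ioc V (N / M), ‖β n‖ ^ 2) :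
    ∑ i ∈ I, w i * ‖∑ m ∈ Ioc M (2 * M), ((a m : ℝ) : ℂ) *
        ∑ n ∈ Ioc V (N / m), ((b n : ℝ) : ℂ) * (χ i (m * n) * ((W N k (m * n) : ℝ) : ℂ))‖
      ≤ 0.2193 * (1 + Real.log 2 / Real.log N) ^ k * (A * B) *
        (Real.sqrt (∑ m ∈ Ioc M (2 * M), a m ^ 2) * Real.sqrt (∑ n ∈ Ioc V (N / M), b n ^ 2)) := by
  have hNr : (2 : ℝ) ≤ N := by exact_mod_cast hN
  have hL : 0 < Real.log N := Real.log_pos (by linarith only [hNr])
  have hlog2 : 0 < Real.log 2 := Real.log_pos (by norm_num)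
  have hpi := Real.pi_pos
  rcases Nat.eq_zero_or_pos (N / M) with hY | hY
  · -- trivial case
    have e : ∀ m ∈ Ioc M (2 * M), Ioc V (N / m) = ∅ := by
      intro m hm
      have h3 : N / m ≤ N / M := Nat.div_le_div_left (mem_Ioc.1 hm).1.le hM
      apply Ioc_eq_empty
      omega
    have e2 : ∀ i ∈ I, w i * ‖∑ m ∈ Ioc M (2 * M), ((a m : ℝ) : ℂ) *
        ∑ n ∈ Ioc V (N / m), ((b n : ℝ) : ℂ) * (χ i (m * n) * ((W N k (m * n) : ℝ) : ℂ))‖ = 0 := by
      intro i _
      rw [sum_eq_zero, norm_zero, mul_zero]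
      intro m hm
      rw [e m hm, sum_empty, mul_zero]
    rw [sum_eq_zero e2]
    positivity
  set Y := N / M with hYdef
  set α := Real.log (2 * M) / Real.log N with hα
  set β := Real.log Y / Real.log N with hβ
  have hMr : (1 : ℝ) ≤ M := by exact_mod_cast hM
  have hYr : (1 : ℝ) ≤ Y := by exact_mod_cast hY
  have hα0 : 0 ≤ α := div_nonneg (Real.log_nonneg (by linarith only [hMr])) hL.le
  have hβ0 : 0 ≤ β := div_nonneg (Real.log_nonneg hYr) hL.le
  have hMY : (M : ℝ) * Y ≤ N := by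
    have : M * (N / M) ≤ N := Nat.mul_div_le _ _
    exact_mod_cast this
  have hαβ : α + β ≤ 1 + Real.log 2 / Real.log N := by
    rw [hα, hβ, ← add_div, ← Real.log_mul (by positivity) (by positivity)]
    rw [show (1 : ℝ) + Real.log 2 / Real.log N = (Real.log 2 + Real.log N) / Real.log N by
      field_simp; ring]
    apply div_le_div_of_nonneg_right _ hL.le
    rw [← Real.log_mul (by norm_num) (by positivity)]
    apply Real.log_le_log (by positivity)
    linarith only [hMY]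
  set sa := Real.sqrt (∑ m ∈ Ioc M (2 * M), a m ^ 2) with hsa
  set sb := Real.sqrt (∑ n ∈ Ioc V Y, b n ^ 2) with hsb
  -- the functions of t
  set F : ι → ℝ → ℂ := fun i t => ∑ m ∈ Ioc M (2 * M), ∑ n ∈ Ioc V Y,
    (((a m : ℝ) : ℂ) * ((b n : ℝ) : ℂ) * (χ i m * χ i n)) * (BilK N t m n *
      (((Real.log m / Real.log N + Real.log n / Real.log N) ^ k : ℝ) : ℂ)) with hF
  have hpos1 : ∀ m ∈ Ioc M (2 * M), 1 ≤ m := fun m hm => by have := (mem_Ioc.1 hm).1; omega
  have hpos2 : ∀ n ∈ Ioc V Y, 1 ≤ n := fun n hn => by have := (mem_Ioc.1 hn).1; omega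
  have hFint : ∀ i, Integrable (F i) := by
    intro i
    apply integrable_finsetSum
    intro m hm
    apply integrable_finsetSum
    intro n hn
    exact ((BilK_integrable (by omega) (hpos1 m hm) (hpos2 n hn)).mul_const _).const_mul _
  -- step 1
  have hS : ∀ i ∈ I, ∑ m ∈ Ioc M (2 * M), ((a m : ℝ) : ℂ) *
        ∑ n ∈ Ioc V (N / m), ((b n : ℝ) : ℂ) * (χ i (m * n) * ((W N k (m * n) : ℝ) : ℂ))
      = (1 / (2 * Real.pi)) * ∫ t : ℝ, F i t := by
    intro i hi
    rw [hF, integral_finsetSum, mul_sum]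
    swap
    · intro m hm
      apply integrable_finsetSum
      intro n hn
      exact ((BilK_integrable (by omega) (hpos1 m hm) (hpos2 n hn)).mul_const _).const_mul _
    apply sum_congr rfl
    intro m hm
    rw [integral_finsetSum, mul_sum, mul_sum]
    swap
    · intro n hn
      exact ((BilK_integrable (by omega) (hpos1 m hm) (hpos2 n hn)).mul_const _).const_mul _
    have hsub : Ioc V (N / m) ⊆ Ioc V Y := by
      apply Ioc_subset_Ioc_right
      exact Nat.div_le_div_left (mem_Ioc.1 hm).1.le hM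
    rw [← sum_subset hsub]
    · apply sum_congr rfl
      intro n hn
      rw [integral_const_mul, Bil_W k hN (hpos1 m hm) (hpos2 n (hsub hn)), hmul i hi]
      ring
    · intro n hn hn2
      rw [integral_const_mul]
      have hlt : N < m * n := by
        have h3 : ¬ n ≤ N / m := fun h => hn2 (mem_Ioc.2 ⟨(mem_Ioc.1 hn).1, h⟩)
        push Not at h3
        have := (Nat.div_lt_iff_lt_mul (hpos1 m hm)).1 h3
        rw [mul_comm]; exact this
      have hW : W N k (m * n) = 0 := by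
        unfold W
        rw [om_eq_zero, zero_mul]
        rw [le_div_iff₀ (by linarith only [hNr]), one_mul]
        exact_mod_cast hlt.le
      have := Bil_W k hN (hpos1 m hm) (hpos2 n hn)
      rw [hW] at this
      have h4 : (1 / (2 * Real.pi) : ℂ) * ((((a m : ℝ) : ℂ) * ((b n : ℝ) : ℂ) * (χ i m * χ i n)) * ∫ t : ℝ, BilK N t m n *
        (((Real.log m / Real.log N + Real.log n / Real.log N) ^ k : ℝ) : ℂ))
        = (((a m : ℝ) : ℂ) * ((b n : ℝ) : ℂ) * (χ i m * χ i n)) * ((1 / (2 * Real.pi) : ℂ) * ∫ t : ℝ, BilK N t m n *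
        (((Real.log m / Real.log N + Real.log n / Real.log N) ^ k : ℝ) : ℂ)) := by ring
      rw [h4, ← this]
      simp
  -- the factors
  set P : ι → ℕ → ℝ → ℂ := fun i j t => ∑ m ∈ Ioc M (2 * M),
    ((a m : ℝ) : ℂ) * ((((Real.log m / Real.log N) ^ j : ℝ) : ℂ) * (m : ℂ) ^ (-(t * Complex.I))) * χ i m with hP
  set Q : ι → ℕ → ℝ → ℂ := fun i j t => ∑ n ∈ Ioc V Y,
    ((b n : ℝ) : ℂ) * ((((Real.log n / Real.log N) ^ j : ℝ) : ℂ) * (n : ℂ) ^ (-(t * Complex.I))) * χ i n with hQ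
  have hfac : ∀ i t, F i t = KK 0 t * (N : ℂ) ^ (t * Complex.I) *
      ∑ j ∈ range (k + 1), (k.choose j : ℂ) * (P i j t * Q i (k - j) t) := by
    intro i t
    have e1 : ∀ j, P i j t * Q i (k - j) t = ∑ m ∈ Ioc M (2 * M), ∑ n ∈ Ioc V Y,
        (((a m : ℝ) : ℂ) * ((b n : ℝ) : ℂ) * (χ i m * χ i n)) * ((m : ℂ) ^ (-(t * Complex.I)) * (n : ℂ) ^ (-(t * Complex.I)))
          * ((((Real.log m / Real.log N) ^ j * (Real.log n / Real.log N) ^ (k - j) : ℝ)) : ℂ) := by
      intro j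
      rw [hP, hQ]
      simp only
      rw [sum_mul_sum]
      apply sum_congr rfl; intro m _
      apply sum_congr rfl; intro n _
      push_cast
      ring
    simp only [e1]
    rw [hF]
    simp only [mul_sum]
    rw [sum_comm]
    simp_rw [sum_comm (s := range (k + 1))]
    rw [sum_comm]
    apply sum_congr rfl; intro m _
    apply sum_congr rfl; intro n _
    rw [add_pow]
    unfold BilK
    push_cast
    rw [mul_sum, mul_sum]
    apply sum_congr rfl; intro j _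
    ring
  have hpoint : ∀ t : ℝ, ∑ i ∈ I, w i * ‖F i t‖ ≤ ‖KK 0 t‖ *
      ((1 + Real.log 2 / Real.log N) ^ k * (A * B) * (sa * sb)) := by
    intro t
    have e0 : ∀ i ∈ I, w i * ‖F i t‖ ≤ ‖KK 0 t‖ * ∑ j ∈ range (k + 1), (k.choose j : ℝ) *
        (w i * (‖P i j t‖ * ‖Q i (k - j) t‖)) := by
      intro i hi
      rw [hfac, norm_mul, norm_mul, Bil_norm_cpow (by omega), mul_one]
      have e1 : ‖∑ j ∈ range (k + 1), (k.choose j : ℂ) * (P i j t * Q i (k - j) t)‖
          ≤ ∑ j ∈ range (k + 1), (k.choose j : ℝ) * (‖P i j t‖ * ‖Q i (k - j) t‖) := by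
        refine (norm_sum_le _ _).trans (sum_le_sum ?_)
        intro j _
        rw [norm_mul, norm_mul, Complex.norm_natCast]
      calc w i * (‖KK 0 t‖ * ‖∑ j ∈ range (k + 1), (k.choose j : ℂ) * (P i j t * Q i (k - j) t)‖)
          = ‖KK 0 t‖ * (w i * ‖∑ j ∈ range (k + 1), (k.choose j : ℂ) * (P i j t * Q i (k - j) t)‖) := by ring
        _ ≤ ‖KK 0 t‖ * (w i * ∑ j ∈ range (k + 1), (k.choose j : ℝ) * (‖P i j t‖ * ‖Q i (k - j) t‖)) := by
            apply mul_le_mul_of_nonneg_left _ (norm_nonneg _)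
            exact mul_le_mul_of_nonneg_left e1 (hw i hi)
        _ = _ := by
            congr 1
            rw [mul_sum]
            apply sum_congr rfl; intro j _; ring
    refine (sum_le_sum e0).trans ?_
    rw [← mul_sum, sum_comm]
    apply mul_le_mul_of_nonneg_left _ (norm_nonneg _)
    have e2 : ∀ j ∈ range (k + 1), ∑ i ∈ I, (k.choose j : ℝ) * (w i * (‖P i j t‖ * ‖Q i (k - j) t‖))
        ≤ (k.choose j : ℝ) * ((A * (α ^ j * sa)) * (B * (β ^ (k - j) * sb))) := by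
      intro j _
      rw [← mul_sum]
      apply mul_le_mul_of_nonneg_left _ (Nat.cast_nonneg _)
      apply Bil_cs I w hw
      · positivity
      · positivity
      · apply Bil_coef I w χ _ A h1
        intro m hm
        rw [norm_mul, Bil_norm_cpow' (hpos1 m hm), mul_one, Complex.norm_real, Real.norm_eq_abs, abs_pow]
        have hm1 : (1 : ℝ) ≤ m := by exact_mod_cast hpos1 m hm
        have hm0 : 0 ≤ Real.log m / Real.log N := div_nonneg (Real.log_nonneg hm1) hL.le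
        rw [abs_of_nonneg hm0]
        apply pow_le_pow_left₀ hm0
        apply div_le_div_of_nonneg_right _ hL.le
        apply Real.log_le_log (by linarith only [hm1])
        exact_mod_cast (mem_Ioc.1 hm).2
      · apply Bil_coef I w χ _ B h2
        intro m hm
        rw [norm_mul, Bil_norm_cpow' (hpos2 m hm), mul_one, Complex.norm_real, Real.norm_eq_abs, abs_pow]
        have hm1 : (1 : ℝ) ≤ m := by exact_mod_cast hpos2 m hm
        have hm0 : 0 ≤ Real.log m / Real.log N := div_nonneg (Real.log_nonneg hm1) hL.le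
        rw [abs_of_nonneg hm0]
        apply pow_le_pow_left₀ hm0
        apply div_le_div_of_nonneg_right _ hL.le
        apply Real.log_le_log (by linarith only [hm1])
        exact_mod_cast (mem_Ioc.1 hm).2
    refine (sum_le_sum e2).trans ?_
    have e3 : ∑ j ∈ range (k + 1), (k.choose j : ℝ) * ((A * (α ^ j * sa)) * (B * (β ^ (k - j) * sb)))
        = (α + β) ^ k * (A * B) * (sa * sb) := by
      rw [add_pow, sum_mul, sum_mul]
      apply sum_congr rfl; intro j _; ring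
    rw [e3]
    have e4 : (α + β) ^ k ≤ (1 + Real.log 2 / Real.log N) ^ k := pow_le_pow_left₀ (by linarith only [hα0, hβ0]) hαβ k
    have hsa0 : 0 ≤ sa := Real.sqrt_nonneg _
    have hsb0 : 0 ≤ sb := Real.sqrt_nonneg _
    gcongr
  -- conclusion
  have hc0 : ‖(1 / (2 * Real.pi) : ℂ)‖ = 1 / (2 * Real.pi) := by
    have : (1 / (2 * Real.pi) : ℂ) = ((1 / (2 * Real.pi) : ℝ) : ℂ) := by push_cast; rfl
    rw [this, Complex.norm_real, Real.norm_eq_abs, abs_of_nonneg (by positivity)]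
  calc ∑ i ∈ I, w i * ‖∑ m ∈ Ioc M (2 * M), ((a m : ℝ) : ℂ) *
        ∑ n ∈ Ioc V (N / m), ((b n : ℝ) : ℂ) * (χ i (m * n) * ((W N k (m * n) : ℝ) : ℂ))‖
      ≤ ∑ i ∈ I, 1 / (2 * Real.pi) * ∫ t : ℝ, w i * ‖F i t‖ := by
        apply sum_le_sum
        intro i hi
        rw [hS i hi, norm_mul, hc0, integral_const_mul]
        have := norm_integral_le_integral_norm (μ := volume) (F i)
        have h5 : w i * (1 / (2 * Real.pi) * ‖∫ t : ℝ, F i t‖) ≤ w i * (1 / (2 * Real.pi) * ∫ t : ℝ, ‖F i t‖) := by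
          apply mul_le_mul_of_nonneg_left _ (hw i hi)
          exact mul_le_mul_of_nonneg_left this (by positivity)
        refine h5.trans (le_of_eq (by ring))
    _ = 1 / (2 * Real.pi) * ∫ t : ℝ, ∑ i ∈ I, w i * ‖F i t‖ := by
        rw [← mul_sum, integral_finsetSum]
        intro i _
        exact ((hFint i).norm).const_mul _
    _ ≤ 1 / (2 * Real.pi) * ∫ t : ℝ, ‖KK 0 t‖ *
      ((1 + Real.log 2 / Real.log N) ^ k * (A * B) * (sa * sb)) := by
        apply mul_le_mul_of_nonneg_left _ (by positivity)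
        apply integral_mono
        · apply integrable_finsetSum
          intro i _
          exact ((hFint i).norm).const_mul _
        · exact ((KK_integrable 0 le_rfl).norm).mul_const _
        · intro t; exact hpoint t
    _ = 1 / (2 * Real.pi) * (∫ t : ℝ, ‖KK 0 t‖) *
      ((1 + Real.log 2 / Real.log N) ^ k * (A * B) * (sa * sb)) := by
        rw [integral_mul_const]; ring
    _ ≤ 0.2193 * ((1 + Real.log 2 / Real.log N) ^ k * (A * B) * (sa * sb)) := by
        apply mul_le_mul_of_nonneg_right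
        · have := integral_norm_KK_le 0 le_rfl
          rw [one_div, inv_mul_le_iff₀ (by positivity)]
          refine this.trans (le_of_eq (by ring))
        · have hsa0 : 0 ≤ sa := Real.sqrt_nonneg _
          have hsb0 : 0 ≤ sb := Real.sqrt_nonneg _
          positivity
    _ = _ := by ring

end Pool.Agent.H91.PK

end
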