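import Pool.Agent.H15.TB1.M14
import Pool.Agent.H15.TB1.M15

/-! The parts of this file: H91.PK.TyB. -/

section

/-!
PK TyB: type II sum for one dyadic block of m, averaged over primitive characters of conductor in (Q, D].

Let Y = N / M.  Dyadic decomposition of r: R_l = 2^l Q, l < nl; the blocks (R_l, 2R_l] cover (Q, D] as D ≤ 2^nl Q.
For one block apply `bilinear_sep` with I = {(r,χ) : R_l < r ≤ 2R_l, χ primitive mod r} (a sigma finset),
 w = 1/φ(r), χ_i(n) = χ(n : ZMod r) (multiplicative via Nat.cast_mul, map_mul),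
 A² = (4R² + πM)/R, B² = (4R² + πY)/R (R = R_l ≥ 1):   (h1), (h2) follow from
 1/φ(r) ≤ (1/R)(r/φ(r)) and `mult_ls` with R := 2R_l, (K0,K) = (M, M) resp. (V, Y - V) (if Y < V the sums are empty; K ≤ Y).
 A B ≤ (1/R)(2R + √(πM))(2R + √(πY)) = 4R + 2√π(√M + √Y) + π √(M Y)/R,   M Y ≤ N.
 ∑_l 4R_l ≤ 4·2^nl Q ≤ 8D,  ∑_l 1/R_l ≤ 2/Q.
-/

set_option autoImplicit false

namespace Pool.Agent.H91.PK

open Finset

private theorem TyB_ls (R K0 K : ℕ) (hR : 1 ≤ R) (a : ℕ → ℂ) :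
    ∑ i ∈ (Ioc R (2 * R)).sigma (fun r => Pch r), (1 / (i.1.totient : ℝ)) *
      ‖∑ n ∈ Ioc K0 (K0 + K), a n * i.2 (n : ZMod i.1)‖ ^ 2
      ≤ ((4 * (R : ℝ) ^ 2 + Real.pi * K) / R) * ∑ n ∈ Ioc K0 (K0 + K), ‖a n‖ ^ 2 := by
  rw [Finset.sum_sigma]
  have hR0 : (0 : ℝ) < R := by exact_mod_cast hR
  have h1 := mult_ls (2 * R) K0 K a
  have h2 : ∑ r ∈ Ioc R (2 * R), ∑ χ ∈ Pch r, (1 / (r.totient : ℝ)) *
      ‖∑ n ∈ Ioc K0 (K0 + K), a n * χ (n : ZMod r)‖ ^ 2 ≤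
      (1 / (R : ℝ)) * ∑ r ∈ Icc 1 (2 * R), ((r : ℝ) / r.totient) * ∑ χ ∈ Pch r,
      ‖∑ n ∈ Ioc K0 (K0 + K), a n * χ (n : ZMod r)‖ ^ 2 := by
    rw [Finset.mul_sum]
    calc ∑ r ∈ Ioc R (2 * R), ∑ χ ∈ Pch r, (1 / (r.totient : ℝ)) *
          ‖∑ n ∈ Ioc K0 (K0 + K), a n * χ (n : ZMod r)‖ ^ 2
        ≤ ∑ r ∈ Ioc R (2 * R), (1 / (R : ℝ)) * (((r : ℝ) / r.totient) * ∑ χ ∈ Pch r,
          ‖∑ n ∈ Ioc K0 (K0 + K), a n * χ (n : ZMod r)‖ ^ 2) := by
          apply Finset.sum_le_sum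
          intro r hr
          rw [Finset.mem_Ioc] at hr
          rw [← Finset.mul_sum, ← mul_assoc]
          have hr0 : 0 < r := by omega
          have hφ : (0 : ℝ) < r.totient := by exact_mod_cast Nat.totient_pos.2 hr0
          apply mul_le_mul_of_nonneg_right _ (Finset.sum_nonneg (fun _ _ => by positivity))
          rw [div_mul_div_comm, one_mul, div_le_div_iff₀ hφ (mul_pos hR0 hφ)]
          have : (R : ℝ) ≤ r := by exact_mod_cast hr.1.le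
          nlinarith only [this]
      _ ≤ _ := by
          apply Finset.sum_le_sum_of_subset_of_nonneg
          · intro r hr
            rw [Finset.mem_Ioc] at hr
            rw [Finset.mem_Icc]
            omega
          · intro r _ _
            positivity
  refine h2.trans ?_
  have h3 : ((4 * (R : ℝ) ^ 2 + Real.pi * K) / R) * ∑ n ∈ Ioc K0 (K0 + K), ‖a n‖ ^ 2 =
      (1 / (R : ℝ)) * ((((2 * R : ℕ) : ℝ) ^ 2 + Real.pi * K) * ∑ n ∈ Ioc K0 (K0 + K), ‖a n‖ ^ 2) := by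
    push_cast
    ring
  rw [h3]
  exact mul_le_mul_of_nonneg_left h1 (by positivity)

private theorem TyB_AB (R M Y N : ℝ) (hR : 0 < R) (hM : 0 ≤ M) (hY : 0 ≤ Y) (hMY : M * Y ≤ N) :
    Real.sqrt ((4 * R ^ 2 + Real.pi * M) / R) * Real.sqrt ((4 * R ^ 2 + Real.pi * Y) / R) ≤
      4 * R + 2 * Real.sqrt Real.pi * (Real.sqrt M + Real.sqrt Y) + Real.pi * Real.sqrt N / R := by
  have hpi := Real.pi_pos
  have hA : Real.sqrt (4 * R ^ 2 + Real.pi * M) ≤ 2 * R + Real.sqrt Real.pi * Real.sqrt M := by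
    rw [Real.sqrt_le_left (by positivity)]
    have e1 := Real.sq_sqrt hpi.le
    have e2 := Real.sq_sqrt hM
    have e3 : 0 ≤ R * (Real.sqrt Real.pi * Real.sqrt M) := by positivity
    nlinarith only [e1, e2, e3]
  have hB : Real.sqrt (4 * R ^ 2 + Real.pi * Y) ≤ 2 * R + Real.sqrt Real.pi * Real.sqrt Y := by
    rw [Real.sqrt_le_left (by positivity)]
    have e1 := Real.sq_sqrt hpi.le
    have e2 := Real.sq_sqrt hY
    have e3 : 0 ≤ R * (Real.sqrt Real.pi * Real.sqrt Y) := by positivity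
    nlinarith only [e1, e2, e3]
  rw [Real.sqrt_div (by positivity), Real.sqrt_div (by positivity), div_mul_div_comm,
    Real.mul_self_sqrt hR.le]
  have h1 := mul_le_mul hA hB (Real.sqrt_nonneg _) (by positivity)
  have h2 : Real.sqrt M * Real.sqrt Y ≤ Real.sqrt N := by
    rw [← Real.sqrt_mul hM]
    exact Real.sqrt_le_sqrt hMY
  have h3 : (2 * R + Real.sqrt Real.pi * Real.sqrt M) * (2 * R + Real.sqrt Real.pi * Real.sqrt Y) ≤
      4 * R ^ 2 + 2 * R * Real.sqrt Real.pi * (Real.sqrt M + Real.sqrt Y) +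
        Real.pi * Real.sqrt N := by
    have e1 := Real.mul_self_sqrt hpi.le
    have e2 := mul_le_mul_of_nonneg_left h2 hpi.le
    have e3 : (2 * R + Real.sqrt Real.pi * Real.sqrt M) * (2 * R + Real.sqrt Real.pi * Real.sqrt Y) =
      4 * R ^ 2 + 2 * R * Real.sqrt Real.pi * (Real.sqrt M + Real.sqrt Y) +
        (Real.sqrt Real.pi * Real.sqrt Real.pi) * (Real.sqrt M * Real.sqrt Y) := by ring
    rw [e3, e1]
    linarith only [e2]
  rw [div_le_iff₀ hR]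
  have h4 : (4 * R + 2 * Real.sqrt Real.pi * (Real.sqrt M + Real.sqrt Y) +
      Real.pi * Real.sqrt N / R) * R = 4 * R ^ 2 + 2 * R * Real.sqrt Real.pi *
      (Real.sqrt M + Real.sqrt Y) + Real.pi * Real.sqrt N := by
    field_simp
  rw [h4]
  exact h1.trans h3

private theorem TyB_one (N k M V R : ℕ) (hN : 2 ≤ N) (hM : 1 ≤ M) (hR : 1 ≤ R) (a b : ℕ → ℝ) :
    ∑ r ∈ Ioc R (2 * R), (1 / (r.totient : ℝ)) * ∑ χ ∈ Pch r,
      ‖∑ m ∈ Ioc M (2 * M), ((a m : ℝ) : ℂ) * ∑ n ∈ Ioc V (N / m), ((b n : ℝ) : ℂ) *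
        (χ ((m * n : ℕ) : ZMod r) * ((W N k (m * n) : ℝ) : ℂ))‖
      ≤ 0.2193 * (1 + Real.log 2 / Real.log N) ^ k *
        (4 * R + 2 * Real.sqrt Real.pi * (Real.sqrt M + Real.sqrt ((N / M : ℕ) : ℝ)) +
          Real.pi * Real.sqrt N / R) *
        (Real.sqrt (∑ m ∈ Ioc M (2 * M), a m ^ 2) * Real.sqrt (∑ n ∈ Ioc V (N / M), b n ^ 2)) := by
  have hR0 : (0 : ℝ) < R := by exact_mod_cast hR
  have hpi := Real.pi_pos
  have hL : 0 ≤ Real.log N := Real.log_nonneg (by exact_mod_cast (by omega : 1 ≤ N))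
  have hA0 : 0 ≤ (4 * (R : ℝ) ^ 2 + Real.pi * M) / R := by positivity
  have hB0 : 0 ≤ (4 * (R : ℝ) ^ 2 + Real.pi * ((N / M : ℕ) : ℝ)) / R := by positivity
  have key := bilinear_sep ((Ioc R (2 * R)).sigma (fun r => Pch r))
    (fun i => 1 / (i.1.totient : ℝ)) (fun i _ => by positivity)
    (fun i n => i.2 (n : ZMod i.1))
    (fun i _ m n => by
      show i.2 ((m * n : ℕ) : ZMod i.1) = i.2 (m : ZMod i.1) * i.2 (n : ZMod i.1)
      rw [Nat.cast_mul, map_mul]) N k M V hN hM a b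
    (Real.sqrt ((4 * (R : ℝ) ^ 2 + Real.pi * M) / R))
    (Real.sqrt ((4 * (R : ℝ) ^ 2 + Real.pi * ((N / M : ℕ) : ℝ)) / R))
    (Real.sqrt_nonneg _) (Real.sqrt_nonneg _)
    (by
      intro α
      rw [Real.sq_sqrt hA0]
      have := TyB_ls R M M hR α
      rwa [← two_mul] at this)
    (by
      intro β
      rw [Real.sq_sqrt hB0]
      rcases Nat.lt_or_ge (N / M) V with h | h
      · have : Ioc V (N / M) = ∅ := Finset.Ioc_eq_empty (by omega)
        rw [this]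
        simp
      · have h1 := TyB_ls R V (N / M - V) hR β
        rw [show V + (N / M - V) = N / M by omega] at h1
        refine h1.trans ?_
        apply mul_le_mul_of_nonneg_right _ (Finset.sum_nonneg (fun _ _ => by positivity))
        apply div_le_div_of_nonneg_right _ hR0.le
        have : ((N / M - V : ℕ) : ℝ) ≤ ((N / M : ℕ) : ℝ) := by exact_mod_cast Nat.sub_le _ _
        nlinarith only [hpi, this])
  rw [Finset.sum_sigma] at key
  have e0 : ∑ r ∈ Ioc R (2 * R), (1 / (r.totient : ℝ)) * ∑ χ ∈ Pch r,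
      ‖∑ m ∈ Ioc M (2 * M), ((a m : ℝ) : ℂ) * ∑ n ∈ Ioc V (N / m), ((b n : ℝ) : ℂ) *
        (χ ((m * n : ℕ) : ZMod r) * ((W N k (m * n) : ℝ) : ℂ))‖ =
      ∑ r ∈ Ioc R (2 * R), ∑ χ ∈ Pch r, (1 / (r.totient : ℝ)) *
      ‖∑ m ∈ Ioc M (2 * M), ((a m : ℝ) : ℂ) * ∑ n ∈ Ioc V (N / m), ((b n : ℝ) : ℂ) *
        (χ ((m * n : ℕ) : ZMod r) * ((W N k (m * n) : ℝ) : ℂ))‖ :=
    Finset.sum_congr rfl (fun r _ => Finset.mul_sum _ _ _)
  rw [e0]
  refine key.trans ?_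
  apply mul_le_mul_of_nonneg_right _ (by positivity)
  apply mul_le_mul_of_nonneg_left _ (by positivity)
  apply TyB_AB _ _ _ _ hR0 (by positivity) (by positivity)
  have : M * (N / M) ≤ N := Nat.mul_div_le N M
  exact_mod_cast this

private theorem TyB_dyadic (f : ℕ → ℝ) (Q : ℕ) (nl : ℕ) :
    ∑ r ∈ Ioc Q (2 ^ nl * Q), f r = ∑ l ∈ range nl, ∑ r ∈ Ioc (2 ^ l * Q) (2 * (2 ^ l * Q)), f r := by
  induction nl with
  | zero => simp
  | succ n ih =>
    rw [Finset.sum_range_succ, ← ih]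
    have h1 : Q ≤ 2 ^ n * Q := Nat.le_mul_of_pos_left _ (by positivity)
    have h2 : 2 ^ (n + 1) * Q = 2 * (2 ^ n * Q) := by ring
    rw [h2]
    exact (Finset.sum_Ioc_consecutive f h1 (by omega)).symm

theorem type2_block (N k M V Q D nl : ℕ) (hN : 2 ≤ N) (hM : 1 ≤ M) (hQ : 1 ≤ Q)
    (h1 : D ≤ 2 ^ nl * Q) (h2 : 2 ^ nl * Q ≤ 2 * D) (a b : ℕ → ℝ) :
    ∑ r ∈ Ioc Q D, (1 / (r.totient : ℝ)) * ∑ χ ∈ Pch r,
      ‖∑ m ∈ Ioc M (2 * M), ((a m : ℝ) : ℂ) * ∑ n ∈ Ioc V (N / m), ((b n : ℝ) : ℂ) *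
        (χ ((m * n : ℕ) : ZMod r) * ((W N k (m * n) : ℝ) : ℂ))‖
      ≤ 0.2193 * (1 + Real.log 2 / Real.log N) ^ k *
        (2 * Real.pi * Real.sqrt N / Q + 2 * Real.sqrt Real.pi * nl * (Real.sqrt M + Real.sqrt ((N / M : ℕ) : ℝ))
          + 8 * D) *
        (Real.sqrt (∑ m ∈ Ioc M (2 * M), a m ^ 2) * Real.sqrt (∑ n ∈ Ioc V (N / M), b n ^ 2)) := by
  have hQ0 : (0 : ℝ) < Q := by exact_mod_cast hQ
  have hpi := Real.pi_pos
  have hL : 0 ≤ Real.log N := Real.log_nonneg (by exact_mod_cast (by omega : 1 ≤ N))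
  set f : ℕ → ℝ := fun r => (1 / (r.totient : ℝ)) * ∑ χ ∈ Pch r,
      ‖∑ m ∈ Ioc M (2 * M), ((a m : ℝ) : ℂ) * ∑ n ∈ Ioc V (N / m), ((b n : ℝ) : ℂ) *
        (χ ((m * n : ℕ) : ZMod r) * ((W N k (m * n) : ℝ) : ℂ))‖ with hf
  have hf0 : ∀ r, 0 ≤ f r := fun r => by
    simp only [hf]
    positivity
  set E : ℝ := Real.sqrt (∑ m ∈ Ioc M (2 * M), a m ^ 2) * Real.sqrt (∑ n ∈ Ioc V (N / M), b n ^ 2)
    with hE
  have hE0 : 0 ≤ E := by positivity
  set c : ℝ := 0.2193 * (1 + Real.log 2 / Real.log N) ^ k with hc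
  have hc0 : 0 ≤ c := by positivity
  set s : ℝ := 2 * Real.sqrt Real.pi * (Real.sqrt M + Real.sqrt ((N / M : ℕ) : ℝ)) with hs
  have hs0 : 0 ≤ s := by positivity
  have step1 : ∑ r ∈ Ioc Q D, f r ≤ ∑ r ∈ Ioc Q (2 ^ nl * Q), f r :=
    Finset.sum_le_sum_of_subset_of_nonneg (Finset.Ioc_subset_Ioc_right h1) (fun r _ _ => hf0 r)
  have step2 : ∑ r ∈ Ioc Q (2 ^ nl * Q), f r ≤ ∑ l ∈ range nl,
      c * (4 * ((2 : ℝ) ^ l * Q) + s + Real.pi * Real.sqrt N / ((2 : ℝ) ^ l * Q)) * E := by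
    rw [TyB_dyadic]
    apply Finset.sum_le_sum
    intro l _
    have hRl : 1 ≤ 2 ^ l * Q := Nat.mul_pos (by positivity) hQ
    have := TyB_one N k M V (2 ^ l * Q) hN hM hRl a b
    have hcast : ((2 ^ l * Q : ℕ) : ℝ) = (2 : ℝ) ^ l * Q := by push_cast; ring
    rw [hcast] at this
    exact this
  have g1 : ∀ n : ℕ, ∑ l ∈ range n, (2 : ℝ) ^ l = 2 ^ n - 1 := by
    intro n
    induction n with
    | zero => simp
    | succ n ih => rw [Finset.sum_range_succ, ih]; ring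
  have g2 : ∀ n : ℕ, ∑ l ∈ range n, 1 / (2 : ℝ) ^ l ≤ 2 := by
    intro n
    have : ∑ l ∈ range n, 1 / (2 : ℝ) ^ l = 2 - 2 / 2 ^ n := by
      induction n with
      | zero => norm_num
      | succ n ih =>
        rw [Finset.sum_range_succ, ih]
        field_simp
        ring
    rw [this]
    have : (0 : ℝ) < 2 / 2 ^ n := by positivity
    linarith only [this]
  have step3 : ∑ l ∈ range nl,
      c * (4 * ((2 : ℝ) ^ l * Q) + s + Real.pi * Real.sqrt N / ((2 : ℝ) ^ l * Q)) * E =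
      c * (4 * Q * ∑ l ∈ range nl, (2 : ℝ) ^ l + nl * s +
        Real.pi * Real.sqrt N / Q * ∑ l ∈ range nl, 1 / (2 : ℝ) ^ l) * E := by
    rw [← Finset.sum_mul, ← Finset.mul_sum, Finset.sum_add_distrib, Finset.sum_add_distrib,
      Finset.mul_sum, Finset.mul_sum, Finset.sum_const, Finset.card_range, nsmul_eq_mul]
    congr 3
    · congr 1
      exact Finset.sum_congr rfl (fun l _ => by ring)
    · refine Finset.sum_congr rfl (fun l _ => ?_)
      field_simp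
  refine (step1.trans step2).trans ?_
  rw [step3]
  apply mul_le_mul_of_nonneg_right _ hE0
  apply mul_le_mul_of_nonneg_left _ hc0
  rw [g1]
  have k1 : 4 * (Q : ℝ) * (2 ^ nl - 1) ≤ 8 * D := by
    have : ((2 ^ nl * Q : ℕ) : ℝ) ≤ ((2 * D : ℕ) : ℝ) := by exact_mod_cast h2
    push_cast at this
    linarith only [this]
  have k2 : Real.pi * Real.sqrt N / Q * ∑ l ∈ range nl, 1 / (2 : ℝ) ^ l ≤
      2 * Real.pi * Real.sqrt N / Q := by
    have := mul_le_mul_of_nonneg_left (g2 nl) (by positivity : 0 ≤ Real.pi * Real.sqrt N / Q)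
    refine this.trans (le_of_eq ?_)
    ring
  have k3 : (nl : ℝ) * s = 2 * Real.sqrt Real.pi * nl *
      (Real.sqrt M + Real.sqrt ((N / M : ℕ) : ℝ)) := by
    rw [hs]; ring
  linarith only [k1, k2]

end Pool.Agent.H91.PK

end
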