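import Pool.Agent.H15.TB1.M01
import Pool.Agent.H15.TB1.M41

/-! The parts of this file: H91.PK.Msq, H91.PK.TyC. -/

section

/-!
PK Msq: mean squares of the type II coefficients.

* `sum_moebius_coprime`: for y ≥ 1, g ≥ 1: |∑_{e ≤ y, (e,g)=1} μ(e)/e| ≤ 1.
  Proof: y ∑ μ(e)/e = ∑ μ(e) floor(y/e) + ∑ μ(e) frac(y/e), and ∑_{e ≤ y,(e,g)=1} μ(e) floor(y/e)
   = ∑_{n ≤ y} ∑_{e | n, (e,g)=1} μ(e) = κ := #{n ≤ y : every prime factor of n divides g} ≥ 1 (n = 1).
  The fractional parts are in [0,1) and 0 for e = 1; the e > 1 coprime to g are not counted in κ, so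
   κ + #{2 ≤ e ≤ y, (e,g)=1} ≤ y, hence |y ∑ μ(e)/e| ≤ y.
* `cV_sq_large`: for n ≥ 2, cV V n = - ∑_{d | n, d ≤ V} μ(d).  ∑_{n ≤ Y} (∑_{d|n,d≤V} μ(d))²
   = ∑_{d1,d2 ≤ V} μ(d1)μ(d2) floor(Y/[d1,d2]) ≤ Y ∑ μ(d1)μ(d2)/[d1,d2] + V², and
   ∑_{d1,d2≤V} μμ/[d1,d2] = ∑_{g ≤ V} φ(g) (∑_{d ≤ V, g | d} μ(d)/d)²   ((d1,d2) = ∑_{g | d1, g | d2} φ(g)), and for
   squarefree g, ∑_{d≤V, g|d} μ(d)/d = (μ(g)/g) ∑_{e ≤ V/g, (e,g)=1} μ(e)/e (0 if g is not squarefree), so the sum is
   ≤ ∑_{g≤V} φ(g)/g² ≤ ∑_{g ≤ V} 1/g ≤ log V + 1.   With V² ≤ Y: total ≤ Y (log V + 2).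
* `cV_sq_all`: |cV V n| ≤ τ(n), and ∑_{n≤Y} τ(n)² ≤ Y (log Y + 1)³:
   ∑_{n≤Y} τ(n)² = ∑_{n} ∑_{d m = n} τ(dm) ≤ ∑_{d≤Y} τ(d) ∑_{m ≤ Y/d} τ(m) ≤ ∑_d τ(d) (Y/d)(1+log Y)
   ≤ Y (1+log Y) (∑_{a≤Y} 1/a)².
* `Lam_sq`: ∑_{M<m≤2M} Λ(m)² ≤ log(2M) ψ(2M) ≤ log(2M) (log 3) 2M  (`Pool.Agent.H91.Gold.psi_le_log_three`),
   log 3 ≤ 1.0987 (`Pool.Agent.H91.Gold.log_three_bounds`).
-/

set_option autoImplicit false

namespace Pool.Agent.H91.PK

open Finset ArithmeticFunction

theorem Msq_sum_moebius (n : ℕ) :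
    ∑ d ∈ n.divisors, (moebius d : ℤ) = if n = 1 then 1 else 0 := by
  rw [← coe_mul_zeta_apply, moebius_mul_coe_zeta, one_apply]

theorem Msq_moebius_prime_mul {p e : ℕ} (hp : p.Prime) (he : ¬ p ∣ e) :
    moebius (p * e) = - moebius e := by
  rw [isMultiplicative_moebius.map_mul_of_coprime ((Nat.Prime.coprime_iff_not_dvd hp).2 he),
    moebius_apply_prime hp]
  ring

theorem Msq_moebius_sq_dvd {p e : ℕ} (hp : p.Prime) (he : p ^ 2 ∣ e) : moebius e = 0 := by
  apply moebius_eq_zero_of_not_squarefree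
  intro h
  rw [pow_two] at he
  have := h p he
  exact hp.one_lt.ne' (Nat.isUnit_iff.1 this)

/-- if some prime factor of `n` does not divide `g` the coprime part of the sum vanishes -/
theorem Msq_s_zero {n g p : ℕ} (hn : n ≠ 0) (hp : p.Prime) (hpn : p ∣ n) (hpg : ¬ p ∣ g) :
    ∑ e ∈ n.divisors.filter (fun e => Nat.Coprime e g), (moebius e : ℤ) = 0 := by
  classical
  have hcp : Nat.Coprime p g := (Nat.Prime.coprime_iff_not_dvd hp).2 hpg
  refine Finset.sum_involution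
    (fun e _ => if p ∣ e then (if p ^ 2 ∣ e then e else e / p) else p * e) ?_ ?_ ?_ ?_
  · intro e _
    by_cases h1 : p ∣ e
    · by_cases h2 : p ^ 2 ∣ e
      · simp [h1, h2, Msq_moebius_sq_dvd hp h2]
      · simp only [h1, h2, if_true, if_false]
        obtain ⟨f, rfl⟩ := h1
        have hf : ¬ p ∣ f := by
          intro h
          apply h2
          rw [pow_two]
          exact Nat.mul_dvd_mul_left p h
        rw [Nat.mul_div_cancel_left f hp.pos, Msq_moebius_prime_mul hp hf]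
        ring
    · simp only [h1, if_false]
      rw [Msq_moebius_prime_mul hp h1]
      ring
  · intro e he hne
    have he0 : 0 < e := Nat.pos_of_mem_divisors (mem_filter.1 he).1
    by_cases h1 : p ∣ e
    · by_cases h2 : p ^ 2 ∣ e
      · exact absurd (Msq_moebius_sq_dvd hp h2) hne
      · simp only [h1, h2, if_true, if_false]
        exact (Nat.div_lt_self he0 hp.one_lt).ne
    · simp only [h1, if_false]
      have := hp.one_lt
      intro h
      have : 1 * e < p * e := Nat.mul_lt_mul_of_pos_right this he0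
      omega
  · intro e he
    rw [mem_filter, Nat.mem_divisors] at he ⊢
    obtain ⟨⟨hen, _⟩, hc⟩ := he
    by_cases h1 : p ∣ e
    · by_cases h2 : p ^ 2 ∣ e
      · simp only [h1, h2, if_true]
        exact ⟨⟨hen, hn⟩, hc⟩
      · simp only [h1, h2, if_true, if_false]
        exact ⟨⟨(Nat.div_dvd_of_dvd h1).trans hen, hn⟩,
          Nat.Coprime.coprime_dvd_left (Nat.div_dvd_of_dvd h1) hc⟩
    · simp only [h1, if_false]
      refine ⟨⟨?_, hn⟩, Nat.Coprime.mul_left hcp hc⟩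
      exact Nat.Coprime.mul_dvd_of_dvd_of_dvd ((Nat.Prime.coprime_iff_not_dvd hp).2 h1) hpn hen
  · intro e he
    by_cases h1 : p ∣ e
    · by_cases h2 : p ^ 2 ∣ e
      · simp [h1, h2]
      · simp only [h1, h2, if_true, if_false]
        obtain ⟨f, rfl⟩ := h1
        have hf : ¬ p ∣ f := by
          intro h
          apply h2
          rw [pow_two]
          exact Nat.mul_dvd_mul_left p h
        simp [Nat.mul_div_cancel_left f hp.pos, hf]
    · simp only [h1, if_false]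
      have h3 : ¬ p ^ 2 ∣ p * e := by
        intro h
        apply h1
        rw [pow_two] at h
        exact (Nat.mul_dvd_mul_iff_left hp.pos).1 h
      simp [h3, Nat.mul_div_cancel_left e hp.pos]

theorem Msq_s_one {n g : ℕ} (hn : n ≠ 0) (h : ∀ p, p.Prime → p ∣ n → p ∣ g) :
    ∑ e ∈ n.divisors.filter (fun e => Nat.Coprime e g), (moebius e : ℤ) = 1 := by
  have : n.divisors.filter (fun e => Nat.Coprime e g) = {1} := by
    ext e
    rw [mem_filter, Nat.mem_divisors, mem_singleton]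
    constructor
    · rintro ⟨⟨hen, -⟩, hc⟩
      by_contra he
      obtain ⟨p, hp, hpe⟩ := Nat.exists_prime_and_dvd he
      exact Nat.not_coprime_of_dvd_of_dvd hp.one_lt hpe (h p hp (hpe.trans hen)) hc
    · rintro rfl
      exact ⟨⟨one_dvd _, hn⟩, Nat.coprime_one_left g⟩
  rw [this, sum_singleton]
  simp

/-- the local inequality used in `sum_moebius_coprime` -/
theorem Msq_s_bound {n g : ℕ} (hn : n ≠ 0) :
    0 ≤ ∑ e ∈ n.divisors.filter (fun e => Nat.Coprime e g), (moebius e : ℤ) ∧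
    ∑ e ∈ n.divisors.filter (fun e => Nat.Coprime e g), (moebius e : ℤ) +
      (if n ≠ 1 ∧ Nat.Coprime n g then 1 else 0) ≤ 1 := by
  by_cases h : ∀ p, p.Prime → p ∣ n → p ∣ g
  · rw [Msq_s_one hn h]
    refine ⟨by norm_num, ?_⟩
    rw [if_neg]
    · norm_num
    · rintro ⟨h1, h2⟩
      obtain ⟨p, hp, hpe⟩ := Nat.exists_prime_and_dvd h1
      exact Nat.not_coprime_of_dvd_of_dvd hp.one_lt hpe (h p hp hpe) h2
  · push Not at h
    obtain ⟨p, hp, hpn, hpg⟩ := h
    rw [Msq_s_zero hn hp hpn hpg]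
    refine ⟨le_rfl, ?_⟩
    split_ifs <;> norm_num

theorem Msq_Icc_dvd_card (n d : ℕ) : ((Icc 1 n).filter (fun x => d ∣ x)).card = n / d := by
  rw [← Nat.Ioc_filter_dvd_card_eq_div]
  congr 1

theorem Msq_abs_moebius (e : ℕ) : |(moebius e : ℝ)| ≤ 1 := by
  have := @abs_moebius_le_one e
  have h2 : ((|moebius e| : ℤ) : ℝ) ≤ ((1 : ℤ) : ℝ) := by exact_mod_cast this
  simpa using h2

theorem sum_moebius_coprime (g y : ℕ) (hg : 1 ≤ g) (hy : 1 ≤ y) :
    |∑ e ∈ (Icc 1 y).filter (fun e => Nat.Coprime e g), (ArithmeticFunction.moebius e : ℝ) / e| ≤ 1 := by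
  classical
  set F := (Icc 1 y).filter (fun e => Nat.Coprime e g) with hF
  have hy0 : (0 : ℝ) < y := by exact_mod_cast hy
  -- kappa
  have hk : ∑ e ∈ F, (moebius e : ℤ) * ((y / e : ℕ) : ℤ) =
      ∑ n ∈ Icc 1 y, ∑ e ∈ n.divisors.filter (fun e => Nat.Coprime e g), (moebius e : ℤ) := by
    have h1 : ∀ e ∈ F, (moebius e : ℤ) * ((y / e : ℕ) : ℤ) =
        ∑ n ∈ (Icc 1 y).filter (fun n => e ∣ n), (moebius e : ℤ) := by
      intro e _
      rw [sum_const, Msq_Icc_dvd_card]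
      simp [mul_comm]
    rw [sum_congr rfl h1]
    refine Finset.sum_comm' ?_
    intro e n
    simp only [hF, mem_filter, mem_Icc, Nat.mem_divisors]
    constructor
    · rintro ⟨⟨⟨h1, h2⟩, h3⟩, ⟨h4, h5⟩, h6⟩
      exact ⟨⟨⟨h6, by omega⟩, h3⟩, h4, h5⟩
    · rintro ⟨⟨⟨h1, h2⟩, h3⟩, h4, h5⟩
      exact ⟨⟨⟨Nat.pos_of_dvd_of_pos h1 (by omega), (Nat.le_of_dvd (by omega) h1).trans h5⟩, h3⟩,
        ⟨h4, h5⟩, h1⟩
  set κ : ℤ := ∑ n ∈ Icc 1 y, ∑ e ∈ n.divisors.filter (fun e => Nat.Coprime e g), (moebius e : ℤ)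
    with hκ
  set C : ℤ := ∑ e ∈ F, (if e ≠ 1 then 1 else 0) with hC
  have hκ0 : 0 ≤ κ := by
    apply sum_nonneg
    intro n hn
    have : n ≠ 0 := by
      rw [mem_Icc] at hn
      omega
    exact (Msq_s_bound this).1
  have hκC : κ + C ≤ y := by
    have e1 : C = ∑ n ∈ Icc 1 y, (if n ≠ 1 ∧ Nat.Coprime n g then 1 else 0) := by
      rw [hC, hF, sum_filter]
      apply sum_congr rfl
      intro n _
      by_cases h1 : Nat.Coprime n g <;> by_cases h2 : n = 1 <;> simp [h1, h2]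
    rw [e1, hκ, ← sum_add_distrib]
    calc ∑ n ∈ Icc 1 y, (∑ e ∈ n.divisors.filter (fun e => Nat.Coprime e g), (moebius e : ℤ) +
          (if n ≠ 1 ∧ Nat.Coprime n g then 1 else 0)) ≤ ∑ n ∈ Icc 1 y, (1 : ℤ) := by
          apply sum_le_sum
          intro n hn
          have : n ≠ 0 := by
            rw [mem_Icc] at hn
            omega
          exact (Msq_s_bound this).2
      _ = y := by simp
  have hkR : ∑ e ∈ F, (moebius e : ℝ) * ((y / e : ℕ) : ℝ) = κ := by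
    rw [← hk]
    push_cast
    rfl
  have hsplit : (y : ℝ) * ∑ e ∈ F, (moebius e : ℝ) / e =
      ∑ e ∈ F, (moebius e : ℝ) * ((y / e : ℕ) : ℝ) +
      ∑ e ∈ F, (moebius e : ℝ) * ((y : ℝ) / e - ((y / e : ℕ) : ℝ)) := by
    rw [mul_sum, ← sum_add_distrib]
    apply sum_congr rfl
    intro e _
    ring
  have hT : |∑ e ∈ F, (moebius e : ℝ) * ((y : ℝ) / e - ((y / e : ℕ) : ℝ))| ≤ C := by
    rw [hC]
    push_cast
    refine (abs_sum_le_sum_abs _ _).trans (sum_le_sum ?_)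
    intro e he
    rw [hF, mem_filter, mem_Icc] at he
    have he0 : (0 : ℝ) < e := by exact_mod_cast he.1.1
    by_cases h1 : e = 1
    · subst h1
      simp
    · rw [if_pos h1, abs_mul]
      have h2 : ((y / e : ℕ) : ℝ) ≤ (y : ℝ) / e := Nat.cast_div_le
      have h3 : (y : ℝ) / e < ((y / e : ℕ) : ℝ) + 1 := by
        rw [div_lt_iff₀ he0]
        have := Nat.lt_div_mul_add (a := y) (b := e) (by omega)
        have h4 : y < (y / e + 1) * e := by
          rw [add_mul, one_mul]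
          exact this
        exact_mod_cast h4
      have h5 : |(y : ℝ) / e - ((y / e : ℕ) : ℝ)| ≤ 1 := by
        rw [abs_le]
        constructor <;> linarith only [h2, h3]
      calc |(moebius e : ℝ)| * |(y : ℝ) / e - ((y / e : ℕ) : ℝ)| ≤ 1 * 1 :=
            mul_le_mul (Msq_abs_moebius e) h5 (abs_nonneg _) zero_le_one
        _ = 1 := by norm_num
  have hfin : |(y : ℝ) * ∑ e ∈ F, (moebius e : ℝ) / e| ≤ y := by
    rw [hsplit, hkR]
    have h1 : (κ : ℝ) + C ≤ y := by exact_mod_cast hκC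
    have h2 : (0 : ℝ) ≤ κ := by exact_mod_cast hκ0
    calc |(κ : ℝ) + ∑ e ∈ F, (moebius e : ℝ) * ((y : ℝ) / e - ((y / e : ℕ) : ℝ))|
        ≤ |(κ : ℝ)| + |∑ e ∈ F, (moebius e : ℝ) * ((y : ℝ) / e - ((y / e : ℕ) : ℝ))| :=
          abs_add_le _ _
      _ ≤ κ + C := by
          rw [abs_of_nonneg h2]
          linarith only [hT]
      _ ≤ y := h1
  rw [abs_mul, abs_of_pos hy0] at hfin
  have : (y : ℝ) * |∑ e ∈ F, (moebius e : ℝ) / e| ≤ y * 1 := by linarith only [hfin]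
  exact le_of_mul_le_mul_left this hy0

theorem Msq_harmonic (n : ℕ) : ∑ g ∈ Icc 1 n, (1 : ℝ) / g ≤ 1 + Real.log n := by
  have h := harmonic_le_one_add_log n
  rw [harmonic_eq_sum_Icc] at h
  push_cast at h
  simpa [one_div] using h

theorem Msq_cV_eq {V n : ℕ} (hn : 2 ≤ n) :
    cV V n = - ∑ d ∈ (Icc 1 V).filter (fun d => d ∣ n), (moebius d : ℝ) := by
  have h1 : ∑ d ∈ n.divisors, (moebius d : ℝ) = 0 := by
    have h := Msq_sum_moebius n
    rw [if_neg (by omega)] at h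
    have h2 : ((∑ d ∈ n.divisors, (moebius d : ℤ) : ℤ) : ℝ) = 0 := by rw [h]; simp
    rw [← h2]
    push_cast
    rfl
  have h2 := sum_filter_add_sum_filter_not n.divisors (fun d => V < d) (fun d => (moebius d : ℝ))
  have h3 : n.divisors.filter (fun d => ¬ V < d) = (Icc 1 V).filter (fun d => d ∣ n) := by
    ext d
    simp only [mem_filter, Nat.mem_divisors, mem_Icc, not_lt]
    constructor
    · rintro ⟨⟨h4, h5⟩, h6⟩
      exact ⟨⟨Nat.pos_of_dvd_of_pos h4 (by omega), h6⟩, h4⟩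
    · rintro ⟨⟨h4, h5⟩, h6⟩
      exact ⟨⟨h6, by omega⟩, h5⟩
  rw [h3, h1] at h2
  unfold cV
  linarith only [h2]

theorem Msq_moebius_mul (g e : ℕ) :
    (moebius (g * e) : ℝ) = if Nat.Coprime e g then (moebius g : ℝ) * moebius e else 0 := by
  split_ifs with h
  · rw [isMultiplicative_moebius.map_mul_of_coprime h.symm]
    push_cast
    rfl
  · have : ¬ Squarefree (g * e) := fun hs => h (Nat.squarefree_mul_iff.1 hs).1.symm
    rw [moebius_eq_zero_of_not_squarefree this]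
    simp

theorem Msq_inner {V g : ℕ} (hg : 1 ≤ g) (hgV : g ≤ V) :
    |∑ d ∈ (Icc 1 V).filter (fun d => g ∣ d), (moebius d : ℝ) / d| ≤ 1 / g := by
  have hg0 : (0 : ℝ) < g := by exact_mod_cast hg
  have h1 : ∑ d ∈ (Icc 1 V).filter (fun d => g ∣ d), (moebius d : ℝ) / d =
      ∑ e ∈ Icc 1 (V / g), (moebius (g * e) : ℝ) / ((g * e : ℕ) : ℝ) := by
    symm
    refine Finset.sum_nbij' (fun e => g * e) (fun d => d / g) ?_ ?_ ?_ ?_ ?_
    · intro e he
      rw [mem_Icc] at he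
      rw [mem_filter, mem_Icc]
      refine ⟨⟨Nat.mul_pos hg he.1, ?_⟩, dvd_mul_right _ _⟩
      calc g * e ≤ g * (V / g) := Nat.mul_le_mul_left _ he.2
        _ ≤ V := Nat.mul_div_le _ _
    · intro d hd
      rw [mem_filter, mem_Icc] at hd
      rw [mem_Icc]
      exact ⟨Nat.div_pos (Nat.le_of_dvd hd.1.1 hd.2) hg, Nat.div_le_div_right hd.1.2⟩
    · intro e _
      exact Nat.mul_div_cancel_left e hg
    · intro d hd
      rw [mem_filter] at hd
      exact Nat.mul_div_cancel' hd.2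
    · intro e _
      rfl
  have h2 : ∑ e ∈ Icc 1 (V / g), (moebius (g * e) : ℝ) / ((g * e : ℕ) : ℝ) =
      ((moebius g : ℝ) / g) * ∑ e ∈ (Icc 1 (V / g)).filter (fun e => Nat.Coprime e g),
        (moebius e : ℝ) / e := by
    rw [mul_sum, sum_filter]
    apply sum_congr rfl
    intro e _
    rw [Msq_moebius_mul]
    split_ifs
    · push_cast
      rw [div_mul_div_comm]
    · simp
  rw [h1, h2, abs_mul, abs_div, abs_of_pos hg0]
  have h3 := sum_moebius_coprime g (V / g) hg (Nat.div_pos hgV hg)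
  have h4 := Msq_abs_moebius g
  calc |(moebius g : ℝ)| / g * |∑ e ∈ (Icc 1 (V / g)).filter (fun e => Nat.Coprime e g),
        (moebius e : ℝ) / e| ≤ 1 / g * 1 := by
        apply mul_le_mul _ h3 (abs_nonneg _) (by positivity)
        exact div_le_div_of_nonneg_right h4 hg0.le
    _ = 1 / g := by ring

theorem Msq_quad (V : ℕ) (hV : 1 ≤ V) :
    ∑ a ∈ Icc 1 V, ∑ b ∈ Icc 1 V, (moebius a : ℝ) * moebius b / (Nat.lcm a b : ℝ) ≤
      1 + Real.log V := by
  have h1 : ∀ a ∈ Icc 1 V, ∀ b ∈ Icc 1 V, (moebius a : ℝ) * moebius b / (Nat.lcm a b : ℝ) =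
      ∑ g ∈ Icc 1 V, (Nat.totient g : ℝ) * ((if g ∣ a then (moebius a : ℝ) / a else 0) *
        (if g ∣ b then (moebius b : ℝ) / b else 0)) := by
    intro a ha b hb
    rw [mem_Icc] at ha hb
    have ha0 : (0 : ℝ) < a := by exact_mod_cast ha.1
    have hb0 : (0 : ℝ) < b := by exact_mod_cast hb.1
    have hgcd : ((Nat.gcd a b : ℕ) : ℝ) = ∑ g ∈ (Icc 1 V).filter (fun g => g ∣ a ∧ g ∣ b),
        (Nat.totient g : ℝ) := by
      have h := Nat.sum_totient (Nat.gcd a b)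
      have h2 : (Nat.gcd a b).divisors = (Icc 1 V).filter (fun g => g ∣ a ∧ g ∣ b) := by
        ext g
        simp only [mem_filter, Nat.mem_divisors, mem_Icc, Nat.dvd_gcd_iff]
        constructor
        · rintro ⟨⟨h3, h4⟩, -⟩
          exact ⟨⟨Nat.pos_of_dvd_of_pos h3 ha.1, (Nat.le_of_dvd ha.1 h3).trans ha.2⟩, h3, h4⟩
        · rintro ⟨-, h3, h4⟩
          exact ⟨⟨h3, h4⟩, (Nat.gcd_pos_of_pos_left b ha.1).ne'⟩
      rw [← h2]
      exact_mod_cast h.symm
    have hl0 : (0 : ℝ) < (Nat.lcm a b : ℝ) := by exact_mod_cast Nat.lcm_pos ha.1 hb.1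
    have hgl : ((Nat.gcd a b : ℕ) : ℝ) * (Nat.lcm a b : ℝ) = a * b := by
      exact_mod_cast Nat.gcd_mul_lcm a b
    have h3 : (moebius a : ℝ) * moebius b / (Nat.lcm a b : ℝ) =
        ((Nat.gcd a b : ℕ) : ℝ) * ((moebius a : ℝ) / a * ((moebius b : ℝ) / b)) := by
      rw [div_eq_iff hl0.ne']
      have h4 : ((Nat.gcd a b : ℕ) : ℝ) * ((moebius a : ℝ) / a * ((moebius b : ℝ) / b)) *
          (Nat.lcm a b : ℝ) = (((Nat.gcd a b : ℕ) : ℝ) * (Nat.lcm a b : ℝ)) *
            ((moebius a : ℝ) / a * ((moebius b : ℝ) / b)) := by ring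
      rw [h4, hgl]
      field_simp
    rw [h3, hgcd, sum_mul, sum_filter]
    apply sum_congr rfl
    intro g _
    by_cases h4 : g ∣ a <;> by_cases h5 : g ∣ b <;> simp [h4, h5]
  rw [sum_congr rfl (fun a ha => sum_congr rfl (h1 a ha))]
  have h2 : ∑ a ∈ Icc 1 V, ∑ b ∈ Icc 1 V, ∑ g ∈ Icc 1 V, (Nat.totient g : ℝ) *
      ((if g ∣ a then (moebius a : ℝ) / a else 0) * (if g ∣ b then (moebius b : ℝ) / b else 0)) =
      ∑ g ∈ Icc 1 V, (Nat.totient g : ℝ) *
        (∑ d ∈ (Icc 1 V).filter (fun d => g ∣ d), (moebius d : ℝ) / d) ^ 2 := by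
    rw [sum_congr rfl (fun a _ => sum_comm), sum_comm]
    apply sum_congr rfl
    intro g _
    rw [sum_filter, pow_two, sum_mul_sum, mul_sum]
    apply sum_congr rfl
    intro a _
    rw [mul_sum]
  rw [h2]
  calc ∑ g ∈ Icc 1 V, (Nat.totient g : ℝ) *
        (∑ d ∈ (Icc 1 V).filter (fun d => g ∣ d), (moebius d : ℝ) / d) ^ 2
      ≤ ∑ g ∈ Icc 1 V, (1 : ℝ) / g := by
        apply sum_le_sum
        intro g hg
        rw [mem_Icc] at hg
        have hg0 : (0 : ℝ) < g := by exact_mod_cast hg.1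
        have h3 := Msq_inner hg.1 hg.2
        have h4 : (∑ d ∈ (Icc 1 V).filter (fun d => g ∣ d), (moebius d : ℝ) / d) ^ 2 ≤
            (1 / (g : ℝ)) ^ 2 := by
          rw [← sq_abs]
          exact pow_le_pow_left₀ (abs_nonneg _) h3 2
        have h5 : (Nat.totient g : ℝ) ≤ g := by exact_mod_cast Nat.totient_le g
        calc (Nat.totient g : ℝ) *
            (∑ d ∈ (Icc 1 V).filter (fun d => g ∣ d), (moebius d : ℝ) / d) ^ 2
            ≤ g * (1 / (g : ℝ)) ^ 2 := mul_le_mul h5 h4 (sq_nonneg _) hg0.le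
          _ = 1 / g := by field_simp
    _ ≤ 1 + Real.log V := Msq_harmonic V

theorem cV_sq_large (V Y : ℕ) (hV : 1 ≤ V) (hY : V ^ 2 ≤ Y) :
    ∑ n ∈ Ioc V Y, (cV V n) ^ 2 ≤ Y * (Real.log V + 2) := by
  have hY0 : (0 : ℝ) ≤ Y := Nat.cast_nonneg _
  calc ∑ n ∈ Ioc V Y, (cV V n) ^ 2
      = ∑ n ∈ Ioc V Y, (∑ d ∈ (Icc 1 V).filter (fun d => d ∣ n), (moebius d : ℝ)) ^ 2 := by
        apply sum_congr rfl
        intro n hn
        rw [mem_Ioc] at hn
        rw [Msq_cV_eq (by omega), neg_sq]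
    _ ≤ ∑ n ∈ Icc 1 Y, (∑ d ∈ (Icc 1 V).filter (fun d => d ∣ n), (moebius d : ℝ)) ^ 2 := by
        apply sum_le_sum_of_subset_of_nonneg
        · intro n hn
          rw [mem_Ioc] at hn
          rw [mem_Icc]
          omega
        · intro n _ _
          positivity
    _ = ∑ a ∈ Icc 1 V, ∑ b ∈ Icc 1 V, (moebius a : ℝ) * moebius b * ((Y / Nat.lcm a b : ℕ) : ℝ) := by
        have h1 : ∀ n ∈ Icc 1 Y, (∑ d ∈ (Icc 1 V).filter (fun d => d ∣ n), (moebius d : ℝ)) ^ 2 =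
            ∑ a ∈ Icc 1 V, ∑ b ∈ Icc 1 V, (if Nat.lcm a b ∣ n then (moebius a : ℝ) * moebius b else 0) := by
          intro n _
          rw [sum_filter, pow_two, sum_mul_sum]
          apply sum_congr rfl
          intro a _
          apply sum_congr rfl
          intro b _
          by_cases h2 : a ∣ n <;> by_cases h3 : b ∣ n <;> simp [h2, h3, Nat.lcm_dvd_iff]
        rw [sum_congr rfl h1, sum_comm]
        apply sum_congr rfl
        intro a _
        rw [sum_comm]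
        apply sum_congr rfl
        intro b _
        rw [← sum_filter, sum_const, Msq_Icc_dvd_card, nsmul_eq_mul, mul_comm]
    _ ≤ ∑ a ∈ Icc 1 V, ∑ b ∈ Icc 1 V,
          (Y * ((moebius a : ℝ) * moebius b / (Nat.lcm a b : ℝ)) + 1) := by
        apply sum_le_sum
        intro a ha
        apply sum_le_sum
        intro b hb
        rw [mem_Icc] at ha hb
        have hl : 0 < Nat.lcm a b := Nat.lcm_pos ha.1 hb.1
        have hl0 : (0 : ℝ) < (Nat.lcm a b : ℝ) := by exact_mod_cast hl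
        have h2 : ((Y / Nat.lcm a b : ℕ) : ℝ) ≤ (Y : ℝ) / Nat.lcm a b := Nat.cast_div_le
        have h3 : (Y : ℝ) / Nat.lcm a b < ((Y / Nat.lcm a b : ℕ) : ℝ) + 1 := by
          rw [div_lt_iff₀ hl0]
          have := Nat.lt_div_mul_add (a := Y) (b := Nat.lcm a b) hl
          have h4 : Y < (Y / Nat.lcm a b + 1) * Nat.lcm a b := by
            rw [add_mul, one_mul]
            exact this
          exact_mod_cast h4
        have h5 : |(moebius a : ℝ) * moebius b| ≤ 1 := by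
          rw [abs_mul]
          calc |(moebius a : ℝ)| * |(moebius b : ℝ)| ≤ 1 * 1 :=
                mul_le_mul (Msq_abs_moebius a) (Msq_abs_moebius b) (abs_nonneg _) zero_le_one
            _ = 1 := by norm_num
        have h6 : |(moebius a : ℝ) * moebius b * (((Y / Nat.lcm a b : ℕ) : ℝ) - (Y : ℝ) / Nat.lcm a b)| ≤ 1 := by
          rw [abs_mul]
          have h7 : |((Y / Nat.lcm a b : ℕ) : ℝ) - (Y : ℝ) / Nat.lcm a b| ≤ 1 := by
            rw [abs_le]
            constructor <;> linarith only [h3, h2]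
          calc |(moebius a : ℝ) * moebius b| * |((Y / Nat.lcm a b : ℕ) : ℝ) - (Y : ℝ) / Nat.lcm a b|
              ≤ 1 * 1 := mul_le_mul h5 h7 (abs_nonneg _) zero_le_one
            _ = 1 := by norm_num
        have h8 := (abs_le.1 h6).2
        have h9 : (Y : ℝ) * ((moebius a : ℝ) * moebius b / (Nat.lcm a b : ℝ)) =
            (moebius a : ℝ) * moebius b * ((Y : ℝ) / Nat.lcm a b) := by ring
        rw [h9]
        linarith only [h8]
    _ = Y * ∑ a ∈ Icc 1 V, ∑ b ∈ Icc 1 V, (moebius a : ℝ) * moebius b / (Nat.lcm a b : ℝ) +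
          (V : ℝ) ^ 2 := by
        simp only [sum_add_distrib, mul_sum, sum_const, Nat.card_Icc, nsmul_eq_mul, mul_one]
        push_cast
        simp
        ring
    _ ≤ Y * (1 + Real.log V) + Y := by
        have h1 := Msq_quad V hV
        have h2 : (V : ℝ) ^ 2 ≤ Y := by exact_mod_cast hY
        have := mul_le_mul_of_nonneg_left h1 hY0
        linarith only [h2, this]
    _ = Y * (Real.log V + 2) := by ring

/-- reorganising a double sum -/
theorem Msq_sum_divisors (Y : ℕ) (f : ℕ → ℕ → ℝ) :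
    ∑ n ∈ Icc 1 Y, ∑ d ∈ n.divisors, f d (n / d) =
      ∑ d ∈ Icc 1 Y, ∑ m ∈ Icc 1 (Y / d), f d m := by
  rw [Finset.sum_sigma', Finset.sum_sigma']
  refine Finset.sum_nbij' (fun x => ⟨x.2, x.1 / x.2⟩) (fun x => ⟨x.1 * x.2, x.1⟩) ?_ ?_ ?_ ?_ ?_
  · rintro ⟨n, d⟩ hx
    simp only [mem_sigma, mem_Icc, Nat.mem_divisors] at hx ⊢
    obtain ⟨⟨h1, h2⟩, h3, -⟩ := hx
    have hd : 0 < d := Nat.pos_of_dvd_of_pos h3 h1
    exact ⟨⟨hd, (Nat.le_of_dvd h1 h3).trans h2⟩, Nat.div_pos (Nat.le_of_dvd h1 h3) hd,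
      Nat.div_le_div_right h2⟩
  · rintro ⟨d, m⟩ hx
    simp only [mem_sigma, mem_Icc, Nat.mem_divisors] at hx ⊢
    obtain ⟨⟨h1, h2⟩, h3, h4⟩ := hx
    have h5 : d * m ≤ Y := by
      calc d * m ≤ d * (Y / d) := Nat.mul_le_mul_left _ h4
        _ ≤ Y := Nat.mul_div_le _ _
    have h6 : 0 < d * m := Nat.mul_pos h1 h3
    exact ⟨⟨h6, h5⟩, dvd_mul_right _ _, h6.ne'⟩
  · rintro ⟨n, d⟩ hx
    simp only [mem_sigma, mem_Icc, Nat.mem_divisors] at hx ⊢
    rw [Nat.mul_div_cancel' hx.2.1]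
  · rintro ⟨d, m⟩ hx
    simp only [mem_sigma, mem_Icc] at hx ⊢
    rw [Nat.mul_div_cancel_left m hx.1.1]
  · rintro ⟨n, d⟩ _
    rfl

theorem Msq_tau_sum (x : ℕ) :
    ∑ m ∈ Icc 1 x, (m.divisors.card : ℝ) ≤ x * (1 + Real.log x) := by
  have h1 : ∑ m ∈ Icc 1 x, (m.divisors.card : ℝ) = ∑ d ∈ Icc 1 x, ((x / d : ℕ) : ℝ) := by
    have := Msq_sum_divisors x (fun _ _ => (1 : ℝ))
    simpa using this
  rw [h1]
  calc ∑ d ∈ Icc 1 x, ((x / d : ℕ) : ℝ) ≤ ∑ d ∈ Icc 1 x, (x : ℝ) * (1 / d) := by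
        apply sum_le_sum
        intro d _
        have : ((x / d : ℕ) : ℝ) ≤ (x : ℝ) / d := Nat.cast_div_le
        rwa [mul_one_div]
    _ = x * ∑ d ∈ Icc 1 x, (1 : ℝ) / d := by rw [mul_sum]
    _ ≤ x * (1 + Real.log x) :=
        mul_le_mul_of_nonneg_left (Msq_harmonic x) (Nat.cast_nonneg _)

theorem Msq_tau_sq (Y : ℕ) (hY : 1 ≤ Y) :
    ∑ n ∈ Icc 1 Y, (n.divisors.card : ℝ) ^ 2 ≤ Y * (Real.log Y + 1) ^ 3 := by
  have hlog : 0 ≤ Real.log Y := Real.log_natCast_nonneg Y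
  have hY0 : (0 : ℝ) < Y := by exact_mod_cast hY
  calc ∑ n ∈ Icc 1 Y, (n.divisors.card : ℝ) ^ 2
      ≤ ∑ n ∈ Icc 1 Y, ∑ d ∈ n.divisors, (d.divisors.card : ℝ) * ((n / d).divisors.card : ℝ) := by
        apply sum_le_sum
        intro n hn
        have h1 : (n.divisors.card : ℝ) ^ 2 = ∑ d ∈ n.divisors, (n.divisors.card : ℝ) := by
          rw [sum_const, nsmul_eq_mul, pow_two]
        rw [h1]
        apply sum_le_sum
        intro d hd
        rw [Nat.mem_divisors] at hd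
        have h2 : n.divisors.card ≤ d.divisors.card * (n / d).divisors.card := by
          conv_lhs => rw [← Nat.mul_div_cancel' hd.1]
          rw [Nat.divisors_mul]
          exact card_mul_le
        exact_mod_cast h2
    _ = ∑ d ∈ Icc 1 Y, ∑ m ∈ Icc 1 (Y / d), (d.divisors.card : ℝ) * (m.divisors.card : ℝ) :=
        Msq_sum_divisors Y (fun d m => (d.divisors.card : ℝ) * (m.divisors.card : ℝ))
    _ ≤ ∑ d ∈ Icc 1 Y, (d.divisors.card : ℝ) * ((Y : ℝ) / d * (1 + Real.log Y)) := by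
        apply sum_le_sum
        intro d hd
        rw [mem_Icc] at hd
        rw [← mul_sum]
        apply mul_le_mul_of_nonneg_left _ (Nat.cast_nonneg _)
        have hd0 : (0 : ℝ) < d := by exact_mod_cast hd.1
        have h1 := Msq_tau_sum (Y / d)
        have h2 : ((Y / d : ℕ) : ℝ) ≤ (Y : ℝ) / d := Nat.cast_div_le
        have h3 : 1 ≤ Y / d := Nat.div_pos hd.2 hd.1
        have h4 : Real.log ((Y / d : ℕ) : ℝ) ≤ Real.log Y := by
          apply Real.log_le_log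
          · exact_mod_cast h3
          · exact_mod_cast Nat.div_le_self Y d
        refine h1.trans ?_
        apply mul_le_mul h2 (by linarith only [h4]) _ (by positivity)
        have : 0 ≤ Real.log ((Y / d : ℕ) : ℝ) := Real.log_natCast_nonneg _
        linarith only [this]
    _ = Y * (1 + Real.log Y) * ∑ d ∈ Icc 1 Y, (d.divisors.card : ℝ) * (1 / d) := by
        rw [mul_sum]
        apply sum_congr rfl
        intro d _
        ring
    _ ≤ Y * (1 + Real.log Y) * (1 + Real.log Y) ^ 2 := by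
        apply mul_le_mul_of_nonneg_left _ (by positivity)
        have h1 : ∑ d ∈ Icc 1 Y, (d.divisors.card : ℝ) * (1 / d) =
            ∑ a ∈ Icc 1 Y, ∑ b ∈ Icc 1 (Y / a), (1 : ℝ) / a * (1 / b) := by
          rw [← Msq_sum_divisors Y (fun a b => (1 : ℝ) / a * (1 / b))]
          apply sum_congr rfl
          intro n hn
          rw [mem_Icc] at hn
          rw [← nsmul_eq_mul, ← sum_const]
          apply sum_congr rfl
          intro d hd
          rw [Nat.mem_divisors] at hd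
          have hd0 : d ≠ 0 := fun h => by
            rw [h] at hd
            exact hd.2 (Nat.eq_zero_of_zero_dvd hd.1)
          have h5 : (d : ℝ) * ((n / d : ℕ) : ℝ) = n := by
            exact_mod_cast Nat.mul_div_cancel' hd.1
          rw [div_mul_div_comm, one_mul, h5]
        rw [h1]
        calc ∑ a ∈ Icc 1 Y, ∑ b ∈ Icc 1 (Y / a), (1 : ℝ) / a * (1 / b)
            ≤ ∑ a ∈ Icc 1 Y, ∑ b ∈ Icc 1 Y, (1 : ℝ) / a * (1 / b) := by
              apply sum_le_sum
              intro a _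
              apply sum_le_sum_of_subset_of_nonneg
              · exact Icc_subset_Icc_right (Nat.div_le_self _ _)
              · intro b _ _
                positivity
          _ = (∑ a ∈ Icc 1 Y, (1 : ℝ) / a) ^ 2 := by
              rw [pow_two, sum_mul_sum]
          _ ≤ (1 + Real.log Y) ^ 2 := by
              apply pow_le_pow_left₀ _ (Msq_harmonic Y)
              apply sum_nonneg
              intro a _
              positivity
    _ = Y * (Real.log Y + 1) ^ 3 := by ring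

theorem cV_sq_all (V Y : ℕ) (hV : 1 ≤ V) (hY : 1 ≤ Y) :
    ∑ n ∈ Ioc V Y, (cV V n) ^ 2 ≤ Y * (Real.log Y + 1) ^ 3 := by
  refine le_trans ?_ (Msq_tau_sq Y hY)
  calc ∑ n ∈ Ioc V Y, (cV V n) ^ 2 ≤ ∑ n ∈ Ioc V Y, (n.divisors.card : ℝ) ^ 2 := by
        apply sum_le_sum
        intro n _
        rw [← sq_abs]
        apply pow_le_pow_left₀ (abs_nonneg _)
        unfold cV
        refine (abs_sum_le_sum_abs _ _).trans ?_
        calc ∑ d ∈ n.divisors.filter (fun d => V < d), |(moebius d : ℝ)|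
            ≤ ∑ d ∈ n.divisors.filter (fun d => V < d), (1 : ℝ) :=
              sum_le_sum fun d _ => Msq_abs_moebius d
          _ ≤ n.divisors.card := by
              rw [sum_const, nsmul_eq_mul, mul_one]
              exact_mod_cast card_filter_le _ _
    _ ≤ ∑ n ∈ Icc 1 Y, (n.divisors.card : ℝ) ^ 2 := by
        apply sum_le_sum_of_subset_of_nonneg
        · intro n hn
          rw [mem_Ioc] at hn
          rw [mem_Icc]
          omega
        · intro n _ _
          positivity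

theorem Lam_sq (M : ℕ) (hM : 1 ≤ M) :
    ∑ m ∈ Ioc M (2 * M), (ArithmeticFunction.vonMangoldt m) ^ 2 ≤ 2.2 * M * Real.log (2 * M) := by
  have hM0 : (0 : ℝ) < M := by exact_mod_cast hM
  have hlog : 0 ≤ Real.log (2 * M) := Real.log_nonneg (by
    have : (1 : ℝ) ≤ M := by exact_mod_cast hM
    linarith only [this])
  have hpsi : ∑ m ∈ Ioc M (2 * M), ArithmeticFunction.vonMangoldt m ≤ Real.log 3 * (2 * M) := by
    have h1 := Pool.Agent.H91.Gold.psi_le_log_three (2 * M)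
    rw [Chebyshev.psi] at h1
    rw [Nat.floor_natCast] at h1
    push_cast at h1
    refine le_trans ?_ h1
    apply sum_le_sum_of_subset_of_nonneg
    · intro m hm
      rw [mem_Ioc] at hm ⊢
      omega
    · intro m _ _
      exact ArithmeticFunction.vonMangoldt_nonneg
  have hl3 : Real.log 3 ≤ 1.1 := by
    have h := Pool.Agent.H91.Gold.log_three_bounds.2
    have := Real.log_two_lt_d9
    linarith only [h, this]
  calc ∑ m ∈ Ioc M (2 * M), (ArithmeticFunction.vonMangoldt m) ^ 2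
      ≤ ∑ m ∈ Ioc M (2 * M), Real.log (2 * M) * ArithmeticFunction.vonMangoldt m := by
        apply sum_le_sum
        intro m hm
        rw [mem_Ioc] at hm
        rw [pow_two]
        apply mul_le_mul_of_nonneg_right _ ArithmeticFunction.vonMangoldt_nonneg
        refine ArithmeticFunction.vonMangoldt_le_log.trans ?_
        apply Real.log_le_log
        · have : 0 < m := by omega
          exact_mod_cast this
        · exact_mod_cast hm.2
    _ = Real.log (2 * M) * ∑ m ∈ Ioc M (2 * M), ArithmeticFunction.vonMangoldt m := by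
        rw [mul_sum]
    _ ≤ Real.log (2 * M) * (Real.log 3 * (2 * M)) := mul_le_mul_of_nonneg_left hpsi hlog
    _ ≤ 2.2 * M * Real.log (2 * M) := by
        have h2 : Real.log 3 * (2 * M) ≤ 1.1 * (2 * M) :=
          mul_le_mul_of_nonneg_right hl3 (by positivity)
        have := mul_le_mul_of_nonneg_left h2 hlog
        linarith only [this]

end Pool.Agent.H91.PK

end

section

/-!
PK TyC: the complete type II sum (U = V), averaged over primitive characters of conductor in (Q, D].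

Let v = log V, L = log N.  Blocks M_i = 2^i V, i < I, where I is the least natural with N ≤ 2^I V · V (so for
m > 2^I V: N/m ≤ V and the inner sum is empty).  With Y_i = N / M_i (floor) and a = Λ, b = cV V :
 ∑_{M_i<m≤2M_i} Λ² ≤ 2.2 M_i log(2M_i) ≤ 2.2 M_i L   (if 2M_i ≤ N; for i < I we have 2^i V·V < N, so 2M_i ≤ V M_i < N)
 ∑_{V<n≤Y_i} cV² ≤ Y_i β_i,  β_i = v + 2 if V² ≤ Y_i, and β_i = (2v+1)³ if Y_i < V² (log Y_i + 1 ≤ 2v + 1).
 M_i Y_i ≤ N, so the product of the two square roots is ≤ √(2.2 L N) √β_i, and 0.2193·√2.2 ≤ 0.3253.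
Number of blocks: I ≤ L/log 2 (2^(I-1) V² < N and V ≥ 2);   blocks with Y_i < V²: N/(2^i V) < V² i.e. 2^i > N/V³, and
 2^i < N/V², so there are at most v/log 2 + 1 of them.
∑_i √β_i ≤ (L/log 2) √(v+2) + (v/log 2 + 1)(2v+1)^{3/2} =: S1.
∑_i √β_i (√M_i + √Y_i) ≤ (2v+1)^{3/2} ∑ (√M_i + √Y_i) ≤ (2v+1)^{3/2}·2·3.42·√(N/V)   (geometric sums:
 M_i ≤ N/V·… precisely M_i < N/V, ratio √2: ∑ √M_i ≤ √(N/V)/(1-1/√2) ≤ 3.42 √(N/V);  Y_i ≤ N/(2^i V)).
 2 √π · 2 · 3.42 ≤ 24.3.
We write (2v+1)^{3/2} as (2v+1) * √(2v+1).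
-/

set_option autoImplicit false

namespace Pool.Agent.H91.PK

open Finset

theorem TyC_geom (n : ℕ) : ∑ j ∈ range n, Real.sqrt ((1 / 2 : ℝ) ^ j) ≤ 3.42 := by
  have hq0 : 0 ≤ Real.sqrt (1 / 2) := Real.sqrt_nonneg _
  have hq1 : Real.sqrt (1 / 2) ≤ 0.7072 := by
    rw [Real.sqrt_le_left (by norm_num)]
    norm_num
  have h1 : ∀ j : ℕ, Real.sqrt ((1 / 2 : ℝ) ^ j) = Real.sqrt (1 / 2) ^ j := by
    intro j
    induction j with
    | zero => simp
    | succ j ih => rw [pow_succ, pow_succ, Real.sqrt_mul (by positivity), ih]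
  simp only [h1]
  set q := Real.sqrt (1 / 2) with hq
  have h2 := mul_neg_geom_sum q n
  have h3 : 0 ≤ q ^ n := by positivity
  have h4 : 0 ≤ ∑ j ∈ range n, q ^ j := Finset.sum_nonneg fun j _ => by positivity
  have h5 : 0.2928 * ∑ j ∈ range n, q ^ j ≤ (1 - q) * ∑ j ∈ range n, q ^ j := by
    apply mul_le_mul_of_nonneg_right _ h4
    linarith only [hq1]
  linarith only [h2, h3, h5]

theorem TyC_blocks {β : Type*} [AddCommMonoid β] (V I : ℕ) (f : ℕ → β) :
    ∑ m ∈ Ioc V (2 ^ I * V), f m = ∑ i ∈ range I, ∑ m ∈ Ioc (2 ^ i * V) (2 * (2 ^ i * V)), f m := by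
  induction I with
  | zero => simp
  | succ I ih =>
    rw [Finset.sum_range_succ, ← ih, show 2 ^ (I + 1) * V = 2 * (2 ^ I * V) by ring,
      Finset.sum_Ioc_consecutive]
    · exact Nat.le_mul_of_pos_left _ (by positivity)
    · omega

theorem TyC_split {β : Type*} [AddCommMonoid β] (N V I : ℕ) (f : ℕ → β)
    (h1 : ∀ m, N < m → f m = 0) (h2 : ∀ m, 2 ^ I * V < m → f m = 0) :
    ∑ m ∈ Ioc V N, f m = ∑ i ∈ range I, ∑ m ∈ Ioc (2 ^ i * V) (2 * (2 ^ i * V)), f m := by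
  rw [← TyC_blocks]
  set K := max N (2 ^ I * V) with hK
  have e1 : ∑ m ∈ Ioc V N, f m = ∑ m ∈ Ioc V K, f m := by
    apply Finset.sum_subset
    · intro m hm
      rw [mem_Ioc] at hm ⊢
      exact ⟨hm.1, hm.2.trans (le_max_left _ _)⟩
    · intro m hm hm'
      rw [mem_Ioc] at hm hm'
      exact h1 m (by omega)
  have e2 : ∑ m ∈ Ioc V (2 ^ I * V), f m = ∑ m ∈ Ioc V K, f m := by
    apply Finset.sum_subset
    · intro m hm
      rw [mem_Ioc] at hm ⊢
      exact ⟨hm.1, hm.2.trans (le_max_right _ _)⟩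
    · intro m hm hm'
      rw [mem_Ioc] at hm hm'
      exact h2 m (by omega)
  rw [e1, e2]

/-- The mean square constant of a block. -/
noncomputable def TyC_be (V Y : ℕ) : ℝ :=
  if V ^ 2 ≤ Y then Real.log V + 2 else (2 * Real.log V + 1) ^ 3

theorem TyC_cV (V Y : ℕ) (hV : 1 ≤ V) (hY : 1 ≤ Y) :
    ∑ n ∈ Ioc V Y, (cV V n) ^ 2 ≤ Y * TyC_be V Y := by
  unfold TyC_be
  split_ifs with h
  · exact cV_sq_large V Y hV h
  · push Not at h
    refine (cV_sq_all V Y hV hY).trans ?_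
    have hVr : (1 : ℝ) ≤ V := by exact_mod_cast hV
    have hYr : (1 : ℝ) ≤ Y := by exact_mod_cast hY
    have h1 : Real.log Y ≤ 2 * Real.log V := by
      have h2 : (Y : ℝ) ≤ (V : ℝ) ^ 2 := by exact_mod_cast h.le
      have h3 := Real.log_le_log (by linarith only [hYr]) h2
      rw [Real.log_pow] at h3
      exact_mod_cast h3
    have h2 : 0 ≤ Real.log Y := Real.log_nonneg hYr
    gcongr

theorem TyC_be_le {V Y : ℕ} (hV : 8 ≤ V) : TyC_be V Y ≤ (2 * Real.log V + 1) ^ 3 := by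
  unfold TyC_be
  split_ifs with h
  · have hv : 0 ≤ Real.log V := Real.log_nonneg (by exact_mod_cast (by omega : 1 ≤ V))
    have hv2 : 2 ≤ Real.log V := by
      have h3 : Real.log 8 ≤ Real.log V := Real.log_le_log (by norm_num) (by exact_mod_cast hV)
      have h4 : Real.log 8 = 3 * Real.log 2 := by
        rw [show (8 : ℝ) = 2 ^ 3 by norm_num, Real.log_pow]; norm_num
      have := Real.log_two_gt_d9
      linarith only [h3, h4, this]
    linarith only [hv2, sq_nonneg (Real.log V), mul_nonneg (mul_nonneg hv hv) hv]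
  · exact le_rfl

theorem TyC_sqrt_cube {x : ℝ} (hx : 0 ≤ x) : Real.sqrt (x ^ 3) = x * Real.sqrt x := by
  rw [show x ^ 3 = x ^ 2 * x by ring, Real.sqrt_mul (by positivity), Real.sqrt_sq hx]

theorem TyC_Ile {N V I : ℕ} (hV : 8 ≤ V) (hI : ∀ i < I, 2 ^ i * V * V < N) :
    (I : ℝ) ≤ Real.log N / Real.log 2 := by
  rcases Nat.eq_zero_or_pos I with rfl | hpos
  · have : 0 ≤ Real.log N / Real.log 2 := by
      apply div_nonneg (Real.log_natCast_nonneg N) (Real.log_nonneg (by norm_num))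
    simpa using this
  · have h1 := hI (I - 1) (by omega)
    have h2 : 2 ^ I ≤ N := by
      have h3 : 2 ^ I = 2 ^ (I - 1) * 2 := by
        rw [← pow_succ]; congr 1; omega
      have h4 : 2 ^ (I - 1) * 2 ≤ 2 ^ (I - 1) * V * V := by
        rw [mul_assoc]
        apply Nat.mul_le_mul_left
        nlinarith only [hV]
      omega
    have h3 : ((2 : ℝ) ^ I) ≤ N := by exact_mod_cast h2
    have h4 := Real.log_le_log (by positivity) h3
    rw [Real.log_pow] at h4
    rwa [le_div_iff₀ (Real.log_pos (by norm_num))]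

theorem TyC_bad {N V I : ℕ} (hV : 8 ≤ V) (hI : ∀ i < I, 2 ^ i * V * V < N) :
    (((range I).filter (fun i => ¬ V ^ 2 ≤ N / (2 ^ i * V))).card : ℝ) ≤ Real.log V / Real.log 2 + 1 := by
  set B := (range I).filter (fun i => ¬ V ^ 2 ≤ N / (2 ^ i * V)) with hB
  have hl2 : 0 < Real.log 2 := Real.log_pos (by norm_num)
  have hVr : (8 : ℝ) ≤ V := by exact_mod_cast hV
  rcases B.eq_empty_or_nonempty with h | h
  · rw [h]
    have : 0 ≤ Real.log V / Real.log 2 := div_nonneg (Real.log_natCast_nonneg V) hl2.le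
    simp
    linarith only [this]
  · set i0 := B.min' h with hi0
    set i1 := B.max' h with hi1
    have m0 : i0 ∈ B := B.min'_mem h
    have m1 : i1 ∈ B := B.max'_mem h
    have hle : i0 ≤ i1 := B.min'_le _ m1
    have hsub : B ⊆ Icc i0 i1 := by
      intro i hi
      rw [mem_Icc]
      exact ⟨B.min'_le _ hi, B.le_max' _ hi⟩
    have hcard : B.card ≤ i1 + 1 - i0 := by
      have := Finset.card_le_card hsub
      rwa [Nat.card_Icc] at this
    rw [hB, mem_filter, mem_range] at m0 m1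
    have a0 : N < 2 ^ i0 * V * V ^ 2 := by
      have h3 := m0.2
      push Not at h3
      rw [Nat.div_lt_iff_lt_mul (by positivity)] at h3
      linarith only [h3]
    have a1 := hI i1 m1.1
    have a2 : 2 ^ i1 * V * V < 2 ^ i0 * V * V ^ 2 := a1.trans a0
    have a3 : 2 ^ (i1 - i0) < V := by
      have h4 : 2 ^ i1 = 2 ^ i0 * 2 ^ (i1 - i0) := by rw [← pow_add]; congr 1; omega
      rw [h4] at a2
      have h5 : (2 ^ i0 * V * V) * 2 ^ (i1 - i0) < (2 ^ i0 * V * V) * V := by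
        calc (2 ^ i0 * V * V) * 2 ^ (i1 - i0) = 2 ^ i0 * 2 ^ (i1 - i0) * V * V := by ring
          _ < 2 ^ i0 * V * V ^ 2 := a2
          _ = (2 ^ i0 * V * V) * V := by ring
      exact Nat.lt_of_mul_lt_mul_left h5
    have a4 : ((2 : ℝ) ^ (i1 - i0)) ≤ V := by exact_mod_cast a3.le
    have a5 := Real.log_le_log (by positivity) a4
    rw [Real.log_pow] at a5
    have a6 : ((i1 - i0 : ℕ) : ℝ) ≤ Real.log V / Real.log 2 := by rwa [le_div_iff₀ hl2]
    have a7 : (B.card : ℝ) ≤ ((i1 - i0 : ℕ) : ℝ) + 1 := by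
      have : B.card ≤ (i1 - i0) + 1 := by omega
      exact_mod_cast this
    linarith only [a6, a7]

theorem TyC_sum1 {N V I : ℕ} (hV : 8 ≤ V) (hI : ∀ i < I, 2 ^ i * V * V < N) :
    ∑ i ∈ range I, Real.sqrt (TyC_be V (N / (2 ^ i * V))) ≤
      Real.log N / Real.log 2 * Real.sqrt (Real.log V + 2)
            + (Real.log V / Real.log 2 + 1) * ((2 * Real.log V + 1) * Real.sqrt (2 * Real.log V + 1)) := by
  have hv : 0 ≤ Real.log V := Real.log_natCast_nonneg V
  have h1 : ∀ i ∈ range I, Real.sqrt (TyC_be V (N / (2 ^ i * V))) ≤ Real.sqrt (Real.log V + 2) +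
      (if ¬ V ^ 2 ≤ N / (2 ^ i * V) then ((2 * Real.log V + 1) * Real.sqrt (2 * Real.log V + 1))
        else 0) := by
    intro i _
    unfold TyC_be
    by_cases h : V ^ 2 ≤ N / (2 ^ i * V)
    · simp [h]
    · rw [if_neg h, if_pos h, TyC_sqrt_cube (by positivity)]
      have := Real.sqrt_nonneg (Real.log V + 2)
      linarith only [this]
  refine (Finset.sum_le_sum h1).trans ?_
  rw [Finset.sum_add_distrib, Finset.sum_const, card_range, nsmul_eq_mul, ← Finset.sum_filter,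
    Finset.sum_const, nsmul_eq_mul]
  have h2 := TyC_Ile hV hI
  have h3 := TyC_bad hV hI
  gcongr

theorem TyC_sum2 {N V I : ℕ} (hV : 8 ≤ V) (hI : ∀ i < I, 2 ^ i * V * V < N) :
    ∑ i ∈ range I, Real.sqrt (TyC_be V (N / (2 ^ i * V))) *
      (Real.sqrt ((2 ^ i * V : ℕ) : ℝ) + Real.sqrt ((N / (2 ^ i * V) : ℕ) : ℝ)) ≤
      ((2 * Real.log V + 1) * Real.sqrt (2 * Real.log V + 1)) * (6.84 * Real.sqrt (N / V)) := by
  have hv : 0 ≤ Real.log V := Real.log_natCast_nonneg V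
  have hVr : (8 : ℝ) ≤ V := by exact_mod_cast hV
  have hNV : (0 : ℝ) ≤ N / V := by positivity
  have h1 : ∀ i ∈ range I, Real.sqrt (TyC_be V (N / (2 ^ i * V))) *
      (Real.sqrt ((2 ^ i * V : ℕ) : ℝ) + Real.sqrt ((N / (2 ^ i * V) : ℕ) : ℝ)) ≤
      ((2 * Real.log V + 1) * Real.sqrt (2 * Real.log V + 1)) *
        (Real.sqrt (N / V) * Real.sqrt ((1 / 2 : ℝ) ^ (I - 1 - i)) +
          Real.sqrt (N / V) * Real.sqrt ((1 / 2 : ℝ) ^ i)) := by
    intro i hi
    rw [mem_range] at hi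
    rw [← TyC_sqrt_cube (by positivity), ← Real.sqrt_mul hNV, ← Real.sqrt_mul hNV]
    have e1 := TyC_be_le (V := V) (Y := N / (2 ^ i * V)) hV
    have e2 : ((2 ^ i * V : ℕ) : ℝ) ≤ N / V * (1 / 2) ^ (I - 1 - i) := by
      have h3 := hI (I - 1) (by omega)
      have h4 : 2 ^ (I - 1) = 2 ^ i * 2 ^ (I - 1 - i) := by rw [← pow_add]; congr 1; omega
      rw [h4] at h3
      have h5 : ((2 : ℝ) ^ i * 2 ^ (I - 1 - i) * V * V) ≤ N := by exact_mod_cast h3.le
      rw [one_div, inv_pow, ← div_eq_mul_inv, div_div, le_div_iff₀ (by positivity)]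
      push_cast
      calc (2 : ℝ) ^ i * V * (V * 2 ^ (I - 1 - i)) = (2 : ℝ) ^ i * 2 ^ (I - 1 - i) * V * V := by ring
        _ ≤ N := h5
    have e3 : ((N / (2 ^ i * V) : ℕ) : ℝ) ≤ N / V * (1 / 2) ^ i := by
      refine (Nat.cast_div_le).trans ?_
      rw [one_div, inv_pow, ← div_eq_mul_inv, div_div]
      push_cast
      rw [mul_comm]
    gcongr
  refine (Finset.sum_le_sum h1).trans ?_
  rw [← Finset.mul_sum, Finset.sum_add_distrib, ← Finset.mul_sum, ← Finset.mul_sum,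
    Finset.sum_range_reflect (fun j => Real.sqrt ((1 / 2 : ℝ) ^ j)) I]
  have h2 := TyC_geom I
  have h3 := Real.sqrt_nonneg ((N : ℝ) / V)
  gcongr
  nlinarith only [h2, h3]

theorem type2_total (N k V Q D nl : ℕ) (hV : 8 ≤ V) (hVN : V ^ 2 < N) (hQ : 1 ≤ Q)
    (h1 : D ≤ 2 ^ nl * Q) (h2 : 2 ^ nl * Q ≤ 2 * D) :
    ∑ r ∈ Ioc Q D, (1 / (r.totient : ℝ)) * ∑ χ ∈ Pch r,
      ‖∑ m ∈ Ioc V N, ((ArithmeticFunction.vonMangoldt m : ℝ) : ℂ) *
        ∑ n ∈ Ioc V (N / m), ((cV V n : ℝ) : ℂ) *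
        (χ ((m * n : ℕ) : ZMod r) * ((W N k (m * n) : ℝ) : ℂ))‖
      ≤ 0.3253 * (1 + Real.log 2 / Real.log N) ^ k * Real.sqrt (Real.log N * N) *
        ((2 * Real.pi * Real.sqrt N / Q + 8 * D) *
          (Real.log N / Real.log 2 * Real.sqrt (Real.log V + 2)
            + (Real.log V / Real.log 2 + 1) * ((2 * Real.log V + 1) * Real.sqrt (2 * Real.log V + 1)))
        + 24.3 * nl * ((2 * Real.log V + 1) * Real.sqrt (2 * Real.log V + 1)) * Real.sqrt (N / V)) := by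
  have hN2 : 2 ≤ N := by nlinarith only [hV, hVN]
  have hN1r : (1 : ℝ) ≤ N := by exact_mod_cast (by omega : 1 ≤ N)
  have hL0 : 0 ≤ Real.log N := Real.log_natCast_nonneg N
  have hv : 0 ≤ Real.log V := Real.log_natCast_nonneg V
  -- the number of blocks
  have hex : ∃ I : ℕ, N ≤ 2 ^ I * V * V := by
    refine ⟨N, ?_⟩
    have h3 : N ≤ 2 ^ N := Nat.lt_two_pow_self.le
    have h4 : 2 ^ N * 1 ≤ 2 ^ N * (V * V) := Nat.mul_le_mul_left _ (by nlinarith only [hV])
    rw [mul_assoc]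
    omega
  classical
  obtain ⟨I, hI1, hI⟩ : ∃ I : ℕ, N ≤ 2 ^ I * V * V ∧ ∀ i < I, 2 ^ i * V * V < N :=
    ⟨Nat.find hex, Nat.find_spec hex, fun i hi => by
      have := Nat.find_min hex hi
      push Not at this
      exact this⟩
  -- the block decomposition
  have hdec : ∀ r, ∀ χ : DirichletCharacter ℂ r,
      ‖∑ m ∈ Ioc V N, ((ArithmeticFunction.vonMangoldt m : ℝ) : ℂ) *
        ∑ n ∈ Ioc V (N / m), ((cV V n : ℝ) : ℂ) *
        (χ ((m * n : ℕ) : ZMod r) * ((W N k (m * n) : ℝ) : ℂ))‖ ≤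
      ∑ i ∈ range I, ‖∑ m ∈ Ioc (2 ^ i * V) (2 * (2 ^ i * V)),
        ((ArithmeticFunction.vonMangoldt m : ℝ) : ℂ) *
        ∑ n ∈ Ioc V (N / m), ((cV V n : ℝ) : ℂ) *
        (χ ((m * n : ℕ) : ZMod r) * ((W N k (m * n) : ℝ) : ℂ))‖ := by
    intro r χ
    rw [TyC_split N V I (fun m => ((ArithmeticFunction.vonMangoldt m : ℝ) : ℂ) *
        ∑ n ∈ Ioc V (N / m), ((cV V n : ℝ) : ℂ) *
        (χ ((m * n : ℕ) : ZMod r) * ((W N k (m * n) : ℝ) : ℂ)))]
    · exact norm_sum_le _ _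
    · intro m hm
      rw [Nat.div_eq_of_lt hm]
      simp
    · intro m hm
      have h3 : N / m ≤ V := by
        rw [Nat.div_le_iff_le_mul_add_pred (by omega)]
        have : 2 ^ I * V * V ≤ m * V := Nat.mul_le_mul_right _ hm.le
        omega
      rw [Finset.Ioc_eq_empty (by omega)]
      simp
  have hstep1 : ∑ r ∈ Ioc Q D, (1 / (r.totient : ℝ)) * ∑ χ ∈ Pch r,
      ‖∑ m ∈ Ioc V N, ((ArithmeticFunction.vonMangoldt m : ℝ) : ℂ) *
        ∑ n ∈ Ioc V (N / m), ((cV V n : ℝ) : ℂ) *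
        (χ ((m * n : ℕ) : ZMod r) * ((W N k (m * n) : ℝ) : ℂ))‖ ≤
      ∑ i ∈ range I, ∑ r ∈ Ioc Q D, (1 / (r.totient : ℝ)) * ∑ χ ∈ Pch r,
        ‖∑ m ∈ Ioc (2 ^ i * V) (2 * (2 ^ i * V)), ((ArithmeticFunction.vonMangoldt m : ℝ) : ℂ) *
        ∑ n ∈ Ioc V (N / m), ((cV V n : ℝ) : ℂ) *
        (χ ((m * n : ℕ) : ZMod r) * ((W N k (m * n) : ℝ) : ℂ))‖ := by
    rw [Finset.sum_comm]
    apply Finset.sum_le_sum
    intro r _
    rw [← Finset.mul_sum, Finset.sum_comm]
    apply mul_le_mul_of_nonneg_left _ (by positivity)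
    apply Finset.sum_le_sum
    intro χ _
    exact hdec r χ
  refine hstep1.trans ?_
  set c : ℝ := (1 + Real.log 2 / Real.log N) ^ k with hc
  have hc0 : 0 ≤ c := by
    have : 0 ≤ Real.log 2 / Real.log N := div_nonneg (Real.log_nonneg (by norm_num)) hL0
    positivity
  set E : ℝ := 2 * Real.pi * Real.sqrt N / Q + 8 * D with hE
  have hE0 : 0 ≤ E := by positivity
  set G : ℝ := Real.sqrt (Real.log N * N) with hG
  have hG0 : 0 ≤ G := Real.sqrt_nonneg _
  -- one block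
  have hblock : ∀ i ∈ range I, ∑ r ∈ Ioc Q D, (1 / (r.totient : ℝ)) * ∑ χ ∈ Pch r,
        ‖∑ m ∈ Ioc (2 ^ i * V) (2 * (2 ^ i * V)), ((ArithmeticFunction.vonMangoldt m : ℝ) : ℂ) *
        ∑ n ∈ Ioc V (N / m), ((cV V n : ℝ) : ℂ) *
        (χ ((m * n : ℕ) : ZMod r) * ((W N k (m * n) : ℝ) : ℂ))‖ ≤
      0.3253 * c * G * (E * Real.sqrt (TyC_be V (N / (2 ^ i * V))) +
        2 * Real.sqrt Real.pi * nl * (Real.sqrt (TyC_be V (N / (2 ^ i * V))) *
          (Real.sqrt ((2 ^ i * V : ℕ) : ℝ) + Real.sqrt ((N / (2 ^ i * V) : ℕ) : ℝ)))) := by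
    intro i hi
    rw [mem_range] at hi
    have hiN := hI i hi
    set M := 2 ^ i * V with hM
    set Y := N / M with hY
    have hM1 : 1 ≤ M := by
      have : 1 ≤ 2 ^ i := Nat.one_le_two_pow
      nlinarith only [hV, hM, this]
    have hY1 : 1 ≤ Y := by
      rw [hY, Nat.one_le_div_iff (by omega)]
      have : M * 1 ≤ M * V := Nat.mul_le_mul_left _ (by omega)
      omega
    have h2M : 2 * M ≤ N := by
      have : M * 2 ≤ M * V := Nat.mul_le_mul_left _ (by omega)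
      omega
    have hMY : M * Y ≤ N := Nat.mul_div_le N M
    refine (type2_block N k M V Q D nl hN2 hM1 hQ h1 h2
      (fun m => ArithmeticFunction.vonMangoldt m) (fun n => cV V n)).trans ?_
    have hA : ∑ m ∈ Ioc M (2 * M), (ArithmeticFunction.vonMangoldt m) ^ 2 ≤ 2.2 * M * Real.log N := by
      refine (Lam_sq M hM1).trans ?_
      have hM1r : (1 : ℝ) ≤ M := by exact_mod_cast hM1
      have : Real.log (2 * M) ≤ Real.log N :=
        Real.log_le_log (by positivity) (by exact_mod_cast h2M)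
      gcongr
    have hB := TyC_cV V Y (by omega) hY1
    have hbe0 : 0 ≤ TyC_be V Y := by
      unfold TyC_be
      split_ifs <;> positivity
    have hprod : Real.sqrt (∑ m ∈ Ioc M (2 * M), (ArithmeticFunction.vonMangoldt m) ^ 2) *
        Real.sqrt (∑ n ∈ Ioc V Y, (cV V n) ^ 2) ≤
        Real.sqrt 2.2 * (G * Real.sqrt (TyC_be V Y)) := by
      calc Real.sqrt (∑ m ∈ Ioc M (2 * M), (ArithmeticFunction.vonMangoldt m) ^ 2) *
            Real.sqrt (∑ n ∈ Ioc V Y, (cV V n) ^ 2)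
          ≤ Real.sqrt (2.2 * M * Real.log N) * Real.sqrt (Y * TyC_be V Y) := by
            gcongr
        _ = Real.sqrt (2.2 * ((Real.log N * (M * Y)) * TyC_be V Y)) := by
            rw [← Real.sqrt_mul (by positivity)]
            congr 1
            ring
        _ ≤ Real.sqrt (2.2 * ((Real.log N * N) * TyC_be V Y)) := by
            have : ((M : ℝ) * Y) ≤ N := by exact_mod_cast hMY
            gcongr
        _ = Real.sqrt 2.2 * (G * Real.sqrt (TyC_be V Y)) := by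
            rw [Real.sqrt_mul (by norm_num), Real.sqrt_mul (by positivity)]
    have h22 : 0.2193 * Real.sqrt 2.2 ≤ 0.3253 := by
      have : Real.sqrt 2.2 ≤ 1.48325 := by
        rw [Real.sqrt_le_left (by norm_num)]
        norm_num
      linarith only [this]
    have hT0 : 0 ≤ 2 * Real.pi * Real.sqrt N / Q + 2 * Real.sqrt Real.pi * nl *
        (Real.sqrt M + Real.sqrt (Y : ℝ)) + 8 * D := by positivity
    calc 0.2193 * c * (2 * Real.pi * Real.sqrt N / Q + 2 * Real.sqrt Real.pi * nl *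
          (Real.sqrt M + Real.sqrt (Y : ℝ)) + 8 * D) *
          (Real.sqrt (∑ m ∈ Ioc M (2 * M), (ArithmeticFunction.vonMangoldt m) ^ 2) *
            Real.sqrt (∑ n ∈ Ioc V Y, (cV V n) ^ 2))
        ≤ 0.2193 * c * (2 * Real.pi * Real.sqrt N / Q + 2 * Real.sqrt Real.pi * nl *
          (Real.sqrt M + Real.sqrt (Y : ℝ)) + 8 * D) *
          (Real.sqrt 2.2 * (G * Real.sqrt (TyC_be V Y))) := by gcongr
      _ = (0.2193 * Real.sqrt 2.2) * (c * G * (E * Real.sqrt (TyC_be V Y) +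
          2 * Real.sqrt Real.pi * nl * (Real.sqrt (TyC_be V Y) *
          (Real.sqrt M + Real.sqrt (Y : ℝ))))) := by rw [hE]; ring
      _ ≤ 0.3253 * (c * G * (E * Real.sqrt (TyC_be V Y) +
          2 * Real.sqrt Real.pi * nl * (Real.sqrt (TyC_be V Y) *
          (Real.sqrt M + Real.sqrt (Y : ℝ))))) := by gcongr
      _ = _ := by ring
  refine (Finset.sum_le_sum hblock).trans ?_
  rw [← Finset.mul_sum, Finset.sum_add_distrib, ← Finset.mul_sum, ← Finset.mul_sum]
  have hs1 := TyC_sum1 hV hI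
  have hs2 := TyC_sum2 hV hI
  have hpi : Real.sqrt Real.pi ≤ 1.7725 := by
    rw [Real.sqrt_le_left (by norm_num)]
    have := Real.pi_lt_d4
    norm_num
    linarith only [this]
  have hfin : 2 * Real.sqrt Real.pi * nl * (((2 * Real.log V + 1) * Real.sqrt (2 * Real.log V + 1)) *
      (6.84 * Real.sqrt (N / V))) ≤ 24.3 * nl * ((2 * Real.log V + 1) *
        Real.sqrt (2 * Real.log V + 1)) * Real.sqrt (N / V) := by
    have h5 : 0 ≤ nl * ((2 * Real.log V + 1) * Real.sqrt (2 * Real.log V + 1)) * Real.sqrt (N / V) := by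
      positivity
    nlinarith only [hpi, h5]
  have h6 : 0 ≤ 2 * Real.sqrt Real.pi * nl := by positivity
  have h7 : 0 ≤ 0.3253 * c * G := by positivity
  calc 0.3253 * c * G * (E * ∑ i ∈ range I, Real.sqrt (TyC_be V (N / (2 ^ i * V))) +
        2 * Real.sqrt Real.pi * nl * ∑ i ∈ range I, Real.sqrt (TyC_be V (N / (2 ^ i * V))) *
          (Real.sqrt ((2 ^ i * V : ℕ) : ℝ) + Real.sqrt ((N / (2 ^ i * V) : ℕ) : ℝ)))
      ≤ 0.3253 * c * G * (E * (Real.log N / Real.log 2 * Real.sqrt (Real.log V + 2)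
            + (Real.log V / Real.log 2 + 1) * ((2 * Real.log V + 1) * Real.sqrt (2 * Real.log V + 1))) +
        2 * Real.sqrt Real.pi * nl * (((2 * Real.log V + 1) * Real.sqrt (2 * Real.log V + 1)) *
          (6.84 * Real.sqrt (N / V)))) := by gcongr
    _ ≤ _ := by gcongr

end Pool.Agent.H91.PK

end
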