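import Pool.Agent.H15.TB1.M32
import Pool.Agent.H15.TB1.M51

/-! The parts of this file: H91.PK.LC, H91.EHA.ChE. -/

section

/-!
PK LC: large conductors.  For all N, k, Q < D, V:

 ∑_{Q<r≤D} (1/φ(r)) ∑*_{χ mod r} |TT N k χ| ≤ 3 L V² D² + (type II bound).

Proof. Vaughan's identity (`vaughan` with U = V, g(n) = χ(n) W N k n), triangle inequality, `type0`, `type1_total`
(r ≥ 2 primitive implies χ ≠ 1: conductor of 1 is 1; r > Q ≥ 1) and `type2_total`.
Type 0 and I contribute per character ≤ 1.15 r L (V + V²) + 2V²/N ≤ 2 r L V²  (V ≥ 8, L ≥ 1...), there are at most φ(r)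
characters, and ∑_{r ≤ D} r ≤ D².   (We claim 3 L V² D²; need L = log N ≥ log 65 ≥ 4, as N > V² ≥ 64.)
(number of characters mod r is φ(r): `DirichletCharacter.card_eq_totient_of_hasEnoughRootsOfUnity`.)
-/

set_option autoImplicit false

namespace Pool.Agent.H91.PK

open Finset

theorem LC_card_le (r : ℕ) (hr : r ≠ 0) : ((Pch r).card : ℝ) ≤ r.totient := by
  have : NeZero r := ⟨hr⟩
  have h1 : (Pch r).card ≤ Fintype.card (DirichletCharacter ℂ r) := by
    unfold Pch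
    exact Finset.card_le_univ _
  have h2 : Fintype.card (DirichletCharacter ℂ r) = r.totient := by
    rw [← Nat.card_eq_fintype_card]
    exact DirichletCharacter.card_eq_totient_of_hasEnoughRootsOfUnity ℂ r
  exact_mod_cast h1.trans_eq h2

theorem LC_ne_one {r : ℕ} (hr : 2 ≤ r) {χ : DirichletCharacter ℂ r} (hχ : χ ∈ Pch r) : χ ≠ 1 := by
  have : NeZero r := ⟨by omega⟩
  rintro rfl
  rw [mem_Pch, DirichletCharacter.isPrimitive_def, DirichletCharacter.conductor_one] at hχ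
  omega

theorem LC_char {N k V r : ℕ} (hN : 2 ≤ N) (hr : 0 < r) (χ : DirichletCharacter ℂ r) (hχ : χ ≠ 1) :
    ‖TT N k (fun n => χ (n : ZMod r))‖ ≤ 2 * V ^ 2 / N + 1.15 * r * Real.log N * (V + V * V)
      + ‖∑ m ∈ Ioc V N, ((ArithmeticFunction.vonMangoldt m : ℝ) : ℂ) *
        ∑ n ∈ Ioc V (N / m), ((cV V n : ℝ) : ℂ) *
        (χ ((m * n : ℕ) : ZMod r) * ((W N k (m * n) : ℝ) : ℂ))‖ := by
  have h := vaughan N V V (fun n => χ ((n : ℕ) : ZMod r) * ((W N k n : ℝ) : ℂ))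
  have h0 := type0 (U := V) (k := k) hN χ
  have h1 := type1_total (U := V) (V := V) (k := k) hN hr χ hχ
  unfold TT

  rw [h]
  set A := ∑ n ∈ Icc 1 (min V N), ((ArithmeticFunction.vonMangoldt n : ℝ) : ℂ) *
        (χ (n : ZMod r) * ((W N k n : ℝ) : ℂ))
  set B := ∑ a ∈ Icc 1 V, ((ArithmeticFunction.moebius a : ℝ) : ℂ) *
        ∑ b ∈ Icc 1 (N / a), ((Real.log b : ℝ) : ℂ) * (χ ((a * b : ℕ) : ZMod r) * ((W N k (a * b) : ℝ) : ℂ))
  set C := ∑ a ∈ Icc 1 (V * V), ((nuV V V a : ℝ) : ℂ) *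
        ∑ b ∈ Icc 1 (N / a), χ ((a * b : ℕ) : ZMod r) * ((W N k (a * b) : ℝ) : ℂ)
  set D := ∑ m ∈ Ioc V N, ((ArithmeticFunction.vonMangoldt m : ℝ) : ℂ) *
        ∑ n ∈ Ioc V (N / m), ((cV V n : ℝ) : ℂ) *
        (χ ((m * n : ℕ) : ZMod r) * ((W N k (m * n) : ℝ) : ℂ))
  calc ‖A + B - C + D‖ ≤ ‖A + B - C‖ + ‖D‖ := norm_add_le _ _
    _ ≤ (‖A + B‖ + ‖C‖) + ‖D‖ := by gcongr; exact norm_sub_le _ _
    _ ≤ ((‖A‖ + ‖B‖) + ‖C‖) + ‖D‖ := by gcongr; exact norm_add_le _ _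
    _ = ‖A‖ + (‖B‖ + ‖C‖) + ‖D‖ := by ring
    _ ≤ _ := by gcongr

theorem large_cond (N k V Q D nl : ℕ) (hV : 8 ≤ V) (hVN : V ^ 2 < N) (hQ : 1 ≤ Q)
    (h1 : D ≤ 2 ^ nl * Q) (h2 : 2 ^ nl * Q ≤ 2 * D) :
    ∑ r ∈ Ioc Q D, (1 / (r.totient : ℝ)) * ∑ χ ∈ Pch r, ‖TT N k (fun n => χ (n : ZMod r))‖
      ≤ 3 * Real.log N * V ^ 2 * D ^ 2
      + 0.3253 * (1 + Real.log 2 / Real.log N) ^ k * Real.sqrt (Real.log N * N) *
        ((2 * Real.pi * Real.sqrt N / Q + 8 * D) *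
          (Real.log N / Real.log 2 * Real.sqrt (Real.log V + 2)
            + (Real.log V / Real.log 2 + 1) * ((2 * Real.log V + 1) * Real.sqrt (2 * Real.log V + 1)))
        + 24.3 * nl * ((2 * Real.log V + 1) * Real.sqrt (2 * Real.log V + 1)) * Real.sqrt (N / V)) := by
  have hN64 : 65 ≤ N := by nlinarith only [hV, hVN]
  have hN2 : 2 ≤ N := by omega
  have hNr : (65 : ℝ) ≤ N := by exact_mod_cast hN64
  have hVr : (8 : ℝ) ≤ V := by exact_mod_cast hV
  have hVNr : (V : ℝ) ^ 2 < N := by exact_mod_cast hVN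
  have hL : 4 ≤ Real.log N := by
    have h3 : Real.log 64 ≤ Real.log N := Real.log_le_log (by norm_num) (by linarith only [hNr])
    have h4 : Real.log 64 = 6 * Real.log 2 := by
      rw [show (64 : ℝ) = 2 ^ 6 by norm_num, Real.log_pow]; norm_num
    have := Real.log_two_gt_d9
    linarith only [h3, h4, this]
  refine le_trans ?_ (add_le_add_right (type2_total N k V Q D nl hV hVN hQ h1 h2) _)
  have hstep : ∀ r ∈ Ioc Q D, (1 / (r.totient : ℝ)) * ∑ χ ∈ Pch r, ‖TT N k (fun n => χ (n : ZMod r))‖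
      ≤ 2 * r * Real.log N * V ^ 2 + (1 / (r.totient : ℝ)) * ∑ χ ∈ Pch r,
      ‖∑ m ∈ Ioc V N, ((ArithmeticFunction.vonMangoldt m : ℝ) : ℂ) *
        ∑ n ∈ Ioc V (N / m), ((cV V n : ℝ) : ℂ) *
        (χ ((m * n : ℕ) : ZMod r) * ((W N k (m * n) : ℝ) : ℂ))‖ := by
    intro r hr
    rw [mem_Ioc] at hr
    have hr2 : 2 ≤ r := by omega
    have hr0 : 0 < r := by omega
    have hrr : (2 : ℝ) ≤ r := by exact_mod_cast hr2
    have htot : (0 : ℝ) < r.totient := by exact_mod_cast Nat.totient_pos.2 hr0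
    have hcard := LC_card_le r (by omega)
    have hb : 2 * (V : ℝ) ^ 2 / N + 1.15 * r * Real.log N * (V + V * V)
        ≤ 2 * r * Real.log N * V ^ 2 := by
      have e1 : 2 * (V : ℝ) ^ 2 / N ≤ 2 := by
        rw [div_le_iff₀ (by linarith only [hNr])]
        linarith only [hVNr]
      have e2 : (V : ℝ) + V * V ≤ 1.125 * V ^ 2 := by nlinarith only [hVr]
      have e3 : (1.15 : ℝ) * r * Real.log N * (V + V * V) ≤ 1.15 * r * Real.log N * (1.125 * V ^ 2) := by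
        gcongr
      have e4 : (2 : ℝ) * 4 ≤ r * Real.log N := by gcongr
      have e5 : (64 : ℝ) ≤ V ^ 2 := by linarith only [hVr, e2]
      have e6 : (8 : ℝ) * 64 ≤ (r * Real.log N) * V ^ 2 := by nlinarith only [hVr, e4]
      linarith only [e1, e3, e6]
    have hsum : ∑ χ ∈ Pch r, ‖TT N k (fun n => χ (n : ZMod r))‖ ≤ ∑ χ ∈ Pch r,
        (2 * r * Real.log N * V ^ 2 + ‖∑ m ∈ Ioc V N, ((ArithmeticFunction.vonMangoldt m : ℝ) : ℂ) *
        ∑ n ∈ Ioc V (N / m), ((cV V n : ℝ) : ℂ) *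
        (χ ((m * n : ℕ) : ZMod r) * ((W N k (m * n) : ℝ) : ℂ))‖) := by
      apply Finset.sum_le_sum
      intro χ hχ
      refine (LC_char (V := V) hN2 hr0 χ (LC_ne_one hr2 hχ)).trans ?_
      gcongr
    rw [Finset.sum_add_distrib, Finset.sum_const, nsmul_eq_mul] at hsum
    have hnn : (0 : ℝ) ≤ 2 * r * Real.log N * V ^ 2 := by positivity
    calc (1 / (r.totient : ℝ)) * ∑ χ ∈ Pch r, ‖TT N k (fun n => χ (n : ZMod r))‖
        ≤ (1 / (r.totient : ℝ)) * (((Pch r).card : ℝ) * (2 * r * Real.log N * V ^ 2) + ∑ χ ∈ Pch r,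
          ‖∑ m ∈ Ioc V N, ((ArithmeticFunction.vonMangoldt m : ℝ) : ℂ) *
        ∑ n ∈ Ioc V (N / m), ((cV V n : ℝ) : ℂ) *
        (χ ((m * n : ℕ) : ZMod r) * ((W N k (m * n) : ℝ) : ℂ))‖) := by gcongr
      _ = (((Pch r).card : ℝ) / r.totient) * (2 * r * Real.log N * V ^ 2)
          + (1 / (r.totient : ℝ)) * ∑ χ ∈ Pch r,
          ‖∑ m ∈ Ioc V N, ((ArithmeticFunction.vonMangoldt m : ℝ) : ℂ) *
        ∑ n ∈ Ioc V (N / m), ((cV V n : ℝ) : ℂ) *
        (χ ((m * n : ℕ) : ZMod r) * ((W N k (m * n) : ℝ) : ℂ))‖ := by ring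
      _ ≤ 1 * (2 * r * Real.log N * V ^ 2) + _ := by
          gcongr
          rw [div_le_one htot]
          exact hcard
      _ = _ := by ring
  refine (Finset.sum_le_sum hstep).trans ?_
  rw [Finset.sum_add_distrib]
  gcongr
  have h3 : ∑ r ∈ Ioc Q D, (2 * (r : ℝ) * Real.log N * V ^ 2)
      = (2 * Real.log N * V ^ 2) * ∑ r ∈ Ioc Q D, (r : ℝ) := by
    rw [Finset.mul_sum]
    apply Finset.sum_congr rfl
    intro r _
    ring
  rw [h3]
  have h4 : ∑ r ∈ Ioc Q D, (r : ℝ) ≤ (D : ℝ) ^ 2 := by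
    calc ∑ r ∈ Ioc Q D, (r : ℝ) ≤ ∑ r ∈ Ioc Q D, (D : ℝ) := by
          apply Finset.sum_le_sum
          intro r hr
          exact_mod_cast (mem_Ioc.1 hr).2
      _ = ((D - Q : ℕ) : ℝ) * D := by rw [Finset.sum_const, Nat.card_Ioc, nsmul_eq_mul]
      _ ≤ (D : ℝ) * D := by
          gcongr
          exact_mod_cast Nat.sub_le D Q
      _ = (D : ℝ) ^ 2 := by ring
  calc (2 * Real.log N * V ^ 2) * ∑ r ∈ Ioc Q D, (r : ℝ) ≤ (2 * Real.log N * V ^ 2) * (D : ℝ) ^ 2 := by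
        gcongr
    _ ≤ 3 * Real.log N * V ^ 2 * D ^ 2 := by
        have : (0 : ℝ) ≤ Real.log N * V ^ 2 * D ^ 2 := by positivity
        linarith only [this]

end Pool.Agent.H91.PK

end

section

/-!
# Medium conductors

For `N ≥ x/(log x)^{k+3}`: `large_cond` (PK/LC.lean) with `k = 0`, `V = ⌊(log x)^{B'}⌋`, `Q := ⌊(log x)^B⌋`, `D`, and `nl` with
`D ≤ 2^nl Q ≤ 2D` (if `D ≤ Q` the sum is empty); `D² ≤ x^{1-2δ}`.
For `N < x/(log x)^{k+3}`: Cauchy and `mult_ls`, without a dyadic decomposition: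
`∑_{c ≤ D} (1/φ(c)) ∑_ψ ‖TT‖ ≤ ∑_{c ≤ D} c^{-1/2} ((c/φ(c)) ∑_ψ ‖TT‖²)^{1/2}
≤ (1 + log D)^{1/2} ((D²+πN) N (log N)²)^{1/2}`.
-/

set_option autoImplicit false

namespace Pool.Agent.H91.EHA

open Finset
open Pool.Agent.H91.PK

private theorem chE_W (N n : ℕ) : |W N 0 n| ≤ 1 := by
  unfold W om
  rw [pow_zero, mul_one]
  split_ifs with h
  · obtain ⟨h0, h1⟩ := h
    rw [abs_of_nonneg (by positivity)]
    have : (1 - (n : ℝ) / N) ^ 2 ≤ 1 := by nlinarith only [h0, h1]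
    nlinarith only [h1, this]
  · simp

private theorem chE_TT (N c : ℕ) (ψ : DirichletCharacter ℂ c) :
    TT N 0 (fun n => ψ (n : ZMod c)) =
      ∑ n ∈ Ioc 0 (0 + N), (((ArithmeticFunction.vonMangoldt n * W N 0 n : ℝ)) : ℂ) * ψ (n : ZMod c) := by
  unfold TT
  rw [zero_add]
  have : Icc 1 N = Ioc 0 N := by
    ext n
    simp only [mem_Icc, mem_Ioc]
    omega
  rw [this]
  refine Finset.sum_congr rfl fun n _ => ?_
  push_cast
  ring

private theorem chE_sq (N : ℕ) :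
    ∑ n ∈ Ioc 0 (0 + N), ‖(((ArithmeticFunction.vonMangoldt n * W N 0 n : ℝ)) : ℂ)‖ ^ 2
      ≤ N * Real.log N ^ 2 := by
  have h : ∀ n ∈ Ioc 0 (0 + N), ‖(((ArithmeticFunction.vonMangoldt n * W N 0 n : ℝ)) : ℂ)‖ ^ 2
      ≤ Real.log N ^ 2 := by
    intro n hn
    rw [mem_Ioc, zero_add] at hn
    have hn1 : (1 : ℝ) ≤ n := by exact_mod_cast hn.1
    have hnN : (n : ℝ) ≤ N := by exact_mod_cast hn.2
    rw [Complex.norm_real, Real.norm_eq_abs, abs_mul]
    have h1 : |ArithmeticFunction.vonMangoldt n| ≤ Real.log N := by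
      rw [abs_of_nonneg ArithmeticFunction.vonMangoldt_nonneg]
      exact ArithmeticFunction.vonMangoldt_le_log.trans (Real.log_le_log (by linarith only [hn1]) hnN)
    have h2 := chE_W N n
    have h3 : |ArithmeticFunction.vonMangoldt n| * |W N 0 n| ≤ Real.log N := by
      calc |ArithmeticFunction.vonMangoldt n| * |W N 0 n|
          ≤ |ArithmeticFunction.vonMangoldt n| * 1 := by gcongr
        _ ≤ Real.log N := by rw [mul_one]; exact h1
    gcongr
  calc ∑ n ∈ Ioc 0 (0 + N), ‖(((ArithmeticFunction.vonMangoldt n * W N 0 n : ℝ)) : ℂ)‖ ^ 2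
      ≤ ∑ n ∈ Ioc 0 (0 + N), Real.log N ^ 2 := Finset.sum_le_sum h
    _ = N * Real.log N ^ 2 := by
        rw [Finset.sum_const, Nat.card_Ioc, nsmul_eq_mul]
        simp

/-- The second moment bound. -/
private theorem chE_moment (N D Q : ℕ) :
    ∑ c ∈ Ioc Q D, (1 / (c.totient : ℝ)) *
        ∑ ψ ∈ Pch c, ‖TT N 0 (fun n => ψ (n : ZMod c))‖
      ≤ √(1 + Real.log D) * √(((D : ℝ) ^ 2 + Real.pi * N) * (N * Real.log N ^ 2)) := by
  have hsub : Ioc Q D ⊆ Icc 1 D := by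
    intro c hc
    rw [mem_Ioc] at hc
    rw [mem_Icc]
    omega
  have hterm : ∀ c ∈ Icc 1 D, (1 / (c.totient : ℝ)) *
        ∑ ψ ∈ Pch c, ‖TT N 0 (fun n => ψ (n : ZMod c))‖ ≤
      √(1 / (c : ℝ)) * √(((c : ℝ) / c.totient) *
        ∑ ψ ∈ Pch c, ‖TT N 0 (fun n => ψ (n : ZMod c))‖ ^ 2) := by
    intro c hc
    rw [mem_Icc] at hc
    have hc0 : (0 : ℝ) < c := by exact_mod_cast hc.1
    have hphi : (0 : ℝ) < c.totient := by exact_mod_cast Nat.totient_pos.2 hc.1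
    have hcard := LC_card_le c (by omega)
    rw [← Real.sqrt_mul (by positivity)]
    apply Real.le_sqrt_of_sq_le
    have hcs := sq_sum_le_card_mul_sum_sq (s := Pch c)
      (f := fun ψ => ‖TT N 0 (fun n => ψ (n : ZMod c))‖)
    have hM : 0 ≤ ∑ ψ ∈ Pch c, ‖TT N 0 (fun n => ψ (n : ZMod c))‖ ^ 2 := by positivity
    calc ((1 / (c.totient : ℝ)) * ∑ ψ ∈ Pch c, ‖TT N 0 (fun n => ψ (n : ZMod c))‖) ^ 2
        = (1 / (c.totient : ℝ)) ^ 2 * (∑ ψ ∈ Pch c, ‖TT N 0 (fun n => ψ (n : ZMod c))‖) ^ 2 := by ring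
      _ ≤ (1 / (c.totient : ℝ)) ^ 2 * (((Pch c).card : ℝ) *
            ∑ ψ ∈ Pch c, ‖TT N 0 (fun n => ψ (n : ZMod c))‖ ^ 2) := by gcongr
      _ ≤ (1 / (c.totient : ℝ)) ^ 2 * ((c.totient : ℝ) *
            ∑ ψ ∈ Pch c, ‖TT N 0 (fun n => ψ (n : ZMod c))‖ ^ 2) := by gcongr
      _ = 1 / (c : ℝ) * (((c : ℝ) / c.totient) *
            ∑ ψ ∈ Pch c, ‖TT N 0 (fun n => ψ (n : ZMod c))‖ ^ 2) := by
          field_simp
  calc ∑ c ∈ Ioc Q D, (1 / (c.totient : ℝ)) *
        ∑ ψ ∈ Pch c, ‖TT N 0 (fun n => ψ (n : ZMod c))‖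
      ≤ ∑ c ∈ Icc 1 D, (1 / (c.totient : ℝ)) *
        ∑ ψ ∈ Pch c, ‖TT N 0 (fun n => ψ (n : ZMod c))‖ :=
        Finset.sum_le_sum_of_subset_of_nonneg hsub fun c _ _ => by positivity
    _ ≤ ∑ c ∈ Icc 1 D, √(1 / (c : ℝ)) * √(((c : ℝ) / c.totient) *
        ∑ ψ ∈ Pch c, ‖TT N 0 (fun n => ψ (n : ZMod c))‖ ^ 2) := Finset.sum_le_sum hterm
    _ ≤ √(∑ c ∈ Icc 1 D, 1 / (c : ℝ)) * √(∑ c ∈ Icc 1 D, ((c : ℝ) / c.totient) *
        ∑ ψ ∈ Pch c, ‖TT N 0 (fun n => ψ (n : ZMod c))‖ ^ 2) :=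
        Real.sum_sqrt_mul_sqrt_le _ (fun c => by positivity) (fun c => by positivity)
    _ ≤ √(1 + Real.log D) * √(((D : ℝ) ^ 2 + Real.pi * N) * (N * Real.log N ^ 2)) := by
        gcongr
        · have h := harmonic_le_one_add_log D
          rw [harmonic_eq_sum_Icc] at h
          push_cast at h
          simpa [one_div] using h
        · have h := mult_ls D 0 N (fun n => (((ArithmeticFunction.vonMangoldt n * W N 0 n : ℝ)) : ℂ))
          simp only [← chE_TT] at h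
          refine h.trans ?_
          gcongr
          exact chE_sq N

private theorem chE_nl (Q D : ℕ) (hQ : 1 ≤ Q) (hQD : Q < D) :
    ∃ nl : ℕ, D ≤ 2 ^ nl * Q ∧ 2 ^ nl * Q ≤ 2 * D := by
  classical
  have hex : ∃ n : ℕ, D ≤ 2 ^ n * Q := by
    refine ⟨D, ?_⟩
    have h1 : D < 2 ^ D := Nat.lt_two_pow_self
    calc D ≤ 2 ^ D := h1.le
      _ = 2 ^ D * 1 := by ring
      _ ≤ 2 ^ D * Q := by gcongr
  refine ⟨Nat.find hex, Nat.find_spec hex, ?_⟩
  rcases hn : Nat.find hex with _ | m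
  · rw [pow_zero, one_mul]
    omega
  · have h2 : ¬ D ≤ 2 ^ m * Q := Nat.find_min hex (by omega)
    rw [pow_succ]
    have : 2 ^ m * 2 * Q = 2 * (2 ^ m * Q) := by ring
    omega

/-- Small `N`. -/
private theorem chE_small (k : ℕ) (X L : ℝ) (hL : 2000 ≤ L) (hlog : Real.log X = L) (hX1 : 1 ≤ X)
    (N D Q : ℕ) (hN1 : 1 ≤ N) (hN : (N : ℝ) ≤ X / L ^ (k + 2))
    (hD : (D : ℝ) ≤ √X / L ^ (5 * k + 30)) :
    ∑ c ∈ Ioc Q D, (1 / (c.totient : ℝ)) *
        ∑ ψ ∈ Pch c, ‖TT N 0 (fun n => ψ (n : ZMod c))‖ ≤ X / L ^ k := by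
  refine (chE_moment N D Q).trans ?_
  have hL0 : (0 : ℝ) < L := by linarith only [hL]
  have hL1 : (1 : ℝ) ≤ L := by linarith only [hL]
  have hX0 : (0 : ℝ) < X := by linarith only [hX1]
  have hNr : (1 : ℝ) ≤ N := by exact_mod_cast hN1
  have hD2 : (D : ℝ) ^ 2 ≤ X / L ^ (k + 2) := by
    calc (D : ℝ) ^ 2 ≤ (√X / L ^ (5 * k + 30)) ^ 2 := by gcongr
      _ = X / (L ^ (5 * k + 30)) ^ 2 := by rw [div_pow, Real.sq_sqrt hX0.le]
      _ ≤ X / L ^ (k + 2) := by
          rw [← pow_mul]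
          have : L ^ (k + 2) ≤ L ^ ((5 * k + 30) * 2) := pow_le_pow_right₀ hL1 (by omega)
          gcongr
  have hDX : (D : ℝ) ≤ X := by
    calc (D : ℝ) ≤ √X / L ^ (5 * k + 30) := hD
      _ ≤ √X / 1 := by gcongr; exact one_le_pow₀ hL1
      _ = √X := div_one _
      _ ≤ X := by
        rw [Real.sqrt_le_left hX0.le]
        nlinarith only [hX1]
  have hlD : Real.log D ≤ L := by
    rcases Nat.eq_zero_or_pos D with h0 | h0
    · rw [h0, Nat.cast_zero, Real.log_zero]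
      exact hL0.le
    · rw [← hlog]
      exact Real.log_le_log (by exact_mod_cast h0) hDX
  have hNX : (N : ℝ) ≤ X := by
    refine hN.trans ?_
    calc X / L ^ (k + 2) ≤ X / 1 := by gcongr; exact one_le_pow₀ hL1
      _ = X := div_one _
  have hlN : Real.log N ≤ L := by
    rw [← hlog]
    exact Real.log_le_log (by linarith only [hNr]) hNX
  have hlN0 : 0 ≤ Real.log N := Real.log_nonneg hNr
  have hlD0 : 0 ≤ Real.log D := Real.log_natCast_nonneg D
  have hpi := Real.pi_lt_four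
  rw [← Real.sqrt_mul (by linarith only [hlD0])]
  apply Real.sqrt_le_iff.2
  refine ⟨by positivity, ?_⟩
  calc (1 + Real.log D) * (((D : ℝ) ^ 2 + Real.pi * N) * (N * Real.log N ^ 2))
      ≤ (2 * L) * ((X / L ^ (k + 2) + 4 * (X / L ^ (k + 2))) * ((X / L ^ (k + 2)) * L ^ 2)) := by
        gcongr
        linarith only [hL, hlD]
    _ = (10 / L) * (X / L ^ k) ^ 2 := by
        field_simp
        ring
    _ ≤ 1 * (X / L ^ k) ^ 2 := by
        gcongr
        rw [div_le_one hL0]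
        linarith only [hL]
    _ = (X / L ^ k) ^ 2 := one_mul _

/-- Large `N`. -/
private theorem chE_large (k : ℕ) (X L : ℝ) (hL : 2000 ≤ L) (hlog : Real.log X = L)
    (hX1 : L ^ (5 * k + 30) ≤ X)
    (N D : ℕ) (hN : X / L ^ (k + 2) ≤ N) (hN2 : (N : ℝ) ≤ 2 * X)
    (hD : (D : ℝ) ≤ √X / L ^ (5 * k + 30)) :
    ∑ c ∈ Ioc ⌊L ^ (k + 5)⌋₊ D, (1 / (c.totient : ℝ)) *
        ∑ ψ ∈ Pch c, ‖TT N 0 (fun n => ψ (n : ZMod c))‖ ≤ X / L ^ k := by
  have hL0 : (0 : ℝ) < L := by linarith only [hL]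
  have hL1 : (1 : ℝ) ≤ L := by linarith only [hL]
  have hX0 : (0 : ℝ) < X := lt_of_lt_of_le (by positivity) hX1
  have hX1' : (1 : ℝ) ≤ X := le_trans (one_le_pow₀ hL1) hX1
  set Q : ℕ := ⌊L ^ (k + 5)⌋₊ with hQdef
  set V : ℕ := ⌊L ^ (2 * (k + 5))⌋₊ with hVdef
  rcases Nat.lt_or_ge Q D with hQD | hQD
  swap
  · rw [Finset.Ioc_eq_empty (by omega), Finset.sum_empty]
    positivity
  have hLpow : ∀ m : ℕ, 1 ≤ m → 2000 ≤ L ^ m := by
    intro m hm
    calc (2000 : ℝ) ≤ L := hL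
      _ = L ^ 1 := (pow_one L).symm
      _ ≤ L ^ m := pow_le_pow_right₀ hL1 hm
  have hQ2 : L ^ (k + 5) / 2 ≤ Q := by
    have h1 := Nat.lt_floor_add_one (L ^ (k + 5))
    have h2 := hLpow (k + 5) (by omega)
    rw [← hQdef] at h1
    linarith only [h1, h2]
  have hV2 : L ^ (2 * (k + 5)) / 2 ≤ V := by
    have h1 := Nat.lt_floor_add_one (L ^ (2 * (k + 5)))
    have h2 := hLpow (2 * (k + 5)) (by omega)
    rw [← hVdef] at h1
    linarith only [h1, h2]
  have hVle : (V : ℝ) ≤ L ^ (2 * (k + 5)) := Nat.floor_le (by positivity)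
  have hQr : (1000 : ℝ) ≤ Q := by
    have h2 := hLpow (k + 5) (by omega)
    linarith only [hQ2, h2]
  have hVr : (1000 : ℝ) ≤ V := by
    have h2 := hLpow (2 * (k + 5)) (by omega)
    linarith only [hV2, h2]
  have hQ1 : 1 ≤ Q := by
    have : (1 : ℝ) ≤ Q := by linarith only [hQr]
    exact_mod_cast this
  have hV8 : 8 ≤ V := by
    have : (8 : ℝ) ≤ V := by linarith only [hVr]
    exact_mod_cast this
  have hVN : V ^ 2 < N := by
    have : (V : ℝ) ^ 2 < N := by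
      calc (V : ℝ) ^ 2 ≤ (L ^ (2 * (k + 5))) ^ 2 := by gcongr
        _ = L ^ (4 * k + 20) := by rw [← pow_mul]; ring_nf
        _ < L ^ (4 * k + 28) := pow_lt_pow_right₀ (by linarith only [hL]) (by omega)
        _ = L ^ (5 * k + 30) / L ^ (k + 2) := by
            rw [eq_div_iff (by positivity), ← pow_add]
            ring_nf
        _ ≤ X / L ^ (k + 2) := by gcongr
        _ ≤ N := hN
    exact_mod_cast this
  obtain ⟨nl, hnl1, hnl2⟩ := chE_nl Q D hQ1 hQD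
  refine (large_cond N 0 V Q D nl hV8 hVN hQ1 hnl1 hnl2).trans ?_
  have hNr : (1 : ℝ) ≤ N := by
    have h1 : V ^ 2 < N := hVN
    have h2 : 1 ≤ N := by omega
    exact_mod_cast h2
  have hlog2 : (0.69 : ℝ) < Real.log 2 := by
    have := Real.log_two_gt_d9
    linarith only [this]
  have hlog2' : Real.log 2 < 1 := by
    have := Real.log_two_lt_d9
    linarith only [this]
  have hDX : (D : ℝ) ≤ X := by
    calc (D : ℝ) ≤ √X / L ^ (5 * k + 30) := hD
      _ ≤ √X / 1 := by gcongr; exact one_le_pow₀ hL1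
      _ = √X := div_one _
      _ ≤ X := by
        rw [Real.sqrt_le_left hX0.le]
        nlinarith only [hX1']
  have hlN : Real.log N ≤ 2 * L := by
    have h1 : Real.log N ≤ Real.log (2 * X) := Real.log_le_log (by linarith only [hNr]) hN2
    rw [Real.log_mul (by norm_num) hX0.ne', hlog] at h1
    linarith only [hL, hlog2', h1]
  have hlN0 : 0 ≤ Real.log N := Real.log_nonneg hNr
  have hlV : Real.log V ≤ L := by
    rw [← hlog]
    refine Real.log_le_log (by linarith only [hVr]) (hVle.trans (le_trans ?_ hX1))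
    exact pow_le_pow_right₀ hL1 (by omega)
  have hlV0 : 0 ≤ Real.log V := Real.log_nonneg (by linarith only [hVr])
  have hnl : (nl : ℝ) ≤ 3 * L := by
    have h1 : ((2 : ℝ)) ^ nl ≤ 2 * X := by
      have h2 : (2 : ℝ) ^ nl * Q ≤ 2 * D := by exact_mod_cast hnl2
      calc ((2 : ℝ)) ^ nl = 2 ^ nl * 1 := by ring
        _ ≤ 2 ^ nl * Q := by gcongr; linarith only [hQr]
        _ ≤ 2 * D := h2
        _ ≤ 2 * X := by linarith only [hDX]
    have h3 := Real.log_le_log (by positivity) h1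
    rw [Real.log_pow, Real.log_mul (by norm_num) hX0.ne', hlog] at h3
    have h4 : (nl : ℝ) * 0.69 ≤ nl * Real.log 2 := by gcongr
    nlinarith only [hL, h3, h4]
  have hsX : √X * √X = X := Real.mul_self_sqrt hX0.le
  have hsX0 : 0 ≤ √X := Real.sqrt_nonneg X
  -- the pieces
  have e1 : √(Real.log N * N) ≤ 2 * L * √X := by
    apply Real.sqrt_le_iff.2
    refine ⟨by positivity, ?_⟩
    calc Real.log N * N ≤ (2 * L) * (2 * X) := by gcongr
      _ = 4 * L * X := by ring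
      _ ≤ 4 * L ^ 2 * X := by
          gcongr
          nlinarith only [hL]
      _ = (2 * L * √X) ^ 2 := by
          rw [mul_pow, Real.sq_sqrt hX0.le]
          ring
  have e2 : 2 * Real.pi * √N / Q ≤ 24 * √X / L ^ (k + 5) := by
    have h1 : √(N : ℝ) ≤ 1.5 * √X := by
      apply Real.sqrt_le_iff.2
      refine ⟨by positivity, ?_⟩
      rw [mul_pow, Real.sq_sqrt hX0.le]
      linarith only [hN2]
    have h2 := Real.pi_lt_four
    calc 2 * Real.pi * √N / Q ≤ 2 * 4 * (1.5 * √X) / (L ^ (k + 5) / 2) := by gcongr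
      _ = 24 * √X / L ^ (k + 5) := by
          field_simp
          ring
  have e3 : 8 * (D : ℝ) ≤ 8 * √X / L ^ (k + 5) := by
    calc 8 * (D : ℝ) ≤ 8 * (√X / L ^ (5 * k + 30)) := by gcongr
      _ = 8 * √X / L ^ (5 * k + 30) := by ring
      _ ≤ 8 * √X / L ^ (k + 5) := by
          have : L ^ (k + 5) ≤ L ^ (5 * k + 30) := pow_le_pow_right₀ hL1 (by omega)
          gcongr
  have e4 : (2 * Real.log V + 1) * √(2 * Real.log V + 1) ≤ 9 * L ^ 2 := by
    have h1 : √(2 * Real.log V + 1) ≤ 3 * L := by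
      apply Real.sqrt_le_iff.2
      refine ⟨by positivity, ?_⟩
      nlinarith only [hL, hlV]
    calc (2 * Real.log V + 1) * √(2 * Real.log V + 1) ≤ (3 * L) * (3 * L) := by
          gcongr
          linarith only [hL, hlV]
      _ = 9 * L ^ 2 := by ring
  have e5 : Real.log N / Real.log 2 * √(Real.log V + 2)
            + (Real.log V / Real.log 2 + 1) * ((2 * Real.log V + 1) * √(2 * Real.log V + 1))
            ≤ 36 * L ^ 3 := by
    have h1 : √(Real.log V + 2) ≤ L := by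
      apply Real.sqrt_le_iff.2
      refine ⟨by positivity, ?_⟩
      nlinarith only [hL, hlV]
    have h2 : Real.log N / Real.log 2 ≤ 3 * L := by
      rw [div_le_iff₀ (by linarith only [hlog2])]
      nlinarith only [hL, hlog2, hlN]
    have h3 : Real.log V / Real.log 2 + 1 ≤ 3 * L := by
      have : Real.log V / Real.log 2 ≤ 2 * L := by
        rw [div_le_iff₀ (by linarith only [hlog2])]
        nlinarith only [hL, hlog2, hlV]
      linarith only [hL, this]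
    calc Real.log N / Real.log 2 * √(Real.log V + 2)
            + (Real.log V / Real.log 2 + 1) * ((2 * Real.log V + 1) * √(2 * Real.log V + 1))
        ≤ (3 * L) * L + (3 * L) * (9 * L ^ 2) := by gcongr
      _ = 3 * L ^ 2 + 27 * L ^ 3 := by ring
      _ ≤ 36 * L ^ 3 := by
          have : L ^ 2 ≤ L ^ 3 := pow_le_pow_right₀ hL1 (by norm_num)
          nlinarith only [this]
  have e6 : √((N : ℝ) / V) ≤ 2 * √X / L ^ (k + 5) := by
    apply Real.sqrt_le_iff.2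
    refine ⟨by positivity, ?_⟩
    calc (N : ℝ) / V ≤ 2 * X / (L ^ (2 * (k + 5)) / 2) := by gcongr
      _ = (2 * √X / L ^ (k + 5)) ^ 2 := by
          rw [div_pow, mul_pow, Real.sq_sqrt hX0.le, ← pow_mul]
          field_simp
          ring
  have e7 : 3 * Real.log N * V ^ 2 * D ^ 2 ≤ X / L ^ (k + 1) := by
    calc 3 * Real.log N * (V : ℝ) ^ 2 * D ^ 2
        ≤ 3 * (2 * L) * (L ^ (2 * (k + 5))) ^ 2 * (√X / L ^ (5 * k + 30)) ^ 2 := by gcongr
      _ = 6 * (L ^ (4 * k + 21) / L ^ (10 * k + 60)) * X := by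
          rw [div_pow, Real.sq_sqrt hX0.le, ← pow_mul, ← pow_mul]
          ring
      _ = 6 * X / L ^ (6 * k + 39) := by
          have : L ^ (10 * k + 60) = L ^ (4 * k + 21) * L ^ (6 * k + 39) := by
            rw [← pow_add]
            ring_nf
          rw [this]
          field_simp
      _ = (6 / L ^ (5 * k + 38)) * (X / L ^ (k + 1)) := by
          have : L ^ (6 * k + 39) = L ^ (5 * k + 38) * L ^ (k + 1) := by
            rw [← pow_add]
            ring_nf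
          rw [this]
          field_simp
      _ ≤ 1 * (X / L ^ (k + 1)) := by
          gcongr
          rw [div_le_one (by positivity)]
          have := hLpow (5 * k + 38) (by omega)
          linarith only [this]
      _ = X / L ^ (k + 1) := one_mul _
  have e8 : 0.3253 * (1 + Real.log 2 / Real.log N) ^ 0 * √(Real.log N * N) *
        ((2 * Real.pi * √N / Q + 8 * D) *
          (Real.log N / Real.log 2 * √(Real.log V + 2)
            + (Real.log V / Real.log 2 + 1) * ((2 * Real.log V + 1) * √(2 * Real.log V + 1)))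
        + 24.3 * nl * ((2 * Real.log V + 1) * √(2 * Real.log V + 1)) * √(N / V))
        ≤ 1800 * (X / L ^ (k + 1)) := by
    calc 0.3253 * (1 + Real.log 2 / Real.log N) ^ 0 * √(Real.log N * N) *
        ((2 * Real.pi * √N / Q + 8 * D) *
          (Real.log N / Real.log 2 * √(Real.log V + 2)
            + (Real.log V / Real.log 2 + 1) * ((2 * Real.log V + 1) * √(2 * Real.log V + 1)))
        + 24.3 * nl * ((2 * Real.log V + 1) * √(2 * Real.log V + 1)) * √(N / V))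
        ≤ 0.3253 * (1 + Real.log 2 / Real.log N) ^ 0 * (2 * L * √X) *
        ((24 * √X / L ^ (k + 5) + 8 * √X / L ^ (k + 5)) * (36 * L ^ 3)
        + 24.3 * (3 * L) * (9 * L ^ 2) * (2 * √X / L ^ (k + 5))) := by gcongr
      _ = (0.6506 * (32 * 36 + 24.3 * 54)) * (√X * √X) * L ^ 4 / L ^ (k + 5) := by
          rw [pow_zero]
          ring
      _ = (0.6506 * (32 * 36 + 24.3 * 54)) * (X / L ^ (k + 1)) := by
          rw [hsX]
          have : L ^ (k + 5) = L ^ 4 * L ^ (k + 1) := by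
            rw [← pow_add]
            ring_nf
          rw [this]
          field_simp
      _ ≤ 1800 * (X / L ^ (k + 1)) := by
          have : 0 ≤ X / L ^ (k + 1) := by positivity
          nlinarith only [this]
  calc _ ≤ X / L ^ (k + 1) + 1800 * (X / L ^ (k + 1)) := add_le_add e7 e8
    _ = (1801 / L) * (X / L ^ k) := by
        rw [pow_succ]
        field_simp
        ring
    _ ≤ 1 * (X / L ^ k) := by
        gcongr
        rw [div_le_one hL0]
        linarith only [hL]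
    _ = X / L ^ k := one_mul _

theorem medium (δ : ℝ) (hδ : 0 < δ) (k : ℕ) : ∃ B : ℕ, ∃ x0 : ℕ, ∀ x : ℕ, x0 ≤ x →
    ∀ N D : ℕ, 1 ≤ N → N ≤ 2 * x → (D : ℝ) ≤ (x : ℝ) ^ (1 / 2 - δ) →
    ∑ c ∈ Ioc ⌊Real.log x ^ B⌋₊ D, (1 / (c.totient : ℝ)) *
        ∑ ψ ∈ Pch c, ‖TT N 0 (fun n => ψ (n : ZMod c))‖ ≤ x / Real.log x ^ k := by
  refine ⟨k + 5, ?_⟩
  have hcast : Filter.Tendsto (fun x : ℕ => (x : ℝ)) Filter.atTop Filter.atTop :=
    tendsto_natCast_atTop_atTop
  have hlogt : Filter.Tendsto (fun x : ℕ => Real.log (x : ℝ)) Filter.atTop Filter.atTop :=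
    Real.tendsto_log_atTop.comp hcast
  have hev1 : ∀ᶠ x : ℕ in Filter.atTop, 2000 ≤ Real.log (x : ℝ) :=
    hlogt.eventually_ge_atTop 2000
  have hev2 : ∀ r : ℝ, 0 < r → ∀ᶠ x : ℕ in Filter.atTop,
      Real.log (x : ℝ) ^ (5 * k + 30) ≤ (x : ℝ) ^ r := by
    intro r hr
    have h := (isLittleO_log_rpow_rpow_atTop ((5 * k + 30 : ℕ) : ℝ) hr).bound
      (show (0 : ℝ) < 1 by norm_num)
    have h2 := hcast.eventually h
    filter_upwards [h2, hev1] with x hx hx1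
    rw [Real.rpow_natCast, one_mul, Real.norm_eq_abs, Real.norm_eq_abs,
      abs_of_nonneg (by positivity), abs_of_nonneg (by positivity)] at hx
    exact hx
  obtain ⟨x0, hx0⟩ := Filter.eventually_atTop.1
    ((hev1.and (hev2 δ hδ)).and ((hev2 1 one_pos).and (Filter.eventually_ge_atTop 1)))
  refine ⟨x0, fun x hx N D hN1 hN hD => ?_⟩
  obtain ⟨⟨h1, h2⟩, h3, h4⟩ := hx0 x hx
  rw [Real.rpow_one] at h3
  have hx1 : (1 : ℝ) ≤ x := by exact_mod_cast h4
  have hx00 : (0 : ℝ) < x := by linarith only [hx1]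
  have hL0 : (0 : ℝ) < Real.log x := by linarith only [h1]
  have hD' : (D : ℝ) ≤ √(x : ℝ) / Real.log x ^ (5 * k + 30) := by
    refine hD.trans ?_
    rw [Real.rpow_sub hx00, ← Real.sqrt_eq_rpow]
    gcongr
  have hN' : (N : ℝ) ≤ 2 * x := by exact_mod_cast hN
  rcases le_total ((N : ℝ)) (x / Real.log x ^ (k + 2)) with h | h
  · exact chE_small k x (Real.log x) h1 rfl hx1 N D _ hN1 h hD'
  · exact chE_large k x (Real.log x) h1 rfl h3 N D h hN' hD'

end Pool.Agent.H91.EHA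

end
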