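import Pool.Agent.H15.TB1.M65
import Pool.Agent.H15.TB1.M76

/-! The parts of this file: H91.EHA.GTwoB. -/

section

/-!
# The range `Q² ≤ H x^{1-ε}`, sharp cut-off, arbitrary sets of classes (adapted from `TwoB`, by helper34)

Fix `y ≤ x`; let `ε_{q,a}` be the signs of `E(q,a) = psiA y q a - (1/φ(q)) ∑_{n ≤ y, (n,q)=1} Λ(n)` and
`a_n = ∑_{q,a} ε_{q,a} Λ(n) (1_{n ≡ a (q)} - 1_{(n,q)=1}/φ(q))`, so `∑_{n≤y} a_n = ∑_{q,a} |E(q,a)|`.
`smooth_to_sharp` with `B = H x/(log x)^{c'}` (`two_om`, all `N ≤ 2y ≤ 2x`), `P = 2Q`,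
`H_lemma = C H (log x)^3` (`∑_{n ∈ (u,v], n ≡ a (q)} Λ(n) ≤ ((v-u)/q + 1) log x`, `∑_q 1/φ(q) ≤ C (log x)²`),
`δ = 1/(log x)^{c''}`.  Use it for `y ≥ x/(log x)^{c+3}`, say; for smaller `y` the trivial bound
`∑_{q,a} ((y/q + 1) log x + y/φ(q))` suffices.
Finally `|∑_{n≤y,(n,q)=1} Λ(n) - y| ≤ x/(log x)^{c'}` by `pnt` and `∑_{(n,q)>1} Λ(n) ≤ C (log x)²`;
the sum over `q` of `1/φ(q)` costs `(log x)²`.
-/

set_option autoImplicit false

namespace Pool.Agent.H91.EHA

open Finset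
open Pool.Agent.H91.PK

/-- general error functional -/
noncomputable def gtwobG (w : ℕ → ℝ) (N q a : ℕ) : ℝ :=
  (∑ n ∈ (Icc 1 N).filter (fun n => n ≡ a [MOD q]), Lam n * w n)
    - (1 / (q.totient : ℝ)) * ∑ n ∈ (Icc 1 N).filter (fun n => Nat.Coprime n q), Lam n * w n

/-- the coefficients -/
noncomputable def gtwobA (s : ℕ → ℕ → ℝ) (Q : ℕ) (S : ℕ → Finset ℕ) (n : ℕ) : ℝ :=
  ∑ q ∈ Ioc Q (2 * Q), ∑ a ∈ (S q).filter (fun a => Nat.Coprime a q),
    s q a * (Lam n * ((if n ≡ a [MOD q] then 1 else 0)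
      - (1 / (q.totient : ℝ)) * (if Nat.Coprime n q then 1 else 0)))

theorem gtwobA_sum (s : ℕ → ℕ → ℝ) (Q : ℕ) (S : ℕ → Finset ℕ) (N : ℕ) (w : ℕ → ℝ) :
    ∑ n ∈ Icc 1 N, gtwobA s Q S n * w n =
      ∑ q ∈ Ioc Q (2 * Q), ∑ a ∈ (S q).filter (fun a => Nat.Coprime a q),
        s q a * gtwobG w N q a := by
  unfold gtwobA
  simp_rw [sum_mul]
  rw [sum_comm]
  refine sum_congr rfl fun q _ => ?_
  rw [sum_comm]
  refine sum_congr rfl fun a _ => ?_
  unfold gtwobG
  rw [sum_filter, sum_filter, mul_sum, ← sum_sub_distrib, mul_sum]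
  refine sum_congr rfl fun n _ => ?_
  split_ifs <;> ring

theorem gtwob_lam_nonneg (n : ℕ) : 0 ≤ Lam n := ArithmeticFunction.vonMangoldt_nonneg

theorem gtwob_lam_le {n M : ℕ} (h1 : 1 ≤ n) (h : n ≤ M) : Lam n ≤ Real.log M :=
  ArithmeticFunction.vonMangoldt_le_log.trans
    (Real.log_le_log (by exact_mod_cast h1) (by exact_mod_cast h))

theorem gtwob_count (u v q a : ℕ) (hq : 0 < q) (huv : u ≤ v) :
    (((Ioc u v).filter (fun n => n ≡ a [MOD q])).card : ℝ) ≤ ((v : ℝ) - u) / q + 1 := by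
  have h := Nat.Ioc_filter_modEq_card u v hq a
  have hq' : (0 : ℚ) < q := by exact_mod_cast hq
  have huv' : (u : ℚ) ≤ v := by exact_mod_cast huv
  have h1 : ((((Ioc u v).filter (fun n => n ≡ a [MOD q])).card : ℤ) : ℚ) ≤
      ((v : ℚ) - u) / q + 1 := by
    rw [h]
    push_cast
    apply max_le
    · have h2 := Int.floor_le (((v : ℚ) - a) / q)
      have h3 := Int.lt_floor_add_one (((u : ℚ) - a) / q)
      have h4 : ((v : ℚ) - a) / q - ((u : ℚ) - a) / q = ((v : ℚ) - u) / q := by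
        rw [← sub_div]; ring_nf
      linarith only [h2, h3, h4]
    · have : 0 ≤ ((v : ℚ) - u) / q := div_nonneg (by linarith only [huv']) hq'.le
      linarith only [this]
  have h2 : ((((((Ioc u v).filter (fun n => n ≡ a [MOD q])).card : ℤ) : ℚ)) : ℝ) ≤
      ((((v : ℚ) - u) / q + 1 : ℚ) : ℝ) := by exact_mod_cast h1
  push_cast at h2
  exact h2

theorem gtwob_sum_le (Q : ℕ) (S : ℕ → Finset ℕ) (H : ℝ) (f : ℕ → ℕ → ℝ) (M : ℝ) (hM : 0 ≤ M)
    (hS : ∀ q ∈ Ioc Q (2 * Q), ((S q).card : ℝ) ≤ H)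
    (h : ∀ q ∈ Ioc Q (2 * Q), ∀ a ∈ S q, f q a ≤ M) :
    ∑ q ∈ Ioc Q (2 * Q), ∑ a ∈ (S q).filter (fun a => Nat.Coprime a q), f q a
      ≤ H * (Q * M) := by
  calc ∑ q ∈ Ioc Q (2 * Q), ∑ a ∈ (S q).filter (fun a => Nat.Coprime a q), f q a
      ≤ ∑ q ∈ Ioc Q (2 * Q), (H : ℝ) * M := by
        refine sum_le_sum fun q hq => ?_
        calc ∑ a ∈ (S q).filter (fun a => Nat.Coprime a q), f q a
            ≤ ∑ a ∈ (S q).filter (fun a => Nat.Coprime a q), M :=
              sum_le_sum fun a ha => h q hq a (mem_filter.1 ha).1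
          _ = (((S q).filter (fun a => Nat.Coprime a q)).card : ℝ) * M := by
              rw [sum_const, nsmul_eq_mul]
          _ ≤ (H : ℝ) * M := by
              refine mul_le_mul_of_nonneg_right ?_ hM
              have := card_filter_le (S q) (fun a => Nat.Coprime a q)
              refine le_trans ?_ (hS q hq)
              exact_mod_cast this
    _ = H * (Q * M) := by
        rw [sum_const, Nat.card_Ioc, nsmul_eq_mul]
        have : 2 * Q - Q = Q := by omega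
        rw [this]
        ring

/-- basic data: number of prime factors and totient -/
theorem gtwob_phi {Q x q : ℕ} (hQ : 1 ≤ Q) (hQx : Q ≤ x) (hL : 2 ≤ Real.log x)
    (hq : q ∈ Ioc Q (2 * Q)) :
    (q.primeFactors.card : ℝ) ≤ 2 * Real.log x ∧
      1 / (q.totient : ℝ) ≤ 3 * Real.log x / Q := by
  rw [mem_Ioc] at hq
  have hq1 : 1 ≤ q := by omega
  have h1 := DiA_omega_le hq1
  have hx0 : (0 : ℝ) < x := by
    have : 0 < x := by omega
    exact_mod_cast this
  have h2 : Real.log q ≤ Real.log 2 + Real.log x := by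
    rw [← Real.log_mul (by norm_num) hx0.ne']
    refine Real.log_le_log (by exact_mod_cast hq1) ?_
    have : q ≤ 2 * x := by omega
    exact_mod_cast this
  have h3 : (0.6931471803 : ℝ) < Real.log 2 := Real.log_two_gt_d9
  have h3' : Real.log 2 < 0.6931471808 := Real.log_two_lt_d9
  have h5 : (0 : ℝ) ≤ q.primeFactors.card := Nat.cast_nonneg _
  have h4 : (q.primeFactors.card : ℝ) ≤ 2 * Real.log x := by nlinarith only [hL, h1, h2, h3]
  refine ⟨h4, ?_⟩
  have h6 := Pool.Agent.H92.EH.le_totient_mul q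
  have hphi : (0 : ℝ) < q.totient := by exact_mod_cast Nat.totient_pos.2 hq1
  have hQ0 : (0 : ℝ) < Q := by exact_mod_cast hQ
  rw [div_le_div_iff₀ hphi hQ0]
  have h7 : (Q : ℝ) ≤ q := by exact_mod_cast hq.1.le
  nlinarith only [hL, h4, h6, h7]

theorem gtwobA_abs_le {s : ℕ → ℕ → ℝ} {Q x u v : ℕ} {S : ℕ → Finset ℕ} {H : ℝ} (hH0 : 0 ≤ H)
    (hS : ∀ q ∈ Ioc Q (2 * Q), ((S q).card : ℝ) ≤ H) (hs : ∀ q a, |s q a| ≤ 1)
    (hQ : 1 ≤ Q) (hQx : Q ≤ x) (hL : 2 ≤ Real.log x) (huv : u ≤ v) (hv : v ≤ 2 * x) :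
    ∑ n ∈ Ioc u v, |gtwobA s Q S n| ≤
      8 * H * Real.log x ^ 2 * ((v : ℝ) - u + Q) := by
  have hx0 : (0 : ℝ) < x := by
    have : 0 < x := by omega
    exact_mod_cast this
  have huv' : (u : ℝ) ≤ v := by exact_mod_cast huv
  have hQ0 : (0 : ℝ) < Q := by exact_mod_cast hQ
  have hlog : Real.log ((2 * x : ℕ) : ℝ) ≤ 2 * Real.log x := by
    push_cast
    rw [Real.log_mul (by norm_num) hx0.ne']
    have := Real.log_two_lt_d9
    linarith only [hL, this]
  have h1 : ∀ n ∈ Ioc u v, |gtwobA s Q S n| ≤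
      ∑ q ∈ Ioc Q (2 * Q), ∑ a ∈ (S q).filter (fun a => Nat.Coprime a q),
        (2 * Real.log x) * ((if n ≡ a [MOD q] then 1 else 0) + 1 / (q.totient : ℝ)) := by
    intro n hn
    rw [mem_Ioc] at hn
    unfold gtwobA
    refine (abs_sum_le_sum_abs _ _).trans (sum_le_sum fun q hq => ?_)
    refine (abs_sum_le_sum_abs _ _).trans (sum_le_sum fun a ha => ?_)
    rw [abs_mul, abs_mul]
    have h2 : |Lam n| ≤ 2 * Real.log x := by
      rw [abs_of_nonneg (gtwob_lam_nonneg n)]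
      exact (gtwob_lam_le (by omega) (by omega)).trans hlog
    have h3 : |(if n ≡ a [MOD q] then (1 : ℝ) else 0)
        - (1 / (q.totient : ℝ)) * (if Nat.Coprime n q then 1 else 0)| ≤
        (if n ≡ a [MOD q] then 1 else 0) + 1 / (q.totient : ℝ) := by
      have hp : (0 : ℝ) ≤ 1 / (q.totient : ℝ) := by positivity
      rw [abs_le]
      constructor <;> split_ifs <;> linarith only [hp]
    calc |s q a| * (|Lam n| * |(if n ≡ a [MOD q] then (1 : ℝ) else 0)
          - (1 / (q.totient : ℝ)) * (if Nat.Coprime n q then 1 else 0)|)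
        ≤ 1 * ((2 * Real.log x) *
          ((if n ≡ a [MOD q] then 1 else 0) + 1 / (q.totient : ℝ))) := by
          refine mul_le_mul (hs q a) (mul_le_mul h2 h3 (abs_nonneg _) (by linarith only [hL]))
            (mul_nonneg (abs_nonneg _) (abs_nonneg _)) zero_le_one
      _ = _ := one_mul _
  calc ∑ n ∈ Ioc u v, |gtwobA s Q S n|
      ≤ ∑ n ∈ Ioc u v, ∑ q ∈ Ioc Q (2 * Q),
        ∑ a ∈ (S q).filter (fun a => Nat.Coprime a q),
        (2 * Real.log x) * ((if n ≡ a [MOD q] then 1 else 0) + 1 / (q.totient : ℝ)) :=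
        sum_le_sum h1
    _ = ∑ q ∈ Ioc Q (2 * Q), ∑ a ∈ (S q).filter (fun a => Nat.Coprime a q),
        ∑ n ∈ Ioc u v,
        (2 * Real.log x) * ((if n ≡ a [MOD q] then 1 else 0) + 1 / (q.totient : ℝ)) := by
        rw [sum_comm]
        refine sum_congr rfl fun q _ => ?_
        rw [sum_comm]
    _ ≤ H * (Q * (2 * Real.log x * ((((v : ℝ) - u) / Q + 1)
          + ((v : ℝ) - u) * (3 * Real.log x / Q)))) := by
        refine gtwob_sum_le Q S H _ _ ?_ hS ?_
        · have : 0 ≤ (v : ℝ) - u := by linarith only [huv']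
          positivity
        · intro q hq a _
          rw [← mul_sum, sum_add_distrib, sum_const, Nat.card_Ioc, nsmul_eq_mul,
            Nat.cast_sub huv]
          refine mul_le_mul_of_nonneg_left ?_ (by linarith only [hL])
          have h4 : ∑ n ∈ Ioc u v, (if n ≡ a [MOD q] then (1 : ℝ) else 0) =
              (((Ioc u v).filter (fun n => n ≡ a [MOD q])).card : ℝ) := by
            rw [← sum_filter, sum_const, nsmul_eq_mul, mul_one]
          rw [h4]
          have hq2 := mem_Ioc.1 hq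
          refine add_le_add ?_ ?_
          · refine (gtwob_count u v q a (by omega) huv).trans ?_
            have h7 : (Q : ℝ) ≤ q := by exact_mod_cast hq2.1.le
            have h8 : ((v : ℝ) - u) / q ≤ ((v : ℝ) - u) / Q :=
              div_le_div_of_nonneg_left (by linarith only [huv']) hQ0 h7
            linarith only [h8]
          · exact mul_le_mul_of_nonneg_left (gtwob_phi hQ hQx hL hq).2 (by linarith only [huv'])
    _ = H * (2 * Real.log x * (((v : ℝ) - u) + Q + ((v : ℝ) - u) * (3 * Real.log x))) := by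
        field_simp
    _ ≤ 8 * H * Real.log x ^ 2 * ((v : ℝ) - u + Q) := by
        have hH : (0 : ℝ) ≤ H := hH0
        have h9 : 0 ≤ (v : ℝ) - u := by linarith only [huv']
        have h10 : 2 * Real.log x * (((v : ℝ) - u) + Q + ((v : ℝ) - u) * (3 * Real.log x)) ≤
            8 * Real.log x ^ 2 * ((v : ℝ) - u + Q) := by
          have h11 : 0 ≤ ((v : ℝ) - u) * Real.log x := mul_nonneg h9 (by linarith only [hL])
          have h12 : 0 ≤ (Q : ℝ) * Real.log x := mul_nonneg hQ0.le (by linarith only [hL])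
          linarith only [h11, h12, mul_nonneg h11 (by linarith only [hL] : (0 : ℝ) ≤ Real.log x - 2), mul_nonneg h12 (by linarith only [hL] : (0 : ℝ) ≤ Real.log x - 2)]
        calc (H : ℝ) * (2 * Real.log x * (((v : ℝ) - u) + Q + ((v : ℝ) - u) * (3 * Real.log x)))
            ≤ H * (8 * Real.log x ^ 2 * ((v : ℝ) - u + Q)) :=
              mul_le_mul_of_nonneg_left h10 hH
          _ = _ := by ring

theorem gtwob_triv {Q x y : ℕ} {S : ℕ → Finset ℕ} {H : ℝ} (hH0 : 0 ≤ H)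
    (hS : ∀ q ∈ Ioc Q (2 * Q), ((S q).card : ℝ) ≤ H) (hQ : 1 ≤ Q) (hQx : Q ≤ x) (hL : 2 ≤ Real.log x)
    (hy : y ≤ x) :
    ∑ q ∈ Ioc Q (2 * Q), ∑ a ∈ (S q).filter (fun a => Nat.Coprime a q),
        |psiA y q a - y / (q.totient : ℝ)| ≤ H * (4 * Real.log x * (y + Q)) := by
  have hQ0 : (0 : ℝ) < Q := by exact_mod_cast hQ
  have hy0 : (0 : ℝ) ≤ y := Nat.cast_nonneg _
  refine (gtwob_sum_le Q S H _ (Real.log x * ((y : ℝ) / Q + 1) + y * (3 * Real.log x / Q))
    (by positivity) hS ?_).trans ?_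
  · intro q hq a _
    have hq2 := mem_Ioc.1 hq
    have h1 : psiA y q a ≤ Real.log x * ((y : ℝ) / Q + 1) := by
      unfold psiA
      calc ∑ n ∈ (Icc 1 y).filter (fun n => n ≡ a [MOD q]), Lam n
          ≤ ∑ n ∈ (Icc 1 y).filter (fun n => n ≡ a [MOD q]), Real.log x := by
            refine sum_le_sum fun n hn => ?_
            rw [mem_filter, mem_Icc] at hn
            exact gtwob_lam_le hn.1.1 (by omega)
        _ = Real.log x * (((Icc 1 y).filter (fun n => n ≡ a [MOD q])).card : ℝ) := by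
            rw [sum_const, nsmul_eq_mul, mul_comm]
        _ ≤ Real.log x * ((y : ℝ) / Q + 1) := by
            refine mul_le_mul_of_nonneg_left ?_ (by linarith only [hL])
            have h2 := gtwob_count 0 y q a (by omega) (Nat.zero_le _)
            have h3 : Ioc 0 y = Icc 1 y := by
              ext n; simp only [mem_Ioc, mem_Icc]; omega
            rw [h3] at h2
            have h7 : (Q : ℝ) ≤ q := by exact_mod_cast hq2.1.le
            have h8 : ((y : ℝ) - (0 : ℕ)) / q ≤ (y : ℝ) / Q := by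
              simp only [Nat.cast_zero, sub_zero]
              exact div_le_div_of_nonneg_left hy0 hQ0 h7
            linarith only [h2, h8]
    have h0 : 0 ≤ psiA y q a := sum_nonneg fun _ _ => gtwob_lam_nonneg _
    have h2 : (y : ℝ) / (q.totient : ℝ) ≤ y * (3 * Real.log x / Q) := by
      rw [div_eq_mul_one_div]
      exact mul_le_mul_of_nonneg_left (gtwob_phi hQ hQx hL hq).2 hy0
    have h3 : 0 ≤ (y : ℝ) / (q.totient : ℝ) := by positivity
    rw [abs_le]
    constructor <;> linarith only [h1, h0, h2, h3]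
  · refine mul_le_mul_of_nonneg_left ?_ hH0
    have h1 : (Q : ℝ) * (Real.log x * ((y : ℝ) / Q + 1) + y * (3 * Real.log x / Q)) =
        Real.log x * (4 * y + Q) := by
      field_simp
      ring
    rw [h1]
    linarith only [mul_nonneg hQ0.le (by linarith only [hL] : (0 : ℝ) ≤ Real.log x)]

theorem gtwob_sharp : ∃ C : ℝ, 0 < C ∧ ∀ (Q x y k : ℕ) (S : ℕ → Finset ℕ) (H B : ℝ), 0 ≤ H →
    (∀ q ∈ Ioc Q (2 * Q), ((S q).card : ℝ) ≤ H) → 1 ≤ Q → Q ≤ x →
    2 ≤ Real.log x → y ≤ x → 2 ≤ y → 0 ≤ B → 1 ≤ k →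
    (∀ N : ℕ, 1 ≤ N → N ≤ 2 * x → ∑ q ∈ Ioc Q (2 * Q),
      ∑ a ∈ (S q).filter (fun a => Nat.Coprime a q), |Eom N q a| ≤ B) →
    ∑ q ∈ Ioc Q (2 * Q), ∑ a ∈ (S q).filter (fun a => Nat.Coprime a q),
        |gtwobG (fun _ => 1) y q a| ≤
      C * (B * (2 * Real.log x ^ (3 * k)) + 8 * H * Real.log x ^ 2 *
        (x / Real.log x ^ k + Real.log x + Q * Real.log x ^ (3 * k))) := by
  obtain ⟨C, hC, hSm⟩ := smooth_to_sharp
  refine ⟨C, hC, ?_⟩
  intro Q x y k S H B hH0 hS hQ hQx hL hyx hy2 hB hk hE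
  set L := Real.log x with hLdef
  have hL0 : 0 < L := by linarith only [hL]
  have hL1 : 1 ≤ L := by linarith only [hL]
  have hQ0 : (1 : ℝ) ≤ Q := by exact_mod_cast hQ
  have hx0 : (0 : ℝ) < x := by
    have : 0 < x := by omega
    exact_mod_cast this
  set s : ℕ → ℕ → ℝ := fun q a => if 0 ≤ gtwobG (fun _ => 1) y q a then 1 else -1 with hs
  have hs1 : ∀ q a, |s q a| ≤ 1 := by
    intro q a
    simp only [hs]
    split_ifs <;> simp
  have hs2 : ∀ q a, s q a * gtwobG (fun _ => 1) y q a = |gtwobG (fun _ => 1) y q a| := by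
    intro q a
    simp only [hs]
    split_ifs with h
    · rw [abs_of_nonneg h, one_mul]
    · rw [abs_of_neg (not_le.1 h)]; ring
  have hLk : 2 ≤ L ^ k := by
    calc (2 : ℝ) ≤ L := hL
      _ = L ^ 1 := (pow_one L).symm
      _ ≤ L ^ k := pow_le_pow_right₀ hL1 hk
  have hδ : 0 < 1 / L ^ k := by positivity
  have hδ2 : 1 / L ^ k ≤ 1 / 2 := one_div_le_one_div_of_le (by norm_num) hLk
  have h1 := hSm (fun n => ((gtwobA s Q S n : ℝ) : ℂ)) B (8 * H * L ^ 2) Q y (1 / L ^ k) hB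
    (by positivity) hQ0 hy2 hδ hδ2 ?_ ?_
  · have h2 : ∑ q ∈ Ioc Q (2 * Q), ∑ a ∈ (S q).filter (fun a => Nat.Coprime a q),
        |gtwobG (fun _ => 1) y q a| = ∑ n ∈ Icc 1 y, gtwobA s Q S n := by
      have h3 := gtwobA_sum s Q S y (fun _ => 1)
      simp only [mul_one] at h3
      rw [h3]
      refine sum_congr rfl fun q _ => sum_congr rfl fun a _ => ?_
      rw [← hs2]
    have h4 : ‖∑ n ∈ Icc 1 y, ((gtwobA s Q S n : ℝ) : ℂ)‖ =
        |∑ n ∈ Icc 1 y, gtwobA s Q S n| := by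
      rw [← Complex.ofReal_sum, Complex.norm_real, Real.norm_eq_abs]
    rw [h4] at h1
    rw [h2]
    refine (le_abs_self _).trans (h1.trans ?_)
    refine mul_le_mul_of_nonneg_left ?_ hC.le
    have h5 : 1 / (1 / L ^ k) ^ 3 = L ^ (3 * k) := by
      rw [one_div_pow, one_div_one_div, ← pow_mul, mul_comm]
    have h5' : (Q : ℝ) / (1 / L ^ k) ^ 3 = Q * L ^ (3 * k) := by
      rw [div_eq_mul_one_div, h5]
    have h6 : Real.log y ≤ L := Real.log_le_log (by
      have : 0 < y := by omega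
      exact_mod_cast this) (by exact_mod_cast hyx)
    have h7 : L ≤ L ^ (3 * k) := by
      calc L = L ^ 1 := (pow_one L).symm
        _ ≤ L ^ (3 * k) := pow_le_pow_right₀ hL1 (by omega)
    rw [h5, h5']
    refine add_le_add ?_ ?_
    · refine mul_le_mul_of_nonneg_left ?_ hB
      linarith only [h6, h7]
    · refine mul_le_mul_of_nonneg_left ?_ (by positivity)
      have h8 : 1 / L ^ k * (y : ℝ) ≤ x / L ^ k := by
        rw [div_mul_eq_mul_div, one_mul]
        have : (y : ℝ) ≤ x := by exact_mod_cast hyx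
        gcongr
      linarith only [h6, h8]
  · intro N hN1 hN2
    have h2 : ∑ n ∈ Icc 1 N, ((gtwobA s Q S n : ℝ) : ℂ) * ((om ((n : ℝ) / N) : ℝ) : ℂ) =
        ((∑ n ∈ Icc 1 N, gtwobA s Q S n * om ((n : ℝ) / N) : ℝ) : ℂ) := by
      push_cast
      rfl
    rw [h2, Complex.norm_real, Real.norm_eq_abs,
      gtwobA_sum s Q S N (fun n => om ((n : ℝ) / N))]
    refine le_trans ?_ (hE N hN1 (by omega))
    refine (abs_sum_le_sum_abs _ _).trans (sum_le_sum fun q _ => ?_)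
    refine (abs_sum_le_sum_abs _ _).trans (sum_le_sum fun a _ => ?_)
    rw [abs_mul]
    have h3 : gtwobG (fun n => om ((n : ℝ) / N)) N q a = Eom N q a := rfl
    rw [h3]
    calc |s q a| * |Eom N q a| ≤ 1 * |Eom N q a| :=
          mul_le_mul_of_nonneg_right (hs1 q a) (abs_nonneg _)
      _ = _ := one_mul _
  · intro u v huv hv
    have h2 : ∀ n ∈ Ioc u v, ‖((gtwobA s Q S n : ℝ) : ℂ)‖ = |gtwobA s Q S n| := by
      intro n _
      rw [Complex.norm_real, Real.norm_eq_abs]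
    rw [sum_congr rfl h2]
    exact gtwobA_abs_le hH0 hS hs1 hQ hQx hL huv (by omega)

theorem gtwob_main_term {Q x y q : ℕ} {C2 : ℝ} {c : ℕ} (hQ : 1 ≤ Q) (hQx : Q ≤ x)
    (hL : 2 ≤ Real.log x) (hq : q ∈ Ioc Q (2 * Q)) (hy : y ≤ x) (hy2 : 2 ≤ y)
    (hxy : x < y * y) (hC2 : 0 < C2)
    (hp : |(∑ n ∈ Icc 1 y, Lam n) - y| ≤ C2 * y / Real.log y ^ (c + 2)) :
    |(∑ n ∈ (Icc 1 y).filter (fun n => Nat.Coprime n q), Lam n) - y| ≤
      C2 * 2 ^ (c + 2) * x / Real.log x ^ (c + 2) + 2 * Real.log x * Real.log x := by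
  have hq2 := mem_Ioc.1 hq
  have hy0 : (0 : ℝ) < y := by
    have : 0 < y := by omega
    exact_mod_cast this
  have hx0 : (0 : ℝ) < x := by
    have : 0 < x := by omega
    exact_mod_cast this
  have hyx : (y : ℝ) ≤ x := by exact_mod_cast hy
  have h1 := DiA_psi_noncoprime (N := y) (d := q) (by omega) (by omega)
  have h2 : (∑ n ∈ (Icc 1 y).filter (fun n => Nat.Coprime n q), Lam n) +
      ∑ n ∈ (Icc 1 y).filter (fun n => ¬ Nat.Coprime n q), Lam n =
      ∑ n ∈ Icc 1 y, Lam n := sum_filter_add_sum_filter_not _ _ _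
  have h3 : 0 ≤ ∑ n ∈ (Icc 1 y).filter (fun n => ¬ Nat.Coprime n q), Lam n :=
    sum_nonneg fun _ _ => gtwob_lam_nonneg _
  have h4 : ∑ n ∈ (Icc 1 y).filter (fun n => ¬ Nat.Coprime n q), Lam n ≤
      2 * Real.log x * Real.log x := by
    refine le_trans h1 ?_
    have h5 := (gtwob_phi hQ hQx hL hq).1
    have h6 : Real.log y ≤ Real.log x := Real.log_le_log hy0 hyx
    have h7 : 0 ≤ Real.log y := Real.log_natCast_nonneg y
    exact mul_le_mul h5 h6 h7 (by linarith only [hL])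
  have h8 : Real.log x / 2 ≤ Real.log y := by
    have h9 : Real.log x ≤ Real.log ((y : ℝ) * y) :=
      Real.log_le_log hx0 (by exact_mod_cast hxy.le)
    rw [Real.log_mul hy0.ne' hy0.ne'] at h9
    linarith only [h9]
  have h10 : C2 * y / Real.log y ^ (c + 2) ≤ C2 * 2 ^ (c + 2) * x / Real.log x ^ (c + 2) := by
    have h11 : (0 : ℝ) < Real.log x / 2 := by linarith only [hL]
    calc C2 * y / Real.log y ^ (c + 2) ≤ C2 * x / (Real.log x / 2) ^ (c + 2) := by
          gcongr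
      _ = C2 * 2 ^ (c + 2) * x / Real.log x ^ (c + 2) := by
          rw [div_pow]
          field_simp
  rw [abs_le] at hp ⊢
  constructor <;> linarith only [hp, h2, h4, h10, h3]

theorem gtwob_params (θ : ℝ) (hθ : θ < 1) (m : ℕ) (K : ℝ) : ∃ x0 : ℕ, ∀ x : ℕ, x0 ≤ x →
    K ≤ Real.log x ∧ 1 ≤ x ∧ (∀ Q : ℕ, (Q : ℝ) ≤ (x : ℝ) ^ θ → (Q : ℝ) * Real.log x ^ m ≤ x) ∧
      (∀ y : ℕ, y * y ≤ x → (y : ℝ) * Real.log x ^ m ≤ x) := by
  set η : ℝ := min (1 - θ) (1 / 2) with hη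
  have hη0 : 0 < η := lt_min (by linarith only [hθ]) (by norm_num)
  have hlo := (isLittleO_log_rpow_rpow_atTop (s := η) (m : ℝ) hη0).def (c := 1) one_pos
  have hlo' := tendsto_natCast_atTop_atTop.eventually hlo
  have h1 : ∀ᶠ x : ℕ in Filter.atTop, K ≤ Real.log x :=
    (Real.tendsto_log_atTop.comp tendsto_natCast_atTop_atTop).eventually_ge_atTop K
  obtain ⟨x0, hx0⟩ := Filter.eventually_atTop.1 (hlo'.and (h1.and (Filter.eventually_ge_atTop 1)))
  refine ⟨x0, fun x hx => ?_⟩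
  obtain ⟨h2, h3, h4⟩ := hx0 x hx
  have hx1 : (1 : ℝ) ≤ x := by exact_mod_cast h4
  have hxpos : (0 : ℝ) < x := by linarith only [hx1]
  have hlog : 0 ≤ Real.log x := Real.log_nonneg hx1
  rw [one_mul, Real.rpow_natCast, Real.norm_of_nonneg (by positivity),
    Real.norm_of_nonneg (by positivity)] at h2
  have key : ∀ t : ℝ, 0 ≤ t → t ≤ (x : ℝ) ^ (1 - η) → t * Real.log x ^ m ≤ x := by
    intro t ht0 ht
    calc t * Real.log x ^ m ≤ (x : ℝ) ^ (1 - η) * (x : ℝ) ^ η := by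
          gcongr
      _ = x := by
          rw [← Real.rpow_add hxpos]
          simp
  refine ⟨h3, h4, ?_, ?_⟩
  · intro Q hQ
    refine key Q (Nat.cast_nonneg _) (hQ.trans ?_)
    refine Real.rpow_le_rpow_of_exponent_le hx1 ?_
    have := min_le_left (1 - θ) (1 / 2 : ℝ)
    linarith only [this]
  · intro y hy
    refine key y (Nat.cast_nonneg _) ?_
    have h5 : (y : ℝ) ≤ (x : ℝ) ^ (1 / 2 : ℝ) := by
      rw [← Real.sqrt_eq_rpow]
      refine Real.le_sqrt_of_sq_le ?_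
      have : ((y * y : ℕ) : ℝ) ≤ x := by exact_mod_cast hy
      push_cast at this
      linarith only [this]
    refine h5.trans (Real.rpow_le_rpow_of_exponent_le hx1 ?_)
    have := min_le_right (1 - θ) (1 / 2 : ℝ)
    linarith only [this]

theorem gtwo_range (θ ε : ℝ) (hθ : θ < 1) (hε : 0 < ε) (hε2 : ε ≤ 1 / 2) (hεθ : ε ≤ 1 - θ)
    (c : ℕ) :
    ∃ x0 : ℕ, ∀ x : ℕ, x0 ≤ x →
    ∀ y Q : ℕ, ∀ H : ℝ, ∀ S : ℕ → Finset ℕ, y ≤ x → 1 ≤ Q → (Q : ℝ) ≤ (x : ℝ) ^ θ → 1 ≤ H →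
      Fam x Q ε H S →
      (Q : ℝ) ^ 2 ≤ H * (x : ℝ) ^ (1 - ε) →
      ∑ q ∈ Ioc Q (2 * Q), ∑ a ∈ (S q).filter (fun a => Nat.Coprime a q),
        |psiA y q a - y / (q.totient : ℝ)| ≤ H * x / Real.log x ^ c := by
  obtain ⟨C, hC, hsharp⟩ := gtwob_sharp
  obtain ⟨C2, hC2, hpnt⟩ := pnt (c + 2)
  obtain ⟨x1, hx1⟩ := gtwo_om θ ε hθ hε hε2 hεθ (3 * (c + 3) + c + 2)
  obtain ⟨x2, hx2⟩ := gtwob_params θ hθ (3 * (c + 3) + c + 4)
    (2 + 26 * C + 3 * C2 * 2 ^ (c + 2) + 6)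
  refine ⟨max x1 x2, fun x hx y Q H S hy hQ hQθ hH1 hFam hQH => ?_⟩
  have hS := hFam.1
  obtain ⟨hLK, hx1', hQm, hym⟩ := hx2 x (le_trans (le_max_right _ _) hx)
  have hom := hx1 x (le_trans (le_max_left _ _) hx)
  have hQm' := hQm Q hQθ
  set L := Real.log x with hLdef
  have hC2' : 0 ≤ 3 * C2 * 2 ^ (c + 2) := by positivity
  have hL2 : 2 ≤ L := by linarith only [hC, hLK, hC2']
  have hL0 : 0 < L := by linarith only [hC, hLK, hC2']
  have hL1 : 1 ≤ L := by linarith only [hC, hLK, hC2']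
  have hH0 : (0 : ℝ) ≤ H := by linarith only [hH1]
  have hQ0 : (1 : ℝ) ≤ Q := by exact_mod_cast hQ
  have hx0 : (0 : ℝ) < x := by exact_mod_cast hx1'
  have hLm : 1 ≤ L ^ (3 * (c + 3) + c + 4) := one_le_pow₀ hL1
  have hQx : Q ≤ x := by
    have : (Q : ℝ) ≤ x := by
      calc (Q : ℝ) = Q * 1 := (mul_one _).symm
        _ ≤ Q * L ^ (3 * (c + 3) + c + 4) := by gcongr
        _ ≤ x := hQm'
    exact_mod_cast this
  have hLmx : L ^ (3 * (c + 3) + c + 4) ≤ x := by
    calc L ^ (3 * (c + 3) + c + 4) = 1 * L ^ (3 * (c + 3) + c + 4) := (one_mul _).symm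
      _ ≤ Q * L ^ (3 * (c + 3) + c + 4) := by gcongr
      _ ≤ x := hQm'
  by_cases hcase : y * y ≤ x
  · -- small `y`
    refine (gtwob_triv hH0 hS hQ hQx hL2 hy).trans ?_
    have hym' := hym y hcase
    rw [mul_div_assoc]
    refine mul_le_mul_of_nonneg_left ?_ hH0
    rw [le_div_iff₀ (by positivity)]
    have h1 : ((y : ℝ) + Q) * L ^ (3 * (c + 3) + c + 4) ≤ 2 * x := by
      rw [add_mul]; linarith only [hQm', hym']
    have h2 : L ^ (3 * (c + 3) + c + 4) = L ^ 3 * (L * L ^ c) * L ^ (3 * (c + 2) + 3) := by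
      ring
    have h3 : 8 ≤ L ^ 3 := by
      calc (8 : ℝ) = 2 ^ 3 := by norm_num
        _ ≤ L ^ 3 := by gcongr
    have h4 : 1 ≤ L ^ (3 * (c + 2) + 3) := one_le_pow₀ hL1
    have h5 : 8 * (L * L ^ c) ≤ L ^ (3 * (c + 3) + c + 4) := by
      rw [h2]
      calc 8 * (L * L ^ c) = 8 * (L * L ^ c) * 1 := by ring
        _ ≤ L ^ 3 * (L * L ^ c) * L ^ (3 * (c + 2) + 3) := by gcongr
    have h6 : 0 ≤ (y : ℝ) + Q := by positivity
    have h7 := mul_le_mul_of_nonneg_left h5 h6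
    linarith only [hQm', hym', h7]
  · -- large `y`
    push Not at hcase
    have hy2 : 2 ≤ y := by
      by_contra hcon
      have h1 : y * y ≤ 1 := by
        have : y ≤ 1 := by omega
        calc y * y ≤ 1 * 1 := Nat.mul_le_mul this this
          _ = 1 := rfl
      have h2 : x = 0 := by omega
      omega
    have h1 := hsharp Q x y (c + 3) S H (H * x / L ^ (3 * (c + 3) + c + 2)) hH0 hS hQ hQx hL2 hy hy2
      (by positivity) (by omega)
      (fun N hN1 hN2 => hom N Q H S hN1 hN2 hQ hQθ hH1 hFam hQH)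
    rw [← hLdef] at h1
    have h2 : ∑ q ∈ Ioc Q (2 * Q), ∑ a ∈ (S q).filter (fun a => Nat.Coprime a q),
        |psiA y q a - y / (q.totient : ℝ)| ≤
        ∑ q ∈ Ioc Q (2 * Q), ∑ a ∈ (S q).filter (fun a => Nat.Coprime a q),
          |gtwobG (fun _ => 1) y q a| +
        ∑ q ∈ Ioc Q (2 * Q), ∑ a ∈ (S q).filter (fun a => Nat.Coprime a q),
          (3 * L / Q) * (C2 * 2 ^ (c + 2) * x / L ^ (c + 2) + 2 * L * L) := by
      rw [← sum_add_distrib]
      refine sum_le_sum fun q hq => ?_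
      rw [← sum_add_distrib]
      refine sum_le_sum fun a _ => ?_
      have h3 := gtwob_main_term hQ hQx hL2 hq hy hy2 hcase hC2 (hpnt y hy2)
      have h4 := (gtwob_phi hQ hQx hL2 hq).2
      have h5 : psiA y q a - y / (q.totient : ℝ) = gtwobG (fun _ => 1) y q a +
          (1 / (q.totient : ℝ)) *
            ((∑ n ∈ (Icc 1 y).filter (fun n => Nat.Coprime n q), Lam n) - y) := by
        unfold gtwobG psiA
        simp only [mul_one]
        ring
      rw [h5]
      refine (abs_add_le _ _).trans (add_le_add le_rfl ?_)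
      rw [abs_mul, abs_of_nonneg (by positivity : (0 : ℝ) ≤ 1 / (q.totient : ℝ))]
      exact mul_le_mul h4 h3 (abs_nonneg _) (by positivity)
    have h3 := gtwob_sum_le Q S H
      (fun _ _ => (3 * L / Q) * (C2 * 2 ^ (c + 2) * x / L ^ (c + 2) + 2 * L * L)) _
      (by positivity) hS (fun q _ a _ => le_rfl)
    have hc4 : L ^ (c + 4) ≤ x := (pow_le_pow_right₀ hL1 (by omega)).trans hLmx
    have hcQ : (Q : ℝ) * L ^ (3 * (c + 3) + c + 3) ≤ x := by
      refine le_trans ?_ hQm'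
      have := pow_le_pow_right₀ hL1 (show 3 * (c + 3) + c + 3 ≤ 3 * (c + 3) + c + 4 by omega)
      gcongr
    -- everything in units of `H x / L^(c+1)`
    set U : ℝ := H * x / L ^ (c + 1) with hU
    have hU0 : 0 ≤ U := by positivity
    have e1 : (H : ℝ) * x / L ^ (3 * (c + 3) + c + 2) * (2 * L ^ (3 * (c + 3))) ≤ 2 * U := by
      have : (H : ℝ) * x / L ^ (3 * (c + 3) + c + 2) * (2 * L ^ (3 * (c + 3))) =
          2 * U * (1 / L) := by
        rw [hU]
        have e : L ^ (3 * (c + 3) + c + 2) = L ^ (3 * (c + 3)) * (L ^ (c + 1) * L) := by ring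
        rw [e]
        field_simp
      rw [this]
      have h4 : 1 / L ≤ 1 := by
        rw [div_le_one hL0]; exact hL1
      calc 2 * U * (1 / L) ≤ 2 * U * 1 := by gcongr
        _ = _ := mul_one _
    have e2 : 8 * (H : ℝ) * L ^ 2 * (x / L ^ (c + 3)) = 8 * U := by
      rw [hU]
      have e : L ^ (c + 3) = L ^ 2 * L ^ (c + 1) := by ring
      rw [e]
      field_simp
    have e3 : (H : ℝ) * L ^ 3 ≤ U := by
      rw [hU, le_div_iff₀ (by positivity)]
      calc (H : ℝ) * L ^ 3 * L ^ (c + 1) = H * L ^ (c + 4) := by ring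
        _ ≤ H * x := by gcongr
    have e4 : (H : ℝ) * L ^ 2 * (Q * L ^ (3 * (c + 3))) ≤ U := by
      rw [hU, le_div_iff₀ (by positivity)]
      calc (H : ℝ) * L ^ 2 * (Q * L ^ (3 * (c + 3))) * L ^ (c + 1) =
            H * (Q * L ^ (3 * (c + 3) + c + 3)) := by ring
        _ ≤ H * x := by gcongr
    have e5 : (H : ℝ) * (Q * ((3 * L / Q) *
        (C2 * 2 ^ (c + 2) * x / L ^ (c + 2) + 2 * L * L))) =
        3 * C2 * 2 ^ (c + 2) * U + 6 * (H * L ^ 3) := by
      rw [hU]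
      have e : L ^ (c + 2) = L * L ^ (c + 1) := by ring
      rw [e]
      field_simp
      ring
    have h6 : (H : ℝ) * x / L ^ c = L * U := by
      rw [hU, pow_succ]
      field_simp
    rw [h6]
    have h7 : C * ((H : ℝ) * x / L ^ (3 * (c + 3) + c + 2) * (2 * L ^ (3 * (c + 3))) +
        8 * H * L ^ 2 * (x / L ^ (c + 3) + L + Q * L ^ (3 * (c + 3)))) ≤ C * (26 * U) := by
      refine mul_le_mul_of_nonneg_left ?_ hC.le
      have : 8 * (H : ℝ) * L ^ 2 * (x / L ^ (c + 3) + L + Q * L ^ (3 * (c + 3))) =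
          8 * (H : ℝ) * L ^ 2 * (x / L ^ (c + 3)) + 8 * (H * L ^ 3) +
            8 * (H * L ^ 2 * (Q * L ^ (3 * (c + 3)))) := by ring
      rw [this, e2]
      linarith only [e1, e3, e4]
    have h8 : (2 + 26 * C + 3 * C2 * 2 ^ (c + 2) + 6) * U ≤ L * U :=
      mul_le_mul_of_nonneg_right hLK hU0
    rw [e5] at h3
    linarith only [h1, h2, h3, hU0, e3, h7, h8]

end Pool.Agent.H91.EHA

end
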