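import Pool.Agent.H15.TB1.M24
import Pool.Agent.H15.TB1.M80
import Pool.Agent.H15.TB1.M86
import Pool.Agent.H15.TB1.M87

/-! The parts of this file: H91.EHA.GMain, H36.IS.BVw, H76.ISE.Defs. -/

section

/-!
# Arbitrary sets of residue classes: assembly over all moduli
-/

set_option autoImplicit false

namespace Pool.Agent.H91.EHA

open Finset
open Pool.Agent.H91.PK

/-- one dyadic block -/
theorem gblock (θ ε : ℝ) (hθ : θ < 1) (hε : 0 < ε) (hε2 : ε ≤ 1 / 2) (hεθ : ε ≤ 1 - θ) (c : ℕ) :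
    ∃ x0 : ℕ, ∀ x : ℕ, x0 ≤ x → ∀ Q : ℕ, ∀ H : ℝ, ∀ S : ℕ → Finset ℕ, 1 ≤ H → 1 ≤ Q →
      (Q : ℝ) ≤ (x : ℝ) ^ θ → Fam x Q ε H S → (Q : ℝ) ^ 2 ≤ H * (x : ℝ) ^ (1 - ε) →
      ∑ q ∈ Ioc Q (2 * Q), ∑ a ∈ (S q).filter (fun a => Nat.Coprime a q),
        |err x q (a : ZMod q)| ≤ H * x / Real.log x ^ c := by
  obtain ⟨x1, hx1⟩ := gtwo_range θ ε hθ hε hε2 hεθ (c + 1)
  obtain ⟨x3, hx3⟩ := gerr_of_psi θ ε hθ hε hεθ c
  obtain ⟨x4, hx4⟩ := pnt' (c + 5)
  refine ⟨max x1 (max x3 x4), ?_⟩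
  intro x hx Q H S hH hQ1 hQ hFam hQH
  have e1 : x1 ≤ x := le_trans (le_max_left _ _) hx
  have e3 : x3 ≤ x := le_trans (le_trans (le_max_left _ _) (le_max_right _ _)) hx
  have e4 : x4 ≤ x := le_trans (le_trans (le_max_right _ _) (le_max_right _ _)) hx
  exact hx3 x e3 Q H S hH hQ1 hQ hFam hQH (fun t ht => hx4 x e4 t ht)
    (fun t ht => hx1 x e1 t Q H S ht hQ1 hQ hH hFam hQH)

/-- All moduli.  The family is a sub-family for each dyadic block. -/
theorem gmain (θ ε : ℝ) (hθ : θ < 1) (hε : 0 < ε) (hε2 : ε ≤ 1 / 2) (hεθ : ε ≤ 1 - θ) (c : ℕ) :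
    ∃ x0 : ℕ, ∀ x : ℕ, x0 ≤ x → ∀ H : ℝ, ∀ S : ℕ → Finset ℕ, 1 ≤ H →
      (∀ Q : ℕ, 1 ≤ Q → Q ≤ x → Fam x Q ε H S) →
      ∑ q ∈ (Icc 1 ⌊(x : ℝ) ^ θ⌋₊).filter (fun q : ℕ => (q : ℝ) ^ 2 ≤ H * (x : ℝ) ^ (1 - ε)),
        ∑ a ∈ (S q).filter (fun a => Nat.Coprime a q), |err x q (a : ZMod q)|
          ≤ H * x / Real.log x ^ c := by
  obtain ⟨x1, hx1⟩ := gblock θ ε hθ hε hε2 hεθ (c + 2)
  obtain ⟨x2, hx2⟩ := log_ge 4
  refine ⟨max (max x1 x2) 3, fun x hx H S hH hFam => ?_⟩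
  have e1 : x1 ≤ x := le_trans (le_trans (le_max_left _ _) (le_max_left _ _)) hx
  have e2 : x2 ≤ x := le_trans (le_trans (le_max_right _ _) (le_max_left _ _)) hx
  have e3 : 3 ≤ x := le_trans (le_max_right _ _) hx
  have hx3' : (3 : ℝ) ≤ x := by exact_mod_cast e3
  have hxpos : (0 : ℝ) < x := by linarith only [hx3']
  have hxone : (1 : ℝ) ≤ x := by linarith only [hx3']
  set L : ℝ := Real.log x with hL
  have hL4 : 4 ≤ L := hx2 x e2
  have hLpos : 0 < L := by linarith only [hL4]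
  have hHpos : (0 : ℝ) < H := by linarith only [hH]
  set M : ℕ := ⌊(x : ℝ) ^ θ⌋₊ with hM
  set J : ℕ := Nat.log 2 x + 1 with hJ
  have hMr : (M : ℝ) ≤ (x : ℝ) ^ θ := Nat.floor_le (by positivity)
  have hMx : M ≤ x := by
    have : (M : ℝ) ≤ x := by
      refine hMr.trans ?_
      calc (x : ℝ) ^ θ ≤ (x : ℝ) ^ (1 : ℝ) := Real.rpow_le_rpow_of_exponent_le hxone hθ.le
        _ = x := Real.rpow_one _
    exact_mod_cast this
  have hMJ : M < 2 ^ J := lt_of_le_of_lt hMx (Nat.lt_pow_succ_log_self (by norm_num) x)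
  have hdy := dyadic_cover
    (fun q => ∑ a ∈ (S q).filter (fun a => Nat.Coprime a q),
      |err x q (a : ZMod q)|) (fun q => Finset.sum_nonneg fun a _ => abs_nonneg _) M J hMJ
    (fun q : ℕ => (q : ℝ) ^ 2 ≤ H * (x : ℝ) ^ (1 - ε))
    (by
      apply Finset.sum_eq_zero
      intro a _
      rw [err_one, abs_zero]) (H * x / L ^ (c + 2)) (by positivity)
    (by
      intro j _ q hqM hqP hjq hqj
      have hjq' : ((2 ^ j : ℕ) : ℝ) < q := by exact_mod_cast hjq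
      have hqr : (q : ℝ) ≤ (x : ℝ) ^ θ := by
        refine le_trans ?_ hMr
        exact_mod_cast hqM
      apply hx1 x e1 (2 ^ j) H S hH Nat.one_le_two_pow (hjq'.le.trans hqr)
      · exact hFam _ Nat.one_le_two_pow (hjq.le.trans (hqM.trans hMx))
      · refine le_trans ?_ hqP
        exact pow_le_pow_left₀ (by positivity) hjq'.le 2)
  refine hdy.trans ?_
  -- `J ≤ L^2`
  have hJL : (J : ℝ) ≤ L ^ 2 := by
    have h1 : ((Nat.log 2 x : ℕ) : ℝ) * Real.log 2 ≤ L := by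
      have h2 : (2 : ℝ) ^ (Nat.log 2 x) ≤ x := by
        exact_mod_cast Nat.pow_log_le_self 2 (by omega : x ≠ 0)
      have h3 := Real.log_le_log (by positivity) h2
      rwa [Real.log_pow] at h3
    have h2 := Real.log_two_gt_d9
    have h3 : ((Nat.log 2 x : ℕ) : ℝ) ≤ 2 * L := by
      have h4 : (0 : ℝ) ≤ ((Nat.log 2 x : ℕ) : ℝ) := by positivity
      nlinarith only [h1, h2]
    rw [hJ]
    push_cast
    nlinarith only [hL4, h3]
  calc (J : ℝ) * (H * x / L ^ (c + 2)) ≤ L ^ 2 * (H * x / L ^ (c + 2)) := by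
        apply mul_le_mul_of_nonneg_right hJL (by positivity)
    _ = H * x / L ^ c := by
        rw [pow_add]
        field_simp

/-! ### Sets of classes -/

/-- representatives -/
noncomputable def reps (q : ℕ) (T : Finset (ZMod q)) : Finset ℕ := T.image ZMod.val

theorem fam_reps (x Q : ℕ) (ε H : ℝ) (hε : 0 < ε) (hx : 1 ≤ x) (hH : 0 ≤ H)
    (T : (q : ℕ) → Finset (ZMod q)) (hT : ∀ q ∈ Ioc Q (2 * Q), ((T q).card : ℝ) ≤ H) :
    Fam x Q ε H (fun q => reps q (T q)) := by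
  have hcard : ∀ q ∈ Ioc Q (2 * Q), ((reps q (T q)).card : ℝ) ≤ H := by
    intro q hq
    refine le_trans ?_ (hT q hq)
    exact_mod_cast Finset.card_image_le
  refine ⟨hcard, ?_⟩
  have h1 : ∀ q ∈ Ioc Q (2 * Q),
      ((((reps q (T q)) ×ˢ (reps q (T q))).filter (fun p => p.1 ≡ p.2 [MOD q])).card : ℝ)
        ≤ H := by
    intro q hq
    have hq0 : 0 < q := by
      rw [mem_Ioc] at hq
      omega
    haveI : NeZero q := ⟨hq0.ne'⟩
    refine le_trans ?_ (hcard q hq)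
    have h2 : ((reps q (T q)) ×ˢ (reps q (T q))).filter (fun p => p.1 ≡ p.2 [MOD q]) ⊆
        (reps q (T q)).image (fun a => (a, a)) := by
      intro p hp
      rw [mem_filter, mem_product] at hp
      obtain ⟨⟨hp1, hp2⟩, hp3⟩ := hp
      rw [mem_image]
      refine ⟨p.1, hp1, ?_⟩
      have hlt : ∀ a ∈ reps q (T q), a < q := by
        intro a ha
        unfold reps at ha
        rw [mem_image] at ha
        obtain ⟨b, _, rfl⟩ := ha
        exact ZMod.val_lt b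
      have h3 : p.1 = p.2 := by
        have := hp3
        unfold Nat.ModEq at this
        rwa [Nat.mod_eq_of_lt (hlt _ hp1), Nat.mod_eq_of_lt (hlt _ hp2)] at this
      exact Prod.ext rfl h3
    have h4 := (card_le_card h2).trans card_image_le
    exact_mod_cast h4
  refine (sum_le_sum h1).trans ?_
  rw [sum_const, Nat.card_Ioc, nsmul_eq_mul]
  have h5 : 2 * Q - Q = Q := by omega
  rw [h5]
  have hx1 : (1 : ℝ) ≤ x := by exact_mod_cast hx
  have h6 : 1 ≤ (x : ℝ) ^ (ε / 8) := Real.one_le_rpow hx1 (by linarith only [hε])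
  have h7 : 0 ≤ (Q : ℝ) * H := by positivity
  have h8 : 0 ≤ H ^ 2 := sq_nonneg H
  nlinarith only [h6, h7]

/-- The sum over arbitrary sets of at most `H` reduced classes for each modulus. -/
theorem classes_sum (θ ε : ℝ) (hθ : θ < 1) (hε : 0 < ε) (c : ℕ) :
    ∃ x0 : ℕ, ∀ x : ℕ, x0 ≤ x → ∀ H : ℝ, ∀ T : (q : ℕ) → Finset (ZMod q), 1 ≤ H →
      (∀ q, ((T q).card : ℝ) ≤ H) → (∀ q, ∀ a ∈ T q, IsUnit a) →
      ∑ q ∈ (Icc 1 ⌊(x : ℝ) ^ θ⌋₊).filter (fun q : ℕ => (q : ℝ) ^ 2 ≤ H * (x : ℝ) ^ (1 - ε)),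
        ∑ a ∈ T q, |err x q a| ≤ H * x / Real.log x ^ c := by
  set e : ℝ := min ε (min (1 / 2) (1 - θ)) with he
  have he0 : 0 < e := lt_min hε (lt_min (by norm_num) (by linarith only [hθ]))
  have he1 : e ≤ ε := min_le_left _ _
  have he2 : e ≤ 1 / 2 := (min_le_right _ _).trans (min_le_left _ _)
  have he3 : e ≤ 1 - θ := (min_le_right _ _).trans (min_le_right _ _)
  obtain ⟨x1, hx1⟩ := gmain θ e hθ he0 he2 he3 c
  refine ⟨max x1 1, fun x hx H T hH hT hunit => ?_⟩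
  have e1 : x1 ≤ x := le_trans (le_max_left _ _) hx
  have e2 : 1 ≤ x := le_trans (le_max_right _ _) hx
  have hxone : (1 : ℝ) ≤ x := by exact_mod_cast e2
  have h1 := hx1 x e1 H (fun q => reps q (T q)) hH (fun Q _ _ =>
    fam_reps x Q e H he0 e2 (by linarith only [hH]) T (fun q _ => hT q))
  refine le_trans ?_ h1
  have h2 : (Icc 1 ⌊(x : ℝ) ^ θ⌋₊).filter
        (fun q : ℕ => (q : ℝ) ^ 2 ≤ H * (x : ℝ) ^ (1 - ε)) ⊆
      (Icc 1 ⌊(x : ℝ) ^ θ⌋₊).filter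
        (fun q : ℕ => (q : ℝ) ^ 2 ≤ H * (x : ℝ) ^ (1 - e)) := by
    intro q hq
    rw [mem_filter] at hq ⊢
    refine ⟨hq.1, hq.2.trans ?_⟩
    apply mul_le_mul_of_nonneg_left _ (by linarith only [hH])
    exact Real.rpow_le_rpow_of_exponent_le hxone (by linarith only [he1])
  refine le_trans ?_ (sum_le_sum_of_subset_of_nonneg h2
    (fun q _ _ => sum_nonneg fun a _ => abs_nonneg _))
  refine sum_le_sum fun q hq => le_of_eq ?_
  have hq0 : 0 < q := (mem_Icc.1 (mem_filter.1 hq).1).1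
  haveI : NeZero q := ⟨hq0.ne'⟩
  -- the sum over representatives
  have h3 : (reps q (T q)).filter (fun a => Nat.Coprime a q) = reps q (T q) := by
    apply filter_true_of_mem
    intro a ha
    unfold reps at ha
    rw [mem_image] at ha
    obtain ⟨b, hb, rfl⟩ := ha
    have h4 := hunit q b hb
    rw [← ZMod.natCast_zmod_val b] at h4
    exact (ZMod.isUnit_iff_coprime _ _).1 h4
  rw [h3]
  unfold reps
  rw [sum_image]
  · refine sum_congr rfl fun a _ => ?_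
    rw [ZMod.natCast_zmod_val]
  · intro a _ b _ hab
    exact ZMod.val_injective q hab

end Pool.Agent.H91.EHA

end

section

/-!
# IS BVw: Bombieri-Vinogradov with divisor-type weights and the maximum over classes

`eB W s x Z`: the maximum over unit classes a mod q = W ∏_{p∈Z} p of
|#{p' prime in (x+s, 2x+s], p' ≡ a mod q} - DP x/φ(q)|.
-/

set_option autoImplicit false

namespace Pool.Agent.H36.IS

open Finset Filter

open Classical in
/-- the maximal error of the primes of `(x+s, 2x+s]` in a class modulo `W ∏ Z` -/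
noncomputable def eB (W s x : ℕ) (Z : Finset ℕ) : ℝ :=
  ⨆ a : (ZMod (W * ∏ p ∈ Z, p))ˣ,
    |(((Ioc (x + s) (2 * x + s)).filter (fun p : ℕ => p.Prime ∧ (p : ZMod (W * ∏ p ∈ Z, p)) = a)).card : ℝ) -
      DP x / (Nat.totient (W * ∏ p ∈ Z, p) : ℝ)|

open Classical in
private noncomputable def BVw_f (s x q : ℕ) (a : ZMod q) : ℝ :=
  |(((Ioc (x + s) (2 * x + s)).filter (fun p : ℕ => p.Prime ∧ (p : ZMod q) = a)).card : ℝ) -
      DP x / (Nat.totient q : ℝ)|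

private noncomputable def BVw_e (s x q : ℕ) : ℝ := ⨆ a : (ZMod q)ˣ, BVw_f s x q a

private theorem BVw_eB (W s x : ℕ) (Z : Finset ℕ) : eB W s x Z = BVw_e s x (W * ∏ p ∈ Z, p) := rfl

private theorem BVw_max (s x q : ℕ) :
    ∃ a : ZMod q, IsUnit a ∧ BVw_f s x q a = BVw_e s x q := by
  have hfin : Finite (ZMod q)ˣ := by
    rcases Nat.eq_zero_or_pos q with rfl | hq
    · exact inferInstanceAs (Finite ℤˣ)
    · have : NeZero q := ⟨hq.ne'⟩
      infer_instance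
  obtain ⟨u, hu⟩ := exists_eq_ciSup_of_finite (f := fun a : (ZMod q)ˣ => BVw_f s x q a)
  exact ⟨u, u.isUnit, hu⟩

private theorem BVw_split (s x q : ℕ) (a : ZMod q) :
    BVw_f s x q a =
      |(((Icc 1 (2 * x + s)).filter (fun p : ℕ => Nat.Prime p ∧ ((p : ZMod q) = a))).card : ℝ)
        - (((Icc 1 (x + s)).filter (fun p : ℕ => Nat.Prime p ∧ ((p : ZMod q) = a))).card : ℝ)
        - DP x / (Nat.totient q : ℝ)| := by
  unfold BVw_f
  have h1 : ((Icc 1 (2 * x + s)).filter (fun p : ℕ => Nat.Prime p ∧ ((p : ZMod q) = a))).card =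
      ((Icc 1 (x + s)).filter (fun p : ℕ => Nat.Prime p ∧ ((p : ZMod q) = a))).card +
        ((Ioc (x + s) (2 * x + s)).filter
          (fun p : ℕ => Nat.Prime p ∧ ((p : ZMod q) = a))).card := by
    rw [← card_union_of_disjoint]
    · congr 1
      ext p
      simp only [mem_filter, mem_union, mem_Icc, mem_Ioc]
      constructor
      · rintro ⟨⟨h1, h2⟩, h3⟩
        by_cases h4 : p ≤ x + s
        · exact Or.inl ⟨⟨h1, h4⟩, h3⟩
        · exact Or.inr ⟨⟨by omega, h2⟩, h3⟩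
      · rintro (⟨⟨h1, h2⟩, h3⟩ | ⟨⟨h1, h2⟩, h3⟩)
        · exact ⟨⟨h1, by omega⟩, h3⟩
        · exact ⟨⟨by omega, h2⟩, h3⟩
    · rw [disjoint_left]
      intro p h1 h2
      simp only [mem_filter, mem_Icc, mem_Ioc] at h1 h2
      omega
  have h3 : (((Ioc (x + s) (2 * x + s)).filter
          (fun p : ℕ => Nat.Prime p ∧ ((p : ZMod q) = a))).card : ℝ) =
        (((Icc 1 (2 * x + s)).filter (fun p : ℕ => Nat.Prime p ∧ ((p : ZMod q) = a))).card : ℝ)
        - (((Icc 1 (x + s)).filter (fun p : ℕ => Nat.Prime p ∧ ((p : ZMod q) = a))).card : ℝ) := by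
    rw [h1]; push_cast; ring
  rw [← h3]

private theorem BVw_pc (m s : ℕ) : (Nat.primeCounting (m + s) : ℝ) ≤ Nat.primeCounting m + s := by
  induction s with
  | zero => simp
  | succ s ih =>
    have h : Nat.primeCounting (m + (s + 1)) ≤ Nat.primeCounting (m + s) + 1 := by
      unfold Nat.primeCounting Nat.primeCounting'
      rw [← add_assoc, Nat.count_succ]
      split_ifs <;> omega
    have h' : (Nat.primeCounting (m + (s + 1)) : ℝ) ≤ Nat.primeCounting (m + s) + 1 := by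
      exact_mod_cast h
    push_cast
    linarith only [ih, h']

private theorem BVw_pc' (m s : ℕ) : (Nat.primeCounting m : ℝ) ≤ Nat.primeCounting (m + s) := by
  exact_mod_cast Nat.monotone_primeCounting (by omega)

private theorem BVw_DP0 (x : ℕ) : 0 ≤ DP x := by
  unfold DP
  have h := BVw_pc' x x
  rw [show x + x = 2 * x by ring] at h
  linarith only [h]

private theorem BVw_DP1 (x : ℕ) : DP x ≤ x := by
  unfold DP
  have h := BVw_pc x x
  rw [show x + x = 2 * x by ring] at h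
  linarith only [h]

private theorem BVw_fle (s x q : ℕ) (hq : 0 < q) (a : ZMod q) :
    BVw_f s x q a ≤ |Pool.Agent.H91.EHA.err (2 * x + s) q a| +
      |Pool.Agent.H91.EHA.err (x + s) q a| + s := by
  rw [BVw_split]
  unfold Pool.Agent.H91.EHA.err DP
  set N1 : ℝ := (((Icc 1 (2 * x + s)).filter
    (fun p : ℕ => Nat.Prime p ∧ ((p : ZMod q) = a))).card : ℝ)
  set N2 : ℝ := (((Icc 1 (x + s)).filter
    (fun p : ℕ => Nat.Prime p ∧ ((p : ZMod q) = a))).card : ℝ)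
  have hφ : (1 : ℝ) ≤ (Nat.totient q : ℝ) := by exact_mod_cast Nat.totient_pos.2 hq
  set φ : ℝ := (Nat.totient q : ℝ)
  have a1 := BVw_pc (2 * x) s
  have a2 := BVw_pc x s
  have a3 := BVw_pc' (2 * x) s
  have a4 := BVw_pc' x s
  set u1 : ℝ := (Nat.primeCounting (2 * x + s) : ℝ)
  set u2 : ℝ := (Nat.primeCounting (x + s) : ℝ)
  set u3 : ℝ := (Nat.primeCounting (2 * x) : ℝ)
  set u4 : ℝ := (Nat.primeCounting x : ℝ)
  have e : N1 - N2 - (u3 - u4) / φ =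
      (N1 - u1 / φ) - (N2 - u2 / φ) + ((u1 - u3) - (u2 - u4)) / φ := by
    field_simp
    ring
  rw [e]
  have h3 : |((u1 - u3) - (u2 - u4)) / φ| ≤ s := by
    rw [abs_div, abs_of_pos (by linarith only [hφ] : (0 : ℝ) < φ), div_le_iff₀ (by linarith only [hφ])]
    have : |(u1 - u3) - (u2 - u4)| ≤ s := by
      rw [abs_le]
      constructor <;> linarith only [a3, a2, a1, a4]
    have hs : (0 : ℝ) ≤ s := Nat.cast_nonneg s
    nlinarith only [hφ, this]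
  have h4 := abs_add_le ((N1 - u1 / φ) - (N2 - u2 / φ)) (((u1 - u3) - (u2 - u4)) / φ)
  have h5 := abs_sub (N1 - u1 / φ) (N2 - u2 / φ)
  linarith only [h3, h4, h5]

private theorem BVw_cnt (s x q : ℕ) (hq : 0 < q) (a : ZMod q) :
    (((Ioc (x + s) (2 * x + s)).filter (fun p : ℕ => Nat.Prime p ∧ ((p : ZMod q) = a))).card : ℝ)
      ≤ x / q + 1 := by
  have : NeZero q := ⟨hq.ne'⟩
  have h1 : ((Ioc (x + s) (2 * x + s)).filter
      (fun p : ℕ => Nat.Prime p ∧ ((p : ZMod q) = a))).card ≤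
      ((Ioc (x + s) (2 * x + s)).filter (fun p : ℕ => p ≡ a.val [MOD q])).card := by
    apply card_le_card
    intro p hp
    rw [mem_filter] at hp ⊢
    refine ⟨hp.1, ?_⟩
    rw [← ZMod.natCast_eq_natCast_iff, ZMod.natCast_zmod_val]
    exact hp.2.2
  have h2 := Nat.Ioc_filter_modEq_card (x + s) (2 * x + s) hq a.val
  have h3 : (((Ioc (x + s) (2 * x + s)).filter (fun p : ℕ => p ≡ a.val [MOD q])).card : ℚ) ≤
      x / q + 1 := by
    have h4 : (((Ioc (x + s) (2 * x + s)).filter (fun p : ℕ => p ≡ a.val [MOD q])).card : ℚ) =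
      ((((Ioc (x + s) (2 * x + s)).filter (fun p : ℕ => p ≡ a.val [MOD q])).card : ℤ) : ℚ) := by
      push_cast
      rfl
    rw [h4, h2]
    push_cast
    apply max_le
    · have b1 := Int.floor_le (((2 * (x : ℚ) + s) - a.val) / (q : ℚ))
      have b2 := Int.lt_floor_add_one ((((x : ℚ) + s) - a.val) / (q : ℚ))
      have b3 : ((2 * (x : ℚ) + s) - a.val) / (q : ℚ) - (((x : ℚ) + s) - a.val) / (q : ℚ) =
          x / q := by
        have : (q : ℚ) ≠ 0 := by exact_mod_cast hq.ne'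
        field_simp
        ring
      linarith only [b1, b2, b3]
    · positivity
  have h5 : (((Ioc (x + s) (2 * x + s)).filter (fun p : ℕ => p ≡ a.val [MOD q])).card : ℝ) ≤
      x / q + 1 := by
    have h6 := (Rat.cast_le (K := ℝ)).2 h3
    push_cast at h6
    exact h6
  exact le_trans (by exact_mod_cast h1) h5

private theorem BVw_triv (s x q : ℕ) (hq : 0 < q) (hqx : q ≤ x) (a : ZMod q) :
    BVw_f s x q a ≤ 3 * x / (Nat.totient q : ℝ) := by
  have h0 : BVw_f s x q a =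
    |(((Ioc (x + s) (2 * x + s)).filter (fun p : ℕ => Nat.Prime p ∧ ((p : ZMod q) = a))).card : ℝ) -
      DP x / (Nat.totient q : ℝ)| := by
    unfold BVw_f
    rfl
  rw [h0]
  have h1 := BVw_cnt s x q hq a
  have hφ : (1 : ℝ) ≤ (Nat.totient q : ℝ) := by exact_mod_cast Nat.totient_pos.2 hq
  have hφq : (Nat.totient q : ℝ) ≤ q := by exact_mod_cast Nat.totient_le q
  have hq1 : (1 : ℝ) ≤ q := by exact_mod_cast hq
  have hqx' : (q : ℝ) ≤ x := by exact_mod_cast hqx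
  have h2 := BVw_DP0 x
  have h3 := BVw_DP1 x
  have h4 : (x : ℝ) / q ≤ x / (Nat.totient q : ℝ) := by
    apply div_le_div_of_nonneg_left (by linarith only []) (by linarith only [hφ]) hφq
  have h5 : (1 : ℝ) ≤ x / q := by
    rw [le_div_iff₀ (by linarith only [hφ, hφq])]
    linarith only [hqx']
  have h6 : DP x / (Nat.totient q : ℝ) ≤ x / (Nat.totient q : ℝ) :=
    div_le_div_of_nonneg_right h3 (by linarith only [])
  have h7 : 0 ≤ DP x / (Nat.totient q : ℝ) := div_nonneg h2 (by linarith only [])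
  have h8 : (0 : ℝ) ≤ (((Ioc (x + s) (2 * x + s)).filter
    (fun p : ℕ => Nat.Prime p ∧ ((p : ZMod q) = a))).card : ℝ) := Nat.cast_nonneg _
  have h9 : 3 * (x : ℝ) / (Nat.totient q : ℝ) = 3 * (x / (Nat.totient q : ℝ)) := by ring
  rw [abs_le, h9]
  constructor <;> linarith only [h4, h5, h6, h1, h7]

private theorem BVw_e0 (s x q : ℕ) : 0 ≤ BVw_e s x q := by
  unfold BVw_e
  exact Real.iSup_nonneg fun a => abs_nonneg _

private theorem BVw_tot (W : ℕ) (hW : 0 < W) (Z : Finset ℕ) (hZ : ∀ p ∈ Z, p.Prime ∧ ¬ p ∣ W) :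
    1 / (Nat.totient (W * ∏ p ∈ Z, p) : ℝ) ≤ ∏ p ∈ Z, fn p := by
  classical
  induction Z using Finset.induction_on with
  | empty =>
    simp only [prod_empty, mul_one]
    have hφ : (1 : ℝ) ≤ (Nat.totient W : ℝ) := by exact_mod_cast Nat.totient_pos.2 hW
    rw [div_le_one (by linarith only [hφ])]
    exact hφ
  | insert p Z hp ih =>
    have hpp := (hZ p (mem_insert_self _ _)).1
    have h1 : Nat.Coprime p (W * ∏ p ∈ Z, p) := by
      rw [Nat.coprime_mul_iff_right]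
      refine ⟨(Nat.Prime.coprime_iff_not_dvd hpp).2 (hZ p (mem_insert_self _ _)).2, ?_⟩
      apply Nat.Coprime.prod_right
      intro r hr
      rw [Nat.coprime_primes hpp (hZ r (mem_insert_of_mem hr)).1]
      rintro rfl
      exact hp hr
    rw [prod_insert hp, prod_insert hp, show W * (p * ∏ p ∈ Z, p) = p * (W * ∏ p ∈ Z, p) by ring,
      Nat.totient_mul h1, Nat.totient_prime hpp]
    have h2 := ih (fun r hr => hZ r (mem_insert_of_mem hr))
    have h3 : (1 : ℝ) < p := by exact_mod_cast hpp.one_lt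
    push_cast [Nat.cast_sub hpp.one_le]
    rw [one_div, mul_inv, ← one_div, ← one_div]
    unfold fn at h2 ⊢
    apply mul_le_mul_of_nonneg_left h2
    apply div_nonneg zero_le_one
    linarith only [h3]

/-- the family of sets -/
private noncomputable def BVw_S (W x : ℕ) (η : ℝ) : Finset (Finset ℕ) :=
  ((range (x + 1)).filter (fun p : ℕ => p.Prime ∧ ¬ p ∣ W)).powerset.filter
        (fun Z : Finset ℕ => ∏ p ∈ Z, (p : ℝ) ≤ (x : ℝ) ^ (1 / 2 - η))

private theorem BVw_mem {W x : ℕ} {η : ℝ} {Z : Finset ℕ} (hZ : Z ∈ BVw_S W x η) :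
    (∀ p ∈ Z, p.Prime ∧ ¬ p ∣ W) ∧ ((∏ p ∈ Z, p : ℕ) : ℝ) ≤ (x : ℝ) ^ (1 / 2 - η) := by
  unfold BVw_S at hZ
  rw [mem_filter, mem_powerset] at hZ
  refine ⟨fun p hp => ?_, ?_⟩
  · exact (mem_filter.1 (hZ.1 hp)).2
  · push_cast
    exact hZ.2

private theorem BVw_pos {W x : ℕ} {η : ℝ} {Z : Finset ℕ} (hW : 0 < W) (hZ : Z ∈ BVw_S W x η) :
    0 < W * ∏ p ∈ Z, p :=
  Nat.mul_pos hW (prod_pos fun p hp => ((BVw_mem hZ).1 p hp).1.pos)

private theorem BVw_inj (W x : ℕ) (η : ℝ) (hW : 0 < W) :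
    Set.InjOn (fun Z : Finset ℕ => W * ∏ p ∈ Z, p) (BVw_S W x η : Set (Finset ℕ)) := by
  intro Z hZ Z' hZ' h
  have h1 : ∏ p ∈ Z, p = ∏ p ∈ Z', p := Nat.eq_of_mul_eq_mul_left hW h
  have h2 := Nat.primeFactors_prod (fun p hp => ((BVw_mem hZ).1 p hp).1)
  have h3 := Nat.primeFactors_prod (fun p hp => ((BVw_mem hZ').1 p hp).1)
  rw [← h2, ← h3, h1]

private theorem BVw_stepB (W s x : ℕ) (η C : ℝ) (hW : 0 < W)
    (hx : ∀ Z ∈ BVw_S W x η, W * ∏ p ∈ Z, p ≤ x) :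
    ∑ Z ∈ BVw_S W x η, (C ^ 2) ^ Z.card * BVw_e s x (W * ∏ p ∈ Z, p) ≤
      3 * x * ∏ p ∈ (range (x + 1)).filter Nat.Prime, (1 + C ^ 2 * fn p) := by
  have h1 : ∀ Z ∈ BVw_S W x η, (C ^ 2) ^ Z.card * BVw_e s x (W * ∏ p ∈ Z, p) ≤
      3 * x * ∏ p ∈ Z, (C ^ 2 * fn p) := by
    intro Z hZ
    obtain ⟨a, _, h2⟩ := BVw_max s x (W * ∏ p ∈ Z, p)
    rw [← h2]
    have h3 := BVw_triv s x _ (BVw_pos hW hZ) (hx Z hZ) a
    have h4 := BVw_tot W hW Z (BVw_mem hZ).1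
    rw [prod_mul_distrib, prod_const]
    have h5 : (0 : ℝ) ≤ (C ^ 2) ^ Z.card := by positivity
    have h6 : BVw_f s x (W * ∏ p ∈ Z, p) a ≤ 3 * x * ∏ p ∈ Z, fn p := by
      refine h3.trans ?_
      rw [div_eq_mul_one_div]
      exact mul_le_mul_of_nonneg_left h4 (by positivity)
    calc (C ^ 2) ^ Z.card * BVw_f s x (W * ∏ p ∈ Z, p) a
        ≤ (C ^ 2) ^ Z.card * (3 * x * ∏ p ∈ Z, fn p) := mul_le_mul_of_nonneg_left h6 h5
      _ = 3 * x * ((C ^ 2) ^ Z.card * ∏ p ∈ Z, fn p) := by ring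
  refine (sum_le_sum h1).trans ?_
  rw [← mul_sum]
  apply mul_le_mul_of_nonneg_left _ (by positivity)
  rw [prod_one_add]
  have hf : ∀ p : ℕ, p.Prime → 0 ≤ C ^ 2 * fn p := by
    intro p hp
    unfold fn
    have h3 : (1 : ℝ) < p := by exact_mod_cast hp.one_lt
    apply mul_nonneg (sq_nonneg _)
    apply div_nonneg zero_le_one
    linarith only [h3]
  apply sum_le_sum_of_subset_of_nonneg
  · intro Z hZ
    unfold BVw_S at hZ
    rw [mem_filter, mem_powerset] at hZ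
    rw [mem_powerset]
    intro p hp
    have h2 := mem_filter.1 (hZ.1 hp)
    rw [mem_filter]
    exact ⟨h2.1, h2.2.1⟩
  · intro Z hZ _
    apply prod_nonneg
    intro p hp
    exact hf p (mem_filter.1 ((mem_powerset.1 hZ) hp)).2

private theorem BVw_stepA (W s x : ℕ) (η R1 R2 : ℝ) (hW : 0 < W)
    (hx : ∀ Z ∈ BVw_S W x η, ((W * ∏ p ∈ Z, p : ℕ) : ℝ) ≤ (x : ℝ) ^ (1 / 2 : ℝ) ∧
      ((W * ∏ p ∈ Z, p : ℕ) : ℝ) ^ 2 ≤ (x : ℝ) ^ (1 - η))
    (hx1 : 1 ≤ x) (hη : η ≤ 1)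
    (h1 : ∀ T : (q : ℕ) → Finset (ZMod q),
      (∀ q, ((T q).card : ℝ) ≤ 1) → (∀ q, ∀ a ∈ T q, IsUnit a) →
      ∑ q ∈ (Icc 1 ⌊((2 * x + s : ℕ) : ℝ) ^ (3 / 4 : ℝ)⌋₊).filter
        (fun q : ℕ => (q : ℝ) ^ 2 ≤ 1 * ((2 * x + s : ℕ) : ℝ) ^ (1 - η)),
        ∑ a ∈ T q, |Pool.Agent.H91.EHA.err (2 * x + s) q a| ≤ R1)
    (h2 : ∀ T : (q : ℕ) → Finset (ZMod q),
      (∀ q, ((T q).card : ℝ) ≤ 1) → (∀ q, ∀ a ∈ T q, IsUnit a) →
      ∑ q ∈ (Icc 1 ⌊((x + s : ℕ) : ℝ) ^ (3 / 4 : ℝ)⌋₊).filter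
        (fun q : ℕ => (q : ℝ) ^ 2 ≤ 1 * ((x + s : ℕ) : ℝ) ^ (1 - η)),
        ∑ a ∈ T q, |Pool.Agent.H91.EHA.err (x + s) q a| ≤ R2) :
    ∑ Z ∈ BVw_S W x η, BVw_e s x (W * ∏ p ∈ Z, p) ≤ R1 + R2 + s * (x : ℝ) ^ (1 / 2 : ℝ) := by
  classical
  rw [← sum_image (g := fun Z : Finset ℕ => W * ∏ p ∈ Z, p) (f := fun q => BVw_e s x q)
    (BVw_inj W x η hW)]
  set I : Finset ℕ := (BVw_S W x η).image (fun Z : Finset ℕ => W * ∏ p ∈ Z, p) with hI
  have hIm : ∀ q ∈ I, 0 < q ∧ (q : ℝ) ≤ (x : ℝ) ^ (1 / 2 : ℝ) ∧ (q : ℝ) ^ 2 ≤ (x : ℝ) ^ (1 - η) := by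
    intro q hq
    rw [hI, mem_image] at hq
    obtain ⟨Z, hZ, rfl⟩ := hq
    exact ⟨BVw_pos hW hZ, (hx Z hZ).1, (hx Z hZ).2⟩
  set T : (q : ℕ) → Finset (ZMod q) := fun q => {Classical.choose (BVw_max s x q)} with hT
  have hTc : ∀ q, ((T q).card : ℝ) ≤ 1 := by
    intro q
    rw [hT]
    simp
  have hTu : ∀ q, ∀ a ∈ T q, IsUnit a := by
    intro q a ha
    rw [hT] at ha
    dsimp only at ha
    rw [mem_singleton] at ha
    rw [ha]
    exact (Classical.choose_spec (BVw_max s x q)).1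
  have hxr : (1 : ℝ) ≤ x := by exact_mod_cast hx1
  have hsub : ∀ y : ℕ, x ≤ y → I ⊆ (Icc 1 ⌊(y : ℝ) ^ (3 / 4 : ℝ)⌋₊).filter
        (fun q : ℕ => (q : ℝ) ^ 2 ≤ 1 * (y : ℝ) ^ (1 - η)) := by
    intro y hy q hq
    obtain ⟨a1, a2, a3⟩ := hIm q hq
    have hyr : (x : ℝ) ≤ y := by exact_mod_cast hy
    rw [mem_filter, mem_Icc]
    refine ⟨⟨a1, ?_⟩, ?_⟩
    · apply Nat.le_floor
      calc (q : ℝ) ≤ (x : ℝ) ^ (1 / 2 : ℝ) := a2
        _ ≤ (x : ℝ) ^ (3 / 4 : ℝ) := Real.rpow_le_rpow_of_exponent_le hxr (by norm_num)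
        _ ≤ (y : ℝ) ^ (3 / 4 : ℝ) := Real.rpow_le_rpow (by linarith only []) hyr (by norm_num)
    · rw [one_mul]
      exact a3.trans (Real.rpow_le_rpow (by linarith only []) hyr (by linarith only [hη]))
  have hT1 : ∀ y q : ℕ, ∑ a ∈ T q, |Pool.Agent.H91.EHA.err y q a| =
      |Pool.Agent.H91.EHA.err y q (Classical.choose (BVw_max s x q))| := by
    intro y q
    rw [hT]
    simp
  have hq1 : ∀ q ∈ I, BVw_e s x q ≤ ∑ a ∈ T q, |Pool.Agent.H91.EHA.err (2 * x + s) q a| +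
      ∑ a ∈ T q, |Pool.Agent.H91.EHA.err (x + s) q a| + s := by
    intro q hq
    rw [hT1, hT1]
    refine le_trans (le_of_eq (Classical.choose_spec (BVw_max s x q)).2.symm) ?_
    exact BVw_fle s x q (hIm q hq).1 _
  refine (sum_le_sum hq1).trans ?_
  rw [sum_add_distrib, sum_add_distrib, sum_const, nsmul_eq_mul]
  have b1 : ∑ q ∈ I, ∑ a ∈ T q, |Pool.Agent.H91.EHA.err (2 * x + s) q a| ≤ R1 :=
    (sum_le_sum_of_subset_of_nonneg (hsub (2 * x + s) (by omega))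
      (fun q _ _ => sum_nonneg fun a _ => abs_nonneg _)).trans (h1 T hTc hTu)
  have b2 : ∑ q ∈ I, ∑ a ∈ T q, |Pool.Agent.H91.EHA.err (x + s) q a| ≤ R2 :=
    (sum_le_sum_of_subset_of_nonneg (hsub (x + s) (by omega))
      (fun q _ _ => sum_nonneg fun a _ => abs_nonneg _)).trans (h2 T hTc hTu)
  have b3 : (I.card : ℝ) ≤ (x : ℝ) ^ (1 / 2 : ℝ) := by
    have c1 : I ⊆ Icc 1 ⌊(x : ℝ) ^ (1 / 2 : ℝ)⌋₊ := by
      intro q hq
      rw [mem_Icc]
      exact ⟨(hIm q hq).1, Nat.le_floor (hIm q hq).2.1⟩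
    have c2 := card_le_card c1
    rw [Nat.card_Icc, Nat.add_sub_cancel] at c2
    calc (I.card : ℝ) ≤ (⌊(x : ℝ) ^ (1 / 2 : ℝ)⌋₊ : ℝ) := by exact_mod_cast c2
      _ ≤ _ := Nat.floor_le (by positivity)
  have hs : (0 : ℝ) ≤ s := Nat.cast_nonneg s
  nlinarith only [b1, b2, b3]

private theorem BVw_small (c : ℕ) (K : ℝ) (a b : ℝ) (hab : a < b) :
    ∀ᶠ x : ℕ in atTop, K * (x : ℝ) ^ a ≤ (x : ℝ) ^ b / Real.log x ^ c := by
  have h1 : (fun x : ℝ => Real.log x ^ (c : ℝ)) =o[atTop] fun x : ℝ => x ^ ((b - a) / 2) :=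
    isLittleO_log_rpow_rpow_atTop (c : ℝ) (by linarith only [hab])
  have h2 : Tendsto (fun x : ℝ => x ^ ((b - a) / 2)) atTop atTop :=
    tendsto_rpow_atTop (by linarith only [hab])
  have h3 := h1.bound (show (0 : ℝ) < 1 by norm_num)
  have h4 := (h3.and (h2.eventually (eventually_ge_atTop |K|))).and (eventually_ge_atTop (3 : ℝ))
  filter_upwards [tendsto_natCast_atTop_atTop.eventually h4] with x hx
  obtain ⟨⟨h5, h6⟩, h7⟩ := hx
  have hx0 : (0 : ℝ) < x := by linarith only [h7]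
  have hl : 0 < Real.log x := Real.log_pos (by linarith only [h7])
  rw [Real.rpow_natCast, Real.norm_of_nonneg (by positivity), Real.norm_of_nonneg (by positivity),
    one_mul] at h5
  rw [le_div_iff₀ (by positivity)]
  have h8 : (x : ℝ) ^ b = (x : ℝ) ^ ((b - a) / 2) * (x : ℝ) ^ ((b - a) / 2) * (x : ℝ) ^ a := by
    rw [← Real.rpow_add hx0, ← Real.rpow_add hx0]
    congr 1
    ring
  rw [h8]
  have h9 : 0 < (x : ℝ) ^ a := by positivity
  have h10 : 0 < (x : ℝ) ^ ((b - a) / 2) := by positivity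
  have h11 : K * Real.log x ^ c ≤ (x : ℝ) ^ ((b - a) / 2) * (x : ℝ) ^ ((b - a) / 2) := by
    calc K * Real.log x ^ c ≤ |K| * Real.log x ^ c :=
          mul_le_mul_of_nonneg_right (le_abs_self K) (by positivity)
      _ ≤ _ := mul_le_mul h6 h5 (by positivity) (by positivity)
  nlinarith only [h9, h11]

private theorem BVw_main (W s : ℕ) (hW : 0 < W) (C η : ℝ) (hC : 1 ≤ C) (hη : 0 < η)
    (hη4 : η ≤ 1 / 4) (A : ℕ) : ∀ᶠ x : ℕ in atTop,
    ∑ Z ∈ BVw_S W x η, C ^ Z.card * BVw_e s x (W * ∏ p ∈ Z, p) ≤ x / Real.log x ^ A := by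
  obtain ⟨B, hB⟩ := euler_pow (C ^ 2) (by positivity)
  set c : ℕ := B + 2 * A + 1 with hc
  obtain ⟨x0, hx0⟩ := Pool.Agent.H91.EHA.classes_sum (3 / 4) η (by norm_num) hη c
  have e1 := BVw_small c s (1 / 2) 1 (by norm_num)
  have e2 := BVw_small 0 W (1 / 2 - η) (1 / 2) (by linarith only [hη])
  have e3 := BVw_small 0 ((W : ℝ) ^ 2) (1 - 2 * η) (1 - η) (by linarith only [hη])
  have e4 := BVw_small 0 1 (1 / 2) 1 (by norm_num)
  have e5 : ∀ᶠ x : ℕ in atTop, (21 : ℝ) ≤ Real.log x :=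
    (Real.tendsto_log_atTop.comp tendsto_natCast_atTop_atTop).eventually (eventually_ge_atTop _)
  filter_upwards [hB, e1, e2, e3, e4, e5, eventually_ge_atTop x0, eventually_ge_atTop s,
    eventually_ge_atTop 3] with x h1 h2 h3 h4 h5 h6 h7 h8 h9
  have hxr : (3 : ℝ) ≤ x := by exact_mod_cast h9
  have hL : 0 < Real.log x := by linarith only [h6]
  rw [pow_zero, div_one] at h3 h4 h5
  rw [Real.rpow_one] at h2 h5
  have hZ : ∀ Z ∈ BVw_S W x η, ((W * ∏ p ∈ Z, p : ℕ) : ℝ) ≤ (x : ℝ) ^ (1 / 2 : ℝ) ∧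
      ((W * ∏ p ∈ Z, p : ℕ) : ℝ) ^ 2 ≤ (x : ℝ) ^ (1 - η) := by
    intro Z hZ
    have a1 := (BVw_mem hZ).2
    have a0 : (0 : ℝ) ≤ ((∏ p ∈ Z, p : ℕ) : ℝ) := Nat.cast_nonneg _
    have hW0 : (0 : ℝ) ≤ W := Nat.cast_nonneg _
    rw [Nat.cast_mul]
    constructor
    · exact (mul_le_mul_of_nonneg_left a1 hW0).trans h3
    · refine le_trans ?_ h4
      rw [mul_pow]
      apply mul_le_mul_of_nonneg_left _ (by positivity)
      calc ((∏ p ∈ Z, p : ℕ) : ℝ) ^ 2 ≤ ((x : ℝ) ^ (1 / 2 - η)) ^ 2 :=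
            pow_le_pow_left₀ a0 a1 2
        _ = (x : ℝ) ^ (1 - 2 * η) := by
            rw [← Real.rpow_natCast, ← Real.rpow_mul (by linarith only [])]
            congr 1
            push_cast
            ring
  have hZx : ∀ Z ∈ BVw_S W x η, W * ∏ p ∈ Z, p ≤ x := by
    intro Z hZ'
    have a1 := (hZ Z hZ').1
    have a2 : ((W * ∏ p ∈ Z, p : ℕ) : ℝ) ≤ x := a1.trans (by linarith only [h5])
    exact_mod_cast a2
  have hBs := BVw_stepB W s x η C hW hZx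
  have hAs := BVw_stepA W s x η (1 * ((2 * x + s : ℕ) : ℝ) / Real.log ((2 * x + s : ℕ) : ℝ) ^ c)
    (1 * ((x + s : ℕ) : ℝ) / Real.log ((x + s : ℕ) : ℝ) ^ c) hW hZ (by omega) (by linarith only [hη4])
    (fun T hT1 hT2 => hx0 (2 * x + s) (by omega) 1 T le_rfl hT1 hT2)
    (fun T hT1 hT2 => hx0 (x + s) (by omega) 1 T le_rfl hT1 hT2)
  have hy : ∀ y : ℕ, x ≤ y → (y : ℝ) ≤ 3 * x →
      1 * (y : ℝ) / Real.log (y : ℝ) ^ c ≤ 3 * x / Real.log x ^ c := by
    intro y hy1 hy2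
    have hyr : (x : ℝ) ≤ y := by exact_mod_cast hy1
    rw [one_mul]
    apply div_le_div₀ (by positivity) hy2 (by positivity)
    apply pow_le_pow_left₀ hL.le
    exact Real.log_le_log (by linarith only [hxr]) hyr
  have h8' : (s : ℝ) ≤ x := by exact_mod_cast h8
  have hy1 := hy (2 * x + s) (by omega) (by push_cast; linarith only [h8'])
  have hy2 := hy (x + s) (by omega) (by push_cast; linarith only [h8'])
  have hA2 : ∑ Z ∈ BVw_S W x η, BVw_e s x (W * ∏ p ∈ Z, p) ≤ 7 * x / Real.log x ^ c := by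
    refine hAs.trans ?_
    have : 7 * (x : ℝ) / Real.log x ^ c =
      3 * x / Real.log x ^ c + 3 * x / Real.log x ^ c + x / Real.log x ^ c := by ring
    rw [this]
    linarith only [h2, hy1, hy2]
  have hB2 : ∑ Z ∈ BVw_S W x η, (C ^ 2) ^ Z.card * BVw_e s x (W * ∏ p ∈ Z, p) ≤
      3 * x * Real.log x ^ B := hBs.trans (mul_le_mul_of_nonneg_left h1 (by positivity))
  have hCS := sum_mul_sq_le_sq_mul_sq (BVw_S W x η)
    (fun Z => C ^ Z.card * Real.sqrt (BVw_e s x (W * ∏ p ∈ Z, p)))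
    (fun Z => Real.sqrt (BVw_e s x (W * ∏ p ∈ Z, p)))
  have hC1 : ∑ Z ∈ BVw_S W x η, (C ^ Z.card * Real.sqrt (BVw_e s x (W * ∏ p ∈ Z, p))) *
      Real.sqrt (BVw_e s x (W * ∏ p ∈ Z, p)) =
      ∑ Z ∈ BVw_S W x η, C ^ Z.card * BVw_e s x (W * ∏ p ∈ Z, p) := by
    refine sum_congr rfl fun Z _ => ?_
    rw [mul_assoc, Real.mul_self_sqrt (BVw_e0 s x _)]
  have hC2 : ∑ Z ∈ BVw_S W x η, (C ^ Z.card * Real.sqrt (BVw_e s x (W * ∏ p ∈ Z, p))) ^ 2 =
      ∑ Z ∈ BVw_S W x η, (C ^ 2) ^ Z.card * BVw_e s x (W * ∏ p ∈ Z, p) := by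
    refine sum_congr rfl fun Z _ => ?_
    rw [mul_pow, Real.sq_sqrt (BVw_e0 s x _), ← pow_mul, ← pow_mul, mul_comm Z.card 2]
  have hC3 : ∑ Z ∈ BVw_S W x η, (Real.sqrt (BVw_e s x (W * ∏ p ∈ Z, p))) ^ 2 =
      ∑ Z ∈ BVw_S W x η, BVw_e s x (W * ∏ p ∈ Z, p) := by
    refine sum_congr rfl fun Z _ => ?_
    rw [Real.sq_sqrt (BVw_e0 s x _)]
  rw [hC1, hC2, hC3] at hCS
  have hS0 : 0 ≤ ∑ Z ∈ BVw_S W x η, BVw_e s x (W * ∏ p ∈ Z, p) :=
    sum_nonneg fun Z _ => BVw_e0 s x _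
  have hfin : (∑ Z ∈ BVw_S W x η, C ^ Z.card * BVw_e s x (W * ∏ p ∈ Z, p)) ^ 2 ≤
      (x / Real.log x ^ A) ^ 2 := by
    refine hCS.trans ?_
    calc (∑ Z ∈ BVw_S W x η, (C ^ 2) ^ Z.card * BVw_e s x (W * ∏ p ∈ Z, p)) *
          (∑ Z ∈ BVw_S W x η, BVw_e s x (W * ∏ p ∈ Z, p))
        ≤ (3 * x * Real.log x ^ B) * (7 * x / Real.log x ^ c) :=
          mul_le_mul hB2 hA2 hS0 (by positivity)
      _ = (21 / Real.log x) * (x / Real.log x ^ A) ^ 2 := by
          rw [hc, pow_add, pow_add, pow_one, pow_mul, div_pow]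
          field_simp
          ring
      _ ≤ 1 * (x / Real.log x ^ A) ^ 2 := by
          apply mul_le_mul_of_nonneg_right _ (by positivity)
          rw [div_le_one hL]
          linarith only [h6]
      _ = _ := one_mul _
  exact le_of_sq_le_sq hfin (by positivity)

theorem bvw (W s : ℕ) (hW : 0 < W) (C η : ℝ) (hC : 1 ≤ C) (hη : 0 < η) (A : ℕ) : ∀ᶠ x : ℕ in atTop,
    ∑ Z ∈ ((range (x + 1)).filter (fun p : ℕ => p.Prime ∧ ¬ p ∣ W)).powerset.filter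
        (fun Z : Finset ℕ => ∏ p ∈ Z, (p : ℝ) ≤ (x : ℝ) ^ (1 / 2 - η)),
      C ^ Z.card * eB W s x Z ≤ x / Real.log x ^ A := by
  filter_upwards [BVw_main W s hW C (min η (1 / 4)) hC (lt_min hη (by norm_num)) (min_le_right _ _) A,
    eventually_ge_atTop 1] with x h1 hx
  refine le_trans ?_ h1
  have hxr : (1 : ℝ) ≤ x := by exact_mod_cast hx
  unfold BVw_S
  apply sum_le_sum_of_subset_of_nonneg
  · intro Z hZ
    rw [mem_filter] at hZ ⊢
    refine ⟨hZ.1, hZ.2.trans ?_⟩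
    apply Real.rpow_le_rpow_of_exponent_le hxr
    have := min_le_left η (1 / 4)
    linarith only [this]
  · intro Z _ _
    exact mul_nonneg (by positivity) (by rw [BVw_eB]; exact BVw_e0 s x _)

end Pool.Agent.H36.IS

end

section

/-!
# ISE: exact marks for project IS (MP_3532bd_nt): definitions

Marks are integers `m = a * q` with `q` prime and `a` in a finite set of cofactors; all prime factors of `a` are `> x^δ`
and `P(a) a ≤ x` (`P(a)` the largest prime factor), so that `q` is the largest prime factor of `m` and `a` is determined by `m`.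
-/

set_option autoImplicit false

namespace Pool.Agent.H76.ISE

open Finset Filter Pool.Agent.H36.IS

/-- `m = a * q` with `q` prime -/
def Mk1 (a m : ℕ) : Prop := a ∣ m ∧ (m / a).Prime

/-- the mark given by a finite set of cofactors -/
def MkS (S : Finset ℕ) (m : ℕ) : Prop := ∃ a ∈ S, Mk1 a m

/-- the primes in `(x^α, x^β]` -/
noncomputable def Cell (x : ℕ) (α β : ℝ) : Finset ℕ :=
  (range (x + 1)).filter (fun p : ℕ => p.Prime ∧ (x : ℝ) ^ α < p ∧ (p : ℝ) ≤ (x : ℝ) ^ β)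

/-- the cofactors `1` and `p` with `x^δ < p ≤ x^(1/2)` -/
noncomputable def S2 (x : ℕ) (δ : ℝ) : Finset ℕ := insert 1 (Cell x δ (1 / 2))

/-- the error of the count of the marks with cofactor `a` (`s` the shift) -/
noncomputable def eQ (W s x a : ℕ) (Z : Finset ℕ) : ℝ :=
  open Classical in
  eB W 0 (x / a) Z + (2 * s + 4) +
    (if ∃ p ∈ Z, p ∣ a then DP (x / a) / (Nat.totient W : ℝ) * ∏ p ∈ Z, fn p else 0)

end Pool.Agent.H76.ISE

end
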