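import Pool.Agent.H15.TB1.M68
import Pool.Agent.H15.TB1.M81
import Pool.Agent.H15.TB1.M95

/-! The parts of this file: H36.IS.TrP, H36.IS.SumP, H36.IS.MarkP, H36.IS.Fin. -/

section

/-!
# IS TrP: transfer for the primes

Apply `trAbs` with J = univ \ {i}, N = {n ∈ (x,2x], n ≡ b mod W, n + h i prime}, P0 = PS W x, P1 = PX x,
g p = fn p = 1/(p-1), X0 = DP x/φ(W), e Z = eB W (h i) x Z (set e Z = max of that and 0 trivially it is ≥ 0), t from `brun_tail`
(η/4), z = max 1 (z0 x), D = x^(1/2-η).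
 hcount: p' = n + h i runs over the primes of (x + h i, 2x + h i] with p' ≡ b + h i mod W, p' ≡ h i - h (φ p) mod p (p ∈ Z): one
 class mod q = W∏Z (CRT), a unit class since b + h i is coprime to W and h i ≢ h (φ p) mod p (φ p ≠ i).
 X0 ∏_Z fn = DP/(φ(W) ∏(p-1)) = DP/φ(q).  (k-1) fn p ≤ 1 since k < p.
 AA.filter prime = N.filter (rough in the components of J): n + h i prime > x ≥ z0 has no factor p ≤ z0.
 c is supported on Q ⊆ J ×ˢ PX.
Main term: DP/φ(W) ∏_{PS} (1 - (k-1)/(p-1)) = DP/φ(W) ∏ (1-k/p)/(1-1/p) = (1/W) ∏_{PS}(1 - k/p) · DP/A0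
 (A0 = ∏_{p ∣ W}(1-1/p) ∏_{PS}(1-1/p) for large x, φ(W)/W = ∏_{p∣W}(1-1/p)) = Mn · DP/(x A0).
 Ev c (fn ∘ snd) versus Ev c gi: `fn_gi` and `l1_le`.  Errors: as in TrI, with `bvw` (C = max 1 (k(M+1)), level
 x^(1/2-η) z0^(t+1) ≤ x^(1/2-3η/4)).
-/

set_option autoImplicit false

namespace Pool.Agent.H36.IS

open Finset Filter

private theorem TrP_z0 (C : ℝ) : ∀ᶠ x : ℕ in atTop, C < z0 x := by
  have h0 : ∀ᶠ y : ℝ in atTop, Real.log y ^ 2 ≤ (1 / (|C| + 1)) * y := by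
    have h := (Real.isLittleO_pow_log_id_atTop (n := 2)).bound
      (show (0 : ℝ) < 1 / (|C| + 1) by positivity)
    filter_upwards [h, eventually_ge_atTop (0 : ℝ)] with y hy hy0
    rw [Real.norm_of_nonneg (by positivity), id, Real.norm_of_nonneg hy0] at hy
    exact hy
  have h1 : ∀ᶠ y : ℝ in atTop, 1 < Real.log y := Real.tendsto_log_atTop.eventually_gt_atTop 1
  have hL : Tendsto (fun x : ℕ => Real.log (x : ℝ)) atTop atTop :=
    Real.tendsto_log_atTop.comp tendsto_natCast_atTop_atTop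
  filter_upwards [hL.eventually h0, hL.eventually h1] with x hx1 hx2
  have h3 : (0 : ℝ) < Real.log (Real.log x) ^ 2 := by positivity
  have h4 : |C| + 1 ≤ Real.log x / Real.log (Real.log x) ^ 2 := by
    rw [le_div_iff₀ h3]
    have h5 := mul_le_mul_of_nonneg_left hx1 (show (0 : ℝ) ≤ |C| + 1 by positivity)
    have h6 : (|C| + 1) * (1 / (|C| + 1) * Real.log x) = Real.log x := by
      field_simp
    rw [h6] at h5
    exact h5
  have h7 : |C| + 1 + 1 ≤ z0 x := by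
    unfold z0
    calc |C| + 1 + 1 ≤ Real.exp (|C| + 1) := Real.add_one_le_exp _
      _ ≤ _ := Real.exp_le_exp.2 h4
  have := le_abs_self C
  linarith

private theorem TrP_crt {W : ℕ} (b : ℕ) (r : ℕ → ℕ) (Z : Finset ℕ) :
    (∀ p ∈ Z, p.Prime ∧ ¬ p ∣ W) →
    ∃ a : ℕ, ∀ n : ℕ, (n ≡ b [MOD W] ∧ ∀ p ∈ Z, n ≡ r p [MOD p]) ↔ n ≡ a [MOD W * ∏ p ∈ Z, p] := by
  classical
  induction Z using Finset.induction_on with
  | empty =>
    intro _
    refine ⟨b, fun n => ?_⟩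
    simp
  | insert p Z hp ih =>
    intro hZ
    obtain ⟨a, ha⟩ := ih (fun q hq => hZ q (mem_insert_of_mem hq))
    obtain ⟨hpp, hpW⟩ := hZ p (mem_insert_self p Z)
    have hcop : Nat.Coprime (W * ∏ q ∈ Z, q) p := by
      rw [Nat.coprime_comm, Nat.Prime.coprime_iff_not_dvd hpp]
      intro hd
      rcases (Nat.Prime.dvd_mul hpp).1 hd with h1 | h1
      · exact hpW h1
      · obtain ⟨q, hq, hpq⟩ := (Prime.dvd_finsetProd_iff hpp.prime _).1 h1
        have := (Nat.prime_dvd_prime_iff_eq hpp (hZ q (mem_insert_of_mem hq)).1).1 hpq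
        rw [this] at hp
        exact hp hq
    obtain ⟨c, hc1, hc2⟩ := Nat.chineseRemainder hcop a (r p)
    refine ⟨c, fun n => ?_⟩
    rw [prod_insert hp, mul_left_comm, mul_comm p]
    rw [← Nat.modEq_and_modEq_iff_modEq_mul hcop]
    constructor
    · rintro ⟨h1, h2⟩
      constructor
      · exact ((ha n).1 ⟨h1, fun q hq => h2 q (mem_insert_of_mem hq)⟩).trans hc1.symm
      · exact (h2 p (mem_insert_self p Z)).trans hc2.symm
    · rintro ⟨h1, h2⟩
      obtain ⟨h3, h4⟩ := (ha n).2 (h1.trans hc1)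
      refine ⟨h3, ?_⟩
      intro q hq
      rcases mem_insert.1 hq with h5 | h5
      · rw [h5]
        exact h2.trans hc2
      · exact h4 q h5

open Classical in
private theorem TrP_count {ι : Type} [Fintype ι] [DecidableEq ι] {h : ι → ℕ} {W b : ℕ}
    (hG : Good h W b) (i : ι) (x : ℕ) (Z : Finset ℕ) (hZ : ∀ p ∈ Z, p.Prime ∧ ¬ p ∣ W)
    (φ : ℕ → ι) (hφ : ∀ p ∈ Z, φ p ∈ univ.erase i) :
    |((((Ioc x (2 * x)).filter (fun n => n ≡ b [MOD W] ∧ (n + h i).Prime)).filter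
        (fun n => ∀ p ∈ Z, p ∣ n + h (φ p))).card : ℝ) - DP x / (Nat.totient W : ℝ) *
          ∏ p ∈ Z, fn p| ≤ eB W (h i) x Z := by
  obtain ⟨hW, hc1, hc2⟩ := hG
  obtain ⟨a, ha⟩ := TrP_crt (W := W) b (fun p => (p - 1) * h (φ p)) Z hZ
  set q : ℕ := W * ∏ p ∈ Z, p with hq
  have hprod0 : 0 < ∏ p ∈ Z, p := prod_pos fun p hp => (hZ p hp).1.pos
  have hq0 : 0 < q := Nat.mul_pos hW hprod0
  have : NeZero q := ⟨hq0.ne'⟩
  have haa := (ha a).2 (Nat.ModEq.refl a)
  have hres : ∀ p ∈ Z, ∀ n : ℕ, p ∣ n + h (φ p) ↔ n ≡ (p - 1) * h (φ p) [MOD p] := by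
    intro p hp n
    have hp0 := (hZ p hp).1.pos
    have e1 : (p - 1) * h (φ p) + h (φ p) = p * h (φ p) := by
      obtain ⟨m, rfl⟩ : ∃ m, p = m + 1 := ⟨p - 1, by omega⟩
      simp only [Nat.add_sub_cancel]
      ring
    constructor
    · intro hd
      have h1 : n + h (φ p) ≡ (p - 1) * h (φ p) + h (φ p) [MOD p] := by
        rw [e1]
        exact (Nat.modEq_zero_iff_dvd.2 hd).trans
          (Nat.modEq_zero_iff_dvd.2 (dvd_mul_right p _)).symm
      exact Nat.ModEq.add_right_cancel' _ h1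
    · intro hn
      have h1 := hn.add_right (h (φ p))
      rw [e1] at h1
      exact Nat.modEq_zero_iff_dvd.1 (h1.trans (Nat.modEq_zero_iff_dvd.2 (dvd_mul_right p _)))
  have hcop : Nat.Coprime (a + h i) q := by
    rw [hq]
    apply Nat.Coprime.mul_right
    · have h1 : a + h i ≡ b + h i [MOD W] := haa.1.add_right _
      rw [Nat.coprime_iff_gcd_eq_one] at *
      have := h1.gcd_eq
      rw [this]
      exact hc1 i
    · apply Nat.Coprime.prod_right
      intro p hp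
      rw [Nat.coprime_comm, Nat.Prime.coprime_iff_not_dvd (hZ p hp).1]
      intro hd
      have h1 : p ∣ a + h (φ p) := (hres p hp a).2 (haa.2 p hp)
      have h2 : a + h i ≡ a + h (φ p) [MOD p] :=
        (Nat.modEq_zero_iff_dvd.2 hd).trans (Nat.modEq_zero_iff_dvd.2 h1).symm
      have h3 : h i ≡ h (φ p) [MOD p] := Nat.ModEq.add_left_cancel' _ h2
      have h4 : i ≠ φ p := fun he => (mem_erase.1 (hφ p hp)).1 he.symm
      exact (hc2 p (hZ p hp).1 (hZ p hp).2).2 i (φ p) h4 h3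
  have hcard : (((Ioc x (2 * x)).filter (fun n => n ≡ b [MOD W] ∧ (n + h i).Prime)).filter
        (fun n => ∀ p ∈ Z, p ∣ n + h (φ p))).card =
      ((Ioc (x + h i) (2 * x + h i)).filter (fun p : ℕ => p.Prime ∧
        (p : ZMod q) = ((ZMod.unitOfCoprime (a + h i) hcop : (ZMod q)ˣ) : ZMod q))).card := by
    apply card_bij (fun n _ => n + h i)
    · intro n hn
      rw [mem_filter, mem_filter, mem_Ioc] at hn
      obtain ⟨⟨⟨h1, h2⟩, h3, h4⟩, h5⟩ := hn
      rw [mem_filter, mem_Ioc]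
      refine ⟨⟨by omega, by omega⟩, h4, ?_⟩
      rw [ZMod.coe_unitOfCoprime, ZMod.natCast_eq_natCast_iff]
      apply Nat.ModEq.add_right
      exact (ha n).1 ⟨h3, fun p hp => (hres p hp n).1 (h5 p hp)⟩
    · intro n1 _ n2 _ he
      exact Nat.add_right_cancel he
    · intro p' hp'
      rw [mem_filter, mem_Ioc] at hp'
      obtain ⟨⟨h1, h2⟩, h3, h4⟩ := hp'
      rw [ZMod.coe_unitOfCoprime, ZMod.natCast_eq_natCast_iff] at h4
      have e : p' - h i + h i = p' := by omega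
      refine ⟨p' - h i, ?_, e⟩
      rw [mem_filter, mem_filter, mem_Ioc]
      have h5 : p' - h i ≡ a [MOD q] := by
        rw [← e] at h4
        exact Nat.ModEq.add_right_cancel' _ h4
      obtain ⟨h6, h7⟩ := (ha (p' - h i)).2 h5
      refine ⟨⟨⟨by omega, by omega⟩, h6, by rw [e]; exact h3⟩, ?_⟩
      intro p hp
      exact (hres p hp _).2 (h7 p hp)
  have htot : (Nat.totient q : ℝ) = (Nat.totient W : ℝ) * ∏ p ∈ Z, ((p : ℝ) - 1) := by
    have h1 : ∀ Z : Finset ℕ, (∀ p ∈ Z, p.Prime) →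
        Nat.totient (∏ p ∈ Z, p) = ∏ p ∈ Z, (p - 1) := by
      intro Z
      induction Z using Finset.induction_on with
      | empty => intro _; simp
      | insert p Z hp ih =>
        intro hZ
        rw [prod_insert hp, prod_insert hp, Nat.totient_mul, ih (fun q hq => hZ q (mem_insert_of_mem hq)),
          Nat.totient_prime (hZ p (mem_insert_self p Z))]
        apply Nat.Coprime.prod_right
        intro q hq
        rw [Nat.coprime_primes (hZ p (mem_insert_self p Z)) (hZ q (mem_insert_of_mem hq))]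
        rintro rfl
        exact hp hq
    have h2 : Nat.Coprime W (∏ p ∈ Z, p) := by
      apply Nat.Coprime.prod_right
      intro p hp
      rw [Nat.coprime_comm, Nat.Prime.coprime_iff_not_dvd (hZ p hp).1]
      exact (hZ p hp).2
    rw [hq, Nat.totient_mul h2, h1 Z (fun p hp => (hZ p hp).1)]
    push_cast
    congr 1
    apply prod_congr rfl
    intro p hp
    rw [Nat.cast_sub (hZ p hp).1.one_le, Nat.cast_one]
  have hX : DP x / (Nat.totient W : ℝ) * ∏ p ∈ Z, fn p = DP x / (Nat.totient q : ℝ) := by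
    rw [htot]
    have : ∏ p ∈ Z, fn p = (∏ p ∈ Z, ((p : ℝ) - 1))⁻¹ := by
      rw [← prod_inv_distrib]
      apply prod_congr rfl
      intro p _
      unfold fn
      rw [one_div]
    rw [this, ← div_eq_mul_inv, div_div]
  rw [hcard, hX]
  unfold eB
  rw [← hq]
  exact le_ciSup (f := fun a : (ZMod q)ˣ =>
    |(((Ioc (x + h i) (2 * x + h i)).filter (fun p : ℕ => p.Prime ∧ (p : ZMod q) = a)).card : ℝ) -
      DP x / (Nat.totient q : ℝ)|) (Set.finite_range _).bddAbove (ZMod.unitOfCoprime (a + h i) hcop)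

private theorem TrP_main {ι : Type} [Fintype ι] {h : ι → ℕ} {W b : ℕ} (hG : Good h W b)
    {x : ℕ} (hx : 0 < x) (hWx : (W : ℝ) < z0 x) (hWx' : W ≤ x) (k' : ℕ)
    (hk' : (k' : ℝ) = (Fintype.card ι : ℝ) - 1) :
    DP x / (Nat.totient W : ℝ) * ∏ p ∈ PS W x, (1 - (k' : ℝ) * fn p) =
      Mn ι W x * (DP x / (x * A0 x)) := by
  obtain ⟨hW, hc1, hc2⟩ := hG
  have hprime : ∀ p ∈ PA x, p.Prime := by
    intro p hp
    unfold PA at hp
    exact (mem_filter.1 hp).2.1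
  have hPS : ∀ p ∈ PS W x, p.Prime ∧ ¬ p ∣ W := by
    intro p hp
    unfold PS at hp
    exact ⟨hprime p (mem_filter.1 hp).1, (mem_filter.1 hp).2⟩
  have hpf : (PA x).filter (fun p => p ∣ W) = W.primeFactors := by
    ext p
    rw [mem_filter, Nat.mem_primeFactors]
    unfold PA
    rw [mem_filter, mem_range]
    constructor
    · rintro ⟨⟨_, h2, _⟩, h4⟩
      exact ⟨h2, h4, hW.ne'⟩
    · rintro ⟨h1, h2, _⟩
      have h3 : p ≤ W := Nat.le_of_dvd hW h2
      refine ⟨⟨by omega, h1, ?_⟩, h2⟩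
      have : (p : ℝ) ≤ W := by exact_mod_cast h3
      linarith
  have hA0 : A0 x = (∏ p ∈ W.primeFactors, (1 - 1 / (p : ℝ))) * ∏ p ∈ PS W x, (1 - 1 / (p : ℝ)) := by
    unfold A0 PS
    rw [← hpf, prod_filter_mul_prod_filter_not]
  have hphi : (Nat.totient W : ℝ) = W * ∏ p ∈ W.primeFactors, (1 - 1 / (p : ℝ)) := by
    have h1 := Nat.totient_eq_mul_prod_factors W
    have h2 : ((Nat.totient W : ℚ) : ℝ) = ((W * ∏ p ∈ W.primeFactors, (1 - (p : ℚ)⁻¹) : ℚ) : ℝ) := by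
      rw [h1]
    push_cast at h2
    rw [h2]
    congr 1
    apply prod_congr rfl
    intro p _
    rw [one_div]
  have hWr : (W : ℝ) ≠ 0 := by exact_mod_cast hW.ne'
  have hxr : (x : ℝ) ≠ 0 := by exact_mod_cast hx.ne'
  have hne : ∀ p : ℕ, p.Prime → (1 : ℝ) - 1 / (p : ℝ) ≠ 0 := by
    intro p hp
    have h2 : (2 : ℝ) ≤ p := by exact_mod_cast hp.two_le
    have : (1 : ℝ) - 1 / (p : ℝ) = ((p : ℝ) - 1) / p := by
      field_simp
    rw [this]
    apply div_ne_zero <;> linarith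
  have hprod : ∏ p ∈ PS W x, (1 - (k' : ℝ) * fn p) =
      (∏ p ∈ PS W x, (1 - (Fintype.card ι : ℝ) / p)) / ∏ p ∈ PS W x, (1 - 1 / (p : ℝ)) := by
    rw [← prod_div_distrib]
    apply prod_congr rfl
    intro p hp
    have h2 : (2 : ℝ) ≤ p := by exact_mod_cast (hPS p hp).1.two_le
    have h3 : (p : ℝ) - 1 ≠ 0 := by linarith
    have h4 : (p : ℝ) ≠ 0 := by linarith
    have h5 := hne p (hPS p hp).1
    rw [eq_div_iff h5, hk']
    unfold fn
    field_simp
    ring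
  have hn1 : ∏ p ∈ W.primeFactors, (1 - 1 / (p : ℝ)) ≠ 0 :=
    prod_ne_zero_iff.2 fun p hp => hne p (Nat.prime_of_mem_primeFactors hp)
  have hn2 : ∏ p ∈ PS W x, (1 - 1 / (p : ℝ)) ≠ 0 :=
    prod_ne_zero_iff.2 fun p hp => hne p (hPS p hp).1
  unfold Mn
  rw [hA0, hphi, hprod]
  field_simp

private theorem TrP_DP (x : ℕ) : 0 ≤ DP x ∧ DP x ≤ x := by
  unfold DP
  constructor
  · have h : Nat.primeCounting x ≤ Nat.primeCounting (2 * x) :=
      Nat.monotone_primeCounting (by omega)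
    have h' : (Nat.primeCounting x : ℝ) ≤ (Nat.primeCounting (2 * x) : ℝ) := by exact_mod_cast h
    linarith
  · have h : Nat.primeCounting (2 * x) ≤ Nat.primeCounting x + x := by
      unfold Nat.primeCounting Nat.primeCounting'
      have e : 2 * x + 1 = (x + 1) + x := by ring
      rw [e, Nat.count_add]
      exact Nat.add_le_add_left (Nat.count_le _) _
    have h' : (Nat.primeCounting (2 * x) : ℝ) ≤ (Nat.primeCounting x : ℝ) + x := by exact_mod_cast h
    linarith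

open Classical in
theorem trP (ι : Type) [Fintype ι] [DecidableEq ι] (h : ι → ℕ) (W b : ℕ) (hG : Good h W b) (i : ι) (B : ℕ) (M η : ℝ)
    (hM : 0 ≤ M) (hη : 0 < η) (A : ℕ) : ∀ᶠ x : ℕ in atTop, ∀ c : Finset (ι × ℕ) → ℝ,
      Cls x B M ((x : ℝ) ^ (1 / 2 - η)) c → (∀ Q, c Q ≠ 0 → ∀ e ∈ Q, e.1 ≠ i) →
      |∑ n ∈ (AA h W b x).filter (fun n => (n + h i).Prime), Ev (EX ι x) c (yy h n) -
          Mn ι W x * (DP x / (x * A0 x)) * Ev (EX ι x) c gi| ≤ x / Real.log x ^ A := by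
  have hW : 0 < W := hG.1
  have hG3 := hG.2.2
  obtain ⟨B1, hB1⟩ := l1_le ι M hM
  set k : ℝ := (Fintype.card ι : ℝ) with hk
  set C : ℝ := max 1 (k * (M + 1)) with hC
  have hC1 : 1 ≤ C := le_max_left _ _
  have hk0 : 0 ≤ k := Nat.cast_nonneg _
  have hL : Tendsto (fun x : ℕ => Real.log (x : ℝ)) atTop atTop :=
    Real.tendsto_log_atTop.comp tendsto_natCast_atTop_atTop
  filter_upwards [hB1, brun_tail k (A + 1 + B + B1) (η / 4) hk0 (by positivity),
    incons_le ι M hM (A + 1 + B), bvw W (h i) hW C (3 * η / 4) hC1 (by positivity) (A + 1 + B),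
    fn_gi ι (A + 1 + B + B1), TrP_z0 W, eventually_ge_atTop (W + 2), hL.eventually_ge_atTop 4]
    with x h1 h2 h3 h4 h5 h6 h7 h8 c hc hci
  obtain ⟨t, ht1, ht2⟩ := h2
  have hx0 : 0 < x := by omega
  have hxr : (0 : ℝ) < x := by exact_mod_cast hx0
  have hx1 : (1 : ℝ) ≤ x := by exact_mod_cast hx0
  have hL0 : (0 : ℝ) < Real.log x := by linarith
  set L : ℝ := Real.log x with hLdef
  -- the data
  set J : Finset ι := univ.erase i with hJ
  have hJc : (J.card : ℝ) = k - 1 := by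
    rw [hJ, card_erase_of_mem (mem_univ i), card_univ, hk]
    have : 0 < Fintype.card ι := Fintype.card_pos_iff.2 ⟨i⟩
    rw [Nat.cast_sub this, Nat.cast_one]
  have hPAp : ∀ p ∈ PA x, p.Prime ∧ p ≤ x ∧ (p : ℝ) ≤ z0 x := by
    intro p hp
    unfold PA at hp
    rw [mem_filter, mem_range] at hp
    exact ⟨hp.2.1, by omega, hp.2.2⟩
  have hP0 : ∀ p ∈ PS W x, p.Prime ∧ ¬ p ∣ W ∧ p ≤ x ∧ (p : ℝ) ≤ z0 x := by
    intro p hp
    unfold PS at hp
    rw [mem_filter] at hp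
    obtain ⟨a1, a2, a3⟩ := hPAp p hp.1
    exact ⟨a1, hp.2, a2, a3⟩
  have hP1 : ∀ p ∈ PX x, p.Prime ∧ ¬ p ∣ W ∧ p ≤ x ∧ z0 x < (p : ℝ) := by
    intro p hp
    unfold PX at hp
    rw [mem_filter, mem_range] at hp
    refine ⟨hp.2.1, ?_, by omega, hp.2.2⟩
    intro hd
    have h9 : (p : ℝ) ≤ W := by exact_mod_cast Nat.le_of_dvd hW hd
    linarith [hp.2.2]
  have hP01 : ∀ p ∈ PS W x ∪ PX x, p.Prime ∧ ¬ p ∣ W ∧ p ≤ x := by
    intro p hp
    rcases mem_union.1 hp with h9 | h9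
    · exact ⟨(hP0 p h9).1, (hP0 p h9).2.1, (hP0 p h9).2.2.1⟩
    · exact ⟨(hP1 p h9).1, (hP1 p h9).2.1, (hP1 p h9).2.2.1⟩
  have hd : Disjoint (PS W x) (PX x) := by
    rw [disjoint_left]
    intro p h9 h10
    linarith [(hP0 p h9).2.2.2, (hP1 p h10).2.2.2]
  have hdist : ∀ p ∈ PS W x ∪ PX x, ∀ i1 ∈ J, ∀ j ∈ J, i1 ≠ j → ¬ h i1 ≡ h j [MOD p] := by
    intro p hp i1 _ j _ hij
    exact (hG3 p (hP01 p hp).1 (hP01 p hp).2.1).2 i1 j hij
  have hfn0 : ∀ p : ℕ, p.Prime → 0 ≤ fn p := by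
    intro p hp
    have h2 : (2 : ℝ) ≤ p := by exact_mod_cast hp.two_le
    unfold fn
    apply div_nonneg zero_le_one
    linarith
  have hg : ∀ p ∈ PS W x ∪ PX x, 0 ≤ fn p ∧ (J.card : ℝ) * fn p ≤ 1 := by
    intro p hp
    refine ⟨hfn0 p (hP01 p hp).1, ?_⟩
    have h9 := (hG3 p (hP01 p hp).1 (hP01 p hp).2.1).1
    have h10 : k < p := by rw [hk]; exact_mod_cast h9
    have h2 : (2 : ℝ) ≤ p := by exact_mod_cast (hP01 p hp).1.two_le
    unfold fn
    rw [hJc, mul_one_div, div_le_one (by linarith)]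
    linarith
  obtain ⟨hDP0, hDPx⟩ := TrP_DP x
  have hphi : (1 : ℝ) ≤ (Nat.totient W : ℝ) := by
    exact_mod_cast Nat.totient_pos.2 hW
  set X0 : ℝ := DP x / (Nat.totient W : ℝ) with hX0
  have hX0n : 0 ≤ X0 := div_nonneg hDP0 (by linarith)
  have hX0x : X0 ≤ x := le_trans (div_le_self hDP0 hphi) hDPx
  have he0 : ∀ Z, 0 ≤ eB W (h i) x Z := by
    intro Z
    unfold eB
    exact Real.iSup_nonneg fun _ => abs_nonneg _
  have hz1 : 1 ≤ z0 x := by
    unfold z0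
    apply Real.one_le_exp
    exact div_nonneg hL0.le (sq_nonneg _)
  have hcc : ∀ Q, |c Q| ≤ L ^ B * M ^ Q.card ∧
      (c Q ≠ 0 → Q ⊆ J ×ˢ PX x ∧ ∏ e ∈ Q, (e.2 : ℝ) ≤ (x : ℝ) ^ (1 / 2 - η)) := by
    intro Q
    refine ⟨(hc Q).1, fun hQ => ⟨?_, ((hc Q).2 hQ).2⟩⟩
    intro e he
    have h9 := ((hc Q).2 hQ).1 he
    unfold EX at h9
    rw [mem_product] at h9 ⊢
    exact ⟨mem_erase.2 ⟨hci Q hQ e he, mem_univ _⟩, h9.2⟩
  have hcount : ∀ Z ⊆ PS W x ∪ PX x, ∀ φ : ℕ → ι, (∀ p ∈ Z, φ p ∈ J) →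
      |((((Ioc x (2 * x)).filter (fun n => n ≡ b [MOD W] ∧ (n + h i).Prime)).filter
        (fun n => ∀ p ∈ Z, p ∣ n + h (φ p))).card : ℝ) - X0 * ∏ p ∈ Z, fn p| ≤ eB W (h i) x Z := by
    intro Z hZ φ hφ
    exact TrP_count hG i x Z (fun p hp => ⟨(hP01 p (hZ hp)).1, (hP01 p (hZ hp)).2.1⟩) φ hφ
  have hcount0 : |(((Ioc x (2 * x)).filter (fun n => n ≡ b [MOD W] ∧ (n + h i).Prime)).card : ℝ) - X0| ≤
      eB W (h i) x ∅ := by
    have h9 := hcount ∅ (empty_subset _) (fun _ => i) (fun p hp => absurd hp (notMem_empty p))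
    simpa using h9
  have key := trAbs J h ((Ioc x (2 * x)).filter (fun n => n ≡ b [MOD W] ∧ (n + h i).Prime))
    (PS W x) (PX x) (fun p hp => (hP0 p hp).1) (fun p hp => (hP1 p hp).1) hd hdist fn hg X0 hX0n
    (eB W (h i) x) he0 hcount hcount0 t (L ^ B) M ((x : ℝ) ^ (1 / 2 - η)) (z0 x) (by positivity) hM
    (by positivity) hz1 (fun p hp => (hP0 p hp).2.2.2) c hcc
  -- identification of the two sums
  have hsub : J ×ˢ PX x ⊆ EX ι x := by
    unfold EX
    exact product_subset_product (subset_univ _) (Subset.refl _)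
  have hEv : ∀ y : ι × ℕ → ℝ, Ev (EX ι x) c y = Ev (J ×ˢ PX x) c y := fun y =>
    Ev_sup hsub (fun Q hQ => ((hcc Q).2 hQ).1) y
  have hset : (AA h W b x).filter (fun n => (n + h i).Prime) =
      ((Ioc x (2 * x)).filter (fun n => n ≡ b [MOD W] ∧ (n + h i).Prime)).filter
        (fun n => ∀ i1 ∈ J, ∀ p ∈ PS W x, ¬ p ∣ n + h i1) := by
    ext n
    unfold AA
    simp only [mem_filter]
    constructor
    · rintro ⟨⟨h9, h10, h11⟩, h12⟩
      exact ⟨⟨h9, h10, h12⟩, fun i1 _ p hp => h11 i1 p hp⟩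
    · rintro ⟨⟨h9, h10, h12⟩, h11⟩
      refine ⟨⟨h9, h10, fun i1 p hp => ?_⟩, h12⟩
      by_cases hi1 : i1 = i
      · subst hi1
        intro hdv
        have h13 := (Nat.prime_dvd_prime_iff_eq (hP0 p hp).1 h12).1 hdv
        have h14 := (hP0 p hp).2.2.1
        have h15 := (mem_Ioc.1 h9).1
        omega
      · exact h11 i1 (mem_erase.2 ⟨hi1, mem_univ _⟩) p hp
  have hmain := TrP_main hG hx0 h6 (by omega) J.card hJc
  rw [hset]
  simp only [hEv]
  rw [← hmain]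
  set X1 : ℝ := X0 * ∏ p ∈ PS W x, (1 - (J.card : ℝ) * fn p) with hX1
  have hprod1 : ∏ p ∈ PS W x, (1 - (J.card : ℝ) * fn p) ≤ 1 := by
    apply prod_le_one
    · intro p hp
      have := (hg p (mem_union_left _ hp)).2
      linarith
    · intro p hp
      have := mul_nonneg (Nat.cast_nonneg (α := ℝ) J.card) (hg p (mem_union_left _ hp)).1
      linarith
  have hprod0 : 0 ≤ ∏ p ∈ PS W x, (1 - (J.card : ℝ) * fn p) := by
    apply prod_nonneg
    intro p hp
    have := (hg p (mem_union_left _ hp)).2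
    linarith
  have hX1n : 0 ≤ X1 := mul_nonneg hX0n hprod0
  have hX1x : X1 ≤ x := le_trans (mul_le_of_le_one_right hX0n hprod1) hX0x
  -- sums of the array
  have hfnQ : ∀ Q ⊆ EX ι x, 0 ≤ ∏ e ∈ Q, fn e.2 := by
    intro Q hQ
    apply prod_nonneg
    intro e he
    have h9 := hQ he
    unfold EX at h9
    rw [mem_product] at h9
    exact hfn0 _ (hP1 _ h9.2).1
  have hSA : ∑ Q ∈ (J ×ˢ PX x).powerset, |c Q| * ∏ e ∈ Q, fn e.2 ≤ L ^ B * L ^ B1 := by
    calc ∑ Q ∈ (J ×ˢ PX x).powerset, |c Q| * ∏ e ∈ Q, fn e.2 ≤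
          ∑ Q ∈ (EX ι x).powerset, |c Q| * ∏ e ∈ Q, fn e.2 :=
          sum_le_sum_of_subset_of_nonneg (powerset_mono.2 hsub)
            (fun Q hQ _ => mul_nonneg (abs_nonneg _) (hfnQ Q (mem_powerset.1 hQ)))
      _ ≤ ∑ Q ∈ (EX ι x).powerset, L ^ B * (M ^ Q.card * ∏ e ∈ Q, fn e.2) := by
          apply sum_le_sum
          intro Q hQ
          rw [← mul_assoc]
          exact mul_le_mul_of_nonneg_right (hcc Q).1 (hfnQ Q (mem_powerset.1 hQ))
      _ = L ^ B * ∑ Q ∈ (EX ι x).powerset, M ^ Q.card * ∏ e ∈ Q, fn e.2 := by rw [mul_sum]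
      _ ≤ L ^ B * L ^ B1 := mul_le_mul_of_nonneg_left h1 (by positivity)
  have hSA0 : 0 ≤ ∑ Q ∈ (J ×ˢ PX x).powerset, |c Q| * ∏ e ∈ Q, fn e.2 :=
    sum_nonneg fun Q hQ => mul_nonneg (abs_nonneg _) (hfnQ Q ((mem_powerset.1 hQ).trans hsub))
  have hLp : ∀ m : ℕ, 0 < L ^ m := fun m => by positivity
  have hfrac : (x : ℝ) * (L ^ B * L ^ B1) * (1 / L ^ (A + 1 + B + B1)) = x / L ^ (A + 1) := by
    have e : L ^ (A + 1 + B + B1) = L ^ (A + 1) * (L ^ B * L ^ B1) := by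
      rw [pow_add, pow_add, mul_assoc]
    rw [e]
    have := (hLp B).ne'
    have := (hLp B1).ne'
    have := (hLp (A + 1)).ne'
    field_simp
  have hfrac2 : (x : ℝ) * (L ^ B * (1 / L ^ (A + 1 + B))) = x / L ^ (A + 1) := by
    have e : L ^ (A + 1 + B) = L ^ (A + 1) * L ^ B := pow_add _ _ _
    rw [e]
    have := (hLp B).ne'
    have := (hLp (A + 1)).ne'
    field_simp
  -- first error
  have hE1 : X0 * (∑ Q ∈ (J ×ˢ PX x).powerset, |c Q| * ∏ e ∈ Q, fn e.2) *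
      (2 * ((J.card : ℝ) * ∑ p ∈ PS W x, fn p) ^ (t + 1) / (t + 1).factorial) ≤ x / L ^ (A + 1) := by
    rw [← hfrac]
    have h9 : 2 * ((J.card : ℝ) * ∑ p ∈ PS W x, fn p) ^ (t + 1) / (t + 1).factorial ≤
        1 / L ^ (A + 1 + B + B1) := by
      refine le_trans ?_ ht2
      apply div_le_div_of_nonneg_right _ (by positivity)
      apply mul_le_mul_of_nonneg_left _ (by norm_num)
      have hs0 : 0 ≤ ∑ p ∈ PS W x, fn p := sum_nonneg fun p hp => hfn0 p (hP0 p hp).1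
      apply pow_le_pow_left₀ (mul_nonneg (Nat.cast_nonneg _) hs0)
      apply mul_le_mul _ _ hs0 hk0
      · rw [hJc]; linarith
      · apply sum_le_sum_of_subset_of_nonneg
        · unfold PS
          exact filter_subset _ _
        · intro p hp _
          exact hfn0 p (hPAp p hp).1
    have h10 : 0 ≤ 2 * ((J.card : ℝ) * ∑ p ∈ PS W x, fn p) ^ (t + 1) / (t + 1).factorial := by
      have hs0 : 0 ≤ ∑ p ∈ PS W x, fn p := sum_nonneg fun p hp => hfn0 p (hP0 p hp).1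
      positivity
    exact mul_le_mul (mul_le_mul hX0x hSA hSA0 hxr.le) h9 h10 (by positivity)
  -- second error
  have hE2 : X0 * ∑ Q ∈ (J ×ˢ PX x).powerset.filter
      (fun Q : Finset (ι × ℕ) => ¬ Set.InjOn Prod.snd (Q : Set (ι × ℕ))),
        |c Q| * ∏ e ∈ Q, fn e.2 ≤ x / L ^ (A + 1) := by
    rw [← hfrac2]
    have h9 : ∑ Q ∈ (J ×ˢ PX x).powerset.filter
        (fun Q : Finset (ι × ℕ) => ¬ Set.InjOn Prod.snd (Q : Set (ι × ℕ))),
          |c Q| * ∏ e ∈ Q, fn e.2 ≤ L ^ B * (1 / L ^ (A + 1 + B)) := by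
      calc _ ≤ ∑ Q ∈ (EX ι x).powerset.filter
            (fun Q : Finset (ι × ℕ) => ¬ Set.InjOn Prod.snd (Q : Set (ι × ℕ))),
              |c Q| * ∏ e ∈ Q, fn e.2 :=
            sum_le_sum_of_subset_of_nonneg (filter_subset_filter _ (powerset_mono.2 hsub))
              (fun Q hQ _ => mul_nonneg (abs_nonneg _)
                (hfnQ Q (mem_powerset.1 (mem_filter.1 hQ).1)))
        _ ≤ ∑ Q ∈ (EX ι x).powerset.filter
            (fun Q : Finset (ι × ℕ) => ¬ Set.InjOn Prod.snd (Q : Set (ι × ℕ))),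
              L ^ B * (M ^ Q.card * ∏ e ∈ Q, fn e.2) := by
            apply sum_le_sum
            intro Q hQ
            rw [← mul_assoc]
            exact mul_le_mul_of_nonneg_right (hcc Q).1
              (hfnQ Q (mem_powerset.1 (mem_filter.1 hQ).1))
        _ = L ^ B * ∑ Q ∈ (EX ι x).powerset.filter
            (fun Q : Finset (ι × ℕ) => ¬ Set.InjOn Prod.snd (Q : Set (ι × ℕ))),
              M ^ Q.card * ∏ e ∈ Q, fn e.2 := by rw [mul_sum]
        _ ≤ _ := mul_le_mul_of_nonneg_left h3 (by positivity)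
    have h10 : 0 ≤ ∑ Q ∈ (J ×ˢ PX x).powerset.filter
        (fun Q : Finset (ι × ℕ) => ¬ Set.InjOn Prod.snd (Q : Set (ι × ℕ))),
          |c Q| * ∏ e ∈ Q, fn e.2 :=
      sum_nonneg fun Q hQ => mul_nonneg (abs_nonneg _)
        (hfnQ Q ((mem_powerset.1 (mem_filter.1 hQ).1).trans hsub))
    exact mul_le_mul hX0x h9 h10 hxr.le
  -- third error
  have hE3 : L ^ B * ∑ Z ∈ (PS W x ∪ PX x).powerset.filter
      (fun Z : Finset ℕ => ∏ p ∈ Z, (p : ℝ) ≤ (x : ℝ) ^ (1 / 2 - η) * z0 x ^ (t + 1)),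
        ((J.card : ℝ) * (M + 1)) ^ Z.card * eB W (h i) x Z ≤ x / L ^ (A + 1) := by
    rw [← hfrac2]
    have h9 : (x : ℝ) ^ (1 / 2 - η) * z0 x ^ (t + 1) ≤ (x : ℝ) ^ (1 / 2 - 3 * η / 4) := by
      calc (x : ℝ) ^ (1 / 2 - η) * z0 x ^ (t + 1) ≤ (x : ℝ) ^ (1 / 2 - η) * (x : ℝ) ^ (η / 4) :=
            mul_le_mul_of_nonneg_left ht1 (by positivity)
        _ = (x : ℝ) ^ (1 / 2 - 3 * η / 4) := by
            rw [← Real.rpow_add hxr]
            congr 1
            ring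
    have h10 : ∑ Z ∈ (PS W x ∪ PX x).powerset.filter
        (fun Z : Finset ℕ => ∏ p ∈ Z, (p : ℝ) ≤ (x : ℝ) ^ (1 / 2 - η) * z0 x ^ (t + 1)),
          ((J.card : ℝ) * (M + 1)) ^ Z.card * eB W (h i) x Z ≤
        ∑ Z ∈ ((range (x + 1)).filter (fun p : ℕ => p.Prime ∧ ¬ p ∣ W)).powerset.filter
          (fun Z : Finset ℕ => ∏ p ∈ Z, (p : ℝ) ≤ (x : ℝ) ^ (1 / 2 - 3 * η / 4)),
            C ^ Z.card * eB W (h i) x Z := by
      refine le_trans (sum_le_sum (g := fun Z => C ^ Z.card * eB W (h i) x Z) ?_) ?_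
      · intro Z _
        apply mul_le_mul_of_nonneg_right _ (he0 Z)
        apply pow_le_pow_left₀ (by positivity)
        refine le_trans ?_ (le_max_right _ _)
        apply mul_le_mul_of_nonneg_right _ (by positivity)
        rw [hJc]; linarith
      · apply sum_le_sum_of_subset_of_nonneg
        · intro Z hZ
          rw [mem_filter, mem_powerset] at hZ ⊢
          refine ⟨?_, le_trans hZ.2 h9⟩
          intro p hp
          have h11 := hP01 p (hZ.1 hp)
          rw [mem_filter, mem_range]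
          exact ⟨by omega, h11.1, h11.2.1⟩
        · intro Z _ _
          exact mul_nonneg (by positivity) (he0 Z)
    calc _ ≤ L ^ B * (x / L ^ (A + 1 + B)) :=
          mul_le_mul_of_nonneg_left (le_trans h10 h4) (by positivity)
      _ = _ := by ring
  -- change of the density
  have hE4 : |X1 * Ev (J ×ˢ PX x) c (fun e => fn e.2) - X1 * Ev (J ×ˢ PX x) c gi| ≤
      x / L ^ (A + 1) := by
    rw [← mul_sub, abs_mul, abs_of_nonneg hX1n, ← hfrac]
    have h9 : |Ev (J ×ˢ PX x) c (fun e => fn e.2) - Ev (J ×ˢ PX x) c gi| ≤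
        L ^ B * L ^ B1 * (1 / L ^ (A + 1 + B + B1)) := by
      unfold Ev
      rw [← sum_sub_distrib]
      refine le_trans (abs_sum_le_sum_abs _ _) ?_
      calc ∑ Q ∈ (J ×ˢ PX x).powerset, |c Q * ∏ e ∈ Q, fn e.2 - c Q * ∏ e ∈ Q, gi e| ≤
            ∑ Q ∈ (J ×ˢ PX x).powerset, |c Q| * (∏ e ∈ Q, fn e.2) * (1 / L ^ (A + 1 + B + B1)) := by
            apply sum_le_sum
            intro Q hQ
            rw [← mul_sub, abs_mul, mul_assoc]
            by_cases hQ0 : c Q = 0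
            · rw [hQ0]; simp
            · apply mul_le_mul_of_nonneg_left _ (abs_nonneg _)
              have h10 := h5 Q ((mem_powerset.1 hQ).trans hsub) (by
                refine le_trans ((hcc Q).2 hQ0).2 ?_
                calc (x : ℝ) ^ (1 / 2 - η) ≤ (x : ℝ) ^ (1 : ℝ) :=
                      Real.rpow_le_rpow_of_exponent_le hx1 (by linarith)
                  _ = x := Real.rpow_one _)
              rw [div_eq_mul_one_div] at h10
              exact h10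
        _ = (∑ Q ∈ (J ×ˢ PX x).powerset, |c Q| * ∏ e ∈ Q, fn e.2) * (1 / L ^ (A + 1 + B + B1)) := by
            rw [sum_mul]
        _ ≤ _ := mul_le_mul_of_nonneg_right hSA (by positivity)
    rw [mul_assoc (x : ℝ)]
    exact mul_le_mul hX1x h9 (abs_nonneg _) hxr.le
  -- conclusion
  have hfin : 4 * ((x : ℝ) / L ^ (A + 1)) ≤ x / L ^ A := by
    rw [pow_succ, ← div_div, mul_div_assoc', div_le_iff₀ hL0]
    have : 0 ≤ (x : ℝ) / L ^ A := by positivity
    nlinarith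
  have htri : ∀ a b' d : ℝ, |a - d| ≤ |a - b'| + |b' - d| := fun a b' d => abs_sub_le a b' d
  refine le_trans (htri _ (X1 * Ev (J ×ˢ PX x) c (fun e => fn e.2)) _) ?_
  have key' := le_trans key (add_le_add (add_le_add hE1 hE2) hE3)
  linarith

end Pool.Agent.H36.IS

end

section

/-!
# IS SumP: sums over primes

For n + h i prime (> x): yy h n (i,p) = 0 for all p ∈ PZ x δ (p ≤ x), so Ly(y) = Ly(v), v = pr (Si i) y (`Ev_lam_pr`), and the array
uc EX (λ v) (λ v) has no atoms in component i (v R ≠ 0 → Disjoint R (Si i), R ⊆ EZ; λ v D ≠ 0 → D ⊆ R).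
`trP` (level 2θ < 1/2 - η) and `EE_lam`:  |∑_{n+h i prime} Ly² - Mn · DP/(x A0) · My(v)| ≤ x/L^A.       (sumP1)
Two primes i ≠ j: on n with n + h i, n + h j prime, Ly(y) = Ly(pr (Si i ∪ Si j) y) =: Ly(w), and with the extension
y'' = ext (Si j) Z T w, Z A = [∑ log ≤ ρ log x], T = GG (PZ x δ) (ρ log x):  Ly(w) = Ly(y'') (`pr_ext`, `Ev_lam_pr`, both at atoms of Si j);
y'' has no atoms in component i; so ∑_{both prime} Ly(y)² ≤ ∑_{n + h i prime} Ly(y'')² ≤ Mn DP/(x A0) My(w)/T + x/L^A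
(`trP` at level 2(θ+ρ) < 1/2).   `T_one` gives the value of T (≥ 1: the empty set).
-/

set_option autoImplicit false

namespace Pool.Agent.H36.IS

open Finset Filter

section

variable {ι : Type} [Fintype ι] [DecidableEq ι]

private theorem SumP_EZ_sub (x : ℕ) (δ : ℝ) : EZ ι x δ ⊆ EX ι x := by
  intro e he
  unfold EZ at he
  unfold EX
  rw [mem_product] at he ⊢
  exact ⟨he.1, filter_subset _ _ he.2⟩

private theorem SumP_Si_sub (x : ℕ) (δ : ℝ) (i : ι) : Si x δ i ⊆ EZ ι x δ := by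
  intro e he
  unfold Si at he
  unfold EZ
  rw [mem_product] at he ⊢
  exact ⟨mem_univ _, he.2⟩

private theorem SumP_mem_Si {x : ℕ} {δ : ℝ} {i : ι} {e : ι × ℕ} :
    e ∈ Si x δ i ↔ e.1 = i ∧ e.2 ∈ PZ x δ := by
  unfold Si
  rw [mem_product, mem_singleton]

private theorem SumP_hg (x : ℕ) (δ : ℝ) : ∀ e ∈ EZ ι x δ, 0 < gi e ∧ gi e < 1 := fun e he =>
  (fo_gi (SumP_EZ_sub (ι := ι) x δ he)).2

private theorem SumP_yy (h : ι → ℕ) (n : ℕ) (e : ι × ℕ) : yy h n e = 0 ∨ yy h n e = 1 := by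
  unfold yy
  split_ifs
  · exact Or.inr rfl
  · exact Or.inl rfl

private theorem SumP_yy_zero {h : ι → ℕ} {n x : ℕ} {δ : ℝ} {i : ι} (hn : x < n) (hp : (n + h i).Prime) :
    ∀ e ∈ Si x δ i, yy h n e = 0 := by
  intro e he
  obtain ⟨h1, h2⟩ := SumP_mem_Si.1 he
  unfold PZ PX at h2
  rw [mem_filter, mem_filter, mem_range] at h2
  obtain ⟨⟨h3, h4, _⟩, _⟩ := h2
  unfold yy
  rw [if_neg]
  intro hd
  rw [h1] at hd
  have h5 := (Nat.prime_dvd_prime_iff_eq h4 hp).1 hd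
  omega

open Classical in
/-- the basic sum over primes for arrays without atoms in component `i` -/
private theorem SumP_core (ι : Type) [Fintype ι] [DecidableEq ι] (h : ι → ℕ) (W b : ℕ) (hG : Good h W b) (B1 : ℕ)
    (δ θ : ℝ) (hθ1 : θ < 1 / 4) (A : ℕ) :
    ∀ᶠ x : ℕ in atTop, ∀ i : ι, ∀ v : Finset (ι × ℕ) → ℝ, Yok x δ θ (Real.log x ^ B1) v →
      (∀ R, v R ≠ 0 → Disjoint R (Si x δ i)) →
      |∑ n ∈ (AA h W b x).filter (fun n => (n + h i).Prime), Ly h x δ v n ^ 2 -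
        Mn ι W x * (DP x / (x * A0 x)) * My ι x δ v| ≤ x / Real.log x ^ A := by
  obtain ⟨B, hB⟩ := cls_lam ι B1
  have hη : 0 < 1 / 2 - 2 * θ := by linarith
  have hT : ∀ᶠ x : ℕ in atTop, ∀ i : ι, ∀ c : Finset (ι × ℕ) → ℝ,
      Cls x (B + B) (2 + 2 + 2 * 2) ((x : ℝ) ^ (1 / 2 - (1 / 2 - 2 * θ))) c → (∀ Q, c Q ≠ 0 → ∀ e ∈ Q, e.1 ≠ i) →
      |∑ n ∈ (AA h W b x).filter (fun n => (n + h i).Prime), Ev (EX ι x) c (yy h n) -
          Mn ι W x * (DP x / (x * A0 x)) * Ev (EX ι x) c gi| ≤ x / Real.log x ^ A :=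
    eventually_all.2 fun i => trP ι h W b hG i (B + B) (2 + 2 + 2 * 2) (1 / 2 - 2 * θ) (by norm_num) hη A
  have hlog : ∀ᶠ x : ℕ in atTop, 1 ≤ Real.log x :=
    (Real.tendsto_log_atTop.comp tendsto_natCast_atTop_atTop).eventually_ge_atTop 1
  filter_upwards [hB, hT, hlog, eventually_ge_atTop 1] with x hx hI hx1 hx2
  intro i v hv hvd
  have hx0 : (0 : ℝ) < x := by
    have : (1 : ℝ) ≤ x := by exact_mod_cast hx2
    linarith
  have hc := hx δ θ v hv
  have hsup : ∀ D, lam (EZ ι x δ) gi v D ≠ 0 → D ⊆ EZ ι x δ \ Si x δ i := by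
    intro D hD
    obtain ⟨R, h1, h2, h3⟩ := lam_sup hD
    intro e he
    rw [Finset.mem_sdiff]
    exact ⟨h2 (h1 he), fun h4 => (Finset.disjoint_left.1 (hvd R h3)) (h1 he) h4⟩
  have hsup' : ∀ D, lam (EZ ι x δ) gi v D ≠ 0 → D ⊆ EZ ι x δ := fun D hD =>
    (hsup D hD).trans sdiff_subset
  have hcc := cls_uc hx1 (by norm_num) (by norm_num) (Real.rpow_nonneg hx0.le _) (Real.rpow_nonneg hx0.le _) hc hc
  have hpow : (x : ℝ) ^ θ * (x : ℝ) ^ θ = (x : ℝ) ^ (1 / 2 - (1 / 2 - 2 * θ)) := by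
    rw [← Real.rpow_add hx0]
    congr 1
    ring
  rw [hpow] at hcc
  have hne : ∀ Q, uc (EX ι x) (lam (EZ ι x δ) gi v) (lam (EZ ι x δ) gi v) Q ≠ 0 → ∀ e ∈ Q, e.1 ≠ i := by
    intro Q hQ e he h1
    have h2 := (uc_sup hsup hsup Q hQ).1 he
    rw [union_self, Finset.mem_sdiff] at h2
    refine h2.2 (SumP_mem_Si.2 ⟨h1, ?_⟩)
    have h3 := h2.1
    unfold EZ at h3
    exact (mem_product.1 h3).2
  have hmain := hI i _ hcc hne
  have hsup2 : ∀ Q, uc (EZ ι x δ) (lam (EZ ι x δ) gi v) (lam (EZ ι x δ) gi v) Q ≠ 0 → Q ⊆ EZ ι x δ :=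
    fun Q hQ => (uc_sup hsup' hsup' Q hQ).2
  have hEv : ∀ z : ι × ℕ → ℝ, Ev (EX ι x) (uc (EX ι x) (lam (EZ ι x δ) gi v) (lam (EZ ι x δ) gi v)) z =
      Ev (EZ ι x δ) (uc (EZ ι x δ) (lam (EZ ι x δ) gi v) (lam (EZ ι x δ) gi v)) z := by
    intro z
    rw [uc_ground (SumP_EZ_sub x δ) hsup' hsup', Ev_sup (SumP_EZ_sub x δ) hsup2]
  have h1 : ∀ n, Ev (EX ι x) (uc (EX ι x) (lam (EZ ι x δ) gi v) (lam (EZ ι x δ) gi v)) (yy h n) =
      Ly h x δ v n ^ 2 := by
    intro n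
    rw [hEv, Ev_uc _ _ (fun e _ => SumP_yy h n e), sq]
    rfl
  have h2 : Ev (EX ι x) (uc (EX ι x) (lam (EZ ι x δ) gi v) (lam (EZ ι x δ) gi v)) gi = My ι x δ v := by
    rw [hEv, EE_lam (SumP_hg x δ)]
    unfold My MM
    refine sum_congr rfl fun R _ => ?_
    rw [sq]
  rw [h2] at hmain
  simp only [h1] at hmain
  exact hmain

end

open Classical in
theorem sumP1 (ι : Type) [Fintype ι] [DecidableEq ι] (h : ι → ℕ) (W b : ℕ) (hG : Good h W b) (B1 : ℕ) (δ θ : ℝ)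
    (hδ : 0 < δ) (hδ1 : δ ≤ 1) (hθ : 0 ≤ θ) (hθ1 : θ < 1 / 4) (A : ℕ) :
    ∀ᶠ x : ℕ in atTop, ∀ y : Finset (ι × ℕ) → ℝ, Yok x δ θ (Real.log x ^ B1) y → ∀ i,
      |∑ n ∈ (AA h W b x).filter (fun n => (n + h i).Prime), Ly h x δ y n ^ 2 -
        Mn ι W x * (DP x / (x * A0 x)) * My ι x δ (pr (Si x δ i) (fo gi) y)| ≤ x / Real.log x ^ A := by
  obtain ⟨B, hB⟩ := yok_pr ι B1
  filter_upwards [hB, SumP_core ι h W b hG B δ θ hθ1 A] with x hx hI
  intro y hy i
  have hv := hx δ θ y (Si x δ i) (SumP_Si_sub x δ i) hy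
  have h1 := hI i _ hv fun R hR => (pr_disj hR).1
  have h2 : ∑ n ∈ (AA h W b x).filter (fun n => (n + h i).Prime), Ly h x δ y n ^ 2 =
      ∑ n ∈ (AA h W b x).filter (fun n => (n + h i).Prime), Ly h x δ (pr (Si x δ i) (fo gi) y) n ^ 2 := by
    refine sum_congr rfl fun n hn => ?_
    obtain ⟨h3, h4⟩ := mem_filter.1 hn
    unfold AA at h3
    rw [mem_filter, mem_Ioc] at h3
    congr 1
    unfold Ly
    exact (Ev_lam_pr (SumP_Si_sub x δ i) (SumP_hg x δ) y (SumP_yy_zero h3.1.1 h4)).symm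
  rw [h2]
  exact h1

open Classical in
theorem sumP2 (ι : Type) [Fintype ι] [DecidableEq ι] (h : ι → ℕ) (W b : ℕ) (hG : Good h W b) (B1 : ℕ) (δ θ ρ : ℝ)
    (hδ : 0 < δ) (hδ1 : δ ≤ 1) (hθ : 0 ≤ θ) (hρ : 0 ≤ ρ) (hθ1 : θ + ρ < 1 / 4) (A : ℕ) :
    ∀ᶠ x : ℕ in atTop, ∀ y : Finset (ι × ℕ) → ℝ, Yok x δ θ (Real.log x ^ B1) y → ∀ i j, i ≠ j →
      ∑ n ∈ (AA h W b x).filter (fun n => (n + h i).Prime ∧ (n + h j).Prime), Ly h x δ y n ^ 2 ≤
        Mn ι W x * (DP x / (x * A0 x) / GG (PZ x δ) (ρ * Real.log x)) *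
          My ι x δ (pr (Si x δ i ∪ Si x δ j) (fo gi) y) + x / Real.log x ^ A := by
  obtain ⟨B, hB⟩ := yok_pr ι B1
  filter_upwards [hB, SumP_core ι h W b hG B δ (θ + ρ) hθ1 A, eventually_ge_atTop 1] with x hx hI hx1
  intro y hy i j hij
  have hx0 : (0 : ℝ) < x := by
    have : (1 : ℝ) ≤ x := by exact_mod_cast hx1
    linarith
  have hxlog : 0 ≤ Real.log x := Real.log_natCast_nonneg x
  obtain ⟨S, hS⟩ : ∃ S, S = Si x δ i ∪ Si x δ j := ⟨_, rfl⟩
  rw [← hS]
  have hSsub : S ⊆ EZ ι x δ := by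
    rw [hS]
    exact union_subset (SumP_Si_sub x δ i) (SumP_Si_sub x δ j)
  have hiS : Si x δ i ⊆ S := by rw [hS]; exact subset_union_left
  have hjS : Si x δ j ⊆ S := by rw [hS]; exact subset_union_right
  obtain ⟨w, hw⟩ : ∃ w, w = pr S (fo gi) y := ⟨_, rfl⟩
  rw [← hw]
  have hwY : Yok x δ θ (Real.log x ^ B) w := by
    rw [hw]
    exact hx δ θ y S hSsub hy
  have hwd : ∀ R, w R ≠ 0 → Disjoint R S := by
    intro R hR
    rw [hw] at hR
    exact (pr_disj hR).1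
  have hwd' : ∀ R, w R ≠ 0 → Disjoint R (Si x δ j) := fun R hR => (hwd R hR).mono_right hjS
  obtain ⟨Z, hZ⟩ : ∃ Z : Finset (ι × ℕ) → ℝ, Z = fun A => if ∑ e ∈ A, Real.log e.2 ≤ ρ * Real.log x then (1 : ℝ) else 0 :=
    ⟨_, rfl⟩
  obtain ⟨T, hT⟩ : ∃ T, T = GG (PZ x δ) (ρ * Real.log x) := ⟨_, rfl⟩
  have hTT : ∑ A ∈ (Si x δ j).powerset, Z A * ∏ e ∈ A, fo gi e = T := by
    rw [hZ, hT]
    exact T_one x δ (ρ * Real.log x) j
  have hZ01 : ∀ A, Z A = 0 ∨ Z A = 1 := by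
    intro A
    rw [hZ]
    change (if ∑ e ∈ A, Real.log e.2 ≤ ρ * Real.log x then (1 : ℝ) else 0) = 0 ∨
      (if ∑ e ∈ A, Real.log e.2 ≤ ρ * Real.log x then (1 : ℝ) else 0) = 1
    split_ifs
    · exact Or.inr rfl
    · exact Or.inl rfl
  have hfo : ∀ e ∈ EZ ι x δ, 0 < fo gi e := by
    intro e he
    obtain ⟨h1, h2⟩ := SumP_hg x δ e he
    unfold fo
    exact div_pos h1 (by linarith)
  have hT1 : 1 ≤ T := by
    rw [← hTT]
    have h0 : Z ∅ * ∏ e ∈ (∅ : Finset (ι × ℕ)), fo gi e = 1 := by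
      rw [hZ, prod_empty, mul_one]
      change (if ∑ e ∈ (∅ : Finset (ι × ℕ)), Real.log e.2 ≤ ρ * Real.log x then (1 : ℝ) else 0) = 1
      rw [if_pos]
      rw [sum_empty]
      exact mul_nonneg hρ hxlog
    rw [← h0]
    refine single_le_sum (f := fun A => Z A * ∏ e ∈ A, fo gi e) (fun A hA => ?_)
      (mem_powerset.2 (empty_subset _))
    refine mul_nonneg ?_ (prod_nonneg fun e he => ?_)
    · rcases hZ01 A with h | h <;> rw [h] <;> norm_num
    · exact (hfo e (SumP_Si_sub x δ j (mem_powerset.1 hA he))).le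
  have hT0 : T ≠ 0 := by linarith
  have hZs : ∀ A, A ⊆ Si x δ j → Z A ≠ 0 → ∏ e ∈ A, (e.2 : ℝ) ≤ (x : ℝ) ^ ρ := by
    intro A hA hZA
    have h1 : ∑ e ∈ A, Real.log e.2 ≤ ρ * Real.log x := by
      by_contra hc
      apply hZA
      rw [hZ]
      change (if ∑ e ∈ A, Real.log e.2 ≤ ρ * Real.log x then (1 : ℝ) else 0) = 0
      rw [if_neg hc]
    have h2 : ∀ e ∈ A, (0 : ℝ) < (e.2 : ℝ) := by
      intro e he
      have h3 := (SumP_mem_Si.1 (hA he)).2
      unfold PZ PX at h3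
      rw [mem_filter, mem_filter] at h3
      exact_mod_cast h3.1.2.1.pos
    have h3 : ∏ e ∈ A, (e.2 : ℝ) = Real.exp (∑ e ∈ A, Real.log e.2) := by
      rw [Real.exp_sum]
      exact prod_congr rfl fun e he => (Real.exp_log (h2 e he)).symm
    rw [h3, Real.rpow_def_of_pos hx0]
    refine Real.exp_le_exp.2 ?_
    rw [mul_comm]
    exact h1
  obtain ⟨u, hu⟩ : ∃ u, u = ext (Si x δ j) Z T w := ⟨_, rfl⟩
  have huY : Yok x δ (θ + ρ) (Real.log x ^ B) u := by
    rw [hu]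
    exact yok_ext hx1 (SumP_Si_sub x δ j) hwY hZ01 hZs hT1
  have hud : ∀ R, u R ≠ 0 → Disjoint R (Si x δ i) := by
    intro R hR
    have h1 : w (R \ Si x δ j) ≠ 0 := by
      intro h0
      apply hR
      rw [hu]
      unfold ext
      rw [h0, zero_mul, zero_div]
    have h2 := hwd _ h1
    rw [Finset.disjoint_left] at h2 ⊢
    intro e he he'
    refine h2 (a := e) (Finset.mem_sdiff.2 ⟨he, fun h3 => ?_⟩) (hiS he')
    exact hij ((SumP_mem_Si.1 he').1.symm.trans (SumP_mem_Si.1 h3).1)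
  have h1 := (abs_le.1 (hI i u huY hud)).2
  have h2 : My ι x δ u = My ι x δ w / T := by
    rw [hu]
    exact MM_ext (SumP_Si_sub x δ j) hZ01 hT0 hTT hwd'
  have h3 : ∑ n ∈ (AA h W b x).filter (fun n => (n + h i).Prime ∧ (n + h j).Prime), Ly h x δ y n ^ 2 ≤
      ∑ n ∈ (AA h W b x).filter (fun n => (n + h i).Prime), Ly h x δ u n ^ 2 := by
    calc ∑ n ∈ (AA h W b x).filter (fun n => (n + h i).Prime ∧ (n + h j).Prime), Ly h x δ y n ^ 2
        = ∑ n ∈ (AA h W b x).filter (fun n => (n + h i).Prime ∧ (n + h j).Prime), Ly h x δ u n ^ 2 := by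
          refine sum_congr rfl fun n hn => ?_
          obtain ⟨h4, h5, h6⟩ := mem_filter.1 hn
          unfold AA at h4
          rw [mem_filter, mem_Ioc] at h4
          have h7 : ∀ e ∈ Si x δ i, yy h n e = 0 := SumP_yy_zero h4.1.1 h5
          have h8 : ∀ e ∈ Si x δ j, yy h n e = 0 := SumP_yy_zero h4.1.1 h6
          have h9 : ∀ e ∈ S, yy h n e = 0 := by
            intro e he
            rw [hS, mem_union] at he
            exact he.elim (h7 e) (h8 e)
          congr 1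
          unfold Ly
          rw [← Ev_lam_pr hSsub (SumP_hg x δ) y h9, ← hw, hu,
            ← Ev_lam_pr (SumP_Si_sub x δ j) (SumP_hg x δ) (ext (Si x δ j) Z T w) h8,
            pr_ext hT0 hTT hwd']
      _ ≤ _ := by
          refine sum_le_sum_of_subset_of_nonneg ?_ fun n _ _ => sq_nonneg _
          intro n hn
          rw [mem_filter] at hn ⊢
          exact ⟨hn.1, hn.2.1⟩
  rw [h2] at h1
  rw [← hT]
  have h4 : Mn ι W x * (DP x / (x * A0 x)) * (My ι x δ w / T) = Mn ι W x * (DP x / (x * A0 x) / T) * My ι x δ w := by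
    ring
  rw [h4] at h1
  linarith

end Pool.Agent.H36.IS

end

section

/-!
# IS MarkP: the data of the prime mark

mk x m = m.Prime, δ = 1/4, θ = 0.0001, l x = q1 x = DP x/(x A0 x), q2 x = l x/GG (PZ x (1/4)) (0.2498 log x), c' = 1/2, C = 2.
 l τ = DP log x/x → 1 (`DP_pnt`).  c q2 ≤ l²: l · GG ≥ l · A0 · 0.2498 log x = 0.2498 DP log x/x ≥ 0.2497 (`GG_low`: 0.2498 ≤ 1/4).
 The three sums: `sumP1`, `sumP2` with B1 = 1 (K ≤ log x eventually, `Yok.mono`), θ + ρ = 0.2499 < 1/4.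
-/

set_option autoImplicit false

namespace Pool.Agent.H36.IS

open Finset Filter

private theorem MarkP_A0_pos (x : ℕ) : 0 < A0 x := by
  unfold A0
  apply prod_pos
  intro p hp
  have hp' : p.Prime := (mem_filter.mp hp).2.1
  have h2 : (2 : ℝ) ≤ p := by exact_mod_cast hp'.two_le
  have h3 : 1 / (p : ℝ) ≤ 1 / 2 := one_div_le_one_div_of_le (by norm_num) h2
  linarith

theorem markP : MarkData Nat.Prime (1 / 4) 0.0001 0.2497 := by
  classical
  refine ⟨fun _ m => m.Prime, fun x => DP x / (x * A0 x), fun x => DP x / (x * A0 x),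
    fun x => DP x / (x * A0 x) / GG (PZ x (1 / 4)) (0.2498 * Real.log x), 1 / 2, 2,
    fun _ _ h => h, by norm_num, by norm_num, ?_, ?_⟩
  · have hlog : ∀ᶠ x : ℕ in atTop, 1 ≤ Real.log x :=
      (Real.tendsto_log_atTop.comp tendsto_natCast_atTop_atTop).eventually_ge_atTop 1
    filter_upwards [DP_pnt 0.0001 (by norm_num), GG_low, hlog, eventually_ge_atTop 1] with
      x hx hg hl hx1
    have hx0 : (0 : ℝ) < x := by exact_mod_cast hx1
    have hA := MarkP_A0_pos x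
    have hl0 : 0 < Real.log x := by linarith
    obtain ⟨h1, h2⟩ := hx
    -- `DP log x / x`
    have e0 : DP x / (x * A0 x) * tau x = DP x * Real.log x / x := by
      unfold tau
      field_simp
    have hd1 : 1 - 0.0001 ≤ DP x * Real.log x / x := by
      rw [le_div_iff₀ hx0]
      have h3 := mul_le_mul_of_nonneg_right h1 hl0.le
      have h4 : (1 - 0.0001) * ((x : ℝ) / Real.log x) * Real.log x = (1 - 0.0001) * x := by
        field_simp
      linarith
    have hd2 : DP x * Real.log x / x ≤ 1 + 0.0001 := by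
      rw [div_le_iff₀ hx0]
      have h3 := mul_le_mul_of_nonneg_right h2 hl0.le
      have h4 : (1 + 0.0001) * ((x : ℝ) / Real.log x) * Real.log x = (1 + 0.0001) * x := by
        field_simp
      linarith
    have hDP : 0 < DP x := by
      have h3 : 0 < (1 - 0.0001) * ((x : ℝ) / Real.log x) := by
        have : 0 < (x : ℝ) / Real.log x := by positivity
        nlinarith
      linarith
    have hl' : 0 < DP x / (x * A0 x) := by positivity
    have hGG := hg (1 / 4) (by norm_num) (by norm_num) (0.2498 * Real.log x) (by positivity)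
      (by nlinarith)
    have hGp : 0 < GG (PZ x (1 / 4)) (0.2498 * Real.log x) :=
      lt_of_lt_of_le (by positivity) hGG
    refine ⟨by rw [e0]; linarith, hl'.le, by rw [e0]; linarith, by positivity, ?_⟩
    have h5 : 0.2497 ≤ DP x / (x * A0 x) * GG (PZ x (1 / 4)) (0.2498 * Real.log x) := by
      have h6 : DP x / (x * A0 x) * (A0 x * (0.2498 * Real.log x)) ≤
          DP x / (x * A0 x) * GG (PZ x (1 / 4)) (0.2498 * Real.log x) :=
        mul_le_mul_of_nonneg_left hGG hl'.le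
      have h7 : DP x / (x * A0 x) * (A0 x * (0.2498 * Real.log x)) =
          0.2498 * (DP x * Real.log x / x) := by
        field_simp
      linarith
    have h8 : 0.2497 * (DP x / (x * A0 x) / GG (PZ x (1 / 4)) (0.2498 * Real.log x)) =
        (DP x / (x * A0 x)) * (0.2497 / GG (PZ x (1 / 4)) (0.2498 * Real.log x)) := by
      ring
    rw [h8, sq]
    apply mul_le_mul_of_nonneg_left _ hl'.le
    rw [div_le_iff₀ hGp]
    exact h5
  · intro ι _ _ h W b hG K A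
    have hK : ∀ᶠ x : ℕ in atTop, K ≤ Real.log x :=
      (Real.tendsto_log_atTop.comp tendsto_natCast_atTop_atTop).eventually_ge_atTop K
    filter_upwards [sumP1 ι h W b hG 1 (1 / 4) 0.0001 (by norm_num) (by norm_num) (by norm_num)
      (by norm_num) A, sumP2 ι h W b hG 1 (1 / 4) 0.0001 0.2498 (by norm_num) (by norm_num)
      (by norm_num) (by norm_num) (by norm_num) A, hK] with x h1 h2 hx y hy
    have hy' : Yok x (1 / 4) 0.0001 (Real.log x ^ 1) y := by
      intro R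
      obtain ⟨a, b, c⟩ := hy R
      exact ⟨a, by rw [pow_one]; linarith, c⟩
    constructor
    · intro i
      have h3 := abs_le.mp (h1 y hy' i)
      constructor
      · refine le_trans ?_ (le_of_eq (sum_congr (?_ :
          (AA h W b x).filter (fun n => (n + h i).Prime) = _) (fun _ _ => rfl)))
        · linarith [h3.1]
        · ext n
          simp only [mem_filter]
      · refine le_trans (le_of_eq (sum_congr (?_ : _ =
          (AA h W b x).filter (fun n => (n + h i).Prime)) (fun _ _ => rfl))) ?_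
        · ext n
          simp only [mem_filter]
        · linarith [h3.2]
    · intro i j hij
      refine le_trans (le_of_eq (sum_congr (?_ : _ =
          (AA h W b x).filter (fun n => (n + h i).Prime ∧ (n + h j).Prime)) (fun _ _ => rfl))) ?_
      · ext n
        simp only [mem_filter]
      · have h3 := h2 y hy' i j hij
        refine le_trans (le_of_eq (sum_congr ?_ (fun _ _ => rfl))) h3
        ext n
        simp only [mem_filter]

end Pool.Agent.H36.IS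

end

section

/-!
# IS Fin: the main theorems
-/

set_option autoImplicit false

namespace Pool.Agent.H36.IS

theorem stepP : ∃ κ : ℕ → ℕ, Step Nat.Prime 0.2495 κ := by
  obtain ⟨κ, h⟩ := cheb_step Nat.Prime (1 / 4) 0.0001 0.2497 0.2495 (by norm_num) (by norm_num) (by norm_num)
    (by norm_num) (by norm_num) markP (by norm_num)
  exact ⟨κ, toStep h⟩

end Pool.Agent.H36.IS

end
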