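import Pool.Agent.H15.TB1.M56
import Pool.Agent.H15.TB1.M96
import Pool.Agent.H15.TB1.M97

/-! The parts of this file: H76.ISE.TrQ. -/

section

/-!
# ISE TrQ: transfer for the marks with one cofactor

Same proof as `trP` (Pool/Agent/H36/IS/TrP.lean; adapt the finished file when it is there), with
N = {n ∈ (x,2x], n ≡ b mod W, Mk1 a (n + h i)}, J = univ \ {i}, P0 = PS W x, P1 = PX x, g = fn, X0 = DP (x/a)/φ(W), e Z = eQ W (h i) x a Z
(≥ 0: eB ≥ 0 etc.), D = x^(1/10), z = max 1 (z0 x), t from `brun_tail` with η = 1/50: D z^(t+1) ≤ x^(3/25).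
* hcount: `count_Q` (a is coprime to W: its prime factors are > x^δ > W for large x; p ∈ P0 ∪ P1 does not divide W; φ p ∈ J means φ p ≠ i).
* AA.filter (Mk1 a (n + h i)) = N.filter (rough in the components of J): n + h i = a m' with m' prime, m' > x/a ≥ x^(3/10) > z0 and all prime
  factors of a are > x^δ > z0 for large x, so no p ∈ PS W x divides n + h i.
* c is supported on Q ⊆ J ×ˢ PX; Ev (EX ι x) c = Ev (J ×ˢ PX x) c (`Ev_sup`).
* Main term: DP(x/a)/φ(W) ∏_{PS} (1 - (k-1) fn p) = Mn · DP(x/a)/(x A0): exactly as in TrP (same algebra with DP x replaced by DP (x/a)).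
* Change of density Ev c (fn ∘ snd) versus Ev c gi: `fn_gi`, `l1_le`;  0 ≤ DP (x/a) ≤ x/a.
* Errors: first two terms of `trAbs`: X0 ≤ x/a times (log x)^B' (log x)^(-A') (`l1_le`, `brun_tail`, `incons_le`); third: `err_Q` with
  C = max 1 (k (M+1)), K = (log x)^B.
-/

set_option autoImplicit false

namespace Pool.Agent.H76.ISE

open Finset Filter Pool.Agent.H36.IS

/-- `z0 x → ∞` -/
private theorem TrQ_z0_tendsto : Tendsto z0 atTop atTop := by
  have h1 : Tendsto (fun u : ℝ => u / (Real.log u) ^ 2) atTop atTop := by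
    have h := Real.isLittleO_pow_log_id_atTop (n := 2)
    have h2 : Tendsto (fun u : ℝ => Real.log u ^ 2 / u) atTop (nhds 0) := by
      have := h.tendsto_div_nhds_zero
      simpa using this
    have h3 : ∀ᶠ u : ℝ in atTop, 0 < Real.log u ^ 2 / u := by
      filter_upwards [eventually_gt_atTop (Real.exp 1)] with u hu
      have hu1 : 1 < Real.exp 1 := by
        have := Real.add_one_lt_exp (x := 1) one_ne_zero
        linarith only [this]
      have hu2 : 0 < u := by linarith only [hu, hu1]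
      have hu3 : 0 < Real.log u := Real.log_pos (by linarith only [hu, hu1])
      positivity
    have h4 : Tendsto (fun u : ℝ => Real.log u ^ 2 / u) atTop (nhdsWithin 0 (Set.Ioi 0)) :=
      tendsto_nhdsWithin_iff.mpr ⟨h2, h3⟩
    have h5 := h4.inv_tendsto_nhdsGT_zero
    refine h5.congr (fun u => ?_)
    simp [Pi.inv_apply, inv_div]
  have h6 : Tendsto (fun x : ℕ => Real.log (x : ℝ)) atTop atTop :=
    Real.tendsto_log_atTop.comp tendsto_natCast_atTop_atTop
  exact Real.tendsto_exp_atTop.comp (h1.comp h6)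

/-- `z0 x < x ^ r` for large `x` -/
private theorem TrQ_z0_lt (r : ℝ) (hr : 0 < r) : ∀ᶠ x : ℕ in atTop, z0 x < (x : ℝ) ^ r := by
  have hL : Tendsto (fun x : ℕ => Real.log (x : ℝ)) atTop atTop :=
    Real.tendsto_log_atTop.comp tendsto_natCast_atTop_atTop
  have hl : Tendsto (fun x : ℕ => Real.log (Real.log (x : ℝ))) atTop atTop :=
    Real.tendsto_log_atTop.comp hL
  filter_upwards [hL.eventually_ge_atTop 1, hl.eventually_ge_atTop (1 + 1 / r), eventually_ge_atTop 1]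
    with x h1 h2 h3
  have hx0 : (0 : ℝ) < x := by exact_mod_cast h3
  unfold z0
  rw [Real.rpow_def_of_pos hx0]
  apply Real.exp_lt_exp.mpr
  set L := Real.log (x : ℝ)
  set l := Real.log L
  have hr1 : 0 < 1 / r := by positivity
  have hl1 : 1 < l := by linarith only [h2, hr1]
  have hl2 : 0 < l ^ 2 := by positivity
  rw [div_lt_iff₀ hl2]
  have h4 : 1 / r < l ^ 2 := by nlinarith only [h2]
  have h5 : 1 < r * l ^ 2 := by
    rw [div_lt_iff₀ hr] at h4
    linarith only [h4]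
  nlinarith only [h1, h5]

private theorem TrQ_pi_add (y k : ℕ) : Nat.primeCounting (y + k) ≤ Nat.primeCounting y + k := by
  induction k with
  | zero => simp
  | succ k ih =>
    have h1 : Nat.primeCounting (y + (k + 1)) ≤ Nat.primeCounting (y + k) + 1 := by
      unfold Nat.primeCounting Nat.primeCounting'
      rw [show y + (k + 1) + 1 = (y + k + 1) + 1 from by ring, Nat.count_succ]
      split_ifs <;> omega
    omega

/-- bounds for `DP` -/
private theorem TrQ_DP (y : ℕ) : 0 ≤ DP y ∧ DP y ≤ y := by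
  unfold DP
  have h1 : Nat.primeCounting y ≤ Nat.primeCounting (2 * y) := Nat.monotone_primeCounting (by omega)
  have h2 := TrQ_pi_add y y
  rw [← two_mul] at h2
  have h1' : (Nat.primeCounting y : ℝ) ≤ Nat.primeCounting (2 * y) := by exact_mod_cast h1
  have h2' : (Nat.primeCounting (2 * y) : ℝ) ≤ Nat.primeCounting y + y := by exact_mod_cast h2
  constructor <;> linarith only [h1', h2']

private theorem TrQ_inv_le_fn (p : ℕ) (hp : p.Prime) : 0 ≤ 1 / (p : ℝ) ∧ 1 / (p : ℝ) ≤ fn p := by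
  have h2 : (2 : ℝ) ≤ p := by exact_mod_cast hp.two_le
  refine ⟨by positivity, ?_⟩
  unfold fn
  apply one_div_le_one_div_of_le <;> linarith only [h2]

/-- `A0 x` factors through the primes dividing `W` -/
private theorem TrQ_A0 (W x : ℕ) (hW : 0 < W) (hWx : W ≤ x) (hWz : (W : ℝ) < z0 x) :
    A0 x = ((Nat.totient W : ℝ) / W) * ∏ p ∈ PS W x, (1 - 1 / (p : ℝ)) := by
  have h1 : (PA x).filter (fun p => p ∣ W) = W.primeFactors := by
    ext p
    simp only [PA, Finset.mem_filter, Finset.mem_range, Nat.mem_primeFactors]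
    constructor
    · rintro ⟨⟨_, h2, _⟩, h3⟩
      exact ⟨h2, h3, hW.ne'⟩
    · rintro ⟨h2, h3, _⟩
      have h4 : p ≤ W := Nat.le_of_dvd hW h3
      have h5 : (p : ℝ) ≤ W := by exact_mod_cast h4
      exact ⟨⟨by omega, h2, by linarith only [hWz, h5]⟩, h3⟩
  have h2 : A0 x = (∏ p ∈ (PA x).filter (fun p => p ∣ W), (1 - 1 / (p : ℝ))) *
      ∏ p ∈ PS W x, (1 - 1 / (p : ℝ)) := by
    unfold A0 PS
    rw [Finset.prod_filter_mul_prod_filter_not]
  rw [h2, h1]
  congr 1
  have h3 := Nat.totient_eq_mul_prod_factors W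
  have h4 : (Nat.totient W : ℝ) = W * ∏ p ∈ W.primeFactors, (1 - (p : ℝ)⁻¹) := by
    have := congrArg (fun q : ℚ => (q : ℝ)) h3
    push_cast at this
    exact this
  have hW' : (W : ℝ) ≠ 0 := by exact_mod_cast hW.ne'
  rw [h4, mul_div_assoc, mul_comm (W : ℝ), div_mul_cancel₀ _ hW']
  simp only [one_div]

/-- the main term -/
private theorem TrQ_main (ι : Type) [Fintype ι] [DecidableEq ι] (W x : ℕ) (hW : 0 < W) (hWx : W ≤ x)
    (hWz : (W : ℝ) < z0 x) (hx : 0 < x) (m : ℝ) (X : ℝ) (hm : m = (Fintype.card ι : ℝ) - 1) :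
    X / (Nat.totient W : ℝ) * ∏ p ∈ PS W x, (1 - m * fn p) = Mn ι W x * (X / (x * A0 x)) := by
  have hpr : ∀ p ∈ PS W x, (2 : ℝ) ≤ p := by
    intro p hp
    simp only [PS, PA, Finset.mem_filter] at hp
    exact_mod_cast hp.1.2.1.two_le
  have h1 : ∏ p ∈ PS W x, (1 - (Fintype.card ι : ℝ) / p) =
      (∏ p ∈ PS W x, (1 - m * fn p)) * ∏ p ∈ PS W x, (1 - 1 / (p : ℝ)) := by
    rw [← Finset.prod_mul_distrib]
    apply Finset.prod_congr rfl
    intro p hp
    have h2 := hpr p hp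
    have h3 : (p : ℝ) - 1 ≠ 0 := by linarith only [h2]
    have h4 : (p : ℝ) ≠ 0 := by linarith only [h2]
    rw [hm]
    unfold fn
    field_simp
    ring
  have h2 : ∏ p ∈ PS W x, (1 - 1 / (p : ℝ)) ≠ 0 := by
    apply Finset.prod_ne_zero_iff.mpr
    intro p hp
    have h2 := hpr p hp
    have h3 : 1 / (p : ℝ) ≤ 1 / 2 := one_div_le_one_div_of_le (by norm_num) h2
    linarith only [h3]
  have h3 : (Nat.totient W : ℝ) ≠ 0 := by
    have := Nat.totient_pos.mpr hW
    exact_mod_cast this.ne'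
  have h4 : (W : ℝ) ≠ 0 := by exact_mod_cast hW.ne'
  have h5 : (x : ℝ) ≠ 0 := by exact_mod_cast hx.ne'
  unfold Mn
  rw [h1, TrQ_A0 W x hW hWx hWz]
  field_simp

open Classical in
theorem trQ (ι : Type) [Fintype ι] [DecidableEq ι] (h : ι → ℕ) (W b : ℕ) (hG : Good h W b) (i : ι) (B : ℕ) (M δ : ℝ)
    (hM : 0 ≤ M) (hδ : 0 < δ) (A : ℕ) : ∀ᶠ x : ℕ in atTop, ∀ a : ℕ,
      0 < a → (a : ℝ) ≤ (x : ℝ) ^ (7 / 10 : ℝ) → (∀ p : ℕ, p.Prime → p ∣ a → (x : ℝ) ^ δ < p) →
      ∀ c : Finset (ι × ℕ) → ℝ, Cls x B M ((x : ℝ) ^ (1 / 10 : ℝ)) c → (∀ Q, c Q ≠ 0 → ∀ e ∈ Q, e.1 ≠ i) →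
      |∑ n ∈ (AA h W b x).filter (fun n => Mk1 a (n + h i)), Ev (EX ι x) c (yy h n) -
          Mn ι W x * (DP (x / a) / (x * A0 x)) * Ev (EX ι x) c gi| ≤ x / (a * Real.log x ^ A) := by
  have hG' := hG
  obtain ⟨hW, hcopW, hgood⟩ := hG'
  set k : ℝ := (Fintype.card ι : ℝ) with hk
  have hk1 : 1 ≤ k := by
    have : 0 < Fintype.card ι := Fintype.card_pos_iff.mpr ⟨i⟩
    rw [hk]; exact_mod_cast this
  obtain ⟨B1, hB1⟩ := l1_le ι M hM
  have hbt := brun_tail k (A + 1 + B + B1) (1 / 50) (by linarith only [hk1]) (by norm_num)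
  have hinc := incons_le ι M hM (A + 1 + B)
  have hfg := fn_gi ι (A + 1 + B + B1)
  have herr := err_Q W (h i) hW (max 1 (k * (M + 1))) δ (le_max_left _ _) hδ (A + 1 + B)
  have hlogx : Tendsto (fun x : ℕ => Real.log (x : ℝ)) atTop atTop :=
    Real.tendsto_log_atTop.comp tendsto_natCast_atTop_atTop
  filter_upwards [hB1, hbt, hinc, hfg, herr, hlogx.eventually_ge_atTop 4, TrQ_z0_lt δ hδ,
    TrQ_z0_lt (3 / 10) (by norm_num), TrQ_z0_tendsto.eventually_gt_atTop (W : ℝ),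
    TrQ_z0_tendsto.eventually_ge_atTop 1, eventually_ge_atTop 3, eventually_ge_atTop W]
    with x hB1 hbt hinc hfg herr hlog hzδ hz3 hzW hz1 hx3 hWx
  intro a ha hax hap c hc hci
  obtain ⟨t, ht1, ht2⟩ := hbt
  have herr := herr a ha hax hap
  set L : ℝ := Real.log (x : ℝ) with hL
  have hx3' : (3 : ℝ) ≤ x := by exact_mod_cast hx3
  have hx0 : (0 : ℝ) < x := by linarith only [hx3']
  have hL0 : 0 < L := by linarith only [hlog]
  have haR : (0 : ℝ) < a := by exact_mod_cast ha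
  have hxa0 : (0 : ℝ) ≤ (x : ℝ) / a := by positivity
  set J : Finset ι := univ.erase i with hJ
  have hJc : (J.card : ℝ) = k - 1 := by
    rw [hJ, Finset.card_erase_of_mem (Finset.mem_univ i), Finset.card_univ]
    have : 1 ≤ Fintype.card ι := Fintype.card_pos_iff.mpr ⟨i⟩
    push_cast [Nat.cast_sub this]
    rw [hk]
  have hJk : (J.card : ℝ) ≤ k := by rw [hJc]; linarith only []
  have hPSpr : ∀ p ∈ PS W x, p.Prime := by
    intro p hp
    simp only [PS, PA, Finset.mem_filter] at hp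
    exact hp.1.2.1
  have hPXpr : ∀ p ∈ PX x, p.Prime := by
    intro p hp
    simp only [PX, Finset.mem_filter] at hp
    exact hp.2.1
  have hPSz : ∀ p ∈ PS W x, (p : ℝ) ≤ z0 x := by
    intro p hp
    simp only [PS, PA, Finset.mem_filter] at hp
    exact hp.1.2.2
  have hPXz : ∀ p ∈ PX x, z0 x < (p : ℝ) := by
    intro p hp
    simp only [PX, Finset.mem_filter] at hp
    exact hp.2.2
  have hdisj : Disjoint (PS W x) (PX x) := by
    rw [Finset.disjoint_left]
    intro p hp hp'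
    exact absurd (hPSz p hp) (not_le.mpr (hPXz p hp'))
  have hall : ∀ p ∈ PS W x ∪ PX x, p.Prime ∧ ¬ p ∣ W := by
    intro p hp
    rcases Finset.mem_union.mp hp with hp | hp
    · refine ⟨hPSpr p hp, ?_⟩
      simp only [PS, Finset.mem_filter] at hp
      exact hp.2
    · refine ⟨hPXpr p hp, fun hd => ?_⟩
      have h1 : p ≤ W := Nat.le_of_dvd hW hd
      have h2 : (p : ℝ) ≤ W := by exact_mod_cast h1
      have := hPXz p hp
      linarith only [hzW, h2, this]
  have hfn0 : ∀ p : ℕ, p.Prime → 0 ≤ fn p := fun p hp =>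
    (TrQ_inv_le_fn p hp).1.trans (TrQ_inv_le_fn p hp).2
  -- `a` is coprime to `W`
  have haW : Nat.Coprime a W := by
    rw [Nat.coprime_iff_gcd_eq_one]
    by_contra hne
    obtain ⟨p, hp, hpd⟩ := Nat.exists_prime_and_dvd hne
    have h1 : p ∣ a := hpd.trans (Nat.gcd_dvd_left _ _)
    have h2 : p ∣ W := hpd.trans (Nat.gcd_dvd_right _ _)
    have h3 := hap p hp h1
    have h4 : (p : ℝ) ≤ W := by exact_mod_cast Nat.le_of_dvd hW h2
    linarith only [hzδ, hzW, h3, h4]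
  obtain ⟨hDP0, hDP1⟩ := TrQ_DP (x / a)
  have hDPxa : DP (x / a) ≤ (x : ℝ) / a := hDP1.trans Nat.cast_div_le
  have hphi1 : (1 : ℝ) ≤ (Nat.totient W : ℝ) := by
    exact_mod_cast Nat.totient_pos.mpr hW
  set X0 : ℝ := DP (x / a) / (Nat.totient W : ℝ) with hX0
  have hX00 : 0 ≤ X0 := by positivity
  have hX01 : X0 ≤ (x : ℝ) / a := (div_le_self hDP0 hphi1).trans hDPxa
  have hD0 : 0 ≤ (x : ℝ) ^ (1 / 10 : ℝ) := Real.rpow_nonneg hx0.le _
  have heQ0 : ∀ Z : Finset ℕ, (∀ p ∈ Z, p.Prime) → 0 ≤ eQ W (h i) x a Z := by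
    intro Z hZ
    unfold eQ
    have h1 : 0 ≤ eB W 0 (x / a) Z := by
      unfold eB
      exact Real.iSup_nonneg fun _ => abs_nonneg _
    have h2 : 0 ≤ ∏ p ∈ Z, fn p := Finset.prod_nonneg fun p hp => hfn0 p (hZ p hp)
    have h3 : 0 ≤ DP (x / a) / (Nat.totient W : ℝ) * ∏ p ∈ Z, fn p := mul_nonneg hX00 h2
    split_ifs <;> positivity
  -- the counting hypothesis
  have hcount : ∀ Z ⊆ PS W x ∪ PX x, ∀ φ : ℕ → ι, (∀ p ∈ Z, φ p ∈ J) →
      |((((Ioc x (2 * x)).filter (fun n => n ≡ b [MOD W] ∧ Mk1 a (n + h i))).filter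
        (fun n => ∀ p ∈ Z, p ∣ n + h (φ p))).card : ℝ) - X0 * ∏ p ∈ Z, fn p| ≤
        max 0 (eQ W (h i) x a Z) :=
    fun Z hZ φ hφ => (count_Q h W b hG i x a ha haW Z (fun p hp => hall p (hZ hp)) φ
      (fun p hp => (Finset.mem_erase.mp (hφ p hp)).1)).trans (le_max_right _ _)
  have key := trAbs J h
    ((Ioc x (2 * x)).filter (fun n => n ≡ b [MOD W] ∧ Mk1 a (n + h i))) (PS W x) (PX x)
    hPSpr hPXpr hdisj
    (fun p hp i _ j _ hij => (hgood p (hall p hp).1 (hall p hp).2).2 i j hij)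
    fn
    (fun p hp => by
      have h1 := (hgood p (hall p hp).1 (hall p hp).2).1
      have h2 : k < p := by rw [hk]; exact_mod_cast h1
      have hp0 : (0 : ℝ) < (p : ℝ) - 1 := by linarith only [hk1, h2]
      refine ⟨hfn0 p (hall p hp).1, ?_⟩
      unfold fn
      rw [hJc, mul_one_div, div_le_one hp0]
      linarith only [h2])
    X0 hX00 (fun Z => max 0 (eQ W (h i) x a Z)) (fun _ => le_max_left _ _) hcount
    (by simpa using hcount ∅ (Finset.empty_subset _) (fun _ => i) (by simp))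
    t (L ^ B) M ((x : ℝ) ^ (1 / 10 : ℝ)) (z0 x) (by positivity) hM hD0 hz1 hPSz c
    (fun Q => ⟨(hc Q).1, fun hQ => ⟨fun e he => by
      have h1 := ((hc Q).2 hQ).1 he
      simp only [EX, Finset.mem_product] at h1
      exact Finset.mem_product.mpr ⟨Finset.mem_erase.mpr ⟨hci Q hQ e he, Finset.mem_univ _⟩, h1.2⟩,
      ((hc Q).2 hQ).2⟩⟩)
  -- identification of the terms
  have hAA : ((Ioc x (2 * x)).filter (fun n => n ≡ b [MOD W] ∧ Mk1 a (n + h i))).filter
      (fun n => ∀ j ∈ J, ∀ p ∈ PS W x, ¬ p ∣ n + h j) = (AA h W b x).filter (fun n => Mk1 a (n + h i)) := by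
    unfold AA
    ext n
    simp only [Finset.mem_filter, Finset.mem_Ioc]
    constructor
    · rintro ⟨⟨h1, h2, h3⟩, h4⟩
      refine ⟨⟨h1, h2, fun j p hp hd => ?_⟩, h3⟩
      by_cases hj : j = i
      · subst hj
        obtain ⟨hda, hpr⟩ := h3
        have hmul : a * ((n + h j) / a) = n + h j := Nat.mul_div_cancel' hda
        rw [← hmul] at hd
        rcases (hPSpr p hp).dvd_mul.mp hd with hd | hd
        · have h5 := hap p (hPSpr p hp) hd
          have h6 := hPSz p hp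
          linarith only [hzδ, h5, h6]
        · have h5 : p = (n + h j) / a := (Nat.prime_dvd_prime_iff_eq (hPSpr p hp) hpr).mp hd
          have h6 := hPSz p hp
          rw [← h5] at hmul
          have h7 : (x : ℝ) < a * p := by
            have : x < a * p := by omega
            exact_mod_cast this
          have h8 : (x : ℝ) ^ (7 / 10 : ℝ) * (x : ℝ) ^ (3 / 10 : ℝ) = x := by
            rw [← Real.rpow_add hx0]; norm_num
          have h9 : (a : ℝ) * p ≤ (x : ℝ) ^ (7 / 10 : ℝ) * (x : ℝ) ^ (3 / 10 : ℝ) :=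
            mul_le_mul hax (by linarith only [hz3, h6]) (by positivity) (by positivity)
          linarith only [h7, h8, h9]
      · exact h4 j (Finset.mem_erase.mpr ⟨hj, Finset.mem_univ _⟩) p hp hd
    · rintro ⟨⟨h1, h2, h3⟩, h4⟩
      exact ⟨⟨h1, h2, h4⟩, fun j _ p hp => h3 j p hp⟩
  have hsupp : ∀ Q, c Q ≠ 0 → Q ⊆ J ×ˢ PX x := by
    intro Q hQ e he
    have h1 := ((hc Q).2 hQ).1 he
    simp only [EX, Finset.mem_product] at h1
    exact Finset.mem_product.mpr ⟨Finset.mem_erase.mpr ⟨hci Q hQ e he, Finset.mem_univ _⟩, h1.2⟩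
  have hsub : J ×ˢ PX x ⊆ EX ι x := by
    unfold EX
    exact Finset.product_subset_product_left (Finset.subset_univ _)
  have hEv : ∀ y : ι × ℕ → ℝ, Ev (J ×ˢ PX x) c y = Ev (EX ι x) c y := fun y => (Ev_sup hsub hsupp y).symm
  have hmain := TrQ_main ι W x hW hWx hzW (by omega) (J.card : ℝ) (DP (x / a)) hJc
  rw [hAA] at key
  simp only [hEv] at key
  rw [hX0, hmain, ← hX0] at key
  -- tools
  have hEXpr : ∀ Q ∈ (EX ι x).powerset, ∀ e ∈ Q, (e : ι × ℕ).2.Prime := by
    intro Q hQ e he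
    have h1 := (Finset.mem_powerset.mp hQ) he
    simp only [EX, Finset.mem_product] at h1
    exact hPXpr _ h1.2
  have hprod0 : ∀ Q ∈ (EX ι x).powerset, 0 ≤ ∏ e ∈ Q, fn e.2 := fun Q hQ =>
    Finset.prod_nonneg fun e he => hfn0 _ (hEXpr Q hQ e he)
  have hterm : ∀ Q ∈ (EX ι x).powerset, |c Q| * ∏ e ∈ Q, fn e.2 ≤
      L ^ B * (M ^ Q.card * ∏ e ∈ Q, fn e.2) := by
    intro Q hQ
    rw [← mul_assoc]
    exact mul_le_mul_of_nonneg_right (hc Q).1 (hprod0 Q hQ)
  have hpowne : ∀ n : ℕ, L ^ n ≠ 0 := fun n => by positivity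
  have hsubp : (J ×ˢ PX x).powerset ⊆ (EX ι x).powerset := Finset.powerset_mono.mpr hsub
  -- (a)
  have h1a : ∑ Q ∈ (EX ι x).powerset, |c Q| * ∏ e ∈ Q, fn e.2 ≤ L ^ B * L ^ B1 := by
    calc ∑ Q ∈ (EX ι x).powerset, |c Q| * ∏ e ∈ Q, fn e.2
        ≤ ∑ Q ∈ (EX ι x).powerset, L ^ B * (M ^ Q.card * ∏ e ∈ Q, fn e.2) := Finset.sum_le_sum hterm
      _ = L ^ B * ∑ Q ∈ (EX ι x).powerset, (M ^ Q.card * ∏ e ∈ Q, fn e.2) := by rw [Finset.mul_sum]
      _ ≤ L ^ B * L ^ B1 := mul_le_mul_of_nonneg_left hB1 (by positivity)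
  have ha1 : X0 * (∑ Q ∈ (J ×ˢ PX x).powerset, |c Q| * ∏ e ∈ Q, fn e.2) *
      (2 * ((J.card : ℝ) * ∑ p ∈ PS W x, fn p) ^ (t + 1) / ((t + 1).factorial : ℝ)) ≤
      (x : ℝ) / a / L ^ (A + 1) := by
    have h1 : ∑ Q ∈ (J ×ˢ PX x).powerset, |c Q| * ∏ e ∈ Q, fn e.2 ≤ L ^ B * L ^ B1 := by
      refine le_trans ?_ h1a
      apply Finset.sum_le_sum_of_subset_of_nonneg hsubp
      intro Q hQ _
      exact mul_nonneg (abs_nonneg _) (hprod0 Q hQ)
    have h1' : 0 ≤ ∑ Q ∈ (J ×ˢ PX x).powerset, |c Q| * ∏ e ∈ Q, fn e.2 :=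
      Finset.sum_nonneg fun Q hQ => mul_nonneg (abs_nonneg _) (hprod0 Q (hsubp hQ))
    have h2' : 0 ≤ ∑ p ∈ PS W x, fn p := Finset.sum_nonneg (fun p hp => hfn0 p (hPSpr p hp))
    have h2 : ∑ p ∈ PS W x, fn p ≤ ∑ p ∈ PA x, fn p := by
      apply Finset.sum_le_sum_of_subset_of_nonneg
      · exact Finset.filter_subset _ _
      · intro p hp _
        simp only [PA, Finset.mem_filter] at hp
        exact hfn0 p hp.2.1
    have h3 : 2 * ((J.card : ℝ) * ∑ p ∈ PS W x, fn p) ^ (t + 1) / ((t + 1).factorial : ℝ) ≤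
        1 / L ^ (A + 1 + B + B1) := by
      refine le_trans ?_ ht2
      apply div_le_div_of_nonneg_right _ (by positivity)
      apply mul_le_mul_of_nonneg_left _ (by norm_num)
      apply pow_le_pow_left₀ (by positivity)
      exact mul_le_mul hJk h2 h2' (by linarith only [hk1])
    have h3' : 0 ≤ 2 * ((J.card : ℝ) * ∑ p ∈ PS W x, fn p) ^ (t + 1) / ((t + 1).factorial : ℝ) := by
      positivity
    calc _ ≤ (x : ℝ) / a * (L ^ B * L ^ B1) * (1 / L ^ (A + 1 + B + B1)) := by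
          apply mul_le_mul _ h3 h3' (by positivity)
          exact mul_le_mul hX01 h1 h1' hxa0
      _ = (x : ℝ) / a / L ^ (A + 1) := by
          have e1 : L ^ (A + 1 + B + B1) = L ^ (A + 1) * (L ^ B * L ^ B1) := by rw [pow_add, pow_add]; ring
          rw [e1]
          have := hpowne (A + 1)
          have := hpowne B
          have := hpowne B1
          field_simp
  -- (b)
  have hb1 : X0 * ∑ Q ∈ (J ×ˢ PX x).powerset.filter
      (fun Q : Finset (ι × ℕ) => ¬ Set.InjOn Prod.snd (Q : Set (ι × ℕ))), |c Q| * ∏ e ∈ Q, fn e.2 ≤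
      (x : ℝ) / a / L ^ (A + 1) := by
    have h1 : ∑ Q ∈ (J ×ˢ PX x).powerset.filter
        (fun Q : Finset (ι × ℕ) => ¬ Set.InjOn Prod.snd (Q : Set (ι × ℕ))), |c Q| * ∏ e ∈ Q, fn e.2 ≤
        L ^ B * (1 / L ^ (A + 1 + B)) := by
      calc _ ≤ ∑ Q ∈ (EX ι x).powerset.filter
            (fun Q : Finset (ι × ℕ) => ¬ Set.InjOn Prod.snd (Q : Set (ι × ℕ))), |c Q| * ∏ e ∈ Q, fn e.2 := by
            apply Finset.sum_le_sum_of_subset_of_nonneg (Finset.filter_subset_filter _ hsubp)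
            intro Q hQ _
            exact mul_nonneg (abs_nonneg _) (hprod0 Q (Finset.mem_filter.mp hQ).1)
        _ ≤ ∑ Q ∈ (EX ι x).powerset.filter
            (fun Q : Finset (ι × ℕ) => ¬ Set.InjOn Prod.snd (Q : Set (ι × ℕ))), L ^ B * (M ^ Q.card * ∏ e ∈ Q, fn e.2) := by
            apply Finset.sum_le_sum
            intro Q hQ
            exact hterm Q (Finset.mem_filter.mp hQ).1
        _ = L ^ B * ∑ Q ∈ (EX ι x).powerset.filter
            (fun Q : Finset (ι × ℕ) => ¬ Set.InjOn Prod.snd (Q : Set (ι × ℕ))), (M ^ Q.card * ∏ e ∈ Q, fn e.2) := by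
            rw [Finset.mul_sum]
        _ ≤ L ^ B * (1 / L ^ (A + 1 + B)) := by
            apply mul_le_mul_of_nonneg_left _ (by positivity)
            exact hinc
    have h1' : 0 ≤ ∑ Q ∈ (J ×ˢ PX x).powerset.filter
        (fun Q : Finset (ι × ℕ) => ¬ Set.InjOn Prod.snd (Q : Set (ι × ℕ))), |c Q| * ∏ e ∈ Q, fn e.2 := by
      apply Finset.sum_nonneg
      intro Q hQ
      exact mul_nonneg (abs_nonneg _) (hprod0 Q (hsubp (Finset.mem_filter.mp hQ).1))
    calc _ ≤ (x : ℝ) / a * (L ^ B * (1 / L ^ (A + 1 + B))) := mul_le_mul hX01 h1 h1' hxa0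
      _ = (x : ℝ) / a / L ^ (A + 1) := by
          have e1 : L ^ (A + 1 + B) = L ^ (A + 1) * L ^ B := by rw [pow_add]
          rw [e1]
          have := hpowne (A + 1)
          have := hpowne B
          field_simp
  -- (c)
  have hc1 : L ^ B * ∑ Z ∈ (PS W x ∪ PX x).powerset.filter
      (fun Z : Finset ℕ => ∏ p ∈ Z, (p : ℝ) ≤ (x : ℝ) ^ (1 / 10 : ℝ) * z0 x ^ (t + 1)),
        ((J.card : ℝ) * (M + 1)) ^ Z.card * max 0 (eQ W (h i) x a Z) ≤ (x : ℝ) / a / L ^ (A + 1) := by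
    have h3 : (x : ℝ) ^ (1 / 10 : ℝ) * z0 x ^ (t + 1) ≤ (x : ℝ) ^ (3 / 25 : ℝ) := by
      calc (x : ℝ) ^ (1 / 10 : ℝ) * z0 x ^ (t + 1) ≤ (x : ℝ) ^ (1 / 10 : ℝ) * (x : ℝ) ^ (1 / 50 : ℝ) :=
            mul_le_mul_of_nonneg_left ht1 hD0
        _ = (x : ℝ) ^ (3 / 25 : ℝ) := by
            rw [← Real.rpow_add hx0]; congr 1; norm_num
    have h4 : ∑ Z ∈ (PS W x ∪ PX x).powerset.filter
        (fun Z : Finset ℕ => ∏ p ∈ Z, (p : ℝ) ≤ (x : ℝ) ^ (1 / 10 : ℝ) * z0 x ^ (t + 1)),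
          ((J.card : ℝ) * (M + 1)) ^ Z.card * max 0 (eQ W (h i) x a Z) ≤
        ∑ Z ∈ (PS W x ∪ PX x).powerset.filter
          (fun Z : Finset ℕ => ∏ p ∈ Z, (p : ℝ) ≤ (x : ℝ) ^ (3 / 25 : ℝ)),
          max 1 (k * (M + 1)) ^ Z.card * eQ W (h i) x a Z := by
      have h5 : ∀ Z ∈ (PS W x ∪ PX x).powerset, 0 ≤ eQ W (h i) x a Z := fun Z hZ =>
        heQ0 Z fun p hp => (hall p (Finset.mem_powerset.mp hZ hp)).1
      calc _ ≤ ∑ Z ∈ (PS W x ∪ PX x).powerset.filter
            (fun Z : Finset ℕ => ∏ p ∈ Z, (p : ℝ) ≤ (x : ℝ) ^ (1 / 10 : ℝ) * z0 x ^ (t + 1)),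
            max 1 (k * (M + 1)) ^ Z.card * eQ W (h i) x a Z := by
            apply Finset.sum_le_sum
            intro Z hZ
            have h6 := h5 Z (Finset.mem_filter.mp hZ).1
            rw [max_eq_right h6]
            apply mul_le_mul_of_nonneg_right _ h6
            apply pow_le_pow_left₀ (by positivity)
            refine le_trans ?_ (le_max_right _ _)
            exact mul_le_mul_of_nonneg_right hJk (by linarith only [hM])
        _ ≤ _ := by
            apply Finset.sum_le_sum_of_subset_of_nonneg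
            · intro Z hZ
              rw [Finset.mem_filter] at hZ ⊢
              exact ⟨hZ.1, hZ.2.trans h3⟩
            · intro Z hZ _
              exact mul_nonneg (by positivity) (h5 Z (Finset.mem_filter.mp hZ).1)
    calc _ ≤ L ^ B * (x / (a * L ^ (A + 1 + B))) := mul_le_mul_of_nonneg_left (h4.trans herr) (by positivity)
      _ = (x : ℝ) / a / L ^ (A + 1) := by
          have e1 : L ^ (A + 1 + B) = L ^ (A + 1) * L ^ B := by rw [pow_add]
          rw [e1]
          have := hpowne (A + 1)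
          have := hpowne B
          field_simp
  -- (d) the change of density
  have hd1 : |Mn ι W x * (DP (x / a) / (x * A0 x)) * Ev (EX ι x) c (fun e => fn e.2) -
      Mn ι W x * (DP (x / a) / (x * A0 x)) * Ev (EX ι x) c gi| ≤ (x : ℝ) / a / L ^ (A + 1) := by
    rw [← mul_sub, abs_mul]
    have h1 : |Mn ι W x * (DP (x / a) / (x * A0 x))| ≤ (x : ℝ) / a := by
      rw [← hmain]
      have h2 : 0 ≤ ∏ p ∈ PS W x, (1 - (J.card : ℝ) * fn p) ∧
          ∏ p ∈ PS W x, (1 - (J.card : ℝ) * fn p) ≤ 1 := by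
        have h3 : ∀ p ∈ PS W x, 0 ≤ 1 - (J.card : ℝ) * fn p ∧ 1 - (J.card : ℝ) * fn p ≤ 1 := by
          intro p hp
          have h4 := hall p (Finset.mem_union_left _ hp)
          have h5 := (hgood p h4.1 h4.2).1
          have h6 : k < p := by rw [hk]; exact_mod_cast h5
          have hp0 : (0 : ℝ) < (p : ℝ) - 1 := by linarith only [hk1, h6]
          have h7 : (J.card : ℝ) * fn p ≤ 1 := by
            unfold fn
            rw [hJc, mul_one_div, div_le_one hp0]
            linarith only [h6]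
          have h8 : 0 ≤ (J.card : ℝ) * fn p := mul_nonneg (by positivity) (hfn0 p h4.1)
          constructor <;> linarith only [h7, h8]
        exact ⟨Finset.prod_nonneg fun p hp => (h3 p hp).1,
          Finset.prod_le_one (fun p hp => (h3 p hp).1) fun p hp => (h3 p hp).2⟩
      rw [← hX0, abs_mul, abs_of_nonneg hX00, abs_of_nonneg h2.1]
      calc X0 * ∏ p ∈ PS W x, (1 - (J.card : ℝ) * fn p) ≤ X0 * 1 := mul_le_mul_of_nonneg_left h2.2 hX00
        _ ≤ (x : ℝ) / a := by rw [mul_one]; exact hX01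
    have h2 : |Ev (EX ι x) c (fun e => fn e.2) - Ev (EX ι x) c gi| ≤
        L ^ B * L ^ B1 * (1 / L ^ (A + 1 + B + B1)) := by
      unfold Ev
      rw [← Finset.sum_sub_distrib]
      calc |∑ Q ∈ (EX ι x).powerset, (c Q * ∏ e ∈ Q, fn e.2 - c Q * ∏ e ∈ Q, gi e)|
          ≤ ∑ Q ∈ (EX ι x).powerset, |c Q * ∏ e ∈ Q, fn e.2 - c Q * ∏ e ∈ Q, gi e| :=
            Finset.abs_sum_le_sum_abs _ _
        _ ≤ ∑ Q ∈ (EX ι x).powerset, (|c Q| * ∏ e ∈ Q, fn e.2) * (1 / L ^ (A + 1 + B + B1)) := by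
            apply Finset.sum_le_sum
            intro Q hQ
            rw [← mul_sub, abs_mul, mul_assoc, mul_one_div]
            by_cases hcQ : c Q = 0
            · rw [hcQ]; simp
            · apply mul_le_mul_of_nonneg_left _ (abs_nonneg _)
              apply hfg Q (Finset.mem_powerset.mp hQ)
              refine ((hc Q).2 hcQ).2.trans ?_
              calc (x : ℝ) ^ (1 / 10 : ℝ) ≤ (x : ℝ) ^ (1 : ℝ) :=
                    Real.rpow_le_rpow_of_exponent_le (by linarith only [hx3']) (by norm_num)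
                _ = x := Real.rpow_one _
        _ = (∑ Q ∈ (EX ι x).powerset, |c Q| * ∏ e ∈ Q, fn e.2) * (1 / L ^ (A + 1 + B + B1)) := by
            rw [Finset.sum_mul]
        _ ≤ _ := mul_le_mul_of_nonneg_right h1a (by positivity)
    calc _ ≤ (x : ℝ) / a * (L ^ B * L ^ B1 * (1 / L ^ (A + 1 + B + B1))) :=
          mul_le_mul h1 h2 (abs_nonneg _) hxa0
      _ = (x : ℝ) / a / L ^ (A + 1) := by
          have e1 : L ^ (A + 1 + B + B1) = L ^ (A + 1) * (L ^ B * L ^ B1) := by rw [pow_add, pow_add]; ring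
          rw [e1]
          have := hpowne (A + 1)
          have := hpowne B
          have := hpowne B1
          field_simp
  have hfinal : 4 * ((x : ℝ) / a / L ^ (A + 1)) ≤ x / (a * L ^ A) := by
    rw [pow_succ, ← div_div, ← div_div]
    have h1 : 0 ≤ (x : ℝ) / a / L ^ A := by positivity
    rw [← mul_div_assoc, div_le_iff₀ hL0]
    nlinarith only [hlog, h1]
  have htri : ∀ u v w : ℝ, |u - w| ≤ |u - v| + |v - w| := fun u v w => abs_sub_le u v w
  refine (htri _ (Mn ι W x * (DP (x / a) / (x * A0 x)) * Ev (EX ι x) c (fun e => fn e.2)) _).trans ?_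
  calc _ ≤ ((x : ℝ) / a / L ^ (A + 1) + (x : ℝ) / a / L ^ (A + 1) + (x : ℝ) / a / L ^ (A + 1)) +
        (x : ℝ) / a / L ^ (A + 1) := by
        refine add_le_add (key.trans ?_) hd1
        exact add_le_add (add_le_add ha1 hb1) hc1
    _ = 4 * ((x : ℝ) / a / L ^ (A + 1)) := by ring
    _ ≤ _ := hfinal

end Pool.Agent.H76.ISE

end
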