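import Pool.Agent.H15.TB1.M40

/-! The parts of this file: H91.PK.SvC, H91.PK.SvB, H36.IS2.VR2, H36.IS2.StU2, H36.IS2.StL2, H36.IS2.HiB, H36.IS2.Tab2, H36.IS2.NumD, H36.IS2.ArrE. -/

section

/-!
PK SvC: Mertens for large primes.

From `Pool.Agent.H91.Gold.mertens_wz` (naturals 65536 ≤ w ≤ z: ∑_{w<p≤z} 1/p ≤ log(log z/log w) + 0.2295/log w).

* `mass_big`: for reals e^24 ≤ a ≤ z, every finite set P of primes in (a, z]:
   ∑_{p∈P} 1/(p-1) ≤ log(log z/log a) + 0.2296/log a.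
   (take w = ⌊a⌋, Z = ⌊z⌋; log w ≥ log a - 2e-10, log Z ≤ log z; ∑ (1/(p-1) - 1/p) ≤ ∑_{n > a} 1/(n(n-1)) ≤ 2/a ≤ 1e-10.
   The tiny errors fit: log(log a/log w) ≤ 1e-11·..., 0.0001/log a dominates all of them only if log a is not huge: note that
   all error terms are ≤ 10/a while 0.0001/log a ≥ 10/a for a ≥ e^24.)
* `V_ratio`: for 1 < a ≤ z and P with `BigP z P`:  Vg g1 {p ∈ P, p ≤ a} ≤ 1.01 · (log z/log a) · Vg g1 P.
   (with a' = max a e^24: if z ≤ e^24, P is empty. The primes of P in (a', z]: ∏ (1-g)^{-1} ≤ exp(∑ g + ∑ g²) ≤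
    (log z/log a') exp(0.2296/24 + 1e-9) ≤ 1.01 log z/log a.)
-/

set_option autoImplicit false

namespace Pool.Agent.H91.PK

open Finset

theorem SvC_exp24 : (10 : ℝ) ^ 10 ≤ Real.exp 24 := by
  have h1 := Real.exp_one_gt_d9
  have h2 : Real.exp 24 = Real.exp 1 ^ 24 := by
    rw [← Real.exp_nat_mul]
    norm_num
  rw [h2]
  calc (10 : ℝ) ^ 10 ≤ (2.7 : ℝ) ^ 24 := by norm_num
    _ ≤ Real.exp 1 ^ 24 := pow_le_pow_left₀ (by norm_num) (by linarith only [h1]) 24

/-- `log a / a` is small -/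
theorem SvC_log_div {a : ℝ} (ha : Real.exp 24 ≤ a) : Real.log a ≤ 0.00001 * a / 5 := by
  have h0 : 0 < a := (Real.exp_pos _).trans_le ha
  have h1 : Real.log a / a ≤ Real.log (Real.exp 24) / Real.exp 24 := by
    refine Real.log_div_self_antitoneOn ?_ ?_ ha
    · exact Real.exp_le_exp.mpr (by norm_num)
    · exact (Real.exp_le_exp.mpr (by norm_num : (1 : ℝ) ≤ 24)).trans ha
  rw [Real.log_exp] at h1
  have h2 : (24 : ℝ) / Real.exp 24 ≤ 24 / 10 ^ 10 :=
    div_le_div_of_nonneg_left (by norm_num) (by norm_num) SvC_exp24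
  have h3 : Real.log a / a ≤ 24 / 10 ^ 10 := h1.trans h2
  rw [div_le_iff₀ h0] at h3
  linarith only [h0, h3]

theorem SvC_tail (w Z : ℕ) (hw : 3 ≤ w) (hwZ : w ≤ Z) :
    ∑ n ∈ Ioc w Z, 1 / (((n : ℝ) - 1) * ((n : ℝ) - 2)) = 1 / ((w : ℝ) - 1) - 1 / ((Z : ℝ) - 1) := by
  induction Z, hwZ using Nat.le_induction with
  | base => simp
  | succ m hm ih =>
    have hm3 : (3 : ℝ) ≤ m := by exact_mod_cast hw.trans hm
    rw [← Finset.insert_Ioc_right_eq_Ioc_add_one (by omega), Finset.sum_insert (by simp), ih]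
    push_cast
    have hw3 : (3 : ℝ) ≤ w := by exact_mod_cast hw
    have h1 : (m : ℝ) - 1 ≠ 0 := by linarith only [hm3]
    have h2 : (m : ℝ) ≠ 0 := by linarith only [hm3]
    have h3 : (w : ℝ) - 1 ≠ 0 := by linarith only [hw3]
    rw [show (m : ℝ) + 1 - 1 = m by ring, show (m : ℝ) + 1 - 2 = m - 1 by ring]
    field_simp
    ring

theorem SvC_tail_le {w : ℕ} (hw : 3 ≤ w) (P : Finset ℕ) (hP : ∀ p ∈ P, w < p) :
    ∑ n ∈ P, 1 / (((n : ℝ) - 1) * ((n : ℝ) - 2)) ≤ 1 / ((w : ℝ) - 1) := by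
  set Z := max w (P.sup id) with hZ
  have hsub : P ⊆ Ioc w Z := by
    intro p hp
    rw [Finset.mem_Ioc]
    exact ⟨hP p hp, (Finset.le_sup (f := id) hp).trans (le_max_right _ _)⟩
  have hw' : (3 : ℝ) ≤ w := by exact_mod_cast hw
  have hwZ : w ≤ Z := le_max_left _ _
  have hZ' : (3 : ℝ) ≤ Z := by exact_mod_cast hw.trans hwZ
  have h1 : ∑ n ∈ P, 1 / (((n : ℝ) - 1) * ((n : ℝ) - 2))
      ≤ ∑ n ∈ Ioc w Z, 1 / (((n : ℝ) - 1) * ((n : ℝ) - 2)) := by
    refine Finset.sum_le_sum_of_subset_of_nonneg hsub fun n hn _ => ?_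
    rw [Finset.mem_Ioc] at hn
    have : (3 : ℝ) < n := by
      have : (w : ℝ) < n := by exact_mod_cast hn.1
      linarith only [hw', this]
    have h3 : 0 < (n : ℝ) - 1 := by linarith only [this]
    have h4 : 0 < (n : ℝ) - 2 := by linarith only [this]
    positivity
  refine h1.trans ?_
  rw [SvC_tail w Z hw hwZ]
  have : 0 ≤ 1 / ((Z : ℝ) - 1) := by
    apply div_nonneg (by norm_num)
    linarith only [hZ']
  linarith only [this]

/-- data for `a ≥ e^24`: `w = ⌊a⌋` -/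
theorem SvC_floor {a : ℝ} (ha : Real.exp 24 ≤ a) :
    65536 ≤ ⌊a⌋₊ ∧ 1 / ((⌊a⌋₊ : ℝ) - 1) ≤ 2 / a ∧ Real.log a - 2 / a ≤ Real.log (⌊a⌋₊ : ℝ) ∧
      Real.log (⌊a⌋₊ : ℝ) ≤ Real.log a := by
  have h10 : (10 : ℝ) ^ 10 ≤ a := SvC_exp24.trans ha
  have h0 : 0 < a := (Real.exp_pos _).trans_le ha
  have h1 : a < (⌊a⌋₊ : ℝ) + 1 := Nat.lt_floor_add_one a
  have h2 : (⌊a⌋₊ : ℝ) ≤ a := Nat.floor_le h0.le
  have hw : 65536 ≤ ⌊a⌋₊ := by
    apply Nat.le_floor
    push_cast
    linarith only [h10]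
  have hw0 : (65536 : ℝ) ≤ (⌊a⌋₊ : ℝ) := by exact_mod_cast hw
  refine ⟨hw, ?_, ?_, Real.log_le_log (by linarith only [h10, h1]) h2⟩
  · rw [div_le_div_iff₀ (by linarith only [h10, h1]) h0]
    linarith only [h10, h1]
  · have h3 : Real.log (a - 1) ≤ Real.log (⌊a⌋₊ : ℝ) := Real.log_le_log (by linarith only [h10]) (by linarith only [h1])
    have h4 : a - 1 = a * ((a - 1) / a) := by field_simp
    have h5 : 0 < (a - 1) / a := div_pos (by linarith only [h10]) h0
    rw [h4, Real.log_mul h0.ne' h5.ne'] at h3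
    have h6 := Real.one_sub_inv_le_log_of_pos h5
    have h7 : 1 - ((a - 1) / a)⁻¹ = -(1 / (a - 1)) := by
      rw [inv_div]
      have : a - 1 ≠ 0 := by linarith only [h10]
      field_simp
      ring
    have h8 : 1 / (a - 1) ≤ 2 / a := by
      rw [div_le_div_iff₀ (by linarith only [h10]) h0]
      linarith only [h10]
    linarith only [h3, h6, h7, h8]

theorem SvC_mass {a z : ℝ} (ha : Real.exp 24 ≤ a) (haz : a ≤ z) (P : Finset ℕ)
    (hP : ∀ p ∈ P, p.Prime ∧ a < p ∧ (p : ℝ) ≤ z) :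
    ∑ p ∈ P, g1 p + 4 * ∑ p ∈ P, 1 / (((p : ℝ) - 1) * ((p : ℝ) - 2))
      ≤ Real.log (Real.log z / Real.log a) + 0.2296 / Real.log a := by
  obtain ⟨hw, hw1, hw2, hw3⟩ := SvC_floor ha
  set w := ⌊a⌋₊ with hwdef
  set Z := ⌊z⌋₊ with hZdef
  have h0 : 0 < a := (Real.exp_pos _).trans_le ha
  have h10 : (10 : ℝ) ^ 10 ≤ a := SvC_exp24.trans ha
  have hwZ : w ≤ Z := Nat.floor_le_floor haz
  have hwR : (65536 : ℝ) ≤ w := by exact_mod_cast hw
  have hZR : (w : ℝ) ≤ Z := by exact_mod_cast hwZ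
  have hla : 24 ≤ Real.log a := by
    rw [Real.le_log_iff_exp_le h0]
    exact ha
  have h2a : 2 / a ≤ 1 := by
    rw [div_le_one h0]
    linarith only [h10]
  have hlw : 23 ≤ Real.log w := by linarith only [hw2, hla, h2a]
  have hlz : Real.log a ≤ Real.log z := Real.log_le_log h0 haz
  have hlZ : Real.log Z ≤ Real.log z := Real.log_le_log (by linarith only [hwR, hZR]) (Nat.floor_le (by linarith only [haz, h10]))
  have hlwZ : Real.log w ≤ Real.log Z := Real.log_le_log (by linarith only [hwR]) hZR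
  -- primes
  have hsub : P ⊆ Pool.Agent.H91.Gold.Pr w Z := by
    intro p hp
    obtain ⟨h1, h2, h3⟩ := hP p hp
    unfold Pool.Agent.H91.Gold.Pr
    rw [Finset.mem_filter, Finset.mem_Ioc]
    refine ⟨⟨?_, ?_⟩, h1⟩
    · rw [hwdef]
      exact (Nat.floor_lt h0.le).mpr h2
    · exact Nat.le_floor h3
  have hinv : ∑ p ∈ P, (1 : ℝ) / p ≤ Real.log (Real.log Z / Real.log w) + 0.2295 / Real.log w := by
    refine (Finset.sum_le_sum_of_subset_of_nonneg hsub fun p _ _ => by positivity).trans ?_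
    exact Pool.Agent.H91.Gold.mertens_wz hw hwZ
  have htail : ∑ p ∈ P, 1 / (((p : ℝ) - 1) * ((p : ℝ) - 2)) ≤ 2 / a := by
    refine (SvC_tail_le (w := w) (by omega) P ?_).trans hw1
    intro p hp
    exact (Nat.floor_lt h0.le).mpr (hP p hp).2.1
  have hg : ∑ p ∈ P, g1 p ≤ ∑ p ∈ P, (1 : ℝ) / p + ∑ p ∈ P, 1 / (((p : ℝ) - 1) * ((p : ℝ) - 2)) := by
    rw [← Finset.sum_add_distrib]
    refine Finset.sum_le_sum fun p hp => ?_
    have hp1 : (10 : ℝ) ^ 10 < p := lt_of_le_of_lt h10 (hP p hp).2.1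
    unfold g1
    have h1 : (0 : ℝ) < p := by linarith only [hp1]
    have h2 : 0 < (p : ℝ) - 1 := by linarith only [hp1]
    have h3 : 0 < (p : ℝ) - 2 := by linarith only [hp1]
    have h4 : 1 / ((p : ℝ) - 1) - 1 / p = 1 / (p * ((p : ℝ) - 1)) := by
      field_simp
      ring
    have h5 : 1 / (p * ((p : ℝ) - 1)) ≤ 1 / (((p : ℝ) - 1) * ((p : ℝ) - 2)) := by
      apply div_le_div_of_nonneg_left (by norm_num) (by positivity)
      linarith only [hp1]
    linarith only [h4, h5]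
  -- the logs
  have hl1 : Real.log (Real.log Z / Real.log w) ≤ Real.log (Real.log z / Real.log a) + (2 / a) := by
    have e1 : Real.log (Real.log Z / Real.log w) ≤ Real.log (Real.log z / Real.log w) := by
      apply Real.log_le_log (div_pos (by linarith only [hw2, hla, h2a, hlwZ]) (by linarith only [hw2, hla, h2a]))
      exact div_le_div_of_nonneg_right hlZ (by linarith only [hw2, hla, h2a])
    have e2 : Real.log z / Real.log w = (Real.log z / Real.log a) * (Real.log a / Real.log w) := by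
      have : Real.log a ≠ 0 := by linarith only [hla]
      have : Real.log w ≠ 0 := by linarith only [hw2, hla, h2a]
      field_simp
    rw [e2, Real.log_mul (div_pos (by linarith only [hla, hlz]) (by linarith only [hla])).ne' (div_pos (by linarith only [hla]) (by linarith only [hw2, hla, h2a])).ne'] at e1
    have e3 : Real.log (Real.log a / Real.log w) ≤ Real.log a / Real.log w - 1 :=
      Real.log_le_sub_one_of_pos (div_pos (by linarith only [hla]) (by linarith only [hw2, hla, h2a]))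
    have e4 : Real.log a / Real.log w - 1 ≤ 2 / a := by
      rw [sub_le_iff_le_add, div_le_iff₀ (by linarith only [hw2, hla, h2a])]
      nlinarith only [hw2, hw3, hla, h2a]
    linarith only [e1, e3, e4]
  have hl2 : 0.2295 / Real.log w ≤ 0.2295 / Real.log a + 2 / a := by
    rw [div_le_iff₀ (by linarith only [hw2, hla, h2a]), add_mul]
    have e1 : 0.2295 / Real.log a * Real.log w ≥ 0.2295 - 0.2295 / Real.log a * (2 / a) := by
      have : 0.2295 / Real.log a * Real.log w ≥ 0.2295 / Real.log a * (Real.log a - 2 / a) := by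
        apply mul_le_mul_of_nonneg_left hw2
        apply div_nonneg (by norm_num) (by linarith only [hla])
      have e2 : 0.2295 / Real.log a * (Real.log a - 2 / a) = 0.2295 - 0.2295 / Real.log a * (2 / a) := by
        have : Real.log a ≠ 0 := by linarith only [hla]
        field_simp
      linarith only [this, e2]
    have e3 : 0.2295 / Real.log a ≤ 1 := by
      rw [div_le_one (by linarith only [hla])]
      linarith only [hla]
    have e4 : 0 ≤ 2 / a := by positivity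
    nlinarith only [hw2, hw3, hla, h2a, e1, e3]
  have hfin : 14 * (1 / a) ≤ 0.0001 / Real.log a := by
    have := SvC_log_div ha
    rw [le_div_iff₀ (by linarith only [hla])]
    rw [mul_comm, ← mul_assoc, mul_one_div, div_le_iff₀ h0]
    linarith only [h10, this]
  have e5 : (2 : ℝ) / a = 2 * (1 / a) := by ring
  have e6 : (0.2296 : ℝ) / Real.log a = 0.2295 / Real.log a + 0.0001 / Real.log a := by ring
  rw [e6]
  rw [e5] at htail hl1 hl2
  linarith only [hinv, htail, hg, hl1, hl2, hfin]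

theorem SvC_nonneg {a : ℝ} (ha : Real.exp 24 ≤ a) (P : Finset ℕ) (hP : ∀ p ∈ P, a < (p : ℝ)) :
    0 ≤ ∑ p ∈ P, 1 / (((p : ℝ) - 1) * ((p : ℝ) - 2)) := by
  refine Finset.sum_nonneg fun p hp => ?_
  have hp1 : (10 : ℝ) ^ 10 < p := lt_of_le_of_lt (SvC_exp24.trans ha) (hP p hp)
  have h2 : 0 < (p : ℝ) - 1 := by linarith only [hp1]
  have h3 : 0 < (p : ℝ) - 2 := by linarith only [hp1]
  positivity

theorem mass_big {a z : ℝ} (ha : Real.exp 24 ≤ a) (haz : a ≤ z) (P : Finset ℕ)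
    (hP : ∀ p ∈ P, p.Prime ∧ a < p ∧ (p : ℝ) ≤ z) :
    ∑ p ∈ P, g1 p ≤ Real.log (Real.log z / Real.log a) + 0.2296 / Real.log a := by
  have h1 := SvC_mass ha haz P hP
  have h2 := SvC_nonneg ha P (fun p hp => (hP p hp).2.1)
  linarith only [h1, h2]

theorem SvC_g1_lt {p : ℕ} (hp : Real.exp 24 < p) : 0 < g1 p ∧ g1 p ≤ 1 / 4 := by
  have h1 : (10 : ℝ) ^ 10 < p := lt_of_le_of_lt SvC_exp24 hp
  unfold g1
  have h2 : 0 < (p : ℝ) - 1 := by linarith only [h1]
  refine ⟨by positivity, ?_⟩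
  rw [div_le_div_iff₀ h2 (by norm_num)]
  linarith only [h1]

theorem V_pos {z : ℝ} {P : Finset ℕ} (hP : BigP z P) : 0 < Vg g1 P := by
  unfold Vg
  refine Finset.prod_pos fun p hp => ?_
  have := SvC_g1_lt (hP p hp).2.1
  linarith only [this]

theorem SvC_one_sub {x : ℝ} (hx : 0 ≤ x) (hx2 : x ≤ 1 / 2) : Real.exp (-(x + 2 * x ^ 2)) ≤ 1 - x := by
  have h1 : 0 < 1 - x := by linarith only [hx2]
  rw [← Real.le_log_iff_exp_le h1]
  have h2 := Real.one_sub_inv_le_log_of_pos h1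
  have h3 : -(x + 2 * x ^ 2) ≤ 1 - (1 - x)⁻¹ := by
    rw [le_sub_iff_add_le, ← le_sub_iff_add_le', inv_le_iff_one_le_mul₀ h1]
    linarith only [mul_nonneg (mul_nonneg hx hx) (by linarith only [hx2] : 0 ≤ 1 / 2 - x)]
  linarith only [h2, h3]

theorem SvC_prod (g : ℕ → ℝ) (P : Finset ℕ) (hg : ∀ p ∈ P, 0 ≤ g p ∧ g p ≤ 1 / 2) :
    Real.exp (-(∑ p ∈ P, g p + 2 * ∑ p ∈ P, g p ^ 2)) ≤ Vg g P := by
  unfold Vg
  rw [Finset.mul_sum, ← Finset.sum_add_distrib, ← Finset.sum_neg_distrib, Real.exp_sum]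
  exact Finset.prod_le_prod (fun _ _ => (Real.exp_pos _).le)
    fun p hp => SvC_one_sub (hg p hp).1 (hg p hp).2

/-- lower bound for `Vg g1` -/
theorem V1_lower {a z : ℝ} (ha : Real.exp 24 ≤ a) (haz : a ≤ z) (P : Finset ℕ)
    (hP : ∀ p ∈ P, p.Prime ∧ a < p ∧ (p : ℝ) ≤ z) :
    Real.log a / Real.log z ≤ 1.01 * Vg g1 P := by
  have h0 : 0 < a := (Real.exp_pos _).trans_le ha
  have hla : 24 ≤ Real.log a := by
    rw [Real.le_log_iff_exp_le h0]
    exact ha
  have hlz : Real.log a ≤ Real.log z := Real.log_le_log h0 haz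
  have hm := SvC_mass ha haz P hP
  have hsq : ∑ p ∈ P, g1 p ^ 2 ≤ ∑ p ∈ P, 1 / (((p : ℝ) - 1) * ((p : ℝ) - 2)) := by
    refine Finset.sum_le_sum fun p hp => ?_
    have hp1 : (10 : ℝ) ^ 10 < p := lt_of_le_of_lt (SvC_exp24.trans ha) (hP p hp).2.1
    have h2 : 0 < (p : ℝ) - 1 := by linarith only [hp1]
    have h3 : 0 < (p : ℝ) - 2 := by linarith only [hp1]
    unfold g1
    rw [div_pow, one_pow, pow_two]
    apply div_le_div_of_nonneg_left (by norm_num) (by positivity)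
    linarith only [hp1]
  have hn := SvC_nonneg ha P (fun p hp => (hP p hp).2.1)
  have hV := SvC_prod g1 P (fun p hp => by
    have := SvC_g1_lt (lt_of_le_of_lt ha (hP p hp).2.1)
    exact ⟨this.1.le, by linarith only [this]⟩)
  have h1 : Real.exp (-(Real.log (Real.log z / Real.log a) + 0.2296 / 24)) ≤ Vg g1 P := by
    refine le_trans (Real.exp_le_exp.mpr ?_) hV
    have : (0.2296 : ℝ) / Real.log a ≤ 0.2296 / 24 :=
      div_le_div_of_nonneg_left (by norm_num) (by norm_num) hla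
    linarith only [hm, hsq, hn, this]
  rw [neg_add, Real.exp_add, Real.exp_neg, Real.exp_log (div_pos (by linarith only [hla, hlz]) (by linarith only [hla])), inv_div] at h1
  have h2 : (1 : ℝ) - 0.2296 / 24 ≤ Real.exp (-(0.2296 / 24)) := by
    have := Real.add_one_le_exp (-(0.2296 / 24) : ℝ)
    linarith only [this]
  have h3 : 0 < Real.log a / Real.log z := div_pos (by linarith only [hla]) (by linarith only [hla, hlz])
  nlinarith only [h1, h2, h3]

end Pool.Agent.H91.PK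

end

section

/-!
PK SvB: the Brun-Hooley base sieve for large primes.

For every real z ≥ 1 and every finite set P of primes in (e^24, z]:  U1 14 1.00015 and L1 14 0.99985.

Proof.  Blocks B_j = P ∩ (z^(2^-(j+1)), z^(2^-j)], j = 0,1,...; only finitely many are nonempty (as primes are > e^24);
b_j = 6 for j = 0,1,2 and b_j = 2j+2 for j ≥ 3.  By induction (from the bottom block up, or by strong induction on z,
proving for every n the statement  CHn(n, z): Ch g1 P (z^{σ_n}) (z^{σ_n+1}) (F_n) (G_n)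
 where in CHn(n, ·) the top block is treated with b_n, σ_n = ∑_{j≥n} b_j 2^{-(j-n)}:  σ_0 = 13 exactly
 (6+3+3/2 + ∑_{j≥3} (2j+2)2^{-j} = 10.5 + 2.5), σ_3 = 8·2.5 = 20, σ_n = b_n + σ_{n+1}/2; for n ≥ 3: σ_n = 4n+8.)
 Induct on m := number such that z ≤ exp(24·2^m): if z ≤ e^24, P = ∅ and `Ch_empty` + mono suffices.
 Step: P' = {p ∈ P, p ≤ z^{1/2}}, B = {p ∈ P, p > z^{1/2}}, apply `Ch.step` with the level of P' at index n+1:
  D = (z^{1/2})^{σ_{n+1}}, D' = (z^{1/2})^{σ_{n+1}+1}; D z^{b_n} = z^{σ_n}, D' z^{b_n} ≤ z^{σ_n+1}, D z^{b_n+1} = z^{σ_n+1}.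
 ε: es_{b+1} ≤ μ^{b+1}/(b+1)! with μ = ∑_{p∈B} g1 p ≤ log 2 + 0.2296/24 (+ if z^{1/2} < e^24 use a = e^24, ratio ≤ 2)
  ≤ 0.7028  (`mass_big`), and Vg g1 B ≥ exp(-μ - 1e-9) ≥ 0.4951 .
  b = 6: 0.7028^7/5040/0.4951 ≤ 3.4e-5;  b = 2n+2 (n ≥ 3): ε_n ≤ 0.7028^{2n+3}/(2n+3)!/0.4951, sum over n ≥ 3 ≤ 1e-6.
 So F ≤ (1+3.4e-5)^3 (1+1e-6) ≤ 1.00015·…, G ≤ 3·3.4e-5 + 1e-6 ≤ 1.1e-4.
-/

set_option autoImplicit false

namespace Pool.Agent.H91.PK

open Finset

theorem SvB_exp24 : (2 : ℝ) < Real.exp 24 := by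
  have := Real.add_one_le_exp (24 : ℝ)
  linarith only [this]

theorem SvB_g1 {z : ℝ} {P : Finset ℕ} (hP : BigP z P) : ∀ p ∈ P, 0 ≤ g1 p ∧ g1 p < 1 := by
  intro p hp
  have h1 := (hP p hp).2.1
  have h2 := SvB_exp24
  unfold g1
  constructor
  · apply div_nonneg zero_le_one
    linarith only [h1, h2]
  · rw [div_lt_one (by linarith only [h1, h2])]
    linarith only [h1, h2]

theorem SvB_B {z : ℝ} (hz : 1 ≤ z) {P : Finset ℕ} (hP : BigP z P) :
    ∑ p ∈ P.filter (fun p : ℕ => Real.sqrt z < (p : ℝ)), g1 p ≤ 0.7028 ∧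
      0.495 ≤ Vg g1 (P.filter (fun p : ℕ => Real.sqrt z < (p : ℝ))) := by
  set B := P.filter (fun p : ℕ => Real.sqrt z < (p : ℝ)) with hB
  rcases le_or_gt z (Real.exp 24) with h | h
  · have hB0 : B = ∅ := by
      rw [Finset.eq_empty_iff_forall_notMem]
      intro p hp
      have h1 := hP p (Finset.mem_filter.1 hp).1
      linarith only [h, h1]
    rw [hB0]
    unfold Vg
    simp
    norm_num
  · set a := max (Real.sqrt z) (Real.exp 24) with ha
    have ha24 : Real.exp 24 ≤ a := le_max_right _ _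
    have hsq : Real.sqrt z ≤ z := by
      rw [Real.sqrt_le_left (by linarith only [hz])]
      nlinarith only [hz]
    have haz : a ≤ z := max_le hsq h.le
    have hB' : ∀ p ∈ B, p.Prime ∧ a < p ∧ (p : ℝ) ≤ z := by
      intro p hp
      obtain ⟨h1, h2⟩ := Finset.mem_filter.1 hp
      obtain ⟨h3, h4, h5⟩ := hP p h1
      exact ⟨h3, max_lt h2 h4, h5⟩
    have ha0 : 0 < a := lt_of_lt_of_le (Real.exp_pos _) ha24
    have hloga : 24 ≤ Real.log a := by
      rw [Real.le_log_iff_exp_le ha0]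
      exact ha24
    have hlogz : Real.log z ≤ 2 * Real.log a := by
      have h1 : Real.log (Real.sqrt z) ≤ Real.log a :=
        Real.log_le_log (Real.sqrt_pos.2 (by linarith only [hz])) (le_max_left _ _)
      rw [Real.log_sqrt (by linarith only [hz])] at h1
      linarith only [h1]
    have hlogaz : Real.log a ≤ Real.log z := Real.log_le_log ha0 haz
    have hlogz0 : 0 < Real.log z := by linarith only [hloga, hlogaz]
    have h1 := mass_big ha24 haz B hB'
    have h2 := V1_lower ha24 haz B hB'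
    constructor
    · have h3 : Real.log (Real.log z / Real.log a) ≤ Real.log 2 := by
        apply Real.log_le_log (by positivity)
        rw [div_le_iff₀ (by linarith only [hloga])]
        exact hlogz
      have h4 := Real.log_two_lt_d9
      have h5 : 0.2296 / Real.log a ≤ 0.2296 / 24 := by
        apply div_le_div_of_nonneg_left (by norm_num) (by norm_num) hloga
      have h6 : (0.2296 : ℝ) / 24 ≤ 0.00957 := by norm_num
      norm_num at h4 ⊢
      linarith only [h1, h3, h5, h4]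
    · have h3 : 1 / 2 ≤ Real.log a / Real.log z := by
        rw [le_div_iff₀ hlogz0]
        linarith only [hlogz]
      norm_num at h2 ⊢
      linarith only [h3, h2]

/-- one step of the sieve -/
theorem SvB_step {z : ℝ} (hz : 1 ≤ z) {P : Finset ℕ} (hP : BigP z P) {σ F G ε : ℝ} {b : ℕ}
    (hb : Even b) (hσ : 0 ≤ σ) (hε0 : 0 ≤ ε)
    (hrec : Ch g1 (P.filter (fun p : ℕ => (p : ℝ) ≤ Real.sqrt z)) (Real.sqrt z ^ σ)
      (Real.sqrt z ^ (σ + 1)) F G)
    (hε : (0.7028 : ℝ) ^ (b + 1) / (b + 1).factorial ≤ ε * 0.495) :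
    Ch g1 P (z ^ (σ / 2 + b)) (z ^ (σ / 2 + b + 1)) (F * (1 + ε)) (G + ε) := by
  set P' := P.filter (fun p : ℕ => (p : ℝ) ≤ Real.sqrt z) with hP'
  set B := P.filter (fun p : ℕ => Real.sqrt z < (p : ℝ)) with hB
  obtain ⟨hm1, hm2⟩ := SvB_B hz hP
  rw [← hB] at hm1 hm2
  have hz0 : 0 < z := by linarith only [hz]
  have hs1 : 1 ≤ Real.sqrt z := Real.one_le_sqrt.2 hz
  have hg := SvB_g1 hP
  have hgB : ∀ p ∈ B, 0 ≤ g1 p ∧ g1 p < 1 := fun p hp => hg p (Finset.mem_filter.1 hp).1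
  have hgP : ∀ p ∈ P', 0 ≤ g1 p ∧ g1 p < 1 := fun p hp => hg p (Finset.mem_filter.1 hp).1
  have hdis : Disjoint B P' := by
    rw [Finset.disjoint_left]
    intro p h1 h2
    have h3 := (Finset.mem_filter.1 h1).2
    have h4 := (Finset.mem_filter.1 h2).2
    linarith only [h3, h4]
  have hes : Gold.es g1 B (b + 1) ≤ ε * Vg g1 B := by
    have h1 := Gold.es_le B (fun p hp => (hgB p hp).1) (b + 1)
    have h2 : (∑ p ∈ B, g1 p) ^ (b + 1) / ((b + 1).factorial : ℝ) ≤
        (0.7028 : ℝ) ^ (b + 1) / (b + 1).factorial := by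
      apply div_le_div_of_nonneg_right _ (by positivity)
      exact pow_le_pow_left₀ (Finset.sum_nonneg fun p hp => (hgB p hp).1) hm1 _
    have h3 : ε * 0.495 ≤ ε * Vg g1 B := mul_le_mul_of_nonneg_left hm2 hε0
    linarith only [hε, h1, h2, h3]
  have h := hrec.step hdis (Real.one_le_rpow hs1 hσ) hz
    (fun p hp => (hP p (Finset.mem_filter.1 hp).1).2.2) hb hgP hgB hes
  have hun : P' ∪ B = P := by
    ext p
    simp only [hP', hB, Finset.mem_union, Finset.mem_filter]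
    constructor
    · rintro (h | h) <;> exact h.1
    · intro h
      rcases le_or_gt (p : ℝ) (Real.sqrt z) with h1 | h1
      · exact Or.inl ⟨h, h1⟩
      · exact Or.inr ⟨h, h1⟩
  rw [hun] at h
  have hV : 0 < Vg g1 P := V_pos hP
  have hsq : ∀ x : ℝ, Real.sqrt z ^ x = z ^ (x / 2) := by
    intro x
    rw [Real.sqrt_eq_rpow, ← Real.rpow_mul hz0.le]
    congr 1
    ring
  refine h.mono hV ?_ ?_ le_rfl le_rfl
  · rw [hsq, ← Real.rpow_natCast z b, ← Real.rpow_add hz0]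
  · apply max_le
    · rw [hsq, ← Real.rpow_natCast z b, ← Real.rpow_add hz0]
      apply Real.rpow_le_rpow_of_exponent_le hz
      linarith only []
    · rw [hsq, ← Real.rpow_natCast z (b + 1), ← Real.rpow_add hz0]
      apply Real.rpow_le_rpow_of_exponent_le hz
      push_cast
      linarith only []

theorem SvB_fact_aux (x : ℝ) (N : ℕ) : x ^ (N + 2) / ((N + 2).factorial : ℝ) =
    x ^ N / (N.factorial : ℝ) * (x ^ 2 / (((N : ℝ) + 2) * ((N : ℝ) + 1))) := by
  have h1 : (N + 2).factorial = (N + 2) * ((N + 1) * N.factorial) := by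
    rw [Nat.factorial_succ, Nat.factorial_succ]
  rw [h1]
  push_cast
  have h2 : (N.factorial : ℝ) ≠ 0 := by positivity
  field_simp
  rw [pow_add]

theorem SvB_fact (k : ℕ) : (0.7028 : ℝ) ^ (2 * k + 8 + 1) / (2 * k + 8 + 1).factorial ≤
    (2.4e-7 * (1 / 2 : ℝ) ^ k) * 0.495 := by
  induction k with
  | zero =>
    norm_num [Nat.factorial]
  | succ k ih =>
    have h1 : 2 * (k + 1) + 8 + 1 = (2 * k + 8 + 1) + 2 := by ring
    rw [h1, SvB_fact_aux]
    set N := 2 * k + 8 + 1 with hN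
    have hN0 : (0 : ℝ) ≤ N := Nat.cast_nonneg N
    have h3 : (0.7028 : ℝ) ^ 2 / (((N : ℝ) + 2) * ((N : ℝ) + 1)) ≤ 1 / 2 := by
      rw [div_le_iff₀ (by positivity)]
      nlinarith only []
    have h4 : 0 ≤ (0.7028 : ℝ) ^ 2 / (((N : ℝ) + 2) * ((N : ℝ) + 1)) := by
      positivity
    have h5 : 0 ≤ (0.7028 : ℝ) ^ N / (N.factorial : ℝ) := by positivity
    calc _ ≤ (2.4e-7 * (1 / 2 : ℝ) ^ k) * 0.495 * (1 / 2) := by
          apply mul_le_mul ih h3 h4 (h5.trans ih)
      _ = _ := by ring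

theorem SvB_empty {z : ℝ} (hz : 1 ≤ z) {P : Finset ℕ} (hP : BigP z P) (h : z ≤ Real.exp 24)
    {σ F G : ℝ} (hσ : 0 ≤ σ) (hF : 1 ≤ F) (hG : 0 ≤ G) :
    Ch g1 P (z ^ σ) (z ^ (σ + 1)) F G := by
  have hP0 : P = ∅ := by
    rw [Finset.eq_empty_iff_forall_notMem]
    intro p hp
    have h1 := hP p hp
    linarith only [h, h1]
  subst hP0
  refine (Ch_empty g1).mono (V_pos hP) ?_ ?_ hF hG
  · exact Real.one_le_rpow hz hσ
  · exact Real.one_le_rpow hz (by linarith only [hσ])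

theorem SvB_bigP_filter {z : ℝ} {P : Finset ℕ} (hP : BigP z P) :
    BigP (Real.sqrt z) (P.filter (fun p : ℕ => (p : ℝ) ≤ Real.sqrt z)) := by
  intro p hp
  obtain ⟨h1, h2⟩ := Finset.mem_filter.1 hp
  exact ⟨(hP p h1).1, (hP p h1).2.1, h2⟩

/-- the lower blocks -/
theorem SvB_low (m : ℕ) : ∀ (k : ℕ) (z : ℝ), 1 ≤ z → z ≤ Real.exp (24 * 2 ^ m) →
    ∀ P, BigP z P → Ch g1 P (z ^ (4 * k + 20 : ℝ)) (z ^ ((4 * k + 20 : ℝ) + 1))
      (1 + 9.6e-7 * (1 / 2 : ℝ) ^ k) (4.8e-7 * (1 / 2 : ℝ) ^ k) := by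
  induction m with
  | zero =>
    intro k z hz hz' P hP
    apply SvB_empty hz hP (by simpa using hz') (by positivity)
    · have : (0 : ℝ) ≤ 9.6e-7 * (1 / 2 : ℝ) ^ k := by positivity
      linarith only [this]
    · positivity
  | succ m ih =>
    intro k z hz hz' P hP
    have hs1 : 1 ≤ Real.sqrt z := Real.one_le_sqrt.2 hz
    have hs2 : Real.sqrt z ≤ Real.exp (24 * 2 ^ m) := by
      rw [Real.sqrt_le_left (Real.exp_pos _).le, ← Real.exp_nat_mul]
      refine hz'.trans (Real.exp_le_exp.2 ?_)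
      rw [pow_succ]
      push_cast
      linarith only []
    have hrec := ih (k + 1) (Real.sqrt z) hs1 hs2 _ (SvB_bigP_filter hP)
    have hq : (0 : ℝ) < (1 / 2 : ℝ) ^ k := by positivity
    have hq1 : (1 / 2 : ℝ) ^ k ≤ 1 := pow_le_one₀ (by norm_num) (by norm_num)
    have h := SvB_step hz hP (b := 2 * k + 8) ⟨k + 4, by ring⟩ (by positivity) (by positivity)
      hrec (SvB_fact k)
    have hV : 0 < Vg g1 P := V_pos hP
    refine h.mono hV ?_ ?_ ?_ ?_
    · apply Real.rpow_le_rpow_of_exponent_le hz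
      push_cast
      linarith only []
    · apply Real.rpow_le_rpow_of_exponent_le hz
      push_cast
      linarith only []
    · rw [pow_succ]
      nlinarith only [hq, hq1]
    · rw [pow_succ]
      linarith only []

theorem SvB_exists (z : ℝ) : ∃ m : ℕ, z ≤ Real.exp (24 * 2 ^ m) := by
  obtain ⟨m, hm⟩ := pow_unbounded_of_one_lt z (by norm_num : (1 : ℝ) < 2)
  refine ⟨m, ?_⟩
  have h1 := Real.add_one_le_exp (24 * 2 ^ m : ℝ)
  have h2 : (0 : ℝ) < 2 ^ m := by positivity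
  linarith only [hm, h1, h2]

theorem SvB_l3 (z : ℝ) (hz : 1 ≤ z) (P : Finset ℕ) (hP : BigP z P) :
    Ch g1 P (z ^ (20 : ℝ)) (z ^ ((20 : ℝ) + 1)) (1 + 9.6e-7) 4.8e-7 := by
  obtain ⟨m, hm⟩ := SvB_exists z
  have h := SvB_low m 0 z hz hm P hP
  have h1 : (4 * ((0 : ℕ) : ℝ) + 20) = 20 := by push_cast; ring
  rw [h1, pow_zero, mul_one, mul_one] at h
  exact h

theorem SvB_up (σ F G : ℝ) (hσ : 0 ≤ σ)
    (h : ∀ z : ℝ, 1 ≤ z → ∀ P : Finset ℕ, BigP z P → Ch g1 P (z ^ σ) (z ^ (σ + 1)) F G)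
    (z : ℝ) (hz : 1 ≤ z) (P : Finset ℕ) (hP : BigP z P) :
    Ch g1 P (z ^ (σ / 2 + 6)) (z ^ (σ / 2 + 6 + 1)) (F * (1 + 3.4e-5)) (G + 3.4e-5) := by
  have hs1 : 1 ≤ Real.sqrt z := Real.one_le_sqrt.2 hz
  have h1 := SvB_step hz hP (b := 6) (ε := 3.4e-5) ⟨3, rfl⟩ hσ (by norm_num)
    (h _ hs1 _ (SvB_bigP_filter hP)) (by norm_num [Nat.factorial])
  push_cast at h1
  exact h1

theorem SvB_main (z : ℝ) (hz : 1 ≤ z) (P : Finset ℕ) (hP : BigP z P) :
    Ch g1 P (z ^ (13 : ℝ)) (z ^ (14 : ℝ)) 1.00015 0.00015 := by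
  have h2 := SvB_up 20 _ _ (by norm_num) SvB_l3
  have h2' : ∀ z : ℝ, 1 ≤ z → ∀ P : Finset ℕ, BigP z P → Ch g1 P (z ^ (16 : ℝ))
      (z ^ ((16 : ℝ) + 1)) ((1 + 9.6e-7) * (1 + 3.4e-5)) (4.8e-7 + 3.4e-5) := by
    intro z hz P hP
    have := h2 z hz P hP
    norm_num at this ⊢
    exact this
  have h1 := SvB_up 16 _ _ (by norm_num) h2'
  have h1' : ∀ z : ℝ, 1 ≤ z → ∀ P : Finset ℕ, BigP z P → Ch g1 P (z ^ (14 : ℝ))
      (z ^ ((14 : ℝ) + 1)) ((1 + 9.6e-7) * (1 + 3.4e-5) * (1 + 3.4e-5))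
      (4.8e-7 + 3.4e-5 + 3.4e-5) := by
    intro z hz P hP
    have := h1 z hz P hP
    norm_num at this ⊢
    exact this
  have h0 := SvB_up 14 _ _ (by norm_num) h1' z hz P hP
  refine h0.mono (V_pos hP) ?_ ?_ ?_ ?_
  · apply Real.rpow_le_rpow_of_exponent_le hz
    norm_num
  · apply Real.rpow_le_rpow_of_exponent_le hz
    norm_num
  · norm_num
  · norm_num

theorem U1_base : U1 14 1.00015 := by
  intro z hz P hP
  have h := (SvB_main z hz P hP).up
  refine h.mono ?_ le_rfl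
  apply Real.rpow_le_rpow_of_exponent_le hz
  norm_num

theorem L1_base : L1 14 0.99985 := by
  intro z hz P hP
  have h := (SvB_main z hz P hP).lo (by norm_num)
  refine h.mono le_rfl ?_
  apply mul_le_mul_of_nonneg_right _ (V_pos hP).le
  norm_num

end Pool.Agent.H91.PK

end

section

/-!
# ISP VR2: Mertens ratio for primes > e^2400 with the constant 1.0001

Copy of `V_ratio` (and `V2_ratio`, `V1_lower`, `V_pos`) of Pool/Agent/H91/PK/SvC.lean with 24 replaced by 2400 and 1.01 by 1.0001: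
`mass_big` (valid for a ≥ e^24) gives for a ≥ e^2400: ∑_{a < p ≤ z} 1/(p-1) ≤ log(log z/log a) + 0.2296/log a ≤ log(log z/log a) + 0.0000957,
and ∑ g1² ≤ tiny, so ∏ (1 - g1)^{-1} ≤ (log z/log a) e^{0.0000958} ≤ 1.0001 log z/log a.
`BigP2 z P → BigP z P`.
-/

set_option autoImplicit false

namespace Pool.Agent.H36.IS2

open Finset Filter Pool.Agent.H36.IS

open Pool.Agent.H91.PK (ev Vg ZO Wt Up Lo g1 BigP U1 L1)

private theorem VR2_exp : Real.exp 24 ≤ Real.exp 2400 := Real.exp_le_exp.mpr (by norm_num)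

theorem BigP2.big {z : ℝ} {P : Finset ℕ} (h : BigP2 z P) : BigP z P := by
  intro p hp
  exact ⟨(h p hp).1, lt_of_le_of_lt VR2_exp (h p hp).2.1, (h p hp).2.2⟩

/-- lower bound for `Vg g1` -/
private theorem VR2_lower {a z : ℝ} (ha : Real.exp 2400 ≤ a) (haz : a ≤ z) (P : Finset ℕ)
    (hP : ∀ p ∈ P, p.Prime ∧ a < p ∧ (p : ℝ) ≤ z) :
    Real.log a / Real.log z ≤ 1.0001 * Vg g1 P := by
  have h0 : 0 < a := (Real.exp_pos _).trans_le ha
  have hla : 2400 ≤ Real.log a := by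
    rw [Real.le_log_iff_exp_le h0]
    exact ha
  have ha24 : Real.exp 24 ≤ a := VR2_exp.trans ha
  have hlz : Real.log a ≤ Real.log z := Real.log_le_log h0 haz
  have hm := Pool.Agent.H91.PK.SvC_mass ha24 haz P hP
  have hsq : ∑ p ∈ P, g1 p ^ 2 ≤ ∑ p ∈ P, 1 / (((p : ℝ) - 1) * ((p : ℝ) - 2)) := by
    refine Finset.sum_le_sum fun p hp => ?_
    have hp1 : (10 : ℝ) ^ 10 < p :=
      lt_of_le_of_lt (Pool.Agent.H91.PK.SvC_exp24.trans ha24) (hP p hp).2.1
    have h2 : 0 < (p : ℝ) - 1 := by linarith only [hp1]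
    have h3 : 0 < (p : ℝ) - 2 := by linarith only [hp1]
    unfold g1
    rw [div_pow, one_pow, pow_two]
    apply div_le_div_of_nonneg_left (by norm_num) (by positivity)
    linarith only [hp1]
  have hn := Pool.Agent.H91.PK.SvC_nonneg ha24 P (fun p hp => (hP p hp).2.1)
  have hV := Pool.Agent.H91.PK.SvC_prod g1 P (fun p hp => by
    have := Pool.Agent.H91.PK.SvC_g1_lt (lt_of_le_of_lt ha24 (hP p hp).2.1)
    exact ⟨this.1.le, by linarith only [this]⟩)
  have h1 : Real.exp (-(Real.log (Real.log z / Real.log a) + 0.2296 / 2400)) ≤ Vg g1 P := by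
    refine le_trans (Real.exp_le_exp.mpr ?_) hV
    have : (0.2296 : ℝ) / Real.log a ≤ 0.2296 / 2400 :=
      div_le_div_of_nonneg_left (by norm_num) (by norm_num) hla
    linarith only [hm, hsq, hn, this]
  rw [neg_add, Real.exp_add, Real.exp_neg, Real.exp_log (div_pos (by linarith only [hla, hlz]) (by linarith only [hla])),
    inv_div] at h1
  have h2 : (1 : ℝ) - 0.2296 / 2400 ≤ Real.exp (-(0.2296 / 2400)) := by
    have := Real.add_one_le_exp (-(0.2296 / 2400) : ℝ)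
    linarith only [this]
  have h3 : 0 < Real.log a / Real.log z := div_pos (by linarith only [hla]) (by linarith only [hla, hlz])
  nlinarith only [h1, h2, h3]

theorem V_ratio2 {a z : ℝ} (ha : 1 < a) (haz : a ≤ z) (P : Finset ℕ) (hP : BigP2 z P) :
    Vg g1 (P.filter (fun p : ℕ => (p : ℝ) ≤ a)) ≤ 1.0001 * (Real.log z / Real.log a) * Vg g1 P := by
  have hla : 0 < Real.log a := Real.log_pos ha
  have hlz : Real.log a ≤ Real.log z := Real.log_le_log (by linarith only [ha]) haz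
  have hza : 1 ≤ Real.log z / Real.log a := by
    rw [one_le_div hla]
    exact hlz
  by_cases hz : z ≤ Real.exp 2400
  · have hPe : P = ∅ := by
      rw [Finset.eq_empty_iff_forall_notMem]
      intro p hp
      have := hP p hp
      linarith only [hz, this]
    subst hPe
    simp only [Finset.filter_empty, Vg, Finset.prod_empty, mul_one]
    linarith only [hza]
  · push Not at hz
    set a' := max a (Real.exp 2400) with ha'
    have ha'z : a' ≤ z := max_le haz hz.le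
    have ha'24 : Real.exp 2400 ≤ a' := le_max_right _ _
    have ha'pos : 0 < a' := (Real.exp_pos _).trans_le ha'24
    have hfil : P.filter (fun p : ℕ => (p : ℝ) ≤ a) = P.filter (fun p : ℕ => (p : ℝ) ≤ a') := by
      apply Finset.filter_congr
      intro p hp
      constructor
      · intro h
        exact h.trans (le_max_left _ _)
      · intro h
        rcases le_max_iff.mp h with h | h
        · exact h
        · exact absurd h (not_le.mpr (hP p hp).2.1)
    rw [hfil]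
    have hsplit : Vg g1 P = Vg g1 (P.filter (fun p : ℕ => (p : ℝ) ≤ a'))
        * Vg g1 (P.filter (fun p : ℕ => ¬ (p : ℝ) ≤ a')) := by
      unfold Vg
      rw [Finset.prod_filter_mul_prod_filter_not]
    have hlow := VR2_lower ha'24 ha'z (P.filter (fun p : ℕ => ¬ (p : ℝ) ≤ a')) (by
      intro p hp
      rw [Finset.mem_filter, not_le] at hp
      exact ⟨(hP p hp.1).1, hp.2, (hP p hp.1).2.2⟩)
    have hpos : 0 < Vg g1 (P.filter (fun p : ℕ => (p : ℝ) ≤ a')) := by
      apply Pool.Agent.H91.PK.V_pos (z := z)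
      intro p hp
      exact hP.big p (Finset.mem_filter.mp hp).1
    rw [hsplit]
    have hla' : Real.log a ≤ Real.log a' := Real.log_le_log (by linarith only [ha]) (le_max_left _ _)
    have hlz0 : 0 < Real.log z := by linarith only [hla, hlz]
    have hkey : 1 ≤ 1.0001 * (Real.log z / Real.log a) *
        Vg g1 (P.filter (fun p : ℕ => ¬ (p : ℝ) ≤ a')) := by
      have e1 : Real.log a / Real.log z ≤
          1.0001 * Vg g1 (P.filter (fun p : ℕ => ¬ (p : ℝ) ≤ a')) :=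
        (div_le_div_of_nonneg_right hla' hlz0.le).trans hlow
      have e2 : (Real.log z / Real.log a) * (Real.log a / Real.log z) = 1 := by
        field_simp
      calc (1 : ℝ) = (Real.log z / Real.log a) * (Real.log a / Real.log z) := e2.symm
        _ ≤ (Real.log z / Real.log a) *
            (1.0001 * Vg g1 (P.filter (fun p : ℕ => ¬ (p : ℝ) ≤ a'))) :=
          mul_le_mul_of_nonneg_left e1 (by linarith only [hza])
        _ = _ := by ring
    calc Vg g1 (P.filter (fun p : ℕ => (p : ℝ) ≤ a'))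
        = Vg g1 (P.filter (fun p : ℕ => (p : ℝ) ≤ a')) * 1 := (mul_one _).symm
      _ ≤ Vg g1 (P.filter (fun p : ℕ => (p : ℝ) ≤ a')) * (1.0001 * (Real.log z / Real.log a)
          * Vg g1 (P.filter (fun p : ℕ => ¬ (p : ℝ) ≤ a'))) :=
          mul_le_mul_of_nonneg_left hkey hpos.le
      _ = _ := by ring

end Pool.Agent.H36.IS2

end

section

/-!
# ISP StU2: the Buchstab step for the upper function (primes > e^2400)

Copy of `U1_step` (and the private lemmas) of Pool/Agent/H91/PK/SvT.lean with BigP, U1, L1, V_ratio, 1.01 replaced by BigP2, U2, L2,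
V_ratio2, 1.0001.  Also the trivial extension (copy of `U1_ext`), monotonicity, and `U1 s F → U2 s F`.
-/

set_option autoImplicit false

namespace Pool.Agent.H36.IS2

open Finset Filter Pool.Agent.H36.IS

open Pool.Agent.H91.PK (ev Vg ZO Wt Up Lo g1 BigP U1 L1)

open Pool.Agent.H91.PK (V_pos Lo_zero Up_buchstab sum_g_V)

theorem U2.mono {s s' F F' : ℝ} (h : U2 s F) (hs : s ≤ s') (hF : F ≤ F') : U2 s' F' := by
  intro z hz P hP
  exact (h z hz P hP).mono (Real.rpow_le_rpow_of_exponent_le hz hs)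
    (mul_le_mul_of_nonneg_right hF (V_pos hP.big).le)

theorem U2_of_U1 {s F : ℝ} (h : U1 s F) : U2 s F := by
  intro z hz P hP
  exact h z hz P hP.big

private theorem StU2_g1_nonneg {z : ℝ} {P : Finset ℕ} (hP : BigP2 z P) : ∀ p ∈ P, 0 ≤ g1 p := by
  intro p hp
  have h1 : (1 : ℝ) ≤ p := by exact_mod_cast (hP p hp).1.one_le
  unfold g1
  apply div_nonneg zero_le_one
  linarith only [h1]

private theorem StU2_one {z : ℝ} {P : Finset ℕ} (hP : BigP2 z P) : ∀ p ∈ P, 1 ≤ p :=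
  fun p hp => (hP p hp).1.one_le

private theorem StU2_empty {P : Finset ℕ} (hP : BigP2 1 P) : P = ∅ := by
  rw [Finset.eq_empty_iff_forall_notMem]
  intro p hp
  obtain ⟨h1, h2, h3⟩ := hP p hp
  have h4 : (2 : ℝ) ≤ p := by exact_mod_cast h1.two_le
  linarith only [h3, h4]

private theorem StU2_filter_le {z a : ℝ} {P : Finset ℕ} (hP : BigP2 z P) :
    BigP2 a (P.filter (fun p : ℕ => (p : ℝ) ≤ a)) := by
  intro p hp
  rw [Finset.mem_filter] at hp
  exact ⟨(hP p hp.1).1, (hP p hp.1).2.1, hp.2⟩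

private theorem StU2_filter_lt {z : ℝ} {P : Finset ℕ} (hP : BigP2 z P) (q : ℕ) :
    BigP2 q (P.filter (fun p => p < q)) := by
  intro p hp
  rw [Finset.mem_filter] at hp
  exact ⟨(hP p hp.1).1, (hP p hp.1).2.1, by exact_mod_cast hp.2.le⟩

/-- the index of the interval containing `q` -/
private noncomputable def StU2_idx (n : ℕ) (a : ℕ → ℝ) (q : ℕ) : ℕ :=
  open Classical in ((range n).filter (fun j => a (j + 1) < (q : ℝ))).card

private theorem StU2_mono {n : ℕ} {a : ℕ → ℝ} (ha : ∀ i < n, a i ≤ a (i + 1)) :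
    ∀ i j, i ≤ j → j ≤ n → a i ≤ a j := by
  intro i j hij
  induction j, hij using Nat.le_induction with
  | base => intro _; exact le_rfl
  | succ j hj ih => intro h; exact (ih (by omega)).trans (ha j (by omega))

private theorem StU2_idx_eq {n : ℕ} {a : ℕ → ℝ} (ha : ∀ i < n, a i ≤ a (i + 1)) {q k : ℕ} (hk : k < n)
    (h1 : a k < (q : ℝ)) (h2 : (q : ℝ) ≤ a (k + 1)) : StU2_idx n a q = k := by
  classical
  unfold StU2_idx
  have : ((range n).filter (fun j => a (j + 1) < (q : ℝ))) = range k := by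
    ext j
    simp only [Finset.mem_filter, Finset.mem_range]
    constructor
    · rintro ⟨hj, hj2⟩
      by_contra hcon
      have := StU2_mono ha (k + 1) (j + 1) (by omega) (by omega)
      linarith only [h2, hj2, this]
    · intro hj
      refine ⟨by omega, ?_⟩
      have := StU2_mono ha (j + 1) k (by omega) (by omega)
      linarith only [h1, this]
  rw [this, Finset.card_range]

private theorem StU2_exists {n : ℕ} {a : ℕ → ℝ} {q : ℝ} (h1 : a 0 < q) (h2 : q ≤ a n) :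
    ∃ k < n, a k < q ∧ q ≤ a (k + 1) := by
  induction n with
  | zero => linarith only [h1, h2]
  | succ n ih =>
    rcases le_or_gt q (a n) with h | h
    · obtain ⟨k, hk, hk1, hk2⟩ := ih h
      exact ⟨k, by omega, hk1, hk2⟩
    · exact ⟨n, by omega, h, h2⟩

private theorem StU2_sum {n : ℕ} {a : ℕ → ℝ} (ha : ∀ i < n, a i ≤ a (i + 1)) (g : ℕ → ℝ) (P : Finset ℕ)
    (f : ℕ → ℝ) : ∀ k ≤ n,
    ∑ q ∈ P.filter (fun q : ℕ => a 0 < (q : ℝ) ∧ (q : ℝ) ≤ a k),
      g q * (f (StU2_idx n a q) * Vg g (P.filter (fun p => p < q))) =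
    ∑ i ∈ range k, f i * (Vg g (P.filter (fun p : ℕ => (p : ℝ) ≤ a i)) -
      Vg g (P.filter (fun p : ℕ => (p : ℝ) ≤ a (i + 1)))) := by
  intro k
  induction k with
  | zero =>
    intro _
    rw [Finset.range_zero, Finset.sum_empty]
    apply Finset.sum_eq_zero
    intro q hq
    rw [Finset.mem_filter] at hq
    linarith only [hq]
  | succ k ih =>
    intro hk
    rw [Finset.sum_range_succ, ← ih (by omega), ← sum_g_V P (ha k (by omega)), Finset.mul_sum]
    have hsplit : P.filter (fun q : ℕ => a 0 < (q : ℝ) ∧ (q : ℝ) ≤ a (k + 1)) =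
        P.filter (fun q : ℕ => a 0 < (q : ℝ) ∧ (q : ℝ) ≤ a k) ∪
        P.filter (fun q : ℕ => a k < (q : ℝ) ∧ (q : ℝ) ≤ a (k + 1)) := by
      ext q
      simp only [Finset.mem_filter, Finset.mem_union]
      have h0k := StU2_mono ha 0 k (by omega) (by omega)
      have hk1 := ha k (by omega)
      constructor
      · rintro ⟨h1, h2, h3⟩
        rcases le_or_gt (q : ℝ) (a k) with h | h
        · exact Or.inl ⟨h1, h2, h⟩
        · exact Or.inr ⟨h1, h, h3⟩
      · rintro (⟨h1, h2, h3⟩ | ⟨h1, h2, h3⟩)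
        · exact ⟨h1, h2, h3.trans hk1⟩
        · exact ⟨h1, lt_of_le_of_lt h0k h2, h3⟩
    have hdisj : Disjoint (P.filter (fun q : ℕ => a 0 < (q : ℝ) ∧ (q : ℝ) ≤ a k))
        (P.filter (fun q : ℕ => a k < (q : ℝ) ∧ (q : ℝ) ≤ a (k + 1))) := by
      rw [Finset.disjoint_left]
      intro q h1 h2
      rw [Finset.mem_filter] at h1 h2
      linarith only [h1, h2]
    rw [hsplit, Finset.sum_union hdisj]
    congr 1
    apply Finset.sum_congr rfl
    intro q hq
    rw [Finset.mem_filter] at hq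
    rw [StU2_idx_eq ha (by omega : k < n) hq.2.1 hq.2.2]
    ring

private theorem StU2_abel (F₀ : ℝ) (f V : ℕ → ℝ) (k : ℕ) :
    F₀ * V 0 - ∑ i ∈ range (k + 1), f i * (V i - V (i + 1)) =
      (F₀ - f 0) * V 0 + ∑ i ∈ range k, (f i - f (i + 1)) * V (i + 1) + f k * V (k + 1) := by
  induction k with
  | zero => simp; ring
  | succ k ih =>
    rw [Finset.sum_range_succ, Finset.sum_range_succ (fun i => (f i - f (i + 1)) * V (i + 1))]
    have : F₀ * V 0 - (∑ i ∈ range (k + 1), f i * (V i - V (i + 1)) +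
        f (k + 1) * (V (k + 1) - V (k + 1 + 1))) =
        (F₀ * V 0 - ∑ i ∈ range (k + 1), f i * (V i - V (i + 1))) -
        f (k + 1) * (V (k + 1) - V (k + 1 + 1)) := by ring
    rw [this, ih]
    ring

private theorem StU2_anti {n : ℕ} {t : ℕ → ℝ} (ht : ∀ i < n, t (i + 1) < t i) :
    ∀ i ≤ n, t n ≤ t i := by
  intro i hi
  induction n, hi using Nat.le_induction with
  | base => exact le_rfl
  | succ n hn ih =>
    exact (ht n (by omega)).le.trans (ih (fun j hj => ht j (by omega)))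

/-- the nodes -/
private theorem StU2_nodes {n : ℕ} {t : ℕ → ℝ} (ht : ∀ i < n, t (i + 1) < t i) (ht0 : 0 < t n)
    {z : ℝ} (hz : 1 < z) :
    (∀ i ≤ n, 0 < t i) ∧ (∀ i ≤ n, 1 < z ^ (t n / t i) ∧ z ^ (t n / t i) ≤ z) ∧
    (∀ i < n, z ^ (t n / t i) ≤ z ^ (t n / t (i + 1))) ∧
    (∀ i ≤ n, (z ^ (t n / t i)) ^ (t i) = z ^ (t n)) ∧ z ^ (t n / t n) = z ∧
    (∀ i ≤ n, Real.log z / Real.log (z ^ (t n / t i)) = t i / t n) := by
  have hpos : ∀ i ≤ n, 0 < t i := fun i hi => lt_of_lt_of_le ht0 (StU2_anti ht i hi)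
  have hz0 : (0 : ℝ) < z := by linarith only [hz]
  refine ⟨hpos, ?_, ?_, ?_, ?_, ?_⟩
  · intro i hi
    refine ⟨Real.one_lt_rpow hz (div_pos ht0 (hpos i hi)), ?_⟩
    have h1 : t n / t i ≤ 1 := (div_le_one (hpos i hi)).2 (StU2_anti ht i hi)
    calc z ^ (t n / t i) ≤ z ^ (1 : ℝ) := Real.rpow_le_rpow_of_exponent_le hz.le h1
      _ = z := Real.rpow_one z
  · intro i hi
    apply Real.rpow_le_rpow_of_exponent_le hz.le
    exact div_le_div_of_nonneg_left ht0.le (hpos (i + 1) (by omega)) (ht i hi).le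
  · intro i hi
    rw [← Real.rpow_mul hz0.le, div_mul_cancel₀ _ (hpos i hi).ne']
  · rw [div_self ht0.ne', Real.rpow_one]
  · intro i hi
    rw [Real.log_rpow hz0]
    have h1 : Real.log z ≠ 0 := (Real.log_pos hz).ne'
    have h2 := (hpos i hi).ne'
    have h3 := ht0.ne'
    field_simp

private theorem StU2_levels {n : ℕ} {t : ℕ → ℝ} (ht : ∀ i < n, t (i + 1) < t i) (ht0 : 0 < t n)
    {z : ℝ} (hz : 1 < z) {q k : ℕ} (hk : k < n) (hq : 1 ≤ q)
    (h2 : (q : ℝ) ≤ z ^ (t n / t (k + 1))) : (q : ℝ) ^ (t (k + 1) - 1) ≤ z ^ (t n) / q := by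
  obtain ⟨hpos, _, _, hD, _, _⟩ := StU2_nodes ht ht0 hz
  have hq0 : (0 : ℝ) < q := by exact_mod_cast hq
  rw [Real.rpow_sub hq0, Real.rpow_one]
  apply div_le_div_of_nonneg_right _ hq0.le
  rw [← hD (k + 1) (by omega)]
  exact Real.rpow_le_rpow hq0.le h2 (hpos (k + 1) (by omega)).le

theorem U2_ext {t₀ s F₀ : ℝ} (hs : 0 < s) (hst : s ≤ t₀) (h0 : 0 ≤ F₀) (h : U2 t₀ F₀) :
    U2 s (1.0001 * F₀ * t₀ / s) := by
  intro z hz P hP
  have ht0 : 0 < t₀ := lt_of_lt_of_le hs hst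
  rcases eq_or_lt_of_le hz with hz1 | hz1
  · subst hz1
    have hP0 := StU2_empty hP
    subst hP0
    have h1 := h 1 le_rfl ∅ hP
    rw [Real.one_rpow] at h1 ⊢
    refine h1.mono le_rfl (mul_le_mul_of_nonneg_right ?_ (V_pos hP.big).le)
    rw [le_div_iff₀ hs]
    linarith only [mul_le_mul_of_nonneg_left hst h0, mul_nonneg h0 ht0.le]
  · have hz0 : (0 : ℝ) < z := by linarith only [hz1]
    set a : ℝ := z ^ (s / t₀) with ha
    have ha1 : 1 < a := Real.one_lt_rpow hz1 (div_pos hs ht0)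
    have haz : a ≤ z := by
      calc z ^ (s / t₀) ≤ z ^ (1 : ℝ) :=
            Real.rpow_le_rpow_of_exponent_le hz1.le ((div_le_one ht0).2 hst)
        _ = z := Real.rpow_one z
    have haD : a ^ t₀ = z ^ s := by
      rw [ha, ← Real.rpow_mul hz0.le, div_mul_cancel₀ _ ht0.ne']
    have hP0 : Up g1 (P.filter (fun p : ℕ => (p : ℝ) ≤ a)) (z ^ s)
        (F₀ * Vg g1 (P.filter (fun p : ℕ => (p : ℝ) ≤ a))) := by
      have := h a ha1.le _ (StU2_filter_le hP)
      rwa [haD] at this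
    have hB := Up_buchstab (g := g1) (P := P) (D := z ^ s)
      (M := F₀ * Vg g1 (P.filter (fun p : ℕ => (p : ℝ) ≤ a))) (w := a) (m := fun _ => 0)
      (StU2_g1_nonneg hP) (StU2_one hP) hP0 (fun q _ _ => Lo_zero _ _ _)
    refine hB.mono le_rfl ?_
    have hr := V_ratio2 ha1 haz P hP
    have hlog : Real.log z / Real.log a = t₀ / s := by
      rw [ha, Real.log_rpow hz0]
      have h1 : Real.log z ≠ 0 := (Real.log_pos hz1).ne'
      have h2 := hs.ne'
      have h3 := ht0.ne'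
      field_simp
    rw [hlog] at hr
    have hr2 := mul_le_mul_of_nonneg_left hr h0
    simp only [mul_zero, Finset.sum_const_zero, sub_zero]
    refine hr2.trans (le_of_eq ?_)
    ring

theorem U2_step {n : ℕ} {t : ℕ → ℝ} {F₀ : ℝ} {f : ℕ → ℝ} (hn : 1 ≤ n) (ht : ∀ i < n, t (i + 1) < t i)
    (ht0 : 0 < t n) (hU : U2 (t 0) F₀) (hL : ∀ i < n, L2 (t (i + 1) - 1) (f i))
    (hf0 : f 0 ≤ F₀) (hf : ∀ i, i + 1 < n → f (i + 1) ≤ f i) :
    U2 (t n) (1.0001 / t n * ((F₀ - f 0) * t 0 + ∑ i ∈ range (n - 1), (f i - f (i + 1)) * t (i + 1))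
      + f (n - 1)) := by
  intro z hz P hP
  obtain ⟨n, rfl⟩ : ∃ m, n = m + 1 := ⟨n - 1, by omega⟩
  simp only [Nat.add_sub_cancel]
  rcases eq_or_lt_of_le hz with hz1 | hz1
  · subst hz1
    have hP0 := StU2_empty hP
    subst hP0
    have h1 := hU 1 le_rfl ∅ hP
    rw [Real.one_rpow] at h1 ⊢
    refine h1.mono le_rfl (mul_le_mul_of_nonneg_right ?_ (V_pos hP.big).le)
    have hanti := StU2_anti ht
    have e1 : (F₀ - f 0) * t (n + 1) ≤ (F₀ - f 0) * t 0 :=
      mul_le_mul_of_nonneg_left (hanti 0 (by omega)) (by linarith only [hf0])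
    have e2 : ∑ i ∈ range n, (f i - f (i + 1)) * t (n + 1) ≤
        ∑ i ∈ range n, (f i - f (i + 1)) * t (i + 1) := by
      apply Finset.sum_le_sum
      intro i hi
      rw [Finset.mem_range] at hi
      exact mul_le_mul_of_nonneg_left (hanti (i + 1) (by omega)) (by linarith only [hf i (by omega)])
    rw [← Finset.sum_mul, Finset.sum_range_sub'] at e2
    have e3 : (F₀ - f n) * t (n + 1) ≤ (F₀ - f 0) * t 0 +
        ∑ i ∈ range n, (f i - f (i + 1)) * t (i + 1) := by linarith only [e1, e2]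
    have hfn : f n ≤ f 0 := by
      have : ∀ k ≤ n, f k ≤ f 0 := by
        intro k
        induction k with
        | zero => intro _; exact le_rfl
        | succ k ih => intro hk; exact (hf k (by omega)).trans (ih (by omega))
      exact this n le_rfl
    have e4 : 0 ≤ (F₀ - f n) * t (n + 1) := mul_nonneg (by linarith only [hf0, hfn]) ht0.le
    have e5 : F₀ - f n ≤ 1.0001 / t (n + 1) * ((F₀ - f 0) * t 0 +
        ∑ i ∈ range n, (f i - f (i + 1)) * t (i + 1)) := by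
      rw [div_mul_eq_mul_div, le_div_iff₀ ht0]
      linarith only [e1, e2, e4]
    linarith only [e5]
  · obtain ⟨hpos, ha1, hamono, hD, han, hlog⟩ := StU2_nodes ht ht0 hz1
    set a : ℕ → ℝ := fun i => z ^ (t (n + 1) / t i) with ha
    have hamono' : ∀ i < n + 1, a i ≤ a (i + 1) := hamono
    set V : ℕ → ℝ := fun i => Vg g1 (P.filter (fun p : ℕ => (p : ℝ) ≤ a i)) with hV
    have hP0 : Up g1 (P.filter (fun p : ℕ => (p : ℝ) ≤ a 0)) (z ^ (t (n + 1))) (F₀ * V 0) := by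
      have := hU (a 0) (ha1 0 (by omega)).1.le _ (StU2_filter_le hP)
      rwa [hD 0 (by omega)] at this
    have hB := Up_buchstab (g := g1) (P := P) (D := z ^ (t (n + 1))) (M := F₀ * V 0) (w := a 0)
      (m := fun q => f (StU2_idx (n + 1) a q) * Vg g1 (P.filter (fun p => p < q)))
      (StU2_g1_nonneg hP) (StU2_one hP) hP0 (by
        intro q hq hq0
        have hqz : (q : ℝ) ≤ a (n + 1) := by
          show (q : ℝ) ≤ z ^ (t (n + 1) / t (n + 1))
          rw [han]; exact (hP q hq).2.2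
        obtain ⟨k, hk, hk1, hk2⟩ := StU2_exists hq0 hqz
        show Lo g1 _ _ (f (StU2_idx (n + 1) a q) * _)
        rw [StU2_idx_eq hamono' hk hk1 hk2]
        have hq1 := StU2_one hP q hq
        exact (hL k hk q (by exact_mod_cast hq1) _ (StU2_filter_lt hP q)).mono
          (StU2_levels ht ht0 hz1 hk hq1 hk2) le_rfl)
    have hsum := StU2_sum hamono' g1 P f (n + 1) le_rfl
    have hfe : P.filter (fun q : ℕ => a 0 < (q : ℝ) ∧ (q : ℝ) ≤ a (n + 1)) =
        P.filter (fun q : ℕ => a 0 < (q : ℝ)) := by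
      apply Finset.filter_congr
      intro q hq
      have hqz : (q : ℝ) ≤ a (n + 1) := by
        show (q : ℝ) ≤ z ^ (t (n + 1) / t (n + 1))
        rw [han]; exact (hP q hq).2.2
      exact ⟨fun h => h.1, fun h => ⟨h, hqz⟩⟩
    rw [hfe] at hsum
    refine hB.mono le_rfl ?_
    rw [hsum]
    have hab := StU2_abel F₀ f V n
    have hab' : F₀ * V 0 - ∑ i ∈ range (n + 1), f i *
        (Vg g1 (P.filter (fun p : ℕ => (p : ℝ) ≤ a i)) -
          Vg g1 (P.filter (fun p : ℕ => (p : ℝ) ≤ a (i + 1)))) =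
        (F₀ - f 0) * V 0 + ∑ i ∈ range n, (f i - f (i + 1)) * V (i + 1) + f n * V (n + 1) := hab
    rw [hab']
    have hVn : V (n + 1) = Vg g1 P := by
      show Vg g1 (P.filter (fun p : ℕ => (p : ℝ) ≤ a (n + 1))) = _
      congr 1
      apply Finset.filter_true_of_mem
      intro q hq
      show (q : ℝ) ≤ z ^ (t (n + 1) / t (n + 1))
      rw [han]; exact (hP q hq).2.2
    have hVr : ∀ i ≤ n + 1, V i ≤ 1.0001 / t (n + 1) * t i * Vg g1 P := by
      intro i hi
      have := V_ratio2 (ha1 i hi).1 (ha1 i hi).2 P hP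
      rw [hlog i hi] at this
      refine this.trans (le_of_eq ?_)
      ring
    have k0 : (F₀ - f 0) * V 0 ≤ (F₀ - f 0) * (1.0001 / t (n + 1) * t 0 * Vg g1 P) :=
      mul_le_mul_of_nonneg_left (hVr 0 (by omega)) (by linarith only [hf0])
    have k1 : ∑ i ∈ range n, (f i - f (i + 1)) * V (i + 1) ≤
        ∑ i ∈ range n, (f i - f (i + 1)) * (1.0001 / t (n + 1) * t (i + 1) * Vg g1 P) := by
      apply Finset.sum_le_sum
      intro i hi
      rw [Finset.mem_range] at hi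
      exact mul_le_mul_of_nonneg_left (hVr (i + 1) (by omega)) (by linarith only [hf i (by omega)])
    have k2 : ∑ i ∈ range n, (f i - f (i + 1)) * (1.0001 / t (n + 1) * t (i + 1) * Vg g1 P) =
        1.0001 / t (n + 1) * (∑ i ∈ range n, (f i - f (i + 1)) * t (i + 1)) * Vg g1 P := by
      rw [Finset.mul_sum, Finset.sum_mul]
      exact Finset.sum_congr rfl (fun i _ => by ring)
    rw [hVn]
    rw [k2] at k1
    linarith only [k0, k1]

end Pool.Agent.H36.IS2

end

section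

/-!
# ISP StL2: the Buchstab step for the lower function (primes > e^2400)

Copy of `L1_step` (and the private lemmas, `L1.mono`, `L1_zero`) of Pool/Agent/H91/PK/SvT.lean with BigP, U1, L1, V_ratio, 1.01 replaced by
BigP2, U2, L2, V_ratio2, 1.0001.
-/

set_option autoImplicit false

namespace Pool.Agent.H36.IS2

open Finset Filter Pool.Agent.H36.IS

open Pool.Agent.H91.PK (ev Vg ZO Wt Up Lo g1 BigP U1 L1)

open Pool.Agent.H91.PK (V_pos Lo_zero Lo_buchstab sum_g_V)

theorem L2.mono {s s' f f' : ℝ} (h : L2 s f) (hs : s ≤ s') (hf : f' ≤ f) : L2 s' f' := by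
  intro z hz P hP
  exact (h z hz P hP).mono (Real.rpow_le_rpow_of_exponent_le hz hs)
    (mul_le_mul_of_nonneg_right hf (V_pos hP.big).le)

theorem L2_zero (s : ℝ) : L2 s 0 := by
  intro z hz P hP
  rw [zero_mul]
  exact Lo_zero _ _ _

theorem L2_of_L1 {s f : ℝ} (h : L1 s f) : L2 s f := fun z hz P hP => h z hz P hP.big

private theorem StL2_g1_nonneg {z : ℝ} {P : Finset ℕ} (hP : BigP2 z P) : ∀ p ∈ P, 0 ≤ g1 p := by
  intro p hp
  have h1 : (1 : ℝ) ≤ p := by exact_mod_cast (hP p hp).1.one_le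
  unfold g1
  apply div_nonneg zero_le_one
  linarith only [h1]

private theorem StL2_one {z : ℝ} {P : Finset ℕ} (hP : BigP2 z P) : ∀ p ∈ P, 1 ≤ p :=
  fun p hp => (hP p hp).1.one_le

private theorem StL2_empty {P : Finset ℕ} (hP : BigP2 1 P) : P = ∅ := by
  rw [Finset.eq_empty_iff_forall_notMem]
  intro p hp
  obtain ⟨h1, h2, h3⟩ := hP p hp
  have h4 : (2 : ℝ) ≤ p := by exact_mod_cast h1.two_le
  linarith only [h3, h4]

private theorem StL2_filter_le {z a : ℝ} {P : Finset ℕ} (hP : BigP2 z P) :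
    BigP2 a (P.filter (fun p : ℕ => (p : ℝ) ≤ a)) := by
  intro p hp
  rw [Finset.mem_filter] at hp
  exact ⟨(hP p hp.1).1, (hP p hp.1).2.1, hp.2⟩

private theorem StL2_filter_lt {z : ℝ} {P : Finset ℕ} (hP : BigP2 z P) (q : ℕ) :
    BigP2 q (P.filter (fun p => p < q)) := by
  intro p hp
  rw [Finset.mem_filter] at hp
  exact ⟨(hP p hp.1).1, (hP p hp.1).2.1, by exact_mod_cast hp.2.le⟩

/-- the index of the interval containing `q` -/
private noncomputable def StL2_idx (n : ℕ) (a : ℕ → ℝ) (q : ℕ) : ℕ :=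
  open Classical in ((range n).filter (fun j => a (j + 1) < (q : ℝ))).card

private theorem StL2_mono {n : ℕ} {a : ℕ → ℝ} (ha : ∀ i < n, a i ≤ a (i + 1)) :
    ∀ i j, i ≤ j → j ≤ n → a i ≤ a j := by
  intro i j hij
  induction j, hij using Nat.le_induction with
  | base => intro _; exact le_rfl
  | succ j hj ih => intro h; exact (ih (by omega)).trans (ha j (by omega))

private theorem StL2_idx_eq {n : ℕ} {a : ℕ → ℝ} (ha : ∀ i < n, a i ≤ a (i + 1)) {q k : ℕ} (hk : k < n)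
    (h1 : a k < (q : ℝ)) (h2 : (q : ℝ) ≤ a (k + 1)) : StL2_idx n a q = k := by
  classical
  unfold StL2_idx
  have : ((range n).filter (fun j => a (j + 1) < (q : ℝ))) = range k := by
    ext j
    simp only [Finset.mem_filter, Finset.mem_range]
    constructor
    · rintro ⟨hj, hj2⟩
      by_contra hcon
      have := StL2_mono ha (k + 1) (j + 1) (by omega) (by omega)
      linarith only [h2, hj2, this]
    · intro hj
      refine ⟨by omega, ?_⟩
      have := StL2_mono ha (j + 1) k (by omega) (by omega)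
      linarith only [h1, this]
  rw [this, Finset.card_range]

private theorem StL2_exists {n : ℕ} {a : ℕ → ℝ} {q : ℝ} (h1 : a 0 < q) (h2 : q ≤ a n) :
    ∃ k < n, a k < q ∧ q ≤ a (k + 1) := by
  induction n with
  | zero => linarith only [h1, h2]
  | succ n ih =>
    rcases le_or_gt q (a n) with h | h
    · obtain ⟨k, hk, hk1, hk2⟩ := ih h
      exact ⟨k, by omega, hk1, hk2⟩
    · exact ⟨n, by omega, h, h2⟩

private theorem StL2_sum {n : ℕ} {a : ℕ → ℝ} (ha : ∀ i < n, a i ≤ a (i + 1)) (g : ℕ → ℝ) (P : Finset ℕ)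
    (f : ℕ → ℝ) : ∀ k ≤ n,
    ∑ q ∈ P.filter (fun q : ℕ => a 0 < (q : ℝ) ∧ (q : ℝ) ≤ a k),
      g q * (f (StL2_idx n a q) * Vg g (P.filter (fun p => p < q))) =
    ∑ i ∈ range k, f i * (Vg g (P.filter (fun p : ℕ => (p : ℝ) ≤ a i)) -
      Vg g (P.filter (fun p : ℕ => (p : ℝ) ≤ a (i + 1)))) := by
  intro k
  induction k with
  | zero =>
    intro _
    rw [Finset.range_zero, Finset.sum_empty]
    apply Finset.sum_eq_zero
    intro q hq
    rw [Finset.mem_filter] at hq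
    linarith only [hq]
  | succ k ih =>
    intro hk
    rw [Finset.sum_range_succ, ← ih (by omega), ← sum_g_V P (ha k (by omega)), Finset.mul_sum]
    have hsplit : P.filter (fun q : ℕ => a 0 < (q : ℝ) ∧ (q : ℝ) ≤ a (k + 1)) =
        P.filter (fun q : ℕ => a 0 < (q : ℝ) ∧ (q : ℝ) ≤ a k) ∪
        P.filter (fun q : ℕ => a k < (q : ℝ) ∧ (q : ℝ) ≤ a (k + 1)) := by
      ext q
      simp only [Finset.mem_filter, Finset.mem_union]
      have h0k := StL2_mono ha 0 k (by omega) (by omega)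
      have hk1 := ha k (by omega)
      constructor
      · rintro ⟨h1, h2, h3⟩
        rcases le_or_gt (q : ℝ) (a k) with h | h
        · exact Or.inl ⟨h1, h2, h⟩
        · exact Or.inr ⟨h1, h, h3⟩
      · rintro (⟨h1, h2, h3⟩ | ⟨h1, h2, h3⟩)
        · exact ⟨h1, h2, h3.trans hk1⟩
        · exact ⟨h1, lt_of_le_of_lt h0k h2, h3⟩
    have hdisj : Disjoint (P.filter (fun q : ℕ => a 0 < (q : ℝ) ∧ (q : ℝ) ≤ a k))
        (P.filter (fun q : ℕ => a k < (q : ℝ) ∧ (q : ℝ) ≤ a (k + 1))) := by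
      rw [Finset.disjoint_left]
      intro q h1 h2
      rw [Finset.mem_filter] at h1 h2
      linarith only [h1, h2]
    rw [hsplit, Finset.sum_union hdisj]
    congr 1
    apply Finset.sum_congr rfl
    intro q hq
    rw [Finset.mem_filter] at hq
    rw [StL2_idx_eq ha (by omega : k < n) hq.2.1 hq.2.2]
    ring

private theorem StL2_abel (F₀ : ℝ) (f V : ℕ → ℝ) (k : ℕ) :
    F₀ * V 0 - ∑ i ∈ range (k + 1), f i * (V i - V (i + 1)) =
      (F₀ - f 0) * V 0 + ∑ i ∈ range k, (f i - f (i + 1)) * V (i + 1) + f k * V (k + 1) := by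
  induction k with
  | zero => simp; ring
  | succ k ih =>
    rw [Finset.sum_range_succ, Finset.sum_range_succ (fun i => (f i - f (i + 1)) * V (i + 1))]
    have : F₀ * V 0 - (∑ i ∈ range (k + 1), f i * (V i - V (i + 1)) +
        f (k + 1) * (V (k + 1) - V (k + 1 + 1))) =
        (F₀ * V 0 - ∑ i ∈ range (k + 1), f i * (V i - V (i + 1))) -
        f (k + 1) * (V (k + 1) - V (k + 1 + 1)) := by ring
    rw [this, ih]
    ring

private theorem StL2_anti {n : ℕ} {t : ℕ → ℝ} (ht : ∀ i < n, t (i + 1) < t i) :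
    ∀ i ≤ n, t n ≤ t i := by
  intro i hi
  induction n, hi using Nat.le_induction with
  | base => exact le_rfl
  | succ n hn ih =>
    exact (ht n (by omega)).le.trans (ih (fun j hj => ht j (by omega)))

/-- the nodes -/
private theorem StL2_nodes {n : ℕ} {t : ℕ → ℝ} (ht : ∀ i < n, t (i + 1) < t i) (ht0 : 0 < t n)
    {z : ℝ} (hz : 1 < z) :
    (∀ i ≤ n, 0 < t i) ∧ (∀ i ≤ n, 1 < z ^ (t n / t i) ∧ z ^ (t n / t i) ≤ z) ∧
    (∀ i < n, z ^ (t n / t i) ≤ z ^ (t n / t (i + 1))) ∧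
    (∀ i ≤ n, (z ^ (t n / t i)) ^ (t i) = z ^ (t n)) ∧ z ^ (t n / t n) = z ∧
    (∀ i ≤ n, Real.log z / Real.log (z ^ (t n / t i)) = t i / t n) := by
  have hpos : ∀ i ≤ n, 0 < t i := fun i hi => lt_of_lt_of_le ht0 (StL2_anti ht i hi)
  have hz0 : (0 : ℝ) < z := by linarith only [hz]
  refine ⟨hpos, ?_, ?_, ?_, ?_, ?_⟩
  · intro i hi
    refine ⟨Real.one_lt_rpow hz (div_pos ht0 (hpos i hi)), ?_⟩
    have h1 : t n / t i ≤ 1 := (div_le_one (hpos i hi)).2 (StL2_anti ht i hi)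
    calc z ^ (t n / t i) ≤ z ^ (1 : ℝ) := Real.rpow_le_rpow_of_exponent_le hz.le h1
      _ = z := Real.rpow_one z
  · intro i hi
    apply Real.rpow_le_rpow_of_exponent_le hz.le
    exact div_le_div_of_nonneg_left ht0.le (hpos (i + 1) (by omega)) (ht i hi).le
  · intro i hi
    rw [← Real.rpow_mul hz0.le, div_mul_cancel₀ _ (hpos i hi).ne']
  · rw [div_self ht0.ne', Real.rpow_one]
  · intro i hi
    rw [Real.log_rpow hz0]
    have h1 : Real.log z ≠ 0 := (Real.log_pos hz).ne'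
    have h2 := (hpos i hi).ne'
    have h3 := ht0.ne'
    field_simp

private theorem StL2_levels {n : ℕ} {t : ℕ → ℝ} (ht : ∀ i < n, t (i + 1) < t i) (ht0 : 0 < t n)
    {z : ℝ} (hz : 1 < z) {q k : ℕ} (hk : k < n) (hq : 1 ≤ q)
    (h2 : (q : ℝ) ≤ z ^ (t n / t (k + 1))) : (q : ℝ) ^ (t (k + 1) - 1) ≤ z ^ (t n) / q := by
  obtain ⟨hpos, _, _, hD, _, _⟩ := StL2_nodes ht ht0 hz
  have hq0 : (0 : ℝ) < q := by exact_mod_cast hq
  rw [Real.rpow_sub hq0, Real.rpow_one]
  apply div_le_div_of_nonneg_right _ hq0.le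
  rw [← hD (k + 1) (by omega)]
  exact Real.rpow_le_rpow hq0.le h2 (hpos (k + 1) (by omega)).le

theorem L2_step {n : ℕ} {t : ℕ → ℝ} {f₀ : ℝ} {F : ℕ → ℝ} (hn : 1 ≤ n) (ht : ∀ i < n, t (i + 1) < t i)
    (ht0 : 0 < t n) (hL : L2 (t 0) f₀) (hU : ∀ i < n, U2 (t (i + 1) - 1) (F i))
    (hf0 : f₀ ≤ F 0) (hF : ∀ i, i + 1 < n → F i ≤ F (i + 1)) :
    L2 (t n) (F (n - 1) - 1.0001 / t n * ((F 0 - f₀) * t 0 + ∑ i ∈ range (n - 1), (F (i + 1) - F i) * t (i + 1))) := by
  intro z hz P hP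
  obtain ⟨n, rfl⟩ : ∃ m, n = m + 1 := ⟨n - 1, by omega⟩
  simp only [Nat.add_sub_cancel]
  rcases eq_or_lt_of_le hz with hz1 | hz1
  · subst hz1
    have hP0 := StL2_empty hP
    subst hP0
    have h1 := hL 1 le_rfl ∅ hP
    rw [Real.one_rpow] at h1 ⊢
    refine h1.mono le_rfl (mul_le_mul_of_nonneg_right ?_ (V_pos hP.big).le)
    have hanti := StL2_anti ht
    have e1 : (F 0 - f₀) * t (n + 1) ≤ (F 0 - f₀) * t 0 :=
      mul_le_mul_of_nonneg_left (hanti 0 (by omega)) (by linarith only [hf0])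
    have e2 : ∑ i ∈ range n, (F (i + 1) - F i) * t (n + 1) ≤
        ∑ i ∈ range n, (F (i + 1) - F i) * t (i + 1) := by
      apply Finset.sum_le_sum
      intro i hi
      rw [Finset.mem_range] at hi
      exact mul_le_mul_of_nonneg_left (hanti (i + 1) (by omega)) (by linarith only [hF i (by omega)])
    rw [← Finset.sum_mul, Finset.sum_range_sub] at e2
    have e3 : (F n - f₀) * t (n + 1) ≤ (F 0 - f₀) * t 0 +
        ∑ i ∈ range n, (F (i + 1) - F i) * t (i + 1) := by linarith only [e1, e2]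
    have hfn : F 0 ≤ F n := by
      have : ∀ k ≤ n, F 0 ≤ F k := by
        intro k
        induction k with
        | zero => intro _; exact le_rfl
        | succ k ih => intro hk; exact (ih (by omega)).trans (hF k (by omega))
      exact this n le_rfl
    have e4 : 0 ≤ (F n - f₀) * t (n + 1) := mul_nonneg (by linarith only [hf0, hfn]) ht0.le
    have e5 : F n - f₀ ≤ 1.0001 / t (n + 1) * ((F 0 - f₀) * t 0 +
        ∑ i ∈ range n, (F (i + 1) - F i) * t (i + 1)) := by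
      rw [div_mul_eq_mul_div, le_div_iff₀ ht0]
      linarith only [e1, e2, e4]
    linarith only [e5]
  · obtain ⟨hpos, ha1, hamono, hD, han, hlog⟩ := StL2_nodes ht ht0 hz1
    set a : ℕ → ℝ := fun i => z ^ (t (n + 1) / t i) with ha
    have hamono' : ∀ i < n + 1, a i ≤ a (i + 1) := hamono
    set V : ℕ → ℝ := fun i => Vg g1 (P.filter (fun p : ℕ => (p : ℝ) ≤ a i)) with hV
    have hP0 : Lo g1 (P.filter (fun p : ℕ => (p : ℝ) ≤ a 0)) (z ^ (t (n + 1))) (f₀ * V 0) := by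
      have := hL (a 0) (ha1 0 (by omega)).1.le _ (StL2_filter_le hP)
      rwa [hD 0 (by omega)] at this
    have hB := Lo_buchstab (g := g1) (P := P) (D := z ^ (t (n + 1))) (M := f₀ * V 0) (w := a 0)
      (m := fun q => F (StL2_idx (n + 1) a q) * Vg g1 (P.filter (fun p => p < q)))
      (StL2_g1_nonneg hP) (StL2_one hP) hP0 (by
        intro q hq hq0
        have hqz : (q : ℝ) ≤ a (n + 1) := by
          show (q : ℝ) ≤ z ^ (t (n + 1) / t (n + 1))
          rw [han]; exact (hP q hq).2.2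
        obtain ⟨k, hk, hk1, hk2⟩ := StL2_exists hq0 hqz
        show Up g1 _ _ (F (StL2_idx (n + 1) a q) * _)
        rw [StL2_idx_eq hamono' hk hk1 hk2]
        have hq1 := StL2_one hP q hq
        exact (hU k hk q (by exact_mod_cast hq1) _ (StL2_filter_lt hP q)).mono
          (StL2_levels ht ht0 hz1 hk hq1 hk2) le_rfl)
    have hsum := StL2_sum hamono' g1 P F (n + 1) le_rfl
    have hfe : P.filter (fun q : ℕ => a 0 < (q : ℝ) ∧ (q : ℝ) ≤ a (n + 1)) =
        P.filter (fun q : ℕ => a 0 < (q : ℝ)) := by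
      apply Finset.filter_congr
      intro q hq
      have hqz : (q : ℝ) ≤ a (n + 1) := by
        show (q : ℝ) ≤ z ^ (t (n + 1) / t (n + 1))
        rw [han]; exact (hP q hq).2.2
      exact ⟨fun h => h.1, fun h => ⟨h, hqz⟩⟩
    rw [hfe] at hsum
    refine hB.mono le_rfl ?_
    rw [hsum]
    have hab := StL2_abel f₀ F V n
    have hab' : f₀ * V 0 - ∑ i ∈ range (n + 1), F i *
        (Vg g1 (P.filter (fun p : ℕ => (p : ℝ) ≤ a i)) -
          Vg g1 (P.filter (fun p : ℕ => (p : ℝ) ≤ a (i + 1)))) =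
        (f₀ - F 0) * V 0 + ∑ i ∈ range n, (F i - F (i + 1)) * V (i + 1) + F n * V (n + 1) := hab
    rw [hab']
    have hVn : V (n + 1) = Vg g1 P := by
      show Vg g1 (P.filter (fun p : ℕ => (p : ℝ) ≤ a (n + 1))) = _
      congr 1
      apply Finset.filter_true_of_mem
      intro q hq
      show (q : ℝ) ≤ z ^ (t (n + 1) / t (n + 1))
      rw [han]; exact (hP q hq).2.2
    have hVr : ∀ i ≤ n + 1, V i ≤ 1.0001 / t (n + 1) * t i * Vg g1 P := by
      intro i hi
      have := V_ratio2 (ha1 i hi).1 (ha1 i hi).2 P hP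
      rw [hlog i hi] at this
      refine this.trans (le_of_eq ?_)
      ring
    have k0 : (F 0 - f₀) * V 0 ≤ (F 0 - f₀) * (1.0001 / t (n + 1) * t 0 * Vg g1 P) :=
      mul_le_mul_of_nonneg_left (hVr 0 (by omega)) (by linarith only [hf0])
    have k1 : ∑ i ∈ range n, (F (i + 1) - F i) * V (i + 1) ≤
        ∑ i ∈ range n, (F (i + 1) - F i) * (1.0001 / t (n + 1) * t (i + 1) * Vg g1 P) := by
      apply Finset.sum_le_sum
      intro i hi
      rw [Finset.mem_range] at hi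
      exact mul_le_mul_of_nonneg_left (hVr (i + 1) (by omega)) (by linarith only [hF i (by omega)])
    have k2 : ∑ i ∈ range n, (F (i + 1) - F i) * (1.0001 / t (n + 1) * t (i + 1) * Vg g1 P) =
        1.0001 / t (n + 1) * (∑ i ∈ range n, (F (i + 1) - F i) * t (i + 1)) * Vg g1 P := by
      rw [Finset.mul_sum, Finset.sum_mul]
      exact Finset.sum_congr rfl (fun i _ => by ring)
    have k3 : ∑ i ∈ range n, (F i - F (i + 1)) * V (i + 1) =
        - ∑ i ∈ range n, (F (i + 1) - F i) * V (i + 1) := by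
      rw [← Finset.sum_neg_distrib]
      exact Finset.sum_congr rfl (fun i _ => by ring)
    rw [hVn, k3]
    rw [k2] at k1
    linarith only [k0, k1]

end Pool.Agent.H36.IS2

end

section

/-!
# ISP HiB: very precise sieve weights at s = 61

`SvB_low m k z` (Pool/Agent/H91/PK/SvB.lean) with k = 10 (and m from `SvB_exists`): Ch g1 P (z^60) (z^61) (1 + 9.6e-7/1024) (4.8e-7/1024).
As in `U1_base`, `L1_base`: `(Ch ..).up`, `(Ch ..).lo`; 9.6e-7/1024 < 1e-9.
-/

set_option autoImplicit false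

namespace Pool.Agent.H36.IS2

open Pool.Agent.H91.PK (U1 L1)

private theorem HiB_main (z : ℝ) (hz : 1 ≤ z) (P : Finset ℕ) (hP : Pool.Agent.H91.PK.BigP z P) :
    Pool.Agent.H91.PK.Ch Pool.Agent.H91.PK.g1 P (z ^ (60 : ℝ)) (z ^ (61 : ℝ)) (1 + 1e-9) 1e-9 := by
  obtain ⟨m, hm⟩ := Pool.Agent.H91.PK.SvB_exists z
  have h := Pool.Agent.H91.PK.SvB_low m 10 z hz hm P hP
  refine h.mono (Pool.Agent.H91.PK.V_pos hP) ?_ ?_ ?_ ?_
  · apply Real.rpow_le_rpow_of_exponent_le hz
    norm_num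
  · apply Real.rpow_le_rpow_of_exponent_le hz
    norm_num
  · norm_num
  · norm_num

theorem U1_61 : U1 61 (1 + 1e-9) := by
  intro z hz P hP
  have h := (HiB_main z hz P hP).up
  refine h.mono ?_ le_rfl
  apply Real.rpow_le_rpow_of_exponent_le hz
  norm_num

theorem L1_61 : L1 61 (1 - 1e-9) := by
  intro z hz P hP
  have h := (HiB_main z hz P hP).lo (by norm_num)
  exact h

end Pool.Agent.H36.IS2

end

section

/-!
# ISP Tab2: numerical values of the one-dimensional sieve functions (kernel computation)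

Copy of Pool/Agent/H91/PK/SvE.lean with the grid step 1/50 instead of 1/10 and the constant 1.0001 instead of 1.01:
grid s_i = (700 - i)/50, i = 0,...,650 (from 14 down to 1), a state is a pair of lists of 651 naturals (scale 10^8); T = 50 times the
node; `(10001 * A + 10000 * T - 1) / (10000 * T)`; drop 52 instead of 12, index 51 instead of 11, 700 instead of 140, 699 instead of 139;
initial upper values from `U2_ext` (U1_base: 1.00015 at 14).
20 iterations, evaluated by the kernel (decide +kernel; if this is heavy, split it: give the state after every 5 iterations as an explicit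
list, or state the lemma for the iterate of an explicit list).
Expected values after 20 iterations (floating point simulation): lower value at 5.52: 0.998039; upper value at 5.52: 1.001936; upper values at
4.36 - 0.16 k, k = 0..16: see `FT` below, which is the simulated value plus 0.002 (so 18 or 19 iterations may suffice).
-/

set_option autoImplicit false

namespace Pool.Agent.H36.IS2

open Finset Filter Pool.Agent.H36.IS

open Pool.Agent.H91.PK (U1_base L1_base)

/-- upper bounds, scale 10^5, for the upper sieve function at 4.36 - 0.16 k -/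
def FT (k : ℕ) : ℕ := [101578, 102112, 102852, 103873, 105276, 107201, 109843, 113482, 118525, 124991, 132225, 140349, 149540, 160019, 172081, 186112, 202638].getD k 0

/-- one pass for the upper function: `T` is ten times the node, `A` the running sum, `c` the last lower value -/
private def Tab2_goU : ℕ → ℕ → ℕ → List ℕ → List ℕ → List ℕ
  | _, _, _, _, [] => []
  | T, A, c, fs, F :: Fs =>
      min F ((10001 * A + 10000 * T - 1) / (10000 * T) + c) ::
        Tab2_goU (T - 1) (A + (c - min c (fs.headD 0)) * T) (min c (fs.headD 0)) fs.tail Fs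

/-- one pass for the lower function -/
private def Tab2_goL : ℕ → ℕ → ℕ → List ℕ → List ℕ → List ℕ
  | _, _, _, _, [] => []
  | T, A, c, [], f :: fs => max f (c - (10001 * A + 10000 * T - 1) / (10000 * T)) :: fs
  | T, A, c, F :: Fs, f :: fs =>
      max f (c - (10001 * A + 10000 * T - 1) / (10000 * T)) ::
        Tab2_goL (T - 1) (A + (max c F - c) * T) (max c F) Fs fs

/-- one iteration -/
private def Tab2_it (x : List ℕ × List ℕ) : List ℕ × List ℕ :=
  (x.1.headD 0 :: Tab2_goU 699 ((x.1.headD 0 - min (x.2.getD 51 0) (x.1.headD 0)) * 700)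
      (min (x.2.getD 51 0) (x.1.headD 0)) (x.2.drop 52) (x.1.drop 1),
   x.2.headD 0 :: Tab2_goL 699 ((max (x.1.getD 51 0) (x.2.headD 0) - x.2.headD 0) * 700)
      (max (x.1.getD 51 0) (x.2.headD 0)) (x.1.drop 52) (x.2.drop 1))

private def Tab2_iter : ℕ → List ℕ × List ℕ → List ℕ × List ℕ
  | 0, x => x
  | n + 1, x => Tab2_iter n (Tab2_it x)

/-- valid upper values on the grid starting at `s` -/
private def Tab2_OkU : ℝ → List ℕ → Prop
  | _, [] => True
  | s, F :: Fs => U2 s ((F : ℝ) / 10 ^ 8) ∧ Tab2_OkU (s - 1 / 50) Fs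

/-- valid lower values on the grid starting at `s` -/
private def Tab2_OkL : ℝ → List ℕ → Prop
  | _, [] => True
  | s, F :: Fs => L2 s ((F : ℝ) / 10 ^ 8) ∧ Tab2_OkL (s - 1 / 50) Fs

private theorem Tab2_OkL_get : ∀ (l : List ℕ) (s : ℝ) (_ : Tab2_OkL s l) (i : ℕ),
    L2 (s - i / 50) ((l.getD i 0 : ℕ) / 10 ^ 8 : ℝ) := by
  intro l
  induction l with
  | nil =>
    intro s _ i
    simpa using L2_zero (s - i / 50)
  | cons F Fs ih =>
    intro s h i
    cases i with
    | zero => simpa using h.1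
    | succ j =>
      have := ih (s - 1 / 50) h.2 j
      have e : s - 1 / 50 - (j : ℝ) / 50 = s - ((j + 1 : ℕ) : ℝ) / 50 := by push_cast; ring
      rw [e] at this
      simpa using this

private theorem Tab2_OkL_drop : ∀ (k : ℕ) (l : List ℕ) (s : ℝ) (_ : Tab2_OkL s l), Tab2_OkL (s - k / 50) (l.drop k) := by
  intro k
  induction k with
  | zero => intro l s h; simpa using h
  | succ k ih =>
    intro l s h
    cases l with
    | nil => simp [Tab2_OkL]
    | cons F Fs =>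
      have := ih Fs (s - 1 / 50) h.2
      have e : s - 1 / 50 - (k : ℝ) / 50 = s - ((k + 1 : ℕ) : ℝ) / 50 := by push_cast; ring
      rw [e] at this
      simpa using this

private theorem Tab2_OkU_drop : ∀ (k : ℕ) (l : List ℕ) (s : ℝ) (_ : Tab2_OkU s l), Tab2_OkU (s - k / 50) (l.drop k) := by
  intro k
  induction k with
  | zero => intro l s h; simpa using h
  | succ k ih =>
    intro l s h
    cases l with
    | nil => simp [Tab2_OkU]
    | cons F Fs =>
      have := ih Fs (s - 1 / 50) h.2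
      have e : s - 1 / 50 - (k : ℝ) / 50 = s - ((k + 1 : ℕ) : ℝ) / 50 := by push_cast; ring
      rw [e] at this
      simpa using this

private theorem Tab2_OkU_get : ∀ (l : List ℕ) (s : ℝ) (_ : Tab2_OkU s l) (i : ℕ) (_ : i < l.length),
    U2 (s - i / 50) ((l.getD i 0 : ℕ) / 10 ^ 8 : ℝ) := by
  intro l
  induction l with
  | nil => intro s _ i hi; simp at hi
  | cons F Fs ih =>
    intro s h i hi
    cases i with
    | zero => simpa using h.1
    | succ j =>
      have := ih (s - 1 / 50) h.2 j (by simpa using hi)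
      have e : s - 1 / 50 - (j : ℝ) / 50 = s - ((j + 1 : ℕ) : ℝ) / 50 := by push_cast; ring
      rw [e] at this
      simpa using this

/-- state of the upper pass -/
private def Tab2_StU (T A c : ℕ) : Prop :=
  ∃ (n : ℕ) (t : ℕ → ℝ) (f : ℕ → ℝ) (F₀ : ℝ), 1 ≤ n ∧ (∀ i < n, t (i + 1) < t i) ∧ t n = (T : ℝ) / 50 ∧ 0 < t n ∧
    U2 (t 0) F₀ ∧ (∀ i < n, L2 (t (i + 1) - 1) (f i)) ∧ f 0 ≤ F₀ ∧ (∀ i, i + 1 < n → f (i + 1) ≤ f i) ∧
    f (n - 1) = (c : ℝ) / 10 ^ 8 ∧
    (F₀ - f 0) * t 0 + ∑ i ∈ range (n - 1), (f i - f (i + 1)) * t (i + 1) = (A : ℝ) / (5 * 10 ^ 9)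

/-- state of the lower pass -/
private def Tab2_StL (T A c : ℕ) : Prop :=
  ∃ (n : ℕ) (t : ℕ → ℝ) (F : ℕ → ℝ) (f₀ : ℝ), 1 ≤ n ∧ (∀ i < n, t (i + 1) < t i) ∧ t n = (T : ℝ) / 50 ∧ 0 < t n ∧
    L2 (t 0) f₀ ∧ (∀ i < n, U2 (t (i + 1) - 1) (F i)) ∧ f₀ ≤ F 0 ∧ (∀ i, i + 1 < n → F i ≤ F (i + 1)) ∧
    F (n - 1) = (c : ℝ) / 10 ^ 8 ∧
    (F 0 - f₀) * t 0 + ∑ i ∈ range (n - 1), (F (i + 1) - F i) * t (i + 1) = (A : ℝ) / (5 * 10 ^ 9)

private theorem Tab2_ceil (A T : ℕ) (hT : 0 < T) :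
    1.0001 / ((T : ℝ) / 50) * ((A : ℝ) / (5 * 10 ^ 9)) ≤ (((10001 * A + 10000 * T - 1) / (10000 * T) : ℕ) : ℝ) / 10 ^ 8 := by
  have h1 : 10001 * A ≤ (10001 * A + 10000 * T - 1) / (10000 * T) * (10000 * T) := by
    have h := Nat.div_add_mod (10001 * A + 10000 * T - 1) (10000 * T)
    have h2 := Nat.mod_lt (10001 * A + 10000 * T - 1) (show 0 < 10000 * T by omega)
    have h3 : 10000 * T * ((10001 * A + 10000 * T - 1) / (10000 * T)) = (10001 * A + 10000 * T - 1) / (10000 * T) * (10000 * T) :=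
      mul_comm _ _
    omega
  have h2 : (10001 : ℝ) * A ≤ (((10001 * A + 10000 * T - 1) / (10000 * T) : ℕ) : ℝ) * (10000 * T) := by exact_mod_cast h1
  have hT' : (0 : ℝ) < T := by exact_mod_cast hT
  have e : 1.0001 / ((T : ℝ) / 50) * ((A : ℝ) / (5 * 10 ^ 9)) = (10001 * A) / (10000 * T) / 10 ^ 8 := by
    field_simp
    norm_num
    ring
  rw [e]
  apply div_le_div_of_nonneg_right _ (by norm_num)
  rw [div_le_iff₀ (by positivity)]
  exact h2

private theorem Tab2_StU.out {T A c : ℕ} (h : Tab2_StU T A c) :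
    U2 ((T : ℝ) / 50) ((((10001 * A + 10000 * T - 1) / (10000 * T) + c : ℕ) : ℝ) / 10 ^ 8) := by
  obtain ⟨n, t, f, F₀, hn, ht, htn, ht0, hU, hL, hf0, hf, hc, hA⟩ := h
  have hT : 0 < T := by
    rcases Nat.eq_zero_or_pos T with h0 | h0
    · rw [htn, h0] at ht0; simp at ht0
    · exact h0
  have h := U2_step hn ht ht0 hU hL hf0 hf
  rw [hA, hc, htn] at h
  refine h.mono le_rfl ?_
  have := Tab2_ceil A T hT
  push_cast at this ⊢
  rw [add_div]
  linarith

private theorem Tab2_StL.out {T A c : ℕ} (h : Tab2_StL T A c) :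
    L2 ((T : ℝ) / 50) (((c - (10001 * A + 10000 * T - 1) / (10000 * T) : ℕ) : ℝ) / 10 ^ 8) := by
  obtain ⟨n, t, F, f₀, hn, ht, htn, ht0, hL, hU, hf0, hF, hc, hA⟩ := h
  have hT : 0 < T := by
    rcases Nat.eq_zero_or_pos T with h0 | h0
    · rw [htn, h0] at ht0; simp at ht0
    · exact h0
  rcases le_total ((10001 * A + 10000 * T - 1) / (10000 * T)) c with hle | hle
  · have h := L2_step hn ht ht0 hL hU hf0 hF
    rw [hA, hc, htn] at h
    refine h.mono le_rfl ?_
    have := Tab2_ceil A T hT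
    rw [Nat.cast_sub hle, sub_div]
    linarith
  · rw [Nat.sub_eq_zero_of_le hle]
    simpa using L2_zero ((T : ℝ) / 50)

private theorem Tab2_StU.next {T A c c' : ℕ} (h : Tab2_StU T A c) (hT : 2 ≤ T) (hc' : c' ≤ c)
    (hL' : L2 ((T : ℝ) / 50 - 51 / 50) ((c' : ℝ) / 10 ^ 8)) : Tab2_StU (T - 1) (A + (c - c') * T) c' := by
  obtain ⟨n, t, f, F₀, hn, ht, htn, ht0, hU, hL, hf0, hf, hc, hA⟩ := h
  have hT1 : ((T - 1 : ℕ) : ℝ) = (T : ℝ) - 1 := by
    rw [Nat.cast_sub (by omega)]; simp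
  have hTr : (2 : ℝ) ≤ T := by exact_mod_cast hT
  refine ⟨n + 1, fun i => if i ≤ n then t i else ((T : ℝ) - 1) / 50, fun i => if i < n then f i else (c' : ℝ) / 10 ^ 8,
    F₀, by omega, ?_, ?_, ?_, ?_, ?_, ?_, ?_, ?_, ?_⟩
  · intro i hi
    rcases Nat.lt_or_ge i n with h | h
    · simp only [show i + 1 ≤ n by omega, show i ≤ n by omega, if_true]
      exact ht i h
    · have : i = n := by omega
      subst this
      simp only [show ¬ (i + 1 ≤ i) by omega, le_refl, if_true, if_false]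
      rw [htn]; linarith
  · simp only [show ¬ (n + 1 ≤ n) by omega, if_false, hT1]
  · simp only [show ¬ (n + 1 ≤ n) by omega, if_false]
    linarith
  · simpa using hU
  · intro i hi
    rcases Nat.lt_or_ge i n with h | h
    · simp only [show i + 1 ≤ n by omega, h, if_true]
      exact hL i h
    · have : i = n := by omega
      subst this
      simp only [show ¬ (i + 1 ≤ i) by omega, lt_irrefl, if_false]
      have e : ((T : ℝ) - 1) / 50 - 1 = (T : ℝ) / 50 - 51 / 50 := by ring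
      rw [e]; exact hL'
  · simp only [show 0 < n by omega, if_true]; exact hf0
  · intro i hi
    rcases Nat.lt_or_ge (i + 1) n with h | h
    · simp only [h, show i < n by omega, if_true]
      exact hf i h
    · have hin : n = i + 1 := by omega
      simp only [hin, lt_irrefl, show i < i + 1 by omega, if_true, if_false]
      have : f i = (c : ℝ) / 10 ^ 8 := by rw [← hc, hin]; simp
      rw [this]
      have : (c' : ℝ) ≤ c := by exact_mod_cast hc'
      exact div_le_div_of_nonneg_right this (by norm_num)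
  · simp
  · have hs : ∑ i ∈ range (n + 1 - 1), ((if i < n then f i else (c' : ℝ) / 10 ^ 8) -
        (if i + 1 < n then f (i + 1) else (c' : ℝ) / 10 ^ 8)) * (if i + 1 ≤ n then t (i + 1) else ((T : ℝ) - 1) / 50)
        = ∑ i ∈ range (n - 1), (f i - f (i + 1)) * t (i + 1) + (f (n - 1) - (c' : ℝ) / 10 ^ 8) * t n := by
      obtain ⟨m, rfl⟩ : ∃ m, n = m + 1 := ⟨n - 1, by omega⟩
      simp only [Nat.add_sub_cancel]
      rw [Finset.sum_range_succ]
      congr 1
      · apply Finset.sum_congr rfl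
        intro i hi
        have := Finset.mem_range.mp hi
        simp only [show i < m + 1 by omega, show i + 1 < m + 1 by omega, show i + 1 ≤ m + 1 by omega, if_true]
      · simp
    simp only [show 0 < n by omega, Nat.zero_le, if_true]
    rw [hs, ← add_assoc, hA, hc, htn]
    rw [Nat.cast_add, Nat.cast_mul, Nat.cast_sub hc']
    ring

private theorem Tab2_StL.next {T A c c' : ℕ} (h : Tab2_StL T A c) (hT : 2 ≤ T) (hc' : c ≤ c')
    (hU' : U2 ((T : ℝ) / 50 - 51 / 50) ((c' : ℝ) / 10 ^ 8)) : Tab2_StL (T - 1) (A + (c' - c) * T) c' := by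
  obtain ⟨n, t, F, f₀, hn, ht, htn, ht0, hL, hU, hf0, hF, hc, hA⟩ := h
  have hT1 : ((T - 1 : ℕ) : ℝ) = (T : ℝ) - 1 := by
    rw [Nat.cast_sub (by omega)]; simp
  have hTr : (2 : ℝ) ≤ T := by exact_mod_cast hT
  refine ⟨n + 1, fun i => if i ≤ n then t i else ((T : ℝ) - 1) / 50, fun i => if i < n then F i else (c' : ℝ) / 10 ^ 8,
    f₀, by omega, ?_, ?_, ?_, ?_, ?_, ?_, ?_, ?_, ?_⟩
  · intro i hi
    rcases Nat.lt_or_ge i n with h | h
    · simp only [show i + 1 ≤ n by omega, show i ≤ n by omega, if_true]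
      exact ht i h
    · have : i = n := by omega
      subst this
      simp only [show ¬ (i + 1 ≤ i) by omega, le_refl, if_true, if_false]
      rw [htn]; linarith
  · simp only [show ¬ (n + 1 ≤ n) by omega, if_false, hT1]
  · simp only [show ¬ (n + 1 ≤ n) by omega, if_false]
    linarith
  · simpa using hL
  · intro i hi
    rcases Nat.lt_or_ge i n with h | h
    · simp only [show i + 1 ≤ n by omega, h, if_true]
      exact hU i h
    · have : i = n := by omega
      subst this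
      simp only [show ¬ (i + 1 ≤ i) by omega, lt_irrefl, if_false]
      have e : ((T : ℝ) - 1) / 50 - 1 = (T : ℝ) / 50 - 51 / 50 := by ring
      rw [e]; exact hU'
  · simp only [show 0 < n by omega, if_true]; exact hf0
  · intro i hi
    rcases Nat.lt_or_ge (i + 1) n with h | h
    · simp only [h, show i < n by omega, if_true]
      exact hF i h
    · have hin : n = i + 1 := by omega
      simp only [hin, lt_irrefl, show i < i + 1 by omega, if_true, if_false]
      have : F i = (c : ℝ) / 10 ^ 8 := by rw [← hc, hin]; simp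
      rw [this]
      have : (c : ℝ) ≤ c' := by exact_mod_cast hc'
      exact div_le_div_of_nonneg_right this (by norm_num)
  · simp
  · have hs : ∑ i ∈ range (n + 1 - 1), ((if i + 1 < n then F (i + 1) else (c' : ℝ) / 10 ^ 8) -
        (if i < n then F i else (c' : ℝ) / 10 ^ 8)) * (if i + 1 ≤ n then t (i + 1) else ((T : ℝ) - 1) / 50)
        = ∑ i ∈ range (n - 1), (F (i + 1) - F i) * t (i + 1) + ((c' : ℝ) / 10 ^ 8 - F (n - 1)) * t n := by
      obtain ⟨m, rfl⟩ : ∃ m, n = m + 1 := ⟨n - 1, by omega⟩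
      simp only [Nat.add_sub_cancel]
      rw [Finset.sum_range_succ]
      congr 1
      · apply Finset.sum_congr rfl
        intro i hi
        have := Finset.mem_range.mp hi
        simp only [show i < m + 1 by omega, show i + 1 < m + 1 by omega, show i + 1 ≤ m + 1 by omega, if_true]
      · simp
    simp only [show 0 < n by omega, Nat.zero_le, if_true]
    rw [hs, ← add_assoc, hA, hc, htn]
    rw [Nat.cast_add, Nat.cast_mul, Nat.cast_sub hc']
    ring

private theorem Tab2_StU.init {F0 c : ℕ} (hU : U2 14 ((F0 : ℝ) / 10 ^ 8)) (hc : c ≤ F0)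
    (hL : L2 (649 / 50) ((c : ℝ) / 10 ^ 8)) : Tab2_StU 699 ((F0 - c) * 700) c := by
  refine ⟨1, fun i => (700 - (i : ℝ)) / 50, fun _ => (c : ℝ) / 10 ^ 8, (F0 : ℝ) / 10 ^ 8, le_rfl, ?_, ?_, ?_, ?_, ?_,
    ?_, ?_, ?_, ?_⟩
  · intro i _; push_cast; linarith
  · norm_num
  · norm_num
  · norm_num; norm_num at hU; exact hU
  · intro i hi
    have : i = 0 := by omega
    subst this
    norm_num; norm_num at hL; exact hL
  · have : (c : ℝ) ≤ F0 := by exact_mod_cast hc
    exact div_le_div_of_nonneg_right this (by norm_num)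
  · intro i _; exact le_rfl
  · rfl
  · simp only [Nat.sub_self, Finset.range_zero, Finset.sum_empty, Nat.cast_zero]
    rw [Nat.cast_mul, Nat.cast_sub hc]
    push_cast
    ring

private theorem Tab2_StL.init {f0 c : ℕ} (hL : L2 14 ((f0 : ℝ) / 10 ^ 8)) (hc : f0 ≤ c)
    (hU : U2 (649 / 50) ((c : ℝ) / 10 ^ 8)) : Tab2_StL 699 ((c - f0) * 700) c := by
  refine ⟨1, fun i => (700 - (i : ℝ)) / 50, fun _ => (c : ℝ) / 10 ^ 8, (f0 : ℝ) / 10 ^ 8, le_rfl, ?_, ?_, ?_, ?_, ?_,
    ?_, ?_, ?_, ?_⟩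
  · intro i _; push_cast; linarith
  · norm_num
  · norm_num
  · norm_num; norm_num at hL; exact hL
  · intro i hi
    have : i = 0 := by omega
    subst this
    norm_num; norm_num at hU; exact hU
  · have : (f0 : ℝ) ≤ c := by exact_mod_cast hc
    exact div_le_div_of_nonneg_right this (by norm_num)
  · intro i _; exact le_rfl
  · rfl
  · simp only [Nat.sub_self, Finset.range_zero, Finset.sum_empty, Nat.cast_zero]
    rw [Nat.cast_mul, Nat.cast_sub hc]
    push_cast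
    ring

private theorem Tab2_goU_ok : ∀ (Fs : List ℕ) (T A c : ℕ) (fs : List ℕ), T = Fs.length + 49 → Tab2_StU T A c →
    Tab2_OkL ((T : ℝ) / 50 - 51 / 50) fs → Tab2_OkU ((T : ℝ) / 50) Fs →
    Tab2_OkU ((T : ℝ) / 50) (Tab2_goU T A c fs Fs) := by
  intro Fs
  induction Fs with
  | nil => intro T A c fs _ _ _ _; simp [Tab2_goU, Tab2_OkU]
  | cons F Fs ih =>
    intro T A c fs hT hS hL hU
    have hT1 : ((T - 1 : ℕ) : ℝ) = (T : ℝ) - 1 := by
      rw [Nat.cast_sub (by omega)]; simp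
    refine ⟨?_, ?_⟩
    · rcases min_choice F ((10001 * A + 10000 * T - 1) / (10000 * T) + c) with h | h
      · rw [h]; exact hU.1
      · rw [h]; exact hS.out
    · have e1 : (T : ℝ) / 50 - 1 / 50 = ((T - 1 : ℕ) : ℝ) / 50 := by rw [hT1]; ring
      have e2 : (T : ℝ) / 50 - 51 / 50 - 1 / 50 = ((T - 1 : ℕ) : ℝ) / 50 - 51 / 50 := by rw [hT1]; ring
      rw [e1]
      refine ih (T - 1) _ _ _ ?_ ?_ ?_ ?_
      · simp only [List.length_cons] at hT; omega
      · refine hS.next ?_ (min_le_left _ _) ?_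
        · simp only [List.length_cons] at hT; omega
        · have h0 : L2 ((T : ℝ) / 50 - 51 / 50) (((fs.headD 0 : ℕ) : ℝ) / 10 ^ 8) := by
            cases fs with
            | nil => simpa using L2_zero ((T : ℝ) / 50 - 51 / 50)
            | cons a l => exact hL.1
          refine h0.mono le_rfl ?_
          have : ((min c (fs.headD 0) : ℕ) : ℝ) ≤ (fs.headD 0 : ℕ) := by exact_mod_cast min_le_right _ _
          exact div_le_div_of_nonneg_right this (by norm_num)
      · cases fs with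
        | nil => simp [Tab2_OkL]
        | cons a l => have := hL.2; rw [e2] at this; exact this
      · have := hU.2; rw [e1] at this; exact this

private theorem Tab2_goL_ok : ∀ (fs : List ℕ) (T A c : ℕ) (Fs : List ℕ), T = fs.length + 49 → Tab2_StL T A c →
    Tab2_OkU ((T : ℝ) / 50 - 51 / 50) Fs → Tab2_OkL ((T : ℝ) / 50) fs →
    Tab2_OkL ((T : ℝ) / 50) (Tab2_goL T A c Fs fs) := by
  intro fs
  induction fs with
  | nil => intro T A c Fs _ _ _ _; simp [Tab2_goL, Tab2_OkL]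
  | cons f fs ih =>
    intro T A c Fs hT hS hU hL
    have hT1 : ((T - 1 : ℕ) : ℝ) = (T : ℝ) - 1 := by
      rw [Nat.cast_sub (by omega)]; simp
    have hmax : L2 ((T : ℝ) / 50) (((max f (c - (10001 * A + 10000 * T - 1) / (10000 * T)) : ℕ) : ℝ) / 10 ^ 8) := by
      rcases max_choice f (c - (10001 * A + 10000 * T - 1) / (10000 * T)) with h | h
      · rw [h]; exact hL.1
      · rw [h]; exact hS.out
    cases Fs with
    | nil => exact ⟨hmax, hL.2⟩
    | cons F Fs =>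
      refine ⟨hmax, ?_⟩
      have e1 : (T : ℝ) / 50 - 1 / 50 = ((T - 1 : ℕ) : ℝ) / 50 := by rw [hT1]; ring
      have e2 : (T : ℝ) / 50 - 51 / 50 - 1 / 50 = ((T - 1 : ℕ) : ℝ) / 50 - 51 / 50 := by rw [hT1]; ring
      rw [e1]
      refine ih (T - 1) _ _ _ ?_ ?_ ?_ ?_
      · simp only [List.length_cons] at hT; omega
      · refine hS.next ?_ (le_max_left _ _) ?_
        · simp only [List.length_cons] at hT; omega
        · refine hU.1.mono le_rfl ?_
          have : (F : ℝ) ≤ ((max c F : ℕ) : ℝ) := by exact_mod_cast le_max_right _ _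
          exact div_le_div_of_nonneg_right this (by norm_num)
      · have := hU.2; rw [e2] at this; exact this
      · have := hL.2; rw [e1] at this; exact this

private theorem Tab2_goU_length : ∀ (Fs : List ℕ) (T A c : ℕ) (fs : List ℕ), (Tab2_goU T A c fs Fs).length = Fs.length := by
  intro Fs
  induction Fs with
  | nil => intro T A c fs; simp [Tab2_goU]
  | cons F Fs ih => intro T A c fs; simp [Tab2_goU, ih]

private theorem Tab2_goL_length : ∀ (fs : List ℕ) (T A c : ℕ) (Fs : List ℕ), (Tab2_goL T A c Fs fs).length = fs.length := by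
  intro fs
  induction fs with
  | nil => intro T A c Fs; simp [Tab2_goL]
  | cons f fs ih =>
    intro T A c Fs
    cases Fs with
    | nil => simp [Tab2_goL]
    | cons F Fs => simp [Tab2_goL, ih]

/-- valid states -/
private def Tab2_Ok (x : List ℕ × List ℕ) : Prop :=
  x.1.length = 651 ∧ x.2.length = 651 ∧ Tab2_OkU 14 x.1 ∧ Tab2_OkL 14 x.2

private theorem Tab2_it_ok {x : List ℕ × List ℕ} (h : Tab2_Ok x) : Tab2_Ok (Tab2_it x) := by
  obtain ⟨hl1, hl2, hU, hL⟩ := h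
  have hU0 : U2 14 (((x.1.headD 0 : ℕ) : ℝ) / 10 ^ 8) := by
    have := Tab2_OkU_get x.1 14 hU 0 (by omega)
    cases hx : x.1 with
    | nil => rw [hx] at hl1; simp at hl1
    | cons a l => rw [hx] at this; simpa using this
  have hL0 : L2 14 (((x.2.headD 0 : ℕ) : ℝ) / 10 ^ 8) := by
    have := Tab2_OkL_get x.2 14 hL 0
    cases hx : x.2 with
    | nil => rw [hx] at hl2; simp at hl2
    | cons a l => rw [hx] at this; simpa using this
  have hL51 : L2 (649 / 50) (((x.2.getD 51 0 : ℕ) : ℝ) / 10 ^ 8) := by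
    have := Tab2_OkL_get x.2 14 hL 51
    norm_num at this ⊢
    exact this
  have hU51 : U2 (649 / 50) (((x.1.getD 51 0 : ℕ) : ℝ) / 10 ^ 8) := by
    have := Tab2_OkU_get x.1 14 hU 51 (by omega)
    norm_num at this ⊢
    exact this
  refine ⟨?_, ?_, ⟨hU0, ?_⟩, ⟨hL0, ?_⟩⟩
  · simp [Tab2_it, Tab2_goU_length, hl1]
  · simp [Tab2_it, Tab2_goL_length, hl2]
  · have e : (14 : ℝ) - 1 / 50 = ((699 : ℕ) : ℝ) / 50 := by norm_num
    rw [e]
    refine Tab2_goU_ok _ _ _ _ _ ?_ ?_ ?_ ?_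
    · simp [hl1]
    · refine Tab2_StU.init hU0 (min_le_right _ _) ?_
      refine hL51.mono le_rfl ?_
      have : ((min (x.2.getD 51 0) (x.1.headD 0) : ℕ) : ℝ) ≤ (x.2.getD 51 0 : ℕ) := by
        exact_mod_cast min_le_left _ _
      exact div_le_div_of_nonneg_right this (by norm_num)
    · have := Tab2_OkL_drop 52 x.2 14 hL
      norm_num at this ⊢
      exact this
    · have := Tab2_OkU_drop 1 x.1 14 hU
      norm_num at this ⊢
      exact this
  · have e : (14 : ℝ) - 1 / 50 = ((699 : ℕ) : ℝ) / 50 := by norm_num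
    rw [e]
    refine Tab2_goL_ok _ _ _ _ _ ?_ ?_ ?_ ?_
    · simp [hl2]
    · refine Tab2_StL.init hL0 (le_max_right _ _) ?_
      refine hU51.mono le_rfl ?_
      have : ((x.1.getD 51 0 : ℕ) : ℝ) ≤ ((max (x.1.getD 51 0) (x.2.headD 0) : ℕ) : ℝ) := by
        exact_mod_cast le_max_left _ _
      exact div_le_div_of_nonneg_right this (by norm_num)
    · have := Tab2_OkU_drop 52 x.1 14 hU
      norm_num at this ⊢
      exact this
    · have := Tab2_OkL_drop 1 x.2 14 hL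
      norm_num at this ⊢
      exact this

private theorem Tab2_iter_ok : ∀ (k : ℕ) (x : List ℕ × List ℕ), Tab2_Ok x → Tab2_Ok (Tab2_iter k x) := by
  intro k
  induction k with
  | zero => intro x h; exact h
  | succ k ih => intro x h; exact ih _ (Tab2_it_ok h)

/-- initial upper values at `(T-1)/10, ..., ` -/
private def Tab2_iU : ℕ → List ℕ
  | 0 => []
  | n + 1 => (10001 * 100015 * 700 * 1000 + 10000 * (n + 50) - 1) / (10000 * (n + 50)) :: Tab2_iU n

private def Tab2_iL : ℕ → List ℕ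
  | 0 => []
  | n + 1 => 0 :: Tab2_iL n

private def Tab2_init : List ℕ × List ℕ := (100015000 :: Tab2_iU 650, 99985000 :: Tab2_iL 650)

private theorem Tab2_iU_ok : ∀ n : ℕ, n ≤ 650 → Tab2_OkU (((n : ℝ) + 49) / 50) (Tab2_iU n) := by
  intro n
  induction n with
  | zero => intro _; simp [Tab2_iU, Tab2_OkU]
  | succ n ih =>
    intro hn
    have e : (((n + 1 : ℕ) : ℝ) + 49) / 50 - 1 / 50 = ((n : ℝ) + 49) / 50 := by push_cast; ring
    refine ⟨?_, ?_⟩
    · have hnr : (n : ℝ) ≤ 649 := by exact_mod_cast (show n ≤ 649 by omega)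
      have hpos : (0 : ℝ) < (((n + 1 : ℕ) : ℝ) + 49) / 50 := by positivity
      have h := U2_ext hpos (by push_cast; linarith) (by norm_num) (U2_of_U1 U1_base)
      refine h.mono le_rfl ?_
      have h1 : 10001 * 100015 * 700 * 1000 ≤
          (10001 * 100015 * 700 * 1000 + 10000 * (n + 50) - 1) / (10000 * (n + 50)) * (10000 * (n + 50)) := by
        have h := Nat.div_add_mod (10001 * 100015 * 700 * 1000 + 10000 * (n + 50) - 1) (10000 * (n + 50))
        have h2 := Nat.mod_lt (10001 * 100015 * 700 * 1000 + 10000 * (n + 50) - 1) (show 0 < 10000 * (n + 50) by omega)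
        have h3 : 10000 * (n + 50) * ((10001 * 100015 * 700 * 1000 + 10000 * (n + 50) - 1) / (10000 * (n + 50))) =
          (10001 * 100015 * 700 * 1000 + 10000 * (n + 50) - 1) / (10000 * (n + 50)) * (10000 * (n + 50)) := mul_comm _ _
        omega
      have h2 : (10001 * 100015 * 700 * 1000 : ℝ) ≤
          (((10001 * 100015 * 700 * 1000 + 10000 * (n + 50) - 1) / (10000 * (n + 50)) : ℕ) : ℝ) * (10000 * (n + 50)) := by
        exact_mod_cast h1
      have hn10 : (0 : ℝ) < (n : ℝ) + 50 := by positivity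
      have e2 : 1.0001 * 1.00015 * 14 / ((((n + 1 : ℕ) : ℝ) + 49) / 50) =
          (10001 * 100015 * 700 * 1000) / (10000 * ((n : ℝ) + 50)) / 10 ^ 8 := by
        have : (((n + 1 : ℕ) : ℝ) + 49) = (n : ℝ) + 50 := by push_cast; ring
        rw [this]
        field_simp
        norm_num
      rw [e2]
      apply div_le_div_of_nonneg_right _ (by norm_num)
      rw [div_le_iff₀ (by positivity)]
      exact h2
    · rw [e]
      exact ih (by omega)

private theorem Tab2_iL_ok : ∀ (n : ℕ) (s : ℝ), Tab2_OkL s (Tab2_iL n) := by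
  intro n
  induction n with
  | zero => intro s; simp [Tab2_iL, Tab2_OkL]
  | succ n ih => intro s; exact ⟨by simpa using L2_zero s, ih _⟩

private theorem Tab2_init_ok : Tab2_Ok Tab2_init := by
  refine ⟨by decide +kernel, by decide +kernel, ⟨?_, ?_⟩, ⟨?_, Tab2_iL_ok _ _⟩⟩
  · have := U2_of_U1 U1_base
    norm_num at this ⊢
    exact this
  · have := Tab2_iU_ok 650 le_rfl
    norm_num at this ⊢
    exact this
  · have := L2_of_L1 L1_base
    norm_num at this ⊢
    exact this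

private def Tab2_chk (x : List ℕ × List ℕ) : Bool :=
  decide (99780000 ≤ x.2.getD 424 0) && (decide (x.1.getD 424 0 ≤ 100250000) &&
    (List.range 17).all (fun k => decide (x.1.getD (482 + 8 * k) 0 ≤ FT k * 1000)))

private theorem Tab2_comp : Tab2_chk (Tab2_iter 20 Tab2_init) = true := by
  decide +kernel

private theorem Tab2_comp' : 99780000 ≤ (Tab2_iter 20 Tab2_init).2.getD 424 0 ∧
    (Tab2_iter 20 Tab2_init).1.getD 424 0 ≤ 100250000 ∧
    ∀ k < 17, (Tab2_iter 20 Tab2_init).1.getD (482 + 8 * k) 0 ≤ FT k * 1000 := by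
  have h := Tab2_comp
  unfold Tab2_chk at h
  rw [Bool.and_eq_true, Bool.and_eq_true, decide_eq_true_iff, decide_eq_true_iff, List.all_eq_true] at h
  refine ⟨h.1, h.2.1, fun k hk => ?_⟩
  have := h.2.2 k (List.mem_range.2 hk)
  exact of_decide_eq_true this

private theorem Tab2_finL (i v : ℕ) (h : v ≤ (Tab2_iter 20 Tab2_init).2.getD i 0) :
    L2 (14 - i / 50) ((v : ℝ) / 10 ^ 8) := by
  have h1 := Tab2_OkL_get _ 14 (Tab2_iter_ok 20 _ Tab2_init_ok).2.2.2 i
  refine h1.mono le_rfl ?_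
  have : (v : ℝ) ≤ (((Tab2_iter 20 Tab2_init).2.getD i 0 : ℕ) : ℝ) := by exact_mod_cast h
  exact div_le_div_of_nonneg_right this (by norm_num)

private theorem Tab2_finU (i v : ℕ) (hi : i < 651) (h : (Tab2_iter 20 Tab2_init).1.getD i 0 ≤ v) :
    U2 (14 - i / 50) ((v : ℝ) / 10 ^ 8) := by
  have h0 := Tab2_iter_ok 20 _ Tab2_init_ok
  have h1 := Tab2_OkU_get _ 14 h0.2.2.1 i (by rw [h0.1]; exact hi)
  refine h1.mono le_rfl ?_
  have : (((Tab2_iter 20 Tab2_init).1.getD i 0 : ℕ) : ℝ) ≤ (v : ℝ) := by exact_mod_cast h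
  exact div_le_div_of_nonneg_right this (by norm_num)

theorem tab_L : L2 5.52 0.9978 := by
  have := Tab2_finL 424 99780000 Tab2_comp'.1
  norm_num at this ⊢
  exact this

theorem tab_UA : U2 5.52 1.0025 := by
  have := Tab2_finU 424 100250000 (by norm_num) Tab2_comp'.2.1
  norm_num at this ⊢
  exact this

theorem tab_U (k : ℕ) (hk : k < 17) : U2 (4.36 - 0.16 * k) ((FT k : ℝ) / 10 ^ 5) := by
  have h := Tab2_finU (482 + 8 * k) (FT k * 1000) (by omega) (Tab2_comp'.2.2 k hk)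
  have e1 : (14 : ℝ) - ((482 + 8 * k : ℕ) : ℝ) / 50 = 4.36 - 0.16 * k := by
    push_cast
    norm_num
    ring
  have e2 : (((FT k * 1000 : ℕ) : ℝ)) / 10 ^ 8 = (FT k : ℝ) / 10 ^ 5 := by
    push_cast
    ring
  rw [e1, e2] at h
  exact h

end Pool.Agent.H36.IS2

end

section

/-!
# ISP NumD: the main constant

log(v'/v) ≤ (v' - v)(1/v + 1/v')/2 for v' ≥ v > 0 (convexity of 1/t; or: 2 log u ≤ u - 1/u for u ≥ 1).  With v_k = 1 + 0.16 k the sum
∑_{k<17} (0.16) (1/v_k + 1/v_{k+1})/2 · FT k/10^5 = 1.60347.., half of it 0.80173: 0.9978 - 0.80173.. = 0.19607.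
Rational arithmetic (norm_num [FT, Finset.sum_range_succ], or integers with decide +kernel).
-/

set_option autoImplicit false

namespace Pool.Agent.H36.IS2

open Finset Filter Pool.Agent.H36.IS

private theorem NumD_log (u : ℝ) (hu : 1 ≤ u) : Real.log u ≤ (u - u⁻¹) / 2 := by
  have h0 : 0 < u := by linarith
  have h := Real.self_le_sinh_iff.2 (Real.log_nonneg hu)
  rw [Real.sinh_eq, Real.exp_neg, Real.exp_log h0] at h
  exact h

private theorem NumD_term (k : ℕ) : Real.log ((1 + 0.16 * ((k : ℝ) + 1)) / (1 + 0.16 * (k : ℝ))) ≤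
    0.08 * (1 / (1 + 0.16 * (k : ℝ)) + 1 / (1 + 0.16 * ((k : ℝ) + 1))) := by
  have hk : (0 : ℝ) ≤ k := Nat.cast_nonneg k
  have h1 : (0 : ℝ) < 1 + 0.16 * (k : ℝ) := by positivity
  have h2 : (0 : ℝ) < 1 + 0.16 * ((k : ℝ) + 1) := by positivity
  have h3 : 1 ≤ (1 + 0.16 * ((k : ℝ) + 1)) / (1 + 0.16 * (k : ℝ)) := by
    rw [le_div_iff₀ h1]
    linarith
  refine (NumD_log _ h3).trans (le_of_eq ?_)
  rw [inv_div]
  field_simp
  ring

theorem numD : (0.19605 : ℝ) ≤ 0.9978 - 1 / 2 * ∑ k ∈ range 17,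
    Real.log ((1 + 0.16 * ((k : ℝ) + 1)) / (1 + 0.16 * (k : ℝ))) * ((FT k : ℝ) / 10 ^ 5) := by
  have h1 : ∑ k ∈ range 17, Real.log ((1 + 0.16 * ((k : ℝ) + 1)) / (1 + 0.16 * (k : ℝ))) * ((FT k : ℝ) / 10 ^ 5) ≤
      ∑ k ∈ range 17, 0.08 * (1 / (1 + 0.16 * (k : ℝ)) + 1 / (1 + 0.16 * ((k : ℝ) + 1))) * ((FT k : ℝ) / 10 ^ 5) :=
    Finset.sum_le_sum fun k _ => mul_le_mul_of_nonneg_right (NumD_term k) (by positivity)
  have h2 : ∑ k ∈ range 17, 0.08 * (1 / (1 + 0.16 * (k : ℝ)) + 1 / (1 + 0.16 * ((k : ℝ) + 1))) * ((FT k : ℝ) / 10 ^ 5) ≤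
      2 * (0.9978 - 0.19605) := by
    norm_num [FT, Finset.sum_range_succ]
  linarith

end Pool.Agent.H36.IS2

end

section

/-!
# ISP ArrE: the arrays cA, cB

ζ = 0.09, η = 0.3348 = ζ · 3.72, v_k = 1 + 0.16 k (k = 0..17, v_0 = 1, v_17 = 3.72), P' = PZ x ζ \ PZ x δ, Qs = PZ x η \ PZ x ζ.
cL from `wzL` (s = 5.52, f = 0.9978, `tab_L`), cA = cU from `wzU` (s = 5.52, F = 1.0025, `tab_UA`), c_k from `wzU` (s = 4.36 - 0.16 k = 5.52 - v_{k+1}, `tab_U`).
For q ∈ Qs let k(q) be the k with x^(ζ v_k) < q ≤ x^(ζ v_(k+1)); cq q = c_{k(q)}; level of q · c_{k(q)}: x^(ζ v_{k+1} + ζ (5.52 - v_{k+1})) = x^(0.4968).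
cB = cA - cL + (1/2) qarr Qs cq.  |cA| ≤ 1, |cB| ≤ 2.5.
Values (`qarr_ev`): evD cA m - evD cB m = evD cL m - (1/2) ∑_{q ∈ Qs, q ∣ m} evD (cq q) m ≤ [no p ∈ P' divides m] (1 - (1/2) #{q ∈ Qs, q ∣ m})
 (evD (cq q) m ≥ [rough] ≥ 0).  evD cA ≥ [rough] ≥ evD cL, so evD cB ≥ 0, evD cA ≥ 0.
Main values: evM cA ≤ (1.0025 + ε) V2; evM cA - evM cB = evM cL - (1/2) ∑_{q ∈ Qs} (1/q) evM (cq q)
 ≥ V2 [0.9978 - ε - (1/2) ∑_k (FT k/10^5 + ε)(log(v_{k+1}/v_k) + ε)] ≥ 0.196 V2   (1/q ≤ fn q, `mert_cell` on the cells, `numD`).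
evM cB = evM cA - (evM cA - evM cB) ; 0 ≤ evM cB: from the pointwise nonnegativity, or: evM cA ≥ evM cL and evM (cq q) ≥ 0. For the upper weights
 evM cA ≥ V2 ≥ evM cL would follow by multilinearity; simpler: use the extra clause of this statement only through the sum
 evM cA + evM cB ≤ 3 V2: evM cB ≤ evM cA - 0.196 V2 needs only the above.  For 0 ≤ evM cB use multilinearity (`Wts_nonneg_aux` in
 Pool/Agent/H36/IS/Wts.lean, copy: if ev c P y ≥ 0 for all 0/1 vectors y then ev c P g ≥ 0 for g in [0,1]); note that evD (PX x) c m ≥ 0 for all m gives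
 ev c (PX x) y ≥ 0 for all 0/1 vectors y (take m = the product of the p ∈ PX x with y p = 1).
-/

set_option autoImplicit false

namespace Pool.Agent.H36.IS2

open Finset Filter Pool.Agent.H36.IS

open Pool.Agent.H91.PK (ev ZO)

/-! ### multilinearity -/

private theorem ArrE_affine (c : Finset ℕ → ℝ) (P : Finset ℕ) (g : ℕ → ℝ) (a : ℕ) :
    ev c P g = g a * ev c P (Function.update g a 1) +
      (1 - g a) * ev c P (Function.update g a 0) := by
  unfold ev
  rw [Finset.mul_sum, Finset.mul_sum, ← Finset.sum_add_distrib]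
  refine Finset.sum_congr rfl fun T _ => ?_
  by_cases h : a ∈ T
  · have h1 : ∀ v : ℝ, ∏ p ∈ T, Function.update g a v p = v * ∏ p ∈ T.erase a, g p := by
      intro v
      rw [← Finset.mul_prod_erase T _ h, Function.update_self]
      congr 1
      exact Finset.prod_congr rfl fun p hp => Function.update_of_ne (Finset.ne_of_mem_erase hp) _ _
    rw [h1, h1, ← Finset.mul_prod_erase T g h]
    ring
  · have h1 : ∀ v : ℝ, ∏ p ∈ T, Function.update g a v p = ∏ p ∈ T, g p := by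
      intro v
      refine Finset.prod_congr rfl fun p hp => Function.update_of_ne ?_ _ _
      rintro rfl
      exact h hp
    rw [h1, h1]
    ring

private theorem ArrE_nonneg_aux (c : Finset ℕ → ℝ) (P : Finset ℕ) (h : ∀ y, ZO y → 0 ≤ ev c P y)
    (A : Finset ℕ) : ∀ g : ℕ → ℝ, (∀ p ∈ A, 0 ≤ g p ∧ g p ≤ 1) →
      (∀ p, p ∉ A → g p = 0 ∨ g p = 1) → 0 ≤ ev c P g := by
  induction A using Finset.induction_on with
  | empty =>
    intro g _ hg
    exact h g (fun p => hg p (Finset.notMem_empty p))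
  | insert a A ha ih =>
    intro g hg1 hg2
    rw [ArrE_affine c P g a]
    have h1 := hg1 a (mem_insert_self a A)
    have h2 : ∀ v : ℝ, v = 0 ∨ v = 1 → 0 ≤ ev c P (Function.update g a v) := by
      intro v hv
      apply ih
      · intro p hp
        have hne : p ≠ a := by
          rintro rfl
          exact ha hp
        rw [Function.update_of_ne hne]
        exact hg1 p (mem_insert_of_mem hp)
      · intro p hp
        by_cases e : p = a
        · subst e
          rw [Function.update_self]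
          exact hv
        · rw [Function.update_of_ne e]
          apply hg2
          rw [mem_insert, not_or]
          exact ⟨e, hp⟩
    have h3 := mul_nonneg h1.1 (h2 1 (Or.inr rfl))
    have h4 := mul_nonneg (by linarith : 0 ≤ 1 - g a) (h2 0 (Or.inl rfl))
    linarith

private theorem ArrE_ev_congr (c : Finset ℕ → ℝ) (P : Finset ℕ) {g g' : ℕ → ℝ}
    (h : ∀ p ∈ P, g p = g' p) : ev c P g = ev c P g' := by
  unfold ev
  refine Finset.sum_congr rfl fun T hT => ?_
  congr 1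
  exact Finset.prod_congr rfl fun p hp => h p (mem_powerset.mp hT hp)

private theorem ArrE_nonneg (c : Finset ℕ → ℝ) (P : Finset ℕ) (h : ∀ y, ZO y → 0 ≤ ev c P y)
    (g : ℕ → ℝ) (hg : ∀ p ∈ P, 0 ≤ g p ∧ g p ≤ 1) : 0 ≤ ev c P g := by
  classical
  rw [ArrE_ev_congr c P (g' := fun p => if p ∈ P then g p else 0)
    (fun p hp => by simp only [hp, if_true])]
  apply ArrE_nonneg_aux c P h P
  · intro p hp
    simp only [hp, if_true]
    exact hg p hp
  · intro p hp
    left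
    simp only [hp, if_false]

private theorem ArrE_PX {x p : ℕ} (hp : p ∈ PX x) : p.Prime := by
  unfold PX at hp
  exact (mem_filter.1 hp).2.1

private theorem ArrE_evM_nonneg (x : ℕ) (c : Finset ℕ → ℝ) (h : ∀ m, 0 ≤ evD (PX x) c m) :
    0 ≤ evM (PX x) c := by
  classical
  unfold evM
  refine ArrE_nonneg c (PX x) (fun y hy => ?_) _ fun p hp => ?_
  · have h1 := h (∏ p ∈ (PX x).filter (fun p => y p = 1), p)
    unfold evD at h1
    rw [ArrE_ev_congr c (PX x) (g := y)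
      (g' := fun p => if p ∣ ∏ p ∈ (PX x).filter (fun p => y p = 1), p then 1 else 0)]
    · exact h1
    · intro p hp
      rcases hy p with h0 | h0
      · rw [h0, if_neg]
        intro hd
        obtain ⟨q, hq, hpq⟩ := (ArrE_PX hp).prime.exists_mem_finset_dvd hd
        rw [mem_filter] at hq
        have : p = q := (Nat.prime_dvd_prime_iff_eq (ArrE_PX hp) (ArrE_PX hq.1)).1 hpq
        rw [← this, h0] at hq
        exact zero_ne_one hq.2
      · rw [h0, if_pos]
        exact Finset.dvd_prod_of_mem _ (mem_filter.2 ⟨hp, h0⟩)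
  · have h2 : (2 : ℝ) ≤ p := by exact_mod_cast (ArrE_PX hp).two_le
    refine ⟨by positivity, ?_⟩
    rw [div_le_one (by linarith)]
    linarith

/-! ### the cells -/

private theorem ArrE_mem {x p : ℕ} {a b : ℝ} : p ∈ PZ x b \ PZ x a ↔
    p ∈ PX x ∧ (p : ℝ) ≤ (x : ℝ) ^ b ∧ (x : ℝ) ^ a < p := by
  unfold PZ
  rw [Finset.mem_sdiff, Finset.mem_filter, Finset.mem_filter]
  constructor
  · rintro ⟨⟨h1, h2⟩, h3⟩
    exact ⟨h1, h2, lt_of_not_ge fun h => h3 ⟨h1, h⟩⟩
  · rintro ⟨h1, h2, h3⟩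
    exact ⟨⟨h1, h2⟩, fun h => absurd h.2 (not_le.2 h3)⟩

private theorem ArrE_cell (x : ℕ) : ∃ kq : ℕ → ℕ, ∀ q ∈ PZ x 0.3348 \ PZ x 0.09,
    kq q < 17 ∧ (x : ℝ) ^ ((0.09 : ℝ) * (1 + 0.16 * (kq q : ℝ))) < q ∧
      (q : ℝ) ≤ (x : ℝ) ^ ((0.09 : ℝ) * (1 + 0.16 * ((kq q : ℝ) + 1))) := by
  classical
  have key : ∀ q : ℕ, ∃ k : ℕ, q ∈ PZ x 0.3348 \ PZ x 0.09 →
      k < 17 ∧ (x : ℝ) ^ ((0.09 : ℝ) * (1 + 0.16 * (k : ℝ))) < q ∧
      (q : ℝ) ≤ (x : ℝ) ^ ((0.09 : ℝ) * (1 + 0.16 * ((k : ℝ) + 1))) := by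
    intro q
    by_cases hq : q ∈ PZ x 0.3348 \ PZ x 0.09
    · obtain ⟨-, h1, h2⟩ := ArrE_mem.1 hq
      have h16 : (q : ℝ) ≤ (x : ℝ) ^ ((0.09 : ℝ) * (1 + 0.16 * (((16 : ℕ) : ℝ) + 1))) := by
        have e : (0.09 : ℝ) * (1 + 0.16 * (((16 : ℕ) : ℝ) + 1)) = 0.3348 := by norm_num
        rw [e]
        exact h1
      have hex : ∃ k : ℕ, (q : ℝ) ≤ (x : ℝ) ^ ((0.09 : ℝ) * (1 + 0.16 * ((k : ℝ) + 1))) :=
        ⟨16, h16⟩
      refine ⟨Nat.find hex, fun _ => ⟨?_, ?_, Nat.find_spec hex⟩⟩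
      · have := Nat.find_min' hex h16
        omega
      · rcases Nat.eq_zero_or_pos (Nat.find hex) with h0 | h0
        · rw [h0]
          have e : (0.09 : ℝ) * (1 + 0.16 * ((0 : ℕ) : ℝ)) = 0.09 := by norm_num
          rw [e]
          exact h2
        · have h3 := Nat.find_min hex (m := Nat.find hex - 1) (by omega)
          have e : ((Nat.find hex - 1 : ℕ) : ℝ) + 1 = (Nat.find hex : ℝ) := by
            rw [Nat.cast_sub (by omega)]
            push_cast
            ring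
          rw [e] at h3
          exact lt_of_not_ge h3
    · exact ⟨0, fun h => absurd h hq⟩
  choose kq hkq using key
  exact ⟨kq, hkq⟩

private theorem ArrE_sum (x : ℕ) (kq : ℕ → ℕ) (hkq : ∀ q ∈ PZ x 0.3348 \ PZ x 0.09,
    kq q < 17 ∧ (x : ℝ) ^ ((0.09 : ℝ) * (1 + 0.16 * (kq q : ℝ))) < q ∧
      (q : ℝ) ≤ (x : ℝ) ^ ((0.09 : ℝ) * (1 + 0.16 * ((kq q : ℝ) + 1)))) (w : ℕ → ℝ) (hw : ∀ k, 0 ≤ w k) :
    ∑ q ∈ PZ x 0.3348 \ PZ x 0.09, 1 / (q : ℝ) * w (kq q) ≤ ∑ k ∈ range 17, w k *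
      ∑ p ∈ (PX x).filter (fun p : ℕ => (x : ℝ) ^ ((0.09 : ℝ) * (1 + 0.16 * (k : ℝ))) < p ∧
        (p : ℝ) ≤ (x : ℝ) ^ ((0.09 : ℝ) * (1 + 0.16 * ((k : ℝ) + 1)))), fn p := by
  classical
  rw [← Finset.sum_fiberwise_of_maps_to (t := range 17) (g := kq)
    (fun q hq => mem_range.2 (hkq q hq).1)]
  refine Finset.sum_le_sum fun k _ => ?_
  rw [Finset.mul_sum]
  refine le_trans (Finset.sum_le_sum (g := fun q => w k * fn q) fun q hq => ?_)
    (Finset.sum_le_sum_of_subset_of_nonneg ?_ fun q hq _ => ?_)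
  · obtain ⟨hq1, hq2⟩ := mem_filter.1 hq
    have h2 : (2 : ℝ) ≤ q := by exact_mod_cast (ArrE_PX (ArrE_mem.1 hq1).1).two_le
    rw [hq2, mul_comm]
    refine mul_le_mul_of_nonneg_left ?_ (hw k)
    unfold fn
    exact one_div_le_one_div_of_le (by linarith) (by linarith)
  · intro q hq
    obtain ⟨hq1, hq2⟩ := mem_filter.1 hq
    have h1 := hkq q hq1
    rw [hq2] at h1
    exact mem_filter.2 ⟨(ArrE_mem.1 hq1).1, h1.2⟩
  · have h2 : (2 : ℝ) ≤ q := by exact_mod_cast (ArrE_PX (mem_filter.1 hq).1).two_le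
    refine mul_nonneg (hw k) ?_
    unfold fn
    exact div_nonneg zero_le_one (by linarith)

/-! ### the constant -/

private theorem ArrE_FT (k : ℕ) (hk : k ∈ range 17) : (FT k : ℝ) / 10 ^ 5 ≤ 2.03 := by
  have h1 : FT k ≤ 203000 := by
    rw [mem_range] at hk
    interval_cases k <;> simp [FT]
  have h2 : (FT k : ℝ) ≤ 203000 := by exact_mod_cast h1
  rw [div_le_iff₀ (by norm_num)]
  linarith

private theorem ArrE_log (k : ℕ) : 0 ≤ Real.log ((1 + 0.16 * ((k : ℝ) + 1)) / (1 + 0.16 * (k : ℝ))) ∧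
    Real.log ((1 + 0.16 * ((k : ℝ) + 1)) / (1 + 0.16 * (k : ℝ))) ≤ 0.16 := by
  have hk : (0 : ℝ) ≤ k := Nat.cast_nonneg k
  have h1 : (0 : ℝ) < 1 + 0.16 * (k : ℝ) := by positivity
  constructor
  · refine Real.log_nonneg ?_
    rw [one_le_div h1]
    linarith
  · have h2 := Real.log_le_sub_one_of_pos
      (x := (1 + 0.16 * ((k : ℝ) + 1)) / (1 + 0.16 * (k : ℝ))) (by positivity)
    have h3 : (1 + 0.16 * ((k : ℝ) + 1)) / (1 + 0.16 * (k : ℝ)) ≤ 1.16 := by
      rw [div_le_iff₀ h1]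
      nlinarith
    linarith

private theorem ArrE_const (ε : ℝ) (hε : 0 < ε) (hε1 : ε ≤ 1 / 10 ^ 6) :
    0.196 ≤ (0.9978 - ε) - 1 / 2 * ∑ k ∈ range 17, ((FT k : ℝ) / 10 ^ 5 + ε) *
      (Real.log ((1 + 0.16 * ((k : ℝ) + 1)) / (1 + 0.16 * (k : ℝ))) + ε) := by
  have h1 := numD
  have h2 : ∑ k ∈ range 17, ((FT k : ℝ) / 10 ^ 5 + ε) *
      (Real.log ((1 + 0.16 * ((k : ℝ) + 1)) / (1 + 0.16 * (k : ℝ))) + ε) ≤
      ∑ k ∈ range 17, (Real.log ((1 + 0.16 * ((k : ℝ) + 1)) / (1 + 0.16 * (k : ℝ))) *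
        ((FT k : ℝ) / 10 ^ 5) + 3 * ε) := by
    refine Finset.sum_le_sum fun k hk => ?_
    have h3 := ArrE_FT k hk
    obtain ⟨h4, h5⟩ := ArrE_log k
    set L : ℝ := Real.log ((1 + 0.16 * ((k : ℝ) + 1)) / (1 + 0.16 * (k : ℝ)))
    set F : ℝ := (FT k : ℝ) / 10 ^ 5
    have e : (F + ε) * (L + ε) = L * F + ε * (L + F + ε) := by ring
    rw [e]
    have h6 : L + F + ε ≤ 3 := by
      have : (1 : ℝ) / 10 ^ 6 ≤ 0.1 := by norm_num
      linarith
    have h7 := mul_le_mul_of_nonneg_left h6 hε.le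
    linarith
  rw [Finset.sum_add_distrib, Finset.sum_const, card_range, nsmul_eq_mul] at h2
  push_cast at h2
  have h8 : (52 / 2 : ℝ) * ε + ε ≤ 0.00005 := by
    have : (1 : ℝ) / 10 ^ 6 * 27 ≤ 0.00005 := by norm_num
    linarith
  linarith

/-! ### the arrays -/

/-- the array `cB` -/
private noncomputable def ArrE_cB (Qs : Finset ℕ) (cU cL : Finset ℕ → ℝ) (cq : ℕ → Finset ℕ → ℝ) :
    Finset ℕ → ℝ := fun T => cU T - cL T + 1 / 2 * qarr Qs cq T

private theorem ArrE_ev_cB (P Qs : Finset ℕ) (cU cL : Finset ℕ → ℝ) (cq : ℕ → Finset ℕ → ℝ)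
    (y : ℕ → ℝ) : ev (ArrE_cB Qs cU cL cq) P y =
      ev cU P y - ev cL P y + 1 / 2 * ev (qarr Qs cq) P y := by
  unfold ev ArrE_cB
  rw [Finset.mul_sum, ← Finset.sum_sub_distrib, ← Finset.sum_add_distrib]
  exact Finset.sum_congr rfl fun T _ => by ring

/-- the support condition -/
private def ArrE_S (x : ℕ) (δ : ℝ) (T : Finset ℕ) : Prop :=
  T ⊆ PX x ∧ (∀ p ∈ T, (x : ℝ) ^ δ < p) ∧ ∏ p ∈ T, (p : ℝ) ≤ (x : ℝ) ^ (0.4968 : ℝ)

private theorem ArrE_sup {x : ℕ} {δ s : ℝ} {c : Finset ℕ → ℝ} (hs : (0.09 : ℝ) * s = 0.4968)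
    (hc : ∀ T, c T ≠ 0 → T ⊆ PZ x 0.09 \ PZ x δ ∧ ∏ p ∈ T, (p : ℝ) ≤ (x : ℝ) ^ ((0.09 : ℝ) * s))
    (T : Finset ℕ) (hT : c T ≠ 0) : ArrE_S x δ T := by
  obtain ⟨h1, h2⟩ := hc T hT
  rw [hs] at h2
  exact ⟨fun p hp => (ArrE_mem.1 (h1 hp)).1, fun p hp => (ArrE_mem.1 (h1 hp)).2.2, h2⟩

theorem arr_exists (δ : ℝ) (hδ : 0 < δ) (hδ1 : δ < 0.09) : ∀ᶠ x : ℕ in atTop, ∃ cA cB : Finset ℕ → ℝ,
    ArrN x δ ((x : ℝ) ^ (0.4968 : ℝ)) cA ∧ ArrN x δ ((x : ℝ) ^ (0.4968 : ℝ)) cB ∧
    (∀ m, evD (PX x) cA m - evD (PX x) cB m ≤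
      if ∀ p ∈ PZ x 0.09 \ PZ x δ, ¬ p ∣ m then 1 - 1 / 2 * (((PZ x 0.3348 \ PZ x 0.09).filter (fun q => q ∣ m)).card : ℝ) else 0) ∧
    evM (PX x) cA + evM (PX x) cB ≤ 3 * V2 x δ 0.09 ∧
    0.196 * V2 x δ 0.09 ≤ evM (PX x) cA - evM (PX x) cB := by
  classical
  set ε : ℝ := 1 / 10 ^ 6 with hεd
  have hε : 0 < ε := by rw [hεd]; norm_num
  have hζ : (0.09 : ℝ) ≤ 1 := by norm_num
  obtain ⟨cv, hcv, hV⟩ := V2_pos δ 0.09 hδ hδ1.le hζ
  have hL := wzL δ 0.09 5.52 0.9978 ε hδ hδ1.le hζ (by norm_num) (by norm_num) tab_L hε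
  have hU := wzU δ 0.09 5.52 1.0025 ε hδ hδ1.le hζ (by norm_num) (by norm_num) tab_UA hε
  have hUk : ∀ᶠ x : ℕ in atTop, ∀ k ∈ range 17, ∃ c : Finset ℕ → ℝ, (∀ T, |c T| ≤ 1) ∧
      (∀ T, c T ≠ 0 → T ⊆ PZ x 0.09 \ PZ x δ ∧
        ∏ p ∈ T, (p : ℝ) ≤ (x : ℝ) ^ ((0.09 : ℝ) * (4.36 - 0.16 * (k : ℝ)))) ∧
      (∀ m, (if ∀ p ∈ PZ x 0.09 \ PZ x δ, ¬ p ∣ m then 1 else 0) ≤ evD (PX x) c m) ∧
      evM (PX x) c ≤ ((FT k : ℝ) / 10 ^ 5 + ε) * V2 x δ 0.09 ∧ 0 ≤ evM (PX x) c := by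
    rw [Filter.eventually_all_finset]
    intro k hk
    rw [mem_range] at hk
    refine wzU δ 0.09 (4.36 - 0.16 * (k : ℝ)) ((FT k : ℝ) / 10 ^ 5) ε hδ hδ1.le hζ ?_ (by positivity)
      (tab_U k hk) hε
    have : (k : ℝ) ≤ 16 := by
      have : k ≤ 16 := by omega
      exact_mod_cast this
    linarith
  have hcell : ∀ᶠ x : ℕ in atTop, ∀ k ∈ range 17,
      ∑ p ∈ (PX x).filter (fun p : ℕ => (x : ℝ) ^ ((0.09 : ℝ) * (1 + 0.16 * (k : ℝ))) < p ∧
        (p : ℝ) ≤ (x : ℝ) ^ ((0.09 : ℝ) * (1 + 0.16 * ((k : ℝ) + 1)))), fn p ≤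
        Real.log ((1 + 0.16 * ((k : ℝ) + 1)) / (1 + 0.16 * (k : ℝ))) + ε := by
    rw [Filter.eventually_all_finset]
    intro k hk
    rw [mem_range] at hk
    have hk0 : (0 : ℝ) ≤ k := Nat.cast_nonneg k
    have hk16 : (k : ℝ) ≤ 16 := by
      have : k ≤ 16 := by omega
      exact_mod_cast this
    have h1 := mert_cell ((0.09 : ℝ) * (1 + 0.16 * (k : ℝ))) ((0.09 : ℝ) * (1 + 0.16 * ((k : ℝ) + 1))) ε
      (by positivity) (by linarith) (by linarith) hε
    filter_upwards [h1] with x hx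
    rwa [mul_div_mul_left _ _ (by norm_num : (0.09 : ℝ) ≠ 0)] at hx
  filter_upwards [hV, hL, hU, hUk, hcell, eventually_ge_atTop 1] with x h1 h2 h3 h4 h5 h6
  obtain ⟨hV1, -, -⟩ := h1
  have hV0 : 0 < V2 x δ 0.09 := lt_of_lt_of_le hcv hV1
  obtain ⟨cL, hL1, hL2, hL3, hL4⟩ := h2
  obtain ⟨cU, hU1, hU2, hU3, hU4, hU5⟩ := h3
  have hx1 : (1 : ℝ) ≤ x := by exact_mod_cast h6
  -- the arrays of the cells
  have hck : ∀ k : ℕ, ∃ c : Finset ℕ → ℝ, k < 17 → (∀ T, |c T| ≤ 1) ∧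
      (∀ T, c T ≠ 0 → T ⊆ PZ x 0.09 \ PZ x δ ∧
        ∏ p ∈ T, (p : ℝ) ≤ (x : ℝ) ^ ((0.09 : ℝ) * (4.36 - 0.16 * (k : ℝ)))) ∧
      (∀ m, (if ∀ p ∈ PZ x 0.09 \ PZ x δ, ¬ p ∣ m then 1 else 0) ≤ evD (PX x) c m) ∧
      evM (PX x) c ≤ ((FT k : ℝ) / 10 ^ 5 + ε) * V2 x δ 0.09 ∧ 0 ≤ evM (PX x) c := by
    intro k
    by_cases hk : k < 17
    · obtain ⟨c, hc⟩ := h4 k (mem_range.2 hk)
      exact ⟨c, fun _ => hc⟩
    · exact ⟨0, fun h => absurd h hk⟩
  choose ck hck' using hck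
  obtain ⟨kq, hkq⟩ := ArrE_cell x
  set Qs : Finset ℕ := PZ x 0.3348 \ PZ x 0.09 with hQs
  set P' : Finset ℕ := PZ x 0.09 \ PZ x δ with hP'
  set cq : ℕ → Finset ℕ → ℝ := fun q => ck (kq q) with hcq
  have hQX : Qs ⊆ PX x := fun q hq => (ArrE_mem.1 hq).1
  have hPX : P' ⊆ PX x := fun q hq => (ArrE_mem.1 hq).1
  have hdisj : Disjoint Qs P' := by
    rw [Finset.disjoint_left]
    intro q hq hq'
    have h7 := (ArrE_mem.1 hq).2.2
    have h8 := (ArrE_mem.1 hq').2.1
    linarith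
  have hcqP : ∀ q ∈ Qs, ∀ T, cq q T ≠ 0 → T ⊆ P' := fun q hq T hT =>
    ((hck' (kq q) (hkq q hq).1).2.1 T hT).1
  have hcq1 : ∀ q ∈ Qs, ∀ T, |cq q T| ≤ 1 := fun q hq T => (hck' (kq q) (hkq q hq).1).1 T
  -- values
  have hcBD : ∀ m, evD (PX x) (ArrE_cB Qs cU cL cq) m = evD (PX x) cU m - evD (PX x) cL m +
      1 / 2 * ∑ q ∈ Qs, (if q ∣ m then 1 else 0) * evD (PX x) (cq q) m := by
    intro m
    unfold evD
    rw [ArrE_ev_cB, qarr_ev hQX hPX hdisj hcqP]
  have hcBM : evM (PX x) (ArrE_cB Qs cU cL cq) = evM (PX x) cU - evM (PX x) cL +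
      1 / 2 * ∑ q ∈ Qs, 1 / (q : ℝ) * evM (PX x) (cq q) := by
    unfold evM
    rw [ArrE_ev_cB, qarr_ev hQX hPX hdisj hcqP]
  have hind : ∀ m : ℕ, (0 : ℝ) ≤ if ∀ p ∈ P', ¬ p ∣ m then 1 else 0 := by
    intro m
    split_ifs
    · exact zero_le_one
    · exact le_rfl
  have hcqD : ∀ q ∈ Qs, ∀ m, (if ∀ p ∈ P', ¬ p ∣ m then 1 else 0) ≤ evD (PX x) (cq q) m :=
    fun q hq m => (hck' (kq q) (hkq q hq).1).2.2.1 m
  have hsumD : ∀ m, 0 ≤ ∑ q ∈ Qs, (if q ∣ m then (1 : ℝ) else 0) * evD (PX x) (cq q) m := by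
    intro m
    refine Finset.sum_nonneg fun q hq => mul_nonneg ?_ ((hind m).trans (hcqD q hq m))
    split_ifs
    · exact zero_le_one
    · exact le_rfl
  have hBD : ∀ m, 0 ≤ evD (PX x) (ArrE_cB Qs cU cL cq) m := by
    intro m
    rw [hcBD]
    have h7 := hU3 m
    have h8 := hL3 m
    have h9 := hsumD m
    linarith
  have hsumM : ∑ q ∈ Qs, 1 / (q : ℝ) * evM (PX x) (cq q) ≤
      (∑ k ∈ range 17, ((FT k : ℝ) / 10 ^ 5 + ε) *
        (Real.log ((1 + 0.16 * ((k : ℝ) + 1)) / (1 + 0.16 * (k : ℝ))) + ε)) * V2 x δ 0.09 := by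
    have hw : ∀ k : ℕ, 0 ≤ (FT k : ℝ) / 10 ^ 5 + ε := fun k => by positivity
    have h7 := ArrE_sum x kq hkq (fun k => (FT k : ℝ) / 10 ^ 5 + ε) hw
    have h8 : ∑ q ∈ Qs, 1 / (q : ℝ) * evM (PX x) (cq q) ≤
        (∑ q ∈ Qs, 1 / (q : ℝ) * ((FT (kq q) : ℝ) / 10 ^ 5 + ε)) * V2 x δ 0.09 := by
      rw [Finset.sum_mul]
      refine Finset.sum_le_sum fun q hq => ?_
      rw [mul_assoc]
      exact mul_le_mul_of_nonneg_left (hck' (kq q) (hkq q hq).1).2.2.2.1 (by positivity)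
    refine h8.trans (mul_le_mul_of_nonneg_right (h7.trans ?_) hV0.le)
    exact Finset.sum_le_sum fun k hk => mul_le_mul_of_nonneg_left (h5 k hk) (hw k)
  have hmain : 0.196 * V2 x δ 0.09 ≤ evM (PX x) cU - evM (PX x) (ArrE_cB Qs cU cL cq) := by
    rw [hcBM]
    have h7 := ArrE_const ε hε le_rfl
    have h8 := mul_le_mul_of_nonneg_right h7 hV0.le
    have h9 : (0.9978 - ε - 1 / 2 * ∑ k ∈ range 17, ((FT k : ℝ) / 10 ^ 5 + ε) *
      (Real.log ((1 + 0.16 * ((k : ℝ) + 1)) / (1 + 0.16 * (k : ℝ))) + ε)) * V2 x δ 0.09 =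
      (0.9978 - ε) * V2 x δ 0.09 - 1 / 2 * ((∑ k ∈ range 17, ((FT k : ℝ) / 10 ^ 5 + ε) *
        (Real.log ((1 + 0.16 * ((k : ℝ) + 1)) / (1 + 0.16 * (k : ℝ))) + ε)) * V2 x δ 0.09) := by
      ring
    rw [h9] at h8
    linarith
  refine ⟨cU, ArrE_cB Qs cU cL cq, ⟨fun T => ⟨?_, fun hT => ?_⟩, fun m => ?_, hU5⟩,
    ⟨fun T => ⟨?_, fun hT => ?_⟩, hBD, ArrE_evM_nonneg x _ hBD⟩, fun m => ?_, ?_, hmain⟩
  · have := hU1 T
    linarith
  · exact ArrE_sup (by norm_num) hU2 T hT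
  · exact (hind m).trans (hU3 m)
  · have e1 := abs_le.1 (hU1 T)
    have e2 := abs_le.1 (hL1 T)
    have e3 := abs_le.1 (qarr_bd hdisj hcqP hcq1 T)
    unfold ArrE_cB
    rw [abs_le]
    constructor
    · linarith [e1.1, e2.2, e3.1]
    · linarith [e1.2, e2.1, e3.2]
  · by_cases g1 : cU T = 0
    · by_cases g2 : cL T = 0
      · have g3 : qarr Qs cq T ≠ 0 := by
          intro g3
          apply hT
          unfold ArrE_cB
          rw [g1, g2, g3]
          ring
        obtain ⟨q, hq, hqT, hne, -⟩ := qarr_sup hdisj hcqP T g3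
        obtain ⟨hs1, hs2⟩ := (hck' (kq q) (hkq q hq).1).2.1 _ hne
        have hqm := ArrE_mem.1 hq
        have hmem : ∀ p ∈ T, p = q ∨ p ∈ P' := by
          intro p hp
          by_cases hpq : p = q
          · exact Or.inl hpq
          · exact Or.inr (hs1 (Finset.mem_erase.2 ⟨hpq, hp⟩))
        refine ⟨fun p hp => ?_, fun p hp => ?_, ?_⟩
        · rcases hmem p hp with h | h
          · rw [h]
            exact hqm.1
          · exact hPX h
        · rcases hmem p hp with h | h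
          · rw [h]
            refine lt_of_le_of_lt ?_ hqm.2.2
            exact Real.rpow_le_rpow_of_exponent_le hx1 hδ1.le
          · exact (ArrE_mem.1 h).2.2
        · rw [← Finset.mul_prod_erase T _ hqT]
          have hx0 : (0 : ℝ) < x := by linarith
          calc (q : ℝ) * ∏ p ∈ T.erase q, (p : ℝ) ≤
                (x : ℝ) ^ ((0.09 : ℝ) * (1 + 0.16 * ((kq q : ℝ) + 1))) *
                  (x : ℝ) ^ ((0.09 : ℝ) * (4.36 - 0.16 * (kq q : ℝ))) :=
                mul_le_mul (hkq q hq).2.2 hs2 (by positivity) (by positivity)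
            _ = (x : ℝ) ^ (0.4968 : ℝ) := by
                rw [← Real.rpow_add hx0]
                congr 1
                ring
      · exact ArrE_sup (by norm_num) hL2 T g2
    · exact ArrE_sup (by norm_num) hU2 T g1
  · rw [hcBD]
    have g1 := hL3 m
    split_ifs with g2
    · rw [if_pos g2] at g1
      have g3 : ((Qs.filter (fun q => q ∣ m)).card : ℝ) ≤
          ∑ q ∈ Qs, (if q ∣ m then (1 : ℝ) else 0) * evD (PX x) (cq q) m := by
        rw [Finset.card_filter]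
        push_cast
        refine Finset.sum_le_sum fun q hq => ?_
        have g4 := hcqD q hq m
        rw [if_pos g2] at g4
        split_ifs
        · rw [one_mul]
          exact g4
        · rw [zero_mul]
      linarith
    · rw [if_neg g2] at g1
      have g3 := hsumD m
      linarith
  · have g1 : (1.0025 + ε) * V2 x δ 0.09 ≤ 1.01 * V2 x δ 0.09 := by
      refine mul_le_mul_of_nonneg_right ?_ hV0.le
      rw [hεd]
      norm_num
    linarith

end Pool.Agent.H36.IS2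

end
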