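import Pool.Agent.H15.TB1.M24

/-! The parts of this file: H36.IS.AsyB. -/

section

/-!
# IS AsyB: the Brun tail, and the change of density

* `brun_tail`: L = log x, l = log L, log z0 = L/l².  Take t + 1 = ⌊η l²⌋: z0^(t+1) ≤ x^η.  ∑_{p≤z0} fn p ≤ l + C (`sum_fn_le`), so with
  m = t+1 ≥ η l²/2:  (k(l+C))^m/m! ≤ (e k (l+C)/m)^m ≤ (4 e k (l+C)/(η l²)·...)^m, the base is ≤ e^{-1} for large l (it is O(1/l)) and
  m ≥ (A+1) l + 1; so 2(..) ≤ 2 e^{-m} ≤ L^{-A}.   (m! ≥ (m/e)^m.)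
* `fn_gi`: for Q ⊆ EX with ∏_{e∈Q} e.2 ≤ x: |Q| log z0 ≤ log x, so |Q| ≤ l²; with a_e = gi e = 1/p ≤ fn e.2 = 1/(p-1),
  0 ≤ ∏ fn - ∏ gi = ∏ fn (1 - ∏(1-1/p)) ≤ ∏ fn · |Q|/z0 ≤ ∏ fn · l²/z0 ≤ ∏ fn/(log x)^A.
-/

set_option autoImplicit false

namespace Pool.Agent.H36.IS

open Finset Filter

private theorem AsyB_L : Tendsto (fun x : ℕ => Real.log (x : ℝ)) atTop atTop :=
  Real.tendsto_log_atTop.comp tendsto_natCast_atTop_atTop

private theorem AsyB_l : Tendsto (fun x : ℕ => Real.log (Real.log (x : ℝ))) atTop atTop :=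
  Real.tendsto_log_atTop.comp AsyB_L

private theorem AsyB_fn_nonneg {p : ℕ} (hp : 1 ≤ p) : 0 ≤ fn p := by
  unfold fn
  have : (1 : ℝ) ≤ p := by exact_mod_cast hp
  exact div_nonneg zero_le_one (by linarith only [this])

private theorem AsyB_pow_le (y : ℝ) (hy : 0 ≤ y) (m : ℕ) :
    y ^ m / (m.factorial : ℝ) ≤ Real.exp (Real.exp 1 * y - m) := by
  have h1 := Real.pow_div_factorial_le_exp (Real.exp 1 * y) (mul_nonneg (Real.exp_pos 1).le hy) m
  rw [mul_pow, ← Real.exp_nat_mul, mul_one] at h1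
  rw [Real.exp_sub, le_div_iff₀ (Real.exp_pos _)]
  calc y ^ m / (m.factorial : ℝ) * Real.exp m = Real.exp m * y ^ m / (m.factorial : ℝ) := by ring
    _ ≤ _ := h1

private theorem AsyB_quad (η a b : ℝ) (hη : 0 < η) : ∀ᶠ l : ℝ in atTop, a * l + b ≤ η * l ^ 2 := by
  filter_upwards [eventually_ge_atTop 1, eventually_ge_atTop ((|a| + |b|) / η)] with l h1 h2
  rw [div_le_iff₀ hη] at h2
  have h3 : a * l ≤ |a| * l := mul_le_mul_of_nonneg_right (le_abs_self a) (by linarith only [h1])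
  have h4 : b ≤ |b| * l := (le_abs_self b).trans (le_mul_of_one_le_right (abs_nonneg b) h1)
  linarith only [h3, h4, mul_le_mul_of_nonneg_right h2 (by linarith only [h1] : (0 : ℝ) ≤ l)]

theorem brun_tail (k : ℝ) (A : ℕ) (η : ℝ) (hk : 0 ≤ k) (hη : 0 < η) : ∀ᶠ x : ℕ in atTop, ∃ t : ℕ,
    z0 x ^ (t + 1) ≤ (x : ℝ) ^ η ∧
      2 * (k * ∑ p ∈ PA x, fn p) ^ (t + 1) / (t + 1).factorial ≤ 1 / Real.log x ^ A := by
  obtain ⟨C, hC⟩ := sum_fn_le
  have hq := AsyB_l.eventually (AsyB_quad η (A + Real.exp 1 * k) (Real.exp 1 * k * C + 3) hη)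
  filter_upwards [hC, hq, AsyB_l.eventually (eventually_ge_atTop 1), AsyB_L.eventually (eventually_ge_atTop 1),
    eventually_ge_atTop 2, AsyB_l.eventually (AsyB_quad η 0 1 hη)] with x hx hq hl hL hx2 hq1
  set L := Real.log (x : ℝ) with hLd
  set l := Real.log L with hld
  have hxpos : (0 : ℝ) < x := by
    have : 0 < x := by omega
    exact_mod_cast this
  set m := ⌊η * l ^ 2⌋₊ with hm
  have hm1 : 1 ≤ m := by
    rw [hm]
    apply Nat.le_floor
    push_cast
    linarith only [hq1]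
  have hmle : (m : ℝ) ≤ η * l ^ 2 := Nat.floor_le (by positivity)
  have hmge : η * l ^ 2 - 1 < m := by
    have := Nat.lt_floor_add_one (η * l ^ 2)
    rw [← hm] at this
    linarith only [this]
  refine ⟨m - 1, ?_, ?_⟩
  · rw [Nat.sub_add_cancel hm1]
    unfold z0
    rw [← Real.exp_nat_mul, Real.rpow_def_of_pos hxpos]
    apply Real.exp_le_exp.mpr
    rw [← hLd, ← hld]
    have hl2 : 0 < l ^ 2 := by positivity
    have : (m : ℝ) * (L / l ^ 2) ≤ (η * l ^ 2) * (L / l ^ 2) :=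
      mul_le_mul_of_nonneg_right hmle (by positivity)
    calc (m : ℝ) * (L / l ^ 2) ≤ (η * l ^ 2) * (L / l ^ 2) := this
      _ = L * η := by field_simp
  · rw [Nat.sub_add_cancel hm1]
    set S := ∑ p ∈ PA x, fn p with hS
    have hS0 : 0 ≤ S := by
      apply Finset.sum_nonneg
      intro p hp
      unfold PA at hp
      rw [Finset.mem_filter] at hp
      exact AsyB_fn_nonneg hp.2.1.one_lt.le
    have hSle : S ≤ l + C := by
      refine le_trans ?_ hx
      apply Finset.sum_le_sum_of_subset_of_nonneg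
      · intro p hp
        unfold PA at hp
        rw [Finset.mem_filter] at hp ⊢
        exact ⟨hp.1, hp.2.1⟩
      · intro p hp _
        rw [Finset.mem_filter] at hp
        exact AsyB_fn_nonneg hp.2.one_lt.le
    have h1 := AsyB_pow_le (k * S) (mul_nonneg hk hS0) m
    have h2 : (2 : ℝ) ≤ Real.exp 1 := by
      have := Real.add_one_le_exp (1 : ℝ)
      linarith only [this]
    have hLA : L ^ A = Real.exp (A * l) := by
      rw [Real.exp_nat_mul, hld, Real.exp_log (by linarith only [hL])]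
    rw [hLA, one_div, ← Real.exp_neg]
    calc 2 * (k * S) ^ m / (m.factorial : ℝ) = 2 * ((k * S) ^ m / (m.factorial : ℝ)) := by ring
      _ ≤ Real.exp 1 * Real.exp (Real.exp 1 * (k * S) - m) :=
          mul_le_mul h2 h1 (by positivity) (by positivity)
      _ = Real.exp (1 + (Real.exp 1 * (k * S) - m)) := by rw [Real.exp_add]
      _ ≤ Real.exp (-(A * l)) := by
          apply Real.exp_le_exp.mpr
          have h3 : Real.exp 1 * (k * S) ≤ Real.exp 1 * k * (l + C) := by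
            rw [← mul_assoc]
            exact mul_le_mul_of_nonneg_left hSle (by positivity)
          linarith only [hq, hmge, h3]

private theorem AsyB_prod {α : Type*} [DecidableEq α] (s : Finset α) (f : α → ℝ) (h0 : ∀ e ∈ s, 0 ≤ f e)
    (h1 : ∀ e ∈ s, f e ≤ 1) : 1 - ∑ e ∈ s, f e ≤ ∏ e ∈ s, (1 - f e) ∧ ∏ e ∈ s, (1 - f e) ≤ 1 ∧
      0 ≤ ∏ e ∈ s, (1 - f e) := by
  induction s using Finset.induction_on with
  | empty => simp
  | insert a s ha ih =>
    obtain ⟨i1, i2, i3⟩ := ih (fun e he => h0 e (Finset.mem_insert_of_mem he))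
      (fun e he => h1 e (Finset.mem_insert_of_mem he))
    rw [Finset.sum_insert ha, Finset.prod_insert ha]
    have ha0 := h0 a (Finset.mem_insert_self _ _)
    have ha1 := h1 a (Finset.mem_insert_self _ _)
    refine ⟨?_, ?_, mul_nonneg (by linarith only [ha1]) i3⟩
    · nlinarith only [i1, i2, ha0]
    · nlinarith only [i2, ha0, ha1]

theorem fn_gi (ι : Type) [Fintype ι] [DecidableEq ι] (A : ℕ) : ∀ᶠ x : ℕ in atTop,
    ∀ Q : Finset (ι × ℕ), Q ⊆ EX ι x → ∏ e ∈ Q, (e.2 : ℝ) ≤ x →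
      |∏ e ∈ Q, fn e.2 - ∏ e ∈ Q, gi e| ≤ (∏ e ∈ Q, fn e.2) / Real.log x ^ A := by
  have hexp : ∀ᶠ l : ℝ in atTop, ((A : ℝ) + 1) * l ^ 3 ≤ Real.exp l := by
    have h := (Real.tendsto_exp_div_pow_atTop 3).eventually (eventually_ge_atTop ((A : ℝ) + 1))
    filter_upwards [h, eventually_gt_atTop 0] with l h1 h2
    rwa [le_div_iff₀ (by positivity)] at h1
  filter_upwards [AsyB_l.eventually hexp, AsyB_l.eventually (eventually_ge_atTop 1),
    AsyB_L.eventually (eventually_ge_atTop 1), eventually_ge_atTop 2] with x hx hl hL hx2 Q hQ hprod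
  set L := Real.log (x : ℝ) with hLd
  set l := Real.log L with hld
  have hxpos : (0 : ℝ) < x := by
    have : 0 < x := by omega
    exact_mod_cast this
  have hz0 : 0 < z0 x := Real.exp_pos _
  have hmem : ∀ e ∈ Q, e.2.Prime ∧ z0 x < (e.2 : ℝ) := by
    intro e he
    have := hQ he
    unfold EX PX at this
    rw [Finset.mem_product, Finset.mem_filter] at this
    exact this.2.2
  have hl2 : 0 < l ^ 2 := by positivity
  -- the cardinality
  have hcard : (Q.card : ℝ) ≤ l ^ 2 := by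
    have h1 : z0 x ^ Q.card ≤ x := by
      refine le_trans ?_ hprod
      rw [← Finset.prod_const]
      exact Finset.prod_le_prod (fun _ _ => hz0.le) (fun e he => (hmem e he).2.le)
    have h2 : Real.log (z0 x ^ Q.card) ≤ L := Real.log_le_log (by positivity) h1
    rw [Real.log_pow, z0, Real.log_exp, ← hLd, ← hld] at h2
    rw [← mul_div_assoc, div_le_iff₀ hl2] at h2
    have hLpos : 0 < L := by linarith only [hL]
    nlinarith only [hL, h2]
  have hfac : ∏ e ∈ Q, gi e = (∏ e ∈ Q, fn e.2) * ∏ e ∈ Q, (1 - 1 / (e.2 : ℝ)) := by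
    rw [← Finset.prod_mul_distrib]
    apply Finset.prod_congr rfl
    intro e he
    have hp := (hmem e he).1.one_lt
    have hp' : (1 : ℝ) < e.2 := by exact_mod_cast hp
    unfold gi fn
    have : (e.2 : ℝ) - 1 ≠ 0 := by linarith only [hp']
    field_simp
  have hF0 : 0 ≤ ∏ e ∈ Q, fn e.2 :=
    Finset.prod_nonneg (fun e he => AsyB_fn_nonneg (hmem e he).1.one_lt.le)
  obtain ⟨p1, p2, p3⟩ := AsyB_prod Q (fun e => 1 / (e.2 : ℝ)) (fun e _ => by positivity) (fun e he => by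
    have hp := (hmem e he).1.one_lt
    have hp' : (1 : ℝ) < e.2 := by exact_mod_cast hp
    rw [div_le_one (by linarith only [hp'])]
    exact hp'.le)
  have hsum : ∑ e ∈ Q, 1 / (e.2 : ℝ) ≤ l ^ 2 / z0 x := by
    calc ∑ e ∈ Q, 1 / (e.2 : ℝ) ≤ ∑ _e ∈ Q, 1 / z0 x := by
          apply Finset.sum_le_sum
          intro e he
          exact one_div_le_one_div_of_le hz0 (hmem e he).2.le
      _ = Q.card * (1 / z0 x) := by rw [Finset.sum_const, nsmul_eq_mul]
      _ ≤ l ^ 2 * (1 / z0 x) := mul_le_mul_of_nonneg_right hcard (by positivity)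
      _ = _ := by ring
  have hLA : L ^ A = Real.exp (A * l) := by
    rw [Real.exp_nat_mul, hld, Real.exp_log (by linarith only [hL])]
  have hLe : L = Real.exp l := by rw [hld, Real.exp_log (by linarith only [hL])]
  have hkey : l ^ 2 / z0 x ≤ 1 / L ^ A := by
    rw [div_le_div_iff₀ hz0 (by positivity), one_mul, hLA, z0, ← hLd, ← hld]
    have h1 : l ^ 2 ≤ Real.exp l := by
      have : l ^ 2 ≤ ((A : ℝ) + 1) * l ^ 3 := by
        have hA : (0 : ℝ) ≤ A := Nat.cast_nonneg A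
        have : l ^ 2 ≤ l ^ 3 := pow_le_pow_right₀ hl (by norm_num)
        have h3 : 0 ≤ l ^ 3 := by positivity
        nlinarith only [this]
      linarith only [hx, this]
    calc l ^ 2 * Real.exp (A * l) ≤ Real.exp l * Real.exp (A * l) :=
          mul_le_mul_of_nonneg_right h1 (Real.exp_pos _).le
      _ = Real.exp (l + A * l) := by rw [Real.exp_add]
      _ ≤ Real.exp (L / l ^ 2) := by
          apply Real.exp_le_exp.mpr
          rw [le_div_iff₀ hl2, hLe]
          calc (l + A * l) * l ^ 2 = ((A : ℝ) + 1) * l ^ 3 := by ring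
            _ ≤ _ := hx
  rw [hfac]
  have : ∏ e ∈ Q, fn e.2 - (∏ e ∈ Q, fn e.2) * ∏ e ∈ Q, (1 - 1 / (e.2 : ℝ)) =
      (∏ e ∈ Q, fn e.2) * (1 - ∏ e ∈ Q, (1 - 1 / (e.2 : ℝ))) := by ring
  rw [this, abs_of_nonneg (mul_nonneg hF0 (by linarith only [p2])), div_eq_mul_one_div]
  exact mul_le_mul_of_nonneg_left (by linarith only [p1, hsum, hkey]) hF0

end Pool.Agent.H36.IS

end
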