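import Pool.Agent.H15.TB1.M24

/-! The parts of this file: H36.IS.ClsA, H36.IS.ClsB. -/

section

/-!
# IS ClsA: size and support bookkeeping

* `cls_uc`: |uc c c' Q| ≤ ∑_{A∪B=Q} L^B M^|A| L^B' M'^|B| = L^(B+B') (M + M' + M M')^|Q| (each e ∈ Q is in A only, B only, or
  both); support: ∏_{A∪B} ≤ ∏_A ∏_B (all e.2 ≥ 1; EX consists of primes).
* `cls_lam`: |lam y D| ≤ ∏_{e∈D} (1/g) ∑_{R ⊇ D} K f(R) ≤ K ∏_{e∈D} (f/g) ∏_{e∈EZ} (1+f e), f/g = 1/(1-1/p) ≤ 2 and
  ∏_{EZ}(1+f) = (∏_{p∈PZ} (1+fn p))^k ≤ (log x)^B (`euler_pow` with C = 1).  Support: D ⊆ R, ∏_D ≤ ∏_R ≤ x^θ.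
  Here fo gi (i,p) = fn p for p prime.
* `yok_pr`: 0 ≤ pr S f y R ≤ K ∏_{e∈S} (1+f e); support: R ∪ A in the support of y, ∏_R ≤ ∏_{R∪A}.
* `yok_ext`: T ≥ 1; support: R = (R \ S) ∪ (R ∩ S), product ≤ x^θ · x^ρ.
* `cls_one`: the array of a single pattern etc. is not needed.
* `Cls.mono`.
-/

set_option autoImplicit false

namespace Pool.Agent.H36.IS

open Finset Filter

variable {ι : Type} [Fintype ι] [DecidableEq ι]

theorem Cls.mono {x B B' : ℕ} {M M' D D' : ℝ} {c : Finset (ι × ℕ) → ℝ} (h : Cls x B M D c) (hx : 1 ≤ Real.log x)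
    (hB : B ≤ B') (hM0 : 0 ≤ M) (hM : M ≤ M') (hD : D ≤ D') : Cls x B' M' D' c := by
  intro Q
  refine ⟨(h Q).1.trans ?_, fun h0 => ⟨((h Q).2 h0).1, ((h Q).2 h0).2.trans hD⟩⟩
  exact mul_le_mul (pow_le_pow_right₀ hx hB) (pow_le_pow_left₀ hM0 hM _) (pow_nonneg hM0 _)
    (pow_nonneg (zero_le_one.trans hx) _)

/-- atoms are at least 1 -/
private theorem ClsA_two {x : ℕ} {e : ι × ℕ} (he : e ∈ EX ι x) : (2 : ℝ) ≤ e.2 := by
  unfold EX at he
  rw [mem_product] at he
  have h := he.2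
  unfold PX at h
  rw [mem_filter] at h
  exact_mod_cast h.2.1.two_le

/-- the sum over `B` with `A ∪ B = Q` -/
private theorem ClsA_inner {α : Type*} [DecidableEq α] (Q A : Finset α) (hA : A ⊆ Q) (m : ℝ) :
    ∑ B ∈ Q.powerset, (if A ∪ B = Q then m ^ B.card else 0) =
      m ^ (Q \ A).card * (m + 1) ^ A.card := by
  have h1 : (m + 1) ^ A.card = ∑ B ∈ A.powerset, m ^ B.card := by
    rw [← Finset.sum_pow_mul_eq_add_pow m 1 A]
    exact sum_congr rfl fun B _ => by rw [one_pow, mul_one]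
  rw [h1, mul_sum, ← sum_filter]
  symm
  refine sum_bij (fun B _ => (Q \ A) ∪ B) ?_ ?_ ?_ ?_
  · intro B hB
    rw [mem_powerset] at hB
    rw [mem_filter, mem_powerset]
    refine ⟨union_subset sdiff_subset (hB.trans hA), ?_⟩
    ext a
    simp only [mem_union, Finset.mem_sdiff]
    constructor
    · rintro (h | h | h)
      · exact hA h
      · exact h.1
      · exact hA (hB h)
    · intro h
      by_cases ha : a ∈ A
      · exact Or.inl ha
      · exact Or.inr (Or.inl ⟨h, ha⟩)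
  · intro B hB B' hB' he
    rw [mem_powerset] at hB hB'
    ext a
    have h := Finset.ext_iff.1 he a
    simp only [mem_union, Finset.mem_sdiff] at h
    constructor
    · intro ha
      rcases h.1 (Or.inr ha) with h' | h'
      · exact absurd (hB ha) h'.2
      · exact h'
    · intro ha
      rcases h.2 (Or.inr ha) with h' | h'
      · exact absurd (hB' ha) h'.2
      · exact h'
  · intro B hB
    rw [mem_filter, mem_powerset] at hB
    refine ⟨B ∩ A, by rw [mem_powerset]; exact inter_subset_right, ?_⟩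
    ext a
    have h := Finset.ext_iff.1 hB.2 a
    simp only [mem_union, Finset.mem_sdiff, mem_inter] at h ⊢
    constructor
    · rintro (h' | h')
      · rcases h.2 h'.1 with h'' | h''
        · exact absurd h'' h'.2
        · exact h''
      · exact h'.1
    · intro ha
      by_cases h' : a ∈ A
      · exact Or.inr ⟨ha, h'⟩
      · exact Or.inl ⟨hB.1 ha, h'⟩
  · intro B hB
    rw [mem_powerset] at hB
    rw [card_union_of_disjoint, pow_add]
    exact disjoint_of_subset_right hB sdiff_disjoint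

private theorem ClsA_double {α : Type*} [DecidableEq α] (Q : Finset α) (M M' : ℝ) :
    ∑ A ∈ Q.powerset, ∑ B ∈ Q.powerset, (if A ∪ B = Q then M ^ A.card * M' ^ B.card else 0) =
      (M + M' + M * M') ^ Q.card := by
  have h1 : ∀ A ∈ Q.powerset, ∑ B ∈ Q.powerset,
      (if A ∪ B = Q then M ^ A.card * M' ^ B.card else 0) =
      (M * (M' + 1)) ^ A.card * M' ^ (Q.card - A.card) := by
    intro A hA
    rw [mem_powerset] at hA
    have h2 : ∀ B : Finset α, (if A ∪ B = Q then M ^ A.card * M' ^ B.card else 0) =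
        M ^ A.card * (if A ∪ B = Q then M' ^ B.card else 0) := by
      intro B
      split_ifs
      · rfl
      · rw [mul_zero]
    rw [sum_congr rfl fun B _ => h2 B, ← mul_sum, ClsA_inner Q A hA M', card_sdiff_of_subset hA,
      mul_pow]
    ring
  rw [sum_congr rfl h1, Finset.sum_pow_mul_eq_add_pow]
  congr 1
  ring

theorem cls_uc {x B B' : ℕ} {M M' D D' : ℝ} {c c' : Finset (ι × ℕ) → ℝ} (hx : 1 ≤ Real.log x) (hM : 0 ≤ M)
    (hM' : 0 ≤ M') (hD : 0 ≤ D) (hD' : 0 ≤ D') (h : Cls x B M D c) (h' : Cls x B' M' D' c') :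
    Cls x (B + B') (M + M' + M * M') (D * D') (uc (EX ι x) c c') := by
  intro Q
  have hx0 : 0 ≤ Real.log x := zero_le_one.trans hx
  constructor
  · -- the size
    have hb : ∀ A C : Finset (ι × ℕ), |if A ∪ C = Q then c A * c' C else 0| ≤
        Real.log x ^ (B + B') * (if A ∪ C = Q then M ^ A.card * M' ^ C.card else 0) := by
      intro A C
      split_ifs
      · rw [abs_mul]
        calc |c A| * |c' C| ≤ (Real.log x ^ B * M ^ A.card) * (Real.log x ^ B' * M' ^ C.card) :=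
              mul_le_mul (h A).1 (h' C).1 (abs_nonneg _)
                (mul_nonneg (pow_nonneg hx0 _) (pow_nonneg hM _))
          _ = _ := by ring
      · simp
    have h1 : |uc (EX ι x) c c' Q| ≤ ∑ A ∈ (EX ι x).powerset, ∑ C ∈ (EX ι x).powerset,
        Real.log x ^ (B + B') * (if A ∪ C = Q then M ^ A.card * M' ^ C.card else 0) := by
      unfold uc
      refine (abs_sum_le_sum_abs _ _).trans (sum_le_sum fun A _ => ?_)
      exact (abs_sum_le_sum_abs _ _).trans (sum_le_sum fun C _ => hb A C)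
    have hnn : ∀ A C : Finset (ι × ℕ),
        0 ≤ Real.log x ^ (B + B') * (if A ∪ C = Q then M ^ A.card * M' ^ C.card else 0) := by
      intro A C
      refine mul_nonneg (pow_nonneg hx0 _) ?_
      split_ifs
      · exact mul_nonneg (pow_nonneg hM _) (pow_nonneg hM' _)
      · exact le_rfl
    -- restrict to subsets of `Q`
    have h2 : ∑ A ∈ (EX ι x).powerset, ∑ C ∈ (EX ι x).powerset,
        Real.log x ^ (B + B') * (if A ∪ C = Q then M ^ A.card * M' ^ C.card else 0) ≤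
        ∑ A ∈ Q.powerset, ∑ C ∈ Q.powerset,
        Real.log x ^ (B + B') * (if A ∪ C = Q then M ^ A.card * M' ^ C.card else 0) := by
      rw [← sum_product', ← sum_product']
      have h3 : ∑ z ∈ (EX ι x).powerset ×ˢ (EX ι x).powerset,
          Real.log x ^ (B + B') * (if z.1 ∪ z.2 = Q then M ^ z.1.card * M' ^ z.2.card else 0) =
          ∑ z ∈ ((EX ι x).powerset ×ˢ (EX ι x).powerset).filter (fun z => z.1 ∪ z.2 = Q),
          Real.log x ^ (B + B') * (if z.1 ∪ z.2 = Q then M ^ z.1.card * M' ^ z.2.card else 0) := by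
        rw [sum_filter]
        refine sum_congr rfl fun z _ => ?_
        split_ifs
        · rfl
        · rw [mul_zero]
      rw [h3]
      refine sum_le_sum_of_subset_of_nonneg ?_ (fun z _ _ => hnn z.1 z.2)
      intro z hz
      rw [mem_filter] at hz
      rw [mem_product, mem_powerset, mem_powerset]
      exact ⟨hz.2 ▸ subset_union_left, hz.2 ▸ subset_union_right⟩
    refine (h1.trans h2).trans (le_of_eq ?_)
    rw [← ClsA_double Q M M', mul_sum]
    exact sum_congr rfl fun A _ => by rw [mul_sum]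
  · -- the support
    intro h0
    unfold uc at h0
    obtain ⟨A, hA, hA0⟩ := exists_ne_zero_of_sum_ne_zero h0
    obtain ⟨C, hC, hC0⟩ := exists_ne_zero_of_sum_ne_zero hA0
    have hQ : A ∪ C = Q := by
      by_contra hne
      rw [if_neg hne] at hC0
      exact hC0 rfl
    rw [if_pos hQ] at hC0
    rw [mem_powerset] at hA hC
    have hcA := ((h A).2 (left_ne_zero_of_mul hC0)).2
    have hcC := ((h' C).2 (right_ne_zero_of_mul hC0)).2
    refine ⟨hQ ▸ union_subset hA hC, ?_⟩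
    have hpos : ∀ T : Finset (ι × ℕ), T ⊆ EX ι x → (1 : ℝ) ≤ ∏ e ∈ T, (e.2 : ℝ) := by
      intro T hT
      have h1 : ∏ _e ∈ T, (1 : ℝ) ≤ ∏ e ∈ T, (e.2 : ℝ) := by
        refine prod_le_prod (fun _ _ => zero_le_one) fun e he => ?_
        have := ClsA_two (hT he)
        linarith only [this]
      rwa [prod_const_one] at h1
    have h1 : (∏ e ∈ A ∪ C, (e.2 : ℝ)) * ∏ e ∈ A ∩ C, (e.2 : ℝ) =
        (∏ e ∈ A, (e.2 : ℝ)) * ∏ e ∈ C, (e.2 : ℝ) := prod_union_inter
    have h2 := hpos (A ∩ C) (inter_subset_left.trans hA)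
    have h3 := hpos (A ∪ C) (union_subset hA hC)
    have h4 := hpos C hC
    rw [← hQ]
    calc ∏ e ∈ A ∪ C, (e.2 : ℝ) ≤ (∏ e ∈ A ∪ C, (e.2 : ℝ)) * ∏ e ∈ A ∩ C, (e.2 : ℝ) :=
          le_mul_of_one_le_right (by linarith only [h3]) h2
      _ = (∏ e ∈ A, (e.2 : ℝ)) * ∏ e ∈ C, (e.2 : ℝ) := h1
      _ ≤ D * D' := mul_le_mul hcA hcC (by linarith only [h4]) hD

theorem uc_ground {x : ℕ} {P : Finset (ι × ℕ)} (hP : P ⊆ EX ι x) {c d : Finset (ι × ℕ) → ℝ}
    (hc : ∀ Q, c Q ≠ 0 → Q ⊆ P) (hd : ∀ Q, d Q ≠ 0 → Q ⊆ P) : uc (EX ι x) c d = uc P c d := by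
  funext Q
  unfold uc
  have hc' : ∀ A, A ∉ P.powerset → c A = 0 := fun A hA => by
    by_contra h
    exact hA (mem_powerset.2 (hc A h))
  have hd' : ∀ A, A ∉ P.powerset → d A = 0 := fun A hA => by
    by_contra h
    exact hA (mem_powerset.2 (hd A h))
  symm
  refine (sum_congr rfl fun A _ => ?_).trans (sum_subset (powerset_mono.2 hP) fun A _ hA => ?_)
  · refine sum_subset (powerset_mono.2 hP) fun C _ hC => ?_
    rw [hd' C hC, mul_zero, ite_self]
  · refine sum_eq_zero fun C _ => ?_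
    rw [hc' A hA, zero_mul, ite_self]

theorem fo_gi {x : ℕ} {e : ι × ℕ} (he : e ∈ EX ι x) : fo gi e = fn e.2 ∧ 0 < gi e ∧ gi e < 1 := by
  have h2 := ClsA_two he
  have h0 : (0 : ℝ) < e.2 := by linarith only [h2]
  unfold fo gi fn
  refine ⟨?_, by positivity, ?_⟩
  · have h1 : (e.2 : ℝ) - 1 ≠ 0 := by
      intro h
      linarith only [h2, h]
    have h3 : (1 : ℝ) - 1 / e.2 = (e.2 - 1) / e.2 := by field_simp
    rw [h3, div_div_div_cancel_right₀ h0.ne']
  · rw [div_lt_one h0]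
    linarith only [h2]

end Pool.Agent.H36.IS

end

section

/-!
# IS ClsA: size and support bookkeeping

* `cls_uc`: |uc c c' Q| ≤ ∑_{A∪B=Q} L^B M^|A| L^B' M'^|B| = L^(B+B') (M + M' + M M')^|Q| (each e ∈ Q is in A only, B only, or
  both); support: ∏_{A∪B} ≤ ∏_A ∏_B (all e.2 ≥ 1; EX consists of primes).
* `cls_lam`: |lam y D| ≤ ∏_{e∈D} (1/g) ∑_{R ⊇ D} K f(R) ≤ K ∏_{e∈D} (f/g) ∏_{e∈EZ} (1+f e), f/g = 1/(1-1/p) ≤ 2 and
  ∏_{EZ}(1+f) = (∏_{p∈PZ} (1+fn p))^k ≤ (log x)^B (`euler_pow` with C = 1).  Support: D ⊆ R, ∏_D ≤ ∏_R ≤ x^θ.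
  Here fo gi (i,p) = fn p for p prime.
* `yok_pr`: 0 ≤ pr S f y R ≤ K ∏_{e∈S} (1+f e); support: R ∪ A in the support of y, ∏_R ≤ ∏_{R∪A}.
* `yok_ext`: T ≥ 1; support: R = (R \ S) ∪ (R ∩ S), product ≤ x^θ · x^ρ.
* `cls_one`: the array of a single pattern etc. is not needed.
* `Cls.mono`.
-/

set_option autoImplicit false

namespace Pool.Agent.H36.IS

open Finset Filter

variable {ι : Type} [Fintype ι] [DecidableEq ι]

private theorem ClsB_mono {α : Type*} [DecidableEq α] {D R : Finset α} (hD : D ⊆ R) (f : α → ℝ)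
    (hf : ∀ e ∈ R, 1 ≤ f e) : ∏ e ∈ D, f e ≤ ∏ e ∈ R, f e := by
  rw [← prod_sdiff hD]
  have h1 : 1 ≤ ∏ e ∈ R \ D, f e := by
    have h := prod_le_prod (s := R \ D) (f := fun _ => (1 : ℝ)) (g := f) (fun _ _ => zero_le_one)
      (fun e he => hf e (sdiff_subset he))
    rwa [prod_const_one] at h
  have h2 : 0 ≤ ∏ e ∈ D, f e := prod_nonneg fun e he => zero_le_one.trans (hf e (hD he))
  exact le_mul_of_one_le_left h2 h1

private theorem ClsB_prime {x : ℕ} {e : ι × ℕ} (he : e ∈ EX ι x) : e.2.Prime := by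
  unfold EX PX at he
  rw [mem_product, mem_filter] at he
  exact he.2.2.1

private theorem ClsB_sub (x : ℕ) (δ : ℝ) : EZ ι x δ ⊆ EX ι x := by
  unfold EZ EX PZ
  exact product_subset_product_right (filter_subset _ _)

private theorem ClsB_one_le {x : ℕ} {δ : ℝ} {e : ι × ℕ} (he : e ∈ EZ ι x δ) : (1 : ℝ) ≤ (e.2 : ℝ) := by
  have := (ClsB_prime (ClsB_sub x δ he)).one_lt.le
  exact_mod_cast this

private theorem ClsB_fo_nonneg {x : ℕ} {δ : ℝ} {e : ι × ℕ} (he : e ∈ EZ ι x δ) :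
    0 ≤ fo gi e := by
  obtain ⟨_, h2, h3⟩ := fo_gi (ClsB_sub x δ he)
  unfold fo
  exact div_nonneg h2.le (by linarith only [h3])

private theorem ClsB_ratio {x : ℕ} {δ : ℝ} {e : ι × ℕ} (he : e ∈ EZ ι x δ) :
    0 ≤ 1 / gi e * fo gi e ∧ 1 / gi e * fo gi e ≤ 2 := by
  obtain ⟨_, h2, h3⟩ := fo_gi (ClsB_sub x δ he)
  have hp : (2 : ℝ) ≤ (e.2 : ℝ) := by
    exact_mod_cast (ClsB_prime (ClsB_sub x δ he)).two_le
  have hg : gi e ≤ 1 / 2 := by
    unfold gi
    exact one_div_le_one_div_of_le (by norm_num) hp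
  have hpos : 0 < 1 - gi e := by linarith only [h3]
  have h : 1 / gi e * fo gi e = 1 / (1 - gi e) := by
    unfold fo
    have hne := h2.ne'
    have hne2 := hpos.ne'
    rw [div_mul_div_comm, one_mul, mul_comm (gi e) (1 - gi e)]
    rw [div_mul_cancel_right₀ hne, one_div]
  rw [h]
  refine ⟨by positivity, ?_⟩
  rw [div_le_iff₀ hpos]
  linarith only [hg]

/-- product over a subset of atoms -/
private theorem ClsB_prod_le {x : ℕ} {δ : ℝ} {D R : Finset (ι × ℕ)} (hD : D ⊆ R) (hR : R ⊆ EZ ι x δ) :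
    ∏ e ∈ D, (e.2 : ℝ) ≤ ∏ e ∈ R, (e.2 : ℝ) := by
  exact ClsB_mono hD _ fun e he => ClsB_one_le (hR he)

private theorem ClsB_euler (ι : Type) [Fintype ι] [DecidableEq ι] : ∃ B : ℕ, ∀ᶠ x : ℕ in atTop,
    1 ≤ Real.log x ∧ ∀ (δ : ℝ) (S : Finset (ι × ℕ)), S ⊆ EZ ι x δ →
      ∏ e ∈ S, (1 + fo gi e) ≤ Real.log x ^ B := by
  obtain ⟨B0, hB0⟩ := euler_pow 1 zero_le_one
  refine ⟨B0 * Fintype.card ι, ?_⟩
  have hlog : ∀ᶠ x : ℕ in atTop, 1 ≤ Real.log x :=
    (Real.tendsto_log_atTop.comp tendsto_natCast_atTop_atTop).eventually_ge_atTop 1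
  filter_upwards [hB0, hlog] with x hx hl
  refine ⟨hl, fun δ S hS => ?_⟩
  have h1 : ∏ e ∈ S, (1 + fo gi e) ≤ ∏ e ∈ EZ ι x δ, (1 + fo gi e) := by
    refine ClsB_mono hS _ fun e he => ?_
    have := ClsB_fo_nonneg he
    linarith only [this]
  refine h1.trans ?_
  have h2 : ∏ e ∈ EZ ι x δ, (1 + fo gi e) = ∏ e ∈ EZ ι x δ, (1 + 1 * fn e.2) := by
    refine prod_congr rfl fun e he => ?_
    rw [(fo_gi (ClsB_sub x δ he)).1, one_mul]
  rw [h2]
  unfold EZ
  rw [prod_product]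
  have h3 : ∀ i ∈ (univ : Finset ι), ∏ p ∈ PZ x δ, (1 + 1 * fn ((i, p) : ι × ℕ).2) =
      ∏ p ∈ PZ x δ, (1 + 1 * fn p) := fun i _ => rfl
  rw [prod_congr rfl h3, prod_const, card_univ, pow_mul]
  have hfn : ∀ p ∈ (range (x + 1)).filter Nat.Prime, 0 ≤ fn p := by
    intro p hp
    have := (mem_filter.mp hp).2.one_lt
    have h4 : (1 : ℝ) < (p : ℝ) := by exact_mod_cast this
    unfold fn
    exact div_nonneg zero_le_one (by linarith only [h4])
  have hsub : PZ x δ ⊆ (range (x + 1)).filter Nat.Prime := by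
    intro p hp
    unfold PZ PX at hp
    rw [mem_filter, mem_filter] at hp
    exact mem_filter.mpr ⟨hp.1.1, hp.1.2.1⟩
  refine pow_le_pow_left₀ (prod_nonneg fun p hp => ?_) (le_trans ?_ hx) _
  · have := hfn p (hsub hp)
    linarith only [this]
  · refine ClsB_mono hsub _ fun e he => ?_
    have := hfn e he
    linarith only [this]

/-- sum over the sets containing `D` -/
private theorem ClsB_sum_super {α : Type*} [DecidableEq α] {P D : Finset α} (hD : D ⊆ P) (f : α → ℝ) :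
    ∑ R ∈ P.powerset, (if D ⊆ R then ∏ e ∈ R, f e else 0) =
      (∏ e ∈ D, f e) * ∏ e ∈ P \ D, (1 + f e) := by
  rw [← sum_filter, prod_one_add, mul_sum]
  symm
  refine sum_bij' (fun T _ => D ∪ T) (fun R _ => R \ D) ?_ ?_ ?_ ?_ ?_
  · intro T hT
    rw [mem_filter, mem_powerset]
    rw [mem_powerset] at hT
    exact ⟨union_subset hD (hT.trans sdiff_subset), subset_union_left⟩
  · intro R hR
    rw [mem_filter, mem_powerset] at hR
    rw [mem_powerset]
    exact sdiff_subset_sdiff hR.1 Subset.rfl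
  · intro T hT
    rw [mem_powerset] at hT
    have hd : Disjoint D T := by
      refine Finset.disjoint_left.mpr fun a ha hb => ?_
      exact (mem_sdiff.mp (hT hb)).2 ha
    rw [union_sdiff_cancel_left hd]
  · intro R hR
    rw [mem_filter, mem_powerset] at hR
    exact union_sdiff_of_subset hR.2
  · intro T hT
    rw [mem_powerset] at hT
    have hd : Disjoint D T := by
      refine Finset.disjoint_left.mpr fun a ha hb => ?_
      exact (mem_sdiff.mp (hT hb)).2 ha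
    rw [prod_union hd]

theorem cls_lam (ι : Type) [Fintype ι] [DecidableEq ι] (B1 : ℕ) : ∃ B : ℕ, ∀ᶠ x : ℕ in atTop,
    ∀ (δ θ : ℝ) (y : Finset (ι × ℕ) → ℝ), Yok x δ θ (Real.log x ^ B1) y →
      Cls x B 2 ((x : ℝ) ^ θ) (lam (EZ ι x δ) gi y) := by
  obtain ⟨B, hB⟩ := ClsB_euler ι
  refine ⟨B1 + B, ?_⟩
  filter_upwards [hB] with x hx δ θ y hy D
  obtain ⟨hl, hE⟩ := hx
  have hK : 0 ≤ Real.log x ^ B1 := by positivity
  constructor
  · by_cases hD : D ⊆ EZ ι x δ
    · have hnn : ∀ e ∈ EZ ι x δ, 0 ≤ fo gi e := fun e he => ClsB_fo_nonneg he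
      have h1 : |∑ R ∈ (EZ ι x δ).powerset, (if D ⊆ R then y R * ∏ e ∈ R, fo gi e else 0)| ≤
          Real.log x ^ B1 * ((∏ e ∈ D, fo gi e) * ∏ e ∈ EZ ι x δ \ D, (1 + fo gi e)) := by
        rw [← ClsB_sum_super hD, mul_sum]
        refine (abs_sum_le_sum_abs _ _).trans (sum_le_sum fun R hR => ?_)
        rw [mem_powerset] at hR
        split_ifs with h
        · have hp : 0 ≤ ∏ e ∈ R, fo gi e := prod_nonneg fun e he => hnn e (hR he)
          rw [abs_mul, abs_of_nonneg hp, abs_of_nonneg (hy R).1]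
          exact mul_le_mul_of_nonneg_right (hy R).2.1 hp
        · simp
      have h2 : |∏ e ∈ D, (-(1 / gi e))| = ∏ e ∈ D, (1 / gi e) := by
        rw [abs_prod]
        refine prod_congr rfl fun e he => ?_
        have := (fo_gi (ClsB_sub x δ (hD he))).2.1
        rw [abs_neg, abs_of_pos (by positivity)]
      have h3 : 0 ≤ ∏ e ∈ D, (1 / gi e) := by
        rw [← h2]
        exact abs_nonneg _
      have h4 : (∏ e ∈ D, (1 / gi e)) * (∏ e ∈ D, fo gi e) ≤ 2 ^ D.card := by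
        rw [← prod_mul_distrib, ← prod_const]
        exact prod_le_prod (fun e he => (ClsB_ratio (hD he)).1) (fun e he => (ClsB_ratio (hD he)).2)
      have h5 : ∏ e ∈ EZ ι x δ \ D, (1 + fo gi e) ≤ Real.log x ^ B := hE δ _ sdiff_subset
      have h6 : 0 ≤ ∏ e ∈ EZ ι x δ \ D, (1 + fo gi e) := by
        refine prod_nonneg fun e he => ?_
        have := hnn e (sdiff_subset he)
        linarith only [this]
      unfold lam
      rw [abs_mul, h2]
      calc (∏ e ∈ D, (1 / gi e)) *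
            |∑ R ∈ (EZ ι x δ).powerset, (if D ⊆ R then y R * ∏ e ∈ R, fo gi e else 0)|
          ≤ (∏ e ∈ D, (1 / gi e)) *
            (Real.log x ^ B1 * ((∏ e ∈ D, fo gi e) * ∏ e ∈ EZ ι x δ \ D, (1 + fo gi e))) :=
            mul_le_mul_of_nonneg_left h1 h3
        _ = Real.log x ^ B1 * (((∏ e ∈ D, (1 / gi e)) * (∏ e ∈ D, fo gi e)) *
            ∏ e ∈ EZ ι x δ \ D, (1 + fo gi e)) := by ring
        _ ≤ Real.log x ^ B1 * (2 ^ D.card * Real.log x ^ B) := by
            refine mul_le_mul_of_nonneg_left ?_ hK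
            exact mul_le_mul h4 h5 h6 (by positivity)
        _ = Real.log x ^ (B1 + B) * 2 ^ D.card := by
            rw [pow_add]
            ring
    · have h0 : lam (EZ ι x δ) gi y D = 0 := by
        unfold lam
        rw [sum_eq_zero, mul_zero]
        intro R hR
        rw [mem_powerset] at hR
        rw [if_neg]
        exact fun h => hD (h.trans hR)
      rw [h0, abs_zero]
      positivity
  · intro hne
    unfold lam at hne
    have h1 : ∑ R ∈ (EZ ι x δ).powerset, (if D ⊆ R then y R * ∏ e ∈ R, fo gi e else 0) ≠ 0 :=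
      right_ne_zero_of_mul hne
    obtain ⟨R, hR, hR2⟩ := exists_ne_zero_of_sum_ne_zero h1
    rw [mem_powerset] at hR
    have hDR : D ⊆ R := by
      by_contra h
      rw [if_neg h] at hR2
      exact hR2 rfl
    rw [if_pos hDR] at hR2
    have h2 := (hy R).2.2 (left_ne_zero_of_mul hR2)
    exact ⟨(hDR.trans h2.1).trans (ClsB_sub x δ), (ClsB_prod_le hDR h2.1).trans h2.2⟩

theorem yok_pr (ι : Type) [Fintype ι] [DecidableEq ι] (B1 : ℕ) : ∃ B : ℕ, ∀ᶠ x : ℕ in atTop,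
    ∀ (δ θ : ℝ) (y : Finset (ι × ℕ) → ℝ) (S : Finset (ι × ℕ)), S ⊆ EZ ι x δ → Yok x δ θ (Real.log x ^ B1) y →
      Yok x δ θ (Real.log x ^ B) (pr S (fo gi) y) := by
  obtain ⟨B, hB⟩ := ClsB_euler ι
  refine ⟨B1 + B, ?_⟩
  filter_upwards [hB] with x hx δ θ y S hS hy R
  obtain ⟨hl, hE⟩ := hx
  have hK : 0 ≤ Real.log x ^ B1 := by positivity
  have hnn : ∀ A ∈ S.powerset, 0 ≤ ∏ e ∈ A, fo gi e := by
    intro A hA
    rw [mem_powerset] at hA
    exact prod_nonneg fun e he => ClsB_fo_nonneg (hS (hA he))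
  refine ⟨?_, ?_, ?_⟩
  · unfold pr
    split_ifs with h
    · exact sum_nonneg fun A hA => mul_nonneg (hy _).1 (hnn A hA)
    · exact le_rfl
  · unfold pr
    split_ifs with h
    · calc ∑ A ∈ S.powerset, y (R ∪ A) * ∏ e ∈ A, fo gi e
          ≤ ∑ A ∈ S.powerset, Real.log x ^ B1 * ∏ e ∈ A, fo gi e :=
            sum_le_sum fun A hA => mul_le_mul_of_nonneg_right (hy _).2.1 (hnn A hA)
        _ = Real.log x ^ B1 * ∏ e ∈ S, (1 + fo gi e) := by
            rw [prod_one_add, mul_sum]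
        _ ≤ Real.log x ^ B1 * Real.log x ^ B := mul_le_mul_of_nonneg_left (hE δ S hS) hK
        _ = Real.log x ^ (B1 + B) := by rw [pow_add]
    · positivity
  · intro hne
    unfold pr at hne
    split_ifs at hne with h
    · obtain ⟨A, hA, hA2⟩ := exists_ne_zero_of_sum_ne_zero hne
      have h2 := (hy (R ∪ A)).2.2 (left_ne_zero_of_mul hA2)
      exact ⟨subset_union_left.trans h2.1, (ClsB_prod_le subset_union_left h2.1).trans h2.2⟩
    · exact absurd rfl hne

theorem yok_ext {x : ℕ} {δ θ ρ K T : ℝ} {v Z : Finset (ι × ℕ) → ℝ} {S : Finset (ι × ℕ)} (hx : 1 ≤ x)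
    (hS : S ⊆ EZ ι x δ) (hv : Yok x δ θ K v) (hZ : ∀ A, Z A = 0 ∨ Z A = 1)
    (hZs : ∀ A, A ⊆ S → Z A ≠ 0 → ∏ e ∈ A, (e.2 : ℝ) ≤ (x : ℝ) ^ ρ) (hT : 1 ≤ T) :
    Yok x δ (θ + ρ) K (ext S Z T v) := by
  intro R
  have hT0 : 0 < T := lt_of_lt_of_le one_pos hT
  have hZ0 : 0 ≤ Z (R ∩ S) := by
    rcases hZ (R ∩ S) with h | h <;> rw [h]
    exact zero_le_one
  have hZ1 : Z (R ∩ S) ≤ 1 := by
    rcases hZ (R ∩ S) with h | h <;> rw [h]
    exact zero_le_one
  have hv0 := (hv (R \ S)).1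
  refine ⟨?_, ?_, ?_⟩
  · unfold ext
    exact div_nonneg (mul_nonneg hv0 hZ0) hT0.le
  · unfold ext
    rw [div_le_iff₀ hT0]
    have h1 : v (R \ S) * Z (R ∩ S) ≤ v (R \ S) := by
      calc v (R \ S) * Z (R ∩ S) ≤ v (R \ S) * 1 := mul_le_mul_of_nonneg_left hZ1 hv0
        _ = v (R \ S) := mul_one _
    have h2 : v (R \ S) ≤ K := (hv (R \ S)).2.1
    have h3 : K ≤ K * T := by
      have hK : 0 ≤ K := hv0.trans h2
      calc K = K * 1 := (mul_one K).symm
        _ ≤ K * T := mul_le_mul_of_nonneg_left hT hK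
    exact (h1.trans h2).trans h3
  · intro hne
    unfold ext at hne
    have h1 : v (R \ S) * Z (R ∩ S) ≠ 0 := by
      intro h
      rw [h, zero_div] at hne
      exact hne rfl
    have h2 := (hv (R \ S)).2.2 (left_ne_zero_of_mul h1)
    have h3 := hZs (R ∩ S) inter_subset_right (right_ne_zero_of_mul h1)
    have hun : (R \ S) ∪ (R ∩ S) = R := sdiff_union_inter R S
    constructor
    · rw [← hun]
      exact union_subset h2.1 (inter_subset_right.trans hS)
    · have hx0 : (0 : ℝ) < (x : ℝ) := by exact_mod_cast hx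
      rw [← hun, prod_union (disjoint_sdiff_inter R S), Real.rpow_add hx0]
      refine mul_le_mul h2.2 h3 (prod_nonneg fun e _ => Nat.cast_nonneg _) (by positivity)

theorem Yok.mono {x : ℕ} {δ θ K K' : ℝ} {y : Finset (ι × ℕ) → ℝ} (h : Yok x δ θ K y) (hK : K ≤ K') :
    Yok x δ θ K' y :=
  fun R => ⟨(h R).1, (h R).2.1.trans hK, (h R).2.2⟩

end Pool.Agent.H36.IS

end
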