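import Pool.Agent.H15.TB1.M25
import Pool.Agent.H15.TB1.M43
import Pool.Agent.H15.TB1.M44

/-! The parts of this file: H36.IS.AlgB, H36.IS.AlgC, H36.IS.AlgA, H36.IS.TrI, H36.IS.SumI, H36.IS.SumG. -/

section

/-!
# IS AlgB: Selberg coefficients

`lam P g y D = ∏_{e∈D} (-1/g e) · ∑_{D ⊆ R ⊆ P} y R ∏_{e∈R} f e`, `f = fo g = g/(1-g)`.
-/

set_option autoImplicit false

namespace Pool.Agent.H36.IS

open Finset

variable {α : Type*} [DecidableEq α]

theorem lam_sup {P : Finset α} {g : α → ℝ} {y : Finset α → ℝ} {D : Finset α} (h : lam P g y D ≠ 0) :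
    ∃ R, D ⊆ R ∧ R ⊆ P ∧ y R ≠ 0 := by
  unfold lam at h
  obtain ⟨R, hR, hR2⟩ := Finset.exists_ne_zero_of_sum_ne_zero (right_ne_zero_of_mul h)
  have hDR : D ⊆ R := by
    by_contra hne
    exact hR2 (if_neg hne)
  rw [if_pos hDR] at hR2
  exact ⟨R, hDR, Finset.mem_powerset.1 hR, left_ne_zero_of_mul hR2⟩

/-- a sum over `D ⊆ P` restricted to `D ⊆ R` is a sum over the subsets of `R` -/
theorem AlgB_sum_sub {P R : Finset α} (hR : R ⊆ P) (F : Finset α → ℝ) :
    ∑ D ∈ P.powerset, (if D ⊆ R then F D else 0) = ∑ D ∈ R.powerset, F D := by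
  rw [← Finset.sum_filter]
  refine Finset.sum_congr ?_ fun _ _ => rfl
  ext D
  simp only [Finset.mem_filter, Finset.mem_powerset]
  exact ⟨fun h => h.2, fun h => ⟨h.trans hR, h⟩⟩

theorem Ev_lam {P : Finset α} {g : α → ℝ} (hg : ∀ e ∈ P, 0 < g e ∧ g e < 1) (y : Finset α → ℝ) (v : α → ℝ) :
    Ev P (lam P g y) v = ∑ R ∈ P.powerset, y R * ∏ e ∈ R, (fo g e * (1 - v e / g e)) := by
  have _ := hg
  unfold Ev lam
  have h1 : ∀ D ∈ P.powerset, ((∏ e ∈ D, (-(1 / g e))) * ∑ R ∈ P.powerset,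
      if D ⊆ R then y R * ∏ e ∈ R, fo g e else 0) * ∏ e ∈ D, v e
      = ∑ R ∈ P.powerset, if D ⊆ R then (y R * ∏ e ∈ R, fo g e) * ∏ e ∈ D, (-(v e / g e)) else 0 := by
    intro D _
    rw [mul_assoc, mul_comm (∑ R ∈ P.powerset, _) _, ← mul_assoc, ← Finset.prod_mul_distrib,
      Finset.mul_sum]
    refine Finset.sum_congr rfl fun R _ => ?_
    split_ifs with hDR
    · rw [mul_comm]
      congr 1
      refine Finset.prod_congr rfl fun e _ => ?_
      ring
    · rw [mul_zero]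
  rw [Finset.sum_congr rfl h1, Finset.sum_comm]
  refine Finset.sum_congr rfl fun R hR => ?_
  rw [AlgB_sum_sub (Finset.mem_powerset.1 hR), ← Finset.mul_sum, ← Finset.prod_one_add,
    Finset.prod_mul_distrib, mul_assoc]
  rfl

theorem AlgB_alt (R R' : Finset α) :
    ∑ B ∈ R'.powerset, (if R ⊆ B then ∏ _e ∈ B, (-1 : ℝ) else 0)
      = if R = R' then ∏ _e ∈ R, (-1 : ℝ) else 0 := by
  by_cases hRR : R ⊆ R'
  · have h1 : ∀ B ∈ R'.powerset, (if R ⊆ B then ∏ _e ∈ B, (-1 : ℝ) else 0)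
        = (∏ _e ∈ B, (-1 : ℝ)) * ∏ e ∈ R' \ B, (if e ∈ R then (0 : ℝ) else 1) := by
      intro B hB
      split_ifs with hRB
      · rw [Finset.prod_eq_one (s := R' \ B), mul_one]
        intro e he
        rw [if_neg]
        intro heR
        exact (Finset.mem_sdiff.1 he).2 (hRB heR)
      · obtain ⟨e, heR, heB⟩ := Finset.not_subset.1 hRB
        have h0 : ∏ e ∈ R' \ B, (if e ∈ R then (0 : ℝ) else 1) = 0 :=
          Finset.prod_eq_zero (Finset.mem_sdiff.2 ⟨hRR heR, heB⟩) (if_pos heR)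
        rw [h0, mul_zero]
    rw [Finset.sum_congr rfl h1, ← Finset.prod_add]
    split_ifs with hEq
    · subst hEq
      refine Finset.prod_congr rfl fun e he => ?_
      rw [if_pos he, add_zero]
    · have hne : ¬ R' ⊆ R := fun h => hEq (Finset.Subset.antisymm hRR h)
      obtain ⟨e, heR', heR⟩ := Finset.not_subset.1 hne
      refine Finset.prod_eq_zero heR' ?_
      rw [if_neg heR]
      norm_num
  · rw [if_neg (fun h : R = R' => hRR h.le)]
    refine Finset.sum_eq_zero fun B hB => ?_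
    rw [if_neg]
    intro h
    exact hRR (h.trans (Finset.mem_powerset.1 hB))

theorem AlgB_lam_sum {P : Finset α} {g : α → ℝ} (hg : ∀ e ∈ P, 0 < g e ∧ g e < 1) (y : Finset α → ℝ)
    {R : Finset α} (hR : R ⊆ P) :
    ∑ B ∈ P.powerset, (if R ⊆ B then lam P g y B * ∏ e ∈ B, g e else 0)
      = (∏ _e ∈ R, (-1 : ℝ)) * (y R * ∏ e ∈ R, fo g e) := by
  have h1 : ∀ B ∈ P.powerset, (if R ⊆ B then lam P g y B * ∏ e ∈ B, g e else 0)
      = ∑ R' ∈ P.powerset, if B ⊆ R' then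
          (y R' * ∏ e ∈ R', fo g e) * (if R ⊆ B then ∏ _e ∈ B, (-1 : ℝ) else 0) else 0 := by
    intro B hB
    split_ifs with hRB
    · unfold lam
      rw [mul_assoc, mul_comm (∑ R ∈ P.powerset, _) _, ← mul_assoc, ← Finset.prod_mul_distrib,
        Finset.mul_sum]
      refine Finset.sum_congr rfl fun R' _ => ?_
      split_ifs with hDR
      · rw [mul_comm]
        congr 1
        refine Finset.prod_congr rfl fun e he => ?_
        have := (hg e (Finset.mem_powerset.1 hB he)).1.ne'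
        field_simp
      · rw [mul_zero]
    · symm
      refine Finset.sum_eq_zero fun R' _ => ?_
      split_ifs
      · rw [mul_zero]
      · rfl
  rw [Finset.sum_congr rfl h1, Finset.sum_comm]
  have h2 : ∀ R' ∈ P.powerset, ∑ B ∈ P.powerset, (if B ⊆ R' then
          (y R' * ∏ e ∈ R', fo g e) * (if R ⊆ B then ∏ _e ∈ B, (-1 : ℝ) else 0) else 0)
      = if R = R' then (y R' * ∏ e ∈ R', fo g e) * ∏ _e ∈ R, (-1 : ℝ) else 0 := by
    intro R' hR'
    rw [AlgB_sum_sub (Finset.mem_powerset.1 hR'), ← Finset.mul_sum, AlgB_alt]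
    split_ifs
    · rfl
    · rw [mul_zero]
  rw [Finset.sum_congr rfl h2, Finset.sum_ite_eq, if_pos (Finset.mem_powerset.2 hR)]
  ring

theorem EE_lam {P : Finset α} {g : α → ℝ} (hg : ∀ e ∈ P, 0 < g e ∧ g e < 1) (y y' : Finset α → ℝ) :
    Ev P (uc P (lam P g y) (lam P g y')) g = ∑ R ∈ P.powerset, y R * y' R * ∏ e ∈ R, fo g e := by
  -- as a double sum
  have h0 : Ev P (uc P (lam P g y) (lam P g y')) g =
      ∑ B ∈ P.powerset, ∑ A ∈ P.powerset, lam P g y A * lam P g y' B * ∏ e ∈ A ∪ B, g e := by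
    unfold Ev
    unfold uc
    simp only [Finset.sum_mul]
    rw [Finset.sum_comm, Finset.sum_comm (s := P.powerset) (t := P.powerset) (f := fun B A =>
      lam P g y A * lam P g y' B * ∏ e ∈ A ∪ B, g e)]
    refine Finset.sum_congr rfl fun A hA => ?_
    rw [Finset.sum_comm]
    refine Finset.sum_congr rfl fun B hB => ?_
    rw [Finset.sum_eq_single (A ∪ B)]
    · rw [if_pos rfl]
    · intro Q _ hQ
      rw [if_neg (fun h => hQ h.symm), zero_mul]
    · intro hAB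
      exact absurd (Finset.mem_powerset.2 (Finset.union_subset (Finset.mem_powerset.1 hA)
        (Finset.mem_powerset.1 hB))) hAB
  rw [h0]
  -- the inner sum
  have h1 : ∀ B ∈ P.powerset, ∑ A ∈ P.powerset, lam P g y A * lam P g y' B * ∏ e ∈ A ∪ B, g e
      = ∑ R ∈ P.powerset, (y R * ∏ _e ∈ R, (-1 : ℝ)) *
          (if R ⊆ B then lam P g y' B * ∏ e ∈ B, g e else 0) := by
    intro B hB
    have h2 : ∀ A ∈ P.powerset, lam P g y A * lam P g y' B * ∏ e ∈ A ∪ B, g e
        = (lam P g y' B * ∏ e ∈ B, g e) *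
          (lam P g y A * ∏ e ∈ A, (if e ∈ B then 1 else g e)) := by
      intro A _
      have h3 : ∏ e ∈ A ∪ B, g e = (∏ e ∈ B, g e) * ∏ e ∈ A, (if e ∈ B then 1 else g e) := by
        rw [Finset.prod_ite, Finset.prod_const_one, one_mul, mul_comm]
        have h4 : A ∪ B = (A.filter (fun e => e ∉ B)) ∪ B := by
          ext e
          simp only [Finset.mem_union, Finset.mem_filter]
          tauto
        rw [h4, Finset.prod_union]
        rw [Finset.disjoint_left]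
        intro e he
        exact (Finset.mem_filter.1 he).2
      rw [h3]
      ring
    rw [Finset.sum_congr rfl h2, ← Finset.mul_sum]
    have h5 := Ev_lam hg y (fun e => if e ∈ B then 1 else g e)
    unfold Ev at h5
    rw [h5, Finset.mul_sum]
    refine Finset.sum_congr rfl fun R hR => ?_
    split_ifs with hRB
    · have h6 : ∏ e ∈ R, (fo g e * (1 - (if e ∈ B then 1 else g e) / g e)) = ∏ _e ∈ R, (-1 : ℝ) := by
        refine Finset.prod_congr rfl fun e he => ?_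
        rw [if_pos (hRB he)]
        obtain ⟨h7, h8⟩ := hg e (Finset.mem_powerset.1 hR he)
        unfold fo
        have h9 : 1 - g e ≠ 0 := by linarith only [h8]
        have h10 := h7.ne'
        field_simp
        ring
      rw [h6]
      ring
    · obtain ⟨e, heR, heB⟩ := Finset.not_subset.1 hRB
      have h6 : ∏ e ∈ R, (fo g e * (1 - (if e ∈ B then 1 else g e) / g e)) = 0 := by
        refine Finset.prod_eq_zero heR ?_
        rw [if_neg heB, div_self (hg e (Finset.mem_powerset.1 hR heR)).1.ne', sub_self, mul_zero]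
      rw [h6]
      ring
  rw [Finset.sum_congr rfl h1, Finset.sum_comm]
  refine Finset.sum_congr rfl fun R hR => ?_
  rw [← Finset.mul_sum, AlgB_lam_sum hg y' (Finset.mem_powerset.1 hR)]
  have h7 : (∏ _e ∈ R, (-1 : ℝ)) * ∏ _e ∈ R, (-1 : ℝ) = 1 := by
    rw [← Finset.prod_mul_distrib]
    exact Finset.prod_eq_one fun _ _ => by norm_num
  calc y R * (∏ _e ∈ R, (-1 : ℝ)) * ((∏ _e ∈ R, (-1 : ℝ)) * (y' R * ∏ e ∈ R, fo g e))
      = ((∏ _e ∈ R, (-1 : ℝ)) * ∏ _e ∈ R, (-1 : ℝ)) * (y R * y' R * ∏ e ∈ R, fo g e) := by ring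
    _ = y R * y' R * ∏ e ∈ R, fo g e := by rw [h7, one_mul]

end Pool.Agent.H36.IS

end

section

/-!
# IS AlgC: summing out atoms and Selberg extension
-/

set_option autoImplicit false

namespace Pool.Agent.H36.IS

open Finset

variable {α : Type*} [DecidableEq α]

theorem AlgC_split {P S : Finset α} (hS : S ⊆ P) (F : Finset α → ℝ) :
    ∑ R ∈ P.powerset, F R = ∑ R ∈ (P \ S).powerset, ∑ A ∈ S.powerset, F (R ∪ A) := by
  rw [← Finset.sum_product']
  symm
  refine Finset.sum_bij' (fun p _ => p.1 ∪ p.2) (fun X _ => (X \ S, X ∩ S)) ?_ ?_ ?_ ?_ ?_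
  · intro p hp
    obtain ⟨h1, h2⟩ := Finset.mem_product.1 hp
    exact Finset.mem_powerset.2 (Finset.union_subset
      ((Finset.mem_powerset.1 h1).trans Finset.sdiff_subset) ((Finset.mem_powerset.1 h2).trans hS))
  · intro X hX
    refine Finset.mem_product.2 ⟨Finset.mem_powerset.2 ?_, Finset.mem_powerset.2 Finset.inter_subset_right⟩
    exact Finset.sdiff_subset_sdiff (Finset.mem_powerset.1 hX) (Finset.Subset.refl _)
  · intro p hp
    obtain ⟨h1, h2⟩ := Finset.mem_product.1 hp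
    have h1' := Finset.mem_powerset.1 h1
    have h2' := Finset.mem_powerset.1 h2
    ext e
    · simp only [Finset.mem_sdiff, Finset.mem_union]
      constructor
      · rintro ⟨h3 | h3, h4⟩
        · exact h3
        · exact absurd (h2' h3) h4
      · intro h3
        exact ⟨Or.inl h3, (Finset.mem_sdiff.1 (h1' h3)).2⟩
    · simp only [Finset.mem_inter, Finset.mem_union]
      constructor
      · rintro ⟨h3 | h3, h4⟩
        · exact absurd h4 (Finset.mem_sdiff.1 (h1' h3)).2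
        · exact h3
      · intro h3
        exact ⟨Or.inr h3, h2' h3⟩
  · intro X _
    exact Finset.sdiff_union_inter X S
  · intro p _
    rfl

theorem AlgC_mem {P S R : Finset α} (hR : R ∈ (P \ S).powerset) : Disjoint R S := by
  rw [Finset.disjoint_left]
  intro e he
  exact (Finset.mem_sdiff.1 (Finset.mem_powerset.1 hR he)).2

theorem AlgC_sdiff {S R A : Finset α} (hR : Disjoint R S) (hA : A ⊆ S) : (R ∪ A) \ S = R := by
  ext e
  simp only [Finset.mem_sdiff, Finset.mem_union]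
  constructor
  · rintro ⟨h3 | h3, h4⟩
    · exact h3
    · exact absurd (hA h3) h4
  · intro h3
    exact ⟨Or.inl h3, Finset.disjoint_left.1 hR h3⟩

theorem AlgC_inter {S R A : Finset α} (hR : Disjoint R S) (hA : A ⊆ S) : (R ∪ A) ∩ S = A := by
  ext e
  simp only [Finset.mem_inter, Finset.mem_union]
  constructor
  · rintro ⟨h3 | h3, h4⟩
    · exact absurd h4 (Finset.disjoint_left.1 hR h3)
    · exact h3
  · intro h3
    exact ⟨Or.inr h3, hA h3⟩

theorem AlgC_prod {S R A : Finset α} (hR : Disjoint R S) (hA : A ⊆ S) (f : α → ℝ) :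
    ∏ e ∈ R ∪ A, f e = (∏ e ∈ R, f e) * ∏ e ∈ A, f e :=
  Finset.prod_union (Finset.disjoint_of_subset_right hA hR)

theorem pr_disj {S : Finset α} {f : α → ℝ} {y : Finset α → ℝ} {R : Finset α} (h : pr S f y R ≠ 0) :
    Disjoint R S ∧ ∃ A, A ⊆ S ∧ y (R ∪ A) ≠ 0 := by
  unfold pr at h
  have hd : Disjoint R S := by
    by_contra hne
    exact h (if_neg hne)
  rw [if_pos hd] at h
  obtain ⟨A, hA, hA2⟩ := Finset.exists_ne_zero_of_sum_ne_zero h
  exact ⟨hd, A, Finset.mem_powerset.1 hA, left_ne_zero_of_mul hA2⟩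

theorem Ev_lam_pr {P S : Finset α} (hS : S ⊆ P) {g : α → ℝ} (hg : ∀ e ∈ P, 0 < g e ∧ g e < 1) (y : Finset α → ℝ)
    {v : α → ℝ} (hv : ∀ e ∈ S, v e = 0) :
    Ev P (lam P g (pr S (fo g) y)) v = Ev P (lam P g y) v := by
  rw [Ev_lam hg, Ev_lam hg, AlgC_split hS, AlgC_split hS]
  refine Finset.sum_congr rfl fun R hR => ?_
  have hd := AlgC_mem hR
  -- the left side: only `A = ∅`
  rw [Finset.sum_eq_single (∅ : Finset α)]
  · rw [Finset.union_empty]
    unfold pr
    rw [if_pos hd, Finset.sum_mul]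
    refine Finset.sum_congr rfl fun A hA => ?_
    rw [AlgC_prod hd (Finset.mem_powerset.1 hA)]
    have h1 : ∏ e ∈ A, (fo g e * (1 - v e / g e)) = ∏ e ∈ A, fo g e := by
      refine Finset.prod_congr rfl fun e he => ?_
      rw [hv e (Finset.mem_powerset.1 hA he), zero_div, sub_zero, mul_one]
    rw [h1]
    ring
  · intro A hA hne
    unfold pr
    rw [if_neg, zero_mul]
    intro hd2
    obtain ⟨e, he⟩ := Finset.nonempty_iff_ne_empty.2 hne
    exact Finset.disjoint_left.1 hd2 (Finset.mem_union_right _ he) (Finset.mem_powerset.1 hA he)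
  · intro h
    exact absurd (Finset.empty_mem_powerset _) h

theorem pr_ext {S : Finset α} {Z : Finset α → ℝ} {T : ℝ} {v : Finset α → ℝ} {f : α → ℝ} (hT : T ≠ 0)
    (hTT : ∑ A ∈ S.powerset, Z A * ∏ e ∈ A, f e = T) (hv : ∀ R, v R ≠ 0 → Disjoint R S) :
    pr S f (ext S Z T v) = v := by
  funext R
  unfold pr ext
  split_ifs with hd
  · have h1 : ∀ A ∈ S.powerset, v ((R ∪ A) \ S) * Z ((R ∪ A) ∩ S) / T * ∏ e ∈ A, f e
        = (v R / T) * (Z A * ∏ e ∈ A, f e) := by
      intro A hA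
      rw [AlgC_sdiff hd (Finset.mem_powerset.1 hA), AlgC_inter hd (Finset.mem_powerset.1 hA)]
      ring
    rw [Finset.sum_congr rfl h1, ← Finset.mul_sum, hTT]
    field_simp
  · by_contra hne
    exact hd (hv R (fun h => hne h.symm))

theorem MM_ext {P S : Finset α} (hS : S ⊆ P) {Z : Finset α → ℝ} {T : ℝ} {v : Finset α → ℝ} {f : α → ℝ}
    (hZ : ∀ A, Z A = 0 ∨ Z A = 1) (hT : T ≠ 0) (hTT : ∑ A ∈ S.powerset, Z A * ∏ e ∈ A, f e = T)
    (hv : ∀ R, v R ≠ 0 → Disjoint R S) :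
    MM P f (ext S Z T v) = MM P f v / T := by
  unfold MM
  rw [AlgC_split hS, AlgC_split hS, Finset.sum_div]
  refine Finset.sum_congr rfl fun R hR => ?_
  have hd := AlgC_mem hR
  have h1 : ∀ A ∈ S.powerset, ext S Z T v (R ∪ A) ^ 2 * ∏ e ∈ R ∪ A, f e
      = (v R ^ 2 * (∏ e ∈ R, f e) / T ^ 2) * (Z A * ∏ e ∈ A, f e) := by
    intro A hA
    have hA' := Finset.mem_powerset.1 hA
    unfold ext
    rw [AlgC_sdiff hd hA', AlgC_inter hd hA', AlgC_prod hd hA']
    have h2 : Z A ^ 2 = Z A := by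
      rcases hZ A with h | h <;> rw [h] <;> norm_num
    calc (v R * Z A / T) ^ 2 * ((∏ e ∈ R, f e) * ∏ e ∈ A, f e)
        = (v R ^ 2 * (∏ e ∈ R, f e) / T ^ 2) * (Z A ^ 2 * ∏ e ∈ A, f e) := by ring
      _ = _ := by rw [h2]
  rw [Finset.sum_congr rfl h1, ← Finset.mul_sum, hTT, Finset.sum_eq_single (∅ : Finset α)]
  · rw [Finset.union_empty]
    field_simp
  · intro A hA hne
    have : v (R ∪ A) = 0 := by
      by_contra h3
      obtain ⟨e, he⟩ := Finset.nonempty_iff_ne_empty.2 hne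
      exact Finset.disjoint_left.1 (hv _ h3) (Finset.mem_union_right _ he)
        (Finset.mem_powerset.1 hA he)
    rw [this]
    ring
  · intro h
    exact absurd (Finset.empty_mem_powerset _) h

end Pool.Agent.H36.IS

end

section

/-!
# IS AlgA: arrays over finite sets of atoms

`Ev P c y = ∑_{T ⊆ P} c T ∏_{e∈T} y e`.
-/

set_option autoImplicit false

namespace Pool.Agent.H36.IS

open Finset

variable {α : Type*} [DecidableEq α]

theorem Ev_sup {P P' : Finset α} (hP : P ⊆ P') {c : Finset α → ℝ} (hc : ∀ Q, c Q ≠ 0 → Q ⊆ P) (y : α → ℝ) :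
    Ev P' c y = Ev P c y := by
  unfold Ev
  symm
  refine Finset.sum_subset (Finset.powerset_mono.2 hP) ?_
  intro T _ hT
  have : c T = 0 := by
    by_contra hne
    exact hT (Finset.mem_powerset.2 (hc T hne))
  rw [this, zero_mul]

theorem uc_sup {P P1 P2 : Finset α} {c d : Finset α → ℝ} (hc : ∀ Q, c Q ≠ 0 → Q ⊆ P1) (hd : ∀ Q, d Q ≠ 0 → Q ⊆ P2)
    (Q : Finset α) (h : uc P c d Q ≠ 0) : Q ⊆ P1 ∪ P2 ∧ Q ⊆ P := by
  unfold uc at h
  obtain ⟨A, hA, hA2⟩ := Finset.exists_ne_zero_of_sum_ne_zero h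
  obtain ⟨B, hB, hB2⟩ := Finset.exists_ne_zero_of_sum_ne_zero hA2
  have hAB : A ∪ B = Q := by
    by_contra hne
    exact hB2 (if_neg hne)
  rw [if_pos hAB] at hB2
  have h1 : c A ≠ 0 := left_ne_zero_of_mul hB2
  have h2 : d B ≠ 0 := right_ne_zero_of_mul hB2
  rw [← hAB]
  exact ⟨Finset.union_subset_union (hc A h1) (hd B h2),
    Finset.union_subset (Finset.mem_powerset.1 hA) (Finset.mem_powerset.1 hB)⟩

/-- `Ev` of a union convolution as a double sum -/
theorem AlgA_Ev_uc_eq (P : Finset α) (c d : Finset α → ℝ) (y : α → ℝ) :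
    Ev P (uc P c d) y =
      ∑ A ∈ P.powerset, ∑ B ∈ P.powerset, c A * d B * ∏ e ∈ A ∪ B, y e := by
  unfold Ev uc
  simp only [Finset.sum_mul]
  rw [Finset.sum_comm]
  refine Finset.sum_congr rfl fun A hA => ?_
  rw [Finset.sum_comm]
  refine Finset.sum_congr rfl fun B hB => ?_
  rw [Finset.sum_eq_single (A ∪ B)]
  · rw [if_pos rfl]
  · intro Q _ hQ
    rw [if_neg (fun h => hQ h.symm), zero_mul]
  · intro hAB
    exact absurd (Finset.mem_powerset.2 (Finset.union_subset (Finset.mem_powerset.1 hA)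
      (Finset.mem_powerset.1 hB))) hAB

theorem AlgA_prod_union {A B : Finset α} {y : α → ℝ} (hy : ∀ e ∈ A ∪ B, y e = 0 ∨ y e = 1) :
    ∏ e ∈ A ∪ B, y e = (∏ e ∈ A, y e) * ∏ e ∈ B, y e := by
  by_cases h : ∀ e ∈ A ∪ B, y e = 1
  · rw [Finset.prod_eq_one h, Finset.prod_eq_one (fun e he => h e (Finset.mem_union_left _ he)),
      Finset.prod_eq_one (fun e he => h e (Finset.mem_union_right _ he)), one_mul]
  · push Not at h
    obtain ⟨e, he, h1⟩ := h
    have h0 : y e = 0 := (hy e he).resolve_right h1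
    rw [Finset.prod_eq_zero he h0]
    rcases Finset.mem_union.1 he with h2 | h2
    · rw [Finset.prod_eq_zero h2 h0, zero_mul]
    · rw [Finset.prod_eq_zero h2 h0, mul_zero]

theorem Ev_uc {P : Finset α} (c d : Finset α → ℝ) {y : α → ℝ} (hy : ∀ e ∈ P, y e = 0 ∨ y e = 1) :
    Ev P (uc P c d) y = Ev P c y * Ev P d y := by
  rw [AlgA_Ev_uc_eq]
  unfold Ev
  rw [Finset.sum_mul_sum]
  refine Finset.sum_congr rfl fun A hA => Finset.sum_congr rfl fun B hB => ?_
  rw [AlgA_prod_union (fun e he => hy e (Finset.union_subset (Finset.mem_powerset.1 hA)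
    (Finset.mem_powerset.1 hB) he))]
  ring

theorem Ev_uc_disj {P P1 P2 : Finset α} (h1 : P1 ⊆ P) (h2 : P2 ⊆ P) (h12 : Disjoint P1 P2) {c d : Finset α → ℝ}
    (hc : ∀ Q, c Q ≠ 0 → Q ⊆ P1) (hd : ∀ Q, d Q ≠ 0 → Q ⊆ P2) (g : α → ℝ) :
    Ev P (uc P c d) g = Ev P1 c g * Ev P2 d g := by
  rw [AlgA_Ev_uc_eq, ← Ev_sup h1 hc, ← Ev_sup h2 hd]
  unfold Ev
  rw [Finset.sum_mul_sum]
  refine Finset.sum_congr rfl fun A _ => Finset.sum_congr rfl fun B _ => ?_
  by_cases hA : c A = 0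
  · rw [hA]
    ring
  by_cases hB : d B = 0
  · rw [hB]
    ring
  have hdis : Disjoint A B := Finset.disjoint_of_subset_left (hc A hA)
    (Finset.disjoint_of_subset_right (hd B hB) h12)
  rw [Finset.prod_union hdis]
  ring

end Pool.Agent.H36.IS

end

section

/-!
# IS TrI: transfer for the integers

Apply `trAbs` with J = univ, N = {n ∈ (x,2x], n ≡ b mod W}, P0 = PS W x, P1 = PX x (for large x, z0 x > W so no p ∈ PX divides
W; Good gives k < p and distinct classes), g p = 1/p, X0 = x/W, e Z = 1 (a class mod W ∏Z in an interval of x integers;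
Nat.count / `Int.Ioc_filter_modEq_card`; CRT: the conditions n ≡ b (W), n ≡ -h (φ p) (p), p ∈ Z, form one class mod W ∏_Z p,
W and Z being coprime), t from `brun_tail` with η/4, z = max 1 (z0 x), D = x^(1-η), K = (log x)^B.
Then J ×ˢ P1 = EX ι x, the filtered N is AA h W b x, the main term is Mn ι W x · Ev (EX) c gi, and the three error terms are
 (a) (x/W) (∑|c| ∏ gi) 2(k ∑ 1/p)^(t+1)/(t+1)! ≤ x L^B L^B' L^{-A'} (`l1_le`, `brun_tail`; 1/p ≤ fn p),
 (b) (x/W) L^B incons ≤ x L^{-A'} (`incons_le`),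
 (c) L^B ∑_{∏Z ≤ x^(1-η) z0^(t+1)} (k(M+1))^|Z| ≤ L^B x^(1-3η/4) L^B'' (`sum_pow_le`, `euler_pow`).
-/

set_option autoImplicit false

namespace Pool.Agent.H36.IS

open Finset Filter

/-- `z0 x → ∞` -/
private theorem TrI_z0_tendsto : Tendsto z0 atTop atTop := by
  have h1 : Tendsto (fun u : ℝ => u / (Real.log u) ^ 2) atTop atTop := by
    have h := Real.isLittleO_pow_log_id_atTop (n := 2)
    have h2 : Tendsto (fun u : ℝ => Real.log u ^ 2 / u) atTop (nhds 0) := by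
      have := h.tendsto_div_nhds_zero
      simpa using this
    have h3 : ∀ᶠ u : ℝ in atTop, 0 < Real.log u ^ 2 / u := by
      filter_upwards [eventually_gt_atTop (Real.exp 1)] with u hu
      have hu1 : 1 < Real.exp 1 := by
        have := Real.add_one_lt_exp (x := 1) one_ne_zero
        linarith only [this]
      have hu2 : 0 < u := by linarith only [hu, hu1]
      have hu3 : 0 < Real.log u := Real.log_pos (by linarith only [hu, hu1])
      positivity
    have h4 : Tendsto (fun u : ℝ => Real.log u ^ 2 / u) atTop (nhdsWithin 0 (Set.Ioi 0)) :=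
      tendsto_nhdsWithin_iff.mpr ⟨h2, h3⟩
    have h5 := h4.inv_tendsto_nhdsGT_zero
    refine h5.congr (fun u => ?_)
    simp [Pi.inv_apply, inv_div]
  have h6 : Tendsto (fun x : ℕ => Real.log (x : ℝ)) atTop atTop :=
    Real.tendsto_log_atTop.comp tendsto_natCast_atTop_atTop
  exact Real.tendsto_exp_atTop.comp (h1.comp h6)

/-- the number of integers of a residue class in `(x, 2x]` -/
private theorem TrI_class_count (x q v : ℕ) (hq : 0 < q) :
    |(((Ioc x (2 * x)).filter (fun n => n ≡ v [MOD q])).card : ℝ) - (x : ℝ) / q| ≤ 1 := by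
  have h := Nat.Ioc_filter_modEq_card x (2 * x) hq v
  have hqR : (0 : ℝ) < q := by exact_mod_cast hq
  set α : ℚ := ((2 * x : ℕ) - (v : ℚ)) / q with hα
  set β : ℚ := ((x : ℕ) - (v : ℚ)) / q with hβ
  have hαβ : α - β = (x : ℚ) / q := by
    rw [hα, hβ]; push_cast; ring
  have hmono : β ≤ α := by
    have : (0 : ℚ) ≤ (x : ℚ) / q := by positivity
    linarith only [hαβ, this]
  have hfl : ⌊β⌋ ≤ ⌊α⌋ := Int.floor_le_floor hmono
  have hmax : max (⌊α⌋ - ⌊β⌋) 0 = ⌊α⌋ - ⌊β⌋ := max_eq_left (by linarith only [hfl])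
  have hc : (((Ioc x (2 * x)).filter (fun n => n ≡ v [MOD q])).card : ℤ) = ⌊α⌋ - ⌊β⌋ := by
    rw [← hmax]; exact_mod_cast h
  have h1 : ((⌊α⌋ : ℤ) : ℚ) ≤ α := Int.floor_le α
  have h2 : α < ((⌊α⌋ : ℤ) : ℚ) + 1 := Int.lt_floor_add_one α
  have h3 : ((⌊β⌋ : ℤ) : ℚ) ≤ β := Int.floor_le β
  have h4 : β < ((⌊β⌋ : ℤ) : ℚ) + 1 := Int.lt_floor_add_one β
  have hcQ : (((Ioc x (2 * x)).filter (fun n => n ≡ v [MOD q])).card : ℚ) = (⌊α⌋ : ℚ) - (⌊β⌋ : ℚ) := by
    exact_mod_cast hc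
  have hQ : |(((Ioc x (2 * x)).filter (fun n => n ≡ v [MOD q])).card : ℚ) - (x : ℚ) / q| ≤ 1 := by
    rw [hcQ, ← hαβ, abs_le]
    constructor <;> linarith only [h2, h3, h1, h4]
  have := (Rat.cast_le (K := ℝ)).mpr hQ
  push_cast at this
  exact this

/-- CRT -/
private theorem TrI_crt {ι : Type} (h : ι → ℕ) (W b : ℕ) (Z : Finset ℕ) (hZ : ∀ p ∈ Z, p.Prime ∧ ¬ p ∣ W)
    (φ : ℕ → ι) : ∃ v : ℕ, ∀ n : ℕ, (n ≡ b [MOD W] ∧ ∀ p ∈ Z, p ∣ n + h (φ p)) ↔ n ≡ v [MOD (W * ∏ p ∈ Z, p)] := by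
  classical
  induction Z using Finset.induction_on with
  | empty => exact ⟨b, fun n => by simp⟩
  | insert p Z hp ih =>
    obtain ⟨v, hv⟩ := ih (fun q hq => hZ q (Finset.mem_insert_of_mem hq))
    have hpp := (hZ p (Finset.mem_insert_self _ _)).1
    have hpW := (hZ p (Finset.mem_insert_self _ _)).2
    have hcop : Nat.Coprime (W * ∏ q ∈ Z, q) p := by
      refine Nat.Coprime.mul_left ?_ ?_
      · exact (Nat.Coprime.symm ((Nat.Prime.coprime_iff_not_dvd hpp).mpr hpW))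
      · refine Nat.Coprime.prod_left (fun q hq => ?_)
        have hqq := (hZ q (Finset.mem_insert_of_mem hq)).1
        exact (Nat.coprime_primes hqq hpp).mpr (fun he => hp (he ▸ hq))
    -- a number a with p ∣ a + h (φ p)
    have hex : ∃ a : ℕ, p ∣ a + h (φ p) := ⟨h (φ p) * (p - 1), by
      have : h (φ p) * (p - 1) + h (φ p) = h (φ p) * p := by
        have hp1 : 1 ≤ p := hpp.one_lt.le
        calc h (φ p) * (p - 1) + h (φ p) = h (φ p) * (p - 1 + 1) := by ring
          _ = h (φ p) * p := by rw [Nat.sub_add_cancel hp1]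
      rw [this]; exact dvd_mul_left _ _⟩
    obtain ⟨a, ha⟩ := hex
    obtain ⟨w, hw1, hw2⟩ := Nat.chineseRemainder hcop v a
    refine ⟨w, fun n => ?_⟩
    have hdv : ∀ n : ℕ, p ∣ n + h (φ p) ↔ n ≡ a [MOD p] := by
      intro n
      constructor
      · intro hn
        have h1 : n + h (φ p) ≡ a + h (φ p) [MOD p] :=
          ((Nat.modEq_zero_iff_dvd).mpr hn).trans ((Nat.modEq_zero_iff_dvd).mpr ha).symm
        exact Nat.ModEq.add_right_cancel' _ h1
      · intro hn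
        have h1 : n + h (φ p) ≡ a + h (φ p) [MOD p] := Nat.ModEq.add_right _ hn
        exact (Nat.modEq_zero_iff_dvd).mp (h1.trans ((Nat.modEq_zero_iff_dvd).mpr ha))
    rw [Finset.prod_insert hp]
    have hmul : W * (p * ∏ q ∈ Z, q) = (W * ∏ q ∈ Z, q) * p := by ring
    rw [hmul]
    constructor
    · rintro ⟨h1, h2⟩
      have h3 : n ≡ v [MOD (W * ∏ q ∈ Z, q)] := (hv n).mp ⟨h1, fun q hq => h2 q (Finset.mem_insert_of_mem hq)⟩
      have h4 : n ≡ a [MOD p] := (hdv n).mp (h2 p (Finset.mem_insert_self _ _))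
      exact (Nat.modEq_and_modEq_iff_modEq_mul hcop).mp ⟨h3.trans hw1.symm, h4.trans hw2.symm⟩
    · intro h1
      obtain ⟨h3, h4⟩ := (Nat.modEq_and_modEq_iff_modEq_mul hcop).mpr h1
      have h5 := (hv n).mpr (h3.trans hw1)
      refine ⟨h5.1, fun q hq => ?_⟩
      rcases Finset.mem_insert.mp hq with rfl | hq
      · exact (hdv n).mpr (h4.trans hw2)
      · exact h5.2 q hq

/-- the count of integers in a system of classes -/
private theorem TrI_hcount {ι : Type} (h : ι → ℕ) (W b x : ℕ) (hW : 0 < W) (Z : Finset ℕ)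
    (hZ : ∀ p ∈ Z, p.Prime ∧ ¬ p ∣ W) (φ : ℕ → ι) [DecidablePred fun n : ℕ => ∀ p ∈ Z, p ∣ n + h (φ p)] :
    |((((Ioc x (2 * x)).filter (fun n => n ≡ b [MOD W])).filter
        (fun n => ∀ p ∈ Z, p ∣ n + h (φ p))).card : ℝ) - (x : ℝ) / W * ∏ p ∈ Z, (1 / (p : ℝ))| ≤ 1 := by
  obtain ⟨v, hv⟩ := TrI_crt h W b Z hZ φ
  have hq : 0 < W * ∏ p ∈ Z, p := Nat.mul_pos hW (Finset.prod_pos (fun p hp => (hZ p hp).1.pos))
  have h1 := TrI_class_count x (W * ∏ p ∈ Z, p) v hq
  have h2 : ((Ioc x (2 * x)).filter (fun n => n ≡ b [MOD W])).filter (fun n => ∀ p ∈ Z, p ∣ n + h (φ p)) =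
      (Ioc x (2 * x)).filter (fun n => n ≡ v [MOD (W * ∏ p ∈ Z, p)]) := by
    rw [Finset.filter_filter]
    apply Finset.filter_congr
    intro n _
    exact hv n
  rw [h2]
  have h3 : (x : ℝ) / W * ∏ p ∈ Z, (1 / (p : ℝ)) = (x : ℝ) / ((W * ∏ p ∈ Z, p : ℕ) : ℝ) := by
    push_cast
    rw [Finset.prod_div_distrib]
    simp only [Finset.prod_const_one]
    rw [div_mul_div_comm, mul_one]
  rw [h3]
  exact h1

private theorem TrI_inv_le_fn (p : ℕ) (hp : p.Prime) : 0 ≤ 1 / (p : ℝ) ∧ 1 / (p : ℝ) ≤ fn p := by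
  have h2 : (2 : ℝ) ≤ p := by exact_mod_cast hp.two_le
  refine ⟨by positivity, ?_⟩
  unfold fn
  apply one_div_le_one_div_of_le <;> linarith only [h2]

theorem trI (ι : Type) [Fintype ι] [DecidableEq ι] (h : ι → ℕ) (W b : ℕ) (hG : Good h W b) (B : ℕ) (M η : ℝ)
    (hM : 0 ≤ M) (hη : 0 < η) (A : ℕ) : ∀ᶠ x : ℕ in atTop, ∀ c : Finset (ι × ℕ) → ℝ,
      Cls x B M ((x : ℝ) ^ (1 - η)) c →
      |∑ n ∈ AA h W b x, Ev (EX ι x) c (yy h n) - Mn ι W x * Ev (EX ι x) c gi| ≤ x / Real.log x ^ A := by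
  classical
  obtain ⟨hW, hcopW, hgood⟩ := hG
  set k : ℝ := (Fintype.card ι : ℝ) with hk
  have hk0 : 0 ≤ k := by positivity
  obtain ⟨B1, hB1⟩ := l1_le ι M hM
  obtain ⟨B2, hB2⟩ := euler_pow (k * (M + 1)) (by positivity)
  have hbt := brun_tail k (A + 1 + B + B1) (η / 2) hk0 (by positivity)
  have hinc := incons_le ι M hM (A + 1 + B)
  have hlogx : Tendsto (fun x : ℕ => Real.log (x : ℝ)) atTop atTop :=
    Real.tendsto_log_atTop.comp tendsto_natCast_atTop_atTop
  -- `(log x)^m ≤ x^(η/2)`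
  have hpow : ∀ᶠ x : ℕ in atTop, Real.log (x : ℝ) ^ (A + 1 + B + B2) ≤ (x : ℝ) ^ (η / 2) := by
    have h1 := isLittleO_log_rpow_atTop (r := η / 2 / ((A + 1 + B + B2 : ℕ) : ℝ))
      (by have : (0 : ℝ) < ((A + 1 + B + B2 : ℕ) : ℝ) := by positivity
          positivity)
    have h2 := (h1.bound (c := 1) one_pos)
    have h3 := tendsto_natCast_atTop_atTop (R := ℝ) |>.eventually h2
    filter_upwards [h3, eventually_ge_atTop 3] with x hx hx3
    have hx3' : (3 : ℝ) ≤ x := by exact_mod_cast hx3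
    have hx0 : (0 : ℝ) < x := by linarith only [hx3']
    rw [one_mul, Real.norm_of_nonneg (Real.log_nonneg (by linarith only [hx3'])),
      Real.norm_of_nonneg (Real.rpow_nonneg hx0.le _)] at hx
    calc Real.log (x : ℝ) ^ (A + 1 + B + B2)
        ≤ ((x : ℝ) ^ (η / 2 / ((A + 1 + B + B2 : ℕ) : ℝ))) ^ (A + 1 + B + B2) :=
          pow_le_pow_left₀ (Real.log_nonneg (by linarith only [hx3'])) hx _
      _ = (x : ℝ) ^ (η / 2) := by
          rw [← Real.rpow_natCast, ← Real.rpow_mul hx0.le]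
          congr 1
          have : ((A + 1 + B + B2 : ℕ) : ℝ) ≠ 0 := by positivity
          field_simp
  filter_upwards [hB1, hB2, hbt, hinc, hpow, hlogx.eventually_ge_atTop 3,
    TrI_z0_tendsto.eventually_gt_atTop (W : ℝ), TrI_z0_tendsto.eventually_ge_atTop 1,
    eventually_ge_atTop 3] with x hB1 hB2 hbt hinc hpow hlog hzW hz1 hx3
  intro c hc
  obtain ⟨t, ht1, ht2⟩ := hbt
  set L : ℝ := Real.log (x : ℝ) with hL
  have hx3' : (3 : ℝ) ≤ x := by exact_mod_cast hx3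
  have hx0 : (0 : ℝ) < x := by linarith only [hx3']
  have hL0 : 0 < L := by linarith only [hlog]
  have hWR : (1 : ℝ) ≤ W := by exact_mod_cast hW
  have hPSpr : ∀ p ∈ PS W x, p.Prime := by
    intro p hp
    simp only [PS, PA, Finset.mem_filter] at hp
    exact hp.1.2.1
  have hPXpr : ∀ p ∈ PX x, p.Prime := by
    intro p hp
    simp only [PX, Finset.mem_filter] at hp
    exact hp.2.1
  have hPSz : ∀ p ∈ PS W x, (p : ℝ) ≤ z0 x := by
    intro p hp
    simp only [PS, PA, Finset.mem_filter] at hp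
    exact hp.1.2.2
  have hPXz : ∀ p ∈ PX x, z0 x < (p : ℝ) := by
    intro p hp
    simp only [PX, Finset.mem_filter] at hp
    exact hp.2.2
  have hdisj : Disjoint (PS W x) (PX x) := by
    rw [Finset.disjoint_left]
    intro p hp hp'
    exact absurd (hPSz p hp) (not_le.mpr (hPXz p hp'))
  have hall : ∀ p ∈ PS W x ∪ PX x, p.Prime ∧ ¬ p ∣ W := by
    intro p hp
    rcases Finset.mem_union.mp hp with hp | hp
    · refine ⟨hPSpr p hp, ?_⟩
      simp only [PS, Finset.mem_filter] at hp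
      exact hp.2
    · refine ⟨hPXpr p hp, fun hd => ?_⟩
      have h1 : p ≤ W := Nat.le_of_dvd hW hd
      have h2 : (p : ℝ) ≤ W := by exact_mod_cast h1
      have := hPXz p hp
      linarith only [hzW, h2, this]
  have hallle : PS W x ∪ PX x ⊆ (range (x + 1)).filter Nat.Prime := by
    intro p hp
    rcases Finset.mem_union.mp hp with hp | hp
    · simp only [PS, PA, Finset.mem_filter] at hp
      simp only [Finset.mem_filter]
      exact ⟨hp.1.1, hp.1.2.1⟩
    · simp only [PX, Finset.mem_filter] at hp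
      simp only [Finset.mem_filter]
      exact ⟨hp.1, hp.2.1⟩
  have hD0 : 0 ≤ (x : ℝ) ^ (1 - η) := Real.rpow_nonneg hx0.le _
  have key := trAbs (Finset.univ : Finset ι) h ((Ioc x (2 * x)).filter (fun n => n ≡ b [MOD W])) (PS W x) (PX x)
    hPSpr hPXpr hdisj
    (fun p hp i _ j _ hij => (hgood p (hall p hp).1 (hall p hp).2).2 i j hij)
    (fun p => 1 / (p : ℝ))
    (fun p hp => by
      have h1 := (hgood p (hall p hp).1 (hall p hp).2).1
      have h2 : (Fintype.card ι : ℝ) < p := by exact_mod_cast h1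
      have hp0 : (0 : ℝ) < p := lt_of_le_of_lt (by positivity) h2
      refine ⟨by positivity, ?_⟩
      rw [Finset.card_univ, mul_one_div, div_le_one hp0]
      exact h2.le)
    ((x : ℝ) / W) (by positivity) (fun _ => 1) (fun _ => zero_le_one)
    (fun Z hZ φ _ => TrI_hcount h W b x hW Z (fun p hp => hall p (hZ hp)) φ)
    (by
      have h0 := TrI_hcount (ι := Unit) (fun _ => 0) W b x hW ∅ (fun p hp => absurd hp (Finset.notMem_empty p))
        (fun _ => ())
      simpa using h0)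
    t (L ^ B) M ((x : ℝ) ^ (1 - η)) (z0 x) (by positivity) hM hD0 hz1 hPSz c
    (fun Q => hc Q)
  -- identification of the terms
  have hAA : ((Ioc x (2 * x)).filter (fun n => n ≡ b [MOD W])).filter
      (fun n => ∀ i ∈ (Finset.univ : Finset ι), ∀ p ∈ PS W x, ¬ p ∣ n + h i) = AA h W b x := by
    unfold AA
    rw [Finset.filter_filter]
    apply Finset.filter_congr
    intro n _
    simp
  have hMn : (x : ℝ) / W * (∏ p ∈ PS W x, (1 - ((Finset.univ : Finset ι).card : ℝ) * (1 / (p : ℝ)))) = Mn ι W x := by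
    unfold Mn
    congr 1
    apply Finset.prod_congr rfl
    intro p _
    rw [Finset.card_univ]; ring
  have hgi : (fun e : ι × ℕ => 1 / (e.2 : ℝ)) = gi := by
    funext e; rfl
  rw [hAA, hMn, hgi] at key
  change |∑ n ∈ AA h W b x, Ev (EX ι x) c (yy h n) - Mn ι W x * Ev (EX ι x) c gi| ≤ _ at key
  refine key.trans ?_
  -- the three error terms
  have hPW : ∀ p : ℕ, p.Prime → 0 ≤ 1 / (p : ℝ) ∧ 1 / (p : ℝ) ≤ fn p := TrI_inv_le_fn
  have hEXpr : ∀ Q ∈ (EX ι x).powerset, ∀ e ∈ Q, (e : ι × ℕ).2.Prime := by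
    intro Q hQ e he
    have h1 := (Finset.mem_powerset.mp hQ) he
    simp only [EX, Finset.mem_product] at h1
    exact hPXpr _ h1.2
  have hterm : ∀ Q ∈ (EX ι x).powerset, |c Q| * ∏ e ∈ Q, 1 / ((e : ι × ℕ).2 : ℝ) ≤
      L ^ B * (M ^ Q.card * ∏ e ∈ Q, fn e.2) := by
    intro Q hQ
    have h1 : |c Q| ≤ L ^ B * M ^ Q.card := (hc Q).1
    have h2 : ∏ e ∈ Q, 1 / ((e : ι × ℕ).2 : ℝ) ≤ ∏ e ∈ Q, fn e.2 :=
      Finset.prod_le_prod (fun e he => (hPW _ (hEXpr Q hQ e he)).1) (fun e he => (hPW _ (hEXpr Q hQ e he)).2)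
    have h3 : 0 ≤ ∏ e ∈ Q, 1 / ((e : ι × ℕ).2 : ℝ) :=
      Finset.prod_nonneg (fun e he => (hPW _ (hEXpr Q hQ e he)).1)
    calc |c Q| * ∏ e ∈ Q, 1 / ((e : ι × ℕ).2 : ℝ)
        ≤ (L ^ B * M ^ Q.card) * ∏ e ∈ Q, fn e.2 := by
          apply mul_le_mul h1 h2 h3 (by positivity)
      _ = L ^ B * (M ^ Q.card * ∏ e ∈ Q, fn e.2) := by ring
  have hxW : (x : ℝ) / W ≤ x := div_le_self hx0.le hWR
  have hxW0 : 0 ≤ (x : ℝ) / W := by positivity
  have hpowne : ∀ n : ℕ, L ^ n ≠ 0 := fun n => by positivity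
  -- (a)
  have ha : (x : ℝ) / W * (∑ Q ∈ ((Finset.univ : Finset ι) ×ˢ PX x).powerset, |c Q| * ∏ e ∈ Q, 1 / ((e : ι × ℕ).2 : ℝ)) *
      (2 * (((Finset.univ : Finset ι).card : ℝ) * ∑ p ∈ PS W x, 1 / (p : ℝ)) ^ (t + 1) / ((t + 1).factorial : ℝ)) ≤
      x / L ^ (A + 1) := by
    have h1 : ∑ Q ∈ ((Finset.univ : Finset ι) ×ˢ PX x).powerset, |c Q| * ∏ e ∈ Q, 1 / ((e : ι × ℕ).2 : ℝ) ≤
        L ^ B * L ^ B1 := by
      calc ∑ Q ∈ ((Finset.univ : Finset ι) ×ˢ PX x).powerset, |c Q| * ∏ e ∈ Q, 1 / ((e : ι × ℕ).2 : ℝ)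
          ≤ ∑ Q ∈ (EX ι x).powerset, L ^ B * (M ^ Q.card * ∏ e ∈ Q, fn e.2) := Finset.sum_le_sum hterm
        _ = L ^ B * ∑ Q ∈ (EX ι x).powerset, (M ^ Q.card * ∏ e ∈ Q, fn e.2) := by rw [Finset.mul_sum]
        _ ≤ L ^ B * L ^ B1 := by
          apply mul_le_mul_of_nonneg_left hB1 (by positivity)
    have h1' : 0 ≤ ∑ Q ∈ ((Finset.univ : Finset ι) ×ˢ PX x).powerset, |c Q| * ∏ e ∈ Q, 1 / ((e : ι × ℕ).2 : ℝ) := by
      apply Finset.sum_nonneg
      intro Q hQ
      apply mul_nonneg (abs_nonneg _)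
      exact Finset.prod_nonneg (fun e he => by positivity)
    have h2 : ∑ p ∈ PS W x, 1 / (p : ℝ) ≤ ∑ p ∈ PA x, fn p := by
      calc ∑ p ∈ PS W x, 1 / (p : ℝ) ≤ ∑ p ∈ PS W x, fn p :=
            Finset.sum_le_sum (fun p hp => (hPW p (hPSpr p hp)).2)
        _ ≤ ∑ p ∈ PA x, fn p := by
            apply Finset.sum_le_sum_of_subset_of_nonneg
            · exact Finset.filter_subset _ _
            · intro p hp _
              simp only [PA, Finset.mem_filter] at hp
              exact (hPW p hp.2.1).1.trans (hPW p hp.2.1).2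
    have h2' : 0 ≤ ∑ p ∈ PS W x, 1 / (p : ℝ) := Finset.sum_nonneg (fun p _ => by positivity)
    have h3 : 2 * (((Finset.univ : Finset ι).card : ℝ) * ∑ p ∈ PS W x, 1 / (p : ℝ)) ^ (t + 1) / ((t + 1).factorial : ℝ) ≤
        1 / L ^ (A + 1 + B + B1) := by
      refine le_trans ?_ ht2
      apply div_le_div_of_nonneg_right _ (by positivity)
      apply mul_le_mul_of_nonneg_left _ (by norm_num)
      rw [Finset.card_univ]
      apply pow_le_pow_left₀ (mul_nonneg hk0 h2')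
      exact mul_le_mul_of_nonneg_left h2 hk0
    have h3' : 0 ≤ 2 * (((Finset.univ : Finset ι).card : ℝ) * ∑ p ∈ PS W x, 1 / (p : ℝ)) ^ (t + 1) / ((t + 1).factorial : ℝ) := by
      positivity
    calc _ ≤ (x : ℝ) * (L ^ B * L ^ B1) * (1 / L ^ (A + 1 + B + B1)) := by
          apply mul_le_mul _ h3 h3' (by positivity)
          exact mul_le_mul hxW h1 h1' hx0.le
      _ = x / L ^ (A + 1) := by
          have e1 : L ^ (A + 1 + B + B1) = L ^ (A + 1) * (L ^ B * L ^ B1) := by rw [pow_add, pow_add]; ring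
          rw [e1]
          have := hpowne (A + 1)
          have := hpowne B
          have := hpowne B1
          field_simp
  -- (b)
  have hb : (x : ℝ) / W * ∑ Q ∈ ((Finset.univ : Finset ι) ×ˢ PX x).powerset.filter
      (fun Q : Finset (ι × ℕ) => ¬ Set.InjOn Prod.snd (Q : Set (ι × ℕ))), |c Q| * ∏ e ∈ Q, 1 / ((e : ι × ℕ).2 : ℝ) ≤
      x / L ^ (A + 1) := by
    have h1 : ∑ Q ∈ ((Finset.univ : Finset ι) ×ˢ PX x).powerset.filter
        (fun Q : Finset (ι × ℕ) => ¬ Set.InjOn Prod.snd (Q : Set (ι × ℕ))), |c Q| * ∏ e ∈ Q, 1 / ((e : ι × ℕ).2 : ℝ) ≤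
        L ^ B * (1 / L ^ (A + 1 + B)) := by
      calc _ ≤ ∑ Q ∈ (EX ι x).powerset.filter
            (fun Q : Finset (ι × ℕ) => ¬ Set.InjOn Prod.snd (Q : Set (ι × ℕ))), L ^ B * (M ^ Q.card * ∏ e ∈ Q, fn e.2) := by
            apply Finset.sum_le_sum
            intro Q hQ
            exact hterm Q (Finset.mem_filter.mp hQ).1
        _ = L ^ B * ∑ Q ∈ (EX ι x).powerset.filter
            (fun Q : Finset (ι × ℕ) => ¬ Set.InjOn Prod.snd (Q : Set (ι × ℕ))), (M ^ Q.card * ∏ e ∈ Q, fn e.2) := by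
            rw [Finset.mul_sum]
        _ ≤ L ^ B * (1 / L ^ (A + 1 + B)) := by
            apply mul_le_mul_of_nonneg_left _ (by positivity)
            exact hinc
    have h1' : 0 ≤ ∑ Q ∈ ((Finset.univ : Finset ι) ×ˢ PX x).powerset.filter
        (fun Q : Finset (ι × ℕ) => ¬ Set.InjOn Prod.snd (Q : Set (ι × ℕ))), |c Q| * ∏ e ∈ Q, 1 / ((e : ι × ℕ).2 : ℝ) := by
      apply Finset.sum_nonneg
      intro Q hQ
      apply mul_nonneg (abs_nonneg _)
      exact Finset.prod_nonneg (fun e he => by positivity)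
    calc _ ≤ (x : ℝ) * (L ^ B * (1 / L ^ (A + 1 + B))) := mul_le_mul hxW h1 h1' hx0.le
      _ = x / L ^ (A + 1) := by
          have e1 : L ^ (A + 1 + B) = L ^ (A + 1) * L ^ B := by rw [pow_add]
          rw [e1]
          have := hpowne (A + 1)
          have := hpowne B
          field_simp
  -- (c)
  have hcc : L ^ B * ∑ Z ∈ (PS W x ∪ PX x).powerset.filter
      (fun Z : Finset ℕ => ∏ p ∈ Z, (p : ℝ) ≤ (x : ℝ) ^ (1 - η) * z0 x ^ (t + 1)),
        (((Finset.univ : Finset ι).card : ℝ) * (M + 1)) ^ Z.card * 1 ≤ x / L ^ (A + 1) := by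
    have hC0 : 0 ≤ ((Finset.univ : Finset ι).card : ℝ) * (M + 1) := by positivity
    have hz00 : 0 ≤ z0 x ^ (t + 1) := by positivity
    have h1 := sum_pow_le (PS W x ∪ PX x) (fun p hp => (hall p hp).1) (((Finset.univ : Finset ι).card : ℝ) * (M + 1))
      ((x : ℝ) ^ (1 - η) * z0 x ^ (t + 1)) hC0 (mul_nonneg hD0 hz00)
    have h2 : ∏ p ∈ PS W x ∪ PX x, (1 + ((Finset.univ : Finset ι).card : ℝ) * (M + 1) / (p : ℝ)) ≤ L ^ B2 := by
      calc ∏ p ∈ PS W x ∪ PX x, (1 + ((Finset.univ : Finset ι).card : ℝ) * (M + 1) / (p : ℝ))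
          ≤ ∏ p ∈ PS W x ∪ PX x, (1 + k * (M + 1) * fn p) := by
            apply Finset.prod_le_prod
            · intro p hp
              positivity
            · intro p hp
              have h3 := (hPW p (hall p hp).1).2
              rw [Finset.card_univ, div_eq_mul_one_div]
              have h4 : k * (M + 1) * (1 / (p : ℝ)) ≤ k * (M + 1) * fn p :=
                mul_le_mul_of_nonneg_left h3 (by positivity)
              linarith only [h4]
        _ ≤ ∏ p ∈ (range (x + 1)).filter Nat.Prime, (1 + k * (M + 1) * fn p) := by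
            rw [← Finset.prod_sdiff hallle]
            have h4 : ∀ p : ℕ, p.Prime → 1 ≤ 1 + k * (M + 1) * fn p := by
              intro p hp
              have h5 : 0 ≤ fn p := (hPW p hp).1.trans (hPW p hp).2
              have h6 : 0 ≤ k * (M + 1) * fn p := by positivity
              linarith only [h6]
            apply le_mul_of_one_le_left
            · apply Finset.prod_nonneg
              intro p hp
              exact zero_le_one.trans (h4 p (hall p hp).1)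
            · calc (1 : ℝ) = ∏ p ∈ (range (x + 1)).filter Nat.Prime \ (PS W x ∪ PX x), (1 : ℝ) := by
                    rw [Finset.prod_const_one]
                _ ≤ _ := by
                    apply Finset.prod_le_prod
                    · intro p _
                      exact zero_le_one
                    · intro p hp
                      exact h4 p (Finset.mem_filter.mp (Finset.mem_sdiff.mp hp).1).2
        _ ≤ L ^ B2 := hB2
    have h3 : (x : ℝ) ^ (1 - η) * z0 x ^ (t + 1) ≤ (x : ℝ) ^ (1 - η / 2) := by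
      calc (x : ℝ) ^ (1 - η) * z0 x ^ (t + 1) ≤ (x : ℝ) ^ (1 - η) * (x : ℝ) ^ (η / 2) :=
            mul_le_mul_of_nonneg_left ht1 hD0
        _ = (x : ℝ) ^ (1 - η / 2) := by
            rw [← Real.rpow_add hx0]; congr 1; ring
    have h5 : (x : ℝ) ^ (1 - η / 2) * (x : ℝ) ^ (η / 2) = x := by
      rw [← Real.rpow_add hx0, sub_add_cancel, Real.rpow_one]
    simp only [mul_one]
    calc L ^ B * ∑ Z ∈ (PS W x ∪ PX x).powerset.filter
          (fun Z : Finset ℕ => ∏ p ∈ Z, (p : ℝ) ≤ (x : ℝ) ^ (1 - η) * z0 x ^ (t + 1)),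
            (((Finset.univ : Finset ι).card : ℝ) * (M + 1)) ^ Z.card
        ≤ L ^ B * ((x : ℝ) ^ (1 - η / 2) * L ^ B2) := by
          apply mul_le_mul_of_nonneg_left _ (by positivity)
          refine h1.trans ?_
          apply mul_le_mul h3 h2 _ (by positivity)
          apply Finset.prod_nonneg
          intro p hp
          positivity
      _ ≤ x / L ^ (A + 1) := by
          rw [le_div_iff₀ (by positivity)]
          calc L ^ B * ((x : ℝ) ^ (1 - η / 2) * L ^ B2) * L ^ (A + 1)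
              = (x : ℝ) ^ (1 - η / 2) * L ^ (A + 1 + B + B2) := by
                rw [pow_add L (A + 1 + B) B2, pow_add L (A + 1) B]; ring
            _ ≤ (x : ℝ) ^ (1 - η / 2) * (x : ℝ) ^ (η / 2) := by
                apply mul_le_mul_of_nonneg_left hpow (by positivity)
            _ = x := h5
  have hfinal : 3 * (x / L ^ (A + 1)) ≤ x / L ^ A := by
    rw [pow_succ, ← div_div]
    have h1 : 0 ≤ x / L ^ A := by positivity
    rw [← mul_div_assoc, div_le_iff₀ hL0]
    nlinarith only [hlog, h1]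
  calc _ ≤ x / L ^ (A + 1) + x / L ^ (A + 1) + x / L ^ (A + 1) := by
        refine add_le_add (add_le_add ?_ ?_) ?_
        · exact ha
        · exact hb
        · exact hcc
    _ = 3 * (x / L ^ (A + 1)) := by ring
    _ ≤ x / L ^ A := hfinal

end Pool.Agent.H36.IS

end

section

/-!
# IS SumI: the basic sum

Ly^2 = Ev EZ (uc EZ lam lam) yy (`Ev_uc`, yy ∈ {0,1}) = Ev EX (uc EX lam lam) yy (`Ev_sup`, `uc_ground`), the array is in the class
(2B, 8, x^(2θ)) (`cls_lam`, `cls_uc`), 2θ ≤ 1 - η, and Ev EX (uc) gi = Ev EZ (uc EZ lam lam) gi = ∑ y² ∏ fo gi = My (`EE_lam`).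
Then `trI`.  (K ≤ log x for large x, so Yok with constant K is Yok with (log x)^(B1) for B1 ≥ 1: `Yok.mono`; the statement is
given for the bound (log x)^B1.)
-/

set_option autoImplicit false

namespace Pool.Agent.H36.IS

open Finset Filter

private theorem SumI_sub {ι : Type} [Fintype ι] [DecidableEq ι] (x : ℕ) (δ : ℝ) : EZ ι x δ ⊆ EX ι x := by
  unfold EZ EX
  refine Finset.product_subset_product le_rfl ?_
  unfold PZ
  exact Finset.filter_subset _ _

theorem sumI (ι : Type) [Fintype ι] [DecidableEq ι] (h : ι → ℕ) (W b : ℕ) (hG : Good h W b) (B1 : ℕ) (δ θ : ℝ)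
    (hδ : 0 < δ) (hδ1 : δ ≤ 1) (hθ : θ < 1 / 2) (A : ℕ) :
    ∀ᶠ x : ℕ in atTop, ∀ y : Finset (ι × ℕ) → ℝ, Yok x δ θ (Real.log x ^ B1) y →
      |∑ n ∈ AA h W b x, Ly h x δ y n ^ 2 - Mn ι W x * My ι x δ y| ≤ x / Real.log x ^ A := by
  obtain ⟨B, hB⟩ := cls_lam ι B1
  have htr := trI ι h W b hG (B + B) 8 (1 - 2 * θ) (by norm_num) (by linarith only [hθ]) A
  have hlog : ∀ᶠ x : ℕ in atTop, 1 ≤ Real.log x :=
    (Real.tendsto_log_atTop.comp tendsto_natCast_atTop_atTop).eventually_ge_atTop 1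
  filter_upwards [hB, htr, hlog, eventually_gt_atTop 0] with x h1 h2 h3 hx0 y hy
  have hx0' : (0 : ℝ) < x := by exact_mod_cast hx0
  have hZX : EZ ι x δ ⊆ EX ι x := SumI_sub x δ
  have hgi : ∀ e ∈ EZ ι x δ, 0 < gi e ∧ gi e < 1 := fun e he => (fo_gi (hZX he)).2
  set l : Finset (ι × ℕ) → ℝ := lam (EZ ι x δ) gi y with hl
  have hls : ∀ Q, l Q ≠ 0 → Q ⊆ EZ ι x δ := by
    intro Q hQ
    obtain ⟨R, hR1, hR2, _⟩ := lam_sup hQ
    exact hR1.trans hR2
  have hyy : ∀ n, ∀ e ∈ EX ι x, yy h n e = 0 ∨ yy h n e = 1 := by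
    intro n e _
    unfold yy
    by_cases hd : e.2 ∣ n + h e.1
    · right; rw [if_pos hd]
    · left; rw [if_neg hd]
  have e1 : ∀ n, Ly h x δ y n ^ 2 = Ev (EX ι x) (uc (EX ι x) l l) (yy h n) := by
    intro n
    rw [Ev_uc l l (hyy n), Ev_sup hZX hls, sq]
    rfl
  have e2 : Ev (EX ι x) (uc (EX ι x) l l) gi = My ι x δ y := by
    rw [uc_ground hZX hls hls, Ev_sup hZX, hl, EE_lam hgi y y]
    · unfold My MM
      refine Finset.sum_congr rfl fun R _ => ?_
      rw [sq]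
    · intro Q hQ
      exact (uc_sup hls hls Q hQ).2
  have hcl : Cls x (B + B) 8 ((x : ℝ) ^ (1 - (1 - 2 * θ))) (uc (EX ι x) l l) := by
    have h4 := h1 δ θ y hy
    have h5 := cls_uc h3 (by norm_num : (0 : ℝ) ≤ 2) (by norm_num : (0 : ℝ) ≤ 2)
      (Real.rpow_nonneg hx0'.le θ) (Real.rpow_nonneg hx0'.le θ) h4 h4
    rw [← Real.rpow_add hx0'] at h5
    rw [show (1 : ℝ) - (1 - 2 * θ) = θ + θ by ring]
    rw [show (8 : ℝ) = 2 + 2 + 2 * 2 by norm_num]
    exact h5
  have h6 := h2 _ hcl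
  rw [e2] at h6
  rw [Finset.sum_congr rfl (fun n _ => e1 n)]
  exact h6

end Pool.Agent.H36.IS

end

section

/-!
# IS SumG: Selberg extension (upper bounds for one or two rough marks)

S ⊆ EZ a set of atoms (used with S = Si i or Si i ∪ Si j); Z a 0/1 shape on S with Z ∅ = 1, support product ≤ x^ρ,
T = ∑_{A⊆S} Z A ∏ fo gi ≥ 1.  On the n for which no atom of S occurs (yy h n e = 0 for e ∈ S):
Ly(y) = Ly(pr S y) (`Ev_lam_pr`) and, with v = pr S y, Ly(v) = Ly(pr S (ext S Z T v)) = Ly(ext S Z T v) (`pr_ext`, `Ev_lam_pr`), so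
∑_{n ∈ AA, no atom of S} Ly(y)² ≤ ∑_{n∈AA} Ly(ext S Z T v)² ≤ Mn · My(ext ..) + x/L^A = Mn · My(v)/T + x/L^A
(`sumI` at level θ+ρ < 1/2, `yok_pr`, `yok_ext`, `MM_ext`).
-/

set_option autoImplicit false

namespace Pool.Agent.H36.IS

open Finset Filter

private theorem SumG_EZ_sub (ι : Type) [Fintype ι] [DecidableEq ι] (x : ℕ) (δ : ℝ) : EZ ι x δ ⊆ EX ι x := by
  intro e he
  unfold EZ at he
  unfold EX
  rw [mem_product] at he ⊢
  exact ⟨he.1, filter_subset _ _ he.2⟩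

open Classical in
theorem sumG (ι : Type) [Fintype ι] [DecidableEq ι] (h : ι → ℕ) (W b : ℕ) (hG : Good h W b) (B1 : ℕ) (δ θ ρ : ℝ)
    (hδ : 0 < δ) (hδ1 : δ ≤ 1) (hθρ : θ + ρ < 1 / 2) (A : ℕ) :
    ∀ᶠ x : ℕ in atTop, ∀ (y : Finset (ι × ℕ) → ℝ) (S : Finset (ι × ℕ)) (Z : Finset (ι × ℕ) → ℝ) (T : ℝ),
      Yok x δ θ (Real.log x ^ B1) y → S ⊆ EZ ι x δ → (∀ A, Z A = 0 ∨ Z A = 1) →
      (∀ A, A ⊆ S → Z A ≠ 0 → ∏ e ∈ A, (e.2 : ℝ) ≤ (x : ℝ) ^ ρ) → 1 ≤ T →
      ∑ A ∈ S.powerset, Z A * ∏ e ∈ A, fo gi e = T →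
      ∑ n ∈ (AA h W b x).filter (fun n => ∀ e ∈ S, yy h n e = 0), Ly h x δ y n ^ 2 ≤
        Mn ι W x * (My ι x δ (pr S (fo gi) y) / T) + x / Real.log x ^ A := by
  obtain ⟨B, hB⟩ := yok_pr ι B1
  filter_upwards [hB, sumI ι h W b hG B δ (θ + ρ) hδ hδ1 hθρ A, eventually_ge_atTop 1] with x hx hI hx1
  intro y S Z T hy hS hZ hZs hT hTT
  have hT0 : T ≠ 0 := by linarith only [hT]
  have hv := hx δ θ y S hS hy
  have hvd : ∀ R, pr S (fo gi) y R ≠ 0 → Disjoint R S := fun R hR => (pr_disj hR).1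
  have hw := yok_ext hx1 hS hv hZ hZs hT
  have hg : ∀ e ∈ EZ ι x δ, 0 < gi e ∧ gi e < 1 := fun e he =>
    (fo_gi (SumG_EZ_sub ι x δ he)).2
  have hLy : ∀ n, (∀ e ∈ S, yy h n e = 0) → Ly h x δ y n = Ly h x δ (ext S Z T (pr S (fo gi) y)) n := by
    intro n hn
    unfold Ly
    rw [← Ev_lam_pr hS hg y hn, ← Ev_lam_pr hS hg (ext S Z T (pr S (fo gi) y)) hn,
      pr_ext hT0 hTT hvd]
  have h1 := (abs_le.1 (hI _ hw)).2
  have h2 : My ι x δ (ext S Z T (pr S (fo gi) y)) = My ι x δ (pr S (fo gi) y) / T :=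
    MM_ext hS hZ hT0 hTT hvd
  rw [h2] at h1
  have h3 : ∑ n ∈ (AA h W b x).filter (fun n => ∀ e ∈ S, yy h n e = 0), Ly h x δ y n ^ 2 ≤
      ∑ n ∈ AA h W b x, Ly h x δ (ext S Z T (pr S (fo gi) y)) n ^ 2 := by
    calc ∑ n ∈ (AA h W b x).filter (fun n => ∀ e ∈ S, yy h n e = 0), Ly h x δ y n ^ 2
        = ∑ n ∈ (AA h W b x).filter (fun n => ∀ e ∈ S, yy h n e = 0),
            Ly h x δ (ext S Z T (pr S (fo gi) y)) n ^ 2 := by
          refine sum_congr rfl fun n hn => ?_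
          rw [hLy n (mem_filter.1 hn).2]
      _ ≤ _ := sum_le_sum_of_subset_of_nonneg (filter_subset _ _) fun n _ _ => sq_nonneg _
  linarith only [h1, h3]

end Pool.Agent.H36.IS

end
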