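import Pool.Agent.H15.TB1.M44

/-! The parts of this file: H36.IS.MerC, H36.IS.Ptw, H36.IS.Sqr. -/

section

/-!
# IS MerC: lower bound for the main term

`Mn_low`: ∏_{p ≤ z0, p ∤ W} (1 - k/p) with k < p for all primes p ∤ W: 1 - k/p ≥ 1/p ≥ 1/(2k+1) for p ≤ 2k+1 (finitely many), and
1 - k/p ≥ (1 + 2k/p)^{-1}... ≥ (1 + 2k fn p)^{-1} for p ≥ 2k (since (1-t)(1+2t) ≥ 1 for 0 ≤ t ≤ 1/2);
so the product is ≥ c ∏_{p ≤ x} (1 + 2k fn p)^{-1} ≥ c (log x)^{-B} by `euler_pow`.  Mn = x/W · product.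
(Proof below: 1 - k/p ≥ (1 + k² fn p)^{-1} for all p ≥ k + 1.)
-/

set_option autoImplicit false

namespace Pool.Agent.H36.IS

open Finset Filter

private theorem MerC_fac {k : ℕ} {p : ℕ} (hp : p.Prime) (hk : k < p) :
    (1 + (k : ℝ) ^ 2 * fn p)⁻¹ ≤ 1 - (k : ℝ) / p := by
  have hp2 : (2 : ℝ) ≤ p := by exact_mod_cast hp.two_le
  have hk1 : (k : ℝ) + 1 ≤ p := by exact_mod_cast hk
  have hp1 : 0 < (p : ℝ) - 1 := by linarith only [hp2]
  have hp0 : 0 < (p : ℝ) := by linarith only [hp2]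
  have hk0 : (0 : ℝ) ≤ k := Nat.cast_nonneg k
  unfold fn
  have e1 : (1 + (k : ℝ) ^ 2 * (1 / ((p : ℝ) - 1)))⁻¹ = (p - 1) / (p - 1 + (k : ℝ) ^ 2) := by
    have : 1 + (k : ℝ) ^ 2 * (1 / ((p : ℝ) - 1)) = (p - 1 + (k : ℝ) ^ 2) / (p - 1) := by
      field_simp
    rw [this, inv_div]
  have e2 : 1 - (k : ℝ) / p = (p - k) / p := by
    field_simp
  rw [e1, e2, div_le_div_iff₀ (by positivity) hp0]
  have h1 : 0 ≤ (k : ℝ) * (k - 1) := by
    rcases Nat.eq_zero_or_pos k with h | h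
    · rw [h]
      simp
    · have : (1 : ℝ) ≤ k := by exact_mod_cast h
      exact mul_nonneg hk0 (by linarith only [this])
  have h2 := mul_nonneg h1 (by linarith only [hk1] : (0 : ℝ) ≤ p - (k + 1))
  linarith only [h2]

theorem Mn_low (ι : Type) [Fintype ι] [DecidableEq ι] (h : ι → ℕ) (W b : ℕ) (hG : Good h W b) :
    ∃ B : ℕ, ∀ᶠ x : ℕ in atTop, (x : ℝ) / Real.log x ^ B ≤ Mn ι W x := by
  set k : ℕ := Fintype.card ι with hk
  obtain ⟨B, hB⟩ := euler_pow ((k : ℝ) ^ 2) (by positivity)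
  have hW : (0 : ℝ) < W := by exact_mod_cast hG.1
  have hlog : ∀ᶠ x : ℕ in atTop, (W : ℝ) ≤ Real.log x :=
    (Real.tendsto_log_atTop.comp tendsto_natCast_atTop_atTop).eventually_ge_atTop _
  refine ⟨B + 1, ?_⟩
  filter_upwards [hB, hlog] with x hx hl
  have hL : 0 < Real.log x := lt_of_lt_of_le hW hl
  have hfn : ∀ p : ℕ, p.Prime → 0 ≤ fn p := by
    intro p hp
    have : (2 : ℝ) ≤ p := by exact_mod_cast hp.two_le
    unfold fn
    exact one_div_nonneg.2 (by linarith only [this])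
  have hsub : PS W x ⊆ (range (x + 1)).filter Nat.Prime := by
    intro p hp
    unfold PS PA at hp
    rw [mem_filter, mem_filter] at hp
    rw [mem_filter]
    exact ⟨hp.1.1, hp.1.2.1⟩
  have h1 : ∀ p ∈ PS W x, (1 + (k : ℝ) ^ 2 * fn p)⁻¹ ≤ 1 - (k : ℝ) / p := by
    intro p hp
    have hp' := (mem_filter.1 (hsub hp)).2
    have hpW : ¬ p ∣ W := by
      unfold PS at hp
      exact (mem_filter.1 hp).2
    exact MerC_fac hp' (hG.2.2 p hp' hpW).1
  have h2 : ∏ p ∈ PS W x, (1 + (k : ℝ) ^ 2 * fn p)⁻¹ ≤ ∏ p ∈ PS W x, (1 - (k : ℝ) / p) :=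
    prod_le_prod (fun p hp => by
      have := hfn p (mem_filter.1 (hsub hp)).2
      positivity) h1
  have h3 : ∏ p ∈ PS W x, (1 + (k : ℝ) ^ 2 * fn p) ≤
      ∏ p ∈ (range (x + 1)).filter Nat.Prime, (1 + (k : ℝ) ^ 2 * fn p) := by
    rw [← prod_sdiff hsub]
    refine le_mul_of_one_le_left (prod_nonneg fun p hp => ?_) ?_
    · have := hfn p (mem_filter.1 (hsub hp)).2
      positivity
    · calc (1 : ℝ) = ∏ p ∈ (range (x + 1)).filter Nat.Prime \ PS W x, (1 : ℝ) := by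
            rw [prod_const_one]
        _ ≤ _ := prod_le_prod (fun _ _ => zero_le_one) fun p hp => by
            have := hfn p (mem_filter.1 (Finset.mem_sdiff.1 hp).1).2
            have h4 : 0 ≤ (k : ℝ) ^ 2 * fn p := by positivity
            linarith only [h4]
  have h4 : 0 < ∏ p ∈ PS W x, (1 + (k : ℝ) ^ 2 * fn p) :=
    prod_pos fun p hp => by
      have := hfn p (mem_filter.1 (hsub hp)).2
      positivity
  have h5 : (Real.log x ^ B)⁻¹ ≤ ∏ p ∈ PS W x, (1 - (k : ℝ) / p) := by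
    refine le_trans ?_ h2
    rw [prod_inv_distrib]
    exact inv_anti₀ h4 (h3.trans hx)
  unfold Mn
  rw [← hk]
  have h6 : (x : ℝ) / Real.log x ^ (B + 1) ≤ (x : ℝ) / W * (Real.log x ^ B)⁻¹ := by
    rw [pow_succ, div_eq_mul_inv, mul_inv, div_eq_mul_inv, mul_assoc]
    refine mul_le_mul_of_nonneg_left ?_ (Nat.cast_nonneg x)
    rw [mul_comm]
    refine mul_le_mul_of_nonneg_right ?_ (by positivity)
    exact inv_anti₀ hW hl
  exact h6.trans (mul_le_mul_of_nonneg_left h5 (by positivity))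

end Pool.Agent.H36.IS

end

section

/-!
# IS Ptw: pointwise bound

|Ly| = |∑_{Q ⊆ EZ} lam Q ∏ yy| ≤ ∑_{Q ⊆ D} L^B 2^|Q| = L^B 3^|D|, D = {(i,p) : p ∈ PX, p ∣ n + h i};  |D| ≤ ∑_i #{p > z0 : p ∣ n + h i}
≤ k log(2x + H)/log z0 ≤ 2k (loglog x)², so Ly² ≤ L^(2B) 9^(2k (loglog x)²) ≤ x^ε.
-/

set_option autoImplicit false

namespace Pool.Agent.H36.IS

open Finset Filter

/-- few large primes divide a number -/
private theorem Ptw_few {z : ℝ} (hz : 1 < z) {m : ℕ} (hm : 0 < m) (S : Finset ℕ)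
    (hS : ∀ p ∈ S, p.Prime ∧ z < (p : ℝ) ∧ p ∣ m) : (S.card : ℝ) * Real.log z ≤ Real.log m := by
  have h1 : ∏ p ∈ S, p ∣ m :=
    Finset.prod_primes_dvd m (fun p hp => (hS p hp).1.prime) (fun p hp => (hS p hp).2.2)
  have h2 : ∏ p ∈ S, p ≤ m := Nat.le_of_dvd hm h1
  have h3 : z ^ S.card ≤ (m : ℝ) := by
    calc z ^ S.card = ∏ _p ∈ S, z := (prod_const z).symm
      _ ≤ ∏ p ∈ S, (p : ℝ) :=
          prod_le_prod (fun _ _ => by linarith only [hz]) (fun p hp => (hS p hp).2.1.le)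
      _ = ((∏ p ∈ S, p : ℕ) : ℝ) := by push_cast; rfl
      _ ≤ (m : ℝ) := by exact_mod_cast h2
  have h4 : 0 < z ^ S.card := by positivity
  have h5 := Real.log_le_log h4 h3
  rwa [Real.log_pow] at h5

private theorem Ptw_abs {α : Type*} [DecidableEq α] (P D : Finset α) (hD : D ⊆ P) (c : Finset α → ℝ)
    (v : α → ℝ) (hv1 : ∀ e ∈ D, v e = 1) (hv0 : ∀ e ∈ P, e ∉ D → v e = 0) {K : ℝ}
    (hc : ∀ Q, Q ⊆ D → |c Q| ≤ K * 2 ^ Q.card) : |Ev P c v| ≤ K * 3 ^ D.card := by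
  have h1 : Ev P c v = ∑ Q ∈ D.powerset, c Q := by
    unfold Ev
    rw [← sum_subset (powerset_mono.mpr hD)]
    · refine sum_congr rfl fun Q hQ => ?_
      rw [mem_powerset] at hQ
      rw [prod_eq_one fun e he => hv1 e (hQ he), mul_one]
    · intro Q hQ hQ2
      rw [mem_powerset] at hQ hQ2
      obtain ⟨e, he, he2⟩ := not_subset.mp hQ2
      rw [prod_eq_zero he (hv0 e (hQ he) he2), mul_zero]
  rw [h1]
  calc |∑ Q ∈ D.powerset, c Q| ≤ ∑ Q ∈ D.powerset, |c Q| := abs_sum_le_sum_abs _ _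
    _ ≤ ∑ Q ∈ D.powerset, K * 2 ^ Q.card :=
        sum_le_sum fun Q hQ => hc Q (mem_powerset.mp hQ)
    _ = K * 3 ^ D.card := by
        rw [← mul_sum]
        congr 1
        have h2 : ∏ _e ∈ D, ((1 : ℝ) + 2) = ∑ Q ∈ D.powerset, ∏ _e ∈ Q, (2 : ℝ) := prod_one_add D
        rw [prod_const] at h2
        rw [sum_congr rfl (fun Q _ => (prod_const (2 : ℝ)).symm), ← h2]
        norm_num

private theorem Ptw_analytic (B k : ℕ) (ε : ℝ) (hε : 0 < ε) : ∀ᶠ x : ℕ in atTop,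
    2 * B * Real.log (Real.log x) + 2 * k * Real.log (Real.log x) ^ 2 * Real.log 9 ≤
      ε * Real.log x := by
  have hu : Tendsto (fun x : ℕ => Real.log (x : ℝ)) atTop atTop :=
    Real.tendsto_log_atTop.comp tendsto_natCast_atTop_atTop
  have key : ∀ᶠ u : ℝ in atTop,
      2 * B * Real.log u + 2 * k * Real.log u ^ 2 * Real.log 9 ≤ ε * u := by
    have h1 : (fun u : ℝ => Real.log u ^ 1) =o[atTop] (id : ℝ → ℝ) := Real.isLittleO_pow_log_id_atTop
    have h2 : (fun u : ℝ => Real.log u ^ 2) =o[atTop] (id : ℝ → ℝ) := Real.isLittleO_pow_log_id_atTop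
    have h3 : (fun u : ℝ => (2 * B) * Real.log u ^ 1 + (2 * k * Real.log 9) * Real.log u ^ 2)
        =o[atTop] (id : ℝ → ℝ) := (h1.const_mul_left _).add (h2.const_mul_left _)
    filter_upwards [h3.bound hε, eventually_ge_atTop 0] with u hu1 hu0
    have h4 := (le_abs_self _).trans hu1
    rw [id, Real.norm_eq_abs, abs_of_nonneg hu0] at h4
    calc 2 * B * Real.log u + 2 * k * Real.log u ^ 2 * Real.log 9
        = (2 * B) * Real.log u ^ 1 + (2 * k * Real.log 9) * Real.log u ^ 2 := by ring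
      _ ≤ ε * u := h4
  exact hu.eventually key

theorem ptw (ι : Type) [Fintype ι] [DecidableEq ι] (h : ι → ℕ) (B1 : ℕ) (ε : ℝ) (hε : 0 < ε) :
    ∀ᶠ x : ℕ in atTop, ∀ (δ θ : ℝ) (y : Finset (ι × ℕ) → ℝ), Yok x δ θ (Real.log x ^ B1) y →
      ∀ n ∈ Ioc x (2 * x), Ly h x δ y n ^ 2 ≤ (x : ℝ) ^ ε := by
  obtain ⟨B, hB⟩ := cls_lam ι B1
  have hu : Tendsto (fun x : ℕ => Real.log (x : ℝ)) atTop atTop :=
    Real.tendsto_log_atTop.comp tendsto_natCast_atTop_atTop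
  have hv : Tendsto (fun x : ℕ => Real.log (Real.log (x : ℝ))) atTop atTop :=
    Real.tendsto_log_atTop.comp hu
  filter_upwards [hB, hu.eventually_ge_atTop 1, hv.eventually_ge_atTop 1,
    Ptw_analytic B (Fintype.card ι) ε hε, eventually_ge_atTop (∑ i, h i + 3)]
    with x hx hu1 hv1 hana hxH δ θ y hy n hn
  have hcls := hx δ θ y hy
  rw [mem_Ioc] at hn
  set u := Real.log (x : ℝ) with hudef
  set v := Real.log u with hvdef
  have hx0 : (0 : ℝ) < (x : ℝ) := by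
    have : 0 < x := by omega
    exact_mod_cast this
  have hu0 : 0 < u := by linarith only [hu1]
  have hv0 : 0 < v := by linarith only [hv1]
  have hlz : Real.log (z0 x) = u / v ^ 2 := by
    unfold z0
    rw [Real.log_exp]
  have hz1 : 1 < z0 x := by
    unfold z0
    rw [Real.one_lt_exp_iff]
    have : 0 < u / v ^ 2 := by positivity
    exact this
  set D : Finset (ι × ℕ) := (EZ ι x δ).filter (fun e => e.2 ∣ n + h e.1) with hDdef
  have hcard : (D.card : ℝ) ≤ Fintype.card ι * (2 * v ^ 2) := by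
    have h1 : D.card = ∑ i : ι, ((PZ x δ).filter (fun p => p ∣ n + h i)).card := by
      rw [hDdef]
      unfold EZ
      rw [card_filter, sum_product]
      refine sum_congr rfl fun i _ => ?_
      rw [card_filter]
    rw [h1]
    push_cast
    have h2 : ∀ i ∈ (univ : Finset ι),
        (((PZ x δ).filter (fun p => p ∣ n + h i)).card : ℝ) ≤ 2 * v ^ 2 := by
      intro i _
      have hm : 0 < n + h i := by omega
      have h3 := Ptw_few hz1 hm ((PZ x δ).filter (fun p => p ∣ n + h i)) (by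
        intro p hp
        rw [mem_filter] at hp
        have hp1 := hp.1
        unfold PZ PX at hp1
        rw [mem_filter, mem_filter] at hp1
        exact ⟨hp1.1.2.1, hp1.1.2.2, hp.2⟩)
      rw [hlz] at h3
      have h4 : Real.log ((n + h i : ℕ) : ℝ) ≤ 2 * u := by
        have h5 : n + h i ≤ x ^ 2 := by
          have h6 : h i ≤ ∑ j, h j := single_le_sum (fun _ _ => Nat.zero_le _) (mem_univ i)
          nlinarith only [hxH, hn, h6]
        have h7 : ((n + h i : ℕ) : ℝ) ≤ (x : ℝ) ^ 2 := by exact_mod_cast h5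
        have h8 : (0 : ℝ) < ((n + h i : ℕ) : ℝ) := by exact_mod_cast hm
        have h9 := Real.log_le_log h8 h7
        rw [Real.log_pow] at h9
        exact_mod_cast h9
      have h10 := h3.trans h4
      have h11 : (((PZ x δ).filter (fun p => p ∣ n + h i)).card : ℝ) * (u / v ^ 2) * (v ^ 2 / u) ≤
          2 * u * (v ^ 2 / u) := mul_le_mul_of_nonneg_right h10 (by positivity)
      have h12 : u / v ^ 2 * (v ^ 2 / u) = 1 := by
        field_simp
      have h13 : 2 * u * (v ^ 2 / u) = 2 * v ^ 2 := by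
        field_simp
      rw [mul_assoc, h12, mul_one, h13] at h11
      exact h11
    calc ∑ i : ι, (((PZ x δ).filter (fun p => p ∣ n + h i)).card : ℝ)
        ≤ ∑ _i : ι, 2 * v ^ 2 := sum_le_sum h2
      _ = Fintype.card ι * (2 * v ^ 2) := by
          rw [sum_const, card_univ, nsmul_eq_mul]
  have habs : |Ly h x δ y n| ≤ u ^ B * 3 ^ D.card := by
    unfold Ly
    refine Ptw_abs (EZ ι x δ) D (filter_subset _ _) _ _ ?_ ?_ (fun Q _ => (hcls Q).1)
    · intro e he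
      rw [hDdef, mem_filter] at he
      unfold yy
      rw [if_pos he.2]
    · intro e he he2
      unfold yy
      rw [if_neg]
      intro h3
      exact he2 (by rw [hDdef, mem_filter]; exact ⟨he, h3⟩)
  have hsq : Ly h x δ y n ^ 2 ≤ (u ^ B * 3 ^ D.card) ^ 2 := by
    rw [← sq_abs]
    exact pow_le_pow_left₀ (abs_nonneg _) habs 2
  refine hsq.trans ?_
  have e1 : (u ^ B * 3 ^ D.card) ^ 2 = Real.exp (2 * B * v + D.card * Real.log 9) := by
    rw [Real.exp_add]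
    have e2 : Real.exp (2 * B * v) = (u ^ B) ^ 2 := by
      rw [← pow_mul]
      have e3 : 2 * (B : ℝ) * v = ((B * 2 : ℕ) : ℝ) * v := by push_cast; ring
      rw [e3, Real.exp_nat_mul, hvdef, Real.exp_log hu0]
    have e4 : Real.exp (D.card * Real.log 9) = ((3 : ℝ) ^ D.card) ^ 2 := by
      rw [Real.exp_nat_mul, Real.exp_log (by norm_num), ← pow_mul, mul_comm D.card 2, pow_mul]
      norm_num
    rw [e2, e4]
    ring
  rw [e1, Real.rpow_def_of_pos hx0]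
  refine Real.exp_le_exp.mpr ?_
  have hl9 : 0 ≤ Real.log 9 := Real.log_nonneg (by norm_num)
  have h14 : D.card * Real.log 9 ≤ Fintype.card ι * (2 * v ^ 2) * Real.log 9 :=
    mul_le_mul_of_nonneg_right hcard hl9
  have h15 : Real.log (x : ℝ) * ε = ε * u := by rw [← hudef]; ring
  rw [h15]
  calc 2 * B * v + D.card * Real.log 9
      ≤ 2 * B * v + Fintype.card ι * (2 * v ^ 2) * Real.log 9 := by linarith only [h14]
    _ = 2 * B * v + 2 * (Fintype.card ι : ℝ) * v ^ 2 * Real.log 9 := by ring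
    _ ≤ ε * u := hana

end Pool.Agent.H36.IS

end

section

/-!
# IS Sqr: integers divisible by a large square

∑_{x < n ≤ 2x, ∃ p > x^δ prime, p² ∣ n + h i} Ly² ≤ x^(δ/4) ∑_{x^δ < p ≤ √(3x)} (x/p² + 1) ≤ x^(δ/4) (2 x^(1-δ) + 2 x^(1/2)) ≤ x^(1-δ/4)
for δ ≤ 1/2 (`ptw` with ε = δ/4; #{n ∈ (x,2x] : m ∣ n + h} ≤ x/m + 1; ∑_{n > y} 1/n² ≤ 2/y; p² ≤ 2x + h i ≤ 3x).
-/

set_option autoImplicit false

namespace Pool.Agent.H36.IS

open Finset Filter

/-- multiples in an interval -/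
private theorem Sqr_card (a b H m : ℕ) (hm : 0 < m) (hab : a ≤ b) :
    (((Ioc a b).filter (fun n => m ∣ n + H)).card : ℝ) ≤ ((b : ℝ) - a) / m + 1 := by
  have h1 : ((Ioc a b).filter (fun n => m ∣ n + H)).card ≤ (Ioc ((a + H) / m) ((b + H) / m)).card := by
    refine Finset.card_le_card_of_injOn (fun n => (n + H) / m) ?_ ?_
    · intro n hn
      rw [Finset.mem_coe, mem_filter, mem_Ioc] at hn
      obtain ⟨⟨h2, h3⟩, t, ht⟩ := hn
      rw [Finset.mem_coe, mem_Ioc]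
      have h4 : (n + H) / m = t := by
        rw [ht]
        exact Nat.mul_div_cancel_left t hm
      simp only
      rw [h4]
      constructor
      · rw [Nat.div_lt_iff_lt_mul hm]
        calc a + H < n + H := by omega
          _ = m * t := ht
          _ = t * m := mul_comm _ _
      · rw [Nat.le_div_iff_mul_le hm]
        calc t * m = m * t := mul_comm _ _
          _ = n + H := ht.symm
          _ ≤ b + H := by omega
    · intro n hn n' hn' heq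
      rw [Finset.mem_coe, mem_filter] at hn hn'
      obtain ⟨_, t, ht⟩ := hn
      obtain ⟨_, t', ht'⟩ := hn'
      simp only at heq
      rw [ht, ht', Nat.mul_div_cancel_left t hm, Nat.mul_div_cancel_left t' hm] at heq
      rw [heq] at ht
      omega
  rw [Nat.card_Ioc] at h1
  have h5 : (b + H) / m ≤ (a + H) / m + (b - a) / m + 1 := by
    have e : b + H = (a + H) + (b - a) := by omega
    rw [e, Nat.add_div hm]
    split_ifs <;> omega
  have h6 : ((Ioc a b).filter (fun n => m ∣ n + H)).card ≤ (b - a) / m + 1 := by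
    refine h1.trans ?_
    rw [Nat.sub_le_iff_le_add]
    exact h5.trans (le_of_eq (by ring))
  have h7 : (((b - a) / m : ℕ) : ℝ) ≤ ((b : ℝ) - a) / m := by
    refine (Nat.cast_div_le (α := ℝ)).trans (le_of_eq ?_)
    rw [Nat.cast_sub hab]
  calc (((Ioc a b).filter (fun n => m ∣ n + H)).card : ℝ) ≤ (((b - a) / m + 1 : ℕ) : ℝ) := by
        exact_mod_cast h6
    _ = (((b - a) / m : ℕ) : ℝ) + 1 := by push_cast; ring
    _ ≤ _ := by linarith only [h7]

/-- the number of integers -/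
private theorem Sqr_count (x H : ℕ) (δ : ℝ) (hδ1 : δ ≤ 1 / 2) (hx : 1 ≤ x)
    (hH : H ≤ x) (h2 : 2 ≤ (x : ℝ) ^ δ)
    [DecidablePred fun n => ∃ p : ℕ, p.Prime ∧ (x : ℝ) ^ δ < p ∧ p ^ 2 ∣ n + H] :
    (((Ioc x (2 * x)).filter
      (fun n => ∃ p : ℕ, p.Prime ∧ (x : ℝ) ^ δ < p ∧ p ^ 2 ∣ n + H)).card : ℝ) ≤
      4 * (x : ℝ) ^ (1 - δ) := by
  classical
  have hx0 : (0 : ℝ) < x := by exact_mod_cast hx
  have hx1 : (1 : ℝ) ≤ x := by exact_mod_cast hx
  have hxd : 0 < (x : ℝ) ^ δ := Real.rpow_pos_of_pos hx0 _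
  set M0 := ⌊(x : ℝ) ^ δ⌋₊ with hM0
  set M1 := ⌊2 * (x : ℝ) ^ (1 / 2 : ℝ)⌋₊ with hM1
  have hM0a : (M0 : ℝ) ≤ (x : ℝ) ^ δ := Nat.floor_le hxd.le
  have hM0b : (x : ℝ) ^ δ < M0 + 1 := Nat.lt_floor_add_one _
  have hM0c : (x : ℝ) ^ δ / 2 ≤ M0 := by linarith only [h2, hM0b]
  have hM0d : 0 < (M0 : ℝ) := by linarith only [h2, hM0b]
  have hM0e : M0 ≠ 0 := by
    intro h
    rw [h] at hM0d
    simp at hM0d
  have hpow : (x : ℝ) ^ δ ≤ (x : ℝ) ^ (1 / 2 : ℝ) := Real.rpow_le_rpow_of_exponent_le hx1 hδ1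
  have hM01 : M0 ≤ M1 := by
    refine Nat.floor_le_floor ?_
    have : 0 < (x : ℝ) ^ (1 / 2 : ℝ) := Real.rpow_pos_of_pos hx0 _
    linarith only [h2, hpow]
  have hM1a : (M1 : ℝ) ≤ 2 * (x : ℝ) ^ (1 / 2 : ℝ) := Nat.floor_le (by positivity)
  have hsq : ((x : ℝ) ^ (1 / 2 : ℝ)) ^ 2 = x := by
    rw [← Real.rpow_natCast, ← Real.rpow_mul hx0.le]
    norm_num
  have hsub : (Ioc x (2 * x)).filter
      (fun n => ∃ p : ℕ, p.Prime ∧ (x : ℝ) ^ δ < p ∧ p ^ 2 ∣ n + H) ⊆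
      (Ioc M0 M1).biUnion fun m => (Ioc x (2 * x)).filter (fun n => m ^ 2 ∣ n + H) := by
    intro n hn
    rw [mem_filter, mem_Ioc] at hn
    obtain ⟨⟨hn1, hn2⟩, p, hp, hp1, hp2⟩ := hn
    rw [mem_biUnion]
    refine ⟨p, ?_, ?_⟩
    · rw [mem_Ioc]
      constructor
      · have : (M0 : ℝ) < p := lt_of_le_of_lt hM0a hp1
        exact_mod_cast this
      · refine Nat.le_floor ?_
        have h3 : p ^ 2 ≤ n + H := Nat.le_of_dvd (by omega) hp2
        have h4 : p ^ 2 ≤ 3 * x := by omega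
        have h5 : (p : ℝ) ^ 2 ≤ (2 * (x : ℝ) ^ (1 / 2 : ℝ)) ^ 2 := by
          have : ((p ^ 2 : ℕ) : ℝ) ≤ ((3 * x : ℕ) : ℝ) := by exact_mod_cast h4
          push_cast at this
          rw [mul_pow, hsq]
          linarith only [this]
        exact le_of_sq_le_sq h5 (by positivity)
    · rw [mem_filter, mem_Ioc]
      exact ⟨⟨hn1, hn2⟩, hp2⟩
  have hcard : (((Ioc x (2 * x)).filter
      (fun n => ∃ p : ℕ, p.Prime ∧ (x : ℝ) ^ δ < p ∧ p ^ 2 ∣ n + H)).card : ℝ) ≤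
      ∑ m ∈ Ioc M0 M1, (x * ((m : ℝ) ^ 2)⁻¹ + 1) := by
    calc _ ≤ ((((Ioc M0 M1).biUnion fun m =>
          (Ioc x (2 * x)).filter (fun n => m ^ 2 ∣ n + H)).card : ℕ) : ℝ) := by
          exact_mod_cast card_le_card hsub
      _ ≤ ((∑ m ∈ Ioc M0 M1, ((Ioc x (2 * x)).filter (fun n => m ^ 2 ∣ n + H)).card : ℕ) : ℝ) := by
          exact_mod_cast card_biUnion_le
      _ = ∑ m ∈ Ioc M0 M1, (((Ioc x (2 * x)).filter (fun n => m ^ 2 ∣ n + H)).card : ℝ) := by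
          push_cast
          rfl
      _ ≤ _ := by
          refine sum_le_sum fun m hm => ?_
          rw [mem_Ioc] at hm
          have hm0 : 0 < m := by omega
          have h6 := Sqr_card x (2 * x) H (m ^ 2) (by positivity) (by omega)
          refine h6.trans (le_of_eq ?_)
          push_cast
          field_simp
          ring
  refine hcard.trans ?_
  rw [sum_add_distrib, ← mul_sum, sum_const, Nat.card_Ioc, nsmul_eq_mul, mul_one]
  have h7 := sum_Ioc_inv_sq_le_sub (α := ℝ) hM0e hM01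
  have h8 : ∑ m ∈ Ioc M0 M1, ((m : ℝ) ^ 2)⁻¹ ≤ (M0 : ℝ)⁻¹ := by
    have : (0 : ℝ) ≤ (M1 : ℝ)⁻¹ := by positivity
    linarith only [h7, this]
  have h9 : (x : ℝ) * (M0 : ℝ)⁻¹ ≤ 2 * (x : ℝ) ^ (1 - δ) := by
    rw [Real.rpow_sub hx0, Real.rpow_one, ← div_eq_mul_inv, div_le_iff₀ hM0d]
    have h10 : 2 * ((x : ℝ) / (x : ℝ) ^ δ) * M0 ≥ 2 * ((x : ℝ) / (x : ℝ) ^ δ) * ((x : ℝ) ^ δ / 2) :=
      mul_le_mul_of_nonneg_left hM0c (by positivity)
    have h11 : 2 * ((x : ℝ) / (x : ℝ) ^ δ) * ((x : ℝ) ^ δ / 2) = x := by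
      field_simp
    linarith only [h10, h11]
  have h12 : ((M1 - M0 : ℕ) : ℝ) ≤ 2 * (x : ℝ) ^ (1 - δ) := by
    have h13 : ((M1 - M0 : ℕ) : ℝ) ≤ M1 := by exact_mod_cast Nat.sub_le _ _
    have h14 : (x : ℝ) ^ (1 / 2 : ℝ) ≤ (x : ℝ) ^ (1 - δ) :=
      Real.rpow_le_rpow_of_exponent_le hx1 (by linarith only [hδ1])
    linarith only [hM1a, h13, h14]
  have h15 : (x : ℝ) * ∑ m ∈ Ioc M0 M1, ((m : ℝ) ^ 2)⁻¹ ≤ x * (M0 : ℝ)⁻¹ :=
    mul_le_mul_of_nonneg_left h8 hx0.le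
  linarith only [h9, h12, h15]

open Classical in
theorem sqr_le (ι : Type) [Fintype ι] [DecidableEq ι] (h : ι → ℕ) (B1 : ℕ) (δ : ℝ) (hδ : 0 < δ) (hδ1 : δ ≤ 1 / 2) :
    ∀ᶠ x : ℕ in atTop, ∀ (θ : ℝ) (y : Finset (ι × ℕ) → ℝ), Yok x δ θ (Real.log x ^ B1) y → ∀ i,
      ∑ n ∈ (Ioc x (2 * x)).filter (fun n => ∃ p : ℕ, p.Prime ∧ (x : ℝ) ^ δ < p ∧ p ^ 2 ∣ n + h i),
        Ly h x δ y n ^ 2 ≤ (x : ℝ) ^ (1 - δ / 4) := by
  have e1 := ptw ι h B1 (δ / 4) (by positivity)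
  have e2 : ∀ᶠ x : ℕ in atTop, ∀ i, h i ≤ x :=
    Filter.eventually_all.2 fun i => eventually_ge_atTop (h i)
  have e3 : ∀ᶠ x : ℕ in atTop, 4 ≤ (x : ℝ) ^ (δ / 2) :=
    ((tendsto_rpow_atTop (by positivity : 0 < δ / 2)).comp
      (tendsto_natCast_atTop_atTop (R := ℝ))).eventually_ge_atTop 4
  filter_upwards [e1, e2, e3, eventually_ge_atTop 1] with x h1 h2 h3 h4 θ y hy i
  have hx0 : (0 : ℝ) < x := by exact_mod_cast h4
  have h5 : 2 ≤ (x : ℝ) ^ δ := by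
    have h6 : (x : ℝ) ^ δ = (x : ℝ) ^ (δ / 2) * (x : ℝ) ^ (δ / 2) := by
      rw [← Real.rpow_add hx0]
      congr 1
      ring
    rw [h6]
    nlinarith only [h3]
  have h7 := Sqr_count x (h i) δ hδ1 h4 (h2 i) h5
  calc ∑ n ∈ (Ioc x (2 * x)).filter
        (fun n => ∃ p : ℕ, p.Prime ∧ (x : ℝ) ^ δ < p ∧ p ^ 2 ∣ n + h i), Ly h x δ y n ^ 2
      ≤ ∑ _n ∈ (Ioc x (2 * x)).filter
        (fun n => ∃ p : ℕ, p.Prime ∧ (x : ℝ) ^ δ < p ∧ p ^ 2 ∣ n + h i), (x : ℝ) ^ (δ / 4) := by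
        refine sum_le_sum fun n hn => ?_
        exact h1 δ θ y hy n (mem_filter.1 hn).1
    _ = (((Ioc x (2 * x)).filter
        (fun n => ∃ p : ℕ, p.Prime ∧ (x : ℝ) ^ δ < p ∧ p ^ 2 ∣ n + h i)).card : ℝ) *
        (x : ℝ) ^ (δ / 4) := by
        rw [sum_const, nsmul_eq_mul]
    _ ≤ 4 * (x : ℝ) ^ (1 - δ) * (x : ℝ) ^ (δ / 4) :=
        mul_le_mul_of_nonneg_right h7 (by positivity)
    _ ≤ (x : ℝ) ^ (δ / 2) * (x : ℝ) ^ (1 - δ) * (x : ℝ) ^ (δ / 4) := by gcongr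
    _ = (x : ℝ) ^ (1 - δ / 4) := by
        rw [← Real.rpow_add hx0, ← Real.rpow_add hx0]
        congr 1
        ring

end Pool.Agent.H36.IS

end
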