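import Pool.Agent.H15.TB1.M40
import Pool.Agent.H15.TB1.M56
import Pool.Agent.H15.TB1.M58

/-! The parts of this file: H36.IS2.WtLU, H36.IS2.SumNL, H36.IS2.SumNU, H36.IS2.SumN. -/

section

/-!
# ISP WtLU: lower and upper weights on one component (with comparison)

As `wtL` and `wtU` (Pool/Agent/H36/IS/Wts.lean; copy the private lemmas you need), with in addition Ev cL gi ≤ V1 ≤ Ev cU gi:
from ev cL P y ≤ Vg y P for all 0/1 vectors y we get the same for all y with values in [0,1] (both sides are multilinear: the lemma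
`Wts_nonneg_aux` applied to c' = (exact weights) - cL, resp. cU - (exact weights), where the exact weights are T ↦ (-1)^|T| (T ⊆ P): `SvA_ex`,
`SvA_ev_ex`, `SvA_ev_sub` in Pool/Agent/H91/PK/SvA.lean; or directly by induction), at y = 1/p: Vg (1/p) P = V1 x δ.
-/

set_option autoImplicit false

namespace Pool.Agent.H36.IS2

open Finset Filter Pool.Agent.H36.IS

open Pool.Agent.H91.PK (L1 U1)

open Pool.Agent.H91.PK (ev Vg ZO Wt g1 BigP)

private theorem WtLU_affine (c : Finset ℕ → ℝ) (P : Finset ℕ) (g : ℕ → ℝ) (a : ℕ) :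
    ev c P g = g a * ev c P (Function.update g a 1) +
      (1 - g a) * ev c P (Function.update g a 0) := by
  unfold ev
  rw [Finset.mul_sum, Finset.mul_sum, ← Finset.sum_add_distrib]
  refine Finset.sum_congr rfl fun T _ => ?_
  by_cases h : a ∈ T
  · have h1 : ∀ v : ℝ, ∏ p ∈ T, Function.update g a v p = v * ∏ p ∈ T.erase a, g p := by
      intro v
      rw [← Finset.mul_prod_erase T _ h, Function.update_self]
      congr 1
      exact Finset.prod_congr rfl fun p hp => Function.update_of_ne (Finset.ne_of_mem_erase hp) _ _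
    rw [h1, h1, ← Finset.mul_prod_erase T g h]
    ring
  · have h1 : ∀ v : ℝ, ∏ p ∈ T, Function.update g a v p = ∏ p ∈ T, g p := by
      intro v
      refine Finset.prod_congr rfl fun p hp => Function.update_of_ne ?_ _ _
      rintro rfl
      exact h hp
    rw [h1, h1]
    ring

private theorem WtLU_nonneg_aux (c : Finset ℕ → ℝ) (P : Finset ℕ) (h : ∀ y, ZO y → 0 ≤ ev c P y)
    (A : Finset ℕ) : ∀ g : ℕ → ℝ, (∀ p ∈ A, 0 ≤ g p ∧ g p ≤ 1) →
      (∀ p, p ∉ A → g p = 0 ∨ g p = 1) → 0 ≤ ev c P g := by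
  induction A using Finset.induction_on with
  | empty =>
    intro g _ hg
    exact h g (fun p => hg p (Finset.notMem_empty p))
  | insert a A ha ih =>
    intro g hg1 hg2
    rw [WtLU_affine c P g a]
    have h1 := hg1 a (mem_insert_self a A)
    have h2 : ∀ v : ℝ, v = 0 ∨ v = 1 → 0 ≤ ev c P (Function.update g a v) := by
      intro v hv
      apply ih
      · intro p hp
        have hne : p ≠ a := by
          rintro rfl
          exact ha hp
        rw [Function.update_of_ne hne]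
        exact hg1 p (mem_insert_of_mem hp)
      · intro p hp
        by_cases e : p = a
        · subst e
          rw [Function.update_self]
          exact hv
        · rw [Function.update_of_ne e]
          apply hg2
          rw [mem_insert, not_or]
          exact ⟨e, hp⟩
    have h3 := mul_nonneg h1.1 (h2 1 (Or.inr rfl))
    have h4 := mul_nonneg (by linarith only [h1] : 0 ≤ 1 - g a) (h2 0 (Or.inl rfl))
    linarith only [h3, h4]

private theorem WtLU_ev_congr (c : Finset ℕ → ℝ) (P : Finset ℕ) {g g' : ℕ → ℝ}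
    (h : ∀ p ∈ P, g p = g' p) : ev c P g = ev c P g' := by
  unfold ev
  refine Finset.sum_congr rfl fun T hT => ?_
  congr 1
  exact Finset.prod_congr rfl fun p hp => h p (mem_powerset.mp hT hp)

private theorem WtLU_nonneg (c : Finset ℕ → ℝ) (P : Finset ℕ) (h : ∀ y, ZO y → 0 ≤ ev c P y)
    (g : ℕ → ℝ) (hg : ∀ p ∈ P, 0 ≤ g p ∧ g p ≤ 1) : 0 ≤ ev c P g := by
  classical
  rw [WtLU_ev_congr c P (g' := fun p => if p ∈ P then g p else 0)
    (fun p hp => by simp only [hp, if_true])]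
  apply WtLU_nonneg_aux c P h P
  · intro p hp
    simp only [hp, if_true]
    exact hg p hp
  · intro p hp
    left
    simp only [hp, if_false]

section Transport

variable {ι : Type} [DecidableEq ι]

/-- The weights on the component `i`. -/
private noncomputable def WtLU_tr (i : ι) (P : Finset ℕ) (c : Finset ℕ → ℝ) : Finset (ι × ℕ) → ℝ :=
  fun Q => if Q ⊆ {i} ×ˢ P then c (Q.image Prod.snd) else 0

private theorem WtLU_injOn {i : ι} {P : Finset ℕ} {Q : Finset (ι × ℕ)} (hQ : Q ⊆ {i} ×ˢ P) :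
    Set.InjOn Prod.snd (Q : Set (ι × ℕ)) := by
  rintro ⟨a, p⟩ ha ⟨b, q⟩ hb hpq
  have h1 := hQ (mem_coe.mp ha)
  have h2 := hQ (mem_coe.mp hb)
  rw [mem_product, mem_singleton] at h1 h2
  simp only at h1 h2 hpq
  rw [h1.1, h2.1, hpq]

private theorem WtLU_img {i : ι} {P : Finset ℕ} {Q : Finset (ι × ℕ)} (hQ : Q ⊆ {i} ×ˢ P) :
    Q.image Prod.snd ⊆ P := by
  intro p hp
  rw [mem_image] at hp
  obtain ⟨e, he, rfl⟩ := hp
  exact (mem_product.mp (hQ he)).2

private theorem WtLU_back {i : ι} {P : Finset ℕ} {Q : Finset (ι × ℕ)} (hQ : Q ⊆ {i} ×ˢ P) :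
    {i} ×ˢ (Q.image Prod.snd) = Q := by
  ext ⟨a, p⟩
  rw [mem_product, mem_singleton, mem_image]
  constructor
  · rintro ⟨h1, ⟨⟨b, q⟩, h2, h3⟩⟩
    have h4 := hQ h2
    rw [mem_product, mem_singleton] at h4
    simp only at h1 h3 h4
    rw [h1, ← h3, ← h4.1]
    exact h2
  · intro h
    have h4 := hQ h
    rw [mem_product, mem_singleton] at h4
    exact ⟨h4.1, ⟨(a, p), h, rfl⟩⟩

private theorem WtLU_prod {i : ι} {P : Finset ℕ} {Q : Finset (ι × ℕ)} (hQ : Q ⊆ {i} ×ˢ P)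
    (y : ι × ℕ → ℝ) : ∏ e ∈ Q, y e = ∏ p ∈ Q.image Prod.snd, y (i, p) := by
  rw [Finset.prod_image (fun a ha b hb hab => WtLU_injOn hQ (mem_coe.mpr ha) (mem_coe.mpr hb) hab)]
  refine Finset.prod_congr rfl fun e he => ?_
  have h4 := hQ he
  rw [mem_product, mem_singleton] at h4
  rw [← h4.1]

private theorem WtLU_Ev (i : ι) (P : Finset ℕ) (c : Finset ℕ → ℝ) (Z : Finset (ι × ℕ))
    (hZ : {i} ×ˢ P ⊆ Z) (y : ι × ℕ → ℝ) :
    Ev Z (WtLU_tr i P c) y = ev c P (fun p => y (i, p)) := by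
  unfold Ev ev
  rw [← Finset.sum_subset (Finset.powerset_mono.mpr hZ)]
  · refine Finset.sum_nbij' (fun T => T.image Prod.snd) (fun S => {i} ×ˢ S) ?_ ?_ ?_ ?_ ?_
    · intro T hT
      exact mem_powerset.mpr (WtLU_img (mem_powerset.mp hT))
    · intro S hS
      exact mem_powerset.mpr (Finset.product_subset_product (Finset.Subset.refl _)
        (mem_powerset.mp hS))
    · intro T hT
      exact WtLU_back (mem_powerset.mp hT)
    · intro S _
      exact Finset.product_image_snd (Finset.singleton_nonempty i)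
    · intro T hT
      have hT' := mem_powerset.mp hT
      rw [WtLU_prod hT' y]
      unfold WtLU_tr
      rw [if_pos hT']
  · intro T _ hT
    rw [mem_powerset] at hT
    unfold WtLU_tr
    rw [if_neg hT, zero_mul]

end Transport

private theorem WtLU_prod_ge (P : Finset ℕ) (a : ℕ → ℝ) (ha : ∀ p ∈ P, 0 ≤ a p ∧ a p ≤ 1) :
    1 - ∑ p ∈ P, a p ≤ ∏ p ∈ P, (1 - a p) := by
  classical
  induction P using Finset.induction_on with
  | empty => simp
  | insert q P hq ih =>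
    rw [Finset.sum_insert hq, Finset.prod_insert hq]
    have h1 := ha q (mem_insert_self q P)
    have h2 := ih (fun p hp => ha p (mem_insert_of_mem hp))
    have h3 : ∏ p ∈ P, (1 - a p) ≤ 1 :=
      Finset.prod_le_one (fun p hp => by linarith only [(ha p (mem_insert_of_mem hp)).2])
        (fun p hp => by linarith only [(ha p (mem_insert_of_mem hp)).1])
    nlinarith only [h1, h2, h3]

private theorem WtLU_sum_le (P : Finset ℕ) (a : ℕ → ℝ) (ha : ∀ p ∈ P, 0 ≤ a p) :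
    1 ≤ ∏ p ∈ P, (1 + a p) ∧ ∑ p ∈ P, a p ≤ ∏ p ∈ P, (1 + a p) := by
  classical
  induction P using Finset.induction_on with
  | empty => simp
  | insert q P hq ih =>
    rw [Finset.sum_insert hq, Finset.prod_insert hq]
    have h1 := ha q (mem_insert_self q P)
    obtain ⟨h2, h3⟩ := ih (fun p hp => ha p (mem_insert_of_mem hp))
    constructor
    · nlinarith only [h1, h2]
    · nlinarith only [h1, h2, h3]

/-- The comparison of the densities `1 / (p - 1)` and `1 / p`. -/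
private theorem WtLU_dens (P : Finset ℕ) (Z F : ℝ) (hZ : 1 < Z) (hP : ∀ p ∈ P, Z ≤ (p : ℝ))
    (hP2 : ∀ p ∈ P, 2 ≤ p) (hF : ∏ p ∈ P, (1 + fn p) ≤ F) :
    0 < ∏ p ∈ P, (1 - 1 / (p : ℝ)) ∧ 1 ≤ F ∧
    Vg g1 P ≤ ∏ p ∈ P, (1 - 1 / (p : ℝ)) ∧
    (∏ p ∈ P, (1 - 1 / (p : ℝ))) * (1 - F / (Z - 1)) ≤ Vg g1 P ∧
    ∀ c : Finset ℕ → ℝ, (∀ T, |c T| ≤ 1) → |ev c P g1 - ev c P (fun p => 1 / (p : ℝ))| ≤
      (∏ p ∈ P, (1 - 1 / (p : ℝ))) * (F ^ 3 / (Z - 1)) := by
  have hp2 : ∀ p ∈ P, (2 : ℝ) ≤ p := fun p hp => by exact_mod_cast hP2 p hp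
  have hfn0 : ∀ p ∈ P, 0 ≤ fn p := by
    intro p hp
    unfold fn
    have := hp2 p hp
    exact div_nonneg zero_le_one (by linarith only [this])
  have hfn1 : ∀ p ∈ P, fn p ≤ 1 := by
    intro p hp
    unfold fn
    have := hp2 p hp
    rw [div_le_one (by linarith only [this])]
    linarith only [this]
  have hr0 : ∀ p ∈ P, 0 ≤ 1 / (p : ℝ) := fun p _ => by positivity
  have hrf : ∀ p ∈ P, 1 / (p : ℝ) ≤ fn p := by
    intro p hp
    unfold fn
    have := hp2 p hp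
    exact one_div_le_one_div_of_le (by linarith only [this]) (by linarith only [])
  have hr1 : ∀ p ∈ P, 0 < 1 - 1 / (p : ℝ) := by
    intro p hp
    have := hp2 p hp
    have h1 : 1 / (p : ℝ) ≤ 1 / 2 := one_div_le_one_div_of_le (by norm_num) this
    linarith only [h1]
  set Fp : ℝ := ∏ p ∈ P, (1 + fn p) with hFp
  set V : ℝ := ∏ p ∈ P, (1 - 1 / (p : ℝ)) with hV
  obtain ⟨hFp1, hsum⟩ := WtLU_sum_le P fn hfn0
  rw [← hFp] at hFp1 hsum
  have hF1 : 1 ≤ F := hFp1.trans hF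
  have hVpos : 0 < V := Finset.prod_pos hr1
  have hVF : V * Fp = 1 := by
    rw [hV, hFp, ← Finset.prod_mul_distrib]
    apply Finset.prod_eq_one
    intro p hp
    unfold fn
    have := hp2 p hp
    have h1 : (p : ℝ) - 1 ≠ 0 := by
      intro h
      linarith only [this, h]
    have h2 : (p : ℝ) ≠ 0 := by
      intro h
      linarith only [this, h]
    field_simp
    ring
  have hZ1 : 0 < Z - 1 := by linarith only [hZ]
  have hS2 : ∑ p ∈ P, fn p ^ 2 ≤ F / (Z - 1) := by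
    calc ∑ p ∈ P, fn p ^ 2 ≤ ∑ p ∈ P, fn p * (1 / (Z - 1)) := by
          apply Finset.sum_le_sum
          intro p hp
          rw [sq]
          apply mul_le_mul_of_nonneg_left _ (hfn0 p hp)
          unfold fn
          exact one_div_le_one_div_of_le hZ1 (by linarith only [hP p hp])
      _ = (∑ p ∈ P, fn p) * (1 / (Z - 1)) := by rw [Finset.sum_mul]
      _ ≤ F * (1 / (Z - 1)) :=
          mul_le_mul_of_nonneg_right (hsum.trans hF) (by positivity)
      _ = F / (Z - 1) := by ring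
  have hg1 : ∀ p, g1 p = fn p := fun p => rfl
  refine ⟨hVpos, hF1, ?_, ?_, ?_⟩
  · unfold Vg
    apply Finset.prod_le_prod
    · intro p hp
      rw [hg1]
      linarith only [hfn1 p hp]
    · intro p hp
      rw [hg1]
      linarith only [hrf p hp]
  · have h1 : Vg g1 P = V * ∏ p ∈ P, (1 - fn p ^ 2) := by
      unfold Vg
      rw [hV, ← Finset.prod_mul_distrib]
      refine Finset.prod_congr rfl fun p hp => ?_
      rw [hg1]
      unfold fn
      have := hp2 p hp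
      have h1 : (p : ℝ) - 1 ≠ 0 := by
        intro h
        linarith only [this, h]
      have h2 : (p : ℝ) ≠ 0 := by
        intro h
        linarith only [this, h]
      field_simp
      ring
    rw [h1]
    apply mul_le_mul_of_nonneg_left _ hVpos.le
    have h2 := WtLU_prod_ge P (fun p => fn p ^ 2) (fun p hp => ⟨sq_nonneg _, by
      have h3 := hfn1 p hp
      have h4 := hfn0 p hp
      nlinarith only [h3, h4]⟩)
    linarith only [hS2, h2]
  · intro c hc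
    have h1 : |ev c P g1 - ev c P (fun p => 1 / (p : ℝ))| ≤
        ∑ T ∈ P.powerset, (∏ p ∈ T, fn p - ∏ p ∈ T, 1 / (p : ℝ)) := by
      unfold ev
      rw [← Finset.sum_sub_distrib]
      refine (Finset.abs_sum_le_sum_abs _ _).trans ?_
      apply Finset.sum_le_sum
      intro T hT
      have hT' := mem_powerset.mp hT
      rw [← mul_sub, abs_mul]
      have h2 : ∏ p ∈ T, 1 / (p : ℝ) ≤ ∏ p ∈ T, fn p :=
        Finset.prod_le_prod (fun p hp => hr0 p (hT' hp)) (fun p hp => hrf p (hT' hp))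
      have h3 : |∏ p ∈ T, g1 p - ∏ p ∈ T, 1 / (p : ℝ)| =
          ∏ p ∈ T, fn p - ∏ p ∈ T, 1 / (p : ℝ) := by
        apply abs_of_nonneg
        have : ∏ p ∈ T, g1 p = ∏ p ∈ T, fn p := rfl
        rw [this]
        linarith only [h2]
      rw [h3]
      calc |c T| * (∏ p ∈ T, fn p - ∏ p ∈ T, 1 / (p : ℝ)) ≤
            1 * (∏ p ∈ T, fn p - ∏ p ∈ T, 1 / (p : ℝ)) :=
            mul_le_mul_of_nonneg_right (hc T) (by linarith only [h2])
        _ = _ := one_mul _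
    refine h1.trans ?_
    rw [Finset.sum_sub_distrib, ← Finset.prod_one_add, ← Finset.prod_one_add]
    have h4 : ∏ p ∈ P, (1 + 1 / (p : ℝ)) = Fp * ∏ p ∈ P, (1 - (1 / (p : ℝ)) ^ 2) := by
      rw [hFp, ← Finset.prod_mul_distrib]
      refine Finset.prod_congr rfl fun p hp => ?_
      unfold fn
      have := hp2 p hp
      have h1 : (p : ℝ) - 1 ≠ 0 := by
        intro h
        linarith only [this, h]
      have h2 : (p : ℝ) ≠ 0 := by
        intro h
        linarith only [this, h]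
      field_simp
      ring
    have h5 := WtLU_prod_ge P (fun p => (1 / (p : ℝ)) ^ 2) (fun p hp => ⟨sq_nonneg _, by
      have h3 := hr1 p hp
      have h4 := hr0 p hp
      nlinarith only [h3, h4]⟩)
    have h6 : ∑ p ∈ P, (1 / (p : ℝ)) ^ 2 ≤ ∑ p ∈ P, fn p ^ 2 := by
      apply Finset.sum_le_sum
      intro p hp
      exact pow_le_pow_left₀ (hr0 p hp) (hrf p hp) 2
    have h7 : 1 - F / (Z - 1) ≤ ∏ p ∈ P, (1 - (1 / (p : ℝ)) ^ 2) := by linarith only [hS2, h5, h6]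
    have hFp0 : 0 ≤ Fp := by linarith only [hFp1]
    have h8 : Fp * (1 - F / (Z - 1)) ≤ ∏ p ∈ P, (1 + 1 / (p : ℝ)) := by
      rw [h4]
      exact mul_le_mul_of_nonneg_left h7 hFp0
    have h9 : Fp * (F / (Z - 1)) = V * (Fp ^ 2 * F / (Z - 1)) := by
      have : V * (Fp ^ 2 * F / (Z - 1)) = (V * Fp) * (Fp * (F / (Z - 1))) := by ring
      rw [this, hVF, one_mul]
    have h10 : Fp ^ 2 * F / (Z - 1) ≤ F ^ 3 / (Z - 1) := by
      apply div_le_div_of_nonneg_right _ hZ1.le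
      have h11 : Fp ^ 2 ≤ F ^ 2 := pow_le_pow_left₀ hFp0 hF 2
      calc Fp ^ 2 * F ≤ F ^ 2 * F := mul_le_mul_of_nonneg_right h11 (by linarith only [hF, hFp1])
        _ = F ^ 3 := by ring
    have h12 := mul_le_mul_of_nonneg_left h10 hVpos.le
    have h13 : Fp - ∏ p ∈ P, (1 + 1 / (p : ℝ)) ≤ Fp * (F / (Z - 1)) := by
      have : Fp * (1 - F / (Z - 1)) = Fp - Fp * (F / (Z - 1)) := by ring
      linarith only [h8]
    linarith only [h8, h9, h12]

private theorem WtLU_growth (K : ℝ) (N : ℕ) (hK : 0 ≤ K) : ∀ᶠ x : ℕ in atTop,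
    K * Real.log x ^ N + 1 ≤ z0 x := by
  have hL : Tendsto (fun x : ℕ => Real.log (x : ℝ)) atTop atTop :=
    Real.tendsto_log_atTop.comp tendsto_natCast_atTop_atTop
  have hl : Tendsto (fun x : ℕ => Real.log (Real.log (x : ℝ))) atTop atTop :=
    Real.tendsto_log_atTop.comp hL
  have hN : (0 : ℝ) < (N : ℝ) + 2 := by positivity
  have ho : ∀ᶠ L : ℝ in atTop, ‖Real.log L ^ 3‖ ≤ (1 / ((N : ℝ) + 2)) * ‖L‖ :=
    (Real.isLittleO_pow_log_id_atTop (n := 3)).def (by positivity)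
  filter_upwards [hL.eventually ho, hL.eventually_ge_atTop (K + 1), hl.eventually_ge_atTop 1]
    with x h1 h2 h3
  set L : ℝ := Real.log x with hLdef
  set l : ℝ := Real.log L with hldef
  have hL1 : 1 ≤ L := by linarith only [hK, h2]
  have hL0 : 0 < L := by linarith only [hK, h2]
  have hl2 : 0 < l ^ 2 := by positivity
  have h5 : l ^ 3 ≤ (1 / ((N : ℝ) + 2)) * L := by
    rw [Real.norm_of_nonneg (by positivity), Real.norm_of_nonneg hL0.le] at h1
    exact h1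
  have h6 : ((N : ℝ) + 2) * l ≤ L / l ^ 2 := by
    rw [le_div_iff₀ hl2]
    have h7 : ((N : ℝ) + 2) * l ^ 3 ≤ L := by
      have := mul_le_mul_of_nonneg_left h5 hN.le
      have h8 : ((N : ℝ) + 2) * (1 / ((N : ℝ) + 2) * L) = L := by field_simp
      linarith only [this, h8]
    calc ((N : ℝ) + 2) * l * l ^ 2 = ((N : ℝ) + 2) * l ^ 3 := by ring
      _ ≤ L := h7
  have h9 : L ^ (N + 2) ≤ z0 x := by
    have h10 : z0 x = Real.exp (L / l ^ 2) := rfl
    rw [h10]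
    calc L ^ (N + 2) = Real.exp (((N : ℝ) + 2) * l) := by
          have h11 : ((N : ℝ) + 2) * l = ((N + 2 : ℕ) : ℝ) * l := by push_cast; ring
          rw [h11, Real.exp_nat_mul, hldef, Real.exp_log hL0]
      _ ≤ Real.exp (L / l ^ 2) := Real.exp_le_exp.mpr h6
  have h12 : (1 : ℝ) ≤ L ^ N := one_le_pow₀ hL1
  have h13 : L ^ (N + 2) = L ^ N * (L * L) := by ring
  have h14 : K + 1 ≤ L * L := by nlinarith only [hK, h2]
  have h15 : L ^ N * (K + 1) ≤ L ^ N * (L * L) := mul_le_mul_of_nonneg_left h14 (by positivity)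
  linarith only [h9, h12, h13, h15]

/-- All that is needed about large `x`. -/
private theorem WtLU_ev (δ K : ℝ) (hδ : 0 < δ) (hK : 0 ≤ K) (ε : ℝ) (hε : 0 < ε) :
    ∀ᶠ x : ℕ in atTop, 1 ≤ x ∧ BigP ((x : ℝ) ^ δ) (PZ x δ) ∧ 1 < z0 x ∧
      ∃ F : ℝ, ∏ p ∈ PZ x δ, (1 + fn p) ≤ F ∧ K * (F ^ 3 / (z0 x - 1)) ≤ ε := by
  obtain ⟨B, hB⟩ := euler_pow 1 zero_le_one
  filter_upwards [hB, WtLU_growth (K / ε + Real.exp 24 + 1) (3 * B) (by positivity),
    eventually_ge_atTop 3] with x h1 h2 h3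
  have hx3 : (3 : ℝ) ≤ x := by exact_mod_cast h3
  have hlog : 1 ≤ Real.log x := by
    rw [← Real.log_exp 1]
    apply Real.log_le_log (Real.exp_pos 1)
    have := Real.exp_one_lt_d9
    linarith only [hx3, this]
  have hpow : 1 ≤ Real.log x ^ (3 * B) := one_le_pow₀ hlog
  have hKε : 0 ≤ K / ε := by positivity
  have he : 0 < Real.exp 24 := Real.exp_pos 24
  have hz1 : (K / ε + Real.exp 24 + 1) * Real.log x ^ (3 * B) + 1 ≤ z0 x := h2
  have hz2 : K / ε + Real.exp 24 + 1 + 1 ≤ z0 x := by nlinarith only [h2, hpow, hKε, he]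
  refine ⟨by omega, ?_, by linarith only [hKε, he, hz2], Real.log x ^ B, ?_, ?_⟩
  · intro p hp
    unfold PZ at hp
    rw [mem_filter] at hp
    obtain ⟨hp1, hp2⟩ := hp
    unfold PX at hp1
    rw [mem_filter] at hp1
    exact ⟨hp1.2.1, by linarith only [hKε, hz2, hp1], hp2⟩
  · refine le_trans ?_ h1
    have hsub : PZ x δ ⊆ (range (x + 1)).filter Nat.Prime := by
      intro p hp
      unfold PZ PX at hp
      rw [mem_filter, mem_filter] at hp
      rw [mem_filter]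
      exact ⟨hp.1.1, hp.1.2.1⟩
    have hf : ∀ p ∈ (range (x + 1)).filter Nat.Prime, 0 ≤ fn p := by
      intro p hp
      rw [mem_filter] at hp
      have h4 : (2 : ℝ) ≤ p := by exact_mod_cast hp.2.two_le
      unfold fn
      exact div_nonneg zero_le_one (by linarith only [h4])
    calc ∏ p ∈ PZ x δ, (1 + fn p)
        ≤ ∏ p ∈ (range (x + 1)).filter Nat.Prime, (1 + fn p) := by
          rw [← Finset.prod_sdiff hsub]
          have h10 : 1 ≤ ∏ p ∈ (range (x + 1)).filter Nat.Prime \ PZ x δ, (1 + fn p) :=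
            (WtLU_sum_le _ fn (fun p hp => hf p (mem_sdiff.mp hp).1)).1
          have h11 : 0 ≤ ∏ p ∈ PZ x δ, (1 + fn p) :=
            Finset.prod_nonneg fun p hp => by linarith only [hf p (hsub hp)]
          exact le_mul_of_one_le_left h11 h10
      _ = ∏ p ∈ (range (x + 1)).filter Nat.Prime, (1 + 1 * fn p) := by
          refine Finset.prod_congr rfl fun p _ => ?_
          rw [one_mul]
  · have h5 : (Real.log x ^ B) ^ 3 = Real.log x ^ (3 * B) := by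
      rw [← pow_mul, mul_comm]
    rw [h5, ← mul_div_assoc, div_le_iff₀ (by linarith only [hKε, he, hz2])]
    have h6 : K = ε * (K / ε) := by field_simp
    have h7 : (K / ε) * Real.log x ^ (3 * B) ≤ z0 x - 1 := by
      have h8 : 0 ≤ (Real.exp 24 + 1) * Real.log x ^ (3 * B) := by positivity
      have h9 : (K / ε + Real.exp 24 + 1) * Real.log x ^ (3 * B) =
        (K / ε) * Real.log x ^ (3 * B) + (Real.exp 24 + 1) * Real.log x ^ (3 * B) := by ring
      linarith only [h2, h8]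
    calc K * Real.log x ^ (3 * B) = ε * ((K / ε) * Real.log x ^ (3 * B)) := by
          rw [← mul_assoc, ← h6]
      _ ≤ ε * (z0 x - 1) := mul_le_mul_of_nonneg_left h7 hε.le

/-- The properties of the transported weights. -/
private theorem WtLU_cls (ι : Type) [Fintype ι] [DecidableEq ι] (i : ι) (δ s : ℝ) (x : ℕ)
    (c : Finset ℕ → ℝ) (hc : Wt (PZ x δ) (((x : ℝ) ^ δ) ^ s) c) :
    Cls x 0 1 ((x : ℝ) ^ (δ * s)) (WtLU_tr i (PZ x δ) c) ∧
      (∀ Q, WtLU_tr i (PZ x δ) c Q ≠ 0 → Q ⊆ Si x δ i) ∧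
      {i} ×ˢ PZ x δ ⊆ EX ι x := by
  have hsub : {i} ×ˢ PZ x δ ⊆ EX ι x := by
    intro e he
    rw [mem_product] at he
    unfold EX
    rw [mem_product]
    refine ⟨mem_univ _, ?_⟩
    have := he.2
    unfold PZ at this
    exact (mem_filter.mp this).1
  have hne : ∀ Q, WtLU_tr i (PZ x δ) c Q ≠ 0 → Q ⊆ {i} ×ˢ PZ x δ := by
    intro Q hQ
    by_contra h
    apply hQ
    unfold WtLU_tr
    rw [if_neg h]
  refine ⟨?_, fun Q hQ => hne Q hQ, hsub⟩
  intro Q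
  constructor
  · rw [pow_zero, one_pow, one_mul]
    unfold WtLU_tr
    split_ifs
    · exact hc.1 _
    · rw [abs_zero]
      exact zero_le_one
  · intro hQ
    have h1 := hne Q hQ
    refine ⟨h1.trans hsub, ?_⟩
    have h2 : c (Q.image Prod.snd) ≠ 0 := by
      unfold WtLU_tr at hQ
      rwa [if_pos h1] at hQ
    have h3 := (hc.2 _ h2).2
    rw [WtLU_prod h1 (fun e => (e.2 : ℝ)), Real.rpow_mul (Nat.cast_nonneg x)]
    exact h3

open Classical in
private theorem WtLU_Vg {ι : Type} (h : ι → ℕ) (i : ι) (n : ℕ) (P : Finset ℕ) :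
    ZO (fun p => yy h n (i, p)) ∧
      Vg (fun p => yy h n (i, p)) P = if ∀ p ∈ P, ¬ p ∣ n + h i then 1 else 0 := by
  constructor
  · intro p
    unfold yy
    simp only
    split_ifs
    · right
      rfl
    · left
      rfl
  · unfold Vg
    split_ifs with h1
    · apply Finset.prod_eq_one
      intro p hp
      unfold yy
      simp only
      rw [if_neg (h1 p hp), sub_zero]
    · push Not at h1
      obtain ⟨p, hp, hdvd⟩ := h1
      apply Finset.prod_eq_zero hp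
      unfold yy
      simp only
      rw [if_pos hdvd, sub_self]

private theorem WtLU_le (c d : Finset ℕ → ℝ) (P : Finset ℕ) (h : ∀ y, ZO y → ev c P y ≤ ev d P y)
    (g : ℕ → ℝ) (hg : ∀ p ∈ P, 0 ≤ g p ∧ g p ≤ 1) : ev c P g ≤ ev d P g := by
  have h1 := WtLU_nonneg (fun T => d T - c T) P (fun y hy => by
    rw [Pool.Agent.H91.PK.SvA_ev_sub]
    linarith only [h y hy]) g hg
  rw [Pool.Agent.H91.PK.SvA_ev_sub] at h1
  linarith only [h1]

theorem wtLU (ι : Type) [Fintype ι] [DecidableEq ι] (h : ι → ℕ) (i : ι) (δ s f F ε : ℝ) (hδ : 0 < δ) (hδ1 : δ ≤ 1)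
    (hs : 0 ≤ s) (hf : 0 ≤ f) (hF : 0 ≤ F) (hL : L1 s f) (hU : U1 s F) (hε : 0 < ε) :
    ∀ᶠ x : ℕ in atTop, ∃ cL cU : Finset (ι × ℕ) → ℝ,
      Cls x 0 1 ((x : ℝ) ^ (δ * s)) cL ∧ Cls x 0 1 ((x : ℝ) ^ (δ * s)) cU ∧
      (∀ Q, cL Q ≠ 0 → Q ⊆ Si x δ i) ∧ (∀ Q, cU Q ≠ 0 → Q ⊆ Si x δ i) ∧
      (∀ n, Ev (EX ι x) cL (yy h n) ≤ if ∀ p ∈ PZ x δ, ¬ p ∣ n + h i then 1 else 0) ∧
      (∀ n, (if ∀ p ∈ PZ x δ, ¬ p ∣ n + h i then 1 else 0) ≤ Ev (EX ι x) cU (yy h n)) ∧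
      (f - ε) * V1 x δ ≤ Ev (Si x δ i) cL gi ∧ Ev (Si x δ i) cL gi ≤ V1 x δ ∧
      V1 x δ ≤ Ev (Si x δ i) cU gi ∧ Ev (Si x δ i) cU gi ≤ (F + ε) * V1 x δ := by
  filter_upwards [WtLU_ev δ (f + 1) hδ (by linarith only [hf]) ε hε, WtLU_ev δ 1 hδ zero_le_one ε hε]
    with x hx hx'
  obtain ⟨hx1, hbig, hz, F0, hF0, hFε⟩ := hx
  obtain ⟨-, -, -, G, hG, hGε⟩ := hx'
  have hx1' : (1 : ℝ) ≤ x := by exact_mod_cast hx1
  have hzp : ∀ p ∈ PZ x δ, z0 x ≤ (p : ℝ) := by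
    intro p hp
    unfold PZ PX at hp
    rw [mem_filter, mem_filter] at hp
    exact hp.1.2.2.le
  have hg01 : ∀ p ∈ PZ x δ, 0 ≤ 1 / (p : ℝ) ∧ 1 / (p : ℝ) ≤ 1 := by
    intro p hp
    have h2 : (2 : ℝ) ≤ p := by exact_mod_cast (hbig p hp).1.two_le
    refine ⟨by positivity, ?_⟩
    rw [div_le_one (by linarith only [h2])]
    linarith only [h2]
  have hVV : V1 x δ = Vg (fun p => 1 / (p : ℝ)) (PZ x δ) := rfl
  obtain ⟨cL, hcL1, hcL2, hcL3⟩ := hL ((x : ℝ) ^ δ) (Real.one_le_rpow hx1' hδ.le) (PZ x δ) hbig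
  obtain ⟨hclL, hsupL, hsub⟩ := WtLU_cls ι i δ s x cL hcL1
  obtain ⟨cU, hcU1, hcU2, hcU3⟩ := hU ((x : ℝ) ^ δ) (Real.one_le_rpow hx1' hδ.le) (PZ x δ) hbig
  obtain ⟨hclU, hsupU, -⟩ := WtLU_cls ι i δ s x cU hcU1
  have h5L : Ev (Si x δ i) (WtLU_tr i (PZ x δ) cL) gi = ev cL (PZ x δ) (fun p => 1 / (p : ℝ)) :=
    WtLU_Ev i (PZ x δ) cL (Si x δ i) (Finset.Subset.refl _) gi
  have h5U : Ev (Si x δ i) (WtLU_tr i (PZ x δ) cU) gi = ev cU (PZ x δ) (fun p => 1 / (p : ℝ)) :=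
    WtLU_Ev i (PZ x δ) cU (Si x δ i) (Finset.Subset.refl _) gi
  refine ⟨WtLU_tr i (PZ x δ) cL, WtLU_tr i (PZ x δ) cU, hclL, hclU, hsupL, hsupU, ?_, ?_, ?_, ?_,
    ?_, ?_⟩
  · intro n
    rw [WtLU_Ev i (PZ x δ) cL (EX ι x) hsub]
    obtain ⟨h1, h2⟩ := WtLU_Vg h i n (PZ x δ)
    have h3 := hcL2 _ h1
    rw [h2] at h3
    refine h3.trans (le_of_eq ?_)
    split_ifs <;> rfl
  · intro n
    rw [WtLU_Ev i (PZ x δ) cU (EX ι x) hsub]
    obtain ⟨h1, h2⟩ := WtLU_Vg h i n (PZ x δ)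
    have h3 := hcU2 _ h1
    rw [h2] at h3
    refine le_trans (le_of_eq ?_) h3
    split_ifs <;> rfl
  · obtain ⟨hV0, hF1, hV1, hV2, hV3⟩ := WtLU_dens (PZ x δ) (z0 x) F0 hz hzp
      (fun p hp => (hbig p hp).1.two_le) hF0
    have h4 := hV3 cL hcL1.1
    rw [h5L]
    have hVV : V1 x δ = ∏ p ∈ PZ x δ, (1 - 1 / (p : ℝ)) := rfl
    rw [hVV]
    set V : ℝ := ∏ p ∈ PZ x δ, (1 - 1 / (p : ℝ)) with hVdef
    have hz1 : 0 < z0 x - 1 := by linarith only [hz]
    have h6 : F0 / (z0 x - 1) ≤ F0 ^ 3 / (z0 x - 1) := by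
      apply div_le_div_of_nonneg_right _ hz1.le
      nlinarith only [hF1, mul_self_nonneg (F0 - 1)]
    have h7 : f * (V * (1 - F0 / (z0 x - 1))) ≤ f * Vg g1 (PZ x δ) :=
      mul_le_mul_of_nonneg_left hV2 hf
    have h8 := abs_le.mp h4
    have h9 : f * (V * (F0 / (z0 x - 1))) ≤ f * (V * (F0 ^ 3 / (z0 x - 1))) :=
      mul_le_mul_of_nonneg_left (mul_le_mul_of_nonneg_left h6 hV0.le) hf
    have h10 : V * ((f + 1) * (F0 ^ 3 / (z0 x - 1))) ≤ V * ε :=
      mul_le_mul_of_nonneg_left hFε hV0.le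
    have h11 : f * (V * (1 - F0 / (z0 x - 1))) = f * V - f * (V * (F0 / (z0 x - 1))) := by ring
    have h12 : V * ((f + 1) * (F0 ^ 3 / (z0 x - 1))) =
      f * (V * (F0 ^ 3 / (z0 x - 1))) + V * (F0 ^ 3 / (z0 x - 1)) := by ring
    have h13 : (f - ε) * V = f * V - V * ε := by ring
    linarith only [hcL3, h7, h8, h9, h10]
  · rw [h5L, hVV, ← Pool.Agent.H91.PK.SvA_ev_ex]
    apply WtLU_le _ _ _ _ _ hg01
    intro y hy
    rw [Pool.Agent.H91.PK.SvA_ev_ex]
    exact hcL2 y hy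
  · rw [h5U, hVV, ← Pool.Agent.H91.PK.SvA_ev_ex]
    apply WtLU_le _ _ _ _ _ hg01
    intro y hy
    rw [Pool.Agent.H91.PK.SvA_ev_ex]
    exact hcU2 y hy
  · obtain ⟨hV0, hF1, hV1, hV2, hV3⟩ := WtLU_dens (PZ x δ) (z0 x) G hz hzp
      (fun p hp => (hbig p hp).1.two_le) hG
    have h4 := hV3 cU hcU1.1
    rw [h5U]
    have hVV : V1 x δ = ∏ p ∈ PZ x δ, (1 - 1 / (p : ℝ)) := rfl
    rw [hVV]
    set V : ℝ := ∏ p ∈ PZ x δ, (1 - 1 / (p : ℝ)) with hVdef
    have h8 := abs_le.mp h4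
    have h9 : F * Vg g1 (PZ x δ) ≤ F * V := mul_le_mul_of_nonneg_left hV1 hF
    have h10 : V * (1 * (G ^ 3 / (z0 x - 1))) ≤ V * ε := mul_le_mul_of_nonneg_left hGε hV0.le
    rw [one_mul] at h10
    have h13 : (F + ε) * V = F * V + V * ε := by ring
    linarith only [hcU3, h8, h9, h10]

end Pool.Agent.H36.IS2

end

section

/-!
# ISP SumNL: lower bound for the sums with two nonnegative arrays

As SumNU, with the two-dimensional lower sieve [rough_i][rough_j] ≥ L_i U_j + U_i L_j - U_i U_j (L ≤ [rough] ≤ U, U ≥ 0: for r = [rough] ∈ {0,1}: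
r r' - (L U' + U L' - U U') = (U - L)(U' - L') + (r r' - L L') ... check: U U' - L U' - U L' = (U - L)(U' - L') - L L', so the claim is
r r' + (U-L)(U'-L') ≥ L L': if r = r' = 1 then (with L ≤ 1 ≤ U) 1 + (U-L)(U'-L') - L L' = 1 + U U' - L U' - U L' = ... ≥ 0: write U = 1 + u, L = 1 - l
 (u, l ≥ 0): 1 + (u+l)(u'+l') - (1-l)(1-l') = l + l' + (u+l)(u'+l') - l l' ≥ 0.  If r = 0: L ≤ 0 ≤ U: need (U-L)(U'-L') ≥ L L': (U-L) ≥ -L = |L| ≥ 0
 and U' - L' ≥ |L'|, if L' ≤ 0 fine, if L' > 0 then L L' ≤ 0.)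
Multiply by Ly(v)² E E' ≥ 0; main term My(v) · (l_i u_j + u_i l_j - u_i u_j) · evM c · evM c' with l = Ev cL gi, u = Ev cU gi, (f-ε)V1 ≤ l ≤ V1 ≤ u ≤ (F+ε)V1:
 l_i u_j + u_i l_j - u_i u_j = l_i l_j - (u_i - l_i)(u_j - l_j) ≥ ((f-ε)² - (F - f + 2ε)²) V1².  (f - ε ≥ 0 may be assumed small: hfe.)
-/

set_option autoImplicit false

namespace Pool.Agent.H36.IS2

open Finset Filter Pool.Agent.H36.IS

open Pool.Agent.H91.PK (L1 U1)

private lemma SumNL_Si_sub (x : ℕ) {ι : Type} [Fintype ι] [DecidableEq ι] (δ : ℝ) (i : ι) : Si x δ i ⊆ EZ ι x δ := by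
  unfold Si EZ
  intro e he
  rw [Finset.mem_product] at he ⊢
  exact ⟨Finset.mem_univ _, he.2⟩

private lemma SumNL_EZ_sub (x : ℕ) {ι : Type} [Fintype ι] [DecidableEq ι] (δ : ℝ) : EZ ι x δ ⊆ EX ι x := by
  unfold EZ EX
  intro e he
  rw [Finset.mem_product] at he ⊢
  refine ⟨Finset.mem_univ _, ?_⟩
  unfold PZ at he
  exact (Finset.mem_filter.1 he.2).1

private lemma SumNL_yy01 {ι : Type} [Fintype ι] [DecidableEq ι] (h : ι → ℕ) (n : ℕ) (e : ι × ℕ) :
    yy h n e = 0 ∨ yy h n e = 1 := by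
  unfold yy
  split_ifs
  · exact Or.inr rfl
  · exact Or.inl rfl

private lemma SumNL_My_nonneg {ι : Type} [Fintype ι] [DecidableEq ι] (x : ℕ) (δ : ℝ) (v : Finset (ι × ℕ) → ℝ) :
    0 ≤ My ι x δ v := by
  unfold My MM
  apply Finset.sum_nonneg
  intro R hR
  apply mul_nonneg (sq_nonneg _)
  apply Finset.prod_nonneg
  intro e he
  have h1 := fo_gi (SumNL_EZ_sub x δ (Finset.mem_powerset.1 hR he))
  unfold fo
  exact div_nonneg h1.2.1.le (by linarith only [h1])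

private lemma SumNL_V1_nonneg (x : ℕ) (δ : ℝ) : 0 ≤ V1 x δ := by
  unfold V1
  apply Finset.prod_nonneg
  intro p hp
  have hp' : p.Prime := by
    unfold PZ PX at hp
    exact (Finset.mem_filter.1 (Finset.mem_filter.1 hp).1).2.1
  have h1 : (1 : ℝ) < (p : ℝ) := by exact_mod_cast hp'.one_lt
  have : 1 / (p : ℝ) ≤ 1 := by
    rw [div_le_one (by linarith only [h1])]
    exact h1.le
  linarith only [this]

/-- support of the Selberg coefficients of a projected function -/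
private lemma SumNL_lam_sup {ι : Type} [Fintype ι] [DecidableEq ι] {P S : Finset (ι × ℕ)} {y : Finset (ι × ℕ) → ℝ}
    (Q : Finset (ι × ℕ)) (h : lam P gi (pr S (fo gi) y) Q ≠ 0) : Q ⊆ P \ S := by
  obtain ⟨R, hQR, hRP, hR⟩ := lam_sup h
  have h1 := (pr_disj hR).1
  intro e he
  rw [Finset.mem_sdiff]
  exact ⟨hRP (hQR he), fun h2 => (Finset.disjoint_left.1 h1) (hQR he) h2⟩

/-- the two-dimensional lower sieve, pointwise -/
private lemma SumNL_pt {L U L' U' : ℝ} {p p' : Prop} [Decidable p] [Decidable p']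
    (h1 : L ≤ if p then 1 else 0) (h2 : (if p then 1 else 0) ≤ U)
    (h3 : L' ≤ if p' then 1 else 0) (h4 : (if p' then 1 else 0) ≤ U') :
    (p ∧ p' → L * U' + U * L' - U * U' ≤ 1) ∧ (¬ (p ∧ p') → L * U' + U * L' - U * U' ≤ 0) := by
  constructor
  · rintro ⟨hp, hp'⟩
    rw [if_pos hp] at h1 h2
    rw [if_pos hp'] at h3 h4
    have g1 := mul_nonneg (sub_nonneg.2 h1) (sub_nonneg.2 h4)
    have g2 := mul_nonneg (sub_nonneg.2 h2) (sub_nonneg.2 h3)
    have g3 := mul_nonneg (sub_nonneg.2 h2) (sub_nonneg.2 h4)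
    linarith only [h1, h3, g1, g2, g3]
  · intro hn
    have hU0 : 0 ≤ U := by
      refine le_trans ?_ h2
      split_ifs <;> norm_num
    have hU0' : 0 ≤ U' := by
      refine le_trans ?_ h4
      split_ifs <;> norm_num
    have hLU : L ≤ U := h1.trans h2
    have hLU' : L' ≤ U' := h3.trans h4
    by_cases hp : p
    · have hp' : ¬ p' := fun h => hn ⟨hp, h⟩
      rw [if_neg hp'] at h3 h4
      have g1 := mul_nonneg hU0 (neg_nonneg.2 h3)
      have g2 := mul_nonneg hU0' (sub_nonneg.2 hLU)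
      linarith only [g1, g2]
    · rw [if_neg hp] at h1 h2
      have g1 := mul_nonneg hU0' (neg_nonneg.2 h1)
      have g2 := mul_nonneg hU0 (sub_nonneg.2 hLU')
      linarith only [g1, g2]

/-- the main term -/
private lemma SumNL_num {li ui lj uj V f F ε : ℝ} (h1 : (f - ε) * V ≤ li) (h2 : li ≤ V) (h3 : V ≤ ui) (h4 : ui ≤ (F + ε) * V)
    (h1' : (f - ε) * V ≤ lj) (h2' : lj ≤ V) (h3' : V ≤ uj) (h4' : uj ≤ (F + ε) * V) (hV : 0 ≤ V) (hf : ε ≤ f) :
    ((f - ε) ^ 2 - (F - f + 2 * ε) ^ 2) * V ^ 2 ≤ li * uj + ui * lj - ui * uj := by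
  have e1 : li * uj + ui * lj - ui * uj = li * lj - (ui - li) * (uj - lj) := by ring
  rw [e1]
  have h0 : 0 ≤ (f - ε) * V := mul_nonneg (by linarith only [hf]) hV
  have g1 : (f - ε) * V * ((f - ε) * V) ≤ li * lj := mul_le_mul h1 h1' h0 (h0.trans h1)
  have g2 : ui - li ≤ (F - f + 2 * ε) * V := by linarith only [h1, h4]
  have g3 : uj - lj ≤ (F - f + 2 * ε) * V := by linarith only [h1', h4']
  have g4 : (ui - li) * (uj - lj) ≤ (F - f + 2 * ε) * V * ((F - f + 2 * ε) * V) :=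
    mul_le_mul g2 g3 (by linarith only [h2', h3']) (by linarith only [h1, h2, h3, h4])
  linarith only [g1, g4]

open Classical in
theorem sumNL (ι : Type) [Fintype ι] [DecidableEq ι] (h : ι → ℕ) (W b : ℕ) (hG : Good h W b) (B1 : ℕ)
    (δ θ a s f F ε : ℝ) (hδ : 0 < δ) (hδ1 : δ ≤ 1) (hθ : 0 ≤ θ) (ha : 0 ≤ a) (hs : 0 ≤ s) (hf : 0 ≤ f) (hF : 0 ≤ F)
    (hL : L1 s f) (hU : U1 s F) (hε : 0 < ε) (hfe : ε ≤ f) (hlev : 2 * θ + 2 * (δ * s) + 2 * a < 1) (A : ℕ) :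
    ∀ᶠ x : ℕ in atTop, ∀ y : Finset (ι × ℕ) → ℝ, Yok x δ θ (Real.log x ^ B1) y →
      ∀ c c' : Finset ℕ → ℝ, ArrN x δ ((x : ℝ) ^ a) c → ArrN x δ ((x : ℝ) ^ a) c' → ∀ i j, i ≠ j →
      Mn ι W x * (((f - ε) ^ 2 - (F - f + 2 * ε) ^ 2) * V1 x δ ^ 2 * (evM (PX x) c * evM (PX x) c')) *
          My ι x δ (pr (Si x δ i ∪ Si x δ j) (fo gi) y) - x / Real.log x ^ A ≤
        ∑ n ∈ AA h W b x, Ly h x δ y n ^ 2 *
          ((if ∀ p ∈ PZ x δ, ¬ p ∣ n + h i then evD (PX x) c (n + h i) else 0) *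
            (if ∀ p ∈ PZ x δ, ¬ p ∣ n + h j then evD (PX x) c' (n + h j) else 0)) := by
  obtain ⟨η1, hη1, hη2⟩ : ∃ η1 : ℝ, 0 < η1 ∧ 2 * θ + 2 * (δ * s) + 2 * a ≤ 1 - η1 :=
    ⟨1 - (2 * θ + 2 * (δ * s) + 2 * a), by linarith only [hlev], by linarith only []⟩
  obtain ⟨B2, hB2⟩ := yok_pr ι B1
  obtain ⟨Bv, hBv⟩ := cls_lam ι B2
  obtain ⟨B3, hB3⟩ := Mn_low ι h W b hG
  have hw := Filter.eventually_all.2 (fun i : ι => wtLU ι h i δ s f F ε hδ hδ1 hs hf hF hL hU hε)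
  have hlog : ∀ᶠ x : ℕ in atTop, (3 : ℝ) ≤ Real.log x :=
    (Real.tendsto_log_atTop.comp (tendsto_natCast_atTop_atTop (R := ℝ))).eventually (eventually_ge_atTop 3)
  filter_upwards [hB2, hBv, hB3, hw, hlog, eventually_ge_atTop 3,
    trI ι h W b hG (Bv + Bv + 2) 143 η1 (by norm_num) hη1 (A + 1)]
    with x hyokpr hclslam hMn hwx hlogx hx3 htr
  intro y hy c c' hc hc' i j hij
  have hx0 : (0 : ℝ) < (x : ℝ) := by
    have : (3 : ℝ) ≤ (x : ℝ) := by exact_mod_cast hx3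
    linarith only [this]
  have hx1 : (1 : ℝ) ≤ (x : ℝ) := by
    have : (3 : ℝ) ≤ (x : ℝ) := by exact_mod_cast hx3
    linarith only [this]
  have hlog1 : (1 : ℝ) ≤ Real.log x := by linarith only [hlogx]
  obtain ⟨cL, cU, hLc, hUc, hLs, hUs, hLp, hUp, hLv1, hLv2, hUv1, hUv2⟩ := hwx i
  obtain ⟨dL, dU, hLc', hUc', hLs', hUs', hLp', hUp', hLv1', hLv2', hUv1', hUv2'⟩ := hwx j
  set E := EX ι x with hE
  set P := EZ ι x δ with hP
  set S := Si x δ i ∪ Si x δ j with hS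
  have hiP : Si x δ i ⊆ P := SumNL_Si_sub x δ i
  have hjP : Si x δ j ⊆ P := SumNL_Si_sub x δ j
  have hSP : S ⊆ P := Finset.union_subset hiP hjP
  have hPE : P ⊆ E := SumNL_EZ_sub x δ
  set v := pr S (fo gi) y with hv
  have hyv : Yok x δ θ (Real.log x ^ B2) v := hyokpr δ θ y S hSP hy
  have hlv : Cls x Bv 2 ((x : ℝ) ^ θ) (lam P gi v) := hclslam δ θ v hyv
  set lv := lam P gi v with hlvdef
  have hlvs : ∀ Q, lv Q ≠ 0 → Q ⊆ P \ S := fun Q hQ => SumNL_lam_sup Q hQ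
  have hlvsP : ∀ Q, lv Q ≠ 0 → Q ⊆ P := fun Q hQ => (hlvs Q hQ).trans Finset.sdiff_subset
  set q := uc E lv lv with hq
  have hxθ : (0 : ℝ) ≤ (x : ℝ) ^ θ := Real.rpow_nonneg hx0.le _
  have hqc : Cls x (Bv + Bv) (2 + 2 + 2 * 2) ((x : ℝ) ^ θ * (x : ℝ) ^ θ) q :=
    cls_uc hlog1 (by norm_num) (by norm_num) hxθ hxθ hlv hlv
  have hqs : ∀ Q, q Q ≠ 0 → Q ⊆ P \ S := by
    intro Q hQ
    have := (uc_sup hlvs hlvs Q hQ).1
    rwa [Finset.union_self] at this
  have hqE : q = uc P lv lv := uc_ground hPE hlvsP hlvsP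
  -- the arrays on the large primes
  set PB : Finset ℕ := (PX x).filter (fun p => (x : ℝ) ^ δ < (p : ℝ)) with hPB
  have hPBX : PB ⊆ PX x := Finset.filter_subset _ _
  have hcB : ∀ T, c T ≠ 0 → T ⊆ PB := by
    intro T hT p hp
    have h1 := (hc.1 T).2 hT
    exact Finset.mem_filter.2 ⟨h1.1 hp, h1.2.1 p hp⟩
  have hcB' : ∀ T, c' T ≠ 0 → T ⊆ PB := by
    intro T hT p hp
    have h1 := (hc'.1 T).2 hT
    exact Finset.mem_filter.2 ⟨h1.1 hp, h1.2.1 p hp⟩
  have hcX : ∀ T, c T ≠ 0 → T ⊆ PX x := fun T hT => (hcB T hT).trans hPBX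
  have hcX' : ∀ T, c' T ≠ 0 → T ⊆ PX x := fun T hT => (hcB' T hT).trans hPBX
  set T := trc i c with hT
  set T' := trc j c' with hT'
  have hTs : ∀ Q, T Q ≠ 0 → Q ⊆ ({i} : Finset ι) ×ˢ PB := fun Q hQ => (trc_sup i hcB Q hQ).1
  have hTs' : ∀ Q, T' Q ≠ 0 → Q ⊆ ({j} : Finset ι) ×ˢ PB := fun Q hQ => (trc_sup j hcB' Q hQ).1
  have hTc : Cls x 1 1 ((x : ℝ) ^ a) T := trc_cls i hlogx hc
  have hTc' : Cls x 1 1 ((x : ℝ) ^ a) T' := trc_cls j hlogx hc'
  have hBE : ∀ k : ι, ({k} : Finset ι) ×ˢ PB ⊆ E := by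
    intro k e he
    rw [Finset.mem_product] at he
    rw [hE]
    unfold EX
    rw [Finset.mem_product]
    exact ⟨Finset.mem_univ _, hPBX he.2⟩
  have hBP : ∀ k : ι, Disjoint P (({k} : Finset ι) ×ˢ PB) := by
    intro k
    rw [Finset.disjoint_left]
    intro e he he'
    rw [hP] at he
    unfold EZ at he
    rw [Finset.mem_product] at he he'
    have h1 := he.2
    unfold PZ at h1
    have h2 := (Finset.mem_filter.1 h1).2
    have h3 := (Finset.mem_filter.1 he'.2).2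
    linarith only [h2, h3]
  have hSij : Disjoint (Si x δ i) (Si x δ j) := by
    rw [Finset.disjoint_left]
    intro e he he'
    unfold Si at he he'
    rw [Finset.mem_product, Finset.mem_singleton] at he he'
    exact hij (he.1.symm.trans he'.1)
  have hBij : Disjoint (({i} : Finset ι) ×ˢ PB) (({j} : Finset ι) ×ˢ PB) := by
    rw [Finset.disjoint_left]
    intro e he he'
    rw [Finset.mem_product, Finset.mem_singleton] at he he'
    exact hij (he.1.symm.trans he'.1)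
  -- evaluation at the density
  have hgP : ∀ e ∈ P, 0 < gi e ∧ gi e < 1 := fun e he => (fo_gi (hPE he)).2
  have hqval : Ev (P \ S) q gi = My ι x δ v := by
    rw [← Ev_sup (Finset.sdiff_subset : P \ S ⊆ P) hqs, hqE, hlvdef, EE_lam hgP]
    unfold My MM
    apply Finset.sum_congr rfl
    intro R hR
    rw [pow_two]
  have hTval : Ev (({i} : Finset ι) ×ˢ PB) T gi = evM (PX x) c := by
    rw [← Ev_sup (hBE i) hTs, hT, hE, trc_gi i x c hcX]
  have hTval' : Ev (({j} : Finset ι) ×ˢ PB) T' gi = evM (PX x) c' := by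
    rw [← Ev_sup (hBE j) hTs', hT', hE, trc_gi j x c' hcX']
  have hDi : Disjoint (P \ S) (Si x δ i) := by
    rw [Finset.disjoint_left]
    intro e he he'
    exact (Finset.mem_sdiff.1 he).2 (by rw [hS]; exact Finset.mem_union_left _ he')
  have hDj : Disjoint (P \ S) (Si x δ j) := by
    rw [Finset.disjoint_left]
    intro e he he'
    exact (Finset.mem_sdiff.1 he).2 (by rw [hS]; exact Finset.mem_union_right _ he')
  have hval : ∀ a1 b1 : Finset (ι × ℕ) → ℝ, (∀ Q, a1 Q ≠ 0 → Q ⊆ Si x δ i) → (∀ Q, b1 Q ≠ 0 → Q ⊆ Si x δ j) →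
      Ev E (uc E (uc E (uc E (uc E q a1) b1) T) T') gi =
        My ι x δ v * Ev (Si x δ i) a1 gi * Ev (Si x δ j) b1 gi * evM (PX x) c * evM (PX x) c' := by
    intro a1 b1 ha1 hb1
    have s1 : ∀ Q, uc E q a1 Q ≠ 0 → Q ⊆ (P \ S) ∪ Si x δ i := fun Q hQ => (uc_sup hqs ha1 Q hQ).1
    have s2 : ∀ Q, uc E (uc E q a1) b1 Q ≠ 0 → Q ⊆ ((P \ S) ∪ Si x δ i) ∪ Si x δ j :=
      fun Q hQ => (uc_sup s1 hb1 Q hQ).1
    have s3 : ∀ Q, uc E (uc E (uc E q a1) b1) T Q ≠ 0 → Q ⊆ (((P \ S) ∪ Si x δ i) ∪ Si x δ j) ∪ ({i} : Finset ι) ×ˢ PB :=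
      fun Q hQ => (uc_sup s2 hTs Q hQ).1
    have g1P : (P \ S) ∪ Si x δ i ⊆ P := Finset.union_subset Finset.sdiff_subset hiP
    have g2P : ((P \ S) ∪ Si x δ i) ∪ Si x δ j ⊆ P := Finset.union_subset g1P hjP
    have g3E : (((P \ S) ∪ Si x δ i) ∪ Si x δ j) ∪ ({i} : Finset ι) ×ˢ PB ⊆ E := Finset.union_subset (g2P.trans hPE) (hBE i)
    have d1 : Disjoint ((P \ S) ∪ Si x δ i) (Si x δ j) := Finset.disjoint_union_left.2 ⟨hDj, hSij⟩
    have d2 : Disjoint (((P \ S) ∪ Si x δ i) ∪ Si x δ j) (({i} : Finset ι) ×ˢ PB) :=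
      Finset.disjoint_of_subset_left g2P (hBP i)
    have d3 : Disjoint ((((P \ S) ∪ Si x δ i) ∪ Si x δ j) ∪ ({i} : Finset ι) ×ˢ PB) (({j} : Finset ι) ×ˢ PB) :=
      Finset.disjoint_union_left.2 ⟨Finset.disjoint_of_subset_left g2P (hBP j), hBij⟩
    rw [Ev_uc_disj g3E (hBE j) d3 s3 hTs', hTval', ← Ev_sup g3E s3,
      Ev_uc_disj (g2P.trans hPE) (hBE i) d2 s2 hTs, hTval, ← Ev_sup (g2P.trans hPE) s2,
      Ev_uc_disj (g1P.trans hPE) (hjP.trans hPE) d1 s1 hb1, ← Ev_sup (g1P.trans hPE) s1,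
      Ev_uc_disj (Finset.sdiff_subset.trans hPE) (hiP.trans hPE) hDi hqs ha1, hqval]
  -- the classes
  have hxx : (0 : ℝ) ≤ (x : ℝ) ^ θ * (x : ℝ) ^ θ := mul_nonneg hxθ hxθ
  have hxs : (0 : ℝ) ≤ (x : ℝ) ^ (δ * s) := Real.rpow_nonneg hx0.le _
  have hxa : (0 : ℝ) ≤ (x : ℝ) ^ a := Real.rpow_nonneg hx0.le _
  have hcls : ∀ a1 b1 : Finset (ι × ℕ) → ℝ, Cls x 0 1 ((x : ℝ) ^ (δ * s)) a1 → Cls x 0 1 ((x : ℝ) ^ (δ * s)) b1 →
      Cls x (Bv + Bv + 2) 143 ((x : ℝ) ^ (1 - η1)) (uc E (uc E (uc E (uc E q a1) b1) T) T') := by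
    intro a1 b1 ha1 hb1
    have h1 := cls_uc hlog1 (by norm_num) (by norm_num) hxx hxs hqc ha1
    have h2 := cls_uc hlog1 (by norm_num) (by norm_num) (mul_nonneg hxx hxs) hxs h1 hb1
    have h3 := cls_uc hlog1 (by norm_num) (by norm_num) (mul_nonneg (mul_nonneg hxx hxs) hxs) hxa h2 hTc
    have h4 := cls_uc hlog1 (by norm_num) (by norm_num) (mul_nonneg (mul_nonneg (mul_nonneg hxx hxs) hxs) hxa) hxa h3 hTc'
    refine Cls.mono h4 hlog1 (by omega) (by norm_num) (by norm_num) ?_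
    rw [← Real.rpow_add hx0, ← Real.rpow_add hx0, ← Real.rpow_add hx0, ← Real.rpow_add hx0, ← Real.rpow_add hx0]
    apply Real.rpow_le_rpow_of_exponent_le hx1
    linarith only [hη2]
  -- pointwise values
  have hLyv : ∀ n, Ev E lv (yy h n) = Ly h x δ v n := by
    intro n
    rw [Ev_sup hPE hlvsP]
    rfl
  have hpt : ∀ (a1 b1 : Finset (ι × ℕ) → ℝ) (n : ℕ), Ev E (uc E (uc E (uc E (uc E q a1) b1) T) T') (yy h n) =
      Ly h x δ v n ^ 2 * Ev E a1 (yy h n) * Ev E b1 (yy h n) * evD (PX x) c (n + h i) * evD (PX x) c' (n + h j) := by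
    intro a1 b1 n
    rw [Ev_uc _ _ (fun e _ => SumNL_yy01 h n e), Ev_uc _ _ (fun e _ => SumNL_yy01 h n e),
      Ev_uc _ _ (fun e _ => SumNL_yy01 h n e), Ev_uc _ _ (fun e _ => SumNL_yy01 h n e), hq,
      Ev_uc _ _ (fun e _ => SumNL_yy01 h n e), hLyv, hT, hT', hE, trc_yy h i x c hcX n, trc_yy h j x c' hcX' n]
    ring
  have hrough : ∀ n, (∀ p ∈ PZ x δ, ¬ p ∣ n + h i) → (∀ p ∈ PZ x δ, ¬ p ∣ n + h j) → Ly h x δ v n = Ly h x δ y n := by
    intro n hn hn'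
    have := Ev_lam_pr hSP hgP y (v := yy h n) (by
      intro e he
      rw [hS, Finset.mem_union] at he
      unfold Si at he
      rw [Finset.mem_product, Finset.mem_singleton, Finset.mem_product, Finset.mem_singleton] at he
      unfold yy
      rw [if_neg]
      rcases he with he | he
      · rw [he.1]
        exact hn e.2 he.2
      · rw [he.1]
        exact hn' e.2 he.2)
    exact this
  have key : ∀ n ∈ AA h W b x, Ev E (uc E (uc E (uc E (uc E q cL) dU) T) T') (yy h n) +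
      Ev E (uc E (uc E (uc E (uc E q cU) dL) T) T') (yy h n) - Ev E (uc E (uc E (uc E (uc E q cU) dU) T) T') (yy h n) ≤
      Ly h x δ y n ^ 2 * ((if ∀ p ∈ PZ x δ, ¬ p ∣ n + h i then evD (PX x) c (n + h i) else 0) *
            (if ∀ p ∈ PZ x δ, ¬ p ∣ n + h j then evD (PX x) c' (n + h j) else 0)) := by
    intro n _
    rw [hpt, hpt, hpt]
    have hEc : 0 ≤ evD (PX x) c (n + h i) := hc.2.1 _
    have hEc' : 0 ≤ evD (PX x) c' (n + h j) := hc'.2.1 _
    have hsq : 0 ≤ Ly h x δ v n ^ 2 * evD (PX x) c (n + h i) * evD (PX x) c' (n + h j) :=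
      mul_nonneg (mul_nonneg (sq_nonneg _) hEc) hEc'
    have hpt2 := SumNL_pt (hLp n) (hUp n) (hLp' n) (hUp' n)
    have e1 : Ly h x δ v n ^ 2 * Ev E cL (yy h n) * Ev E dU (yy h n) * evD (PX x) c (n + h i) * evD (PX x) c' (n + h j) +
        Ly h x δ v n ^ 2 * Ev E cU (yy h n) * Ev E dL (yy h n) * evD (PX x) c (n + h i) * evD (PX x) c' (n + h j) -
        Ly h x δ v n ^ 2 * Ev E cU (yy h n) * Ev E dU (yy h n) * evD (PX x) c (n + h i) * evD (PX x) c' (n + h j) =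
        (Ly h x δ v n ^ 2 * evD (PX x) c (n + h i) * evD (PX x) c' (n + h j)) *
          (Ev E cL (yy h n) * Ev E dU (yy h n) + Ev E cU (yy h n) * Ev E dL (yy h n) -
            Ev E cU (yy h n) * Ev E dU (yy h n)) := by ring
    rw [e1]
    by_cases hr : (∀ p ∈ PZ x δ, ¬ p ∣ n + h i) ∧ (∀ p ∈ PZ x δ, ¬ p ∣ n + h j)
    · have g1 := mul_le_mul_of_nonneg_left (hpt2.1 hr) hsq
      refine g1.trans (le_of_eq ?_)
      rw [if_pos hr.1, if_pos hr.2, hrough n hr.1 hr.2]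
      ring
    · have g1 := mul_nonpos_of_nonneg_of_nonpos hsq (hpt2.2 hr)
      refine g1.trans (le_of_eq ?_)
      by_cases hr1 : ∀ p ∈ PZ x δ, ¬ p ∣ n + h i
      · have hr2 : ¬ ∀ p ∈ PZ x δ, ¬ p ∣ n + h j := fun h2 => hr ⟨hr1, h2⟩
        rw [if_neg hr2]
        ring
      · rw [if_neg hr1]
        ring
  have hsum := Finset.sum_le_sum key
  rw [Finset.sum_sub_distrib, Finset.sum_add_distrib] at hsum
  have t1 := (abs_le.1 (htr _ (hcls cL dU hLc hUc'))).1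
  have t2 := (abs_le.1 (htr _ (hcls cU dL hUc hLc'))).1
  have t3 := (abs_le.1 (htr _ (hcls cU dU hUc hUc'))).2
  rw [hval cL dU hLs hUs'] at t1
  rw [hval cU dL hUs hLs'] at t2
  rw [hval cU dU hUs hUs'] at t3
  have hMn0 : 0 ≤ Mn ι W x := by
    refine le_trans ?_ hMn
    exact div_nonneg hx0.le (pow_nonneg (by linarith only [hlogx]) _)
  have hMy0 : 0 ≤ My ι x δ v := SumNL_My_nonneg x δ v
  have hnum := SumNL_num hLv1 hLv2 hUv1 hUv2 hLv1' hLv2' hUv1' hUv2' (SumNL_V1_nonneg x δ) hfe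
  have hfac : 0 ≤ Mn ι W x * My ι x δ v * (evM (PX x) c * evM (PX x) c') :=
    mul_nonneg (mul_nonneg hMn0 hMy0) (mul_nonneg hc.2.2 hc'.2.2)
  have hmain := mul_le_mul_of_nonneg_left hnum hfac
  have herr : 3 * ((x : ℝ) / Real.log x ^ (A + 1)) ≤ (x : ℝ) / Real.log x ^ A := by
    have hLpos : 0 < Real.log x := by linarith only [hlogx]
    have hLA : 0 < Real.log x ^ A := pow_pos hLpos A
    rw [pow_succ, ← div_div, ← mul_div_assoc, div_le_iff₀ hLpos]
    have : 0 ≤ (x : ℝ) / Real.log x ^ A := div_nonneg hx0.le hLA.le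
    nlinarith only [hlogx, this]
  have e2 : Mn ι W x * (((f - ε) ^ 2 - (F - f + 2 * ε) ^ 2) * V1 x δ ^ 2 * (evM (PX x) c * evM (PX x) c')) * My ι x δ v =
      Mn ι W x * My ι x δ v * (evM (PX x) c * evM (PX x) c') * (((f - ε) ^ 2 - (F - f + 2 * ε) ^ 2) * V1 x δ ^ 2) := by ring
  rw [e2]
  have e3 : Mn ι W x * My ι x δ v * (evM (PX x) c * evM (PX x) c') *
      (Ev (Si x δ i) cL gi * Ev (Si x δ j) dU gi + Ev (Si x δ i) cU gi * Ev (Si x δ j) dL gi -
        Ev (Si x δ i) cU gi * Ev (Si x δ j) dU gi) =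
      Mn ι W x * (My ι x δ v * Ev (Si x δ i) cL gi * Ev (Si x δ j) dU gi * evM (PX x) c * evM (PX x) c') +
      Mn ι W x * (My ι x δ v * Ev (Si x δ i) cU gi * Ev (Si x δ j) dL gi * evM (PX x) c * evM (PX x) c') -
      Mn ι W x * (My ι x δ v * Ev (Si x δ i) cU gi * Ev (Si x δ j) dU gi * evM (PX x) c * evM (PX x) c') := by ring
  rw [e3] at hmain
  refine le_trans ?_ hsum
  linarith only [t1, t2, t3, hmain, herr]

end Pool.Agent.H36.IS2

end

section

/-!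
# ISP SumNU: upper bound for the sums with two nonnegative arrays

S = Si i ∪ Si j, v = pr S (fo gi) y, Ly(y) = Ly(v) on the n which are rough in both components (`Ev_lam_pr`).  [rough_i][rough_j] ≤ Ev cU_i · Ev cU_j
(`wtLU` for i and j), E = trc i c ≥ 0, E' = trc j c' ≥ 0 pointwise:
 sum ≤ ∑_{AA} Ly(v)² Ev cU_i Ev cU_j E E' = (trI, level 2θ + 2 δ s + 2 a < 1) Mn · My(v) · Ev cU_i gi · Ev cU_j gi · evM c · evM c' + x/L^A.
Factorisation by `Ev_uc_disj` (four disjoint ground sets: EZ \ S, Si i, Si j, {i} × big, {j} × big), `EE_lam`.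
-/

set_option autoImplicit false

namespace Pool.Agent.H36.IS2

open Finset Filter Pool.Agent.H36.IS

open Pool.Agent.H91.PK (L1 U1)

private theorem SumNU_EZ_sub (ι : Type) [Fintype ι] [DecidableEq ι] (x : ℕ) (δ : ℝ) : EZ ι x δ ⊆ EX ι x := by
  intro e he
  unfold EZ at he
  unfold EX
  rw [mem_product] at he ⊢
  exact ⟨he.1, filter_subset _ _ he.2⟩

private theorem SumNU_Si_sub {ι : Type} [Fintype ι] [DecidableEq ι] (x : ℕ) (δ : ℝ) (i : ι) : Si x δ i ⊆ EZ ι x δ := by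
  unfold Si EZ
  intro e he
  rw [Finset.mem_product] at he ⊢
  exact ⟨Finset.mem_univ _, he.2⟩

private theorem SumNU_yy01 {ι : Type} [Fintype ι] [DecidableEq ι] (h : ι → ℕ) (n : ℕ) (e : ι × ℕ) :
    yy h n e = 0 ∨ yy h n e = 1 := by
  unfold yy
  split_ifs
  · exact Or.inr rfl
  · exact Or.inl rfl

private theorem SumNU_disj {α : Type} [DecidableEq α] {P P1 P2 : Finset α} (h1 : P1 ⊆ P) (h2 : P2 ⊆ P)
    (h12 : Disjoint P1 P2) {c d : Finset α → ℝ} (hc : ∀ Q, c Q ≠ 0 → Q ⊆ P1) (hd : ∀ Q, d Q ≠ 0 → Q ⊆ P2)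
    (g : α → ℝ) : Ev P (uc P c d) g = Ev P c g * Ev P d g := by
  rw [Ev_uc_disj h1 h2 h12 hc hd, Ev_sup h1 hc, Ev_sup h2 hd]

private theorem SumNU_Mn (ι : Type) [Fintype ι] [DecidableEq ι] {h : ι → ℕ} {W b : ℕ} (hG : Good h W b) (x : ℕ) :
    0 ≤ Mn ι W x := by
  unfold Mn
  refine mul_nonneg (div_nonneg (Nat.cast_nonneg _) (Nat.cast_nonneg _)) (prod_nonneg fun p hp => ?_)
  unfold PS PA at hp
  rw [mem_filter, mem_filter] at hp
  have h1 := (hG.2.2 p hp.1.2.1 hp.2).1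
  have h2 : (Fintype.card ι : ℝ) < p := by exact_mod_cast h1
  have h3 : (0 : ℝ) < p := lt_of_le_of_lt (Nat.cast_nonneg _) h2
  rw [sub_nonneg, div_le_one h3]
  exact h2.le

private theorem SumNU_V1 (x : ℕ) (δ : ℝ) : 0 ≤ V1 x δ := by
  unfold V1
  refine prod_nonneg fun p hp => ?_
  unfold PZ PX at hp
  rw [mem_filter, mem_filter] at hp
  have h1 : (1 : ℝ) ≤ p := by exact_mod_cast hp.1.2.1.one_lt.le
  rw [sub_nonneg, div_le_one (by linarith only [h1])]
  exact h1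

open Classical in
theorem sumNU (ι : Type) [Fintype ι] [DecidableEq ι] (h : ι → ℕ) (W b : ℕ) (hG : Good h W b) (B1 : ℕ)
    (δ θ a s f F ε : ℝ) (hδ : 0 < δ) (hδ1 : δ ≤ 1) (hθ : 0 ≤ θ) (ha : 0 ≤ a) (hs : 0 ≤ s) (hf : 0 ≤ f) (hF : 0 ≤ F)
    (hL : L1 s f) (hU : U1 s F) (hε : 0 < ε) (hlev : 2 * θ + 2 * (δ * s) + 2 * a < 1) (A : ℕ) :
    ∀ᶠ x : ℕ in atTop, ∀ y : Finset (ι × ℕ) → ℝ, Yok x δ θ (Real.log x ^ B1) y →
      ∀ c c' : Finset ℕ → ℝ, ArrN x δ ((x : ℝ) ^ a) c → ArrN x δ ((x : ℝ) ^ a) c' → ∀ i j, i ≠ j →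
      ∑ n ∈ AA h W b x, Ly h x δ y n ^ 2 *
          ((if ∀ p ∈ PZ x δ, ¬ p ∣ n + h i then evD (PX x) c (n + h i) else 0) *
            (if ∀ p ∈ PZ x δ, ¬ p ∣ n + h j then evD (PX x) c' (n + h j) else 0)) ≤
        Mn ι W x * (((F + ε) * V1 x δ) ^ 2 * (evM (PX x) c * evM (PX x) c')) *
          My ι x δ (pr (Si x δ i ∪ Si x δ j) (fo gi) y) + x / Real.log x ^ A := by
  obtain ⟨B2, hB2⟩ := yok_pr ι B1
  obtain ⟨Bw, hBw⟩ := cls_lam ι B2
  have hlog : ∀ᶠ x : ℕ in atTop, (3 : ℝ) ≤ Real.log x :=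
    (Real.tendsto_log_atTop.comp (tendsto_natCast_atTop_atTop (R := ℝ))).eventually (eventually_ge_atTop 3)
  have hwt := Filter.eventually_all.mpr fun i : ι => wtLU ι h i δ s f F ε hδ hδ1 hs hf hF hL hU hε
  filter_upwards [hB2, hBw, trI ι h W b hG (Bw + Bw + (0 + 0) + (1 + 1)) 143
    (1 - (2 * θ + 2 * (δ * s) + 2 * a)) (by norm_num) (by linarith only [hlev]) A,
    hlog, eventually_ge_atTop 2, hwt] with x hx hw htr hlog3 hx2 hwtx
  intro y hy c c' hc hc' i j hij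
  have hlogx : (1 : ℝ) ≤ Real.log x := by linarith only [hlog3]
  have hx0 : (0 : ℝ) < (x : ℝ) := by exact_mod_cast (by omega : 0 < x)
  obtain ⟨_, ci, _, hci, _, hcis, _, hcige, _, _, hciV, hciF⟩ := hwtx i
  obtain ⟨_, cj, _, hcj, _, hcjs, _, hcjge, _, _, hcjV, hcjF⟩ := hwtx j
  have hcP : ∀ T, c T ≠ 0 → T ⊆ PX x := fun T hT => ((hc.1 T).2 hT).1
  have hcP' : ∀ T, c' T ≠ 0 → T ⊆ PX x := fun T hT => ((hc'.1 T).2 hT).1
  set S := Si x δ i ∪ Si x δ j with hS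
  set P := EZ ι x δ with hP
  set X := EX ι x with hX
  have hSiP : Si x δ i ⊆ P := SumNU_Si_sub x δ i
  have hSjP : Si x δ j ⊆ P := SumNU_Si_sub x δ j
  have hSP : S ⊆ P := union_subset hSiP hSjP
  have hPX : P ⊆ X := SumNU_EZ_sub ι x δ
  have hgP : ∀ e ∈ P, 0 < gi e ∧ gi e < 1 := fun e he => (fo_gi (hPX he)).2
  have hv := hx δ θ y S hSP hy
  set v := pr S (fo gi) y with hvdef
  have hlw : Cls x Bw 2 ((x : ℝ) ^ θ) (lam P gi v) := hw δ θ v hv
  set lw := lam P gi v with hlwdef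
  have hlws : ∀ Q, lw Q ≠ 0 → Q ⊆ P \ S := by
    intro Q hQ e he
    obtain ⟨R, hR1, hR2, hR3⟩ := lam_sup hQ
    rw [Finset.mem_sdiff]
    exact ⟨hR2 (hR1 he), fun heS => Finset.disjoint_left.1 (pr_disj hR3).1 (hR1 he) heS⟩
  have hlws' : ∀ Q, lw Q ≠ 0 → Q ⊆ P := fun Q hQ => (hlws Q hQ).trans Finset.sdiff_subset
  set q := uc X lw lw with hq
  have hxt : (0 : ℝ) ≤ (x : ℝ) ^ θ := Real.rpow_nonneg hx0.le _
  have hxs : (0 : ℝ) ≤ (x : ℝ) ^ (δ * s) := Real.rpow_nonneg hx0.le _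
  have hxa : (0 : ℝ) ≤ (x : ℝ) ^ a := Real.rpow_nonneg hx0.le _
  have hqs : ∀ Q, q Q ≠ 0 → Q ⊆ P \ S := by
    intro Q hQ
    have := (uc_sup hlws hlws Q hQ).1
    rwa [Finset.union_self] at this
  have hqP : q = uc P lw lw := uc_ground hPX hlws' hlws'
  -- the arrays of the large primes
  set E := trc i c with hE
  set E' := trc j c' with hE'
  have hEs : ∀ Q, E Q ≠ 0 → Q ⊆ ({i} : Finset ι) ×ˢ (PX x \ PZ x δ) := by
    intro Q hQ e he
    obtain ⟨h1, h2⟩ := trc_sup i hcP Q hQ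
    have h3 := h1 he
    rw [mem_product] at h3 ⊢
    refine ⟨h3.1, ?_⟩
    rw [Finset.mem_sdiff]
    refine ⟨h3.2, fun h4 => ?_⟩
    have h5 := ((hc.1 _).2 h2).2.1 e.2 (mem_image_of_mem _ he)
    unfold PZ at h4
    rw [mem_filter] at h4
    linarith only [h4, h5]
  have hEs' : ∀ Q, E' Q ≠ 0 → Q ⊆ ({j} : Finset ι) ×ˢ (PX x \ PZ x δ) := by
    intro Q hQ e he
    obtain ⟨h1, h2⟩ := trc_sup j hcP' Q hQ
    have h3 := h1 he
    rw [mem_product] at h3 ⊢
    refine ⟨h3.1, ?_⟩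
    rw [Finset.mem_sdiff]
    refine ⟨h3.2, fun h4 => ?_⟩
    have h5 := ((hc'.1 _).2 h2).2.1 e.2 (mem_image_of_mem _ he)
    unfold PZ at h4
    rw [mem_filter] at h4
    linarith only [h4, h5]
  have hBi : ∀ t : ι, ({t} : Finset ι) ×ˢ (PX x \ PZ x δ) ⊆ X \ P := by
    intro t e he
    rw [mem_product, Finset.mem_sdiff] at he
    rw [Finset.mem_sdiff, hX, hP]
    unfold EX EZ
    rw [mem_product, mem_product]
    exact ⟨⟨mem_univ _, he.2.1⟩, fun h1 => he.2.2 h1.2⟩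
  have hdBB : Disjoint (({i} : Finset ι) ×ˢ (PX x \ PZ x δ)) (({j} : Finset ι) ×ˢ (PX x \ PZ x δ)) := by
    rw [Finset.disjoint_left]
    intro e he he'
    rw [mem_product, mem_singleton] at he he'
    exact hij (he.1.symm.trans he'.1)
  have hdSS : Disjoint (Si x δ i) (Si x δ j) := by
    rw [Finset.disjoint_left]
    intro e he he'
    unfold Si at he he'
    rw [mem_product, mem_singleton] at he he'
    exact hij (he.1.symm.trans he'.1)
  set cc := uc X ci cj with hcc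
  have hccs : ∀ Q, cc Q ≠ 0 → Q ⊆ S := fun Q hQ => (uc_sup hcis hcjs Q hQ).1
  set EE := uc X E E' with hEE
  have hEEs : ∀ Q, EE Q ≠ 0 → Q ⊆ X \ P := fun Q hQ =>
    (uc_sup hEs hEs' Q hQ).1.trans (union_subset (hBi i) (hBi j))
  set qc := uc X q cc with hqc
  have hqcs : ∀ Q, qc Q ≠ 0 → Q ⊆ P := fun Q hQ =>
    (uc_sup hqs hccs Q hQ).1.trans (union_subset Finset.sdiff_subset hSP)
  have hXX : X \ P ⊆ X := Finset.sdiff_subset
  -- the class
  have harr : Cls x (Bw + Bw + (0 + 0) + (1 + 1)) 143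
      ((x : ℝ) ^ (1 - (1 - (2 * θ + 2 * (δ * s) + 2 * a)))) (uc X qc EE) := by
    have k1 := cls_uc hlogx (by norm_num) (by norm_num) hxt hxt hlw hlw
    have k2 := cls_uc hlogx (by norm_num) (by norm_num) hxs hxs hci hcj
    have k3 := cls_uc hlogx (by norm_num) (by norm_num) (mul_nonneg hxt hxt) (mul_nonneg hxs hxs) k1 k2
    have k4 := cls_uc hlogx (by norm_num) (by norm_num) hxa hxa (trc_cls i hlog3 hc) (trc_cls j hlog3 hc')
    have k5 := cls_uc hlogx (by norm_num) (by norm_num)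
      (mul_nonneg (mul_nonneg hxt hxt) (mul_nonneg hxs hxs)) (mul_nonneg hxa hxa) k3 k4
    rw [← Real.rpow_add hx0, ← Real.rpow_add hx0, ← Real.rpow_add hx0, ← Real.rpow_add hx0,
      ← Real.rpow_add hx0] at k5
    have e1 : (1 : ℝ) - (1 - (2 * θ + 2 * (δ * s) + 2 * a)) = θ + θ + (δ * s + δ * s) + (a + a) := by ring
    have e2 : (143 : ℝ) = 2 + 2 + 2 * 2 + (1 + 1 + 1 * 1) + (2 + 2 + 2 * 2) * (1 + 1 + 1 * 1) +
        (1 + 1 + 1 * 1) + (2 + 2 + 2 * 2 + (1 + 1 + 1 * 1) + (2 + 2 + 2 * 2) * (1 + 1 + 1 * 1)) *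
          (1 + 1 + 1 * 1) := by norm_num
    rw [e1, e2]
    exact k5
  have ht := (abs_le.1 (htr _ harr)).2
  -- the value at the density
  have hqval : Ev X q gi = My ι x δ v := by
    rw [Ev_sup hPX (fun Q hQ => (hqs Q hQ).trans Finset.sdiff_subset), hqP, hlwdef, EE_lam hgP]
    unfold My MM
    apply Finset.sum_congr rfl
    intro R _
    rw [pow_two]
  have hval : Ev X (uc X qc EE) gi = My ι x δ v * (Ev (Si x δ i) ci gi * Ev (Si x δ j) cj gi) *
      (evM (PX x) c * evM (PX x) c') := by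
    rw [SumNU_disj hPX hXX Finset.disjoint_sdiff hqcs hEEs, hqc,
      SumNU_disj (Finset.sdiff_subset.trans hPX) (hSP.trans hPX) Finset.sdiff_disjoint hqs hccs, hqval, hcc,
      Ev_uc_disj (hSiP.trans hPX) (hSjP.trans hPX) hdSS hcis hcjs, hEE,
      SumNU_disj ((hBi i).trans hXX) ((hBi j).trans hXX) hdBB hEs hEs', hE, hE', trc_gi i x c hcP,
      trc_gi j x c' hcP']
  -- pointwise
  have hyn : ∀ n, ∀ e ∈ X, yy h n e = 0 ∨ yy h n e = 1 := fun n e _ => SumNU_yy01 h n e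
  have hpt : ∀ n, Ev X (uc X qc EE) (yy h n) =
      Ly h x δ v n ^ 2 * (Ev X ci (yy h n) * Ev X cj (yy h n)) *
        (evD (PX x) c (n + h i) * evD (PX x) c' (n + h j)) := by
    intro n
    rw [Ev_uc _ _ (hyn n), hqc, Ev_uc _ _ (hyn n), hq, Ev_uc _ _ (hyn n), hcc, Ev_uc _ _ (hyn n), hEE,
      Ev_uc _ _ (hyn n), Ev_sup hPX hlws', hE, hE', trc_yy h i x c hcP n, trc_yy h j x c' hcP' n]
    unfold Ly
    ring
  have hLy : ∀ n, (∀ p ∈ PZ x δ, ¬ p ∣ n + h i) → (∀ p ∈ PZ x δ, ¬ p ∣ n + h j) →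
      Ly h x δ y n = Ly h x δ v n := by
    intro n hn1 hn2
    have hn' : ∀ e ∈ S, yy h n e = 0 := by
      intro e he
      rw [hS, mem_union] at he
      unfold yy
      rcases he with he | he
      · unfold Si at he
        rw [Finset.mem_product, Finset.mem_singleton] at he
        rw [if_neg]
        rw [he.1]
        exact hn1 e.2 he.2
      · unfold Si at he
        rw [Finset.mem_product, Finset.mem_singleton] at he
        rw [if_neg]
        rw [he.1]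
        exact hn2 e.2 he.2
    unfold Ly
    rw [hvdef, ← Ev_lam_pr hSP hgP y hn']
  have hsum : ∑ n ∈ AA h W b x, Ly h x δ y n ^ 2 *
          ((if ∀ p ∈ PZ x δ, ¬ p ∣ n + h i then evD (PX x) c (n + h i) else 0) *
            (if ∀ p ∈ PZ x δ, ¬ p ∣ n + h j then evD (PX x) c' (n + h j) else 0)) ≤
      ∑ n ∈ AA h W b x, Ev X (uc X qc EE) (yy h n) := by
    refine sum_le_sum fun n _ => ?_
    rw [hpt n]
    have u1 := hcige n
    have u2 := hcjge n
    have w1 := hc.2.1 (n + h i)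
    have w2 := hc'.2.1 (n + h j)
    have z1 : 0 ≤ Ev X ci (yy h n) := le_trans (by split_ifs <;> norm_num) u1
    have z2 : 0 ≤ Ev X cj (yy h n) := le_trans (by split_ifs <;> norm_num) u2
    by_cases r1 : ∀ p ∈ PZ x δ, ¬ p ∣ n + h i
    · by_cases r2 : ∀ p ∈ PZ x δ, ¬ p ∣ n + h j
      · rw [if_pos r1, if_pos r2, hLy n r1 r2]
        rw [if_pos r1] at u1
        rw [if_pos r2] at u2
        have z3 : 1 ≤ Ev X ci (yy h n) * Ev X cj (yy h n) := one_le_mul_of_one_le_of_one_le u1 u2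
        have z4 : 0 ≤ Ly h x δ v n ^ 2 * (evD (PX x) c (n + h i) * evD (PX x) c' (n + h j)) :=
          mul_nonneg (sq_nonneg _) (mul_nonneg w1 w2)
        nlinarith only [z3, z4]
      · rw [if_neg r2, mul_zero, mul_zero]
        exact mul_nonneg (mul_nonneg (sq_nonneg _) (mul_nonneg z1 z2)) (mul_nonneg w1 w2)
    · rw [if_neg r1, zero_mul, mul_zero]
      exact mul_nonneg (mul_nonneg (sq_nonneg _) (mul_nonneg z1 z2)) (mul_nonneg w1 w2)
  -- the main term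
  have hM0 := SumNU_Mn ι hG x
  have hV0 := SumNU_V1 x δ
  have hMy : 0 ≤ My ι x δ v := by
    unfold My MM
    refine sum_nonneg fun R hR => mul_nonneg (sq_nonneg _) (prod_nonneg fun e he => ?_)
    have h1 := hgP e (mem_powerset.1 hR he)
    unfold fo
    exact div_nonneg h1.1.le (by linarith only [h1])
  have hmain : Mn ι W x * Ev X (uc X qc EE) gi ≤
      Mn ι W x * (((F + ε) * V1 x δ) ^ 2 * (evM (PX x) c * evM (PX x) c')) * My ι x δ v := by
    rw [hval]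
    have k1 : Ev (Si x δ i) ci gi * Ev (Si x δ j) cj gi ≤ ((F + ε) * V1 x δ) ^ 2 := by
      rw [pow_two]
      exact mul_le_mul hciF hcjF (hV0.trans hcjV) (hV0.trans (hciV.trans hciF))
    have k2 : 0 ≤ evM (PX x) c * evM (PX x) c' := mul_nonneg hc.2.2 hc'.2.2
    have k3 : 0 ≤ Mn ι W x * (evM (PX x) c * evM (PX x) c') * My ι x δ v :=
      mul_nonneg (mul_nonneg hM0 k2) hMy
    have k4 := mul_le_mul_of_nonneg_left k1 k3
    calc Mn ι W x * (My ι x δ v * (Ev (Si x δ i) ci gi * Ev (Si x δ j) cj gi) *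
          (evM (PX x) c * evM (PX x) c'))
        = Mn ι W x * (evM (PX x) c * evM (PX x) c') * My ι x δ v *
          (Ev (Si x δ i) ci gi * Ev (Si x δ j) cj gi) := by ring
      _ ≤ Mn ι W x * (evM (PX x) c * evM (PX x) c') * My ι x δ v * ((F + ε) * V1 x δ) ^ 2 := k4
      _ = _ := by ring
  linarith only [ht, hsum, hmain]

end Pool.Agent.H36.IS2

end

section

/-!
# ISP SumN: sums with one nonnegative array

v = pr (Si x δ i) (fo gi) y; on the n with no p ∈ PZ x δ dividing n + h i: Ly(y) = Ly(v) (`Ev_lam_pr`).  With cL, cU from `wtLU`, E = trc i c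
(pointwise ≥ 0 by ArrN and `trc_yy`):
 ∑_{AA} [rough] Ly(y)² E ≥ ∑_{AA} Ly(v)² Ev cL E  and  ≤ ∑_{AA} Ly(v)² Ev cU E.
The arrays uc (uc (uc λ λ) cL) E (λ = lam EZ gi v) are in a class of level 2θ + δ s + a < 1 (`cls_lam`, `yok_pr`, `cls_uc`, `trc_cls`): `trI`; the main
terms factor: λ is supported on EZ \ Si, cL on Si, E on {i} × (primes > x^δ) (`Ev_uc_disj` twice, `EE_lam`, `trc_gi`).
0 ≤ evM c, 0 ≤ My, Mn ≥ 0.  Compare SumL.lean, SumX.lean.
-/

set_option autoImplicit false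

namespace Pool.Agent.H36.IS2

open Finset Filter Pool.Agent.H36.IS

open Pool.Agent.H91.PK (L1 U1)

private lemma SumN_Si_sub (x : ℕ) {ι : Type} [Fintype ι] [DecidableEq ι] (δ : ℝ) (i : ι) : Si x δ i ⊆ EZ ι x δ := by
  unfold Si EZ
  intro e he
  rw [Finset.mem_product] at he ⊢
  exact ⟨Finset.mem_univ _, he.2⟩

private lemma SumN_EZ_sub (x : ℕ) {ι : Type} [Fintype ι] [DecidableEq ι] (δ : ℝ) : EZ ι x δ ⊆ EX ι x := by
  unfold EZ EX
  intro e he
  rw [Finset.mem_product] at he ⊢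
  refine ⟨Finset.mem_univ _, ?_⟩
  unfold PZ at he
  exact (Finset.mem_filter.1 he.2).1

private lemma SumN_yy01 {ι : Type} [Fintype ι] [DecidableEq ι] (h : ι → ℕ) (n : ℕ) (e : ι × ℕ) :
    yy h n e = 0 ∨ yy h n e = 1 := by
  unfold yy
  split_ifs
  · exact Or.inr rfl
  · exact Or.inl rfl

private lemma SumN_My_nonneg {ι : Type} [Fintype ι] [DecidableEq ι] (x : ℕ) (δ : ℝ) (v : Finset (ι × ℕ) → ℝ) :
    0 ≤ My ι x δ v := by
  unfold My MM
  apply Finset.sum_nonneg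
  intro R hR
  apply mul_nonneg (sq_nonneg _)
  apply Finset.prod_nonneg
  intro e he
  have h1 := fo_gi (SumN_EZ_sub x δ (Finset.mem_powerset.1 hR he))
  unfold fo
  exact div_nonneg h1.2.1.le (by linarith only [h1])

/-- support of the Selberg coefficients of a projected function -/
private lemma SumN_lam_sup {ι : Type} [Fintype ι] [DecidableEq ι] {P S : Finset (ι × ℕ)} {y : Finset (ι × ℕ) → ℝ}
    (Q : Finset (ι × ℕ)) (h : lam P gi (pr S (fo gi) y) Q ≠ 0) : Q ⊆ P \ S := by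
  obtain ⟨R, hQR, hRP, hR⟩ := lam_sup h
  have h1 := (pr_disj hR).1
  intro e he
  rw [Finset.mem_sdiff]
  exact ⟨hRP (hQR he), fun h2 => (Finset.disjoint_left.1 h1) (hQR he) h2⟩

open Classical in
theorem sumN (ι : Type) [Fintype ι] [DecidableEq ι] (h : ι → ℕ) (W b : ℕ) (hG : Good h W b) (B1 : ℕ)
    (δ θ a s f F ε : ℝ) (hδ : 0 < δ) (hδ1 : δ ≤ 1) (hθ : 0 ≤ θ) (ha : 0 ≤ a) (hs : 0 ≤ s) (hf : 0 ≤ f) (hF : 0 ≤ F)
    (hL : L1 s f) (hU : U1 s F) (hε : 0 < ε) (hlev : 2 * θ + δ * s + a < 1) (A : ℕ) :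
    ∀ᶠ x : ℕ in atTop, ∀ y : Finset (ι × ℕ) → ℝ, Yok x δ θ (Real.log x ^ B1) y →
      ∀ c : Finset ℕ → ℝ, ArrN x δ ((x : ℝ) ^ a) c → ∀ i,
      Mn ι W x * ((f - ε) * V1 x δ * evM (PX x) c) * My ι x δ (pr (Si x δ i) (fo gi) y) - x / Real.log x ^ A ≤
        ∑ n ∈ AA h W b x, Ly h x δ y n ^ 2 * (if ∀ p ∈ PZ x δ, ¬ p ∣ n + h i then evD (PX x) c (n + h i) else 0) ∧
      ∑ n ∈ AA h W b x, Ly h x δ y n ^ 2 * (if ∀ p ∈ PZ x δ, ¬ p ∣ n + h i then evD (PX x) c (n + h i) else 0) ≤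
        Mn ι W x * ((F + ε) * V1 x δ * evM (PX x) c) * My ι x δ (pr (Si x δ i) (fo gi) y) + x / Real.log x ^ A := by
  obtain ⟨η, hη, hη1⟩ : ∃ η : ℝ, 0 < η ∧ 2 * θ + δ * s + a ≤ 1 - η :=
    ⟨1 - (2 * θ + δ * s + a), by linarith only [hlev], by linarith only []⟩
  obtain ⟨B2, hB2⟩ := yok_pr ι B1
  obtain ⟨Bv, hBv⟩ := cls_lam ι B2
  obtain ⟨B3, hB3⟩ := Mn_low ι h W b hG
  have hw := Filter.eventually_all.2 (fun i : ι => wtLU ι h i δ s f F ε hδ hδ1 hs hf hF hL hU hε)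
  have hlog : ∀ᶠ x : ℕ in atTop, (3 : ℝ) ≤ Real.log x :=
    (Real.tendsto_log_atTop.comp (tendsto_natCast_atTop_atTop (R := ℝ))).eventually (eventually_ge_atTop 3)
  filter_upwards [hB2, hBv, hB3, hw, hlog, eventually_ge_atTop 3,
    trI ι h W b hG (Bv + Bv + 1) 35 η (by norm_num) hη A]
    with x hyokpr hclslam hMn hwx hlog3 hx3 htr
  intro y hy c hc i
  have hlogx : (1 : ℝ) ≤ Real.log x := by linarith only [hlog3]
  have hx1 : (1 : ℝ) ≤ (x : ℝ) := by
    have : (3 : ℝ) ≤ (x : ℝ) := by exact_mod_cast hx3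
    linarith only [this]
  have hx0 : (0 : ℝ) < (x : ℝ) := by linarith only [hx1]
  obtain ⟨cL, cU, hcLc, hcUc, hcLs, hcUs, hcLp, hcUp, hcLv, -, -, hcUv⟩ := hwx i
  set E := EX ι x with hE
  set P := EZ ι x δ with hP
  set S := Si x δ i with hS
  have hSP : S ⊆ P := SumN_Si_sub x δ i
  have hPE : P ⊆ E := SumN_EZ_sub x δ
  set v := pr S (fo gi) y with hv
  have hyv : Yok x δ θ (Real.log x ^ B2) v := hyokpr δ θ y S hSP hy
  have hlv : Cls x Bv 2 ((x : ℝ) ^ θ) (lam P gi v) := hclslam δ θ v hyv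
  set lv := lam P gi v with hlvdef
  have hlvs : ∀ Q, lv Q ≠ 0 → Q ⊆ P \ S := fun Q hQ => SumN_lam_sup Q hQ
  have hlvsP : ∀ Q, lv Q ≠ 0 → Q ⊆ P := fun Q hQ => (hlvs Q hQ).trans Finset.sdiff_subset
  set q := uc E lv lv with hq
  have hxθ : (0 : ℝ) ≤ (x : ℝ) ^ θ := Real.rpow_nonneg hx0.le _
  have hqc : Cls x (Bv + Bv) (2 + 2 + 2 * 2) ((x : ℝ) ^ θ * (x : ℝ) ^ θ) q :=
    cls_uc hlogx (by norm_num) (by norm_num) hxθ hxθ hlv hlv
  have hqs : ∀ Q, q Q ≠ 0 → Q ⊆ P \ S := by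
    intro Q hQ
    have := (uc_sup hlvs hlvs Q hQ).1
    rwa [Finset.union_self] at this
  have hqE : q = uc P lv lv := uc_ground hPE hlvsP hlvsP
  have hxx : (0 : ℝ) ≤ (x : ℝ) ^ θ * (x : ℝ) ^ θ := mul_nonneg hxθ hxθ
  -- the transported array
  have hcsup : ∀ T, c T ≠ 0 → T ⊆ PX x := fun T hT => ((hc.1 T).2 hT).1
  set Ec := trc i c with hEc
  have hEcc : Cls x 1 1 ((x : ℝ) ^ a) Ec := trc_cls i hlog3 hc
  set S3 : Finset (ι × ℕ) := {i} ×ˢ (PX x).filter (fun p : ℕ => (x : ℝ) ^ δ < p) with hS3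
  have hEcs : ∀ Q, Ec Q ≠ 0 → Q ⊆ S3 := by
    intro Q hQ
    refine (trc_sup i (P := (PX x).filter (fun p : ℕ => (x : ℝ) ^ δ < p)) ?_ Q hQ).1
    intro T hT p hp
    have h1 := (hc.1 T).2 hT
    exact Finset.mem_filter.2 ⟨h1.1 hp, h1.2.1 p hp⟩
  have hS3E : S3 ⊆ E := by
    intro e he
    rw [hS3, Finset.mem_product] at he
    rw [hE]
    unfold EX
    rw [Finset.mem_product]
    exact ⟨Finset.mem_univ _, (Finset.mem_filter.1 he.2).1⟩
  have hPS3 : Disjoint P S3 := by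
    rw [Finset.disjoint_left]
    intro e he he3
    rw [hS3, Finset.mem_product] at he3
    rw [hP] at he
    unfold EZ PZ at he
    rw [Finset.mem_product] at he
    have h1 := (Finset.mem_filter.1 he.2).2
    have h2 := (Finset.mem_filter.1 he3.2).2
    linarith only [h1, h2]
  -- evaluation at the density
  have hgP : ∀ e ∈ P, 0 < gi e ∧ gi e < 1 := fun e he => (fo_gi (hPE he)).2
  have hqval : Ev (P \ S) q gi = My ι x δ v := by
    rw [← Ev_sup (Finset.sdiff_subset : P \ S ⊆ P) hqs, hqE, hlvdef, EE_lam hgP]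
    unfold My MM
    apply Finset.sum_congr rfl
    intro R hR
    rw [pow_two]
  have hdisj : Disjoint (P \ S) S := Finset.sdiff_disjoint
  have hEcv : Ev E Ec gi = evM (PX x) c := trc_gi i x c hcsup
  -- pointwise values
  have hLyv : ∀ n, Ev E lv (yy h n) = Ly h x δ v n := by
    intro n
    rw [Ev_sup hPE hlvsP]
    rfl
  have hEcy : ∀ n, Ev E Ec (yy h n) = evD (PX x) c (n + h i) := fun n => trc_yy h i x c hcsup n
  have hrough : ∀ n, (∀ p ∈ PZ x δ, ¬ p ∣ n + h i) → Ly h x δ v n = Ly h x δ y n := by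
    intro n hn
    have := Ev_lam_pr hSP hgP y (v := yy h n) (by
      intro e he
      rw [hS] at he
      unfold Si at he
      rw [Finset.mem_product, Finset.mem_singleton] at he
      unfold yy
      rw [if_neg]
      rw [he.1]
      exact hn e.2 he.2)
    exact this
  -- everything about one weight
  have hgen : ∀ w : Finset (ι × ℕ) → ℝ, Cls x 0 1 ((x : ℝ) ^ (δ * s)) w → (∀ Q, w Q ≠ 0 → Q ⊆ S) →
      |∑ n ∈ AA h W b x, Ly h x δ v n ^ 2 * Ev E w (yy h n) * evD (PX x) c (n + h i) -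
        Mn ι W x * (My ι x δ v * Ev S w gi * evM (PX x) c)| ≤ x / Real.log x ^ A := by
    intro w hw hws
    have h0 := cls_uc hlogx (by norm_num) (by norm_num) hxx (Real.rpow_nonneg hx0.le _) hqc hw
    have h1 := cls_uc hlogx (by norm_num) (by norm_num)
      (mul_nonneg hxx (Real.rpow_nonneg hx0.le _)) (Real.rpow_nonneg hx0.le _) h0 hEcc
    have h2 : Cls x (Bv + Bv + 1) 35 ((x : ℝ) ^ (1 - η)) (uc E (uc E q w) Ec) := by
      refine Cls.mono h1 hlogx (by omega) (by norm_num) (by norm_num) ?_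
      rw [← Real.rpow_add hx0, ← Real.rpow_add hx0, ← Real.rpow_add hx0]
      apply Real.rpow_le_rpow_of_exponent_le hx1
      linarith only [hη1]
    have h3 := htr _ h2
    have hwP : ∀ Q, uc E q w Q ≠ 0 → Q ⊆ P := by
      intro Q hQ
      have := (uc_sup hqs hws Q hQ).1
      exact this.trans (Finset.union_subset Finset.sdiff_subset hSP)
    have h4 : Ev E (uc E q w) gi = My ι x δ v * Ev S w gi := by
      rw [Ev_uc_disj (Finset.sdiff_subset.trans hPE) (hSP.trans hPE) hdisj hqs hws, hqval]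
    have h5 : Ev E (uc E (uc E q w) Ec) gi = My ι x δ v * Ev S w gi * evM (PX x) c := by
      rw [Ev_uc_disj hPE hS3E hPS3 hwP hEcs, ← Ev_sup hPE hwP, h4, ← Ev_sup hS3E hEcs, hEcv]
    have h6 : ∀ n, Ev E (uc E (uc E q w) Ec) (yy h n) =
        Ly h x δ v n ^ 2 * Ev E w (yy h n) * evD (PX x) c (n + h i) := by
      intro n
      rw [Ev_uc _ _ (fun e _ => SumN_yy01 h n e), Ev_uc _ _ (fun e _ => SumN_yy01 h n e), hq,
        Ev_uc _ _ (fun e _ => SumN_yy01 h n e), hLyv, hEcy]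
      ring
    rw [h5, Finset.sum_congr rfl (fun n _ => h6 n)] at h3
    exact h3
  have hMn0 : 0 ≤ Mn ι W x := by
    refine le_trans ?_ hMn
    exact div_nonneg hx0.le (pow_nonneg (by linarith only [hlog3]) _)
  have hMy0 : 0 ≤ My ι x δ v := SumN_My_nonneg x δ v
  have hM0 : 0 ≤ evM (PX x) c := hc.2.2
  have hC0 : 0 ≤ Mn ι W x * (My ι x δ v * evM (PX x) c) := mul_nonneg hMn0 (mul_nonneg hMy0 hM0)
  constructor
  · have ht := abs_le.1 (hgen cL hcLc hcLs)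
    have key : ∀ n ∈ AA h W b x, Ly h x δ v n ^ 2 * Ev E cL (yy h n) * evD (PX x) c (n + h i) ≤
        Ly h x δ y n ^ 2 * (if ∀ p ∈ PZ x δ, ¬ p ∣ n + h i then evD (PX x) c (n + h i) else 0) := by
      intro n _
      have hcL1 := hcLp n
      have hD0 : 0 ≤ evD (PX x) c (n + h i) := hc.2.1 (n + h i)
      by_cases hr1 : ∀ p ∈ PZ x δ, ¬ p ∣ n + h i
      · rw [if_pos hr1] at hcL1
        rw [if_pos hr1, hrough n hr1]
        apply mul_le_mul_of_nonneg_right _ hD0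
        have := mul_le_mul_of_nonneg_left hcL1 (sq_nonneg (Ly h x δ y n))
        linarith only [this]
      · rw [if_neg hr1] at hcL1
        rw [if_neg hr1, mul_zero]
        exact mul_nonpos_of_nonpos_of_nonneg (mul_nonpos_of_nonneg_of_nonpos (sq_nonneg _) hcL1) hD0
    have hsum := Finset.sum_le_sum key
    have h1 := mul_le_mul_of_nonneg_left hcLv hC0
    have e1 : Mn ι W x * (My ι x δ v * evM (PX x) c) * ((f - ε) * V1 x δ) =
      Mn ι W x * ((f - ε) * V1 x δ * evM (PX x) c) * My ι x δ v := by ring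
    have e2 : Mn ι W x * (My ι x δ v * evM (PX x) c) * Ev S cL gi =
      Mn ι W x * (My ι x δ v * Ev S cL gi * evM (PX x) c) := by ring
    rw [e1, e2] at h1
    linarith only [ht, hsum, h1]
  · have ht := abs_le.1 (hgen cU hcUc hcUs)
    have key : ∀ n ∈ AA h W b x,
        Ly h x δ y n ^ 2 * (if ∀ p ∈ PZ x δ, ¬ p ∣ n + h i then evD (PX x) c (n + h i) else 0) ≤
        Ly h x δ v n ^ 2 * Ev E cU (yy h n) * evD (PX x) c (n + h i) := by
      intro n _
      have hcU1 := hcUp n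
      have hD0 : 0 ≤ evD (PX x) c (n + h i) := hc.2.1 (n + h i)
      by_cases hr1 : ∀ p ∈ PZ x δ, ¬ p ∣ n + h i
      · rw [if_pos hr1] at hcU1
        rw [if_pos hr1, hrough n hr1]
        apply mul_le_mul_of_nonneg_right _ hD0
        have := mul_le_mul_of_nonneg_left hcU1 (sq_nonneg (Ly h x δ y n))
        linarith only [this]
      · rw [if_neg hr1] at hcU1
        rw [if_neg hr1, mul_zero]
        exact mul_nonneg (mul_nonneg (sq_nonneg _) hcU1) hD0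
    have hsum := Finset.sum_le_sum key
    have h1 := mul_le_mul_of_nonneg_left hcUv hC0
    have e1 : Mn ι W x * (My ι x δ v * evM (PX x) c) * ((F + ε) * V1 x δ) =
      Mn ι W x * ((F + ε) * V1 x δ * evM (PX x) c) * My ι x δ v := by ring
    have e2 : Mn ι W x * (My ι x δ v * evM (PX x) c) * Ev S cU gi =
      Mn ι W x * (My ι x δ v * Ev S cU gi * evM (PX x) c) := by ring
    rw [e1, e2] at h1
    linarith only [ht, hsum, h1]

end Pool.Agent.H36.IS2

end
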