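import Pool.Agent.H15.TB1.M01
import Pool.Agent.H15.TB1.M14
import Pool.Agent.H15.TB1.M20

/-! The parts of this file: H76.EHB.Defs, H35.W.Defs, H76.MU.Defs, H76.MU.LmD, H76.EHB.Basic, H76.MU.LmV, H80.LV.BoxDec, H76.EHB.SmallA, H35.W.JredE, H76.MU.GP, H76.MU.Ram, H76.MU.Fou, H87.WL.Defs, H87.WL.Gl, H92.EH.Exp, H92.EH.Farey, H92.EH.Ramanujan, H41.PrimesModFour, H35.V1.NT, H76.MU.RgI, H76.MU.MuId. -/

section

/-!
# PROJECT EHB (MP_a78e8f_nt): common definitions

The exponential sum `FF f N θ = ∑_{n ≤ N} f(n) e(n θ)`, `S2 f N = ∑_{n ≤ N} f(n)^2`, the set `ks K` of the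
integers `k ≠ 0` with `|k| ≤ K`, the Gaussian weight `wt A u = exp(-π (u/A)^2)`.
-/

set_option autoImplicit false

namespace Pool.Agent.H76.EHB

open Finset MeasureTheory
open Pool.Agent.H91.PK (ee)

/-- `∑_{n ≤ N} f(n) e(n θ)` -/
noncomputable def FF (f : ℕ → ℝ) (N : ℕ) (θ : ℝ) : ℂ := ∑ n ∈ Icc 1 N, (f n : ℂ) * ee (n * θ)

/-- `∑_{n ≤ N} f(n)^2` -/
noncomputable def S2 (f : ℕ → ℝ) (N : ℕ) : ℝ := ∑ n ∈ Icc 1 N, f n ^ 2

end Pool.Agent.H76.EHB

end

section

/-!
# PROJECT W (MP_a78e8f_nt): common definitions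

Elliott-Halberstam with the saving `(log x)^(-1/2+o(1))` for almost all residues `a` in every interval of
length `x^ε`.  Notation: `L = log x`, `f = hR R` with `R = ⌊L^20⌋`, `ee(t) = exp(2 π i t)`.
`FF f N θ = ∑_{n ≤ N} f(n) ee(n θ)`, `S2 f N = ∑_{n ≤ N} f(n)^2`, `ZZ S t = ∑_{k ∈ S} k^{-1/2 + i t}`,
`Mel g t = ∫_0^∞ g(θ) θ^{-1/2 - i t} dθ`, `II S g = ∫_0^∞ |∑_{k ∈ S} g(k y)|^2 dy` are those of EHB.
-/

set_option autoImplicit false

namespace Pool.Agent.H35.W

open Finset MeasureTheory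
open Pool.Agent.H91.PK (ee)
open Pool.Agent.H76.EHB

/-- the primes of the block `(P, 2P]` -/
def pb (P : ℕ) : Finset ℕ := (Ioc P (2 * P)).filter Nat.Prime

/-- `k` has no prime factor in the blocks `pb (P 2^i)`, `i < J`, i.e. in `(P, P 2^J]` -/
def Rk (P J k : ℕ) : Prop := ∀ i, i < J → ∀ p ∈ pb (P * 2 ^ i), ¬ p ∣ k

open Classical in
/-- the `k ≤ y` without prime factor in `(P, P 2^J]` -/
noncomputable def rgh (P J y : ℕ) : Finset ℕ := (Icc 1 y).filter (fun k => Rk P J k)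

/-- the correlation of `g` with `ee(n α + t log (n - a0))` on `(M, y]` -/
noncomputable def cor (g : ℕ → ℝ) (a0 M : ℕ) (α t : ℝ) (y : ℕ) : ℂ :=
  ∑ n ∈ Ioc M y, (g n : ℂ) * ee (n * α + t * Real.log ((n : ℝ) - a0))

/-- the exponentially damped exponential sum -/
noncomputable def ge (f : ℕ → ℝ) (N : ℕ) (α a Θ s θ : ℝ) : ℂ :=
  if 0 < θ then FF f N (α + s * θ) * ee (-(a * s * θ)) * ((Real.exp (-(θ / Θ)) : ℝ) : ℂ) else 0

end Pool.Agent.H35.W

end

section

/-!
# PROJECT MU (MP_0575cc_nt): common definitions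

THEOREM. There is `C` with `V(X;H) ≤ C H^2 (log log X/log H)^2` for all `X ≥ 16`, `3 ≤ H ≤ X`, where `V(X;H)` is the mean square of
`∑_{|n-x| < H/2} μ(n)` over `x ∈ [X, 2X]`.

`L = log x`, `ee(t) = exp(2 π i t)` (`Pool.Agent.H91.PK.ee`; `LSa_ee_add`, `LSa_norm_ee`, `LSa_conj_ee` in
`H91/PK/LSa.lean`), `FF f N θ = ∑_{n ≤ N} f(n) ee(n θ)`, `pb P` = primes in `(P, 2P]`, `Rk P J k`: `k` has no prime factor in
`(P, P 2^J]`, `cor`, `ge` as in `H35/W/Defs.lean`.

* `lio n = (-1)^Ω(n)` (Liouville; `0` at `n = 0`);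
* `Om P J n` = number of prime factors of `n` in `(P, P 2^J]` counted with multiplicity;
* `gl j P J n = lio n / (j + Om P J n)`;
* `SL j P J y t = ∑_{n ≤ y} gl j P J n · n^{2 π i t}`, `nrm B f = (∫_B |f|^2)^{1/2}`;
* `CorM` : the hypothesis of the part on exponential sums;
* `VK1` : cancellation in `∑ Λ(n) n^{2 π i t}` (helper97).
-/

set_option autoImplicit false

namespace Pool.Agent.H76.MU

open Finset MeasureTheory
open Pool.Agent.H91.PK (ee)
open Pool.Agent.H91.EHA (Lam)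
open Pool.Agent.H76.EHB
open Pool.Agent.H35.W

/-- the Liouville function -/
noncomputable def lio (n : ℕ) : ℝ := if n = 0 then 0 else (-1) ^ (ArithmeticFunction.cardFactors n)

/-- the number of prime factors in `(P, P 2^J]`, with multiplicity -/
noncomputable def Om (P J n : ℕ) : ℕ :=
  ∑ p ∈ n.primeFactors.filter (fun p => P < p ∧ p ≤ P * 2 ^ J), n.factorization p

/-- the weighted Liouville function -/
noncomputable def gl (j P J n : ℕ) : ℝ := lio n / ((j : ℝ) + Om P J n)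

/-- `∑_{n ≤ y} gl j P J n · n^{2 π i t}` -/
noncomputable def SL (j P J y : ℕ) (t : ℝ) : ℂ :=
  ∑ n ∈ Icc 1 y, ((gl j P J n : ℝ) : ℂ) * ee (t * Real.log n)

/-- the `L^2` norm on `B` -/
noncomputable def nrm (B : Set ℝ) (f : ℝ → ℂ) : ℝ := Real.sqrt (∫ t in B, ‖f t‖ ^ 2)

/-- Vinogradov-Korobov type cancellation (helper97, Part I of SP with `d = 1`, down to
`z ≥ exp ((log x)^(19/20))`) -/
def VK1 : Prop := ∀ K : ℕ, ∃ K' x0 : ℕ, ∀ x : ℕ, x0 ≤ x → ∀ (z : ℕ) (t : ℝ),
  Real.exp (Real.log x ^ (19 / 20 : ℝ)) ≤ z → z ≤ x ^ 2 → Real.log x ^ K' ≤ |t| →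
    |t| ≤ (x : ℝ) ^ (2 : ℕ) →
    ‖∑ n ∈ Icc 1 z, ((Lam n : ℝ) : ℂ) * ee (t * Real.log n)‖ ≤ z / Real.log x ^ K

/-- the sets of `t` which occur: measurable, in a dyadic annulus, of measure at most `T^η` -/
structure BS (η T : ℝ) (B : Set ℝ) : Prop where
  meas : MeasurableSet B
  mem : ∀ t ∈ B, T ≤ |t| ∧ |t| ≤ 2 * T
  vol : volume.real B ≤ T ^ η

/-- the hypotheses on `g` in the part on exponential sums -/
structure CorM (x m K : ℕ) (η : ℝ) (N M : ℕ) (g : ℕ → ℝ) : Prop where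
  supp : ∀ n, n ∉ Ioc M N → g n = 0
  bd : ∀ n, |g n| ≤ 1
  large : ∀ (y : ℕ) (T : ℝ) (B : Set ℝ), y ≤ N → Real.log x ^ m ≤ T → T ≤ x → BS η T B →
      ∫ t in B, ‖cor g 0 M 0 t y‖ ^ 2 ≤ (x : ℝ) ^ 2 / Real.log x ^ K

/-- `∑_{k ∈ pb P} ∑_{n ≤ x} f(n) ee(k n θ)` -/
noncomputable def SG (f : ℕ → ℝ) (x P : ℕ) (θ : ℝ) : ℂ := ∑ k ∈ pb P, FF f x (k * θ)

/-- the sum over the window `[j - h, j)` -/
noncomputable def Uw (G : ℕ → ℝ) (h j : ℕ) : ℝ := ∑ n ∈ Ico (j - h) j, G n

/-- the kernel `(1/h) ∑_{r=1}^h ee(r θ)` -/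
noncomputable def kap (h : ℕ) (θ : ℝ) : ℂ := (1 / (h : ℂ)) * ∑ r ∈ Icc 1 h, ee (r * θ)

theorem norm_ee (t : ℝ) : ‖ee t‖ = 1 := Pool.Agent.H91.PK.LSa_norm_ee t

theorem lio_abs_le (n : ℕ) : |lio n| ≤ 1 := by
  unfold lio
  split_ifs
  · simp
  · rw [abs_pow]; simp

theorem gl_abs_le (j P J n : ℕ) (hj : 1 ≤ j) : |gl j P J n| ≤ 1 := by
  unfold gl
  have h1 : (1 : ℝ) ≤ (j : ℝ) + Om P J n := by
    have : (1 : ℝ) ≤ j := by exact_mod_cast hj
    have h2 : (0 : ℝ) ≤ Om P J n := Nat.cast_nonneg _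
    linarith only [this]
  rw [abs_div, abs_of_pos (by linarith only [h1] : (0 : ℝ) < (j : ℝ) + Om P J n)]
  exact (div_le_self (abs_nonneg _) h1).trans (lio_abs_le n)

/-- logarithms are smaller than powers -/
theorem log_pow_le (s C : ℝ) (hs : 0 < s) (hC : 0 < C) (c : ℕ) :
    ∃ x0 : ℕ, ∀ x : ℕ, x0 ≤ x → C * Real.log x ^ c ≤ (x : ℝ) ^ s := by
  have h1 := (isLittleO_log_rpow_rpow_atTop (c : ℝ) hs).bound (c := 1 / C) (by positivity)
  have h2 := h1.and (Filter.eventually_ge_atTop (1 : ℝ))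
  have h3 := tendsto_natCast_atTop_atTop (R := ℝ) |>.eventually h2
  obtain ⟨x0, hx0⟩ := Filter.eventually_atTop.1 h3
  refine ⟨x0, fun x hx => ?_⟩
  obtain ⟨h4, h5⟩ := hx0 x hx
  have hl : 0 ≤ Real.log x := Real.log_nonneg h5
  have hp : (0 : ℝ) ≤ (x : ℝ) ^ s := Real.rpow_nonneg (by positivity) _
  rw [Real.rpow_natCast, Real.norm_eq_abs, Real.norm_eq_abs, abs_of_nonneg (by positivity),
    abs_of_nonneg hp] at h4
  rw [div_mul_eq_mul_div, one_mul, le_div_iff₀ hC] at h4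
  linarith only [h4]

/-- logarithms are large -/
theorem log_ge (C : ℝ) : ∃ x0 : ℕ, ∀ x : ℕ, x0 ≤ x → C ≤ Real.log x := by
  have h := (Real.tendsto_log_atTop.comp (tendsto_natCast_atTop_atTop (R := ℝ))).eventually
    (Filter.eventually_ge_atTop C)
  exact Filter.eventually_atTop.1 h

/-- `exp ((log x)^(19/20) (log x)^...)` is smaller than every power of `x` -/
theorem exp_pow_le (s C : ℝ) (hs : 0 < s) (hC : 0 < C) : ∃ x0 : ℕ, ∀ x : ℕ, x0 ≤ x →
    Real.exp (C * Real.log x ^ (19 / 20 : ℝ)) ≤ (x : ℝ) ^ s := by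
  have h1 : Filter.Tendsto (fun y : ℝ => y ^ (1 / 20 : ℝ)) Filter.atTop Filter.atTop :=
    tendsto_rpow_atTop (by norm_num)
  have h2 := (h1.comp (Real.tendsto_log_atTop.comp
    (tendsto_natCast_atTop_atTop (R := ℝ)))).eventually (Filter.eventually_ge_atTop (C / s))
  have h3 := (Real.tendsto_log_atTop.comp (tendsto_natCast_atTop_atTop (R := ℝ))).eventually
    (Filter.eventually_ge_atTop 1)
  obtain ⟨x0, hx0⟩ := Filter.eventually_atTop.1
    ((h2.and h3).and (Filter.eventually_ge_atTop 1))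
  refine ⟨x0, fun x hx => ?_⟩
  obtain ⟨⟨h4, h5⟩, h6⟩ := hx0 x hx
  simp only [Function.comp_apply] at h4 h5
  have hx0' : (0 : ℝ) < x := by exact_mod_cast h6
  have hL : 0 < Real.log x := by linarith only [h5]
  rw [Real.rpow_def_of_pos hx0']
  apply Real.exp_le_exp.2
  have e1 : Real.log x = Real.log x ^ (19 / 20 : ℝ) * Real.log x ^ (1 / 20 : ℝ) := by
    rw [← Real.rpow_add hL]; norm_num
  rw [div_le_iff₀ hs] at h4
  have h7 : 0 ≤ Real.log x ^ (19 / 20 : ℝ) := by positivity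
  calc C * Real.log x ^ (19 / 20 : ℝ) ≤ (Real.log x ^ (1 / 20 : ℝ) * s) * Real.log x ^ (19 / 20 : ℝ) :=
        mul_le_mul_of_nonneg_right h4 h7
    _ = (Real.log x ^ (19 / 20 : ℝ) * Real.log x ^ (1 / 20 : ℝ)) * s := by ring
    _ = Real.log x * s := by rw [← e1]

end Pool.Agent.H76.MU

end

section

/-!
# MU LmD: algebra of the weighted Liouville function

`Om` is completely additive (`Nat.factorization_mul`; the primes of `m n` are those of `m` and of `n`), `lio` completely multiplicative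
(`ArithmeticFunction.cardFactors_mul`).  `log_id`: `log n = ∑_{d ∣ n} Λ(d)` (`ArithmeticFunction.vonMangoldt_sum`) and for `n = d l`:
`gl j P J n = lio d · lio l/(j + Om d + Om l) = lio d · gl (j + Om d) P J l`.
`log_sum`: multiply by `ee(t log n)`, sum over `n ≤ y`, write `n = d l`, `ee(t log (d l)) = ee(t log d) ee(t log l)`, `l ≤ y/d`
(reorder the sum over pairs; compare `Vau_sum_conv` in `H91/PK/Vau.lean`).
-/

set_option autoImplicit false

namespace Pool.Agent.H76.MU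

open Finset
open Pool.Agent.H91.PK (ee)
open Pool.Agent.H91.EHA (Lam)

theorem LmD_Om (P J n : ℕ) : Om P J n = ∑ p ∈ Ioc P (P * 2 ^ J), n.factorization p := by
  unfold Om
  refine Finset.sum_subset_zero_on_sdiff ?_ ?_ ?_
  · intro p hp
    rw [Finset.mem_filter] at hp
    exact Finset.mem_Ioc.2 hp.2
  · intro p hp
    rw [Finset.mem_sdiff, Finset.mem_Ioc, Finset.mem_filter] at hp
    by_contra h
    apply hp.2
    refine ⟨?_, hp.1⟩
    rw [← Nat.support_factorization, Finsupp.mem_support_iff]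
    exact h
  · intro p _
    rfl

theorem LmD_reorder (N : ℕ) (F : ℕ → ℕ → ℂ) :
    ∑ n ∈ Icc 1 N, ∑ d ∈ n.divisors, F d (n / d) =
      ∑ a ∈ Icc 1 N, ∑ b ∈ Icc 1 (N / a), F a b := by
  have h1 : ∀ n ∈ Icc 1 N, ∑ d ∈ n.divisors, F d (n / d)
      = ∑ p ∈ n.divisorsAntidiagonal, F p.1 p.2 := by
    intro n _
    exact (Nat.sum_divisorsAntidiagonal (fun a b => F a b)).symm
  rw [Finset.sum_congr rfl h1, Finset.sum_sigma']
  rw [Finset.sum_sigma']
  refine Finset.sum_bij' (fun x _ => ⟨x.2.1, x.2.2⟩) (fun y _ => ⟨y.1 * y.2, (y.1, y.2)⟩)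
    ?_ ?_ ?_ ?_ ?_
  · rintro ⟨n, a, b⟩ hx
    simp only [Finset.mem_sigma, Finset.mem_Icc, Nat.mem_divisorsAntidiagonal] at hx ⊢
    obtain ⟨⟨hn1, hnN⟩, hab, hn0⟩ := hx
    have ha : 1 ≤ a := by
      rcases Nat.eq_zero_or_pos a with h | h
      · subst h; simp at hab; omega
      · exact h
    have hb : 1 ≤ b := by
      rcases Nat.eq_zero_or_pos b with h | h
      · subst h; simp at hab; omega
      · exact h
    refine ⟨⟨ha, ?_⟩, hb, ?_⟩
    · calc a = a * 1 := (mul_one a).symm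
        _ ≤ a * b := Nat.mul_le_mul_left a hb
        _ ≤ N := by rw [hab]; exact hnN
    · rw [Nat.le_div_iff_mul_le (by omega)]
      calc b * a = a * b := mul_comm b a
        _ ≤ N := by rw [hab]; exact hnN
  · rintro ⟨a, b⟩ hx
    simp only [Finset.mem_sigma, Finset.mem_Icc, Nat.mem_divisorsAntidiagonal] at hx ⊢
    obtain ⟨⟨ha1, haN⟩, hb1, hbN⟩ := hx
    rw [Nat.le_div_iff_mul_le (by omega)] at hbN
    have h2 : 1 ≤ a * b := Nat.mul_pos (by omega) (by omega)
    refine ⟨⟨h2, by rw [mul_comm]; exact hbN⟩, trivial, by omega⟩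
  · rintro ⟨n, a, b⟩ hx
    simp only [Finset.mem_sigma, Nat.mem_divisorsAntidiagonal] at hx
    obtain ⟨_, hab, _⟩ := hx
    subst hab
    rfl
  · rintro ⟨a, b⟩ _
    rfl
  · rintro ⟨n, a, b⟩ _
    rfl

theorem lio_mul (m n : ℕ) : lio (m * n) = lio m * lio n := by
  unfold lio
  rcases eq_or_ne m 0 with rfl | hm
  · simp
  rcases eq_or_ne n 0 with rfl | hn
  · simp
  rw [if_neg (mul_ne_zero hm hn), if_neg hm, if_neg hn, ArithmeticFunction.cardFactors_mul hm hn,
    pow_add]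

theorem lio_prime (p : ℕ) (hp : p.Prime) : lio p = -1 := by
  unfold lio
  rw [if_neg hp.ne_zero, ArithmeticFunction.cardFactors_apply_prime hp, pow_one]

theorem Om_mul (P J m n : ℕ) (hm : m ≠ 0) (hn : n ≠ 0) : Om P J (m * n) = Om P J m + Om P J n := by
  rw [LmD_Om, LmD_Om, LmD_Om, ← Finset.sum_add_distrib, Nat.factorization_mul hm hn]
  rfl

theorem Om_prime (P J p : ℕ) (hp : p.Prime) :
    Om P J p = if P < p ∧ p ≤ P * 2 ^ J then 1 else 0 := by
  rw [LmD_Om, hp.factorization]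
  split_ifs with h
  · rw [Finset.sum_eq_single p]
    · simp
    · intro q _ hq
      exact Finsupp.single_eq_of_ne hq
    · intro h1
      exact absurd (Finset.mem_Ioc.2 h) h1
  · refine Finset.sum_eq_zero fun q hq => ?_
    apply Finsupp.single_eq_of_ne
    rintro rfl
    exact h (Finset.mem_Ioc.1 hq)

theorem log_id (j P J n : ℕ) (hn : n ≠ 0) :
    gl j P J n * Real.log n
      = ∑ d ∈ n.divisors, Lam d * lio d * gl (j + Om P J d) P J (n / d) := by
  have h1 : Real.log n = ∑ d ∈ n.divisors, Lam d :=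
    (ArithmeticFunction.vonMangoldt_sum (n := n)).symm
  rw [h1, Finset.mul_sum]
  refine Finset.sum_congr rfl fun d hd => ?_
  obtain ⟨l, rfl⟩ := Nat.dvd_of_mem_divisors hd
  have hd0 : d ≠ 0 := fun h => hn (by rw [h, zero_mul])
  have hl0 : l ≠ 0 := fun h => hn (by rw [h, mul_zero])
  rw [Nat.mul_div_cancel_left l (Nat.pos_of_ne_zero hd0)]
  unfold gl
  rw [lio_mul, Om_mul P J d l hd0 hl0]
  push_cast
  rw [add_assoc]
  ring

theorem log_sum (j P J y : ℕ) (t : ℝ) :
    ∑ n ∈ Icc 1 y, ((gl j P J n * Real.log n : ℝ) : ℂ) * ee (t * Real.log n)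
      = ∑ d ∈ Icc 1 y, ((Lam d * lio d : ℝ) : ℂ) * ee (t * Real.log d) *
          SL (j + Om P J d) P J (y / d) t := by
  have h1 : ∑ n ∈ Icc 1 y, ((gl j P J n * Real.log n : ℝ) : ℂ) * ee (t * Real.log n)
      = ∑ n ∈ Icc 1 y, ∑ d ∈ n.divisors, ((Lam d * lio d : ℝ) : ℂ) * ee (t * Real.log d) *
          (((gl (j + Om P J d) P J (n / d) : ℝ) : ℂ) * ee (t * Real.log ((n / d : ℕ) : ℝ))) := by
    refine Finset.sum_congr rfl fun n hn => ?_
    have hn0 : n ≠ 0 := by
      have := (Finset.mem_Icc.1 hn).1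
      omega
    rw [log_id j P J n hn0, Complex.ofReal_sum, Finset.sum_mul]
    refine Finset.sum_congr rfl fun d hd => ?_
    obtain ⟨l, rfl⟩ := Nat.dvd_of_mem_divisors hd
    have hd0 : d ≠ 0 := fun h => hn0 (by rw [h, zero_mul])
    have hl0 : l ≠ 0 := fun h => hn0 (by rw [h, mul_zero])
    rw [Nat.mul_div_cancel_left l (Nat.pos_of_ne_zero hd0)]
    have h2 : ee (t * Real.log ((d * l : ℕ) : ℝ)) = ee (t * Real.log d) * ee (t * Real.log l) := by
      rw [← Pool.Agent.H91.PK.LSa_ee_add]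
      congr 1
      push_cast
      rw [Real.log_mul (Nat.cast_ne_zero.2 hd0) (Nat.cast_ne_zero.2 hl0)]
      ring
    rw [h2]
    push_cast
    ring
  rw [h1, LmD_reorder y (fun d l => ((Lam d * lio d : ℝ) : ℂ) * ee (t * Real.log d) *
          (((gl (j + Om P J d) P J l : ℝ) : ℂ) * ee (t * Real.log (l : ℝ))))]
  refine Finset.sum_congr rfl fun d _ => ?_
  unfold SL
  rw [Finset.mul_sum]

end Pool.Agent.H76.MU

end

section

/-!
# EHB Basic: elementary facts on `ee`, `FF`, `ks`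

Everything follows from `LSa_ee_add`, `LSa_norm_ee`, `LSa_conj_ee`, `LSa_int_ee`, `LSa_parseval` of
`Pool/Agent/H91/PK/LSa.lean` (for `FF_parseval` take `c = 0`, `s = Icc 1 N`, `b n = f n`).
`sum_inv_ks`: the sum is `2 ∑_{k ≤ K} 1/k ≤ 2 (1 + log K)` (`harmonic_le_one_add_log`).
-/

set_option autoImplicit false

namespace Pool.Agent.H76.EHB

open Finset MeasureTheory
open Pool.Agent.H91.PK (ee)

theorem continuous_ee : Continuous ee := by
  unfold ee
  fun_prop

theorem ee_int (j : ℤ) : ee j = 1 := by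
  unfold ee
  rw [Complex.exp_eq_one_iff]
  refine ⟨j, ?_⟩
  push_cast
  ring

theorem FF_continuous (f : ℕ → ℝ) (N : ℕ) : Continuous (FF f N) := by
  unfold FF
  refine continuous_finsetSum _ fun n _ => ?_
  exact continuous_const.mul (continuous_ee.comp (continuous_const.mul continuous_id))

theorem norm_FF_le (f : ℕ → ℝ) (N : ℕ) (θ : ℝ) : ‖FF f N θ‖ ≤ ∑ n ∈ Icc 1 N, |f n| := by
  unfold FF
  refine (norm_sum_le _ _).trans (le_of_eq (sum_congr rfl fun n _ => ?_))
  rw [norm_mul, Pool.Agent.H91.PK.LSa_norm_ee, mul_one, Complex.norm_real, Real.norm_eq_abs]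

/-- Cauchy-Schwarz -/
theorem norm_FF_sq_le (f : ℕ → ℝ) (N : ℕ) (θ : ℝ) : ‖FF f N θ‖ ^ 2 ≤ N * S2 f N := by
  have h1 : ‖FF f N θ‖ ^ 2 ≤ (∑ n ∈ Icc 1 N, |f n|) ^ 2 :=
    pow_le_pow_left₀ (norm_nonneg _) (norm_FF_le f N θ) 2
  refine h1.trans ((sq_sum_le_card_mul_sum_sq).trans (le_of_eq ?_))
  unfold S2
  rw [Nat.card_Icc, Nat.add_sub_cancel]
  simp only [sq_abs]

theorem FF_parseval (f : ℕ → ℝ) (N : ℕ) (x : ℝ) :
    ∫ t in x..(x + 1), ‖FF f N t‖ ^ 2 = S2 f N := by
  have h := Pool.Agent.H91.PK.LSa_parseval (Icc 1 N) (fun n => (f n : ℂ)) 0 x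
  simp only [sub_zero, Complex.norm_real, Real.norm_eq_abs, sq_abs] at h
  exact h

theorem S2_nonneg (f : ℕ → ℝ) (N : ℕ) : 0 ≤ S2 f N := Finset.sum_nonneg fun _ _ => sq_nonneg _

end Pool.Agent.H76.EHB

end

section

/-!
# MU LmV: primes in intervals, pointwise

`PS a b t = ∑_{p ∈ (a, b]} log p · p^{2 π i t}`.  `VK1 (K + 2)` at `b` and at `a` (`∑_{n ∈ Ioc a b} Λ(n) n^{2 π i t}` is the difference), and the prime powers
`p^k ≤ b`, `k ≥ 2`, contribute at most `2 √b (log b)^2` (`p ≤ √b`, `k ≤ log_2 b`, each `≤ log b`) `≤ b/L^{K+1}` because `b ≥ exp(L^{19/20})`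
(`√b ≥ exp(L^{19/20}/2) ≥ 8 L^{K+3}` for large `x`, `log b ≤ 2 L`).
-/

set_option autoImplicit false

namespace Pool.Agent.H76.MU

open Finset
open Pool.Agent.H91.PK (ee)
open Pool.Agent.H91.EHA (Lam)

/-- `∑_{p ∈ (a, b]} log p · p^{2 π i t}` -/
noncomputable def PS (a b : ℕ) (t : ℝ) : ℂ :=
  ∑ p ∈ (Ioc a b).filter Nat.Prime, ((Real.log p : ℝ) : ℂ) * ee (t * Real.log p)

/-- the prime powers -/
theorem ps_diff (a b : ℕ) (t : ℝ) (hab : a ≤ b) (hb : 2 ≤ b) :
    ‖PS a b t - (∑ n ∈ Icc 1 b, ((Lam n : ℝ) : ℂ) * ee (t * Real.log n)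
      - ∑ n ∈ Icc 1 a, ((Lam n : ℝ) : ℂ) * ee (t * Real.log n))‖
      ≤ 4 * Real.sqrt b * Real.log b ^ 2 := by
  have h1 : ∑ n ∈ Icc 1 b, ((Lam n : ℝ) : ℂ) * ee (t * Real.log n)
      - ∑ n ∈ Icc 1 a, ((Lam n : ℝ) : ℂ) * ee (t * Real.log n)
      = ∑ n ∈ Ioc a b, ((Lam n : ℝ) : ℂ) * ee (t * Real.log n) := by
    have h2 : Icc 1 b = Icc 1 a ∪ Ioc a b := by
      ext n; simp only [mem_Icc, mem_union, mem_Ioc]; omega
    have h3 : Disjoint (Icc 1 a) (Ioc a b) := by
      rw [Finset.disjoint_left]; intro n hn hn'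
      simp only [mem_Icc, mem_Ioc] at hn hn'; omega
    rw [h2, sum_union h3]; ring
  have h4 : ∑ n ∈ Ioc a b, ((Lam n : ℝ) : ℂ) * ee (t * Real.log n)
      = PS a b t + ∑ n ∈ (Ioc a b).filter (fun n => ¬ n.Prime),
        ((Lam n : ℝ) : ℂ) * ee (t * Real.log n) := by
    unfold PS
    rw [← sum_filter_add_sum_filter_not (Ioc a b) Nat.Prime]
    congr 1
    refine sum_congr rfl fun n hn => ?_
    rw [mem_filter] at hn
    unfold Lam
    rw [ArithmeticFunction.vonMangoldt_apply_prime hn.2]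
  rw [h1, h4]
  have h5 : ∀ z w : ℂ, z - (z + w) = -w := fun z w => by ring
  rw [h5, norm_neg]
  have h6 : ‖∑ n ∈ (Ioc a b).filter (fun n => ¬ n.Prime), ((Lam n : ℝ) : ℂ) * ee (t * Real.log n)‖
      ≤ ∑ n ∈ (Ioc 0 b).filter (fun n => ¬ n.Prime), ArithmeticFunction.vonMangoldt n := by
    refine (norm_sum_le _ _).trans ?_
    have h7 : ∑ n ∈ (Ioc a b).filter (fun n => ¬ n.Prime), ‖((Lam n : ℝ) : ℂ) * ee (t * Real.log n)‖
        = ∑ n ∈ (Ioc a b).filter (fun n => ¬ n.Prime), ArithmeticFunction.vonMangoldt n := by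
      refine sum_congr rfl fun n _ => ?_
      rw [norm_mul, norm_ee, mul_one, Complex.norm_real, Real.norm_eq_abs]
      exact abs_of_nonneg ArithmeticFunction.vonMangoldt_nonneg
    rw [h7]
    refine sum_le_sum_of_subset_of_nonneg ?_ fun n _ _ => ArithmeticFunction.vonMangoldt_nonneg
    intro n hn
    simp only [mem_filter, mem_Ioc] at hn ⊢
    exact ⟨⟨by omega, hn.1.2⟩, hn.2⟩
  have h8 := Chebyshev.psi_sub_theta_eq_sum_not_prime (b : ℝ)
  rw [Nat.floor_natCast] at h8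
  have hb1 : (1 : ℝ) ≤ b := by exact_mod_cast (by omega : 1 ≤ b)
  have h9 := Chebyshev.psi_sub_theta_le hb1
  rw [h8] at h9
  refine h6.trans (h9.trans ?_)
  have hb2 : (2 : ℝ) ≤ b := by exact_mod_cast hb
  have hl : (1 / 2 : ℝ) ≤ Real.log b := by
    have := Real.log_le_log (by norm_num) hb2
    have h2 := Real.log_two_gt_d9
    linarith only [this, h2]
  have hs : 0 ≤ Real.sqrt b := Real.sqrt_nonneg _
  have h10 : Real.log b ≤ 2 * Real.log b ^ 2 := by nlinarith only [hl]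
  calc 2 * Real.sqrt b * Real.log b ≤ 2 * Real.sqrt b * (2 * Real.log b ^ 2) :=
        mul_le_mul_of_nonneg_left h10 (by positivity)
    _ = 4 * Real.sqrt b * Real.log b ^ 2 := by ring

private theorem LmV_large (K : ℕ) : ∃ x0 : ℕ, ∀ x : ℕ, x0 ≤ x →
    32 * Real.log x ^ (K + 2) ≤ Real.exp (Real.log x ^ (19 / 20 : ℝ) / 2) := by
  have h1 := (isLittleO_rpow_exp_pos_mul_atTop ((20 / 19 : ℝ) * (K + 2)) (b := 1 / 2)
    (by norm_num)).bound (c := 1 / 32) (by norm_num)
  have h2 : Filter.Tendsto (fun y : ℝ => y ^ (19 / 20 : ℝ)) Filter.atTop Filter.atTop :=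
    tendsto_rpow_atTop (by norm_num)
  have h3 := (h2.comp (Real.tendsto_log_atTop.comp
    (tendsto_natCast_atTop_atTop (R := ℝ)))).eventually h1
  have h4 := (Real.tendsto_log_atTop.comp (tendsto_natCast_atTop_atTop (R := ℝ))).eventually
    (Filter.eventually_ge_atTop 1)
  obtain ⟨x0, hx0⟩ := Filter.eventually_atTop.1 (h3.and h4)
  refine ⟨x0, fun x hx => ?_⟩
  obtain ⟨h5, h6⟩ := hx0 x hx
  simp only [Function.comp_apply] at h5 h6
  have hL : 0 < Real.log x := by linarith only [h6]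
  rw [Real.norm_eq_abs, Real.norm_eq_abs, abs_of_nonneg (by positivity), abs_of_pos (Real.exp_pos _),
    ← Real.rpow_mul hL.le] at h5
  have h7 : (19 / 20 : ℝ) * (20 / 19 * (K + 2)) = ((K + 2 : ℕ) : ℝ) := by
    push_cast; ring
  rw [h7, Real.rpow_natCast] at h5
  have h8 : Real.log x ^ (19 / 20 : ℝ) / 2 = 1 / 2 * Real.log x ^ (19 / 20 : ℝ) := by ring
  rw [h8]
  linarith only [h5]

theorem ps_vk (hV : VK1) : ∀ K : ℕ, ∃ K' x0 : ℕ, ∀ x : ℕ, x0 ≤ x → ∀ (a b : ℕ) (t : ℝ),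
    Real.exp (Real.log x ^ (19 / 20 : ℝ)) ≤ a → a ≤ b → b ≤ x ^ 2 → Real.log x ^ K' ≤ |t| →
      |t| ≤ (x : ℝ) ^ (2 : ℕ) → ‖PS a b t‖ ≤ b / Real.log x ^ K := by
  intro K
  obtain ⟨K', x1, hx1⟩ := hV (K + 1)
  obtain ⟨x2, hx2⟩ := LmV_large K
  obtain ⟨x3, hx3⟩ := log_ge 4
  refine ⟨K', max (max x1 x2) x3, fun x hx a b t ha hab hb ht1 ht2 => ?_⟩
  have hxx1 : x1 ≤ x := le_trans (le_trans (le_max_left _ _) (le_max_left _ _)) hx
  have hxx2 : x2 ≤ x := le_trans (le_trans (le_max_right _ _) (le_max_left _ _)) hx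
  have hxx3 : x3 ≤ x := le_trans (le_max_right _ _) hx
  have hL4 := hx3 x hxx3
  have hL : 0 < Real.log x := by linarith only [hL4]
  have hab' : (a : ℝ) ≤ b := by exact_mod_cast hab
  have e1 := hx1 x hxx1 b t (ha.trans hab') hb ht1 ht2
  have e2 := hx1 x hxx1 a t ha (hab.trans hb) ht1 ht2
  have hx0 : (1 : ℝ) ≤ x := by
    by_contra hc
    have : x = 0 := by
      have : (x : ℝ) < 1 := not_le.1 hc
      exact_mod_cast Nat.lt_one_iff.1 (by exact_mod_cast this)
    rw [this] at hL; simp at hL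
  have hy1 : (1 : ℝ) ≤ Real.log x ^ (19 / 20 : ℝ) := Real.one_le_rpow (by linarith only [hL4]) (by norm_num)
  have hb2 : (2 : ℝ) ≤ b := by
    have h1 := Real.add_one_le_exp (Real.log x ^ (19 / 20 : ℝ))
    linarith only [ha, hab', hy1, h1]
  have hb2' : 2 ≤ b := by exact_mod_cast hb2
  have e3 := ps_diff a b t hab hb2'
  have hb0 : (0 : ℝ) < b := by linarith only [hb2]
  have hlb : Real.log b ≤ 2 * Real.log x := by
    have h1 : (b : ℝ) ≤ (x : ℝ) ^ 2 := by exact_mod_cast hb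
    have h2 := Real.log_le_log hb0 h1
    rw [Real.log_pow] at h2
    push_cast at h2
    exact h2
  have hlb0 : 0 ≤ Real.log b := Real.log_nonneg (by linarith only [hb2])
  have hsq : Real.exp (Real.log x ^ (19 / 20 : ℝ) / 2) ≤ Real.sqrt b := by
    apply Real.le_sqrt_of_sq_le
    rw [← Real.exp_nat_mul]
    have : ((2 : ℕ) : ℝ) * (Real.log x ^ (19 / 20 : ℝ) / 2) = Real.log x ^ (19 / 20 : ℝ) := by
      push_cast; ring
    rw [this]
    exact ha.trans hab'
  have hs0 : 0 ≤ Real.sqrt b := Real.sqrt_nonneg _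
  have e4 : 4 * Real.sqrt b * Real.log b ^ 2 ≤ b / (2 * Real.log x ^ K) := by
    rw [le_div_iff₀ (by positivity)]
    have h1 : Real.log b ^ 2 ≤ (2 * Real.log x) ^ 2 := pow_le_pow_left₀ hlb0 hlb 2
    have h2 := (hx2 x hxx2).trans hsq
    have h3 : (b : ℝ) = Real.sqrt b * Real.sqrt b := (Real.mul_self_sqrt hb0.le).symm
    calc 4 * Real.sqrt b * Real.log b ^ 2 * (2 * Real.log x ^ K)
        ≤ 4 * Real.sqrt b * (2 * Real.log x) ^ 2 * (2 * Real.log x ^ K) := by gcongr
      _ = Real.sqrt b * (32 * Real.log x ^ (K + 2)) := by ring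
      _ ≤ Real.sqrt b * Real.sqrt b := mul_le_mul_of_nonneg_left h2 hs0
      _ = b := h3.symm
  have e5 : (b : ℝ) / Real.log x ^ (K + 1) ≤ b / (4 * Real.log x ^ K) := by
    apply div_le_div_of_nonneg_left hb0.le (by positivity)
    rw [pow_succ]
    have : 0 < Real.log x ^ K := by positivity
    nlinarith only [hL4, this]
  have e6 : (a : ℝ) / Real.log x ^ (K + 1) ≤ b / (4 * Real.log x ^ K) :=
    (div_le_div_of_nonneg_right hab' (by positivity)).trans e5
  set A := ∑ n ∈ Icc 1 b, ((Lam n : ℝ) : ℂ) * ee (t * Real.log n)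
  set B := ∑ n ∈ Icc 1 a, ((Lam n : ℝ) : ℂ) * ee (t * Real.log n)
  have e7 : ‖PS a b t‖ ≤ ‖PS a b t - (A - B)‖ + (‖A‖ + ‖B‖) := by
    calc ‖PS a b t‖ = ‖(PS a b t - (A - B)) + (A - B)‖ := by congr 1; ring
      _ ≤ ‖PS a b t - (A - B)‖ + ‖A - B‖ := norm_add_le _ _
      _ ≤ _ := by gcongr; exact norm_sub_le _ _
  have e8 : (b : ℝ) / (4 * Real.log x ^ K) = (b / Real.log x ^ K) / 4 := by
    rw [mul_comm, div_mul_eq_div_div]
  have e9 : (b : ℝ) / (2 * Real.log x ^ K) = (b / Real.log x ^ K) / 2 := by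
    rw [mul_comm, div_mul_eq_div_div]
  rw [e8] at e5 e6
  rw [e9] at e4
  linarith only [e4, e5, e6, e1, e2, e3, e7]

end Pool.Agent.H76.MU

end

section

/-!
# LV BoxDec: decomposition of a bilinear sum over `m n ≤ y` into boxes

Define `v 0 = U`, `v (j+1) = v j + v j / q` (natural division).  As `v j ≥ U ≥ 2 q`: `v j / q ≥ 2`, `v` is strictly increasing,
`q * v (j+1) ≤ (q+1) * v j`, and `v (j+1) ≥ v j + v j/q - 1 ≥ v j (1 + 1/(2q))` (real division; `v j ≥ 2q`).  Let `J` be the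
least `j` with `y ≤ v j`; then `v (J-1) < y` if `J ≥ 1`, `(1 + 1/(2q))^{J-1} ≤ y` (as `U ≥ 1`), and
`log(1 + 1/(2q)) ≥ 1/(4q)`, so `J ≤ 4 q log y + 1`.
`Ioc U y ⊆` the disjoint union of the `Ioc (v j) (v (j+1))`, `j < J`; the `m` with `m > y` give nothing
(`Ioc U (y/m) = ∅`, `y / m = 0`).  For `m ∈ Ioc (v j) (v (j+1))`: `y / v (j+1) ≤ y / m`, so
`Ioc U (y/m) = Ioc U (y / v (j+1)) ∪ Ioc (max U (y / v (j+1))) (y/m)`.  The second parts are collected according to `k = m n`: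
`e k = ∑ lam m * cc (k/m)` over the `m ∣ k` with `m ∈ Ioc (v j) (v (j+1))` for some `j < J`, `U < k/m`, `y / v (j+1) < k/m`, (and `k ≤ y`).
If `n > y / v (j+1)` then `n * v (j+1) > y`, so `k q = m n q ≥ n q (v j + 1) ... `: precisely
`k (q+1) = m n (q+1) > n v j (q+1) ≥ n q v (j+1) > ... ≥ q y`, i.e. `k (q+1) > q y`, so `k > y - y/(q+1)` and
`k ∉ Ioc (y - y/q - 1) y` is impossible for such `k`.
-/

set_option autoImplicit false

namespace Pool.Agent.H80.LV

open Finset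

/-- the box ends -/
private def bdv (U q : ℕ) : ℕ → ℕ
  | 0 => U
  | (j + 1) => bdv U q j + bdv U q j / q

private lemma bdv_zero (U q : ℕ) : bdv U q 0 = U := rfl

private lemma bdv_succ (U q j : ℕ) : bdv U q (j + 1) = bdv U q j + bdv U q j / q := rfl

private lemma bdv_ge (U q j : ℕ) : U ≤ bdv U q j := by
  induction j with
  | zero => exact le_refl _
  | succ j ih =>
    rw [bdv_succ]
    exact le_trans ih (Nat.le_add_right _ _)

private lemma bdv_lt (U q j : ℕ) (hq : 1 ≤ q) (hU : 2 * q ≤ U) : bdv U q j < bdv U q (j + 1) := by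
  have h1 := bdv_ge U q j
  have h2 : 1 ≤ bdv U q j / q := by
    rw [Nat.one_le_div_iff (by omega)]
    omega
  rw [bdv_succ]
  omega

private lemma bdv_mono (U q : ℕ) (hq : 1 ≤ q) (hU : 2 * q ≤ U) : StrictMono (bdv U q) :=
  strictMono_nat_of_lt_succ (fun j => bdv_lt U q j hq hU)

private lemma bdv_q (U q j : ℕ) : q * bdv U q (j + 1) ≤ (q + 1) * bdv U q j := by
  rw [bdv_succ]
  have h := Nat.mul_div_le (bdv U q j) q
  nlinarith only [h]

private lemma bdv_grow (U q j : ℕ) (hq : 1 ≤ q) (hU : 2 * q ≤ U) :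
    (1 + 1 / (2 * (q : ℝ))) ^ j ≤ (bdv U q j : ℝ) := by
  induction j with
  | zero =>
    rw [bdv_zero, pow_zero]
    have : 1 ≤ U := by omega
    exact_mod_cast this
  | succ j ih =>
    have hqp : (0 : ℝ) < q := by exact_mod_cast hq
    have h1 := bdv_ge U q j
    have h2 : 2 * (q : ℝ) ≤ (bdv U q j : ℝ) := by exact_mod_cast le_trans hU h1
    have h3 : bdv U q j < q * (bdv U q j / q) + q := by
      have h4 := Nat.div_add_mod (bdv U q j) q
      have h5 := Nat.mod_lt (bdv U q j) (show 0 < q by omega)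
      omega
    have h6 : (bdv U q j : ℝ) < q * ((bdv U q j / q : ℕ) : ℝ) + q := by exact_mod_cast h3
    rw [pow_succ, bdv_succ]
    push_cast
    have h7 : (bdv U q j : ℝ) * (1 / (2 * (q : ℝ))) ≤ ((bdv U q j / q : ℕ) : ℝ) := by
      rw [mul_one_div, div_le_iff₀ (by positivity)]
      nlinarith only [h2, h6]
    have h8 : (1 + 1 / (2 * (q : ℝ))) ^ j * (1 + 1 / (2 * (q : ℝ)))
        ≤ (bdv U q j : ℝ) * (1 + 1 / (2 * (q : ℝ))) :=
      mul_le_mul_of_nonneg_right ih (by positivity)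
    nlinarith only [h7, h8]

private lemma bdv_J (y U q J : ℕ) (hq : 1 ≤ q) (hU : 2 * q ≤ U) (hUy : U ≤ y)
    (hJ : ∀ j, j < J → bdv U q j < y) : (J : ℝ) ≤ 4 * q * Real.log y + 1 := by
  have hqp : (1 : ℝ) ≤ q := by exact_mod_cast hq
  have hy : 1 ≤ y := by omega
  have hyp : (1 : ℝ) ≤ y := by exact_mod_cast hy
  have hlog : 0 ≤ Real.log y := Real.log_nonneg hyp
  rcases Nat.eq_zero_or_pos J with h0 | h0
  · subst h0
    push_cast
    positivity
  · have h1 := hJ (J - 1) (by omega)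
    have h2 := bdv_grow U q (J - 1) hq hU
    have h3 : (1 + 1 / (2 * (q : ℝ))) ^ (J - 1) ≤ (y : ℝ) :=
      le_trans h2 (by exact_mod_cast h1.le)
    have h4 : ((J - 1 : ℕ) : ℝ) * Real.log (1 + 1 / (2 * (q : ℝ))) ≤ Real.log y := by
      rw [← Real.log_pow]
      exact Real.log_le_log (by positivity) h3
    have h5 : 1 / (4 * (q : ℝ)) ≤ Real.log (1 + 1 / (2 * (q : ℝ))) := by
      have h6 := Real.one_sub_inv_le_log_of_pos (show (0 : ℝ) < 1 + 1 / (2 * (q : ℝ)) by positivity)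
      refine le_trans ?_ h6
      have h7 : 1 - (1 + 1 / (2 * (q : ℝ)))⁻¹ = 1 / (2 * q + 1) := by
        field_simp
        ring
      rw [h7]
      apply one_div_le_one_div_of_le (by positivity)
      linarith only [hqp]
    have h8 : ((J - 1 : ℕ) : ℝ) = (J : ℝ) - 1 := by
      rw [Nat.cast_sub (by omega)]
      push_cast
      ring
    have h9 : ((J - 1 : ℕ) : ℝ) * (1 / (4 * (q : ℝ))) ≤ Real.log y :=
      le_trans (mul_le_mul_of_nonneg_left h5 (by positivity)) h4
    rw [mul_one_div, div_le_iff₀ (by positivity), h8] at h9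
    linarith only [h9]

private lemma bd_sum {R : Type*} [AddCommMonoid R] (v : ℕ → ℕ) (hv : Monotone v) (J : ℕ) (F : ℕ → R) :
    ∑ j ∈ range J, ∑ m ∈ Ioc (v j) (v (j + 1)), F m = ∑ m ∈ Ioc (v 0) (v J), F m := by
  induction J with
  | zero => simp
  | succ J ih =>
    rw [sum_range_succ, ih]
    exact Finset.sum_Ioc_consecutive F (hv (Nat.zero_le J)) (hv (Nat.le_succ J))

private lemma bd_one (S : Finset ℕ) (m k : ℕ) (hm : 1 ≤ m) (hS : ∀ n ∈ S, 1 ≤ n) (a : ℝ) (c : ℕ → ℝ) :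
    |∑ n ∈ S, (if m * n = k then a * c n else 0)| ≤ if m ∈ k.divisors then |a| * |c (k / m)| else 0 := by
  by_cases hex : ∃ n ∈ S, m * n = k
  · obtain ⟨n, hn, hk⟩ := hex
    have h1 : ∑ n' ∈ S, (if m * n' = k then a * c n' else 0) = a * c n := by
      rw [Finset.sum_eq_single_of_mem n hn]
      · rw [if_pos hk]
      · intro b _ hbn
        rw [if_neg]
        intro h
        apply hbn
        exact Nat.eq_of_mul_eq_mul_left (by omega) (h.trans hk.symm)
    have hn1 := hS n hn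
    have hmk : m ∈ k.divisors := by
      rw [Nat.mem_divisors]
      refine ⟨⟨n, hk.symm⟩, ?_⟩
      rw [← hk]
      exact Nat.mul_ne_zero (by omega) (by omega)
    have hkm : k / m = n := by
      rw [← hk]
      exact Nat.mul_div_cancel_left n (by omega)
    rw [h1, if_pos hmk, hkm, abs_mul]
  · have h1 : ∑ n' ∈ S, (if m * n' = k then a * c n' else 0) = 0 := by
      apply Finset.sum_eq_zero
      intro n hn
      rw [if_neg]
      intro h
      exact hex ⟨n, hn, h⟩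
    rw [h1, abs_zero]
    split_ifs
    · positivity
    · exact le_refl _

theorem box_dec (y U q : ℕ) (hq : 1 ≤ q) (hU : 2 * q ≤ U) (hUy : U ≤ y) (lam cc : ℕ → ℝ) :
    ∃ (J : ℕ) (v : ℕ → ℕ) (e : ℕ → ℝ), (J : ℝ) ≤ 4 * q * Real.log y + 1 ∧
      (∀ j, U ≤ v j) ∧ (∀ j, v j < v (j + 1)) ∧ (∀ j, j < J → v (j + 1) ≤ 2 * y) ∧
      (∀ k, |e k| ≤ ∑ m ∈ k.divisors, |lam m| * |cc (k / m)|) ∧
      (∀ k, k ∉ Ioc (y - y / q - 1) y → e k = 0) ∧
      ∀ g : ℕ → ℂ, ∑ m ∈ Ioc U y, ((lam m : ℝ) : ℂ) *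
          ∑ n ∈ Ioc U (y / m), ((cc n : ℝ) : ℂ) * g (m * n)
        = ∑ j ∈ range J, ∑ m ∈ Ioc (v j) (v (j + 1)), ((lam m : ℝ) : ℂ) *
            ∑ n ∈ Ioc U (y / v (j + 1)), ((cc n : ℝ) : ℂ) * g (m * n)
          + ∑ k ∈ Icc 1 y, ((e k : ℝ) : ℂ) * g k := by
  classical
  have hsm := bdv_mono U q hq hU
  have hex : ∃ j, y ≤ bdv U q j := ⟨y, hsm.le_apply⟩
  set J := Nat.find hex with hJdef
  have hJ1 : y ≤ bdv U q J := Nat.find_spec hex
  have hJ2 : ∀ j, j < J → bdv U q j < y := by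
    intro j hj
    have := Nat.find_min hex hj
    omega
  set v := bdv U q with hvdef
  have hU1 : 1 ≤ U := by omega
  have hvpos : ∀ j, 1 ≤ v j := fun j => le_trans hU1 (bdv_ge U q j)
  refine ⟨J, v, fun k => ∑ j ∈ range J, ∑ m ∈ Ioc (v j) (v (j + 1)),
    ∑ n ∈ Ioc (max U (y / v (j + 1))) (y / m), (if m * n = k then lam m * cc n else 0),
    bdv_J y U q J hq hU hUy hJ2, bdv_ge U q, fun j => bdv_lt U q j hq hU, ?_, ?_, ?_, ?_⟩
  · intro j hj
    have h1 := hJ2 j hj
    have h2 : v (j + 1) = v j + v j / q := bdv_succ U q j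
    have h3 : v j / q ≤ v j := Nat.div_le_self _ _
    rw [h2]
    omega
  · intro k
    have hterm : ∀ j m, m ∈ Ioc (v j) (v (j + 1)) →
        |∑ n ∈ Ioc (max U (y / v (j + 1))) (y / m), (if m * n = k then lam m * cc n else 0)|
          ≤ if m ∈ k.divisors then |lam m| * |cc (k / m)| else 0 := by
      intro j m hm
      rw [mem_Ioc] at hm
      apply bd_one _ _ _ (by omega)
      intro n hn
      rw [mem_Ioc] at hn
      omega
    calc |∑ j ∈ range J, ∑ m ∈ Ioc (v j) (v (j + 1)),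
            ∑ n ∈ Ioc (max U (y / v (j + 1))) (y / m), (if m * n = k then lam m * cc n else 0)|
        ≤ ∑ j ∈ range J, ∑ m ∈ Ioc (v j) (v (j + 1)),
            (if m ∈ k.divisors then |lam m| * |cc (k / m)| else 0) := by
          refine le_trans (Finset.abs_sum_le_sum_abs _ _) (Finset.sum_le_sum fun j _ => ?_)
          exact le_trans (Finset.abs_sum_le_sum_abs _ _)
            (Finset.sum_le_sum fun m hm => hterm j m hm)
      _ = ∑ m ∈ Ioc (v 0) (v J), (if m ∈ k.divisors then |lam m| * |cc (k / m)| else 0) :=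
          bd_sum v hsm.monotone J _
      _ = ∑ m ∈ (Ioc (v 0) (v J)).filter (fun m => m ∈ k.divisors), |lam m| * |cc (k / m)| := by
          rw [Finset.sum_filter]
      _ ≤ ∑ m ∈ k.divisors, |lam m| * |cc (k / m)| := by
          apply Finset.sum_le_sum_of_subset_of_nonneg
          · intro m hm
            exact (Finset.mem_filter.1 hm).2
          · intro m _ _
            positivity
  · intro k hk
    apply Finset.sum_eq_zero
    intro j _
    apply Finset.sum_eq_zero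
    intro m hm
    apply Finset.sum_eq_zero
    intro n hn
    rw [if_neg]
    intro hmn
    apply hk
    rw [mem_Ioc] at hm hn ⊢
    have hvj := hvpos (j + 1)
    have hvj0 := hvpos j
    have hm1 : 1 ≤ m := by omega
    have hn1 : 1 ≤ n := by omega
    have hky : k ≤ y := by
      rw [← hmn, mul_comm]
      exact (Nat.le_div_iff_mul_le (by omega)).1 hn.2
    refine ⟨?_, hky⟩
    by_contra hcon
    have hk1 : 1 ≤ k := by
      rw [← hmn]
      exact Nat.mul_pos (by omega) (by omega)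
    have h1 : k + y / q + 1 ≤ y := by omega
    have h2 : y < q * (y / q) + q := by
      have h4 := Nat.div_add_mod y q
      have h5 := Nat.mod_lt y (show 0 < q by omega)
      omega
    have h3 : q * k + y < q * y := by
      have h4 : q * (k + y / q + 1) ≤ q * y := Nat.mul_le_mul_left q h1
      have h5 : q * (k + y / q + 1) = q * k + q * (y / q) + q := by ring
      omega
    have h6 : y < n * v (j + 1) := by
      have h7 : y / v (j + 1) < n := lt_of_le_of_lt (le_max_right _ _) hn.1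
      exact (Nat.div_lt_iff_lt_mul (by omega)).1 h7
    have h8 : q * v (j + 1) ≤ (q + 1) * v j := bdv_q U q j
    have h9 : q * y ≤ q * (n * v (j + 1)) := Nat.mul_le_mul_left q h6.le
    have h10 : n * (q * v (j + 1)) ≤ n * ((q + 1) * v j) := Nat.mul_le_mul_left n h8
    have h11 : n * (q + 1) * v j ≤ n * (q + 1) * m := Nat.mul_le_mul_left _ hm.1.le
    have h12 : n * (q + 1) * m = q * k + k := by
      rw [← hmn]
      ring
    have h13 : q * (n * v (j + 1)) = n * (q * v (j + 1)) := by ring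
    have h14 : n * ((q + 1) * v j) = n * (q + 1) * v j := by ring
    omega
  · intro g
    have hext : ∑ m ∈ Ioc U y, ((lam m : ℝ) : ℂ) *
          ∑ n ∈ Ioc U (y / m), ((cc n : ℝ) : ℂ) * g (m * n)
        = ∑ m ∈ Ioc (v 0) (v J), ((lam m : ℝ) : ℂ) *
          ∑ n ∈ Ioc U (y / m), ((cc n : ℝ) : ℂ) * g (m * n) := by
      apply Finset.sum_subset
      · intro m hm
        rw [mem_Ioc] at hm ⊢
        have h0 : v 0 = U := rfl
        rw [h0]
        omega
      · intro m hm hm2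
        rw [mem_Ioc] at hm hm2
        have h0 : v 0 = U := rfl
        rw [h0] at hm
        have hmy : y < m := by
          by_contra hc
          exact hm2 ⟨hm.1, by omega⟩
        rw [Nat.div_eq_of_lt hmy]
        rw [Finset.Ioc_eq_empty (by omega)]
        simp
    rw [hext, ← bd_sum v hsm.monotone J]
    have hsplit : ∀ j m, m ∈ Ioc (v j) (v (j + 1)) →
        ((lam m : ℝ) : ℂ) * ∑ n ∈ Ioc U (y / m), ((cc n : ℝ) : ℂ) * g (m * n)
          = ((lam m : ℝ) : ℂ) * ∑ n ∈ Ioc U (y / v (j + 1)), ((cc n : ℝ) : ℂ) * g (m * n)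
            + ∑ n ∈ Ioc (max U (y / v (j + 1))) (y / m),
                ((lam m : ℝ) : ℂ) * (((cc n : ℝ) : ℂ) * g (m * n)) := by
      intro j m hm
      rw [mem_Ioc] at hm
      have hvj0 := hvpos j
      have hle : y / v (j + 1) ≤ y / m := Nat.div_le_div_left hm.2 (by omega)
      rw [← Finset.mul_sum, ← mul_add]
      congr 1
      by_cases hc : U ≤ y / v (j + 1)
      · rw [max_eq_right hc]
        exact (Finset.sum_Ioc_consecutive _ hc hle).symm
      · rw [max_eq_left (by omega)]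
        rw [Finset.Ioc_eq_empty (show ¬ U < y / v (j + 1) by omega)]
        simp
    rw [Finset.sum_congr rfl fun j _ => Finset.sum_congr rfl fun m hm => hsplit j m hm]
    simp only [Finset.sum_add_distrib]
    congr 1
    have hk : ∀ k, (((∑ j ∈ range J, ∑ m ∈ Ioc (v j) (v (j + 1)),
        ∑ n ∈ Ioc (max U (y / v (j + 1))) (y / m), (if m * n = k then lam m * cc n else 0) : ℝ)) : ℂ) * g k
        = ∑ j ∈ range J, ∑ m ∈ Ioc (v j) (v (j + 1)),
          ∑ n ∈ Ioc (max U (y / v (j + 1))) (y / m),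
            (if m * n = k then ((lam m : ℝ) : ℂ) * (((cc n : ℝ) : ℂ) * g (m * n)) else 0) := by
      intro k
      push_cast
      rw [Finset.sum_mul]
      refine Finset.sum_congr rfl fun j _ => ?_
      rw [Finset.sum_mul]
      refine Finset.sum_congr rfl fun m _ => ?_
      rw [Finset.sum_mul]
      refine Finset.sum_congr rfl fun n _ => ?_
      split_ifs with h
      · rw [← h]
        push_cast
        ring
      · rw [Complex.ofReal_zero, zero_mul]
    rw [Finset.sum_congr rfl fun k _ => hk k]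
    rw [Finset.sum_comm]
    refine Finset.sum_congr rfl fun j _ => ?_
    rw [Finset.sum_comm]
    refine Finset.sum_congr rfl fun m hm => ?_
    rw [Finset.sum_comm]
    refine Finset.sum_congr rfl fun n hn => ?_
    rw [mem_Ioc] at hm hn
    have hvj0 := hvpos j
    have hmem : m * n ∈ Icc 1 y := by
      rw [mem_Icc]
      constructor
      · exact Nat.mul_pos (by omega) (by omega)
      · rw [mul_comm]
        exact (Nat.le_div_iff_mul_le (by omega)).1 hn.2
    rw [Finset.sum_ite_eq, if_pos hmem]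

end Pool.Agent.H80.LV

end

section

/-!
# EHB SmallA: pairs with small difference; tails

Fix a real `α` and `d ≥ 1`.
`near_pairs`: pairs `k1, k2 ∈ ks K`, `0 < |k2 - k1| < r0`, `d ∣ k2 - k1`, any measurable `S`:
 each `‖IpS‖ ≤ (Wk + Wk)/2 ≤ 2 A (1/|k1| + 1/|k2|) S2` (`IpS_le`, `Wk_le`; `|k| ≤ K ≤ A ≤ A |r|`), for given `k` there are at most
 `2 r0/d` integers `k'` with `d ∣ k' - k`, `0 < |k' - k| < r0`; so the sum is `≤ 4 A S2 (2 r0/d) ∑_k 1/|k| ≤ 16 A (1 + log K) (r0/d) S2`.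
`equal_pairs`: pairs `k1 = k2 = k`, `S = Icc (-Y) Y`, `K Y ≤ 1/2`: `IpS` is `∫_{|y| ≤ Y} A |FF(α + k y)|^2 dy = (A/|k|) ∫_{|θ| ≤ |k| Y} |FF(α+θ)|^2`
 `≤ (A/|k|) S2` (an interval of length ≤ 1, `FF_parseval`).
-/

set_option autoImplicit false

namespace Pool.Agent.H76.EHB

open Finset MeasureTheory

theorem SmallA_window (f : ℕ → ℝ) (N : ℕ) (u v : ℝ) (huv : u ≤ v) (hv : v ≤ u + 1) :
    ∫ t in u..v, ‖FF f N t‖ ^ 2 ≤ S2 f N := by
  rw [← FF_parseval f N u]
  apply intervalIntegral.integral_mono_interval le_rfl huv hv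
  · exact Filter.Eventually.of_forall fun t => by positivity
  · exact (((FF_continuous f N).norm).pow 2).intervalIntegrable _ _

end Pool.Agent.H76.EHB

end

section

/-!
# W JredE: from `JJT` to the damped integrals `II S (ge ..)`

Proof.  Compare `EHB.JJ_le` (`H76/EHB/Jred.lean`).  Split `[-Y, Y]` at 0.  For `0 < y ≤ Y`, `s = ±1`, `k ∈ S` (`k ≥ 1`):
`F(α + s k y) ee(-a s k y) = ge f N α a Θ s (k y) + F(α + s k y) ee(-a s k y) (1 - exp(-k y/Θ))`.  So
`‖∑_k F(α + s k y) ee(..)‖^2 ≤ 2 ‖∑_k ge(k y)‖^2 + 2 ‖E(y)‖^2`, `‖E(y)‖^2 ≤ |S| ∑_k (K Y/Θ)^2 |F(α + s k y)|^2`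
(`0 ≤ 1 - e^{-u} ≤ u`), and `∫_0^Y |F(α + s k y)|^2 dy = (1/k) ∫_0^{kY} |F(α + s θ)|^2 dθ ≤ S2/k` as `k Y ≤ 1`
(`SmallA_window`, `FF_parseval`).  Two halves: error `≤ 2 · 2 |S| (K Y/Θ)^2 (∑ 1/k) S2`.  The integral of `‖∑ ge‖^2` over
`(0, Y]` is at most that over `(0, ∞)` (integrability: `ge` is bounded by `(∑|f|) exp(-θ/Θ)` and measurable, `k ≥ 1`; if
`S` is empty everything is 0).
-/

set_option autoImplicit false

namespace Pool.Agent.H35.W

open Finset MeasureTheory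
open Pool.Agent.H91.PK (ee)
open Pool.Agent.H76.EHB

private theorem JredE_norm_ee (t : ℝ) : ‖ee t‖ = 1 := Pool.Agent.H91.PK.LSa_norm_ee t

theorem ge_measurable (f : ℕ → ℝ) (N : ℕ) (α a Θ s : ℝ) : Measurable (ge f N α a Θ s) := by
  unfold ge
  refine Measurable.ite (measurableSet_Ioi (a := (0 : ℝ))) ?_ measurable_const
  have h1 : Continuous (fun θ : ℝ => FF f N (α + s * θ)) :=
    (FF_continuous f N).comp (by fun_prop)
  have h2 : Continuous (fun θ : ℝ => ee (-(a * s * θ))) := continuous_ee.comp (by fun_prop)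
  have h3 : Continuous (fun θ : ℝ => ((Real.exp (-(θ / Θ)) : ℝ) : ℂ)) := by fun_prop
  exact ((h1.mul h2).mul h3).measurable

/-- the norm of `ge` at a positive point -/
private theorem JredE_norm_ge (f : ℕ → ℝ) (N : ℕ) (α a Θ s θ : ℝ) (hθ : 0 < θ) :
    ‖ge f N α a Θ s θ‖ = ‖FF f N (α + s * θ)‖ * Real.exp (-(θ / Θ)) := by
  unfold ge
  rw [if_pos hθ, norm_mul, norm_mul, JredE_norm_ee, mul_one, Complex.norm_real, Real.norm_eq_abs,
    abs_of_pos (Real.exp_pos _)]

theorem norm_ge_le (f : ℕ → ℝ) (N : ℕ) (α a Θ s θ : ℝ) (hθ : 0 < θ) :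
    ‖ge f N α a Θ s θ‖ ≤ (∑ n ∈ Icc 1 N, |f n|) * Real.exp (-(θ / Θ)) := by
  rw [JredE_norm_ge f N α a Θ s θ hθ]
  exact mul_le_mul_of_nonneg_right (norm_FF_le f N _) (Real.exp_pos _).le

/-- windows of length at most one, both signs -/
private theorem JredE_window (f : ℕ → ℝ) (N : ℕ) (α s u v : ℝ) (hs : s = 1 ∨ s = -1)
    (huv : u ≤ v) (hv : v ≤ u + 1) :
    ∫ θ in u..v, ‖FF f N (α + s * θ)‖ ^ 2 ≤ S2 f N := by
  rcases hs with rfl | rfl
  · have h := intervalIntegral.integral_comp_add_left (a := u) (b := v)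
      (fun t => ‖FF f N t‖ ^ 2) α
    simp only [one_mul]
    rw [h]
    exact SmallA_window f N _ _ (by linarith) (by linarith)
  · have h := intervalIntegral.integral_comp_sub_left (a := u) (b := v)
      (fun t => ‖FF f N t‖ ^ 2) α
    have e : ∀ θ : ℝ, α + -1 * θ = α - θ := fun θ => by ring
    simp only [e]
    rw [h]
    exact SmallA_window f N _ _ (by linarith) (by linarith)

private theorem JredE_FF_cont (f : ℕ → ℝ) (N : ℕ) (α s : ℝ) :
    Continuous (fun θ : ℝ => ‖FF f N (α + s * θ)‖ ^ 2) :=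
  (((FF_continuous f N).comp (by fun_prop : Continuous fun θ : ℝ => α + s * θ)).norm).pow 2

/-- the `L^2` norm of the damped function -/
theorem ge_L2 (f : ℕ → ℝ) (N : ℕ) (α a Θ s : ℝ) (hΘ0 : 0 < Θ) (hΘ : Θ ≤ 1) (hs : s = 1 ∨ s = -1) :
    ∫ θ in Set.Ioi (0 : ℝ), ‖ge f N α a Θ s θ‖ ^ 2 ≤ 2 * S2 f N := by
  have hS2 := S2_nonneg f N
  have hcont : Continuous (fun θ : ℝ => Real.exp (-(2 * θ)) * ‖FF f N (α + s * θ)‖ ^ 2) :=
    (by fun_prop : Continuous fun θ : ℝ => Real.exp (-(2 * θ))).mul (JredE_FF_cont f N α s)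
  have hint : IntegrableOn (fun θ : ℝ => Real.exp (-(2 * θ)) * ‖FF f N (α + s * θ)‖ ^ 2)
      (Set.Ioi (0 : ℝ)) := by
    have h1 : IntegrableOn (fun θ : ℝ => Real.exp (-2 * θ)) (Set.Ioi (0 : ℝ)) :=
      exp_neg_integrableOn_Ioi 0 (by norm_num)
    have h2 : IntegrableOn (fun θ : ℝ => ((N : ℝ) * S2 f N) * Real.exp (-2 * θ))
      (Set.Ioi (0 : ℝ)) := h1.const_mul _
    refine Integrable.mono' h2 hcont.aestronglyMeasurable ?_
    refine Filter.Eventually.of_forall fun θ => ?_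
    have h3 := norm_FF_sq_le f N (α + s * θ)
    rw [Real.norm_eq_abs, abs_of_nonneg (by positivity), mul_comm]
    have e : -(2 * θ) = -2 * θ := by ring
    rw [e]
    exact mul_le_mul_of_nonneg_right h3 (Real.exp_pos _).le
  have hle : ∫ θ in Set.Ioi (0 : ℝ), ‖ge f N α a Θ s θ‖ ^ 2
      ≤ ∫ θ in Set.Ioi (0 : ℝ), Real.exp (-(2 * θ)) * ‖FF f N (α + s * θ)‖ ^ 2 := by
    apply integral_mono_of_nonneg
    · exact Filter.Eventually.of_forall fun y => sq_nonneg _
    · exact hint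
    · refine (ae_restrict_iff' measurableSet_Ioi).2 (Filter.Eventually.of_forall ?_)
      intro θ hθ
      have hθ0 : (0 : ℝ) < θ := hθ
      simp only
      rw [JredE_norm_ge f N α a Θ s θ hθ0, mul_pow, mul_comm]
      apply mul_le_mul_of_nonneg_right _ (sq_nonneg _)
      rw [← Real.exp_nat_mul]
      apply Real.exp_le_exp.2
      have h1 : θ ≤ θ / Θ := by
        rw [le_div_iff₀ hΘ0]
        nlinarith only [hΘ, hθ0]
      push_cast
      linarith only [h1]
  refine hle.trans ?_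
  have hlim := intervalIntegral_tendsto_integral_Ioi (μ := volume) (l := Filter.atTop)
    (b := fun M : ℕ => (M : ℝ)) 0 hint tendsto_natCast_atTop_atTop
  refine le_of_tendsto' hlim fun M => ?_
  have h1 : ∫ θ in (0 : ℝ)..(M : ℝ), Real.exp (-(2 * θ)) * ‖FF f N (α + s * θ)‖ ^ 2
      = ∑ k ∈ range M, ∫ θ in ((k : ℕ) : ℝ)..((k + 1 : ℕ) : ℝ),
          Real.exp (-(2 * θ)) * ‖FF f N (α + s * θ)‖ ^ 2 := by
    have h := intervalIntegral.sum_integral_adjacent_intervals (μ := volume)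
      (f := fun θ => Real.exp (-(2 * θ)) * ‖FF f N (α + s * θ)‖ ^ 2) (a := fun k : ℕ => (k : ℝ))
      (n := M) (fun k _ => hcont.intervalIntegrable _ _)
    rw [h, Nat.cast_zero]
  rw [h1]
  have h2 : ∀ k ∈ range M, ∫ θ in ((k : ℕ) : ℝ)..((k + 1 : ℕ) : ℝ),
      Real.exp (-(2 * θ)) * ‖FF f N (α + s * θ)‖ ^ 2 ≤ (1 / 2) ^ k * S2 f N := by
    intro k _
    have hk1 : ((k : ℕ) : ℝ) ≤ ((k + 1 : ℕ) : ℝ) := by
      push_cast
      linarith
    have h3 : ∫ θ in ((k : ℕ) : ℝ)..((k + 1 : ℕ) : ℝ),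
        Real.exp (-(2 * θ)) * ‖FF f N (α + s * θ)‖ ^ 2
        ≤ ∫ θ in ((k : ℕ) : ℝ)..((k + 1 : ℕ) : ℝ), (1 / 2) ^ k * ‖FF f N (α + s * θ)‖ ^ 2 := by
      apply intervalIntegral.integral_mono_on hk1
      · exact hcont.intervalIntegrable _ _
      · exact (continuous_const.mul (JredE_FF_cont f N α s)).intervalIntegrable _ _
      · rintro θ ⟨hθ1, _⟩
        apply mul_le_mul_of_nonneg_right _ (sq_nonneg _)
        have h4 : Real.exp (-1) ≤ 1 / 2 := by
          rw [Real.exp_neg, one_div]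
          apply inv_anti₀ (by norm_num)
          have := Real.add_one_le_exp (1 : ℝ)
          linarith only [this]
        calc Real.exp (-(2 * θ)) ≤ Real.exp (k * (-1)) := by
              apply Real.exp_le_exp.2
              have : (0 : ℝ) ≤ k := by positivity
              linarith only [hθ1]
          _ = Real.exp (-1) ^ k := by rw [Real.exp_nat_mul]
          _ ≤ (1 / 2) ^ k := pow_le_pow_left₀ (Real.exp_pos _).le h4 k
    refine h3.trans ?_
    rw [intervalIntegral.integral_const_mul]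
    apply mul_le_mul_of_nonneg_left _ (by positivity)
    apply JredE_window f N α s _ _ hs hk1
    push_cast
    linarith only
  refine (Finset.sum_le_sum h2).trans ?_
  rw [← Finset.sum_mul]
  apply mul_le_mul_of_nonneg_right _ hS2
  have h5 := geom_sum_eq (by norm_num : (1 / 2 : ℝ) ≠ 1) M
  have h6 : (0 : ℝ) ≤ (1 / 2) ^ M := by positivity
  have h7 : ((1 / 2 : ℝ) ^ M - 1) / (1 / 2 - 1) = 2 - 2 * (1 / 2) ^ M := by ring
  rw [h5, h7]
  linarith only [h6]

end Pool.Agent.H35.W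

end

section

/-!
# MU GP: the product with the primes of a block

`gP g P n = ∑_{k ∈ pb P, k | n} g(n/k)`.  `gp_FF`: `SG g N P θ = ∑_{k ∈ pb P} ∑_{m ≤ N} g(m) ee(m (k θ))`; put `n = k m ≤ 2 P N ≤ N1` and collect (`n ↦ (k, n/k)`; `g` vanishes outside
`Icc 1 N`, so the condition `n/k ≤ N` may be dropped).  `gp_S2`: at most `log n/log 2 ≤ 2 log N1` primes divide `n` (`n ≤ N1`; `2^{#} ≤ n`), so `|gP| ≤ 2 log N1`; `pb 0` is empty.
-/

set_option autoImplicit false

namespace Pool.Agent.H76.MU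

open Finset MeasureTheory
open Pool.Agent.H91.PK (ee)
open Pool.Agent.H76.EHB
open Pool.Agent.H35.W

/-- `∑_{k ∈ pb P, k | n} g(n/k)` -/
noncomputable def gP (g : ℕ → ℝ) (P n : ℕ) : ℝ :=
  ∑ k ∈ (pb P).filter (fun k => k ∣ n), g (n / k)

private theorem GP_pb {P k : ℕ} (hk : k ∈ pb P) : 0 < k ∧ k ≤ 2 * P ∧ k.Prime := by
  unfold pb at hk
  rw [mem_filter, mem_Ioc] at hk
  exact ⟨by omega, hk.1.2, hk.2⟩

private theorem GP_zero (g : ℕ → ℝ) (N P N1 : ℕ) (hg : ∀ n, n ∉ Icc 1 N → g n = 0)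
    (hN1 : 2 * P * N ≤ N1) (n : ℕ) (hn : n ∉ Icc 1 N1) (k : ℕ) (hk : k ∈ pb P) (hkn : k ∣ n) :
    g (n / k) = 0 := by
  obtain ⟨hk0, hk1, _⟩ := GP_pb hk
  apply hg
  intro h
  apply hn
  rw [mem_Icc] at h ⊢
  obtain ⟨m, rfl⟩ := hkn
  rw [Nat.mul_div_cancel_left m hk0] at h
  constructor
  · exact Nat.mul_pos hk0 h.1
  · calc k * m ≤ (2 * P) * N := Nat.mul_le_mul hk1 h.2
      _ ≤ N1 := hN1

theorem gp_supp (g : ℕ → ℝ) (N P N1 : ℕ) (hg : ∀ n, n ∉ Icc 1 N → g n = 0)
    (hN1 : 2 * P * N ≤ N1) (n : ℕ) (hn : n ∉ Icc 1 N1) : gP g P n = 0 := by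
  unfold gP
  refine sum_eq_zero fun k hk => ?_
  rw [mem_filter] at hk
  exact GP_zero g N P N1 hg hN1 n hn k hk.1 hk.2

theorem gp_FF (g : ℕ → ℝ) (N P N1 : ℕ) (hg : ∀ n, n ∉ Icc 1 N → g n = 0)
    (hN1 : 2 * P * N ≤ N1) (θ : ℝ) : FF (gP g P) N1 θ = SG g N P θ := by
  unfold FF SG gP
  have h1 : ∀ n ∈ Icc 1 N1,
      ((∑ k ∈ (pb P).filter (fun k => k ∣ n), g (n / k) : ℝ) : ℂ) * ee (n * θ) =
        ∑ k ∈ pb P, if k ∣ n then (g (n / k) : ℂ) * ee (n * θ) else 0 := by
    intro n _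
    rw [sum_filter, Complex.ofReal_sum, sum_mul]
    refine sum_congr rfl fun k _ => ?_
    split_ifs <;> simp
  rw [sum_congr rfl h1, sum_comm]
  refine sum_congr rfl fun k hk => ?_
  obtain ⟨hk0, hk1, _⟩ := GP_pb hk
  rw [← sum_filter]
  unfold FF
  have hinj : ∀ a ∈ Icc 1 N, ∀ b ∈ Icc 1 N, k * a = k * b → a = b := fun a _ b _ h =>
    Nat.eq_of_mul_eq_mul_left hk0 h
  have h2 : ∑ m ∈ Icc 1 N, (g m : ℂ) * ee (m * (k * θ)) =
      ∑ n ∈ (Icc 1 N).image (fun m => k * m), (g (n / k) : ℂ) * ee (n * θ) := by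
    rw [sum_image hinj]
    refine sum_congr rfl fun m _ => ?_
    rw [Nat.mul_div_cancel_left m hk0]
    push_cast
    congr 2
    ring
  rw [h2]
  symm
  refine sum_subset ?_ ?_
  · intro n hn
    rw [mem_image] at hn
    obtain ⟨m, hm, rfl⟩ := hn
    rw [mem_Icc] at hm
    rw [mem_filter, mem_Icc]
    refine ⟨⟨Nat.mul_pos hk0 hm.1, ?_⟩, dvd_mul_right k m⟩
    calc k * m ≤ (2 * P) * N := Nat.mul_le_mul hk1 hm.2
      _ ≤ N1 := hN1
  · intro n hn hn'
    rw [mem_filter] at hn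
    obtain ⟨_, m, rfl⟩ := hn
    have h3 : g (k * m / k) = 0 := by
      apply hg
      rw [Nat.mul_div_cancel_left m hk0]
      intro hm
      exact hn' (mem_image.2 ⟨m, hm, rfl⟩)
    rw [h3]
    simp

theorem gp_S2 (g : ℕ → ℝ) (P N1 : ℕ) (hb : ∀ n, |g n| ≤ 1) :
    S2 (gP g P) N1 ≤ N1 * (2 * Real.log N1) ^ 2 := by
  unfold S2
  have h1 : ∀ n ∈ Icc 1 N1, gP g P n ^ 2 ≤ (2 * Real.log N1) ^ 2 := by
    intro n hn
    rw [mem_Icc] at hn
    have hn0 : (0 : ℝ) < n := by exact_mod_cast (show 0 < n by omega)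
    have hN0 : (1 : ℝ) ≤ N1 := by exact_mod_cast (show 1 ≤ N1 by omega)
    set S : Finset ℕ := (pb P).filter (fun k => k ∣ n) with hS
    have h2 : |gP g P n| ≤ (S.card : ℝ) := by
      unfold gP
      refine (abs_sum_le_sum_abs _ _).trans ?_
      refine (sum_le_sum fun k _ => hb (n / k)).trans ?_
      rw [sum_const, nsmul_eq_mul, mul_one]
    have h3 : ∏ p ∈ S, p ∣ n := by
      refine Finset.prod_primes_dvd n (fun p hp => ?_) fun p hp => ?_
      · rw [hS, mem_filter] at hp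
        exact (GP_pb hp.1).2.2.prime
      · rw [hS, mem_filter] at hp
        exact hp.2
    have h4 : 2 ^ S.card ≤ n := by
      refine le_trans ?_ (Nat.le_of_dvd (by omega) h3)
      rw [← prod_const]
      refine prod_le_prod' fun p hp => ?_
      rw [hS, mem_filter] at hp
      exact (GP_pb hp.1).2.2.two_le
    have h5 : (S.card : ℝ) * Real.log 2 ≤ Real.log N1 := by
      have h6 : ((2 : ℝ) ^ S.card) ≤ N1 := by
        have : 2 ^ S.card ≤ N1 := h4.trans hn.2
        exact_mod_cast this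
      have h7 := Real.log_le_log (by positivity) h6
      rwa [Real.log_pow] at h7
    have h8 := Real.log_two_gt_d9
    have h9 : (0 : ℝ) ≤ S.card := Nat.cast_nonneg _
    have h10 : (S.card : ℝ) ≤ 2 * Real.log N1 := by nlinarith only [h5, h8]
    rw [← sq_abs]
    exact pow_le_pow_left₀ (abs_nonneg _) (h2.trans h10) 2
  refine (sum_le_sum h1).trans ?_
  rw [sum_const, Nat.card_Icc, nsmul_eq_mul, Nat.add_sub_cancel]

end Pool.Agent.H76.MU

end

section

/-!
# MU Ram: the identity of Ramaré for the Liouville function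

`gP (gl 1 P J) (P 2^i) n = ∑_{p ∈ pb (P 2^i), p | n} lio(n/p)/(1 + Om P J (n/p))` and for a prime `p | n`, `P < p ≤ P 2^J`: `lio(n/p) = -lio n` (`lio_mul`, `lio_prime`),
`1 + Om P J (n/p) = Om P J n` (`Om_mul`, `Om_prime`).  So `∑_{i<J} gP .. = -lio n · ω/Om`, `ω` the number of distinct primes of `n` in `(P, P 2^J]`
(the blocks `pb (P 2^i)`, `i < J`, partition them).  `ω = 0`: `Rk P J n` holds, `|lio n| ≤ 1`.  `ω = Om ≥ 1` (no square factor `p^2`): the left side is `0`.  Otherwise `0 ≤ 1 - ω/Om ≤ 1`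
and some `p^2 ∣ n` with `p > P`.
-/

set_option autoImplicit false

namespace Pool.Agent.H76.MU

open Finset MeasureTheory
open Pool.Agent.H91.PK (ee)
open Pool.Agent.H76.EHB
open Pool.Agent.H35.W

open Classical in
/-- the indicator of the rough numbers plus the indicator of the multiples of squares of primes `> P` -/
noncomputable def er (P J n : ℕ) : ℝ :=
  (if Rk P J n then 1 else 0) + (if ∃ p, P < p ∧ p.Prime ∧ p ^ 2 ∣ n then 1 else 0)

private theorem Ram_block (P p : ℕ) (hP : P < p) : ∀ J : ℕ, p ≤ P * 2 ^ J →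
    ∃ i < J, P * 2 ^ i < p ∧ p ≤ 2 * (P * 2 ^ i) := by
  intro J
  induction J with
  | zero =>
    intro h
    rw [pow_zero, mul_one] at h
    omega
  | succ J ih =>
    intro h
    by_cases h1 : p ≤ P * 2 ^ J
    · obtain ⟨i, hi, h2⟩ := ih h1
      exact ⟨i, by omega, h2⟩
    · refine ⟨J, by omega, by omega, ?_⟩
      rw [pow_succ] at h
      calc p ≤ P * (2 ^ J * 2) := h
        _ = 2 * (P * 2 ^ J) := by ring

private theorem Ram_mono (P i j : ℕ) (h : i < j) : 2 * (P * 2 ^ i) ≤ P * 2 ^ j := by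
  calc 2 * (P * 2 ^ i) = P * 2 ^ (i + 1) := by ring
    _ ≤ P * 2 ^ j := Nat.mul_le_mul_left _ (Nat.pow_le_pow_right (by norm_num) h)

private theorem Ram_mem (P J n i k : ℕ) (hn : n ≠ 0) (hi : i < J) (hk : k ∈ pb (P * 2 ^ i))
    (hkn : k ∣ n) : k ∈ n.primeFactors.filter (fun p => P < p ∧ p ≤ P * 2 ^ J) := by
  unfold pb at hk
  rw [mem_filter, mem_Ioc] at hk
  rw [mem_filter, Nat.mem_primeFactors]
  refine ⟨⟨hk.2, hkn, hn⟩, ?_, ?_⟩
  · have : P ≤ P * 2 ^ i := Nat.le_mul_of_pos_right _ (by positivity)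
    omega
  · have := Ram_mono P i J hi
    omega

private theorem Ram_union (P J n : ℕ) (hn : n ≠ 0) :
    (range J).biUnion (fun i => (pb (P * 2 ^ i)).filter (fun k => k ∣ n)) =
      n.primeFactors.filter (fun p => P < p ∧ p ≤ P * 2 ^ J) := by
  ext p
  rw [mem_biUnion]
  constructor
  · rintro ⟨i, hi, hp⟩
    rw [mem_filter] at hp
    exact Ram_mem P J n i p hn (mem_range.1 hi) hp.1 hp.2
  · intro hp
    rw [mem_filter, Nat.mem_primeFactors] at hp
    obtain ⟨⟨hpp, hpn, _⟩, h1, h2⟩ := hp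
    obtain ⟨i, hi, h3, h4⟩ := Ram_block P p h1 J h2
    refine ⟨i, mem_range.2 hi, ?_⟩
    rw [mem_filter]
    unfold pb
    rw [mem_filter, mem_Ioc]
    exact ⟨⟨⟨h3, h4⟩, hpp⟩, hpn⟩

private theorem Ram_disj (P J n : ℕ) :
    (range J : Set ℕ).PairwiseDisjoint (fun i => (pb (P * 2 ^ i)).filter (fun k => k ∣ n)) := by
  intro i _ j _ hij
  have aux : ∀ i j : ℕ, i < j → ∀ p, p ∈ (pb (P * 2 ^ i)).filter (fun k => k ∣ n) →
      p ∈ (pb (P * 2 ^ j)).filter (fun k => k ∣ n) → False := by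
    intro i j h p h1 h2
    unfold pb at h1 h2
    rw [mem_filter, mem_filter, mem_Ioc] at h1 h2
    have := Ram_mono P i j h
    omega
  rw [Function.onFun, Finset.disjoint_left]
  intro p h1 h2
  rcases lt_or_gt_of_ne hij with h | h
  · exact aux i j h p h1 h2
  · exact aux j i h p h2 h1

private theorem Ram_term (P J n k : ℕ) (hn : n ≠ 0)
    (hk : k ∈ n.primeFactors.filter (fun p => P < p ∧ p ≤ P * 2 ^ J)) :
    gl 1 P J (n / k) = -(lio n / (Om P J n : ℝ)) := by
  rw [mem_filter, Nat.mem_primeFactors] at hk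
  obtain ⟨⟨hp, hkn, _⟩, h1, h2⟩ := hk
  obtain ⟨m, rfl⟩ := hkn
  have hk0 : k ≠ 0 := hp.ne_zero
  have hm0 : m ≠ 0 := by
    rintro rfl
    exact hn (mul_zero _)
  rw [Nat.mul_div_cancel_left m (Nat.pos_of_ne_zero hk0), lio_mul, lio_prime k hp,
    Om_mul P J k m hk0 hm0, Om_prime P J k hp, if_pos ⟨h1, h2⟩]
  unfold gl
  push_cast
  ring

theorem ram (P J n : ℕ) (hn : n ≠ 0) :
    |lio n + ∑ i ∈ range J, gP (gl 1 P J) (P * 2 ^ i) n| ≤ er P J n := by
  classical
  set D := n.primeFactors.filter (fun p => P < p ∧ p ≤ P * 2 ^ J) with hD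
  have hsum : ∑ i ∈ range J, gP (gl 1 P J) (P * 2 ^ i) n =
      -((D.card : ℝ) * (lio n / (Om P J n : ℝ))) := by
    unfold gP
    rw [← Finset.sum_biUnion (Ram_disj P J n), Ram_union P J n hn, ← hD,
      Finset.sum_congr rfl fun k hk => Ram_term P J n k hn hk, Finset.sum_const, nsmul_eq_mul]
    ring
  rw [hsum]
  have hOm : Om P J n = ∑ p ∈ D, n.factorization p := rfl
  have hfac : ∀ p ∈ D, 1 ≤ n.factorization p := by
    intro p hp
    rw [hD, mem_filter, Nat.mem_primeFactors] at hp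
    exact (Nat.Prime.dvd_iff_one_le_factorization hp.1.1 hn).1 hp.1.2.1
  have hle : D.card ≤ Om P J n := by
    rw [hOm]
    calc D.card = ∑ _p ∈ D, 1 := by simp
      _ ≤ _ := Finset.sum_le_sum hfac
  have her : er P J n = (if Rk P J n then (1 : ℝ) else 0) +
      (if ∃ p, P < p ∧ p.Prime ∧ p ^ 2 ∣ n then (1 : ℝ) else 0) := by
    unfold er
    congr
  have h2nn : (0 : ℝ) ≤ (if ∃ p, P < p ∧ p.Prime ∧ p ^ 2 ∣ n then (1 : ℝ) else 0) := by
    split_ifs <;> norm_num
  have h1nn : (0 : ℝ) ≤ (if Rk P J n then (1 : ℝ) else 0) := by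
    split_ifs <;> norm_num
  rw [her]
  rcases Nat.eq_zero_or_pos D.card with h0 | hpos
  · -- no prime factor in the range
    have hRk : Rk P J n := by
      intro i hi p hp hpn
      have := Ram_mem P J n i p hn hi hp hpn
      rw [← hD, Finset.card_eq_zero.1 h0] at this
      exact absurd this (Finset.notMem_empty p)
    rw [if_pos hRk, h0, Nat.cast_zero, zero_mul, neg_zero, add_zero]
    have := lio_abs_le n
    linarith only [h2nn, this]
  · have hOpos : (0 : ℝ) < (Om P J n : ℝ) := by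
      exact_mod_cast lt_of_lt_of_le hpos hle
    have hq0 : (0 : ℝ) ≤ 1 - (D.card : ℝ) / (Om P J n : ℝ) := by
      rw [sub_nonneg, div_le_one hOpos]
      exact_mod_cast hle
    have hq1 : 1 - (D.card : ℝ) / (Om P J n : ℝ) ≤ 1 := by
      have : (0 : ℝ) ≤ (D.card : ℝ) / (Om P J n : ℝ) := by positivity
      linarith only [this]
    have hrw : lio n + -((D.card : ℝ) * (lio n / (Om P J n : ℝ))) =
        lio n * (1 - (D.card : ℝ) / (Om P J n : ℝ)) := by ring
    rw [hrw, abs_mul, abs_of_nonneg hq0]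
    by_cases heq : D.card = Om P J n
    · have : 1 - (D.card : ℝ) / (Om P J n : ℝ) = 0 := by
        rw [heq, div_self hOpos.ne', sub_self]
      rw [this, mul_zero]
      linarith only [h2nn, h1nn]
    · -- some square
      have hex : ∃ p ∈ D, 2 ≤ n.factorization p := by
        by_contra hno
        push Not at hno
        apply heq
        rw [hOm]
        calc D.card = ∑ _p ∈ D, 1 := by simp
          _ = ∑ p ∈ D, n.factorization p := by
            refine Finset.sum_congr rfl fun p hp => ?_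
            have h3 := hfac p hp
            have h4 := hno p hp
            omega
      obtain ⟨p, hp, h2⟩ := hex
      have hsq : ∃ p, P < p ∧ p.Prime ∧ p ^ 2 ∣ n := by
        rw [hD, mem_filter, Nat.mem_primeFactors] at hp
        exact ⟨p, hp.2.1, hp.1.1, (hp.1.1.pow_dvd_iff_le_factorization hn).2 h2⟩
      rw [if_pos hsq]
      have h5 : |lio n| * (1 - (D.card : ℝ) / (Om P J n : ℝ)) ≤ 1 * 1 :=
        mul_le_mul (lio_abs_le n) hq1 hq0 zero_le_one
      linarith only [h1nn, h5]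

end Pool.Agent.H76.MU

end

section

/-!
# MU Fou: comparison of two window lengths by Parseval

Proof.  `D j = Uw G h j/h - Uw G h' j/h'` vanishes outside `Icc 1 (N1 + h')` (for `j = 0` the window `Ico (0 - h) 0` is empty; `G 0 = 0`).
`FF D (N1 + h') θ = FF G N1 θ · (kap h θ - kap h' θ)`: `n ∈ Ico (j - h) j` iff `n < j ≤ n + h` (natural subtraction is harmless), so
`∑_j ee(j θ) Uw G h j = ∑_n G n ∑_{r=1}^h ee((n + r) θ)`.  Parseval (`FF_parseval` in `H76/EHB`, period 1; the integral over `[-1/2, 1/2]` equals that over `[0, 1]`):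
`∑_j D(j)^2 = ∫_{-1/2}^{1/2} |FF G|^2 |kap h - kap h'|^2`.  Now `|kap| ≤ 1`, `|kap h θ - 1| ≤ 2 π h |θ|` (`|ee(r θ) - 1| ≤ 2 π r |θ|`), `|kap h θ| ≤ 1/(2 h |θ|)` for `0 < |θ| ≤ 1/2`
(geometric sum; `|1 - ee θ| ≥ 4|θ|`; `Pool.Agent.H76.SP` has such a bound in `VinD.lean`).  `|θ| ≤ Y0`: the difference is `≤ 2 π (h + h')|θ| ≤ 13 h' Y0`; `|θ| ≥ Y`: `≤ 1/(h Y)`; in between `≤ 2`.
`∫ |FF G|^2 = S2 G N1`.
-/

set_option autoImplicit false

namespace Pool.Agent.H76.MU

open Finset MeasureTheory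
open Pool.Agent.H91.PK (ee)
open Pool.Agent.H76.EHB
open Pool.Agent.H35.W

private theorem fou_ee_eq (t : ℝ) : ee t = Complex.exp (Complex.I * ((2 * Real.pi * t : ℝ) : ℂ)) := by
  unfold ee
  congr 1
  push_cast
  ring

private theorem fou_ee_sub_one (t : ℝ) : ‖ee t - 1‖ ≤ 2 * Real.pi * |t| := by
  rw [fou_ee_eq]
  refine (Real.norm_exp_I_mul_ofReal_sub_one_le).trans (le_of_eq ?_)
  rw [Real.norm_eq_abs, abs_mul, abs_mul, abs_of_pos Real.pi_pos, abs_of_pos (by norm_num : (0 : ℝ) < 2)]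

private theorem fou_ee_sub_one_ge (t : ℝ) (ht : |t| ≤ 1 / 2) : 4 * |t| ≤ ‖ee t - 1‖ := by
  rw [fou_ee_eq, Complex.norm_exp_I_mul_ofReal_sub_one, Real.norm_eq_abs, abs_mul,
    abs_of_pos (by norm_num : (0 : ℝ) < 2)]
  have e1 : (2 * Real.pi * t) / 2 = Real.pi * t := by ring
  rw [e1]
  have h1 : |Real.sin (Real.pi * t)| = |Real.sin (Real.pi * |t|)| := by
    rcases abs_choice t with h | h
    · rw [h]
    · rw [h, mul_neg, Real.sin_neg, abs_neg]
  rw [h1]
  have hp := Real.pi_pos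
  have h2 : 2 / Real.pi * (Real.pi * |t|) ≤ Real.sin (Real.pi * |t|) := by
    apply Real.mul_le_sin (by positivity)
    nlinarith only [ht, hp]
  have h3 : 2 / Real.pi * (Real.pi * |t|) = 2 * |t| := by
    field_simp
  rw [h3] at h2
  have h4 := le_abs_self (Real.sin (Real.pi * |t|))
  linarith only [h2, h4]

private theorem fou_kap_le_one (h : ℕ) (h1 : 1 ≤ h) (θ : ℝ) : ‖kap h θ‖ ≤ 1 := by
  have hh : (0 : ℝ) < h := by exact_mod_cast h1
  unfold kap
  rw [norm_mul, norm_div, norm_one, Complex.norm_natCast]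
  have h2 : ‖∑ r ∈ Icc 1 h, ee (r * θ)‖ ≤ h := by
    refine (norm_sum_le _ _).trans (le_of_eq ?_)
    simp only [norm_ee, sum_const, Nat.card_Icc, Nat.add_sub_cancel, nsmul_eq_mul, mul_one]
  rw [one_div, inv_mul_le_iff₀ hh, mul_one]
  exact h2

private theorem fou_kap_near (h : ℕ) (h1 : 1 ≤ h) (θ : ℝ) :
    ‖kap h θ - 1‖ ≤ 2 * Real.pi * h * |θ| := by
  have hh : (0 : ℝ) < h := by exact_mod_cast h1
  have hc : (h : ℂ) ≠ 0 := by exact_mod_cast hh.ne'
  have hp := Real.pi_pos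
  have e1 : kap h θ - 1 = (1 / (h : ℂ)) * ∑ r ∈ Icc 1 h, (ee (r * θ) - 1) := by
    unfold kap
    rw [sum_sub_distrib, sum_const, Nat.card_Icc, Nat.add_sub_cancel, nsmul_eq_mul, mul_one, mul_sub,
      one_div, inv_mul_cancel₀ hc]
  rw [e1, norm_mul, norm_div, norm_one, Complex.norm_natCast]
  have h2 : ‖∑ r ∈ Icc 1 h, (ee (r * θ) - 1)‖ ≤ ∑ r ∈ Icc 1 h, 2 * Real.pi * h * |θ| := by
    refine (norm_sum_le _ _).trans (sum_le_sum fun r hr => ?_)
    refine (fou_ee_sub_one _).trans ?_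
    rw [abs_mul, Nat.abs_cast]
    have : (r : ℝ) ≤ h := by exact_mod_cast (mem_Icc.1 hr).2
    have h3 := abs_nonneg θ
    have : (r : ℝ) * |θ| ≤ h * |θ| := mul_le_mul_of_nonneg_right this h3
    nlinarith only [hp, this]
  rw [sum_const, Nat.card_Icc, Nat.add_sub_cancel, nsmul_eq_mul] at h2
  rw [one_div, inv_mul_le_iff₀ hh]
  exact h2

private theorem fou_kap_far (h : ℕ) (h1 : 1 ≤ h) (θ : ℝ) (h0 : θ ≠ 0) (h2 : |θ| ≤ 1 / 2) :
    ‖kap h θ‖ ≤ 1 / (2 * h * |θ|) := by
  have hh : (0 : ℝ) < h := by exact_mod_cast h1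
  have ha : 0 < |θ| := abs_pos.2 h0
  have e1 : (∑ r ∈ Icc 1 h, ee (r * θ)) * (ee θ - 1) = ee ((h + 1) * θ) - ee θ := by
    have : ∀ k : ℕ, (∑ r ∈ Icc 1 k, ee (r * θ)) * (ee θ - 1) = ee ((k + 1) * θ) - ee θ := by
      intro k
      induction k with
      | zero => simp
      | succ k ih =>
        rw [Finset.sum_Icc_succ_top (by omega), add_mul, ih]
        have e2 : ee (((k + 1 : ℕ) : ℝ) * θ) * (ee θ - 1)
            = ee ((((k + 1 : ℕ) : ℝ) + 1) * θ) - ee (((k : ℝ) + 1) * θ) := by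
          rw [mul_sub, ← Pool.Agent.H91.PK.LSa_ee_add, mul_one]
          have e3 : ((k + 1 : ℕ) : ℝ) * θ + θ = (((k + 1 : ℕ) : ℝ) + 1) * θ := by ring
          rw [e3]
          push_cast
          ring
        rw [e2]
        ring
    exact this h
  have h3 : ‖∑ r ∈ Icc 1 h, ee (r * θ)‖ * ‖ee θ - 1‖ ≤ 2 := by
    rw [← norm_mul, e1]
    refine (norm_sub_le _ _).trans ?_
    rw [norm_ee, norm_ee]
    norm_num
  have h4 := fou_ee_sub_one_ge θ h2
  have h5 : ‖∑ r ∈ Icc 1 h, ee (r * θ)‖ * (4 * |θ|) ≤ 2 :=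
    (mul_le_mul_of_nonneg_left h4 (norm_nonneg _)).trans h3
  unfold kap
  rw [norm_mul, norm_div, norm_one, Complex.norm_natCast, one_div, inv_mul_le_iff₀ hh]
  have e4 : (h : ℝ) * (1 / (2 * h * |θ|)) = 1 / (2 * |θ|) := by
    field_simp
  rw [e4, le_div_iff₀ (by positivity)]
  linarith only [h5]

private theorem fou_Uw (G : ℕ → ℝ) (N1 h j : ℕ) (hG : ∀ n, n ∉ Icc 1 N1 → G n = 0) :
    Uw G h j = ∑ n ∈ Icc 1 N1, if n ∈ Ico (j - h) j then G n else 0 := by
  unfold Uw
  rw [← sum_filter]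
  symm
  refine sum_subset (fun n hn => (mem_filter.1 hn).2) fun n hn hn' => hG n fun h2 => hn' ?_
  exact mem_filter.2 ⟨h2, hn⟩

private theorem fou_sum (G : ℕ → ℝ) (N1 h M : ℕ) (θ : ℝ) (hG : ∀ n, n ∉ Icc 1 N1 → G n = 0)
    (hM : N1 + h ≤ M) :
    ∑ j ∈ Icc 1 M, ((Uw G h j : ℝ) : ℂ) * ee (j * θ)
      = FF G N1 θ * ∑ r ∈ Icc 1 h, ee (r * θ) := by
  have e1 : ∀ j ∈ Icc 1 M, ((Uw G h j : ℝ) : ℂ) * ee (j * θ)
      = ∑ n ∈ Icc 1 N1, if n ∈ Ico (j - h) j then ((G n : ℝ) : ℂ) * ee (j * θ) else 0 := by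
    intro j _
    rw [fou_Uw G N1 h j hG]
    push_cast
    rw [sum_mul]
    refine sum_congr rfl fun n _ => ?_
    split_ifs <;> simp
  rw [sum_congr rfl e1, sum_comm]
  unfold FF
  rw [sum_mul]
  refine sum_congr rfl fun n hn => ?_
  rw [← sum_filter]
  have hn2 := mem_Icc.1 hn
  have e2 : (Icc 1 M).filter (fun j => n ∈ Ico (j - h) j) = Ioc n (n + h) := by
    ext j
    rw [mem_filter, mem_Icc, mem_Ico, mem_Ioc]
    omega
  rw [e2, mul_assoc, mul_sum, mul_sum]
  refine sum_nbij' (fun j => j - n) (fun r => n + r) ?_ ?_ ?_ ?_ ?_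
  · intro j hj
    rw [mem_Ioc] at hj
    rw [mem_Icc]
    omega
  · intro r hr
    rw [mem_Icc] at hr
    rw [mem_Ioc]
    omega
  · intro j hj
    rw [mem_Ioc] at hj
    omega
  · intro r hr
    omega
  · intro j hj
    rw [mem_Ioc] at hj
    rw [← Pool.Agent.H91.PK.LSa_ee_add]
    have : (j : ℝ) * θ = (n : ℝ) * θ + ((j - n : ℕ) : ℝ) * θ := by
      rw [Nat.cast_sub hj.1.le]
      ring
    rw [this]

private theorem fou_FF (G : ℕ → ℝ) (N1 h h' : ℕ) (θ : ℝ) (hG : ∀ n, n ∉ Icc 1 N1 → G n = 0)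
    (hh : h ≤ h') :
    FF (fun j => Uw G h j / h - Uw G h' j / h') (N1 + h') θ
      = FF G N1 θ * (kap h θ - kap h' θ) := by
  have e1 := fou_sum G N1 h (N1 + h') θ hG (by omega)
  have e2 := fou_sum G N1 h' (N1 + h') θ hG le_rfl
  unfold kap
  have e3 : FF (fun j => Uw G h j / h - Uw G h' j / h') (N1 + h') θ
      = (1 / (h : ℂ)) * ∑ j ∈ Icc 1 (N1 + h'), ((Uw G h j : ℝ) : ℂ) * ee (j * θ)
        - (1 / (h' : ℂ)) * ∑ j ∈ Icc 1 (N1 + h'), ((Uw G h' j : ℝ) : ℂ) * ee (j * θ) := by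
    unfold FF
    rw [mul_sum, mul_sum, ← sum_sub_distrib]
    refine sum_congr rfl fun j _ => ?_
    push_cast
    ring
  rw [e3, e1, e2]
  ring

theorem fou (G : ℕ → ℝ) (N1 h h' X : ℕ) (Y0 Y : ℝ) (hG : ∀ n, n ∉ Icc 1 N1 → G n = 0)
    (h1 : 1 ≤ h) (hh : h ≤ h') (hY0 : 0 ≤ Y0) (hY : Y0 ≤ Y) (hYp : 0 < Y) (hY2 : Y ≤ 1 / 2) :
    ∑ j ∈ Ioc X (2 * X), (Uw G h j / h - Uw G h' j / h') ^ 2
      ≤ 4 * (∫ y in Set.Icc Y0 Y, ‖FF G N1 (1 * y)‖ ^ 2)
        + 4 * (∫ y in Set.Icc Y0 Y, ‖FF G N1 (-1 * y)‖ ^ 2)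
        + ((13 * h' * Y0) ^ 2 + (1 / (h * Y)) ^ 2) * S2 G N1 := by
  have h1' : 1 ≤ h' := h1.trans hh
  have hhp : (0 : ℝ) < h := by exact_mod_cast h1
  have hhp' : (0 : ℝ) < h' := by exact_mod_cast h1'
  have hhr : (h : ℝ) ≤ h' := by exact_mod_cast hh
  have hpi := Real.pi_pos
  set D : ℕ → ℝ := fun j => Uw G h j / h - Uw G h' j / h' with hD
  set F : ℝ → ℝ := fun t => ‖FF G N1 t‖ ^ 2 with hF
  set W : ℝ → ℝ := fun t => ‖FF D (N1 + h') t‖ ^ 2 with hW
  have hFc : Continuous F := (FF_continuous G N1).norm.pow 2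
  have hWc : Continuous W := (FF_continuous D (N1 + h')).norm.pow 2
  have hF0 : ∀ t, 0 ≤ F t := fun t => sq_nonneg _
  -- the left side
  have hL : ∑ j ∈ Ioc X (2 * X), (Uw G h j / h - Uw G h' j / h') ^ 2 ≤ S2 D (N1 + h') := by
    unfold S2
    have e1 : ∑ j ∈ Ioc X (2 * X), (Uw G h j / h - Uw G h' j / h') ^ 2
        = ∑ j ∈ (Ioc X (2 * X)).filter (fun j => j ∈ Icc 1 (N1 + h')), D j ^ 2 := by
      symm
      refine sum_subset (filter_subset _ _) fun j hj hj' => ?_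
      have hj1 := mem_Ioc.1 hj
      have hj2 : N1 + h' < j := by
        by_contra hc
        exact hj' (mem_filter.2 ⟨hj, mem_Icc.2 ⟨by omega, by omega⟩⟩)
      have e2 : ∀ k : ℕ, k ≤ h' → Uw G k j = 0 := by
        intro k hk
        unfold Uw
        refine sum_eq_zero fun n hn => hG n fun h3 => ?_
        have h4 := mem_Ico.1 hn
        have h5 := mem_Icc.1 h3
        omega
      simp only [hD, e2 h hh, e2 h' le_rfl, zero_div, sub_zero]
      norm_num
    rw [e1]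
    exact sum_le_sum_of_subset_of_nonneg (fun j hj => (mem_filter.1 hj).2)
      fun _ _ _ => sq_nonneg _
  have hP : ∫ t in (-(1 / 2 : ℝ))..(1 / 2), W t = S2 D (N1 + h') := by
    have := FF_parseval D (N1 + h') (-(1 / 2))
    rw [show (-(1 / 2 : ℝ)) + 1 = 1 / 2 by norm_num] at this
    exact this
  have hPG : ∫ t in (-(1 / 2 : ℝ))..(1 / 2), F t = S2 G N1 := by
    have := FF_parseval G N1 (-(1 / 2))
    rw [show (-(1 / 2 : ℝ)) + 1 = 1 / 2 by norm_num] at this
    exact this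
  have hWF : ∀ t, W t = F t * ‖kap h t - kap h' t‖ ^ 2 := by
    intro t
    simp only [hW, hF]
    rw [hD, fou_FF G N1 h h' t hG hh, norm_mul, mul_pow]
  -- pointwise bounds
  have b1 : ∀ t, |t| ≤ Y0 → W t ≤ (13 * h' * Y0) ^ 2 * F t := by
    intro t ht
    rw [hWF, mul_comm]
    refine mul_le_mul_of_nonneg_right ?_ (hF0 t)
    refine pow_le_pow_left₀ (norm_nonneg _) ?_ 2
    have e1 : kap h t - kap h' t = (kap h t - 1) - (kap h' t - 1) := by ring
    rw [e1]
    refine (norm_sub_le _ _).trans ?_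
    have c1 := fou_kap_near h h1 t
    have c2 := fou_kap_near h' h1' t
    have c3 : 2 * Real.pi * h * |t| ≤ 2 * Real.pi * h' * Y0 := by
      apply mul_le_mul _ ht (abs_nonneg _) (by positivity)
      exact mul_le_mul_of_nonneg_left hhr (by positivity)
    have c4 : 2 * Real.pi * h' * |t| ≤ 2 * Real.pi * h' * Y0 :=
      mul_le_mul_of_nonneg_left ht (by positivity)
    have c5 : 4 * Real.pi * (h' * Y0) ≤ 13 * (h' * Y0) := by
      apply mul_le_mul_of_nonneg_right _ (by positivity)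
      have := Real.pi_lt_d2
      linarith only [hYp, hY2, this]
    linarith only [c1, c2, c3, c4, c5]
  have b2 : ∀ t, W t ≤ 4 * F t := by
    intro t
    rw [hWF, mul_comm]
    refine mul_le_mul_of_nonneg_right ?_ (hF0 t)
    have c1 : ‖kap h t - kap h' t‖ ≤ 2 := by
      refine (norm_sub_le _ _).trans ?_
      have := fou_kap_le_one h h1 t
      have := fou_kap_le_one h' h1' t
      linarith
    have := pow_le_pow_left₀ (norm_nonneg (kap h t - kap h' t)) c1 2
    linarith only [this]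
  have b3 : ∀ t, Y ≤ |t| → |t| ≤ 1 / 2 → W t ≤ (1 / (h * Y)) ^ 2 * F t := by
    intro t ht ht2
    rw [hWF, mul_comm]
    refine mul_le_mul_of_nonneg_right ?_ (hF0 t)
    refine pow_le_pow_left₀ (norm_nonneg _) ?_ 2
    refine (norm_sub_le _ _).trans ?_
    have h0 : t ≠ 0 := by
      intro hc
      rw [hc, abs_zero] at ht
      linarith only [hYp, ht]
    have ha : 0 < |t| := abs_pos.2 h0
    have c1 := fou_kap_far h h1 t h0 ht2
    have c2 := fou_kap_far h' h1' t h0 ht2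
    have c3 : 1 / (2 * h * |t|) ≤ 1 / (2 * h * Y) := by
      apply one_div_le_one_div_of_le (by positivity)
      exact mul_le_mul_of_nonneg_left ht (by positivity)
    have c4 : 1 / (2 * h' * |t|) ≤ 1 / (2 * h * Y) := by
      apply one_div_le_one_div_of_le (by positivity)
      apply mul_le_mul _ ht hYp.le (by positivity)
      exact mul_le_mul_of_nonneg_left hhr (by norm_num)
    have c5 : 1 / (2 * h * Y) + 1 / (2 * h * Y) = 1 / ((h : ℝ) * Y) := by
      field_simp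
      norm_num
    linarith only [c1, c2, c3, c4, c5]
  -- splitting
  have iW : ∀ a b : ℝ, IntervalIntegrable W volume a b := fun a b => hWc.intervalIntegrable a b
  have iF : ∀ a b : ℝ, IntervalIntegrable F volume a b := fun a b => hFc.intervalIntegrable a b
  have sp : ∀ g : ℝ → ℝ, (∀ a b : ℝ, IntervalIntegrable g volume a b) →
      ∫ t in (-(1 / 2 : ℝ))..(1 / 2), g t = (∫ t in (-(1 / 2 : ℝ))..(-Y), g t)
        + (∫ t in (-Y)..(-Y0), g t) + (∫ t in (-Y0)..Y0, g t) + (∫ t in Y0..Y, g t)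
        + (∫ t in Y..(1 / 2), g t) := by
    intro g hg
    rw [intervalIntegral.integral_add_adjacent_intervals (hg _ _) (hg _ _),
      intervalIntegral.integral_add_adjacent_intervals (hg _ _) (hg _ _),
      intervalIntegral.integral_add_adjacent_intervals (hg _ _) (hg _ _),
      intervalIntegral.integral_add_adjacent_intervals (hg _ _) (hg _ _)]
  have sW := sp W iW
  have sF := sp F iF
  have mono : ∀ (a b c : ℝ), a ≤ b → (∀ t ∈ Set.Icc a b, W t ≤ c * F t) →
      ∫ t in a..b, W t ≤ c * ∫ t in a..b, F t := by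
    intro a b c hab hc
    rw [← intervalIntegral.integral_const_mul]
    exact intervalIntegral.integral_mono_on hab (iW a b) ((iF a b).const_mul c) hc
  have nn : ∀ (a b : ℝ), a ≤ b → 0 ≤ ∫ t in a..b, F t := fun a b hab =>
    intervalIntegral.integral_nonneg hab fun t _ => hF0 t
  have m1 := mono (-(1 / 2)) (-Y) ((1 / (h * Y)) ^ 2) (by linarith only [hY2]) (by
    intro t ht
    have : |t| = -t := abs_of_nonpos (by linarith only [hYp, ht, ht.2])
    exact b3 t (by rw [this]; linarith only [ht, ht.2]) (by rw [this]; linarith only [ht, ht.1]))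
  have m2 := mono (-Y) (-Y0) 4 (by linarith only [hY]) (fun t _ => b2 t)
  have m3 := mono (-Y0) Y0 ((13 * h' * Y0) ^ 2) (by linarith only [hY0]) (fun t ht =>
    b1 t (abs_le.2 ⟨ht.1, ht.2⟩))
  have m4 := mono Y0 Y 4 hY (fun t _ => b2 t)
  have m5 := mono Y (1 / 2) ((1 / (h * Y)) ^ 2) hY2 (by
    intro t ht
    have : |t| = t := abs_of_nonneg (by linarith only [hYp, ht, ht.1])
    exact b3 t (by rw [this]; exact ht.1) (by rw [this]; exact ht.2))
  have n1 := nn (-(1 / 2)) (-Y) (by linarith only [hY2])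
  have n2 := nn (-Y) (-Y0) (by linarith only [hY])
  have n3 := nn (-Y0) Y0 (by linarith only [hY0])
  have n4 := nn Y0 Y hY
  have n5 := nn Y (1 / 2) hY2
  -- the right side
  have r1 : ∫ y in Set.Icc Y0 Y, ‖FF G N1 (1 * y)‖ ^ 2 = ∫ t in Y0..Y, F t := by
    rw [integral_Icc_eq_integral_Ioc, intervalIntegral.integral_of_le hY]
    simp only [one_mul, hF]
  have r2 : ∫ y in Set.Icc Y0 Y, ‖FF G N1 (-1 * y)‖ ^ 2 = ∫ t in (-Y)..(-Y0), F t := by
    rw [← intervalIntegral.integral_comp_neg, integral_Icc_eq_integral_Ioc,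
      intervalIntegral.integral_of_le hY]
    simp only [neg_mul, one_mul, hF]
  rw [r1, r2]
  refine hL.trans ?_
  rw [← hP, ← hPG, sW, sF]
  set c1 := (13 * (h' : ℝ) * Y0) ^ 2 with hc1
  set c2 := (1 / ((h : ℝ) * Y)) ^ 2 with hc2
  have hc10 : 0 ≤ c1 := sq_nonneg _
  have hc20 : 0 ≤ c2 := sq_nonneg _
  have k1 := mul_nonneg hc10 n1
  have k2 := mul_nonneg hc10 n2
  have k4 := mul_nonneg hc10 n4
  have k5 := mul_nonneg hc10 n5
  have l2 := mul_nonneg hc20 n2
  have l3 := mul_nonneg hc20 n3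
  have l4 := mul_nonneg hc20 n4
  linarith only [m2, m4, m3, m1, m5, k1, k2, k4, k5, l2, l3, l4]

end Pool.Agent.H76.MU

end

section

/-!
# Project WL (MP_a78e8f_nt): definitions

Elliott-Halberstam for almost all residues in intervals of length `(log x)^C`, all levels `θ < 1`,
with exceptional sets of density `(log x)^{-c}`.  `Lam`, `lamR`, `hR`, `ramS`, `psiA`, `err` are those of
`Pool.Agent.H91.EHA.Defs`.
-/

set_option autoImplicit false

namespace Pool.Agent.H87.WL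

open Finset
open Pool.Agent.H91.EHA (Lam lamR hR ramS psiA err)

/-- the Möbius function with real values -/
noncomputable def mo (n : ℕ) : ℝ := (ArithmeticFunction.moebius n : ℝ)

/-! ### Selberg's function -/

/-- `G = ∑_{h ≤ D, (h,q) = 1} μ(h)²/φ(h)` -/
noncomputable def Gs (D q : ℕ) : ℝ :=
  ∑ h ∈ (Icc 1 D).filter (fun h => Nat.Coprime h q), mo h ^ 2 / (h.totient : ℝ)

/-! ### The statements delivered by other projects -/

end Pool.Agent.H87.WL

end

section

/-!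
# WL Gl: the lower bound for `G`

`(q/φ(q)) ∑_{h ≤ D, (h,q)=1} μ(h)²/φ(h) ≥ ∑_{h ≤ D} μ(h)²/φ(h) ≥ ∑_{n ≤ D} 1/n ≥ log (D+1)`.
First inequality: `q/φ(q) = ∑_{e | q} μ(e)²/φ(e)`; the products `e h` are different (`e = (eh, q)`) and run
through all squarefree numbers `≤ D` (among others). Second: `1/φ(h) = (1/h) ∏_{p | h} (1-1/p)^{-1}` is the
sum of `1/n` over all `n` with squarefree kernel `h`. (Compare, if useful, landed proofs for the large
sieve: grep for `totient` and `log` in Pool/Agent/H91/PK, Pool/Agent/H92/EH, Pool/Agent/H35/V1.)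
-/

set_option autoImplicit false

namespace Pool.Agent.H87.WL

open Finset
open Pool.Agent.H91.EHA (Lam lamR hR ramS psiA err)

/-! ### The sum over the numbers with a given radical -/

/-- the product of the primes dividing `n` but not `M` -/
def gl_rad (M n : ℕ) : ℕ := ∏ p ∈ n.primeFactors.filter (fun p => ¬ p ∣ M), p

theorem gl_rad_dvd (M n : ℕ) : gl_rad M n ∣ n :=
  (prod_dvd_prod_of_subset _ _ _ (filter_subset _ _)).trans (Nat.prod_primeFactors_dvd n)

theorem gl_sq (T : Finset ℕ) (hT : ∀ p ∈ T, p.Prime) : Squarefree (∏ p ∈ T, p) := by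
  classical
  induction T using Finset.induction_on with
  | empty => simp
  | insert a T ha ih =>
    have ha' : a.Prime := hT a (mem_insert_self a T)
    have hT' : ∀ p ∈ T, p.Prime := fun p hp => hT p (mem_insert_of_mem hp)
    have hcop : Nat.Coprime a (∏ p ∈ T, p) := by
      refine Nat.Coprime.prod_right ?_
      intro p hp
      rw [Nat.coprime_primes ha' (hT' p hp)]
      rintro rfl
      exact ha hp
    rw [prod_insert ha, Nat.squarefree_mul hcop]
    exact ⟨ha'.squarefree, ih hT'⟩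

theorem gl_rad_sq (M n : ℕ) : Squarefree (gl_rad M n) :=
  gl_sq _ fun _ hp => Nat.prime_of_mem_primeFactors (mem_filter.1 hp).1

theorem gl_rad_coprime (M n : ℕ) : Nat.Coprime (gl_rad M n) M := by
  refine Nat.Coprime.prod_left ?_
  intro p hp
  rw [mem_filter] at hp
  exact (Nat.Prime.coprime_iff_not_dvd (Nat.prime_of_mem_primeFactors hp.1)).2 hp.2

/-- the completely multiplicative function `1/n` -/
noncomputable def gl_inv : ℕ →* ℝ where
  toFun n := (n : ℝ)⁻¹
  map_one' := by simp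
  map_mul' m n := by
    rw [Nat.cast_mul, mul_inv]

theorem gl_inv_apply (n : ℕ) : gl_inv n = (n : ℝ)⁻¹ := rfl

theorem gl_tot (K : ℕ) (hK : K ≠ 0) :
    ∏ p ∈ K.primeFactors with p.Prime, (1 - gl_inv p)⁻¹ = (K : ℝ) / K.totient := by
  have h1 : (K.primeFactors.filter fun p => p.Prime) = K.primeFactors :=
    filter_true_of_mem fun p hp => Nat.prime_of_mem_primeFactors hp
  rw [h1]
  have h2 : (K.totient : ℝ) = K * ∏ p ∈ K.primeFactors, (1 - (p : ℝ)⁻¹) := by
    have h := congrArg (fun q : ℚ => (q : ℝ)) (Nat.totient_eq_mul_prod_factors K)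
    push_cast at h
    exact h
  have hφ : (K.totient : ℝ) ≠ 0 := by
    have := Nat.totient_pos.2 (Nat.pos_of_ne_zero hK)
    positivity
  have hK' : (K : ℝ) ≠ 0 := by exact_mod_cast hK
  rw [eq_div_iff hφ, h2, prod_inv_distrib]
  have h3 : ∏ p ∈ K.primeFactors, (1 - (p : ℝ)⁻¹) ≠ 0 := by
    intro h
    rw [h2, h, mul_zero] at hφ
    exact hφ rfl
  simp only [gl_inv_apply]
  generalize ∏ p ∈ K.primeFactors, (1 - (p : ℝ)⁻¹) = Q at h3
  field_simp

theorem gl_sum (K : ℕ) (hK : K ≠ 0) (T : Finset ℕ)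
    (hT : ∀ m ∈ T, m ∈ Nat.factoredNumbers K.primeFactors) :
    ∑ m ∈ T, (m : ℝ)⁻¹ ≤ (K : ℝ) / K.totient := by
  classical
  obtain ⟨h1, h2⟩ := EulerProduct.summable_and_hasSum_factoredNumbers_prod_filter_prime_geometric
    (f := gl_inv) (fun {p} hp => by
      rw [gl_inv_apply, norm_inv, Real.norm_natCast]
      exact inv_lt_one_of_one_lt₀ (by exact_mod_cast hp.one_lt)) K.primeFactors
  rw [gl_tot K hK] at h2
  rw [← h2.tsum_eq]
  have h3 : ∑ m ∈ T, (m : ℝ)⁻¹ = ∑ m ∈ T.attach.image (fun m => (⟨m.1, hT m.1 m.2⟩ :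
      Nat.factoredNumbers K.primeFactors)), gl_inv m := by
    rw [sum_image]
    · rw [← sum_attach]
      rfl
    · intro x _ y _ h
      exact Subtype.ext (congrArg (fun z : Nat.factoredNumbers K.primeFactors => (z : ℕ)) h)
  rw [h3]
  refine h2.summable.sum_le_tsum _ fun i _ => ?_
  rw [gl_inv_apply]
  positivity

theorem gl_fiber (M : ℕ) (hM : 1 ≤ M) (N r : ℕ) (hr : r ≠ 0) (hrM : Nat.Coprime r M) :
    ∑ n ∈ (Icc 1 N).filter (fun n => gl_rad M n = r), (n : ℝ)⁻¹ ≤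
      (1 / (r.totient : ℝ)) * ((M : ℝ) / M.totient) := by
  classical
  have hM0 : M ≠ 0 := by omega
  have hK : r * M ≠ 0 := mul_ne_zero hr hM0
  have h1 : ∀ n ∈ (Icc 1 N).filter (fun n => gl_rad M n = r), r ∣ n := by
    intro n hn
    rw [mem_filter] at hn
    rw [← hn.2]
    exact gl_rad_dvd M n
  have h2 := gl_sum (r * M) hK (((Icc 1 N).filter (fun n => gl_rad M n = r)).image (fun n => n / r))
    (by
      intro m hm
      rw [mem_image] at hm
      obtain ⟨n, hn, rfl⟩ := hm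
      have hrn := h1 n hn
      rw [mem_filter, mem_Icc] at hn
      have hn0 : n ≠ 0 := by omega
      rw [Nat.mem_factoredNumbers]
      refine ⟨?_, ?_⟩
      · exact (Nat.div_pos (Nat.le_of_dvd (by omega) hrn) (Nat.pos_of_ne_zero hr)).ne'
      · intro p hp
        have hpp := Nat.prime_of_mem_primeFactorsList hp
        have hpn : p ∣ n := (Nat.dvd_of_mem_primeFactorsList hp).trans (Nat.div_dvd_of_dvd hrn)
        rw [Nat.mem_primeFactors]
        refine ⟨hpp, ?_, hK⟩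
        by_cases hpM : p ∣ M
        · exact hpM.mul_left r
        · refine Dvd.dvd.mul_right ?_ M
          rw [← hn.2]
          refine dvd_prod_of_mem _ ?_
          rw [mem_filter, Nat.mem_primeFactors]
          exact ⟨⟨hpp, hpn, hn0⟩, hpM⟩)
  rw [sum_image] at h2
  · have h3 : ∑ n ∈ (Icc 1 N).filter (fun n => gl_rad M n = r), (n : ℝ)⁻¹ =
        (r : ℝ)⁻¹ * ∑ n ∈ (Icc 1 N).filter (fun n => gl_rad M n = r), ((n / r : ℕ) : ℝ)⁻¹ := by
      rw [mul_sum]
      refine sum_congr rfl fun n hn => ?_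
      rw [← mul_inv]
      congr 1
      rw [← Nat.cast_mul, Nat.mul_div_cancel' (h1 n hn)]
    rw [h3]
    refine (mul_le_mul_of_nonneg_left h2 (by positivity)).trans (le_of_eq ?_)
    rw [Nat.totient_mul hrM, Nat.cast_mul, Nat.cast_mul]
    have hr' : (r : ℝ) ≠ 0 := by exact_mod_cast hr
    field_simp
  · intro x hx y hy hxy
    have e1 := Nat.mul_div_cancel' (h1 x hx)
    have e2 := Nat.mul_div_cancel' (h1 y hy)
    have hxy' : x / r = y / r := hxy
    rw [← e1, ← e2, hxy']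

/-- the set of moduli -/
def gl_S (M N : ℕ) : Finset ℕ := (Icc 1 N).filter (fun r => Squarefree r ∧ Nat.Coprime r M)

theorem gl_mem_S {M N r : ℕ} :
    r ∈ gl_S M N ↔ (1 ≤ r ∧ r ≤ N) ∧ Squarefree r ∧ Nat.Coprime r M := by
  unfold gl_S
  rw [mem_filter, mem_Icc]

/-- the main sum -/
noncomputable def gl_G (M N : ℕ) : ℝ := ∑ r ∈ gl_S M N, 1 / (r.totient : ℝ)

theorem gl_G_ge (M : ℕ) (hM : 1 ≤ M) (N : ℕ) :
    ∑ n ∈ Icc 1 N, (n : ℝ)⁻¹ ≤ gl_G M N * ((M : ℝ) / M.totient) := by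
  classical
  have hmaps : ∀ n ∈ Icc 1 N, gl_rad M n ∈ gl_S M N := by
    intro n hn
    rw [mem_Icc] at hn
    rw [gl_mem_S]
    have h0 : 0 < n := by omega
    exact ⟨⟨Nat.pos_of_dvd_of_pos (gl_rad_dvd M n) h0, (Nat.le_of_dvd h0 (gl_rad_dvd M n)).trans hn.2⟩,
      gl_rad_sq M n, gl_rad_coprime M n⟩
  rw [← sum_fiberwise_of_maps_to hmaps]
  unfold gl_G
  rw [sum_mul]
  refine sum_le_sum fun r hr => ?_
  rw [gl_mem_S] at hr
  exact gl_fiber M hM N r (by omega) hr.2.2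

theorem gs_ge (D q : ℕ) (hq : 1 ≤ q) :
    (q.totient : ℝ) / q * Real.log (D + 1) ≤ Gs D q := by
  have hq0 : (0 : ℝ) < q := by exact_mod_cast hq
  have hφ : (0 : ℝ) < q.totient := by exact_mod_cast Nat.totient_pos.2 hq
  have h1 : Gs D q = gl_G q D := by
    unfold Gs gl_G gl_S
    rw [← filter_filter, sum_filter (s := Icc 1 D), sum_filter (s := (Icc 1 D).filter Squarefree),
      sum_filter (s := Icc 1 D)]
    refine sum_congr rfl fun h _ => ?_
    by_cases hs : Squarefree h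
    · have h2 : mo h ^ 2 = 1 := by
        unfold mo
        exact_mod_cast ArithmeticFunction.moebius_sq_eq_one_of_squarefree hs
      rw [if_pos hs, h2]
    · have h2 : mo h = 0 := by
        unfold mo
        rw [ArithmeticFunction.moebius_eq_zero_of_not_squarefree hs, Int.cast_zero]
      rw [if_neg hs, h2]
      simp
  have h2 := gl_G_ge q hq D
  have h3 : Real.log (D + 1) ≤ ∑ n ∈ Icc 1 D, (n : ℝ)⁻¹ := by
    have h4 := log_add_one_le_harmonic D
    rw [harmonic_eq_sum_Icc] at h4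
    push_cast at h4
    exact h4
  rw [h1]
  have h5 : Real.log (D + 1) ≤ gl_G q D * ((q : ℝ) / q.totient) := h3.trans h2
  calc (q.totient : ℝ) / q * Real.log (D + 1)
      ≤ (q.totient : ℝ) / q * (gl_G q D * ((q : ℝ) / q.totient)) :=
        mul_le_mul_of_nonneg_left h5 (by positivity)
    _ = gl_G q D := by field_simp

end Pool.Agent.H87.WL

end

section

/-!
The additive character `e t = exp (2 π i t)` and elementary estimates.
-/

set_option autoImplicit false

namespace Pool.Agent.H92.EH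

open Finset

/-- `e t = exp (2 π i t)`. -/
noncomputable def e (t : ℝ) : ℂ := Complex.exp (Complex.I * ((2 * Real.pi * t : ℝ) : ℂ))

theorem e_int (n : ℤ) : e n = 1 := by
  unfold e
  rw [Complex.exp_eq_one_iff]
  exact ⟨n, by push_cast; ring⟩

theorem e_nat_mul (n : ℕ) (t : ℝ) : e (n * t) = e t ^ n := by
  unfold e
  rw [← Complex.exp_nat_mul]
  congr 1
  push_cast
  ring

end Pool.Agent.H92.EH

end

section

/-!
Farey fractions are well spaced, and the resulting mean value estimate for exponential sums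
over primes.
-/

set_option autoImplicit false

namespace Pool.Agent.H92.EH

open Finset

/-- Reduced residues modulo `r`, as natural numbers less than `r`. -/
def red (r : ℕ) : Finset ℕ := (range r).filter (fun b => Nat.Coprime b r)

theorem mem_red {r b : ℕ} : b ∈ red r ↔ b < r ∧ Nat.Coprime b r := by
  simp [red]

end Pool.Agent.H92.EH

end

section

/-!
Complete exponential sums and Ramanujan sums.
-/

set_option autoImplicit false

namespace Pool.Agent.H92.EH

open Finset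

/-- Complete sums of additive characters. -/
theorem sum_complete (n : ℕ) (hn : 0 < n) (m : ℤ) :
    ∑ b ∈ range n, e (m * ((b : ℝ) / n)) = if (n : ℤ) ∣ m then (n : ℂ) else 0 := by
  have hn0 : (n : ℝ) ≠ 0 := by exact_mod_cast hn.ne'
  have h1 : ∀ b : ℕ, e (m * ((b : ℝ) / n)) = e ((m : ℝ) / n) ^ b := by
    intro b
    rw [← e_nat_mul]
    congr 1
    ring
  simp_rw [h1]
  split_ifs with h
  · obtain ⟨k, rfl⟩ := h
    have : ((n : ℤ) * k : ℤ) / (n : ℝ) = (k : ℝ) := by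
      push_cast
      field_simp
    rw [this, e_int]
    simp
  · have hne : e ((m : ℝ) / n) ≠ 1 := by
      intro he
      apply h
      unfold e at he
      rw [Complex.exp_eq_one_iff] at he
      obtain ⟨k, hk⟩ := he
      refine ⟨k, ?_⟩
      have hpi : (Real.pi : ℂ) ≠ 0 := by exact_mod_cast Real.pi_ne_zero
      have hI := Complex.I_ne_zero
      have hn0' : (n : ℂ) ≠ 0 := by exact_mod_cast hn.ne'
      push_cast at hk
      have h2 : (2 * Real.pi * Complex.I : ℂ) * (m / n) = (2 * Real.pi * Complex.I) * k := by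
        linear_combination hk
      have h3 : ((m : ℂ) / n) = k := by
        apply mul_left_cancel₀ _ h2
        simp [hpi, hI]
      rw [div_eq_iff hn0'] at h3
      have h4 : (m : ℂ) = ((n : ℤ) * k : ℤ) := by
        rw [h3]
        push_cast
        ring
      exact_mod_cast h4
    have h5 : (∑ b ∈ range n, e ((m : ℝ) / n) ^ b) * (e ((m : ℝ) / n) - 1) = 0 := by
      rw [geom_sum_mul, ← e_nat_mul]
      have : (n : ℝ) * ((m : ℝ) / n) = m := by field_simp
      rw [this, e_int, sub_self]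
    rcases mul_eq_zero.mp h5 with h6 | h6
    · exact h6
    · exact absurd (sub_eq_zero.mp h6) hne

/-- The Ramanujan sum `c_r(m)`. -/
noncomputable def ram (r : ℕ) (m : ℤ) : ℂ := ∑ b ∈ red r, e (m * ((b : ℝ) / r))

theorem sum_ram_divisors (n : ℕ) (hn : 0 < n) (m : ℤ) :
    ∑ d ∈ n.divisors, ram d m = if (n : ℤ) ∣ m then (n : ℂ) else 0 := by
  rw [← sum_complete n hn m]
  -- partition `range n` according to the gcd with `n`
  have h1 : ∑ b ∈ range n, e (m * ((b : ℝ) / n))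
      = ∑ d ∈ n.divisors, ∑ b ∈ (range n).filter (fun b => n / Nat.gcd b n = d),
          e (m * ((b : ℝ) / n)) := by
    rw [sum_fiberwise_of_maps_to]
    intro b _
    rw [Nat.mem_divisors]
    exact ⟨Nat.div_dvd_of_dvd (Nat.gcd_dvd_right b n), hn.ne'⟩
  rw [h1]
  refine sum_congr rfl fun d hd => ?_
  rw [Nat.mem_divisors] at hd
  obtain ⟨k, hk⟩ := hd.1
  have hdpos : 0 < d := Nat.pos_of_ne_zero (by rintro rfl; omega)
  have hkpos : 0 < k := Nat.pos_of_ne_zero (by rintro rfl; omega)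
  unfold ram
  refine sum_bij (fun b _ => b * k) ?_ ?_ ?_ ?_
  · intro b hb
    rw [mem_red] at hb
    rw [mem_filter, mem_range]
    have hg : Nat.gcd (b * k) n = k := by
      rw [hk, Nat.gcd_mul_right]
      have : Nat.gcd b d = 1 := hb.2
      rw [this, one_mul]
    refine ⟨?_, ?_⟩
    · rw [hk]
      exact Nat.mul_lt_mul_of_pos_right hb.1 hkpos
    · rw [hg, hk]
      exact Nat.mul_div_cancel _ hkpos
  · intro b _ b' _ h
    exact Nat.eq_of_mul_eq_mul_right hkpos h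
  · intro c hc
    rw [mem_filter, mem_range] at hc
    obtain ⟨hc1, hc2⟩ := hc
    have hgpos : 0 < Nat.gcd c n := Nat.gcd_pos_of_pos_right _ hn
    have hgk : Nat.gcd c n = k := by
      have h2 : Nat.gcd c n ∣ n := Nat.gcd_dvd_right c n
      have h3 : n / Nat.gcd c n * Nat.gcd c n = n := Nat.div_mul_cancel h2
      rw [hc2] at h3
      exact Nat.eq_of_mul_eq_mul_left hdpos (h3.trans hk)
    have hkc : k ∣ c := by rw [← hgk]; exact Nat.gcd_dvd_left c n
    obtain ⟨b, hb⟩ := hkc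
    refine ⟨b, ?_, by rw [hb]; ring⟩
    rw [mem_red]
    constructor
    · have : k * b < k * d := by rw [← hb, mul_comm k d, ← hk]; exact hc1
      exact lt_of_mul_lt_mul_left this (Nat.zero_le _)
    · have h2 : Nat.gcd (k * b) (k * d) = k := by
        rw [← hb, mul_comm k d, ← hk]
        exact hgk
      rw [Nat.gcd_mul_left] at h2
      have h3 : k * Nat.gcd b d = k * 1 := by rw [h2, mul_one]
      exact Nat.eq_of_mul_eq_mul_left hkpos h3
  · intro b _
    congr 2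
    have hd0 : (d : ℝ) ≠ 0 := by exact_mod_cast hdpos.ne'
    have hk0 : (k : ℝ) ≠ 0 := by exact_mod_cast hkpos.ne'
    rw [hk]
    push_cast
    field_simp

/-- Formula for the Ramanujan sum. -/
theorem ram_eq (r : ℕ) (hr : 0 < r) (m : ℤ) :
    ram r m = ∑ x ∈ r.divisorsAntidiagonal,
      ((ArithmeticFunction.moebius x.1 : ℤ) : ℂ) * (if ((x.2 : ℕ) : ℤ) ∣ m then (x.2 : ℂ) else 0) := by
  have h := (ArithmeticFunction.sum_eq_iff_sum_mul_moebius_eq
    (f := fun n => ram n m) (g := fun n : ℕ => if (n : ℤ) ∣ m then (n : ℂ) else 0)).mp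
    (fun n hn => sum_ram_divisors n hn m) r hr
  exact h.symm

/-- The Ramanujan sum at an integer prime to the modulus. -/
theorem ram_of_coprime (r : ℕ) (hr : 0 < r) (m : ℤ) (hm : IsCoprime m (r : ℤ)) :
    ram r m = ((ArithmeticFunction.moebius r : ℤ) : ℂ) := by
  rw [ram_eq r hr m]
  rw [sum_eq_single (r, 1)]
  · simp
  · rintro ⟨a, b⟩ hab hne
    rw [Nat.mem_divisorsAntidiagonal] at hab
    simp only at hab ⊢
    rw [if_neg, mul_zero]
    intro hb
    have h1 : (b : ℤ) ∣ (r : ℤ) := by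
      rw [← hab.1]
      push_cast
      exact Dvd.intro_left _ rfl
    have h2 : IsUnit (b : ℤ) := hm.isUnit_of_dvd' hb h1
    have h3 : b = 1 := by
      rw [Int.isUnit_iff] at h2
      omega
    apply hne
    rw [h3, mul_one] at hab
    rw [h3, hab.1]
  · intro h
    exfalso
    apply h
    rw [Nat.mem_divisorsAntidiagonal]
    exact ⟨by ring, hr.ne'⟩

end Pool.Agent.H92.EH

end

section

/-!
# Quantitative supply of primes congruent to one modulo four

Elementary Mertens-type estimate for the character modulo four, and the consequence that for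
every `δ > 0` there are at least `N ^ (1 - δ)` primes `p ≤ N` with `p % 4 = 1`, for all large `N`.
-/

namespace Pool.Agent.H41

open Finset Real

/-- the constant in Chebyshev's bound -/
noncomputable def c0 : ℝ := Real.log 4 + 4

lemma c0_pos : 0 < c0 := by
  have : 0 < Real.log 4 := Real.log_pos (by norm_num)
  unfold c0; linarith only [this]

lemma psi_bound (N : ℕ) : ∑ d ∈ Ioc 0 N, ArithmeticFunction.vonMangoldt d ≤ c0 * N := by
  have := Chebyshev.psi_le_const_mul_self (x := (N : ℝ)) (by positivity)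
  unfold Chebyshev.psi at this
  rwa [Nat.floor_natCast] at this

lemma log_factorial_eq (N : ℕ) :
    ∑ m ∈ Ioc 0 N, Real.log m =
      ∑ d ∈ Ioc 0 N, ArithmeticFunction.vonMangoldt d * ((N / d : ℕ) : ℝ) := by
  have := ArithmeticFunction.sum_Ioc_mul_zeta_eq_sum ArithmeticFunction.vonMangoldt N
  rw [ArithmeticFunction.vonMangoldt_mul_zeta] at this
  simpa [ArithmeticFunction.log_apply] using this

lemma sum_log_eq (N : ℕ) : ∑ m ∈ Ioc 0 N, Real.log m = Real.log (N.factorial) := by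
  induction N with
  | zero => simp
  | succ N ih =>
    rw [Finset.sum_Ioc_succ_top (by omega), ih, Nat.factorial_succ]
    push_cast
    rw [Real.log_mul (by positivity) (by positivity)]
    ring

lemma B_upper (N : ℕ) (hN : 0 < N) :
    ∑ d ∈ Ioc 0 N, ArithmeticFunction.vonMangoldt d / d ≤ Real.log N + c0 := by
  have hN' : (0 : ℝ) < N := by exact_mod_cast hN
  have h1 : ∑ m ∈ Ioc 0 N, Real.log m ≤ N * Real.log N := by
    calc ∑ m ∈ Ioc 0 N, Real.log m ≤ ∑ m ∈ Ioc 0 N, Real.log N := by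
          refine Finset.sum_le_sum fun m hm => ?_
          rw [Finset.mem_Ioc] at hm
          exact Real.log_le_log (by exact_mod_cast hm.1) (by exact_mod_cast hm.2)
      _ = N * Real.log N := by simp
  rw [log_factorial_eq] at h1
  have h2 : ∑ d ∈ Ioc 0 N, ArithmeticFunction.vonMangoldt d * ((N : ℝ) / d - 1) ≤
      ∑ d ∈ Ioc 0 N, ArithmeticFunction.vonMangoldt d * ((N / d : ℕ) : ℝ) := by
    refine Finset.sum_le_sum fun d hd => ?_
    rw [Finset.mem_Ioc] at hd
    have hd' : (0 : ℝ) < d := by exact_mod_cast hd.1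
    refine mul_le_mul_of_nonneg_left ?_ ArithmeticFunction.vonMangoldt_nonneg
    have : N < d * (N / d + 1) := Nat.lt_mul_div_succ N hd.1
    have h3 : (N : ℝ) < d * ((N / d : ℕ) + 1) := by exact_mod_cast this
    have h4 : (N : ℝ) / d < (N / d : ℕ) + 1 := by
      rw [div_lt_iff₀ hd']; linarith only [h3]
    linarith only [h4]
  have h3 : ∑ d ∈ Ioc 0 N, ArithmeticFunction.vonMangoldt d * ((N : ℝ) / d - 1) =
      N * ∑ d ∈ Ioc 0 N, ArithmeticFunction.vonMangoldt d / d -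
        ∑ d ∈ Ioc 0 N, ArithmeticFunction.vonMangoldt d := by
    rw [Finset.mul_sum, ← Finset.sum_sub_distrib]
    exact Finset.sum_congr rfl fun d _ => by ring
  have h4 := psi_bound N
  have h5 : N * ∑ d ∈ Ioc 0 N, ArithmeticFunction.vonMangoldt d / d ≤
      N * (Real.log N + c0) := by
    rw [h3] at h2
    nlinarith only [h1, h2, h4]
  exact le_of_mul_le_mul_left h5 hN'

lemma B_lower (N : ℕ) (hN : 0 < N) :
    Real.log N - 1 ≤ ∑ d ∈ Ioc 0 N, ArithmeticFunction.vonMangoldt d / d := by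
  have hN' : (0 : ℝ) < N := by exact_mod_cast hN
  have h1 : (N : ℝ) * Real.log N - N ≤ Real.log (N.factorial) := by
    have := Real.pow_div_factorial_le_exp (N : ℝ) hN'.le N
    have hf : (0 : ℝ) < N.factorial := by positivity
    have h2 := Real.log_le_log (by positivity) this
    rw [Real.log_exp, Real.log_div (by positivity) (by positivity), Real.log_pow] at h2
    linarith only [h2]
  rw [← sum_log_eq, log_factorial_eq] at h1
  have h2 : ∑ d ∈ Ioc 0 N, ArithmeticFunction.vonMangoldt d * ((N / d : ℕ) : ℝ) ≤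
      ∑ d ∈ Ioc 0 N, ArithmeticFunction.vonMangoldt d * ((N : ℝ) / d) := by
    refine Finset.sum_le_sum fun d hd => ?_
    exact mul_le_mul_of_nonneg_left Nat.cast_div_le ArithmeticFunction.vonMangoldt_nonneg
  have h3 : ∑ d ∈ Ioc 0 N, ArithmeticFunction.vonMangoldt d * ((N : ℝ) / d) =
      N * ∑ d ∈ Ioc 0 N, ArithmeticFunction.vonMangoldt d / d := by
    rw [Finset.mul_sum]
    exact Finset.sum_congr rfl fun d _ => by ring
  have h5 : N * (Real.log N - 1) ≤
      N * ∑ d ∈ Ioc 0 N, ArithmeticFunction.vonMangoldt d / d := by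
    rw [h3] at h2
    nlinarith only [h1, h2]
  exact le_of_mul_le_mul_left h5 hN'

/-- non-primes contribute a bounded amount -/
lemma exists_nonprime_bound : ∃ C : ℝ, 0 ≤ C ∧ ∀ N : ℕ,
    ∑ d ∈ Ioc 0 N, (if d.Prime then 0 else ArithmeticFunction.vonMangoldt d) / (d : ℝ) ≤ C := by
  have hs := ArithmeticFunction.vonMangoldt.summable_residueClass_non_primes_div (0 : ZMod 1)
  have he : ∀ n : ℕ, ArithmeticFunction.vonMangoldt.residueClass (0 : ZMod 1) n =
      ArithmeticFunction.vonMangoldt n := by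
    intro n
    unfold ArithmeticFunction.vonMangoldt.residueClass
    rw [Set.indicator_of_mem]
    show ((n : ZMod 1)) = 0
    exact Subsingleton.elim _ _
  simp only [he] at hs
  have h0 : ∀ n : ℕ, 0 ≤ (if n.Prime then 0 else ArithmeticFunction.vonMangoldt n) / (n : ℝ) := by
    intro n
    apply div_nonneg _ (by positivity)
    split_ifs
    · exact le_rfl
    · exact ArithmeticFunction.vonMangoldt_nonneg
  refine ⟨∑' n : ℕ, (if n.Prime then 0 else ArithmeticFunction.vonMangoldt n) / (n : ℝ),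
    tsum_nonneg h0, fun N => ?_⟩
  exact hs.sum_le_tsum _ (fun n _ => h0 n)

end Pool.Agent.H41

end

section

/-!
Mertens type estimates used for the order of vanishing at one.
-/

namespace Pool.Agent.H35.V1

open Finset Real
open Pool.Agent.H41 (c0 c0_pos B_lower B_upper exists_nonprime_bound)
open scoped ArithmeticFunction.vonMangoldt

noncomputable section

/-- Primes in `(w, z]`. -/
def PPr (w z : ℕ) : Finset ℕ := (Ioc w z).filter Nat.Prime

theorem mem_PPr {w z p : ℕ} : p ∈ PPr w z ↔ (w < p ∧ p ≤ z) ∧ p.Prime := by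
  simp [PPr]

theorem sum_recip_le {w z : ℕ} (hw : 2 ≤ w) (hwz : w ≤ z) {c : ℝ} (hc : 0 ≤ c)
    (h : ∀ m, w ≤ m → m ≤ z → ∑ d ∈ Ioc w m, ArithmeticFunction.vonMangoldt d / d
      ≤ Real.log m - Real.log w + c) :
    ∑ p ∈ PPr w z, (1 : ℝ) / p ≤ Real.log (Real.log z / Real.log w) + c / Real.log w := by
  have hlw : 0 < Real.log w := Real.log_pos (by exact_mod_cast (by omega : 1 < w))
  have hlog : ∀ k : ℕ, w ≤ k → 0 < Real.log k := by
    intro k hk
    apply Real.log_pos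
    exact_mod_cast (by omega : 1 < k)
  have h1 : ∑ p ∈ PPr w z, (1 : ℝ) / p
      = ∑ k ∈ Ioc w z, (if k.Prime then Real.log k / k else 0) * (1 / Real.log k) := by
    unfold PPr
    rw [sum_filter]
    apply sum_congr rfl
    intro k hk
    rw [mem_Ioc] at hk
    split_ifs with hp
    · have := (hlog k hk.1.le).ne'
      field_simp
    · simp
  have h2 : ∑ k ∈ Ioc w z, (if k.Prime then Real.log k / k else 0) * (1 / Real.log k)
      ≤ ∑ k ∈ Ioc w z, (Real.log k - Real.log (k - 1 : ℕ)) * (1 / Real.log k)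
        + c * (1 / Real.log ((w + 1 : ℕ) : ℝ)) := by
    apply Pool.Agent.H91.Gold.abel_le hwz hc
    · intro k hk1 _
      have := hlog k hk1.le
      positivity
    · have := hlog (w + 1) (by omega)
      positivity
    · intro k hk1 _
      have := hlog k hk1.le
      apply one_div_le_one_div_of_le this
      apply Real.log_le_log
      · exact_mod_cast (by omega : 0 < k)
      · push_cast; linarith only
    · intro m hm1 hm2
      have e1 : ∑ k ∈ Ioc w m, (Real.log k - Real.log (k - 1 : ℕ)) = Real.log m - Real.log w := by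
        clear hm2
        induction m, hm1 using Nat.le_induction with
        | base => simp
        | succ m hm ih =>
          rw [sum_Ioc_succ_top (by omega), ih]
          simp
      have e2 : ∑ k ∈ Ioc w m, (if k.Prime then Real.log k / k else 0)
          ≤ ∑ k ∈ Ioc w m, Λ k / k := by
        apply sum_le_sum
        intro k _
        split_ifs with hp
        · rw [ArithmeticFunction.vonMangoldt_apply_prime hp]
        · have := ArithmeticFunction.vonMangoldt_nonneg (n := k)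
          positivity
      rw [e1]
      exact e2.trans (h m hm1 hm2)
  have h3 : ∀ m, w ≤ m → ∑ k ∈ Ioc w m, (Real.log k - Real.log (k - 1 : ℕ)) * (1 / Real.log k)
      ≤ Real.log (Real.log m) - Real.log (Real.log w) := by
    intro m hm
    induction m, hm using Nat.le_induction with
    | base => simp
    | succ m hm ih =>
      rw [sum_Ioc_succ_top (by omega)]
      have a1 := hlog m hm
      have a2 := hlog (m + 1) (by omega)
      have a3 : (Real.log ((m + 1 : ℕ) : ℝ) - Real.log (m + 1 - 1 : ℕ)) * (1 / Real.log ((m + 1 : ℕ) : ℝ))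
          ≤ Real.log (Real.log ((m + 1 : ℕ) : ℝ)) - Real.log (Real.log m) := by
        have b1 := Real.log_le_sub_one_of_pos (x := Real.log m / Real.log ((m + 1 : ℕ) : ℝ)) (by positivity)
        rw [Real.log_div a1.ne' a2.ne'] at b1
        rw [Nat.add_sub_cancel]
        have b2 : (Real.log ((m + 1 : ℕ) : ℝ) - Real.log m) * (1 / Real.log ((m + 1 : ℕ) : ℝ))
            = 1 - Real.log m / Real.log ((m + 1 : ℕ) : ℝ) := by
          field_simp
        rw [b2]
        linarith only [b1]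
      linarith only [ih, a3]
  have h4 := h3 z hwz
  have h5 : c * (1 / Real.log ((w + 1 : ℕ) : ℝ)) ≤ c / Real.log w := by
    rw [mul_one_div]
    apply div_le_div_of_nonneg_left hc hlw
    apply Real.log_le_log
    · exact_mod_cast (by omega : 0 < w)
    · push_cast; linarith only
  rw [h1, Real.log_div (hlog z hwz).ne' hlw.ne']
  linarith only [h2, h4, h5]

theorem sum_tele {w z : ℕ} (hw : 2 ≤ w) (hwz : w ≤ z) :
    ∑ k ∈ Ioc w z, 1 / ((k : ℝ) * ((k : ℝ) - 1)) ≤ 1 / w - 1 / z := by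
  induction z, hwz using Nat.le_induction with
  | base => simp
  | succ m hm ih =>
    rw [sum_Ioc_succ_top (by omega)]
    have hm0 : (0 : ℝ) < m := by exact_mod_cast (by omega : 0 < m)
    have h1 : 1 / (((m + 1 : ℕ) : ℝ) * (((m + 1 : ℕ) : ℝ) - 1)) = 1 / m - 1 / ((m + 1 : ℕ) : ℝ) := by
      push_cast
      rw [add_sub_cancel_right]
      field_simp
      ring
    rw [h1]
    linarith only [ih]

theorem exists_mertens_prod : ∃ C : ℝ, 0 < C ∧ ∀ w z : ℕ, 3 ≤ w → w ≤ z →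
    ∏ p ∈ PPr w z, (1 + 1 / ((p : ℝ) - 1)) ≤ C * (Real.log z / Real.log w) := by
  have hc0 := c0_pos
  refine ⟨Real.exp (c0 + 2), Real.exp_pos _, fun w z hw hwz => ?_⟩
  have hw' : (3 : ℝ) ≤ w := by exact_mod_cast hw
  have hlw : 1 ≤ Real.log w := by
    rw [Real.le_log_iff_exp_le (by linarith only [hw'])]
    have := Real.exp_one_lt_d9
    linarith only [hw', this]
  have hlz : 0 < Real.log z := by
    apply Real.log_pos
    exact_mod_cast (by omega : 1 < z)
  have hgen := sum_recip_le (w := w) (z := z) (by omega) hwz (c := c0 + 1) (by linarith only [hc0]) (by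
    intro m hm1 _
    have h1 := B_upper m (by omega)
    have h2 := B_lower w (by omega)
    have h3 : ∑ d ∈ Ioc 0 m, ArithmeticFunction.vonMangoldt d / d
        = ∑ d ∈ Ioc 0 w, ArithmeticFunction.vonMangoldt d / d
          + ∑ d ∈ Ioc w m, ArithmeticFunction.vonMangoldt d / d :=
      (sum_Ioc_consecutive _ (Nat.zero_le w) hm1).symm
    linarith only [h1, h2, h3])
  have h1 : ∏ p ∈ PPr w z, (1 + 1 / ((p : ℝ) - 1))
      ≤ Real.exp (∑ p ∈ PPr w z, 1 / ((p : ℝ) - 1)) := by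
    rw [Real.exp_sum]
    apply prod_le_prod
    · intro p hp
      rw [mem_PPr] at hp
      have : (1 : ℝ) < p := by exact_mod_cast hp.2.one_lt
      have : 0 < 1 / ((p : ℝ) - 1) := by
        apply div_pos one_pos
        linarith only [this]
      linarith only [this]
    · intro p _
      rw [add_comm]
      exact Real.add_one_le_exp _
  have h2 : ∑ p ∈ PPr w z, 1 / ((p : ℝ) - 1)
      = ∑ p ∈ PPr w z, 1 / (p : ℝ) + ∑ p ∈ PPr w z, 1 / ((p : ℝ) * ((p : ℝ) - 1)) := by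
    rw [← sum_add_distrib]
    apply sum_congr rfl
    intro p hp
    rw [mem_PPr] at hp
    have h3 : (1 : ℝ) < p := by exact_mod_cast hp.2.one_lt
    have h4 : (p : ℝ) - 1 ≠ 0 := by linarith only [h3]
    have h5 : (p : ℝ) ≠ 0 := by linarith only [h3]
    field_simp
    ring
  have h3 : ∑ p ∈ PPr w z, 1 / ((p : ℝ) * ((p : ℝ) - 1)) ≤ 1 := by
    have h4 : ∑ p ∈ PPr w z, 1 / ((p : ℝ) * ((p : ℝ) - 1))
        ≤ ∑ k ∈ Ioc w z, 1 / ((k : ℝ) * ((k : ℝ) - 1)) := by
      apply sum_le_sum_of_subset_of_nonneg (filter_subset _ _)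
      intro k hk _
      rw [mem_Ioc] at hk
      have : (1 : ℝ) < k := by exact_mod_cast (by omega : 1 < k)
      apply div_nonneg zero_le_one
      nlinarith only [this]
    have h5 := sum_tele (by omega : 2 ≤ w) hwz
    have h6 : 1 / (w : ℝ) ≤ 1 := by
      rw [div_le_one (by linarith only [hw'])]
      linarith only [hw']
    have h7 : 0 ≤ 1 / (z : ℝ) := by positivity
    linarith only [h4, h5, h6, h7]
  have h4 : (c0 + 1) / Real.log w ≤ c0 + 1 := div_le_self (by linarith only [hc0]) hlw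
  have h5 : ∑ p ∈ PPr w z, 1 / ((p : ℝ) - 1) ≤ Real.log (Real.log z / Real.log w) + (c0 + 2) := by
    rw [h2]
    linarith only [hgen, h3, h4]
  refine h1.trans ((Real.exp_le_exp.2 h5).trans (le_of_eq ?_))
  rw [Real.exp_add, Real.exp_log (by positivity)]
  ring

end

end Pool.Agent.H35.V1

end

section

/-!
# MU RgI: rough numbers in short intervals (upper bound sieve)

Proof.  `q = ∏_{p ≤ P} p`, `D = P 2^J`.  For `n` with `Rk P J n` every squarefree `l ≤ D` prime to `q` has all its prime factors in `(P, D]`, so `(l, n) = 1` and `ramS l n = μ(l)`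
(Ramanujan sum); so `Ps D q n = Gs D q` (`H87/WL/Defs.lean`).  Additive large sieve (dual form; see `H91/PK/LSa.lean` and `H76/EHB`, `H76/GB`):
`∑_{n ∈ Ico a (a+h)} Ps D q n ^ 2 ≤ (h + D^2) Gs D q`, because `Ps D q n = ∑_{l} ∑_{r mod l, (r,l)=1} (μ(l)/φ(l)) ee(n r/l)`, the fractions are `1/D^2`-separated and the sum of the squares
of the coefficients is `∑ μ(l)^2/φ(l)^2 · φ(l) = Gs D q`.  So the number is `≤ 2 h/Gs D q` (`D^2 ≤ h`; if the large sieve is available only with a constant, `C` absorbs it; alternatively expand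
`∑_n (∑_{s | n} ls D q s)^2` with Selberg's weights `ls`, `H87/WL/Sel*.lean`, if `(P 2^J)^4 ≤ h`), `Gs D q ≥ (φ(q)/q) log (D + 1)` (`gs_ge`) and `q/φ(q) = ∏_{p ≤ P} (1 - 1/p)^{-1} ≤ C log P`
(Mertens upper bound, `P ≥ 2`).
-/

set_option autoImplicit false

namespace Pool.Agent.H76.MU

open Finset MeasureTheory
open Pool.Agent.H91.PK (ee)
open Pool.Agent.H76.EHB
open Pool.Agent.H35.W

/-- the product of the primes up to `P` -/
private def RgI_q (P : ℕ) : ℕ := ∏ p ∈ Pool.Agent.H35.V1.PPr 0 P, p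

private theorem RgI_primeFactors (P : ℕ) :
    (RgI_q P).primeFactors = Pool.Agent.H35.V1.PPr 0 P := by
  unfold RgI_q
  exact Nat.primeFactors_prod fun p hp => (Pool.Agent.H35.V1.mem_PPr.1 hp).2

private theorem RgI_q_ne (P : ℕ) : RgI_q P ≠ 0 := by
  unfold RgI_q
  rw [prod_ne_zero_iff]
  intro p hp
  exact (Pool.Agent.H35.V1.mem_PPr.1 hp).2.ne_zero

private theorem RgI_ratio (P : ℕ) : ((RgI_q P : ℕ) : ℝ) / (RgI_q P).totient =
    ∏ p ∈ Pool.Agent.H35.V1.PPr 0 P, (1 + 1 / ((p : ℝ) - 1)) := by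
  have h := Pool.Agent.H87.WL.gl_tot (RgI_q P) (RgI_q_ne P)
  rw [← h, RgI_primeFactors]
  have h1 : (Pool.Agent.H35.V1.PPr 0 P).filter (fun p => p.Prime) =
      Pool.Agent.H35.V1.PPr 0 P :=
    filter_true_of_mem fun p hp => (Pool.Agent.H35.V1.mem_PPr.1 hp).2
  rw [h1]
  refine prod_congr rfl fun p hp => ?_
  have hp2 : (1 : ℝ) < p := by
    exact_mod_cast (Pool.Agent.H35.V1.mem_PPr.1 hp).2.one_lt
  rw [Pool.Agent.H87.WL.gl_inv_apply]
  have h2 : (p : ℝ) ≠ 0 := by linarith only [hp2]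
  have h3 : (p : ℝ) - 1 ≠ 0 := by linarith only [hp2]
  field_simp
  ring

private theorem RgI_mertens : ∃ C : ℝ, 0 < C ∧ ∀ P : ℕ, 2 ≤ P →
    ((RgI_q P : ℕ) : ℝ) / (RgI_q P).totient ≤ C * Real.log P := by
  obtain ⟨C, hC, hM⟩ := Pool.Agent.H35.V1.exists_mertens_prod
  have hl2 : 0 < Real.log 2 := Real.log_pos (by norm_num)
  have hl3 : 0 < Real.log 3 := Real.log_pos (by norm_num)
  refine ⟨3 * C / Real.log 3 + 2 / Real.log 2, by positivity, fun P hP => ?_⟩
  rw [RgI_ratio]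
  have hlP : 0 < Real.log P := Real.log_pos (by exact_mod_cast (by omega : 1 < P))
  rcases Nat.lt_or_ge P 3 with h | h
  · have h2 : P = 2 := by omega
    subst h2
    have e : Pool.Agent.H35.V1.PPr 0 2 = {2} := by decide
    rw [e, prod_singleton]
    have h3 : (2 / Real.log 2) * Real.log ((2 : ℕ) : ℝ) = 2 := by
      push_cast
      field_simp
    have h4 : 0 ≤ 3 * C / Real.log 3 * Real.log ((2 : ℕ) : ℝ) := by positivity
    rw [add_mul, h3]
    push_cast
    push_cast at h4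
    linarith only [h4]
  · have e : Pool.Agent.H35.V1.PPr 0 P = Pool.Agent.H35.V1.PPr 0 3 ∪
        Pool.Agent.H35.V1.PPr 3 P := by
      ext p
      rw [mem_union, Pool.Agent.H35.V1.mem_PPr, Pool.Agent.H35.V1.mem_PPr,
        Pool.Agent.H35.V1.mem_PPr]
      constructor
      · rintro ⟨⟨h1, h2⟩, h3⟩
        rcases Nat.lt_or_ge 3 p with h4 | h4
        · exact Or.inr ⟨⟨h4, h2⟩, h3⟩
        · exact Or.inl ⟨⟨h1, h4⟩, h3⟩
      · rintro (⟨⟨h1, h2⟩, h3⟩ | ⟨⟨h1, h2⟩, h3⟩)
        · exact ⟨⟨h1, h2.trans h⟩, h3⟩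
        · exact ⟨⟨by omega, h2⟩, h3⟩
    have hd : Disjoint (Pool.Agent.H35.V1.PPr 0 3) (Pool.Agent.H35.V1.PPr 3 P) := by
      rw [disjoint_left]
      intro p h1 h2
      rw [Pool.Agent.H35.V1.mem_PPr] at h1 h2
      omega
    rw [e, prod_union hd]
    have e3 : Pool.Agent.H35.V1.PPr 0 3 = {2, 3} := by decide
    have e4 : ∏ p ∈ Pool.Agent.H35.V1.PPr 0 3, (1 + 1 / ((p : ℝ) - 1)) = 3 := by
      rw [e3, prod_pair (by norm_num)]
      norm_num
    rw [e4]
    have h5 := hM 3 P le_rfl h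
    have h6 : 0 ≤ 2 / Real.log 2 * Real.log P := by positivity
    rw [add_mul]
    have h7 : 3 * (C * (Real.log P / Real.log ((3 : ℕ) : ℝ))) =
        3 * C / Real.log 3 * Real.log P := by
      push_cast
      field_simp
    calc 3 * ∏ p ∈ Pool.Agent.H35.V1.PPr 3 P, (1 + 1 / ((p : ℝ) - 1))
        ≤ 3 * (C * (Real.log P / Real.log ((3 : ℕ) : ℝ))) :=
          mul_le_mul_of_nonneg_left h5 (by norm_num)
      _ = 3 * C / Real.log 3 * Real.log P := h7
      _ ≤ _ := by linarith only [h6]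

private theorem RgI_e_eq (t : ℝ) : Pool.Agent.H92.EH.e t = ee t := by
  unfold Pool.Agent.H92.EH.e ee
  congr 1
  push_cast
  ring

/-- Ramanujan sums at coprime arguments -/
private theorem RgI_ram (l n : ℕ) (hl : 0 < l) (h : Nat.Coprime n l) :
    ∑ b ∈ (Icc 1 l).filter (fun b => Nat.Coprime b l), ee ((n : ℝ) * b / l) =
      ((ArithmeticFunction.moebius l : ℤ) : ℂ) := by
  have h1 := Pool.Agent.H92.EH.ram_of_coprime l hl (n : ℤ) (Nat.isCoprime_iff_coprime.2 h)
  rw [← h1]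
  unfold Pool.Agent.H92.EH.ram
  rcases Nat.lt_or_ge 1 l with h2 | h2
  · have e : (Icc 1 l).filter (fun b => Nat.Coprime b l) = Pool.Agent.H92.EH.red l := by
      ext b
      rw [mem_filter, mem_Icc, Pool.Agent.H92.EH.mem_red]
      constructor
      · rintro ⟨⟨h3, h4⟩, h5⟩
        refine ⟨lt_of_le_of_ne h4 ?_, h5⟩
        rintro rfl
        rw [Nat.coprime_self] at h5
        omega
      · rintro ⟨h3, h4⟩
        refine ⟨⟨?_, h3.le⟩, h4⟩
        by_contra h5
        have h6 : b = 0 := by omega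
        subst h6
        rw [Nat.coprime_zero_left] at h4
        omega
    rw [e]
    refine sum_congr rfl fun b _ => ?_
    rw [RgI_e_eq]
    congr 1
    push_cast
    ring
  · have h3 : l = 1 := by omega
    subst h3
    have e1 : (Icc 1 1).filter (fun b => Nat.Coprime b 1) = {1} := by decide
    have e2 : Pool.Agent.H92.EH.red 1 = {0} := by decide
    rw [e1, e2, sum_singleton, sum_singleton, RgI_e_eq]
    have h4 : ee ((n : ℝ) * ((1 : ℕ) : ℝ) / ((1 : ℕ) : ℝ)) = 1 := by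
      unfold ee
      rw [Complex.exp_eq_one_iff]
      exact ⟨n, by push_cast; ring⟩
    have h5 : ee (((n : ℤ) : ℝ) * (((0 : ℕ) : ℝ) / ((1 : ℕ) : ℝ))) = 1 := by
      unfold ee
      rw [Complex.exp_eq_one_iff]
      exact ⟨0, by push_cast; ring⟩
    rw [h4, h5]

/-- a prime in `(P, P 2^J]` lies in a block -/
private theorem RgI_block (P J p : ℕ) (hp : p.Prime) (h1 : P < p) (h2 : p ≤ P * 2 ^ J) :
    ∃ i < J, p ∈ pb (P * 2 ^ i) := by
  induction J with
  | zero =>
    rw [pow_zero, mul_one] at h2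
    omega
  | succ J ih =>
    by_cases h3 : p ≤ P * 2 ^ J
    · obtain ⟨i, hi, h4⟩ := ih h3
      exact ⟨i, by omega, h4⟩
    · refine ⟨J, by omega, ?_⟩
      unfold pb
      rw [mem_filter, mem_Ioc]
      refine ⟨⟨by omega, ?_⟩, hp⟩
      rw [pow_succ] at h2
      linarith only [h2]

private theorem RgI_coprime (P J n l : ℕ) (hn : Rk P J n) (hl0 : 0 < l) (hl : l ≤ P * 2 ^ J)
    (hc : Nat.Coprime l (RgI_q P)) : Nat.Coprime n l := by
  rw [Nat.coprime_comm]
  refine Nat.Coprime.symm ?_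
  refine Nat.Coprime.symm (Nat.coprime_of_dvd ?_)
  intro p hp hpl hpn
  have h1 : P < p := by
    by_contra hcon
    have h2 : p ∣ RgI_q P := by
      unfold RgI_q
      refine dvd_prod_of_mem _ ?_
      rw [Pool.Agent.H35.V1.mem_PPr]
      exact ⟨⟨hp.pos, by omega⟩, hp⟩
    have h3 := Nat.eq_one_of_dvd_coprimes hc hpl h2
    exact hp.one_lt.ne' h3
  obtain ⟨i, hi, h4⟩ := RgI_block P J p hp h1 ((Nat.le_of_dvd hl0 hpl).trans hl)
  exact hn i hi p h4 hpn

private theorem RgI_term (P J l : ℕ) (T : Finset ℕ) (hT : ∀ n ∈ T, Rk P J n) (hl0 : 0 < l)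
    (hl : l ≤ P * 2 ^ J) (hc : Nat.Coprime l (RgI_q P)) :
    Pool.Agent.H87.WL.mo l ^ 2 / (l.totient : ℝ) * (T.card : ℝ) ^ 2 ≤
      ∑ b ∈ (Icc 1 l).filter (fun b => Nat.Coprime b l),
        ‖∑ n ∈ T, ee ((n : ℝ) * b / l)‖ ^ 2 := by
  have hφ : (0 : ℝ) < l.totient := by exact_mod_cast Nat.totient_pos.2 hl0
  have h1 : ∑ b ∈ (Icc 1 l).filter (fun b => Nat.Coprime b l),
      ∑ n ∈ T, ee ((n : ℝ) * b / l) = (T.card : ℂ) * ((ArithmeticFunction.moebius l : ℤ) : ℂ) := by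
    rw [sum_comm, sum_congr rfl fun n hn => RgI_ram l n hl0
      (RgI_coprime P J n l (hT n hn) hl0 hl hc), sum_const, nsmul_eq_mul]
  have h2 : ‖(T.card : ℂ) * ((ArithmeticFunction.moebius l : ℤ) : ℂ)‖ =
      (T.card : ℝ) * |Pool.Agent.H87.WL.mo l| := by
    rw [norm_mul, Complex.norm_natCast, Complex.norm_intCast]
    rfl
  have h3 : (T.card : ℝ) * |Pool.Agent.H87.WL.mo l| ≤
      ∑ b ∈ (Icc 1 l).filter (fun b => Nat.Coprime b l), ‖∑ n ∈ T, ee ((n : ℝ) * b / l)‖ := by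
    rw [← h2, ← h1]
    exact norm_sum_le _ _
  have h4 := sq_sum_le_card_mul_sum_sq (s := (Icc 1 l).filter (fun b => Nat.Coprime b l))
    (f := fun b => ‖∑ n ∈ T, ee ((n : ℝ) * b / l)‖)
  have h5 : (((Icc 1 l).filter (fun b => Nat.Coprime b l)).card : ℝ) = l.totient := by
    congr 1
    rw [Nat.totient_eq_card_coprime]
    rcases Nat.lt_or_ge 1 l with h2 | h2
    · apply congrArg card
      ext b
      rw [mem_filter, mem_Icc, mem_filter, mem_range, Nat.coprime_comm]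
      constructor
      · rintro ⟨⟨h3, h4⟩, h5⟩
        refine ⟨lt_of_le_of_ne h4 ?_, h5⟩
        rintro rfl
        rw [Nat.coprime_self] at h5
        omega
      · rintro ⟨h3, h4⟩
        refine ⟨⟨?_, h3.le⟩, h4⟩
        by_contra h5
        have h6 : b = 0 := by omega
        subst h6
        rw [Nat.coprime_zero_right] at h4
        omega
    · have h3 : l = 1 := by omega
      subst h3
      decide
  rw [h5] at h4
  have h6 : ((T.card : ℝ) * |Pool.Agent.H87.WL.mo l|) ^ 2 ≤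
      (∑ b ∈ (Icc 1 l).filter (fun b => Nat.Coprime b l),
        ‖∑ n ∈ T, ee ((n : ℝ) * b / l)‖) ^ 2 :=
    pow_le_pow_left₀ (by positivity) h3 2
  rw [mul_pow, sq_abs] at h6
  rw [div_mul_eq_mul_div, div_le_iff₀ hφ]
  calc Pool.Agent.H87.WL.mo l ^ 2 * (T.card : ℝ) ^ 2
      = (T.card : ℝ) ^ 2 * Pool.Agent.H87.WL.mo l ^ 2 := by ring
    _ ≤ _ := h6.trans h4
    _ = _ := by ring

private theorem RgI_main (P J K0 K : ℕ) (T : Finset ℕ) (hT : ∀ n ∈ T, Rk P J n)
    (hTs : T ⊆ Ioc K0 (K0 + K)) :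
    (T.card : ℝ) * Pool.Agent.H87.WL.Gs (P * 2 ^ J) (RgI_q P) ≤
      ((P * 2 ^ J : ℕ) : ℝ) ^ 2 + Real.pi * K := by
  rcases Nat.eq_zero_or_pos T.card with h0 | h0
  · rw [h0, Nat.cast_zero, zero_mul]
    positivity
  have hc0 : (0 : ℝ) < T.card := by exact_mod_cast h0
  have h1 := Pool.Agent.H91.PK.additive_ls (P * 2 ^ J) K0 K (fun n => if n ∈ T then 1 else 0)
  have h2 : ∀ t : ℕ → ℂ, ∑ n ∈ Ioc K0 (K0 + K), (if n ∈ T then (1 : ℂ) else 0) * t n =
      ∑ n ∈ T, t n := by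
    intro t
    rw [← sum_filter_add_sum_filter_not (Ioc K0 (K0 + K)) (fun n => n ∈ T)]
    have e1 : (Ioc K0 (K0 + K)).filter (fun n => n ∈ T) = T := by
      ext n
      rw [mem_filter]
      exact ⟨fun h => h.2, fun h => ⟨hTs h, h⟩⟩
    rw [e1]
    have e2 : ∑ n ∈ (Ioc K0 (K0 + K)).filter (fun n => ¬ n ∈ T),
        (if n ∈ T then (1 : ℂ) else 0) * t n = 0 := by
      refine sum_eq_zero fun n hn => ?_
      rw [if_neg (mem_filter.1 hn).2, zero_mul]
    rw [e2, add_zero]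
    refine sum_congr rfl fun n hn => ?_
    rw [if_pos hn, one_mul]
  have h3 : ∑ n ∈ Ioc K0 (K0 + K), ‖(if n ∈ T then (1 : ℂ) else 0)‖ ^ 2 = (T.card : ℝ) := by
    have e1 : ∀ n, ‖(if n ∈ T then (1 : ℂ) else 0)‖ ^ 2 = if n ∈ T then (1 : ℝ) else 0 := by
      intro n
      split_ifs <;> simp
    simp only [e1]
    rw [← sum_filter]
    have e2 : (Ioc K0 (K0 + K)).filter (fun n => n ∈ T) = T := by
      ext n
      rw [mem_filter]
      exact ⟨fun h => h.2, fun h => ⟨hTs h, h⟩⟩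
    rw [e2, sum_const, nsmul_eq_mul, mul_one]
  rw [h3] at h1
  simp only [h2] at h1
  have h4 : Pool.Agent.H87.WL.Gs (P * 2 ^ J) (RgI_q P) * (T.card : ℝ) ^ 2 ≤
      (((P * 2 ^ J : ℕ) : ℝ) ^ 2 + Real.pi * K) * T.card := by
    refine le_trans ?_ h1
    unfold Pool.Agent.H87.WL.Gs
    rw [sum_mul]
    refine le_trans (sum_le_sum (g := fun l : ℕ =>
      ∑ b ∈ (Icc 1 l).filter (fun b => Nat.Coprime b l),
        ‖∑ n ∈ T, ee ((n : ℝ) * b / l)‖ ^ 2) fun l hl => ?_) ?_
    · rw [mem_filter, mem_Icc] at hl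
      exact RgI_term P J l T hT (by omega) hl.1.2 hl.2
    · refine sum_le_sum_of_subset_of_nonneg (filter_subset _ _) fun l _ _ => ?_
      exact sum_nonneg fun b _ => by positivity
  have h5 : (T.card : ℝ) * ((T.card : ℝ) * Pool.Agent.H87.WL.Gs (P * 2 ^ J) (RgI_q P)) ≤
      T.card * (((P * 2 ^ J : ℕ) : ℝ) ^ 2 + Real.pi * K) := by
    calc _ = Pool.Agent.H87.WL.Gs (P * 2 ^ J) (RgI_q P) * (T.card : ℝ) ^ 2 := by ring
      _ ≤ _ := h4
      _ = _ := by ring
  exact le_of_mul_le_mul_left h5 hc0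

open Classical in
theorem rg_int : ∃ C : ℝ, 0 < C ∧ ∀ P J a h : ℕ, 2 ≤ P → (P * 2 ^ J) ^ 4 ≤ h →
    (((Ico a (a + h)).filter (fun n => Rk P J n)).card : ℝ)
      ≤ C * h * Real.log P / Real.log ((P * 2 ^ J : ℕ) : ℝ) := by
  obtain ⟨C, hC, hM⟩ := RgI_mertens
  refine ⟨5 * C + 2, by positivity, fun P J a h hP hh => ?_⟩
  set D : ℕ := P * 2 ^ J with hD
  have hD2 : 2 ≤ D := hP.trans (Nat.le_mul_of_pos_right P (by positivity))
  have hlP : 0 < Real.log P := Real.log_pos (by exact_mod_cast (by omega : 1 < P))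
  have hlD : 0 < Real.log D := Real.log_pos (by exact_mod_cast (by omega : 1 < D))
  have hDh2 : D ^ 2 ≤ h := (Nat.pow_le_pow_right (by omega) (by norm_num)).trans hh
  have hDh : D ≤ h := (Nat.le_self_pow (by norm_num) D).trans hh
  set T : Finset ℕ := (Ioc (a - 1) (a - 1 + h)).filter (fun n => Rk P J n) with hT
  have hmain := RgI_main P J (a - 1) h T (fun n hn => (mem_filter.1 hn).2) (filter_subset _ _)
  rw [← hD] at hmain
  have hcard : ((Ico a (a + h)).filter (fun n => Rk P J n)).card ≤ T.card + 1 := by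
    have hsub : (Ico a (a + h)).filter (fun n => Rk P J n) ⊆ insert 0 T := by
      intro n hn
      rw [mem_filter, mem_Ico] at hn
      rw [mem_insert, hT, mem_filter, mem_Ioc]
      rcases Nat.eq_zero_or_pos n with h0 | h0
      · exact Or.inl h0
      · exact Or.inr ⟨⟨by omega, by omega⟩, hn.2⟩
    exact (card_le_card hsub).trans (card_insert_le _ _)
  have hGs := Pool.Agent.H87.WL.gs_ge D (RgI_q P) (Nat.one_le_iff_ne_zero.2 (RgI_q_ne P))
  have hq := hM P hP
  have hq0 : (0 : ℝ) < RgI_q P := by exact_mod_cast Nat.pos_of_ne_zero (RgI_q_ne P)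
  have hφ0 : (0 : ℝ) < (RgI_q P).totient := by
    exact_mod_cast Nat.totient_pos.2 (Nat.pos_of_ne_zero (RgI_q_ne P))
  have hlD1 : Real.log D ≤ Real.log (D + 1) :=
    Real.log_le_log (by exact_mod_cast (by omega : 0 < D)) (by linarith only)
  have h1 : Real.log D ≤ C * Real.log P * Pool.Agent.H87.WL.Gs D (RgI_q P) := by
    have h2 : 0 ≤ Pool.Agent.H87.WL.Gs D (RgI_q P) := by
      refine le_trans ?_ hGs
      have : 0 ≤ Real.log ((D : ℝ) + 1) := by linarith only [hlD, hlD1]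
      positivity
    calc Real.log D ≤ Real.log (D + 1) := hlD1
      _ = ((RgI_q P : ℕ) : ℝ) / (RgI_q P).totient *
          (((RgI_q P).totient : ℝ) / RgI_q P * Real.log (D + 1)) := by
        field_simp
      _ ≤ ((RgI_q P : ℕ) : ℝ) / (RgI_q P).totient * Pool.Agent.H87.WL.Gs D (RgI_q P) :=
        mul_le_mul_of_nonneg_left hGs (by positivity)
      _ ≤ _ := mul_le_mul_of_nonneg_right hq h2
  have h2 : (T.card : ℝ) * Pool.Agent.H87.WL.Gs D (RgI_q P) ≤ 5 * h := by
    have h3 : ((D : ℕ) : ℝ) ^ 2 ≤ h := by exact_mod_cast hDh2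
    have h4 := Real.pi_le_four
    have h5 : Real.pi * (h : ℝ) ≤ 4 * h := mul_le_mul_of_nonneg_right h4 (Nat.cast_nonneg h)
    linarith only [hmain, h3, h5]
  have h3 : (T.card : ℝ) * Real.log D ≤ 5 * C * h * Real.log P := by
    calc (T.card : ℝ) * Real.log D
        ≤ T.card * (C * Real.log P * Pool.Agent.H87.WL.Gs D (RgI_q P)) :=
          mul_le_mul_of_nonneg_left h1 (Nat.cast_nonneg _)
      _ = C * Real.log P * ((T.card : ℝ) * Pool.Agent.H87.WL.Gs D (RgI_q P)) := by ring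
      _ ≤ C * Real.log P * (5 * h) := mul_le_mul_of_nonneg_left h2 (by positivity)
      _ = _ := by ring
  have h4 : Real.log D ≤ 2 * h * Real.log P := by
    have h5 : Real.log D ≤ D := (Real.log_le_self (Nat.cast_nonneg D))
    have h6 : (D : ℝ) ≤ h := by exact_mod_cast hDh
    have h7 : Real.log 2 ≤ Real.log P :=
      Real.log_le_log (by norm_num) (by exact_mod_cast hP)
    have h8 := Real.log_two_gt_d9
    have h9 : (0 : ℝ) ≤ h := Nat.cast_nonneg h
    nlinarith only [hlD, h5, h6, h7, h8]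
  rw [le_div_iff₀ hlD]
  have h5 : (((Ico a (a + h)).filter (fun n => Rk P J n)).card : ℝ) ≤ T.card + 1 := by
    exact_mod_cast hcard
  calc (((Ico a (a + h)).filter (fun n => Rk P J n)).card : ℝ) * Real.log D
      ≤ (T.card + 1) * Real.log D := mul_le_mul_of_nonneg_right h5 hlD.le
    _ = T.card * Real.log D + Real.log D := by ring
    _ ≤ 5 * C * h * Real.log P + 2 * h * Real.log P := add_le_add h3 h4
    _ = _ := by ring

end Pool.Agent.H76.MU

end

section

/-!
# MU MuId: the Möbius function from the Liouville function, and the tail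

`mu_id`: write `n = b^2 a`, `a` squarefree (`Nat.sq_mul_squarefree`): `d^2 | n` iff `d | b`, `lio (n/d^2) = lio a = μ(a)` and `∑_{d | b} μ(d) = [b = 1]`.
`tail`: `t(n) = #{d ∈ Ioc D n : d^2 | n}`; `(∑_{n ∈ window} t)^2 ≤ h ∑_{n ∈ window} t(n)^2` and each `n ≤ 2X` is in at most `h` windows: the left side is `≤ h^2 ∑_{n ≤ 2X} t(n)^2`, and
`∑_{n ≤ 2X} t(n)^2 = ∑_{d, d' > D} #{n ≤ 2X : lcm(d,d')^2 | n} ≤ 2X ∑_{d > D} ∑_{d'} gcd(d,d')^2/(d d')^2 ≤ 2X ∑_{d > D} d^{-2} ∑_{g | d} ∑_e e^{-2} ≤ 4 X ∑_{d > D} τ(d)/d^2 ≤ 4X ∑_{d > D} 2 √d/d^2 ≤ 16 X/√D · 2`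
(finite sums over `d, d' ≤ 2X`; `τ(d) ≤ 2 √d`; `∑_{d > D} d^{-3/2} ≤ 2/√D`; `D ≥ 1`).
-/

set_option autoImplicit false

namespace Pool.Agent.H76.MU

open Finset

/-- the Möbius function -/
noncomputable def muR (n : ℕ) : ℝ := ((ArithmeticFunction.moebius n : ℤ) : ℝ)

private lemma sq_dvd_iff (b a d : ℕ) (hb : b ≠ 0) (ha : Squarefree a) (hd : d ≠ 0) :
    d ^ 2 ∣ b ^ 2 * a ↔ d ∣ b := by
  constructor
  · intro h
    have ha0 : a ≠ 0 := ha.ne_zero
    rw [← Nat.factorization_le_iff_dvd hd hb]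
    rw [← Nat.factorization_le_iff_dvd (by positivity) (by positivity)] at h
    intro p
    have h1 := h p
    rw [Nat.factorization_mul (by positivity) ha0, Nat.factorization_pow, Nat.factorization_pow] at h1
    simp only [Finsupp.coe_smul, Finsupp.coe_add, Pi.add_apply, Pi.smul_apply, smul_eq_mul] at h1
    have h2 : a.factorization p ≤ 1 := by
      exact (Nat.squarefree_iff_factorization_le_one ha0).1 ha p
    omega
  · intro h
    exact Dvd.dvd.mul_right (pow_dvd_pow_of_dvd h 2) a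

private lemma sum_mu_div (b : ℕ) : ∑ d ∈ b.divisors, muR d = if b = 1 then 1 else 0 := by
  have h := congrArg (fun f : ArithmeticFunction ℤ => f b)
    ArithmeticFunction.coe_zeta_mul_moebius
  simp only [ArithmeticFunction.coe_zeta_mul_apply, ArithmeticFunction.one_apply] at h
  unfold muR
  rw [← Int.cast_sum, h]
  split_ifs <;> simp

theorem mu_id (n : ℕ) (hn : n ≠ 0) :
    muR n = ∑ d ∈ (Icc 1 n).filter (fun d => d ^ 2 ∣ n), muR d * lio (n / d ^ 2) := by
  obtain ⟨a, b, hab, ha⟩ := Nat.sq_mul_squarefree n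
  have hb : b ≠ 0 := by
    rintro rfl
    apply hn
    rw [← hab]; simp
  have ha0 : a ≠ 0 := ha.ne_zero
  have hset : (Icc 1 n).filter (fun d => d ^ 2 ∣ n) = b.divisors := by
    ext d
    rw [mem_filter, mem_Icc, Nat.mem_divisors]
    constructor
    · rintro ⟨⟨h1, h2⟩, h3⟩
      rw [← hab] at h3
      exact ⟨(sq_dvd_iff b a d hb ha (by omega)).1 h3, hb⟩
    · rintro ⟨h1, h2⟩
      have hd0 : 0 < d := Nat.pos_of_dvd_of_pos h1 (by omega)
      refine ⟨⟨hd0, ?_⟩, ?_⟩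
      · have h3 : d ≤ b := Nat.le_of_dvd (by omega) h1
        have h4 : b ≤ b ^ 2 := by nlinarith only [hd0, h3, Nat.pos_of_ne_zero hb]
        have h5 : b ^ 2 ≤ b ^ 2 * a := Nat.le_mul_of_pos_right _ (Nat.pos_of_ne_zero ha0)
        omega
      · rw [← hab]
        exact (sq_dvd_iff b a d hb ha (by omega)).2 h1
  rw [hset]
  have hl : ∀ d ∈ b.divisors, muR d * lio (n / d ^ 2) = muR d * lio a := by
    intro d hd
    rw [Nat.mem_divisors] at hd
    obtain ⟨⟨e, he⟩, _⟩ := hd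
    have hd0 : 0 < d := by
      rcases Nat.eq_zero_or_pos d with h | h
      · subst h; exfalso; apply hb; rw [he]; simp
      · exact h
    have he0 : e ≠ 0 := by
      rintro rfl; apply hb; rw [he]; simp
    have h1 : n / d ^ 2 = (e * e) * a := by
      rw [← hab, he]
      have : (d * e) ^ 2 * a = d ^ 2 * (e * e * a) := by ring
      rw [this, Nat.mul_div_cancel_left _ (by positivity)]
    rw [h1, lio_mul, lio_mul]
    have h2 : lio e * lio e = 1 := by
      unfold lio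
      rw [if_neg he0, ← pow_add, ← two_mul, pow_mul]
      simp
    rw [h2, one_mul]
  rw [sum_congr rfl hl, ← sum_mul, sum_mu_div]
  by_cases h1 : b = 1
  · subst h1
    rw [if_pos rfl, one_mul]
    have h2 : a = n := by rw [← hab]; ring
    subst h2
    unfold muR lio
    rw [if_neg hn, ArithmeticFunction.moebius_apply_of_squarefree ha]
    push_cast
    rfl
  · rw [if_neg h1, zero_mul]
    unfold muR
    have h2 : ¬ Squarefree n := by
      intro h3
      have h4 : b * b ∣ n := by rw [← hab]; exact ⟨a, by ring⟩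
      have h5 := h3 b h4
      exact h1 (Nat.isUnit_iff.1 h5)
    rw [ArithmeticFunction.moebius_eq_zero_of_not_squarefree h2]
    simp

/-- the number of divisors is at most `2 √d` -/
private lemma card_div_le (d : ℕ) : (d.divisors.card : ℝ) ≤ 2 * Real.sqrt d := by
  have h1 : d.divisors ⊆ (Icc 1 (Nat.sqrt d)) ∪ (Icc 1 (Nat.sqrt d)).image (fun e => d / e) := by
    intro e he
    rw [Nat.mem_divisors] at he
    obtain ⟨⟨f, hf⟩, hd⟩ := he
    have he0 : 0 < e := by
      rcases Nat.eq_zero_or_pos e with h | h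
      · subst h; exfalso; apply hd; rw [hf]; simp
      · exact h
    have hf0 : 0 < f := by
      rcases Nat.eq_zero_or_pos f with h | h
      · subst h; exfalso; apply hd; rw [hf]; simp
      · exact h
    rw [mem_union, mem_image]
    by_cases h2 : e ≤ Nat.sqrt d
    · left; rw [mem_Icc]; exact ⟨he0, h2⟩
    · right
      push Not at h2
      refine ⟨f, ?_, ?_⟩
      · rw [mem_Icc]
        refine ⟨hf0, ?_⟩
        by_contra h3
        push Not at h3
        have h4 : d < (Nat.sqrt d + 1) * (Nat.sqrt d + 1) := Nat.lt_succ_sqrt d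
        have h5 : (Nat.sqrt d + 1) * (Nat.sqrt d + 1) ≤ e * f := Nat.mul_le_mul h2 h3
        omega
      · show d / f = e
        rw [hf]
        exact Nat.mul_div_cancel _ hf0
  have h2 := (card_le_card h1).trans (card_union_le _ _)
  have h3 : ((Icc 1 (Nat.sqrt d)).image (fun e => d / e)).card ≤ (Icc 1 (Nat.sqrt d)).card :=
    card_image_le
  rw [Nat.card_Icc] at h2 h3
  have h4 : d.divisors.card ≤ 2 * Nat.sqrt d := by omega
  have h5 : ((Nat.sqrt d : ℕ) : ℝ) ≤ Real.sqrt d := Real.nat_sqrt_le_real_sqrt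
  have h6 : (d.divisors.card : ℝ) ≤ 2 * (Nat.sqrt d : ℕ) := by exact_mod_cast h4
  linarith only [h5, h6]

private lemma sum_inv_sq (N : ℕ) : ∑ e ∈ Icc 1 N, (1 : ℝ) / (e : ℝ) ^ 2 ≤ 2 := by
  rcases Nat.eq_zero_or_pos N with h | h
  · subst h; simp
  · have h1 : Icc 1 N = insert 1 (Ioc 1 N) := by
      ext x; simp only [mem_Icc, mem_insert, mem_Ioc]; omega
    rw [h1, sum_insert (by simp)]
    have h2 := sum_Ioc_inv_sq_le_sub (α := ℝ) (k := 1) (n := N) one_ne_zero h
    have h3 : ∑ e ∈ Ioc 1 N, (1 : ℝ) / (e : ℝ) ^ 2 = ∑ e ∈ Ioc 1 N, ((e : ℝ) ^ 2)⁻¹ :=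
      sum_congr rfl (fun e _ => one_div _)
    rw [h3]
    have h4 : (0 : ℝ) ≤ ((N : ℕ) : ℝ)⁻¹ := by positivity
    norm_num at h2 ⊢
    linarith only [h4, h2]

private lemma sum_three_half (D N : ℕ) (hD : 1 ≤ D) :
    ∑ d ∈ Ioc D N, (1 : ℝ) / (d * Real.sqrt d) ≤ 2 / Real.sqrt D := by
  have key : ∀ N : ℕ, D ≤ N → ∑ d ∈ Ioc D N, (1 : ℝ) / (d * Real.sqrt d)
      ≤ 2 / Real.sqrt D - 2 / Real.sqrt N := by
    intro N hN
    induction N, hN using Nat.le_induction with
    | base => simp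
    | succ N hN ih =>
      have e1 : Ioc D (N + 1) = insert (N + 1) (Ioc D N) := by
        ext x; simp only [mem_insert, mem_Ioc]; omega
      rw [e1, sum_insert (by simp)]
      have hN0 : (0 : ℝ) < N := by exact_mod_cast (by omega : 0 < N)
      have hs1 : 0 < Real.sqrt N := Real.sqrt_pos.2 hN0
      have hN1 : (0 : ℝ) < ((N + 1 : ℕ) : ℝ) := by positivity
      have hs2 : 0 < Real.sqrt ((N + 1 : ℕ) : ℝ) := Real.sqrt_pos.2 hN1
      have hle : Real.sqrt N ≤ Real.sqrt ((N + 1 : ℕ) : ℝ) :=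
        Real.sqrt_le_sqrt (by push_cast; linarith only)
      have q1 : Real.sqrt N ^ 2 = N := Real.sq_sqrt hN0.le
      have q2 : Real.sqrt ((N + 1 : ℕ) : ℝ) ^ 2 = N + 1 := by
        rw [Real.sq_sqrt hN1.le]; push_cast; ring
      set a := Real.sqrt N with ha
      set b := Real.sqrt ((N + 1 : ℕ) : ℝ) with hb
      have hcast : ((N + 1 : ℕ) : ℝ) = b ^ 2 := by rw [q2]; push_cast; ring
      have h5 : (1 : ℝ) / (((N + 1 : ℕ) : ℝ) * b) ≤ 2 / a - 2 / b := by
        rw [hcast, div_sub_div _ _ hs1.ne' hs2.ne', div_le_div_iff₀ (by positivity) (by positivity)]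
        have h6 : (b - a) * (b + a) = 1 := by
          have : (b - a) * (b + a) = b ^ 2 - a ^ 2 := by ring
          rw [this, q1, q2]; ring
        have h7 : 0 ≤ b - a := by linarith only [hle]
        have h8 : 1 ≤ 2 * b * (b - a) := by nlinarith only [hle, hs1, q1, hs2, q2]
        have h9 : (0 : ℝ) < b ^ 2 := by positivity
        have h10 : a ≤ b := hle
        nlinarith only [h8, mul_le_mul_of_nonneg_left h8 (by positivity : (0 : ℝ) ≤ b ^ 2), mul_le_mul_of_nonneg_left h10 hs2.le]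
      linarith only [ih, h5]
  rcases le_or_gt D N with h | h
  · have := key N h
    have h2 : 0 ≤ 2 / Real.sqrt N := by positivity
    linarith only [this, h2]
  · rw [Ioc_eq_empty (by omega), sum_empty]
    positivity

/-- the inner sum over `d'` -/
private lemma inner_gcd (N d : ℕ) (hd : 1 ≤ d) :
    ∑ e ∈ Icc 1 N, ((Nat.gcd d e : ℕ) : ℝ) ^ 2 / (e : ℝ) ^ 2 ≤ 4 * Real.sqrt d := by
  classical
  set φ : ℕ → ℕ × ℕ := fun e => (Nat.gcd d e, e / Nat.gcd d e) with hφ
  set F : ℕ × ℕ → ℝ := fun x => 1 / (x.2 : ℝ) ^ 2 with hF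
  have h1 : ∀ e ∈ Icc 1 N, ((Nat.gcd d e : ℕ) : ℝ) ^ 2 / (e : ℝ) ^ 2 = F (φ e) := by
    intro e he
    rw [mem_Icc] at he
    have hg : 0 < Nat.gcd d e := Nat.gcd_pos_of_pos_right _ (by omega)
    have he0 : (0 : ℝ) < e := by exact_mod_cast (by omega : 0 < e)
    have hg0 : (0 : ℝ) < ((Nat.gcd d e : ℕ) : ℝ) := by exact_mod_cast hg
    simp only [hφ, hF]
    rw [Nat.cast_div (Nat.gcd_dvd_right d e) hg0.ne']
    field_simp
  have hinj : Set.InjOn φ (Icc 1 N : Finset ℕ) := by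
    intro x hx y hy hxy
    simp only [hφ, Prod.mk.injEq] at hxy
    obtain ⟨h2, h3⟩ := hxy
    have e1 : Nat.gcd d x * (x / Nat.gcd d x) = x := Nat.mul_div_cancel' (Nat.gcd_dvd_right d x)
    have e2 : Nat.gcd d y * (y / Nat.gcd d y) = y := Nat.mul_div_cancel' (Nat.gcd_dvd_right d y)
    rw [← e1, ← e2, h3, h2]
  rw [sum_congr rfl h1, ← sum_image (f := F) hinj]
  have hsub : (Icc 1 N).image φ ⊆ d.divisors ×ˢ Icc 1 N := by
    intro x hx
    rw [mem_image] at hx
    obtain ⟨e, he, rfl⟩ := hx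
    rw [mem_Icc] at he
    have hg : 0 < Nat.gcd d e := Nat.gcd_pos_of_pos_right _ (by omega)
    rw [mem_product, Nat.mem_divisors, mem_Icc]
    simp only [hφ]
    refine ⟨⟨Nat.gcd_dvd_left d e, by omega⟩, ?_, ?_⟩
    · exact Nat.div_pos (Nat.le_of_dvd (by omega) (Nat.gcd_dvd_right d e)) hg
    · exact (Nat.div_le_self _ _).trans he.2
  have h4 : ∑ x ∈ (Icc 1 N).image φ, F x ≤ ∑ x ∈ d.divisors ×ˢ Icc 1 N, F x :=
    sum_le_sum_of_subset_of_nonneg hsub (fun x _ _ => by simp only [hF]; positivity)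
  refine h4.trans ?_
  rw [sum_product]
  have h5 : ∀ g ∈ d.divisors, ∑ e ∈ Icc 1 N, F (g, e) ≤ 2 := fun g _ => sum_inv_sq N
  refine (sum_le_sum h5).trans ?_
  rw [sum_const, nsmul_eq_mul]
  have := card_div_le d
  linarith only [this]

/-- the mean square of the number of large square divisors -/
private lemma sq_count (D N : ℕ) (hD : 1 ≤ D) :
    ∑ n ∈ Icc 1 N, (((Ioc D n).filter (fun d => d ^ 2 ∣ n)).card : ℝ) ^ 2
      ≤ N * (8 / Real.sqrt D) := by
  classical
  have h1 : ∀ n ∈ Icc 1 N, (((Ioc D n).filter (fun d => d ^ 2 ∣ n)).card : ℝ) ^ 2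
      = ∑ d ∈ Ioc D N, ∑ e ∈ Ioc D N, if (d ^ 2 ∣ n ∧ e ^ 2 ∣ n) then (1 : ℝ) else 0 := by
    intro n hn
    rw [mem_Icc] at hn
    have h2 : (Ioc D n).filter (fun d => d ^ 2 ∣ n) = (Ioc D N).filter (fun d => d ^ 2 ∣ n) := by
      ext d
      simp only [mem_filter, mem_Ioc]
      constructor
      · rintro ⟨⟨a1, a2⟩, a3⟩; exact ⟨⟨a1, by omega⟩, a3⟩
      · rintro ⟨⟨a1, a2⟩, a3⟩
        refine ⟨⟨a1, ?_⟩, a3⟩
        have := Nat.le_of_dvd (by omega) a3
        nlinarith only [hD, this, a1]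
    rw [h2, sq, card_filter]
    push_cast
    rw [sum_mul_sum]
    refine sum_congr rfl (fun d _ => sum_congr rfl (fun e _ => ?_))
    by_cases q1 : d ^ 2 ∣ n <;> by_cases q2 : e ^ 2 ∣ n <;> simp [q1, q2]
  rw [sum_congr rfl h1, sum_comm]
  have h2 : ∀ d ∈ Ioc D N, ∑ n ∈ Icc 1 N, ∑ e ∈ Ioc D N,
      (if (d ^ 2 ∣ n ∧ e ^ 2 ∣ n) then (1 : ℝ) else 0) ≤ N * (4 / (d * Real.sqrt d)) := by
    intro d hd
    rw [mem_Ioc] at hd
    rw [sum_comm]
    have hd0 : (0 : ℝ) < d := by exact_mod_cast (by omega : 0 < d)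
    have h3 : ∀ e ∈ Ioc D N, ∑ n ∈ Icc 1 N, (if (d ^ 2 ∣ n ∧ e ^ 2 ∣ n) then (1 : ℝ) else 0)
        ≤ (N / (d : ℝ) ^ 2) * (((Nat.gcd d e : ℕ) : ℝ) ^ 2 / (e : ℝ) ^ 2) := by
      intro e he
      rw [mem_Ioc] at he
      have he0 : (0 : ℝ) < e := by exact_mod_cast (by omega : 0 < e)
      have h4 : ∑ n ∈ Icc 1 N, (if (d ^ 2 ∣ n ∧ e ^ 2 ∣ n) then (1 : ℝ) else 0)
          ≤ (((Ioc 0 N).filter (fun n => (Nat.lcm d e) ^ 2 ∣ n)).card : ℝ) := by
        rw [card_filter]
        push_cast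
        have e1 : Icc 1 N = Ioc 0 N := by ext x; simp only [mem_Icc, mem_Ioc]; omega
        rw [e1]
        refine sum_le_sum (fun n _ => ?_)
        by_cases q : d ^ 2 ∣ n ∧ e ^ 2 ∣ n
        · have q3 : (Nat.lcm d e) ^ 2 ∣ n := by
            rw [← Nat.pow_lcm_pow]
            exact Nat.lcm_dvd q.1 q.2
          rw [if_pos q, if_pos q3]
        · rw [if_neg q]
          split_ifs <;> norm_num
      refine h4.trans ?_
      rw [Nat.Ioc_filter_dvd_card_eq_div]
      refine (Nat.cast_div_le).trans ?_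
      have hg : 0 < Nat.gcd d e := Nat.gcd_pos_of_pos_right _ (by omega)
      have hg0 : (0 : ℝ) < ((Nat.gcd d e : ℕ) : ℝ) := by exact_mod_cast hg
      have h5 : ((Nat.gcd d e : ℕ) : ℝ) * ((Nat.lcm d e : ℕ) : ℝ) = d * e := by
        exact_mod_cast Nat.gcd_mul_lcm d e
      have hl0 : (0 : ℝ) < ((Nat.lcm d e : ℕ) : ℝ) := by
        have : 0 < Nat.lcm d e := Nat.lcm_pos (by omega) (by omega)
        exact_mod_cast this
      have h6 : ((Nat.lcm d e : ℕ) : ℝ) = d * e / ((Nat.gcd d e : ℕ) : ℝ) := by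
        field_simp; linarith only [h5]
      push_cast
      rw [h6]
      apply le_of_eq
      field_simp
    refine (sum_le_sum h3).trans ?_
    rw [← mul_sum]
    have h4 : ∑ e ∈ Ioc D N, ((Nat.gcd d e : ℕ) : ℝ) ^ 2 / (e : ℝ) ^ 2 ≤ 4 * Real.sqrt d := by
      refine le_trans ?_ (inner_gcd N d (by omega))
      apply sum_le_sum_of_subset_of_nonneg
      · intro x hx
        rw [mem_Ioc] at hx; rw [mem_Icc]; omega
      · intro x _ _; positivity
    refine (mul_le_mul_of_nonneg_left h4 (by positivity)).trans ?_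
    have hs : 0 < Real.sqrt d := Real.sqrt_pos.2 hd0
    have q1 : Real.sqrt d * Real.sqrt d = d := Real.mul_self_sqrt hd0.le
    apply le_of_eq
    rw [div_mul_eq_mul_div, mul_div_assoc']
    rw [div_eq_div_iff (by positivity) (by positivity)]
    calc (N : ℝ) * (4 * Real.sqrt d) * (d * Real.sqrt d)
        = N * 4 * d * (Real.sqrt d * Real.sqrt d) := by ring
      _ = N * 4 * (d : ℝ) ^ 2 := by rw [q1]; ring
  refine (sum_le_sum h2).trans ?_
  rw [← mul_sum]
  apply mul_le_mul_of_nonneg_left _ (Nat.cast_nonneg N)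
  have h3 : ∑ d ∈ Ioc D N, (4 : ℝ) / (d * Real.sqrt d) = 4 * ∑ d ∈ Ioc D N, (1 : ℝ) / (d * Real.sqrt d) := by
    rw [mul_sum]
    refine sum_congr rfl (fun d _ => by ring)
  rw [h3]
  have h4 := sum_three_half D N hD
  calc 4 * ∑ d ∈ Ioc D N, (1 : ℝ) / (d * Real.sqrt d) ≤ 4 * (2 / Real.sqrt D) := by linarith only [h4]
    _ = 8 / Real.sqrt D := by ring

theorem tail (D h X : ℕ) (hD : 1 ≤ D) (hX : h ≤ X) :
    ∑ j ∈ Ioc X (2 * X), (∑ n ∈ Ico (j - h) j,
      (((Ioc D n).filter (fun d => d ^ 2 ∣ n)).card : ℝ)) ^ 2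
        ≤ 100 * X * (h : ℝ) ^ 2 / Real.sqrt D := by
  classical
  set t : ℕ → ℝ := fun n => (((Ioc D n).filter (fun d => d ^ 2 ∣ n)).card : ℝ) with ht
  have h1 : ∀ j ∈ Ioc X (2 * X), (∑ n ∈ Ico (j - h) j, t n) ^ 2
      ≤ h * ∑ n ∈ Ico (j - h) j, t n ^ 2 := by
    intro j hj
    rw [mem_Ioc] at hj
    have h2 := sq_sum_le_card_mul_sum_sq (s := Ico (j - h) j) (f := t)
    have h3 : (Ico (j - h) j).card = h := by rw [Nat.card_Ico]; omega
    rw [h3] at h2
    exact h2
  refine (sum_le_sum h1).trans ?_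
  rw [← mul_sum]
  have h2 : ∑ j ∈ Ioc X (2 * X), ∑ n ∈ Ico (j - h) j, t n ^ 2 ≤ h * ∑ n ∈ Icc 1 (2 * X), t n ^ 2 := by
    have h3 : ∀ j ∈ Ioc X (2 * X), ∑ n ∈ Ico (j - h) j, t n ^ 2
        = ∑ n ∈ Icc 1 (2 * X), if (j - h ≤ n ∧ n < j) then t n ^ 2 else 0 := by
      intro j hj
      rw [mem_Ioc] at hj
      rw [← sum_filter]
      refine sum_congr ?_ (fun _ _ => rfl)
      ext n
      simp only [mem_Ico, mem_filter, mem_Icc]
      omega
    rw [sum_congr rfl h3, sum_comm, mul_sum]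
    refine sum_le_sum (fun n hn => ?_)
    rw [← sum_filter, sum_const, nsmul_eq_mul]
    apply mul_le_mul_of_nonneg_right _ (sq_nonneg _)
    have h4 : ((Ioc X (2 * X)).filter (fun j => j - h ≤ n ∧ n < j)) ⊆ Ioc n (n + h) := by
      intro j hj
      simp only [mem_filter, mem_Ioc] at hj ⊢
      omega
    have h5 := card_le_card h4
    rw [Nat.card_Ioc] at h5
    have h6 : ((Ioc X (2 * X)).filter (fun j => j - h ≤ n ∧ n < j)).card ≤ h := by omega
    exact_mod_cast h6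
  have h3 := sq_count D (2 * X) hD
  have hh : (0 : ℝ) ≤ h := Nat.cast_nonneg h
  calc (h : ℝ) * ∑ j ∈ Ioc X (2 * X), ∑ n ∈ Ico (j - h) j, t n ^ 2
      ≤ h * (h * ∑ n ∈ Icc 1 (2 * X), t n ^ 2) := mul_le_mul_of_nonneg_left h2 hh
    _ ≤ h * (h * (((2 * X : ℕ) : ℝ) * (8 / Real.sqrt D))) := by
        apply mul_le_mul_of_nonneg_left _ hh
        exact mul_le_mul_of_nonneg_left h3 hh
    _ = 16 * X * (h : ℝ) ^ 2 / Real.sqrt D := by push_cast; ring
    _ ≤ 100 * X * (h : ℝ) ^ 2 / Real.sqrt D := by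
        apply div_le_div_of_nonneg_right _ (Real.sqrt_nonneg _)
        have : (0 : ℝ) ≤ X * (h : ℝ) ^ 2 := by positivity
        nlinarith only [this]

end Pool.Agent.H76.MU

end
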