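import Pool.Agent.H15.TB1.M39

/-! The parts of this file: H43.MP.Mrt, H97.VK.BrunC, H76.VKT.SDef, H76.VKT.PropB, H76.VKT.BrunT, H76.VKT.Low, H76.VKT.VkChiW. -/

section

/-!
# Mrt: the upper bound of Mertens for the sum of the reciprocals of the primes, elementary
-/

set_option autoImplicit false

namespace Pool.Agent.H43.MP

open Finset

private theorem mrt_log {n : ℕ} (hn : 1 ≤ n) :
    ∑ p ∈ (Icc 1 n).filter Nat.Prime, Real.log p / p ≤ Real.log n + Real.log 4 := by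
  have hn0 : (0 : ℝ) < n := by exact_mod_cast hn
  have h1 : ∑ k ∈ Ioc 0 n, Real.log k = ∑ d ∈ Ioc 0 n, ArithmeticFunction.vonMangoldt d * ((n / d : ℕ) : ℝ) := by
    rw [← ArithmeticFunction.sum_Ioc_mul_zeta_eq_sum, ArithmeticFunction.vonMangoldt_mul_zeta]
    rfl
  have h2 : ∑ k ∈ Ioc 0 n, Real.log (k : ℝ) ≤ n * Real.log n := by
    calc ∑ k ∈ Ioc 0 n, Real.log (k : ℝ) ≤ ∑ _k ∈ Ioc 0 n, Real.log n := by
          refine sum_le_sum fun k hk => ?_
          rw [mem_Ioc] at hk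
          exact Real.log_le_log (by exact_mod_cast hk.1) (by exact_mod_cast hk.2)
      _ = n * Real.log n := by
          rw [sum_const, Nat.card_Ioc, nsmul_eq_mul]
          simp
  have h3 : ∑ p ∈ (Icc 1 n).filter Nat.Prime, Real.log p ≤ Real.log 4 * n := by
    have h := Chebyshev.theta_le_log4_mul_x (x := (n : ℝ)) (by positivity)
    unfold Chebyshev.theta at h
    rw [Nat.floor_natCast] at h
    refine le_trans (le_of_eq ?_) h
    refine sum_congr ?_ fun _ _ => rfl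
    ext p
    simp only [mem_filter, mem_Icc, mem_Ioc]
    constructor
    · rintro ⟨⟨a, b⟩, c⟩
      exact ⟨⟨by omega, b⟩, c⟩
    · rintro ⟨⟨a, b⟩, c⟩
      exact ⟨⟨by omega, b⟩, c⟩
  have h4 : n * ∑ p ∈ (Icc 1 n).filter Nat.Prime, Real.log p / p ≤
      ∑ d ∈ Ioc 0 n, ArithmeticFunction.vonMangoldt d * ((n / d : ℕ) : ℝ) +
        ∑ p ∈ (Icc 1 n).filter Nat.Prime, Real.log p := by
    have h5 : ∑ p ∈ (Icc 1 n).filter Nat.Prime, ArithmeticFunction.vonMangoldt p * ((n / p : ℕ) : ℝ) ≤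
        ∑ d ∈ Ioc 0 n, ArithmeticFunction.vonMangoldt d * ((n / d : ℕ) : ℝ) := by
      refine sum_le_sum_of_subset_of_nonneg ?_ fun d _ _ =>
        mul_nonneg ArithmeticFunction.vonMangoldt_nonneg (Nat.cast_nonneg _)
      intro p hp
      simp only [mem_filter, mem_Icc] at hp
      rw [mem_Ioc]
      omega
    refine le_trans ?_ (add_le_add_left h5 _)
    rw [mul_sum, ← sum_add_distrib]
    refine sum_le_sum fun p hp => ?_
    rw [mem_filter, mem_Icc] at hp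
    have hp0 : (0 : ℝ) < p := by exact_mod_cast hp.1.1
    rw [ArithmeticFunction.vonMangoldt_apply_prime hp.2]
    have hlp : 0 ≤ Real.log p := Real.log_nonneg (by exact_mod_cast hp.1.1)
    have h6 : (n : ℝ) / p ≤ ((n / p : ℕ) : ℝ) + 1 := by
      rw [div_le_iff₀ hp0]
      have h7 : n < (n / p + 1) * p := by
        have := Nat.lt_div_mul_add (a := n) (b := p) hp.1.1
        rw [add_mul, one_mul]
        exact this
      exact_mod_cast h7.le
    calc (n : ℝ) * (Real.log p / p) = Real.log p * (n / p) := by ring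
      _ ≤ Real.log p * (((n / p : ℕ) : ℝ) + 1) := mul_le_mul_of_nonneg_left h6 hlp
      _ = Real.log p * ((n / p : ℕ) : ℝ) + Real.log p := by ring
  rw [← h1] at h4
  have h8 : n * ∑ p ∈ (Icc 1 n).filter Nat.Prime, Real.log p / p ≤ n * (Real.log n + Real.log 4) := by
    linarith only [h2, h3, h4]
  exact le_of_mul_le_mul_left h8 hn0

private theorem mrt_step (y : ℕ) (hy : 2 ≤ y) :
    ∑ p ∈ (Icc 1 y).filter Nat.Prime, (1 : ℝ) / p -
      (∑ p ∈ (Icc 1 y).filter Nat.Prime, Real.log p / p - Real.log y - Real.log 4) / Real.log y ≤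
      Real.log (Real.log y) + (2 + Real.log 4 / Real.log 2 - Real.log (Real.log 2)) := by
  have hl2 : 0 < Real.log 2 := Real.log_pos (by norm_num)
  induction y, hy using Nat.le_induction with
  | base =>
    have e : (Icc 1 2).filter Nat.Prime = {2} := by decide
    rw [e, sum_singleton, sum_singleton]
    push_cast
    have h1 : (1 : ℝ) / 2 - (Real.log 2 / 2 - Real.log 2 - Real.log 4) / Real.log 2 =
        1 + Real.log 4 / Real.log 2 := by
      field_simp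
      ring
    rw [h1]
    linarith only
  | succ y hy ih =>
    have hL : 0 < Real.log y := Real.log_pos (by exact_mod_cast (by omega : 1 < y))
    have hLL : Real.log y ≤ Real.log ((y + 1 : ℕ) : ℝ) :=
      Real.log_le_log (by exact_mod_cast (by omega : 0 < y)) (by exact_mod_cast (by omega))
    have hA := mrt_log (n := y) (by omega)
    obtain ⟨L, hLd⟩ : ∃ L, L = Real.log y := ⟨_, rfl⟩
    obtain ⟨M, hMd⟩ : ∃ M, M = Real.log ((y + 1 : ℕ) : ℝ) := ⟨_, rfl⟩
    obtain ⟨A, hAd⟩ : ∃ A, A = ∑ p ∈ (Icc 1 y).filter Nat.Prime, Real.log p / p := ⟨_, rfl⟩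
    obtain ⟨S, hSd⟩ : ∃ S, S = ∑ p ∈ (Icc 1 y).filter Nat.Prime, (1 : ℝ) / p := ⟨_, rfl⟩
    rw [← hLd, ← hAd, ← hSd] at ih
    rw [← hLd] at hL
    rw [← hLd, ← hMd] at hLL
    rw [← hLd, ← hAd] at hA
    have hM : 0 < M := lt_of_lt_of_le hL hLL
    have hlog : 1 - L / M ≤ Real.log M - Real.log L := by
      have h := Real.one_sub_inv_le_log_of_pos (div_pos hM hL)
      rw [Real.log_div hM.ne' hL.ne', inv_div] at h
      exact h
    have key : (A - Real.log 4) * (1 / L - 1 / M) ≤ 1 - L / M := by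
      have h1 : 0 ≤ 1 / L - 1 / M := sub_nonneg.2 (one_div_le_one_div_of_le hL hLL)
      calc (A - Real.log 4) * (1 / L - 1 / M) ≤ L * (1 / L - 1 / M) :=
            mul_le_mul_of_nonneg_right (by linarith only [hA]) h1
        _ = 1 - L / M := by field_simp
    have hfin : ∀ S' A' : ℝ, (S' - (A' - M - Real.log 4) / M) =
        (S - (A - L - Real.log 4) / L) + (A - Real.log 4) * (1 / L - 1 / M) →
        S' - (A' - M - Real.log 4) / M ≤
          Real.log M + (2 + Real.log 4 / Real.log 2 - Real.log (Real.log 2)) := by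
      intro S' A' h
      rw [h]
      linarith only [ih, hlog, key]
    rw [← hMd]
    apply hfin
    have hins : Icc 1 y.succ = insert y.succ (Icc 1 y) := by
      ext k
      rw [mem_insert, mem_Icc, mem_Icc]
      omega
    rw [← Nat.succ_eq_add_one, hins, Finset.filter_insert]
    have hni : y.succ ∉ (Icc 1 y).filter Nat.Prime := by
      rw [mem_filter, mem_Icc]
      omega
    by_cases hp : y.succ.Prime
    · rw [if_pos hp, sum_insert hni, sum_insert hni, ← hAd, ← hSd]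
      rw [Nat.succ_eq_add_one, ← hMd]
      have hy0 : ((y + 1 : ℕ) : ℝ) ≠ 0 := by positivity
      field_simp
      ring
    · rw [if_neg hp, ← hAd, ← hSd]
      field_simp
      ring

theorem mrt_upper : ∃ C : ℝ, 0 < C ∧ ∀ y : ℕ, 2 ≤ y →
    ∑ p ∈ (Icc 1 y).filter Nat.Prime, (1 : ℝ) / p ≤ Real.log (Real.log y) + C := by
  have hl2 : 0 < Real.log 2 := Real.log_pos (by norm_num)
  have hl4 : 0 < Real.log 4 := Real.log_pos (by norm_num)
  have hll : Real.log (Real.log 2) ≤ 0 := by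
    refine Real.log_nonpos hl2.le ?_
    have := Real.log_two_lt_d9
    linarith only [hl2, this]
  refine ⟨2 + Real.log 4 / Real.log 2 - Real.log (Real.log 2), ?_, fun y hy => ?_⟩
  · have : 0 < Real.log 4 / Real.log 2 := div_pos hl4 hl2
    linarith only [hll, this]
  · have h1 := mrt_step y hy
    have hL : 0 < Real.log y := Real.log_pos (by exact_mod_cast (by omega : 1 < y))
    have h2 := mrt_log (n := y) (by omega)
    have h3 : (∑ p ∈ (Icc 1 y).filter Nat.Prime, Real.log p / p - Real.log y - Real.log 4) / Real.log y ≤ 0 :=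
      div_nonpos_of_nonpos_of_nonneg (by linarith only [h2]) hL.le
    linarith only [h1, h3]

end Pool.Agent.H43.MP

end

section

/-!
# VK BrunC: the pure sieve of Brun, combinatorial part

`brun_ineq`: `g = gcd(n, y#)` is squarefree with `w` prime factors; the sum over `m ∣ g` with less than `r` prime factors of `μ(m)` is
`∑_{i<r} (-1)^i C(w,i)`, which is `1` for `w = 0` and `(-1)^{r-1} C(w-1,r-1)` for `w ≥ 1`, of absolute value `≤ C(w,r)` = the number of `m ∣ g` with `r` prime factors.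
(`m ∣ y#` and `m ∣ n` iff `m ∣ g`; divisors of a squarefree number correspond to subsets of `primeFactors`: `Nat.sum_divisors_filter_squarefree`, `Finset.powerset`,
`Nat.divisors_prod...`, `Nat.primeFactors_prod`; the partial alternating sum: `Int.alternating_sum_range_choose_eq_choose` or induction on `r`.)
`brun_tail`: `∑_{ω(m)=r} 1/m ≤ (∑_{p≤y} 1/p)^r / r!` (`Finset.sum_powersetCard...`, `Finset.esymm`-type inequality, e.g. induction on `r`, or count ordered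
tuples), `r! ≥ (r/e)^r`, `∑_{p≤y} 1/p ≤ log log y + C` (`Pool.Agent.H91.PK.MR_sum_inv` for `y ≥ 65536`, see `rough_upper` in `H35/W/Rough.lean`).
`brun_sum`: `∑_{m ∣ y#} 1/m = ∏_{p ≤ y} (1 + 1/p) ≤ exp(∑ 1/p) ≤ C log y`.
-/

set_option autoImplicit false

namespace Pool.Agent.H97.VK

open Finset

/-- the divisors of `y#` with exactly `r` prime factors -/
noncomputable def bd (y r : ℕ) : Finset ℕ := (primorial y).divisors.filter (fun m => m.primeFactors.card = r)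

/-- the divisors of `y#` with less than `r` prime factors -/
noncomputable def bdl (y r : ℕ) : Finset ℕ := (primorial y).divisors.filter (fun m => m.primeFactors.card < r)

private theorem BrunC_dvd_iff (N : ℕ) (hN : Squarefree N) (P : ℕ → Prop) [DecidablePred P]
    {M : Type*} [AddCommMonoid M] (F : ℕ → M) :
    ∑ m ∈ N.divisors.filter (fun m => P m.primeFactors.card), F m =
      ∑ T ∈ N.primeFactors.powerset.filter (fun T => P T.card), F (∏ p ∈ T, p) := by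
  have hN0 : N ≠ 0 := hN.ne_zero
  have hpr : ∀ T : Finset ℕ, T ⊆ N.primeFactors → ∀ p ∈ T, p.Prime := fun T hT p hp =>
    Nat.prime_of_mem_primeFactors (hT hp)
  refine Finset.sum_nbij' (fun m => m.primeFactors) (fun T => ∏ p ∈ T, p) ?_ ?_ ?_ ?_ ?_
  · intro m hm
    rw [mem_filter, Nat.mem_divisors] at hm
    rw [mem_filter, mem_powerset]
    exact ⟨Nat.primeFactors_mono hm.1.1 hN0, hm.2⟩
  · intro T hT
    rw [mem_filter, mem_powerset] at hT
    rw [mem_filter, Nat.mem_divisors, Nat.primeFactors_prod (hpr T hT.1)]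
    refine ⟨⟨?_, hN0⟩, hT.2⟩
    have h := Finset.prod_dvd_prod_of_subset T N.primeFactors (fun p => p) hT.1
    rwa [Nat.prod_primeFactors_of_squarefree hN] at h
  · intro m hm
    rw [mem_filter, Nat.mem_divisors] at hm
    exact Nat.prod_primeFactors_of_squarefree (hN.squarefree_of_dvd hm.1.1)
  · intro T hT
    rw [mem_filter, mem_powerset] at hT
    exact Nat.primeFactors_prod (hpr T hT.1)
  · intro m hm
    rw [mem_filter, Nat.mem_divisors] at hm
    rw [Nat.prod_primeFactors_of_squarefree (hN.squarefree_of_dvd hm.1.1)]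

private theorem BrunC_mu (T : Finset ℕ) (hT : ∀ p ∈ T, p.Prime) :
    (ArithmeticFunction.moebius (∏ p ∈ T, p) : ℝ) = (-1) ^ T.card := by
  rw [ArithmeticFunction.isMultiplicative_moebius.map_prod_of_prime T hT]
  rw [Finset.prod_congr rfl (fun p hp => ArithmeticFunction.moebius_apply_prime (hT p hp)),
    Finset.prod_const]
  push_cast
  rfl

private theorem BrunC_alt (A : Finset ℕ) (r : ℕ) :
    ∑ T ∈ A.powerset.filter (fun T => T.card < r), (-1 : ℝ) ^ T.card =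
      ∑ i ∈ range r, (-1 : ℝ) ^ i * (A.card.choose i : ℝ) := by
  have h1 : ∑ T ∈ A.powerset.filter (fun T => T.card < r), (-1 : ℝ) ^ T.card =
      ∑ T ∈ A.powerset, (fun j : ℕ => if j < r then (-1 : ℝ) ^ j else 0) T.card := by
    rw [sum_filter]
  rw [h1, sum_powerset_apply_card (fun j : ℕ => if j < r then (-1 : ℝ) ^ j else 0)]
  have h2 : ∑ j ∈ range (A.card + 1), A.card.choose j • (if j < r then (-1 : ℝ) ^ j else 0) =
      ∑ j ∈ range (max (A.card + 1) r), A.card.choose j • (if j < r then (-1 : ℝ) ^ j else 0) := by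
    apply sum_subset
    · intro j hj
      rw [mem_range] at hj ⊢
      exact lt_of_lt_of_le hj (le_max_left _ _)
    · intro j _ hj
      rw [mem_range, not_lt] at hj
      rw [Nat.choose_eq_zero_of_lt (by omega), zero_nsmul]
  have h4 : ∑ j ∈ range r, (-1 : ℝ) ^ j * (A.card.choose j : ℝ) =
      ∑ j ∈ range r, A.card.choose j • (if j < r then (-1 : ℝ) ^ j else 0) := by
    refine sum_congr rfl fun j hj => ?_
    rw [mem_range] at hj
    rw [if_pos hj, nsmul_eq_mul, mul_comm]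
  rw [h2, h4]
  symm
  apply sum_subset
  · intro j hj
    rw [mem_range] at hj ⊢
    exact lt_of_lt_of_le hj (le_max_right _ _)
  · intro j _ hj
    rw [mem_range, not_lt] at hj
    rw [if_neg (by omega), smul_zero]

private theorem BrunC_abs (w r : ℕ) (hr : 1 ≤ r) :
    |(if w = 0 then (1 : ℝ) else 0) - ∑ i ∈ range r, (-1 : ℝ) ^ i * (w.choose i : ℝ)| ≤
      (w.choose r : ℝ) := by
  obtain ⟨m, rfl⟩ : ∃ m, r = m + 1 := ⟨r - 1, by omega⟩
  rcases Nat.eq_zero_or_pos w with h | h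
  · subst h
    rw [if_pos rfl, Finset.sum_range_succ']
    have : ∀ i ∈ range m, (-1 : ℝ) ^ (i + 1) * ((Nat.choose 0 (i + 1) : ℕ) : ℝ) = 0 := by
      intro i _
      rw [Nat.choose_zero_succ]
      simp
    rw [Finset.sum_eq_zero this]
    simp
  · obtain ⟨n, rfl⟩ : ∃ n, w = n + 1 := ⟨w - 1, by omega⟩
    rw [if_neg (by omega)]
    have h5 := Int.alternating_sum_range_choose_eq_choose (n := n) (m := m)
    have h6 := congrArg (fun z : ℤ => (z : ℝ)) h5
    push_cast at h6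
    rw [h6, zero_sub, abs_neg, abs_mul, abs_pow, abs_neg, abs_one, one_pow, one_mul,
      Nat.abs_cast]
    have h7 : n.choose m ≤ (n + 1).choose (m + 1) := by
      rw [Nat.choose_succ_succ]
      omega
    exact_mod_cast h7

private theorem BrunC_gcd (N n : ℕ) (hN : N ≠ 0) (P : ℕ → Prop) [DecidablePred P] :
    (N.divisors.filter (fun m => P m.primeFactors.card)).filter (fun m => m ∣ n) =
      (Nat.gcd n N).divisors.filter (fun m => P m.primeFactors.card) := by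
  ext m
  rw [mem_filter, mem_filter, mem_filter, Nat.mem_divisors, Nat.mem_divisors, Nat.dvd_gcd_iff]
  constructor
  · rintro ⟨⟨⟨h1, _⟩, h2⟩, h3⟩
    exact ⟨⟨⟨h3, h1⟩, Nat.gcd_ne_zero_right hN⟩, h2⟩
  · rintro ⟨⟨⟨h3, h1⟩, _⟩, h2⟩
    exact ⟨⟨⟨h1, hN⟩, h2⟩, h3⟩

theorem brun_ineq (y r n : ℕ) (hr : 1 ≤ r) (hn : 1 ≤ n) :
    |(if n.Coprime (primorial y) then (1 : ℝ) else 0) -
        ∑ m ∈ (bdl y r).filter (fun m => m ∣ n), (ArithmeticFunction.moebius m : ℝ)| ≤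
      (((bd y r).filter (fun m => m ∣ n)).card : ℝ) := by
  have hN0 : primorial y ≠ 0 := primorial_ne_zero y
  have hsq : Squarefree (Nat.gcd n (primorial y)) :=
    (squarefree_primorial y).squarefree_of_dvd (Nat.gcd_dvd_right _ _)
  obtain ⟨g, hg⟩ : ∃ g, g = Nat.gcd n (primorial y) := ⟨_, rfl⟩
  have e1 : ∑ m ∈ (bdl y r).filter (fun m => m ∣ n), (ArithmeticFunction.moebius m : ℝ) =
      ∑ i ∈ range r, (-1 : ℝ) ^ i * (g.primeFactors.card.choose i : ℝ) := by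
    unfold bdl
    rw [BrunC_gcd (primorial y) n hN0 (fun j => j < r), ← hg]
    rw [← hg] at hsq
    rw [BrunC_dvd_iff g hsq (fun j => j < r), ← BrunC_alt]
    refine Finset.sum_congr rfl fun T hT => ?_
    rw [mem_filter, mem_powerset] at hT
    exact BrunC_mu T fun p hp => Nat.prime_of_mem_primeFactors (hT.1 hp)
  have e2 : (((bd y r).filter (fun m => m ∣ n)).card : ℝ) = (g.primeFactors.card.choose r : ℝ) := by
    unfold bd
    rw [BrunC_gcd (primorial y) n hN0 (fun j => j = r), ← hg]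
    rw [← hg] at hsq
    rw [Finset.card_eq_sum_ones, BrunC_dvd_iff g hsq (fun j => j = r), ← Finset.card_eq_sum_ones,
      ← Finset.card_powersetCard r g.primeFactors, Finset.powersetCard_eq_filter]
  have e3 : (if n.Coprime (primorial y) then (1 : ℝ) else 0) =
      if g.primeFactors.card = 0 then 1 else 0 := by
    have h : n.Coprime (primorial y) ↔ g.primeFactors.card = 0 := by
      rw [Finset.card_eq_zero, Nat.primeFactors_eq_empty, hg]
      constructor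
      · exact fun h => Or.inr h
      · rintro (h | h)
        · exact absurd h (Nat.gcd_ne_zero_right hN0)
        · exact h
    simp only [h]
  rw [e1, e2, e3]
  exact BrunC_abs _ r hr

private theorem BrunC_upper : ∃ C : ℝ, 0 < C ∧ ∀ y : ℕ, 2 ≤ y →
    ∑ p ∈ (Icc 1 y).filter Nat.Prime, (1 : ℝ) / p ≤ Real.log (Real.log y) + C :=
  Pool.Agent.H43.MP.mrt_upper

private theorem BrunC_upper2 : ∃ C : ℝ, 0 < C ∧ ∀ y : ℕ, 2 ≤ y →
    ∑ p ∈ (primorial y).primeFactors, (1 : ℝ) / p ≤ Real.log (Real.log y) + C := by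
  obtain ⟨C, hC, h⟩ := BrunC_upper
  refine ⟨C, hC, fun y hy => ?_⟩
  have e : (primorial y).primeFactors = (Icc 1 y).filter Nat.Prime := by
    rw [primeFactors_primorial]
    ext p
    rw [Nat.mem_primesLE, mem_filter, mem_Icc]
    constructor
    · rintro ⟨h1, h2⟩
      exact ⟨⟨h2.one_lt.le, h1⟩, h2⟩
    · rintro ⟨⟨_, h1⟩, h2⟩
      exact ⟨h1, h2⟩
  rw [e]
  exact h y hy

private theorem BrunC_binom (A a : ℝ) (hA : 0 ≤ A) (ha : 0 ≤ a) (r : ℕ) :
    A ^ (r + 1) + (r + 1 : ℕ) * (a * A ^ r) ≤ (A + a) ^ (r + 1) := by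
  induction r with
  | zero => simp
  | succ r ih =>
    have h1 : (A + a) ^ (r + 1 + 1) = (A + a) ^ (r + 1) * (A + a) := pow_succ _ _
    rw [h1]
    have h2 := mul_le_mul_of_nonneg_right ih (add_nonneg hA ha)
    refine le_trans ?_ h2
    have h3 : (A ^ (r + 1) + ((r + 1 : ℕ) : ℝ) * (a * A ^ r)) * (A + a) =
        A ^ (r + 1 + 1) + ((r + 1 + 1 : ℕ) : ℝ) * (a * A ^ (r + 1)) +
          ((r + 1 : ℕ) : ℝ) * (a * a * A ^ r) := by
      push_cast
      ring
    rw [h3]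
    have h4 : 0 ≤ ((r + 1 : ℕ) : ℝ) * (a * a * A ^ r) := by positivity
    linarith only [h4]

private theorem BrunC_esymm (S : Finset ℕ) (a : ℕ → ℝ) (ha : ∀ p, 0 ≤ a p) (r : ℕ) :
    (r.factorial : ℝ) * ∑ T ∈ S.powersetCard r, ∏ p ∈ T, a p ≤ (∑ p ∈ S, a p) ^ r := by
  induction S using Finset.induction_on generalizing r with
  | empty =>
    cases r with
    | zero => simp
    | succ r =>
      have h : (∅ : Finset ℕ).powersetCard (r + 1) = ∅ := by
        rw [Finset.powersetCard_eq_empty]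
        simp
      rw [h]
      simp
  | insert q S hq ih =>
    cases r with
    | zero => simp
    | succ r =>
      rw [Finset.powersetCard_succ_insert hq, Finset.sum_union, Finset.sum_image,
        Finset.sum_insert hq]
      · have e : ∀ T ∈ S.powersetCard r, ∏ p ∈ insert q T, a p = a q * ∏ p ∈ T, a p := by
          intro T hT
          rw [mem_powersetCard] at hT
          exact Finset.prod_insert fun h => hq (hT.1 h)
        rw [Finset.sum_congr rfl e, ← Finset.mul_sum]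
        have h1 := ih (r + 1)
        have h2 := ih r
        have hA : 0 ≤ ∑ p ∈ S, a p := Finset.sum_nonneg fun p _ => ha p
        have h3 := BrunC_binom (∑ p ∈ S, a p) (a q) hA (ha q) r
        have h4 : ((r + 1).factorial : ℝ) = ((r + 1 : ℕ) : ℝ) * (r.factorial : ℝ) := by
          rw [Nat.factorial_succ]
          push_cast
          ring
        have h5 := mul_le_mul_of_nonneg_left h2 (mul_nonneg (Nat.cast_nonneg (r + 1)) (ha q))
        rw [add_comm (a q)]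
        refine le_trans ?_ h3
        rw [mul_add]
        refine add_le_add h1 ?_
        rw [h4]
        calc ((r + 1 : ℕ) : ℝ) * (r.factorial : ℝ) *
              (a q * ∑ T ∈ S.powersetCard r, ∏ p ∈ T, a p)
            = ((r + 1 : ℕ) : ℝ) * a q *
              ((r.factorial : ℝ) * ∑ T ∈ S.powersetCard r, ∏ p ∈ T, a p) := by ring
          _ ≤ ((r + 1 : ℕ) : ℝ) * a q * (∑ p ∈ S, a p) ^ r := h5
          _ = ((r + 1 : ℕ) : ℝ) * (a q * (∑ p ∈ S, a p) ^ r) := by ring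
      · intro T hT T' hT' h
        rw [mem_coe, mem_powersetCard] at hT hT'
        have h1 : q ∉ T := fun h => hq (hT.1 h)
        have h2 : q ∉ T' := fun h => hq (hT'.1 h)
        rw [← Finset.erase_insert h1, ← Finset.erase_insert h2]
        exact congrArg (fun U => U.erase q) h
      · rw [Finset.disjoint_left]
        intro T hT hT'
        rw [mem_powersetCard] at hT
        rw [mem_image] at hT'
        obtain ⟨U, _, rfl⟩ := hT'
        exact hq (hT.1 (mem_insert_self q U))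

private theorem BrunC_inv (T : Finset ℕ) :
    (1 : ℝ) / ((∏ p ∈ T, p : ℕ) : ℝ) = ∏ p ∈ T, (1 : ℝ) / p := by
  rw [Nat.cast_prod, Finset.prod_div_distrib, Finset.prod_const_one]

theorem brun_tail : ∃ C : ℝ, 1 ≤ C ∧ ∀ y r : ℕ, 3 ≤ y → 1 ≤ r →
    ∑ m ∈ bd y r, (1 : ℝ) / m ≤ (Real.exp 1 * (Real.log (Real.log y) + C) / r) ^ r := by
  obtain ⟨C, hC, hup⟩ := BrunC_upper2
  refine ⟨max 1 C, le_max_left _ _, fun y r hy hr => ?_⟩
  have hr0 : (0 : ℝ) < r := by exact_mod_cast hr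
  have e1 : ∑ m ∈ bd y r, (1 : ℝ) / m =
      ∑ T ∈ (primorial y).primeFactors.powersetCard r, ∏ p ∈ T, (1 : ℝ) / p := by
    unfold bd
    rw [BrunC_dvd_iff (primorial y) (squarefree_primorial y) (fun j => j = r),
      Finset.powersetCard_eq_filter]
    exact Finset.sum_congr rfl fun T _ => BrunC_inv T
  obtain ⟨A, hA⟩ : ∃ A, A = ∑ p ∈ (primorial y).primeFactors, (1 : ℝ) / p := ⟨_, rfl⟩
  have hA0 : 0 ≤ A := by rw [hA]; exact Finset.sum_nonneg fun p _ => by positivity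
  have h1 := BrunC_esymm (primorial y).primeFactors (fun p => (1 : ℝ) / p)
    (fun p => by positivity) r
  rw [← hA] at h1
  have h2 : A ≤ Real.log (Real.log y) + max 1 C := by
    rw [hA]
    exact (hup y (by omega)).trans (add_le_add le_rfl (le_max_right _ _))
  have h3 : (r : ℝ) ^ r / (r.factorial : ℝ) ≤ Real.exp r :=
    Real.pow_div_factorial_le_exp r hr0.le r
  have hf0 : (0 : ℝ) < (r.factorial : ℝ) := by exact_mod_cast Nat.factorial_pos r
  have h4 : Real.exp (r : ℝ) = Real.exp 1 ^ r := by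
    rw [← Real.exp_nat_mul, mul_one]
  rw [e1]
  have h5 : ∑ T ∈ (primorial y).primeFactors.powersetCard r, ∏ p ∈ T, (1 : ℝ) / p ≤
      A ^ r / (r.factorial : ℝ) := by
    rw [le_div_iff₀ hf0, mul_comm]
    exact h1
  refine h5.trans ?_
  have h6 : A ^ r / (r.factorial : ℝ) = (A / r) ^ r * ((r : ℝ) ^ r / (r.factorial : ℝ)) := by
    rw [div_pow]
    field_simp
  rw [h6]
  have h7 : (A / r) ^ r * ((r : ℝ) ^ r / (r.factorial : ℝ)) ≤ (A / r) ^ r * Real.exp 1 ^ r := by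
    rw [← h4]
    exact mul_le_mul_of_nonneg_left h3 (by positivity)
  refine h7.trans ?_
  rw [← mul_pow]
  refine pow_le_pow_left₀ (by positivity) ?_ r
  rw [mul_comm, mul_div_assoc']
  exact div_le_div_of_nonneg_right (mul_le_mul_of_nonneg_left h2 (Real.exp_pos 1).le) hr0.le

theorem brun_sum : ∃ C : ℝ, 1 ≤ C ∧ ∀ y r : ℕ, 3 ≤ y → ∑ m ∈ bdl y r, (1 : ℝ) / m ≤ C * Real.log y := by
  obtain ⟨C, hC, hup⟩ := BrunC_upper2
  refine ⟨Real.exp C, Real.one_le_exp hC.le, fun y r hy => ?_⟩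
  have hy1 : (1 : ℝ) < y := by exact_mod_cast (by omega : 1 < y)
  have hly : 0 < Real.log y := Real.log_pos hy1
  have h1 : ∑ m ∈ bdl y r, (1 : ℝ) / m ≤
      ∑ T ∈ (primorial y).primeFactors.powerset, ∏ p ∈ T, (1 : ℝ) / p := by
    unfold bdl
    rw [BrunC_dvd_iff (primorial y) (squarefree_primorial y) (fun j => j < r)]
    refine (Finset.sum_le_sum_of_subset_of_nonneg (filter_subset _ _)
      fun T _ _ => by positivity).trans (le_of_eq ?_)
    exact Finset.sum_congr rfl fun T _ => BrunC_inv T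
  refine h1.trans ?_
  rw [← Finset.prod_one_add]
  have h2 : ∏ p ∈ (primorial y).primeFactors, (1 + (1 : ℝ) / p) ≤
      Real.exp (∑ p ∈ (primorial y).primeFactors, (1 : ℝ) / p) := by
    rw [Real.exp_sum]
    refine Finset.prod_le_prod (fun p _ => by positivity) fun p _ => ?_
    have h := Real.add_one_le_exp ((1 : ℝ) / p)
    linarith only [h]
  refine h2.trans ?_
  have h3 : Real.exp C * Real.log y = Real.exp (Real.log (Real.log y) + C) := by
    rw [Real.exp_add, Real.exp_log hly, mul_comm]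
  rw [h3]
  exact Real.exp_le_exp.2 (hup y (by omega))

theorem bdl_le (y r m : ℕ) (hy : 1 ≤ y) (hm : m ∈ bdl y r) : m ≤ y ^ r := by
  unfold bdl at hm
  rw [mem_filter, Nat.mem_divisors] at hm
  have hsq : Squarefree m := (squarefree_primorial y).squarefree_of_dvd hm.1.1
  rw [← Nat.prod_primeFactors_of_squarefree hsq]
  have h1 : ∏ p ∈ m.primeFactors, p ≤ y ^ m.primeFactors.card := by
    refine Finset.prod_le_pow_card m.primeFactors (fun p => p) y fun p hp => ?_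
    have h2 := Nat.primeFactors_mono hm.1.1 hm.1.2 hp
    rw [primeFactors_primorial, Nat.mem_primesLE] at h2
    exact h2.1
  exact h1.trans (Nat.pow_le_pow_right hy hm.2.le)

end Pool.Agent.H97.VK

end

section

/-!
# PROJECT VKT (H97/VK of helper97 with the parameter `T0.t` in place of `9/10`), Part I.b: sieved Dirichlet characters

Notation: `L = log x`, `L9 x = L^{9/10}`, `LL x = log L`, `y = Yx x = ⌊exp(L^{9/10})⌋`.  A character `χ` mod `d` is replaced by the character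
`ch x χ` modulo `qm x d = d · y#` induced by it: `ch x χ n = χ(n)` if `n` has no prime factor `≤ y`, otherwise `0`.
The tools `Lk`, `Fk` (`∑ χ(n) (log n)^k n^{-s}`, `∑ Λ(n) χ(n) (log n)^k n^{-s}`) of EHA are applied to `ch x χ`.
-/

set_option autoImplicit false

namespace Pool.Agent.H76.VKT

open Finset
open Pool.Agent.H91.PK (ee)

/-- the parameter `t ∈ (2/3, 1)`; it replaces `9/10` in `Pool.Agent.H97.VK` -/
class T0 where
  /-- the exponent -/
  t : ℝ
  lo : 2 / 3 < t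
  hi : t < 1

variable [T0]

/-- `(log x)^t` -/
noncomputable def L9 (x : ℕ) : ℝ := Real.log x ^ T0.t

/-- `log log x` -/
noncomputable def LL (x : ℕ) : ℝ := Real.log (Real.log x)

/-- the sieving level -/
noncomputable def Yx (x : ℕ) : ℕ := ⌊Real.exp (L9 x)⌋₊

/-- the modulus `d · y#` -/
noncomputable def qm (x d : ℕ) : ℕ := d * primorial (Yx x)

/-- the character modulo `qm x d` induced by `χ` -/
noncomputable def ch (x : ℕ) {d : ℕ} (χ : DirichletCharacter ℂ d) : DirichletCharacter ℂ (qm x d) :=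
  DirichletCharacter.changeLevel (Dvd.intro _ rfl) χ

theorem qm_pos (x d : ℕ) (hd : 1 ≤ d) : 1 ≤ qm x d :=
  Nat.mul_pos hd (primorial_pos _)

theorem ch_sq (x : ℕ) {d : ℕ} (χ : DirichletCharacter ℂ d) : ch x χ ^ 2 = ch x (χ ^ 2) := by
  unfold ch
  rw [map_pow]
  rfl

theorem ch_apply (x : ℕ) {d : ℕ} (hd : 1 ≤ d) (χ : DirichletCharacter ℂ d) (n : ℕ) :
    ch x χ (n : ZMod (qm x d)) =
      if n.Coprime (primorial (Yx x)) then χ (n : ZMod d) else 0 := by
  have hq0 : qm x d ≠ 0 := by have := qm_pos x d hd; omega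
  by_cases h1 : n.Coprime (qm x d)
  · have h2 : n.Coprime (primorial (Yx x)) := by
      unfold qm at h1
      exact (Nat.coprime_mul_iff_right.1 h1).2
    rw [if_pos h2]
    unfold ch
    have h3 : IsCoprime (n : ℤ) (qm x d : ℤ) := Nat.isCoprime_iff_coprime.2 h1
    have h4 := DirichletCharacter.changeLevel_eq_cast_of_dvd' χ
      (Dvd.intro (primorial (Yx x)) rfl : d ∣ qm x d) h3
    rw [Int.cast_natCast, Int.cast_natCast] at h4
    exact h4
  · have h2 : ¬ IsUnit (n : ZMod (qm x d)) := by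
      rw [ZMod.isUnit_iff_coprime]; exact h1
    rw [MulChar.map_nonunit _ h2]
    split_ifs with h3
    · have h4 : ¬ n.Coprime d := by
        intro h5
        apply h1
        unfold qm
        exact Nat.coprime_mul_iff_right.2 ⟨h5, h3⟩
      have h5 : ¬ IsUnit (n : ZMod d) := by
        rw [ZMod.isUnit_iff_coprime]; exact h4
      rw [MulChar.map_nonunit _ h5]
    · rfl

theorem ch_norm_le (x : ℕ) {d : ℕ} (χ : DirichletCharacter ℂ d) (n : ZMod (qm x d)) : ‖ch x χ n‖ ≤ 1 :=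
  DirichletCharacter.norm_le_one _ _

omit [T0] in
theorem cop_gt (y n : ℕ) (hy : 2 ≤ y) (hn : n.Coprime (primorial y)) : n = 1 ∨ y < n := by
  by_contra hcon
  push Not at hcon
  obtain ⟨h1, h2⟩ := hcon
  have h3 : n.minFac.Prime := Nat.minFac_prime h1
  rcases Nat.eq_zero_or_pos n with h0 | h0
  · subst h0
    have h4 : 2 ∣ primorial y := Nat.prime_two.dvd_primorial_iff.2 hy
    rw [Nat.coprime_zero_left] at hn
    rw [hn] at h4
    omega
  · have h4 : n.minFac ≤ y := (Nat.minFac_le h0).trans h2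
    have h5 : n.minFac ∣ primorial y := h3.dvd_primorial_iff.2 h4
    exact Nat.not_coprime_of_dvd_of_dvd h3.one_lt (Nat.minFac_dvd n) h5 hn

theorem yx_ev : ∃ x0 : ℕ, ∀ x : ℕ, x0 ≤ x → 3 ≤ Yx x ∧ Real.log (Yx x) ≤ L9 x ∧ L9 x / 2 ≤ Real.log (Yx x) ∧
    1 ≤ LL x ∧ 1 ≤ L9 x ∧ 1 ≤ Real.log x ∧ (Yx x : ℝ) + 1 ≤ x := by
  have hlo := T0.lo
  have hhi := T0.hi
  have hev : ∀ᶠ L : ℝ in Filter.atTop, 1024 ≤ L ∧ 512 ≤ L ^ T0.t ∧ 2 ≤ L ^ (1 - T0.t) := by
    filter_upwards [Filter.eventually_ge_atTop (1024 : ℝ),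
      (tendsto_rpow_atTop (show 0 < T0.t by linarith only [hlo, hhi])).eventually_ge_atTop 512,
      (tendsto_rpow_atTop (show 0 < 1 - T0.t by linarith only [hhi])).eventually_ge_atTop 2] with L h1 h2 h3
    exact ⟨h1, h2, h3⟩
  obtain ⟨x1, hx1'⟩ := Filter.eventually_atTop.1
    ((Real.tendsto_log_atTop.comp tendsto_natCast_atTop_atTop).eventually hev)
  refine ⟨max x1 1, fun x hx => ?_⟩
  obtain ⟨hL1, h512', hpow2⟩ := hx1' x ((le_max_left _ _).trans hx)
  simp only [Function.comp_apply] at hL1 h512' hpow2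
  have hx0 : (0:ℝ) < x := by
    have : 1 ≤ x := (le_max_right _ _).trans hx
    exact_mod_cast this
  obtain ⟨L, hL⟩ : ∃ L, L = Real.log x := ⟨_, rfl⟩
  rw [← hL] at hL1 h512' hpow2
  have hL0 : 0 < L := by linarith only [hlo, hhi, hL1]
  obtain ⟨M, hM⟩ : ∃ M, M = L9 x := ⟨_, rfl⟩
  have hM1 : M = L ^ T0.t := by rw [hM, hL]; rfl
  have h512 : (512:ℝ) ≤ M := by rw [hM1]; exact h512'
  have hML : M ≤ L / 2 := by
    have h2 : M * L ^ (1 - T0.t) = L := by
      rw [hM1, ← Real.rpow_add hL0]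
      rw [show T0.t + (1 - T0.t) = 1 by ring, Real.rpow_one]
    have h3 : 0 ≤ M := by linarith only [hlo, hhi, h512', hM1]
    nlinarith only [hpow2, h2, hlo, hhi, h512', hM1]
  have hexpM : 512 ≤ Real.exp (M / 2) := by
    have := Real.add_one_le_exp (M / 2)
    have h4 : Real.exp (M / 4) ^ 2 = Real.exp (M / 2) := by
      rw [← Real.exp_nat_mul]; congr 1; push_cast; ring
    have h5 := Real.add_one_le_exp (M / 4)
    nlinarith only [h512', hM1, h4, h5, hlo, hhi]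
  have hsq : Real.exp M = Real.exp (M / 2) * Real.exp (M / 2) := by
    rw [← Real.exp_add]; congr 1; ring
  have hY1 : (Yx x : ℝ) ≤ Real.exp M := by
    unfold Yx; rw [← hM]; exact Nat.floor_le (Real.exp_pos _).le
  have hY2 : Real.exp (M / 2) + 3 ≤ (Yx x : ℝ) := by
    have h1 : Real.exp M < (Yx x : ℝ) + 1 := by
      unfold Yx; rw [← hM]; exact Nat.lt_floor_add_one _
    nlinarith only [hexpM, hsq, h1, hlo, hhi]
  have hY0 : (0:ℝ) < Yx x := by linarith only [hlo, hhi, hexpM, hY2]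
  refine ⟨?_, ?_, ?_, ?_, ?_, ?_, ?_⟩
  · have h1 : (3:ℝ) ≤ (Yx x : ℝ) := by linarith only [hlo, hhi, hexpM, hY2]
    exact_mod_cast h1
  · rw [← hM, Real.log_le_iff_le_exp hY0]; exact hY1
  · rw [← hM, Real.le_log_iff_exp_le hY0]; linarith only [hlo, hhi, hY2]
  · unfold LL
    rw [← hL, Real.le_log_iff_exp_le hL0]
    have := Real.exp_one_lt_d9
    linarith only [hlo, hhi, hL1, this]
  · rw [← hM]; linarith only [hlo, hhi, h512', hM1]
  · rw [← hL]; linarith only [hlo, hhi, hL1]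
  · have h1 : Real.exp L = x := by rw [hL, Real.exp_log hx0]
    have h2 : Real.exp M ≤ Real.exp (L / 2) := Real.exp_le_exp.2 hML
    have h3 : Real.exp L = Real.exp (L / 2) * Real.exp (L / 2) := by
      rw [← Real.exp_add]; congr 1; ring
    have h4 : 512 ≤ Real.exp (L / 2) := by
      have := Real.add_one_le_exp (L / 2)
      linarith only [hlo, hhi, hexpM, hY1, hY2, h2]
    rw [← h1]
    nlinarith only [hexpM, hsq, hY1, h3, hY2, h2, hlo, hhi]

end Pool.Agent.H76.VKT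

end

section

set_option autoImplicit false

namespace Pool.Agent.H76.VKT

open Finset
open Pool.Agent.H91.EHA
open Pool.Agent.H91.PK (ee)

/-- the statement of `vk_exp` -/
def vk_exp_P [T0] : Prop := ∀ (A : ℕ),
    ∃ x0 : ℕ, ∀ x : ℕ, x0 ≤ x → ∀ (K a b : ℕ) (β t : ℝ),
    Real.exp (Real.log x ^ T0.t) ≤ K → K ≤ x → b ≤ K → 0 ≤ β → β ≤ 1 →
    1 ≤ |t| → |t| ≤ (x : ℝ) ^ (3 : ℕ) →
    ‖∑ n ∈ Ioc a b, ee (t * Real.log (n + β))‖ ≤ K * (100 / |t| + 1 / Real.log x ^ A)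

/-- the statement of `psum` -/
def psum_P [T0] : Prop := ∀ (A B : ℕ),
    ∃ K' x0 : ℕ, ∀ x : ℕ, x0 ≤ x → ∀ (d : ℕ) (χ : DirichletCharacter ℂ d) (t : ℝ) (v : ℕ),
    1 ≤ d → (d : ℝ) ≤ Real.log x ^ B → Real.log x ^ K' ≤ |t| → |t| ≤ (x : ℝ) ^ (3 : ℕ) → Yx x + 1 ≤ v →
    ‖∑ n ∈ Icc 1 v, χ (n : ZMod d) * ee (t * Real.log n)‖ ≤ v / Real.log x ^ A

/-- the statement of `rtw` -/
def rtw_P [T0] : Prop := ∀ (A B : ℕ),
    ∃ K' D x0 : ℕ, ∀ x : ℕ, x0 ≤ x → ∀ (d : ℕ) (χ : DirichletCharacter ℂ d) (t : ℝ) (u : ℕ),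
    1 ≤ d → (d : ℝ) ≤ Real.log x ^ B → Real.log x ^ K' ≤ |t| → |t| ≤ (x : ℝ) ^ (3 : ℕ) → D * (LL x * L9 x) ≤ Real.log u →
    ‖∑ n ∈ Icc 1 u, ch x χ (n : ZMod (qm x d)) * ee (t * Real.log n)‖ ≤ u / Real.log x ^ A

/-- the statement of `lk_up` -/
def lk_up_P [T0] : Prop := ∀ (k B : ℕ),
    ∃ C : ℝ, 1 ≤ C ∧ ∃ K' x0 : ℕ, ∀ x : ℕ, x0 ≤ x → ∀ (d : ℕ) (χ : DirichletCharacter ℂ d) (s : ℂ),
    1 ≤ d → (d : ℝ) ≤ Real.log x ^ B → 1 + 1 / (4 * Real.log x) ≤ s.re → s.re ≤ 2 →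
    Real.log x ^ K' ≤ |s.im| → |s.im| ≤ 6 * (x : ℝ) ^ (3 : ℕ) →
    ‖Lk (qm x d) (ch x χ) k s‖ ≤ C * L9 x ^ k * LL x ^ (k + 1)

/-- the statement of `zy_up` -/
def zy_up_P [T0] : Prop :=
    ∃ C : ℝ, 1 ≤ C ∧ ∃ x0 : ℕ, ∀ x : ℕ, x0 ≤ x → ∀ (d : ℕ) (s : ℂ), 1 ≤ d → 1 < s.re → s.re ≤ 2 →
    ‖Lk (qm x d) 1 0 s‖ ≤ C * (1 + 1 / ((s.re - 1) * L9 x))

/-- the statement of `lk_low` -/
def lk_low_P [T0] : Prop := ∀ (B : ℕ),
    ∃ c : ℝ, 0 < c ∧ c ≤ 1 ∧ ∃ K' x0 : ℕ, ∀ x : ℕ, x0 ≤ x → ∀ (d : ℕ) (χ : DirichletCharacter ℂ d) (s : ℂ),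
    1 ≤ d → (d : ℝ) ≤ Real.log x ^ B → 1 + 1 / (4 * Real.log x) ≤ s.re → s.re ≤ 2 →
    Real.log x ^ K' ≤ |s.im| → |s.im| ≤ 3 * (x : ℝ) ^ (3 : ℕ) →
    c / LL x ^ 7 ≤ ‖Lk (qm x d) (ch x χ) 0 s‖

/-- the statement of `fk_up` -/
def fk_up_P [T0] : Prop := ∀ (k B : ℕ),
    ∃ C : ℝ, 1 ≤ C ∧ ∃ K' x0 : ℕ, ∀ x : ℕ, x0 ≤ x → ∀ (d : ℕ) (χ : DirichletCharacter ℂ d) (s : ℂ),
    1 ≤ d → (d : ℝ) ≤ Real.log x ^ B → 1 + 1 / (4 * Real.log x) ≤ s.re → s.re ≤ 2 →
    Real.log x ^ K' ≤ |s.im| → |s.im| ≤ 3 * (x : ℝ) ^ (3 : ℕ) →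
    ‖Fk (qm x d) (ch x χ) k s‖ ≤ C * L9 x ^ (k + 1) * LL x ^ (20 * (k + 1))

/-- the statement of `sm_sharp_w` -/
def sm_sharp_w_P [T0] : Prop := ∀ (t1 : ℝ) (ht1' : T0.t < t1) (k κ B : ℕ) (hκ : 1 ≤ κ),
    ∃ C : ℝ, 1 ≤ C ∧ ∃ K' x0 : ℕ, ∀ x : ℕ, x0 ≤ x →
    ∀ (d : ℕ) (χ : DirichletCharacter ℂ d) (t : ℝ) (v z : ℕ), 1 ≤ d → (d : ℝ) ≤ Real.log x ^ B →
    Real.exp (Real.log x ^ t1) ≤ z → z ≤ x ^ 2 → v ≤ z → Real.log x ^ K' ≤ |t| → |t| ≤ (x : ℝ) ^ (2 : ℕ) →
    ‖∑ n ∈ Icc 1 v, ((Lam n * Real.log n ^ k : ℝ) : ℂ) * ch x χ (n : ZMod (qm x d)) * ee (t * Real.log n)‖ ≤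
      C * z * (L9 x ^ (k + 1) * LL x ^ (20 * (k + 1)) * Real.log x ^ (3 * κ) +
        Real.log (2 * z) ^ (k + 1) / Real.log x ^ κ)

end Pool.Agent.H76.VKT

end

section

/-!
# VKT (H97/VK of helper97 with the parameter `T0.t` in place of `9/10`, `t1` in place of `19/20`) BrunT: twisted sums over rough numbers

Proof.  `y = Yx x`, `r = ⌈20 (A+1) LL⌉₊ + 1`, `log u ≥ D · LL · L9`, `D = 21(A+1) + 10`, so `u ≥ y^{r+3}` (`log y ≤ L9`).
`ch_apply`, `brun_ineq`: `|∑_{n≤u} ch(n) ee(t log n) - ∑_{m ∈ bdl y r} μ(m) ∑_{n ≤ u, m ∣ n} χ(n) ee(t log n)| ≤ ∑_{m ∈ bd y r} u/m`.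
`n = m k`: `χ(m) ee(t log m) ∑_{k ≤ u/m} χ(k) ee(t log k)`, `u/m ≥ y^{2} ≥ y + 1` (`bdl_le`, `m ≤ y^r`; natural division), `psum (A+3) B`: `≤ (u/m)/L^{A+3}`;
`brun_sum`: total `≤ C (log y) u/L^{A+3} ≤ u/(2 L^A)`.
`brun_tail`: `log log y ≤ LL` and `LL` large: `e (LL + C)/r ≤ 1/e`, so the sum is `≤ e^{-r} ≤ L^{-20(A+1)}`.
-/

set_option autoImplicit false

namespace Pool.Agent.H76.VKT

open Finset
open Pool.Agent.H91.PK (ee)
open Pool.Agent.H97.VK (bd bdl brun_ineq brun_tail brun_sum bdl_le)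

/-- the twisted character -/
private noncomputable def brunT_f {d : ℕ} (χ : DirichletCharacter ℂ d) (t : ℝ) (n : ℕ) : ℂ :=
  χ (n : ZMod d) * ee (t * Real.log n)

private theorem brunT_f_le {d : ℕ} (χ : DirichletCharacter ℂ d) (t : ℝ) (n : ℕ) :
    ‖brunT_f χ t n‖ ≤ 1 := by
  unfold brunT_f
  rw [norm_mul, Pool.Agent.H91.PK.LSa_norm_ee, mul_one]
  exact DirichletCharacter.norm_le_one _ _

private theorem brunT_f_mul {d : ℕ} (χ : DirichletCharacter ℂ d) (t : ℝ) (m k : ℕ) (hm : m ≠ 0)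
    (hk : k ≠ 0) : brunT_f χ t (m * k) = brunT_f χ t m * brunT_f χ t k := by
  unfold brunT_f
  have hm' : (m : ℝ) ≠ 0 := by exact_mod_cast hm
  have hk' : (k : ℝ) ≠ 0 := by exact_mod_cast hk
  rw [Nat.cast_mul, Nat.cast_mul, Real.log_mul hm' hk', mul_add, Pool.Agent.H91.PK.LSa_ee_add, map_mul]
  ring

private theorem brunT_multiples {M : Type} [AddCommMonoid M] (u m : ℕ) (hm : 1 ≤ m) (F : ℕ → M) :
    ∑ n ∈ (Icc 1 u).filter (fun n => m ∣ n), F n = ∑ k ∈ Icc 1 (u / m), F (m * k) := by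
  symm
  refine sum_bij (fun k _ => m * k) ?_ ?_ ?_ ?_
  · intro k hk
    rw [mem_Icc] at hk
    rw [mem_filter, mem_Icc]
    refine ⟨⟨Nat.mul_pos hm hk.1, ?_⟩, Dvd.intro _ rfl⟩
    calc m * k ≤ m * (u / m) := Nat.mul_le_mul_left _ hk.2
      _ ≤ u := Nat.mul_div_le _ _
  · intro a _ b _ hab
    exact Nat.eq_of_mul_eq_mul_left hm hab
  · intro n hn
    rw [mem_filter, mem_Icc] at hn
    obtain ⟨⟨h1, h2⟩, k, rfl⟩ := hn
    refine ⟨k, ?_, rfl⟩
    rw [mem_Icc]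
    constructor
    · rcases Nat.eq_zero_or_pos k with h | h
      · rw [h, mul_zero] at h1
        omega
      · exact h
    · rw [Nat.le_div_iff_mul_le hm]
      calc k * m = m * k := mul_comm _ _
        _ ≤ u := h2
  · intro k _
    rfl

/-- the main inequality. -/
private theorem brunT_main {d : ℕ} (χ : DirichletCharacter ℂ d) (t : ℝ) (y r u : ℕ) (hr : 1 ≤ r)
    (E : ℝ) (hE : ∀ m ∈ bdl y r, ‖∑ k ∈ Icc 1 (u / m), brunT_f χ t k‖ ≤ ((u / m : ℕ) : ℝ) * E)
    (hE0 : 0 ≤ E) :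
    ‖∑ n ∈ Icc 1 u, (if n.Coprime (primorial y) then brunT_f χ t n else 0)‖ ≤
      u * E * ∑ m ∈ bdl y r, (1 : ℝ) / m + u * ∑ m ∈ bd y r, (1 : ℝ) / m := by
  set f : ℕ → ℂ := brunT_f χ t with hf
  set h : ℕ → ℝ := fun n => ∑ m ∈ (bdl y r).filter (fun m => m ∣ n), (ArithmeticFunction.moebius m : ℝ)
    with hh
  set g : ℕ → ℝ := fun n => if n.Coprime (primorial y) then (1 : ℝ) else 0 with hg
  have hpos : ∀ m, m ∣ primorial y → 1 ≤ m := fun m hm => Nat.pos_of_dvd_of_pos hm (primorial_pos y)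
  have hposl : ∀ m ∈ bdl y r, 1 ≤ m := fun m hm => by
    unfold bdl at hm
    exact hpos m (Nat.dvd_of_mem_divisors (mem_filter.1 hm).1)
  have hposb : ∀ m ∈ bd y r, 1 ≤ m := fun m hm => by
    unfold bd at hm
    exact hpos m (Nat.dvd_of_mem_divisors (mem_filter.1 hm).1)
  have e1 : ∑ n ∈ Icc 1 u, (if n.Coprime (primorial y) then f n else 0) =
      ∑ n ∈ Icc 1 u, ((h n : ℝ) : ℂ) * f n + ∑ n ∈ Icc 1 u, (((g n - h n : ℝ)) : ℂ) * f n := by
    rw [← sum_add_distrib]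
    refine sum_congr rfl fun n _ => ?_
    rw [hg]
    dsimp only
    split_ifs
    · push_cast
      ring
    · push_cast
      ring
  -- the error term
  have e2 : ‖∑ n ∈ Icc 1 u, (((g n - h n : ℝ)) : ℂ) * f n‖ ≤ u * ∑ m ∈ bd y r, (1 : ℝ) / m := by
    calc ‖∑ n ∈ Icc 1 u, (((g n - h n : ℝ)) : ℂ) * f n‖
        ≤ ∑ n ∈ Icc 1 u, ‖(((g n - h n : ℝ)) : ℂ) * f n‖ := norm_sum_le _ _
      _ ≤ ∑ n ∈ Icc 1 u, (((bd y r).filter (fun m => m ∣ n)).card : ℝ) := by
          refine sum_le_sum fun n hn => ?_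
          rw [norm_mul, Complex.norm_real, Real.norm_eq_abs]
          have h1 := brun_ineq y r n hr (mem_Icc.1 hn).1
          have h2 := brunT_f_le χ t n
          calc |g n - h n| * ‖f n‖ ≤ |g n - h n| * 1 :=
                mul_le_mul_of_nonneg_left h2 (abs_nonneg _)
            _ = |g n - h n| := mul_one _
            _ ≤ _ := h1
      _ = ∑ m ∈ bd y r, (((Icc 1 u).filter (fun n => m ∣ n)).card : ℝ) := by
          have h3 : ∀ n, (((bd y r).filter (fun m => m ∣ n)).card : ℝ) =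
              ∑ m ∈ bd y r, if m ∣ n then (1 : ℝ) else 0 := by
            intro n
            rw [card_filter]
            push_cast
            rfl
          have h4 : ∀ m, (((Icc 1 u).filter (fun n => m ∣ n)).card : ℝ) =
              ∑ n ∈ Icc 1 u, if m ∣ n then (1 : ℝ) else 0 := by
            intro m
            rw [card_filter]
            push_cast
            rfl
          rw [sum_congr rfl fun n _ => h3 n, sum_comm, sum_congr rfl fun m _ => (h4 m).symm]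
      _ ≤ ∑ m ∈ bd y r, (u : ℝ) * (1 / (m : ℝ)) := by
          refine sum_le_sum fun m hm => ?_
          have h5 : ((Icc 1 u).filter (fun n => m ∣ n)).card = u / m := by
            rw [card_eq_sum_ones, brunT_multiples u m (hposb m hm), ← card_eq_sum_ones, Nat.card_Icc]
            simp
          rw [h5, mul_one_div]
          exact Nat.cast_div_le
      _ = u * ∑ m ∈ bd y r, (1 : ℝ) / m := by rw [mul_sum]
  -- the main term
  have e3 : ‖∑ n ∈ Icc 1 u, ((h n : ℝ) : ℂ) * f n‖ ≤ u * E * ∑ m ∈ bdl y r, (1 : ℝ) / m := by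
    have e4 : ∑ n ∈ Icc 1 u, ((h n : ℝ) : ℂ) * f n =
        ∑ m ∈ bdl y r, ((ArithmeticFunction.moebius m : ℝ) : ℂ) * (f m * ∑ k ∈ Icc 1 (u / m), f k) := by
      have h6 : ∀ n, ((h n : ℝ) : ℂ) * f n =
          ∑ m ∈ bdl y r, if m ∣ n then ((ArithmeticFunction.moebius m : ℝ) : ℂ) * f n else 0 := by
        intro n
        rw [hh]
        dsimp only
        rw [Complex.ofReal_sum, sum_mul, sum_filter]
      rw [sum_congr rfl fun n _ => h6 n, sum_comm]
      refine sum_congr rfl fun m hm => ?_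
      rw [← sum_filter, ← mul_sum, brunT_multiples u m (hposl m hm)]
      congr 1
      rw [mul_sum]
      refine sum_congr rfl fun k hk => ?_
      rw [hf]
      exact brunT_f_mul χ t m k (by have := hposl m hm; omega) (by have := (mem_Icc.1 hk).1; omega)
    rw [e4]
    calc ‖∑ m ∈ bdl y r, ((ArithmeticFunction.moebius m : ℝ) : ℂ) * (f m * ∑ k ∈ Icc 1 (u / m), f k)‖
        ≤ ∑ m ∈ bdl y r, ‖((ArithmeticFunction.moebius m : ℝ) : ℂ) * (f m * ∑ k ∈ Icc 1 (u / m), f k)‖ :=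
          norm_sum_le _ _
      _ ≤ ∑ m ∈ bdl y r, (u : ℝ) * E * (1 / (m : ℝ)) := by
          refine sum_le_sum fun m hm => ?_
          rw [norm_mul, norm_mul, Complex.norm_real, Real.norm_eq_abs]
          have h7 : |((ArithmeticFunction.moebius m : ℤ) : ℝ)| ≤ 1 := by
            have := ArithmeticFunction.abs_moebius_le_one (n := m)
            exact_mod_cast this
          have h8 : ‖f m‖ ≤ 1 := brunT_f_le χ t m
          have h9 : ‖∑ k ∈ Icc 1 (u / m), f k‖ ≤ ((u / m : ℕ) : ℝ) * E := hE m hm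
          have h10 : ((u / m : ℕ) : ℝ) ≤ (u : ℝ) / m := Nat.cast_div_le
          calc |((ArithmeticFunction.moebius m : ℤ) : ℝ)| * (‖f m‖ * ‖∑ k ∈ Icc 1 (u / m), f k‖)
              ≤ 1 * (1 * (((u / m : ℕ) : ℝ) * E)) := by
                refine mul_le_mul h7 ?_ (by positivity) zero_le_one
                exact mul_le_mul h8 h9 (norm_nonneg _) zero_le_one
            _ = ((u / m : ℕ) : ℝ) * E := by ring
            _ ≤ (u : ℝ) / m * E := mul_le_mul_of_nonneg_right h10 hE0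
            _ = (u : ℝ) * E * (1 / (m : ℝ)) := by ring
      _ = u * E * ∑ m ∈ bdl y r, (1 : ℝ) / m := by rw [mul_sum]
  rw [e1]
  exact (norm_add_le _ _).trans (add_le_add e3 e2)

private theorem brunT_ev (c : ℝ) : ∃ x0 : ℕ, ∀ x : ℕ, x0 ≤ x → c ≤ LL x := by
  have h1 : Filter.Tendsto (fun x : ℕ => LL x) Filter.atTop Filter.atTop := by
    unfold LL
    exact Real.tendsto_log_atTop.comp (Real.tendsto_log_atTop.comp tendsto_natCast_atTop_atTop)
  obtain ⟨x0, hx0⟩ := Filter.eventually_atTop.1 (h1.eventually_ge_atTop c)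
  exact ⟨x0, hx0⟩

theorem rtw_h [T0] (h_psum : psum_P)  (A B : ℕ) : ∃ K' D x0 : ℕ, ∀ x : ℕ, x0 ≤ x → ∀ (d : ℕ) (χ : DirichletCharacter ℂ d) (t : ℝ) (u : ℕ),
    1 ≤ d → (d : ℝ) ≤ Real.log x ^ B → Real.log x ^ K' ≤ |t| → |t| ≤ (x : ℝ) ^ (3 : ℕ) → D * (LL x * L9 x) ≤ Real.log u →
    ‖∑ n ∈ Icc 1 u, ch x χ (n : ZMod (qm x d)) * ee (t * Real.log n)‖ ≤ u / Real.log x ^ A := by
  obtain ⟨K', x1, hps⟩ := h_psum (A + 3) B
  obtain ⟨x2, hev⟩ := yx_ev
  obtain ⟨C1, hC1, htail⟩ := brun_tail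
  obtain ⟨C2, hC2, hsum⟩ := brun_sum
  obtain ⟨x3, h3⟩ := brunT_ev (C1 + 2 * C2 + 2)
  refine ⟨K', 20 * (A + 1) + 4, max x1 (max x2 x3), ?_⟩
  intro x hx d χ t u hd hdB ht1 ht2 hu
  have hx1 : x1 ≤ x := (le_max_left _ _).trans hx
  have hx2 : x2 ≤ x := ((le_max_left _ _).trans (le_max_right _ _)).trans hx
  have hx3 : x3 ≤ x := ((le_max_right _ _).trans (le_max_right _ _)).trans hx
  obtain ⟨hy3, hyL, _, hLL1, hL91, hL1, _⟩ := hev x hx2
  have hLLc := h3 x hx3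
  set L : ℝ := Real.log x with hL
  set y : ℕ := Yx x with hy
  have hLLdef : LL x = Real.log L := rfl
  have hLpos : 0 < L := by linarith only [hL1]
  have hexpLL : Real.exp (LL x) = L := by rw [hLLdef, Real.exp_log hLpos]
  have hLbig : C1 + 2 * C2 + 2 ≤ L := by
    have h4 : LL x + 1 ≤ L := by
      have := Real.add_one_le_exp (LL x)
      rwa [hexpLL] at this
    linarith only [hLLc, h4]
  have hL9L : L9 x ≤ L := by
    unfold L9
    calc L ^ T0.t ≤ L ^ (1 : ℝ) := Real.rpow_le_rpow_of_exponent_le hL1 T0.hi.le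
      _ = L := Real.rpow_one L
  set r : ℕ := ⌈20 * ((A : ℝ) + 1) * LL x⌉₊ + 1 with hr
  have hr1 : 1 ≤ r := by omega
  have hA0 : (0 : ℝ) ≤ (A : ℝ) := Nat.cast_nonneg A
  have hrlow : 20 * ((A : ℝ) + 1) * LL x ≤ r := by
    have h5 := Nat.le_ceil (20 * ((A : ℝ) + 1) * LL x)
    rw [hr]
    push_cast
    linarith only [h5]
  have hrup : (r : ℝ) ≤ 20 * ((A : ℝ) + 1) * LL x + 2 := by
    have h5 := Nat.ceil_lt_add_one (a := 20 * ((A : ℝ) + 1) * LL x) (by positivity)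
    rw [hr]
    push_cast
    linarith only [h5]
  have hrpos : (0 : ℝ) < r := by exact_mod_cast hr1
  -- `y ^ (r + 2) ≤ u`
  have hypos : (0 : ℝ) < y := by
    have : 0 < y := by omega
    exact_mod_cast this
  have hlogu : ((r + 2 : ℕ) : ℝ) * Real.log y ≤ Real.log u := by
    have hly : 0 ≤ Real.log y := Real.log_natCast_nonneg y
    have h6 : ((r + 2 : ℕ) : ℝ) ≤ ((20 * (A + 1) + 4 : ℕ) : ℝ) * LL x := by
      push_cast
      nlinarith only [hC1, hC2, hLLc, hrup]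
    calc ((r + 2 : ℕ) : ℝ) * Real.log y ≤ ((r + 2 : ℕ) : ℝ) * L9 x :=
          mul_le_mul_of_nonneg_left hyL (Nat.cast_nonneg _)
      _ ≤ ((20 * (A + 1) + 4 : ℕ) : ℝ) * LL x * L9 x :=
          mul_le_mul_of_nonneg_right h6 (by linarith only [hL91])
      _ = ((20 * (A + 1) + 4 : ℕ) : ℝ) * (LL x * L9 x) := by ring
      _ ≤ Real.log u := hu
  have hupos : (0 : ℝ) < u := by
    rcases Nat.eq_zero_or_pos u with h | h
    · exfalso
      rw [h] at hu
      simp only [Nat.cast_zero, Real.log_zero] at hu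
      have h7 : (0 : ℝ) < ((20 * (A + 1) + 4 : ℕ) : ℝ) * (LL x * L9 x) := by
        have : (0 : ℝ) < ((20 * (A + 1) + 4 : ℕ) : ℝ) := by
          have : 0 < 20 * (A + 1) + 4 := by omega
          exact_mod_cast this
        have h8 : (0 : ℝ) < LL x * L9 x := by nlinarith only [hC1, hC2, hL91, hLLc, hLL1]
        exact mul_pos this h8
      linarith only [hu, h7]
    · exact_mod_cast h
  have hyu : y ^ (r + 2) ≤ u := by
    have h7 : ((y : ℝ)) ^ (r + 2) ≤ u := by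
      rw [← Real.log_le_log_iff (by positivity) hupos, Real.log_pow]
      exact hlogu
    exact_mod_cast h7
  have hdiv : ∀ m ∈ bdl y r, y + 1 ≤ u / m := by
    intro m hm
    have hm1 : 1 ≤ m := by
      unfold bdl at hm
      exact Nat.pos_of_dvd_of_pos (Nat.dvd_of_mem_divisors (mem_filter.1 hm).1) (primorial_pos y)
    rw [Nat.le_div_iff_mul_le hm1]
    have h8 : m ≤ y ^ r := bdl_le y r m (by omega) hm
    calc (y + 1) * m ≤ (y * y) * y ^ r := by
          refine Nat.mul_le_mul ?_ h8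
          nlinarith only [hy3]
      _ = y ^ (r + 2) := by ring
      _ ≤ u := hyu
  have hE : ∀ m ∈ bdl y r, ‖∑ k ∈ Icc 1 (u / m), brunT_f χ t k‖ ≤
      ((u / m : ℕ) : ℝ) * (1 / L ^ (A + 3)) := by
    intro m hm
    have h9 := hps x hx1 d χ t (u / m) hd hdB ht1 ht2 (hdiv m hm)
    unfold brunT_f
    rw [mul_one_div]
    exact h9
  have hmain := brunT_main χ t y r u hr1 (1 / L ^ (A + 3)) hE (by positivity)
  have hrew : ∑ n ∈ Icc 1 u, ch x χ (n : ZMod (qm x d)) * ee (t * Real.log n) =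
      ∑ n ∈ Icc 1 u, (if n.Coprime (primorial y) then brunT_f χ t n else 0) := by
    refine sum_congr rfl fun n _ => ?_
    rw [ch_apply x hd χ n]
    unfold brunT_f
    split_ifs
    · rfl
    · rw [zero_mul]
  rw [hrew]
  refine hmain.trans ?_
  have hLA : 0 < L ^ A := by positivity
  -- first part
  have p1 : (u : ℝ) * (1 / L ^ (A + 3)) * ∑ m ∈ bdl y r, (1 : ℝ) / m ≤ u / L ^ A / 2 := by
    have h10 := hsum y r hy3
    have h11 : C2 * Real.log y ≤ C2 * L := mul_le_mul_of_nonneg_left (hyL.trans hL9L) (by linarith only [hC2])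
    calc (u : ℝ) * (1 / L ^ (A + 3)) * ∑ m ∈ bdl y r, (1 : ℝ) / m
        ≤ (u : ℝ) * (1 / L ^ (A + 3)) * (C2 * L) :=
          mul_le_mul_of_nonneg_left (h10.trans h11) (by positivity)
      _ = (u : ℝ) / L ^ A * (C2 / L ^ 2) := by
          rw [pow_add]
          field_simp
      _ ≤ (u : ℝ) / L ^ A * (1 / 2) := by
          refine mul_le_mul_of_nonneg_left ?_ (by positivity)
          rw [div_le_div_iff₀ (by positivity) (by norm_num)]
          nlinarith only [hC1, hC2, hLbig, hL1]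
      _ = u / L ^ A / 2 := by ring
  -- second part
  have p2 : (u : ℝ) * ∑ m ∈ bd y r, (1 : ℝ) / m ≤ u / L ^ A / 2 := by
    have h12 := htail y r hy3 hr1
    have hlogy1 : 1 ≤ Real.log y := by
      have h13 : Real.exp 1 ≤ y := by
        have := Real.exp_one_lt_d9
        have h14 : (3 : ℝ) ≤ y := by exact_mod_cast hy3
        linarith only [this, h14]
      rw [← Real.log_exp 1]
      exact Real.log_le_log (Real.exp_pos 1) h13
    have hll : Real.log (Real.log y) ≤ LL x := by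
      rw [hLLdef]
      exact Real.log_le_log (by linarith) (hyL.trans hL9L)
    have hll0 : 0 ≤ Real.log (Real.log y) := Real.log_nonneg hlogy1
    have hbase : Real.exp 1 * (Real.log (Real.log y) + C1) / r ≤ Real.exp (-1) := by
      rw [div_le_iff₀ hrpos]
      have h15 : Real.log (Real.log y) + C1 ≤ 2 * LL x := by linarith only [hC2, hLLc, hll]
      have h16 : Real.exp 1 < 3 := by
        have := Real.exp_one_lt_d9
        linarith only [this]
      have h17 : Real.exp 1 * Real.exp (-1) = 1 := by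
        rw [← Real.exp_add]
        simp
      have h18 : (1 : ℝ) / 3 ≤ Real.exp (-1) := by
        have hp : 0 < Real.exp (-1) := Real.exp_pos _
        rw [div_le_iff₀ (by norm_num)]
        nlinarith only [h17, h16, hp]
      have h19 : 20 * LL x ≤ r := by nlinarith only [hrlow, hLL1]
      calc Real.exp 1 * (Real.log (Real.log y) + C1) ≤ 3 * (2 * LL x) := by
            refine mul_le_mul h16.le h15 (by linarith only [hC1, hll0]) (by norm_num)
        _ ≤ 1 / 3 * r := by nlinarith only [hC1, hC2, hLLc, h19]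
        _ ≤ Real.exp (-1) * r := mul_le_mul_of_nonneg_right h18 hrpos.le
    have hbase0 : 0 ≤ Real.exp 1 * (Real.log (Real.log y) + C1) / r := by
      have : 0 ≤ Real.log (Real.log y) + C1 := by linarith only [hC1, hll0]
      positivity
    have h20 : (Real.exp 1 * (Real.log (Real.log y) + C1) / r) ^ r ≤ 1 / L ^ A / 2 := by
      calc (Real.exp 1 * (Real.log (Real.log y) + C1) / r) ^ r ≤ Real.exp (-1) ^ r :=
            pow_le_pow_left₀ hbase0 hbase r
        _ = Real.exp (-(r : ℝ)) := by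
            rw [← Real.exp_nat_mul]
            congr 1
            ring
        _ ≤ Real.exp (-(((A : ℝ) + 1) * LL x)) := by
            refine Real.exp_le_exp.2 ?_
            nlinarith only [hrlow, hrpos]
        _ = 1 / L ^ (A + 1) := by
            rw [Real.exp_neg, one_div]
            congr 1
            have : ((A : ℝ) + 1) * LL x = ((A + 1 : ℕ) : ℝ) * LL x := by push_cast; ring
            rw [this, Real.exp_nat_mul, hexpLL]
        _ ≤ 1 / L ^ A / 2 := by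
            rw [div_div]
            refine one_div_le_one_div_of_le (by positivity) ?_
            rw [pow_succ]
            refine mul_le_mul_of_nonneg_left ?_ hLA.le
            linarith only [hC1, hC2, hLbig]
    calc (u : ℝ) * ∑ m ∈ bd y r, (1 : ℝ) / m ≤ u * (1 / L ^ A / 2) :=
          mul_le_mul_of_nonneg_left (h12.trans h20) hupos.le
      _ = u / L ^ A / 2 := by ring
  linarith only [p1, p2]

end Pool.Agent.H76.VKT

end

section

/-!
# VKT (H97/VK of helper97 with the parameter `T0.t` in place of `9/10`, `t1` in place of `19/20`) Low: lower bound for the sieved `L`-functions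

Proof (compare `EHA/SwC.lean`).  `q = qm x d`, `ψ = ch x χ`, `ψ^2 = ch x (χ^2)` (`ch_sq`), `s = σ + iτ`.
3-4-1: `DirichletCharacter.norm_LSeries_product_ge_one` (`Mathlib/NumberTheory/LSeries/Nonvanishing.lean`; `Lk q ψ 0` is the `LSeries` of `ψ`):
`‖Lk q 1 0 σ‖^3 ‖Lk q ψ 0 (σ+iτ)‖^4 ‖Lk q ψ^2 0 (σ+2iτ)‖ ≥ 1`.
`zy_up`: `‖Lk q 1 0 σ‖ ≤ 2C/(η L9)` for `η = σ - 1 ≤ 1/L9`, `≤ 2C` for `η ≥ 1/L9`; `lk_up 0`: `‖Lk q ψ^2 0 (σ + 2iτ)‖ ≤ C LL` (`|2τ| ≤ 6 x^3`).
(a) `η ≥ 1/L9`: `‖L‖ ≥ c LL^{-1/4} ≥ c/LL^7`.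
(b) `1/L9 ≥ η ≥ η0 := c'/(L9 LL^9)`: `‖L‖ ≥ c1 (η L9)^{3/4} LL^{-1/4} ≥ c1 c'^{3/4} LL^{-7}`.
(c) `1/(4L) ≤ η ≤ η0`: `‖L(σ+iτ) - L(1+η0+iτ)‖ ≤ η0 C2 L9 LL^2 = C2 c' LL^{-7}` (`lk_up 1`, `Lk_hasDeriv`, mean value inequality on the segment), and
`C2 c' ≤ (c1/2) c'^{3/4}` for `c'` small.  (`η0 ≥ 1/(4L)` or not does not matter.)
-/

set_option autoImplicit false

namespace Pool.Agent.H76.VKT

open Finset
open Pool.Agent.H91.EHA

/-- abstract 3-4-1 argument on `[u0, 1]` -/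
private theorem Low_core (F : ℝ → ℝ) (u0 A D K : ℝ) (hu0 : 0 < u0) (hA : 1 ≤ A) (hD : 1 ≤ D) (hK : 1 ≤ K)
    (h1 : ∀ u, u0 ≤ u → u ≤ 1 → u ^ 3 ≤ A ^ 3 * K * F u ^ 4)
    (h2 : ∀ u u', u0 ≤ u → u ≤ u' → u' ≤ 1 → F u' ≤ F u + D * (u' - u))
    (h0 : ∀ u, u0 ≤ u → u ≤ 1 → 0 ≤ F u) (u : ℝ) (hu : u0 ≤ u) (hu1 : u ≤ 1) :
    1 / (32 * D ^ 3 * A ^ 3 * K) ≤ F u := by
  by_contra hcon
  push Not at hcon
  have hA3 : (1:ℝ) ≤ A ^ 3 := one_le_pow₀ hA
  have hD3 : (1:ℝ) ≤ D ^ 3 := one_le_pow₀ hD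
  have hD4 : (1:ℝ) ≤ D ^ 4 := one_le_pow₀ hD
  have hAK : (1:ℝ) ≤ A ^ 3 * K := by nlinarith only [hK, hA3]
  set P : ℝ := A ^ 3 * K with hP
  have hP0 : 0 < P := by linarith only [hAK]
  have hDp : 0 < D := by linarith only [hD]
  set η : ℝ := 1 / (32 * D ^ 4 * P) with hη
  have hη0 : 0 < η := by positivity
  have hη1 : η ≤ 1 / 32 := by
    rw [hη]
    apply one_div_le_one_div_of_le (by norm_num)
    nlinarith only [hD4, hAK, hD, mul_le_mul hD4 hAK (by norm_num) (by positivity)]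
  have hm : 1 / (32 * D ^ 3 * A ^ 3 * K) = D * η := by
    rw [hη, hP]; field_simp
  rw [hm] at hcon
  have hPη : 32 * D ^ 4 * P * η = 1 := by
    rw [hη]; field_simp
  have hF0 := h0 u hu hu1
  rcases le_or_gt η u with hc | hc
  · have h := h1 u hu hu1
    have h4 : F u ^ 4 ≤ (D * η) ^ 4 := pow_le_pow_left₀ hF0 hcon.le 4
    have h3 : η ^ 3 ≤ u ^ 3 := pow_le_pow_left₀ hη0.le hc 3
    have h5 : η ^ 3 ≤ P * (D * η) ^ 4 := by
      calc η ^ 3 ≤ u ^ 3 := h3
        _ ≤ P * F u ^ 4 := h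
        _ ≤ P * (D * η) ^ 4 := mul_le_mul_of_nonneg_left h4 hP0.le
    have h6 : P * (D * η) ^ 4 = η ^ 3 * (D ^ 4 * P * η) := by ring
    have h7 : D ^ 4 * P * η = 1 / 32 := by linarith only [hPη]
    rw [h6, h7] at h5
    have : 0 < η ^ 3 := by positivity
    linarith only [h5, this]
  · have h := h1 η (by linarith only [hu, hc]) (by linarith only [hu0, hu, hη1, hc])
    have hl := h2 u η hu hc.le (by linarith only [hu0, hu, hη1, hc])
    have hl2 : F η ≤ 2 * (D * η) := by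
      have : D * (η - u) ≤ D * η := mul_le_mul_of_nonneg_left (by linarith only [hu0, hu]) hDp.le
      linarith only [hcon, hl, this]
    have h4 : F η ^ 4 ≤ (2 * (D * η)) ^ 4 :=
      pow_le_pow_left₀ (h0 _ (by linarith only [hu, hc]) (by linarith only [hu0, hu, hη1, hc])) hl2 4
    have h5 : η ^ 3 ≤ P * (2 * (D * η)) ^ 4 := by
      calc η ^ 3 ≤ P * F η ^ 4 := h
        _ ≤ _ := mul_le_mul_of_nonneg_left h4 hP0.le
    have h6 : P * (2 * (D * η)) ^ 4 = η ^ 3 * (16 * (D ^ 4 * P * η)) := by ring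
    have h7 : D ^ 4 * P * η = 1 / 32 := by linarith only [hPη]
    rw [h6, h7] at h5
    have : 0 < η ^ 3 := by positivity
    linarith only [h5, this]

private theorem Low_Lk0 (q : ℕ) (χ : DirichletCharacter ℂ q) (s : ℂ) :
    Lk q χ 0 s = LSeries (fun n : ℕ => χ (n : ZMod q)) s := by
  unfold Lk; simp

private theorem Low_341 (q : ℕ) (χ : DirichletCharacter ℂ q) (σ t Z : ℝ) (h1 : 1 < σ)
    (hZ : ‖Lk q 1 0 ((σ : ℂ))‖ ≤ Z) :
    1 ≤ Z ^ 3 * ‖Lk q (χ ^ 2) 0 ⟨σ, 2 * t⟩‖ * ‖Lk q χ 0 ⟨σ, t⟩‖ ^ 4 := by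
  have hx : 0 < σ - 1 := by linarith only [h1]
  have h := DirichletCharacter.norm_LSeries_product_ge_one χ hx t
  have e1 : (1 + ((σ - 1 : ℝ) : ℂ)) = (σ : ℂ) := by push_cast; ring
  have e2 : (σ : ℂ) + Complex.I * t = ⟨σ, t⟩ := by
    apply Complex.ext <;> simp
  have e3 : (σ : ℂ) + 2 * Complex.I * t = ⟨σ, 2 * t⟩ := by
    apply Complex.ext <;> simp
  rw [e1, e2, e3] at h
  rw [norm_mul, norm_mul, norm_pow, norm_pow] at h
  rw [Low_Lk0 q χ, Low_Lk0 q (χ ^ 2)]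
  rw [Low_Lk0 q 1] at hZ
  have hb3 := pow_le_pow_left₀ (norm_nonneg _) hZ 3
  set a := ‖LSeries (fun n : ℕ => (1 : DirichletCharacter ℂ q) (n : ZMod q)) (σ : ℂ)‖
  set b := ‖LSeries (fun n : ℕ => χ (n : ZMod q)) ⟨σ, t⟩‖
  set c := ‖LSeries (fun n : ℕ => (χ ^ 2) (n : ZMod q)) ⟨σ, 2 * t⟩‖
  have hc : 0 ≤ c := norm_nonneg _
  have hb0 : 0 ≤ b ^ 4 := by positivity
  calc (1:ℝ) ≤ a ^ 3 * b ^ 4 * c := h
    _ ≤ Z ^ 3 * b ^ 4 * c := by gcongr
    _ = _ := by ring

private theorem Low_lip (q : ℕ) (χ : DirichletCharacter ℂ q) (S : Set ℂ) (hS : Convex ℝ S)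
    (h1 : ∀ w ∈ S, 1 < w.re) (D : ℝ) (hD : ∀ w ∈ S, ‖Lk q χ 1 w‖ ≤ D) (a b : ℂ) (ha : a ∈ S)
    (hb : b ∈ S) : ‖Lk q χ 0 b - Lk q χ 0 a‖ ≤ D * ‖b - a‖ := by
  refine Convex.norm_image_sub_le_of_norm_hasDerivWithin_le (f' := fun w => -(Lk q χ (0 + 1) w))
    (fun w hw => (Lk_hasDeriv q χ 0 w (h1 w hw)).hasDerivWithinAt) (fun w hw => ?_) hS ha hb
  rw [norm_neg]
  exact hD w hw

/-- the Lipschitz bound on a horizontal segment -/
private theorem Low_seg (q : ℕ) (χ : DirichletCharacter ℂ q) (t D σ0 : ℝ) (hσ0 : 1 < σ0)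
    (hD : ∀ σ : ℝ, σ0 ≤ σ → σ ≤ 2 → ‖Lk q χ 1 ⟨σ, t⟩‖ ≤ D) (σ σ' : ℝ) (h1 : σ0 ≤ σ) (hle : σ ≤ σ')
    (h2 : σ' ≤ 2) : ‖Lk q χ 0 ⟨σ', t⟩‖ ≤ ‖Lk q χ 0 ⟨σ, t⟩‖ + D * (σ' - σ) := by
  set S : Set ℂ := {w | σ0 ≤ w.re ∧ w.re ≤ 2 ∧ w.im = t} with hSdef
  have hS : Convex ℝ S := by
    have e : S = {w | σ0 ≤ w.re} ∩ ({w | w.re ≤ 2} ∩ {w | w.im = t}) := by
      ext w; simp [hSdef]
    rw [e]
    refine Convex.inter (convex_halfSpace_re_ge σ0) (Convex.inter (convex_halfSpace_re_le 2) ?_)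
    have e2 : {w : ℂ | w.im = t} = {w | w.im ≤ t} ∩ {w | t ≤ w.im} := by
      ext w; simp [le_antisymm_iff]
    rw [e2]
    exact Convex.inter (convex_halfSpace_im_le t) (convex_halfSpace_im_ge t)
  have hb : ∀ w ∈ S, ‖Lk q χ 1 w‖ ≤ D := by
    rintro ⟨a, b⟩ ⟨h1, h2, h3⟩
    simp only at h1 h2 h3
    subst h3
    exact hD a h1 h2
  have := Low_lip q χ S hS (fun w hw => lt_of_lt_of_le hσ0 hw.1) D hb ⟨σ, t⟩ ⟨σ', t⟩ ⟨h1, by simp; linarith only [hle, h2], rfl⟩
    ⟨by simp; linarith only [h1, hle], h2, rfl⟩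
  have e : ‖(⟨σ', t⟩ : ℂ) - ⟨σ, t⟩‖ = σ' - σ := by
    have : (⟨σ', t⟩ : ℂ) - ⟨σ, t⟩ = ((σ' - σ : ℝ) : ℂ) := by
      apply Complex.ext <;> simp
    rw [this, Complex.norm_real]
    exact abs_of_nonneg (by linarith only [hle])
  rw [e] at this
  have h4 := norm_sub_norm_le (Lk q χ 0 ⟨σ', t⟩) (Lk q χ 0 ⟨σ, t⟩)
  linarith only [this, h4]

/-- the scaled horizontal argument -/
private theorem Low_hor (q : ℕ) (χ : DirichletCharacter ℂ q) (t lam C D K η0 : ℝ) (hlam : 1 ≤ lam)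
    (hη0 : 0 < η0) (hC : 1 ≤ C) (hD1 : 1 ≤ D) (hK1 : 1 ≤ K)
    (hZ : ∀ σ : ℝ, 1 < σ → σ ≤ 2 → ‖Lk q 1 0 ((σ : ℂ))‖ ≤ C * (1 + 1 / ((σ - 1) * lam)))
    (hD : ∀ σ : ℝ, 1 + η0 ≤ σ → σ ≤ 2 → ‖Lk q χ 1 ⟨σ, t⟩‖ ≤ lam * D)
    (hK : ∀ σ : ℝ, 1 + η0 ≤ σ → σ ≤ 2 → ‖Lk q (χ ^ 2) 0 ⟨σ, 2 * t⟩‖ ≤ K)
    (σ : ℝ) (h1 : 1 + η0 ≤ σ) (h2 : σ ≤ 2) :
    1 / (32 * D ^ 3 * (2 * C) ^ 3 * K) ≤ ‖Lk q χ 0 ⟨σ, t⟩‖ := by
  have hlam0 : 0 < lam := by linarith only [hlam]
  rcases le_or_gt ((σ - 1) * lam) 1 with hc | hc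
  · -- small
    have hu : ∀ u : ℝ, η0 * lam ≤ u → u ≤ 1 → 1 + η0 ≤ 1 + u / lam ∧ 1 + u / lam ≤ 2 := by
      intro u hu1 hu2
      have a1 : η0 ≤ u / lam := by rwa [le_div_iff₀ hlam0]
      have a2 : u / lam ≤ 1 := by
        rw [div_le_one hlam0]; linarith only [hlam, hu2]
      exact ⟨by linarith only [a1], by linarith only [a2]⟩
    have key := Low_core (fun u => ‖Lk q χ 0 ⟨1 + u / lam, t⟩‖) (η0 * lam) (2 * C) D K (by positivity)
      (by linarith only [hC]) hD1 hK1 ?_ ?_ (fun _ _ _ => norm_nonneg _) ((σ - 1) * lam) ?_ hc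
    · have e : 1 + (σ - 1) * lam / lam = σ := by
        field_simp
        ring
      simpa only [e] using key
    · intro u hu1 hu2
      obtain ⟨b1, b2⟩ := hu u hu1 hu2
      have hu0 : 0 < u := lt_of_lt_of_le (by positivity) hu1
      have hσ1 : 1 < 1 + u / lam := by
        have : 0 < u / lam := by positivity
        linarith only [hη0, b1]
      have hz := hZ (1 + u / lam) hσ1 b2
      have hz2 : ‖Lk q 1 0 (((1 + u / lam : ℝ) : ℂ))‖ ≤ 2 * C / u := by
        refine hz.trans ?_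
        have e : (1 + u / lam - 1) * lam = u := by
          field_simp
          ring
        rw [e]
        have h3 : (1:ℝ) ≤ 1 / u := by rw [le_div_iff₀ hu0]; linarith only [hu2]
        have h4 : C * (1 + 1 / u) ≤ C * (1 / u + 1 / u) :=
          mul_le_mul_of_nonneg_left (by linarith only [h3]) (by linarith only [hC])
        refine h4.trans (le_of_eq ?_)
        ring
      have h := Low_341 q χ (1 + u / lam) t (2 * C / u) hσ1 hz2
      have hk := hK (1 + u / lam) b1 b2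
      have hF : 0 ≤ ‖Lk q χ 0 ⟨1 + u / lam, t⟩‖ ^ 4 := by positivity
      have hu3 : 0 < u ^ 3 := by positivity
      have hC0 : 0 < 2 * C := by linarith only [hC]
      calc u ^ 3 = u ^ 3 * 1 := by ring
        _ ≤ u ^ 3 * ((2 * C / u) ^ 3 * ‖Lk q (χ ^ 2) 0 ⟨1 + u / lam, 2 * t⟩‖ *
              ‖Lk q χ 0 ⟨1 + u / lam, t⟩‖ ^ 4) := mul_le_mul_of_nonneg_left h hu3.le
        _ ≤ u ^ 3 * ((2 * C / u) ^ 3 * K * ‖Lk q χ 0 ⟨1 + u / lam, t⟩‖ ^ 4) := by
              gcongr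
        _ = (2 * C) ^ 3 * K * ‖Lk q χ 0 ⟨1 + u / lam, t⟩‖ ^ 4 := by
              field_simp
    · intro u u' hu1 hle hu2
      obtain ⟨b1, _⟩ := hu u hu1 (hle.trans hu2)
      obtain ⟨_, b2⟩ := hu u' (hu1.trans hle) hu2
      have h := Low_seg q χ t (lam * D) (1 + η0) (by linarith only [hη0]) hD (1 + u / lam) (1 + u' / lam) b1
        (by gcongr) b2
      refine h.trans (le_of_eq ?_)
      field_simp
      ring
    · have : η0 ≤ σ - 1 := by linarith
      exact mul_le_mul_of_nonneg_right this hlam0.le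
  · -- large
    have hσ1 : 1 < σ := by linarith
    have hz := hZ σ hσ1 h2
    have hz2 : ‖Lk q 1 0 ((σ : ℂ))‖ ≤ 2 * C := by
      refine hz.trans ?_
      have h3 : 1 / ((σ - 1) * lam) ≤ 1 := by
        rw [div_le_one (by linarith only [hc])]; exact hc.le
      have h4 : C * (1 + 1 / ((σ - 1) * lam)) ≤ C * (1 + 1) :=
        mul_le_mul_of_nonneg_left (by linarith only [h3]) (by linarith only [hC])
      linarith only [h4]
    have h := Low_341 q χ σ t (2 * C) hσ1 hz2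
    have hk := hK σ h1 h2
    set F := ‖Lk q χ 0 ⟨σ, t⟩‖ with hF
    have hF0 : 0 ≤ F := norm_nonneg _
    have h5 : 1 ≤ (2 * C) ^ 3 * K * F ^ 4 := by
      refine h.trans ?_
      gcongr
    set P : ℝ := (2 * C) ^ 3 * K with hP
    have hP1 : 1 ≤ P := by
      have : (1:ℝ) ≤ (2 * C) ^ 3 := one_le_pow₀ (by linarith only [hC])
      nlinarith only [hK1, this]
    have hP0 : 0 < P := by linarith only [hP1]
    have h6 : 1 / (32 * D ^ 3 * (2 * C) ^ 3 * K) ≤ 1 / P := by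
      apply one_div_le_one_div_of_le hP0
      have hD3 : (1:ℝ) ≤ D ^ 3 := one_le_pow₀ hD1
      have : 32 * D ^ 3 * (2 * C) ^ 3 * K = 32 * D ^ 3 * P := by rw [hP]; ring
      rw [this]
      nlinarith only [hP1, hD3]
    refine h6.trans ?_
    by_contra hcon
    push Not at hcon
    have h7 : F ^ 4 ≤ (1 / P) ^ 4 := pow_le_pow_left₀ hF0 hcon.le 4
    have hP3 : 1 ≤ P ^ 3 := one_le_pow₀ hP1
    -- F < 1/P ≤ 1
    have hF1 : F < 1 := lt_of_lt_of_le hcon (by rw [div_le_one hP0]; exact hP1)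
    have h8 : F ^ 4 ≤ F := by
      have : F ^ 3 ≤ 1 := pow_le_one₀ hF0 hF1.le
      calc F ^ 4 = F ^ 3 * F := by ring
        _ ≤ 1 * F := mul_le_mul_of_nonneg_right this hF0
        _ = F := one_mul F
    have h9 : P * F < 1 := by
      have := mul_lt_mul_of_pos_left hcon hP0
      rwa [mul_one_div_cancel hP0.ne'] at this
    have h10 : P * F ^ 4 ≤ P * F := mul_le_mul_of_nonneg_left h8 hP0.le
    linarith only [h5, h9, h10]

theorem lk_low_h [T0] (h_lk_up : lk_up_P) (h_zy_up : zy_up_P)  (B : ℕ) : ∃ c : ℝ, 0 < c ∧ c ≤ 1 ∧ ∃ K' x0 : ℕ, ∀ x : ℕ, x0 ≤ x → ∀ (d : ℕ) (χ : DirichletCharacter ℂ d) (s : ℂ),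
    1 ≤ d → (d : ℝ) ≤ Real.log x ^ B → 1 + 1 / (4 * Real.log x) ≤ s.re → s.re ≤ 2 →
    Real.log x ^ K' ≤ |s.im| → |s.im| ≤ 3 * (x : ℝ) ^ (3 : ℕ) →
    c / LL x ^ 7 ≤ ‖Lk (qm x d) (ch x χ) 0 s‖ := by
  obtain ⟨C0, hC0, K0, x0, h0⟩ := h_lk_up 0 B
  obtain ⟨C1, hC1, K1, x1, h1⟩ := h_lk_up 1 B
  obtain ⟨Cz, hCz, xz, hz⟩ := h_zy_up
  obtain ⟨xe, he⟩ := yx_ev
  have hpos : 0 < 32 * C1 ^ 3 * (2 * Cz) ^ 3 * C0 := by positivity
  refine ⟨1 / (32 * C1 ^ 3 * (2 * Cz) ^ 3 * C0), by positivity, ?_, max K0 K1,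
    max (max x0 x1) (max xz xe), ?_⟩
  · rw [div_le_one hpos]
    have a1 : (1:ℝ) ≤ C1 ^ 3 := one_le_pow₀ hC1
    have a2 : (1:ℝ) ≤ (2 * Cz) ^ 3 := one_le_pow₀ (by linarith only [hCz])
    have a3 : (1:ℝ) ≤ C1 ^ 3 * (2 * Cz) ^ 3 := by nlinarith only [a1, a2]
    have a4 : (1:ℝ) ≤ C1 ^ 3 * (2 * Cz) ^ 3 * C0 := by nlinarith only [hC0, a3]
    nlinarith only [a4]
  · intro x hx d χ s hd hdB hs1 hs2 ht1 ht2
    have hx0 : x0 ≤ x := le_trans (le_trans (le_max_left _ _) (le_max_left _ _)) hx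
    have hx1 : x1 ≤ x := le_trans (le_trans (le_max_right _ _) (le_max_left _ _)) hx
    have hxz : xz ≤ x := le_trans (le_trans (le_max_left _ _) (le_max_right _ _)) hx
    have hxe : xe ≤ x := le_trans (le_trans (le_max_right _ _) (le_max_right _ _)) hx
    obtain ⟨_, _, _, hLL, hL9, hL, _⟩ := he x hxe
    obtain ⟨σ, t⟩ := s
    simp only at hs1 hs2 ht1 ht2
    have hη0 : 0 < 1 / (4 * Real.log x) := by positivity
    have hLL0 : 0 < LL x := by linarith only [hLL]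
    have hp0 : Real.log x ^ K0 ≤ Real.log x ^ (max K0 K1) := pow_le_pow_right₀ hL (le_max_left _ _)
    have hp1 : Real.log x ^ K1 ≤ Real.log x ^ (max K0 K1) := pow_le_pow_right₀ hL (le_max_right _ _)
    have hx3 : (0:ℝ) ≤ (x:ℝ) ^ (3:ℕ) := by positivity
    have habs : |2 * t| = 2 * |t| := by rw [abs_mul]; norm_num
    have hD1 : 1 ≤ C1 * LL x ^ 2 := by
      have : (1:ℝ) ≤ LL x ^ 2 := one_le_pow₀ hLL
      nlinarith only [this, hC1]
    have hK1' : 1 ≤ C0 * LL x := by nlinarith only [hC0, hLL]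
    have key := Low_hor (qm x d) (ch x χ) t (L9 x) Cz (C1 * LL x ^ 2) (C0 * LL x)
      (1 / (4 * Real.log x)) hL9 hη0 hCz hD1 hK1'
      (fun σ' a1 a2 => by
        have := hz x hxz d (σ' : ℂ) hd (by simpa using a1) (by simpa using a2)
        simpa using this)
      (fun σ' a1 a2 => by
        have := h1 x hx1 d χ ⟨σ', t⟩ hd hdB a1 a2 (hp1.trans ht1) (by show |t| ≤ _; linarith only [ht2, hx3])
        refine this.trans (le_of_eq ?_)
        ring)
      (fun σ' a1 a2 => by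
        rw [ch_sq]
        have := h0 x hx0 d (χ ^ 2) ⟨σ', 2 * t⟩ hd hdB a1 a2
          (by show _ ≤ |2 * t|; rw [habs]; have := hp0.trans ht1; linarith only [ht1, hp0, abs_nonneg t])
          (by show |2 * t| ≤ _; rw [habs]; linarith only [ht2])
        refine this.trans (le_of_eq ?_)
        ring)
      σ hs1 hs2
    refine le_trans (le_of_eq ?_) key
    field_simp

end Pool.Agent.H76.VKT

end

section

/-!
# VKT (H97/VK of helper97 with the parameter `T0.t` in place of `9/10`, `t1` in place of `19/20`) VkChiW: `∑_{n≤z} Λ(n) χ(n) n^{it} ≤ z/L^K` for `z ≥ exp(L^{19/20})`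

The same proof as in VkChi with `sm_sharp_w`, `ℓ = log 2z ≥ L^{19/20}`, `k = 20 (3κ + K + 3)`.

Proof.  `κ = K + 3`, `k = 10 (3κ + K + 3)`, `sm_sharp k κ B`.  With `a_n = Λ(n) (log n)^k ψ(n) ee(t log n)`, `ψ = ch x χ`, `w = ⌊√z⌋`:
`∑_{w<n≤z} Λ(n) ψ(n) ee(t log n) = ∑_{w<n≤z} a_n (log n)^{-k}`; Abel summation with the decreasing positive weights `(log n)^{-k} ≤ (e0 L/3)^{-k}`
(`log n ≥ log w ≥ e0 L/3`): at most `4 (3/(e0 L))^k max_{v≤z} ‖∑_{n≤v} a_n‖
 ≤ C z L^{-k} (L^{(9/10)(k+1)} LL^{20(k+1)} L^{3κ} + L^{k+1-κ}) ≤ C z (L^{9/10 - k/10 + 3κ} LL^{20(k+1)} + L^{1-κ}) ≤ z/(4 L^K)`.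
The terms `n ≤ w` contribute at most `√z · log z`.  Finally `Λ(n) (χ(n) - ψ(n)) = 0` unless `n` is a power of a prime `≤ y = Yx x` (`ch_apply`): the difference is at most
`∑_{p ≤ y} log z`-ish `≤ y (log z + 1) ≤ z/(4 L^K)` as `log y ≤ L^{9/10}`, `log z ≥ e0 L`.
(The sum of `Λ` over the powers `≤ z` of one prime is `≤ log z`.)
-/

set_option autoImplicit false

namespace Pool.Agent.H76.VKT

open Finset
open Pool.Agent.H91.EHA
open Pool.Agent.H91.PK (ee)

private theorem VkChiW_abel (f : ℕ → ℂ) (g : ℕ → ℝ) (M : ℝ) (w z : ℕ) (hwz : w < z)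
    (hM : ∀ v ≤ z, ‖∑ n ∈ Icc 1 v, f n‖ ≤ M) (hg0 : ∀ n, w < n → 0 ≤ g n)
    (hg : ∀ n, w < n → g (n + 1) ≤ g n) :
    ‖∑ n ∈ Ioc w z, (g n : ℂ) * f n‖ ≤ 2 * M * g (w + 1) := by
  have key : ∀ m : ℕ, w + 1 ≤ m → m ≤ z →
      ‖∑ n ∈ Ioc w m, (g n : ℂ) * f n - (g m : ℂ) * ∑ n ∈ Icc 1 m, f n‖ ≤
        M * (2 * g (w + 1) - g m) := by
    intro m hm
    induction m, hm using Nat.le_induction with
    | base =>
      intro hz
      rw [sum_Ioc_succ_top le_rfl, Ioc_self, sum_empty, zero_add,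
        sum_Icc_succ_top (show 1 ≤ w + 1 by omega)]
      have h1 : (g (w + 1) : ℂ) * f (w + 1) -
          (g (w + 1) : ℂ) * (∑ k ∈ Icc 1 w, f k + f (w + 1)) =
          -((g (w + 1) : ℂ) * ∑ k ∈ Icc 1 w, f k) := by ring
      rw [h1, norm_neg, norm_mul, Complex.norm_real, Real.norm_of_nonneg (hg0 _ (by omega))]
      have h2 := hM w (by omega)
      have h3 := hg0 (w + 1) (by omega)
      nlinarith only [h2, h3]
    | succ m hm ih =>
      intro hz
      have h1 := ih (by omega)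
      rw [sum_Ioc_succ_top (show w ≤ m by omega), sum_Icc_succ_top (show 1 ≤ m + 1 by omega)]
      have h2 : ∑ k ∈ Ioc w m, (g k : ℂ) * f k + (g (m + 1) : ℂ) * f (m + 1) -
          (g (m + 1) : ℂ) * (∑ k ∈ Icc 1 m, f k + f (m + 1)) =
          (∑ k ∈ Ioc w m, (g k : ℂ) * f k - (g m : ℂ) * ∑ k ∈ Icc 1 m, f k) +
          ((g m - g (m + 1) : ℝ) : ℂ) * ∑ k ∈ Icc 1 m, f k := by
        push_cast; ring
      rw [h2]
      refine (norm_add_le _ _).trans ?_
      rw [norm_mul, Complex.norm_real, Real.norm_of_nonneg (by linarith only [hg, hm, hg m (by omega)])]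
      have h3 := hM m (by omega)
      have h4 := hg m (by omega)
      nlinarith only [h1, h3, h4]
  have h1 := key z (by omega) le_rfl
  have h2 : ∑ n ∈ Ioc w z, (g n : ℂ) * f n =
      (∑ n ∈ Ioc w z, (g n : ℂ) * f n - (g z : ℂ) * ∑ n ∈ Icc 1 z, f n) +
      (g z : ℂ) * ∑ n ∈ Icc 1 z, f n := by ring
  rw [h2]
  refine (norm_add_le _ _).trans ?_
  rw [norm_mul, Complex.norm_real, Real.norm_of_nonneg (hg0 z hwz)]
  have h3 := hM z le_rfl
  have h4 := hg0 z hwz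
  nlinarith only [h1, h3, h4]

private theorem VkChiW_ev [T0] (t1 : ℝ) (ht1 : T0.t < t1) (K k : ℕ) (A : ℝ) : ∃ x0 : ℕ, ∀ x : ℕ, x0 ≤ x →
    (Real.log (Real.log x)) ^ (20 * (k + 1)) ≤ Real.log x ∧ A ≤ Real.log x ∧ 1 ≤ Real.log x ∧
    16 * Real.log x ^ (K + 1) ≤ Real.exp (Real.log x ^ t1 / 2) ∧
    Real.log x ^ T0.t ≤ Real.log x ^ t1 / 2 := by
  have hlo := T0.lo
  have h1 : ∀ᶠ u : ℝ in Filter.atTop, Real.log u ^ (20 * (k + 1)) ≤ u := by
    have h := (Real.isLittleO_pow_log_id_atTop (n := 20 * (k + 1))).bound (show (0 : ℝ) < 1 by norm_num)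
    filter_upwards [h, Filter.eventually_ge_atTop (1 : ℝ)] with u hu hu1
    have hl : 0 ≤ Real.log u := Real.log_nonneg hu1
    rw [Real.norm_of_nonneg (by positivity), one_mul, id, Real.norm_of_nonneg (by linarith only [hu1])] at hu
    exact hu
  have h2 : ∀ᶠ u : ℝ in Filter.atTop, A ≤ u := Filter.eventually_ge_atTop A
  have h3 : ∀ᶠ u : ℝ in Filter.atTop, 1 ≤ u := Filter.eventually_ge_atTop 1
  have h4 : ∀ᶠ u : ℝ in Filter.atTop, 16 * u ^ (K + 1) ≤ Real.exp (u ^ t1 / 2) := by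
    have h := (isLittleO_pow_exp_pos_mul_atTop (2 * (K + 1)) (show (0 : ℝ) < 1 / 2 by norm_num)).bound
      (show (0 : ℝ) < 1 / 16 by norm_num)
    have h' := (tendsto_rpow_atTop (show (0 : ℝ) < t1 by linarith only [ht1, hlo])).eventually h
    filter_upwards [h', Filter.eventually_ge_atTop (1 : ℝ)] with u hu hu1
    have hp : 0 ≤ u ^ t1 := Real.rpow_nonneg (by linarith only [hu1]) _
    rw [Real.norm_of_nonneg (by positivity), Real.norm_of_nonneg (by positivity)] at hu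
    have h2 : u ^ (K + 1) ≤ (u ^ t1) ^ (2 * (K + 1)) := by
      rw [← Real.rpow_natCast (u ^ t1), ← Real.rpow_mul (by linarith only [hu1]),
        ← Real.rpow_natCast u]
      refine Real.rpow_le_rpow_of_exponent_le hu1 ?_
      push_cast
      have : (0 : ℝ) ≤ K := Nat.cast_nonneg _
      nlinarith only [ht1, hlo]
    have e : u ^ t1 / 2 = 1 / 2 * u ^ t1 := by ring
    rw [e]
    linarith only [hu, h2]
  have h5 : ∀ᶠ u : ℝ in Filter.atTop, u ^ T0.t ≤ u ^ t1 / 2 := by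
    have h := (tendsto_rpow_atTop (show (0 : ℝ) < t1 - T0.t by linarith only [ht1])).eventually_ge_atTop 2
    filter_upwards [h, Filter.eventually_ge_atTop (1 : ℝ)] with u hu hu1
    have e1 : u ^ T0.t * u ^ (t1 - T0.t) = u ^ t1 := by
      rw [← Real.rpow_add (by linarith only [hu1])]
      congr 1
      ring
    have e2 : 0 ≤ u ^ T0.t := by positivity
    rw [← e1]
    nlinarith only [hu, e2]
  have hlog : Filter.Tendsto (fun x : ℕ => Real.log (x : ℝ)) Filter.atTop Filter.atTop :=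
    Real.tendsto_log_atTop.comp tendsto_natCast_atTop_atTop
  have h := hlog.eventually (h1.and (h2.and (h3.and (h4.and h5))))
  rw [Filter.eventually_atTop] at h
  obtain ⟨x0, hx0⟩ := h
  exact ⟨x0, fun x hx => hx0 x hx⟩

private theorem VkChiW_pow [T0] (t1 : ℝ) (K k κ : ℕ) (hκ : κ = K + 3)
    (hk : (3 * κ + K + 3 : ℝ) ≤ (t1 - T0.t) * k) (L LL9 ℓ : ℝ)
    (hL : 1 ≤ L) (hLL : LL9 ^ (20 * (k + 1)) ≤ L) (hℓ1 : L ^ t1 ≤ ℓ) (hℓ2 : ℓ ≤ 3 * L) :
    (L ^ T0.t) ^ (k + 1) * LL9 ^ (20 * (k + 1)) * L ^ (3 * κ) + ℓ ^ (k + 1) / L ^ κ ≤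
      4 * ℓ ^ k / L ^ (K + 1) := by
  have hL0 : 0 < L := by linarith only [hL]
  have hℓ0 : 0 ≤ ℓ := (Real.rpow_nonneg hL0.le _).trans hℓ1
  have hhi := T0.hi
  have h1 : (L ^ T0.t) ^ (k + 1) * LL9 ^ (20 * (k + 1)) * L ^ (3 * κ) ≤
      ℓ ^ k / L ^ (K + 1) := by
    rw [le_div_iff₀ (by positivity)]
    calc (L ^ T0.t) ^ (k + 1) * LL9 ^ (20 * (k + 1)) * L ^ (3 * κ) * L ^ (K + 1)
        ≤ (L ^ T0.t) ^ (k + 1) * L * L ^ (3 * κ) * L ^ (K + 1) := by gcongr
      _ = L ^ (T0.t * (k + 1 : ℕ) + 1 + (3 * κ : ℕ) + (K + 1 : ℕ)) := by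
          rw [Real.rpow_add hL0, Real.rpow_add hL0, Real.rpow_add hL0, Real.rpow_natCast,
            Real.rpow_natCast, Real.rpow_one, Real.rpow_mul hL0.le, Real.rpow_natCast]
      _ ≤ L ^ (t1 * k) := by
          refine Real.rpow_le_rpow_of_exponent_le hL ?_
          push_cast
          nlinarith only [hk, hhi]
      _ = (L ^ t1) ^ k := by rw [Real.rpow_mul hL0.le, Real.rpow_natCast]
      _ ≤ ℓ ^ k := pow_le_pow_left₀ (Real.rpow_nonneg hL0.le _) hℓ1 _
  have h2 : ℓ ^ (k + 1) / L ^ κ ≤ 3 * ℓ ^ k / L ^ (K + 1) := by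
    rw [div_le_div_iff₀ (by positivity) (by positivity)]
    calc ℓ ^ (k + 1) * L ^ (K + 1) = ℓ ^ k * ℓ * L ^ (K + 1) := by ring
      _ ≤ ℓ ^ k * (3 * L) * L ^ (K + 1) := by gcongr
      _ = 3 * ℓ ^ k * L ^ (K + 2) := by ring
      _ ≤ 3 * ℓ ^ k * L ^ κ := by
          refine mul_le_mul_of_nonneg_left (pow_le_pow_right₀ hL (by omega)) (by positivity)
  have h3 : 4 * ℓ ^ k / L ^ (K + 1) = ℓ ^ k / L ^ (K + 1) + 3 * ℓ ^ k / L ^ (K + 1) := by ring
  rw [h3]
  exact add_le_add h1 h2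

private theorem VkChiW_lam_le {n z : ℕ} (hn : 1 ≤ n) (hz : n ≤ z) : Lam n ≤ Real.log z :=
  (ArithmeticFunction.vonMangoldt_le_log).trans
    (Real.log_le_log (by exact_mod_cast hn) (by exact_mod_cast hz))

private theorem VkChiW_lam_nonneg (n : ℕ) : 0 ≤ Lam n := ArithmeticFunction.vonMangoldt_nonneg

private theorem VkChiW_card (y : ℕ) : ((primorial y).primeFactors.card : ℝ) ≤ y := by
  have h : (primorial y).primeFactors ⊆ Icc 1 y := by
    intro p hp
    have hpp := Nat.prime_of_mem_primeFactors hp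
    have hd := Nat.dvd_of_mem_primeFactors hp
    unfold primorial at hd
    rw [Prime.dvd_finsetProd_iff hpp.prime] at hd
    obtain ⟨q, hq, hpq⟩ := hd
    simp only [mem_filter, mem_range] at hq
    have h2 := (Nat.prime_dvd_prime_iff_eq hpp hq.2).1 hpq
    rw [mem_Icc]
    exact ⟨hpp.one_lt.le, by omega⟩
  have h2 := card_le_card h
  rw [Nat.card_Icc] at h2
  have h3 : (primorial y).primeFactors.card ≤ y := by omega
  exact_mod_cast h3

theorem vk_chi_w_h [T0] (h_sm_sharp_w : sm_sharp_w_P)  (t1 : ℝ) (ht1' : T0.t < t1) (K B : ℕ) : ∃ K' x0 : ℕ, ∀ x : ℕ, x0 ≤ x →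
    ∀ (d : ℕ) (χ : DirichletCharacter ℂ d) (t : ℝ) (z : ℕ), 1 ≤ d → (d : ℝ) ≤ Real.log x ^ B →
    Real.exp (Real.log x ^ t1) ≤ z → z ≤ x ^ 2 → Real.log x ^ K' ≤ |t| → |t| ≤ (x : ℝ) ^ (2 : ℕ) →
    ‖∑ n ∈ Icc 1 z, ((Lam n : ℝ) : ℂ) * χ (n : ZMod d) * ee (t * Real.log n)‖ ≤ z / Real.log x ^ K := by
  obtain ⟨κ, hκ⟩ : ∃ κ : ℕ, κ = K + 3 := ⟨_, rfl⟩
  have hlo := T0.lo
  have hdif : 0 < t1 - T0.t := by linarith only [ht1']
  obtain ⟨k, hk⟩ : ∃ k : ℕ, (3 * κ + K + 3 : ℝ) ≤ (t1 - T0.t) * k := by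
    refine ⟨⌈(3 * κ + K + 3 : ℝ) / (t1 - T0.t)⌉₊, ?_⟩
    have h := Nat.le_ceil ((3 * κ + K + 3 : ℝ) / (t1 - T0.t))
    rw [div_le_iff₀ hdif] at h
    linarith only [h]
  obtain ⟨C, hC, K', x1, hmain⟩ := h_sm_sharp_w t1 ht1' k κ B (by omega)
  obtain ⟨x2, hev⟩ := VkChiW_ev t1 ht1' K k (16 * C * 3 ^ k)
  obtain ⟨x3, hyx⟩ := yx_ev
  refine ⟨K', max (max x1 x2) (max x3 3), fun x hx d χ t z hd hdB hz1 hz2 ht1 ht2 => ?_⟩
  have hx1 : x1 ≤ x := le_trans (le_trans (le_max_left _ _) (le_max_left _ _)) hx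
  have hx2 : x2 ≤ x := le_trans (le_trans (le_max_right _ _) (le_max_left _ _)) hx
  have hx3 : x3 ≤ x := le_trans (le_trans (le_max_left _ _) (le_max_right _ _)) hx
  have hx4 : 3 ≤ x := le_trans (le_trans (le_max_right _ _) (le_max_right _ _)) hx
  obtain ⟨hv1, hv2, hv3, hv4, hv5⟩ := hev x hx2
  have hLL0 : 0 ≤ LL x := by
    have := (hyx x hx3).2.2.2.1
    linarith only [this]
  have hxpos : (0 : ℝ) < x := by
    have : (3 : ℝ) ≤ x := by exact_mod_cast hx4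
    linarith only [this]
  obtain ⟨L, hL⟩ : ∃ L : ℝ, L = Real.log x := ⟨_, rfl⟩
  rw [← hL] at hv1 hv2 hv3 hv4 hv5 ⊢
  have hL0 : 0 < L := by linarith only [hv3]
  -- size of z
  obtain ⟨V, hV⟩ : ∃ V : ℝ, V = L ^ t1 := ⟨_, rfl⟩
  have hV1 : 1 ≤ V := by rw [hV]; exact Real.one_le_rpow hv3 (by linarith only [ht1', hlo])
  rw [← hV] at hv4 hv5
  have hze : Real.exp V ≤ z := by rw [hV, hL]; exact hz1
  have hzpos : (0 : ℝ) < z := lt_of_lt_of_le (Real.exp_pos _) hze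
  have hlogz1 : V ≤ Real.log z := by
    rw [Real.le_log_iff_exp_le hzpos]; exact hze
  have hlogz2 : Real.log z ≤ 2 * L := by
    have h : (z : ℝ) ≤ (x : ℝ) ^ 2 := by exact_mod_cast hz2
    have h2 := Real.log_le_log hzpos h
    rw [Real.log_pow] at h2
    rw [hL]
    exact_mod_cast h2
  have hlogz0 : 0 < Real.log z := lt_of_lt_of_le (by positivity) hlogz1
  have hz1' : 1 ≤ z := by
    have : 0 < z := by exact_mod_cast hzpos
    omega
  -- the cut
  obtain ⟨w, hw⟩ : ∃ w : ℕ, w = Nat.sqrt z := ⟨_, rfl⟩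
  have hw1 : w * w ≤ z := by rw [hw]; exact Nat.sqrt_le z
  have hw2 : z < (w + 1) * (w + 1) := by rw [hw]; exact Nat.lt_succ_sqrt z
  have hexp0 : (0 : ℝ) < Real.exp (V / 2) := Real.exp_pos _
  have hexp2 : Real.exp (V) = Real.exp (V / 2) * Real.exp (V / 2) := by
    rw [← Real.exp_add]; congr 1; ring
  have hLK : 1 ≤ L ^ (K + 1) := one_le_pow₀ hv3
  have hw3 : Real.exp (V / 2) < (w : ℝ) + 1 := by
    have h1 : (z : ℝ) < ((w : ℝ) + 1) * ((w : ℝ) + 1) := by exact_mod_cast hw2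
    have h2 : Real.exp (V / 2) * Real.exp (V / 2) < ((w : ℝ) + 1) * ((w : ℝ) + 1) := by
      rw [← hexp2]; linarith only [hze, h1]
    have h3 : (0 : ℝ) ≤ w := Nat.cast_nonneg _
    exact lt_of_mul_self_lt_mul_self₀ (by linarith only) h2
  have hw4 : 8 * L ^ (K + 1) ≤ w := by linarith only [hv4, hLK, hw3]
  have hwR1 : (8 : ℝ) ≤ w := by linarith only [hv4, hLK, hw3]
  have hw5 : 8 ≤ w := by exact_mod_cast hwR1
  have hwz : w < z := by nlinarith only [hw5, hw1]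
  obtain ⟨ℓ, hℓ⟩ : ∃ ℓ : ℝ, ℓ = Real.log (2 * z) := ⟨_, rfl⟩
  have hℓe : ℓ = Real.log 2 + Real.log z := by
    rw [hℓ, Real.log_mul (by norm_num) hzpos.ne']
  have hl2 : 0 < Real.log 2 := Real.log_pos (by norm_num)
  have hl2' : Real.log 2 ≤ 1 := by
    have := Real.log_two_lt_d9
    linarith only [hl2, this]
  have hℓ1 : V ≤ ℓ := by linarith only [hlogz1, hℓe, hl2]
  have hℓ0 : 0 < ℓ := by linarith only [hV1, hlogz1, hℓe, hl2]
  have hℓ2 : ℓ ≤ 3 * L := by linarith only [hv3, hlogz2, hℓe, hl2']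
  have hlogw : ℓ / 3 ≤ Real.log ((w + 1 : ℕ) : ℝ) := by
    have h1 : (z : ℝ) ≤ ((w + 1 : ℕ) : ℝ) ^ 2 := by
      have h2 : (z : ℝ) < ((w + 1 : ℕ) : ℝ) * ((w + 1 : ℕ) : ℝ) := by exact_mod_cast hw2
      rw [sq]; exact h2.le
    have h2 := Real.log_le_log hzpos h1
    rw [Real.log_pow] at h2
    have h3 : 2 * Real.log 2 ≤ Real.log z := by
      have h4 : (2 : ℝ) ^ 2 ≤ z := by
        have h5 : (w : ℝ) * w ≤ z := by exact_mod_cast hw1
        nlinarith only [hv4, hLK, hw3, h5]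
      have h6 := Real.log_le_log (by norm_num) h4
      rw [Real.log_pow] at h6
      exact_mod_cast h6
    push_cast at h2 ⊢
    linarith only [hℓe, h3, h2]
  -- the three parts
  obtain ⟨b, hb⟩ : ∃ b : ℕ → ℂ, b = fun n => ((Lam n : ℝ) : ℂ) * χ (n : ZMod d) * ee (t * Real.log n) :=
    ⟨_, rfl⟩
  obtain ⟨b', hb'⟩ : ∃ b' : ℕ → ℂ, b' = fun n =>
    ((Lam n : ℝ) : ℂ) * ch x χ (n : ZMod (qm x d)) * ee (t * Real.log n) := ⟨_, rfl⟩
  have hsplit : ∑ n ∈ Icc 1 z, ((Lam n : ℝ) : ℂ) * χ (n : ZMod d) * ee (t * Real.log n) =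
      ∑ n ∈ Icc 1 z, (b n - b' n) + (∑ n ∈ Icc 1 w, b' n + ∑ n ∈ Ioc w z, b' n) := by
    have h1 : ∑ n ∈ Icc 1 w, b' n + ∑ n ∈ Ioc w z, b' n = ∑ n ∈ Icc 1 z, b' n := by
      have h2 : Icc 1 w = Ioc 0 w := by ext a; simp only [mem_Icc, mem_Ioc]; omega
      have h3 : Icc 1 z = Ioc 0 z := by ext a; simp only [mem_Icc, mem_Ioc]; omega
      rw [h2, h3]
      exact sum_Ioc_consecutive _ (Nat.zero_le _) hwz.le
    rw [h1, sum_sub_distrib, hb]
    ring
  have hp1 : ‖∑ n ∈ Icc 1 z, (b n - b' n)‖ ≤ z / (4 * L ^ K) := by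
    calc ‖∑ n ∈ Icc 1 z, (b n - b' n)‖ ≤ ∑ n ∈ Icc 1 z, ‖b n - b' n‖ := norm_sum_le _ _
      _ ≤ ∑ n ∈ Icc 1 z, (if ¬ Nat.Coprime n (primorial (Yx x)) then Lam n else 0) := by
          apply sum_le_sum
          intro n hn
          rw [hb, hb']
          simp only [ch_apply x hd χ n]
          by_cases hc : n.Coprime (primorial (Yx x))
          · rw [if_pos hc, if_neg (not_not.2 hc), sub_self, norm_zero]
          · rw [if_neg hc, if_pos hc, mul_zero, zero_mul, sub_zero]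
            rw [norm_mul, norm_mul, Complex.norm_real, Pool.Agent.H91.PK.LSa_norm_ee, mul_one,
              Real.norm_of_nonneg (VkChiW_lam_nonneg n)]
            have h1 : ‖χ (n : ZMod d)‖ ≤ 1 := χ.norm_le_one _
            nlinarith only [h1, VkChiW_lam_nonneg n]
      _ = ∑ n ∈ (Icc 1 z).filter (fun n => ¬ Nat.Coprime n (primorial (Yx x))), Lam n := by
          rw [sum_filter]
      _ ≤ ((primorial (Yx x)).primeFactors.card : ℝ) * Real.log z :=
          Pool.Agent.H91.PK.DiA_psi_noncoprime hz1' (primorial_pos _)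
      _ ≤ (Yx x : ℝ) * (2 * L) := by
          apply mul_le_mul (VkChiW_card _) hlogz2 hlogz0.le (Nat.cast_nonneg _)
      _ ≤ Real.exp (V / 2) * (2 * L) := by
          apply mul_le_mul_of_nonneg_right _ (by positivity)
          refine (Nat.floor_le (Real.exp_pos _).le).trans ?_
          apply Real.exp_le_exp.2
          unfold L9
          rw [← hL]
          exact hv5
      _ ≤ z / (4 * L ^ K) := by
          rw [le_div_iff₀ (by positivity)]
          calc Real.exp (V / 2) * (2 * L) * (4 * L ^ K)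
              = Real.exp (V / 2) * (8 * L ^ (K + 1)) := by ring
            _ ≤ Real.exp (V / 2) * Real.exp (V / 2) := by
                apply mul_le_mul_of_nonneg_left _ hexp0.le
                linarith only [hv4, hLK]
            _ = Real.exp (V) := hexp2.symm
            _ ≤ z := hze
  have hp2 : ‖∑ n ∈ Icc 1 w, b' n‖ ≤ z / (4 * L ^ K) := by
    calc ‖∑ n ∈ Icc 1 w, b' n‖ ≤ ∑ n ∈ Icc 1 w, ‖b' n‖ := norm_sum_le _ _
      _ ≤ ∑ _n ∈ Icc 1 w, (2 * L) := by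
          apply sum_le_sum
          intro n hn
          rw [mem_Icc] at hn
          rw [hb']
          simp only
          rw [norm_mul, norm_mul, Complex.norm_real, Pool.Agent.H91.PK.LSa_norm_ee, mul_one,
              Real.norm_of_nonneg (VkChiW_lam_nonneg n)]
          have h1 := ch_norm_le x χ (n : ZMod (qm x d))
          have h2 := VkChiW_lam_le hn.1 (hn.2.trans hwz.le)
          have h3 := VkChiW_lam_nonneg n
          nlinarith only [hlogz2, h2, h1, h3]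
      _ = w * (2 * L) := by simp
      _ ≤ z / (4 * L ^ K) := by
          rw [le_div_iff₀ (by positivity)]
          have h1 : (w : ℝ) * w ≤ z := by exact_mod_cast hw1
          calc (w : ℝ) * (2 * L) * (4 * L ^ K) = w * (8 * L ^ (K + 1)) := by ring
            _ ≤ w * w := mul_le_mul_of_nonneg_left hw4 (Nat.cast_nonneg _)
            _ ≤ z := h1
  have hp3 : ‖∑ n ∈ Ioc w z, b' n‖ ≤ z / (2 * L ^ K) := by
    obtain ⟨M, hMdef⟩ : ∃ M : ℝ, M = C * z * (L9 x ^ (k + 1) * LL x ^ (20 * (k + 1)) *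
      Real.log x ^ (3 * κ) + Real.log (2 * z) ^ (k + 1) / Real.log x ^ κ) := ⟨_, rfl⟩
    have h1 := VkChiW_abel (fun n => ((Lam n * Real.log n ^ k : ℝ) : ℂ) *
        ch x χ (n : ZMod (qm x d)) * ee (t * Real.log n))
      (fun n => (Real.log n ^ k)⁻¹) M w z hwz
      (fun v hv => by
        rw [hMdef]
        exact hmain x hx1 d χ t v z hd hdB hz1 hz2 hv ht1 ht2)
      (fun n hn => by
        have : 0 ≤ Real.log (n : ℝ) := Real.log_natCast_nonneg n
        positivity)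
      (fun n hn => by
        have h2 : (1 : ℝ) < n := by
          have : 1 < n := by omega
          exact_mod_cast this
        have h3 : 0 < Real.log (n : ℝ) := Real.log_pos h2
        have h4 : Real.log (n : ℝ) ≤ Real.log ((n + 1 : ℕ) : ℝ) := by
          apply Real.log_le_log (by linarith only [h2])
          push_cast; linarith only
        apply inv_anti₀ (by positivity)
        exact pow_le_pow_left₀ h3.le h4 _)
    have h2 : ∑ n ∈ Ioc w z, b' n = ∑ n ∈ Ioc w z, (((Real.log n ^ k)⁻¹ : ℝ) : ℂ) *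
        (((Lam n * Real.log n ^ k : ℝ) : ℂ) *
        ch x χ (n : ZMod (qm x d)) * ee (t * Real.log n)) := by
      apply sum_congr rfl
      intro n hn
      rw [mem_Ioc] at hn
      have h2 : (1 : ℝ) < n := by
        have : 1 < n := by omega
        exact_mod_cast this
      have h3 : Real.log (n : ℝ) ≠ 0 := (Real.log_pos h2).ne'
      have h4 : (((Real.log n ^ k)⁻¹ : ℝ) : ℂ) * ((Lam n * Real.log n ^ k : ℝ) : ℂ) =
          ((Lam n : ℝ) : ℂ) := by
        rw [← Complex.ofReal_mul]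
        congr 1
        field_simp
      rw [hb']
      simp only
      rw [← mul_assoc, ← mul_assoc, h4]
    rw [h2]
    refine h1.trans ?_
    have hM0 : 0 ≤ M := by
      rw [hMdef]
      have h3 : 0 ≤ L9 x := by unfold L9; rw [← hL]; positivity
      rw [← hL, ← hℓ]
      positivity
    have h3 : ((Real.log ((w + 1 : ℕ) : ℝ)) ^ k)⁻¹ ≤ ((ℓ / 3) ^ k)⁻¹ := by
      apply inv_anti₀ (by positivity)
      exact pow_le_pow_left₀ (by positivity) hlogw _
    have h4 : M ≤ C * z * (4 * ℓ ^ k / L ^ (K + 1)) := by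
      rw [hMdef]
      apply mul_le_mul_of_nonneg_left _ (by positivity)
      unfold L9
      rw [← hL, ← hℓ]
      exact VkChiW_pow t1 K k κ hκ hk L (LL x) ℓ hv3 (by unfold LL; rw [← hL]; exact hv1)
        (by rw [← hV]; exact hℓ1) hℓ2
    calc 2 * M * ((Real.log ((w + 1 : ℕ) : ℝ)) ^ k)⁻¹
        ≤ 2 * (C * z * (4 * ℓ ^ k / L ^ (K + 1))) * ((ℓ / 3) ^ k)⁻¹ := by
          apply mul_le_mul (by linarith only [h4]) h3 (by positivity) (by positivity)
      _ = (8 * C * 3 ^ k) * z / L ^ (K + 1) := by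
          rw [div_pow]
          field_simp
          ring
      _ ≤ (L / 2) * z / L ^ (K + 1) := by
          apply div_le_div_of_nonneg_right _ (by positivity)
          apply mul_le_mul_of_nonneg_right _ hzpos.le
          linarith only [hv2]
      _ = z / (2 * L ^ K) := by
          rw [pow_succ]
          field_simp
  rw [hsplit]
  calc ‖∑ n ∈ Icc 1 z, (b n - b' n) + (∑ n ∈ Icc 1 w, b' n + ∑ n ∈ Ioc w z, b' n)‖
      ≤ ‖∑ n ∈ Icc 1 z, (b n - b' n)‖ + (‖∑ n ∈ Icc 1 w, b' n‖ + ‖∑ n ∈ Ioc w z, b' n‖) :=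
        (norm_add_le _ _).trans (add_le_add_right (norm_add_le _ _) _)
    _ ≤ z / (4 * L ^ K) + (z / (4 * L ^ K) + z / (2 * L ^ K)) :=
        add_le_add hp1 (add_le_add hp2 hp3)
    _ = z / L ^ K := by
        field_simp
        ring

end Pool.Agent.H76.VKT

end
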