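import Pool.Agent.H15.TB1.M11
import Pool.Agent.H15.TB1.M26
import Pool.Agent.H15.TB1.M50
import Pool.Agent.H15.TB1.M60

/-! The parts of this file: H36.IS.MtB, H36.IS.MtC, H91.PK.MB, H36.IS.MtA, H36.IS.Mt, H97.VK.TailA, H35.W.Rough, H97.VK.RCnt, H76.VKT.Up. -/

section

/-!
# IS MtB: an Abelian theorem with kernel exp(-v)

Let a : ℕ → ℝ, a n ≥ 0, a 0 = a 1 = 0, S n = ∑_{k ≤ n} a k, S n - loglog n → c.  Then for σ → 0+:
 ∑_n a n n^{-σ} is summable and  ∑_n a n n^{-σ} + log σ → c - γ.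
Proof: n^{-σ} = ∫_n^∞ σ t^{-σ-1} dt, so ∑ a n n^{-σ} = ∫_1^∞ S(⌊t⌋) σ t^{-σ-1} dt = ∫_0^∞ S(⌊e^{v/σ}⌋) e^{-v} dv (t = e^{v/σ}).
 S(⌊e^{v/σ}⌋) + log σ = log v + c + o(1) for fixed v > 0 (log⌊e^{v/σ}⌋ = v/σ + o(1), log(v/σ) = log v - log σ).
 Domination on v ∈ (0,∞): for ⌊t⌋ ≥ 2, 0 ≤ S ≤ K + |loglog|..., more precisely |S(⌊t⌋) - log(max(log t, 1))| ≤ K for all t ≥ 1 (S = 0 for t < 2),
 and |log(max(v/σ,1)) + log σ| = |log max(v, σ)| ≤ |log v| + log(1+v) for 0 < σ < 1; (K + |log v| + log(1+v)) e^{-v} is integrable.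
 Dominated convergence: limit = ∫_0^∞ (log v + c) e^{-v} dv = c - γ, since ∫_0^∞ log v e^{-v} dv = Γ'(1) = -γ
 (Mathlib: `Real.eulerMascheroniConstant_eq_neg_deriv`, `Complex.hasDerivAt_GammaIntegral`).
-/

set_option autoImplicit false

namespace Pool.Agent.H36.IS

open Finset Filter

theorem int_log_exp : ∫ v in Set.Ioi (0 : ℝ), Real.log v * Real.exp (-v) = -Real.eulerMascheroniConstant := by
  have h1 : HasDerivAt Complex.GammaIntegral
      (∫ t : ℝ in Set.Ioi 0, (t : ℂ) ^ ((1 : ℂ) - 1) * (Real.log t * Real.exp (-t))) 1 :=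
    Complex.hasDerivAt_GammaIntegral (by simp)
  have h2 : HasDerivAt Complex.GammaIntegral (-(Real.eulerMascheroniConstant : ℂ)) 1 := by
    refine Complex.hasDerivAt_Gamma_one.congr_of_eventuallyEq ?_
    have hop : {s : ℂ | 0 < s.re} ∈ nhds (1 : ℂ) :=
      (isOpen_lt continuous_const Complex.continuous_re).mem_nhds (by simp)
    filter_upwards [hop] with s hs
    exact (Complex.Gamma_eq_integral hs).symm
  have h3 := h1.unique h2
  have h4 : (∫ t : ℝ in Set.Ioi 0, (t : ℂ) ^ ((1 : ℂ) - 1) * (Real.log t * Real.exp (-t)))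
      = ((∫ v in Set.Ioi (0 : ℝ), Real.log v * Real.exp (-v) : ℝ) : ℂ) := by
    rw [← integral_complex_ofReal]
    refine MeasureTheory.integral_congr_ae (Filter.Eventually.of_forall fun t => ?_)
    simp
  rw [h4] at h3
  exact_mod_cast h3

/-- the counting function in the logarithmic variable -/
private noncomputable def MtB_A (a : ℕ → ℝ) (x : ℝ) : ℝ :=
  ∑ k ∈ range (⌊Real.exp x⌋₊ + 1), a k

private theorem MtB_A_meas (a : ℕ → ℝ) : Measurable (MtB_A a) :=
  (measurable_from_nat (f := fun n => ∑ k ∈ range (n + 1), a k)).comp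
    (Nat.measurable_floor.comp Real.measurable_exp)

private theorem MtB_A_nonneg {a : ℕ → ℝ} (ha : ∀ n, 0 ≤ a n) (x : ℝ) : 0 ≤ MtB_A a x :=
  Finset.sum_nonneg fun k _ => ha k

/-- comparison of the logarithm of the floor -/
private theorem MtB_floor {x : ℝ} (hx : 1 ≤ x) :
    3 / 10 * x ≤ Real.log ⌊Real.exp x⌋₊ ∧ Real.log ⌊Real.exp x⌋₊ ≤ x := by
  have he : 2 ≤ Real.exp x := by
    have := Real.add_one_le_exp x
    linarith only [hx, this]
  have h1 : Real.exp x - 1 < ⌊Real.exp x⌋₊ := by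
    have := Nat.lt_floor_add_one (Real.exp x)
    linarith only [this]
  have h2 : (⌊Real.exp x⌋₊ : ℝ) ≤ Real.exp x := Nat.floor_le (Real.exp_pos x).le
  have h3 : Real.exp x / 2 ≤ ⌊Real.exp x⌋₊ := by linarith only [he, h1]
  have h0 : (0 : ℝ) < ⌊Real.exp x⌋₊ := by linarith only [he, h1]
  constructor
  · have h4 : Real.log (Real.exp x / 2) ≤ Real.log ⌊Real.exp x⌋₊ :=
      Real.log_le_log (by positivity) h3
    rw [Real.log_div (Real.exp_pos x).ne' (by norm_num), Real.log_exp] at h4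
    have h5 := Real.log_two_lt_d9
    linarith only [hx, h4, h5]
  · have := Real.log_le_log h0 h2
    rwa [Real.log_exp] at this

private theorem MtB_bdd {a : ℕ → ℝ} (ha : ∀ n, 0 ≤ a n) {c : ℝ}
    (hS : Tendsto (fun n : ℕ => ∑ k ∈ range (n + 1), a k - Real.log (Real.log n)) atTop (nhds c)) :
    ∃ K, 0 ≤ K ∧ ∀ x, 0 < x → |MtB_A a x - Real.log (max x 1)| ≤ K := by
  obtain ⟨K0, hK0⟩ : ∃ K0, ∀ n : ℕ,
      |∑ k ∈ range (n + 1), a k - Real.log (Real.log n)| ≤ K0 := by
    obtain ⟨C, hC⟩ := (Metric.isBounded_range_of_tendsto _ hS).exists_norm_le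
    exact ⟨C, fun n => hC _ ⟨n, rfl⟩⟩
  have hK00 : 0 ≤ K0 := (abs_nonneg _).trans (hK0 0)
  have hS2 : 0 ≤ ∑ k ∈ range 3, a k := Finset.sum_nonneg fun k _ => ha k
  refine ⟨K0 + 2 + ∑ k ∈ range 3, a k, by positivity, fun x hx => ?_⟩
  rcases le_total 1 x with h | h
  · rw [max_eq_left h]
    obtain ⟨h1, h2⟩ := MtB_floor h
    have h3 : Real.log (Real.log ⌊Real.exp x⌋₊) ≤ Real.log x :=
      Real.log_le_log (by linarith only [hx, h1]) h2
    have h4 : Real.log (3 / 10 * x) ≤ Real.log (Real.log ⌊Real.exp x⌋₊) :=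
      Real.log_le_log (by linarith only [hx]) h1
    rw [Real.log_mul (by norm_num) (by linarith only [hx])] at h4
    have h5 : -2 ≤ Real.log (3 / 10) := by
      have h6 : Real.log (10 / 3 : ℝ) ≤ 10 / 3 - 1 := Real.log_le_sub_one_of_pos (by norm_num)
      have h7 : Real.log (3 / 10 : ℝ) = -Real.log (10 / 3) := by
        rw [← Real.log_inv]; norm_num
      have h8 : Real.log (10 / 3 : ℝ) ≤ 2 := by
        have h9 : (10 / 3 : ℝ) ≤ 2 * 2 := by norm_num
        have h10 := Real.log_le_log (by norm_num : (0 : ℝ) < 10 / 3) h9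
        rw [Real.log_mul (by norm_num) (by norm_num)] at h10
        have := Real.log_two_lt_d9
        linarith only [h10, this]
      linarith only [h7, h8]
    have h6 := abs_le.1 (hK0 ⌊Real.exp x⌋₊)
    have h7 : MtB_A a x = ∑ k ∈ range (⌊Real.exp x⌋₊ + 1), a k := rfl
    rw [abs_le]
    constructor
    · rw [h7]; linarith only [hS2, h4, h5, h6]
    · rw [h7]; linarith only [hS2, h3, h6]
  · rw [max_eq_right h, Real.log_one, sub_zero, abs_of_nonneg (MtB_A_nonneg ha x)]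
    have h1 : ⌊Real.exp x⌋₊ ≤ 2 := by
      have h2 : Real.exp x ≤ Real.exp 1 := Real.exp_le_exp.2 h
      have h3 := Real.exp_one_lt_d9
      have h4 : ⌊Real.exp x⌋₊ < 3 := (Nat.floor_lt (Real.exp_pos x).le).2 (by
        push_cast; linarith only [h2, h3])
      omega
    have h2 : MtB_A a x ≤ ∑ k ∈ range 3, a k := by
      unfold MtB_A
      refine Finset.sum_le_sum_of_subset_of_nonneg (fun k hk => ?_) fun k _ _ => ha k
      rw [Finset.mem_range] at hk ⊢
      omega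
    linarith only [hK00, h2]

/-- the limit for a fixed variable -/
private theorem MtB_lim {a : ℕ → ℝ} {c : ℝ}
    (hS : Tendsto (fun n : ℕ => ∑ k ∈ range (n + 1), a k - Real.log (Real.log n)) atTop (nhds c)) :
    Tendsto (fun x : ℝ => MtB_A a x - Real.log x) atTop (nhds c) := by
  have hfl : Tendsto (fun x : ℝ => ⌊Real.exp x⌋₊) atTop atTop :=
    tendsto_nat_floor_atTop.comp Real.tendsto_exp_atTop
  have h1 := hS.comp hfl
  -- `log n - x → 0`
  have h2 : Tendsto (fun x : ℝ => (⌊Real.exp x⌋₊ : ℝ) / Real.exp x) atTop (nhds 1) :=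
    tendsto_nat_floor_div_atTop.comp Real.tendsto_exp_atTop
  have h3 : Tendsto (fun x : ℝ => Real.log ((⌊Real.exp x⌋₊ : ℝ) / Real.exp x)) atTop (nhds 0) := by
    have := (Real.continuousAt_log (one_ne_zero)).tendsto.comp h2
    rwa [Real.log_one] at this
  have h4 : Tendsto (fun x : ℝ => 1 + Real.log ((⌊Real.exp x⌋₊ : ℝ) / Real.exp x) / x) atTop
      (nhds 1) := by
    have h5 : Tendsto (fun x : ℝ => Real.log ((⌊Real.exp x⌋₊ : ℝ) / Real.exp x) * x⁻¹) atTop
        (nhds (0 * 0)) := h3.mul tendsto_inv_atTop_zero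
    have h6 := h5.const_add 1
    simpa [div_eq_mul_inv] using h6
  have h5 : Tendsto (fun x : ℝ => Real.log (1 + Real.log ((⌊Real.exp x⌋₊ : ℝ) / Real.exp x) / x))
      atTop (nhds 0) := by
    have := (Real.continuousAt_log (one_ne_zero)).tendsto.comp h4
    rwa [Real.log_one] at this
  have h6 := h1.add h5
  rw [add_zero] at h6
  refine h6.congr' ?_
  filter_upwards [eventually_ge_atTop 1] with x hx
  obtain ⟨g1, g2⟩ := MtB_floor hx
  have hx0 : 0 < x := by linarith only [hx]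
  have hn0 : (0 : ℝ) < ⌊Real.exp x⌋₊ := by
    rcases Nat.eq_zero_or_pos ⌊Real.exp x⌋₊ with h0 | h0
    · rw [h0] at g1
      simp at g1
      linarith only [hx, g1]
    · exact_mod_cast h0
  have h7 : Real.log ((⌊Real.exp x⌋₊ : ℝ) / Real.exp x) = Real.log ⌊Real.exp x⌋₊ - x := by
    rw [Real.log_div hn0.ne' (Real.exp_pos x).ne', Real.log_exp]
  have h8 : 1 + Real.log ((⌊Real.exp x⌋₊ : ℝ) / Real.exp x) / x = Real.log ⌊Real.exp x⌋₊ / x := by
    rw [h7]; field_simp; ring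
  have h9 : Real.log (Real.log ⌊Real.exp x⌋₊ / x)
      = Real.log (Real.log ⌊Real.exp x⌋₊) - Real.log x :=
    Real.log_div (by linarith only [hx, g1]) hx0.ne'
  rw [h8, h9]
  simp only [Function.comp]
  unfold MtB_A
  ring

/-- integrability of the bound -/
private theorem MtB_int_abs_log :
    MeasureTheory.IntegrableOn (fun v : ℝ => |Real.log v| * Real.exp (-v)) (Set.Ioi 0) := by
  have h1 := Real.GammaIntegral_convergent (s := 1 / 2) (by norm_num)
  have h2 := Real.GammaIntegral_convergent (s := 2) (by norm_num)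
  have h3 : MeasureTheory.IntegrableOn (fun v : ℝ => 2 * (Real.exp (-v) * v ^ ((1 / 2 : ℝ) - 1))
      + Real.exp (-v) * v ^ ((2 : ℝ) - 1)) (Set.Ioi 0) := (h1.const_mul 2).add h2
  refine MeasureTheory.Integrable.mono' h3 ?_ ?_
  · exact ((Real.measurable_log.abs).mul (Real.measurable_exp.comp measurable_neg)).aestronglyMeasurable
  · filter_upwards [MeasureTheory.ae_restrict_mem measurableSet_Ioi] with v hv
    have hv0 : (0 : ℝ) < v := hv
    rw [Real.norm_eq_abs, abs_mul, abs_abs, abs_of_pos (Real.exp_pos _)]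
    have hexp := Real.exp_pos (-v)
    have e1 : v ^ ((2 : ℝ) - 1) = v := by
      rw [show (2 : ℝ) - 1 = 1 by norm_num, Real.rpow_one]
    rw [e1]
    have hp : 0 < v ^ ((1 / 2 : ℝ) - 1) := Real.rpow_pos_of_pos hv0 _
    have key : |Real.log v| ≤ 2 * v ^ ((1 / 2 : ℝ) - 1) + v := by
      rw [abs_le]
      constructor
      · have h4 : Real.log (v ^ ((1 / 2 : ℝ) - 1)) ≤ v ^ ((1 / 2 : ℝ) - 1) - 1 :=
          Real.log_le_sub_one_of_pos hp
        rw [Real.log_rpow hv0] at h4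
        linarith only [hv0, h4]
      · have h5 := Real.log_le_sub_one_of_pos hv0
        linarith only [hp, h5]
    have := mul_le_mul_of_nonneg_right key hexp.le
    linarith only [this]

private theorem MtB_int_log :
    MeasureTheory.IntegrableOn (fun v : ℝ => Real.log v * Real.exp (-v)) (Set.Ioi 0) := by
  refine MeasureTheory.Integrable.mono' MtB_int_abs_log ?_ ?_
  · exact (Real.measurable_log.mul (Real.measurable_exp.comp measurable_neg)).aestronglyMeasurable
  · refine Filter.Eventually.of_forall fun v => ?_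
    rw [Real.norm_eq_abs, abs_mul, abs_of_pos (Real.exp_pos _)]

private theorem MtB_int_exp :
    MeasureTheory.IntegrableOn (fun v : ℝ => Real.exp (-v)) (Set.Ioi 0) := by
  have := Real.GammaIntegral_convergent (s := 1) (by norm_num)
  simpa using this

private theorem MtB_abs_log_max {v σ : ℝ} (hv : 0 < v) (hσ : 0 < σ) (hσ1 : σ < 1) :
    |Real.log (max (v / σ) 1) + Real.log σ| ≤ |Real.log v| := by
  rcases le_total 1 (v / σ) with h | h
  · rw [max_eq_left h, Real.log_div hv.ne' hσ.ne']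
    rw [sub_add_cancel]
  · rw [max_eq_right h, Real.log_one, zero_add]
    have h1 : v ≤ σ := by rwa [div_le_one hσ] at h
    have h2 : Real.log v ≤ Real.log σ := Real.log_le_log hv h1
    have h3 : Real.log σ < 0 := Real.log_neg hσ hσ1
    rw [abs_of_neg h3, abs_of_neg (by linarith only [h2, h3])]
    linarith only [h2]

/-- integrability of the integrand -/
private theorem MtB_intA {a : ℕ → ℝ} {K : ℝ} (hK : ∀ x, 0 < x →
    |MtB_A a x - Real.log (max x 1)| ≤ K) {σ : ℝ} (hσ : 0 < σ) :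
    MeasureTheory.IntegrableOn (fun v : ℝ => MtB_A a (v / σ) * Real.exp (-v)) (Set.Ioi 0) := by
  have h1 : MeasureTheory.IntegrableOn (fun v : ℝ => (K + |Real.log σ|) * Real.exp (-v)
      + |Real.log v| * Real.exp (-v)) (Set.Ioi 0) :=
    (MtB_int_exp.const_mul _).add MtB_int_abs_log
  refine MeasureTheory.Integrable.mono' h1 ?_ ?_
  · exact (((MtB_A_meas a).comp (measurable_id.div_const σ)).mul
      (Real.measurable_exp.comp measurable_neg)).aestronglyMeasurable
  · filter_upwards [MeasureTheory.ae_restrict_mem measurableSet_Ioi] with v hv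
    have hv0 : (0 : ℝ) < v := hv
    rw [Real.norm_eq_abs, abs_mul, abs_of_pos (Real.exp_pos _), ← add_mul]
    refine mul_le_mul_of_nonneg_right ?_ (Real.exp_pos _).le
    have h2 := hK (v / σ) (by positivity)
    have h3 : |Real.log (max (v / σ) 1)| ≤ |Real.log σ| + |Real.log v| := by
      rcases le_total 1 (v / σ) with h | h
      · rw [max_eq_left h, Real.log_div hv0.ne' hσ.ne']
        have := abs_sub (Real.log v) (Real.log σ)
        linarith only [this]
      · rw [max_eq_right h, Real.log_one, abs_zero]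
        positivity
    have h4 : |MtB_A a (v / σ)| ≤ |MtB_A a (v / σ) - Real.log (max (v / σ) 1)|
        + |Real.log (max (v / σ) 1)| := by
      have := abs_add_le (MtB_A a (v / σ) - Real.log (max (v / σ) 1)) (Real.log (max (v / σ) 1))
      rwa [sub_add_cancel] at this
    linarith only [h2, h3, h4]

/-- the summands as functions of `v` -/
private noncomputable def MtB_F (a : ℕ → ℝ) (σ : ℝ) (n : ℕ) (v : ℝ) : ℝ :=
  a n * (Set.Ici (σ * Real.log n)).indicator (fun v => Real.exp (-v)) v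

private theorem MtB_F_int {a : ℕ → ℝ} (σ : ℝ) (n : ℕ) :
    MeasureTheory.IntegrableOn (MtB_F a σ n) (Set.Ioi 0) :=
  (MtB_int_exp.indicator measurableSet_Ici).const_mul _

private theorem MtB_F_integral {a : ℕ → ℝ} (h0 : a 0 = 0) (h1 : a 1 = 0) {σ : ℝ} (hσ : 0 < σ)
    (n : ℕ) : ∫ v in Set.Ioi (0 : ℝ), MtB_F a σ n v = a n * (n : ℝ) ^ (-σ) := by
  unfold MtB_F
  rw [MeasureTheory.integral_const_mul]
  rcases Nat.lt_or_ge n 2 with h | h
  · interval_cases n
    · rw [h0]; simp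
    · rw [h1]; simp
  · congr 1
    have hn : (1 : ℝ) < n := by exact_mod_cast (by omega : 1 < n)
    have hl : 0 < Real.log n := Real.log_pos hn
    have hs : 0 < σ * Real.log n := mul_pos hσ hl
    rw [MeasureTheory.setIntegral_indicator measurableSet_Ici]
    have hset : Set.Ioi (0 : ℝ) ∩ Set.Ici (σ * Real.log n) = Set.Ici (σ * Real.log n) :=
      Set.inter_eq_right.2 fun v hv => lt_of_lt_of_le hs hv
    rw [hset, MeasureTheory.integral_Ici_eq_integral_Ioi, integral_exp_neg_Ioi,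
      Real.rpow_def_of_pos (by linarith only [hn])]
    congr 1
    ring

private theorem MtB_F_sum {a : ℕ → ℝ} (h0 : a 0 = 0) {σ : ℝ} (hσ : 0 < σ) (v : ℝ) :
    HasSum (fun n => MtB_F a σ n v) (MtB_A a (v / σ) * Real.exp (-v)) := by
  have hE : 0 < Real.exp (v / σ) := Real.exp_pos _
  have h1 : ∀ n ∉ range (⌊Real.exp (v / σ)⌋₊ + 1), MtB_F a σ n v = 0 := by
    intro n hn
    rw [Finset.mem_range, not_lt] at hn
    have h2 : Real.exp (v / σ) < n := (Nat.floor_lt hE.le).1 (by omega)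
    have h3 : v / σ < Real.log n := by
      rw [Real.lt_log_iff_exp_lt (hE.trans h2)]; exact h2
    have h4 : v < σ * Real.log n := by
      rw [div_lt_iff₀ hσ] at h3; linarith only [h3]
    unfold MtB_F
    rw [Set.indicator_of_notMem (by rw [Set.mem_Ici, not_le]; exact h4), mul_zero]
  have h2 : HasSum (fun n => MtB_F a σ n v)
      (∑ n ∈ range (⌊Real.exp (v / σ)⌋₊ + 1), MtB_F a σ n v) := hasSum_sum_of_ne_finset_zero h1
  convert h2 using 1
  unfold MtB_A
  rw [Finset.sum_mul]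
  refine Finset.sum_congr rfl fun n hn => ?_
  unfold MtB_F
  rcases Nat.eq_zero_or_pos n with h3 | h3
  · rw [h3, h0]; simp
  · have h4 : n ≤ ⌊Real.exp (v / σ)⌋₊ := by
      rw [Finset.mem_range] at hn; omega
    have h5 : (n : ℝ) ≤ Real.exp (v / σ) := (Nat.le_floor_iff hE.le).1 h4
    have h6 : Real.log n ≤ v / σ := by
      rw [Real.log_le_iff_le_exp (by exact_mod_cast h3)]; exact h5
    have h7 : σ * Real.log n ≤ v := by
      rw [le_div_iff₀ hσ] at h6; linarith only [h6]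
    rw [Set.indicator_of_mem (show v ∈ Set.Ici (σ * Real.log n) from h7)]

private theorem MtB_F_nonneg {a : ℕ → ℝ} (ha : ∀ n, 0 ≤ a n) (σ : ℝ) (n : ℕ) (v : ℝ) :
    0 ≤ MtB_F a σ n v :=
  mul_nonneg (ha n) (Set.indicator_nonneg (fun _ _ => (Real.exp_pos _).le) _)

private theorem MtB_hasSum {a : ℕ → ℝ} (ha : ∀ n, 0 ≤ a n) (h0 : a 0 = 0) (h1 : a 1 = 0) {K : ℝ}
    (hK : ∀ x, 0 < x → |MtB_A a x - Real.log (max x 1)| ≤ K) {σ : ℝ} (hσ : 0 < σ) :
    HasSum (fun n : ℕ => a n * (n : ℝ) ^ (-σ))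
      (∫ v in Set.Ioi (0 : ℝ), MtB_A a (v / σ) * Real.exp (-v)) := by
  have hint := MtB_intA hK hσ
  have hsum : Summable fun n : ℕ => a n * (n : ℝ) ^ (-σ) := by
    refine summable_of_sum_range_le (c := ∫ v in Set.Ioi (0 : ℝ), MtB_A a (v / σ) * Real.exp (-v))
      (fun n => mul_nonneg (ha n) (Real.rpow_nonneg (Nat.cast_nonneg _) _)) fun N => ?_
    have e1 : ∑ i ∈ range N, a i * (i : ℝ) ^ (-σ)
        = ∫ v in Set.Ioi (0 : ℝ), ∑ i ∈ range N, MtB_F a σ i v := by
      rw [MeasureTheory.integral_finsetSum _ fun i _ => MtB_F_int σ i]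
      exact Finset.sum_congr rfl fun i _ => (MtB_F_integral h0 h1 hσ i).symm
    rw [e1]
    refine MeasureTheory.setIntegral_mono_on
      (MeasureTheory.integrable_finsetSum _ fun i _ => MtB_F_int σ i) hint measurableSet_Ioi
      fun v hv => ?_
    exact sum_le_hasSum _ (fun i _ => MtB_F_nonneg ha σ i v) (MtB_F_sum h0 hσ v)
  have h2 := MeasureTheory.hasSum_integral_of_summable_integral_norm
    (μ := MeasureTheory.volume.restrict (Set.Ioi (0 : ℝ))) (F := MtB_F a σ)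
    (fun i => MtB_F_int σ i) (by
      refine hsum.congr fun n => ?_
      rw [← MtB_F_integral h0 h1 hσ n]
      refine MeasureTheory.integral_congr_ae (Filter.Eventually.of_forall fun v => ?_)
      exact (Real.norm_of_nonneg (MtB_F_nonneg ha σ n v)).symm)
  have h3 : ∫ v in Set.Ioi (0 : ℝ), ∑' n, MtB_F a σ n v
      = ∫ v in Set.Ioi (0 : ℝ), MtB_A a (v / σ) * Real.exp (-v) :=
    MeasureTheory.setIntegral_congr_fun measurableSet_Ioi fun v _ =>
      (MtB_F_sum h0 hσ v).tsum_eq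
  rw [h3] at h2
  refine h2.congr_fun ?_
  intro n
  exact (MtB_F_integral h0 h1 hσ n).symm

theorem abel_exp (a : ℕ → ℝ) (ha : ∀ n, 0 ≤ a n) (h0 : a 0 = 0) (h1 : a 1 = 0) (c : ℝ)
    (hS : Tendsto (fun n : ℕ => ∑ k ∈ range (n + 1), a k - Real.log (Real.log n)) atTop (nhds c)) :
    (∀ σ : ℝ, 0 < σ → Summable (fun n : ℕ => a n * (n : ℝ) ^ (-σ))) ∧
    Tendsto (fun σ : ℝ => ∑' n : ℕ, a n * (n : ℝ) ^ (-σ) + Real.log σ) (nhdsWithin 0 (Set.Ioi 0))
      (nhds (c - Real.eulerMascheroniConstant)) := by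
  obtain ⟨K, hK0, hK⟩ := MtB_bdd ha hS
  refine ⟨fun σ hσ => (MtB_hasSum ha h0 h1 hK hσ).summable, ?_⟩
  have hlim : ∫ v in Set.Ioi (0 : ℝ), (Real.log v + c) * Real.exp (-v)
      = c - Real.eulerMascheroniConstant := by
    have e1 : ∀ v : ℝ, (Real.log v + c) * Real.exp (-v)
        = Real.log v * Real.exp (-v) + c * Real.exp (-v) := fun v => by ring
    simp_rw [e1]
    rw [MeasureTheory.integral_add MtB_int_log (MtB_int_exp.const_mul c),
      MeasureTheory.integral_const_mul, int_log_exp, integral_exp_neg_Ioi_zero]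
    ring
  rw [← hlim]
  have hkey : Tendsto (fun σ : ℝ => ∫ v in Set.Ioi (0 : ℝ),
      (MtB_A a (v / σ) + Real.log σ) * Real.exp (-v)) (nhdsWithin 0 (Set.Ioi 0))
      (nhds (∫ v in Set.Ioi (0 : ℝ), (Real.log v + c) * Real.exp (-v))) := by
    refine MeasureTheory.tendsto_integral_filter_of_dominated_convergence
      (fun v : ℝ => K * Real.exp (-v) + |Real.log v| * Real.exp (-v)) ?_ ?_
      ((MtB_int_exp.const_mul K).add MtB_int_abs_log) ?_
    · refine Filter.Eventually.of_forall fun σ => ?_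
      exact ((((MtB_A_meas a).comp (measurable_id.div_const σ)).add_const _).mul
        (Real.measurable_exp.comp measurable_neg)).aestronglyMeasurable
    · have h2 : Set.Ioo (0 : ℝ) 1 ∈ nhdsWithin (0 : ℝ) (Set.Ioi 0) :=
        Ioo_mem_nhdsGT one_pos
      filter_upwards [h2] with σ hσ
      filter_upwards [MeasureTheory.ae_restrict_mem measurableSet_Ioi] with v hv
      have hv0 : (0 : ℝ) < v := hv
      rw [Real.norm_eq_abs, abs_mul, abs_of_pos (Real.exp_pos _), ← add_mul]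
      refine mul_le_mul_of_nonneg_right ?_ (Real.exp_pos _).le
      have h3 := hK (v / σ) (div_pos hv0 hσ.1)
      have h4 := MtB_abs_log_max hv0 hσ.1 hσ.2
      have h5 := abs_add_le (MtB_A a (v / σ) - Real.log (max (v / σ) 1))
        (Real.log (max (v / σ) 1) + Real.log σ)
      have h6 : MtB_A a (v / σ) - Real.log (max (v / σ) 1)
        + (Real.log (max (v / σ) 1) + Real.log σ) = MtB_A a (v / σ) + Real.log σ := by ring
      rw [h6] at h5
      linarith only [h3, h4, h5]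
    · filter_upwards [MeasureTheory.ae_restrict_mem measurableSet_Ioi] with v hv
      have hv0 : (0 : ℝ) < v := hv
      refine Tendsto.mul_const _ ?_
      have h2 : Tendsto (fun σ : ℝ => v / σ) (nhdsWithin 0 (Set.Ioi 0)) atTop := by
        have := (tendsto_inv_nhdsGT_zero (𝕜 := ℝ)).const_mul_atTop hv0
        simpa [div_eq_mul_inv] using this
      have h3 := ((MtB_lim hS).comp h2).const_add (Real.log v)
      refine h3.congr' ?_
      filter_upwards [self_mem_nhdsWithin] with σ hσ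
      have hσ0 : (0 : ℝ) < σ := hσ
      simp only [Function.comp]
      rw [Real.log_div hv0.ne' hσ0.ne']
      ring
  refine hkey.congr' ?_
  filter_upwards [self_mem_nhdsWithin] with σ hσ
  have hσ0 : (0 : ℝ) < σ := hσ
  rw [(MtB_hasSum ha h0 h1 hK hσ0).tsum_eq]
  have e1 : ∀ v : ℝ, (MtB_A a (v / σ) + Real.log σ) * Real.exp (-v)
      = MtB_A a (v / σ) * Real.exp (-v) + Real.log σ * Real.exp (-v) := fun v => by ring
  simp_rw [e1]
  rw [MeasureTheory.integral_add (MtB_intA hK hσ0) (MtB_int_exp.const_mul _),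
    MeasureTheory.integral_const_mul, integral_exp_neg_Ioi_zero, mul_one]

end Pool.Agent.H36.IS

end

section

/-!
# IS MtC: the Euler product near 1

For σ > 0: ∑_p -log(1 - p^{-1-σ}) = log ζ(1+σ) (real zeta; Euler product of Mathlib: `riemannZeta_eulerProduct_exp_log`,
`riemannZeta_eulerProduct_tprod`, or for real s > 1 through the complex statement), and log ζ(1+σ) + log σ → 0 as σ → 0+ (σ ζ(1+σ) → 1:
`riemannZeta_residue_one`, `tendsto_riemannZeta_sub_one_div`).
Then ∑_p (-log(1-1/p)) p^{-σ} - ∑_p -log(1 - p^{-1-σ}) = ∑_p ∑_{k≥2} (p^{-k-σ} - p^{-k(1+σ)})/k → 0 by dominated convergence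
(0 ≤ terms ≤ ∑_{k≥2} p^{-k} ≤ 2/p²; each term tends to 0; `tendsto_tsum_of_dominated_convergence`).
-/

set_option autoImplicit false

namespace Pool.Agent.H36.IS

open Finset Filter

private theorem MtC_log_bd {x : ℝ} (h0 : 0 ≤ x) (h1 : x ≤ 1 / 2) :
    |x + Real.log (1 - x)| ≤ 2 * x ^ 2 := by
  have h := Real.abs_log_sub_add_sum_range_le (x := x) (by rw [abs_of_nonneg h0]; linarith only [h1]) 1
  simp only [Finset.sum_range_one, Nat.cast_zero, zero_add, pow_one, div_one, abs_of_nonneg h0]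
    at h
  refine le_trans h ?_
  rw [div_le_iff₀ (by linarith only [h1])]
  have h2 : 0 ≤ x ^ 2 * (1 - 2 * x) := mul_nonneg (sq_nonneg x) (by linarith only [h1])
  have h3 : x ^ (1 + 1) = x ^ 2 := by norm_num
  rw [h3]
  linarith only [h2]

private theorem MtC_log_nonneg {x : ℝ} (h0 : 0 ≤ x) (h1 : x ≤ 1 / 2) :
    0 ≤ -Real.log (1 - x) := by
  have := Real.log_nonpos (x := 1 - x) (by linarith only [h1]) (by linarith only [h0])
  linarith only [this]

private theorem MtC_log_le {x : ℝ} (h0 : 0 ≤ x) (h1 : x ≤ 1 / 2) :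
    -Real.log (1 - x) ≤ 2 * x := by
  have := (abs_le.mp (MtC_log_bd h0 h1)).1
  nlinarith only [h0, h1, this]

private theorem MtC_inv_le (p : Nat.Primes) : 1 / ((p : ℕ) : ℝ) ≤ 1 / 2 := by
  have : (2 : ℝ) ≤ ((p : ℕ) : ℝ) := by exact_mod_cast p.2.two_le
  exact one_div_le_one_div_of_le (by norm_num) this

private theorem MtC_y (p : Nat.Primes) (σ : ℝ) :
    ((p : ℕ) : ℝ) ^ (-(1 + σ)) = 1 / ((p : ℕ) : ℝ) * ((p : ℕ) : ℝ) ^ (-σ) := by
  have hp : (0 : ℝ) < ((p : ℕ) : ℝ) := by exact_mod_cast p.2.pos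
  rw [neg_add, Real.rpow_add hp, Real.rpow_neg_one, one_div]

private theorem MtC_pow_le (p : Nat.Primes) {σ : ℝ} (hσ : 0 ≤ σ) :
    ((p : ℕ) : ℝ) ^ (-σ) ≤ 1 := by
  have h1 : (1 : ℝ) ≤ ((p : ℕ) : ℝ) := by exact_mod_cast p.2.one_le
  exact Real.rpow_le_one_of_one_le_of_nonpos h1 (by linarith only [hσ])

private theorem MtC_pow_pos (p : Nat.Primes) (σ : ℝ) : 0 < ((p : ℕ) : ℝ) ^ (-σ) := by
  have hp : (0 : ℝ) < ((p : ℕ) : ℝ) := by exact_mod_cast p.2.pos
  exact Real.rpow_pos_of_pos hp _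

private theorem MtC_y_bd (p : Nat.Primes) {σ : ℝ} (hσ : 0 ≤ σ) :
    0 ≤ ((p : ℕ) : ℝ) ^ (-(1 + σ)) ∧ ((p : ℕ) : ℝ) ^ (-(1 + σ)) ≤ 1 / ((p : ℕ) : ℝ) := by
  have hp : (0 : ℝ) < ((p : ℕ) : ℝ) := by exact_mod_cast p.2.pos
  rw [MtC_y]
  constructor
  · exact mul_nonneg (by positivity) (MtC_pow_pos p σ).le
  · calc 1 / ((p : ℕ) : ℝ) * ((p : ℕ) : ℝ) ^ (-σ) ≤ 1 / ((p : ℕ) : ℝ) * 1 :=
        mul_le_mul_of_nonneg_left (MtC_pow_le p hσ) (by positivity)
      _ = 1 / ((p : ℕ) : ℝ) := mul_one _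

/-- the logarithm of the Euler product -/
private noncomputable def MtC_L (σ : ℝ) : ℝ :=
  ∑' p : Nat.Primes, -Real.log (1 - ((p : ℕ) : ℝ) ^ (-(1 + σ)))

private theorem MtC_zeta {σ : ℝ} (hσ : 0 < σ) :
    riemannZeta ((1 + σ : ℝ) : ℂ) = ((Real.exp (MtC_L σ) : ℝ) : ℂ) := by
  have h := riemannZeta_eulerProduct_exp_log (s := ((1 + σ : ℝ) : ℂ))
    (by rw [Complex.ofReal_re]; linarith only [hσ])
  rw [← h, Complex.ofReal_exp]
  congr 1
  rw [MtC_L, Complex.ofReal_tsum]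
  refine tsum_congr (fun p => ?_)
  have hp : (0 : ℝ) ≤ ((p : ℕ) : ℝ) := Nat.cast_nonneg _
  have hy := MtC_y_bd p hσ.le
  have hx := MtC_inv_le p
  have e1 : (((p : ℕ) : ℂ)) ^ (-((1 + σ : ℝ) : ℂ)) = ((((p : ℕ) : ℝ) ^ (-(1 + σ)) : ℝ) : ℂ) := by
    rw [Complex.ofReal_cpow hp]
    push_cast
    rfl
  rw [e1, Complex.ofReal_neg, Complex.ofReal_log (by linarith only [hy, hx])]
  push_cast
  rfl

private theorem MtC_lim_L : Tendsto (fun σ : ℝ => MtC_L σ + Real.log σ)
    (nhdsWithin 0 (Set.Ioi 0)) (nhds 0) := by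
  have h1 : Tendsto (fun σ : ℝ => ((1 + σ : ℝ) : ℂ)) (nhdsWithin 0 (Set.Ioi 0))
      (nhdsWithin 1 {(1 : ℂ)}ᶜ) := by
    rw [tendsto_nhdsWithin_iff]
    constructor
    · have hc : Continuous (fun σ : ℝ => ((1 + σ : ℝ) : ℂ)) := by fun_prop
      have := (hc.tendsto 0).mono_left (nhdsWithin_le_nhds (s := Set.Ioi (0 : ℝ)))
      simpa using this
    · filter_upwards [self_mem_nhdsWithin] with σ hσ
      simp only [Set.mem_compl_iff, Set.mem_singleton_iff]
      intro h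
      have h2 : (1 + σ : ℝ) = 1 := by exact_mod_cast h
      have : (0 : ℝ) < σ := hσ
      linarith only [h2, this]
  have h2 := riemannZeta_residue_one.comp h1
  have h3 : Tendsto (fun σ : ℝ => σ * Real.exp (MtC_L σ)) (nhdsWithin 0 (Set.Ioi 0)) (nhds 1) := by
    have h4 := (Complex.continuous_re.tendsto 1).comp h2
    rw [Complex.one_re] at h4
    refine h4.congr' ?_
    filter_upwards [self_mem_nhdsWithin] with σ hσ
    have hσ' : (0 : ℝ) < σ := hσ
    simp only [Function.comp]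
    rw [MtC_zeta hσ']
    have : (((1 + σ : ℝ) : ℂ) - 1) * ((Real.exp (MtC_L σ) : ℝ) : ℂ) =
        ((σ * Real.exp (MtC_L σ) : ℝ) : ℂ) := by
      push_cast; ring
    rw [this, Complex.ofReal_re]
  have h5 := (Real.continuousAt_log (x := 1) one_ne_zero).tendsto.comp h3
  rw [Real.log_one] at h5
  refine h5.congr' ?_
  filter_upwards [self_mem_nhdsWithin] with σ hσ
  have hσ' : (0 : ℝ) < σ := hσ
  simp only [Function.comp]
  rw [Real.log_mul hσ'.ne' (Real.exp_pos _).ne', Real.log_exp]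
  ring

private theorem MtC_sumL {σ : ℝ} (hσ : 0 < σ) :
    Summable (fun p : Nat.Primes => -Real.log (1 - ((p : ℕ) : ℝ) ^ (-(1 + σ)))) := by
  have hs : Summable (fun p : Nat.Primes => 2 * ((p : ℕ) : ℝ) ^ (-(1 + σ))) :=
    (Nat.Primes.summable_rpow.mpr (by linarith only [hσ])).mul_left 2
  refine Summable.of_nonneg_of_le (fun p => ?_) (fun p => ?_) hs
  · have hy := MtC_y_bd p hσ.le
    exact MtC_log_nonneg hy.1 (le_trans hy.2 (MtC_inv_le p))
  · have hy := MtC_y_bd p hσ.le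
    exact MtC_log_le hy.1 (le_trans hy.2 (MtC_inv_le p))

private theorem MtC_sumF {σ : ℝ} (hσ : 0 < σ) :
    Summable (fun p : Nat.Primes => -Real.log (1 - 1 / ((p : ℕ) : ℝ)) * ((p : ℕ) : ℝ) ^ (-σ)) := by
  have hs : Summable (fun p : Nat.Primes => 2 * ((p : ℕ) : ℝ) ^ (-(1 + σ))) :=
    (Nat.Primes.summable_rpow.mpr (by linarith only [hσ])).mul_left 2
  refine Summable.of_nonneg_of_le (fun p => ?_) (fun p => ?_) hs
  · exact mul_nonneg (MtC_log_nonneg (by positivity) (MtC_inv_le p)) (MtC_pow_pos p σ).le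
  · rw [MtC_y, ← mul_assoc]
    exact mul_le_mul_of_nonneg_right (MtC_log_le (by positivity) (MtC_inv_le p))
      (MtC_pow_pos p σ).le

private theorem MtC_diff : Tendsto (fun σ : ℝ => ∑' p : Nat.Primes,
    (-Real.log (1 - 1 / ((p : ℕ) : ℝ)) * ((p : ℕ) : ℝ) ^ (-σ) -
      -Real.log (1 - ((p : ℕ) : ℝ) ^ (-(1 + σ))))) (nhdsWithin 0 (Set.Ioi 0)) (nhds 0) := by
  have hs : Summable (fun p : Nat.Primes => 4 * ((p : ℕ) : ℝ) ^ (-2 : ℝ)) :=
    (Nat.Primes.summable_rpow.mpr (by norm_num)).mul_left 4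
  have h := tendsto_tsum_of_dominated_convergence (𝓕 := nhdsWithin (0 : ℝ) (Set.Ioi 0))
    (f := fun (σ : ℝ) (p : Nat.Primes) =>
      (-Real.log (1 - 1 / ((p : ℕ) : ℝ)) * ((p : ℕ) : ℝ) ^ (-σ) -
      -Real.log (1 - ((p : ℕ) : ℝ) ^ (-(1 + σ))))) (g := fun _ => (0 : ℝ)) hs ?_ ?_
  · simpa using h
  · intro p
    have hp : (0 : ℝ) < ((p : ℕ) : ℝ) := by exact_mod_cast p.2.pos
    have hx := MtC_inv_le p
    have hc : ContinuousAt (fun σ : ℝ => (-Real.log (1 - 1 / ((p : ℕ) : ℝ)) *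
        ((p : ℕ) : ℝ) ^ (-σ) - -Real.log (1 - ((p : ℕ) : ℝ) ^ (-(1 + σ))))) 0 := by
      have c1 : ContinuousAt (fun σ : ℝ => ((p : ℕ) : ℝ) ^ (-σ)) 0 :=
        ((Real.continuous_const_rpow hp.ne').comp continuous_neg).continuousAt
      have c2 : ContinuousAt (fun σ : ℝ => ((p : ℕ) : ℝ) ^ (-(1 + σ))) 0 :=
        ((Real.continuous_const_rpow hp.ne').comp (by fun_prop)).continuousAt
      have c3 : ContinuousAt (fun σ : ℝ => Real.log (1 - ((p : ℕ) : ℝ) ^ (-(1 + σ)))) 0 := by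
        refine ContinuousAt.log (continuousAt_const.sub c2) ?_
        have hy : ((p : ℕ) : ℝ) ^ (-(1 + (0 : ℝ))) ≤ 1 / 2 :=
          le_trans (MtC_y_bd p (σ := 0) le_rfl).2 hx
        have : (0 : ℝ) < 1 - ((p : ℕ) : ℝ) ^ (-(1 + (0 : ℝ))) :=
          sub_pos.mpr (lt_of_le_of_lt hy (by norm_num))
        exact this.ne'
      exact (continuousAt_const.mul c1).sub c3.neg
    have h2 := hc.tendsto.mono_left (nhdsWithin_le_nhds (s := Set.Ioi (0 : ℝ)))
    have e : (-Real.log (1 - 1 / ((p : ℕ) : ℝ)) * ((p : ℕ) : ℝ) ^ (-(0 : ℝ)) -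
        -Real.log (1 - ((p : ℕ) : ℝ) ^ (-(1 + (0 : ℝ))))) = 0 := by
      rw [MtC_y, neg_zero, Real.rpow_zero, mul_one, mul_one, sub_self]
    rw [e] at h2
    exact h2
  · filter_upwards [self_mem_nhdsWithin] with σ hσ p
    have hσ' : (0 : ℝ) < σ := hσ
    have hp : (0 : ℝ) < ((p : ℕ) : ℝ) := by exact_mod_cast p.2.pos
    have hx := MtC_inv_le p
    have hy := MtC_y_bd p hσ'.le
    have hw := MtC_pow_pos p σ
    have hw1 := MtC_pow_le p hσ'.le
    have b1 := MtC_log_bd (x := 1 / ((p : ℕ) : ℝ)) (by positivity) hx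
    have b2 := MtC_log_bd hy.1 (le_trans hy.2 hx)
    have e : (-Real.log (1 - 1 / ((p : ℕ) : ℝ)) * ((p : ℕ) : ℝ) ^ (-σ) -
        -Real.log (1 - ((p : ℕ) : ℝ) ^ (-(1 + σ)))) =
        (((p : ℕ) : ℝ) ^ (-(1 + σ)) + Real.log (1 - ((p : ℕ) : ℝ) ^ (-(1 + σ)))) -
        (1 / ((p : ℕ) : ℝ) + Real.log (1 - 1 / ((p : ℕ) : ℝ))) * ((p : ℕ) : ℝ) ^ (-σ) := by
      rw [MtC_y]; ring
    rw [Real.norm_eq_abs, e]
    have b3 : |(1 / ((p : ℕ) : ℝ) + Real.log (1 - 1 / ((p : ℕ) : ℝ))) * ((p : ℕ) : ℝ) ^ (-σ)| ≤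
        2 * (1 / ((p : ℕ) : ℝ)) ^ 2 := by
      rw [abs_mul, abs_of_pos hw]
      calc _ ≤ |1 / ((p : ℕ) : ℝ) + Real.log (1 - 1 / ((p : ℕ) : ℝ))| * 1 :=
            mul_le_mul_of_nonneg_left hw1 (abs_nonneg _)
        _ ≤ _ := by rw [mul_one]; exact b1
    have b4 : 2 * (((p : ℕ) : ℝ) ^ (-(1 + σ))) ^ 2 ≤ 2 * (1 / ((p : ℕ) : ℝ)) ^ 2 := by
      have := pow_le_pow_left₀ hy.1 hy.2 2
      linarith only [this]
    have e2 : ((p : ℕ) : ℝ) ^ (-2 : ℝ) = (1 / ((p : ℕ) : ℝ)) ^ 2 := by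
      rw [Real.rpow_neg hp.le, one_div, inv_pow]
      norm_num
    rw [e2]
    calc _ ≤ |((p : ℕ) : ℝ) ^ (-(1 + σ)) + Real.log (1 - ((p : ℕ) : ℝ) ^ (-(1 + σ)))| +
        |(1 / ((p : ℕ) : ℝ) + Real.log (1 - 1 / ((p : ℕ) : ℝ))) * ((p : ℕ) : ℝ) ^ (-σ)| :=
          abs_sub _ _
      _ ≤ 4 * (1 / ((p : ℕ) : ℝ)) ^ 2 := by linarith only [b2, b3, b4]

theorem euler_near_one : Tendsto (fun σ : ℝ =>
    ∑' n : ℕ, (if n.Prime then -Real.log (1 - 1 / (n : ℝ)) else 0) * (n : ℝ) ^ (-σ) + Real.log σ)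
      (nhdsWithin 0 (Set.Ioi 0)) (nhds 0) := by
  have h := MtC_diff.add MtC_lim_L
  rw [add_zero] at h
  refine h.congr' ?_
  filter_upwards [self_mem_nhdsWithin] with σ hσ
  have hσ' : (0 : ℝ) < σ := hσ
  have e1 : ∑' n : ℕ, (if n.Prime then -Real.log (1 - 1 / (n : ℝ)) else 0) * (n : ℝ) ^ (-σ) =
      ∑' p : Nat.Primes, -Real.log (1 - 1 / ((p : ℕ) : ℝ)) * ((p : ℕ) : ℝ) ^ (-σ) := by
    have := tsum_subtype {n : ℕ | n.Prime}
      (fun n : ℕ => -Real.log (1 - 1 / (n : ℝ)) * (n : ℝ) ^ (-σ))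
    refine Eq.trans ?_ this.symm
    refine tsum_congr (fun n => ?_)
    by_cases hn : n.Prime
    · rw [if_pos hn, Set.indicator_of_mem (by exact hn)]
    · rw [if_neg hn, Set.indicator_of_notMem (by exact hn), zero_mul]
  rw [e1, (MtC_sumF hσ').tsum_sub (MtC_sumL hσ'), MtC_L]
  ring

end Pool.Agent.H36.IS

end

section

/-!
PK MB: the Mertens product.

`mertens_lower`: naturals 65536 ≤ w ≤ z: ∑_{w<p≤z} 1/p ≥ log(log z/log w) - 0.25/log w.
 (`Gold.Mt_osc` with the roles of n, m exchanged gives Mt z - Mt w ≥ log z - log w - 0.2295 (Mt n = ∑_{d≤n} Λ(d)/d);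
  Abel summation against 1/log as in `Gold.mertens_gen`.  The prime powers with exponent at least two are handled by the
  bound ψ(m) - θ(m) ≤ 2 ψ(√m) ≤ 2 log 3 √m and another Abel summation: their total is ≤ 4 log 3/(√w log w).)
`prod_65536`: ∏_{p ≤ 65536} (1 - 1/p) ≤ 0.05065   (kernel computation).
`prod_z`: for natural al ≥ 16: ∏_{p ≤ 2^al} (1 - 1/p) ≤ 0.575/(al log 2).
-/

set_option autoImplicit false

namespace Pool.Agent.H91.PK

open Finset Gold
open scoped ArithmeticFunction.vonMangoldt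

/-! ### The prime powers -/

theorem MB_psi_sub_theta (m : ℕ) :
    Chebyshev.psi m - Chebyshev.theta m ≤ 2 * Real.log 3 * Real.sqrt m := by
  have h0 : Chebyshev.psi m - Chebyshev.theta m
      = ∑ p ∈ Nat.primesLE m.sqrt, ((Nat.log p m : ℝ) * Real.log p - Real.log p) := by
    rw [Chebyshev.psi_eq_sum_mul_log_prime, Chebyshev.theta_eq_sum_primesLE_log, ← sum_sub_distrib]
    have hsub : Nat.primesLE m.sqrt ⊆ Nat.primesLE m := by
      intro p hp
      rw [Nat.mem_primesLE] at hp ⊢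
      exact ⟨hp.1.trans (Nat.sqrt_le_self m), hp.2⟩
    symm
    apply sum_subset hsub
    intro p hp hnp
    rw [Nat.mem_primesLE] at hp hnp
    have hlt : m.sqrt < p := by
      by_contra h
      push Not at h
      exact hnp ⟨h, hp.2⟩
    have h1 : m < p * p := Nat.sqrt_lt.1 hlt
    have h2 : Nat.log p m = 1 := by
      rw [Nat.log_eq_iff]
      · refine ⟨by simp; exact hp.1, by rw [sq]; exact h1⟩
      · left; norm_num
    rw [h2]; simp
  rw [h0]
  have h1 : ∀ p ∈ Nat.primesLE m.sqrt, ((Nat.log p m : ℝ) * Real.log p - Real.log p)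
      ≤ 2 * ((Nat.log p m.sqrt : ℝ) * Real.log p) := by
    intro p hp
    rw [Nat.mem_primesLE] at hp
    have hp1 := hp.2.one_lt
    have h2 : m < p ^ (2 * Nat.log p m.sqrt + 2) := by
      have h3 := Nat.lt_pow_succ_log_self hp1 m.sqrt
      have h4 := Nat.sqrt_lt.1 h3
      calc m < _ := h4
        _ = p ^ (2 * Nat.log p m.sqrt + 2) := by rw [← pow_add]; congr 1; omega
    have h5 : Nat.log p m ≤ 2 * Nat.log p m.sqrt + 1 := by
      have := Nat.log_lt_of_lt_pow' (by omega) h2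
      omega
    have h6 : (Nat.log p m : ℝ) ≤ 2 * (Nat.log p m.sqrt : ℝ) + 1 := by exact_mod_cast h5
    have h7 : 0 ≤ Real.log p := Real.log_natCast_nonneg p
    nlinarith only [h6, h7]
  refine (sum_le_sum h1).trans ?_
  rw [← mul_sum]
  have h2 := Chebyshev.psi_eq_sum_mul_log_prime (m.sqrt)
  have h3 := psi_le_log_three m.sqrt
  have h4 : (m.sqrt : ℝ) ≤ Real.sqrt m := Real.nat_sqrt_le_real_sqrt
  have h5 : 0 ≤ Real.log 3 := Real.log_nonneg (by norm_num)
  rw [h2] at h3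
  nlinarith only [h3, h4, h5]

theorem MB_nonprime (w m : ℕ) :
    ∑ k ∈ Ioc w m, (if k.Prime then 0 else Λ k) ≤ 2 * Real.log 3 * Real.sqrt m := by
  have h1 : ∑ k ∈ Ioc w m, (if k.Prime then 0 else Λ k) ≤ ∑ k ∈ Ioc 0 m, (if k.Prime then 0 else Λ k) := by
    apply sum_le_sum_of_subset_of_nonneg
    · intro k hk
      rw [mem_Ioc] at hk ⊢
      exact ⟨by omega, hk.2⟩
    · intro k _ _
      split_ifs
      · exact le_rfl
      · exact ArithmeticFunction.vonMangoldt_nonneg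
  refine h1.trans (le_trans (le_of_eq ?_) (MB_psi_sub_theta m))
  rw [Chebyshev.psi, Chebyshev.theta, sum_filter]
  simp only [Nat.floor_natCast]
  rw [← sum_sub_distrib]
  apply sum_congr rfl
  intro k _
  split_ifs with h
  · rw [ArithmeticFunction.vonMangoldt_apply_prime h]; ring
  · ring

theorem MB_log_pos {w : ℕ} (hw : 2 ≤ w) {k : ℕ} (hk : w ≤ k) : 0 < Real.log k := by
  apply Real.log_pos
  exact_mod_cast (by omega : 1 < k)

theorem MB_powers {w z : ℕ} (hw : 2 ≤ w) (hwz : w ≤ z) :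
    ∑ k ∈ Ioc w z, (if k.Prime then 0 else Λ k) * (1 / (k * Real.log k))
      ≤ 4 * Real.log 3 / (Real.sqrt w * Real.log w) := by
  have hw0 : (0 : ℝ) < w := by exact_mod_cast (by omega : 0 < w)
  have hsw : 0 < Real.sqrt w := Real.sqrt_pos.2 hw0
  have hlw := MB_log_pos hw le_rfl
  have l3 : 0 ≤ Real.log 3 := Real.log_nonneg (by norm_num)
  set C : ℝ := 2 * Real.log 3 with hC
  have hC0 : 0 ≤ C := by positivity
  have h1 : ∑ k ∈ Ioc w z, (if k.Prime then 0 else Λ k) * (1 / (k * Real.log k))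
      ≤ ∑ k ∈ Ioc w z, (C * (Real.sqrt k - Real.sqrt (k - 1 : ℕ))) * (1 / (k * Real.log k))
        + (C * Real.sqrt w) * (1 / (((w + 1 : ℕ) : ℝ) * Real.log ((w + 1 : ℕ) : ℝ))) := by
    apply abel_le (f := fun k : ℕ => 1 / ((k : ℝ) * Real.log k)) hwz (by positivity)
    · intro k hk1 _
      have := MB_log_pos hw hk1.le
      positivity
    · have := MB_log_pos hw (Nat.le_succ w)
      positivity
    · intro k hk1 _
      have h2 := MB_log_pos hw hk1.le
      have h3 : (0 : ℝ) < k := by exact_mod_cast (by omega : 0 < k)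
      apply one_div_le_one_div_of_le (by positivity)
      apply mul_le_mul
      · push_cast; linarith only
      · apply Real.log_le_log h3
        push_cast; linarith only
      · exact h2.le
      · positivity
    · intro m hm1 _
      have e1 : ∑ k ∈ Ioc w m, (C * (Real.sqrt k - Real.sqrt (k - 1 : ℕ)))
          = C * (Real.sqrt m - Real.sqrt w) := by
        rw [← mul_sum]
        congr 1
        induction m, hm1 using Nat.le_induction with
        | base => simp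
        | succ m hm ih =>
          rw [sum_Ioc_succ_top (by omega), ih (by omega)]
          simp
      rw [e1]
      have := MB_nonprime w m
      linarith only [this]
  have h2 : ∀ m, w ≤ m → ∑ k ∈ Ioc w m, (C * (Real.sqrt k - Real.sqrt (k - 1 : ℕ))) * (1 / (k * Real.log k))
      ≤ C / Real.log w * (1 / Real.sqrt w - 1 / Real.sqrt m) := by
    intro m hm
    induction m, hm using Nat.le_induction with
    | base => simp
    | succ m hm ih =>
      rw [sum_Ioc_succ_top (by omega)]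
      have hm0 : (0 : ℝ) < m := by exact_mod_cast (by omega : 0 < m)
      have hs0 : 0 < Real.sqrt m := Real.sqrt_pos.2 hm0
      have hs1 : Real.sqrt m ≤ Real.sqrt ((m + 1 : ℕ) : ℝ) := by
        apply Real.sqrt_le_sqrt; push_cast; linarith only
      have hs2 : 0 < Real.sqrt ((m + 1 : ℕ) : ℝ) := by linarith only [hs0, hs1]
      have hl := MB_log_pos hw (show w ≤ m + 1 by omega)
      have hl2 : Real.log w ≤ Real.log ((m + 1 : ℕ) : ℝ) := by
        apply Real.log_le_log hw0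
        exact_mod_cast (by omega : w ≤ m + 1)
      have hss : ((m + 1 : ℕ) : ℝ) = Real.sqrt ((m + 1 : ℕ) : ℝ) * Real.sqrt ((m + 1 : ℕ) : ℝ) :=
        (Real.mul_self_sqrt (by positivity)).symm
      have key : (C * (Real.sqrt ((m + 1 : ℕ) : ℝ) - Real.sqrt (m + 1 - 1 : ℕ)))
            * (1 / (((m + 1 : ℕ) : ℝ) * Real.log ((m + 1 : ℕ) : ℝ)))
          ≤ C / Real.log w * (1 / Real.sqrt m - 1 / Real.sqrt ((m + 1 : ℕ) : ℝ)) := by
        rw [Nat.add_sub_cancel]
        have a1 : 1 / (((m + 1 : ℕ) : ℝ) * Real.log ((m + 1 : ℕ) : ℝ))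
            ≤ 1 / (Real.sqrt m * Real.sqrt ((m + 1 : ℕ) : ℝ) * Real.log w) := by
          apply one_div_le_one_div_of_le (by positivity)
          apply mul_le_mul _ hl2 hlw.le (by positivity)
          exact (mul_le_mul_of_nonneg_right hs1 hs2.le).trans hss.ge
        have a2 : 0 ≤ C * (Real.sqrt ((m + 1 : ℕ) : ℝ) - Real.sqrt m) :=
          mul_nonneg hC0 (by linarith only [hs1])
        refine (mul_le_mul_of_nonneg_left a1 a2).trans (le_of_eq ?_)
        field_simp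
      have e : C / Real.log w * (1 / Real.sqrt w - 1 / Real.sqrt ((m + 1 : ℕ) : ℝ))
          = C / Real.log w * (1 / Real.sqrt w - 1 / Real.sqrt m)
            + C / Real.log w * (1 / Real.sqrt m - 1 / Real.sqrt ((m + 1 : ℕ) : ℝ)) := by ring
      rw [e]
      linarith only [ih, key]
  have h3 := h2 z hwz
  have h4 : C / Real.log w * (1 / Real.sqrt w - 1 / Real.sqrt z) ≤ C / (Real.sqrt w * Real.log w) := by
    have hz0 : (0 : ℝ) < z := by exact_mod_cast (by omega : 0 < z)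
    have : 0 ≤ 1 / Real.sqrt z := by positivity
    calc C / Real.log w * (1 / Real.sqrt w - 1 / Real.sqrt z) ≤ C / Real.log w * (1 / Real.sqrt w) :=
          mul_le_mul_of_nonneg_left (by linarith only [this]) (by positivity)
      _ = C / (Real.sqrt w * Real.log w) := by field_simp
  have h5 : (C * Real.sqrt w) * (1 / (((w + 1 : ℕ) : ℝ) * Real.log ((w + 1 : ℕ) : ℝ)))
      ≤ C / (Real.sqrt w * Real.log w) := by
    have a1 : 1 / (((w + 1 : ℕ) : ℝ) * Real.log ((w + 1 : ℕ) : ℝ)) ≤ 1 / (w * Real.log w) := by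
      apply one_div_le_one_div_of_le (by positivity)
      apply mul_le_mul
      · push_cast; linarith only
      · apply Real.log_le_log hw0
        push_cast; linarith only
      · exact hlw.le
      · positivity
    refine (mul_le_mul_of_nonneg_left a1 (by positivity)).trans (le_of_eq ?_)
    have hss : (w : ℝ) = Real.sqrt w * Real.sqrt w := (Real.mul_self_sqrt (by positivity)).symm
    rw [mul_one_div, div_eq_div_iff (by positivity) (by positivity)]
    calc C * Real.sqrt w * (Real.sqrt w * Real.log w) = C * (Real.sqrt w * Real.sqrt w * Real.log w) := by ring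
      _ = C * (w * Real.log w) := by rw [← hss]
  have e : 4 * Real.log 3 / (Real.sqrt w * Real.log w) = C / (Real.sqrt w * Real.log w) + C / (Real.sqrt w * Real.log w) := by
    rw [hC]; ring
  rw [e]
  linarith only [h1, h3, h4, h5]

/-! ### The lower bound -/

theorem MB_loglog {w z : ℕ} (hw : 2 ≤ w) (hwz : w ≤ z) :
    Real.log (Real.log z) - Real.log (Real.log w) - 1 / (w * Real.log w)
      ≤ ∑ k ∈ Ioc w z, (Real.log k - Real.log (k - 1 : ℕ)) * (1 / Real.log k) := by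
  have hw0 : (0 : ℝ) < w := by exact_mod_cast (by omega : 0 < w)
  have h1 : ∀ m, w ≤ m → Real.log (Real.log m) - Real.log (Real.log w)
        - 1 / w * (1 / Real.log w - 1 / Real.log m)
      ≤ ∑ k ∈ Ioc w m, (Real.log k - Real.log (k - 1 : ℕ)) * (1 / Real.log k) := by
    intro m hm
    induction m, hm using Nat.le_induction with
    | base => simp
    | succ m hm ih =>
      rw [sum_Ioc_succ_top (by omega), Nat.add_sub_cancel]
      have hm0 : (0 : ℝ) < m := by exact_mod_cast (by omega : 0 < m)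
      have a1 := MB_log_pos hw hm
      have a2 := MB_log_pos hw (show w ≤ m + 1 by omega)
      have a3 : Real.log m ≤ Real.log ((m + 1 : ℕ) : ℝ) := by
        apply Real.log_le_log hm0; push_cast; linarith only
      have b1 := Real.log_le_sub_one_of_pos (x := Real.log ((m + 1 : ℕ) : ℝ) / Real.log m) (by positivity)
      rw [Real.log_div a2.ne' a1.ne'] at b1
      have b2 : Real.log ((m + 1 : ℕ) : ℝ) / Real.log m - 1
          = (Real.log ((m + 1 : ℕ) : ℝ) - Real.log m) * (1 / Real.log ((m + 1 : ℕ) : ℝ))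
            + (Real.log ((m + 1 : ℕ) : ℝ) - Real.log m) * (1 / Real.log m - 1 / Real.log ((m + 1 : ℕ) : ℝ)) := by
        field_simp
        ring
      have b3 : Real.log ((m + 1 : ℕ) : ℝ) - Real.log m ≤ 1 / w := by
        have h := Real.log_le_sub_one_of_pos (x := ((m + 1 : ℕ) : ℝ) / m) (by positivity)
        rw [Real.log_div (by positivity) hm0.ne'] at h
        have e : ((m + 1 : ℕ) : ℝ) / m - 1 = 1 / m := by push_cast; field_simp; ring
        have h2 : 1 / (m : ℝ) ≤ 1 / w := one_div_le_one_div_of_le hw0 (by exact_mod_cast hm)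
        linarith only [h, e, h2]
      have b4 : 0 ≤ 1 / Real.log m - 1 / Real.log ((m + 1 : ℕ) : ℝ) := by
        have := one_div_le_one_div_of_le a1 a3
        linarith only [this]
      have b5 := mul_le_mul_of_nonneg_right b3 b4
      have e2 : 1 / (w : ℝ) * (1 / Real.log w - 1 / Real.log ((m + 1 : ℕ) : ℝ))
          = 1 / (w : ℝ) * (1 / Real.log w - 1 / Real.log m)
            + 1 / (w : ℝ) * (1 / Real.log m - 1 / Real.log ((m + 1 : ℕ) : ℝ)) := by ring
      rw [e2]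
      linarith only [ih, b1, b2, b5]
  have h2 := h1 z hwz
  have h3 := MB_log_pos hw hwz
  have h4 := MB_log_pos hw le_rfl
  have h5 : 1 / (w : ℝ) * (1 / Real.log w - 1 / Real.log z) ≤ 1 / (w * Real.log w) := by
    have : 0 ≤ 1 / Real.log z := by positivity
    calc 1 / (w : ℝ) * (1 / Real.log w - 1 / Real.log z) ≤ 1 / (w : ℝ) * (1 / Real.log w) :=
          mul_le_mul_of_nonneg_left (by linarith only [this]) (by positivity)
      _ = 1 / (w * Real.log w) := by field_simp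
  linarith only [h2, h5]

theorem mertens_lower {w z : ℕ} (hw : 65536 ≤ w) (hwz : w ≤ z) :
    Real.log (Real.log z / Real.log w) - 0.25 / Real.log w ≤ ∑ p ∈ Pr w z, (1 : ℝ) / p := by
  have hw2 : 2 ≤ w := by omega
  have hw0 : (65536 : ℝ) ≤ w := by exact_mod_cast hw
  have hwp : (0 : ℝ) < w := by linarith only [hw0]
  have hlw := MB_log_pos hw2 le_rfl
  have hlz := MB_log_pos hw2 hwz
  -- Abel summation
  have h1 : ∑ k ∈ Ioc w z, (Real.log k - Real.log (k - 1 : ℕ)) * (1 / Real.log k)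
      ≤ ∑ k ∈ Ioc w z, (Λ k / k) * (1 / Real.log k) + 0.2295 * (1 / Real.log ((w + 1 : ℕ) : ℝ)) := by
    apply abel_le (f := fun k : ℕ => 1 / Real.log k) hwz (by norm_num)
    · intro k hk1 _
      have := MB_log_pos hw2 hk1.le
      positivity
    · have := MB_log_pos hw2 (Nat.le_succ w)
      positivity
    · intro k hk1 _
      have h2 := MB_log_pos hw2 hk1.le
      apply one_div_le_one_div_of_le h2
      apply Real.log_le_log
      · exact_mod_cast (by omega : 0 < k)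
      · push_cast; linarith only
    · intro m hm1 _
      have e1 : ∑ k ∈ Ioc w m, (Real.log k - Real.log (k - 1 : ℕ)) = Real.log m - Real.log w := by
        induction m, hm1 using Nat.le_induction with
        | base => simp
        | succ m hm ih =>
          rw [sum_Ioc_succ_top (by omega), ih (by omega)]
          simp
      have e3 : Mt m - Mt w = ∑ k ∈ Ioc w m, Λ k / k := by
        unfold Mt
        rw [← sum_Ioc_consecutive _ (Nat.zero_le w) hm1]
        ring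
      have h2 := Mt_osc (n := m) (m := w) (by omega) hw
      rw [e1, ← e3]
      linarith only [h2]
  -- splitting off the primes
  have h2 : ∑ k ∈ Ioc w z, (Λ k / k) * (1 / Real.log k)
      = ∑ p ∈ Pr w z, (1 : ℝ) / p + ∑ k ∈ Ioc w z, (if k.Prime then 0 else Λ k) * (1 / (k * Real.log k)) := by
    unfold Pr
    rw [sum_filter, ← sum_add_distrib]
    apply sum_congr rfl
    intro k hk
    rw [mem_Ioc] at hk
    have hk0 : (0 : ℝ) < k := by exact_mod_cast (by omega : 0 < k)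
    have hl := MB_log_pos hw2 hk.1.le
    split_ifs with hp
    · rw [ArithmeticFunction.vonMangoldt_apply_prime hp]
      field_simp
      ring
    · field_simp
      ring
  have h3 := MB_powers hw2 hwz
  have h4 := MB_loglog hw2 hwz
  have h5 : 0.2295 * (1 / Real.log ((w + 1 : ℕ) : ℝ)) ≤ 0.2295 / Real.log w := by
    rw [mul_one_div]
    apply div_le_div_of_nonneg_left (by norm_num) hlw
    apply Real.log_le_log hwp
    push_cast; linarith only
  have l3 : Real.log 3 ≤ 1.098617 := by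
    have := log_three_bounds.2
    have l2 := Real.log_two_lt_d9
    linarith only [this, l2]
  have hs : (256 : ℝ) ≤ Real.sqrt w := by
    rw [show (256 : ℝ) = Real.sqrt 65536 by
      rw [show (65536 : ℝ) = 256 ^ 2 by norm_num, Real.sqrt_sq (by norm_num)]]
    exact Real.sqrt_le_sqrt hw0
  have h6 : 4 * Real.log 3 / (Real.sqrt w * Real.log w) ≤ 0.0172 / Real.log w := by
    rw [div_le_div_iff₀ (by positivity) hlw]
    have : 4 * Real.log 3 ≤ 0.0172 * Real.sqrt w := by linarith only [l3, hs]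
    nlinarith only [hlw, l3, hs]
  have h7 : 1 / (w * Real.log w) ≤ 0.0001 / Real.log w := by
    rw [div_le_div_iff₀ (by positivity) hlw]
    have : 1 ≤ 0.0001 * (w : ℝ) := by linarith only [hw0]
    nlinarith only [hlw, hw0]
  have h8 : 0.25 / Real.log w = 0.2295 / Real.log w + 0.0172 / Real.log w + 0.0001 / Real.log w
      + 0.0032 / Real.log w := by ring
  have h9 : 0 ≤ 0.0032 / Real.log w := by positivity
  rw [Real.log_div hlz.ne' hlw.ne']
  rw [h2] at h1
  linarith only [h1, h3, h4, h5, h6, h7, h8, h9]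

/-! ### The product up to 65536 -/

end Pool.Agent.H91.PK

end

section

/-!
# IS MtA: Mertens' theorem with a limit

`fS n = ∑_{p ≤ n} -log(1 - 1/p)`.
`mertA`: fS n - loglog n converges.  Proof: for 65536 ≤ w ≤ z, `Pool.Agent.H91.Gold.mertens_wz` and
`Pool.Agent.H91.PK.mertens_lower` give |∑_{w<p≤z} 1/p - log(log z/log w)| ≤ 0.25/log w, and
∑_{p>w} (-log(1-1/p) - 1/p) ≤ ∑_{p > w} 1/p² ≤ 2/w;  so the sequence fS n - loglog n is Cauchy.
`mertA_bd`: |fS n - loglog n| ≤ C for n ≥ 2 (a convergent sequence; finitely many small n).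
-/

set_option autoImplicit false

namespace Pool.Agent.H36.IS

open Finset Filter

noncomputable def fS (n : ℕ) : ℝ := ∑ p ∈ (range (n + 1)).filter Nat.Prime, -Real.log (1 - 1 / (p : ℝ))

private theorem MtA_split {w z : ℕ} (hwz : w ≤ z) :
    fS z = fS w + ∑ p ∈ H91.Gold.Pr w z, -Real.log (1 - 1 / (p : ℝ)) := by
  unfold fS
  have h1 : (range (z + 1)).filter Nat.Prime =
      (range (w + 1)).filter Nat.Prime ∪ H91.Gold.Pr w z := by
    ext p
    rw [mem_union, mem_filter, mem_filter, H91.Gold.mem_Pr, mem_range, mem_range]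
    constructor
    · rintro ⟨h, hp⟩
      by_cases hpw : p ≤ w
      · exact Or.inl ⟨by omega, hp⟩
      · exact Or.inr ⟨⟨by omega, by omega⟩, hp⟩
    · rintro (⟨h, hp⟩ | ⟨⟨_, h⟩, hp⟩)
      · exact ⟨by omega, hp⟩
      · exact ⟨by omega, hp⟩
  rw [h1, sum_union]
  rw [Finset.disjoint_left]
  intro p hp1 hp2
  rw [mem_filter, mem_range] at hp1
  rw [H91.Gold.mem_Pr] at hp2
  omega

private theorem MtA_sq {w z : ℕ} (hw : 1 ≤ w) (hwz : w ≤ z) :
    ∑ p ∈ Ioc w z, 1 / (p : ℝ) ^ 2 ≤ 1 / (w : ℝ) - 1 / (z : ℝ) := by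
  induction z, hwz using Nat.le_induction with
  | base => simp
  | succ z hz ih =>
    rw [← Finset.insert_Ioc_right_eq_Ioc_add_one hz, sum_insert (by simp)]
    have hz0 : (0 : ℝ) < z := by exact_mod_cast (by omega : 0 < z)
    have h : 1 / ((z + 1 : ℕ) : ℝ) ^ 2 ≤ 1 / (z : ℝ) - 1 / ((z + 1 : ℕ) : ℝ) := by
      push_cast
      rw [div_sub_div _ _ hz0.ne' (by positivity), div_le_div_iff₀ (by positivity) (by positivity)]
      linarith only []
    linarith only [ih, h]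

private theorem MtA_log {t : ℝ} (h0 : 0 ≤ t) (h1 : t ≤ 1 / 2) :
    t ≤ -Real.log (1 - t) ∧ -Real.log (1 - t) ≤ t + 2 * t ^ 2 := by
  constructor
  · have := Real.log_le_sub_one_of_pos (by linarith only [h1] : 0 < 1 - t)
    linarith only [this]
  · have h := Real.abs_log_sub_add_sum_range_le (x := t) (by rw [abs_of_nonneg h0]; linarith only [h1]) 1
    rw [sum_range_one, abs_of_nonneg h0] at h
    have h2 : t ^ (1 + 1) / (1 - t) ≤ 2 * t ^ 2 := by
      rw [div_le_iff₀ (by linarith only [h1])]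
      have h3 := mul_nonneg (sq_nonneg t) (by linarith only [h1] : 0 ≤ 1 - 2 * t)
      have h4 : t ^ (1 + 1) = t ^ 2 := by norm_num
      rw [h4]
      linarith only [h3]
    have h3 := (abs_le.mp h).1
    norm_num at h3 h2
    linarith only [h3, h2]

private theorem MtA_diff {w z : ℕ} (hw : 65536 ≤ w) (hwz : w ≤ z) :
    |(fS z - Real.log (Real.log z)) - (fS w - Real.log (Real.log w))| ≤
      0.25 / Real.log w + 2 / (w : ℝ) := by
  have hw0 : (65536 : ℝ) ≤ w := by exact_mod_cast hw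
  have hwz' : (w : ℝ) ≤ z := by exact_mod_cast hwz
  have hlw : 0 < Real.log w := Real.log_pos (by linarith only [hw0])
  have hlz : 0 < Real.log z := Real.log_pos (by linarith only [hw0, hwz'])
  have h1 := H91.Gold.mertens_wz hw hwz
  have h2 := H91.PK.mertens_lower hw hwz
  rw [Real.log_div hlz.ne' hlw.ne'] at h1 h2
  have h3 : 0.2295 / Real.log w ≤ 0.25 / Real.log w :=
    div_le_div_of_nonneg_right (by norm_num) hlw.le
  have hp : ∀ p ∈ H91.Gold.Pr w z, (0 : ℝ) ≤ 1 / (p : ℝ) ∧ 1 / (p : ℝ) ≤ 1 / 2 := by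
    intro p hp
    have := (H91.Gold.prime_of_Pr hp).two_le
    have hp2 : (2 : ℝ) ≤ p := by exact_mod_cast this
    refine ⟨by positivity, ?_⟩
    exact one_div_le_one_div_of_le (by norm_num) hp2
  have h4 : ∑ p ∈ H91.Gold.Pr w z, (1 : ℝ) / p ≤
      ∑ p ∈ H91.Gold.Pr w z, -Real.log (1 - 1 / (p : ℝ)) :=
    sum_le_sum fun p h => (MtA_log (hp p h).1 (hp p h).2).1
  have h5 : ∑ p ∈ H91.Gold.Pr w z, -Real.log (1 - 1 / (p : ℝ)) ≤
      ∑ p ∈ H91.Gold.Pr w z, (1 : ℝ) / p + 2 / (w : ℝ) := by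
    calc ∑ p ∈ H91.Gold.Pr w z, -Real.log (1 - 1 / (p : ℝ))
        ≤ ∑ p ∈ H91.Gold.Pr w z, ((1 : ℝ) / p + 2 * (1 / (p : ℝ)) ^ 2) :=
          sum_le_sum fun p h => (MtA_log (hp p h).1 (hp p h).2).2
      _ = ∑ p ∈ H91.Gold.Pr w z, (1 : ℝ) / p + 2 * ∑ p ∈ H91.Gold.Pr w z, 1 / (p : ℝ) ^ 2 := by
          rw [sum_add_distrib, ← mul_sum]
          congr 2
          refine sum_congr rfl fun p _ => ?_
          rw [div_pow, one_pow]
      _ ≤ _ := by
          have h6 : ∑ p ∈ H91.Gold.Pr w z, 1 / (p : ℝ) ^ 2 ≤ ∑ p ∈ Ioc w z, 1 / (p : ℝ) ^ 2 := by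
            refine sum_le_sum_of_subset_of_nonneg ?_ fun p _ _ => by positivity
            intro p hp'
            exact mem_Ioc.mpr (H91.Gold.mem_Pr.1 hp').1
          have h7 := MtA_sq (by omega : 1 ≤ w) hwz
          have h8 : (0 : ℝ) ≤ 1 / (z : ℝ) := by positivity
          have h9 : 2 / (w : ℝ) = 2 * (1 / (w : ℝ)) := by ring
          rw [h9]
          linarith only [h6, h7, h8]
  rw [MtA_split hwz, abs_le]
  have h10 : (0 : ℝ) ≤ 2 / (w : ℝ) := by positivity
  constructor <;> linarith only [h2, h4, h5, h1, h3]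

theorem mertA : ∃ c : ℝ, Tendsto (fun n : ℕ => fS n - Real.log (Real.log n)) atTop (nhds c) := by
  refine cauchySeq_tendsto_of_complete ?_
  rw [Metric.cauchySeq_iff']
  intro ε hε
  have hlim : Tendsto (fun w : ℕ => 0.25 / Real.log w + 2 / (w : ℝ)) atTop (nhds 0) := by
    have h1 : Tendsto (fun w : ℕ => 0.25 / Real.log w) atTop (nhds 0) :=
      tendsto_const_nhds.div_atTop (Real.tendsto_log_atTop.comp tendsto_natCast_atTop_atTop)
    have h2 : Tendsto (fun w : ℕ => 2 / (w : ℝ)) atTop (nhds 0) :=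
      tendsto_const_div_atTop_nhds_zero_nat 2
    simpa using h1.add h2
  obtain ⟨N, hN⟩ := ((hlim.eventually (gt_mem_nhds hε)).and (eventually_ge_atTop 65536)).exists
  refine ⟨N, fun n hn => ?_⟩
  rw [Real.dist_eq]
  exact lt_of_le_of_lt (MtA_diff hN.2 hn) hN.1

end Pool.Agent.H36.IS

end

section

/-!
# IS Mt: Mertens' third theorem

From MtA (limit c), MtB (abel_exp with a n = [n prime] -log(1-1/n)) and MtC: c - γ = 0.  Hence fS n - loglog n → γ, and exponentiating,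
log n · ∏_{p≤n}(1-1/p) → e^{-γ}.
`V1_sharp`: V1 x δ = ∏_{p ≤ ⌊x^δ⌋}(1-1/p)/A0 x for large x, log(x^δ) = δ log x, tau = A0 log x (log⌊z⌋ ≤ log z helps: the product over
p ≤ ⌊z⌋ is ≥ (e^{-γ} - ε)/log⌊z⌋ ≥ (e^{-γ}-ε)/log z).
`gam_num`: γ < H_256 - log 256 (`Real.eulerMascheroniConstant_lt_eulerMascheroniSeq'`), = 0.57917 < 0.57925, exp(-0.57925) ≥ 0.5603.
(harmonic number: `decide`/norm_num with rational sums; log 256 = 8 log 2.)
-/

set_option autoImplicit false

namespace Pool.Agent.H36.IS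

open Finset Filter

private theorem Mt_factor_pos {p : ℕ} (hp : p.Prime) : 0 < 1 - 1 / (p : ℝ) := by
  have h2 : (2 : ℝ) ≤ (p : ℝ) := by exact_mod_cast hp.two_le
  have : 1 / (p : ℝ) ≤ 1 / 2 := one_div_le_one_div_of_le (by norm_num) h2
  linarith only [this]

private theorem Mt_factor_le {p : ℕ} (hp : p.Prime) : 1 - 1 / (p : ℝ) ≤ 1 := by
  have h2 : (0 : ℝ) < (p : ℝ) := by exact_mod_cast hp.pos
  have : 0 < 1 / (p : ℝ) := by positivity
  linarith only [this]

private theorem Mt_fS (n : ℕ) :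
    ∑ k ∈ range (n + 1), (if k.Prime then -Real.log (1 - 1 / (k : ℝ)) else 0) = fS n := by
  rw [fS, Finset.sum_filter]

private theorem Mt_lim : Tendsto (fun n : ℕ => fS n - Real.log (Real.log n)) atTop
    (nhds Real.eulerMascheroniConstant) := by
  obtain ⟨c, hc⟩ := mertA
  have h := abel_exp (fun n : ℕ => if n.Prime then -Real.log (1 - 1 / (n : ℝ)) else 0) ?_ ?_ ?_ c ?_
  · have h2 := tendsto_nhds_unique h.2 euler_near_one
    have : c = Real.eulerMascheroniConstant := by linarith only [h2]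
    rw [← this]
    exact hc
  · intro n
    by_cases hn : n.Prime
    · simp only [if_pos hn]
      have := Real.log_nonpos (Mt_factor_pos hn).le (Mt_factor_le hn)
      linarith only [this]
    · simp only [if_neg hn]
      exact le_rfl
  · simp
  · simp [Nat.not_prime_one]
  · refine hc.congr (fun n => ?_)
    rw [Mt_fS]

private theorem Mt_prod (n : ℕ) :
    ∏ p ∈ (range (n + 1)).filter Nat.Prime, (1 - 1 / (p : ℝ)) = Real.exp (-fS n) := by
  rw [fS, ← Finset.sum_neg_distrib, Real.exp_sum]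
  refine Finset.prod_congr rfl (fun p hp => ?_)
  rw [Finset.mem_filter] at hp
  rw [neg_neg, Real.exp_log (Mt_factor_pos hp.2)]

theorem mertens3 : Tendsto (fun n : ℕ => Real.log n * ∏ p ∈ (range (n + 1)).filter Nat.Prime, (1 - 1 / (p : ℝ)))
    atTop (nhds (Real.exp (-Real.eulerMascheroniConstant))) := by
  have h := (Real.continuous_exp.tendsto _).comp Mt_lim.neg
  refine h.congr' ?_
  filter_upwards [eventually_ge_atTop 2] with n hn
  have hn' : (1 : ℝ) < (n : ℝ) := by exact_mod_cast hn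
  have hlog : 0 < Real.log n := Real.log_pos hn'
  simp only [Function.comp]
  rw [Mt_prod, neg_sub, sub_eq_add_neg, Real.exp_add, Real.exp_log hlog]

private theorem Mt_z0 {δ : ℝ} (hδ : 0 < δ) : ∀ᶠ x : ℕ in atTop, z0 x ≤ (x : ℝ) ^ δ := by
  have h1 : Tendsto (fun x : ℕ => Real.log (Real.log (x : ℝ))) atTop atTop :=
    Real.tendsto_log_atTop.comp (Real.tendsto_log_atTop.comp tendsto_natCast_atTop_atTop)
  filter_upwards [eventually_ge_atTop 3, h1.eventually_ge_atTop (max 1 (1 / δ))] with x hx hL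
  have hx1 : (1 : ℝ) < (x : ℝ) := by exact_mod_cast (by omega : 1 < x)
  have hlog : 0 < Real.log (x : ℝ) := Real.log_pos hx1
  have hL1 : 1 ≤ Real.log (Real.log (x : ℝ)) := le_trans (le_max_left _ _) hL
  have hL2 : 1 / δ ≤ Real.log (Real.log (x : ℝ)) := le_trans (le_max_right _ _) hL
  rw [z0, Real.rpow_def_of_pos (by linarith only [hx1] : (0 : ℝ) < (x : ℝ))]
  refine Real.exp_le_exp.mpr ?_
  rw [div_le_iff₀ (by positivity)]
  have h3 : 1 ≤ δ * Real.log (Real.log (x : ℝ)) := by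
    rw [div_le_iff₀ hδ] at hL2
    linarith only [hL2]
  have h4 : δ * Real.log (Real.log (x : ℝ)) ≤ δ * (Real.log (Real.log (x : ℝ))) ^ 2 := by
    refine mul_le_mul_of_nonneg_left ?_ hδ.le
    nlinarith only [hL1]
  nlinarith only [hlog, h3, h4]

private theorem Mt_split {x : ℕ} {δ : ℝ} (hδ1 : δ ≤ 1) (hx : 1 ≤ x)
    (hz : z0 x ≤ (x : ℝ) ^ δ) :
    ∏ p ∈ (range (⌊(x : ℝ) ^ δ⌋₊ + 1)).filter Nat.Prime, (1 - 1 / (p : ℝ)) = A0 x * V1 x δ := by
  have hx1 : (1 : ℝ) ≤ (x : ℝ) := by exact_mod_cast hx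
  have hxd : (x : ℝ) ^ δ ≤ (x : ℝ) := by
    calc (x : ℝ) ^ δ ≤ (x : ℝ) ^ (1 : ℝ) := Real.rpow_le_rpow_of_exponent_le hx1 hδ1
      _ = x := Real.rpow_one _
  have hxd0 : (0 : ℝ) ≤ (x : ℝ) ^ δ := Real.rpow_nonneg (by linarith only []) _
  have hdisj : Disjoint (PA x) (PZ x δ) := by
    rw [Finset.disjoint_left]
    intro p hp hq
    simp only [PA, PZ, PX, Finset.mem_filter] at hp hq
    exact absurd hp.2.2 (not_le.mpr hq.1.2.2)
  rw [A0, V1, ← Finset.prod_union hdisj]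
  refine Finset.prod_congr ?_ (fun _ _ => rfl)
  ext p
  simp only [PA, PZ, PX, Finset.mem_union, Finset.mem_filter, Finset.mem_range]
  have hfl : p < ⌊(x : ℝ) ^ δ⌋₊ + 1 ↔ (p : ℝ) ≤ (x : ℝ) ^ δ := by
    rw [Nat.lt_succ_iff, Nat.le_floor_iff hxd0]
  rw [hfl]
  constructor
  · rintro ⟨h1, h2⟩
    have hpx : p < x + 1 := by
      have : (p : ℝ) ≤ (x : ℝ) := le_trans h1 hxd
      have : p ≤ x := by exact_mod_cast this
      omega
    by_cases h3 : (p : ℝ) ≤ z0 x
    · exact Or.inl ⟨hpx, h2, h3⟩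
    · exact Or.inr ⟨⟨hpx, h2, not_le.mp h3⟩, h1⟩
  · rintro (⟨_, h2, h3⟩ | ⟨⟨_, h2, _⟩, h4⟩)
    · exact ⟨le_trans h3 hz, h2⟩
    · exact ⟨h4, h2⟩

theorem V1_sharp (ρ δ : ℝ) (hρ : ρ < Real.exp (-Real.eulerMascheroniConstant)) (hδ : 0 < δ) (hδ1 : δ ≤ 1) :
    ∀ᶠ x : ℕ in atTop, ρ / (δ * tau x) ≤ V1 x δ := by
  have hfl : Tendsto (fun x : ℕ => ⌊(x : ℝ) ^ δ⌋₊) atTop atTop :=
    tendsto_nat_floor_atTop.comp ((tendsto_rpow_atTop hδ).comp tendsto_natCast_atTop_atTop)
  have h1 := hfl.eventually (mertens3.eventually (lt_mem_nhds hρ))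
  filter_upwards [h1, Mt_z0 hδ, eventually_ge_atTop 2, hfl.eventually_ge_atTop 1]
    with x hx hz hx2 hn1
  rw [Mt_split hδ1 (by omega) hz] at hx
  have hx1 : (1 : ℝ) < (x : ℝ) := by exact_mod_cast (by omega : 1 < x)
  have hlog : 0 < Real.log (x : ℝ) := Real.log_pos hx1
  have hA : 0 < A0 x := by
    rw [A0]
    refine Finset.prod_pos (fun p hp => ?_)
    simp only [PA, Finset.mem_filter] at hp
    exact Mt_factor_pos hp.2.1
  have hV : 0 < V1 x δ := by
    rw [V1]
    refine Finset.prod_pos (fun p hp => ?_)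
    simp only [PZ, PX, Finset.mem_filter] at hp
    exact Mt_factor_pos hp.1.2.1
  have hle : Real.log (⌊(x : ℝ) ^ δ⌋₊ : ℝ) ≤ δ * Real.log x := by
    rw [← Real.log_rpow (by linarith only [hx1])]
    refine Real.log_le_log (by exact_mod_cast hn1) ?_
    exact Nat.floor_le (Real.rpow_nonneg (by linarith only []) _)
  have htau : 0 < δ * tau x := by
    rw [tau]
    positivity
  rw [div_le_iff₀ htau, tau]
  have h5 : Real.log (⌊(x : ℝ) ^ δ⌋₊ : ℝ) * (A0 x * V1 x δ) ≤ δ * Real.log x * (A0 x * V1 x δ) :=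
    mul_le_mul_of_nonneg_right hle (by positivity)
  calc ρ ≤ Real.log (⌊(x : ℝ) ^ δ⌋₊ : ℝ) * (A0 x * V1 x δ) := hx.le
    _ ≤ δ * Real.log x * (A0 x * V1 x δ) := h5
    _ = V1 x δ * (δ * (A0 x * Real.log x)) := by ring

end Pool.Agent.H36.IS

end

section

/-!
# VK TailA: tails of Dirichlet series by Abel summation

Proof.  `g(u) = (log u)^k u^{-σ}`, `S(u) = ∑_{n ≤ u} f n`.
`∑_{N<n≤M} f(n) g(n) = S(M) g(M) - S(N) g(N+1) + ∑_{N<n<M} S(n) (g(n) - g(n+1))` (for `M > N`), and `|g(n) - g(n+1)| ≤ sup |g'|` on `[n,n+1]`,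
`|g'(u)| ≤ (k (log u)^{k-1} + σ (log u)^k) u^{-σ-1} ≤ (k+2) (1 + log(n+1))^k n^{-σ-1}`.  So everything is at most
`3 (k+2) δ (sup_n n g(n) + ∑_n (1 + log(n+1))^k n^{-σ})`.  With `a = (σ-1)/2 ≤ 1/2`: `w^k ≤ k! a^{-k} e^{a w}` for `w = 1 + log(n+1)`, so
`(1+log(n+1))^k ≤ 4 k! (2/(σ-1))^k n^{(σ-1)/2}` and `∑_n n^{-1-(σ-1)/2} ≤ 1 + 2/(σ-1) ≤ 3/(σ-1)`.
-/

set_option autoImplicit false

namespace Pool.Agent.H97.VK

open Finset

/-- the weight -/
private noncomputable def tailA_g (k : ℕ) (σ : ℝ) (n : ℕ) : ℝ := Real.log n ^ k * (n : ℝ) ^ (-σ)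

private lemma tailA_diff (k : ℕ) (σ : ℝ) (h1 : 1 < σ) (h2 : σ ≤ 2) (n : ℕ) (hn : 1 ≤ n) :
    |tailA_g k σ n - tailA_g k σ (n + 1)| ≤
      (k + 2) * ((1 + Real.log (n + 1)) ^ k * (n : ℝ) ^ (-σ - 1)) := by
  have hn0 : (0 : ℝ) < n := by exact_mod_cast (show 0 < n by omega)
  have hn1 : (1 : ℝ) ≤ n := by exact_mod_cast hn
  have hder : ∀ u ∈ Set.Icc (n : ℝ) (n + 1), HasDerivWithinAt
      (fun u : ℝ => Real.log u ^ k * u ^ (-σ))
      ((k : ℝ) * Real.log u ^ (k - 1) * u⁻¹ * u ^ (-σ) + Real.log u ^ k * (-σ * u ^ (-σ - 1)))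
      (Set.Icc (n : ℝ) (n + 1)) u := by
    intro u hu
    have hu0 : u ≠ 0 := by
      have := hu.1
      linarith only [hn0, this]
    exact (((Real.hasDerivAt_log hu0).pow k).mul
      (Real.hasDerivAt_rpow_const (Or.inl hu0))).hasDerivWithinAt
  have hbd : ∀ u ∈ Set.Icc (n : ℝ) (n + 1),
      ‖(k : ℝ) * Real.log u ^ (k - 1) * u⁻¹ * u ^ (-σ) +
        Real.log u ^ k * (-σ * u ^ (-σ - 1))‖ ≤
      (k + 2) * ((1 + Real.log (n + 1)) ^ k * (n : ℝ) ^ (-σ - 1)) := by
    intro u hu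
    have hu0 : 0 < u := lt_of_lt_of_le hn0 hu.1
    have hu1 : 1 ≤ u := hn1.trans hu.1
    have hlu : 0 ≤ Real.log u := Real.log_nonneg hu1
    have hlw : Real.log u ≤ 1 + Real.log (n + 1) := by
      have := Real.log_le_log hu0 hu.2
      linarith only [this]
    have hw1 : 1 ≤ 1 + Real.log ((n : ℝ) + 1) := by
      have : 0 ≤ Real.log ((n : ℝ) + 1) := Real.log_nonneg (by linarith)
      linarith
    have hinv : u⁻¹ * u ^ (-σ) = u ^ (-σ - 1) := by
      rw [← Real.rpow_neg_one u, ← Real.rpow_add hu0]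
      congr 1
      ring
    have hun : u ^ (-σ - 1) ≤ (n : ℝ) ^ (-σ - 1) :=
      Real.rpow_le_rpow_of_nonpos hn0 hu.1 (by linarith only [h1])
    have hun0 : 0 ≤ u ^ (-σ - 1) := by positivity
    have hp1 : Real.log u ^ (k - 1) ≤ (1 + Real.log ((n : ℝ) + 1)) ^ k :=
      (pow_le_pow_left₀ hlu hlw _).trans (pow_le_pow_right₀ hw1 (Nat.sub_le k 1))
    have hp2 : Real.log u ^ k ≤ (1 + Real.log ((n : ℝ) + 1)) ^ k := pow_le_pow_left₀ hlu hlw _
    have hlp1 : 0 ≤ Real.log u ^ (k - 1) := pow_nonneg hlu _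
    have hlp2 : 0 ≤ Real.log u ^ k := pow_nonneg hlu _
    have hk : (0 : ℝ) ≤ k := Nat.cast_nonneg k
    have hm1 : Real.log u ^ (k - 1) * u ^ (-σ - 1) ≤
        (1 + Real.log ((n : ℝ) + 1)) ^ k * (n : ℝ) ^ (-σ - 1) :=
      mul_le_mul hp1 hun hun0 (by positivity)
    have hm2 : Real.log u ^ k * u ^ (-σ - 1) ≤
        (1 + Real.log ((n : ℝ) + 1)) ^ k * (n : ℝ) ^ (-σ - 1) :=
      mul_le_mul hp2 hun hun0 (by positivity)
    have e1 : (k : ℝ) * Real.log u ^ (k - 1) * u⁻¹ * u ^ (-σ) +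
        Real.log u ^ k * (-σ * u ^ (-σ - 1)) =
        k * (Real.log u ^ (k - 1) * u ^ (-σ - 1)) - σ * (Real.log u ^ k * u ^ (-σ - 1)) := by
      rw [← hinv]
      ring
    rw [e1, Real.norm_eq_abs, abs_le]
    have hA := mul_le_mul_of_nonneg_left hm1 hk
    have hB : σ * (Real.log u ^ k * u ^ (-σ - 1)) ≤
        2 * ((1 + Real.log ((n : ℝ) + 1)) ^ k * (n : ℝ) ^ (-σ - 1)) :=
      mul_le_mul h2 hm2 (by positivity) (by norm_num)
    have hA0 : 0 ≤ (k : ℝ) * (Real.log u ^ (k - 1) * u ^ (-σ - 1)) := by positivity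
    have hB0 : 0 ≤ σ * (Real.log u ^ k * u ^ (-σ - 1)) := by positivity
    have hX : 0 ≤ (1 + Real.log ((n : ℝ) + 1)) ^ k * (n : ℝ) ^ (-σ - 1) := by positivity
    have hkX : 0 ≤ (k : ℝ) * ((1 + Real.log ((n : ℝ) + 1)) ^ k * (n : ℝ) ^ (-σ - 1)) := by
      positivity
    constructor
    · linarith only [hA, hB, hA0]
    · linarith only [hA, hB, hB0]
  have h := Convex.norm_image_sub_le_of_norm_hasDerivWithin_le hder hbd (convex_Icc _ _)
    (Set.right_mem_Icc.2 (by linarith)) (Set.left_mem_Icc.2 (by linarith))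
  have e2 : ‖(n : ℝ) - ((n : ℝ) + 1)‖ = 1 := by
    rw [show (n : ℝ) - ((n : ℝ) + 1) = -1 by ring]
    simp
  rw [e2, mul_one, Real.norm_eq_abs] at h
  unfold tailA_g
  push_cast
  exact h

private lemma tailA_sum (a : ℝ) (ha : 0 < a) (ha1 : a ≤ 1) (M : ℕ) :
    ∑ n ∈ Icc 1 M, (n : ℝ) ^ (-1 - a) ≤ 1 + 1 / a := by
  have key : ∀ n : ℕ, 1 ≤ n →
      a * ((n + 1 : ℕ) : ℝ) ^ (-1 - a) ≤ (n : ℝ) ^ (-a) - ((n + 1 : ℕ) : ℝ) ^ (-a) := by
    intro n hn
    have hn0 : (0 : ℝ) < n := by exact_mod_cast (show 0 < n by omega)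
    have hm0 : (0 : ℝ) < (n : ℝ) + 1 := by linarith only [hn0]
    push_cast
    set m : ℝ := (n : ℝ) + 1 with hm
    have h1 : (n / m) ^ a ≤ 1 - a / m := by
      have h := rpow_one_add_le_one_add_mul_self (s := -(1 / m)) (by
        rw [neg_le_neg_iff, div_le_one hm0]
        linarith only [hn0]) ha.le ha1
      have e1 : 1 + -(1 / m) = n / m := by
        field_simp
        rw [hm]
        ring
      rw [e1] at h
      refine h.trans (le_of_eq ?_)
      ring
    have hnm : 0 < (n : ℝ) / m := by positivity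
    have hx0 : 0 < ((n : ℝ) / m) ^ a := Real.rpow_pos_of_pos hnm a
    have ham : 0 ≤ a / m := by positivity
    have h2 : 1 + a / m ≤ (n / m) ^ (-a) := by
      rw [Real.rpow_neg hnm.le, ← one_div, le_div_iff₀ hx0]
      nlinarith only [h1, ham]
    have h3 : (n : ℝ) ^ (-a) = (n / m) ^ (-a) * m ^ (-a) := by
      rw [← Real.mul_rpow hnm.le hm0.le]
      congr 1
      field_simp
    have h4 : m ^ (-1 - a) = m ^ (-a) / m := by
      rw [show (-1 - a) = -a - 1 by ring, Real.rpow_sub hm0, Real.rpow_one]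
    have h5 : 0 ≤ m ^ (-a) := by positivity
    rw [h3, h4]
    have h6 := mul_le_mul_of_nonneg_right h2 h5
    have e3 : a * (m ^ (-a) / m) = a / m * m ^ (-a) := by ring
    rw [e3]
    linarith only [h6]
  have hind : ∀ M : ℕ, 1 ≤ M → a * ∑ n ∈ Icc 1 M, (n : ℝ) ^ (-1 - a) ≤
      a + 1 - (M : ℝ) ^ (-a) := by
    intro M hM
    induction M, hM using Nat.le_induction with
    | base => simp
    | succ M hM ih =>
      rw [sum_Icc_succ_top (by omega)]
      have := key M hM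
      rw [mul_add]
      linarith only [ih, this]
  rcases Nat.eq_zero_or_pos M with rfl | hM
  · simp
    positivity
  · have h := hind M hM
    have h0 : 0 ≤ (M : ℝ) ^ (-a) := by positivity
    have e : 1 + 1 / a = (a + 1) / a := by field_simp
    rw [e, le_div_iff₀ ha, mul_comm]
    linarith only [h, h0]

private lemma tailA_pow (k : ℕ) (a w : ℝ) (ha : 0 < a) (hw : 0 ≤ w) :
    w ^ k ≤ (k.factorial : ℝ) * (1 / a) ^ k * Real.exp (a * w) := by
  have h := Real.pow_div_factorial_le_exp (a * w) (by positivity) k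
  have hf : (0 : ℝ) < k.factorial := by exact_mod_cast Nat.factorial_pos k
  rw [div_le_iff₀ hf, mul_pow] at h
  have e : w ^ k = (1 / a) ^ k * (a ^ k * w ^ k) := by
    rw [← mul_assoc, ← mul_pow, one_div, inv_mul_cancel₀ ha.ne', one_pow, one_mul]
  rw [e]
  calc (1 / a) ^ k * (a ^ k * w ^ k) ≤ (1 / a) ^ k * (Real.exp (a * w) * k.factorial) :=
        mul_le_mul_of_nonneg_left h (by positivity)
    _ = _ := by ring

private lemma tailA_abel (f : ℕ → ℂ) (g : ℕ → ℝ) (N M : ℕ) (hM : N ≤ M) :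
    ∑ n ∈ Ioc N M, f n * (g n : ℂ) = (∑ n ∈ Ioc N M, f n) * (g M : ℂ) +
      ∑ n ∈ Ico N M, (∑ j ∈ Ioc N n, f j) * ((g n - g (n + 1) : ℝ) : ℂ) := by
  induction M, hM using Nat.le_induction with
  | base => simp
  | succ M hM ih =>
    rw [sum_Ioc_succ_top (by omega), sum_Ico_succ_top (by omega), sum_Ioc_succ_top (by omega), ih]
    push_cast
    ring

theorem tail_abel (k : ℕ) : ∃ C : ℝ, 1 ≤ C ∧ ∀ (f : ℕ → ℂ) (δ σ : ℝ) (N : ℕ), 0 ≤ δ → 1 < σ → σ ≤ 2 → 1 ≤ N →
    (∀ u : ℕ, N ≤ u → ‖∑ n ∈ Icc 1 u, f n‖ ≤ δ * u) → ∀ M : ℕ, N ≤ M →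
    ‖∑ n ∈ Ioc N M, f n * ((Real.log n ^ k * (n : ℝ) ^ (-σ) : ℝ) : ℂ)‖ ≤ C * δ * (1 / (σ - 1)) ^ (k + 1) := by
  have hf1 : (1 : ℝ) ≤ k.factorial := by exact_mod_cast Nat.factorial_pos k
  have hk0 : (0 : ℝ) ≤ k := Nat.cast_nonneg k
  have h2k : (1 : ℝ) ≤ 2 ^ k := one_le_pow₀ (by norm_num)
  refine ⟨(k.factorial : ℝ) * 2 ^ k * (2 + 24 * (k + 2)), ?_, ?_⟩
  · have h1 : (1 : ℝ) ≤ k.factorial * 2 ^ k := one_le_mul_of_one_le_of_one_le hf1 h2k
    nlinarith only [h1]
  intro f δ σ N hδ h1 h2 hN hS M hM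
  set a : ℝ := (σ - 1) / 2 with ha
  have ha0 : 0 < a := by rw [ha]; linarith only [h1]
  have ha1 : a ≤ 1 / 2 := by rw [ha]; linarith only [h2]
  set X : ℝ := 1 / (σ - 1) with hX
  have hX1 : 1 ≤ X := by
    rw [hX, le_div_iff₀ (by linarith only [h1])]
    linarith only [h2]
  have hinva : 1 / a = 2 * X := by
    rw [ha, hX]
    field_simp
  have hinvak : (1 / a) ^ k = 2 ^ k * X ^ k := by rw [hinva, mul_pow]
  have hfg : ∀ n : ℕ, ((Real.log n ^ k * (n : ℝ) ^ (-σ) : ℝ) : ℂ) = (tailA_g k σ n : ℂ) :=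
    fun n => rfl
  simp only [hfg]
  rw [tailA_abel f (tailA_g k σ) N M hM]
  have hT : ∀ n : ℕ, N ≤ n → ‖∑ j ∈ Ioc N n, f j‖ ≤ 2 * δ * n := by
    intro n hn
    have e : ∑ j ∈ Ioc N n, f j = ∑ j ∈ Icc 1 n, f j - ∑ j ∈ Icc 1 N, f j := by
      have h3 : Icc 1 n = Icc 1 N ∪ Ioc N n := by
        ext j
        simp only [mem_Icc, mem_union, mem_Ioc]
        omega
      have h4 : Disjoint (Icc 1 N) (Ioc N n) := by
        rw [disjoint_left]
        intro j hj hj'
        rw [mem_Icc] at hj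
        rw [mem_Ioc] at hj'
        omega
      rw [h3, sum_union h4]
      ring
    rw [e]
    have h5 := norm_sub_le (∑ j ∈ Icc 1 n, f j) (∑ j ∈ Icc 1 N, f j)
    have h6 := hS n hn
    have h7 := hS N le_rfl
    have h8 : δ * N ≤ δ * n := mul_le_mul_of_nonneg_left (by exact_mod_cast hn) hδ
    linarith only [h5, h6, h7, h8]
  have hgM : (M : ℝ) * |tailA_g k σ M| ≤ k.factorial * (2 ^ k * X ^ k) := by
    have hM1 : 1 ≤ M := hN.trans hM
    have hM0 : (0 : ℝ) < M := by exact_mod_cast (show 0 < M by omega)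
    have hM1' : (1 : ℝ) ≤ M := by exact_mod_cast hM1
    have hlM : 0 ≤ Real.log M := Real.log_nonneg hM1'
    have h3 := tailA_pow k a (Real.log M) ha0 hlM
    have e1 : Real.exp (a * Real.log M) = (M : ℝ) ^ a := by
      rw [Real.rpow_def_of_pos hM0, mul_comm]
    rw [e1, hinvak] at h3
    unfold tailA_g
    rw [abs_of_nonneg (by positivity)]
    have h4 : (M : ℝ) ^ a * (M : ℝ) ^ (-σ) * M ≤ 1 := by
      have : (M : ℝ) ^ a * (M : ℝ) ^ (-σ) * M = (M : ℝ) ^ (-a) := by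
        rw [← Real.rpow_add hM0]
        nth_rewrite 2 [← Real.rpow_one (M : ℝ)]
        rw [← Real.rpow_add hM0]
        congr 1
        rw [ha]
        ring
      rw [this]
      exact Real.rpow_le_one_of_one_le_of_nonpos hM1' (by linarith only [ha0])
    have h5 : 0 ≤ (M : ℝ) ^ (-σ) * M := by positivity
    calc (M : ℝ) * (Real.log M ^ k * (M : ℝ) ^ (-σ)) = Real.log M ^ k * ((M : ℝ) ^ (-σ) * M) := by
          ring
      _ ≤ (k.factorial * (2 ^ k * X ^ k) * (M : ℝ) ^ a) * ((M : ℝ) ^ (-σ) * M) :=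
          mul_le_mul_of_nonneg_right h3 h5
      _ = (k.factorial * (2 ^ k * X ^ k)) * ((M : ℝ) ^ a * (M : ℝ) ^ (-σ) * M) := by ring
      _ ≤ (k.factorial * (2 ^ k * X ^ k)) * 1 := mul_le_mul_of_nonneg_left h4 (by positivity)
      _ = _ := mul_one _
  have hterm : ∀ n ∈ Ico N M, ‖(∑ j ∈ Ioc N n, f j) * ((tailA_g k σ n - tailA_g k σ (n + 1) : ℝ) : ℂ)‖ ≤
      8 * δ * (k + 2) * (k.factorial * (2 ^ k * X ^ k)) * (n : ℝ) ^ (-1 - a) := by
    intro n hn
    rw [mem_Ico] at hn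
    have hn1 : 1 ≤ n := hN.trans hn.1
    have hn0 : (0 : ℝ) < n := by exact_mod_cast (show 0 < n by omega)
    have hn1' : (1 : ℝ) ≤ n := by exact_mod_cast hn1
    have hd := tailA_diff k σ h1 h2 n hn1
    have hw : 0 ≤ 1 + Real.log ((n : ℝ) + 1) := by
      have : 0 ≤ Real.log ((n : ℝ) + 1) := Real.log_nonneg (by linarith only [h2, ha, ha0, hn1'])
      linarith only [h2, ha, ha0, this]
    have h3 := tailA_pow k a (1 + Real.log ((n : ℝ) + 1)) ha0 hw
    rw [hinvak] at h3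
    have h4 : Real.exp (a * (1 + Real.log ((n : ℝ) + 1))) ≤ 4 * (n : ℝ) ^ a := by
      have e1 : a * (1 + Real.log ((n : ℝ) + 1)) = a + a * Real.log ((n : ℝ) + 1) := by ring
      have e2 : Real.exp (a * Real.log ((n : ℝ) + 1)) = ((n : ℝ) + 1) ^ a := by
        rw [Real.rpow_def_of_pos (by linarith only [h2, ha, ha0, hn1']), mul_comm]
      rw [e1, Real.exp_add, e2]
      have h5 : Real.exp a ≤ 2 := by
        have h6 : Real.exp a ≤ Real.exp (1 / 2) := Real.exp_le_exp.2 ha1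
        have h7 : Real.exp (1 / 2) ^ 2 = Real.exp 1 := by
          rw [← Real.exp_nat_mul]
          norm_num
        have h8 := Real.exp_one_lt_d9
        have h9 : 0 < Real.exp (1 / 2) := Real.exp_pos _
        nlinarith only [ha, ha0, h6, h7, h8, h1, h2, h9]
      have h6 : ((n : ℝ) + 1) ^ a ≤ 2 * (n : ℝ) ^ a := by
        calc ((n : ℝ) + 1) ^ a ≤ (2 * (n : ℝ)) ^ a :=
              Real.rpow_le_rpow (by linarith only [h2, ha, ha0, hn1']) (by linarith only [hn1']) ha0.le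
          _ = 2 ^ a * (n : ℝ) ^ a := Real.mul_rpow (by norm_num) hn0.le
          _ ≤ 2 * (n : ℝ) ^ a := by
              refine mul_le_mul_of_nonneg_right ?_ (by positivity)
              calc (2 : ℝ) ^ a ≤ (2 : ℝ) ^ (1 : ℝ) :=
                    Real.rpow_le_rpow_of_exponent_le (by norm_num) (by linarith only [h2, ha, ha0])
                _ = 2 := Real.rpow_one 2
      calc Real.exp a * ((n : ℝ) + 1) ^ a ≤ 2 * (2 * (n : ℝ) ^ a) :=
            mul_le_mul h5 h6 (by positivity) (by norm_num)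
        _ = 4 * (n : ℝ) ^ a := by ring
    have h5 : (1 + Real.log ((n : ℝ) + 1)) ^ k ≤
        k.factorial * (2 ^ k * X ^ k) * (4 * (n : ℝ) ^ a) :=
      h3.trans (mul_le_mul_of_nonneg_left h4 (by positivity))
    have h6 : (n : ℝ) ^ a * (n : ℝ) ^ (-σ - 1) * n = (n : ℝ) ^ (-1 - a) := by
      rw [← Real.rpow_add hn0]
      nth_rewrite 2 [← Real.rpow_one (n : ℝ)]
      rw [← Real.rpow_add hn0]
      congr 1
      rw [ha]
      ring
    rw [norm_mul, Complex.norm_real, Real.norm_eq_abs]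
    have hp : 0 ≤ (n : ℝ) ^ (-σ - 1) := by positivity
    calc ‖∑ j ∈ Ioc N n, f j‖ * |tailA_g k σ n - tailA_g k σ (n + 1)|
        ≤ (2 * δ * n) * ((k + 2) * ((1 + Real.log (n + 1)) ^ k * (n : ℝ) ^ (-σ - 1))) :=
          mul_le_mul (hT n hn.1) hd (abs_nonneg _) (by positivity)
      _ ≤ (2 * δ * n) * ((k + 2) * ((k.factorial * (2 ^ k * X ^ k) * (4 * (n : ℝ) ^ a)) *
            (n : ℝ) ^ (-σ - 1))) := by
          refine mul_le_mul_of_nonneg_left ?_ (by positivity)
          refine mul_le_mul_of_nonneg_left ?_ (by positivity)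
          exact mul_le_mul_of_nonneg_right h5 hp
      _ = 8 * δ * (k + 2) * (k.factorial * (2 ^ k * X ^ k)) *
            ((n : ℝ) ^ a * (n : ℝ) ^ (-σ - 1) * n) := by ring
      _ = _ := by rw [h6]
  have hsum : ‖∑ n ∈ Ico N M, (∑ j ∈ Ioc N n, f j) *
      ((tailA_g k σ n - tailA_g k σ (n + 1) : ℝ) : ℂ)‖ ≤
      8 * δ * (k + 2) * (k.factorial * (2 ^ k * X ^ k)) * (3 * X) := by
    refine (norm_sum_le _ _).trans ((sum_le_sum hterm).trans ?_)
    rw [← mul_sum]
    refine mul_le_mul_of_nonneg_left ?_ (by positivity)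
    have h3 : ∑ n ∈ Ico N M, (n : ℝ) ^ (-1 - a) ≤ ∑ n ∈ Icc 1 M, (n : ℝ) ^ (-1 - a) := by
      refine sum_le_sum_of_subset_of_nonneg ?_ fun _ _ _ => by positivity
      intro n hn
      rw [mem_Ico] at hn
      rw [mem_Icc]
      omega
    refine h3.trans ((tailA_sum a ha0 (by linarith only [h2, ha]) M).trans ?_)
    rw [hinva]
    linarith only [hX1]
  have hfirst : ‖(∑ n ∈ Ioc N M, f n) * (tailA_g k σ M : ℂ)‖ ≤
      2 * δ * (k.factorial * (2 ^ k * X ^ k)) := by
    rw [norm_mul, Complex.norm_real, Real.norm_eq_abs]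
    calc ‖∑ n ∈ Ioc N M, f n‖ * |tailA_g k σ M| ≤ (2 * δ * M) * |tailA_g k σ M| :=
          mul_le_mul_of_nonneg_right (hT M hM) (abs_nonneg _)
      _ = 2 * δ * (M * |tailA_g k σ M|) := by ring
      _ ≤ _ := mul_le_mul_of_nonneg_left hgM (by positivity)
  refine (norm_add_le _ _).trans ((add_le_add hfirst hsum).trans ?_)
  have hD : 0 ≤ δ * (k.factorial * (2 ^ k * X ^ k)) := by positivity
  have e1 : (k.factorial : ℝ) * 2 ^ k * (2 + 24 * (k + 2)) * δ * X ^ (k + 1) =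
      δ * (k.factorial * (2 ^ k * X ^ k)) * (2 * X + 24 * (k + 2) * X) := by
    rw [pow_succ]
    ring
  have e2 : 2 * δ * (k.factorial * (2 ^ k * X ^ k)) +
      8 * δ * (k + 2) * (k.factorial * (2 ^ k * X ^ k)) * (3 * X) =
      δ * (k.factorial * (2 ^ k * X ^ k)) * (2 + 24 * (k + 2) * X) := by
    ring
  rw [e1, e2]
  refine mul_le_mul_of_nonneg_left ?_ hD
  linarith only [hX1]

end Pool.Agent.H97.VK

end

section

/-!
# W Rough: the density of the integers without prime factor in `(P, P 2^J]`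

Proof.  Let `Z = P 2^J`, `f(k) = 1` if `k` has no prime factor in `(P, Z]` (these are the primes of the blocks
`pb (P 2^i)`, `i < J`), else `0`.  If `y < Z` the number is `≤ y ≤ Z`.  Let `y ≥ Z`.
(Hall-Tenenbaum) `∑_{n ≤ y} f(n) log n = ∑_{n ≤ y} f(n) ∑_{d ∣ n} Λ(d) ≤ ∑_{m ≤ y} f(m) ψ(y/m) ≤ C1 y ∑_{m ≤ y} f(m)/m`
(`n = m d`, `f(n) ≤ f(m)`; `ψ(u) ≤ C1 u`, e.g. `Chebyshev.psi_le` or `psi_le_log_three`), and
`∑_{n ≤ y} f(n) log(y/n) ≤ ∑ f(n) y/n`; so `log y · ∑_{n ≤ y} f(n) ≤ (C1 + 1) y ∑_{m ≤ y} f(m)/m`.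
(Euler product) `∑_{m ≤ y} f(m)/m ≤ ∏_{p ≤ y, p ∉ (P, Z]} (1 - 1/p)^{-1}`, and
`∏_{p ≤ y} (1 - 1/p)^{-1} ≤ C2 log y` (Mertens upper bound, `MR_sum_inv` for `∑ 1/p`), and
`∏_{P < p ≤ Z} (1 - 1/p) ≤ exp (- ∑_{P < p ≤ Z} 1/p) ≤ C3 log P / log Z` (`mertens_lower` in `H91/PK/MB.lean` for `P ≥ 65536`;
for smaller `P` use `P' = 65536`: then `log P' / log Z ≤ 16 log P / log Z · ...`, if `Z ≤ 65536` the claim is trivial with
a large `C`).  So `#{n ≤ y : f(n) = 1} ≤ C y log P / log Z`.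
-/

set_option autoImplicit false

namespace Pool.Agent.H35.W

open Finset

private theorem rough_upper : ∃ C : ℝ, 0 < C ∧ ∀ y : ℕ, 2 ≤ y →
    ∑ p ∈ (Icc 1 y).filter Nat.Prime, (1 : ℝ) / p ≤ Real.log (Real.log y) + C :=
  Pool.Agent.H43.MP.mrt_upper

open Pool.Agent.H91.Gold (Pr) in
private theorem rough_Pr_mono (P w Z : ℕ) (h : P ≤ w) :
    ∑ p ∈ Pr w Z, (1 : ℝ) / p ≤ ∑ p ∈ (Ioc P Z).filter Nat.Prime, (1 : ℝ) / p := by
  apply Finset.sum_le_sum_of_subset_of_nonneg
  · intro p hp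
    unfold Pr at hp
    rw [mem_filter, mem_Ioc] at hp ⊢
    exact ⟨⟨lt_of_le_of_lt h hp.1.1, hp.1.2⟩, hp.2⟩
  · intro _ _ _; positivity

open Pool.Agent.H91.Gold (Pr) in
private theorem rough_lower (P Z : ℕ) (hP : 2 ≤ P) (hPZ : P ≤ Z) :
    Real.log (Real.log Z / Real.log P) - 4 ≤ ∑ p ∈ (Ioc P Z).filter Nat.Prime, (1 : ℝ) / p := by
  have hlP : (0 : ℝ) < Real.log P := Real.log_pos (by exact_mod_cast hP)
  have hlZ : (0 : ℝ) < Real.log Z := Real.log_pos (by exact_mod_cast (by omega : 1 < Z))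
  have hZ0 : (0 : ℝ) < Z := by
    have : 0 < Z := by omega
    exact_mod_cast this
  have hl2 : (0 : ℝ) < Real.log 2 := Real.log_pos (by norm_num)
  have hl6 : Real.log 65536 = 16 * Real.log 2 := by
    rw [show (65536 : ℝ) = 2 ^ 16 by norm_num, Real.log_pow]; norm_num
  have hl6' : (11 : ℝ) ≤ Real.log 65536 := by
    rw [hl6]; have := Real.log_two_gt_d9; linarith only [hl2, this]
  have hl16 : Real.log 16 ≤ 3 := by
    rw [show (16 : ℝ) = 2 ^ 4 by norm_num, Real.log_pow]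
    have := Real.log_two_lt_d9; push_cast; linarith only [hl2, this]
  rcases Nat.lt_or_ge P 65536 with h | h
  · have hP2 : Real.log 2 ≤ Real.log P := Real.log_le_log (by norm_num) (by exact_mod_cast hP)
    rcases Nat.lt_or_ge Z 65536 with hz | hz
    · have h1 : Real.log Z ≤ Real.log 65536 := Real.log_le_log (by positivity) (by exact_mod_cast hz.le)
      have h2 : Real.log Z / Real.log P ≤ 16 := by
        rw [div_le_iff₀ hlP]; rw [hl6] at h1; nlinarith only [hP2, h1]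
      have h3 : Real.log (Real.log Z / Real.log P) ≤ Real.log 16 :=
        Real.log_le_log (by positivity) h2
      have h4 : (0 : ℝ) ≤ ∑ p ∈ (Ioc P Z).filter Nat.Prime, (1 : ℝ) / p :=
        Finset.sum_nonneg (fun _ _ => by positivity)
      linarith only [hl16, h3, h4]
    · have h1 := Pool.Agent.H91.PK.mertens_lower (le_refl 65536) hz
      have h2 : ∑ p ∈ Pr 65536 Z, (1 : ℝ) / p ≤ ∑ p ∈ (Ioc P Z).filter Nat.Prime, (1 : ℝ) / p :=
        rough_Pr_mono P 65536 Z h.le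
      have h3 : (0.25 : ℝ) / Real.log ((65536 : ℕ) : ℝ) ≤ 1 := by
        push_cast
        rw [div_le_one (by linarith only [hl2, hl6])]; linarith only [hl2, hl6, hl6']
      have h4 : Real.log (Real.log Z / Real.log P) - Real.log 16 ≤
          Real.log (Real.log Z / Real.log ((65536 : ℕ) : ℝ)) := by
        push_cast
        rw [← Real.log_div (by positivity) (by norm_num)]
        apply Real.log_le_log (by positivity)
        rw [div_div]
        apply div_le_div_of_nonneg_left hlZ.le (by linarith only [hl2, hl6])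
        rw [hl6]; nlinarith only [hP2]
      linarith only [hl16, h1, h2, h3, h4]
  · have h1 := Pool.Agent.H91.PK.mertens_lower h hPZ
    have h3 : (0.25 : ℝ) / Real.log P ≤ 1 := by
      have : Real.log 65536 ≤ Real.log P := Real.log_le_log (by norm_num) (by exact_mod_cast h)
      rw [div_le_one hlP]; linarith only [hl2, hl6, hl6', this]
    have h2 : ∑ p ∈ Pr P Z, (1 : ℝ) / p = ∑ p ∈ (Ioc P Z).filter Nat.Prime, (1 : ℝ) / p := rfl
    linarith only [h1, h3, h2]

/-- the block primes fill `(P, P 2^J]` -/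
private theorem rough_block (P J p : ℕ) (hp : p.Prime) (h1 : P < p) (h2 : p ≤ P * 2 ^ J) :
    ∃ i, i < J ∧ p ∈ pb (P * 2 ^ i) := by
  induction J with
  | zero => simp at h2; omega
  | succ J ih =>
    rcases Nat.lt_or_ge (P * 2 ^ J) p with h | h
    · refine ⟨J, Nat.lt_succ_self J, ?_⟩
      unfold pb
      rw [mem_filter, mem_Ioc]
      refine ⟨⟨h, ?_⟩, hp⟩
      rw [pow_succ] at h2
      linarith only [h2, Nat.mul_comm 2 (P * 2 ^ J)]
    · obtain ⟨i, hi, hi'⟩ := ih h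
      exact ⟨i, hi.trans (Nat.lt_succ_self J), hi'⟩

private theorem rough_dvd (P J m n : ℕ) (h : Rk P J n) (hmn : m ∣ n) : Rk P J m :=
  fun i hi p hp hpm => h i hi p hp (hpm.trans hmn)

/-- Hall-Tenenbaum -/
private theorem rough_HT (P J y : ℕ) (hy : 2 ≤ y) :
    Real.log y * ((rgh P J y).card : ℝ) ≤
      (Real.log 4 + 5) * y * ∑ m ∈ rgh P J y, (1 : ℝ) / m := by
  classical
  have hy0 : (0 : ℝ) < y := by positivity
  have mem : ∀ n, n ∈ rgh P J y ↔ (1 ≤ n ∧ n ≤ y) ∧ Rk P J n := by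
    intro n; unfold rgh; rw [mem_filter, mem_Icc]
  have h1 : Real.log y * ((rgh P J y).card : ℝ) =
      ∑ n ∈ rgh P J y, Real.log n + ∑ n ∈ rgh P J y, Real.log ((y : ℝ) / n) := by
    rw [← Finset.sum_add_distrib, mul_comm, ← nsmul_eq_mul, ← Finset.sum_const]
    apply Finset.sum_congr rfl
    intro n hn
    have hn1 := ((mem n).1 hn).1.1
    have hn0 : (0 : ℝ) < n := by positivity
    rw [Real.log_div hy0.ne' hn0.ne']; ring
  have h2 : ∑ n ∈ rgh P J y, Real.log ((y : ℝ) / n) ≤ y * ∑ m ∈ rgh P J y, (1 : ℝ) / m := by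
    rw [Finset.mul_sum]
    apply Finset.sum_le_sum
    intro n hn
    have hn1 := ((mem n).1 hn).1.1
    have hn0 : (0 : ℝ) < n := by positivity
    have := Real.log_le_self (show (0 : ℝ) ≤ y / n by positivity)
    rw [mul_one_div]; exact this
  have h3 : ∑ n ∈ rgh P J y, Real.log n ≤
      ∑ m ∈ rgh P J y, ∑ d ∈ Ioc 0 (y / m), ArithmeticFunction.vonMangoldt d := by
    have e1 : ∀ n ∈ rgh P J y, Real.log n =
        ∑ m ∈ rgh P J y, if m ∣ n then ArithmeticFunction.vonMangoldt (n / m) else 0 := by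
      intro n hn
      have hn1 := (mem n).1 hn
      rw [← ArithmeticFunction.vonMangoldt_sum,
        ← Nat.sum_div_divisors n (fun d => ArithmeticFunction.vonMangoldt d), ← Finset.sum_filter]
      apply Finset.sum_congr _ (fun _ _ => rfl)
      ext m
      rw [Nat.mem_divisors, mem_filter, mem]
      constructor
      · rintro ⟨hm, _⟩
        refine ⟨⟨⟨Nat.pos_of_dvd_of_pos hm hn1.1.1, ?_⟩, rough_dvd P J m n hn1.2 hm⟩, hm⟩
        exact (Nat.le_of_dvd hn1.1.1 hm).trans hn1.1.2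
      · rintro ⟨_, hm⟩
        exact ⟨hm, by omega⟩
    rw [Finset.sum_congr rfl e1, Finset.sum_comm]
    apply Finset.sum_le_sum
    intro m hm
    have hm1 := ((mem m).1 hm).1.1
    rw [← Finset.sum_filter]
    have e2 : ∑ n ∈ (rgh P J y).filter (fun n => m ∣ n), ArithmeticFunction.vonMangoldt (n / m) =
        ∑ d ∈ ((rgh P J y).filter (fun n => m ∣ n)).image (fun n => n / m),
          ArithmeticFunction.vonMangoldt d := by
      rw [Finset.sum_image]
      intro a ha b hb hab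
      rw [Finset.coe_filter] at ha hb
      have ha' := Nat.div_mul_cancel ha.2
      have hb' := Nat.div_mul_cancel hb.2
      have hab' : a / m = b / m := hab
      rw [← ha', ← hb', hab']
    rw [e2]
    apply Finset.sum_le_sum_of_subset_of_nonneg
    · intro d hd
      rw [mem_image] at hd
      obtain ⟨n, hn, rfl⟩ := hd
      rw [mem_filter] at hn
      have hn1 := (mem n).1 hn.1
      rw [mem_Ioc]
      exact ⟨Nat.div_pos (Nat.le_of_dvd hn1.1.1 hn.2) hm1, Nat.div_le_div_right hn1.1.2⟩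
    · intro _ _ _
      exact ArithmeticFunction.vonMangoldt_nonneg
  have h4 : ∑ m ∈ rgh P J y, ∑ d ∈ Ioc 0 (y / m), ArithmeticFunction.vonMangoldt d ≤
      (Real.log 4 + 4) * y * ∑ m ∈ rgh P J y, (1 : ℝ) / m := by
    rw [Finset.mul_sum]
    apply Finset.sum_le_sum
    intro m hm
    have hm1 := ((mem m).1 hm).1.1
    have hm0 : (0 : ℝ) < m := by positivity
    have e3 := Chebyshev.psi_le_const_mul_self (show (0 : ℝ) ≤ ((y / m : ℕ) : ℝ) by positivity)
    unfold Chebyshev.psi at e3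
    rw [Nat.floor_natCast] at e3
    refine e3.trans ?_
    have e4 : ((y / m : ℕ) : ℝ) ≤ y / m := Nat.cast_div_le
    have e5 : (0 : ℝ) ≤ Real.log 4 + 4 := by
      have := Real.log_nonneg (show (1 : ℝ) ≤ 4 by norm_num); linarith only [this]
    calc (Real.log 4 + 4) * ((y / m : ℕ) : ℝ) ≤ (Real.log 4 + 4) * (y / m) :=
          mul_le_mul_of_nonneg_left e4 e5
      _ = (Real.log 4 + 4) * y * (1 / m) := by ring
  rw [h1]
  calc _ ≤ (Real.log 4 + 4) * y * ∑ m ∈ rgh P J y, (1 : ℝ) / m +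
        y * ∑ m ∈ rgh P J y, (1 : ℝ) / m := add_le_add (h3.trans h4) h2
    _ = _ := by ring

/-- Euler product -/
private theorem rough_Euler (P J y : ℕ) (hy : 2 ≤ y) :
    ∑ m ∈ rgh P J y, (1 : ℝ) / m ≤
      Real.exp (∑ p ∈ ((Icc 1 y).filter Nat.Prime).filter (fun p => ¬ (P < p ∧ p ≤ P * 2 ^ J)),
        (1 : ℝ) / p + 2) := by
  classical
  set T := ((Icc 1 y).filter Nat.Prime).filter (fun p => ¬ (P < p ∧ p ≤ P * 2 ^ J)) with hT
  have memT : ∀ p, p ∈ T ↔ ((1 ≤ p ∧ p ≤ y) ∧ p.Prime) ∧ ¬ (P < p ∧ p ≤ P * 2 ^ J) := by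
    intro p; rw [hT, mem_filter, mem_filter, mem_Icc]
  let f : ℕ →* ℝ :=
    { toFun := fun n => (n : ℝ)⁻¹
      map_one' := by simp
      map_mul' := by intro a b; push_cast; rw [mul_inv] }
  have hf : ∀ n, f n = (n : ℝ)⁻¹ := fun _ => rfl
  have hlt : ∀ {p : ℕ}, Nat.Prime p → ‖f p‖ < 1 := by
    intro p hp
    have : (2 : ℝ) ≤ p := by exact_mod_cast hp.two_le
    rw [hf, norm_inv, Real.norm_of_nonneg (by positivity)]
    exact inv_lt_one_of_one_lt₀ (by linarith only [this])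
  obtain ⟨hs, hsum⟩ := EulerProduct.summable_and_hasSum_factoredNumbers_prod_filter_prime_geometric
    (f := f) hlt T
  have hTp : T.filter Nat.Prime = T := by
    apply Finset.filter_true_of_mem
    intro p hp
    exact ((memT p).1 hp).1.2
  rw [hTp] at hsum
  have h1 : ∑ m ∈ rgh P J y, (1 : ℝ) / m ≤ ∏ p ∈ T, (1 - f p)⁻¹ := by
    have e1 : ∀ m ∈ rgh P J y, m ∈ Nat.factoredNumbers T := by
      intro m hm
      unfold rgh at hm
      rw [mem_filter, mem_Icc] at hm
      rw [Nat.mem_factoredNumbers]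
      refine ⟨by omega, ?_⟩
      intro p hp
      have hpp := Nat.prime_of_mem_primeFactorsList hp
      have hpd := Nat.dvd_of_mem_primeFactorsList hp
      rw [memT]
      refine ⟨⟨⟨hpp.one_lt.le, (Nat.le_of_dvd hm.1.1 hpd).trans hm.1.2⟩, hpp⟩, ?_⟩
      rintro ⟨h1, h2⟩
      obtain ⟨i, hi, hi'⟩ := rough_block P J p hpp h1 h2
      exact hm.2 i hi p hi' hpd
    have e2 : ∑ m ∈ rgh P J y, (1 : ℝ) / m =
        ∑ m ∈ (rgh P J y).attach, f m.1 := by
      rw [Finset.sum_attach (rgh P J y) (fun m => f m)]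
      apply Finset.sum_congr rfl
      intro m _
      rw [hf, one_div]
    rw [e2]
    let g : {m // m ∈ rgh P J y} → Nat.factoredNumbers T := fun m => ⟨m.1, e1 m.1 m.2⟩
    have hg : Function.Injective g := by
      intro a b hab
      have : a.1 = b.1 := congrArg (fun z : Nat.factoredNumbers T => z.1) hab
      exact Subtype.ext this
    have e3 : ∑ m ∈ (rgh P J y).attach, f m.1 =
        ∑ z ∈ (rgh P J y).attach.image g, f (z : ℕ) := by
      rw [Finset.sum_image (fun a _ b _ h => hg h)]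
    rw [e3]
    apply sum_le_hasSum _ _ hsum
    intro z _
    rw [hf]; positivity
  refine h1.trans ?_
  rw [Real.exp_add, Real.exp_sum]
  have h2 : ∏ p ∈ T, (1 - f p)⁻¹ ≤ ∏ p ∈ T, Real.exp (1 / (p : ℝ)) * Real.exp (1 / (p : ℝ) ^ 2) := by
    apply Finset.prod_le_prod
    · intro p hp
      have hpp := ((memT p).1 hp).1.2
      have := hlt hpp
      rw [Real.norm_of_nonneg (by rw [hf]; positivity)] at this
      have : 0 < 1 - f p := by linarith only [this]
      positivity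
    · intro p hp
      have hpp := ((memT p).1 hp).1.2
      have hp2 : (2 : ℝ) ≤ p := by exact_mod_cast hpp.two_le
      rw [hf, ← Real.exp_add]
      have hp0 : (0 : ℝ) < p := by linarith only [hp2]
      set t := (p : ℝ)⁻¹ with ht
      have ht1 : t ≤ 1 / 2 := by
        rw [ht, inv_le_comm₀ hp0 (by norm_num)]; linarith only [hp2]
      have ht0 : 0 < t := by positivity
      have e4 : (1 : ℝ) / p + 1 / (p : ℝ) ^ 2 = t + t ^ 2 := by
        rw [ht]; field_simp
      rw [e4]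
      have e5 : (1 - t)⁻¹ ≤ 1 + (t + t ^ 2) + (t + t ^ 2) ^ 2 / 2 := by
        rw [inv_le_iff_one_le_mul₀ (by linarith only [ht1, ht0])]
        nlinarith only [ht0, ht1, pow_pos ht0 2, pow_pos ht0 3, pow_pos ht0 4, mul_pos ht0 ht0]
      exact e5.trans (Real.quadratic_le_exp_of_nonneg (by positivity))
  refine h2.trans ?_
  rw [Finset.prod_mul_distrib]
  apply mul_le_mul_of_nonneg_left _ (Finset.prod_nonneg (fun _ _ => (Real.exp_pos _).le))
  rw [← Real.exp_sum]
  apply Real.exp_le_exp.2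
  have h3 : ∑ p ∈ T, 1 / (p : ℝ) ^ 2 ≤ ∑ p ∈ Icc 1 y, 1 / (p : ℝ) ^ 2 := by
    apply Finset.sum_le_sum_of_subset_of_nonneg
    · intro p hp
      rw [mem_Icc]
      exact ((memT p).1 hp).1.1
    · intro _ _ _; positivity
  refine h3.trans ?_
  have h4 : ∀ n : ℕ, 1 ≤ n → ∑ p ∈ Icc 1 n, 1 / (p : ℝ) ^ 2 ≤ 2 - 1 / (n : ℝ) := by
    intro n hn
    induction n, hn using Nat.le_induction with
    | base => norm_num
    | succ n hn ih =>
      rw [Finset.sum_Icc_succ_top (by omega)]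
      have hn0 : (0 : ℝ) < n := by positivity
      have : 1 / ((n + 1 : ℕ) : ℝ) ^ 2 ≤ 1 / n - 1 / ((n + 1 : ℕ) : ℝ) := by
        push_cast
        rw [div_sub_div _ _ hn0.ne' (by positivity), div_le_div_iff₀ (by positivity) (by positivity)]
        nlinarith only [hn0]
      linarith only [ih, this]
  have h5 := h4 y (by omega)
  have : (0 : ℝ) ≤ 1 / y := by positivity
  linarith only [h5, this]

theorem rough_count : ∃ C : ℝ, 0 < C ∧ ∀ (P J : ℕ), 2 ≤ P → ∀ y : ℕ,
    ((rgh P J y).card : ℝ) ≤ C * (Real.log P / Real.log ((P : ℝ) * 2 ^ J)) * y + P * 2 ^ J := by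
  classical
  obtain ⟨C2, hC2, hup⟩ := rough_upper
  refine ⟨(Real.log 4 + 5) * Real.exp (C2 + 6), ?_, ?_⟩
  · have := Real.log_nonneg (show (1 : ℝ) ≤ 4 by norm_num)
    positivity
  intro P J hP y
  have hPZ : P ≤ P * 2 ^ J := Nat.le_mul_of_pos_right P (by positivity)
  have hlP : (0 : ℝ) < Real.log P := Real.log_pos (by exact_mod_cast hP)
  have hZr : (P : ℝ) * 2 ^ J = ((P * 2 ^ J : ℕ) : ℝ) := by push_cast; ring
  rw [hZr]
  set Z := P * 2 ^ J with hZ
  have hlZ : Real.log P ≤ Real.log Z :=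
    Real.log_le_log (by positivity) (by exact_mod_cast hPZ)
  have hlZ0 : 0 < Real.log Z := lt_of_lt_of_le hlP hlZ
  have hl4 := Real.log_nonneg (show (1 : ℝ) ≤ 4 by norm_num)
  rcases Nat.lt_or_ge y Z with hyZ | hyZ
  · have h1 : ((rgh P J y).card : ℝ) ≤ y := by
      have : (rgh P J y).card ≤ y := by
        unfold rgh
        refine (Finset.card_filter_le _ _).trans ?_
        simp
      exact_mod_cast this
    have h2 : (y : ℝ) ≤ Z := by exact_mod_cast hyZ.le
    have h3 : 0 ≤ (Real.log 4 + 5) * Real.exp (C2 + 6) * (Real.log P / Real.log Z) * y := by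
      positivity
    linarith only [h1, h2, h3]
  · have hy2 : 2 ≤ y := by omega
    have hly : 0 < Real.log y := Real.log_pos (by exact_mod_cast (by omega : 1 < y))
    have h1 := rough_HT P J y hy2
    have h2 := rough_Euler P J y hy2
    have h3 := hup y hy2
    have h4 := rough_lower P Z hP hPZ
    have h5 : ∑ p ∈ ((Icc 1 y).filter Nat.Prime).filter (fun p => ¬ (P < p ∧ p ≤ P * 2 ^ J)),
        (1 : ℝ) / p + ∑ p ∈ (Ioc P Z).filter Nat.Prime, (1 : ℝ) / p =
        ∑ p ∈ (Icc 1 y).filter Nat.Prime, (1 : ℝ) / p := by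
      rw [← Finset.sum_filter_add_sum_filter_not ((Icc 1 y).filter Nat.Prime)
        (fun p => P < p ∧ p ≤ P * 2 ^ J), add_comm]
      congr 1
      apply Finset.sum_congr _ (fun _ _ => rfl)
      ext p
      rw [mem_filter, mem_filter, mem_filter, mem_Ioc, mem_Icc]
      constructor
      · rintro ⟨⟨h, h'⟩, hp⟩
        exact ⟨⟨⟨hp.one_lt.le, h'.trans hyZ⟩, hp⟩, h, h'⟩
      · rintro ⟨⟨_, hp⟩, h, h'⟩
        exact ⟨⟨h, h'⟩, hp⟩
    have h6 : ∑ m ∈ rgh P J y, (1 : ℝ) / m ≤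
        Real.exp (C2 + 6) * (Real.log y * (Real.log P / Real.log Z)) := by
      refine h2.trans ?_
      have e1 : Real.log y * (Real.log P / Real.log Z) =
          Real.exp (Real.log (Real.log y) - Real.log (Real.log Z / Real.log P)) := by
        rw [Real.exp_sub, Real.exp_log hly, Real.exp_log (by positivity)]
        field_simp
      rw [e1, ← Real.exp_add]
      apply Real.exp_le_exp.2
      linarith only [h3, h4, h5]
    have h7 : Real.log y * ((rgh P J y).card : ℝ) ≤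
        Real.log y * ((Real.log 4 + 5) * Real.exp (C2 + 6) * (Real.log P / Real.log Z) * y) := by
      refine h1.trans ?_
      have : (Real.log 4 + 5) * (y : ℝ) * ∑ m ∈ rgh P J y, (1 : ℝ) / m ≤
          (Real.log 4 + 5) * (y : ℝ) *
            (Real.exp (C2 + 6) * (Real.log y * (Real.log P / Real.log Z))) :=
        mul_le_mul_of_nonneg_left h6 (by positivity)
      refine this.trans (le_of_eq ?_)
      ring
    have h8 := le_of_mul_le_mul_left h7 hly
    have h9 : (0 : ℝ) ≤ P * 2 ^ J := by positivity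
    linarith only [h8]

end Pool.Agent.H35.W

end

section

/-!
# VK RCnt: counting rough numbers

`rcnt`: `n` coprime to `y#` has no prime factor in `(2, 2^{J+1}]` if `2^{J+1} ≤ y`, so the set is contained in `H35.W.rgh 2 J u`; choose `J` maximal with
`2^{J+1} ≤ √y` (for small `y` the trivial bound `u ≤ C u/log y`): `rough_count`: `≤ C (log 2/log 2^{J+1}) u + 2^{J+1} ≤ C' u/log y + √y`, and `√y ≤ 3 u/log y` for `u ≥ y`.
`rnear`: partial summation: `∑_{y<n≤N} 1_{rough}/n ≤ A(N)/N + ∑_{y<n<N} A(n)/(n(n+1)) ≤ C/log y + (C/log y)(1 + log N)`, and `(log n)^k ≤ (log N)^k`.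
`rzeta`: `∑_{n > y, rough} n^{-σ}`: partial summation: every finite sum up to `N` is `≤ C/log y (1 + ∑_n σ n^{-σ}) ≤ C'/((σ-1) log y)`.
-/

set_option autoImplicit false

namespace Pool.Agent.H97.VK

open Finset

private theorem RCnt_sub (y J u : ℕ) (hJ : 2 * 2 ^ J ≤ y) :
    (Icc 1 u).filter (fun n => n.Coprime (primorial y)) ⊆ Pool.Agent.H35.W.rgh 2 J u := by
  classical
  intro n hn
  rw [mem_filter] at hn
  unfold Pool.Agent.H35.W.rgh
  rw [mem_filter]
  refine ⟨hn.1, ?_⟩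
  intro i hi p hp hpn
  unfold Pool.Agent.H35.W.pb at hp
  rw [mem_filter, mem_Ioc] at hp
  obtain ⟨⟨_, hp2⟩, hpp⟩ := hp
  have h1 : 2 ^ (i + 1) ≤ 2 ^ J := Nat.pow_le_pow_right (by norm_num) (by omega)
  have h2 : p ≤ y := by
    rw [pow_succ] at h1
    omega
  have h3 : p ∣ primorial y := (Nat.Prime.dvd_primorial_iff hpp).2 h2
  have h4 : p ∣ Nat.gcd n (primorial y) := Nat.dvd_gcd hpn h3
  rw [hn.2] at h4
  exact hpp.one_lt.ne' (Nat.dvd_one.1 h4)

theorem rcnt : ∃ C : ℝ, 1 ≤ C ∧ ∀ y u : ℕ, 2 ≤ y → y ≤ u →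
    (((Icc 1 u).filter (fun n => n.Coprime (primorial y))).card : ℝ) ≤ C * u / Real.log y := by
  obtain ⟨C1, hC1, hr⟩ := Pool.Agent.H35.W.rough_count
  refine ⟨4 * C1 + 4, by linarith only [hC1], ?_⟩
  intro y u hy hyu
  have hy1 : (1 : ℝ) < y := by exact_mod_cast (by omega : 1 < y)
  have hly : 0 < Real.log y := Real.log_pos hy1
  have hu0 : (0 : ℝ) ≤ u := Nat.cast_nonneg _
  rw [le_div_iff₀ hly]
  have hl2 : Real.log 2 ≤ 1 := by
    have := Real.log_two_lt_d9
    linarith only [this]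
  rcases lt_or_ge y 16 with h16 | h16
  · have h1 : (((Icc 1 u).filter (fun n => n.Coprime (primorial y))).card : ℝ) ≤ u := by
      have h2 := card_filter_le (Icc 1 u) (fun n => n.Coprime (primorial y))
      rw [Nat.card_Icc] at h2
      exact_mod_cast (by omega)
    have h3 : Real.log y ≤ 4 := by
      have h4 : Real.log y ≤ Real.log ((2 : ℝ) ^ 4) := by
        apply Real.log_le_log (by linarith only [hy1])
        have : (y : ℝ) ≤ 16 := by exact_mod_cast h16.le
        linarith only [this]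
      rw [Real.log_pow] at h4
      push_cast at h4
      linarith only [hl2, h4]
    calc (((Icc 1 u).filter (fun n => n.Coprime (primorial y))).card : ℝ) * Real.log y ≤ u * 4 :=
          mul_le_mul h1 h3 hly.le hu0
      _ ≤ (4 * C1 + 4) * u := by nlinarith only [hC1]
  · set s := Nat.sqrt y with hs
    have hs4 : 4 ≤ s := by
      rw [hs, Nat.le_sqrt]
      omega
    have hss : s * s ≤ y := Nat.sqrt_le y
    have hys : y < (s + 1) * (s + 1) := Nat.lt_succ_sqrt y
    set e := Nat.log 2 s with he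
    have he2 : 2 ≤ e := by
      rw [he]
      exact (Nat.le_log_iff_pow_le (by norm_num) (by omega)).2 (by omega)
    have ht1 : 2 ^ e ≤ s := Nat.pow_log_le_self 2 (by omega)
    have ht2 : s < 2 ^ (e + 1) := Nat.lt_pow_succ_log_self (by norm_num) s
    set t := 2 ^ e with ht
    have ht4 : 4 ≤ t := by
      calc 4 = 2 ^ 2 := by norm_num
        _ ≤ 2 ^ e := Nat.pow_le_pow_right (by norm_num) he2
    rw [pow_succ] at ht2
    have hst : s + 1 ≤ 2 * t := by omega
    have hyt : y ≤ t ^ 4 := by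
      have h1 : (s + 1) * (s + 1) ≤ 2 * t * (2 * t) := Nat.mul_le_mul hst hst
      have h2 : 2 * t * (2 * t) ≤ t ^ 4 := by
        have h3 : 4 ≤ t ^ 2 := by nlinarith only [h16, hys, h1]
        calc 2 * t * (2 * t) = 4 * t ^ 2 := by ring
          _ ≤ t ^ 2 * t ^ 2 := Nat.mul_le_mul_right _ h3
          _ = t ^ 4 := by ring
      omega
    obtain ⟨J, hJ⟩ : ∃ J, e = J + 1 := ⟨e - 1, by omega⟩
    have hJt : 2 * 2 ^ J = t := by
      rw [ht, hJ, pow_succ]
      ring
    have hsy : s ≤ y := by nlinarith only [h16, hss]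
    have h1 : (((Icc 1 u).filter (fun n => n.Coprime (primorial y))).card : ℝ) ≤
        ((Pool.Agent.H35.W.rgh 2 J u).card : ℝ) := by
      exact_mod_cast card_le_card (RCnt_sub y J u (by omega))
    have h2 := hr 2 J le_rfl u
    have hJr : ((2 : ℕ) : ℝ) * 2 ^ J = t := by
      rw [← hJt]
      push_cast
      ring
    rw [hJr] at h2
    have htr : (4 : ℝ) ≤ t := by exact_mod_cast ht4
    have hlt : 0 < Real.log t := Real.log_pos (by linarith only [htr])
    have hlyt : Real.log y ≤ 4 * Real.log t := by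
      have h3 : Real.log y ≤ Real.log ((t : ℝ) ^ 4) := by
        apply Real.log_le_log (by linarith only [hy1])
        exact_mod_cast hyt
      rw [Real.log_pow] at h3
      exact_mod_cast h3
    have hlt1 : Real.log t ≤ t := by
      have := Real.log_le_sub_one_of_pos (show (0 : ℝ) < t by linarith only [htr])
      linarith only [this]
    have hts : (t : ℝ) ≤ s := by exact_mod_cast ht1
    have hssr : (s : ℝ) * s ≤ u := by exact_mod_cast hss.trans hyu
    have hl20 : 0 ≤ Real.log ((2 : ℕ) : ℝ) := Real.log_natCast_nonneg 2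
    have hl2' : Real.log ((2 : ℕ) : ℝ) ≤ 1 := by exact_mod_cast hl2
    have a1 : Real.log ((2 : ℕ) : ℝ) / Real.log t * Real.log y ≤ 4 := by
      rw [div_mul_eq_mul_div, div_le_iff₀ hlt]
      calc Real.log ((2 : ℕ) : ℝ) * Real.log y ≤ 1 * (4 * Real.log t) :=
            mul_le_mul hl2' hlyt hly.le (by norm_num)
        _ = 4 * Real.log t := one_mul _
    have a2 : (t : ℝ) * Real.log y ≤ 4 * u := by
      calc (t : ℝ) * Real.log y ≤ s * (4 * s) :=
            mul_le_mul hts (by linarith only [hlyt, hlt1, hts]) hly.le (Nat.cast_nonneg _)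
        _ = 4 * (s * s) := by ring
        _ ≤ 4 * u := by linarith only [hssr]
    calc (((Icc 1 u).filter (fun n => n.Coprime (primorial y))).card : ℝ) * Real.log y ≤
          (C1 * (Real.log ((2 : ℕ) : ℝ) / Real.log t) * u + t) * Real.log y :=
          mul_le_mul_of_nonneg_right (h1.trans h2) hly.le
      _ = C1 * u * (Real.log ((2 : ℕ) : ℝ) / Real.log t * Real.log y) + t * Real.log y := by ring
      _ ≤ C1 * u * 4 + 4 * u :=
          add_le_add (mul_le_mul_of_nonneg_left a1 (by positivity)) a2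
      _ = (4 * C1 + 4) * u := by ring

/-- partial summation -/
private theorem RCnt_abel (a f A : ℕ → ℝ) (B : ℝ) (y N : ℕ) (hyN : y ≤ N)
    (hA : ∀ n, A (n + 1) = A n + a (n + 1)) (hA0 : 0 ≤ A y)
    (hAB : ∀ n, y ≤ n → A n ≤ B * n) (hf0 : ∀ n, y ≤ n → 0 ≤ f n)
    (hf : ∀ n, y ≤ n → f (n + 1) ≤ f n) :
    ∑ n ∈ Ioc y N, a n * f n ≤ B * (y * f y + ∑ n ∈ Ioc y N, f n) := by
  have key : ∑ n ∈ Ioc y N, a n * f n - A N * f N + B * N * f N ≤
      B * (y * f y + ∑ n ∈ Ioc y N, f n) := by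
    induction N, hyN using Nat.le_induction with
    | base =>
      rw [Ioc_self, sum_empty, sum_empty]
      have := mul_nonneg hA0 (hf0 y le_rfl)
      nlinarith only [this]
    | succ N hN ih =>
      have e1 : ∑ n ∈ Ioc y (N + 1), a n * f n =
          ∑ n ∈ Ioc y N, a n * f n + a (N + 1) * f (N + 1) := Finset.sum_Ioc_succ_top hN _
      have e2 : ∑ n ∈ Ioc y (N + 1), f n = ∑ n ∈ Ioc y N, f n + f (N + 1) :=
        Finset.sum_Ioc_succ_top hN _
      rw [e1, e2, hA N]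
      have h1 : A N * (f N - f (N + 1)) ≤ B * N * (f N - f (N + 1)) :=
        mul_le_mul_of_nonneg_right (hAB N hN) (by linarith only [hf, hN, hf N hN])
      push_cast
      nlinarith only [ih, h1]
  have h1 : A N * f N ≤ B * N * f N := mul_le_mul_of_nonneg_right (hAB N hyN) (hf0 N hyN)
  linarith only [key, h1]

private theorem RCnt_sum (C : ℝ) (y N : ℕ) (hy : 2 ≤ y) (hyN : y ≤ N)
    (hC : ∀ u : ℕ, y ≤ u →
      (((Icc 1 u).filter (fun n => n.Coprime (primorial y))).card : ℝ) ≤ C * u / Real.log y)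
    (f : ℕ → ℝ) (hf0 : ∀ n, y ≤ n → 0 ≤ f n) (hf : ∀ n, y ≤ n → f (n + 1) ≤ f n) :
    ∑ n ∈ (Ioc y N).filter (fun n => n.Coprime (primorial y)), f n ≤
      C / Real.log y * (y * f y + ∑ n ∈ Ioc y N, f n) := by
  have h := RCnt_abel (fun n => if n.Coprime (primorial y) then 1 else 0) f
    (fun u => (((Icc 1 u).filter (fun n => n.Coprime (primorial y))).card : ℝ))
    (C / Real.log y) y N hyN ?_ (Nat.cast_nonneg _) ?_ hf0 hf
  · refine le_trans (le_of_eq ?_) h
    rw [sum_filter]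
    refine sum_congr rfl fun n _ => ?_
    split_ifs <;> simp
  · intro n
    simp only [card_filter]
    push_cast
    exact Finset.sum_Icc_succ_top (by omega) _
  · intro n hn
    refine (hC n hn).trans (le_of_eq ?_)
    ring

private theorem RCnt_log (n : ℕ) (hn : 1 ≤ n) :
    1 / ((n : ℝ) + 1) ≤ Real.log ((n : ℝ) + 1) - Real.log n := by
  have h0 : (0 : ℝ) < n := by exact_mod_cast hn
  rw [← Real.log_div (by positivity) (by positivity)]
  have h1 := Real.one_sub_inv_le_log_of_pos (show (0 : ℝ) < (n + 1) / n by positivity)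
  have h2 : 1 - ((n + 1 : ℝ) / n)⁻¹ = 1 / ((n : ℝ) + 1) := by
    field_simp
    ring
  linarith only [h1, h2]

theorem rnear : ∃ C : ℝ, 1 ≤ C ∧ ∀ k y N : ℕ, 2 ≤ y → y ≤ N →
    ∑ n ∈ (Ioc y N).filter (fun n => n.Coprime (primorial y)), Real.log n ^ k / (n : ℝ) ≤
      C * (1 + Real.log N) * Real.log N ^ k / Real.log y := by
  obtain ⟨C, hC1, hC⟩ := rcnt
  refine ⟨C, hC1, ?_⟩
  intro k y N hy hyN
  have hy0 : (0 : ℝ) < y := by exact_mod_cast (by omega : 0 < y)
  have hy1 : (1 : ℝ) < y := by exact_mod_cast (by omega : 1 < y)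
  have hly : 0 < Real.log y := Real.log_pos hy1
  have hN0 : (0 : ℝ) < N := by exact_mod_cast (by omega : 0 < N)
  have hlN : 0 ≤ Real.log N := Real.log_natCast_nonneg N
  have h1 : ∑ n ∈ (Ioc y N).filter (fun n => n.Coprime (primorial y)), Real.log n ^ k / (n : ℝ) ≤
      ∑ n ∈ (Ioc y N).filter (fun n => n.Coprime (primorial y)), Real.log N ^ k * (1 / (n : ℝ)) := by
    refine sum_le_sum fun n hn => ?_
    rw [mem_filter, mem_Ioc] at hn
    have hn0 : (0 : ℝ) < n := by exact_mod_cast (by omega : 0 < n)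
    have h2 : Real.log n ≤ Real.log N := Real.log_le_log hn0 (by exact_mod_cast hn.1.2)
    have h3 : Real.log n ^ k ≤ Real.log N ^ k :=
      pow_le_pow_left₀ (Real.log_natCast_nonneg n) h2 k
    rw [div_eq_mul_one_div]
    exact mul_le_mul_of_nonneg_right h3 (by positivity)
  refine h1.trans ?_
  rw [← mul_sum]
  have h2 := RCnt_sum C y N hy hyN (hC y · hy) (fun n => 1 / (n : ℝ))
    (fun n hn => by positivity) (fun n hn => by
      have hn0 : (0 : ℝ) < n := by exact_mod_cast (by omega : 0 < n)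
      push_cast
      exact one_div_le_one_div_of_le hn0 (by linarith only))
  have h3 : ∑ n ∈ Ioc y N, (1 / (n : ℝ)) ≤ Real.log N - Real.log y := by
    induction N, hyN using Nat.le_induction with
    | base => simp
    | succ M hM ih =>
      have hM0 : (0 : ℝ) < M := by exact_mod_cast (by omega : 0 < M)
      have e2 : ∑ n ∈ Ioc y (M + 1), (1 / (n : ℝ)) =
          ∑ n ∈ Ioc y M, (1 / (n : ℝ)) + 1 / ((M + 1 : ℕ) : ℝ) := Finset.sum_Ioc_succ_top hM _
      have ih' : ∑ n ∈ Ioc y M, (1 / (n : ℝ)) ≤ Real.log M - Real.log y := by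
        clear ih h1 h2 e2 hlN hN0
        induction M, hM using Nat.le_induction with
        | base => simp
        | succ M' hM' ih'' =>
          have hM0' : (0 : ℝ) < M' := by exact_mod_cast (by omega : 0 < M')
          have e2 : ∑ n ∈ Ioc y (M' + 1), (1 / (n : ℝ)) =
              ∑ n ∈ Ioc y M', (1 / (n : ℝ)) + 1 / ((M' + 1 : ℕ) : ℝ) :=
            Finset.sum_Ioc_succ_top hM' _
          rw [e2]
          have := RCnt_log M' (by omega)
          have := ih'' hM0'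
          push_cast
          linarith
      rw [e2]
      have := RCnt_log M (by omega)
      push_cast
      linarith only [ih', this]
  have e3 : (y : ℝ) * (1 / y) = 1 := by field_simp
  rw [e3] at h2
  have hCl : 0 ≤ C / Real.log y := by positivity
  calc Real.log N ^ k * ∑ n ∈ (Ioc y N).filter (fun n => n.Coprime (primorial y)), (1 / (n : ℝ)) ≤
        Real.log N ^ k * (C / Real.log y * (1 + Real.log N)) := by
        refine mul_le_mul_of_nonneg_left (h2.trans ?_) (by positivity)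
        exact mul_le_mul_of_nonneg_left (by linarith only [hly, h3]) hCl
    _ = _ := by ring

private theorem RCnt_pow (σ : ℝ) (h1 : 1 < σ) (n : ℕ) (hn : 1 ≤ n) :
    (σ - 1) * ((n : ℝ) + 1) ^ (-σ) ≤ (n : ℝ) ^ (1 - σ) - ((n : ℝ) + 1) ^ (1 - σ) := by
  have h0 : (0 : ℝ) < n := by exact_mod_cast hn
  have hn1 : (0 : ℝ) < (n : ℝ) + 1 := by linarith only [h0]
  have e1 : (n : ℝ) ^ (1 - σ) = ((n : ℝ) + 1) ^ (1 - σ) *
      Real.exp ((σ - 1) * (Real.log ((n : ℝ) + 1) - Real.log n)) := by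
    rw [Real.rpow_def_of_pos h0, Real.rpow_def_of_pos hn1, ← Real.exp_add]
    congr 1
    ring
  have e2 : ((n : ℝ) + 1) ^ (-σ) = ((n : ℝ) + 1) ^ (1 - σ) * (1 / ((n : ℝ) + 1)) := by
    rw [one_div, ← Real.rpow_neg_one ((n : ℝ) + 1), ← Real.rpow_add hn1]
    congr 1
    ring
  have h2 := RCnt_log n hn
  have h3 := Real.add_one_le_exp ((σ - 1) * (Real.log ((n : ℝ) + 1) - Real.log n))
  have h4 : (σ - 1) * (1 / ((n : ℝ) + 1)) ≤ (σ - 1) * (Real.log ((n : ℝ) + 1) - Real.log n) :=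
    mul_le_mul_of_nonneg_left h2 (by linarith only [h1])
  have hp : 0 < ((n : ℝ) + 1) ^ (1 - σ) := Real.rpow_pos_of_pos hn1 _
  rw [e1, e2]
  nlinarith only [h3, hp, h4]

theorem rzeta : ∃ C : ℝ, 1 ≤ C ∧ ∀ (y N : ℕ) (σ : ℝ), 2 ≤ y → y ≤ N → 1 < σ → σ ≤ 2 →
    ∑ n ∈ (Ioc y N).filter (fun n => n.Coprime (primorial y)), (n : ℝ) ^ (-σ) ≤
      C / ((σ - 1) * Real.log y) := by
  obtain ⟨C, hC1, hC⟩ := rcnt
  refine ⟨2 * C, by linarith only [hC1], ?_⟩
  intro y N σ hy hyN hσ1 hσ2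
  have hy0 : (0 : ℝ) < y := by exact_mod_cast (by omega : 0 < y)
  have hy1 : (1 : ℝ) < y := by exact_mod_cast (by omega : 1 < y)
  have hly : 0 < Real.log y := Real.log_pos hy1
  have hs : 0 < σ - 1 := by linarith only [hσ1]
  have h2 := RCnt_sum C y N hy hyN (hC y · hy) (fun n => (n : ℝ) ^ (-σ))
    (fun n hn => Real.rpow_nonneg (Nat.cast_nonneg _) _) (fun n hn => by
      have hn0 : (0 : ℝ) < n := by exact_mod_cast (by omega : 0 < n)
      push_cast
      exact Real.rpow_le_rpow_of_nonpos hn0 (by linarith only) (by linarith only [hσ1]))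
  have h3 : (σ - 1) * ∑ n ∈ Ioc y N, (n : ℝ) ^ (-σ) ≤ (y : ℝ) ^ (1 - σ) - (N : ℝ) ^ (1 - σ) := by
    clear h2
    induction N, hyN using Nat.le_induction with
    | base => simp
    | succ M hM ih =>
      have e2 : ∑ n ∈ Ioc y (M + 1), (n : ℝ) ^ (-σ) =
          ∑ n ∈ Ioc y M, (n : ℝ) ^ (-σ) + ((M + 1 : ℕ) : ℝ) ^ (-σ) :=
        Finset.sum_Ioc_succ_top hM _
      rw [e2, mul_add]
      have := RCnt_pow σ hσ1 M (by omega)
      push_cast
      linarith only [ih, this]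
  have hyp : (y : ℝ) ^ (1 - σ) ≤ 1 := Real.rpow_le_one_of_one_le_of_nonpos hy1.le (by linarith only [hσ1])
  have hNp : 0 ≤ (N : ℝ) ^ (1 - σ) := Real.rpow_nonneg (Nat.cast_nonneg _) _
  have e1 : (y : ℝ) * (y : ℝ) ^ (-σ) = (y : ℝ) ^ (1 - σ) := by
    rw [← Real.rpow_one_add' hy0.le (by linarith only [hσ1])]
    congr 1
  rw [e1] at h2
  have h4 : ∑ n ∈ Ioc y N, (n : ℝ) ^ (-σ) ≤ 1 / (σ - 1) := by
    rw [le_div_iff₀ hs]
    linarith only [h3, hyp, hNp]
  have h5 : 1 ≤ 1 / (σ - 1) := by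
    rw [le_div_iff₀ hs]
    linarith only [hσ2]
  have hCl : 0 ≤ C / Real.log y := by positivity
  refine h2.trans ?_
  calc C / Real.log y * ((y : ℝ) ^ (1 - σ) + ∑ n ∈ Ioc y N, (n : ℝ) ^ (-σ)) ≤
        C / Real.log y * (2 * (1 / (σ - 1))) :=
        mul_le_mul_of_nonneg_left (by linarith only [hyp, h4, h5]) hCl
    _ = 2 * C / ((σ - 1) * Real.log y) := by
        field_simp

end Pool.Agent.H97.VK

end

section

/-!
# VKT (H97/VK of helper97 with the parameter `T0.t` in place of `9/10`, `t1` in place of `19/20`) Up: upper bounds for the sieved `L`-functions and their derivatives, and for the sieved zeta function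

`lk_up`.  `s = σ + iτ`, `t = -τ/(2π)`: `n^{-s} = n^{-σ} ee(t log n)`.  `rtw (k+2) B` gives `D`; `N = ⌈exp(D LL L9)⌉₊`.
The series `Lk (qm x d) (ch x χ) k s` (summable, `Lk_summable`) is the limit of its partial sums; terms: `n = 1`: `≤ 1`; `1 < n ≤ y`: zero (`ch_apply`, `cop_gt`);
`y < n ≤ N`: `≤ ∑_{rough} (log n)^k/n ≤ C (1+log N)(log N)^k/log y ≤ C' L9^k LL^{k+1}` (`rnear`, `log N ≤ D LL L9 + 1`, `log y ≥ L9/2`);
`n > N`: `tail_abel k` with `f n = ch(n) ee(t log n)`, `δ = L^{-k-2}`: `≤ C L^{-k-2} (4L)^{k+1} ≤ 1`.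
`zy_up`: terms `n = 1`, then `rzeta`: `Lk (qm x d) 1 0 σ` is at most `1 + C/((σ-1) log y)`; a number coprime to `qm x d` is coprime to `y#`.
-/

set_option autoImplicit false

namespace Pool.Agent.H76.VKT

open Finset
open Pool.Agent.H91.EHA
open Pool.Agent.H97.VK (tail_abel rnear rzeta)

private theorem Up_lseries (f : ℕ → ℂ) (s : ℂ) (hs : LSeriesSummable f s) (b : ℝ) (N0 : ℕ)
    (h : ∀ M : ℕ, N0 ≤ M → ‖∑ n ∈ Icc 1 M, LSeries.term f s n‖ ≤ b) : ‖LSeries f s‖ ≤ b := by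
  have h1 : Filter.Tendsto (fun n : ℕ => ∑ i ∈ range n, LSeries.term f s i) Filter.atTop
      (nhds (LSeries f s)) := hs.hasSum.tendsto_sum_nat
  refine le_of_tendsto h1.norm ?_
  refine Filter.eventually_atTop.2 ⟨N0 + 1, fun M' hM' => ?_⟩
  obtain ⟨M, rfl⟩ : ∃ M, M' = M + 1 := ⟨M' - 1, by omega⟩
  have e : Ico (0 + 1) (M + 1) = Icc 1 M := by
    ext n
    simp only [mem_Ico, mem_Icc]
    omega
  rw [Finset.range_eq_Ico, Finset.sum_eq_sum_Ico_succ_bot (Nat.succ_pos M), LSeries.term_zero,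
    zero_add, e]
  exact h M (by omega)

private theorem Up_cpow (n : ℕ) (hn : 1 ≤ n) (s : ℂ) :
    ((n : ℂ) ^ s)⁻¹ = (((n : ℝ) ^ (-s.re) : ℝ) : ℂ) *
      Pool.Agent.H91.PK.ee (-s.im / (2 * Real.pi) * Real.log n) := by
  have hn0 : (n : ℂ) ≠ 0 := by exact_mod_cast (show n ≠ 0 by omega)
  have hnr : (0 : ℝ) < n := by exact_mod_cast hn
  have hpi : (Real.pi : ℂ) ≠ 0 := by exact_mod_cast Real.pi_ne_zero
  rw [← Complex.cpow_neg, Complex.cpow_def_of_ne_zero hn0, Real.rpow_def_of_pos hnr,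
    Complex.ofReal_exp, Pool.Agent.H91.PK.ee, ← Complex.exp_add, ← Complex.natCast_log]
  congr 1
  push_cast
  have h : s = (s.re : ℂ) + (s.im : ℂ) * Complex.I := (Complex.re_add_im s).symm
  field_simp
  conv_lhs => rw [h]
  ring

private theorem Up_term (k n : ℕ) (hn : 1 ≤ n) (c s : ℂ) (f : ℕ → ℂ)
    (hf : f n = ((Real.log n : ℝ) : ℂ) ^ k * c) :
    LSeries.term f s n = (c * Pool.Agent.H91.PK.ee (-s.im / (2 * Real.pi) * Real.log n)) *
      ((Real.log n ^ k * (n : ℝ) ^ (-s.re) : ℝ) : ℂ) := by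
  rw [LSeries.term_of_ne_zero (by omega), hf, div_eq_mul_inv, Up_cpow n hn s]
  push_cast
  ring

private theorem Up_rpow (n : ℕ) (hn : 1 ≤ n) (σ : ℝ) (hσ : 1 ≤ σ) :
    (n : ℝ) ^ (-σ) ≤ 1 / (n : ℝ) := by
  have hn1 : (1 : ℝ) ≤ n := by exact_mod_cast hn
  have h : (n : ℝ) ^ (-σ) ≤ (n : ℝ) ^ (-1 : ℝ) := Real.rpow_le_rpow_of_exponent_le hn1 (by linarith only [hσ])
  rw [Real.rpow_neg_one] at h
  rw [one_div]
  exact h

/-- a sum over rough numbers and `1` -/
private theorem Up_split (y N : ℕ) (hy : 2 ≤ y) (hyN : y ≤ N) (F : ℕ → ℝ) (h1 : F 1 ≤ 1)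
    (h0 : ∀ n, 1 ≤ n → ¬ n.Coprime (primorial y) → F n = 0) :
    ∑ n ∈ Icc 1 N, F n ≤ 1 + ∑ n ∈ (Ioc y N).filter (fun n => n.Coprime (primorial y)), F n := by
  have hd : Disjoint ({1} : Finset ℕ) ((Ioc y N).filter (fun n => n.Coprime (primorial y))) := by
    rw [disjoint_left]
    intro n hn1 hn2
    rw [mem_singleton] at hn1
    rw [mem_filter, mem_Ioc] at hn2
    omega
  have h2 : ∑ n ∈ Icc 1 N, F n =
      ∑ n ∈ ({1} : Finset ℕ) ∪ (Ioc y N).filter (fun n => n.Coprime (primorial y)), F n := by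
    symm
    refine Finset.sum_subset ?_ ?_
    · intro n hn
      rw [mem_union, mem_singleton, mem_filter, mem_Ioc] at hn
      rw [mem_Icc]
      omega
    · intro n hn hn2
      rw [mem_Icc] at hn
      rw [mem_union, mem_singleton, mem_filter, mem_Ioc] at hn2
      push Not at hn2
      refine h0 n hn.1 fun hc => ?_
      rcases cop_gt y n hy hc with h | h
      · exact hn2.1 h
      · exact hn2.2 ⟨h, hn.2⟩ hc
  rw [h2, Finset.sum_union hd, Finset.sum_singleton]
  linarith only [h1]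

theorem lk_up_h [T0] (h_rtw : rtw_P)  (k B : ℕ) : ∃ C : ℝ, 1 ≤ C ∧ ∃ K' x0 : ℕ, ∀ x : ℕ, x0 ≤ x → ∀ (d : ℕ) (χ : DirichletCharacter ℂ d) (s : ℂ),
    1 ≤ d → (d : ℝ) ≤ Real.log x ^ B → 1 + 1 / (4 * Real.log x) ≤ s.re → s.re ≤ 2 →
    Real.log x ^ K' ≤ |s.im| → |s.im| ≤ 6 * (x : ℝ) ^ (3 : ℕ) →
    ‖Lk (qm x d) (ch x χ) k s‖ ≤ C * L9 x ^ k * LL x ^ (k + 1) := by
  obtain ⟨K0, D, x1, hx1⟩ := h_rtw (k + 2) B
  obtain ⟨C1, hC1, hr⟩ := rnear
  obtain ⟨C2, hC2, ht⟩ := tail_abel k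
  obtain ⟨x2, hx2⟩ := yx_ev
  have ev3 : ∀ᶠ x : ℕ in Filter.atTop, (7 : ℝ) ≤ Real.log x :=
    (Real.tendsto_log_atTop.comp tendsto_natCast_atTop_atTop).eventually_ge_atTop 7
  obtain ⟨x3, hx3⟩ := Filter.eventually_atTop.1 ev3
  refine ⟨1 + 2 * C1 * ((D : ℝ) + 3) ^ (k + 1) + C2 * 4 ^ (k + 1), ?_, K0 + 1,
    max x1 (max x2 x3), ?_⟩
  · have h1 : 0 ≤ 2 * C1 * ((D : ℝ) + 3) ^ (k + 1) := by positivity
    have h2 : 0 ≤ C2 * (4 : ℝ) ^ (k + 1) := by positivity
    linarith only [h1, h2]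
  intro x hx d χ s hd hdB hs1 hs2 hτ1 hτ2
  have hxa : x1 ≤ x := (le_max_left _ _).trans hx
  have hxb : x2 ≤ x := (le_max_left _ _).trans ((le_max_right _ _).trans hx)
  have hxc : x3 ≤ x := (le_max_right _ _).trans ((le_max_right _ _).trans hx)
  obtain ⟨hy3, hly1, hly2, hLL, hL9, hL1, hyx⟩ := hx2 x hxb
  have hL7 := hx3 x hxc
  set L := Real.log x with hLdef
  set y := Yx x with hydef
  set σ := s.re with hσdef
  have hL0 : 0 < L := by linarith only [hL7]
  have hσ1 : 1 < σ := by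
    have : 0 < 1 / (4 * L) := by positivity
    linarith only [hs1, this]
  have hσ4 : 1 / (σ - 1) ≤ 4 * L := by
    rw [div_le_iff₀ (by linarith only [hσ1])]
    have h1 : 1 / (4 * L) ≤ σ - 1 := by linarith only [hs1]
    rw [div_le_iff₀ (by positivity)] at h1
    linarith only [h1]
  set t : ℝ := -s.im / (2 * Real.pi) with htdef
  have hpi3 := Real.pi_gt_three
  have hpi4 := Real.pi_lt_d2
  have hta : |t| = |s.im| / (2 * Real.pi) := by
    rw [htdef, abs_div, abs_neg, abs_of_pos (show (0 : ℝ) < 2 * Real.pi by positivity)]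
  have ht1 : L ^ K0 ≤ |t| := by
    rw [hta, le_div_iff₀ (by positivity)]
    have h1 : L ^ (K0 + 1) ≤ |s.im| := hτ1
    rw [pow_succ] at h1
    have h2 : L ^ K0 * (2 * Real.pi) ≤ L ^ K0 * L :=
      mul_le_mul_of_nonneg_left (by linarith only [hL7, hpi3, hpi4]) (by positivity)
    linarith only [h1, h2]
  have ht2 : |t| ≤ (x : ℝ) ^ (3 : ℕ) := by
    rw [hta, div_le_iff₀ (by positivity)]
    have h2 : (0 : ℝ) ≤ (x : ℝ) ^ (3 : ℕ) := by positivity
    nlinarith only [hτ2, hpi3, h2]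
  -- the cut-off
  set E : ℝ := ((D : ℝ) + 1) * (LL x * L9 x) with hEdef
  have hP1 : 1 ≤ LL x * L9 x := by nlinarith only [hLL, hL9]
  have hD0 : (0 : ℝ) ≤ D := Nat.cast_nonneg D
  have hE0 : 0 ≤ E := by positivity
  have hE9 : L9 x ≤ E := by
    have h1 : L9 x ≤ LL x * L9 x := by nlinarith only [hLL, hL9]
    have h2 : 1 * (LL x * L9 x) ≤ ((D : ℝ) + 1) * (LL x * L9 x) :=
      mul_le_mul_of_nonneg_right (by linarith only) (by linarith only [hpi3, hpi4, hP1])
    linarith only [h1, h2]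
  set N : ℕ := ⌈Real.exp E⌉₊ with hNdef
  have hNE : Real.exp E ≤ N := Nat.le_ceil _
  have hN1r : (1 : ℝ) ≤ N := (Real.one_le_exp hE0).trans hNE
  have hN1 : 1 ≤ N := by exact_mod_cast hN1r
  have hyN : y ≤ N := by
    have h1 : (y : ℝ) ≤ Real.exp (L9 x) := by
      rw [hydef]
      unfold Yx
      exact Nat.floor_le (Real.exp_pos _).le
    have h2 : (y : ℝ) ≤ N := h1.trans ((Real.exp_le_exp.2 hE9).trans hNE)
    exact_mod_cast h2
  have hlogN : Real.log N ≤ E + 1 := by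
    have h1 : (N : ℝ) < Real.exp E + 1 := Nat.ceil_lt_add_one (Real.exp_pos _).le
    have h2 : (N : ℝ) ≤ Real.exp (E + 1) := by
      rw [Real.exp_add]
      have h3 : (2 : ℝ) ≤ Real.exp 1 := by
        have := Real.add_one_le_exp (1 : ℝ)
        linarith only [this]
      have h4 : (1 : ℝ) ≤ Real.exp E := Real.one_le_exp hE0
      nlinarith only [h1, h4, hpi3, hpi4, hN1r, h3]
    calc Real.log N ≤ Real.log (Real.exp (E + 1)) := Real.log_le_log (by linarith only [hpi3, hpi4, hN1r]) h2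
      _ = E + 1 := Real.log_exp _
  have hlogN0 : 0 ≤ Real.log N := Real.log_nonneg hN1r
  set f : ℕ → ℂ := fun n => ((Real.log n : ℝ) : ℂ) ^ k * ch x χ (n : ZMod (qm x d)) with hfdef
  have hterm : ∀ n : ℕ, 1 ≤ n → LSeries.term f s n =
      (ch x χ (n : ZMod (qm x d)) * Pool.Agent.H91.PK.ee (t * Real.log n)) *
        ((Real.log n ^ k * (n : ℝ) ^ (-σ) : ℝ) : ℂ) := fun n hn => Up_term k n hn _ s f rfl
  unfold Lk
  refine Up_lseries f s (Lk_summable _ _ k s hσ1) _ N fun M hM => ?_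
  -- first part
  have hsplit : ∑ n ∈ Icc 1 M, LSeries.term f s n =
      ∑ n ∈ Icc 1 N, LSeries.term f s n + ∑ n ∈ Ioc N M, LSeries.term f s n := by
    rw [← Finset.sum_union]
    · congr 1
      ext n
      simp only [mem_union, mem_Icc, mem_Ioc]
      omega
    · rw [disjoint_left]
      intro n h1 h2
      rw [mem_Icc] at h1
      rw [mem_Ioc] at h2
      omega
  rw [hsplit]
  have hpart1 : ‖∑ n ∈ Icc 1 N, LSeries.term f s n‖ ≤
      1 + 2 * C1 * ((D : ℝ) + 3) ^ (k + 1) * (L9 x ^ k * LL x ^ (k + 1)) := by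
    refine (norm_sum_le _ _).trans ?_
    have hn1 : ∀ n : ℕ, 1 ≤ n → ‖LSeries.term f s n‖ =
        ‖ch x χ (n : ZMod (qm x d))‖ * (Real.log n ^ k * (n : ℝ) ^ (-σ)) := by
      intro n hn
      have h1 : (0 : ℝ) ≤ Real.log n := Real.log_natCast_nonneg n
      have h2 : (0 : ℝ) ≤ (n : ℝ) ^ (-σ) := Real.rpow_nonneg (Nat.cast_nonneg _) _
      rw [hterm n hn, norm_mul, norm_mul, Pool.Agent.H91.PK.LSa_norm_ee, mul_one, Complex.norm_real,
        Real.norm_eq_abs, abs_of_nonneg (by positivity)]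
    have hle : ∀ n : ℕ, 1 ≤ n → ‖LSeries.term f s n‖ ≤ Real.log n ^ k / (n : ℝ) := by
      intro n hn
      have h1 : (0 : ℝ) ≤ Real.log n := Real.log_natCast_nonneg n
      have h2 : (0 : ℝ) ≤ (n : ℝ) ^ (-σ) := Real.rpow_nonneg (Nat.cast_nonneg _) _
      rw [hn1 n hn]
      calc ‖ch x χ (n : ZMod (qm x d))‖ * (Real.log n ^ k * (n : ℝ) ^ (-σ))
          ≤ 1 * (Real.log n ^ k * (n : ℝ) ^ (-σ)) :=
            mul_le_mul_of_nonneg_right (ch_norm_le x χ _) (by positivity)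
        _ ≤ Real.log n ^ k * (1 / (n : ℝ)) := by
            rw [one_mul]
            exact mul_le_mul_of_nonneg_left (Up_rpow n hn σ hσ1.le) (by positivity)
        _ = Real.log n ^ k / (n : ℝ) := by ring
    refine (Up_split y N (by omega) hyN _ ?_ ?_).trans ?_
    · refine (hle 1 le_rfl).trans ?_
      rw [Nat.cast_one, Real.log_one, div_one]
      exact pow_le_one₀ le_rfl zero_le_one
    · intro n hn hc
      rw [hn1 n hn, ch_apply x hd χ n, if_neg hc, norm_zero, zero_mul]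
    · have h3 : ∑ n ∈ (Ioc y N).filter (fun n => n.Coprime (primorial y)),
          ‖LSeries.term f s n‖ ≤
          ∑ n ∈ (Ioc y N).filter (fun n => n.Coprime (primorial y)), Real.log n ^ k / (n : ℝ) := by
        refine Finset.sum_le_sum fun n hn => ?_
        rw [mem_filter, mem_Ioc] at hn
        exact hle n (by omega)
      have h4 := hr k y N (by omega) hyN
      have h5 : C1 * (1 + Real.log N) * Real.log N ^ k / Real.log y ≤
          2 * C1 * ((D : ℝ) + 3) ^ (k + 1) * (L9 x ^ k * LL x ^ (k + 1)) := by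
        have h6 : 1 + Real.log N ≤ ((D : ℝ) + 3) * (LL x * L9 x) := by
          rw [hEdef] at hlogN
          nlinarith only [hP1, hlogN]
        have h7 : Real.log N ≤ ((D : ℝ) + 3) * (LL x * L9 x) := by linarith only [hpi3, hpi4, hP1, hlogN]
        have hly0 : 0 < Real.log y := by linarith only [hL9, hly2, hpi3, hpi4]
        rw [div_le_iff₀ hly0]
        calc C1 * (1 + Real.log N) * Real.log N ^ k
            ≤ C1 * (((D : ℝ) + 3) * (LL x * L9 x)) * (((D : ℝ) + 3) * (LL x * L9 x)) ^ k := by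
              gcongr
          _ = 2 * C1 * ((D : ℝ) + 3) ^ (k + 1) * (L9 x ^ k * LL x ^ (k + 1)) * (L9 x / 2) := by
              rw [mul_pow, mul_pow]
              ring
          _ ≤ 2 * C1 * ((D : ℝ) + 3) ^ (k + 1) * (L9 x ^ k * LL x ^ (k + 1)) * Real.log y := by
              refine mul_le_mul_of_nonneg_left hly2 ?_
              positivity
      linarith only [h3, h4, h5]
  have hpart2 : ‖∑ n ∈ Ioc N M, LSeries.term f s n‖ ≤ C2 * 4 ^ (k + 1) := by
    have h1 : ∑ n ∈ Ioc N M, LSeries.term f s n = ∑ n ∈ Ioc N M,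
        (ch x χ (n : ZMod (qm x d)) * Pool.Agent.H91.PK.ee (t * Real.log n)) *
        ((Real.log n ^ k * (n : ℝ) ^ (-σ) : ℝ) : ℂ) := by
      refine Finset.sum_congr rfl fun n hn => ?_
      rw [mem_Ioc] at hn
      exact hterm n (by omega)
    rw [h1]
    refine (ht (fun n => ch x χ (n : ZMod (qm x d)) * Pool.Agent.H91.PK.ee (t * Real.log n))
      (1 / L ^ (k + 2)) σ N (by positivity) hσ1 hs2 hN1 ?_ M hM).trans ?_
    · intro u hu
      have h2 : (D : ℝ) * (LL x * L9 x) ≤ Real.log u := by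
        have h3 : Real.exp E ≤ u := hNE.trans (by exact_mod_cast hu)
        have h4 : E ≤ Real.log u := by
          rw [← Real.log_exp E]
          exact Real.log_le_log (Real.exp_pos _) h3
        rw [hEdef] at h4
        nlinarith only [hpi3, hpi4, hP1, h4]
      have h5 := hx1 x hxa d χ t u hd hdB ht1 ht2 h2
      rw [one_div, mul_comm, ← div_eq_mul_inv]
      exact h5
    · calc C2 * (1 / L ^ (k + 2)) * (1 / (σ - 1)) ^ (k + 1)
          ≤ C2 * (1 / L ^ (k + 2)) * (4 * L) ^ (k + 1) := by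
            have h6 : 0 ≤ 1 / (σ - 1) := by
              have : 0 < σ - 1 := by linarith only [hσ1]
              positivity
            gcongr
        _ = C2 * 4 ^ (k + 1) * (1 / L) := by
            rw [mul_pow, show k + 2 = (k + 1) + 1 by ring, pow_succ L (k + 1)]
            field_simp
        _ ≤ C2 * 4 ^ (k + 1) * 1 := by
            refine mul_le_mul_of_nonneg_left ?_ (by positivity)
            rw [div_le_one hL0]
            linarith only [hL7, hpi3, hpi4]
        _ = _ := mul_one _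
  have hX1 : 1 ≤ L9 x ^ k * LL x ^ (k + 1) := by
    have h1 : 1 ≤ L9 x ^ k := one_le_pow₀ hL9
    have h2 : 1 ≤ LL x ^ (k + 1) := one_le_pow₀ hLL
    nlinarith only [h1, h2, hpi3, hpi4]
  have hC24 : 0 ≤ C2 * (4 : ℝ) ^ (k + 1) := by positivity
  calc ‖∑ n ∈ Icc 1 N, LSeries.term f s n + ∑ n ∈ Ioc N M, LSeries.term f s n‖
      ≤ ‖∑ n ∈ Icc 1 N, LSeries.term f s n‖ + ‖∑ n ∈ Ioc N M, LSeries.term f s n‖ :=
        norm_add_le _ _
    _ ≤ (1 + 2 * C1 * ((D : ℝ) + 3) ^ (k + 1) * (L9 x ^ k * LL x ^ (k + 1))) +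
        C2 * 4 ^ (k + 1) := add_le_add hpart1 hpart2
    _ ≤ (1 + 2 * C1 * ((D : ℝ) + 3) ^ (k + 1) + C2 * 4 ^ (k + 1)) *
        (L9 x ^ k * LL x ^ (k + 1)) := by nlinarith only [hX1, hpi3, hpi4, hC24]
    _ = _ := by ring

theorem zy_up [T0] : ∃ C : ℝ, 1 ≤ C ∧ ∃ x0 : ℕ, ∀ x : ℕ, x0 ≤ x → ∀ (d : ℕ) (s : ℂ), 1 ≤ d → 1 < s.re → s.re ≤ 2 →
    ‖Lk (qm x d) 1 0 s‖ ≤ C * (1 + 1 / ((s.re - 1) * L9 x)) := by
  obtain ⟨C1, hC1, hr⟩ := rzeta
  obtain ⟨x2, hx2⟩ := yx_ev
  refine ⟨2 * C1, by linarith only [hC1], x2, ?_⟩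
  intro x hx d s hd hs1 hs2
  obtain ⟨hy3, hly1, hly2, hLL, hL9, hL1, hyx⟩ := hx2 x hx
  set y := Yx x with hydef
  set σ := s.re with hσdef
  set f : ℕ → ℂ := fun n => ((Real.log n : ℝ) : ℂ) ^ 0 *
    (1 : DirichletCharacter ℂ (qm x d)) (n : ZMod (qm x d)) with hfdef
  unfold Lk
  refine Up_lseries f s (Lk_summable _ _ 0 s hs1) _ y fun M hM => ?_
  refine (norm_sum_le _ _).trans ?_
  have hn1 : ∀ n : ℕ, 1 ≤ n → ‖LSeries.term f s n‖ =
      ‖(1 : DirichletCharacter ℂ (qm x d)) (n : ZMod (qm x d))‖ * (n : ℝ) ^ (-σ) := by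
    intro n hn
    have h2 : (0 : ℝ) ≤ (n : ℝ) ^ (-σ) := Real.rpow_nonneg (Nat.cast_nonneg _) _
    rw [Up_term 0 n hn _ s f rfl, norm_mul, norm_mul, Pool.Agent.H91.PK.LSa_norm_ee, mul_one,
      Complex.norm_real, Real.norm_eq_abs, pow_zero, one_mul, abs_of_nonneg h2]
  have hle : ∀ n : ℕ, 1 ≤ n → ‖LSeries.term f s n‖ ≤ (n : ℝ) ^ (-σ) := by
    intro n hn
    have h2 : (0 : ℝ) ≤ (n : ℝ) ^ (-σ) := Real.rpow_nonneg (Nat.cast_nonneg _) _
    rw [hn1 n hn]
    calc _ ≤ 1 * (n : ℝ) ^ (-σ) :=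
          mul_le_mul_of_nonneg_right (DirichletCharacter.norm_le_one _ _) h2
      _ = _ := one_mul _
  refine (Up_split y M (by omega) hM _ ?_ ?_).trans ?_
  · refine (hle 1 le_rfl).trans ?_
    rw [Nat.cast_one, Real.one_rpow]
  · intro n hn hc
    have h3 : ¬ IsUnit ((n : ℕ) : ZMod (qm x d)) := by
      rw [ZMod.isUnit_iff_coprime]
      intro h4
      apply hc
      unfold qm at h4
      exact Nat.Coprime.coprime_mul_left_right h4
    rw [hn1 n hn, MulChar.map_nonunit _ h3, norm_zero, zero_mul]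
  · have h3 : ∑ n ∈ (Ioc y M).filter (fun n => n.Coprime (primorial y)),
        ‖LSeries.term f s n‖ ≤
        ∑ n ∈ (Ioc y M).filter (fun n => n.Coprime (primorial y)), (n : ℝ) ^ (-σ) := by
      refine Finset.sum_le_sum fun n hn => ?_
      rw [mem_filter, mem_Ioc] at hn
      exact hle n (by omega)
    have h4 := hr y M σ (by omega) hM hs1 hs2
    have hσ0 : 0 < σ - 1 := by linarith only [hs1]
    have hly0 : 0 < Real.log y := by linarith only [hL9, hly2]
    have h5 : C1 / ((σ - 1) * Real.log y) ≤ 2 * C1 * (1 / ((σ - 1) * L9 x)) := by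
      rw [mul_one_div, div_le_div_iff₀ (by positivity) (by positivity)]
      have h6 : C1 * ((σ - 1) * L9 x) ≤ C1 * ((σ - 1) * (2 * Real.log y)) := by
        refine mul_le_mul_of_nonneg_left (mul_le_mul_of_nonneg_left ?_ hσ0.le) (by linarith only [hC1])
        linarith only [hly2]
      nlinarith only [h6]
    nlinarith only [hC1, h3, h4, h5]

end Pool.Agent.H76.VKT

end
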