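import Mathlib

/-! The parts of this file: H36.IS.SD. -/

section

/-!
# Project IS: definitions for the sieve part

Arrays are functions `Finset α → ℝ` indexed by finite sets of atoms.  Abstractly an atom `e` is an event with
density `g e`; concretely the atoms are pairs `(i, p)` (`i : ι` a component, `p` a prime), the event being
`p ∣ n + h i`, with density `1 / p`.
-/

set_option autoImplicit false

namespace Pool.Agent.H36.IS

open Finset

section Bern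

variable {α : Type*} [DecidableEq α]

/-- value of the array `c` at the vector `y`; ground set `P` -/
noncomputable def Ev (P : Finset α) (c : Finset α → ℝ) (y : α → ℝ) : ℝ :=
  ∑ T ∈ P.powerset, c T * ∏ e ∈ T, y e

/-- union convolution of arrays -/
noncomputable def uc (P : Finset α) (c d : Finset α → ℝ) : Finset α → ℝ := fun Q =>
  ∑ A ∈ P.powerset, ∑ B ∈ P.powerset, if A ∪ B = Q then c A * d B else 0

/-- the density `g / (1 - g)` -/
noncomputable def fo (g : α → ℝ) (e : α) : ℝ := g e / (1 - g e)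

/-- Selberg coefficients of `y` -/
noncomputable def lam (P : Finset α) (g : α → ℝ) (y : Finset α → ℝ) : Finset α → ℝ := fun D =>
  (∏ e ∈ D, (-(1 / g e))) * ∑ R ∈ P.powerset, if D ⊆ R then y R * ∏ e ∈ R, fo g e else 0

/-- the diagonal quadratic form -/
noncomputable def MM (P : Finset α) (f : α → ℝ) (y : Finset α → ℝ) : ℝ :=
  ∑ R ∈ P.powerset, y R ^ 2 * ∏ e ∈ R, f e

/-- sum out the atoms of `S` -/
noncomputable def pr (S : Finset α) (f : α → ℝ) (y : Finset α → ℝ) : Finset α → ℝ := fun R =>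
  if Disjoint R S then ∑ A ∈ S.powerset, y (R ∪ A) * ∏ e ∈ A, f e else 0

/-- Selberg extension of `v` by the shape `Z` on the atoms of `S` -/
noncomputable def ext (S : Finset α) (Z : Finset α → ℝ) (T : ℝ) (v : Finset α → ℝ) : Finset α → ℝ :=
  fun R => v (R \ S) * Z (R ∩ S) / T

end Bern

section Primes

/-- `exp(log x / (log log x)^2)` -/
noncomputable def z0 (x : ℕ) : ℝ := Real.exp (Real.log x / (Real.log (Real.log x)) ^ 2)

/-- the primes `≤ z0 x` -/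
noncomputable def PA (x : ℕ) : Finset ℕ := (range (x + 1)).filter (fun p => p.Prime ∧ (p : ℝ) ≤ z0 x)

/-- the primes `≤ z0 x` not dividing `W` -/
noncomputable def PS (W x : ℕ) : Finset ℕ := (PA x).filter (fun p => ¬ p ∣ W)

/-- the primes in `(z0 x, x]` -/
noncomputable def PX (x : ℕ) : Finset ℕ := (range (x + 1)).filter (fun p => p.Prime ∧ z0 x < (p : ℝ))

/-- the primes in `(z0 x, x^δ]` -/
noncomputable def PZ (x : ℕ) (δ : ℝ) : Finset ℕ := (PX x).filter (fun p => (p : ℝ) ≤ (x : ℝ) ^ δ)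

/-- `∏_{p ≤ z0} (1 - 1/p)` -/
noncomputable def A0 (x : ℕ) : ℝ := ∏ p ∈ PA x, (1 - 1 / (p : ℝ))

/-- the scale `A0 x * log x` -/
noncomputable def tau (x : ℕ) : ℝ := A0 x * Real.log x

/-- `∏_{z0 < p ≤ x^δ} (1 - 1/p)` -/
noncomputable def V1 (x : ℕ) (δ : ℝ) : ℝ := ∏ p ∈ PZ x δ, (1 - 1 / (p : ℝ))

/-- the density `1 / (p - 1)` -/
noncomputable def fn (p : ℕ) : ℝ := 1 / ((p : ℝ) - 1)

/-- `∑_{p ∈ S} log p` -/
noncomputable def lg (S : Finset ℕ) : ℝ := ∑ p ∈ S, Real.log p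

/-- `∑ 1/φ(a)` over the squarefree `a ≤ e^t` composed of primes of `P` -/
noncomputable def GG (P : Finset ℕ) (t : ℝ) : ℝ :=
  ∑ S ∈ P.powerset, if lg S ≤ t then ∏ p ∈ S, fn p else 0

/-- the number of primes in `(x, 2x]` -/
noncomputable def DP (x : ℕ) : ℝ := (Nat.primeCounting (2 * x) : ℝ) - (Nat.primeCounting x : ℝ)

end Primes

section Atoms

variable {ι : Type} [Fintype ι] [DecidableEq ι]

/-- good shifts: `W` contains all small primes and all primes dividing a difference -/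
def Good (h : ι → ℕ) (W b : ℕ) : Prop :=
  0 < W ∧ (∀ i, Nat.Coprime (b + h i) W) ∧
    ∀ p : ℕ, p.Prime → ¬ p ∣ W → Fintype.card ι < p ∧ ∀ i j, i ≠ j → ¬ h i ≡ h j [MOD p]

/-- all atoms -/
noncomputable def EX (ι : Type) [Fintype ι] [DecidableEq ι] (x : ℕ) : Finset (ι × ℕ) := univ ×ˢ PX x

/-- the atoms with primes `≤ x^δ` -/
noncomputable def EZ (ι : Type) [Fintype ι] [DecidableEq ι] (x : ℕ) (δ : ℝ) : Finset (ι × ℕ) := univ ×ˢ PZ x δ

/-- the integers `n ∈ (x, 2x]`, `n ≡ b mod W`, such that no `n + h i` has a prime factor `≤ z0 x` -/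
noncomputable def AA (h : ι → ℕ) (W b x : ℕ) : Finset ℕ :=
  (Ioc x (2 * x)).filter (fun n => n ≡ b [MOD W] ∧ ∀ i, ∀ p ∈ PS W x, ¬ p ∣ n + h i)

/-- the events -/
noncomputable def yy (h : ι → ℕ) (n : ℕ) (e : ι × ℕ) : ℝ := if e.2 ∣ n + h e.1 then 1 else 0

/-- density of an atom -/
noncomputable def gi (e : ι × ℕ) : ℝ := 1 / (e.2 : ℝ)

/-- the main term `x/W ∏_{p ≤ z0, p ∤ W} (1 - k/p)` -/
noncomputable def Mn (ι : Type) [Fintype ι] (W x : ℕ) : ℝ :=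
  (x : ℝ) / W * ∏ p ∈ PS W x, (1 - (Fintype.card ι : ℝ) / p)

/-- arrays of size `(log x)^B M^|Q|` and level `D` -/
def Cls (x B : ℕ) (M D : ℝ) (c : Finset (ι × ℕ) → ℝ) : Prop :=
  ∀ Q, |c Q| ≤ Real.log x ^ B * M ^ Q.card ∧ (c Q ≠ 0 → Q ⊆ EX ι x ∧ ∏ e ∈ Q, (e.2 : ℝ) ≤ D)

/-- admissible `y`: nonnegative, bounded by `K`, supported on atoms with primes `≤ x^δ` and product `≤ x^θ` -/
def Yok (x : ℕ) (δ θ K : ℝ) (y : Finset (ι × ℕ) → ℝ) : Prop :=
  ∀ R, 0 ≤ y R ∧ y R ≤ K ∧ (y R ≠ 0 → R ⊆ EZ ι x δ ∧ ∏ e ∈ R, (e.2 : ℝ) ≤ (x : ℝ) ^ θ)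

/-- the atoms of component `i` -/
noncomputable def Si (x : ℕ) (δ : ℝ) (i : ι) : Finset (ι × ℕ) := {i} ×ˢ PZ x δ

/-- the Selberg polynomial of `y` at `n` -/
noncomputable def Ly (h : ι → ℕ) (x : ℕ) (δ : ℝ) (y : Finset (ι × ℕ) → ℝ) (n : ℕ) : ℝ :=
  Ev (EZ ι x δ) (lam (EZ ι x δ) gi y) (yy h n)

/-- the diagonal form of `y` -/
noncomputable def My (ι : Type) [Fintype ι] [DecidableEq ι] (x : ℕ) (δ : ℝ) (y : Finset (ι × ℕ) → ℝ) : ℝ :=
  MM (EZ ι x δ) (fo gi) y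

end Atoms

section Profile

/-- the step profile: `∑_{i ≤ I} 2^{-i} [u ≤ θ 2^i / 2^(I+1)]` -/
noncomputable def Yp (I : ℕ) (θ u : ℝ) : ℝ :=
  ∑ i ∈ range (I + 1), if u ≤ θ * 2 ^ i / 2 ^ (I + 1) then ((1 : ℝ) / 2) ^ i else 0

variable {ι : Type} [Fintype ι] [DecidableEq ι]

/-- the logarithmic size of the component `i` of `R` -/
noncomputable def ell (R : Finset (ι × ℕ)) (i : ι) : ℝ := ∑ e ∈ R.filter (fun e => e.1 = i), Real.log e.2

/-- the weight function of a block `I` with profile `Y` -/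
noncomputable def yblk (I : Finset ι) (Y : ℝ → ℝ) (θ L : ℝ) (R : Finset (ι × ℕ)) : ℝ :=
  (if ∑ i ∈ I, ell R i ≤ θ * L then 1 else 0) * ∏ i ∈ I, Y (ell R i / L)

/-- the members of the block `s` -/
def blkF {r : ℕ} (blk : ι → Fin r) (s : Fin r) : Finset ι := univ.filter (fun i => blk i = s)

/-- the full weight function (ground set of primes `P`) -/
noncomputable def yfull {r : ℕ} (blk : ι → Fin r) (P : Finset ℕ) (Y : Fin r → ℝ → ℝ) (θ : Fin r → ℝ) (L : ℝ)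
    (R : Finset (ι × ℕ)) : ℝ :=
  if R ⊆ univ ×ˢ P then ∏ s, yblk (blkF blk s) (Y s) (θ s) L R else 0

/-- `∑_S Y(log S / L) f(S)` -/
noncomputable def TT (P : Finset ℕ) (Y : ℝ → ℝ) (L : ℝ) : ℝ := ∑ S ∈ P.powerset, Y (lg S / L) * ∏ p ∈ S, fn p

/-- `∑_S Y(log S / L)^2 f(S)` -/
noncomputable def UU (P : Finset ℕ) (Y : ℝ → ℝ) (L : ℝ) : ℝ := ∑ S ∈ P.powerset, Y (lg S / L) ^ 2 * ∏ p ∈ S, fn p

/-- `∑_S Y(log S / L)^2 log(S) f(S)` -/
noncomputable def LL (P : Finset ℕ) (Y : ℝ → ℝ) (L : ℝ) : ℝ :=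
  ∑ S ∈ P.powerset, Y (lg S / L) ^ 2 * lg S * ∏ p ∈ S, fn p

end Profile

open Classical in
/-- the output of the sieve, before the choice of the progression -/
def Sieve (R : ℕ → Prop) (c : ℝ) (κ : ℕ → ℕ) : Prop :=
  ∀ (ι : Type) (_ : Fintype ι) (_ : DecidableEq ι) (h : ι → ℕ) (W b : ℕ), Good h W b →
    ∀ (r : ℕ) (blk : ι → Fin r), (∀ s : Fin r, κ s ≤ (blkF blk s).card) →
    ∀ N : ℕ, ∃ (X : Finset ℕ) (w : ℕ → ℝ),
      (∀ n ∈ X, N ≤ n ∧ n ≡ b [MOD W] ∧ 0 ≤ w n ∧ (N : ℝ) * w n ≤ 1) ∧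
      ∑ n ∈ X, w n = 1 ∧
      ∀ s : Fin r, c ≤ ∑ n ∈ X.filter (fun n => ∃ i, blk i = s ∧ R (n + h i)), w n

end Pool.Agent.H36.IS

end
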