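import Pool.Agent.H15.TB1.M01
import Pool.Agent.H15.TB1.M10
import Pool.Agent.H15.TB1.M11

/-! The parts of this file: Lead.ZN.Mertens, H37.PPC.Mt, H36.IS.MerA, H36.IS.AsyA. -/

section

namespace Pool.Agent.Lead.ZN

open Finset

/-- The primes `p` with `u < log p ≤ v`. -/
noncomputable def PL (u v : ℝ) : Finset ℕ :=
  (range (⌊Real.exp v⌋₊ + 1)).filter fun p => p.Prime ∧ u < Real.log p ∧ Real.log p ≤ v

private lemma log_le_iff {p : ℕ} (hp : 0 < p) (v : ℝ) : Real.log p ≤ v ↔ p ≤ ⌊Real.exp v⌋₊ := by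
  have hp' : (0 : ℝ) < p := by exact_mod_cast hp
  rw [Real.log_le_iff_le_exp hp', Nat.le_floor_iff (Real.exp_pos v).le]

theorem mem_PL {u v : ℝ} {p : ℕ} :
    p ∈ PL u v ↔ p.Prime ∧ u < Real.log p ∧ Real.log p ≤ v := by
  unfold PL
  rw [mem_filter, mem_range]
  constructor
  · exact fun h => h.2
  · intro h
    refine ⟨?_, h⟩
    have := (log_le_iff h.1.pos v).1 h.2.2
    omega

/-- sum of `log p / p` over the primes up to `n` -/
private noncomputable def Ap (n : ℕ) : ℝ := ∑ p ∈ Nat.primesLE n, Real.log p / p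

private lemma PL_eq {u v : ℝ} : PL u v = Nat.primesLE ⌊Real.exp v⌋₊ \ Nat.primesLE ⌊Real.exp u⌋₊ := by
  ext p
  rw [mem_PL, mem_sdiff, Nat.mem_primesLE, Nat.mem_primesLE]
  constructor
  · rintro ⟨h1, h2, h3⟩
    refine ⟨⟨(log_le_iff h1.pos v).1 h3, h1⟩, ?_⟩
    rintro ⟨h4, -⟩
    exact absurd ((log_le_iff h1.pos u).2 h4) (not_le.2 h2)
  · rintro ⟨⟨h1, h2⟩, h3⟩
    refine ⟨h2, ?_, (log_le_iff h2.pos v).2 h1⟩
    by_contra hcon
    exact h3 ⟨(log_le_iff h2.pos u).1 (not_lt.1 hcon), h2⟩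

private lemma primesLE_mono {a b : ℕ} (h : a ≤ b) : Nat.primesLE a ⊆ Nat.primesLE b := by
  intro p hp
  rw [Nat.mem_primesLE] at hp ⊢
  exact ⟨hp.1.trans h, hp.2⟩

private lemma floor_exp_mono {u v : ℝ} (h : u ≤ v) : ⌊Real.exp u⌋₊ ≤ ⌊Real.exp v⌋₊ :=
  Nat.floor_le_floor (Real.exp_le_exp.2 h)

private lemma sum_PL {u v : ℝ} (h : u ≤ v) :
    ∑ p ∈ PL u v, Real.log p / p = Ap ⌊Real.exp v⌋₊ - Ap ⌊Real.exp u⌋₊ := by
  rw [PL_eq, Ap, Ap, ← Finset.sum_sdiff (primesLE_mono (floor_exp_mono h))]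
  ring

private lemma exists_T : ∃ T : ℝ, 0 ≤ T ∧ ∀ n : ℕ,
    Ap n ≤ Pool.Agent.H91.Gold.Mt n ∧ Pool.Agent.H91.Gold.Mt n ≤ Ap n + T := by
  have hsum := ArithmeticFunction.vonMangoldt.summable_residueClass_non_primes_div (q := 1) (0 : ZMod 1)
  have hres : ∀ n : ℕ, ArithmeticFunction.vonMangoldt.residueClass (0 : ZMod 1) n = ArithmeticFunction.vonMangoldt n := by
    intro n
    unfold ArithmeticFunction.vonMangoldt.residueClass
    rw [Set.indicator_of_mem]
    exact Subsingleton.elim _ _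
  simp only [hres] at hsum
  set F : ℕ → ℝ := fun n => (if n.Prime then 0 else ArithmeticFunction.vonMangoldt n) / n with hF
  have hF0 : ∀ n, 0 ≤ F n := by
    intro n
    simp only [hF]
    split_ifs
    · simp
    · exact div_nonneg ArithmeticFunction.vonMangoldt_nonneg (Nat.cast_nonneg _)
  refine ⟨∑' n, F n, tsum_nonneg hF0, fun n => ?_⟩
  have hMt : Pool.Agent.H91.Gold.Mt n = Ap n + ∑ k ∈ Ioc 0 n, F k := by
    unfold Pool.Agent.H91.Gold.Mt Ap
    have h1 : Nat.primesLE n = (Ioc 0 n).filter Nat.Prime := by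
      ext p
      rw [Nat.mem_primesLE, mem_filter, mem_Ioc]
      constructor
      · rintro ⟨h1, h2⟩; exact ⟨⟨h2.pos, h1⟩, h2⟩
      · rintro ⟨⟨-, h1⟩, h2⟩; exact ⟨h1, h2⟩
    rw [h1, Finset.sum_filter, ← Finset.sum_add_distrib]
    apply Finset.sum_congr rfl
    intro k _
    simp only [hF]
    split_ifs with hk
    · rw [ArithmeticFunction.vonMangoldt_apply_prime hk]; simp
    · simp
  have h2 : 0 ≤ ∑ k ∈ Ioc 0 n, F k := Finset.sum_nonneg (fun k _ => hF0 k)
  have h3 : ∑ k ∈ Ioc 0 n, F k ≤ ∑' n, F n := hsum.sum_le_tsum _ (fun k _ => hF0 k)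
  constructor <;> linarith only [hMt, h2, h3]

private lemma Mt_mono {a b : ℕ} (h : a ≤ b) :
    Pool.Agent.H91.Gold.Mt a ≤ Pool.Agent.H91.Gold.Mt b := by
  unfold Pool.Agent.H91.Gold.Mt
  apply Finset.sum_le_sum_of_subset_of_nonneg
  · intro k hk
    rw [mem_Ioc] at hk ⊢
    omega
  · intro k _ _
    exact div_nonneg ArithmeticFunction.vonMangoldt_nonneg (Nat.cast_nonneg _)

private lemma Ap_bounds : ∃ K : ℝ, 1 ≤ K ∧ ∀ n : ℕ, 1 ≤ n →
    Ap n ≤ Real.log n + K ∧ Real.log n ≤ Ap n + K := by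
  obtain ⟨T, hT0, hT⟩ := exists_T
  refine ⟨max (Real.log 1024 + 1) (1 + T), le_max_of_le_right (by linarith only [hT0]), fun n hn => ?_⟩
  have hn0 : 0 ≤ Real.log n := Real.log_nonneg (by exact_mod_cast hn)
  have h1 := hT n
  have h2 := Pool.Agent.H91.Gold.Mt_ge n hn
  have h1024 : 0 ≤ Real.log 1024 := Real.log_nonneg (by norm_num)
  constructor
  · have h3 : Pool.Agent.H91.Gold.Mt n ≤ Real.log n + (Real.log 1024 + 1) := by
      rcases Nat.lt_or_ge n 1024 with h | h
      · have h4 := Mt_mono h.le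
        have h5 := Pool.Agent.H91.Gold.Mt_le 1024 le_rfl
        push_cast at h5
        linarith only [hn0, h4, h5]
      · have h5 := Pool.Agent.H91.Gold.Mt_le n h
        linarith only [h1024, h5]
    have := le_max_left (Real.log 1024 + 1) (1 + T)
    linarith only [h1, h3, this]
  · have := le_max_right (Real.log 1024 + 1) (1 + T)
    linarith only [h1, h2, this]

private lemma floor_exp_pos {v : ℝ} (hv : 0 ≤ v) : 1 ≤ ⌊Real.exp v⌋₊ := by
  rw [Nat.one_le_floor_iff]
  exact Real.one_le_exp hv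

private lemma log_floor_le (v : ℝ) (hv : 0 ≤ v) : Real.log (⌊Real.exp v⌋₊ : ℝ) ≤ v := by
  have h1 := floor_exp_pos hv
  have h2 : (0 : ℝ) < (⌊Real.exp v⌋₊ : ℝ) := by exact_mod_cast h1
  rw [Real.log_le_iff_le_exp h2]
  exact Nat.floor_le (Real.exp_pos v).le

private lemma le_log_floor (v : ℝ) (hv : 0 ≤ v) :
    v - Real.log 2 ≤ Real.log (⌊Real.exp v⌋₊ : ℝ) := by
  have h1 := floor_exp_pos hv
  have h2 : (1 : ℝ) ≤ (⌊Real.exp v⌋₊ : ℝ) := by exact_mod_cast h1
  have h3 : Real.exp v ≤ 2 * (⌊Real.exp v⌋₊ : ℝ) := by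
    have := Nat.lt_floor_add_one (Real.exp v)
    linarith only [h2, this]
  have h4 : v ≤ Real.log (2 * (⌊Real.exp v⌋₊ : ℝ)) := by
    rw [Real.le_log_iff_exp_le (by positivity)]
    exact h3
  rw [Real.log_mul (by norm_num) (by positivity)] at h4
  linarith only [h4]

private lemma log_step {k : ℕ} (hk : 2 ≤ k) : (1 : ℝ) / k ≤ Real.log k - Real.log (k - 1 : ℕ) := by
  have hk0 : (0 : ℝ) < k := by exact_mod_cast (by omega : 0 < k)
  have hk1 : (0 : ℝ) < ((k - 1 : ℕ) : ℝ) := by exact_mod_cast (by omega : 0 < k - 1)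
  have hc : ((k - 1 : ℕ) : ℝ) = k - 1 := by push_cast [Nat.cast_sub (by omega : 1 ≤ k)]; ring
  have h := Real.log_le_sub_one_of_pos (show (0 : ℝ) < ((k - 1 : ℕ) : ℝ) / k by positivity)
  rw [Real.log_div hk1.ne' hk0.ne'] at h
  have h2 : ((k - 1 : ℕ) : ℝ) / k - 1 = - (1 / k) := by rw [hc]; field_simp; ring
  rw [h2] at h
  linarith only [h]

private lemma loglog_step {k : ℕ} (hk : 3 ≤ k) :
    (1 : ℝ) / k * (1 / Real.log k) ≤ Real.log (Real.log k) - Real.log (Real.log (k - 1 : ℕ)) := by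
  have hk0 : (0 : ℝ) < k := by exact_mod_cast (by omega : 0 < k)
  have hk1 : (1 : ℝ) < ((k - 1 : ℕ) : ℝ) := by exact_mod_cast (by omega : 1 < k - 1)
  have hk2 : (1 : ℝ) < k := by exact_mod_cast (by omega : 1 < k)
  have hl1 : 0 < Real.log (k - 1 : ℕ) := Real.log_pos hk1
  have hl2 : 0 < Real.log k := Real.log_pos hk2
  have h := Real.log_le_sub_one_of_pos (show (0 : ℝ) < Real.log (k - 1 : ℕ) / Real.log k by positivity)
  rw [Real.log_div hl1.ne' hl2.ne'] at h
  have h3 := log_step (show 2 ≤ k by omega)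
  have h4 : (1 : ℝ) / k * (1 / Real.log k) ≤ (Real.log k - Real.log (k - 1 : ℕ)) * (1 / Real.log k) :=
    mul_le_mul_of_nonneg_right h3 (by positivity)
  have h5 : (Real.log k - Real.log (k - 1 : ℕ)) * (1 / Real.log k) = 1 - Real.log (k - 1 : ℕ) / Real.log k := by
    field_simp
  rw [h5] at h4
  linarith only [h, h4]

private lemma sum_loglog {w z : ℕ} (hw : 2 ≤ w) (h : w ≤ z) :
    ∑ k ∈ Ioc w z, (1 : ℝ) / k * (1 / Real.log k) ≤ Real.log (Real.log z) - Real.log (Real.log w) := by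
  induction z, h using Nat.le_induction with
  | base => simp
  | succ z hz ih =>
    rw [Finset.sum_Ioc_succ_top (by omega)]
    have := loglog_step (k := z + 1) (by omega)
    simp only [Nat.add_sub_cancel] at this
    linarith only [ih, this]

private lemma sum_inv_ge {w m : ℕ} (hw : 1 ≤ w) (h : w ≤ m) :
    Real.log m - Real.log w - 1 ≤ ∑ k ∈ Ioc w m, (1 : ℝ) / k := by
  have key : Real.log (m + 1) - Real.log (w + 1) ≤ ∑ k ∈ Ioc w m, (1 : ℝ) / k := by
    induction m, h using Nat.le_induction with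
    | base => simp
    | succ m hm ih =>
      rw [Finset.sum_Ioc_succ_top (by omega)]
      have hm0 : (0 : ℝ) < (m : ℝ) + 1 := by positivity
      have h1 := Real.log_le_sub_one_of_pos (show (0 : ℝ) < ((m : ℝ) + 2) / (m + 1) by positivity)
      rw [Real.log_div (by positivity) (by positivity)] at h1
      have h2 : ((m : ℝ) + 2) / (m + 1) - 1 = 1 / (m + 1) := by field_simp; ring
      rw [h2] at h1
      push_cast
      rw [show (m : ℝ) + 1 + 1 = m + 2 by ring]
      linarith only [ih, h1]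
  have hw0 : (0 : ℝ) < w := by exact_mod_cast hw
  have hm0 : (0 : ℝ) < m := by exact_mod_cast (by omega : 0 < m)
  have h1 : Real.log m ≤ Real.log (m + 1) := Real.log_le_log hm0 (by linarith only [])
  have h2 := Real.log_le_sub_one_of_pos (show (0 : ℝ) < ((w : ℝ) + 1) / w by positivity)
  rw [Real.log_div (by positivity) (by positivity)] at h2
  have h3 : ((w : ℝ) + 1) / w - 1 = 1 / w := by field_simp; ring
  have h4 : (1 : ℝ) / w ≤ 1 := by
    rw [div_le_one hw0]; exact_mod_cast hw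
  rw [h3] at h2
  linarith only [key, h1, h2, h4]

/-- Mertens' estimates (one constant for all of them). -/
theorem mertens : ∃ C : ℝ, 1 ≤ C ∧
    (∀ u v : ℝ, 0 ≤ u → u ≤ v → ∑ p ∈ PL u v, Real.log p / p ≤ (v - u) + C) ∧
    (∀ u v : ℝ, 0 ≤ u → u ≤ v → (v - u) - C ≤ ∑ p ∈ PL u v, Real.log p / p) ∧
    (∀ u v : ℝ, 1 ≤ u → u ≤ v → ∑ p ∈ PL u v, (1 : ℝ) / p ≤ Real.log (v / u) + C) ∧
    (∀ v : ℝ, 0 ≤ v → ∑ p ∈ PL 0 v, Real.log p ≤ C * Real.exp v) := by
  obtain ⟨K, hK1, hK⟩ := Ap_bounds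
  have hlog2 : Real.log 2 ≤ 1 := by have := Real.log_two_lt_d9; linarith only [this]
  have hlog2' : 0 < Real.log 2 := Real.log_pos (by norm_num)
  have hlog2'' : Real.log 2 < 0.7 := by have := Real.log_two_lt_d9; linarith only [this]
  have hlog2l : 0.69 < Real.log 2 := by have := Real.log_two_gt_d9; linarith only [this]
  refine ⟨4 * K + 10, by linarith only [hK1], ?_, ?_, ?_, ?_⟩
  · intro u v hu huv
    rw [sum_PL huv]
    have h1 := (hK _ (floor_exp_pos (hu.trans huv))).1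
    have h2 := (hK _ (floor_exp_pos hu)).2
    have h3 := log_floor_le v (hu.trans huv)
    have h4 := le_log_floor u hu
    linarith only [hK1, hlog2'', h1, h2, h3, h4]
  · intro u v hu huv
    rw [sum_PL huv]
    have h1 := (hK _ (floor_exp_pos (hu.trans huv))).2
    have h2 := (hK _ (floor_exp_pos hu)).1
    have h3 := le_log_floor v (hu.trans huv)
    have h4 := log_floor_le u hu
    linarith only [hK1, hlog2'', h1, h2, h3, h4]
  · intro u v hu huv
    set w := ⌊Real.exp u⌋₊ with hw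
    set z := ⌊Real.exp v⌋₊ with hz
    have hwz : w ≤ z := floor_exp_mono huv
    have hw2 : 2 ≤ w := by
      rw [hw, Nat.le_floor_iff (Real.exp_pos u).le]
      have h1 : Real.exp 1 ≤ Real.exp u := Real.exp_le_exp.2 hu
      have h2 := Real.exp_one_gt_d9
      push_cast
      linarith only [h1, h2]
    have hw0 : (0 : ℝ) < w := by exact_mod_cast (by omega : 0 < w)
    have hab := Pool.Agent.H91.Gold.abel_le hwz (c := 2 * K + 1) (by linarith only [hK1])
      (a := fun k => if k.Prime then Real.log k / k else 0)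
      (b := fun k => (1 : ℝ) / k) (f := fun k => 1 / Real.log k)
      (fun k hk _ => by
        have : (1 : ℝ) ≤ k := by exact_mod_cast (by omega : 1 ≤ k)
        exact div_nonneg one_pos.le (Real.log_nonneg this))
      (by
        have : (1 : ℝ) ≤ ((w + 1 : ℕ) : ℝ) := by exact_mod_cast (by omega : 1 ≤ w + 1)
        exact div_nonneg one_pos.le (Real.log_nonneg this))
      (fun k hk _ => by
        have h1 : (1 : ℝ) < k := by exact_mod_cast (by omega : 1 < k)
        apply one_div_le_one_div_of_le (Real.log_pos h1)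
        apply Real.log_le_log (by linarith only [h1])
        push_cast; linarith only [])
      (fun m hwm hmz => by
        have e1 : ∑ k ∈ Ioc w m, (if k.Prime then Real.log k / k else 0) = Ap m - Ap w := by
          rw [← Finset.sum_filter, Ap, Ap, ← Finset.sum_sdiff (primesLE_mono hwm), add_sub_cancel_right]
          apply Finset.sum_congr _ (fun _ _ => rfl)
          ext p
          rw [mem_filter, mem_Ioc, mem_sdiff, Nat.mem_primesLE, Nat.mem_primesLE]
          constructor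
          · rintro ⟨⟨h1, h2⟩, h3⟩
            exact ⟨⟨h2, h3⟩, fun h => by omega⟩
          · rintro ⟨⟨h1, h2⟩, h3⟩
            refine ⟨⟨?_, h1⟩, h2⟩
            by_contra hcon
            exact h3 ⟨by omega, h2⟩
        rw [e1]
        have h1 := (hK m (by omega)).1
        have h2 := (hK w (by omega)).2
        have h3 := sum_inv_ge (show 1 ≤ w by omega) hwm
        linarith only [h1, h2, h3])
    have e2 : ∑ p ∈ PL u v, (1 : ℝ) / p = ∑ k ∈ Ioc w z, (if k.Prime then Real.log k / k else 0) * (1 / Real.log k) := by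
      have e3 : PL u v = (Ioc w z).filter Nat.Prime := by
        rw [PL_eq]
        ext p
        rw [mem_filter, mem_Ioc, mem_sdiff, Nat.mem_primesLE, Nat.mem_primesLE]
        constructor
        · rintro ⟨⟨h1, h2⟩, h3⟩
          refine ⟨⟨?_, h1⟩, h2⟩
          by_contra hcon
          exact h3 ⟨by omega, h2⟩
        · rintro ⟨⟨h1, h2⟩, h3⟩
          exact ⟨⟨h2, h3⟩, fun h => by omega⟩
      rw [e3, Finset.sum_filter]
      apply Finset.sum_congr rfl
      intro k hk
      split_ifs with hkp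
      · have : 0 < Real.log k := Real.log_pos (by exact_mod_cast hkp.one_lt)
        field_simp
      · simp
    rw [e2]
    refine hab.trans ?_
    have h5 := sum_loglog hw2 hwz
    -- bounds on the loglog terms
    have hz2 : 2 ≤ z := hw2.trans hwz
    have hz0 : (0 : ℝ) < z := by exact_mod_cast (by omega : 0 < z)
    have hu0 : 0 < u := by linarith only [hu]
    have hv0 : 0 < v := by linarith only [hu, huv]
    have h6 : Real.log (Real.log z) ≤ Real.log v := by
      apply Real.log_le_log (Real.log_pos (by exact_mod_cast (by omega : 1 < z)))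
      exact log_floor_le v hv0.le
    have h7 : Real.log u - 2 ≤ Real.log (Real.log w) := by
      have h8 := le_log_floor u hu0.le
      -- log w >= u - log 2 >= 0.3 u
      have h9 : 0.3 * u ≤ Real.log w := by
        have : Real.log w ≥ u - Real.log 2 := h8
        linarith only [hlog2'', hu, h8]
      have h10 : Real.log (0.3 * u) ≤ Real.log (Real.log w) := Real.log_le_log (by positivity) h9
      rw [Real.log_mul (by norm_num) hu0.ne'] at h10
      have h11 : -2 ≤ Real.log 0.3 := by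
        rw [Real.le_log_iff_exp_le (by norm_num)]
        have h12 : Real.exp (-2) ≤ 0.25 := by
          rw [show (-2 : ℝ) = -(1 + 1) by norm_num, Real.exp_neg, Real.exp_add]
          have := Real.exp_one_gt_d9
          rw [inv_le_comm₀ (by positivity) (by norm_num)]
          nlinarith only [this]
        linarith only [h12]
      linarith only [h10, h11]
    have h8 : (2 * K + 1) * (1 / Real.log ((w + 1 : ℕ) : ℝ)) ≤ 2 * K + 1 := by
      have h9 : 1 ≤ Real.log ((w + 1 : ℕ) : ℝ) := by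
        rw [Real.le_log_iff_exp_le (by positivity)]
        have : Real.exp 1 < 3 := by have := Real.exp_one_lt_d9; linarith only [this]
        have h3 : (3 : ℝ) ≤ ((w + 1 : ℕ) : ℝ) := by exact_mod_cast (by omega : 3 ≤ w + 1)
        linarith only [this, h3]
      have h10 : 1 / Real.log ((w + 1 : ℕ) : ℝ) ≤ 1 := by
        rw [div_le_one (by linarith only [h9])]; exact h9
      nlinarith only [hK1, h10]
    rw [Real.log_div hv0.ne' hu0.ne']
    linarith only [hK1, h5, h6, h7, h8]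
  · intro v hv
    have h1 := Chebyshev.theta_le_log4_mul_x (Real.exp_pos v).le
    have h2 : ∑ p ∈ PL 0 v, Real.log p ≤ Chebyshev.theta (Real.exp v) := by
      rw [Chebyshev.theta_eq_sum_primesLE]
      apply Finset.sum_le_sum_of_subset_of_nonneg
      · rw [PL_eq]; exact Finset.sdiff_subset
      · intro p hp _
        exact Real.log_natCast_nonneg p
    have h3 : Real.log 4 ≤ 2 := by
      rw [show (4 : ℝ) = 2 * 2 by norm_num, Real.log_mul (by norm_num) (by norm_num)]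
      linarith only [hlog2'']
    have h4 : Real.log 4 * Real.exp v ≤ (4 * K + 10) * Real.exp v :=
      mul_le_mul_of_nonneg_right (by linarith only [hK1, h3]) (Real.exp_pos v).le
    linarith only [h1, h2, h4]

end Pool.Agent.Lead.ZN

end

section

/-!
PPC Mt: two-sided Mertens for ∑ 1/p between natural numbers, and two sums of log^{1/2}.

Sources: Pool.Agent.Lead.ZN.mertens (∑ log p/p two-sided over PL u v = primes with u < log p ≤ v; ∑ 1/p upper),
and Abel summation (`Gold.abel_le`) for the lower bound.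

`sum_half`: f(u) = ∑_{p ≤ u} (log p)^{1/2}/p ≤ K (log u)^{1/2}: strong induction, f(u) - f(√u) ≤ (log u)^{1/2} ∑_{√u<p≤u} 1/p
 ≤ C (log u)^{1/2}, and (log √u)^{1/2} = (log u)^{1/2}/√2.
-/

set_option autoImplicit false

namespace Pool.Agent.H37.PPC

open Finset

private theorem Mt_log_pos {k : ℕ} (hk : 2 ≤ k) : 0 < Real.log k :=
  Real.log_pos (by exact_mod_cast (by omega : 1 < k))

private theorem Mt_log_three : (1 : ℝ) ≤ Real.log 3 := by
  rw [Real.le_log_iff_exp_le (by norm_num)]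
  have := Real.exp_one_lt_d9
  linarith only [this]

private theorem Mt_log_ge {k : ℕ} (hk : 3 ≤ k) : (1 : ℝ) ≤ Real.log k := by
  refine Mt_log_three.trans (Real.log_le_log (by norm_num) ?_)
  exact_mod_cast hk

private theorem Mt_step {k : ℕ} (hk : 4 ≤ k) :
    (Real.log (Real.log k) - Real.log (Real.log (k - 1 : ℕ))) * Real.log k ≤
      (Real.log k - Real.log (k - 1 : ℕ)) + (1 / ((k : ℝ) - 2) - 1 / ((k : ℝ) - 1)) := by
  have hkr : (4 : ℝ) ≤ k := by exact_mod_cast hk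
  have hc : ((k - 1 : ℕ) : ℝ) = k - 1 := by
    push_cast [Nat.cast_sub (by omega : 1 ≤ k)]; ring
  have h1 : (1 : ℝ) ≤ Real.log (k - 1 : ℕ) := Mt_log_ge (by omega)
  have h0 : (1 : ℝ) ≤ Real.log k := Mt_log_ge (by omega)
  have hp : (0 : ℝ) < ((k - 1 : ℕ) : ℝ) := by rw [hc]; linarith only [hkr]
  set A := Real.log k with hA
  set B := Real.log (k - 1 : ℕ) with hB
  -- `A - B ≤ 1 / (k - 1)`
  have hd : A - B ≤ 1 / ((k : ℝ) - 1) := by
    have h := Real.log_le_sub_one_of_pos (show (0 : ℝ) < (k : ℝ) / ((k - 1 : ℕ) : ℝ) by positivity)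
    rw [Real.log_div (by positivity) hp.ne'] at h
    have h2 : (k : ℝ) / ((k - 1 : ℕ) : ℝ) - 1 = 1 / ((k : ℝ) - 1) := by
      rw [hc]
      have : (k : ℝ) - 1 ≠ 0 := by linarith only [hkr]
      field_simp
      ring
    rw [h2] at h
    exact h
  have hAB : B ≤ A := by
    rw [hA, hB]
    exact Real.log_le_log hp (by rw [hc]; linarith only [])
  have h3 : Real.log A - Real.log B ≤ (A - B) / B := by
    have h := Real.log_le_sub_one_of_pos (show (0 : ℝ) < A / B by positivity)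
    rw [Real.log_div (by linarith only [h0]) (by linarith only [h1])] at h
    have h2 : A / B - 1 = (A - B) / B := by
      rw [sub_div, div_self (by linarith only [h1])]
    rw [h2] at h
    exact h
  have h4 : (Real.log A - Real.log B) * A ≤ (A - B) / B * A := mul_le_mul_of_nonneg_right h3 (by linarith only [h0])
  have h5 : (A - B) / B * A = (A - B) + (A - B) ^ 2 / B := by
    have : B ≠ 0 := by linarith only [h1]
    field_simp
    ring
  have h6 : (A - B) ^ 2 / B ≤ (A - B) ^ 2 := div_le_self (sq_nonneg _) h1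
  have h7 : (A - B) ^ 2 ≤ (1 / ((k : ℝ) - 1)) ^ 2 := by
    apply pow_le_pow_left₀ (by linarith only [hAB]) hd
  have h8 : (1 / ((k : ℝ) - 1)) ^ 2 ≤ 1 / ((k : ℝ) - 2) - 1 / ((k : ℝ) - 1) := by
    have e1 : (0 : ℝ) < (k : ℝ) - 1 := by linarith only [hkr]
    have e2 : (0 : ℝ) < (k : ℝ) - 2 := by linarith only [hkr]
    rw [div_sub_div _ _ e2.ne' e1.ne', div_pow, one_pow, div_le_div_iff₀ (by positivity) (by positivity)]
    linarith only [hkr]
  linarith only [h4, h5, h6, h7, h8]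

private theorem Mt_sum_step {m : ℕ} (hm : 3 ≤ m) :
    ∑ k ∈ Ioc 3 m, (Real.log (Real.log k) - Real.log (Real.log (k - 1 : ℕ))) * Real.log k ≤
      Real.log m - Real.log 3 + (1 / 2 - 1 / ((m : ℝ) - 1)) := by
  induction m, hm using Nat.le_induction with
  | base =>
    norm_num
  | succ m hm ih =>
    rw [Finset.sum_Ioc_succ_top (by omega)]
    have h := Mt_step (k := m + 1) (by omega)
    have e : ((m + 1 : ℕ) : ℝ) - 2 = (m : ℝ) - 1 := by push_cast; ring
    rw [e] at h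
    simp only [Nat.add_sub_cancel] at h ⊢
    linarith only [ih, h]

private theorem Mt_telescope {m : ℕ} (hm : 3 ≤ m) :
    ∑ k ∈ Ioc 3 m, (Real.log (Real.log k) - Real.log (Real.log (k - 1 : ℕ))) =
      Real.log (Real.log m) - Real.log (Real.log 3) := by
  induction m, hm using Nat.le_induction with
  | base => norm_num
  | succ m hm ih =>
    rw [Finset.sum_Ioc_succ_top (by omega), ih]
    simp only [Nat.add_sub_cancel]
    ring

private theorem Mt_PL {m : ℕ} (hm : 3 ≤ m) :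
    Pool.Agent.Lead.ZN.PL (Real.log (3 : ℕ)) (Real.log m) = (Ioc 3 m).filter Nat.Prime := by
  ext p
  rw [Pool.Agent.Lead.ZN.mem_PL, mem_filter, mem_Ioc]
  constructor
  · rintro ⟨h1, h2, h3⟩
    have hp : (0 : ℝ) < p := by exact_mod_cast h1.pos
    rw [Real.log_lt_log_iff (by norm_num) hp] at h2
    rw [Real.log_le_log_iff hp (by exact_mod_cast (by omega : 0 < m))] at h3
    exact ⟨⟨by exact_mod_cast h2, by exact_mod_cast h3⟩, h1⟩
  · rintro ⟨⟨h2, h3⟩, h1⟩
    have hp : (0 : ℝ) < p := by exact_mod_cast h1.pos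
    refine ⟨h1, ?_, ?_⟩
    · rw [Real.log_lt_log_iff (by norm_num) hp]
      exact_mod_cast h2
    · rw [Real.log_le_log_iff hp (by exact_mod_cast (by omega : 0 < m))]
      exact_mod_cast h3

private theorem Mt_lower : ∃ C : ℝ, 0 ≤ C ∧ ∀ m : ℕ, 3 ≤ m →
    Real.log (Real.log m) - C ≤ ∑ p ∈ (Ioc 3 m).filter Nat.Prime, (1 : ℝ) / p := by
  obtain ⟨C, hC1, -, hlow, -, -⟩ := Pool.Agent.Lead.ZN.mertens
  refine ⟨C + 1 + Real.log (Real.log 3), ?_, ?_⟩
  · have := Real.log_nonneg Mt_log_three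
    linarith only [hC1, this]
  intro z hz
  have key : ∑ k ∈ Ioc 3 z,
      ((Real.log (Real.log k) - Real.log (Real.log (k - 1 : ℕ))) * Real.log k) * (1 / Real.log k) ≤
      ∑ k ∈ Ioc 3 z, (if k.Prime then Real.log k / k else 0) * (1 / Real.log k) +
        (C + 1) * (1 / Real.log ((3 + 1 : ℕ) : ℝ)) := by
    apply Pool.Agent.H91.Gold.abel_le (f := fun k : ℕ => 1 / Real.log k) hz (by linarith only [hC1])
    · intro k hk _
      have := Mt_log_pos (k := k) (by omega)
      positivity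
    · have := Mt_log_pos (k := 3 + 1) (by omega)
      positivity
    · intro k hk _
      have h1 := Mt_log_pos (k := k) (by omega)
      apply one_div_le_one_div_of_le h1
      apply Real.log_le_log (by exact_mod_cast (by omega : 0 < k))
      push_cast
      linarith only []
    · intro m hm _
      have h1 := Mt_sum_step hm
      have h2 := hlow (Real.log (3 : ℕ)) (Real.log m) (by positivity)
        (Real.log_le_log (by norm_num) (by exact_mod_cast hm))
      rw [Mt_PL hm, sum_filter] at h2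
      have h3 : (0 : ℝ) ≤ 1 / ((m : ℝ) - 1) := by
        have : (3 : ℝ) ≤ m := by exact_mod_cast hm
        have : (0 : ℝ) ≤ (m : ℝ) - 1 := by linarith only [this]
        positivity
      push_cast at h2
      linarith only [h1, h2, h3]
  have e1 : ∀ k ∈ Ioc 3 z,
      ((Real.log (Real.log k) - Real.log (Real.log (k - 1 : ℕ))) * Real.log k) * (1 / Real.log k) =
      (Real.log (Real.log k) - Real.log (Real.log (k - 1 : ℕ))) := by
    intro k hk
    rw [mem_Ioc] at hk
    have := Mt_log_pos (k := k) (by omega)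
    field_simp
  rw [sum_congr rfl e1, Mt_telescope hz] at key
  have e2 : ∑ k ∈ Ioc 3 z, (if k.Prime then Real.log k / k else 0) * (1 / Real.log k) =
      ∑ p ∈ (Ioc 3 z).filter Nat.Prime, (1 : ℝ) / p := by
    rw [sum_filter]
    apply sum_congr rfl
    intro k hk
    rw [mem_Ioc] at hk
    have := Mt_log_pos (k := k) (by omega)
    split_ifs with h
    · field_simp
    · ring
  rw [e2] at key
  have e3 : (C + 1) * (1 / Real.log ((3 + 1 : ℕ) : ℝ)) ≤ C + 1 := by
    have h1 := Mt_log_ge (k := 3 + 1) (by omega)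
    have h2 : 1 / Real.log ((3 + 1 : ℕ) : ℝ) ≤ 1 := by
      rw [div_le_one (by linarith only [h1])]
      exact h1
    nlinarith only [hC1, h2]
  linarith only [key, e3]

private theorem Mt_G : ∃ K : ℝ, 0 < K ∧ ∀ n : ℕ, 2 ≤ n →
    |∑ p ∈ pr 2 n, (1 : ℝ) / p - Real.log (Real.log n)| ≤ K := by
  obtain ⟨C, hC0, hlow⟩ := Mt_lower
  obtain ⟨D, hD1, -, -, hup, -⟩ := Pool.Agent.Lead.ZN.mertens
  refine ⟨C + D + 1 + |Real.log (Real.log 2)| + |Real.log (Real.log 3)|, by positivity, ?_⟩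
  intro n hn
  rcases Nat.lt_or_ge n 3 with h | h3
  · have : n = 2 := by omega
    subst this
    have e : pr 2 2 = ∅ := by simp [pr]
    rw [e, sum_empty, zero_sub, abs_neg]
    push_cast
    have := abs_nonneg (Real.log (Real.log 3))
    linarith only [hC0, hD1, this]
  · have h1 := hlow n h3
    have h2 := hup (Real.log (3 : ℕ)) (Real.log n) (by push_cast; exact Mt_log_three)
      (Real.log_le_log (by norm_num) (by exact_mod_cast h3))
    rw [Mt_PL h3, Real.log_div (Mt_log_pos (by omega)).ne' (Mt_log_pos (by omega)).ne'] at h2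
    have s1 : (Ioc 3 n).filter Nat.Prime ⊆ insert n (pr 2 n) := by
      intro p hp
      rw [mem_filter, mem_Ioc] at hp
      rw [mem_insert, mem_pr]
      by_cases hpn : p = n
      · exact Or.inl hpn
      · exact Or.inr ⟨⟨by omega, by omega⟩, hp.2⟩
    have s2 : pr 2 n ⊆ insert 2 (insert 3 ((Ioc 3 n).filter Nat.Prime)) := by
      intro p hp
      rw [mem_pr] at hp
      rw [mem_insert, mem_insert, mem_filter, mem_Ioc]
      by_cases h2 : p = 2
      · exact Or.inl h2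
      by_cases h3 : p = 3
      · exact Or.inr (Or.inl h3)
      · exact Or.inr (Or.inr ⟨⟨by omega, by omega⟩, hp.2⟩)
    have hn' : n ∉ pr 2 n := by
      rw [mem_pr]; omega
    have t1 : ∑ p ∈ (Ioc 3 n).filter Nat.Prime, (1 : ℝ) / p ≤ 1 / n + ∑ p ∈ pr 2 n, (1 : ℝ) / p := by
      have t := sum_le_sum_of_subset_of_nonneg (f := fun p : ℕ => (1 : ℝ) / p) s1
        fun _ _ _ => by positivity
      rw [sum_insert hn'] at t
      exact t
    have t2 : ∑ p ∈ pr 2 n, (1 : ℝ) / p ≤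
        1 / (2 : ℕ) + (1 / (3 : ℕ) + ∑ p ∈ (Ioc 3 n).filter Nat.Prime, (1 : ℝ) / p) := by
      have t := sum_le_sum_of_subset_of_nonneg (f := fun p : ℕ => (1 : ℝ) / p) s2
        fun _ _ _ => by positivity
      rw [sum_insert (by simp), sum_insert (by simp)] at t
      exact t
    have t3 : (1 : ℝ) / n ≤ 1 := by
      rw [div_le_one (by exact_mod_cast (by omega : 0 < n))]
      exact_mod_cast (by omega : 1 ≤ n)
    push_cast at t2 h2
    have a1 := abs_nonneg (Real.log (Real.log 2))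
    have a2 := neg_abs_le (Real.log (Real.log 3))
    have a3 := abs_nonneg (Real.log (Real.log 3))
    rw [abs_le]
    constructor
    · linarith only [hD1, h1, t1, t3, a1, a3]
    · linarith only [hC0, h2, t2, a1, a2]

theorem mertens_two : ∃ C : ℝ, 0 < C ∧ ∀ a b : ℕ, 2 ≤ a → a ≤ b →
    |∑ p ∈ pr a b, (1 : ℝ) / p - (Real.log (Real.log b) - Real.log (Real.log a))| ≤ C := by
  obtain ⟨K, hK, h⟩ := Mt_G
  refine ⟨2 * K, by positivity, fun a b ha hab => ?_⟩
  have h1 := h a ha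
  have h2 := h b (by omega)
  have e : ∑ p ∈ pr 2 b, (1 : ℝ) / p = ∑ p ∈ pr 2 a, (1 : ℝ) / p + ∑ p ∈ pr a b, (1 : ℝ) / p := by
    rw [← sum_union]
    · congr 1
      ext p
      rw [mem_union, mem_pr, mem_pr, mem_pr]
      constructor
      · rintro ⟨⟨h1, h2⟩, h3⟩
        by_cases h : p < a
        · exact Or.inl ⟨⟨h1, h⟩, h3⟩
        · exact Or.inr ⟨⟨by omega, h2⟩, h3⟩
      · rintro (⟨⟨h1, h2⟩, h3⟩ | ⟨⟨h1, h2⟩, h3⟩)
        · exact ⟨⟨h1, by omega⟩, h3⟩
        · exact ⟨⟨by omega, h2⟩, h3⟩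
    · rw [disjoint_left]
      intro p hp hq
      rw [mem_pr] at hp hq
      omega
  rw [abs_le] at h1 h2 ⊢
  constructor <;> linarith only [h1, h2, e]

end Pool.Agent.H37.PPC

end

section

/-!
# IS MerA: Mertens-type bounds

You may use any finished file of the pool (e.g. `Pool.Agent.H91.Gold.mertens_wz` (H91/GoldMertens3.lean),
`Pool.Agent.H3.LC.Mertens`, `Pool.Agent.H37.PPC.Mt` ...).

* `sum_fn_le`: ∑_{p ≤ x} 1/(p-1) ≤ loglog x + C   (Mertens' second theorem, upper bound; 1/(p-1) - 1/p ≤ 2/p²).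
* `euler_pow`: ∏ (1 + C/(p-1)) ≤ exp(C ∑ 1/(p-1)) ≤ (log x)^B.
-/

set_option autoImplicit false

namespace Pool.Agent.H36.IS

open Finset Filter

private theorem MerA_tel (x : ℕ) (hx : 1 ≤ x) :
    ∑ p ∈ (range (x + 1)).filter Nat.Prime, (fn p - 1 / (p : ℝ)) ≤ 1 - 1 / (x : ℝ) := by
  induction x, hx using Nat.le_induction with
  | base =>
    have h : (range (1 + 1)).filter Nat.Prime = ∅ := by decide
    rw [h]
    simp
  | succ x hx ih =>
    have hx0 : (0 : ℝ) < x := by exact_mod_cast hx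
    rw [range_add_one, filter_insert]
    have e : fn (x + 1) - 1 / ((x + 1 : ℕ) : ℝ) = 1 / (x : ℝ) - 1 / ((x + 1 : ℕ) : ℝ) := by
      unfold fn
      push_cast
      rw [add_sub_cancel_right]
    have e0 : 0 ≤ 1 / (x : ℝ) - 1 / ((x + 1 : ℕ) : ℝ) := by
      have : 1 / ((x + 1 : ℕ) : ℝ) ≤ 1 / (x : ℝ) := by
        apply one_div_le_one_div_of_le hx0
        push_cast
        linarith only []
      linarith only [this]
    split_ifs with hp
    · rw [sum_insert (by simp), e]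
      linarith only [ih]
    · linarith only [ih, e0]

theorem sum_fn_le : ∃ C : ℝ, ∀ᶠ x : ℕ in atTop,
    ∑ p ∈ (range (x + 1)).filter Nat.Prime, fn p ≤ Real.log (Real.log x) + C := by
  obtain ⟨C, hC, hM⟩ := Pool.Agent.H37.PPC.mertens_two
  refine ⟨1 + C + Real.log 2 - Real.log (Real.log 2), ?_⟩
  filter_upwards [eventually_ge_atTop 3] with x hx
  have hx3 : (3 : ℝ) ≤ x := by exact_mod_cast hx
  have hx0 : (0 : ℝ) < x := by linarith only [hx3]
  have h1 := MerA_tel x (by omega)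
  rw [sum_sub_distrib] at h1
  have h2 := (abs_le.mp (hM 2 (x + 1) le_rfl (by omega))).2
  have h3 : Pool.Agent.H37.PPC.pr 2 (x + 1) = (range (x + 1)).filter Nat.Prime := by
    ext p
    rw [Pool.Agent.H37.PPC.mem_pr, mem_filter, mem_range]
    constructor
    · rintro ⟨⟨_, h⟩, hp⟩
      exact ⟨h, hp⟩
    · rintro ⟨h, hp⟩
      exact ⟨⟨hp.two_le, h⟩, hp⟩
  rw [h3] at h2
  have hlogx : 1 < Real.log x := by
    rw [Real.lt_log_iff_exp_lt hx0]
    have := Real.exp_one_lt_d9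
    linarith only [hx3, this]
  have h4 : Real.log ((x + 1 : ℕ) : ℝ) ≤ 2 * Real.log x := by
    have h5 : ((x + 1 : ℕ) : ℝ) ≤ (x : ℝ) ^ 2 := by
      push_cast
      nlinarith only [hx3]
    calc Real.log ((x + 1 : ℕ) : ℝ) ≤ Real.log ((x : ℝ) ^ 2) :=
          Real.log_le_log (by positivity) h5
      _ = 2 * Real.log x := by rw [Real.log_pow]; push_cast; ring
  have h6 : 0 < Real.log ((x + 1 : ℕ) : ℝ) := by
    apply Real.log_pos
    push_cast
    linarith only [hx3]
  have h7 : Real.log (Real.log ((x + 1 : ℕ) : ℝ)) ≤ Real.log 2 + Real.log (Real.log x) := by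
    rw [← Real.log_mul (by norm_num) (by linarith only [hlogx])]
    exact Real.log_le_log h6 h4
  have h8 : 0 ≤ 1 / (x : ℝ) := by positivity
  have h9 : ((2 : ℕ) : ℝ) = 2 := by norm_num
  rw [h9] at h2
  linarith only [h1, h2, h7, h8]

theorem euler_pow (C : ℝ) (hC : 0 ≤ C) : ∃ B : ℕ, ∀ᶠ x : ℕ in atTop,
    ∏ p ∈ (range (x + 1)).filter Nat.Prime, (1 + C * fn p) ≤ Real.log x ^ B := by
  obtain ⟨C', hC'⟩ := sum_fn_le
  refine ⟨⌈C⌉₊ + 1, ?_⟩
  have ht : Tendsto (fun x : ℕ => Real.log (Real.log x)) atTop atTop :=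
    Real.tendsto_log_atTop.comp (Real.tendsto_log_atTop.comp tendsto_natCast_atTop_atTop)
  filter_upwards [hC', ht.eventually_ge_atTop (C * C'), ht.eventually_ge_atTop 0,
    eventually_ge_atTop 3] with x h1 h2 h3 hx
  have hx3 : (3 : ℝ) ≤ x := by exact_mod_cast hx
  have hx0 : (0 : ℝ) < x := by linarith only [hx3]
  have hlogx : 1 < Real.log x := by
    rw [Real.lt_log_iff_exp_lt hx0]
    have := Real.exp_one_lt_d9
    linarith only [hx3, this]
  have hfn : ∀ p ∈ (range (x + 1)).filter Nat.Prime, 0 ≤ fn p := by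
    intro p hp
    have hp' := (mem_filter.mp hp).2.two_le
    have hp2 : (2 : ℝ) ≤ p := by exact_mod_cast hp'
    unfold fn
    apply one_div_nonneg.mpr
    linarith only [hp2]
  calc ∏ p ∈ (range (x + 1)).filter Nat.Prime, (1 + C * fn p)
      ≤ ∏ p ∈ (range (x + 1)).filter Nat.Prime, Real.exp (C * fn p) := by
        refine prod_le_prod (fun p hp => ?_) (fun p hp => ?_)
        · have := mul_nonneg hC (hfn p hp)
          linarith only [this]
        · have := Real.add_one_le_exp (C * fn p)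
          linarith only [this]
    _ = Real.exp (C * ∑ p ∈ (range (x + 1)).filter Nat.Prime, fn p) := by
        rw [← Real.exp_sum, mul_sum]
    _ ≤ Real.exp ((⌈C⌉₊ + 1 : ℕ) * Real.log (Real.log x)) := by
        apply Real.exp_le_exp.mpr
        have h4 : C * ∑ p ∈ (range (x + 1)).filter Nat.Prime, fn p
            ≤ C * (Real.log (Real.log x) + C') := mul_le_mul_of_nonneg_left h1 hC
        have h5 : C * Real.log (Real.log x) ≤ ⌈C⌉₊ * Real.log (Real.log x) :=
          mul_le_mul_of_nonneg_right (Nat.le_ceil C) h3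
        push_cast
        linarith only [h2, h4, h5]
    _ = Real.log x ^ (⌈C⌉₊ + 1) := by
        rw [Real.exp_nat_mul, Real.exp_log (by linarith only [hlogx])]

end Pool.Agent.H36.IS

end

section

/-!
# IS AsyA: sums over sets of primes

* `sum_pow_le`: ∑_{Z ⊆ P, ∏ ≤ Y} C^|Z| ≤ Y ∑_Z C^|Z|/∏Z ≤ Y ∏_{p∈P} (1 + C/p)   (`Finset.prod_one_add`-type identity).
* `l1_le`: ∑_{Q ⊆ EX} M^|Q| ∏ fn(e.2) = ∏_{e∈EX} (1 + M fn e.2) ≤ (∏_{p≤x} (1 + M fn p))^|ι| ≤ (log x)^B (`euler_pow`).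
* `incons_le`: if Prod.snd is not injective on Q there are p ∈ PX and i ≠ j with (i,p), (j,p) ∈ Q; so the sum is at most
  ∑_{p∈PX} ∑_{i≠j} M² fn(p)² ∑_{Q'} M^|Q'| ∏ fn ≤ k² M² (log x)^B ∑_{p > z0} fn(p)² ≤ 8 k² M² (log x)^B/z0 ≤ (log x)^{-A},
  since z0 = exp(log x/(loglog x)²).
-/

set_option autoImplicit false

namespace Pool.Agent.H36.IS

open Finset Filter

private theorem AsyA_fn_nonneg {p : ℕ} (hp : p.Prime) : 0 ≤ fn p := by
  unfold fn
  have : (1 : ℝ) ≤ p := by exact_mod_cast hp.one_lt.le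
  exact div_nonneg zero_le_one (by linarith only [this])

private theorem AsyA_mem_PX {x p : ℕ} (hp : p ∈ PX x) : p.Prime ∧ z0 x < (p : ℝ) ∧ p ≤ x := by
  unfold PX at hp
  rw [mem_filter, mem_range] at hp
  exact ⟨hp.2.1, hp.2.2, by omega⟩

private theorem AsyA_PX_sub (x : ℕ) : PX x ⊆ (range (x + 1)).filter Nat.Prime := by
  intro p hp
  have h := AsyA_mem_PX hp
  rw [mem_filter, mem_range]
  exact ⟨by omega, h.1⟩

private theorem AsyA_wt {α : Type*} (M : ℝ) (f : α → ℝ) (Q : Finset α) :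
    M ^ Q.card * ∏ e ∈ Q, f e = ∏ e ∈ Q, (M * f e) := by
  rw [prod_mul_distrib, prod_const]

theorem sum_pow_le (P : Finset ℕ) (hP : ∀ p ∈ P, p.Prime) (C Y : ℝ) (hC : 0 ≤ C) (hY : 0 ≤ Y) :
    ∑ Z ∈ P.powerset.filter (fun Z : Finset ℕ => ∏ p ∈ Z, (p : ℝ) ≤ Y), C ^ Z.card ≤ Y * ∏ p ∈ P, (1 + C / p) := by
  have h1 : ∀ Z ∈ P.powerset.filter (fun Z : Finset ℕ => ∏ p ∈ Z, (p : ℝ) ≤ Y),
      C ^ Z.card ≤ Y * ∏ p ∈ Z, (C / p) := by
    intro Z hZ
    rw [mem_filter, mem_powerset] at hZ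
    have hpos : 0 < ∏ p ∈ Z, (p : ℝ) := prod_pos fun p hp => by
      exact_mod_cast (hP p (hZ.1 hp)).pos
    have h2 : ∏ p ∈ Z, (C / (p : ℝ)) = C ^ Z.card / ∏ p ∈ Z, (p : ℝ) := by
      rw [prod_div_distrib, prod_const]
    rw [h2, mul_div_assoc', le_div_iff₀ hpos]
    have h3 : 0 ≤ C ^ Z.card := pow_nonneg hC _
    nlinarith only [hZ, h3]
  refine (sum_le_sum h1).trans ?_
  rw [← mul_sum, prod_one_add]
  refine mul_le_mul_of_nonneg_left ?_ hY
  refine sum_le_sum_of_subset_of_nonneg (filter_subset _ _) fun Z _ _ => ?_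
  exact prod_nonneg fun p _ => div_nonneg hC (Nat.cast_nonneg _)

theorem l1_le (ι : Type) [Fintype ι] [DecidableEq ι] (M : ℝ) (hM : 0 ≤ M) : ∃ B : ℕ, ∀ᶠ x : ℕ in atTop,
    ∑ Q ∈ (EX ι x).powerset, M ^ Q.card * ∏ e ∈ Q, fn e.2 ≤ Real.log x ^ B := by
  obtain ⟨B, hB⟩ := euler_pow M hM
  refine ⟨B * Fintype.card ι, ?_⟩
  filter_upwards [hB] with x hx
  have h1 : ∑ Q ∈ (EX ι x).powerset, M ^ Q.card * ∏ e ∈ Q, fn e.2 =
      ∏ e ∈ EX ι x, (1 + M * fn e.2) := by
    rw [prod_one_add]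
    exact sum_congr rfl fun Q _ => AsyA_wt M (fun e : ι × ℕ => fn e.2) Q
  have h2 : ∏ e ∈ EX ι x, (1 + M * fn e.2) = (∏ p ∈ PX x, (1 + M * fn p)) ^ Fintype.card ι := by
    unfold EX
    rw [prod_product]
    dsimp only
    rw [prod_const, card_univ]
  have h3 : ∀ p ∈ (range (x + 1)).filter Nat.Prime, 1 ≤ 1 + M * fn p := by
    intro p hp
    have := mul_nonneg hM (AsyA_fn_nonneg (mem_filter.1 hp).2)
    linarith only [this]
  have h4 : ∏ p ∈ PX x, (1 + M * fn p) ≤
      ∏ p ∈ (range (x + 1)).filter Nat.Prime, (1 + M * fn p) :=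
    prod_le_prod_of_subset_of_one_le (AsyA_PX_sub x)
      (fun p hp => zero_le_one.trans (h3 p (AsyA_PX_sub x hp))) fun p hp _ => h3 p hp
  have h5 : 0 ≤ ∏ p ∈ PX x, (1 + M * fn p) :=
    prod_nonneg fun p hp => zero_le_one.trans (h3 p (AsyA_PX_sub x hp))
  rw [h1, h2, pow_mul]
  exact pow_le_pow_left₀ h5 (h4.trans hx) _

private theorem AsyA_z0_large (K : ℝ) (m : ℕ) : ∀ᶠ x : ℕ in atTop,
    K * Real.log x ^ m ≤ z0 x := by
  have hL : Tendsto (fun x : ℕ => Real.log (x : ℝ)) atTop atTop :=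
    Real.tendsto_log_atTop.comp tendsto_natCast_atTop_atTop
  set k0 : ℝ := Real.log (|K| + 1) with hk0
  have hk0' : 0 ≤ k0 := Real.log_nonneg (by linarith only [abs_nonneg K])
  have hpos : 0 < k0 + m + 1 := by positivity
  have h1 : ∀ᶠ L : ℝ in atTop, (k0 + m) * Real.log L ^ 3 ≤ L := by
    have h2 := (Real.isLittleO_pow_log_id_atTop (n := 3)).bound (inv_pos.2 hpos)
    filter_upwards [h2, eventually_ge_atTop (1 : ℝ)] with L h3 hL1
    have hlog : 0 ≤ Real.log L := Real.log_nonneg hL1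
    simp only [id] at h3
    rw [Real.norm_of_nonneg (pow_nonneg hlog 3), Real.norm_of_nonneg (by linarith only [hL1]),
      ← div_eq_inv_mul, le_div_iff₀ hpos] at h3
    have h4 : 0 ≤ Real.log L ^ 3 := pow_nonneg hlog 3
    linarith only [h3, h4]
  have h2 : ∀ᶠ L : ℝ in atTop, K * L ^ m ≤ Real.exp (L / Real.log L ^ 2) := by
    filter_upwards [h1, eventually_ge_atTop (Real.exp 1)] with L h3 hL1
    have hL0 : 0 < L := (Real.exp_pos 1).trans_le hL1
    have hlog : 1 ≤ Real.log L := (Real.le_log_iff_exp_le hL0).2 hL1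
    have h4 : K ≤ Real.exp k0 := by
      rw [hk0, Real.exp_log (by positivity)]
      linarith only [le_abs_self K]
    have h5 : L ^ m = Real.exp (m * Real.log L) := by
      rw [Real.exp_nat_mul, Real.exp_log hL0]
    have h6 : k0 + m * Real.log L ≤ L / Real.log L ^ 2 := by
      rw [le_div_iff₀ (by positivity)]
      have h7 : (k0 + m * Real.log L) * Real.log L ^ 2 ≤ (k0 + m) * Real.log L ^ 3 := by
        have h8 : 0 ≤ k0 * Real.log L ^ 2 * (Real.log L - 1) :=
          mul_nonneg (mul_nonneg hk0' (by positivity)) (by linarith only [hlog])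
        linarith only [h8]
      exact h7.trans h3
    calc K * L ^ m ≤ Real.exp k0 * Real.exp (m * Real.log L) := by
          rw [h5]
          exact mul_le_mul_of_nonneg_right h4 (Real.exp_pos _).le
      _ = Real.exp (k0 + m * Real.log L) := (Real.exp_add _ _).symm
      _ ≤ _ := Real.exp_le_exp.2 h6
  exact hL.eventually h2

private theorem AsyA_pair {α : Type*} [DecidableEq α] (S : Finset α) (w : α → ℝ)
    (hw : ∀ e ∈ S, 0 ≤ w e) {e e' : α} (hne : e ≠ e') (he : e ∈ S) (he' : e' ∈ S) :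
    ∑ Q ∈ S.powerset.filter (fun Q => e ∈ Q ∧ e' ∈ Q), ∏ x ∈ Q, w x ≤
      w e * w e' * ∑ Q ∈ S.powerset, ∏ x ∈ Q, w x := by
  have hsub : ∀ Q ∈ S.powerset.filter (fun Q => e ∈ Q ∧ e' ∈ Q), ({e, e'} : Finset α) ⊆ Q := by
    intro Q hQ
    rw [mem_filter] at hQ
    intro x hx
    rw [mem_insert, mem_singleton] at hx
    rcases hx with rfl | rfl
    · exact hQ.2.1
    · exact hQ.2.2
  have h1 : ∀ Q ∈ S.powerset.filter (fun Q => e ∈ Q ∧ e' ∈ Q),
      ∏ x ∈ Q, w x = w e * w e' * ∏ x ∈ Q \ {e, e'}, w x := by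
    intro Q hQ
    rw [← prod_sdiff (hsub Q hQ), prod_pair hne]
    ring
  rw [sum_congr rfl h1, ← mul_sum]
  refine mul_le_mul_of_nonneg_left ?_ (mul_nonneg (hw e he) (hw e' he'))
  have h2 : Set.InjOn (fun Q : Finset α => Q \ {e, e'})
      (S.powerset.filter (fun Q => e ∈ Q ∧ e' ∈ Q) : Set (Finset α)) := by
    intro Q hQ Q' hQ' h
    have h3 : Q \ {e, e'} = Q' \ {e, e'} := h
    rw [← sdiff_union_of_subset (hsub Q (mem_coe.1 hQ)),
      ← sdiff_union_of_subset (hsub Q' (mem_coe.1 hQ')), h3]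
  have h4 : ∑ Q ∈ S.powerset.filter (fun Q => e ∈ Q ∧ e' ∈ Q), ∏ x ∈ Q \ {e, e'}, w x =
      ∑ R ∈ (S.powerset.filter (fun Q => e ∈ Q ∧ e' ∈ Q)).image
        (fun Q : Finset α => Q \ {e, e'}), ∏ x ∈ R, w x :=
    (sum_image (f := fun R : Finset α => ∏ x ∈ R, w x) h2).symm
  rw [h4]
  refine sum_le_sum_of_subset_of_nonneg ?_ fun Q hQ _ =>
    prod_nonneg fun x hx => hw x (mem_powerset.1 hQ hx)
  intro R hR
  obtain ⟨Q, hQ, rfl⟩ := mem_image.1 hR
  rw [mem_powerset]
  exact sdiff_subset.trans (mem_powerset.1 (mem_filter.1 hQ).1)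

open Classical in
theorem incons_le (ι : Type) [Fintype ι] [DecidableEq ι] (M : ℝ) (hM : 0 ≤ M) (A : ℕ) : ∀ᶠ x : ℕ in atTop,
    ∑ Q ∈ (EX ι x).powerset.filter (fun Q : Finset (ι × ℕ) => ¬ Set.InjOn Prod.snd (Q : Set (ι × ℕ))),
      M ^ Q.card * ∏ e ∈ Q, fn e.2 ≤ 1 / Real.log x ^ A := by
  obtain ⟨B, hB⟩ := l1_le ι M hM
  obtain ⟨C, hC⟩ := sum_fn_le
  have hL : Tendsto (fun x : ℕ => Real.log (x : ℝ)) atTop atTop :=
    Real.tendsto_log_atTop.comp tendsto_natCast_atTop_atTop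
  have hLL : ∀ᶠ x : ℕ in atTop, Real.log (Real.log x) + C ≤ 2 * Real.log x := by
    filter_upwards [hL.eventually_ge_atTop (max 1 C)] with x hx
    have h1 : 1 ≤ Real.log (x : ℝ) := (le_max_left _ _).trans hx
    have h2 : C ≤ Real.log (x : ℝ) := (le_max_right _ _).trans hx
    have h3 := Real.log_le_sub_one_of_pos (show 0 < Real.log (x : ℝ) by linarith only [h1])
    linarith only [h2, h3]
  have hZ := AsyA_z0_large
    (4 * (Fintype.card (ι × ι) : ℝ) * M ^ 2) (B + 1 + A)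
  filter_upwards [hB, hC, hLL, hZ, hL.eventually_ge_atTop 1, eventually_ge_atTop 1] with x hBx hCx
    hLLx hZx hlog1 hx1
  have hlog0 : 0 < Real.log (x : ℝ) := by linarith only [hlog1]
  have hz0 : 0 < z0 x := by
    unfold z0
    exact Real.exp_pos _
  set w : ι × ℕ → ℝ := fun e => M * fn e.2 with hw
  have hw0 : ∀ e ∈ EX ι x, 0 ≤ w e := by
    intro e he
    unfold EX at he
    rw [mem_product] at he
    exact mul_nonneg hM (AsyA_fn_nonneg (AsyA_mem_PX he.2).1)
  have hwt : ∀ Q : Finset (ι × ℕ), M ^ Q.card * ∏ e ∈ Q, fn e.2 = ∏ e ∈ Q, w e := fun Q =>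
    AsyA_wt M (fun e : ι × ℕ => fn e.2) Q
  simp only [hwt] at hBx ⊢
  set Sg := ∑ Q ∈ (EX ι x).powerset, ∏ e ∈ Q, w e with hSg
  have hprod0 : ∀ Q ∈ (EX ι x).powerset, 0 ≤ ∏ e ∈ Q, w e := fun Q hQ =>
    prod_nonneg fun e he => hw0 e (mem_powerset.1 hQ he)
  have hSg0 : 0 ≤ Sg := sum_nonneg hprod0
  set T : Finset ((ι × ι) × ℕ) := (univ : Finset (ι × ι)) ×ˢ PX x with hT
  -- pointwise bound
  have h1 : ∀ Q ∈ (EX ι x).powerset.filter
      (fun Q : Finset (ι × ℕ) => ¬ Set.InjOn Prod.snd (Q : Set (ι × ℕ))),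
      ∏ e ∈ Q, w e ≤ ∑ t ∈ T, if t.1.1 ≠ t.1.2 ∧ (t.1.1, t.2) ∈ Q ∧ (t.1.2, t.2) ∈ Q then
        ∏ e ∈ Q, w e else 0 := by
    intro Q hQ
    rw [mem_filter] at hQ
    obtain ⟨hQ1, hQ2⟩ := hQ
    have h2 := hprod0 Q hQ1
    unfold Set.InjOn at hQ2
    push Not at hQ2
    obtain ⟨e, he, e', he', hee, hne⟩ := hQ2
    have heX := mem_powerset.1 hQ1 (mem_coe.1 he)
    unfold EX at heX
    rw [mem_product] at heX
    have ht : ((e.1, e'.1), e.2) ∈ T := by
      rw [hT, mem_product]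
      exact ⟨mem_univ _, heX.2⟩
    have h3 := single_le_sum (f := fun t : (ι × ι) × ℕ =>
      if t.1.1 ≠ t.1.2 ∧ (t.1.1, t.2) ∈ Q ∧ (t.1.2, t.2) ∈ Q then ∏ e ∈ Q, w e else 0)
      (fun t _ => by
        split_ifs
        · exact h2
        · exact le_rfl) ht
    refine le_trans (le_of_eq ?_) h3
    rw [if_pos]
    refine ⟨?_, mem_coe.1 he, ?_⟩
    · intro h
      exact hne (Prod.ext h hee)
    · rw [hee]
      exact mem_coe.1 he'
  have h2 : ∑ Q ∈ (EX ι x).powerset.filter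
      (fun Q : Finset (ι × ℕ) => ¬ Set.InjOn Prod.snd (Q : Set (ι × ℕ))), ∏ e ∈ Q, w e ≤
      ∑ t ∈ T, ∑ Q ∈ (EX ι x).powerset, if t.1.1 ≠ t.1.2 ∧ (t.1.1, t.2) ∈ Q ∧ (t.1.2, t.2) ∈ Q then
        ∏ e ∈ Q, w e else 0 := by
    refine (sum_le_sum h1).trans ?_
    rw [sum_comm]
    refine sum_le_sum fun t _ => ?_
    refine sum_le_sum_of_subset_of_nonneg (filter_subset _ _) fun Q hQ _ => ?_
    split_ifs
    · exact hprod0 Q hQ
    · exact le_rfl
  have h3 : ∀ t ∈ T, ∑ Q ∈ (EX ι x).powerset,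
      (if t.1.1 ≠ t.1.2 ∧ (t.1.1, t.2) ∈ Q ∧ (t.1.2, t.2) ∈ Q then ∏ e ∈ Q, w e else 0) ≤
      M ^ 2 * Sg * (fn t.2 * (2 / z0 x)) := by
    intro t ht
    rw [hT, mem_product] at ht
    obtain ⟨hp, hpz, hpx⟩ := AsyA_mem_PX ht.2
    have hf0 := AsyA_fn_nonneg hp
    have hf1 : fn t.2 ≤ 2 / z0 x := by
      have hp2 : (2 : ℝ) ≤ t.2 := by exact_mod_cast hp.two_le
      unfold fn
      rw [div_le_div_iff₀ (by linarith only [hp2]) hz0]
      linarith only [hpz, hp2]
    have hbd : 0 ≤ M ^ 2 * Sg * (fn t.2 * (2 / z0 x)) := by positivity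
    by_cases hne : t.1.1 = t.1.2
    · have : ∀ Q ∈ (EX ι x).powerset,
          (if t.1.1 ≠ t.1.2 ∧ (t.1.1, t.2) ∈ Q ∧ (t.1.2, t.2) ∈ Q then ∏ e ∈ Q, w e else 0) = 0 :=
        fun Q _ => if_neg fun h => h.1 hne
      rw [sum_congr rfl this, sum_const_zero]
      exact hbd
    · have he : (t.1.1, t.2) ∈ EX ι x := by
        unfold EX
        rw [mem_product]
        exact ⟨mem_univ _, ht.2⟩
      have he' : (t.1.2, t.2) ∈ EX ι x := by
        unfold EX
        rw [mem_product]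
        exact ⟨mem_univ _, ht.2⟩
      have hne' : ((t.1.1, t.2) : ι × ℕ) ≠ (t.1.2, t.2) := fun h => hne (congrArg Prod.fst h)
      have h4 := AsyA_pair (EX ι x) w hw0 hne' he he'
      rw [sum_filter] at h4
      have h5 : ∀ Q ∈ (EX ι x).powerset,
          (if t.1.1 ≠ t.1.2 ∧ (t.1.1, t.2) ∈ Q ∧ (t.1.2, t.2) ∈ Q then ∏ e ∈ Q, w e else 0) =
          if (t.1.1, t.2) ∈ Q ∧ (t.1.2, t.2) ∈ Q then ∏ e ∈ Q, w e else 0 := by
        intro Q _
        by_cases h6 : (t.1.1, t.2) ∈ Q ∧ (t.1.2, t.2) ∈ Q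
        · rw [if_pos h6, if_pos ⟨hne, h6⟩]
        · rw [if_neg h6, if_neg fun h => h6 h.2]
      rw [sum_congr rfl h5]
      refine h4.trans ?_
      have h6 : w (t.1.1, t.2) * w (t.1.2, t.2) * Sg = M ^ 2 * Sg * (fn t.2 * fn t.2) := by
        simp only [hw]
        ring
      rw [h6]
      exact mul_le_mul_of_nonneg_left (mul_le_mul_of_nonneg_left hf1 hf0) (by positivity)
  have h4 : ∑ t ∈ T, M ^ 2 * Sg * (fn t.2 * (2 / z0 x)) =
      (Fintype.card (ι × ι) : ℝ) * (M ^ 2 * Sg * (2 / z0 x)) * ∑ p ∈ PX x, fn p := by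
    rw [hT, sum_product]
    dsimp only
    have h7 : ∑ p ∈ PX x, M ^ 2 * Sg * (fn p * (2 / z0 x)) =
        M ^ 2 * Sg * (2 / z0 x) * ∑ p ∈ PX x, fn p := by
      rw [mul_sum (PX x) fn]
      refine sum_congr rfl fun p _ => ?_
      ring
    rw [sum_const, card_univ, nsmul_eq_mul, h7]
    ring
  have h5 : ∑ p ∈ PX x, fn p ≤ 2 * Real.log x := by
    refine le_trans ?_ (hCx.trans hLLx)
    exact sum_le_sum_of_subset_of_nonneg (AsyA_PX_sub x) fun p hp _ =>
      AsyA_fn_nonneg (mem_filter.1 hp).2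
  refine h2.trans ((sum_le_sum h3).trans ?_)
  rw [h4]
  have h6 : (Fintype.card (ι × ι) : ℝ) * (M ^ 2 * Sg * (2 / z0 x)) * ∑ p ∈ PX x, fn p ≤
      (Fintype.card (ι × ι) : ℝ) * (M ^ 2 * Real.log x ^ B * (2 / z0 x)) * (2 * Real.log x) := by
    have h7 : 0 ≤ ∑ p ∈ PX x, fn p := sum_nonneg fun p hp => AsyA_fn_nonneg (AsyA_mem_PX hp).1
    gcongr
  refine h6.trans ?_
  rw [le_div_iff₀ (pow_pos hlog0 A)]
  have h8 : (Fintype.card (ι × ι) : ℝ) * (M ^ 2 * Real.log x ^ B * (2 / z0 x)) *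
      (2 * Real.log x) * Real.log x ^ A =
      (4 * (Fintype.card (ι × ι) : ℝ) * M ^ 2 * Real.log x ^ (B + 1 + A)) / z0 x := by
    rw [pow_add, pow_add, pow_one]
    ring
  rw [h8, div_le_one hz0]
  exact hZx

end Pool.Agent.H36.IS

end
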