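import Pool.Agent.H15.TB1.M11

/-! The parts of this file: H36.IS.GL, H36.IS.Bon, H36.IS.TrAbs. -/

section

/-!
# IS GL: lower bound for rough sums (elementary, no error term)

`GG_low`: for 0 ≤ t ≤ δ log x:  A0 x · t ≤ GG (PZ x δ) t,
GG P t = ∑_{S ⊆ P, lg S ≤ t} ∏_{p∈S} 1/(p-1), PZ x δ = primes in (z0, x^δ], A0 = ∏_{p ≤ z0} (1-1/p).

Proof.  Let y = e^t ≤ x^δ ≤ x.  t = log y ≤ ∑_{n ≤ y} 1/n.  Write n = a m with a composed of primes ≤ z0 and m composed of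
primes > z0 (both ≤ y): ∑_{n≤y} 1/n ≤ (∑_{a ≤ y, z0-smooth} 1/a)(∑_{m ≤ y, rough} 1/m), the first factor is
≤ ∏_{p ≤ z0} (1-1/p)^{-1} = A0^{-1} (finite product of geometric series), and
∑_{m ≤ y rough} 1/m ≤ ∑_{S ⊆ PZ x δ, lg S ≤ t} ∏_{p∈S} (1/p + 1/p² + ...) = GG (PZ x δ) t : group m by its set S of prime
factors; lg S ≤ log m ≤ t, and all primes of m are ≤ y ≤ x^δ.
(Mathlib: `Nat.smoothNumbers`, `EulerProduct.*`, `Nat.primeFactors`; or induction on the finite set of primes: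
for finite sets of primes Q, ∑_{n ≤ y, primeFactors n ⊆ Q} 1/n ≤ ∏_{Q}(1-1/p)^{-1}.)
-/

set_option autoImplicit false

namespace Pool.Agent.H36.IS

open Finset Filter

private noncomputable def GL_f : ℕ →* ℝ where
  toFun n := (n : ℝ)⁻¹
  map_one' := by simp
  map_mul' a b := by
    push_cast
    rw [mul_inv]

private theorem GL_R {Q A : Finset ℕ} (hQ : ∀ p ∈ Q, p.Prime)
    (hA : ∀ n ∈ A, n ≠ 0 ∧ n.primeFactors ⊆ Q) :
    ∑ n ∈ A, (n : ℝ)⁻¹ ≤ ∏ p ∈ Q, (1 - (p : ℝ)⁻¹)⁻¹ := by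
  have h : ∀ {p : ℕ}, p.Prime → ‖GL_f p‖ < 1 := by
    intro p hp
    have h2 : (2 : ℝ) ≤ p := by exact_mod_cast hp.two_le
    show ‖(p : ℝ)⁻¹‖ < 1
    rw [norm_inv, Real.norm_natCast]
    exact inv_lt_one_of_one_lt₀ (by linarith only [h2])
  have h1 := (EulerProduct.summable_and_hasSum_factoredNumbers_prod_filter_prime_geometric h Q).2
  have h2 : HasSum ((Nat.factoredNumbers Q).indicator fun n => GL_f n)
      (∏ p ∈ Q with p.Prime, (1 - GL_f p)⁻¹) :=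
    hasSum_subtype_iff_indicator.mp h1
  have h3 : Q.filter Nat.Prime = Q := filter_true_of_mem hQ
  rw [h3] at h2
  have h5 : ∀ n : ℕ, 0 ≤ (Nat.factoredNumbers Q).indicator (fun n => GL_f n) n := by
    intro n
    apply Set.indicator_nonneg
    intro m _
    show (0 : ℝ) ≤ ((m : ℕ) : ℝ)⁻¹
    exact inv_nonneg.mpr (Nat.cast_nonneg _)
  have h4 := sum_le_hasSum A (fun n _ => h5 n) h2
  refine le_trans (le_of_eq ?_) h4
  refine sum_congr rfl (fun n hn => ?_)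
  rw [Set.indicator_of_mem (Nat.mem_factoredNumbers_iff_primeFactors_subset.mpr (hA n hn))]
  rfl

private theorem GL_S {P S A : Finset ℕ} (hP : ∀ p ∈ P, p.Prime) (hS : ∀ p ∈ S, p.Prime)
    (hPS : Disjoint P S) (hA : ∀ n ∈ A, n ≠ 0 ∧ n.primeFactors \ P = S) :
    ∑ n ∈ A, (n : ℝ)⁻¹ ≤ (∏ p ∈ P, (1 - (p : ℝ)⁻¹)⁻¹) * ∏ p ∈ S, fn p := by
  have hD0 : 0 < ∏ p ∈ S, p := prod_pos (fun p hp => (hS p hp).pos)
  have hdvd : ∀ n ∈ A, (∏ p ∈ S, p) ∣ n := by
    intro n hn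
    have h1 : S ⊆ n.primeFactors := by
      rw [← (hA n hn).2]
      exact sdiff_subset
    exact (prod_dvd_prod_of_subset S n.primeFactors (fun p => p) h1).trans
      (Nat.prod_primeFactors_dvd n)
  have hinj : Set.InjOn (fun n => n / ∏ p ∈ S, p) (A : Set ℕ) := by
    intro a ha b hb hab
    have h1 : a / (∏ p ∈ S, p) = b / (∏ p ∈ S, p) := hab
    have h2 := Nat.div_mul_cancel (hdvd a ha)
    have h3 := Nat.div_mul_cancel (hdvd b hb)
    rw [← h2, ← h3, h1]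
  have h1 : ∑ n ∈ A, (n : ℝ)⁻¹ = (∏ p ∈ S, (p : ℝ)⁻¹) *
      ∑ m ∈ A.image (fun n => n / ∏ p ∈ S, p), (m : ℝ)⁻¹ := by
    rw [sum_image hinj, mul_sum]
    refine sum_congr rfl (fun n hn => ?_)
    rw [prod_inv_distrib, ← mul_inv]
    congr 1
    rw [← Nat.cast_prod, ← Nat.cast_mul, mul_comm, Nat.div_mul_cancel (hdvd n hn)]
  have h2 : ∑ m ∈ A.image (fun n => n / ∏ p ∈ S, p), (m : ℝ)⁻¹ ≤
      ∏ p ∈ P ∪ S, (1 - (p : ℝ)⁻¹)⁻¹ := by
    apply GL_R
    · intro p hp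
      rcases mem_union.mp hp with h | h
      · exact hP p h
      · exact hS p h
    · intro m hm
      obtain ⟨n, hn, rfl⟩ := mem_image.mp hm
      have h3 : n / (∏ p ∈ S, p) ∣ n := Nat.div_dvd_of_dvd (hdvd n hn)
      have h4 : n / (∏ p ∈ S, p) ≠ 0 := by
        intro h0
        rw [h0] at h3
        exact (hA n hn).1 (zero_dvd_iff.mp h3)
      refine ⟨h4, (Nat.primeFactors_mono h3 (hA n hn).1).trans ?_⟩
      intro p hp
      by_cases hpP : p ∈ P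
      · exact mem_union_left _ hpP
      · apply mem_union_right
        rw [← (hA n hn).2]
        exact mem_sdiff.mpr ⟨hp, hpP⟩
  have h5 : ∏ p ∈ S, (p : ℝ)⁻¹ * (1 - (p : ℝ)⁻¹)⁻¹ = ∏ p ∈ S, fn p := by
    refine prod_congr rfl (fun p hp => ?_)
    have h2 : (2 : ℝ) ≤ p := by exact_mod_cast (hS p hp).two_le
    have h3 : (p : ℝ) ≠ 0 := by linarith only [h2]
    have h4 : (p : ℝ) - 1 ≠ 0 := by linarith only [h2]
    unfold fn
    rw [← mul_inv, one_div]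
    congr 1
    field_simp
  calc ∑ n ∈ A, (n : ℝ)⁻¹ ≤ (∏ p ∈ S, (p : ℝ)⁻¹) * ∏ p ∈ P ∪ S, (1 - (p : ℝ)⁻¹)⁻¹ := by
        rw [h1]
        exact mul_le_mul_of_nonneg_left h2
          (prod_nonneg (fun p _ => inv_nonneg.mpr (Nat.cast_nonneg p)))
    _ = (∏ p ∈ P, (1 - (p : ℝ)⁻¹)⁻¹) * ∏ p ∈ S, fn p := by
        rw [prod_union hPS, ← h5, prod_mul_distrib]
        ring

theorem GG_low : ∀ᶠ x : ℕ in atTop, ∀ δ : ℝ, 0 < δ → δ ≤ 1 → ∀ t : ℝ, 0 ≤ t → t ≤ δ * Real.log x →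
    A0 x * t ≤ GG (PZ x δ) t := by
  filter_upwards [eventually_ge_atTop 1] with x hx δ hδ hδ1 t ht htx
  have hx1 : (1 : ℝ) ≤ x := by exact_mod_cast hx
  have hx0 : (0 : ℝ) < x := by linarith only [hx1]
  have hlog : 0 ≤ Real.log x := Real.log_nonneg hx1
  set N := ⌊Real.exp t⌋₊ with hN
  have hNt : (N : ℝ) ≤ Real.exp t := Nat.floor_le (Real.exp_pos t).le
  have hNt' : Real.exp t < N + 1 := Nat.lt_floor_add_one _
  have hy : Real.exp t ≤ (x : ℝ) ^ δ := by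
    rw [Real.rpow_def_of_pos hx0]
    apply Real.exp_le_exp.mpr
    linarith only [htx]
  have hyx : Real.exp t ≤ x := by
    calc Real.exp t ≤ Real.exp (Real.log x) := by
          apply Real.exp_le_exp.mpr
          have := mul_le_mul_of_nonneg_right hδ1 hlog
          linarith only [htx, this]
      _ = x := Real.exp_log hx0
  have hPA : ∀ p ∈ PA x, p.Prime := fun p hp => (mem_filter.mp hp).2.1
  have hPX : ∀ p ∈ PX x, p.Prime ∧ z0 x < (p : ℝ) := fun p hp => (mem_filter.mp hp).2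
  have hPZ : ∀ p ∈ PZ x δ, p.Prime ∧ z0 x < (p : ℝ) := fun p hp => hPX p (mem_filter.mp hp).1
  have hcov : ∀ p : ℕ, p.Prime → p ≤ N → p ∈ PA x ∨ p ∈ PZ x δ := by
    intro p hp hpN
    have h1 : (p : ℝ) ≤ Real.exp t := le_trans (by exact_mod_cast hpN) hNt
    have h2 : p ≤ x := by exact_mod_cast h1.trans hyx
    by_cases h3 : (p : ℝ) ≤ z0 x
    · left
      exact mem_filter.mpr ⟨mem_range.mpr (by omega), hp, h3⟩
    · right
      exact mem_filter.mpr ⟨mem_filter.mpr ⟨mem_range.mpr (by omega), hp, not_le.mp h3⟩,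
        h1.trans hy⟩
  have hmaps : ∀ n ∈ Icc 1 N, n.primeFactors \ PA x ∈ (PZ x δ).powerset := by
    intro n hn
    have hn' := mem_Icc.mp hn
    rw [mem_powerset]
    intro p hp
    have hp' := mem_sdiff.mp hp
    have h1 := Nat.prime_of_mem_primeFactors hp'.1
    have h2 := Nat.le_of_mem_primeFactors hp'.1
    exact (hcov p h1 (by omega)).resolve_left hp'.2
  have hsum : ∑ n ∈ Icc 1 N, (n : ℝ)⁻¹ ≤
      (∏ p ∈ PA x, (1 - (p : ℝ)⁻¹)⁻¹) * GG (PZ x δ) t := by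
    rw [← sum_fiberwise_of_maps_to hmaps]
    unfold GG
    rw [mul_sum]
    refine sum_le_sum (fun S hS => ?_)
    have hS' := mem_powerset.mp hS
    have hSp : ∀ p ∈ S, p.Prime := fun p hp => (hPZ p (hS' hp)).1
    have hdis : Disjoint (PA x) S := by
      rw [disjoint_left]
      intro p hp hpS
      have h1 := (mem_filter.mp hp).2.2
      have h2 := (hPZ p (hS' hpS)).2
      linarith only [h1, h2]
    have hA : ∀ n ∈ (Icc 1 N).filter (fun n => n.primeFactors \ PA x = S),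
        n ≠ 0 ∧ n.primeFactors \ PA x = S := by
      intro n hn
      have hn' := mem_filter.mp hn
      have := mem_Icc.mp hn'.1
      exact ⟨by omega, hn'.2⟩
    have h1 := GL_S hPA hSp hdis hA
    split_ifs with hlg
    · exact h1
    · have hemp : (Icc 1 N).filter (fun n => n.primeFactors \ PA x = S) = ∅ := by
        rw [filter_eq_empty_iff]
        intro n hn heq
        apply hlg
        have hn' := mem_Icc.mp hn
        have h3 : S ⊆ n.primeFactors := by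
          rw [← heq]
          exact sdiff_subset
        have h4 : (∏ p ∈ S, p) ∣ n :=
          (prod_dvd_prod_of_subset S n.primeFactors (fun p => p) h3).trans
            (Nat.prod_primeFactors_dvd n)
        have h5 : ∏ p ∈ S, p ≤ n := Nat.le_of_dvd (by omega) h4
        have h6 : (∏ p ∈ S, (p : ℝ)) ≤ Real.exp t := by
          rw [← Nat.cast_prod]
          refine le_trans ?_ hNt
          exact_mod_cast h5.trans hn'.2
        have h7 : 0 < ∏ p ∈ S, (p : ℝ) :=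
          prod_pos (fun p hp => by exact_mod_cast (hSp p hp).pos)
        unfold lg
        rw [← Real.log_prod (fun p hp => by
          have := (hSp p hp).pos
          exact_mod_cast this.ne')]
        rw [Real.log_le_iff_le_exp h7]
        exact h6
      rw [hemp]
      simp
  have hharm : t ≤ ∑ n ∈ Icc 1 N, (n : ℝ)⁻¹ := by
    have h1 := log_add_one_le_harmonic N
    have h2 : t ≤ Real.log ((N + 1 : ℕ) : ℝ) := by
      rw [Real.le_log_iff_exp_le (by positivity)]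
      push_cast
      exact hNt'.le
    have h3 : ((harmonic N : ℚ) : ℝ) = ∑ n ∈ Icc 1 N, (n : ℝ)⁻¹ := by
      rw [harmonic_eq_sum_Icc]
      push_cast
      rfl
    rw [← h3]
    exact h2.trans h1
  have hA0 : 0 ≤ A0 x := by
    unfold A0
    refine prod_nonneg (fun p hp => ?_)
    have h2 : (2 : ℝ) ≤ p := by exact_mod_cast (hPA p hp).two_le
    have : 1 / (p : ℝ) ≤ 1 := by
      rw [div_le_one (by linarith only [h2])]
      linarith only [h2]
    linarith only [this]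
  have hA0' : A0 x * ∏ p ∈ PA x, (1 - (p : ℝ)⁻¹)⁻¹ = 1 := by
    unfold A0
    rw [← prod_mul_distrib]
    refine prod_eq_one (fun p hp => ?_)
    have h2 : (2 : ℝ) ≤ p := by exact_mod_cast (hPA p hp).two_le
    rw [one_div]
    apply mul_inv_cancel₀
    have : (p : ℝ)⁻¹ < 1 := inv_lt_one_of_one_lt₀ (by linarith only [h2])
    linarith only [this]
  calc A0 x * t ≤ A0 x * ((∏ p ∈ PA x, (1 - (p : ℝ)⁻¹)⁻¹) * GG (PZ x δ) t) :=
        mul_le_mul_of_nonneg_left (hharm.trans hsum) hA0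
    _ = GG (PZ x δ) t := by rw [← mul_assoc, hA0', one_mul]

end Pool.Agent.H36.IS

end

section

/-!
# IS Bon: Bonferroni inequalities for products

For 0 ≤ a p ≤ 1 (p ∈ P):  ∏(1 - a) = ∑_{D ⊆ P} (-1)^|D| ∏_D a, and the truncation at |D| ≤ t has error at most the next term
∑_{|D| = t+1} ∏_D a.
Proof by induction on P (insert q): let S_t(P) be the truncated sum, V(P) = ∏(1-a), e_t(P) the elementary symmetric sum.
 S_t(P ∪ q) = S_t(P) - a_q S_{t-1}(P), V(P∪q) = V(P) - a_q V(P); stronger claim: (-1)^t (S_t - V) ≥ 0 (alternating), and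
 (-1)^t(S_t - V) ≤ e_{t+1}:  (-1)^t(S_t(P∪q) - V(P∪q)) = (-1)^t (S_t - V)(P) + a_q (-1)^{t-1}(S_{t-1} - V)(P) ≤ e_{t+1}(P) + a_q e_t(P)
 = e_{t+1}(P∪q) (for t = 0: S_0 = 1, use S_{-1} = 0: treat t = 0 separately: 0 ≤ 1 - V ≤ ∑ a).
`esymm_le`: ∑_{|D|=m} ∏_D a ≤ (∑ a)^m/m!  (induction on m: (m+1) e_{m+1} ≤ e_m e_1; Mathlib: `Finset.esymm`, `Finset.prod_pow_le...`;
 or induction on P with (s + a)^m ≥ s^m + m a s^(m-1)).
-/

set_option autoImplicit false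

namespace Pool.Agent.H36.IS

open Finset

private theorem Bon_insert {α : Type*} [DecidableEq α] (P : Finset α) (a : α → ℝ) {q : α}
    (hq : q ∉ P) (m : ℕ) :
    ∑ D ∈ (insert q P).powersetCard (m + 1), ∏ p ∈ D, a p =
      ∑ D ∈ P.powersetCard (m + 1), ∏ p ∈ D, a p + a q * ∑ D ∈ P.powersetCard m, ∏ p ∈ D, a p := by
  rw [powersetCard_succ_insert hq, sum_union]
  · congr 1
    rw [sum_image, mul_sum]
    · refine sum_congr rfl fun D hD => ?_
      rw [prod_insert]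
      intro h
      exact hq ((mem_powersetCard.mp hD).1 h)
    · intro D hD D' hD' h
      have h1 : q ∉ D := fun h' => hq ((mem_powersetCard.mp (mem_coe.mp hD)).1 h')
      have h2 : q ∉ D' := fun h' => hq ((mem_powersetCard.mp (mem_coe.mp hD')).1 h')
      have h3 := congrArg (fun E : Finset α => E.erase q) h
      simp only [erase_insert h1, erase_insert h2] at h3
      exact h3
  · rw [disjoint_left]
    intro D hD hD'
    rw [mem_image] at hD'
    obtain ⟨E, _, rfl⟩ := hD'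
    exact hq ((mem_powersetCard.mp hD).1 (mem_insert_self q E))

private theorem Bon_zero {α : Type*} [DecidableEq α] (P : Finset α) (a : α → ℝ) :
    ∑ D ∈ P.powersetCard 0, ∏ p ∈ D, a p = 1 := by
  simp

private theorem Bon_aux {α : Type*} [DecidableEq α] (P : Finset α) (a : α → ℝ) :
    (∀ p ∈ P, 0 ≤ a p ∧ a p ≤ 1) → ∀ n : ℕ,
    0 ≤ (-1 : ℝ) ^ n * (∏ p ∈ P, (1 - a p) -
        ∑ m ∈ range n, (-1 : ℝ) ^ m * ∑ D ∈ P.powersetCard m, ∏ p ∈ D, a p) ∧
    (-1 : ℝ) ^ n * (∏ p ∈ P, (1 - a p) -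
        ∑ m ∈ range n, (-1 : ℝ) ^ m * ∑ D ∈ P.powersetCard m, ∏ p ∈ D, a p) ≤
      ∑ D ∈ P.powersetCard n, ∏ p ∈ D, a p := by
  induction P using Finset.induction_on with
  | empty =>
    intro _ n
    rcases n with _ | n
    · simp
    · have h1 : ∑ m ∈ range (n + 1), (-1 : ℝ) ^ m *
          ∑ D ∈ (∅ : Finset α).powersetCard m, ∏ p ∈ D, a p = 1 := by
        rw [sum_eq_single 0]
        · simp
        · intro m _ hm
          rw [powersetCard_eq_empty.mpr (by simpa using Nat.pos_of_ne_zero hm)]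
          simp
        · simp
      have h2 : ∑ D ∈ (∅ : Finset α).powersetCard (n + 1), ∏ p ∈ D, a p = 0 := by
        rw [powersetCard_eq_empty.mpr (by simp)]
        simp
      rw [h1, h2]
      simp
  | insert q P hq ih =>
    intro ha n
    have haP : ∀ p ∈ P, 0 ≤ a p ∧ a p ≤ 1 := fun p hp => ha p (mem_insert_of_mem hp)
    have haq := ha q (mem_insert_self q P)
    have ih' := ih haP
    have hV : ∏ p ∈ insert q P, (1 - a p) = (1 - a q) * ∏ p ∈ P, (1 - a p) := prod_insert hq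
    rcases n with _ | n
    · have h0 := ih' 0
      simp only [pow_zero, one_mul, range_zero, sum_empty, sub_zero, Bon_zero] at h0 ⊢
      rw [hV]
      constructor
      · exact mul_nonneg (by linarith only [haq]) h0.1
      · exact mul_le_one₀ (by linarith only [haq]) h0.1 h0.2
    · have hS : ∑ m ∈ range (n + 1), (-1 : ℝ) ^ m *
            ∑ D ∈ (insert q P).powersetCard m, ∏ p ∈ D, a p =
          ∑ m ∈ range (n + 1), (-1 : ℝ) ^ m * ∑ D ∈ P.powersetCard m, ∏ p ∈ D, a p -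
          a q * ∑ m ∈ range n, (-1 : ℝ) ^ m * ∑ D ∈ P.powersetCard m, ∏ p ∈ D, a p := by
        rw [sum_range_succ', sum_range_succ' (fun m => (-1 : ℝ) ^ m *
          ∑ D ∈ P.powersetCard m, ∏ p ∈ D, a p), Bon_zero, Bon_zero]
        have h1 : ∀ m ∈ range n, (-1 : ℝ) ^ (m + 1) *
            ∑ D ∈ (insert q P).powersetCard (m + 1), ∏ p ∈ D, a p =
            (-1 : ℝ) ^ (m + 1) * ∑ D ∈ P.powersetCard (m + 1), ∏ p ∈ D, a p -
            a q * ((-1 : ℝ) ^ m * ∑ D ∈ P.powersetCard m, ∏ p ∈ D, a p) := by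
          intro m _
          rw [Bon_insert P a hq m, pow_succ]
          ring
        rw [sum_congr rfl h1, sum_sub_distrib, ← mul_sum]
        ring
      have h1 := ih' (n + 1)
      have h2 := ih' n
      rw [hS, hV, Bon_insert P a hq n]
      set V := ∏ p ∈ P, (1 - a p)
      set S1 := ∑ m ∈ range (n + 1), (-1 : ℝ) ^ m * ∑ D ∈ P.powersetCard m, ∏ p ∈ D, a p
      set S0 := ∑ m ∈ range n, (-1 : ℝ) ^ m * ∑ D ∈ P.powersetCard m, ∏ p ∈ D, a p
      have e : (-1 : ℝ) ^ (n + 1) * ((1 - a q) * V - (S1 - a q * S0)) =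
          (-1 : ℝ) ^ (n + 1) * (V - S1) + a q * ((-1 : ℝ) ^ n * (V - S0)) := by
        rw [pow_succ]
        ring
      rw [e]
      constructor
      · exact add_nonneg h1.1 (mul_nonneg haq.1 h2.1)
      · exact add_le_add h1.2 (mul_le_mul_of_nonneg_left h2.2 haq.1)

private theorem Bon_pow {s a : ℝ} (hs : 0 ≤ s) (ha : 0 ≤ a) (m : ℕ) :
    s ^ (m + 1) + (m + 1) * a * s ^ m ≤ (s + a) ^ (m + 1) := by
  induction m with
  | zero => simp
  | succ m ih =>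
    have h1 : (s + a) * (s ^ (m + 1) + (m + 1) * a * s ^ m) ≤ (s + a) * (s + a) ^ (m + 1) :=
      mul_le_mul_of_nonneg_left ih (by linarith only [hs, ha])
    have h2 : (s + a) * (s ^ (m + 1) + (m + 1) * a * s ^ m) =
        s ^ (m + 1 + 1) + (((m + 1 : ℕ) : ℝ) + 1) * a * s ^ (m + 1) + (m + 1) * a ^ 2 * s ^ m := by
      push_cast
      ring
    have h3 : 0 ≤ ((m : ℝ) + 1) * a ^ 2 * s ^ m := by positivity
    calc s ^ (m + 1 + 1) + (((m + 1 : ℕ) : ℝ) + 1) * a * s ^ (m + 1) ≤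
        (s + a) * (s ^ (m + 1) + (m + 1) * a * s ^ m) := by rw [h2]; linarith only [h3]
      _ ≤ (s + a) * (s + a) ^ (m + 1) := h1
      _ = (s + a) ^ (m + 1 + 1) := by ring

theorem bonf {α : Type*} [DecidableEq α] (P : Finset α) (a : α → ℝ) (ha : ∀ p ∈ P, 0 ≤ a p ∧ a p ≤ 1) (t : ℕ) :
    |∏ p ∈ P, (1 - a p) - ∑ D ∈ P.powerset.filter (fun D => D.card ≤ t), (-1 : ℝ) ^ D.card * ∏ p ∈ D, a p| ≤
      ∑ D ∈ P.powersetCard (t + 1), ∏ p ∈ D, a p := by
  have h := Bon_aux P a ha (t + 1)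
  have e : ∑ D ∈ P.powerset.filter (fun D => D.card ≤ t), (-1 : ℝ) ^ D.card * ∏ p ∈ D, a p =
      ∑ m ∈ range (t + 1), (-1 : ℝ) ^ m * ∑ D ∈ P.powersetCard m, ∏ p ∈ D, a p := by
    rw [← sum_fiberwise_of_maps_to (s := P.powerset.filter (fun D => D.card ≤ t))
      (t := range (t + 1)) (g := fun D => D.card)
      (fun D hD => mem_range.mpr (Nat.lt_succ_of_le (mem_filter.mp hD).2))]
    refine sum_congr rfl fun m hm => ?_
    rw [mem_range] at hm
    have e2 : (P.powerset.filter (fun D => D.card ≤ t)).filter (fun D => D.card = m) =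
        P.powersetCard m := by
      ext D
      simp only [mem_filter, mem_powerset, mem_powersetCard]
      constructor
      · rintro ⟨⟨h1, _⟩, h3⟩
        exact ⟨h1, h3⟩
      · rintro ⟨h1, h3⟩
        exact ⟨⟨h1, by omega⟩, h3⟩
    rw [e2, mul_sum]
    refine sum_congr rfl fun D hD => ?_
    rw [(mem_powersetCard.mp hD).2]
  rw [e]
  have h1 : |∏ p ∈ P, (1 - a p) - ∑ m ∈ range (t + 1), (-1 : ℝ) ^ m *
      ∑ D ∈ P.powersetCard m, ∏ p ∈ D, a p| =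
      |(-1 : ℝ) ^ (t + 1) * (∏ p ∈ P, (1 - a p) - ∑ m ∈ range (t + 1), (-1 : ℝ) ^ m *
      ∑ D ∈ P.powersetCard m, ∏ p ∈ D, a p)| := by
    rw [abs_mul, abs_pow, abs_neg, abs_one, one_pow, one_mul]
  rw [h1, abs_of_nonneg h.1]
  exact h.2

theorem esymm_le {α : Type*} [DecidableEq α] (P : Finset α) (a : α → ℝ) (ha : ∀ p ∈ P, 0 ≤ a p) (m : ℕ) :
    ∑ D ∈ P.powersetCard m, ∏ p ∈ D, a p ≤ (∑ p ∈ P, a p) ^ m / m.factorial := by
  induction P using Finset.induction_on generalizing m with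
  | empty =>
    rcases m with _ | m
    · simp
    · rw [powersetCard_eq_empty.mpr (by simp)]
      simp
  | insert q P hq ih =>
    rcases m with _ | m
    · simp
    · have haP : ∀ p ∈ P, 0 ≤ a p := fun p hp => ha p (mem_insert_of_mem hp)
      have haq := ha q (mem_insert_self q P)
      have h1 := ih haP (m + 1)
      have h2 := ih haP m
      rw [Bon_insert P a hq m, sum_insert hq]
      set s := ∑ p ∈ P, a p
      have hs : 0 ≤ s := sum_nonneg haP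
      have h3 := Bon_pow hs haq m
      have hf : (0 : ℝ) < m.factorial := by exact_mod_cast Nat.factorial_pos m
      have hf1 : ((m + 1).factorial : ℝ) = (m + 1) * m.factorial := by
        rw [Nat.factorial_succ]
        push_cast
        ring
      calc ∑ D ∈ P.powersetCard (m + 1), ∏ p ∈ D, a p + a q * ∑ D ∈ P.powersetCard m, ∏ p ∈ D, a p
          ≤ s ^ (m + 1) / (m + 1).factorial + a q * (s ^ m / m.factorial) :=
            add_le_add h1 (mul_le_mul_of_nonneg_left h2 haq)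
        _ = (s ^ (m + 1) + (m + 1) * a q * s ^ m) / (m + 1).factorial := by
            rw [hf1]
            field_simp
        _ ≤ (s + a q) ^ (m + 1) / (m + 1).factorial :=
            div_le_div_of_nonneg_right h3 (by positivity)
        _ = (a q + s) ^ (m + 1) / (m + 1).factorial := by rw [add_comm]

end Pool.Agent.H36.IS

end

section

/-!
# IS TrAbs: the abstract (finite) transfer theorem: Brun's pure sieve

J a set of components, P0 the small primes, P1 the large primes; for p ∈ P0 ∪ P1 the classes -h i mod p (i ∈ J) are distinct.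
For n ∈ N let 1_rough(n) = [no p ∈ P0 divides any n + h i, i ∈ J].  For D ⊆ P0 let 1_D(n) = [∀ p ∈ D ∃ i ∈ J, p ∣ n + h i]
= ∑_{φ : D → J} [∀ p ∈ D, p ∣ n + h (φ p)] (distinctness).

(1) Bonferroni (`bonf` from Bon.lean) with a_p(n) = [∃ i ∈ J, p ∣ n + h i] ∈ {0,1}: 1_rough(n) = ∏ (1 - a_p(n)), 1_D(n) = ∏_D a_p(n),
    |1_rough - ∑_{|D| ≤ t} (-1)^|D| 1_D| ≤ ∑_{|D| = t+1} 1_D;  the same lemma with a_p = |J| g p, and
    ∑_{|D| = t+1} ∏_D a_p ≤ (∑ a_p)^(t+1)/(t+1)!  (`esymm_le`).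
(2) Fix Q ⊆ J ×ˢ P1 with c Q ≠ 0.  If Prod.snd is not injective on Q, two components share a prime and ∏_Q yy = 0 for all n;
    such Q contribute at most X0 · |c Q| ∏ g (0 ≤ ∏(1 - |J| g) ≤ 1).
    If injective: Z = snd(Q) ∪ D, φ given by Q on snd(Q): hcount gives
    ∑_{n∈N} ∏_Q yy · 1_D = ∑_φ (X0 ∏_Z g + O(e Z)) = X0 |J|^|D| ∏_Q g ∏_D g + O(|J|^|D| e Z).
    So |∑_{n∈N} ∏_Q yy 1_rough - X0 ∏_Q g ∏_{P0}(1 - |J| g)| ≤ 2 X0 ∏_Q g · (|J|∑g)^(t+1)/(t+1)! + ∑_{|D| ≤ t+1} |J|^|D| e(Z).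
(3) ∑_Q |c Q| ∑_{|D|≤t+1} |J|^|D| e(snd Q ∪ D): for given Z the pairs (Q, D) have D = Z ∩ P0 and Q is a graph of a function
    Z ∩ P1 → J: at most |J|^|Z∩P1| of them, each with |c Q| ≤ K M^|Q|; total ≤ K (|J| (M+1))^|Z|;
    ∏_{p∈Z} p = ∏_Q · ∏_D ≤ D z^(t+1).
-/

set_option autoImplicit false

namespace Pool.Agent.H36.IS

open Finset

section TrAbs

variable {ι : Type} [Fintype ι] [DecidableEq ι]

private theorem TrAbs_prod_yy (h : ι → ℕ) (n : ℕ) (Q : Finset (ι × ℕ)) [Decidable (∀ a ∈ Q, a.2 ∣ n + h a.1)] :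
    ∏ a ∈ Q, yy h n a = if ∀ a ∈ Q, a.2 ∣ n + h a.1 then 1 else 0 := by
  unfold yy
  rw [Finset.prod_ite_zero]
  simp

private theorem TrAbs_prod_yy_nonneg (h : ι → ℕ) (n : ℕ) (Q : Finset (ι × ℕ)) :
    0 ≤ ∏ a ∈ Q, yy h n a :=
  Finset.prod_nonneg fun a _ => by unfold yy; split_ifs <;> norm_num

open Classical in
private theorem TrAbs_hq (J : Finset ι) (h : ι → ℕ) (N P : Finset ℕ) (g : ℕ → ℝ) (X0 : ℝ)
    (e : Finset ℕ → ℝ)
    (hcount : ∀ Z ⊆ P, ∀ φ : ℕ → ι, (∀ p ∈ Z, φ p ∈ J) →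
      |((N.filter (fun n => ∀ p ∈ Z, p ∣ n + h (φ p))).card : ℝ) - X0 * ∏ p ∈ Z, g p| ≤ e Z)
    (hcount0 : |(N.card : ℝ) - X0| ≤ e ∅)
    (Q : Finset (ι × ℕ)) (hQ : Q ⊆ J ×ˢ P) (hinj : Set.InjOn Prod.snd (Q : Set (ι × ℕ))) :
    |∑ n ∈ N, ∏ a ∈ Q, yy h n a - X0 * ∏ a ∈ Q, g a.2| ≤ e (Q.image Prod.snd) := by
  rcases Q.eq_empty_or_nonempty with rfl | ⟨a₀, ha₀⟩
  · simpa using hcount0
  · obtain ⟨φ, hφ⟩ : ∃ φ : ℕ → ι, ∀ a ∈ Q, φ a.2 = a.1 := by
      refine ⟨fun p => if hp : ∃ i, (i, p) ∈ Q then hp.choose else a₀.1, fun a ha => ?_⟩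
      have h1 : ∃ i, (i, a.2) ∈ Q := ⟨a.1, ha⟩
      simp only
      rw [dif_pos h1]
      have h2 := hinj h1.choose_spec ha rfl
      exact congrArg Prod.fst h2
    have h3 := hcount (Q.image Prod.snd) (fun p hp => by
      obtain ⟨a, ha, rfl⟩ := Finset.mem_image.1 hp
      exact (Finset.mem_product.1 (hQ ha)).2) φ (fun p hp => by
      obtain ⟨a, ha, rfl⟩ := Finset.mem_image.1 hp
      rw [hφ a ha]
      exact (Finset.mem_product.1 (hQ ha)).1)
    rw [Finset.prod_image (fun a ha b hb hab => hinj ha hb hab)] at h3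
    have h4 : ∑ n ∈ N, ∏ a ∈ Q, yy h n a =
        ((N.filter (fun n => ∀ p ∈ Q.image Prod.snd, p ∣ n + h (φ p))).card : ℝ) := by
      rw [Finset.card_filter]
      push_cast
      refine Finset.sum_congr rfl fun n _ => ?_
      rw [TrAbs_prod_yy]
      have h5 : (∀ a ∈ Q, a.2 ∣ n + h a.1) ↔ ∀ p ∈ Q.image Prod.snd, p ∣ n + h (φ p) := by
        constructor
        · intro h6 p hp
          obtain ⟨a, ha, rfl⟩ := Finset.mem_image.1 hp
          rw [hφ a ha]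
          exact h6 a ha
        · intro h6 a ha
          have := h6 a.2 (Finset.mem_image_of_mem _ ha)
          rwa [hφ a ha] at this
      by_cases h7 : ∀ a ∈ Q, a.2 ∣ n + h a.1
      · rw [if_pos h7, if_pos (h5.1 h7)]
      · rw [if_neg h7, if_neg (fun h8 => h7 (h5.2 h8))]
    rw [h4]
    exact h3

open Classical in
/-- The indicator that `p` divides one of the numbers `n + h i`, `i ∈ J`. -/
private noncomputable def TrAbs_A (J : Finset ι) (h : ι → ℕ) (n p : ℕ) : ℝ :=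
  if ∃ i ∈ J, p ∣ n + h i then 1 else 0

private theorem TrAbs_A_mem (J : Finset ι) (h : ι → ℕ) (n p : ℕ) :
    0 ≤ TrAbs_A J h n p ∧ TrAbs_A J h n p ≤ 1 := by
  unfold TrAbs_A
  split_ifs <;> norm_num

private theorem TrAbs_A_eq (J : Finset ι) (h : ι → ℕ) {p : ℕ}
    (hd : ∀ i ∈ J, ∀ j ∈ J, i ≠ j → ¬ h i ≡ h j [MOD p]) (n : ℕ) :
    TrAbs_A J h n p = ∑ i ∈ J, yy h n (i, p) := by
  unfold TrAbs_A yy
  split_ifs with h1
  · obtain ⟨i, hi, hp⟩ := h1
    rw [Finset.sum_eq_single_of_mem i hi]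
    · simp [hp]
    · intro j hj hji
      rw [if_neg]
      intro hp'
      refine hd j hj i hi hji ?_
      have h2 : n + h j ≡ n + h i [MOD p] :=
        (Nat.modEq_zero_iff_dvd.2 hp').trans (Nat.modEq_zero_iff_dvd.2 hp).symm
      exact Nat.ModEq.add_left_cancel' n h2
  · symm
    refine Finset.sum_eq_zero fun i hi => ?_
    rw [if_neg]
    exact fun hp => h1 ⟨i, hi, hp⟩

open Classical in
private theorem TrAbs_count (J : Finset ι) (h : ι → ℕ) (N P : Finset ℕ) (g : ℕ → ℝ) (X0 : ℝ)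
    (e : Finset ℕ → ℝ)
    (hdist : ∀ p ∈ P, ∀ i ∈ J, ∀ j ∈ J, i ≠ j → ¬ h i ≡ h j [MOD p])
    (hcount : ∀ Z ⊆ P, ∀ φ : ℕ → ι, (∀ p ∈ Z, φ p ∈ J) →
      |((N.filter (fun n => ∀ p ∈ Z, p ∣ n + h (φ p))).card : ℝ) - X0 * ∏ p ∈ Z, g p| ≤ e Z)
    (hcount0 : |(N.card : ℝ) - X0| ≤ e ∅) (D : Finset ℕ) :
    D ⊆ P → ∀ Q : Finset (ι × ℕ), Q ⊆ J ×ˢ P → Set.InjOn Prod.snd (Q : Set (ι × ℕ)) →
      Disjoint (Q.image Prod.snd) D →
      |∑ n ∈ N, (∏ a ∈ Q, yy h n a) * ∏ p ∈ D, TrAbs_A J h n p -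
          X0 * (∏ a ∈ Q, g a.2) * ∏ p ∈ D, ((J.card : ℝ) * g p)| ≤
        (J.card : ℝ) ^ D.card * e (Q.image Prod.snd ∪ D) := by
  induction D using Finset.induction_on with
  | empty =>
    intro _ Q hQ hinj _
    simpa using TrAbs_hq J h N P g X0 e hcount hcount0 Q hQ hinj
  | insert q D hq ih =>
    intro hD Q hQ hinj hdis
    have hqP : q ∈ P := hD (Finset.mem_insert_self _ _)
    have hDP : D ⊆ P := fun x hx => hD (Finset.mem_insert_of_mem hx)
    have hqQ : ∀ a ∈ Q, a.2 ≠ q := by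
      intro a ha h1
      exact Finset.disjoint_left.1 hdis (Finset.mem_image_of_mem _ ha)
        (h1 ▸ Finset.mem_insert_self _ _)
    have hnot : ∀ i, (i, q) ∉ Q := fun i hi => hqQ _ hi rfl
    have key : ∀ i ∈ J, |∑ n ∈ N, (∏ a ∈ insert (i, q) Q, yy h n a) * ∏ p ∈ D, TrAbs_A J h n p -
          X0 * (∏ a ∈ insert (i, q) Q, g a.2) * ∏ p ∈ D, ((J.card : ℝ) * g p)| ≤
        (J.card : ℝ) ^ D.card * e (Q.image Prod.snd ∪ insert q D) := by
      intro i hi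
      have h1 := ih hDP (insert (i, q) Q) ?_ ?_ ?_
      · have h2 : (insert (i, q) Q).image Prod.snd ∪ D = Q.image Prod.snd ∪ insert q D := by
          ext x
          simp only [Finset.image_insert, Finset.mem_union, Finset.mem_insert]
          tauto
        rwa [h2] at h1
      · intro a ha
        rcases Finset.mem_insert.1 ha with rfl | ha
        · exact Finset.mem_product.2 ⟨hi, hqP⟩
        · exact hQ ha
      · intro a ha b hb hab
        rw [Finset.mem_coe, Finset.mem_insert] at ha hb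
        rcases ha with rfl | ha <;> rcases hb with rfl | hb
        · rfl
        · exact absurd hab.symm (hqQ b hb)
        · exact absurd hab (hqQ a ha)
        · exact hinj ha hb hab
      · rw [Finset.image_insert, Finset.disjoint_insert_left]
        exact ⟨hq, hdis.mono_right (Finset.subset_insert _ _)⟩
    have e1 : ∑ n ∈ N, (∏ a ∈ Q, yy h n a) * ∏ p ∈ insert q D, TrAbs_A J h n p =
        ∑ i ∈ J, ∑ n ∈ N, (∏ a ∈ insert (i, q) Q, yy h n a) * ∏ p ∈ D, TrAbs_A J h n p := by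
      rw [Finset.sum_comm]
      refine Finset.sum_congr rfl fun n _ => ?_
      rw [Finset.prod_insert hq, TrAbs_A_eq J h (hdist q hqP) n, Finset.sum_mul, Finset.mul_sum]
      refine Finset.sum_congr rfl fun i _ => ?_
      rw [Finset.prod_insert (hnot i)]
      ring
    have e2 : X0 * (∏ a ∈ Q, g a.2) * ∏ p ∈ insert q D, ((J.card : ℝ) * g p) =
        ∑ i ∈ J, X0 * (∏ a ∈ insert (i, q) Q, g a.2) * ∏ p ∈ D, ((J.card : ℝ) * g p) := by
      have : ∀ i ∈ J, X0 * (∏ a ∈ insert (i, q) Q, g a.2) * ∏ p ∈ D, ((J.card : ℝ) * g p) =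
          g q * (X0 * (∏ a ∈ Q, g a.2) * ∏ p ∈ D, ((J.card : ℝ) * g p)) := by
        intro i _
        rw [Finset.prod_insert (hnot i)]
        ring
      rw [Finset.sum_congr rfl this, Finset.sum_const, nsmul_eq_mul, Finset.prod_insert hq]
      ring
    rw [e1, e2, ← Finset.sum_sub_distrib]
    refine (Finset.abs_sum_le_sum_abs _ _).trans ?_
    refine (Finset.sum_le_sum key).trans (le_of_eq ?_)
    rw [Finset.sum_const, nsmul_eq_mul, Finset.card_insert_of_notMem hq]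
    ring

/-- The number of graphs over `Y`. -/
private theorem TrAbs_card_graph (J : Finset ι) (P Y : Finset ℕ)
    (s : Finset (Finset (ι × ℕ))) (hs : ∀ Q ∈ s, Q ⊆ J ×ˢ P ∧
      Set.InjOn Prod.snd (Q : Set (ι × ℕ)) ∧ Q.image Prod.snd = Y) :
    s.card ≤ J.card ^ Y.card := by
  classical
  have h1 : s ⊆ (Y.pi (fun _ => J)).image
      (fun ψ => Y.attach.image (fun p => (ψ p.1 p.2, p.1))) := by
    intro Q hQ
    obtain ⟨h2, h3, h4⟩ := hs Q hQ
    have h5 : ∀ p ∈ Y, ∃ i, (i, p) ∈ Q := by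
      intro p hp
      rw [← h4] at hp
      obtain ⟨a, ha, rfl⟩ := Finset.mem_image.1 hp
      exact ⟨a.1, ha⟩
    refine Finset.mem_image.2 ⟨fun p hp => (h5 p hp).choose, ?_, ?_⟩
    · rw [Finset.mem_pi]
      intro p hp
      exact (Finset.mem_product.1 (h2 (h5 p hp).choose_spec)).1
    · ext a
      rw [Finset.mem_image]
      constructor
      · rintro ⟨p, -, rfl⟩
        exact (h5 p.1 p.2).choose_spec
      · intro ha
        have h6 : a.2 ∈ Y := by rw [← h4]; exact Finset.mem_image_of_mem _ ha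
        refine ⟨⟨a.2, h6⟩, Finset.mem_attach _ _, ?_⟩
        exact h3 (h5 a.2 h6).choose_spec ha rfl
  refine (Finset.card_le_card h1).trans (Finset.card_image_le.trans (le_of_eq ?_))
  rw [Finset.card_pi]
  simp

open Classical in
/-- The estimate for one injective `Q`. -/
private theorem TrAbs_one (J : Finset ι) (h : ι → ℕ) (N P0 P1 : Finset ℕ) (hd : Disjoint P0 P1)
    (g : ℕ → ℝ) (hg : ∀ p ∈ P0 ∪ P1, 0 ≤ g p ∧ (J.card : ℝ) * g p ≤ 1) (X0 : ℝ) (hX : 0 ≤ X0)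
    (e : Finset ℕ → ℝ)
    (hdist : ∀ p ∈ P0 ∪ P1, ∀ i ∈ J, ∀ j ∈ J, i ≠ j → ¬ h i ≡ h j [MOD p])
    (hcount : ∀ Z ⊆ P0 ∪ P1, ∀ φ : ℕ → ι, (∀ p ∈ Z, φ p ∈ J) →
      |((N.filter (fun n => ∀ p ∈ Z, p ∣ n + h (φ p))).card : ℝ) - X0 * ∏ p ∈ Z, g p| ≤ e Z)
    (hcount0 : |(N.card : ℝ) - X0| ≤ e ∅) (t : ℕ)
    (Q : Finset (ι × ℕ)) (hQ : Q ⊆ J ×ˢ P1) (hinj : Set.InjOn Prod.snd (Q : Set (ι × ℕ))) :
    |∑ n ∈ N, (∏ a ∈ Q, yy h n a) * ∏ p ∈ P0, (1 - TrAbs_A J h n p) -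
        X0 * (∏ a ∈ Q, g a.2) * ∏ p ∈ P0, (1 - (J.card : ℝ) * g p)| ≤
      X0 * (∏ a ∈ Q, g a.2) * (2 * ((J.card : ℝ) * ∑ p ∈ P0, g p) ^ (t + 1) / (t + 1).factorial) +
        ∑ D ∈ P0.powerset.filter (fun D : Finset ℕ => D.card ≤ t + 1),
          (J.card : ℝ) ^ D.card * e (Q.image Prod.snd ∪ D) := by
  have hQP : Q ⊆ J ×ˢ (P0 ∪ P1) := hQ.trans (Finset.product_subset_product_right
    Finset.subset_union_right)
  have hdisj : ∀ D ⊆ P0, Disjoint (Q.image Prod.snd) D := by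
    intro D hD
    refine Finset.disjoint_left.2 fun x hx hx' => ?_
    obtain ⟨a, ha, rfl⟩ := Finset.mem_image.1 hx
    exact Finset.disjoint_left.1 hd (hD hx') (Finset.mem_product.1 (hQ ha)).2
  obtain ⟨G, hG⟩ : ∃ G, G = ∏ a ∈ Q, g a.2 := ⟨_, rfl⟩
  have hG0 : 0 ≤ G := by
    rw [hG]
    exact Finset.prod_nonneg fun a ha =>
      (hg a.2 (Finset.mem_union_right _ (Finset.mem_product.1 (hQ ha)).2)).1
  obtain ⟨S, hS⟩ : ∃ S : Finset ℕ → ℝ, S = fun D =>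
    ∑ n ∈ N, (∏ a ∈ Q, yy h n a) * ∏ p ∈ D, TrAbs_A J h n p := ⟨_, rfl⟩
  obtain ⟨m, hm⟩ : ∃ m : Finset ℕ → ℝ, m = fun D => ∏ p ∈ D, ((J.card : ℝ) * g p) := ⟨_, rfl⟩
  have hm0 : ∀ D ⊆ P0, 0 ≤ m D := by
    intro D hD
    rw [hm]
    exact Finset.prod_nonneg fun p hp => mul_nonneg (Nat.cast_nonneg _)
      (hg p (Finset.mem_union_left _ (hD hp))).1
  have hcnt : ∀ D ⊆ P0, |S D - X0 * G * m D| ≤
      (J.card : ℝ) ^ D.card * e (Q.image Prod.snd ∪ D) := by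
    intro D hD
    rw [hS, hG, hm]
    exact TrAbs_count J h N (P0 ∪ P1) g X0 e hdist hcount hcount0 D
      (hD.trans Finset.subset_union_left) Q hQP hinj (hdisj D hD)
  -- Bonferroni for the indicators
  have hb1 : |∑ n ∈ N, (∏ a ∈ Q, yy h n a) * ∏ p ∈ P0, (1 - TrAbs_A J h n p) -
      ∑ D ∈ P0.powerset.filter (fun D => D.card ≤ t), (-1 : ℝ) ^ D.card * S D| ≤
      ∑ D ∈ P0.powersetCard (t + 1), S D := by
    have e1 : ∑ D ∈ P0.powerset.filter (fun D => D.card ≤ t), (-1 : ℝ) ^ D.card * S D =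
        ∑ n ∈ N, (∏ a ∈ Q, yy h n a) * ∑ D ∈ P0.powerset.filter (fun D => D.card ≤ t),
          (-1 : ℝ) ^ D.card * ∏ p ∈ D, TrAbs_A J h n p := by
      rw [hS]
      simp only [Finset.mul_sum]
      rw [Finset.sum_comm]
      refine Finset.sum_congr rfl fun n _ => Finset.sum_congr rfl fun D _ => ?_
      ring
    have e2 : ∑ D ∈ P0.powersetCard (t + 1), S D =
        ∑ n ∈ N, (∏ a ∈ Q, yy h n a) * ∑ D ∈ P0.powersetCard (t + 1),
          ∏ p ∈ D, TrAbs_A J h n p := by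
      rw [hS]
      simp only [Finset.mul_sum]
      rw [Finset.sum_comm]
    rw [e1, e2, ← Finset.sum_sub_distrib]
    refine (Finset.abs_sum_le_sum_abs _ _).trans (Finset.sum_le_sum fun n _ => ?_)
    rw [← mul_sub, abs_mul, abs_of_nonneg (TrAbs_prod_yy_nonneg h n Q)]
    exact mul_le_mul_of_nonneg_left (bonf P0 (TrAbs_A J h n) (fun p _ => TrAbs_A_mem J h n p) t)
      (TrAbs_prod_yy_nonneg h n Q)
  have hb2 := bonf P0 (fun p => (J.card : ℝ) * g p) (fun p hp =>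
    ⟨mul_nonneg (Nat.cast_nonneg _) (hg p (Finset.mem_union_left _ hp)).1,
      (hg p (Finset.mem_union_left _ hp)).2⟩) t
  have hb3 := esymm_le P0 (fun p => (J.card : ℝ) * g p) (fun p hp =>
    mul_nonneg (Nat.cast_nonneg _) (hg p (Finset.mem_union_left _ hp)).1) (t + 1)
  rw [← Finset.mul_sum] at hb3
  obtain ⟨V, hV⟩ : ∃ V, V = ∏ p ∈ P0, (1 - (J.card : ℝ) * g p) := ⟨_, rfl⟩
  obtain ⟨E, hE⟩ : ∃ E, E = ∑ D ∈ P0.powersetCard (t + 1), m D := ⟨_, rfl⟩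
  obtain ⟨W, hW⟩ : ∃ W, W = ((J.card : ℝ) * ∑ p ∈ P0, g p) ^ (t + 1) / (t + 1).factorial :=
    ⟨_, rfl⟩
  have hEW : E ≤ W := by rw [hE, hm, hW]; exact hb3
  obtain ⟨B, hB⟩ : ∃ B, B = ∑ D ∈ P0.powerset.filter (fun D => D.card ≤ t),
    (-1 : ℝ) ^ D.card * m D := ⟨_, rfl⟩
  have hVB : |V - B| ≤ E := by rw [hV, hB, hE, hm]; exact hb2
  obtain ⟨B', hB'⟩ : ∃ B', B' = ∑ D ∈ P0.powerset.filter (fun D => D.card ≤ t),
    (-1 : ℝ) ^ D.card * S D := ⟨_, rfl⟩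
  obtain ⟨R, hR⟩ : ∃ R : Finset ℕ → ℝ, R = fun D =>
    (J.card : ℝ) ^ D.card * e (Q.image Prod.snd ∪ D) := ⟨_, rfl⟩
  have hBB : |B' - X0 * G * B| ≤ ∑ D ∈ P0.powerset.filter (fun D => D.card ≤ t), R D := by
    rw [hB', hB, Finset.mul_sum, ← Finset.sum_sub_distrib]
    refine (Finset.abs_sum_le_sum_abs _ _).trans (Finset.sum_le_sum fun D hD => ?_)
    rw [Finset.mem_filter, Finset.mem_powerset] at hD
    have h1 : (-1 : ℝ) ^ D.card * S D - X0 * G * ((-1 : ℝ) ^ D.card * m D) =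
        (-1 : ℝ) ^ D.card * (S D - X0 * G * m D) := by ring
    rw [h1, abs_mul, abs_pow, abs_neg, abs_one, one_pow, one_mul, hR]
    exact hcnt D hD.1
  have hSE : ∑ D ∈ P0.powersetCard (t + 1), S D ≤ X0 * G * E +
      ∑ D ∈ P0.powersetCard (t + 1), R D := by
    rw [hE, Finset.mul_sum, ← Finset.sum_add_distrib]
    refine Finset.sum_le_sum fun D hD => ?_
    rw [Finset.mem_powersetCard] at hD
    have h1 := (abs_le.1 (hcnt D hD.1)).2
    rw [hR]
    simp only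
    linarith only [h1]
  have hsplit : ∑ D ∈ P0.powerset.filter (fun D : Finset ℕ => D.card ≤ t + 1), R D =
      ∑ D ∈ P0.powerset.filter (fun D => D.card ≤ t), R D +
        ∑ D ∈ P0.powersetCard (t + 1), R D := by
    rw [← Finset.sum_union]
    · congr 1
      ext D
      simp only [Finset.mem_filter, Finset.mem_powerset, Finset.mem_union,
        Finset.mem_powersetCard]
      constructor
      · rintro ⟨h1, h2⟩
        rcases Nat.lt_or_ge D.card (t + 1) with h3 | h3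
        · exact Or.inl ⟨h1, by omega⟩
        · exact Or.inr ⟨h1, by omega⟩
      · rintro (⟨h1, h2⟩ | ⟨h1, h2⟩)
        · exact ⟨h1, by omega⟩
        · exact ⟨h1, by omega⟩
    · refine Finset.disjoint_left.2 fun D h1 h2 => ?_
      rw [Finset.mem_filter] at h1
      rw [Finset.mem_powersetCard] at h2
      omega
  rw [← hG, ← hV, mul_div_assoc, ← hW]
  have hR' : ∑ D ∈ P0.powerset.filter (fun D : Finset ℕ => D.card ≤ t + 1),
      (J.card : ℝ) ^ D.card * e (Q.image Prod.snd ∪ D) =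
      ∑ D ∈ P0.powerset.filter (fun D : Finset ℕ => D.card ≤ t + 1), R D := by rw [hR]
  rw [hR', hsplit]
  rw [← hB'] at hb1
  have hXG : 0 ≤ X0 * G := mul_nonneg hX hG0
  have h2 : |X0 * G * B - X0 * G * V| ≤ X0 * G * E := by
    rw [← mul_sub, abs_mul, abs_of_nonneg hXG, abs_sub_comm]
    exact mul_le_mul_of_nonneg_left hVB hXG
  obtain ⟨T, hT⟩ : ∃ T, T = ∑ n ∈ N, (∏ a ∈ Q, yy h n a) * ∏ p ∈ P0, (1 - TrAbs_A J h n p) :=
    ⟨_, rfl⟩
  rw [← hT] at hb1 ⊢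
  have h3 : T - X0 * G * V = (T - B') + (B' - X0 * G * B) + (X0 * G * B - X0 * G * V) := by ring
  have h4 : |T - X0 * G * V| ≤ |T - B'| + |B' - X0 * G * B| + |X0 * G * B - X0 * G * V| := by
    rw [h3]
    exact abs_add_three _ _ _
  have h5 : X0 * G * E ≤ X0 * G * W := mul_le_mul_of_nonneg_left hEW hXG
  linarith only [hBB, hSE, h2, hb1, h4, h5]

open Classical in
/-- The sum of the counting errors. -/
private theorem TrAbs_three (J : Finset ι) (P0 P1 : Finset ℕ) (hd : Disjoint P0 P1)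
    (e : Finset ℕ → ℝ) (he0 : ∀ Z, 0 ≤ e Z)
    (t : ℕ) (K M D z : ℝ) (hK : 0 ≤ K) (hM : 0 ≤ M) (hD : 0 ≤ D) (hz1 : 1 ≤ z)
    (hz : ∀ p ∈ P0, (p : ℝ) ≤ z) (c : Finset (ι × ℕ) → ℝ)
    (hc : ∀ Q, |c Q| ≤ K * M ^ Q.card ∧ (c Q ≠ 0 → Q ⊆ J ×ˢ P1 ∧ ∏ e ∈ Q, (e.2 : ℝ) ≤ D)) :
    ∑ Q ∈ (J ×ˢ P1).powerset.filter
        (fun Q : Finset (ι × ℕ) => Set.InjOn Prod.snd (Q : Set (ι × ℕ))),
      |c Q| * ∑ D' ∈ P0.powerset.filter (fun D' : Finset ℕ => D'.card ≤ t + 1),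
          (J.card : ℝ) ^ D'.card * e (Q.image Prod.snd ∪ D') ≤
      K * ∑ Z ∈ (P0 ∪ P1).powerset.filter (fun Z : Finset ℕ => ∏ p ∈ Z, (p : ℝ) ≤ D * z ^ (t + 1)),
          ((J.card : ℝ) * (M + 1)) ^ Z.card * e Z := by
  obtain ⟨k, hk⟩ : ∃ k : ℝ, k = J.card := ⟨_, rfl⟩
  have hk0 : 0 ≤ k := by rw [hk]; exact Nat.cast_nonneg _
  rw [← hk]
  obtain ⟨s', hs'⟩ : ∃ s', s' = P0.powerset.filter (fun D' : Finset ℕ => D'.card ≤ t + 1) :=
    ⟨_, rfl⟩
  rw [← hs']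
  obtain ⟨s, hs⟩ : ∃ s, s = P1.powerset.filter (fun Y : Finset ℕ => ∏ p ∈ Y, (p : ℝ) ≤ D) :=
    ⟨_, rfl⟩
  obtain ⟨F, hF⟩ : ∃ F : Finset ℕ → ℝ, F = fun Y : Finset ℕ => if ∏ p ∈ Y, (p : ℝ) ≤ D then
    K * M ^ Y.card * ∑ D' ∈ s', k ^ D'.card * e (Y ∪ D') else 0 := ⟨_, rfl⟩
  have hsum0 : ∀ Y, 0 ≤ ∑ D' ∈ s', k ^ D'.card * e (Y ∪ D') := fun Y =>
    Finset.sum_nonneg fun D' _ => mul_nonneg (pow_nonneg hk0 _) (he0 _)
  have hF0 : ∀ Y, 0 ≤ F Y := by
    intro Y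
    rw [hF]
    simp only
    split_ifs
    · exact mul_nonneg (mul_nonneg hK (pow_nonneg hM _)) (hsum0 Y)
    · exact le_rfl
  obtain ⟨q, hq⟩ : ∃ q, q = (J ×ˢ P1).powerset.filter
        (fun Q : Finset (ι × ℕ) => Set.InjOn Prod.snd (Q : Set (ι × ℕ))) := ⟨_, rfl⟩
  rw [← hq]
  have step1 : ∀ Q ∈ q, |c Q| * ∑ D' ∈ s', k ^ D'.card * e (Q.image Prod.snd ∪ D') ≤
      F (Q.image Prod.snd) := by
    intro Q hQ
    rw [hq, Finset.mem_filter, Finset.mem_powerset] at hQ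
    obtain ⟨h1, h2⟩ := hc Q
    by_cases h0 : c Q = 0
    · rw [h0, abs_zero, zero_mul]
      exact hF0 _
    · obtain ⟨h3, h4⟩ := h2 h0
      have h5 : ∏ p ∈ Q.image Prod.snd, (p : ℝ) ≤ D := by
        rw [Finset.prod_image fun a ha b hb hab => hQ.2 ha hb hab]
        exact h4
      rw [hF]
      simp only
      rw [if_pos h5, Finset.card_image_of_injOn hQ.2]
      exact mul_le_mul_of_nonneg_right h1 (hsum0 _)
  have step2 : ∑ Q ∈ q, F (Q.image Prod.snd) ≤ ∑ Y ∈ P1.powerset, k ^ Y.card * F Y := by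
    have hmaps : ∀ Q ∈ q, Q.image Prod.snd ∈ P1.powerset := by
      intro Q hQ
      rw [hq, Finset.mem_filter, Finset.mem_powerset] at hQ
      rw [Finset.mem_powerset]
      intro x hx
      obtain ⟨a, ha, rfl⟩ := Finset.mem_image.1 hx
      exact (Finset.mem_product.1 (hQ.1 ha)).2
    rw [← Finset.sum_fiberwise_of_maps_to hmaps]
    refine Finset.sum_le_sum fun Y _ => ?_
    have h1 : ∑ Q ∈ q.filter (fun Q => Q.image Prod.snd = Y), F (Q.image Prod.snd) =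
        ((q.filter (fun Q => Q.image Prod.snd = Y)).card : ℝ) * F Y := by
      rw [← nsmul_eq_mul, ← Finset.sum_const]
      refine Finset.sum_congr rfl fun Q hQ => ?_
      rw [(Finset.mem_filter.1 hQ).2]
    rw [h1]
    refine mul_le_mul_of_nonneg_right ?_ (hF0 Y)
    have h2 := TrAbs_card_graph J P1 Y (q.filter (fun Q => Q.image Prod.snd = Y)) (by
      intro Q hQ
      rw [Finset.mem_filter, hq, Finset.mem_filter, Finset.mem_powerset] at hQ
      exact ⟨hQ.1.1, hQ.1.2, hQ.2⟩)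
    rw [hk]
    exact_mod_cast h2
  obtain ⟨H, hH⟩ : ∃ H : Finset ℕ → ℝ, H = fun Z : Finset ℕ => (k * (M + 1)) ^ Z.card * e Z := ⟨_, rfl⟩
  have hH0 : ∀ Z, 0 ≤ H Z := by
    intro Z
    rw [hH]
    exact mul_nonneg (pow_nonneg (by positivity) _) (he0 _)
  have hsub : ∀ Y ∈ s, ∀ D' ∈ s', Y ⊆ P1 ∧ D' ⊆ P0 ∧ Disjoint Y D' := by
    intro Y hY D' hD'
    rw [hs, Finset.mem_filter, Finset.mem_powerset] at hY
    rw [hs', Finset.mem_filter, Finset.mem_powerset] at hD'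
    exact ⟨hY.1, hD'.1, (hd.mono hD'.1 hY.1).symm⟩
  have step3 : ∑ Y ∈ P1.powerset, k ^ Y.card * F Y ≤
      K * ∑ x ∈ s ×ˢ s', H (x.1 ∪ x.2) := by
    have h1 : ∑ Y ∈ P1.powerset, k ^ Y.card * F Y =
        ∑ Y ∈ s, k ^ Y.card * (K * M ^ Y.card * ∑ D' ∈ s', k ^ D'.card * e (Y ∪ D')) := by
      rw [hs, Finset.sum_filter]
      refine Finset.sum_congr rfl fun Y _ => ?_
      rw [hF]
      simp only
      split_ifs
      · rfl
      · rw [mul_zero]
    rw [h1, Finset.sum_product, Finset.mul_sum]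
    refine Finset.sum_le_sum fun Y hY => ?_
    rw [Finset.mul_sum, Finset.mul_sum, Finset.mul_sum]
    refine Finset.sum_le_sum fun D' hD' => ?_
    obtain ⟨-, -, hdis⟩ := hsub Y hY D' hD'
    rw [hH]
    simp only
    rw [Finset.card_union_of_disjoint hdis]
    have h2 : k ^ Y.card * (K * M ^ Y.card * (k ^ D'.card * e (Y ∪ D'))) =
        K * (k ^ (Y.card + D'.card) * M ^ Y.card * e (Y ∪ D')) := by
      rw [pow_add]; ring
    rw [h2, mul_pow]
    refine mul_le_mul_of_nonneg_left (mul_le_mul_of_nonneg_right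
      (mul_le_mul_of_nonneg_left ?_ (pow_nonneg hk0 _)) (he0 _)) hK
    calc M ^ Y.card ≤ (M + 1) ^ Y.card := pow_le_pow_left₀ hM (by linarith only []) _
      _ ≤ (M + 1) ^ (Y.card + D'.card) := pow_le_pow_right₀ (by linarith only [hM]) (by omega)
  have step4 : ∑ x ∈ s ×ˢ s', H (x.1 ∪ x.2) ≤
      ∑ Z ∈ (P0 ∪ P1).powerset.filter (fun Z : Finset ℕ => ∏ p ∈ Z, (p : ℝ) ≤ D * z ^ (t + 1)),
        H Z := by
    have hinj : Set.InjOn (fun x : Finset ℕ × Finset ℕ => x.1 ∪ x.2)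
        ((s ×ˢ s' : Finset (Finset ℕ × Finset ℕ)) : Set (Finset ℕ × Finset ℕ)) := by
      rintro ⟨Y, D'⟩ hx ⟨Y₁, D₁⟩ hx₁ hxy
      rw [Finset.mem_coe, Finset.mem_product] at hx hx₁
      obtain ⟨a1, a2, -⟩ := hsub _ hx.1 _ hx.2
      obtain ⟨b1, b2, -⟩ := hsub _ hx₁.1 _ hx₁.2
      simp only at hxy a1 a2 b1 b2
      have h1 : ∀ x, x ∈ Y ∪ D' ↔ x ∈ Y₁ ∪ D₁ := fun x => by rw [hxy]
      have hnot : ∀ x, x ∈ P0 → x ∈ P1 → False := fun x h2 h3 => Finset.disjoint_left.1 hd h2 h3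
      refine Prod.ext ?_ ?_
      · ext x
        have h2 := h1 x
        rw [Finset.mem_union, Finset.mem_union] at h2
        constructor
        · intro hx2
          rcases h2.1 (Or.inl hx2) with h3 | h3
          · exact h3
          · exact (hnot x (b2 h3) (a1 hx2)).elim
        · intro hx2
          rcases h2.2 (Or.inl hx2) with h3 | h3
          · exact h3
          · exact (hnot x (a2 h3) (b1 hx2)).elim
      · ext x
        have h2 := h1 x
        rw [Finset.mem_union, Finset.mem_union] at h2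
        constructor
        · intro hx2
          rcases h2.1 (Or.inr hx2) with h3 | h3
          · exact (hnot x (a2 hx2) (b1 h3)).elim
          · exact h3
        · intro hx2
          rcases h2.2 (Or.inr hx2) with h3 | h3
          · exact (hnot x (b2 hx2) (a1 h3)).elim
          · exact h3
    rw [← Finset.sum_image (f := H) (g := fun x : Finset ℕ × Finset ℕ => x.1 ∪ x.2)
      (fun x hx y hy hxy => hinj hx hy hxy)]
    refine Finset.sum_le_sum_of_subset_of_nonneg ?_ fun Z _ _ => hH0 Z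
    intro Z hZ
    obtain ⟨⟨Y, D'⟩, hx, rfl⟩ := Finset.mem_image.1 hZ
    rw [Finset.mem_product] at hx
    obtain ⟨a1, a2, a3⟩ := hsub _ hx.1 _ hx.2
    obtain ⟨hx1, hx2⟩ := hx
    rw [hs, Finset.mem_filter] at hx1
    rw [hs', Finset.mem_filter] at hx2
    simp only at hx1 hx2 a1 a2 a3 ⊢
    rw [Finset.mem_filter, Finset.mem_powerset]
    refine ⟨Finset.union_subset (a1.trans Finset.subset_union_right)
      (a2.trans Finset.subset_union_left), ?_⟩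
    rw [Finset.prod_union a3]
    have h1 : ∏ p ∈ D', (p : ℝ) ≤ z ^ (t + 1) := by
      calc ∏ p ∈ D', (p : ℝ) ≤ ∏ _p ∈ D', z :=
            Finset.prod_le_prod (fun p _ => Nat.cast_nonneg p) fun p hp => hz p (a2 hp)
        _ = z ^ D'.card := by rw [Finset.prod_const]
        _ ≤ z ^ (t + 1) := pow_le_pow_right₀ hz1 hx2.2
    exact mul_le_mul hx1.2 h1 (Finset.prod_nonneg fun p _ => Nat.cast_nonneg p) hD
  calc _ ≤ ∑ Q ∈ q, F (Q.image Prod.snd) := Finset.sum_le_sum step1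
    _ ≤ _ := step2
    _ ≤ _ := step3
    _ ≤ _ := mul_le_mul_of_nonneg_left step4 hK
    _ = _ := by rw [hH]

end TrAbs

open Classical in
theorem trAbs {ι : Type} [Fintype ι] [DecidableEq ι] (J : Finset ι) (h : ι → ℕ) (N P0 P1 : Finset ℕ)
    (hP0 : ∀ p ∈ P0, p.Prime) (hP1 : ∀ p ∈ P1, p.Prime) (hd : Disjoint P0 P1)
    (hdist : ∀ p ∈ P0 ∪ P1, ∀ i ∈ J, ∀ j ∈ J, i ≠ j → ¬ h i ≡ h j [MOD p])
    (g : ℕ → ℝ) (hg : ∀ p ∈ P0 ∪ P1, 0 ≤ g p ∧ (J.card : ℝ) * g p ≤ 1) (X0 : ℝ) (hX : 0 ≤ X0)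
    (e : Finset ℕ → ℝ) (he0 : ∀ Z, 0 ≤ e Z)
    (hcount : ∀ Z ⊆ P0 ∪ P1, ∀ φ : ℕ → ι, (∀ p ∈ Z, φ p ∈ J) →
      |((N.filter (fun n => ∀ p ∈ Z, p ∣ n + h (φ p))).card : ℝ) - X0 * ∏ p ∈ Z, g p| ≤ e Z)
    (hcount0 : |(N.card : ℝ) - X0| ≤ e ∅)
    (t : ℕ) (K M D z : ℝ) (hK : 0 ≤ K) (hM : 0 ≤ M) (hD : 0 ≤ D) (hz1 : 1 ≤ z) (hz : ∀ p ∈ P0, (p : ℝ) ≤ z)
    (c : Finset (ι × ℕ) → ℝ)
    (hc : ∀ Q, |c Q| ≤ K * M ^ Q.card ∧ (c Q ≠ 0 → Q ⊆ J ×ˢ P1 ∧ ∏ e ∈ Q, (e.2 : ℝ) ≤ D)) :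
    |∑ n ∈ N.filter (fun n => ∀ i ∈ J, ∀ p ∈ P0, ¬ p ∣ n + h i), Ev (J ×ˢ P1) c (yy h n) -
        X0 * (∏ p ∈ P0, (1 - (J.card : ℝ) * g p)) * Ev (J ×ˢ P1) c (fun e => g e.2)| ≤
      X0 * (∑ Q ∈ (J ×ˢ P1).powerset, |c Q| * ∏ e ∈ Q, g e.2) *
          (2 * ((J.card : ℝ) * ∑ p ∈ P0, g p) ^ (t + 1) / (t + 1).factorial) +
        X0 * ∑ Q ∈ (J ×ˢ P1).powerset.filter (fun Q : Finset (ι × ℕ) => ¬ Set.InjOn Prod.snd (Q : Set (ι × ℕ))),
          |c Q| * ∏ e ∈ Q, g e.2 +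
        K * ∑ Z ∈ (P0 ∪ P1).powerset.filter (fun Z : Finset ℕ => ∏ p ∈ Z, (p : ℝ) ≤ D * z ^ (t + 1)),
          ((J.card : ℝ) * (M + 1)) ^ Z.card * e Z := by
  obtain ⟨V, hV⟩ : ∃ V, V = ∏ p ∈ P0, (1 - (J.card : ℝ) * g p) := ⟨_, rfl⟩
  obtain ⟨T, hT⟩ : ∃ T : Finset (ι × ℕ) → ℝ, T = fun Q =>
    ∑ n ∈ N, (∏ a ∈ Q, yy h n a) * ∏ p ∈ P0, (1 - TrAbs_A J h n p) := ⟨_, rfl⟩
  obtain ⟨G, hG⟩ : ∃ G : Finset (ι × ℕ) → ℝ, G = fun Q => ∏ a ∈ Q, g a.2 := ⟨_, rfl⟩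
  have hG0 : ∀ Q ∈ (J ×ˢ P1).powerset, 0 ≤ G Q := by
    intro Q hQ
    rw [Finset.mem_powerset] at hQ
    rw [hG]
    exact Finset.prod_nonneg fun a ha =>
      (hg a.2 (Finset.mem_union_right _ (Finset.mem_product.1 (hQ ha)).2)).1
  have hV0 : 0 ≤ V ∧ V ≤ 1 := by
    rw [hV]
    constructor
    · exact Finset.prod_nonneg fun p hp => sub_nonneg.2 (hg p (Finset.mem_union_left _ hp)).2
    · refine Finset.prod_le_one (fun p hp => sub_nonneg.2
        (hg p (Finset.mem_union_left _ hp)).2) fun p hp => ?_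
      have := mul_nonneg (Nat.cast_nonneg (α := ℝ) J.card) (hg p (Finset.mem_union_left _ hp)).1
      linarith only [this]
  have hrough : ∀ n, ∏ p ∈ P0, (1 - TrAbs_A J h n p) =
      if ∀ i ∈ J, ∀ p ∈ P0, ¬ p ∣ n + h i then 1 else 0 := by
    intro n
    by_cases h1 : ∀ i ∈ J, ∀ p ∈ P0, ¬ p ∣ n + h i
    · rw [if_pos h1]
      refine Finset.prod_eq_one fun p hp => ?_
      unfold TrAbs_A
      rw [if_neg, sub_zero]
      rintro ⟨i, hi, hp'⟩
      exact h1 i hi p hp hp'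
    · rw [if_neg h1]
      push Not at h1
      obtain ⟨i, hi, p, hp, hp'⟩ := h1
      refine Finset.prod_eq_zero hp ?_
      unfold TrAbs_A
      rw [if_pos ⟨i, hi, hp'⟩, sub_self]
  have e1 : ∑ n ∈ N.filter (fun n => ∀ i ∈ J, ∀ p ∈ P0, ¬ p ∣ n + h i),
      Ev (J ×ˢ P1) c (yy h n) = ∑ Q ∈ (J ×ˢ P1).powerset, c Q * T Q := by
    rw [Finset.sum_filter, hT]
    simp only [Finset.mul_sum]
    rw [Finset.sum_comm]
    refine Finset.sum_congr rfl fun n _ => ?_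
    unfold Ev
    by_cases h1 : ∀ i ∈ J, ∀ p ∈ P0, ¬ p ∣ n + h i
    · rw [if_pos h1]
      refine Finset.sum_congr rfl fun Q _ => ?_
      rw [hrough n, if_pos h1, mul_one]
    · rw [if_neg h1]
      symm
      refine Finset.sum_eq_zero fun Q _ => ?_
      rw [hrough n, if_neg h1, mul_zero, mul_zero]
  have e2 : X0 * V * Ev (J ×ˢ P1) c (fun e => g e.2) =
      ∑ Q ∈ (J ×ˢ P1).powerset, c Q * (X0 * G Q * V) := by
    unfold Ev
    rw [Finset.mul_sum, hG]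
    refine Finset.sum_congr rfl fun Q _ => ?_
    ring
  rw [← hV, e1, e2, ← Finset.sum_sub_distrib]
  refine (Finset.abs_sum_le_sum_abs _ _).trans ?_
  rw [← Finset.sum_filter_add_sum_filter_not (J ×ˢ P1).powerset
    (fun Q : Finset (ι × ℕ) => Set.InjOn Prod.snd (Q : Set (ι × ℕ)))]
  obtain ⟨W, hW⟩ : ∃ W, W = 2 * ((J.card : ℝ) * ∑ p ∈ P0, g p) ^ (t + 1) / (t + 1).factorial :=
    ⟨_, rfl⟩
  have hW0 : 0 ≤ W := by
    rw [hW]
    have : 0 ≤ ∑ p ∈ P0, g p := Finset.sum_nonneg fun p hp => (hg p (Finset.mem_union_left _ hp)).1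
    positivity
  have hbad : ∑ Q ∈ (J ×ˢ P1).powerset.filter
      (fun Q : Finset (ι × ℕ) => ¬ Set.InjOn Prod.snd (Q : Set (ι × ℕ))),
        |c Q * T Q - c Q * (X0 * G Q * V)| ≤
      X0 * ∑ Q ∈ (J ×ˢ P1).powerset.filter
        (fun Q : Finset (ι × ℕ) => ¬ Set.InjOn Prod.snd (Q : Set (ι × ℕ))), |c Q| * G Q := by
    rw [Finset.mul_sum]
    refine Finset.sum_le_sum fun Q hQ => ?_
    rw [Finset.mem_filter] at hQ
    obtain ⟨hQ1, hQ2⟩ := hQ
    have hT0 : T Q = 0 := by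
      rw [hT]
      refine Finset.sum_eq_zero fun n _ => ?_
      rw [mul_eq_zero]
      left
      unfold Set.InjOn at hQ2
      push Not at hQ2
      obtain ⟨a, ha, b, hb, hab, hne⟩ := hQ2
      rw [Finset.mem_powerset] at hQ1
      have hne1 : a.1 ≠ b.1 := fun h1 => hne (Prod.ext h1 hab)
      have haP := Finset.mem_product.1 (hQ1 ha)
      have hbP := Finset.mem_product.1 (hQ1 hb)
      by_contra h0
      rw [TrAbs_prod_yy] at h0
      split_ifs at h0 with h1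
      · have h2 := h1 a ha
        have h3 := h1 b hb
        rw [← hab] at h3
        refine hdist a.2 (Finset.mem_union_right _ haP.2) a.1 haP.1 b.1 hbP.1 hne1 ?_
        have h4 : n + h a.1 ≡ n + h b.1 [MOD a.2] :=
          (Nat.modEq_zero_iff_dvd.2 h2).trans (Nat.modEq_zero_iff_dvd.2 h3).symm
        exact Nat.ModEq.add_left_cancel' n h4
      · exact h0 rfl
    rw [hT0, mul_zero, zero_sub, abs_neg, abs_mul]
    have h1 : |X0 * G Q * V| ≤ X0 * G Q := by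
      rw [abs_of_nonneg (mul_nonneg (mul_nonneg hX (hG0 Q hQ1)) hV0.1)]
      exact mul_le_of_le_one_right (mul_nonneg hX (hG0 Q hQ1)) hV0.2
    calc |c Q| * |X0 * G Q * V| ≤ |c Q| * (X0 * G Q) :=
          mul_le_mul_of_nonneg_left h1 (abs_nonneg _)
      _ = _ := by ring
  have hgood : ∑ Q ∈ (J ×ˢ P1).powerset.filter
      (fun Q : Finset (ι × ℕ) => Set.InjOn Prod.snd (Q : Set (ι × ℕ))),
        |c Q * T Q - c Q * (X0 * G Q * V)| ≤
      X0 * (∑ Q ∈ (J ×ˢ P1).powerset, |c Q| * G Q) * W +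
      K * ∑ Z ∈ (P0 ∪ P1).powerset.filter (fun Z : Finset ℕ => ∏ p ∈ Z, (p : ℝ) ≤ D * z ^ (t + 1)),
          ((J.card : ℝ) * (M + 1)) ^ Z.card * e Z := by
    have h3 := TrAbs_three J P0 P1 hd e he0 t K M D z hK hM hD hz1 hz c hc
    have h4 : ∑ Q ∈ (J ×ˢ P1).powerset.filter
        (fun Q : Finset (ι × ℕ) => Set.InjOn Prod.snd (Q : Set (ι × ℕ))),
          X0 * (|c Q| * G Q) * W ≤ X0 * (∑ Q ∈ (J ×ˢ P1).powerset, |c Q| * G Q) * W := by
      rw [Finset.mul_sum, Finset.sum_mul]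
      refine Finset.sum_le_sum_of_subset_of_nonneg (Finset.filter_subset _ _) fun Q hQ _ => ?_
      exact mul_nonneg (mul_nonneg hX (mul_nonneg (abs_nonneg _) (hG0 Q hQ))) hW0
    refine le_trans ?_ (add_le_add h4 h3)
    rw [← Finset.sum_add_distrib]
    refine Finset.sum_le_sum fun Q hQ => ?_
    rw [Finset.mem_filter, Finset.mem_powerset] at hQ
    have h5 := TrAbs_one J h N P0 P1 hd g hg X0 hX e hdist hcount hcount0 t Q hQ.1 hQ.2
    rw [← mul_sub, abs_mul]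
    have h6 : |T Q - X0 * G Q * V| ≤ X0 * G Q * W +
        ∑ D ∈ P0.powerset.filter (fun D : Finset ℕ => D.card ≤ t + 1),
          (J.card : ℝ) ^ D.card * e (Q.image Prod.snd ∪ D) := by
      rw [hT, hG, hV, hW]
      exact h5
    calc |c Q| * |T Q - X0 * G Q * V| ≤ |c Q| * (X0 * G Q * W +
        ∑ D ∈ P0.powerset.filter (fun D : Finset ℕ => D.card ≤ t + 1),
          (J.card : ℝ) ^ D.card * e (Q.image Prod.snd ∪ D)) :=
          mul_le_mul_of_nonneg_left h6 (abs_nonneg _)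
      _ = _ := by ring
  rw [← hW]
  have hfin := add_le_add hgood hbad
  rw [hG] at hfin
  simp only at hfin
  rw [hG]
  simp only
  linarith only [hfin]

end Pool.Agent.H36.IS

end
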