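import Pool.Agent.H15.TB1.M21
import Pool.Agent.H15.TB1.M42
import Pool.Agent.H15.TB1.M56
import Pool.Agent.H15.TB1.M58

/-! The parts of this file: H36.IS.ChebStep. -/

section

/-!
# IS ChebStep: from the data of a mark to the sieve step
-/

set_option autoImplicit false

namespace Pool.Agent.H36.IS

open Finset Filter

theorem ChebStep_num {c₁ c : ℝ} (h0 : 0 < c₁) (h : c₁ < c) :
    ∃ ε : ℝ, 0 < ε ∧ ε ≤ 1 / 4 ∧ c₁ * ((1 + ε) * (1 / c + 2 * ε)) ≤ (1 - 3 * ε) ^ 2 := by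
  have hc : 0 < c := h0.trans h
  have hd : 0 < 1 - c₁ / c := by
    rw [sub_pos, div_lt_one hc]
    exact h
  have hden : 0 < 7 + 3 * c₁ := by positivity
  refine ⟨min (1 / 4) ((1 - c₁ / c) / (7 + 3 * c₁)), lt_min (by norm_num) (div_pos hd hden), min_le_left _ _, ?_⟩
  set ε := min (1 / 4) ((1 - c₁ / c) / (7 + 3 * c₁)) with hε
  have h1 : ε ≤ 1 / 4 := min_le_left _ _
  have h2 : ε ≤ (1 - c₁ / c) / (7 + 3 * c₁) := min_le_right _ _
  have h3 : 0 < ε := lt_min (by norm_num) (div_pos hd hden)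
  rw [le_div_iff₀ hden] at h2
  have h4 : c₁ * ((1 + ε) * (1 / c + 2 * ε)) = c₁ / c + ε * (c₁ / c) + 2 * ε * c₁ + 2 * ε * (ε * c₁) := by
    ring
  have h5 : ε * (c₁ / c) ≤ ε * 1 := mul_le_mul_of_nonneg_left (by linarith only [hd]) h3.le
  have h6 : 2 * ε * (ε * c₁) ≤ 2 * ε * (1 / 4 * c₁) :=
    mul_le_mul_of_nonneg_left (mul_le_mul_of_nonneg_right h1 h0.le) (by positivity)
  rw [h4]
  nlinarith only [h2, h3, h0, h6, hd, h1, mul_pos h3 h0]

theorem ChebStep_CS {ι : Type} (X : Finset ℕ) (I : Finset ι) (Lf : ℕ → ℝ) (χ : ι → ℕ → ℝ) :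
    (∑ i ∈ I, ∑ n ∈ X, χ i n * Lf n ^ 2) ^ 2 ≤
      (∑ n ∈ X, if ∑ i ∈ I, χ i n = 0 then 0 else Lf n ^ 2) *
        ∑ i ∈ I, ∑ j ∈ I, ∑ n ∈ X, χ i n * χ j n * Lf n ^ 2 := by
  classical
  have h1 : ∑ i ∈ I, ∑ n ∈ X, χ i n * Lf n ^ 2 =
      ∑ n ∈ X, (if ∑ i ∈ I, χ i n = 0 then 0 else Lf n) * ((∑ i ∈ I, χ i n) * Lf n) := by
    rw [Finset.sum_comm]
    refine Finset.sum_congr rfl fun n _ => ?_
    rw [← Finset.sum_mul]
    split_ifs with h
    · rw [h]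
      ring
    · ring
  have h2 : (∑ n ∈ X, if ∑ i ∈ I, χ i n = 0 then 0 else Lf n ^ 2) =
      ∑ n ∈ X, (if ∑ i ∈ I, χ i n = 0 then 0 else Lf n) ^ 2 := by
    refine Finset.sum_congr rfl fun n _ => ?_
    split_ifs <;> ring
  have h3 : ∑ i ∈ I, ∑ j ∈ I, ∑ n ∈ X, χ i n * χ j n * Lf n ^ 2 =
      ∑ n ∈ X, ((∑ i ∈ I, χ i n) * Lf n) ^ 2 := by
    have h4 : ∀ i ∈ I, ∑ j ∈ I, ∑ n ∈ X, χ i n * χ j n * Lf n ^ 2 =
        ∑ n ∈ X, χ i n * (∑ j ∈ I, χ j n) * Lf n ^ 2 := by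
      intro i _
      rw [Finset.sum_comm]
      refine Finset.sum_congr rfl fun n _ => ?_
      rw [Finset.mul_sum, Finset.sum_mul]
    rw [Finset.sum_congr rfl h4, Finset.sum_comm]
    refine Finset.sum_congr rfl fun n _ => ?_
    rw [← Finset.sum_mul, ← Finset.sum_mul]
    ring
  rw [h1, h2, h3]
  exact Finset.sum_mul_sq_le_sq_mul_sq _ _ _

/-- the final inequality -/
theorem ChebStep_alg {k a V l q1 q2 E c c₁ ε S0 S1 S2 Pm : ℝ} (hk : 1 ≤ k) (ha : 0 < a) (hl : 0 < l)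
    (hV : 0 < V) (hc₁ : 0 < c₁) (hc : 0 < c) (hε : 0 < ε) (hε1 : ε ≤ 1 / 4)
    (hnum : c₁ * ((1 + ε) * (1 / c + 2 * ε)) ≤ (1 - 3 * ε) ^ 2)
    (_hS0 : 0 < S0) (H0 : S0 ≤ (1 + ε) * (a * V)) (H1 : k * (a * l * (1 - 3 * ε)) ≤ S1)
    (H2 : S2 ≤ k * (a * q1) + k ^ 2 * (a * (q2 / V)) + k ^ 2 * E) (HP : S1 ^ 2 ≤ Pm * S2) (hPm : 0 ≤ Pm)
    (X1 : V * q1 ≤ k * (ε * l ^ 2)) (X2 : c * q2 ≤ l ^ 2) (X3 : V * E ≤ ε * (a * l ^ 2)) : c₁ * S0 ≤ Pm := by
  by_contra hcon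
  push Not at hcon
  have hk0 : 0 < k := by linarith only [hk, hε, hε1]
  have hS1 : 0 < S1 := lt_of_lt_of_le (by
    have : 0 < 1 - 3 * ε := by linarith only [hε, hε1]
    positivity) H1
  have hS1' : (k * (a * l * (1 - 3 * ε))) ^ 2 ≤ S1 ^ 2 := by
    have : 0 ≤ k * (a * l * (1 - 3 * ε)) := by
      have : 0 < 1 - 3 * ε := by linarith only [hε1]
      positivity
    exact pow_le_pow_left₀ this H1 2
  have hprod : 0 < Pm * S2 := lt_of_lt_of_le (by positivity) HP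
  have hS2 : 0 < S2 := by
    by_contra h
    push Not at h
    have := mul_nonpos_of_nonneg_of_nonpos hPm h
    linarith only [hprod, this]
  have h1 : Pm * S2 < c₁ * S0 * S2 := mul_lt_mul_of_pos_right hcon hS2
  have h2 : c₁ * S0 * S2 ≤ c₁ * ((1 + ε) * (a * V)) * S2 :=
    mul_le_mul_of_nonneg_right (mul_le_mul_of_nonneg_left H0 hc₁.le) hS2.le
  have h3 : V * S2 ≤ k ^ 2 * a * l ^ 2 * (1 / c + 2 * ε) := by
    have e1 : V * S2 ≤ V * (k * (a * q1) + k ^ 2 * (a * (q2 / V)) + k ^ 2 * E) :=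
      mul_le_mul_of_nonneg_left H2 hV.le
    have e2 : V * (k * (a * q1) + k ^ 2 * (a * (q2 / V)) + k ^ 2 * E)
        = k * a * (V * q1) + k ^ 2 * a * q2 + k ^ 2 * (V * E) := by
      field_simp
    have e3 : k * a * (V * q1) ≤ k * a * (k * (ε * l ^ 2)) := mul_le_mul_of_nonneg_left X1 (by positivity)
    have e4 : q2 ≤ l ^ 2 / c := by
      rw [le_div_iff₀ hc]
      linarith only [X2]
    have e5 : k ^ 2 * a * q2 ≤ k ^ 2 * a * (l ^ 2 / c) := mul_le_mul_of_nonneg_left e4 (by positivity)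
    have e6 : k ^ 2 * (V * E) ≤ k ^ 2 * (ε * (a * l ^ 2)) := mul_le_mul_of_nonneg_left X3 (by positivity)
    have e7 : k ^ 2 * a * l ^ 2 * (1 / c + 2 * ε) =
        k * a * (k * (ε * l ^ 2)) + k ^ 2 * a * (l ^ 2 / c) + k ^ 2 * (ε * (a * l ^ 2)) := by ring
    rw [e7]
    linarith only [e1, e2, e3, e5, e6]
  have h4 : c₁ * ((1 + ε) * (a * V)) * S2 ≤ (k * (a * l * (1 - 3 * ε))) ^ 2 := by
    calc c₁ * ((1 + ε) * (a * V)) * S2 = c₁ * (1 + ε) * a * (V * S2) := by ring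
      _ ≤ c₁ * (1 + ε) * a * (k ^ 2 * a * l ^ 2 * (1 / c + 2 * ε)) :=
          mul_le_mul_of_nonneg_left h3 (by positivity)
      _ = (k ^ 2 * a ^ 2 * l ^ 2) * (c₁ * ((1 + ε) * (1 / c + 2 * ε))) := by ring
      _ ≤ (k ^ 2 * a ^ 2 * l ^ 2) * (1 - 3 * ε) ^ 2 := mul_le_mul_of_nonneg_left hnum (by positivity)
      _ = _ := by ring
  linarith only [HP, hS1', h1, h2, h4]

theorem ChebStep_block {ι : Type} [DecidableEq ι] (X : Finset ℕ) (Lf : ℕ → ℝ) (I : Finset ι) (χ : ι → ℕ → ℝ)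
    (hχ : ∀ i n, χ i n = 0 ∨ χ i n = 1) (hI : 1 ≤ I.card)
    {Mn l q1 q2 E τ T U Lam D Q m ε c c₁ c' C S0 : ℝ} (hMn : 0 < Mn) (hT : 0 < T) (hU : 0 < U) (hD : 0 < D)
    (hQ : 1 ≤ Q) (hm : 0 < m) (hτ : 0 < τ) (hc' : 0 < c') (_hC : 0 < C) (hε : 0 < ε) (hε1 : ε ≤ 1 / 4) (hc : 0 < c)
    (hc₁ : 0 < c₁) (_hE : 0 ≤ E) (hS0p : 0 < S0) (hq1 : 0 ≤ q1) (hq2 : 0 ≤ q2)
    (hnum : c₁ * ((1 + ε) * (1 / c + 2 * ε)) ≤ (1 - 3 * ε) ^ 2) (hmC : C ≤ ε * m * c' ^ 2)
    (hl : c' ≤ l * τ) (hq1C : q1 * τ ≤ C) (hq2l : c * q2 ≤ l ^ 2)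
    (hS0 : S0 ≤ Mn * (U ^ I.card * Q) + E)
    (hlow : ∀ i ∈ I, Mn * l * (T ^ 2 * (U ^ (I.card - 1) - ((I.card : ℝ) - 1) * U ^ (I.card - 2) * (2 * Lam / D)) * Q)
      - E ≤ ∑ n ∈ X, χ i n * Lf n ^ 2)
    (hup : ∀ i ∈ I, ∑ n ∈ X, χ i n * Lf n ^ 2 ≤ Mn * q1 * (T ^ 2 * U ^ (I.card - 1) * Q) + E)
    (hpair : ∀ i ∈ I, ∀ j ∈ I, i ≠ j → ∑ n ∈ X, χ i n * χ j n * Lf n ^ 2 ≤
      Mn * q2 * (T ^ 4 * U ^ (I.card - 2) * Q) + E)
    (hLam : (I.card : ℝ) * Lam ≤ ε * D * U) (hLam0 : 0 ≤ Lam) (hWL : m * τ * U ≤ (I.card : ℝ) * T ^ 2)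
    (E1 : E ≤ ε * (Mn * (T ^ 2 * U ^ (I.card - 1) * Q)) * l) (E2 : E ≤ ε * (Mn * (U ^ I.card * Q)))
    (E3 : U / T ^ 2 * E ≤ ε * (Mn * (T ^ 2 * U ^ (I.card - 1) * Q) * l ^ 2)) :
    c₁ * S0 ≤ ∑ n ∈ X, if ∑ i ∈ I, χ i n = 0 then 0 else Lf n ^ 2 := by
  have hk1 : (1 : ℝ) ≤ (I.card : ℝ) := by exact_mod_cast hI
  have hk0 : (0 : ℝ) < (I.card : ℝ) := by linarith only [hε, hε1, hk1]
  have hQ0 : 0 < Q := by linarith only [hQ, hε, hε1]
  have hl0 : 0 < l := by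
    by_contra h
    push Not at h
    have := mul_nonpos_of_nonpos_of_nonneg h hτ.le
    linarith only [hc', hl, this]
  have hUk : U ^ I.card = U ^ (I.card - 1) * U := by
    rw [← pow_succ]
    congr 1
    omega
  set a : ℝ := Mn * (T ^ 2 * U ^ (I.card - 1) * Q) with ha
  have ha0 : 0 < a := by positivity
  set V : ℝ := U / T ^ 2 with hV
  have hV0 : 0 < V := by positivity
  have haV : Mn * (U ^ I.card * Q) = a * V := by
    rw [ha, hV, hUk]
    field_simp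
  have hVk : V * (m * τ) ≤ (I.card : ℝ) := by
    rw [hV, div_mul_eq_mul_div, div_le_iff₀ (by positivity)]
    linarith only [hWL]
  refine ChebStep_alg (k := (I.card : ℝ)) (a := a) (V := V) (l := l) (q1 := q1) (q2 := q2) (E := E) (c := c)
    (c₁ := c₁) (ε := ε) (S0 := S0) (S1 := ∑ i ∈ I, ∑ n ∈ X, χ i n * Lf n ^ 2)
    (S2 := ∑ i ∈ I, ∑ j ∈ I, ∑ n ∈ X, χ i n * χ j n * Lf n ^ 2)
    hk1 ha0 hl0 hV0 hc₁ hc hε hε1 hnum hS0p ?_ ?_ ?_ (ChebStep_CS X I Lf χ) ?_ ?_ hq2l E3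
  · rw [haV] at hS0 E2
    linarith only [E2, hS0]
  · -- first moment
    have h1 : ∀ i ∈ I, a * l * (1 - 3 * ε) ≤ ∑ n ∈ X, χ i n * Lf n ^ 2 := by
      intro i hi
      refine le_trans ?_ (hlow i hi)
      have h2 : ((I.card : ℝ) - 1) * U ^ (I.card - 2) * (2 * Lam / D) ≤ 2 * ε * U ^ (I.card - 1) := by
        rcases Nat.lt_or_ge I.card 2 with hlt | hge
        · have : I.card = 1 := by omega
          rw [this]
          norm_num
          exact hε.le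
        · have h3 : U ^ (I.card - 1) = U ^ (I.card - 2) * U := by
            rw [← pow_succ]
            congr 1
            omega
          rw [h3]
          have h4 : ((I.card : ℝ) - 1) * (2 * Lam / D) ≤ 2 * ε * U := by
            rw [mul_div_assoc', div_le_iff₀ hD]
            nlinarith only [hLam, hLam0]
          calc ((I.card : ℝ) - 1) * U ^ (I.card - 2) * (2 * Lam / D)
              = U ^ (I.card - 2) * (((I.card : ℝ) - 1) * (2 * Lam / D)) := by ring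
            _ ≤ U ^ (I.card - 2) * (2 * ε * U) := mul_le_mul_of_nonneg_left h4 (by positivity)
            _ = _ := by ring
      have h5 : a * l * (1 - 2 * ε) ≤
          Mn * l * (T ^ 2 * (U ^ (I.card - 1) - ((I.card : ℝ) - 1) * U ^ (I.card - 2) * (2 * Lam / D)) * Q) := by
        have h6 : U ^ (I.card - 1) * (1 - 2 * ε) ≤
            U ^ (I.card - 1) - ((I.card : ℝ) - 1) * U ^ (I.card - 2) * (2 * Lam / D) := by linarith only [h2]
        calc a * l * (1 - 2 * ε) = (Mn * l * (T ^ 2 * Q)) * (U ^ (I.card - 1) * (1 - 2 * ε)) := by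
              rw [ha]
              ring
          _ ≤ (Mn * l * (T ^ 2 * Q)) *
              (U ^ (I.card - 1) - ((I.card : ℝ) - 1) * U ^ (I.card - 2) * (2 * Lam / D)) :=
              mul_le_mul_of_nonneg_left h6 (by positivity)
          _ = _ := by ring
      have h7 : E ≤ ε * a * l := E1
      nlinarith only [E1, h5]
    calc (I.card : ℝ) * (a * l * (1 - 3 * ε)) = ∑ _i ∈ I, a * l * (1 - 3 * ε) := by
          rw [Finset.sum_const, nsmul_eq_mul]
      _ ≤ _ := Finset.sum_le_sum h1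
  · -- second moment
    have h1 : ∀ i ∈ I, ∑ j ∈ I, ∑ n ∈ X, χ i n * χ j n * Lf n ^ 2 ≤
        (a * q1 + E) + ((I.card : ℝ) - 1) * (a * (q2 / V) + E) := by
      intro i hi
      rw [← Finset.add_sum_erase I _ hi]
      refine add_le_add ?_ ?_
      · have h2 : ∑ n ∈ X, χ i n * χ i n * Lf n ^ 2 = ∑ n ∈ X, χ i n * Lf n ^ 2 := by
          refine Finset.sum_congr rfl fun n _ => ?_
          rcases hχ i n with h | h <;> rw [h] <;> ring
        rw [h2]
        refine (hup i hi).trans (le_of_eq ?_)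
        rw [ha]
        ring
      · have h3 : ∀ j ∈ I.erase i, ∑ n ∈ X, χ i n * χ j n * Lf n ^ 2 ≤ a * (q2 / V) + E := by
          intro j hj
          have hij := Finset.ne_of_mem_erase hj
          refine (hpair i hi j (Finset.mem_of_mem_erase hj) (Ne.symm hij)).trans (le_of_eq ?_)
          have hge : 2 ≤ I.card := by
            have h8 := Finset.card_pos.2 ⟨j, hj⟩
            rw [Finset.card_erase_of_mem hi] at h8
            omega
          have h9 : U ^ (I.card - 1) = U ^ (I.card - 2) * U := by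
            rw [← pow_succ]
            congr 1
            omega
          rw [ha, hV, h9]
          field_simp
        calc _ ≤ ∑ _j ∈ I.erase i, (a * (q2 / V) + E) := Finset.sum_le_sum h3
          _ = _ := by
              rw [Finset.sum_const, nsmul_eq_mul, Finset.card_erase_of_mem hi, Nat.cast_sub hI, Nat.cast_one]
    calc _ ≤ ∑ _i ∈ I, ((a * q1 + E) + ((I.card : ℝ) - 1) * (a * (q2 / V) + E)) := Finset.sum_le_sum h1
      _ = (I.card : ℝ) * ((a * q1 + E) + ((I.card : ℝ) - 1) * (a * (q2 / V) + E)) := by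
          rw [Finset.sum_const, nsmul_eq_mul]
      _ ≤ _ := by
          have h10 : 0 ≤ (I.card : ℝ) * (a * (q2 / V)) := by positivity
          nlinarith only [h10]
  · refine Finset.sum_nonneg fun n _ => ?_
    split_ifs
    · exact le_refl _
    · positivity
  · -- V q1 ≤ k ε l²
    have h1 : c' ^ 2 ≤ (l * τ) ^ 2 := pow_le_pow_left₀ hc'.le hl 2
    have h2 : V * q1 * (m * τ ^ 2) ≤ (I.card : ℝ) * C := by
      calc V * q1 * (m * τ ^ 2) = (V * (m * τ)) * (q1 * τ) := by ring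
        _ ≤ (I.card : ℝ) * C := mul_le_mul hVk hq1C (by positivity) hk0.le
    have h3 : (I.card : ℝ) * C ≤ (I.card : ℝ) * (ε * l ^ 2) * (m * τ ^ 2) := by
      have h4 : C ≤ ε * m * (l * τ) ^ 2 := hmC.trans (mul_le_mul_of_nonneg_left h1 (by positivity))
      calc (I.card : ℝ) * C ≤ (I.card : ℝ) * (ε * m * (l * τ) ^ 2) := mul_le_mul_of_nonneg_left h4 hk0.le
        _ = _ := by ring
    exact le_of_mul_le_mul_right (h2.trans h3) (by positivity)

theorem ChebStep_asyL (C0 : ℝ) : ∀ᶠ x : ℕ in atTop, C0 ≤ Real.log x :=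
  (Real.tendsto_log_atTop.comp tendsto_natCast_atTop_atTop).eventually_ge_atTop C0

theorem ChebStep_asyLL (C0 : ℝ) : ∀ᶠ x : ℕ in atTop, C0 ≤ Real.log (Real.log x) :=
  (Real.tendsto_log_atTop.comp (Real.tendsto_log_atTop.comp tendsto_natCast_atTop_atTop)).eventually_ge_atTop C0

theorem ChebStep_asyLL2 {C0 : ℝ} (hC : 0 < C0) : ∀ᶠ x : ℕ in atTop,
    C0 * Real.log (Real.log x) ^ 2 ≤ Real.log x := by
  have h1 : ∀ᶠ y : ℝ in atTop, ‖Real.log y ^ 2‖ ≤ C0⁻¹ * ‖id y‖ :=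
    (Real.isLittleO_pow_log_id_atTop (n := 2)).def (inv_pos.2 hC)
  have h2 : ∀ᶠ y : ℝ in atTop, C0 * Real.log y ^ 2 ≤ y := by
    filter_upwards [h1, eventually_ge_atTop (0 : ℝ)] with y hy hy0
    rw [Real.norm_of_nonneg (sq_nonneg _), id, Real.norm_of_nonneg hy0] at hy
    calc C0 * Real.log y ^ 2 ≤ C0 * (C0⁻¹ * y) := mul_le_mul_of_nonneg_left hy hC.le
      _ = y := by field_simp
  exact (Real.tendsto_log_atTop.comp tendsto_natCast_atTop_atTop).eventually h2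

theorem ChebStep_asyP (C0 : ℝ) (hC : 0 < C0) (B : ℕ) : ∀ᶠ x : ℕ in atTop,
    C0 * Real.log x ^ B ≤ (x : ℝ) ^ (1 / 2 : ℝ) := by
  have h1 : ∀ᶠ y : ℝ in atTop, ‖Real.log y ^ (B : ℝ)‖ ≤ C0⁻¹ * ‖y ^ (1 / 2 : ℝ)‖ :=
    (isLittleO_log_rpow_rpow_atTop (B : ℝ) (by norm_num : (0 : ℝ) < 1 / 2)).def (inv_pos.2 hC)
  have h2 : ∀ᶠ y : ℝ in atTop, C0 * Real.log y ^ B ≤ y ^ (1 / 2 : ℝ) := by
    filter_upwards [h1, eventually_ge_atTop (1 : ℝ)] with y hy hy1
    have hl : 0 ≤ Real.log y := Real.log_nonneg hy1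
    rw [Real.rpow_natCast, Real.norm_of_nonneg (by positivity), Real.norm_of_nonneg (by positivity)] at hy
    calc C0 * Real.log y ^ B ≤ C0 * (C0⁻¹ * y ^ (1 / 2 : ℝ)) := mul_le_mul_of_nonneg_left hy hC.le
      _ = y ^ (1 / 2 : ℝ) := by field_simp
  exact tendsto_natCast_atTop_atTop.eventually h2

theorem ChebStep_Yp0 (I : ℕ) {θ : ℝ} (hθ : 0 < θ) : 1 ≤ Yp I θ 0 := by
  unfold Yp
  have h1 : ∀ i ∈ range (I + 1), (if (0 : ℝ) ≤ θ * 2 ^ i / 2 ^ (I + 1) then ((1 : ℝ) / 2) ^ i else 0)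
      = ((1 : ℝ) / 2) ^ i := fun i _ => if_pos (by positivity)
  rw [Finset.sum_congr rfl h1]
  have h2 := Finset.single_le_sum (f := fun i => ((1 : ℝ) / 2) ^ i) (s := range (I + 1))
    (fun i _ => by positivity) (Finset.mem_range.2 (Nat.succ_pos I))
  simpa using h2

theorem ChebStep_Yps (I : ℕ) {θ : ℝ} (hθ : 0 < θ) (u : ℝ) (h : Yp I θ u ≠ 0) : u ≤ θ / 2 := by
  unfold Yp at h
  obtain ⟨i, hi, hne⟩ := Finset.exists_ne_zero_of_sum_ne_zero h
  have h1 : u ≤ θ * 2 ^ i / 2 ^ (I + 1) := by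
    by_contra hcon
    exact hne (if_neg hcon)
  refine h1.trans ?_
  have h2 : (2 : ℝ) ^ i ≤ 2 ^ I := pow_le_pow_right₀ (by norm_num) (by
    have := Finset.mem_range.1 hi
    omega)
  rw [pow_succ, div_le_div_iff₀ (by positivity) (by norm_num)]
  nlinarith only [h2, hθ, mul_le_mul_of_nonneg_left h2 hθ.le]

theorem ChebStep_PZ {x : ℕ} {δ : ℝ} : ∀ p ∈ PZ x δ, 2 ≤ p := by
  intro p hp
  unfold PZ PX at hp
  exact (Finset.mem_filter.1 (Finset.mem_filter.1 hp).1).2.1.two_le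

theorem ChebStep_UU1 {P : Finset ℕ} (hP : ∀ p ∈ P, 2 ≤ p) {Y : ℝ → ℝ} (hY1 : 1 ≤ Y 0) (L : ℝ) :
    1 ≤ UU P Y L := by
  unfold UU
  have h1 := Finset.single_le_sum (f := fun S => Y (lg S / L) ^ 2 * ∏ p ∈ S, fn p) (s := P.powerset)
    (fun S hS => mul_nonneg (sq_nonneg _) (BlkIn_prod_nonneg hP (Finset.mem_powerset.1 hS)))
    (Finset.empty_mem_powerset P)
  refine le_trans ?_ h1
  have h2 : lg (∅ : Finset ℕ) = 0 := by
    unfold lg
    simp
  simp only [h2, zero_div, Finset.prod_empty, mul_one]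
  exact one_le_pow₀ hY1

theorem ChebStep_TT1 {P : Finset ℕ} (hP : ∀ p ∈ P, 2 ≤ p) {Y : ℝ → ℝ} (hY : ∀ u, 0 ≤ Y u) (hY1 : 1 ≤ Y 0)
    (L : ℝ) : 1 ≤ TT P Y L := by
  unfold TT
  have h1 := Finset.single_le_sum (f := fun S => Y (lg S / L) * ∏ p ∈ S, fn p) (s := P.powerset)
    (fun S hS => mul_nonneg (hY _) (BlkIn_prod_nonneg hP (Finset.mem_powerset.1 hS)))
    (Finset.empty_mem_powerset P)
  refine le_trans ?_ h1
  have h2 : lg (∅ : Finset ℕ) = 0 := by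
    unfold lg
    simp
  simp only [h2, zero_div, Finset.prod_empty, mul_one]
  exact hY1

theorem ChebStep_LL0 {P : Finset ℕ} (hP : ∀ p ∈ P, 2 ≤ p) (Y : ℝ → ℝ) (L : ℝ) : 0 ≤ LL P Y L := by
  unfold LL
  refine Finset.sum_nonneg fun S hS => ?_
  exact mul_nonneg (mul_nonneg (sq_nonneg _) (BlkIn_lg_nonneg S))
    (BlkIn_prod_nonneg hP (Finset.mem_powerset.1 hS))

theorem ChebStep_My1 {ι : Type} [Fintype ι] [DecidableEq ι] {r : ℕ} (blk : ι → Fin r) (x : ℕ) (δ : ℝ)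
    (Y : Fin r → ℝ → ℝ) (hY1 : ∀ s, 1 ≤ Y s 0) (t : Fin r → ℝ) (ht : ∀ s, 0 < t s) (L : ℝ) (hL : 0 < L) :
    1 ≤ My ι x δ (yfull blk (PZ x δ) Y t L) := by
  unfold My MM EZ
  have h1 := Finset.single_le_sum (f := fun R => yfull blk (PZ x δ) Y t L R ^ 2 * ∏ e ∈ R, fo gi e)
    (s := ((univ : Finset ι) ×ˢ PZ x δ).powerset)
    (fun R hR => mul_nonneg (sq_nonneg _) (by
      have hR' := Finset.mem_powerset.1 hR
      rw [BlkIn_prod ChebStep_PZ hR']
      exact Finset.prod_nonneg fun i _ => BlkIn_prod_nonneg ChebStep_PZ (BlkIn_sec_sub hR' i)))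
    (Finset.empty_mem_powerset _)
  refine le_trans ?_ h1
  rw [Finset.prod_empty, mul_one]
  refine one_le_pow₀ ?_
  unfold yfull
  rw [if_pos (Finset.empty_subset _)]
  refine BlkMain_one_le_prod _ _ fun s _ => ?_
  unfold yblk
  simp only [BlkMain_ell_empty, Finset.sum_const_zero, zero_div]
  rw [if_pos (mul_pos (ht s) hL).le, one_mul]
  exact BlkMain_one_le_prod _ _ fun i _ => hY1 s

theorem cheb_step (R : ℕ → Prop) (δ θ c c₁ : ℝ) (hδ : 0 < δ) (hδ1 : δ ≤ 1) (hθ : 0 < θ) (hθδ : θ ≤ δ)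
    (hθ1 : θ < 1 / 2) (h : MarkData R δ θ c) (hc : c₁ < c) : ∃ κ : ℕ → ℕ, Sieve R c₁ κ := by
  classical
  obtain ⟨mk, l, q1, q2, c', C, hmk, hc', hC, hev, hmain⟩ := h
  -- the parameters
  obtain ⟨ε, m, hε, hε1, hm, hgood⟩ : ∃ ε m : ℝ, 0 < ε ∧ ε ≤ 1 / 4 ∧ 0 < m ∧
      (0 < c₁ → c₁ * ((1 + ε) * (1 / c + 2 * ε)) ≤ (1 - 3 * ε) ^ 2 ∧ C ≤ ε * m * c' ^ 2) := by
    by_cases hpos : 0 < c₁
    · obtain ⟨ε, h1, h2, h3⟩ := ChebStep_num hpos hc
      refine ⟨ε, C / (ε * c' ^ 2), h1, h2, by positivity, fun _ => ⟨h3, le_of_eq ?_⟩⟩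
      field_simp
    · exact ⟨1 / 4, 1, by norm_num, le_refl _, one_pos, fun h => absurd h hpos⟩
  let t : ℕ → ℝ := fun s => θ / 2 ^ (s + 1)
  have ht : ∀ s, 0 < t s := fun s => by positivity
  choose κ0 hκ0 using fun s : ℕ => WL (t s) ε m (ht s) hε hm
  refine ⟨fun s => max 1 (κ0 s), ?_⟩
  intro ι _ _ h W b hG r blk hκ N
  choose Is hIs using fun s : Fin r => hκ0 s (blkF blk s).card (le_trans (le_max_right _ _) (hκ s))
  have hcard : ∀ s : Fin r, 1 ≤ (blkF blk s).card := fun s => le_trans (le_max_left _ _) (hκ s)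
  have htθ : ∀ s : Fin r, t s ≤ δ := by
    intro s
    refine le_trans ?_ hθδ
    exact div_le_self hθ.le (one_le_pow₀ (by norm_num))
  have hsum : ∑ s : Fin r, t s ≤ θ := by
    have h1 : ∀ r : ℕ, ∑ s ∈ range r, t s = θ * (1 - (1 / 2) ^ r) := by
      intro r
      induction r with
      | zero => simp
      | succ r ih =>
        rw [Finset.sum_range_succ, ih]
        simp only [t]
        rw [one_div, inv_pow, inv_pow, pow_succ]
        field_simp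
        ring
    rw [Fin.sum_univ_eq_sum_range (fun s => t s) r, h1]
    have h2 : (0 : ℝ) ≤ (1 / 2) ^ r := by positivity
    nlinarith only [hθ, h2]
  obtain ⟨B, hB⟩ := Mn_low ι h W b hG
  obtain ⟨cτ, Cτ, hcτ, hCτ, hτ⟩ := tau_bounds
  have hWLs : ∀ᶠ x : ℕ in atTop, ∀ s : Fin r,
      0 < UU (PZ x δ) (Yp (Is s) (t s)) (Real.log x) ∧ 0 < TT (PZ x δ) (Yp (Is s) (t s)) (Real.log x) ∧
      ((blkF blk s).card : ℝ) * LL (PZ x δ) (Yp (Is s) (t s)) (Real.log x) ≤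
        ε * (t s * Real.log x) * UU (PZ x δ) (Yp (Is s) (t s)) (Real.log x) ∧
      m * tau x * UU (PZ x δ) (Yp (Is s) (t s)) (Real.log x) ≤
        ((blkF blk s).card : ℝ) * TT (PZ x δ) (Yp (Is s) (t s)) (Real.log x) ^ 2 :=
    Filter.eventually_all.2 fun s => hIs s δ (htθ s) hδ1
  have hmainx := hmain ι inferInstance inferInstance h W b hG (2 ^ Fintype.card ι) (B + 4)
  obtain ⟨x, hx⟩ := (((hev.and hmainx).and ((sumI ι h W b hG 1 δ θ hδ hδ1 hθ1 (B + 4)).and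
    ((ptw ι h 1 (1 / 2) (by norm_num)).and hB))).and ((hτ.and hWLs).and
    (((ChebStep_asyL (2 ^ Fintype.card ι)).and (ChebStep_asyL 2)).and
    (((ChebStep_asyL (1 / (ε * c'))).and (ChebStep_asyL (1 / ε))).and
    (((ChebStep_asyL ((Fintype.card ι : ℝ) / (m * (ε * c' ^ 2)))).and (ChebStep_asyLL2 hCτ)).and
    (((ChebStep_asyLL (1 / cτ + 1)).and
    (ChebStep_asyP (2 * ((N : ℝ) + 1)) (by positivity) B)).and
      (eventually_ge_atTop (max 3 N)))))))).exists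
  obtain ⟨⟨⟨hx1, hx2⟩, hx3, hx4, hx5⟩, ⟨hx6, hx7⟩, ⟨hx8, hx9⟩, ⟨hx10, hx11⟩, ⟨hx12, hx13⟩, ⟨hx14, hx15⟩, hx16⟩ := hx
  have hx3' : 3 ≤ x := le_trans (le_max_left _ _) hx16
  have hxN : N ≤ x := le_trans (le_max_right _ _) hx16
  have hxR : (3 : ℝ) ≤ x := by exact_mod_cast hx3'
  have hx0 : (0 : ℝ) < x := by linarith only [hε, hε1, hxR]
  set L : ℝ := Real.log x with hLdef
  have hL1 : 2 ≤ L := hx9
  have hL0 : 0 < L := by linarith only [hε, hε1, hx9]
  have hlB : 0 < L ^ B := by positivity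
  set E : ℝ := (x : ℝ) / L ^ (B + 4) with hE
  have hE0 : 0 < E := by positivity
  set M : ℝ := Mn ι W x with hM
  have hM1 : (x : ℝ) / L ^ B ≤ M := hx5
  have hM0 : 0 < M := lt_of_lt_of_le (by positivity) hM1
  set τ : ℝ := tau x with hτdef
  obtain ⟨hl, hq1, hq1C, hq2, hq2l⟩ := hx1
  have hτL : τ ≤ L := hx6.2.trans hx13
  have hτ1 : 1 ≤ τ := by
    refine le_trans ?_ hx6.1
    have h1 : 1 ≤ Real.log L := by
      have : 0 < 1 / cτ := by positivity
      linarith only [hx14, this]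
    have h2 : 1 / cτ ≤ Real.log L := by linarith only [hε, hε1, hx14]
    have h3 : Real.log L ≤ Real.log L ^ 2 := by nlinarith only [h1]
    calc 1 = cτ * (1 / cτ) := by field_simp
      _ ≤ cτ * Real.log L ^ 2 := mul_le_mul_of_nonneg_left (h2.trans h3) hcτ.le
  have hτ0 : 0 < τ := by linarith only [hε, hε1, hτ1]
  have hl0 : 0 < l x := by
    by_contra hcon
    push Not at hcon
    have := mul_nonpos_of_nonpos_of_nonneg hcon hτ0.le
    linarith only [hc', hl, this]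
  have hlL : c' / L ≤ l x := by
    rw [div_le_iff₀ hL0]
    exact hl.trans (mul_le_mul_of_nonneg_left hτL hl0.le)
  -- the weight function
  let Yf : Fin r → ℝ → ℝ := fun s => Yp (Is s) (t s)
  let tt : Fin r → ℝ := fun s => t s
  set y : Finset (ι × ℕ) → ℝ := yfull blk (PZ x δ) Yf tt L with hy
  have hY1 : ∀ s, 1 ≤ Yf s 0 := fun s => ChebStep_Yp0 _ (ht s)
  have hYok : Yok x δ θ (2 ^ Fintype.card ι) y := yfull_ok blk x hx3' δ θ Is tt (fun s => ht s) hsum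
  have hYok1 : Yok x δ θ (L ^ 1) y := hYok.mono (by rw [pow_one]; exact hx8)
  have hMy : 1 ≤ My ι x δ y := ChebStep_My1 blk x δ Yf hY1 tt (fun s => ht s) L hL0
  set S0 : ℝ := ∑ n ∈ AA h W b x, Ly h x δ y n ^ 2 with hS0
  have hsumI := abs_le.1 (hx3 y hYok1)
  have hEB : E ≤ (x : ℝ) / L ^ B / 2 := by
    rw [hE, pow_add, ← div_div]
    refine div_le_div_of_nonneg_left (by positivity) (by norm_num) ?_
    nlinarith only [hε, hε1, hL1, hL0, pow_pos hL0 3, pow_pos hL0 2, mul_le_mul hL1 hL1 (by norm_num) hL0.le,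
      mul_le_mul hL1 hL1 (by norm_num) hL0.le, sq_nonneg (L ^ 2)]
  have hS0low : (x : ℝ) / L ^ B / 2 ≤ S0 := by
    have h1 : M * 1 ≤ M * My ι x δ y := mul_le_mul_of_nonneg_left hMy hM0.le
    have h2 := hsumI.1
    have h3 : (x : ℝ) / L ^ B / 2 + (x : ℝ) / L ^ B / 2 = (x : ℝ) / L ^ B := by ring
    linarith only [hx5, hsumI, hEB, h1]
  have hS0pos : 0 < S0 := lt_of_lt_of_le (by positivity) hS0low
  have hNS0 : (N : ℝ) * (x : ℝ) ^ (1 / 2 : ℝ) ≤ S0 := by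
    refine le_trans ?_ hS0low
    have h1 : (x : ℝ) ^ (1 / 2 : ℝ) * (x : ℝ) ^ (1 / 2 : ℝ) = x := by
      rw [← Real.rpow_add hx0]
      norm_num
    rw [le_div_iff₀ (by norm_num), le_div_iff₀ hlB]
    have h2 : 0 ≤ (x : ℝ) ^ (1 / 2 : ℝ) := by positivity
    have h3 : 2 * ((N : ℝ)) * L ^ B ≤ (x : ℝ) ^ (1 / 2 : ℝ) := by
      refine le_trans ?_ hx15
      have : (0 : ℝ) ≤ L ^ B := hlB.le
      nlinarith only [hlB]
    calc (N : ℝ) * (x : ℝ) ^ (1 / 2 : ℝ) * 2 * L ^ B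
        = (x : ℝ) ^ (1 / 2 : ℝ) * (2 * (N : ℝ) * L ^ B) := by ring
      _ ≤ (x : ℝ) ^ (1 / 2 : ℝ) * (x : ℝ) ^ (1 / 2 : ℝ) := mul_le_mul_of_nonneg_left h3 h2
      _ = x := h1
  refine ⟨AA h W b x, fun n => Ly h x δ y n ^ 2 / S0, ?_, ?_, ?_⟩
  · intro n hn
    have hn' := Finset.mem_filter.1 hn
    have hn1 := Finset.mem_Ioc.1 hn'.1
    refine ⟨by omega, hn'.2.1, by positivity, ?_⟩
    rw [mul_div_assoc', div_le_one hS0pos]
    exact (mul_le_mul_of_nonneg_left (hx4 δ θ y hYok1 n hn'.1) (Nat.cast_nonneg N)).trans hNS0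
  · rw [← Finset.sum_div]
    exact div_self hS0pos.ne'
  · intro s
    by_cases hpos : 0 < c₁
    swap
    · push Not at hpos
      refine hpos.trans (Finset.sum_nonneg fun n _ => ?_)
      positivity
    obtain ⟨hnum, hmC⟩ := hgood hpos
    have hc0 : 0 < c := hpos.trans hc
    obtain ⟨hUp, hTp, hLam, hWL⟩ := hx7 s
    obtain ⟨Q, hQ1, hQ2, hQ3, hQ4⟩ := blk_main blk (PZ x δ) ChebStep_PZ Yf
      (fun s u => BlkMain_Yp_nonneg _ _ _) hY1 tt (fun s => ht s) L hL0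
      (fun s u hu => ChebStep_Yps _ (ht s) u hu) s
    have hU1 : 1 ≤ UU (PZ x δ) (Yf s) L := ChebStep_UU1 ChebStep_PZ (hY1 s) L
    have hT1 : 1 ≤ TT (PZ x δ) (Yf s) L :=
      ChebStep_TT1 ChebStep_PZ (Y := Yf s) (fun u => BlkMain_Yp_nonneg _ _ _) (hY1 s) L
    let χ : ι → ℕ → ℝ := fun i n => if mk x (n + h i) then 1 else 0
    have hχ : ∀ i n, χ i n = 0 ∨ χ i n = 1 := by
      intro i n
      simp only [χ]
      split_ifs
      · exact Or.inr rfl
      · exact Or.inl rfl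
    obtain ⟨hx2a, hx2b⟩ := hx2 y hYok
    have hχ1 : ∀ i, ∑ n ∈ AA h W b x, χ i n * Ly h x δ y n ^ 2 =
        ∑ n ∈ (AA h W b x).filter (fun n => mk x (n + h i)), Ly h x δ y n ^ 2 := by
      intro i
      rw [Finset.sum_filter]
      refine Finset.sum_congr rfl fun n _ => ?_
      simp only [χ]
      split_ifs <;> ring
    have hχ2 : ∀ i j, ∑ n ∈ AA h W b x, χ i n * χ j n * Ly h x δ y n ^ 2 =
        ∑ n ∈ (AA h W b x).filter (fun n => mk x (n + h i) ∧ mk x (n + h j)), Ly h x δ y n ^ 2 := by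
      intro i j
      rw [Finset.sum_filter]
      refine Finset.sum_congr rfl fun n _ => ?_
      simp only [χ]
      by_cases h1 : mk x (n + h i) <;> by_cases h2 : mk x (n + h j) <;> simp [h1, h2]
    set U : ℝ := UU (PZ x δ) (Yf s) L with hUdef
    set T : ℝ := TT (PZ x δ) (Yf s) L with hTdef
    have hQ0 : 0 < Q := by linarith only [hε, hε1, hQ1]
    have hbig1 : (x : ℝ) / L ^ B ≤ M * (T ^ 2 * U ^ ((blkF blk s).card - 1) * Q) := by
      have h1 : 1 ≤ T ^ 2 * U ^ ((blkF blk s).card - 1) * Q :=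
        one_le_mul_of_one_le_of_one_le (one_le_mul_of_one_le_of_one_le (one_le_pow₀ hT1) (one_le_pow₀ hU1)) hQ1
      calc (x : ℝ) / L ^ B ≤ M * 1 := by rw [mul_one]; exact hM1
        _ ≤ _ := mul_le_mul_of_nonneg_left h1 hM0.le
    have hbig2 : (x : ℝ) / L ^ B ≤ M * (U ^ (blkF blk s).card * Q) := by
      have h1 : 1 ≤ U ^ (blkF blk s).card * Q := one_le_mul_of_one_le_of_one_le (one_le_pow₀ hU1) hQ1
      calc (x : ℝ) / L ^ B ≤ M * 1 := by rw [mul_one]; exact hM1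
        _ ≤ _ := mul_le_mul_of_nonneg_left h1 hM0.le
    have hE4 : E = (x : ℝ) / L ^ B * (1 / L ^ 4) := by
      rw [hE, pow_add]
      field_simp
    have hxB : 0 < (x : ℝ) / L ^ B := by positivity
    have hkL : ((blkF blk s).card : ℝ) ≤ (Fintype.card ι : ℝ) := by
      exact_mod_cast Finset.card_le_univ _
    have hk0 : (0 : ℝ) ≤ ((blkF blk s).card : ℝ) := Nat.cast_nonneg _
    have hkey : c₁ * S0 ≤ ∑ n ∈ AA h W b x, if ∑ i ∈ blkF blk s, χ i n = 0 then 0 else Ly h x δ y n ^ 2 := by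
      refine ChebStep_block (AA h W b x) (Ly h x δ y) (blkF blk s) χ hχ (hcard s)
        (Mn := M) (l := l x) (q1 := q1 x) (q2 := q2 x) (E := E) (τ := τ)
        (T := T) (U := U) (Lam := LL (PZ x δ) (Yf s) L)
        (D := t s * L) (Q := Q) (m := m) (ε := ε) (c := c) (c₁ := c₁) (c' := c') (C := C) (S0 := S0)
        hM0 hTp hUp (mul_pos (ht s) hL0) hQ1 hm hτ0 hc' hC hε hε1 hc0 hpos hE0.le hS0pos hq1 hq2 hnum hmC
        hl hq1C hq2l ?_ ?_ ?_ ?_ hLam (ChebStep_LL0 ChebStep_PZ _ _) hWL ?_ ?_ ?_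
      · have h1 : M * My ι x δ y ≤ M * (U ^ (blkF blk s).card * Q) := mul_le_mul_of_nonneg_left hQ2 hM0.le
        have h2 := hsumI.2
        linarith only [hsumI, h1]
      · intro i hi
        rw [hχ1]
        have h1 := (hx2a i).1
        have h2 := mul_le_mul_of_nonneg_left (hQ3 i hi).1 (mul_pos hM0 hl0).le
        have h3 : M * l x * MM (univ ×ˢ PZ x δ) (fo gi) (pr ({i} ×ˢ PZ x δ) (fo gi) (yfull blk (PZ x δ) Yf tt L)) - E
            ≤ ∑ n ∈ (AA h W b x).filter (fun n => mk x (n + h i)), Ly h x δ y n ^ 2 := h1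
        linarith only [h2, h3]
      · intro i hi
        rw [hχ1]
        have h1 := (hx2a i).2
        have h2 := mul_le_mul_of_nonneg_left (hQ3 i hi).2 (mul_nonneg hM0.le hq1)
        have h3 : ∑ n ∈ (AA h W b x).filter (fun n => mk x (n + h i)), Ly h x δ y n ^ 2 ≤
            M * q1 x * MM (univ ×ˢ PZ x δ) (fo gi) (pr ({i} ×ˢ PZ x δ) (fo gi) (yfull blk (PZ x δ) Yf tt L)) + E := h1
        linarith only [h2, h3]
      · intro i hi j hj hij
        rw [hχ2]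
        have h1 := hx2b i j hij
        have h2 := mul_le_mul_of_nonneg_left (hQ4 i hi j hj hij) (mul_nonneg hM0.le hq2)
        have h3 : ∑ n ∈ (AA h W b x).filter (fun n => mk x (n + h i) ∧ mk x (n + h j)), Ly h x δ y n ^ 2 ≤
            M * q2 x * MM (univ ×ˢ PZ x δ) (fo gi)
              (pr ({i} ×ˢ PZ x δ ∪ {j} ×ˢ PZ x δ) (fo gi) (yfull blk (PZ x δ) Yf tt L)) + E := h1
        linarith only [h2, h3]
      · -- E1
        have h1 : 1 / L ^ 4 ≤ ε * (c' / L) := by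
          rw [div_le_iff₀ (by positivity)] at hx10
          rw [div_le_iff₀ (by positivity)]
          have h2 : ε * (c' / L) * L ^ 4 = (L * (ε * c')) * L ^ 2 := by
            field_simp
          rw [h2]
          have h3 : 1 ≤ L ^ 2 := by nlinarith only [hx9]
          nlinarith only [h3, hx10]
        calc E = (x : ℝ) / L ^ B * (1 / L ^ 4) := hE4
          _ ≤ (x : ℝ) / L ^ B * (ε * (c' / L)) := mul_le_mul_of_nonneg_left h1 hxB.le
          _ = ε * ((x : ℝ) / L ^ B) * (c' / L) := by ring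
          _ ≤ ε * (M * (T ^ 2 * U ^ ((blkF blk s).card - 1) * Q)) * l x :=
              mul_le_mul (mul_le_mul_of_nonneg_left hbig1 hε.le) hlL (by positivity) (by positivity)
      · -- E2
        have h1 : 1 / L ^ 4 ≤ ε := by
          rw [div_le_iff₀ hε] at hx11
          rw [div_le_iff₀ (by positivity)]
          have h3 : 1 ≤ L ^ 3 := one_le_pow₀ (by linarith only [hε, hε1, hx9])
          have h4 : ε * L ^ 4 = (L * ε) * L ^ 3 := by ring
          rw [h4]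
          nlinarith only [hx11, h3, hε, hε1]
        calc E = (x : ℝ) / L ^ B * (1 / L ^ 4) := hE4
          _ ≤ (x : ℝ) / L ^ B * ε := mul_le_mul_of_nonneg_left h1 hxB.le
          _ = ε * ((x : ℝ) / L ^ B) := by ring
          _ ≤ ε * (M * (U ^ (blkF blk s).card * Q)) := mul_le_mul_of_nonneg_left hbig2 hε.le
      · -- E3
        have hV : U / T ^ 2 ≤ ((blkF blk s).card : ℝ) / m := by
          rw [div_le_div_iff₀ (by positivity) hm]
          have h1 : m * U ≤ m * τ * U := by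
            have : m * U * 1 ≤ m * U * τ := mul_le_mul_of_nonneg_left hτ1 (by positivity)
            linarith only [this]
          linarith only [hWL, h1]
        have h1 : ((blkF blk s).card : ℝ) / m * (1 / L ^ 4) ≤ ε * (c' / L) ^ 2 := by
          rw [div_le_iff₀ (by positivity)] at hx12
          rw [div_mul_div_comm, mul_one, div_le_iff₀ (by positivity)]
          have h2 : ε * (c' / L) ^ 2 * (m * L ^ 4) = (L * (m * (ε * c' ^ 2))) * L := by
            field_simp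
          rw [h2]
          have h3 : ((blkF blk s).card : ℝ) ≤ L * (m * (ε * c' ^ 2)) := hkL.trans hx12
          nlinarith only [hx12, hkL, hx9, hε, hε1]
        calc U / T ^ 2 * E ≤ ((blkF blk s).card : ℝ) / m * E := mul_le_mul_of_nonneg_right hV hE0.le
          _ = (x : ℝ) / L ^ B * (((blkF blk s).card : ℝ) / m * (1 / L ^ 4)) := by
              rw [hE4]
              ring
          _ ≤ (x : ℝ) / L ^ B * (ε * (c' / L) ^ 2) := mul_le_mul_of_nonneg_left h1 hxB.le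
          _ = ε * ((x : ℝ) / L ^ B * (c' / L) ^ 2) := by ring
          _ ≤ ε * (M * (T ^ 2 * U ^ ((blkF blk s).card - 1) * Q) * l x ^ 2) := by
              refine mul_le_mul_of_nonneg_left ?_ hε.le
              exact mul_le_mul hbig1 (pow_le_pow_left₀ (by positivity) hlL 2) (by positivity) (by positivity)
    -- conclusion
    rw [← Finset.sum_div, le_div_iff₀ hS0pos]
    refine hkey.trans ?_
    rw [Finset.sum_filter]
    refine Finset.sum_le_sum fun n _ => ?_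
    by_cases hz : ∑ i ∈ blkF blk s, χ i n = 0
    · rw [if_pos hz]
      split_ifs
      · positivity
      · exact le_refl _
    · rw [if_neg hz]
      obtain ⟨i, hi, hne⟩ := Finset.exists_ne_zero_of_sum_ne_zero hz
      have h1 : mk x (n + h i) := by
        by_contra hcon
        exact hne (if_neg hcon)
      have h2 : blk i = s := (Finset.mem_filter.1 hi).2
      rw [if_pos ⟨i, h2, hmk x _ h1⟩]

end Pool.Agent.H36.IS

end
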