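import Pool.Agent.H15.TB1.M40
import Pool.Agent.H15.TB1.M68

/-! The parts of this file: H36.IS2.ChebV. -/

section

/-!
# ISP ChebV: from a signed sieve function to the sieve step (variance argument)

Same setting and estimates as `cheb_step` (Pool/Agent/H36/IS/ChebStep.lean; reuse its lemmas): weights w_n = Ly(y)² (n ∈ AA), S0 = ∑ w_n.  For a block s
put Z_n = ∑_{i ∈ block} Φ x (n + h i), Ψ_n = ∑_{i ∈ block} Ψ x (n + h i) ≥ 0, S1 = ∑ w Z, S2 = ∑ w Z².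
 S0 ≤ (1+ε) Mn U^k Q,  S1 ≥ (1-3ε) k Mn l T² U^(k-1) Q =: S1' > 0,  S2 ≤ (1+ε) Mn (k² q2 T⁴ U^(k-2) Q + k q1 T² U^(k-1) Q) (exactly the estimates of
 `cheb_step` with l, q1, q2; the terms i = j are ∑ w Φ²), and ∑ w Ψ ≤ t · (1+ε) k Mn l T² U^(k-1) Q.
 So S2 S0 ≤ (1 + e)(1 + ε') S1'² and ∑ w Ψ ≤ t (1 + ε') S1'.
On N = {n ∈ AA : ∀ i ∈ block, ¬ R (n + h i)} we have Z ≤ Ψ (pointwise clause of PhiData; x < n + h i ≤ 2x + max h).  With m = S1/S0 > 0: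
 m w(N) = ∑_N w (m - Z) + ∑_N w Z ≤ (∑ w (Z - m)²)^(1/2) w(N)^(1/2) + ∑ w Ψ, ∑ w (Z - m)² = S2 - S1²/S0, w(N) ≤ S0, so
 w(N)/S0 ≤ (S2 S0/S1² - 1)^(1/2) + ∑ w Ψ/S1 ≤ ((1+e)(1+ε') - 1)^(1/2) + t (1+ε')   [S1 ≥ S1'; if S2 S0/S1² < 1 impossible by Cauchy-Schwarz].
 The weight of {∃ i, R} is ≥ 1 - that ≥ c₁ if c₁ < 1 - t - √e and ε' is small.
-/

set_option autoImplicit false

namespace Pool.Agent.H36.IS2

open Finset Filter Pool.Agent.H36.IS

private theorem ChebV_num {t e c₁ : ℝ} (h : c₁ < 1 - t - Real.sqrt e) :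
    ∃ ε : ℝ, 0 < ε ∧ ε ≤ 1 / 4 ∧
      (t + ε) / (1 - 3 * ε) + Real.sqrt ((1 + ε) * (1 + e + 2 * ε) / (1 - 3 * ε) ^ 2 - 1) ≤ 1 - c₁ := by
  have hcont : ContinuousAt (fun ε : ℝ => (t + ε) / (1 - 3 * ε) +
      Real.sqrt ((1 + ε) * (1 + e + 2 * ε) / (1 - 3 * ε) ^ 2 - 1)) 0 := by
    have h1 : ContinuousAt (fun ε : ℝ => t + ε) 0 := by fun_prop
    have h2 : ContinuousAt (fun ε : ℝ => 1 - 3 * ε) 0 := by fun_prop
    have h3 : ContinuousAt (fun ε : ℝ => (1 + ε) * (1 + e + 2 * ε)) 0 := by fun_prop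
    have h4 : ContinuousAt (fun ε : ℝ => (1 - 3 * ε) ^ 2) 0 := by fun_prop
    exact (h1.div h2 (by norm_num)).add ((h3.div h4 (by norm_num)).sub continuousAt_const).sqrt
  have hval : (fun ε : ℝ => (t + ε) / (1 - 3 * ε) +
      Real.sqrt ((1 + ε) * (1 + e + 2 * ε) / (1 - 3 * ε) ^ 2 - 1)) 0 < 1 - c₁ := by
    simp only [add_zero, mul_zero, sub_zero, div_one, one_pow, one_mul, add_sub_cancel_left]
    linarith only [h]
  have hev := (hcont.tendsto.eventually (gt_mem_nhds hval)).filter_mono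
    (nhdsWithin_le_nhds (s := Set.Ioi (0 : ℝ)))
  have hev2 : ∀ᶠ ε : ℝ in nhdsWithin 0 (Set.Ioi 0), ε ≤ 1 / 4 :=
    (ge_mem_nhds (by norm_num : (0 : ℝ) < 1 / 4)).filter_mono nhdsWithin_le_nhds
  obtain ⟨ε, ⟨h1, h2⟩, h3⟩ := ((hev.and hev2).and (self_mem_nhdsWithin)).exists
  exact ⟨ε, h3, h2, h1.le⟩

private theorem ChebV_abs {ι : Type} (X : Finset ℕ) (I : Finset ι) (w : ℕ → ℝ) (hw : ∀ n ∈ X, 0 ≤ w n)
    (Φ Ψ : ι → ℕ → ℝ) (hΨ : ∀ i n, 0 ≤ Ψ i n) (P : ℕ → Prop) [DecidablePred P]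
    (hP : ∀ n ∈ X, ¬ P n → ∀ i ∈ I, Φ i n ≤ Ψ i n) {S0 S1 S2 SP t' e' S1' : ℝ}
    (h0 : S0 = ∑ n ∈ X, w n) (h1 : S1 = ∑ i ∈ I, ∑ n ∈ X, w n * Φ i n)
    (h2 : S2 = ∑ i ∈ I, ∑ j ∈ I, ∑ n ∈ X, w n * (Φ i n * Φ j n))
    (h3 : SP = ∑ i ∈ I, ∑ n ∈ X, w n * Ψ i n)
    (hS1' : 0 < S1') (hS1 : S1' ≤ S1) (ht' : 0 ≤ t') (hSP : SP ≤ t' * S1')
    (he' : 0 ≤ e') (hS2 : S0 * S2 ≤ (1 + e') * S1' ^ 2) (hS0 : 0 < S0) :
    (1 - t' - Real.sqrt e') * S0 ≤ ∑ n ∈ X.filter P, w n := by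
  classical
  set Z : ℕ → ℝ := fun n => ∑ i ∈ I, Φ i n with hZ
  have e1 : S1 = ∑ n ∈ X, w n * Z n := by
    rw [h1, Finset.sum_comm]
    refine Finset.sum_congr rfl fun n _ => ?_
    rw [hZ, Finset.mul_sum]
  have e2 : S2 = ∑ n ∈ X, w n * Z n ^ 2 := by
    have h4 : ∀ i ∈ I, ∑ j ∈ I, ∑ n ∈ X, w n * (Φ i n * Φ j n) = ∑ n ∈ X, w n * (Φ i n * Z n) := by
      intro i _
      rw [Finset.sum_comm]
      refine Finset.sum_congr rfl fun n _ => ?_
      rw [← Finset.mul_sum, ← Finset.mul_sum]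
    rw [h2, Finset.sum_congr rfl h4, Finset.sum_comm]
    refine Finset.sum_congr rfl fun n _ => ?_
    rw [← Finset.mul_sum, ← Finset.sum_mul, sq]
  set N : Finset ℕ := X.filter (fun n => ¬ P n) with hN
  have hNX : N ⊆ X := Finset.filter_subset _ _
  have hsplit : ∑ n ∈ X.filter P, w n + ∑ n ∈ N, w n = S0 := by
    rw [h0, hN, Finset.sum_filter_add_sum_filter_not]
  have hwN0 : 0 ≤ ∑ n ∈ N, w n := Finset.sum_nonneg fun n hn => hw n (hNX hn)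
  have hwP0 : 0 ≤ ∑ n ∈ X.filter P, w n :=
    Finset.sum_nonneg fun n hn => hw n (Finset.filter_subset _ _ hn)
  have hwN : ∑ n ∈ N, w n ≤ S0 := by linarith only [hsplit, hwP0]
  have ha : ∑ n ∈ N, w n * Z n ≤ SP := by
    have h4 : ∑ n ∈ N, w n * Z n ≤ ∑ n ∈ N, w n * ∑ i ∈ I, Ψ i n := by
      refine Finset.sum_le_sum fun n hn => mul_le_mul_of_nonneg_left ?_ (hw n (hNX hn))
      exact Finset.sum_le_sum fun i hi => hP n (hNX hn) (Finset.mem_filter.1 hn).2 i hi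
    have h5 : ∑ n ∈ N, w n * ∑ i ∈ I, Ψ i n ≤ ∑ n ∈ X, w n * ∑ i ∈ I, Ψ i n :=
      Finset.sum_le_sum_of_subset_of_nonneg hNX fun n hn _ =>
        mul_nonneg (hw n hn) (Finset.sum_nonneg fun i _ => hΨ i n)
    have h6 : ∑ n ∈ X, w n * ∑ i ∈ I, Ψ i n = SP := by
      rw [h3, Finset.sum_comm]
      exact Finset.sum_congr rfl fun n _ => by rw [Finset.mul_sum]
    linarith only [h4, h5, h6]
  have hq : ∑ n ∈ X, w n * (S1 - S0 * Z n) ^ 2 = S0 * (S0 * S2 - S1 ^ 2) := by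
    have h4 : ∀ n ∈ X, w n * (S1 - S0 * Z n) ^ 2 =
        S1 ^ 2 * w n - 2 * S0 * S1 * (w n * Z n) + S0 ^ 2 * (w n * Z n ^ 2) := fun n _ => by ring
    rw [Finset.sum_congr rfl h4, Finset.sum_add_distrib, Finset.sum_sub_distrib, ← Finset.mul_sum,
      ← Finset.mul_sum, ← Finset.mul_sum, ← h0, ← e1, ← e2]
    ring
  have hb : (∑ n ∈ N, w n * (S1 - S0 * Z n)) ^ 2 ≤ S0 * (S0 * (S0 * S2 - S1 ^ 2)) := by
    have h4 : (∑ n ∈ N, w n * (S1 - S0 * Z n)) ^ 2 ≤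
        (∑ n ∈ N, w n) * ∑ n ∈ N, w n * (S1 - S0 * Z n) ^ 2 := by
      have h5 := Finset.sum_mul_sq_le_sq_mul_sq N (fun n => Real.sqrt (w n))
        (fun n => Real.sqrt (w n) * (S1 - S0 * Z n))
      have h6 : ∀ n ∈ N, Real.sqrt (w n) * (Real.sqrt (w n) * (S1 - S0 * Z n)) = w n * (S1 - S0 * Z n) := by
        intro n hn
        rw [← mul_assoc, Real.mul_self_sqrt (hw n (hNX hn))]
      have h7 : ∀ n ∈ N, Real.sqrt (w n) ^ 2 = w n := fun n hn => Real.sq_sqrt (hw n (hNX hn))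
      have h8 : ∀ n ∈ N, (Real.sqrt (w n) * (S1 - S0 * Z n)) ^ 2 = w n * (S1 - S0 * Z n) ^ 2 := by
        intro n hn
        rw [mul_pow, Real.sq_sqrt (hw n (hNX hn))]
      rw [Finset.sum_congr rfl h6, Finset.sum_congr rfl h7, Finset.sum_congr rfl h8] at h5
      exact h5
    refine h4.trans (mul_le_mul hwN ?_ ?_ hS0.le)
    · rw [← hq]
      exact Finset.sum_le_sum_of_subset_of_nonneg hNX fun n hn _ => mul_nonneg (hw n hn) (sq_nonneg _)
    · exact Finset.sum_nonneg fun n hn => mul_nonneg (hw n (hNX hn)) (sq_nonneg _)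
  have hS1p : 0 < S1 := hS1'.trans_le hS1
  have hvar : S0 * S2 - S1 ^ 2 ≤ e' * S1 ^ 2 := by
    have h4 : S1' ^ 2 ≤ S1 ^ 2 := pow_le_pow_left₀ hS1'.le hS1 2
    have h5 : (1 + e') * S1' ^ 2 ≤ (1 + e') * S1 ^ 2 := mul_le_mul_of_nonneg_left h4 (by linarith only [he'])
    linarith only [hS2, h5]
  have hc : ∑ n ∈ N, w n * (S1 - S0 * Z n) ≤ S0 * (Real.sqrt e' * S1) := by
    refine le_of_abs_le (abs_le_of_sq_le_sq ?_ (by positivity))
    refine hb.trans ?_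
    have h4 : (S0 * (Real.sqrt e' * S1)) ^ 2 = S0 * (S0 * (e' * S1 ^ 2)) := by
      rw [mul_pow, mul_pow, Real.sq_sqrt he']
      ring
    rw [h4]
    exact mul_le_mul_of_nonneg_left (mul_le_mul_of_nonneg_left hvar hS0.le) hS0.le
  have hd : S1 * ∑ n ∈ N, w n = ∑ n ∈ N, w n * (S1 - S0 * Z n) + S0 * ∑ n ∈ N, w n * Z n := by
    rw [Finset.mul_sum, Finset.mul_sum, ← Finset.sum_add_distrib]
    exact Finset.sum_congr rfl fun n _ => by ring
  have he : S1 * ∑ n ∈ N, w n ≤ S1 * (S0 * (Real.sqrt e' + t')) := by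
    have h4 : S0 * ∑ n ∈ N, w n * Z n ≤ S0 * (t' * S1) := by
      refine mul_le_mul_of_nonneg_left (ha.trans (hSP.trans ?_)) hS0.le
      exact mul_le_mul_of_nonneg_left hS1 ht'
    rw [hd]
    calc _ ≤ S0 * (Real.sqrt e' * S1) + S0 * (t' * S1) := add_le_add hc h4
      _ = _ := by ring
  have hf : ∑ n ∈ N, w n ≤ S0 * (Real.sqrt e' + t') := le_of_mul_le_mul_left he hS1p
  linarith only [hsplit, hf]

/-- the final inequality -/
private theorem ChebV_alg {k a V l q1 q2 E e t c₁ ε S0 S2 SP : ℝ} (hk : 1 ≤ k) (ha : 0 < a) (hl : 0 < l)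
    (hV : 0 < V) (he : 0 ≤ e) (ht : 0 ≤ t) (hε : 0 < ε) (hε1 : ε ≤ 1 / 4)
    (hnum : (t + ε) / (1 - 3 * ε) + Real.sqrt ((1 + ε) * (1 + e + 2 * ε) / (1 - 3 * ε) ^ 2 - 1) ≤ 1 - c₁)
    (hS0 : 0 < S0) (H0 : S0 ≤ (1 + ε) * (a * V))
    (H2 : S2 ≤ k * (a * q1) + k ^ 2 * (a * (q2 / V)) + k ^ 2 * E)
    (H3 : SP ≤ k * (a * (t * l) + E))
    (X1 : V * q1 ≤ k * (ε * l ^ 2)) (X2 : q2 ≤ (1 + e) * l ^ 2) (X3 : V * E ≤ ε * (a * l ^ 2))
    (X4 : E ≤ ε * a * l) :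
    0 < k * (a * l * (1 - 3 * ε)) ∧ 0 ≤ (t + ε) / (1 - 3 * ε) ∧
      0 ≤ (1 + ε) * (1 + e + 2 * ε) / (1 - 3 * ε) ^ 2 - 1 ∧
      SP ≤ (t + ε) / (1 - 3 * ε) * (k * (a * l * (1 - 3 * ε))) ∧
      S0 * S2 ≤ (1 + ((1 + ε) * (1 + e + 2 * ε) / (1 - 3 * ε) ^ 2 - 1)) * (k * (a * l * (1 - 3 * ε))) ^ 2 ∧
      c₁ * S0 ≤ (1 - (t + ε) / (1 - 3 * ε) -
        Real.sqrt ((1 + ε) * (1 + e + 2 * ε) / (1 - 3 * ε) ^ 2 - 1)) * S0 := by
  have hk0 : 0 < k := by linarith only [hk, hε, hε1]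
  have h3 : 0 < 1 - 3 * ε := by linarith only [hε, hε1]
  have hd : 0 < (1 - 3 * ε) ^ 2 := by positivity
  refine ⟨by positivity, by positivity, ?_, ?_, ?_, ?_⟩
  · rw [sub_nonneg, le_div_iff₀ hd]
    nlinarith only [he, hε, hε1, mul_nonneg hε.le he]
  · have h4 : (t + ε) / (1 - 3 * ε) * (k * (a * l * (1 - 3 * ε))) = k * (a * (t * l) + ε * a * l) := by
      generalize 1 - 3 * ε = q at h3
      field_simp
    rw [h4]
    exact H3.trans (mul_le_mul_of_nonneg_left (by linarith only [X4]) hk0.le)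
  · have h4 : (1 + ((1 + ε) * (1 + e + 2 * ε) / (1 - 3 * ε) ^ 2 - 1)) * (k * (a * l * (1 - 3 * ε))) ^ 2 =
        (1 + ε) * a * (k ^ 2 * a * l ^ 2 * (1 + e + 2 * ε)) := by
      generalize 1 - 3 * ε = q at h3
      rw [add_sub_cancel]
      field_simp
    rw [h4]
    have hV2 : V * S2 ≤ k ^ 2 * a * l ^ 2 * (1 + e + 2 * ε) := by
      have e1 : V * S2 ≤ V * (k * (a * q1) + k ^ 2 * (a * (q2 / V)) + k ^ 2 * E) :=
        mul_le_mul_of_nonneg_left H2 hV.le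
      have e2 : V * (k * (a * q1) + k ^ 2 * (a * (q2 / V)) + k ^ 2 * E)
          = k * a * (V * q1) + k ^ 2 * a * q2 + k ^ 2 * (V * E) := by
        field_simp
      have e3 : k * a * (V * q1) ≤ k * a * (k * (ε * l ^ 2)) := mul_le_mul_of_nonneg_left X1 (by positivity)
      have e5 : k ^ 2 * a * q2 ≤ k ^ 2 * a * ((1 + e) * l ^ 2) := mul_le_mul_of_nonneg_left X2 (by positivity)
      have e6 : k ^ 2 * (V * E) ≤ k ^ 2 * (ε * (a * l ^ 2)) := mul_le_mul_of_nonneg_left X3 (by positivity)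
      have e7 : k ^ 2 * a * l ^ 2 * (1 + e + 2 * ε) =
          k * a * (k * (ε * l ^ 2)) + k ^ 2 * a * ((1 + e) * l ^ 2) + k ^ 2 * (ε * (a * l ^ 2)) := by ring
      rw [e7]
      linarith only [e1, e2, e3, e5, e6]
    by_cases hS2 : 0 ≤ S2
    · calc S0 * S2 ≤ ((1 + ε) * (a * V)) * S2 := mul_le_mul_of_nonneg_right H0 hS2
        _ = (1 + ε) * a * (V * S2) := by ring
        _ ≤ _ := mul_le_mul_of_nonneg_left hV2 (by positivity)
    · push Not at hS2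
      have h5 : S0 * S2 ≤ 0 := mul_nonpos_of_nonneg_of_nonpos hS0.le hS2.le
      refine h5.trans ?_
      have : 0 ≤ 1 + e + 2 * ε := by linarith only [he, hε, hε1]
      positivity
  · refine mul_le_mul_of_nonneg_right ?_ hS0.le
    linarith only [hnum]

private theorem ChebV_block {ι : Type} [DecidableEq ι] (X : Finset ℕ) (w : ℕ → ℝ) (hw : ∀ n ∈ X, 0 ≤ w n)
    (I : Finset ι) (Φ Ψ : ι → ℕ → ℝ) (hΨ : ∀ i n, 0 ≤ Ψ i n) (P : ℕ → Prop) [DecidablePred P]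
    (hP : ∀ n ∈ X, ¬ P n → ∀ i ∈ I, Φ i n ≤ Ψ i n) (hI : 1 ≤ I.card)
    {Mn l q1 q2 E τ T U Lam D Q m ε e t c₁ c' C S0 : ℝ} (hMn : 0 < Mn) (hT : 0 < T) (hU : 0 < U) (hD : 0 < D)
    (hQ : 1 ≤ Q) (hm : 0 < m) (hτ : 0 < τ) (hc' : 0 < c') (hε : 0 < ε) (hε1 : ε ≤ 1 / 4)
    (he : 0 ≤ e) (ht : 0 ≤ t) (hS0s : S0 = ∑ n ∈ X, w n) (hS0p : 0 < S0) (hq1 : 0 ≤ q1) (hq2 : 0 ≤ q2)
    (hnum : (t + ε) / (1 - 3 * ε) + Real.sqrt ((1 + ε) * (1 + e + 2 * ε) / (1 - 3 * ε) ^ 2 - 1) ≤ 1 - c₁)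
    (hmC : C ≤ ε * m * c' ^ 2)
    (hl : c' ≤ l * τ) (hq1C : q1 * τ ≤ C) (hq2l : q2 ≤ (1 + e) * l ^ 2)
    (hS0 : S0 ≤ Mn * (U ^ I.card * Q) + E)
    (hlow : ∀ i ∈ I, Mn * l * (T ^ 2 * (U ^ (I.card - 1) - ((I.card : ℝ) - 1) * U ^ (I.card - 2) * (2 * Lam / D)) * Q)
      - E ≤ ∑ n ∈ X, w n * Φ i n)
    (hup : ∀ i ∈ I, ∑ n ∈ X, w n * Φ i n ^ 2 ≤ Mn * q1 * (T ^ 2 * U ^ (I.card - 1) * Q) + E)
    (hpsi : ∀ i ∈ I, ∑ n ∈ X, w n * Ψ i n ≤ Mn * (t * l) * (T ^ 2 * U ^ (I.card - 1) * Q) + E)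
    (hpair : ∀ i ∈ I, ∀ j ∈ I, i ≠ j → ∑ n ∈ X, w n * (Φ i n * Φ j n) ≤
      Mn * q2 * (T ^ 4 * U ^ (I.card - 2) * Q) + E)
    (hLam : (I.card : ℝ) * Lam ≤ ε * D * U) (hLam0 : 0 ≤ Lam) (hWL : m * τ * U ≤ (I.card : ℝ) * T ^ 2)
    (E1 : E ≤ ε * (Mn * (T ^ 2 * U ^ (I.card - 1) * Q)) * l) (E2 : E ≤ ε * (Mn * (U ^ I.card * Q)))
    (E3 : U / T ^ 2 * E ≤ ε * (Mn * (T ^ 2 * U ^ (I.card - 1) * Q) * l ^ 2)) :
    c₁ * S0 ≤ ∑ n ∈ X.filter P, w n := by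
  have hk1 : (1 : ℝ) ≤ (I.card : ℝ) := by exact_mod_cast hI
  have hk0 : (0 : ℝ) < (I.card : ℝ) := by linarith only [hε, hε1, hk1]
  have hQ0 : 0 < Q := by linarith only [hQ, hε, hε1]
  have hl0 : 0 < l := by
    by_contra h
    push Not at h
    have := mul_nonpos_of_nonpos_of_nonneg h hτ.le
    linarith only [hc', hl, this]
  have hUk : U ^ I.card = U ^ (I.card - 1) * U := by
    rw [← pow_succ]
    congr 1
    omega
  set a : ℝ := Mn * (T ^ 2 * U ^ (I.card - 1) * Q) with ha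
  have ha0 : 0 < a := by positivity
  set V : ℝ := U / T ^ 2 with hV
  have hV0 : 0 < V := by positivity
  have haV : Mn * (U ^ I.card * Q) = a * V := by
    rw [ha, hV, hUk]
    field_simp
  have hVk : V * (m * τ) ≤ (I.card : ℝ) := by
    rw [hV, div_mul_eq_mul_div, div_le_iff₀ (by positivity)]
    linarith only [hWL]
  have H0 : S0 ≤ (1 + ε) * (a * V) := by
    rw [haV] at hS0 E2
    linarith only [E2, hS0]
  -- first moment
  have H1 : (I.card : ℝ) * (a * l * (1 - 3 * ε)) ≤ ∑ i ∈ I, ∑ n ∈ X, w n * Φ i n := by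
    have h1 : ∀ i ∈ I, a * l * (1 - 3 * ε) ≤ ∑ n ∈ X, w n * Φ i n := by
      intro i hi
      refine le_trans ?_ (hlow i hi)
      have h2 : ((I.card : ℝ) - 1) * U ^ (I.card - 2) * (2 * Lam / D) ≤ 2 * ε * U ^ (I.card - 1) := by
        rcases Nat.lt_or_ge I.card 2 with hlt | hge
        · have : I.card = 1 := by omega
          rw [this]
          norm_num
          exact hε.le
        · have h3 : U ^ (I.card - 1) = U ^ (I.card - 2) * U := by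
            rw [← pow_succ]
            congr 1
            omega
          rw [h3]
          have h4 : ((I.card : ℝ) - 1) * (2 * Lam / D) ≤ 2 * ε * U := by
            rw [mul_div_assoc', div_le_iff₀ hD]
            nlinarith only [hLam, hLam0]
          calc ((I.card : ℝ) - 1) * U ^ (I.card - 2) * (2 * Lam / D)
              = U ^ (I.card - 2) * (((I.card : ℝ) - 1) * (2 * Lam / D)) := by ring
            _ ≤ U ^ (I.card - 2) * (2 * ε * U) := mul_le_mul_of_nonneg_left h4 (by positivity)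
            _ = _ := by ring
      have h5 : a * l * (1 - 2 * ε) ≤
          Mn * l * (T ^ 2 * (U ^ (I.card - 1) - ((I.card : ℝ) - 1) * U ^ (I.card - 2) * (2 * Lam / D)) * Q) := by
        have h6 : U ^ (I.card - 1) * (1 - 2 * ε) ≤
            U ^ (I.card - 1) - ((I.card : ℝ) - 1) * U ^ (I.card - 2) * (2 * Lam / D) := by linarith only [h2]
        calc a * l * (1 - 2 * ε) = (Mn * l * (T ^ 2 * Q)) * (U ^ (I.card - 1) * (1 - 2 * ε)) := by
              rw [ha]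
              ring
          _ ≤ (Mn * l * (T ^ 2 * Q)) *
              (U ^ (I.card - 1) - ((I.card : ℝ) - 1) * U ^ (I.card - 2) * (2 * Lam / D)) :=
              mul_le_mul_of_nonneg_left h6 (by positivity)
          _ = _ := by ring
      have h7 : E ≤ ε * a * l := E1
      nlinarith only [E1, h5]
    calc (I.card : ℝ) * (a * l * (1 - 3 * ε)) = ∑ _i ∈ I, a * l * (1 - 3 * ε) := by
          rw [Finset.sum_const, nsmul_eq_mul]
      _ ≤ _ := Finset.sum_le_sum h1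
  -- second moment
  have H2 : ∑ i ∈ I, ∑ j ∈ I, ∑ n ∈ X, w n * (Φ i n * Φ j n) ≤
      (I.card : ℝ) * (a * q1) + (I.card : ℝ) ^ 2 * (a * (q2 / V)) + (I.card : ℝ) ^ 2 * E := by
    have h1 : ∀ i ∈ I, ∑ j ∈ I, ∑ n ∈ X, w n * (Φ i n * Φ j n) ≤
        (a * q1 + E) + ((I.card : ℝ) - 1) * (a * (q2 / V) + E) := by
      intro i hi
      rw [← Finset.add_sum_erase I _ hi]
      refine add_le_add ?_ ?_
      · have h2 : ∑ n ∈ X, w n * (Φ i n * Φ i n) = ∑ n ∈ X, w n * Φ i n ^ 2 :=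
          Finset.sum_congr rfl fun n _ => by rw [sq]
        rw [h2]
        refine (hup i hi).trans (le_of_eq ?_)
        rw [ha]
        ring
      · have h3 : ∀ j ∈ I.erase i, ∑ n ∈ X, w n * (Φ i n * Φ j n) ≤ a * (q2 / V) + E := by
          intro j hj
          have hij := Finset.ne_of_mem_erase hj
          refine (hpair i hi j (Finset.mem_of_mem_erase hj) (Ne.symm hij)).trans (le_of_eq ?_)
          have hge : 2 ≤ I.card := by
            have h8 := Finset.card_pos.2 ⟨j, hj⟩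
            rw [Finset.card_erase_of_mem hi] at h8
            omega
          have h9 : U ^ (I.card - 1) = U ^ (I.card - 2) * U := by
            rw [← pow_succ]
            congr 1
            omega
          rw [ha, hV, h9]
          field_simp
        calc _ ≤ ∑ _j ∈ I.erase i, (a * (q2 / V) + E) := Finset.sum_le_sum h3
          _ = _ := by
              rw [Finset.sum_const, nsmul_eq_mul, Finset.card_erase_of_mem hi, Nat.cast_sub hI, Nat.cast_one]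
    calc _ ≤ ∑ _i ∈ I, ((a * q1 + E) + ((I.card : ℝ) - 1) * (a * (q2 / V) + E)) := Finset.sum_le_sum h1
      _ = (I.card : ℝ) * ((a * q1 + E) + ((I.card : ℝ) - 1) * (a * (q2 / V) + E)) := by
          rw [Finset.sum_const, nsmul_eq_mul]
      _ ≤ _ := by
          have h10 : 0 ≤ (I.card : ℝ) * (a * (q2 / V)) := by positivity
          nlinarith only [h10]
  -- the loss
  have H3 : ∑ i ∈ I, ∑ n ∈ X, w n * Ψ i n ≤ (I.card : ℝ) * (a * (t * l) + E) := by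
    calc _ ≤ ∑ _i ∈ I, (a * (t * l) + E) := Finset.sum_le_sum fun i hi =>
          (hpsi i hi).trans (le_of_eq (by rw [ha]; ring))
      _ = _ := by rw [Finset.sum_const, nsmul_eq_mul]
  -- V q1 ≤ k ε l²
  have X1 : V * q1 ≤ (I.card : ℝ) * (ε * l ^ 2) := by
    have h1 : c' ^ 2 ≤ (l * τ) ^ 2 := pow_le_pow_left₀ hc'.le hl 2
    have h2 : V * q1 * (m * τ ^ 2) ≤ (I.card : ℝ) * C := by
      calc V * q1 * (m * τ ^ 2) = (V * (m * τ)) * (q1 * τ) := by ring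
        _ ≤ (I.card : ℝ) * C := mul_le_mul hVk hq1C (by positivity) hk0.le
    have h3 : (I.card : ℝ) * C ≤ (I.card : ℝ) * (ε * l ^ 2) * (m * τ ^ 2) := by
      have h4 : C ≤ ε * m * (l * τ) ^ 2 := hmC.trans (mul_le_mul_of_nonneg_left h1 (by positivity))
      calc (I.card : ℝ) * C ≤ (I.card : ℝ) * (ε * m * (l * τ) ^ 2) := mul_le_mul_of_nonneg_left h4 hk0.le
        _ = _ := by ring
    exact le_of_mul_le_mul_right (h2.trans h3) (by positivity)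
  obtain ⟨k1, k2, k3, k4, k5, k6⟩ := ChebV_alg (k := (I.card : ℝ)) (a := a) (V := V) (l := l) (q1 := q1)
    (q2 := q2) (E := E) (e := e) (t := t) (c₁ := c₁) (ε := ε) (S0 := S0)
    (S2 := ∑ i ∈ I, ∑ j ∈ I, ∑ n ∈ X, w n * (Φ i n * Φ j n)) (SP := ∑ i ∈ I, ∑ n ∈ X, w n * Ψ i n)
    hk1 ha0 hl0 hV0 he ht hε hε1 hnum hS0p H0 H2 H3 X1 hq2l E3 E1
  have k7 := ChebV_abs X I w hw Φ Ψ hΨ P hP (S0 := S0) (S1 := ∑ i ∈ I, ∑ n ∈ X, w n * Φ i n)
    (S2 := ∑ i ∈ I, ∑ j ∈ I, ∑ n ∈ X, w n * (Φ i n * Φ j n)) (SP := ∑ i ∈ I, ∑ n ∈ X, w n * Ψ i n)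
    (t' := (t + ε) / (1 - 3 * ε)) (e' := (1 + ε) * (1 + e + 2 * ε) / (1 - 3 * ε) ^ 2 - 1)
    (S1' := (I.card : ℝ) * (a * l * (1 - 3 * ε))) hS0s rfl rfl rfl k1 H1 k2 k4 k3 k5 hS0p
  exact k6.trans k7

theorem cheb_var (R : ℕ → Prop) (δ θ t e c₁ : ℝ) (hδ : 0 < δ) (hδ1 : δ ≤ 1) (hθ : 0 < θ) (hθδ : θ ≤ δ)
    (hθ1 : θ < 1 / 2) (ht : 0 ≤ t) (he : 0 ≤ e) (h : PhiData R δ θ t e) (hc : c₁ < 1 - t - Real.sqrt e) :
    ∃ κ : ℕ → ℕ, Sieve R c₁ κ := by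
  classical
  obtain ⟨Φ, Ψ, l, q1, q2, c', C, hc', hC, hΨ0, hev, hptw, hmain⟩ := h
  -- the parameters
  obtain ⟨ε, hε, hε1, hnum⟩ := ChebV_num hc
  obtain ⟨m, hm, hmC⟩ : ∃ m : ℝ, 0 < m ∧ C ≤ ε * m * c' ^ 2 := by
    refine ⟨C / (ε * c' ^ 2), by positivity, le_of_eq ?_⟩
    field_simp
  let ts : ℕ → ℝ := fun s => θ / 2 ^ (s + 1)
  have hts : ∀ s, 0 < ts s := fun s => by positivity
  choose κ0 hκ0 using fun s : ℕ => WL (ts s) ε m (hts s) hε hm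
  refine ⟨fun s => max 1 (κ0 s), ?_⟩
  intro ι _ _ h W b hG r blk hκ N
  choose Is hIs using fun s : Fin r => hκ0 s (blkF blk s).card (le_trans (le_max_right _ _) (hκ s))
  have hcard : ∀ s : Fin r, 1 ≤ (blkF blk s).card := fun s => le_trans (le_max_left _ _) (hκ s)
  have htθ : ∀ s : Fin r, ts s ≤ δ := by
    intro s
    refine le_trans ?_ hθδ
    exact div_le_self hθ.le (one_le_pow₀ (by norm_num))
  have hsum : ∑ s : Fin r, ts s ≤ θ := by
    have h1 : ∀ r : ℕ, ∑ s ∈ range r, ts s = θ * (1 - (1 / 2) ^ r) := by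
      intro r
      induction r with
      | zero => simp
      | succ r ih =>
        rw [Finset.sum_range_succ, ih]
        simp only [ts]
        rw [one_div, inv_pow, inv_pow, pow_succ]
        field_simp
        ring
    rw [Fin.sum_univ_eq_sum_range (fun s => ts s) r, h1]
    have h2 : (0 : ℝ) ≤ (1 / 2) ^ r := by positivity
    nlinarith only [hθ, h2]
  obtain ⟨B, hB⟩ := Mn_low ι h W b hG
  obtain ⟨cτ, Cτ, hcτ, hCτ, hτ⟩ := tau_bounds
  have hWLs : ∀ᶠ x : ℕ in atTop, ∀ s : Fin r,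
      0 < UU (PZ x δ) (Yp (Is s) (ts s)) (Real.log x) ∧ 0 < TT (PZ x δ) (Yp (Is s) (ts s)) (Real.log x) ∧
      ((blkF blk s).card : ℝ) * LL (PZ x δ) (Yp (Is s) (ts s)) (Real.log x) ≤
        ε * (ts s * Real.log x) * UU (PZ x δ) (Yp (Is s) (ts s)) (Real.log x) ∧
      m * tau x * UU (PZ x δ) (Yp (Is s) (ts s)) (Real.log x) ≤
        ((blkF blk s).card : ℝ) * TT (PZ x δ) (Yp (Is s) (ts s)) (Real.log x) ^ 2 :=
    Filter.eventually_all.2 fun s => hIs s δ (htθ s) hδ1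
  have hmainx := hmain ι inferInstance inferInstance h W b hG (2 ^ Fintype.card ι) (B + 4)
  obtain ⟨x, hx⟩ := (((hev.and hmainx).and ((sumI ι h W b hG 1 δ θ hδ hδ1 hθ1 (B + 4)).and
    ((ptw ι h 1 (1 / 2) (by norm_num)).and hB))).and ((hτ.and hWLs).and
    (((ChebStep_asyL (2 ^ Fintype.card ι)).and (ChebStep_asyL 2)).and
    (((ChebStep_asyL (1 / (ε * c'))).and (ChebStep_asyL (1 / ε))).and
    (((ChebStep_asyL ((Fintype.card ι : ℝ) / (m * (ε * c' ^ 2)))).and (ChebStep_asyLL2 hCτ)).and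
    (((ChebStep_asyLL (1 / cτ + 1)).and
    (ChebStep_asyP (2 * ((N : ℝ) + 1)) (by positivity) B)).and
      ((eventually_ge_atTop (max 3 N)).and (hptw (∑ i, h i))))))))).exists
  obtain ⟨⟨⟨hx1, hx2⟩, hx3, hx4, hx5⟩, ⟨hx6, hx7⟩, ⟨hx8, hx9⟩, ⟨hx10, hx11⟩, ⟨hx12, hx13⟩, ⟨hx14, hx15⟩,
    hx16, hx17⟩ := hx
  have hx3' : 3 ≤ x := le_trans (le_max_left _ _) hx16
  have hxN : N ≤ x := le_trans (le_max_right _ _) hx16
  have hxR : (3 : ℝ) ≤ x := by exact_mod_cast hx3'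
  have hx0 : (0 : ℝ) < x := by linarith only [hε, hε1, hxR]
  set L : ℝ := Real.log x with hLdef
  have hL1 : 2 ≤ L := hx9
  have hL0 : 0 < L := by linarith only [hε, hε1, hx9]
  have hlB : 0 < L ^ B := by positivity
  set E : ℝ := (x : ℝ) / L ^ (B + 4) with hE
  have hE0 : 0 < E := by positivity
  set M : ℝ := Mn ι W x with hM
  have hM1 : (x : ℝ) / L ^ B ≤ M := hx5
  have hM0 : 0 < M := lt_of_lt_of_le (by positivity) hM1
  set τ : ℝ := tau x with hτdef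
  obtain ⟨hl, hq1, hq1C, hq2, hq2l⟩ := hx1
  have hτL : τ ≤ L := hx6.2.trans hx13
  have hτ1 : 1 ≤ τ := by
    refine le_trans ?_ hx6.1
    have h1 : 1 ≤ Real.log L := by
      have : 0 < 1 / cτ := by positivity
      linarith only [hx14, this]
    have h2 : 1 / cτ ≤ Real.log L := by linarith only [hε, hε1, hx14]
    have h3 : Real.log L ≤ Real.log L ^ 2 := by nlinarith only [h1]
    calc 1 = cτ * (1 / cτ) := by field_simp
      _ ≤ cτ * Real.log L ^ 2 := mul_le_mul_of_nonneg_left (h2.trans h3) hcτ.le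
  have hτ0 : 0 < τ := by linarith only [hε, hε1, hτ1]
  have hl0 : 0 < l x := by
    by_contra hcon
    push Not at hcon
    have := mul_nonpos_of_nonpos_of_nonneg hcon hτ0.le
    linarith only [hc', hl, this]
  have hlL : c' / L ≤ l x := by
    rw [div_le_iff₀ hL0]
    exact hl.trans (mul_le_mul_of_nonneg_left hτL hl0.le)
  -- the weight function
  let Yf : Fin r → ℝ → ℝ := fun s => Yp (Is s) (ts s)
  let tt : Fin r → ℝ := fun s => ts s
  set y : Finset (ι × ℕ) → ℝ := yfull blk (PZ x δ) Yf tt L with hy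
  have hY1 : ∀ s, 1 ≤ Yf s 0 := fun s => ChebStep_Yp0 _ (hts s)
  have hYok : Yok x δ θ (2 ^ Fintype.card ι) y := yfull_ok blk x hx3' δ θ Is tt (fun s => hts s) hsum
  have hYok1 : Yok x δ θ (L ^ 1) y := hYok.mono (by rw [pow_one]; exact hx8)
  have hMy : 1 ≤ My ι x δ y := ChebStep_My1 blk x δ Yf hY1 tt (fun s => hts s) L hL0
  set S0 : ℝ := ∑ n ∈ AA h W b x, Ly h x δ y n ^ 2 with hS0
  have hsumI := abs_le.1 (hx3 y hYok1)
  have hEB : E ≤ (x : ℝ) / L ^ B / 2 := by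
    rw [hE, pow_add, ← div_div]
    refine div_le_div_of_nonneg_left (by positivity) (by norm_num) ?_
    nlinarith only [hε, hε1, hL1, hL0, pow_pos hL0 3, pow_pos hL0 2, mul_le_mul hL1 hL1 (by norm_num) hL0.le,
      mul_le_mul hL1 hL1 (by norm_num) hL0.le, sq_nonneg (L ^ 2)]
  have hS0low : (x : ℝ) / L ^ B / 2 ≤ S0 := by
    have h1 : M * 1 ≤ M * My ι x δ y := mul_le_mul_of_nonneg_left hMy hM0.le
    have h2 := hsumI.1
    have h3 : (x : ℝ) / L ^ B / 2 + (x : ℝ) / L ^ B / 2 = (x : ℝ) / L ^ B := by ring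
    linarith only [hx5, hsumI, hEB, h1]
  have hS0pos : 0 < S0 := lt_of_lt_of_le (by positivity) hS0low
  have hNS0 : (N : ℝ) * (x : ℝ) ^ (1 / 2 : ℝ) ≤ S0 := by
    refine le_trans ?_ hS0low
    have h1 : (x : ℝ) ^ (1 / 2 : ℝ) * (x : ℝ) ^ (1 / 2 : ℝ) = x := by
      rw [← Real.rpow_add hx0]
      norm_num
    rw [le_div_iff₀ (by norm_num), le_div_iff₀ hlB]
    have h2 : 0 ≤ (x : ℝ) ^ (1 / 2 : ℝ) := by positivity
    have h3 : 2 * ((N : ℝ)) * L ^ B ≤ (x : ℝ) ^ (1 / 2 : ℝ) := by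
      refine le_trans ?_ hx15
      have : (0 : ℝ) ≤ L ^ B := hlB.le
      nlinarith only [hlB]
    calc (N : ℝ) * (x : ℝ) ^ (1 / 2 : ℝ) * 2 * L ^ B
        = (x : ℝ) ^ (1 / 2 : ℝ) * (2 * (N : ℝ) * L ^ B) := by ring
      _ ≤ (x : ℝ) ^ (1 / 2 : ℝ) * (x : ℝ) ^ (1 / 2 : ℝ) := mul_le_mul_of_nonneg_left h3 h2
      _ = x := h1
  refine ⟨AA h W b x, fun n => Ly h x δ y n ^ 2 / S0, ?_, ?_, ?_⟩
  · intro n hn
    have hn' := Finset.mem_filter.1 hn
    have hn1 := Finset.mem_Ioc.1 hn'.1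
    refine ⟨by omega, hn'.2.1, by positivity, ?_⟩
    rw [mul_div_assoc', div_le_one hS0pos]
    exact (mul_le_mul_of_nonneg_left (hx4 δ θ y hYok1 n hn'.1) (Nat.cast_nonneg N)).trans hNS0
  · rw [← Finset.sum_div]
    exact div_self hS0pos.ne'
  · intro s
    obtain ⟨hUp, hTp, hLam, hWL⟩ := hx7 s
    obtain ⟨Q, hQ1, hQ2, hQ3, hQ4⟩ := blk_main blk (PZ x δ) ChebStep_PZ Yf
      (fun s u => BlkMain_Yp_nonneg _ _ _) hY1 tt (fun s => hts s) L hL0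
      (fun s u hu => ChebStep_Yps _ (hts s) u hu) s
    have hU1 : 1 ≤ UU (PZ x δ) (Yf s) L := ChebStep_UU1 ChebStep_PZ (hY1 s) L
    have hT1 : 1 ≤ TT (PZ x δ) (Yf s) L :=
      ChebStep_TT1 ChebStep_PZ (Y := Yf s) (fun u => BlkMain_Yp_nonneg _ _ _) (hY1 s) L
    obtain ⟨hx2a, hx2b⟩ := hx2 y hYok
    set U : ℝ := UU (PZ x δ) (Yf s) L with hUdef
    set T : ℝ := TT (PZ x δ) (Yf s) L with hTdef
    have hQ0 : 0 < Q := by linarith only [hε, hε1, hQ1]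
    have hbig1 : (x : ℝ) / L ^ B ≤ M * (T ^ 2 * U ^ ((blkF blk s).card - 1) * Q) := by
      have h1 : 1 ≤ T ^ 2 * U ^ ((blkF blk s).card - 1) * Q :=
        one_le_mul_of_one_le_of_one_le (one_le_mul_of_one_le_of_one_le (one_le_pow₀ hT1) (one_le_pow₀ hU1)) hQ1
      calc (x : ℝ) / L ^ B ≤ M * 1 := by rw [mul_one]; exact hM1
        _ ≤ _ := mul_le_mul_of_nonneg_left h1 hM0.le
    have hbig2 : (x : ℝ) / L ^ B ≤ M * (U ^ (blkF blk s).card * Q) := by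
      have h1 : 1 ≤ U ^ (blkF blk s).card * Q := one_le_mul_of_one_le_of_one_le (one_le_pow₀ hU1) hQ1
      calc (x : ℝ) / L ^ B ≤ M * 1 := by rw [mul_one]; exact hM1
        _ ≤ _ := mul_le_mul_of_nonneg_left h1 hM0.le
    have hE4 : E = (x : ℝ) / L ^ B * (1 / L ^ 4) := by
      rw [hE, pow_add]
      field_simp
    have hxB : 0 < (x : ℝ) / L ^ B := by positivity
    have hkL : ((blkF blk s).card : ℝ) ≤ (Fintype.card ι : ℝ) := by
      exact_mod_cast Finset.card_le_univ _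
    have hk0 : (0 : ℝ) ≤ ((blkF blk s).card : ℝ) := Nat.cast_nonneg _
    rw [← Finset.sum_div, le_div_iff₀ hS0pos]
    refine ChebV_block (AA h W b x) (fun n => Ly h x δ y n ^ 2) (fun n _ => sq_nonneg _) (blkF blk s)
      (fun i n => Φ x (n + h i)) (fun i n => Ψ x (n + h i)) (fun i n => hΨ0 x _)
      (fun n => ∃ i, blk i = s ∧ R (n + h i)) ?_ (hcard s)
      (Mn := M) (l := l x) (q1 := q1 x) (q2 := q2 x) (E := E) (τ := τ)
      (T := T) (U := U) (Lam := LL (PZ x δ) (Yf s) L)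
      (D := ts s * L) (Q := Q) (m := m) (ε := ε) (e := e) (t := t) (c₁ := c₁) (c' := c') (C := C) (S0 := S0)
      hM0 hTp hUp (mul_pos (hts s) hL0) hQ1 hm hτ0 hc' hε hε1 he ht hS0 hS0pos hq1 hq2 hnum hmC
      hl hq1C hq2l ?_ ?_ ?_ ?_ ?_ hLam (ChebStep_LL0 ChebStep_PZ _ _) hWL ?_ ?_ ?_
    · intro n hn hPn i hi
      have hn' := Finset.mem_filter.1 hn
      have hn1 := Finset.mem_Ioc.1 hn'.1
      have h1 : h i ≤ ∑ i, h i := Finset.single_le_sum (fun _ _ => Nat.zero_le _) (Finset.mem_univ i)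
      refine hx17 (n + h i) (by omega) (by omega) fun hR => hPn ⟨i, (Finset.mem_filter.1 hi).2, hR⟩
    · have h1 : M * My ι x δ y ≤ M * (U ^ (blkF blk s).card * Q) := mul_le_mul_of_nonneg_left hQ2 hM0.le
      have h2 := hsumI.2
      linarith only [hsumI, h1]
    · intro i hi
      have h1 := (hx2a i).1
      have h2 := mul_le_mul_of_nonneg_left (hQ3 i hi).1 (mul_pos hM0 hl0).le
      have h3 : M * l x * MM (univ ×ˢ PZ x δ) (fo gi) (pr ({i} ×ˢ PZ x δ) (fo gi) (yfull blk (PZ x δ) Yf tt L)) - E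
          ≤ ∑ n ∈ AA h W b x, Ly h x δ y n ^ 2 * Φ x (n + h i) := h1
      linarith only [h2, h3]
    · intro i hi
      have h1 := (hx2a i).2.1
      have h2 := mul_le_mul_of_nonneg_left (hQ3 i hi).2 (mul_nonneg hM0.le hq1)
      have h3 : ∑ n ∈ AA h W b x, Ly h x δ y n ^ 2 * Φ x (n + h i) ^ 2 ≤
          M * q1 x * MM (univ ×ˢ PZ x δ) (fo gi) (pr ({i} ×ˢ PZ x δ) (fo gi) (yfull blk (PZ x δ) Yf tt L)) + E := h1
      linarith only [h2, h3]
    · intro i hi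
      have h1 := (hx2a i).2.2
      have h2 := mul_le_mul_of_nonneg_left (hQ3 i hi).2 (mul_nonneg hM0.le (mul_nonneg ht hl0.le))
      have h3 : ∑ n ∈ AA h W b x, Ly h x δ y n ^ 2 * Ψ x (n + h i) ≤
          M * (t * l x) * MM (univ ×ˢ PZ x δ) (fo gi)
            (pr ({i} ×ˢ PZ x δ) (fo gi) (yfull blk (PZ x δ) Yf tt L)) + E := h1
      linarith only [h2, h3]
    · intro i hi j hj hij
      have h1 := hx2b i j hij
      have h2 := mul_le_mul_of_nonneg_left (hQ4 i hi j hj hij) (mul_nonneg hM0.le hq2)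
      have h3 : ∑ n ∈ AA h W b x, Ly h x δ y n ^ 2 * (Φ x (n + h i) * Φ x (n + h j)) ≤
          M * q2 x * MM (univ ×ˢ PZ x δ) (fo gi)
            (pr ({i} ×ˢ PZ x δ ∪ {j} ×ˢ PZ x δ) (fo gi) (yfull blk (PZ x δ) Yf tt L)) + E := h1
      linarith only [h2, h3]
    · -- E1
      have h1 : 1 / L ^ 4 ≤ ε * (c' / L) := by
        rw [div_le_iff₀ (by positivity)] at hx10
        rw [div_le_iff₀ (by positivity)]
        have h2 : ε * (c' / L) * L ^ 4 = (L * (ε * c')) * L ^ 2 := by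
          field_simp
        rw [h2]
        have h3 : 1 ≤ L ^ 2 := by nlinarith only [hx9]
        nlinarith only [h3, hx10]
      calc E = (x : ℝ) / L ^ B * (1 / L ^ 4) := hE4
        _ ≤ (x : ℝ) / L ^ B * (ε * (c' / L)) := mul_le_mul_of_nonneg_left h1 hxB.le
        _ = ε * ((x : ℝ) / L ^ B) * (c' / L) := by ring
        _ ≤ ε * (M * (T ^ 2 * U ^ ((blkF blk s).card - 1) * Q)) * l x :=
            mul_le_mul (mul_le_mul_of_nonneg_left hbig1 hε.le) hlL (by positivity) (by positivity)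
    · -- E2
      have h1 : 1 / L ^ 4 ≤ ε := by
        rw [div_le_iff₀ hε] at hx11
        rw [div_le_iff₀ (by positivity)]
        have h3 : 1 ≤ L ^ 3 := one_le_pow₀ (by linarith only [hε, hε1, hx9])
        have h4 : ε * L ^ 4 = (L * ε) * L ^ 3 := by ring
        rw [h4]
        nlinarith only [hx11, h3, hε, hε1]
      calc E = (x : ℝ) / L ^ B * (1 / L ^ 4) := hE4
        _ ≤ (x : ℝ) / L ^ B * ε := mul_le_mul_of_nonneg_left h1 hxB.le
        _ = ε * ((x : ℝ) / L ^ B) := by ring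
        _ ≤ ε * (M * (U ^ (blkF blk s).card * Q)) := mul_le_mul_of_nonneg_left hbig2 hε.le
    · -- E3
      have hV : U / T ^ 2 ≤ ((blkF blk s).card : ℝ) / m := by
        rw [div_le_div_iff₀ (by positivity) hm]
        have h1 : m * U ≤ m * τ * U := by
          have : m * U * 1 ≤ m * U * τ := mul_le_mul_of_nonneg_left hτ1 (by positivity)
          linarith only [this]
        linarith only [hWL, h1]
      have h1 : ((blkF blk s).card : ℝ) / m * (1 / L ^ 4) ≤ ε * (c' / L) ^ 2 := by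
        rw [div_le_iff₀ (by positivity)] at hx12
        rw [div_mul_div_comm, mul_one, div_le_iff₀ (by positivity)]
        have h2 : ε * (c' / L) ^ 2 * (m * L ^ 4) = (L * (m * (ε * c' ^ 2))) * L := by
          field_simp
        rw [h2]
        have h3 : ((blkF blk s).card : ℝ) ≤ L * (m * (ε * c' ^ 2)) := hkL.trans hx12
        nlinarith only [hmC, hx12, hkL, hx9, hC, hε, hε1]
      calc U / T ^ 2 * E ≤ ((blkF blk s).card : ℝ) / m * E := mul_le_mul_of_nonneg_right hV hE0.le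
        _ = (x : ℝ) / L ^ B * (((blkF blk s).card : ℝ) / m * (1 / L ^ 4)) := by
            rw [hE4]
            ring
        _ ≤ (x : ℝ) / L ^ B * (ε * (c' / L) ^ 2) := mul_le_mul_of_nonneg_left h1 hxB.le
        _ = ε * ((x : ℝ) / L ^ B * (c' / L) ^ 2) := by ring
        _ ≤ ε * (M * (T ^ 2 * U ^ ((blkF blk s).card - 1) * Q) * l x ^ 2) := by
            refine mul_le_mul_of_nonneg_left ?_ hε.le
            exact mul_le_mul hbig1 (pow_le_pow_left₀ (by positivity) hlL 2) (by positivity) (by positivity)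

end Pool.Agent.H36.IS2

end
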