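import Pool.Agent.H15.TB1.M40
import Pool.Agent.H15.TB1.M81
import Pool.Agent.H15.TB1.M95

/-! The parts of this file: H36.IS2.LossP, H36.IS2.LossN. -/

section

/-!
# ISP LossP: pointwise bound outside R12

`SL_cof`: a = p₁ p₂ ∈ SL x 0.09 0.3348: p₁ ≤ 3x/p₂² < 3 x^(1 - 0.6696), a² = p₁ · (p₁ p₂²) ≤ 3 x^(0.3304) · 3x, so a ≤ 3 x^(0.6652) ≤ x^(0.7) for large x;
 the prime factors of a are p₁, p₂ > x^(0.09) > x^δ.
`loss_pt`: let x be large, x < m ≤ 2x + s, m not in R12, no p ∈ PZ x δ divides m, no p ∈ PZ x 0.09 \ PZ x δ divides m; let N = #{q ∈ PZ x 0.3348 \ PZ x 0.09 : q ∣ m}.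
Then 1 - N/2 ≤ (1/2) [MkS (SL x) m] + [∃ p prime, x^δ < p, p² ∣ m].
Proof: all prime factors of m are > x^(0.09) (those ≤ z0 x: hypothesis hz), hence m < p^12 for them (p^12 > x^(1.08) > 2x + s);
so m ∉ R12 means m has at least 3 prime factors with multiplicity.  If N ≥ 2 the left side is ≤ 0.  If some p² ∣ m the right side is ≥ 1.
Otherwise m is squarefree.  If N = 0: three prime factors > x^(0.3348): m > x^(1.0044) > 2x + s, contradiction.  If N = 1: p₁ the only prime factor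
≤ x^(0.3348), the others are > x^(0.3348); there are exactly two others (three: m > x^(0.09 + 1.0044)): m = p₁ p₂ p₃ with p₂ < p₃,
p₁ p₂² < m ≤ 2x + s ≤ 3x, so a = p₁ p₂ ∈ SL and m/a = p₃ is prime.
-/

set_option autoImplicit false

namespace Pool.Agent.H36.IS2

open Finset Filter Pool.Agent.H36.IS Pool.Agent.H76.ISE

private theorem LossP_ev (c : ℝ) (r : ℝ) (hr : 0 < r) :
    ∀ᶠ x : ℕ in atTop, c ≤ (x : ℝ) ^ r :=
  ((tendsto_rpow_atTop hr).comp tendsto_natCast_atTop_atTop).eventually_ge_atTop c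

theorem SL_cof (δ : ℝ) (hδ : 0 < δ) (hδ1 : δ < 0.09) : ∀ᶠ x : ℕ in atTop, ∀ a ∈ SL x 0.09 0.3348,
    0 < a ∧ (a : ℝ) ≤ (x : ℝ) ^ (7 / 10 : ℝ) ∧ ∀ p : ℕ, p.Prime → p ∣ a → (x : ℝ) ^ δ < p := by
  filter_upwards [LossP_ev 9 0.0696 (by norm_num), eventually_ge_atTop 1] with x hx hx1 a ha
  have hxr : (1 : ℝ) ≤ x := by exact_mod_cast hx1
  have hx0 : (0 : ℝ) < x := by linarith only [hxr]
  unfold SL at ha
  rw [mem_image] at ha
  obtain ⟨⟨p₁, p₂⟩, hpq, rfl⟩ := ha
  rw [mem_filter, mem_product, mem_filter, mem_filter] at hpq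
  obtain ⟨⟨⟨-, hp1, h1, h2⟩, -, hp2, h3⟩, h4⟩ := hpq
  simp only at hp1 h1 h2 hp2 h3 h4 ⊢
  have q1 : (0 : ℝ) < p₁ := by exact_mod_cast hp1.pos
  have q2 : (0 : ℝ) < p₂ := by exact_mod_cast hp2.pos
  have h4' : (p₁ : ℝ) * (p₂ : ℝ) ^ 2 ≤ 3 * x := by exact_mod_cast h4
  refine ⟨Nat.mul_pos hp1.pos hp2.pos, ?_, ?_⟩
  · -- the size
    have e1 : ((x : ℝ) ^ (0.3348 : ℝ)) ^ 2 = (x : ℝ) ^ (0.6696 : ℝ) := by
      rw [← Real.rpow_natCast, ← Real.rpow_mul hx0.le]
      norm_num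
    have e2 : (x : ℝ) ^ (0.6696 : ℝ) ≤ (p₂ : ℝ) ^ 2 := by
      rw [← e1]
      exact pow_le_pow_left₀ (by positivity) h3.le 2
    have e3 : (p₁ : ℝ) * (x : ℝ) ^ (0.6696 : ℝ) ≤ 3 * x :=
      (mul_le_mul_of_nonneg_left e2 q1.le).trans h4'
    have e4 : (x : ℝ) ^ (0.6696 : ℝ) * (x : ℝ) ^ (0.3304 : ℝ) = x := by
      rw [← Real.rpow_add hx0]
      norm_num
    have e5 : (p₁ : ℝ) ≤ 3 * (x : ℝ) ^ (0.3304 : ℝ) := by
      have : (0 : ℝ) < (x : ℝ) ^ (0.6696 : ℝ) := by positivity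
      refine le_of_mul_le_mul_right ?_ this
      calc (p₁ : ℝ) * (x : ℝ) ^ (0.6696 : ℝ) ≤ 3 * x := e3
        _ = 3 * ((x : ℝ) ^ (0.6696 : ℝ) * (x : ℝ) ^ (0.3304 : ℝ)) := by rw [e4]
        _ = 3 * (x : ℝ) ^ (0.3304 : ℝ) * (x : ℝ) ^ (0.6696 : ℝ) := by ring
    have e6 : ((p₁ : ℝ) * p₂) ^ 2 ≤ ((x : ℝ) ^ (7 / 10 : ℝ)) ^ 2 := by
      calc ((p₁ : ℝ) * p₂) ^ 2 = p₁ * (p₁ * p₂ ^ 2) := by ring
        _ ≤ (3 * (x : ℝ) ^ (0.3304 : ℝ)) * (3 * x) :=
            mul_le_mul e5 h4' (by positivity) (by positivity)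
        _ = 9 * ((x : ℝ) ^ (0.3304 : ℝ) * x) := by ring
        _ ≤ (x : ℝ) ^ (0.0696 : ℝ) * ((x : ℝ) ^ (0.3304 : ℝ) * x) :=
            mul_le_mul_of_nonneg_right hx (by positivity)
        _ = (x : ℝ) ^ (0.0696 : ℝ) * ((x : ℝ) ^ (0.3304 : ℝ) * (x : ℝ) ^ (1 : ℝ)) := by
            rw [Real.rpow_one]
        _ = ((x : ℝ) ^ (7 / 10 : ℝ)) ^ 2 := by
            rw [← Real.rpow_add hx0, ← Real.rpow_add hx0, ← Real.rpow_natCast,
              ← Real.rpow_mul hx0.le]
            norm_num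
    push_cast
    exact (pow_le_pow_iff_left₀ (by positivity) (by positivity) two_ne_zero).1 e6
  · intro p hp hpa
    have b1 : (x : ℝ) ^ δ ≤ (x : ℝ) ^ (0.09 : ℝ) := Real.rpow_le_rpow_of_exponent_le hxr hδ1.le
    have b2 : (x : ℝ) ^ δ ≤ (x : ℝ) ^ (0.3348 : ℝ) :=
      Real.rpow_le_rpow_of_exponent_le hxr (by linarith only [hδ1])
    rcases hp.dvd_mul.1 hpa with h | h
    · rw [(Nat.prime_dvd_prime_iff_eq hp hp1).1 h]
      linarith only [h1, b1]
    · rw [(Nat.prime_dvd_prime_iff_eq hp hp2).1 h]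
      linarith only [h1, h2, h3, b1]

open Classical in
theorem loss_pt (δ : ℝ) (hδ : 0 < δ) (hδ1 : δ < 0.09) (s : ℕ) : ∀ᶠ x : ℕ in atTop, ∀ m : ℕ, x < m → m ≤ 2 * x + s →
    ¬ R12 m → (∀ p : ℕ, p.Prime → (p : ℝ) ≤ z0 x → ¬ p ∣ m) → (∀ p ∈ PZ x δ, ¬ p ∣ m) →
    (∀ p ∈ PZ x 0.09 \ PZ x δ, ¬ p ∣ m) →
    1 - 1 / 2 * (((PZ x 0.3348 \ PZ x 0.09).filter (fun q => q ∣ m)).card : ℝ) ≤
      (if MkS (SL x 0.09 0.3348) m then 1 / 2 else 0) +
        (if ∃ p : ℕ, p.Prime ∧ (x : ℝ) ^ δ < p ∧ p ^ 2 ∣ m then 1 else 0) := by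
  filter_upwards [LossP_ev 3 0.0044 (by norm_num), eventually_ge_atTop (s + 1)] with x hx hxs
    m hm1 hm2 hR hz h1 h2
  have hx1 : 1 ≤ x := by omega
  have hxr : (1 : ℝ) ≤ x := by exact_mod_cast hx1
  have hx0 : (0 : ℝ) < x := by linarith only [hxr]
  have hm0 : m ≠ 0 := by omega
  have hm3 : m ≤ 3 * x := by omega
  have hm3r : (m : ℝ) ≤ 3 * x := by exact_mod_cast hm3
  -- size
  have hbig : (m : ℝ) ≤ (x : ℝ) ^ (1.0044 : ℝ) := by
    calc (m : ℝ) ≤ 3 * x := hm3r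
      _ ≤ (x : ℝ) ^ (0.0044 : ℝ) * x := mul_le_mul_of_nonneg_right hx hx0.le
      _ = (x : ℝ) ^ (0.0044 : ℝ) * (x : ℝ) ^ (1 : ℝ) := by rw [Real.rpow_one]
      _ = (x : ℝ) ^ (1.0044 : ℝ) := by
          rw [← Real.rpow_add hx0]
          norm_num
  -- all prime factors are large
  have hlarge : ∀ p : ℕ, p.Prime → p ∣ m → (x : ℝ) ^ (0.09 : ℝ) < p := by
    intro p hp hpm
    by_contra hcon
    push Not at hcon
    have hpx : (p : ℝ) ≤ x := by
      calc (p : ℝ) ≤ (x : ℝ) ^ (0.09 : ℝ) := hcon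
        _ ≤ (x : ℝ) ^ (1 : ℝ) := Real.rpow_le_rpow_of_exponent_le hxr (by norm_num)
        _ = x := Real.rpow_one _
    have hpx' : p ≤ x := by exact_mod_cast hpx
    have hz' : z0 x < p := by
      by_contra hc
      exact hz p hp (not_lt.1 hc) hpm
    have hmem : p ∈ PZ x 0.09 := by
      unfold PZ PX
      rw [mem_filter, mem_filter, mem_range]
      exact ⟨⟨by omega, hp, hz'⟩, hcon⟩
    by_cases hmd : p ∈ PZ x δ
    · exact h1 p hmd hpm
    · exact h2 p (mem_sdiff.2 ⟨hmem, hmd⟩) hpm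
  have hrough : ∀ p : ℕ, p.Prime → p ∣ m → m < p ^ 12 := by
    intro p hp hpm
    have a1 := hlarge p hp hpm
    have a2 : ((x : ℝ) ^ (0.09 : ℝ)) ^ 12 = (x : ℝ) ^ (1.08 : ℝ) := by
      rw [← Real.rpow_natCast, ← Real.rpow_mul hx0.le]
      norm_num
    have a3 : ((x : ℝ) ^ (0.09 : ℝ)) ^ 12 < (p : ℝ) ^ 12 :=
      pow_lt_pow_left₀ a1 (by positivity) (by norm_num)
    have a4 : (x : ℝ) ^ (1.0044 : ℝ) ≤ (x : ℝ) ^ (1.08 : ℝ) :=
      Real.rpow_le_rpow_of_exponent_le hxr (by norm_num)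
    have a5 : (m : ℝ) < (p : ℝ) ^ 12 := by linarith only [hbig, a2, a3, a4]
    exact_mod_cast a5
  have hlen : 3 ≤ m.primeFactorsList.length := by
    by_contra hcon
    exact hR ⟨by omega, hrough⟩
  have hn0 : (0 : ℝ) ≤ (if MkS (SL x 0.09 0.3348) m then 1 / 2 else 0) := by
    split_ifs <;> norm_num
  -- square factors
  by_cases hsq : ∃ p : ℕ, p.Prime ∧ (x : ℝ) ^ δ < p ∧ p ^ 2 ∣ m
  · rw [if_pos hsq]
    have : (0 : ℝ) ≤ (((PZ x 0.3348 \ PZ x 0.09).filter (fun q => q ∣ m)).card : ℝ) :=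
      Nat.cast_nonneg _
    linarith only [hn0]
  rw [if_neg hsq, add_zero]
  have hδx : (x : ℝ) ^ δ ≤ (x : ℝ) ^ (0.09 : ℝ) := Real.rpow_le_rpow_of_exponent_le hxr hδ1.le
  have hsqf : Squarefree m := by
    rw [Nat.squarefree_iff_prime_squarefree]
    intro p hp hpp
    refine hsq ⟨p, hp, ?_, by rw [pow_two]; exact hpp⟩
    have := hlarge p hp (dvd_trans (dvd_mul_right p p) hpp)
    linarith only [hδx, this]
  have hcard : 3 ≤ m.primeFactors.card := by
    have : m.primeFactorsList.toFinset.card = m.primeFactorsList.length :=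
      List.toFinset_card_of_nodup ((Nat.squarefree_iff_nodup_primeFactorsList hm0).1 hsqf)
    have h' : m.primeFactors = m.primeFactorsList.toFinset := rfl
    rw [h', this]
    exact hlen
  set F₁ : Finset ℕ := m.primeFactors.filter (fun p : ℕ => (p : ℝ) ≤ (x : ℝ) ^ (0.3348 : ℝ)) with hF₁
  set F₂ : Finset ℕ := m.primeFactors.filter (fun p : ℕ => ¬ (p : ℝ) ≤ (x : ℝ) ^ (0.3348 : ℝ)) with hF₂
  have hF₁N : (PZ x 0.3348 \ PZ x 0.09).filter (fun q => q ∣ m) = F₁ := by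
    ext p
    rw [Finset.mem_filter, Finset.mem_sdiff, hF₁, Finset.mem_filter, Nat.mem_primeFactors]
    constructor
    · rintro ⟨⟨ha, hb⟩, hc⟩
      unfold PZ PX at ha
      rw [mem_filter, mem_filter] at ha
      exact ⟨⟨ha.1.2.1, hc, hm0⟩, ha.2⟩
    · rintro ⟨⟨hp, hpm, -⟩, hle⟩
      have hl := hlarge p hp hpm
      have hpx : (p : ℝ) ≤ x := by
        calc (p : ℝ) ≤ (x : ℝ) ^ (0.3348 : ℝ) := hle
          _ ≤ (x : ℝ) ^ (1 : ℝ) := Real.rpow_le_rpow_of_exponent_le hxr (by norm_num)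
          _ = x := Real.rpow_one _
      have hpx' : p ≤ x := by exact_mod_cast hpx
      have hz' : z0 x < p := by
        by_contra hc
        exact hz p hp (not_lt.1 hc) hpm
      refine ⟨⟨?_, ?_⟩, hpm⟩
      · unfold PZ PX
        rw [mem_filter, mem_filter, mem_range]
        exact ⟨⟨by omega, hp, hz'⟩, hle⟩
      · intro hc
        unfold PZ at hc
        rw [mem_filter] at hc
        linarith only [hl, hc]
  rw [hF₁N]
  have hsum : F₁.card + F₂.card = m.primeFactors.card :=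
    card_filter_add_card_filter_not _
  have hprodm : ∏ p ∈ m.primeFactors, p = m := Nat.prod_primeFactors_of_squarefree hsqf
  have hpos : ∀ p ∈ m.primeFactors, 0 < p := fun p hp => (Nat.prime_of_mem_primeFactors hp).pos
  have hprod : (∏ p ∈ F₁, p) * ∏ p ∈ F₂, p = m := by
    rw [← hprodm]
    exact prod_filter_mul_prod_filter_not _ _ _
  have hF₂le : F₂.card ≤ 2 := by
    by_contra hcon
    have c1 : ((x : ℝ) ^ (0.3348 : ℝ)) ^ F₂.card < ∏ p ∈ F₂, (p : ℝ) := by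
      rw [← prod_const]
      have hne : F₂.Nonempty := card_pos.1 (by omega)
      refine prod_lt_prod_of_nonempty (fun i _ => by positivity) (fun i hi => ?_) hne
      rw [hF₂, mem_filter] at hi
      exact not_le.1 hi.2
    have c2 : (1 : ℝ) ≤ (x : ℝ) ^ (0.3348 : ℝ) := Real.one_le_rpow hxr (by norm_num)
    have c3 : ((x : ℝ) ^ (0.3348 : ℝ)) ^ 3 ≤ ((x : ℝ) ^ (0.3348 : ℝ)) ^ F₂.card :=
      pow_le_pow_right₀ c2 (by omega)
    have c4 : ((x : ℝ) ^ (0.3348 : ℝ)) ^ 3 = (x : ℝ) ^ (1.0044 : ℝ) := by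
      rw [← Real.rpow_natCast, ← Real.rpow_mul hx0.le]
      norm_num
    have c5 : ∏ p ∈ F₂, (p : ℝ) ≤ m := by
      have : ∏ p ∈ F₂, p ≤ m := by
        conv_rhs => rw [← hprod]
        refine Nat.le_mul_of_pos_left _ (prod_pos fun p hp => hpos p ?_)
        exact (mem_filter.1 hp).1
      have h' : ((∏ p ∈ F₂, p : ℕ) : ℝ) ≤ m := by exact_mod_cast this
      rwa [Nat.cast_prod] at h'
    linarith only [hbig, c1, c3, c4, c5]
  rcases Nat.lt_or_ge 1 F₁.card with hN | hN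
  · have : (2 : ℝ) ≤ (F₁.card : ℝ) := by exact_mod_cast hN
    linarith only [hn0, this]
  have hc1 : F₁.card = 1 := by omega
  have hc2 : F₂.card = 2 := by omega
  obtain ⟨p₁, hp₁⟩ := card_eq_one.1 hc1
  obtain ⟨p₂, p₃, hp₂₃, hp₂⟩ : ∃ p₂ p₃, p₂ < p₃ ∧ F₂ = {p₂, p₃} := by
    obtain ⟨a, b, hab, hF⟩ := card_eq_two.1 hc2
    rcases lt_or_gt_of_ne hab with h | h
    · exact ⟨a, b, h, hF⟩
    · exact ⟨b, a, h, by rw [hF, pair_comm]⟩
  have m1 : p₁ ∈ F₁ := by rw [hp₁]; exact mem_singleton_self _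
  have m2 : p₂ ∈ F₂ := by rw [hp₂]; simp
  have m3 : p₃ ∈ F₂ := by rw [hp₂]; simp
  rw [hF₁, mem_filter] at m1
  rw [hF₂, mem_filter] at m2 m3
  have P1 := Nat.prime_of_mem_primeFactors m1.1
  have P2 := Nat.prime_of_mem_primeFactors m2.1
  have P3 := Nat.prime_of_mem_primeFactors m3.1
  have hmeq : p₁ * p₂ * p₃ = m := by
    rw [hp₁, hp₂, prod_singleton, prod_pair hp₂₃.ne] at hprod
    rw [← hprod]
    ring
  have hM : MkS (SL x 0.09 0.3348) m := by
    refine ⟨p₁ * p₂, ?_, ⟨p₃, hmeq.symm⟩, ?_⟩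
    · have hle : p₁ * p₂ ^ 2 ≤ 3 * x := by
        calc p₁ * p₂ ^ 2 = p₁ * p₂ * p₂ := by ring
          _ ≤ p₁ * p₂ * p₃ := Nat.mul_le_mul_left _ hp₂₃.le
          _ = m := hmeq
          _ ≤ 3 * x := hm3
      have hle1 : p₁ ≤ 3 * x := (Nat.le_of_dvd (by omega) (Nat.dvd_of_mem_primeFactors m1.1)).trans hm3
      have hle2 : p₂ ≤ 3 * x := (Nat.le_of_dvd (by omega) (Nat.dvd_of_mem_primeFactors m2.1)).trans hm3
      unfold SL
      rw [mem_image]
      refine ⟨(p₁, p₂), ?_, rfl⟩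
      rw [mem_filter, mem_product, mem_filter, mem_filter, mem_range, mem_range]
      refine ⟨⟨⟨by simp only; omega, P1, ?_, m1.2⟩, by simp only; omega, P2, not_le.1 m2.2⟩, hle⟩
      exact hlarge p₁ P1 (Nat.dvd_of_mem_primeFactors m1.1)
    · have : m / (p₁ * p₂) = p₃ := by
        rw [← hmeq]
        exact Nat.mul_div_cancel_left _ (Nat.mul_pos P1.pos P2.pos)
      rw [this]
      exact P3
  rw [if_pos hM, hc1]
  norm_num

end Pool.Agent.H36.IS2

end

section

/-!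
# ISP LossN: the size of the loss

`DP_cof_up`: for a ≤ x^(7/10): DP(x/a) log x/x ≤ (1 + ε)(1/a)/(1 - log a/log x)   (as `DP_cof` in Pool/Agent/H76/ISE/DPa.lean, with the upper bound of
 `DP_pnt`: y = x/a (floor) → ∞ uniformly, DP y ≤ (1+ε') y/log y, and t/log t is increasing for t ≥ e.)
Cells: α_0 = 0.09, α_j = ca j + ν (j ≥ 1), β_0 = 0.3348, β_k = cb k + ν (k ≥ 1).  A pair (p₁,p₂) with p₁ p₂² ≤ 3x < x^(1+ν) lies in a cell (j,k) with
 j + 2k < 40.  In a cell: 1/(1 - log a/log x) ≤ 1/(1 - ca (j+1) - cb (k+1) - 2ν) and ∑ 1/(p₁p₂) ≤ ∑ fn p₁ ∑ fn p₂ (`mert_cell`).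
ν is chosen by continuity from `loss_num`.
-/

set_option autoImplicit false

namespace Pool.Agent.H36.IS2

open Finset Filter Pool.Agent.H36.IS Pool.Agent.H76.ISE

theorem DP_cof_up (ε : ℝ) (hε : 0 < ε) : ∀ᶠ x : ℕ in atTop, ∀ a : ℕ, 0 < a → (a : ℝ) ≤ (x : ℝ) ^ (7 / 10 : ℝ) →
    DP (x / a) * Real.log x / x ≤ (1 + ε) * (1 / (a : ℝ) * (1 / (1 - Real.log a / Real.log x))) := by
  obtain ⟨Y, hY⟩ := eventually_atTop.1 (DP_pnt ε hε)
  have ht : Tendsto (fun x : ℕ => (x : ℝ) ^ (3 / 10 : ℝ)) atTop atTop :=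
    (tendsto_rpow_atTop (by norm_num)).comp tendsto_natCast_atTop_atTop
  filter_upwards [ht.eventually_ge_atTop (Y + 4 : ℝ), eventually_ge_atTop 2] with x hx3 hx2 a ha hax
  have hxR : (2 : ℝ) ≤ x := by exact_mod_cast hx2
  have hx0 : (0 : ℝ) < x := by linarith only [hxR]
  have haR : (1 : ℝ) ≤ a := by exact_mod_cast ha
  have ha0 : (0 : ℝ) < a := by linarith only [haR]
  -- x / a is large
  have hq : (x : ℝ) ^ (3 / 10 : ℝ) ≤ x / a := by
    rw [le_div_iff₀ ha0]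
    calc (x : ℝ) ^ (3 / 10 : ℝ) * a ≤ (x : ℝ) ^ (3 / 10 : ℝ) * (x : ℝ) ^ (7 / 10 : ℝ) :=
          mul_le_mul_of_nonneg_left hax (by positivity)
      _ = x := by
          rw [← Real.rpow_add hx0]
          norm_num
  have hfl : (x : ℝ) / a - 1 < ((x / a : ℕ) : ℝ) := by
    have := Nat.lt_floor_add_one ((x : ℝ) / a)
    rw [Nat.floor_div_natCast, Nat.floor_natCast] at this
    linarith only [this]
  have hfl2 : ((x / a : ℕ) : ℝ) ≤ x / a := Nat.cast_div_le
  set y : ℕ := x / a with hy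
  have hY0 : (0 : ℝ) ≤ Y := Nat.cast_nonneg Y
  have hyY : Y ≤ y := by
    have : (Y : ℝ) ≤ y := by linarith only [hx3, hq, hfl]
    exact_mod_cast this
  have hy3 : (3 : ℝ) < y := by linarith only [hx3, hq, hfl]
  have he : Real.exp 1 ≤ y := by
    have := Real.exp_one_lt_d9
    linarith only [hx3, hq, hfl, this]
  have hy0 : (0 : ℝ) < y := by linarith only [hx3, hq, hfl]
  have hlogy : 0 < Real.log y := Real.log_pos (by linarith only [hx3, hq, hfl])
  have hDP := (hY y hyY).2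
  have hlogx : 0 < Real.log x := Real.log_pos (by linarith only [hxR])
  have hX0 : (0 : ℝ) < x / a := div_pos hx0 ha0
  have hlX : 0 < Real.log ((x : ℝ) / a) := Real.log_pos (by linarith only [hx3, hq])
  have hlog : Real.log ((x : ℝ) / a) = Real.log x - Real.log a := Real.log_div hx0.ne' ha0.ne'
  have hmono : (y : ℝ) / Real.log y ≤ (x / a) / Real.log ((x : ℝ) / a) := by
    have h1 := Real.log_div_self_antitoneOn (a := (y : ℝ)) (b := (x : ℝ) / a) he (he.trans hfl2) hfl2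
    simp only at h1
    rw [div_le_div_iff₀ hX0 hy0] at h1
    rw [div_le_div_iff₀ hlogy hlX]
    linarith only [h1]
  have hd : 0 < Real.log x - Real.log a := by rw [← hlog]; exact hlX
  have h6 : 1 / (1 - Real.log a / Real.log x) = Real.log x / (Real.log x - Real.log a) := by
    have : 1 - Real.log a / Real.log x = (Real.log x - Real.log a) / Real.log x := by
      field_simp
    rw [this, one_div_div]
  rw [h6]
  have h7 : DP y ≤ (1 + ε) * ((x / a) / (Real.log x - Real.log a)) := by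
    rw [← hlog]
    exact hDP.trans (mul_le_mul_of_nonneg_left hmono (by linarith only [hε]))
  have h8 : (1 + ε) * (1 / (a : ℝ) * (Real.log x / (Real.log x - Real.log a))) =
      (1 + ε) * ((x / a) / (Real.log x - Real.log a)) * Real.log x / x := by
    field_simp
  rw [h8]
  apply div_le_div_of_nonneg_right _ hx0.le
  exact mul_le_mul_of_nonneg_right h7 hlogx.le

/-- the bound as a function of `ν` -/
private noncomputable def Hn (ν : ℝ) : ℝ := ∑ j ∈ range 40, ∑ k ∈ range 20,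
  (if j + 2 * k < 40 then (1 + ν) * ((Real.log ((ca (j + 1) + ν) / ca j) + ν) * (Real.log ((cb (k + 1) + ν) / cb k) + ν)) /
    (1 - (ca (j + 1) + ν) - (cb (k + 1) + ν)) else 0)

private theorem ca_pos (j : ℕ) : 0 < ca j := by unfold ca; positivity

private theorem cb_pos (j : ℕ) : 0 < cb j := by unfold cb; positivity

private theorem den_pos {j k : ℕ} (h : j + 2 * k < 40) : 0.3 < 1 - ca (j + 1) - cb (k + 1) := by
  have h1 : (j : ℝ) + 2 * k ≤ 39 := by exact_mod_cast (by omega : j + 2 * k ≤ 39)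
  have h2 : (0 : ℝ) ≤ k := Nat.cast_nonneg k
  unfold ca cb
  push_cast
  norm_num
  linarith only [h1]

private theorem Hn_lim : Tendsto Hn (nhds 0) (nhds (Hn 0)) := by
  unfold Hn
  refine tendsto_finsetSum _ (fun j _ => tendsto_finsetSum _ (fun k _ => ?_))
  split_ifs with h
  · have hd := den_pos h
    have h1 : ContinuousAt (fun ν : ℝ => (1 + ν) * ((Real.log ((ca (j + 1) + ν) / ca j) + ν) *
        (Real.log ((cb (k + 1) + ν) / cb k) + ν)) / (1 - (ca (j + 1) + ν) - (cb (k + 1) + ν))) 0 := by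
      have e1 : ContinuousAt (fun ν : ℝ => Real.log ((ca (j + 1) + ν) / ca j)) 0 := by
        apply ContinuousAt.log
        · fun_prop
        · have := div_pos (ca_pos (j + 1)) (ca_pos j)
          simp only [add_zero]
          exact this.ne'
      have e2 : ContinuousAt (fun ν : ℝ => Real.log ((cb (k + 1) + ν) / cb k)) 0 := by
        apply ContinuousAt.log
        · fun_prop
        · have := div_pos (cb_pos (k + 1)) (cb_pos k)
          simp only [add_zero]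
          exact this.ne'
      apply ContinuousAt.div
      · fun_prop
      · fun_prop
      · simp only [add_zero]
        norm_num at hd
        linarith only [hd]
    exact h1
  · exact tendsto_const_nhds

private theorem Hn_zero : Hn 0 ≤ 2 * 0.2867 := by
  have h := loss_num
  have h1 : Hn 0 = ∑ j ∈ range 40, ∑ k ∈ range 20,
    (if j + 2 * k < 40 then Real.log (ca (j + 1) / ca j) * Real.log (cb (k + 1) / cb k) /
      (1 - ca (j + 1) - cb (k + 1)) else 0) := by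
    unfold Hn
    simp
  rw [h1]
  linarith only [h]

private theorem Hn_ex : ∃ ν : ℝ, 0 < ν ∧ ν ≤ 0.0001 ∧ Hn ν ≤ 2 * 0.2868 := by
  have h1 : ∀ᶠ ν in nhds (0 : ℝ), Hn ν < 2 * 0.2868 :=
    Hn_lim.eventually_lt_const (lt_of_le_of_lt Hn_zero (by norm_num))
  have h2 : ∀ᶠ ν in nhdsWithin (0 : ℝ) (Set.Ioi 0), Hn ν < 2 * 0.2868 := h1.filter_mono nhdsWithin_le_nhds
  have h3 : ∀ᶠ ν in nhdsWithin (0 : ℝ) (Set.Ioi 0), ν ∈ Set.Ioo (0 : ℝ) 0.0001 :=
    Ioo_mem_nhdsGT (by norm_num)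
  obtain ⟨ν, h4, h5⟩ := (h2.and h3).exists
  exact ⟨ν, h5.1, h5.2.le, h4.le⟩

private noncomputable def aa (ν : ℝ) (j : ℕ) : ℝ := if j = 0 then 0.09 else ca j + ν

private noncomputable def bb (ν : ℝ) (k : ℕ) : ℝ := if k = 0 then 0.3348 else cb k + ν

private theorem aa_ge {ν : ℝ} (hν : 0 < ν) (j : ℕ) : ca j ≤ aa ν j := by
  unfold aa
  split_ifs with h
  · rw [h]; unfold ca; norm_num
  · linarith only [hν]

private theorem bb_ge {ν : ℝ} (hν : 0 < ν) (j : ℕ) : cb j ≤ bb ν j := by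
  unfold bb
  split_ifs with h
  · rw [h]; unfold cb; norm_num
  · linarith only [hν]

private theorem aa_succ (ν : ℝ) (j : ℕ) : aa ν (j + 1) = ca (j + 1) + ν := by
  unfold aa
  rw [if_neg (Nat.succ_ne_zero j)]

private theorem bb_succ (ν : ℝ) (j : ℕ) : bb ν (j + 1) = cb (j + 1) + ν := by
  unfold bb
  rw [if_neg (Nat.succ_ne_zero j)]

private theorem find_cell (f : ℕ → ℝ) (u : ℝ) (N : ℕ) (h0 : f 0 < u) (hN : u ≤ f (N + 1)) :
    ∃ j, j ≤ N ∧ f j < u ∧ u ≤ f (j + 1) := by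
  classical
  have hex : ∃ j, u ≤ f (j + 1) := ⟨N, hN⟩
  refine ⟨Nat.find hex, Nat.find_min' hex hN, ?_, Nat.find_spec hex⟩
  rcases Nat.eq_zero_or_pos (Nat.find hex) with h | h
  · rw [h]; exact h0
  · have := Nat.find_min hex (m := Nat.find hex - 1) (by omega)
    rw [Nat.sub_add_cancel h] at this
    exact not_le.1 this

private theorem cells {ν u v : ℝ} (hν : 0 < ν) (hu : 0.09 < u) (hv : 0.3348 < v)
    (h : u + 2 * v < 1 + ν) : ∃ j k, j < 40 ∧ k < 20 ∧ j + 2 * k < 40 ∧ (aa ν j < u ∧ u ≤ aa ν (j + 1)) ∧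
      (bb ν k < v ∧ v ≤ bb ν (k + 1)) := by
  obtain ⟨j, hj, h1, h2⟩ := find_cell (aa ν) u 39 (by unfold aa; rw [if_pos rfl]; exact hu) (by
    rw [aa_succ]
    unfold ca
    norm_num at hv ⊢
    linarith only [h, hv])
  obtain ⟨k, hk, h3, h4⟩ := find_cell (bb ν) v 19 (by unfold bb; rw [if_pos rfl]; exact hv) (by
    rw [bb_succ]
    unfold cb
    norm_num at hu ⊢
    linarith only [hν, h, hu])
  refine ⟨j, k, by omega, by omega, ?_, ⟨h1, h2⟩, ⟨h3, h4⟩⟩
  by_contra hc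
  have hc1 : (40 : ℝ) ≤ j + 2 * k := by
    push Not at hc
    exact_mod_cast hc
  have h5 : aa ν j + 2 * bb ν k < 1 + ν := by linarith only [h, h1, h3]
  have h6 := aa_ge hν j
  have h7 := bb_ge hν k
  have h8 : 1 ≤ ca j + 2 * cb k := by
    unfold ca cb
    norm_num
    linarith only [hc1]
  rcases Nat.eq_zero_or_pos j with hj0 | hj0
  · have hk0 : k ≠ 0 := by
      rintro rfl
      subst hj0
      norm_num at hc1
    have : bb ν k = cb k + ν := by unfold bb; rw [if_neg hk0]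
    linarith only [hk, hc, hj0]
  · have : aa ν j = ca j + ν := by unfold aa; rw [if_neg (by omega)]
    linarith only [h, h1, h3, h7, h8, this]

private theorem sum_image_le' {α β : Type*} [DecidableEq β] (T : Finset α) (f : α → β) (g : β → ℝ) (hg : ∀ b, 0 ≤ g b) :
    ∑ a ∈ T.image f, g a ≤ ∑ t ∈ T, g (f t) := by
  rw [← Finset.sum_fiberwise_of_maps_to (fun t ht => Finset.mem_image_of_mem f ht) (fun t => g (f t))]
  apply Finset.sum_le_sum
  intro b hb
  obtain ⟨t, ht, hf⟩ := Finset.mem_image.1 hb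
  refine le_trans (le_of_eq (by rw [hf])) (Finset.single_le_sum (f := fun t => g (f t)) (fun t _ => hg _)
    (Finset.mem_filter.2 ⟨ht, hf⟩))

private theorem DP_nonneg (x : ℕ) : 0 ≤ DP x := by
  unfold DP
  have : Nat.primeCounting x ≤ Nat.primeCounting (2 * x) := Nat.monotone_primeCounting (by omega)
  have : (Nat.primeCounting x : ℝ) ≤ Nat.primeCounting (2 * x) := by exact_mod_cast this
  linarith only [this]

private noncomputable def CC (x : ℕ) (a b : ℝ) : Finset ℕ :=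
  (PX x).filter (fun p : ℕ => (x : ℝ) ^ a < p ∧ (p : ℝ) ≤ (x : ℝ) ^ b)

private theorem CC_mert (ν : ℝ) (hν : 0 < ν) (f g : ℕ → ℝ) (j : ℕ) (h0 : 0 < g j) (h1 : g j ≤ f j)
    (h2 : f j ≤ f (j + 1)) (h3 : f (j + 1) ≤ 1) : ∀ᶠ x : ℕ in atTop,
      ∑ p ∈ CC x (f j) (f (j + 1)), fn p ≤ Real.log (f (j + 1) / g j) + ν := by
  filter_upwards [mert_cell (f j) (f (j + 1)) ν (lt_of_lt_of_le h0 h1) h2 h3 hν] with x hx
  unfold CC
  refine hx.trans ?_
  have h4 : 0 < f j := lt_of_lt_of_le h0 h1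
  have h5 : 0 < f (j + 1) := lt_of_lt_of_le h4 h2
  have : Real.log (f (j + 1) / f j) ≤ Real.log (f (j + 1) / g j) :=
    Real.log_le_log (div_pos h5 h4) (div_le_div_of_nonneg_left h5.le h0 h1)
  linarith only [this]

private theorem aa_mono {ν : ℝ} (hν : 0 < ν) (j : ℕ) : aa ν j ≤ aa ν (j + 1) := by
  rw [aa_succ]
  unfold aa
  split_ifs with h
  · subst h
    have : ca (0 + 1) = 0.09601 := by
      unfold ca
      norm_num
    rw [this]
    norm_num
    linarith only [hν]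
  · have : ca (j + 1) = ca j + 0.00601 := by
      unfold ca
      push_cast
      ring
    rw [this]
    norm_num

private theorem bb_mono {ν : ℝ} (hν : 0 < ν) (j : ℕ) : bb ν j ≤ bb ν (j + 1) := by
  rw [bb_succ]
  unfold bb
  split_ifs with h
  · subst h
    have : cb (0 + 1) = 0.34081 := by
      unfold cb
      norm_num
    rw [this]
    norm_num
    linarith only [hν]
  · have : cb (j + 1) = cb j + 0.00601 := by
      unfold cb
      push_cast
      ring
    rw [this]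
    norm_num

private theorem aa_le {ν : ℝ} (hν : ν ≤ 0.0001) {j : ℕ} (hj : j < 40) : aa ν (j + 1) ≤ 1 := by
  rw [aa_succ]
  have : ((j : ℝ) + 1) ≤ 40 := by exact_mod_cast hj
  unfold ca
  push_cast
  norm_num at hν ⊢
  linarith only [this, hν]

private theorem bb_le {ν : ℝ} (hν : ν ≤ 0.0001) {j : ℕ} (hj : j < 20) : bb ν (j + 1) ≤ 1 := by
  rw [bb_succ]
  have : ((j : ℝ) + 1) ≤ 20 := by exact_mod_cast hj
  unfold cb
  push_cast
  norm_num at hν ⊢
  linarith only [this, hν]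

private theorem fnn {p : ℕ} (hp : p.Prime) : 1 / (p : ℝ) ≤ fn p := by
  unfold fn
  have : (1 : ℝ) < p := by exact_mod_cast hp.one_lt
  exact one_div_le_one_div_of_le (by linarith only [this]) (by linarith only [])

private theorem CC_prime {x : ℕ} {a b : ℝ} {p : ℕ} (hp : p ∈ CC x a b) : p.Prime := by
  unfold CC PX at hp
  rw [Finset.mem_filter, Finset.mem_filter] at hp
  exact hp.1.2.1

private theorem fn_nonneg {x : ℕ} {a b : ℝ} {p : ℕ} (hp : p ∈ CC x a b) : 0 ≤ fn p :=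
  le_trans (by positivity) (fnn (CC_prime hp))

private theorem LossN_z0 {δ : ℝ} (hδ : 0 < δ) : ∀ᶠ x : ℕ in atTop, z0 x ≤ (x : ℝ) ^ δ := by
  have h1 : Tendsto (fun x : ℕ => Real.log (Real.log (x : ℝ))) atTop atTop :=
    Real.tendsto_log_atTop.comp (Real.tendsto_log_atTop.comp tendsto_natCast_atTop_atTop)
  filter_upwards [h1.eventually (eventually_ge_atTop (1 + 1 / δ)), eventually_ge_atTop 2] with x hx hx1
  have hx0 : (1 : ℝ) < x := by exact_mod_cast (by omega : 1 < x)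
  have hL : 0 < Real.log (x : ℝ) := Real.log_pos hx0
  unfold z0
  rw [Real.rpow_def_of_pos (by linarith only [hx0])]
  apply Real.exp_le_exp.2
  have hd : 0 < 1 / δ := by positivity
  have h2 : 1 / δ ≤ (Real.log (Real.log x)) ^ 2 := by
    have h3 : 1 ≤ Real.log (Real.log x) := by linarith only [hx, hd]
    nlinarith only [hx]
  rw [div_le_iff₀ (by linarith only [hd, h2])]
  have h3 := mul_le_mul_of_nonneg_left h2 hδ.le
  rw [mul_one_div_cancel hδ.ne'] at h3
  have h4 := mul_le_mul_of_nonneg_left h3 hL.le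
  linarith only [h4]

theorem loss_val : ∀ᶠ x : ℕ in atTop,
    1 / 2 * ((∑ a ∈ SL x 0.09 0.3348, DP (x / a)) * Real.log x / x) ≤ (0.2868 : ℝ) := by
  classical
  obtain ⟨ν, hν0, hν1, hH⟩ := Hn_ex
  have hA : ∀ᶠ x : ℕ in atTop, ∀ j ∈ range 40,
      ∑ p ∈ CC x (aa ν j) (aa ν (j + 1)), fn p ≤ Real.log ((ca (j + 1) + ν) / ca j) + ν := by
    rw [Filter.eventually_all_finset]
    intro j hj
    have := CC_mert ν hν0 (aa ν) ca j (ca_pos j) (aa_ge hν0 j) (aa_mono hν0 j) (aa_le hν1 (Finset.mem_range.1 hj))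
    filter_upwards [this] with x hx
    rw [aa_succ] at hx ⊢
    exact hx
  have hB : ∀ᶠ x : ℕ in atTop, ∀ k ∈ range 20,
      ∑ p ∈ CC x (bb ν k) (bb ν (k + 1)), fn p ≤ Real.log ((cb (k + 1) + ν) / cb k) + ν := by
    rw [Filter.eventually_all_finset]
    intro j hj
    have := CC_mert ν hν0 (bb ν) cb j (cb_pos j) (bb_ge hν0 j) (bb_mono hν0 j) (bb_le hν1 (Finset.mem_range.1 hj))
    filter_upwards [this] with x hx
    rw [bb_succ] at hx ⊢
    exact hx
  have h3 : ∀ᶠ x : ℕ in atTop, (3 : ℝ) < (x : ℝ) ^ ν :=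
    ((tendsto_rpow_atTop hν0).comp tendsto_natCast_atTop_atTop).eventually (eventually_gt_atTop 3)
  filter_upwards [hA, hB, h3, DP_cof_up ν hν0, SL_cof 0.00001 (by norm_num) (by norm_num), LossN_z0 (δ := 0.09) (by norm_num),
    eventually_ge_atTop 2] with x hAx hBx h3x hDP hSL hz hx2
  have hx1 : (1 : ℝ) < x := by exact_mod_cast (by omega : 1 < x)
  have hx0 : (0 : ℝ) < x := by linarith only [hx1]
  have hL : 0 < Real.log (x : ℝ) := Real.log_pos hx1
  set T := (((range (3 * x + 1)).filter (fun p : ℕ => p.Prime ∧ (x : ℝ) ^ (0.09 : ℝ) < p ∧ (p : ℝ) ≤ (x : ℝ) ^ (0.3348 : ℝ)) ×ˢ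
    (range (3 * x + 1)).filter (fun p : ℕ => p.Prime ∧ (x : ℝ) ^ (0.3348 : ℝ) < p)).filter
      (fun pq : ℕ × ℕ => pq.1 * pq.2 ^ 2 ≤ 3 * x)) with hT
  have hSLT : SL x 0.09 0.3348 = T.image (fun pq : ℕ × ℕ => pq.1 * pq.2) := by
    rw [hT]
    unfold SL
    congr
  have e1 : ∑ a ∈ SL x 0.09 0.3348, DP (x / a) ≤ ∑ t ∈ T, DP (x / (t.1 * t.2)) := by
    rw [hSLT]
    exact sum_image_le' T (fun pq : ℕ × ℕ => pq.1 * pq.2) (fun a => DP (x / a)) (fun a => DP_nonneg _)
  have e2 : ∀ t ∈ T, DP (x / (t.1 * t.2)) * Real.log x / x ≤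
      ∑ j ∈ range 40, ∑ k ∈ range 20, if j + 2 * k < 40 then
        (if t ∈ CC x (aa ν j) (aa ν (j + 1)) ×ˢ CC x (bb ν k) (bb ν (k + 1)) then
          (1 + ν) * (fn t.1 * fn t.2) / (1 - (ca (j + 1) + ν) - (cb (k + 1) + ν)) else 0) else 0 := by
    intro t ht
    have hcof := hSL (t.1 * t.2) (by rw [hSLT]; exact Finset.mem_image_of_mem _ ht)
    rw [hT, Finset.mem_filter, Finset.mem_product, Finset.mem_filter, Finset.mem_filter] at ht
    obtain ⟨⟨⟨_, hp1, hp2, hp3⟩, ⟨_, hq1, hq2⟩⟩, hpq⟩ := ht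
    have hp0 : (0 : ℝ) < t.1 := by exact_mod_cast hp1.pos
    have hq0 : (0 : ℝ) < t.2 := by exact_mod_cast hq1.pos
    set u := Real.log t.1 / Real.log x with hu
    set v := Real.log t.2 / Real.log x with hv
    have hpu : (t.1 : ℝ) = (x : ℝ) ^ u := by
      rw [Real.rpow_def_of_pos hx0, hu, mul_div_cancel₀ _ hL.ne', Real.exp_log hp0]
    have hqv : (t.2 : ℝ) = (x : ℝ) ^ v := by
      rw [Real.rpow_def_of_pos hx0, hv, mul_div_cancel₀ _ hL.ne', Real.exp_log hq0]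
    have hu1 : 0.09 < u := by
      rw [hpu] at hp2
      exact (Real.rpow_lt_rpow_left_iff hx1).1 hp2
    have hv1 : 0.3348 < v := by
      rw [hqv] at hq2
      exact (Real.rpow_lt_rpow_left_iff hx1).1 hq2
    have huv : u + 2 * v < 1 + ν := by
      have h4 : (x : ℝ) ^ (u + 2 * v) < (x : ℝ) ^ (1 + ν) := by
        rw [Real.rpow_add hx0, Real.rpow_add hx0, Real.rpow_one, ← hpu, mul_comm 2 v, Real.rpow_mul hx0.le, ← hqv]
        have h5 : (t.1 : ℝ) * (t.2 : ℝ) ^ 2 ≤ 3 * x := by exact_mod_cast hpq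
        have h6 : ((t.2 : ℝ)) ^ (2 : ℝ) = (t.2 : ℝ) ^ 2 := by
          rw [← Real.rpow_natCast]
          norm_num
        rw [h6]
        refine lt_of_le_of_lt h5 ?_
        rw [mul_comm]
        exact mul_lt_mul_of_pos_left h3x hx0
      exact (Real.rpow_lt_rpow_left_iff hx1).1 h4
    obtain ⟨j, k, hj, hk, hjk, ⟨ha1, ha2⟩, ⟨hb1, hb2⟩⟩ := cells hν0 hu1 hv1 huv
    have hd := den_pos hjk
    have hu2 : u ≤ 1 := ha2.trans (aa_le hν1 hj)
    have hv2 : v ≤ 1 := hb2.trans (bb_le hν1 hk)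
    have hmem1 : t.1 ∈ CC x (aa ν j) (aa ν (j + 1)) := by
      unfold CC PX
      rw [Finset.mem_filter, Finset.mem_filter, Finset.mem_range]
      refine ⟨⟨?_, hp1, lt_of_le_of_lt hz hp2⟩, ?_, ?_⟩
      · have : (t.1 : ℝ) ≤ x := by
          rw [hpu]
          calc (x : ℝ) ^ u ≤ (x : ℝ) ^ (1 : ℝ) := Real.rpow_le_rpow_of_exponent_le hx1.le hu2
            _ = x := Real.rpow_one _
        have : t.1 ≤ x := by exact_mod_cast this
        omega
      · rw [hpu]
        exact (Real.rpow_lt_rpow_left_iff hx1).2 ha1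
      · rw [hpu]
        exact (Real.rpow_le_rpow_left_iff hx1).2 ha2
    have hmem2 : t.2 ∈ CC x (bb ν k) (bb ν (k + 1)) := by
      unfold CC PX
      rw [Finset.mem_filter, Finset.mem_filter, Finset.mem_range]
      refine ⟨⟨?_, hq1, lt_of_le_of_lt hz (lt_of_le_of_lt ?_ hq2)⟩, ?_, ?_⟩
      · have : (t.2 : ℝ) ≤ x := by
          rw [hqv]
          calc (x : ℝ) ^ v ≤ (x : ℝ) ^ (1 : ℝ) := Real.rpow_le_rpow_of_exponent_le hx1.le hv2
            _ = x := Real.rpow_one _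
        have : t.2 ≤ x := by exact_mod_cast this
        omega
      · exact Real.rpow_le_rpow_of_exponent_le hx1.le (by norm_num)
      · rw [hqv]
        exact (Real.rpow_lt_rpow_left_iff hx1).2 hb1
      · rw [hqv]
        exact (Real.rpow_le_rpow_left_iff hx1).2 hb2
    have hnn : ∀ j ∈ range 40, ∀ k ∈ range 20, 0 ≤ (if j + 2 * k < 40 then
        (if t ∈ CC x (aa ν j) (aa ν (j + 1)) ×ˢ CC x (bb ν k) (bb ν (k + 1)) then
          (1 + ν) * (fn t.1 * fn t.2) / (1 - (ca (j + 1) + ν) - (cb (k + 1) + ν)) else 0) else 0) := by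
      intro j _ k _
      split_ifs with h1 h2
      · have h3 := den_pos h1
        rw [Finset.mem_product] at h2
        apply div_nonneg
        · exact mul_nonneg (by linarith only [hν0]) (mul_nonneg (fn_nonneg h2.1) (fn_nonneg h2.2))
        · norm_num at h3 hν1
          linarith only [h3, hν1]
      · exact le_rfl
      · exact le_rfl
    refine le_trans ?_ (Finset.single_le_sum (fun j hj => Finset.sum_nonneg (hnn j hj)) (Finset.mem_range.2 hj))
    refine le_trans ?_ (Finset.single_le_sum (hnn j (Finset.mem_range.2 hj)) (Finset.mem_range.2 hk))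
    rw [if_pos hjk, if_pos (Finset.mem_product.2 ⟨hmem1, hmem2⟩)]
    have h7 := hDP (t.1 * t.2) hcof.1 hcof.2.1
    refine h7.trans ?_
    have h8 : Real.log ((t.1 * t.2 : ℕ) : ℝ) / Real.log x = u + v := by
      push_cast
      rw [Real.log_mul hp0.ne' hq0.ne', add_div]
    rw [h8, mul_div_assoc]
    apply mul_le_mul_of_nonneg_left _ (by linarith only [hν0])
    have h9 : 0 < 1 - (ca (j + 1) + ν) - (cb (k + 1) + ν) := by
      norm_num at hd hν1
      linarith only [hd, hν1]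
    rw [div_eq_mul_one_div (fn t.1 * fn t.2)]
    rw [aa_succ] at ha2
    rw [bb_succ] at hb2
    apply mul_le_mul
    · push_cast
      rw [← one_div_mul_one_div]
      exact mul_le_mul (fnn hp1) (fnn hq1) (by positivity) (fn_nonneg hmem1)
    · exact one_div_le_one_div_of_le h9 (by linarith only [ha2, hb2])
    · exact one_div_nonneg.2 (by linarith only [hν1, hv1, huv])
    · exact mul_nonneg (fn_nonneg hmem1) (fn_nonneg hmem2)
  have e3 : (∑ a ∈ SL x 0.09 0.3348, DP (x / a)) * Real.log x / x ≤ Hn ν := by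
    calc (∑ a ∈ SL x 0.09 0.3348, DP (x / a)) * Real.log x / x ≤ (∑ t ∈ T, DP (x / (t.1 * t.2))) * Real.log x / x := by
          apply div_le_div_of_nonneg_right _ hx0.le
          exact mul_le_mul_of_nonneg_right e1 hL.le
      _ = ∑ t ∈ T, DP (x / (t.1 * t.2)) * Real.log x / x := by
          rw [Finset.sum_mul, Finset.sum_div]
      _ ≤ ∑ t ∈ T, ∑ j ∈ range 40, ∑ k ∈ range 20, (if j + 2 * k < 40 then
        (if t ∈ CC x (aa ν j) (aa ν (j + 1)) ×ˢ CC x (bb ν k) (bb ν (k + 1)) then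
          (1 + ν) * (fn t.1 * fn t.2) / (1 - (ca (j + 1) + ν) - (cb (k + 1) + ν)) else 0) else 0) :=
          Finset.sum_le_sum e2
      _ = ∑ j ∈ range 40, ∑ k ∈ range 20, ∑ t ∈ T, (if j + 2 * k < 40 then
        (if t ∈ CC x (aa ν j) (aa ν (j + 1)) ×ˢ CC x (bb ν k) (bb ν (k + 1)) then
          (1 + ν) * (fn t.1 * fn t.2) / (1 - (ca (j + 1) + ν) - (cb (k + 1) + ν)) else 0) else 0) := by
          rw [Finset.sum_comm]
          refine Finset.sum_congr rfl (fun j _ => ?_)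
          rw [Finset.sum_comm]
      _ ≤ Hn ν := by
          unfold Hn
          refine Finset.sum_le_sum (fun j hj => Finset.sum_le_sum (fun k hk => ?_))
          by_cases hjk : j + 2 * k < 40
          · simp only [if_pos hjk]
            have hd := den_pos hjk
            have h9 : 0 < 1 - (ca (j + 1) + ν) - (cb (k + 1) + ν) := by
              norm_num at hd hν1
              linarith only [hd, hν1]
            rw [← Finset.sum_filter]
            calc ∑ t ∈ T.filter (fun t => t ∈ CC x (aa ν j) (aa ν (j + 1)) ×ˢ CC x (bb ν k) (bb ν (k + 1))),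
                  (1 + ν) * (fn t.1 * fn t.2) / (1 - (ca (j + 1) + ν) - (cb (k + 1) + ν))
                ≤ ∑ t ∈ CC x (aa ν j) (aa ν (j + 1)) ×ˢ CC x (bb ν k) (bb ν (k + 1)),
                  (1 + ν) * (fn t.1 * fn t.2) / (1 - (ca (j + 1) + ν) - (cb (k + 1) + ν)) := by
                  apply Finset.sum_le_sum_of_subset_of_nonneg
                  · intro t ht
                    exact (Finset.mem_filter.1 ht).2
                  · intro t ht _
                    rw [Finset.mem_product] at ht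
                    apply div_nonneg _ h9.le
                    exact mul_nonneg (by linarith only [hν0]) (mul_nonneg (fn_nonneg ht.1) (fn_nonneg ht.2))
              _ = (1 + ν) * ((∑ p ∈ CC x (aa ν j) (aa ν (j + 1)), fn p) *
                  (∑ p ∈ CC x (bb ν k) (bb ν (k + 1)), fn p)) / (1 - (ca (j + 1) + ν) - (cb (k + 1) + ν)) := by
                  rw [← Finset.sum_div, ← Finset.mul_sum, Finset.sum_product, Finset.sum_mul_sum]
              _ ≤ _ := by
                  apply div_le_div_of_nonneg_right _ h9.le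
                  apply mul_le_mul_of_nonneg_left _ (by linarith only [hν0])
                  have h10 : 0 ≤ ∑ p ∈ CC x (bb ν k) (bb ν (k + 1)), fn p :=
                    Finset.sum_nonneg (fun p hp => fn_nonneg hp)
                  have h11 : 0 ≤ ∑ p ∈ CC x (aa ν j) (aa ν (j + 1)), fn p :=
                    Finset.sum_nonneg (fun p hp => fn_nonneg hp)
                  exact mul_le_mul (hAx j hj) (hBx k hk) h10 (h11.trans (hAx j hj))
          · simp only [if_neg hjk]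
            simp
  linarith only [hH, e3]

end Pool.Agent.H36.IS2

end
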