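import Pool.Agent.H15.TB1.M100
import Pool.Agent.H15.TB1.M101
import Pool.Agent.H15.TB1.M57
import Pool.Agent.H15.TB1.M67
import Pool.Agent.H15.TB1.M69
import Pool.Agent.H15.TB1.M82
import Pool.Agent.H15.TB1.M99

/-! The parts of this file: H36.IS2.LossT, H36.IS2.MarkV, H36.IS2.FinV. -/

section

/-!
# ISP LossT: upper bound for the sum over the marks with cofactors in a set S (no uniqueness needed)

Copy of Pool/Agent/H76/ISE/SumE.lean without step (1): [MkS S m] ≤ ∑_{a ∈ S} [Mk1 a m], so ∑_{MkS} Ly² ≤ ∑_{a ∈ S} ∑_{Mk1 a} Ly².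
For n with Mk1 a (n + h i), n > x, a ≤ x^(7/10) with all prime factors > x^δ: no atom of Si x δ i occurs (δ ≤ 3/10; `SumE_yy_zero`-like;
only the condition on the prime factors is used), so Ly(y)² = Ly(v)² and `trQ` (for every a; class level x^(2θ) ≤ x^(1/10)) gives
≤ Mn DP(x/a)/(x A0) My(v) + x/(a L^A').  ∑_{a ∈ S} 1/a ≤ 1 + log x + .. (a ≤ x).
-/

set_option autoImplicit false

namespace Pool.Agent.H36.IS2

open Finset Filter Pool.Agent.H36.IS Pool.Agent.H76.ISE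

section

variable {ι : Type} [Fintype ι] [DecidableEq ι]

private def LossT_CofW (x : ℕ) (δ : ℝ) (a : ℕ) : Prop :=
  0 < a ∧ (a : ℝ) ≤ (x : ℝ) ^ (7 / 10 : ℝ) ∧ ∀ p : ℕ, p.Prime → p ∣ a → (x : ℝ) ^ δ < p

private theorem LossT_EZ_sub (x : ℕ) (δ : ℝ) : EZ ι x δ ⊆ EX ι x := by
  intro e he
  unfold EZ at he
  unfold EX
  rw [mem_product] at he ⊢
  exact ⟨he.1, filter_subset _ _ he.2⟩

private theorem LossT_Si_sub (x : ℕ) (δ : ℝ) (i : ι) : Si x δ i ⊆ EZ ι x δ := by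
  intro e he
  unfold Si at he
  unfold EZ
  rw [mem_product] at he ⊢
  exact ⟨mem_univ _, he.2⟩

private theorem LossT_mem_Si {x : ℕ} {δ : ℝ} {i : ι} {e : ι × ℕ} :
    e ∈ Si x δ i ↔ e.1 = i ∧ e.2 ∈ PZ x δ := by
  unfold Si
  rw [mem_product, mem_singleton]

private theorem LossT_hg (x : ℕ) (δ : ℝ) : ∀ e ∈ EZ ι x δ, 0 < gi e ∧ gi e < 1 := fun e he =>
  (fo_gi (LossT_EZ_sub (ι := ι) x δ he)).2

private theorem LossT_yy (h : ι → ℕ) (n : ℕ) (e : ι × ℕ) : yy h n e = 0 ∨ yy h n e = 1 := by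
  unfold yy
  split_ifs
  · exact Or.inr rfl
  · exact Or.inl rfl

private theorem LossT_yy_zero {h : ι → ℕ} {n x a : ℕ} {δ : ℝ} {i : ι} (hδ1 : δ ≤ 3 / 10) (hn : x < n)
    (hx : 1 ≤ x) (ha : LossT_CofW x δ a) (hm : Mk1 a (n + h i)) :
    ∀ e ∈ Si x δ i, yy h n e = 0 := by
  intro e he
  obtain ⟨h1, h2⟩ := LossT_mem_Si.1 he
  unfold PZ PX at h2
  rw [mem_filter, mem_filter, mem_range] at h2
  obtain ⟨⟨h3, h4, _⟩, h5⟩ := h2
  unfold yy
  rw [if_neg]
  intro hd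
  rw [h1] at hd
  obtain ⟨ha0, ha1, ha2⟩ := ha
  obtain ⟨hm1, hm2⟩ := hm
  have hmul : a * ((n + h i) / a) = n + h i := Nat.mul_div_cancel' hm1
  rw [← hmul] at hd
  have hx1 : (1 : ℝ) ≤ x := by exact_mod_cast hx
  have hx0 : (0 : ℝ) < x := by linarith only [hx1]
  rcases (Nat.Prime.dvd_mul h4).1 hd with hd' | hd'
  · have := ha2 e.2 h4 hd'
    linarith only [h5, this]
  · have h6 := (Nat.prime_dvd_prime_iff_eq h4 hm2).1 hd'
    rw [← h6] at hmul
    have h7 : (x : ℝ) < a * e.2 := by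
      have : x < a * e.2 := by omega
      exact_mod_cast this
    have h8 : (e.2 : ℝ) ≤ (x : ℝ) ^ (3 / 10 : ℝ) :=
      h5.trans (Real.rpow_le_rpow_of_exponent_le hx1 hδ1)
    have h9 : (a : ℝ) * e.2 ≤ (x : ℝ) ^ (7 / 10 : ℝ) * (x : ℝ) ^ (3 / 10 : ℝ) :=
      mul_le_mul ha1 h8 (Nat.cast_nonneg _) (Real.rpow_nonneg hx0.le _)
    rw [← Real.rpow_add hx0] at h9
    norm_num at h9
    linarith only [h7, h9]

private theorem LossT_harm {x : ℕ} {S : Finset ℕ} (hS : ∀ a ∈ S, 0 < a ∧ a ≤ x) :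
    ∑ a ∈ S, 1 / (a : ℝ) ≤ 1 + Real.log x := by
  have h1 := harmonic_le_one_add_log x
  rw [harmonic_eq_sum_Icc] at h1
  push_cast at h1
  refine le_trans ?_ h1
  calc ∑ a ∈ S, 1 / (a : ℝ) = ∑ a ∈ S, (a : ℝ)⁻¹ := sum_congr rfl fun a _ => one_div _
    _ ≤ ∑ a ∈ Icc 1 x, (a : ℝ)⁻¹ := by
      refine sum_le_sum_of_subset_of_nonneg ?_ fun a _ _ => by positivity
      intro a ha
      exact mem_Icc.mpr (hS a ha)

open Classical in
/-- the basic sum over the marks with cofactor `a` for arrays without atoms in component `i` -/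
private theorem LossT_core (ι : Type) [Fintype ι] [DecidableEq ι] (h : ι → ℕ) (W b : ℕ) (hG : Good h W b) (B1 : ℕ)
    (δ θ : ℝ) (hδ : 0 < δ) (hθ1 : θ ≤ 1 / 20) (A : ℕ) :
    ∀ᶠ x : ℕ in atTop, ∀ i : ι, ∀ v : Finset (ι × ℕ) → ℝ, Yok x δ θ (Real.log x ^ B1) v →
      (∀ R, v R ≠ 0 → Disjoint R (Si x δ i)) → ∀ a : ℕ, LossT_CofW x δ a →
      |∑ n ∈ (AA h W b x).filter (fun n => Mk1 a (n + h i)), Ly h x δ v n ^ 2 -
        Mn ι W x * (DP (x / a) / (x * A0 x)) * My ι x δ v| ≤ x / (a * Real.log x ^ A) := by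
  obtain ⟨B, hB⟩ := cls_lam ι B1
  have hT : ∀ᶠ x : ℕ in atTop, ∀ i : ι, ∀ a : ℕ,
      0 < a → (a : ℝ) ≤ (x : ℝ) ^ (7 / 10 : ℝ) → (∀ p : ℕ, p.Prime → p ∣ a → (x : ℝ) ^ δ < p) →
      ∀ c : Finset (ι × ℕ) → ℝ, Cls x (B + B) (2 + 2 + 2 * 2) ((x : ℝ) ^ (1 / 10 : ℝ)) c →
      (∀ Q, c Q ≠ 0 → ∀ e ∈ Q, e.1 ≠ i) →
      |∑ n ∈ (AA h W b x).filter (fun n => Mk1 a (n + h i)), Ev (EX ι x) c (yy h n) -
          Mn ι W x * (DP (x / a) / (x * A0 x)) * Ev (EX ι x) c gi| ≤ x / (a * Real.log x ^ A) :=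
    eventually_all.2 fun i => trQ ι h W b hG i (B + B) (2 + 2 + 2 * 2) δ (by norm_num) hδ A
  have hlog : ∀ᶠ x : ℕ in atTop, 1 ≤ Real.log x :=
    (Real.tendsto_log_atTop.comp tendsto_natCast_atTop_atTop).eventually_ge_atTop 1
  filter_upwards [hB, hT, hlog, eventually_ge_atTop 1] with x hx hI hx1 hx2
  intro i v hv hvd a ha
  have hx1' : (1 : ℝ) ≤ x := by exact_mod_cast hx2
  have hx0 : (0 : ℝ) < x := by linarith only [hx1']
  have hc := hx δ θ v hv
  have hsup : ∀ D, lam (EZ ι x δ) gi v D ≠ 0 → D ⊆ EZ ι x δ \ Si x δ i := by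
    intro D hD
    obtain ⟨R, h1, h2, h3⟩ := lam_sup hD
    intro e he
    rw [Finset.mem_sdiff]
    exact ⟨h2 (h1 he), fun h4 => (Finset.disjoint_left.1 (hvd R h3)) (h1 he) h4⟩
  have hsup' : ∀ D, lam (EZ ι x δ) gi v D ≠ 0 → D ⊆ EZ ι x δ := fun D hD =>
    (hsup D hD).trans sdiff_subset
  have hcc := cls_uc hx1 (by norm_num) (by norm_num) (Real.rpow_nonneg hx0.le _) (Real.rpow_nonneg hx0.le _) hc hc
  rw [← Real.rpow_add hx0] at hcc
  have hcc2 := hcc.mono hx1 le_rfl (by norm_num) le_rfl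
    (Real.rpow_le_rpow_of_exponent_le hx1' (by linarith only [hθ1] : θ + θ ≤ 1 / 10))
  have hne : ∀ Q, uc (EX ι x) (lam (EZ ι x δ) gi v) (lam (EZ ι x δ) gi v) Q ≠ 0 → ∀ e ∈ Q, e.1 ≠ i := by
    intro Q hQ e he h1
    have h2 := (uc_sup hsup hsup Q hQ).1 he
    rw [union_self, Finset.mem_sdiff] at h2
    refine h2.2 (LossT_mem_Si.2 ⟨h1, ?_⟩)
    have h3 := h2.1
    unfold EZ at h3
    exact (mem_product.1 h3).2
  have hmain := hI i a ha.1 ha.2.1 (fun p hp hpa => ha.2.2 p hp hpa) _ hcc2 hne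
  have hsup2 : ∀ Q, uc (EZ ι x δ) (lam (EZ ι x δ) gi v) (lam (EZ ι x δ) gi v) Q ≠ 0 → Q ⊆ EZ ι x δ :=
    fun Q hQ => (uc_sup hsup' hsup' Q hQ).2
  have hEv : ∀ z : ι × ℕ → ℝ, Ev (EX ι x) (uc (EX ι x) (lam (EZ ι x δ) gi v) (lam (EZ ι x δ) gi v)) z =
      Ev (EZ ι x δ) (uc (EZ ι x δ) (lam (EZ ι x δ) gi v) (lam (EZ ι x δ) gi v)) z := by
    intro z
    rw [uc_ground (LossT_EZ_sub x δ) hsup' hsup', Ev_sup (LossT_EZ_sub x δ) hsup2]
  have h1 : ∀ n, Ev (EX ι x) (uc (EX ι x) (lam (EZ ι x δ) gi v) (lam (EZ ι x δ) gi v)) (yy h n) =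
      Ly h x δ v n ^ 2 := by
    intro n
    rw [hEv, Ev_uc _ _ (fun e _ => LossT_yy h n e), sq]
    rfl
  have h2 : Ev (EX ι x) (uc (EX ι x) (lam (EZ ι x δ) gi v) (lam (EZ ι x δ) gi v)) gi = My ι x δ v := by
    rw [hEv, EE_lam (LossT_hg x δ)]
    unfold My MM
    refine sum_congr rfl fun R _ => ?_
    rw [sq]
  rw [h2] at hmain
  simp only [h1] at hmain
  exact hmain

end

open Classical in
theorem lossT (ι : Type) [Fintype ι] [DecidableEq ι] (h : ι → ℕ) (W b : ℕ) (hG : Good h W b) (B1 : ℕ) (δ θ : ℝ)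
    (hδ : 0 < δ) (hδ1 : δ ≤ 3 / 10) (hθ : 0 ≤ θ) (hθ1 : θ ≤ 1 / 20) (A : ℕ) :
    ∀ᶠ x : ℕ in atTop, ∀ S : Finset ℕ,
      (∀ a ∈ S, 0 < a ∧ (a : ℝ) ≤ (x : ℝ) ^ (7 / 10 : ℝ) ∧ ∀ p : ℕ, p.Prime → p ∣ a → (x : ℝ) ^ δ < p) →
      ∀ y : Finset (ι × ℕ) → ℝ, Yok x δ θ (Real.log x ^ B1) y → ∀ i,
      ∑ n ∈ (AA h W b x).filter (fun n => MkS S (n + h i)), Ly h x δ y n ^ 2 ≤
        Mn ι W x * ((∑ a ∈ S, DP (x / a)) / (x * A0 x)) * My ι x δ (pr (Si x δ i) (fo gi) y) +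
          x / Real.log x ^ A := by
  obtain ⟨B, hB⟩ := yok_pr ι B1
  have hlog : ∀ᶠ x : ℕ in atTop, 2 ≤ Real.log x :=
    (Real.tendsto_log_atTop.comp tendsto_natCast_atTop_atTop).eventually_ge_atTop 2
  filter_upwards [hB, LossT_core ι h W b hG B δ θ hδ hθ1 (A + 2), hlog, eventually_ge_atTop 1]
    with x hx hI hL hx2
  intro S hS y hy i
  have hx1' : (1 : ℝ) ≤ x := by exact_mod_cast hx2
  have hx0 : (0 : ℝ) < x := by linarith only [hx1']
  have hL0 : 0 < Real.log x := by linarith only [hL]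
  set v := pr (Si x δ i) (fo gi) y with hv
  have hvY := hx δ θ y (Si x δ i) (LossT_Si_sub x δ i) hy
  have hvd : ∀ R, v R ≠ 0 → Disjoint R (Si x δ i) := fun R hR => (pr_disj hR).1
  have hmem : ∀ n ∈ AA h W b x, x < n := by
    intro n hn
    unfold AA at hn
    rw [mem_filter, mem_Ioc] at hn
    exact hn.1.1
  -- the sum is at most a sum over the cofactors
  have hsum0 : ∑ n ∈ (AA h W b x).filter (fun n => MkS S (n + h i)), Ly h x δ y n ^ 2 ≤
      ∑ a ∈ S, ∑ n ∈ (AA h W b x).filter (fun n => Mk1 a (n + h i)), Ly h x δ y n ^ 2 := by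
    simp only [sum_filter]
    rw [sum_comm]
    refine sum_le_sum fun n _ => ?_
    have hnn : ∀ a ∈ S, (0 : ℝ) ≤ if Mk1 a (n + h i) then Ly h x δ y n ^ 2 else 0 := by
      intro a _
      split_ifs
      · exact sq_nonneg _
      · exact le_rfl
    by_cases hm : MkS S (n + h i)
    · rw [if_pos hm]
      obtain ⟨a, ha, hma⟩ := hm
      refine le_trans ?_ (single_le_sum hnn ha)
      rw [if_pos hma]
    · rw [if_neg hm]
      exact sum_nonneg hnn
  have hsum : ∑ a ∈ S, ∑ n ∈ (AA h W b x).filter (fun n => Mk1 a (n + h i)), Ly h x δ y n ^ 2 =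
      ∑ a ∈ S, ∑ n ∈ (AA h W b x).filter (fun n => Mk1 a (n + h i)), Ly h x δ v n ^ 2 := by
    refine sum_congr rfl fun a ha => sum_congr rfl fun n hn => ?_
    rw [mem_filter] at hn
    have h1 : Ly h x δ y n = Ly h x δ v n := by
      unfold Ly
      exact (Ev_lam_pr (LossT_Si_sub x δ i) (LossT_hg x δ) y
        (LossT_yy_zero hδ1 (hmem n hn.1) hx2 (hS a ha) hn.2)).symm
    rw [h1]
  have hmain : Mn ι W x * ((∑ a ∈ S, DP (x / a)) / (x * A0 x)) * My ι x δ v =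
      ∑ a ∈ S, Mn ι W x * (DP (x / a) / (x * A0 x)) * My ι x δ v := by
    rw [sum_div, mul_sum, sum_mul]
  have hax : ∀ a ∈ S, 0 < a ∧ a ≤ x := by
    intro a ha
    refine ⟨(hS a ha).1, ?_⟩
    have h1 := (hS a ha).2.1
    have h2 : (x : ℝ) ^ (7 / 10 : ℝ) ≤ (x : ℝ) ^ (1 : ℝ) :=
      Real.rpow_le_rpow_of_exponent_le hx1' (by norm_num)
    rw [Real.rpow_one] at h2
    exact_mod_cast h1.trans h2
  have herr : ∑ a ∈ S, (x : ℝ) / (a * Real.log x ^ (A + 2)) ≤ x / Real.log x ^ A := by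
    calc ∑ a ∈ S, (x : ℝ) / (a * Real.log x ^ (A + 2))
        = x / Real.log x ^ (A + 2) * ∑ a ∈ S, 1 / (a : ℝ) := by
          rw [mul_sum]
          refine sum_congr rfl fun a ha => ?_
          have h1 : (a : ℝ) ≠ 0 := by exact_mod_cast (hS a ha).1.ne'
          field_simp
      _ ≤ x / Real.log x ^ (A + 2) * (Real.log x ^ 2) := by
          refine mul_le_mul_of_nonneg_left ((LossT_harm hax).trans ?_) (by positivity)
          nlinarith only [hL]
      _ = x / Real.log x ^ A := by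
          rw [pow_add]
          field_simp
  calc ∑ n ∈ (AA h W b x).filter (fun n => MkS S (n + h i)), Ly h x δ y n ^ 2
      ≤ ∑ a ∈ S, ∑ n ∈ (AA h W b x).filter (fun n => Mk1 a (n + h i)), Ly h x δ v n ^ 2 :=
        hsum0.trans hsum.le
    _ ≤ ∑ a ∈ S, (Mn ι W x * (DP (x / a) / (x * A0 x)) * My ι x δ v + x / (a * Real.log x ^ (A + 2))) := by
        refine sum_le_sum fun a ha => ?_
        have := (abs_le.1 (hI i v hvY hvd a (hS a ha))).2
        linarith only [this]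
    _ ≤ _ := by
        rw [sum_add_distrib, hmain]
        linarith only [herr]

end Pool.Agent.H36.IS2

end

section

/-!
# ISP MarkV: the data of the signed sieve function for products of at most two primes

δ = θ = 0.00001, a = 0.4968, s = 61 (`U1_61`, `L1_61`), ε = 1e-9: levels 2θ + 61 δ + a < 1 and 2θ + 122 δ + 0.9936 = 0.99484 < 1.
Choose cA x, cB x from `arr_exists` (for the large x; 0 otherwise).  V1, V2, α = evM cA, β = evM cB; α + β ≤ 3 V2, α - β ≥ 0.196 V2.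
Φ x m = if (no prime ≤ z0 x divides m) and (no p ∈ PZ x δ divides m) then evD cA m - evD cB m else 0;
Ψ x m = (if MkS (SL x 0.09 0.3348) m then 1/2 else 0) + (if ∃ p prime, x^δ < p, p² ∣ m then 1 else 0).
l x = V1 ((1 - 2e-9) α - (1 + 2e-9) β);  q2 x = V1² ((1 + 2e-9)² (α² + β²) - 2 ((1-2e-9)² - (4e-9)²) α β);  q1 x = C²/GG (PZ x δ)(δ/2 log x) with 2C.. from `evD_bd`.
* n ∈ AA: no prime ≤ z0 x divides n + h i (p ∤ W: definition of AA; p ∣ W: n + h i ≡ b + h i is coprime to W), so Φ x (n + h i) is the difference of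
  the two terms of `sumN` (c = cA, c = cB).  Lower sum: `sumN` (lower for cA, upper for cB).  Pairs: Φ Φ' = A A' + B B' - A B' - B A': `sumNU` for (cA,cA), (cB,cB),
  `sumNL` for (cA,cB), (cB,cA).
* squares: Φ² ≤ (2C)² [rough] (`evD_bd`: 0 ≤ evD cA, evD cB ≤ C, m ≤ 4x), and ∑_{rough} Ly² ≤ Mn My(v)/GG + .. (`sumG`, `T_one` as in MarkR), q1 τ ≤ C'
  (`GG_low`: GG ≥ A0 δ/2 log x).
* loss: `lossT` with S = SL (`SL_cof`), 1/2 · (∑ DP(x/a))/(x A0) = (1/2)(∑ DP(x/a)) log x/x / τ ≤ 0.2868/τ (`loss_val`), squares `sqr_le`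
  (x^(1-δ/4) ≤ x/L^A); and t l ≥ 0.2355 l: l ≥ V1 V2 (0.196 - 2e-9 · 3) and V1 x δ V2 x δ 0.09 = V1 x 0.09 ≥ 0.5603/(0.09 τ) (`V2_pos`, `V1_sharp`, `gam_num`):
  0.2355 · 0.195999 · 6.22555 = 0.28736 ≥ 0.2868.  c' ≤ l τ: 1.2.
* q2 ≤ (1 + 1e-5) l²: (α-β)² ≥ (0.196 V2)², (α+β)² ≤ 9 V2² ≤ 235 (α-β)²; q2 ≤ V1²((α-β)² + 2e-8 (α+β)²), l ≥ V1 (α-β)(1 - 2e-9·15.4).
* pointwise: m > x, m ≤ 2x + s, ¬ R12 m: if m is not rough: Φ = 0 ≤ Ψ.  Otherwise Φ ≤ [no p ∈ PZ x 0.09 \ PZ x δ] (1 - N/2) ≤ Ψ by `loss_pt` (Ψ ≥ 0).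
-/

set_option autoImplicit false

namespace Pool.Agent.H36.IS2

open Finset Filter Pool.Agent.H36.IS Pool.Agent.H76.ISE

private theorem MarkV_A0 (x : ℕ) : 0 < A0 x := by
  unfold A0
  apply Finset.prod_pos
  intro p hp
  unfold PA at hp
  rw [Finset.mem_filter] at hp
  have h2 : (1 : ℝ) < p := by exact_mod_cast hp.2.1.one_lt
  have : 1 / (p : ℝ) < 1 := by
    rw [div_lt_one (by linarith only [h2])]
    exact h2
  linarith only [this]

private theorem MarkV_PZ {x : ℕ} {δ : ℝ} {p : ℕ} (hp : p ∈ PZ x δ) : p.Prime := by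
  unfold PZ PX at hp
  rw [Finset.mem_filter, Finset.mem_filter] at hp
  exact hp.1.2.1

private theorem MarkV_fac {x : ℕ} {δ : ℝ} {p : ℕ} (hp : p ∈ PZ x δ) : 0 < 1 - 1 / (p : ℝ) := by
  have h2 : (1 : ℝ) < p := by exact_mod_cast (MarkV_PZ hp).one_lt
  have : 1 / (p : ℝ) < 1 := by
    rw [div_lt_one (by linarith only [h2])]
    exact h2
  linarith only [this]

private theorem MarkV_V2 (x : ℕ) (δ ζ : ℝ) : 0 < V2 x δ ζ := by
  unfold V2
  apply Finset.prod_pos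
  intro p hp
  rw [Finset.mem_sdiff] at hp
  exact MarkV_fac hp.1

private theorem MarkV_V1 (x : ℕ) (δ : ℝ) : 0 < V1 x δ := by
  unfold V1
  exact Finset.prod_pos (fun p hp => MarkV_fac hp)

private theorem MarkV_split {x : ℕ} (hx : 1 ≤ x) {δ ζ : ℝ} (h : δ ≤ ζ) : V1 x δ * V2 x δ ζ = V1 x ζ := by
  unfold V1 V2
  have hs : PZ x δ ⊆ PZ x ζ := by
    intro p hp
    unfold PZ at hp ⊢
    rw [Finset.mem_filter] at hp ⊢
    refine ⟨hp.1, hp.2.trans (Real.rpow_le_rpow_of_exponent_le (by exact_mod_cast hx) h)⟩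
  rw [mul_comm]
  exact Finset.prod_sdiff hs

private theorem MarkV_GG (x : ℕ) (δ t : ℝ) (ht : 0 ≤ t) : 1 ≤ GG (PZ x δ) t := by
  unfold GG
  have h0 : ∀ S ∈ (PZ x δ).powerset, 0 ≤ (if lg S ≤ t then ∏ p ∈ S, fn p else 0) := by
    intro S hS
    rw [Finset.mem_powerset] at hS
    split_ifs
    · refine Finset.prod_nonneg (fun p hp => ?_)
      unfold fn
      have : (1 : ℝ) ≤ p := by exact_mod_cast (MarkV_PZ (hS hp)).one_lt.le
      exact div_nonneg zero_le_one (by linarith only [this])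
    · exact le_rfl
  refine le_trans (le_of_eq ?_) (Finset.single_le_sum h0 (Finset.empty_mem_powerset _))
  rw [if_pos (by unfold lg; simpa using ht)]
  simp

private theorem MarkV_prod {ι : Type} [Fintype ι] [DecidableEq ι] {x : ℕ} {δ ρ : ℝ} (hx : (0 : ℝ) < x)
    (A : Finset (ι × ℕ)) (hA : A ⊆ EZ ι x δ) (h : ∑ e ∈ A, Real.log e.2 ≤ ρ * Real.log x) :
    ∏ e ∈ A, (e.2 : ℝ) ≤ (x : ℝ) ^ ρ := by
  have hpos : ∀ e ∈ A, (0 : ℝ) < e.2 := by
    intro e he
    have := hA he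
    unfold EZ at this
    rw [Finset.mem_product] at this
    exact_mod_cast (MarkV_PZ this.2).pos
  rw [Real.rpow_def_of_pos hx, ← Real.exp_log (Finset.prod_pos hpos)]
  apply Real.exp_le_exp.mpr
  rw [Real.log_prod (fun e he => (hpos e he).ne')]
  linarith only [h]

private theorem MarkV_Si {ι : Type} [Fintype ι] [DecidableEq ι] (x : ℕ) (δ : ℝ) (i : ι) :
    Si x δ i ⊆ EZ ι x δ := by
  unfold Si EZ
  exact Finset.product_subset_product (Finset.subset_univ _) le_rfl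

private theorem MarkV_Mn {ι : Type} [Fintype ι] [DecidableEq ι] {h : ι → ℕ} {W b : ℕ}
    (hG : Good h W b) (x : ℕ) : 0 ≤ Mn ι W x := by
  unfold Mn
  refine mul_nonneg (by positivity) (Finset.prod_nonneg ?_)
  intro p hp
  unfold PS PA at hp
  rw [Finset.mem_filter, Finset.mem_filter] at hp
  have h1 := (hG.2.2 p hp.1.2.1 hp.2).1
  have h2 : (Fintype.card ι : ℝ) < p := by exact_mod_cast h1
  have h3 : (0 : ℝ) < p := by exact_mod_cast hp.1.2.1.pos
  have : (Fintype.card ι : ℝ) / p < 1 := by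
    rw [div_lt_one h3]
    exact h2
  linarith only [this]

private theorem MarkV_My {ι : Type} [Fintype ι] [DecidableEq ι] (x : ℕ) (δ : ℝ)
    (w : Finset (ι × ℕ) → ℝ) : 0 ≤ My ι x δ w := by
  unfold My MM
  apply Finset.sum_nonneg
  intro R hR
  rw [Finset.mem_powerset] at hR
  refine mul_nonneg (sq_nonneg _) (Finset.prod_nonneg ?_)
  intro e he
  have h1 := hR he
  unfold EZ at h1
  rw [Finset.mem_product] at h1
  have h2 : (1 : ℝ) < e.2 := by exact_mod_cast (MarkV_PZ h1.2).one_lt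
  have h3 : 1 / (e.2 : ℝ) < 1 := by
    rw [div_lt_one (by linarith only [h2])]
    exact h2
  unfold fo gi
  exact div_nonneg (by positivity) (by linarith only [h3])

private theorem MarkV_z0 : ∀ᶠ x : ℕ in atTop, z0 x ≤ x := by
  have h1 : Tendsto (fun x : ℕ => Real.log (Real.log (x : ℝ))) atTop atTop :=
    Real.tendsto_log_atTop.comp (Real.tendsto_log_atTop.comp tendsto_natCast_atTop_atTop)
  filter_upwards [h1.eventually (eventually_ge_atTop 1), eventually_ge_atTop 1] with x hx hx1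
  have hx0 : (0 : ℝ) < x := by exact_mod_cast hx1
  unfold z0
  have h2 : Real.log x / (Real.log (Real.log x)) ^ 2 ≤ Real.log x :=
    div_le_self (Real.log_nonneg (by exact_mod_cast hx1)) (one_le_pow₀ hx)
  calc Real.exp (Real.log x / (Real.log (Real.log x)) ^ 2) ≤ Real.exp (Real.log x) :=
        Real.exp_le_exp.2 h2
    _ = x := Real.exp_log hx0

private theorem MarkV_rough {ι : Type} [Fintype ι] [DecidableEq ι] {h : ι → ℕ} {W b : ℕ}
    (hG : Good h W b) {x : ℕ} (hz : z0 x ≤ x) {n : ℕ} (hn : n ∈ AA h W b x) (i : ι) :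
    ∀ p : ℕ, p.Prime → (p : ℝ) ≤ z0 x → ¬ p ∣ n + h i := by
  intro p hp hpz hd
  unfold AA at hn
  rw [Finset.mem_filter] at hn
  obtain ⟨_, hmod, hr⟩ := hn
  by_cases hW : p ∣ W
  · have h1 : n + h i ≡ b + h i [MOD W] := Nat.ModEq.add_right _ hmod
    have h2 : n + h i ≡ b + h i [MOD p] := h1.of_dvd hW
    have h3 : p ∣ b + h i := (Nat.ModEq.dvd_iff h2 dvd_rfl).1 hd
    have h4 := Nat.dvd_gcd h3 hW
    rw [(hG.2.1 i)] at h4
    exact hp.one_lt.ne' (Nat.dvd_one.1 h4)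
  · refine hr i p ?_ hd
    unfold PS PA
    rw [Finset.mem_filter, Finset.mem_filter, Finset.mem_range]
    refine ⟨⟨?_, hp, hpz⟩, hW⟩
    have : (p : ℝ) ≤ x := hpz.trans hz
    have : p ≤ x := by exact_mod_cast this
    omega

private theorem MarkV_err (δ : ℝ) (hδ : 0 < δ) (A : ℕ) (M : ℝ) (hM : 0 ≤ M) : ∀ᶠ x : ℕ in atTop,
    (x : ℝ) ^ (1 - δ / 4) + M * ((x : ℝ) / Real.log x ^ (A + 1)) ≤ (x : ℝ) / Real.log x ^ A := by
  have h1 : (fun x : ℝ => Real.log x ^ (A : ℝ)) =o[atTop] (fun x : ℝ => x ^ (δ / 4)) :=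
    isLittleO_log_rpow_rpow_atTop (A : ℝ) (by positivity)
  have h2 := h1.def (show (0 : ℝ) < 1 / 2 by norm_num)
  have h3 := tendsto_natCast_atTop_atTop (R := ℝ) |>.eventually h2
  have h4 : ∀ᶠ x : ℕ in atTop, (2 * (M + 1)) ≤ Real.log x :=
    (Real.tendsto_log_atTop.comp (tendsto_natCast_atTop_atTop (R := ℝ))).eventually (eventually_ge_atTop _)
  filter_upwards [h3, h4, eventually_ge_atTop 1] with x hx hL hx1
  have hx0 : (0 : ℝ) < (x : ℝ) := by exact_mod_cast hx1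
  have hLpos : 0 < Real.log x := by linarith only [hM, hL]
  have hLA : 0 < Real.log x ^ A := pow_pos hLpos A
  rw [Real.norm_of_nonneg (Real.rpow_nonneg hLpos.le _), Real.norm_of_nonneg (Real.rpow_nonneg hx0.le _),
    Real.rpow_natCast] at hx
  have hq : 0 < (x : ℝ) ^ (δ / 4) := Real.rpow_pos_of_pos hx0 _
  have e1 : (x : ℝ) ^ (1 - δ / 4) = x / (x : ℝ) ^ (δ / 4) := by
    rw [Real.rpow_sub hx0, Real.rpow_one]
  have b1 : (x : ℝ) / (x : ℝ) ^ (δ / 4) ≤ (1 / 2) * (x / Real.log x ^ A) := by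
    rw [div_le_iff₀ hq]
    calc (x : ℝ) = (x / Real.log x ^ A) * Real.log x ^ A := by field_simp
      _ ≤ (x / Real.log x ^ A) * (1 / 2 * (x : ℝ) ^ (δ / 4)) :=
          mul_le_mul_of_nonneg_left hx (div_nonneg hx0.le hLA.le)
      _ = _ := by ring
  have b2 : M * ((x : ℝ) / Real.log x ^ (A + 1)) ≤ (1 / 2) * (x / Real.log x ^ A) := by
    rw [pow_succ, ← div_div, ← mul_div_assoc, div_le_iff₀ hLpos]
    have : 0 ≤ (x : ℝ) / Real.log x ^ A := div_nonneg hx0.le hLA.le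
    nlinarith only [hL, this]
  rw [e1]
  linarith only [b1, b2]

/-- the numerical part -/
private theorem MarkV_num {α β v1 v2 τ : ℝ} (hτ : 0 < τ) (hv1 : 0 < v1) (hv2 : 0 < v2) (hα : 0 ≤ α) (hβ : 0 ≤ β)
    (h1 : α + β ≤ 3 * v2) (h2 : 0.196 * v2 ≤ α - β) (h3 : 6.2255 ≤ v1 * v2 * τ) :
    1.2201 ≤ v1 * ((1 - 2e-9) * α - (1 + 2e-9) * β) * τ ∧
    0 ≤ v1 ^ 2 * ((1 + 2e-9) ^ 2 * (α ^ 2 + β ^ 2) - 2 * (((1 - 2e-9) ^ 2 - (4e-9) ^ 2) * (α * β))) ∧
    v1 ^ 2 * ((1 + 2e-9) ^ 2 * (α ^ 2 + β ^ 2) - 2 * (((1 - 2e-9) ^ 2 - (4e-9) ^ 2) * (α * β))) ≤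
      (1 + 0.00001) * (v1 * ((1 - 2e-9) * α - (1 + 2e-9) * β)) ^ 2 := by
  refine ⟨?_, ?_, ?_⟩
  · have e1 : (0.19599999 : ℝ) * v2 ≤ (1 - 2e-9) * α - (1 + 2e-9) * β := by
      norm_num at h1 h2 ⊢
      linarith only [hv2, h1, h2]
    have e2 := mul_le_mul_of_nonneg_left e1 (mul_pos hv1 hτ).le
    have e3 : v1 * τ * (0.19599999 * v2) = 0.19599999 * (v1 * v2 * τ) := by ring
    rw [e3] at e2
    have e4 := mul_le_mul_of_nonneg_left h3 (show (0 : ℝ) ≤ 0.19599999 by norm_num)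
    have e5 : (1.2201 : ℝ) ≤ 0.19599999 * 6.2255 := by norm_num
    have e6 : v1 * τ * ((1 - 2e-9) * α - (1 + 2e-9) * β) = v1 * ((1 - 2e-9) * α - (1 + 2e-9) * β) * τ := by ring
    rw [e6] at e2
    linarith only [h3, e2]
  · apply mul_nonneg (sq_nonneg _)
    have hab := mul_nonneg hα hβ
    have e1 : 2 * (((1 - 2e-9) ^ 2 - (4e-9) ^ 2) * (α * β)) ≤ 2 * (α * β) := by
      norm_num
      linarith only [hab]
    have e2 : α ^ 2 + β ^ 2 ≤ (1 + 2e-9) ^ 2 * (α ^ 2 + β ^ 2) := by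
      have : (0 : ℝ) ≤ α ^ 2 + β ^ 2 := by positivity
      norm_num
      linarith only [this]
    linarith only [e2, sq_nonneg (α - β)]
  · have e0 : (1 + 0.00001) * (v1 * ((1 - 2e-9) * α - (1 + 2e-9) * β)) ^ 2 =
      v1 ^ 2 * ((1 + 0.00001) * ((1 - 2e-9) * α - (1 + 2e-9) * β) ^ 2) := by ring
    rw [e0]
    apply mul_le_mul_of_nonneg_left _ (sq_nonneg _)
    set D := α - β with hD
    set S := α + β with hS
    have hD0 : 0 ≤ D := le_trans (by positivity) h2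
    have hS0 : 0 ≤ S := by positivity
    have hSD : S ≤ 15.4 * D := by
      norm_num at h1 h2 ⊢
      linarith only [hv2, h1, h2]
    have hSS : S ^ 2 ≤ 238 * D ^ 2 := by
      have := pow_le_pow_left₀ hS0 hSD 2
      refine this.trans ?_
      rw [mul_pow]
      apply mul_le_mul_of_nonneg_right _ (sq_nonneg _)
      norm_num
    have e1 : (1 + 2e-9) ^ 2 * (α ^ 2 + β ^ 2) - 2 * (((1 - 2e-9) ^ 2 - (4e-9) ^ 2) * (α * β)) ≤
        D ^ 2 + 4.1e-9 * S ^ 2 := by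
      have a1 : α ^ 2 + β ^ 2 = (S ^ 2 + D ^ 2) / 2 := by rw [hD, hS]; ring
      have a2 : α * β = (S ^ 2 - D ^ 2) / 4 := by rw [hD, hS]; ring
      rw [a1, a2]
      have : 0 ≤ S ^ 2 := sq_nonneg _
      have : 0 ≤ D ^ 2 := sq_nonneg _
      norm_num
      linarith
    have e2 : (1 - 3.1e-8) * D ≤ (1 - 2e-9) * α - (1 + 2e-9) * β := by
      have : (1 - 2e-9) * α - (1 + 2e-9) * β = D - 2e-9 * S := by rw [hD, hS]; ring
      rw [this]
      norm_num at hSD ⊢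
      linarith only [hv2, h2, h1]
    have e3 := pow_le_pow_left₀ (mul_nonneg (by norm_num) hD0) e2 2
    have hDD : 0 ≤ D ^ 2 := sq_nonneg _
    refine e1.trans ?_
    have e4 : (1 + 0.00001) * ((1 - 3.1e-8) * D) ^ 2 ≤ (1 + 0.00001) * ((1 - 2e-9) * α - (1 + 2e-9) * β) ^ 2 :=
      mul_le_mul_of_nonneg_left e3 (by norm_num)
    refine le_trans ?_ e4
    rw [mul_pow]
    norm_num at hSS ⊢
    linarith only [hSS, e1]

/-- the properties of the arrays at `x` -/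
private def MarkV_arr (x : ℕ) (c : (Finset ℕ → ℝ) × (Finset ℕ → ℝ)) : Prop :=
  ArrN x 0.00001 ((x : ℝ) ^ (0.4968 : ℝ)) c.1 ∧ ArrN x 0.00001 ((x : ℝ) ^ (0.4968 : ℝ)) c.2 ∧
    (∀ m, evD (PX x) c.1 m - evD (PX x) c.2 m ≤
      if ∀ p ∈ PZ x 0.09 \ PZ x 0.00001, ¬ p ∣ m then
        1 - 1 / 2 * (((PZ x 0.3348 \ PZ x 0.09).filter (fun q => q ∣ m)).card : ℝ) else 0) ∧
    evM (PX x) c.1 + evM (PX x) c.2 ≤ 3 * V2 x 0.00001 0.09 ∧
    0.196 * V2 x 0.00001 0.09 ≤ evM (PX x) c.1 - evM (PX x) c.2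

private theorem MarkV_choice : ∃ c : ℕ → (Finset ℕ → ℝ) × (Finset ℕ → ℝ), ∀ᶠ x : ℕ in atTop, MarkV_arr x (c x) := by
  have h1 : ∀ᶠ x : ℕ in atTop, ∃ c : (Finset ℕ → ℝ) × (Finset ℕ → ℝ), MarkV_arr x c :=
    (arr_exists 0.00001 (by norm_num) (by norm_num)).mono (fun x ⟨cA, cB, h⟩ => ⟨(cA, cB), h⟩)
  exact h1.choice

open Classical in
/-- the value of the array `c` at the integers without small prime factors -/
private noncomputable def vv (x : ℕ) (c : Finset ℕ → ℝ) (m : ℕ) : ℝ :=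
  if ∀ p ∈ PZ x 0.00001, ¬ p ∣ m then evD (PX x) c m else 0

open Classical in
private noncomputable def Phi (c : ℕ → (Finset ℕ → ℝ) × (Finset ℕ → ℝ)) (x m : ℕ) : ℝ :=
  if ∀ p : ℕ, p.Prime → (p : ℝ) ≤ z0 x → ¬ p ∣ m then vv x (c x).1 m - vv x (c x).2 m else 0

open Classical in
private noncomputable def Psi (x m : ℕ) : ℝ :=
  (if MkS (SL x 0.09 0.3348) m then 1 / 2 else 0) +
    (if ∃ p : ℕ, p.Prime ∧ (x : ℝ) ^ (0.00001 : ℝ) < p ∧ p ^ 2 ∣ m then 1 else 0)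

private theorem Psi_nonneg (x m : ℕ) : 0 ≤ Psi x m := by
  unfold Psi
  split_ifs <;> norm_num

private theorem vv_sq {x : ℕ} {c c' : Finset ℕ → ℝ} {m : ℕ} {C : ℝ} (h1 : 0 ≤ evD (PX x) c m) (h2 : 0 ≤ evD (PX x) c' m)
    (h3 : evD (PX x) c m ≤ C) (h4 : evD (PX x) c' m ≤ C) :
    (vv x c m - vv x c' m) ^ 2 ≤ C ^ 2 := by
  have : |vv x c m - vv x c' m| ≤ C := by
    unfold vv
    split_ifs
    · rw [abs_le]
      constructor <;> linarith only [h1, h4, h2, h3]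
    · simp
      linarith only [h1, h3]
  rw [← sq_abs]
  exact pow_le_pow_left₀ (abs_nonneg _) this 2

private theorem MarkV_pt (c : ℕ → (Finset ℕ → ℝ) × (Finset ℕ → ℝ)) (hc : ∀ᶠ x : ℕ in atTop, MarkV_arr x (c x)) (s : ℕ) :
    ∀ᶠ x : ℕ in atTop, ∀ m : ℕ, x < m → m ≤ 2 * x + s → ¬ R12 m → Phi c x m ≤ Psi x m := by
  filter_upwards [hc, loss_pt 0.00001 (by norm_num) (by norm_num) s] with x hx hl m hm1 hm2 hm3
  have hP := Psi_nonneg x m
  unfold Phi
  split_ifs with h1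
  · unfold vv
    by_cases h2 : ∀ p ∈ PZ x 0.00001, ¬ p ∣ m
    · rw [if_pos h2, if_pos h2]
      refine (hx.2.2.1 m).trans ?_
      split_ifs with h3
      · exact hl m hm1 hm2 hm3 h1 h2 h3
      · exact hP
    · rw [if_neg h2, if_neg h2, sub_self]
      exact hP
  · exact hP

private theorem MarkV_AA {ι : Type} [Fintype ι] [DecidableEq ι] {h : ι → ℕ} {W b : ℕ}
    (hG : Good h W b) {x : ℕ} (hz : z0 x ≤ x) (c : ℕ → (Finset ℕ → ℝ) × (Finset ℕ → ℝ)) {n : ℕ} (hn : n ∈ AA h W b x)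
    (i : ι) : Phi c x (n + h i) = vv x (c x).1 (n + h i) - vv x (c x).2 (n + h i) := by
  unfold Phi
  rw [if_pos (MarkV_rough hG hz hn i)]

/-- the numerical data at `x` -/
private theorem MarkV_dat (c : ℕ → (Finset ℕ → ℝ) × (Finset ℕ → ℝ)) (hc : ∀ᶠ x : ℕ in atTop, MarkV_arr x (c x)) :
    ∀ᶠ x : ℕ in atTop,
      1.2201 ≤ V1 x 0.00001 * ((1 - 2e-9) * evM (PX x) (c x).1 - (1 + 2e-9) * evM (PX x) (c x).2) * tau x ∧
      0 ≤ V1 x 0.00001 ^ 2 * ((1 + 2e-9) ^ 2 * (evM (PX x) (c x).1 ^ 2 + evM (PX x) (c x).2 ^ 2) -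
        2 * (((1 - 2e-9) ^ 2 - (4e-9) ^ 2) * (evM (PX x) (c x).1 * evM (PX x) (c x).2))) ∧
      V1 x 0.00001 ^ 2 * ((1 + 2e-9) ^ 2 * (evM (PX x) (c x).1 ^ 2 + evM (PX x) (c x).2 ^ 2) -
        2 * (((1 - 2e-9) ^ 2 - (4e-9) ^ 2) * (evM (PX x) (c x).1 * evM (PX x) (c x).2))) ≤
        (1 + 0.00001) * (V1 x 0.00001 *
          ((1 - 2e-9) * evM (PX x) (c x).1 - (1 + 2e-9) * evM (PX x) (c x).2)) ^ 2 := by
  filter_upwards [hc, V1_sharp 0.5603 0.09 gam_num (by norm_num) (by norm_num), eventually_ge_atTop 2]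
    with x hx hV hx2
  have hx1 : (1 : ℝ) < x := by
    have : 1 < x := by omega
    exact_mod_cast this
  have hL0 : 0 < Real.log (x : ℝ) := Real.log_pos hx1
  have htau : 0 < tau x := mul_pos (MarkV_A0 x) hL0
  refine MarkV_num htau (MarkV_V1 x _) (MarkV_V2 x 0.00001 0.09) hx.1.2.2 hx.2.1.2.2 hx.2.2.2.1 hx.2.2.2.2 ?_
  rw [MarkV_split (by omega) (by norm_num)]
  have h1 := mul_le_mul_of_nonneg_right hV htau.le
  refine le_trans ?_ h1
  have h2 : 0.5603 / (0.09 * tau x) * tau x = 0.5603 / 0.09 := by field_simp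
  rw [h2]
  norm_num

/-- the loss relative to the mean -/
private theorem MarkV_loss (c : ℕ → (Finset ℕ → ℝ) × (Finset ℕ → ℝ)) (hc : ∀ᶠ x : ℕ in atTop, MarkV_arr x (c x)) :
    ∀ᶠ x : ℕ in atTop, 1 / 2 * ((∑ a ∈ SL x 0.09 0.3348, DP (x / a)) / (x * A0 x)) ≤
      0.2355 * (V1 x 0.00001 * ((1 - 2e-9) * evM (PX x) (c x).1 - (1 + 2e-9) * evM (PX x) (c x).2)) := by
  filter_upwards [MarkV_dat c hc, loss_val, eventually_ge_atTop 2] with x hd hl hx2
  have hx1 : (1 : ℝ) < x := by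
    have : 1 < x := by omega
    exact_mod_cast this
  have hx0 : (0 : ℝ) < x := by linarith only [hx1]
  have hL0 : 0 < Real.log (x : ℝ) := Real.log_pos hx1
  have hA0 := MarkV_A0 x
  have htau : 0 < tau x := mul_pos hA0 hL0
  have h1 : 1 / 2 * ((∑ a ∈ SL x 0.09 0.3348, DP (x / a)) / (x * A0 x)) =
      1 / 2 * ((∑ a ∈ SL x 0.09 0.3348, DP (x / a)) * Real.log x / x) / tau x := by
    unfold tau
    field_simp
  rw [h1, div_le_iff₀ htau]
  refine hl.trans ?_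
  have h2 := mul_le_mul_of_nonneg_left hd.1 (show (0 : ℝ) ≤ 0.2355 by norm_num)
  rw [mul_assoc 0.2355]
  refine le_trans ?_ h2
  norm_num

theorem phi_two : PhiData R12 0.00001 0.00001 0.2355 0.00001 := by
  classical
  obtain ⟨c, hc⟩ := MarkV_choice
  obtain ⟨C0, hC0, hbd⟩ := evD_bd 0.00001 (by norm_num)
  refine ⟨Phi c, Psi,
    fun x => V1 x 0.00001 * ((1 - 2e-9) * evM (PX x) (c x).1 - (1 + 2e-9) * evM (PX x) (c x).2),
    fun x => C0 ^ 2 / GG (PZ x 0.00001) (0.000005 * Real.log x),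
    fun x => V1 x 0.00001 ^ 2 * ((1 + 2e-9) ^ 2 * (evM (PX x) (c x).1 ^ 2 + evM (PX x) (c x).2 ^ 2) -
        2 * (((1 - 2e-9) ^ 2 - (4e-9) ^ 2) * (evM (PX x) (c x).1 * evM (PX x) (c x).2))),
    1, 200000 * C0 ^ 2, by norm_num, by positivity, Psi_nonneg, ?_, MarkV_pt c hc, ?_⟩
  · filter_upwards [MarkV_dat c hc, GG_low, eventually_ge_atTop 2] with x hd hGG hx2
    have hx1 : (1 : ℝ) < x := by
      have : 1 < x := by omega
      exact_mod_cast this
    have hL0 : 0 < Real.log (x : ℝ) := Real.log_pos hx1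
    have hG1 := MarkV_GG x 0.00001 (0.000005 * Real.log x) (by positivity)
    have hg1 : 0 < GG (PZ x 0.00001) (0.000005 * Real.log x) := by linarith only [hG1]
    refine ⟨?_, by positivity, ?_, hd.2.1, hd.2.2⟩
    · refine le_trans ?_ hd.1
      norm_num
    · have h1 := hGG 0.00001 (by norm_num) (by norm_num) (0.000005 * Real.log x) (by positivity)
        (mul_le_mul_of_nonneg_right (by norm_num) hL0.le)
      rw [div_mul_eq_mul_div, div_le_iff₀ hg1]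
      have h2 : C0 ^ 2 * tau x = 200000 * C0 ^ 2 * (A0 x * (0.000005 * Real.log x)) := by
        unfold tau
        ring
      rw [h2]
      exact mul_le_mul_of_nonneg_left h1 (by positivity)
  · intro ι _ _ h W b hG K A
    have hK : ∀ᶠ x : ℕ in atTop, K ≤ Real.log (x : ℝ) ^ 1 := by
      simp only [pow_one]
      exact (Real.tendsto_log_atTop.comp tendsto_natCast_atTop_atTop).eventually (eventually_ge_atTop K)
    have hhi : ∀ᶠ x : ℕ in atTop, ∀ i : ι, h i ≤ 2 * x := by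
      rw [Filter.eventually_all]
      intro i
      filter_upwards [eventually_ge_atTop (h i)] with x hx
      omega
    filter_upwards [hK, hhi, hc, hbd, MarkV_z0, MarkV_loss c hc, SL_cof 0.00001 (by norm_num) (by norm_num),
      sumN ι h W b hG 1 0.00001 0.00001 0.4968 61 (1 - 1e-9) (1 + 1e-9) 1e-9 (by norm_num) (by norm_num)
        (by norm_num) (by norm_num) (by norm_num) (by norm_num) (by norm_num) L1_61 U1_61 (by norm_num)
        (by norm_num) (A + 1),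
      sumNU ι h W b hG 1 0.00001 0.00001 0.4968 61 (1 - 1e-9) (1 + 1e-9) 1e-9 (by norm_num) (by norm_num)
        (by norm_num) (by norm_num) (by norm_num) (by norm_num) (by norm_num) L1_61 U1_61 (by norm_num)
        (by norm_num) (A + 1),
      sumNL ι h W b hG 1 0.00001 0.00001 0.4968 61 (1 - 1e-9) (1 + 1e-9) 1e-9 (by norm_num) (by norm_num)
        (by norm_num) (by norm_num) (by norm_num) (by norm_num) (by norm_num) L1_61 U1_61 (by norm_num)
        (by norm_num) (by norm_num) (A + 1),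
      sumG ι h W b hG 1 0.00001 0.00001 0.000005 (by norm_num) (by norm_num) (by norm_num) (A + 1),
      lossT ι h W b hG 1 0.00001 0.00001 (by norm_num) (by norm_num) (by norm_num) (by norm_num) (A + 1),
      sqr_le ι h 1 0.00001 (by norm_num) (by norm_num),
      MarkV_err 0.00001 (by norm_num) A (C0 ^ 2 + 4) (by positivity), eventually_ge_atTop 2]
      with x hKx hhx hcx hbx hzx hlx hSx hN hNU hNL hg1 hLT hsq herr hx2
    intro y hy
    have hy' := hy.mono hKx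
    have hx1 : (1 : ℝ) < x := by
      have : 1 < x := by omega
      exact_mod_cast this
    have hxpos : (0 : ℝ) < x := by linarith only [hx1]
    have hL0 : 0 < Real.log (x : ℝ) := Real.log_pos hx1
    obtain ⟨hA, hB, _, _, _⟩ := hcx
    have hMn := MarkV_Mn hG x
    have hE0 : 0 ≤ (x : ℝ) / Real.log x ^ (A + 1) := by positivity
    have hEx : 0 ≤ (x : ℝ) ^ (1 - (0.00001 : ℝ) / 4) := by positivity
    have hCE : 0 ≤ C0 ^ 2 * ((x : ℝ) / Real.log x ^ (A + 1)) := by positivity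
    have herr' : (x : ℝ) ^ (1 - (0.00001 : ℝ) / 4) + C0 ^ 2 * ((x : ℝ) / Real.log x ^ (A + 1)) +
        4 * ((x : ℝ) / Real.log x ^ (A + 1)) ≤ x / Real.log x ^ A := by
      refine le_trans (le_of_eq (by ring)) herr
    -- the sums of `vv`
    have hN' : ∀ c' : Finset ℕ → ℝ, ArrN x 0.00001 ((x : ℝ) ^ (0.4968 : ℝ)) c' → ∀ i,
        Mn ι W x * ((1 - 2e-9) * V1 x 0.00001 * evM (PX x) c') *
            My ι x 0.00001 (pr (Si x 0.00001 i) (fo gi) y) - x / Real.log x ^ (A + 1) ≤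
          ∑ n ∈ AA h W b x, Ly h x 0.00001 y n ^ 2 * vv x c' (n + h i) ∧
        ∑ n ∈ AA h W b x, Ly h x 0.00001 y n ^ 2 * vv x c' (n + h i) ≤
          Mn ι W x * ((1 + 2e-9) * V1 x 0.00001 * evM (PX x) c') *
            My ι x 0.00001 (pr (Si x 0.00001 i) (fo gi) y) + x / Real.log x ^ (A + 1) := by
      intro c' hc' i
      have h1 := hN y hy' c' hc' i
      have e1 : (1 - 1e-9 - 1e-9 : ℝ) = 1 - 2e-9 := by norm_num
      have e2 : (1 + 1e-9 + 1e-9 : ℝ) = 1 + 2e-9 := by norm_num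
      rw [e1, e2] at h1
      unfold vv
      refine ⟨h1.1.trans (le_of_eq ?_), le_trans (le_of_eq ?_) h1.2⟩
      all_goals
        refine Finset.sum_congr rfl (fun n _ => ?_)
        congr
    have hNU' : ∀ c' : Finset ℕ → ℝ, ArrN x 0.00001 ((x : ℝ) ^ (0.4968 : ℝ)) c' → ∀ i j, i ≠ j →
        ∑ n ∈ AA h W b x, Ly h x 0.00001 y n ^ 2 * (vv x c' (n + h i) * vv x c' (n + h j)) ≤
          Mn ι W x * (((1 + 2e-9) * V1 x 0.00001) ^ 2 * (evM (PX x) c' * evM (PX x) c')) *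
            My ι x 0.00001 (pr (Si x 0.00001 i ∪ Si x 0.00001 j) (fo gi) y) + x / Real.log x ^ (A + 1) := by
      intro c' hc' i j hij
      have h1 := hNU y hy' c' c' hc' hc' i j hij
      have e2 : (1 + 1e-9 + 1e-9 : ℝ) = 1 + 2e-9 := by norm_num
      rw [e2] at h1
      unfold vv
      refine le_trans (le_of_eq ?_) h1
      refine Finset.sum_congr rfl (fun n _ => ?_)
      congr
    have hNL' : ∀ c' c'' : Finset ℕ → ℝ, ArrN x 0.00001 ((x : ℝ) ^ (0.4968 : ℝ)) c' →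
        ArrN x 0.00001 ((x : ℝ) ^ (0.4968 : ℝ)) c'' → ∀ i j, i ≠ j →
        Mn ι W x * (((1 - 2e-9) ^ 2 - (4e-9) ^ 2) * V1 x 0.00001 ^ 2 * (evM (PX x) c' * evM (PX x) c'')) *
            My ι x 0.00001 (pr (Si x 0.00001 i ∪ Si x 0.00001 j) (fo gi) y) - x / Real.log x ^ (A + 1) ≤
          ∑ n ∈ AA h W b x, Ly h x 0.00001 y n ^ 2 * (vv x c' (n + h i) * vv x c'' (n + h j)) := by
      intro c' c'' hc' hc'' i j hij
      have h1 := hNL y hy' c' c'' hc' hc'' i j hij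
      have e1 : (1 - 1e-9 - 1e-9 : ℝ) = 1 - 2e-9 := by norm_num
      have e2 : (1 + 1e-9 - (1 - 1e-9) + 2 * 1e-9 : ℝ) = 4e-9 := by norm_num
      rw [e1, e2] at h1
      unfold vv
      refine h1.trans (le_of_eq ?_)
      refine Finset.sum_congr rfl (fun n _ => ?_)
      congr
    refine ⟨fun i => ⟨?_, ?_, ?_⟩, fun i j hij => ?_⟩
    · -- lower sum
      have e1 : ∑ n ∈ AA h W b x, Ly h x 0.00001 y n ^ 2 * Phi c x (n + h i) =
          ∑ n ∈ AA h W b x, Ly h x 0.00001 y n ^ 2 * vv x (c x).1 (n + h i) -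
            ∑ n ∈ AA h W b x, Ly h x 0.00001 y n ^ 2 * vv x (c x).2 (n + h i) := by
        rw [← Finset.sum_sub_distrib]
        refine Finset.sum_congr rfl (fun n hn => ?_)
        rw [MarkV_AA hG hzx c hn i]
        ring
      rw [e1]
      have h1 := (hN' _ hA i).1
      have h2 := (hN' _ hB i).2
      have h3 : Mn ι W x * (V1 x 0.00001 * ((1 - 2e-9) * evM (PX x) (c x).1 - (1 + 2e-9) * evM (PX x) (c x).2)) *
          My ι x 0.00001 (pr (Si x 0.00001 i) (fo gi) y) =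
          Mn ι W x * ((1 - 2e-9) * V1 x 0.00001 * evM (PX x) (c x).1) *
            My ι x 0.00001 (pr (Si x 0.00001 i) (fo gi) y) -
          Mn ι W x * ((1 + 2e-9) * V1 x 0.00001 * evM (PX x) (c x).2) *
            My ι x 0.00001 (pr (Si x 0.00001 i) (fo gi) y) := by ring
      rw [h3]
      linarith only [herr, hE0, hEx, hCE, h1, h2]
    · -- squares
      have h1 := hg1 y (Si x 0.00001 i)
        (fun A => if ∑ e ∈ A, Real.log e.2 ≤ 0.000005 * Real.log x then (1 : ℝ) else 0)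
        (GG (PZ x 0.00001) (0.000005 * Real.log x)) hy' (MarkV_Si x 0.00001 i) (fun A => by
          by_cases hc : ∑ e ∈ A, Real.log e.2 ≤ 0.000005 * Real.log x
          · right; exact if_pos hc
          · left; exact if_neg hc)
        (fun A hA hne => by
          apply MarkV_prod hxpos A (hA.trans (MarkV_Si x 0.00001 i))
          by_contra hc
          exact hne (if_neg hc))
        (MarkV_GG x 0.00001 _ (by positivity)) (T_one x 0.00001 _ i)
      have h2 : ∑ n ∈ AA h W b x, Ly h x 0.00001 y n ^ 2 * Phi c x (n + h i) ^ 2 ≤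
          C0 ^ 2 * ∑ n ∈ (AA h W b x).filter (fun n => ∀ e ∈ Si x 0.00001 i, yy h n e = 0),
            Ly h x 0.00001 y n ^ 2 := by
        rw [Finset.mul_sum, Finset.sum_filter]
        apply Finset.sum_le_sum
        intro n hn
        rw [MarkV_AA hG hzx c hn i]
        have hnx : n ≤ 2 * x ∧ 0 < n := by
          unfold AA at hn
          rw [Finset.mem_filter, Finset.mem_Ioc] at hn
          omega
        have hb1 := hbx _ _ hA (n + h i) (by omega) (by have := hhx i; omega)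
        have hb2 := hbx _ _ hB (n + h i) (by omega) (by have := hhx i; omega)
        split_ifs with h4
        · have := vv_sq (hA.2.1 (n + h i)) (hB.2.1 (n + h i)) hb1 hb2
          rw [mul_comm]
          exact mul_le_mul_of_nonneg_right this (sq_nonneg _)
        · have h5 : ¬ ∀ p ∈ PZ x 0.00001, ¬ p ∣ n + h i := by
            intro h6
            apply h4
            intro e he
            unfold Si at he
            rw [Finset.mem_product, Finset.mem_singleton] at he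
            unfold yy
            rw [if_neg]
            rw [he.1]
            exact h6 e.2 he.2
          unfold vv
          rw [if_neg h5, if_neg h5]
          simp
      refine h2.trans ?_
      have h3 := mul_le_mul_of_nonneg_left h1 (show 0 ≤ C0 ^ 2 by positivity)
      refine h3.trans ?_
      have h4 : C0 ^ 2 * (Mn ι W x * (My ι x 0.00001 (pr (Si x 0.00001 i) (fo gi) y) /
          GG (PZ x 0.00001) (0.000005 * Real.log x)) + x / Real.log x ^ (A + 1)) =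
          Mn ι W x * (C0 ^ 2 / GG (PZ x 0.00001) (0.000005 * Real.log x)) *
            My ι x 0.00001 (pr (Si x 0.00001 i) (fo gi) y) + C0 ^ 2 * (x / Real.log x ^ (A + 1)) := by ring
      rw [h4]
      linarith only [herr, hE0, hEx]
    · -- loss
      have h1 := hLT (SL x 0.09 0.3348) hSx y hy' i
      have h2 := hsq 0.00001 y hy' i
      have h3 : ∑ n ∈ AA h W b x, Ly h x 0.00001 y n ^ 2 * Psi x (n + h i) ≤
          1 / 2 * ∑ n ∈ (AA h W b x).filter (fun n => MkS (SL x 0.09 0.3348) (n + h i)), Ly h x 0.00001 y n ^ 2 +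
          ∑ n ∈ (Ioc x (2 * x)).filter (fun n => ∃ p : ℕ, p.Prime ∧ (x : ℝ) ^ (0.00001 : ℝ) < p ∧ p ^ 2 ∣ n + h i),
            Ly h x 0.00001 y n ^ 2 := by
        have h4 : ∑ n ∈ AA h W b x, Ly h x 0.00001 y n ^ 2 * Psi x (n + h i) =
            1 / 2 * ∑ n ∈ (AA h W b x).filter (fun n => MkS (SL x 0.09 0.3348) (n + h i)), Ly h x 0.00001 y n ^ 2 +
            ∑ n ∈ (AA h W b x).filter (fun n => ∃ p : ℕ, p.Prime ∧ (x : ℝ) ^ (0.00001 : ℝ) < p ∧ p ^ 2 ∣ n + h i),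
              Ly h x 0.00001 y n ^ 2 := by
          rw [Finset.mul_sum, Finset.sum_filter, Finset.sum_filter, ← Finset.sum_add_distrib]
          refine Finset.sum_congr rfl (fun n _ => ?_)
          unfold Psi
          split_ifs <;> ring
        rw [h4]
        refine add_le_add_right ?_ _
        apply Finset.sum_le_sum_of_subset_of_nonneg
        · apply Finset.filter_subset_filter
          unfold AA
          exact Finset.filter_subset _ _
        · intro n _ _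
          exact sq_nonneg _
      refine h3.trans ?_
      have h5 : Mn ι W x * (1 / 2 * ((∑ a ∈ SL x 0.09 0.3348, DP (x / a)) / (x * A0 x))) *
            My ι x 0.00001 (pr (Si x 0.00001 i) (fo gi) y) ≤
          Mn ι W x * (0.2355 * (V1 x 0.00001 *
            ((1 - 2e-9) * evM (PX x) (c x).1 - (1 + 2e-9) * evM (PX x) (c x).2))) *
            My ι x 0.00001 (pr (Si x 0.00001 i) (fo gi) y) :=
        mul_le_mul_of_nonneg_right (mul_le_mul_of_nonneg_left hlx hMn) (MarkV_My x _ _)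
      have h6 := mul_le_mul_of_nonneg_left h1 (show (0 : ℝ) ≤ 1 / 2 by norm_num)
      have h7 : 1 / 2 * (Mn ι W x * ((∑ a ∈ SL x 0.09 0.3348, DP (x / a)) / (x * A0 x)) *
            My ι x 0.00001 (pr (Si x 0.00001 i) (fo gi) y) + x / Real.log x ^ (A + 1)) =
          Mn ι W x * (1 / 2 * ((∑ a ∈ SL x 0.09 0.3348, DP (x / a)) / (x * A0 x))) *
            My ι x 0.00001 (pr (Si x 0.00001 i) (fo gi) y) + 1 / 2 * (x / Real.log x ^ (A + 1)) := by ring
      rw [h7] at h6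
      linarith only [herr, hE0, hCE, h1, h2, h5]
    · -- pairs
      have e1 : ∑ n ∈ AA h W b x, Ly h x 0.00001 y n ^ 2 * (Phi c x (n + h i) * Phi c x (n + h j)) =
          ∑ n ∈ AA h W b x, Ly h x 0.00001 y n ^ 2 * (vv x (c x).1 (n + h i) * vv x (c x).1 (n + h j)) +
            ∑ n ∈ AA h W b x, Ly h x 0.00001 y n ^ 2 * (vv x (c x).2 (n + h i) * vv x (c x).2 (n + h j)) -
            ∑ n ∈ AA h W b x, Ly h x 0.00001 y n ^ 2 * (vv x (c x).1 (n + h i) * vv x (c x).2 (n + h j)) -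
            ∑ n ∈ AA h W b x, Ly h x 0.00001 y n ^ 2 * (vv x (c x).2 (n + h i) * vv x (c x).1 (n + h j)) := by
        rw [← Finset.sum_add_distrib, ← Finset.sum_sub_distrib, ← Finset.sum_sub_distrib]
        refine Finset.sum_congr rfl (fun n hn => ?_)
        rw [MarkV_AA hG hzx c hn i, MarkV_AA hG hzx c hn j]
        ring
      rw [e1]
      have h1 := hNU' _ hA i j hij
      have h2 := hNU' _ hB i j hij
      have h3 := hNL' _ _ hA hB i j hij
      have h4 := hNL' _ _ hB hA i j hij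
      have h5 : Mn ι W x * (V1 x 0.00001 ^ 2 * ((1 + 2e-9) ^ 2 * (evM (PX x) (c x).1 ^ 2 + evM (PX x) (c x).2 ^ 2) -
          2 * (((1 - 2e-9) ^ 2 - (4e-9) ^ 2) * (evM (PX x) (c x).1 * evM (PX x) (c x).2)))) *
            My ι x 0.00001 (pr (Si x 0.00001 i ∪ Si x 0.00001 j) (fo gi) y) =
          Mn ι W x * (((1 + 2e-9) * V1 x 0.00001) ^ 2 * (evM (PX x) (c x).1 * evM (PX x) (c x).1)) *
            My ι x 0.00001 (pr (Si x 0.00001 i ∪ Si x 0.00001 j) (fo gi) y) +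
          Mn ι W x * (((1 + 2e-9) * V1 x 0.00001) ^ 2 * (evM (PX x) (c x).2 * evM (PX x) (c x).2)) *
            My ι x 0.00001 (pr (Si x 0.00001 i ∪ Si x 0.00001 j) (fo gi) y) -
          Mn ι W x * (((1 - 2e-9) ^ 2 - (4e-9) ^ 2) * V1 x 0.00001 ^ 2 * (evM (PX x) (c x).1 * evM (PX x) (c x).2)) *
            My ι x 0.00001 (pr (Si x 0.00001 i ∪ Si x 0.00001 j) (fo gi) y) -
          Mn ι W x * (((1 - 2e-9) ^ 2 - (4e-9) ^ 2) * V1 x 0.00001 ^ 2 * (evM (PX x) (c x).2 * evM (PX x) (c x).1)) *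
            My ι x 0.00001 (pr (Si x 0.00001 i ∪ Si x 0.00001 j) (fo gi) y) := by ring
      rw [h5]
      linarith only [herr, hEx, hCE, h1, h2, h3, h4]

end Pool.Agent.H36.IS2

end

section

/-!
# ISP FinV: the main theorem
-/

set_option autoImplicit false

namespace Pool.Agent.H36.IS2

open Pool.Agent.H36.IS

theorem stepV : ∃ κ : ℕ → ℕ, Step R12 0.761 κ := by
  have h1 : Real.sqrt 0.00001 ≤ 0.0032 := by
    rw [Real.sqrt_le_left (by norm_num)]
    norm_num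
  obtain ⟨κ, h⟩ := cheb_var R12 0.00001 0.00001 0.2355 0.00001 0.761 (by norm_num) (by norm_num) (by norm_num)
    (by norm_num) (by norm_num) (by norm_num) (by norm_num) phi_two (by linarith only [h1])
  exact ⟨κ, toStep h⟩

theorem main_pp : ∃ b c : ℕ → ℕ, StrictMono b ∧ StrictMono c ∧
    (∀ i j, i ≤ j → (b i + c j).Prime) ∧ (∀ i j, j < i → R12 (b i + c j)) := by
  obtain ⟨κ1, h1⟩ := stepP
  obtain ⟨κ2, h2⟩ := stepV
  exact two_parity Nat.Prime R12 _ _ κ1 κ2 h1 h2 (by norm_num)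

end Pool.Agent.H36.IS2

end
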