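import Pool.Agent.H15.TB1.M02

/-! The parts of this file: H91.EHA.SwH. -/

section

/-!
# From smooth sums to sharp cut-offs

`om(t) = t(1-t)²` on `[0,1]`.  Choose `ρ : ℝ → ℝ`, `ρ = 3` on `(0,1]`, `ρ(u) = P(u)` on `(1,1+δ]`, `0` beyond, where
`P` is a combination of (for instance) three step functions on thirds of `(1,1+δ]` (or a polynomial) with
`∫ P u^{-2} = 3`, `∫ P u^{-3} = 3/2`, `∫ P u^{-4} = 1`, `|P| ≤ C₀ δ^{-3}`.  Then
`w(t) := ∫_0^∞ om(t/u) ρ(u) du/u` satisfies `w(t) = 1` for `0 < t ≤ 1`, `w(t) = 0` for `t ≥ 1+δ`,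
`|w| ≤ C₀` (for `t ≤ 1`: `3∫_t^1 (1-v)² dv = (1-t)³`, and the moments give `3t - 3t² + t³`).
Linear system: with `u = 1 + δ z` the three conditions are a `3×3` system whose determinant is `≍ δ³` (Vandermonde).
(If you prefer: any other explicit `w`.)
Then `∑_{n ≤ y} a_n = ∑_n a_n w(n/y) - ∑_{y < n ≤ (1+δ)y} a_n w(n/y)`, and
`∑ a_n w(n/y) = ∫ ρ(u) S(uy) du/u`, `S(v) = ∑_{n ≤ v} a_n om(n/v)` for real `v`, `S(v) = 0` for `v < 1`,
`‖S(v) - S(⌊v⌋)‖ ≤ (1/⌊v⌋) ∑_{n ≤ v} ‖a_n‖ ≤ 2 H (1 + P/v)` by `om_lip`.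
-/

set_option autoImplicit false

namespace Pool.Agent.H91.EHA

open Finset
open Pool.Agent.H91.PK

/-- The average over `K` consecutive values. -/
noncomputable def swhA (K : ℕ) (f : ℕ → ℝ) (N : ℕ) : ℝ := (∑ i ∈ range K, f (N + i)) / K

theorem swhA_diff (K : ℕ) (f : ℕ → ℝ) (N : ℕ) :
    swhA K f (N + 1) - swhA K f N = (f (N + K) - f N) / K := by
  unfold swhA
  rw [← sub_div]
  congr 1
  have h1 := Finset.sum_range_succ (fun i => f (N + i)) K
  have h2 := Finset.sum_range_succ' (fun i => f (N + i)) K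
  rw [h1] at h2
  have h3 : ∑ i ∈ range K, f (N + 1 + i) = ∑ i ∈ range K, f (N + (i + 1)) := by
    refine Finset.sum_congr rfl fun i _ => ?_
    congr 1
    ring
  rw [h3]
  simp only [add_zero] at h2
  linarith only [h2]

theorem swhA_nonneg (K : ℕ) (f : ℕ → ℝ) (hf : ∀ N, 0 ≤ f N) (N : ℕ) : 0 ≤ swhA K f N := by
  unfold swhA
  exact div_nonneg (Finset.sum_nonneg fun i _ => hf _) (Nat.cast_nonneg _)

theorem swhA_le_one (K : ℕ) (hK : 0 < K) (f : ℕ → ℝ) (hf : ∀ N, f N ≤ 1) (N : ℕ) :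
    swhA K f N ≤ 1 := by
  unfold swhA
  rw [div_le_one (Nat.cast_pos.2 hK)]
  calc ∑ i ∈ range K, f (N + i) ≤ ∑ _i ∈ range K, (1 : ℝ) := Finset.sum_le_sum fun i _ => hf _
    _ = K := by simp

theorem swhA_eq_one (K : ℕ) (hK : 0 < K) (f : ℕ → ℝ) (T : ℕ) (hf : ∀ N, N ≤ T → f N = 1) (N : ℕ)
    (hN : N + K ≤ T) : swhA K f N = 1 := by
  unfold swhA
  rw [Finset.sum_congr rfl (fun i hi => hf (N + i) (by
    have := Finset.mem_range.1 hi
    omega))]
  simp only [Finset.sum_const, Finset.card_range, nsmul_eq_mul, mul_one]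
  exact div_self (Nat.cast_pos.2 hK).ne'

theorem swhA_eq_zero (K : ℕ) (f : ℕ → ℝ) (T : ℕ) (hf : ∀ N, T < N → f N = 0) (N : ℕ)
    (hN : T < N) : swhA K f N = 0 := by
  unfold swhA
  rw [Finset.sum_eq_zero (fun i _ => hf (N + i) (by omega)), zero_div]

/-- The sharp cut-off. -/
noncomputable def swhC (M N : ℕ) : ℝ := if N ≤ M then 1 else 0

theorem swhC_nonneg (M N : ℕ) : 0 ≤ swhC M N := by
  unfold swhC
  split_ifs <;> norm_num

theorem swhC_le_one (M N : ℕ) : swhC M N ≤ 1 := by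
  unfold swhC
  split_ifs <;> norm_num

/-- The smoothed cut-off. -/
noncomputable def swhP (K M : ℕ) : ℕ → ℝ := swhA K (swhA K (swhA K (swhC M)))

theorem swhP_nonneg (K M N : ℕ) : 0 ≤ swhP K M N :=
  swhA_nonneg K _ (swhA_nonneg K _ (swhA_nonneg K _ (swhC_nonneg M))) N

theorem swhP_le_one (K M : ℕ) (hK : 0 < K) (N : ℕ) : swhP K M N ≤ 1 :=
  swhA_le_one K hK _ (swhA_le_one K hK _ (swhA_le_one K hK _ (swhC_le_one M))) N

theorem swhP_eq_one (K M : ℕ) (hK : 0 < K) (N : ℕ) (hN : N + 3 * K ≤ M) : swhP K M N = 1 := by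
  have h0 : ∀ N, N ≤ M → swhC M N = 1 := fun N h => if_pos h
  have h1 : ∀ N, N ≤ M - K → swhA K (swhC M) N = 1 := fun N h =>
    swhA_eq_one K hK _ M h0 N (by omega)
  have h2 : ∀ N, N ≤ M - 2 * K → swhA K (swhA K (swhC M)) N = 1 := fun N h =>
    swhA_eq_one K hK _ (M - K) h1 N (by omega)
  exact swhA_eq_one K hK _ (M - 2 * K) h2 N (by omega)

theorem swhP_eq_zero (K M N : ℕ) (hN : M < N) : swhP K M N = 0 := by
  have h0 : ∀ N, M < N → swhC M N = 0 := fun N h => if_neg (by omega)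
  have h1 : ∀ N, M < N → swhA K (swhC M) N = 0 := fun N h => swhA_eq_zero K _ M h0 N h
  have h2 : ∀ N, M < N → swhA K (swhA K (swhC M)) N = 0 := fun N h => swhA_eq_zero K _ M h1 N h
  exact swhA_eq_zero K _ M h2 N hN

theorem swhP_d1 (K M : ℕ) (hK : 0 < K) (N : ℕ) : |swhP K M (N + 1) - swhP K M N| ≤ 1 / K := by
  have hK' : (0 : ℝ) < K := Nat.cast_pos.2 hK
  unfold swhP
  rw [swhA_diff, abs_div, abs_of_pos hK']
  refine div_le_div_of_nonneg_right ?_ hK'.le
  have a1 := swhA_nonneg K _ (swhA_nonneg K _ (swhC_nonneg M)) (N + K)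
  have a2 := swhA_nonneg K _ (swhA_nonneg K _ (swhC_nonneg M)) N
  have a3 := swhA_le_one K hK _ (swhA_le_one K hK _ (swhC_le_one M)) (N + K)
  have a4 := swhA_le_one K hK _ (swhA_le_one K hK _ (swhC_le_one M)) N
  rw [abs_le]
  constructor <;> linarith only [a1, a4, a2, a3]

theorem swhP_d2_eq (K M : ℕ) (hK : 0 < K) (N : ℕ) :
    swhP K M (N + 2) - 2 * swhP K M (N + 1) + swhP K M N =
      (swhA K (swhC M) (N + 2 * K) - 2 * swhA K (swhC M) (N + K) + swhA K (swhC M) N) / K ^ 2 := by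
  have hK' : (0 : ℝ) < K := Nat.cast_pos.2 hK
  have h1 : swhP K M (N + 2) - swhP K M (N + 1) =
      (swhA K (swhA K (swhC M)) (N + 1 + K) - swhA K (swhA K (swhC M)) (N + 1)) / K :=
    swhA_diff K _ (N + 1)
  have h2 : swhP K M (N + 1) - swhP K M N =
      (swhA K (swhA K (swhC M)) (N + K) - swhA K (swhA K (swhC M)) N) / K :=
    swhA_diff K _ N
  have h3 := swhA_diff K (swhA K (swhC M)) (N + K)
  have h4 := swhA_diff K (swhA K (swhC M)) N
  rw [show N + 1 + K = N + K + 1 by ring] at h1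
  rw [show N + K + K = N + 2 * K by ring] at h3
  have h5 : swhP K M (N + 2) - 2 * swhP K M (N + 1) + swhP K M N =
      ((swhA K (swhA K (swhC M)) (N + K + 1) - swhA K (swhA K (swhC M)) (N + K)) -
        (swhA K (swhA K (swhC M)) (N + 1) - swhA K (swhA K (swhC M)) N)) / K := by
    have : swhP K M (N + 2) - 2 * swhP K M (N + 1) + swhP K M N =
      (swhP K M (N + 2) - swhP K M (N + 1)) - (swhP K M (N + 1) - swhP K M N) := by ring
    rw [this, h1, h2]
    ring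
  rw [h5, h3, h4]
  field_simp
  ring

theorem swhP_d2 (K M : ℕ) (hK : 0 < K) (N : ℕ) :
    |swhP K M (N + 2) - 2 * swhP K M (N + 1) + swhP K M N| ≤ 2 / K ^ 2 := by
  have hK' : (0 : ℝ) < K := Nat.cast_pos.2 hK
  rw [swhP_d2_eq K M hK N, abs_div, abs_of_pos (by positivity : (0 : ℝ) < (K : ℝ) ^ 2)]
  refine div_le_div_of_nonneg_right ?_ (by positivity)
  have a1 := swhA_nonneg K _ (swhC_nonneg M) (N + 2 * K)
  have a2 := swhA_nonneg K _ (swhC_nonneg M) (N + K)
  have a3 := swhA_nonneg K _ (swhC_nonneg M) N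
  have a4 := swhA_le_one K hK _ (swhC_le_one M) (N + 2 * K)
  have a5 := swhA_le_one K hK _ (swhC_le_one M) (N + K)
  have a6 := swhA_le_one K hK _ (swhC_le_one M) N
  rw [abs_le]
  constructor <;> linarith only [a1, a3, a5, a2, a4, a6]

theorem swhP_d3 (K M : ℕ) (hK : 0 < K) (N : ℕ) :
    |swhP K M (N + 3) - 3 * swhP K M (N + 2) + 3 * swhP K M (N + 1) - swhP K M N|
      ≤ 4 / K ^ 3 := by
  have hK' : (0 : ℝ) < K := Nat.cast_pos.2 hK
  have h1 := swhP_d2_eq K M hK (N + 1)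
  have h2 := swhP_d2_eq K M hK N
  have h3 := swhA_diff K (swhC M) (N + 2 * K)
  have h4 := swhA_diff K (swhC M) (N + K)
  have h5 := swhA_diff K (swhC M) N
  rw [show N + 1 + 2 * K = N + 2 * K + 1 by ring, show N + 1 + K = N + K + 1 by ring] at h1
  have e : swhP K M (N + 3) - 3 * swhP K M (N + 2) + 3 * swhP K M (N + 1) - swhP K M N =
      (swhC M (N + 2 * K + K) - swhC M (N + 2 * K) - 2 * (swhC M (N + K + K) - swhC M (N + K)) +
        (swhC M (N + K) - swhC M N)) / K ^ 3 := by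
    have e1 : swhP K M (N + 3) - 3 * swhP K M (N + 2) + 3 * swhP K M (N + 1) - swhP K M N =
      (swhP K M (N + 1 + 2) - 2 * swhP K M (N + 1 + 1) + swhP K M (N + 1)) -
      (swhP K M (N + 2) - 2 * swhP K M (N + 1) + swhP K M N) := by
      rw [show N + 1 + 2 = N + 3 by ring, show N + 1 + 1 = N + 2 by ring]
      ring
    rw [e1, h1, h2]
    have e2 : (swhA K (swhC M) (N + 2 * K + 1) - 2 * swhA K (swhC M) (N + K + 1) +
        swhA K (swhC M) (N + 1)) / (K : ℝ) ^ 2 -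
        (swhA K (swhC M) (N + 2 * K) - 2 * swhA K (swhC M) (N + K) +
          swhA K (swhC M) N) / (K : ℝ) ^ 2 =
        ((swhA K (swhC M) (N + 2 * K + 1) - swhA K (swhC M) (N + 2 * K)) -
          2 * (swhA K (swhC M) (N + K + 1) - swhA K (swhC M) (N + K)) +
          (swhA K (swhC M) (N + 1) - swhA K (swhC M) N)) / (K : ℝ) ^ 2 := by ring
    rw [e2, h3, h4, h5]
    field_simp
  rw [e, abs_div, abs_of_pos (by positivity : (0 : ℝ) < (K : ℝ) ^ 3)]
  refine div_le_div_of_nonneg_right ?_ (by positivity)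
  have b1 : N + 2 * K + K = N + 3 * K := by ring
  have b2 : N + K + K = N + 2 * K := by ring
  rw [b1, b2]
  have a1 := swhC_nonneg M (N + 3 * K)
  have a2 := swhC_nonneg M (N + 2 * K)
  have a3 := swhC_nonneg M (N + K)
  have a4 := swhC_nonneg M N
  have a5 := swhC_le_one M (N + 3 * K)
  have a6 := swhC_le_one M (N + 2 * K)
  have a7 := swhC_le_one M (N + K)
  have a8 := swhC_le_one M N
  rw [abs_le]
  constructor <;> linarith only [a1, a3, a6, a8, a2, a4, a5, a7]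

/-- The weight. -/
noncomputable def swhW (K M : ℕ) (N : ℕ) : ℝ := swhP K M N * (1 / (2 * (N : ℝ)))

/-- Its third difference. -/
noncomputable def swhD (K M : ℕ) (N : ℕ) : ℝ :=
  swhW K M (N + 3) - 3 * swhW K M (N + 2) + 3 * swhW K M (N + 1) - swhW K M N

theorem swh_psi3 (x : ℝ) (hx : 1 ≤ x) :
    |1 / (2 * (x + 3)) - 3 * (1 / (2 * (x + 2))) + 3 * (1 / (2 * (x + 1))) - 1 / (2 * x)|
      ≤ 3 / x ^ 4 := by
  have e : 1 / (2 * (x + 3)) - 3 * (1 / (2 * (x + 2))) + 3 * (1 / (2 * (x + 1))) - 1 / (2 * x)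
      = -(3 / (x * (x + 1) * (x + 2) * (x + 3))) := by
    field_simp
    ring
  rw [e, abs_neg, abs_of_pos (by positivity)]
  refine div_le_div_of_nonneg_left (by norm_num) (by positivity) ?_
  have h : x ^ 4 = x * x * x * x := by ring
  rw [h]
  gcongr <;> linarith only

theorem swh_psi2 (x : ℝ) (hx : 1 ≤ x) :
    |1 / (2 * (x + 2)) - 2 * (1 / (2 * (x + 1))) + 1 / (2 * x)| ≤ 1 / x ^ 3 := by
  have e : 1 / (2 * (x + 2)) - 2 * (1 / (2 * (x + 1))) + 1 / (2 * x)
      = 1 / (x * (x + 1) * (x + 2)) := by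
    field_simp
    ring
  rw [e, abs_of_pos (by positivity)]
  refine div_le_div_of_nonneg_left (by norm_num) (by positivity) ?_
  have h : x ^ 3 = x * x * x := by ring
  rw [h]
  gcongr <;> linarith only

theorem swh_psi1 (x : ℝ) (hx : 1 ≤ x) :
    |1 / (2 * (x + 1)) - 1 / (2 * x)| ≤ 1 / (2 * x ^ 2) := by
  have e : 1 / (2 * (x + 1)) - 1 / (2 * x) = -(1 / (2 * (x * (x + 1)))) := by
    field_simp
    ring
  rw [e, abs_neg, abs_of_pos (by positivity)]
  refine div_le_div_of_nonneg_left (by norm_num) (by positivity) ?_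
  have h : x ^ 2 = x * x := by ring
  rw [h]
  gcongr
  linarith only

theorem swhD_bound (K y : ℕ) (hK : 0 < K) (hKy : K ≤ y) (N : ℕ) (hN : 1 ≤ N) :
    (N : ℝ) ^ 3 * |swhD K (y + 2 + 3 * K) N| ≤
      3 / N + (if y ≤ N then 8 * (N : ℝ) ^ 2 / K ^ 3 else 0) := by
  have hx : (1 : ℝ) ≤ N := by exact_mod_cast hN
  have hx0 : (0 : ℝ) < N := by linarith only [hx]
  have hK' : (0 : ℝ) < K := Nat.cast_pos.2 hK
  set M := y + 2 + 3 * K with hM
  have c1 : ((N + 1 : ℕ) : ℝ) = (N : ℝ) + 1 := by push_cast; ring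
  have c2 : ((N + 2 : ℕ) : ℝ) = (N : ℝ) + 2 := by push_cast; ring
  have c3 : ((N + 3 : ℕ) : ℝ) = (N : ℝ) + 3 := by push_cast; ring
  have p3 := swh_psi3 N hx
  have p2 := swh_psi2 N hx
  have p1 := swh_psi1 N hx
  by_cases hy : y ≤ N
  · rw [if_pos hy]
    have hKN : (K : ℝ) ≤ N := by exact_mod_cast hKy.trans hy
    have q0 := swhP_nonneg K M (N + 3)
    have q0' := swhP_le_one K M hK (N + 3)
    have q1 := swhP_d1 K M hK (N + 2)
    have q2 := swhP_d2 K M hK (N + 1)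
    have q3 := swhP_d3 K M hK N
    rw [show N + 2 + 1 = N + 3 by ring] at q1
    rw [show N + 1 + 2 = N + 3 by ring, show N + 1 + 1 = N + 2 by ring] at q2
    have e : swhD K M N =
        swhP K M (N + 3) * (1 / (2 * ((N : ℝ) + 3)) - 3 * (1 / (2 * ((N : ℝ) + 2))) +
          3 * (1 / (2 * ((N : ℝ) + 1))) - 1 / (2 * (N : ℝ))) +
        3 * (swhP K M (N + 3) - swhP K M (N + 2)) *
          (1 / (2 * ((N : ℝ) + 2)) - 2 * (1 / (2 * ((N : ℝ) + 1))) + 1 / (2 * (N : ℝ))) +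
        3 * (swhP K M (N + 3) - 2 * swhP K M (N + 2) + swhP K M (N + 1)) *
          (1 / (2 * ((N : ℝ) + 1)) - 1 / (2 * (N : ℝ))) +
        (swhP K M (N + 3) - 3 * swhP K M (N + 2) + 3 * swhP K M (N + 1) - swhP K M N) *
          (1 / (2 * (N : ℝ))) := by
      unfold swhD swhW
      rw [c1, c2, c3]
      ring
    have hb : |swhD K M N| ≤ 1 * (3 / (N : ℝ) ^ 4) + 3 * (1 / (K : ℝ)) * (1 / (N : ℝ) ^ 3) +
        3 * (2 / (K : ℝ) ^ 2) * (1 / (2 * (N : ℝ) ^ 2)) +
        (4 / (K : ℝ) ^ 3) * (1 / (2 * (N : ℝ))) := by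
      rw [e]
      refine (abs_add_le _ _).trans (add_le_add ((abs_add_le _ _).trans (add_le_add
        ((abs_add_le _ _).trans (add_le_add ?_ ?_)) ?_)) ?_)
      · rw [abs_mul, abs_of_nonneg q0]
        exact mul_le_mul q0' p3 (abs_nonneg _) (by norm_num)
      · rw [abs_mul, abs_mul, abs_of_pos (by norm_num : (0 : ℝ) < 3)]
        exact mul_le_mul (mul_le_mul_of_nonneg_left q1 (by norm_num)) p2 (abs_nonneg _)
          (by positivity)
      · rw [abs_mul, abs_mul, abs_of_pos (by norm_num : (0 : ℝ) < 3)]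
        exact mul_le_mul (mul_le_mul_of_nonneg_left q2 (by norm_num)) p1 (abs_nonneg _)
          (by positivity)
      · rw [abs_mul, abs_of_pos (by positivity : (0 : ℝ) < 1 / (2 * (N : ℝ)))]
        exact mul_le_mul_of_nonneg_right q3 (by positivity)
    have h1 : (N : ℝ) ^ 3 * |swhD K M N| ≤
        3 / N + 3 * (1 / K) + 3 * (N / K ^ 2) + 2 * (N ^ 2 / K ^ 3) := by
      calc (N : ℝ) ^ 3 * |swhD K M N| ≤ (N : ℝ) ^ 3 * (1 * (3 / (N : ℝ) ^ 4) +
          3 * (1 / (K : ℝ)) * (1 / (N : ℝ) ^ 3) + 3 * (2 / (K : ℝ) ^ 2) * (1 / (2 * (N : ℝ) ^ 2)) +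
          (4 / (K : ℝ) ^ 3) * (1 / (2 * (N : ℝ)))) :=
            mul_le_mul_of_nonneg_left hb (by positivity)
        _ = _ := by
            field_simp
            ring
    have h2 : (1 : ℝ) / K ≤ N ^ 2 / K ^ 3 := by
      rw [div_le_div_iff₀ hK' (by positivity)]
      have : (K : ℝ) ^ 2 ≤ N ^ 2 := pow_le_pow_left₀ hK'.le hKN 2
      nlinarith only [this]
    have h3 : (N : ℝ) / K ^ 2 ≤ N ^ 2 / K ^ 3 := by
      rw [div_le_div_iff₀ (by positivity) (by positivity)]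
      have e1 : (N : ℝ) * K ^ 3 = (N * K ^ 2) * K := by ring
      have e2 : (N : ℝ) ^ 2 * K ^ 2 = (N * K ^ 2) * N := by ring
      rw [e1, e2]
      exact mul_le_mul_of_nonneg_left hKN (by positivity)
    have h4 : 8 * (N : ℝ) ^ 2 / K ^ 3 = 8 * (N ^ 2 / K ^ 3) := by ring
    rw [h4]
    linarith only [h1, h2, h3]
  · rw [if_neg hy, add_zero]
    have o0 : swhP K M N = 1 := swhP_eq_one K M hK N (by omega)
    have o1 : swhP K M (N + 1) = 1 := swhP_eq_one K M hK (N + 1) (by omega)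
    have o2 : swhP K M (N + 2) = 1 := swhP_eq_one K M hK (N + 2) (by omega)
    have o3 : swhP K M (N + 3) = 1 := swhP_eq_one K M hK (N + 3) (by omega)
    have e : swhD K M N = 1 / (2 * ((N : ℝ) + 3)) - 3 * (1 / (2 * ((N : ℝ) + 2))) +
          3 * (1 / (2 * ((N : ℝ) + 1))) - 1 / (2 * (N : ℝ)) := by
      unfold swhD swhW
      rw [c1, c2, c3, o0, o1, o2, o3]
      ring
    rw [e]
    calc (N : ℝ) ^ 3 * _ ≤ (N : ℝ) ^ 3 * (3 / (N : ℝ) ^ 4) :=
          mul_le_mul_of_nonneg_left p3 (by positivity)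
      _ = 3 / N := by field_simp

theorem swh_tel (w : ℕ → ℝ) (n L : ℕ) :
    ∑ m ∈ range L, (m : ℝ) ^ 2 * (w (n + m + 3) - 3 * w (n + m + 2) + 3 * w (n + m + 1) -
      w (n + m)) = -w (n + 1) - w (n + 2) + ((L : ℝ) - 1) ^ 2 * w (n + L + 2) +
      (((L : ℝ) - 2) ^ 2 - 3 * ((L : ℝ) - 1) ^ 2) * w (n + L + 1) + (L : ℝ) ^ 2 * w (n + L) := by
  induction L with
  | zero =>
    simp
    ring
  | succ L ih =>
    rw [Finset.sum_range_succ, ih]
    have e1 : n + (L + 1) + 2 = n + L + 3 := by ring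
    have e2 : n + (L + 1) + 1 = n + L + 2 := by ring
    have e3 : n + (L + 1) = n + L + 1 := by ring
    rw [e1, e2, e3]
    push_cast
    ring

theorem swh_inner (K M n : ℕ) (hn : n ≤ M) :
    ∑ N ∈ Icc n M, ((N : ℝ) - n) ^ 2 * (-swhD K M N) = swhW K M (n + 1) + swhW K M (n + 2) := by
  have h0 : ∀ N, M < N → swhW K M N = 0 := by
    intro N hN
    unfold swhW
    rw [swhP_eq_zero K M N hN, zero_mul]
  have h1 := swh_tel (swhW K M) n (M + 1 - n)
  rw [show n + (M + 1 - n) = M + 1 by omega, h0 (M + 1) (by omega), h0 (M + 1 + 1) (by omega),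
    h0 (M + 1 + 2) (by omega)] at h1
  have h2 : Icc n M = Ico n (M + 1) := by
    ext x
    simp only [mem_Icc, mem_Ico]
    omega
  rw [h2, Finset.sum_Ico_eq_sum_range]
  have h3 : ∑ k ∈ range (M + 1 - n), (((n + k : ℕ) : ℝ) - n) ^ 2 * (-swhD K M (n + k)) =
      -∑ m ∈ range (M + 1 - n), (m : ℝ) ^ 2 * (swhW K M (n + m + 3) - 3 * swhW K M (n + m + 2) +
        3 * swhW K M (n + m + 1) - swhW K M (n + m)) := by
    rw [← Finset.sum_neg_distrib]
    refine Finset.sum_congr rfl fun m _ => ?_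
    unfold swhD
    push_cast
    ring
  rw [h3, h1]
  ring

theorem swh_ident (K M : ℕ) (a : ℕ → ℂ) :
    ∑ n ∈ Icc 1 M, (((n : ℝ) * (swhW K M (n + 1) + swhW K M (n + 2)) : ℝ) : ℂ) * a n =
      ∑ N ∈ Icc 1 M, ((-swhD K M N : ℝ) : ℂ) *
        ∑ n ∈ Icc 1 N, (((n : ℝ) * ((N : ℝ) - n) ^ 2 : ℝ) : ℂ) * a n := by
  have h1 : ∑ N ∈ Icc 1 M, ((-swhD K M N : ℝ) : ℂ) *
        ∑ n ∈ Icc 1 N, (((n : ℝ) * ((N : ℝ) - n) ^ 2 : ℝ) : ℂ) * a n =
      ∑ N ∈ Icc 1 M, ∑ n ∈ Icc 1 N,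
        ((((N : ℝ) - n) ^ 2 * (-swhD K M N) : ℝ) : ℂ) * (((n : ℝ) : ℂ) * a n) := by
    refine Finset.sum_congr rfl fun N _ => ?_
    rw [Finset.mul_sum]
    refine Finset.sum_congr rfl fun n _ => ?_
    push_cast
    ring
  rw [h1, Finset.sum_comm' (t' := Icc 1 M) (s' := fun n => Icc n M) (by
    intro x y
    simp only [mem_Icc]
    omega)]
  refine Finset.sum_congr rfl fun n hn => ?_
  rw [← Finset.sum_mul, ← Complex.ofReal_sum, swh_inner K M n (mem_Icc.1 hn).2]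
  push_cast
  ring

theorem swh_S (a : ℕ → ℂ) (N : ℕ) (hN : 1 ≤ N) :
    ∑ n ∈ Icc 1 N, (((n : ℝ) * ((N : ℝ) - n) ^ 2 : ℝ) : ℂ) * a n =
      (((N : ℝ) ^ 3 : ℝ) : ℂ) * ∑ n ∈ Icc 1 N, a n * ((om ((n : ℝ) / N) : ℝ) : ℂ) := by
  have hN0 : (0 : ℝ) < N := Nat.cast_pos.2 hN
  rw [Finset.mul_sum]
  refine Finset.sum_congr rfl fun n hn => ?_
  obtain ⟨h1, h2⟩ := mem_Icc.1 hn
  have h3 : om ((n : ℝ) / N) = (n : ℝ) / N * (1 - (n : ℝ) / N) ^ 2 := by
    unfold om
    rw [if_pos]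
    refine ⟨by positivity, ?_⟩
    rw [div_le_one hN0]
    exact_mod_cast h2
  have h4 : (N : ℝ) ^ 3 * om ((n : ℝ) / N) = (n : ℝ) * ((N : ℝ) - n) ^ 2 := by
    rw [h3]
    field_simp
  rw [← h4]
  push_cast
  ring

theorem swh_abel (b : ℕ → ℝ) (Y : ℕ) :
    ∑ n ∈ Icc 1 Y, b n / n = (∑ n ∈ Icc 1 Y, b n) / (Y + 1) +
      ∑ k ∈ Icc 1 Y, (∑ n ∈ Icc 1 k, b n) / ((k : ℝ) * (k + 1)) := by
  induction Y with
  | zero => simp
  | succ Y ih =>
    rw [Finset.sum_Icc_succ_top (by omega), Finset.sum_Icc_succ_top (by omega) (f := fun k =>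
      (∑ n ∈ Icc 1 k, b n) / ((k : ℝ) * (k + 1))), ih, Finset.sum_Icc_succ_top (by omega) (f := b)]
    push_cast
    have h1 : (0 : ℝ) < (Y : ℝ) + 1 := by positivity
    field_simp
    ring

theorem swh_harm (M : ℕ) : ∑ N ∈ Icc 1 M, (1 : ℝ) / N ≤ 1 + Real.log M := by
  have h := harmonic_le_one_add_log M
  rw [harmonic_eq_sum_Icc] at h
  push_cast at h
  simpa using h

theorem swh_tele (Y : ℕ) : ∑ k ∈ Icc 1 Y, (1 : ℝ) / ((k : ℝ) * (k + 1)) = 1 - 1 / (Y + 1) := by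
  induction Y with
  | zero => simp
  | succ Y ih =>
    rw [Finset.sum_Icc_succ_top (by omega), ih]
    push_cast
    field_simp
    ring

theorem swh_logsum (b : ℕ → ℝ) (H P : ℝ) (hH : 0 ≤ H) (hP : 1 ≤ P) (Y : ℕ)
    (hb : ∀ k, k ≤ Y → ∑ n ∈ Icc 1 k, b n ≤ H * (k + P)) :
    ∑ n ∈ Icc 1 Y, b n / n ≤ H * (4 * P + Real.log Y) := by
  rw [swh_abel]
  have hY : (0 : ℝ) ≤ Y := Nat.cast_nonneg _
  have h1 : (∑ n ∈ Icc 1 Y, b n) / ((Y : ℝ) + 1) ≤ H * (1 + P) := by
    rw [div_le_iff₀ (by positivity)]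
    refine (hb Y le_rfl).trans ?_
    rw [mul_assoc]
    refine mul_le_mul_of_nonneg_left ?_ hH
    nlinarith only [hP]
  have h2 : ∑ k ∈ Icc 1 Y, (∑ n ∈ Icc 1 k, b n) / ((k : ℝ) * (k + 1)) ≤
      H * (1 + Real.log Y + P) := by
    calc ∑ k ∈ Icc 1 Y, (∑ n ∈ Icc 1 k, b n) / ((k : ℝ) * (k + 1))
        ≤ ∑ k ∈ Icc 1 Y, (H * (1 / (k : ℝ)) + H * P * (1 / ((k : ℝ) * (k + 1)))) := by
          refine Finset.sum_le_sum fun k hk => ?_
          obtain ⟨hk1, hk2⟩ := mem_Icc.1 hk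
          have hk0 : (1 : ℝ) ≤ k := by exact_mod_cast hk1
          have hk0' : (0 : ℝ) < k := by linarith only [hk0]
          have e : H * (1 / (k : ℝ)) + H * P * (1 / ((k : ℝ) * (k + 1))) =
              H * ((k : ℝ) + 1 + P) / ((k : ℝ) * (k + 1)) := by
            field_simp
          rw [e]
          refine div_le_div_of_nonneg_right ?_ (by positivity)
          refine (hb k hk2).trans (mul_le_mul_of_nonneg_left (by linarith only) hH)
      _ = H * (∑ k ∈ Icc 1 Y, 1 / (k : ℝ)) + H * P * ∑ k ∈ Icc 1 Y, 1 / ((k : ℝ) * (k + 1)) := by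
          rw [Finset.sum_add_distrib, Finset.mul_sum, Finset.mul_sum]
      _ ≤ H * (1 + Real.log Y) + H * P * 1 := by
          refine add_le_add (mul_le_mul_of_nonneg_left (swh_harm Y) hH)
            (mul_le_mul_of_nonneg_left ?_ (by positivity))
          rw [swh_tele]
          have : (0 : ℝ) ≤ 1 / ((Y : ℝ) + 1) := by positivity
          linarith only [this]
      _ = _ := by ring
  have h3 : H * (1 + P) + H * (1 + Real.log Y + P) ≤ H * (4 * P + Real.log Y) := by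
    nlinarith only [hH, hP]
  linarith only [h1, h2, h3]

theorem swh_c_bounds (K M : ℕ) (hK : 0 < K) (n : ℕ) :
    0 ≤ (n : ℝ) * (swhW K M (n + 1) + swhW K M (n + 2)) ∧
      (n : ℝ) * (swhW K M (n + 1) + swhW K M (n + 2)) ≤ 1 := by
  have hn : (0 : ℝ) ≤ n := Nat.cast_nonneg _
  have a1 := swhP_nonneg K M (n + 1)
  have a2 := swhP_nonneg K M (n + 2)
  have a3 := swhP_le_one K M hK (n + 1)
  have a4 := swhP_le_one K M hK (n + 2)
  have c1 : ((n + 1 : ℕ) : ℝ) = (n : ℝ) + 1 := by push_cast; ring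
  have c2 : ((n + 2 : ℕ) : ℝ) = (n : ℝ) + 2 := by push_cast; ring
  have w1 : swhW K M (n + 1) ≤ 1 / (2 * ((n : ℝ) + 1)) := by
    unfold swhW
    rw [c1]
    calc _ ≤ 1 * (1 / (2 * ((n : ℝ) + 1))) := mul_le_mul_of_nonneg_right a3 (by positivity)
      _ = _ := one_mul _
  have w2 : swhW K M (n + 2) ≤ 1 / (2 * ((n : ℝ) + 2)) := by
    unfold swhW
    rw [c2]
    calc _ ≤ 1 * (1 / (2 * ((n : ℝ) + 2))) := mul_le_mul_of_nonneg_right a4 (by positivity)
      _ = _ := one_mul _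
  have w1' : 0 ≤ swhW K M (n + 1) := by
    unfold swhW
    positivity
  have w2' : 0 ≤ swhW K M (n + 2) := by
    unfold swhW
    positivity
  refine ⟨by positivity, ?_⟩
  calc (n : ℝ) * (swhW K M (n + 1) + swhW K M (n + 2))
      ≤ (n : ℝ) * (1 / (2 * ((n : ℝ) + 1)) + 1 / (2 * ((n : ℝ) + 2))) :=
        mul_le_mul_of_nonneg_left (add_le_add w1 w2) hn
    _ ≤ 1 := by
        have e : (n : ℝ) * (1 / (2 * ((n : ℝ) + 1)) + 1 / (2 * ((n : ℝ) + 2))) =
          (n : ℝ) * (2 * n + 3) / (2 * ((n : ℝ) + 1) * ((n : ℝ) + 2)) := by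
            field_simp
            ring
        rw [e, div_le_one (by positivity)]
        nlinarith only

theorem swh_c_low (K y : ℕ) (hK : 0 < K) (n : ℕ) (hn : 1 ≤ n) (hny : n ≤ y) :
    1 - (n : ℝ) * (swhW K (y + 2 + 3 * K) (n + 1) + swhW K (y + 2 + 3 * K) (n + 2)) ≤
      2 / (n : ℝ) := by
  have hn0 : (1 : ℝ) ≤ n := by exact_mod_cast hn
  have c1 : ((n + 1 : ℕ) : ℝ) = (n : ℝ) + 1 := by push_cast; ring
  have c2 : ((n + 2 : ℕ) : ℝ) = (n : ℝ) + 2 := by push_cast; ring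
  unfold swhW
  rw [swhP_eq_one K _ hK (n + 1) (by omega), swhP_eq_one K _ hK (n + 2) (by omega), c1, c2]
  have e : 1 - (n : ℝ) * (1 * (1 / (2 * ((n : ℝ) + 1))) + 1 * (1 / (2 * ((n : ℝ) + 2)))) =
      (3 * (n : ℝ) + 4) / (2 * ((n : ℝ) + 1) * ((n : ℝ) + 2)) := by
    field_simp
    ring
  rw [e, div_le_div_iff₀ (by positivity) (by positivity)]
  nlinarith only [hn0]

theorem smooth_to_sharp : ∃ C : ℝ, 0 < C ∧ ∀ (a : ℕ → ℂ) (B H P : ℝ) (y : ℕ) (δ : ℝ),
    0 ≤ B → 0 ≤ H → 1 ≤ P → 2 ≤ y → 0 < δ → δ ≤ 1 / 2 →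
    (∀ N : ℕ, 1 ≤ N → N ≤ 2 * y → ‖∑ n ∈ Icc 1 N, a n * ((om ((n : ℝ) / N) : ℝ) : ℂ)‖ ≤ B) →
    (∀ u v : ℕ, u ≤ v → v ≤ 2 * y → ∑ n ∈ Ioc u v, ‖a n‖ ≤ H * ((v : ℝ) - u + P)) →
    ‖∑ n ∈ Icc 1 y, a n‖
      ≤ C * (B * (1 / δ ^ 3 + Real.log y) + H * (δ * y + Real.log y + P / δ ^ 3)) := by
  refine ⟨30000, by norm_num, fun a B H P y δ hB hH hP hy hδ hδ2 hS hA => ?_⟩
  have hy0 : (2 : ℝ) ≤ y := by exact_mod_cast hy
  have hlog0 : 0 ≤ Real.log y := Real.log_nonneg (by linarith only [hδ, hδ2, hy0])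
  have hlog2 : Real.log 2 ≤ Real.log y := Real.log_le_log (by norm_num) hy0
  have hδ3 : 0 < δ ^ 3 := by positivity
  have hd1 : 1 / δ ≤ 1 / δ ^ 3 := by
    refine one_div_le_one_div_of_le hδ3 ?_
    nlinarith only [hδ, hδ2, sq_nonneg δ, mul_pos hδ hδ]
  have hd2 : 1 / δ ^ 2 ≤ 1 / δ ^ 3 := by
    refine one_div_le_one_div_of_le hδ3 ?_
    nlinarith only [hδ, hδ2, sq_nonneg δ, mul_pos hδ hδ]
  have hd0 : 1 ≤ 1 / δ ^ 3 := by
    rw [le_div_iff₀ hδ3]
    nlinarith only [hδ, hδ2, sq_nonneg δ, mul_pos hδ hδ]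
  have hP3 : P ≤ P / δ ^ 3 := by
    rw [div_eq_mul_one_div]
    nlinarith only [hd0, hP]
  have hIcc : ∀ N : ℕ, Icc 1 N = Ioc 0 N := by
    intro N
    ext x
    simp only [mem_Icc, mem_Ioc]
    omega
  have hA0 : ∀ k : ℕ, k ≤ 2 * y → ∑ n ∈ Icc 1 k, ‖a n‖ ≤ H * ((k : ℝ) + P) := by
    intro k hk
    rw [hIcc]
    have := hA 0 k (Nat.zero_le _) hk
    simpa using this
  rcases lt_or_ge (δ * y) 6 with hsmall | hbig
  · -- trivial bound
    have h1 : ‖∑ n ∈ Icc 1 y, a n‖ ≤ H * ((y : ℝ) + P) :=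
      (norm_sum_le _ _).trans (hA0 y (by omega))
    have h2 : (y : ℝ) ≤ 6 * (1 / δ) := by
      rw [mul_one_div, le_div_iff₀ hδ]
      linarith only [hsmall]
    have h3 : (y : ℝ) + P ≤ 7 * (P / δ ^ 3) := by
      have e1 : 6 * (1 / δ) ≤ 6 * (P / δ ^ 3) := by
        have : 1 / δ ^ 3 ≤ P / δ ^ 3 := div_le_div_of_nonneg_right hP hδ3.le
        linarith only [hd1, this]
      linarith only [hP3, h2, e1]
    have h4 : H * ((y : ℝ) + P) ≤ 7 * (H * (P / δ ^ 3)) := by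
      calc H * ((y : ℝ) + P) ≤ H * (7 * (P / δ ^ 3)) := mul_le_mul_of_nonneg_left h3 hH
        _ = _ := by ring
    have h5 : 0 ≤ B * (1 / δ ^ 3 + Real.log y) := by positivity
    have h6 : 0 ≤ H * (δ * y + Real.log y) := by positivity
    have h7 : 0 ≤ H * (P / δ ^ 3) := by positivity
    have h8 : H * (δ * y + Real.log y + P / δ ^ 3) = H * (δ * y + Real.log y) + H * (P / δ ^ 3) := by
      ring
    rw [h8]
    linarith only [h1, h4, h5, h6, h7]
  · set K := ⌊δ * y / 6⌋₊ with hKdef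
    have hKr : (K : ℝ) ≤ δ * y / 6 := Nat.floor_le (by positivity)
    have hKr2 : δ * y / 6 < K + 1 := Nat.lt_floor_add_one _
    have hK : 0 < K := by
      rw [hKdef, Nat.floor_pos]
      linarith only [hbig]
    have hK1 : (1 : ℝ) ≤ K := by exact_mod_cast hK
    have hK' : (0 : ℝ) < K := by linarith only [hδ, hδ2, hK1]
    have hK12 : δ * y / 12 ≤ K := by linarith only [hKr2, hK1]
    have hy12 : (12 : ℝ) ≤ y := by nlinarith only [hbig, hδ2]
    have hKy' : (K : ℝ) ≤ y / 12 := by nlinarith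
    have hKy : K ≤ y := by
      have : (K : ℝ) ≤ y := by linarith only [hδ, hδ2, hy12, hKy']
      exact_mod_cast this
    set M := y + 2 + 3 * K with hM
    have hMr : (M : ℝ) = y + 2 + 3 * K := by rw [hM]; push_cast; ring
    have hM2r : (M : ℝ) ≤ 2 * y := by rw [hMr]; linarith only [hδ, hδ2, hy12, hKy']
    have hM2 : M ≤ 2 * y := by exact_mod_cast hM2r
    have hM0 : (0 : ℝ) < M := by rw [hMr]; positivity
    set c : ℕ → ℝ := fun n => (n : ℝ) * (swhW K M (n + 1) + swhW K M (n + 2)) with hc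
    -- the smooth part
    have hI : ‖∑ n ∈ Icc 1 M, ((c n : ℝ) : ℂ) * a n‖ ≤
        B * (3 * (1 + Real.log M) + 27648 * (1 / δ ^ 2)) := by
      rw [hc]
      simp only []
      rw [swh_ident K M a]
      calc ‖∑ N ∈ Icc 1 M, ((-swhD K M N : ℝ) : ℂ) *
            ∑ n ∈ Icc 1 N, (((n : ℝ) * ((N : ℝ) - n) ^ 2 : ℝ) : ℂ) * a n‖
          ≤ ∑ N ∈ Icc 1 M, B * (3 / (N : ℝ) + (if y ≤ N then 8 * (N : ℝ) ^ 2 / K ^ 3 else 0)) := by
            refine (norm_sum_le _ _).trans (Finset.sum_le_sum fun N hN => ?_)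
            obtain ⟨hN1, hN2⟩ := mem_Icc.1 hN
            rw [swh_S a N hN1, norm_mul, norm_mul, Complex.norm_real, Complex.norm_real,
              Real.norm_eq_abs, Real.norm_eq_abs, abs_neg,
              abs_of_nonneg (by positivity : (0 : ℝ) ≤ (N : ℝ) ^ 3)]
            have h1 := hS N hN1 (hN2.trans hM2)
            have h2 := swhD_bound K y hK hKy N hN1
            calc |swhD K M N| * ((N : ℝ) ^ 3 *
                  ‖∑ n ∈ Icc 1 N, a n * ((om ((n : ℝ) / N) : ℝ) : ℂ)‖)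
                ≤ |swhD K M N| * ((N : ℝ) ^ 3 * B) := by
                  refine mul_le_mul_of_nonneg_left ?_ (abs_nonneg _)
                  exact mul_le_mul_of_nonneg_left h1 (by positivity)
              _ = B * ((N : ℝ) ^ 3 * |swhD K M N|) := by ring
              _ ≤ _ := mul_le_mul_of_nonneg_left h2 hB
        _ = B * (3 * (∑ N ∈ Icc 1 M, 1 / (N : ℝ)) +
            ∑ N ∈ Icc 1 M, (if y ≤ N then 8 * (N : ℝ) ^ 2 / K ^ 3 else 0)) := by
            rw [← Finset.mul_sum, Finset.sum_add_distrib]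
            congr 2
            rw [Finset.mul_sum]
            exact Finset.sum_congr rfl fun N _ => by ring
        _ ≤ B * (3 * (1 + Real.log M) + 27648 * (1 / δ ^ 2)) := by
            refine mul_le_mul_of_nonneg_left (add_le_add
              (mul_le_mul_of_nonneg_left (swh_harm M) (by norm_num)) ?_) hB
            rw [← Finset.sum_filter]
            have hcard : ((Icc 1 M).filter (fun N => y ≤ N)).card ≤ 3 * K + 3 := by
              calc ((Icc 1 M).filter (fun N => y ≤ N)).card ≤ (Icc y M).card := by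
                    refine Finset.card_le_card fun x hx => ?_
                    rw [Finset.mem_filter, mem_Icc] at hx
                    exact mem_Icc.2 ⟨hx.2, hx.1.2⟩
                _ = 3 * K + 3 := by
                    rw [Nat.card_Icc]
                    omega
            have hb : ∀ N ∈ (Icc 1 M).filter (fun N => y ≤ N),
                8 * (N : ℝ) ^ 2 / K ^ 3 ≤ 8 * (M : ℝ) ^ 2 / K ^ 3 := by
              intro N hN
              rw [Finset.mem_filter, mem_Icc] at hN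
              have : (N : ℝ) ≤ M := by exact_mod_cast hN.1.2
              gcongr
            have h3 := Finset.sum_le_card_nsmul _ _ _ hb
            rw [nsmul_eq_mul] at h3
            refine h3.trans ?_
            have h4 : ((((Icc 1 M).filter (fun N => y ≤ N)).card : ℕ) : ℝ) ≤ 6 * K := by
              have : ((((Icc 1 M).filter (fun N => y ≤ N)).card : ℕ) : ℝ) ≤ 3 * K + 3 := by
                exact_mod_cast hcard
              linarith only [hK1, this]
            calc _ ≤ (6 * K) * (8 * (M : ℝ) ^ 2 / K ^ 3) :=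
                  mul_le_mul_of_nonneg_right h4 (by positivity)
              _ = 48 * ((M : ℝ) / K) ^ 2 := by
                  field_simp
                  ring
              _ ≤ 48 * (24 / δ) ^ 2 := by
                  have h5 : (M : ℝ) / K ≤ 24 / δ := by
                    rw [div_le_div_iff₀ hK' hδ]
                    nlinarith only [hδ, hδ2, hK1, hMr, hKy', hKr2]
                  have h6 : 0 ≤ (M : ℝ) / K := by positivity
                  have h7 := pow_le_pow_left₀ h6 h5 2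
                  linarith only [h7]
              _ = 27648 * (1 / δ ^ 2) := by
                  field_simp
                  ring
    -- decomposition
    have hdec : ∑ n ∈ Icc 1 y, a n = ∑ n ∈ Icc 1 M, ((c n : ℝ) : ℂ) * a n +
        ∑ n ∈ Icc 1 y, ((1 - c n : ℝ) : ℂ) * a n - ∑ n ∈ Ioc y M, ((c n : ℝ) : ℂ) * a n := by
      have h1 : ∑ n ∈ Icc 1 M, ((c n : ℝ) : ℂ) * a n = ∑ n ∈ Icc 1 y, ((c n : ℝ) : ℂ) * a n +
          ∑ n ∈ Ioc y M, ((c n : ℝ) : ℂ) * a n := by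
        rw [hIcc, hIcc]
        exact (Finset.sum_Ioc_consecutive _ (Nat.zero_le y) (by omega)).symm
      have h2 : ∑ n ∈ Icc 1 y, a n = ∑ n ∈ Icc 1 y, ((c n : ℝ) : ℂ) * a n +
          ∑ n ∈ Icc 1 y, ((1 - c n : ℝ) : ℂ) * a n := by
        rw [← Finset.sum_add_distrib]
        refine Finset.sum_congr rfl fun n _ => ?_
        push_cast
        ring
      rw [h1, h2]
      ring
    have hII : ‖∑ n ∈ Icc 1 y, ((1 - c n : ℝ) : ℂ) * a n‖ ≤ 2 * (H * (4 * P + Real.log y)) := by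
      calc ‖∑ n ∈ Icc 1 y, ((1 - c n : ℝ) : ℂ) * a n‖
          ≤ ∑ n ∈ Icc 1 y, 2 * (‖a n‖ / n) := by
            refine (norm_sum_le _ _).trans (Finset.sum_le_sum fun n hn => ?_)
            obtain ⟨h1, h2⟩ := mem_Icc.1 hn
            rw [norm_mul, Complex.norm_real, Real.norm_eq_abs]
            have h3 := swh_c_low K y hK n h1 h2
            have h4 := (swh_c_bounds K M hK n).2
            have h5 : 0 ≤ 1 - c n := by
              rw [hc]
              simp only []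
              linarith only [h4]
            rw [abs_of_nonneg h5]
            calc (1 - c n) * ‖a n‖ ≤ (2 / (n : ℝ)) * ‖a n‖ :=
                  mul_le_mul_of_nonneg_right h3 (norm_nonneg _)
              _ = 2 * (‖a n‖ / n) := by ring
        _ = 2 * ∑ n ∈ Icc 1 y, ‖a n‖ / n := by rw [Finset.mul_sum]
        _ ≤ 2 * (H * (4 * P + Real.log y)) :=
            mul_le_mul_of_nonneg_left (swh_logsum (fun n => ‖a n‖) H P hH hP y
              (fun k hk => hA0 k (by omega))) (by norm_num)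
    have hIII : ‖∑ n ∈ Ioc y M, ((c n : ℝ) : ℂ) * a n‖ ≤ H * (δ * y + 3 * P) := by
      calc ‖∑ n ∈ Ioc y M, ((c n : ℝ) : ℂ) * a n‖ ≤ ∑ n ∈ Ioc y M, ‖a n‖ := by
            refine (norm_sum_le _ _).trans (Finset.sum_le_sum fun n _ => ?_)
            rw [norm_mul, Complex.norm_real, Real.norm_eq_abs]
            obtain ⟨h3, h4⟩ := swh_c_bounds K M hK n
            rw [hc]
            simp only []
            rw [abs_of_nonneg h3]
            calc _ ≤ 1 * ‖a n‖ := mul_le_mul_of_nonneg_right h4 (norm_nonneg _)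
              _ = _ := one_mul _
        _ ≤ H * ((M : ℝ) - y + P) := hA y M (by omega) hM2
        _ ≤ H * (δ * y + 3 * P) := by
            refine mul_le_mul_of_nonneg_left ?_ hH
            rw [hMr]
            linarith only [hP, hδ, hδ2, hbig, hKr]
    have hlogM : Real.log M ≤ 2 * Real.log y := by
      calc Real.log M ≤ Real.log (2 * y) := Real.log_le_log hM0 hM2r
        _ = Real.log 2 + Real.log y := Real.log_mul (by norm_num) (by positivity)
        _ ≤ 2 * Real.log y := by linarith only [hlog2]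
    have htot : ‖∑ n ∈ Icc 1 y, a n‖ ≤ B * (3 * (1 + Real.log M) + 27648 * (1 / δ ^ 2)) +
        2 * (H * (4 * P + Real.log y)) + H * (δ * y + 3 * P) := by
      rw [hdec]
      refine (norm_sub_le _ _).trans (add_le_add ((norm_add_le _ _).trans (add_le_add hI hII)) hIII)
    have f1 : B * (3 * (1 + Real.log M) + 27648 * (1 / δ ^ 2)) ≤
        30000 * (B * (1 / δ ^ 3 + Real.log y)) := by
      have : 3 * (1 + Real.log M) + 27648 * (1 / δ ^ 2) ≤ 30000 * (1 / δ ^ 3 + Real.log y) := by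
        linarith only [hδ, hδ2, hlog0, hd2, hd0, hlogM]
      calc _ ≤ B * (30000 * (1 / δ ^ 3 + Real.log y)) := mul_le_mul_of_nonneg_left this hB
        _ = _ := by ring
    have f2 : 2 * (H * (4 * P + Real.log y)) + H * (δ * y + 3 * P) ≤
        30000 * (H * (δ * y + Real.log y + P / δ ^ 3)) := by
      have h1 : 0 ≤ δ * y := by positivity
      have h2 : 2 * (4 * P + Real.log y) + (δ * y + 3 * P) ≤
          30000 * (δ * y + Real.log y + P / δ ^ 3) := by
        have h3 : 0 ≤ P / δ ^ 3 := by positivity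
        linarith only [hP, hδ, hδ2, hlog0, hP3, hbig]
      calc 2 * (H * (4 * P + Real.log y)) + H * (δ * y + 3 * P)
          = H * (2 * (4 * P + Real.log y) + (δ * y + 3 * P)) := by ring
        _ ≤ H * (30000 * (δ * y + Real.log y + P / δ ^ 3)) := mul_le_mul_of_nonneg_left h2 hH
        _ = _ := by ring
    linarith only [htot, f1, f2]

end Pool.Agent.H91.EHA

end
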