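import Pool.Agent.H15.TB1.M03
import Pool.Agent.H15.TB1.M05
import Pool.Agent.H15.TB1.M06

/-! The parts of this file: H14.CO.Ch, H14.CO.ZetaG. -/

section

/-!
# CO module Ch: the factor `ch` of the functional equation
-/

set_option autoImplicit false

namespace Pool.Agent.H14.CO

open Set MeasureTheory Complex

theorem Ch_ne_neg_nat {w : ℂ} (hw : 0 < w.re) (n : ℕ) : w ≠ -n := by
  intro h
  have h1 := congrArg Complex.re h
  simp only [neg_re, natCast_re] at h1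
  have : (0 : ℝ) ≤ n := n.cast_nonneg
  linarith only [hw, h1]

theorem differentiableAt_ch (w : ℂ) (hw : 0 < w.re) : DifferentiableAt ℂ ch w := by
  have h2π : (2 * Real.pi : ℂ) ≠ 0 := by
    have := Real.pi_ne_zero
    simp [this]
  unfold ch
  refine DifferentiableAt.mul (DifferentiableAt.mul (DifferentiableAt.mul ?_ ?_) ?_) ?_
  · exact differentiableAt_const _
  · exact (differentiableAt_id.neg).const_cpow (Or.inl h2π)
  · exact differentiableAt_Gamma w (fun n => Ch_ne_neg_nat hw n)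
  · fun_prop

/-- functional equation, `riemannZeta_one_sub`. -/
theorem ch_fe (w : ℂ) (hw : 0 < w.re) (hw1 : w ≠ 1) :
    riemannZeta (1 - w) = ch w * riemannZeta w := by
  rw [riemannZeta_one_sub (fun n => Ch_ne_neg_nat hw n) hw1]
  rfl

theorem Ch_conj (w : ℂ) : ch ((starRingEnd ℂ) w) = (starRingEnd ℂ) (ch w) := by
  have hc2 : (starRingEnd ℂ) 2 = 2 := map_ofNat _ 2
  unfold ch
  simp only [map_mul]
  congr 1
  · congr 1
    · congr 1
      · exact hc2.symm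
      · have harg : (2 * Real.pi : ℂ).arg ≠ Real.pi := by
          have h1 : (2 * Real.pi : ℂ) = ((2 * Real.pi : ℝ) : ℂ) := by push_cast; ring
          rw [h1, arg_ofReal_of_nonneg (by positivity)]
          exact Real.pi_ne_zero.symm
        have h2 := cpow_conj (2 * Real.pi : ℂ) (-w) harg
        rw [← map_neg]
        rw [h2]
        congr 1
        rw [map_mul, hc2, conj_ofReal]
    · exact Gamma_conj w
  · rw [← cos_conj]
    congr 1
    rw [map_div₀, map_mul, hc2, conj_ofReal]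

theorem Ch_mul (w : ℂ) (hs : Complex.sin (Real.pi * w) ≠ 0) : ch w * ch (1 - w) = 1 := by
  have h2π : (2 * Real.pi : ℂ) ≠ 0 := by
    have := Real.pi_ne_zero
    simp [this]
  have hπ : (Real.pi : ℂ) ≠ 0 := by
    exact_mod_cast Real.pi_ne_zero
  unfold ch
  have h1 : (2 * Real.pi : ℂ) ^ (-w) * (2 * Real.pi : ℂ) ^ (-(1 - w)) = (2 * Real.pi : ℂ)⁻¹ := by
    rw [← cpow_add _ _ h2π, ← cpow_neg_one]
    congr 1
    ring
  have h2 := Gamma_mul_Gamma_one_sub w
  have h3 : Complex.cos (Real.pi * (1 - w) / 2) = Complex.sin (Real.pi * w / 2) := by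
    have : (Real.pi : ℂ) * (1 - w) / 2 = Real.pi / 2 - Real.pi * w / 2 := by ring
    rw [this, cos_pi_div_two_sub]
  have h4 : Complex.sin (Real.pi * w) =
      2 * Complex.sin (Real.pi * w / 2) * Complex.cos (Real.pi * w / 2) := by
    rw [← sin_two_mul]
    congr 1
    ring
  rw [h3]
  calc 2 * (2 * Real.pi : ℂ) ^ (-w) * Complex.Gamma w * Complex.cos (Real.pi * w / 2) *
        (2 * (2 * Real.pi : ℂ) ^ (-(1 - w)) * Complex.Gamma (1 - w) * Complex.sin (Real.pi * w / 2))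
      = 2 * ((2 * Real.pi : ℂ) ^ (-w) * (2 * Real.pi : ℂ) ^ (-(1 - w))) *
          (Complex.Gamma w * Complex.Gamma (1 - w)) *
          (2 * Complex.sin (Real.pi * w / 2) * Complex.cos (Real.pi * w / 2)) := by ring
    _ = 1 := by
      rw [h1, h2, ← h4]
      field_simp

theorem Ch_sin_ne (u : ℝ) : Complex.sin (Real.pi * (1 / 2 + u * I)) ≠ 0 := by
  have h1 : (Real.pi : ℂ) * (1 / 2 + u * I) = (Real.pi * u : ℝ) * I + Real.pi / 2 := by
    push_cast
    ring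
  rw [h1, Complex.sin_add_pi_div_two, Complex.cos_mul_I, ← ofReal_cosh]
  exact_mod_cast (Real.cosh_pos _).ne'

/-- `‖Γ(1/2+iu)‖² = π / cosh(π u)` (reflection formula) and
`‖cos(π/4 + iπu/2)‖² = cosh(π u)/2`. -/
theorem norm_ch_half (u : ℝ) : ‖ch (1 / 2 + u * I)‖ = 1 := by
  have h1 := Ch_mul (1 / 2 + u * I) (Ch_sin_ne u)
  have h2 : (1 : ℂ) - (1 / 2 + u * I) = (starRingEnd ℂ) (1 / 2 + u * I) := by
    simp only [map_add, map_mul, conj_ofReal, conj_I, map_div₀, map_one, map_ofNat]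
    ring
  rw [h2, Ch_conj] at h1
  have h3 := congrArg norm h1
  rw [norm_mul, RCLike.norm_conj, norm_one] at h3
  have h4 : 0 ≤ ‖ch (1 / 2 + u * I)‖ := norm_nonneg _
  nlinarith only [h3, h4]

/-- `‖Γ(σ+iu)‖ / Γ(σ)` is nondecreasing in `σ`. -/
theorem Ch_gamma_mono {σ σ' : ℝ} (hσ : 0 < σ) (hσσ' : σ ≤ σ') (u : ℝ) :
    ‖Complex.Gamma (σ + u * I)‖ * ‖Complex.Gamma (σ' : ℂ)‖ ≤
      ‖Complex.Gamma (σ' + u * I)‖ * ‖Complex.Gamma (σ : ℂ)‖ := by
  have t1 := (GammaSeq_tendsto_Gamma (σ + u * I)).norm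
  have t2 := (GammaSeq_tendsto_Gamma (σ' : ℂ)).norm
  have t3 := (GammaSeq_tendsto_Gamma (σ' + u * I)).norm
  have t4 := (GammaSeq_tendsto_Gamma (σ : ℂ)).norm
  refine le_of_tendsto_of_tendsto (t1.mul t2) (t3.mul t4) ?_
  filter_upwards [Filter.eventually_ge_atTop 1] with n hn
  have hn0 : (0 : ℝ) < n := by exact_mod_cast hn
  have hpow : ∀ s : ℂ, ‖((n : ℂ)) ^ s‖ = (n : ℝ) ^ s.re := by
    intro s
    have := norm_cpow_eq_rpow_re_of_pos hn0 s
    simpa using this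
  have hσ' : 0 < σ' := lt_of_lt_of_le hσ hσσ'
  unfold GammaSeq
  simp only [norm_mul, norm_div, norm_prod, hpow]
  have hre1 : ((σ : ℂ) + u * I).re = σ := by simp
  have hre2 : ((σ' : ℂ) + u * I).re = σ' := by simp
  rw [hre1, hre2, ofReal_re, ofReal_re]
  -- the product inequality
  have hterm : ∀ j ∈ Finset.range (n + 1), ‖(σ' : ℂ) + u * I + j‖ * ‖(σ : ℂ) + j‖ ≤
      ‖(σ : ℂ) + u * I + j‖ * ‖(σ' : ℂ) + j‖ := by
    intro j _
    have hj : (0 : ℝ) ≤ j := j.cast_nonneg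
    have e1 : (σ' : ℂ) + u * I + j = ((σ' + j : ℝ) : ℂ) + (u : ℝ) * I := by push_cast; ring
    have e2 : (σ : ℂ) + u * I + j = ((σ + j : ℝ) : ℂ) + (u : ℝ) * I := by push_cast; ring
    have e3 : (σ : ℂ) + j = ((σ + j : ℝ) : ℂ) := by push_cast; ring
    have e4 : (σ' : ℂ) + j = ((σ' + j : ℝ) : ℂ) := by push_cast; ring
    rw [e1, e2, e3, e4, norm_add_mul_I, norm_add_mul_I, norm_real, norm_real,
      Real.norm_of_nonneg (by linarith only [hσ] : (0 : ℝ) ≤ σ + j),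
      Real.norm_of_nonneg (by linarith only [hσ, hσσ'] : (0 : ℝ) ≤ σ' + j)]
    apply le_of_sq_le_sq _ (by positivity)
    rw [mul_pow, mul_pow, Real.sq_sqrt (by positivity), Real.sq_sqrt (by positivity)]
    have h5 : (σ + j) ^ 2 ≤ (σ' + j) ^ 2 := by
      apply pow_le_pow_left₀ (by linarith)
      linarith only [hσσ']
    nlinarith only [h5, sq_nonneg u]
  have hprod := Finset.prod_le_prod (s := Finset.range (n + 1))
    (f := fun j : ℕ => ‖(σ' : ℂ) + u * I + j‖ * ‖(σ : ℂ) + j‖)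
    (g := fun j : ℕ => ‖(σ : ℂ) + u * I + j‖ * ‖(σ' : ℂ) + j‖)
    (fun j _ => by positivity) hterm
  rw [Finset.prod_mul_distrib, Finset.prod_mul_distrib] at hprod
  have hpos : ∀ (τ : ℝ) (v : ℝ), 0 < τ → 0 < ∏ j ∈ Finset.range (n + 1), ‖(τ : ℂ) + v * I + (j : ℂ)‖ := by
    intro τ v hτ
    apply Finset.prod_pos
    intro j _
    rw [norm_pos_iff]
    intro h
    have h6 := congrArg Complex.re h
    simp at h6
    have hj : (0 : ℝ) ≤ j := j.cast_nonneg
    linarith only [hτ, h6]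
  have p1 := hpos σ u hσ
  have p2 := hpos σ' u hσ'
  have p3 : 0 < ∏ j ∈ Finset.range (n + 1), ‖(σ : ℂ) + (j : ℂ)‖ := by
    have := hpos σ 0 hσ
    simpa using this
  have p4 : 0 < ∏ j ∈ Finset.range (n + 1), ‖(σ' : ℂ) + (j : ℂ)‖ := by
    have := hpos σ' 0 hσ'
    simpa using this
  have hn1 : 0 ≤ (n : ℝ) ^ σ * ‖((n.factorial : ℕ) : ℂ)‖ * ((n : ℝ) ^ σ' * ‖((n.factorial : ℕ) : ℂ)‖) := by
    positivity
  rw [div_mul_div_comm, div_mul_div_comm]
  rw [div_le_div_iff₀ (by positivity) (by positivity)]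
  calc (n : ℝ) ^ σ * ‖((n.factorial : ℕ) : ℂ)‖ * ((n : ℝ) ^ σ' * ‖((n.factorial : ℕ) : ℂ)‖) *
        ((∏ j ∈ Finset.range (n + 1), ‖(σ' : ℂ) + u * I + (j : ℂ)‖) *
          ∏ j ∈ Finset.range (n + 1), ‖(σ : ℂ) + (j : ℂ)‖)
      ≤ (n : ℝ) ^ σ * ‖((n.factorial : ℕ) : ℂ)‖ * ((n : ℝ) ^ σ' * ‖((n.factorial : ℕ) : ℂ)‖) *
        ((∏ j ∈ Finset.range (n + 1), ‖(σ : ℂ) + u * I + (j : ℂ)‖) *
          ∏ j ∈ Finset.range (n + 1), ‖(σ' : ℂ) + (j : ℂ)‖) :=
        mul_le_mul_of_nonneg_left hprod hn1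
    _ = _ := by ring

theorem Ch_gamma_half_sq (u : ℝ) : ‖Complex.Gamma (1 / 2 + u * I)‖ ^ 2 ≤
    2 * Real.pi * Real.exp (-(Real.pi * |u|)) := by
  have h1 := Gamma_mul_Gamma_one_sub (1 / 2 + u * I)
  have h2 : (1 : ℂ) - (1 / 2 + u * I) = (starRingEnd ℂ) (1 / 2 + u * I) := by
    simp only [map_add, map_mul, conj_ofReal, conj_I, map_div₀, map_one, map_ofNat]
    ring
  rw [h2, Gamma_conj] at h1
  have h3 := congrArg norm h1
  rw [norm_mul, RCLike.norm_conj, norm_div] at h3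
  have h4 : (Real.pi : ℂ) * (1 / 2 + u * I) = (Real.pi * u : ℝ) * I + Real.pi / 2 := by
    push_cast
    ring
  rw [h4, Complex.sin_add_pi_div_two, Complex.cos_mul_I, ← ofReal_cosh, norm_real, norm_real,
    Real.norm_of_nonneg Real.pi_pos.le, Real.norm_of_nonneg (Real.cosh_pos _).le] at h3
  rw [sq, h3]
  have h5 : Real.exp (Real.pi * |u|) / 2 ≤ Real.cosh (Real.pi * u) := by
    rw [← Real.cosh_abs, abs_mul, abs_of_pos Real.pi_pos, Real.cosh_eq]
    have := Real.exp_pos (-(Real.pi * |u|))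
    linarith only [this]
  rw [div_le_iff₀ (Real.cosh_pos _)]
  have h6 : Real.exp (-(Real.pi * |u|)) * Real.exp (Real.pi * |u|) = 1 := by
    rw [← Real.exp_add]
    simp
  have h7 : 0 < 2 * Real.pi * Real.exp (-(Real.pi * |u|)) := by positivity
  calc Real.pi = 2 * Real.pi * Real.exp (-(Real.pi * |u|)) * (Real.exp (Real.pi * |u|) / 2) := by
        linear_combination (-Real.pi) * h6
    _ ≤ _ := mul_le_mul_of_nonneg_left h5 h7.le

theorem Ch_gamma_one_sq (u : ℝ) : ‖Complex.Gamma (1 + u * I)‖ ^ 2 ≤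
    (1 + 2 * Real.pi * |u|) * Real.exp (-(Real.pi * |u|)) := by
  rcases eq_or_ne u 0 with rfl | hu
  · simp
  have huI : (u : ℂ) * I ≠ 0 := mul_ne_zero (by exact_mod_cast hu) I_ne_zero
  have h1 := Gamma_mul_Gamma_one_sub (u * I)
  have h0 : Complex.Gamma (1 + u * I) = u * I * Complex.Gamma (u * I) := by
    rw [add_comm, Gamma_add_one _ huI]
  have h2 : (1 : ℂ) - u * I = (starRingEnd ℂ) (1 + u * I) := by
    simp only [map_add, map_mul, conj_ofReal, conj_I, map_one]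
    ring
  rw [h2, Gamma_conj] at h1
  have h3 := congrArg norm h1
  rw [norm_mul, RCLike.norm_conj, norm_div] at h3
  have h4 : (Real.pi : ℂ) * (u * I) = (Real.pi * u : ℝ) * I := by
    push_cast
    ring
  rw [h4, Complex.sin_mul_I, norm_mul, norm_I, mul_one, ← ofReal_sinh, norm_real, norm_real,
    Real.norm_of_nonneg Real.pi_pos.le] at h3
  have h5 : ‖Complex.Gamma (1 + u * I)‖ = |u| * ‖Complex.Gamma (u * I)‖ := by
    rw [h0, norm_mul, norm_mul, norm_I, mul_one, norm_real, Real.norm_eq_abs]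
  have h6 : ‖Complex.Gamma (1 + u * I)‖ ^ 2 = |u| * (Real.pi / ‖Real.sinh (Real.pi * u)‖) := by
    rw [← h3]
    rw [sq]
    nth_rewrite 1 [h5]
    ring
  rw [h6]
  have hx : 0 < |u| := abs_pos.mpr hu
  have h7 : ‖Real.sinh (Real.pi * u)‖ = Real.sinh (Real.pi * |u|) := by
    rw [Real.norm_eq_abs]
    rw [Real.abs_sinh, abs_mul, abs_of_pos Real.pi_pos]
  rw [h7]
  set y : ℝ := Real.pi * |u| with hy
  have hy0 : 0 < y := by positivity
  have hs : 0 < Real.sinh y := Real.sinh_pos_iff.mpr hy0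
  have h8 : |u| * (Real.pi / Real.sinh y) = y / Real.sinh y := by
    rw [hy]
    ring
  have h9 : 1 + 2 * Real.pi * |u| = 1 + 2 * y := by
    rw [hy]
    ring
  rw [h8, h9, div_le_iff₀ hs, Real.sinh_eq]
  have ha : Real.exp (-y) * Real.exp y = 1 := by
    rw [← Real.exp_add]
    simp
  have hb : Real.exp (-y) * Real.exp (-y) = Real.exp (-(2 * y)) := by
    rw [← Real.exp_add]
    congr 1
    ring
  have hc : Real.exp (-(2 * y)) * (1 + 2 * y) ≤ 1 := by
    have h10 : 1 + 2 * y ≤ Real.exp (2 * y) := by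
      have := Real.add_one_le_exp (2 * y)
      linarith only [this]
    calc Real.exp (-(2 * y)) * (1 + 2 * y) ≤ Real.exp (-(2 * y)) * Real.exp (2 * y) :=
          mul_le_mul_of_nonneg_left h10 (Real.exp_pos _).le
      _ = 1 := by
        rw [← Real.exp_add]
        simp
  have hd : (1 + 2 * y) * Real.exp (-y) * ((Real.exp y - Real.exp (-y)) / 2) =
      ((1 + 2 * y) - Real.exp (-(2 * y)) * (1 + 2 * y)) / 2 := by
    linear_combination ((1 + 2 * y) / 2) * ha - ((1 + 2 * y) / 2) * hb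
  rw [hd]
  linarith only [hc]

/-- `‖Γ(j/2+iu)‖ ≤ C (1+|u|)^{(j-1)/2} exp(-π|u|/2)`. -/
theorem Ch_gamma_half_int (j : ℕ) : ∃ C : ℝ, 0 < C ∧ ∀ u : ℝ,
    ‖Complex.Gamma ((((j : ℝ) + 1) / 2 : ℝ) + u * I)‖ ≤
      C * (1 + |u|) ^ ((j : ℝ) / 2) * Real.exp (-(Real.pi * |u| / 2)) := by
  induction j using Nat.twoStepInduction with
  | zero =>
    refine ⟨Real.sqrt (2 * Real.pi), by positivity, fun u => ?_⟩
    have h := Ch_gamma_half_sq u
    have e : (((((0 : ℕ) : ℝ) + 1) / 2 : ℝ) : ℂ) + u * I = 1 / 2 + u * I := by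
      push_cast
      ring
    rw [e]
    have e2 : (1 + |u|) ^ (((0 : ℕ) : ℝ) / 2) = 1 := by simp
    rw [e2, mul_one]
    apply le_of_sq_le_sq _ (by positivity)
    rw [mul_pow, Real.sq_sqrt (by positivity), ← Real.exp_nat_mul]
    have e4 : ((2 : ℕ) : ℝ) * -(Real.pi * |u| / 2) = -(Real.pi * |u|) := by
      push_cast
      ring
    rw [e4]
    exact h
  | one =>
    refine ⟨Real.sqrt (2 * Real.pi), by positivity, fun u => ?_⟩
    have h := Ch_gamma_one_sq u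
    have e : (((((1 : ℕ) : ℝ) + 1) / 2 : ℝ) : ℂ) + u * I = 1 + u * I := by
      push_cast
      ring
    rw [e]
    apply le_of_sq_le_sq _ (by positivity)
    rw [mul_pow, mul_pow, Real.sq_sqrt (by positivity), ← Real.exp_nat_mul,
      ← Real.rpow_natCast ((1 + |u|) ^ (((1 : ℕ) : ℝ) / 2)) 2, ← Real.rpow_mul (by positivity)]
    have e3 : (((1 : ℕ) : ℝ) / 2 * ((2 : ℕ) : ℝ)) = 1 := by norm_num
    rw [e3, Real.rpow_one]
    have e4 : ((2 : ℕ) : ℝ) * -(Real.pi * |u| / 2) = -(Real.pi * |u|) := by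
      push_cast
      ring
    rw [e4]
    refine h.trans ?_
    apply mul_le_mul_of_nonneg_right _ (Real.exp_pos _).le
    have := Real.pi_gt_three
    have hu := abs_nonneg u
    nlinarith only [this]
  | more j ih _ =>
    obtain ⟨C, hC, hj⟩ := ih
    refine ⟨C * (((j : ℝ) + 1) / 2 + 1), by positivity, fun u => ?_⟩
    have hjn : (0 : ℝ) ≤ j := j.cast_nonneg
    have hne : (((((j : ℝ) + 1) / 2 : ℝ) : ℂ) + u * I) ≠ 0 := by
      intro h
      have h6 := congrArg Complex.re h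
      simp only [add_re, ofReal_re, mul_re, I_re, mul_zero, ofReal_im, I_im, mul_one, sub_self,
        add_zero, zero_re] at h6
      linarith
    have e : ((((((j + 2 : ℕ)) : ℝ) + 1) / 2 : ℝ) : ℂ) + u * I =
        ((((j : ℝ) + 1) / 2 : ℝ) : ℂ) + u * I + 1 := by
      push_cast
      ring
    rw [e, Gamma_add_one _ hne, norm_mul]
    have h1 : ‖((((j : ℝ) + 1) / 2 : ℝ) : ℂ) + u * I‖ ≤ (((j : ℝ) + 1) / 2 + 1) * (1 + |u|) := by
      refine (norm_add_le _ _).trans ?_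
      rw [norm_mul, norm_I, mul_one, norm_real, norm_real,
        Real.norm_of_nonneg (by positivity : (0 : ℝ) ≤ ((j : ℝ) + 1) / 2), Real.norm_eq_abs]
      have hu := abs_nonneg u
      nlinarith
    have h2 := hj u
    have h3 : (1 + |u|) ^ ((((j + 2 : ℕ)) : ℝ) / 2) = (1 + |u|) ^ ((j : ℝ) / 2) * (1 + |u|) := by
      have hu := abs_nonneg u
      rw [show ((((j + 2 : ℕ)) : ℝ) / 2) = (j : ℝ) / 2 + 1 by push_cast; ring,
        Real.rpow_add (by positivity), Real.rpow_one]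
    rw [h3]
    calc ‖((((j : ℝ) + 1) / 2 : ℝ) : ℂ) + u * I‖ *
          ‖Complex.Gamma (((((j : ℝ) + 1) / 2 : ℝ) : ℂ) + u * I)‖
        ≤ ((((j : ℝ) + 1) / 2 + 1) * (1 + |u|)) *
          (C * (1 + |u|) ^ ((j : ℝ) / 2) * Real.exp (-(Real.pi * |u| / 2))) := by
          apply mul_le_mul h1 h2 (norm_nonneg _)
          have hu := abs_nonneg u
          positivity
      _ = _ := by ring

theorem Ch_cos_le (w : ℂ) : ‖Complex.cos (Real.pi * w / 2)‖ ≤ Real.exp (Real.pi * |w.im| / 2) := by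
  have h1 : ∀ z : ℂ, ‖Complex.cos z‖ ≤ Real.exp |z.im| := by
    intro z
    rw [Complex.cos, norm_div]
    have h2 : ‖Complex.exp (z * I)‖ ≤ Real.exp |z.im| := by
      rw [norm_exp]
      apply Real.exp_le_exp.mpr
      simp only [mul_re, I_re, mul_zero, I_im, mul_one, zero_sub]
      exact neg_le_abs _
    have h3 : ‖Complex.exp (-z * I)‖ ≤ Real.exp |z.im| := by
      rw [norm_exp]
      apply Real.exp_le_exp.mpr
      simp only [neg_mul, neg_re, mul_re, I_re, mul_zero, I_im, mul_one, zero_sub, neg_neg]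
      exact le_abs_self _
    have h4 : ‖(2 : ℂ)‖ = 2 := by simp
    rw [h4, div_le_iff₀ (by norm_num)]
    refine (norm_add_le _ _).trans ?_
    linarith
  refine (h1 _).trans ?_
  apply Real.exp_le_exp.mpr
  have h5 : ((Real.pi : ℂ) * w / 2).im = Real.pi * w.im / 2 := by
    have : (Real.pi : ℂ) * w / 2 = ((Real.pi / 2 : ℝ) : ℂ) * w := by
      push_cast
      ring
    rw [this, im_ofReal_mul]
    ring
  rw [h5, abs_div, abs_mul, abs_of_pos Real.pi_pos]
  simp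

/-- `‖ch w‖ ≤ C (1+|Im w|)^{Re w}` for `1/2 ≤ Re w ≤ B`.

PROOF. `‖Γ(σ+iu)‖ / Γ(σ)` is nondecreasing in `σ` (Euler's product), so it is enough to bound
`Γ` at the half integers, where the reflection formula and the recursion give
`‖Γ(j/2+iu)‖ ≤ C (1+|u|)^{(j-1)/2} exp(-π|u|/2)`; and `‖cos(πw/2)‖ ≤ exp(π|u|/2)`. -/
theorem ch_growth (B : ℝ) (hB : 1 ≤ B) : ∃ C : ℝ, 0 < C ∧ ∀ w : ℂ, 1 / 2 ≤ w.re → w.re ≤ B →
    ‖ch w‖ ≤ C * (1 + |w.im|) ^ w.re := by
  choose C hC hCu using Ch_gamma_half_int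
  -- bound of Gamma on [1/2, B]
  have hcompact : IsCompact (Set.Icc (1 / 2 : ℝ) B) := isCompact_Icc
  have hcont : ContinuousOn (fun σ : ℝ => ‖Complex.Gamma (σ : ℂ)‖) (Set.Icc (1 / 2 : ℝ) B) := by
    intro σ hσ
    have hσ0 : 0 < σ := by linarith only [hσ, hσ.1]
    have h1 : ContinuousAt Complex.Gamma (σ : ℂ) :=
      (differentiableAt_Gamma (σ : ℂ) (fun n => Ch_ne_neg_nat (by simpa using hσ0) n)).continuousAt
    have h2 : ContinuousAt (fun σ : ℝ => Complex.Gamma (σ : ℂ)) σ :=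
      ContinuousAt.comp (f := fun σ : ℝ => (σ : ℂ)) h1 continuous_ofReal.continuousAt
    exact h2.norm.continuousWithinAt
  obtain ⟨G, hG⟩ := (hcompact.image_of_continuousOn hcont).bddAbove
  have hG' : ∀ σ : ℝ, 1 / 2 ≤ σ → σ ≤ B → ‖Complex.Gamma (σ : ℂ)‖ ≤ G := fun σ h1 h2 =>
    hG ⟨σ, ⟨h1, h2⟩, rfl⟩
  set G' : ℝ := max G 1 with hG'def
  have hG'0 : 0 < G' := lt_of_lt_of_le one_pos (le_max_right _ _)
  set N : ℕ := ⌈2 * B⌉₊ with hN
  set S : ℝ := ∑ j ∈ Finset.range (N + 1), C j / ‖Complex.Gamma ((((j : ℝ) + 1) / 2 : ℝ) : ℂ)‖ with hS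
  have hGpos : ∀ j : ℕ, 0 < ‖Complex.Gamma ((((j : ℝ) + 1) / 2 : ℝ) : ℂ)‖ := by
    intro j
    rw [norm_pos_iff]
    apply Gamma_ne_zero_of_re_pos
    rw [ofReal_re]
    positivity
  have hSpos : 0 < S := by
    apply Finset.sum_pos
    · intro j _
      exact div_pos (hC j) (hGpos j)
    · exact ⟨0, by simp⟩
  refine ⟨2 * (S * G'), by positivity, fun w hw1 hw2 => ?_⟩
  set σ : ℝ := w.re with hσdef
  set u : ℝ := w.im with hudef
  have hσ0 : 0 < σ := by linarith only [hw1]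
  have hw : w = (σ : ℂ) + u * I := (re_add_im w).symm
  -- choose j
  obtain ⟨j, hj1, hj2, hj3⟩ : ∃ j : ℕ, σ ≤ ((j : ℝ) + 1) / 2 ∧ (j : ℝ) / 2 ≤ σ ∧ j < N + 1 := by
    have hceil : 1 ≤ ⌈2 * σ⌉₊ := by
      rw [Nat.one_le_ceil_iff]
      linarith only [hσ0]
    refine ⟨⌈2 * σ⌉₊ - 1, ?_, ?_, ?_⟩
    · have h1 : 2 * σ ≤ (⌈2 * σ⌉₊ : ℝ) := Nat.le_ceil _
      rw [Nat.cast_sub hceil]
      push_cast
      linarith only [h1]
    · have h1 : (⌈2 * σ⌉₊ : ℝ) < 2 * σ + 1 := Nat.ceil_lt_add_one (by linarith only [hσ0])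
      rw [Nat.cast_sub hceil]
      push_cast
      linarith only [h1]
    · have h1 : ⌈2 * σ⌉₊ ≤ N := Nat.ceil_mono (by linarith only [hw2])
      omega
  have hmono := Ch_gamma_mono hσ0 hj1 u
  have hcu := hCu j u
  have hu0 : 0 ≤ |u| := abs_nonneg u
  have hGam : ‖Complex.Gamma w‖ ≤ (S * G') * (1 + |u|) ^ σ * Real.exp (-(Real.pi * |u| / 2)) := by
    rw [hw]
    have hgj := hGpos j
    have h1 : ‖Complex.Gamma ((σ : ℂ) + u * I)‖ ≤
        ‖Complex.Gamma (((((j : ℝ) + 1) / 2 : ℝ) : ℂ) + u * I)‖ * ‖Complex.Gamma (σ : ℂ)‖ /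
          ‖Complex.Gamma ((((j : ℝ) + 1) / 2 : ℝ) : ℂ)‖ := by
      rw [le_div_iff₀ hgj]
      exact hmono
    have h2 : C j / ‖Complex.Gamma ((((j : ℝ) + 1) / 2 : ℝ) : ℂ)‖ ≤ S := by
      apply Finset.single_le_sum (f := fun j : ℕ => C j / ‖Complex.Gamma ((((j : ℝ) + 1) / 2 : ℝ) : ℂ)‖)
      · intro i _
        exact (div_pos (hC i) (hGpos i)).le
      · exact Finset.mem_range.mpr hj3
    have h3 : ‖Complex.Gamma (σ : ℂ)‖ ≤ G' := (hG' σ hw1 hw2).trans (le_max_left _ _)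
    have h4 : (1 + |u|) ^ ((j : ℝ) / 2) ≤ (1 + |u|) ^ σ :=
      Real.rpow_le_rpow_of_exponent_le (by linarith only [hu0]) hj2
    calc ‖Complex.Gamma ((σ : ℂ) + u * I)‖
        ≤ ‖Complex.Gamma (((((j : ℝ) + 1) / 2 : ℝ) : ℂ) + u * I)‖ * ‖Complex.Gamma (σ : ℂ)‖ /
          ‖Complex.Gamma ((((j : ℝ) + 1) / 2 : ℝ) : ℂ)‖ := h1
      _ ≤ (C j * (1 + |u|) ^ ((j : ℝ) / 2) * Real.exp (-(Real.pi * |u| / 2))) * G' /
          ‖Complex.Gamma ((((j : ℝ) + 1) / 2 : ℝ) : ℂ)‖ := by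
          apply div_le_div_of_nonneg_right _ hgj.le
          apply mul_le_mul hcu h3 (norm_nonneg _)
          have := hC j
          positivity
      _ = (C j / ‖Complex.Gamma ((((j : ℝ) + 1) / 2 : ℝ) : ℂ)‖ * G') * (1 + |u|) ^ ((j : ℝ) / 2) *
          Real.exp (-(Real.pi * |u| / 2)) := by ring
      _ ≤ (S * G') * (1 + |u|) ^ σ * Real.exp (-(Real.pi * |u| / 2)) := by
          apply mul_le_mul_of_nonneg_right _ (Real.exp_pos _).le
          apply mul_le_mul _ h4 (by positivity) (by positivity)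
          exact mul_le_mul_of_nonneg_right h2 hG'0.le
  have hcos := Ch_cos_le w
  have hpow : ‖(2 * Real.pi : ℂ) ^ (-w)‖ ≤ 1 := by
    have h1 : (2 * Real.pi : ℂ) = ((2 * Real.pi : ℝ) : ℂ) := by push_cast; ring
    rw [h1, norm_cpow_eq_rpow_re_of_pos (by positivity), neg_re]
    apply Real.rpow_le_one_of_one_le_of_nonpos
    · have := Real.pi_gt_three
      linarith only [this]
    · linarith only [hσ0]
  unfold ch
  rw [norm_mul, norm_mul, norm_mul]
  have h2 : ‖(2 : ℂ)‖ = 2 := by simp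
  rw [h2]
  have hexp : Real.exp (-(Real.pi * |u| / 2)) * Real.exp (Real.pi * |u| / 2) = 1 := by
    rw [← Real.exp_add]
    simp
  calc 2 * ‖(2 * Real.pi : ℂ) ^ (-w)‖ * ‖Complex.Gamma w‖ * ‖Complex.cos (Real.pi * w / 2)‖
      ≤ 2 * 1 * ((S * G') * (1 + |u|) ^ σ * Real.exp (-(Real.pi * |u| / 2))) *
          Real.exp (Real.pi * |u| / 2) := by
        apply mul_le_mul _ hcos (norm_nonneg _) (by positivity)
        apply mul_le_mul _ hGam (norm_nonneg _) (by positivity)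
        linarith only [hpow]
    _ = 2 * (S * G') * (1 + |u|) ^ σ *
          (Real.exp (-(Real.pi * |u| / 2)) * Real.exp (Real.pi * |u| / 2)) := by ring
    _ = 2 * (S * G') * (1 + |u|) ^ σ := by rw [hexp, mul_one]

end Pool.Agent.H14.CO

end

section

/-!
# CO module ZetaG: the entire function `(s-1) ζ(s)` and its growth
-/

set_option autoImplicit false

namespace Pool.Agent.H14.CO

open Set MeasureTheory Complex

theorem Zt_eq (s : ℂ) (hs : s ≠ 1) : Zt s = (s - 1) * riemannZeta s := by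
  unfold Zt
  rw [Function.update_of_ne hs]

/-- removable singularity at `1` (`riemannZeta_residue_one`). -/
theorem differentiable_Zt : Differentiable ℂ Zt := by
  rw [← differentiableOn_univ, ← differentiableOn_compl_singleton_and_continuousAt_iff
    (c := (1 : ℂ)) Filter.univ_mem]
  constructor
  · intro s hs
    have hs1 : s ≠ 1 := by
      intro h
      exact hs.2 (by simp [h])
    have hd : DifferentiableAt ℂ (fun s : ℂ => (s - 1) * riemannZeta s) s :=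
      (differentiableAt_id.sub_const 1).mul (differentiableAt_riemannZeta hs1)
    have he : Zt =ᶠ[nhds s] (fun s : ℂ => (s - 1) * riemannZeta s) := by
      have hn : ({1}ᶜ : Set ℂ) ∈ nhds s := isOpen_compl_singleton.mem_nhds (by simpa using hs1)
      filter_upwards [hn] with z hz
      exact Zt_eq z (by simpa using hz)
    exact (hd.congr_of_eventuallyEq he).differentiableWithinAt
  · unfold Zt
    rw [continuousAt_update_same]
    exact riemannZeta_residue_one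

private theorem ZetaG_sub_one (s : ℂ) : ‖s - 1‖ ≤ 1 + ‖s‖ := by
  calc ‖s - 1‖ ≤ ‖s‖ + ‖(1 : ℂ)‖ := norm_sub_le _ _
    _ = 1 + ‖s‖ := by rw [norm_one]; ring

private theorem ZetaG_compact : ∃ K : ℝ, 0 < K ∧ ∀ s : ℂ, -1 / 2 ≤ s.re → s.re ≤ 2 → |s.im| ≤ 1 →
    ‖Zt s‖ ≤ K := by
  have hc : IsCompact (Metric.closedBall (0 : ℂ) 3) := isCompact_closedBall 0 3
  obtain ⟨K, hK⟩ := hc.exists_bound_of_continuousOn differentiable_Zt.continuous.continuousOn
  refine ⟨max K 1, lt_of_lt_of_le one_pos (le_max_right _ _), fun s h1 h2 h3 => ?_⟩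
  refine (hK s ?_).trans (le_max_left _ _)
  rw [mem_closedBall_zero_iff]
  calc ‖s‖ ≤ |s.re| + |s.im| := Complex.norm_le_abs_re_add_abs_im s
    _ ≤ 2 + 1 := by
        have : |s.re| ≤ 2 := abs_le.mpr ⟨by linarith only [h1], h2⟩
        linarith only [h3, this]
    _ = 3 := by norm_num

/-- `‖(s-1) ζ(s)‖ ≤ C (1+‖s‖)^{B+3}` for `Re s ≥ -B`.

PROOF. `Re s ≥ -1/2`: `Pool.Agent.H95.GC.zeta_growth` for `|Im s| ≥ 1` (file H95/GC/ZetaForm), and for
`|Im s| ≤ 1` either `Pool.Agent.H95.GC.zeta_formula` or (for `Re s ≥ 2`) the bound `ζ = O(1)` and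
compactness for `-1/2 ≤ Re s ≤ 2`. `-B ≤ Re s ≤ -1/2`: `ch_fe` with `w = 1 - s` and `ch_growth`,
`ζ(w)` bounded for `Re w ≥ 3/2` (`Pool.Agent.H95.GC.zeta_right_upper`). -/
theorem Zt_growth (B : ℝ) (hB : 1 ≤ B) : ∃ C : ℝ, 0 < C ∧ ∀ s : ℂ, -B ≤ s.re →
    ‖Zt s‖ ≤ C * (1 + ‖s‖) ^ (B + 3) := by
  obtain ⟨K, hK0, hK⟩ := ZetaG_compact
  obtain ⟨C1, hC10, hC1⟩ := ch_growth (B + 1) (by linarith)
  refine ⟨K + 5 * C1 + 5, by positivity, fun s hs => ?_⟩
  have hn : 0 ≤ ‖s‖ := norm_nonneg s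
  have hbase : (1 : ℝ) ≤ 1 + ‖s‖ := by linarith
  have hbase0 : (0 : ℝ) < 1 + ‖s‖ := by linarith
  have hP1 : (1 : ℝ) ≤ (1 + ‖s‖) ^ (B + 3) := Real.one_le_rpow hbase (by linarith)
  have hP0 : (0 : ℝ) ≤ (1 + ‖s‖) ^ (B + 3) := by linarith
  by_cases hre : -1 / 2 ≤ s.re
  · by_cases him : 1 ≤ |s.im|
    · have hs1 : s ≠ 1 := by
        rintro rfl
        simp at him
        linarith only [him]
      rw [Zt_eq s hs1, norm_mul]
      have h2 := Pool.Agent.H95.GC.zeta_growth s hre him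
      have h3 : (1 + ‖s‖) ^ (3 : ℕ) ≤ (1 + ‖s‖) ^ (B + 3) := by
        rw [← Real.rpow_natCast]
        exact Real.rpow_le_rpow_of_exponent_le hbase (by push_cast; linarith only [hB])
      calc ‖s - 1‖ * ‖riemannZeta s‖ ≤ (1 + ‖s‖) * (2 * (1 + ‖s‖) ^ 2) :=
            mul_le_mul (ZetaG_sub_one s) h2 (norm_nonneg _) hbase0.le
        _ = 2 * (1 + ‖s‖) ^ (3 : ℕ) := by ring
        _ ≤ 2 * (1 + ‖s‖) ^ (B + 3) := by linarith only [h3]
        _ ≤ (K + 5 * C1 + 5) * (1 + ‖s‖) ^ (B + 3) :=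
            mul_le_mul_of_nonneg_right (by linarith only [hK0, hC10]) hP0
    · push Not at him
      by_cases hre2 : s.re ≤ 2
      · calc ‖Zt s‖ ≤ K := hK s hre hre2 him.le
          _ ≤ K * (1 + ‖s‖) ^ (B + 3) := le_mul_of_one_le_right hK0.le hP1
          _ ≤ (K + 5 * C1 + 5) * (1 + ‖s‖) ^ (B + 3) :=
              mul_le_mul_of_nonneg_right (by linarith only [hC10]) hP0
      · push Not at hre2
        have hs1 : s ≠ 1 := by
          rintro rfl
          simp at hre2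
        rw [Zt_eq s hs1, norm_mul]
        have h2 := Pool.Agent.H95.GC.zeta_right_upper s (by linarith only [hre2])
        have h3 : (1 + ‖s‖) ≤ (1 + ‖s‖) ^ (B + 3) := by
          calc (1 + ‖s‖) = (1 + ‖s‖) ^ (1 : ℝ) := (Real.rpow_one _).symm
            _ ≤ (1 + ‖s‖) ^ (B + 3) :=
              Real.rpow_le_rpow_of_exponent_le hbase (by linarith only [hB])
        calc ‖s - 1‖ * ‖riemannZeta s‖ ≤ (1 + ‖s‖) * 5 :=
              mul_le_mul (ZetaG_sub_one s) h2 (norm_nonneg _) hbase0.le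
          _ ≤ 5 * (1 + ‖s‖) ^ (B + 3) := by linarith only [h3]
          _ ≤ (K + 5 * C1 + 5) * (1 + ‖s‖) ^ (B + 3) :=
            mul_le_mul_of_nonneg_right (by linarith only [hK0, hC10]) hP0
  · push Not at hre
    have hs1 : s ≠ 1 := by
      rintro rfl
      simp at hre
      linarith
    set w : ℂ := 1 - s with hw
    have hwre : w.re = 1 - s.re := by simp [hw]
    have hwim : w.im = -s.im := by simp [hw]
    have hw1 : w ≠ 1 := by
      intro h
      have := congrArg Complex.re h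
      rw [hwre] at this
      simp at this
      linarith only [hre, this]
    have hfe := ch_fe w (by rw [hwre]; linarith only [hre]) hw1
    have hws : 1 - w = s := by rw [hw]; ring
    rw [hws] at hfe
    have hcg := hC1 w (by rw [hwre]; linarith only [hre]) (by rw [hwre]; linarith)
    have hz := Pool.Agent.H95.GC.zeta_right_upper w (by rw [hwre]; linarith only [hre])
    have him : |w.im| ≤ ‖s‖ := by
      rw [hwim, abs_neg]
      exact Complex.abs_im_le_norm s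
    have h4 : (1 + |w.im|) ^ w.re ≤ (1 + ‖s‖) ^ (B + 1) := by
      calc (1 + |w.im|) ^ w.re ≤ (1 + ‖s‖) ^ w.re :=
            Real.rpow_le_rpow (by positivity) (by linarith only [him]) (by rw [hwre]; linarith only [hre])
        _ ≤ (1 + ‖s‖) ^ (B + 1) :=
            Real.rpow_le_rpow_of_exponent_le hbase (by rw [hwre]; linarith)
    have h5 : (1 + ‖s‖) * (1 + ‖s‖) ^ (B + 1) ≤ (1 + ‖s‖) ^ (B + 3) := by
      calc (1 + ‖s‖) * (1 + ‖s‖) ^ (B + 1)
          = (1 + ‖s‖) ^ (1 : ℝ) * (1 + ‖s‖) ^ (B + 1) := by rw [Real.rpow_one]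
        _ = (1 + ‖s‖) ^ (1 + (B + 1)) := (Real.rpow_add hbase0 _ _).symm
        _ ≤ (1 + ‖s‖) ^ (B + 3) :=
            Real.rpow_le_rpow_of_exponent_le hbase (by linarith only)
    rw [Zt_eq s hs1, hfe, norm_mul, norm_mul]
    have h6 : ‖ch w‖ * ‖riemannZeta w‖ ≤ (C1 * (1 + ‖s‖) ^ (B + 1)) * 5 := by
      refine mul_le_mul (hcg.trans ?_) hz (norm_nonneg _) (by positivity)
      exact mul_le_mul_of_nonneg_left h4 hC10.le
    calc ‖s - 1‖ * (‖ch w‖ * ‖riemannZeta w‖)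
        ≤ (1 + ‖s‖) * ((C1 * (1 + ‖s‖) ^ (B + 1)) * 5) :=
          mul_le_mul (ZetaG_sub_one s) h6 (by positivity) hbase0.le
      _ = 5 * C1 * ((1 + ‖s‖) * (1 + ‖s‖) ^ (B + 1)) := by ring
      _ ≤ 5 * C1 * (1 + ‖s‖) ^ (B + 3) := mul_le_mul_of_nonneg_left h5 (by positivity)
      _ ≤ (K + 5 * C1 + 5) * (1 + ‖s‖) ^ (B + 3) :=
          mul_le_mul_of_nonneg_right (by linarith only [hK0]) hP0

end Pool.Agent.H14.CO

end
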