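import Pool.Agent.H15.TB1.M04
import Pool.Agent.H15.TB1.M05
import Pool.Agent.H15.TB1.M07
import Pool.Agent.H15.TB1.M08

/-! The parts of this file: H14.CO.Interp, H14.CO.MVT, H14.CO.LamB, H14.CO.Gcd, H14.CO.LamIn, H14.CO.Yf, H14.CO.CloseFar, H14.CO.MoB. -/

section

/-!
# CO module Interp: pointwise interpolation between two vertical lines
-/

set_option autoImplicit false

namespace Pool.Agent.H14.CO

open Set MeasureTheory Complex

/-- Weighted Cauchy–Schwarz, private copy (the public statement is `cs_int` below). -/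
theorem Interp_cs (k f : ℝ → ℝ) (hk : Integrable k) (hk0 : ∀ y, 0 ≤ k y)
    (hf : AEStronglyMeasurable f) (hkf : Integrable (fun y => k y * f y ^ 2)) :
    Integrable (fun y => k y * f y) ∧
    (∫ y : ℝ, k y * f y) ^ 2 ≤ (∫ y : ℝ, k y) * ∫ y : ℝ, k y * f y ^ 2 := by
  have h1 : Integrable (fun y => k y * f y) := by
    refine (hk.add hkf).mono' (hk.aestronglyMeasurable.mul hf) ?_
    filter_upwards with y
    rw [Real.norm_eq_abs, abs_mul, abs_of_nonneg (hk0 y)]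
    have h2 : |f y| ≤ 1 + f y ^ 2 := by
      have h3 : f y ^ 2 = |f y| ^ 2 := (sq_abs _).symm
      rw [h3]
      nlinarith only [abs_nonneg (f y), sq_nonneg (|f y| - 1)]
    calc k y * |f y| ≤ k y * (1 + f y ^ 2) := mul_le_mul_of_nonneg_left h2 (hk0 y)
      _ = k y + k y * f y ^ 2 := by ring
  refine ⟨h1, ?_⟩
  have h2 : ∀ t : ℝ, 0 ≤ (∫ y : ℝ, k y) * (t * t) + (-2 * ∫ y : ℝ, k y * f y) * t
      + ∫ y : ℝ, k y * f y ^ 2 := by
    intro t
    have h3 : 0 ≤ ∫ y : ℝ, k y * (t - f y) ^ 2 :=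
      integral_nonneg (fun y => mul_nonneg (hk0 y) (sq_nonneg _))
    have h4 : ∫ y : ℝ, k y * (t - f y) ^ 2
        = (∫ y : ℝ, k y) * (t * t) + (-2 * ∫ y : ℝ, k y * f y) * t
          + ∫ y : ℝ, k y * f y ^ 2 := by
      have h5 : (fun y : ℝ => k y * (t - f y) ^ 2)
          = fun y => (k y * (t * t) + (k y * f y) * (-2 * t)) + k y * f y ^ 2 := by
        funext y
        ring
      have i1 : Integrable (fun y : ℝ => k y * (t * t) + (k y * f y) * (-2 * t)) :=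
        (hk.mul_const _).add (h1.mul_const _)
      rw [h5, integral_add i1 hkf,
        integral_add (hk.mul_const _) (h1.mul_const _), integral_mul_const, integral_mul_const]
      ring
    linarith only [h3, h4]
  have h3 := discrim_le_zero h2
  unfold discrim at h3
  nlinarith only [h3]

/-- the factor `(1+|y|)^n exp(-y²)` is bounded -/
theorem Interp_poly_exp (n : ℕ) (y : ℝ) :
    (1 + |y|) ^ n * Real.exp (-y ^ 2) ≤ (n.factorial : ℝ) * Real.exp 2 := by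
  have h1 : (1 + |y|) ^ n / (n.factorial : ℝ) ≤ Real.exp (1 + |y|) :=
    Real.pow_div_factorial_le_exp _ (by positivity) n
  have h2 : (0 : ℝ) < n.factorial := by exact_mod_cast Nat.factorial_pos n
  have h3 : (1 + |y|) ^ n ≤ n.factorial * Real.exp (1 + |y|) := by
    rw [div_le_iff₀ h2] at h1
    linarith only [h1]
  calc (1 + |y|) ^ n * Real.exp (-y ^ 2)
      ≤ (n.factorial * Real.exp (1 + |y|)) * Real.exp (-y ^ 2) :=
        mul_le_mul_of_nonneg_right h3 (Real.exp_pos _).le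
    _ = n.factorial * Real.exp ((1 + |y|) + -y ^ 2) := by rw [mul_assoc, ← Real.exp_add]
    _ ≤ n.factorial * Real.exp 2 := by
        apply mul_le_mul_of_nonneg_left _ h2.le
        apply Real.exp_le_exp.mpr
        have h4 : y ^ 2 = |y| ^ 2 := (sq_abs _).symm
        rw [h4]
        nlinarith only [sq_nonneg (|y| - 1), abs_nonneg y]

theorem Interp_kn (h : ℝ) (hh : 0 < h) (z : ℂ) (L : ℝ) (hL : |z.re| ≤ L) :
    ‖kn h z‖ ≤ 2 ^ 32 * Real.exp (32 * h * L + L ^ 2) * Real.exp (-z.im ^ 2) := by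
  have h1 := norm_kn_le h hh.le z
  have h2 : (1 : ℝ) ≤ (1 + h * ‖z‖) ^ 32 := by
    apply one_le_pow₀
    have := mul_nonneg hh.le (norm_nonneg z)
    linarith only [this]
  have h3 : ‖kn h z‖ ≤ ‖kn h z‖ * (1 + h * ‖z‖) ^ 32 :=
    le_mul_of_one_le_right (norm_nonneg _) h2
  have h4 : Real.exp (32 * h * |z.re| + z.re ^ 2 - z.im ^ 2)
      ≤ Real.exp (32 * h * L + L ^ 2) * Real.exp (-z.im ^ 2) := by
    rw [← Real.exp_add]
    apply Real.exp_le_exp.mpr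
    have h5 : z.re ^ 2 ≤ L ^ 2 := by
      rw [← sq_abs]
      exact pow_le_pow_left₀ (abs_nonneg _) hL 2
    have h6 : 32 * h * |z.re| ≤ 32 * h * L := mul_le_mul_of_nonneg_left hL (by positivity)
    linarith only [h5, h6]
  calc ‖kn h z‖ ≤ 2 ^ 32 * Real.exp (32 * h * |z.re| + z.re ^ 2 - z.im ^ 2) := h3.trans h1
    _ ≤ 2 ^ 32 * (Real.exp (32 * h * L + L ^ 2) * Real.exp (-z.im ^ 2)) :=
        mul_le_mul_of_nonneg_left h4 (by positivity)
    _ = _ := by ring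

/-- one line of the interpolation: with `σ ≠ 0`, `|∫ G(w+σ+iy) exp(lm(σ+iy)) kn/(σ+iy)|² ≤ ...`. -/
theorem Interp_line (G : ℂ → ℂ) (c : ℝ)
    (hG : ∀ z : ℂ, z.re = c → DifferentiableAt ℂ G z) (A : ℝ) (k : ℕ)
    (hA : ∀ z : ℂ, z.re = c → ‖G z‖ ≤ A * (1 + |z.im|) ^ k)
    (h lm : ℝ) (hh : 0 < h) (w : ℂ) (hwc : c - w.re ≠ 0) :
    ‖∫ y : ℝ, (G (w + ((c - w.re : ℝ) + y * I)) * Complex.exp (lm * ((c - w.re : ℝ) + y * I)) *
        kn h ((c - w.re : ℝ) + y * I)) / ((c - w.re : ℝ) + y * I)‖ ^ 2 ≤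
      Real.exp (2 * lm * (c - w.re)) *
        ((∫ y : ℝ, ‖kn h ((c - w.re : ℝ) + y * I) / ((c - w.re : ℝ) + y * I)‖) *
        ∫ y : ℝ, ‖kn h ((c - w.re : ℝ) + y * I) / ((c - w.re : ℝ) + y * I)‖ *
          ‖G (c + (w.im + y) * I)‖ ^ 2) := by
  set σ : ℝ := c - w.re with hσ
  have hpt : ∀ y : ℝ, w + ((σ : ℂ) + y * I) = c + (w.im + y) * I := by
    intro y
    apply Complex.ext
    · simp [hσ]
    · simp
  have hre : ∀ y : ℝ, ((c : ℂ) + (w.im + y) * I).re = c := by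
    intro y
    simp
  have him : ∀ y : ℝ, ((c : ℂ) + (w.im + y) * I).im = w.im + y := by
    intro y
    simp
  have hσne : ∀ y : ℝ, ((σ : ℂ) + y * I) ≠ 0 := by
    intro y h0
    apply hwc
    have := congrArg Complex.re h0
    simpa using this
  have hA0 : 0 ≤ A := by
    have h1 := hA (c : ℂ) (by simp)
    have h2 : (0 : ℝ) ≤ A * (1 + |(c : ℂ).im|) ^ k := (norm_nonneg _).trans h1
    simpa using h2
  -- continuity
  have hcG : Continuous (fun y : ℝ => G (c + (w.im + y) * I)) := by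
    rw [continuous_iff_continuousAt]
    intro y
    have h1 : ContinuousAt G (c + (w.im + y) * I) := (hG _ (hre y)).continuousAt
    have h2 : ContinuousAt (fun y : ℝ => ((c : ℂ) + (w.im + y) * I)) y := by fun_prop
    exact ContinuousAt.comp (f := fun y : ℝ => ((c : ℂ) + (w.im + y) * I)) h1 h2
  have hck : Continuous (fun y : ℝ => kn h ((σ : ℂ) + y * I) / ((σ : ℂ) + y * I)) := by
    apply Continuous.div
    · exact (differentiable_kn h).continuous.comp (by fun_prop)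
    · fun_prop
    · exact hσne
  set K : ℝ → ℝ := fun y => ‖kn h ((σ : ℂ) + y * I) / ((σ : ℂ) + y * I)‖ with hK
  set f : ℝ → ℝ := fun y => ‖G (c + (w.im + y) * I)‖ with hf
  have hK0 : ∀ y, 0 ≤ K y := fun y => norm_nonneg _
  have hKc : Continuous K := hck.norm
  have hfc : Continuous f := hcG.norm
  obtain ⟨C, hC, hCi⟩ := kn_int (2 * k)
  obtain ⟨hint, -⟩ := hCi h σ hh hwc
  have hone : ∀ y : ℝ, (1 : ℝ) ≤ (1 + h * |y|) ^ 30 := by
    intro y
    apply one_le_pow₀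
    have := mul_nonneg hh.le (abs_nonneg y)
    linarith only [this]
  have hone2 : ∀ y : ℝ, (1 : ℝ) ≤ (1 + |y|) ^ (2 * k) := by
    intro y
    apply one_le_pow₀
    have := abs_nonneg y
    linarith only [this]
  have hKint : Integrable K := by
    refine hint.mono' hKc.aestronglyMeasurable ?_
    filter_upwards with y
    rw [Real.norm_eq_abs, abs_of_nonneg (hK0 y)]
    have h1 : (1 : ℝ) ≤ (1 + h * |y|) ^ 30 * (1 + |y|) ^ (2 * k) := by
      have := mul_le_mul (hone y) (hone2 y) zero_le_one (zero_le_one.trans (hone y))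
      linarith only [this]
    exact le_mul_of_one_le_left (hK0 y) h1
  have hfb : ∀ y : ℝ, f y ^ 2 ≤ (A * (1 + |w.im|) ^ k) ^ 2 * (1 + |y|) ^ (2 * k) := by
    intro y
    have h1 : f y ≤ A * (1 + |w.im + y|) ^ k := by
      have := hA (c + (w.im + y) * I) (hre y)
      rwa [him y] at this
    have h2 : 1 + |w.im + y| ≤ (1 + |w.im|) * (1 + |y|) := by
      have h3 := abs_add_le w.im y
      nlinarith only [h3, abs_nonneg w.im, abs_nonneg y, mul_nonneg (abs_nonneg w.im) (abs_nonneg y)]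
    have h3 : f y ≤ (A * (1 + |w.im|) ^ k) * (1 + |y|) ^ k := by
      calc f y ≤ A * (1 + |w.im + y|) ^ k := h1
        _ ≤ A * ((1 + |w.im|) * (1 + |y|)) ^ k := by
            apply mul_le_mul_of_nonneg_left _ hA0
            exact pow_le_pow_left₀ (by positivity) h2 k
        _ = _ := by rw [mul_pow]; ring
    calc f y ^ 2 ≤ ((A * (1 + |w.im|) ^ k) * (1 + |y|) ^ k) ^ 2 :=
          pow_le_pow_left₀ (norm_nonneg _) h3 2
      _ = _ := by rw [mul_pow, ← pow_mul, mul_comm k 2]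
  have hKf : Integrable (fun y => K y * f y ^ 2) := by
    refine (hint.const_mul ((A * (1 + |w.im|) ^ k) ^ 2)).mono'
      (hKc.mul (hfc.pow 2)).aestronglyMeasurable ?_
    filter_upwards with y
    rw [Real.norm_eq_abs, abs_of_nonneg (mul_nonneg (hK0 y) (sq_nonneg _))]
    calc K y * f y ^ 2
        ≤ K y * ((A * (1 + |w.im|) ^ k) ^ 2 * (1 + |y|) ^ (2 * k)) :=
          mul_le_mul_of_nonneg_left (hfb y) (hK0 y)
      _ = (A * (1 + |w.im|) ^ k) ^ 2 * (1 * (1 + |y|) ^ (2 * k) * K y) := by ring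
      _ ≤ (A * (1 + |w.im|) ^ k) ^ 2 * ((1 + h * |y|) ^ 30 * (1 + |y|) ^ (2 * k) * K y) := by
          apply mul_le_mul_of_nonneg_left _ (sq_nonneg _)
          apply mul_le_mul_of_nonneg_right _ (hK0 y)
          exact mul_le_mul_of_nonneg_right (hone y) (by positivity)
  obtain ⟨-, hcs⟩ := Interp_cs K f hKint hK0 hfc.aestronglyMeasurable hKf
  have hnorm : ∀ y : ℝ, ‖(G (w + ((σ : ℂ) + y * I)) * Complex.exp (lm * ((σ : ℂ) + y * I)) *
        kn h ((σ : ℂ) + y * I)) / ((σ : ℂ) + y * I)‖ = Real.exp (lm * σ) * (K y * f y) := by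
    intro y
    rw [hpt y]
    have h1 : ‖Complex.exp (lm * ((σ : ℂ) + y * I))‖ = Real.exp (lm * σ) := by
      rw [Complex.norm_exp]
      congr 1
      simp
    rw [mul_div_assoc, norm_mul, norm_mul, h1]
    simp only [hK, hf]
    ring
  have hle : ‖∫ y : ℝ, (G (w + ((σ : ℂ) + y * I)) * Complex.exp (lm * ((σ : ℂ) + y * I)) *
        kn h ((σ : ℂ) + y * I)) / ((σ : ℂ) + y * I)‖ ≤ Real.exp (lm * σ) * ∫ y : ℝ, K y * f y := by
    refine (norm_integral_le_integral_norm _).trans ?_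
    rw [← integral_const_mul]
    apply le_of_eq
    exact integral_congr_ae (Filter.Eventually.of_forall hnorm)
  calc ‖∫ y : ℝ, (G (w + ((σ : ℂ) + y * I)) * Complex.exp (lm * ((σ : ℂ) + y * I)) *
        kn h ((σ : ℂ) + y * I)) / ((σ : ℂ) + y * I)‖ ^ 2
      ≤ (Real.exp (lm * σ) * ∫ y : ℝ, K y * f y) ^ 2 :=
        pow_le_pow_left₀ (norm_nonneg _) hle 2
    _ = Real.exp (2 * lm * σ) * (∫ y : ℝ, K y * f y) ^ 2 := by
        rw [mul_pow, ← Real.exp_nat_mul]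
        congr 2
        push_cast
        ring
    _ ≤ Real.exp (2 * lm * σ) * ((∫ y : ℝ, K y) * ∫ y : ℝ, K y * f y ^ 2) :=
        mul_le_mul_of_nonneg_left hcs (Real.exp_pos _).le

/-- For `G` holomorphic of polynomial growth on `a ≤ Re z ≤ b` and `a < Re w < b`, `h > 0`, `lm` real.

PROOF. `line_residue` for `z ↦ G (w + z) * exp (lm * z) * kn h z` on the strip
`a - Re w ≤ Re z ≤ b - Re w` (`kn h 0 = 1`, decay from `norm_kn_le`: the factor `exp(-y²)` beats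
everything) gives `2π G w = ∫_{(b - Re w)} - ∫_{(a - Re w)}` of `G(w+z) exp(lm z) kn h z / z`;
then `‖∫ f k‖² ≤ (∫ ‖k‖) (∫ ‖k‖ ‖f‖²)`, `(x+y)² ≤ 2x²+2y²` and `2/(4π²) ≤ 1`. -/
theorem interp (G : ℂ → ℂ) (a b : ℝ)
    (hG : ∀ z : ℂ, a ≤ z.re → z.re ≤ b → DifferentiableAt ℂ G z) (A : ℝ) (k : ℕ)
    (hA : ∀ z : ℂ, a ≤ z.re → z.re ≤ b → ‖G z‖ ≤ A * (1 + |z.im|) ^ k)
    (h lm : ℝ) (hh : 0 < h) (w : ℂ) (hwa : a < w.re) (hwb : w.re < b) :
    ‖G w‖ ^ 2 ≤
      Real.exp (-2 * lm * (w.re - a)) *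
        ((∫ y : ℝ, ‖kn h ((a - w.re : ℝ) + y * I) / ((a - w.re : ℝ) + y * I)‖) *
        ∫ y : ℝ, ‖kn h ((a - w.re : ℝ) + y * I) / ((a - w.re : ℝ) + y * I)‖ *
          ‖G (a + (w.im + y) * I)‖ ^ 2) +
      Real.exp (2 * lm * (b - w.re)) *
        ((∫ y : ℝ, ‖kn h ((b - w.re : ℝ) + y * I) / ((b - w.re : ℝ) + y * I)‖) *
        ∫ y : ℝ, ‖kn h ((b - w.re : ℝ) + y * I) / ((b - w.re : ℝ) + y * I)‖ *
          ‖G (b + (w.im + y) * I)‖ ^ 2) := by
  have hab : a < b := hwa.trans hwb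
  have hA0 : 0 ≤ A := by
    have h1 := hA (a : ℂ) (by simp) (by simpa using hab.le)
    have h2 : (0 : ℝ) ≤ A * (1 + |(a : ℂ).im|) ^ k := (norm_nonneg _).trans h1
    simpa using h2
  set F : ℂ → ℂ := fun z => G (w + z) * Complex.exp (lm * z) * kn h z with hF
  have hFd : ∀ z : ℂ, a - w.re ≤ z.re → z.re ≤ b - w.re → DifferentiableAt ℂ F z := by
    intro z h1 h2
    have h3 : DifferentiableAt ℂ G (w + z) := by
      apply hG
      · rw [Complex.add_re]; linarith only [h1]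
      · rw [Complex.add_re]; linarith only [h2]
    have h4 : DifferentiableAt ℂ (fun z : ℂ => w + z) z := by fun_prop
    have h5 : DifferentiableAt ℂ (fun z : ℂ => G (w + z)) z :=
      DifferentiableAt.comp z (g := G) (f := fun z : ℂ => w + z) h3 h4
    have h6 : DifferentiableAt ℂ (fun z : ℂ => Complex.exp (lm * z)) z := by fun_prop
    exact (h5.mul h6).mul (differentiable_kn h z)
  set L : ℝ := b - a with hL
  have hL0 : 0 < L := by rw [hL]; linarith only [hwa, hwb]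
  have hFb : ∀ z : ℂ, a - w.re ≤ z.re → z.re ≤ b - w.re →
      ‖F z‖ ≤ (A * (1 + |w.im|) ^ k * Real.exp (|lm| * L) *
        (2 ^ 32 * Real.exp (32 * h * L + L ^ 2)) * (((k + 2).factorial : ℝ) * Real.exp 2))
          / (1 + z.im ^ 2) := by
    intro z h1 h2
    have hzL : |z.re| ≤ L := by
      rw [abs_le]
      constructor
      · rw [hL]; linarith only [hwb, h1]
      · rw [hL]; linarith
    have hGz : ‖G (w + z)‖ ≤ A * (1 + |w.im|) ^ k * (1 + |z.im|) ^ k := by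
      have h3 := hA (w + z) (by rw [Complex.add_re]; linarith only [h1]) (by rw [Complex.add_re]; linarith)
      have h4 : 1 + |(w + z).im| ≤ (1 + |w.im|) * (1 + |z.im|) := by
        rw [Complex.add_im]
        have h5 := abs_add_le w.im z.im
        nlinarith only [h5, abs_nonneg w.im, abs_nonneg z.im, mul_nonneg (abs_nonneg w.im) (abs_nonneg z.im)]
      calc ‖G (w + z)‖ ≤ A * (1 + |(w + z).im|) ^ k := h3
        _ ≤ A * ((1 + |w.im|) * (1 + |z.im|)) ^ k := by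
            apply mul_le_mul_of_nonneg_left _ hA0
            exact pow_le_pow_left₀ (by positivity) h4 k
        _ = _ := by rw [mul_pow]; ring
    have hE : ‖Complex.exp (lm * z)‖ ≤ Real.exp (|lm| * L) := by
      rw [Complex.norm_exp]
      apply Real.exp_le_exp.mpr
      have h3 : ((lm : ℂ) * z).re = lm * z.re := by simp
      rw [h3]
      calc lm * z.re ≤ |lm * z.re| := le_abs_self _
        _ = |lm| * |z.re| := abs_mul _ _
        _ ≤ |lm| * L := mul_le_mul_of_nonneg_left hzL (abs_nonneg _)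
    have hkz := Interp_kn h hh z L hzL
    have hy : (1 + |z.im|) ^ k * Real.exp (-z.im ^ 2) * (1 + z.im ^ 2)
        ≤ ((k + 2).factorial : ℝ) * Real.exp 2 := by
      have h3 : 1 + z.im ^ 2 ≤ (1 + |z.im|) ^ 2 := by
        have h4 : z.im ^ 2 = |z.im| ^ 2 := (sq_abs _).symm
        rw [h4]
        nlinarith only [abs_nonneg z.im]
      calc (1 + |z.im|) ^ k * Real.exp (-z.im ^ 2) * (1 + z.im ^ 2)
          ≤ (1 + |z.im|) ^ k * Real.exp (-z.im ^ 2) * (1 + |z.im|) ^ 2 :=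
            mul_le_mul_of_nonneg_left h3 (by positivity)
        _ = (1 + |z.im|) ^ (k + 2) * Real.exp (-z.im ^ 2) := by ring
        _ ≤ _ := Interp_poly_exp (k + 2) z.im
    rw [le_div_iff₀ (by positivity)]
    have h3 : ‖F z‖ ≤ (A * (1 + |w.im|) ^ k * (1 + |z.im|) ^ k) * Real.exp (|lm| * L) *
        (2 ^ 32 * Real.exp (32 * h * L + L ^ 2) * Real.exp (-z.im ^ 2)) := by
      rw [hF]
      simp only
      rw [norm_mul, norm_mul]
      apply mul_le_mul _ hkz (norm_nonneg _) (by positivity)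
      exact mul_le_mul hGz hE (norm_nonneg _) (by positivity)
    calc ‖F z‖ * (1 + z.im ^ 2)
        ≤ ((A * (1 + |w.im|) ^ k * (1 + |z.im|) ^ k) * Real.exp (|lm| * L) *
        (2 ^ 32 * Real.exp (32 * h * L + L ^ 2) * Real.exp (-z.im ^ 2))) * (1 + z.im ^ 2) :=
          mul_le_mul_of_nonneg_right h3 (by positivity)
      _ = (A * (1 + |w.im|) ^ k * Real.exp (|lm| * L) *
        (2 ^ 32 * Real.exp (32 * h * L + L ^ 2))) *
          ((1 + |z.im|) ^ k * Real.exp (-z.im ^ 2) * (1 + z.im ^ 2)) := by ring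
      _ ≤ (A * (1 + |w.im|) ^ k * Real.exp (|lm| * L) *
        (2 ^ 32 * Real.exp (32 * h * L + L ^ 2))) * (((k + 2).factorial : ℝ) * Real.exp 2) :=
          mul_le_mul_of_nonneg_left hy (by positivity)
      _ = _ := by ring
  have hres := line_residue F (a - w.re) (b - w.re) (by linarith) (by linarith) hFd _ hFb
  have hF0 : F 0 = G w := by
    rw [hF]
    simp [kn_zero]
  rw [hF0] at hres
  have hbne : b - w.re ≠ 0 := (sub_pos.mpr hwb).ne'
  have hane : a - w.re ≠ 0 := (sub_neg.mpr hwa).ne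
  have hlb := Interp_line G b (fun z hz => hG z (by rw [hz]; exact hab.le) hz.le) A k
    (fun z hz => hA z (by rw [hz]; exact hab.le) hz.le) h lm hh w hbne
  have hla := Interp_line G a (fun z hz => hG z hz.ge (by rw [hz]; exact hab.le)) A k
    (fun z hz => hA z hz.ge (by rw [hz]; exact hab.le)) h lm hh w hane
  set Ib : ℂ := ∫ y : ℝ, F (((b - w.re : ℝ) : ℂ) + y * I) / (((b - w.re : ℝ) : ℂ) + y * I) with hIb
  set Ia : ℂ := ∫ y : ℝ, F (((a - w.re : ℝ) : ℂ) + y * I) / (((a - w.re : ℝ) : ℂ) + y * I) with hIa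
  have hlb' : ‖Ib‖ ^ 2 ≤ Real.exp (2 * lm * (b - w.re)) *
        ((∫ y : ℝ, ‖kn h ((b - w.re : ℝ) + y * I) / ((b - w.re : ℝ) + y * I)‖) *
        ∫ y : ℝ, ‖kn h ((b - w.re : ℝ) + y * I) / ((b - w.re : ℝ) + y * I)‖ *
          ‖G (b + (w.im + y) * I)‖ ^ 2) := hlb
  have hla' : ‖Ia‖ ^ 2 ≤ Real.exp (-2 * lm * (w.re - a)) *
        ((∫ y : ℝ, ‖kn h ((a - w.re : ℝ) + y * I) / ((a - w.re : ℝ) + y * I)‖) *
        ∫ y : ℝ, ‖kn h ((a - w.re : ℝ) + y * I) / ((a - w.re : ℝ) + y * I)‖ *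
          ‖G (a + (w.im + y) * I)‖ ^ 2) := by
    have h1 : -2 * lm * (w.re - a) = 2 * lm * (a - w.re) := by ring
    rw [h1]
    exact hla
  have hn : 2 * Real.pi * ‖G w‖ = ‖Ib - Ia‖ := by
    rw [hres, norm_mul]
    congr 1
    rw [norm_mul]
    simp [abs_of_pos Real.pi_pos]
  have hn2 : 2 * Real.pi * ‖G w‖ ≤ ‖Ib‖ + ‖Ia‖ := hn.le.trans (norm_sub_le _ _)
  have hpi := Real.pi_gt_three
  have hfin : ‖G w‖ ^ 2 ≤ ‖Ia‖ ^ 2 + ‖Ib‖ ^ 2 := by
    have h1 : 2 * ‖G w‖ ≤ 2 * Real.pi * ‖G w‖ := by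
      apply mul_le_mul_of_nonneg_right _ (norm_nonneg _)
      linarith only [hpi]
    have h2 : 2 * ‖G w‖ ≤ ‖Ib‖ + ‖Ia‖ := h1.trans hn2
    nlinarith only [h2, norm_nonneg (G w), norm_nonneg Ia, norm_nonneg Ib, sq_nonneg (‖Ia‖ - ‖Ib‖),
      mul_self_le_mul_self (by positivity : (0:ℝ) ≤ 2 * ‖G w‖) h2]
  linarith only [hlb, hfin, hla', hlb']

/-- Weighted Cauchy–Schwarz used throughout. -/
theorem cs_int (k f : ℝ → ℝ) (hk : Integrable k) (hk0 : ∀ y, 0 ≤ k y) (hf0 : ∀ y, 0 ≤ f y)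
    (hf : AEStronglyMeasurable f) (hkf : Integrable (fun y => k y * f y ^ 2)) :
    (∫ y : ℝ, k y * f y) ^ 2 ≤ (∫ y : ℝ, k y) * ∫ y : ℝ, k y * f y ^ 2 :=
  (Interp_cs k f hk hk0 hf hkf).2

end Pool.Agent.H14.CO

end

section

/-!
# CO module MVT: the mean value theorem for Dirichlet polynomials with Gaussian weight
-/

set_option autoImplicit false

namespace Pool.Agent.H14.CO

open Set MeasureTheory Complex

private theorem MVT_fun (θ W τ : ℝ) (hW : 0 < W) (t : ℝ) :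
    cexp (-(θ * t) * I) * ((gw τ W t : ℝ) : ℂ) =
      cexp (-(1 / (W : ℂ) ^ 2) * (t : ℂ) ^ 2 + (2 * τ / (W : ℂ) ^ 2 - θ * I) * t +
        -((τ : ℂ) ^ 2 / (W : ℂ) ^ 2)) := by
  have hW' : (W : ℂ) ≠ 0 := by exact_mod_cast hW.ne'
  unfold gw
  rw [ofReal_exp, ← Complex.exp_add]
  congr 1
  push_cast
  field_simp
  ring

private theorem MVT_b (W : ℝ) (hW : 0 < W) : (-(1 / (W : ℂ) ^ 2)).re < 0 := by
  have : (-(1 / (W : ℂ) ^ 2)) = ((-(1 / W ^ 2) : ℝ) : ℂ) := by push_cast; rfl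
  rw [this, ofReal_re]
  have : 0 < 1 / W ^ 2 := by positivity
  linarith only [this]

private theorem MVT_int (θ W τ : ℝ) (hW : 0 < W) :
    Integrable (fun t : ℝ => cexp (-(θ * t) * I) * ((gw τ W t : ℝ) : ℂ)) := by
  have h : (fun t : ℝ => cexp (-(θ * t) * I) * ((gw τ W t : ℝ) : ℂ)) = fun t : ℝ =>
      cexp (-(1 / (W : ℂ) ^ 2) * (t : ℂ) ^ 2 + (2 * τ / (W : ℂ) ^ 2 - θ * I) * t +
        -((τ : ℂ) ^ 2 / (W : ℂ) ^ 2)) := funext fun t => MVT_fun θ W τ hW t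
  rw [h]
  exact integrable_cexp_quadratic' (MVT_b W hW) _ _

private theorem MVT_val (θ W τ : ℝ) (hW : 0 < W) :
    ∫ t : ℝ, cexp (-(θ * t) * I) * ((gw τ W t : ℝ) : ℂ) =
      ((Real.sqrt Real.pi * W : ℝ) : ℂ) * cexp (-(θ * τ) * I - W ^ 2 * θ ^ 2 / 4) := by
  have hW' : (W : ℂ) ≠ 0 := by exact_mod_cast hW.ne'
  have h : (fun t : ℝ => cexp (-(θ * t) * I) * ((gw τ W t : ℝ) : ℂ)) = fun t : ℝ =>
      cexp (-(1 / (W : ℂ) ^ 2) * (t : ℂ) ^ 2 + (2 * τ / (W : ℂ) ^ 2 - θ * I) * t +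
        -((τ : ℂ) ^ 2 / (W : ℂ) ^ 2)) := funext fun t => MVT_fun θ W τ hW t
  rw [h, integral_cexp_quadratic (MVT_b W hW)]
  congr 1
  · have e1 : (Real.pi : ℂ) / -(-(1 / (W : ℂ) ^ 2)) = ((Real.pi * W ^ 2 : ℝ) : ℂ) := by
      push_cast
      field_simp
    have e2 : (1 / 2 : ℂ) = ((1 / 2 : ℝ) : ℂ) := by push_cast; rfl
    rw [e1, e2, ← ofReal_cpow (by positivity), ← Real.sqrt_eq_rpow, Real.sqrt_mul Real.pi_pos.le,
      Real.sqrt_sq hW.le]
  · congr 1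
    field_simp
    ring_nf
    rw [I_sq]
    ring

private theorem MVT_norm (θ W τ : ℝ) (hW : 0 < W) :
    ‖∫ t : ℝ, cexp (-(θ * t) * I) * ((gw τ W t : ℝ) : ℂ)‖ =
      Real.sqrt Real.pi * W * Real.exp (-(W ^ 2 * θ ^ 2 / 4)) := by
  rw [MVT_val θ W τ hW, norm_mul, norm_real, Complex.norm_exp, Real.norm_eq_abs,
    abs_of_pos (by positivity)]
  congr 2
  have : (-((θ : ℂ) * τ) * I - (W : ℂ) ^ 2 * θ ^ 2 / 4) =
      ((-(W ^ 2 * θ ^ 2 / 4) : ℝ) : ℂ) + ((-(θ * τ) : ℝ) : ℂ) * I := by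
    push_cast
    ring
  rw [this, add_re, ofReal_re, re_ofReal_mul, I_re, mul_zero, add_zero]

private theorem MVT_sq (N : ℕ) (a : ℕ → ℂ) (t : ℝ) :
    ((‖∑ n ∈ Finset.Icc 1 N, a n * (n : ℂ) ^ (-(t * I))‖ ^ 2 : ℝ) : ℂ) =
      ∑ m ∈ Finset.Icc 1 N, ∑ n ∈ Finset.Icc 1 N, a m * (starRingEnd ℂ) (a n) *
        cexp (-(((Real.log m - Real.log n : ℝ) : ℂ) * t) * I) := by
  have h1 : ∀ n ∈ Finset.Icc 1 N, (n : ℂ) ^ (-(t * I)) = cexp (-(((Real.log n : ℝ) : ℂ) * t) * I) := by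
    intro n hn
    rw [Finset.mem_Icc] at hn
    have hn0 : (n : ℂ) ≠ 0 := by exact_mod_cast (by omega : n ≠ 0)
    rw [cpow_def_of_ne_zero hn0, ← natCast_log]
    congr 1
    ring
  rw [Finset.sum_congr rfl fun n hn => by rw [h1 n hn]]
  set S := ∑ n ∈ Finset.Icc 1 N, a n * cexp (-(((Real.log n : ℝ) : ℂ) * t) * I) with hS
  have h2 : ((‖S‖ ^ 2 : ℝ) : ℂ) = S * (starRingEnd ℂ) S := by
    rw [mul_conj, normSq_eq_norm_sq]
  rw [h2, hS, map_sum, Finset.sum_mul_sum]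
  refine Finset.sum_congr rfl fun m _ => Finset.sum_congr rfl fun n _ => ?_
  rw [map_mul, ← exp_conj]
  have h3 : (starRingEnd ℂ) (-(((Real.log n : ℝ) : ℂ) * t) * I) = ((Real.log n : ℝ) : ℂ) * t * I := by
    rw [map_mul, map_neg, map_mul, conj_ofReal, conj_ofReal, conj_I]
    ring
  rw [h3, mul_mul_mul_comm, ← Complex.exp_add]
  congr 2
  push_cast
  ring

private theorem MVT_expand (N : ℕ) (a : ℕ → ℂ) (W τ : ℝ) (t : ℝ) :
    ((‖∑ n ∈ Finset.Icc 1 N, a n * (n : ℂ) ^ (-(t * I))‖ ^ 2 * gw τ W t : ℝ) : ℂ) =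
      ∑ m ∈ Finset.Icc 1 N, ∑ n ∈ Finset.Icc 1 N, a m * (starRingEnd ℂ) (a n) *
        (cexp (-(((Real.log m - Real.log n : ℝ) : ℂ) * t) * I) * ((gw τ W t : ℝ) : ℂ)) := by
  rw [ofReal_mul, MVT_sq, Finset.sum_mul]
  refine Finset.sum_congr rfl fun m _ => ?_
  rw [Finset.sum_mul]
  refine Finset.sum_congr rfl fun n _ => ?_
  ring

private theorem MVT_log {N m n : ℕ} (hm : m ∈ Finset.Icc 1 N) (hn : n ∈ Finset.Icc 1 N)
    (h : m ≠ n) : 1 / (N : ℝ) ≤ |Real.log m - Real.log n| := by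
  have key : ∀ m n : ℕ, m ∈ Finset.Icc 1 N → n ∈ Finset.Icc 1 N → n < m →
      1 / (N : ℝ) ≤ Real.log m - Real.log n := by
    intro m n hm hn h
    rw [Finset.mem_Icc] at hm hn
    have hm0 : (0 : ℝ) < m := by exact_mod_cast (by omega : 0 < m)
    have hn0 : (0 : ℝ) < n := by exact_mod_cast (by omega : 0 < n)
    have hN0 : (0 : ℝ) < N := by exact_mod_cast (by omega : 0 < N)
    rw [← Real.log_div hm0.ne' hn0.ne']
    have h1 := Real.one_sub_inv_le_log_of_pos (div_pos hm0 hn0)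
    refine le_trans ?_ h1
    rw [inv_div]
    have h2 : (n : ℝ) + 1 ≤ m := by exact_mod_cast h
    have h3 : (m : ℝ) ≤ N := by exact_mod_cast hm.2
    have h4 : 1 - (n : ℝ) / m = (m - n) / m := by field_simp
    rw [h4, div_le_div_iff₀ hN0 hm0]
    nlinarith only [h3, h2]
  rcases lt_or_gt_of_ne h with h' | h'
  · rw [abs_sub_comm]
    exact (key n m hn hm h').trans (le_abs_self _)
  · exact (key m n hm hn h').trans (le_abs_self _)

/-- PROOF. Expanding the square,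
`∫ (m/n)^{it} gw τ W t dt = √π W (m/n)^{iτ} exp(-W² log²(m/n)/4)` (Gaussian Fourier transform,
`fourierIntegral_gaussian`/`integral_cexp_neg_mul_sq_add_const`-type lemmas). Diagonal:
`√π W ∑ ‖a n‖²`. For `m ≠ n ≤ N`, `|log(m/n)| ≥ 1/N` and `W/(2N) ≥ 2(1+log N)`, so the off-diagonal
terms are in total `≤ √π W exp(-4(1+log N)²) (∑ ‖a n‖)² ≤ √π W N exp(-4-4 log N) ∑ ‖a n‖²
≤ √π W e^{-4} ∑ ‖a n‖²`. `√π (1+e^{-4}) ≤ 2`, `√π (1 - e^{-4}) ≥ 3/2`. -/
theorem gauss_mvt (N : ℕ) (hN : 1 ≤ N) (a : ℕ → ℂ) (W τ : ℝ)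
    (hW : 4 * (N : ℝ) * (1 + Real.log N) ≤ W) :
    Integrable (fun t : ℝ => ‖∑ n ∈ Finset.Icc 1 N, a n * (n : ℂ) ^ (-(t * I))‖ ^ 2 * gw τ W t) ∧
    3 / 2 * W * ∑ n ∈ Finset.Icc 1 N, ‖a n‖ ^ 2
      ≤ ∫ t : ℝ, ‖∑ n ∈ Finset.Icc 1 N, a n * (n : ℂ) ^ (-(t * I))‖ ^ 2 * gw τ W t ∧
    ∫ t : ℝ, ‖∑ n ∈ Finset.Icc 1 N, a n * (n : ℂ) ^ (-(t * I))‖ ^ 2 * gw τ W t
      ≤ 2 * W * ∑ n ∈ Finset.Icc 1 N, ‖a n‖ ^ 2 := by
  have hN1 : (1 : ℝ) ≤ N := by exact_mod_cast hN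
  have hN0 : (0 : ℝ) < N := by linarith only [hN1]
  have hL : 0 ≤ Real.log N := Real.log_nonneg hN1
  have hW0 : 0 < W := by
    have : 0 < 4 * (N : ℝ) * (1 + Real.log N) := by positivity
    linarith
  set f : ℝ → ℝ := fun t => ‖∑ n ∈ Finset.Icc 1 N, a n * (n : ℂ) ^ (-(t * I))‖ ^ 2 * gw τ W t with hf
  have hterm : ∀ m n : ℕ, Integrable (fun t : ℝ => a m * (starRingEnd ℂ) (a n) *
      (cexp (-(((Real.log m - Real.log n : ℝ) : ℂ) * t) * I) * ((gw τ W t : ℝ) : ℂ))) :=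
    fun m n => (MVT_int _ W τ hW0).const_mul _
  have hfC : (fun t : ℝ => ((f t : ℝ) : ℂ)) = fun t : ℝ =>
      ∑ m ∈ Finset.Icc 1 N, ∑ n ∈ Finset.Icc 1 N, a m * (starRingEnd ℂ) (a n) *
        (cexp (-(((Real.log m - Real.log n : ℝ) : ℂ) * t) * I) * ((gw τ W t : ℝ) : ℂ)) :=
    funext fun t => MVT_expand N a W τ t
  have hintC : Integrable (fun t : ℝ => ((f t : ℝ) : ℂ)) := by
    rw [hfC]
    exact integrable_finsetSum _ fun m _ => integrable_finsetSum _ fun n _ => hterm m n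
  have hint : Integrable f := by
    have := hintC.re
    simpa using this
  refine ⟨hint, ?_⟩
  -- the value of the integral
  have hval : ((∫ t : ℝ, f t : ℝ) : ℂ) = ∑ m ∈ Finset.Icc 1 N, ∑ n ∈ Finset.Icc 1 N,
      a m * (starRingEnd ℂ) (a n) *
        ∫ t : ℝ, cexp (-(((Real.log m - Real.log n : ℝ) : ℂ) * t) * I) * ((gw τ W t : ℝ) : ℂ) := by
    have h0 : ((∫ t : ℝ, f t : ℝ) : ℂ) = ∫ t : ℝ, ((f t : ℝ) : ℂ) := integral_complex_ofReal.symm
    rw [h0, hfC, integral_finsetSum _ fun m _ =>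
      integrable_finsetSum _ fun n _ => hterm m n]
    refine Finset.sum_congr rfl fun m _ => ?_
    rw [integral_finsetSum _ fun n _ => hterm m n]
    refine Finset.sum_congr rfl fun n _ => ?_
    rw [integral_const_mul]
  set J : ℕ → ℕ → ℂ := fun m n =>
    ∫ t : ℝ, cexp (-(((Real.log m - Real.log n : ℝ) : ℂ) * t) * I) * ((gw τ W t : ℝ) : ℂ) with hJ
  set A := ∑ n ∈ Finset.Icc 1 N, ‖a n‖ ^ 2 with hA
  have hA0 : 0 ≤ A := Finset.sum_nonneg fun n _ => sq_nonneg _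
  set c := Real.sqrt Real.pi * W with hc
  have hc0 : 0 < c := by positivity
  -- diagonal
  have hdiag : ∀ m, J m m = (c : ℂ) := by
    intro m
    rw [hJ]
    simp only
    rw [MVT_val _ W τ hW0, sub_self]
    simp [hc]
  -- off diagonal
  have hoff : ∀ m ∈ Finset.Icc 1 N, ∀ n ∈ Finset.Icc 1 N, m ≠ n →
      ‖J m n‖ ≤ c * (Real.exp (-4) / N) := by
    intro m hm n hn hmn
    rw [hJ]
    simp only
    rw [MVT_norm _ W τ hW0, ← hc]
    refine mul_le_mul_of_nonneg_left ?_ hc0.le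
    have h1 := MVT_log hm hn hmn
    set θ := Real.log m - Real.log n with hθ
    have h2 : 4 * (1 + Real.log N) ≤ W * |θ| := by
      calc 4 * (1 + Real.log N) = (4 * (N : ℝ) * (1 + Real.log N)) * (1 / N) := by
            field_simp
        _ ≤ W * |θ| := by gcongr
    have h3 : 4 + Real.log N ≤ W ^ 2 * θ ^ 2 / 4 := by
      have h4 : W ^ 2 * θ ^ 2 = (W * |θ|) ^ 2 := by rw [mul_pow, sq_abs]
      rw [h4]
      have h5 : (4 * (1 + Real.log N)) ^ 2 ≤ (W * |θ|) ^ 2 := by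
        have : 0 ≤ 4 * (1 + Real.log N) := by positivity
        gcongr
      nlinarith only [hL, h5]
    calc Real.exp (-(W ^ 2 * θ ^ 2 / 4)) ≤ Real.exp (-4 - Real.log N) :=
          Real.exp_le_exp.2 (by linarith only [h3])
      _ = Real.exp (-4) / N := by rw [Real.exp_sub, Real.exp_log hN0]
  -- comparison with the diagonal
  have hsub : ((∫ t : ℝ, f t : ℝ) : ℂ) - ((c * A : ℝ) : ℂ) = ∑ m ∈ Finset.Icc 1 N,
      ∑ n ∈ Finset.Icc 1 N, a m * (starRingEnd ℂ) (a n) * (if m = n then 0 else J m n) := by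
    have e1 : ((c * A : ℝ) : ℂ) = ∑ m ∈ Finset.Icc 1 N, ∑ n ∈ Finset.Icc 1 N,
        a m * (starRingEnd ℂ) (a n) * (if m = n then J m n else 0) := by
      rw [ofReal_mul, hA, ofReal_sum, Finset.mul_sum]
      refine Finset.sum_congr rfl fun m hm => ?_
      rw [Finset.sum_eq_single m]
      · rw [if_pos rfl, hdiag, mul_conj, normSq_eq_norm_sq]
        ring
      · intro n _ hn
        rw [if_neg (Ne.symm hn), mul_zero]
      · intro h
        exact absurd hm h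
    rw [hval, e1, ← Finset.sum_sub_distrib]
    refine Finset.sum_congr rfl fun m _ => ?_
    rw [← Finset.sum_sub_distrib]
    refine Finset.sum_congr rfl fun n _ => ?_
    by_cases h : m = n
    · rw [if_pos h, if_pos h]
      ring
    · rw [if_neg h, if_neg h]
      ring
  have he4 : Real.exp (-4) ≤ 1 / 16 := by
    have h1 : (2 : ℝ) ≤ Real.exp 1 := by
      have := Real.add_one_le_exp (1 : ℝ)
      linarith only [this]
    have h2 : Real.exp 4 = Real.exp 1 ^ 4 := by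
      rw [← Real.exp_nat_mul]
      norm_num
    have h3 : (16 : ℝ) ≤ Real.exp 4 := by
      rw [h2]
      calc (16 : ℝ) = 2 ^ 4 := by norm_num
        _ ≤ _ := by gcongr
    rw [Real.exp_neg, one_div]
    gcongr
  have hbound : |(∫ t : ℝ, f t) - c * A| ≤ c * A / 16 := by
    have e1 : |(∫ t : ℝ, f t) - c * A| = ‖((∫ t : ℝ, f t : ℝ) : ℂ) - ((c * A : ℝ) : ℂ)‖ := by
      rw [← ofReal_sub, norm_real, Real.norm_eq_abs]
    rw [e1, hsub]
    have e2 : ‖∑ m ∈ Finset.Icc 1 N, ∑ n ∈ Finset.Icc 1 N,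
        a m * (starRingEnd ℂ) (a n) * (if m = n then 0 else J m n)‖ ≤
        ∑ m ∈ Finset.Icc 1 N, ∑ n ∈ Finset.Icc 1 N, ‖a m‖ * ‖a n‖ * (c * (Real.exp (-4) / N)) := by
      refine (norm_sum_le _ _).trans (Finset.sum_le_sum fun m hm => ?_)
      refine (norm_sum_le _ _).trans (Finset.sum_le_sum fun n hn => ?_)
      rw [norm_mul, norm_mul, RCLike.norm_conj]
      refine mul_le_mul_of_nonneg_left ?_ (by positivity)
      split_ifs with h
      · rw [norm_zero]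
        positivity
      · exact hoff m hm n hn h
    refine e2.trans ?_
    have e3 : ∑ m ∈ Finset.Icc 1 N, ∑ n ∈ Finset.Icc 1 N, ‖a m‖ * ‖a n‖ * (c * (Real.exp (-4) / N)) =
        (∑ m ∈ Finset.Icc 1 N, ‖a m‖) ^ 2 * (c * (Real.exp (-4) / N)) := by
      rw [sq, Finset.sum_mul_sum, Finset.sum_mul]
      refine Finset.sum_congr rfl fun m _ => ?_
      rw [Finset.sum_mul]
    rw [e3]
    have e4 : (∑ m ∈ Finset.Icc 1 N, ‖a m‖) ^ 2 ≤ N * A := by
      have := @sq_sum_le_card_mul_sum_sq ℕ ℝ _ _ _ _ (Finset.Icc 1 N) (fun m => ‖a m‖)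
      rw [Nat.card_Icc, Nat.add_sub_cancel] at this
      exact this
    calc (∑ m ∈ Finset.Icc 1 N, ‖a m‖) ^ 2 * (c * (Real.exp (-4) / N)) ≤
          (N * A) * (c * ((1 / 16) / N)) := by gcongr
      _ = c * A / 16 := by field_simp
  have hb := abs_le.1 hbound
  have hpi1 : Real.sqrt Real.pi ≤ 1775 / 1000 := by
    rw [Real.sqrt_le_left (by norm_num)]
    have := Real.pi_lt_d2
    norm_num at this ⊢
    linarith only [this]
  have hpi2 : 177 / 100 ≤ Real.sqrt Real.pi := by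
    apply Real.le_sqrt_of_sq_le
    have := Real.pi_gt_d2
    norm_num at this ⊢
    linarith only [this]
  have hWA : 0 ≤ W * A := by positivity
  have hcA1 : c * A ≤ 1775 / 1000 * (W * A) := by
    rw [hc, mul_assoc]
    exact mul_le_mul_of_nonneg_right hpi1 hWA
  have hcA2 : 177 / 100 * (W * A) ≤ c * A := by
    rw [hc, mul_assoc]
    exact mul_le_mul_of_nonneg_right hpi2 hWA
  constructor
  · have : 3 / 2 * W * A = 3 / 2 * (W * A) := by ring
    rw [this]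
    linarith only [hb, hcA2, hb.1]
  · have : 2 * W * A = 2 * (W * A) := by ring
    rw [this]
    linarith only [hb, hWA, hcA1, hb.2]

end Pool.Agent.H14.CO

end

section

/-!
# CO module LamB: basic properties of the weights
-/

set_option autoImplicit false

namespace Pool.Agent.H14.CO

open Set MeasureTheory Complex

private theorem LamB_log (z₀ : ℝ) (hz : 1 < z₀) (d : ℕ) (hd : 0 < d) :
    Real.log (z₀ ^ 2 / d) = Real.log z₀ + Real.log (z₀ / d) := by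
  have hz0 : 0 < z₀ := by linarith only [hz]
  have hd0 : (0 : ℝ) < d := Nat.cast_pos.2 hd
  rw [← Real.log_mul hz0.ne' (by positivity)]
  congr 1
  ring

theorem abs_lam_le (z₀ : ℝ) (hz : 1 < z₀) (d : ℕ) : |lam z₀ d| ≤ 1 := by
  rcases Nat.eq_zero_or_pos d with rfl | hd
  · simp [lam]
  · have hl : 0 < Real.log z₀ := Real.log_pos hz
    have h1 := LamB_log z₀ hz d hd
    have hμ : |((ArithmeticFunction.moebius d : ℤ) : ℝ)| ≤ 1 := by
      have := ArithmeticFunction.abs_moebius_le_one (n := d)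
      exact_mod_cast this
    unfold lam
    rw [h1, abs_div, abs_mul, abs_of_pos hl, div_le_one hl]
    have h2 : |max 0 (Real.log z₀ + Real.log (z₀ / d)) - max 0 (Real.log (z₀ / d))| ≤
        Real.log z₀ := by
      rw [abs_le]
      constructor
      · have : max 0 (Real.log (z₀ / d)) ≤ max 0 (Real.log z₀ + Real.log (z₀ / d)) :=
          max_le_max le_rfl (by linarith only [hl])
        linarith only [hl, this]
      · have : max 0 (Real.log z₀ + Real.log (z₀ / d)) ≤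
            Real.log z₀ + max 0 (Real.log (z₀ / d)) :=
          max_le (by linarith [le_max_left 0 (Real.log (z₀ / d))])
            (by linarith [le_max_right 0 (Real.log (z₀ / d))])
        linarith
    calc |((ArithmeticFunction.moebius d : ℤ) : ℝ)| *
          |max 0 (Real.log z₀ + Real.log (z₀ / d)) - max 0 (Real.log (z₀ / d))| ≤
          1 * Real.log z₀ := mul_le_mul hμ h2 (abs_nonneg _) zero_le_one
      _ = Real.log z₀ := one_mul _

theorem lam_eq_zero (z₀ : ℝ) (hz : 1 < z₀) (d : ℕ) (hd : z₀ ^ 2 ≤ d) : lam z₀ d = 0 := by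
  have hz0 : 0 < z₀ := by linarith
  have hd0 : (0 : ℝ) < d := lt_of_lt_of_le (by positivity) hd
  have h1 : Real.log (z₀ ^ 2 / d) ≤ 0 :=
    Real.log_nonpos (by positivity) ((div_le_one hd0).2 hd)
  have h2 : Real.log (z₀ / d) ≤ 0 := by
    refine Real.log_nonpos (by positivity) ((div_le_one hd0).2 (le_trans ?_ hd))
    nlinarith only [hz]
  unfold lam
  rw [max_eq_left h1, max_eq_left h2]
  simp

theorem lam_small (z₀ : ℝ) (hz : 1 < z₀) (d : ℕ) (hd : (d : ℝ) ≤ z₀) :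
    lam z₀ d = ((ArithmeticFunction.moebius d : ℤ) : ℝ) := by
  rcases Nat.eq_zero_or_pos d with rfl | hd0
  · simp [lam]
  · have hl : 0 < Real.log z₀ := Real.log_pos hz
    have h1 := LamB_log z₀ hz d hd0
    have hd1 : (0 : ℝ) < d := Nat.cast_pos.2 hd0
    have h2 : 0 ≤ Real.log (z₀ / d) := Real.log_nonneg ((one_le_div hd1).2 hd)
    unfold lam
    rw [h1, max_eq_right h2, max_eq_right (by linarith)]
    field_simp
    ring

theorem differentiable_Mo (z₀ : ℝ) : Differentiable ℂ (Mo z₀) := by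
  have h : Mo z₀ = fun s => ∑ d ∈ Finset.Icc 1 ⌊z₀ ^ 2⌋₊, (lam z₀ d : ℂ) * (d : ℂ) ^ (-s) := rfl
  rw [h]
  refine Differentiable.fun_sum fun d hd => ?_
  have hd0 : (d : ℂ) ≠ 0 := Nat.cast_ne_zero.2 (by have := (Finset.mem_Icc.1 hd).1; omega)
  exact (differentiable_neg.const_cpow (Or.inl hd0)).const_mul _

theorem continuous_Mo (z₀ : ℝ) : Continuous (Mo z₀) := (differentiable_Mo z₀).continuous

/-- crude bound (number of terms times the largest). -/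
theorem norm_Mo_le (z₀ : ℝ) (hz : 1 < z₀) (s : ℂ) : ‖Mo z₀ s‖ ≤ z₀ ^ (2 + 2 * |s.re|) := by
  have hz0 : 0 < z₀ := by linarith
  have h1 : ‖Mo z₀ s‖ ≤ ∑ d ∈ Finset.Icc 1 ⌊z₀ ^ 2⌋₊, z₀ ^ (2 * |s.re|) := by
    unfold Mo
    refine (norm_sum_le _ _).trans (Finset.sum_le_sum fun d hd => ?_)
    have hd1 : 1 ≤ d := (Finset.mem_Icc.1 hd).1
    have hd2 : (d : ℝ) ≤ z₀ ^ 2 := by
      have := (Finset.mem_Icc.1 hd).2
      exact (Nat.le_floor_iff (by positivity)).1 this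
    have hd3 : (1 : ℝ) ≤ d := by exact_mod_cast hd1
    rw [norm_mul, Complex.norm_real, Real.norm_eq_abs, Complex.norm_natCast_cpow_of_pos hd1]
    have h2 : (d : ℝ) ^ (-s).re ≤ z₀ ^ (2 * |s.re|) := by
      calc (d : ℝ) ^ (-s).re ≤ (d : ℝ) ^ |s.re| := by
            refine Real.rpow_le_rpow_of_exponent_le hd3 ?_
            rw [Complex.neg_re]
            exact neg_le_abs _
        _ ≤ (z₀ ^ 2) ^ |s.re| := Real.rpow_le_rpow (by positivity) hd2 (abs_nonneg _)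
        _ = z₀ ^ (2 * |s.re|) := by
            rw [Real.rpow_mul hz0.le]
            norm_num
    calc |lam z₀ d| * (d : ℝ) ^ (-s).re ≤ 1 * z₀ ^ (2 * |s.re|) :=
          mul_le_mul (abs_lam_le z₀ hz d) h2 (by positivity) zero_le_one
      _ = z₀ ^ (2 * |s.re|) := one_mul _
  refine h1.trans ?_
  rw [Finset.sum_const, Nat.card_Icc, Nat.add_sub_cancel, nsmul_eq_mul, Real.rpow_add hz0]
  refine mul_le_mul_of_nonneg_right ?_ (by positivity)
  refine (Nat.floor_le (by positivity)).trans (le_of_eq ?_)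
  norm_num

end Pool.Agent.H14.CO

end

section

/-!
# CO module Gcd: diagonalisation of the quadratic form with the lcm
-/

set_option autoImplicit false

namespace Pool.Agent.H14.CO

open Set MeasureTheory Complex

/-- the arithmetic function `n ↦ n^s` -/
private noncomputable def Gcd_pw (s : ℝ) : ArithmeticFunction ℝ :=
  ⟨fun n => if n = 0 then 0 else (n : ℝ) ^ s, by simp⟩

private theorem Gcd_pw_apply (s : ℝ) {n : ℕ} (hn : n ≠ 0) : Gcd_pw s n = (n : ℝ) ^ s := by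
  show (if n = 0 then (0 : ℝ) else (n : ℝ) ^ s) = (n : ℝ) ^ s
  rw [if_neg hn]

/-- the Jordan function with real exponent -/
private noncomputable def Gcd_J (s : ℝ) : ArithmeticFunction ℝ :=
  ((ArithmeticFunction.moebius : ArithmeticFunction ℤ) : ArithmeticFunction ℝ) * Gcd_pw s

private theorem Gcd_zetaJ (s : ℝ) {n : ℕ} (hn : n ≠ 0) :
    ∑ f ∈ n.divisors, Gcd_J s f = (n : ℝ) ^ s := by
  have h1 : ((ArithmeticFunction.zeta : ArithmeticFunction ℕ) : ArithmeticFunction ℝ) * Gcd_J s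
      = Gcd_pw s := by
    unfold Gcd_J
    rw [← mul_assoc, ArithmeticFunction.coe_zeta_mul_coe_moebius, one_mul]
  rw [← ArithmeticFunction.coe_zeta_mul_apply, h1, Gcd_pw_apply s hn]

private theorem Gcd_pw_mult (s : ℝ) : (Gcd_pw s).IsMultiplicative := by
  refine ArithmeticFunction.IsMultiplicative.iff_ne_zero.2 ⟨?_, ?_⟩
  · rw [Gcd_pw_apply s one_ne_zero]
    simp
  · intro m n hm hn _
    rw [Gcd_pw_apply s hm, Gcd_pw_apply s hn, Gcd_pw_apply s (mul_ne_zero hm hn)]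
    push_cast
    exact Real.mul_rpow (Nat.cast_nonneg _) (Nat.cast_nonneg _)

private theorem Gcd_J_mult (s : ℝ) : (Gcd_J s).IsMultiplicative :=
  ArithmeticFunction.isMultiplicative_moebius.intCast.mul (Gcd_pw_mult s)

private theorem Gcd_J_prime_pow {s : ℝ} (hs : 0 ≤ s) {p : ℕ} (hp : p.Prime) (k : ℕ) :
    0 ≤ Gcd_J s (p ^ k) := by
  rcases k with _ | k
  · rw [pow_zero, (Gcd_J_mult s).map_one]
    exact zero_le_one
  · have h1 := Gcd_zetaJ s (n := p ^ (k + 1)) (pow_ne_zero _ hp.ne_zero)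
    have h2 := Gcd_zetaJ s (n := p ^ k) (pow_ne_zero _ hp.ne_zero)
    rw [Nat.sum_divisors_prime_pow hp] at h1 h2
    rw [Finset.sum_range_succ, h2] at h1
    have h3 : ((p ^ k : ℕ) : ℝ) ^ s ≤ ((p ^ (k + 1) : ℕ) : ℝ) ^ s := by
      refine Real.rpow_le_rpow (Nat.cast_nonneg _) ?_ hs
      exact_mod_cast Nat.pow_le_pow_right hp.pos (Nat.le_succ k)
    linarith

private theorem Gcd_J_nonneg {s : ℝ} (hs : 0 ≤ s) (n : ℕ) : 0 ≤ Gcd_J s n := by
  rcases eq_or_ne n 0 with rfl | hn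
  · rw [ArithmeticFunction.map_zero]
  · rw [ArithmeticFunction.IsMultiplicative.multiplicative_factorization _ (Gcd_J_mult s) hn]
    refine Finset.prod_nonneg fun p hp => ?_
    exact Gcd_J_prime_pow hs (Nat.prime_of_mem_primeFactors (by simpa using hp)) _

private theorem Gcd_J_le {s : ℝ} (hs : 0 ≤ s) {n : ℕ} (hn : n ≠ 0) : Gcd_J s n ≤ (n : ℝ) ^ s := by
  rw [← Gcd_zetaJ s hn]
  exact Finset.single_le_sum (f := fun f => Gcd_J s f) (fun f _ => Gcd_J_nonneg hs f)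
    (Nat.mem_divisors_self n hn)

private theorem Gcd_summable (s : ℝ) (hs : 1 < s) : Summable (fun m : ℕ => (m : ℝ) ^ (-s)) :=
  Real.summable_nat_rpow.2 (by linarith)

private theorem Gcd_hasSum_mult (s : ℝ) (hs : 1 < s) (L : ℕ) (hL : L ≠ 0) :
    HasSum (fun n : ℕ => if L ∣ n then (n : ℝ) ^ (-s) else 0)
      ((L : ℝ) ^ (-s) * ∑' m : ℕ, (m : ℝ) ^ (-s)) := by
  have hinj : Function.Injective (fun m : ℕ => L * m) := fun a b h =>
    Nat.eq_of_mul_eq_mul_left (Nat.pos_of_ne_zero hL) h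
  rw [← hinj.hasSum_iff]
  · have h1 := (Gcd_summable s hs).hasSum.mul_left ((L : ℝ) ^ (-s))
    have h2 : ((fun n : ℕ => if L ∣ n then (n : ℝ) ^ (-s) else 0) ∘ fun m : ℕ => L * m)
        = fun m : ℕ => (L : ℝ) ^ (-s) * (m : ℝ) ^ (-s) := by
      funext m
      show (if L ∣ L * m then ((L * m : ℕ) : ℝ) ^ (-s) else 0) = _
      rw [if_pos (dvd_mul_right L m)]
      push_cast
      exact Real.mul_rpow (Nat.cast_nonneg _) (Nat.cast_nonneg _)
    rw [h2]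
    exact h1
  · intro n hn
    rw [if_neg]
    rintro ⟨m, rfl⟩
    exact hn ⟨m, rfl⟩

private theorem Gcd_zeta_le (s : ℝ) (hs : 1 < s) : ∑' m : ℕ, (m : ℝ) ^ (-s) ≤ 1 + 1 / (s - 1) := by
  refine (Gcd_summable s hs).tsum_le_of_sum_range_le fun n => ?_
  have hmono : ∑ i ∈ Finset.range n, (i : ℝ) ^ (-s) ≤
      ∑ i ∈ Finset.range (n + 2), (i : ℝ) ^ (-s) :=
    Finset.sum_le_sum_of_subset_of_nonneg (Finset.range_mono (by omega))
      fun i _ _ => Real.rpow_nonneg (Nat.cast_nonneg _) _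
  refine hmono.trans ?_
  rw [Finset.sum_range_succ', Finset.sum_range_succ']
  have h0 : ((0 : ℕ) : ℝ) ^ (-s) = 0 := by
    rw [Nat.cast_zero]
    exact Real.zero_rpow (by linarith)
  have h1 : (((0 + 1 : ℕ) : ℝ)) ^ (-s) = 1 := by simp
  rw [h0, h1, add_zero, add_comm]
  refine add_le_add_right ?_ 1
  have hanti : AntitoneOn (fun x : ℝ => x ^ (-s)) (Set.Icc (1 : ℝ) (1 + n)) := by
    intro x hx y _ hxy
    exact Real.rpow_le_rpow_of_nonpos (by linarith [hx.1]) hxy (by linarith)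
  have h2 := hanti.sum_le_integral
  have h3 : ∑ i ∈ Finset.range n, (((i + 1 + 1 : ℕ) : ℝ)) ^ (-s) =
      ∑ i ∈ Finset.range n, (fun x : ℝ => x ^ (-s)) (1 + ((i + 1 : ℕ) : ℝ)) := by
    refine Finset.sum_congr rfl fun i _ => ?_
    show _ = (1 + ((i + 1 : ℕ) : ℝ)) ^ (-s)
    congr 1
    push_cast
    ring
  rw [h3]
  refine h2.trans ?_
  have hn1 : (1 : ℝ) ≤ 1 + n := by
    have : (0 : ℝ) ≤ n := Nat.cast_nonneg n
    linarith
  rw [integral_rpow]
  · rw [Real.one_rpow]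
    have h4 : 0 ≤ (1 + (n : ℝ)) ^ (-s + 1) := Real.rpow_nonneg (by linarith) _
    have h5 : ((1 + (n : ℝ)) ^ (-s + 1) - 1) / (-s + 1) = (1 - (1 + (n : ℝ)) ^ (-s + 1)) / (s - 1) := by
      have h6 : -s + 1 ≠ 0 := by linarith
      have h7 : s - 1 ≠ 0 := by linarith
      field_simp
      ring
    rw [h5]
    exact div_le_div_of_nonneg_right (by linarith only [h4]) (by linarith only [hs])
  · right
    constructor
    · linarith
    · rw [Set.uIcc_of_le hn1]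
      intro h
      linarith [h.1]

private theorem Gcd_lcm (s : ℝ) (D D' : ℕ) (hD : D ≠ 0) (hD' : D' ≠ 0) :
    ((Nat.lcm D D' : ℕ) : ℝ) ^ (-s) =
      (D : ℝ) ^ (-s) * (D' : ℝ) ^ (-s) * ((Nat.gcd D D' : ℕ) : ℝ) ^ s := by
  have hg : 0 < Nat.gcd D D' := Nat.gcd_pos_of_pos_left _ (Nat.pos_of_ne_zero hD)
  have hl : 0 < Nat.lcm D D' := Nat.lcm_pos (Nat.pos_of_ne_zero hD) (Nat.pos_of_ne_zero hD')
  have h1 : ((Nat.gcd D D' : ℕ) : ℝ) * ((Nat.lcm D D' : ℕ) : ℝ) = (D : ℝ) * (D' : ℝ) := by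
    exact_mod_cast Nat.gcd_mul_lcm D D'
  have h2 : ((Nat.gcd D D' : ℕ) : ℝ) ^ (-s) * ((Nat.lcm D D' : ℕ) : ℝ) ^ (-s) =
      (D : ℝ) ^ (-s) * (D' : ℝ) ^ (-s) := by
    rw [← Real.mul_rpow (Nat.cast_nonneg _) (Nat.cast_nonneg _), h1,
      Real.mul_rpow (Nat.cast_nonneg _) (Nat.cast_nonneg _)]
  rw [← h2]
  have h3 : ((Nat.gcd D D' : ℕ) : ℝ) ^ (-s) * ((Nat.gcd D D' : ℕ) : ℝ) ^ s = 1 := by
    have hg' : (0 : ℝ) < ((Nat.gcd D D' : ℕ) : ℝ) := by exact_mod_cast hg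
    rw [← Real.rpow_add hg']
    simp
  calc ((Nat.lcm D D' : ℕ) : ℝ) ^ (-s)
      = (((Nat.gcd D D' : ℕ) : ℝ) ^ (-s) * ((Nat.gcd D D' : ℕ) : ℝ) ^ s) *
        ((Nat.lcm D D' : ℕ) : ℝ) ^ (-s) := by rw [h3, one_mul]
    _ = _ := by ring

private theorem Gcd_quad (s : ℝ) (M : ℕ) (c : ℕ → ℝ) :
    ∑ D ∈ Finset.Icc 1 M, ∑ D' ∈ Finset.Icc 1 M,
      c D * c D' * ((Nat.lcm D D' : ℕ) : ℝ) ^ (-s) =
    ∑ f ∈ Finset.Icc 1 M, Gcd_J s f *
      (∑ D ∈ (Finset.Icc 1 M).filter (fun D => f ∣ D), c D * (D : ℝ) ^ (-s)) ^ 2 := by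
  have h1 : ∀ D ∈ Finset.Icc 1 M, ∀ D' ∈ Finset.Icc 1 M,
      c D * c D' * ((Nat.lcm D D' : ℕ) : ℝ) ^ (-s) =
      ∑ f ∈ Finset.Icc 1 M, if f ∣ D ∧ f ∣ D' then
        Gcd_J s f * ((c D * (D : ℝ) ^ (-s)) * (c D' * (D' : ℝ) ^ (-s))) else 0 := by
    intro D hD D' hD'
    rw [Finset.mem_Icc] at hD hD'
    have hD0 : D ≠ 0 := by omega
    have hD0' : D' ≠ 0 := by omega
    have hg0 : Nat.gcd D D' ≠ 0 := Nat.gcd_ne_zero_left hD0
    rw [← Finset.sum_filter]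
    have h2 : (Finset.Icc 1 M).filter (fun f => f ∣ D ∧ f ∣ D') = (Nat.gcd D D').divisors := by
      ext f
      rw [Finset.mem_filter, Finset.mem_Icc, Nat.mem_divisors]
      constructor
      · rintro ⟨_, h3, h4⟩
        exact ⟨Nat.dvd_gcd h3 h4, hg0⟩
      · rintro ⟨h3, _⟩
        have h4 : f ∣ D := h3.trans (Nat.gcd_dvd_left _ _)
        have h5 : f ∣ D' := h3.trans (Nat.gcd_dvd_right _ _)
        refine ⟨⟨Nat.pos_of_dvd_of_pos h4 (by omega), (Nat.le_of_dvd (by omega) h4).trans hD.2⟩,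
          h4, h5⟩
    rw [h2, ← Finset.sum_mul, Gcd_zetaJ s hg0, Gcd_lcm s D D' hD0 hD0']
    ring
  rw [Finset.sum_congr rfl fun D hD => Finset.sum_congr rfl fun D' hD' => h1 D hD D' hD']
  rw [Finset.sum_congr rfl fun D _ => Finset.sum_comm, Finset.sum_comm]
  refine Finset.sum_congr rfl fun f _ => ?_
  rw [sq, Finset.sum_mul_sum, Finset.mul_sum, Finset.sum_filter]
  refine Finset.sum_congr rfl fun D _ => ?_
  by_cases hfD : f ∣ D
  · rw [if_pos hfD, Finset.mul_sum, Finset.sum_filter]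
    refine Finset.sum_congr rfl fun D' _ => ?_
    by_cases hfD' : f ∣ D'
    · rw [if_pos ⟨hfD, hfD'⟩, if_pos hfD']
    · rw [if_neg (fun h => hfD' h.2), if_neg hfD']
  · rw [if_neg hfD]
    exact Finset.sum_eq_zero fun D' _ => if_neg fun h => hfD h.1

private theorem Gcd_filter (n M : ℕ) (hn : n ≠ 0) :
    n.divisors.filter (fun D => D ≤ M) = (Finset.Icc 1 M).filter (fun D => D ∣ n) := by
  ext D
  simp only [Finset.mem_filter, Nat.mem_divisors, Finset.mem_Icc]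
  constructor
  · rintro ⟨⟨h1, _⟩, h2⟩
    exact ⟨⟨Nat.pos_of_dvd_of_pos h1 (Nat.pos_of_ne_zero hn), h2⟩, h1⟩
  · rintro ⟨⟨_, h2⟩, h1⟩
    exact ⟨⟨h1, hn⟩, h2⟩

private theorem Gcd_real (s : ℝ) (hs : 1 < s) (M N : ℕ) (c : ℕ → ℝ) :
    ∑ n ∈ Finset.Icc 1 N, (n : ℝ) ^ (-s) *
        (∑ D ∈ (Finset.Icc 1 M).filter (fun D => D ∣ n), c D) ^ 2
      ≤ (1 + 1 / (s - 1)) * ∑ f ∈ Finset.Icc 1 M, (f : ℝ) ^ s *
        (∑ D ∈ (Finset.Icc 1 M).filter (fun D => f ∣ D), c D * (D : ℝ) ^ (-s)) ^ 2 := by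
  set Z := ∑' m : ℕ, (m : ℝ) ^ (-s) with hZ
  have hZ0 : 0 ≤ Z := tsum_nonneg fun m => Real.rpow_nonneg (Nat.cast_nonneg _) _
  have hhas : HasSum (fun n : ℕ => (n : ℝ) ^ (-s) *
      (∑ D ∈ (Finset.Icc 1 M).filter (fun D => D ∣ n), c D) ^ 2)
      (∑ D ∈ Finset.Icc 1 M, ∑ D' ∈ Finset.Icc 1 M,
        c D * c D' * (((Nat.lcm D D' : ℕ) : ℝ) ^ (-s) * Z)) := by
    have h1 : (fun n : ℕ => (n : ℝ) ^ (-s) *
      (∑ D ∈ (Finset.Icc 1 M).filter (fun D => D ∣ n), c D) ^ 2) =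
        fun n : ℕ => ∑ D ∈ Finset.Icc 1 M, ∑ D' ∈ Finset.Icc 1 M,
          c D * c D' * (if Nat.lcm D D' ∣ n then (n : ℝ) ^ (-s) else 0) := by
      funext n
      rw [sq, Finset.sum_mul_sum, Finset.mul_sum, Finset.sum_filter]
      refine Finset.sum_congr rfl fun D _ => ?_
      by_cases hD : D ∣ n
      · rw [if_pos hD, Finset.mul_sum, Finset.sum_filter]
        refine Finset.sum_congr rfl fun D' _ => ?_
        by_cases hD' : D' ∣ n
        · rw [if_pos hD', if_pos (Nat.lcm_dvd hD hD')]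
          ring
        · rw [if_neg hD', if_neg fun h => hD' ((Nat.dvd_lcm_right D D').trans h), mul_zero]
      · rw [if_neg hD]
        refine (Finset.sum_eq_zero fun D' _ => ?_).symm
        rw [if_neg fun h => hD ((Nat.dvd_lcm_left D D').trans h), mul_zero]
    rw [h1]
    refine hasSum_sum fun D hD => hasSum_sum fun D' hD' => ?_
    rw [Finset.mem_Icc] at hD hD'
    exact (Gcd_hasSum_mult s hs (Nat.lcm D D')
      (Nat.lcm_ne_zero (by omega) (by omega))).mul_left (c D * c D')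
  have hle : ∑ n ∈ Finset.Icc 1 N, (n : ℝ) ^ (-s) *
        (∑ D ∈ (Finset.Icc 1 M).filter (fun D => D ∣ n), c D) ^ 2 ≤
      ∑ D ∈ Finset.Icc 1 M, ∑ D' ∈ Finset.Icc 1 M,
        c D * c D' * (((Nat.lcm D D' : ℕ) : ℝ) ^ (-s) * Z) :=
    sum_le_hasSum _ (fun n _ => mul_nonneg (Real.rpow_nonneg (Nat.cast_nonneg _) _)
      (sq_nonneg _)) hhas
  refine hle.trans ?_
  have h2 : ∑ D ∈ Finset.Icc 1 M, ∑ D' ∈ Finset.Icc 1 M,
        c D * c D' * (((Nat.lcm D D' : ℕ) : ℝ) ^ (-s) * Z) =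
      Z * ∑ D ∈ Finset.Icc 1 M, ∑ D' ∈ Finset.Icc 1 M,
        c D * c D' * ((Nat.lcm D D' : ℕ) : ℝ) ^ (-s) := by
    rw [Finset.mul_sum]
    refine Finset.sum_congr rfl fun D _ => ?_
    rw [Finset.mul_sum]
    refine Finset.sum_congr rfl fun D' _ => ?_
    ring
  rw [h2, Gcd_quad]
  have h3 : ∑ f ∈ Finset.Icc 1 M, Gcd_J s f *
      (∑ D ∈ (Finset.Icc 1 M).filter (fun D => f ∣ D), c D * (D : ℝ) ^ (-s)) ^ 2 ≤
      ∑ f ∈ Finset.Icc 1 M, (f : ℝ) ^ s *
        (∑ D ∈ (Finset.Icc 1 M).filter (fun D => f ∣ D), c D * (D : ℝ) ^ (-s)) ^ 2 := by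
    refine Finset.sum_le_sum fun f hf => ?_
    rw [Finset.mem_Icc] at hf
    exact mul_le_mul_of_nonneg_right (Gcd_J_le (by linarith only [hs]) (by omega)) (sq_nonneg _)
  have h4 : 0 ≤ ∑ f ∈ Finset.Icc 1 M, (f : ℝ) ^ s *
        (∑ D ∈ (Finset.Icc 1 M).filter (fun D => f ∣ D), c D * (D : ℝ) ^ (-s)) ^ 2 :=
    Finset.sum_nonneg fun f _ => mul_nonneg (Real.rpow_nonneg (Nat.cast_nonneg _) _) (sq_nonneg _)
  calc Z * _ ≤ Z * _ := mul_le_mul_of_nonneg_left h3 hZ0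
    _ ≤ _ := mul_le_mul_of_nonneg_right (Gcd_zeta_le s hs) h4

private theorem Gcd_cpow (s : ℝ) (D : ℕ) : (D : ℂ) ^ (-(s : ℂ)) = (((D : ℝ) ^ (-s) : ℝ) : ℂ) := by
  rw [Complex.ofReal_cpow (Nat.cast_nonneg D)]
  push_cast
  rfl

private theorem Gcd_normsq (z : ℂ) : ‖z‖ ^ 2 = z.re ^ 2 + z.im ^ 2 := by
  rw [Complex.sq_norm, Complex.normSq_apply]
  ring

/-- For real `s > 1` and `c` supported on `[1, M]`,
`∑_{n ≤ N} n^{-s} |∑_{D ∣ n, D ≤ M} c_D|² ≤ (1 + 1/(s-1)) ∑_{f ≤ M} f^s |∑_{f ∣ D ≤ M} c_D D^{-s}|²`.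

PROOF. The left side is at most the sum over all `n ≥ 1`, which equals
`∑_{D,D'} c_D conj(c_{D'}) ∑_{[D,D'] ∣ n} n^{-s} = ζ(s) ∑_{D,D'} c_D conj(c_{D'}) [D,D']^{-s}`,
`[D,D']^{-s} = (D D')^{-s} (D,D')^s = (D D')^{-s} ∑_{f ∣ (D,D')} J(f)`, `J = μ * id^s`,
`0 ≤ J(f) = f^s ∏_{p∣f} (1 - p^{-s}) ≤ f^s`, giving `ζ(s) ∑_f J(f) |∑_{f∣D} c_D D^{-s}|²`;
`ζ(s) ≤ 1 + 1/(s-1)`. -/
theorem gcd_form (s : ℝ) (hs : 1 < s) (M N : ℕ) (c : ℕ → ℂ) :
    ∑ n ∈ Finset.Icc 1 N, (n : ℝ) ^ (-s) *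
        ‖∑ D ∈ n.divisors.filter (fun D => D ≤ M), c D‖ ^ 2
      ≤ (1 + 1 / (s - 1)) * ∑ f ∈ Finset.Icc 1 M, (f : ℝ) ^ s *
        ‖∑ D ∈ (Finset.Icc 1 M).filter (fun D => f ∣ D), c D * (D : ℂ) ^ (-(s : ℂ))‖ ^ 2 := by
  have h1 := Gcd_real s hs M N (fun D => (c D).re)
  have h2 := Gcd_real s hs M N (fun D => (c D).im)
  have hL : ∑ n ∈ Finset.Icc 1 N, (n : ℝ) ^ (-s) *
        ‖∑ D ∈ n.divisors.filter (fun D => D ≤ M), c D‖ ^ 2 =
      ∑ n ∈ Finset.Icc 1 N, (n : ℝ) ^ (-s) *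
        (∑ D ∈ (Finset.Icc 1 M).filter (fun D => D ∣ n), (c D).re) ^ 2 +
      ∑ n ∈ Finset.Icc 1 N, (n : ℝ) ^ (-s) *
        (∑ D ∈ (Finset.Icc 1 M).filter (fun D => D ∣ n), (c D).im) ^ 2 := by
    rw [← Finset.sum_add_distrib]
    refine Finset.sum_congr rfl fun n hn => ?_
    rw [Finset.mem_Icc] at hn
    rw [Gcd_filter n M (by omega), Gcd_normsq, Complex.re_sum, Complex.im_sum, mul_add]
  have hR : ∑ f ∈ Finset.Icc 1 M, (f : ℝ) ^ s *
        ‖∑ D ∈ (Finset.Icc 1 M).filter (fun D => f ∣ D), c D * (D : ℂ) ^ (-(s : ℂ))‖ ^ 2 =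
      ∑ f ∈ Finset.Icc 1 M, (f : ℝ) ^ s *
        (∑ D ∈ (Finset.Icc 1 M).filter (fun D => f ∣ D), (c D).re * (D : ℝ) ^ (-s)) ^ 2 +
      ∑ f ∈ Finset.Icc 1 M, (f : ℝ) ^ s *
        (∑ D ∈ (Finset.Icc 1 M).filter (fun D => f ∣ D), (c D).im * (D : ℝ) ^ (-s)) ^ 2 := by
    rw [← Finset.sum_add_distrib]
    refine Finset.sum_congr rfl fun f _ => ?_
    rw [Gcd_normsq, Complex.re_sum, Complex.im_sum, mul_add]
    congr 3
    · refine Finset.sum_congr rfl fun D _ => ?_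
      rw [Gcd_cpow, Complex.re_mul_ofReal]
    · refine Finset.sum_congr rfl fun D _ => ?_
      rw [Gcd_cpow, Complex.im_mul_ofReal]
  rw [hL, hR, mul_add]
  exact add_le_add h1 h2

end Pool.Agent.H14.CO

end

section

/-!
# CO module LamIn: sums of the weights over integers with given gcd with `r`
-/

set_option autoImplicit false

namespace Pool.Agent.H14.CO

open Set MeasureTheory Complex

theorem LamIn_sg_nonneg (r : ℕ) : 0 ≤ sg r := by
  unfold sg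
  refine Finset.prod_nonneg fun p hp => ?_
  have hp1 : (1 : ℝ) ≤ p := by exact_mod_cast (Nat.prime_of_mem_primeFactors hp).one_le
  have : 1 / (p : ℝ) ≤ 1 := (div_le_one (by linarith)).2 hp1
  exact inv_nonneg.2 (by linarith)

theorem LamIn_bound {C : ℝ} (hC : 0 < C) {r g : ℕ} {X : ℝ} {u : ℂ}
    (h : ‖∑ e ∈ (Finset.Icc 1 ⌊X⌋₊).filter (fun e => Nat.Coprime e r),
      ((ArithmeticFunction.moebius e : ℤ) : ℂ) * (e : ℂ) ^ (-(1 + u)) * (Real.log (X / e) : ℂ)‖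
      ≤ C * sg r * X ^ |u.re| * (1 + ‖u‖ * Real.log X) ^ 2)
    {z₀ : ℝ} (hz : 2 ≤ z₀) (hg : 0 < g) (hX : 1 ≤ X) (hXg : X * g ≤ z₀ ^ 2) :
    ‖(g : ℂ) ^ (-(1 + u)) * ∑ e ∈ (Finset.Icc 1 ⌊X⌋₊).filter (fun e => Nat.Coprime e r),
      ((ArithmeticFunction.moebius e : ℤ) : ℂ) * (e : ℂ) ^ (-(1 + u)) * (Real.log (X / e) : ℂ)‖
      ≤ 4 * C * sg r * (1 / g) * z₀ ^ (2 * |u.re|) * (1 + ‖u‖ * Real.log z₀) ^ 2 := by
  have hg1 : (1 : ℝ) ≤ g := by exact_mod_cast hg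
  have hg0 : (0 : ℝ) < g := by linarith only [hg1]
  have hX0 : 0 < X := by linarith only [hX]
  have hz0 : 0 < z₀ := by linarith only [hz]
  have ha : 0 ≤ |u.re| := abs_nonneg _
  have hlz : 0 ≤ Real.log z₀ := Real.log_nonneg (by linarith)
  have hlX : 0 ≤ Real.log X := Real.log_nonneg hX
  rw [norm_mul, Complex.norm_natCast_cpow_of_pos hg]
  have hre : (-(1 + u)).re = -(1 + u.re) := by simp
  rw [hre]
  have hXz : X ≤ z₀ ^ 2 := le_trans (le_mul_of_one_le_right hX0.le hg1) hXg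
  have hlog : Real.log X ≤ 2 * Real.log z₀ := by
    have h1 := Real.log_le_log hX0 hXz
    rw [Real.log_pow] at h1
    exact_mod_cast h1
  have hsq : (1 + ‖u‖ * Real.log X) ^ 2 ≤ 4 * (1 + ‖u‖ * Real.log z₀) ^ 2 := by
    have h1 : 1 + ‖u‖ * Real.log X ≤ 2 * (1 + ‖u‖ * Real.log z₀) := by
      nlinarith only [hlog, mul_le_mul_of_nonneg_left hlog (norm_nonneg u)]
    have h2 : 0 ≤ 1 + ‖u‖ * Real.log X := by positivity
    calc (1 + ‖u‖ * Real.log X) ^ 2 ≤ (2 * (1 + ‖u‖ * Real.log z₀)) ^ 2 := pow_le_pow_left₀ h2 h1 2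
      _ = 4 * (1 + ‖u‖ * Real.log z₀) ^ 2 := by ring
  have hpow : (g : ℝ) ^ (-(1 + u.re)) * X ^ |u.re| ≤ (1 / g) * z₀ ^ (2 * |u.re|) := by
    have h1 : X ^ |u.re| ≤ (z₀ ^ 2 / g) ^ |u.re| :=
      Real.rpow_le_rpow hX0.le ((le_div_iff₀ hg0).2 hXg) ha
    have h2 : (z₀ ^ 2 / g : ℝ) ^ |u.re| = z₀ ^ (2 * |u.re|) / (g : ℝ) ^ |u.re| := by
      rw [Real.div_rpow (by positivity) hg0.le]
      congr 1
      rw [Real.rpow_mul hz0.le]
      norm_num
    have h3 : (g : ℝ) ^ (-(1 + u.re)) = (1 / g) * (g : ℝ) ^ (-u.re) := by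
      rw [show -(1 + u.re) = -1 + -u.re by ring, Real.rpow_add hg0, Real.rpow_neg_one, one_div]
    have h4 : (g : ℝ) ^ (-u.re) ≤ (g : ℝ) ^ |u.re| :=
      Real.rpow_le_rpow_of_exponent_le hg1 (neg_le_abs _)
    have h5 : 0 < (g : ℝ) ^ |u.re| := Real.rpow_pos_of_pos hg0 _
    have h6 : 0 ≤ z₀ ^ (2 * |u.re|) := Real.rpow_nonneg hz0.le _
    rw [h3]
    calc (1 / (g : ℝ)) * (g : ℝ) ^ (-u.re) * X ^ |u.re|
        ≤ (1 / (g : ℝ)) * (g : ℝ) ^ |u.re| * (z₀ ^ (2 * |u.re|) / (g : ℝ) ^ |u.re|) := by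
          rw [← h2]
          gcongr
      _ = (1 / g) * z₀ ^ (2 * |u.re|) := by
          field_simp
  have hsg := LamIn_sg_nonneg r
  have hgp : 0 ≤ (g : ℝ) ^ (-(1 + u.re)) := Real.rpow_nonneg hg0.le _
  calc (g : ℝ) ^ (-(1 + u.re)) * ‖∑ e ∈ (Finset.Icc 1 ⌊X⌋₊).filter (fun e => Nat.Coprime e r),
      ((ArithmeticFunction.moebius e : ℤ) : ℂ) * (e : ℂ) ^ (-(1 + u)) * (Real.log (X / e) : ℂ)‖
      ≤ (g : ℝ) ^ (-(1 + u.re)) * (C * sg r * X ^ |u.re| * (1 + ‖u‖ * Real.log X) ^ 2) :=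
        mul_le_mul_of_nonneg_left h hgp
    _ = (C * sg r) * ((g : ℝ) ^ (-(1 + u.re)) * X ^ |u.re|) * (1 + ‖u‖ * Real.log X) ^ 2 := by ring
    _ ≤ (C * sg r) * ((1 / g) * z₀ ^ (2 * |u.re|)) * (4 * (1 + ‖u‖ * Real.log z₀) ^ 2) := by
        have h7 : 0 ≤ C * sg r := mul_nonneg hC.le hsg
        have h8 : 0 ≤ (1 / (g : ℝ)) * z₀ ^ (2 * |u.re|) := by positivity
        exact mul_le_mul (mul_le_mul_of_nonneg_left hpow h7) hsq (by positivity) (mul_nonneg h7 h8)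
    _ = 4 * C * sg r * (1 / g) * z₀ ^ (2 * |u.re|) * (1 + ‖u‖ * Real.log z₀) ^ 2 := by ring

/-- reindexing of the sum over the multiples of `g` -/
theorem LamIn_reindex {z₀ : ℝ} {r g : ℕ} (hr : Squarefree r) (hgr : g ∣ r) (f : ℕ → ℂ)
    (hf : ∀ d, ArithmeticFunction.moebius d = 0 → f d = 0) :
    ∑ d ∈ (Finset.Icc 1 ⌊z₀ ^ 2⌋₊).filter (fun d => Nat.gcd d r = g), f d =
      ∑ e ∈ (Finset.Icc 1 ⌊z₀ ^ 2 / g⌋₊).filter (fun e => Nat.Coprime e r), f (g * e) := by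
  classical
  have hr0 : r ≠ 0 := hr.ne_zero
  have hg : 0 < g := Nat.pos_of_dvd_of_pos hgr (Nat.pos_of_ne_zero hr0)
  have hg0 : (0 : ℝ) < g := by exact_mod_cast hg
  have hz2 : (0 : ℝ) ≤ z₀ ^ 2 := sq_nonneg z₀
  have hinj : Function.Injective fun e : ℕ => g * e := fun a b h => Nat.eq_of_mul_eq_mul_left hg h
  rw [← Finset.sum_image (f := f) (g := fun e : ℕ => g * e) (fun a _ b _ h => hinj h)]
  symm
  refine Finset.sum_subset ?_ ?_
  · intro d hd
    rw [Finset.mem_image] at hd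
    obtain ⟨e, he, rfl⟩ := hd
    rw [Finset.mem_filter, Finset.mem_Icc] at he
    obtain ⟨⟨he1, he2⟩, hcop⟩ := he
    rw [Finset.mem_filter, Finset.mem_Icc]
    refine ⟨⟨Nat.mul_pos hg he1, ?_⟩, ?_⟩
    · rw [Nat.le_floor_iff hz2]
      have h1 := (Nat.le_floor_iff (by positivity)).1 he2
      rw [le_div_iff₀ hg0] at h1
      push_cast
      linarith only [h1]
    · rw [Nat.Coprime.gcd_mul_right_cancel g hcop]
      exact Nat.gcd_eq_left hgr
  · intro d hd hdn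
    apply hf
    by_contra hmu
    have hsq : Squarefree d := ArithmeticFunction.moebius_ne_zero_iff_squarefree.1 hmu
    rw [Finset.mem_filter, Finset.mem_Icc] at hd
    obtain ⟨⟨hd1, hd2⟩, hgcd⟩ := hd
    have hgd : g ∣ d := hgcd ▸ Nat.gcd_dvd_left d r
    obtain ⟨e, rfl⟩ := hgd
    have he0 : 0 < e := Nat.pos_of_ne_zero (by rintro rfl; simp at hd1)
    apply hdn
    rw [Finset.mem_image]
    refine ⟨e, ?_, rfl⟩
    rw [Finset.mem_filter, Finset.mem_Icc]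
    refine ⟨⟨he0, ?_⟩, ?_⟩
    · rw [Nat.le_floor_iff (by positivity), le_div_iff₀ hg0]
      have h1 := (Nat.le_floor_iff hz2).1 hd2
      push_cast at h1
      linarith only [h1]
    · have hge : Nat.Coprime g e := Nat.coprime_of_squarefree_mul hsq
      by_contra hnc
      obtain ⟨p, hp, hpe, hpr⟩ := Nat.Prime.not_coprime_iff_dvd.1 hnc
      have h1 : p ∣ Nat.gcd (g * e) r := Nat.dvd_gcd (hpe.mul_left g) hpr
      rw [hgcd] at h1
      exact Nat.Prime.not_coprime_iff_dvd.2 ⟨p, hp, h1, hpe⟩ hge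

/-- The sum over multiples of one factor.

PROOF. `d = g e` with `(e, r) = 1` (as `lam z₀ d = 0` unless `d` is squarefree),
`lam z₀ (g e) = μ(g) μ(e) (log⁺(z₀²/(g e)) - log⁺(z₀/(g e)))/log z₀`, so the sum is
`μ(g) g^{-(1+u)} (m_r(z₀²/g) - m_r(z₀/g))/log z₀` (each term present only if `g ≤ z₀²`, `g ≤ z₀`),
`moebius_cop`: each is `≤ C sg(r) (z₀²)^{|Re u|} (1+2‖u‖ log z₀)²`, with `g^{-Re u} (z₀²/g)^{|Re u|} ≤ z₀^{2|Re u|}`
(if `g ≤ z₀²`). -/
theorem lam_inner : ∃ C : ℝ, 0 < C ∧ ∀ z₀ : ℝ, 2 ≤ z₀ → ∀ (r g : ℕ), Squarefree r → g ∣ r → ∀ u : ℂ,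
    ‖∑ d ∈ (Finset.Icc 1 ⌊z₀ ^ 2⌋₊).filter (fun d => Nat.gcd d r = g),
      (lam z₀ d : ℂ) * (d : ℂ) ^ (-(1 + u))‖
      ≤ C / Real.log z₀ * sg r * (1 / g) * z₀ ^ (2 * |u.re|) * (1 + ‖u‖ * Real.log z₀) ^ 2 := by
  obtain ⟨C, hC, hmc⟩ := moebius_cop
  refine ⟨8 * C, by positivity, fun z₀ hz r g hr hgr u => ?_⟩
  have hr0 : r ≠ 0 := hr.ne_zero
  have hg : 0 < g := Nat.pos_of_dvd_of_pos hgr (Nat.pos_of_ne_zero hr0)
  have hg1 : (1 : ℝ) ≤ g := by exact_mod_cast hg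
  have hg0 : (0 : ℝ) < g := by linarith only [hg1]
  have hz0 : 0 < z₀ := by linarith only [hz]
  have hlz : 0 < Real.log z₀ := Real.log_pos (by linarith)
  have hsg := LamIn_sg_nonneg r
  set B : ℝ := 4 * C * sg r * (1 / g) * z₀ ^ (2 * |u.re|) * (1 + ‖u‖ * Real.log z₀) ^ 2 with hB
  have hB0 : 0 ≤ B := by positivity
  -- the two Moebius sums
  let Sm : ℝ → ℂ := fun Y => (g : ℂ) ^ (-(1 + u)) *
    ∑ e ∈ (Finset.Icc 1 ⌊z₀ ^ 2 / g⌋₊).filter (fun e => Nat.Coprime e r),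
      ((ArithmeticFunction.moebius e : ℤ) : ℂ) * (e : ℂ) ^ (-(1 + u)) *
        ((max 0 (Real.log (Y / (g * e))) : ℝ) : ℂ)
  have hSm : ∀ Y : ℝ, 0 < Y → Y ≤ z₀ ^ 2 → ‖Sm Y‖ ≤ B := by
    intro Y hY0 hY
    rcases lt_or_ge (Y / g) 1 with hlt | hge
    · have h0 : Sm Y = 0 := by
        simp only [Sm]
        rw [Finset.sum_eq_zero, mul_zero]
        intro e he
        rw [Finset.mem_filter, Finset.mem_Icc] at he
        have he1 : (1 : ℝ) ≤ e := by exact_mod_cast he.1.1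
        have h1 : Real.log (Y / (g * e)) ≤ 0 := by
          apply Real.log_nonpos (by positivity)
          rw [div_lt_one hg0] at hlt
          rw [div_le_one (by positivity)]
          nlinarith only [hlt, he1]
        rw [max_eq_left h1]
        simp
      rw [h0, norm_zero]
      exact hB0
    · have h1 : Sm Y = (g : ℂ) ^ (-(1 + u)) *
          ∑ e ∈ (Finset.Icc 1 ⌊Y / g⌋₊).filter (fun e => Nat.Coprime e r),
            ((ArithmeticFunction.moebius e : ℤ) : ℂ) * (e : ℂ) ^ (-(1 + u)) *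
              (Real.log (Y / g / e) : ℂ) := by
        simp only [Sm]
        congr 1
        symm
        have hsub : (Finset.Icc 1 ⌊Y / g⌋₊).filter (fun e => Nat.Coprime e r) ⊆
            (Finset.Icc 1 ⌊z₀ ^ 2 / g⌋₊).filter (fun e => Nat.Coprime e r) := by
          refine Finset.filter_subset_filter _ (Finset.Icc_subset_Icc_right ?_)
          exact Nat.floor_le_floor (div_le_div_of_nonneg_right hY hg0.le)
        have hz' : ∀ e ∈ (Finset.Icc 1 ⌊z₀ ^ 2 / g⌋₊).filter (fun e => Nat.Coprime e r),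
            e ∉ (Finset.Icc 1 ⌊Y / g⌋₊).filter (fun e => Nat.Coprime e r) →
            ((ArithmeticFunction.moebius e : ℤ) : ℂ) * (e : ℂ) ^ (-(1 + u)) *
              ((max 0 (Real.log (Y / (g * e))) : ℝ) : ℂ) = 0 := by
          intro e he hne
          rw [Finset.mem_filter, Finset.mem_Icc] at he hne
          have he1 : (1 : ℝ) ≤ e := by exact_mod_cast he.1.1
          have h2 : ⌊Y / g⌋₊ < e := by
            by_contra hcon
            exact hne ⟨⟨he.1.1, not_lt.1 hcon⟩, he.2⟩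
          have h3 : Y / g < e := (Nat.floor_lt (by positivity)).1 h2
          have h1 : Real.log (Y / (g * e)) ≤ 0 := by
            apply Real.log_nonpos (by positivity)
            rw [div_le_one (by positivity)]
            rw [div_lt_iff₀ hg0] at h3
            nlinarith only [h3]
          rw [max_eq_left h1]
          simp
        rw [← Finset.sum_subset hsub hz']
        refine Finset.sum_congr rfl fun e he => ?_
        rw [Finset.mem_filter, Finset.mem_Icc] at he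
        have he1 : (1 : ℝ) ≤ e := by exact_mod_cast he.1.1
        have h3 : (e : ℝ) ≤ Y / g := (Nat.le_floor_iff (by positivity)).1 he.1.2
        have h4 : 0 ≤ Real.log (Y / (g * e)) := by
          apply Real.log_nonneg
          rw [le_div_iff₀ hg0] at h3
          rw [one_le_div (by positivity)]
          nlinarith only [h3]
        rw [max_eq_right h4, div_div]
      rw [h1]
      refine LamIn_bound hC (hmc r hr0 (Y / g) hge u) hz hg hge ?_
      rw [div_mul_cancel₀ _ hg0.ne']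
      exact hY
  have hre := LamIn_reindex (z₀ := z₀) hr hgr (fun d => (lam z₀ d : ℂ) * (d : ℂ) ^ (-(1 + u))) (by
    intro d hd
    simp only [lam, hd]
    simp)
  rw [hre]
  have hmain : ∑ e ∈ (Finset.Icc 1 ⌊z₀ ^ 2 / g⌋₊).filter (fun e => Nat.Coprime e r),
      (lam z₀ (g * e) : ℂ) * ((g * e : ℕ) : ℂ) ^ (-(1 + u)) =
      (((ArithmeticFunction.moebius g : ℤ) : ℂ) / (Real.log z₀ : ℂ)) * (Sm (z₀ ^ 2) - Sm z₀) := by
    simp only [Sm]
    rw [← mul_sub, ← Finset.sum_sub_distrib, Finset.mul_sum, Finset.mul_sum]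
    refine Finset.sum_congr rfl fun e he => ?_
    rw [Finset.mem_filter, Finset.mem_Icc] at he
    have hge : Nat.Coprime g e := (Nat.Coprime.coprime_dvd_right hgr he.2).symm
    have hmul : ((ArithmeticFunction.moebius (g * e) : ℤ) : ℝ) =
        ((ArithmeticFunction.moebius g : ℤ) : ℝ) * ((ArithmeticFunction.moebius e : ℤ) : ℝ) := by
      rw [ArithmeticFunction.isMultiplicative_moebius.map_mul_of_coprime hge]
      push_cast
      rfl
    have hcp : ((g * e : ℕ) : ℂ) ^ (-(1 + u)) = (g : ℂ) ^ (-(1 + u)) * (e : ℂ) ^ (-(1 + u)) := by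
      rw [Nat.cast_mul, Complex.natCast_mul_natCast_cpow]
    rw [hcp]
    unfold lam
    rw [hmul]
    push_cast
    ring
  rw [hmain, norm_mul, norm_div, Complex.norm_real, Real.norm_of_nonneg hlz.le]
  have hmu : ‖((ArithmeticFunction.moebius g : ℤ) : ℂ)‖ ≤ 1 := by
    rw [Complex.norm_intCast]
    exact_mod_cast ArithmeticFunction.abs_moebius_le_one
  have h5 : ‖Sm (z₀ ^ 2) - Sm z₀‖ ≤ 2 * B := by
    have h6 := norm_sub_le (Sm (z₀ ^ 2)) (Sm z₀)
    have h7 := hSm (z₀ ^ 2) (by positivity) le_rfl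
    have h8 := hSm z₀ hz0 (by nlinarith only [hz])
    linarith only [h6, h7, h8]
  calc ‖((ArithmeticFunction.moebius g : ℤ) : ℂ)‖ / Real.log z₀ * ‖Sm (z₀ ^ 2) - Sm z₀‖
      ≤ 1 / Real.log z₀ * (2 * B) := by
        refine mul_le_mul (div_le_div_of_nonneg_right hmu hlz.le) h5 (norm_nonneg _) (by positivity)
    _ = 8 * C / Real.log z₀ * sg r * (1 / g) * z₀ ^ (2 * |u.re|) * (1 + ‖u‖ * Real.log z₀) ^ 2 := by
        rw [hB]
        ring

end Pool.Agent.H14.CO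

end

section

/-!
# CO module Yf: the diagonalised mollifier sums
-/

set_option autoImplicit false

namespace Pool.Agent.H14.CO

open Set MeasureTheory Complex

private theorem Yf_rad_ne_zero (f : ℕ) : rad f ≠ 0 :=
  Finset.prod_ne_zero_iff.2 fun _ hp => (Nat.prime_of_mem_primeFactors hp).ne_zero

private theorem Yf_rad_primeFactors (f : ℕ) : (rad f).primeFactors = f.primeFactors :=
  Nat.primeFactors_prod_primeFactors f

private theorem Yf_rad_squarefree (f : ℕ) : Squarefree (rad f) := by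
  rw [Nat.squarefree_iff_prime_squarefree]
  intro p hp hdvd
  have hpr : p ∣ rad f := (dvd_mul_right p p).trans hdvd
  have hpf : p ∈ f.primeFactors := by
    rw [← Yf_rad_primeFactors]
    exact Nat.mem_primeFactors.2 ⟨hp, hpr, Yf_rad_ne_zero f⟩
  have h1 : p * ∏ q ∈ f.primeFactors.erase p, q = rad f :=
    Finset.mul_prod_erase f.primeFactors (fun q => q) hpf
  rw [← h1] at hdvd
  have h2 : p ∣ ∏ q ∈ f.primeFactors.erase p, q := Nat.dvd_of_mul_dvd_mul_left hp.pos hdvd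
  obtain ⟨q, hq, hpq⟩ := (hp.prime.dvd_finsetProd_iff _).1 h2
  have hq1 := Finset.mem_erase.1 hq
  exact hq1.1 ((Nat.prime_dvd_prime_iff_eq hp (Nat.prime_of_mem_primeFactors hq1.2)).1 hpq).symm

private theorem Yf_coprime {f e : ℕ} (hf : f ≠ 0) (h : Nat.Coprime e (rad f)) : Nat.Coprime f e := by
  refine Nat.coprime_of_dvd fun p hp hpf hpe => ?_
  have h1 : p ∣ rad f := by
    have : p ∈ (rad f).primeFactors := by
      rw [Yf_rad_primeFactors]
      exact Nat.mem_primeFactors.2 ⟨hp, hpf, hf⟩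
    exact Nat.dvd_of_mem_primeFactors this
  exact Nat.Prime.not_coprime_iff_dvd.2 ⟨p, hp, hpe, h1⟩ h

private theorem Yf_dvd_iff {f d₁ d₂ : ℕ} (hf : f ≠ 0) (h₁ : Squarefree d₁) (h₂ : Squarefree d₂) :
    f ∣ d₁ * d₂ ↔ f ∣ Nat.gcd d₁ (rad f) * Nat.gcd d₂ (rad f) := by
  constructor
  · intro h
    have e₁ : d₁ = Nat.gcd d₁ (rad f) * (d₁ / Nat.gcd d₁ (rad f)) :=
      (Nat.mul_div_cancel' (Nat.gcd_dvd_left _ _)).symm
    have e₂ : d₂ = Nat.gcd d₂ (rad f) * (d₂ / Nat.gcd d₂ (rad f)) :=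
      (Nat.mul_div_cancel' (Nat.gcd_dvd_left _ _)).symm
    have c₁ : Nat.Coprime f (d₁ / Nat.gcd d₁ (rad f)) :=
      Yf_coprime hf (Nat.coprime_div_gcd_of_squarefree h₁ (Yf_rad_ne_zero f))
    have c₂ : Nat.Coprime f (d₂ / Nat.gcd d₂ (rad f)) :=
      Yf_coprime hf (Nat.coprime_div_gcd_of_squarefree h₂ (Yf_rad_ne_zero f))
    have h3 : f ∣ (Nat.gcd d₁ (rad f) * Nat.gcd d₂ (rad f)) *
        ((d₁ / Nat.gcd d₁ (rad f)) * (d₂ / Nat.gcd d₂ (rad f))) := by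
      have h4 : d₁ * d₂ = (Nat.gcd d₁ (rad f) * Nat.gcd d₂ (rad f)) *
        ((d₁ / Nat.gcd d₁ (rad f)) * (d₂ / Nat.gcd d₂ (rad f))) := by
        conv_lhs => rw [e₁, e₂]
        ring
      rwa [← h4]
    exact (c₁.mul_right c₂).dvd_of_dvd_mul_right h3
  · intro h
    exact h.trans (mul_dvd_mul (Nat.gcd_dvd_left _ _) (Nat.gcd_dvd_left _ _))

private theorem Yf_lam_zero {z₀ : ℝ} {d : ℕ} (h : ¬ Squarefree d) : lam z₀ d = 0 := by
  unfold lam
  rw [ArithmeticFunction.moebius_eq_zero_of_not_squarefree h]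
  simp

/-- PROOF. `r = rad f`; since `lam z₀ d = 0` unless `d` is squarefree, for squarefree `d₁, d₂`:
`f ∣ d₁ d₂ ↔ f ∣ gcd(d₁,r) gcd(d₂,r)`. Split according to `g_i = gcd(d_i, r)` and use
`lam_inner` twice. -/
theorem Yf_bound : ∃ C : ℝ, 0 < C ∧ ∀ z₀ : ℝ, 2 ≤ z₀ → ∀ f : ℕ, f ≠ 0 → ∀ u₁ u₂ : ℂ,
    ‖∑ d₁ ∈ Finset.Icc 1 ⌊z₀ ^ 2⌋₊, ∑ d₂ ∈ Finset.Icc 1 ⌊z₀ ^ 2⌋₊,
      if f ∣ d₁ * d₂ then (lam z₀ d₁ : ℂ) * (lam z₀ d₂ : ℂ) * (d₁ : ℂ) ^ (-(1 + u₁)) *
        (d₂ : ℂ) ^ (-(1 + u₂)) else 0‖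
      ≤ C / Real.log z₀ ^ 2 * sg f ^ 2 * bf f * z₀ ^ (2 * |u₁.re| + 2 * |u₂.re|) *
        ((1 + ‖u₁‖ * Real.log z₀) ^ 2 * (1 + ‖u₂‖ * Real.log z₀) ^ 2) := by
  obtain ⟨C, hC, hin⟩ := lam_inner
  refine ⟨C ^ 2, by positivity, ?_⟩
  intro z₀ hz f hf u₁ u₂
  set I := Finset.Icc 1 ⌊z₀ ^ 2⌋₊ with hI
  set a : ℂ → ℕ → ℂ := fun u d => (lam z₀ d : ℂ) * (d : ℂ) ^ (-(1 + u)) with ha
  set S : ℂ → ℕ → ℂ := fun u g => ∑ d ∈ I.filter (fun d => Nat.gcd d (rad f) = g), a u d with hS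
  have hsum : (∑ d₁ ∈ I, ∑ d₂ ∈ I,
      if f ∣ d₁ * d₂ then (lam z₀ d₁ : ℂ) * (lam z₀ d₂ : ℂ) * (d₁ : ℂ) ^ (-(1 + u₁)) *
        (d₂ : ℂ) ^ (-(1 + u₂)) else 0) =
      ∑ g₁ ∈ (rad f).divisors, ∑ g₂ ∈ (rad f).divisors,
        if f ∣ g₁ * g₂ then S u₁ g₁ * S u₂ g₂ else 0 := by
    have h1 : ∀ d₁ ∈ I, ∀ d₂ ∈ I,
      (if f ∣ d₁ * d₂ then (lam z₀ d₁ : ℂ) * (lam z₀ d₂ : ℂ) * (d₁ : ℂ) ^ (-(1 + u₁)) *
        (d₂ : ℂ) ^ (-(1 + u₂)) else 0) =
      if f ∣ Nat.gcd d₁ (rad f) * Nat.gcd d₂ (rad f) then a u₁ d₁ * a u₂ d₂ else 0 := by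
      intro d₁ _ d₂ _
      by_cases h₁ : Squarefree d₁
      · by_cases h₂ : Squarefree d₂
        · by_cases hd : f ∣ d₁ * d₂
          · rw [if_pos hd, if_pos ((Yf_dvd_iff hf h₁ h₂).1 hd)]
            simp only [ha]
            ring
          · rw [if_neg hd, if_neg (fun h => hd ((Yf_dvd_iff hf h₁ h₂).2 h))]
        · simp [ha, Yf_lam_zero h₂]
      · simp [ha, Yf_lam_zero h₁]
    rw [Finset.sum_congr rfl fun d₁ h₁ => Finset.sum_congr rfl fun d₂ h₂ => h1 d₁ h₁ d₂ h₂]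
    have hmaps : ∀ d ∈ I, Nat.gcd d (rad f) ∈ (rad f).divisors := fun d _ =>
      Nat.mem_divisors.2 ⟨Nat.gcd_dvd_right _ _, Yf_rad_ne_zero f⟩
    rw [← Finset.sum_fiberwise_of_maps_to hmaps]
    refine Finset.sum_congr rfl fun g₁ _ => ?_
    have h2 : ∀ d₁ ∈ I.filter (fun d => Nat.gcd d (rad f) = g₁),
        (∑ d₂ ∈ I, if f ∣ Nat.gcd d₁ (rad f) * Nat.gcd d₂ (rad f) then a u₁ d₁ * a u₂ d₂ else 0) =
        ∑ g₂ ∈ (rad f).divisors, if f ∣ g₁ * g₂ then a u₁ d₁ * S u₂ g₂ else 0 := by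
      intro d₁ hd₁
      rw [← Finset.sum_fiberwise_of_maps_to hmaps]
      refine Finset.sum_congr rfl fun g₂ _ => ?_
      have hg₁ : Nat.gcd d₁ (rad f) = g₁ := (Finset.mem_filter.1 hd₁).2
      by_cases hg : f ∣ g₁ * g₂
      · rw [if_pos hg]
        simp only [hS]
        rw [Finset.mul_sum]
        refine Finset.sum_congr rfl fun d₂ hd₂ => ?_
        rw [hg₁, (Finset.mem_filter.1 hd₂).2, if_pos hg]
      · rw [if_neg hg]
        refine Finset.sum_eq_zero fun d₂ hd₂ => ?_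
        rw [hg₁, (Finset.mem_filter.1 hd₂).2, if_neg hg]
    rw [Finset.sum_congr rfl h2, Finset.sum_comm]
    refine Finset.sum_congr rfl fun g₂ _ => ?_
    by_cases hg : f ∣ g₁ * g₂
    · simp only [if_pos hg, hS]
      rw [Finset.sum_mul]
    · simp only [if_neg hg, Finset.sum_const_zero]
  rw [hsum]
  have hlog : 0 < Real.log z₀ := Real.log_pos (by linarith)
  have hz0 : 0 < z₀ := by linarith only [hz]
  have hsg : sg (rad f) = sg f := by
    unfold sg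
    rw [Yf_rad_primeFactors]
  set K : ℂ → ℝ := fun u => C / Real.log z₀ * sg f * z₀ ^ (2 * |u.re|) *
    (1 + ‖u‖ * Real.log z₀) ^ 2 with hK
  have hSb : ∀ u : ℂ, ∀ g ∈ (rad f).divisors, ‖S u g‖ ≤ K u * (1 / (g : ℝ)) := by
    intro u g hg
    have h := hin z₀ hz (rad f) g (Yf_rad_squarefree f) (Nat.dvd_of_mem_divisors hg) u
    rw [hsg] at h
    refine h.trans (le_of_eq ?_)
    simp only [hK]
    ring
  have hnorm : ‖∑ g₁ ∈ (rad f).divisors, ∑ g₂ ∈ (rad f).divisors,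
        if f ∣ g₁ * g₂ then S u₁ g₁ * S u₂ g₂ else 0‖ ≤
      ∑ g₁ ∈ (rad f).divisors, ∑ g₂ ∈ (rad f).divisors,
        if f ∣ g₁ * g₂ then K u₁ * K u₂ * (1 / ((g₁ : ℝ) * g₂)) else 0 := by
    refine (norm_sum_le _ _).trans (Finset.sum_le_sum fun g₁ hg₁ => ?_)
    refine (norm_sum_le _ _).trans (Finset.sum_le_sum fun g₂ hg₂ => ?_)
    by_cases hg : f ∣ g₁ * g₂
    · rw [if_pos hg, if_pos hg, norm_mul]
      refine (mul_le_mul (hSb u₁ g₁ hg₁) (hSb u₂ g₂ hg₂) (norm_nonneg _)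
        ((norm_nonneg _).trans (hSb u₁ g₁ hg₁))).trans (le_of_eq ?_)
      rw [one_div_mul_one_div (g₁ : ℝ) (g₂ : ℝ) |>.symm]
      ring
    · rw [if_neg hg, if_neg hg, norm_zero]
  refine hnorm.trans (le_of_eq ?_)
  have hbf : ∑ g₁ ∈ (rad f).divisors, ∑ g₂ ∈ (rad f).divisors,
        (if f ∣ g₁ * g₂ then K u₁ * K u₂ * (1 / ((g₁ : ℝ) * g₂)) else 0) =
      K u₁ * K u₂ * bf f := by
    unfold bf
    rw [Finset.mul_sum]
    refine Finset.sum_congr rfl fun g₁ _ => ?_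
    rw [Finset.mul_sum]
    refine Finset.sum_congr rfl fun g₂ _ => ?_
    by_cases hg : f ∣ g₁ * g₂
    · rw [if_pos hg, if_pos hg]
    · rw [if_neg hg, if_neg hg, mul_zero]
  rw [hbf]
  simp only [hK]
  rw [Real.rpow_add hz0]
  field_simp

end Pool.Agent.H14.CO

end

section

/-!
# CO module CloseFar: `ζ M` on the line `Re s = 2`
-/

set_option autoImplicit false

namespace Pool.Agent.H14.CO

open Set MeasureTheory Complex

private theorem CloseFar_card (k : ℕ) : k.divisors.card ≤ 2 * Nat.sqrt k := by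
  have hsub : k.divisors ⊆ (Finset.Icc 1 (Nat.sqrt k)) ∪
      (Finset.Icc 1 (Nat.sqrt k)).image (fun e => k / e) := by
    intro d hd
    rw [Nat.mem_divisors] at hd
    obtain ⟨⟨e, he⟩, hk⟩ := hd
    have hd0 : 0 < d := by
      rcases Nat.eq_zero_or_pos d with h | h
      · exfalso
        apply hk
        rw [he, h, zero_mul]
      · exact h
    have he0 : 0 < e := by
      rcases Nat.eq_zero_or_pos e with h | h
      · exfalso
        apply hk
        rw [he, h, mul_zero]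
      · exact h
    rw [Finset.mem_union]
    by_cases h : d ≤ Nat.sqrt k
    · left
      rw [Finset.mem_Icc]
      exact ⟨hd0, h⟩
    · right
      rw [Finset.mem_image]
      refine ⟨e, ?_, ?_⟩
      · rw [Finset.mem_Icc]
        refine ⟨he0, ?_⟩
        by_contra h2
        have h3 : (Nat.sqrt k + 1) * (Nat.sqrt k + 1) ≤ d * e :=
          Nat.mul_le_mul (by omega) (by omega)
        have h4 := Nat.lt_succ_sqrt k
        rw [← he] at h3
        exact absurd (lt_of_lt_of_le h4 h3) (lt_irrefl _)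
      · rw [he]
        exact Nat.mul_div_cancel _ he0
  calc k.divisors.card ≤ _ := Finset.card_le_card hsub
    _ ≤ (Finset.Icc 1 (Nat.sqrt k)).card + ((Finset.Icc 1 (Nat.sqrt k)).image (fun e => k / e)).card :=
        Finset.card_union_le _ _
    _ ≤ (Finset.Icc 1 (Nat.sqrt k)).card + (Finset.Icc 1 (Nat.sqrt k)).card :=
        Nat.add_le_add_left Finset.card_image_le _
    _ = 2 * Nat.sqrt k := by
        rw [Nat.card_Icc]
        omega

/-- coefficients of `ζ M` -/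
private noncomputable def CloseFar_a (z₀ : ℝ) (k : ℕ) : ℝ := ∑ d ∈ k.divisors, lam z₀ d

private theorem CloseFar_abs (z₀ : ℝ) (hz : 1 < z₀) (k : ℕ) :
    |CloseFar_a z₀ k| ≤ 2 * Real.sqrt k := by
  unfold CloseFar_a
  calc |∑ d ∈ k.divisors, lam z₀ d| ≤ ∑ d ∈ k.divisors, |lam z₀ d| :=
        Finset.abs_sum_le_sum_abs _ _
    _ ≤ ∑ _d ∈ k.divisors, (1 : ℝ) := Finset.sum_le_sum fun d _ => abs_lam_le z₀ hz d
    _ = (k.divisors.card : ℝ) := by simp
    _ ≤ ((2 * Nat.sqrt k : ℕ) : ℝ) := by exact_mod_cast CloseFar_card k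
    _ ≤ 2 * Real.sqrt k := by
        push_cast
        have := Real.nat_sqrt_le_real_sqrt (a := k)
        linarith only [this]

private theorem CloseFar_a_eq (z₀ : ℝ) (hz : 1 < z₀) (k : ℕ) (hk : (k : ℝ) ≤ z₀) :
    CloseFar_a z₀ k = if k = 1 then 1 else 0 := by
  unfold CloseFar_a
  have h1 : ∀ d ∈ k.divisors, lam z₀ d = ((ArithmeticFunction.moebius d : ℤ) : ℝ) := by
    intro d hd
    apply lam_small z₀ hz
    have h2 : d ≤ k := Nat.divisor_le hd
    have h3 : (d : ℝ) ≤ k := by exact_mod_cast h2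
    linarith only [hk, h3]
  rw [Finset.sum_congr rfl h1]
  have h4 : ∑ d ∈ k.divisors, (ArithmeticFunction.moebius d : ℤ) = if k = 1 then 1 else 0 := by
    rw [← ArithmeticFunction.coe_mul_zeta_apply, ArithmeticFunction.moebius_mul_coe_zeta,
      ArithmeticFunction.one_apply]
  have h5 : ((∑ d ∈ k.divisors, (ArithmeticFunction.moebius d : ℤ) : ℤ) : ℝ) =
      ∑ d ∈ k.divisors, ((ArithmeticFunction.moebius d : ℤ) : ℝ) := by
    push_cast
    rfl
  rw [← h5, h4]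
  split_ifs <;> simp

private theorem CloseFar_hasSum (z₀ : ℝ) (hz : 1 < z₀) (s : ℂ) (hs : s.re = 2) :
    HasSum (fun k : ℕ => if k = 0 then (0 : ℂ) else (CloseFar_a z₀ k : ℂ) / (k : ℂ) ^ s)
      (riemannZeta s * Mo z₀ s) := by
  have hs1 : 1 < s.re := by rw [hs]; norm_num
  set f : ℕ → ℂ := fun n => (lam z₀ n : ℂ) with hf
  have hzero : ∀ n ∉ Finset.Icc 1 ⌊z₀ ^ 2⌋₊, LSeries.term f s n = 0 := by
    intro n hn
    rcases Nat.eq_zero_or_pos n with h | h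
    · rw [h, LSeries.term_zero]
    · rw [LSeries.term_of_ne_zero (by omega)]
      have h1 : ⌊z₀ ^ 2⌋₊ < n := by
        by_contra h2
        apply hn
        rw [Finset.mem_Icc]
        omega
      have h2 : z₀ ^ 2 < n := (Nat.floor_lt (by positivity)).mp h1
      rw [hf]
      simp only []
      rw [lam_eq_zero z₀ hz n h2.le]
      simp
  have hfs : LSeriesSummable f s := summable_of_ne_finset_zero hzero
  have hMo : LSeries f s = Mo z₀ s := by
    unfold LSeries Mo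
    rw [tsum_eq_sum hzero]
    apply Finset.sum_congr rfl
    intro n hn
    rw [Finset.mem_Icc] at hn
    rw [LSeries.term_of_ne_zero (by omega), cpow_neg, div_eq_mul_inv]
  have h1s : LSeriesSummable 1 s := LSeriesSummable_one_iff.mpr hs1
  have hconv := LSeriesHasSum.convolution hfs.LSeriesHasSum h1s.LSeriesHasSum
  rw [hMo, LSeries_one_eq_riemannZeta hs1, mul_comm] at hconv
  have hfun : (fun k : ℕ => if k = 0 then (0 : ℂ) else (CloseFar_a z₀ k : ℂ) / (k : ℂ) ^ s) =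
      LSeries.term (LSeries.convolution f 1) s := by
    funext k
    by_cases hk : k = 0
    · rw [if_pos hk, hk, LSeries.term_zero]
    · rw [if_neg hk, LSeries.term_of_ne_zero hk, LSeries.convolution_def]
      simp only [Pi.one_apply, mul_one]
      have hsum : ∑ p ∈ k.divisorsAntidiagonal, f p.1 = ∑ d ∈ k.divisors, f d := by
        rw [Nat.sum_divisorsAntidiagonal (fun d _ => f d)]
      rw [hsum]
      unfold CloseFar_a
      push_cast
      rfl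
  rw [hfun]
  exact hconv

private theorem CloseFar_step (n : ℕ) (hn : 1 ≤ n) :
    1 / Real.sqrt (n + 1) ^ 3 ≤ 2 * (1 / Real.sqrt n - 1 / Real.sqrt (n + 1)) := by
  have hn0 : (0 : ℝ) < n := by exact_mod_cast hn
  set a := Real.sqrt n with ha
  set b := Real.sqrt (n + 1) with hb
  have ha0 : 0 < a := Real.sqrt_pos.mpr hn0
  have hb0 : 0 < b := Real.sqrt_pos.mpr (by positivity)
  have hab : a ≤ b := Real.sqrt_le_sqrt (by linarith only)
  have ha2 : a ^ 2 = n := Real.sq_sqrt hn0.le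
  have hb2 : b ^ 2 = n + 1 := Real.sq_sqrt (by positivity)
  have h1 : (b - a) * (b + a) = 1 := by
    have : (b - a) * (b + a) = b ^ 2 - a ^ 2 := by ring
    rw [this, ha2, hb2]
    ring
  have h2 : 1 / a - 1 / b = 1 / (a * b * (b + a)) := by
    rw [div_sub_div _ _ ha0.ne' hb0.ne', div_eq_div_iff (by positivity) (by positivity)]
    calc (1 * b - a * 1) * (a * b * (b + a)) = ((b - a) * (b + a)) * (a * b) := by ring
      _ = 1 * (a * b) := by rw [h1]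
  rw [h2, mul_one_div, div_le_div_iff₀ (by positivity) (by positivity)]
  have h3 : a * b * (b + a) ≤ b * b * (b + b) := by
    apply mul_le_mul _ (by linarith only [hab]) (by positivity) (by positivity)
    exact mul_le_mul_of_nonneg_right hab hb0.le
  calc 1 * (a * b * (b + a)) = a * b * (b + a) := one_mul _
    _ ≤ b * b * (b + b) := h3
    _ = 2 * b ^ 3 := by ring

private noncomputable def CloseFar_g (N k : ℕ) : ℝ :=
  if N < k then 4 * (1 / Real.sqrt ((k - 1 : ℕ) : ℝ) - 1 / Real.sqrt k) else 0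

private theorem CloseFar_g_nonneg (N k : ℕ) (hN : 1 ≤ N) : 0 ≤ CloseFar_g N k := by
  unfold CloseFar_g
  split_ifs with h
  · have h1 : (0 : ℝ) < ((k - 1 : ℕ) : ℝ) := by
      have : 0 < k - 1 := by omega
      exact_mod_cast this
    have h2 : ((k - 1 : ℕ) : ℝ) ≤ k := by exact_mod_cast Nat.sub_le k 1
    have h3 : 1 / Real.sqrt k ≤ 1 / Real.sqrt ((k - 1 : ℕ) : ℝ) :=
      one_div_le_one_div_of_le (Real.sqrt_pos.mpr h1) (Real.sqrt_le_sqrt h2)
    linarith only [h3]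
  · exact le_refl _

private theorem CloseFar_g_hasSum (N : ℕ) (hN : 1 ≤ N) :
    HasSum (CloseFar_g N) (4 / Real.sqrt N) := by
  rw [hasSum_iff_tendsto_nat_of_nonneg (fun k => CloseFar_g_nonneg N k hN)]
  rw [← Filter.tendsto_add_atTop_iff_nat (N + 1)]
  have hpart : ∀ n : ℕ, ∑ k ∈ Finset.range (n + (N + 1)), CloseFar_g N k =
      4 / Real.sqrt N - 4 / Real.sqrt ((N + n : ℕ) : ℝ) := by
    intro n
    induction n with
    | zero =>
      rw [zero_add, add_zero, sub_self]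
      apply Finset.sum_eq_zero
      intro k hk
      rw [Finset.mem_range] at hk
      unfold CloseFar_g
      rw [if_neg (by omega)]
    | succ n ih =>
      have e : n + 1 + (N + 1) = (n + (N + 1)) + 1 := by ring
      rw [e, Finset.sum_range_succ, ih]
      unfold CloseFar_g
      rw [if_pos (by omega)]
      have e1 : n + (N + 1) - 1 = N + n := by omega
      have e2 : n + (N + 1) = N + (n + 1) := by omega
      rw [e1, e2]
      ring
  simp only [hpart]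
  have h1 : Filter.Tendsto (fun n : ℕ => 4 / Real.sqrt ((N + n : ℕ) : ℝ)) Filter.atTop (nhds 0) := by
    apply Filter.Tendsto.div_atTop tendsto_const_nhds
    apply Real.tendsto_sqrt_atTop.comp
    apply tendsto_natCast_atTop_atTop.comp
    apply Filter.tendsto_atTop_mono (f := fun n => n) (fun n => by omega) Filter.tendsto_id
  have h2 := (tendsto_const_nhds (x := 4 / Real.sqrt (N : ℝ))).sub h1
  rw [sub_zero] at h2
  exact h2

/-- `|ζ(s) M(s) - 1| ≤ 6 z₀^{-1/2}` for `Re s = 2`.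

PROOF. `ζ(s) M(s) = ∑ a_k k^{-s}`, `a_k = ∑_{d ∣ k} lam d`, `a_1 = 1`, `a_k = ∑_{d∣k} μ(d) = 0` for
`1 < k ≤ z₀` (`lam_small`), `|a_k| ≤ τ(k) ≤ 2√k`; `∑_{k > z₀} 2 k^{-3/2} ≤ 6 z₀^{-1/2}`. -/
theorem close_far (z₀ : ℝ) (hz : 2 ≤ z₀) (s : ℂ) (hs : s.re = 2) :
    ‖riemannZeta s * Mo z₀ s - 1‖ ≤ 6 * z₀ ^ (-(1 / 2) : ℝ) := by
  have hz1 : 1 < z₀ := by linarith only [hz]
  set N := ⌊z₀⌋₊ with hN
  have hN2 : 2 ≤ N := Nat.le_floor (by exact_mod_cast hz)
  have hNz : (N : ℝ) ≤ z₀ := Nat.floor_le (by linarith only [hz])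
  have hzN : z₀ < N + 1 := Nat.lt_floor_add_one z₀
  have hNR : (2 : ℝ) ≤ N := by exact_mod_cast hN2
  have h1 := CloseFar_hasSum z₀ hz1 s hs
  have h2 : HasSum (fun k : ℕ => if k = 1 then (1 : ℂ) else 0) 1 := hasSum_ite_eq 1 1
  have h3 := h1.sub h2
  have h4 : ∀ k : ℕ, ‖(if k = 0 then (0 : ℂ) else (CloseFar_a z₀ k : ℂ) / (k : ℂ) ^ s) -
      (if k = 1 then (1 : ℂ) else 0)‖ ≤ CloseFar_g N k := by
    intro k
    by_cases hkN : k ≤ N
    · have hg : CloseFar_g N k = 0 := by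
        unfold CloseFar_g
        rw [if_neg (by omega)]
      rw [hg]
      by_cases hk0 : k = 0
      · rw [if_pos hk0, if_neg (by omega)]
        simp
      · have hkR : (k : ℝ) ≤ z₀ := by
          have : (k : ℝ) ≤ N := by exact_mod_cast hkN
          linarith only [hNz, this]
        rw [if_neg hk0, CloseFar_a_eq z₀ hz1 k hkR]
        by_cases hk1 : k = 1
        · rw [if_pos hk1, if_pos hk1, hk1]
          simp
        · rw [if_neg hk1, if_neg hk1]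
          simp
    · have hk : N < k := by omega
      have hg : CloseFar_g N k = 4 * (1 / Real.sqrt ((k - 1 : ℕ) : ℝ) - 1 / Real.sqrt k) := by
        unfold CloseFar_g
        rw [if_pos hk]
      rw [hg, if_neg (by omega), if_neg (by omega), sub_zero, norm_div,
        Complex.norm_natCast_cpow_of_pos (by omega), hs, Complex.norm_real, Real.norm_eq_abs]
      have hk0 : (0 : ℝ) < k := by
        have : 0 < k := by omega
        exact_mod_cast this
      have hstep := CloseFar_step (k - 1) (by omega)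
      have hcast : (((k - 1 : ℕ) : ℝ) + 1) = k := by
        have : k - 1 + 1 = k := by omega
        exact_mod_cast this
      rw [hcast] at hstep
      have hsq : Real.sqrt k ^ 2 = k := Real.sq_sqrt hk0.le
      have hs0 : 0 < Real.sqrt k := Real.sqrt_pos.mpr hk0
      have h5 : |CloseFar_a z₀ k| / (k : ℝ) ^ (2 : ℝ) ≤ 2 * (1 / Real.sqrt k ^ 3) := by
        have e : (k : ℝ) ^ (2 : ℝ) = Real.sqrt k ^ 4 := by
          have e1 : (k : ℝ) ^ (2 : ℝ) = (k : ℝ) ^ 2 := by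
            rw [← Real.rpow_natCast]
            norm_num
          rw [e1]
          nth_rewrite 1 [← hsq]
          ring
        rw [e, mul_one_div, div_le_div_iff₀ (by positivity) (by positivity)]
        calc |CloseFar_a z₀ k| * Real.sqrt k ^ 3 ≤ (2 * Real.sqrt k) * Real.sqrt k ^ 3 :=
              mul_le_mul_of_nonneg_right (CloseFar_abs z₀ hz1 k) (by positivity)
          _ = 2 * Real.sqrt k ^ 4 := by ring
      linarith only [hstep, h5]
  have h5 := h3.norm_le_of_bounded (CloseFar_g_hasSum N (by omega)) h4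
  refine h5.trans ?_
  have hz0 : 0 < z₀ := by linarith only [hz]
  have e : z₀ ^ (-(1 / 2) : ℝ) = 1 / Real.sqrt z₀ := by
    rw [Real.rpow_neg hz0.le, Real.sqrt_eq_rpow]
    exact (one_div _).symm
  rw [e, mul_one_div, div_le_div_iff₀ (Real.sqrt_pos.mpr (by linarith only [hz, hzN])) (Real.sqrt_pos.mpr hz0)]
  have h6 : Real.sqrt z₀ ≤ 3 / 2 * Real.sqrt N := by
    rw [Real.sqrt_le_left (by positivity), mul_pow, Real.sq_sqrt (by linarith only [hz, hzN])]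
    linarith only [hz, hzN]
  linarith only [h6]

end Pool.Agent.H14.CO

end

section

/-!
# CO module MoB: mean square of the mollifier
-/

set_option autoImplicit false

namespace Pool.Agent.H14.CO

open Set MeasureTheory Complex

/-- The coefficients of the mollifier at `1/2 + w`. -/
private noncomputable def MoB_a (z₀ : ℝ) (w : ℂ) (d : ℕ) : ℂ :=
  (lam z₀ d : ℂ) * (d : ℂ) ^ (-(1 / 2 + w))

private theorem MoB_Mo_eq (z₀ : ℝ) (w : ℂ) (t : ℝ) :
    Mo z₀ (pt w t) = ∑ n ∈ Finset.Icc 1 ⌊z₀ ^ 2⌋₊, MoB_a z₀ w n * (n : ℂ) ^ (-(t * I)) := by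
  unfold Mo
  refine Finset.sum_congr rfl fun d hd => ?_
  have hd1 : 1 ≤ d := (Finset.mem_Icc.mp hd).1
  have hd0 : (d : ℂ) ≠ 0 := by
    have : d ≠ 0 := by omega
    exact_mod_cast this
  unfold MoB_a pt
  rw [mul_assoc, ← Complex.cpow_add _ _ hd0]
  congr 2
  ring

private theorem MoB_norm_a (z₀ : ℝ) (w : ℂ) (d : ℕ) (hd : 1 ≤ d) :
    ‖MoB_a z₀ w d‖ ^ 2 = |lam z₀ d| ^ 2 * (d : ℝ) ^ (-(1 + 2 * w.re)) := by
  unfold MoB_a
  have hd0 : (0 : ℝ) < d := by exact_mod_cast hd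
  rw [norm_mul, mul_pow, Complex.norm_real, Real.norm_eq_abs,
    Complex.norm_natCast_cpow_of_pos (by omega)]
  congr 1
  rw [← Real.rpow_natCast, ← Real.rpow_mul hd0.le]
  congr 1
  simp
  ring

private theorem MoB_harm (N : ℕ) :
    ∑ d ∈ Finset.Icc 1 N, (1 / (d : ℝ)) ≤ 1 + Real.log N := by
  have h := harmonic_le_one_add_log N
  rw [harmonic_eq_sum_Icc] at h
  push_cast at h
  simpa [one_div] using h

/-- numerical facts about `z₀ = T ^ θ`. -/
private theorem MoB_basic (θ : ℝ) (hθ0 : 0 < θ) (hθ1 : θ ≤ 1 / 40) (T : ℝ) (hT : 256 ≤ T) :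
    1 < T ^ θ ∧ (1 : ℝ) ≤ Real.log T ∧ 1 ≤ ⌊(T ^ θ) ^ 2⌋₊ ∧
    ((⌊(T ^ θ) ^ 2⌋₊ : ℕ) : ℝ) ≤ T ^ (2 * θ) ∧
    Real.log ((⌊(T ^ θ) ^ 2⌋₊ : ℕ) : ℝ) ≤ 2 * θ * Real.log T ∧
    8 * (4 * ((⌊(T ^ θ) ^ 2⌋₊ : ℕ) : ℝ) * (1 + Real.log ((⌊(T ^ θ) ^ 2⌋₊ : ℕ) : ℝ)))
      ≤ T ^ (9 / 10 : ℝ) := by
  have hT1 : (1 : ℝ) < T := by linarith only [hθ0, hθ1, hT]
  have hT0 : (0 : ℝ) < T := by linarith only [hθ0, hθ1, hT]
  have hz : 1 < T ^ θ := Real.one_lt_rpow hT1 hθ0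
  have hL : (1 : ℝ) ≤ Real.log T := by
    rw [Real.le_log_iff_exp_le hT0]
    have := Real.exp_one_lt_d9
    linarith only [hθ0, hθ1, hT, this]
  have hsq : (T ^ θ) ^ 2 = T ^ (2 * θ) := by
    rw [← Real.rpow_natCast, ← Real.rpow_mul hT0.le]
    congr 1
    push_cast
    ring
  have hN1 : 1 ≤ ⌊(T ^ θ) ^ 2⌋₊ := by
    rw [Nat.one_le_floor_iff]
    nlinarith only [hz]
  have hNle : ((⌊(T ^ θ) ^ 2⌋₊ : ℕ) : ℝ) ≤ T ^ (2 * θ) := by
    rw [← hsq]
    exact Nat.floor_le (by positivity)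
  have hNpos : (0 : ℝ) < ((⌊(T ^ θ) ^ 2⌋₊ : ℕ) : ℝ) := by exact_mod_cast hN1
  have hlogN : Real.log ((⌊(T ^ θ) ^ 2⌋₊ : ℕ) : ℝ) ≤ 2 * θ * Real.log T := by
    have h1 := Real.log_le_log hNpos hNle
    rwa [Real.log_rpow hT0] at h1
  refine ⟨hz, hL, hN1, hNle, hlogN, ?_⟩
  have h20 : T ^ (2 * θ) ≤ T ^ (1 / 20 : ℝ) :=
    Real.rpow_le_rpow_of_exponent_le hT1.le (by linarith only [hθ1])
  have hlog20 : Real.log T ≤ T ^ (1 / 20 : ℝ) / (1 / 20) :=
    Real.log_le_rpow_div hT0.le (by norm_num)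
  have hone : (1 : ℝ) ≤ T ^ (1 / 20 : ℝ) := Real.one_le_rpow hT1.le (by norm_num)
  have hlog : Real.log ((⌊(T ^ θ) ^ 2⌋₊ : ℕ) : ℝ) ≤ T ^ (1 / 20 : ℝ) := by
    have : 2 * θ * Real.log T ≤ (1 / 20) * Real.log T := by
      apply mul_le_mul_of_nonneg_right (by linarith only [hθ1]) (by linarith only [hθ0, hθ1, hL])
    linarith only [hlogN, hlog20, this]
  have hlog0 : 0 ≤ Real.log ((⌊(T ^ θ) ^ 2⌋₊ : ℕ) : ℝ) :=
    Real.log_nonneg (by exact_mod_cast hN1)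
  have h10 : T ^ (1 / 20 : ℝ) * T ^ (1 / 20 : ℝ) = T ^ (1 / 10 : ℝ) := by
    rw [← Real.rpow_add hT0]
    norm_num
  have h910 : T ^ (9 / 10 : ℝ) = T ^ (1 / 10 : ℝ) * T ^ (8 / 10 : ℝ) := by
    rw [← Real.rpow_add hT0]
    norm_num
  have h64 : (64 : ℝ) ≤ T ^ (8 / 10 : ℝ) := by
    have h1 : (256 : ℝ) ^ (8 / 10 : ℝ) ≤ T ^ (8 / 10 : ℝ) :=
      Real.rpow_le_rpow (by norm_num) hT (by norm_num)
    have h2 : (64 : ℝ) ≤ (256 : ℝ) ^ (8 / 10 : ℝ) := by
      have h3 : (256 : ℝ) = 2 ^ (8 : ℝ) := by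
        rw [show (8 : ℝ) = ((8 : ℕ) : ℝ) by norm_num, Real.rpow_natCast]
        norm_num
      rw [h3, ← Real.rpow_mul (by norm_num)]
      have h4 : (64 : ℝ) = 2 ^ (6 : ℝ) := by
        rw [show (6 : ℝ) = ((6 : ℕ) : ℝ) by norm_num, Real.rpow_natCast]
        norm_num
      rw [h4]
      exact Real.rpow_le_rpow_of_exponent_le (by norm_num) (by norm_num)
    linarith only [h1, h2]
  set n : ℝ := ((⌊(T ^ θ) ^ 2⌋₊ : ℕ) : ℝ) with hn
  set y : ℝ := T ^ (1 / 20 : ℝ) with hy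
  have hny : n ≤ y := hNle.trans h20
  have h1 : n * (1 + Real.log n) ≤ y * (2 * y) := by
    apply mul_le_mul hny (by linarith only [hone, hlog]) (by linarith only [hlog0]) (by linarith only [hone])
  calc 8 * (4 * n * (1 + Real.log n)) = 32 * (n * (1 + Real.log n)) := by ring
    _ ≤ 32 * (y * (2 * y)) := by linarith only [h1]
    _ = 64 * T ^ (1 / 10 : ℝ) := by rw [← h10]; ring
    _ ≤ T ^ (9 / 10 : ℝ) := by
        rw [h910]
        have : 0 < T ^ (1 / 10 : ℝ) := Real.rpow_pos_of_pos hT0 _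
        nlinarith only [h64, h10]

/-- Right of the critical line without loss: for `Re w ≥ 0`, `≤ C W L`. -/
theorem mo_upper_right (θ : ℝ) (hθ0 : 0 < θ) (hθ1 : θ ≤ 1 / 40) : ∃ C : ℝ, 0 < C ∧ ∃ T₀ : ℝ, 1 < T₀ ∧
    ∀ T : ℝ, T₀ ≤ T → ∀ τ W : ℝ, T ^ (9 / 10 : ℝ) ≤ W → ∀ w : ℂ, 0 ≤ w.re →
    Integrable (fun t : ℝ => ‖Mo (T ^ θ) (pt w t)‖ ^ 2 * gw τ W t) ∧
    ∫ t : ℝ, ‖Mo (T ^ θ) (pt w t)‖ ^ 2 * gw τ W t ≤ C * W * Real.log T := by
  refine ⟨4, by norm_num, 256, by norm_num, ?_⟩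
  intro T hT τ W hW w hw
  obtain ⟨hz, hL, hN1, hNle, hlogN, hbig⟩ := MoB_basic θ hθ0 hθ1 T hT
  have hT0 : (0 : ℝ) < T := by linarith only [hT]
  have hW0 : 0 < W := lt_of_lt_of_le (Real.rpow_pos_of_pos hT0 _) hW
  set N : ℕ := ⌊(T ^ θ) ^ 2⌋₊ with hN
  have hNlog0 : 0 ≤ Real.log (N : ℝ) := Real.log_nonneg (by exact_mod_cast hN1)
  have hcond : 4 * (N : ℝ) * (1 + Real.log N) ≤ W := by
    have : 0 ≤ 4 * (N : ℝ) * (1 + Real.log N) := by positivity
    linarith only [hW, hW0, hbig]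
  obtain ⟨hint, -, hup⟩ := gauss_mvt N hN1 (MoB_a (T ^ θ) w) W τ hcond
  have hfun : (fun t : ℝ => ‖Mo (T ^ θ) (pt w t)‖ ^ 2 * gw τ W t) =
      fun t : ℝ => ‖∑ n ∈ Finset.Icc 1 N, MoB_a (T ^ θ) w n * (n : ℂ) ^ (-(t * I))‖ ^ 2
        * gw τ W t := by
    funext t
    rw [MoB_Mo_eq]
  rw [hfun]
  refine ⟨hint, hup.trans ?_⟩
  have hsum : ∑ n ∈ Finset.Icc 1 N, ‖MoB_a (T ^ θ) w n‖ ^ 2 ≤ 1 + Real.log N := by
    refine le_trans (Finset.sum_le_sum fun d hd => ?_) (MoB_harm N)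
    have hd1 : 1 ≤ d := (Finset.mem_Icc.mp hd).1
    have hd0 : (0 : ℝ) < d := by exact_mod_cast hd1
    have hd1' : (1 : ℝ) ≤ d := by exact_mod_cast hd1
    rw [MoB_norm_a _ _ _ hd1]
    have hl : |lam (T ^ θ) d| ^ 2 ≤ 1 := by
      have := abs_lam_le (T ^ θ) hz d
      have h0 := abs_nonneg (lam (T ^ θ) d)
      nlinarith only [hθ0, this, h0]
    have hpow : (d : ℝ) ^ (-(1 + 2 * w.re)) ≤ 1 / (d : ℝ) := by
      have h1 : (d : ℝ) ^ (-(1 + 2 * w.re)) ≤ (d : ℝ) ^ (-1 : ℝ) :=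
        Real.rpow_le_rpow_of_exponent_le hd1' (by linarith only [hw])
      rwa [Real.rpow_neg_one, ← one_div] at h1
    calc |lam (T ^ θ) d| ^ 2 * (d : ℝ) ^ (-(1 + 2 * w.re))
        ≤ 1 * (1 / (d : ℝ)) := by
          apply mul_le_mul hl hpow (by positivity) (by norm_num)
      _ = _ := one_mul _
  have hlog1 : 1 + Real.log (N : ℝ) ≤ 2 * Real.log T := by
    have : 2 * θ * Real.log T ≤ 1 * Real.log T := by
      apply mul_le_mul_of_nonneg_right (by linarith only [hθ1]) (by linarith only [hL])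
    linarith only [hL, hlogN, this]
  calc 2 * W * ∑ n ∈ Finset.Icc 1 N, ‖MoB_a (T ^ θ) w n‖ ^ 2
      ≤ 2 * W * (2 * Real.log T) := by
        apply mul_le_mul_of_nonneg_left (hsum.trans hlog1) (by positivity)
    _ = 4 * W * Real.log T := by ring

private theorem MoB_inv_sq (N : ℕ) : ∑ b ∈ Finset.Icc 1 N, (1 / (b : ℝ) ^ 2) ≤ 2 := by
  have h : ∀ N : ℕ, 1 ≤ N → ∑ b ∈ Finset.Icc 1 N, (1 / (b : ℝ) ^ 2) ≤ 2 - 1 / (N : ℝ) := by
    intro N hN
    induction N, hN using Nat.le_induction with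
    | base => norm_num
    | succ n hn ih =>
      rw [Finset.sum_Icc_succ_top (by omega)]
      have hn0 : (0 : ℝ) < n := by exact_mod_cast hn
      push_cast
      have h1 : 1 / ((n : ℝ) + 1) ^ 2 ≤ 1 / (n : ℝ) - 1 / ((n : ℝ) + 1) := by
        rw [div_sub_div _ _ (by positivity) (by positivity), div_le_div_iff₀ (by positivity) (by positivity)]
        nlinarith only [hn0]
      linarith only [ih, h1]
  rcases Nat.eq_zero_or_pos N with h0 | h0
  · subst h0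
    simp
  · have h1 := h N h0
    have : (0 : ℝ) ≤ 1 / (N : ℝ) := by positivity
    linarith only [h1, this]

/-- `(1/2) log (N + 1) ≤ ∑_{d ≤ N} μ²(d)/d`. -/
private theorem MoB_sqfree (N : ℕ) :
    Real.log (N + 1) ≤ 2 * ∑ d ∈ (Finset.Icc 1 N).filter Squarefree, (1 / (d : ℝ)) := by
  have hf : ∀ n : ℕ, ∃ p : ℕ × ℕ, p.2 ^ 2 * p.1 = n ∧ Squarefree p.1 := by
    intro n
    obtain ⟨a, b, hab, ha⟩ := Nat.sq_mul_squarefree n
    exact ⟨(a, b), hab, ha⟩
  choose g hg1 hg2 using hf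
  have hlog : Real.log (N + 1) ≤ ∑ n ∈ Finset.Icc 1 N, (1 / (n : ℝ)) := by
    have h := log_add_one_le_harmonic N
    rw [harmonic_eq_sum_Icc] at h
    push_cast at h
    simpa [one_div] using h
  have hinj : Set.InjOn g (Finset.Icc 1 N : Finset ℕ) := by
    intro a _ b _ hab
    rw [← hg1 a, ← hg1 b, hab]
  have hsum : ∑ n ∈ Finset.Icc 1 N, (1 / (n : ℝ)) ≤
      ∑ p ∈ ((Finset.Icc 1 N).filter Squarefree) ×ˢ (Finset.Icc 1 N),
        (1 / (p.1 : ℝ)) * (1 / (p.2 : ℝ) ^ 2) := by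
    have h1 : ∑ n ∈ Finset.Icc 1 N, (1 / (n : ℝ)) =
        ∑ n ∈ Finset.Icc 1 N, (1 / ((g n).1 : ℝ)) * (1 / ((g n).2 : ℝ) ^ 2) := by
      refine Finset.sum_congr rfl fun n _ => ?_
      have : (n : ℝ) = ((g n).2 : ℝ) ^ 2 * ((g n).1 : ℝ) := by
        exact_mod_cast (hg1 n).symm
      rw [this, one_div_mul_one_div, mul_comm]
    rw [h1, ← Finset.sum_image (f := fun p : ℕ × ℕ => (1 / (p.1 : ℝ)) * (1 / (p.2 : ℝ) ^ 2)) hinj]
    refine Finset.sum_le_sum_of_subset_of_nonneg ?_ (fun p _ _ => by positivity)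
    intro p hp
    obtain ⟨n, hn, rfl⟩ := Finset.mem_image.mp hp
    have hn1 := (Finset.mem_Icc.mp hn).1
    have hnN := (Finset.mem_Icc.mp hn).2
    have e := hg1 n
    have hp1 : (g n).1 ≠ 0 := by
      intro h
      rw [h, mul_zero] at e
      omega
    have hp2 : (g n).2 ≠ 0 := by
      intro h
      rw [h] at e
      simp at e
      omega
    have hle1 : (g n).1 ≤ n := by
      calc (g n).1 = 1 * (g n).1 := (one_mul _).symm
        _ ≤ (g n).2 ^ 2 * (g n).1 := Nat.mul_le_mul_right _ (Nat.one_le_pow _ _ (by omega))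
        _ = n := e
    have hle2 : (g n).2 ≤ n := by
      calc (g n).2 ≤ (g n).2 ^ 2 := Nat.le_self_pow (by norm_num) _
        _ = (g n).2 ^ 2 * 1 := (mul_one _).symm
        _ ≤ (g n).2 ^ 2 * (g n).1 := Nat.mul_le_mul_left _ (by omega)
        _ = n := e
    rw [Finset.mem_product, Finset.mem_filter, Finset.mem_Icc, Finset.mem_Icc]
    exact ⟨⟨⟨by omega, by omega⟩, hg2 n⟩, ⟨by omega, by omega⟩⟩
  rw [Finset.sum_product] at hsum
  simp_rw [← Finset.mul_sum] at hsum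
  rw [← Finset.sum_mul] at hsum
  have h2 := MoB_inv_sq N
  have h3 : 0 ≤ ∑ d ∈ (Finset.Icc 1 N).filter Squarefree, (1 / (d : ℝ)) :=
    Finset.sum_nonneg fun _ _ => by positivity
  calc Real.log (N + 1) ≤ _ := hlog
    _ ≤ _ := hsum
    _ ≤ (∑ d ∈ (Finset.Icc 1 N).filter Squarefree, (1 / (d : ℝ))) * 2 :=
        mul_le_mul_of_nonneg_left h2 h3
    _ = _ := mul_comm _ _

/-- PROOF. `gauss_mvt` (lower) with width `W₁ = W/8` at `w = 0`:
`≥ (3/2) W₁ S`, `S = ∑ |lam d|²/d ≥ ∑_{d ≤ z₀} μ²(d)/d ≥ (1/2) log z₀`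
(`∑_{n≤x} 1/n ≤ (∑_{d≤x} μ²(d)/d)(∑ 1/m²)`). The part `|t-τ| > W` of that Gaussian integral is at most
`e^{-32} ∫ ‖Mo‖² gw τ (√2 W₁) ≤ e^{-32} 2√2 W₁ S` since
`gw τ W₁ t ≤ e^{-32} gw τ (√2 W₁) t` for `|t - τ| ≥ 8 W₁`. -/
theorem mo_lower (θ : ℝ) (hθ0 : 0 < θ) (hθ1 : θ ≤ 1 / 40) : ∃ c : ℝ, 0 < c ∧ ∃ T₀ : ℝ, 1 < T₀ ∧
    ∀ T : ℝ, T₀ ≤ T → ∀ τ W : ℝ, T ^ (9 / 10 : ℝ) ≤ W →
    c * W * Real.log T ≤ ∫ t in (τ - W)..(τ + W), ‖Mo (T ^ θ) (pt 0 t)‖ ^ 2 := by
  refine ⟨θ / 16, by positivity, 256, by norm_num, ?_⟩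
  intro T hT τ W hW
  obtain ⟨hz, hL, hN1, hNle, hlogN, hbig⟩ := MoB_basic θ hθ0 hθ1 T hT
  have hT0 : (0 : ℝ) < T := by linarith only [hT]
  have hW0 : 0 < W := lt_of_lt_of_le (Real.rpow_pos_of_pos hT0 _) hW
  set N : ℕ := ⌊(T ^ θ) ^ 2⌋₊ with hN
  have hNlog0 : 0 ≤ Real.log (N : ℝ) := Real.log_nonneg (by exact_mod_cast hN1)
  set W₁ : ℝ := W / 8 with hW₁
  have hW₁0 : 0 < W₁ := by positivity
  have hcond1 : 4 * (N : ℝ) * (1 + Real.log N) ≤ W₁ := by
    rw [hW₁]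
    linarith only [hW, hbig]
  have hs2 : (1 : ℝ) ≤ Real.sqrt 2 := by
    rw [Real.one_le_sqrt]
    norm_num
  have hs2' : Real.sqrt 2 ≤ 2 := by
    rw [Real.sqrt_le_left (by norm_num)]
    norm_num
  have hcond2 : 4 * (N : ℝ) * (1 + Real.log N) ≤ Real.sqrt 2 * W₁ := by
    nlinarith only [hW, hW0, hbig, hW₁, hs2]
  obtain ⟨hint1, hlow, -⟩ := gauss_mvt N hN1 (MoB_a (T ^ θ) 0) W₁ τ hcond1
  obtain ⟨hint2, -, hup⟩ := gauss_mvt N hN1 (MoB_a (T ^ θ) 0) (Real.sqrt 2 * W₁) τ hcond2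
  set S : ℝ := ∑ n ∈ Finset.Icc 1 N, ‖MoB_a (T ^ θ) 0 n‖ ^ 2 with hS
  have hS0 : 0 ≤ S := Finset.sum_nonneg fun _ _ => by positivity
  set f : ℝ → ℝ := fun t => ‖∑ n ∈ Finset.Icc 1 N, MoB_a (T ^ θ) 0 n * (n : ℂ) ^ (-(t * I))‖ ^ 2
    with hf
  have hfeq : ∀ t : ℝ, f t = ‖Mo (T ^ θ) (pt 0 t)‖ ^ 2 := fun t => by
    rw [MoB_Mo_eq]
  have hf0 : ∀ t, 0 ≤ f t := fun t => by positivity
  have hfc : Continuous f := by
    have : f = fun t : ℝ => ‖Mo (T ^ θ) (pt 0 t)‖ ^ 2 := funext hfeq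
    rw [this]
    have hpt : Continuous (fun t : ℝ => pt 0 t) := by
      unfold pt
      fun_prop
    exact ((continuous_Mo (T ^ θ)).comp hpt).norm.pow 2
  -- lower bound of S
  have hSlow : θ * Real.log T ≤ 2 * S := by
    have h1 := MoB_sqfree ⌊T ^ θ⌋₊
    have h2 : θ * Real.log T ≤ Real.log ((⌊T ^ θ⌋₊ : ℝ) + 1) := by
      rw [← Real.log_rpow hT0]
      exact Real.log_le_log (by positivity) (Nat.lt_floor_add_one _).le
    have h3 : ∑ d ∈ (Finset.Icc 1 ⌊T ^ θ⌋₊).filter Squarefree, (1 / (d : ℝ)) ≤ S := by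
      have hsub : (Finset.Icc 1 ⌊T ^ θ⌋₊).filter Squarefree ⊆ Finset.Icc 1 N := by
        intro d hd
        have hd' := (Finset.mem_filter.mp hd).1
        rw [Finset.mem_Icc] at hd' ⊢
        refine ⟨hd'.1, hd'.2.trans ?_⟩
        rw [hN]
        apply Nat.floor_le_floor
        nlinarith only [hz]
      calc ∑ d ∈ (Finset.Icc 1 ⌊T ^ θ⌋₊).filter Squarefree, (1 / (d : ℝ))
          = ∑ d ∈ (Finset.Icc 1 ⌊T ^ θ⌋₊).filter Squarefree, ‖MoB_a (T ^ θ) 0 d‖ ^ 2 := by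
            refine Finset.sum_congr rfl fun d hd => ?_
            obtain ⟨hd', hsq⟩ := Finset.mem_filter.mp hd
            rw [Finset.mem_Icc] at hd'
            have hdle : (d : ℝ) ≤ T ^ θ := (Nat.le_floor_iff (by positivity)).mp hd'.2
            rw [MoB_norm_a _ _ _ hd'.1, lam_small (T ^ θ) hz d hdle]
            have hmu : |((ArithmeticFunction.moebius d : ℤ) : ℝ)| ^ 2 = 1 := by
              rw [sq_abs]
              have : (ArithmeticFunction.moebius d : ℤ) ^ 2 = 1 := by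
                rw [ArithmeticFunction.moebius_sq]
                simp [hsq]
              exact_mod_cast this
            rw [hmu, one_mul]
            simp [Real.rpow_neg_one]
        _ ≤ S := Finset.sum_le_sum_of_subset_of_nonneg hsub (fun _ _ _ => by positivity)
    linarith only [h1, h2, h3]
  -- pointwise inequality
  have hpt : ∀ t : ℝ, f t * gw τ W₁ t ≤
      (Set.Ioc (τ - W) (τ + W)).indicator f t
        + Real.exp (-32) * (f t * gw τ (Real.sqrt 2 * W₁) t) := by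
    intro t
    have hg1 : gw τ W₁ t ≤ 1 := by
      unfold gw
      rw [Real.exp_le_one_iff]
      have : 0 ≤ ((t - τ) / W₁) ^ 2 := by positivity
      linarith only [this]
    by_cases ht : t ∈ Set.Ioc (τ - W) (τ + W)
    · rw [Set.indicator_of_mem ht]
      have h1 : f t * gw τ W₁ t ≤ f t * 1 := mul_le_mul_of_nonneg_left hg1 (hf0 t)
      have h2 : 0 ≤ Real.exp (-32) * (f t * gw τ (Real.sqrt 2 * W₁) t) := by
        have : 0 ≤ gw τ (Real.sqrt 2 * W₁) t := (Real.exp_pos _).le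
        have := hf0 t
        positivity
      linarith only [h1, h2]
    · rw [Set.indicator_of_notMem ht, zero_add]
      have h8 : 64 ≤ ((t - τ) / W₁) ^ 2 := by
        rw [Set.mem_Ioc, not_and_or, not_lt, not_le] at ht
        have habs : W ≤ |t - τ| := by
          rcases ht with h | h
          · rw [le_abs]
            right
            linarith only [h]
          · rw [le_abs]
            left
            linarith only [h]
        rw [div_pow, le_div_iff₀ (by positivity), ← sq_abs (t - τ)]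
        have : W₁ = W / 8 := rfl
        rw [this]
        have h3 : W ^ 2 ≤ |t - τ| ^ 2 := by
          apply pow_le_pow_left₀ hW0.le habs
        nlinarith only [h3]
      have hgle : gw τ W₁ t ≤ Real.exp (-32) * gw τ (Real.sqrt 2 * W₁) t := by
        unfold gw
        rw [← Real.exp_add]
        apply Real.exp_le_exp.mpr
        have hsq2 : Real.sqrt 2 ^ 2 = 2 := Real.sq_sqrt (by norm_num)
        have : ((t - τ) / (Real.sqrt 2 * W₁)) ^ 2 = ((t - τ) / W₁) ^ 2 / 2 := by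
          rw [div_pow, div_pow, mul_pow, hsq2]
          field_simp
        rw [this]
        linarith only [h8]
      calc f t * gw τ W₁ t ≤ f t * (Real.exp (-32) * gw τ (Real.sqrt 2 * W₁) t) :=
            mul_le_mul_of_nonneg_left hgle (hf0 t)
        _ = _ := by ring
  have hindint : Integrable ((Set.Ioc (τ - W) (τ + W)).indicator f) := by
    rw [integrable_indicator_iff measurableSet_Ioc]
    exact (hfc.integrableOn_Icc (a := τ - W) (b := τ + W)).mono_set Set.Ioc_subset_Icc_self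
  have hmain : ∫ t : ℝ, f t * gw τ W₁ t ≤
      (∫ t in (τ - W)..(τ + W), f t)
        + Real.exp (-32) * ∫ t : ℝ, f t * gw τ (Real.sqrt 2 * W₁) t := by
    have h1 : ∫ t : ℝ, f t * gw τ W₁ t ≤ ∫ t : ℝ, ((Set.Ioc (τ - W) (τ + W)).indicator f t
        + Real.exp (-32) * (f t * gw τ (Real.sqrt 2 * W₁) t)) :=
      integral_mono hint1 (hindint.add (hint2.const_mul _)) hpt
    rw [integral_add hindint (hint2.const_mul _), integral_const_mul,
      integral_indicator measurableSet_Ioc] at h1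
    rwa [intervalIntegral.integral_of_le (by linarith only [hW0])]
  have hfin : ∫ t in (τ - W)..(τ + W), ‖Mo (T ^ θ) (pt 0 t)‖ ^ 2 = ∫ t in (τ - W)..(τ + W), f t := by
    congr 1
    funext t
    exact (hfeq t).symm
  rw [hfin]
  have he : Real.exp (-32) ≤ 1 / 33 := by
    have h1 : (33 : ℝ) ≤ Real.exp 32 := by
      have := Real.add_one_le_exp (32 : ℝ)
      linarith only [this]
    rw [Real.exp_neg, ← one_div]
    exact one_div_le_one_div_of_le (by norm_num) h1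
  have he0 : 0 ≤ Real.exp (-32) := (Real.exp_pos _).le
  have hI2 : ∫ t : ℝ, f t * gw τ (Real.sqrt 2 * W₁) t ≤ 4 * W₁ * S := by
    refine hup.trans ?_
    have : 2 * (Real.sqrt 2 * W₁) ≤ 4 * W₁ := by nlinarith only [hθ1, hW0, hW₁, hs2, hs2']
    exact mul_le_mul_of_nonneg_right this hS0
  have hWS : 0 ≤ W₁ * S := by positivity
  have h4 : Real.exp (-32) * ∫ t : ℝ, f t * gw τ (Real.sqrt 2 * W₁) t ≤ 1 / 33 * (4 * (W₁ * S)) := by
    calc Real.exp (-32) * ∫ t : ℝ, f t * gw τ (Real.sqrt 2 * W₁) t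
        ≤ Real.exp (-32) * (4 * W₁ * S) := mul_le_mul_of_nonneg_left hI2 he0
      _ ≤ 1 / 33 * (4 * (W₁ * S)) := by
        rw [mul_assoc 4]
        exact mul_le_mul_of_nonneg_right he (by positivity)
  have h5 : W₁ * S ≤ ∫ t in (τ - W)..(τ + W), f t := by
    have h6 : 3 / 2 * W₁ * S = 3 / 2 * (W₁ * S) := by ring
    rw [h6] at hlow
    linarith only [hlow, hmain, hWS, h4]
  have h7 : θ / 16 * W * Real.log T ≤ W₁ * S := by
    have h8 : W₁ * S = W / 16 * (2 * S) := by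
      rw [hW₁]
      ring
    rw [h8]
    calc θ / 16 * W * Real.log T = W / 16 * (θ * Real.log T) := by ring
      _ ≤ W / 16 * (2 * S) := mul_le_mul_of_nonneg_left hSlow (by positivity)
  exact h7.trans h5

end Pool.Agent.H14.CO

end
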