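import Pool.Agent.H15.TB1.M03

/-! The parts of this file: H14.CO.Select, H95.GC.Ident, H95.GC.CoreA, H95.GC.Blocks, H14.CO.FinalA, H95.GC.Subdiv, H14.CO.FinalB. -/

section

/-!
# CO module Select: choosing separated points
-/

set_option autoImplicit false

namespace Pool.Agent.H14.CO

open Set MeasureTheory Complex

private lemma Select_sum (g : ℝ → ℝ) (hg : Continuous g) (Gd : Set ℝ)
    (hGd : MeasurableSet Gd) (a ℓ : ℝ) (hℓ : 0 < ℓ) (n : ℕ) :
    ∫ x in Gd ∩ Ico a (a + n * ℓ), g x =
      ∑ j ∈ Finset.range n, ∫ x in Gd ∩ Ico (a + j * ℓ) (a + (j + 1) * ℓ), g x := by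
  induction n with
  | zero => simp
  | succ n ih =>
    rw [Finset.sum_range_succ, ← ih]
    have h1 : Gd ∩ Ico a (a + ((n + 1 : ℕ) : ℝ) * ℓ) =
        (Gd ∩ Ico a (a + n * ℓ)) ∪ (Gd ∩ Ico (a + n * ℓ) (a + (n + 1) * ℓ)) := by
      rw [← inter_union_distrib_left, Ico_union_Ico_eq_Ico]
      · push_cast; rfl
      · have : 0 ≤ (n : ℝ) * ℓ := by positivity
        linarith only [this]
      · nlinarith only [hℓ]
    rw [h1]
    refine setIntegral_union ?_ (hGd.inter measurableSet_Ico) ?_ ?_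
    · refine Disjoint.mono inter_subset_right inter_subset_right ?_
      rw [Set.disjoint_left]
      intro x hx hx'
      exact absurd hx.2 (not_lt.2 hx'.1)
    · exact (hg.integrableOn_Icc (a := a) (b := a + n * ℓ)).mono_set
        (inter_subset_right.trans Ico_subset_Icc_self)
    · exact (hg.integrableOn_Icc (a := a + n * ℓ) (b := a + (n + 1) * ℓ)).mono_set
        (inter_subset_right.trans Ico_subset_Icc_self)

private lemma Select_cell (g : ℝ → ℝ) (hg : Continuous g) (hg0 : ∀ t, 0 ≤ g t) (Gd : Set ℝ)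
    (b ℓ : ℝ) (hℓ : 0 < ℓ) (hv : volume (Gd ∩ Ico b (b + ℓ)) ≠ 0) :
    ∃ t ∈ Gd ∩ Ico b (b + ℓ), ∫ x in Gd ∩ Ico b (b + ℓ), g x ≤ ℓ * g t := by
  have hle : volume (Gd ∩ Ico b (b + ℓ)) ≤ ENNReal.ofReal ℓ := by
    refine (measure_mono inter_subset_right).trans ?_
    rw [Real.volume_Ico]
    ring_nf
    exact le_rfl
  have htop : volume (Gd ∩ Ico b (b + ℓ)) ≠ ⊤ := ne_top_of_le_ne_top ENNReal.ofReal_ne_top hle
  have hint : IntegrableOn g (Gd ∩ Ico b (b + ℓ)) :=
    (hg.integrableOn_Icc (a := b) (b := b + ℓ)).mono_set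
      (inter_subset_right.trans Ico_subset_Icc_self)
  obtain ⟨t, ht, htt⟩ := exists_setAverage_le hv htop hint
  refine ⟨t, ht, ?_⟩
  rw [setAverage_eq, smul_eq_mul] at htt
  have hr : 0 < volume.real (Gd ∩ Ico b (b + ℓ)) := by
    rw [Measure.real]
    exact ENNReal.toReal_pos hv htop
  have hr2 : volume.real (Gd ∩ Ico b (b + ℓ)) ≤ ℓ := by
    rw [Measure.real]
    exact ENNReal.toReal_le_of_le_ofReal hℓ.le hle
  have h3 : ∫ x in Gd ∩ Ico b (b + ℓ), g x ≤ volume.real (Gd ∩ Ico b (b + ℓ)) * g t := by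
    have := mul_le_mul_of_nonneg_left htt hr.le
    rwa [← mul_assoc, mul_inv_cancel₀ hr.ne', one_mul] at this
  exact h3.trans (mul_le_mul_of_nonneg_right hr2 (hg0 t))

private lemma Select_sep {a ℓ x y : ℝ} (hℓ : 0 < ℓ) {i j : ℕ} (hij : i + 2 ≤ j)
    (hx : x ∈ Ico (a + i * ℓ) (a + i * ℓ + ℓ)) (hy : y ∈ Ico (a + j * ℓ) (a + j * ℓ + ℓ)) :
    ℓ ≤ y - x := by
  have h1 : ((i : ℝ) + 2) * ℓ ≤ j * ℓ := by
    refine mul_le_mul_of_nonneg_right ?_ hℓ.le
    exact_mod_cast hij
  have h2 := hx.2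
  have h3 := hy.1
  nlinarith only [h1, h2, h3]

/-- PROOF. Cells `J_j = [a + jℓ, a + (j+1)ℓ)`, `j < n`. For each `j` with `∫_{J_j ∩ Gd} g > 0` choose
`t_j ∈ J_j ∩ Gd` with `ℓ g(t_j) ≥ ∫_{J_j ∩ Gd} g` (otherwise `g < (∫)/ℓ` on `J_j ∩ Gd` and integrating
gives a contradiction since `|J_j ∩ Gd| ≤ ℓ`). `∑_j ∫_{J_j∩Gd} g = ∫_{Gd} g` (up to the null set
`{a + nℓ}`). Take the even or the odd `j`, whichever carries at least half; then
`|t_i - t_j| ≥ ℓ`. -/
theorem select (g : ℝ → ℝ) (hg : Continuous g) (hg0 : ∀ t, 0 ≤ g t) (Gd : Set ℝ)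
    (hGd : MeasurableSet Gd) (a ℓ : ℝ) (hℓ : 0 < ℓ) (n : ℕ) (hsub : Gd ⊆ Icc a (a + n * ℓ)) :
    ∃ (S : Finset ℕ) (t : ℕ → ℝ), (∀ j ∈ S, j < n ∧ t j ∈ Gd) ∧
      (∀ i ∈ S, ∀ j ∈ S, i ≠ j → ℓ ≤ |t i - t j|) ∧
      ∫ x in Gd, g x ≤ 2 * ℓ * ∑ j ∈ S, g (t j) := by
  classical
  set J : ℕ → Set ℝ := fun j => Gd ∩ Ico (a + j * ℓ) (a + j * ℓ + ℓ) with hJ
  have hchoice : ∀ j : ℕ, ∃ t : ℝ, volume (J j) ≠ 0 → t ∈ J j ∧ ∫ x in J j, g x ≤ ℓ * g t := by
    intro j
    by_cases h : volume (J j) = 0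
    · exact ⟨0, fun h' => absurd h h'⟩
    · obtain ⟨t, ht, ht2⟩ := Select_cell g hg hg0 Gd (a + j * ℓ) ℓ hℓ h
      exact ⟨t, fun _ => ⟨ht, ht2⟩⟩
  choose t ht using hchoice
  set A : Finset ℕ := (Finset.range n).filter (fun j => volume (J j) ≠ 0) with hA
  -- the integral
  have h1 : ∫ x in Gd, g x = ∑ j ∈ Finset.range n, ∫ x in J j, g x := by
    have hcong : ∫ x in Gd, g x = ∫ x in Gd ∩ Ico a (a + n * ℓ), g x := by
      refine setIntegral_congr_set ?_
      have h2 : Gd = Gd ∩ Icc a (a + n * ℓ) := (inter_eq_left.2 hsub).symm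
      conv_lhs => rw [h2]
      exact (Filter.EventuallyEq.rfl).inter Ico_ae_eq_Icc.symm
    rw [hcong, Select_sum g hg Gd hGd a ℓ hℓ n]
    refine Finset.sum_congr rfl fun j _ => ?_
    have : a + ((j : ℝ) + 1) * ℓ = a + j * ℓ + ℓ := by ring
    rw [this]
  have h2 : ∫ x in Gd, g x ≤ ∑ j ∈ A, ℓ * g (t j) := by
    rw [h1, hA, Finset.sum_filter]
    refine Finset.sum_le_sum fun j _ => ?_
    by_cases h : volume (J j) = 0
    · rw [if_neg (by simpa using h), setIntegral_measure_zero _ h]
    · rw [if_pos h]; exact (ht j h).2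
  have hsplit : ∑ j ∈ A, ℓ * g (t j) =
      ∑ j ∈ A.filter (fun j => j % 2 = 0), ℓ * g (t j) +
        ∑ j ∈ A.filter (fun j => ¬ j % 2 = 0), ℓ * g (t j) :=
    (Finset.sum_filter_add_sum_filter_not A (fun j => j % 2 = 0) _).symm
  have key : ∀ S : Finset ℕ, S ⊆ A → (∀ i ∈ S, ∀ j ∈ S, i % 2 = j % 2) →
      (∀ j ∈ S, j < n ∧ t j ∈ Gd) ∧ (∀ i ∈ S, ∀ j ∈ S, i ≠ j → ℓ ≤ |t i - t j|) := by
    intro S hSA hpar
    have hmem : ∀ j ∈ S, j < n ∧ volume (J j) ≠ 0 := by
      intro j hj
      have := hSA hj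
      rw [hA, Finset.mem_filter, Finset.mem_range] at this
      exact this
    refine ⟨fun j hj => ⟨(hmem j hj).1, (ht j (hmem j hj).2).1.1⟩, ?_⟩
    intro i hi j hj hij
    have hi' := (ht i (hmem i hi).2).1.2
    have hj' := (ht j (hmem j hj).2).1.2
    have hp := hpar i hi j hj
    rcases lt_or_gt_of_ne hij with h | h
    · have := Select_sep hℓ (show i + 2 ≤ j by omega) hi' hj'
      rw [abs_sub_comm]
      exact this.trans (le_abs_self _)
    · have := Select_sep hℓ (show j + 2 ≤ i by omega) hj' hi'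
      exact this.trans (le_abs_self _)
  rcases le_total (∑ j ∈ A.filter (fun j => j % 2 = 0), ℓ * g (t j))
      (∑ j ∈ A.filter (fun j => ¬ j % 2 = 0), ℓ * g (t j)) with hcase | hcase
  · refine ⟨A.filter (fun j => ¬ j % 2 = 0), t, ?_⟩
    obtain ⟨k1, k2⟩ := key (A.filter (fun j => ¬ j % 2 = 0)) (Finset.filter_subset _ _) (by
      intro i hi j hj
      rw [Finset.mem_filter] at hi hj
      omega)
    refine ⟨k1, k2, ?_⟩
    rw [mul_assoc, Finset.mul_sum]
    linarith only [h2, hsplit, hcase]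
  · refine ⟨A.filter (fun j => j % 2 = 0), t, ?_⟩
    obtain ⟨k1, k2⟩ := key (A.filter (fun j => j % 2 = 0)) (Finset.filter_subset _ _) (by
      intro i hi j hj
      rw [Finset.mem_filter] at hi hj
      omega)
    refine ⟨k1, k2, ?_⟩
    rw [mul_assoc, Finset.mul_sum]
    linarith only [h2, hsplit, hcase]

end Pool.Agent.H14.CO

end

section

set_option autoImplicit false

namespace Pool.Agent.H95.GC

open Set MeasureTheory

/-- `M x H` as a sum over any longer range. -/
theorem M_eq_sum (x H : ℝ) (L : ℕ) (hL : x + H / 2 ≤ L) :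
    M x H = ∑ n ∈ Finset.range L,
      (if |(n : ℝ) - x| < H / 2 then ((ArithmeticFunction.moebius n : ℤ) : ℝ) else 0) := by
  unfold M
  rw [← Finset.sum_filter]
  refine Finset.sum_congr ?_ fun _ _ => rfl
  ext n
  simp only [Finset.mem_filter, Finset.mem_range, and_congr_left_iff]
  intro hn
  have hH : 0 < H := by
    have := (abs_nonneg _).trans_lt hn
    linarith only [this]
  have h1 : (n : ℝ) < x + H / 2 := by
    have := (abs_lt.1 hn).2
    linarith only [this]
  constructor
  · intro _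
    exact_mod_cast h1.trans_le hL
  · intro _
    have h2 : (n : ℝ) < (⌈x + H⌉₊ : ℝ) + 1 := by
      have := Nat.le_ceil (x + H)
      linarith only [hH, h1, this]
    exact_mod_cast h2

theorem measurable_M : Measurable (Function.uncurry M) := by
  have hlim : ∀ p : ℝ × ℝ, Filter.Tendsto (fun L : ℕ => ∑ n ∈ Finset.range L,
      (if |(n : ℝ) - p.1| < p.2 / 2 then ((ArithmeticFunction.moebius n : ℤ) : ℝ) else 0))
      Filter.atTop (nhds (Function.uncurry M p)) := by
    intro p
    apply tendsto_const_nhds.congr'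
    filter_upwards [Filter.eventually_ge_atTop ⌈p.1 + p.2 / 2⌉₊] with L hL
    rw [← M_eq_sum p.1 p.2 L ((Nat.le_ceil _).trans (by exact_mod_cast hL))]
    rfl
  refine measurable_of_tendsto_metrizable (f := fun (L : ℕ) (p : ℝ × ℝ) => ∑ n ∈ Finset.range L,
      (if |(n : ℝ) - p.1| < p.2 / 2 then ((ArithmeticFunction.moebius n : ℤ) : ℝ) else 0))
      ?_ (tendsto_pi_nhds.2 hlim)
  intro L
  apply Finset.measurable_sum
  intro n _
  apply Measurable.ite
  · apply measurableSet_lt
    · fun_prop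
    · fun_prop
  · exact measurable_const
  · exact measurable_const

theorem abs_M_le (x H : ℝ) (hH : 0 ≤ H) : |M x H| ≤ H + 1 := by
  unfold M
  set S := (Finset.range (⌈x + H⌉₊ + 1)).filter (fun n : ℕ => |(n : ℝ) - x| < H / 2) with hS
  have h1 : |∑ n ∈ S, ((ArithmeticFunction.moebius n : ℤ) : ℝ)| ≤ S.card := by
    refine (Finset.abs_sum_le_sum_abs _ _).trans ?_
    rw [Finset.card_eq_sum_ones, Nat.cast_sum]
    apply Finset.sum_le_sum
    intro n _
    have := ArithmeticFunction.abs_moebius_le_one (n := n)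
    rw [Nat.cast_one]
    exact_mod_cast this
  refine h1.trans ?_
  rcases S.eq_empty_or_nonempty with h0 | hne
  · rw [h0]; simp; linarith only [hH]
  · set a := S.min' hne with ha
    set b := S.max' hne with hb
    have haS : a ∈ S := S.min'_mem hne
    have hbS : b ∈ S := S.max'_mem hne
    have hsub : S ⊆ Finset.Icc a b := by
      intro n hn
      rw [Finset.mem_Icc]
      exact ⟨S.min'_le n hn, S.le_max' n hn⟩
    have hcard : S.card ≤ b + 1 - a := by
      have := Finset.card_le_card hsub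
      simpa using this
    have hab : a ≤ b := S.min'_le b hbS
    have h2 : ((b + 1 - a : ℕ) : ℝ) = (b : ℝ) + 1 - a := by
      rw [Nat.cast_sub (by omega)]
      push_cast
      ring
    have h3 : (S.card : ℝ) ≤ (b : ℝ) + 1 - a := by
      rw [← h2]; exact_mod_cast hcard
    have h4 := (abs_lt.1 (Finset.mem_filter.1 haS).2).1
    have h5 := (abs_lt.1 (Finset.mem_filter.1 hbS).2).2
    linarith only [h3, h4, h5]

/-- no integer `n ≥ 1` in the window -/
theorem M_eq_zero (x δ : ℝ) (hδ0 : 0 < δ) (hδ1 : δ ≤ 1) (hx0 : 0 < x) (hx : x ≤ 2 / 3) :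
    M x (δ * x) = 0 := by
  unfold M
  apply Finset.sum_eq_zero
  intro n hn
  have h := (Finset.mem_filter.1 hn).2
  have h1 := abs_lt.1 h
  have hdx : δ * x ≤ x := by nlinarith only [hδ1, hx0]
  rcases Nat.eq_zero_or_pos n with h0 | hpos
  · exfalso
    rw [h0] at h1
    have := h1.1
    push_cast at this
    linarith only [hx0, h1, hdx]
  · exfalso
    have h2 : (1 : ℝ) ≤ n := by exact_mod_cast hpos
    linarith only [hx, h1, hdx, h2, h1.2]

/-- The Möbius inversion identity for proportional windows. -/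
theorem window_identity (δ x : ℝ) (hδ0 : 0 < δ) (hδ1 : δ ≤ 1) (hx : 0 < x) (K : ℕ)
    (hK : 3 * x / 2 ≤ K) :
    ∑ k ∈ Finset.Icc 1 K, M (x / k) (δ * (x / k)) = if |1 - x| < δ * x / 2 then 1 else 0 := by
  classical
  have hdx : δ * x ≤ x := by nlinarith only [hδ1, hx]
  have hdx0 : 0 < δ * x := by positivity
  -- the inner sums, over a common range
  have hM : ∀ k ∈ Finset.Icc 1 K, M (x / k) (δ * (x / k))
      = ∑ n ∈ Finset.range (K + 1),
        (if |((k * n : ℕ) : ℝ) - x| < δ * x / 2 then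
          ((ArithmeticFunction.moebius n : ℤ) : ℝ) else 0) := by
    intro k hk
    have hk1 : (1 : ℝ) ≤ k := by exact_mod_cast (Finset.mem_Icc.1 hk).1
    have hk0 : (0 : ℝ) < k := by linarith only [hk1]
    rw [M_eq_sum (x / k) (δ * (x / k)) (K + 1)]
    · refine Finset.sum_congr rfl fun n _ => ?_
      have : (|(n : ℝ) - x / k| < δ * (x / k) / 2) ↔ (|((k * n : ℕ) : ℝ) - x| < δ * x / 2) := by
        have e1 : |((k * n : ℕ) : ℝ) - x| = k * |(n : ℝ) - x / k| := by
          rw [← abs_of_pos hk0, ← abs_mul, abs_of_pos hk0]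
          congr 1
          push_cast
          field_simp
        have e2 : δ * x / 2 = k * (δ * (x / k) / 2) := by field_simp
        rw [e1, e2]
        exact (mul_lt_mul_iff_right₀ hk0).symm
      simp only [this]
    · have h1 : x / k ≤ x := div_le_self hx.le hk1
      have h2 : δ * (x / k) ≤ x / k := by
        have : 0 < x / k := by positivity
        nlinarith only [hδ1, this]
      push_cast
      linarith only [hK, h1, h2]
  rw [Finset.sum_congr rfl hM]
  -- reorganise by `m = k * n`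
  have key : ∀ k ∈ Finset.Icc 1 K, ∀ n ∈ Finset.range (K + 1),
      (if |((k * n : ℕ) : ℝ) - x| < δ * x / 2 then
          ((ArithmeticFunction.moebius n : ℤ) : ℝ) else 0)
      = ∑ m ∈ Finset.Icc 1 K, if k * n = m then (if |(m : ℝ) - x| < δ * x / 2 then
          ((ArithmeticFunction.moebius n : ℤ) : ℝ) else 0) else 0 := by
    intro k hk n hn
    by_cases hw : |((k * n : ℕ) : ℝ) - x| < δ * x / 2
    · have h1 := abs_lt.1 hw
      have hpos : 1 ≤ k * n := by
        rcases Nat.eq_zero_or_pos (k * n) with h0 | hpos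
        · exfalso
          rw [h0] at h1
          have := h1.1
          push_cast at this
          linarith only [hx, hdx, h1]
        · exact hpos
      have hle : k * n ≤ K := by
        have : ((k * n : ℕ) : ℝ) < K := by linarith only [hK, hdx, h1, h1.2]
        exact (by exact_mod_cast this : k * n < K).le
      rw [Finset.sum_eq_single_of_mem (k * n) (Finset.mem_Icc.2 ⟨hpos, hle⟩)]
      · simp
      · intro m _ hm
        rw [if_neg (fun h => hm h.symm)]
    · rw [if_neg hw]
      symm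
      apply Finset.sum_eq_zero
      intro m _
      split_ifs with h1 h2
      · subst h1
        exact absurd h2 hw
      · rfl
      · rfl
  have step1 : ∑ k ∈ Finset.Icc 1 K, ∑ n ∈ Finset.range (K + 1),
        (if |((k * n : ℕ) : ℝ) - x| < δ * x / 2 then
          ((ArithmeticFunction.moebius n : ℤ) : ℝ) else 0)
      = ∑ m ∈ Finset.Icc 1 K, (if |(m : ℝ) - x| < δ * x / 2 then
          (∑ k ∈ Finset.Icc 1 K, ∑ n ∈ Finset.range (K + 1),
            if k * n = m then ((ArithmeticFunction.moebius n : ℤ) : ℝ) else 0) else 0) := by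
    calc _ = ∑ k ∈ Finset.Icc 1 K, ∑ n ∈ Finset.range (K + 1), ∑ m ∈ Finset.Icc 1 K,
            (if k * n = m then (if |(m : ℝ) - x| < δ * x / 2 then
          ((ArithmeticFunction.moebius n : ℤ) : ℝ) else 0) else 0) :=
          Finset.sum_congr rfl fun k hk => Finset.sum_congr rfl fun n hn => key k hk n hn
      _ = ∑ k ∈ Finset.Icc 1 K, ∑ m ∈ Finset.Icc 1 K, ∑ n ∈ Finset.range (K + 1),
            (if k * n = m then (if |(m : ℝ) - x| < δ * x / 2 then
          ((ArithmeticFunction.moebius n : ℤ) : ℝ) else 0) else 0) :=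
          Finset.sum_congr rfl fun k hk => Finset.sum_comm
      _ = ∑ m ∈ Finset.Icc 1 K, ∑ k ∈ Finset.Icc 1 K, ∑ n ∈ Finset.range (K + 1),
            (if k * n = m then (if |(m : ℝ) - x| < δ * x / 2 then
          ((ArithmeticFunction.moebius n : ℤ) : ℝ) else 0) else 0) := Finset.sum_comm
      _ = _ := by
          refine Finset.sum_congr rfl fun m hm => ?_
          by_cases hw : |(m : ℝ) - x| < δ * x / 2
          · simp only [hw, if_true]
          · simp only [hw, if_false, ite_self, Finset.sum_const_zero]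
  rw [step1]
  -- the divisor sum
  have hdiv : ∀ m ∈ Finset.Icc 1 K, (∑ k ∈ Finset.Icc 1 K, ∑ n ∈ Finset.range (K + 1),
            if k * n = m then ((ArithmeticFunction.moebius n : ℤ) : ℝ) else 0)
        = if m = 1 then 1 else 0 := by
    intro m hm
    obtain ⟨hm1, hmK⟩ := Finset.mem_Icc.1 hm
    have h1 : ∑ n ∈ m.divisors, ((ArithmeticFunction.moebius n : ℤ) : ℝ)
        = if m = 1 then 1 else 0 := by
      have h := congrArg (fun f => f m) ArithmeticFunction.moebius_mul_coe_zeta
      simp only [ArithmeticFunction.mul_zeta_apply, ArithmeticFunction.coe_mul_zeta_apply, ArithmeticFunction.one_apply] at h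
      exact_mod_cast h
    rw [← h1, Finset.sum_comm]
    symm
    have hsub : m.divisors ⊆ Finset.range (K + 1) := by
      intro d hd
      have := Nat.divisor_le hd
      simp only [Finset.mem_range]
      omega
    rw [← Finset.sum_subset hsub]
    · refine Finset.sum_congr rfl fun d hd => ?_
      have hdm := Nat.dvd_of_mem_divisors hd
      obtain ⟨c, hc⟩ := hdm
      have hd0 : 0 < d := Nat.pos_of_mem_divisors hd
      have hc1 : 1 ≤ c := by
        rcases Nat.eq_zero_or_pos c with h0 | h0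
        · rw [h0] at hc; omega
        · exact h0
      have hcK : c ≤ K := by
        refine le_trans ?_ hmK
        rw [hc]
        exact Nat.le_mul_of_pos_left c hd0
      rw [Finset.sum_eq_single_of_mem c (Finset.mem_Icc.2 ⟨hc1, hcK⟩)]
      · rw [if_pos (by rw [hc]; ring)]
      · intro k _ hk
        rw [if_neg]
        intro h
        apply hk
        have : k * d = c * d := by rw [h, hc]; ring
        exact Nat.eq_of_mul_eq_mul_right hd0 this
    · intro n _ hn
      apply Finset.sum_eq_zero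
      intro k _
      rw [if_neg]
      intro h
      apply hn
      rw [Nat.mem_divisors]
      exact ⟨⟨k, by rw [← h]; ring⟩, by omega⟩
  have step2 : ∑ m ∈ Finset.Icc 1 K, (if |(m : ℝ) - x| < δ * x / 2 then
          (∑ k ∈ Finset.Icc 1 K, ∑ n ∈ Finset.range (K + 1),
            if k * n = m then ((ArithmeticFunction.moebius n : ℤ) : ℝ) else 0) else 0)
      = ∑ m ∈ Finset.Icc 1 K, if m = 1 then (if |(1 : ℝ) - x| < δ * x / 2 then 1 else 0) else 0 := by
    refine Finset.sum_congr rfl fun m hm => ?_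
    rw [hdiv m hm]
    by_cases h1 : m = 1
    · subst h1
      simp
    · simp [h1]
  rw [step2]
  by_cases hw : |(1 : ℝ) - x| < δ * x / 2
  · have h1 := abs_lt.1 hw
    have hK1 : 1 ≤ K := by
      have : (0 : ℝ) < K := by linarith only [hx, hK]
      exact_mod_cast this
    rw [Finset.sum_eq_single_of_mem 1 (Finset.mem_Icc.2 ⟨le_rfl, hK1⟩)]
    · simp
    · intro m _ hm
      rw [if_neg hm]
  · simp [hw]

end Pool.Agent.H95.GC

end

section

set_option autoImplicit false

namespace Pool.Agent.H95.GC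

open Set MeasureTheory

/-- the window function in the logarithmic variable -/
noncomputable def g (δ u : ℝ) : ℝ := M (Real.exp u) (δ * Real.exp u)

theorem measurable_g (δ : ℝ) : Measurable (g δ) := by
  have h : g δ = fun u => Function.uncurry M (Real.exp u, δ * Real.exp u) := by
    funext u; rfl
  rw [h]
  exact measurable_M.comp (by fun_prop)

theorem abs_g_le (δ u : ℝ) (hδ0 : 0 < δ) (hδ1 : δ ≤ 1) : |g δ u| ≤ Real.exp u + 1 := by
  have h := abs_M_le (Real.exp u) (δ * Real.exp u) (by positivity)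
  have h2 : δ * Real.exp u ≤ 1 * Real.exp u :=
    mul_le_mul_of_nonneg_right hδ1 (Real.exp_pos u).le
  unfold g
  linarith

theorem g_eq_zero (δ u : ℝ) (hδ0 : 0 < δ) (hδ1 : δ ≤ 1) (hu : u ≤ -1) : g δ u = 0 := by
  unfold g
  apply M_eq_zero _ _ hδ0 hδ1 (Real.exp_pos u)
  have h1 : Real.exp u ≤ Real.exp (-1) := Real.exp_le_exp.mpr hu
  have h2 : Real.exp (-1) ≤ 2 / 3 := by
    rw [Real.exp_neg]
    have := Real.exp_one_gt_d9
    rw [inv_le_comm₀ (Real.exp_pos 1) (by norm_num)]
    linarith only [this]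
  linarith only [h1, h2]

end Pool.Agent.H95.GC

end

section

set_option autoImplicit false

namespace Pool.Agent.H95.GC

open Set MeasureTheory
open scoped ENNReal

theorem blocks_log : (3 / 10 : ℝ) ≤ Real.log (7 / 5) := by
  rw [Real.le_log_iff_exp_le (by norm_num)]
  have h1 : Real.exp (3 / 10) ^ 10 = Real.exp 1 ^ 3 := by
    rw [← Real.exp_nat_mul, ← Real.exp_nat_mul]
    norm_num
  have h2 : Real.exp 1 ^ 3 ≤ (7 / 5 : ℝ) ^ 10 := by
    have h3 : Real.exp 1 ≤ 2.7182818286 := Real.exp_one_lt_d9.le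
    calc Real.exp 1 ^ 3 ≤ 2.7182818286 ^ 3 := pow_le_pow_left₀ (Real.exp_pos 1).le h3 3
      _ ≤ _ := by norm_num
  by_contra hcon
  rw [not_le] at hcon
  have := pow_lt_pow_left₀ hcon (by norm_num) (n := 10) (by norm_num)
  linarith only [h1, h2, this]

theorem blocks_image_mul (δ₀ u : ℝ) :
    (fun δ : ℝ => δ * Real.exp u) '' Icc δ₀ (2 * δ₀) =
      Icc (δ₀ * Real.exp u) (2 * δ₀ * Real.exp u) :=
  Set.image_mul_right_Icc' _ _ (Real.exp_pos u)

theorem blocks_image_exp (a b : ℝ) :
    Real.exp '' Icc a b = Icc (Real.exp a) (Real.exp b) := by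
  ext x
  constructor
  · rintro ⟨u, ⟨h1, h2⟩, rfl⟩
    exact ⟨Real.exp_le_exp.2 h1, Real.exp_le_exp.2 h2⟩
  · rintro ⟨h1, h2⟩
    have hx : 0 < x := lt_of_lt_of_le (Real.exp_pos a) h1
    exact ⟨Real.log x, ⟨(Real.le_log_iff_exp_le hx).2 h1, (Real.log_le_iff_le_exp hx).2 h2⟩,
      Real.exp_log hx⟩

theorem blocks_inner (g : ℝ → ℝ≥0∞) (δ₀ u : ℝ) :
    ∫⁻ δ in Icc δ₀ (2 * δ₀), g (δ * Real.exp u) * ENNReal.ofReal (Real.exp (-u)) =
      ENNReal.ofReal (Real.exp (-2 * u)) *
        ∫⁻ H in Icc (δ₀ * Real.exp u) (2 * δ₀ * Real.exp u), g H := by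
  have h1 := lintegral_image_eq_lintegral_abs_deriv_mul (s := Icc δ₀ (2 * δ₀))
    (f := fun δ : ℝ => δ * Real.exp u) (f' := fun _ => Real.exp u) measurableSet_Icc
    (fun x _ => ((hasDerivAt_id x).mul_const (Real.exp u)).hasDerivWithinAt.congr_deriv (by simp))
    (fun x _ y _ hxy => mul_right_cancel₀ (Real.exp_pos u).ne' hxy) g
  rw [blocks_image_mul] at h1
  rw [h1, ← lintegral_const_mul' _ _ ENNReal.ofReal_ne_top]
  apply lintegral_congr
  intro δ
  rw [abs_of_pos (Real.exp_pos u), ← mul_assoc, ← ENNReal.ofReal_mul (Real.exp_pos _).le,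
    ← Real.exp_add, mul_comm]
  congr 3
  ring

theorem blocks_one (f : ℝ → ℝ → ℝ≥0∞) (hf : Measurable (Function.uncurry f))
    (δ₀ a b : ℝ) (hδ₀ : 0 < δ₀) (hb : Real.exp b = 7 / 5 * Real.exp a) (K : ℝ≥0∞)
    (hK : ∀ H ∈ Icc (δ₀ * Real.exp a) (14 / 5 * (δ₀ * Real.exp a)),
      ∫⁻ x in Icc (Real.exp a) (7 / 5 * Real.exp a), f x H ≤ K) :
    ∫⁻ δ in Icc δ₀ (2 * δ₀), ∫⁻ u in Icc a b,
        f (Real.exp u) (δ * Real.exp u) * ENNReal.ofReal (Real.exp (-u))
      ≤ ENNReal.ofReal (9 / 5 * δ₀ * Real.exp (-2 * a)) * K := by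
  have m1 : Measurable (Function.uncurry fun (δ : ℝ) (u : ℝ) =>
      f (Real.exp u) (δ * Real.exp u) * ENNReal.ofReal (Real.exp (-u))) := by
    have m2 : Measurable fun p : ℝ × ℝ => ((Real.exp p.2, p.1 * Real.exp p.2) : ℝ × ℝ) := by
      fun_prop
    have m3 : Measurable fun p : ℝ × ℝ => ENNReal.ofReal (Real.exp (-p.2)) := by fun_prop
    exact (hf.comp m2).mul m3
  have m4 : Measurable (Function.uncurry fun (u : ℝ) (H : ℝ) =>
      ENNReal.ofReal (Real.exp u) * f (Real.exp u) H) := by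
    have m2 : Measurable fun p : ℝ × ℝ => ((Real.exp p.1, p.2) : ℝ × ℝ) := by
      fun_prop
    have m3 : Measurable fun p : ℝ × ℝ => ENNReal.ofReal (Real.exp p.1) := by fun_prop
    exact m3.mul (hf.comp m2)
  calc ∫⁻ δ in Icc δ₀ (2 * δ₀), ∫⁻ u in Icc a b,
        f (Real.exp u) (δ * Real.exp u) * ENNReal.ofReal (Real.exp (-u))
      = ∫⁻ u in Icc a b, ∫⁻ δ in Icc δ₀ (2 * δ₀),
        f (Real.exp u) (δ * Real.exp u) * ENNReal.ofReal (Real.exp (-u)) :=
        lintegral_lintegral_swap m1.aemeasurable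
    _ ≤ ∫⁻ u in Icc a b, ENNReal.ofReal (Real.exp (-3 * a)) *
          (∫⁻ H in Icc (δ₀ * Real.exp a) (14 / 5 * (δ₀ * Real.exp a)),
            ENNReal.ofReal (Real.exp u) * f (Real.exp u) H) := by
        refine setLIntegral_mono' measurableSet_Icc fun u hu => ?_
        rw [blocks_inner (fun H => f (Real.exp u) H), lintegral_const_mul' _ _ ENNReal.ofReal_ne_top,
          ← mul_assoc, ← ENNReal.ofReal_mul (Real.exp_pos _).le, ← Real.exp_add]
        have h1 : Real.exp (-2 * u) ≤ Real.exp (-3 * a + u) := by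
          apply Real.exp_le_exp.2
          linarith only [hu, hu.1]
        have h2 : Real.exp a ≤ Real.exp u := Real.exp_le_exp.2 hu.1
        have h3 : Real.exp u ≤ 7 / 5 * Real.exp a := hb ▸ Real.exp_le_exp.2 hu.2
        refine mul_le_mul' (ENNReal.ofReal_le_ofReal h1) (lintegral_mono_set ?_)
        apply Icc_subset_Icc
        · gcongr
        · nlinarith only [hδ₀, h3]
    _ = ENNReal.ofReal (Real.exp (-3 * a)) *
          ∫⁻ H in Icc (δ₀ * Real.exp a) (14 / 5 * (δ₀ * Real.exp a)), ∫⁻ u in Icc a b,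
            ENNReal.ofReal (Real.exp u) * f (Real.exp u) H := by
        rw [lintegral_const_mul' _ _ ENNReal.ofReal_ne_top,
          lintegral_lintegral_swap m4.aemeasurable]
    _ = ENNReal.ofReal (Real.exp (-3 * a)) *
          ∫⁻ H in Icc (δ₀ * Real.exp a) (14 / 5 * (δ₀ * Real.exp a)),
            ∫⁻ x in Icc (Real.exp a) (7 / 5 * Real.exp a), f x H := by
        congr 1
        apply lintegral_congr
        intro H
        have h1 := lintegral_image_eq_lintegral_abs_deriv_mul (s := Icc a b)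
          (f := Real.exp) (f' := Real.exp) measurableSet_Icc
          (fun x _ => (Real.hasDerivAt_exp x).hasDerivWithinAt)
          (Real.exp_injective.injOn) (fun x => f x H)
        rw [blocks_image_exp, hb] at h1
        rw [h1]
        apply lintegral_congr
        intro u
        rw [abs_of_pos (Real.exp_pos u)]
    _ ≤ ENNReal.ofReal (Real.exp (-3 * a)) *
          ∫⁻ _ in Icc (δ₀ * Real.exp a) (14 / 5 * (δ₀ * Real.exp a)), K := by
        exact mul_le_mul' le_rfl (setLIntegral_mono' measurableSet_Icc hK)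
    _ = ENNReal.ofReal (9 / 5 * δ₀ * Real.exp (-2 * a)) * K := by
        rw [setLIntegral_const, Real.volume_Icc, mul_comm K, ← mul_assoc,
          ← ENNReal.ofReal_mul (Real.exp_pos _).le]
        congr 2
        have h1 : Real.exp (-3 * a) * Real.exp a = Real.exp (-2 * a) := by
          rw [← Real.exp_add]
          congr 1
          ring
        rw [← h1]
        ring

/-- Passing from windows of length `δ y` (all `δ` in `[δ₀, 2δ₀]`) to a window of fixed length on a
block `[Y, 7Y/5]`. -/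
theorem blocks (F : ℝ → ℝ → ℝ) (hF : Measurable (Function.uncurry F))
    (hF0 : ∀ x H, 0 ≤ F x H) (hFb : ∀ x H, 0 ≤ H → F x H ≤ (H + 1) ^ 2)
    (δ₀ n n' c : ℝ) (hδ₀ : 0 < δ₀) (hn : n ≤ n') (hc : 0 ≤ c)
    (h : ∀ δ ∈ Icc δ₀ (2 * δ₀),
      c ≤ ∫ u in n..n', F (Real.exp u) (δ * Real.exp u) * Real.exp (-u)) :
    ∃ Y H : ℝ, Real.exp n ≤ Y ∧ Y ≤ Real.exp n' ∧ δ₀ * Y ≤ H ∧ H ≤ 14 / 5 * (δ₀ * Y) ∧
      c * Y ^ 2 ≤ 6 * (n' - n + 1) * ∫ x in Y..(7 / 5 * Y), F x H := by
  rcases hc.eq_or_lt with rfl | hc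
  · refine ⟨Real.exp n, δ₀ * Real.exp n, le_rfl, Real.exp_le_exp.2 hn, le_rfl, ?_, ?_⟩
    · have := mul_pos hδ₀ (Real.exp_pos n)
      linarith only [this]
    · rw [zero_mul]
      refine mul_nonneg (by linarith only [hn]) (intervalIntegral.integral_nonneg ?_ fun x _ => hF0 _ _)
      have := Real.exp_pos n
      linarith only [this]
  by_contra hcon
  push Not at hcon
  set f : ℝ → ℝ → ℝ≥0∞ := fun x H => ENNReal.ofReal (F x H) with hf
  have hfm : Measurable (Function.uncurry f) := hF.ennreal_ofReal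
  -- number of blocks
  have hL := blocks_log
  set L := Real.log (7 / 5) with hLdef
  have hLexp : Real.exp L = 7 / 5 := Real.exp_log (by norm_num)
  set J : ℕ := ⌊(n' - n) / L⌋₊ + 1 with hJ
  have hLpos : 0 < L := by linarith only [hL]
  have hJ1 : (J : ℝ) ≤ (n' - n) / L + 1 := by
    rw [hJ]
    push_cast
    have := Nat.floor_le (div_nonneg (by linarith only [hn] : (0 : ℝ) ≤ n' - n) hLpos.le)
    linarith only [this]
  have hJ2 : ∀ j : Fin J, (j : ℝ) * L ≤ n' - n := by
    intro j
    have h1 : (j : ℕ) ≤ ⌊(n' - n) / L⌋₊ := by have := j.2; omega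
    have h2 : ((j : ℕ) : ℝ) ≤ (n' - n) / L :=
      (Nat.le_floor_iff (div_nonneg (by linarith only [hn] : (0 : ℝ) ≤ n' - n) hLpos.le)).1 h1
    rwa [le_div_iff₀ hLpos] at h2
  have hcover : Icc n n' ⊆ ⋃ j : Fin J, Icc (n + j * L) (n + j * L + L) := by
    intro u hu
    have h0 : 0 ≤ (u - n) / L := div_nonneg (by linarith only [hu, hu.1]) hLpos.le
    have h1 : ⌊(u - n) / L⌋₊ < J := by
      rw [hJ]
      have : ⌊(u - n) / L⌋₊ ≤ ⌊(n' - n) / L⌋₊ := by
        apply Nat.floor_le_floor
        gcongr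
        exact hu.2
      omega
    refine mem_iUnion.2 ⟨⟨_, h1⟩, ?_, ?_⟩
    · have := Nat.floor_le h0
      rw [le_div_iff₀ hLpos] at this
      show n + (⌊(u - n) / L⌋₊ : ℝ) * L ≤ u
      linarith only [this]
    · have := Nat.lt_floor_add_one ((u - n) / L)
      rw [div_lt_iff₀ hLpos] at this
      show u ≤ n + (⌊(u - n) / L⌋₊ : ℝ) * L + L
      linarith only [this]
  -- step A
  have hA : ∀ δ ∈ Icc δ₀ (2 * δ₀), ENNReal.ofReal c ≤ ∫⁻ u in Icc n n',
      f (Real.exp u) (δ * Real.exp u) * ENNReal.ofReal (Real.exp (-u)) := by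
    intro δ hδ
    have h1 := h δ hδ
    rw [intervalIntegral.integral_of_le hn, ← integral_Icc_eq_integral_Ioc] at h1
    have hmeas : Measurable fun u : ℝ => F (Real.exp u) (δ * Real.exp u) * Real.exp (-u) := by
      have m2 : Measurable fun u : ℝ => ((Real.exp u, δ * Real.exp u) : ℝ × ℝ) := by fun_prop
      exact (hF.comp m2).mul (by fun_prop)
    rw [integral_eq_lintegral_of_nonneg_ae
      (Filter.Eventually.of_forall fun u => mul_nonneg (hF0 _ _) (Real.exp_pos _).le)
      hmeas.aestronglyMeasurable] at h1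
    refine (ENNReal.ofReal_le_ofReal h1).trans (ENNReal.ofReal_toReal_le.trans (le_of_eq ?_))
    apply lintegral_congr
    intro u
    rw [ENNReal.ofReal_mul (hF0 _ _)]
  -- step B
  have hB : ENNReal.ofReal c * ENNReal.ofReal δ₀ ≤ ∑ j : Fin J, ∫⁻ δ in Icc δ₀ (2 * δ₀),
      ∫⁻ u in Icc (n + j * L) (n + j * L + L),
        f (Real.exp u) (δ * Real.exp u) * ENNReal.ofReal (Real.exp (-u)) := by
    have m1 : Measurable (Function.uncurry fun (δ : ℝ) (u : ℝ) =>
        f (Real.exp u) (δ * Real.exp u) * ENNReal.ofReal (Real.exp (-u))) := by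
      have m2 : Measurable fun p : ℝ × ℝ => ((Real.exp p.2, p.1 * Real.exp p.2) : ℝ × ℝ) := by
        fun_prop
      have m3 : Measurable fun p : ℝ × ℝ => ENNReal.ofReal (Real.exp (-p.2)) := by fun_prop
      exact (hfm.comp m2).mul m3
    calc ENNReal.ofReal c * ENNReal.ofReal δ₀ = ∫⁻ _ in Icc δ₀ (2 * δ₀), ENNReal.ofReal c := by
          rw [setLIntegral_const, Real.volume_Icc]
          congr 2
          ring
      _ ≤ ∫⁻ δ in Icc δ₀ (2 * δ₀), ∑ j : Fin J, ∫⁻ u in Icc (n + j * L) (n + j * L + L),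
          f (Real.exp u) (δ * Real.exp u) * ENNReal.ofReal (Real.exp (-u)) := by
          refine setLIntegral_mono' measurableSet_Icc fun δ hδ => ?_
          refine (hA δ hδ).trans ((lintegral_mono_set hcover).trans ?_)
          refine (lintegral_iUnion_le _ _).trans ?_
          rw [tsum_fintype]
      _ = _ := by
          rw [lintegral_finsetSum]
          intro j _
          exact Measurable.lintegral_prod_right m1
  -- step C
  have hpos : 0 < n' - n + 1 := by linarith only [hn]
  have hC : ∀ j : Fin J, ∫⁻ δ in Icc δ₀ (2 * δ₀),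
      ∫⁻ u in Icc (n + j * L) (n + j * L + L),
        f (Real.exp u) (δ * Real.exp u) * ENNReal.ofReal (Real.exp (-u)) ≤
      ENNReal.ofReal (3 / 10 * δ₀ * c / (n' - n + 1)) := by
    intro j
    set a := n + j * L with ha
    have ha1 : n ≤ a := by
      rw [ha]
      have : 0 ≤ (j : ℝ) * L := by positivity
      linarith only [this]
    have ha2 : a ≤ n' := by
      rw [ha]
      linarith only [hJ2, hJ2 j]
    have hYpos := Real.exp_pos a
    refine (blocks_one f hfm δ₀ a (a + L) hδ₀ (by rw [Real.exp_add, hLexp]; ring)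
      (ENNReal.ofReal (c * Real.exp a ^ 2 / (6 * (n' - n + 1)))) ?_).trans (le_of_eq ?_)
    · intro H hH
      have h1 := hcon (Real.exp a) H (Real.exp_le_exp.2 ha1) (Real.exp_le_exp.2 ha2) hH.1 hH.2
      have hH0 : 0 ≤ H := le_trans (by positivity) hH.1
      have hle : Real.exp a ≤ 7 / 5 * Real.exp a := by linarith only [hYpos]
      rw [intervalIntegral.integral_of_le hle, ← integral_Icc_eq_integral_Ioc] at h1
      have hmeas : Measurable fun x : ℝ => F x H := hF.comp (by fun_prop : Measurable fun x : ℝ => ((x, H) : ℝ × ℝ))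
      have hint : Integrable (fun x : ℝ => F x H)
          (volume.restrict (Icc (Real.exp a) (7 / 5 * Real.exp a))) := by
        refine Integrable.of_bound hmeas.aestronglyMeasurable ((H + 1) ^ 2)
          (Filter.Eventually.of_forall fun x => ?_)
        rw [Real.norm_of_nonneg (hF0 _ _)]
        exact hFb x H hH0
      rw [← ofReal_integral_eq_lintegral_ofReal hint (Filter.Eventually.of_forall fun x => hF0 _ _)]
      apply ENNReal.ofReal_le_ofReal
      rw [le_div_iff₀ (by positivity)]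
      linarith only [h1]
    · rw [← ENNReal.ofReal_mul (by positivity)]
      congr 1
      have h1 : Real.exp (-2 * a) * Real.exp a ^ 2 = 1 := by
        rw [← Real.exp_nat_mul, ← Real.exp_add]
        simp
      calc 9 / 5 * δ₀ * Real.exp (-2 * a) * (c * Real.exp a ^ 2 / (6 * (n' - n + 1)))
          = (3 / 10 * δ₀ * c / (n' - n + 1)) * (Real.exp (-2 * a) * Real.exp a ^ 2) := by
            field_simp
            ring
        _ = _ := by rw [h1, mul_one]
  -- step D
  have hD : ENNReal.ofReal c * ENNReal.ofReal δ₀ ≤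
      (J : ℝ≥0∞) * ENNReal.ofReal (3 / 10 * δ₀ * c / (n' - n + 1)) := by
    refine hB.trans ((Finset.sum_le_sum fun j _ => hC j).trans (le_of_eq ?_))
    rw [Finset.sum_const, Finset.card_univ, Fintype.card_fin, nsmul_eq_mul]
  rw [← ENNReal.ofReal_mul hc.le, ← ENNReal.ofReal_natCast, ← ENNReal.ofReal_mul (by positivity),
    ENNReal.ofReal_le_ofReal_iff (by positivity)] at hD
  have h1 : (J : ℝ) * (3 / 10) < n' - n + 1 := by
    have h2 : (n' - n) / L ≤ (n' - n) / (3 / 10) := by
      gcongr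
    have h3 : (n' - n) / (3 / 10) = (n' - n) * (10 / 3) := by ring
    linarith only [hJ1, h2]
  have h2 : (J : ℝ) * (3 / 10 * δ₀ * c / (n' - n + 1)) < c * δ₀ := by
    have : (J : ℝ) * (3 / 10 * δ₀ * c / (n' - n + 1)) = (J : ℝ) * (3 / 10) / (n' - n + 1) * (c * δ₀) := by
      ring
    rw [this]
    have h3 : (J : ℝ) * (3 / 10) / (n' - n + 1) < 1 := by rwa [div_lt_one hpos]
    have h4 : 0 < c * δ₀ := by positivity
    nlinarith only [hD, this, h3, h4]
  linarith only [hD, h2]

end Pool.Agent.H95.GC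

end

section

/-!
# CO: from windows `δ y` to the variance `V(X; X/T)` averaged over `X`
-/

set_option autoImplicit false

namespace Pool.Agent.H14.CO

open Set MeasureTheory Pool.Agent.H95.GC

theorem meas_M2 (f g : ℝ → ℝ) (hf : Measurable f) (hg : Measurable g) :
    Measurable fun x => (M (f x) (g x)) ^ 2 := by
  have h : (fun x => M (f x) (g x)) = Function.uncurry M ∘ fun x : ℝ => (f x, g x) := by
    funext x; rfl
  have h2 : Measurable fun x => M (f x) (g x) := by
    rw [h]
    exact measurable_M.comp (hf.prodMk hg)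
  exact h2.pow_const 2

theorem M2_le (x H : ℝ) (hH : 0 ≤ H) : (M x H) ^ 2 ≤ (H + 1) ^ 2 := by
  have := pow_le_pow_left₀ (abs_nonneg _) (abs_M_le x H hH) 2
  rwa [sq_abs] at this

/-- the function `x ↦ M(x; δx)² / x²` is integrable on compact subintervals of `(0,∞)` -/
theorem int_M2 (δ a b : ℝ) (hδ : 0 ≤ δ) (ha : 0 < a) :
    IntegrableOn (fun x : ℝ => (M x (δ * x)) ^ 2 / x ^ 2) (Icc a b) := by
  refine Measure.integrableOn_of_bounded (M := (δ * b + 1) ^ 2 / a ^ 2) (by simp) ?_ ?_
  · exact ((meas_M2 _ _ measurable_id (measurable_id.const_mul δ)).div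
      (measurable_id.pow_const 2)).aestronglyMeasurable
  · refine (ae_restrict_iff' measurableSet_Icc).2 (Filter.Eventually.of_forall fun x hx => ?_)
    have hx0 : 0 < x := lt_of_lt_of_le ha hx.1
    rw [Real.norm_eq_abs, abs_of_nonneg (by positivity)]
    have h1 := M2_le x (δ * x) (by positivity)
    have h2 : (δ * x + 1) ^ 2 ≤ (δ * b + 1) ^ 2 := by
      apply pow_le_pow_left₀ (by positivity)
      have := mul_le_mul_of_nonneg_left hx.2 hδ
      linarith
    have h3 : a ^ 2 ≤ x ^ 2 := pow_le_pow_left₀ ha.le hx.1 2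
    exact div_le_div₀ (by positivity) (h1.trans h2) (by positivity) h3

/-- exponential substitution -/
theorem exp_sub (δ a b : ℝ) (hab : a ≤ b) :
    ∫ u in a..b, (M (Real.exp u) (δ * Real.exp u)) ^ 2 * Real.exp (-u) =
      ∫ x in Real.exp a..Real.exp b, (M x (δ * x)) ^ 2 / x ^ 2 := by
  rw [intervalIntegral.integral_of_le hab, intervalIntegral.integral_of_le (Real.exp_le_exp.2 hab),
    ← integral_Icc_eq_integral_Ioc, ← integral_Icc_eq_integral_Ioc, ← blocks_image_exp,
    integral_image_eq_integral_abs_deriv_smul measurableSet_Icc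
      (fun x _ => (Real.hasDerivAt_exp x).hasDerivWithinAt) Real.exp_injective.injOn]
  apply integral_congr_ae
  refine Filter.Eventually.of_forall fun u => ?_
  simp only [smul_eq_mul, abs_of_pos (Real.exp_pos u)]
  rw [Real.exp_neg]
  have := (Real.exp_pos u).ne'
  field_simp

/-- one value of the scaling parameter -/
theorem one_scale (T N N' s : ℝ) (hT : 0 < T) (hN : 0 < N) (hNN : 2 * N ≤ N') (hs1 : 1 ≤ s)
    (hs2 : s ≤ 2) :
    ∫ x in (2 * N)..N', (M x (1 / (s * T) * x)) ^ 2 / x ^ 2 ≤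
      ∫ X in N..N', (M (X * s) (X / T)) ^ 2 / X ^ 2 := by
  have hs0 : 0 < s := by linarith only [hs1]
  set g : ℝ → ℝ := fun x => (M x (1 / (s * T) * x)) ^ 2 / x ^ 2 with hg
  have hδ : 0 ≤ 1 / (s * T) := by positivity
  have h1 : ∀ X : ℝ, (M (X * s) (X / T)) ^ 2 / X ^ 2 = s ^ 2 * g (X * s) := by
    intro X
    simp only [hg]
    have e1 : 1 / (s * T) * (X * s) = X / T := by field_simp
    rw [e1, mul_pow]
    rcases eq_or_ne X 0 with rfl | hX
    · simp
    · field_simp
  have h2 : ∫ X in N..N', (M (X * s) (X / T)) ^ 2 / X ^ 2 = s * ∫ x in (N * s)..(N' * s), g x := by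
    simp_rw [h1]
    rw [intervalIntegral.integral_const_mul, intervalIntegral.integral_comp_mul_right g hs0.ne',
      smul_eq_mul]
    field_simp
  have hNs : N * s ≤ 2 * N := by nlinarith only [hN, hs2]
  have hNs' : N' ≤ N' * s := by nlinarith only [hN, hs1, hNN]
  have h3 : ∫ x in (2 * N)..N', g x ≤ ∫ x in (N * s)..(N' * s), g x := by
    rw [intervalIntegral.integral_of_le hNN, intervalIntegral.integral_of_le (by linarith only [hNN, hNs, hNs'])]
    apply setIntegral_mono_set
    · exact (int_M2 _ _ _ hδ (by positivity)).mono_set Ioc_subset_Icc_self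
    · exact Filter.Eventually.of_forall fun x => by simp only [hg]; positivity
    · exact Filter.Eventually.of_forall (Ioc_subset_Ioc hNs hNs')
  have h4 : 0 ≤ ∫ x in (N * s)..(N' * s), g x :=
    intervalIntegral.integral_nonneg (by linarith only [hNN, hNs, hNs']) fun x _ => by simp only [hg]; positivity
  rw [h2]
  refine h3.trans ?_
  nlinarith only [hs1, h4]

theorem var_window (T N N' B : ℝ) (hT : 0 < T) (hN : 0 < N) (hNN : 2 * N ≤ N')
    (h : ∀ δ : ℝ, 1 / (2 * T) ≤ δ → δ ≤ 1 / T →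
      B ≤ ∫ u in (Real.log (2 * N))..(Real.log N'),
        (M (Real.exp u) (δ * Real.exp u)) ^ 2 * Real.exp (-u)) :
    T * B ≤ ∫ X in N..N', V X (X / T) / (X / T) / X := by
  have hN'0 : 0 < N' := by linarith only [hN, hNN]
  have hNN' : N ≤ N' := by linarith only [hN, hNN]
  -- the integrand
  set f : ℝ → ℝ → ℝ := fun X s => (M (X * s) (X / T)) ^ 2 / X ^ 2 with hf
  have hfm : Measurable (Function.uncurry f) := by
    have h1 : Measurable fun p : ℝ × ℝ => ((p.1 * p.2, p.1 / T) : ℝ × ℝ) := by fun_prop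
    have h2 : Measurable fun p : ℝ × ℝ => (M (p.1 * p.2) (p.1 / T)) ^ 2 := by
      have h3 : (fun p : ℝ × ℝ => (M (p.1 * p.2) (p.1 / T))) =
          Function.uncurry M ∘ fun p : ℝ × ℝ => (p.1 * p.2, p.1 / T) := by
        funext p; rfl
      have h4 : Measurable fun p : ℝ × ℝ => (M (p.1 * p.2) (p.1 / T)) := by
        rw [h3]; exact measurable_M.comp h1
      exact h4.pow_const 2
    exact h2.div (measurable_fst.pow_const 2)
  have hV : ∀ X ∈ Ioc N N', V X (X / T) / (X / T) / X = T * ∫ s in Ioc (1 : ℝ) 2, f X s := by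
    intro X hX
    have hX0 : 0 < X := lt_trans hN hX.1
    have h1 : ∫ x in X..2 * X, (M x (X / T)) ^ 2 = X * ∫ s in (1 : ℝ)..2, (M (X * s) (X / T)) ^ 2 := by
      have h2 := intervalIntegral.integral_comp_mul_left (a := 1) (b := 2)
        (fun x => (M x (X / T)) ^ 2) hX0.ne'
      rw [h2, smul_eq_mul, mul_one, mul_comm X 2]
      field_simp
    unfold V
    rw [h1, ← intervalIntegral.integral_of_le (by norm_num : (1 : ℝ) ≤ 2)]
    simp only [hf]
    rw [intervalIntegral.integral_div]
    field_simp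
  have hint : IntegrableOn (Function.uncurry f) (Ioc N N' ×ˢ Ioc (1 : ℝ) 2) := by
    refine Measure.integrableOn_of_bounded (M := (N' / T + 1) ^ 2 / N ^ 2) ?_ ?_ ?_
    · rw [Measure.volume_eq_prod, Measure.prod_prod]
      exact ENNReal.mul_ne_top (by simp) (by simp)
    · exact hfm.aestronglyMeasurable
    · refine (ae_restrict_iff' (measurableSet_Ioc.prod measurableSet_Ioc)).2
        (Filter.Eventually.of_forall fun p hp => ?_)
      obtain ⟨⟨hp1, hp2⟩, -⟩ := hp
      have hp0 : 0 < p.1 := lt_trans hN hp1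
      simp only [Function.uncurry, hf]
      rw [Real.norm_eq_abs, abs_of_nonneg (by positivity)]
      have h1 := M2_le (p.1 * p.2) (p.1 / T) (by positivity)
      have h2 : (p.1 / T + 1) ^ 2 ≤ (N' / T + 1) ^ 2 := by
        apply pow_le_pow_left₀ (by positivity)
        have := div_le_div_of_nonneg_right hp2 hT.le
        linarith only [this]
      exact div_le_div₀ (by positivity) (h1.trans h2) (by positivity)
        (pow_le_pow_left₀ hN.le hp1.le 2)
  have hint' : Integrable (Function.uncurry f)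
      ((volume.restrict (Ioc N N')).prod (volume.restrict (Ioc (1 : ℝ) 2))) := by
    rw [Measure.prod_restrict]; exact hint
  calc T * B ≤ T * ∫ s in Ioc (1 : ℝ) 2, ∫ X in Ioc N N', f X s := by
        apply mul_le_mul_of_nonneg_left _ hT.le
        have h1 : B = ∫ _ in Ioc (1 : ℝ) 2, B := by
          rw [setIntegral_const, Measure.real, Real.volume_Ioc, ENNReal.toReal_ofReal (by norm_num),
            smul_eq_mul]
          ring
        rw [h1]
        apply setIntegral_mono_on (integrableOn_const (by simp)) hint'.integral_prod_right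
          measurableSet_Ioc
        intro s hs
        have hs1 : 1 ≤ s := hs.1.le
        have hs2 : s ≤ 2 := hs.2
        have hs0 : 0 < s := by linarith only [hs1]
        have h2 := h (1 / (s * T))
          (one_div_le_one_div_of_le (by positivity) (mul_le_mul_of_nonneg_right hs2 hT.le))
          (one_div_le_one_div_of_le hT (by nlinarith only [hT, hs1]))
        rw [exp_sub _ _ _ (Real.log_le_log (by positivity) hNN), Real.exp_log (by positivity),
          Real.exp_log hN'0] at h2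
        have h3 := one_scale T N N' s hT hN hNN hs1 hs2
        rw [intervalIntegral.integral_of_le hNN'] at h3
        exact h2.trans h3
    _ = T * ∫ X in Ioc N N', ∫ s in Ioc (1 : ℝ) 2, f X s := by
        rw [integral_integral_swap hint']
    _ = ∫ X in Ioc N N', T * ∫ s in Ioc (1 : ℝ) 2, f X s := by
        rw [integral_const_mul]
    _ = ∫ X in Ioc N N', V X (X / T) / (X / T) / X :=
        (setIntegral_congr_fun measurableSet_Ioc hV).symm
    _ = _ := by rw [intervalIntegral.integral_of_le hNN']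

end Pool.Agent.H14.CO

end

section

set_option autoImplicit false

namespace Pool.Agent.H95.GC

open Set MeasureTheory

private theorem measurable_M_left (H : ℝ) : Measurable fun x => M x H := by
  have h : (fun x => M x H) = Function.uncurry M ∘ fun x : ℝ => (x, H) := by
    funext x; rfl
  rw [h]
  exact measurable_M.comp (by fun_prop)

private theorem intervalIntegrable_M_sq (H : ℝ) (hH : 0 ≤ H) (a b : ℝ) :
    IntervalIntegrable (fun x => (M x H) ^ 2) volume a b := by
  rw [intervalIntegrable_iff]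
  refine Measure.integrableOn_of_bounded (M := (H + 1) ^ 2) ?_
    ((measurable_M_left H).pow_const 2).aestronglyMeasurable ?_
  · rw [uIoc]
    simp
  · refine Filter.Eventually.of_forall fun x => ?_
    rw [Real.norm_eq_abs, abs_pow]
    exact pow_le_pow_left₀ (abs_nonneg _) (abs_M_le x H hH) 2

/-- the pointwise identity away from the end points of the small windows -/
private theorem M_split (x H : ℝ) (m : ℕ) (hm : 1 ≤ m) (hH : 0 < H)
    (hx : ∀ n j : ℕ, x ≠ (n : ℝ) - ((j : ℝ) - m / 2) * (H / m)) :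
    M x H = ∑ i ∈ Finset.range m, M (x + ((i : ℝ) - ((m : ℝ) - 1) / 2) * (H / m)) (H / m) := by
  have hm0 : (0 : ℝ) < m := by exact_mod_cast hm
  set h := H / m with hh
  have hh0 : 0 < h := by positivity
  have hHh : H = m * h := by rw [hh]; field_simp
  obtain ⟨L, hL⟩ := exists_nat_ge (x + 2 * H)
  rw [M_eq_sum x H L (by linarith only [hH, hL])]
  have hi : ∀ i ∈ Finset.range m, M (x + ((i : ℝ) - ((m : ℝ) - 1) / 2) * h) h
      = ∑ n ∈ Finset.range L, (if |(n : ℝ) - (x + ((i : ℝ) - ((m : ℝ) - 1) / 2) * h)| < h / 2 then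
          ((ArithmeticFunction.moebius n : ℤ) : ℝ) else 0) := by
    intro i hi
    apply M_eq_sum
    refine le_trans ?_ hL
    have him : (i : ℝ) + 1 ≤ m := by
      have := Finset.mem_range.1 hi
      exact_mod_cast this
    have : ((i : ℝ) - ((m : ℝ) - 1) / 2) * h + h / 2 ≤ 2 * (m * h) := by
      have : ((i : ℝ) - ((m : ℝ) - 1) / 2) + 1 / 2 ≤ 2 * m := by linarith only [hm0, him]
      calc ((i : ℝ) - ((m : ℝ) - 1) / 2) * h + h / 2 = (((i : ℝ) - ((m : ℝ) - 1) / 2) + 1 / 2) * h := by ring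
        _ ≤ 2 * m * h := mul_le_mul_of_nonneg_right this hh0.le
        _ = 2 * (m * h) := by ring
    rw [hHh]
    linarith only [this]
  rw [Finset.sum_congr rfl hi, Finset.sum_comm]
  refine Finset.sum_congr rfl fun n _ => ?_
  -- for each `n`, exactly one window contains it, or none
  by_cases hn : |(n : ℝ) - x| < H / 2
  · rw [if_pos hn]
    have h1 := abs_lt.1 hn
    -- the index
    set y : ℝ := ((n : ℝ) - x) / h + m / 2 with hy
    have hy0 : 0 < y := by
      rw [hy]
      have : -(m / 2 : ℝ) < ((n : ℝ) - x) / h := by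
        rw [lt_div_iff₀ hh0]
        rw [hHh] at h1
        linarith only [h1, h1.1]
      linarith only [this]
    have hym : y < m := by
      rw [hy]
      have : ((n : ℝ) - x) / h < (m / 2 : ℝ) := by
        rw [div_lt_iff₀ hh0]
        rw [hHh] at h1
        linarith only [h1, h1.2]
      linarith only [this]
    set i := ⌊y⌋₊ with hi'
    have hi1 : (i : ℝ) ≤ y := Nat.floor_le hy0.le
    have hi2 : y < (i : ℝ) + 1 := Nat.lt_floor_add_one y
    have hi3 : (i : ℝ) ≠ y := by
      intro heq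
      apply hx n i
      rw [heq, hy]
      field_simp
      ring
    have hi4 : (i : ℝ) < y := lt_of_le_of_ne hi1 hi3
    have him : i ∈ Finset.range m := by
      rw [Finset.mem_range]
      have : (i : ℝ) < m := by linarith only [hym, hi1]
      exact_mod_cast this
    have hnx : (n : ℝ) - x = (y - m / 2) * h := by
      rw [hy]; field_simp; ring
    rw [Finset.sum_eq_single_of_mem i him]
    · rw [if_pos]
      have e : (n : ℝ) - (x + ((i : ℝ) - ((m : ℝ) - 1) / 2) * h) = (y - i - 1 / 2) * h := by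
        have : (n : ℝ) = x + (y - m / 2) * h := by linarith only [hnx]
        rw [this]; ring
      rw [e, abs_lt]
      constructor
      · have h2 : 0 < (y - i) * h := mul_pos (by linarith only [hi4]) hh0
        rw [show (y - i - 1 / 2) * h = (y - i) * h - h / 2 by ring]
        linarith only [h2]
      · have h2 : 0 < ((i : ℝ) + 1 - y) * h := mul_pos (by linarith only [hi2]) hh0
        rw [show (y - i - 1 / 2) * h = h / 2 - ((i : ℝ) + 1 - y) * h by ring]
        linarith only [h2]
    · intro j _ hj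
      rw [if_neg]
      intro hlt
      have e : (n : ℝ) - (x + ((j : ℝ) - ((m : ℝ) - 1) / 2) * h) = (y - j - 1 / 2) * h := by
        have : (n : ℝ) = x + (y - m / 2) * h := by linarith only [hnx]
        rw [this]; ring
      rw [e, abs_lt] at hlt
      have h3 : (j : ℝ) < y := by
        by_contra hcon
        push Not at hcon
        have h5 := hlt.1
        have h6 : 0 ≤ ((j : ℝ) - y) * h := mul_nonneg (sub_nonneg.2 hcon) hh0.le
        rw [show (y - j - 1 / 2) * h = -(((j : ℝ) - y) * h) - h / 2 by ring] at h5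
        linarith only [h5, h6]
      have h4 : y < (j : ℝ) + 1 := by
        by_contra hcon
        push Not at hcon
        have h5 := hlt.2
        have h6 : 0 ≤ (y - ((j : ℝ) + 1)) * h := mul_nonneg (sub_nonneg.2 hcon) hh0.le
        rw [show (y - j - 1 / 2) * h = (y - ((j : ℝ) + 1)) * h + h / 2 by ring] at h5
        linarith only [h5, h6]
      apply hj
      rw [hi']
      symm
      rw [Nat.floor_eq_iff hy0.le]
      exact ⟨h3.le, h4⟩
  · rw [if_neg hn]
    symm
    apply Finset.sum_eq_zero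
    intro i hi
    rw [if_neg]
    intro hlt
    apply hn
    have him : (i : ℝ) + 1 ≤ m := by
      have := Finset.mem_range.1 hi
      exact_mod_cast this
    have hi0 : (0 : ℝ) ≤ i := Nat.cast_nonneg i
    rw [abs_lt] at hlt ⊢
    rw [hHh]
    constructor
    · have : -(m * h / 2) ≤ ((i : ℝ) - ((m : ℝ) - 1) / 2) * h - h / 2 := by
        have h2 : 0 ≤ (i : ℝ) * h := mul_nonneg hi0 hh0.le
        rw [show ((i : ℝ) - ((m : ℝ) - 1) / 2) * h - h / 2 = (i : ℝ) * h - m * h / 2 by ring]
        linarith only [h2]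
      linarith only [hlt, this, hlt.1]
    · have : ((i : ℝ) - ((m : ℝ) - 1) / 2) * h + h / 2 ≤ m * h / 2 := by
        have h2 : 0 ≤ ((m : ℝ) - (i + 1)) * h := mul_nonneg (sub_nonneg.2 him) hh0.le
        rw [show ((i : ℝ) - ((m : ℝ) - 1) / 2) * h + h / 2 = m * h / 2 - ((m : ℝ) - (i + 1)) * h by ring]
        linarith only [h2]
      linarith only [hlt, this, hlt.2]

/-- Splitting a window into `m` equal windows. -/
theorem subdiv (Y H : ℝ) (m : ℕ) (hm : 1 ≤ m) (hH : 0 < H) (hY : 5 * H ≤ 2 * Y) :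
    ∫ x in Y..(7 / 5 * Y), (M x H) ^ 2
      ≤ (m : ℝ) ^ 2 * ∫ x in (4 / 5 * Y)..(2 * (4 / 5 * Y)), (M x (H / m)) ^ 2 := by
  have hm0 : (0 : ℝ) < m := by exact_mod_cast hm
  have hY0 : 0 < Y := by linarith only [hH, hY]
  set h := H / m with hh
  have hh0 : 0 < h := by positivity
  have hHh : H = m * h := by rw [hh]; field_simp
  set s : ℕ → ℝ := fun i => ((i : ℝ) - ((m : ℝ) - 1) / 2) * h with hs
  have hs1 : ∀ i ∈ Finset.range m, |s i| ≤ H / 2 := by
    intro i hi
    have him : (i : ℝ) + 1 ≤ m := by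
      have := Finset.mem_range.1 hi
      exact_mod_cast this
    have hi0 : (0 : ℝ) ≤ i := Nat.cast_nonneg i
    rw [hs, abs_le]
    simp only
    rw [hHh]
    constructor <;> nlinarith only [hh0, hH, hHh, him]
  -- exceptional set
  have hae : ∀ᵐ x ∂(volume : Measure ℝ),
      ∀ n j : ℕ, x ≠ (n : ℝ) - ((j : ℝ) - m / 2) * (H / m) := by
    rw [ae_all_iff]
    intro n
    rw [ae_all_iff]
    intro j
    exact (measure_eq_zero_iff_ae_notMem.1 (measure_singleton _)).mono fun x hx => by simpa using hx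
  have hle : Y ≤ 7 / 5 * Y := by linarith only [hH, hY]
  have step1 : ∫ x in Y..(7 / 5 * Y), (M x H) ^ 2
      ≤ ∫ x in Y..(7 / 5 * Y), (m : ℝ) * ∑ i ∈ Finset.range m, (M (x + s i) h) ^ 2 := by
    apply intervalIntegral.integral_mono_ae hle (intervalIntegrable_M_sq H hH.le _ _)
    · apply IntervalIntegrable.const_mul
      have e : (fun x => ∑ i ∈ Finset.range m, M (x + s i) h ^ 2)
          = ∑ i ∈ Finset.range m, fun x => M (x + s i) h ^ 2 := by
        funext x
        rw [Finset.sum_apply]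
      rw [e]
      apply IntervalIntegrable.sum
      intro i _
      have := (intervalIntegrable_M_sq h hh0.le (Y + s i) (7 / 5 * Y + s i)).comp_add_right (s i)
      simpa using this
    · filter_upwards [hae] with x hx
      rw [M_split x H m hm hH hx]
      have := sq_sum_le_card_mul_sum_sq (s := Finset.range m)
        (f := fun i : ℕ => M (x + ((i : ℝ) - ((m : ℝ) - 1) / 2) * (H / m)) (H / m))
      rw [Finset.card_range] at this
      exact this
  refine step1.trans ?_
  rw [intervalIntegral.integral_const_mul, intervalIntegral.integral_finsetSum]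
  · have step2 : ∀ i ∈ Finset.range m, ∫ x in Y..(7 / 5 * Y), (M (x + s i) h) ^ 2
        ≤ ∫ x in (4 / 5 * Y)..(2 * (4 / 5 * Y)), (M x h) ^ 2 := by
      intro i hi
      have h1 := abs_le.1 (hs1 i hi)
      rw [intervalIntegral.integral_comp_add_right (fun x => (M x h) ^ 2)]
      apply intervalIntegral.integral_mono_interval
      · linarith only [hY, h1]
      · linarith only [hH, hY]
      · linarith only [hY, h1]
      · exact Filter.Eventually.of_forall fun x => sq_nonneg _
      · exact intervalIntegrable_M_sq h hh0.le _ _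
    have step3 := Finset.sum_le_sum step2
    rw [Finset.sum_const, Finset.card_range, nsmul_eq_mul] at step3
    calc (m : ℝ) * ∑ i ∈ Finset.range m, ∫ x in Y..(7 / 5 * Y), (M (x + s i) h) ^ 2
        ≤ (m : ℝ) * ((m : ℝ) * ∫ x in (4 / 5 * Y)..(2 * (4 / 5 * Y)), (M x h) ^ 2) :=
          mul_le_mul_of_nonneg_left step3 hm0.le
      _ = _ := by ring
  · intro i _
    have := (intervalIntegrable_M_sq h hh0.le (Y + s i) (7 / 5 * Y + s i)).comp_add_right (s i)
    simpa using this

end Pool.Agent.H95.GC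

end

section

/-!
# CO: the two conclusions from the core inequality
-/

set_option autoImplicit false

namespace Pool.Agent.H14.CO

open Set MeasureTheory Pool.Agent.H95.GC

/-- the conclusion of `core2` -/
def CoreHyp (κ c₀ : ℝ) : Prop := ∀ A : ℝ, 0 < A →
    ∃ T₀ : ℝ, 1 ≤ T₀ ∧ ∀ T : ℝ, T₀ ≤ T →
    ∀ n : ℝ, 0 ≤ n → n ≤ A * Real.log T → ∀ δ : ℝ, 1 / (40 * T) ≤ δ → δ ≤ 1 / (20 * T) →
    c₀ * Real.log T / T ≤ ∫ u in n..(n + (1 + κ) * Real.log T),
      (M (Real.exp u) (δ * Real.exp u)) ^ 2 * Real.exp (-u)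

theorem int_u (δ a b : ℝ) (hδ : 0 ≤ δ) : IntegrableOn
    (fun u : ℝ => (M (Real.exp u) (δ * Real.exp u)) ^ 2 * Real.exp (-u)) (Icc a b) := by
  refine Measure.integrableOn_of_bounded (M := (δ * Real.exp b + 1) ^ 2 * Real.exp (-a))
    (by simp) ?_ ?_
  · exact ((meas_M2 _ _ Real.measurable_exp (Real.measurable_exp.const_mul δ)).mul
      (Real.measurable_exp.comp measurable_neg)).aestronglyMeasurable
  · refine (ae_restrict_iff' measurableSet_Icc).2 (Filter.Eventually.of_forall fun u hu => ?_)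
    rw [Real.norm_eq_abs, abs_of_nonneg (by positivity)]
    have h1 := M2_le (Real.exp u) (δ * Real.exp u) (by positivity)
    have h2 : (δ * Real.exp u + 1) ^ 2 ≤ (δ * Real.exp b + 1) ^ 2 := by
      apply pow_le_pow_left₀ (by positivity)
      have := mul_le_mul_of_nonneg_left (Real.exp_le_exp.2 hu.2) hδ
      linarith only [this]
    exact mul_le_mul (h1.trans h2) (Real.exp_le_exp.2 (by linarith only [hu, hu.1])) (Real.exp_pos _).le
      (by positivity)

theorem ext_u (δ n n₁ n₂ : ℝ) (hδ : 0 ≤ δ) (h1 : n ≤ n₁) (h2 : n₁ ≤ n₂) :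
    ∫ u in n..n₁, (M (Real.exp u) (δ * Real.exp u)) ^ 2 * Real.exp (-u) ≤
      ∫ u in n..n₂, (M (Real.exp u) (δ * Real.exp u)) ^ 2 * Real.exp (-u) := by
  rw [intervalIntegral.integral_of_le h1, intervalIntegral.integral_of_le (h1.trans h2)]
  apply setIntegral_mono_set
  · exact (int_u _ _ _ hδ).mono_set Ioc_subset_Icc_self
  · exact Filter.Eventually.of_forall fun x => by positivity
  · exact Filter.Eventually.of_forall (Ioc_subset_Ioc le_rfl h2)

theorem final_i (κ κ' c₀ : ℝ) (hκ' : 0 < κ') (hκκ : κ' ≤ κ) (hc₀ : 0 < c₀)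
    (hcore : CoreHyp κ' c₀) : ∀ A : ℝ, 0 < A →
    ∃ T₀ : ℝ, 1 ≤ T₀ ∧ ∀ T : ℝ, T₀ ≤ T → ∀ N : ℝ, 1 ≤ N → N ≤ T ^ A →
      10 * c₀ * Real.log T ≤ ∫ X in N..(N * T ^ (1 + κ)), V X (X / T) / (X / T) / X := by
  intro A hA
  obtain ⟨T₁, hT₁1, hcore⟩ := hcore (2 * A + 1) (by positivity)
  refine ⟨max (20 * T₁) 6400, le_max_of_le_right (by norm_num), ?_⟩
  intro T hT N hN1 hNA
  have hTa : 20 * T₁ ≤ T := (le_max_left _ _).trans hT
  have he2 : 6400 ≤ T := (le_max_right _ _).trans hT
  have hT0 : 0 < T := by linarith only [he2]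
  set T' : ℝ := T / 20 with hT'
  have hT'0 : 0 < T' := by positivity
  have hT'2 : T₁ ≤ T' := by rw [hT']; linarith only [hTa]
  have hN0 : 0 < N := by linarith only [hN1]
  have hlogT' : Real.log T ≤ 2 * Real.log T' := by
    have h1 : T ≤ T' ^ 2 := by
      have h9 : 6400 * T ≤ T * T := mul_le_mul_of_nonneg_right he2 hT0.le
      rw [hT', div_pow, pow_two, le_div_iff₀ (by norm_num)]
      linarith only [h9, hT0]
    calc Real.log T ≤ Real.log (T' ^ 2) := Real.log_le_log hT0 h1
      _ = 2 * Real.log T' := by rw [Real.log_pow]; norm_num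
  have hlogs : Real.log T = Real.log T' + Real.log 20 := by
    rw [← Real.log_mul hT'0.ne' (by norm_num)]; congr 1; rw [hT']; ring
  have hlog1 : 1 ≤ Real.log T' := by
    rw [Real.le_log_iff_exp_le hT'0]
    have := Real.exp_one_lt_d9
    rw [hT']; linarith only [he2, this]
  have hlog2 : Real.log 2 ≤ 1 := by
    have := Real.log_two_lt_d9; linarith only [this]
  have hlog220 : Real.log 2 ≤ Real.log 20 := Real.log_le_log (by norm_num) (by norm_num)
  have hlog20 : 0 ≤ Real.log 20 := Real.log_nonneg (by norm_num)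
  set n : ℝ := Real.log (2 * N) with hn
  have hn0 : 0 ≤ n := Real.log_nonneg (by linarith only [hN1])
  have hn1 : n = Real.log 2 + Real.log N := Real.log_mul (by norm_num) hN0.ne'
  have hnA : n ≤ (2 * A + 1) * Real.log T' := by
    have h3 : Real.log N ≤ A * Real.log T := by
      calc Real.log N ≤ Real.log (T ^ A) := Real.log_le_log hN0 hNA
        _ = A * Real.log T := Real.log_rpow hT0 A
    have h4 : A * Real.log T ≤ A * (2 * Real.log T') := mul_le_mul_of_nonneg_left hlogT' hA.le
    rw [hn1, show (2 * A + 1) * Real.log T' = A * (2 * Real.log T') + Real.log T' by ring]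
    linarith only [h3, h4, hlog1, hlog2]
  set N' := N * T ^ (1 + κ) with hN'
  have hTκ : 0 < T ^ (1 + κ) := Real.rpow_pos_of_pos hT0 _
  have hTκ2 : 2 ≤ T ^ (1 + κ) := by
    calc (2 : ℝ) ≤ T ^ (1 : ℝ) := by rw [Real.rpow_one]; linarith only [he2]
      _ ≤ T ^ (1 + κ) := Real.rpow_le_rpow_of_exponent_le (by linarith only [he2]) (by linarith only [hκ', hκκ])
  have hNN : 2 * N ≤ N' := by
    rw [hN', mul_comm 2 N]; exact mul_le_mul_of_nonneg_left hTκ2 hN0.le
  have hlogN' : Real.log N' = Real.log N + (1 + κ) * Real.log T := by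
    rw [hN', Real.log_mul hN0.ne' hTκ.ne', Real.log_rpow hT0]
  have hupper : n + (1 + κ') * Real.log T' ≤ Real.log N' := by
    rw [hlogN', hn1]
    have h1 : κ' * Real.log T' ≤ κ * Real.log T' := mul_le_mul_of_nonneg_right hκκ (by linarith only [hlog1])
    have h2 : 0 ≤ κ * Real.log 20 := mul_nonneg (by linarith only [hκ', hκκ]) hlog20
    rw [hlogs, show Real.log N + (1 + κ) * (Real.log T' + Real.log 20) = Real.log N + Real.log T' + κ * Real.log T' + Real.log 20 + κ * Real.log 20 by ring,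
      show Real.log 2 + Real.log N + (1 + κ') * Real.log T' = Real.log 2 + Real.log N + Real.log T' + κ' * Real.log T' by ring]
    linarith only [h1, h2, hlog220]
  have hδT : 1 / (40 * T') = 1 / (2 * T) := by rw [hT']; field_simp; norm_num
  have hδT2 : 1 / (20 * T') = 1 / T := by rw [hT']; field_simp
  have key := var_window T N N' (c₀ * Real.log T' / T') hT0 hN0 hNN (by
    intro δ hδ1 hδ2
    have hδ0 : 0 ≤ δ := le_trans (by positivity) hδ1
    refine (hcore T' hT'2 n hn0 hnA δ (by rw [hδT]; exact hδ1) (by rw [hδT2]; exact hδ2)).trans ?_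
    exact ext_u δ _ _ _ hδ0 (le_add_of_nonneg_right (mul_nonneg (by linarith only [hκ']) (by linarith only [hlog1]))) hupper)
  refine le_trans ?_ key
  have e1 : T * (c₀ * Real.log T' / T') = 20 * c₀ * Real.log T' := by
    rw [hT']; field_simp
  rw [e1]
  have h1 : c₀ * Real.log T ≤ c₀ * (2 * Real.log T') := mul_le_mul_of_nonneg_left hlogT' hc₀.le
  linarith only [h1]

theorem num_ii (c₀ T T' X Y H W : ℝ) (hc₀ : 0 < c₀) (hT0 : 0 < T) (hT' : T' = T / 40)
    (hX : X = 4 / 5 * Y) (hY0 : 0 < Y) (hW0 : 0 ≤ W) (hH2 : H ≤ 14 / 5 * (Y / T))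
    (h5 : c₀ * Y ^ 2 ≤ 18 * (X * W) * T') : c₀ / 2 * H ≤ W := by
  have h7 : c₀ * Y ^ 2 ≤ (9 / 25 * (W * T)) * Y := by
    calc c₀ * Y ^ 2 ≤ 18 * (X * W) * T' := h5
      _ = _ := by rw [hX, hT']; ring
  have h8 : c₀ * Y ≤ 9 / 25 * (W * T) := by
    have h9 : (c₀ * Y) * Y ≤ (9 / 25 * (W * T)) * Y := by
      calc (c₀ * Y) * Y = c₀ * Y ^ 2 := by ring
        _ ≤ _ := h7
    exact le_of_mul_le_mul_right h9 hY0
  have hHY : T * H ≤ 14 / 5 * Y := by
    calc T * H ≤ T * (14 / 5 * (Y / T)) := mul_le_mul_of_nonneg_left hH2 hT0.le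
      _ = 14 / 5 * Y := by field_simp
  have h10 : c₀ / 2 * H * T ≤ W * T := by
    have h11 : c₀ * (T * H) ≤ c₀ * (14 / 5 * Y) := mul_le_mul_of_nonneg_left hHY hc₀.le
    have h12 : 0 ≤ W * T := by positivity
    rw [show c₀ / 2 * H * T = c₀ * (T * H) / 2 by ring]
    rw [show c₀ * (14 / 5 * Y) = 14 / 5 * (c₀ * Y) by ring] at h11
    linarith only [h8, h11, h12]
  exact le_of_mul_le_mul_right h10 hT0

theorem final_ii (κ κ' c₀ : ℝ) (hκ' : 0 < κ') (hκκ : κ' ≤ κ) (hκ1 : κ' ≤ 1) (hc₀ : 0 < c₀)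
    (hcore : CoreHyp κ' c₀) : ∀ A : ℝ, 0 < A →
    ∃ T₀ : ℝ, 1 ≤ T₀ ∧ ∀ T : ℝ, T₀ ≤ T → ∀ N : ℝ, 1 ≤ N → N ≤ T ^ A →
      ∃ X H : ℝ, N ≤ X ∧ X ≤ N * T ^ (1 + κ) ∧ X / T ≤ H ∧ H ≤ 4 * (X / T) ∧
        ∀ m : ℕ, 1 ≤ m → c₀ / 2 * H / (m : ℝ) ^ 2 ≤ V X (H / m) := by
  intro A hA
  obtain ⟨T₁, hT₁1, hcore⟩ := hcore (2 * A + 1) (by positivity)
  refine ⟨max (40 * T₁) 6400, le_max_of_le_right (by norm_num), ?_⟩
  intro T hT N hN1 hNA
  have hTa : 40 * T₁ ≤ T := (le_max_left _ _).trans hT
  have he2 : 6400 ≤ T := (le_max_right _ _).trans hT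
  have hT0 : 0 < T := by linarith only [he2]
  have hT1 : 1 ≤ T := by linarith only [he2]
  set T' : ℝ := T / 40 with hT'
  have hT'0 : 0 < T' := by positivity
  have hT'1 : 1 ≤ T' := by rw [hT']; linarith only [he2]
  have hT'2 : T₁ ≤ T' := by rw [hT']; linarith only [hTa]
  have hN0 : 0 < N := by linarith only [hN1]
  have hlogT' : Real.log T ≤ 2 * Real.log T' := by
    have h1 : T ≤ T' ^ 2 := by
      have h9 : 6400 * T ≤ T * T := mul_le_mul_of_nonneg_right he2 hT0.le
      rw [hT', div_pow, pow_two, le_div_iff₀ (by norm_num)]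
      linarith only [h9, hT0]
    calc Real.log T ≤ Real.log (T' ^ 2) := Real.log_le_log hT0 h1
      _ = 2 * Real.log T' := by rw [Real.log_pow]; norm_num
  have hlog1 : 1 ≤ Real.log T' := by
    rw [Real.le_log_iff_exp_le hT'0]
    have := Real.exp_one_lt_d9
    rw [hT']; linarith only [he2, this]
  set n : ℝ := Real.log (5 / 4 * N) with hn
  have hn0 : 0 ≤ n := Real.log_nonneg (by linarith only [hN1])
  have hexpn : Real.exp n = 5 / 4 * N := Real.exp_log (by linarith only [hN1])
  have hnA : n ≤ (2 * A + 1) * Real.log T' := by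
    have h1 : n = Real.log (5 / 4) + Real.log N := Real.log_mul (by norm_num) hN0.ne'
    have h2 : Real.log (5 / 4) ≤ 1 := by
      have := Real.log_le_sub_one_of_pos (show (0 : ℝ) < 5 / 4 by norm_num)
      linarith only [this]
    have h3 : Real.log N ≤ A * Real.log T := by
      calc Real.log N ≤ Real.log (T ^ A) := Real.log_le_log hN0 hNA
        _ = A * Real.log T := Real.log_rpow hT0 A
    have h4 : A * Real.log T ≤ A * (2 * Real.log T') := mul_le_mul_of_nonneg_left hlogT' hA.le
    rw [h1, show (2 * A + 1) * Real.log T' = A * (2 * Real.log T') + Real.log T' by ring]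
    linarith only [h2, h3, h4, hlog1]
  set n' : ℝ := n + (1 + κ') * Real.log T' with hn'
  have hnn' : n ≤ n' := by
    rw [hn']
    have : 0 ≤ (1 + κ') * Real.log T' := by positivity
    linarith only [this]
  have hδT : 1 / (40 * T') = 1 / T := by rw [hT']; field_simp
  have hδT2 : 1 / (20 * T') = 2 * (1 / T) := by rw [hT']; field_simp; norm_num
  obtain ⟨Y, H, hY1, hY2, hH1, hH2, hineq⟩ := blocks (fun x H => M x H ^ 2)
    (by
      have h : Function.uncurry (fun x H => M x H ^ 2) = fun p => (Function.uncurry M p) ^ 2 := by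
        funext p; rfl
      rw [h]
      exact measurable_M.pow_const 2)
    (fun x H => sq_nonneg _)
    (fun x H hH => M2_le x H hH)
    (1 / T) n n' (c₀ * Real.log T' / T') (by positivity) hnn' (by positivity)
    (by
      intro δ hδ
      exact hcore T' hT'2 n hn0 hnA δ (by rw [hδT]; exact hδ.1) (by rw [hδT2]; exact hδ.2))
  rw [hexpn] at hY1
  have hY0 : 0 < Y := by linarith only [hN1, hY1]
  have hH0 : 0 < H := lt_of_lt_of_le (by positivity) hH1
  have h1T : (1 / T) * Y = Y / T := by ring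
  rw [h1T] at hH1 hH2
  refine ⟨4 / 5 * Y, H, by linarith only [hY1], ?_, ?_, ?_, ?_⟩
  · -- X ≤ N T^(1+κ)
    have h1 : Y ≤ 5 / 4 * N * T ^ (1 + κ) := by
      refine hY2.trans ?_
      rw [hn', Real.exp_add, hexpn]
      apply mul_le_mul_of_nonneg_left _ (by linarith only [hN1])
      calc Real.exp ((1 + κ') * Real.log T') = T' ^ (1 + κ') := by
            rw [Real.rpow_def_of_pos hT'0]; congr 1; ring
        _ ≤ T ^ (1 + κ') := Real.rpow_le_rpow hT'0.le (by rw [hT']; linarith only [he2]) (by linarith only [hκ'])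
        _ ≤ T ^ (1 + κ) := Real.rpow_le_rpow_of_exponent_le hT1 (by linarith only [hκκ])
    calc 4 / 5 * Y ≤ 4 / 5 * (5 / 4 * N * T ^ (1 + κ)) := by linarith only [h1]
      _ = N * T ^ (1 + κ) := by ring
  · calc 4 / 5 * Y / T ≤ Y / T := by
          apply div_le_div_of_nonneg_right _ hT0.le
          linarith only [hN1, hY1]
      _ ≤ H := hH1
  · calc H ≤ 14 / 5 * (Y / T) := hH2
      _ ≤ 4 * (4 / 5 * Y / T) := by
          have : 0 < Y / T := by positivity
          have h2 : 4 / 5 * Y / T = 4 / 5 * (Y / T) := by ring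
          rw [h2]; linarith only [this]
  · intro m hm
    have hm0 : (0 : ℝ) < m := by exact_mod_cast hm
    have hsub := subdiv Y H m hm hH0 (by
      have h1 : Y / T ≤ Y / 7 := by
        apply div_le_div_of_nonneg_left hY0.le (by norm_num) (by linarith only [he2])
      linarith only [hH2, h1])
    set X : ℝ := 4 / 5 * Y with hX
    have hX0 : 0 < X := by rw [hX]; positivity
    have hV : ∫ x in X..(2 * X), M x (H / m) ^ 2 = X * V X (H / m) := by
      unfold V
      field_simp
    rw [hV] at hsub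
    have hV0 : 0 ≤ V X (H / m) := by
      unfold V
      apply mul_nonneg (by positivity)
      apply intervalIntegral.integral_nonneg (by linarith only [hN1, hY1, hX])
      intro x _
      positivity
    set l := Real.log T' with hl
    set W := (m : ℝ) ^ 2 * V X (H / m) with hW
    have hW0 : 0 ≤ W := by positivity
    have hLpos : 0 ≤ 6 * (n' - n + 1) := by linarith only [hnn']
    have h1 : c₀ * l / T' * Y ^ 2 ≤ 6 * (n' - n + 1) * (X * W) := by
      refine hineq.trans ?_
      have h2 := mul_le_mul_of_nonneg_left hsub hLpos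
      calc _ ≤ _ := h2
        _ = _ := by rw [hW]; ring
    have hL : n' - n + 1 ≤ 3 * l := by
      rw [hn']
      have : κ' * l ≤ 1 * l := mul_le_mul_of_nonneg_right hκ1 (by linarith only [hlog1])
      rw [show n + (1 + κ') * l - n + 1 = l + κ' * l + 1 by ring]
      linarith only [this, hlog1]
    have h4 : c₀ * l / T' * Y ^ 2 ≤ 18 * l * (X * W) := by
      calc c₀ * l / T' * Y ^ 2 ≤ 6 * (n' - n + 1) * (X * W) := h1
        _ ≤ 6 * (3 * l) * (X * W) := by
            apply mul_le_mul_of_nonneg_right _ (by positivity)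
            linarith only [hL]
        _ = _ := by ring
    have hl0 : 0 < l := by linarith only [hlog1]
    have h5 : c₀ * Y ^ 2 ≤ 18 * (X * W) * T' := by
      have h6 : c₀ * l / T' * Y ^ 2 = c₀ * Y ^ 2 / T' * l := by ring
      have h7 : 18 * l * (X * W) = 18 * (X * W) * l := by ring
      rw [h6, h7] at h4
      have h8 := le_of_mul_le_mul_right h4 hl0
      rwa [div_le_iff₀ hT'0] at h8
    have h13 : c₀ / 2 * H ≤ W := num_ii c₀ T T' X Y H W hc₀ hT0 hT' hX hY0 hW0 hH2 h5
    rw [div_le_iff₀ (by positivity)]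
    calc c₀ / 2 * H ≤ W := h13
      _ = _ := by rw [hW]; ring

end Pool.Agent.H14.CO

end
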