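import Pool.Agent.H15.TB1.M11

/-! The parts of this file: H36.IS.A1Limit, H36.IS.A2Types, H36.IS.A3Select, H36.IS.Defs, H36.IS.A5Block, H36.IS.A7Meas, H36.IS.A4Ext, H36.IS.A6Stage, H36.IS.ALim, H36.IS.Gam, H36.IS.Tval, H36.IS.MD, H36.IS.BlkA, H36.IS.BlkIn, H36.IS.BlkMain, H36.IS.ToStep. -/

section

open MeasureTheory Filter Topology
open scoped ENNReal

namespace Pool.Agent.H36.IS

/-- the Cantor space of adjacency types -/
abbrev Cant : Type := ℕ → Bool

/-- `f` depends only on the coordinates in `F` -/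
def DepOn {α : Type*} (F : Finset ℕ) (f : Cant → α) : Prop :=
  ∀ x y : Cant, (∀ n ∈ F, x n = y n) → f x = f y

theorem isClopen_of_dep {F : Finset ℕ} {E : Set Cant}
    (h : ∀ x y : Cant, (∀ n ∈ F, x n = y n) → (x ∈ E ↔ y ∈ E)) : IsClopen E := by
  classical
  let r : Cant → (F → Bool) := fun x n => x n
  have hr : Continuous r := by fun_prop
  have hE : E = r ⁻¹' (r '' E) := by
    ext x
    constructor
    · intro hx
      exact ⟨x, hx, rfl⟩
    · rintro ⟨y, hy, hxy⟩
      refine (h y x ?_).1 hy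
      intro n hn
      exact congrFun hxy ⟨n, hn⟩
  rw [hE]
  exact (isClopen_discrete _).preimage hr

/-- a sequence of probability measures on the Cantor space has a limit measure, along an
ultrafilter finer than `atTop`, for which the masses of clopen sets converge -/
theorem exists_limit (m : ℕ → ProbabilityMeasure Cant) :
    ∃ μ : ProbabilityMeasure Cant, ∀ (E : Set Cant), IsClopen E →
      ∀ a : ℝ≥0∞, (∃ N, ∀ j, N ≤ j → a ≤ (m j : Measure Cant) E) → a ≤ (μ : Measure Cant) E := by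
  classical
  let U : Ultrafilter ℕ := Ultrafilter.of atTop
  have hU : (U : Filter ℕ) ≤ atTop := Ultrafilter.of_le _
  obtain ⟨μ, -, hμ⟩ := isCompact_univ.ultrafilter_le_nhds (U.map m) (by simp)
  have hlim : Tendsto m (U : Filter ℕ) (𝓝 μ) := hμ
  refine ⟨μ, ?_⟩
  intro E hE a ⟨N, hN⟩
  letI : MetricSpace Cant := TopologicalSpace.metrizableSpaceMetric Cant
  have h1 := ProbabilityMeasure.tendsto_measure_of_isClopen_of_tendsto hlim hE
  have h2 : Tendsto (fun i => ((m i : Measure Cant) E)) (U : Filter ℕ)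
      (𝓝 ((μ : Measure Cant) E)) := by
    have h3 := (ENNReal.tendsto_coe (f := (U : Filter ℕ))).2 h1
    simpa using h3
  refine ge_of_tendsto h2 ?_
  exact hU (eventually_atTop.2 ⟨N, hN⟩)

end Pool.Agent.H36.IS

end

section

open MeasureTheory Filter Topology
open scoped ENNReal

namespace Pool.Agent.H36.IS

/-- Borel-Cantelli/reverse Fatou: infinitely many events of probability at least `a` occur with
probability at least `a` -/
theorem le_measure_frequently {Ω : Type*} [MeasurableSpace Ω] (μ : Measure Ω)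
    [IsProbabilityMeasure μ] (S : ℕ → Set Ω) (hS : ∀ i, MeasurableSet (S i)) (a : ℝ≥0∞)
    (ha : ∀ i, a ≤ μ (S i)) : a ≤ μ {x | ∀ N, ∃ i, N ≤ i ∧ x ∈ S i} := by
  let A : ℕ → Set Ω := fun N => ⋃ i, ⋃ (_ : N ≤ i), S i
  have hA : ∀ N, MeasurableSet (A N) := fun N =>
    MeasurableSet.iUnion fun i => MeasurableSet.iUnion fun _ => hS i
  have hanti : Antitone A := by
    intro M N hMN x hx
    simp only [A, Set.mem_iUnion] at hx ⊢
    obtain ⟨i, hi, hx⟩ := hx
    exact ⟨i, hMN.trans hi, hx⟩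
  have hlim := tendsto_measure_iInter_atTop (μ := μ) (s := A)
    (fun i => (hA i).nullMeasurableSet) hanti ⟨0, measure_ne_top _ _⟩
  have hEq : (⋂ n, A n) = {x | ∀ N, ∃ i, N ≤ i ∧ x ∈ S i} := by
    ext x
    simp only [A, Set.mem_iInter, Set.mem_iUnion, Set.mem_ofPred_eq, exists_prop]
  rw [← hEq]
  refine ge_of_tendsto' hlim ?_
  intro N
  refine (ha N).trans (measure_mono ?_)
  intro x hx
  simp only [A, Set.mem_iUnion]
  exact ⟨N, le_refl _, hx⟩

/-- the two dimensional statement: existence of mutually recurrent types -/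
theorem exists_types (μ ν : Measure Cant) [IsProbabilityMeasure μ] [IsProbabilityMeasure ν]
    (G H : ℕ → Cant → Finset ℕ) (GG HH : ℕ → Finset ℕ) (okx oky : ℕ → Cant → Prop)
    (hG : ∀ i, DepOn (HH i) (G i)) (hH : ∀ i, DepOn (GG i) (H i))
    (hokx : ∀ i, DepOn (GG i) (okx i)) (hoky : ∀ i, DepOn (HH i) (oky i))
    (a b : ℝ≥0∞) (hab : 1 < a + b)
    (hμ : ∀ i y, oky i y → a ≤ μ {x | ∃ g ∈ G i y, x g = true})
    (hν : ∀ i x, okx i x → b ≤ ν {y | ∃ h ∈ H i x, y h = true})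
    (hμok : ∀ i, μ {x | okx i x} = 1) (hνok : ∀ i, ν {y | oky i y} = 1) :
    ∃ x y : Cant, (∀ i, okx i x) ∧ (∀ i, oky i y) ∧
      (∀ N, ∃ i, N ≤ i ∧ ∃ g ∈ G i y, x g = true) ∧
      (∀ N, ∃ i, N ≤ i ∧ ∃ h ∈ H i x, y h = true) := by
  classical
  have cg : ∀ g : ℕ, MeasurableSet {x : Cant | x g = true} := by
    intro g
    refine (isClopen_of_dep (F := {g}) (E := {x : Cant | x g = true}) ?_).isOpen.measurableSet
    intro x y h
    simp only [Set.mem_ofPred_eq, h g (Finset.mem_singleton_self g)]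
  have cG : ∀ i g, MeasurableSet {y : Cant | g ∈ G i y} := by
    intro i g
    refine (isClopen_of_dep (F := HH i) (E := {y : Cant | g ∈ G i y}) ?_).isOpen.measurableSet
    intro x y h
    simp only [Set.mem_ofPred_eq, hG i x y h]
  have cH : ∀ i g, MeasurableSet {y : Cant | g ∈ H i y} := by
    intro i g
    refine (isClopen_of_dep (F := GG i) (E := {y : Cant | g ∈ H i y}) ?_).isOpen.measurableSet
    intro x y h
    simp only [Set.mem_ofPred_eq, hH i x y h]
  have cx : ∀ i, MeasurableSet {x : Cant | okx i x} := by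
    intro i
    refine (isClopen_of_dep (F := GG i) (E := {x : Cant | okx i x}) ?_).isOpen.measurableSet
    intro x y h
    simp only [Set.mem_ofPred_eq, hokx i x y h]
  have cy : ∀ i, MeasurableSet {y : Cant | oky i y} := by
    intro i
    refine (isClopen_of_dep (F := HH i) (E := {y : Cant | oky i y}) ?_).isOpen.measurableSet
    intro x y h
    simp only [Set.mem_ofPred_eq, hoky i x y h]
  -- the events in the product
  let A : Set (Cant × Cant) := {p | ∀ N, ∃ i, N ≤ i ∧ ∃ g ∈ G i p.2, p.1 g = true}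
  let B : Set (Cant × Cant) := {p | ∀ N, ∃ i, N ≤ i ∧ ∃ h ∈ H i p.1, p.2 h = true}
  have mAi : ∀ i, MeasurableSet {p : Cant × Cant | ∃ g ∈ G i p.2, p.1 g = true} := by
    intro i
    have : {p : Cant × Cant | ∃ g ∈ G i p.2, p.1 g = true}
        = ⋃ g : ℕ, ({x : Cant | x g = true} ×ˢ {y : Cant | g ∈ G i y}) := by
      ext p
      simp only [Set.mem_ofPred_eq, Set.mem_iUnion, Set.mem_prod]
      constructor
      · rintro ⟨g, h1, h2⟩
        exact ⟨g, h2, h1⟩
      · rintro ⟨g, h1, h2⟩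
        exact ⟨g, h2, h1⟩
    rw [this]
    exact MeasurableSet.iUnion fun g => (cg g).prod (cG i g)
  have mBi : ∀ i, MeasurableSet {p : Cant × Cant | ∃ h ∈ H i p.1, p.2 h = true} := by
    intro i
    have : {p : Cant × Cant | ∃ h ∈ H i p.1, p.2 h = true}
        = ⋃ g : ℕ, ({x : Cant | g ∈ H i x} ×ˢ {y : Cant | y g = true}) := by
      ext p
      simp only [Set.mem_ofPred_eq, Set.mem_iUnion, Set.mem_prod]
    rw [this]
    exact MeasurableSet.iUnion fun g => (cH i g).prod (cg g)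
  have mA : MeasurableSet A := by
    have : A = ⋂ N, ⋃ i, ⋃ (_ : N ≤ i), {p : Cant × Cant | ∃ g ∈ G i p.2, p.1 g = true} := by
      ext p
      simp only [A, Set.mem_iInter, Set.mem_iUnion, Set.mem_ofPred_eq, exists_prop]
    rw [this]
    exact MeasurableSet.iInter fun N => MeasurableSet.iUnion fun i =>
      MeasurableSet.iUnion fun _ => mAi i
  have mB : MeasurableSet B := by
    have : B = ⋂ N, ⋃ i, ⋃ (_ : N ≤ i), {p : Cant × Cant | ∃ h ∈ H i p.1, p.2 h = true} := by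
      ext p
      simp only [B, Set.mem_iInter, Set.mem_iUnion, Set.mem_ofPred_eq, exists_prop]
    rw [this]
    exact MeasurableSet.iInter fun N => MeasurableSet.iUnion fun i =>
      MeasurableSet.iUnion fun _ => mBi i
  have aex : ∀ᵐ x ∂μ, ∀ i, okx i x := by
    rw [ae_all_iff]
    intro i
    exact (prob_compl_eq_zero_iff (cx i)).2 (hμok i)
  have aey : ∀ᵐ y ∂ν, ∀ i, oky i y := by
    rw [ae_all_iff]
    intro i
    exact (prob_compl_eq_zero_iff (cy i)).2 (hνok i)
  have hA : a ≤ (μ.prod ν) A := by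
    rw [Measure.prod_apply_symm mA]
    calc a = ∫⁻ _ : Cant, a ∂ν := by simp
      _ ≤ ∫⁻ y, μ ((fun x => (x, y)) ⁻¹' A) ∂ν := by
          refine lintegral_mono_ae ?_
          filter_upwards [aey] with y hy
          exact le_measure_frequently μ (fun i => {x | ∃ g ∈ G i y, x g = true})
            (fun i => measurable_prodMk_right (mAi i)) a (fun i => hμ i y (hy i))
  have hB : b ≤ (μ.prod ν) B := by
    rw [Measure.prod_apply mB]
    calc b = ∫⁻ _ : Cant, b ∂μ := by simp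
      _ ≤ ∫⁻ x, ν (Prod.mk x ⁻¹' B) ∂μ := by
          refine lintegral_mono_ae ?_
          filter_upwards [aex] with x hx
          exact le_measure_frequently ν (fun i => {y | ∃ h ∈ H i x, y h = true})
            (fun i => measurable_prodMk_left (mBi i)) b (fun i => hν i x (hx i))
  let C : Set (Cant × Cant) := {p | (∀ i, okx i p.1) ∧ (∀ i, oky i p.2)}
  have aeC : ∀ᵐ p ∂(μ.prod ν), p ∈ C := by
    have h1 : ∀ᵐ p ∂(μ.prod ν), ∀ i, okx i p.1 :=
      Measure.quasiMeasurePreserving_fst.ae aex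
    have h2 : ∀ᵐ p ∂(μ.prod ν), ∀ i, oky i p.2 :=
      Measure.quasiMeasurePreserving_snd.ae aey
    filter_upwards [h1, h2] with p hp1 hp2
    exact ⟨hp1, hp2⟩
  by_contra hcon
  push Not at hcon
  have hdisj : (μ.prod ν) (A ∩ B) = 0 := by
    refine measure_mono_null ?_ (show (μ.prod ν) Cᶜ = 0 from aeC)
    rintro p ⟨hpA, hpB⟩ hpC
    obtain ⟨N, hN⟩ := hcon p.1 p.2 hpC.1 hpC.2 hpA
    obtain ⟨i, hi, h, hh, hy⟩ := hpB N
    exact absurd hy (by simpa using hN i hi h hh)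
  have hsum : (μ.prod ν) A + (μ.prod ν) B ≤ 1 := by
    have h1 := measure_union_add_inter (μ := μ.prod ν) A mB
    rw [hdisj, add_zero] at h1
    rw [← h1]
    exact prob_le_one
  exact absurd (lt_of_lt_of_le hab ((add_le_add hA hB).trans hsum)) (lt_irrefl _)

end Pool.Agent.H36.IS

end

section

open MeasureTheory Filter Topology
open scoped ENNReal

namespace Pool.Agent.H36.IS

/-- greedy selection along mutually recurrent types -/
theorem greedy (P R : ℕ → ℕ → Prop)
    (G H : ℕ → Cant → Finset ℕ) (GG HH : ℕ → Finset ℕ) (x y : Cant)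
    (hGG : ∀ i j, i < j → G i y ⊆ GG j) (hHH : ∀ i j, i < j → H i x ⊆ HH j)
    (hGt : ∀ i, ∀ g ∈ G i y, ∀ h ∈ HH i, (P h g ↔ y h = true))
    (hHt : ∀ i, ∀ h ∈ H i x, ∀ g ∈ GG i, (R g h ↔ x g = true))
    (hGl : ∀ i, ∀ g ∈ G i y, i ≤ g) (hHl : ∀ i, ∀ h ∈ H i x, i ≤ h)
    (hx : ∀ N, ∃ i, N ≤ i ∧ ∃ g ∈ G i y, x g = true)
    (hy : ∀ N, ∃ i, N ≤ i ∧ ∃ h ∈ H i x, y h = true) :
    ∃ b c : ℕ → ℕ, StrictMono b ∧ StrictMono c ∧ (∀ i j, i ≤ j → P (b i) (c j)) ∧
      (∀ i j, j < i → R (c j) (b i)) := by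
  classical
  choose I hI γ hγ hxγ using hx
  choose J hJ η hη hyη using hy
  -- thresholds
  let s : ℕ → ℕ := fun k => Nat.rec 0 (fun _ t =>
    J (max (I t) (γ t) + 1) + η (max (I t) (γ t) + 1) + 1) k
  let t : ℕ → ℕ := fun k => max (I (s k)) (γ (s k)) + 1
  have hs : ∀ k, s (k + 1) = J (t k) + η (t k) + 1 := fun k => rfl
  have h1 : ∀ k, s k ≤ I (s k) := fun k => hI _
  have h2 : ∀ k, I (s k) < t k := fun k => by simp only [t]; omega
  have h2' : ∀ k, γ (s k) < t k := fun k => by simp only [t]; omega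
  have h3 : ∀ k, t k ≤ J (t k) := fun k => hJ _
  have h4 : ∀ k, J (t k) < s (k + 1) := fun k => by rw [hs]; omega
  have h4' : ∀ k, η (t k) < s (k + 1) := fun k => by rw [hs]; omega
  have h5 : ∀ k, I (s k) ≤ γ (s k) := fun k => hGl _ _ (hγ _)
  have h6 : ∀ k, J (t k) ≤ η (t k) := fun k => hHl _ _ (hη _)
  have hsmono : StrictMono s := strictMono_nat_of_lt_succ fun k => by
    have := h1 k; have := h2 k; have := h3 k; have := h4 k; omega
  have hc : StrictMono (fun k => γ (s k)) := strictMono_nat_of_lt_succ fun k => by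
    have := h2' k; have := h3 k; have := h4 k; have := h1 (k + 1); have := h5 (k + 1); omega
  have hb : StrictMono (fun k => η (t k)) := strictMono_nat_of_lt_succ fun k => by
    have := h4' k; have := h1 (k + 1); have := h2 (k + 1); have := h3 (k + 1)
    have := h6 (k + 1); omega
  refine ⟨fun k => η (t k), fun k => γ (s (k + 1)), hb,
    fun a b hab => hc (Nat.succ_lt_succ hab), ?_, ?_⟩
  · intro i j hij
    have hlt : J (t i) < I (s (j + 1)) := by
      have := h4 i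
      have := h1 (j + 1)
      have := hsmono.monotone (show i + 1 ≤ j + 1 by omega)
      omega
    exact (hGt _ _ (hγ (s (j + 1))) _ (hHH _ _ hlt (hη (t i)))).2 (hyη _)
  · intro i j hij
    have hlt : I (s (j + 1)) < J (t i) := by
      have := h2 i
      have := h3 i
      rcases Nat.lt_or_ge (j + 1) i with hlt | hge
      · have h7 := h2 (j + 1)
        have h8 := h3 (j + 1)
        have h9 := h4 (j + 1)
        have h10 := hsmono.monotone (show j + 1 + 1 ≤ i by omega)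
        have h11 := h1 i
        omega
      · have : i = j + 1 := by omega
        subst this
        omega
    exact (hHt _ _ (hη (t i)) _ (hGG _ _ hlt (hγ (s (j + 1))))).2 (hxγ _)

/-- abstract two-sided selection theorem -/
theorem two_sided (P R : ℕ → ℕ → Prop)
    (G H : ℕ → Cant → Finset ℕ) (GG HH : ℕ → Finset ℕ) (okx oky : ℕ → Cant → Prop)
    (hG : ∀ i, DepOn (HH i) (G i)) (hH : ∀ i, DepOn (GG i) (H i))
    (hokx : ∀ i, DepOn (GG i) (okx i)) (hoky : ∀ i, DepOn (HH i) (oky i))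
    (hGG : ∀ i j, i < j → ∀ y, oky i y → G i y ⊆ GG j)
    (hHH : ∀ i j, i < j → ∀ x, okx i x → H i x ⊆ HH j)
    (hGt : ∀ i y, oky i y → ∀ g ∈ G i y, ∀ h ∈ HH i, (P h g ↔ y h = true))
    (hHt : ∀ i x, okx i x → ∀ h ∈ H i x, ∀ g ∈ GG i, (R g h ↔ x g = true))
    (hGl : ∀ i y, oky i y → ∀ g ∈ G i y, i ≤ g) (hHl : ∀ i x, okx i x → ∀ h ∈ H i x, i ≤ h)
    (a b : ℝ≥0∞) (hab : 1 < a + b)
    (μ ν : ℕ → Measure ℕ) (iμ : ∀ j, IsProbabilityMeasure (μ j))
    (iν : ∀ j, IsProbabilityMeasure (ν j))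
    (hμ : ∀ i j, i < j → ∀ y, oky i y → a ≤ μ j {n | ∃ g ∈ G i y, R g n})
    (hν : ∀ i j, i < j → ∀ x, okx i x → b ≤ ν j {n | ∃ h ∈ H i x, P h n})
    (hμok : ∀ i j, i ≤ j → ∀ᵐ n ∂(μ j), ∀ x : Cant, (∀ g ∈ GG i, (x g = true ↔ R g n)) → okx i x)
    (hνok : ∀ i j, i ≤ j → ∀ᵐ n ∂(ν j), ∀ y : Cant, (∀ h ∈ HH i, (y h = true ↔ P h n)) → oky i y) :
    ∃ b c : ℕ → ℕ, StrictMono b ∧ StrictMono c ∧ (∀ i j, i ≤ j → P (b i) (c j)) ∧
      (∀ i j, j < i → R (c j) (b i)) := by
  classical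
  let φ : ℕ → Cant := fun n g => decide (R g n)
  let ψ : ℕ → Cant := fun n h => decide (P h n)
  have mφ : Measurable φ := measurable_from_nat
  have mψ : Measurable ψ := measurable_from_nat
  have mp1 : ∀ j, IsProbabilityMeasure ((μ j).map φ) := fun j =>
    Measure.isProbabilityMeasure_map mφ.aemeasurable
  have mp2 : ∀ j, IsProbabilityMeasure ((ν j).map ψ) := fun j =>
    Measure.isProbabilityMeasure_map mψ.aemeasurable
  obtain ⟨M, hM⟩ := exists_limit (fun j => ⟨(μ j).map φ, mp1 j⟩)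
  obtain ⟨N, hN⟩ := exists_limit (fun j => ⟨(ν j).map ψ, mp2 j⟩)
  simp only [ProbabilityMeasure.coe_mk] at hM hN
  have clopG : ∀ i y, IsClopen {x : Cant | ∃ g ∈ G i y, x g = true} := by
    intro i y
    refine isClopen_of_dep (F := G i y) ?_
    intro u v huv
    simp only [Set.mem_ofPred_eq]
    constructor
    · rintro ⟨g, hg, h⟩
      exact ⟨g, hg, by rw [← huv g hg]; exact h⟩
    · rintro ⟨g, hg, h⟩
      exact ⟨g, hg, by rw [huv g hg]; exact h⟩
  have clopH : ∀ i x, IsClopen {y : Cant | ∃ h ∈ H i x, y h = true} := by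
    intro i y
    refine isClopen_of_dep (F := H i y) ?_
    intro u v huv
    simp only [Set.mem_ofPred_eq]
    constructor
    · rintro ⟨g, hg, h⟩
      exact ⟨g, hg, by rw [← huv g hg]; exact h⟩
    · rintro ⟨g, hg, h⟩
      exact ⟨g, hg, by rw [huv g hg]; exact h⟩
  have clopx : ∀ i, IsClopen {x : Cant | okx i x} := by
    intro i
    refine isClopen_of_dep (F := GG i) ?_
    intro u v huv
    simp only [Set.mem_ofPred_eq, hokx i u v huv]
  have clopy : ∀ i, IsClopen {y : Cant | oky i y} := by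
    intro i
    refine isClopen_of_dep (F := HH i) ?_
    intro u v huv
    simp only [Set.mem_ofPred_eq, hoky i u v huv]
  obtain ⟨x, y, hx, hy, hxx, hyy⟩ := exists_types (M : Measure Cant) (N : Measure Cant) G H GG HH
    okx oky hG hH hokx hoky a b hab
    (by
      intro i y hy
      refine hM _ (clopG i y) a ⟨i + 1, fun j hj => ?_⟩
      rw [Measure.map_apply mφ (clopG i y).isOpen.measurableSet]
      refine (hμ i j (by omega) y hy).trans (measure_mono ?_)
      rintro n ⟨g, hg, h⟩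
      exact ⟨g, hg, by simpa [φ] using h⟩)
    (by
      intro i x hx
      refine hN _ (clopH i x) b ⟨i + 1, fun j hj => ?_⟩
      rw [Measure.map_apply mψ (clopH i x).isOpen.measurableSet]
      refine (hν i j (by omega) x hx).trans (measure_mono ?_)
      rintro n ⟨g, hg, h⟩
      exact ⟨g, hg, by simpa [ψ] using h⟩)
    (by
      intro i
      refine le_antisymm prob_le_one (hM _ (clopx i) 1 ⟨i, fun j hj => ?_⟩)
      rw [Measure.map_apply mφ (clopx i).isOpen.measurableSet]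
      have := iμ j
      refine le_of_eq (Eq.symm ?_)
      refine (prob_compl_eq_zero_iff ?_).1 ?_
      · exact MeasurableSet.of_discrete
      · have h1 := hμok i j hj
        filter_upwards [h1] with n hn
        exact hn (φ n) (fun g hg => by simp [φ]))
    (by
      intro i
      refine le_antisymm prob_le_one (hN _ (clopy i) 1 ⟨i, fun j hj => ?_⟩)
      rw [Measure.map_apply mψ (clopy i).isOpen.measurableSet]
      have := iν j
      refine le_of_eq (Eq.symm ?_)
      refine (prob_compl_eq_zero_iff ?_).1 ?_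
      · exact MeasurableSet.of_discrete
      · have h1 := hνok i j hj
        filter_upwards [h1] with n hn
        exact hn (ψ n) (fun g hg => by simp [ψ]))
  exact greedy P R G H GG HH x y (fun i j hij => hGG i j hij y (hy i))
    (fun i j hij => hHH i j hij x (hx i)) (fun i => hGt i y (hy i)) (fun i => hHt i x (hx i))
    (fun i => hGl i y (hy i)) (fun i => hHl i x (hx i)) hxx hyy

end Pool.Agent.H36.IS

end

section

/-!
# Project IS (MP_3532bd_nt): definitions shared by the limit part and the sieve part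

`Step R c κ`: for every finite list of pairwise disjoint finite sets `B 0, ..., B (r-1)` with
`κ s ≤ |B s|`, and every admissible progression, there is a probability weight `w` on arbitrarily
large integers `n` of the progression, with arbitrarily small atoms, such that for EVERY `s` the
event `∃ h ∈ B s, R (n + h)` has probability at least `c`.
-/

set_option autoImplicit false

namespace Pool.Agent.H36.IS

/-- admissibility of the progression `a mod W` for the finite set of shifts `S` -/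
def Adm (W a : ℕ) (S : Finset ℕ) : Prop :=
  0 < W ∧ (∀ p : ℕ, p.Prime → p ∣ W → ∀ h ∈ S, ¬ p ∣ a + h) ∧
    (∀ p : ℕ, p.Prime → ¬ p ∣ W → S.card < p)

open Classical in
/-- the sieve input -/
def Step (R : ℕ → Prop) (c : ℝ) (κ : ℕ → ℕ) : Prop :=
  ∀ (r : ℕ) (B : Fin r → Finset ℕ), (∀ i j, i ≠ j → Disjoint (B i) (B j)) →
    (∀ s : Fin r, κ s ≤ (B s).card) →
    ∀ W a : ℕ, Adm W a (Finset.univ.biUnion B) →
    ∀ N : ℕ, ∃ (X : Finset ℕ) (w : ℕ → ℝ),
      (∀ n ∈ X, N ≤ n ∧ n ≡ a [MOD W] ∧ 0 ≤ w n ∧ (N : ℝ) * w n ≤ 1) ∧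
      ∑ n ∈ X, w n = 1 ∧
      ∀ s : Fin r, c ≤ ∑ n ∈ X.filter (fun n => ∃ h ∈ B s, R (n + h)), w n

end Pool.Agent.H36.IS

end

section

/-!
# Project IS, part A: the blocks of one stage
-/

set_option autoImplicit false

namespace Pool.Agent.H36.IS

open Classical in
/-- the union of a list of finite sets (in the form of `Step`) -/
noncomputable def uni (L : List (Finset ℕ)) : Finset ℕ :=
  Finset.univ.biUnion (fun i : Fin L.length => L.get i)

theorem mem_uni {L : List (Finset ℕ)} {x : ℕ} : x ∈ uni L ↔ ∃ B ∈ L, x ∈ B := by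
  classical
  unfold uni
  simp only [Finset.mem_biUnion, Finset.mem_univ, true_and]
  constructor
  · rintro ⟨i, hi⟩
    exact ⟨L.get i, List.get_mem _ _, hi⟩
  · rintro ⟨B, hB, hx⟩
    obtain ⟨i, hi⟩ := List.mem_iff_get.1 hB
    exact ⟨i, by rw [hi]; exact hx⟩

/-- the type `x` occurs infinitely often in the progression `a mod W` (with respect to the earlier
elements `E` and the relation `Q`) -/
def okR (Q : ℕ → ℕ → Prop) (E : Finset ℕ) (W a : ℕ) (x : Cant) : Prop :=
  ∀ N : ℕ, ∃ n : ℕ, N ≤ n ∧ n ≡ a [MOD W] ∧ ∀ g ∈ E, (Q g n ↔ x g = true)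

theorem okR_dep (Q : ℕ → ℕ → Prop) (E : Finset ℕ) (W a : ℕ) : DepOn E (okR Q E W a) := by
  intro x y hxy
  unfold okR
  refine propext (forall_congr' fun N => exists_congr fun n => and_congr_right fun _ =>
    and_congr_right fun _ => forall₂_congr fun g hg => ?_)
  rw [hxy g hg]

/-- a bound for the sizes of the blocks of one stage -/
def szBound (κ : ℕ → ℕ) (l e : ℕ) : ℕ := (Finset.range (l + 2 ^ e)).sup κ

theorem exists_block (Q : ℕ → ℕ → Prop) (E : Finset ℕ) (W a K M : ℕ) (T : Finset ℕ)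
    (h : ∀ N : ℕ, ∃ n : ℕ, N ≤ n ∧ n ≡ a [MOD W] ∧ ∀ g ∈ E, (Q g n ↔ g ∈ T)) :
    ∃ B : Finset ℕ, B.card = K ∧ ∀ n ∈ B, M ≤ n ∧ n ≡ a [MOD W] ∧ ∀ g ∈ E, (Q g n ↔ g ∈ T) := by
  have hinf : {n : ℕ | M ≤ n ∧ n ≡ a [MOD W] ∧ ∀ g ∈ E, (Q g n ↔ g ∈ T)}.Infinite := by
    refine Set.infinite_of_not_bddAbove ?_
    rintro ⟨u, hu⟩
    obtain ⟨n, h1, h2, h3⟩ := h (M + u + 1)
    have := hu (show n ∈ {n : ℕ | M ≤ n ∧ n ≡ a [MOD W] ∧ ∀ g ∈ E, (Q g n ↔ g ∈ T)} from
      ⟨by omega, h2, h3⟩)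
    omega
  obtain ⟨B, hB, hc⟩ := hinf.exists_subset_card_eq K
  exact ⟨B, hc, fun n hn => hB hn⟩

/-- one side of a stage -/
theorem side (Q : ℕ → ℕ → Prop) (κ : ℕ → ℕ) (E : Finset ℕ) (W a J : ℕ) (L : List (Finset ℕ))
    (hL : L.Pairwise Disjoint) (hsz : ∀ (i : ℕ) (hi : i < L.length), κ i ≤ (L[i]).card) :
    ∃ (L₁ : List (Finset ℕ)) (F : Cant → Finset ℕ), DepOn E F ∧
      (∀ x, okR Q E W a x → F x ∈ L₁) ∧
      (∀ x, okR Q E W a x → ∀ n ∈ F x, J ≤ n ∧ ∀ g ∈ E, (Q g n ↔ x g = true)) ∧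
      (∀ B ∈ L, B ∈ L₁) ∧ L₁.Pairwise Disjoint ∧
      (∀ (i : ℕ) (hi : i < L₁.length), κ i ≤ (L₁[i]).card) ∧
      (∀ n ∈ uni L₁, n ∈ uni L ∨ n ≡ a [MOD W]) ∧
      (uni L₁).card ≤ (uni L).card + 2 ^ E.card * szBound κ L.length E.card := by
  classical
  let ok' : Finset ℕ → Prop := fun T =>
    ∀ N : ℕ, ∃ n : ℕ, N ≤ n ∧ n ≡ a [MOD W] ∧ ∀ g ∈ E, (Q g n ↔ g ∈ T)
  let K : ℕ := szBound κ L.length E.card
  let M : ℕ := max J ((uni L).sup id + 1)
  let blk : Finset ℕ → Finset ℕ := fun T =>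
    if h : ok' T then (exists_block Q E W a K M T h).choose else ∅
  have hblk : ∀ T, ok' T → (blk T).card = K ∧
      ∀ n ∈ blk T, M ≤ n ∧ n ≡ a [MOD W] ∧ ∀ g ∈ E, (Q g n ↔ g ∈ T) := by
    intro T hT
    have : blk T = (exists_block Q E W a K M T hT).choose := dif_pos hT
    rw [this]
    exact (exists_block Q E W a K M T hT).choose_spec
  let TT : Finset (Finset ℕ) := E.powerset.filter ok'
  let L' : List (Finset ℕ) := TT.toList.map blk
  let F : Cant → Finset ℕ := fun x => blk (E.filter (fun g => x g = true))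
  have hok : ∀ x, okR Q E W a x → ok' (E.filter (fun g => x g = true)) := by
    intro x hx N
    obtain ⟨n, h1, h2, h3⟩ := hx N
    refine ⟨n, h1, h2, fun g hg => ?_⟩
    rw [h3 g hg, Finset.mem_filter]
    exact ⟨fun h => ⟨hg, h⟩, fun h => h.2⟩
  have hL'len : L'.length ≤ 2 ^ E.card := by
    simp only [L', List.length_map, Finset.length_toList]
    refine (Finset.card_filter_le _ _).trans ?_
    rw [Finset.card_powerset]
  have hL'mem : ∀ B ∈ L', ∃ T ∈ TT, blk T = B := by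
    intro B hB
    obtain ⟨T, hT, hTB⟩ := List.mem_map.1 hB
    exact ⟨T, Finset.mem_toList.1 hT, hTB⟩
  have hTTok : ∀ T ∈ TT, ok' T := fun T hT => (Finset.mem_filter.1 hT).2
  refine ⟨L ++ L', F, ?_, ?_, ?_, ?_, ?_, ?_, ?_, ?_⟩
  · intro x y hxy
    simp only [F]
    congr 1
    refine Finset.filter_congr fun g hg => ?_
    rw [hxy g hg]
  · intro x hx
    refine List.mem_append_right _ (List.mem_map.2 ⟨_, Finset.mem_toList.2 ?_, rfl⟩)
    exact Finset.mem_filter.2 ⟨Finset.mem_powerset.2 (Finset.filter_subset _ _), hok x hx⟩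
  · intro x hx n hn
    obtain ⟨h1, h2, h3⟩ := (hblk _ (hok x hx)).2 n hn
    refine ⟨(le_max_left _ _).trans h1, fun g hg => ?_⟩
    rw [h3 g hg, Finset.mem_filter]
    exact ⟨fun h => h.2, fun h => ⟨hg, h⟩⟩
  · intro B hB
    exact List.mem_append_left _ hB
  · rw [List.pairwise_append]
    refine ⟨hL, ?_, ?_⟩
    · simp only [L']
      rw [List.pairwise_map]
      refine List.Pairwise.imp_of_mem ?_ (Finset.nodup_toList TT)
      intro T T' hT hT' hne
      rw [Finset.mem_toList] at hT hT'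
      rw [Finset.disjoint_left]
      intro n hn hn'
      apply hne
      have h1 := ((hblk T (hTTok T hT)).2 n hn).2.2
      have h2 := ((hblk T' (hTTok T' hT')).2 n hn').2.2
      have hs := Finset.mem_powerset.1 (Finset.mem_filter.1 hT).1
      have hs' := Finset.mem_powerset.1 (Finset.mem_filter.1 hT').1
      ext g
      constructor
      · intro hg
        exact (h2 g (hs hg)).1 ((h1 g (hs hg)).2 hg)
      · intro hg
        exact (h1 g (hs' hg)).1 ((h2 g (hs' hg)).2 hg)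
    · intro B hB B' hB'
      obtain ⟨T, hT, rfl⟩ := hL'mem B' hB'
      rw [Finset.disjoint_left]
      intro n hn hn'
      have h1 : M ≤ n := ((hblk T (hTTok T hT)).2 n hn').1
      have h2 : n ≤ (uni L).sup id := Finset.le_sup (f := id) (mem_uni.2 ⟨B, hB, hn⟩)
      have h3 : (uni L).sup id + 1 ≤ M := le_max_right _ _
      omega
  · intro i hi
    rw [List.getElem_append]
    split_ifs with hlt
    · exact hsz i hlt
    · have hi' : i - L.length < L'.length := by
        rw [List.length_append] at hi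
        omega
      obtain ⟨T, hT, hTB⟩ := hL'mem (L'[i - L.length]) (List.getElem_mem hi')
      rw [← hTB, (hblk T (hTTok T hT)).1]
      refine Finset.le_sup (f := κ) (Finset.mem_range.2 ?_)
      omega
  · intro n hn
    obtain ⟨B, hB, hnB⟩ := mem_uni.1 hn
    rcases List.mem_append.1 hB with hB | hB
    · exact Or.inl (mem_uni.2 ⟨B, hB, hnB⟩)
    · obtain ⟨T, hT, rfl⟩ := hL'mem B hB
      exact Or.inr ((hblk T (hTTok T hT)).2 n hnB).2.1
  · have hsub : uni (L ++ L') ⊆ uni L ∪ TT.biUnion blk := by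
      intro n hn
      obtain ⟨B, hB, hnB⟩ := mem_uni.1 hn
      rcases List.mem_append.1 hB with hB | hB
      · exact Finset.mem_union_left _ (mem_uni.2 ⟨B, hB, hnB⟩)
      · obtain ⟨T, hT, rfl⟩ := hL'mem B hB
        exact Finset.mem_union_right _ (Finset.mem_biUnion.2 ⟨T, hT, hnB⟩)
    refine (Finset.card_le_card hsub).trans ((Finset.card_union_le _ _).trans ?_)
    refine Nat.add_le_add_left ?_ _
    refine (Finset.card_biUnion_le_card_mul TT blk K
      (fun T hT => le_of_eq (hblk T (hTTok T hT)).1)).trans ?_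
    refine Nat.mul_le_mul_right _ ?_
    refine (Finset.card_filter_le _ _).trans ?_
    rw [Finset.card_powerset]

end Pool.Agent.H36.IS

end

section

/-!
# Project IS, part A: the measure given by a sieve step
-/

set_option autoImplicit false

open MeasureTheory
open scoped ENNReal

namespace Pool.Agent.H36.IS

theorem sum_dirac_apply (X Y : Finset ℕ) (w : ℕ → ℝ) (hw : ∀ n ∈ X, 0 ≤ w n) (Q : ℕ → Prop)
    (hY : ∀ n, n ∈ Y ↔ n ∈ X ∧ Q n) :
    (∑ n ∈ X, ENNReal.ofReal (w n) • Measure.dirac n : Measure ℕ) {n | Q n}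
      = ENNReal.ofReal (∑ n ∈ Y, w n) := by
  classical
  have hYX : Y = X.filter Q := by
    ext n
    rw [hY n, Finset.mem_filter]
  rw [hYX, Measure.finsetSum_apply, ENNReal.ofReal_sum_of_nonneg
    (fun i hi => hw i (Finset.mem_filter.1 hi).1), Finset.sum_filter]
  refine Finset.sum_congr rfl fun n _ => ?_
  rw [Measure.smul_apply, Measure.dirac_apply' _ MeasurableSet.of_discrete, smul_eq_mul]
  by_cases h : Q n
  · rw [Set.indicator_of_mem (show n ∈ {n | Q n} from h)]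
    simp [h]
  · rw [Set.indicator_of_notMem (show n ∉ {n | Q n} from h)]
    simp [h]

theorem measure_of_step {R : ℕ → Prop} {c : ℝ} {κ : ℕ → ℕ} (h : Step R c κ)
    (L : List (Finset ℕ)) (hd : L.Pairwise Disjoint)
    (hsz : ∀ (i : ℕ) (hi : i < L.length), κ i ≤ (L[i]).card) (W a : ℕ)
    (hadm : Adm W a (uni L)) (N : ℕ) :
    ∃ μ : Measure ℕ, IsProbabilityMeasure μ ∧ (∀ᵐ n ∂μ, N ≤ n ∧ n ≡ a [MOD W]) ∧
      ∀ B ∈ L, ENNReal.ofReal c ≤ μ {n | ∃ h ∈ B, R (n + h)} := by
  classical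
  have hdis : ∀ i j : Fin L.length, i ≠ j → Disjoint (L.get i) (L.get j) := by
    intro i j hij
    rcases lt_or_gt_of_ne hij with hlt | hgt
    · exact (List.pairwise_iff_get.1 hd) i j hlt
    · exact ((List.pairwise_iff_get.1 hd) j i hgt).symm
  obtain ⟨X, w, hX, hsum, hB⟩ := h L.length (fun i => L.get i) hdis
    (fun s => hsz s.1 s.2) W a hadm N
  have hw : ∀ n ∈ X, 0 ≤ w n := fun n hn => (hX n hn).2.2.1
  refine ⟨∑ n ∈ X, ENNReal.ofReal (w n) • Measure.dirac n, ⟨?_⟩, ?_, ?_⟩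
  · have h1 := sum_dirac_apply X X w hw (fun _ => True) (fun n => by simp)
    rw [hsum, ENNReal.ofReal_one] at h1
    have h2 : (Set.univ : Set ℕ) = {n | (fun _ : ℕ => True) n} := by
      ext n
      simp
    rw [h2]
    exact h1
  · have h1 := sum_dirac_apply X ∅ w hw (fun n => ¬ (N ≤ n ∧ n ≡ a [MOD W])) (fun n => by
      constructor
      · intro hn
        exact absurd hn (Finset.notMem_empty n)
      · rintro ⟨hn, hn2⟩
        exact absurd ⟨(hX n hn).1, (hX n hn).2.1⟩ hn2)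
    rw [Finset.sum_empty, ENNReal.ofReal_zero] at h1
    exact h1
  · intro B hBL
    obtain ⟨i, hi⟩ := List.mem_iff_get.1 hBL
    have h1 := sum_dirac_apply X (X.filter (fun n => ∃ h ∈ B, R (n + h))) w hw
      (fun n => ∃ h ∈ B, R (n + h)) (fun n => Finset.mem_filter)
    rw [h1]
    refine ENNReal.ofReal_le_ofReal ?_
    have h2 := hB i
    simp only [hi] at h2
    convert h2

end Pool.Agent.H36.IS

end

section

/-!
# Project IS, part A: extending the modulus
-/

set_option autoImplicit false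

namespace Pool.Agent.H36.IS

/-- compatibility of the two residues `a` (for later `b`'s) and `a'` (for later `c`'s) with the
sets `G` (earlier `c`'s) and `H` (earlier `b`'s) -/
structure Compat (W a a' : ℕ) (G H : Finset ℕ) : Prop where
  pos : 0 < W
  hG : ∀ p : ℕ, p.Prime → p ∣ W → ∀ g ∈ G, ¬ p ∣ a + g
  hH : ∀ p : ℕ, p.Prime → p ∣ W → ∀ h ∈ H, ¬ p ∣ a' + h
  hab : ∀ p : ℕ, p.Prime → p ∣ W → ¬ p ∣ a + a'

theorem exists_residue (p : ℕ) (hp : 0 < p) (S : Finset ℕ) (hS : S.card < p) :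
    ∃ α : ℕ, ∀ s ∈ S, ¬ p ∣ α + s := by
  classical
  let T : Finset ℕ := S.image (fun g => (p - g % p) % p)
  have hT : T.card < (Finset.range p).card := by
    rw [Finset.card_range]
    exact lt_of_le_of_lt Finset.card_image_le hS
  obtain ⟨α, hα, hαT⟩ := Finset.exists_mem_notMem_of_card_lt_card hT
  refine ⟨α, ?_⟩
  intro s hs hdvd
  apply hαT
  refine Finset.mem_image.2 ⟨s, hs, ?_⟩
  have hαp : α < p := Finset.mem_range.1 hα
  have hsp : s % p < p := Nat.mod_lt _ hp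
  have h1 : (α + s % p) % p = 0 := by
    rw [Nat.add_mod_mod]
    exact Nat.mod_eq_zero_of_dvd hdvd
  obtain ⟨k, hk⟩ := Nat.dvd_of_mod_eq_zero h1
  have hk2 : k < 2 := by
    by_contra hcon
    have : p * 2 ≤ p * k := Nat.mul_le_mul_left p (by omega)
    omega
  interval_cases k
  · have h2 : s % p = 0 := by omega
    have h3 : α = 0 := by omega
    rw [h2, h3]
    simp
  · have h2 : p - s % p = α := by omega
    rw [h2]
    exact Nat.mod_eq_of_lt hαp

theorem dvd_congr {q W a b g : ℕ} (hqW : q ∣ W) (hab : b ≡ a [MOD W]) : q ∣ b + g ↔ q ∣ a + g :=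
  ((hab.of_dvd hqW).add_right g).dvd_iff (dvd_refl q)

theorem ext_one {W a a' : ℕ} {G H : Finset ℕ} (h : Compat W a a' G H) (p : ℕ) (hp : p.Prime)
    (hpW : ¬ p ∣ W) (hGc : G.card < p) (hHc : H.card + 1 < p) :
    ∃ b b' : ℕ, Compat (W * p) b b' G H ∧ b ≡ a [MOD W] ∧ b' ≡ a' [MOD W] := by
  classical
  obtain ⟨α, hα⟩ := exists_residue p hp.pos G hGc
  obtain ⟨α', hα'⟩ := exists_residue p hp.pos (insert α H)
    (lt_of_le_of_lt (Finset.card_insert_le _ _) hHc)
  have hco : Nat.Coprime W p := ((Nat.Prime.coprime_iff_not_dvd hp).2 hpW).symm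
  obtain ⟨b, hb1, hb2⟩ := Nat.chineseRemainder hco a α
  obtain ⟨b', hb1', hb2'⟩ := Nat.chineseRemainder hco a' α'
  refine ⟨b, b', ⟨Nat.mul_pos h.pos hp.pos, ?_, ?_, ?_⟩, hb1, hb1'⟩
  · intro q hq hqWp g hg
    rcases (Nat.Prime.dvd_mul hq).1 hqWp with hqW | hqp
    · rw [dvd_congr hqW hb1]
      exact h.hG q hq hqW g hg
    · have : q = p := (Nat.prime_dvd_prime_iff_eq hq hp).1 hqp
      subst this
      rw [dvd_congr (dvd_refl q) hb2]
      exact hα g hg
  · intro q hq hqWp g hg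
    rcases (Nat.Prime.dvd_mul hq).1 hqWp with hqW | hqp
    · rw [dvd_congr hqW hb1']
      exact h.hH q hq hqW g hg
    · have : q = p := (Nat.prime_dvd_prime_iff_eq hq hp).1 hqp
      subst this
      rw [dvd_congr (dvd_refl q) hb2']
      exact hα' g (Finset.mem_insert_of_mem hg)
  · intro q hq hqWp
    rcases (Nat.Prime.dvd_mul hq).1 hqWp with hqW | hqp
    · rw [dvd_congr hqW hb1, add_comm, dvd_congr hqW hb1', add_comm]
      exact h.hab q hq hqW
    · have : q = p := (Nat.prime_dvd_prime_iff_eq hq hp).1 hqp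
      subst this
      rw [dvd_congr (dvd_refl q) hb2, add_comm, dvd_congr (dvd_refl q) hb2']
      exact hα' α (Finset.mem_insert_self _ _)

theorem ext_all {W a a' : ℕ} {G H : Finset ℕ} (h : Compat W a a' G H)
    (hc : ∀ p : ℕ, p.Prime → ¬ p ∣ W → G.card < p ∧ H.card + 1 < p) (T : ℕ) :
    ∃ W₁ a₁ a₁' : ℕ, W ∣ W₁ ∧ a₁ ≡ a [MOD W] ∧ a₁' ≡ a' [MOD W] ∧ Compat W₁ a₁ a₁' G H ∧
      ∀ p : ℕ, p.Prime → p ≤ T → p ∣ W₁ := by
  induction T with
  | zero =>
    refine ⟨W, a, a', dvd_refl _, Nat.ModEq.refl _, Nat.ModEq.refl _, h, ?_⟩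
    intro p hp hp0
    exact absurd hp.pos (by omega)
  | succ T ih =>
    obtain ⟨W₁, a₁, a₁', h1, h2, h3, h4, h5⟩ := ih
    by_cases hT : (T + 1).Prime ∧ ¬ (T + 1) ∣ W₁
    · have hW : ¬ (T + 1) ∣ W := fun hd => hT.2 (hd.trans h1)
      obtain ⟨b, b', h6, h7, h8⟩ := ext_one h4 (T + 1) hT.1 hT.2 (hc _ hT.1 hW).1 (hc _ hT.1 hW).2
      refine ⟨W₁ * (T + 1), b, b', h1.trans (Nat.dvd_mul_right _ _), (h7.of_dvd h1).trans h2,
        (h8.of_dvd h1).trans h3, h6, ?_⟩
      intro p hp hpT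
      rcases Nat.lt_or_ge T p with hlt | hge
      · have : p = T + 1 := by omega
        subst this
        exact Nat.dvd_mul_left _ _
      · exact (h5 p hp hge).trans (Nat.dvd_mul_right _ _)
    · refine ⟨W₁, a₁, a₁', h1, h2, h3, h4, ?_⟩
      intro p hp hpT
      rcases Nat.lt_or_ge T p with hlt | hge
      · have : p = T + 1 := by omega
        subst this
        by_contra hcon
        exact hT ⟨hp, hcon⟩
      · exact h5 p hp hge

end Pool.Agent.H36.IS

end

section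

/-!
# Project IS, part A: the recursion
-/

set_option autoImplicit false

namespace Pool.Agent.H36.IS

/-- the state before a stage: blocks of `c`'s, blocks of `b`'s, modulus, residues -/
structure St where
  LG : List (Finset ℕ)
  LH : List (Finset ℕ)
  W : ℕ
  a : ℕ
  a' : ℕ

/-- the invariants of a state -/
structure Inv (κ1 κ2 : ℕ → ℕ) (s : St) : Prop where
  compat : Compat s.W s.a s.a' (uni s.LG) (uni s.LH)
  small : ∀ p : ℕ, p.Prime → ¬ p ∣ s.W → (uni s.LG).card < p ∧ (uni s.LH).card + 1 < p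
  disG : s.LG.Pairwise Disjoint
  disH : s.LH.Pairwise Disjoint
  szG : ∀ (i : ℕ) (hi : i < s.LG.length), κ2 i ≤ (s.LG[i]).card
  szH : ∀ (i : ℕ) (hi : i < s.LH.length), κ1 i ≤ (s.LH[i]).card

/-- the relation between consecutive states -/
structure Rel (P R : ℕ → ℕ → Prop) (j : ℕ) (s s₁ : St) (G H : Cant → Finset ℕ) : Prop where
  depG : DepOn (uni s.LH) G
  depH : DepOn (uni s.LG) H
  memG : ∀ y, okR P (uni s.LH) s₁.W s₁.a' y → G y ∈ s₁.LG
  memH : ∀ x, okR R (uni s.LG) s₁.W s₁.a x → H x ∈ s₁.LH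
  typG : ∀ y, okR P (uni s.LH) s₁.W s₁.a' y → ∀ g ∈ G y, j ≤ g ∧
    ∀ h ∈ uni s.LH, (P h g ↔ y h = true)
  typH : ∀ x, okR R (uni s.LG) s₁.W s₁.a x → ∀ h ∈ H x, j ≤ h ∧
    ∀ g ∈ uni s.LG, (R g h ↔ x g = true)
  subG : ∀ B ∈ s.LG, B ∈ s₁.LG
  subH : ∀ B ∈ s.LH, B ∈ s₁.LH
  dvdW : s.W ∣ s₁.W
  modA : s₁.a ≡ s.a [MOD s.W]
  modA' : s₁.a' ≡ s.a' [MOD s.W]

theorem stage (P R : ℕ → ℕ → Prop) (κ1 κ2 : ℕ → ℕ) (j : ℕ) (s : St) (hs : Inv κ1 κ2 s) :
    ∃ (s₁ : St) (G H : Cant → Finset ℕ), Inv κ1 κ2 s₁ ∧ Rel P R j s s₁ G H := by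
  classical
  let T : ℕ := (uni s.LG).card + 2 ^ (uni s.LH).card * szBound κ2 s.LG.length (uni s.LH).card
    + ((uni s.LH).card + 2 ^ (uni s.LG).card * szBound κ1 s.LH.length (uni s.LG).card) + 2
  obtain ⟨W₁, a₁, a₁', h1, h2, h3, h4, h5⟩ := ext_all hs.compat hs.small T
  obtain ⟨LG₁, G, g1, g2, g3, g4, g5, g6, g7, g8⟩ :=
    side P κ2 (uni s.LH) W₁ a₁' j s.LG hs.disG hs.szG
  obtain ⟨LH₁, H, k1, k2, k3, k4, k5, k6, k7, k8⟩ :=
    side R κ1 (uni s.LG) W₁ a₁ j s.LH hs.disH hs.szH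
  refine ⟨⟨LG₁, LH₁, W₁, a₁, a₁'⟩, G, H, ⟨⟨h4.pos, ?_, ?_, h4.hab⟩, ?_, g5, k5, g6, k6⟩,
    ⟨g1, k1, g2, k2, g3, k3, g4, k4, h1, h2, h3⟩⟩
  · intro p hp hpW g hg
    rcases g7 g hg with hg | hg
    · exact h4.hG p hp hpW g hg
    · intro hd
      apply h4.hab p hp hpW
      rw [add_comm] at hd ⊢
      exact (dvd_congr hpW hg).1 hd
  · intro p hp hpW g hg
    rcases k7 g hg with hg | hg
    · exact h4.hH p hp hpW g hg
    · intro hd
      apply h4.hab p hp hpW
      rw [add_comm] at hd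
      exact (dvd_congr hpW hg).1 hd
  · intro p hp hpW
    have hpT : T < p := by
      by_contra hcon
      exact hpW (h5 p hp (by omega))
    simp only [T] at hpT
    constructor
    · show (uni LG₁).card < p
      omega
    · show (uni LH₁).card + 1 < p
      omega

theorem inv_init (κ1 κ2 : ℕ → ℕ) : Inv κ1 κ2 ⟨[], [], 1, 0, 0⟩ := by
  have hu : uni [] = ∅ := by
    apply Finset.eq_empty_of_forall_notMem
    intro x hx
    obtain ⟨B, hB, -⟩ := mem_uni.1 hx
    exact absurd hB (by simp)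
  refine ⟨⟨by norm_num, ?_, ?_, ?_⟩, ?_, List.Pairwise.nil, List.Pairwise.nil, ?_, ?_⟩
  · intro p hp hp1
    exact absurd hp1 (by simpa using hp.one_lt.ne')
  · intro p hp hp1
    exact absurd hp1 (by simpa using hp.one_lt.ne')
  · intro p hp hp1
    exact absurd hp1 (by simpa using hp.one_lt.ne')
  · intro p hp _
    simp only [hu, Finset.card_empty]
    exact ⟨hp.pos, hp.one_lt⟩
  · intro i hi
    simp at hi
  · intro i hi
    simp at hi

/-- the whole construction -/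
theorem construction (P R : ℕ → ℕ → Prop) (κ1 κ2 : ℕ → ℕ) :
    ∃ (s : ℕ → St) (G H : ℕ → Cant → Finset ℕ), (∀ j, Inv κ1 κ2 (s j)) ∧
      ∀ j, Rel P R j (s j) (s (j + 1)) (G j) (H j) := by
  classical
  choose nx Gx Hx hinv hrel using fun (j : ℕ) (s : {s : St // Inv κ1 κ2 s}) =>
    stage P R κ1 κ2 j s.1 s.2
  let sq : ℕ → {s : St // Inv κ1 κ2 s} := fun j =>
    Nat.rec ⟨⟨[], [], 1, 0, 0⟩, inv_init κ1 κ2⟩ (fun j s => ⟨nx j s, hinv j s⟩) j
  exact ⟨fun j => (sq j).1, fun j => Gx j (sq j), fun j => Hx j (sq j), fun j => (sq j).2,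
    fun j => hrel j (sq j)⟩

/-- all but finitely many integers of a progression have a type that occurs infinitely often -/
theorem eventually_ok (Q : ℕ → ℕ → Prop) (E : Finset ℕ) (W a : ℕ) :
    ∃ N : ℕ, ∀ n : ℕ, N ≤ n → n ≡ a [MOD W] →
      ∀ x : Cant, (∀ g ∈ E, (x g = true ↔ Q g n)) → okR Q E W a x := by
  classical
  have key : ∀ T : Finset ℕ, ∃ N : ℕ,
      (∀ M : ℕ, ∃ n : ℕ, M ≤ n ∧ n ≡ a [MOD W] ∧ ∀ g ∈ E, (Q g n ↔ g ∈ T)) ∨
      (∀ n : ℕ, N ≤ n → n ≡ a [MOD W] → ¬ ∀ g ∈ E, (Q g n ↔ g ∈ T)) := by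
    intro T
    by_cases h : ∀ M : ℕ, ∃ n : ℕ, M ≤ n ∧ n ≡ a [MOD W] ∧ ∀ g ∈ E, (Q g n ↔ g ∈ T)
    · exact ⟨0, Or.inl h⟩
    · push Not at h
      obtain ⟨M, hM⟩ := h
      refine ⟨M, Or.inr fun n h1 h2 h3 => ?_⟩
      obtain ⟨g, hg, h4⟩ := hM n h1 h2
      have := h3 g hg
      tauto
  choose N hN using key
  refine ⟨E.powerset.sup N, ?_⟩
  intro n hn hna x hx
  have hmem : E.filter (fun g => x g = true) ∈ E.powerset :=
    Finset.mem_powerset.2 (Finset.filter_subset _ _)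
  have hle : N (E.filter (fun g => x g = true)) ≤ n := (Finset.le_sup hmem).trans hn
  rcases hN (E.filter (fun g => x g = true)) with h | h
  · intro M
    obtain ⟨m, h1, h2, h3⟩ := h M
    refine ⟨m, h1, h2, fun g hg => ?_⟩
    rw [h3 g hg, Finset.mem_filter]
    exact ⟨fun h => h.2, fun h => ⟨hg, h⟩⟩
  · exfalso
    refine h n hle hna fun g hg => ?_
    rw [Finset.mem_filter]
    constructor
    · intro hq
      exact ⟨hg, (hx g hg).2 hq⟩
    · intro hq
      exact (hx g hg).1 hq.2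

end Pool.Agent.H36.IS

end

section

/-!
# Project IS, part A: the limit theorem
-/

set_option autoImplicit false

open MeasureTheory
open scoped ENNReal

namespace Pool.Agent.H36.IS

/-- The abstract limit theorem (types, limit measures, Fubini, greedy choice). -/
theorem two_parity (R1 R2 : ℕ → Prop) (c1 c2 : ℝ) (κ1 κ2 : ℕ → ℕ)
    (h1 : Step R1 c1 κ1) (h2 : Step R2 c2 κ2) (hc : 1 < c1 + c2) :
    ∃ b c : ℕ → ℕ, StrictMono b ∧ StrictMono c ∧
      (∀ i j, i ≤ j → R1 (b i + c j)) ∧ (∀ i j, j < i → R2 (b i + c j)) := by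
  classical
  obtain ⟨s, G, H, hinv, hrel⟩ :=
    construction (fun h n => R1 (n + h)) (fun g n => R2 (n + g)) κ1 κ2
  -- monotonicity
  have subG : ∀ i j, i ≤ j → ∀ B ∈ (s i).LG, B ∈ (s j).LG := by
    intro i j hij
    induction j, hij using Nat.le_induction with
    | base => exact fun B hB => hB
    | succ j _ ih => exact fun B hB => (hrel j).subG B (ih B hB)
  have subH : ∀ i j, i ≤ j → ∀ B ∈ (s i).LH, B ∈ (s j).LH := by
    intro i j hij
    induction j, hij using Nat.le_induction with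
    | base => exact fun B hB => hB
    | succ j _ ih => exact fun B hB => (hrel j).subH B (ih B hB)
  have mods : ∀ i j, i ≤ j → (s i).W ∣ (s j).W ∧ (s j).a ≡ (s i).a [MOD (s i).W] ∧
      (s j).a' ≡ (s i).a' [MOD (s i).W] := by
    intro i j hij
    induction j, hij using Nat.le_induction with
    | base => exact ⟨dvd_refl _, Nat.ModEq.refl _, Nat.ModEq.refl _⟩
    | succ j _ ih =>
      exact ⟨ih.1.trans (hrel j).dvdW, ((hrel j).modA.of_dvd ih.1).trans ih.2.1,
        ((hrel j).modA'.of_dvd ih.1).trans ih.2.2⟩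
  -- the bounds beyond which all types are recurrent
  choose NR hNR using fun i : ℕ => eventually_ok (fun g n => R2 (n + g)) (uni (s i).LG)
    (s (i + 1)).W (s (i + 1)).a
  choose NP hNP using fun i : ℕ => eventually_ok (fun h n => R1 (n + h)) (uni (s i).LH)
    (s (i + 1)).W (s (i + 1)).a'
  -- the measures
  have admG : ∀ j, Adm (s j).W (s j).a (uni (s j).LG) := fun j =>
    ⟨(hinv j).compat.pos, (hinv j).compat.hG, fun p hp hpW => ((hinv j).small p hp hpW).1⟩
  have admH : ∀ j, Adm (s j).W (s j).a' (uni (s j).LH) := fun j =>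
    ⟨(hinv j).compat.pos, (hinv j).compat.hH,
      fun p hp hpW => (Nat.lt_succ_self _).trans ((hinv j).small p hp hpW).2⟩
  choose μ μp μn μB using fun j : ℕ => measure_of_step h2 (s (j + 1)).LG (hinv (j + 1)).disG
    (hinv (j + 1)).szG (s (j + 1)).W (s (j + 1)).a (admG (j + 1)) ((Finset.range (j + 1)).sup NR)
  choose ν νp νn νB using fun j : ℕ => measure_of_step h1 (s (j + 1)).LH (hinv (j + 1)).disH
    (hinv (j + 1)).szH (s (j + 1)).W (s (j + 1)).a' (admH (j + 1)) ((Finset.range (j + 1)).sup NP)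
  have hab : 1 < ENNReal.ofReal c2 + ENNReal.ofReal c1 := by
    refine lt_of_lt_of_le ?_ ENNReal.ofReal_add_le
    rw [← ENNReal.ofReal_one]
    exact (ENNReal.ofReal_lt_ofReal_iff (by linarith only [hc])).2 (by linarith only [hc])
  obtain ⟨b, c, hb, hcc, hP, hR⟩ := two_sided (fun h n => R1 (n + h)) (fun g n => R2 (n + g)) G H
    (fun j => uni (s j).LG) (fun j => uni (s j).LH)
    (fun i => okR (fun g n => R2 (n + g)) (uni (s i).LG) (s (i + 1)).W (s (i + 1)).a)
    (fun i => okR (fun h n => R1 (n + h)) (uni (s i).LH) (s (i + 1)).W (s (i + 1)).a')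
    (fun i => (hrel i).depG) (fun i => (hrel i).depH)
    (fun i => okR_dep _ _ _ _) (fun i => okR_dep _ _ _ _)
    (fun i j hij y hy n hn => mem_uni.2 ⟨G i y, subG (i + 1) j hij _ ((hrel i).memG y hy), hn⟩)
    (fun i j hij x hx n hn => mem_uni.2 ⟨H i x, subH (i + 1) j hij _ ((hrel i).memH x hx), hn⟩)
    (fun i y hy g hg => ((hrel i).typG y hy g hg).2)
    (fun i x hx g hg => ((hrel i).typH x hx g hg).2)
    (fun i y hy g hg => ((hrel i).typG y hy g hg).1)
    (fun i x hx g hg => ((hrel i).typH x hx g hg).1)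
    (ENNReal.ofReal c2) (ENNReal.ofReal c1) hab μ ν μp νp
    (fun i j hij y hy => μB j _ (subG (i + 1) (j + 1) (by omega) _ ((hrel i).memG y hy)))
    (fun i j hij x hx => νB j _ (subH (i + 1) (j + 1) (by omega) _ ((hrel i).memH x hx)))
    (by
      intro i j hij
      filter_upwards [μn j] with n hn
      refine hNR i n ((Finset.le_sup (f := NR) (Finset.mem_range.2 (by omega))).trans hn.1) ?_
      have hm := mods (i + 1) (j + 1) (by omega)
      exact (hn.2.of_dvd hm.1).trans hm.2.1)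
    (by
      intro i j hij
      filter_upwards [νn j] with n hn
      refine hNP i n ((Finset.le_sup (f := NP) (Finset.mem_range.2 (by omega))).trans hn.1) ?_
      have hm := mods (i + 1) (j + 1) (by omega)
      exact (hn.2.of_dvd hm.1).trans hm.2.2)
  refine ⟨b, c, hb, hcc, ?_, ?_⟩
  · intro i j hij
    have := hP i j hij
    rwa [add_comm] at this
  · intro i j hij
    exact hR i j hij

end Pool.Agent.H36.IS

end

section

/-!
# IS Gam: numerical bound for the Euler-Mascheroni constant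

γ < eulerMascheroniSeq' 256 = H_256 - log 256 (`Real.eulerMascheroniConstant_lt_eulerMascheroniSeq'`);  H_256 ≤ 6.124345 (rational
computation: `decide +kernel` on `(harmonic 256 : ℚ) ≤ ...` or an integer version), log 256 = 8 log 2 ≥ 5.545177;  so γ < 0.57917.
exp(-0.57917) ≥ 0.5603: exp(0.57917) ≤ 1/0.5603 = 1.78476 (exp(0.57917) = 1.78456...; use `Real.exp_bound` / Taylor).
-/

set_option autoImplicit false

namespace Pool.Agent.H36.IS

open Finset Filter

private theorem Gam_harm : harmonic 256 ≤ 6124345 / 1000000 := by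
  decide +kernel

private theorem Gam_gamma : Real.eulerMascheroniConstant < 0.57917 := by
  have h1 := Real.eulerMascheroniConstant_lt_eulerMascheroniSeq' 256
  have h2 : Real.eulerMascheroniSeq' 256 = ((harmonic 256 : ℚ) : ℝ) - Real.log 256 := by
    unfold Real.eulerMascheroniSeq'
    rw [if_neg (by norm_num), Nat.cast_ofNat]
  have h3 : ((harmonic 256 : ℚ) : ℝ) ≤ 6124345 / 1000000 := by
    have h := Gam_harm
    have h' : ((harmonic 256 : ℚ) : ℝ) ≤ ((6124345 / 1000000 : ℚ) : ℝ) := by exact_mod_cast h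
    refine h'.trans (le_of_eq ?_)
    push_cast
    rfl
  have h4 : Real.log 256 = 8 * Real.log 2 := by
    rw [show (256 : ℝ) = 2 ^ 8 by norm_num, Real.log_pow]
    norm_num
  have h5 := Real.log_two_gt_d9
  rw [h2, h4] at h1
  linarith only [h1, h3, h5]

private theorem Gam_exp : Real.exp 0.57917 ≤ 1.7847 := by
  have h := Real.exp_bound' (x := 0.57917) (by norm_num) (by norm_num) (n := 8) (by norm_num)
  refine h.trans ?_
  norm_num [Finset.sum_range_succ, Nat.factorial]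

theorem gam_num : (0.5603 : ℝ) < Real.exp (-Real.eulerMascheroniConstant) := by
  have h1 : Real.exp (-0.57917) < Real.exp (-Real.eulerMascheroniConstant) := by
    apply Real.exp_lt_exp.2
    have := Gam_gamma
    linarith only [this]
  have h2 : (0.5603 : ℝ) ≤ Real.exp (-0.57917) := by
    rw [Real.exp_neg, le_inv_comm₀ (by norm_num) (Real.exp_pos _)]
    refine Gam_exp.trans ?_
    norm_num
  linarith only [h1, h2]

end Pool.Agent.H36.IS

end

section

/-!
# IS Tval: the sums over the atoms of one or two components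

Si x δ i = {i} ×ˢ PZ x δ; its subsets correspond to subsets of PZ x δ via image Prod.snd, ∑ log e.2 = lg, ∏ fo gi e = ∏ fn (primes).
Subsets of Si i ∪ Si j (disjoint since i ≠ j) are pairs.
-/

set_option autoImplicit false

namespace Pool.Agent.H36.IS

open Finset

private theorem Tval_fo {ι : Type} [Fintype ι] [DecidableEq ι] {x : ℕ} {δ : ℝ} (i : ι) {p : ℕ}
    (hp : p ∈ PZ x δ) : fo gi ((i, p) : ι × ℕ) = fn p := by
  have h1 : p.Prime := by
    simp only [PZ, PX, mem_filter] at hp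
    exact hp.1.2.1
  have h2 : (2 : ℝ) ≤ (p : ℝ) := by exact_mod_cast h1.two_le
  have h3 : (p : ℝ) ≠ 0 := by positivity
  have h4 : (p : ℝ) - 1 ≠ 0 := by linarith only [h2]
  unfold fo gi fn
  simp only
  rw [one_sub_div h3, div_div_div_cancel_right₀ h3]

private theorem Tval_sum_log {ι : Type} [Fintype ι] [DecidableEq ι] (i : ι) (S : Finset ℕ) :
    ∑ e ∈ ({i} : Finset ι) ×ˢ S, Real.log e.2 = lg S := by
  rw [sum_product, sum_singleton]; rfl

private theorem Tval_prod {ι : Type} [Fintype ι] [DecidableEq ι] {x : ℕ} {δ : ℝ} (i : ι)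
    {S : Finset ℕ} (hS : S ⊆ PZ x δ) :
    ∏ e ∈ ({i} : Finset ι) ×ˢ S, fo gi e = ∏ p ∈ S, fn p := by
  rw [prod_product, prod_singleton]
  exact prod_congr rfl fun p hp => Tval_fo i (hS hp)

/-- the value of `T` for one component -/
theorem T_one {ι : Type} [Fintype ι] [DecidableEq ι] (x : ℕ) (δ t : ℝ) (i : ι) :
    ∑ A ∈ (Si x δ i).powerset, (if ∑ e ∈ A, Real.log e.2 ≤ t then (1 : ℝ) else 0) * ∏ e ∈ A, fo gi e =
      GG (PZ x δ) t := by
  unfold GG
  refine sum_nbij' (fun A => A.image Prod.snd) (fun S => ({i} : Finset ι) ×ˢ S) ?_ ?_ ?_ ?_ ?_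
  · intro A hA
    rw [mem_powerset] at hA ⊢
    intro p hp
    obtain ⟨e, he, rfl⟩ := mem_image.1 hp
    exact (mem_product.1 (hA he)).2
  · intro S hS
    rw [mem_powerset] at hS ⊢
    exact product_subset_product (Subset.refl _) hS
  · intro A hA
    rw [mem_powerset] at hA
    ext ⟨a, p⟩
    simp only [mem_product, mem_singleton, mem_image, Prod.exists, exists_eq_right]
    constructor
    · rintro ⟨rfl, b, hb⟩
      have h1 := (mem_product.1 (hA hb)).1
      rw [mem_singleton] at h1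
      simp only at h1
      rwa [h1] at hb
    · intro h
      have h1 := (mem_product.1 (hA h)).1
      rw [mem_singleton] at h1
      exact ⟨h1, a, h⟩
  · intro S _
    ext p
    simp
  · intro A hA
    rw [mem_powerset] at hA
    have h0 : A = ({i} : Finset ι) ×ˢ A.image Prod.snd := by
      ext ⟨a, p⟩
      simp only [mem_product, mem_singleton, mem_image, Prod.exists, exists_eq_right]
      constructor
      · intro h
        have h1 := (mem_product.1 (hA h)).1
        rw [mem_singleton] at h1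
        exact ⟨h1, a, h⟩
      · rintro ⟨rfl, b, hb⟩
        have h1 := (mem_product.1 (hA hb)).1
        rw [mem_singleton] at h1
        simp only at h1
        rwa [h1] at hb
    have h1 : A.image Prod.snd ⊆ PZ x δ := by
      intro p hp
      obtain ⟨e, he, rfl⟩ := mem_image.1 hp
      exact (mem_product.1 (hA he)).2
    generalize A.image Prod.snd = S at h0 h1
    subst h0
    rw [Tval_sum_log, Tval_prod i h1]
    split_ifs <;> simp

end Pool.Agent.H36.IS

end

section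

/-!
# IS MD: the data of a mark

`mk x m` is the mark (a property of the integer `m = n + h i`), implied by nothing and implying `R m`.
`l x`, `q1 x`, `q2 x` are the relative densities: lower bound for one mark, upper bound for one mark, upper bound for two
marks.  `c` is a lower bound of `l^2/q2`.
-/

set_option autoImplicit false

namespace Pool.Agent.H36.IS

open Finset Filter

open Classical in
def MarkData (R : ℕ → Prop) (δ θ c : ℝ) : Prop :=
  ∃ (mk : ℕ → ℕ → Prop) (l q1 q2 : ℕ → ℝ) (c' C : ℝ), (∀ x m, mk x m → R m) ∧ 0 < c' ∧ 0 < C ∧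
    (∀ᶠ x : ℕ in atTop, c' ≤ l x * tau x ∧ 0 ≤ q1 x ∧ q1 x * tau x ≤ C ∧ 0 ≤ q2 x ∧ c * q2 x ≤ l x ^ 2) ∧
    ∀ (ι : Type) (_ : Fintype ι) (_ : DecidableEq ι) (h : ι → ℕ) (W b : ℕ), Good h W b → ∀ (K : ℝ) (A : ℕ),
      ∀ᶠ x : ℕ in atTop, ∀ y : Finset (ι × ℕ) → ℝ, Yok x δ θ K y →
        (∀ i, Mn ι W x * l x * My ι x δ (pr (Si x δ i) (fo gi) y) - x / Real.log x ^ A ≤
            ∑ n ∈ (AA h W b x).filter (fun n => mk x (n + h i)), Ly h x δ y n ^ 2 ∧
          ∑ n ∈ (AA h W b x).filter (fun n => mk x (n + h i)), Ly h x δ y n ^ 2 ≤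
            Mn ι W x * q1 x * My ι x δ (pr (Si x δ i) (fo gi) y) + x / Real.log x ^ A) ∧
        (∀ i j, i ≠ j →
          ∑ n ∈ (AA h W b x).filter (fun n => mk x (n + h i) ∧ mk x (n + h j)), Ly h x δ y n ^ 2 ≤
            Mn ι W x * q2 x * My ι x δ (pr (Si x δ i ∪ Si x δ j) (fo gi) y) + x / Real.log x ^ A)

end Pool.Agent.H36.IS

end

section

/-!
# IS BlkA: sums over subsets of a disjoint union and of a product
-/

set_option autoImplicit false

namespace Pool.Agent.H36.IS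

open Finset

theorem sum_pow_union {α : Type*} [DecidableEq α] {A B : Finset α} (h : Disjoint A B) (F : Finset α → ℝ) :
    ∑ R ∈ (A ∪ B).powerset, F R = ∑ R ∈ A.powerset, ∑ R' ∈ B.powerset, F (R ∪ R') := by
  rw [← Finset.sum_product']
  symm
  refine Finset.sum_bij' (fun p _ => p.1 ∪ p.2) (fun X _ => (X ∩ A, X ∩ B)) ?_ ?_ ?_ ?_ ?_
  · intro p hp
    obtain ⟨h1, h2⟩ := Finset.mem_product.1 hp
    exact Finset.mem_powerset.2 (Finset.union_subset_union (Finset.mem_powerset.1 h1)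
      (Finset.mem_powerset.1 h2))
  · intro X _
    exact Finset.mem_product.2 ⟨Finset.mem_powerset.2 Finset.inter_subset_right,
      Finset.mem_powerset.2 Finset.inter_subset_right⟩
  · intro p hp
    obtain ⟨h1, h2⟩ := Finset.mem_product.1 hp
    have h1' := Finset.mem_powerset.1 h1
    have h2' := Finset.mem_powerset.1 h2
    ext e
    · simp only [Finset.mem_inter, Finset.mem_union]
      constructor
      · rintro ⟨h3 | h3, h4⟩
        · exact h3
        · exact absurd (h2' h3) (Finset.disjoint_left.1 h h4)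
      · intro h3
        exact ⟨Or.inl h3, h1' h3⟩
    · simp only [Finset.mem_inter, Finset.mem_union]
      constructor
      · rintro ⟨h3 | h3, h4⟩
        · exact absurd h4 (Finset.disjoint_left.1 h (h1' h3))
        · exact h3
      · intro h3
        exact ⟨Or.inr h3, h2' h3⟩
  · intro X hX
    rw [← Finset.inter_union_distrib_left]
    exact Finset.inter_eq_left.2 (Finset.mem_powerset.1 hX)
  · intro p _
    rfl

variable {ι : Type} [DecidableEq ι]

/-- the component `i` of `R` -/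
def sec (R : Finset (ι × ℕ)) (i : ι) : Finset ℕ := (R.filter (fun e => e.1 = i)).image Prod.snd

theorem BlkA_mem_sec {R : Finset (ι × ℕ)} {i : ι} {p : ℕ} : p ∈ sec R i ↔ (i, p) ∈ R := by
  unfold sec
  simp only [Finset.mem_image, Finset.mem_filter]
  constructor
  · rintro ⟨⟨j, q⟩, ⟨h1, h2⟩, h3⟩
    simp only at h2 h3
    rw [← h2, ← h3]
    exact h1
  · intro h
    exact ⟨(i, p), ⟨h, rfl⟩, rfl⟩

theorem BlkA_sec_inj (R : Finset (ι × ℕ)) (i : ι) :
    Set.InjOn Prod.snd (↑(R.filter (fun e => e.1 = i)) : Set (ι × ℕ)) := by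
  rintro ⟨a, b⟩ h1 ⟨c, d⟩ h2 h3
  have h4 := (Finset.mem_filter.1 (Finset.mem_coe.1 h1)).2
  have h5 := (Finset.mem_filter.1 (Finset.mem_coe.1 h2)).2
  simp only at h3 h4 h5
  rw [h3, h4, h5]

theorem ell_sec [Fintype ι] (R : Finset (ι × ℕ)) (i : ι) : ell R i = lg (sec R i) := by
  unfold ell lg sec
  rw [Finset.sum_image (BlkA_sec_inj R i)]

theorem prod_sec (I : Finset ι) (P : Finset ℕ) (f : ℕ → ℝ) (R : Finset (ι × ℕ)) (hR : R ⊆ I ×ˢ P) :
    ∏ e ∈ R, f e.2 = ∏ i ∈ I, ∏ p ∈ sec R i, f p := by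
  have h1 : ∀ e ∈ R, e.1 ∈ I := fun e he => (Finset.mem_product.1 (hR he)).1
  rw [← Finset.prod_fiberwise_of_maps_to h1]
  refine Finset.prod_congr rfl fun i _ => ?_
  unfold sec
  rw [Finset.prod_image (BlkA_sec_inj R i)]

theorem BlkA_sum_single (i : ι) (P : Finset ℕ) (F : Finset ℕ → ℝ) :
    ∑ R ∈ (({i} : Finset ι) ×ˢ P).powerset, F (sec R i) = ∑ S ∈ P.powerset, F S := by
  refine Finset.sum_bij' (fun R _ => sec R i) (fun S _ => ({i} : Finset ι) ×ˢ S) ?_ ?_ ?_ ?_ ?_
  · intro R hR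
    refine Finset.mem_powerset.2 fun p hp => ?_
    exact (Finset.mem_product.1 (Finset.mem_powerset.1 hR (BlkA_mem_sec.1 hp))).2
  · intro S hS
    exact Finset.mem_powerset.2 (Finset.product_subset_product (Finset.Subset.refl _)
      (Finset.mem_powerset.1 hS))
  · intro R hR
    ext ⟨j, p⟩
    simp only [Finset.mem_product, Finset.mem_singleton]
    constructor
    · rintro ⟨h1, h2⟩
      rw [h1]
      exact BlkA_mem_sec.1 h2
    · intro h
      have h1 := (Finset.mem_product.1 (Finset.mem_powerset.1 hR h)).1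
      rw [Finset.mem_singleton] at h1
      simp only at h1
      exact ⟨h1, BlkA_mem_sec.2 (h1 ▸ h)⟩
  · intro S _
    ext p
    rw [BlkA_mem_sec]
    simp
  · intro R _
    rfl

theorem sum_pow_prod (I : Finset ι) (P : Finset ℕ) (F : ι → Finset ℕ → ℝ) :
    ∑ R ∈ (I ×ˢ P).powerset, ∏ i ∈ I, F i (sec R i) = ∏ i ∈ I, ∑ S ∈ P.powerset, F i S := by
  induction I using Finset.induction_on with
  | empty => simp
  | insert i I hi ih =>
    have h1 : (insert i I) ×ˢ P = (({i} : Finset ι) ×ˢ P) ∪ (I ×ˢ P) := by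
      rw [← Finset.union_product]
      rfl
    have hdis : Disjoint (({i} : Finset ι) ×ˢ P) (I ×ˢ P) := by
      rw [Finset.disjoint_left]
      rintro ⟨j, p⟩ h2 h3
      have h4 := (Finset.mem_product.1 h2).1
      have h5 := (Finset.mem_product.1 h3).1
      simp only [Finset.mem_singleton] at h4 h5
      exact hi (h4 ▸ h5)
    rw [h1, sum_pow_union hdis, Finset.prod_insert hi, ← ih, ← BlkA_sum_single i P (F i),
      Finset.sum_mul_sum]
    refine Finset.sum_congr rfl fun R hR => Finset.sum_congr rfl fun R' hR' => ?_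
    rw [Finset.prod_insert hi]
    have h6 : sec (R ∪ R') i = sec R i := by
      ext p
      rw [BlkA_mem_sec, BlkA_mem_sec, Finset.mem_union]
      constructor
      · rintro (h7 | h7)
        · exact h7
        · exact absurd (Finset.mem_product.1 (Finset.mem_powerset.1 hR' h7)).1 hi
      · exact Or.inl
    have h8 : ∏ j ∈ I, F j (sec (R ∪ R') j) = ∏ j ∈ I, F j (sec R' j) := by
      refine Finset.prod_congr rfl fun j hj => ?_
      congr 1
      ext p
      rw [BlkA_mem_sec, BlkA_mem_sec, Finset.mem_union]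
      constructor
      · rintro (h7 | h7)
        · have h9 := (Finset.mem_product.1 (Finset.mem_powerset.1 hR h7)).1
          rw [Finset.mem_singleton] at h9
          simp only at h9
          exact absurd (h9 ▸ hj) hi
        · exact h7
      · exact Or.inr
    rw [h6, h8]

end Pool.Agent.H36.IS

end

section

/-!
# IS BlkIn: one block
-/

set_option autoImplicit false

namespace Pool.Agent.H36.IS

open Finset

variable {ι : Type} [Fintype ι] [DecidableEq ι]

omit [Fintype ι] [DecidableEq ι] in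
theorem BlkIn_fo {e : ι × ℕ} (h : 2 ≤ e.2) : fo gi e = fn e.2 := by
  unfold fo gi fn
  have h1 : (2 : ℝ) ≤ e.2 := by exact_mod_cast h
  have h2 : (e.2 : ℝ) ≠ 0 := by linarith only [h1]
  have h3 : (e.2 : ℝ) - 1 ≠ 0 := by linarith only [h1]
  field_simp

theorem BlkIn_fn_nonneg {p : ℕ} (h : 2 ≤ p) : 0 ≤ fn p := by
  unfold fn
  have h1 : (2 : ℝ) ≤ p := by exact_mod_cast h
  have : 0 < (p : ℝ) - 1 := by linarith only [h1]
  positivity

theorem BlkIn_prod_nonneg {P S : Finset ℕ} (hP : ∀ p ∈ P, 2 ≤ p) (hS : S ⊆ P) : 0 ≤ ∏ p ∈ S, fn p :=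
  Finset.prod_nonneg fun p hp => BlkIn_fn_nonneg (hP p (hS hp))

omit [Fintype ι] in
theorem BlkIn_prod {J : Finset ι} {P : Finset ℕ} (hP : ∀ p ∈ P, 2 ≤ p) {R : Finset (ι × ℕ)} (hR : R ⊆ J ×ˢ P) :
    ∏ e ∈ R, fo gi e = ∏ i ∈ J, ∏ p ∈ sec R i, fn p := by
  rw [← prod_sec J P fn R hR]
  exact Finset.prod_congr rfl fun e he => BlkIn_fo (hP _ (Finset.mem_product.1 (hR he)).2)

omit [Fintype ι] in
theorem BlkIn_sec_sub {J : Finset ι} {P : Finset ℕ} {R : Finset (ι × ℕ)} (hR : R ⊆ J ×ˢ P) (i : ι) :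
    sec R i ⊆ P := fun _ hp => (Finset.mem_product.1 (hR (BlkA_mem_sec.1 hp))).2

theorem BlkIn_lg_nonneg (S : Finset ℕ) : 0 ≤ lg S :=
  Finset.sum_nonneg fun p _ => Real.log_natCast_nonneg p

theorem BlkIn_ell_union {J J' : Finset ι} {P : Finset ℕ} (hJ : Disjoint J J') {R A : Finset (ι × ℕ)}
    (hR : R ⊆ J ×ˢ P) (hA : A ⊆ J' ×ˢ P) :
    (∀ i ∈ J, ell (R ∪ A) i = ell R i) ∧ (∀ i ∈ J', ell (R ∪ A) i = ell A i) := by
  constructor
  · intro i hi
    rw [ell_sec, ell_sec]
    congr 1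
    ext p
    rw [BlkA_mem_sec, BlkA_mem_sec, Finset.mem_union]
    constructor
    · rintro (h | h)
      · exact h
      · exact absurd (Finset.mem_product.1 (hA h)).1 (Finset.disjoint_left.1 hJ hi)
    · exact Or.inl
  · intro i hi
    rw [ell_sec, ell_sec]
    congr 1
    ext p
    rw [BlkA_mem_sec, BlkA_mem_sec, Finset.mem_union]
    constructor
    · rintro (h | h)
      · exact absurd hi (Finset.disjoint_left.1 hJ (Finset.mem_product.1 (hR h)).1)
      · exact h
    · exact Or.inr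

omit [Fintype ι] in
theorem BlkIn_sdiff (I J : Finset ι) (P : Finset ℕ) : (I ×ˢ P) \ (J ×ˢ P) = (I \ J) ×ˢ P := by
  ext ⟨i, p⟩
  simp only [Finset.mem_sdiff, Finset.mem_product]
  tauto

/-- `MM` of a projection -/
theorem BlkIn_MM_pr {α : Type*} [DecidableEq α] (Q S : Finset α) (f : α → ℝ) (y : Finset α → ℝ) :
    MM Q f (pr S f y) = ∑ R ∈ (Q \ S).powerset,
      (∑ A ∈ S.powerset, y (R ∪ A) * ∏ e ∈ A, f e) ^ 2 * ∏ e ∈ R, f e := by
  unfold MM
  rw [← Finset.sum_subset (Finset.powerset_mono.2 (Finset.sdiff_subset : Q \ S ⊆ Q))]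
  · refine Finset.sum_congr rfl fun R hR => ?_
    unfold pr
    rw [if_pos]
    rw [Finset.disjoint_left]
    intro e he
    exact (Finset.mem_sdiff.1 (Finset.mem_powerset.1 hR he)).2
  · intro R hR hR2
    unfold pr
    rw [if_neg]
    · ring
    · intro hd
      apply hR2
      refine Finset.mem_powerset.2 fun e he => Finset.mem_sdiff.2
        ⟨Finset.mem_powerset.1 hR he, Finset.disjoint_left.1 hd he⟩

/-- the inner sum for a general set `J` of components -/
theorem BlkIn_inner {I J : Finset ι} (hJI : J ⊆ I) {P : Finset ℕ} (hP : ∀ p ∈ P, 2 ≤ p) (Y : ℝ → ℝ) (θ L : ℝ)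
    {R : Finset (ι × ℕ)} (hR : R ⊆ (I \ J) ×ˢ P) :
    ∑ A ∈ (J ×ˢ P).powerset, yblk I Y θ L (R ∪ A) * ∏ e ∈ A, fo gi e
      = (∏ j ∈ I \ J, Y (ell R j / L)) * ∑ A ∈ (J ×ˢ P).powerset,
        (if ∑ j ∈ I \ J, ell R j + ∑ j ∈ J, ell A j ≤ θ * L then 1 else 0) *
          ∏ j ∈ J, (Y (lg (sec A j) / L) * ∏ p ∈ sec A j, fn p) := by
  rw [Finset.mul_sum]
  refine Finset.sum_congr rfl fun A hA => ?_
  have hA' := Finset.mem_powerset.1 hA
  have hdis : Disjoint (I \ J) J := Finset.sdiff_disjoint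
  obtain ⟨h1, h2⟩ := BlkIn_ell_union hdis hR hA'
  unfold yblk
  have h3 : ∀ F : ι → ℝ, ∑ i ∈ I, F i = ∑ i ∈ I \ J, F i + ∑ i ∈ J, F i := fun F =>
    (Finset.sum_sdiff hJI).symm
  have h4 : ∀ F : ι → ℝ, ∏ i ∈ I, F i = (∏ i ∈ I \ J, F i) * ∏ i ∈ J, F i := fun F =>
    (Finset.prod_sdiff hJI).symm
  rw [h3, h4, BlkIn_prod hP hA', Finset.sum_congr rfl h1, Finset.sum_congr rfl h2,
    Finset.prod_congr rfl (fun i hi => by rw [h1 i hi] : ∀ i ∈ I \ J, Y (ell (R ∪ A) i / L) = Y (ell R i / L)),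
    Finset.prod_congr rfl (fun i hi => by rw [h2 i hi, ell_sec] :
      ∀ i ∈ J, Y (ell (R ∪ A) i / L) = Y (lg (sec A i) / L)), Finset.prod_mul_distrib]
  ring

theorem BlkIn_inner_nonneg {I J : Finset ι} {P : Finset ℕ} (hP : ∀ p ∈ P, 2 ≤ p) {Y : ℝ → ℝ}
    (hY : ∀ u, 0 ≤ Y u) (θ L : ℝ) (R : Finset (ι × ℕ)) :
    0 ≤ ∑ A ∈ (J ×ˢ P).powerset,
        (if ∑ j ∈ I \ J, ell R j + ∑ j ∈ J, ell A j ≤ θ * L then (1 : ℝ) else 0) *
          ∏ j ∈ J, (Y (lg (sec A j) / L) * ∏ p ∈ sec A j, fn p) := by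
  refine Finset.sum_nonneg fun A hA => ?_
  refine mul_nonneg (by split_ifs <;> norm_num) (Finset.prod_nonneg fun j _ => ?_)
  exact mul_nonneg (hY _) (BlkIn_prod_nonneg hP (BlkIn_sec_sub (Finset.mem_powerset.1 hA) j))

theorem BlkIn_inner_le {I J : Finset ι} {P : Finset ℕ} (hP : ∀ p ∈ P, 2 ≤ p) {Y : ℝ → ℝ}
    (hY : ∀ u, 0 ≤ Y u) (θ L : ℝ) (R : Finset (ι × ℕ)) :
    ∑ A ∈ (J ×ˢ P).powerset,
        (if ∑ j ∈ I \ J, ell R j + ∑ j ∈ J, ell A j ≤ θ * L then (1 : ℝ) else 0) *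
          ∏ j ∈ J, (Y (lg (sec A j) / L) * ∏ p ∈ sec A j, fn p) ≤ TT P Y L ^ J.card := by
  calc _ ≤ ∑ A ∈ (J ×ˢ P).powerset, ∏ j ∈ J, (Y (lg (sec A j) / L) * ∏ p ∈ sec A j, fn p) := by
        refine Finset.sum_le_sum fun A hA => ?_
        have h0 : 0 ≤ ∏ j ∈ J, (Y (lg (sec A j) / L) * ∏ p ∈ sec A j, fn p) :=
          Finset.prod_nonneg fun j _ => mul_nonneg (hY _)
            (BlkIn_prod_nonneg hP (BlkIn_sec_sub (Finset.mem_powerset.1 hA) j))
        split_ifs
        · rw [one_mul]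
        · rw [zero_mul]
          exact h0
    _ = TT P Y L ^ J.card := by
        rw [sum_pow_prod J P (fun _ S => Y (lg S / L) * ∏ p ∈ S, fn p), Finset.prod_const]
        rfl

theorem BlkIn_UU (J : Finset ι) {P : Finset ℕ} (hP : ∀ p ∈ P, 2 ≤ p) (Y : ℝ → ℝ) (L : ℝ) :
    ∑ R ∈ (J ×ˢ P).powerset, (∏ j ∈ J, Y (ell R j / L)) ^ 2 * ∏ e ∈ R, fo gi e = UU P Y L ^ J.card := by
  have h1 : ∀ R ∈ (J ×ˢ P).powerset, (∏ j ∈ J, Y (ell R j / L)) ^ 2 * ∏ e ∈ R, fo gi e
      = ∏ j ∈ J, (fun (_ : ι) (S : Finset ℕ) => Y (lg S / L) ^ 2 * ∏ p ∈ S, fn p) j (sec R j) := by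
    intro R hR
    rw [BlkIn_prod hP (Finset.mem_powerset.1 hR), ← Finset.prod_pow, ← Finset.prod_mul_distrib]
    refine Finset.prod_congr rfl fun j _ => ?_
    rw [ell_sec]
  rw [Finset.sum_congr rfl h1, sum_pow_prod J P (fun (_ : ι) (S : Finset ℕ) => Y (lg S / L) ^ 2 * ∏ p ∈ S, fn p),
    Finset.prod_const]
  rfl

/-- upper bound for the projection to the complement of `J` -/
theorem BlkIn_up {I J : Finset ι} (hJI : J ⊆ I) {P : Finset ℕ} (hP : ∀ p ∈ P, 2 ≤ p) {Y : ℝ → ℝ}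
    (hY : ∀ u, 0 ≤ Y u) (θ L : ℝ) :
    MM (I ×ˢ P) (fo gi) (pr (J ×ˢ P) (fo gi) (yblk I Y θ L)) ≤
      TT P Y L ^ (2 * J.card) * UU P Y L ^ (I.card - J.card) := by
  rw [BlkIn_MM_pr, BlkIn_sdiff, ← Finset.card_sdiff_of_subset hJI, ← BlkIn_UU (I \ J) hP Y L, Finset.mul_sum]
  refine Finset.sum_le_sum fun R hR => ?_
  have hR' := Finset.mem_powerset.1 hR
  rw [BlkIn_inner hJI hP Y θ L hR', mul_pow]
  have h1 := BlkIn_inner_nonneg (I := I) (J := J) hP hY θ L R
  have h2 := BlkIn_inner_le (I := I) (J := J) hP hY θ L R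
  have h3 : 0 ≤ ∏ e ∈ R, fo gi e := by
    rw [BlkIn_prod hP hR']
    exact Finset.prod_nonneg fun i _ => BlkIn_prod_nonneg hP (BlkIn_sec_sub hR' i)
  calc _ ≤ (∏ j ∈ I \ J, Y (ell R j / L)) ^ 2 * (TT P Y L ^ J.card) ^ 2 * ∏ e ∈ R, fo gi e := by
        refine mul_le_mul_of_nonneg_right (mul_le_mul_of_nonneg_left ?_ (sq_nonneg _)) h3
        exact pow_le_pow_left₀ h1 h2 2
    _ = TT P Y L ^ (2 * J.card) * ((∏ j ∈ I \ J, Y (ell R j / L)) ^ 2 * ∏ e ∈ R, fo gi e) := by
        ring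

theorem blkin_up (I : Finset ι) (P : Finset ℕ) (hP : ∀ p ∈ P, 2 ≤ p) (Y : ℝ → ℝ) (hY : ∀ u, 0 ≤ Y u) (θ L : ℝ)
    (hL : 0 < L) :
    MM (I ×ˢ P) (fo gi) (yblk I Y θ L) ≤ UU P Y L ^ I.card := by
  have _ := hL
  have h1 := BlkIn_up (Finset.empty_subset I) hP hY θ L
  rw [Finset.card_empty, mul_zero, pow_zero, one_mul, Nat.sub_zero] at h1
  refine le_of_eq_of_le ?_ h1
  unfold MM
  refine Finset.sum_congr rfl fun R _ => ?_
  congr 2
  unfold pr
  rw [Finset.empty_product, if_pos (Finset.disjoint_empty_right _)]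
  simp

theorem blkin_pr_up (I : Finset ι) (P : Finset ℕ) (hP : ∀ p ∈ P, 2 ≤ p) (Y : ℝ → ℝ) (hY : ∀ u, 0 ≤ Y u) (θ L : ℝ)
    (hL : 0 < L) (i : ι) (hi : i ∈ I) :
    MM (I ×ˢ P) (fo gi) (pr ({i} ×ˢ P) (fo gi) (yblk I Y θ L)) ≤ TT P Y L ^ 2 * UU P Y L ^ (I.card - 1) := by
  have _ := hL
  have h1 := BlkIn_up (Finset.singleton_subset_iff.2 hi) hP hY θ L
  rw [Finset.card_singleton, mul_one] at h1
  exact h1

theorem blkin_pr_low (I : Finset ι) (P : Finset ℕ) (hP : ∀ p ∈ P, 2 ≤ p) (Y : ℝ → ℝ) (hY : ∀ u, 0 ≤ Y u) (θ L : ℝ)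
    (hL : 0 < L) (hθ : 0 < θ) (hYs : ∀ u, Y u ≠ 0 → u ≤ θ / 2) (i : ι) (hi : i ∈ I) :
    TT P Y L ^ 2 * (UU P Y L ^ (I.card - 1) -
      ((I.card : ℝ) - 1) * UU P Y L ^ (I.card - 2) * (2 * LL P Y L / (θ * L))) ≤
      MM (I ×ˢ P) (fo gi) (pr ({i} ×ˢ P) (fo gi) (yblk I Y θ L)) := by
  have hJI : ({i} : Finset ι) ⊆ I := Finset.singleton_subset_iff.2 hi
  have hθL : 0 < θ * L := mul_pos hθ hL
  set I' : Finset ι := I \ {i} with hI'
  have hcard : I'.card = I.card - 1 := by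
    rw [hI', Finset.card_sdiff_of_subset hJI, Finset.card_singleton]
  have hcard1 : 1 ≤ I.card := Finset.card_pos.2 ⟨i, hi⟩
  -- the Markov term
  have hLam : ∀ j ∈ I', ∑ R ∈ (I' ×ˢ P).powerset,
      ell R j * ((∏ l ∈ I', Y (ell R l / L)) ^ 2 * ∏ e ∈ R, fo gi e) = LL P Y L * UU P Y L ^ (I.card - 2) := by
    intro j hj
    have h1 : ∀ R ∈ (I' ×ˢ P).powerset, ell R j * ((∏ l ∈ I', Y (ell R l / L)) ^ 2 * ∏ e ∈ R, fo gi e)
        = ∏ l ∈ I', (fun (l : ι) (S : Finset ℕ) =>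
            (if l = j then lg S else 1) * (Y (lg S / L) ^ 2 * ∏ p ∈ S, fn p)) l (sec R l) := by
      intro R hR
      rw [BlkIn_prod hP (Finset.mem_powerset.1 hR), ← Finset.prod_pow, ← Finset.prod_mul_distrib]
      simp only
      rw [Finset.prod_mul_distrib (f := fun l => if l = j then lg (sec R l) else 1),
        Finset.prod_ite_eq' I' j (fun l => lg (sec R l)), if_pos hj, ell_sec]
      congr 1
      refine Finset.prod_congr rfl fun l _ => ?_
      rw [ell_sec]
    rw [Finset.sum_congr rfl h1, sum_pow_prod I' P (fun (l : ι) (S : Finset ℕ) =>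
            (if l = j then lg S else 1) * (Y (lg S / L) ^ 2 * ∏ p ∈ S, fn p)), ← Finset.mul_prod_erase I' _ hj]
    have h2 : ∑ S ∈ P.powerset, (if j = j then lg S else 1) * (Y (lg S / L) ^ 2 * ∏ p ∈ S, fn p) = LL P Y L := by
      unfold LL
      refine Finset.sum_congr rfl fun S _ => ?_
      rw [if_pos rfl]
      ring
    have h3 : ∏ l ∈ I'.erase j, ∑ S ∈ P.powerset,
        (if l = j then lg S else 1) * (Y (lg S / L) ^ 2 * ∏ p ∈ S, fn p) = UU P Y L ^ (I.card - 2) := by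
      rw [show I.card - 2 = (I'.erase j).card by rw [Finset.card_erase_of_mem hj, hcard]; omega,
        ← Finset.prod_const]
      refine Finset.prod_congr rfl fun l hl => ?_
      unfold UU
      refine Finset.sum_congr rfl fun S _ => ?_
      rw [if_neg (Finset.ne_of_mem_erase hl), one_mul]
    rw [h2, h3]
  rw [BlkIn_MM_pr, BlkIn_sdiff, ← hI', ← hcard, ← BlkIn_UU I' hP Y L]
  have hMar : ((I.card : ℝ) - 1) * UU P Y L ^ (I.card - 2) * (2 * LL P Y L / (θ * L))
      = ∑ R ∈ (I' ×ˢ P).powerset, (2 * (∑ j ∈ I', ell R j) / (θ * L)) *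
          ((∏ l ∈ I', Y (ell R l / L)) ^ 2 * ∏ e ∈ R, fo gi e) := by
    have h1 : ∀ R ∈ (I' ×ˢ P).powerset, (2 * (∑ j ∈ I', ell R j) / (θ * L)) *
          ((∏ l ∈ I', Y (ell R l / L)) ^ 2 * ∏ e ∈ R, fo gi e)
        = (2 / (θ * L)) * ∑ j ∈ I', ell R j * ((∏ l ∈ I', Y (ell R l / L)) ^ 2 * ∏ e ∈ R, fo gi e) := by
      intro R _
      rw [← Finset.sum_mul]
      ring
    rw [Finset.sum_congr rfl h1, ← Finset.mul_sum, Finset.sum_comm, Finset.sum_congr rfl hLam,
      Finset.sum_const, hcard, nsmul_eq_mul, Nat.cast_sub hcard1, Nat.cast_one]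
    ring
  rw [hMar, ← Finset.sum_sub_distrib, Finset.mul_sum]
  refine Finset.sum_le_sum fun R hR => ?_
  have hR' := Finset.mem_powerset.1 hR
  rw [BlkIn_inner hJI hP Y θ L hR', ← hI', mul_pow]
  set D : ℝ := ∏ l ∈ I', Y (ell R l / L) with hD
  have h3 : 0 ≤ ∏ e ∈ R, fo gi e := by
    rw [BlkIn_prod hP hR']
    exact Finset.prod_nonneg fun i _ => BlkIn_prod_nonneg hP (BlkIn_sec_sub hR' i)
  have h4 : 0 ≤ D ^ 2 * ∏ e ∈ R, fo gi e := mul_nonneg (sq_nonneg _) h3
  have h5 : 0 ≤ ∑ j ∈ I', ell R j := Finset.sum_nonneg fun j _ => by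
    rw [ell_sec]
    exact BlkIn_lg_nonneg _
  by_cases hsmall : ∑ j ∈ I', ell R j ≤ θ * L / 2
  · -- the inner sum is `T`
    have hin : ∑ A ∈ (({i} : Finset ι) ×ˢ P).powerset,
        (if ∑ j ∈ I', ell R j + ∑ j ∈ {i}, ell A j ≤ θ * L then (1 : ℝ) else 0) *
          ∏ j ∈ {i}, (Y (lg (sec A j) / L) * ∏ p ∈ sec A j, fn p) = TT P Y L := by
      have h6 : ∀ A ∈ (({i} : Finset ι) ×ˢ P).powerset,
        (if ∑ j ∈ I', ell R j + ∑ j ∈ {i}, ell A j ≤ θ * L then (1 : ℝ) else 0) *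
          ∏ j ∈ {i}, (Y (lg (sec A j) / L) * ∏ p ∈ sec A j, fn p)
          = (fun S => Y (lg S / L) * ∏ p ∈ S, fn p) (sec A i) := by
        intro A _
        rw [Finset.prod_singleton, Finset.sum_singleton]
        by_cases hz : Y (lg (sec A i) / L) = 0
        · simp only [hz, zero_mul, mul_zero]
        · have h7 := hYs _ hz
          rw [div_le_iff₀ hL] at h7
          rw [if_pos, one_mul]
          rw [ell_sec]
          linarith only [hsmall, h7]
      rw [Finset.sum_congr rfl h6, BlkA_sum_single i P (fun S => Y (lg S / L) * ∏ p ∈ S, fn p)]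
      rfl
    rw [hin]
    have h8 : 0 ≤ (2 * (∑ j ∈ I', ell R j) / (θ * L)) * (D ^ 2 * ∏ e ∈ R, fo gi e) :=
      mul_nonneg (by positivity) h4
    have h9 : TT P Y L ^ 2 * (D ^ 2 * ∏ e ∈ R, fo gi e -
        (2 * (∑ j ∈ I', ell R j) / (θ * L)) * (D ^ 2 * ∏ e ∈ R, fo gi e))
        ≤ TT P Y L ^ 2 * (D ^ 2 * ∏ e ∈ R, fo gi e) :=
      mul_le_mul_of_nonneg_left (by linarith only [h8]) (sq_nonneg _)
    calc _ ≤ TT P Y L ^ 2 * (D ^ 2 * ∏ e ∈ R, fo gi e) := h9
      _ = _ := by ring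
  · push Not at hsmall
    have h10 : 1 ≤ 2 * (∑ j ∈ I', ell R j) / (θ * L) := by
      rw [le_div_iff₀ hθL]
      linarith only [hsmall]
    have h11 : TT P Y L ^ 2 * (D ^ 2 * ∏ e ∈ R, fo gi e -
        (2 * (∑ j ∈ I', ell R j) / (θ * L)) * (D ^ 2 * ∏ e ∈ R, fo gi e)) ≤ 0 := by
      refine mul_nonpos_of_nonneg_of_nonpos (sq_nonneg _) ?_
      have := mul_le_mul_of_nonneg_right h10 h4
      linarith only [this]
    refine h11.trans ?_
    exact mul_nonneg (mul_nonneg (sq_nonneg _) (sq_nonneg _)) h3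

theorem blkin_pr2_up (I : Finset ι) (P : Finset ℕ) (hP : ∀ p ∈ P, 2 ≤ p) (Y : ℝ → ℝ) (hY : ∀ u, 0 ≤ Y u) (θ L : ℝ)
    (hL : 0 < L) (i j : ι) (hi : i ∈ I) (hj : j ∈ I) (hij : i ≠ j) :
    MM (I ×ˢ P) (fo gi) (pr ({i} ×ˢ P ∪ {j} ×ˢ P) (fo gi) (yblk I Y θ L)) ≤
      TT P Y L ^ 4 * UU P Y L ^ (I.card - 2) := by
  have _ := hL
  have hsub : ({i, j} : Finset ι) ⊆ I := by
    intro l hl
    rcases Finset.mem_insert.1 hl with h | h
    · rw [h]
      exact hi
    · rw [Finset.mem_singleton.1 h]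
      exact hj
  have h1 := BlkIn_up hsub hP hY θ L
  rw [Finset.card_pair hij] at h1
  have h2 : ({i} : Finset ι) ×ˢ P ∪ {j} ×ˢ P = ({i, j} : Finset ι) ×ˢ P := by
    rw [← Finset.union_product]
    rfl
  rw [h2]
  exact h1

end Pool.Agent.H36.IS

end

section

/-!
# IS BlkMain: the full weight function, seen from one block
-/

set_option autoImplicit false

namespace Pool.Agent.H36.IS

open Finset

theorem BlkMain_MM {α : Type*} [DecidableEq α] {Q1 Q2 : Finset α} (h12 : Disjoint Q1 Q2) (f : α → ℝ)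
    {y u v : Finset α → ℝ} (hy : ∀ R ⊆ Q1, ∀ R' ⊆ Q2, y (R ∪ R') = u R * v R') :
    MM (Q1 ∪ Q2) f y = MM Q1 f u * ∑ R' ∈ Q2.powerset, v R' ^ 2 * ∏ e ∈ R', f e := by
  unfold MM
  rw [sum_pow_union h12, Finset.sum_mul_sum]
  refine Finset.sum_congr rfl fun R hR => Finset.sum_congr rfl fun R' hR' => ?_
  have h1 := Finset.mem_powerset.1 hR
  have h2 := Finset.mem_powerset.1 hR'
  rw [hy R h1 R' h2, Finset.prod_union
    (Finset.disjoint_of_subset_left h1 (Finset.disjoint_of_subset_right h2 h12))]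
  ring

theorem BlkMain_pr {α : Type*} [DecidableEq α] {Q1 Q2 S : Finset α} (h12 : Disjoint Q1 Q2) (hS : S ⊆ Q1) (f : α → ℝ)
    {y u v : Finset α → ℝ} (hy : ∀ R ⊆ Q1, ∀ R' ⊆ Q2, y (R ∪ R') = u R * v R') :
    ∀ R ⊆ Q1, ∀ R' ⊆ Q2, pr S f y (R ∪ R') = pr S f u R * v R' := by
  intro R hR R' hR'
  have hd : Disjoint (R ∪ R') S ↔ Disjoint R S := by
    rw [Finset.disjoint_union_left]
    refine ⟨fun h => h.1, fun h => ⟨h, ?_⟩⟩
    exact (Finset.disjoint_of_subset_left hS (Finset.disjoint_of_subset_right hR' h12)).symm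
  unfold pr
  by_cases hR0 : Disjoint R S
  · rw [if_pos (hd.2 hR0), if_pos hR0, Finset.sum_mul]
    refine Finset.sum_congr rfl fun A hA => ?_
    have h1 : R ∪ R' ∪ A = (R ∪ A) ∪ R' := Finset.union_right_comm _ _ _
    rw [h1, hy (R ∪ A) (Finset.union_subset hR ((Finset.mem_powerset.1 hA).trans hS)) R' hR']
    ring
  · rw [if_neg (fun h => hR0 (hd.1 h)), if_neg hR0, zero_mul]

theorem BlkMain_one_le_prod {α : Type*} (s : Finset α) (f : α → ℝ) (h : ∀ i ∈ s, 1 ≤ f i) :
    1 ≤ ∏ i ∈ s, f i := by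
  calc (1 : ℝ) = ∏ _i ∈ s, 1 := by simp
    _ ≤ _ := Finset.prod_le_prod (fun _ _ => zero_le_one) h

variable {ι : Type} [Fintype ι] [DecidableEq ι]

theorem BlkMain_yblk_congr {I : Finset ι} {Y : ℝ → ℝ} {θ L : ℝ} {R R' : Finset (ι × ℕ)}
    (h : ∀ i ∈ I, ell R i = ell R' i) : yblk I Y θ L R = yblk I Y θ L R' := by
  unfold yblk
  rw [Finset.sum_congr rfl h, Finset.prod_congr rfl (fun i hi => by rw [h i hi])]

theorem BlkMain_yblk_nonneg {I : Finset ι} {Y : ℝ → ℝ} (hY : ∀ u, 0 ≤ Y u) (θ L : ℝ) (R : Finset (ι × ℕ)) :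
    0 ≤ yblk I Y θ L R := by
  unfold yblk
  exact mul_nonneg (by split_ifs <;> norm_num) (Finset.prod_nonneg fun i _ => hY _)

theorem BlkMain_ell_empty (i : ι) : ell (∅ : Finset (ι × ℕ)) i = 0 := by
  unfold ell
  simp

theorem blk_main {r : ℕ} (blk : ι → Fin r) (P : Finset ℕ) (hP : ∀ p ∈ P, 2 ≤ p) (Y : Fin r → ℝ → ℝ)
    (hY : ∀ s u, 0 ≤ Y s u) (hY1 : ∀ s, 1 ≤ Y s 0) (θ : Fin r → ℝ) (hθ : ∀ s, 0 < θ s) (L : ℝ) (hL : 0 < L)
    (hYs : ∀ s u, Y s u ≠ 0 → u ≤ θ s / 2) (s : Fin r) :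
    ∃ Q : ℝ, 1 ≤ Q ∧
      MM (univ ×ˢ P) (fo gi) (yfull blk P Y θ L) ≤ UU P (Y s) L ^ (blkF blk s).card * Q ∧
      (∀ i ∈ blkF blk s,
        TT P (Y s) L ^ 2 * (UU P (Y s) L ^ ((blkF blk s).card - 1) -
          (((blkF blk s).card : ℝ) - 1) * UU P (Y s) L ^ ((blkF blk s).card - 2) *
            (2 * LL P (Y s) L / (θ s * L))) * Q ≤
          MM (univ ×ˢ P) (fo gi) (pr ({i} ×ˢ P) (fo gi) (yfull blk P Y θ L)) ∧
        MM (univ ×ˢ P) (fo gi) (pr ({i} ×ˢ P) (fo gi) (yfull blk P Y θ L)) ≤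
          TT P (Y s) L ^ 2 * UU P (Y s) L ^ ((blkF blk s).card - 1) * Q) ∧
      (∀ i ∈ blkF blk s, ∀ j ∈ blkF blk s, i ≠ j →
        MM (univ ×ˢ P) (fo gi) (pr ({i} ×ˢ P ∪ {j} ×ˢ P) (fo gi) (yfull blk P Y θ L)) ≤
          TT P (Y s) L ^ 4 * UU P (Y s) L ^ ((blkF blk s).card - 2) * Q) := by
  classical
  set I : Finset ι := blkF blk s with hI
  set Q1 : Finset (ι × ℕ) := I ×ˢ P with hQ1
  set Q2 : Finset (ι × ℕ) := Iᶜ ×ˢ P with hQ2
  have h12 : Disjoint Q1 Q2 := by
    rw [Finset.disjoint_left]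
    rintro ⟨i, p⟩ h1 h2
    exact (Finset.mem_compl.1 (Finset.mem_product.1 h2).1) (Finset.mem_product.1 h1).1
  have huni : (univ : Finset ι) ×ˢ P = Q1 ∪ Q2 := by
    rw [hQ1, hQ2, ← Finset.union_product, Finset.union_compl]
  let v : Finset (ι × ℕ) → ℝ := fun R' => ∏ s' ∈ univ.erase s, yblk (blkF blk s') (Y s') (θ s') L R'
  have hmem : ∀ i s', i ∈ blkF blk s' ↔ blk i = s' := by
    intro i s'
    unfold blkF
    simp
  have hy : ∀ R ⊆ Q1, ∀ R' ⊆ Q2, yfull blk P Y θ L (R ∪ R') = yblk I (Y s) (θ s) L R * v R' := by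
    intro R hR R' hR'
    obtain ⟨e1, e2⟩ := BlkIn_ell_union (disjoint_compl_right : Disjoint I Iᶜ) hR hR'
    unfold yfull
    rw [if_pos (by rw [huni]; exact Finset.union_subset_union hR hR'),
      ← Finset.mul_prod_erase univ _ (Finset.mem_univ s)]
    congr 1
    · exact BlkMain_yblk_congr e1
    · refine Finset.prod_congr rfl fun s' hs' => BlkMain_yblk_congr fun i hi => e2 i ?_
      rw [Finset.mem_compl]
      intro hi2
      have h3 := (hmem i s').1 hi
      have h4 := (hmem i s).1 hi2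
      exact (Finset.ne_of_mem_erase hs') (h3.symm.trans h4)
  let Q : ℝ := ∑ R' ∈ Q2.powerset, v R' ^ 2 * ∏ e ∈ R', fo gi e
  have hQ1' : 1 ≤ Q := by
    have h1 : v ∅ ^ 2 * ∏ e ∈ (∅ : Finset (ι × ℕ)), fo gi e ≤ Q := by
      refine Finset.single_le_sum (f := fun R' => v R' ^ 2 * ∏ e ∈ R', fo gi e) ?_
        (Finset.empty_mem_powerset _)
      intro R' hR'
      have hR'' := Finset.mem_powerset.1 hR'
      refine mul_nonneg (sq_nonneg _) ?_
      rw [BlkIn_prod hP hR'']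
      exact Finset.prod_nonneg fun i _ => BlkIn_prod_nonneg hP (BlkIn_sec_sub hR'' i)
    have h2 : 1 ≤ v ∅ := by
      refine BlkMain_one_le_prod _ _ ?_
      intro s' _
      unfold yblk
      simp only [BlkMain_ell_empty, Finset.sum_const_zero, zero_div]
      rw [if_pos (mul_pos (hθ s') hL).le, one_mul]
      exact BlkMain_one_le_prod _ _ fun i _ => hY1 s'
    rw [Finset.prod_empty, mul_one] at h1
    exact le_trans (one_le_pow₀ h2) h1
  have hQ0 : 0 ≤ Q := zero_le_one.trans hQ1'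
  have key : ∀ S ⊆ Q1, MM (univ ×ˢ P) (fo gi) (pr S (fo gi) (yfull blk P Y θ L))
      = MM Q1 (fo gi) (pr S (fo gi) (yblk I (Y s) (θ s) L)) * Q := by
    intro S hS
    rw [huni]
    exact BlkMain_MM h12 (fo gi) (BlkMain_pr h12 hS (fo gi) hy)
  have hsi : ∀ i ∈ I, ({i} : Finset ι) ×ˢ P ⊆ Q1 := fun i hi =>
    Finset.product_subset_product (Finset.singleton_subset_iff.2 hi) (Finset.Subset.refl _)
  refine ⟨Q, hQ1', ?_, ?_, ?_⟩
  · rw [huni, BlkMain_MM h12 (fo gi) hy]
    exact mul_le_mul_of_nonneg_right (blkin_up I P hP (Y s) (hY s) (θ s) L hL) hQ0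
  · intro i hi
    rw [key _ (hsi i hi)]
    exact ⟨mul_le_mul_of_nonneg_right
      (blkin_pr_low I P hP (Y s) (hY s) (θ s) L hL (hθ s) (hYs s) i hi) hQ0,
      mul_le_mul_of_nonneg_right (blkin_pr_up I P hP (Y s) (hY s) (θ s) L hL i hi) hQ0⟩
  · intro i hi j hj hij
    rw [key _ (Finset.union_subset (hsi i hi) (hsi j hj))]
    exact mul_le_mul_of_nonneg_right (blkin_pr2_up I P hP (Y s) (hY s) (θ s) L hL i j hi hj hij) hQ0

theorem BlkMain_Yp_nonneg (I : ℕ) (θ u : ℝ) : 0 ≤ Yp I θ u := by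
  unfold Yp
  refine Finset.sum_nonneg fun i _ => ?_
  split_ifs
  · positivity
  · exact le_refl _

theorem BlkMain_Yp_le (I : ℕ) (θ u : ℝ) : Yp I θ u ≤ 2 := by
  unfold Yp
  calc _ ≤ ∑ i ∈ range (I + 1), ((1 : ℝ) / 2) ^ i := by
        refine Finset.sum_le_sum fun i _ => ?_
        split_ifs
        · exact le_refl _
        · positivity
    _ ≤ 2 := sum_geometric_two_le _

theorem yfull_ok {r : ℕ} (blk : ι → Fin r) (x : ℕ) (hx : 3 ≤ x) (δ θ : ℝ) (I : Fin r → ℕ) (t : Fin r → ℝ)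
    (ht : ∀ s, 0 < t s) (hsum : ∑ s, t s ≤ θ) :
    Yok x δ θ (2 ^ Fintype.card ι) (yfull blk (PZ x δ) (fun s => Yp (I s) (t s)) t (Real.log x)) := by
  have _ := ht
  intro R
  have hnn : ∀ s, 0 ≤ yblk (blkF blk s) (Yp (I s) (t s)) (t s) (Real.log x) R := fun s =>
    BlkMain_yblk_nonneg (BlkMain_Yp_nonneg _ _) _ _ _
  refine ⟨?_, ?_, ?_⟩
  · unfold yfull
    split_ifs
    · exact Finset.prod_nonneg fun s _ => hnn s
    · exact le_refl _
  · unfold yfull
    split_ifs
    · calc _ ≤ ∏ s : Fin r, ∏ _i ∈ blkF blk s, (2 : ℝ) := by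
            refine Finset.prod_le_prod (fun s _ => hnn s) fun s _ => ?_
            unfold yblk
            calc _ ≤ 1 * ∏ i ∈ blkF blk s, Yp (I s) (t s) (ell R i / Real.log x) := by
                  refine mul_le_mul_of_nonneg_right ?_
                    (Finset.prod_nonneg fun i _ => BlkMain_Yp_nonneg _ _ _)
                  split_ifs <;> norm_num
              _ ≤ ∏ _i ∈ blkF blk s, (2 : ℝ) := by
                  rw [one_mul]
                  exact Finset.prod_le_prod (fun i _ => BlkMain_Yp_nonneg _ _ _)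
                    fun i _ => BlkMain_Yp_le _ _ _
        _ = 2 ^ Fintype.card ι := by
            unfold blkF
            rw [Finset.prod_fiberwise, Finset.prod_const]
            rfl
    · positivity
  · intro hne
    unfold yfull at hne
    have hR : R ⊆ univ ×ˢ PZ x δ := by
      by_contra h
      exact hne (if_neg h)
    rw [if_pos hR] at hne
    refine ⟨hR, ?_⟩
    have hL : 0 < Real.log x := Real.log_pos (by
      have : (3 : ℝ) ≤ x := by exact_mod_cast hx
      linarith only [this])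
    have hx0 : (0 : ℝ) < x := by
      have : (3 : ℝ) ≤ x := by exact_mod_cast hx
      linarith only [this]
    have hblk : ∀ s : Fin r, ∑ i ∈ blkF blk s, ell R i ≤ t s * Real.log x := by
      intro s
      have h1 : yblk (blkF blk s) (Yp (I s) (t s)) (t s) (Real.log x) R ≠ 0 :=
        (Finset.prod_ne_zero_iff.1 hne) s (Finset.mem_univ s)
      by_contra h2
      unfold yblk at h1
      rw [if_neg h2, zero_mul] at h1
      exact h1 rfl
    have hpos : ∀ e ∈ R, (0 : ℝ) < e.2 := by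
      intro e he
      have h1 := (Finset.mem_product.1 (hR he)).2
      unfold PZ PX at h1
      have h2 := (Finset.mem_filter.1 (Finset.mem_filter.1 h1).1).2.1
      exact_mod_cast h2.pos
    have htot : ∑ e ∈ R, Real.log (e.2 : ℝ) ≤ θ * Real.log x := by
      have h1 : ∑ e ∈ R, Real.log (e.2 : ℝ) = ∑ i : ι, ell R i := by
        unfold ell
        rw [Finset.sum_fiberwise]
      have h2 : ∑ i : ι, ell R i = ∑ s : Fin r, ∑ i ∈ blkF blk s, ell R i := by
        unfold blkF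
        rw [Finset.sum_fiberwise]
      rw [h1, h2]
      calc _ ≤ ∑ s : Fin r, t s * Real.log x := Finset.sum_le_sum fun s _ => hblk s
        _ = (∑ s : Fin r, t s) * Real.log x := by rw [Finset.sum_mul]
        _ ≤ θ * Real.log x := mul_le_mul_of_nonneg_right hsum hL.le
    have hprod : (0 : ℝ) < ∏ e ∈ R, (e.2 : ℝ) := Finset.prod_pos hpos
    rw [← Real.log_le_log_iff hprod (Real.rpow_pos_of_pos hx0 _),
      Real.log_prod (fun e he => (hpos e he).ne'), Real.log_rpow hx0]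
    exact htot

end Pool.Agent.H36.IS

end

section

/-!
# IS ToStep: choice of the progression

`bigmod`: let Adm W a S and w be given.  For each prime p ≤ w with p ∤ W choose (|S| < p) a residue c_p with p ∤ c_p + h for all
h ∈ S; W' = W ∏ p, b ≡ a mod W, b ≡ c_p mod p (CRT; W and the p are coprime).  Every prime divisor of W' is a prime divisor of W
(and p ∤ a + h, b ≡ a) or one of the new p; so b + h is coprime to W'.
`toStep`: ι = {n // n ∈ S}, S = univ.biUnion B, h = Subtype.val, w = max (S.sup id) S.card + 1, blk = the s with h ∈ B s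
(B s pairwise disjoint), blkF blk s ↔ B s, so κ s ≤ (blkF blk s).card.  Good: a prime p ∤ W' is > w, so > |ι| and > |h i - h j| > 0.
n ≡ b mod W' implies n ≡ a mod W.  {n : ∃ i, blk i = s ∧ R (n + h i)} = {n : ∃ h ∈ B s, R (n + h)}.
-/

set_option autoImplicit false

namespace Pool.Agent.H36.IS

open Finset

private lemma ToStep_aux {W a : ℕ} {S : Finset ℕ} (hA : Adm W a S) (P : Finset ℕ)
    (hP : ∀ p ∈ P, p.Prime ∧ ¬ p ∣ W) :
    ∃ W' b : ℕ, 0 < W' ∧ W ∣ W' ∧ b ≡ a [MOD W] ∧ (∀ p ∈ P, p ∣ W') ∧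
      (∀ p : ℕ, p.Prime → p ∣ W' → p ∣ W ∨ p ∈ P) ∧ ∀ h ∈ S, Nat.Coprime (b + h) W' := by
  classical
  obtain ⟨hW, hA1, hA2⟩ := hA
  induction P using Finset.induction_on with
  | empty =>
    refine ⟨W, a, hW, dvd_rfl, Nat.ModEq.refl _, by simp, fun p _ h => Or.inl h, ?_⟩
    intro h hh
    by_contra hcon
    obtain ⟨p, hp, h1, h2⟩ := Nat.Prime.not_coprime_iff_dvd.1 hcon
    exact hA1 p hp h2 h hh h1
  | insert q P hq ih =>
    obtain ⟨W', b, h1, h2, h3, h4, h5, h6⟩ := ih (fun p hp => hP p (Finset.mem_insert_of_mem hp))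
    obtain ⟨hqp, hqW⟩ := hP q (Finset.mem_insert_self _ _)
    have hco : Nat.Coprime W' q := by
      rw [Nat.coprime_comm, hqp.coprime_iff_not_dvd]
      intro hdvd
      rcases h5 q hqp hdvd with h | h
      · exact hqW h
      · exact hq h
    -- a residue
    obtain ⟨c, hc⟩ : ∃ c : ℕ, ∀ h ∈ S, ¬ q ∣ c + h := by
      have hcard : (S.image (fun h => (q - h % q) % q)).card < (Finset.range q).card := by
        rw [Finset.card_range]
        exact Finset.card_image_le.trans_lt (hA2 q hqp hqW)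
      obtain ⟨c, hc1, hc2⟩ := Finset.exists_mem_notMem_of_card_lt_card hcard
      refine ⟨c, fun h hh hdvd => hc2 ?_⟩
      rw [Finset.mem_image]
      refine ⟨h, hh, ?_⟩
      rw [Finset.mem_range] at hc1
      have hq0 := hqp.pos
      have hr := Nat.mod_lt h hq0
      have e1 : (c + h % q) % q = 0 := by
        rw [Nat.add_mod_mod]
        exact Nat.mod_eq_zero_of_dvd hdvd
      rcases Nat.eq_zero_or_pos (h % q) with h0 | h0
      · rw [h0, Nat.sub_zero, Nat.mod_self]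
        rw [h0, Nat.add_zero, Nat.mod_eq_of_lt hc1] at e1
        exact e1.symm
      · rw [Nat.mod_eq_of_lt (by omega : q - h % q < q)]
        obtain ⟨t, ht⟩ := Nat.dvd_of_mod_eq_zero e1
        have ht1 : t = 1 := by
          have hlt : q * t < q * 2 := by omega
          have h2t : t < 2 := Nat.lt_of_mul_lt_mul_left hlt
          have h0t : t ≠ 0 := by
            rintro rfl
            omega
          omega
        rw [ht1] at ht
        omega
    obtain ⟨b', hb1, hb2⟩ := Nat.chineseRemainder hco b c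
    refine ⟨W' * q, b', Nat.mul_pos h1 hqp.pos, h2.mul_right q, ?_, ?_, ?_, ?_⟩
    · exact (hb1.of_dvd h2).trans h3
    · intro p hp
      rcases Finset.mem_insert.1 hp with rfl | hp
      · exact dvd_mul_left _ _
      · exact (h4 p hp).mul_right q
    · intro p hp hdvd
      rcases (Nat.Prime.dvd_mul hp).1 hdvd with h | h
      · rcases h5 p hp h with h | h
        · exact Or.inl h
        · exact Or.inr (Finset.mem_insert_of_mem h)
      · have := (Nat.prime_dvd_prime_iff_eq hp hqp).1 h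
        rw [this]
        exact Or.inr (Finset.mem_insert_self _ _)
    · intro h hh
      apply Nat.Coprime.mul_right
      · have e1 : b' + h ≡ b + h [MOD W'] := Nat.ModEq.add_right _ hb1
        have e2 := e1.gcd_eq
        unfold Nat.Coprime
        rw [e2]
        exact h6 h hh
      · rw [Nat.coprime_comm, hqp.coprime_iff_not_dvd]
        intro hdvd
        have e1 : b' + h ≡ c + h [MOD q] := Nat.ModEq.add_right _ hb2
        exact hc h hh ((e1.dvd_iff dvd_rfl).1 hdvd)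

theorem bigmod {W a : ℕ} {S : Finset ℕ} (hA : Adm W a S) (w : ℕ) :
    ∃ W' b : ℕ, 0 < W' ∧ W ∣ W' ∧ b ≡ a [MOD W] ∧ (∀ p : ℕ, p.Prime → p ≤ w → p ∣ W') ∧
      ∀ h ∈ S, Nat.Coprime (b + h) W' := by
  classical
  obtain ⟨W', b, h1, h2, h3, h4, h5, h6⟩ := ToStep_aux hA
    ((Finset.range (w + 1)).filter (fun p => p.Prime ∧ ¬ p ∣ W))
    (fun p hp => (Finset.mem_filter.1 hp).2)
  refine ⟨W', b, h1, h2, h3, ?_, h6⟩
  intro p hp hpw
  by_cases h : p ∣ W
  · exact h.trans h2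
  · exact h4 p (Finset.mem_filter.2 ⟨Finset.mem_range.2 (by omega), hp, h⟩)

theorem toStep {R : ℕ → Prop} {c : ℝ} {κ : ℕ → ℕ} (h : Sieve R c κ) : Step R c κ := by
  classical
  intro r B hB hκ W a hA N
  set S : Finset ℕ := Finset.univ.biUnion B with hS
  obtain ⟨W', b, h1, h2, h3, h4, h5⟩ := bigmod hA (max (S.sup id) S.card + 1)
  have hblk : ∀ i : {n // n ∈ S}, ∃ s : Fin r, i.1 ∈ B s := by
    rintro ⟨i, hi⟩
    rw [hS, Finset.mem_biUnion] at hi
    obtain ⟨s, _, hs⟩ := hi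
    exact ⟨s, hs⟩
  choose blk hblk' using hblk
  have hiff : ∀ (i : {n // n ∈ S}) (s : Fin r), blk i = s ↔ i.1 ∈ B s := by
    intro i s
    constructor
    · rintro rfl
      exact hblk' i
    · intro hi
      by_contra hne
      exact (Finset.disjoint_left.1 (hB _ _ hne)) (hblk' i) hi
  have hgood : Good (fun i : {n // n ∈ S} => i.1) W' b := by
    refine ⟨h1, fun i => h5 i.1 i.2, ?_⟩
    intro p hp hpW
    have hpw : max (S.sup id) S.card + 1 < p := by
      by_contra hle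
      push Not at hle
      exact hpW (h4 p hp hle)
    constructor
    · rw [Fintype.card_coe]
      have := le_max_right (S.sup id) S.card
      omega
    · intro i j hij hmod
      have hi : i.1 ≤ S.sup id := Finset.le_sup (f := id) i.2
      have hj : j.1 ≤ S.sup id := Finset.le_sup (f := id) j.2
      have hm := le_max_left (S.sup id) S.card
      apply hij
      apply Subtype.ext
      exact Nat.ModEq.eq_of_lt_of_lt hmod (by omega) (by omega)
  obtain ⟨X, w, hX1, hX2, hX3⟩ := h {n // n ∈ S} inferInstance inferInstance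
    (fun i => i.1) W' b hgood r blk (by
      intro s
      refine (hκ s).trans ?_
      have hcard : (B s).card ≤ (blkF blk s).card := by
        have himg : B s ⊆ (blkF blk s).image (fun i => i.1) := by
          intro n hn
          have hnS : n ∈ S := by
            rw [hS, Finset.mem_biUnion]
            exact ⟨s, Finset.mem_univ _, hn⟩
          rw [Finset.mem_image]
          refine ⟨⟨n, hnS⟩, ?_, rfl⟩
          unfold blkF
          rw [Finset.mem_filter]
          exact ⟨Finset.mem_univ _, (hiff _ s).2 hn⟩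
        exact (Finset.card_le_card himg).trans Finset.card_image_le
      exact hcard) N
  refine ⟨X, w, ?_, hX2, ?_⟩
  · intro n hn
    obtain ⟨g1, g2, g3, g4⟩ := hX1 n hn
    exact ⟨g1, (g2.of_dvd h2).trans h3, g3, g4⟩
  · intro s
    refine (hX3 s).trans (le_of_eq ?_)
    congr 1
    apply Finset.filter_congr
    intro n _
    constructor
    · rintro ⟨i, hi, hR⟩
      exact ⟨i.1, (hiff i s).1 hi, hR⟩
    · rintro ⟨m, hm, hR⟩
      have hmS : m ∈ S := by
        rw [hS, Finset.mem_biUnion]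
        exact ⟨s, Finset.mem_univ _, hm⟩
      exact ⟨⟨m, hmS⟩, (hiff _ s).2 hm, hR⟩

end Pool.Agent.H36.IS

end
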