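import Pool.Agent.H15.TB1.M01
import Pool.Agent.H15.TB1.M07
import Pool.Agent.H15.TB1.M08
import Pool.Agent.H15.TB1.M11

/-! The parts of this file: H10.GoldLoc.Mertens, H14.CO.BfSum, H36.IS.MerB. -/

section

/-!
Sums and products over primes.
-/

namespace Pool.Agent.H10.GoldLoc

open Finset Real
open Pool.Agent.H91.Gold (Mt Mt_le Mt_ge abel_le)
open scoped ArithmeticFunction.vonMangoldt

/-- Passing from a Mertens type bound for `∑ log p / p` to one for `∑ 1 / p`. -/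
theorem mertens_gen' {w z : ℕ} (hw : 2 ≤ w) (hwz : w ≤ z) {c : ℝ} (hc : 0 ≤ c)
    (h : ∀ m, w ≤ m → m ≤ z → Mt m - Mt w ≤ Real.log m - Real.log w + c) :
    ∑ p ∈ PP w z, (1 : ℝ) / p ≤ Real.log (Real.log z / Real.log w) + c / Real.log w := by
  have hlw : 0 < Real.log w := Real.log_pos (by exact_mod_cast (by omega : 1 < w))
  have hlog : ∀ k : ℕ, w ≤ k → 0 < Real.log k := by
    intro k hk
    apply Real.log_pos
    exact_mod_cast (by omega : 1 < k)
  have h1 : ∑ p ∈ PP w z, (1 : ℝ) / p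
      = ∑ k ∈ Ioc w z, (if k.Prime then Real.log k / k else 0) * (1 / Real.log k) := by
    unfold PP
    rw [sum_filter]
    apply sum_congr rfl
    intro k hk
    rw [mem_Ioc] at hk
    split_ifs with hp
    · have := (hlog k hk.1.le).ne'
      field_simp
    · simp
  have h2 : ∑ k ∈ Ioc w z, (if k.Prime then Real.log k / k else 0) * (1 / Real.log k)
      ≤ ∑ k ∈ Ioc w z, (Real.log k - Real.log (k - 1 : ℕ)) * (1 / Real.log k)
        + c * (1 / Real.log ((w + 1 : ℕ) : ℝ)) := by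
    apply abel_le hwz hc
    · intro k hk1 _
      have := hlog k hk1.le
      positivity
    · have := hlog (w + 1) (by omega)
      positivity
    · intro k hk1 _
      have := hlog k hk1.le
      apply one_div_le_one_div_of_le this
      apply Real.log_le_log
      · exact_mod_cast (by omega : 0 < k)
      · push_cast; linarith
    · intro m hm1 hm2
      have e1 : ∑ k ∈ Ioc w m, (Real.log k - Real.log (k - 1 : ℕ)) = Real.log m - Real.log w := by
        clear hm2
        induction m, hm1 using Nat.le_induction with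
        | base => simp
        | succ m hm ih =>
          rw [sum_Ioc_succ_top (by omega), ih]
          simp
      have e2 : ∑ k ∈ Ioc w m, (if k.Prime then Real.log k / k else 0) ≤ Mt m - Mt w := by
        have e3 : Mt m - Mt w = ∑ k ∈ Ioc w m, Λ k / k := by
          unfold Mt
          rw [← sum_Ioc_consecutive _ (Nat.zero_le w) hm1]
          ring
        rw [e3]
        apply sum_le_sum
        intro k _
        split_ifs with hp
        · rw [ArithmeticFunction.vonMangoldt_apply_prime hp]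
        · have := ArithmeticFunction.vonMangoldt_nonneg (n := k)
          positivity
      rw [e1]
      exact e2.trans (h m hm1 hm2)
  have h3 : ∀ m, w ≤ m → ∑ k ∈ Ioc w m, (Real.log k - Real.log (k - 1 : ℕ)) * (1 / Real.log k)
      ≤ Real.log (Real.log m) - Real.log (Real.log w) := by
    intro m hm
    induction m, hm using Nat.le_induction with
    | base => simp
    | succ m hm ih =>
      rw [sum_Ioc_succ_top (by omega)]
      have a1 := hlog m hm
      have a2 := hlog (m + 1) (by omega)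
      have a3 : (Real.log ((m + 1 : ℕ) : ℝ) - Real.log (m + 1 - 1 : ℕ)) * (1 / Real.log ((m + 1 : ℕ) : ℝ))
          ≤ Real.log (Real.log ((m + 1 : ℕ) : ℝ)) - Real.log (Real.log m) := by
        have b1 := Real.log_le_sub_one_of_pos (x := Real.log m / Real.log ((m + 1 : ℕ) : ℝ)) (by positivity)
        rw [Real.log_div a1.ne' a2.ne'] at b1
        rw [Nat.add_sub_cancel]
        have b2 : (Real.log ((m + 1 : ℕ) : ℝ) - Real.log m) * (1 / Real.log ((m + 1 : ℕ) : ℝ))
            = 1 - Real.log m / Real.log ((m + 1 : ℕ) : ℝ) := by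
          field_simp
        rw [b2]
        linarith
      linarith
  have h4 := h3 z hwz
  have h5 : c * (1 / Real.log ((w + 1 : ℕ) : ℝ)) ≤ c / Real.log w := by
    rw [mul_one_div]
    apply div_le_div_of_nonneg_left hc hlw
    apply Real.log_le_log
    · exact_mod_cast (by omega : 0 < w)
    · push_cast; linarith
  rw [h1, Real.log_div (hlog z hwz).ne' hlw.ne']
  linarith

lemma PP_union {a b c : ℕ} (hab : a ≤ b) (hbc : b ≤ c) : PP a c = PP a b ∪ PP b c := by
  ext q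
  rw [mem_union, mem_PP, mem_PP, mem_PP]
  constructor
  · rintro ⟨h1, h2, h3⟩
    by_cases h : q ≤ b
    · exact Or.inl ⟨h1, h, h3⟩
    · exact Or.inr ⟨by omega, h2, h3⟩
  · rintro (⟨h1, h2, h3⟩ | ⟨h1, h2, h3⟩)
    · exact ⟨h1, by omega, h3⟩
    · exact ⟨by omega, h2, h3⟩

lemma PP_disjoint {a b c : ℕ} : Disjoint (PP a b) (PP b c) := by
  rw [disjoint_left]
  intro q hq hq'
  rw [mem_PP] at hq hq'
  omega

/-- `∑_{p ≤ z} 1/p ≤ log log z + C`. -/
theorem exists_mertens : ∃ C : ℝ, 0 ≤ C ∧ ∀ z : ℕ, 1024 ≤ z →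
    ∑ p ∈ PP 0 z, (1 : ℝ) / p ≤ Real.log (Real.log z) + C := by
  have hl1 : 1 < Real.log (1024 : ℕ) := by
    rw [show ((1024 : ℕ) : ℝ) = (2 : ℝ) ^ (10 : ℕ) by norm_num, Real.log_pow]
    have := Real.log_two_gt_d9
    push_cast
    linarith
  refine ⟨∑ p ∈ PP 0 1024, (1 : ℝ) / p + 1.0818, by positivity, ?_⟩
  intro z hz
  rw [PP_union (Nat.zero_le 1024) hz, sum_union PP_disjoint]
  have h := mertens_gen' (w := 1024) (z := z) (by norm_num) hz (c := 1.0818) (by norm_num) (by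
    intro m hm1 _
    have a1 := Mt_le m (by omega)
    have a2 := Mt_ge 1024 (by omega)
    simp only [Nat.cast_ofNat] at a1 a2 ⊢
    linarith)
  have hlz : 0 < Real.log z := Real.log_pos (by exact_mod_cast (by omega : 1 < z))
  have h2 : Real.log (Real.log z / Real.log (1024 : ℕ)) ≤ Real.log (Real.log z) := by
    apply Real.log_le_log (by positivity)
    rw [div_le_iff₀ (by linarith)]
    nlinarith
  have h3 : (1.0818 : ℝ) / Real.log (1024 : ℕ) ≤ 1.0818 := by
    apply div_le_self (by norm_num) hl1.le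
  linarith

/-- The product of `1 - 1/q` over `q ≤ w` is at most `1 / log w`. -/
theorem prod_le_inv_log {w : ℕ} (hw : 2 ≤ w) :
    ∏ q ∈ PP 0 w, (1 - (1 : ℝ) / q) ≤ 1 / Real.log w := by
  have hlw : 0 < Real.log w := Real.log_pos (by exact_mod_cast (by omega : 1 < w))
  let f : ℕ →* ℝ :=
    { toFun := fun n => ((n : ℝ))⁻¹
      map_one' := by simp
      map_mul' := by intro a b; push_cast; rw [mul_inv] }
  have hf : ∀ {p : ℕ}, p.Prime → ‖f p‖ < 1 := by
    intro p hp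
    show ‖((p : ℝ))⁻¹‖ < 1
    have h1 : (1 : ℝ) < p := by exact_mod_cast hp.one_lt
    rw [norm_inv, Real.norm_of_nonneg (by linarith)]
    exact inv_lt_one_of_one_lt₀ h1
  obtain ⟨hs, hsum⟩ :=
    EulerProduct.summable_and_hasSum_smoothNumbers_prod_primesBelow_geometric (f := f) hf (w + 1)
  have hPP : (w + 1).primesBelow = PP 0 w := by
    ext q
    rw [Nat.mem_primesBelow, mem_PP]
    constructor
    · rintro ⟨h1, h2⟩; exact ⟨h2.pos, by omega, h2⟩
    · rintro ⟨h1, h2, h3⟩; exact ⟨by omega, h3⟩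
  have h1 : Real.log w ≤ ∏ p ∈ PP 0 w, (1 - f p)⁻¹ := by
    rw [← hPP]
    have h2 : ∑ m ∈ Icc 1 w, ((m : ℝ))⁻¹ ≤ ∏ p ∈ (w + 1).primesBelow, (1 - f p)⁻¹ := by
      have h3 := sum_le_hasSum
        ((Icc 1 w).attach.image (fun m => (⟨m.1, Nat.mem_smoothNumbers_of_lt
          (by have := (mem_Icc.mp m.2).1; omega) (by have := (mem_Icc.mp m.2).2; omega)⟩ :
          (w + 1).smoothNumbers))) (fun m _ => by
            show 0 ≤ ((m.1 : ℝ))⁻¹
            positivity) hsum
      rw [sum_image (by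
        intro a _ b _ hab
        simp only [Subtype.mk.injEq] at hab
        exact Subtype.ext hab)] at h3
      refine le_trans (le_of_eq ?_) h3
      rw [← sum_attach]
      rfl
    have h4 := log_add_one_le_harmonic w
    rw [harmonic_eq_sum_Icc] at h4
    push_cast at h4
    have h5 : Real.log w ≤ Real.log ((w : ℝ) + 1) :=
      Real.log_le_log (by exact_mod_cast (by omega : 0 < w)) (by linarith)
    linarith
  rw [prod_inv_distrib] at h1
  have h6 : ∏ q ∈ PP 0 w, (1 - (1 : ℝ) / q) = ∏ q ∈ PP 0 w, (1 - f q) := by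
    apply prod_congr rfl
    intro q _
    show 1 - (1 : ℝ) / q = 1 - ((q : ℝ))⁻¹
    rw [one_div]
  rw [h6]
  have hpos : 0 < ∏ q ∈ PP 0 w, (1 - f q) := by
    apply prod_pos
    intro q hq
    rw [mem_PP] at hq
    have := hf hq.2.2
    have h7 := (abs_lt.mp (by rwa [Real.norm_eq_abs] at this)).2
    linarith
  rw [le_div_iff₀ hlw]
  calc _ ≤ (∏ q ∈ PP 0 w, (1 - f q)) * (∏ q ∈ PP 0 w, (1 - f q))⁻¹ :=
        mul_le_mul_of_nonneg_left h1 hpos.le
    _ = 1 := mul_inv_cancel₀ hpos.ne'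

end Pool.Agent.H10.GoldLoc

end

section

/-!
# CO module BfSum: a sum of a multiplicative function
-/

set_option autoImplicit false

namespace Pool.Agent.H14.CO

open Set MeasureTheory Complex

/-- the summand -/
private noncomputable def BfSum_G (f : ℕ) : ℝ := (f : ℝ) * (sg f ^ 2 * bf f) ^ 2

private lemma BfSum_rad_mul {m n : ℕ} (h : Nat.Coprime m n) : rad (m * n) = rad m * rad n := by
  unfold rad
  rw [h.primeFactors_mul, Finset.prod_union h.disjoint_primeFactors]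

private lemma BfSum_sg_mul {m n : ℕ} (h : Nat.Coprime m n) : sg (m * n) = sg m * sg n := by
  unfold sg
  rw [h.primeFactors_mul, Finset.prod_union h.disjoint_primeFactors]

private lemma BfSum_rad_coprime {m n : ℕ} (h : Nat.Coprime m n) : Nat.Coprime (rad m) n := by
  unfold rad
  rw [Nat.coprime_prod_left_iff]
  intro p hp
  exact h.coprime_dvd_left (Nat.dvd_of_mem_primeFactors hp)

private lemma BfSum_sum_mul {r s : ℕ} (h : Nat.Coprime r s) (F : ℕ → ℝ) :
    ∑ g ∈ (r * s).divisors, F g = ∑ a ∈ r.divisors, ∑ b ∈ s.divisors, F (a * b) := by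
  rw [← Finset.sum_product', Nat.divisors_mul, Finset.mul_def]
  rw [Finset.sum_image]
  exact h.mul_injOn_divisors

private lemma BfSum_bf_mul {m n : ℕ} (h : Nat.Coprime m n) : bf (m * n) = bf m * bf n := by
  have hrn : Nat.Coprime m (rad n) := (BfSum_rad_coprime h.symm).symm
  have hrm : Nat.Coprime (rad m) n := BfSum_rad_coprime h
  have hr : Nat.Coprime (rad m) (rad n) := BfSum_rad_coprime hrn
  have key : ∀ a₁ ∈ (rad m).divisors, ∀ b₁ ∈ (rad n).divisors, ∀ a₂ ∈ (rad m).divisors,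
      ∀ b₂ ∈ (rad n).divisors,
      (if m * n ∣ a₁ * b₁ * (a₂ * b₂) then 1 / (((a₁ * b₁ : ℕ) : ℝ) * ((a₂ * b₂ : ℕ) : ℝ)) else 0)
      = (if m ∣ a₁ * a₂ then 1 / ((a₁ : ℝ) * a₂) else 0)
        * (if n ∣ b₁ * b₂ then 1 / ((b₁ : ℝ) * b₂) else 0) := by
    intro a₁ ha₁ b₁ hb₁ a₂ ha₂ b₂ hb₂
    have ha₁' := Nat.dvd_of_mem_divisors ha₁
    have ha₂' := Nat.dvd_of_mem_divisors ha₂
    have hb₁' := Nat.dvd_of_mem_divisors hb₁
    have hb₂' := Nat.dvd_of_mem_divisors hb₂
    have hmb : Nat.Coprime m (b₁ * b₂) :=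
      Nat.Coprime.mul_right (hrn.coprime_dvd_right hb₁') (hrn.coprime_dvd_right hb₂')
    have hna : Nat.Coprime n (a₁ * a₂) :=
      Nat.Coprime.mul_right (hrm.symm.coprime_dvd_right ha₁') (hrm.symm.coprime_dvd_right ha₂')
    have heq : a₁ * b₁ * (a₂ * b₂) = (a₁ * a₂) * (b₁ * b₂) := by ring
    have hiff : m * n ∣ a₁ * b₁ * (a₂ * b₂) ↔ m ∣ a₁ * a₂ ∧ n ∣ b₁ * b₂ := by
      rw [heq]
      constructor
      · intro hd
        constructor
        · exact hmb.dvd_of_dvd_mul_right ((Dvd.intro _ rfl).trans hd)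
        · exact hna.dvd_of_dvd_mul_left ((Dvd.intro_left _ rfl).trans hd)
      · rintro ⟨h1, h2⟩
        exact Nat.mul_dvd_mul h1 h2
    by_cases h1 : m ∣ a₁ * a₂
    · by_cases h2 : n ∣ b₁ * b₂
      · rw [if_pos (hiff.2 ⟨h1, h2⟩), if_pos h1, if_pos h2]
        push_cast
        rw [div_mul_div_comm, one_mul]
        congr 1
        ring
      · rw [if_neg (fun hh => h2 (hiff.1 hh).2), if_neg h2, mul_zero]
    · rw [if_neg (fun hh => h1 (hiff.1 hh).1), if_neg h1, zero_mul]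
  calc bf (m * n)
      = ∑ a₁ ∈ (rad m).divisors, ∑ b₁ ∈ (rad n).divisors, ∑ a₂ ∈ (rad m).divisors,
          ∑ b₂ ∈ (rad n).divisors,
          (if m * n ∣ a₁ * b₁ * (a₂ * b₂) then
            1 / (((a₁ * b₁ : ℕ) : ℝ) * ((a₂ * b₂ : ℕ) : ℝ)) else 0) := by
        unfold bf
        rw [BfSum_rad_mul h, BfSum_sum_mul hr]
        refine Finset.sum_congr rfl fun a₁ _ => Finset.sum_congr rfl fun b₁ _ => ?_
        rw [BfSum_sum_mul hr]
    _ = ∑ a₁ ∈ (rad m).divisors, ∑ b₁ ∈ (rad n).divisors, ∑ a₂ ∈ (rad m).divisors,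
          ∑ b₂ ∈ (rad n).divisors, (if m ∣ a₁ * a₂ then 1 / ((a₁ : ℝ) * a₂) else 0)
            * (if n ∣ b₁ * b₂ then 1 / ((b₁ : ℝ) * b₂) else 0) := by
        refine Finset.sum_congr rfl fun a₁ ha₁ => Finset.sum_congr rfl fun b₁ hb₁ =>
          Finset.sum_congr rfl fun a₂ ha₂ => Finset.sum_congr rfl fun b₂ hb₂ => ?_
        exact key a₁ ha₁ b₁ hb₁ a₂ ha₂ b₂ hb₂
    _ = bf m * bf n := by
        unfold bf
        rw [Finset.sum_mul]
        refine Finset.sum_congr rfl fun a₁ _ => ?_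
        rw [Finset.sum_comm, Finset.sum_mul]
        refine Finset.sum_congr rfl fun a₂ _ => ?_
        rw [Finset.mul_sum]
        refine Finset.sum_congr rfl fun b₁ _ => ?_
        rw [Finset.mul_sum]

private lemma BfSum_G_mul {m n : ℕ} (h : Nat.Coprime m n) :
    BfSum_G (m * n) = BfSum_G m * BfSum_G n := by
  unfold BfSum_G
  rw [BfSum_bf_mul h, BfSum_sg_mul h]
  push_cast
  ring

private lemma BfSum_G_nonneg (n : ℕ) : 0 ≤ BfSum_G n := by
  unfold BfSum_G
  positivity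

private lemma BfSum_G_one : BfSum_G 1 = 1 := by
  unfold BfSum_G sg bf rad
  simp

private lemma BfSum_rad_pow {p k : ℕ} (hp : p.Prime) (hk : k ≠ 0) : rad (p ^ k) = p := by
  unfold rad
  rw [Nat.primeFactors_prime_pow hk hp, Finset.prod_singleton]

private lemma BfSum_sg_pow {p k : ℕ} (hp : p.Prime) (hk : k ≠ 0) :
    sg (p ^ k) = (1 - 1 / (p : ℝ))⁻¹ := by
  unfold sg
  rw [Nat.primeFactors_prime_pow hk hp, Finset.prod_singleton]

private lemma BfSum_bf_pow {p k : ℕ} (hp : p.Prime) (hk : k ≠ 0) :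
    bf (p ^ k) = (if p ^ k ∣ 1 then 1 else 0) + 2 * (if p ^ k ∣ p then 1 / (p : ℝ) else 0)
      + (if p ^ k ∣ p * p then 1 / ((p : ℝ) * p) else 0) := by
  unfold bf
  rw [BfSum_rad_pow hp hk, hp.divisors]
  have h1 : (1 : ℕ) ∉ ({p} : Finset ℕ) := by
    rw [Finset.mem_singleton]; exact hp.one_lt.ne
  rw [Finset.sum_insert h1, Finset.sum_insert h1, Finset.sum_singleton, Finset.sum_singleton,
    Finset.sum_insert h1, Finset.sum_singleton]
  simp only [one_mul, mul_one, Nat.cast_one, div_one]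
  ring

private lemma BfSum_G_p {p : ℕ} (hp : p.Prime) :
    BfSum_G (p ^ 1) = (p : ℝ) * (((1 - 1 / (p : ℝ))⁻¹) ^ 2 * (2 / p + 1 / (p * p))) ^ 2 := by
  unfold BfSum_G
  rw [BfSum_bf_pow hp one_ne_zero, BfSum_sg_pow hp one_ne_zero]
  have h1 : ¬ (p ^ 1 ∣ 1) := by rw [pow_one]; exact hp.one_lt.ne' ∘ Nat.dvd_one.1
  rw [if_neg h1, if_pos (by rw [pow_one]), if_pos (by rw [pow_one]; exact Dvd.intro _ rfl), pow_one]
  ring

private lemma BfSum_G_p2 {p : ℕ} (hp : p.Prime) :
    BfSum_G (p ^ 2) = (p : ℝ) ^ 2 * (((1 - 1 / (p : ℝ))⁻¹) ^ 2 * (1 / (p * p))) ^ 2 := by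
  unfold BfSum_G
  rw [BfSum_bf_pow hp two_ne_zero, BfSum_sg_pow hp two_ne_zero]
  have h1 : ¬ (p ^ 2 ∣ 1) := by
    intro h
    have := Nat.dvd_one.1 h
    have := hp.one_lt
    nlinarith
  have h2 : ¬ (p ^ 2 ∣ p) := by
    intro h
    have := Nat.le_of_dvd hp.pos h
    have := hp.one_lt
    nlinarith
  rw [if_neg h1, if_neg h2, if_pos (by rw [sq])]
  push_cast
  ring

private lemma BfSum_G_pk {p k : ℕ} (hp : p.Prime) (hk : 3 ≤ k) : BfSum_G (p ^ k) = 0 := by
  unfold BfSum_G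
  have hk0 : k ≠ 0 := by omega
  rw [BfSum_bf_pow hp hk0]
  have h3 : p ^ 3 ∣ p ^ k := pow_dvd_pow _ hk
  have h1 : ¬ (p ^ k ∣ 1) := by
    intro h
    have := Nat.le_of_dvd one_pos (h3.trans h)
    have := hp.one_lt
    nlinarith [sq_nonneg p, pow_pos hp.pos 2, pow_lt_pow_left₀ hp.one_lt (by norm_num) (n := 3) (by norm_num)]
  have h2 : ¬ (p ^ k ∣ p) := by
    intro h
    have h5 := (Nat.pow_dvd_pow_iff_le_right hp.one_lt).1 (by rw [pow_one]; exact h3.trans h : p ^ 3 ∣ p ^ 1)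
    omega
  have h4 : ¬ (p ^ k ∣ p * p) := by
    intro h
    rw [← sq] at h
    have h5 := (Nat.pow_dvd_pow_iff_le_right hp.one_lt).1 (h3.trans h)
    omega
  rw [if_neg h1, if_neg h2, if_neg h4]
  ring

private lemma BfSum_tsum {p : ℕ} (hp : p.Prime) :
    ∑' n : ℕ, BfSum_G (p ^ n) = 1 + BfSum_G (p ^ 1) + BfSum_G (p ^ 2) := by
  rw [tsum_eq_sum (s := Finset.range 3)]
  · rw [Finset.sum_range_succ, Finset.sum_range_succ, Finset.sum_range_succ, Finset.sum_range_zero,
      pow_zero, BfSum_G_one]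
    ring
  · intro b hb
    rw [Finset.mem_range, not_lt] at hb
    exact BfSum_G_pk hp hb

private lemma BfSum_summable {p : ℕ} (hp : p.Prime) :
    Summable (fun n : ℕ => ‖BfSum_G (p ^ n)‖) := by
  apply summable_of_ne_finset_zero (s := Finset.range 3)
  intro b hb
  rw [Finset.mem_range, not_lt] at hb
  rw [BfSum_G_pk hp hb, norm_zero]

private lemma BfSum_local {p : ℕ} (hp : p.Prime) :
    BfSum_G (p ^ 1) + BfSum_G (p ^ 2) ≤ 4 / p + 216 / (p : ℝ) ^ 2 := by
  rw [BfSum_G_p hp, BfSum_G_p2 hp]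
  have hp2 : (2 : ℝ) ≤ p := by exact_mod_cast hp.two_le
  have hp0 : (0 : ℝ) < p := by linarith only [hp2]
  set x : ℝ := 1 / (p : ℝ) with hx
  have hx0 : 0 < x := by positivity
  have hx1 : x ≤ 1 / 2 := by
    rw [hx]; exact one_div_le_one_div_of_le (by norm_num) hp2
  set y : ℝ := (1 - x)⁻¹ with hy
  have hy1 : y ≤ 1 + 2 * x := by
    rw [hy, inv_le_comm₀ (by linarith only [hx0, hx1]) (by linarith only [hx0, hx1])]
    rw [← one_div, div_le_iff₀ (by linarith only [hx0, hx1])]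
    nlinarith only [hx0, hx1]
  have hy0 : 0 < y := by rw [hy]; apply inv_pos.2; linarith only [hx0, hx1]
  have hy4 : y ^ 4 ≤ 1 + 30 * x := by
    have h1 : y ^ 4 ≤ (1 + 2 * x) ^ 4 := pow_le_pow_left₀ hy0.le hy1 4
    have h2 : (1 + 2 * x) ^ 4 ≤ 1 + 30 * x := by
      nlinarith only [hx0, hx1, mul_pos hx0 hx0, mul_nonneg hx0.le (sub_nonneg.2 hx1),
        mul_nonneg (mul_pos hx0 hx0).le (sub_nonneg.2 hx1),
        mul_nonneg (mul_pos (mul_pos hx0 hx0) hx0).le (sub_nonneg.2 hx1)]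
    exact h1.trans h2
  have hp' : (p : ℝ) = 1 / x := by rw [hx]; field_simp
  have e1 : (p : ℝ) * (y ^ 2 * (2 / p + 1 / (p * p))) ^ 2 = y ^ 4 * (4 * x + 4 * x ^ 2 + x ^ 3) := by
    rw [hp']; field_simp; ring
  have e2 : (p : ℝ) ^ 2 * (y ^ 2 * (1 / (p * p))) ^ 2 = y ^ 4 * x ^ 2 := by
    rw [hp']; field_simp
  have e3 : 4 / (p : ℝ) + 216 / (p : ℝ) ^ 2 = 4 * x + 216 * x ^ 2 := by
    rw [hx]; field_simp
  rw [e1, e2, e3]
  have h5 : y ^ 4 * (4 * x + 4 * x ^ 2 + x ^ 3) + y ^ 4 * x ^ 2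
      ≤ (1 + 30 * x) * (4 * x + 5 * x ^ 2 + x ^ 3) := by
    have : y ^ 4 * (4 * x + 4 * x ^ 2 + x ^ 3) + y ^ 4 * x ^ 2
      = y ^ 4 * (4 * x + 5 * x ^ 2 + x ^ 3) := by ring
    rw [this]
    apply mul_le_mul_of_nonneg_right hy4
    positivity
  refine h5.trans ?_
  nlinarith only [hx0, hx1, mul_pos hx0 hx0, mul_nonneg hx0.le (sub_nonneg.2 hx1),
        mul_nonneg (mul_pos hx0 hx0).le (sub_nonneg.2 hx1),
        mul_nonneg (mul_pos (mul_pos hx0 hx0) hx0).le (sub_nonneg.2 hx1)]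

private lemma BfSum_sq_sum (F : ℕ) : ∑ p ∈ (F + 1).primesBelow, 1 / (p : ℝ) ^ 2 ≤ 1 := by
  have h1 : ∀ N : ℕ, 1 ≤ N → ∑ k ∈ Finset.Ioc 1 N, 1 / (k : ℝ) ^ 2 ≤ 1 - 1 / (N : ℝ) := by
    intro N hN
    induction N, hN using Nat.le_induction with
    | base => simp
    | succ n hn ih =>
      rw [Finset.sum_Ioc_succ_top hn]
      have hn0 : (0 : ℝ) < n := by exact_mod_cast hn
      have : 1 / ((n + 1 : ℕ) : ℝ) ^ 2 ≤ 1 / n - 1 / ((n + 1 : ℕ) : ℝ) := by
        push_cast
        rw [div_sub_div _ _ hn0.ne' (by positivity), div_le_div_iff₀ (by positivity) (by positivity)]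
        nlinarith only [hn0]
      linarith only [ih, this]
  rcases Nat.eq_zero_or_pos F with hF | hF
  · subst hF
    simp [Nat.primesBelow]
    rw [Finset.sum_eq_zero]
    · norm_num
    · intro x hx
      simp at hx
      exact absurd (hx.1 ▸ hx.2) Nat.not_prime_zero
  · have h2 : ∑ p ∈ (F + 1).primesBelow, 1 / (p : ℝ) ^ 2 ≤ ∑ k ∈ Finset.Ioc 1 F, 1 / (k : ℝ) ^ 2 := by
      apply Finset.sum_le_sum_of_subset_of_nonneg
      · intro p hp
        rw [Nat.mem_primesBelow] at hp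
        rw [Finset.mem_Ioc]
        exact ⟨hp.2.one_lt, by omega⟩
      · intros; positivity
    have h3 := h1 F hF
    have h4 : (0 : ℝ) ≤ 1 / F := by positivity
    linarith only [h2, h3, h4]

/-- the sum over `f ≤ F` is bounded by the Euler product -/
private lemma BfSum_euler (F : ℕ) :
    ∑ f ∈ Finset.Icc 1 F, BfSum_G f
      ≤ ∏ p ∈ (F + 1).primesBelow, (1 + BfSum_G (p ^ 1) + BfSum_G (p ^ 2)) := by
  obtain ⟨h1, h2⟩ := EulerProduct.summable_and_hasSum_smoothNumbers_prod_primesBelow_tsum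
    (f := BfSum_G) BfSum_G_one (fun {m n} h => BfSum_G_mul h) (fun {p} hp => BfSum_summable hp) (F + 1)
  have h3 : ∏ p ∈ (F + 1).primesBelow, ∑' n : ℕ, BfSum_G (p ^ n)
      = ∏ p ∈ (F + 1).primesBelow, (1 + BfSum_G (p ^ 1) + BfSum_G (p ^ 2)) := by
    apply Finset.prod_congr rfl
    intro p hp
    exact BfSum_tsum (Nat.prime_of_mem_primesBelow hp)
  rw [← h3]
  let i : Finset.Icc 1 F → (F + 1).smoothNumbers := fun x =>
    ⟨x.1, Nat.mem_smoothNumbers_of_lt (Finset.mem_Icc.1 x.2).1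
      (Nat.lt_succ_of_le (Finset.mem_Icc.1 x.2).2)⟩
  have hi : Function.Injective i := by
    intro x y hxy
    have := congrArg Subtype.val hxy
    exact Subtype.ext this
  have h4 : ∑ x : Finset.Icc 1 F, BfSum_G (i x : ℕ)
      ≤ ∏ p ∈ (F + 1).primesBelow, ∑' n : ℕ, BfSum_G (p ^ n) := by
    have h5 := sum_le_hasSum (f := fun m : (F + 1).smoothNumbers => BfSum_G m)
      (Finset.univ.map ⟨i, hi⟩) (fun m _ => BfSum_G_nonneg _) h2
    rw [Finset.sum_map] at h5
    exact h5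
  rw [← Finset.sum_coe_sort]
  exact h4

private lemma BfSum_big : ∃ C : ℝ, 0 < C ∧ ∀ F : ℕ, 1024 ≤ F →
    ∑ f ∈ Finset.Icc 1 F, BfSum_G f ≤ C * Real.log F ^ 4 := by
  obtain ⟨C, hC0, hC⟩ := Pool.Agent.H10.GoldLoc.exists_mertens
  refine ⟨Real.exp (4 * C + 216), Real.exp_pos _, ?_⟩
  intro F hF
  have hlog : 1 < Real.log F := by
    have h1 : (1024 : ℝ) ≤ F := by exact_mod_cast hF
    have h2 : Real.log 1024 ≤ Real.log F := Real.log_le_log (by norm_num) h1
    have h3 : Real.log 1024 = 10 * Real.log 2 := by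
      rw [show (1024 : ℝ) = (2 : ℝ) ^ (10 : ℕ) by norm_num, Real.log_pow]; norm_num
    have := Real.log_two_gt_d9
    linarith only [h2, h3, this]
  refine (BfSum_euler F).trans ?_
  calc ∏ p ∈ (F + 1).primesBelow, (1 + BfSum_G (p ^ 1) + BfSum_G (p ^ 2))
      ≤ ∏ p ∈ (F + 1).primesBelow, Real.exp (4 / p + 216 / (p : ℝ) ^ 2) := by
        apply Finset.prod_le_prod
        · intro p _
          have := BfSum_G_nonneg (p ^ 1)
          have := BfSum_G_nonneg (p ^ 2)
          linarith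
        · intro p hp
          have h1 := BfSum_local (Nat.prime_of_mem_primesBelow hp)
          have h2 := Real.add_one_le_exp (4 / (p : ℝ) + 216 / (p : ℝ) ^ 2)
          linarith only [h1, h2]
    _ = Real.exp (∑ p ∈ (F + 1).primesBelow, (4 / (p : ℝ) + 216 / (p : ℝ) ^ 2)) := by
        rw [Real.exp_sum]
    _ ≤ Real.exp (4 * (Real.log (Real.log F) + C) + 216) := by
        apply Real.exp_le_exp.2
        rw [Finset.sum_add_distrib]
        have h1 : ∑ p ∈ (F + 1).primesBelow, 4 / (p : ℝ) ≤ 4 * (Real.log (Real.log F) + C) := by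
          have h2 := hC F hF
          have h3 : ∑ p ∈ (F + 1).primesBelow, 4 / (p : ℝ)
              = 4 * ∑ p ∈ Pool.Agent.H10.GoldLoc.PP 0 F, (1 : ℝ) / p := by
            rw [Finset.mul_sum]
            have h4 : (F + 1).primesBelow = Pool.Agent.H10.GoldLoc.PP 0 F := by
              ext p
              rw [Nat.mem_primesBelow, Pool.Agent.H10.GoldLoc.mem_PP]
              constructor
              · rintro ⟨h5, h6⟩
                exact ⟨h6.pos, by omega, h6⟩
              · rintro ⟨_, h5, h6⟩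
                exact ⟨by omega, h6⟩
            rw [h4]
            apply Finset.sum_congr rfl
            intro p _
            ring
          rw [h3]
          linarith only [h2]
        have h2 : ∑ p ∈ (F + 1).primesBelow, 216 / (p : ℝ) ^ 2 ≤ 216 := by
          have h3 := BfSum_sq_sum F
          have h4 : ∑ p ∈ (F + 1).primesBelow, 216 / (p : ℝ) ^ 2
              = 216 * ∑ p ∈ (F + 1).primesBelow, 1 / (p : ℝ) ^ 2 := by
            rw [Finset.mul_sum]
            apply Finset.sum_congr rfl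
            intro p _
            ring
          rw [h4]
          linarith only [h3]
        linarith only [h1, h2]
    _ = Real.exp (4 * C + 216) * Real.log F ^ 4 := by
        have h1 : 4 * (Real.log (Real.log F) + C) + 216
          = (4 * C + 216) + ((4 : ℕ) : ℝ) * Real.log (Real.log F) := by push_cast; ring
        rw [h1, Real.exp_add, Real.exp_nat_mul, Real.exp_log (by linarith only [hlog])]

/-- `∑_{f ≤ F} f b(f)² sg(f)^4 ≤ C (log F)^4`.

PROOF. `G(f) = f b(f)² sg(f)^4` is multiplicative, `G(p) = (4+4/p+1/p²)(1-1/p)^{-4}/p`,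
`G(p²) = (1-1/p)^{-4}/p²`, `G(p^k) = 0` for `k ≥ 3` (`b(p)=2/p+1/p²`, `b(p²)=1/p²`). So
`∑_{f≤F} G(f) ≤ ∏_{p≤F} (1+G(p)+G(p²)) ≤ exp(∑_{p ≤ F} (4/p + C/p²)) ≤ C (log F)^4` by Mertens
(`∑_{p≤F} 1/p ≤ log log F + C`: `Pool/Agent/H91/PK/MR.lean`, `MR_sum_inv`, or
`H91/GoldMertens3.lean`). -/
theorem bf_sum : ∃ C : ℝ, 0 < C ∧ ∀ F : ℕ, 2 ≤ F →
    ∑ f ∈ Finset.Icc 1 F, (f : ℝ) * (sg f ^ 2 * bf f) ^ 2 ≤ C * Real.log F ^ 4 := by
  obtain ⟨C, hC0, hC⟩ := BfSum_big
  refine ⟨C * 10 ^ 4, by positivity, ?_⟩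
  intro F hF
  change ∑ f ∈ Finset.Icc 1 F, BfSum_G f ≤ _
  have hl2 : 0 < Real.log 2 := Real.log_pos (by norm_num)
  have hlF : Real.log 2 ≤ Real.log F := Real.log_le_log (by norm_num) (by exact_mod_cast hF)
  rcases le_or_gt 1024 F with h | h
  · refine (hC F h).trans ?_
    have h1 : 0 ≤ Real.log F ^ 4 := by positivity
    nlinarith only [hC0, h1, mul_nonneg hC0.le h1]
  · have h1 : ∑ f ∈ Finset.Icc 1 F, BfSum_G f ≤ ∑ f ∈ Finset.Icc 1 1024, BfSum_G f :=
      Finset.sum_le_sum_of_subset_of_nonneg (Finset.Icc_subset_Icc_right h.le)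
        (fun f _ _ => BfSum_G_nonneg f)
    have h2 := hC 1024 le_rfl
    have h3 : Real.log ((1024 : ℕ) : ℝ) = 10 * Real.log 2 := by
      rw [show ((1024 : ℕ) : ℝ) = (2 : ℝ) ^ (10 : ℕ) by norm_num, Real.log_pow]; norm_num
    rw [h3] at h2
    have h4 : Real.log 2 ^ 4 ≤ Real.log F ^ 4 := pow_le_pow_left₀ hl2.le hlF 4
    calc ∑ f ∈ Finset.Icc 1 F, BfSum_G f ≤ C * (10 * Real.log 2) ^ 4 := h1.trans h2
      _ = C * 10 ^ 4 * Real.log 2 ^ 4 := by ring
      _ ≤ C * 10 ^ 4 * Real.log F ^ 4 := by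
          apply mul_le_mul_of_nonneg_left h4
          positivity

end Pool.Agent.H14.CO

end

section

/-!
# IS MerB: the size of tau

A0 x = ∏_{p ≤ z0} (1 - 1/p) ≍ 1/log z0 = (loglog x)^2/log x, so tau x = A0 x · log x ≍ (loglog x)^2.
(upper bound of A0: ∏_{p≤z}(1-1/p)^{-1} ≥ ∑_{n≤z} 1/n ≥ log z; lower bound: Mertens' second theorem.  Any finished file of the pool
may be used, e.g. `Pool.Agent.H91.Gold.mertens_wz`, `Pool.Agent.H91.PK.prod_65536`, `mertens_lower`, `Pool.Agent.H10.GoldLoc.Mertens`.)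
For large x: 1 < z0 x ≤ x, and PA x is the set of all primes ≤ ⌊z0 x⌋.
-/

set_option autoImplicit false

namespace Pool.Agent.H36.IS

open Finset Filter

private theorem MerB_telescope (n : ℕ) :
    ∑ k ∈ Ico 2 (n + 2), (1 : ℝ) / (k * (k - 1)) = 1 - 1 / ((n : ℝ) + 1) := by
  induction n with
  | zero => simp
  | succ n ih =>
    rw [Finset.sum_Ico_succ_top (by omega), ih]
    have h1 : (n : ℝ) + 1 ≠ 0 := by positivity
    have h2 : (n : ℝ) + 2 ≠ 0 := by positivity
    have h3 : (n : ℝ) + 1 + 1 ≠ 0 := by positivity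
    push_cast
    have h4 : (n : ℝ) + 2 - 1 = n + 1 := by ring
    rw [h4]
    field_simp
    ring

private theorem MerB_sum_le (z : ℕ) :
    ∑ p ∈ H10.GoldLoc.PP 0 z, (1 : ℝ) / (p * (p - 1)) ≤ 1 := by
  have h1 : H10.GoldLoc.PP 0 z ⊆ Ico 2 (z + 2) := by
    intro p hp
    rw [H10.GoldLoc.mem_PP] at hp
    rw [mem_Ico]
    exact ⟨hp.2.2.two_le, by omega⟩
  calc ∑ p ∈ H10.GoldLoc.PP 0 z, (1 : ℝ) / (p * (p - 1))
      ≤ ∑ p ∈ Ico 2 (z + 2), (1 : ℝ) / (p * (p - 1)) := by
        apply Finset.sum_le_sum_of_subset_of_nonneg h1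
        intro p hp _
        rw [mem_Ico] at hp
        have : (2 : ℝ) ≤ p := by exact_mod_cast hp.1
        apply div_nonneg zero_le_one
        exact mul_nonneg (by linarith only []) (by linarith only [this])
    _ = 1 - 1 / ((z : ℝ) + 1) := MerB_telescope z
    _ ≤ 1 := by
        have : (0 : ℝ) ≤ 1 / ((z : ℝ) + 1) := by positivity
        linarith only [this]

/-- The lower bound for one factor. -/
private theorem MerB_factor {p : ℕ} (hp : 2 ≤ p) :
    Real.exp (-(1 / (p : ℝ) + 1 / ((p : ℝ) * (p - 1)))) ≤ 1 - 1 / (p : ℝ) := by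
  have h2 : (2 : ℝ) ≤ p := by exact_mod_cast hp
  have h0 : (0 : ℝ) < p := by linarith only [h2]
  have h1 : (0 : ℝ) < (p : ℝ) - 1 := by linarith only [h2]
  have h3 : 1 / (p : ℝ) + 1 / ((p : ℝ) * (p - 1)) = 1 / ((p : ℝ) - 1) := by
    field_simp
    ring
  rw [h3]
  have h4 : 1 + 1 / ((p : ℝ) - 1) ≤ Real.exp (1 / ((p : ℝ) - 1)) := by
    have := Real.add_one_le_exp (1 / ((p : ℝ) - 1))
    linarith only [this]
  have h5 : 1 + 1 / ((p : ℝ) - 1) = ((1 - 1 / (p : ℝ)))⁻¹ := by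
    have : 1 - 1 / (p : ℝ) = (p - 1) / p := by field_simp
    rw [this, inv_div]
    field_simp
    ring
  rw [h5] at h4
  have h6 : 0 < 1 - 1 / (p : ℝ) := by
    have : 1 / (p : ℝ) ≤ 1 / 2 := by
      rw [div_le_div_iff₀ h0 (by norm_num)]
      linarith only [h2]
    linarith only [this]
  rw [Real.exp_neg]
  exact inv_le_of_inv_le₀ h6 h4

private theorem MerB_lower : ∃ c : ℝ, 0 < c ∧ ∀ z : ℕ, 1024 ≤ z →
    c / Real.log z ≤ ∏ p ∈ H10.GoldLoc.PP 0 z, (1 - 1 / (p : ℝ)) := by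
  obtain ⟨C, hC, hM⟩ := H10.GoldLoc.exists_mertens
  refine ⟨Real.exp (-(C + 1)), Real.exp_pos _, fun z hz => ?_⟩
  have hz1 : (1024 : ℝ) ≤ z := by exact_mod_cast hz
  have hlz : 0 < Real.log z := Real.log_pos (by linarith only [hz1])
  calc Real.exp (-(C + 1)) / Real.log z
      = Real.exp (-(Real.log (Real.log z) + C + 1)) := by
        rw [show -(Real.log (Real.log z) + C + 1) = -(C + 1) - Real.log (Real.log z) by ring,
          Real.exp_sub, Real.exp_log hlz]
    _ ≤ Real.exp (∑ p ∈ H10.GoldLoc.PP 0 z, (-(1 / (p : ℝ) + 1 / ((p : ℝ) * (p - 1))))) := by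
        rw [Real.exp_le_exp, Finset.sum_neg_distrib, Finset.sum_add_distrib]
        have h1 := hM z hz
        have h2 := MerB_sum_le z
        linarith only [h1, h2]
    _ = ∏ p ∈ H10.GoldLoc.PP 0 z, Real.exp (-(1 / (p : ℝ) + 1 / ((p : ℝ) * (p - 1)))) :=
        Real.exp_sum _ _
    _ ≤ ∏ p ∈ H10.GoldLoc.PP 0 z, (1 - 1 / (p : ℝ)) := by
        apply Finset.prod_le_prod
        · intro p _
          exact (Real.exp_pos _).le
        · intro p hp
          rw [H10.GoldLoc.mem_PP] at hp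
          exact MerB_factor hp.2.2.two_le

theorem tau_bounds : ∃ c C : ℝ, 0 < c ∧ 0 < C ∧ ∀ᶠ x : ℕ in atTop,
    c * Real.log (Real.log x) ^ 2 ≤ tau x ∧ tau x ≤ C * Real.log (Real.log x) ^ 2 := by
  obtain ⟨c, hc, hlow⟩ := MerB_lower
  refine ⟨c, 2, hc, by norm_num, ?_⟩
  have hL : Tendsto (fun x : ℕ => Real.log (x : ℝ)) atTop atTop :=
    Real.tendsto_log_atTop.comp tendsto_natCast_atTop_atTop
  have hl : Tendsto (fun x : ℕ => Real.log (Real.log (x : ℝ))) atTop atTop :=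
    Real.tendsto_log_atTop.comp hL
  have ho : ∀ᶠ L : ℝ in atTop, ‖Real.log L ^ 2‖ ≤ (1 / 8) * ‖L‖ :=
    (Real.isLittleO_pow_log_id_atTop (n := 2)).def (by norm_num)
  filter_upwards [hL.eventually ho, hL.eventually_ge_atTop 1, hl.eventually_ge_atTop 1,
    eventually_ge_atTop 1] with x h1 h2 h3 h4
  set L : ℝ := Real.log x with hLdef
  set l : ℝ := Real.log L with hldef
  have hL0 : 0 < L := by linarith only [h2]
  have hl2 : 0 < l ^ 2 := by positivity
  have h5 : l ^ 2 ≤ (1 / 8) * L := by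
    rw [Real.norm_of_nonneg hl2.le, Real.norm_of_nonneg hL0.le] at h1
    exact h1
  have hx0 : (0 : ℝ) < x := by exact_mod_cast h4
  have h6 : 8 ≤ L / l ^ 2 := by
    rw [le_div_iff₀ hl2]
    linarith only [h5]
  have h7 : L / l ^ 2 ≤ L := by
    rw [div_le_iff₀ hl2]
    have h1l : 1 ≤ l ^ 2 := by nlinarith only [h3]
    have := mul_le_mul_of_nonneg_left h1l hL0.le
    linarith only [this]
  have hz0 : z0 x = Real.exp (L / l ^ 2) := rfl
  have hz0x : z0 x ≤ x := by
    rw [hz0]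
    calc Real.exp (L / l ^ 2) ≤ Real.exp L := Real.exp_le_exp.mpr h7
      _ = x := Real.exp_log hx0
  have he8 : (2000 : ℝ) ≤ z0 x := by
    rw [hz0]
    have h8 : Real.exp 8 ≤ Real.exp (L / l ^ 2) := Real.exp_le_exp.mpr h6
    have h9 : Real.exp 8 = Real.exp 1 ^ 8 := by
      rw [← Real.exp_nat_mul]
      norm_num
    have h10 : (2.7 : ℝ) ≤ Real.exp 1 := by
      have := Real.exp_one_gt_d9
      linarith only [this]
    have h11 : (2.7 : ℝ) ^ 8 ≤ Real.exp 1 ^ 8 := pow_le_pow_left₀ (by norm_num) h10 8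
    have h12 : (2000 : ℝ) ≤ 2.7 ^ 8 := by norm_num
    linarith only [h8, h9, h11]
  set z : ℕ := ⌊z0 x⌋₊ with hz
  have hzle : (z : ℝ) ≤ z0 x := Nat.floor_le (by linarith only [he8])
  have hzgt : z0 x < z + 1 := Nat.lt_floor_add_one _
  have hz1024 : 1024 ≤ z := by
    have : (1024 : ℝ) ≤ z := by linarith only [he8, hzgt]
    exact_mod_cast this
  have hzR : (1024 : ℝ) ≤ z := by exact_mod_cast hz1024
  have hPA : PA x = H10.GoldLoc.PP 0 z := by
    ext p
    unfold PA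
    rw [mem_filter, mem_range, H10.GoldLoc.mem_PP]
    constructor
    · rintro ⟨_, hp, hpz⟩
      exact ⟨hp.pos, Nat.le_floor hpz, hp⟩
    · rintro ⟨_, hpz, hp⟩
      have h13 : (p : ℝ) ≤ z0 x := le_trans (by exact_mod_cast hpz) hzle
      refine ⟨?_, hp, h13⟩
      have : (p : ℝ) ≤ x := h13.trans hz0x
      have : p ≤ x := by exact_mod_cast this
      omega
  have hlogz0 : Real.log (z0 x) = L / l ^ 2 := by
    rw [hz0, Real.log_exp]
  have hlz : 0 < Real.log z := Real.log_pos (by linarith only [he8, hzgt])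
  have hlz1 : Real.log z ≤ L / l ^ 2 := by
    rw [← hlogz0]
    exact Real.log_le_log (by linarith only [he8, hzgt]) hzle
  have hlz2 : (L / l ^ 2) / 2 ≤ Real.log z := by
    have h14 : Real.log (z0 x / 2) ≤ Real.log z := by
      apply Real.log_le_log (by linarith only [he8])
      linarith only [he8, hzgt]
    rw [Real.log_div (by linarith only [he8]) (by norm_num), hlogz0] at h14
    have h15 : Real.log 2 ≤ 1 := by
      have := Real.log_two_lt_d9
      linarith only [this]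
    linarith only [h6, h14, h15]
  have hA0 : A0 x = ∏ p ∈ H10.GoldLoc.PP 0 z, (1 - 1 / (p : ℝ)) := by
    unfold A0
    rw [hPA]
  have hup : A0 x ≤ 1 / Real.log z := by
    rw [hA0]
    exact H10.GoldLoc.prod_le_inv_log (by omega)
  have hlo : c / Real.log z ≤ A0 x := by
    rw [hA0]
    exact hlow z hz1024
  have htau : tau x = A0 x * L := rfl
  rw [htau]
  constructor
  · have h16 : c * l ^ 2 / L ≤ c / Real.log z := by
      rw [div_le_div_iff₀ hL0 hlz]
      have h17 : Real.log z * l ^ 2 ≤ L := by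
        rwa [le_div_iff₀ hl2] at hlz1
      nlinarith only [hc, h17]
    have h18 : c * l ^ 2 / L ≤ A0 x := h16.trans hlo
    rw [div_le_iff₀ hL0] at h18
    exact h18
  · have h19 : 1 / Real.log z ≤ 2 * l ^ 2 / L := by
      rw [div_le_div_iff₀ hlz hL0]
      have h20 : L ≤ 2 * Real.log z * l ^ 2 := by
        have h21 : L / l ^ 2 ≤ 2 * Real.log z := by linarith only [hlz2]
        rwa [div_le_iff₀ hl2] at h21
      linarith only [h20]
    have h22 : A0 x ≤ 2 * l ^ 2 / L := hup.trans h19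
    rwa [le_div_iff₀ hL0] at h22

end Pool.Agent.H36.IS

end
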