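import Pool.Agent.H15.TB1.M02

/-! The parts of this file: H91.EHA.T1fin, H35.W.MeanV, H92.EH3.DivBound, H88.PSI.Defs, H88.PSI.Pw, H88.PSI.Dpm, H88.PSI.BoxD, H88.PSI.Mvt, H88.PSI.Cov, H88.PSI.BoxI, H88.PSI.HB, H88.PSI.Dy. -/

section

/-!
# From the second moment of `hR` to the range `Q A ≥ x^{1+ε}`
-/

set_option autoImplicit false

namespace Pool.Agent.H91.EHA

open Finset

/-- powers of `log x` are eventually smaller than any positive power of `x`. -/
lemma log_pow_le_rpow (m : ℕ) (δ : ℝ) (hδ : 0 < δ) : ∃ x0 : ℕ, ∀ x : ℕ, x0 ≤ x →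
    Real.log x ^ m ≤ (x : ℝ) ^ δ := by
  have h := isLittleO_log_rpow_rpow_atTop (m : ℝ) hδ
  have h2 := h.bound (show (0:ℝ) < 1 by norm_num)
  have h3 := (tendsto_natCast_atTop_atTop (R := ℝ)).eventually h2
  obtain ⟨x0, hx0⟩ := Filter.eventually_atTop.1 h3
  refine ⟨max x0 1, fun x hx => ?_⟩
  have h4 := hx0 x (le_trans (le_max_left _ _) hx)
  have h5 : (1:ℝ) ≤ x := by exact_mod_cast le_trans (le_max_right _ _) hx
  have h6 : 0 ≤ Real.log x := Real.log_nonneg h5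
  rw [Real.norm_of_nonneg (by positivity), Real.norm_of_nonneg (by positivity), one_mul,
    Real.rpow_natCast] at h4
  exact h4

/-- the logarithm is eventually larger than any constant. -/
lemma log_ge (K : ℝ) : ∃ x0 : ℕ, ∀ x : ℕ, x0 ≤ x → K ≤ Real.log x := by
  have h := Real.tendsto_log_atTop.comp (tendsto_natCast_atTop_atTop (R := ℝ))
  have h2 := h.eventually (Filter.eventually_ge_atTop K)
  obtain ⟨x0, hx0⟩ := Filter.eventually_atTop.1 h2
  exact ⟨x0, fun x hx => hx0 x hx⟩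

end Pool.Agent.H91.EHA

end

section

/-!
# W MeanV: mean value theorem for Dirichlet polynomials (elementary)

Proof.  Expand: `∫_{-T}^T ‖∑‖^2 = ∑_{m,m'} a_m conj(a_m') (m m')^{-1/2} ∫_{-T}^T (m/m')^{it} dt`; the diagonal gives
`2T ∑ |a_m|^2/m`; for `m ≠ m'` the integral is `≤ 2/|log(m/m')| ≤ 2 X/|m - m'|` in absolute value
(`|log(m/m')| ≥ |m-m'|/max(m,m')`), `|a_m a_m'| (m m')^{-1/2} ≤ (|a_m|^2/m + |a_m'|^2/m')/2`, and
`∑_{m' ≠ m, m' ≤ X} 1/|m-m'| ≤ 2 (1 + log X)`.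
-/

set_option autoImplicit false

namespace Pool.Agent.H35.W

open Finset MeasureTheory

/-- the integral of a character -/
private theorem mv_int (T c : ℝ) (hc : c ≠ 0) :
    ‖∫ t in (-T)..T, Complex.exp ((c * Complex.I) * (t : ℂ))‖ ≤ 2 / |c| := by
  have hc' : (c * Complex.I : ℂ) ≠ 0 := by
    simp [hc]
  rw [integral_exp_mul_complex hc', norm_div]
  have h1 : ‖(c * Complex.I : ℂ)‖ = |c| := by simp
  rw [h1]
  refine div_le_div_of_nonneg_right ?_ (abs_nonneg _)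
  have e : ∀ s : ℝ, ‖Complex.exp ((c * Complex.I) * (s : ℂ))‖ = 1 := by
    intro s
    have : (c * Complex.I) * (s : ℂ) = ((c * s : ℝ) : ℂ) * Complex.I := by push_cast; ring
    rw [this, Complex.norm_exp_ofReal_mul_I]
  refine (norm_sub_le _ _).trans ?_
  rw [e, e]
  norm_num

/-- expansion of the mean square -/
private theorem mv_expand (b : ℕ → ℂ) (l : ℕ → ℝ) (S : Finset ℕ) (T : ℝ) :
    ∫ t in (-T)..T, ‖∑ m ∈ S, b m * Complex.exp ((l m * Complex.I) * (t : ℂ))‖ ^ 2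
      ≤ ∑ m ∈ S, ∑ n ∈ S, ‖b m‖ * ‖b n‖ *
        ‖∫ t in (-T)..T, Complex.exp ((((l m - l n : ℝ) : ℂ) * Complex.I) * (t : ℂ))‖ := by
  have hpt : ∀ t : ℝ, ((‖∑ m ∈ S, b m * Complex.exp ((l m * Complex.I) * (t : ℂ))‖ ^ 2 : ℝ) : ℂ)
      = ∑ m ∈ S, ∑ n ∈ S, b m * (starRingEnd ℂ) (b n) *
        Complex.exp ((((l m - l n : ℝ) : ℂ) * Complex.I) * (t : ℂ)) := by
    intro t
    rw [← Complex.normSq_eq_norm_sq, ← Complex.mul_conj, map_sum, Finset.sum_mul_sum]
    refine Finset.sum_congr rfl fun m _ => Finset.sum_congr rfl fun n _ => ?_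
    rw [map_mul, ← Complex.exp_conj]
    have : (starRingEnd ℂ) ((l n * Complex.I) * (t : ℂ)) = -((l n * Complex.I) * (t : ℂ)) := by
      simp
    rw [this]
    have e : Complex.exp ((((l m - l n : ℝ) : ℂ) * Complex.I) * (t : ℂ)) =
        Complex.exp ((l m * Complex.I) * (t : ℂ)) * Complex.exp (-((l n * Complex.I) * (t : ℂ))) := by
      rw [← Complex.exp_add]
      congr 1
      push_cast
      ring
    rw [e]
    ring
  have hcont : ∀ c : ℝ, Continuous fun t : ℝ => Complex.exp ((c * Complex.I) * (t : ℂ)) := by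
    intro c
    fun_prop
  have hint : ((∫ t in (-T)..T, ‖∑ m ∈ S, b m * Complex.exp ((l m * Complex.I) * (t : ℂ))‖ ^ 2 : ℝ) : ℂ)
      = ∑ m ∈ S, ∑ n ∈ S, b m * (starRingEnd ℂ) (b n) *
        ∫ t in (-T)..T, Complex.exp ((((l m - l n : ℝ) : ℂ) * Complex.I) * (t : ℂ)) := by
    rw [← intervalIntegral.integral_ofReal]
    have : (fun t : ℝ => ((‖∑ m ∈ S, b m * Complex.exp ((l m * Complex.I) * (t : ℂ))‖ ^ 2 : ℝ) : ℂ))
        = fun t : ℝ => ∑ m ∈ S, ∑ n ∈ S, b m * (starRingEnd ℂ) (b n) *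
        Complex.exp ((((l m - l n : ℝ) : ℂ) * Complex.I) * (t : ℂ)) := funext hpt
    rw [intervalIntegral.integral_congr (g := fun t : ℝ => ∑ m ∈ S, ∑ n ∈ S,
      b m * (starRingEnd ℂ) (b n) *
        Complex.exp ((((l m - l n : ℝ) : ℂ) * Complex.I) * (t : ℂ))) (fun t _ => hpt t)]
    rw [intervalIntegral.integral_finsetSum]
    · refine Finset.sum_congr rfl fun m _ => ?_
      rw [intervalIntegral.integral_finsetSum]
      · refine Finset.sum_congr rfl fun n _ => ?_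
        rw [intervalIntegral.integral_const_mul]
      · intro n _
        exact ((hcont _).const_mul _).intervalIntegrable _ _
    · intro m _
      refine Continuous.intervalIntegrable ?_ _ _
      refine continuous_finsetSum _ fun n _ => ?_
      exact continuous_const.mul (hcont _)
  have hn : ∫ t in (-T)..T, ‖∑ m ∈ S, b m * Complex.exp ((l m * Complex.I) * (t : ℂ))‖ ^ 2 ≤
      ‖((∫ t in (-T)..T, ‖∑ m ∈ S, b m * Complex.exp ((l m * Complex.I) * (t : ℂ))‖ ^ 2 : ℝ) : ℂ)‖ := by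
    rw [Complex.norm_real]
    exact le_abs_self _
  refine hn.trans ?_
  rw [hint]
  refine (norm_sum_le _ _).trans (Finset.sum_le_sum fun m _ => ?_)
  refine (norm_sum_le _ _).trans (Finset.sum_le_sum fun n _ => ?_)
  rw [norm_mul, norm_mul, Complex.norm_conj]

/-- harmonic bound -/
private theorem mv_harm (X : ℕ) : ∑ i ∈ range X, (1 : ℝ) / ((i : ℝ) + 1) ≤ 1 + Real.log X := by
  have h := harmonic_le_one_add_log X
  have e : ((harmonic X : ℚ) : ℝ) = ∑ i ∈ range X, (1 : ℝ) / ((i : ℝ) + 1) := by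
    unfold harmonic
    push_cast
    exact Finset.sum_congr rfl fun i _ => by rw [one_div]
  linarith only [h, e]

private theorem mv_row (X m : ℕ) (hm : m ∈ Icc 1 X) :
    ∑ n ∈ (Icc 1 X).filter (fun n => n ≠ m), (1 : ℝ) / |(m : ℝ) - n| ≤ 2 * (1 + Real.log X) := by
  have hm' := Finset.mem_Icc.1 hm
  have hsplit : (Icc 1 X).filter (fun n => n ≠ m) =
      (Icc 1 X).filter (fun n => n < m) ∪ (Icc 1 X).filter (fun n => m < n) := by
    ext n
    simp only [Finset.mem_filter, Finset.mem_union, Finset.mem_Icc]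
    omega
  have hdisj : Disjoint ((Icc 1 X).filter (fun n => n < m)) ((Icc 1 X).filter (fun n => m < n)) := by
    rw [Finset.disjoint_left]
    intro n h1 h2
    have := (Finset.mem_filter.1 h1).2
    have := (Finset.mem_filter.1 h2).2
    omega
  rw [hsplit, Finset.sum_union hdisj]
  have h1 : ∑ n ∈ (Icc 1 X).filter (fun n => n < m), (1 : ℝ) / |(m : ℝ) - n| ≤ 1 + Real.log X := by
    refine le_trans ?_ (mv_harm X)
    have hinj : Set.InjOn (fun n => m - n - 1) ((Icc 1 X).filter (fun n => n < m) : Finset ℕ) := by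
      intro a ha b hb hab
      have ha' := (Finset.mem_filter.1 (Finset.mem_coe.1 ha)).2
      have hb' := (Finset.mem_filter.1 (Finset.mem_coe.1 hb)).2
      simp only at hab
      omega
    have hsub : ((Icc 1 X).filter (fun n => n < m)).image (fun n => m - n - 1) ⊆ range X := by
      intro k hk
      obtain ⟨n, hn, rfl⟩ := Finset.mem_image.1 hk
      have hn' := Finset.mem_filter.1 hn
      have := Finset.mem_Icc.1 hn'.1
      rw [Finset.mem_range]
      omega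
    calc ∑ n ∈ (Icc 1 X).filter (fun n => n < m), (1 : ℝ) / |(m : ℝ) - n|
        = ∑ n ∈ (Icc 1 X).filter (fun n => n < m), (1 : ℝ) / (((m - n - 1 : ℕ) : ℝ) + 1) := by
          refine Finset.sum_congr rfl fun n hn => ?_
          have hn' := (Finset.mem_filter.1 hn).2
          have e : ((m - n - 1 : ℕ) : ℝ) + 1 = (m : ℝ) - n := by
            have : m - n - 1 + 1 + n = m := by omega
            have h3 : (((m - n - 1 + 1 + n : ℕ)) : ℝ) = (m : ℝ) := by rw [this]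
            push_cast at h3
            linarith only [h3]
          rw [e, abs_of_pos]
          have : (n : ℝ) < m := by exact_mod_cast hn'
          linarith only [e]
      _ = ∑ k ∈ ((Icc 1 X).filter (fun n => n < m)).image (fun n => m - n - 1),
            (1 : ℝ) / ((k : ℝ) + 1) := by
          rw [Finset.sum_image hinj]
      _ ≤ ∑ i ∈ range X, (1 : ℝ) / ((i : ℝ) + 1) :=
          Finset.sum_le_sum_of_subset_of_nonneg hsub fun i _ _ => by positivity
  have h2 : ∑ n ∈ (Icc 1 X).filter (fun n => m < n), (1 : ℝ) / |(m : ℝ) - n| ≤ 1 + Real.log X := by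
    refine le_trans ?_ (mv_harm X)
    have hinj : Set.InjOn (fun n => n - m - 1) ((Icc 1 X).filter (fun n => m < n) : Finset ℕ) := by
      intro a ha b hb hab
      have ha' := (Finset.mem_filter.1 (Finset.mem_coe.1 ha)).2
      have hb' := (Finset.mem_filter.1 (Finset.mem_coe.1 hb)).2
      simp only at hab
      omega
    have hsub : ((Icc 1 X).filter (fun n => m < n)).image (fun n => n - m - 1) ⊆ range X := by
      intro k hk
      obtain ⟨n, hn, rfl⟩ := Finset.mem_image.1 hk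
      have hn' := Finset.mem_filter.1 hn
      have := Finset.mem_Icc.1 hn'.1
      rw [Finset.mem_range]
      omega
    calc ∑ n ∈ (Icc 1 X).filter (fun n => m < n), (1 : ℝ) / |(m : ℝ) - n|
        = ∑ n ∈ (Icc 1 X).filter (fun n => m < n), (1 : ℝ) / (((n - m - 1 : ℕ) : ℝ) + 1) := by
          refine Finset.sum_congr rfl fun n hn => ?_
          have hn' := (Finset.mem_filter.1 hn).2
          have e : ((n - m - 1 : ℕ) : ℝ) + 1 = (n : ℝ) - m := by
            have : n - m - 1 + 1 + m = n := by omega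
            have h3 : (((n - m - 1 + 1 + m : ℕ)) : ℝ) = (n : ℝ) := by rw [this]
            push_cast at h3
            linarith only [h3]
          rw [e, abs_sub_comm, abs_of_pos]
          have : (m : ℝ) < n := by exact_mod_cast hn'
          linarith only [e]
      _ = ∑ k ∈ ((Icc 1 X).filter (fun n => m < n)).image (fun n => n - m - 1),
            (1 : ℝ) / ((k : ℝ) + 1) := by
          rw [Finset.sum_image hinj]
      _ ≤ ∑ i ∈ range X, (1 : ℝ) / ((i : ℝ) + 1) :=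
          Finset.sum_le_sum_of_subset_of_nonneg hsub fun i _ _ => by positivity
  linarith only [h1, h2]

private theorem mv_log {m n X : ℕ} (hm : m ∈ Icc 1 X) (hn : n ∈ Icc 1 X) (hne : n ≠ m) :
    |(m : ℝ) - n| / X ≤ |Real.log m - Real.log n| := by
  have key : ∀ a b : ℕ, a ∈ Icc 1 X → b ∈ Icc 1 X → b < a →
      ((a : ℝ) - b) / X ≤ Real.log a - Real.log b := by
    intro a b ha hb hlt
    have ha' := Finset.mem_Icc.1 ha
    have hb' := Finset.mem_Icc.1 hb
    have ha0 : (0 : ℝ) < a := by exact_mod_cast (show 0 < a by omega)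
    have hb0 : (0 : ℝ) < b := by exact_mod_cast (show 0 < b by omega)
    have hX : (0 : ℝ) < X := by exact_mod_cast (show 0 < X by omega)
    have haX : (a : ℝ) ≤ X := by exact_mod_cast ha'.2
    have hlt' : (b : ℝ) < a := by exact_mod_cast hlt
    have h := Real.log_le_sub_one_of_pos (div_pos hb0 ha0)
    rw [Real.log_div hb0.ne' ha0.ne'] at h
    have e : (b : ℝ) / a - 1 = -(((a : ℝ) - b) / a) := by field_simp; ring
    rw [e] at h
    have h2 : ((a : ℝ) - b) / X ≤ ((a : ℝ) - b) / a :=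
      div_le_div_of_nonneg_left (by linarith only [hlt']) ha0 haX
    linarith only [h, h2]
  rcases lt_or_gt_of_ne hne with h | h
  · have h1 := key m n hm hn h
    have h2 : (n : ℝ) < m := by exact_mod_cast h
    rw [abs_of_pos (by linarith : (0 : ℝ) < (m : ℝ) - n)]
    exact h1.trans (le_abs_self _)
  · have h1 := key n m hn hm h
    have h2 : (m : ℝ) < n := by exact_mod_cast h
    rw [abs_sub_comm, abs_of_pos (by linarith only [h2] : (0 : ℝ) < (n : ℝ) - m), abs_sub_comm]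
    exact h1.trans (le_abs_self _)

/-- the kernel -/
private noncomputable def mvK (X : ℕ) (T : ℝ) (m n : ℕ) : ℝ :=
  if n = m then 2 * T else 2 * X * (1 / |(m : ℝ) - n|)

private theorem mvK_symm (X : ℕ) (T : ℝ) (m n : ℕ) : mvK X T m n = mvK X T n m := by
  unfold mvK
  by_cases h : n = m
  · rw [if_pos h, if_pos h.symm]
  · rw [if_neg h, if_neg (Ne.symm h), abs_sub_comm]

private theorem mvK_nonneg (X : ℕ) {T : ℝ} (hT : 0 ≤ T) (m n : ℕ) : 0 ≤ mvK X T m n := by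
  unfold mvK
  split_ifs <;> positivity

private theorem mvK_row (X m : ℕ) (T : ℝ) (hm : m ∈ Icc 1 X) :
    ∑ n ∈ Icc 1 X, mvK X T m n ≤ 2 * T + 4 * X * (1 + Real.log X) := by
  rw [← Finset.sum_filter_add_sum_filter_not (Icc 1 X) (fun n => n = m)]
  have h1 : ∑ n ∈ (Icc 1 X).filter (fun n => n = m), mvK X T m n = 2 * T := by
    rw [Finset.filter_eq' (Icc 1 X) m, if_pos hm, Finset.sum_singleton]
    unfold mvK
    rw [if_pos rfl]
  have h2 : ∑ n ∈ (Icc 1 X).filter (fun n => ¬ n = m), mvK X T m n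
      = 2 * X * ∑ n ∈ (Icc 1 X).filter (fun n => n ≠ m), (1 : ℝ) / |(m : ℝ) - n| := by
    rw [Finset.mul_sum]
    refine Finset.sum_congr rfl fun n hn => ?_
    unfold mvK
    rw [if_neg (Finset.mem_filter.1 hn).2]
  rw [h1, h2]
  have h3 := mul_le_mul_of_nonneg_left (mv_row X m hm) (by positivity : (0 : ℝ) ≤ 2 * X)
  linarith only [h3]

private theorem mv_kernel {X m n : ℕ} {T : ℝ} (hT : 0 ≤ T) (hm : m ∈ Icc 1 X) (hn : n ∈ Icc 1 X) :
    ‖∫ t in (-T)..T, Complex.exp ((((Real.log m - Real.log n : ℝ) : ℂ) * Complex.I) * (t : ℂ))‖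
      ≤ mvK X T m n := by
  unfold mvK
  by_cases h : n = m
  · rw [if_pos h, h]
    have e : ∀ t : ℝ, Complex.exp ((((Real.log m - Real.log m : ℝ) : ℂ) * Complex.I) * (t : ℂ)) = 1 := by
      intro t
      rw [sub_self]
      simp
    simp only [e]
    rw [intervalIntegral.integral_const]
    simp only [Complex.real_smul, mul_one]
    rw [Complex.norm_real, Real.norm_eq_abs, abs_of_nonneg (by linarith only [hT])]
    linarith only
  · rw [if_neg h]
    have hX : (0 : ℝ) < X := by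
      have := Finset.mem_Icc.1 hm
      exact_mod_cast (show 0 < X by omega)
    have hne : (m : ℝ) - n ≠ 0 := by
      intro h0
      apply h
      have : (n : ℝ) = m := by linarith only [h0]
      exact_mod_cast this
    have hpos : 0 < |(m : ℝ) - n| := abs_pos.2 hne
    have hl := mv_log hm hn h
    have hlpos : 0 < |Real.log m - Real.log n| := lt_of_lt_of_le (div_pos hpos hX) hl
    refine (mv_int T _ (abs_pos.1 hlpos)).trans ?_
    calc 2 / |Real.log m - Real.log n| ≤ 2 / (|(m : ℝ) - n| / X) :=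
          div_le_div_of_nonneg_left (by norm_num) (div_pos hpos hX) hl
      _ = 2 * X * (1 / |(m : ℝ) - n|) := by field_simp

theorem mean_v (a : ℕ → ℂ) (X : ℕ) (T : ℝ) (hX : 1 ≤ X) (hT : 0 ≤ T) :
    ∫ t in (-T)..T, ‖∑ m ∈ Icc 1 X, a m * (m : ℂ) ^ (-(1 / 2 : ℂ) + t * Complex.I)‖ ^ 2
      ≤ (2 * T + 4 * X * (1 + Real.log X)) * ∑ m ∈ Icc 1 X, ‖a m‖ ^ 2 / m := by
  set b : ℕ → ℂ := fun m => a m * (m : ℂ) ^ (-(1 / 2 : ℂ)) with hb
  have hbn : ∀ m ∈ Icc 1 X, ‖b m‖ ^ 2 = ‖a m‖ ^ 2 / m := by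
    intro m hm
    have hm' := Finset.mem_Icc.1 hm
    have hm0 : (0 : ℝ) < m := by exact_mod_cast (show 0 < m by omega)
    rw [hb]
    simp only
    rw [norm_mul, mul_pow, Complex.norm_natCast_cpow_of_pos (by omega)]
    have e : (-(1 / 2 : ℂ)).re = -(1 / 2 : ℝ) := by simp
    rw [e, ← Real.rpow_natCast, ← Real.rpow_natCast, ← Real.rpow_mul hm0.le]
    norm_num
    rw [Real.rpow_neg_one]
    ring
  have hpt : ∀ t : ℝ, ∑ m ∈ Icc 1 X, a m * (m : ℂ) ^ (-(1 / 2 : ℂ) + t * Complex.I)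
      = ∑ m ∈ Icc 1 X, b m * Complex.exp ((((Real.log m : ℝ) : ℂ) * Complex.I) * (t : ℂ)) := by
    intro t
    refine Finset.sum_congr rfl fun m hm => ?_
    have hm' := Finset.mem_Icc.1 hm
    have hm0 : (m : ℂ) ≠ 0 := by exact_mod_cast (show m ≠ 0 by omega)
    rw [hb]
    simp only
    rw [Complex.cpow_add _ _ hm0, mul_assoc]
    congr 2
    rw [Complex.cpow_def_of_ne_zero hm0, ← Complex.natCast_log]
    congr 1
    ring
  simp_rw [hpt]
  refine (mv_expand b (fun m => Real.log m) (Icc 1 X) T).trans ?_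
  calc ∑ m ∈ Icc 1 X, ∑ n ∈ Icc 1 X, ‖b m‖ * ‖b n‖ *
        ‖∫ t in (-T)..T, Complex.exp ((((Real.log m - Real.log n : ℝ) : ℂ) * Complex.I) * (t : ℂ))‖
      ≤ ∑ m ∈ Icc 1 X, ∑ n ∈ Icc 1 X, (‖b m‖ ^ 2 / 2 * mvK X T m n + ‖b n‖ ^ 2 / 2 * mvK X T m n) := by
        refine Finset.sum_le_sum fun m hm => Finset.sum_le_sum fun n hn => ?_
        have h1 := mv_kernel hT hm hn
        have h2 : ‖b m‖ * ‖b n‖ ≤ ‖b m‖ ^ 2 / 2 + ‖b n‖ ^ 2 / 2 := by
          nlinarith only [sq_nonneg (‖b m‖ - ‖b n‖)]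
        have h3 := mvK_nonneg X hT m n
        calc ‖b m‖ * ‖b n‖ * ‖∫ t in (-T)..T,
              Complex.exp ((((Real.log m - Real.log n : ℝ) : ℂ) * Complex.I) * (t : ℂ))‖
            ≤ ‖b m‖ * ‖b n‖ * mvK X T m n := mul_le_mul_of_nonneg_left h1 (by positivity)
          _ ≤ (‖b m‖ ^ 2 / 2 + ‖b n‖ ^ 2 / 2) * mvK X T m n := mul_le_mul_of_nonneg_right h2 h3
          _ = _ := by ring
    _ = ∑ m ∈ Icc 1 X, ‖b m‖ ^ 2 * ∑ n ∈ Icc 1 X, mvK X T m n := by
        simp_rw [Finset.sum_add_distrib]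
        have e1 : ∑ m ∈ Icc 1 X, ∑ n ∈ Icc 1 X, ‖b n‖ ^ 2 / 2 * mvK X T m n
            = ∑ m ∈ Icc 1 X, ∑ n ∈ Icc 1 X, ‖b m‖ ^ 2 / 2 * mvK X T m n := by
          rw [Finset.sum_comm]
          refine Finset.sum_congr rfl fun m _ => Finset.sum_congr rfl fun n _ => ?_
          rw [mvK_symm]
        rw [e1, ← Finset.sum_add_distrib]
        refine Finset.sum_congr rfl fun m _ => ?_
        rw [← Finset.sum_add_distrib, Finset.mul_sum]
        refine Finset.sum_congr rfl fun n _ => ?_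
        ring
    _ ≤ ∑ m ∈ Icc 1 X, ‖b m‖ ^ 2 * (2 * T + 4 * X * (1 + Real.log X)) := by
        refine Finset.sum_le_sum fun m hm => ?_
        exact mul_le_mul_of_nonneg_left (mvK_row X m T hm) (by positivity)
    _ = (2 * T + 4 * X * (1 + Real.log X)) * ∑ m ∈ Icc 1 X, ‖a m‖ ^ 2 / m := by
        rw [Finset.mul_sum]
        refine Finset.sum_congr rfl fun m hm => ?_
        rw [hbn m hm]
        ring

end Pool.Agent.H35.W

end

section

/-!
The divisor bound.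
-/

set_option autoImplicit false

namespace Pool.Agent.H92.EH

open Finset

theorem div_bound (ε : ℝ) (hε : 0 < ε) : ∃ C : ℝ, 1 ≤ C ∧ ∀ n : ℕ, 1 ≤ n →
    (n.divisors.card : ℝ) ≤ C * (n : ℝ) ^ ε := by
  have hlog2 : 0 < Real.log 2 := Real.log_pos (by norm_num)
  set K : ℝ := 1 + 1 / (ε * Real.log 2) with hK
  have hK1 : 1 ≤ K := by
    rw [hK]
    have : 0 < 1 / (ε * Real.log 2) := by positivity
    linarith
  set P0 : ℕ := ⌈(2 : ℝ) ^ (1 / ε)⌉₊ with hP0
  refine ⟨K ^ P0, one_le_pow₀ hK1, ?_⟩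
  intro n hn
  have hn0 : n ≠ 0 := by omega
  have hfac : ∀ p ∈ n.primeFactors, ((n.factorization p + 1 : ℕ) : ℝ) ≤
      (if p < P0 then K else 1) * ((p : ℝ) ^ (n.factorization p)) ^ ε := by
    intro p hp
    have hpp := Nat.prime_of_mem_primeFactors hp
    have hp2 : (2 : ℝ) ≤ p := by exact_mod_cast hpp.two_le
    set v := n.factorization p with hv
    have e1 : ((p : ℝ) ^ v) ^ ε = ((p : ℝ) ^ ε) ^ v := by
      rw [← Real.rpow_natCast, ← Real.rpow_mul (by linarith), mul_comm, Real.rpow_mul (by linarith),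
        Real.rpow_natCast]
    rw [e1]
    split_ifs with h
    · have h1 : ((2 : ℝ) ^ ε) ^ v ≤ ((p : ℝ) ^ ε) ^ v :=
        pow_le_pow_left₀ (by positivity) (Real.rpow_le_rpow (by norm_num) hp2 hε.le) v
      have h2 : 1 + (v : ℝ) * (ε * Real.log 2) ≤ ((2 : ℝ) ^ ε) ^ v := by
        have h3 : 1 + ε * Real.log 2 ≤ (2 : ℝ) ^ ε := by
          rw [Real.rpow_def_of_pos (by norm_num)]
          have := Real.add_one_le_exp (Real.log 2 * ε)
          linarith
        have h4 : 1 + (v : ℝ) * (ε * Real.log 2) ≤ (1 + ε * Real.log 2) ^ v :=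
          one_add_mul_le_pow (by nlinarith [mul_pos hε hlog2]) v
        refine h4.trans ?_
        exact pow_le_pow_left₀ (by positivity) h3 v
      have h5 : ((v + 1 : ℕ) : ℝ) ≤ K * (1 + (v : ℝ) * (ε * Real.log 2)) := by
        have h6 : K * (1 + (v : ℝ) * (ε * Real.log 2))
            = 1 + v + 1 / (ε * Real.log 2) + (v : ℝ) * (ε * Real.log 2) := by
          rw [hK]
          field_simp
          ring
        rw [h6]
        push_cast
        have h7 : 0 < 1 / (ε * Real.log 2) := by positivity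
        have h8 : 0 ≤ (v : ℝ) * (ε * Real.log 2) := by positivity
        linarith
      calc ((v + 1 : ℕ) : ℝ) ≤ K * (1 + (v : ℝ) * (ε * Real.log 2)) := h5
        _ ≤ K * ((p : ℝ) ^ ε) ^ v := mul_le_mul_of_nonneg_left (h2.trans h1) (by linarith)
    · push Not at h
      have h1 : (2 : ℝ) ^ (1 / ε) ≤ p := by
        refine (Nat.le_ceil _).trans ?_
        exact_mod_cast h
      have h2 : (2 : ℝ) ≤ (p : ℝ) ^ ε := by
        calc (2 : ℝ) = ((2 : ℝ) ^ (1 / ε)) ^ ε := by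
              rw [← Real.rpow_mul (by norm_num), one_div, inv_mul_cancel₀ hε.ne', Real.rpow_one]
          _ ≤ (p : ℝ) ^ ε := Real.rpow_le_rpow (by positivity) h1 hε.le
      have h3 : ((v + 1 : ℕ) : ℝ) ≤ (2 : ℝ) ^ v := by
        have : v + 1 ≤ 2 ^ v := Nat.lt_two_pow_self
        exact_mod_cast this
      rw [one_mul]
      exact h3.trans (pow_le_pow_left₀ (by norm_num) h2 v)
  have hcard : (n.divisors.card : ℝ) = ∏ p ∈ n.primeFactors, ((n.factorization p + 1 : ℕ) : ℝ) := by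
    rw [Nat.card_divisors hn0]
    push_cast
    rfl
  have hprod : (n : ℝ) ^ ε = ∏ p ∈ n.primeFactors, ((p : ℝ) ^ (n.factorization p)) ^ ε := by
    have h1 : (n : ℝ) = ∏ p ∈ n.primeFactors, ((p : ℝ) ^ (n.factorization p)) := by
      have h2 := Nat.factorization_prod_pow_eq_self hn0
      conv_lhs => rw [← h2]
      rw [Finsupp.prod, Nat.support_factorization]
      push_cast
      rfl
    conv_lhs => rw [h1]
    rw [Real.finset_prod_rpow _ _ (fun p _ => by positivity)]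
  rw [hcard, hprod]
  calc ∏ p ∈ n.primeFactors, ((n.factorization p + 1 : ℕ) : ℝ)
      ≤ ∏ p ∈ n.primeFactors, (if p < P0 then K else 1) * ((p : ℝ) ^ (n.factorization p)) ^ ε :=
        prod_le_prod (fun p _ => by positivity) hfac
    _ = (∏ p ∈ n.primeFactors, (if p < P0 then K else 1))
          * ∏ p ∈ n.primeFactors, ((p : ℝ) ^ (n.factorization p)) ^ ε := prod_mul_distrib
    _ ≤ K ^ P0 * ∏ p ∈ n.primeFactors, ((p : ℝ) ^ (n.factorization p)) ^ ε := by
        apply mul_le_mul_of_nonneg_right _ (prod_nonneg fun p _ => by positivity)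
        rw [← prod_filter, prod_const]
        apply pow_le_pow_right₀ hK1
        calc (n.primeFactors.filter (fun p => p < P0)).card ≤ (range P0).card := by
              apply card_le_card
              intro p hp
              exact mem_range.mpr (mem_filter.mp hp).2
          _ = P0 := card_range P0

end Pool.Agent.H92.EH

end

section

/-!
# PROJECT PSI (MP_967f73_nt): primes in almost all short intervals, in residue classes

THEOREM (`Hux.lean` / `Blk.lean`): for `X^(1/6+e) ≤ H ≤ X^(1/3)`, `d ≤ (log X)^B`, `(u, d) = 1`,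
`∑_{X ≤ x < 2X} |∑_{x < n ≤ x+H, n ≡ u (d)} Λ(n) - H/φ(d)|^2 ≤ X H^2/(log X)^A`.

`L = log X`; `ee t = exp(2 π i t)` (`Pool.Agent.H91.PK.ee`).

* `W f H x` = sum of `f` over the window `(x, x+H]`, `D f H H1 x` = average over the short window minus
  average over the long window;
* `DP f N t = ∑_{n ≤ N} f(n) n^{2 π i t}`;
* `kf k` for `k = 0, 1, 2` is `1`, `log`, `μ`; `seg k a b` = `kf k` on `[a, b)`, `hi k Y` = `kf k` on `[Y, ∞)`,
  `pc k j = seg k (2^j) (2^(j+1))`, `lot k y w` = `kf k` on `[1, 2^y)` (`k = 0, 1`) or `[1, 2^w)` (`k = 2`);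
* `Tp κ y w = ∏ i, lot (κ i) y w` (Dirichlet convolution);
* `tw χ f n = f(n) χ(n)`, `cl d u f n = f(n)` if `n ≡ u (d)`, `0` otherwise.
-/

set_option autoImplicit false

namespace Pool.Agent.H88.PSI

open Finset MeasureTheory
open Pool.Agent.H91.PK (ee)

/-- the Dirichlet polynomial `∑_{n ≤ N} f(n) n^{2 π i t}` -/
noncomputable def DP (f : ℕ → ℂ) (N : ℕ) (t : ℝ) : ℂ :=
  ∑ n ∈ Icc 1 N, f n * ee (t * Real.log n)

/-- the second moment `∑_{n ≤ N} |f(n)|^2` -/
noncomputable def SS (f : ℕ → ℂ) (N : ℕ) : ℝ := ∑ n ∈ Icc 1 N, ‖f n‖ ^ 2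

/-- the number of divisors -/
noncomputable def tau (n : ℕ) : ℝ := (n.divisors.card : ℝ)

/-- `1`, `log`, `μ` -/
noncomputable def kf (k : Fin 3) (n : ℕ) : ℝ :=
  if k = 0 then 1 else if k = 1 then Real.log n else ((ArithmeticFunction.moebius n : ℤ) : ℝ)

/-- `kf k` on `[a, b)` -/
noncomputable def seg (k : Fin 3) (a b : ℕ) : ArithmeticFunction ℝ :=
  ⟨fun n => if n ≠ 0 ∧ a ≤ n ∧ n < b then kf k n else 0, by simp⟩

/-- `kf k` on `[Y, ∞)` -/
noncomputable def hi (k : Fin 3) (Y : ℕ) : ArithmeticFunction ℝ :=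
  ⟨fun n => if n ≠ 0 ∧ Y ≤ n then kf k n else 0, by simp⟩

/-- a dyadic piece of `kf k` -/
noncomputable def pc (k : Fin 3) (j : ℕ) : ArithmeticFunction ℝ := seg k (2 ^ j) (2 ^ (j + 1))

/-- the exponent of the upper end of the range of a variable of kind `k` -/
def top (k : Fin 3) (y w : ℕ) : ℕ := if k = 2 then w else y

/-- the truncated function of kind `k` -/
noncomputable def lot (k : Fin 3) (y w : ℕ) : ArithmeticFunction ℝ := seg k 1 (2 ^ top k y w)

/-- a product of truncated functions -/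
noncomputable def Tp {r : ℕ} (κ : Fin r → Fin 3) (y w : ℕ) : ArithmeticFunction ℝ :=
  ∏ i, lot (κ i) y w

/-- a product of dyadic pieces -/
noncomputable def Pp {r : ℕ} (κ : Fin r → Fin 3) (j : Fin r → ℕ) : ArithmeticFunction ℝ :=
  ∏ i, pc (κ i) (j i)

/-- the kinds of the variables in the second term of the Heath-Brown identity -/
def k4 : Fin 4 → Fin 3 := ![1, 0, 2, 2]

/-- the kinds of the variables in the third term of the Heath-Brown identity -/
def k6 : Fin 6 → Fin 3 := ![1, 0, 0, 2, 2, 2]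

/-- the coefficients of type I with a logarithm in the smooth variable -/
noncomputable def cA (w : ℕ) : ArithmeticFunction ℝ :=
  (3 : ℝ) • seg 2 1 (2 ^ w) - (3 : ℝ) • (hi 0 1 * seg 2 1 (2 ^ w) ^ 2)
    + hi 0 1 ^ 2 * seg 2 1 (2 ^ w) ^ 3

/-- the coefficients of type I without a logarithm in the smooth variable -/
noncomputable def cB (y w : ℕ) : ArithmeticFunction ℝ :=
  seg 1 1 (2 ^ y) * (hi 0 1 + seg 0 1 (2 ^ y)) * seg 2 1 (2 ^ w) ^ 3
    - (3 : ℝ) • (seg 1 1 (2 ^ y) * seg 2 1 (2 ^ w) ^ 2)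

/-- the von Mangoldt function -/
noncomputable def La : ArithmeticFunction ℝ := ArithmeticFunction.vonMangoldt

/-- twist by a character -/
noncomputable def tw {d : ℕ} (χ : DirichletCharacter ℂ d) (f : ArithmeticFunction ℝ) :
    ArithmeticFunction ℂ :=
  ⟨fun n => ((f n : ℝ) : ℂ) * χ (n : ZMod d), by simp⟩

end Pool.Agent.H88.PSI

end

section

/-!
# PSI Pw: pointwise bounds, supports, divisor bounds

`|(f * g)(n)| ≤ ∑_{d ∣ n} |f(d)| |g(n/d)|` and `tau d ≤ tau n` for `d ∣ n`, `n ≠ 0`.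
`tau_eps`: from `∑_{m ≤ n} tau(m)^j ≤ n (1 + log n)^(2^j)` (`Pool.Agent.H35.U.tau_pow` in
`Pool/Agent/H35/U/TauM.lean`) with `j ≥ 2/e`, or from any divisor bound of the pool (`H92/EH3/DivBound.lean`).
-/

set_option autoImplicit false

namespace Pool.Agent.H88.PSI

open Finset

private theorem Pw_tau_nonneg (n : ℕ) : 0 ≤ tau n := by
  unfold tau
  positivity

private theorem Pw_tau_one_le {n : ℕ} (hn : n ≠ 0) : 1 ≤ tau n := by
  unfold tau
  have : 0 < n.divisors.card := by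
    rw [Finset.card_pos]
    exact ⟨1, Nat.one_mem_divisors.2 hn⟩
  exact_mod_cast this

private theorem Pw_tau_dvd {d n : ℕ} (h : d ∣ n) (hn : n ≠ 0) : tau d ≤ tau n := by
  unfold tau
  exact_mod_cast Finset.card_le_card (Nat.divisors_subset_of_dvd hn h)

private theorem Pw_card (n : ℕ) : (n.divisorsAntidiagonal.card : ℝ) = tau n := by
  unfold tau
  have h := Nat.sum_divisorsAntidiagonal (fun _ _ => (1:ℝ)) (n := n)
  simp only [Finset.sum_const, nsmul_eq_mul, mul_one] at h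
  exact h

private theorem Pw_mul {R : Type*} [NormedCommRing R] (f g : ArithmeticFunction R) (A B : ℝ)
    (hA : 0 ≤ A) (hB : 0 ≤ B) (a b : ℕ) (hf : ∀ n, ‖f n‖ ≤ A * tau n ^ a)
    (hg : ∀ n, ‖g n‖ ≤ B * tau n ^ b) (n : ℕ) : ‖(f * g) n‖ ≤ A * B * tau n ^ (a + b + 1) := by
  have ht := Pw_tau_nonneg n
  rcases Nat.eq_zero_or_pos n with h0 | h0
  · subst h0
    rw [ArithmeticFunction.map_zero, norm_zero]
    positivity
  · rw [ArithmeticFunction.mul_apply]
    refine (norm_sum_le _ _).trans ?_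
    have h1 : ∀ x ∈ n.divisorsAntidiagonal, ‖f x.1 * g x.2‖ ≤ A * B * tau n ^ (a + b) := by
      intro x hx
      rw [Nat.mem_divisorsAntidiagonal] at hx
      have hx1 : tau x.1 ≤ tau n := Pw_tau_dvd ⟨x.2, hx.1.symm⟩ hx.2
      have hx2 : tau x.2 ≤ tau n := Pw_tau_dvd ⟨x.1, by rw [mul_comm]; exact hx.1.symm⟩ hx.2
      have h2 : ‖f x.1‖ ≤ A * tau n ^ a := (hf x.1).trans
        (mul_le_mul_of_nonneg_left (pow_le_pow_left₀ (Pw_tau_nonneg _) hx1 a) hA)
      have h3 : ‖g x.2‖ ≤ B * tau n ^ b := (hg x.2).trans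
        (mul_le_mul_of_nonneg_left (pow_le_pow_left₀ (Pw_tau_nonneg _) hx2 b) hB)
      calc ‖f x.1 * g x.2‖ ≤ ‖f x.1‖ * ‖g x.2‖ := norm_mul_le _ _
        _ ≤ (A * tau n ^ a) * (B * tau n ^ b) :=
            mul_le_mul h2 h3 (norm_nonneg _) (by positivity)
        _ = A * B * tau n ^ (a + b) := by rw [pow_add]; ring
    refine (Finset.sum_le_sum h1).trans (le_of_eq ?_)
    rw [Finset.sum_const, nsmul_eq_mul, Pw_card, pow_succ]
    ring

/-- products of bounded functions -/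
theorem prod_bd {r : ℕ} (f : Fin r → ArithmeticFunction ℂ) (L : ℝ) (hL : 1 ≤ L)
    (h : ∀ i n, ‖f i n‖ ≤ L) (n : ℕ) : ‖(∏ i, f i) n‖ ≤ L ^ r * tau n ^ r := by
  have key : ∀ s : Finset (Fin r), ∀ n : ℕ, ‖(∏ i ∈ s, f i) n‖ ≤ L ^ s.card * tau n ^ s.card := by
    intro s
    induction s using Finset.induction_on with
    | empty =>
      intro n
      rw [Finset.prod_empty, Finset.card_empty, pow_zero, pow_zero, mul_one,
        ArithmeticFunction.one_apply]
      split_ifs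
      · rw [norm_one]
      · rw [norm_zero]
        exact zero_le_one
    | insert i s hi ih =>
      intro n
      rw [Finset.prod_insert hi, Finset.card_insert_of_notMem hi]
      have h1 := Pw_mul (f i) (∏ i ∈ s, f i) L (L ^ s.card) (by linarith) (by positivity) 0 s.card
        (fun m => by rw [pow_zero, mul_one]; exact h i m) ih n
      refine h1.trans (le_of_eq ?_)
      rw [zero_add, pow_succ L]
      ring
  have h2 := key univ n
  rw [Finset.card_univ, Fintype.card_fin] at h2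
  exact h2

/-- products of functions supported on `[N i, 2 N i)` -/
theorem prod_supp {r : ℕ} (f : Fin r → ArithmeticFunction ℂ) (N : Fin r → ℕ)
    (h : ∀ i n, f i n ≠ 0 → N i ≤ n ∧ n < 2 * N i) (n : ℕ) (hn : (∏ i, f i) n ≠ 0) :
    ∏ i, N i ≤ n ∧ n ≤ ∏ i, (2 * N i) := by
  have key : ∀ s : Finset (Fin r), ∀ n : ℕ, (∏ i ∈ s, f i) n ≠ 0 →
      ∏ i ∈ s, N i ≤ n ∧ n ≤ ∏ i ∈ s, (2 * N i) := by
    intro s
    induction s using Finset.induction_on with
    | empty =>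
      intro n hn
      rw [Finset.prod_empty, ArithmeticFunction.one_apply] at hn
      rw [Finset.prod_empty, Finset.prod_empty]
      split_ifs at hn with h1
      · omega
      · exact absurd rfl hn
    | insert i s hi ih =>
      intro n hn
      rw [Finset.prod_insert hi, ArithmeticFunction.mul_apply] at hn
      obtain ⟨x, hx, hne⟩ := Finset.exists_ne_zero_of_sum_ne_zero hn
      rw [Nat.mem_divisorsAntidiagonal] at hx
      have h1 := h i x.1 (left_ne_zero_of_mul hne)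
      have h2 := ih x.2 (right_ne_zero_of_mul hne)
      rw [Finset.prod_insert hi, Finset.prod_insert hi, ← hx.1]
      exact ⟨Nat.mul_le_mul h1.1 h2.1, Nat.mul_le_mul h1.2.le h2.2⟩
  exact key univ n hn

private theorem Pw_sub (f g : ArithmeticFunction ℝ) (n : ℕ) : (f - g) n = f n - g n := by
  rw [sub_eq_add_neg, ArithmeticFunction.add_apply, sub_eq_add_neg]
  rfl

private theorem Pw_seg2 (w : ℕ) (n : ℕ) : ‖seg 2 1 (2 ^ w) n‖ ≤ 1 * tau n ^ 0 := by
  rw [pow_zero, mul_one]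
  show ‖if n ≠ 0 ∧ 1 ≤ n ∧ n < 2 ^ w then kf 2 n else 0‖ ≤ 1
  split_ifs
  · have h1 : kf 2 n = ((ArithmeticFunction.moebius n : ℤ) : ℝ) := by
      unfold kf
      rw [if_neg (by decide), if_neg (by decide)]
    rw [h1, Real.norm_eq_abs, ← Int.cast_abs]
    exact_mod_cast ArithmeticFunction.abs_moebius_le_one
  · rw [norm_zero]
    exact zero_le_one

private theorem Pw_hi0 (n : ℕ) : ‖hi 0 1 n‖ ≤ 1 * tau n ^ 0 := by
  rw [pow_zero, mul_one]
  show ‖if n ≠ 0 ∧ 1 ≤ n then kf 0 n else 0‖ ≤ 1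
  split_ifs
  · have h1 : kf 0 n = 1 := by
      unfold kf
      rw [if_pos rfl]
    rw [h1, norm_one]
  · rw [norm_zero]
    exact zero_le_one

private theorem Pw_seg0 (y : ℕ) (n : ℕ) : ‖seg 0 1 (2 ^ y) n‖ ≤ 1 := by
  show ‖if n ≠ 0 ∧ 1 ≤ n ∧ n < 2 ^ y then kf 0 n else 0‖ ≤ 1
  split_ifs
  · have h1 : kf 0 n = 1 := by
      unfold kf
      rw [if_pos rfl]
    rw [h1, norm_one]
  · rw [norm_zero]
    exact zero_le_one

private theorem Pw_seg1 (y : ℕ) (n : ℕ) : ‖seg 1 1 (2 ^ y) n‖ ≤ (y : ℝ) * tau n ^ 0 := by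
  rw [pow_zero, mul_one]
  show ‖if n ≠ 0 ∧ 1 ≤ n ∧ n < 2 ^ y then kf 1 n else 0‖ ≤ (y : ℝ)
  split_ifs with h
  · have h1 : kf 1 n = Real.log n := by
      unfold kf
      rw [if_neg (by decide), if_pos rfl]
    have hn1 : (1 : ℝ) ≤ n := by exact_mod_cast h.2.1
    rw [h1, Real.norm_eq_abs, abs_of_nonneg (Real.log_nonneg hn1)]
    have h2 : (n : ℝ) ≤ 2 ^ y := by exact_mod_cast h.2.2.le
    have h3 : Real.log n ≤ Real.log ((2 : ℝ) ^ y) := Real.log_le_log (by linarith) h2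
    rw [Real.log_pow] at h3
    have h4 : Real.log 2 ≤ 1 := by
      have := Real.log_two_lt_d9
      linarith
    have h5 : (0 : ℝ) ≤ y := Nat.cast_nonneg y
    nlinarith
  · rw [norm_zero]
    exact Nat.cast_nonneg y

private theorem Pw_hs (y : ℕ) (n : ℕ) : ‖(hi 0 1 + seg 0 1 (2 ^ y)) n‖ ≤ 2 * tau n ^ 0 := by
  rw [ArithmeticFunction.add_apply]
  have h1 := Pw_hi0 n
  have h2 := Pw_seg0 y n
  rw [pow_zero, mul_one] at h1 ⊢
  refine (norm_add_le _ _).trans ?_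
  linarith

private theorem Pw_sq (w : ℕ) (n : ℕ) : ‖(seg 2 1 (2 ^ w) ^ 2) n‖ ≤ 1 * tau n ^ 1 := by
  rw [pow_two]
  have h := Pw_mul (seg 2 1 (2 ^ w)) (seg 2 1 (2 ^ w)) 1 1 zero_le_one zero_le_one 0 0 (Pw_seg2 w)
    (Pw_seg2 w) n
  simpa using h

private theorem Pw_cube (w : ℕ) (n : ℕ) : ‖(seg 2 1 (2 ^ w) ^ 3) n‖ ≤ 1 * tau n ^ 2 := by
  rw [pow_succ]
  have h := Pw_mul (seg 2 1 (2 ^ w) ^ 2) (seg 2 1 (2 ^ w)) 1 1 zero_le_one zero_le_one 1 0 (Pw_sq w)
    (Pw_seg2 w) n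
  simpa using h

/-- the coefficients `cA` -/
theorem cA_bd (w n : ℕ) : |cA w n| ≤ 7 * tau n ^ 5 := by
  rcases Nat.eq_zero_or_pos n with h0 | h0
  · subst h0
    rw [ArithmeticFunction.map_zero, abs_zero]
    have := Pw_tau_nonneg 0
    positivity
  · have ht := Pw_tau_one_le (n := n) (by omega)
    have h1 := Pw_seg2 w n
    have h2 := Pw_mul (hi 0 1) (seg 2 1 (2 ^ w) ^ 2) 1 1 zero_le_one zero_le_one 0 1 Pw_hi0
      (Pw_sq w) n
    have h3 : ∀ n, ‖(hi 0 1 ^ 2) n‖ ≤ 1 * tau n ^ 1 := by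
      intro n
      rw [pow_two]
      have h := Pw_mul (hi 0 1) (hi 0 1) 1 1 zero_le_one zero_le_one 0 0 Pw_hi0 Pw_hi0 n
      simpa using h
    have h4 := Pw_mul (hi 0 1 ^ 2) (seg 2 1 (2 ^ w) ^ 3) 1 1 zero_le_one zero_le_one 1 2 h3
      (Pw_cube w) n
    rw [Real.norm_eq_abs] at h1 h2 h4
    have e : cA w n = 3 * seg 2 1 (2 ^ w) n - 3 * (hi 0 1 * seg 2 1 (2 ^ w) ^ 2) n +
        (hi 0 1 ^ 2 * seg 2 1 (2 ^ w) ^ 3) n := by
      unfold cA
      rw [ArithmeticFunction.add_apply, Pw_sub]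
      rfl
    rw [e]
    have p1 : tau n ^ 0 ≤ tau n ^ 5 := pow_le_pow_right₀ ht (by norm_num)
    have p2 : tau n ^ (0 + 1 + 1) ≤ tau n ^ 5 := pow_le_pow_right₀ ht (by norm_num)
    have p3 : tau n ^ (1 + 2 + 1) ≤ tau n ^ 5 := pow_le_pow_right₀ ht (by norm_num)
    have q1 := abs_le.1 h1
    have q2 := abs_le.1 h2
    have q4 := abs_le.1 h4
    rw [abs_le]
    constructor <;> linarith [q1.1, q1.2, q2.1, q2.2, q4.1, q4.2]

/-- the coefficients `cB` -/
theorem cB_bd (y w n : ℕ) : |cB y w n| ≤ 5 * (y + 1) * tau n ^ 5 := by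
  rcases Nat.eq_zero_or_pos n with h0 | h0
  · subst h0
    rw [ArithmeticFunction.map_zero, abs_zero]
    have := Pw_tau_nonneg 0
    positivity
  · have ht := Pw_tau_one_le (n := n) (by omega)
    have hy : (0 : ℝ) ≤ y := Nat.cast_nonneg y
    have h1 := Pw_mul (seg 1 1 (2 ^ y)) (hi 0 1 + seg 0 1 (2 ^ y)) y 2 hy (by norm_num) 0 0
      (Pw_seg1 y) (Pw_hs y)
    have h2 := Pw_mul (seg 1 1 (2 ^ y) * (hi 0 1 + seg 0 1 (2 ^ y))) (seg 2 1 (2 ^ w) ^ 3) (y * 2) 1
      (by positivity) zero_le_one (0 + 0 + 1) 2 h1 (Pw_cube w) n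
    have h3 := Pw_mul (seg 1 1 (2 ^ y)) (seg 2 1 (2 ^ w) ^ 2) y 1 hy zero_le_one 0 1 (Pw_seg1 y)
      (Pw_sq w) n
    rw [Real.norm_eq_abs] at h2 h3
    have e : cB y w n = (seg 1 1 (2 ^ y) * (hi 0 1 + seg 0 1 (2 ^ y)) * seg 2 1 (2 ^ w) ^ 3) n -
        3 * (seg 1 1 (2 ^ y) * seg 2 1 (2 ^ w) ^ 2) n := by
      unfold cB
      rw [Pw_sub]
      rfl
    rw [e]
    have p2 : tau n ^ (0 + 1 + 1) ≤ tau n ^ 5 := pow_le_pow_right₀ ht (by norm_num)
    have p3 : tau n ^ (0 + 0 + 1 + 2 + 1) ≤ tau n ^ 5 := pow_le_pow_right₀ ht (by norm_num)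
    have r2 : (y : ℝ) * 1 * tau n ^ (0 + 1 + 1) ≤ y * tau n ^ 5 := by
      rw [mul_one]
      exact mul_le_mul_of_nonneg_left p2 hy
    have r3 : (y : ℝ) * 2 * 1 * tau n ^ (0 + 0 + 1 + 2 + 1) ≤ 2 * (y * tau n ^ 5) := by
      have := mul_le_mul_of_nonneg_left p3 hy
      linarith
    have r4 : 0 ≤ tau n ^ 5 := by positivity
    have q2 := abs_le.1 h2
    have q3 := abs_le.1 h3
    rw [abs_le]
    constructor <;> linarith [q2.1, q2.2, q3.1, q3.2]

/-- divisor bound -/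
theorem tau_eps (e : ℝ) (he : 0 < e) : ∃ C : ℝ, 1 ≤ C ∧ ∀ n : ℕ, tau n ≤ C * (n : ℝ) ^ e + C := by
  obtain ⟨C, hC, h⟩ := Pool.Agent.H92.EH.div_bound e he
  refine ⟨C, hC, fun n => ?_⟩
  have hn : (0 : ℝ) ≤ (n : ℝ) ^ e := Real.rpow_nonneg (Nat.cast_nonneg n) e
  rcases Nat.eq_zero_or_pos n with h0 | h0
  · subst h0
    unfold tau
    rw [Nat.divisors_zero, Finset.card_empty, Nat.cast_zero]
    have h2 : (0 : ℝ) ≤ (0 : ℝ) ^ e := Real.rpow_nonneg le_rfl e
    have h3 : 0 ≤ C * (0 : ℝ) ^ e := mul_nonneg (by linarith) h2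
    linarith
  · have h1 := h n h0
    unfold tau
    linarith

open scoped Pointwise in
private theorem Pw_tau_mul_le (d e : ℕ) :
    (d * e).divisors.card ≤ d.divisors.card * e.divisors.card := by
  rw [Nat.divisors_mul]
  exact card_mul_le

private noncomputable def Pw_S (k n : ℕ) : ℝ := ∑ m ∈ Icc 1 n, (m.divisors.card : ℝ) ^ k / m

private theorem Pw_S_nonneg (k n : ℕ) : 0 ≤ Pw_S k n :=
  sum_nonneg fun _ _ => by positivity

private theorem Pw_S_succ (k n : ℕ) : Pw_S (k + 1) n ≤ Pw_S k n ^ 2 := by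
  obtain ⟨f, hf⟩ : ∃ f : ℕ × ℕ → ℝ, f = fun p => ((p.1.divisors.card : ℝ) ^ k / p.1) *
      ((p.2.divisors.card : ℝ) ^ k / p.2) := ⟨_, rfl⟩
  have hf0 : ∀ p, 0 ≤ f p := fun p => by rw [hf]; positivity
  have h1 : Pw_S k n ^ 2 = ∑ p ∈ Icc 1 n ×ˢ Icc 1 n, f p := by
    unfold Pw_S
    rw [sq, sum_mul_sum, sum_product, hf]
  have h2 : ∀ m ∈ Icc 1 n, (m.divisors.card : ℝ) ^ (k + 1) / m ≤
      ∑ p ∈ ((Icc 1 n ×ˢ Icc 1 n).filter (fun p => p.1 * p.2 ∈ Icc 1 n)).filter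
        (fun p => p.1 * p.2 = m), f p := by
    intro m hm
    have hm' := mem_Icc.1 hm
    have e1 : ((Icc 1 n ×ˢ Icc 1 n).filter (fun p => p.1 * p.2 ∈ Icc 1 n)).filter
        (fun p => p.1 * p.2 = m) = m.divisorsAntidiagonal := by
      ext p
      rw [mem_filter, mem_filter, mem_product, mem_Icc, mem_Icc, Nat.mem_divisorsAntidiagonal]
      constructor
      · rintro ⟨_, h⟩
        exact ⟨h, by omega⟩
      · rintro ⟨h, _⟩
        have hp1 : 1 ≤ p.1 := Nat.one_le_iff_ne_zero.2 (by rintro h0; rw [h0, zero_mul] at h; omega)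
        have hp2 : 1 ≤ p.2 := Nat.one_le_iff_ne_zero.2 (by rintro h0; rw [h0, mul_zero] at h; omega)
        have h3 : p.1 ≤ m := h ▸ Nat.le_mul_of_pos_right _ hp2
        have h4 : p.2 ≤ m := h ▸ Nat.le_mul_of_pos_left _ hp1
        exact ⟨⟨⟨⟨hp1, by omega⟩, ⟨hp2, by omega⟩⟩, h ▸ hm⟩, h⟩
    rw [e1]
    have e2 : (m.divisors.card : ℝ) = ∑ _p ∈ m.divisorsAntidiagonal, (1:ℝ) := by
      rw [Nat.sum_divisorsAntidiagonal (fun _ _ => (1:ℝ))]
      simp
    have e3 : (m.divisors.card : ℝ) ^ (k + 1) / m =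
        ∑ _p ∈ m.divisorsAntidiagonal, (m.divisors.card : ℝ) ^ k / m := by
      rw [← mul_one ((m.divisors.card : ℝ) ^ k / m), ← mul_sum, ← e2, pow_succ]
      ring
    rw [e3]
    refine sum_le_sum fun p hp => ?_
    rw [Nat.mem_divisorsAntidiagonal] at hp
    rw [hf]
    have h5 := Pw_tau_mul_le p.1 p.2
    rw [hp.1] at h5
    have h6 : (m.divisors.card : ℝ) ≤ (p.1.divisors.card : ℝ) * (p.2.divisors.card : ℝ) := by
      exact_mod_cast h5
    have h7 : (m : ℝ) = (p.1 : ℝ) * p.2 := by rw [← hp.1]; push_cast; rfl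
    show (m.divisors.card : ℝ) ^ k / m ≤ ((p.1.divisors.card : ℝ) ^ k / p.1) *
      ((p.2.divisors.card : ℝ) ^ k / p.2)
    rw [div_mul_div_comm, ← mul_pow, ← h7]
    exact div_le_div_of_nonneg_right (pow_le_pow_left₀ (by positivity) h6 k) (by positivity)
  rw [h1]
  unfold Pw_S
  calc ∑ m ∈ Icc 1 n, (m.divisors.card : ℝ) ^ (k + 1) / m
      ≤ ∑ m ∈ Icc 1 n, ∑ p ∈ ((Icc 1 n ×ˢ Icc 1 n).filter (fun p => p.1 * p.2 ∈ Icc 1 n)).filter
        (fun p => p.1 * p.2 = m), f p := sum_le_sum h2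
    _ = ∑ p ∈ (Icc 1 n ×ˢ Icc 1 n).filter (fun p => p.1 * p.2 ∈ Icc 1 n), f p :=
        sum_fiberwise_of_maps_to (fun p hp => (mem_filter.1 hp).2) f
    _ ≤ ∑ p ∈ Icc 1 n ×ˢ Icc 1 n, f p :=
        sum_le_sum_of_subset_of_nonneg (filter_subset _ _) (fun p _ _ => hf0 p)

private theorem Pw_S_zero (n : ℕ) : Pw_S 0 n ≤ 1 + Real.log n := by
  have h := harmonic_le_one_add_log n
  refine le_trans (le_of_eq ?_) h
  unfold Pw_S
  rw [harmonic_eq_sum_Icc]
  push_cast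
  refine sum_congr rfl fun m _ => ?_
  rw [pow_zero, one_div]

private theorem Pw_S_pow (n k : ℕ) : Pw_S k n ≤ (1 + Real.log n) ^ (2 ^ k) := by
  induction k with
  | zero => simpa using Pw_S_zero n
  | succ k ih =>
    refine (Pw_S_succ k n).trans ?_
    rw [pow_succ 2 k, pow_mul]
    exact pow_le_pow_left₀ (Pw_S_nonneg k n) ih 2

/-- moments of the divisor function -/
theorem tau_mom (j n : ℕ) : ∑ m ∈ Icc 1 n, tau m ^ j ≤ n * (1 + Real.log n) ^ (2 ^ j) := by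
  have h1 : ∑ m ∈ Icc 1 n, tau m ^ j ≤ n * Pw_S j n := by
    unfold Pw_S
    rw [mul_sum]
    refine sum_le_sum fun m hm => ?_
    have hm' := mem_Icc.1 hm
    have hm0 : (0:ℝ) < m := by exact_mod_cast hm'.1
    have hmn : (m:ℝ) ≤ n := by exact_mod_cast hm'.2
    unfold tau
    rw [← mul_div_assoc, le_div_iff₀ hm0, mul_comm]
    exact mul_le_mul_of_nonneg_right hmn (by positivity)
  exact h1.trans (mul_le_mul_of_nonneg_left (Pw_S_pow n j) (by positivity))

/-- the same with weights `1/m` (see the private `tau_S_pow` in `Pool/Agent/H80/LV/Tau4.lean`) -/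
theorem tau_momd (j n : ℕ) : ∑ m ∈ Icc 1 n, tau m ^ j / m ≤ (1 + Real.log n) ^ (2 ^ j) := by
  exact Pw_S_pow n j

end Pool.Agent.H88.PSI

end

section

/-!
# PSI Dpm: multiplicativity of the Dirichlet polynomials and of the twist

`ee (t log (m n)) = ee (t log m) ee (t log n)`, `(f * g)(n) = ∑_{ab = n} f(a) g(b)`; a pair `(a, b)` with
`f a ≠ 0`, `g b ≠ 0` has `1 ≤ a ≤ N`, `1 ≤ b ≤ M`.
-/

set_option autoImplicit false

namespace Pool.Agent.H88.PSI

open Finset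

private theorem Dpm_ee_add (x y : ℝ) : Pool.Agent.H91.PK.ee (x + y) = Pool.Agent.H91.PK.ee x * Pool.Agent.H91.PK.ee y := by
  unfold Pool.Agent.H91.PK.ee
  rw [← Complex.exp_add]
  congr 1
  push_cast
  ring

private theorem Dpm_norm_ee (x : ℝ) : ‖Pool.Agent.H91.PK.ee x‖ = 1 := by
  unfold Pool.Agent.H91.PK.ee
  have h1 : 2 * (Real.pi : ℂ) * (x : ℂ) * Complex.I = ((2 * Real.pi * x : ℝ) : ℂ) * Complex.I := by
    push_cast
    ring
  rw [h1, Complex.norm_exp_ofReal_mul_I]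

private theorem Dpm_supp {f g : ArithmeticFunction ℂ} {N M : ℕ} (hf : ∀ n, f n ≠ 0 → n ≤ N)
    (hg : ∀ n, g n ≠ 0 → n ≤ M) (n : ℕ) (h : (f * g) n ≠ 0) : n ≤ N * M := by
  rw [ArithmeticFunction.mul_apply] at h
  obtain ⟨p, hp, hne⟩ := Finset.exists_ne_zero_of_sum_ne_zero h
  rw [Nat.mem_divisorsAntidiagonal] at hp
  rw [← hp.1]
  exact Nat.mul_le_mul (hf _ (left_ne_zero_of_mul hne)) (hg _ (right_ne_zero_of_mul hne))

theorem dp_mul (f g : ArithmeticFunction ℂ) (N M : ℕ) (hf : ∀ n, f n ≠ 0 → n ≤ N)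
    (hg : ∀ n, g n ≠ 0 → n ≤ M) (t : ℝ) :
    DP (⇑(f * g)) (N * M) t = DP f N t * DP g M t := by
  classical
  unfold DP
  rw [Finset.sum_mul_sum, ← Finset.sum_product']
  rw [← Finset.sum_fiberwise_of_maps_to (s := Icc 1 N ×ˢ Icc 1 M) (t := Icc 1 (N * M))
    (g := fun p => p.1 * p.2)]
  · refine Finset.sum_congr rfl fun n hn => ?_
    rw [Finset.mem_Icc] at hn
    rw [ArithmeticFunction.mul_apply, Finset.sum_mul]
    symm
    refine (Finset.sum_subset (fun p hp => ?_) fun p hp hp' => ?_).trans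
      (Finset.sum_congr rfl fun p hp => ?_)
    · rw [Finset.mem_filter, Finset.mem_product, Finset.mem_Icc, Finset.mem_Icc] at hp
      rw [Nat.mem_divisorsAntidiagonal]
      exact ⟨hp.2, by omega⟩
    · rw [Nat.mem_divisorsAntidiagonal] at hp
      rw [Finset.mem_filter, Finset.mem_product, Finset.mem_Icc, Finset.mem_Icc] at hp'
      have h1 : 1 ≤ p.1 := by
        rcases Nat.eq_zero_or_pos p.1 with h | h
        · rw [h, zero_mul] at hp
          omega
        · exact h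
      have h2 : 1 ≤ p.2 := by
        rcases Nat.eq_zero_or_pos p.2 with h | h
        · rw [h, mul_zero] at hp
          omega
        · exact h
      by_cases h3 : f p.1 = 0
      · rw [h3]
        ring
      · by_cases h4 : g p.2 = 0
        · rw [h4]
          ring
        · exact absurd ⟨⟨⟨h1, hf _ h3⟩, ⟨h2, hg _ h4⟩⟩, hp.1⟩ hp'
    · rw [Nat.mem_divisorsAntidiagonal] at hp
      have h1 : p.1 ≠ 0 := by
        intro h
        rw [h, zero_mul] at hp
        omega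
      have h2 : p.2 ≠ 0 := by
        intro h
        rw [h, mul_zero] at hp
        omega
      rw [← hp.1, Nat.cast_mul, Real.log_mul (by exact_mod_cast h1) (by exact_mod_cast h2),
        mul_add, Dpm_ee_add]
      ring
  · intro p hp
    rw [Finset.mem_product, Finset.mem_Icc, Finset.mem_Icc] at hp
    rw [Finset.mem_Icc]
    exact ⟨Nat.mul_pos hp.1.1 hp.2.1, Nat.mul_le_mul hp.1.2 hp.2.2⟩

private theorem Dpm_one (t : ℝ) : DP (⇑(1 : ArithmeticFunction ℂ)) 1 t = 1 := by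
  unfold DP
  have h1 : Pool.Agent.H91.PK.ee 0 = 1 := by
    unfold Pool.Agent.H91.PK.ee
    simp
  simp [h1]

private theorem Dpm_pow_supp (f : ArithmeticFunction ℂ) (N k : ℕ) (hf : ∀ n, f n ≠ 0 → n ≤ N) :
    ∀ n, (f ^ k) n ≠ 0 → n ≤ N ^ k := by
  induction k with
  | zero =>
    intro n hn
    rw [pow_zero] at hn ⊢
    by_contra hcon
    exact hn (ArithmeticFunction.one_apply_ne (by omega))
  | succ k ih =>
    intro n hn
    rw [pow_succ] at hn ⊢
    exact Dpm_supp ih hf n hn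

theorem dp_pow (f : ArithmeticFunction ℂ) (N k : ℕ) (hf : ∀ n, f n ≠ 0 → n ≤ N) (t : ℝ) :
    DP (⇑(f ^ k)) (N ^ k) t = DP f N t ^ k := by
  induction k with
  | zero => simpa using Dpm_one t
  | succ k ih =>
    rw [pow_succ, pow_succ, dp_mul _ _ _ _ (Dpm_pow_supp f N k hf) hf, ih, pow_succ]

private theorem Dpm_prod_supp {ι : Type*} [DecidableEq ι] (s : Finset ι)
    (f : ι → ArithmeticFunction ℂ) (N : ι → ℕ) (hf : ∀ i ∈ s, ∀ n, f i n ≠ 0 → n ≤ N i) :
    ∀ n, (∏ i ∈ s, f i) n ≠ 0 → n ≤ ∏ i ∈ s, N i := by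
  induction s using Finset.induction_on with
  | empty =>
    intro n hn
    rw [Finset.prod_empty] at hn ⊢
    by_contra hcon
    exact hn (ArithmeticFunction.one_apply_ne (by omega))
  | insert a s ha ih =>
    intro n hn
    rw [Finset.prod_insert ha] at hn ⊢
    exact Dpm_supp (hf a (Finset.mem_insert_self a s))
      (ih fun i hi => hf i (Finset.mem_insert_of_mem hi)) n hn

theorem dp_prod {ι : Type*} [DecidableEq ι] (s : Finset ι) (f : ι → ArithmeticFunction ℂ) (N : ι → ℕ)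
    (hf : ∀ i ∈ s, ∀ n, f i n ≠ 0 → n ≤ N i) (t : ℝ) :
    DP (⇑(∏ i ∈ s, f i)) (∏ i ∈ s, N i) t = ∏ i ∈ s, DP (f i) (N i) t := by
  induction s using Finset.induction_on with
  | empty => simpa using Dpm_one t
  | insert a s ha ih =>
    have h1 : ∀ i ∈ s, ∀ n, f i n ≠ 0 → n ≤ N i := fun i hi => hf i (Finset.mem_insert_of_mem hi)
    rw [Finset.prod_insert ha, Finset.prod_insert ha, Finset.prod_insert ha,
      dp_mul _ _ _ _ (hf a (Finset.mem_insert_self a s)) (Dpm_prod_supp s f N h1), ih h1]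

theorem dp_cont (f : ℕ → ℂ) (N : ℕ) : Continuous (DP f N) := by
  have h1 : DP f N = fun t => ∑ n ∈ Icc 1 N, f n * Pool.Agent.H91.PK.ee (t * Real.log n) := rfl
  rw [h1]
  refine continuous_finsetSum _ fun n _ => continuous_const.mul ?_
  unfold Pool.Agent.H91.PK.ee
  fun_prop

theorem dp_norm_le (f : ℕ → ℂ) (N : ℕ) (t : ℝ) : ‖DP f N t‖ ≤ ∑ n ∈ Icc 1 N, ‖f n‖ := by
  unfold DP
  refine (norm_sum_le _ _).trans (Finset.sum_le_sum fun n _ => ?_)
  rw [norm_mul, Dpm_norm_ee, mul_one]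

theorem tw_mul {d : ℕ} (χ : DirichletCharacter ℂ d) (f g : ArithmeticFunction ℝ) :
    tw χ (f * g) = tw χ f * tw χ g := by
  ext n
  rw [ArithmeticFunction.mul_apply]
  have h1 : tw χ (f * g) n = (((f * g) n : ℝ) : ℂ) * χ (n : ZMod d) := rfl
  rw [h1, ArithmeticFunction.mul_apply]
  push_cast
  rw [Finset.sum_mul]
  refine Finset.sum_congr rfl fun p hp => ?_
  rw [Nat.mem_divisorsAntidiagonal] at hp
  have h2 : tw χ f p.1 = ((f p.1 : ℝ) : ℂ) * χ (p.1 : ZMod d) := rfl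
  have h3 : tw χ g p.2 = ((g p.2 : ℝ) : ℂ) * χ (p.2 : ZMod d) := rfl
  rw [h2, h3, ← hp.1, Nat.cast_mul, map_mul]
  ring

theorem tw_prod {d : ℕ} (χ : DirichletCharacter ℂ d) {ι : Type*} [DecidableEq ι] (s : Finset ι)
    (f : ι → ArithmeticFunction ℝ) (hd : d ≠ 0) : tw χ (∏ i ∈ s, f i) = ∏ i ∈ s, tw χ (f i) := by
  induction s using Finset.induction_on with
  | empty =>
    rw [Finset.prod_empty, Finset.prod_empty]
    ext n
    have h1 : tw χ 1 n = ((((1 : ArithmeticFunction ℝ) n : ℝ)) : ℂ) * χ (n : ZMod d) := rfl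
    rw [h1]
    by_cases h2 : n = 1
    · subst h2
      simp
    · rw [ArithmeticFunction.one_apply_ne h2, ArithmeticFunction.one_apply_ne h2]
      simp
  | insert a s ha ih => rw [Finset.prod_insert ha, Finset.prod_insert ha, tw_mul, ih]

end Pool.Agent.H88.PSI

end

section

/-!
# PSI BoxD: boxes of factors (definition) and trivial bounds
-/

set_option autoImplicit false

namespace Pool.Agent.H88.PSI

open Finset MeasureTheory

/-- `r ≤ 6` factors `g i` supported on `[N i, 2 N i)`, bounded by `2 log X`, `N i ≤ X^(11/24)`, `∏ N i ≤ 3 X` -/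
structure Box (X : ℕ) {r : ℕ} (N : Fin r → ℕ) (g : Fin r → ArithmeticFunction ℂ) : Prop where
  hr : r ≤ 6
  one : ∀ i, 1 ≤ N i
  top : ∀ i, (N i : ℝ) ≤ (X : ℝ) ^ (11 / 24 : ℝ)
  prod : ∏ i, N i ≤ 3 * X
  supp : ∀ i n, g i n ≠ 0 → N i ≤ n ∧ n < 2 * N i
  bd : ∀ i n, ‖g i n‖ ≤ 2 * Real.log X

/-- the absolute value of the Dirichlet polynomial of the box -/
noncomputable def FF {r : ℕ} (N : Fin r → ℕ) (g : Fin r → ArithmeticFunction ℂ) (t : ℝ) : ℝ :=
  ∏ i, ‖DP (g i) (2 * N i) t‖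

theorem ff_cont {r : ℕ} (N : Fin r → ℕ) (g : Fin r → ArithmeticFunction ℂ) :
    Continuous (FF N g) := by
  unfold FF
  exact continuous_finsetProd _ fun i _ => (dp_cont _ _).norm

theorem ff_nonneg {r : ℕ} (N : Fin r → ℕ) (g : Fin r → ArithmeticFunction ℂ) (t : ℝ) :
    0 ≤ FF N g t := by
  unfold FF
  exact Finset.prod_nonneg fun i _ => norm_nonneg _

/-- the trivial bound for one factor -/
theorem box_tr {X r : ℕ} {N : Fin r → ℕ} {g : Fin r → ArithmeticFunction ℂ} (h : Box X N g)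
    (i : Fin r) (t : ℝ) : ‖DP (g i) (2 * N i) t‖ ≤ 2 * Real.log X * N i := by
  have hL : 0 ≤ 2 * Real.log X := (norm_nonneg _).trans (h.bd i 1)
  refine (dp_norm_le _ _ t).trans ?_
  have h1 : ∑ n ∈ Icc 1 (2 * N i), ‖g i n‖ = ∑ n ∈ Ico (N i) (2 * N i), ‖g i n‖ := by
    symm
    apply sum_subset
    · intro n hn
      have h2 := mem_Ico.mp hn
      have h3 := h.one i
      exact mem_Icc.mpr ⟨by omega, by omega⟩
    · intro n _ hn
      by_contra h0
      have h4 : g i n ≠ 0 := fun h5 => h0 (by rw [h5, norm_zero])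
      exact hn (mem_Ico.mpr (h.supp i n h4))
  rw [h1]
  calc ∑ n ∈ Ico (N i) (2 * N i), ‖g i n‖ ≤ ∑ n ∈ Ico (N i) (2 * N i), 2 * Real.log X :=
        sum_le_sum fun n _ => h.bd i n
    _ = 2 * Real.log X * N i := by
        rw [sum_const, Nat.card_Ico, nsmul_eq_mul, mul_comm]
        congr 1
        have : 2 * N i - N i = N i := by omega
        rw [this]

end Pool.Agent.H88.PSI

end

section

/-!
# PSI Mvt: mean value theorem

From `Pool.Agent.H35.W.mean_v` (`Pool/Agent/H35/W/MeanV.lean`) with `a m = √m b m` and the substitution `t ↦ 2 π t`.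
`tail_int`: dyadic pieces `2^j T ≤ |t| ≤ 2^(j+1) T` (or monotone convergence): `∑_j (2^j T)^(-2) (2^(j+2) T + 4 M (1+log M)) S`.
-/

set_option autoImplicit false

namespace Pool.Agent.H88.PSI

open Finset MeasureTheory

private theorem Mvt_pt (b : ℕ → ℂ) (M : ℕ) (t : ℝ) :
    ∑ m ∈ Icc 1 M, (((Real.sqrt m : ℝ) : ℂ) * b m) *
      (m : ℂ) ^ (-(1 / 2 : ℂ) + ((2 * Real.pi * t : ℝ) : ℂ) * Complex.I) = DP b M t := by
  unfold DP
  refine Finset.sum_congr rfl fun m hm => ?_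
  have hm' := Finset.mem_Icc.1 hm
  have hm0 : (m : ℂ) ≠ 0 := by exact_mod_cast (show m ≠ 0 by omega)
  have hmr : (0 : ℝ) < m := by exact_mod_cast (show 0 < m by omega)
  rw [Complex.cpow_add _ _ hm0]
  have e1 : (m : ℂ) ^ (-(1 / 2 : ℂ)) = (((m : ℝ) ^ (-(1 / 2) : ℝ) : ℝ) : ℂ) := by
    rw [Complex.ofReal_cpow hmr.le]
    push_cast
    rfl
  have e2 : ((Real.sqrt m : ℝ) : ℂ) * (m : ℂ) ^ (-(1 / 2 : ℂ)) = 1 := by
    rw [e1, ← Complex.ofReal_mul, Real.sqrt_eq_rpow, ← Real.rpow_add hmr]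
    norm_num
  have e3 : (m : ℂ) ^ (((2 * Real.pi * t : ℝ) : ℂ) * Complex.I) =
      Pool.Agent.H91.PK.ee (t * Real.log m) := by
    unfold Pool.Agent.H91.PK.ee
    rw [Complex.cpow_def_of_ne_zero hm0, ← Complex.natCast_log]
    congr 1
    push_cast
    ring
  rw [e3]
  calc ((Real.sqrt m : ℝ) : ℂ) * b m * ((m : ℂ) ^ (-(1 / 2 : ℂ)) *
        Pool.Agent.H91.PK.ee (t * Real.log m)) =
        (((Real.sqrt m : ℝ) : ℂ) * (m : ℂ) ^ (-(1 / 2 : ℂ))) *
          (b m * Pool.Agent.H91.PK.ee (t * Real.log m)) := by ring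
    _ = _ := by rw [e2, one_mul]

private theorem Mvt_SS_nonneg (b : ℕ → ℂ) (M : ℕ) : 0 ≤ SS b M :=
  Finset.sum_nonneg fun _ _ => sq_nonneg _

private theorem Mvt_log (M : ℕ) : 0 ≤ 1 + Real.log M := by
  have := Real.log_natCast_nonneg M
  linarith

theorem mvt (b : ℕ → ℂ) (M : ℕ) (T : ℝ) (hM : 1 ≤ M) (hT : 0 ≤ T) :
    ∫ t in Set.Icc (-T) T, ‖DP b M t‖ ^ 2 ≤ (2 * T + 4 * M * (1 + Real.log M)) * SS b M := by
  have hpi := Real.pi_pos
  have h := Pool.Agent.H35.W.mean_v (fun m => ((Real.sqrt m : ℝ) : ℂ) * b m) M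
    (2 * Real.pi * T) hM (by positivity)
  have e1 : ∑ m ∈ Icc 1 M, ‖(fun m : ℕ => ((Real.sqrt m : ℝ) : ℂ) * b m) m‖ ^ 2 / m = SS b M := by
    unfold SS
    refine Finset.sum_congr rfl fun m hm => ?_
    have hm' := Finset.mem_Icc.1 hm
    have hmr : (0 : ℝ) < m := by exact_mod_cast (show 0 < m by omega)
    show ‖((Real.sqrt m : ℝ) : ℂ) * b m‖ ^ 2 / m = _
    rw [norm_mul, Complex.norm_real, Real.norm_of_nonneg (Real.sqrt_nonneg _), mul_pow,
      Real.sq_sqrt hmr.le]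
    field_simp
  rw [e1] at h
  rw [integral_Icc_eq_integral_Ioc, ← intervalIntegral.integral_of_le (by linarith : -T ≤ T)]
  have e2 : ∫ t in (-T)..T, ‖DP b M t‖ ^ 2 = (2 * Real.pi)⁻¹ • ∫ u in
      (2 * Real.pi * -T)..(2 * Real.pi * T), ‖∑ m ∈ Icc 1 M, (((Real.sqrt m : ℝ) : ℂ) * b m) *
      (m : ℂ) ^ (-(1 / 2 : ℂ) + (u : ℂ) * Complex.I)‖ ^ 2 := by
    rw [← intervalIntegral.integral_comp_mul_left (fun u : ℝ => ‖∑ m ∈ Icc 1 M,
      (((Real.sqrt m : ℝ) : ℂ) * b m) * (m : ℂ) ^ (-(1 / 2 : ℂ) + (u : ℂ) * Complex.I)‖ ^ 2)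
      (by positivity : 2 * Real.pi ≠ 0)]
    refine intervalIntegral.integral_congr fun t _ => ?_
    show ‖DP b M t‖ ^ 2 = _
    rw [← Mvt_pt b M t]
  rw [e2, smul_eq_mul, show 2 * Real.pi * -T = -(2 * Real.pi * T) by ring]
  have h2 := mul_le_mul_of_nonneg_left h (by positivity : 0 ≤ (2 * Real.pi)⁻¹)
  refine h2.trans ?_
  rw [← mul_assoc]
  refine mul_le_mul_of_nonneg_right ?_ (Mvt_SS_nonneg b M)
  have h3 : (2 * Real.pi)⁻¹ * (2 * (2 * Real.pi * T) + 4 * M * (1 + Real.log M)) =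
      2 * T + (2 * Real.pi)⁻¹ * (4 * M * (1 + Real.log M)) := by
    field_simp
  rw [h3]
  have h4 : (2 * Real.pi)⁻¹ ≤ 1 := by
    have := Real.pi_gt_three
    exact inv_le_one_of_one_le₀ (by linarith)
  have h5 : 0 ≤ 4 * M * (1 + Real.log M) := mul_nonneg (by positivity) (Mvt_log M)
  have h6 := mul_le_mul_of_nonneg_right h4 h5
  linarith

end Pool.Agent.H88.PSI

end

section

/-!
# PSI Cov: if the product is large, some factor is large

Otherwise every `i` has `v i ≤ 2 L X^(κ/24) (N i)^(s-κ)` (if `N i < X^(κ/24)` by `v i ≤ 2 L N i` and `(N i)^(s-κ) ≥ 1`; if not by `v i < (N i)^(s-κ)`), so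
`∏ v i ≤ (2 L)^6 X^(κ/4) (3 X)^(s-κ) ≤ 9 (2 L)^6 X^(s-3κ/4) ≤ X^(s-κ/4)` (`r ≤ 6`; factors `2 L X^(κ/24) ≥ 1`), a contradiction.
-/

set_option autoImplicit false

namespace Pool.Agent.H88.PSI

open Finset

private theorem Cov_large {κ : ℝ} (hκ : 0 < κ) : ∃ X0 : ℕ, ∀ X : ℕ, X0 ≤ X →
    3 * (2 * Real.log X) ^ 6 ≤ (X : ℝ) ^ (κ / 2) := by
  have h1 := (isLittleO_log_rpow_rpow_atTop (6 : ℝ) (by positivity : 0 < κ / 2)).bound
    (by norm_num : (0 : ℝ) < 1 / 192)
  have h2 : ∀ᶠ X : ℕ in Filter.atTop, ‖Real.log (X : ℝ) ^ (6 : ℝ)‖ ≤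
      1 / 192 * ‖(X : ℝ) ^ (κ / 2)‖ := tendsto_natCast_atTop_atTop.eventually h1
  obtain ⟨X0, hX0⟩ := Filter.eventually_atTop.mp (h2.and (Filter.eventually_ge_atTop 1))
  refine ⟨X0, fun X hX => ?_⟩
  obtain ⟨h3, h4⟩ := hX0 X hX
  have h5 : (0 : ℝ) ≤ (X : ℝ) ^ (κ / 2) := Real.rpow_nonneg (Nat.cast_nonneg _) _
  rw [Real.norm_of_nonneg h5] at h3
  have h6 : Real.log (X : ℝ) ^ (6 : ℝ) = Real.log (X : ℝ) ^ 6 := by
    rw [← Real.rpow_natCast]
    norm_num
  rw [h6] at h3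
  have h7 := (le_abs_self _).trans h3
  have h8 : 3 * (2 * Real.log (X : ℝ)) ^ 6 = 192 * Real.log (X : ℝ) ^ 6 := by ring
  rw [h8]
  linarith

theorem cov (κ : ℝ) (hκ : 0 < κ) (hκ' : κ ≤ 1 / 4) : ∃ X0 : ℕ, ∀ X : ℕ, X0 ≤ X →
    ∀ (r : ℕ) (N : Fin r → ℕ) (v : Fin r → ℝ) (s : ℝ), r ≤ 6 → (∀ i, 1 ≤ N i) →
    ∏ i, N i ≤ 3 * X → (∀ i, 0 ≤ v i) → (∀ i, v i ≤ 2 * Real.log X * N i) → 1 / 2 ≤ s →
    s ≤ 1 + κ → (X : ℝ) ^ (s - κ / 4) < ∏ i, v i →
    ∃ i, (X : ℝ) ^ (κ / 24) ≤ N i ∧ (N i : ℝ) ^ (s - κ) ≤ v i := by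
  obtain ⟨X0, hX0⟩ := Cov_large hκ
  refine ⟨max X0 2, fun X hX r N v s hr hN hprod hv0 hv hs hs' hbig => ?_⟩
  have hlarge := hX0 X ((le_max_left _ _).trans hX)
  have hX2 : 2 ≤ X := (le_max_right _ _).trans hX
  have hXr : (2 : ℝ) ≤ X := by exact_mod_cast hX2
  have hX0' : (0 : ℝ) < X := by linarith
  have hL : 1 ≤ 2 * Real.log X := by
    have h1 : Real.log 2 ≤ Real.log X := Real.log_le_log (by norm_num) hXr
    have h2 := Real.log_two_gt_d9
    linarith
  have he : 0 ≤ s - κ := by linarith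
  have hXk : 1 ≤ (X : ℝ) ^ (κ / 24) := Real.one_le_rpow (by linarith) (by positivity)
  by_contra hcon
  push Not at hcon
  obtain ⟨B, hB⟩ : ∃ B, B = 2 * Real.log X * (X : ℝ) ^ (κ / 24) := ⟨_, rfl⟩
  have hB1 : 1 ≤ B := by
    rw [hB]
    exact one_le_mul_of_one_le_of_one_le hL hXk
  have hNe : ∀ i, 1 ≤ (N i : ℝ) ^ (s - κ) := fun i =>
    Real.one_le_rpow (by exact_mod_cast hN i) he
  have key : ∀ i, v i ≤ B * (N i : ℝ) ^ (s - κ) := by
    intro i
    rcases lt_or_ge (N i : ℝ) ((X : ℝ) ^ (κ / 24)) with h1 | h1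
    · have h2 : v i ≤ B := by
        refine (hv i).trans ?_
        rw [hB]
        exact mul_le_mul_of_nonneg_left h1.le (by linarith)
      have h3 : B ≤ B * (N i : ℝ) ^ (s - κ) := le_mul_of_one_le_right (by linarith) (hNe i)
      exact h2.trans h3
    · have h2 := (hcon i h1).le
      have h3 : (N i : ℝ) ^ (s - κ) ≤ B * (N i : ℝ) ^ (s - κ) :=
        le_mul_of_one_le_left (by linarith [hNe i]) hB1
      exact h2.trans h3
  have h1 : ∏ i, v i ≤ B ^ 6 * (3 * (X : ℝ)) ^ (s - κ) := by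
    refine (Finset.prod_le_prod (fun i _ => hv0 i) fun i _ => key i).trans ?_
    rw [Finset.prod_mul_distrib, Finset.prod_const, Finset.card_univ, Fintype.card_fin]
    refine mul_le_mul (pow_le_pow_right₀ hB1 hr) ?_
      (Finset.prod_nonneg fun i _ => by linarith [hNe i]) (by positivity)
    rw [Real.finsetProd_rpow _ _ fun i _ => Nat.cast_nonneg _]
    refine Real.rpow_le_rpow (Finset.prod_nonneg fun i _ => Nat.cast_nonneg _) ?_ he
    exact_mod_cast hprod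
  have h2 : (3 * (X : ℝ)) ^ (s - κ) ≤ 3 * (X : ℝ) ^ (s - κ) := by
    rw [Real.mul_rpow (by norm_num) hX0'.le]
    refine mul_le_mul_of_nonneg_right ?_ (Real.rpow_nonneg hX0'.le _)
    calc (3 : ℝ) ^ (s - κ) ≤ (3 : ℝ) ^ (1 : ℝ) :=
          Real.rpow_le_rpow_of_exponent_le (by norm_num) (by linarith)
      _ = 3 := Real.rpow_one 3
  have h3 : B ^ 6 = (2 * Real.log X) ^ 6 * (X : ℝ) ^ (κ / 4) := by
    rw [hB, mul_pow, ← Real.rpow_natCast ((X : ℝ) ^ (κ / 24)) 6, ← Real.rpow_mul hX0'.le]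
    congr 2
    push_cast
    ring
  have h4 : B ^ 6 * (3 * (X : ℝ) ^ (s - κ)) ≤ (X : ℝ) ^ (s - κ / 4) := by
    have e1 : B ^ 6 * (3 * (X : ℝ) ^ (s - κ)) =
        3 * (2 * Real.log X) ^ 6 * ((X : ℝ) ^ (κ / 4) * (X : ℝ) ^ (s - κ)) := by
      rw [h3]
      ring
    have e2 : (X : ℝ) ^ (s - κ / 4) = (X : ℝ) ^ (κ / 2) * ((X : ℝ) ^ (κ / 4) * (X : ℝ) ^ (s - κ)) := by
      rw [← Real.rpow_add hX0', ← Real.rpow_add hX0']
      congr 1
      ring
    rw [e1, e2]
    exact mul_le_mul_of_nonneg_right hlarge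
      (mul_nonneg (Real.rpow_nonneg hX0'.le _) (Real.rpow_nonneg hX0'.le _))
  have h5 : B ^ 6 * (3 * (X : ℝ)) ^ (s - κ) ≤ B ^ 6 * (3 * (X : ℝ) ^ (s - κ)) :=
    mul_le_mul_of_nonneg_left h2 (by positivity)
  linarith

end Pool.Agent.H88.PSI

end

section

/-!
# PSI BoxI: mean square of the Dirichlet polynomial of a box of type II

`η` from `box_l`, `δ = min (η/13) (1/200)`; `box_s` on `{FF ≤ X^(1-δ)}`, and on `B = {L^K' ≤ |t| ≤ T, FF > X^(1-δ)}` `box_m` and
`box_l` with `pt_b`.  `Box`: `tw χ (pc k j)` is supported on `[2^j, 2^(j+1))`, bounded by `log 2^(j+1) ≤ 2 L`.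
`FF = ‖DP (tw χ (Pp κ j)) (∏ 2·2^(j i))‖` by `dp_prod`, `tw_prod`; the length may be increased (`hN`).
-/

set_option autoImplicit false

namespace Pool.Agent.H88.PSI

open Finset MeasureTheory

private theorem BoxI_ext (f : ℕ → ℂ) (N0 N : ℕ) (h : ∀ n, f n ≠ 0 → n ≤ N0) (hN : N0 ≤ N) (t : ℝ) :
    DP f N t = DP f N0 t := by
  unfold DP
  symm
  apply sum_subset (Icc_subset_Icc le_rfl hN)
  intro n _ hn
  have : f n = 0 := by
    by_contra h0
    have := h n h0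
    simp only [mem_Icc, not_and, not_le] at hn
    rename_i h1
    rw [mem_Icc] at h1
    have := hn h1.1
    omega
  rw [this, zero_mul]

private theorem BoxI_norm_char {d : ℕ} (χ : DirichletCharacter ℂ d) (a : ZMod d) : ‖χ a‖ ≤ 1 :=
  DirichletCharacter.norm_le_one χ a

theorem BoxI_box (X : ℕ) (hX : 3 ≤ X) {r d : ℕ} (χ : DirichletCharacter ℂ d) (κ : Fin r → Fin 3)
    (j : Fin r → ℕ) (hr : r ≤ 6) (h1 : ∀ i, (2 : ℝ) ^ j i ≤ (X : ℝ) ^ (11 / 24 : ℝ))
    (h2 : ∏ i, 2 ^ j i ≤ 3 * X) :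
    Box X (fun i => 2 ^ j i) (fun i => tw χ (pc (κ i) (j i))) where
  hr := hr
  one := fun i => Nat.one_le_two_pow
  top := fun i => by push_cast; exact h1 i
  prod := h2
  supp := by
    intro i n hn
    have h3 : pc (κ i) (j i) n ≠ 0 := by
      intro h0
      apply hn
      show (((pc (κ i) (j i)) n : ℝ) : ℂ) * χ (n : ZMod d) = 0
      rw [h0]; simp
    unfold pc seg at h3
    simp only [ArithmeticFunction.coe_mk] at h3
    split_ifs at h3 with h4
    · refine ⟨h4.2.1, ?_⟩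
      have := h4.2.2
      rw [pow_succ] at this
      show n < 2 * 2 ^ j i
      omega
    · exact absurd rfl h3
  bd := by
    intro i n
    have hX3 : (3 : ℝ) ≤ X := by exact_mod_cast hX
    have hL1 : 1 ≤ Real.log X := by
      rw [Real.le_log_iff_exp_le (by linarith)]
      have := Real.exp_one_lt_d9
      linarith
    show ‖(((pc (κ i) (j i)) n : ℝ) : ℂ) * χ (n : ZMod d)‖ ≤ 2 * Real.log X
    rw [norm_mul, Complex.norm_real]
    have h3 : ‖(pc (κ i) (j i)) n‖ ≤ 2 * Real.log X := by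
      unfold pc seg
      simp only [ArithmeticFunction.coe_mk]
      split_ifs with h4
      · unfold kf
        split_ifs
        · simp; linarith
        · have hn0 : (0 : ℝ) < n := by
            have := Nat.pos_of_ne_zero h4.1
            exact_mod_cast this
          have hn1 : (1 : ℝ) ≤ n := by
            have := Nat.pos_of_ne_zero h4.1
            exact_mod_cast this
          rw [Real.norm_eq_abs, abs_of_nonneg (Real.log_nonneg hn1)]
          have h5 : (n : ℝ) ≤ (X : ℝ) ^ 2 := by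
            have h6 : (n : ℝ) < 2 ^ (j i + 1) := by exact_mod_cast h4.2.2
            have h7 : (X : ℝ) ^ (11 / 24 : ℝ) ≤ X := by
              nth_rewrite 2 [← Real.rpow_one (X : ℝ)]
              exact Real.rpow_le_rpow_of_exponent_le (by linarith) (by norm_num)
            have h8 := h1 i
            have h9 : (2 : ℝ) ^ (j i + 1) = 2 ^ (j i) * 2 := by ring
            nlinarith
          calc Real.log n ≤ Real.log ((X : ℝ) ^ 2) := Real.log_le_log hn0 h5
            _ = 2 * Real.log X := by rw [Real.log_pow]; norm_num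
        · have h5 := ArithmeticFunction.abs_moebius_le_one (n := n)
          have h6 : |((ArithmeticFunction.moebius n : ℤ) : ℝ)| ≤ 1 := by exact_mod_cast h5
          rw [Real.norm_eq_abs]
          linarith
      · simp; linarith
    calc ‖(pc (κ i) (j i)) n‖ * ‖χ (n : ZMod d)‖ ≤ ‖(pc (κ i) (j i)) n‖ * 1 :=
          mul_le_mul_of_nonneg_left (BoxI_norm_char χ _) (norm_nonneg _)
      _ ≤ 2 * Real.log X := by rw [mul_one]; exact h3

theorem BoxI_ff {r d : ℕ} (N : ℕ) (hd : 1 ≤ d) (χ : DirichletCharacter ℂ d) (κ : Fin r → Fin 3)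
    (j : Fin r → ℕ) (hN : 2 ^ r * ∏ i, 2 ^ j i ≤ N) (t : ℝ) :
    ‖DP (tw χ (Pp κ j)) N t‖ = FF (fun i => 2 ^ j i) (fun i => tw χ (pc (κ i) (j i))) t := by
  have hsup : ∀ i n, tw χ (pc (κ i) (j i)) n ≠ 0 → 2 ^ j i ≤ n ∧ n < 2 * 2 ^ j i := by
    intro i n hn
    have h3 : pc (κ i) (j i) n ≠ 0 := by
      intro h0
      apply hn
      show (((pc (κ i) (j i)) n : ℝ) : ℂ) * χ (n : ZMod d) = 0
      rw [h0]; simp
    unfold pc seg at h3
    simp only [ArithmeticFunction.coe_mk] at h3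
    split_ifs at h3 with h4
    · refine ⟨h4.2.1, ?_⟩
      have := h4.2.2
      rw [pow_succ] at this
      omega
    · exact absurd rfl h3
  have e1 : tw χ (Pp κ j) = ∏ i, tw χ (pc (κ i) (j i)) := by
    unfold Pp
    exact tw_prod χ univ _ (by omega)
  have e2 : ∏ i : Fin r, (2 * 2 ^ j i) = 2 ^ r * ∏ i, 2 ^ j i := by
    rw [prod_mul_distrib]; simp
  have e3 : DP (⇑(tw χ (Pp κ j))) N t = DP (⇑(∏ i, tw χ (pc (κ i) (j i)))) (∏ i : Fin r, (2 * 2 ^ j i)) t := by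
    rw [e1]
    apply BoxI_ext
    · intro n hn
      exact (prod_supp _ (fun i => 2 ^ j i) hsup n hn).2
    · rw [e2]; exact hN
  rw [e3, dp_prod univ (fun i => tw χ (pc (κ i) (j i))) (fun i => 2 * 2 ^ j i)
    (fun i _ n hn => (hsup i n hn).2.le) t, norm_prod]
  rfl

end Pool.Agent.H88.PSI

end

section

/-!
# PSI HB: the Heath-Brown identity (k = 3)

`M = seg 2 1 (2^w)` (`μ` on `[1, 2^w)`), `Z = hi 0 1` (`1` on `n ≥ 1`), `G = hi 1 1` (`log`).
`(1 - Z M)(n) = 0` for `n < 2^w`, so `La (1 - Z M)^3` vanishes at `n < (2^w)^3`; `La Z = G`; so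
`La = 3 G M - 3 G Z M^2 + G Z^2 M^3` there.  Split `G = hi 1 Y + seg 1 1 Y`, `Z = hi 0 Y + seg 0 1 Y`, `Y = 2^y`, in the
part with `seg 1 1 Y`; `seg 1 1 Y * M` vanishes at `n ≥ 2^y 2^w`.
-/

set_option autoImplicit false

namespace Pool.Agent.H88.PSI

open ArithmeticFunction in
private theorem HB_vanish {f g : ArithmeticFunction ℝ} {a b n : ℕ} (hf : ∀ m < a, f m = 0)
    (hg : ∀ m < b, g m = 0) (hn : n < a * b) : (f * g) n = 0 := by
  rw [ArithmeticFunction.mul_apply]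
  refine Finset.sum_eq_zero fun x hx => ?_
  have h1 : x.1 * x.2 = n := (Nat.mem_divisorsAntidiagonal.1 hx).1
  rcases lt_or_ge x.1 a with h2 | h2
  · rw [hf _ h2, zero_mul]
  · rcases lt_or_ge x.2 b with h3 | h3
    · rw [hg _ h3, mul_zero]
    · exact absurd (Nat.mul_le_mul h2 h3) (by omega)

private theorem HB_vanish' {f g : ArithmeticFunction ℝ} {a b n : ℕ} (hf : ∀ m, a ≤ m → f m = 0)
    (hg : ∀ m, b ≤ m → g m = 0) (hn : a * b ≤ n) (hn0 : n ≠ 0) : (f * g) n = 0 := by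
  rw [ArithmeticFunction.mul_apply]
  refine Finset.sum_eq_zero fun x hx => ?_
  have h1 : x.1 * x.2 = n := (Nat.mem_divisorsAntidiagonal.1 hx).1
  rcases lt_or_ge x.1 a with h2 | h2
  · rcases lt_or_ge x.2 b with h3 | h3
    · exfalso
      have h4 : x.1 * x.2 ≤ x.1 * b := Nat.mul_le_mul_left _ h3.le
      have h5 : x.1 * b ≤ a * b := Nat.mul_le_mul_right _ h2.le
      have h6 : 0 < x.1 := by
        rcases Nat.eq_zero_or_pos x.1 with h | h
        · rw [h, zero_mul] at h1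
          exact absurd h1.symm hn0
        · exact h
      have h7 : x.1 * x.2 < x.1 * b := Nat.mul_lt_mul_of_pos_left h3 h6
      omega
    · rw [hg _ h3, mul_zero]
  · rw [hf _ h2, zero_mul]

private theorem HB_three (f : ArithmeticFunction ℝ) : (3 : ℝ) • f = 3 * f := by
  have h : (3 : ArithmeticFunction ℝ) * f = f + f + f := by ring
  rw [h]
  ext n
  simp only [ArithmeticFunction.add_apply]
  rw [show ((3 : ℝ) • f) n = 3 * f n from rfl]
  ring

private theorem HB_Z : hi 0 1 = ((ArithmeticFunction.zeta : ArithmeticFunction ℕ) :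
    ArithmeticFunction ℝ) := by
  ext n
  rw [ArithmeticFunction.natCoe_apply, ArithmeticFunction.zeta_apply]
  show (if n ≠ 0 ∧ 1 ≤ n then kf 0 n else 0) = _
  by_cases hn : n = 0
  · simp [hn]
  · have : 1 ≤ n := Nat.one_le_iff_ne_zero.2 hn
    simp [hn, this, kf]

private theorem HB_G : La * hi 0 1 = hi 1 1 := by
  rw [HB_Z]
  unfold La
  rw [ArithmeticFunction.vonMangoldt_mul_zeta]
  ext n
  rw [ArithmeticFunction.log_apply]
  show _ = (if n ≠ 0 ∧ 1 ≤ n then kf 1 n else 0)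
  by_cases hn : n = 0
  · simp [hn]
  · have : 1 ≤ n := Nat.one_le_iff_ne_zero.2 hn
    simp [hn, this, kf]

private theorem HB_ZM (w n : ℕ) (hn : n < 2 ^ w) : (1 - hi 0 1 * seg 2 1 (2 ^ w)) n = 0 := by
  have h1 : (hi 0 1 * ((ArithmeticFunction.moebius : ArithmeticFunction ℤ) :
      ArithmeticFunction ℝ)) = 1 := by
    rw [HB_Z]
    exact ArithmeticFunction.coe_zeta_mul_coe_moebius
  have h2 : (hi 0 1 * seg 2 1 (2 ^ w)) n = (1 : ArithmeticFunction ℝ) n := by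
    rw [← h1, ArithmeticFunction.mul_apply, ArithmeticFunction.mul_apply]
    refine Finset.sum_congr rfl fun x hx => ?_
    obtain ⟨h3, h4⟩ := Nat.mem_divisorsAntidiagonal.1 hx
    congr 1
    have h5 : x.2 ≠ 0 := by
      intro h
      rw [h, mul_zero] at h3
      exact h4 h3.symm
    have h6 : x.2 ∣ n := ⟨x.1, by rw [← h3, mul_comm]⟩
    have h7 : x.2 ≤ n := Nat.le_of_dvd (Nat.pos_of_ne_zero h4) h6
    rw [ArithmeticFunction.intCoe_apply]
    show (if x.2 ≠ 0 ∧ 1 ≤ x.2 ∧ x.2 < 2 ^ w then kf 2 x.2 else 0) = _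
    rw [if_pos ⟨h5, Nat.one_le_iff_ne_zero.2 h5, lt_of_le_of_lt h7 hn⟩]
    simp [kf]
  have h3 : (1 - hi 0 1 * seg 2 1 (2 ^ w)) n =
      (1 : ArithmeticFunction ℝ) n - (hi 0 1 * seg 2 1 (2 ^ w)) n := rfl
  rw [h3, h2, sub_self]

private theorem HB_split (k : Fin 3) (Y : ℕ) : hi k 1 = hi k Y + seg k 1 Y := by
  ext n
  rw [ArithmeticFunction.add_apply]
  show (if n ≠ 0 ∧ 1 ≤ n then kf k n else 0) =
    (if n ≠ 0 ∧ Y ≤ n then kf k n else 0) + (if n ≠ 0 ∧ 1 ≤ n ∧ n < Y then kf k n else 0)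
  by_cases hn : n = 0
  · simp [hn]
  · have h1 : 1 ≤ n := Nat.one_le_iff_ne_zero.2 hn
    rcases lt_or_ge n Y with h2 | h2
    · simp [hn, h1, h2, not_le.2 h2]
    · simp [hn, h1, h2, not_lt.2 h2]

private theorem HB_T4 (y w : ℕ) : Tp k4 y w =
    seg 1 1 (2 ^ y) * seg 0 1 (2 ^ y) * seg 2 1 (2 ^ w) * seg 2 1 (2 ^ w) := by
  unfold Tp
  rw [Fin.prod_univ_four]
  rfl

private theorem HB_T6 (y w : ℕ) : Tp k6 y w =
    seg 1 1 (2 ^ y) * seg 0 1 (2 ^ y) * seg 0 1 (2 ^ y) * seg 2 1 (2 ^ w) * seg 2 1 (2 ^ w) *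
      seg 2 1 (2 ^ w) := by
  unfold Tp
  rw [Fin.prod_univ_six]
  rfl

theorem hb (y w n : ℕ) (h1 : n < (2 ^ w) ^ 3) (h2 : 2 ^ y * 2 ^ w ≤ n) :
    La n = (hi 1 (2 ^ y) * cA w) n + (hi 0 (2 ^ y) * cB y w) n
      - 3 * (Tp k4 y w) n + (Tp k6 y w) n := by
  set M := seg 2 1 (2 ^ w) with hM
  set Z := hi 0 1 with hZ
  set Zh := hi 0 (2 ^ y) with hZh
  set Zl := seg 0 1 (2 ^ y) with hZl
  set g := seg 1 1 (2 ^ y) with hg
  set Gh := hi 1 (2 ^ y) with hGh
  have eZ : Z = Zh + Zl := HB_split 0 (2 ^ y)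
  have eG : La * Z = Gh + g := by
    rw [hZ, HB_G]
    exact HB_split 1 (2 ^ y)
  have v1 : ∀ m < 2 ^ w, (1 - Z * M) m = 0 := fun m hm => HB_ZM w m hm
  have v2 : ∀ m < 2 ^ w * 2 ^ w, ((1 - Z * M) * (1 - Z * M)) m = 0 :=
    fun m hm => HB_vanish v1 v1 hm
  have v3 : ∀ m < 2 ^ w * 2 ^ w * 2 ^ w, ((1 - Z * M) * (1 - Z * M) * (1 - Z * M)) m = 0 :=
    fun m hm => HB_vanish v2 v1 hm
  have v4 : (La * ((1 - Z * M) * (1 - Z * M) * (1 - Z * M))) n = 0 := by
    refine HB_vanish (a := 1) (b := 2 ^ w * 2 ^ w * 2 ^ w) ?_ v3 ?_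
    · intro m hm
      have : m = 0 := by omega
      rw [this]
      exact ArithmeticFunction.map_zero
    · calc n < (2 ^ w) ^ 3 := h1
        _ = 1 * (2 ^ w * 2 ^ w * 2 ^ w) := by ring
  have hn0 : n ≠ 0 := by
    have : 0 < 2 ^ y * 2 ^ w := by positivity
    omega
  have v5 : (g * M) n = 0 := by
    refine HB_vanish' (a := 2 ^ y) (b := 2 ^ w) ?_ ?_ h2 hn0
    · intro m hm
      show (if m ≠ 0 ∧ 1 ≤ m ∧ m < 2 ^ y then kf 1 m else 0) = 0
      rw [if_neg]
      rintro ⟨_, _, h⟩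
      omega
    · intro m hm
      show (if m ≠ 0 ∧ 1 ≤ m ∧ m < 2 ^ w then kf 2 m else 0) = 0
      rw [if_neg]
      rintro ⟨_, _, h⟩
      omega
  have key : La = Gh * cA w + Zh * cB y w - 3 * Tp k4 y w + Tp k6 y w + 3 * (g * M) +
      La * ((1 - Z * M) * (1 - Z * M) * (1 - Z * M)) := by
    have e1 : La * ((1 - Z * M) * (1 - Z * M) * (1 - Z * M)) =
        La - (La * Z) * (3 * M - 3 * (Z * M ^ 2) + Z ^ 2 * M ^ 3) := by ring
    have e2 : cA w = 3 * M - 3 * (Z * M ^ 2) + Z ^ 2 * M ^ 3 := by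
      unfold cA
      rw [HB_three, HB_three]
    have e3 : cB y w = g * (Z + Zl) * M ^ 3 - 3 * (g * M ^ 2) := by
      unfold cB
      rw [HB_three]
    rw [e1, eG, HB_T4, HB_T6, e2, e3, eZ]
    ring
  have e4 : ∀ f : ArithmeticFunction ℝ, (3 * f) n = 3 * f n := by
    intro f
    rw [← HB_three]
    rfl
  calc La n = (Gh * cA w + Zh * cB y w - 3 * Tp k4 y w + Tp k6 y w + 3 * (g * M) +
      La * ((1 - Z * M) * (1 - Z * M) * (1 - Z * M))) n := by rw [← key]
    _ = (Gh * cA w) n + (Zh * cB y w) n - (3 * Tp k4 y w) n + (Tp k6 y w) n + (3 * (g * M)) n +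
      (La * ((1 - Z * M) * (1 - Z * M) * (1 - Z * M))) n := rfl
    _ = _ := by
      rw [e4, e4, v4, v5]
      ring

end Pool.Agent.H88.PSI

end

section

/-!
# PSI Dy: dyadic decomposition of the truncated products

`lot k y w = ∑_{j < top k y w} pc k j` (every `1 ≤ n < 2^b` lies in exactly one `[2^j, 2^(j+1))`), then
`Finset.prod_univ_sum`.
-/

set_option autoImplicit false

namespace Pool.Agent.H88.PSI

open Finset

private theorem Dy_seg (k : Fin 3) (b : ℕ) :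
    seg k 1 (2 ^ b) = ∑ j ∈ range b, pc k j := by
  induction b with
  | zero =>
    ext n
    rw [Finset.range_zero, Finset.sum_empty, ArithmeticFunction.zero_apply]
    show (if n ≠ 0 ∧ 1 ≤ n ∧ n < 2 ^ 0 then kf k n else 0) = 0
    rw [if_neg]
    rw [pow_zero]
    omega
  | succ b ih =>
    rw [Finset.sum_range_succ, ← ih]
    ext n
    rw [ArithmeticFunction.add_apply]
    show (if n ≠ 0 ∧ 1 ≤ n ∧ n < 2 ^ (b + 1) then kf k n else 0) =
      (if n ≠ 0 ∧ 1 ≤ n ∧ n < 2 ^ b then kf k n else 0) +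
      (if n ≠ 0 ∧ 2 ^ b ≤ n ∧ n < 2 ^ (b + 1) then kf k n else 0)
    have h0 : 0 < 2 ^ b := by positivity
    have h1 : 2 ^ (b + 1) = 2 * 2 ^ b := by ring
    by_cases h : n < 2 ^ b
    · rw [if_neg (show ¬ (n ≠ 0 ∧ 2 ^ b ≤ n ∧ n < 2 ^ (b + 1)) by omega), add_zero]
      by_cases hn : n = 0
      · rw [if_neg (by omega), if_neg (by omega)]
      · rw [if_pos (by omega), if_pos (by omega)]
    · rw [if_neg (show ¬ (n ≠ 0 ∧ 1 ≤ n ∧ n < 2 ^ b) by omega), zero_add]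
      by_cases hn : n < 2 ^ (b + 1)
      · rw [if_pos (by omega), if_pos (by omega)]
      · rw [if_neg (by omega), if_neg (by omega)]

theorem tp_dy {r : ℕ} (κ : Fin r → Fin 3) (y w : ℕ) :
    Tp κ y w = ∑ j ∈ Fintype.piFinset (fun i => range (top (κ i) y w)), Pp κ j := by
  unfold Tp Pp lot
  simp only [Dy_seg]
  exact Finset.prod_univ_sum _ _

end Pool.Agent.H88.PSI

end
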