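import Pool.Agent.H15.TB1.M01
import Pool.Agent.H15.TB1.M15
import Pool.Agent.H15.TB1.M22

/-! The parts of this file: H91.PK.TyA. -/

section

/-!
PK TyA: type I sums (trivial bound for character sums + summation by parts).

* `char_partial`: for χ ≠ 1 mod r the sum over a full period vanishes (`MulChar.sum_eq_zero_of_ne_one`), so a partial
  sum over [1,B] equals a sum of fewer than r terms of modulus ≤ 1.
* `type1_inner`: let B = N/a (floor), A(b) = om(ab/N), C(b) = (log b)^ε (log(ab)/log N)^k, h = A C, F(b) = ∑_{j ≤ b} f j.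
  ∑_{b≤B} f(b)h(b) = F(B)h(B) + ∑_{b<B} F(b)(h(b)-h(b+1)), so the modulus is ≤ ρ (|h(B)| + ∑_{b<B} |h(b)-h(b+1)|).
  C is nonnegative, nondecreasing on 1..B and ≤ (log N)^ε (as ab ≤ N).
  |h(b)-h(b+1)| ≤ |A(b)-A(b+1)| C(b) + A(b+1)(C(b+1)-C(b)) ≤ (a/N)(log N)^ε + (4/27)(C(b+1)-C(b)),
  |h(B)| = A(B) C(B) and A(B) = |om(aB/N) - om(1)| ≤ 1 - aB/N.
  Sum ≤ (log N)^ε ((B-1) a/N + 1 - aB/N + 4/27) ≤ 1.15 (log N)^ε.   (If B = 0 the sum is empty.)
* `type1_total`: g(n) = χ(n) W(n), χ(ab) = χ(a)χ(b), |χ(a)| ≤ 1, |μ(a)| ≤ 1, |nuV(a)| ≤ log a ≤ log N for a ≤ N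
  (for a > N the inner sum is empty).
* `type0`: |∑_{n ≤ min U N} Λ(n) χ(n) W(n)| ≤ ∑_{n≤U} Λ(n) n/N ≤ (U/N) ψ(U) ≤ 1.1 U²/N
  (om t ≤ t; ψ(U) ≤ log 3 · U: `Pool.Agent.H91.Gold.psi_le_log_three` or Mathlib's `Chebyshev.psi_le_const_mul_self`;
   the constant 2 is enough here, so Mathlib's bound with log 4 + 4·… may be too weak: use the H91 one
   (import Pool.Agent.H91.GoldMertens2) if you like).
-/

set_option autoImplicit false

namespace Pool.Agent.H91.PK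

open Finset

/-! ### Character sums over a full period -/

theorem tyA_period {r : ℕ} (hr : 0 < r) (χ : DirichletCharacter ℂ r) (hχ : χ ≠ 1) (B : ℕ) :
    ∑ b ∈ Ico B (B + r), χ (b : ZMod r) = 0 := by
  have : NeZero r := ⟨hr.ne'⟩
  induction B with
  | zero =>
    obtain ⟨n, rfl⟩ : ∃ n, r = n + 1 := ⟨r - 1, by omega⟩
    have h1 : ∑ x : ZMod (n + 1), χ x = 0 := MulChar.sum_eq_zero_of_ne_one hχ
    have h2 : ∑ b ∈ range (n + 1), χ ((b : ℕ) : ZMod (n + 1)) = ∑ x : Fin (n + 1), χ (((x : ℕ) : ZMod (n + 1))) :=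
      Finset.sum_range (fun b : ℕ => χ (b : ZMod (n + 1)))
    have h3 : ∑ x : Fin (n + 1), χ (((x : ℕ) : ZMod (n + 1))) = ∑ x : ZMod (n + 1), χ x := by
      apply Finset.sum_congr rfl
      intro x _
      congr 1
      exact Fin.cast_val_eq_self x
    have h4 : Ico 0 (0 + (n + 1)) = range (n + 1) := by
      rw [zero_add, Finset.range_eq_Ico]
    rw [h4, h2, h3, h1]
  | succ B ih =>
    have h1 : ∑ b ∈ Ico B (B + r + 1), χ (b : ZMod r)
        = ∑ b ∈ Ico B (B + r), χ (b : ZMod r) + χ ((B + r : ℕ) : ZMod r) :=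
      Finset.sum_Ico_succ_top (by omega) _
    have h2 : ∑ b ∈ Ico B (B + r + 1), χ (b : ZMod r)
        = χ (B : ZMod r) + ∑ b ∈ Ico (B + 1) (B + r + 1), χ (b : ZMod r) :=
      Finset.sum_eq_sum_Ico_succ_bot (by omega) _
    have h3 : ((B + r : ℕ) : ZMod r) = (B : ZMod r) := by
      push_cast
      simp
    rw [h3, ih] at h1
    rw [h1] at h2
    have h4 : B + 1 + r = B + r + 1 := by omega
    rw [h4]
    have h5 : (0 : ℂ) + χ (B : ZMod r) = χ (B : ZMod r) + 0 := by ring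
    rw [h5] at h2
    exact (add_left_cancel h2).symm

theorem tyA_norm_le {r : ℕ} (χ : DirichletCharacter ℂ r) (b : ℕ) : ‖χ (b : ZMod r)‖ ≤ 1 :=
  DirichletCharacter.norm_le_one χ _

theorem char_partial {r : ℕ} (hr : 0 < r) (χ : DirichletCharacter ℂ r) (hχ : χ ≠ 1) (B : ℕ) :
    ‖∑ b ∈ Icc 1 B, χ (b : ZMod r)‖ ≤ r := by
  induction B using Nat.strong_induction_on with
  | _ B ih =>
    by_cases hB : B < r
    · calc ‖∑ b ∈ Icc 1 B, χ (b : ZMod r)‖ ≤ ∑ b ∈ Icc 1 B, ‖χ (b : ZMod r)‖ := norm_sum_le _ _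
        _ ≤ ∑ b ∈ Icc 1 B, (1 : ℝ) := Finset.sum_le_sum fun b _ => tyA_norm_le χ b
        _ = B := by simp
        _ ≤ r := by exact_mod_cast hB.le
    · push Not at hB
      have h1 := ih (B - r) (by omega)
      have h2 : ∑ b ∈ Icc 1 B, χ (b : ZMod r) = ∑ b ∈ Icc 1 (B - r), χ (b : ZMod r)
          + ∑ b ∈ Ico (B - r + 1) (B - r + 1 + r), χ (b : ZMod r) := by
        have e1 : Icc 1 B = Ico 1 (B + 1) := by ext x; rw [mem_Icc, mem_Ico]; omega
        have e2 : Icc 1 (B - r) = Ico 1 (B - r + 1) := by ext x; rw [mem_Icc, mem_Ico]; omega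
        have e3 : B - r + 1 + r = B + 1 := by omega
        rw [e1, e2, e3]
        exact (Finset.sum_Ico_consecutive _ (by omega) (by omega)).symm
      rw [h2, tyA_period hr χ hχ, add_zero]
      exact h1

/-! ### Summation by parts -/

theorem tyA_abel_eq (B : ℕ) (f : ℕ → ℂ) (h : ℕ → ℝ) :
    ∑ b ∈ Icc 1 B, f b * ((h b : ℝ) : ℂ)
      = (∑ b ∈ Icc 1 B, f b) * ((h B : ℝ) : ℂ)
        + ∑ b ∈ Ico 1 B, (∑ j ∈ Icc 1 b, f j) * ((h b - h (b + 1) : ℝ) : ℂ) := by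
  induction B with
  | zero => simp
  | succ B ih =>
    rw [Finset.sum_Icc_succ_top (by omega), Finset.sum_Icc_succ_top (by omega), ih]
    rcases Nat.eq_zero_or_pos B with hB | hB
    · subst hB
      simp
    · rw [Finset.sum_Ico_succ_top hB]
      push_cast
      ring

theorem tyA_abel (B : ℕ) (f : ℕ → ℂ) (ρ : ℝ) (hf : ∀ B : ℕ, ‖∑ b ∈ Icc 1 B, f b‖ ≤ ρ) (h : ℕ → ℝ) :
    ‖∑ b ∈ Icc 1 B, f b * ((h b : ℝ) : ℂ)‖ ≤ ρ * (|h B| + ∑ b ∈ Ico 1 B, |h b - h (b + 1)|) := by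
  rw [tyA_abel_eq]
  have h1 : ‖(∑ b ∈ Icc 1 B, f b) * ((h B : ℝ) : ℂ)‖ ≤ ρ * |h B| := by
    rw [norm_mul, Complex.norm_real, Real.norm_eq_abs]
    exact mul_le_mul_of_nonneg_right (hf B) (abs_nonneg _)
  have h2 : ‖∑ b ∈ Ico 1 B, (∑ j ∈ Icc 1 b, f j) * ((h b - h (b + 1) : ℝ) : ℂ)‖
      ≤ ∑ b ∈ Ico 1 B, ρ * |h b - h (b + 1)| := by
    refine (norm_sum_le _ _).trans (Finset.sum_le_sum fun b _ => ?_)
    rw [norm_mul, Complex.norm_real, Real.norm_eq_abs]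
    exact mul_le_mul_of_nonneg_right (hf b) (abs_nonneg _)
  calc _ ≤ _ := norm_add_le _ _
    _ ≤ ρ * |h B| + ∑ b ∈ Ico 1 B, ρ * |h b - h (b + 1)| := add_le_add h1 h2
    _ = _ := by rw [← Finset.mul_sum]; ring

/-- Abstract form of the type I bound. -/
theorem tyA_core (B : ℕ) (f : ℕ → ℂ) (ρ K δ : ℝ) (hf : ∀ B : ℕ, ‖∑ b ∈ Icc 1 B, f b‖ ≤ ρ)
    (A C : ℕ → ℝ) (hA0 : ∀ b, 0 ≤ A b) (hA1 : ∀ b, A b ≤ 4 / 27) (hδ : 0 ≤ δ)
    (hA2 : ∀ b, |A b - A (b + 1)| ≤ δ) (hA3 : A B ≤ 1 - B * δ)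
    (hC0 : ∀ b, 1 ≤ b → 0 ≤ C b) (hC1 : ∀ b, 1 ≤ b → b < B → C b ≤ C (b + 1))
    (hC2 : ∀ b, 1 ≤ b → b ≤ B → C b ≤ K) (hK : 0 ≤ K) :
    ‖∑ b ∈ Icc 1 B, f b * ((A b * C b : ℝ) : ℂ)‖ ≤ 1.15 * ρ * K := by
  have hρ : 0 ≤ ρ := le_trans (norm_nonneg _) (hf 0)
  rcases Nat.eq_zero_or_pos B with hB | hB
  · subst hB
    simp only [Nat.lt_one_iff, pos_of_gt, Finset.Icc_eq_empty_of_lt, Finset.sum_empty, norm_zero]
    positivity
  refine (tyA_abel B f ρ hf (fun b => A b * C b)).trans ?_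
  have h1 : |A B * C B| ≤ (1 - B * δ) * K := by
    rw [abs_of_nonneg (mul_nonneg (hA0 B) (hC0 B hB))]
    exact mul_le_mul hA3 (hC2 B hB le_rfl) (hC0 B hB) (le_trans (hA0 B) hA3)
  have h2 : ∀ b ∈ Ico 1 B, |A b * C b - A (b + 1) * C (b + 1)| ≤ δ * K + 4 / 27 * (C (b + 1) - C b) := by
    intro b hb
    rw [Finset.mem_Ico] at hb
    have e1 : A b * C b - A (b + 1) * C (b + 1) = (A b - A (b + 1)) * C b - A (b + 1) * (C (b + 1) - C b) := by ring
    rw [e1]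
    have e2 : |(A b - A (b + 1)) * C b| ≤ δ * K := by
      rw [abs_mul, abs_of_nonneg (hC0 b hb.1)]
      exact mul_le_mul (hA2 b) (hC2 b hb.1 hb.2.le) (hC0 b hb.1) hδ
    have e3 : |A (b + 1) * (C (b + 1) - C b)| ≤ 4 / 27 * (C (b + 1) - C b) := by
      have h3 : 0 ≤ C (b + 1) - C b := by linarith [hC1 b hb.1 hb.2]
      rw [abs_mul, abs_of_nonneg (hA0 _), abs_of_nonneg h3]
      exact mul_le_mul_of_nonneg_right (hA1 _) h3
    calc _ ≤ _ := abs_sub _ _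
      _ ≤ _ := add_le_add e2 e3
  have h3 : ∑ b ∈ Ico 1 B, |A b * C b - A (b + 1) * C (b + 1)| ≤ (B - 1) * (δ * K) + 4 / 27 * (C B - C 1) := by
    refine (Finset.sum_le_sum h2).trans ?_
    have e1 : ∑ b ∈ Ico 1 B, (C (b + 1) - C b) = C B - C 1 := Finset.sum_Ico_sub C hB
    rw [Finset.sum_add_distrib, ← Finset.mul_sum (Ico 1 B) (fun b => C (b + 1) - C b), e1]
    have e2 : ∑ _b ∈ Ico 1 B, δ * K = (B - 1) * (δ * K) := by
      rw [Finset.sum_const, Nat.card_Ico, nsmul_eq_mul, Nat.cast_sub hB]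
      simp
    rw [e2]
  have h4 : |A B * C B| + ∑ b ∈ Ico 1 B, |A b * C b - A (b + 1) * C (b + 1)| ≤ 1.15 * K := by
    have h5 : C B ≤ K := hC2 B hB le_rfl
    have h6 : 0 ≤ C 1 := hC0 1 le_rfl
    have h7 : 0 ≤ δ * K := mul_nonneg hδ hK
    calc _ ≤ (1 - B * δ) * K + ((B - 1) * (δ * K) + 4 / 27 * (C B - C 1)) := add_le_add h1 h3
      _ = K - δ * K + 4 / 27 * (C B - C 1) := by ring
      _ ≤ K + 4 / 27 * K := by linarith
      _ ≤ 1.15 * K := by linarith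
  calc _ ≤ ρ * (1.15 * K) := mul_le_mul_of_nonneg_left h4 hρ
    _ = _ := by ring

/-! ### Estimates for the weight -/

theorem tyA_facts {N a : ℕ} (hN : 2 ≤ N) (ha : 1 ≤ a) :
    (∀ b : ℕ, |om (((a * b : ℕ) : ℝ) / N) - om (((a * (b + 1) : ℕ) : ℝ) / N)| ≤ (a : ℝ) / N) ∧
    om (((a * (N / a) : ℕ) : ℝ) / N) ≤ 1 - ((N / a : ℕ) : ℝ) * ((a : ℝ) / N) := by
  have hN0 : (0 : ℝ) < N := by exact_mod_cast (by omega : 0 < N)
  constructor
  · intro b
    refine (om_lip _ _).trans ?_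
    have e1 : (((a * b : ℕ) : ℝ) / N) - (((a * (b + 1) : ℕ) : ℝ) / N) = -((a : ℝ) / N) := by
      push_cast
      field_simp
      ring
    rw [e1, abs_neg, abs_of_nonneg (by positivity)]
  · have h1 := om_lip (((a * (N / a) : ℕ) : ℝ) / N) 1
    rw [om_eq_zero (le_refl (1 : ℝ)), sub_zero, abs_of_nonneg (om_nonneg _)] at h1
    have h2 : (((a * (N / a) : ℕ) : ℝ) / N) ≤ 1 := by
      rw [div_le_one hN0]
      exact_mod_cast Nat.mul_div_le N a
    rw [abs_of_nonpos (by linarith)] at h1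
    have h3 : (((a * (N / a) : ℕ) : ℝ) / N) = ((N / a : ℕ) : ℝ) * ((a : ℝ) / N) := by
      push_cast
      ring
    rw [h3] at h1 ⊢
    linarith

theorem tyA_log_ratio {N a b : ℕ} (hN : 2 ≤ N) (ha : 1 ≤ a) (hb : 1 ≤ b) :
    0 ≤ Real.log ((a * b : ℕ) : ℝ) / Real.log N ∧
      (b ≤ N / a → Real.log ((a * b : ℕ) : ℝ) / Real.log N ≤ 1) ∧
      Real.log ((a * b : ℕ) : ℝ) / Real.log N ≤ Real.log ((a * (b + 1) : ℕ) : ℝ) / Real.log N := by
  have hL : 0 < Real.log N := Real.log_pos (by exact_mod_cast (by omega : 1 < N))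
  have hab : 1 ≤ a * b := Nat.mul_pos ha hb
  have h1 : (1 : ℝ) ≤ ((a * b : ℕ) : ℝ) := by exact_mod_cast hab
  refine ⟨div_nonneg (Real.log_nonneg h1) hL.le, ?_, ?_⟩
  · intro h
    rw [div_le_one hL]
    apply Real.log_le_log (by linarith)
    have : a * b ≤ N := (Nat.mul_le_mul_left a h).trans (Nat.mul_div_le N a)
    exact_mod_cast this
  · apply div_le_div_of_nonneg_right _ hL.le
    apply Real.log_le_log (by linarith)
    exact_mod_cast Nat.mul_le_mul_left a (Nat.le_succ b)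

theorem type1_inner {N k a : ℕ} {ρ : ℝ} (hN : 2 ≤ N) (ha : 1 ≤ a) (f : ℕ → ℂ)
    (hf : ∀ B : ℕ, ‖∑ b ∈ Icc 1 B, f b‖ ≤ ρ) :
    ‖∑ b ∈ Icc 1 (N / a), f b * ((W N k (a * b) : ℝ) : ℂ)‖ ≤ 1.15 * ρ := by
  obtain ⟨h1, h2⟩ := tyA_facts hN ha
  have h3 := tyA_core (N / a) f ρ 1 ((a : ℝ) / N) hf (fun b => om (((a * b : ℕ) : ℝ) / N))
    (fun b => (Real.log ((a * b : ℕ) : ℝ) / Real.log N) ^ k) (fun b => om_nonneg _) (fun b => om_le _)
    (by positivity) h1 h2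
    (fun b hb => pow_nonneg (tyA_log_ratio hN ha hb).1 k)
    (fun b hb _ => pow_le_pow_left₀ (tyA_log_ratio hN ha hb).1 (tyA_log_ratio hN ha hb).2.2 k)
    (fun b hb hb' => pow_le_one₀ (tyA_log_ratio hN ha hb).1 ((tyA_log_ratio hN ha hb).2.1 hb'))
    zero_le_one
  rw [mul_one] at h3
  exact h3

theorem type1_inner_log {N k a : ℕ} {ρ : ℝ} (hN : 2 ≤ N) (ha : 1 ≤ a) (f : ℕ → ℂ)
    (hf : ∀ B : ℕ, ‖∑ b ∈ Icc 1 B, f b‖ ≤ ρ) :
    ‖∑ b ∈ Icc 1 (N / a), ((Real.log b : ℝ) : ℂ) * (f b * ((W N k (a * b) : ℝ) : ℂ))‖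
      ≤ 1.15 * ρ * Real.log N := by
  obtain ⟨h1, h2⟩ := tyA_facts hN ha
  have hL : 0 ≤ Real.log N := Real.log_nonneg (by exact_mod_cast (by omega : 1 ≤ N))
  have hlog : ∀ b : ℕ, 1 ≤ b → 0 ≤ Real.log b := fun b hb => Real.log_nonneg (by exact_mod_cast hb)
  have h3 := tyA_core (N / a) f ρ (Real.log N) ((a : ℝ) / N) hf (fun b => om (((a * b : ℕ) : ℝ) / N))
    (fun b => Real.log b * (Real.log ((a * b : ℕ) : ℝ) / Real.log N) ^ k) (fun b => om_nonneg _)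
    (fun b => om_le _)
    (by positivity) h1 h2
    (fun b hb => mul_nonneg (hlog b hb) (pow_nonneg (tyA_log_ratio hN ha hb).1 k))
    (fun b hb _ => ?_) (fun b hb hb' => ?_) hL
  · have e1 : ∑ b ∈ Icc 1 (N / a), ((Real.log b : ℝ) : ℂ) * (f b * ((W N k (a * b) : ℝ) : ℂ))
        = ∑ b ∈ Icc 1 (N / a), f b * ((om (((a * b : ℕ) : ℝ) / N) *
            (Real.log b * (Real.log ((a * b : ℕ) : ℝ) / Real.log N) ^ k) : ℝ) : ℂ) := by
      apply Finset.sum_congr rfl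
      intro b _
      unfold W
      push_cast
      ring
    rw [e1]
    exact h3
  · apply mul_le_mul _ (pow_le_pow_left₀ (tyA_log_ratio hN ha hb).1 (tyA_log_ratio hN ha hb).2.2 k)
      (pow_nonneg (tyA_log_ratio hN ha hb).1 k) (hlog _ (by omega))
    apply Real.log_le_log (by exact_mod_cast hb)
    exact_mod_cast Nat.le_succ b
  · have e1 : Real.log b ≤ Real.log N := by
      apply Real.log_le_log (by exact_mod_cast hb)
      exact_mod_cast hb'.trans (Nat.div_le_self N a)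
    calc _ ≤ Real.log N * 1 := mul_le_mul e1
          (pow_le_one₀ (tyA_log_ratio hN ha hb).1 ((tyA_log_ratio hN ha hb).2.1 hb'))
          (pow_nonneg (tyA_log_ratio hN ha hb).1 k) hL
      _ = _ := mul_one _

theorem type1_total {N k U V r : ℕ} (hN : 2 ≤ N) (hr : 0 < r) (χ : DirichletCharacter ℂ r) (hχ : χ ≠ 1) :
    ‖∑ a ∈ Icc 1 V, ((ArithmeticFunction.moebius a : ℝ) : ℂ) *
        ∑ b ∈ Icc 1 (N / a), ((Real.log b : ℝ) : ℂ) * (χ ((a * b : ℕ) : ZMod r) * ((W N k (a * b) : ℝ) : ℂ))‖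
    + ‖∑ a ∈ Icc 1 (U * V), ((nuV U V a : ℝ) : ℂ) *
        ∑ b ∈ Icc 1 (N / a), χ ((a * b : ℕ) : ZMod r) * ((W N k (a * b) : ℝ) : ℂ)‖
    ≤ 1.15 * r * Real.log N * (V + U * V) := by
  have hL : 0 ≤ Real.log N := Real.log_nonneg (by exact_mod_cast (by omega : 1 ≤ N))
  have hr0 : (0 : ℝ) ≤ r := Nat.cast_nonneg r
  have hχm : ∀ a b : ℕ, χ ((a * b : ℕ) : ZMod r) = χ (a : ZMod r) * χ (b : ZMod r) := by
    intro a b
    push_cast
    exact map_mul χ _ _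
  have hf := char_partial hr χ hχ
  have h1 : ‖∑ a ∈ Icc 1 V, ((ArithmeticFunction.moebius a : ℝ) : ℂ) *
        ∑ b ∈ Icc 1 (N / a), ((Real.log b : ℝ) : ℂ) * (χ ((a * b : ℕ) : ZMod r) * ((W N k (a * b) : ℝ) : ℂ))‖
      ≤ ∑ a ∈ Icc 1 V, 1.15 * r * Real.log N := by
    refine (norm_sum_le _ _).trans (Finset.sum_le_sum fun a ha => ?_)
    rw [Finset.mem_Icc] at ha
    have e1 : ∑ b ∈ Icc 1 (N / a), ((Real.log b : ℝ) : ℂ) * (χ ((a * b : ℕ) : ZMod r) * ((W N k (a * b) : ℝ) : ℂ))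
        = χ (a : ZMod r) * ∑ b ∈ Icc 1 (N / a), ((Real.log b : ℝ) : ℂ) *
            (χ (b : ZMod r) * ((W N k (a * b) : ℝ) : ℂ)) := by
      rw [Finset.mul_sum]
      apply Finset.sum_congr rfl
      intro b _
      rw [hχm]
      ring
    rw [e1, norm_mul, norm_mul]
    have e2 := type1_inner_log (k := k) hN ha.1 (fun b => χ (b : ZMod r)) hf
    have e3 : ‖((ArithmeticFunction.moebius a : ℝ) : ℂ)‖ ≤ 1 := by
      rw [Complex.norm_real, Real.norm_eq_abs]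
      have := ArithmeticFunction.abs_moebius_le_one (n := a)
      exact_mod_cast this
    calc _ ≤ 1 * (1 * (1.15 * r * Real.log N)) :=
          mul_le_mul e3 (mul_le_mul (tyA_norm_le χ a) e2 (norm_nonneg _) zero_le_one)
            (mul_nonneg (norm_nonneg _) (norm_nonneg _)) zero_le_one
      _ = _ := by ring
  have h2 : ‖∑ a ∈ Icc 1 (U * V), ((nuV U V a : ℝ) : ℂ) *
        ∑ b ∈ Icc 1 (N / a), χ ((a * b : ℕ) : ZMod r) * ((W N k (a * b) : ℝ) : ℂ)‖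
      ≤ ∑ a ∈ Icc 1 (U * V), 1.15 * r * Real.log N := by
    refine (norm_sum_le _ _).trans (Finset.sum_le_sum fun a ha => ?_)
    rw [Finset.mem_Icc] at ha
    by_cases haN : N < a
    · rw [Nat.div_eq_of_lt haN]
      simp only [Nat.lt_one_iff, pos_of_gt, Finset.Icc_eq_empty_of_lt, Finset.sum_empty, mul_zero,
        norm_zero]
      positivity
    push Not at haN
    have e1 : ∑ b ∈ Icc 1 (N / a), χ ((a * b : ℕ) : ZMod r) * ((W N k (a * b) : ℝ) : ℂ)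
        = χ (a : ZMod r) * ∑ b ∈ Icc 1 (N / a), χ (b : ZMod r) * ((W N k (a * b) : ℝ) : ℂ) := by
      rw [Finset.mul_sum]
      apply Finset.sum_congr rfl
      intro b _
      rw [hχm]
      ring
    rw [e1, norm_mul, norm_mul]
    have e2 := type1_inner (k := k) hN ha.1 (fun b => χ (b : ZMod r)) hf
    have e3 : ‖((nuV U V a : ℝ) : ℂ)‖ ≤ Real.log N := by
      rw [Complex.norm_real, Real.norm_eq_abs]
      refine (abs_nuV_le U V a ha.1).trans ?_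
      apply Real.log_le_log (by exact_mod_cast ha.1)
      exact_mod_cast haN
    calc _ ≤ Real.log N * (1 * (1.15 * r)) :=
          mul_le_mul e3 (mul_le_mul (tyA_norm_le χ a) e2 (norm_nonneg _) zero_le_one)
            (mul_nonneg (norm_nonneg _) (norm_nonneg _)) hL
      _ = _ := by ring
  rw [Finset.sum_const, Nat.card_Icc, nsmul_eq_mul, Nat.add_sub_cancel] at h1 h2
  calc _ ≤ (V : ℝ) * (1.15 * r * Real.log N) + ((U * V : ℕ) : ℝ) * (1.15 * r * Real.log N) := add_le_add h1 h2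
    _ = _ := by push_cast; ring

theorem type0 {N k U r : ℕ} (hN : 2 ≤ N) (χ : DirichletCharacter ℂ r) :
    ‖∑ n ∈ Icc 1 (min U N), ((ArithmeticFunction.vonMangoldt n : ℝ) : ℂ) *
        (χ (n : ZMod r) * ((W N k n : ℝ) : ℂ))‖ ≤ 2 * U ^ 2 / N := by
  have hN0 : (0 : ℝ) < N := by exact_mod_cast (by omega : 0 < N)
  have hom : ∀ t : ℝ, 0 ≤ t → om t ≤ t := by
    intro t ht
    have := om_lip t 0
    rw [om_zero, sub_zero, sub_zero, abs_of_nonneg (om_nonneg _), abs_of_nonneg ht] at this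
    exact this
  have h1 : ‖∑ n ∈ Icc 1 (min U N), ((ArithmeticFunction.vonMangoldt n : ℝ) : ℂ) *
        (χ (n : ZMod r) * ((W N k n : ℝ) : ℂ))‖
      ≤ ∑ n ∈ Icc 1 (min U N), ArithmeticFunction.vonMangoldt n * ((U : ℝ) / N) := by
    refine (norm_sum_le _ _).trans (Finset.sum_le_sum fun n hn => ?_)
    rw [Finset.mem_Icc] at hn
    have hnN : n ≤ N := hn.2.trans (min_le_right _ _)
    have hnU : n ≤ U := hn.2.trans (min_le_left _ _)
    rw [norm_mul, norm_mul, Complex.norm_real, Complex.norm_real, Real.norm_eq_abs, Real.norm_eq_abs,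
      abs_of_nonneg ArithmeticFunction.vonMangoldt_nonneg]
    apply mul_le_mul_of_nonneg_left _ ArithmeticFunction.vonMangoldt_nonneg
    have e1 := tyA_log_ratio (N := N) (a := 1) (b := n) hN le_rfl hn.1
    rw [one_mul, Nat.div_one] at e1
    have e2 : 0 ≤ (Real.log n / Real.log N) ^ k := pow_nonneg e1.1 k
    have e3 : (Real.log n / Real.log N) ^ k ≤ 1 := pow_le_one₀ e1.1 (e1.2.1 hnN)
    have e4 : |W N k n| ≤ (U : ℝ) / N := by
      unfold W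
      rw [abs_of_nonneg (mul_nonneg (om_nonneg _) e2)]
      calc om ((n : ℝ) / N) * (Real.log n / Real.log N) ^ k ≤ ((n : ℝ) / N) * 1 :=
            mul_le_mul (hom _ (by positivity)) e3 e2 (by positivity)
        _ = (n : ℝ) / N := mul_one _
        _ ≤ (U : ℝ) / N := div_le_div_of_nonneg_right (by exact_mod_cast hnU) hN0.le
    calc ‖χ (n : ZMod r)‖ * |W N k n| ≤ 1 * ((U : ℝ) / N) :=
          mul_le_mul (tyA_norm_le χ n) e4 (abs_nonneg _) zero_le_one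
      _ = _ := one_mul _
  have h2 : ∑ n ∈ Icc 1 (min U N), ArithmeticFunction.vonMangoldt n ≤ Chebyshev.psi U := by
    unfold Chebyshev.psi
    rw [Nat.floor_natCast]
    apply Finset.sum_le_sum_of_subset_of_nonneg
    · intro n hn
      rw [Finset.mem_Icc] at hn
      rw [Finset.mem_Ioc]
      exact ⟨by omega, hn.2.trans (min_le_left _ _)⟩
    · intro n _ _
      exact ArithmeticFunction.vonMangoldt_nonneg
  have h3 := Pool.Agent.H91.Gold.psi_le_log_three U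
  have h4 : Real.log 3 ≤ 2 := by
    have := Real.log_le_sub_one_of_pos (show (0 : ℝ) < 3 by norm_num)
    linarith
  rw [← Finset.sum_mul] at h1
  have hU : (0 : ℝ) ≤ U := Nat.cast_nonneg U
  calc _ ≤ _ := h1
    _ ≤ (2 * U) * ((U : ℝ) / N) := by
        apply mul_le_mul_of_nonneg_right _ (by positivity)
        calc _ ≤ _ := h2
          _ ≤ _ := h3
          _ ≤ 2 * U := mul_le_mul_of_nonneg_right h4 hU
    _ = _ := by ring

end Pool.Agent.H91.PK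

end
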