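import Pool.Agent.H15.TB1.M17

/-! The parts of this file: H14.CO.Chi. -/

section

/-!
# CO module Chi: `|χ|` near the critical line
-/

set_option autoImplicit false

namespace Pool.Agent.H14.CO

open Set MeasureTheory Complex

/-- One factor of the product formula. -/
lemma Chi_factor (x u s : ℝ) (hx : |x| ≤ 1 / 4) (hu : 1 ≤ |u|) (hs : 1 / 2 ≤ s) :
    x * Real.log (((s + 1 / 2) ^ 2 + u ^ 2) / ((s - 1 / 2) ^ 2 + u ^ 2))
      ≤ Real.log (((s + x) ^ 2 + u ^ 2) / (s ^ 2 + u ^ 2)) + 4 * (1 / s - 1 / (s + 1)) := by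
  have hu2 : 1 ≤ u ^ 2 := by
    have h1 : |u| ^ 2 = u ^ 2 := sq_abs u
    nlinarith only [hu, h1]
  obtain ⟨hx1, hx2⟩ := abs_le.mp hx
  have hv : 0 < s ^ 2 + u ^ 2 := by positivity
  have hp : 0 < (s + 1 / 2) ^ 2 + u ^ 2 := by positivity
  have hm : 0 < (s - 1 / 2) ^ 2 + u ^ 2 := by nlinarith only [hu2]
  have hw : 0 < (s + x) ^ 2 + u ^ 2 := by nlinarith only [hu2]
  have hBpos : 0 < ((s + 1 / 2) ^ 2 + u ^ 2) / ((s - 1 / 2) ^ 2 + u ^ 2) := div_pos hp hm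
  have hApos : 0 < ((s + x) ^ 2 + u ^ 2) / (s ^ 2 + u ^ 2) := div_pos hw hv
  have hB1 : Real.log (((s + 1 / 2) ^ 2 + u ^ 2) / ((s - 1 / 2) ^ 2 + u ^ 2))
      ≤ (2 * s + 4) / (s ^ 2 + u ^ 2) := by
    have h1 := Real.log_le_sub_one_of_pos hBpos
    have h2 : ((s + 1 / 2) ^ 2 + u ^ 2) / ((s - 1 / 2) ^ 2 + u ^ 2) - 1
        = 2 * s / ((s - 1 / 2) ^ 2 + u ^ 2) := by
      rw [div_sub_one hm.ne']
      congr 1
      ring
    have h3 : 2 * s / ((s - 1 / 2) ^ 2 + u ^ 2) ≤ (2 * s + 4) / (s ^ 2 + u ^ 2) := by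
      rw [div_le_div_iff₀ hm hv]
      nlinarith only [hu2, sq_nonneg (s - 1)]
    linarith only [h1, h2, h3]
  have hB2 : (2 * s - 4) / (s ^ 2 + u ^ 2) ≤
      Real.log (((s + 1 / 2) ^ 2 + u ^ 2) / ((s - 1 / 2) ^ 2 + u ^ 2)) := by
    have h1 := Real.one_sub_inv_le_log_of_pos hBpos
    have h2 : 1 - (((s + 1 / 2) ^ 2 + u ^ 2) / ((s - 1 / 2) ^ 2 + u ^ 2))⁻¹
        = 2 * s / ((s + 1 / 2) ^ 2 + u ^ 2) := by
      rw [inv_div, one_sub_div hp.ne']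
      congr 1
      ring
    have h3 : (2 * s - 4) / (s ^ 2 + u ^ 2) ≤ 2 * s / ((s + 1 / 2) ^ 2 + u ^ 2) := by
      rw [div_le_div_iff₀ hv hp]
      nlinarith only [hu2]
    linarith only [h1, h2, h3]
  have hB3 : x * Real.log (((s + 1 / 2) ^ 2 + u ^ 2) / ((s - 1 / 2) ^ 2 + u ^ 2))
      ≤ (2 * s * x + 1) / (s ^ 2 + u ^ 2) := by
    rcases le_total 0 x with h0 | h0
    · refine (mul_le_mul_of_nonneg_left hB1 h0).trans ?_
      rw [← mul_div_assoc]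
      refine div_le_div_of_nonneg_right ?_ hv.le
      nlinarith only [hx2]
    · refine (mul_le_mul_of_nonpos_left hB2 h0).trans ?_
      rw [← mul_div_assoc]
      refine div_le_div_of_nonneg_right ?_ hv.le
      nlinarith only [hx1]
  have hA1 : (2 * s * x - 1) / (s ^ 2 + u ^ 2) ≤
      Real.log (((s + x) ^ 2 + u ^ 2) / (s ^ 2 + u ^ 2)) := by
    have h1 := Real.one_sub_inv_le_log_of_pos hApos
    have h2 : 1 - (((s + x) ^ 2 + u ^ 2) / (s ^ 2 + u ^ 2))⁻¹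
        = (2 * s * x + x ^ 2) / ((s + x) ^ 2 + u ^ 2) := by
      rw [inv_div, one_sub_div hw.ne']
      congr 1
      ring
    have hx3 : x ^ 2 ≤ 1 / 16 := by nlinarith only [hx1, hx2]
    have hx4 : x ^ 3 ≤ 1 / 64 := by
      have : x ^ 3 = x * x ^ 2 := by ring
      nlinarith only [hx2, hx3]
    have h4 : 4 * s ^ 2 * x ^ 2 ≤ s ^ 2 / 4 := by nlinarith only [hx3]
    have h5 : 2 * s * x ^ 3 ≤ s / 32 := by nlinarith only [hs, hx4]
    have h6 : -(2 * s * x) ≤ s / 2 := by nlinarith only [hs, hx1]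
    have h3 : (2 * s * x - 1) / (s ^ 2 + u ^ 2) ≤
        (2 * s * x + x ^ 2) / ((s + x) ^ 2 + u ^ 2) := by
      rw [div_le_div_iff₀ hv hw]
      have h7 : (2 * s * x + x ^ 2) * (s ^ 2 + u ^ 2) - (2 * s * x - 1) * ((s + x) ^ 2 + u ^ 2)
          = x ^ 2 * (s ^ 2 + u ^ 2) + (s ^ 2 + u ^ 2) + 2 * s * x + x ^ 2
            - 4 * s ^ 2 * x ^ 2 - 2 * s * x ^ 3 := by ring
      have h8 : 0 ≤ x ^ 2 * (s ^ 2 + u ^ 2) := by positivity
      nlinarith only [hu2, h4, h5, h6, h8, sq_nonneg (s - 1), sq_nonneg x]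
    linarith only [h1, h2, h3]
  have hS : 2 / (s ^ 2 + u ^ 2) ≤ 4 * (1 / s - 1 / (s + 1)) := by
    have hs0 : 0 < s := by linarith only [hs]
    have h1 : 4 * (1 / s - 1 / (s + 1)) = 4 / (s * (s + 1)) := by
      field_simp
      ring
    rw [h1, div_le_div_iff₀ hv (by positivity)]
    nlinarith only [hu2]
  have hfin : (2 * s * x + 1) / (s ^ 2 + u ^ 2)
      = (2 * s * x - 1) / (s ^ 2 + u ^ 2) + 2 / (s ^ 2 + u ^ 2) := by
    rw [← add_div]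
    congr 1
    ring
  linarith only [hB3, hA1, hS, hfin]

/-- The summed form. -/
lemma Chi_sum (x u : ℝ) (hx : |x| ≤ 1 / 4) (hu : 1 ≤ |u|) (n : ℕ) :
    x * Real.log (((n : ℝ) ^ 2 + u ^ 2) / u ^ 2) + 4 * (1 / ((n : ℝ) + 1 / 2))
      ≤ ∑ j ∈ Finset.range n,
        Real.log ((((j : ℝ) + 1 / 2 + x) ^ 2 + u ^ 2) / (((j : ℝ) + 1 / 2) ^ 2 + u ^ 2)) + 8 := by
  have hu2 : 0 < u ^ 2 := by
    have h1 : |u| ^ 2 = u ^ 2 := sq_abs u
    nlinarith only [hu, h1]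
  induction n with
  | zero =>
    simp only [Nat.cast_zero, Finset.range_zero, Finset.sum_empty]
    rw [zero_pow two_ne_zero, zero_add, div_self hu2.ne', Real.log_one]
    norm_num
  | succ n ih =>
    rw [Finset.sum_range_succ]
    have h1 := Chi_factor x u ((n : ℝ) + 1 / 2) hx hu (by
      have : (0 : ℝ) ≤ n := Nat.cast_nonneg n
      linarith only [])
    have e1 : (n : ℝ) + 1 / 2 + 1 / 2 = n + 1 := by ring
    have e2 : (n : ℝ) + 1 / 2 - 1 / 2 = n := by ring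
    rw [e1, e2] at h1
    have hn0 : 0 < (n : ℝ) ^ 2 + u ^ 2 := by positivity
    have hn1 : 0 < ((n : ℝ) + 1) ^ 2 + u ^ 2 := by positivity
    have h2 : Real.log ((((n + 1 : ℕ) : ℝ) ^ 2 + u ^ 2) / u ^ 2)
        = Real.log (((n : ℝ) ^ 2 + u ^ 2) / u ^ 2)
          + Real.log ((((n : ℝ) + 1) ^ 2 + u ^ 2) / ((n : ℝ) ^ 2 + u ^ 2)) := by
      rw [← Real.log_mul (div_pos hn0 hu2).ne' (div_pos hn1 hn0).ne']
      congr 1
      push_cast
      field_simp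
    have e3 : ((n + 1 : ℕ) : ℝ) + 1 / 2 = (n : ℝ) + 1 / 2 + 1 := by push_cast; ring
    rw [h2, e3, mul_add]
    linarith only [ih, h1]

lemma Chi_prod (x u : ℝ) (hx : |x| ≤ 1 / 4) (hu : 1 ≤ |u|) (n : ℕ) :
    (((n : ℝ) ^ 2 + u ^ 2) / u ^ 2) ^ x *
        ∏ j ∈ Finset.range n, (((j : ℝ) + 1 / 2) ^ 2 + u ^ 2)
      ≤ Real.exp 8 * ∏ j ∈ Finset.range n, (((j : ℝ) + 1 / 2 + x) ^ 2 + u ^ 2) := by
  have hu2 : 0 < u ^ 2 := by
    have h1 : |u| ^ 2 = u ^ 2 := sq_abs u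
    nlinarith only [hu, h1]
  have hn0 : 0 < (n : ℝ) ^ 2 + u ^ 2 := by positivity
  have h := Chi_sum x u hx hu n
  have h0 : 0 ≤ 4 * (1 / ((n : ℝ) + 1 / 2)) := by positivity
  have hA : ∀ j : ℕ, 0 < ((j : ℝ) + 1 / 2 + x) ^ 2 + u ^ 2 := fun j => by positivity
  have hV : ∀ j : ℕ, 0 < ((j : ℝ) + 1 / 2) ^ 2 + u ^ 2 := fun j => by positivity
  have h2 : x * Real.log (((n : ℝ) ^ 2 + u ^ 2) / u ^ 2) ≤
      Real.log (∏ j ∈ Finset.range n,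
        ((((j : ℝ) + 1 / 2 + x) ^ 2 + u ^ 2) / (((j : ℝ) + 1 / 2) ^ 2 + u ^ 2))) + 8 := by
    rw [Real.log_prod (fun j _ => (div_pos (hA j) (hV j)).ne')]
    linarith only [h, h0]
  have h3 := Real.exp_le_exp.mpr h2
  rw [Real.exp_add, Real.exp_log (Finset.prod_pos fun j _ => div_pos (hA j) (hV j))] at h3
  rw [Real.rpow_def_of_pos (div_pos hn0 hu2), mul_comm (Real.log _) x]
  have hP : 0 < ∏ j ∈ Finset.range n, (((j : ℝ) + 1 / 2) ^ 2 + u ^ 2) :=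
    Finset.prod_pos fun j _ => hV j
  rw [Finset.prod_div_distrib] at h3
  calc _ ≤ ((∏ j ∈ Finset.range n, (((j : ℝ) + 1 / 2 + x) ^ 2 + u ^ 2)) /
        (∏ j ∈ Finset.range n, (((j : ℝ) + 1 / 2) ^ 2 + u ^ 2)) * Real.exp 8) *
        ∏ j ∈ Finset.range n, (((j : ℝ) + 1 / 2) ^ 2 + u ^ 2) :=
      mul_le_mul_of_nonneg_right h3 hP.le
    _ = _ := by
      rw [mul_comm (_ / _) (Real.exp 8), mul_assoc, div_mul_cancel₀ _ hP.ne']

lemma Chi_gseq (x u : ℝ) (n : ℕ) (hn : 0 < n) :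
    ‖Complex.GammaSeq (1 / 2 + x + u * I) n‖ ^ 2 =
      (n : ℝ) ^ (1 + 2 * x) * ((n.factorial : ℝ)) ^ 2 /
        ∏ j ∈ Finset.range (n + 1), (((j : ℝ) + 1 / 2 + x) ^ 2 + u ^ 2) := by
  have hn' : (0 : ℝ) < n := Nat.cast_pos.mpr hn
  unfold Complex.GammaSeq
  rw [norm_div, norm_mul, norm_prod, div_pow, mul_pow, ← Finset.prod_pow]
  congr 1
  · congr 1
    · rw [Complex.norm_natCast_cpow_of_pos hn, ← Real.rpow_natCast, ← Real.rpow_mul hn'.le]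
      congr 1
      simp
      ring
    · simp
  · refine Finset.prod_congr rfl fun j _ => ?_
    rw [← Complex.normSq_eq_norm_sq, Complex.normSq_apply]
    simp
    ring

lemma Chi_gseq_le (x u : ℝ) (hx : |x| ≤ 1 / 4) (hu : 1 ≤ |u|) (n : ℕ) (hn : 1 ≤ n)
    (hnu : |u| ≤ n) :
    ‖Complex.GammaSeq (1 / 2 + x + u * I) n‖ ^ 2 ≤
      (5 * Real.exp 8 * (u ^ 2) ^ x) * ‖Complex.GammaSeq (1 / 2 + u * I) n‖ ^ 2 := by
  have hu2 : 0 < u ^ 2 := by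
    have h1 : |u| ^ 2 = u ^ 2 := sq_abs u
    nlinarith only [hu, h1]
  have hn' : (1 : ℝ) ≤ n := by exact_mod_cast hn
  have hn0 : (0 : ℝ) < n := by linarith only [hu, hnu]
  have e0 : (1 / 2 + u * I : ℂ) = 1 / 2 + ((0 : ℝ) : ℂ) + u * I := by simp
  rw [e0, Chi_gseq x u n hn, Chi_gseq 0 u n hn]
  have h := Chi_prod x u hx hu (n + 1)
  have hA : 0 < ∏ j ∈ Finset.range (n + 1), (((j : ℝ) + 1 / 2 + x) ^ 2 + u ^ 2) :=
    Finset.prod_pos fun j _ => by positivity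
  have hV : 0 < ∏ j ∈ Finset.range (n + 1), (((j : ℝ) + 1 / 2 + 0) ^ 2 + u ^ 2) :=
    Finset.prod_pos fun j _ => by positivity
  have hV' : ∏ j ∈ Finset.range (n + 1), (((j : ℝ) + 1 / 2) ^ 2 + u ^ 2)
      = ∏ j ∈ Finset.range (n + 1), (((j : ℝ) + 1 / 2 + 0) ^ 2 + u ^ 2) := by
    simp only [add_zero]
  rw [hV'] at h
  set P := ∏ j ∈ Finset.range (n + 1), (((j : ℝ) + 1 / 2 + x) ^ 2 + u ^ 2) with hP
  set V := ∏ j ∈ Finset.range (n + 1), (((j : ℝ) + 1 / 2 + 0) ^ 2 + u ^ 2) with hVd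
  have hq : 0 < ((n + 1 : ℕ) : ℝ) ^ 2 + u ^ 2 := by positivity
  set q := ((n + 1 : ℕ) : ℝ) ^ 2 + u ^ 2 with hqd
  -- the base lies in `[1/5, 1]`
  have hu3 : u ^ 2 ≤ (n : ℝ) ^ 2 := by
    have h1 : |u| ^ 2 = u ^ 2 := sq_abs u
    rw [← h1]
    exact pow_le_pow_left₀ (abs_nonneg _) hnu 2
  have hb1 : (n : ℝ) ^ 2 / q ≤ 1 := by
    rw [div_le_one hq, hqd]
    push_cast
    nlinarith only [hu, hnu]
  have hb2 : 1 / 5 ≤ (n : ℝ) ^ 2 / q := by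
    rw [div_le_div_iff₀ (by norm_num) hq, hqd]
    push_cast
    nlinarith only [hu, hnu, hu3]
  have hb0 : 0 < (n : ℝ) ^ 2 / q := by positivity
  have hb3 : ((n : ℝ) ^ 2 / q) ^ x ≤ 5 := by
    obtain ⟨hx1, hx2⟩ := abs_le.mp hx
    calc ((n : ℝ) ^ 2 / q) ^ x ≤ ((n : ℝ) ^ 2 / q) ^ (-1 : ℝ) :=
          Real.rpow_le_rpow_of_exponent_ge hb0 hb1 (by linarith only [hx1])
      _ = ((n : ℝ) ^ 2 / q)⁻¹ := Real.rpow_neg_one _
      _ ≤ (1 / 5)⁻¹ := inv_anti₀ (by norm_num) hb2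
      _ = 5 := by norm_num
  have e1 : (q / u ^ 2) ^ x = q ^ x / (u ^ 2) ^ x := Real.div_rpow hq.le hu2.le x
  have e2 : ((n : ℝ) ^ 2 / q) ^ x = ((n : ℝ) ^ 2) ^ x / q ^ x :=
    Real.div_rpow (by positivity) hq.le x
  have hux : 0 < (u ^ 2) ^ x := Real.rpow_pos_of_pos hu2 x
  have hqx : 0 < q ^ x := Real.rpow_pos_of_pos hq x
  have e3 : (n : ℝ) ^ (1 + 2 * x) = n * ((n : ℝ) ^ 2) ^ x := by
    rw [Real.rpow_add hn0, Real.rpow_one]
    congr 1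
    rw [← Real.rpow_natCast, ← Real.rpow_mul hn0.le]
    norm_num
  have e4 : (n : ℝ) ^ (1 + 2 * (0 : ℝ)) = n := by
    simp
  rw [e3, e4]
  rw [e1] at h
  rw [e2] at hb3
  have hb4 : ((n : ℝ) ^ 2) ^ x ≤ 5 * q ^ x := by
    rwa [div_le_iff₀ hqx] at hb3
  have h' : q ^ x * V ≤ (u ^ 2) ^ x * (Real.exp 8 * P) := by
    have := mul_le_mul_of_nonneg_left h hux.le
    calc q ^ x * V = (u ^ 2) ^ x * (q ^ x / (u ^ 2) ^ x * V) := by field_simp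
      _ ≤ _ := this
  rw [mul_div_assoc', div_le_div_iff₀ hA hV]
  have hN : 0 < (n : ℝ) * (n.factorial : ℝ) ^ 2 := by positivity
  calc (n : ℝ) * ((n : ℝ) ^ 2) ^ x * (n.factorial : ℝ) ^ 2 * V
      = ((n : ℝ) * (n.factorial : ℝ) ^ 2) * (((n : ℝ) ^ 2) ^ x * V) := by ring
    _ ≤ ((n : ℝ) * (n.factorial : ℝ) ^ 2) * ((5 * q ^ x) * V) := by
        refine mul_le_mul_of_nonneg_left ?_ hN.le
        exact mul_le_mul_of_nonneg_right hb4 hV.le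
    _ = ((n : ℝ) * (n.factorial : ℝ) ^ 2) * (5 * (q ^ x * V)) := by ring
    _ ≤ ((n : ℝ) * (n.factorial : ℝ) ^ 2) * (5 * ((u ^ 2) ^ x * (Real.exp 8 * P))) := by
        refine mul_le_mul_of_nonneg_left ?_ hN.le
        linarith only [h']
    _ = _ := by ring

lemma Chi_gamma (x u : ℝ) (hx : |x| ≤ 1 / 4) (hu : 1 ≤ |u|) :
    ‖Complex.Gamma (1 / 2 + x + u * I)‖ ^ 2 ≤
      (5 * Real.exp 8 * (u ^ 2) ^ x) * ‖Complex.Gamma (1 / 2 + u * I)‖ ^ 2 := by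
  have h1 := ((Complex.GammaSeq_tendsto_Gamma (1 / 2 + x + u * I)).norm).pow 2
  have h2 := (((Complex.GammaSeq_tendsto_Gamma (1 / 2 + u * I)).norm).pow 2).const_mul
    (5 * Real.exp 8 * (u ^ 2) ^ x)
  refine le_of_tendsto_of_tendsto h1 h2 ?_
  filter_upwards [Filter.eventually_ge_atTop (max 1 ⌈|u|⌉₊)] with n hn
  refine Chi_gseq_le x u hx hu n ((le_max_left _ _).trans hn) ?_
  exact (Nat.le_ceil _).trans (by exact_mod_cast (le_max_right _ _).trans hn)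

lemma Chi_cos (a b : ℝ) : ‖Complex.cos (a + b * I)‖ ^ 2 = Real.cos a ^ 2 + Real.sinh b ^ 2 := by
  rw [Complex.cos_add_mul_I, ← Complex.ofReal_cos, ← Complex.ofReal_sin, ← Complex.ofReal_cosh,
    ← Complex.ofReal_sinh, ← Complex.normSq_eq_norm_sq, Complex.normSq_apply]
  simp only [Complex.sub_re, Complex.mul_re, Complex.ofReal_re, Complex.ofReal_im, Complex.I_re,
    Complex.I_im, Complex.sub_im, Complex.mul_im]
  ring_nf
  rw [Real.sin_sq, Real.cosh_sq]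
  ring

lemma Chi_ch (x u : ℝ) (hx : |x| ≤ 1 / 4) (hu : 1 ≤ |u|) :
    ‖ch (1 / 2 + x + u * I)‖ ≤ (7 * (5 * Real.exp 8 * 2)) * |u| ^ x := by
  obtain ⟨hx1, hx2⟩ := abs_le.mp hx
  have hu0 : 0 < |u| := by linarith only [hu]
  have hG := Chi_gamma x u hx hu
  have hcos : ‖Complex.cos (Real.pi * (1 / 2 + x + u * I) / 2)‖ ^ 2 ≤
      2 * ‖Complex.cos (Real.pi * (1 / 2 + u * I) / 2)‖ ^ 2 := by
    have e1 : (Real.pi * (1 / 2 + x + u * I) / 2 : ℂ)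
        = ((Real.pi * (1 / 2 + x) / 2 : ℝ) : ℂ) + ((Real.pi * u / 2 : ℝ) : ℂ) * I := by
      push_cast; ring
    have e2 : (Real.pi * (1 / 2 + u * I) / 2 : ℂ)
        = ((Real.pi / 4 : ℝ) : ℂ) + ((Real.pi * u / 2 : ℝ) : ℂ) * I := by
      push_cast; ring
    rw [e1, e2, Chi_cos, Chi_cos, Real.cos_pi_div_four]
    have h1 := Real.cos_sq_le_one (Real.pi * (1 / 2 + x) / 2)
    have h2 : (Real.sqrt 2 / 2) ^ 2 = 1 / 2 := by
      rw [div_pow, Real.sq_sqrt (by norm_num)]; norm_num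
    rw [h2]
    nlinarith only [h1]
  have hpi : 0 < 2 * Real.pi := by positivity
  have hnp : ∀ w : ℂ, ‖((2 * Real.pi : ℂ) ^ (-w))‖ = (2 * Real.pi) ^ (-w.re) := by
    intro w
    have : (2 * Real.pi : ℂ) = ((2 * Real.pi : ℝ) : ℂ) := by push_cast; ring
    rw [this, Complex.norm_cpow_eq_rpow_re_of_pos hpi]
    simp
  have hpx : (2 * Real.pi) ^ (-x) ≤ 7 := by
    calc (2 * Real.pi) ^ (-x) ≤ (2 * Real.pi) ^ (1 : ℝ) :=
          Real.rpow_le_rpow_of_exponent_le (by linarith only [Real.pi_gt_three]) (by linarith only [hx1])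
      _ = 2 * Real.pi := Real.rpow_one _
      _ ≤ 7 := by linarith only [Real.pi_lt_d2]
  have h1 := norm_ch_half u
  unfold ch at h1 ⊢
  rw [norm_mul, norm_mul, norm_mul, hnp] at h1 ⊢
  have er : (1 / 2 + x + u * I : ℂ).re = 1 / 2 + x := by simp
  have er0 : (1 / 2 + u * I : ℂ).re = 1 / 2 := by simp
  rw [er0] at h1
  rw [er]
  set g := ‖Complex.Gamma (1 / 2 + x + u * I)‖ with hg
  set g0 := ‖Complex.Gamma (1 / 2 + u * I)‖ with hg0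
  set c := ‖Complex.cos (Real.pi * (1 / 2 + x + u * I) / 2)‖ with hc
  set c0 := ‖Complex.cos (Real.pi * (1 / 2 + u * I) / 2)‖ with hc0
  have hgn : 0 ≤ g := norm_nonneg _
  have hg0n : 0 ≤ g0 := norm_nonneg _
  have hcn : 0 ≤ c := norm_nonneg _
  have hc0n : 0 ≤ c0 := norm_nonneg _
  have hux : (u ^ 2) ^ x = (|u| ^ x) ^ 2 := by
    rw [← sq_abs u, ← Real.rpow_natCast, ← Real.rpow_mul hu0.le, ← Real.rpow_natCast,
      ← Real.rpow_mul hu0.le]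
    congr 1
    push_cast
    ring
  have hup : 0 < |u| ^ x := Real.rpow_pos_of_pos hu0 x
  have hE : 1 ≤ 5 * Real.exp 8 * 2 := by
    have := Real.add_one_le_exp (8 : ℝ)
    linarith only [this]
  have hprod : g * c ≤ (5 * Real.exp 8 * 2) * |u| ^ x * (g0 * c0) := by
    have h3 : (g * c) ^ 2 ≤ ((5 * Real.exp 8 * 2) * |u| ^ x * (g0 * c0)) ^ 2 := by
      calc (g * c) ^ 2 = g ^ 2 * c ^ 2 := by ring
        _ ≤ ((5 * Real.exp 8 * (u ^ 2) ^ x) * g0 ^ 2) * (2 * c0 ^ 2) :=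
            mul_le_mul hG hcos (sq_nonneg _) (by positivity)
        _ = (5 * Real.exp 8 * 2) * ((|u| ^ x) ^ 2 * (g0 * c0) ^ 2) := by
            rw [hux]; ring
        _ ≤ (5 * Real.exp 8 * 2) ^ 2 * ((|u| ^ x) ^ 2 * (g0 * c0) ^ 2) := by
            refine mul_le_mul_of_nonneg_right ?_ (by positivity)
            nlinarith only [hE]
        _ = _ := by ring
    exact le_of_sq_le_sq h3 (by positivity)
  have h2n : ‖(2 : ℂ)‖ = 2 := by simp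
  rw [h2n] at h1 ⊢
  have hsplit : (2 * Real.pi) ^ (-(1 / 2 + x)) = (2 * Real.pi) ^ (-(1 / 2 : ℝ)) *
      (2 * Real.pi) ^ (-x) := by
    rw [← Real.rpow_add hpi]
    congr 1
    ring
  rw [hsplit]
  set p := (2 * Real.pi) ^ (-(1 / 2 : ℝ)) with hp
  have hp0 : 0 < p := Real.rpow_pos_of_pos hpi _
  have hpx0 : 0 < (2 * Real.pi) ^ (-x) := Real.rpow_pos_of_pos hpi _
  calc 2 * (p * (2 * Real.pi) ^ (-x)) * g * c
      = (2 * Real.pi) ^ (-x) * (2 * p * (g * c)) := by ring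
    _ ≤ 7 * (2 * p * ((5 * Real.exp 8 * 2) * |u| ^ x * (g0 * c0))) := by
        refine mul_le_mul hpx ?_ (by positivity) (by norm_num)
        refine mul_le_mul_of_nonneg_left hprod (by positivity)
    _ = (7 * (5 * Real.exp 8 * 2)) * |u| ^ x * (2 * p * g0 * c0) := by ring
    _ = (7 * (5 * Real.exp 8 * 2)) * |u| ^ x := by rw [h1, mul_one]

/-- `|ζ(1/2-x+iu)| ≤ C |u|^x |ζ(1/2+x+iu)|` for `|x| ≤ 1/4` (both signs of `x`), `|u| ≥ 1`.

PROOF. By conjugation `|ζ(1/2-x+iu)| = |ch(1/2+x-iu)| |ζ(1/2+x-iu)|`, and the factor is compared with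
`|ch(1/2-iu)| = 1` through Euler's limit formula for `Γ`. -/
theorem chi_bound : ∃ C : ℝ, 0 < C ∧ ∀ x u : ℝ, |x| ≤ 1 / 4 → 1 ≤ |u| →
    ‖riemannZeta (1 / 2 - x + u * I)‖ ≤ C * |u| ^ x * ‖riemannZeta (1 / 2 + x + u * I)‖ := by
  refine ⟨7 * (5 * Real.exp 8 * 2), by positivity, fun x u hx hu => ?_⟩
  obtain ⟨hx1, hx2⟩ := abs_le.mp hx
  have hu0 : u ≠ 0 := by
    rintro rfl
    norm_num at hu
  have hfe := ch_fe (1 / 2 + x + ((-u : ℝ) : ℂ) * I) (by simp; linarith only [hx1]) (by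
    intro h
    have := congrArg Complex.im h
    simp at this
    exact hu0 this)
  have e1 : (1 - (1 / 2 + x + ((-u : ℝ) : ℂ) * I) : ℂ) = 1 / 2 - x + u * I := by
    push_cast; ring
  rw [e1] at hfe
  rw [hfe, norm_mul]
  have hc := Chi_ch x (-u) hx (by rwa [abs_neg])
  rw [abs_neg] at hc
  have e2 : (1 / 2 + x + ((-u : ℝ) : ℂ) * I : ℂ) = (starRingEnd ℂ) (1 / 2 + x + u * I) := by
    apply Complex.ext <;> simp
  have e3 : ‖riemannZeta (1 / 2 + x + ((-u : ℝ) : ℂ) * I)‖ = ‖riemannZeta (1 / 2 + x + u * I)‖ := by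
    rw [e2, riemannZeta_conj, Complex.norm_conj]
  rw [e3]
  exact mul_le_mul_of_nonneg_right hc (norm_nonneg _)

end Pool.Agent.H14.CO

end
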