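import Pool.Agent.H15.TB1.M17
import Pool.Agent.H15.TB1.M18

/-! The parts of this file: H14.CO.GoodA, H14.CO.GoodD, H95.GC.ThreeCircles, H14.CO.Zdet, H14.CO.GoodE, H14.CO.GoodB. -/

section

/-!
# CO: supremum of `ζ` on a small disc by mean squares on two vertical lines
-/

set_option autoImplicit false

namespace Pool.Agent.H14.CO

open Set MeasureTheory Complex

/-- weight -/
noncomputable def qk (R y : ℝ) : ℝ := 1 / R * ((1 + |y| / R) ^ 32)⁻¹ * Real.exp (-(y ^ 2) / 2)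

/-- mean square on the two lines -/
noncomputable def Qf (R t : ℝ) : ℝ :=
  ∫ y : ℝ, qk R y * (‖riemannZeta (pt (-(8 * R) : ℝ) (t + y))‖ ^ 2 +
    ‖riemannZeta (pt (8 * R : ℝ) (t + y))‖ ^ 2)

theorem qk_nonneg (R y : ℝ) (hR : 0 < R) : 0 ≤ qk R y := by
  unfold qk; positivity

theorem continuous_qk (R : ℝ) (hR : 0 < R) : Continuous (qk R) := by
  unfold qk
  have : ∀ y : ℝ, (1 + |y| / R) ^ 32 ≠ 0 := fun y => by positivity
  fun_prop (disch := assumption)

/-- the kernel is bounded by the weight -/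
theorem kern_le (R v y σ : ℝ) (hR : 0 < R) (hR1 : R ≤ 1 / 100) (hv : |v| ≤ 6 * R)
    (hσ1 : 2 * R ≤ |σ|) (hσ2 : |σ| ≤ 14 * R) :
    ‖kn (1 / R) (σ + y * I) / (σ + y * I)‖ ≤
      (2 ^ 32 * Real.exp (32 * 14 + 2) * 7 ^ 32) * qk R (v + y) := by
  have hσ0 : 0 < |σ| := by linarith only [hR, hσ1, mul_pos (two_pos : (0 : ℝ) < 2) hR]
  have hk := norm_kn_le (1 / R) (by positivity) (σ + y * I)
  have hre : ((σ : ℂ) + y * I).re = σ := by simp
  have him : ((σ : ℂ) + y * I).im = y := by simp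
  rw [hre, him] at hk
  have hny : |y| ≤ ‖(σ : ℂ) + y * I‖ := by
    have := Complex.abs_im_le_norm ((σ : ℂ) + y * I)
    rwa [him] at this
  have hnσ : |σ| ≤ ‖(σ : ℂ) + y * I‖ := by
    have := Complex.abs_re_le_norm ((σ : ℂ) + y * I)
    rwa [hre] at this
  -- lower bound of the weight factor
  have h1 : (1 + |y| / R) ^ 32 ≤ (1 + 1 / R * ‖(σ : ℂ) + y * I‖) ^ 32 := by
    apply pow_le_pow_left₀ (by positivity)
    have : |y| / R = 1 / R * |y| := by ring
    rw [this]
    gcongr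
  have h2 : ‖kn (1 / R) (σ + y * I)‖ ≤ 2 ^ 32 * Real.exp (32 * (1 / R) * |σ| + σ ^ 2 - y ^ 2) *
      ((1 + |y| / R) ^ 32)⁻¹ := by
    rw [← div_eq_mul_inv, le_div_iff₀ (by positivity)]
    exact (mul_le_mul_of_nonneg_left h1 (norm_nonneg _)).trans hk
  have h3 : Real.exp (32 * (1 / R) * |σ| + σ ^ 2 - y ^ 2) ≤
      Real.exp (32 * 14 + 2) * Real.exp (-((v + y) ^ 2) / 2) := by
    rw [← Real.exp_add]
    apply Real.exp_le_exp.2
    have e1 : 32 * (1 / R) * |σ| ≤ 32 * 14 := by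
      have e10 : 1 / R * |σ| ≤ 14 := by
        rw [one_div, inv_mul_le_iff₀ hR]; linarith only [hσ2]
      have e11 : 32 * (1 / R) * |σ| = 32 * (1 / R * |σ|) := by ring
      rw [e11]
      exact mul_le_mul_of_nonneg_left e10 (by norm_num)
    have e2 : σ ^ 2 ≤ 1 := by
      rw [← sq_abs]
      have : |σ| ≤ 1 := by linarith only [hR, hR1, hσ2]
      exact pow_le_one₀ (abs_nonneg σ) this
    have e3 : v ^ 2 ≤ 1 := by
      rw [← sq_abs]
      have : |v| ≤ 1 := by linarith only [hR, hR1, hv]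
      exact pow_le_one₀ (abs_nonneg v) this
    have e0 : (v + y) ^ 2 = 2 * v ^ 2 + 2 * y ^ 2 - (v - y) ^ 2 := by ring
    rw [e0]
    have e4 := sq_nonneg (v - y)
    linarith only [e1, e2, e3, e4]
  have h4 : ((1 + |y| / R) ^ 32)⁻¹ ≤ 7 ^ 32 * ((1 + |v + y| / R) ^ 32)⁻¹ := by
    rw [← div_eq_mul_inv, le_div_iff₀ (by positivity), inv_mul_le_iff₀ (by positivity), ← mul_pow]
    apply pow_le_pow_left₀ (by positivity)
    have e4 : |v + y| ≤ 6 * R + |y| := (abs_add_le v y).trans (by linarith only [hv])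
    have e5 : |v + y| / R ≤ 6 + |y| / R := by
      rw [div_le_iff₀ hR]
      have : (6 + |y| / R) * R = 6 * R + |y| := by field_simp
      rw [this]; exact e4
    have e6 : 0 ≤ |y| / R := by positivity
    linarith only [e5, e6]
  rw [norm_div]
  calc ‖kn (1 / R) (σ + y * I)‖ / ‖(σ : ℂ) + y * I‖
      ≤ ‖kn (1 / R) (σ + y * I)‖ / R := by
        apply div_le_div_of_nonneg_left (norm_nonneg _) hR
        linarith only [hR, hσ1, hnσ]
    _ ≤ (2 ^ 32 * (Real.exp (32 * 14 + 2) * Real.exp (-((v + y) ^ 2) / 2)) *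
        (7 ^ 32 * ((1 + |v + y| / R) ^ 32)⁻¹)) / R := by
        apply div_le_div_of_nonneg_right _ hR.le
        refine h2.trans ?_
        exact mul_le_mul (mul_le_mul_of_nonneg_left h3 (by positivity)) h4 (by positivity)
          (by positivity)
    _ = _ := by unfold qk; ring

/-- polynomial growth of `ζ` on the strip -/
theorem zeta_strip : ∃ A : ℝ, 0 < A ∧ ∀ w : ℂ, |w.re| ≤ 1 / 4 → ∀ t : ℝ,
    ‖riemannZeta (1 / 2 + t * I + w)‖ ≤ A * (1 + |t + w.im|) ^ 4 := by
  obtain ⟨C, hC, hg⟩ := Zt_growth 1 le_rfl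
  refine ⟨4 * (C * 3 ^ 4), by positivity, ?_⟩
  intro w hw t
  set s : ℂ := 1 / 2 + t * I + w with hs
  have hre : s.re = 1 / 2 + w.re := by simp [hs]
  have him : s.im = t + w.im := by simp [hs]
  rw [abs_le] at hw
  have hs1 : s ≠ 1 := by
    intro h
    have := congrArg Complex.re h
    rw [hre, Complex.one_re] at this
    linarith only [hw, this]
  have h1 : 1 / 4 ≤ ‖s - 1‖ := by
    have h2 := Complex.abs_re_le_norm (s - 1)
    rw [Complex.sub_re, hre, Complex.one_re] at h2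
    refine le_trans ?_ h2
    rw [le_abs]
    right
    linarith only [hw]
  have h3 := hg s (by rw [hre]; linarith only [hw])
  rw [Zt_eq s hs1, norm_mul] at h3
  have h4 : ‖s‖ ≤ 1 + |t + w.im| := by
    refine (Complex.norm_le_abs_re_add_abs_im _).trans ?_
    rw [hre, him, abs_of_nonneg (by linarith only [hw])]
    linarith only [hw]
  have h5 : (1 + ‖s‖) ^ ((1 : ℝ) + 3) ≤ (3 * (1 + |t + w.im|)) ^ 4 := by
    have : ((1 : ℝ) + 3) = ((4 : ℕ) : ℝ) := by norm_num
    rw [this, Real.rpow_natCast]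
    apply pow_le_pow_left₀ (by positivity)
    have := abs_nonneg (t + w.im)
    linarith only [h4, this]
  have h6 : 1 / 4 * ‖riemannZeta s‖ ≤ C * (3 * (1 + |t + w.im|)) ^ 4 :=
    (mul_le_mul_of_nonneg_right h1 (norm_nonneg _)).trans
      (h3.trans (mul_le_mul_of_nonneg_left h5 hC.le))
  calc ‖riemannZeta s‖ = 4 * (1 / 4 * ‖riemannZeta s‖) := by ring
    _ ≤ 4 * (C * (3 * (1 + |t + w.im|)) ^ 4) := by linarith only [h6]
    _ = _ := by ring

theorem pt_eq (x t y : ℝ) : pt (x : ℝ) (t + y : ℝ) = 1 / 2 + t * I + (x + y * I) := by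
  unfold pt; push_cast; ring

theorem continuous_zeta_line (x : ℝ) (hx : |x| ≤ 1 / 4) :
    Continuous (fun t : ℝ => riemannZeta (pt (x : ℝ) t)) := by
  rw [continuous_iff_continuousAt]
  intro t
  have h1 : pt (x : ℝ) t ≠ 1 := by
    intro h
    have := congrArg Complex.re h
    rw [abs_le] at hx
    simp [pt] at this
    linarith only [hx, this]
  have h2 : Continuous fun t : ℝ => pt (x : ℝ) t := by unfold pt; fun_prop
  exact (differentiableAt_riemannZeta h1).continuousAt.comp (f := fun t : ℝ => pt (x : ℝ) t)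
    h2.continuousAt

theorem integrable_qz (R x t : ℝ) (hR : 0 < R) (hx : |x| ≤ 1 / 4) :
    Integrable fun y : ℝ => qk R y * ‖riemannZeta (pt (x : ℝ) (t + y))‖ ^ 2 := by
  obtain ⟨A, hA, hAb⟩ := zeta_strip
  have hg : Integrable fun y : ℝ => (1 / R * (A ^ 2 * (1 + |t|) ^ 8)) *
      ((1 + |y|) ^ 8 * Real.exp (-(y ^ 2) / 2)) := by
    apply Integrable.const_mul
    have h1 : Integrable fun y : ℝ => (1 + |y|) ^ 8 * Real.exp (-(1 / 2 : ℝ) * y ^ 2) := by
      have h2 : ∀ y : ℝ, (1 + |y|) ^ 8 * Real.exp (-(1 / 2 : ℝ) * y ^ 2) ≤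
          (2 ^ 8 * (1 * Real.exp (-(1 / 2 : ℝ) * y ^ 2))) +
            2 ^ 8 * (y ^ 8 * Real.exp (-(1 / 2 : ℝ) * y ^ 2)) := by
        intro y
        have h3 : (1 + |y|) ^ 8 ≤ 2 ^ 8 * (1 + y ^ 8) := by
          have h4 : (1 + |y|) ^ 8 ≤ 2 ^ (8 - 1) * (1 ^ 8 + |y| ^ 8) :=
            add_pow_le (by norm_num) (abs_nonneg y) 8
          have h5 : |y| ^ 8 = y ^ 8 := by
            rw [← abs_pow]; exact abs_of_nonneg (by positivity)
          rw [h5] at h4
          have h6 : 0 ≤ y ^ 8 := by positivity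
          norm_num at h4 ⊢
          linarith only [h6, h4]
        have := mul_le_mul_of_nonneg_right h3 (Real.exp_pos (-(1 / 2 : ℝ) * y ^ 2)).le
        linarith only [this]
      have h7 : Integrable fun y : ℝ => Real.exp (-(1 / 2 : ℝ) * y ^ 2) :=
        integrable_exp_neg_mul_sq (by norm_num)
      have h8 : Integrable fun y : ℝ => y ^ 8 * Real.exp (-(1 / 2 : ℝ) * y ^ 2) := by
        have := integrable_rpow_mul_exp_neg_mul_sq (b := 1 / 2) (by norm_num) (s := 8) (by norm_num)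
        refine this.congr (Filter.Eventually.of_forall fun y => ?_)
        simp only
        congr 1
        have : (8 : ℝ) = ((8 : ℕ) : ℝ) := by norm_num
        rw [this, Real.rpow_natCast]
      refine Integrable.mono' (((h7.const_mul (2 ^ 8)).add (h8.const_mul (2 ^ 8))))
        (by fun_prop) (Filter.Eventually.of_forall fun y => ?_)
      rw [Real.norm_eq_abs, abs_of_nonneg (by positivity)]
      have := h2 y
      simpa using this
    refine h1.congr (Filter.Eventually.of_forall fun y => ?_)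
    simp only
    congr 2
    ring
  refine hg.mono' ?_ (Filter.Eventually.of_forall fun y => ?_)
  · have h1 := (continuous_zeta_line x hx).comp (continuous_const_add t)
    exact ((continuous_qk R hR).mul ((h1.norm).pow 2)).aestronglyMeasurable
  · rw [Real.norm_eq_abs, abs_of_nonneg (mul_nonneg (qk_nonneg R y hR) (by positivity))]
    have h1 := hAb (x + y * I) (by simpa using hx) t
    rw [← pt_eq] at h1
    have him : ((x : ℂ) + y * I).im = y := by simp
    rw [him] at h1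
    have h2 : (1 + |t + y|) ≤ (1 + |t|) * (1 + |y|) := by
      have e1 := abs_add_le t y
      have e2 := mul_nonneg (abs_nonneg t) (abs_nonneg y)
      have e3 : (1 + |t|) * (1 + |y|) = 1 + |t| + |y| + |t| * |y| := by ring
      rw [e3]
      linarith only [e1, e2]
    have h3 : ‖riemannZeta (pt (x : ℝ) (t + y : ℝ))‖ ^ 2 ≤
        A ^ 2 * (1 + |t|) ^ 8 * (1 + |y|) ^ 8 := by
      calc _ ≤ (A * (1 + |t + y|) ^ 4) ^ 2 := pow_le_pow_left₀ (norm_nonneg _) h1 2
        _ ≤ (A * ((1 + |t|) * (1 + |y|)) ^ 4) ^ 2 := by gcongr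
        _ = _ := by ring
    have h4 : qk R y ≤ 1 / R * Real.exp (-(y ^ 2) / 2) := by
      unfold qk
      apply mul_le_mul_of_nonneg_right _ (Real.exp_pos _).le
      refine mul_le_of_le_one_right (by positivity) ?_
      apply inv_le_one_of_one_le₀
      apply one_le_pow₀
      have : 0 ≤ |y| / R := by positivity
      linarith only [this]
    calc _ ≤ (1 / R * Real.exp (-(y ^ 2) / 2)) * (A ^ 2 * (1 + |t|) ^ 8 * (1 + |y|) ^ 8) := by
          refine mul_le_mul h4 ?_ (by positivity) (by positivity)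
          exact_mod_cast h3
      _ = _ := by ring

/-- The supremum bound. -/
theorem sup_bound : ∃ C : ℝ, 0 < C ∧ ∀ R : ℝ, 0 < R → R ≤ 1 / 100 → ∀ t : ℝ, ∀ w : ℂ,
    ‖w‖ ≤ 6 * R → ‖riemannZeta (1 / 2 + t * I + w)‖ ^ 2 ≤ C * Qf R t := by
  obtain ⟨A, hA, hAb⟩ := zeta_strip
  obtain ⟨Ck, hCk, hkn⟩ := kn_int 0
  set D : ℝ := 2 ^ 32 * Real.exp (32 * 14 + 2) * 7 ^ 32 with hD
  have hD0 : 0 < D := by positivity
  refine ⟨Ck * Real.exp (32 * 14 + 1) * 2 * D, by positivity, ?_⟩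
  intro R hR hR1 t w hw
  have hwre : |w.re| ≤ 6 * R := (Complex.abs_re_le_norm w).trans hw
  have hwim : |w.im| ≤ 6 * R := (Complex.abs_im_le_norm w).trans hw
  rw [abs_le] at hwre
  have hne : ∀ z : ℂ, -(8 * R) ≤ z.re → z.re ≤ 8 * R → (1 / 2 + t * I + z) ≠ 1 := by
    intro z h1 h2 h
    have := congrArg Complex.re h
    simp at this
    linarith only [hR, hR1, h2, this]
  have hmain := interp (fun z => riemannZeta (1 / 2 + t * I + z)) (-(8 * R)) (8 * R)
    (fun z h1 h2 => by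
      have h3 : DifferentiableAt ℂ (fun z : ℂ => 1 / 2 + t * I + z) z := by fun_prop
      exact (differentiableAt_riemannZeta (hne z h1 h2)).comp z h3)
    (A * (1 + |t|) ^ 4) 4
    (fun z h1 h2 => by
      refine (hAb z (by rw [abs_le]; constructor <;> linarith only [hR, hR1, h1, h2]) t).trans ?_
      have : (1 + |t + z.im|) ≤ (1 + |t|) * (1 + |z.im|) := by
        have e1 := abs_add_le t z.im
        have e2 := mul_nonneg (abs_nonneg t) (abs_nonneg z.im)
        have e3 : (1 + |t|) * (1 + |z.im|) = 1 + |t| + |z.im| + |t| * |z.im| := by ring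
        rw [e3]
        linarith only [e1, e2]
      calc A * (1 + |t + z.im|) ^ 4 ≤ A * ((1 + |t|) * (1 + |z.im|)) ^ 4 := by gcongr
        _ = _ := by ring)
    (1 / R) 0 (by positivity) w (by linarith only [hR, hwre]) (by linarith only [hR, hwre])
  -- the two terms
  have hterm : ∀ x : ℝ, (x = -(8 * R) ∨ x = 8 * R) →
      (∫ y : ℝ, ‖kn (1 / R) ((x - w.re : ℝ) + y * I) / ((x - w.re : ℝ) + y * I)‖) *
        (∫ y : ℝ, ‖kn (1 / R) ((x - w.re : ℝ) + y * I) / ((x - w.re : ℝ) + y * I)‖ *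
          ‖riemannZeta (1 / 2 + t * I + (x + (w.im + y) * I))‖ ^ 2) ≤
      (Ck * Real.exp (32 * 14 + 1) * 2) * (D * ∫ y : ℝ, qk R y *
        ‖riemannZeta (pt (x : ℝ) (t + y))‖ ^ 2) := by
    intro x hx
    have hxa : |x| = 8 * R := by
      rcases hx with h | h <;> rw [h]
      · rw [abs_neg, abs_of_pos (by positivity)]
      · rw [abs_of_pos (by positivity)]
    have hx4 : |x| ≤ 1 / 4 := by rw [hxa]; linarith only [hR, hR1]
    set σ := x - w.re with hσ
    have hσ1 : 2 * R ≤ |σ| := by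
      rw [hσ]
      rcases hx with h | h
      · rw [h, le_abs]; right; linarith only [hwre]
      · rw [h, le_abs]; left; linarith only [hwre]
    have hσ2 : |σ| ≤ 14 * R := by
      rw [hσ, abs_le]
      rcases hx with h | h <;> rw [h] <;> constructor <;> linarith only [hwre, hR]
    have hσ0 : 0 < |σ| := by linarith only [hR, hσ1, mul_pos (two_pos : (0 : ℝ) < 2) hR]
    have hσne : σ ≠ 0 := abs_pos.1 hσ0
    have i1 : ∫ y : ℝ, ‖kn (1 / R) ((σ : ℝ) + y * I) / ((σ : ℝ) + y * I)‖ ≤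
        Ck * Real.exp (32 * 14 + 1) * 2 := by
      obtain ⟨k1, k2⟩ := hkn (1 / R) σ (by positivity) hσne
      have k3 : ∫ y : ℝ, ‖kn (1 / R) ((σ : ℝ) + y * I) / ((σ : ℝ) + y * I)‖ ≤
          ∫ y : ℝ, (1 + 1 / R * |y|) ^ 30 * (1 + |y|) ^ 0 *
            ‖kn (1 / R) (σ + y * I) / (σ + y * I)‖ := by
        apply integral_mono_of_nonneg (Filter.Eventually.of_forall fun y => norm_nonneg _) k1
        refine Filter.Eventually.of_forall fun y => ?_
        simp only [pow_zero, mul_one]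
        refine le_mul_of_one_le_left (norm_nonneg _) ?_
        apply one_le_pow₀
        have : 0 ≤ 1 / R * |y| := by positivity
        linarith only [this]
      refine k3.trans (k2.trans ?_)
      have e1 : 32 * (1 / R) * |σ| + σ ^ 2 ≤ 32 * 14 + 1 := by
        have e10 : 1 / R * |σ| ≤ 14 := by
          rw [one_div, inv_mul_le_iff₀ hR]; linarith only [hσ2]
        have e2 : σ ^ 2 ≤ 1 := by
          rw [← sq_abs]
          have : |σ| ≤ 1 := by linarith only [hR, hR1, hσ2]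
          exact pow_le_one₀ (abs_nonneg σ) this
        have e11 : 32 * (1 / R) * |σ| = 32 * (1 / R * |σ|) := by ring
        have e12 := mul_le_mul_of_nonneg_left e10 (show (0 : ℝ) ≤ 32 by norm_num)
        rw [e11]
        linarith only [e12, e2]
      have e3 : 1 + 1 / (1 / R * |σ|) ≤ 2 := by
        have : 1 ≤ 1 / R * |σ| := by
          rw [one_div, le_inv_mul_iff₀ hR]; linarith only [hR, hσ1]
        have := (div_le_one (by linarith only [hR, hR1, this])).2 this
        linarith only [this]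
      have e4 := Real.exp_le_exp.2 e1
      have e5 : 0 ≤ 1 + 1 / (1 / R * |σ|) := by positivity
      gcongr
    have i2 : ∫ y : ℝ, ‖kn (1 / R) ((σ : ℝ) + y * I) / ((σ : ℝ) + y * I)‖ *
          ‖riemannZeta (1 / 2 + t * I + (x + (w.im + y) * I))‖ ^ 2 ≤
        D * ∫ y : ℝ, qk R y * ‖riemannZeta (pt (x : ℝ) (t + y))‖ ^ 2 := by
      have j1 : ∫ y : ℝ, qk R y * ‖riemannZeta (pt (x : ℝ) (t + y))‖ ^ 2 =
          ∫ y : ℝ, qk R (w.im + y) * ‖riemannZeta (pt (x : ℝ) (t + (w.im + y)))‖ ^ 2 := by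
        exact (integral_add_left_eq_self (fun y : ℝ => qk R y *
          ‖riemannZeta (pt (x : ℝ) (t + y))‖ ^ 2) w.im).symm
      rw [j1, ← integral_const_mul]
      apply integral_mono_of_nonneg (Filter.Eventually.of_forall fun y => by positivity)
      · exact ((integrable_qz R x t hR hx4).comp_add_left w.im).const_mul D
      · refine Filter.Eventually.of_forall fun y => ?_
        simp only
        have j2 : (1 / 2 + t * I + (x + (w.im + y) * I) : ℂ) = pt (x : ℝ) (t + (w.im + y) : ℝ) := by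
          unfold pt; push_cast; ring
        rw [j2, ← mul_assoc]
        apply mul_le_mul_of_nonneg_right _ (by positivity)
        exact kern_le R w.im y σ hR hR1 hwim hσ1 hσ2
    have i3 : 0 ≤ ∫ y : ℝ, ‖kn (1 / R) ((σ : ℝ) + y * I) / ((σ : ℝ) + y * I)‖ *
          ‖riemannZeta (1 / 2 + t * I + (x + (w.im + y) * I))‖ ^ 2 :=
      integral_nonneg fun y => by positivity
    exact mul_le_mul i1 i2 i3 (by positivity)
  have h1 := hterm (-(8 * R)) (Or.inl rfl)
  have h2 := hterm (8 * R) (Or.inr rfl)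
  have hQ : Qf R t = (∫ y : ℝ, qk R y * ‖riemannZeta (pt (-(8 * R) : ℝ) (t + y))‖ ^ 2) +
      ∫ y : ℝ, qk R y * ‖riemannZeta (pt (8 * R : ℝ) (t + y))‖ ^ 2 := by
    rw [Qf, ← integral_add (integrable_qz R _ t hR (by rw [abs_neg, abs_of_pos (by positivity)]; linarith only [hR, hR1]))
      (integrable_qz R _ t hR (by rw [abs_of_pos (by positivity)]; linarith only [hR, hR1]))]
    congr 1
    funext y
    ring
  simp only [mul_zero, zero_mul, Real.exp_zero, one_mul] at hmain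
  refine hmain.trans ?_
  rw [hQ]
  calc _ ≤ _ := add_le_add h1 h2
    _ = _ := by ring

end Pool.Agent.H14.CO

end

section

/-!
# CO: auxiliary lemmas for the choice of good points
-/

set_option autoImplicit false

namespace Pool.Agent.H14.CO

open Set MeasureTheory Complex

theorem union_le (g : ℝ → ℝ) (hg0 : ∀ t, 0 ≤ g t) (A B : Set ℝ)
    (hA : IntegrableOn g A) (hB : IntegrableOn g B) :
    ∫ t in A ∪ B, g t ≤ (∫ t in A, g t) + ∫ t in B, g t := by
  rw [← integral_add_measure hA hB]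
  exact integral_mono_measure (Measure.restrict_union_le A B)
    (Filter.Eventually.of_forall hg0) (Integrable.add_measure hA hB)

theorem fub (F : ℝ → ℝ → ℝ) (hF : Continuous (Function.uncurry F)) (φ₀ a b M : ℝ)
    (hφ : 0 ≤ φ₀) (hM : ∀ φ ∈ Icc (-φ₀) φ₀, ∫ t in Icc a b, F t φ ≤ M) :
    ∫ t in Icc a b, (∫ φ in (-φ₀)..φ₀, F t φ) ≤ 2 * φ₀ * M := by
  have h1 : ∀ t, (∫ φ in (-φ₀)..φ₀, F t φ) = ∫ φ in Icc (-φ₀) φ₀, F t φ := by
    intro t
    rw [intervalIntegral.integral_of_le (by linarith only [hφ]), ← integral_Icc_eq_integral_Ioc]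
  simp_rw [h1]
  have hint : Integrable (Function.uncurry F)
      ((volume.restrict (Icc a b)).prod (volume.restrict (Icc (-φ₀) φ₀))) := by
    rw [Measure.prod_restrict]
    exact (hF.continuousOn).integrableOn_compact (isCompact_Icc.prod isCompact_Icc)
  rw [integral_integral_swap hint]
  calc ∫ φ in Icc (-φ₀) φ₀, ∫ t in Icc a b, F t φ
      ≤ ∫ _ in Icc (-φ₀) φ₀, M := by
        apply setIntegral_mono_on hint.integral_prod_right (integrableOn_const (by simp))
          measurableSet_Icc hM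
    _ = 2 * φ₀ * M := by
        rw [setIntegral_const, smul_eq_mul, Measure.real, Real.volume_Icc,
          ENNReal.toReal_ofReal (by linarith)]
        ring

theorem continuous_pint (F : ℝ → ℝ → ℝ) (hF : Continuous (Function.uncurry F)) (a b : ℝ) :
    Continuous fun t => ∫ φ in a..b, F t φ :=
  intervalIntegral.continuous_parametric_intervalIntegral_of_continuous' hF a b

/-- choice of `G` -/
theorem choose_G (b₀ c K₀ κ X : ℝ) (hc : 0 < c) (hK : 0 < K₀) (hκ : 0 < κ) : ∃ G : ℝ, 1 < G ∧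
    b₀ ≤ Real.sqrt G ∧ (1 + G) ^ 8 * Real.exp (-c * Real.sqrt G) ≤ K₀ ∧
    2 * (Real.pi / 2 - Real.arccos (1 / Real.sqrt G)) ≤ κ ∧ X < 3 * G / 32 := by
  have h1 : ∀ᶠ G : ℝ in Filter.atTop, b₀ ≤ Real.sqrt G :=
    Real.tendsto_sqrt_atTop.eventually_ge_atTop b₀
  have h2 : ∀ᶠ G : ℝ in Filter.atTop, (1 + G) ^ 8 * Real.exp (-c * Real.sqrt G) ≤ K₀ := by
    have e1 : Filter.Tendsto (fun x : ℝ => 2 ^ 8 / c ^ 16 * ((c * x) ^ 16 * Real.exp (-(c * x))))
        Filter.atTop (nhds (2 ^ 8 / c ^ 16 * 0)) := by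
      apply Filter.Tendsto.const_mul
      exact (Real.tendsto_pow_mul_exp_neg_atTop_nhds_zero 16).comp
        (Filter.tendsto_id.const_mul_atTop hc)
    rw [mul_zero] at e1
    have e2 := (e1.comp Real.tendsto_sqrt_atTop).eventually (ge_mem_nhds hK)
    filter_upwards [e2, Filter.eventually_ge_atTop 1] with G hG hG1
    refine le_trans ?_ hG
    simp only [Function.comp]
    have e3 : Real.sqrt G ^ 16 = G ^ 8 := by
      have : Real.sqrt G ^ 16 = (Real.sqrt G ^ 2) ^ 8 := by ring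
      rw [this, Real.sq_sqrt (by linarith only [hG1])]
    have e4 : 2 ^ 8 / c ^ 16 * ((c * Real.sqrt G) ^ 16 * Real.exp (-(c * Real.sqrt G))) =
        2 ^ 8 * G ^ 8 * Real.exp (-(c * Real.sqrt G)) := by
      rw [mul_pow, e3]
      field_simp
    rw [e4]
    have e5 : -c * Real.sqrt G = -(c * Real.sqrt G) := by ring
    rw [e5]
    apply mul_le_mul_of_nonneg_right _ (Real.exp_pos _).le
    rw [← mul_pow]
    exact pow_le_pow_left₀ (by linarith only [hG1]) (by linarith only [hG1]) 8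
  have h3 : ∀ᶠ G : ℝ in Filter.atTop,
      2 * (Real.pi / 2 - Real.arccos (1 / Real.sqrt G)) ≤ κ := by
    have e1 : Filter.Tendsto (fun G : ℝ => 1 / Real.sqrt G) Filter.atTop (nhds 0) := by
      simp_rw [one_div]
      exact Filter.Tendsto.inv_tendsto_atTop Real.tendsto_sqrt_atTop
    have e2 : Filter.Tendsto (fun G : ℝ => 2 * (Real.pi / 2 - Real.arccos (1 / Real.sqrt G)))
        Filter.atTop (nhds (2 * (Real.pi / 2 - Real.arccos 0))) := by
      apply Filter.Tendsto.const_mul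
      apply Filter.Tendsto.const_sub
      exact (Real.continuous_arccos.tendsto 0).comp e1
    rw [Real.arccos_zero, sub_self, mul_zero] at e2
    exact e2.eventually (ge_mem_nhds hκ)
  have h4 : ∀ᶠ G : ℝ in Filter.atTop, X < 3 * G / 32 := by
    filter_upwards [Filter.eventually_gt_atTop (32 * X / 3)] with G hG
    linarith only [hG]
  have h5 := Filter.eventually_gt_atTop (1 : ℝ)
  obtain ⟨G, g5, g1, g2, g3, g4⟩ := (h5.and (h1.and (h2.and (h3.and h4)))).exists
  exact ⟨G, g5, g1, g2, g3, g4⟩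

/-- reflecting a zero into the right half of the strip -/
theorem reflect_zero (t r : ℝ) (hr : r ≤ 1 / 4) (ρ : ℂ) (hρ : riemannZeta ρ = 0)
    (hd : ‖ρ - (1 / 2 + t * I)‖ ≤ r) :
    ∃ ρ' : ℂ, riemannZeta ρ' = 0 ∧ 1 / 2 ≤ ρ'.re ∧ ‖ρ' - (1 / 2 + t * I)‖ ≤ r := by
  rcases le_or_gt (1 / 2) ρ.re with h | h
  · exact ⟨ρ, hρ, h, hd⟩
  · refine ⟨1 - (starRingEnd ℂ) ρ, ?_, ?_, ?_⟩
    · have hre : |ρ.re - 1 / 2| ≤ 1 / 4 := by
        have := (Complex.abs_re_le_norm (ρ - (1 / 2 + t * I))).trans (hd.trans hr)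
        simpa using this
      rw [abs_le] at hre
      have h1 : riemannZeta ((starRingEnd ℂ) ρ) = 0 := by
        rw [riemannZeta_conj, hρ, map_zero]
      have hre2 : ((starRingEnd ℂ) ρ).re = ρ.re := Complex.conj_re ρ
      have h2 := ch_fe ((starRingEnd ℂ) ρ) (by rw [hre2]; linarith only [h, hre]) (by
        intro h3
        have := congrArg Complex.re h3
        rw [hre2, Complex.one_re] at this
        linarith only [h, hre, this])
      rw [h2, h1, mul_zero]
    · rw [Complex.sub_re, Complex.conj_re, Complex.one_re]; linarith only [h]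
    · have h3 : (1 - (starRingEnd ℂ) ρ) - (1 / 2 + t * I) =
          -(starRingEnd ℂ) (ρ - (1 / 2 + t * I)) := by
        simp only [map_sub, map_add, map_mul, Complex.conj_ofReal, Complex.conj_I, map_div₀, map_one]
        have : (starRingEnd ℂ) (2 : ℂ) = 2 := Complex.conj_ofNat 2
        rw [this]
        ring
      rw [h3, norm_neg, RCLike.norm_conj]
      exact hd

end Pool.Agent.H14.CO

end

section

set_option autoImplicit false

namespace Pool.Agent.H95.GC

open Set MeasureTheory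

/-- A zero-free holomorphic function on a disc has a holomorphic logarithm. -/
theorem exists_log (f : ℂ → ℂ) (c : ℂ) (R : ℝ) (hR : 0 < R)
    (hf : DifferentiableOn ℂ f (Metric.ball c R)) (hf0 : ∀ z ∈ Metric.ball c R, f z ≠ 0) :
    ∃ L : ℂ → ℂ, DifferentiableOn ℂ L (Metric.ball c R) ∧ L c = 0 ∧
      ∀ z ∈ Metric.ball c R, f z = f c * Complex.exp (L z) := by
  have hdf : DifferentiableOn ℂ (deriv f) (Metric.ball c R) := hf.deriv Metric.isOpen_ball
  have hq : DifferentiableOn ℂ (fun z => deriv f z / f z) (Metric.ball c R) := hdf.div hf hf0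
  have hex := hq.isExactOn_ball
  obtain ⟨L, hL0, hL⟩ := hex.with_val_at c 0
  refine ⟨L, fun z hz => (hL z hz).differentiableAt.differentiableWithinAt, hL0, ?_⟩
  -- f * exp (-L) is constant
  set h : ℂ → ℂ := fun z => f z * Complex.exp (-(L z)) with hh
  have hcmem : c ∈ Metric.ball c R := Metric.mem_ball_self hR
  have hder : ∀ z ∈ Metric.ball c R, HasDerivAt h 0 z := by
    intro z hz
    have hfz : HasDerivAt f (deriv f z) z :=
      (hf.differentiableAt (Metric.isOpen_ball.mem_nhds hz)).hasDerivAt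
    have h1 := hfz.mul ((hL z hz).neg.cexp)
    refine h1.congr_deriv ?_
    have := hf0 z hz
    field_simp
    ring
  have hconst : ∀ z ∈ Metric.ball c R, h z = h c := by
    intro z hz
    have hconv : Convex ℝ (Metric.ball c R) := convex_ball c R
    apply hconv.is_const_of_fderivWithin_eq_zero (𝕜 := ℂ)
      (fun x hx => (hder x hx).differentiableAt.differentiableWithinAt) ?_ hz hcmem
    intro x hx
    have := (hder x hx).hasFDerivAt.fderiv
    rw [fderivWithin_of_isOpen Metric.isOpen_ball hx, this]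
    ext
    simp
  intro z hz
  have := hconst z hz
  simp only [hh, hL0, neg_zero, Complex.exp_zero, mul_one] at this
  rw [← this, mul_assoc, ← Complex.exp_add, neg_add_cancel, Complex.exp_zero, mul_one]

end Pool.Agent.H95.GC

end

section

/-!
# CO module Zdet: deterministic zero detection in a small disc around a point of the critical line
-/

set_option autoImplicit false

namespace Pool.Agent.H14.CO

open Set MeasureTheory Complex

/-- points close to `1/2 + i t` are not `1` -/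
theorem Zdet_ne_one {t r : ℝ} {z : ℂ} (ht : 100 ≤ t) (hr : r ≤ 1)
    (hz : ‖z - (1 / 2 + t * I)‖ ≤ r) : z ≠ 1 := by
  intro h
  rw [h] at hz
  have h1 := (Complex.abs_im_le_norm (1 - (1 / 2 + t * I))).trans hz
  have h2 : (1 - (1 / 2 + (t : ℂ) * I)).im = -t := by simp
  rw [h2, abs_neg, abs_of_nonneg (by linarith only [ht])] at h1
  linarith only [ht, hr, h1]

theorem Zdet_analyticAt {z : ℂ} (hz : z ≠ 1) : AnalyticAt ℂ riemannZeta z := by
  have hd : DifferentiableOn ℂ riemannZeta {1}ᶜ :=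
    fun w hw => (differentiableAt_riemannZeta hw).differentiableWithinAt
  exact hd.analyticAt (isOpen_compl_singleton.mem_nhds hz)

/-- Borel-Carathéodory: lower bound for a zero free function -/
theorem Zdet_bc (f : ℂ → ℂ) (c : ℂ) (R M : ℝ) (hR : 0 < R) (hM : 0 < M)
    (hf : DifferentiableOn ℂ f (Metric.ball c (4 * R)))
    (hf0 : ∀ z ∈ Metric.ball c (4 * R), f z ≠ 0)
    (hb : ∀ z ∈ Metric.ball c (4 * R), Real.log ‖f z‖ ≤ Real.log ‖f c‖ + M) :
    ∀ z : ℂ, ‖z - c‖ ≤ 2 * R → Real.log ‖f c‖ - 2 * M ≤ Real.log ‖f z‖ := by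
  obtain ⟨L, hL, hL0, hLe⟩ := Pool.Agent.H95.GC.exists_log f c (4 * R) (by linarith) hf hf0
  have hc : f c ≠ 0 := hf0 c (Metric.mem_ball_self (by linarith only [hR]))
  have hre : ∀ z ∈ Metric.ball c (4 * R), Real.log ‖f z‖ = Real.log ‖f c‖ + (L z).re := by
    intro z hz
    rw [hLe z hz, norm_mul, Complex.norm_exp,
      Real.log_mul (norm_ne_zero_iff.2 hc) (Real.exp_pos _).ne', Real.log_exp]
  intro z hz
  have hzb : z ∈ Metric.ball c (4 * R) := by
    rw [mem_ball_iff_norm]; linarith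
  set F : ℂ → ℂ := fun w => L (c + w) with hF
  have hmaps : ∀ w ∈ Metric.ball (0 : ℂ) (4 * R), c + w ∈ Metric.ball c (4 * R) := by
    intro w hw
    rw [mem_ball_iff_norm] at hw ⊢
    simpa using hw
  have hFd : DifferentiableOn ℂ F (Metric.ball 0 (4 * R)) := by
    refine hL.comp ?_ hmaps
    exact (differentiable_id.const_add c).differentiableOn
  have hFM : Set.MapsTo F (Metric.ball 0 (4 * R)) {z | z.re ≤ M} := by
    intro w hw
    have h1 := hre _ (hmaps w hw)
    have h2 := hb _ (hmaps w hw)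
    show (L (c + w)).re ≤ M
    linarith only [h1, h2]
  have hw : z - c ∈ Metric.ball (0 : ℂ) (4 * R) := by
    rw [mem_ball_iff_norm, sub_zero]; linarith only [hR, hz]
  have h3 := Complex.borelCaratheodory_zero hM hFd hFM (by linarith) hw (by simp [hF, hL0])
  have h4 : F (z - c) = L z := by simp [hF]
  rw [h4] at h3
  have h5 : 2 * M * ‖z - c‖ / (4 * R - ‖z - c‖) ≤ 2 * M := by
    rw [div_le_iff₀ (by linarith only [hR, hz])]
    have : ‖z - c‖ ≤ 4 * R - ‖z - c‖ := by linarith only [hz]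
    exact mul_le_mul_of_nonneg_left this (by linarith only [hM])
  have h6 := neg_le_abs (L z).re
  have h7 := Complex.abs_re_le_norm (L z)
  rw [hre z hzb]
  linarith only [h3, h5, h6, h7]

/-- `s = 1/2 + it`, `z φ = s + R e^{iφ}`. `P` is any continuous function (the mollifier), `m > 0`.

PROOF. Suppose `ζ ≠ 0` on the closed ball `‖z - s‖ ≤ 6R`.
(a) Measure of bad angles: let `bad ⊆ [-π/2, π/2]` be the set of `φ` with `|φ| > φ₀`, or
`‖ζ(zφ) P(zφ) - 1‖ > 1/2`, or `‖P(zφ)‖ > A m`. By Chebyshev its measure is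
`≤ κ := 2(π/2 - φ₀) + 4κ₃ + A₃/A²`. For `φ` not bad, `m ‖ζ(zφ)‖ ≥ ‖ζ P‖/A ≥ 1/(2A) =: c₀`.
`κ < π` (from (5), as the bracket multiplying `κ` is nonnegative; or directly the hypothesis `hκ`), so a
good angle `φ₁` exists; `z₁ = z φ₁`.
(b) Borel–Carathéodory with centre `z₁`, radius `4R` (`ball z₁ (4R) ⊆ closedBall s (5R)`): there
`ζ = ζ(z₁) exp g`, `g z₁ = 0`, `Re g ≤ K₁ + log(1/(m‖ζ z₁‖)) ≤ K₁ + log(2A)`
(`Pool.Agent.H95.GC.exists_log` in H95/GC/ThreeCircles.lean; Mathlib `BorelCaratheodory`), hence for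
`‖z - z₁‖ ≤ 2R`: `‖g z‖ ≤ 2 (K₁ + log (2A))` and
`log (m‖ζ z‖) ≥ -log(2A) - 2(K₁ + log(2A)) = -(2K₁ + 3 log(2A))`. This covers all `z φ`.
(c) Mean value (`AnalyticOnNhd.circleAverage_log_norm_of_ne_zero`) on the circle `‖z - s‖ = R`:
`log(m‖ζ s‖) = (1/2π) ∫_{-π/2}^{π/2} [log m‖ζ(s+Re^{iφ})‖ + log m‖ζ(s - R e^{-iφ})‖] dφ`, and
`s - R e^{-iφ} = 1/2 - x + iu` with `x = R cos φ`, `u = t + R sin φ ≥ t/2`, so by `hχ`
`log‖ζ(s - Re^{-iφ})‖ ≥ log‖ζ(s+Re^{iφ})‖ + x log(t/2) - log(1/cχ)`.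
`∫ cos = 2`. So
`log A₀ ≥ (1/π) ∫ log(m‖ζ(zφ)‖) dφ + (R/π) log(t/2) - (1/2) log(1/cχ)
 ≥ -log(2A) - (κ/π)(2K₁ + 3 log(2A)) + (R/π) log(t/2) - (1/2) log(1/cχ)`,
contradicting (5). -/
theorem zdet (t R m K₁ A₀ A A₃ κ₃ φ₀ cχ : ℝ) (P : ℂ → ℂ) (hP : Continuous P)
    (ht : 100 ≤ t) (hR0 : 0 < R) (hR1 : R ≤ 1 / 100) (hm : 0 < m) (hK₁ : 0 ≤ K₁) (hA₀ : 0 < A₀)
    (hA : 1 ≤ A) (hA₃ : 0 ≤ A₃) (hκ₃ : 0 ≤ κ₃) (hφ₀ : 0 ≤ φ₀) (hφ₁ : φ₀ ≤ Real.pi / 2)
    (hcχ0 : 0 < cχ) (hcχ1 : cχ ≤ 1)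
    (hχ : ∀ x u : ℝ, 0 ≤ x → x ≤ 1 / 4 → 1 ≤ u →
      cχ * u ^ x * ‖riemannZeta (1 / 2 + x + u * I)‖ ≤ ‖riemannZeta (1 / 2 - x + u * I)‖)
    (h1 : ∀ z : ℂ, ‖z - (1 / 2 + t * I)‖ ≤ 6 * R → ‖riemannZeta z‖ * m ≤ Real.exp K₁)
    (h2 : ‖riemannZeta (1 / 2 + t * I)‖ * m ≤ A₀)
    (h3 : ∫ φ in (-φ₀)..φ₀, ‖riemannZeta (1 / 2 + t * I + R * Complex.exp (φ * I)) *
      P (1 / 2 + t * I + R * Complex.exp (φ * I)) - 1‖ ^ 2 ≤ κ₃)
    (h4 : ∫ φ in (-φ₀)..φ₀, ‖P (1 / 2 + t * I + R * Complex.exp (φ * I))‖ ^ 2 ≤ A₃ * m ^ 2)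
    (hκ : 2 * (Real.pi / 2 - φ₀) + 4 * κ₃ + A₃ / A ^ 2 < 1)
    (h5 : Real.log A₀ < R * Real.log (t / 2) / Real.pi - 1 / 2 * Real.log (1 / cχ) -
      Real.log (2 * A) - (2 * (Real.pi / 2 - φ₀) + 4 * κ₃ + A₃ / A ^ 2) / Real.pi *
        (2 * K₁ + 3 * Real.log (2 * A))) :
    ∃ ρ : ℂ, riemannZeta ρ = 0 ∧ ‖ρ - (1 / 2 + t * I)‖ ≤ 6 * R := by
  by_contra hcon
  push Not at hcon
  have hπ := Real.pi_pos
  set s : ℂ := 1 / 2 + t * I with hs
  set Z : ℝ → ℂ := fun φ => s + R * Complex.exp (φ * I) with hZ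
  have hnz : ∀ z : ℂ, ‖z - s‖ ≤ 6 * R → riemannZeta z ≠ 0 := by
    intro z hz h0
    exact absurd hz (not_le.2 (hcon z h0))
  have hne : ∀ z : ℂ, ‖z - s‖ ≤ 6 * R → z ≠ 1 := fun z hz =>
    Zdet_ne_one ht (by linarith only [hR0, hR1]) hz
  have hZn : ∀ φ : ℝ, ‖Z φ - s‖ = R := by
    intro φ
    simp only [hZ, add_sub_cancel_left, norm_mul, Complex.norm_real, Real.norm_eq_abs,
      abs_of_pos hR0, Complex.norm_exp_ofReal_mul_I, mul_one]
  have hZ6 : ∀ φ : ℝ, ‖Z φ - s‖ ≤ 6 * R := fun φ => by rw [hZn]; linarith only [hR0]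
  have hZc : Continuous Z := by fun_prop
  have hzc : Continuous fun φ : ℝ => riemannZeta (Z φ) := by
    rw [continuous_iff_continuousAt]
    intro φ
    exact ContinuousAt.comp (Zdet_analyticAt (hne _ (hZ6 φ))).continuousAt hZc.continuousAt
  set h : ℝ → ℝ := fun φ => Real.log ‖riemannZeta (Z φ)‖ with hh
  have hhc : Continuous h := by
    refine Continuous.log hzc.norm fun φ => ?_
    exact norm_ne_zero_iff.2 (hnz _ (hZ6 φ))
  have hlogA : 0 < Real.log (2 * A) := Real.log_pos (by linarith only [hR0, hR1, hA])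
  have hA0 : 0 < A := by linarith only [hR0, hR1, hA]
  -- the majorant of the bad set
  set B : ℝ → ℝ := fun φ => 4 * ‖riemannZeta (Z φ) * P (Z φ) - 1‖ ^ 2 +
    ‖P (Z φ)‖ ^ 2 / (A ^ 2 * m ^ 2) with hB
  have hPc : Continuous fun φ : ℝ => P (Z φ) := hP.comp hZc
  have hBc : Continuous B := by
    simp only [hB]
    exact (continuous_const.mul (((hzc.mul hPc).sub continuous_const).norm.pow 2)).add
      ((hPc.norm.pow 2).div_const _)
  have hB0 : ∀ φ, 0 ≤ B φ := fun φ => by simp only [hB]; positivity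
  have hgood : ∀ φ, B φ < 1 → Real.log m + h φ ≥ - Real.log (2 * A) := by
    intro φ hφ
    have e1 : 0 ≤ ‖P (Z φ)‖ ^ 2 / (A ^ 2 * m ^ 2) := by positivity
    have e2 : 0 ≤ 4 * ‖riemannZeta (Z φ) * P (Z φ) - 1‖ ^ 2 := by positivity
    have e3 : ‖riemannZeta (Z φ) * P (Z φ) - 1‖ ≤ 1 / 2 := by
      have : ‖riemannZeta (Z φ) * P (Z φ) - 1‖ ^ 2 ≤ (1 / 2) ^ 2 := by
        simp only [hB] at hφ; linarith only [e1, hφ]
      exact le_of_sq_le_sq this (by norm_num)
    have e4 : ‖P (Z φ)‖ ≤ A * m := by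
      have h6 : ‖P (Z φ)‖ ^ 2 / (A ^ 2 * m ^ 2) ≤ 1 := by simp only [hB] at hφ; linarith only [e2, hφ]
      rw [div_le_one (by positivity)] at h6
      have : ‖P (Z φ)‖ ^ 2 ≤ (A * m) ^ 2 := by rw [mul_pow]; exact h6
      exact le_of_sq_le_sq this (by positivity)
    have e5 : 1 / 2 ≤ ‖riemannZeta (Z φ)‖ * ‖P (Z φ)‖ := by
      rw [← norm_mul]
      have := norm_sub_norm_le (1 : ℂ) (1 - riemannZeta (Z φ) * P (Z φ))
      rw [sub_sub_cancel, norm_one, norm_sub_rev] at this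
      linarith only [e3, this]
    have hz0 : 0 < ‖riemannZeta (Z φ)‖ := norm_pos_iff.2 (hnz _ (hZ6 φ))
    have e6 : 1 / (2 * A) ≤ m * ‖riemannZeta (Z φ)‖ := by
      rw [div_le_iff₀ (by positivity)]
      have : ‖riemannZeta (Z φ)‖ * ‖P (Z φ)‖ ≤ ‖riemannZeta (Z φ)‖ * (A * m) :=
        mul_le_mul_of_nonneg_left e4 hz0.le
      nlinarith only [e5, this]
    have e7 := Real.log_le_log (by positivity) e6
    rw [Real.log_mul hm.ne' hz0.ne', one_div, Real.log_inv] at e7
    exact e7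
  -- integrals of the majorant
  have hBint : ∫ φ in (-φ₀)..φ₀, B φ ≤ 4 * κ₃ + A₃ / A ^ 2 := by
    simp only [hB]
    rw [intervalIntegral.integral_add, intervalIntegral.integral_const_mul,
      intervalIntegral.integral_div]
    · refine add_le_add (mul_le_mul_of_nonneg_left h3 (by norm_num)) ?_
      rw [div_le_div_iff₀ (by positivity) (by positivity)]
      calc (∫ φ in (-φ₀)..φ₀, ‖P (Z φ)‖ ^ 2) * A ^ 2 ≤ (A₃ * m ^ 2) * A ^ 2 :=
            mul_le_mul_of_nonneg_right h4 (by positivity)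
        _ = A₃ * (A ^ 2 * m ^ 2) := by ring
    · exact (continuous_const.mul
        (((hzc.mul hPc).sub continuous_const).norm.pow 2)).intervalIntegrable _ _
    · exact ((hPc.norm.pow 2).div_const _).intervalIntegrable _ _
  -- a good angle
  obtain ⟨φ₁, hφ₁g⟩ : ∃ φ, B φ < 1 := by
    by_contra hno
    push Not at hno
    have h6 : ∫ _φ in (-φ₀)..φ₀, (1 : ℝ) ≤ ∫ φ in (-φ₀)..φ₀, B φ :=
      intervalIntegral.integral_mono_on (by linarith only [hφ₀]) (continuous_const.intervalIntegrable _ _)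
        (hBc.intervalIntegrable _ _) fun φ _ => hno φ
    rw [intervalIntegral.integral_const, smul_eq_mul, mul_one] at h6
    have := Real.pi_gt_three
    linarith only [hR0, hR1, hκ, hBint, h6, this]
  have hg1 := hgood φ₁ hφ₁g
  -- Borel-Caratheodory
  have hbc := Zdet_bc riemannZeta (Z φ₁) R (K₁ + Real.log (2 * A)) hR0 (by linarith only [hK₁, hlogA])
    (fun z hz => ((Zdet_analyticAt (hne z (by
      rw [mem_ball_iff_norm] at hz
      have := norm_add_le (z - Z φ₁) (Z φ₁ - s)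
      rw [sub_add_sub_cancel, hZn] at this
      linarith only [hR0, hz, this]))).differentiableAt).differentiableWithinAt)
    (fun z hz => hnz z (by
      rw [mem_ball_iff_norm] at hz
      have := norm_add_le (z - Z φ₁) (Z φ₁ - s)
      rw [sub_add_sub_cancel, hZn] at this
      linarith only [hR0, hz, this]))
    (fun z hz => by
      rw [mem_ball_iff_norm] at hz
      have h6 := norm_add_le (z - Z φ₁) (Z φ₁ - s)
      rw [sub_add_sub_cancel, hZn] at h6
      have h7 : ‖z - s‖ ≤ 6 * R := by linarith only [hR0, hz, h6]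
      have h8 := h1 z h7
      have hz0 : 0 < ‖riemannZeta z‖ := norm_pos_iff.2 (hnz z h7)
      have h9 := Real.log_le_log (by positivity) h8
      rw [Real.log_exp, Real.log_mul hz0.ne' hm.ne'] at h9
      simp only [hh] at hg1
      linarith only [h9, hg1])
  have hall : ∀ φ, Real.log m + h φ ≥ -(2 * K₁ + 3 * Real.log (2 * A)) := by
    intro φ
    have h6 := hbc (Z φ) (by
      have := norm_sub_le (Z φ - s) (Z φ₁ - s)
      rw [sub_sub_sub_cancel_right, hZn, hZn] at this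
      linarith only [this])
    simp only [hh] at hg1 ⊢
    linarith only [h6, hg1]
  -- the lower bound on the half circle
  set Λ : ℝ := 2 * K₁ + 3 * Real.log (2 * A) with hΛ
  have hΛ0 : 0 ≤ Λ := by simp only [hΛ]; linarith only [hK₁, hlogA]
  have hint : ∀ a b : ℝ, IntervalIntegrable (fun φ => Real.log m + h φ) volume a b :=
    fun a b => (continuous_const.add hhc).intervalIntegrable _ _
  have hmid : ∫ φ in (-φ₀)..φ₀, (Real.log m + h φ) ≥
      -(2 * φ₀ * Real.log (2 * A)) - Λ * (4 * κ₃ + A₃ / A ^ 2) := by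
    have h6 : ∫ φ in (-φ₀)..φ₀, (-Real.log (2 * A) - Λ * B φ) ≤
        ∫ φ in (-φ₀)..φ₀, (Real.log m + h φ) := by
      refine intervalIntegral.integral_mono_on (by linarith only [hφ₀])
        ((continuous_const.sub (continuous_const.mul hBc)).intervalIntegrable _ _)
        (hint _ _) fun φ _ => ?_
      rcases lt_or_ge (B φ) 1 with h7 | h7
      · have := hgood φ h7
        have := mul_nonneg hΛ0 (hB0 φ)
        linarith
      · have := hall φ
        have : Λ * 1 ≤ Λ * B φ := mul_le_mul_of_nonneg_left h7 hΛ0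
        linarith
    have hLB : Continuous fun φ => Λ * B φ := continuous_const.mul hBc
    rw [intervalIntegral.integral_sub (f := fun _ => -Real.log (2 * A)) (g := fun φ => Λ * B φ)
      (continuous_const.intervalIntegrable _ _)
      (hLB.intervalIntegrable _ _), intervalIntegral.integral_const,
      intervalIntegral.integral_const_mul, smul_eq_mul] at h6
    have h7 := mul_le_mul_of_nonneg_left hBint hΛ0
    have h8 : (φ₀ - -φ₀) * -Real.log (2 * A) = -(2 * φ₀ * Real.log (2 * A)) := by ring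
    rw [h8] at h6
    linarith only [h6, h7]
  have hout : ∀ a b : ℝ, a ≤ b → ∫ φ in a..b, (Real.log m + h φ) ≥
      (b - a) * (-Real.log (2 * A) - Λ) := by
    intro a b hab
    have h6 : ∫ _φ in a..b, (-Real.log (2 * A) - Λ) ≤ ∫ φ in a..b, (Real.log m + h φ) := by
      refine intervalIntegral.integral_mono_on hab (continuous_const.intervalIntegrable _ _)
        (hint _ _) fun φ _ => ?_
      have := hall φ
      linarith only [hlogA, this]
    rw [intervalIntegral.integral_const, smul_eq_mul] at h6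
    exact h6
  have hhalf : ∫ φ in (-(Real.pi / 2))..(Real.pi / 2), (Real.log m + h φ) ≥
      -(Real.pi * Real.log (2 * A)) -
        Λ * (2 * (Real.pi / 2 - φ₀) + 4 * κ₃ + A₃ / A ^ 2) := by
    rw [← intervalIntegral.integral_add_adjacent_intervals (hint (-(Real.pi / 2)) (-φ₀)) (hint _ _),
      ← intervalIntegral.integral_add_adjacent_intervals (hint (-φ₀) φ₀) (hint _ _)]
    have h6 := hout (-(Real.pi / 2)) (-φ₀) (by linarith only [hφ₁])
    have h7 := hout φ₀ (Real.pi / 2) hφ₁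
    have h8 : (-φ₀ - -(Real.pi / 2)) * (-Real.log (2 * A) - Λ) +
        (Real.pi / 2 - φ₀) * (-Real.log (2 * A) - Λ) + (-(2 * φ₀ * Real.log (2 * A)) -
          Λ * (4 * κ₃ + A₃ / A ^ 2)) = -(Real.pi * Real.log (2 * A)) -
        Λ * (2 * (Real.pi / 2 - φ₀) + 4 * κ₃ + A₃ / A ^ 2) := by ring
    linarith only [hmid, h6, h7]
  have hhalf2 : ∫ φ in (-(Real.pi / 2))..(Real.pi / 2), (Real.log m + h φ) =
      Real.pi * Real.log m + ∫ φ in (-(Real.pi / 2))..(Real.pi / 2), h φ := by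
    rw [intervalIntegral.integral_add (continuous_const.intervalIntegrable _ _)
      (hhc.intervalIntegrable _ _), intervalIntegral.integral_const, smul_eq_mul]
    ring
  -- the reflected half circle
  have hrefl : ∀ φ ∈ Set.Icc (-(Real.pi / 2)) (Real.pi / 2),
      Real.log cχ + R * Real.cos φ * Real.log (t / 2) + h φ ≤ h (Real.pi - φ) := by
    intro φ hφ
    have hcos : 0 ≤ Real.cos φ := Real.cos_nonneg_of_mem_Icc hφ
    have hcos1 : Real.cos φ ≤ 1 := Real.cos_le_one φ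
    have hsin1 : -1 ≤ Real.sin φ := Real.neg_one_le_sin φ
    have hx0 : 0 ≤ R * Real.cos φ := mul_nonneg hR0.le hcos
    have hx1 : R * Real.cos φ ≤ 1 / 4 := by nlinarith only [hR1, hR0, hcos1]
    have hu : t / 2 ≤ t + R * Real.sin φ := by nlinarith only [ht, hR1, hR0, hsin1]
    have hu1 : 1 ≤ t + R * Real.sin φ := by linarith only [ht, hR0, hR1, hu]
    have h6 := hχ (R * Real.cos φ) (t + R * Real.sin φ) hx0 hx1 hu1
    have e1 : (1 / 2 + ((R * Real.cos φ : ℝ) : ℂ) + ((t + R * Real.sin φ : ℝ) : ℂ) * I) = Z φ := by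
      simp only [hZ, hs]
      rw [Complex.exp_mul_I]
      push_cast
      ring
    have e2 : (1 / 2 - ((R * Real.cos φ : ℝ) : ℂ) + ((t + R * Real.sin φ : ℝ) : ℂ) * I) =
        Z (Real.pi - φ) := by
      simp only [hZ, hs]
      rw [Complex.exp_mul_I]
      push_cast
      rw [Complex.cos_pi_sub, Complex.sin_pi_sub]
      ring
    rw [e1, e2] at h6
    have hz0 : 0 < ‖riemannZeta (Z φ)‖ := norm_pos_iff.2 (hnz _ (hZ6 φ))
    have hup : 0 < (t + R * Real.sin φ) ^ (R * Real.cos φ) := Real.rpow_pos_of_pos (by linarith only [ht, hR0, hR1, hu]) _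
    have h7 := Real.log_le_log (by positivity) h6
    rw [Real.log_mul (by positivity) hz0.ne', Real.log_mul hcχ0.ne' hup.ne',
      Real.log_rpow (by linarith only [ht, hR0, hR1, hu])] at h7
    have h8 : Real.log (t / 2) ≤ Real.log (t + R * Real.sin φ) :=
      Real.log_le_log (by linarith only [ht, hR0, hR1]) hu
    have h9 := mul_le_mul_of_nonneg_left h8 hx0
    simp only [hh]
    linarith only [h7, h9]
  have hrefl2 : Real.pi * Real.log cχ + 2 * R * Real.log (t / 2) +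
      ∫ φ in (-(Real.pi / 2))..(Real.pi / 2), h φ ≤
      ∫ φ in (-(Real.pi / 2))..(Real.pi / 2), h (Real.pi - φ) := by
    have h6 : ∫ φ in (-(Real.pi / 2))..(Real.pi / 2),
        (Real.log cχ + R * Real.cos φ * Real.log (t / 2) + h φ) ≤
        ∫ φ in (-(Real.pi / 2))..(Real.pi / 2), h (Real.pi - φ) := by
      refine intervalIntegral.integral_mono_on (by linarith only [hπ])
        (Continuous.intervalIntegrable (by fun_prop) _ _)
        (Continuous.intervalIntegrable (by fun_prop) _ _) hrefl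
    have h7 : ∫ φ in (-(Real.pi / 2))..(Real.pi / 2),
        (Real.log cχ + R * Real.cos φ * Real.log (t / 2) + h φ) =
        Real.pi * Real.log cχ + 2 * R * Real.log (t / 2) +
          ∫ φ in (-(Real.pi / 2))..(Real.pi / 2), h φ := by
      rw [intervalIntegral.integral_add (Continuous.intervalIntegrable (by fun_prop) _ _)
        (hhc.intervalIntegrable _ _),
        intervalIntegral.integral_add (Continuous.intervalIntegrable (by fun_prop) _ _)
          (Continuous.intervalIntegrable (by fun_prop) _ _), intervalIntegral.integral_const,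
        intervalIntegral.integral_mul_const, intervalIntegral.integral_const_mul, integral_cos,
        smul_eq_mul, Real.sin_neg, Real.sin_pi_div_two]
      ring
    linarith only [h6, h7]
  -- mean value
  have hmv : Real.log ‖riemannZeta s‖ = (2 * Real.pi)⁻¹ *
      ((∫ φ in (-(Real.pi / 2))..(Real.pi / 2), h φ) +
        ∫ φ in (-(Real.pi / 2))..(Real.pi / 2), h (Real.pi - φ)) := by
    have h6 := AnalyticOnNhd.circleAverage_log_norm_of_ne_zero (R := R) (c := s)
      (g := riemannZeta)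
      (fun z hz => Zdet_analyticAt (hne z (by
        rw [mem_closedBall_iff_norm, abs_of_pos hR0] at hz; linarith only [hR0, hz])))
      (fun z hz => hnz z (by
        rw [mem_closedBall_iff_norm, abs_of_pos hR0] at hz; linarith only [hR0, hz]))
    rw [← h6, Real.circleAverage_eq_integral_add (-(Real.pi / 2)), smul_eq_mul]
    congr 1
    have e : ∀ θ : ℝ, Real.log ‖riemannZeta (circleMap s R (θ + -(Real.pi / 2)))‖ =
        h (θ - Real.pi / 2) := by
      intro θ
      simp only [hh, hZ, circleMap, sub_eq_add_neg]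
    simp only [e]
    have e1 : ∫ x in (0 : ℝ)..2 * Real.pi, h (x - Real.pi / 2) =
        ∫ x in (-(Real.pi / 2))..(3 * Real.pi / 2), h x := by
      rw [intervalIntegral.integral_comp_sub_right (fun x => h x) (Real.pi / 2)]
      congr 1 <;> ring
    have e2 : ∫ φ in (-(Real.pi / 2))..(Real.pi / 2), h (Real.pi - φ) =
        ∫ x in (Real.pi / 2)..(3 * Real.pi / 2), h x := by
      rw [intervalIntegral.integral_comp_sub_left (fun x => h x) Real.pi]
      congr 1 <;> ring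
    rw [e1, e2, intervalIntegral.integral_add_adjacent_intervals
      (hhc.intervalIntegrable _ _) (hhc.intervalIntegrable _ _)]
  -- conclusion
  have hz0 : 0 < ‖riemannZeta s‖ := norm_pos_iff.2 (hnz s (by rw [sub_self, norm_zero]; linarith only [hR0]))
  have h6 := Real.log_le_log (by positivity) h2
  rw [Real.log_mul hz0.ne' hm.ne'] at h6
  have h7 : Real.log (1 / cχ) = -Real.log cχ := by rw [one_div, Real.log_inv]
  rw [h7] at h5
  set J := ∫ φ in (-(Real.pi / 2))..(Real.pi / 2), h φ with hJ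
  have h8 : Real.pi * Real.log ‖riemannZeta s‖ ≥ J + Real.pi / 2 * Real.log cχ +
      R * Real.log (t / 2) := by
    have h9 : Real.pi * Real.log ‖riemannZeta s‖ = 1 / 2 *
      (J + ∫ φ in (-(Real.pi / 2))..(Real.pi / 2), h (Real.pi - φ)) := by
      rw [hmv]
      field_simp
    rw [h9]
    linarith only [hrefl2]
  rw [hhalf2] at hhalf
  have h9 : Real.pi * Real.log A₀ < Real.pi * (R * Real.log (t / 2) / Real.pi -
      1 / 2 * -Real.log cχ - Real.log (2 * A) -
      (2 * (Real.pi / 2 - φ₀) + 4 * κ₃ + A₃ / A ^ 2) / Real.pi * Λ) :=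
    mul_lt_mul_of_pos_left h5 hπ
  have h10 : Real.pi * (R * Real.log (t / 2) / Real.pi -
      1 / 2 * -Real.log cχ - Real.log (2 * A) -
      (2 * (Real.pi / 2 - φ₀) + 4 * κ₃ + A₃ / A ^ 2) / Real.pi * Λ) =
      R * Real.log (t / 2) + Real.pi / 2 * Real.log cχ - Real.pi * Real.log (2 * A) -
      Λ * (2 * (Real.pi / 2 - φ₀) + 4 * κ₃ + A₃ / A ^ 2) := by
    field_simp
    ring
  rw [h10] at h9
  have h11 := mul_le_mul_of_nonneg_left h6 hπ.le
  linarith only [hhalf, h8, h9, h11]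

end Pool.Agent.H14.CO

end

section

/-!
# CO: the pointwise part of the good set
-/

set_option autoImplicit false

namespace Pool.Agent.H14.CO

open Set MeasureTheory Complex

theorem W_le (T : ℝ) (hT0 : 0 < T) (hL : 30 ≤ Real.log T) : T ^ (9 / 10 : ℝ) ≤ T / 4 := by
  have hexpL : Real.exp (Real.log T) = T := Real.exp_log hT0
  have e1 : T ^ (9 / 10 : ℝ) = T * Real.exp (-(Real.log T / 10)) := by
    calc T ^ (9 / 10 : ℝ) = Real.exp (Real.log T * (9 / 10)) := Real.rpow_def_of_pos hT0 _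
      _ = Real.exp (Real.log T) * Real.exp (-(Real.log T / 10)) := by
          rw [← Real.exp_add]; congr 1; ring
      _ = T * Real.exp (-(Real.log T / 10)) := by rw [hexpL]
  have e2 : Real.exp (-(Real.log T / 10)) ≤ 1 / 4 := by
    rw [Real.exp_neg, one_div]
    apply inv_anti₀ (by norm_num)
    have := Real.add_one_le_exp (Real.log T / 10)
    linarith only [hL, this]
  rw [e1]
  have := mul_le_mul_of_nonneg_left e2 hT0.le
  linarith only [this]

theorem K1_bound (CS Cq c₄ G A₁ C₂ q z m : ℝ) (hCS : 0 < CS) (hCq : 0 < Cq) (hc₄ : 0 < c₄)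
    (hG : 1 ≤ G) (hA₁ : A₁ = 8 * (Cq * Real.exp (Cq * G)) / c₄)
    (hC₂ : C₂ = (|Real.log (8 * CS * Cq / c₄)| + Cq) / 2)
    (hz : 0 ≤ z) (hm : 0 ≤ m) (h1 : z ^ 2 ≤ CS * q) (h2 : q * m ^ 2 ≤ A₁) :
    z * m ≤ Real.exp (C₂ * G) := by
  have h3 : (z * m) ^ 2 ≤ CS * A₁ := by
    calc (z * m) ^ 2 = z ^ 2 * m ^ 2 := by ring
      _ ≤ (CS * q) * m ^ 2 := mul_le_mul_of_nonneg_right h1 (sq_nonneg m)
      _ = CS * (q * m ^ 2) := by ring
      _ ≤ CS * A₁ := mul_le_mul_of_nonneg_left h2 hCS.le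
  have h4 : CS * A₁ ≤ Real.exp (C₂ * G) ^ 2 := by
    have e1 : CS * A₁ = (8 * CS * Cq / c₄) * Real.exp (Cq * G) := by rw [hA₁]; ring
    have e2 : 8 * CS * Cq / c₄ ≤ Real.exp (|Real.log (8 * CS * Cq / c₄)| * G) := by
      have hp : 0 < 8 * CS * Cq / c₄ := by positivity
      calc 8 * CS * Cq / c₄ = Real.exp (Real.log (8 * CS * Cq / c₄)) := (Real.exp_log hp).symm
        _ ≤ _ := by
            apply Real.exp_le_exp.2
            have := le_abs_self (Real.log (8 * CS * Cq / c₄))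
            have h5 := abs_nonneg (Real.log (8 * CS * Cq / c₄))
            nlinarith only [this, hG, h5]
    rw [e1]
    calc (8 * CS * Cq / c₄) * Real.exp (Cq * G)
        ≤ Real.exp (|Real.log (8 * CS * Cq / c₄)| * G) * Real.exp (Cq * G) :=
          mul_le_mul_of_nonneg_right e2 (Real.exp_pos _).le
      _ = Real.exp (C₂ * G) ^ 2 := by
          rw [← Real.exp_add, ← Real.exp_nat_mul]
          congr 1
          rw [hC₂]; push_cast; ring
  have h5 : 0 ≤ z * m := mul_nonneg hz hm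
  exact (pow_le_pow_iff_left₀ h5 (Real.exp_pos _).le (by norm_num)).1 (h3.trans h4)

theorem chi_conv (Cχ cχ : ℝ) (hcχ0 : 0 < cχ) (hcχC : cχ * Cχ ≤ 1)
    (hchi : ∀ x u : ℝ, |x| ≤ 1 / 4 → 1 ≤ |u| →
      ‖riemannZeta (1 / 2 - x + u * I)‖ ≤ Cχ * |u| ^ x * ‖riemannZeta (1 / 2 + x + u * I)‖) :
    ∀ x u : ℝ, 0 ≤ x → x ≤ 1 / 4 → 1 ≤ u →
      cχ * u ^ x * ‖riemannZeta (1 / 2 + x + u * I)‖ ≤ ‖riemannZeta (1 / 2 - x + u * I)‖ := by
  intro x u hx0 hx1 hu
  have h1 := hchi (-x) u (by rw [abs_neg, abs_of_nonneg hx0]; exact hx1)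
    (by rw [abs_of_nonneg (by linarith only [hu])]; exact hu)
  rw [abs_of_nonneg (by linarith only [hu] : 0 ≤ u)] at h1
  have e1 : (1 / 2 - ((-x : ℝ) : ℂ) + u * I) = 1 / 2 + x + u * I := by push_cast; ring
  have e2 : (1 / 2 + ((-x : ℝ) : ℂ) + u * I) = 1 / 2 - x + u * I := by push_cast; ring
  rw [e1, e2] at h1
  have hu0 : 0 < u := by linarith only [hu]
  have e3 : u ^ x * u ^ (-x) = 1 := by
    rw [← Real.rpow_add hu0, add_neg_cancel, Real.rpow_zero]
  have hux : 0 < u ^ x := Real.rpow_pos_of_pos hu0 x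
  calc cχ * u ^ x * ‖riemannZeta (1 / 2 + x + u * I)‖
      ≤ cχ * u ^ x * (Cχ * u ^ (-x) * ‖riemannZeta (1 / 2 - x + u * I)‖) :=
        mul_le_mul_of_nonneg_left h1 (by positivity)
    _ = (cχ * Cχ) * (u ^ x * u ^ (-x)) * ‖riemannZeta (1 / 2 - x + u * I)‖ := by ring
    _ ≤ 1 * 1 * ‖riemannZeta (1 / 2 - x + u * I)‖ := by
        rw [e3]
        gcongr
    _ = _ := by ring

theorem logt_le (T t : ℝ) (hT0 : 0 < T) (hL : 30 ≤ Real.log T) (ht : T / 2 ≤ t) :
    Real.log T / 2 ≤ Real.log (t / 2) := by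
  have hexpL : Real.exp (Real.log T) = T := Real.exp_log hT0
  rw [Real.le_log_iff_exp_le (by linarith only [hT0, ht])]
  have e1 : Real.exp (Real.log T / 2) ^ 2 = T := by
    calc Real.exp (Real.log T / 2) ^ 2 = Real.exp (Real.log T) := by
          rw [← Real.exp_nat_mul]; congr 1; push_cast; ring
      _ = T := hexpL
  have e2 : 4 ≤ Real.exp (Real.log T / 2) := by
    have := Real.add_one_le_exp (Real.log T / 2)
    linarith only [hL, this]
  nlinarith only [ht, e1, e2]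

theorem num5 (G R L lt κs κ₀ K₁ la lA lc X₀ : ℝ) (hG : 1 < G) (hR : 0 < R) (hLR : L * R = G)
    (hlt : L / 2 ≤ lt) (hκs0 : 0 ≤ κs) (hκs1 : κs ≤ κ₀) (hκ₀1 : κ₀ ≤ 1 / 16)
    (hK : 0 ≤ K₁) (hκK : κ₀ * (2 * K₁) ≤ G / 8) (hlA : 0 ≤ lA)
    (hX₀ : X₀ = la + 1 / 2 * lc + 4 * lA) (hX : X₀ < 3 * G / 32) :
    la < R * lt / Real.pi - 1 / 2 * lc - lA - κs / Real.pi * (2 * K₁ + 3 * lA) := by
  have hπ := Real.pi_pos
  have hπ4 := Real.pi_le_four
  have hπ3 := Real.pi_gt_three
  have h1 : G / 2 ≤ R * lt := by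
    calc G / 2 = R * (L / 2) := by rw [← hLR]; ring
      _ ≤ _ := mul_le_mul_of_nonneg_left hlt hR.le
  have h2 : κs / Real.pi * (2 * K₁ + 3 * lA) ≤ (G / 8 + 3 * lA) / Real.pi := by
    rw [div_mul_eq_mul_div]
    apply div_le_div_of_nonneg_right _ hπ.le
    have h3 : κs * (2 * K₁) ≤ κ₀ * (2 * K₁) := mul_le_mul_of_nonneg_right hκs1 (by positivity)
    have h4 : κs * (3 * lA) ≤ 1 * (3 * lA) :=
      mul_le_mul_of_nonneg_right (by linarith only [hκs1, hκ₀1]) (by positivity)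
    linarith only [hκK, h3, h4]
  have h5 : G / 2 / Real.pi ≤ R * lt / Real.pi := div_le_div_of_nonneg_right h1 hπ.le
  have h6 : (G / 8 + 3 * lA) / Real.pi ≤ G / 8 / Real.pi + 3 * lA := by
    rw [add_div]
    have : 3 * lA / Real.pi ≤ 3 * lA := div_le_self (by positivity) (by linarith only [hπ3])
    linarith only [this]
  have h7 : 3 * G / 32 ≤ G / 2 / Real.pi - G / 8 / Real.pi := by
    have : G / 2 / Real.pi - G / 8 / Real.pi = (3 * G / 8) / Real.pi := by ring
    rw [this, le_div_iff₀ hπ]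
    nlinarith only [hπ4, hG]
  rw [hX₀] at hX
  linarith only [hX, h2, h5, h6, h7]

/-- pointwise: the four bounds give a zero -/
theorem good_point (CS Cq Cχ c₄ C₂ κ₀ A₁ A₂ A₃ A κ₃ φ₀ cχ X₀ G L R T t m z₀ : ℝ)
    (hCS : 0 < CS) (hCq : 0 < Cq) (hc₄ : 0 < c₄)
    (hsup : ∀ R : ℝ, 0 < R → R ≤ 1 / 100 → ∀ t : ℝ, ∀ w : ℂ,
      ‖w‖ ≤ 6 * R → ‖riemannZeta (1 / 2 + t * I + w)‖ ^ 2 ≤ CS * Qf R t)
    (hchi : ∀ x u : ℝ, |x| ≤ 1 / 4 → 1 ≤ |u| →
      ‖riemannZeta (1 / 2 - x + u * I)‖ ≤ Cχ * |u| ^ x * ‖riemannZeta (1 / 2 + x + u * I)‖)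
    (hcχ0 : 0 < cχ) (hcχ1 : cχ ≤ 1) (hcχC : cχ * Cχ ≤ 1)
    (hC₂ : C₂ = (|Real.log (8 * CS * Cq / c₄)| + Cq) / 2)
    (hκ₀ : κ₀ = 1 / (16 * (C₂ + 1)))
    (hA₁ : A₁ = 8 * (Cq * Real.exp (Cq * G)) / c₄) (hA₂0 : 0 < A₂) (hA₃0 : 0 < A₃)
    (hA1 : 1 ≤ A) (hAκ : A₃ / A ^ 2 ≤ κ₀ / 8) (hκ₃ : κ₃ = κ₀ / 32)
    (hX₀ : X₀ = Real.log (Real.sqrt A₂) + 1 / 2 * Real.log (1 / cχ) + 4 * Real.log (2 * A))
    (hG1 : 1 < G) (hφ0 : 0 ≤ φ₀) (hφ1 : φ₀ ≤ Real.pi / 2)
    (hg3 : 2 * (Real.pi / 2 - φ₀) ≤ κ₀ / 8) (hg4 : X₀ < 3 * G / 32)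
    (hT0 : 0 < T) (hL : L = Real.log T) (hLG : 600 * G ≤ L) (hR : R = G / L)
    (ht1 : T / 2 ≤ t) (hm : m = ‖Mo z₀ (pt 0 t)‖) (hm0 : 0 < m)
    (n1 : Qf R t * m ^ 2 ≤ A₁)
    (n2 : ‖riemannZeta (pt 0 t)‖ ^ 2 * m ^ 2 ≤ A₂)
    (n3 : ∫ φ in (-φ₀)..φ₀, ‖riemannZeta (1 / 2 + t * I + R * Complex.exp (φ * I)) *
      Mo z₀ (1 / 2 + t * I + R * Complex.exp (φ * I)) - 1‖ ^ 2 ≤ κ₃)
    (n4 : ∫ φ in (-φ₀)..φ₀, ‖Mo z₀ (1 / 2 + t * I + R * Complex.exp (φ * I))‖ ^ 2 ≤
      A₃ * m ^ 2) :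
    ∃ ρ : ℂ, riemannZeta ρ = 0 ∧ 1 / 2 ≤ ρ.re ∧ ‖ρ - pt 0 t‖ ≤ 6 * G / L := by
  have hC₂0 : 0 < C₂ := by rw [hC₂]; positivity
  have hκ₀0 : 0 < κ₀ := by rw [hκ₀]; positivity
  have hκ₀1 : κ₀ ≤ 1 / 16 := by
    rw [hκ₀]
    apply one_div_le_one_div_of_le (by norm_num)
    linarith only [hC₂0]
  have hL0 : 0 < L := by linarith only [hG1, hLG, hκ₀0, hκ₀1]
  have hR0 : 0 < R := by rw [hR]; positivity
  have hR1 : R ≤ 1 / 600 := by
    rw [hR, div_le_iff₀ hL0]; linarith only [hLG]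
  have hR100 : R ≤ 1 / 100 := by linarith only [hR0, hR1]
  have hLR : L * R = G := by rw [hR]; field_simp
  have hL30 : 30 ≤ Real.log T := by rw [← hL]; linarith only [hG1, hLG, hR0, hR1]
  have hT600 : 600 ≤ T := by
    have h1 := Real.add_one_le_exp (Real.log T)
    rw [Real.exp_log hT0, ← hL] at h1
    linarith only [hG1, hLG, hR0, hR1, h1]
  have ht100 : 100 ≤ t := by linarith only [ht1, hR0, hR1, hT600]
  have hpt0 : pt 0 t = 1 / 2 + t * I := by unfold pt; ring
  rw [hpt0] at n2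
  have hK₁ : ∀ z : ℂ, ‖z - (1 / 2 + t * I)‖ ≤ 6 * R →
      ‖riemannZeta z‖ * m ≤ Real.exp (C₂ * G) := by
    intro z hz
    have h1 := hsup R hR0 hR100 t (z - (1 / 2 + t * I)) hz
    have h2 : (1 / 2 + t * I + (z - (1 / 2 + t * I)) : ℂ) = z := by ring
    rw [h2] at h1
    exact K1_bound CS Cq c₄ G A₁ C₂ (Qf R t) _ m hCS hCq hc₄ hG1.le hA₁ hC₂ (norm_nonneg _)
      hm0.le h1 n1
  have hA₀ : ‖riemannZeta (1 / 2 + t * I)‖ * m ≤ Real.sqrt A₂ := by
    apply Real.le_sqrt_of_sq_le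
    rw [mul_pow]; exact n2
  have hlogt : L / 2 ≤ Real.log (t / 2) := by
    rw [hL]; exact logt_le T t hT0 hL30 ht1
  have hlog2A : 0 ≤ Real.log (2 * A) := Real.log_nonneg (by linarith only [hA1, hR0, hR1])
  have hκ₃0 : 0 < κ₃ := by rw [hκ₃]; positivity
  have hκs1 : 2 * (Real.pi / 2 - φ₀) + 4 * κ₃ + A₃ / A ^ 2 ≤ κ₀ := by
    rw [hκ₃]
    linarith only [hAκ, hφ1, hg3]
  have hκs0 : 0 ≤ 2 * (Real.pi / 2 - φ₀) + 4 * κ₃ + A₃ / A ^ 2 := by
    have : 0 ≤ Real.pi / 2 - φ₀ := by linarith only [hφ1]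
    positivity
  have hκC : κ₀ * (2 * (C₂ * G)) ≤ G / 8 := by
    have h1 : κ₀ * (C₂ + 1) = 1 / 16 := by rw [hκ₀]; field_simp
    have h2 : κ₀ * C₂ ≤ 1 / 16 := by
      have : κ₀ * C₂ ≤ κ₀ * (C₂ + 1) := mul_le_mul_of_nonneg_left (by linarith only [hR0, hR1]) hκ₀0.le
      linarith only [hκ₃, hκ₃0, h1]
    have h3 := mul_le_mul_of_nonneg_right h2 (show 0 ≤ 2 * G by linarith only [hG1, hR0, hR1])
    linarith only [h3]
  have h5 := num5 G R L (Real.log (t / 2)) _ κ₀ (C₂ * G) (Real.log (Real.sqrt A₂))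
    (Real.log (2 * A)) (Real.log (1 / cχ)) X₀ hG1 hR0 hLR hlogt hκs0 hκs1 hκ₀1 (by positivity)
    hκC hlog2A hX₀ hg4
  have hκ1 : 2 * (Real.pi / 2 - φ₀) + 4 * κ₃ + A₃ / A ^ 2 < 1 := by
    have h0 : κ₀ < 1 := lt_of_le_of_lt hκ₀1 (by norm_num)
    exact lt_of_le_of_lt hκs1 h0
  obtain ⟨ρ, hρ0, hρd⟩ := zdet t R m (C₂ * G) (Real.sqrt A₂) A A₃ κ₃ φ₀ cχ (Mo z₀)
    (continuous_Mo z₀) ht100 hR0 hR100 hm0 (by positivity) (Real.sqrt_pos.2 hA₂0) hA1 hA₃0.le
    hκ₃0.le hφ0 hφ1 hcχ0 hcχ1 (chi_conv Cχ cχ hcχ0 hcχC hchi) hK₁ hA₀ n3 n4 hκ1 h5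
  obtain ⟨ρ', r1, r2, r3⟩ := reflect_zero t (6 * R) (by linarith only [hR0, hR1]) ρ hρ0 hρd
  refine ⟨ρ', r1, r2, ?_⟩
  rw [hpt0]
  refine r3.trans (le_of_eq ?_)
  rw [hR]; ring

end Pool.Agent.H14.CO

end

section

/-!
# CO: mean square of the supremum weight, and Chebyshev-type bounds for bad sets
-/

set_option autoImplicit false

namespace Pool.Agent.H14.CO

open Set MeasureTheory Complex

/-- Chebyshev: the `g`-mass of the set where `f > A`. -/
theorem markov_mass (f g : ℝ → ℝ) (a b A M : ℝ) (hf : Measurable f) (hf0 : ∀ t, 0 ≤ f t)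
    (hg : Continuous g) (hg0 : ∀ t, 0 ≤ g t) (hA : 0 < A)
    (hfg : IntegrableOn (fun t => f t * g t) (Icc a b))
    (hM : ∫ t in Icc a b, f t * g t ≤ M) :
    ∫ t in Icc a b ∩ {t | A < f t}, g t ≤ M / A := by
  have hms : MeasurableSet {t | A < f t} := measurableSet_lt measurable_const hf
  have hgi : IntegrableOn g (Icc a b) := hg.continuousOn.integrableOn_Icc
  rw [le_div_iff₀ hA]
  calc (∫ t in Icc a b ∩ {t | A < f t}, g t) * A
      = ∫ t in Icc a b ∩ {t | A < f t}, A * g t := by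
        rw [integral_const_mul]; ring
    _ ≤ ∫ t in Icc a b ∩ {t | A < f t}, f t * g t := by
        apply setIntegral_mono_on ((hgi.mono_set inter_subset_left).const_mul A)
          (hfg.mono_set inter_subset_left) (measurableSet_Icc.inter hms)
        intro t ht
        exact mul_le_mul_of_nonneg_right ht.2.le (hg0 t)
    _ ≤ ∫ t in Icc a b, f t * g t := by
        apply setIntegral_mono_set hfg
        · exact Filter.Eventually.of_forall fun t => mul_nonneg (hf0 t) (hg0 t)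
        · exact Filter.Eventually.of_forall fun t ht => ht.1
    _ ≤ M := hM

theorem gw_lower (τ W t : ℝ) (hW : 0 < W) (ht : t ∈ Icc (τ - W) (τ + W)) :
    Real.exp (-1) ≤ gw τ W t := by
  unfold gw
  apply Real.exp_le_exp.2
  have h1 : |(t - τ) / W| ≤ 1 := by
    rw [abs_div, abs_of_pos hW, div_le_one hW, abs_le]
    constructor <;> linarith only [ht, ht.1, ht.2]
  have h2 : ((t - τ) / W) ^ 2 ≤ 1 := by
    rw [← sq_abs]
    exact pow_le_one₀ (abs_nonneg _) h1
  linarith only [h2]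

/-- passing from the Gaussian weight to the interval -/
theorem interval_of_gauss (f : ℝ → ℝ) (hf0 : ∀ t, 0 ≤ f t) (τ W M : ℝ) (hW : 0 < W)
    (hfm : AEStronglyMeasurable f)
    (hi : Integrable (fun t => f t * gw τ W t)) (hM : ∫ t, f t * gw τ W t ≤ M) :
    IntegrableOn f (Icc (τ - W) (τ + W)) ∧ ∫ t in Icc (τ - W) (τ + W), f t ≤ Real.exp 1 * M := by
  have hpt : ∀ t ∈ Icc (τ - W) (τ + W), f t ≤ Real.exp 1 * (f t * gw τ W t) := by
    intro t ht
    have h1 := gw_lower τ W t hW ht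
    have h2 : 1 ≤ Real.exp 1 * gw τ W t := by
      calc (1 : ℝ) = Real.exp 1 * Real.exp (-1) := by rw [← Real.exp_add]; simp
        _ ≤ _ := mul_le_mul_of_nonneg_left h1 (Real.exp_pos _).le
    calc f t = f t * 1 := by ring
      _ ≤ f t * (Real.exp 1 * gw τ W t) := mul_le_mul_of_nonneg_left h2 (hf0 t)
      _ = _ := by ring
  have hi2 : IntegrableOn (fun t => Real.exp 1 * (f t * gw τ W t)) (Icc (τ - W) (τ + W)) :=
    (hi.const_mul _).integrableOn
  have hio : IntegrableOn f (Icc (τ - W) (τ + W)) := by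
    refine hi2.mono' hfm.restrict ?_
    refine (ae_restrict_iff' measurableSet_Icc).2 (Filter.Eventually.of_forall fun t ht => ?_)
    rw [Real.norm_eq_abs, abs_of_nonneg (hf0 t)]
    exact hpt t ht
  refine ⟨hio, ?_⟩
  calc ∫ t in Icc (τ - W) (τ + W), f t
      ≤ ∫ t in Icc (τ - W) (τ + W), Real.exp 1 * (f t * gw τ W t) :=
        setIntegral_mono_on hio hi2 measurableSet_Icc hpt
    _ ≤ ∫ t, Real.exp 1 * (f t * gw τ W t) := by
        apply setIntegral_le_integral (hi.const_mul _)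
        refine Filter.Eventually.of_forall fun t => ?_
        have : 0 ≤ gw τ W t := (Real.exp_pos _).le
        have := hf0 t
        positivity
    _ ≤ _ := by rw [integral_const_mul]; exact mul_le_mul_of_nonneg_left hM (Real.exp_pos _).le

/-- `∫ qk R y (1+|y|/R)^8 (1+|y|)^k dy ≤ C`. -/
theorem qk_moment (k : ℕ) : ∃ C : ℝ, 0 < C ∧ ∀ R : ℝ, 0 < R →
    Integrable (fun y : ℝ => qk R y * ((1 + |y| / R) ^ 8 * (1 + |y|) ^ k)) ∧
    ∫ y : ℝ, qk R y * ((1 + |y| / R) ^ 8 * (1 + |y|) ^ k) ≤ C := by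
  -- bound of the Gaussian factor
  obtain ⟨D, hD⟩ : ∃ D : ℝ, ∀ y : ℝ, (1 + |y|) ^ k * Real.exp (-(y ^ 2) / 2) ≤ D := by
    have hc : Continuous fun x : ℝ => (1 + x) ^ k * Real.exp (-(x ^ 2) / 2) := by fun_prop
    have ht : Filter.Tendsto (fun x : ℝ => (1 + x) ^ k * Real.exp (-(x ^ 2) / 2))
        Filter.atTop (nhds 0) := by
      have h1 : Filter.Tendsto (fun x : ℝ => (1 + x) ^ k * Real.exp (-(1 + x)))
          Filter.atTop (nhds 0) :=
        (Real.tendsto_pow_mul_exp_neg_atTop_nhds_zero k).comp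
          (Filter.tendsto_atTop_add_const_left _ 1 Filter.tendsto_id)
      refine squeeze_zero' ?_ ?_ h1
      · filter_upwards [Filter.eventually_ge_atTop 0] with x hx
        positivity
      · filter_upwards [Filter.eventually_ge_atTop 4] with x hx
        apply mul_le_mul_of_nonneg_left _ (by positivity)
        apply Real.exp_le_exp.2
        nlinarith only [hx]
    obtain ⟨D, hD⟩ : ∃ D : ℝ, ∀ x : ℝ, 0 ≤ x → (1 + x) ^ k * Real.exp (-(x ^ 2) / 2) ≤ D := by
      have h2 := ht.eventually (ge_mem_nhds (zero_lt_one))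
      obtain ⟨X, hX⟩ := Filter.eventually_atTop.1 h2
      obtain ⟨M, hM⟩ := (isCompact_Icc (a := (0 : ℝ)) (b := max X 0)).exists_bound_of_continuousOn
        hc.continuousOn
      refine ⟨max 1 M, fun x hx => ?_⟩
      rcases le_total X x with h | h
      · exact (hX x h).trans (le_max_left _ _)
      · exact ((le_abs_self _).trans (hM x ⟨hx, h.trans (le_max_left _ _)⟩)).trans
          (le_max_right _ _)
    refine ⟨D, fun y => ?_⟩
    have := hD |y| (abs_nonneg y)
    rwa [sq_abs] at this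
  have hD0 : 0 < D := by
    have h0 := hD 0
    rw [abs_zero, add_zero, one_pow, one_mul] at h0
    exact (Real.exp_pos _).trans_le h0
  have hl : Integrable fun y : ℝ => (1 + y ^ 2)⁻¹ := integrable_inv_one_add_sq
  refine ⟨D * Real.pi, by positivity, ?_⟩
  intro R hR
  have hb : ∀ y : ℝ, qk R y * ((1 + |y| / R) ^ 8 * (1 + |y|) ^ k) ≤
      D * (1 / R * (1 + (y / R) ^ 2)⁻¹) := by
    intro y
    have hp : 0 < 1 + |y| / R := by positivity
    have e1 : qk R y * ((1 + |y| / R) ^ 8 * (1 + |y|) ^ k) =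
        1 / R * (((1 + |y| / R) ^ 32)⁻¹ * (1 + |y| / R) ^ 8) *
          ((1 + |y|) ^ k * Real.exp (-(y ^ 2) / 2)) := by
      unfold qk
      generalize (1 + |y|) ^ k = P
      generalize ((1 + |y| / R) ^ 32)⁻¹ = P2
      generalize (1 + |y| / R) ^ 8 = P3
      ring
    have e2 : ((1 + |y| / R) ^ 32)⁻¹ * (1 + |y| / R) ^ 8 ≤ (1 + (y / R) ^ 2)⁻¹ := by
      have e3 : ((1 + |y| / R) ^ 32)⁻¹ * (1 + |y| / R) ^ 8 = ((1 + |y| / R) ^ 24)⁻¹ := by
        have : (1 + |y| / R) ^ 32 = (1 + |y| / R) ^ 24 * (1 + |y| / R) ^ 8 := by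
          rw [← pow_add]
        rw [this, mul_inv, mul_assoc, inv_mul_cancel₀ (by positivity), mul_one]
      rw [e3]
      apply inv_anti₀ (by positivity)
      have e4 : 1 + (y / R) ^ 2 ≤ (1 + |y| / R) ^ 2 := by
        have : (y / R) ^ 2 = (|y| / R) ^ 2 := by rw [div_pow, div_pow, sq_abs]
        rw [this]
        have : 0 ≤ |y| / R := by positivity
        nlinarith only [this]
      refine e4.trans ?_
      apply pow_le_pow_right₀ _ (by norm_num)
      have : 0 ≤ |y| / R := by positivity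
      linarith only [this]
    rw [e1]
    calc _ ≤ 1 / R * (1 + (y / R) ^ 2)⁻¹ * D := by
          apply mul_le_mul (mul_le_mul_of_nonneg_left e2 (by positivity)) (hD y) (by positivity)
            (by positivity)
      _ = _ := by ring
  have hi1 : Integrable fun y : ℝ => D * (1 / R * (1 + (y / R) ^ 2)⁻¹) := by
    apply Integrable.const_mul
    apply Integrable.const_mul
    exact hl.comp_div hR.ne'
  have hi : Integrable (fun y : ℝ => qk R y * ((1 + |y| / R) ^ 8 * (1 + |y|) ^ k)) := by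
    refine hi1.mono' ?_ (Filter.Eventually.of_forall fun y => ?_)
    · have := continuous_qk R hR
      have h2 : Continuous fun y : ℝ => (1 + |y| / R) ^ 8 * (1 + |y|) ^ k := by fun_prop
      exact (this.mul h2).aestronglyMeasurable
    · rw [Real.norm_eq_abs, abs_of_nonneg (mul_nonneg (qk_nonneg R y hR) (by positivity))]
      exact hb y
  refine ⟨hi, ?_⟩
  calc _ ≤ ∫ y : ℝ, D * (1 / R * (1 + (y / R) ^ 2)⁻¹) := integral_mono hi hi1 hb
    _ = _ := by
        rw [integral_const_mul, integral_const_mul,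
          Measure.integral_comp_div (fun x : ℝ => (1 + x ^ 2)⁻¹) R, integral_univ_inv_one_add_sq,
          abs_of_pos hR, smul_eq_mul]
        field_simp

end Pool.Agent.H14.CO

end
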