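import Pool.Agent.H15.TB1.M14
import Pool.Agent.H15.TB1.M15
import Pool.Agent.H15.TB1.M20

/-! The parts of this file: H91.PK.DiA, H91.EHA.SwJ2, H92.EH.Totient, H91.PK.DiB, H91.EHA.ChB, H91.EHA.ChA, H91.EHA.ChC. -/

section

/-!
PK DiA: Λ in one residue class through primitive characters.

Let L = log N, N ≥ 3, 1 ≤ d ≤ N, (N,d) = 1,
  A(d) = ∑_{n ≤ N, d | N - n} Λ(n) W(n),   MW = ∑_{n ≤ N} Λ(n) W(n).
Then |A(d) - MW/φ(d)| ≤ L² + (1/φ(d)) ∑_{χ mod d, χ ≠ 1} |TT N k χ*|, χ* = the primitive character inducing χ.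

Proof.  d | N-n with (N,d)=1 forces (n,d)=1 and n ≡ N; by `DirichletCharacter.sum_char_inv_mul_char_eq`
  A(d) = (1/φ(d)) ∑_χ χ(N)⁻¹ TT N k χ  (|χ(N)⁻¹| ≤ 1).  For χ = 1: TT N k 1 = MW - ∑_{(n,d)>1} Λ(n)W(n).
For every χ: TT N k χ = TT N k χ* - ∑_{(n,d)>1} Λ(n) χ*(n) W(n) (χ(n) = χ*(n) for (n,d)=1:
`DirichletCharacter.primitiveCharacter_apply_of_isCoprime`, and χ(n) = 0 otherwise).
Error: ∑_{n ≤ N, (n,d)>1} Λ(n) W(n) ≤ (4/27) ∑_{q | d} ∑_{j : q^j ≤ N} log q ≤ (4/27) ω(d) L ≤ (4/27)(1.45) L²  ≤ 0.22 L²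
 (0 ≤ W ≤ 4/27 as log n/log N ≤ 1; 2^ω(d) ≤ d ≤ N).  Two such errors.
-/

set_option autoImplicit false

namespace Pool.Agent.H91.PK

open Finset

theorem W_nonneg (N k n : ℕ) : 0 ≤ W N k n := by
  unfold W
  refine mul_nonneg (om_nonneg _) (pow_nonneg (div_nonneg ?_ ?_) _)
  · exact Real.log_natCast_nonneg n
  · exact Real.log_natCast_nonneg N

theorem W_le {N k n : ℕ} (hn : n ≤ N) : W N k n ≤ 4 / 27 := by
  unfold W
  have h1 : (Real.log n / Real.log N) ^ k ≤ 1 := by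
    refine pow_le_one₀ (div_nonneg (Real.log_natCast_nonneg n) (Real.log_natCast_nonneg N)) ?_
    refine div_le_one_of_le₀ ?_ (Real.log_natCast_nonneg N)
    rcases Nat.eq_zero_or_pos n with h | h
    · subst h; simpa using Real.log_natCast_nonneg N
    · exact Real.log_le_log (by exact_mod_cast h) (by exact_mod_cast hn)
  have h0 : 0 ≤ (Real.log n / Real.log N) ^ k :=
    pow_nonneg (div_nonneg (Real.log_natCast_nonneg n) (Real.log_natCast_nonneg N)) _
  calc om ((n : ℝ) / N) * (Real.log n / Real.log N) ^ k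
      ≤ (4 / 27) * 1 := mul_le_mul (om_le _) h1 h0 (by norm_num)
    _ = 4 / 27 := by norm_num

/-- The mass of the `n` not coprime to `d`. -/
noncomputable def DiA_E (N k d : ℕ) : ℝ :=
  ∑ n ∈ (Icc 1 N).filter (fun n => ¬ Nat.Coprime n d), ArithmeticFunction.vonMangoldt n * W N k n

theorem DiA_E_nonneg (N k d : ℕ) : 0 ≤ DiA_E N k d :=
  sum_nonneg fun _ _ => mul_nonneg ArithmeticFunction.vonMangoldt_nonneg (W_nonneg _ _ _)

theorem DiA_omega_le {d : ℕ} (hd : 1 ≤ d) : (d.primeFactors.card : ℝ) * Real.log 2 ≤ Real.log d := by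
  have h1 : 2 ^ d.primeFactors.card ≤ d := by
    calc 2 ^ d.primeFactors.card ≤ ∏ p ∈ d.primeFactors, p :=
          Finset.pow_card_le_prod _ _ _ (fun p hp => (Nat.prime_of_mem_primeFactors hp).two_le)
      _ ≤ d := Nat.le_of_dvd hd (Nat.prod_primeFactors_dvd d)
  have h2 : ((2 : ℝ) ^ d.primeFactors.card) ≤ d := by exact_mod_cast h1
  have h3 := Real.log_le_log (by positivity) h2
  rwa [Real.log_pow] at h3

theorem DiA_psi_noncoprime {N d : ℕ} (hN : 1 ≤ N) (hd : 1 ≤ d) :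
    ∑ n ∈ (Icc 1 N).filter (fun n => ¬ Nat.Coprime n d), ArithmeticFunction.vonMangoldt n
      ≤ (d.primeFactors.card : ℝ) * Real.log N := by
  classical
  have key : ∀ n ∈ (Icc 1 N).filter (fun n => ¬ Nat.Coprime n d),
      ArithmeticFunction.vonMangoldt n ≤ ∑ q ∈ d.primeFactors,
        (if n ∈ (Icc 1 (Nat.log q N)).image (fun j => q ^ j) then
          ArithmeticFunction.vonMangoldt n else 0) := by
    intro n hn
    rw [mem_filter, mem_Icc] at hn
    have hnn : ∀ q ∈ d.primeFactors,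
        0 ≤ (if n ∈ (Icc 1 (Nat.log q N)).image (fun j => q ^ j) then
          ArithmeticFunction.vonMangoldt n else 0) := by
      intro q _
      split_ifs
      · exact ArithmeticFunction.vonMangoldt_nonneg
      · exact le_rfl
    by_cases hp : IsPrimePow n
    · obtain ⟨p, j, hp1, hj, rfl⟩ := hp
      have hpp : p.Prime := Nat.prime_iff.mpr hp1
      have hpd : p ∣ d := by
        by_contra hcon
        exact hn.2 (Nat.Coprime.pow_left _ ((Nat.Prime.coprime_iff_not_dvd hpp).mpr hcon))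
      have hmem : p ∈ d.primeFactors := Nat.mem_primeFactors.mpr ⟨hpp, hpd, by omega⟩
      refine le_trans ?_ (single_le_sum hnn hmem)
      rw [if_pos]
      refine mem_image.mpr ⟨j, ?_, rfl⟩
      rw [mem_Icc]
      exact ⟨hj, (Nat.le_log_iff_pow_le hpp.one_lt (by omega)).mpr hn.1.2⟩
    · rw [ArithmeticFunction.vonMangoldt_eq_zero_iff.mpr hp]
      simp
  calc ∑ n ∈ (Icc 1 N).filter (fun n => ¬ Nat.Coprime n d), ArithmeticFunction.vonMangoldt n
      ≤ ∑ n ∈ (Icc 1 N).filter (fun n => ¬ Nat.Coprime n d), ∑ q ∈ d.primeFactors,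
        (if n ∈ (Icc 1 (Nat.log q N)).image (fun j => q ^ j) then
          ArithmeticFunction.vonMangoldt n else 0) := sum_le_sum key
    _ = ∑ q ∈ d.primeFactors, ∑ n ∈ (Icc 1 N).filter (fun n => ¬ Nat.Coprime n d),
        (if n ∈ (Icc 1 (Nat.log q N)).image (fun j => q ^ j) then
          ArithmeticFunction.vonMangoldt n else 0) := sum_comm
    _ ≤ ∑ q ∈ d.primeFactors, Real.log N := by
        refine sum_le_sum fun q hq => ?_
        have hqp := Nat.prime_of_mem_primeFactors hq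
        rw [← sum_filter]
        calc ∑ n ∈ ((Icc 1 N).filter (fun n => ¬ Nat.Coprime n d)).filter
              (fun n => n ∈ (Icc 1 (Nat.log q N)).image (fun j => q ^ j)),
              ArithmeticFunction.vonMangoldt n
            ≤ ∑ n ∈ (Icc 1 (Nat.log q N)).image (fun j => q ^ j),
              ArithmeticFunction.vonMangoldt n := by
              refine sum_le_sum_of_subset_of_nonneg ?_
                (fun _ _ _ => ArithmeticFunction.vonMangoldt_nonneg)
              intro n hn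
              exact (mem_filter.mp hn).2
          _ = ∑ j ∈ Icc 1 (Nat.log q N), ArithmeticFunction.vonMangoldt (q ^ j) := by
              refine sum_image ?_
              intro a _ b _ hab
              exact Nat.pow_right_injective hqp.two_le hab
          _ = ∑ j ∈ Icc 1 (Nat.log q N), Real.log q := by
              refine sum_congr rfl fun j hj => ?_
              rw [mem_Icc] at hj
              rw [ArithmeticFunction.vonMangoldt_apply_pow (by omega),
                ArithmeticFunction.vonMangoldt_apply_prime hqp]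
          _ = (Nat.log q N : ℝ) * Real.log q := by
              rw [sum_const, Nat.card_Icc, nsmul_eq_mul]
              norm_num
          _ ≤ Real.log N := by
              rw [← Real.log_pow]
              refine Real.log_le_log ?_ ?_
              · have : (0 : ℝ) < q := by exact_mod_cast hqp.pos
                positivity
              · exact_mod_cast Nat.pow_log_le_self q (by omega)
    _ = (d.primeFactors.card : ℝ) * Real.log N := by
        rw [sum_const, nsmul_eq_mul]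

theorem DiA_norm_char_le {m : ℕ} (χ : DirichletCharacter ℂ m) (a : ZMod m) : ‖χ a‖ ≤ 1 :=
  χ.norm_le_one a

/-- values of the primitive character -/
theorem DiA_prim_eq {d n : ℕ} (χ : DirichletCharacter ℂ d) (h : Nat.Coprime n d) :
    χ.primitiveCharacter (n : ZMod χ.conductor) = χ (n : ZMod d) := by
  have h1 : IsCoprime (n : ℤ) (d : ℤ) := Nat.isCoprime_iff_coprime.mpr h
  have h2 := DirichletCharacter.primitiveCharacter_apply_of_isCoprime χ h1
  simpa using h2

theorem DiA_char_zero {d n : ℕ} (χ : DirichletCharacter ℂ d) (h : ¬ Nat.Coprime n d) :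
    χ (n : ZMod d) = 0 := by
  refine χ.map_nonunit ?_
  intro hu
  exact h ((ZMod.isUnit_iff_coprime n d).mp hu)

theorem DiA_TT_sub {N k d : ℕ} (χ : DirichletCharacter ℂ d) :
    ‖TT N k (fun n => χ (n : ZMod d))‖
      ≤ ‖TT N k (fun n => χ.primitiveCharacter (n : ZMod χ.conductor))‖ + DiA_E N k d := by
  have h1 : TT N k (fun n => χ.primitiveCharacter (n : ZMod χ.conductor))
      - TT N k (fun n => χ (n : ZMod d))
      = ∑ n ∈ (Icc 1 N).filter (fun n => ¬ Nat.Coprime n d),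
        ((ArithmeticFunction.vonMangoldt n : ℝ) : ℂ) *
          (χ.primitiveCharacter (n : ZMod χ.conductor) * ((W N k n : ℝ) : ℂ)) := by
    unfold TT
    rw [← sum_sub_distrib, sum_filter]
    refine sum_congr rfl fun n _ => ?_
    by_cases h : Nat.Coprime n d
    · rw [if_neg (not_not.mpr h)]
      simp only [DiA_prim_eq χ h, sub_self]
    · rw [if_pos h]
      simp only [DiA_char_zero χ h, zero_mul, mul_zero, sub_zero]
  have h2 : ‖TT N k (fun n => χ.primitiveCharacter (n : ZMod χ.conductor))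
      - TT N k (fun n => χ (n : ZMod d))‖ ≤ DiA_E N k d := by
    rw [h1]
    refine (norm_sum_le _ _).trans ?_
    refine sum_le_sum fun n _ => ?_
    rw [norm_mul, norm_mul, Complex.norm_real, Complex.norm_real, Real.norm_of_nonneg
      ArithmeticFunction.vonMangoldt_nonneg, Real.norm_of_nonneg (W_nonneg _ _ _)]
    refine mul_le_mul_of_nonneg_left ?_ ArithmeticFunction.vonMangoldt_nonneg
    calc ‖χ.primitiveCharacter (n : ZMod χ.conductor)‖ * W N k n ≤ 1 * W N k n :=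
          mul_le_mul_of_nonneg_right (DiA_norm_char_le _ _) (W_nonneg _ _ _)
      _ = W N k n := one_mul _
  calc ‖TT N k (fun n => χ (n : ZMod d))‖
      = ‖TT N k (fun n => χ.primitiveCharacter (n : ZMod χ.conductor))
        - (TT N k (fun n => χ.primitiveCharacter (n : ZMod χ.conductor))
          - TT N k (fun n => χ (n : ZMod d)))‖ := by congr 1; ring
    _ ≤ _ := (norm_sub_le _ _).trans (by linarith)

end Pool.Agent.H91.PK

end

section

/-!
# The series of `(Λ(n) - 1)(log n)^k` for `|Im s| ≤ 1`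

The series is `(-1)^k G^{(k)}(s)`, `G = -ζ'/ζ - ζ`, and `G` extends to a function analytic in a neighbourhood of
`{1 ≤ Re s ≤ 2, |Im s| ≤ 1}`: `ζ(s) = h(s)/(s-1)` with `h` entire (removable singularity), `h(1) = 1`,
`h ≠ 0` on `Re s ≥ 1` (`riemannZeta_ne_zero_of_one_le_re`), so
`-ζ'/ζ - ζ = -h'/h + 1/(s-1) - h/(s-1) = -h'/h - (h(s)-h(1))/(s-1)`.
A continuous function on a compact set is bounded.
-/

set_option autoImplicit false

namespace Pool.Agent.H91.EHA

open Finset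
open Pool.Agent.H91.PK

/-- The function `Λ - 1` with complex values. -/
private noncomputable def swj2F (n : ℕ) : ℂ := ((Lam n : ℝ) : ℂ) - 1

/-- The analytic continuation of `-ζ'/ζ - ζ`. -/
private noncomputable def swj2G (s : ℂ) : ℂ :=
  -(deriv riemannZeta₁ s / riemannZeta₁ s) - riemannZeta₀ s

private theorem swj2_ne (s : ℂ) (hs : 1 ≤ s.re) : riemannZeta₁ s ≠ 0 := by
  by_cases h1 : s = 1
  · rw [h1, riemannZeta₁_one]
    exact one_ne_zero
  · intro h0
    have h2 := riemannZeta_ne_zero_of_one_le_re hs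
    apply h2
    rw [riemannZeta_eq_inv_sub_mul h1, h0, mul_zero]

private theorem swj2_analytic (s : ℂ) (hs : 1 ≤ s.re) : AnalyticAt ℂ swj2G s := by
  have h1 : AnalyticAt ℂ riemannZeta₁ s := differentiable_riemannZeta₁.analyticAt s
  have h0 : AnalyticAt ℂ riemannZeta₀ s := differentiable_riemannZeta₀.analyticAt s
  exact ((h1.deriv.div h1 (swj2_ne s hs)).neg).sub h0

private theorem swj2_summable (s : ℂ) (hs : 1 < s.re) : LSeriesSummable swj2F s := by
  have h1 : LSeriesSummable (fun n : ℕ => ((ArithmeticFunction.vonMangoldt n : ℝ) : ℂ)) s :=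
    ArithmeticFunction.LSeriesSummable_vonMangoldt hs
  have h2 : LSeriesSummable (1 : ℕ → ℂ) s := LSeriesSummable_one_iff.mpr hs
  exact h1.sub h2

private theorem swj2_eq (s : ℂ) (hs : 1 < s.re) : LSeries swj2F s = swj2G s := by
  have h1 : LSeriesSummable (fun n : ℕ => ((ArithmeticFunction.vonMangoldt n : ℝ) : ℂ)) s :=
    ArithmeticFunction.LSeriesSummable_vonMangoldt hs
  have h2 : LSeriesSummable (1 : ℕ → ℂ) s := LSeriesSummable_one_iff.mpr hs
  have h3 : LSeries swj2F s = LSeries (fun n : ℕ => ((ArithmeticFunction.vonMangoldt n : ℝ) : ℂ)) s -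
      LSeries 1 s := LSeries_sub h1 h2
  have hne : s ≠ 1 := by
    intro h
    rw [h, Complex.one_re] at hs
    exact lt_irrefl _ hs
  have hz1 := swj2_ne s hs.le
  have hs1 : s - 1 ≠ 0 := sub_ne_zero.mpr hne
  rw [h3, ArithmeticFunction.LSeries_vonMangoldt_eq_deriv_riemannZeta_div hs,
    LSeries_one_eq_riemannZeta hs, deriv_riemannZeta_eq_neg_inv_sub_sq_mul_add hne]
  have h4 : riemannZeta s = (s - 1)⁻¹ * riemannZeta₁ s := riemannZeta_eq_inv_sub_mul hne
  have h5 : riemannZeta s = (s - 1)⁻¹ + riemannZeta₀ s := riemannZeta_eq_inv_sub_add hne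
  have h6 : riemannZeta₀ s = (s - 1)⁻¹ * riemannZeta₁ s - (s - 1)⁻¹ := by
    rw [← h4, h5]; ring
  unfold swj2G
  rw [h4, h6]
  field_simp
  ring

private theorem swj2_logMul (k n : ℕ) :
    (LSeries.logMul^[k] swj2F) n = Complex.log n ^ k * swj2F n := by
  induction k generalizing n with
  | zero => simp
  | succ k ih =>
    rw [Function.iterate_succ_apply', LSeries.logMul, ih, pow_succ]
    ring

theorem zetaF_low (k : ℕ) : ∃ C : ℝ, 0 < C ∧ ∀ s : ℂ, 1 < s.re → s.re ≤ 2 → |s.im| ≤ 1 →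
    ‖LSeries (fun n => (((Lam n - 1) * Real.log n ^ k : ℝ) : ℂ)) s‖ ≤ C := by
  have hK : IsCompact ((Set.Icc (1 : ℝ) 2) ×ℂ (Set.Icc (-1 : ℝ) 1)) :=
    isCompact_Icc.reProdIm isCompact_Icc
  have hc : ContinuousOn (iteratedDeriv k swj2G) ((Set.Icc (1 : ℝ) 2) ×ℂ (Set.Icc (-1 : ℝ) 1)) := by
    intro s hs
    rw [iteratedDeriv_eq_iterate]
    exact ((swj2_analytic s hs.1.1).iterated_deriv k).continuousAt.continuousWithinAt
  obtain ⟨B, hB⟩ := hK.exists_bound_of_continuousOn hc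
  refine ⟨|B| + 1, by positivity, fun s h1 h2 h3 => ?_⟩
  have hab : LSeries.abscissaOfAbsConv swj2F ≤ ((1 : ℝ) : EReal) := by
    refine LSeries.abscissaOfAbsConv_le_of_forall_lt_LSeriesSummable fun y hy => ?_
    exact swj2_summable y (by simpa using hy)
  have hab2 : LSeries.abscissaOfAbsConv swj2F < (s.re : EReal) :=
    lt_of_le_of_lt hab (by exact_mod_cast h1)
  have h4 := LSeries_iteratedDeriv (f := swj2F) k hab2
  have h5 : LSeries swj2F =ᶠ[nhds s] swj2G := by
    have ho : IsOpen {z : ℂ | 1 < z.re} := isOpen_lt continuous_const Complex.continuous_re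
    filter_upwards [ho.mem_nhds h1] with z hz
    exact swj2_eq z hz
  rw [h5.iteratedDeriv_eq k] at h4
  have h6 : LSeries (fun n => (((Lam n - 1) * Real.log n ^ k : ℝ) : ℂ)) s =
      LSeries (LSeries.logMul^[k] swj2F) s := by
    refine LSeries_congr (fun {n} _ => ?_) s
    rw [swj2_logMul, Complex.ofReal_mul, Complex.ofReal_pow, Complex.ofReal_log (Nat.cast_nonneg n),
      Complex.ofReal_natCast]
    unfold swj2F
    push_cast
    ring
  have h7 : ‖LSeries (LSeries.logMul^[k] swj2F) s‖ = ‖iteratedDeriv k swj2G s‖ := by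
    rw [h4, norm_mul, norm_pow, norm_neg, norm_one, one_pow, one_mul]
  rw [h6, h7]
  have hs : s ∈ (Set.Icc (1 : ℝ) 2) ×ℂ (Set.Icc (-1 : ℝ) 1) :=
    ⟨⟨h1.le, h2⟩, abs_le.mp h3⟩
  have h8 := hB s hs
  have h9 := le_abs_self B
  linarith

end Pool.Agent.H91.EHA

end

section

/-!
A lower bound for Euler's function in terms of the number of prime factors, and a bound for
that number.
-/

set_option autoImplicit false

namespace Pool.Agent.H92.EH

open Finset

theorem prod_one_sub_inv_ge (S : Finset ℕ) (hS : ∀ p ∈ S, 2 ≤ p) :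
    (1 : ℝ) / (S.card + 1) ≤ ∏ p ∈ S, (1 - (p : ℝ)⁻¹) := by
  induction S using Finset.induction_on_max with
  | empty => simp
  | insert a s hmax ih =>
    have ha : a ∉ s := fun h => lt_irrefl _ (hmax a h)
    rw [prod_insert ha, card_insert_of_notMem ha]
    have h1 := ih (fun p hp => hS p (mem_insert_of_mem hp))
    -- `a ≥ card s + 2`
    have h2 : s.card + 2 ≤ a := by
      have hsub : s ⊆ Ico 2 a := by
        intro p hp
        rw [mem_Ico]
        exact ⟨hS p (mem_insert_of_mem hp), hmax p hp⟩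
      have h3 := card_le_card hsub
      rw [Nat.card_Ico] at h3
      have h4 := hS a (mem_insert_self _ _)
      omega
    have h2' : ((s.card : ℝ) + 2) ≤ a := by exact_mod_cast h2
    have hc : (0 : ℝ) ≤ s.card := by positivity
    have h5 : (1 : ℝ) - ((s.card : ℝ) + 2)⁻¹ ≤ 1 - (a : ℝ)⁻¹ := by
      have : (a : ℝ)⁻¹ ≤ ((s.card : ℝ) + 2)⁻¹ := inv_anti₀ (by positivity) h2'
      linarith only [this]
    have h6 : (1 : ℝ) - ((s.card : ℝ) + 2)⁻¹ = ((s.card : ℝ) + 1) / (s.card + 2) := by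
      field_simp
      ring
    have h7 : (0 : ℝ) ≤ ((s.card : ℝ) + 1) / (s.card + 2) := by positivity
    push_cast
    calc (1 : ℝ) / ((s.card : ℝ) + 1 + 1)
        = (((s.card : ℝ) + 1) / (s.card + 2)) * (1 / (s.card + 1)) := by
          field_simp
          ring
      _ ≤ (1 - (a : ℝ)⁻¹) * ∏ p ∈ s, (1 - (p : ℝ)⁻¹) := by
          rw [← h6] at h7
          apply mul_le_mul (by rw [← h6]; exact h5) h1 (by positivity) (h7.trans h5)

theorem le_totient_mul (q : ℕ) :
    (q : ℝ) ≤ Nat.totient q * (q.primeFactors.card + 1) := by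
  have h1 : (Nat.totient q : ℝ) = q * ∏ p ∈ q.primeFactors, (1 - (p : ℝ)⁻¹) := by
    have := Nat.totient_eq_mul_prod_factors q
    have h2 : ((Nat.totient q : ℚ) : ℝ) = ((q * ∏ p ∈ q.primeFactors, (1 - (p : ℚ)⁻¹) : ℚ) : ℝ) := by
      rw [this]
    push_cast at h2
    exact h2
  have h3 := prod_one_sub_inv_ge q.primeFactors (fun p hp => (Nat.prime_of_mem_primeFactors hp).two_le)
  rw [h1]
  have hc : (0 : ℝ) < (q.primeFactors.card : ℝ) + 1 := by positivity
  rw [div_le_iff₀ hc] at h3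
  have hq : (0 : ℝ) ≤ q := by positivity
  nlinarith only [h3]

theorem card_primeFactors_le (q : ℕ) : q.primeFactors.card ≤ Nat.log 2 q := by
  rcases Nat.eq_zero_or_pos q with rfl | hq
  · simp
  · apply Nat.le_log_of_pow_le (by norm_num)
    calc 2 ^ q.primeFactors.card ≤ ∏ p ∈ q.primeFactors, p := by
          rw [← prod_const]
          exact prod_le_prod' fun p hp => (Nat.prime_of_mem_primeFactors hp).two_le
      _ ≤ q := Nat.le_of_dvd hq (Nat.prod_primeFactors_dvd q)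

end Pool.Agent.H92.EH

end

section

/-!
PK DiB: reorganising the sum over moduli (products of primes of a finite set P) by conductor.

For a nonnegative function F(r, χ) of (modulus, character) and D : ℕ
 ∑_{T ⊆ P, ∏T ≤ D} (1/φ(∏T)) ∑_{χ mod ∏T, χ ≠ 1} F(cond χ, χ*) ≤ G ∑_{1<r≤D, r | ∏P} (1/φ(r)) ∑_{χ ∈ Pch r} F(r, χ),
 G = ∏_{p∈P} (1 + 1/(p-1)).
Proof.  d = ∏T is squarefree.  For fixed d the map χ ↦ (cond χ, χ*) is injective (χ = changeLevel χ*), its image
consists of pairs (r, χ') with r | d, r > 1 (as χ ≠ 1: `DirichletCharacter.eq_one_iff_conductor_eq_one`), χ' primitive.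
So the inner sum is ≤ ∑_{r | d, r>1} ∑_{χ'∈Pch r} F(r,χ').  r | ∏T means r = ∏T' with T' ⊆ T (r squarefree, T' = primeFactors r);
1/φ(∏T) = (1/φ(r)) (1/φ(∏(T∖T'))), and ∑_{T ⊇ T'} 1/φ(∏(T∖T')) ≤ ∑_{T'' ⊆ P} ∏_{p∈T''} 1/(p-1) = G.
-/

set_option autoImplicit false

namespace Pool.Agent.H91.PK

open Finset

theorem DiB_level (d : ℕ) (hd : d ≠ 0)
    (F : (r : ℕ) → DirichletCharacter ℂ r → ℝ) (hF : ∀ r χ, 0 ≤ F r χ) :
    ∑ χ ∈ Nch d, F χ.conductor χ.primitiveCharacter ≤
      ∑ r ∈ d.divisors.filter (fun r => 1 < r), ∑ χ ∈ Pch r, F r χ := by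
  classical
  have : NeZero d := ⟨hd⟩
  obtain ⟨i, hi⟩ : ∃ i : DirichletCharacter ℂ d → (Σ r : ℕ, DirichletCharacter ℂ r),
      ∀ χ, i χ = ⟨χ.conductor, χ.primitiveCharacter⟩ := ⟨_, fun _ => rfl⟩
  have haux : ∀ x y : (Σ r : ℕ, DirichletCharacter ℂ r), x = y → ∀ (hx : x.1 ∣ d) (hy : y.1 ∣ d),
      DirichletCharacter.changeLevel hx x.2 = DirichletCharacter.changeLevel hy y.2 := by
    rintro x _ rfl hx hy
    rfl
  have hinj : Set.InjOn i (Nch d : Finset (DirichletCharacter ℂ d)) := by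
    intro χ _ ψ _ h
    rw [hi, hi] at h
    have := haux _ _ h χ.conductor_dvd_level ψ.conductor_dvd_level
    rw [DirichletCharacter.changeLevel_primitiveCharacter,
      DirichletCharacter.changeLevel_primitiveCharacter] at this
    exact this
  have h1 : ∑ χ ∈ Nch d, F χ.conductor χ.primitiveCharacter =
      ∑ x ∈ (Nch d).image i, F x.1 x.2 := by
    rw [sum_image hinj]
    refine sum_congr rfl ?_
    intro χ _
    rw [hi]
  rw [h1, sum_sigma']
  refine sum_le_sum_of_subset_of_nonneg ?_ (fun x _ _ => hF x.1 x.2)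
  intro x hx
  rw [mem_image] at hx
  obtain ⟨χ, hχ, rfl⟩ := hx
  rw [mem_Nch] at hχ
  rw [hi, mem_sigma, mem_filter, Nat.mem_divisors, mem_Pch]
  refine ⟨⟨⟨χ.conductor_dvd_level, hd⟩, ?_⟩, χ.primitiveCharacter_isPrimitive⟩
  have h0 := χ.conductor_ne_zero
  have h1 : χ.conductor ≠ 1 := fun h => hχ (DirichletCharacter.eq_one_iff_conductor_eq_one.2 h)
  show 1 < χ.conductor
  omega

end Pool.Agent.H91.PK

end

section

/-!
# Passing to primitive characters and summing over the moduli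

For `χ` mod `q` induced by the primitive `χ* = χ.primitiveCharacter` mod `χ.conductor`, `TT N 0 χ` and `TT N 0 χ*`
differ by at most `∑_{n ≤ N, (n,q)>1} Λ(n) ≤ log N · log₂ q` (`DiA_TT_sub`, `DiA_psi_noncoprime`; a bound
`C (1+log N)(1+log Q)` is enough).
`∑_{q ∈ (Q,2Q], c | q} 1/φ(q) ≤ (1/φ(c)) ∑_{m ≤ 2Q/c} 1/φ(m) ≤ (1/φ(c)) (1+log(2Q))²` since
`φ(cm) ≥ φ(c)φ(m)`, `1/φ(m) ≤ τ(m)/m`.  For fixed `q` the characters `χ ≠ 1` mod `q` correspond injectively to pairs
(conductor `c | q`, `c > 1`, primitive character mod `c`) (`DiB_level` in `PK/DiB.lean`).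
The correction terms: `∑_q (1/φ(q)) φ(q) C(1+log N)(1+log Q)`.
-/

set_option autoImplicit false

namespace Pool.Agent.H91.EHA

open Finset
open Pool.Agent.H91.PK

/-- `1/φ(m) ≤ τ(m)/m` -/
theorem chB_inv_totient_le {m : ℕ} (hm : 1 ≤ m) :
    1 / (m.totient : ℝ) ≤ ∑ d ∈ m.divisors, 1 / (m : ℝ) := by
  have h1 : m ≤ m.divisors.card * m.totient := by
    calc m = ∑ d ∈ m.divisors, d.totient := (Nat.sum_totient m).symm
      _ ≤ ∑ d ∈ m.divisors, m.totient := by
          refine sum_le_sum fun d hd => ?_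
          exact Nat.le_of_dvd (Nat.totient_pos.mpr hm)
            (Nat.totient_dvd_of_dvd (Nat.dvd_of_mem_divisors hd))
      _ = m.divisors.card * m.totient := by rw [sum_const, smul_eq_mul]
  have h2 : (m : ℝ) ≤ (m.divisors.card : ℝ) * (m.totient : ℝ) := by exact_mod_cast h1
  have hφ : (0 : ℝ) < m.totient := by exact_mod_cast Nat.totient_pos.mpr hm
  have hm0 : (0 : ℝ) < m := by exact_mod_cast hm
  rw [sum_const, nsmul_eq_mul, mul_one_div, div_le_div_iff₀ hφ hm0, one_mul]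
  exact h2

/-- sum over multiples -/
theorem chB_sum_multiples (M c : ℕ) (hc : 1 ≤ c) (f : ℕ → ℝ) (hf : ∀ m, 0 ≤ f m) :
    ∑ q ∈ (Icc 1 M).filter (fun q => c ∣ q), f (q / c) ≤ ∑ m ∈ Icc 1 M, f m := by
  have hinj : Set.InjOn (fun q : ℕ => q / c)
      ((Icc 1 M).filter (fun q => c ∣ q) : Finset ℕ) := by
    intro a ha b hb hab
    have ha' := (mem_filter.mp (mem_coe.mp ha)).2
    have hb' := (mem_filter.mp (mem_coe.mp hb)).2
    have hab' : a / c = b / c := hab
    rw [← Nat.div_mul_cancel ha', ← Nat.div_mul_cancel hb', hab']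
  rw [← sum_image (s := (Icc 1 M).filter (fun q => c ∣ q)) (g := fun q : ℕ => q / c)
    (f := f) hinj]
  refine sum_le_sum_of_subset_of_nonneg ?_ (fun m _ _ => hf m)
  intro m hm
  rw [mem_image] at hm
  obtain ⟨q, hq, rfl⟩ := hm
  rw [mem_filter, mem_Icc] at hq
  rw [mem_Icc]
  refine ⟨Nat.div_pos (Nat.le_of_dvd (by omega) hq.2) hc, ?_⟩
  exact (Nat.div_le_self q c).trans hq.1.2

theorem chB_harm (M : ℕ) : ∑ d ∈ Icc 1 M, 1 / (d : ℝ) ≤ 1 + Real.log M := by
  have h := harmonic_le_one_add_log M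
  rw [harmonic_eq_sum_Icc] at h
  push_cast at h
  simpa only [one_div] using h

/-- `∑_{m ≤ M} 1/φ(m) ≤ (1+log M)²` -/
theorem chB_sum_inv_totient (M : ℕ) :
    ∑ m ∈ Icc 1 M, 1 / (m.totient : ℝ) ≤ (1 + Real.log M) ^ 2 := by
  have h0 : 0 ≤ ∑ d ∈ Icc 1 M, 1 / (d : ℝ) := sum_nonneg fun d _ => by positivity
  calc ∑ m ∈ Icc 1 M, 1 / (m.totient : ℝ)
      ≤ ∑ m ∈ Icc 1 M, ∑ d ∈ m.divisors, 1 / (m : ℝ) := by
        refine sum_le_sum fun m hm => chB_inv_totient_le (mem_Icc.mp hm).1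
    _ ≤ ∑ m ∈ Icc 1 M, ∑ d ∈ (Icc 1 M).filter (fun d => d ∣ m),
          (1 / (d : ℝ)) * (1 / ((m / d : ℕ) : ℝ)) := by
        refine sum_le_sum fun m hm => ?_
        have hm' := mem_Icc.mp hm
        have hset : m.divisors = (Icc 1 M).filter (fun d => d ∣ m) := by
          ext d
          rw [Nat.mem_divisors, mem_filter, mem_Icc]
          constructor
          · rintro ⟨h1, h2⟩
            exact ⟨⟨Nat.pos_of_dvd_of_pos h1 hm'.1, (Nat.le_of_dvd hm'.1 h1).trans hm'.2⟩, h1⟩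
          · rintro ⟨_, h2⟩
            exact ⟨h2, by omega⟩
        rw [← hset]
        refine sum_le_sum fun d hd => ?_
        have hdm := Nat.dvd_of_mem_divisors hd
        have hd0 : (0 : ℝ) < d := by exact_mod_cast Nat.pos_of_dvd_of_pos hdm hm'.1
        rw [Nat.cast_div hdm hd0.ne']
        have hm0 : (0 : ℝ) < m := by exact_mod_cast hm'.1
        apply le_of_eq
        field_simp
    _ = ∑ d ∈ Icc 1 M, (1 / (d : ℝ)) *
          ∑ m ∈ (Icc 1 M).filter (fun m => d ∣ m), 1 / ((m / d : ℕ) : ℝ) := by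
        simp only [sum_filter]
        rw [sum_comm]
        refine sum_congr rfl fun d _ => ?_
        rw [mul_sum]
        refine sum_congr rfl fun m _ => ?_
        split_ifs
        · rfl
        · rw [mul_zero]
    _ ≤ ∑ d ∈ Icc 1 M, (1 / (d : ℝ)) * ∑ m ∈ Icc 1 M, 1 / (m : ℝ) := by
        refine sum_le_sum fun d hd => ?_
        refine mul_le_mul_of_nonneg_left ?_ (by positivity)
        exact chB_sum_multiples M d (mem_Icc.mp hd).1 (fun m => 1 / (m : ℝ))
          (fun m => by positivity)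
    _ = (∑ d ∈ Icc 1 M, 1 / (d : ℝ)) ^ 2 := by rw [← sum_mul, sq]
    _ ≤ (1 + Real.log M) ^ 2 := pow_le_pow_left₀ h0 (chB_harm M) 2

theorem chB_log_two_mul {Q : ℕ} (hQ : 1 ≤ Q) : 1 + Real.log (2 * Q : ℕ) ≤ 2 * (1 + Real.log Q) := by
  have hQ0 : (0 : ℝ) < Q := by exact_mod_cast hQ
  have h1 : (0 : ℝ) ≤ Real.log Q := Real.log_natCast_nonneg Q
  have h2 : Real.log (2 * Q : ℕ) = Real.log 2 + Real.log Q := by
    push_cast
    exact Real.log_mul (by norm_num) hQ0.ne'
  have h3 : Real.log 2 ≤ 1 := by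
    have := Real.log_two_lt_d9
    linarith only [this]
  rw [h2]
  linarith only [h1, h3]

/-- sum over the moduli which are multiples of `r` -/
theorem chB_moduli (Q r : ℕ) (hr : 1 ≤ r) :
    ∑ q ∈ (Ioc Q (2 * Q)).filter (fun q => r ∣ q), 1 / (q.totient : ℝ) ≤
      (1 / (r.totient : ℝ)) * ∑ m ∈ Icc 1 (2 * Q), 1 / (m.totient : ℝ) := by
  have hφr : (0 : ℝ) < r.totient := by exact_mod_cast Nat.totient_pos.mpr hr
  calc ∑ q ∈ (Ioc Q (2 * Q)).filter (fun q => r ∣ q), 1 / (q.totient : ℝ)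
      ≤ ∑ q ∈ (Icc 1 (2 * Q)).filter (fun q => r ∣ q), 1 / (q.totient : ℝ) := by
        refine sum_le_sum_of_subset_of_nonneg ?_ (fun q _ _ => by positivity)
        intro q hq
        rw [mem_filter, mem_Ioc] at hq
        rw [mem_filter, mem_Icc]
        exact ⟨⟨by omega, hq.1.2⟩, hq.2⟩
    _ ≤ ∑ q ∈ (Icc 1 (2 * Q)).filter (fun q => r ∣ q),
          (1 / (r.totient : ℝ)) * (1 / ((q / r).totient : ℝ)) := by
        refine sum_le_sum fun q hq => ?_
        rw [mem_filter, mem_Icc] at hq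
        have hqr : 0 < q / r := Nat.div_pos (Nat.le_of_dvd (by omega) hq.2) hr
        have h1 : (0 : ℝ) < (q / r).totient := by exact_mod_cast Nat.totient_pos.mpr hqr
        have h2 : r.totient * (q / r).totient ≤ q.totient := by
          have := Nat.totient_super_multiplicative r (q / r)
          rwa [Nat.mul_div_cancel' hq.2] at this
        have h3 : (r.totient : ℝ) * ((q / r).totient : ℝ) ≤ q.totient := by exact_mod_cast h2
        rw [one_div_mul_one_div]
        exact one_div_le_one_div_of_le (by positivity) h3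
    _ = (1 / (r.totient : ℝ)) *
          ∑ q ∈ (Icc 1 (2 * Q)).filter (fun q => r ∣ q), 1 / ((q / r).totient : ℝ) := by
        rw [mul_sum]
    _ ≤ _ := by
        refine mul_le_mul_of_nonneg_left ?_ (by positivity)
        exact chB_sum_multiples (2 * Q) r hr (fun m => 1 / (m.totient : ℝ))
          (fun m => by positivity)

/-- reorganising the sum over the moduli by conductor -/
theorem chB_reorg (Q : ℕ) (hQ : 1 ≤ Q)
    (F : (r : ℕ) → DirichletCharacter ℂ r → ℝ) (hF : ∀ r χ, 0 ≤ F r χ) :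
    ∑ q ∈ Ioc Q (2 * Q), (1 / (q.totient : ℝ)) * ∑ χ ∈ Nch q, F χ.conductor χ.primitiveCharacter
      ≤ 4 * (1 + Real.log Q) ^ 2 *
        ∑ r ∈ Ioc 1 (2 * Q), (1 / (r.totient : ℝ)) * ∑ χ ∈ Pch r, F r χ := by
  obtain ⟨S, hS⟩ : ∃ S : ℕ → ℝ, ∀ r, S r = ∑ χ ∈ Pch r, F r χ := ⟨_, fun _ => rfl⟩
  have hS0 : ∀ r, 0 ≤ S r := fun r => by
    rw [hS]
    exact sum_nonneg fun χ _ => hF r χ
  obtain ⟨G, hG⟩ : ∃ G : ℝ, G = ∑ m ∈ Icc 1 (2 * Q), 1 / (m.totient : ℝ) := ⟨_, rfl⟩
  have hG4 : G ≤ 4 * (1 + Real.log Q) ^ 2 := by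
    rw [hG]
    refine (chB_sum_inv_totient (2 * Q)).trans ?_
    have h1 := chB_log_two_mul hQ
    have h2 : (0 : ℝ) ≤ 1 + Real.log (2 * Q : ℕ) := by
      have := Real.log_natCast_nonneg (2 * Q)
      linarith only [this]
    calc (1 + Real.log (2 * Q : ℕ)) ^ 2 ≤ (2 * (1 + Real.log Q)) ^ 2 := pow_le_pow_left₀ h2 h1 2
      _ = 4 * (1 + Real.log Q) ^ 2 := by ring
  calc ∑ q ∈ Ioc Q (2 * Q), (1 / (q.totient : ℝ)) * ∑ χ ∈ Nch q, F χ.conductor χ.primitiveCharacter
      ≤ ∑ q ∈ Ioc Q (2 * Q), (1 / (q.totient : ℝ)) *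
          ∑ r ∈ (Ioc 1 (2 * Q)).filter (fun r => r ∣ q), S r := by
        refine sum_le_sum fun q hq => ?_
        rw [mem_Ioc] at hq
        refine mul_le_mul_of_nonneg_left ?_ (by positivity)
        have h1 := DiB_level q (by omega) F hF
        have hset : q.divisors.filter (fun r => 1 < r) =
            (Ioc 1 (2 * Q)).filter (fun r => r ∣ q) := by
          ext r
          rw [mem_filter, Nat.mem_divisors, mem_filter, mem_Ioc]
          constructor
          · rintro ⟨⟨h1, h2⟩, h3⟩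
            exact ⟨⟨h3, (Nat.le_of_dvd (by omega) h1).trans hq.2⟩, h1⟩
          · rintro ⟨⟨h1, h2⟩, h3⟩
            exact ⟨⟨h3, by omega⟩, h1⟩
        rw [hset] at h1
        refine h1.trans (le_of_eq (sum_congr rfl fun r _ => (hS r).symm))
    _ = ∑ r ∈ Ioc 1 (2 * Q), S r *
          ∑ q ∈ (Ioc Q (2 * Q)).filter (fun q => r ∣ q), 1 / (q.totient : ℝ) := by
        simp only [sum_filter, mul_sum]
        rw [sum_comm]
        refine sum_congr rfl fun r _ => sum_congr rfl fun q _ => ?_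
        split_ifs
        · rw [mul_comm]
        · rw [mul_zero, mul_zero]
    _ ≤ ∑ r ∈ Ioc 1 (2 * Q), S r * ((1 / (r.totient : ℝ)) * G) := by
        refine sum_le_sum fun r hr => ?_
        rw [mem_Ioc] at hr
        refine mul_le_mul_of_nonneg_left ?_ (hS0 r)
        rw [hG]
        exact chB_moduli Q r (by omega)
    _ = G * ∑ r ∈ Ioc 1 (2 * Q), (1 / (r.totient : ℝ)) * ∑ χ ∈ Pch r, F r χ := by
        rw [mul_sum]
        refine sum_congr rfl fun r _ => ?_
        rw [← hS]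
        ring
    _ ≤ _ := by
        refine mul_le_mul_of_nonneg_right hG4 (sum_nonneg fun r _ => ?_)
        rw [← hS]
        exact mul_nonneg (by positivity) (hS0 r)

/-- the error in passing to the primitive character -/
theorem chB_E_le {N Q q : ℕ} (hN : 1 ≤ N) (hQ : 1 ≤ Q) (hq1 : 1 ≤ q) (hq : q ≤ 2 * Q) :
    DiA_E N 0 q ≤ 2 * (1 + Real.log N) * (1 + Real.log Q) := by
  have hLN : 0 ≤ Real.log N := Real.log_natCast_nonneg N
  have hLQ : 0 ≤ Real.log Q := Real.log_natCast_nonneg Q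
  have h1 : DiA_E N 0 q ≤ (4 / 27) * ((q.primeFactors.card : ℝ) * Real.log N) := by
    calc DiA_E N 0 q ≤ ∑ n ∈ (Icc 1 N).filter (fun n => ¬ Nat.Coprime n q),
          (4 / 27) * ArithmeticFunction.vonMangoldt n := by
          refine sum_le_sum fun n hn => ?_
          rw [mem_filter, mem_Icc] at hn
          rw [mul_comm]
          exact mul_le_mul_of_nonneg_right (W_le hn.1.2) ArithmeticFunction.vonMangoldt_nonneg
      _ = (4 / 27) * ∑ n ∈ (Icc 1 N).filter (fun n => ¬ Nat.Coprime n q),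
          ArithmeticFunction.vonMangoldt n := by rw [mul_sum]
      _ ≤ _ := mul_le_mul_of_nonneg_left (DiA_psi_noncoprime hN hq1) (by norm_num)
  have h2 := DiA_omega_le hq1
  have h3 : Real.log q ≤ Real.log (2 * Q : ℕ) :=
    Real.log_le_log (by exact_mod_cast hq1) (by exact_mod_cast hq)
  have h4 : (0.6931471803 : ℝ) < Real.log 2 := Real.log_two_gt_d9
  have h5 : (0 : ℝ) ≤ q.primeFactors.card := Nat.cast_nonneg _
  have h6 := chB_log_two_mul hQ
  have h7 : (q.primeFactors.card : ℝ) * (1 / 2) ≤ 2 * (1 + Real.log Q) := by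
    have h8 : (q.primeFactors.card : ℝ) * (1 / 2) ≤ (q.primeFactors.card : ℝ) * Real.log 2 :=
      mul_le_mul_of_nonneg_left (by linarith only [h4]) h5
    linarith only [h2, h3, h6, h8]
  have h8 : (q.primeFactors.card : ℝ) ≤ 4 * (1 + Real.log Q) := by linarith only [h7]
  have h9 : (q.primeFactors.card : ℝ) * Real.log N ≤ 4 * (1 + Real.log Q) * (1 + Real.log N) :=
    mul_le_mul h8 (by linarith only []) hLN (by positivity)
  have h10 : 0 ≤ (1 + Real.log Q) * (1 + Real.log N) := by positivity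
  calc DiA_E N 0 q ≤ (4 / 27) * ((q.primeFactors.card : ℝ) * Real.log N) := h1
    _ ≤ (4 / 27) * (4 * (1 + Real.log Q) * (1 + Real.log N)) :=
        mul_le_mul_of_nonneg_left h9 (by norm_num)
    _ = (16 / 27) * ((1 + Real.log Q) * (1 + Real.log N)) := by ring
    _ ≤ 2 * ((1 + Real.log Q) * (1 + Real.log N)) := mul_le_mul_of_nonneg_right (by norm_num) h10
    _ = 2 * (1 + Real.log N) * (1 + Real.log Q) := by ring

theorem chB_card {q : ℕ} (hq : 1 ≤ q) : ((Nch q).card : ℝ) ≤ q.totient := by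
  classical
  have : NeZero q := ⟨by omega⟩
  have h1 : (Nch q).card ≤ Fintype.card (DirichletCharacter ℂ q) := card_le_univ _
  rw [← Nat.card_eq_fintype_card,
      DirichletCharacter.card_eq_totient_of_hasEnoughRootsOfUnity ℂ q] at h1
  exact_mod_cast h1

/-- the total contribution of the correction terms -/
theorem chB_err (Q : ℕ) (e : ℕ → ℝ) (B : ℝ) (hB : 0 ≤ B)
    (he : ∀ q ∈ Ioc Q (2 * Q), e q ≤ B)
    (X : (q : ℕ) → Finset (DirichletCharacter ℂ q)) (hX : ∀ q, X q ⊆ Nch q) :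
    ∑ q ∈ Ioc Q (2 * Q), (1 / (q.totient : ℝ)) * ∑ _χ ∈ X q, e q ≤ Q * B := by
  calc ∑ q ∈ Ioc Q (2 * Q), (1 / (q.totient : ℝ)) * ∑ _χ ∈ X q, e q
      ≤ ∑ q ∈ Ioc Q (2 * Q), B := by
        refine sum_le_sum fun q hq => ?_
        have hq1 : 1 ≤ q := by rw [mem_Ioc] at hq; omega
        have hφ : (0 : ℝ) < q.totient := by exact_mod_cast Nat.totient_pos.mpr hq1
        have h1 : ∑ _χ ∈ X q, e q ≤ (q.totient : ℝ) * B := by
          rw [sum_const, nsmul_eq_mul]
          calc ((X q).card : ℝ) * e q ≤ ((X q).card : ℝ) * B :=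
                mul_le_mul_of_nonneg_left (he q hq) (Nat.cast_nonneg _)
            _ ≤ (q.totient : ℝ) * B := by
                refine mul_le_mul_of_nonneg_right ?_ hB
                refine le_trans ?_ (chB_card hq1)
                exact_mod_cast card_le_card (hX q)
        calc (1 / (q.totient : ℝ)) * ∑ _χ ∈ X q, e q
            ≤ (1 / (q.totient : ℝ)) * ((q.totient : ℝ) * B) :=
              mul_le_mul_of_nonneg_left h1 (by positivity)
          _ = B := by field_simp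
    _ = Q * B := by
        rw [sum_const, Nat.card_Ioc, nsmul_eq_mul]
        congr 2
        omega

theorem sum_small_cond : ∃ C : ℝ, 0 < C ∧ ∀ N Q D : ℕ, 1 ≤ N → 1 ≤ Q → 1 ≤ D →
    ∑ q ∈ Ioc Q (2 * Q), (1 / (q.totient : ℝ)) *
        ∑ χ ∈ (Nch q).filter (fun χ => χ.conductor ≤ D), ‖TT N 0 (fun n => χ (n : ZMod q))‖
      ≤ C * (1 + Real.log Q) ^ 2 * (∑ c ∈ Ioc 1 D, (1 / (c.totient : ℝ)) *
            ∑ ψ ∈ Pch c, ‖TT N 0 (fun n => ψ (n : ZMod c))‖)
        + C * Q * (1 + Real.log N) * (1 + Real.log Q) := by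
  refine ⟨4, by norm_num, ?_⟩
  intro N Q D hN hQ hD
  have hLN : 0 ≤ Real.log N := Real.log_natCast_nonneg N
  have hLQ : 0 ≤ Real.log Q := Real.log_natCast_nonneg Q
  obtain ⟨F, hFd⟩ : ∃ F : (r : ℕ) → DirichletCharacter ℂ r → ℝ, ∀ r χ, F r χ =
      if r ≤ D then ‖TT N 0 (fun n => χ (n : ZMod r))‖ else 0 := ⟨_, fun _ _ => rfl⟩
  have hF : ∀ r χ, 0 ≤ F r χ := by
    intro r χ
    rw [hFd]
    split_ifs
    · exact norm_nonneg _
    · exact le_rfl
  have hB : 0 ≤ 2 * (1 + Real.log N) * (1 + Real.log Q) := by positivity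
  have hmain := chB_reorg Q hQ F hF
  have herr := chB_err Q (fun q => DiA_E N 0 q) (2 * (1 + Real.log N) * (1 + Real.log Q)) hB
    (fun q hq => chB_E_le hN hQ (by rw [mem_Ioc] at hq; omega) (by rw [mem_Ioc] at hq; omega))
    (fun q => (Nch q).filter (fun χ => χ.conductor ≤ D)) (fun q => filter_subset _ _)
  have hsum : ∑ r ∈ Ioc 1 (2 * Q), (1 / (r.totient : ℝ)) * ∑ χ ∈ Pch r, F r χ ≤
      ∑ c ∈ Ioc 1 D, (1 / (c.totient : ℝ)) *
            ∑ ψ ∈ Pch c, ‖TT N 0 (fun n => ψ (n : ZMod c))‖ := by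
    calc ∑ r ∈ Ioc 1 (2 * Q), (1 / (r.totient : ℝ)) * ∑ χ ∈ Pch r, F r χ
        = ∑ r ∈ (Ioc 1 (2 * Q)).filter (fun r => r ≤ D), (1 / (r.totient : ℝ)) *
            ∑ ψ ∈ Pch r, ‖TT N 0 (fun n => ψ (n : ZMod r))‖ := by
          rw [sum_filter]
          refine sum_congr rfl fun r _ => ?_
          simp only [hFd]
          split_ifs
          · rfl
          · rw [sum_const_zero, mul_zero]
      _ ≤ _ := by
          refine sum_le_sum_of_subset_of_nonneg ?_ (fun r _ _ =>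
            mul_nonneg (by positivity) (sum_nonneg fun ψ _ => norm_nonneg _))
          intro r hr
          rw [mem_filter, mem_Ioc] at hr
          rw [mem_Ioc]
          exact ⟨hr.1.1, hr.2⟩
  calc ∑ q ∈ Ioc Q (2 * Q), (1 / (q.totient : ℝ)) *
        ∑ χ ∈ (Nch q).filter (fun χ => χ.conductor ≤ D), ‖TT N 0 (fun n => χ (n : ZMod q))‖
      ≤ ∑ q ∈ Ioc Q (2 * Q), ((1 / (q.totient : ℝ)) *
          ∑ χ ∈ Nch q, F χ.conductor χ.primitiveCharacter + (1 / (q.totient : ℝ)) *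
          ∑ _χ ∈ (Nch q).filter (fun χ => χ.conductor ≤ D), DiA_E N 0 q) := by
        refine sum_le_sum fun q _ => ?_
        rw [← mul_add]
        refine mul_le_mul_of_nonneg_left ?_ (by positivity)
        calc ∑ χ ∈ (Nch q).filter (fun χ => χ.conductor ≤ D), ‖TT N 0 (fun n => χ (n : ZMod q))‖
            ≤ ∑ χ ∈ (Nch q).filter (fun χ => χ.conductor ≤ D),
                (F χ.conductor χ.primitiveCharacter + DiA_E N 0 q) := by
              refine sum_le_sum fun χ hχ => ?_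
              rw [mem_filter] at hχ
              rw [hFd, if_pos hχ.2]
              exact DiA_TT_sub χ
          _ = ∑ χ ∈ (Nch q).filter (fun χ => χ.conductor ≤ D), F χ.conductor χ.primitiveCharacter
                + ∑ _χ ∈ (Nch q).filter (fun χ => χ.conductor ≤ D), DiA_E N 0 q := by
              rw [sum_add_distrib]
          _ ≤ _ := by
              refine add_le_add ?_ le_rfl
              exact sum_le_sum_of_subset_of_nonneg (filter_subset _ _) (fun χ _ _ => hF _ _)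
    _ = (∑ q ∈ Ioc Q (2 * Q), (1 / (q.totient : ℝ)) *
          ∑ χ ∈ Nch q, F χ.conductor χ.primitiveCharacter) +
        ∑ q ∈ Ioc Q (2 * Q), (1 / (q.totient : ℝ)) *
          ∑ _χ ∈ (Nch q).filter (fun χ => χ.conductor ≤ D), DiA_E N 0 q := by
        rw [sum_add_distrib]
    _ ≤ 4 * (1 + Real.log Q) ^ 2 *
          (∑ r ∈ Ioc 1 (2 * Q), (1 / (r.totient : ℝ)) * ∑ χ ∈ Pch r, F r χ) +
        Q * (2 * (1 + Real.log N) * (1 + Real.log Q)) := add_le_add hmain herr
    _ ≤ 4 * (1 + Real.log Q) ^ 2 * (∑ c ∈ Ioc 1 D, (1 / (c.totient : ℝ)) *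
            ∑ ψ ∈ Pch c, ‖TT N 0 (fun n => ψ (n : ZMod c))‖)
        + 4 * Q * (1 + Real.log N) * (1 + Real.log Q) := by
        refine add_le_add (mul_le_mul_of_nonneg_left hsum (by positivity)) ?_
        have h1 : 0 ≤ (Q : ℝ) * ((1 + Real.log N) * (1 + Real.log Q)) := by positivity
        calc (Q : ℝ) * (2 * (1 + Real.log N) * (1 + Real.log Q))
            = 2 * ((Q : ℝ) * ((1 + Real.log N) * (1 + Real.log Q))) := by ring
          _ ≤ 4 * ((Q : ℝ) * ((1 + Real.log N) * (1 + Real.log Q))) :=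
              mul_le_mul_of_nonneg_right (by norm_num) h1
          _ = 4 * Q * (1 + Real.log N) * (1 + Real.log Q) := by ring

theorem sum_large_cond : ∃ C : ℝ, 0 < C ∧ ∀ N Q D : ℕ, 1 ≤ N → 1 ≤ Q → 1 ≤ D →
    ∑ q ∈ Ioc Q (2 * Q), (1 / (q.totient : ℝ)) *
        ∑ χ ∈ (Nch q).filter (fun χ => D < χ.conductor), ‖TT N 0 (fun n => χ (n : ZMod q))‖ ^ 2
      ≤ C * (1 + Real.log Q) ^ 2 * (∑ c ∈ Ioc D (2 * Q), (1 / (c.totient : ℝ)) *
            ∑ ψ ∈ Pch c, ‖TT N 0 (fun n => ψ (n : ZMod c))‖ ^ 2)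
        + C * Q * (1 + Real.log N) ^ 2 * (1 + Real.log Q) ^ 2 := by
  refine ⟨8, by norm_num, ?_⟩
  intro N Q D hN hQ hD
  have hLN : 0 ≤ Real.log N := Real.log_natCast_nonneg N
  have hLQ : 0 ≤ Real.log Q := Real.log_natCast_nonneg Q
  obtain ⟨F, hFd⟩ : ∃ F : (r : ℕ) → DirichletCharacter ℂ r → ℝ, ∀ r χ, F r χ =
      if D < r then 2 * ‖TT N 0 (fun n => χ (n : ZMod r))‖ ^ 2 else 0 := ⟨_, fun _ _ => rfl⟩
  have hF : ∀ r χ, 0 ≤ F r χ := by
    intro r χ
    rw [hFd]
    split_ifs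
    · positivity
    · exact le_rfl
  have hB : 0 ≤ 2 * (2 * (1 + Real.log N) * (1 + Real.log Q)) ^ 2 := by positivity
  have hmain := chB_reorg Q hQ F hF
  have herr := chB_err Q (fun q => 2 * (DiA_E N 0 q) ^ 2)
    (2 * (2 * (1 + Real.log N) * (1 + Real.log Q)) ^ 2) hB
    (fun q hq => by
      rw [mem_Ioc] at hq
      exact mul_le_mul_of_nonneg_left (pow_le_pow_left₀ (DiA_E_nonneg _ _ _)
        (chB_E_le hN hQ (by omega) (by omega)) 2) (by norm_num))
    (fun q => (Nch q).filter (fun χ => D < χ.conductor)) (fun q => filter_subset _ _)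
  have hsum : ∑ r ∈ Ioc 1 (2 * Q), (1 / (r.totient : ℝ)) * ∑ χ ∈ Pch r, F r χ ≤
      2 * ∑ c ∈ Ioc D (2 * Q), (1 / (c.totient : ℝ)) *
            ∑ ψ ∈ Pch c, ‖TT N 0 (fun n => ψ (n : ZMod c))‖ ^ 2 := by
    calc ∑ r ∈ Ioc 1 (2 * Q), (1 / (r.totient : ℝ)) * ∑ χ ∈ Pch r, F r χ
        = ∑ r ∈ (Ioc 1 (2 * Q)).filter (fun r => D < r), 2 * ((1 / (r.totient : ℝ)) *
            ∑ ψ ∈ Pch r, ‖TT N 0 (fun n => ψ (n : ZMod r))‖ ^ 2) := by
          rw [sum_filter]
          refine sum_congr rfl fun r _ => ?_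
          simp only [hFd]
          split_ifs
          · rw [← mul_sum]
            ring
          · rw [sum_const_zero, mul_zero]
      _ ≤ ∑ c ∈ Ioc D (2 * Q), 2 * ((1 / (c.totient : ℝ)) *
            ∑ ψ ∈ Pch c, ‖TT N 0 (fun n => ψ (n : ZMod c))‖ ^ 2) := by
          refine sum_le_sum_of_subset_of_nonneg ?_ (fun r _ _ =>
            mul_nonneg (by norm_num) (mul_nonneg (by positivity)
              (sum_nonneg fun ψ _ => by positivity)))
          intro r hr
          rw [mem_filter, mem_Ioc] at hr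
          rw [mem_Ioc]
          exact ⟨hr.2, hr.1.2⟩
      _ = _ := by rw [mul_sum]
  calc ∑ q ∈ Ioc Q (2 * Q), (1 / (q.totient : ℝ)) *
        ∑ χ ∈ (Nch q).filter (fun χ => D < χ.conductor), ‖TT N 0 (fun n => χ (n : ZMod q))‖ ^ 2
      ≤ ∑ q ∈ Ioc Q (2 * Q), ((1 / (q.totient : ℝ)) *
          ∑ χ ∈ Nch q, F χ.conductor χ.primitiveCharacter + (1 / (q.totient : ℝ)) *
          ∑ _χ ∈ (Nch q).filter (fun χ => D < χ.conductor), 2 * (DiA_E N 0 q) ^ 2) := by
        refine sum_le_sum fun q _ => ?_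
        rw [← mul_add]
        refine mul_le_mul_of_nonneg_left ?_ (by positivity)
        calc ∑ χ ∈ (Nch q).filter (fun χ => D < χ.conductor),
              ‖TT N 0 (fun n => χ (n : ZMod q))‖ ^ 2
            ≤ ∑ χ ∈ (Nch q).filter (fun χ => D < χ.conductor),
                (F χ.conductor χ.primitiveCharacter + 2 * (DiA_E N 0 q) ^ 2) := by
              refine sum_le_sum fun χ hχ => ?_
              rw [mem_filter] at hχ
              rw [hFd, if_pos hχ.2]
              have h1 := DiA_TT_sub (N := N) (k := 0) χ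
              have h2 := pow_le_pow_left₀ (norm_nonneg _) h1 2
              refine h2.trans ?_
              have h3 : ∀ x y : ℝ, (x + y) ^ 2 ≤ 2 * x ^ 2 + 2 * y ^ 2 := by
                intro x y
                have := sq_nonneg (x - y)
                linarith only [this]
              exact h3 _ _
          _ = ∑ χ ∈ (Nch q).filter (fun χ => D < χ.conductor), F χ.conductor χ.primitiveCharacter
                + ∑ _χ ∈ (Nch q).filter (fun χ => D < χ.conductor), 2 * (DiA_E N 0 q) ^ 2 := by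
              rw [sum_add_distrib]
          _ ≤ _ := by
              refine add_le_add ?_ le_rfl
              exact sum_le_sum_of_subset_of_nonneg (filter_subset _ _) (fun χ _ _ => hF _ _)
    _ = (∑ q ∈ Ioc Q (2 * Q), (1 / (q.totient : ℝ)) *
          ∑ χ ∈ Nch q, F χ.conductor χ.primitiveCharacter) +
        ∑ q ∈ Ioc Q (2 * Q), (1 / (q.totient : ℝ)) *
          ∑ _χ ∈ (Nch q).filter (fun χ => D < χ.conductor), 2 * (DiA_E N 0 q) ^ 2 := by
        rw [sum_add_distrib]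
    _ ≤ 4 * (1 + Real.log Q) ^ 2 *
          (∑ r ∈ Ioc 1 (2 * Q), (1 / (r.totient : ℝ)) * ∑ χ ∈ Pch r, F r χ) +
        Q * (2 * (2 * (1 + Real.log N) * (1 + Real.log Q)) ^ 2) := add_le_add hmain herr
    _ ≤ 4 * (1 + Real.log Q) ^ 2 *
          (2 * ∑ c ∈ Ioc D (2 * Q), (1 / (c.totient : ℝ)) *
            ∑ ψ ∈ Pch c, ‖TT N 0 (fun n => ψ (n : ZMod c))‖ ^ 2) +
        Q * (2 * (2 * (1 + Real.log N) * (1 + Real.log Q)) ^ 2) :=
        add_le_add (mul_le_mul_of_nonneg_left hsum (by positivity)) le_rfl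
    _ = 8 * (1 + Real.log Q) ^ 2 * (∑ c ∈ Ioc D (2 * Q), (1 / (c.totient : ℝ)) *
            ∑ ψ ∈ Pch c, ‖TT N 0 (fun n => ψ (n : ZMod c))‖ ^ 2)
        + 8 * Q * (1 + Real.log N) ^ 2 * (1 + Real.log Q) ^ 2 := by ring

end Pool.Agent.H91.EHA

end

section

/-!
# Character expansion of `Eom`

Orthogonality (see `DiA_orth`, `DiA_TT_one` in `PK/DiA.lean` for the case `a = N`); `W N 0 n = om(n/N)`.
-/

set_option autoImplicit false

namespace Pool.Agent.H91.EHA

open Finset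
open Pool.Agent.H91.PK

theorem cha_inv_apply {q : ℕ} (χ : DirichletCharacter ℂ q) {x : ZMod q} (hx : IsUnit x) :
    χ⁻¹ x = χ x⁻¹ := by
  obtain ⟨u, rfl⟩ := hx
  rw [MulChar.inv_apply, Ring.inverse_unit, ZMod.inv_coe_unit]

theorem cha_zero {q n : ℕ} (χ : DirichletCharacter ℂ q) (h : ¬ Nat.Coprime n q) :
    χ (n : ZMod q) = 0 := by
  refine χ.map_nonunit ?_
  intro hu
  exact h ((ZMod.isUnit_iff_coprime n q).mp hu)

theorem cha_one {q n : ℕ} (h : Nat.Coprime n q) :
    (1 : DirichletCharacter ℂ q) (n : ZMod q) = 1 :=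
  MulChar.one_apply ((ZMod.isUnit_iff_coprime n q).mpr h)

theorem cha_TT (N : ℕ) (f : ℕ → ℂ) :
    TT N 0 f = ∑ n ∈ Icc 1 N, f n * ((Lam n * om ((n : ℝ) / N) : ℝ) : ℂ) := by
  unfold TT
  refine sum_congr rfl fun n _ => ?_
  unfold W Lam
  rw [pow_zero, mul_one]
  push_cast
  ring

theorem Eom_eq (N q a : ℕ) (hq : 1 ≤ q) (ha : Nat.Coprime a q) :
    ((Eom N q a : ℝ) : ℂ) = (1 / (q.totient : ℂ)) * ∑ χ ∈ Nch q,
      χ⁻¹ (a : ZMod q) * TT N 0 (fun n => χ (n : ZMod q)) := by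
  classical
  have : NeZero q := ⟨by omega⟩
  have hu : IsUnit (a : ZMod q) := (ZMod.isUnit_iff_coprime a q).mpr ha
  have hphi : (q.totient : ℂ) ≠ 0 := by
    have := Nat.totient_pos.2 (show 0 < q by omega)
    exact_mod_cast this.ne'
  have hall : ∑ χ : DirichletCharacter ℂ q,
      χ⁻¹ (a : ZMod q) * TT N 0 (fun n => χ (n : ZMod q)) =
      (q.totient : ℂ) * ((∑ n ∈ (Icc 1 N).filter (fun n => n ≡ a [MOD q]),
        Lam n * om ((n : ℝ) / N) : ℝ) : ℂ) := by
    simp only [cha_TT, mul_sum]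
    rw [sum_comm, Complex.ofReal_sum, mul_sum, sum_filter]
    refine sum_congr rfl fun n _ => ?_
    have h1 : ∀ χ : DirichletCharacter ℂ q,
        χ⁻¹ (a : ZMod q) * (χ (n : ZMod q) * ((Lam n * om ((n : ℝ) / N) : ℝ) : ℂ)) =
        (χ ((a : ZMod q)⁻¹) * χ (n : ZMod q)) * ((Lam n * om ((n : ℝ) / N) : ℝ) : ℂ) := by
      intro χ
      rw [cha_inv_apply χ hu]
      ring
    simp only [h1]
    rw [← sum_mul, DirichletCharacter.sum_char_inv_mul_char_eq ℂ hu]
    have hiff : ((a : ZMod q) = (n : ZMod q)) ↔ n ≡ a [MOD q] := by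
      rw [eq_comm, ZMod.natCast_eq_natCast_iff]
    by_cases h : n ≡ a [MOD q]
    · rw [if_pos h, if_pos (hiff.mpr h)]
    · rw [if_neg h, if_neg (fun h' => h (hiff.mp h'))]
      simp
  have hone : TT N 0 (fun n => (1 : DirichletCharacter ℂ q) (n : ZMod q)) =
      ((∑ n ∈ (Icc 1 N).filter (fun n => Nat.Coprime n q), Lam n * om ((n : ℝ) / N) : ℝ) : ℂ) := by
    rw [cha_TT, Complex.ofReal_sum, sum_filter]
    refine sum_congr rfl fun n _ => ?_
    by_cases h : Nat.Coprime n q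
    · rw [if_pos h, cha_one h, one_mul]
    · rw [if_neg h, cha_zero _ h, zero_mul]
  have hNch : Nch q = univ.erase 1 := by
    ext χ
    rw [mem_Nch]
    simp
  have h1a : (1 : DirichletCharacter ℂ q)⁻¹ (a : ZMod q) = 1 := by
    rw [inv_one]
    exact cha_one ha
  rw [← Finset.add_sum_erase univ _ (mem_univ (1 : DirichletCharacter ℂ q)), ← hNch, h1a,
    one_mul, hone] at hall
  unfold Eom
  rw [Complex.ofReal_sub, Complex.ofReal_mul]
  have h2 := eq_sub_of_add_eq' hall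
  rw [h2]
  push_cast
  field_simp

theorem cha_sum_range {q : ℕ} [NeZero q] (F : ZMod q → ℂ)
    (hF : ∀ a : ℕ, ¬ Nat.Coprime a q → F (a : ZMod q) = 0) :
    ∑ a ∈ (range q).filter (fun a => Nat.Coprime a q), F (a : ZMod q) = ∑ x : ZMod q, F x := by
  rw [sum_filter]
  have h1 : ∑ a ∈ range q, (if Nat.Coprime a q then F (a : ZMod q) else 0) =
      ∑ a ∈ range q, F (a : ZMod q) := by
    refine sum_congr rfl fun a _ => ?_
    split_ifs with h
    · rfl
    · exact (hF a h).symm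
  rw [h1]
  refine Finset.sum_bij' (fun a _ => (a : ZMod q)) (fun x _ => x.val) (fun _ _ => mem_univ _)
    (fun x _ => mem_range.2 (ZMod.val_lt x)) (fun a ha => ZMod.val_cast_of_lt (mem_range.1 ha))
    (fun x _ => ZMod.natCast_zmod_val x) (fun _ _ => rfl)

open Classical in
theorem cha_orth {q : ℕ} (hq : 1 ≤ q) (χ ψ : DirichletCharacter ℂ q) :
    ∑ a ∈ (range q).filter (fun a => Nat.Coprime a q),
      χ⁻¹ (a : ZMod q) * (starRingEnd ℂ) (ψ⁻¹ (a : ZMod q)) =
      if χ = ψ then (q.totient : ℂ) else 0 := by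
  have : NeZero q := ⟨by omega⟩
  have hs : ∀ x : ZMod q, (starRingEnd ℂ) (ψ⁻¹ x) = ψ x := by
    intro x
    have h1 : star (ψ⁻¹) = (ψ⁻¹)⁻¹ := MulChar.star_eq_inv ψ⁻¹
    rw [inv_inv] at h1
    have h2 : (star (ψ⁻¹)) x = star (ψ⁻¹ x) := rfl
    rw [h1] at h2
    exact h2.symm
  have h3 : ∀ a : ℕ, χ⁻¹ (a : ZMod q) * (starRingEnd ℂ) (ψ⁻¹ (a : ZMod q)) =
      (fun x : ZMod q => (χ⁻¹ * ψ) x) (a : ZMod q) := by
    intro a
    rw [hs]
    rfl
  simp only [h3]
  rw [cha_sum_range (fun x : ZMod q => (χ⁻¹ * ψ) x) (fun a ha => cha_zero _ ha)]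
  split_ifs with h
  · subst h
    rw [inv_mul_cancel, MulChar.sum_one_eq_card_units, ZMod.card_units_eq_totient]
  · refine MulChar.sum_eq_zero_of_ne_one ?_
    intro h'
    exact h (inv_mul_eq_one.1 h')

/-- orthogonality in mean square, for any set of characters -/
theorem char_msq (q : ℕ) (hq : 1 ≤ q) (X : Finset (DirichletCharacter ℂ q))
    (T : DirichletCharacter ℂ q → ℂ) :
    ∑ a ∈ (range q).filter (fun a => Nat.Coprime a q),
        ‖(1 / (q.totient : ℂ)) * ∑ χ ∈ X, χ⁻¹ (a : ZMod q) * T χ‖ ^ 2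
      = (1 / (q.totient : ℝ)) * ∑ χ ∈ X, ‖T χ‖ ^ 2 := by
  classical
  have hphi : (q.totient : ℂ) ≠ 0 := by
    have := Nat.totient_pos.2 (show 0 < q by omega)
    exact_mod_cast this.ne'
  have hsq : ∀ z : ℂ, ((‖z‖ ^ 2 : ℝ) : ℂ) = z * (starRingEnd ℂ) z := by
    intro z
    rw [Complex.mul_conj, Complex.normSq_eq_norm_sq]
  apply Complex.ofReal_injective
  push_cast
  have e1 : ∀ a : ℕ, ((‖(1 / (q.totient : ℂ)) * ∑ χ ∈ X, χ⁻¹ (a : ZMod q) * T χ‖ : ℝ) : ℂ) ^ 2 =
      (1 / (q.totient : ℂ)) ^ 2 * ∑ χ ∈ X, ∑ ψ ∈ X, (T χ * (starRingEnd ℂ) (T ψ)) *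
        (χ⁻¹ (a : ZMod q) * (starRingEnd ℂ) (ψ⁻¹ (a : ZMod q))) := by
    intro a
    have h1 := hsq ((1 / (q.totient : ℂ)) * ∑ χ ∈ X, χ⁻¹ (a : ZMod q) * T χ)
    rw [Complex.ofReal_pow] at h1
    rw [h1, map_mul, map_sum]
    have h2 : (starRingEnd ℂ) (1 / (q.totient : ℂ)) = 1 / (q.totient : ℂ) := by
      rw [map_div₀, map_one, map_natCast]
    rw [h2]
    have h3 : (∑ χ ∈ X, χ⁻¹ (a : ZMod q) * T χ) *
        (∑ ψ ∈ X, (starRingEnd ℂ) (ψ⁻¹ (a : ZMod q) * T ψ)) =
        ∑ χ ∈ X, ∑ ψ ∈ X, (T χ * (starRingEnd ℂ) (T ψ)) *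
          (χ⁻¹ (a : ZMod q) * (starRingEnd ℂ) (ψ⁻¹ (a : ZMod q))) := by
      rw [sum_mul_sum]
      refine sum_congr rfl fun χ _ => sum_congr rfl fun ψ _ => ?_
      rw [map_mul]
      ring
    rw [← h3]
    ring
  simp only [e1]
  rw [← mul_sum, sum_comm]
  have e2 : ∀ χ ∈ X, ∑ a ∈ (range q).filter (fun a => Nat.Coprime a q), ∑ ψ ∈ X,
      (T χ * (starRingEnd ℂ) (T ψ)) * (χ⁻¹ (a : ZMod q) * (starRingEnd ℂ) (ψ⁻¹ (a : ZMod q))) =
      (q.totient : ℂ) * ((‖T χ‖ : ℝ) : ℂ) ^ 2 := by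
    intro χ hχ
    rw [sum_comm]
    simp only [← mul_sum, cha_orth hq]
    simp only [mul_ite, mul_zero]
    rw [Finset.sum_ite_eq, if_pos hχ]
    have h1 := hsq (T χ)
    rw [Complex.ofReal_pow] at h1
    rw [h1]
    ring
  rw [sum_congr rfl e2, ← mul_sum]
  field_simp

end Pool.Agent.H91.EHA

end

section

/-!
# Large conductors in mean square

`mult_ls` (PK/LSm.lean) on dyadic ranges `c ∈ (2^i D, 2^{i+1} D]`: `1/φ(c) ≤ (1/(2^i D)) c/φ(c)`,
`∑_{n≤N} (Λ(n) om(n/N))² ≤ N (log N)²`.  Sum over `i` with `2^i D ≤ 2Q`: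
`∑_i (1/(2^i D))((2^{i+1}D)² + πN) ≤ 16 Q·... + 2πN/D`.
-/

set_option autoImplicit false

namespace Pool.Agent.H91.EHA

open Finset
open Pool.Agent.H91.PK

private theorem chC_om (t : ℝ) : 0 ≤ om t ∧ om t ≤ 1 := by
  unfold om
  split_ifs with h
  · obtain ⟨h0, h1⟩ := h
    have h2 : (1 - t) ^ 2 ≤ 1 := by nlinarith only [h0, h1]
    refine ⟨by positivity, ?_⟩
    calc t * (1 - t) ^ 2 ≤ 1 * 1 := mul_le_mul h1 h2 (by positivity) (by norm_num)
      _ = 1 := by norm_num
  · exact ⟨le_refl 0, by norm_num⟩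

/-- Partial summation. -/
private theorem chC_abel (u : ℕ → ℝ) (B P : ℝ) (hB : 0 ≤ B) (hP : 0 ≤ P) (D : ℕ)
    (hu : ∀ M, D ≤ M → ∑ c ∈ Ioc D M, u c ≤ ((M : ℝ) ^ 2 + P) * B) (M : ℕ) (hM : D ≤ M) :
    ∑ c ∈ Ioc D M, u c / c ≤ (∑ c ∈ Ioc D M, u c) / (M + 1) + B * (M - D) +
      P * B * (1 / (D + 1) - 1 / (M + 1)) := by
  induction M, hM using Nat.le_induction with
  | base => simp
  | succ M hM ih =>
    rw [Finset.sum_Ioc_succ_top (by omega), Finset.sum_Ioc_succ_top (by omega)]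
    have h1 := hu (M + 1) (by omega)
    rw [Finset.sum_Ioc_succ_top (by omega)] at h1
    set G := ∑ c ∈ Ioc D M, u c with hG
    push_cast at h1 ⊢
    have hM1 : (0 : ℝ) < (M : ℝ) + 1 := by positivity
    have hM2 : (0 : ℝ) < (M : ℝ) + 1 + 1 := by positivity
    have e1 : G / (M + 1) + u (M + 1) / (M + 1) =
        (G + u (M + 1)) / (M + 1 + 1) + (G + u (M + 1)) / ((M + 1) * (M + 1 + 1)) := by
      field_simp
    have e2 : (G + u (M + 1)) / (((M : ℝ) + 1) * (M + 1 + 1)) ≤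
        B + P * B * (1 / (M + 1) - 1 / (M + 1 + 1)) := by
      rw [div_le_iff₀ (by positivity)]
      have e3 : (B + P * B * (1 / ((M : ℝ) + 1) - 1 / (M + 1 + 1))) *
          ((M + 1) * (M + 1 + 1)) = B * ((M + 1) * (M + 1 + 1)) + P * B := by
        field_simp
        ring
      rw [e3]
      have e4 : B * ((M : ℝ) + 1) ^ 2 ≤ B * ((M + 1) * (M + 1 + 1)) := by
        apply mul_le_mul_of_nonneg_left _ hB
        nlinarith only []
      nlinarith only [h1, e4]
    have e5 : P * B * (1 / ((D : ℝ) + 1) - 1 / (M + 1 + 1)) =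
        P * B * (1 / (D + 1) - 1 / (M + 1)) + P * B * (1 / (M + 1) - 1 / (M + 1 + 1)) := by ring
    rw [e5]
    linarith only [ih, e1, e2]

theorem large_msq : ∃ C : ℝ, 0 < C ∧ ∀ N Q D : ℕ, 1 ≤ N → 1 ≤ Q → 1 ≤ D →
    ∑ c ∈ Ioc D (2 * Q), (1 / (c.totient : ℝ)) * ∑ ψ ∈ Pch c,
        ‖TT N 0 (fun n => ψ (n : ZMod c))‖ ^ 2
      ≤ C * ((N : ℝ) / D + Q) * N * (1 + Real.log N) ^ 2 := by
  refine ⟨8, by norm_num, ?_⟩
  intro N Q D hN hQ hD
  have hN' : (1 : ℝ) ≤ N := by exact_mod_cast hN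
  have hD' : (1 : ℝ) ≤ D := by exact_mod_cast hD
  have hlog : 0 ≤ Real.log N := Real.log_nonneg hN'
  set a : ℕ → ℂ := fun n =>
    (((ArithmeticFunction.vonMangoldt n * om ((n : ℝ) / N) : ℝ)) : ℂ) with ha
  have hT : ∀ c : ℕ, ∀ ψ : DirichletCharacter ℂ c, TT N 0 (fun n => ψ (n : ZMod c)) =
      ∑ n ∈ Ioc 0 (0 + N), a n * ψ (n : ZMod c) := by
    intro c ψ
    unfold TT
    have hI : Icc 1 N = Ioc 0 (0 + N) := by
      ext n
      simp only [Finset.mem_Icc, Finset.mem_Ioc]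
      omega
    rw [hI]
    refine Finset.sum_congr rfl fun n _ => ?_
    simp only [W, ha, pow_zero, mul_one]
    push_cast
    ring
  set B : ℝ := ∑ n ∈ Ioc 0 (0 + N), ‖a n‖ ^ 2 with hBd
  have hB0 : 0 ≤ B := Finset.sum_nonneg fun n _ => by positivity
  have hB1 : B ≤ N * (1 + Real.log N) ^ 2 := by
    have h1 : ∀ n ∈ Ioc 0 (0 + N), ‖a n‖ ^ 2 ≤ (1 + Real.log N) ^ 2 := by
      intro n hn
      rw [Finset.mem_Ioc] at hn
      have hn1 : (1 : ℝ) ≤ n := by exact_mod_cast hn.1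
      have hn2 : (n : ℝ) ≤ N := by
        have : n ≤ N := by omega
        exact_mod_cast this
      have h2 : ArithmeticFunction.vonMangoldt n ≤ Real.log N :=
        ArithmeticFunction.vonMangoldt_le_log.trans (Real.log_le_log (by linarith only [hn1]) hn2)
      have h3 : 0 ≤ ArithmeticFunction.vonMangoldt n := ArithmeticFunction.vonMangoldt_nonneg
      have h4 := chC_om ((n : ℝ) / N)
      have h5 : ‖a n‖ = ArithmeticFunction.vonMangoldt n * om ((n : ℝ) / N) := by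
        simp only [ha]
        rw [Complex.norm_real, Real.norm_of_nonneg (mul_nonneg h3 h4.1)]
      have h6 : ‖a n‖ ≤ 1 + Real.log N := by
        rw [h5]
        calc ArithmeticFunction.vonMangoldt n * om ((n : ℝ) / N)
            ≤ Real.log N * 1 := mul_le_mul h2 h4.2 h4.1 hlog
          _ ≤ 1 + Real.log N := by linarith only []
      exact pow_le_pow_left₀ (norm_nonneg _) h6 2
    calc B ≤ ∑ n ∈ Ioc 0 (0 + N), (1 + Real.log N) ^ 2 := Finset.sum_le_sum h1
      _ = N * (1 + Real.log N) ^ 2 := by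
        rw [Finset.sum_const, nsmul_eq_mul, Nat.card_Ioc]
        simp
  set g : ℕ → ℝ := fun c => ∑ ψ ∈ Pch c, ‖TT N 0 (fun n => ψ (n : ZMod c))‖ ^ 2 with hg
  have hg0 : ∀ c, 0 ≤ g c := fun c => Finset.sum_nonneg fun ψ _ => by positivity
  set u : ℕ → ℝ := fun c => ((c : ℝ) / c.totient) * g c with hu
  have hu0 : ∀ c, 0 ≤ u c := fun c => mul_nonneg (by positivity) (hg0 c)
  have hS : ∀ M, ∑ c ∈ Icc 1 M, u c ≤ ((M : ℝ) ^ 2 + Real.pi * N) * B := by
    intro M
    have h1 := mult_ls M 0 N a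
    simp only [hu, hg, hT]
    exact h1
  have hS' : ∀ M, D ≤ M → ∑ c ∈ Ioc D M, u c ≤ ((M : ℝ) ^ 2 + Real.pi * N) * B := by
    intro M _
    refine (Finset.sum_le_sum_of_subset_of_nonneg ?_ fun c _ _ => hu0 c).trans (hS M)
    intro c hc
    rw [Finset.mem_Ioc] at hc
    rw [Finset.mem_Icc]
    omega
  have hterm : ∀ c ∈ Ioc D (2 * Q), (1 / (c.totient : ℝ)) * g c = u c / c := by
    intro c hc
    rw [Finset.mem_Ioc] at hc
    have hc0 : (c : ℝ) ≠ 0 := by
      have : c ≠ 0 := by omega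
      exact_mod_cast this
    have hφ : (c.totient : ℝ) ≠ 0 := by
      have : 0 < c.totient := Nat.totient_pos.2 (by omega)
      positivity
    simp only [hu]
    field_simp
  rw [Finset.sum_congr rfl hterm]
  have hpi := Real.pi_pos
  have hpi4 := Real.pi_le_four
  have hR0 : 0 ≤ 8 * ((N : ℝ) / D + Q) * N * (1 + Real.log N) ^ 2 := by positivity
  by_cases hDQ : D ≤ 2 * Q
  · have h1 := chC_abel u B (Real.pi * N) hB0 (by positivity) D hS' (2 * Q) hDQ
    have h2 := hS' (2 * Q) hDQ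
    push_cast at h1 h2
    have hM1 : (0 : ℝ) < 2 * (Q : ℝ) + 1 := by positivity
    have hDQ' : (D : ℝ) ≤ 2 * Q := by exact_mod_cast hDQ
    have h3 : (∑ c ∈ Ioc D (2 * Q), u c) / (2 * (Q : ℝ) + 1) ≤
        2 * Q * B + Real.pi * (N / D) * B := by
      rw [div_le_iff₀ hM1]
      have h4 : (N : ℝ) ≤ N / D * (2 * Q + 1) := by
        rw [div_mul_eq_mul_div, le_div_iff₀ (by linarith only [hD'])]
        nlinarith only [hDQ']
      have h5 : Real.pi * N * B ≤ Real.pi * (N / D * (2 * Q + 1)) * B := by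
        gcongr
      have h6 : (2 * (Q : ℝ)) ^ 2 * B ≤ 2 * Q * B * (2 * Q + 1) := by
        have : 0 ≤ 2 * (Q : ℝ) * B := by positivity
        nlinarith only [this]
      nlinarith only [h2, h5, h6]
    have h7 : B * (2 * (Q : ℝ) - D) ≤ 2 * Q * B := by nlinarith only [hB0]
    have h8 : Real.pi * N * B * (1 / ((D : ℝ) + 1) - 1 / (2 * Q + 1)) ≤
        Real.pi * (N / D) * B := by
      have h9 : 1 / ((D : ℝ) + 1) - 1 / (2 * Q + 1) ≤ 1 / D := by
        have h10 : 1 / ((D : ℝ) + 1) ≤ 1 / D := one_div_le_one_div_of_le (by linarith only [hD']) (by linarith only [])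
        have h11 : 0 ≤ 1 / (2 * (Q : ℝ) + 1) := by positivity
        linarith only [h10, h11]
      calc Real.pi * N * B * (1 / ((D : ℝ) + 1) - 1 / (2 * Q + 1))
          ≤ Real.pi * N * B * (1 / D) := mul_le_mul_of_nonneg_left h9 (by positivity)
        _ = Real.pi * (N / D) * B := by ring
    have h12 : Real.pi * ((N : ℝ) / D) * B ≤ 4 * (N / D) * B := by
      gcongr
    have h13 : ∑ c ∈ Ioc D (2 * Q), u c / c ≤ 8 * ((N : ℝ) / D + Q) * B := by
      have h14 : 8 * ((N : ℝ) / D + Q) * B = 8 * (N / D) * B + 8 * (Q * B) := by ring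
      have h15 : 0 ≤ (Q : ℝ) * B := by positivity
      rw [h14]
      linarith only [h1, h3, h7, h8, h12, h15]
    refine h13.trans ?_
    have h16 : 0 ≤ 8 * ((N : ℝ) / D + Q) := by positivity
    calc 8 * ((N : ℝ) / D + Q) * B ≤ 8 * ((N : ℝ) / D + Q) * (N * (1 + Real.log N) ^ 2) :=
          mul_le_mul_of_nonneg_left hB1 h16
      _ = 8 * ((N : ℝ) / D + Q) * N * (1 + Real.log N) ^ 2 := by ring
  · rw [Finset.Ioc_eq_empty (by omega), Finset.sum_empty]
    exact hR0

end Pool.Agent.H91.EHA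

end
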