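import Pool.Agent.H15.TB1.M24
import Pool.Agent.H15.TB1.M26

/-! The parts of this file: H91.PK.SvD, H36.IS2.Defs2, H36.IS2.TrcA, H91.GoldSieve, H91.PK.SvA, H36.IS2.LossC, H36.IS2.QArr, H36.IS.MCa, H36.IS2.WtZ. -/

section

/-!
PK SvD: definitions of (abstract) sieve weights.

Weights are indexed by subsets T of a finite set P of primes: c : Finset ℕ → ℝ.  They are used with y_p = indicator of a
condition at p, and with a density g.  D is the level (bound for ∏_{p∈T} p when c T ≠ 0).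
-/

set_option autoImplicit false

namespace Pool.Agent.H91.PK

open Finset

/-- 0/1 valued functions -/
def ZO (y : ℕ → ℝ) : Prop := ∀ p, y p = 0 ∨ y p = 1

/-- `∏_{p∈P} (1 - g p)` -/
noncomputable def Vg (g : ℕ → ℝ) (P : Finset ℕ) : ℝ := ∏ p ∈ P, (1 - g p)

/-- the value of the weights `c` -/
noncomputable def ev (c : Finset ℕ → ℝ) (P : Finset ℕ) (y : ℕ → ℝ) : ℝ :=
  ∑ T ∈ P.powerset, c T * ∏ p ∈ T, y p

/-- Bounded weights supported on subsets of `P` with product at most `D`. -/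
def Wt (P : Finset ℕ) (D : ℝ) (c : Finset ℕ → ℝ) : Prop :=
  (∀ T, |c T| ≤ 1) ∧ ∀ T, c T ≠ 0 → T ⊆ P ∧ ∏ p ∈ T, (p : ℝ) ≤ D

/-- Upper bound sieve weights of level `D` with main term at most `M`. -/
def Up (g : ℕ → ℝ) (P : Finset ℕ) (D M : ℝ) : Prop :=
  ∃ c, Wt P D c ∧ (∀ y, ZO y → Vg y P ≤ ev c P y) ∧ ev c P g ≤ M

/-- Lower bound sieve weights of level `D` with main term at least `M`. -/
def Lo (g : ℕ → ℝ) (P : Finset ℕ) (D M : ℝ) : Prop :=
  ∃ c, Wt P D c ∧ (∀ y, ZO y → ev c P y ≤ Vg y P) ∧ M ≤ ev c P g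

/-- Simultaneous upper and lower weights (Brun-Hooley chain). -/
def Ch (g : ℕ → ℝ) (P : Finset ℕ) (D D' F G : ℝ) : Prop :=
  ∃ c c', Wt P D c ∧ Wt P D' c' ∧ (∀ y, ZO y → Vg y P ≤ ev c P y) ∧ (∀ y, ZO y → ev c' P y ≤ Vg y P) ∧
    Vg g P ≤ ev c P g ∧ ev c P g ≤ F * Vg g P ∧ (1 - G) * ev c P g ≤ ev c' P g

/-- density for the one-dimensional sieve -/
noncomputable def g1 (p : ℕ) : ℝ := 1 / ((p : ℝ) - 1)

/-- primes in `(e^24, z]` -/
def BigP (z : ℝ) (P : Finset ℕ) : Prop := ∀ p ∈ P, p.Prime ∧ Real.exp 24 < p ∧ (p : ℝ) ≤ z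

/-- one-dimensional upper sieve function bound at `s` -/
def U1 (s F : ℝ) : Prop := ∀ z : ℝ, 1 ≤ z → ∀ P, BigP z P → Up g1 P (z ^ s) (F * Vg g1 P)

/-- one-dimensional lower sieve function bound at `s` -/
def L1 (s f : ℝ) : Prop := ∀ z : ℝ, 1 ≤ z → ∀ P, BigP z P → Lo g1 P (z ^ s) (f * Vg g1 P)

end Pool.Agent.H91.PK

end

section

/-!
# Project ISP (MP_3532bd_nt): prime for i ≤ j, product of at most two primes for i > j: definitions

The lower triangle is treated by signed sieve functions and a variance argument.  For a component i and an integer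
m = n + h i, the function is Φ x m = [no p ∈ PZ x δ divides m] (evD (PX x) cA m - evD (PX x) cB m), with two arrays cA, cB on the
primes > x^δ whose values are nonnegative; Ψ is the positive part of Φ outside R.
-/

set_option autoImplicit false

namespace Pool.Agent.H36.IS2

open Finset Filter Pool.Agent.H36.IS

open Pool.Agent.H91.PK (ev Vg ZO Wt Up Lo g1)

/-- primes in `(e^2400, z]` -/
def BigP2 (z : ℝ) (P : Finset ℕ) : Prop := ∀ p ∈ P, p.Prime ∧ Real.exp 2400 < p ∧ (p : ℝ) ≤ z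

/-- one-dimensional upper sieve function bound at `s`, primes `> e^2400` -/
def U2 (s F : ℝ) : Prop := ∀ z : ℝ, 1 ≤ z → ∀ P, BigP2 z P → Up g1 P (z ^ s) (F * Vg g1 P)

/-- one-dimensional lower sieve function bound at `s`, primes `> e^2400` -/
def L2 (s f : ℝ) : Prop := ∀ z : ℝ, 1 ≤ z → ∀ P, BigP2 z P → Lo g1 P (z ^ s) (f * Vg g1 P)

/-- value of the array `c` at the integer `m` -/
noncomputable def evD (P : Finset ℕ) (c : Finset ℕ → ℝ) (m : ℕ) : ℝ := ev c P (fun p => if p ∣ m then 1 else 0)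

/-- main value of the array `c` -/
noncomputable def evM (P : Finset ℕ) (c : Finset ℕ → ℝ) : ℝ := ev c P (fun p => 1 / (p : ℝ))

/-- `∏_{x^δ < p ≤ x^ζ} (1 - 1/p)` -/
noncomputable def V2 (x : ℕ) (δ ζ : ℝ) : ℝ := ∏ p ∈ PZ x ζ \ PZ x δ, (1 - 1 / (p : ℝ))

/-- arrays of level `D` on the primes `> x^δ` with nonnegative values -/
def ArrN (x : ℕ) (δ D : ℝ) (c : Finset ℕ → ℝ) : Prop :=
  (∀ T, |c T| ≤ 3 ∧ (c T ≠ 0 → T ⊆ PX x ∧ (∀ p ∈ T, (x : ℝ) ^ δ < p) ∧ ∏ p ∈ T, (p : ℝ) ≤ D)) ∧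
    (∀ m, 0 ≤ evD (PX x) c m) ∧ 0 ≤ evM (PX x) c

/-- at most two prime factors (with multiplicity), all of them larger than the twelfth root -/
def R12 (m : ℕ) : Prop := m.primeFactorsList.length ≤ 2 ∧ ∀ p : ℕ, p.Prime → p ∣ m → m < p ^ 12

/-- transport of an array on sets of primes to the component `i` -/
noncomputable def trc {ι : Type} [DecidableEq ι] (i : ι) (c : Finset ℕ → ℝ) : Finset (ι × ℕ) → ℝ := fun Q =>
  open Classical in if ∀ e ∈ Q, e.1 = i then c (Q.image Prod.snd) else 0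

/-- the sum over `q ∈ Qs` of the arrays `cq q`, each multiplied by the event of `q` -/
noncomputable def qarr (Qs : Finset ℕ) (cq : ℕ → Finset ℕ → ℝ) : Finset ℕ → ℝ := fun T =>
  ∑ q ∈ Qs, if q ∈ T then cq q (T.erase q) else 0

/-- the cofactors `p₁ p₂` with `x^ζ < p₁ ≤ x^η < p₂`, `p₁ p₂² ≤ 3 x` -/
noncomputable def SL (x : ℕ) (ζ η : ℝ) : Finset ℕ :=
  (((range (3 * x + 1)).filter (fun p : ℕ => p.Prime ∧ (x : ℝ) ^ ζ < p ∧ (p : ℝ) ≤ (x : ℝ) ^ η) ×ˢ
    (range (3 * x + 1)).filter (fun p : ℕ => p.Prime ∧ (x : ℝ) ^ η < p)).filter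
      (fun pq : ℕ × ℕ => pq.1 * pq.2 ^ 2 ≤ 3 * x)).image (fun pq : ℕ × ℕ => pq.1 * pq.2)

open Classical in
/-- the data of a signed sieve function `Φ` with loss `Ψ`: `t` bounds the loss relative to the mean, `e` the variance -/
def PhiData (R : ℕ → Prop) (δ θ t e : ℝ) : Prop :=
  ∃ (Φ Ψ : ℕ → ℕ → ℝ) (l q1 q2 : ℕ → ℝ) (c' C : ℝ), 0 < c' ∧ 0 < C ∧ (∀ x m, 0 ≤ Ψ x m) ∧
    (∀ᶠ x : ℕ in atTop, c' ≤ l x * tau x ∧ 0 ≤ q1 x ∧ q1 x * tau x ≤ C ∧ 0 ≤ q2 x ∧ q2 x ≤ (1 + e) * l x ^ 2) ∧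
    (∀ s : ℕ, ∀ᶠ x : ℕ in atTop, ∀ m : ℕ, x < m → m ≤ 2 * x + s → ¬ R m → Φ x m ≤ Ψ x m) ∧
    ∀ (ι : Type) (_ : Fintype ι) (_ : DecidableEq ι) (h : ι → ℕ) (W b : ℕ), Good h W b → ∀ (K : ℝ) (A : ℕ),
      ∀ᶠ x : ℕ in atTop, ∀ y : Finset (ι × ℕ) → ℝ, Yok x δ θ K y →
        (∀ i, Mn ι W x * l x * My ι x δ (pr (Si x δ i) (fo gi) y) - x / Real.log x ^ A ≤
            ∑ n ∈ AA h W b x, Ly h x δ y n ^ 2 * Φ x (n + h i) ∧
          ∑ n ∈ AA h W b x, Ly h x δ y n ^ 2 * Φ x (n + h i) ^ 2 ≤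
            Mn ι W x * q1 x * My ι x δ (pr (Si x δ i) (fo gi) y) + x / Real.log x ^ A ∧
          ∑ n ∈ AA h W b x, Ly h x δ y n ^ 2 * Ψ x (n + h i) ≤
            Mn ι W x * (t * l x) * My ι x δ (pr (Si x δ i) (fo gi) y) + x / Real.log x ^ A) ∧
        (∀ i j, i ≠ j →
          ∑ n ∈ AA h W b x, Ly h x δ y n ^ 2 * (Φ x (n + h i) * Φ x (n + h j)) ≤
            Mn ι W x * q2 x * My ι x δ (pr (Si x δ i ∪ Si x δ j) (fo gi) y) + x / Real.log x ^ A)

end Pool.Agent.H36.IS2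

end

section

/-!
# ISP TrcA: transport of arrays to a component

`trc i c` is supported on sets Q with all first coordinates i; Q ↦ Q.image Prod.snd is a bijection onto sets of primes, with the same card and
∏_{e ∈ Q} g e.2 = ∏_{p ∈ image} g p.  (Compare `Wts_tr`, `Wts_Ev`, `Wts_cls` in Pool/Agent/H36/IS/Wts.lean.)
`evD_bd`: m ≤ 4x without prime factors in PZ x δ, c in ArrN: only the T whose primes all divide m contribute, at most 2^(number of prime factors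
of m > x^δ) ≤ 2^(1/δ + 1) of them: (x^δ)^k ≤ 4x gives k ≤ (1 + log 4/log x)/δ ≤ 1/δ + 1 for large x.
-/

set_option autoImplicit false

namespace Pool.Agent.H36.IS2

open Finset Filter Pool.Agent.H36.IS

private theorem TrcA_injOn {ι : Type} {i : ι} {Q : Finset (ι × ℕ)} (hQ : ∀ e ∈ Q, e.1 = i) :
    Set.InjOn Prod.snd (Q : Set (ι × ℕ)) := by
  rintro ⟨a, p⟩ ha ⟨b, q⟩ hb hpq
  have h1 := hQ _ (mem_coe.mp ha)
  have h2 := hQ _ (mem_coe.mp hb)
  simp only at h1 h2 hpq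
  rw [h1, h2, hpq]

private theorem TrcA_prod {ι : Type} {i : ι} {Q : Finset (ι × ℕ)} (hQ : ∀ e ∈ Q, e.1 = i)
    (y : ι × ℕ → ℝ) : ∏ e ∈ Q, y e = ∏ p ∈ Q.image Prod.snd, y (i, p) := by
  rw [Finset.prod_image (fun a ha b hb hab => TrcA_injOn hQ (mem_coe.mpr ha) (mem_coe.mpr hb) hab)]
  refine Finset.prod_congr rfl fun e he => ?_
  rw [← hQ e he]

private theorem TrcA_back {ι : Type} [DecidableEq ι] {i : ι} {Q : Finset (ι × ℕ)} (hQ : ∀ e ∈ Q, e.1 = i) :
    {i} ×ˢ (Q.image Prod.snd) = Q := by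
  ext ⟨a, p⟩
  rw [mem_product, mem_singleton, mem_image]
  constructor
  · rintro ⟨h1, ⟨⟨b, q⟩, h2, h3⟩⟩
    have h4 := hQ _ h2
    simp only at h1 h3 h4
    rw [h1, ← h3, ← h4]
    exact h2
  · intro h
    exact ⟨hQ _ h, ⟨(a, p), h, rfl⟩⟩

private theorem TrcA_Ev {ι : Type} [Fintype ι] [DecidableEq ι] (i : ι) (P : Finset ℕ) (c : Finset ℕ → ℝ)
    (y : ι × ℕ → ℝ) :
    Ev (univ ×ˢ P) (trc i c) y = Pool.Agent.H91.PK.ev c P (fun p => y (i, p)) := by
  unfold Ev Pool.Agent.H91.PK.ev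
  have hZ : ({i} : Finset ι) ×ˢ P ⊆ univ ×ˢ P :=
    Finset.product_subset_product (Finset.subset_univ _) (Finset.Subset.refl _)
  have hall : ∀ T ∈ (({i} : Finset ι) ×ˢ P).powerset, ∀ e ∈ T, e.1 = i := by
    intro T hT e he
    exact mem_singleton.mp (mem_product.mp (mem_powerset.mp hT he)).1
  rw [← Finset.sum_subset (Finset.powerset_mono.mpr hZ)]
  · refine Finset.sum_nbij' (fun T => T.image Prod.snd) (fun S => {i} ×ˢ S) ?_ ?_ ?_ ?_ ?_
    · intro T hT
      rw [mem_powerset]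
      intro p hp
      obtain ⟨e, he, rfl⟩ := mem_image.mp hp
      exact (mem_product.mp (mem_powerset.mp hT he)).2
    · intro S hS
      exact mem_powerset.mpr (Finset.product_subset_product (Finset.Subset.refl _)
        (mem_powerset.mp hS))
    · intro T hT
      exact TrcA_back (hall T hT)
    · intro S _
      exact Finset.product_image_snd (Finset.singleton_nonempty i)
    · intro T hT
      rw [TrcA_prod (hall T hT) y]
      unfold trc
      rw [if_pos (hall T hT)]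
  · intro T hT hT2
    have h1 : ¬ ∀ e ∈ T, e.1 = i := by
      intro h
      apply hT2
      rw [mem_powerset]
      intro e he
      rw [mem_product, mem_singleton]
      exact ⟨h e he, (mem_product.mp (mem_powerset.mp hT he)).2⟩
    unfold trc
    rw [if_neg h1, zero_mul]

theorem trc_yy {ι : Type} [Fintype ι] [DecidableEq ι] (h : ι → ℕ) (i : ι) (x : ℕ) (c : Finset ℕ → ℝ)
    (hc : ∀ T, c T ≠ 0 → T ⊆ PX x) (n : ℕ) : Ev (EX ι x) (trc i c) (yy h n) = evD (PX x) c (n + h i) := by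
  unfold EX evD
  rw [TrcA_Ev]
  rfl

theorem trc_gi {ι : Type} [Fintype ι] [DecidableEq ι] (i : ι) (x : ℕ) (c : Finset ℕ → ℝ)
    (hc : ∀ T, c T ≠ 0 → T ⊆ PX x) : Ev (EX ι x) (trc i c) gi = evM (PX x) c := by
  unfold EX evM
  rw [TrcA_Ev]
  rfl

theorem trc_sup {ι : Type} [DecidableEq ι] (i : ι) {P : Finset ℕ} {c : Finset ℕ → ℝ} (hc : ∀ T, c T ≠ 0 → T ⊆ P)
    (Q : Finset (ι × ℕ)) (hQ : trc i c Q ≠ 0) : Q ⊆ {i} ×ˢ P ∧ c (Q.image Prod.snd) ≠ 0 := by
  unfold trc at hQ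
  by_cases h : ∀ e ∈ Q, e.1 = i
  · rw [if_pos h] at hQ
    refine ⟨fun e he => ?_, hQ⟩
    rw [mem_product, mem_singleton]
    exact ⟨h e he, hc _ hQ (mem_image_of_mem _ he)⟩
  · rw [if_neg h] at hQ
    exact absurd rfl hQ

theorem trc_cls {ι : Type} [Fintype ι] [DecidableEq ι] (i : ι) {x : ℕ} (hx : 3 ≤ Real.log x) {δ D : ℝ} {c : Finset ℕ → ℝ}
    (hc : ArrN x δ D c) : Cls x 1 1 D (trc i c) := by
  intro Q
  constructor
  · rw [pow_one, one_pow, mul_one]
    unfold trc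
    split_ifs
    · exact ((hc.1 _).1).trans hx
    · rw [abs_zero]
      linarith only [hx]
  · intro hQ
    obtain ⟨h1, h2⟩ := trc_sup i (P := PX x) (fun T hT => ((hc.1 T).2 hT).1) Q hQ
    have h3 : ∀ e ∈ Q, e.1 = i := fun e he => mem_singleton.mp (mem_product.mp (h1 he)).1
    refine ⟨fun e he => ?_, ?_⟩
    · unfold EX
      rw [mem_product]
      exact ⟨mem_univ _, (mem_product.mp (h1 he)).2⟩
    · rw [TrcA_prod h3 (fun e => (e.2 : ℝ))]
      exact ((hc.1 _).2 h2).2.2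

private theorem TrcA_card {δ : ℝ} (hδ : 0 < δ) {x m : ℕ} (hx : 4 ≤ x) (hm : 0 < m) (hmx : m ≤ 4 * x)
    {S : Finset ℕ} (hS : ∀ p ∈ S, p.Prime ∧ p ∣ m ∧ (x : ℝ) ^ δ < p) : (S.card : ℝ) ≤ 2 / δ := by
  have hx0 : (0 : ℝ) < x := by
    have : 0 < x := by omega
    exact_mod_cast this
  have hx4 : (4 : ℝ) ≤ x := by exact_mod_cast hx
  have h1 : ∏ p ∈ S, p ∣ m := by
    refine Finset.prod_primes_dvd m (fun p hp => (hS p hp).1.prime) (fun p hp => (hS p hp).2.1)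
  have h2 : (∏ p ∈ S, (p : ℝ)) ≤ m := by
    have h5 := Nat.le_of_dvd hm h1
    have h6 : ((∏ p ∈ S, p : ℕ) : ℝ) ≤ m := Nat.cast_le.mpr h5
    rw [Nat.cast_prod] at h6
    exact h6
  have h3 : ((x : ℝ) ^ δ) ^ S.card ≤ ∏ p ∈ S, (p : ℝ) := by
    rw [← Finset.prod_const]
    refine Finset.prod_le_prod (fun p _ => Real.rpow_nonneg hx0.le _) (fun p hp => (hS p hp).2.2.le)
  have h4 : ((x : ℝ) ^ δ) ^ S.card ≤ (x : ℝ) ^ (2 : ℝ) := by
    have h5 : (m : ℝ) ≤ 4 * x := by exact_mod_cast hmx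
    have h6 : (x : ℝ) ^ (2 : ℝ) = x * x := by
      rw [show (2 : ℝ) = ((2 : ℕ) : ℝ) by norm_num, Real.rpow_natCast, pow_two]
    rw [h6]
    nlinarith only [hx4, h2, h3, h5]
  rw [← Real.rpow_natCast, ← Real.rpow_mul hx0.le] at h4
  have h5 : δ * (S.card : ℝ) ≤ 2 := by
    by_contra h
    have h6 := Real.rpow_lt_rpow_of_exponent_lt (x := (x : ℝ)) (by linarith only [hx4]) (not_le.mp h)
    linarith only [h4, h6]
  rw [le_div_iff₀ hδ]
  linarith only [h5]

theorem evD_bd (δ : ℝ) (hδ : 0 < δ) : ∃ C : ℝ, 0 < C ∧ ∀ᶠ x : ℕ in atTop, ∀ (D : ℝ) (c : Finset ℕ → ℝ), ArrN x δ D c →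
    ∀ m : ℕ, 0 < m → m ≤ 4 * x → evD (PX x) c m ≤ C := by
  refine ⟨3 * 2 ^ ⌈2 / δ⌉₊, by positivity, ?_⟩
  filter_upwards [eventually_ge_atTop 4] with x hx D c hc m hm hmx
  classical
  set S : Finset ℕ := (PX x).filter (fun p => p ∣ m ∧ (x : ℝ) ^ δ < p) with hS
  have hSP : S ⊆ PX x := Finset.filter_subset _ _
  have hcard : S.card ≤ ⌈2 / δ⌉₊ := by
    have h1 := TrcA_card hδ hx hm hmx (S := S) (by
      intro p hp
      rw [hS, mem_filter] at hp
      have h2 := hp.1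
      unfold PX at h2
      rw [mem_filter] at h2
      exact ⟨h2.2.1, hp.2.1, hp.2.2⟩)
    exact_mod_cast h1.trans (Nat.le_ceil _)
  unfold evD Pool.Agent.H91.PK.ev
  rw [← Finset.sum_subset (Finset.powerset_mono.mpr hSP)]
  · have h1 : ∀ T ∈ S.powerset, c T * ∏ p ∈ T, (if p ∣ m then (1 : ℝ) else 0) ≤ 3 := by
      intro T hT
      have h2 : ∏ p ∈ T, (if p ∣ m then (1 : ℝ) else 0) = 1 := by
        refine Finset.prod_eq_one fun p hp => ?_
        have h3 := mem_powerset.mp hT hp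
        rw [hS, mem_filter] at h3
        rw [if_pos h3.2.1]
      rw [h2, mul_one]
      exact (le_abs_self _).trans (hc.1 T).1
    refine (Finset.sum_le_sum h1).trans ?_
    rw [Finset.sum_const, Finset.card_powerset, nsmul_eq_mul, mul_comm]
    push_cast
    exact mul_le_mul_of_nonneg_left (pow_le_pow_right₀ (by norm_num) hcard) (by norm_num)
  · intro T hT hT2
    by_contra hne
    apply hT2
    rw [mem_powerset]
    intro p hp
    have hcT : c T ≠ 0 := fun h => hne (by rw [h, zero_mul])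
    have hpT : ∏ p ∈ T, (if p ∣ m then (1 : ℝ) else 0) ≠ 0 := fun h => hne (by rw [h, mul_zero])
    have h3 := Finset.prod_ne_zero_iff.mp hpT p hp
    have h4 : p ∣ m := by
      by_contra h5
      rw [if_neg h5] at h3
      exact h3 rfl
    rw [hS, mem_filter]
    exact ⟨mem_powerset.mp hT hp, h4, ((hc.1 T).2 hcT).2.1 p hp⟩

end Pool.Agent.H36.IS2

end

section

/-!
Counting integers in a short interval subject to sieve conditions with two forbidden residue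
classes for every odd prime and one for the prime two.
-/

namespace Pool.Agent.H91.Gold

open Finset

/-- Elementary symmetric function of the values of `x` on `B`. -/
noncomputable def es (x : ℕ → ℝ) (B : Finset ℕ) (k : ℕ) : ℝ := ∑ t ∈ B.powersetCard k, ∏ p ∈ t, x p

theorem es_zero (x : ℕ → ℝ) (B : Finset ℕ) : es x B 0 = 1 := by
  unfold es; simp

theorem es_empty_succ (x : ℕ → ℝ) (k : ℕ) : es x ∅ (k + 1) = 0 := by
  unfold es
  rw [powersetCard_eq_empty.2 (by simp)]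
  simp

theorem es_insert (x : ℕ → ℝ) {B : Finset ℕ} {p : ℕ} (hp : p ∉ B) (k : ℕ) :
    es x (insert p B) (k + 1) = es x B (k + 1) + x p * es x B k := by
  unfold es
  rw [powersetCard_succ_insert hp, sum_union]
  · congr 1
    rw [sum_image]
    · rw [mul_sum]
      apply sum_congr rfl
      intro t ht
      rw [prod_insert]
      intro h
      exact hp ((mem_powersetCard.1 ht).1 h)
    · intro s hs t ht hst
      have hps : p ∉ s := fun h => hp ((mem_powersetCard.1 hs).1 h)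
      have hpt : p ∉ t := fun h => hp ((mem_powersetCard.1 ht).1 h)
      have := congrArg (fun z => z.erase p) hst
      simpa [erase_insert hps, erase_insert hpt] using this
  · rw [disjoint_left]
    intro s hs hs'
    rw [mem_image] at hs'
    obtain ⟨t, _, rfl⟩ := hs'
    exact hp ((mem_powersetCard.1 hs).1 (mem_insert_self _ _))

theorem es_nonneg {x : ℕ → ℝ} {B : Finset ℕ} (hx : ∀ p ∈ B, 0 ≤ x p) (k : ℕ) : 0 ≤ es x B k := by
  unfold es
  apply sum_nonneg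
  intro t ht
  apply prod_nonneg
  intro p hp
  exact hx p ((mem_powersetCard.1 ht).1 hp)

/-- Truncated inclusion-exclusion sum. -/
noncomputable def tr (x : ℕ → ℝ) (B : Finset ℕ) (b : ℕ) : ℝ :=
  ∑ k ∈ range (b + 1), (-1 : ℝ) ^ k * es x B k

theorem tr_zero (x : ℕ → ℝ) (B : Finset ℕ) : tr x B 0 = 1 := by
  unfold tr; simp [es_zero]

theorem tr_succ (x : ℕ → ℝ) (B : Finset ℕ) (b : ℕ) :
    tr x B (b + 1) = tr x B b + (-1 : ℝ) ^ (b + 1) * es x B (b + 1) := by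
  unfold tr; rw [sum_range_succ]

theorem tr_empty (x : ℕ → ℝ) (b : ℕ) : tr x ∅ b = 1 := by
  induction b with
  | zero => exact tr_zero _ _
  | succ b ih => rw [tr_succ, ih, es_empty_succ]; ring

theorem tr_insert_succ (x : ℕ → ℝ) {B : Finset ℕ} {p : ℕ} (hp : p ∉ B) (b : ℕ) :
    tr x (insert p B) (b + 1) = tr x B (b + 1) - x p * tr x B b := by
  induction b with
  | zero =>
    rw [tr_succ, tr_succ, tr_zero, tr_zero, es_insert x hp, es_zero]
    ring
  | succ b ih =>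
    rw [tr_succ x (insert p B) (b + 1), ih, tr_succ x B (b + 1), tr_succ x B b, es_insert x hp]
    ring

/-- Bonferroni inequalities for products. -/
theorem bonferroni {x : ℕ → ℝ} (B : Finset ℕ) (hx : ∀ p ∈ B, 0 ≤ x p ∧ x p ≤ 1) (b : ℕ) :
    0 ≤ (-1 : ℝ) ^ b * (tr x B b - ∏ p ∈ B, (1 - x p)) := by
  induction B using Finset.induction_on generalizing b with
  | empty => rw [tr_empty]; simp
  | insert p B hp ih =>
    have hx' : ∀ q ∈ B, 0 ≤ x q ∧ x q ≤ 1 := fun q hq => hx q (mem_insert_of_mem hq)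
    have hp0 := (hx p (mem_insert_self _ _)).1
    have hp1 := (hx p (mem_insert_self _ _)).2
    have hprod : 0 ≤ ∏ q ∈ B, (1 - x q) := prod_nonneg (fun q hq => by linarith only [(hx' q hq).2])
    have hprod1 : ∏ q ∈ B, (1 - x q) ≤ 1 :=
      prod_le_one (fun q hq => by linarith only [(hx' q hq).2]) (fun q hq => by linarith only [(hx' q hq).1])
    rw [prod_insert hp]
    cases b with
    | zero =>
      rw [tr_zero]
      simp only [pow_zero, one_mul]
      nlinarith only [hp0, hprod, hprod1]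
    | succ b =>
      rw [tr_insert_succ x hp]
      have h1 := ih hx' (b + 1)
      have h2 := ih hx' b
      have : (-1 : ℝ) ^ (b + 1) * (tr x B (b + 1) - x p * tr x B b - (1 - x p) * ∏ q ∈ B, (1 - x q))
        = (-1 : ℝ) ^ (b + 1) * (tr x B (b + 1) - ∏ q ∈ B, (1 - x q))
          + x p * ((-1 : ℝ) ^ b * (tr x B b - ∏ q ∈ B, (1 - x q))) := by
        rw [pow_succ]; ring
      rw [this]
      have := mul_nonneg hp0 h2
      linarith only [h1, this]

theorem bonferroni_even {x : ℕ → ℝ} (B : Finset ℕ) (hx : ∀ p ∈ B, 0 ≤ x p ∧ x p ≤ 1) {b : ℕ}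
    (hb : Even b) : ∏ p ∈ B, (1 - x p) ≤ tr x B b := by
  have := bonferroni B hx b
  rw [hb.neg_one_pow] at this
  linarith only [this]

theorem bonferroni_odd {x : ℕ → ℝ} (B : Finset ℕ) (hx : ∀ p ∈ B, 0 ≤ x p ∧ x p ≤ 1) {b : ℕ}
    (hb : Odd b) : tr x B b ≤ ∏ p ∈ B, (1 - x p) := by
  have := bonferroni B hx b
  rw [hb.neg_one_pow] at this
  linarith only [this]

theorem es_le {x : ℕ → ℝ} (B : Finset ℕ) (hx : ∀ p ∈ B, 0 ≤ x p) (k : ℕ) :
    es x B k ≤ (∑ p ∈ B, x p) ^ k / k.factorial := by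
  induction B using Finset.induction_on generalizing k with
  | empty =>
    cases k with
    | zero => simp [es_zero]
    | succ k => rw [es_empty_succ]; simp
  | insert p B hp ih =>
    have hx' : ∀ q ∈ B, 0 ≤ x q := fun q hq => hx q (mem_insert_of_mem hq)
    have hp0 := hx p (mem_insert_self _ _)
    cases k with
    | zero => simp [es_zero]
    | succ k =>
      rw [es_insert x hp, sum_insert hp]
      have h1 := ih hx' (k + 1)
      have h2 := ih hx' k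
      have h3 := mul_le_mul_of_nonneg_left h2 hp0
      set L := ∑ q ∈ B, x q with hL
      have hL0 : 0 ≤ L := sum_nonneg hx'
      have h4 : L ^ (k + 1) + (k + 1 : ℕ) * x p * L ^ k ≤ (x p + L) ^ (k + 1) := by
        rcases eq_or_lt_of_le hL0 with h0 | h0
        · rw [← h0]
          cases k with
          | zero => simp
          | succ k => simp; positivity
        · have := one_add_mul_le_pow (a := x p / L) (by
            have : 0 ≤ x p / L := by positivity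
            linarith only [this]) (k + 1)
          have h5 : (x p + L) ^ (k + 1) = L ^ (k + 1) * (1 + x p / L) ^ (k + 1) := by
            rw [← mul_pow]; congr 1; field_simp; ring
          rw [h5]
          calc L ^ (k + 1) + (k + 1 : ℕ) * x p * L ^ k
              = L ^ (k + 1) * (1 + (k + 1 : ℕ) * (x p / L)) := by
                rw [pow_succ]; field_simp
            _ ≤ L ^ (k + 1) * (1 + x p / L) ^ (k + 1) :=
                mul_le_mul_of_nonneg_left (by exact_mod_cast this) (by positivity)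
      have hf : (0 : ℝ) < (k + 1).factorial := by positivity
      have hf' : (0 : ℝ) < k.factorial := by positivity
      have h6 : ((k + 1).factorial : ℝ) = (k + 1) * k.factorial := by
        rw [Nat.factorial_succ]; push_cast; ring
      calc es x B (k + 1) + x p * es x B k
          ≤ L ^ (k + 1) / (k + 1).factorial + x p * (L ^ k / k.factorial) := add_le_add h1 h3
        _ = (L ^ (k + 1) + (k + 1 : ℕ) * x p * L ^ k) / (k + 1).factorial := by
            rw [h6]; push_cast; field_simp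
        _ ≤ (x p + L) ^ (k + 1) / (k + 1).factorial := by
            apply div_le_div_of_nonneg_right h4 hf.le

end Pool.Agent.H91.Gold

end

section

/-!
PK SvA: the rules for sieve weights.

All are formal.  Hints:
* exact weights: c T = (-1)^|T| for T ⊆ P, 0 otherwise; ev c P y = Vg y P for every y (`Finset.prod_one_sub` /
  `Finset.prod_sub` expansions over the powerset).
* zero weights: c = 0 gives Lo with M = 0 (Vg y P ≥ 0 for y in {0,1}).
* union of disjoint sets with product weights c(T) = c₁(T∩P₁) c₂(T∩P₂) for T ⊆ P₁∪P₂ (0 otherwise): ev is multiplicative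
  (`Finset.powerset_union`-like bijection: see `Pool.Agent.H91.Gold.Sv.mul_es` and friends for the style).
* Ch.step is the proof of `Pool.Agent.H91.Gold.Chain.step` (file Pool/Agent/H91/GoldChain.lean, same inequalities), with the
  block polynomial tr (weights (-1)^|T| for |T| ≤ b, T ⊆ B) and es (weights 1 for |T| = b+1):
  new upper = tr * U, new lower = tr * L - es_{b+1} * U.  Coefficients stay in [-1,1] because the lower weights are
  supported on disjoint sets of T (|T ∩ B| ≤ b resp. = b+1); level: ∏_{T∩B} p ≤ z^b resp. z^(b+1).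
* Buchstab rules: c(T) = c₀(T) if T ⊆ P₀ = {p ∈ P, p ≤ w}, and c(T) = - c_q(T \ {q}) if q = max T > w
  (c_q weights for P_q = {p ∈ P, p < q} at level D/q).  Identity for 0/1 (indeed all) y:
   ∏_{p∈P}(1-y_p) = ∏_{p∈P₀}(1-y_p) - ∑_{q∈P, q>w} y_q ∏_{p∈P, p<q} (1-y_p)   (induction on the largest element).
-/

set_option autoImplicit false

namespace Pool.Agent.H91.PK

open Finset

/-! ### Auxiliary facts on weights -/

theorem SvA_prod_nonneg (T : Finset ℕ) : (0 : ℝ) ≤ ∏ p ∈ T, (p : ℝ) :=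
  Finset.prod_nonneg fun p _ => Nat.cast_nonneg p

theorem SvA_ZO_bd {y : ℕ → ℝ} (hy : ZO y) (p : ℕ) : 0 ≤ y p ∧ y p ≤ 1 := by
  rcases hy p with h | h <;> rw [h] <;> norm_num

theorem SvA_ev_superset {P P' : Finset ℕ} {D : ℝ} {c : Finset ℕ → ℝ} (h : Wt P D c)
    (hPP : P ⊆ P') (y : ℕ → ℝ) : ev c P' y = ev c P y := by
  unfold ev
  symm
  apply Finset.sum_subset (Finset.powerset_mono.mpr hPP)
  intro T _ hT
  by_cases hc : c T = 0
  · rw [hc, zero_mul]
  · exact absurd (Finset.mem_powerset.mpr (h.2 T hc).1) hT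

theorem SvA_ev_sub (c d : Finset ℕ → ℝ) (P : Finset ℕ) (y : ℕ → ℝ) :
    ev (fun T => c T - d T) P y = ev c P y - ev d P y := by
  unfold ev
  rw [← Finset.sum_sub_distrib]
  exact Finset.sum_congr rfl fun T _ => by ring

/-- exact weights -/
noncomputable def SvA_ex (P : Finset ℕ) (T : Finset ℕ) : ℝ := if T ⊆ P then (-1 : ℝ) ^ T.card else 0

theorem SvA_ev_ex (P : Finset ℕ) (y : ℕ → ℝ) : ev (SvA_ex P) P y = Vg y P := by
  unfold ev Vg
  have h : ∏ p ∈ P, (1 - y p) = ∏ p ∈ P, (1 + (-y p)) :=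
    Finset.prod_congr rfl fun p _ => by ring
  rw [h, Finset.prod_one_add]
  refine Finset.sum_congr rfl fun T hT => ?_
  unfold SvA_ex
  rw [if_pos (Finset.mem_powerset.mp hT), Finset.prod_neg]

theorem SvA_neg_one_abs (k : ℕ) : |(-1 : ℝ) ^ k| ≤ 1 := by
  rw [abs_pow, abs_neg, abs_one, one_pow]

theorem SvA_prod_le_of_subset {S T : Finset ℕ} (hST : S ⊆ T) (hT : ∀ p ∈ T, 1 ≤ p) :
    ∏ p ∈ S, (p : ℝ) ≤ ∏ p ∈ T, (p : ℝ) := by
  have h : ∏ p ∈ S, p ≤ ∏ p ∈ T, p :=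
    Finset.prod_le_prod_of_subset_of_one_le' hST fun p hp _ => hT p hp
  have h2 : ((∏ p ∈ S, p : ℕ) : ℝ) ≤ ((∏ p ∈ T, p : ℕ) : ℝ) := by exact_mod_cast h
  rw [Nat.cast_prod, Nat.cast_prod] at h2
  exact h2

theorem SvA_Wt_ex (P : Finset ℕ) (hP : ∀ p ∈ P, 1 ≤ p) : Wt P (∏ p ∈ P, (p : ℝ)) (SvA_ex P) := by
  constructor
  · intro T
    unfold SvA_ex
    split_ifs
    · exact SvA_neg_one_abs _
    · rw [abs_zero]; exact zero_le_one
  · intro T hT
    unfold SvA_ex at hT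
    split_ifs at hT with h
    · exact ⟨h, SvA_prod_le_of_subset h hP⟩
    · exact absurd rfl hT

/-- product weights -/
noncomputable def SvA_pr (P Q : Finset ℕ) (c d : Finset ℕ → ℝ) (T : Finset ℕ) : ℝ :=
  if T ⊆ P ∪ Q then c (T ∩ P) * d (T ∩ Q) else 0

theorem SvA_prod_split {P Q T : Finset ℕ} (hPQ : Disjoint P Q) (hT : T ⊆ P ∪ Q) (f : ℕ → ℝ) :
    ∏ p ∈ T, f p = (∏ p ∈ T ∩ P, f p) * ∏ p ∈ T ∩ Q, f p := by
  rw [← Finset.prod_union]
  · rw [← Finset.inter_union_distrib_left, Finset.inter_eq_left.mpr hT]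
  · exact hPQ.mono inter_subset_right inter_subset_right

theorem SvA_ev_pr {P Q : Finset ℕ} (hPQ : Disjoint P Q) (c d : Finset ℕ → ℝ) (y : ℕ → ℝ) :
    ev (SvA_pr P Q c d) (P ∪ Q) y = ev c P y * ev d Q y := by
  unfold ev
  rw [Finset.sum_mul_sum, ← Finset.sum_product']
  refine Finset.sum_nbij' (fun T => (T ∩ P, T ∩ Q)) (fun x => x.1 ∪ x.2) ?_ ?_ ?_ ?_ ?_
  · intro T _
    rw [Finset.mem_product, Finset.mem_powerset, Finset.mem_powerset]
    exact ⟨inter_subset_right, inter_subset_right⟩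
  · intro x hx
    rw [Finset.mem_product, Finset.mem_powerset, Finset.mem_powerset] at hx
    exact Finset.mem_powerset.mpr (Finset.union_subset_union hx.1 hx.2)
  · intro T hT
    show T ∩ P ∪ T ∩ Q = T
    rw [← Finset.inter_union_distrib_left]
    exact Finset.inter_eq_left.mpr (Finset.mem_powerset.mp hT)
  · intro x hx
    rw [Finset.mem_product, Finset.mem_powerset, Finset.mem_powerset] at hx
    obtain ⟨A, B⟩ := x
    obtain ⟨hA, hB⟩ := hx
    simp only at hA hB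
    have h1 : (A ∪ B) ∩ P = A := by
      rw [Finset.union_inter_distrib_right, Finset.inter_eq_left.mpr hA,
        (Finset.disjoint_iff_inter_eq_empty.mp (hPQ.symm.mono_left hB)), Finset.union_empty]
    have h2 : (A ∪ B) ∩ Q = B := by
      rw [Finset.union_inter_distrib_right, Finset.inter_eq_left.mpr hB,
        (Finset.disjoint_iff_inter_eq_empty.mp (hPQ.mono_left hA)), Finset.empty_union]
    show ((A ∪ B) ∩ P, (A ∪ B) ∩ Q) = (A, B)
    rw [h1, h2]
  · intro T hT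
    have hT' := Finset.mem_powerset.mp hT
    show SvA_pr P Q c d T * ∏ p ∈ T, y p = _
    unfold SvA_pr
    rw [if_pos hT', SvA_prod_split hPQ hT' y]
    ring

theorem SvA_Wt_pr {P Q : Finset ℕ} {D E : ℝ} {c d : Finset ℕ → ℝ} (hPQ : Disjoint P Q)
    (hc : Wt P D c) (hd : Wt Q E d) : Wt (P ∪ Q) (D * E) (SvA_pr P Q c d) := by
  constructor
  · intro T
    unfold SvA_pr
    split_ifs
    · rw [abs_mul]
      exact mul_le_one₀ (hc.1 _) (abs_nonneg _) (hd.1 _)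
    · rw [abs_zero]; exact zero_le_one
  · intro T hT
    unfold SvA_pr at hT
    split_ifs at hT with h
    · have h1 := (hc.2 _ (left_ne_zero_of_mul hT)).2
      have h2 := (hd.2 _ (right_ne_zero_of_mul hT)).2
      refine ⟨h, ?_⟩
      rw [SvA_prod_split hPQ h]
      exact mul_le_mul h1 h2 (SvA_prod_nonneg _) ((SvA_prod_nonneg _).trans h1)
    · exact absurd rfl hT

theorem SvA_Wt_sub {P : Finset ℕ} {D E : ℝ} {c d : Finset ℕ → ℝ} (hc : Wt P D c) (hd : Wt P E d)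
    (h : ∀ T, c T = 0 ∨ d T = 0) : Wt P (max D E) (fun T => c T - d T) := by
  constructor
  · intro T
    rcases h T with h1 | h1
    · show |c T - d T| ≤ 1
      rw [h1, zero_sub, abs_neg]
      exact hd.1 T
    · show |c T - d T| ≤ 1
      rw [h1, sub_zero]
      exact hc.1 T
  · intro T hT
    by_cases h1 : c T = 0
    · have h2 : d T ≠ 0 := by
        intro h2
        apply hT
        show c T - d T = 0
        rw [h1, h2, sub_zero]
      exact ⟨(hd.2 T h2).1, (hd.2 T h2).2.trans (le_max_right _ _)⟩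
    · exact ⟨(hc.2 T h1).1, (hc.2 T h1).2.trans (le_max_left _ _)⟩

/-- weights of the elementary symmetric function -/
noncomputable def SvA_ew (B : Finset ℕ) (k : ℕ) (T : Finset ℕ) : ℝ :=
  if T ⊆ B ∧ T.card = k then 1 else 0

/-- weights of the truncated inclusion-exclusion sum -/
noncomputable def SvA_bw (B : Finset ℕ) (b : ℕ) (T : Finset ℕ) : ℝ :=
  if T ⊆ B ∧ T.card ≤ b then (-1 : ℝ) ^ T.card else 0

theorem SvA_ev_ew (B : Finset ℕ) (k : ℕ) (y : ℕ → ℝ) : ev (SvA_ew B k) B y = Gold.es y B k := by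
  unfold ev Gold.es SvA_ew
  rw [Finset.powersetCard_eq_filter, Finset.sum_filter]
  refine Finset.sum_congr rfl fun T hT => ?_
  by_cases h : T.card = k
  · rw [if_pos ⟨Finset.mem_powerset.mp hT, h⟩, if_pos h, one_mul]
  · rw [if_neg (fun hh => h hh.2), if_neg h, zero_mul]

theorem SvA_bw_eq (B : Finset ℕ) (b : ℕ) (T : Finset ℕ) :
    SvA_bw B b T = ∑ k ∈ range (b + 1), (-1 : ℝ) ^ k * SvA_ew B k T := by
  unfold SvA_bw SvA_ew
  split_ifs with h
  · rw [Finset.sum_eq_single T.card]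
    · rw [if_pos ⟨h.1, rfl⟩, mul_one]
    · intro k _ hk
      rw [if_neg (fun hh => hk hh.2.symm), mul_zero]
    · intro hh
      exact absurd (Finset.mem_range.mpr (Nat.lt_succ_of_le h.2)) hh
  · symm
    apply Finset.sum_eq_zero
    intro k hk
    rw [if_neg, mul_zero]
    rintro ⟨h1, h2⟩
    apply h
    refine ⟨h1, ?_⟩
    have := Finset.mem_range.mp hk
    omega

theorem SvA_ev_bw (B : Finset ℕ) (b : ℕ) (y : ℕ → ℝ) : ev (SvA_bw B b) B y = Gold.tr y B b := by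
  unfold Gold.tr
  have h : ∀ k ∈ range (b + 1), (-1 : ℝ) ^ k * Gold.es y B k =
      ∑ T ∈ B.powerset, (-1 : ℝ) ^ k * SvA_ew B k T * ∏ p ∈ T, y p := by
    intro k _
    rw [← SvA_ev_ew]
    unfold ev
    rw [Finset.mul_sum]
    exact Finset.sum_congr rfl fun T _ => by ring
  rw [Finset.sum_congr rfl h, Finset.sum_comm]
  unfold ev
  refine Finset.sum_congr rfl fun T _ => ?_
  rw [SvA_bw_eq, Finset.sum_mul]

theorem SvA_prod_le_pow {B T : Finset ℕ} {z : ℝ} (hT : T ⊆ B) (hBz : ∀ p ∈ B, (p : ℝ) ≤ z) :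
    ∏ p ∈ T, (p : ℝ) ≤ z ^ T.card := by
  rw [← Finset.prod_const]
  exact Finset.prod_le_prod (fun p _ => Nat.cast_nonneg p) (fun p hp => hBz p (hT hp))

theorem SvA_Wt_ew {B : Finset ℕ} {z : ℝ} (k : ℕ) (hBz : ∀ p ∈ B, (p : ℝ) ≤ z) :
    Wt B (z ^ k) (SvA_ew B k) := by
  constructor
  · intro T
    unfold SvA_ew
    split_ifs
    · rw [abs_one]
    · rw [abs_zero]; exact zero_le_one
  · intro T hT
    unfold SvA_ew at hT
    split_ifs at hT with h
    · refine ⟨h.1, ?_⟩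
      rw [← h.2]
      exact SvA_prod_le_pow h.1 hBz
    · exact absurd rfl hT

theorem SvA_Wt_bw {B : Finset ℕ} {z : ℝ} (b : ℕ) (hz : 1 ≤ z) (hBz : ∀ p ∈ B, (p : ℝ) ≤ z) :
    Wt B (z ^ b) (SvA_bw B b) := by
  constructor
  · intro T
    unfold SvA_bw
    split_ifs
    · exact SvA_neg_one_abs _
    · rw [abs_zero]; exact zero_le_one
  · intro T hT
    unfold SvA_bw at hT
    split_ifs at hT with h
    · exact ⟨h.1, (SvA_prod_le_pow h.1 hBz).trans (pow_le_pow_right₀ hz h.2)⟩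
    · exact absurd rfl hT

theorem SvA_Vg_union {y : ℕ → ℝ} {P Q : Finset ℕ} (h : Disjoint P Q) :
    Vg y (P ∪ Q) = Vg y P * Vg y Q := by
  unfold Vg
  rw [Finset.prod_union h]

/-- The ordered expansion of the product. -/
theorem SvA_Vg_ordered (y : ℕ → ℝ) (P : Finset ℕ) :
    Vg y P = 1 - ∑ q ∈ P, y q * Vg y (P.filter (fun p => p < q)) := by
  unfold Vg
  exact Finset.prod_one_sub_ordered P y

theorem SvA_Vg_ordered_le (y : ℕ → ℝ) (P : Finset ℕ) (w : ℝ) :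
    Vg y (P.filter (fun p : ℕ => (p : ℝ) ≤ w)) =
      1 - ∑ q ∈ P.filter (fun q : ℕ => (q : ℝ) ≤ w), y q * Vg y (P.filter (fun p => p < q)) := by
  rw [SvA_Vg_ordered]
  congr 1
  refine Finset.sum_congr rfl fun q hq => ?_
  congr 2
  ext p
  rw [Finset.mem_filter, Finset.mem_filter, Finset.mem_filter]
  constructor
  · rintro ⟨⟨h1, _⟩, h2⟩
    exact ⟨h1, h2⟩
  · rintro ⟨h1, h2⟩
    refine ⟨⟨h1, ?_⟩, h2⟩
    have h3 : (p : ℝ) < (q : ℝ) := by exact_mod_cast h2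
    exact h3.le.trans (Finset.mem_filter.mp hq).2

theorem SvA_Vg_buchstab (y : ℕ → ℝ) (P : Finset ℕ) (w : ℝ) :
    Vg y P = Vg y (P.filter (fun p : ℕ => (p : ℝ) ≤ w)) -
      ∑ q ∈ P.filter (fun q : ℕ => w < (q : ℝ)), y q * Vg y (P.filter (fun p => p < q)) := by
  rw [SvA_Vg_ordered_le, SvA_Vg_ordered]
  have h : ∑ q ∈ P, y q * Vg y (P.filter (fun p => p < q)) =
      ∑ q ∈ P.filter (fun q : ℕ => (q : ℝ) ≤ w), y q * Vg y (P.filter (fun p => p < q)) +
      ∑ q ∈ P.filter (fun q : ℕ => w < (q : ℝ)), y q * Vg y (P.filter (fun p => p < q)) := by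
    rw [← Finset.sum_filter_add_sum_filter_not P (fun q : ℕ => (q : ℝ) ≤ w)]
    congr 1
    refine Finset.sum_congr ?_ fun _ _ => rfl
    ext q
    rw [Finset.mem_filter, Finset.mem_filter, not_le]
  rw [h]
  ring

theorem SvA_buch_core {P : Finset ℕ} {D w : ℝ} {c₀ : Finset ℕ → ℝ} {cq : ℕ → Finset ℕ → ℝ}
    (hP : ∀ p ∈ P, 1 ≤ p) (h0 : Wt (P.filter (fun p : ℕ => (p : ℝ) ≤ w)) D c₀)
    (h1 : ∀ q ∈ P, w < (q : ℝ) → Wt (P.filter (fun p => p < q)) (D / q) (cq q)) :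
    ∃ c, Wt P D c ∧ ∀ y : ℕ → ℝ, ev c P y = ev c₀ (P.filter (fun p : ℕ => (p : ℝ) ≤ w)) y -
      ∑ q ∈ P.filter (fun q : ℕ => w < (q : ℝ)), y q * ev (cq q) (P.filter (fun p => p < q)) y := by
  classical
  let Q : Finset ℕ := P.filter (fun q : ℕ => w < (q : ℝ))
  let cond : ℕ → Finset ℕ → Prop := fun q T => q ∈ T ∧ T.erase q ⊆ P.filter (fun p => p < q)
  let trm : ℕ → Finset ℕ → ℝ := fun q T => if cond q T then cq q (T.erase q) else 0
  have hQ : ∀ q, q ∈ Q ↔ q ∈ P ∧ w < (q : ℝ) := fun q => Finset.mem_filter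
  have hone : ∀ T, ∀ q ∈ Q, cond q T → ∑ q' ∈ Q, trm q' T = cq q (T.erase q) := by
    intro T q hq hc
    rw [Finset.sum_eq_single_of_mem q hq]
    · exact if_pos hc
    · intro q' _ hne
      apply if_neg
      intro hc'
      have e1 : q' ∈ T.erase q := Finset.mem_erase.mpr ⟨hne, hc'.1⟩
      have e2 : q ∈ T.erase q' := Finset.mem_erase.mpr ⟨hne.symm, hc.1⟩
      have e3 := (Finset.mem_filter.mp (hc.2 e1)).2
      have e4 := (Finset.mem_filter.mp (hc'.2 e2)).2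
      omega
  have hnone : ∀ T, (¬ ∃ q ∈ Q, cond q T) → ∑ q' ∈ Q, trm q' T = 0 := by
    intro T hT
    apply Finset.sum_eq_zero
    intro q hq
    exact if_neg fun hc => hT ⟨q, hq, hc⟩
  have hzero : ∀ T, ∀ q ∈ Q, cond q T → c₀ T = 0 := by
    intro T q hq hc
    by_contra hne
    have e1 := (Finset.mem_filter.mp ((h0.2 T hne).1 hc.1)).2
    have e2 := ((hQ q).mp hq).2
    linarith only [e1, e2]
  refine ⟨fun T => c₀ T - ∑ q ∈ Q, trm q T, ⟨?_, ?_⟩, ?_⟩
  · intro T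
    show |c₀ T - ∑ q ∈ Q, trm q T| ≤ 1
    by_cases hT : ∃ q ∈ Q, cond q T
    · obtain ⟨q, hq, hc⟩ := hT
      rw [hone T q hq hc, hzero T q hq hc, zero_sub, abs_neg]
      exact (h1 q ((hQ q).mp hq).1 ((hQ q).mp hq).2).1 _
    · rw [hnone T hT, sub_zero]
      exact h0.1 T
  · intro T hT
    by_cases hT' : ∃ q ∈ Q, cond q T
    · obtain ⟨q, hq, hc⟩ := hT'
      have hT2 : c₀ T - ∑ q ∈ Q, trm q T ≠ 0 := hT
      rw [hone T q hq hc, hzero T q hq hc, zero_sub, neg_ne_zero] at hT2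
      have hqP := ((hQ q).mp hq).1
      have h2 := (h1 q hqP ((hQ q).mp hq).2).2 _ hT2
      have hqpos : (0 : ℝ) < q := by exact_mod_cast hP q hqP
      constructor
      · intro p hp
        by_cases hpq : p = q
        · rw [hpq]; exact hqP
        · exact (Finset.mem_filter.mp (h2.1 (Finset.mem_erase.mpr ⟨hpq, hp⟩))).1
      · rw [← Finset.mul_prod_erase T _ hc.1]
        calc (q : ℝ) * ∏ p ∈ T.erase q, (p : ℝ) ≤ q * (D / q) :=
              mul_le_mul_of_nonneg_left h2.2 hqpos.le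
          _ = D := by field_simp
    · have hT2 : c₀ T - ∑ q ∈ Q, trm q T ≠ 0 := hT
      rw [hnone T hT', sub_zero] at hT2
      exact ⟨(h0.2 T hT2).1.trans (Finset.filter_subset _ _), (h0.2 T hT2).2⟩
  · intro y
    rw [← SvA_ev_superset h0 (Finset.filter_subset _ P) y, SvA_ev_sub]
    congr 1
    have hstep : ∀ q ∈ Q, y q * ev (cq q) (P.filter (fun p => p < q)) y =
        ∑ T ∈ P.powerset, trm q T * ∏ p ∈ T, y p := by
      intro q hq
      have hqP := ((hQ q).mp hq).1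
      have e1 : ∑ T ∈ P.powerset, trm q T * ∏ p ∈ T, y p =
          ∑ T ∈ P.powerset.filter (fun T => cond q T), cq q (T.erase q) * ∏ p ∈ T, y p := by
        rw [Finset.sum_filter]
        refine Finset.sum_congr rfl fun T _ => ?_
        by_cases hc : cond q T
        · rw [if_pos hc]
          show (if cond q T then cq q (T.erase q) else 0) * _ = _
          rw [if_pos hc]
        · rw [if_neg hc]
          show (if cond q T then cq q (T.erase q) else 0) * _ = _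
          rw [if_neg hc, zero_mul]
      rw [e1]
      unfold ev
      rw [Finset.mul_sum]
      have hnot : ∀ T' ∈ (P.filter (fun p => p < q)).powerset, q ∉ T' := by
        intro T' hT' hqT
        have := (Finset.mem_filter.mp (Finset.mem_powerset.mp hT' hqT)).2
        omega
      refine Finset.sum_nbij' (fun T' => insert q T') (fun T => T.erase q) ?_ ?_ ?_ ?_ ?_
      · intro T' hT'
        have h3 := Finset.mem_powerset.mp hT'
        rw [Finset.mem_filter, Finset.mem_powerset]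
        refine ⟨Finset.insert_subset hqP (h3.trans (Finset.filter_subset _ _)),
          Finset.mem_insert_self _ _, ?_⟩
        rw [Finset.erase_insert (hnot T' hT')]
        exact h3
      · intro T hT
        rw [Finset.mem_filter] at hT
        exact Finset.mem_powerset.mpr hT.2.2
      · intro T' hT'
        exact Finset.erase_insert (hnot T' hT')
      · intro T hT
        rw [Finset.mem_filter] at hT
        exact Finset.insert_erase hT.2.1
      · intro T' hT'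
        rw [Finset.prod_insert (hnot T' hT'), Finset.erase_insert (hnot T' hT')]
        ring
    rw [Finset.sum_congr rfl hstep, Finset.sum_comm]
    unfold ev
    refine Finset.sum_congr rfl fun T _ => ?_
    rw [Finset.sum_mul]

/-! ### The rules -/

theorem Vg_nonneg {y : ℕ → ℝ} (hy : ZO y) (P : Finset ℕ) : 0 ≤ Vg y P := by
  unfold Vg
  exact Finset.prod_nonneg fun p _ => by linarith only [(SvA_ZO_bd hy p).2]

theorem SvA_Wt_mono {P : Finset ℕ} {D D' : ℝ} {c : Finset ℕ → ℝ} (h : Wt P D c) (hD : D ≤ D') :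
    Wt P D' c := ⟨h.1, fun T hT => ⟨(h.2 T hT).1, (h.2 T hT).2.trans hD⟩⟩

theorem Up.mono {g : ℕ → ℝ} {P : Finset ℕ} {D D' M M' : ℝ} (h : Up g P D M) (hD : D ≤ D') (hM : M ≤ M') :
    Up g P D' M' := by
  obtain ⟨c, h1, h2, h3⟩ := h
  exact ⟨c, SvA_Wt_mono h1 hD, h2, h3.trans hM⟩

theorem Lo.mono {g : ℕ → ℝ} {P : Finset ℕ} {D D' M M' : ℝ} (h : Lo g P D M) (hD : D ≤ D') (hM : M' ≤ M) :
    Lo g P D' M' := by
  obtain ⟨c, h1, h2, h3⟩ := h
  exact ⟨c, SvA_Wt_mono h1 hD, h2, hM.trans h3⟩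

theorem Lo_zero (g : ℕ → ℝ) (P : Finset ℕ) (D : ℝ) : Lo g P D 0 := by
  have h0 : ∀ y : ℕ → ℝ, ev (fun _ => 0) P y = 0 := by
    intro y
    unfold ev
    apply Finset.sum_eq_zero
    intro T _
    rw [zero_mul]
  refine ⟨fun _ => 0, ⟨fun T => by rw [abs_zero]; exact zero_le_one, fun T hT => absurd rfl hT⟩,
    fun y hy => ?_, ?_⟩
  · rw [h0]
    exact Vg_nonneg hy P
  · rw [h0]

theorem Ch_empty (g : ℕ → ℝ) : Ch g ∅ 1 1 1 0 := by
  have h1 : Wt ∅ 1 (SvA_ex ∅) := by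
    have := SvA_Wt_ex ∅ (by simp)
    rwa [Finset.prod_empty] at this
  refine ⟨SvA_ex ∅, SvA_ex ∅, h1, h1, fun y _ => (SvA_ev_ex ∅ y).ge, fun y _ => (SvA_ev_ex ∅ y).le,
    (SvA_ev_ex ∅ g).ge, ?_, ?_⟩
  · rw [SvA_ev_ex, one_mul]
  · rw [sub_zero, one_mul]

theorem Ch.mono {g : ℕ → ℝ} {P : Finset ℕ} {D D' F G D₁ D₁' F₁ G₁ : ℝ} (h : Ch g P D D' F G)
    (hV : 0 < Vg g P) (h1 : D ≤ D₁) (h2 : D' ≤ D₁') (h3 : F ≤ F₁) (h4 : G ≤ G₁) : Ch g P D₁ D₁' F₁ G₁ := by
  obtain ⟨c, c', e1, e2, e3, e4, e5, e6, e7⟩ := h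
  refine ⟨c, c', SvA_Wt_mono e1 h1, SvA_Wt_mono e2 h2, e3, e4, e5, ?_, ?_⟩
  · exact e6.trans (mul_le_mul_of_nonneg_right h3 hV.le)
  · exact le_trans (mul_le_mul_of_nonneg_right (by linarith only [h4]) (hV.le.trans e5)) e7

theorem Ch.up {g : ℕ → ℝ} {P : Finset ℕ} {D D' F G : ℝ} (h : Ch g P D D' F G) : Up g P D (F * Vg g P) := by
  obtain ⟨c, c', e1, e2, e3, e4, e5, e6, e7⟩ := h
  exact ⟨c, e1, e3, e6⟩

theorem Ch.lo {g : ℕ → ℝ} {P : Finset ℕ} {D D' F G : ℝ} (h : Ch g P D D' F G) (hG : G ≤ 1) :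
    Lo g P D' ((1 - G) * Vg g P) := by
  obtain ⟨c, c', e1, e2, e3, e4, e5, e6, e7⟩ := h
  exact ⟨c', e2, e4, (mul_le_mul_of_nonneg_left e5 (by linarith only [hG])).trans e7⟩

theorem Ch.step {g : ℕ → ℝ} {P B : Finset ℕ} {D D' F G z ε : ℝ} {b : ℕ} (h : Ch g P D D' F G)
    (hBP : Disjoint B P) (hD : 1 ≤ D) (hz : 1 ≤ z) (hBz : ∀ p ∈ B, (p : ℝ) ≤ z) (hb : Even b)
    (hgP : ∀ p ∈ P, 0 ≤ g p ∧ g p < 1) (hgB : ∀ p ∈ B, 0 ≤ g p ∧ g p < 1)
    (hε : Gold.es g B (b + 1) ≤ ε * Vg g B) :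
    Ch g (P ∪ B) (D * z ^ b) (max (D' * z ^ b) (D * z ^ (b + 1))) (F * (1 + ε)) (G + ε) := by
  obtain ⟨c, c', w1, w2, h1, h2, h5, h6, h7⟩ := h
  have hPB : Disjoint P B := hBP.symm
  have hVB : 0 < Vg g B := Finset.prod_pos fun p hp => by linarith only [(hgB p hp).2]
  have hVP : 0 < Vg g P := Finset.prod_pos fun p hp => by linarith only [(hgP p hp).2]
  have hg : ∀ p ∈ B, 0 ≤ g p ∧ g p ≤ 1 := fun p hp => ⟨(hgB p hp).1, (hgB p hp).2.le⟩
  have hes : 0 ≤ Gold.es g B (b + 1) := Gold.es_nonneg (fun p hp => (hg p hp).1) _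
  have hε0 : 0 ≤ ε := by
    by_contra hc
    push Not at hc
    nlinarith only [hε, hVB, hes, hc]
  have t1 : Vg g B ≤ Gold.tr g B b := Gold.bonferroni_even B hg hb
  have t2 : Gold.tr g B b ≤ Vg g B + Gold.es g B (b + 1) := by
    have := Gold.bonferroni_odd B hg (b := b + 1) hb.add_one
    rw [Gold.tr_succ, hb.add_one.neg_one_pow] at this
    have e : Vg g B = ∏ p ∈ B, (1 - g p) := rfl
    linarith only [this, e]
  have hMU : 0 < ev c P g := lt_of_lt_of_le hVP h5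
  have hev1 : ∀ y : ℕ → ℝ, ev (SvA_pr P B c (SvA_bw B b)) (P ∪ B) y = ev c P y * Gold.tr y B b := by
    intro y
    rw [SvA_ev_pr hPB, SvA_ev_bw]
  have hev2 : ∀ y : ℕ → ℝ, ev (fun T => SvA_pr P B c' (SvA_bw B b) T -
      SvA_pr P B c (SvA_ew B (b + 1)) T) (P ∪ B) y =
      ev c' P y * Gold.tr y B b - ev c P y * Gold.es y B (b + 1) := by
    intro y
    rw [SvA_ev_sub, SvA_ev_pr hPB, SvA_ev_pr hPB, SvA_ev_bw, SvA_ev_ew]
  refine ⟨SvA_pr P B c (SvA_bw B b),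
    fun T => SvA_pr P B c' (SvA_bw B b) T - SvA_pr P B c (SvA_ew B (b + 1)) T,
    SvA_Wt_pr hPB w1 (SvA_Wt_bw b hz hBz), ?_, ?_, ?_, ?_, ?_, ?_⟩
  · apply SvA_Wt_sub (SvA_Wt_pr hPB w2 (SvA_Wt_bw b hz hBz)) (SvA_Wt_pr hPB w1 (SvA_Wt_ew (b + 1) hBz))
    intro T
    by_cases hc : (T ∩ B).card ≤ b
    · right
      unfold SvA_pr SvA_ew
      split_ifs with e1 e2
      · omega
      · rw [mul_zero]
      · rfl
    · left
      unfold SvA_pr SvA_bw
      split_ifs with e1 e2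
      · exact absurd e2.2 hc
      · rw [mul_zero]
      · rfl
  · intro y hy
    have hu : ∀ p ∈ B, 0 ≤ y p ∧ y p ≤ 1 := fun p _ => SvA_ZO_bd hy p
    have e1 : Vg y B ≤ Gold.tr y B b := Gold.bonferroni_even B hu hb
    rw [hev1, SvA_Vg_union hPB]
    exact mul_le_mul (h1 y hy) e1 (Vg_nonneg hy B) ((Vg_nonneg hy P).trans (h1 y hy))
  · intro y hy
    have hu : ∀ p ∈ B, 0 ≤ y p ∧ y p ≤ 1 := fun p _ => SvA_ZO_bd hy p
    rw [hev2, SvA_Vg_union hPB]
    have e1 : Vg y B ≤ Gold.tr y B b := Gold.bonferroni_even B hu hb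
    have e2 : Gold.tr y B b - Gold.es y B (b + 1) ≤ Vg y B := by
      have := Gold.bonferroni_odd B hu (b := b + 1) hb.add_one
      rw [Gold.tr_succ, hb.add_one.neg_one_pow] at this
      have e : Vg y B = ∏ p ∈ B, (1 - y p) := rfl
      linarith only [this, e]
    have e3 : 0 ≤ Gold.es y B (b + 1) := Gold.es_nonneg (fun p hp => (hu p hp).1) _
    have e4 := Vg_nonneg hy B
    have e5 := Vg_nonneg hy P
    have e6 : ev c' P y * Gold.tr y B b ≤ Vg y P * Gold.tr y B b :=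
      mul_le_mul_of_nonneg_right (h2 y hy) (e4.trans e1)
    have e7 : Vg y P * Gold.es y B (b + 1) ≤ ev c P y * Gold.es y B (b + 1) :=
      mul_le_mul_of_nonneg_right (h1 y hy) e3
    linarith only [e6, e7, mul_le_mul_of_nonneg_left e2 e5]
  · rw [hev1, SvA_Vg_union hPB]
    exact mul_le_mul h5 t1 hVB.le hMU.le
  · rw [hev1, SvA_Vg_union hPB]
    have hF : 0 ≤ F * Vg g P := hMU.le.trans h6
    calc ev c P g * Gold.tr g B b ≤ (F * Vg g P) * ((1 + ε) * Vg g B) := by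
          apply mul_le_mul h6 _ (hVB.le.trans t1) hF
          linarith only [hε, t2]
      _ = F * (1 + ε) * (Vg g P * Vg g B) := by ring
  · rw [hev1, hev2]
    have k1 : (1 - G) * ev c P g * Gold.tr g B b ≤ ev c' P g * Gold.tr g B b :=
      mul_le_mul_of_nonneg_right h7 (hVB.le.trans t1)
    have k2 : Gold.es g B (b + 1) ≤ ε * Gold.tr g B b := hε.trans (mul_le_mul_of_nonneg_left t1 hε0)
    have k3 := mul_le_mul_of_nonneg_right k2 hMU.le
    linarith only [k1, k3]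

/-- Buchstab, upper. -/
theorem Up_buchstab {g : ℕ → ℝ} {P : Finset ℕ} {D M w : ℝ} {m : ℕ → ℝ} (hg : ∀ p ∈ P, 0 ≤ g p)
    (hP : ∀ p ∈ P, 1 ≤ p) (h0 : Up g (P.filter (fun p : ℕ => (p : ℝ) ≤ w)) D M)
    (h1 : ∀ q ∈ P, w < (q : ℝ) → Lo g (P.filter (fun p => p < q)) (D / q) (m q)) :
    Up g P D (M - ∑ q ∈ P.filter (fun q : ℕ => w < (q : ℝ)), g q * m q) := by
  obtain ⟨c₀, a1, a2, a3⟩ := h0
  have h1' : ∀ q : ℕ, ∃ c : Finset ℕ → ℝ, q ∈ P → w < (q : ℝ) →
      (Wt (P.filter (fun p => p < q)) (D / q) c ∧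
        (∀ y, ZO y → ev c (P.filter (fun p => p < q)) y ≤ Vg y (P.filter (fun p => p < q))) ∧
        m q ≤ ev c (P.filter (fun p => p < q)) g) := by
    intro q
    by_cases hq : q ∈ P ∧ w < (q : ℝ)
    · obtain ⟨c, e1, e2, e3⟩ := h1 q hq.1 hq.2
      exact ⟨c, fun _ _ => ⟨e1, e2, e3⟩⟩
    · exact ⟨fun _ => 0, fun e1 e2 => absurd ⟨e1, e2⟩ hq⟩
  choose cq hcq using h1'
  obtain ⟨c, b1, b2⟩ := SvA_buch_core hP a1 (fun q hq hw => (hcq q hq hw).1)
  refine ⟨c, b1, fun y hy => ?_, ?_⟩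
  · rw [b2, SvA_Vg_buchstab y P w]
    apply sub_le_sub (a2 y hy)
    refine Finset.sum_le_sum fun q hq => ?_
    rw [Finset.mem_filter] at hq
    exact mul_le_mul_of_nonneg_left ((hcq q hq.1 hq.2).2.1 y hy) (SvA_ZO_bd hy q).1
  · rw [b2]
    apply sub_le_sub a3
    refine Finset.sum_le_sum fun q hq => ?_
    rw [Finset.mem_filter] at hq
    exact mul_le_mul_of_nonneg_left (hcq q hq.1 hq.2).2.2 (hg q hq.1)

/-- Buchstab, lower. -/
theorem Lo_buchstab {g : ℕ → ℝ} {P : Finset ℕ} {D M w : ℝ} {m : ℕ → ℝ} (hg : ∀ p ∈ P, 0 ≤ g p)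
    (hP : ∀ p ∈ P, 1 ≤ p) (h0 : Lo g (P.filter (fun p : ℕ => (p : ℝ) ≤ w)) D M)
    (h1 : ∀ q ∈ P, w < (q : ℝ) → Up g (P.filter (fun p => p < q)) (D / q) (m q)) :
    Lo g P D (M - ∑ q ∈ P.filter (fun q : ℕ => w < (q : ℝ)), g q * m q) := by
  obtain ⟨c₀, a1, a2, a3⟩ := h0
  have h1' : ∀ q : ℕ, ∃ c : Finset ℕ → ℝ, q ∈ P → w < (q : ℝ) →
      (Wt (P.filter (fun p => p < q)) (D / q) c ∧
        (∀ y, ZO y → Vg y (P.filter (fun p => p < q)) ≤ ev c (P.filter (fun p => p < q)) y) ∧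
        ev c (P.filter (fun p => p < q)) g ≤ m q) := by
    intro q
    by_cases hq : q ∈ P ∧ w < (q : ℝ)
    · obtain ⟨c, e1, e2, e3⟩ := h1 q hq.1 hq.2
      exact ⟨c, fun _ _ => ⟨e1, e2, e3⟩⟩
    · exact ⟨fun _ => 0, fun e1 e2 => absurd ⟨e1, e2⟩ hq⟩
  choose cq hcq using h1'
  obtain ⟨c, b1, b2⟩ := SvA_buch_core hP a1 (fun q hq hw => (hcq q hq hw).1)
  refine ⟨c, b1, fun y hy => ?_, ?_⟩
  · rw [b2, SvA_Vg_buchstab y P w]
    apply sub_le_sub (a2 y hy)
    refine Finset.sum_le_sum fun q hq => ?_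
    rw [Finset.mem_filter] at hq
    exact mul_le_mul_of_nonneg_left ((hcq q hq.1 hq.2).2.1 y hy) (SvA_ZO_bd hy q).1
  · rw [b2]
    apply sub_le_sub a3
    refine Finset.sum_le_sum fun q hq => ?_
    rw [Finset.mem_filter] at hq
    exact mul_le_mul_of_nonneg_left (hcq q hq.1 hq.2).2.2 (hg q hq.1)

/-- The Buchstab identity for the product: telescoping over a range `(a, b]`. -/
theorem sum_g_V {g : ℕ → ℝ} (P : Finset ℕ) {a b : ℝ} (hab : a ≤ b) :
    ∑ q ∈ P.filter (fun q : ℕ => a < (q : ℝ) ∧ (q : ℝ) ≤ b), g q * Vg g (P.filter (fun p => p < q))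
      = Vg g (P.filter (fun p : ℕ => (p : ℝ) ≤ a)) - Vg g (P.filter (fun p : ℕ => (p : ℝ) ≤ b)) := by
  rw [SvA_Vg_ordered_le, SvA_Vg_ordered_le]
  have h : ∑ q ∈ P.filter (fun q : ℕ => (q : ℝ) ≤ b), g q * Vg g (P.filter (fun p => p < q)) =
      ∑ q ∈ P.filter (fun q : ℕ => (q : ℝ) ≤ a), g q * Vg g (P.filter (fun p => p < q)) +
      ∑ q ∈ P.filter (fun q : ℕ => a < (q : ℝ) ∧ (q : ℝ) ≤ b),
        g q * Vg g (P.filter (fun p => p < q)) := by
    rw [← Finset.sum_filter_add_sum_filter_not (P.filter (fun q : ℕ => (q : ℝ) ≤ b))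
      (fun q : ℕ => (q : ℝ) ≤ a)]
    congr 1
    · refine Finset.sum_congr ?_ fun _ _ => rfl
      ext q
      rw [Finset.mem_filter, Finset.mem_filter, Finset.mem_filter]
      constructor
      · rintro ⟨⟨e1, _⟩, e2⟩
        exact ⟨e1, e2⟩
      · rintro ⟨e1, e2⟩
        exact ⟨⟨e1, e2.trans hab⟩, e2⟩
    · refine Finset.sum_congr ?_ fun _ _ => rfl
      ext q
      rw [Finset.mem_filter, Finset.mem_filter, Finset.mem_filter, not_le]
      constructor
      · rintro ⟨⟨e1, e2⟩, e3⟩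
        exact ⟨e1, e3, e2⟩
      · rintro ⟨e1, e2, e3⟩
        exact ⟨⟨e1, e3⟩, e2⟩
  rw [h]
  ring

end Pool.Agent.H91.PK

end

section

/-!
# ISP LossC: the numerical double sum of the loss

a_j = 0.09 + 0.2404 j/40 (j = 0..40, a_40 = 0.3304), b_k = 0.3348 + 0.1202 k/20 (k = 0..20, b_20 = 0.455).  a_j + 2 b_k < 1 or = 1 is decided exactly:
0.2404 j/40 + 0.2404 k/20 < 1 - 0.09 - 0.6696 = 0.2404, i.e. j + 2k < 40.
log(v'/v) ≤ (v' - v)(1/v + 1/v')/2.  The double sum (half of it) is then ≤ 0.28666 (floating point: 0.2866524).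
Rational arithmetic: scale 10^4·40 etc. to integers; a list / sum over range 40 × range 20 with `decide +kernel` on natural numbers (round each term up to
10^-9), or `norm_num`.
-/

set_option autoImplicit false

namespace Pool.Agent.H36.IS2

open Finset

noncomputable def ca (j : ℕ) : ℝ := 0.09 + 0.00601 * j

noncomputable def cb (k : ℕ) : ℝ := 0.3348 + 0.00601 * k

private def LossC_A (j : ℕ) : ℕ := 9000 + 601 * j

private def LossC_B (k : ℕ) : ℕ := 33480 + 601 * k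

private def LossC_n (j k : ℕ) : ℕ :=
  601 ^ 2 * (LossC_A j + LossC_A (j + 1)) * (LossC_B k + LossC_B (k + 1)) * 10 ^ 5 * 10 ^ 9

private def LossC_d (j k : ℕ) : ℕ :=
  4 * LossC_A j * LossC_A (j + 1) * LossC_B k * LossC_B (k + 1) *
    (10 ^ 5 - (LossC_A (j + 1) + LossC_B (k + 1)))

private def LossC_t (j k : ℕ) : ℕ := if j + 2 * k < 40 then LossC_n j k / LossC_d j k + 1 else 0

private theorem LossC_dec : ∑ j ∈ range 40, ∑ k ∈ range 20, LossC_t j k ≤ 573400000 := by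
  decide +kernel

private theorem LossC_log {v w : ℝ} (hv : 0 < v) (hvw : v ≤ w) :
    Real.log (w / v) ≤ (w / v - v / w) / 2 := by
  have hw : 0 < w := lt_of_lt_of_le hv hvw
  have h1 : 0 ≤ Real.log (w / v) := Real.log_nonneg (by rw [le_div_iff₀ hv]; linarith only [hvw])
  have h2 := Real.self_le_sinh_iff.2 h1
  rw [Real.sinh_log (div_pos hw hv), inv_div] at h2
  exact h2

private theorem LossC_ca (j : ℕ) : ca j = (LossC_A j : ℝ) / 10 ^ 5 := by
  unfold ca LossC_A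
  push_cast
  ring

private theorem LossC_cb (j : ℕ) : cb j = (LossC_B j : ℝ) / 10 ^ 5 := by
  unfold cb LossC_B
  push_cast
  ring

private theorem LossC_div (n d : ℕ) (hd : 0 < d) : (n : ℝ) / d ≤ ((n / d + 1 : ℕ) : ℝ) := by
  rw [div_le_iff₀ (by exact_mod_cast hd)]
  have h1 := Nat.div_add_mod n d
  have h2 := Nat.mod_lt n hd
  have h3 : n ≤ (n / d + 1) * d := by linarith only [h1, h2]
  exact_mod_cast h3

private theorem LossC_term (j k : ℕ) :
    (if j + 2 * k < 40 then Real.log (ca (j + 1) / ca j) * Real.log (cb (k + 1) / cb k) /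
      (1 - ca (j + 1) - cb (k + 1)) else 0) ≤ (LossC_t j k : ℝ) / 10 ^ 9 := by
  unfold LossC_t
  split_ifs with h
  · have hA0 : (0 : ℝ) < LossC_A j := by exact_mod_cast (by unfold LossC_A; omega : 0 < LossC_A j)
    have hB0 : (0 : ℝ) < LossC_B k := by exact_mod_cast (by unfold LossC_B; omega : 0 < LossC_B k)
    have hA1 : (LossC_A (j + 1) : ℝ) = LossC_A j + 601 := by
      unfold LossC_A
      push_cast
      ring
    have hB1 : (LossC_B (k + 1) : ℝ) = LossC_B k + 601 := by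
      unfold LossC_B
      push_cast
      ring
    have hAB : LossC_A (j + 1) + LossC_B (k + 1) < 10 ^ 5 := by
      unfold LossC_A LossC_B
      omega
    have hABr : (LossC_A (j + 1) : ℝ) + LossC_B (k + 1) < 10 ^ 5 := by exact_mod_cast hAB
    have hd0 : 0 < LossC_d j k := by
      unfold LossC_d
      have h1 : 0 < LossC_A j := by unfold LossC_A; omega
      have h2 : 0 < LossC_B k := by unfold LossC_B; omega
      have h3 : 0 < LossC_A (j + 1) := by unfold LossC_A; omega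
      have h4 : 0 < LossC_B (k + 1) := by unfold LossC_B; omega
      have h5 : 0 < 10 ^ 5 - (LossC_A (j + 1) + LossC_B (k + 1)) := Nat.sub_pos_of_lt hAB
      exact Nat.mul_pos (Nat.mul_pos (Nat.mul_pos (Nat.mul_pos (Nat.mul_pos (by norm_num) h1) h3)
        h2) h4) h5
    have hdr : (LossC_d j k : ℝ) = 4 * LossC_A j * LossC_A (j + 1) * LossC_B k * LossC_B (k + 1) *
        (10 ^ 5 - (LossC_A (j + 1) + LossC_B (k + 1))) := by
      unfold LossC_d
      rw [Nat.cast_mul, Nat.cast_sub hAB.le]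
      push_cast
      ring
    have hnr : (LossC_n j k : ℝ) = 601 ^ 2 * (LossC_A j + LossC_A (j + 1)) *
        (LossC_B k + LossC_B (k + 1)) * 10 ^ 5 * 10 ^ 9 := by
      unfold LossC_n
      push_cast
      ring
    have hca0 : 0 < ca j := by rw [LossC_ca]; exact div_pos hA0 (by norm_num)
    have hcb0 : 0 < cb k := by rw [LossC_cb]; exact div_pos hB0 (by norm_num)
    have hca1 : ca j ≤ ca (j + 1) := by
      rw [LossC_ca, LossC_ca, hA1]
      gcongr
      linarith only []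
    have hcb1 : cb k ≤ cb (k + 1) := by
      rw [LossC_cb, LossC_cb, hB1]
      gcongr
      linarith only []
    have hpos : 0 < 1 - ca (j + 1) - cb (k + 1) := by
      rw [LossC_ca, LossC_cb]
      have : (LossC_A (j + 1) : ℝ) / 10 ^ 5 + LossC_B (k + 1) / 10 ^ 5 < 1 := by
        rw [← add_div, div_lt_one (by norm_num)]
        exact hABr
      linarith only [hABr]
    have hl1 := LossC_log hca0 hca1
    have hl2 := LossC_log hcb0 hcb1
    have hl2' : 0 ≤ Real.log (cb (k + 1) / cb k) :=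
      Real.log_nonneg (by rw [le_div_iff₀ hcb0]; linarith only [hcb1])
    have hl1' : 0 ≤ (ca (j + 1) / ca j - ca j / ca (j + 1)) / 2 :=
      le_trans (Real.log_nonneg (by rw [le_div_iff₀ hca0]; linarith only [hca1])) hl1
    have hq : (ca (j + 1) / ca j - ca j / ca (j + 1)) / 2 *
        ((cb (k + 1) / cb k - cb k / cb (k + 1)) / 2) / (1 - ca (j + 1) - cb (k + 1)) =
        (LossC_n j k : ℝ) / LossC_d j k / 10 ^ 9 := by
      rw [hnr, hdr, LossC_ca, LossC_ca, LossC_cb, LossC_cb]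
      have hx : (0 : ℝ) < LossC_A (j + 1) := by rw [hA1]; linarith only []
      have hy : (0 : ℝ) < LossC_B (k + 1) := by rw [hB1]; linarith only []
      have hz : (0 : ℝ) < 10 ^ 5 - (LossC_A (j + 1) + LossC_B (k + 1)) := by linarith only [hABr]
      have hz' : (1 : ℝ) - LossC_A (j + 1) / 10 ^ 5 - LossC_B (k + 1) / 10 ^ 5 =
          (10 ^ 5 - (LossC_A (j + 1) + LossC_B (k + 1))) / 10 ^ 5 := by
        field_simp
        ring
      rw [hz']
      have e1 : ((LossC_A (j + 1) : ℝ) / 10 ^ 5 / (LossC_A j / 10 ^ 5) -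
          LossC_A j / 10 ^ 5 / (LossC_A (j + 1) / 10 ^ 5)) / 2 =
          601 * (LossC_A j + LossC_A (j + 1)) / (2 * (LossC_A j * LossC_A (j + 1))) := by
        have : (601 : ℝ) = LossC_A (j + 1) - LossC_A j := by rw [hA1]; ring
        rw [this]
        field_simp
        ring
      have e2 : ((LossC_B (k + 1) : ℝ) / 10 ^ 5 / (LossC_B k / 10 ^ 5) -
          LossC_B k / 10 ^ 5 / (LossC_B (k + 1) / 10 ^ 5)) / 2 =
          601 * (LossC_B k + LossC_B (k + 1)) / (2 * (LossC_B k * LossC_B (k + 1))) := by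
        have : (601 : ℝ) = LossC_B (k + 1) - LossC_B k := by rw [hB1]; ring
        rw [this]
        field_simp
        ring
      rw [e1, e2]
      generalize (LossC_A j : ℝ) = a at *
      generalize (LossC_A (j + 1) : ℝ) = a' at *
      generalize (LossC_B k : ℝ) = b at *
      generalize (LossC_B (k + 1) : ℝ) = b' at *
      generalize (10 : ℝ) ^ 5 - (a' + b') = z at *
      field_simp
      ring
    calc Real.log (ca (j + 1) / ca j) * Real.log (cb (k + 1) / cb k) / (1 - ca (j + 1) - cb (k + 1))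
        ≤ (ca (j + 1) / ca j - ca j / ca (j + 1)) / 2 *
          ((cb (k + 1) / cb k - cb k / cb (k + 1)) / 2) / (1 - ca (j + 1) - cb (k + 1)) := by
          apply div_le_div_of_nonneg_right _ hpos.le
          exact mul_le_mul hl1 hl2 hl2' hl1'
      _ = (LossC_n j k : ℝ) / LossC_d j k / 10 ^ 9 := hq
      _ ≤ _ := by
          apply div_le_div_of_nonneg_right _ (by norm_num)
          exact LossC_div _ _ hd0
  · simp

theorem loss_num : 1 / 2 * ∑ j ∈ range 40, ∑ k ∈ range 20,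
    (if j + 2 * k < 40 then Real.log (ca (j + 1) / ca j) * Real.log (cb (k + 1) / cb k) / (1 - ca (j + 1) - cb (k + 1)) else 0) ≤
      (0.2867 : ℝ) := by
  have h1 : ∑ j ∈ range 40, ∑ k ∈ range 20,
      (if j + 2 * k < 40 then Real.log (ca (j + 1) / ca j) * Real.log (cb (k + 1) / cb k) / (1 - ca (j + 1) - cb (k + 1)) else 0) ≤
      ∑ j ∈ range 40, ∑ k ∈ range 20, (LossC_t j k : ℝ) / 10 ^ 9 :=
    Finset.sum_le_sum fun j _ => Finset.sum_le_sum fun k _ => LossC_term j k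
  have h2 : ∑ j ∈ range 40, ∑ k ∈ range 20, (LossC_t j k : ℝ) / 10 ^ 9 =
      ((∑ j ∈ range 40, ∑ k ∈ range 20, LossC_t j k : ℕ) : ℝ) / 10 ^ 9 := by
    push_cast
    rw [Finset.sum_div]
    refine Finset.sum_congr rfl fun j _ => ?_
    rw [Finset.sum_div]
  have h3 : ((∑ j ∈ range 40, ∑ k ∈ range 20, LossC_t j k : ℕ) : ℝ) ≤ 573400000 := by
    exact_mod_cast LossC_dec
  rw [h2] at h1
  have h4 : ((∑ j ∈ range 40, ∑ k ∈ range 20, LossC_t j k : ℕ) : ℝ) / 10 ^ 9 ≤ 573400000 / 10 ^ 9 :=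
    div_le_div_of_nonneg_right h3 (by norm_num)
  have h5 : (573400000 : ℝ) / 10 ^ 9 = 2 * 0.2867 := by norm_num
  rw [h5] at h4
  linarith only [h1, h3]

end Pool.Agent.H36.IS2

end

section

/-!
# ISP QArr: the array ∑_q [q] c_q

Qs, P' disjoint subsets of P, cq q supported on subsets of P'.  A set T contributes to `qarr` only if T = insert q T' with T' ⊆ P' and q ∈ Qs, q is the
only element of T in Qs.  So ev (qarr) P y = ∑_{q ∈ Qs} y q · ev (cq q) P y.
-/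

set_option autoImplicit false

namespace Pool.Agent.H36.IS2

open Finset Filter Pool.Agent.H36.IS

open Pool.Agent.H91.PK (ev)

theorem qarr_ev {P Qs P' : Finset ℕ} (hQ : Qs ⊆ P) (hP' : P' ⊆ P) (hd : Disjoint Qs P') {cq : ℕ → Finset ℕ → ℝ}
    (hc : ∀ q ∈ Qs, ∀ T, cq q T ≠ 0 → T ⊆ P') (y : ℕ → ℝ) :
    ev (qarr Qs cq) P y = ∑ q ∈ Qs, y q * ev (cq q) P y := by
  have h1 : ev (qarr Qs cq) P y = ∑ q ∈ Qs, ∑ T ∈ P.powerset,
      (if q ∈ T then cq q (T.erase q) else 0) * ∏ p ∈ T, y p := by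
    rw [Finset.sum_comm]
    unfold ev qarr
    refine Finset.sum_congr rfl fun T _ => ?_
    rw [Finset.sum_mul]
  rw [h1]
  refine Finset.sum_congr rfl fun q hq => ?_
  unfold ev
  have hins : insert q (P.erase q) = P := Finset.insert_erase (hQ hq)
  have hnot : q ∉ P.erase q := Finset.notMem_erase q P
  rw [← hins, Finset.sum_powerset_insert hnot, Finset.sum_powerset_insert hnot]
  have e1 : ∑ t ∈ (P.erase q).powerset, (if q ∈ t then cq q (t.erase q) else 0) * ∏ p ∈ t, y p = 0 := by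
    refine Finset.sum_eq_zero fun t ht => ?_
    rw [Finset.mem_powerset] at ht
    rw [if_neg (fun h => hnot (ht h)), zero_mul]
  have e2 : ∑ t ∈ (P.erase q).powerset, cq q (insert q t) * ∏ p ∈ insert q t, y p = 0 := by
    refine Finset.sum_eq_zero fun t _ => ?_
    have h3 : cq q (insert q t) = 0 := by
      by_contra h4
      have h5 := hc q hq _ h4 (Finset.mem_insert_self q t)
      exact (Finset.disjoint_left.1 hd hq) h5
    rw [h3, zero_mul]
  rw [e1, e2, zero_add, add_zero, Finset.mul_sum]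
  refine Finset.sum_congr rfl fun t ht => ?_
  rw [Finset.mem_powerset] at ht
  have hqt : q ∉ t := fun h => hnot (ht h)
  rw [if_pos (Finset.mem_insert_self q t), Finset.erase_insert hqt, Finset.prod_insert hqt]
  ring

theorem qarr_sup {Qs P' : Finset ℕ} (hd : Disjoint Qs P') {cq : ℕ → Finset ℕ → ℝ}
    (hc : ∀ q ∈ Qs, ∀ T, cq q T ≠ 0 → T ⊆ P') (T : Finset ℕ) (hT : qarr Qs cq T ≠ 0) :
    ∃ q ∈ Qs, q ∈ T ∧ cq q (T.erase q) ≠ 0 ∧ qarr Qs cq T = cq q (T.erase q) := by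
  have h1 : ∃ q ∈ Qs, (if q ∈ T then cq q (T.erase q) else 0) ≠ 0 := by
    by_contra hcon
    push Not at hcon
    exact hT (Finset.sum_eq_zero hcon)
  obtain ⟨q, hq, h2⟩ := h1
  have hqT : q ∈ T := by
    by_contra h3
    rw [if_neg h3] at h2
    exact h2 rfl
  rw [if_pos hqT] at h2
  refine ⟨q, hq, hqT, h2, ?_⟩
  unfold qarr
  rw [Finset.sum_eq_single q]
  · rw [if_pos hqT]
  · intro q' hq' hne
    rw [if_neg]
    intro h3
    have h4 : q' ∈ T.erase q := Finset.mem_erase.2 ⟨hne, h3⟩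
    exact (Finset.disjoint_left.1 hd hq') (hc q hq _ h2 h4)
  · intro h3
    exact absurd hq h3

theorem qarr_bd {Qs P' : Finset ℕ} (hd : Disjoint Qs P') {cq : ℕ → Finset ℕ → ℝ}
    (hc : ∀ q ∈ Qs, ∀ T, cq q T ≠ 0 → T ⊆ P') (hb : ∀ q ∈ Qs, ∀ T, |cq q T| ≤ 1) (T : Finset ℕ) : |qarr Qs cq T| ≤ 1 := by
  by_cases hT : qarr Qs cq T = 0
  · rw [hT, abs_zero]
    norm_num
  · obtain ⟨q, hq, _, _, h⟩ := qarr_sup hd hc T hT
    rw [h]
    exact hb q hq _

end Pool.Agent.H36.IS2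

end

section

/-!
# IS MCa: Mertens on cells

`mert_cell`: ∑_{x^a < p ≤ x^b} 1/(p-1) ≤ log(b/a) + ε for large x.  (`Pool.Agent.H91.Gold.mertens_wz`:
∑_{w<p≤z} 1/p ≤ log(log z/log w) + 0.2295/log w with w = ⌊x^a⌋, z = ⌊x^b⌋; log⌊x^a⌋ ≥ a log x - 1/..., 1/(p-1) - 1/p ≤ 2/p²,
∑_{p>w} 2/p² ≤ 4/w.)
-/

set_option autoImplicit false

namespace Pool.Agent.H36.IS

open Finset Filter

private theorem MCa_tel {w : ℕ} (hw : 1 ≤ w) {z : ℕ} (hwz : w ≤ z) :
    ∑ n ∈ Ioc w z, (1 / ((n : ℝ) - 1) - 1 / (n : ℝ)) = 1 / (w : ℝ) - 1 / (z : ℝ) := by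
  induction z, hwz using Nat.le_induction with
  | base => simp
  | succ z hz ih =>
    rw [← Finset.insert_Ioc_right_eq_Ioc_add_one hz, Finset.sum_insert (by simp), ih]
    push_cast
    ring

private theorem MCa_sum {w z : ℕ} (hw : 65536 ≤ w) (hwz : w ≤ z) :
    ∑ p ∈ Pool.Agent.H91.Gold.Pr w z, fn p ≤
      Real.log (Real.log z / Real.log w) + 0.2295 / Real.log w + 1 / (w : ℝ) := by
  have h1 := Pool.Agent.H91.Gold.mertens_wz hw hwz
  have h2 : ∑ p ∈ Pool.Agent.H91.Gold.Pr w z, fn p =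
      ∑ p ∈ Pool.Agent.H91.Gold.Pr w z, (1 : ℝ) / p +
        ∑ p ∈ Pool.Agent.H91.Gold.Pr w z, (1 / ((p : ℝ) - 1) - 1 / (p : ℝ)) := by
    rw [← Finset.sum_add_distrib]
    refine Finset.sum_congr rfl fun p _ => ?_
    unfold fn
    ring
  have h3 : ∑ p ∈ Pool.Agent.H91.Gold.Pr w z, (1 / ((p : ℝ) - 1) - 1 / (p : ℝ)) ≤
      ∑ n ∈ Ioc w z, (1 / ((n : ℝ) - 1) - 1 / (n : ℝ)) := by
    refine Finset.sum_le_sum_of_subset_of_nonneg (Finset.filter_subset _ _) ?_
    intro n hn _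
    have hn' : w < n := (Finset.mem_Ioc.1 hn).1
    have hn2 : (1 : ℝ) < n := by
      have : 1 < n := by omega
      exact_mod_cast this
    have : 1 / (n : ℝ) ≤ 1 / ((n : ℝ) - 1) :=
      one_div_le_one_div_of_le (by linarith only [hn2]) (by linarith only [])
    linarith only [this]
  rw [MCa_tel (by omega) hwz] at h3
  have h4 : (0 : ℝ) ≤ 1 / (z : ℝ) := by positivity
  linarith only [h1, h2, h3, h4]

private theorem MCa_lim (a b : ℝ) (ha : 0 < a) (hb : 0 < b) :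
    Tendsto (fun t : ℝ => Real.log (b * t / (a * t - 1)) + 1.2295 / (a * t - 1)) atTop
      (nhds (Real.log (b / a))) := by
  have h1 : Tendsto (fun t : ℝ => a * t - 1) atTop atTop :=
    tendsto_atTop_add_const_right atTop (-1) (tendsto_id.const_mul_atTop ha)
  have h2 : Tendsto (fun t : ℝ => b / a + b / a * (a * t - 1)⁻¹) atTop
      (nhds (b / a + b / a * 0)) :=
    (tendsto_inv_atTop_zero.comp h1).const_mul _ |>.const_add _
  have h3 : Tendsto (fun t : ℝ => b * t / (a * t - 1)) atTop (nhds (b / a)) := by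
    rw [mul_zero, add_zero] at h2
    refine h2.congr' ?_
    filter_upwards [h1.eventually_gt_atTop 0] with t ht
    have h5 : a * t - 1 ≠ 0 := ht.ne'
    field_simp
    ring
  have h4 : Tendsto (fun t : ℝ => 1.2295 / (a * t - 1)) atTop (nhds 0) := h1.const_div_atTop _
  have h5 := (h3.log (div_pos hb ha).ne').add h4
  rwa [add_zero] at h5

theorem mert_cell (a b ε : ℝ) (ha : 0 < a) (hab : a ≤ b) (hb : b ≤ 1) (hε : 0 < ε) : ∀ᶠ x : ℕ in atTop,
    ∑ p ∈ (PX x).filter (fun p : ℕ => (x : ℝ) ^ a < p ∧ (p : ℝ) ≤ (x : ℝ) ^ b), fn p ≤ Real.log (b / a) + ε := by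
  have hb0 : 0 < b := lt_of_lt_of_le ha hab
  have hlog : Tendsto (fun x : ℕ => Real.log (x : ℝ)) atTop atTop :=
    Real.tendsto_log_atTop.comp tendsto_natCast_atTop_atTop
  have e1 : ∀ᶠ x : ℕ in atTop, Real.log (b * Real.log x / (a * Real.log x - 1)) +
      1.2295 / (a * Real.log x - 1) < Real.log (b / a) + ε :=
    ((MCa_lim a b ha hb0).comp hlog).eventually_lt_const (by linarith only [hε])
  have e2 : ∀ᶠ x : ℕ in atTop, (65536 : ℝ) ≤ (x : ℝ) ^ a :=
    ((tendsto_rpow_atTop ha).comp tendsto_natCast_atTop_atTop).eventually_ge_atTop _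
  have e3 : ∀ᶠ x : ℕ in atTop, 1 < a * Real.log (x : ℝ) :=
    (hlog.const_mul_atTop ha).eventually_gt_atTop 1
  filter_upwards [e1, e2, e3, eventually_ge_atTop 1] with x h1 h2 h3 h4
  have hx1 : (1 : ℝ) ≤ x := by exact_mod_cast h4
  have hx0 : (0 : ℝ) < x := by linarith only [hx1]
  have hw : 65536 ≤ ⌊(x : ℝ) ^ a⌋₊ := Nat.le_floor (by exact_mod_cast h2)
  have hwz : ⌊(x : ℝ) ^ a⌋₊ ≤ ⌊(x : ℝ) ^ b⌋₊ :=
    Nat.floor_mono (Real.rpow_le_rpow_of_exponent_le hx1 hab)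
  have hsub : (PX x).filter (fun p : ℕ => (x : ℝ) ^ a < p ∧ (p : ℝ) ≤ (x : ℝ) ^ b) ⊆
      Pool.Agent.H91.Gold.Pr ⌊(x : ℝ) ^ a⌋₊ ⌊(x : ℝ) ^ b⌋₊ := by
    intro p hp
    rw [Finset.mem_filter] at hp
    obtain ⟨hp, hpa, hpb⟩ := hp
    unfold PX at hp
    rw [Finset.mem_filter] at hp
    rw [Pool.Agent.H91.Gold.mem_Pr]
    refine ⟨⟨?_, Nat.le_floor hpb⟩, hp.2.1⟩
    exact (Nat.floor_lt (by positivity)).2 hpa
  have hle : ∑ p ∈ (PX x).filter (fun p : ℕ => (x : ℝ) ^ a < p ∧ (p : ℝ) ≤ (x : ℝ) ^ b), fn p ≤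
      ∑ p ∈ Pool.Agent.H91.Gold.Pr ⌊(x : ℝ) ^ a⌋₊ ⌊(x : ℝ) ^ b⌋₊, fn p := by
    refine Finset.sum_le_sum_of_subset_of_nonneg hsub ?_
    intro p hp _
    have : 1 ≤ p := (Pool.Agent.H91.Gold.mem_Pr.1 hp).2.one_lt.le
    have h5 : (1 : ℝ) ≤ p := by exact_mod_cast this
    unfold fn
    exact div_nonneg zero_le_one (by linarith only [h5])
  have hm := MCa_sum hw hwz
  have hwr : (65536 : ℝ) ≤ (⌊(x : ℝ) ^ a⌋₊ : ℝ) := by exact_mod_cast hw
  have hlw : a * Real.log x - 1 ≤ Real.log (⌊(x : ℝ) ^ a⌋₊ : ℝ) := by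
    have h5 : (x : ℝ) ^ a / 2 ≤ (⌊(x : ℝ) ^ a⌋₊ : ℝ) := by
      have := Nat.lt_floor_add_one ((x : ℝ) ^ a)
      linarith only [hwr, this]
    have h6 : Real.log ((x : ℝ) ^ a / 2) ≤ Real.log (⌊(x : ℝ) ^ a⌋₊ : ℝ) :=
      Real.log_le_log (by positivity) h5
    rw [Real.log_div (by positivity) (by norm_num), Real.log_rpow hx0] at h6
    have h7 : Real.log 2 ≤ 1 := by
      have := Real.log_two_lt_d9
      linarith only [this]
    linarith only [h6, h7]
  have hlz : Real.log (⌊(x : ℝ) ^ b⌋₊ : ℝ) ≤ b * Real.log x := by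
    rw [← Real.log_rpow hx0]
    refine Real.log_le_log ?_ (Nat.floor_le (by positivity))
    have : 0 < ⌊(x : ℝ) ^ b⌋₊ := by omega
    exact_mod_cast this
  have hpos : 0 < a * Real.log x - 1 := by linarith only [h3]
  have hlz0 : 0 < Real.log (⌊(x : ℝ) ^ b⌋₊ : ℝ) := by
    refine Real.log_pos ?_
    have : 1 < ⌊(x : ℝ) ^ b⌋₊ := by omega
    exact_mod_cast this
  have hlwp : 0 < Real.log (⌊(x : ℝ) ^ a⌋₊ : ℝ) := lt_of_lt_of_le hpos hlw
  have k1 : Real.log (Real.log (⌊(x : ℝ) ^ b⌋₊ : ℝ) / Real.log (⌊(x : ℝ) ^ a⌋₊ : ℝ)) ≤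
      Real.log (b * Real.log x / (a * Real.log x - 1)) := by
    refine Real.log_le_log (div_pos hlz0 hlwp) ?_
    exact div_le_div₀ (hlz0.le.trans hlz) hlz hpos hlw
  have k2 : 0.2295 / Real.log (⌊(x : ℝ) ^ a⌋₊ : ℝ) ≤ 0.2295 / (a * Real.log x - 1) :=
    div_le_div_of_nonneg_left (by norm_num) hpos hlw
  have k3 : 1 / (⌊(x : ℝ) ^ a⌋₊ : ℝ) ≤ 1 / (a * Real.log x - 1) := by
    refine one_div_le_one_div_of_le hpos (hlw.trans ?_)
    have := Real.log_le_sub_one_of_pos (x := (⌊(x : ℝ) ^ a⌋₊ : ℝ)) (by linarith only [hwr])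
    linarith only [this]
  have k4 : (1.2295 : ℝ) / (a * Real.log x - 1) =
      0.2295 / (a * Real.log x - 1) + 1 / (a * Real.log x - 1) := by
    rw [← add_div]
    norm_num
  linarith only [h1, hle, hm, k1, k2, k3, k4]

end Pool.Agent.H36.IS

end

section

/-!
# ISP WtZ: weights on the primes in (x^δ, x^ζ] (sets of primes, no component)

As in Pool/Agent/H36/IS/Wts.lean (copy the private lemmas): P = PZ x ζ \ PZ x δ (primes in (x^δ, x^ζ]), z = x^ζ, `BigP2 z P` since x^δ > e^2400 for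
large x; L2 (resp. U2) gives c with |c| ≤ 1, supported on T ⊆ P, ∏ ≤ z^s = x^(ζ s), ev c P y ≤ Vg y P on 0/1 vectors, f Vg g1 P ≤ ev c P g1.
evD (PX x) c m = ev c P ([p ∣ m]) (`SvA_ev_superset` or the support), Vg ([p ∣ m]) P = [no p ∈ P divides m].
Change of the density g1 = 1/(p-1) to 1/p: all primes of P are > x^δ, |∏_{T} 1/(p-1) - ∏_T 1/p| ≤ tiny ∏_T 1/(p-1) (`fn_gi` with ι = Unit, or
directly: ∏ (1 + 1/(p-1)) - 1 ≤ ..), ∑_T ∏_T 1/(p-1) ≤ C (`mert_cell`, as log(ζ/δ) is a constant: ∏_{P}(1 + 1/(p-1)) ≤ exp(∑) ), V2 x δ ζ ≥ c > 0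
and Vg g1 P ≥ (1 - tiny) V2.
`V2_pos`: V2 is bounded below: ∏ (1 - 1/p) ≥ exp(-2∑ 1/p) ≥ exp(-2(log(ζ/δ)+1)).
-/

set_option autoImplicit false

namespace Pool.Agent.H36.IS2

open Finset Filter Pool.Agent.H36.IS

open Pool.Agent.H91.PK (ev Vg ZO Wt g1)

private theorem WtZ_affine (c : Finset ℕ → ℝ) (P : Finset ℕ) (g : ℕ → ℝ) (a : ℕ) :
    ev c P g = g a * ev c P (Function.update g a 1) +
      (1 - g a) * ev c P (Function.update g a 0) := by
  unfold ev
  rw [Finset.mul_sum, Finset.mul_sum, ← Finset.sum_add_distrib]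
  refine Finset.sum_congr rfl fun T _ => ?_
  by_cases h : a ∈ T
  · have h1 : ∀ v : ℝ, ∏ p ∈ T, Function.update g a v p = v * ∏ p ∈ T.erase a, g p := by
      intro v
      rw [← Finset.mul_prod_erase T _ h, Function.update_self]
      congr 1
      exact Finset.prod_congr rfl fun p hp => Function.update_of_ne (Finset.ne_of_mem_erase hp) _ _
    rw [h1, h1, ← Finset.mul_prod_erase T g h]
    ring
  · have h1 : ∀ v : ℝ, ∏ p ∈ T, Function.update g a v p = ∏ p ∈ T, g p := by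
      intro v
      refine Finset.prod_congr rfl fun p hp => Function.update_of_ne ?_ _ _
      rintro rfl
      exact h hp
    rw [h1, h1]
    ring

private theorem WtZ_nonneg_aux (c : Finset ℕ → ℝ) (P : Finset ℕ) (h : ∀ y, ZO y → 0 ≤ ev c P y)
    (A : Finset ℕ) : ∀ g : ℕ → ℝ, (∀ p ∈ A, 0 ≤ g p ∧ g p ≤ 1) →
      (∀ p, p ∉ A → g p = 0 ∨ g p = 1) → 0 ≤ ev c P g := by
  induction A using Finset.induction_on with
  | empty =>
    intro g _ hg
    exact h g (fun p => hg p (Finset.notMem_empty p))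
  | insert a A ha ih =>
    intro g hg1 hg2
    rw [WtZ_affine c P g a]
    have h1 := hg1 a (mem_insert_self a A)
    have h2 : ∀ v : ℝ, v = 0 ∨ v = 1 → 0 ≤ ev c P (Function.update g a v) := by
      intro v hv
      apply ih
      · intro p hp
        have hne : p ≠ a := by
          rintro rfl
          exact ha hp
        rw [Function.update_of_ne hne]
        exact hg1 p (mem_insert_of_mem hp)
      · intro p hp
        by_cases e : p = a
        · subst e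
          rw [Function.update_self]
          exact hv
        · rw [Function.update_of_ne e]
          apply hg2
          rw [mem_insert, not_or]
          exact ⟨e, hp⟩
    have h3 := mul_nonneg h1.1 (h2 1 (Or.inr rfl))
    have h4 := mul_nonneg (by linarith only [h1] : 0 ≤ 1 - g a) (h2 0 (Or.inl rfl))
    linarith only [h3, h4]

private theorem WtZ_ev_congr (c : Finset ℕ → ℝ) (P : Finset ℕ) {g g' : ℕ → ℝ}
    (h : ∀ p ∈ P, g p = g' p) : ev c P g = ev c P g' := by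
  unfold ev
  refine Finset.sum_congr rfl fun T hT => ?_
  congr 1
  exact Finset.prod_congr rfl fun p hp => h p (mem_powerset.mp hT hp)

private theorem WtZ_nonneg (c : Finset ℕ → ℝ) (P : Finset ℕ) (h : ∀ y, ZO y → 0 ≤ ev c P y)
    (g : ℕ → ℝ) (hg : ∀ p ∈ P, 0 ≤ g p ∧ g p ≤ 1) : 0 ≤ ev c P g := by
  classical
  rw [WtZ_ev_congr c P (g' := fun p => if p ∈ P then g p else 0)
    (fun p hp => by simp only [hp, if_true])]
  apply WtZ_nonneg_aux c P h P
  · intro p hp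
    simp only [hp, if_true]
    exact hg p hp
  · intro p hp
    left
    simp only [hp, if_false]

private theorem WtZ_prod_ge (P : Finset ℕ) (a : ℕ → ℝ) (ha : ∀ p ∈ P, 0 ≤ a p ∧ a p ≤ 1) :
    1 - ∑ p ∈ P, a p ≤ ∏ p ∈ P, (1 - a p) := by
  classical
  induction P using Finset.induction_on with
  | empty => simp
  | insert q P hq ih =>
    rw [Finset.sum_insert hq, Finset.prod_insert hq]
    have h1 := ha q (mem_insert_self q P)
    have h2 := ih (fun p hp => ha p (mem_insert_of_mem hp))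
    have h3 : ∏ p ∈ P, (1 - a p) ≤ 1 :=
      Finset.prod_le_one (fun p hp => by linarith only [(ha p (mem_insert_of_mem hp)).2])
        (fun p hp => by linarith only [(ha p (mem_insert_of_mem hp)).1])
    nlinarith only [h1, h2, h3]

private theorem WtZ_sum_le (P : Finset ℕ) (a : ℕ → ℝ) (ha : ∀ p ∈ P, 0 ≤ a p) :
    1 ≤ ∏ p ∈ P, (1 + a p) ∧ ∑ p ∈ P, a p ≤ ∏ p ∈ P, (1 + a p) := by
  classical
  induction P using Finset.induction_on with
  | empty => simp
  | insert q P hq ih =>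
    rw [Finset.sum_insert hq, Finset.prod_insert hq]
    have h1 := ha q (mem_insert_self q P)
    obtain ⟨h2, h3⟩ := ih (fun p hp => ha p (mem_insert_of_mem hp))
    constructor
    · nlinarith only [h1, h2]
    · nlinarith only [h1, h2, h3]

private theorem WtZ_dens (P : Finset ℕ) (Z F : ℝ) (hZ : 1 < Z) (hP : ∀ p ∈ P, Z ≤ (p : ℝ))
    (hP2 : ∀ p ∈ P, 2 ≤ p) (hF : ∏ p ∈ P, (1 + fn p) ≤ F) :
    0 < ∏ p ∈ P, (1 - 1 / (p : ℝ)) ∧ 1 ≤ F ∧
    Vg g1 P ≤ ∏ p ∈ P, (1 - 1 / (p : ℝ)) ∧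
    (∏ p ∈ P, (1 - 1 / (p : ℝ))) * (1 - F / (Z - 1)) ≤ Vg g1 P ∧
    ∀ c : Finset ℕ → ℝ, (∀ T, |c T| ≤ 1) → |ev c P g1 - ev c P (fun p => 1 / (p : ℝ))| ≤
      (∏ p ∈ P, (1 - 1 / (p : ℝ))) * (F ^ 3 / (Z - 1)) := by
  have hp2 : ∀ p ∈ P, (2 : ℝ) ≤ p := fun p hp => by exact_mod_cast hP2 p hp
  have hfn0 : ∀ p ∈ P, 0 ≤ fn p := by
    intro p hp
    unfold fn
    have := hp2 p hp
    exact div_nonneg zero_le_one (by linarith only [this])
  have hfn1 : ∀ p ∈ P, fn p ≤ 1 := by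
    intro p hp
    unfold fn
    have := hp2 p hp
    rw [div_le_one (by linarith only [this])]
    linarith only [this]
  have hr0 : ∀ p ∈ P, 0 ≤ 1 / (p : ℝ) := fun p _ => by positivity
  have hrf : ∀ p ∈ P, 1 / (p : ℝ) ≤ fn p := by
    intro p hp
    unfold fn
    have := hp2 p hp
    exact one_div_le_one_div_of_le (by linarith only [this]) (by linarith only [])
  have hr1 : ∀ p ∈ P, 0 < 1 - 1 / (p : ℝ) := by
    intro p hp
    have := hp2 p hp
    have h1 : 1 / (p : ℝ) ≤ 1 / 2 := one_div_le_one_div_of_le (by norm_num) this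
    linarith only [h1]
  set Fp : ℝ := ∏ p ∈ P, (1 + fn p) with hFp
  set V : ℝ := ∏ p ∈ P, (1 - 1 / (p : ℝ)) with hV
  obtain ⟨hFp1, hsum⟩ := WtZ_sum_le P fn hfn0
  rw [← hFp] at hFp1 hsum
  have hF1 : 1 ≤ F := hFp1.trans hF
  have hVpos : 0 < V := Finset.prod_pos hr1
  have hVF : V * Fp = 1 := by
    rw [hV, hFp, ← Finset.prod_mul_distrib]
    apply Finset.prod_eq_one
    intro p hp
    unfold fn
    have := hp2 p hp
    have h1 : (p : ℝ) - 1 ≠ 0 := by
      intro h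
      linarith only [this, h]
    have h2 : (p : ℝ) ≠ 0 := by
      intro h
      linarith only [this, h]
    field_simp
    ring
  have hZ1 : 0 < Z - 1 := by linarith only [hZ]
  have hS2 : ∑ p ∈ P, fn p ^ 2 ≤ F / (Z - 1) := by
    calc ∑ p ∈ P, fn p ^ 2 ≤ ∑ p ∈ P, fn p * (1 / (Z - 1)) := by
          apply Finset.sum_le_sum
          intro p hp
          rw [sq]
          apply mul_le_mul_of_nonneg_left _ (hfn0 p hp)
          unfold fn
          exact one_div_le_one_div_of_le hZ1 (by linarith only [hP p hp])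
      _ = (∑ p ∈ P, fn p) * (1 / (Z - 1)) := by rw [Finset.sum_mul]
      _ ≤ F * (1 / (Z - 1)) :=
          mul_le_mul_of_nonneg_right (hsum.trans hF) (by positivity)
      _ = F / (Z - 1) := by ring
  have hg1 : ∀ p, g1 p = fn p := fun p => rfl
  refine ⟨hVpos, hF1, ?_, ?_, ?_⟩
  · unfold Vg
    apply Finset.prod_le_prod
    · intro p hp
      rw [hg1]
      linarith only [hfn1 p hp]
    · intro p hp
      rw [hg1]
      linarith only [hrf p hp]
  · have h1 : Vg g1 P = V * ∏ p ∈ P, (1 - fn p ^ 2) := by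
      unfold Vg
      rw [hV, ← Finset.prod_mul_distrib]
      refine Finset.prod_congr rfl fun p hp => ?_
      rw [hg1]
      unfold fn
      have := hp2 p hp
      have h1 : (p : ℝ) - 1 ≠ 0 := by
        intro h
        linarith only [this, h]
      have h2 : (p : ℝ) ≠ 0 := by
        intro h
        linarith only [this, h]
      field_simp
      ring
    rw [h1]
    apply mul_le_mul_of_nonneg_left _ hVpos.le
    have h2 := WtZ_prod_ge P (fun p => fn p ^ 2) (fun p hp => ⟨sq_nonneg _, by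
      have h3 := hfn1 p hp
      have h4 := hfn0 p hp
      nlinarith only [h3, h4]⟩)
    linarith only [hS2, h2]
  · intro c hc
    have h1 : |ev c P g1 - ev c P (fun p => 1 / (p : ℝ))| ≤
        ∑ T ∈ P.powerset, (∏ p ∈ T, fn p - ∏ p ∈ T, 1 / (p : ℝ)) := by
      unfold ev
      rw [← Finset.sum_sub_distrib]
      refine (Finset.abs_sum_le_sum_abs _ _).trans ?_
      apply Finset.sum_le_sum
      intro T hT
      have hT' := mem_powerset.mp hT
      rw [← mul_sub, abs_mul]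
      have h2 : ∏ p ∈ T, 1 / (p : ℝ) ≤ ∏ p ∈ T, fn p :=
        Finset.prod_le_prod (fun p hp => hr0 p (hT' hp)) (fun p hp => hrf p (hT' hp))
      have h3 : |∏ p ∈ T, g1 p - ∏ p ∈ T, 1 / (p : ℝ)| =
          ∏ p ∈ T, fn p - ∏ p ∈ T, 1 / (p : ℝ) := by
        apply abs_of_nonneg
        have : ∏ p ∈ T, g1 p = ∏ p ∈ T, fn p := rfl
        rw [this]
        linarith only [h2]
      rw [h3]
      calc |c T| * (∏ p ∈ T, fn p - ∏ p ∈ T, 1 / (p : ℝ)) ≤
            1 * (∏ p ∈ T, fn p - ∏ p ∈ T, 1 / (p : ℝ)) :=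
            mul_le_mul_of_nonneg_right (hc T) (by linarith only [h2])
        _ = _ := one_mul _
    refine h1.trans ?_
    rw [Finset.sum_sub_distrib, ← Finset.prod_one_add, ← Finset.prod_one_add]
    have h4 : ∏ p ∈ P, (1 + 1 / (p : ℝ)) = Fp * ∏ p ∈ P, (1 - (1 / (p : ℝ)) ^ 2) := by
      rw [hFp, ← Finset.prod_mul_distrib]
      refine Finset.prod_congr rfl fun p hp => ?_
      unfold fn
      have := hp2 p hp
      have h1 : (p : ℝ) - 1 ≠ 0 := by
        intro h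
        linarith only [this, h]
      have h2 : (p : ℝ) ≠ 0 := by
        intro h
        linarith only [this, h]
      field_simp
      ring
    have h5 := WtZ_prod_ge P (fun p => (1 / (p : ℝ)) ^ 2) (fun p hp => ⟨sq_nonneg _, by
      have h3 := hr1 p hp
      have h4 := hr0 p hp
      nlinarith only [h3, h4]⟩)
    have h6 : ∑ p ∈ P, (1 / (p : ℝ)) ^ 2 ≤ ∑ p ∈ P, fn p ^ 2 := by
      apply Finset.sum_le_sum
      intro p hp
      exact pow_le_pow_left₀ (hr0 p hp) (hrf p hp) 2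
    have h7 : 1 - F / (Z - 1) ≤ ∏ p ∈ P, (1 - (1 / (p : ℝ)) ^ 2) := by linarith only [hS2, h5, h6]
    have hFp0 : 0 ≤ Fp := by linarith only [hFp1]
    have h8 : Fp * (1 - F / (Z - 1)) ≤ ∏ p ∈ P, (1 + 1 / (p : ℝ)) := by
      rw [h4]
      exact mul_le_mul_of_nonneg_left h7 hFp0
    have h9 : Fp * (F / (Z - 1)) = V * (Fp ^ 2 * F / (Z - 1)) := by
      have : V * (Fp ^ 2 * F / (Z - 1)) = (V * Fp) * (Fp * (F / (Z - 1))) := by ring
      rw [this, hVF, one_mul]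
    have h10 : Fp ^ 2 * F / (Z - 1) ≤ F ^ 3 / (Z - 1) := by
      apply div_le_div_of_nonneg_right _ hZ1.le
      have h11 : Fp ^ 2 ≤ F ^ 2 := pow_le_pow_left₀ hFp0 hF 2
      calc Fp ^ 2 * F ≤ F ^ 2 * F := mul_le_mul_of_nonneg_right h11 (by linarith only [hF, hFp1])
        _ = F ^ 3 := by ring
    have h12 := mul_le_mul_of_nonneg_left h10 hVpos.le
    have h13 : Fp - ∏ p ∈ P, (1 + 1 / (p : ℝ)) ≤ Fp * (F / (Z - 1)) := by
      have : Fp * (1 - F / (Z - 1)) = Fp - Fp * (F / (Z - 1)) := by ring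
      linarith only [h8]
    linarith only [h8, h9, h12]

private theorem WtZ_growth (K : ℝ) (N : ℕ) (hK : 0 ≤ K) : ∀ᶠ x : ℕ in atTop,
    K * Real.log x ^ N + 1 ≤ z0 x := by
  have hL : Tendsto (fun x : ℕ => Real.log (x : ℝ)) atTop atTop :=
    Real.tendsto_log_atTop.comp tendsto_natCast_atTop_atTop
  have hl : Tendsto (fun x : ℕ => Real.log (Real.log (x : ℝ))) atTop atTop :=
    Real.tendsto_log_atTop.comp hL
  have hN : (0 : ℝ) < (N : ℝ) + 2 := by positivity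
  have ho : ∀ᶠ L : ℝ in atTop, ‖Real.log L ^ 3‖ ≤ (1 / ((N : ℝ) + 2)) * ‖L‖ :=
    (Real.isLittleO_pow_log_id_atTop (n := 3)).def (by positivity)
  filter_upwards [hL.eventually ho, hL.eventually_ge_atTop (K + 1), hl.eventually_ge_atTop 1]
    with x h1 h2 h3
  set L : ℝ := Real.log x with hLdef
  set l : ℝ := Real.log L with hldef
  have hL1 : 1 ≤ L := by linarith only [hK, h2]
  have hL0 : 0 < L := by linarith only [hK, h2]
  have hl2 : 0 < l ^ 2 := by positivity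
  have h5 : l ^ 3 ≤ (1 / ((N : ℝ) + 2)) * L := by
    rw [Real.norm_of_nonneg (by positivity), Real.norm_of_nonneg hL0.le] at h1
    exact h1
  have h6 : ((N : ℝ) + 2) * l ≤ L / l ^ 2 := by
    rw [le_div_iff₀ hl2]
    have h7 : ((N : ℝ) + 2) * l ^ 3 ≤ L := by
      have := mul_le_mul_of_nonneg_left h5 hN.le
      have h8 : ((N : ℝ) + 2) * (1 / ((N : ℝ) + 2) * L) = L := by field_simp
      linarith only [this, h8]
    calc ((N : ℝ) + 2) * l * l ^ 2 = ((N : ℝ) + 2) * l ^ 3 := by ring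
      _ ≤ L := h7
  have h9 : L ^ (N + 2) ≤ z0 x := by
    have h10 : z0 x = Real.exp (L / l ^ 2) := rfl
    rw [h10]
    calc L ^ (N + 2) = Real.exp (((N : ℝ) + 2) * l) := by
          have h11 : ((N : ℝ) + 2) * l = ((N + 2 : ℕ) : ℝ) * l := by push_cast; ring
          rw [h11, Real.exp_nat_mul, hldef, Real.exp_log hL0]
      _ ≤ Real.exp (L / l ^ 2) := Real.exp_le_exp.mpr h6
  have h12 : (1 : ℝ) ≤ L ^ N := one_le_pow₀ hL1
  have h13 : L ^ (N + 2) = L ^ N * (L * L) := by ring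
  have h14 : K + 1 ≤ L * L := by nlinarith only [hK, h2]
  have h15 : L ^ N * (K + 1) ≤ L ^ N * (L * L) := mul_le_mul_of_nonneg_left h14 (by positivity)
  linarith only [h9, h12, h13, h15]

private theorem WtZ_ev (K : ℝ) (hK : 0 ≤ K) (ε : ℝ) (hε : 0 < ε) :
    ∀ᶠ x : ℕ in atTop, 1 ≤ x ∧ Real.exp 2400 < z0 x ∧
      ∃ F : ℝ, (∀ P ⊆ PX x, ∏ p ∈ P, (1 + fn p) ≤ F) ∧ K * (F ^ 3 / (z0 x - 1)) ≤ ε := by
  obtain ⟨B, hB⟩ := euler_pow 1 zero_le_one
  filter_upwards [hB, WtZ_growth (K / ε + Real.exp 2400 + 1) (3 * B) (by positivity),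
    eventually_ge_atTop 3] with x h1 h2 h3
  have hx3 : (3 : ℝ) ≤ x := by exact_mod_cast h3
  have hlog : 1 ≤ Real.log x := by
    rw [← Real.log_exp 1]
    apply Real.log_le_log (Real.exp_pos 1)
    have := Real.exp_one_lt_d9
    linarith only [hx3, this]
  have hpow : 1 ≤ Real.log x ^ (3 * B) := one_le_pow₀ hlog
  have hKε : 0 ≤ K / ε := by positivity
  have he : 0 < Real.exp 2400 := Real.exp_pos 2400
  have hz1 : (K / ε + Real.exp 2400 + 1) * Real.log x ^ (3 * B) + 1 ≤ z0 x := h2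
  have hz2 : K / ε + Real.exp 2400 + 1 + 1 ≤ z0 x := by nlinarith only [h2, hpow, hKε, he]
  refine ⟨by omega, by linarith only [hKε, hz2], Real.log x ^ B, ?_, ?_⟩
  · intro P hP
    refine le_trans ?_ h1
    have hsub : P ⊆ (range (x + 1)).filter Nat.Prime := by
      intro p hp
      have h4 := hP hp
      unfold PX at h4
      rw [mem_filter] at h4
      rw [mem_filter]
      exact ⟨h4.1, h4.2.1⟩
    have hf : ∀ p ∈ (range (x + 1)).filter Nat.Prime, 0 ≤ fn p := by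
      intro p hp
      rw [mem_filter] at hp
      have h4 : (2 : ℝ) ≤ p := by exact_mod_cast hp.2.two_le
      unfold fn
      exact div_nonneg zero_le_one (by linarith only [h4])
    calc ∏ p ∈ P, (1 + fn p)
        ≤ ∏ p ∈ (range (x + 1)).filter Nat.Prime, (1 + fn p) := by
          rw [← Finset.prod_sdiff hsub]
          have h10 : 1 ≤ ∏ p ∈ (range (x + 1)).filter Nat.Prime \ P, (1 + fn p) :=
            (WtZ_sum_le _ fn (fun p hp => hf p (mem_sdiff.mp hp).1)).1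
          have h11 : 0 ≤ ∏ p ∈ P, (1 + fn p) :=
            Finset.prod_nonneg fun p hp => by linarith only [hf p (hsub hp)]
          exact le_mul_of_one_le_left h11 h10
      _ = ∏ p ∈ (range (x + 1)).filter Nat.Prime, (1 + 1 * fn p) := by
          refine Finset.prod_congr rfl fun p _ => ?_
          rw [one_mul]
  · have h5 : (Real.log x ^ B) ^ 3 = Real.log x ^ (3 * B) := by
      rw [← pow_mul, mul_comm]
    rw [h5, ← mul_div_assoc, div_le_iff₀ (by linarith only [hKε, he, hz2])]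
    have h6 : K = ε * (K / ε) := by field_simp
    have h7 : (K / ε) * Real.log x ^ (3 * B) ≤ z0 x - 1 := by
      have h8 : 0 ≤ (Real.exp 2400 + 1) * Real.log x ^ (3 * B) := by positivity
      have h9 : (K / ε + Real.exp 2400 + 1) * Real.log x ^ (3 * B) =
        (K / ε) * Real.log x ^ (3 * B) + (Real.exp 2400 + 1) * Real.log x ^ (3 * B) := by ring
      linarith only [h2, h8]
    calc K * Real.log x ^ (3 * B) = ε * ((K / ε) * Real.log x ^ (3 * B)) := by
          rw [← mul_assoc, ← h6]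
      _ ≤ ε * (z0 x - 1) := mul_le_mul_of_nonneg_left h7 hε.le

private theorem WtZ_sub (x : ℕ) (δ ζ : ℝ) : PZ x ζ \ PZ x δ ⊆ PX x := by
  intro p hp
  have h := (mem_sdiff.1 hp).1
  unfold PZ at h
  exact (mem_filter.1 h).1

private theorem WtZ_mem {x : ℕ} {δ ζ : ℝ} {p : ℕ} (hp : p ∈ PZ x ζ \ PZ x δ) :
    p.Prime ∧ z0 x < (p : ℝ) ∧ (p : ℝ) ≤ (x : ℝ) ^ ζ ∧ (x : ℝ) ^ δ < p := by
  obtain ⟨h1, h2⟩ := mem_sdiff.1 hp
  have h3 := WtZ_sub x δ ζ hp
  unfold PZ at h1 h2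
  rw [mem_filter] at h1
  have h4 : ¬ (p : ℝ) ≤ (x : ℝ) ^ δ := fun h => h2 (mem_filter.2 ⟨h3, h⟩)
  unfold PX at h3
  rw [mem_filter] at h3
  exact ⟨h3.2.1, h3.2.2, h1.2, not_le.1 h4⟩

private theorem WtZ_sup {P Z : Finset ℕ} (hPZ : P ⊆ Z) {c : Finset ℕ → ℝ}
    (hc : ∀ T, c T ≠ 0 → T ⊆ P) (y : ℕ → ℝ) : ev c Z y = ev c P y := by
  unfold ev
  symm
  refine Finset.sum_subset (Finset.powerset_mono.mpr hPZ) fun T _ hT => ?_
  rw [mem_powerset] at hT
  by_cases h : c T = 0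
  · rw [h, zero_mul]
  · exact absurd (hc T h) hT

open Classical in
private theorem WtZ_Vg (m : ℕ) (P : Finset ℕ) :
    ZO (fun p : ℕ => if p ∣ m then (1 : ℝ) else 0) ∧
      Vg (fun p : ℕ => if p ∣ m then (1 : ℝ) else 0) P =
        if ∀ p ∈ P, ¬ p ∣ m then 1 else 0 := by
  constructor
  · intro p
    show (if p ∣ m then (1 : ℝ) else 0) = 0 ∨ (if p ∣ m then (1 : ℝ) else 0) = 1
    split_ifs
    · right
      rfl
    · left
      rfl
  · unfold Vg
    split_ifs with h1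
    · apply Finset.prod_eq_one
      intro p hp
      show 1 - (if p ∣ m then (1 : ℝ) else 0) = 1
      rw [if_neg (h1 p hp), sub_zero]
    · push Not at h1
      obtain ⟨p, hp, hdvd⟩ := h1
      apply Finset.prod_eq_zero hp
      show 1 - (if p ∣ m then (1 : ℝ) else 0) = 0
      rw [if_pos hdvd, sub_self]

private theorem WtZ_exp {t : ℝ} (h0 : 0 ≤ t) (h1 : t ≤ 1 / 2) : Real.exp (-(2 * t)) ≤ 1 - t := by
  have h2 := Real.add_one_le_exp (2 * t)
  have h3 : Real.exp (-(2 * t)) * Real.exp (2 * t) = 1 := by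
    rw [← Real.exp_add, neg_add_cancel, Real.exp_zero]
  have h4 := Real.exp_pos (-(2 * t))
  have h5 : (1 : ℝ) ≤ (1 - t) * (2 * t + 1) := by nlinarith only [h0, h1]
  have h6 : (1 - t) * (2 * t + 1) ≤ (1 - t) * Real.exp (2 * t) :=
    mul_le_mul_of_nonneg_left h2 (by linarith only [h1])
  have h7 : Real.exp (-(2 * t)) * 1 ≤ Real.exp (-(2 * t)) * ((1 - t) * Real.exp (2 * t)) :=
    mul_le_mul_of_nonneg_left (h5.trans h6) h4.le
  have h8 : Real.exp (-(2 * t)) * ((1 - t) * Real.exp (2 * t)) =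
      (1 - t) * (Real.exp (-(2 * t)) * Real.exp (2 * t)) := by ring
  rw [h8, h3] at h7
  linarith only [h7]

theorem V2_pos (δ ζ : ℝ) (hδ : 0 < δ) (hδζ : δ ≤ ζ) (hζ : ζ ≤ 1) : ∃ c : ℝ, 0 < c ∧ ∀ᶠ x : ℕ in atTop,
    c ≤ V2 x δ ζ ∧ V2 x δ ζ ≤ 1 ∧ V1 x δ * V2 x δ ζ = V1 x ζ := by
  refine ⟨Real.exp (-(2 * (Real.log (ζ / δ) + 1))), Real.exp_pos _, ?_⟩
  filter_upwards [mert_cell δ ζ 1 hδ hδζ hζ one_pos, eventually_ge_atTop 1] with x h1 hx
  have hx1 : (1 : ℝ) ≤ x := by exact_mod_cast hx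
  have hp2 : ∀ p ∈ PZ x ζ \ PZ x δ, (2 : ℝ) ≤ p := fun p hp => by
    exact_mod_cast (WtZ_mem hp).1.two_le
  have hsum : ∑ p ∈ PZ x ζ \ PZ x δ, 1 / (p : ℝ) ≤ Real.log (ζ / δ) + 1 := by
    refine le_trans ?_ h1
    have hsub : PZ x ζ \ PZ x δ ⊆
        (PX x).filter (fun p : ℕ => (x : ℝ) ^ δ < p ∧ (p : ℝ) ≤ (x : ℝ) ^ ζ) := by
      intro p hp
      exact mem_filter.2 ⟨WtZ_sub x δ ζ hp, (WtZ_mem hp).2.2.2, (WtZ_mem hp).2.2.1⟩
    refine (Finset.sum_le_sum fun p hp => ?_ : ∑ p ∈ PZ x ζ \ PZ x δ, 1 / (p : ℝ) ≤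
      ∑ p ∈ PZ x ζ \ PZ x δ, fn p).trans (Finset.sum_le_sum_of_subset_of_nonneg hsub ?_)
    · unfold fn
      have := hp2 p hp
      exact one_div_le_one_div_of_le (by linarith only [this]) (by linarith only [])
    · intro p hp _
      have h2 := (mem_filter.1 hp).1
      unfold PX at h2
      have h3 : (2 : ℝ) ≤ p := by exact_mod_cast (mem_filter.1 h2).2.1.two_le
      unfold fn
      exact div_nonneg zero_le_one (by linarith only [h3])
  have hhalf : ∀ p ∈ PZ x ζ \ PZ x δ, 0 ≤ 1 / (p : ℝ) ∧ 1 / (p : ℝ) ≤ 1 / 2 := by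
    intro p hp
    have := hp2 p hp
    exact ⟨by positivity, one_div_le_one_div_of_le (by norm_num) this⟩
  refine ⟨?_, ?_, ?_⟩
  · unfold V2
    calc Real.exp (-(2 * (Real.log (ζ / δ) + 1))) ≤
          Real.exp (∑ p ∈ PZ x ζ \ PZ x δ, -(2 * (1 / (p : ℝ)))) := by
          refine Real.exp_le_exp.2 ?_
          rw [Finset.sum_neg_distrib, ← Finset.mul_sum]
          linarith only [hsum]
      _ = ∏ p ∈ PZ x ζ \ PZ x δ, Real.exp (-(2 * (1 / (p : ℝ)))) := Real.exp_sum _ _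
      _ ≤ ∏ p ∈ PZ x ζ \ PZ x δ, (1 - 1 / (p : ℝ)) :=
          Finset.prod_le_prod (fun p _ => (Real.exp_pos _).le)
            (fun p hp => WtZ_exp (hhalf p hp).1 (hhalf p hp).2)
  · unfold V2
    exact Finset.prod_le_one (fun p hp => by linarith only [(hhalf p hp).2])
      (fun p hp => by linarith only [(hhalf p hp).1])
  · unfold V1 V2
    have hsub : PZ x δ ⊆ PZ x ζ := by
      intro p hp
      unfold PZ at hp ⊢
      rw [mem_filter] at hp ⊢
      exact ⟨hp.1, hp.2.trans (Real.rpow_le_rpow_of_exponent_le hx1 hδζ)⟩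
    rw [mul_comm]
    exact Finset.prod_sdiff hsub

theorem wzL (δ ζ s f ε : ℝ) (hδ : 0 < δ) (hδζ : δ ≤ ζ) (hζ : ζ ≤ 1) (hs : 0 ≤ s) (hf : 0 ≤ f) (hL : L2 s f) (hε : 0 < ε) :
    ∀ᶠ x : ℕ in atTop, ∃ c : Finset ℕ → ℝ, (∀ T, |c T| ≤ 1) ∧
      (∀ T, c T ≠ 0 → T ⊆ PZ x ζ \ PZ x δ ∧ ∏ p ∈ T, (p : ℝ) ≤ (x : ℝ) ^ (ζ * s)) ∧
      (∀ m, evD (PX x) c m ≤ if ∀ p ∈ PZ x ζ \ PZ x δ, ¬ p ∣ m then 1 else 0) ∧
      (f - ε) * V2 x δ ζ ≤ evM (PX x) c := by
  filter_upwards [WtZ_ev (f + 1) (by linarith only [hf]) ε hε] with x hx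
  obtain ⟨hx1, hz, F, hF, hFε⟩ := hx
  have hx1' : (1 : ℝ) ≤ x := by exact_mod_cast hx1
  have hz1' : 1 < z0 x := by
    have : (1 : ℝ) < Real.exp 2400 := by
      rw [Real.one_lt_exp_iff]
      norm_num
    linarith only [hz, this]
  have hζ0 : 0 < ζ := lt_of_lt_of_le hδ hδζ
  have hbig : BigP2 ((x : ℝ) ^ ζ) (PZ x ζ \ PZ x δ) := fun p hp =>
    ⟨(WtZ_mem hp).1, hz.trans (WtZ_mem hp).2.1, (WtZ_mem hp).2.2.1⟩
  obtain ⟨c, hc1, hc2, hc3⟩ := hL ((x : ℝ) ^ ζ) (Real.one_le_rpow hx1' hζ0.le) _ hbig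
  have hsup : ∀ T, c T ≠ 0 → T ⊆ PZ x ζ \ PZ x δ := fun T hT => (hc1.2 T hT).1
  refine ⟨c, hc1.1, ?_, ?_, ?_⟩
  · intro T hT
    obtain ⟨h1, h2⟩ := hc1.2 T hT
    rw [Real.rpow_mul (Nat.cast_nonneg x)]
    exact ⟨h1, h2⟩
  · intro m
    unfold evD
    rw [WtZ_sup (WtZ_sub x δ ζ) hsup]
    obtain ⟨h1, h2⟩ := WtZ_Vg m (PZ x ζ \ PZ x δ)
    have h3 := hc2 _ h1
    rw [h2] at h3
    refine h3.trans (le_of_eq ?_)
    split_ifs <;> rfl
  · have hzp : ∀ p ∈ PZ x ζ \ PZ x δ, z0 x ≤ (p : ℝ) := fun p hp => (WtZ_mem hp).2.1.le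
    obtain ⟨hV0, hF1, hV1, hV2, hV3⟩ := WtZ_dens (PZ x ζ \ PZ x δ) (z0 x) F hz1' hzp
      (fun p hp => (hbig p hp).1.two_le) (hF _ (WtZ_sub x δ ζ))
    have h4 := hV3 c hc1.1
    unfold evM
    rw [WtZ_sup (WtZ_sub x δ ζ) hsup]
    have hVV : V2 x δ ζ = ∏ p ∈ PZ x ζ \ PZ x δ, (1 - 1 / (p : ℝ)) := rfl
    rw [hVV]
    set V : ℝ := ∏ p ∈ PZ x ζ \ PZ x δ, (1 - 1 / (p : ℝ)) with hVdef
    have hz1 : 0 < z0 x - 1 := by linarith only [hz1']
    have h6 : F / (z0 x - 1) ≤ F ^ 3 / (z0 x - 1) := by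
      apply div_le_div_of_nonneg_right _ hz1.le
      nlinarith only [hF1, mul_self_nonneg (F - 1)]
    have h7 : f * (V * (1 - F / (z0 x - 1))) ≤ f * Vg g1 (PZ x ζ \ PZ x δ) :=
      mul_le_mul_of_nonneg_left hV2 hf
    have h8 := abs_le.mp h4
    have h9 : f * (V * (F / (z0 x - 1))) ≤ f * (V * (F ^ 3 / (z0 x - 1))) :=
      mul_le_mul_of_nonneg_left (mul_le_mul_of_nonneg_left h6 hV0.le) hf
    have h10 : V * ((f + 1) * (F ^ 3 / (z0 x - 1))) ≤ V * ε :=
      mul_le_mul_of_nonneg_left hFε hV0.le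
    have h11 : f * (V * (1 - F / (z0 x - 1))) = f * V - f * (V * (F / (z0 x - 1))) := by ring
    have h12 : V * ((f + 1) * (F ^ 3 / (z0 x - 1))) =
      f * (V * (F ^ 3 / (z0 x - 1))) + V * (F ^ 3 / (z0 x - 1)) := by ring
    have h13 : (f - ε) * V = f * V - V * ε := by ring
    linarith only [hc3, h7, h8, h9, h10]

theorem wzU (δ ζ s F ε : ℝ) (hδ : 0 < δ) (hδζ : δ ≤ ζ) (hζ : ζ ≤ 1) (hs : 0 ≤ s) (hF : 0 ≤ F) (hU : U2 s F) (hε : 0 < ε) :
    ∀ᶠ x : ℕ in atTop, ∃ c : Finset ℕ → ℝ, (∀ T, |c T| ≤ 1) ∧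
      (∀ T, c T ≠ 0 → T ⊆ PZ x ζ \ PZ x δ ∧ ∏ p ∈ T, (p : ℝ) ≤ (x : ℝ) ^ (ζ * s)) ∧
      (∀ m, (if ∀ p ∈ PZ x ζ \ PZ x δ, ¬ p ∣ m then 1 else 0) ≤ evD (PX x) c m) ∧
      evM (PX x) c ≤ (F + ε) * V2 x δ ζ ∧ 0 ≤ evM (PX x) c := by
  filter_upwards [WtZ_ev 1 zero_le_one ε hε] with x hx
  obtain ⟨hx1, hz, G, hG, hGε⟩ := hx
  have hx1' : (1 : ℝ) ≤ x := by exact_mod_cast hx1
  have hz1' : 1 < z0 x := by
    have : (1 : ℝ) < Real.exp 2400 := by
      rw [Real.one_lt_exp_iff]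
      norm_num
    linarith only [hz, this]
  have hζ0 : 0 < ζ := lt_of_lt_of_le hδ hδζ
  have hbig : BigP2 ((x : ℝ) ^ ζ) (PZ x ζ \ PZ x δ) := fun p hp =>
    ⟨(WtZ_mem hp).1, hz.trans (WtZ_mem hp).2.1, (WtZ_mem hp).2.2.1⟩
  obtain ⟨c, hc1, hc2, hc3⟩ := hU ((x : ℝ) ^ ζ) (Real.one_le_rpow hx1' hζ0.le) _ hbig
  have hsup : ∀ T, c T ≠ 0 → T ⊆ PZ x ζ \ PZ x δ := fun T hT => (hc1.2 T hT).1
  have hzp : ∀ p ∈ PZ x ζ \ PZ x δ, z0 x ≤ (p : ℝ) := fun p hp => (WtZ_mem hp).2.1.le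
  obtain ⟨hV0, hF1, hV1, hV2, hV3⟩ := WtZ_dens (PZ x ζ \ PZ x δ) (z0 x) G hz1' hzp
    (fun p hp => (hbig p hp).1.two_le) (hG _ (WtZ_sub x δ ζ))
  refine ⟨c, hc1.1, ?_, ?_, ?_, ?_⟩
  · intro T hT
    obtain ⟨h1, h2⟩ := hc1.2 T hT
    rw [Real.rpow_mul (Nat.cast_nonneg x)]
    exact ⟨h1, h2⟩
  · intro m
    unfold evD
    rw [WtZ_sup (WtZ_sub x δ ζ) hsup]
    obtain ⟨h1, h2⟩ := WtZ_Vg m (PZ x ζ \ PZ x δ)
    have h3 := hc2 _ h1
    rw [h2] at h3
    refine le_trans (le_of_eq ?_) h3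
    split_ifs <;> rfl
  · have h4 := hV3 c hc1.1
    unfold evM
    rw [WtZ_sup (WtZ_sub x δ ζ) hsup]
    have hVV : V2 x δ ζ = ∏ p ∈ PZ x ζ \ PZ x δ, (1 - 1 / (p : ℝ)) := rfl
    rw [hVV]
    set V : ℝ := ∏ p ∈ PZ x ζ \ PZ x δ, (1 - 1 / (p : ℝ)) with hVdef
    have h8 := abs_le.mp h4
    have h9 : F * Vg g1 (PZ x ζ \ PZ x δ) ≤ F * V := mul_le_mul_of_nonneg_left hV1 hF
    have h10 : V * (1 * (G ^ 3 / (z0 x - 1))) ≤ V * ε := mul_le_mul_of_nonneg_left hGε hV0.le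
    rw [one_mul] at h10
    have h13 : (F + ε) * V = F * V + V * ε := by ring
    linarith only [hc3, h8, h9, h10]
  · unfold evM
    rw [WtZ_sup (WtZ_sub x δ ζ) hsup]
    apply WtZ_nonneg
    · intro y hy
      refine le_trans ?_ (hc2 y hy)
      unfold Vg
      apply Finset.prod_nonneg
      intro p _
      rcases hy p with h | h <;> rw [h] <;> norm_num
    · intro p hp
      have h2 : (2 : ℝ) ≤ p := by exact_mod_cast (hbig p hp).1.two_le
      refine ⟨by positivity, ?_⟩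
      rw [div_le_one (by linarith only [h2])]
      linarith only [h2]

end Pool.Agent.H36.IS2

end
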