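import Pool.Agent.H15.TB1.M14

/-! The parts of this file: H80.LV.Dual. -/

section

/-!
# LV Dual: the duality inequality (Halász-Montgomery) on a bounded measurable set

Write `e_n(t) = ee(t log n)`, `F(t) = ∑_{n ≤ K} a_n e_n(t)`, `D(u) = ∑_{n ≤ K} e_n(u)`, `I = ∫_B |F|^2` (all functions are
continuous and bounded, `B` is bounded, so everything is integrable on `B` and on `B × B`).
`I = ∫_B F conj F = ∑_n a_n c_n`, `c_n = ∫_B e_n(t) conj(F(t)) dt`, so `I^2 ≤ (∑ |a_n|^2) (∑ |c_n|^2)` (Cauchy-Schwarz), and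
`∑_n |c_n|^2 = ∫_B ∫_B conj(F(t)) F(s) ∑_n e_n(t) conj(e_n(s)) ds dt = ∫_B ∫_B conj(F(t)) F(s) D(t - s) ds dt`
`≤ ∫_B ∫_B (|F(t)|^2 + |F(s)|^2)/2 |D(t-s)| ds dt = ∫_B |F(t)|^2 (∫_B |D(t-s)| ds) dt ≤ G I`
(`|D(-u)| = |D(u)|`, Fubini).  So `I^2 ≤ G (∑ |a_n|^2) I`; if `I = 0` there is nothing to prove, otherwise divide.
-/

set_option autoImplicit false

namespace Pool.Agent.H80.LV

open Finset MeasureTheory
open Pool.Agent.H91.PK (ee)

theorem dual_ee_cont (c : ℝ) : Continuous fun t : ℝ => ee (t * c) := by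
  unfold ee
  fun_prop

theorem dual_D_cont (K : ℕ) : Continuous fun u : ℝ => ∑ n ∈ Icc 1 K, ee (u * Real.log n) :=
  continuous_finsetSum _ fun _ _ => dual_ee_cont _

theorem dual_F_cont (K : ℕ) (a : ℕ → ℂ) :
    Continuous fun u : ℝ => ∑ n ∈ Icc 1 K, a n * ee (u * Real.log n) :=
  continuous_finsetSum _ fun _ _ => continuous_const.mul (dual_ee_cont _)

theorem dual_D_bound (K : ℕ) (u : ℝ) : ‖∑ n ∈ Icc 1 K, ee (u * Real.log n)‖ ≤ K := by
  refine (norm_sum_le _ _).trans ?_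
  simp [Pool.Agent.H91.PK.LSa_norm_ee]

theorem dual_F_bound (K : ℕ) (a : ℕ → ℂ) (u : ℝ) :
    ‖∑ n ∈ Icc 1 K, a n * ee (u * Real.log n)‖ ≤ ∑ n ∈ Icc 1 K, ‖a n‖ := by
  refine (norm_sum_le _ _).trans (le_of_eq ?_)
  refine Finset.sum_congr rfl fun n _ => ?_
  rw [norm_mul, Pool.Agent.H91.PK.LSa_norm_ee, mul_one]

theorem dual_D_neg (K : ℕ) (u : ℝ) :
    ‖∑ n ∈ Icc 1 K, ee (-u * Real.log n)‖ = ‖∑ n ∈ Icc 1 K, ee (u * Real.log n)‖ := by
  rw [← Complex.norm_conj (∑ n ∈ Icc 1 K, ee (u * Real.log n)), map_sum]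
  congr 1
  refine Finset.sum_congr rfl fun n _ => ?_
  rw [Pool.Agent.H91.PK.LSa_conj_ee]
  congr 1
  ring

theorem dual_ineq (B : Set ℝ) (Y : ℝ) (hB : MeasurableSet B) (hb : B ⊆ Set.Icc (-Y) Y) (K : ℕ)
    (a : ℕ → ℂ) (G : ℝ) (hG0 : 0 ≤ G)
    (hG : ∀ t ∈ B, ∫ s in B, ‖∑ n ∈ Icc 1 K, ee ((t - s) * Real.log n)‖ ≤ G) :
    ∫ t in B, ‖∑ n ∈ Icc 1 K, a n * ee (t * Real.log n)‖ ^ 2
      ≤ G * ∑ n ∈ Icc 1 K, ‖a n‖ ^ 2 := by
  have hfin : volume B < ⊤ :=
    lt_of_le_of_lt (measure_mono hb) (by rw [Real.volume_Icc]; exact ENNReal.ofReal_lt_top)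
  haveI : IsFiniteMeasure (volume.restrict B) := ⟨by rw [Measure.restrict_apply_univ]; exact hfin⟩
  set μ : Measure ℝ := volume.restrict B with hμ
  set F : ℝ → ℂ := fun t => ∑ n ∈ Icc 1 K, a n * ee (t * Real.log n) with hF
  set D : ℝ → ℂ := fun t => ∑ n ∈ Icc 1 K, ee (t * Real.log n) with hD
  have hFc : Continuous F := dual_F_cont K a
  have hDc : Continuous D := dual_D_cont K
  set M : ℝ := ∑ n ∈ Icc 1 K, ‖a n‖ with hM
  have hM0 : 0 ≤ M := Finset.sum_nonneg fun n _ => norm_nonneg _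
  have hFb : ∀ t, ‖F t‖ ≤ M := fun t => dual_F_bound K a t
  have hDb : ∀ t, ‖D t‖ ≤ K := fun t => dual_D_bound K t
  have int1 : ∀ (f : ℝ → ℂ) (C : ℝ), Continuous f → (∀ t, ‖f t‖ ≤ C) → Integrable f μ :=
    fun f C hf hC => Integrable.of_bound hf.aestronglyMeasurable C (Filter.Eventually.of_forall hC)
  have int2 : ∀ (f : ℝ → ℝ) (C : ℝ), Continuous f → (∀ t, ‖f t‖ ≤ C) → Integrable f μ :=
    fun f C hf hC => Integrable.of_bound hf.aestronglyMeasurable C (Filter.Eventually.of_forall hC)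
  have int3 : ∀ (f : ℝ × ℝ → ℂ) (C : ℝ), Continuous f → (∀ t, ‖f t‖ ≤ C) →
      Integrable f (μ.prod μ) :=
    fun f C hf hC => Integrable.of_bound hf.aestronglyMeasurable C (Filter.Eventually.of_forall hC)
  have int4 : ∀ (f : ℝ × ℝ → ℝ) (C : ℝ), Continuous f → (∀ t, ‖f t‖ ≤ C) →
      Integrable f (μ.prod μ) :=
    fun f C hf hC => Integrable.of_bound hf.aestronglyMeasurable C (Filter.Eventually.of_forall hC)
  set I : ℝ := ∫ t, ‖F t‖ ^ 2 ∂μ with hI
  have hI0 : 0 ≤ I := integral_nonneg fun t => by positivity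
  set c : ℕ → ℂ := fun n => ∫ t, ee (t * Real.log n) * (starRingEnd ℂ) (F t) ∂μ with hc
  have hconjF : Continuous fun t => (starRingEnd ℂ) (F t) := Complex.continuous_conj.comp hFc
  have hec : ∀ n : ℕ, Continuous fun t : ℝ => ee (t * Real.log n) := fun n => dual_ee_cont _
  have hIc : (I : ℂ) = ∑ n ∈ Icc 1 K, a n * c n := by
    have h1 : (I : ℂ) = ∫ t, ((‖F t‖ ^ 2 : ℝ) : ℂ) ∂μ := by
      rw [hI]; exact integral_ofReal.symm
    rw [h1]
    have h2 : ∀ t, ((‖F t‖ ^ 2 : ℝ) : ℂ)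
        = ∑ n ∈ Icc 1 K, a n * (ee (t * Real.log n) * (starRingEnd ℂ) (F t)) := by
      intro t
      have h3 : ((‖F t‖ ^ 2 : ℝ) : ℂ) = F t * (starRingEnd ℂ) (F t) := by
        rw [Complex.mul_conj, Complex.normSq_eq_norm_sq]
      rw [h3, hF, Finset.sum_mul]
      refine Finset.sum_congr rfl fun n _ => ?_
      rw [mul_assoc]
    rw [integral_congr_ae (Filter.Eventually.of_forall h2), integral_finsetSum]
    · refine Finset.sum_congr rfl fun n _ => ?_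
      rw [integral_const_mul]
    · intro n _
      refine (int1 _ M ((hec n).mul hconjF) fun t => ?_).const_mul _
      rw [Pi.mul_apply, norm_mul, Pool.Agent.H91.PK.LSa_norm_ee, one_mul, Complex.norm_conj]
      exact hFb t
  have hCS : I ^ 2 ≤ (∑ n ∈ Icc 1 K, ‖a n‖ ^ 2) * ∑ n ∈ Icc 1 K, ‖c n‖ ^ 2 := by
    have h1 : I ≤ ∑ n ∈ Icc 1 K, ‖a n‖ * ‖c n‖ := by
      have h2 : I = ‖(I : ℂ)‖ := by rw [Complex.norm_real, Real.norm_of_nonneg hI0]
      rw [h2, hIc]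
      refine (norm_sum_le _ _).trans (le_of_eq ?_)
      exact Finset.sum_congr rfl fun n _ => norm_mul _ _
    calc I ^ 2 ≤ (∑ n ∈ Icc 1 K, ‖a n‖ * ‖c n‖) ^ 2 := by gcongr
      _ ≤ _ := Finset.sum_mul_sq_le_sq_mul_sq _ _ _
  have hsum : ((∑ n ∈ Icc 1 K, ‖c n‖ ^ 2 : ℝ) : ℂ)
      = ∫ z : ℝ × ℝ, (starRingEnd ℂ) (F z.1) * F z.2 * D (z.1 - z.2) ∂(μ.prod μ) := by
    have h1 : ∀ n : ℕ, ((‖c n‖ ^ 2 : ℝ) : ℂ) = ∫ z : ℝ × ℝ,
        (ee (z.1 * Real.log n) * (starRingEnd ℂ) (F z.1))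
          * ((starRingEnd ℂ) (ee (z.2 * Real.log n)) * F z.2) ∂(μ.prod μ) := by
      intro n
      rw [integral_prod_mul (fun t : ℝ => ee (t * Real.log n) * (starRingEnd ℂ) (F t))
        (fun t : ℝ => (starRingEnd ℂ) (ee (t * Real.log n)) * F t)]
      have h2 : ∫ t, (starRingEnd ℂ) (ee (t * Real.log n)) * F t ∂μ = (starRingEnd ℂ) (c n) := by
        rw [hc]
        simp only
        rw [← integral_conj]
        refine integral_congr_ae (Filter.Eventually.of_forall fun t => ?_)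
        simp only [map_mul, Complex.conj_conj]
      rw [h2]
      have h3 : ((‖c n‖ ^ 2 : ℝ) : ℂ) = c n * (starRingEnd ℂ) (c n) := by
        rw [Complex.mul_conj, Complex.normSq_eq_norm_sq]
      rw [h3]
    rw [Complex.ofReal_sum, Finset.sum_congr rfl fun n _ => h1 n, ← integral_finsetSum]
    · refine integral_congr_ae (Filter.Eventually.of_forall fun z => ?_)
      simp only [hD]
      rw [Finset.mul_sum]
      refine Finset.sum_congr rfl fun n _ => ?_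
      rw [Pool.Agent.H91.PK.LSa_conj_ee, sub_mul, sub_eq_add_neg, Pool.Agent.H91.PK.LSa_ee_add]
      ring
    · intro n _
      refine int3 _ (M * M) ?_ fun z => ?_
      · exact (((hec n).comp continuous_fst).mul (hconjF.comp continuous_fst)).mul
          ((Complex.continuous_conj.comp ((hec n).comp continuous_snd)).mul
            (hFc.comp continuous_snd))
      · rw [norm_mul, norm_mul, norm_mul, Complex.norm_conj, Complex.norm_conj,
          Pool.Agent.H91.PK.LSa_norm_ee, Pool.Agent.H91.PK.LSa_norm_ee, one_mul, one_mul]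
        exact mul_le_mul (hFb _) (hFb _) (norm_nonneg _) hM0
  set H : ℝ × ℝ → ℝ := fun z => ‖F z.1‖ ^ 2 * ‖D (z.1 - z.2)‖ with hH
  have hHc : Continuous H :=
    ((hFc.comp continuous_fst).norm.pow 2).mul
      (hDc.comp (continuous_fst.sub continuous_snd)).norm
  have hHi : Integrable H (μ.prod μ) := by
    refine int4 H (M ^ 2 * K) hHc fun z => ?_
    rw [Real.norm_of_nonneg (by positivity)]
    exact mul_le_mul (pow_le_pow_left₀ (norm_nonneg _) (hFb _) 2) (hDb _) (norm_nonneg _)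
      (by positivity)
  have hHI : ∫ z, H z ∂(μ.prod μ) ≤ G * I := by
    rw [integral_prod H hHi]
    have h1 : ∀ t ∈ B, ∫ s, H (t, s) ∂μ ≤ G * ‖F t‖ ^ 2 := by
      intro t ht
      have h2 : ∫ s, H (t, s) ∂μ = ‖F t‖ ^ 2 * ∫ s, ‖D (t - s)‖ ∂μ := by
        rw [← integral_const_mul]
      rw [h2, mul_comm G]
      exact mul_le_mul_of_nonneg_left (hG t ht) (by positivity)
    have h3 : ∫ t, ∫ s, H (t, s) ∂μ ∂μ ≤ ∫ t, G * ‖F t‖ ^ 2 ∂μ := by
      refine integral_mono_ae hHi.integral_prod_left ?_ ?_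
      · refine (int2 _ (M ^ 2) (hFc.norm.pow 2) fun t => ?_).const_mul _
        rw [Pi.pow_apply, Real.norm_of_nonneg (by positivity)]
        exact pow_le_pow_left₀ (norm_nonneg _) (hFb _) 2
      · rw [hμ]
        exact (ae_restrict_iff' hB).2 (Filter.Eventually.of_forall h1)
    rw [integral_const_mul] at h3
    exact h3
  have hHI2 : ∫ z : ℝ × ℝ, ‖F z.2‖ ^ 2 * ‖D (z.1 - z.2)‖ ∂(μ.prod μ) ≤ G * I := by
    have h1 : ∫ z : ℝ × ℝ, ‖F z.2‖ ^ 2 * ‖D (z.1 - z.2)‖ ∂(μ.prod μ)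
        = ∫ z : ℝ × ℝ, H z.swap ∂(μ.prod μ) := by
      refine integral_congr_ae (Filter.Eventually.of_forall fun z => ?_)
      simp only [hH, Prod.fst_swap, Prod.snd_swap]
      congr 1
      have := dual_D_neg K (z.1 - z.2)
      rw [← this]
      congr 2
      funext n
      ring_nf
    rw [h1, integral_prod_swap]
    exact hHI
  have hH2i : Integrable (fun z : ℝ × ℝ => ‖F z.2‖ ^ 2 * ‖D (z.1 - z.2)‖) (μ.prod μ) := by
    refine int4 _ (M ^ 2 * K) ?_ fun z => ?_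
    · exact ((hFc.comp continuous_snd).norm.pow 2).mul
        (hDc.comp (continuous_fst.sub continuous_snd)).norm
    · rw [Real.norm_of_nonneg (by positivity)]
      exact mul_le_mul (pow_le_pow_left₀ (norm_nonneg _) (hFb _) 2) (hDb _) (norm_nonneg _)
        (by positivity)
  have hc2 : ∑ n ∈ Icc 1 K, ‖c n‖ ^ 2 ≤ G * I := by
    have h0 : 0 ≤ ∑ n ∈ Icc 1 K, ‖c n‖ ^ 2 := Finset.sum_nonneg fun n _ => by positivity
    have h1 : ∑ n ∈ Icc 1 K, ‖c n‖ ^ 2 = ‖((∑ n ∈ Icc 1 K, ‖c n‖ ^ 2 : ℝ) : ℂ)‖ := by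
      rw [Complex.norm_real, Real.norm_of_nonneg h0]
    rw [h1, hsum]
    refine (norm_integral_le_integral_norm _).trans ?_
    have h2 : ∫ z : ℝ × ℝ, ‖(starRingEnd ℂ) (F z.1) * F z.2 * D (z.1 - z.2)‖ ∂(μ.prod μ)
        ≤ ∫ z : ℝ × ℝ, ((1 / 2) * H z + (1 / 2) * (‖F z.2‖ ^ 2 * ‖D (z.1 - z.2)‖))
            ∂(μ.prod μ) := by
      refine integral_mono ?_ ((hHi.const_mul _).add (hH2i.const_mul _)) fun z => ?_
      · refine int4 _ (M * M * K) ?_ fun z => ?_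
        · exact (((hconjF.comp continuous_fst).mul (hFc.comp continuous_snd)).mul
            (hDc.comp (continuous_fst.sub continuous_snd))).norm
        · rw [Real.norm_of_nonneg (norm_nonneg _), norm_mul, norm_mul, Complex.norm_conj]
          exact mul_le_mul (mul_le_mul (hFb _) (hFb _) (norm_nonneg _) hM0) (hDb _)
            (norm_nonneg _) (by positivity)
      · simp only [hH]
        rw [norm_mul, norm_mul, Complex.norm_conj]
        nlinarith only [mul_nonneg (sq_nonneg (‖F z.1‖ - ‖F z.2‖)) (norm_nonneg (D (z.1 - z.2)))]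
    refine h2.trans ?_
    rw [integral_add (hHi.const_mul _) (hH2i.const_mul _), integral_const_mul, integral_const_mul]
    linarith only [hHI, hHI2]
  have hfinal : I * I ≤ (G * ∑ n ∈ Icc 1 K, ‖a n‖ ^ 2) * I := by
    have h0 : 0 ≤ ∑ n ∈ Icc 1 K, ‖a n‖ ^ 2 := Finset.sum_nonneg fun n _ => by positivity
    calc I * I = I ^ 2 := by ring
      _ ≤ (∑ n ∈ Icc 1 K, ‖a n‖ ^ 2) * ∑ n ∈ Icc 1 K, ‖c n‖ ^ 2 := hCS
      _ ≤ (∑ n ∈ Icc 1 K, ‖a n‖ ^ 2) * (G * I) := mul_le_mul_of_nonneg_left hc2 h0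
      _ = _ := by ring
  rcases hI0.lt_or_eq with hpos | hzero
  · exact le_of_mul_le_mul_right hfinal hpos
  · rw [← hzero]
    have h0 : 0 ≤ ∑ n ∈ Icc 1 K, ‖a n‖ ^ 2 := Finset.sum_nonneg fun n _ => by positivity
    positivity

end Pool.Agent.H80.LV

end
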