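import Pool.Agent.H15.TB1.M18
import Pool.Agent.H15.TB1.M19
import Pool.Agent.H15.TB1.M35

/-! The parts of this file: H14.CO.LSamp, H14.CO.Az, H14.CO.EnBound, H14.CO.CoreEn, H14.CO.CoreCS, H14.CO.Rel, H14.CO.CorePair, H14.CO.CoreOut. -/

section

/-!
# CO module LSamp: large sieve with slowly varying amplitudes
-/

set_option autoImplicit false

namespace Pool.Agent.H14.CO

open Set MeasureTheory Complex

theorem LSamp_summable : Summable fun m : ℤ => 8 / (1 + (m : ℝ) ^ 2) := by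
  have h1 : Summable fun m : ℤ => 1 / (m : ℝ) ^ 2 := Real.summable_one_div_int_pow.2 (by norm_num)
  have h2 : Summable fun m : ℤ => 8 * (1 / (m : ℝ) ^ 2) + (if m = 0 then (8 : ℝ) else 0) :=
    (h1.mul_left 8).add (summable_of_ne_finset_zero (s := {0}) fun b hb => by
      rw [Finset.mem_singleton] at hb
      rw [if_neg hb])
  refine Summable.of_nonneg_of_le (fun m => by positivity) (fun m => ?_) h2
  by_cases hm : m = 0
  · subst hm; simp
  · rw [if_neg hm, add_zero, mul_one_div]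
    have h3 : (0 : ℝ) < (m : ℝ) ^ 2 := by positivity
    exact div_le_div_of_nonneg_left (by norm_num) h3 (by linarith)

theorem LSamp_floor (x : ℝ) : Real.exp (-x ^ 2 / 4) ≤ 8 / (1 + ((⌊x⌋ : ℤ) : ℝ) ^ 2) := by
  have h1 := Int.floor_le x
  have h2 := Int.lt_floor_add_one x
  set m : ℝ := ((⌊x⌋ : ℤ) : ℝ)
  have h3 : m ^ 2 ≤ 2 * x ^ 2 + 2 := by nlinarith only [h2, h1, sq_nonneg (x + (m - x)), sq_nonneg (m - 2 * x)]
  have h4 := Real.add_one_le_exp (x ^ 2 / 4)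
  have h5 : Real.exp (-x ^ 2 / 4) = (Real.exp (x ^ 2 / 4))⁻¹ := by
    rw [← Real.exp_neg]; congr 1; ring
  have h6 : (0 : ℝ) < 1 + m ^ 2 := by positivity
  rw [h5, inv_le_comm₀ (Real.exp_pos _) (by positivity), inv_div, div_le_iff₀ (by norm_num)]
  nlinarith only [h3, h4]

/-- Gaussian sums over `1`-separated points. -/
theorem LSamp_sep : ∃ C : ℝ, 0 < C ∧ ∀ (n : ℕ) (x : ℕ → ℝ),
    (∀ i < n, ∀ j < n, i ≠ j → 1 ≤ |x i - x j|) →
    ∑ j ∈ Finset.range n, Real.exp (-(x j) ^ 2 / 4) ≤ C := by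
  refine ⟨(∑' m : ℤ, 8 / (1 + (m : ℝ) ^ 2)) + 1, ?_, fun n x hx => ?_⟩
  · have : 0 ≤ ∑' m : ℤ, 8 / (1 + (m : ℝ) ^ 2) := tsum_nonneg fun m => by positivity
    linarith only [this]
  have hinj : Set.InjOn (fun j => ⌊x j⌋) (Finset.range n : Set ℕ) := by
    intro i hi j hj hij
    by_contra hne
    have h1 := hx i (Finset.mem_range.1 hi) j (Finset.mem_range.1 hj) hne
    have h2 := Int.abs_sub_lt_one_of_floor_eq_floor hij
    linarith
  calc ∑ j ∈ Finset.range n, Real.exp (-(x j) ^ 2 / 4)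
      ≤ ∑ j ∈ Finset.range n, 8 / (1 + ((⌊x j⌋ : ℤ) : ℝ) ^ 2) :=
        Finset.sum_le_sum fun j _ => LSamp_floor (x j)
    _ = ∑ m ∈ (Finset.range n).image (fun j => ⌊x j⌋), 8 / (1 + (m : ℝ) ^ 2) := by
        rw [Finset.sum_image hinj]
    _ ≤ ∑' m : ℤ, 8 / (1 + (m : ℝ) ^ 2) :=
        LSamp_summable.sum_le_tsum _ fun m _ => by positivity
    _ ≤ _ := by linarith only

/-- The Gaussian weight. -/
theorem LSamp_wint (a : ℝ) {X : ℝ} (hX : 0 < X) :
    Integrable fun u : ℝ => Real.exp (-((u - a) / X) ^ 2) := by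
  have h1 : Integrable fun u : ℝ => Real.exp (-(1 / X ^ 2) * u ^ 2) :=
    integrable_exp_neg_mul_sq (by positivity)
  have h2 := h1.comp_sub_right a
  refine h2.congr (Filter.Eventually.of_forall fun u => ?_)
  show Real.exp (-(1 / X ^ 2) * (u - a) ^ 2) = Real.exp (-((u - a) / X) ^ 2)
  congr 1
  rw [div_pow]; ring

theorem LSamp_fourier (a : ℝ) {X : ℝ} (hX : 0 < X) (δ : ℝ) :
    ‖∫ u : ℝ, ((Real.exp (-((u - a) / X) ^ 2) : ℝ) : ℂ) * Complex.exp (-(δ * u * I))‖ =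
      √Real.pi * X * Real.exp (-(X * δ) ^ 2 / 4) := by
  have h1 : (fun u : ℝ => ((Real.exp (-((u - a) / X) ^ 2) : ℝ) : ℂ) *
      Complex.exp (-(δ * u * I))) = fun u : ℝ => (fun v : ℝ => Complex.exp (-(δ * a * I)) *
        (Complex.exp (I * ((-δ : ℝ) : ℂ) * v) * Complex.exp (-((1 / X ^ 2 : ℝ) : ℂ) * v ^ 2)))
          (u - a) := by
    funext u
    show _ = Complex.exp (-(δ * a * I)) * (Complex.exp (I * ((-δ : ℝ) : ℂ) * ((u - a : ℝ) : ℂ)) *
      Complex.exp (-((1 / X ^ 2 : ℝ) : ℂ) * ((u - a : ℝ) : ℂ) ^ 2))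
    rw [← Complex.exp_add, ← Complex.exp_add, Complex.ofReal_exp, ← Complex.exp_add]
    congr 1
    push_cast
    field_simp
    ring
  rw [h1, integral_sub_right_eq_self (fun v : ℝ => Complex.exp (-(δ * a * I)) *
        (Complex.exp (I * ((-δ : ℝ) : ℂ) * v) * Complex.exp (-((1 / X ^ 2 : ℝ) : ℂ) * v ^ 2))) a,
    integral_const_mul, norm_mul]
  have hb : (0 : ℝ) < ((1 / X ^ 2 : ℝ) : ℂ).re := by rw [Complex.ofReal_re]; positivity
  rw [fourierIntegral_gaussian hb, norm_mul]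
  have h2 : ‖Complex.exp (-(δ * a * I))‖ = 1 := by
    rw [Complex.norm_exp]
    simp
  have h3 : ((Real.pi : ℂ) / ((1 / X ^ 2 : ℝ) : ℂ)) = ((Real.pi * X ^ 2 : ℝ) : ℂ) := by
    push_cast; field_simp
  have h4 : ‖((Real.pi : ℂ) / ((1 / X ^ 2 : ℝ) : ℂ)) ^ (1 / 2 : ℂ)‖ = √Real.pi * X := by
    rw [h3, Complex.norm_cpow_eq_rpow_re_of_pos (by positivity)]
    have : (1 / 2 : ℂ).re = 1 / 2 := by norm_num
    rw [this, ← Real.sqrt_eq_rpow, Real.sqrt_mul Real.pi_pos.le, Real.sqrt_sq hX.le]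
  have h5 : ‖Complex.exp (-((-δ : ℝ) : ℂ) ^ 2 / (4 * ((1 / X ^ 2 : ℝ) : ℂ)))‖ =
      Real.exp (-(X * δ) ^ 2 / 4) := by
    have : -((-δ : ℝ) : ℂ) ^ 2 / (4 * ((1 / X ^ 2 : ℝ) : ℂ)) = ((-(X * δ) ^ 2 / 4 : ℝ) : ℂ) := by
      push_cast; field_simp
    rw [this, Complex.norm_exp, Complex.ofReal_re]
  rw [h2, h4, h5, one_mul]

/-- Schur test. -/
theorem LSamp_schur (n : ℕ) (c : ℕ → ℝ) (K : ℕ → ℕ → ℝ) (B : ℝ)
    (hK : ∀ i j, 0 ≤ K i j) (hs : ∀ i j, K i j = K j i)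
    (hB : ∀ i < n, ∑ j ∈ Finset.range n, K i j ≤ B) :
    ∑ i ∈ Finset.range n, ∑ j ∈ Finset.range n, c i * c j * K i j ≤
      B * ∑ i ∈ Finset.range n, c i ^ 2 := by
  have h1 : ∀ i j, c i * c j * K i j ≤ (c i ^ 2 * K i j + c j ^ 2 * K i j) / 2 := by
    intro i j
    have := mul_nonneg (sq_nonneg (c i - c j)) (hK i j)
    nlinarith only [this]
  calc ∑ i ∈ Finset.range n, ∑ j ∈ Finset.range n, c i * c j * K i j
      ≤ ∑ i ∈ Finset.range n, ∑ j ∈ Finset.range n, (c i ^ 2 * K i j + c j ^ 2 * K i j) / 2 :=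
        Finset.sum_le_sum fun i _ => Finset.sum_le_sum fun j _ => h1 i j
    _ = (∑ i ∈ Finset.range n, ∑ j ∈ Finset.range n, c i ^ 2 * K i j +
          ∑ i ∈ Finset.range n, ∑ j ∈ Finset.range n, c j ^ 2 * K i j) / 2 := by
        simp only [← Finset.sum_div, Finset.sum_add_distrib]
    _ = ∑ i ∈ Finset.range n, ∑ j ∈ Finset.range n, c i ^ 2 * K i j := by
        have h2 : ∑ i ∈ Finset.range n, ∑ j ∈ Finset.range n, c j ^ 2 * K i j =
            ∑ i ∈ Finset.range n, ∑ j ∈ Finset.range n, c i ^ 2 * K i j := by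
          rw [Finset.sum_comm]
          exact Finset.sum_congr rfl fun i _ => Finset.sum_congr rfl fun j _ => by rw [hs j i]
        rw [h2]; ring
    _ = ∑ i ∈ Finset.range n, c i ^ 2 * ∑ j ∈ Finset.range n, K i j := by
        simp only [Finset.mul_sum]
    _ ≤ ∑ i ∈ Finset.range n, c i ^ 2 * B :=
        Finset.sum_le_sum fun i hi =>
          mul_le_mul_of_nonneg_left (hB i (Finset.mem_range.1 hi)) (sq_nonneg _)
    _ = B * ∑ i ∈ Finset.range n, c i ^ 2 := by rw [← Finset.sum_mul, mul_comm]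

theorem LSamp_cont (n : ℕ) (γ : ℕ → ℝ) (b : ℕ → ℂ) :
    Continuous fun u : ℝ => ∑ i ∈ Finset.range n, b i * Complex.exp (-(γ i * u * I)) := by
  fun_prop

/-- Expansion of the weighted mean square. -/
theorem LSamp_weighted (n : ℕ) (γ : ℕ → ℝ) (b : ℕ → ℂ) (a : ℝ) {X : ℝ} (hX : 0 < X) :
    Integrable (fun u : ℝ => Real.exp (-((u - a) / X) ^ 2) *
      ‖∑ i ∈ Finset.range n, b i * Complex.exp (-(γ i * u * I))‖ ^ 2) ∧
    ∫ u : ℝ, Real.exp (-((u - a) / X) ^ 2) *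
      ‖∑ i ∈ Finset.range n, b i * Complex.exp (-(γ i * u * I))‖ ^ 2 ≤
      ∑ i ∈ Finset.range n, ∑ j ∈ Finset.range n, ‖b i‖ * ‖b j‖ *
        (√Real.pi * X * Real.exp (-(X * (γ i - γ j)) ^ 2 / 4)) := by
  set w : ℝ → ℝ := fun u => Real.exp (-((u - a) / X) ^ 2) with hw
  have hexp : ∀ u : ℝ, ((w u * ‖∑ i ∈ Finset.range n,
      b i * Complex.exp (-(γ i * u * I))‖ ^ 2 : ℝ) : ℂ) =
      ∑ i ∈ Finset.range n, ∑ j ∈ Finset.range n, b i * (starRingEnd ℂ) (b j) *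
        (((w u : ℝ) : ℂ) * Complex.exp (-(((γ i - γ j : ℝ) : ℂ) * u * I))) := by
    intro u
    rw [← Complex.normSq_eq_norm_sq, Complex.ofReal_mul, ← Complex.mul_conj, map_sum,
      Finset.sum_mul_sum, Finset.mul_sum]
    refine Finset.sum_congr rfl fun i _ => ?_
    rw [Finset.mul_sum]
    refine Finset.sum_congr rfl fun j _ => ?_
    have h1 : (starRingEnd ℂ) (b j * Complex.exp (-(γ j * u * I))) =
        (starRingEnd ℂ) (b j) * Complex.exp (γ j * u * I) := by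
      rw [map_mul, ← Complex.exp_conj]
      congr 2
      simp
    have h2 : Complex.exp (-(((γ i - γ j : ℝ) : ℂ) * u * I)) =
        Complex.exp (-(γ i * u * I)) * Complex.exp (γ j * u * I) := by
      rw [← Complex.exp_add]; congr 1; push_cast; ring
    rw [h1, h2]; ring
  have hint : ∀ δ : ℝ, Integrable fun u : ℝ => ((w u : ℝ) : ℂ) *
      Complex.exp (-((δ : ℂ) * u * I)) := by
    intro δ
    refine (LSamp_wint a hX).mono' ?_ (Filter.Eventually.of_forall fun u => ?_)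
    · exact (by fun_prop : Continuous fun u : ℝ => ((Real.exp (-((u - a) / X) ^ 2) : ℝ) : ℂ) *
        Complex.exp (-((δ : ℂ) * u * I))).aestronglyMeasurable
    · rw [norm_mul, Complex.norm_real, Complex.norm_exp]
      simp [hw]
  have hint2 : ∀ i ∈ Finset.range n, ∀ j ∈ Finset.range n, Integrable fun u : ℝ =>
      b i * (starRingEnd ℂ) (b j) *
        (((w u : ℝ) : ℂ) * Complex.exp (-(((γ i - γ j : ℝ) : ℂ) * u * I))) :=
    fun i _ j _ => (hint _).const_mul _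
  have hint3 : Integrable fun u : ℝ => ((w u * ‖∑ i ∈ Finset.range n,
      b i * Complex.exp (-(γ i * u * I))‖ ^ 2 : ℝ) : ℂ) := by
    simp_rw [hexp]
    exact integrable_finsetSum _ fun i hi => integrable_finsetSum _ fun j hj => hint2 i hi j hj
  have hint4 : Integrable fun u : ℝ => w u * ‖∑ i ∈ Finset.range n,
      b i * Complex.exp (-(γ i * u * I))‖ ^ 2 := by
    have := hint3.re
    simpa only [RCLike.re_eq_complex_re, Complex.ofReal_re] using this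
  refine ⟨hint4, ?_⟩
  have h0 : 0 ≤ ∫ u : ℝ, w u * ‖∑ i ∈ Finset.range n,
      b i * Complex.exp (-(γ i * u * I))‖ ^ 2 := integral_nonneg fun u => by
    show 0 ≤ w u * _
    rw [hw]; positivity
  have h1 : ∫ u : ℝ, w u * ‖∑ i ∈ Finset.range n,
      b i * Complex.exp (-(γ i * u * I))‖ ^ 2 = ‖∫ u : ℝ, ((w u * ‖∑ i ∈ Finset.range n,
      b i * Complex.exp (-(γ i * u * I))‖ ^ 2 : ℝ) : ℂ)‖ := by
    rw [integral_complex_ofReal, Complex.norm_real, Real.norm_of_nonneg h0]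
  rw [h1]
  simp_rw [hexp]
  rw [integral_finsetSum _ fun i hi => integrable_finsetSum _ fun j hj => hint2 i hi j hj]
  refine (norm_sum_le _ _).trans (Finset.sum_le_sum fun i hi => ?_)
  rw [integral_finsetSum _ fun j hj => hint2 i hi j hj]
  refine (norm_sum_le _ _).trans (Finset.sum_le_sum fun j hj => ?_)
  rw [integral_const_mul, norm_mul, norm_mul, RCLike.norm_conj]
  exact mul_le_mul_of_nonneg_left (LSamp_fourier a hX (γ i - γ j)).le (by positivity)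

/-- Constant amplitudes. PROOF. Majorise `1_{[a,a+ℓ]}` by `e · exp(-((u-a)/X)²)`-type Gaussian with
`X = L + ℓ`, expand the square; the off-diagonal Gaussian Fourier coefficients
`√π X exp(-X² (γ_i-γ_j)²/4)` summed over `j` (for fixed `i`, the `γ_j` are `1/L`-separated and
`X ≥ L`) are `≤ C X`; `|b_i b_j| ≤ (|b_i|²+|b_j|²)/2`. -/
theorem ls_const : ∃ C : ℝ, 0 < C ∧ ∀ (n : ℕ) (γ : ℕ → ℝ) (L : ℝ), 1 ≤ L →
    (∀ i < n, ∀ j < n, i ≠ j → 1 / L ≤ |γ i - γ j|) → ∀ (b : ℕ → ℂ) (a ℓ : ℝ), 0 ≤ ℓ →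
    ∫ u in a..(a + ℓ), ‖∑ i ∈ Finset.range n, b i * Complex.exp (-(γ i * u * I))‖ ^ 2
      ≤ C * (L + ℓ) * ∑ i ∈ Finset.range n, ‖b i‖ ^ 2 := by
  obtain ⟨C₀, hC₀, hsep⟩ := LSamp_sep
  refine ⟨Real.exp 1 * (√Real.pi * C₀), by positivity, fun n γ L hL hγ b a ℓ hℓ => ?_⟩
  have hL0 : 0 < L := by linarith only [hL]
  have hX : 0 < L + ℓ := by linarith only [hL, hℓ]
  obtain ⟨h1, h2⟩ := LSamp_weighted n γ b a hX
  set S : ℝ → ℝ := fun u => ‖∑ i ∈ Finset.range n, b i * Complex.exp (-(γ i * u * I))‖ ^ 2 with hS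
  have hScont : Continuous S := (LSamp_cont n γ b).norm.pow 2
  have h3 : ∫ u in a..(a + ℓ), S u ≤
      Real.exp 1 * ∫ u : ℝ, Real.exp (-((u - a) / (L + ℓ)) ^ 2) * S u := by
    rw [intervalIntegral.integral_of_le (by linarith only [hℓ]), ← integral_const_mul]
    have h4 : Integrable fun u : ℝ => Real.exp 1 * (Real.exp (-((u - a) / (L + ℓ)) ^ 2) * S u) :=
      h1.const_mul _
    refine le_trans (setIntegral_mono_on (hScont.integrableOn_Ioc) h4.integrableOn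
      measurableSet_Ioc fun u hu => ?_) (setIntegral_le_integral h4
        (Filter.Eventually.of_forall fun u => ?_))
    · have h5 : 0 ≤ (u - a) / (L + ℓ) := div_nonneg (by linarith only [hu, hu.1]) hX.le
      have h6 : (u - a) / (L + ℓ) ≤ 1 := (div_le_one hX).2 (by linarith only [hL, hu, hu.2])
      have h7 : 1 ≤ Real.exp 1 * Real.exp (-((u - a) / (L + ℓ)) ^ 2) := by
        rw [← Real.exp_add]
        apply Real.one_le_exp
        nlinarith only [h6, h5]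
      rw [← mul_assoc]
      exact le_mul_of_one_le_left (sq_nonneg _) h7
    · show 0 ≤ Real.exp 1 * (Real.exp (-((u - a) / (L + ℓ)) ^ 2) * S u)
      have : 0 ≤ S u := sq_nonneg _
      positivity
  have h4 : ∑ i ∈ Finset.range n, ∑ j ∈ Finset.range n, ‖b i‖ * ‖b j‖ *
        (√Real.pi * (L + ℓ) * Real.exp (-((L + ℓ) * (γ i - γ j)) ^ 2 / 4)) ≤
      (√Real.pi * (L + ℓ) * C₀) * ∑ i ∈ Finset.range n, ‖b i‖ ^ 2 := by
    refine LSamp_schur n (fun i => ‖b i‖) (fun i j => √Real.pi * (L + ℓ) *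
      Real.exp (-((L + ℓ) * (γ i - γ j)) ^ 2 / 4)) _ (fun i j => by positivity) (fun i j => ?_)
      fun i hi => ?_
    · show √Real.pi * (L + ℓ) * Real.exp (-((L + ℓ) * (γ i - γ j)) ^ 2 / 4) =
        √Real.pi * (L + ℓ) * Real.exp (-((L + ℓ) * (γ j - γ i)) ^ 2 / 4)
      congr 2
      ring
    · rw [← Finset.mul_sum]
      refine mul_le_mul_of_nonneg_left ?_ (by positivity)
      refine le_trans (Finset.sum_le_sum fun j _ => ?_)
        (hsep n (fun j => L * (γ j - γ i)) fun j hj k hk hjk => ?_)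
      · apply Real.exp_le_exp.2
        have h5 : (L * (γ j - γ i)) ^ 2 ≤ ((L + ℓ) * (γ i - γ j)) ^ 2 := by
          rw [mul_pow, mul_pow, show (γ j - γ i) ^ 2 = (γ i - γ j) ^ 2 by ring]
          exact mul_le_mul_of_nonneg_right (pow_le_pow_left₀ hL0.le (by linarith only [hℓ]) 2)
            (sq_nonneg _)
        linarith only [h5]
      · have h5 := hγ j hj k hk hjk
        rw [div_le_iff₀ hL0] at h5
        have h6 : L * (γ j - γ i) - L * (γ k - γ i) = L * (γ j - γ k) := by ring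
        rw [h6, abs_mul, abs_of_pos hL0]
        linarith only [h5]
  calc ∫ u in a..(a + ℓ), S u
      ≤ Real.exp 1 * ((√Real.pi * (L + ℓ) * C₀) * ∑ i ∈ Finset.range n, ‖b i‖ ^ 2) :=
        h3.trans (mul_le_mul_of_nonneg_left (h2.trans h4) (Real.exp_pos _).le)
    _ = _ := by ring

/-- Cauchy-Schwarz for interval integrals of continuous functions. -/
theorem LSamp_cs {g : ℝ → ℝ} (hg : Continuous g) {a u : ℝ} (hau : a ≤ u) :
    (∫ v in a..u, g v) ^ 2 ≤ (u - a) * ∫ v in a..u, g v ^ 2 := by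
  rcases hau.eq_or_lt with rfl | hlt
  · simp
  have hpos : 0 < u - a := by linarith
  set m : ℝ := (∫ v in a..u, g v) / (u - a) with hm
  have h1 : 0 ≤ ∫ v in a..u, (g v - m) ^ 2 :=
    intervalIntegral.integral_nonneg hau fun v _ => sq_nonneg _
  have h2 : ∫ v in a..u, (g v - m) ^ 2 =
      (∫ v in a..u, g v ^ 2) - 2 * m * (∫ v in a..u, g v) + m ^ 2 * (u - a) := by
    have h3 : ∀ v, (g v - m) ^ 2 = g v ^ 2 - 2 * m * g v + m ^ 2 := fun v => by ring
    simp_rw [h3]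
    rw [intervalIntegral.integral_add, intervalIntegral.integral_sub,
      intervalIntegral.integral_const_mul, intervalIntegral.integral_const, smul_eq_mul]
    · ring
    · exact (hg.pow 2).intervalIntegrable _ _
    · exact (hg.const_mul _).intervalIntegrable _ _
    · exact ((hg.pow 2).sub (hg.const_mul _)).intervalIntegrable _ _
    · exact continuous_const.intervalIntegrable _ _
  have h4 : (∫ v in a..u, g v) = m * (u - a) := by rw [hm]; field_simp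
  rw [h2, h4] at h1
  rw [h4]
  nlinarith only [hau, h1]

/-- PROOF. `f i u = f i a + ∫_a^u f' i v dv`, so
`‖∑ e^{-iγ_i u} f i u‖² ≤ 2‖∑ e^{-iγ_i u} f i a‖² + 2 ℓ ∫_a^{a+ℓ} ‖∑ e^{-iγ_i u} f' i v‖² dv`
(Cauchy–Schwarz), integrate over `u ∈ [a,a+ℓ]` and use `ls_const` for each fixed `v`. -/
theorem ls_amp : ∃ C : ℝ, 0 < C ∧ ∀ (n : ℕ) (γ : ℕ → ℝ) (L : ℝ), 1 ≤ L →
    (∀ i < n, ∀ j < n, i ≠ j → 1 / L ≤ |γ i - γ j|) → ∀ (f f' : ℕ → ℝ → ℂ) (a ℓ : ℝ), 0 ≤ ℓ →
    (∀ i < n, ∀ u : ℝ, HasDerivAt (f i) (f' i u) u) → (∀ i < n, Continuous (f' i)) →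
    ∫ u in a..(a + ℓ), ‖∑ i ∈ Finset.range n, Complex.exp (-(γ i * u * I)) * f i u‖ ^ 2
      ≤ C * (L + ℓ) * (∑ i ∈ Finset.range n, ‖f i a‖ ^ 2 +
        ℓ * ∫ v in a..(a + ℓ), ∑ i ∈ Finset.range n, ‖f' i v‖ ^ 2) := by
  obtain ⟨C, hC, hls⟩ := ls_const
  refine ⟨2 * C, by positivity, fun n γ L hL hγ f f' a ℓ hℓ hd hc => ?_⟩
  have hle : a ≤ a + ℓ := by linarith
  set T : ℝ → ℝ → ℂ := fun u v =>
    ∑ i ∈ Finset.range n, f' i v * Complex.exp (-(γ i * u * I)) with hT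
  have hTc : Continuous fun p : ℝ × ℝ => T p.1 p.2 := by
    refine continuous_finsetSum _ fun i hi => ?_
    have h1 := hc i (Finset.mem_range.1 hi)
    exact (h1.comp continuous_snd).mul (by fun_prop)
  have hTv : ∀ u, Continuous fun v => T u v := fun u =>
    hTc.comp (by fun_prop : Continuous fun v : ℝ => (u, v))
  have hTn : Continuous fun p : ℝ × ℝ => ‖T p.1 p.2‖ ^ 2 := hTc.norm.pow 2
  have hfc : ∀ i < n, Continuous (f i) := fun i hi =>
    continuous_iff_continuousAt.2 fun u => (hd i hi u).continuousAt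
  -- pointwise bound
  have hpt : ∀ u ∈ Icc a (a + ℓ),
      ‖∑ i ∈ Finset.range n, Complex.exp (-(γ i * u * I)) * f i u‖ ^ 2 ≤
        2 * ‖∑ i ∈ Finset.range n, f i a * Complex.exp (-(γ i * u * I))‖ ^ 2 +
          2 * ℓ * ∫ v in a..(a + ℓ), ‖T u v‖ ^ 2 := by
    intro u hu
    have h1 : ∑ i ∈ Finset.range n, Complex.exp (-(γ i * u * I)) * f i u =
        (∑ i ∈ Finset.range n, f i a * Complex.exp (-(γ i * u * I))) + ∫ v in a..u, T u v := by
      rw [hT]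
      show _ = _ + ∫ v in a..u, ∑ i ∈ Finset.range n, f' i v * Complex.exp (-(γ i * u * I))
      rw [intervalIntegral.integral_finsetSum, ← Finset.sum_add_distrib]
      · refine Finset.sum_congr rfl fun i hi => ?_
        have h2 := hc i (Finset.mem_range.1 hi)
        rw [intervalIntegral.integral_mul_const,
          intervalIntegral.integral_eq_sub_of_hasDerivAt
            (fun x _ => hd i (Finset.mem_range.1 hi) x) (h2.intervalIntegrable _ _)]
        ring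
      · intro i hi
        exact ((hc i (Finset.mem_range.1 hi)).mul continuous_const).intervalIntegrable _ _
    have h2 : ‖∫ v in a..u, T u v‖ ^ 2 ≤ ℓ * ∫ v in a..(a + ℓ), ‖T u v‖ ^ 2 := by
      have h3 : ‖∫ v in a..u, T u v‖ ≤ ∫ v in a..u, ‖T u v‖ :=
        intervalIntegral.norm_integral_le_integral_norm hu.1
      have h4 := LSamp_cs (hTv u).norm hu.1
      have h5 : ∫ v in a..u, ‖T u v‖ ^ 2 ≤ ∫ v in a..(a + ℓ), ‖T u v‖ ^ 2 :=
        intervalIntegral.integral_mono_interval le_rfl hu.1 hu.2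
          (Filter.Eventually.of_forall fun v => sq_nonneg _)
          (((hTv u).norm.pow 2).intervalIntegrable _ _)
      have h6 : 0 ≤ ∫ v in a..u, ‖T u v‖ ^ 2 :=
        intervalIntegral.integral_nonneg hu.1 fun v _ => sq_nonneg _
      calc ‖∫ v in a..u, T u v‖ ^ 2 ≤ (∫ v in a..u, ‖T u v‖) ^ 2 :=
            pow_le_pow_left₀ (norm_nonneg _) h3 2
        _ ≤ (u - a) * ∫ v in a..u, ‖T u v‖ ^ 2 := h4
        _ ≤ ℓ * ∫ v in a..(a + ℓ), ‖T u v‖ ^ 2 :=
            mul_le_mul (by linarith only [hu, hu.2]) h5 h6 hℓ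
    rw [h1]
    have h3 := norm_add_le (∑ i ∈ Finset.range n, f i a * Complex.exp (-(γ i * u * I)))
      (∫ v in a..u, T u v)
    have h4 : ‖(∑ i ∈ Finset.range n, f i a * Complex.exp (-(γ i * u * I))) +
        ∫ v in a..u, T u v‖ ^ 2 ≤
        2 * ‖∑ i ∈ Finset.range n, f i a * Complex.exp (-(γ i * u * I))‖ ^ 2 +
          2 * ‖∫ v in a..u, T u v‖ ^ 2 := by
      have h5 := pow_le_pow_left₀ (norm_nonneg _) h3 2
      have h6 := add_sq_le (a := ‖∑ i ∈ Finset.range n, f i a * Complex.exp (-(γ i * u * I))‖)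
        (b := ‖∫ v in a..u, T u v‖)
      linarith only [h5, h6]
    linarith only [h2, h4]
  have hIc : Continuous fun u : ℝ => ∫ v in a..(a + ℓ), ‖T u v‖ ^ 2 :=
    intervalIntegral.continuous_parametric_intervalIntegral_of_continuous' hTn a (a + ℓ)
  have hswap : ∫ u in a..(a + ℓ), ∫ v in a..(a + ℓ), ‖T u v‖ ^ 2 =
      ∫ v in a..(a + ℓ), ∫ u in a..(a + ℓ), ‖T u v‖ ^ 2 := by
    refine intervalIntegral_intervalIntegral_swap (F := fun u v => ‖T u v‖ ^ 2) ?_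
    have h1 : IntegrableOn (Function.uncurry fun u v => ‖T u v‖ ^ 2)
        (uIcc a (a + ℓ) ×ˢ uIcc a (a + ℓ)) :=
      ContinuousOn.integrableOn_compact (isCompact_uIcc.prod isCompact_uIcc) hTn.continuousOn
    exact h1.mono_set (prod_mono uIoc_subset_uIcc uIoc_subset_uIcc)
  have hin : ∀ v, ∫ u in a..(a + ℓ), ‖T u v‖ ^ 2 ≤
      C * (L + ℓ) * ∑ i ∈ Finset.range n, ‖f' i v‖ ^ 2 := fun v =>
    hls n γ L hL hγ (fun i => f' i v) a ℓ hℓ
  have hF'c : Continuous fun v => ∑ i ∈ Finset.range n, ‖f' i v‖ ^ 2 :=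
    continuous_finsetSum _ fun i hi => ((hc i (Finset.mem_range.1 hi)).norm.pow 2)
  have hLHS : Continuous fun u : ℝ =>
      ‖∑ i ∈ Finset.range n, Complex.exp (-(γ i * u * I)) * f i u‖ ^ 2 := by
    refine (continuous_finsetSum _ fun i hi => ?_).norm.pow 2
    have h1 := hfc i (Finset.mem_range.1 hi)
    exact (by fun_prop : Continuous fun u : ℝ => Complex.exp (-(γ i * u * I))).mul h1
  have hA : Continuous fun u : ℝ =>
      ‖∑ i ∈ Finset.range n, f i a * Complex.exp (-(γ i * u * I))‖ ^ 2 :=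
    (LSamp_cont n γ fun i => f i a).norm.pow 2
  calc ∫ u in a..(a + ℓ), ‖∑ i ∈ Finset.range n, Complex.exp (-(γ i * u * I)) * f i u‖ ^ 2
      ≤ ∫ u in a..(a + ℓ), (2 * ‖∑ i ∈ Finset.range n, f i a * Complex.exp (-(γ i * u * I))‖ ^ 2 +
          2 * ℓ * ∫ v in a..(a + ℓ), ‖T u v‖ ^ 2) :=
        intervalIntegral.integral_mono_on hle (hLHS.intervalIntegrable _ _)
          (((hA.const_mul _).add (hIc.const_mul _)).intervalIntegrable _ _) hpt
    _ = 2 * (∫ u in a..(a + ℓ), ‖∑ i ∈ Finset.range n, f i a * Complex.exp (-(γ i * u * I))‖ ^ 2) +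
          2 * ℓ * ∫ u in a..(a + ℓ), ∫ v in a..(a + ℓ), ‖T u v‖ ^ 2 := by
        rw [intervalIntegral.integral_add ((hA.const_mul _).intervalIntegrable _ _)
          ((hIc.const_mul _).intervalIntegrable _ _), intervalIntegral.integral_const_mul,
          intervalIntegral.integral_const_mul]
    _ ≤ 2 * (C * (L + ℓ) * ∑ i ∈ Finset.range n, ‖f i a‖ ^ 2) +
          2 * ℓ * ∫ v in a..(a + ℓ), C * (L + ℓ) * ∑ i ∈ Finset.range n, ‖f' i v‖ ^ 2 := by
        rw [hswap]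
        have h1 := hls n γ L hL hγ (fun i => f i a) a ℓ hℓ
        have h2 : ∫ v in a..(a + ℓ), ∫ u in a..(a + ℓ), ‖T u v‖ ^ 2 ≤
            ∫ v in a..(a + ℓ), C * (L + ℓ) * ∑ i ∈ Finset.range n, ‖f' i v‖ ^ 2 :=
          intervalIntegral.integral_mono_on hle
            ((intervalIntegral.continuous_parametric_intervalIntegral_of_continuous'
              (f := fun v u => ‖T u v‖ ^ 2) (hTn.comp continuous_swap) a
                (a + ℓ)).intervalIntegrable _ _)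
            ((hF'c.const_mul _).intervalIntegrable _ _) fun v _ => hin v
        have h3 := mul_le_mul_of_nonneg_left h2 (by positivity : 0 ≤ 2 * ℓ)
        linarith only [h1, h3]
    _ = _ := by
        rw [intervalIntegral.integral_const_mul]
        ring

end Pool.Agent.H14.CO

end

section

/-!
# CO module Az: the smoothly truncated zeta sum at a zero
-/

set_option autoImplicit false

namespace Pool.Agent.H14.CO

open Set MeasureTheory Complex

/-- The integrand: `(Zt (ρ+z)/(ρ-1)) e^{z r} kn h z / z`. -/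
noncomputable def azI (h r : ℝ) (ρ z : ℂ) : ℂ :=
  Zt (ρ + z) / (ρ - 1) * (Complex.exp (z * r) * (kn h z / z))

/-- `az h r ρ = (1/2π) ∫ azI dy` over `Re z = 1`. -/
noncomputable def az (h r : ℝ) (ρ : ℂ) : ℂ :=
  (1 / (2 * Real.pi) : ℝ) * ∫ y : ℝ, azI h r ρ (1 + y * I)

/-! ### auxiliary: functions of polynomial growth in a strip -/

private theorem Az_re (σ y : ℝ) : ((σ : ℂ) + y * I).re = σ := by simp

private theorem Az_im (σ y : ℝ) : ((σ : ℂ) + y * I).im = y := by simp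

private theorem Az_ne (σ y : ℝ) (hσ : σ ≠ 0) : ((σ : ℂ) + y * I) ≠ 0 := by
  intro h
  have := congrArg Complex.re h
  rw [Az_re] at this
  exact hσ (by simpa using this)

private theorem Az_norm_exp (z : ℂ) (r : ℝ) : ‖Complex.exp (z * r)‖ = Real.exp (z.re * r) := by
  rw [Complex.norm_exp]
  congr 1
  simp

private theorem Az_two_pi : ‖(((1 / (2 * Real.pi) : ℝ)) : ℂ)‖ ≤ 1 := by
  rw [Complex.norm_real, Real.norm_eq_abs, abs_of_pos (by positivity)]
  rw [div_le_one (by positivity)]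
  have := Real.pi_gt_three
  linarith only [this]

/-- polynomial growth in the strip `|Re z| ≤ S` -/
private def Az_PG (S : ℝ) (F : ℂ → ℂ) : Prop :=
  ∃ (C : ℝ) (n : ℕ), 0 ≤ C ∧ ∀ z : ℂ, |z.re| ≤ S → ‖F z‖ ≤ C * (1 + ‖z‖) ^ n

private theorem Az_PG_mul {S : ℝ} {F G : ℂ → ℂ} (hF : Az_PG S F) (hG : Az_PG S G) :
    Az_PG S (fun z => F z * G z) := by
  obtain ⟨C, n, hC, hF⟩ := hF
  obtain ⟨D, m, hD, hG⟩ := hG
  refine ⟨C * D, n + m, by positivity, fun z hz => ?_⟩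
  rw [norm_mul]
  calc ‖F z‖ * ‖G z‖ ≤ (C * (1 + ‖z‖) ^ n) * (D * (1 + ‖z‖) ^ m) :=
        mul_le_mul (hF z hz) (hG z hz) (norm_nonneg _) (by positivity)
    _ = C * D * (1 + ‖z‖) ^ (n + m) := by rw [pow_add]; ring

private theorem Az_PG_id (S : ℝ) : Az_PG S (fun z => z) :=
  ⟨1, 1, zero_le_one, fun z _ => by rw [pow_one]; linarith only⟩

private theorem Az_PG_Zt (S : ℝ) (ρ : ℂ) : Az_PG S (fun z => Zt (ρ + z) / (ρ - 1)) := by
  obtain ⟨C, hC, H⟩ := Zt_growth (1 + |S| + |ρ.re|)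
    (by have := abs_nonneg S; have := abs_nonneg ρ.re; linarith)
  refine ⟨C * (1 + ‖ρ‖) ^ (⌈(1 + |S| + |ρ.re|) + 3⌉₊) / ‖ρ - 1‖, ⌈(1 + |S| + |ρ.re|) + 3⌉₊,
    by positivity, fun z hz => ?_⟩
  have h1 : -(1 + |S| + |ρ.re|) ≤ (ρ + z).re := by
    rw [Complex.add_re]
    have h2 := neg_abs_le ρ.re
    have h3 := neg_abs_le z.re
    have h4 := le_abs_self S
    linarith only [hz, h2, h3, h4]
  have h2 := H (ρ + z) h1
  have h3 : (1 : ℝ) ≤ 1 + ‖ρ + z‖ := by have := norm_nonneg (ρ + z); linarith only [this]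
  have h4 : (1 + ‖ρ + z‖) ^ ((1 + |S| + |ρ.re|) + 3) ≤
      (1 + ‖ρ + z‖) ^ (⌈(1 + |S| + |ρ.re|) + 3⌉₊) := by
    rw [← Real.rpow_natCast]
    exact Real.rpow_le_rpow_of_exponent_le h3 (Nat.le_ceil _)
  have h5 : 1 + ‖ρ + z‖ ≤ (1 + ‖ρ‖) * (1 + ‖z‖) := by
    have h6 := norm_add_le ρ z
    have h7 : 0 ≤ ‖ρ‖ * ‖z‖ := by positivity
    nlinarith only [h6, h7]
  have h6 : (1 + ‖ρ + z‖) ^ (⌈(1 + |S| + |ρ.re|) + 3⌉₊) ≤
      (1 + ‖ρ‖) ^ (⌈(1 + |S| + |ρ.re|) + 3⌉₊) * (1 + ‖z‖) ^ (⌈(1 + |S| + |ρ.re|) + 3⌉₊) := by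
    rw [← mul_pow]
    exact pow_le_pow_left₀ (by positivity) h5 _
  rw [norm_div, div_mul_eq_mul_div]
  apply div_le_div_of_nonneg_right _ (norm_nonneg _)
  calc ‖Zt (ρ + z)‖ ≤ C * (1 + ‖ρ + z‖) ^ ((1 + |S| + |ρ.re|) + 3) := h2
    _ ≤ C * ((1 + ‖ρ‖) ^ (⌈(1 + |S| + |ρ.re|) + 3⌉₊) *
          (1 + ‖z‖) ^ (⌈(1 + |S| + |ρ.re|) + 3⌉₊)) :=
        mul_le_mul_of_nonneg_left (h4.trans h6) hC.le
    _ = _ := by ring

private theorem Az_norm_Mo_le (z₀ : ℝ) (s w : ℂ) (S : ℝ) (hw : |w.re| ≤ S) :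
    ‖Mo z₀ (s + w)‖ ≤ ∑ d ∈ Finset.Icc 1 ⌊z₀ ^ 2⌋₊, |lam z₀ d| * (d : ℝ) ^ (|s.re| + S) := by
  unfold Mo
  refine (norm_sum_le _ _).trans (Finset.sum_le_sum fun d hd => ?_)
  have hd1 : 1 ≤ d := (Finset.mem_Icc.1 hd).1
  have hd0 : (0 : ℝ) < d := by exact_mod_cast hd1
  have hd2 : (1 : ℝ) ≤ d := by exact_mod_cast hd1
  rw [norm_mul, Complex.norm_real, Real.norm_eq_abs]
  apply mul_le_mul_of_nonneg_left _ (abs_nonneg _)
  rw [show ((d : ℕ) : ℂ) = ((d : ℝ) : ℂ) by push_cast; rfl,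
    Complex.norm_cpow_eq_rpow_re_of_pos hd0]
  apply Real.rpow_le_rpow_of_exponent_le hd2
  rw [Complex.neg_re, Complex.add_re]
  have h2 := neg_abs_le s.re
  have h3 := neg_abs_le w.re
  linarith only [hw, h2, h3]

private theorem Az_PG_Mo (S : ℝ) (z₀ : ℝ) (s : ℂ) : Az_PG S (fun z => Mo z₀ (s + z)) := by
  refine ⟨∑ d ∈ Finset.Icc 1 ⌊z₀ ^ 2⌋₊, |lam z₀ d| * (d : ℝ) ^ (|s.re| + S), 0,
    Finset.sum_nonneg fun d _ => by positivity, fun z hz => ?_⟩
  rw [pow_zero, mul_one]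
  exact Az_norm_Mo_le z₀ s z S hz

private theorem Az_poly (k : ℕ) (y : ℝ) :
    (1 + |y|) ^ k * Real.exp (-y ^ 2) ≤ (k.factorial : ℝ) * Real.exp 2 := by
  have h1 : (0 : ℝ) ≤ 1 + |y| := by positivity
  have h2 := Real.pow_div_factorial_le_exp (1 + |y|) h1 k
  have hk : (0 : ℝ) < k.factorial := by exact_mod_cast k.factorial_pos
  rw [div_le_iff₀ hk] at h2
  have h3 : Real.exp (1 + |y|) * Real.exp (-y ^ 2) ≤ Real.exp 2 := by
    rw [← Real.exp_add]
    apply Real.exp_le_exp.2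
    have h4 : |y| ^ 2 = y ^ 2 := sq_abs y
    nlinarith only [h4, sq_nonneg (|y| - 1), abs_nonneg y]
  calc (1 + |y|) ^ k * Real.exp (-y ^ 2)
      ≤ (Real.exp (1 + |y|) * k.factorial) * Real.exp (-y ^ 2) :=
        mul_le_mul_of_nonneg_right h2 (Real.exp_pos _).le
    _ = (k.factorial : ℝ) * (Real.exp (1 + |y|) * Real.exp (-y ^ 2)) := by ring
    _ ≤ _ := mul_le_mul_of_nonneg_left h3 hk.le

/-- decay of `F z e^{z r} kn h z` in a strip, uniformly for bounded `r`. -/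
private theorem Az_decay {S : ℝ} {F : ℂ → ℂ} (hF : Az_PG S F) (h R : ℝ) (hh : 0 < h) :
    ∃ C : ℝ, 0 ≤ C ∧ ∀ z : ℂ, |z.re| ≤ S → ∀ r : ℝ, |r| ≤ R →
      ‖F z * (Complex.exp (z * r) * kn h z)‖ ≤ C / (1 + z.im ^ 2) := by
  obtain ⟨C, n, hC, hF⟩ := hF
  by_cases hS : 0 ≤ S
  swap
  · exact ⟨0, le_rfl, fun z hz => absurd ((abs_nonneg _).trans hz) hS⟩
  refine ⟨C * (1 + S) ^ n * Real.exp (S * |R|) * (2 ^ 32 * Real.exp (32 * h * S + S ^ 2)) *
    (((n + 2).factorial : ℝ) * Real.exp 2), by positivity, fun z hz r hr => ?_⟩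
  have hy : (0 : ℝ) < 1 + z.im ^ 2 := by positivity
  rw [le_div_iff₀ hy, norm_mul, norm_mul, Az_norm_exp]
  -- bounds of the factors
  have h1 : 1 + ‖z‖ ≤ (1 + S) * (1 + |z.im|) := by
    have h2 := Complex.norm_le_abs_re_add_abs_im z
    have h3 : 0 ≤ S * |z.im| := by positivity
    nlinarith only [hz, h2, h3]
  have h2 : ‖F z‖ ≤ C * ((1 + S) ^ n * (1 + |z.im|) ^ n) := by
    refine (hF z hz).trans (mul_le_mul_of_nonneg_left ?_ hC)
    rw [← mul_pow]
    exact pow_le_pow_left₀ (by positivity) h1 n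
  have h3 : Real.exp (z.re * r) ≤ Real.exp (S * |R|) := by
    apply Real.exp_le_exp.2
    calc z.re * r ≤ |z.re * r| := le_abs_self _
      _ = |z.re| * |r| := abs_mul _ _
      _ ≤ S * |R| := mul_le_mul hz (hr.trans (le_abs_self _)) (abs_nonneg _) hS
  have h4 : ‖kn h z‖ ≤ 2 ^ 32 * Real.exp (32 * h * S + S ^ 2) * Real.exp (-z.im ^ 2) := by
    have h1 := norm_kn_le h hh.le z
    have h2 : (1 : ℝ) ≤ (1 + h * ‖z‖) ^ 32 := by
      apply one_le_pow₀
      have : 0 ≤ h * ‖z‖ := by positivity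
      linarith only [this]
    have h3 : ‖kn h z‖ ≤ ‖kn h z‖ * (1 + h * ‖z‖) ^ 32 :=
      le_mul_of_one_le_right (norm_nonneg _) h2
    refine (h3.trans h1).trans ?_
    rw [mul_assoc (2 ^ 32 : ℝ), ← Real.exp_add]
    apply mul_le_mul_of_nonneg_left _ (by positivity)
    apply Real.exp_le_exp.2
    have h4 : 32 * h * |z.re| ≤ 32 * h * S := mul_le_mul_of_nonneg_left hz (by positivity)
    have h5 : z.re ^ 2 ≤ S ^ 2 := by
      rw [← sq_abs z.re]
      exact pow_le_pow_left₀ (abs_nonneg _) hz 2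
    linarith only [h4, h5]
  have h5 : 1 + z.im ^ 2 ≤ (1 + |z.im|) ^ 2 := by
    have h6 : |z.im| ^ 2 = z.im ^ 2 := sq_abs _
    nlinarith only [h6, abs_nonneg z.im]
  have h6 := Az_poly (n + 2) z.im
  calc ‖F z‖ * (Real.exp (z.re * r) * ‖kn h z‖) * (1 + z.im ^ 2)
      ≤ (C * ((1 + S) ^ n * (1 + |z.im|) ^ n)) * (Real.exp (S * |R|) *
          (2 ^ 32 * Real.exp (32 * h * S + S ^ 2) * Real.exp (-z.im ^ 2))) * (1 + |z.im|) ^ 2 := by
        apply mul_le_mul _ h5 hy.le (by positivity)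
        apply mul_le_mul h2 _ (by positivity) (by positivity)
        exact mul_le_mul h3 h4 (norm_nonneg _) (Real.exp_pos _).le
    _ = C * (1 + S) ^ n * Real.exp (S * |R|) * (2 ^ 32 * Real.exp (32 * h * S + S ^ 2)) *
          ((1 + |z.im|) ^ (n + 2) * Real.exp (-z.im ^ 2)) := by
        rw [pow_add]; ring
    _ ≤ _ := mul_le_mul_of_nonneg_left h6 (by positivity)

/-- integrability on a line of `F z (e^{z r} kn h z / z)`, with an explicit integrable majorant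
uniform for bounded `r`. -/
private theorem Az_line_bound {σ : ℝ} (hσ : σ ≠ 0) {F : ℂ → ℂ} (hF : Az_PG |σ| F) (h R : ℝ)
    (hh : 0 < h) : ∃ C : ℝ, 0 ≤ C ∧ ∀ y r : ℝ, |r| ≤ R →
      ‖F (σ + y * I) * (Complex.exp ((σ + y * I) * r) * (kn h (σ + y * I) / (σ + y * I)))‖
        ≤ C / (1 + y ^ 2) := by
  obtain ⟨C, hC, H⟩ := Az_decay hF h R hh
  have hσ' : 0 < |σ| := abs_pos.2 hσ
  refine ⟨C / |σ|, by positivity, fun y r hr => ?_⟩
  have h1 := H (σ + y * I) (by rw [Az_re]) r hr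
  rw [Az_im] at h1
  have h2 : |σ| ≤ ‖(σ : ℂ) + y * I‖ := by
    have := Complex.abs_re_le_norm ((σ : ℂ) + y * I)
    rwa [Az_re] at this
  rw [← mul_div_assoc, ← mul_div_assoc, norm_div]
  calc _ ≤ ‖F (σ + y * I) * (Complex.exp ((σ + y * I) * r) * kn h (σ + y * I))‖ / |σ| :=
        div_le_div_of_nonneg_left (norm_nonneg _) hσ' h2
    _ ≤ C / (1 + y ^ 2) / |σ| := div_le_div_of_nonneg_right h1 hσ'.le
    _ = _ := by rw [div_div, div_div, mul_comm]

private theorem Az_cont {σ : ℝ} (hσ : σ ≠ 0) {F : ℂ → ℂ} (hF : Continuous F) (h r : ℝ) :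
    Continuous fun y : ℝ => F (σ + y * I) *
      (Complex.exp ((σ + y * I) * r) * (kn h (σ + y * I) / (σ + y * I))) := by
  have h1 : Continuous fun y : ℝ => (σ : ℂ) + y * I := by fun_prop
  apply (hF.comp h1).mul
  apply Continuous.mul (by fun_prop)
  exact ((differentiable_kn h).continuous.comp h1).div h1 (fun y => Az_ne σ y hσ)

private theorem Az_majorant (C : ℝ) : Integrable (fun y : ℝ => C / (1 + y ^ 2)) := by
  simp only [div_eq_mul_inv]
  exact integrable_inv_one_add_sq.const_mul C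

private theorem Az_integrable {σ : ℝ} (hσ : σ ≠ 0) {F : ℂ → ℂ} (hFc : Continuous F)
    (hF : Az_PG |σ| F) (h r : ℝ) (hh : 0 < h) : Integrable fun y : ℝ => F (σ + y * I) *
      (Complex.exp ((σ + y * I) * r) * (kn h (σ + y * I) / (σ + y * I))) := by
  obtain ⟨C, -, H⟩ := Az_line_bound hσ hF h |r| hh
  exact (Az_majorant C).mono' (Az_cont hσ hFc h r).aestronglyMeasurable
    (Filter.Eventually.of_forall fun y => H y r le_rfl)

/-- differentiation under the integral sign -/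
private theorem Az_hasDeriv {σ : ℝ} (hσ : σ ≠ 0) {F : ℂ → ℂ} (hFc : Continuous F)
    (hF : Az_PG |σ| F) (h : ℝ) (hh : 0 < h) (r : ℝ) :
    HasDerivAt (fun r : ℝ => ∫ y : ℝ, F (σ + y * I) *
      (Complex.exp ((σ + y * I) * r) * (kn h (σ + y * I) / (σ + y * I))))
      (∫ y : ℝ, F (σ + y * I) *
      (Complex.exp ((σ + y * I) * r) * (kn h (σ + y * I) / (σ + y * I))) * (σ + y * I)) r := by
  have hF' : Az_PG |σ| (fun z => F z * z) := Az_PG_mul hF (Az_PG_id _)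
  obtain ⟨C, hC, H⟩ := Az_line_bound hσ hF' h (|r| + 1) hh
  refine (hasDerivAt_integral_of_dominated_loc_of_deriv_le (bound := fun y => C / (1 + y ^ 2))
    (F := fun (r : ℝ) (y : ℝ) => F (σ + y * I) *
      (Complex.exp ((σ + y * I) * r) * (kn h (σ + y * I) / (σ + y * I))))
    (F' := fun (r : ℝ) (y : ℝ) => F (σ + y * I) *
      (Complex.exp ((σ + y * I) * r) * (kn h (σ + y * I) / (σ + y * I))) * (σ + y * I))
    (Metric.ball_mem_nhds r one_pos) ?_ (Az_integrable hσ hFc hF h r hh) ?_ ?_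
    (Az_majorant C) ?_).2
  · exact Filter.Eventually.of_forall fun r' => (Az_cont hσ hFc h r').aestronglyMeasurable
  · exact ((Az_cont hσ hFc h r).mul (by fun_prop)).aestronglyMeasurable
  · refine Filter.Eventually.of_forall fun y r' hr' => ?_
    have h1 : |r'| ≤ |r| + 1 := by
      have h2 : |r' - r| < 1 := by simpa [Real.dist_eq] using hr'
      have h3 := abs_sub_abs_le_abs_sub r' r
      linarith only [h2, h3]
    have h2 := H y r' h1
    rw [show F (σ + y * I) * (Complex.exp ((σ + y * I) * r') *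
      (kn h (σ + y * I) / (σ + y * I))) * (σ + y * I) = F (σ + y * I) * (σ + y * I) *
      (Complex.exp ((σ + y * I) * r') * (kn h (σ + y * I) / (σ + y * I))) by ring]
    exact h2
  · refine Filter.Eventually.of_forall fun y r' _ => ?_
    have h1 : HasDerivAt (fun r : ℝ => Complex.exp ((σ + y * I) * (r : ℂ)))
        (Complex.exp ((σ + y * I) * (r' : ℂ)) * ((σ + y * I) * 1)) r' := by
      have h2 : HasDerivAt (fun r : ℝ => ((σ : ℂ) + y * I) * (r : ℂ)) ((σ + y * I) * 1) r' :=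
        (HasDerivAt.ofReal_comp (hasDerivAt_id r')).const_mul _
      exact h2.cexp
    have h3 := (h1.mul_const (kn h (σ + y * I) / (σ + y * I))).const_mul (F (σ + y * I))
    refine h3.congr_deriv ?_
    ring

/-- if the numerator vanishes at `0` the line may be moved anywhere -/
private theorem Az_shift {F : ℂ → ℂ} (hF : Differentiable ℂ F) (hP : ∀ S, Az_PG S F) (h0 : F 0 = 0)
    (h r : ℝ) (hh : 0 < h) (a b : ℝ) (ha : a ≠ 0) (hb : b ≠ 0) :
    (∫ y : ℝ, F (a + y * I) *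
      (Complex.exp ((a + y * I) * r) * (kn h (a + y * I) / (a + y * I)))) =
    ∫ y : ℝ, F (b + y * I) *
      (Complex.exp ((b + y * I) * r) * (kn h (b + y * I) / (b + y * I))) := by
  have key : ∀ a b : ℝ, a < 0 → 0 < b →
    (∫ y : ℝ, F (b + y * I) *
      (Complex.exp ((b + y * I) * r) * (kn h (b + y * I) / (b + y * I)))) =
    ∫ y : ℝ, F (a + y * I) *
      (Complex.exp ((a + y * I) * r) * (kn h (a + y * I) / (a + y * I))) := by
    intro a b ha hb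
    obtain ⟨C, -, H⟩ := Az_decay (hP (|a| + |b|)) h |r| hh
    have h1 := line_residue (fun z : ℂ => F z * (Complex.exp (z * r) * kn h z)) a b ha hb
      (fun z _ _ => (hF z).mul (((differentiableAt_id.mul_const _).cexp).mul
        (differentiable_kn h z))) C
      (fun z hz hz' => H z (by
        have h1 := neg_abs_le a
        have h2 := le_abs_self b
        have h3 := abs_nonneg a
        have h4 := abs_nonneg b
        rw [abs_le]
        constructor <;> linarith only [hb, hz, h1, h2, ha, hz']) r le_rfl)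
    simp only [h0, zero_mul, mul_zero] at h1
    have e : ∀ c y : ℝ, F (c + y * I) *
        (Complex.exp ((c + y * I) * r) * (kn h (c + y * I) / (c + y * I))) =
        F (c + y * I) * (Complex.exp ((c + y * I) * r) * kn h (c + y * I)) / (c + y * I) := by
      intro c y
      rw [← mul_div_assoc, ← mul_div_assoc]
    simp only [e]
    exact sub_eq_zero.1 h1
  rcases lt_or_gt_of_ne ha with ha' | ha' <;> rcases lt_or_gt_of_ne hb with hb' | hb'
  · rw [← key a 1 ha' one_pos, key b 1 hb' one_pos]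
  · exact (key a b ha' hb').symm
  · exact key b a hb' ha'
  · rw [key (-1) a (by norm_num) ha', ← key (-1) b (by norm_num) hb']

private theorem Az_diff (ρ : ℂ) : Differentiable ℂ (fun z => Zt (ρ + z) / (ρ - 1)) := by
  have h1 : Differentiable ℂ (fun z => Zt (ρ + z)) :=
    differentiable_Zt.comp ((differentiable_const ρ).add differentiable_id)
  exact h1.div_const _

private theorem Az_Zt_zero (ρ : ℂ) (hρ : riemannZeta ρ = 0) (hρ1 : ρ.re < 1) :
    Zt (ρ + 0) / (ρ - 1) = 0 := by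
  have h1 : ρ ≠ 1 := by
    intro h
    rw [h] at hρ1
    simp at hρ1
  rw [add_zero, Zt_eq ρ h1, hρ, mul_zero, zero_div]

/-- At a zero `ρ` the integrand is entire, so the line may be moved anywhere (`line_residue` +
`line_shift`, residue `Zt ρ = 0`). -/
theorem az_line (h r : ℝ) (hh : 0 < h) (ρ : ℂ) (hρ : riemannZeta ρ = 0) (hρ0 : 1 / 2 ≤ ρ.re)
    (hρ1 : ρ.re < 1) (σ : ℝ) (hσ : σ ≠ 0) :
    az h r ρ = (1 / (2 * Real.pi) : ℝ) * ∫ y : ℝ, azI h r ρ (σ + y * I) := by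
  unfold az azI
  congr 1
  have := Az_shift (Az_diff ρ) (fun S => Az_PG_Zt S ρ) (Az_Zt_zero ρ hρ hρ1) h r hh 1 σ
    one_ne_zero hσ
  simpa only [Complex.ofReal_one] using this

private theorem Az_norm_bound (B σ n : ℝ) (hB : 1 ≤ B) (hn : 0 ≤ n) (hσ : |σ| = B) (ρ : ℂ)
    (hρ : 1 ≤ |ρ.im|) (C : ℝ) (hC : 0 < C)
    (H : ∀ y : ℝ, ‖Zt (ρ + (σ + y * I))‖ ≤ C * (1 + ‖ρ + (σ + y * I)‖) ^ n)
    (D : ℝ) (hD : 0 < D) (h r : ℝ) (hh : 1 ≤ h)
    (hk1 : Integrable (fun y : ℝ => (1 + h * |y|) ^ 30 * (1 + |y|) ^ ⌈n⌉₊ *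
      ‖kn h (σ + y * I) / (σ + y * I)‖))
    (hk2 : ∫ y : ℝ, (1 + h * |y|) ^ 30 * (1 + |y|) ^ ⌈n⌉₊ *
      ‖kn h (σ + y * I) / (σ + y * I)‖
      ≤ D * Real.exp (32 * h * |σ| + σ ^ 2) * (1 + 1 / (h * |σ|))) :
    ‖((1 / (2 * Real.pi) : ℝ) : ℂ) * ∫ y : ℝ, azI h r ρ (σ + y * I)‖ ≤
      (C * (2 + B) ^ n * (D * Real.exp (B ^ 2) * 2)) * ‖ρ‖ ^ n *
        Real.exp (σ * r + 32 * h * B) := by
  have hρn : 1 ≤ ‖ρ‖ := hρ.trans (Complex.abs_im_le_norm ρ)
  have hρ1 : 1 ≤ ‖ρ - 1‖ := by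
    have := Complex.abs_im_le_norm (ρ - 1)
    rw [Complex.sub_im, Complex.one_im, sub_zero] at this
    exact hρ.trans this
  have hh0 : 0 < h := by linarith only [hh]
  have hB0 : 0 < B := by linarith only [hB]
  -- pointwise bound
  have hpt : ∀ y : ℝ, ‖azI h r ρ (σ + y * I)‖ ≤ C * (2 + B) ^ n * ‖ρ‖ ^ n * Real.exp (σ * r) *
      ((1 + h * |y|) ^ 30 * (1 + |y|) ^ ⌈n⌉₊ * ‖kn h (σ + y * I) / (σ + y * I)‖) := by
    intro y
    unfold azI
    rw [norm_mul, norm_mul, norm_div (Zt _), Az_norm_exp, Az_re]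
    have h1 : ‖Zt (ρ + (σ + y * I))‖ / ‖ρ - 1‖ ≤
        C * ((2 + B) ^ n * ‖ρ‖ ^ n * (1 + |y|) ^ ⌈n⌉₊) := by
      refine (div_le_self (norm_nonneg _) hρ1).trans ((H y).trans ?_)
      apply mul_le_mul_of_nonneg_left _ hC.le
      have h2 : 1 + ‖ρ + (σ + y * I)‖ ≤ (2 + B) * ‖ρ‖ * (1 + |y|) := by
        have h3 := norm_add_le ρ (σ + y * I)
        have h4 := Complex.norm_le_abs_re_add_abs_im ((σ : ℂ) + y * I)
        rw [Az_re, Az_im, hσ] at h4
        have h5 : 0 ≤ |y| := abs_nonneg y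
        have h6 : (2 + B) * ‖ρ‖ * (1 + |y|) = (2 + B) * ‖ρ‖ + (2 + B) * ‖ρ‖ * |y| := by ring
        have h7 : 1 + ‖ρ‖ + B ≤ (2 + B) * ‖ρ‖ := by nlinarith only [hρn, hB]
        have h8 : |y| ≤ (2 + B) * ‖ρ‖ * |y| := by
          apply le_mul_of_one_le_left h5
          nlinarith only [hB, hρn, h7]
        linarith only [h3, h4, h7, h8]
      calc (1 + ‖ρ + (σ + y * I)‖) ^ n ≤ ((2 + B) * ‖ρ‖ * (1 + |y|)) ^ n :=
            Real.rpow_le_rpow (by positivity) h2 hn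
        _ = (2 + B) ^ n * ‖ρ‖ ^ n * (1 + |y|) ^ n := by
            rw [Real.mul_rpow (by positivity) (by positivity),
              Real.mul_rpow (by positivity) (by positivity)]
        _ ≤ (2 + B) ^ n * ‖ρ‖ ^ n * (1 + |y|) ^ ⌈n⌉₊ := by
            apply mul_le_mul_of_nonneg_left _ (by positivity)
            rw [← Real.rpow_natCast]
            exact Real.rpow_le_rpow_of_exponent_le (by have := abs_nonneg y; linarith only [this])
              (Nat.le_ceil _)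
    have h9 : (1 : ℝ) ≤ (1 + h * |y|) ^ 30 := by
      apply one_le_pow₀
      have : 0 ≤ h * |y| := by positivity
      linarith only [this]
    calc ‖Zt (ρ + (σ + y * I))‖ / ‖ρ - 1‖ *
          (Real.exp (σ * r) * ‖kn h (σ + y * I) / (σ + y * I)‖)
        ≤ C * ((2 + B) ^ n * ‖ρ‖ ^ n * (1 + |y|) ^ ⌈n⌉₊) *
          (Real.exp (σ * r) * ‖kn h (σ + y * I) / (σ + y * I)‖) :=
          mul_le_mul_of_nonneg_right h1 (by positivity)
      _ = C * (2 + B) ^ n * ‖ρ‖ ^ n * Real.exp (σ * r) *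
          (1 * (1 + |y|) ^ ⌈n⌉₊ * ‖kn h (σ + y * I) / (σ + y * I)‖) := by ring
      _ ≤ _ := by
          apply mul_le_mul_of_nonneg_left _ (by positivity)
          apply mul_le_mul_of_nonneg_right _ (norm_nonneg _)
          exact mul_le_mul_of_nonneg_right h9 (by positivity)
  have hint : ‖∫ y : ℝ, azI h r ρ (σ + y * I)‖ ≤ C * (2 + B) ^ n * ‖ρ‖ ^ n * Real.exp (σ * r) *
      (D * Real.exp (32 * h * |σ| + σ ^ 2) * (1 + 1 / (h * |σ|))) := by
    calc _ ≤ ∫ y : ℝ, C * (2 + B) ^ n * ‖ρ‖ ^ n * Real.exp (σ * r) *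
          ((1 + h * |y|) ^ 30 * (1 + |y|) ^ ⌈n⌉₊ * ‖kn h (σ + y * I) / (σ + y * I)‖) :=
          norm_integral_le_of_norm_le (hk1.const_mul _) (Filter.Eventually.of_forall hpt)
      _ = C * (2 + B) ^ n * ‖ρ‖ ^ n * Real.exp (σ * r) * ∫ y : ℝ,
          (1 + h * |y|) ^ 30 * (1 + |y|) ^ ⌈n⌉₊ * ‖kn h (σ + y * I) / (σ + y * I)‖ := by
          rw [integral_const_mul]
      _ ≤ _ := mul_le_mul_of_nonneg_left hk2 (by positivity)
  have h1 : (1 : ℝ) + 1 / (h * |σ|) ≤ 2 := by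
    rw [hσ]
    have : 1 / (h * B) ≤ 1 := by
      rw [div_le_one (by positivity)]
      nlinarith only [hB, hh]
    linarith only [this]
  have h2 : σ ^ 2 = B ^ 2 := by rw [← sq_abs, hσ]
  rw [norm_mul]
  calc _ ≤ 1 * ‖∫ y : ℝ, azI h r ρ (σ + y * I)‖ :=
        mul_le_mul_of_nonneg_right Az_two_pi (norm_nonneg _)
    _ ≤ C * (2 + B) ^ n * ‖ρ‖ ^ n * Real.exp (σ * r) *
      (D * Real.exp (32 * h * |σ| + σ ^ 2) * (1 + 1 / (h * |σ|))) := by rw [one_mul]; exact hint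
    _ ≤ C * (2 + B) ^ n * ‖ρ‖ ^ n * Real.exp (σ * r) *
      (D * Real.exp (32 * h * |σ| + σ ^ 2) * 2) := by
        apply mul_le_mul_of_nonneg_left _ (by positivity)
        exact mul_le_mul_of_nonneg_left h1 (by positivity)
    _ = _ := by
        rw [hσ, h2, Real.exp_add, Real.exp_add]
        ring

/-- decay for `r → -∞` (line `Re z = B`; `kn_int`, `Zt_growth`). -/
theorem az_right (B : ℝ) (hB : 1 ≤ B) : ∃ C : ℝ, 0 < C ∧ ∀ h r : ℝ, 1 ≤ h → ∀ ρ : ℂ,
    riemannZeta ρ = 0 → 1 / 2 ≤ ρ.re → ρ.re < 1 → 1 ≤ |ρ.im| →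
    ‖az h r ρ‖ ≤ C * ‖ρ‖ ^ 4 * Real.exp (B * r + 32 * h * B) := by
  obtain ⟨C, hC, HC⟩ := Zt_growth 1 le_rfl
  obtain ⟨D, hD, HD⟩ := kn_int ⌈(4 : ℝ)⌉₊
  refine ⟨C * (2 + B) ^ (4 : ℝ) * (D * Real.exp (B ^ 2) * 2), by positivity,
    fun h r hh ρ hρ h1 h2 h3 => ?_⟩
  have hB0 : B ≠ 0 := by linarith only [hB, h1, h2]
  have hh0 : 0 < h := by linarith only [hh, h1, h2]
  obtain ⟨k1, k2⟩ := HD h B hh0 hB0
  rw [az_line h r hh0 ρ hρ h1 h2 B hB0]
  have := Az_norm_bound B B 4 hB (by norm_num) (abs_of_pos (by linarith only [hB, h1, h2])) ρ h3 C hC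
    (fun y => by
      have h4 := HC (ρ + (B + y * I)) (by
        rw [Complex.add_re, Az_re]
        linarith only [hB, h1, h2])
      rw [show (1 : ℝ) + 3 = 4 by norm_num] at h4
      exact h4) D hD h r hh k1 k2
  rw [← Real.rpow_natCast ‖ρ‖ 4]
  exact this

/-- decay for `r → +∞` (line `Re z = -B`; `Zt_growth B`: `‖Zt (ρ+z)‖ ≤ C (1+‖ρ‖+‖z‖)^{B+3}`). -/
theorem az_left (B : ℝ) (hB : 1 ≤ B) : ∃ C : ℝ, 0 < C ∧ ∀ h r : ℝ, 1 ≤ h → ∀ ρ : ℂ,
    riemannZeta ρ = 0 → 1 / 2 ≤ ρ.re → ρ.re < 1 → 1 ≤ |ρ.im| →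
    ‖az h r ρ‖ ≤ C * ‖ρ‖ ^ (B + 3) * Real.exp (-B * r + 32 * h * B) := by
  obtain ⟨C, hC, HC⟩ := Zt_growth B hB
  obtain ⟨D, hD, HD⟩ := kn_int ⌈B + 3⌉₊
  refine ⟨C * (2 + B) ^ (B + 3) * (D * Real.exp (B ^ 2) * 2), by positivity,
    fun h r hh ρ hρ h1 h2 h3 => ?_⟩
  have hB0 : -B ≠ 0 := by
    intro h
    linarith only [hB, h1, h2, h]
  have hh0 : 0 < h := by linarith only [hh, h1, h2]
  obtain ⟨k1, k2⟩ := HD h (-B) hh0 hB0
  rw [az_line h r hh0 ρ hρ h1 h2 (-B) hB0]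
  exact Az_norm_bound B (-B) (B + 3) hB (by linarith only [hB, h1, h2])
    (by rw [abs_neg, abs_of_pos (by linarith only [hB, h1, h2])]) ρ h3 C hC
    (fun y => HC (ρ + ((-B : ℝ) + y * I)) (by
        rw [Complex.add_re, Az_re]
        linarith only [h1, h2])) D hD h r hh k1 k2

/-- `az` as a smoothed Dirichlet series (`tsum_vc`, `tsum_vd` with `σ = 1`;
`Zt (ρ+z)/(ρ-1) = ζ(ρ+z)(1 + z/(ρ-1))`). -/
theorem az_series (h r : ℝ) (hh : 0 < h) (ρ : ℂ) (hρ0 : 1 / 2 ≤ ρ.re) (hρ1 : ρ.re < 1) :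
    az h r ρ = ∑' l : ℕ, ((l + 1 : ℕ) : ℂ) ^ (-ρ) *
      (vc h (r - Real.log (l + 1 : ℕ)) + vd h (r - Real.log (l + 1 : ℕ)) / (ρ - 1)) := by
  have hne : ρ - 1 ≠ 0 := by
    intro h0
    have := congrArg Complex.re h0
    rw [Complex.sub_re, Complex.one_re, Complex.zero_re] at this
    linarith only [hρ1, this]
  have e1 : ∀ l : ℕ, ((l + 1 : ℕ) : ℂ) ^ (-ρ) *
      (vc h (r - Real.log (l + 1 : ℕ)) + vd h (r - Real.log (l + 1 : ℕ)) / (ρ - 1)) =
      ((l + 1 : ℕ) : ℂ) ^ (-ρ) * vc h (r - Real.log (l + 1 : ℕ)) +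
      ((l + 1 : ℕ) : ℂ) ^ (-ρ) * vd h (r - Real.log (l + 1 : ℕ)) * (ρ - 1)⁻¹ := by
    intro l
    rw [div_eq_mul_inv]
    ring
  simp only [e1]
  rw [(summable_vc h r hh ρ).of_norm.tsum_add ((summable_vd h r hh ρ).of_norm.mul_right _),
    tsum_mul_right, tsum_vc h r hh ρ 1 one_pos (by linarith only [hρ0, hρ1]),
    tsum_vd h r hh ρ 1 (by linarith only [hρ0, hρ1])]
  unfold az
  rw [mul_assoc, ← mul_add]
  congr 1
  -- the pointwise identity
  have hz1 : ∀ y : ℝ, ρ + (1 + y * I) ≠ 1 := by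
    intro y h0
    have := congrArg Complex.re h0
    simp at this
    linarith only [hρ0, hρ1, this]
  have hzn : ∀ y : ℝ, 1 / 2 ≤ ‖ρ + (1 + y * I) - 1‖ := by
    intro y
    refine le_trans ?_ ((le_abs_self _).trans (Complex.abs_re_le_norm _))
    simp
    linarith only [hρ0]
  have hζ : ∀ y : ℝ, riemannZeta (ρ + (1 + y * I)) =
      Zt (ρ + (1 + y * I)) / (ρ + (1 + y * I) - 1) := by
    intro y
    rw [Zt_eq _ (hz1 y), mul_div_cancel_left₀ _ (sub_ne_zero.2 (hz1 y))]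
  -- continuity of `ζ` on the line
  have hc1 : Continuous fun y : ℝ => (1 : ℂ) + y * I := by fun_prop
  have hcζ : Continuous fun y : ℝ => riemannZeta (ρ + (1 + y * I)) := by
    simp only [hζ]
    apply Continuous.div
    · exact differentiable_Zt.continuous.comp (continuous_const.add hc1)
    · exact (continuous_const.add hc1).sub continuous_const
    · intro y
      exact sub_ne_zero.2 (hz1 y)
  have hck : Continuous fun y : ℝ => kn h (1 + y * I) := (differentiable_kn h).continuous.comp hc1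
  have hy0 : ∀ y : ℝ, (1 : ℂ) + y * I ≠ 0 := by
    intro y
    simpa using Az_ne 1 y one_ne_zero
  -- bounds
  have hI1 : Integrable fun y : ℝ => riemannZeta (ρ + (1 + y * I)) *
      (Complex.exp ((1 + y * I) * r) * (kn h (1 + y * I) / (1 + y * I))) := by
    have h1 := Az_integrable (σ := 1) one_ne_zero (F := fun z : ℂ => Zt (ρ + z))
      (differentiable_Zt.continuous.comp (continuous_const.add continuous_id)) (by
        have h2 := Az_PG_mul (Az_PG_Zt |(1 : ℝ)| ρ)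
          (⟨‖ρ - 1‖, 0, norm_nonneg _, fun z _ => by simp⟩ : Az_PG |(1 : ℝ)| (fun _ => ρ - 1))
        simpa only [div_mul_cancel₀ _ hne] using h2) h r hh
    simp only [Complex.ofReal_one] at h1
    refine (h1.norm.const_mul 2).mono' ?_ ?_
    · apply Continuous.aestronglyMeasurable
      apply hcζ.mul
      apply Continuous.mul (by fun_prop)
      exact hck.div hc1 hy0
    · refine Filter.Eventually.of_forall fun y => ?_
      rw [hζ y, div_mul_eq_mul_div, norm_div,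
        div_le_iff₀ (lt_of_lt_of_le (by norm_num) (hzn y))]
      have h2 := hzn y
      have h3 : 0 ≤ ‖Zt (ρ + (1 + y * I)) *
          (Complex.exp ((1 + y * I) * r) * (kn h (1 + y * I) / (1 + y * I)))‖ := norm_nonneg _
      nlinarith only [hρ0, hρ1, h2, h3]
  have hI2 : Integrable fun y : ℝ => riemannZeta (ρ + (1 + y * I)) *
      (Complex.exp ((1 + y * I) * r) * kn h (1 + y * I)) := by
    have h1 := Az_integrable (σ := 1) one_ne_zero (F := fun z : ℂ => Zt (ρ + z) * z)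
      ((differentiable_Zt.continuous.comp (continuous_const.add continuous_id)).mul
        continuous_id) (by
        have h2 := Az_PG_mul (Az_PG_mul (Az_PG_Zt |(1 : ℝ)| ρ)
          (⟨‖ρ - 1‖, 0, norm_nonneg _, fun z _ => by simp⟩ : Az_PG |(1 : ℝ)| (fun _ => ρ - 1)))
          (Az_PG_id _)
        simpa only [div_mul_cancel₀ _ hne] using h2) h r hh
    simp only [Complex.ofReal_one] at h1
    refine (h1.norm.const_mul 2).mono' ?_ ?_
    · apply Continuous.aestronglyMeasurable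
      apply hcζ.mul
      exact Continuous.mul (by fun_prop) hck
    · refine Filter.Eventually.of_forall fun y => ?_
      have h4 : Zt (ρ + (1 + y * I)) * (1 + y * I) *
          (Complex.exp ((1 + y * I) * r) * (kn h (1 + y * I) / (1 + y * I))) =
          Zt (ρ + (1 + y * I)) * (Complex.exp ((1 + y * I) * r) * kn h (1 + y * I)) := by
        have := hy0 y
        field_simp
      rw [h4, hζ y, div_mul_eq_mul_div, norm_div,
        div_le_iff₀ (lt_of_lt_of_le (by norm_num) (hzn y))]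
      have h2 := hzn y
      have h3 : 0 ≤ ‖Zt (ρ + (1 + y * I)) *
          (Complex.exp ((1 + y * I) * r) * kn h (1 + y * I))‖ := norm_nonneg _
      nlinarith only [hρ0, hρ1, h2, h3]
  simp only [Complex.ofReal_one]
  rw [← integral_mul_const, ← integral_add hI1 (hI2.mul_const _)]
  congr 1
  ext y
  unfold azI
  rw [Zt_eq _ (hz1 y)]
  have := hy0 y
  field_simp
  ring

theorem az_deriv (h : ℝ) (hh : 0 < h) (ρ : ℂ) (r : ℝ) :
    HasDerivAt (fun r : ℝ => az h r ρ)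
      ((1 / (2 * Real.pi) : ℝ) * ∫ y : ℝ, azI h r ρ (1 + y * I) * (1 + y * I)) r := by
  have h1 := Az_hasDeriv (σ := 1) one_ne_zero (Az_diff ρ).continuous (Az_PG_Zt _ ρ) h hh r
  simp only [Complex.ofReal_one] at h1
  exact h1.const_mul _

/-- The truncated mollified sum `A(u) = ∑_m λ_m m^{-s} az h (ν - u - log m) ρ`. -/
noncomputable def Am (z₀ h ν : ℝ) (s ρ : ℂ) (u : ℝ) : ℂ :=
  ∑ m ∈ Finset.Icc 1 ⌊z₀ ^ 2⌋₊, (lam z₀ m : ℂ) * (m : ℂ) ^ (-s) * az h (ν - u - Real.log m) ρ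

/-- `A(u) = (1/2π) ∫ Mo (s+z) azI h (ν-u) ρ z dy` on every line `Re z = σ ≠ 0`. -/
theorem Am_line (z₀ h ν : ℝ) (hh : 0 < h) (s ρ : ℂ) (hρ : riemannZeta ρ = 0) (hρ0 : 1 / 2 ≤ ρ.re)
    (hρ1 : ρ.re < 1) (u σ : ℝ) (hσ : σ ≠ 0) :
    Am z₀ h ν s ρ u = (1 / (2 * Real.pi) : ℝ) *
      ∫ y : ℝ, Mo z₀ (s + (σ + y * I)) * azI h (ν - u) ρ (σ + y * I) := by
  have e1 : ∀ y : ℝ, Mo z₀ (s + (σ + y * I)) * azI h (ν - u) ρ (σ + y * I) =
      ∑ m ∈ Finset.Icc 1 ⌊z₀ ^ 2⌋₊, (lam z₀ m : ℂ) * (m : ℂ) ^ (-s) *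
        azI h (ν - u - Real.log m) ρ (σ + y * I) := by
    intro y
    unfold Mo
    rw [Finset.sum_mul]
    refine Finset.sum_congr rfl fun m hm => ?_
    have hm1 : 1 ≤ m := (Finset.mem_Icc.1 hm).1
    have hm0 : (m : ℂ) ≠ 0 := by exact_mod_cast (by omega : m ≠ 0)
    have hmr : (0 : ℝ) ≤ m := by positivity
    unfold azI
    have h2 : Complex.exp ((σ + y * I) * ((ν - u - Real.log m : ℝ) : ℂ)) =
        Complex.exp ((σ + y * I) * ((ν - u : ℝ) : ℂ)) * (m : ℂ) ^ (-((σ : ℂ) + y * I)) := by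
      rw [Complex.cpow_def_of_ne_zero hm0, ← Complex.exp_add]
      congr 1
      push_cast [Complex.ofReal_log hmr]
      ring
    rw [h2, neg_add, Complex.cpow_add _ _ hm0]
    ring
  simp only [e1]
  unfold Am
  rw [integral_finsetSum]
  · rw [Finset.mul_sum]
    refine Finset.sum_congr rfl fun m _ => ?_
    rw [integral_const_mul, az_line h _ hh ρ hρ hρ0 hρ1 σ hσ]
    ring
  · intro m _
    exact (Az_integrable hσ (Az_diff ρ).continuous (Az_PG_Zt _ ρ) h _ hh).const_mul _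

private theorem Az_Mo_cont (z₀ : ℝ) (s : ℂ) : Continuous (fun z => Mo z₀ (s + z)) := by
  unfold Mo
  refine continuous_finsetSum _ fun m hm => ?_
  have hm1 : 1 ≤ m := (Finset.mem_Icc.1 hm).1
  have hm0 : (m : ℂ) ≠ 0 := by exact_mod_cast (by omega : m ≠ 0)
  apply continuous_const.mul
  exact Continuous.const_cpow (by fun_prop) (Or.inl hm0)

/-- its derivative in `u`. -/
theorem Am_deriv (z₀ h ν : ℝ) (hh : 0 < h) (s ρ : ℂ) (hρ : riemannZeta ρ = 0) (hρ0 : 1 / 2 ≤ ρ.re)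
    (hρ1 : ρ.re < 1) (u σ : ℝ) (hσ : σ ≠ 0) :
    HasDerivAt (Am z₀ h ν s ρ) (-((1 / (2 * Real.pi) : ℝ) *
      ∫ y : ℝ, Mo z₀ (s + (σ + y * I)) * azI h (ν - u) ρ (σ + y * I) * (σ + y * I))) u := by
  have e0 : Am z₀ h ν s ρ = fun u => (1 / (2 * Real.pi) : ℝ) *
      ∫ y : ℝ, Mo z₀ (s + (σ + y * I)) * azI h (ν - u) ρ (σ + y * I) := by
    ext u
    exact Am_line z₀ h ν hh s ρ hρ hρ0 hρ1 u σ hσ
  have h1 := Az_hasDeriv hσ (F := fun z => Mo z₀ (s + z) * (Zt (ρ + z) / (ρ - 1)))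
    ((Az_Mo_cont z₀ s).mul (Az_diff ρ).continuous) (Az_PG_mul (Az_PG_Mo _ z₀ s) (Az_PG_Zt _ ρ))
    h hh (ν - u)
  have h2 : HasDerivAt (fun u : ℝ => ν - u) (-1) u := by
    simpa using (hasDerivAt_id u).const_sub ν
  have h3 := (HasDerivAt.scomp u h1 h2).const_mul (((1 / (2 * Real.pi) : ℝ)) : ℂ)
  rw [e0]
  have e1 : (fun u : ℝ => (((1 / (2 * Real.pi) : ℝ)) : ℂ) *
      ∫ y : ℝ, Mo z₀ (s + (σ + y * I)) * azI h (ν - u) ρ (σ + y * I)) =
      fun u : ℝ => (((1 / (2 * Real.pi) : ℝ)) : ℂ) *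
        ((fun r : ℝ => ∫ y : ℝ, Mo z₀ (s + (σ + y * I)) * (Zt (ρ + (σ + y * I)) / (ρ - 1)) *
        (Complex.exp ((σ + y * I) * r) * (kn h (σ + y * I) / (σ + y * I)))) ∘
        (fun u : ℝ => ν - u)) u := by
    ext u
    simp only [Function.comp, azI]
    congr 2
    ext y
    ring
  rw [e1]
  refine h3.congr_deriv ?_
  rw [neg_smul, one_smul, mul_neg]
  congr 3
  ext y
  unfold azI
  ring

/-- the derivative is continuous (dominated convergence in the formula of `az_deriv`). -/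
theorem continuous_deriv_Am (z₀ h ν : ℝ) (hh : 0 < h) (s ρ : ℂ) :
    Continuous (deriv (Am z₀ h ν s ρ)) := by
  -- the derivative of `az`
  have hc : Continuous fun r : ℝ =>
      (((1 / (2 * Real.pi) : ℝ)) : ℂ) * ∫ y : ℝ, azI h r ρ (1 + y * I) * (1 + y * I) := by
    apply continuous_const.mul
    have h1 : ∀ r : ℝ, ContinuousAt (fun r : ℝ => ∫ y : ℝ, azI h r ρ (1 + y * I) *
        (1 + y * I)) r := by
      intro r
      have h2 := (Az_hasDeriv (σ := 1) one_ne_zero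
        (F := fun z => Zt (ρ + z) / (ρ - 1) * z)
        ((Az_diff ρ).continuous.mul continuous_id) (Az_PG_mul (Az_PG_Zt _ ρ) (Az_PG_id _))
        h hh r).continuousAt
      simp only [Complex.ofReal_one] at h2
      have e : (fun r : ℝ => ∫ y : ℝ, azI h r ρ (1 + y * I) * (1 + y * I)) =
          fun r : ℝ => ∫ y : ℝ, Zt (ρ + (1 + y * I)) / (ρ - 1) * (1 + y * I) *
            (Complex.exp ((1 + y * I) * r) * (kn h (1 + y * I) / (1 + y * I))) := by
        ext r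
        congr 1
        ext y
        unfold azI
        ring
      rw [e]
      exact h2
    exact continuous_iff_continuousAt.2 h1
  have hd : ∀ u : ℝ, HasDerivAt (Am z₀ h ν s ρ)
      (∑ m ∈ Finset.Icc 1 ⌊z₀ ^ 2⌋₊, (lam z₀ m : ℂ) * (m : ℂ) ^ (-s) *
        (-((((1 / (2 * Real.pi) : ℝ)) : ℂ) *
          ∫ y : ℝ, azI h (ν - u - Real.log m) ρ (1 + y * I) * (1 + y * I)))) u := by
    intro u
    unfold Am
    apply HasDerivAt.fun_sum
    intro m _
    apply HasDerivAt.const_mul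
    have h2 : HasDerivAt (fun u : ℝ => ν - u - Real.log m) (-1) u := by
      simpa using ((hasDerivAt_id u).const_sub ν).sub_const (Real.log m)
    have h3 := HasDerivAt.scomp u (az_deriv h hh ρ (ν - u - Real.log m)) h2
    rw [neg_smul, one_smul] at h3
    exact h3
  have e : deriv (Am z₀ h ν s ρ) = fun u =>
      (∑ m ∈ Finset.Icc 1 ⌊z₀ ^ 2⌋₊, (lam z₀ m : ℂ) * (m : ℂ) ^ (-s) *
        (-((((1 / (2 * Real.pi) : ℝ)) : ℂ) *
          ∫ y : ℝ, azI h (ν - u - Real.log m) ρ (1 + y * I) * (1 + y * I)))) := by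
    ext u
    exact (hd u).deriv
  rw [e]
  refine continuous_finsetSum _ fun m _ => ?_
  apply continuous_const.mul
  apply Continuous.neg
  exact hc.comp (by fun_prop)

end Pool.Agent.H14.CO

end

section

/-!
# CO module EnBound: square sums of the truncated mollified sums
-/

set_option autoImplicit false

namespace Pool.Agent.H14.CO

open Set MeasureTheory Complex

theorem EnBound_sum (n : ℕ) (w : ℕ → ℝ) (hw : ∀ i < n, 0 ≤ w i) (f : ℕ → ℝ → ℝ)
    (hf0 : ∀ i y, 0 ≤ f i y) (hfm : ∀ i, Measurable (f i)) (a : ℕ → ℂ) (k g : ℝ → ℝ)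
    (hk0 : ∀ y, 0 ≤ k y) (hk : Integrable k) (D c : ℝ) (hc : 0 ≤ c)
    (hg : Integrable (fun y => k y * g y))
    (hS : ∀ y, ∑ i ∈ Finset.range n, w i * f i y ^ 2 ≤ D * g y)
    (ha : ∀ i < n, 0 < w i → Integrable (fun y => k y * f i y) →
      ‖a i‖ ≤ c * ∫ y, k y * f i y) :
    ∑ i ∈ Finset.range n, w i * ‖a i‖ ^ 2 ≤ c ^ 2 * (∫ y, k y) * (D * ∫ y, k y * g y) := by
  have hI0 : 0 ≤ ∫ y, k y := integral_nonneg hk0
  have hone : ∀ i < n, ∀ y, w i * f i y ^ 2 ≤ D * g y := by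
    intro i hi y
    refine le_trans ?_ (hS y)
    exact Finset.single_le_sum (f := fun i => w i * f i y ^ 2)
      (fun j hj => mul_nonneg (hw j (Finset.mem_range.1 hj)) (sq_nonneg _)) (Finset.mem_range.2 hi)
  have hi2 : ∀ i < n, Integrable (fun y => k y * (w i * f i y ^ 2)) := by
    intro i hi
    refine (hg.const_mul D).mono' ?_ ?_
    · exact hk.aestronglyMeasurable.mul
        (((hfm i).pow_const 2).const_mul (w i)).aestronglyMeasurable
    · refine Filter.Eventually.of_forall fun y => ?_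
      rw [Real.norm_eq_abs, abs_of_nonneg (mul_nonneg (hk0 y)
        (mul_nonneg (hw i hi) (sq_nonneg _)))]
      calc k y * (w i * f i y ^ 2) ≤ k y * (D * g y) :=
            mul_le_mul_of_nonneg_left (hone i hi y) (hk0 y)
        _ = D * (k y * g y) := by ring
  have hterm : ∀ i ∈ Finset.range n, w i * ‖a i‖ ^ 2 ≤
      c ^ 2 * (∫ y, k y) * ∫ y, k y * (w i * f i y ^ 2) := by
    intro i hi
    rw [Finset.mem_range] at hi
    rcases (hw i hi).eq_or_lt with h0 | h0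
    · rw [← h0]; simp
    have e1 : Integrable (fun y => k y * f i y ^ 2) := by
      have := (hi2 i hi).const_mul (w i)⁻¹
      refine this.congr (Filter.Eventually.of_forall fun y => ?_)
      field_simp
    have e2 : Integrable (fun y => k y * f i y) := by
      refine (hk.add e1).mono' (hk.aestronglyMeasurable.mul (hfm i).aestronglyMeasurable) ?_
      refine Filter.Eventually.of_forall fun y => ?_
      rw [Real.norm_eq_abs, abs_of_nonneg (mul_nonneg (hk0 y) (hf0 i y)), Pi.add_apply]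
      have : f i y ≤ 1 + f i y ^ 2 := by nlinarith only [sq_nonneg (f i y - 1)]
      calc k y * f i y ≤ k y * (1 + f i y ^ 2) := mul_le_mul_of_nonneg_left this (hk0 y)
        _ = _ := by ring
    have e3 := ha i hi h0 e2
    have e4 := cs_int k (f i) hk hk0 (hf0 i) (hfm i).aestronglyMeasurable e1
    have e5 : 0 ≤ ∫ y, k y * f i y := integral_nonneg fun y => mul_nonneg (hk0 y) (hf0 i y)
    have e6 : ∫ y, k y * (w i * f i y ^ 2) = w i * ∫ y, k y * f i y ^ 2 := by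
      rw [← integral_const_mul]
      congr 1
      funext y
      ring
    rw [e6]
    calc w i * ‖a i‖ ^ 2 ≤ w i * (c * ∫ y, k y * f i y) ^ 2 :=
          mul_le_mul_of_nonneg_left (pow_le_pow_left₀ (norm_nonneg _) e3 2) h0.le
      _ = (w i * c ^ 2) * (∫ y, k y * f i y) ^ 2 := by ring
      _ ≤ (w i * c ^ 2) * ((∫ y, k y) * ∫ y, k y * f i y ^ 2) :=
          mul_le_mul_of_nonneg_left e4 (by positivity)
      _ = _ := by ring
  calc ∑ i ∈ Finset.range n, w i * ‖a i‖ ^ 2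
      ≤ ∑ i ∈ Finset.range n, c ^ 2 * (∫ y, k y) * ∫ y, k y * (w i * f i y ^ 2) :=
        Finset.sum_le_sum hterm
    _ = c ^ 2 * (∫ y, k y) * ∫ y, ∑ i ∈ Finset.range n, k y * (w i * f i y ^ 2) := by
        rw [← Finset.mul_sum, integral_finsetSum]
        intro i hi
        exact hi2 i (Finset.mem_range.1 hi)
    _ ≤ c ^ 2 * (∫ y, k y) * (D * ∫ y, k y * g y) := by
        refine mul_le_mul_of_nonneg_left ?_ (by positivity)
        rw [← integral_const_mul]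
        refine integral_mono (integrable_finsetSum _ fun i hi => hi2 i (Finset.mem_range.1 hi))
          (hg.const_mul D) fun y => ?_
        simp only
        rw [← Finset.mul_sum]
        calc k y * ∑ i ∈ Finset.range n, w i * f i y ^ 2 ≤ k y * (D * g y) :=
              mul_le_mul_of_nonneg_left (hS y) (hk0 y)
          _ = D * (k y * g y) := by ring

theorem EnBound_core (p q : ℕ) (hq : q = p + 1) (P : ℝ) (hP : P = 2 ^ (q + 1)) (κ L h σ C₀ T : ℝ) (hκ0 : 0 < κ) (hκ1 : κ ≤ 1) (hC₀ : 0 < C₀) (hT : 0 ≤ T)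
    (hL : 3200 ≤ L) (hh : h = κ * L / 256) (hσ : σ = 2 / L)
    (n : ℕ) (w : ℕ → ℝ) (hw : ∀ i < n, 0 ≤ w i) (f : ℕ → ℝ → ℝ)
    (hf0 : ∀ i y, 0 ≤ f i y) (hfm : ∀ i, Measurable (f i)) (a : ℕ → ℂ) (K : ℝ → ℝ)
    (hK0 : ∀ y, 0 ≤ K y) (hKm : Measurable K)
    (hKi : Integrable (fun y : ℝ => (1 + h * |y|) ^ 30 * (1 + |y|) ^ q * K y))
    (hS : ∀ y : ℝ, ∑ i ∈ Finset.range n, w i * f i y ^ 2 ≤
      C₀ * T * L ^ 2 * (1 + L * ‖(σ : ℂ) + y * I‖) ^ 4 * (1 + ‖(σ : ℂ) + y * I‖) ^ p)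
    (ha : ∀ i < n, 0 < w i → Integrable (fun y : ℝ => ((1 + ‖(σ : ℂ) + y * I‖) * K y) * f i y) →
      ‖a i‖ ≤ Real.exp 6 * ∫ y : ℝ, ((1 + ‖(σ : ℂ) + y * I‖) * K y) * f i y) :
    ∑ i ∈ Finset.range n, w i * ‖a i‖ ^ 2 ≤
      Real.exp 12 * P * (256 / κ) ^ 4 * C₀ * T * L ^ 2 *
        (∫ y : ℝ, (1 + h * |y|) ^ 30 * (1 + |y|) ^ q * K y) ^ 2 := by
  have hL0 : 0 < L := by linarith only [hL]
  have hh0 : 0 < h := by rw [hh]; positivity
  have hσ0 : 0 < σ := by rw [hσ]; positivity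
  have hσ1 : σ ≤ 1 := by rw [hσ, div_le_one hL0]; linarith only [hL]
  have hLσ : L * σ = 2 := by rw [hσ]; field_simp
  have hLh : L = 256 / κ * h := by rw [hh]; field_simp
  have hκi : 3 ≤ 256 / κ := by rw [le_div_iff₀ hκ0]; linarith only [hκ1]
  set J := ∫ y : ℝ, (1 + h * |y|) ^ 30 * (1 + |y|) ^ q * K y with hJ
  have hnc : Continuous fun y : ℝ => ‖(σ : ℂ) + y * I‖ := by fun_prop
  have hz1 : ∀ y : ℝ, ‖(σ : ℂ) + y * I‖ ≤ σ + |y| := by
    intro y
    refine (norm_add_le _ _).trans ?_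
    rw [norm_mul, Complex.norm_I, mul_one, Complex.norm_real, Complex.norm_real,
      Real.norm_eq_abs, Real.norm_eq_abs, abs_of_pos hσ0]
  have hz2 : ∀ y : ℝ, 1 + ‖(σ : ℂ) + y * I‖ ≤ 2 * (1 + |y|) := by
    intro y
    have := hz1 y
    have := abs_nonneg y
    linarith
  have hz3 : ∀ y : ℝ, 1 + L * ‖(σ : ℂ) + y * I‖ ≤ 256 / κ * (1 + h * |y|) := by
    intro y
    have h1 : L * ‖(σ : ℂ) + y * I‖ ≤ L * (σ + |y|) := mul_le_mul_of_nonneg_left (hz1 y) hL0.le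
    have h2 : L * |y| = 256 / κ * (h * |y|) := by
      calc L * |y| = (256 / κ * h) * |y| := by rw [← hLh]
        _ = _ := by ring
    calc 1 + L * ‖(σ : ℂ) + y * I‖ ≤ 1 + (L * σ + L * |y|) := by linarith only [h1]
      _ = 3 + 256 / κ * (h * |y|) := by rw [hLσ, h2]; ring
      _ ≤ 256 / κ * (1 + h * |y|) := by linarith only [hκi]
  have hn0 : ∀ y : ℝ, 0 ≤ ‖(σ : ℂ) + y * I‖ := fun y => norm_nonneg _
  have hha : ∀ y : ℝ, 0 ≤ h * |y| := fun y => mul_nonneg hh0.le (abs_nonneg y)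
  set k : ℝ → ℝ := fun y => (1 + ‖(σ : ℂ) + y * I‖) * K y with hk
  set g : ℝ → ℝ := fun y => (1 + L * ‖(σ : ℂ) + y * I‖) ^ 4 * (1 + ‖(σ : ℂ) + y * I‖) ^ p with hg
  have hk0 : ∀ y, 0 ≤ k y := fun y => mul_nonneg (by have := hn0 y; linarith only [this]) (hK0 y)
  have hkm : Measurable k := ((continuous_const.add hnc).measurable).mul hKm
  have hgm : Measurable g := by
    have : Continuous g := by fun_prop
    exact this.measurable
  have hW1 : ∀ y : ℝ, 1 ≤ (1 + h * |y|) ^ 30 := fun y => one_le_pow₀ (by have := hha y; linarith only [this])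
  have hkle : ∀ y, k y ≤ 2 * ((1 + h * |y|) ^ 30 * (1 + |y|) ^ q * K y) := by
    intro y
    have h1 : (1 + |y|) ≤ (1 + |y|) ^ q :=
      le_self_pow₀ (by have := abs_nonneg y; linarith only [this]) (by omega)
    calc k y ≤ 2 * (1 + |y|) * K y := mul_le_mul_of_nonneg_right (hz2 y) (hK0 y)
      _ ≤ 2 * (1 * (1 + |y|) ^ q) * K y := by
          refine mul_le_mul_of_nonneg_right ?_ (hK0 y)
          rw [one_mul]; linarith only [h1]
      _ ≤ 2 * ((1 + h * |y|) ^ 30 * (1 + |y|) ^ q) * K y := by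
          refine mul_le_mul_of_nonneg_right ?_ (hK0 y)
          refine mul_le_mul_of_nonneg_left ?_ (by norm_num)
          exact mul_le_mul_of_nonneg_right (hW1 y) (by positivity)
      _ = _ := by ring
  have hkgle : ∀ y, k y * g y ≤ 2 ^ q * (256 / κ) ^ 4 *
      ((1 + h * |y|) ^ 30 * (1 + |y|) ^ q * K y) := by
    intro y
    have h1 : (1 + ‖(σ : ℂ) + y * I‖) ^ q ≤ (2 * (1 + |y|)) ^ q :=
      pow_le_pow_left₀ (by have := hn0 y; linarith only [this]) (hz2 y) q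
    have h2 : (1 + L * ‖(σ : ℂ) + y * I‖) ^ 4 ≤ (256 / κ * (1 + h * |y|)) ^ 4 :=
      pow_le_pow_left₀ (by have := mul_nonneg hL0.le (hn0 y); linarith only [this]) (hz3 y) 4
    have h3 : (1 + h * |y|) ^ 4 ≤ (1 + h * |y|) ^ 30 :=
      pow_le_pow_right₀ (by have := hha y; linarith only [this]) (by norm_num)
    have h4 : (1 + L * ‖(σ : ℂ) + y * I‖) ^ 4 ≤ (256 / κ) ^ 4 * (1 + h * |y|) ^ 30 := by
      rw [mul_pow] at h2
      exact h2.trans (mul_le_mul_of_nonneg_left h3 (by positivity))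
    calc k y * g y = ((1 + L * ‖(σ : ℂ) + y * I‖) ^ 4 * (1 + ‖(σ : ℂ) + y * I‖) ^ q) * K y := by
          simp only [hk, hg]; rw [hq, pow_succ _ p]; ring
      _ ≤ (((256 / κ) ^ 4 * (1 + h * |y|) ^ 30) * (2 * (1 + |y|)) ^ q) * K y := by
          refine mul_le_mul_of_nonneg_right ?_ (hK0 y)
          exact mul_le_mul h4 h1 (pow_nonneg (by have := hn0 y; linarith only [this]) _)
            (mul_nonneg (by positivity) (pow_nonneg (by have := hha y; linarith only [this]) _))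
      _ = _ := by rw [mul_pow]; ring
  have hki : Integrable k := by
    refine (hKi.const_mul 2).mono' hkm.aestronglyMeasurable ?_
    refine Filter.Eventually.of_forall fun y => ?_
    rw [Real.norm_eq_abs, abs_of_nonneg (hk0 y)]
    exact hkle y
  have hg0 : ∀ y, 0 ≤ g y := fun y => mul_nonneg
    (pow_nonneg (by have := mul_nonneg hL0.le (hn0 y); linarith only [this]) _)
    (pow_nonneg (by have := hn0 y; linarith only [this]) _)
  have hkgi : Integrable (fun y => k y * g y) := by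
    refine (hKi.const_mul (2 ^ q * (256 / κ) ^ 4)).mono' (hkm.mul hgm).aestronglyMeasurable ?_
    refine Filter.Eventually.of_forall fun y => ?_
    rw [Real.norm_eq_abs, abs_of_nonneg (mul_nonneg (hk0 y) (hg0 y))]
    exact hkgle y
  have hmain := EnBound_sum n w hw f hf0 hfm a k g hk0 hki (C₀ * T * L ^ 2) (Real.exp 6)
    (Real.exp_pos _).le hkgi (fun y => (hS y).trans (le_of_eq (by simp only [hg]; ring))) ha
  have hJ0 : 0 ≤ J := integral_nonneg fun y => mul_nonneg (mul_nonneg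
    (pow_nonneg (by have := hha y; linarith only [this]) _) (by positivity)) (hK0 y)
  have h1 : ∫ y, k y ≤ 2 * J := by
    rw [hJ, ← integral_const_mul]
    exact integral_mono hki (hKi.const_mul 2) hkle
  have h2 : ∫ y, k y * g y ≤ 2 ^ q * (256 / κ) ^ 4 * J := by
    rw [hJ, ← integral_const_mul]
    exact integral_mono hkgi (hKi.const_mul _) hkgle
  have h3 : 0 ≤ ∫ y, k y := integral_nonneg hk0
  have h4 : 0 ≤ ∫ y, k y * g y := integral_nonneg fun y => mul_nonneg (hk0 y) (hg0 y)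
  have hD : 0 ≤ C₀ * T * L ^ 2 := by positivity
  have hexp : Real.exp 6 ^ 2 = Real.exp 12 := by
    rw [← Real.exp_nat_mul]; norm_num
  calc ∑ i ∈ Finset.range n, w i * ‖a i‖ ^ 2
      ≤ Real.exp 6 ^ 2 * (∫ y, k y) * (C₀ * T * L ^ 2 * ∫ y, k y * g y) := hmain
    _ ≤ Real.exp 6 ^ 2 * (2 * J) * (C₀ * T * L ^ 2 * (2 ^ q * (256 / κ) ^ 4 * J)) := by
        refine mul_le_mul (mul_le_mul_of_nonneg_left h1 (by positivity))
          (mul_le_mul_of_nonneg_left h2 hD) (mul_nonneg hD h4) (by positivity)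
    _ = Real.exp 12 * P * (256 / κ) ^ 4 * C₀ * T * L ^ 2 * J ^ 2 := by
        rw [hexp, hP, pow_succ]; ring

/-- the zeta factor on a vertical line is measurable -/
theorem EnBound_meas (σ : ℝ) (z₀ : ℝ) (s ρ : ℂ) :
    Measurable (fun y : ℝ => ‖riemannZeta (ρ + ((σ : ℂ) + y * I)) * Mo z₀ (s + ((σ : ℂ) + y * I))‖) := by
  have h1 : Measurable (fun y : ℝ => riemannZeta (ρ + ((σ : ℂ) + y * I))) := by
    refine measurable_of_continuousOn_compl_singleton (-ρ.im) fun y hy => ?_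
    refine ContinuousAt.continuousWithinAt ?_
    have hne : ρ + ((σ : ℂ) + y * I) ≠ 1 := by
      intro h0
      apply hy
      have := congrArg Complex.im h0
      simp at this
      show y = -ρ.im
      linarith only [this]
    refine ContinuousAt.comp (f := fun y : ℝ => ρ + ((σ : ℂ) + y * I)) (g := riemannZeta) ?_ ?_
    · exact (differentiableAt_riemannZeta hne).continuousAt
    · exact (by fun_prop : Continuous fun y : ℝ => ρ + ((σ : ℂ) + y * I)).continuousAt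
  have h2 : Continuous (fun y : ℝ => Mo z₀ (s + ((σ : ℂ) + y * I))) := by
    unfold Mo
    refine continuous_finsetSum _ fun d hd => ?_
    have hd0 : (d : ℂ) ≠ 0 := by
      rw [Finset.mem_Icc] at hd
      exact Nat.cast_ne_zero.2 (by omega)
    refine continuous_const.mul ?_
    refine Continuous.const_cpow (by fun_prop) (Or.inl hd0)
  exact (h1.mul h2.measurable).norm

/-- pointwise bound of the integrand off the pole -/
theorem EnBound_pt (z₀ h r σ : ℝ) (s ρ : ℂ) (hρ : 1 ≤ ‖ρ - 1‖) (hr : σ * r ≤ 6) (y : ℝ)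
    (hne : ρ + ((σ : ℂ) + y * I) ≠ 1) :
    ‖Mo z₀ (s + (σ + y * I)) * azI h r ρ (σ + y * I)‖ ≤
      Real.exp 6 * (((1 + ‖(σ : ℂ) + y * I‖) * ‖kn h (σ + y * I) / (σ + y * I)‖) *
        ‖riemannZeta (ρ + ((σ : ℂ) + y * I)) * Mo z₀ (s + ((σ : ℂ) + y * I))‖) := by
  set z : ℂ := (σ : ℂ) + y * I with hz
  have hre : (z * (r : ℂ)).re = σ * r := by simp [hz]
  have h1 : ‖Zt (ρ + z) / (ρ - 1)‖ ≤ (1 + ‖z‖) * ‖riemannZeta (ρ + z)‖ := by
    rw [Zt_eq _ hne, norm_div, norm_mul, div_le_iff₀ (by linarith only [hρ])]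
    have h2 : ‖ρ + z - 1‖ ≤ (1 + ‖z‖) * ‖ρ - 1‖ := by
      calc ‖ρ + z - 1‖ = ‖(ρ - 1) + z‖ := by congr 1; ring
        _ ≤ ‖ρ - 1‖ + ‖z‖ := norm_add_le _ _
        _ ≤ ‖ρ - 1‖ + ‖z‖ * ‖ρ - 1‖ := by
            have := mul_le_mul_of_nonneg_left hρ (norm_nonneg z)
            linarith only [this]
        _ = _ := by ring
    calc ‖ρ + z - 1‖ * ‖riemannZeta (ρ + z)‖ ≤ ((1 + ‖z‖) * ‖ρ - 1‖) * ‖riemannZeta (ρ + z)‖ :=
          mul_le_mul_of_nonneg_right h2 (norm_nonneg _)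
      _ = _ := by ring
  have h3 : ‖Complex.exp (z * r)‖ ≤ Real.exp 6 := by
    rw [Complex.norm_exp, hre]
    exact Real.exp_le_exp.2 hr
  unfold azI
  rw [norm_mul, norm_mul, norm_mul (Complex.exp _), norm_mul (riemannZeta _)]
  have h4 : 0 ≤ ‖kn h z / z‖ := norm_nonneg _
  have h5 : 0 ≤ ‖Mo z₀ (s + z)‖ := norm_nonneg _
  calc ‖Mo z₀ (s + z)‖ * (‖Zt (ρ + z) / (ρ - 1)‖ * (‖Complex.exp (z * r)‖ * ‖kn h z / z‖))
      ≤ ‖Mo z₀ (s + z)‖ * (((1 + ‖z‖) * ‖riemannZeta (ρ + z)‖) * (Real.exp 6 * ‖kn h z / z‖)) := by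
        refine mul_le_mul_of_nonneg_left ?_ h5
        exact mul_le_mul h1 (mul_le_mul_of_nonneg_right h3 h4) (by positivity) (by positivity)
    _ = _ := by ring

/-- PROOF. `Am_line` with `σ = 2/L`: `‖Zt (ρ+z)/(ρ-1)‖ ≤ ‖ζ(ρ+z)‖ (1+‖z‖)` (`ρ + z ≠ 1`, `‖ρ-1‖ ≥ 1`),
`|e^{z(ν-u)}| ≤ e^{6}`, so with `k(y) = (1+‖z‖)‖kn h z/z‖` and `cs_int`
`‖Am‖² ≤ e^{12} (∫ k)(∫ k ‖ζ(ρ+z) Mo (s+z)‖² dy)`; sum over `i`, use `hE` and `kn_int`
(`L = 256 h/κ`, so `(1+L‖z‖)^4 ≤ C_κ (1+h|y|)^4`, `h|σ| = κ/128`). Derivative: `Am_deriv`, `kn_int'`: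
`(∫ k')² ≤ C/h²`. -/
theorem en_bound (θ κ C₀ G : ℝ) (hθ0 : 0 < θ) (hθ1 : θ ≤ 1 / 40) (hκ0 : 0 < κ) (hκ1 : κ ≤ 1)
    (hC₀ : 0 < C₀) (hG : 1 ≤ G) : ∃ C : ℝ, 0 < C ∧ ∃ T₀ : ℝ, Real.exp (3200 / κ) ≤ T₀ ∧
    ∀ T : ℝ, T₀ ≤ T → ∀ (n : ℕ) (t : ℕ → ℝ) (ρ : ℕ → ℂ),
      (∀ i < n, T / 2 ≤ t i ∧ t i ≤ 3 * T ∧ riemannZeta (ρ i) = 0 ∧ 1 / 2 ≤ (ρ i).re ∧
        ‖ρ i - pt 0 (t i)‖ ≤ G / Real.log T) →
      (∀ z : ℂ, z.re = 2 / Real.log T →
        ∑ i ∈ Finset.range n, ‖Mo (T ^ θ) (pt 0 (t i))‖ ^ 2 *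
            ‖riemannZeta (ρ i + z) * Mo (T ^ θ) (pt 0 (t i) + z)‖ ^ 2
          ≤ C₀ * T * Real.log T ^ 2 * (1 + Real.log T * ‖z‖) ^ 4 * (1 + ‖z‖) ^ 301) →
      ∀ ν u : ℝ, ν - u ≤ 3 * Real.log T →
        ∑ i ∈ Finset.range n, ‖Mo (T ^ θ) (pt 0 (t i))‖ ^ 2 *
          ‖Am (T ^ θ) (κ * Real.log T / 256) ν (pt 0 (t i)) (ρ i) u‖ ^ 2
            ≤ C * T * Real.log T ^ 2 ∧
        ∑ i ∈ Finset.range n, ‖Mo (T ^ θ) (pt 0 (t i))‖ ^ 2 *
          ‖deriv (Am (T ^ θ) (κ * Real.log T / 256) ν (pt 0 (t i)) (ρ i)) u‖ ^ 2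
            ≤ C * T := by
  obtain ⟨C₁, hC₁, hk1⟩ := kn_int 302
  obtain ⟨C₂, hC₂, hk2⟩ := kn_int' 302
  obtain ⟨P, hP⟩ : ∃ P : ℝ, P = 2 ^ (302 + 1) := ⟨_, rfl⟩
  have hP0 : 0 < P := by rw [hP]; exact pow_pos (by norm_num) _
  set Q : ℝ := Real.exp 12 * P * (256 / κ) ^ 4 * C₀ with hQ
  have hQ0 : 0 < Q := by positivity
  set A1 : ℝ := C₁ * Real.exp 1 * (1 + 128 / κ) with hA1
  set A2 : ℝ := C₂ * Real.exp 1 * (256 / κ) with hA2
  have hA10 : 0 < A1 := by positivity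
  have hA20 : 0 < A2 := by positivity
  refine ⟨Q * (A1 ^ 2 + A2 ^ 2), by positivity, Real.exp (3200 / κ) + 2 * G + 4, by linarith only [hθ0, hθ1, hG], ?_⟩
  intro T hT n t ρ hi hE ν u hνu
  have hT1 : Real.exp (3200 / κ) ≤ T := by linarith only [hθ0, hθ1, hG, hT]
  have hT0 : 0 < T := lt_of_lt_of_le (Real.exp_pos _) hT1
  set L := Real.log T with hL
  have hL1 : 3200 / κ ≤ L := by
    rw [hL, ← Real.log_exp (3200 / κ)]
    exact Real.log_le_log (Real.exp_pos _) hT1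
  have hL2 : 3200 ≤ L := by
    refine le_trans ?_ hL1
    rw [le_div_iff₀ hκ0]
    nlinarith only [hκ1]
  have hL0 : 0 < L := by linarith only [hθ0, hθ1, hL2]
  set h := κ * L / 256 with hh
  have hh0 : 0 < h := by positivity
  set σ : ℝ := 2 / L with hσ
  have hσ0 : 0 < σ := by positivity
  have hσne : σ ≠ 0 := hσ0.ne'
  have hσ1 : σ ≤ 1 / 2 := by
    rw [hσ, div_le_iff₀ hL0]; linarith only [hθ0, hθ1, hL2]
  have hhσ : h * σ = κ / 128 := by rw [hh, hσ]; field_simp; norm_num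
  have habs : |σ| = σ := abs_of_pos hσ0
  have hexp : Real.exp (32 * h * |σ| + σ ^ 2) ≤ Real.exp 1 := by
    refine Real.exp_le_exp.2 ?_
    rw [habs, mul_assoc, hhσ]
    nlinarith only [hθ1, hκ1, hσ1, hθ0, hσ0]
  have hr : σ * (ν - u) ≤ 6 := by
    calc σ * (ν - u) ≤ σ * (3 * L) := mul_le_mul_of_nonneg_left hνu hσ0.le
      _ = 6 := by rw [hσ]; field_simp; norm_num
  -- facts about the zeros
  have hρ1 : ∀ i < n, (ρ i).re < 1 := by
    intro i hin
    by_contra hcon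
    exact riemannZeta_ne_zero_of_one_le_re (not_lt.1 hcon) (hi i hin).2.2.1
  have hρn : ∀ i < n, 1 ≤ ‖ρ i - 1‖ := by
    intro i hin
    obtain ⟨h1, -, -, -, h5⟩ := hi i hin
    have h6 : G / L ≤ G := div_le_self (by linarith only [hθ0, hθ1, hG]) (by linarith only [hθ0, hθ1, hL2])
    have h7 := (Complex.abs_im_le_norm (ρ i - pt 0 (t i))).trans (h5.trans h6)
    have h8 : (ρ i - pt 0 (t i)).im = (ρ i).im - t i := by simp [pt]
    rw [h8, abs_le] at h7
    have h9 : 1 ≤ (ρ i).im := by linarith only [hθ0, hθ1, hT, h1, h7, Real.exp_pos (3200 / κ)]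
    have h10 := Complex.abs_im_le_norm (ρ i - 1)
    have h11 : (ρ i - 1).im = (ρ i).im := by simp
    rw [h11] at h10
    exact (h9.trans (le_abs_self _)).trans h10
  set w : ℕ → ℝ := fun i => ‖Mo (T ^ θ) (pt 0 (t i))‖ ^ 2 with hw
  set f : ℕ → ℝ → ℝ := fun i y =>
    ‖riemannZeta (ρ i + ((σ : ℂ) + y * I)) * Mo (T ^ θ) (pt 0 (t i) + ((σ : ℂ) + y * I))‖ with hf
  have hw0 : ∀ i < n, 0 ≤ w i := fun i _ => sq_nonneg _
  have hf0 : ∀ i y, 0 ≤ f i y := fun i y => norm_nonneg _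
  have hfm : ∀ i, Measurable (f i) := fun i => EnBound_meas σ (T ^ θ) (pt 0 (t i)) (ρ i)
  have hS : ∀ y : ℝ, ∑ i ∈ Finset.range n, w i * f i y ^ 2 ≤
      C₀ * T * L ^ 2 * (1 + L * ‖(σ : ℂ) + y * I‖) ^ 4 * (1 + ‖(σ : ℂ) + y * I‖) ^ 301 := by
    intro y
    have := hE ((σ : ℂ) + y * I) (by simp [hσ])
    simpa only [hw, hf] using this
  have hzne : ∀ y : ℝ, (σ : ℂ) + y * I ≠ 0 := by
    intro y h0
    have := congrArg Complex.re h0
    simp at this
    exact hσne this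
  have hcz : Continuous fun y : ℝ => (σ : ℂ) + y * I := by fun_prop
  have hckn : Continuous fun y : ℝ => kn h ((σ : ℂ) + y * I) :=
    (differentiable_kn h).continuous.comp hcz
  have hae : ∀ i, ∀ᵐ y : ℝ, ρ i + ((σ : ℂ) + y * I) ≠ 1 := by
    intro i
    have h1 : ∀ᵐ y : ℝ, y ≠ -(ρ i).im := by
      rw [ae_iff]
      simp
    filter_upwards [h1] with y hy h0
    apply hy
    have := congrArg Complex.im h0
    simp at this
    linarith only [this]
  have h2π : 1 / (2 * Real.pi) ≤ 1 := by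
    rw [div_le_one (by positivity)]
    linarith only [hθ0, hθ1, Real.pi_gt_three]
  have h2π0 : 0 ≤ 1 / (2 * Real.pi) := by positivity
  constructor
  · -- the function
    obtain ⟨hi1, hi2⟩ := hk1 h σ hh0 hσne
    have hres := EnBound_core 301 302 (by norm_num) P hP κ L h σ C₀ T hκ0 hκ1 hC₀ hT0.le hL2 hh hσ n w hw0 f hf0 hfm
      (fun i => Am (T ^ θ) h ν (pt 0 (t i)) (ρ i) u)
      (fun y => ‖kn h (σ + y * I) / (σ + y * I)‖) (fun y => norm_nonneg _)
      ((hckn.div hcz hzne).norm.measurable) hi1 hS (by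
        intro i hin _ hint
        obtain ⟨-, -, h3, h4, -⟩ := hi i hin
        rw [Am_line (T ^ θ) h ν hh0 (pt 0 (t i)) (ρ i) h3 h4 (hρ1 i hin) u σ hσne]
        rw [norm_mul, Complex.norm_real, Real.norm_eq_abs, abs_of_nonneg h2π0]
        calc 1 / (2 * Real.pi) * ‖∫ y : ℝ, Mo (T ^ θ) (pt 0 (t i) + (σ + y * I)) *
              azI h (ν - u) (ρ i) (σ + y * I)‖
            ≤ 1 * ∫ y : ℝ, ‖Mo (T ^ θ) (pt 0 (t i) + (σ + y * I)) *
              azI h (ν - u) (ρ i) (σ + y * I)‖ :=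
              mul_le_mul h2π (norm_integral_le_integral_norm _) (norm_nonneg _) (by norm_num)
          _ = ∫ y : ℝ, ‖Mo (T ^ θ) (pt 0 (t i) + (σ + y * I)) *
              azI h (ν - u) (ρ i) (σ + y * I)‖ := one_mul _
          _ ≤ ∫ y : ℝ, Real.exp 6 * (((1 + ‖(σ : ℂ) + y * I‖) *
              ‖kn h (σ + y * I) / (σ + y * I)‖) * f i y) := by
              refine integral_mono_of_nonneg (Filter.Eventually.of_forall fun y => norm_nonneg _)
                (hint.const_mul _) ?_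
              filter_upwards [hae i] with y hy
              exact EnBound_pt (T ^ θ) h (ν - u) σ (pt 0 (t i)) (ρ i) (hρn i hin) hr y hy
          _ = _ := integral_const_mul _ _)
    refine hres.trans ?_
    have hJ : ∫ y : ℝ, (1 + h * |y|) ^ 30 * (1 + |y|) ^ 302 * ‖kn h (σ + y * I) / (σ + y * I)‖ ≤
        A1 := by
      refine hi2.trans ?_
      have e1 : 1 / (h * |σ|) = 128 / κ := by rw [habs, hhσ]; field_simp
      rw [e1, hA1]
      refine mul_le_mul_of_nonneg_right ?_ (by positivity)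
      exact mul_le_mul_of_nonneg_left hexp hC₁.le
    have hJ0 : 0 ≤ ∫ y : ℝ, (1 + h * |y|) ^ 30 * (1 + |y|) ^ 302 *
        ‖kn h (σ + y * I) / (σ + y * I)‖ := integral_nonneg fun y => by positivity
    have hJ2 := pow_le_pow_left₀ hJ0 hJ 2
    calc Real.exp 12 * P * (256 / κ) ^ 4 * C₀ * T * L ^ 2 *
          (∫ y : ℝ, (1 + h * |y|) ^ 30 * (1 + |y|) ^ 302 * ‖kn h (σ + y * I) / (σ + y * I)‖) ^ 2
        = Q * T * L ^ 2 * (∫ y : ℝ, (1 + h * |y|) ^ 30 * (1 + |y|) ^ 302 *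
          ‖kn h (σ + y * I) / (σ + y * I)‖) ^ 2 := by rw [hQ]
      _ ≤ Q * T * L ^ 2 * A1 ^ 2 := mul_le_mul_of_nonneg_left hJ2 (by positivity)
      _ ≤ Q * T * L ^ 2 * (A1 ^ 2 + A2 ^ 2) :=
          mul_le_mul_of_nonneg_left (by have := sq_nonneg A2; linarith only [this]) (by positivity)
      _ = Q * (A1 ^ 2 + A2 ^ 2) * T * L ^ 2 := by ring
  · -- the derivative
    obtain ⟨hi1, hi2⟩ := hk2 h σ hh0
    have hres := EnBound_core 301 302 (by norm_num) P hP κ L h σ C₀ T hκ0 hκ1 hC₀ hT0.le hL2 hh hσ n w hw0 f hf0 hfm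
      (fun i => deriv (Am (T ^ θ) h ν (pt 0 (t i)) (ρ i)) u)
      (fun y => ‖kn h (σ + y * I)‖) (fun y => norm_nonneg _)
      (hckn.norm.measurable) hi1 hS (by
        intro i hin _ hint
        obtain ⟨-, -, h3, h4, -⟩ := hi i hin
        rw [(Am_deriv (T ^ θ) h ν hh0 (pt 0 (t i)) (ρ i) h3 h4 (hρ1 i hin) u σ hσne).deriv]
        rw [norm_neg, norm_mul, Complex.norm_real, Real.norm_eq_abs, abs_of_nonneg h2π0]
        calc 1 / (2 * Real.pi) * ‖∫ y : ℝ, Mo (T ^ θ) (pt 0 (t i) + (σ + y * I)) *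
              azI h (ν - u) (ρ i) (σ + y * I) * (σ + y * I)‖
            ≤ 1 * ∫ y : ℝ, ‖Mo (T ^ θ) (pt 0 (t i) + (σ + y * I)) *
              azI h (ν - u) (ρ i) (σ + y * I) * (σ + y * I)‖ :=
              mul_le_mul h2π (norm_integral_le_integral_norm _) (norm_nonneg _) (by norm_num)
          _ = ∫ y : ℝ, ‖Mo (T ^ θ) (pt 0 (t i) + (σ + y * I)) *
              azI h (ν - u) (ρ i) (σ + y * I) * (σ + y * I)‖ := one_mul _
          _ ≤ ∫ y : ℝ, Real.exp 6 * (((1 + ‖(σ : ℂ) + y * I‖) *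
              ‖kn h (σ + y * I)‖) * f i y) := by
              refine integral_mono_of_nonneg (Filter.Eventually.of_forall fun y => norm_nonneg _)
                (hint.const_mul _) ?_
              filter_upwards [hae i] with y hy
              have e1 := EnBound_pt (T ^ θ) h (ν - u) σ (pt 0 (t i)) (ρ i) (hρn i hin) hr y hy
              rw [norm_mul]
              have e2 : ‖kn h ((σ : ℂ) + y * I)‖ = ‖kn h (σ + y * I) / (σ + y * I)‖ *
                  ‖(σ : ℂ) + y * I‖ := by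
                rw [norm_div, div_mul_cancel₀ _ (norm_ne_zero_iff.2 (hzne y))]
              calc ‖Mo (T ^ θ) (pt 0 (t i) + (σ + y * I)) * azI h (ν - u) (ρ i) (σ + y * I)‖ *
                    ‖(σ : ℂ) + y * I‖
                  ≤ (Real.exp 6 * (((1 + ‖(σ : ℂ) + y * I‖) *
                    ‖kn h (σ + y * I) / (σ + y * I)‖) * f i y)) * ‖(σ : ℂ) + y * I‖ :=
                    mul_le_mul_of_nonneg_right e1 (norm_nonneg _)
                _ = _ := by rw [e2]; ring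
          _ = _ := integral_const_mul _ _)
    refine hres.trans ?_
    have hJ : ∫ y : ℝ, (1 + h * |y|) ^ 30 * (1 + |y|) ^ 302 * ‖kn h (σ + y * I)‖ ≤ A2 / L := by
      refine hi2.trans ?_
      have e1 : C₂ * Real.exp (32 * h * |σ| + σ ^ 2) / h ≤ C₂ * Real.exp 1 / h :=
        div_le_div_of_nonneg_right (mul_le_mul_of_nonneg_left hexp hC₂.le) hh0.le
      refine e1.trans (le_of_eq ?_)
      rw [hA2, hh]
      field_simp
    have hJ0 : 0 ≤ ∫ y : ℝ, (1 + h * |y|) ^ 30 * (1 + |y|) ^ 302 *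
        ‖kn h (σ + y * I)‖ := integral_nonneg fun y => by positivity
    have hJ2 := pow_le_pow_left₀ hJ0 hJ 2
    calc Real.exp 12 * P * (256 / κ) ^ 4 * C₀ * T * L ^ 2 *
          (∫ y : ℝ, (1 + h * |y|) ^ 30 * (1 + |y|) ^ 302 * ‖kn h (σ + y * I)‖) ^ 2
        = Q * T * L ^ 2 * (∫ y : ℝ, (1 + h * |y|) ^ 30 * (1 + |y|) ^ 302 *
          ‖kn h (σ + y * I)‖) ^ 2 := by rw [hQ]
      _ ≤ Q * T * L ^ 2 * (A2 / L) ^ 2 := mul_le_mul_of_nonneg_left hJ2 (by positivity)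
      _ = Q * T * A2 ^ 2 := by field_simp
      _ ≤ Q * T * (A1 ^ 2 + A2 ^ 2) :=
          mul_le_mul_of_nonneg_left (by have := sq_nonneg A1; linarith only [this]) (by positivity)
      _ = Q * (A1 ^ 2 + A2 ^ 2) * T := by ring

end Pool.Agent.H14.CO

end

section

/-!
# CO: the test function and its energy
-/

set_option autoImplicit false

namespace Pool.Agent.H14.CO

open Set MeasureTheory Complex

/-- the test function -/
noncomputable def Ft (z₀ h ν : ℝ) (n₀ : ℕ) (t : ℕ → ℝ) (ρ : ℕ → ℂ) (u : ℝ) : ℂ :=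
  ∑ i ∈ Finset.range n₀, (starRingEnd ℂ) (Mo z₀ (pt 0 (t i))) *
    (Complex.exp (-ρ i * u) * Am z₀ h ν (pt 0 (t i)) (ρ i) u)

theorem hasDerivAt_Am (z₀ h ν : ℝ) (hh : 0 < h) (s ρ : ℂ) (hρ : riemannZeta ρ = 0)
    (hρ0 : 1 / 2 ≤ ρ.re) (hρ1 : ρ.re < 1) (u : ℝ) :
    HasDerivAt (Am z₀ h ν s ρ) (deriv (Am z₀ h ν s ρ) u) u :=
  (Am_deriv z₀ h ν hh s ρ hρ hρ0 hρ1 u 1 one_ne_zero).differentiableAt.hasDerivAt

/-- the hypotheses on the family -/
def Fam (θ G C₀ T : ℝ) (n₀ : ℕ) (t : ℕ → ℝ) (ρ : ℕ → ℂ) : Prop :=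
  (∀ i < n₀, T / 2 ≤ t i ∧ t i ≤ 3 * T ∧ riemannZeta (ρ i) = 0 ∧ 1 / 2 ≤ (ρ i).re ∧
    ‖ρ i - pt 0 (t i)‖ ≤ G / Real.log T) ∧
  (∀ i < n₀, ∀ j < n₀, i ≠ j → 1 / Real.log T ≤ |(ρ i).im - (ρ j).im|) ∧
  ∀ z : ℂ, z.re = 2 / Real.log T →
    ∑ i ∈ Finset.range n₀, ‖Mo (T ^ θ) (pt 0 (t i))‖ ^ 2 *
        ‖riemannZeta (ρ i + z) * Mo (T ^ θ) (pt 0 (t i) + z)‖ ^ 2
      ≤ C₀ * T * Real.log T ^ 2 * (1 + Real.log T * ‖z‖) ^ 4 * (1 + ‖z‖) ^ 301

theorem pt_zero_re (t : ℝ) : (pt 0 t).re = 1 / 2 := by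
  simp [pt]

theorem pt_zero_im (t : ℝ) : (pt 0 t).im = t := by
  simp [pt]

/-- real part of the zeros -/
theorem Fam.re_lt {θ G C₀ T : ℝ} {n₀ : ℕ} {t : ℕ → ℝ} {ρ : ℕ → ℂ} (hF : Fam θ G C₀ T n₀ t ρ)
    (hL : 4 * G ≤ Real.log T) (hG : 1 ≤ G) {i : ℕ} (hi : i < n₀) :
    (ρ i).re ≤ 1 / 2 + G / Real.log T ∧ (ρ i).re < 1 ∧ 0 ≤ (ρ i).re - 1 / 2 ∧
      |(ρ i).im - t i| ≤ 1 / 4 := by
  obtain ⟨_, _, _, h4, h5⟩ := hF.1 i hi
  have hLpos : 0 < Real.log T := by linarith only [hL, hG]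
  have hq : G / Real.log T ≤ 1 / 4 := by
    rw [div_le_iff₀ hLpos]; linarith only [hL]
  have h6 : |(ρ i).re - 1 / 2| ≤ G / Real.log T := by
    have := Complex.abs_re_le_norm (ρ i - pt 0 (t i))
    rw [sub_re, pt_zero_re] at this
    exact this.trans h5
  have h7 : |(ρ i).im - t i| ≤ G / Real.log T := by
    have := Complex.abs_im_le_norm (ρ i - pt 0 (t i))
    rw [sub_im, pt_zero_im] at this
    exact this.trans h5
  rw [abs_le] at h6
  refine ⟨by linarith only [h6, h6.2], by linarith only [hq, h6, h6.2], by linarith only [h4], h7.trans hq⟩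

/-- The energy bound. -/
theorem energy (θ κ C₀ G : ℝ) (hθ0 : 0 < θ) (hθ1 : θ ≤ 1 / 40) (hκ0 : 0 < κ) (hκ1 : κ ≤ 1)
    (hC₀ : 0 < C₀) (hG : 1 ≤ G) : ∃ C : ℝ, 0 < C ∧ ∃ T₀ : ℝ, Real.exp (3200 / κ) ≤ T₀ ∧
    ∀ T : ℝ, T₀ ≤ T → ∀ (n₀ : ℕ) (t : ℕ → ℝ) (ρ : ℕ → ℂ), Fam θ G C₀ T n₀ t ρ →
      ∀ ν n : ℝ, 0 ≤ n → ν - n ≤ 3 * Real.log T →
        ∫ u in n..(n + (1 + κ) * Real.log T),
          ‖Ft (T ^ θ) (κ * Real.log T / 256) ν n₀ t ρ u‖ ^ 2 * Real.exp u
          ≤ C * T * Real.log T ^ 3 := by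
  obtain ⟨C₂, hC₂, T₂, hT₂e, hen⟩ := en_bound θ κ C₀ G hθ0 hθ1 hκ0 hκ1 hC₀ hG
  obtain ⟨C₃, hC₃, hls⟩ := ls_amp
  refine ⟨C₃ * 3 * (C₂ + 4 * (2 * G ^ 2 * C₂ + 2 * C₂)), by positivity, max T₂ (Real.exp (4 * G)),
    le_max_of_le_left hT₂e, ?_⟩
  intro T hT n₀ t ρ hF ν n hn hνn
  have hTa : T₂ ≤ T := (le_max_left _ _).trans hT
  have hTb : Real.exp (4 * G) ≤ T := (le_max_right _ _).trans hT
  have hT0 : 0 < T := (Real.exp_pos _).trans_le hTb
  set L := Real.log T with hL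
  have hLG : 4 * G ≤ L := by rw [hL, Real.le_log_iff_exp_le hT0]; exact hTb
  have hL1 : 4 ≤ L := by linarith only [hG, hLG]
  have hLpos : 0 < L := by linarith only [hθ0, hθ1, hG, hLG]
  set h := κ * L / 256 with hh
  have hhpos : 0 < h := by rw [hh]; positivity
  set ℓ := (1 + κ) * L with hℓ
  have hℓ0 : 0 ≤ ℓ := by positivity
  have hℓ2 : ℓ ≤ 2 * L := by rw [hℓ]; exact mul_le_mul_of_nonneg_right (by linarith only [hκ1]) hLpos.le
  -- abbreviations
  set b : ℕ → ℂ := fun i => (starRingEnd ℂ) (Mo (T ^ θ) (pt 0 (t i))) with hb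
  set A : ℕ → ℝ → ℂ := fun i u => Am (T ^ θ) h ν (pt 0 (t i)) (ρ i) u with hA
  set β : ℕ → ℝ := fun i => (ρ i).re - 1 / 2 with hβ
  have hβi : ∀ i < n₀, 0 ≤ β i ∧ β i ≤ G / L := by
    intro i hi
    obtain ⟨h1, h2, h3, h4⟩ := hF.re_lt hLG hG hi
    exact ⟨h3, by simp only [hβ]; linarith only [h1]⟩
  have hnb : ∀ i, ‖b i‖ = ‖Mo (T ^ θ) (pt 0 (t i))‖ := by
    intro i; simp only [hb]; exact RCLike.norm_conj _
  set f : ℕ → ℝ → ℂ := fun i u => b i * (Complex.exp (-(β i : ℂ) * u) * A i u) with hf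
  set f' : ℕ → ℝ → ℂ := fun i u => b i * (Complex.exp (-(β i : ℂ) * u) * (-(β i : ℂ)) * A i u +
    Complex.exp (-(β i : ℂ) * u) * deriv (A i) u) with hf'
  have hAd : ∀ i < n₀, ∀ u : ℝ, HasDerivAt (A i) (deriv (A i) u) u := by
    intro i hi u
    obtain ⟨_, _, h3, h4, _⟩ := hF.1 i hi
    obtain ⟨h1, h2, _, _⟩ := hF.re_lt hLG hG hi
    exact hasDerivAt_Am _ _ _ hhpos _ _ h3 h4 h2 u
  have hAc : ∀ i < n₀, Continuous (A i) := fun i hi =>
    continuous_iff_continuousAt.2 fun u => (hAd i hi u).continuousAt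
  have hAc' : ∀ i, Continuous (deriv (A i)) := fun i => continuous_deriv_Am _ _ _ hhpos _ _
  have hfd : ∀ i < n₀, ∀ u : ℝ, HasDerivAt (f i) (f' i u) u := by
    intro i hi u
    have h1 : HasDerivAt (fun u : ℝ => (-(β i : ℂ)) * (u : ℂ)) (-(β i : ℂ)) u := by
      simpa using (Complex.ofRealCLM.hasDerivAt (x := u)).const_mul (-(β i : ℂ))
    have h2 := h1.cexp
    have h3 := (h2.mul (hAd i hi u)).const_mul (b i)
    exact h3
  have hfc' : ∀ i < n₀, Continuous (f' i) := by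
    intro i hi
    have h1 := hAc i hi
    have h2 := hAc' i
    have h0 : Continuous fun u : ℝ => Complex.exp (-(β i : ℂ) * u) := by fun_prop
    exact continuous_const.mul (((h0.mul continuous_const).mul h1).add (h0.mul h2))
  have hexp : ∀ i < n₀, ∀ u : ℝ, 0 ≤ u → ‖Complex.exp (-(β i : ℂ) * u)‖ ≤ 1 := by
    intro i hi u hu
    rw [Complex.norm_exp]
    have : (-(β i : ℂ) * u).re = -(β i * u) := by
      rw [← ofReal_neg, ← ofReal_mul, ofReal_re]; ring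
    rw [this, Real.exp_le_one_iff]
    have := mul_nonneg (hβi i hi).1 hu
    linarith only [this]
  have hls' := hls n₀ (fun i => (ρ i).im) L (by linarith only [hG, hLG]) hF.2.1 f f' n ℓ hℓ0 hfd hfc'
  -- the integrand
  have hint : ∀ u : ℝ, ‖Ft (T ^ θ) h ν n₀ t ρ u‖ ^ 2 * Real.exp u =
      ‖∑ i ∈ Finset.range n₀, Complex.exp (-(((ρ i).im : ℝ) * u * I)) * f i u‖ ^ 2 := by
    intro u
    have h1 : ∑ i ∈ Finset.range n₀, Complex.exp (-(((ρ i).im : ℝ) * u * I)) * f i u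
        = Complex.exp ((u / 2 : ℝ)) * Ft (T ^ θ) h ν n₀ t ρ u := by
      rw [Ft, Finset.mul_sum]
      refine Finset.sum_congr rfl fun i _ => ?_
      simp only [hf, hb, hA, hβ]
      have h2 : Complex.exp (-ρ i * u) * Complex.exp ((u / 2 : ℝ)) =
          Complex.exp (-(((ρ i).im : ℝ) * u * I)) *
            Complex.exp (-(((ρ i).re - 1 / 2 : ℝ) : ℂ) * u) := by
        rw [← Complex.exp_add, ← Complex.exp_add]
        congr 1
        conv_lhs => rw [← Complex.re_add_im (ρ i)]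
        push_cast
        ring
      linear_combination (-(starRingEnd ℂ) (Mo (T ^ θ) (pt 0 (t i))) *
        Am (T ^ θ) h ν (pt 0 (t i)) (ρ i) u) * h2
    rw [h1, norm_mul, mul_pow, Complex.norm_exp, ofReal_re, ← Real.exp_nat_mul]
    have : ((2 : ℕ) : ℝ) * (u / 2) = u := by push_cast; ring
    rw [this]; ring
  have hstep : ∫ u in n..(n + ℓ), ‖Ft (T ^ θ) h ν n₀ t ρ u‖ ^ 2 * Real.exp u
      ≤ C₃ * (L + ℓ) * (∑ i ∈ Finset.range n₀, ‖f i n‖ ^ 2 +
        ℓ * ∫ v in n..(n + ℓ), ∑ i ∈ Finset.range n₀, ‖f' i v‖ ^ 2) := by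
    refine le_trans (le_of_eq ?_) hls'
    exact intervalIntegral.integral_congr fun u _ => hint u
  -- first sum
  have hs1 : ∑ i ∈ Finset.range n₀, ‖f i n‖ ^ 2 ≤ C₂ * T * L ^ 2 := by
    refine le_trans (Finset.sum_le_sum fun i hi => ?_) (hen T hTa n₀ t ρ hF.1 hF.2.2 ν n hνn).1
    have hi' := Finset.mem_range.1 hi
    simp only [hf]
    rw [norm_mul, norm_mul, hnb, mul_pow, mul_pow]
    have h1 := hexp i hi' n hn
    have h2 : ‖Complex.exp (-(β i : ℂ) * n)‖ ^ 2 ≤ 1 := pow_le_one₀ (norm_nonneg _) h1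
    exact mul_le_mul_of_nonneg_left (mul_le_of_le_one_left (by positivity) h2) (by positivity)
  -- second
  have hs2 : ∀ v ∈ Icc n (n + ℓ), ∑ i ∈ Finset.range n₀, ‖f' i v‖ ^ 2
      ≤ (2 * G ^ 2 * C₂ + 2 * C₂) * T := by
    intro v hv
    have hv0 : 0 ≤ v := hn.trans hv.1
    have hνv : ν - v ≤ 3 * L := by linarith only [hνn, hv, hv.1]
    obtain ⟨e1, e2⟩ := hen T hTa n₀ t ρ hF.1 hF.2.2 ν v hνv
    have hterm : ∀ i ∈ Finset.range n₀, ‖f' i v‖ ^ 2 ≤
        2 * (G / L) ^ 2 * (‖Mo (T ^ θ) (pt 0 (t i))‖ ^ 2 * ‖A i v‖ ^ 2) +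
        2 * (‖Mo (T ^ θ) (pt 0 (t i))‖ ^ 2 * ‖deriv (A i) v‖ ^ 2) := by
      intro i hi
      have hi' := Finset.mem_range.1 hi
      have h1 := hexp i hi' v hv0
      have h3 : ‖f' i v‖ ≤ ‖b i‖ * (G / L * ‖A i v‖ + ‖deriv (A i) v‖) := by
        simp only [hf']
        rw [norm_mul]
        refine mul_le_mul_of_nonneg_left ?_ (norm_nonneg _)
        refine (norm_add_le _ _).trans (add_le_add ?_ ?_)
        · rw [norm_mul, norm_mul, norm_neg, Complex.norm_real, Real.norm_eq_abs,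
            abs_of_nonneg (hβi i hi').1]
          refine mul_le_mul_of_nonneg_right ?_ (norm_nonneg _)
          calc _ ≤ 1 * β i := mul_le_mul_of_nonneg_right h1 (hβi i hi').1
            _ ≤ G / L := by rw [one_mul]; exact (hβi i hi').2
        · rw [norm_mul]
          exact mul_le_of_le_one_left (norm_nonneg _) h1
      have h4 : ‖f' i v‖ ^ 2 ≤ (‖b i‖ * (G / L * ‖A i v‖ + ‖deriv (A i) v‖)) ^ 2 :=
        pow_le_pow_left₀ (norm_nonneg _) h3 2
      refine h4.trans ?_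
      rw [hnb, mul_pow]
      have h5 : (G / L * ‖A i v‖ + ‖deriv (A i) v‖) ^ 2 ≤
          2 * (G / L * ‖A i v‖) ^ 2 + 2 * ‖deriv (A i) v‖ ^ 2 := by
        have e1 := sq_nonneg (G / L * ‖A i v‖ - ‖deriv (A i) v‖)
        have e2 : 2 * (G / L * ‖A i v‖) ^ 2 + 2 * ‖deriv (A i) v‖ ^ 2 - (G / L * ‖A i v‖ + ‖deriv (A i) v‖) ^ 2 = (G / L * ‖A i v‖ - ‖deriv (A i) v‖) ^ 2 := by ring
        linarith only [e1, e2]
      calc ‖Mo (T ^ θ) (pt 0 (t i))‖ ^ 2 * (G / L * ‖A i v‖ + ‖deriv (A i) v‖) ^ 2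
          ≤ ‖Mo (T ^ θ) (pt 0 (t i))‖ ^ 2 *
            (2 * (G / L * ‖A i v‖) ^ 2 + 2 * ‖deriv (A i) v‖ ^ 2) :=
            mul_le_mul_of_nonneg_left h5 (by positivity)
        _ = _ := by ring
    calc ∑ i ∈ Finset.range n₀, ‖f' i v‖ ^ 2
        ≤ ∑ i ∈ Finset.range n₀, (2 * (G / L) ^ 2 *
          (‖Mo (T ^ θ) (pt 0 (t i))‖ ^ 2 * ‖A i v‖ ^ 2) +
          2 * (‖Mo (T ^ θ) (pt 0 (t i))‖ ^ 2 * ‖deriv (A i) v‖ ^ 2)) :=
          Finset.sum_le_sum hterm
      _ = 2 * (G / L) ^ 2 * ∑ i ∈ Finset.range n₀,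
            (‖Mo (T ^ θ) (pt 0 (t i))‖ ^ 2 * ‖A i v‖ ^ 2) +
          2 * ∑ i ∈ Finset.range n₀,
            (‖Mo (T ^ θ) (pt 0 (t i))‖ ^ 2 * ‖deriv (A i) v‖ ^ 2) := by
          rw [Finset.sum_add_distrib, Finset.mul_sum, Finset.mul_sum]
      _ ≤ 2 * (G / L) ^ 2 * (C₂ * T * L ^ 2) + 2 * (C₂ * T) := by
          gcongr
      _ = _ := by field_simp
  have hs3 : ∫ v in n..(n + ℓ), ∑ i ∈ Finset.range n₀, ‖f' i v‖ ^ 2
      ≤ ℓ * ((2 * G ^ 2 * C₂ + 2 * C₂) * T) := by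
    have hc : Continuous fun v => ∑ i ∈ Finset.range n₀, ‖f' i v‖ ^ 2 :=
      continuous_finset_sum _ fun i hi => ((hfc' i (Finset.mem_range.1 hi)).norm.pow 2)
    calc ∫ v in n..(n + ℓ), ∑ i ∈ Finset.range n₀, ‖f' i v‖ ^ 2
        ≤ ∫ _ in n..(n + ℓ), ((2 * G ^ 2 * C₂ + 2 * C₂) * T) :=
          intervalIntegral.integral_mono_on (by linarith only [hθ0, hθ1, hG, hLG, hh, hhpos]) (hc.intervalIntegrable _ _)
            intervalIntegrable_const hs2
      _ = _ := by rw [intervalIntegral.integral_const, smul_eq_mul]; ring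
  refine hstep.trans ?_
  have hp : 0 ≤ (2 * G ^ 2 * C₂ + 2 * C₂) * T := by positivity
  calc C₃ * (L + ℓ) * (∑ i ∈ Finset.range n₀, ‖f i n‖ ^ 2 +
        ℓ * ∫ v in n..(n + ℓ), ∑ i ∈ Finset.range n₀, ‖f' i v‖ ^ 2)
      ≤ C₃ * (L + 2 * L) * (C₂ * T * L ^ 2 +
        2 * L * (2 * L * ((2 * G ^ 2 * C₂ + 2 * C₂) * T))) := by
        have h0 : 0 ≤ ∑ i ∈ Finset.range n₀, ‖f i n‖ ^ 2 +
          ℓ * ∫ v in n..(n + ℓ), ∑ i ∈ Finset.range n₀, ‖f' i v‖ ^ 2 := by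
          refine add_nonneg (Finset.sum_nonneg fun i _ => by positivity)
            (mul_nonneg hℓ0 (intervalIntegral.integral_nonneg (by linarith only [hθ0, hθ1, hG, hLG, hh, hhpos]) fun v _ =>
              Finset.sum_nonneg fun i _ => by positivity))
        refine mul_le_mul (by gcongr) (add_le_add hs1 ?_) h0 (by positivity)
        calc ℓ * ∫ v in n..(n + ℓ), ∑ i ∈ Finset.range n₀, ‖f' i v‖ ^ 2
            ≤ ℓ * (ℓ * ((2 * G ^ 2 * C₂ + 2 * C₂) * T)) := mul_le_mul_of_nonneg_left hs3 hℓ0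
          _ ≤ 2 * L * (2 * L * ((2 * G ^ 2 * C₂ + 2 * C₂) * T)) := by gcongr
    _ = _ := by ring

end Pool.Agent.H14.CO

end

section

/-!
# CO: Cauchy–Schwarz on the window and splitting of the pairing integral
-/

set_option autoImplicit false

namespace Pool.Agent.H14.CO

open Set MeasureTheory Complex Pool.Agent.H95.GC

theorem cs_sq {α : Type*} [MeasurableSpace α] (μ : Measure α) (f k : α → ℝ)
    (hf : Integrable (fun x => f x ^ 2) μ) (hk : Integrable (fun x => k x ^ 2) μ)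
    (hfk : Integrable (fun x => f x * k x) μ) :
    (∫ x, f x * k x ∂μ) ^ 2 ≤ (∫ x, f x ^ 2 ∂μ) * ∫ x, k x ^ 2 ∂μ := by
  set P := ∫ x, f x ^ 2 ∂μ
  set Q := ∫ x, k x ^ 2 ∂μ
  set R := ∫ x, f x * k x ∂μ
  have h : ∀ x : ℝ, 0 ≤ P * (x * x) + (-2 * R) * x + Q := by
    intro x
    have h1 : ∫ a, (x * f a - k a) ^ 2 ∂μ = P * (x * x) + (-2 * R) * x + Q := by
      have h2 : ∀ a, (x * f a - k a) ^ 2 = x ^ 2 * f a ^ 2 + (-2 * x) * (f a * k a) + k a ^ 2 := by
        intro a; ring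
      simp_rw [h2]
      have i12 : Integrable (fun a => x ^ 2 * f a ^ 2 + (-2 * x) * (f a * k a)) μ :=
        (hf.const_mul _).add (hfk.const_mul _)
      rw [integral_add i12 hk,
        integral_add (hf.const_mul _) (hfk.const_mul _), integral_const_mul, integral_const_mul]
      ring
    rw [← h1]
    exact integral_nonneg fun a => sq_nonneg _
  have h3 := discrim_le_zero h
  rw [discrim] at h3
  nlinarith only [h3]

theorem continuous_Ft (z₀ h ν : ℝ) (hh : 0 < h) (n₀ : ℕ) (t : ℕ → ℝ) (ρ : ℕ → ℂ)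
    (hρ : ∀ i < n₀, riemannZeta (ρ i) = 0 ∧ 1 / 2 ≤ (ρ i).re ∧ (ρ i).re < 1) :
    Continuous (Ft z₀ h ν n₀ t ρ) := by
  unfold Ft
  refine continuous_finsetSum _ fun i hi => ?_
  obtain ⟨h1, h2, h3⟩ := hρ i (Finset.mem_range.1 hi)
  have h4 : Continuous (Am z₀ h ν (pt 0 (t i)) (ρ i)) :=
    continuous_iff_continuousAt.2 fun u => (hasDerivAt_Am _ _ _ hh _ _ h1 h2 h3 u).continuousAt
  have h5 : Continuous fun u : ℝ => Complex.exp (-ρ i * u) := by fun_prop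
  exact continuous_const.mul (h5.mul h4)

/-- bounded measurable on a bounded interval -/
theorem integrableOn_bdd (f : ℝ → ℝ) (hf : Measurable f) (a b C : ℝ)
    (hC : ∀ u ∈ Ioc a b, |f u| ≤ C) : IntegrableOn f (Ioc a b) := by
  refine Measure.integrableOn_of_bounded (M := C) (by rw [Real.volume_Ioc]; exact ENNReal.ofReal_ne_top)
    hf.aestronglyMeasurable ?_
  exact (ae_restrict_iff' measurableSet_Ioc).2 (Filter.Eventually.of_forall fun u hu => hC u hu)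

theorem mid_part (δ n n' : ℝ) (hδ0 : 0 < δ) (hδ1 : δ ≤ 1) (hn : n ≤ n') (F : ℝ → ℂ)
    (hF : Continuous F) :
    ‖∫ u in Ioc n n', (g δ u : ℂ) * F u‖ ^ 2 ≤
      (∫ u in n..n', g δ u ^ 2 * Real.exp (-u)) * ∫ u in n..n', ‖F u‖ ^ 2 * Real.exp u := by
  rw [intervalIntegral.integral_of_le hn, intervalIntegral.integral_of_le hn]
  set μ := (volume.restrict (Ioc n n'))
  set f : ℝ → ℝ := fun u => |g δ u| * Real.exp (-u / 2) with hf
  set k : ℝ → ℝ := fun u => ‖F u‖ * Real.exp (u / 2) with hk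
  have hgm := measurable_g δ
  have hgb : ∀ u ∈ Ioc n n', |g δ u| ≤ Real.exp n' + 1 := fun u hu =>
    (abs_g_le δ u hδ0 hδ1).trans (by linarith only [hu, Real.exp_le_exp.2 hu.2])
  obtain ⟨M, hM⟩ := (isCompact_Icc (a := n) (b := n')).exists_bound_of_continuousOn
    (f := fun u => (F u)) hF.continuousOn
  have hfm : Measurable f := by
    have : Measurable fun u => |g δ u| := hgm.abs
    exact this.mul (by fun_prop)
  have hkm : Measurable k := (by fun_prop : Continuous k).measurable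
  have hexp : ∀ u ∈ Ioc n n', Real.exp (-u / 2) ≤ Real.exp (-n / 2) := fun u hu =>
    Real.exp_le_exp.2 (by linarith only [hu, hu.1])
  have hexp' : ∀ u ∈ Ioc n n', Real.exp (u / 2) ≤ Real.exp (n' / 2) := fun u hu =>
    Real.exp_le_exp.2 (by linarith only [hu, hu.2])
  have hfb : ∀ u ∈ Ioc n n', |f u| ≤ (Real.exp n' + 1) * Real.exp (-n / 2) := by
    intro u hu
    rw [hf]; simp only
    rw [abs_of_nonneg (by positivity)]
    exact mul_le_mul (hgb u hu) (hexp u hu) (Real.exp_pos _).le (by positivity)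
  have hkb : ∀ u ∈ Ioc n n', |k u| ≤ |M| * Real.exp (n' / 2) := by
    intro u hu
    rw [hk]; simp only
    rw [abs_of_nonneg (by positivity)]
    exact mul_le_mul ((hM u ⟨hu.1.le, hu.2⟩).trans (le_abs_self M)) (hexp' u hu)
      (Real.exp_pos _).le (abs_nonneg _)
  have i1 : Integrable (fun u => f u ^ 2) μ := by
    refine integrableOn_bdd _ (hfm.pow_const 2) n n' (((Real.exp n' + 1) * Real.exp (-n / 2)) ^ 2) ?_
    intro u hu
    rw [abs_pow]
    exact pow_le_pow_left₀ (abs_nonneg _) (hfb u hu) 2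
  have i2 : Integrable (fun u => k u ^ 2) μ := by
    refine integrableOn_bdd _ (hkm.pow_const 2) n n' ((|M| * Real.exp (n' / 2)) ^ 2) ?_
    intro u hu
    rw [abs_pow]
    exact pow_le_pow_left₀ (abs_nonneg _) (hkb u hu) 2
  have i3 : Integrable (fun u => f u * k u) μ := by
    refine integrableOn_bdd (fun u => f u * k u) (hfm.mul hkm) n n'
      (((Real.exp n' + 1) * Real.exp (-n / 2)) * (|M| * Real.exp (n' / 2))) ?_
    intro u hu
    rw [abs_mul]
    exact mul_le_mul (hfb u hu) (hkb u hu) (abs_nonneg _) (by positivity)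
  have hcs := cs_sq μ f k i1 i2 i3
  have e1 : ∀ u, f u ^ 2 = g δ u ^ 2 * Real.exp (-u) := by
    intro u
    rw [hf]; simp only
    rw [mul_pow, sq_abs, ← Real.exp_nat_mul]
    congr 2; push_cast; ring
  have e2 : ∀ u, k u ^ 2 = ‖F u‖ ^ 2 * Real.exp u := by
    intro u
    rw [hk]; simp only
    rw [mul_pow, ← Real.exp_nat_mul]
    congr 2; push_cast; ring
  have e3 : ∀ u, ‖(g δ u : ℂ) * F u‖ = f u * k u := by
    intro u
    rw [hf, hk]; simp only
    rw [norm_mul, Complex.norm_real, Real.norm_eq_abs]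
    have : Real.exp (-u / 2) * Real.exp (u / 2) = 1 := by
      rw [← Real.exp_add, ← Real.exp_zero]; congr 1; ring
    linear_combination (-(|g δ u| * ‖F u‖)) * this
  simp_rw [e1, e2] at hcs
  have h4 : ‖∫ u in Ioc n n', (g δ u : ℂ) * F u‖ ≤ ∫ u, f u * k u ∂μ := by
    refine (norm_integral_le_integral_norm _).trans (le_of_eq ?_)
    exact integral_congr_ae (Filter.Eventually.of_forall fun u => e3 u)
  exact (pow_le_pow_left₀ (norm_nonneg _) h4 2).trans hcs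

/-- splitting of the pairing integral -/
theorem split_int (δ n n' : ℝ) (hδ0 : 0 < δ) (hδ1 : δ ≤ 1) (hn : 0 ≤ n) (hnn : n ≤ n') (F : ℝ → ℂ)
    (hF : Integrable (fun u : ℝ => (g δ u : ℂ) * F u)) :
    ∫ u : ℝ, (g δ u : ℂ) * F u = (∫ u in Ioc (-1 : ℝ) n, (g δ u : ℂ) * F u) +
      (∫ u in Ioc n n', (g δ u : ℂ) * F u) + ∫ u in Ioi n', (g δ u : ℂ) * F u := by
  set G : ℝ → ℂ := fun u => (g δ u : ℂ) * F u with hG
  have h0 : ∫ u in Iic (-1 : ℝ), G u = 0 := by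
    rw [setIntegral_eq_zero_of_forall_eq_zero]
    intro u hu
    simp only [hG]
    rw [g_eq_zero δ u hδ0 hδ1 hu]; simp
  have h1 : ∫ u : ℝ, G u = (∫ u in Iic (-1 : ℝ), G u) + ∫ u in Ioi (-1 : ℝ), G u :=
    (intervalIntegral.integral_Iic_add_Ioi hF.integrableOn hF.integrableOn).symm
  have h2 : ∫ u in Ioi (-1 : ℝ), G u = (∫ u in Ioc (-1 : ℝ) n, G u) + ∫ u in Ioi n, G u := by
    rw [← Ioc_union_Ioi_eq_Ioi (show (-1 : ℝ) ≤ n by linarith only [hn])]
    exact setIntegral_union (Ioc_disjoint_Ioi le_rfl) measurableSet_Ioi hF.integrableOn hF.integrableOn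
  have h3 : ∫ u in Ioi n, G u = (∫ u in Ioc n n', G u) + ∫ u in Ioi n', G u := by
    rw [← Ioc_union_Ioi_eq_Ioi hnn]
    exact setIntegral_union (Ioc_disjoint_Ioi le_rfl) measurableSet_Ioi hF.integrableOn hF.integrableOn
  rw [h1, h0, h2, h3]
  ring

end Pool.Agent.H14.CO

end

section

/-!
# CO module Rel: the relation between the window function and a zero
-/

set_option autoImplicit false

namespace Pool.Agent.H14.CO

open Set MeasureTheory Complex Pool.Agent.H95.GC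

/-- the cut-off attached to `ρ`. -/
noncomputable def Rel_Phi (h ν : ℝ) (ρ : ℂ) (r : ℝ) : ℂ :=
  vc h (ν - r) + vd h (ν - r) / (ρ - 1)

theorem Rel_continuous_Phi (h ν : ℝ) (hh : 0 < h) (ρ : ℂ) : Continuous (Rel_Phi h ν ρ) := by
  unfold Rel_Phi
  have h1 := continuous_vc h hh
  have h2 := continuous_vd h hh
  fun_prop

theorem Rel_one_le_norm (ρ : ℂ) (h : 1 ≤ |ρ.im|) : 1 ≤ ‖ρ - 1‖ := by
  have h1 : |(ρ - 1).im| ≤ ‖ρ - 1‖ := Complex.abs_im_le_norm _
  have h2 : (ρ - 1).im = ρ.im := by simp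
  rw [h2] at h1
  linarith only [h, h1]

/-- `Φ` is small for `r → +∞`. -/
theorem Rel_Phi_bound : ∃ C : ℝ, 0 < C ∧ ∀ h ν : ℝ, 1 ≤ h → ∀ ρ : ℂ, 1 ≤ |ρ.im| → ∀ r : ℝ,
    ‖Rel_Phi h ν ρ r‖ ≤ C * Real.exp (3 * (ν - r) + 96 * h) := by
  obtain ⟨C1, hC1, h1⟩ := vc_bound 3 (by norm_num)
  obtain ⟨C2, hC2, h2⟩ := vd_bound 3
  refine ⟨C1 + C2, by positivity, fun h ν hh ρ hρ r => ?_⟩
  have h3 := h1 h (ν - r) hh
  have h4 := h2 h (ν - r) hh
  have h5 := Rel_one_le_norm ρ hρ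
  have e1 : (32 : ℝ) * h * 3 = 96 * h := by ring
  have e2 : (32 : ℝ) * h * |(3 : ℝ)| = 96 * h := by rw [abs_of_pos (by norm_num : (0:ℝ) < 3)]; ring
  rw [e1] at h3
  rw [e2] at h4
  unfold Rel_Phi
  calc ‖vc h (ν - r) + vd h (ν - r) / (ρ - 1)‖
      ≤ ‖vc h (ν - r)‖ + ‖vd h (ν - r) / (ρ - 1)‖ := norm_add_le _ _
    _ ≤ ‖vc h (ν - r)‖ + ‖vd h (ν - r)‖ := by
        rw [norm_div]
        gcongr
        exact div_le_self (norm_nonneg _) h5
    _ ≤ _ := by rw [add_mul]; exact add_le_add h3 h4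

/-- `Φ` is near one for `r → -∞`. -/
theorem Rel_Phi_bound' (B : ℝ) (hB : 1 ≤ B) : ∃ C : ℝ, 0 < C ∧ ∀ h ν : ℝ, 1 ≤ h → ∀ ρ : ℂ,
    1 ≤ |ρ.im| → ∀ r : ℝ,
    ‖Rel_Phi h ν ρ r - 1‖ ≤ C * Real.exp (-B * (ν - r) + 32 * h * B) := by
  obtain ⟨C1, hC1, h1⟩ := vc_bound' B (by linarith only [hB])
  obtain ⟨C2, hC2, h2⟩ := vd_bound (-B)
  refine ⟨C1 + C2, by positivity, fun h ν hh ρ hρ r => ?_⟩
  have h3 := h1 h (ν - r) hh
  have h4 := h2 h (ν - r) hh
  have h5 := Rel_one_le_norm ρ hρ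
  have e2 : |(-B : ℝ)| = B := by rw [abs_neg, abs_of_pos (by linarith only [hB])]
  rw [e2] at h4
  unfold Rel_Phi
  calc ‖vc h (ν - r) + vd h (ν - r) / (ρ - 1) - 1‖
      = ‖-(1 - vc h (ν - r)) + vd h (ν - r) / (ρ - 1)‖ := by congr 1; ring
    _ ≤ ‖-(1 - vc h (ν - r))‖ + ‖vd h (ν - r) / (ρ - 1)‖ := norm_add_le _ _
    _ ≤ ‖1 - vc h (ν - r)‖ + ‖vd h (ν - r)‖ := by
        rw [norm_div, norm_neg]
        gcongr
        exact div_le_self (norm_nonneg _) h5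
    _ ≤ _ := by rw [add_mul]; exact add_le_add h3 h4

/-- the majorant of one term, as a function of `u`. -/
noncomputable def Rel_maj (u : ℝ) : ℝ := (Ioi (-1 : ℝ)).indicator (fun u => Real.exp (-u)) u

theorem Rel_maj_nonneg (u : ℝ) : 0 ≤ Rel_maj u := by
  unfold Rel_maj
  apply indicator_nonneg
  intro x _
  positivity

theorem Rel_integrable_maj : Integrable Rel_maj := by
  unfold Rel_maj
  rw [integrable_indicator_iff measurableSet_Ioi]
  exact integrableOn_exp_neg_Ioi (-1)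

/-- the terms. -/
noncomputable def Rel_F (δ h ν : ℝ) (ρ : ℂ) (l : ℕ) (u : ℝ) : ℂ :=
  (g δ u : ℂ) * (Complex.exp (-ρ * ((u + Real.log (l + 1 : ℕ) : ℝ) : ℂ)) *
    Rel_Phi h ν ρ (u + Real.log (l + 1 : ℕ)))

theorem Rel_log_nonneg (l : ℕ) : 0 ≤ Real.log (l + 1 : ℕ) := Real.log_natCast_nonneg _

theorem Rel_exp_log (l : ℕ) : Real.exp (-3 * Real.log (l + 1 : ℕ)) = 1 / ((l + 1 : ℕ) : ℝ) ^ 3 := by
  have h1 : (0 : ℝ) < ((l + 1 : ℕ) : ℝ) := by positivity
  rw [show (-3 : ℝ) * Real.log (l + 1 : ℕ) = -(3 * Real.log (l + 1 : ℕ)) by ring, Real.exp_neg,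
    show (3 : ℝ) * Real.log (l + 1 : ℕ) = ((3 : ℕ) : ℝ) * Real.log (l + 1 : ℕ) by norm_num,
    Real.exp_nat_mul, Real.exp_log h1, one_div]

theorem Rel_F_bound (δ h ν : ℝ) (ρ : ℂ) (hδ0 : 0 < δ) (hδ1 : δ ≤ 1 / 2) (h0 : 1 / 2 ≤ ρ.re)
    (h1 : ρ.re < 1) (C : ℝ) (hC : 0 < C)
    (hb : ∀ r : ℝ, ‖Rel_Phi h ν ρ r‖ ≤ C * Real.exp (3 * (ν - r) + 96 * h)) (l : ℕ) (u : ℝ) :
    ‖Rel_F δ h ν ρ l u‖ ≤ ((1 + Real.exp 1) * Real.exp 1 * Real.exp 1 *
      (C * Real.exp (3 * ν + 96 * h))) * (1 / ((l + 1 : ℕ) : ℝ) ^ 3) * Rel_maj u := by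
  by_cases hu : u ≤ -1
  · unfold Rel_F
    rw [g_eq_zero δ u hδ0 (by linarith only [hδ0, hδ1]) hu]
    have := Rel_maj_nonneg u
    simp only [Complex.ofReal_zero, zero_mul, norm_zero]
    positivity
  · rw [not_le] at hu
    have hm : Rel_maj u = Real.exp (-u) := by
      unfold Rel_maj
      rw [indicator_of_mem (show u ∈ Ioi (-1 : ℝ) from hu)]
    rw [hm]
    set k := Real.log (l + 1 : ℕ) with hk
    have hk0 : 0 ≤ k := Rel_log_nonneg l
    have hg : |g δ u| ≤ (1 + Real.exp 1) * Real.exp u := by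
      have h2 := abs_g_le δ u hδ0 (by linarith only [hδ0, hδ1])
      have h3 : 1 ≤ Real.exp 1 * Real.exp u := by
        rw [← Real.exp_add]; exact Real.one_le_exp (by linarith only [hu])
      nlinarith only [h2, h3]
    have he : ‖Complex.exp (-ρ * ((u + k : ℝ) : ℂ))‖ ≤ Real.exp 1 := by
      rw [Complex.norm_exp]
      have h2 : (-ρ * ((u + k : ℝ) : ℂ)).re = -ρ.re * (u + k) := by
        rw [Complex.mul_re, Complex.ofReal_re, Complex.ofReal_im]
        simp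
      rw [h2]
      apply Real.exp_le_exp.2
      nlinarith only [h1, hk0, hδ0, hu, hδ1, h0]
    have hp := hb (u + k)
    unfold Rel_F
    rw [norm_mul, norm_mul, Complex.norm_real, Real.norm_eq_abs]
    calc |g δ u| * (‖Complex.exp (-ρ * ((u + k : ℝ) : ℂ))‖ * ‖Rel_Phi h ν ρ (u + k)‖)
        ≤ ((1 + Real.exp 1) * Real.exp u) * (Real.exp 1 *
            (C * Real.exp (3 * (ν - (u + k)) + 96 * h))) := by gcongr
      _ = ((1 + Real.exp 1) * Real.exp 1) * C * (Real.exp u *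
            Real.exp (3 * (ν - (u + k)) + 96 * h)) := by ring
      _ = ((1 + Real.exp 1) * Real.exp 1) * C * (Real.exp (3 * ν + 96 * h) * Real.exp (-3 * k) *
            Real.exp (-u) * Real.exp (-u)) := by
          congr 1
          rw [← Real.exp_add, ← Real.exp_add, ← Real.exp_add, ← Real.exp_add]
          congr 1
          ring
      _ ≤ ((1 + Real.exp 1) * Real.exp 1) * C * (Real.exp (3 * ν + 96 * h) * Real.exp (-3 * k) *
            Real.exp 1 * Real.exp (-u)) := by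
          gcongr
          linarith only [hu]
      _ = _ := by rw [hk, Rel_exp_log]; ring

theorem Rel_F_measurable (δ h ν : ℝ) (hh : 0 < h) (ρ : ℂ) (l : ℕ) :
    Measurable (Rel_F δ h ν ρ l) := by
  unfold Rel_F
  have h1 := measurable_g δ
  have h2 := (Rel_continuous_Phi h ν hh ρ).measurable
  have h3 : Measurable (fun u : ℝ => Complex.exp (-ρ * ((u + Real.log (l + 1 : ℕ) : ℝ) : ℂ))) := by
    have : Continuous (fun u : ℝ => Complex.exp (-ρ * ((u + Real.log (l + 1 : ℕ) : ℝ) : ℂ))) := by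
      fun_prop
    exact this.measurable
  exact (Complex.measurable_ofReal.comp h1).mul (h3.mul (h2.comp (by fun_prop)))

theorem Rel_summable_cube : Summable (fun l : ℕ => 1 / ((l + 1 : ℕ) : ℝ) ^ 3) := by
  have h := (Real.summable_one_div_nat_pow (p := 3)).2 (by norm_num)
  exact (summable_nat_add_iff 1).2 h

theorem Rel_pointwise_F (δ h ν : ℝ) (hh : 0 < h) (ρ : ℂ) (h0 : 1 / 2 ≤ ρ.re)
    (h1 : ρ.re < 1) (u : ℝ) :
    ∑' l : ℕ, Rel_F δ h ν ρ l u = (g δ u : ℂ) * Complex.exp (-ρ * u) * az h (ν - u) ρ := by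
  rw [az_series h (ν - u) hh ρ h0 h1, ← tsum_mul_left]
  apply tsum_congr
  intro l
  unfold Rel_F Rel_Phi
  have e1 : Complex.exp (-ρ * ((u + Real.log (l + 1 : ℕ) : ℝ) : ℂ))
      = Complex.exp (-ρ * u) * ((l + 1 : ℕ) : ℂ) ^ (-ρ) := by
    rw [Complex.cpow_def_of_ne_zero (by exact_mod_cast Nat.succ_ne_zero l), ← Complex.exp_add]
    congr 1
    have e0 : Complex.log ((l + 1 : ℕ) : ℂ) = ((Real.log ((l + 1 : ℕ) : ℝ) : ℝ) : ℂ) :=
      (Complex.natCast_log (n := l + 1)).symm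
    rw [e0]
    push_cast
    ring
  rw [e1, sub_sub]
  ring

/-- the sum of the shifted window functions. -/
theorem Rel_sum_g (δ r : ℝ) (hδ0 : 0 < δ) (hδ1 : δ ≤ 1 / 2) :
    HasSum (fun l : ℕ => g δ (r - Real.log (l + 1 : ℕ)))
      (if |1 - Real.exp r| < δ * Real.exp r / 2 then 1 else 0) := by
  obtain ⟨K, hK⟩ := exists_nat_ge (3 * Real.exp r / 2)
  have hw := window_identity δ (Real.exp r) hδ0 (by linarith only [hδ0, hδ1]) (Real.exp_pos r) K hK
  have hg : ∀ l : ℕ, g δ (r - Real.log (l + 1 : ℕ))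
      = M (Real.exp r / (l + 1 : ℕ)) (δ * (Real.exp r / (l + 1 : ℕ))) := by
    intro l
    unfold g
    rw [Real.exp_sub, Real.exp_log (by positivity)]
  have hs : ∑ k ∈ Finset.Icc 1 K, M (Real.exp r / k) (δ * (Real.exp r / k))
      = ∑ l ∈ Finset.range K, g δ (r - Real.log (l + 1 : ℕ)) := by
    rw [Finset.range_eq_Ico, Finset.sum_Ico_add' (fun k : ℕ => g δ (r - Real.log (k : ℕ))) 0 K 1]
    apply Finset.sum_congr
    · ext k; simp only [Finset.mem_Icc, Finset.mem_Ico]; omega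
    · intro k hk
      have hk1 : 1 ≤ k := by
        have := Finset.mem_Ico.1 hk
        omega
      obtain ⟨l, rfl⟩ : ∃ l, k = l + 1 := ⟨k - 1, by omega⟩
      rw [hg]
  rw [← hw, hs]
  apply hasSum_sum_of_ne_finset_zero
  intro l hl
  rw [hg]
  have hl' : K ≤ l := by
    by_contra hc
    exact hl (Finset.mem_range.2 (by omega))
  have h1 : (K : ℝ) < ((l + 1 : ℕ) : ℝ) := by exact_mod_cast Nat.lt_succ_of_le hl'
  have h2 : (0 : ℝ) < ((l + 1 : ℕ) : ℝ) := by positivity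
  apply M_eq_zero _ _ hδ0 (by linarith only [hδ0, hδ1]) (by positivity)
  rw [div_le_iff₀ h2]
  linarith only [hK, h1]

theorem Rel_norm_integral_le (f : ℝ → ℂ) (a b K : ℝ) (hab : a ≤ b)
    (hb : ∀ x ∈ Ioo a b, ‖f x‖ ≤ K) : ‖∫ x in Ioo a b, f x‖ ≤ K * (b - a) := by
  have h := norm_setIntegral_le_of_norm_le_const (μ := volume) (s := Ioo a b) (f := f) (C := K)
    (by simp) hb
  simpa [Measure.real, Real.volume_Ioo, ENNReal.toReal_ofReal (sub_nonneg.2 hab)] using h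

theorem rel (B : ℝ) (hB : 1 ≤ B) : ∃ C : ℝ, 0 < C ∧ ∀ h ν δ : ℝ, 1 ≤ h → 0 < δ → δ ≤ 1 / 2 →
    ∀ ρ : ℂ, 1 / 2 ≤ ρ.re → ρ.re < 1 → 1 ≤ |ρ.im| →
    Integrable (fun u : ℝ => (g δ u : ℂ) * Complex.exp (-ρ * u) * az h (ν - u) ρ) ∧
    ‖(∫ u : ℝ, (g δ u : ℂ) * Complex.exp (-ρ * u) * az h (ν - u) ρ) -
      ∫ v in Ioo (-Real.log (1 + δ / 2)) (-Real.log (1 - δ / 2)), Complex.exp (-ρ * v)‖
      ≤ C * δ * Real.exp (-B * ν + 32 * h * B) := by
  obtain ⟨C1, hC1, hb1⟩ := Rel_Phi_bound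
  obtain ⟨C2, hC2, hb2⟩ := Rel_Phi_bound' B hB
  refine ⟨4 * C2 * Real.exp (B / 2), by positivity, ?_⟩
  intro h ν δ hh hδ0 hδ1 ρ h0 h1 him
  have hh0 : 0 < h := by linarith only [hh, hδ0, hδ1]
  set K1 : ℝ := (1 + Real.exp 1) * Real.exp 1 * Real.exp 1 *
      (C1 * Real.exp (3 * ν + 96 * h)) with hK1
  have hK1p : 0 ≤ K1 := by positivity
  have hKs : Summable (fun l : ℕ => K1 * (1 / ((l + 1 : ℕ) : ℝ) ^ 3)) := Summable.mul_left K1 Rel_summable_cube
  have hFb : ∀ l u, ‖Rel_F δ h ν ρ l u‖ ≤ K1 * (1 / ((l + 1 : ℕ) : ℝ) ^ 3) * Rel_maj u := fun l u =>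
    Rel_F_bound δ h ν ρ hδ0 hδ1 h0 h1 C1 hC1 (fun r => hb1 h ν hh ρ him r) l u
  have hFi : ∀ l, Integrable (Rel_F δ h ν ρ l) := fun l =>
    (Rel_integrable_maj.const_mul (K1 * (1 / ((l + 1 : ℕ) : ℝ) ^ 3))).mono'
      (Rel_F_measurable δ h ν hh0 ρ l).aestronglyMeasurable (Filter.Eventually.of_forall (hFb l))
  have hFn : ∀ l, ∫ u, ‖Rel_F δ h ν ρ l u‖ ≤
      K1 * (1 / ((l + 1 : ℕ) : ℝ) ^ 3) * ∫ u, Rel_maj u := by
    intro l
    rw [← integral_const_mul]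
    exact integral_mono (hFi l).norm (Rel_integrable_maj.const_mul _) (hFb l)
  have hFs : Summable (fun l => ∫ u, ‖Rel_F δ h ν ρ l u‖) := by
    refine Summable.of_nonneg_of_le (fun l => integral_nonneg fun u => norm_nonneg _) hFn ?_
    exact hKs.mul_right _
  -- integrability of the sum
  have haz : Continuous (fun r : ℝ => az h r ρ) :=
    continuous_iff_continuousAt.2 fun r => (az_deriv h hh0 ρ r).continuousAt
  have hsumF : ∀ u, Summable (fun l => Rel_F δ h ν ρ l u) := by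
    intro u
    refine Summable.of_norm_bounded ?_ (fun l => hFb l u)
    exact hKs.mul_right _
  have hint : Integrable (fun u : ℝ => (g δ u : ℂ) * Complex.exp (-ρ * u) * az h (ν - u) ρ) := by
    have hm : Measurable (fun u : ℝ => (g δ u : ℂ) * Complex.exp (-ρ * u) * az h (ν - u) ρ) := by
      have m1 := Complex.measurable_ofReal.comp (measurable_g δ)
      have m2 : Measurable (fun u : ℝ => Complex.exp (-ρ * u)) := by
        have : Continuous (fun u : ℝ => Complex.exp (-ρ * u)) := by fun_prop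
        exact this.measurable
      have m3 : Measurable (fun u : ℝ => az h (ν - u) ρ) := by
        have : Continuous (fun u : ℝ => az h (ν - u) ρ) := by
          exact haz.comp (by fun_prop : Continuous (fun u : ℝ => ν - u))
        exact this.measurable
      exact (m1.mul m2).mul m3
    refine (Rel_integrable_maj.const_mul (K1 * ∑' l : ℕ, 1 / ((l + 1 : ℕ) : ℝ) ^ 3)).mono'
      hm.aestronglyMeasurable (Filter.Eventually.of_forall fun u => ?_)
    rw [← Rel_pointwise_F δ h ν hh0 ρ h0 h1 u]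
    refine (norm_tsum_le_tsum_norm (hsumF u).norm).trans ?_
    calc ∑' l, ‖Rel_F δ h ν ρ l u‖ ≤ ∑' l : ℕ, K1 * (1 / ((l + 1 : ℕ) : ℝ) ^ 3) * Rel_maj u := by
          exact (hsumF u).norm.tsum_le_tsum (fun l => hFb l u)
            (hKs.mul_right _)
      _ = _ := by rw [tsum_mul_right, tsum_mul_left]
  refine ⟨hint, ?_⟩
  -- the main identity
  have hI1 : ∫ u : ℝ, (g δ u : ℂ) * Complex.exp (-ρ * u) * az h (ν - u) ρ
      = ∑' l, ∫ u, Rel_F δ h ν ρ l u := by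
    rw [integral_tsum_of_summable_integral_norm hFi hFs]
    apply integral_congr_ae
    filter_upwards with u
    rw [Rel_pointwise_F δ h ν hh0 ρ h0 h1 u]
  have hH : ∀ l r, Rel_F δ h ν ρ l (r - Real.log (l + 1 : ℕ))
      = (g δ (r - Real.log (l + 1 : ℕ)) : ℂ) * (Complex.exp (-ρ * r) * Rel_Phi h ν ρ r) := by
    intro l r
    unfold Rel_F
    rw [sub_add_cancel]
  have hI2 : ∑' l, ∫ u, Rel_F δ h ν ρ l u
      = ∫ r, ∑' l : ℕ, Rel_F δ h ν ρ l (r - Real.log (l + 1 : ℕ)) := by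
    rw [← integral_tsum_of_summable_integral_norm]
    · apply tsum_congr
      intro l
      exact (integral_sub_right_eq_self (fun u => Rel_F δ h ν ρ l u) _).symm
    · intro l
      exact (hFi l).comp_sub_right _
    · have : ∀ l : ℕ, ∫ r, ‖Rel_F δ h ν ρ l (r - Real.log (l + 1 : ℕ))‖ =
          ∫ u, ‖Rel_F δ h ν ρ l u‖ := fun l =>
        integral_sub_right_eq_self (fun u => ‖Rel_F δ h ν ρ l u‖) _
      simpa only [this] using hFs
  have hI3 : ∀ r, ∑' l : ℕ, Rel_F δ h ν ρ l (r - Real.log (l + 1 : ℕ))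
      = (Ioo (-Real.log (1 + δ / 2)) (-Real.log (1 - δ / 2))).indicator
        (fun r : ℝ => Complex.exp (-ρ * r) * Rel_Phi h ν ρ r) r := by
    intro r
    have hs := Rel_sum_g δ r hδ0 hδ1
    have hs' : ∑' l : ℕ, ((g δ (r - Real.log (l + 1 : ℕ)) : ℝ) : ℂ)
        = ((if |1 - Real.exp r| < δ * Real.exp r / 2 then (1 : ℝ) else 0 : ℝ) : ℂ) := by
      rw [← hs.tsum_eq, Complex.ofReal_tsum]
    have : ∀ l : ℕ, Rel_F δ h ν ρ l (r - Real.log (l + 1 : ℕ))
      = ((g δ (r - Real.log (l + 1 : ℕ)) : ℝ) : ℂ) * (Complex.exp (-ρ * r) * Rel_Phi h ν ρ r) :=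
      fun l => hH l r
    rw [tsum_congr this, tsum_mul_right, hs']
    have hiff : |1 - Real.exp r| < δ * Real.exp r / 2 ↔
        r ∈ Ioo (-Real.log (1 + δ / 2)) (-Real.log (1 - δ / 2)) := by
      have p1 : 0 < 1 + δ / 2 := by positivity
      have p2 : 0 < 1 - δ / 2 := by linarith only [hδ0, hδ1]
      rw [abs_lt, mem_Ioo, ← Real.log_inv, ← Real.log_inv,
        Real.log_lt_iff_lt_exp (by positivity), Real.lt_log_iff_exp_lt (by positivity)]
      constructor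
      · rintro ⟨a1, a2⟩
        constructor
        · rw [inv_lt_iff_one_lt_mul₀ p1]; linarith only [a2]
        · rw [lt_inv_comm₀ (Real.exp_pos r) p2, ← one_div, lt_div_iff₀ (Real.exp_pos r)]
          linarith only [a1]
      · rintro ⟨a1, a2⟩
        rw [inv_lt_iff_one_lt_mul₀ p1] at a1
        rw [lt_inv_comm₀ (Real.exp_pos r) p2, ← one_div, lt_div_iff₀ (Real.exp_pos r)] at a2
        constructor <;> linarith only [a2, a1]
    by_cases hc : |1 - Real.exp r| < δ * Real.exp r / 2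
    · rw [if_pos hc, indicator_of_mem (hiff.1 hc)]
      simp
    · rw [if_neg hc, indicator_of_notMem (fun hm => hc (hiff.2 hm))]
      simp
  rw [hI1, hI2]
  simp_rw [hI3]
  rw [integral_indicator measurableSet_Ioo]
  -- the error
  have l1 : Real.log (1 + δ / 2) ≤ δ / 2 := by
    have := Real.log_le_sub_one_of_pos (show 0 < 1 + δ / 2 by positivity)
    linarith only [this]
  have l2 : -Real.log (1 - δ / 2) ≤ δ := by
    have p2 : 0 < 1 - δ / 2 := by linarith only [hδ0, hδ1]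
    have := Real.log_le_sub_one_of_pos (inv_pos.2 p2)
    rw [Real.log_inv] at this
    have h3 : (1 - δ / 2)⁻¹ ≤ 1 + δ := by
      rw [inv_le_iff_one_le_mul₀ p2]
      nlinarith only [hδ0, hδ1]
    linarith only [this, h3]
  have l3 : 0 ≤ Real.log (1 + δ / 2) := Real.log_nonneg (by linarith only [hδ0])
  have l4 : Real.log (1 - δ / 2) ≤ 0 := Real.log_nonpos (by linarith only [hδ0, hδ1]) (by linarith only [hδ0])
  have hcont1 : Continuous (fun r : ℝ => Complex.exp (-ρ * r) * Rel_Phi h ν ρ r) := by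
    have := Rel_continuous_Phi h ν hh0 ρ
    fun_prop
  have hcont2 : Continuous (fun r : ℝ => Complex.exp (-ρ * r)) := by fun_prop
  rw [← integral_sub (hcont1.integrableOn_Icc.mono_set Ioo_subset_Icc_self)
    (hcont2.integrableOn_Icc.mono_set Ioo_subset_Icc_self)]
  have hfin := Rel_norm_integral_le
    (fun r : ℝ => Complex.exp (-ρ * r) * Rel_Phi h ν ρ r - Complex.exp (-ρ * r))
    (-Real.log (1 + δ / 2)) (-Real.log (1 - δ / 2))
    (2 * (C2 * (Real.exp (B / 2) * Real.exp (-B * ν + 32 * h * B))))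
    (by linarith only [l3, l4]) (by
      intro r hr
      have hr1 : |r| ≤ 1 / 2 := by
        rw [abs_le]
        constructor
        · linarith only [hδ0, hδ1, l1, hr, hr.1]
        · linarith only [hδ1, l2, hr, hr.2]
      have e1 : Complex.exp (-ρ * r) * Rel_Phi h ν ρ r - Complex.exp (-ρ * r)
          = Complex.exp (-ρ * r) * (Rel_Phi h ν ρ r - 1) := by ring
      have e2 : ‖Complex.exp (-ρ * (r : ℂ))‖ ≤ 2 := by
        rw [Complex.norm_exp]
        have h2 : (-ρ * ((r : ℝ) : ℂ)).re = -ρ.re * r := by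
          rw [Complex.mul_re, Complex.ofReal_re, Complex.ofReal_im]
          simp
        rw [h2]
        have h3 : -ρ.re * r ≤ 1 / 2 := by
          have := (abs_le.1 hr1).1
          nlinarith only [h1, this, hδ0, hδ1, h0]
        calc Real.exp (-ρ.re * r) ≤ Real.exp (1 / 2) := Real.exp_le_exp.2 h3
          _ ≤ 2 := by
            have h4 : Real.exp (1 / 2) * Real.exp (1 / 2) = Real.exp 1 := by
              rw [← Real.exp_add]; norm_num
            have h5 := Real.exp_one_lt_d9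
            have h6 := Real.exp_pos (1 / 2)
            nlinarith only [h4, h5, hδ0, hδ1, h6]
      have e3 := hb2 h ν hh ρ him r
      have e4 : Real.exp (-B * (ν - r) + 32 * h * B)
          ≤ Real.exp (B / 2) * Real.exp (-B * ν + 32 * h * B) := by
        rw [← Real.exp_add]
        apply Real.exp_le_exp.2
        have := (abs_le.1 hr1).2
        nlinarith only [this, hB]
      rw [e1, norm_mul]
      calc ‖Complex.exp (-ρ * (r : ℂ))‖ * ‖Rel_Phi h ν ρ r - 1‖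
          ≤ 2 * (C2 * Real.exp (-B * (ν - r) + 32 * h * B)) := by gcongr
        _ ≤ _ := by gcongr)
  refine hfin.trans ?_
  have h9 : -Real.log (1 - δ / 2) - -Real.log (1 + δ / 2) ≤ 2 * δ := by linarith only [hδ0, l1, l2]
  calc 2 * (C2 * (Real.exp (B / 2) * Real.exp (-B * ν + 32 * h * B))) *
        (-Real.log (1 - δ / 2) - -Real.log (1 + δ / 2))
      ≤ 2 * (C2 * (Real.exp (B / 2) * Real.exp (-B * ν + 32 * h * B))) * (2 * δ) := by gcongr
    _ = _ := by ring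

end Pool.Agent.H14.CO

end

section

/-!
# CO: pairing the window function with the test function
-/

set_option autoImplicit false

namespace Pool.Agent.H14.CO

open Set MeasureTheory Complex Pool.Agent.H95.GC

/-- the local factor at a zero -/
noncomputable def Wt (δ : ℝ) (ρ : ℂ) : ℂ :=
  ∫ v in Ioo (-Real.log (1 + δ / 2)) (-Real.log (1 - δ / 2)), Complex.exp (-ρ * v)

theorem cpow_norm_half (m : ℕ) (hm : 1 ≤ m) (s : ℂ) (hs : 0 ≤ s.re) : ‖(m : ℂ) ^ (-s)‖ ≤ 1 := by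
  have hm0 : (0 : ℝ) < m := by exact_mod_cast hm
  have h1 : ((m : ℝ) : ℂ) = (m : ℂ) := by simp
  rw [← h1, Complex.norm_cpow_eq_rpow_re_of_pos hm0, neg_re]
  exact Real.rpow_le_one_of_one_le_of_nonpos (by exact_mod_cast hm) (by linarith only [hs])

theorem card_le (z₀ : ℝ) (hz : 1 < z₀) : ((Finset.Icc 1 ⌊z₀ ^ 2⌋₊).card : ℝ) ≤ z₀ ^ 2 := by
  rw [Nat.card_Icc, Nat.add_sub_cancel]
  exact Nat.floor_le (by positivity)

theorem pair_one (B : ℝ) (hB : 1 ≤ B) : ∃ C : ℝ, 0 < C ∧ ∀ z₀ h ν δ : ℝ, 1 < z₀ → 1 ≤ h →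
    0 < δ → δ ≤ 1 / 2 → ∀ s ρ : ℂ, 0 ≤ s.re → 1 / 2 ≤ ρ.re → ρ.re < 1 → 1 ≤ |ρ.im| →
    Integrable (fun u : ℝ => (g δ u : ℂ) * (Complex.exp (-ρ * u) * Am z₀ h ν s ρ u)) ∧
    ‖(∫ u : ℝ, (g δ u : ℂ) * (Complex.exp (-ρ * u) * Am z₀ h ν s ρ u)) - Mo z₀ s * Wt δ ρ‖
      ≤ C * z₀ ^ 2 * δ * Real.exp (-B * (ν - 2 * Real.log z₀) + 32 * h * B) := by
  obtain ⟨C, hC, hrel⟩ := rel B hB
  refine ⟨C, hC, ?_⟩
  intro z₀ h ν δ hz hh hδ0 hδ1 s ρ hs hρ0 hρ1 hρ2
  have hz0 : 0 < z₀ := by linarith only [hz, hδ0, hδ1]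
  have hlz : 0 < Real.log z₀ := Real.log_pos hz
  set S := Finset.Icc 1 ⌊z₀ ^ 2⌋₊ with hS
  have hlog : ∀ m ∈ S, Real.log m ≤ 2 * Real.log z₀ := by
    intro m hm
    rw [hS, Finset.mem_Icc] at hm
    have hm0 : (0 : ℝ) < m := by exact_mod_cast hm.1
    have h1 : (m : ℝ) ≤ z₀ ^ 2 := (Nat.le_floor_iff (by positivity)).1 hm.2
    calc Real.log m ≤ Real.log (z₀ ^ 2) := Real.log_le_log hm0 h1
      _ = 2 * Real.log z₀ := by rw [Real.log_pow]; norm_num
  have hr : ∀ m ∈ S, Integrable (fun u : ℝ => (g δ u : ℂ) * Complex.exp (-ρ * u) *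
        az h (ν - Real.log m - u) ρ) ∧
      ‖(∫ u : ℝ, (g δ u : ℂ) * Complex.exp (-ρ * u) * az h (ν - Real.log m - u) ρ) - Wt δ ρ‖
        ≤ C * δ * Real.exp (-B * (ν - 2 * Real.log z₀) + 32 * h * B) := by
    intro m hm
    obtain ⟨h1, h2⟩ := hrel h (ν - Real.log m) δ hh hδ0 hδ1 ρ hρ0 hρ1 hρ2
    refine ⟨h1, h2.trans ?_⟩
    apply mul_le_mul_of_nonneg_left _ (by positivity)
    apply Real.exp_le_exp.2
    have := hlog m hm
    nlinarith only [this, hB]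
  have hpt : ∀ u : ℝ, (g δ u : ℂ) * (Complex.exp (-ρ * u) * Am z₀ h ν s ρ u) =
      ∑ m ∈ S, (lam z₀ m : ℂ) * (m : ℂ) ^ (-s) * ((g δ u : ℂ) * Complex.exp (-ρ * u) *
        az h (ν - Real.log m - u) ρ) := by
    intro u
    rw [Am, Finset.mul_sum, Finset.mul_sum]
    refine Finset.sum_congr rfl fun m _ => ?_
    have : ν - u - Real.log m = ν - Real.log m - u := by ring
    rw [this]; ring
  have hfun : (fun u : ℝ => (g δ u : ℂ) * (Complex.exp (-ρ * u) * Am z₀ h ν s ρ u)) =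
      fun u => ∑ m ∈ S, (lam z₀ m : ℂ) * (m : ℂ) ^ (-s) * ((g δ u : ℂ) * Complex.exp (-ρ * u) *
        az h (ν - Real.log m - u) ρ) := funext hpt
  constructor
  · rw [hfun]
    exact integrable_finsetSum _ fun m hm => (hr m hm).1.const_mul _
  · rw [hfun, integral_finsetSum _ fun m hm => (hr m hm).1.const_mul _]
    have h1 : Mo z₀ s * Wt δ ρ = ∑ m ∈ S, (lam z₀ m : ℂ) * (m : ℂ) ^ (-s) * Wt δ ρ := by
      rw [Mo, Finset.sum_mul]
    rw [h1, ← Finset.sum_sub_distrib]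
    calc _ ≤ ∑ m ∈ S, C * δ * Real.exp (-B * (ν - 2 * Real.log z₀) + 32 * h * B) := by
          refine (norm_sum_le _ _).trans (Finset.sum_le_sum fun m hm => ?_)
          rw [integral_const_mul, ← mul_sub, norm_mul]
          have hm1 : 1 ≤ m := (Finset.mem_Icc.1 hm).1
          have h2 : ‖(lam z₀ m : ℂ) * (m : ℂ) ^ (-s)‖ ≤ 1 := by
            rw [norm_mul, Complex.norm_real, Real.norm_eq_abs]
            exact mul_le_one₀ (abs_lam_le z₀ hz m) (norm_nonneg _) (cpow_norm_half m hm1 s hs)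
          exact (mul_le_of_le_one_left (norm_nonneg _) h2).trans (hr m hm).2
      _ = (S.card : ℝ) * (C * δ * Real.exp (-B * (ν - 2 * Real.log z₀) + 32 * h * B)) := by
          rw [Finset.sum_const, nsmul_eq_mul]
      _ ≤ z₀ ^ 2 * (C * δ * Real.exp (-B * (ν - 2 * Real.log z₀) + 32 * h * B)) :=
          mul_le_mul_of_nonneg_right (card_le z₀ hz) (by positivity)
      _ = _ := by ring

/-- real part of the local factor -/
theorem Wt_re (δ : ℝ) (hδ0 : 0 < δ) (hδ1 : δ ≤ 1 / 2) (s : ℂ) (hs : ‖s‖ * δ ≤ 1 / 4) :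
    δ / 4 ≤ (Wt δ s).re := by
  have hl1 : 0 ≤ Real.log (1 + δ / 2) := Real.log_nonneg (by linarith only [hδ0])
  have hl2 : Real.log (1 + δ / 2) ≤ δ / 2 := by
    have := Real.log_le_sub_one_of_pos (show 0 < 1 + δ / 2 by linarith only [hδ0, hδ1])
    linarith only [this]
  have hl3 : Real.log (1 - δ / 2) ≤ -(δ / 2) := by
    have := Real.log_le_sub_one_of_pos (show 0 < 1 - δ / 2 by linarith only [hδ0, hδ1])
    linarith only [this]
  have hl4 : -δ ≤ Real.log (1 - δ / 2) := by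
    rw [Real.le_log_iff_exp_le (by linarith only [hδ0, hδ1]), Real.exp_neg]
    have h1 : 1 + δ ≤ Real.exp δ := by
      have := Real.add_one_le_exp δ; linarith only [this]
    have h2 : (Real.exp δ)⁻¹ ≤ (1 + δ)⁻¹ := inv_anti₀ (by linarith only [hδ0, hδ1]) h1
    have h3 : (1 + δ)⁻¹ ≤ 1 - δ / 2 := by
      rw [inv_le_iff_one_le_mul₀ (by linarith only [hδ0, hδ1])]
      nlinarith only [hδ0, hδ1]
    linarith only [h2, h3]
  have hab : -Real.log (1 + δ / 2) ≤ -Real.log (1 - δ / 2) := by linarith only [hδ0, hl1, hl3]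
  have hint : IntegrableOn (fun v : ℝ => Complex.exp (-s * v))
      (Ioo (-Real.log (1 + δ / 2)) (-Real.log (1 - δ / 2))) := by
    apply IntegrableOn.mono_set (t := Icc (-Real.log (1 + δ / 2)) (-Real.log (1 - δ / 2))) _
      Ioo_subset_Icc_self
    exact (by fun_prop : Continuous (fun v : ℝ => Complex.exp (-s * v))).continuousOn.integrableOn_Icc
  have hre : ∀ v ∈ Ioo (-Real.log (1 + δ / 2)) (-Real.log (1 - δ / 2)),
      (1 / 2 : ℝ) ≤ (Complex.exp (-s * v)).re := by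
    intro v hv
    have hv1 : |v| ≤ δ := by
      rw [abs_le]; constructor <;> linarith only [hδ0, hl2, hv, hl4, hv.1, hv.2]
    have h1 : ‖-s * (v : ℂ)‖ ≤ 1 / 4 := by
      rw [norm_mul, norm_neg, Complex.norm_real, Real.norm_eq_abs]
      calc ‖s‖ * |v| ≤ ‖s‖ * δ := mul_le_mul_of_nonneg_left hv1 (norm_nonneg _)
        _ ≤ 1 / 4 := hs
    have h2 : ‖Complex.exp (-s * v) - 1‖ ≤ 2 * ‖-s * (v : ℂ)‖ :=
      Complex.norm_exp_sub_one_le (by linarith only [hδ0, hδ1, h1])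
    have h3 : |(Complex.exp (-s * v) - 1).re| ≤ 1 / 2 :=
      (Complex.abs_re_le_norm _).trans (by linarith only [h1, h2])
    rw [Complex.sub_re, Complex.one_re, abs_le] at h3
    linarith only [h3, h3.1]
  have h4 : (Wt δ s).re = ∫ v in Ioo (-Real.log (1 + δ / 2)) (-Real.log (1 - δ / 2)),
      (Complex.exp (-s * v)).re := by
    exact (integral_re hint).symm
  have h5 : ∫ v in Ioo (-Real.log (1 + δ / 2)) (-Real.log (1 - δ / 2)), (1 / 2 : ℝ)
      ≤ ∫ v in Ioo (-Real.log (1 + δ / 2)) (-Real.log (1 - δ / 2)),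
      (Complex.exp (-s * v)).re := by
    apply setIntegral_mono_on _ hint.re measurableSet_Ioo hre
    apply integrableOn_const (by simp)
  have h6 : ∫ v in Ioo (-Real.log (1 + δ / 2)) (-Real.log (1 - δ / 2)), (1 / 2 : ℝ)
      = (-Real.log (1 - δ / 2) - -Real.log (1 + δ / 2)) * (1 / 2) := by
    rw [setIntegral_const, smul_eq_mul, Measure.real, Real.volume_Ioo,
      ENNReal.toReal_ofReal (by linarith only [hδ0, hl1, hl3])]
  rw [h4]
  linarith only [hl1, hl3, h5, h6]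

end Pool.Agent.H14.CO

end

section

/-!
# CO: the test function outside the window
-/

set_option autoImplicit false

namespace Pool.Agent.H14.CO

open Set MeasureTheory Complex Pool.Agent.H95.GC

theorem norm_Am_le (z₀ h ν : ℝ) (hz : 1 < z₀) (s ρ : ℂ) (hs : 0 ≤ s.re) (u K : ℝ)
    (hK : ∀ r : ℝ, ν - u - 2 * Real.log z₀ ≤ r → r ≤ ν - u → ‖az h r ρ‖ ≤ K) :
    ‖Am z₀ h ν s ρ u‖ ≤ z₀ ^ 2 * K := by
  have hz0 : 0 < z₀ := by linarith
  have hlz : 0 < Real.log z₀ := Real.log_pos hz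
  have hK0 : 0 ≤ K := (norm_nonneg _).trans (hK (ν - u) (by linarith) le_rfl)
  rw [Am]
  calc _ ≤ ∑ m ∈ Finset.Icc 1 ⌊z₀ ^ 2⌋₊, K := by
        refine (norm_sum_le _ _).trans (Finset.sum_le_sum fun m hm => ?_)
        have hm1 : 1 ≤ m := (Finset.mem_Icc.1 hm).1
        have hm0 : (0 : ℝ) < m := by exact_mod_cast hm1
        have h1 : (m : ℝ) ≤ z₀ ^ 2 := (Nat.le_floor_iff (by positivity)).1 (Finset.mem_Icc.1 hm).2
        have h3 : Real.log m ≤ 2 * Real.log z₀ := by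
          calc Real.log m ≤ Real.log (z₀ ^ 2) := Real.log_le_log hm0 h1
            _ = 2 * Real.log z₀ := by rw [Real.log_pow]; norm_num
        have h4 : 0 ≤ Real.log m := Real.log_nonneg (by exact_mod_cast hm1)
        have h2 : ‖(lam z₀ m : ℂ) * (m : ℂ) ^ (-s)‖ ≤ 1 := by
          rw [norm_mul, Complex.norm_real, Real.norm_eq_abs]
          exact mul_le_one₀ (abs_lam_le z₀ hz m) (norm_nonneg _) (cpow_norm_half m hm1 s hs)
        rw [norm_mul]
        exact (mul_le_of_le_one_left (norm_nonneg _) h2).trans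
          (hK _ (by linarith only [h3]) (by linarith only [h4]))
    _ = ((Finset.Icc 1 ⌊z₀ ^ 2⌋₊).card : ℝ) * K := by
        rw [Finset.sum_const, nsmul_eq_mul]
    _ ≤ z₀ ^ 2 * K := mul_le_mul_of_nonneg_right (card_le z₀ hz) hK0

theorem norm_Ft_le (z₀ h ν : ℝ) (hz : 1 < z₀) (n₀ : ℕ) (t : ℕ → ℝ) (ρ : ℕ → ℂ) (u K : ℝ)
    (hu : -1 ≤ u) (hρ : ∀ i < n₀, 1 / 2 ≤ (ρ i).re ∧ (ρ i).re < 1)
    (hK : ∀ i < n₀, ∀ r : ℝ, ν - u - 2 * Real.log z₀ ≤ r → r ≤ ν - u → ‖az h r (ρ i)‖ ≤ K) :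
    ‖Ft z₀ h ν n₀ t ρ u‖ ≤ n₀ * (3 * z₀ ^ 5 * K) := by
  have hz0 : 0 < z₀ := by linarith only [hz]
  rw [Ft]
  calc _ ≤ ∑ i ∈ Finset.range n₀, (3 * z₀ ^ 5 * K) := by
        refine (norm_sum_le _ _).trans (Finset.sum_le_sum fun i hi => ?_)
        have hi' := Finset.mem_range.1 hi
        obtain ⟨h1, h2⟩ := hρ i hi'
        have hA := norm_Am_le z₀ h ν hz (pt 0 (t i)) (ρ i) (by rw [pt_zero_re]; norm_num) u K
          (hK i hi')
        have hM : ‖(starRingEnd ℂ) (Mo z₀ (pt 0 (t i)))‖ ≤ z₀ ^ 3 := by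
          rw [RCLike.norm_conj]
          refine (norm_Mo_le z₀ hz _).trans (le_of_eq ?_)
          rw [pt_zero_re, ← Real.rpow_natCast]
          congr 1
          rw [abs_of_pos (by norm_num : (0 : ℝ) < 1 / 2)]
          norm_num
        have hE : ‖Complex.exp (-ρ i * u)‖ ≤ 3 := by
          rw [Complex.norm_exp]
          have e1 : (-ρ i * (u : ℂ)).re = -((ρ i).re * u) := by
            rw [Complex.mul_re]; simp
          rw [e1]
          have e2 : -((ρ i).re * u) ≤ 1 := by nlinarith only [hu, h2, h1]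
          calc Real.exp (-((ρ i).re * u)) ≤ Real.exp 1 := Real.exp_le_exp.2 e2
            _ ≤ 3 := by linarith only [h1, h2, Real.exp_one_lt_d9]
        rw [norm_mul, norm_mul]
        have hA0 : 0 ≤ z₀ ^ 2 * K := (norm_nonneg _).trans hA
        calc _ ≤ z₀ ^ 3 * (3 * (z₀ ^ 2 * K)) := by
              refine mul_le_mul hM (mul_le_mul hE hA (norm_nonneg _) (by norm_num))
                (by positivity) (by positivity)
          _ = _ := by ring
    _ = _ := by rw [Finset.sum_const, nsmul_eq_mul, Finset.card_range]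

/-- Left part: `-1 ≤ u ≤ n`. -/
theorem left_part (z₀ h ν δ n K : ℝ) (hz : 1 < z₀) (hδ0 : 0 < δ) (hδ1 : δ ≤ 1) (hn : 0 ≤ n)
    (n₀ : ℕ) (t : ℕ → ℝ) (ρ : ℕ → ℂ)
    (hρ : ∀ i < n₀, 1 / 2 ≤ (ρ i).re ∧ (ρ i).re < 1)
    (hK : ∀ i < n₀, ∀ r : ℝ, ν - n - 2 * Real.log z₀ ≤ r → ‖az h r (ρ i)‖ ≤ K) :
    ‖∫ u in Ioc (-1 : ℝ) n, (g δ u : ℂ) * Ft z₀ h ν n₀ t ρ u‖ ≤
      (n₀ * (3 * z₀ ^ 5 * K)) * (Real.exp n + 1) * (n + 1) := by
  have h1 : ∀ u ∈ Ioc (-1 : ℝ) n, ‖(g δ u : ℂ) * Ft z₀ h ν n₀ t ρ u‖ ≤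
      (n₀ * (3 * z₀ ^ 5 * K)) * (Real.exp n + 1) := by
    intro u hu
    rw [norm_mul, Complex.norm_real, Real.norm_eq_abs, mul_comm]
    have h2 := norm_Ft_le z₀ h ν hz n₀ t ρ u K hu.1.le hρ
      (fun i hi r hr1 _ => hK i hi r (by linarith [hu.2]))
    have h3 := abs_g_le δ u hδ0 hδ1
    have h4 : Real.exp u ≤ Real.exp n := Real.exp_le_exp.2 hu.2
    exact mul_le_mul h2 (by linarith) (abs_nonneg _) ((norm_nonneg _).trans h2)
  have h5 := norm_setIntegral_le_of_norm_le_const (μ := volume) (s := Ioc (-1 : ℝ) n)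
    (by rw [Real.volume_Ioc]; exact ENNReal.ofReal_lt_top) h1
  refine h5.trans (le_of_eq ?_)
  rw [Measure.real, Real.volume_Ioc, ENNReal.toReal_ofReal (by linarith)]
  ring

/-- Right part: `u > n'`. -/
theorem right_part (z₀ h ν δ n' K : ℝ) (hz : 1 < z₀) (hδ0 : 0 < δ) (hδ1 : δ ≤ 1) (hn : 0 ≤ n')
    (n₀ : ℕ) (t : ℕ → ℝ) (ρ : ℕ → ℂ) (hK0 : 0 ≤ K)
    (hρ : ∀ i < n₀, 1 / 2 ≤ (ρ i).re ∧ (ρ i).re < 1)
    (hK : ∀ i < n₀, ∀ r : ℝ, r ≤ ν - n' → ‖az h r (ρ i)‖ ≤ K * Real.exp (2 * (r - (ν - n')))) :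
    ‖∫ u in Ioi n', (g δ u : ℂ) * Ft z₀ h ν n₀ t ρ u‖ ≤
      (n₀ * (3 * z₀ ^ 5 * K)) * (2 * Real.exp n') := by
  have hz0 : 0 < z₀ := by linarith
  have h1 : ∀ u ∈ Ioi n', ‖(g δ u : ℂ) * Ft z₀ h ν n₀ t ρ u‖ ≤
      ((n₀ * (3 * z₀ ^ 5 * K)) * (2 * Real.exp (2 * n'))) * Real.exp (-u) := by
    intro u hu
    have hu' : n' < u := hu
    rw [norm_mul, Complex.norm_real, Real.norm_eq_abs, mul_comm]
    have h2 := norm_Ft_le z₀ h ν hz n₀ t ρ u (K * Real.exp (-2 * (u - n'))) (by linarith only [hn, hu']) hρ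
      (fun i hi r _ hr2 => by
        refine (hK i hi r (by linarith only [hu', hr2])).trans ?_
        apply mul_le_mul_of_nonneg_left _ hK0
        apply Real.exp_le_exp.2
        linarith only [hr2])
    have h3 := abs_g_le δ u hδ0 hδ1
    have h4 : 1 ≤ Real.exp u := Real.one_le_exp (by linarith)
    have h5 : |g δ u| ≤ 2 * Real.exp u := by linarith
    calc ‖Ft z₀ h ν n₀ t ρ u‖ * |g δ u|
        ≤ (n₀ * (3 * z₀ ^ 5 * (K * Real.exp (-2 * (u - n'))))) * (2 * Real.exp u) :=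
          mul_le_mul h2 h5 (abs_nonneg _) ((norm_nonneg _).trans h2)
      _ = ((n₀ * (3 * z₀ ^ 5 * K)) * 2) * (Real.exp (-2 * (u - n')) * Real.exp u) := by ring
      _ = ((n₀ * (3 * z₀ ^ 5 * K)) * 2) * (Real.exp (2 * n') * Real.exp (-u)) := by
          rw [← Real.exp_add, ← Real.exp_add]
          congr 2
          ring
      _ = _ := by ring
  have h6 : IntegrableOn (fun u : ℝ => ((n₀ * (3 * z₀ ^ 5 * K)) * (2 * Real.exp (2 * n'))) *
      Real.exp (-u)) (Ioi n') := (integrableOn_exp_neg_Ioi n').const_mul _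
  have h7 := norm_integral_le_of_norm_le h6
    ((ae_restrict_iff' measurableSet_Ioi).2 (Filter.Eventually.of_forall h1))
  refine h7.trans (le_of_eq ?_)
  rw [integral_const_mul, integral_exp_neg_Ioi]
  have : Real.exp (2 * n') * Real.exp (-n') = Real.exp n' := by
    rw [← Real.exp_add]; congr 1; ring
  calc _ = ((n₀ * (3 * z₀ ^ 5 * K)) * 2) * (Real.exp (2 * n') * Real.exp (-n')) := by ring
    _ = _ := by rw [this]; ring

end Pool.Agent.H14.CO

end
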