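import Pool.Agent.H15.TB1.M18
import Pool.Agent.H15.TB1.M23
import Pool.Agent.H15.TB1.M34

/-! The parts of this file: H14.CO.AR. -/

section

/-!
# CO module AR: the coefficients of `M(s+w₁) M(s+w₂)` satisfy `DiagHyp`
-/

set_option autoImplicit false

namespace Pool.Agent.H14.CO

open Set MeasureTheory Complex

/-- coefficients of `Mo z₀ (s+w₁) * Mo z₀ (s+w₂)` -/
noncomputable def aa (z₀ : ℝ) (w₁ w₂ : ℂ) (D : ℕ) : ℂ :=
  ∑ d ∈ D.divisorsAntidiagonal, (lam z₀ d.1 : ℂ) * (d.1 : ℂ) ^ (-w₁) *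
    ((lam z₀ d.2 : ℂ) * (d.2 : ℂ) ^ (-w₂))

private theorem AR_conv (K M : ℕ) (hKM : K * K ≤ M) (P : ℕ → Prop) [DecidablePred P]
    (F₁ F₂ : ℕ → ℂ) (h1 : ∀ d, K < d → F₁ d = 0) (h2 : ∀ d, K < d → F₂ d = 0) :
    ∑ D ∈ (Finset.Icc 1 M).filter P, ∑ d ∈ D.divisorsAntidiagonal, F₁ d.1 * F₂ d.2
      = ∑ d₁ ∈ Finset.Icc 1 K, ∑ d₂ ∈ Finset.Icc 1 K,
          if P (d₁ * d₂) then F₁ d₁ * F₂ d₂ else 0 := by
  have hD : ∀ D ∈ (Finset.Icc 1 M).filter P,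
      ∑ d ∈ D.divisorsAntidiagonal, F₁ d.1 * F₂ d.2
      = ∑ d ∈ Finset.Icc 1 K ×ˢ Finset.Icc 1 K,
          if d.1 * d.2 = D then F₁ d.1 * F₂ d.2 else 0 := by
    intro D hD
    have hD1 := (Finset.mem_Icc.1 (Finset.mem_filter.1 hD).1).1
    rw [← Finset.sum_filter]
    symm
    apply Finset.sum_subset
    · intro d hd
      simp only [Finset.mem_filter, Finset.mem_product, Finset.mem_Icc] at hd
      rw [Nat.mem_divisorsAntidiagonal]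
      exact ⟨hd.2, by omega⟩
    · intro d hd hd'
      rw [Nat.mem_divisorsAntidiagonal] at hd
      by_contra hne
      apply hd'
      have e1 : F₁ d.1 ≠ 0 := fun h => hne (by simp [h])
      have e2 : F₂ d.2 ≠ 0 := fun h => hne (by simp [h])
      have k1 : d.1 ≤ K := by
        by_contra h
        exact e1 (h1 _ (by omega))
      have k2 : d.2 ≤ K := by
        by_contra h
        exact e2 (h2 _ (by omega))
      have p1 : d.1 ≠ 0 := by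
        intro h
        apply hd.2
        rw [← hd.1, h, Nat.zero_mul]
      have p2 : d.2 ≠ 0 := by
        intro h
        apply hd.2
        rw [← hd.1, h, Nat.mul_zero]
      simp only [Finset.mem_filter, Finset.mem_product, Finset.mem_Icc]
      exact ⟨⟨⟨by omega, k1⟩, ⟨by omega, k2⟩⟩, hd.1⟩
  rw [Finset.sum_congr rfl hD, Finset.sum_comm, Finset.sum_product]
  refine Finset.sum_congr rfl fun d₁ hd₁ => Finset.sum_congr rfl fun d₂ hd₂ => ?_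
  rw [Finset.mem_Icc] at hd₁ hd₂
  dsimp only
  rw [Finset.sum_ite_eq]
  have hm : d₁ * d₂ ∈ Finset.Icc 1 M := by
    rw [Finset.mem_Icc]
    exact ⟨Nat.mul_pos hd₁.1 hd₂.1, le_trans (Nat.mul_le_mul hd₁.2 hd₂.2) hKM⟩
  by_cases hP : P (d₁ * d₂)
  · rw [if_pos hP, if_pos (Finset.mem_filter.2 ⟨hm, hP⟩)]
  · rw [if_neg hP, if_neg (fun h => hP (Finset.mem_filter.1 h).2)]

private theorem AR_aa_cpow (z₀ : ℝ) (w₁ w₂ t : ℂ) (D : ℕ) :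
    aa z₀ w₁ w₂ D * (D : ℂ) ^ t = ∑ d ∈ D.divisorsAntidiagonal,
      ((lam z₀ d.1 : ℂ) * (d.1 : ℂ) ^ (-w₁) * (d.1 : ℂ) ^ t) *
      ((lam z₀ d.2 : ℂ) * (d.2 : ℂ) ^ (-w₂) * (d.2 : ℂ) ^ t) := by
  unfold aa
  rw [Finset.sum_mul]
  refine Finset.sum_congr rfl fun d hd => ?_
  rw [Nat.mem_divisorsAntidiagonal] at hd
  have : (D : ℂ) ^ t = (d.1 : ℂ) ^ t * (d.2 : ℂ) ^ t := by
    rw [← hd.1, Nat.cast_mul, Complex.natCast_mul_natCast_cpow]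
  rw [this]
  ring

private theorem AR_lam_zero (z₀ : ℝ) (hz : 1 < z₀) (d : ℕ) (hd : ⌊z₀ ^ 2⌋₊ < d) :
    lam z₀ d = 0 := by
  apply lam_eq_zero z₀ hz
  exact le_of_lt ((Nat.floor_lt (by positivity)).1 hd)

private theorem AR_sq_le (z₀ : ℝ) (M : ℕ) (hM : z₀ ^ 4 ≤ M) :
    ⌊z₀ ^ 2⌋₊ * ⌊z₀ ^ 2⌋₊ ≤ M := by
  have h := Nat.floor_le (show (0 : ℝ) ≤ z₀ ^ 2 by positivity)
  have h2 : ((⌊z₀ ^ 2⌋₊ * ⌊z₀ ^ 2⌋₊ : ℕ) : ℝ) ≤ M := by
    push_cast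
    calc (⌊z₀ ^ 2⌋₊ : ℝ) * ⌊z₀ ^ 2⌋₊ ≤ z₀ ^ 2 * z₀ ^ 2 := by
          apply mul_le_mul h h (by positivity) (by positivity)
      _ = z₀ ^ 4 := by ring
      _ ≤ M := hM
  exact_mod_cast h2

theorem Mo_mul (z₀ : ℝ) (hz : 1 < z₀) (s w₁ w₂ : ℂ) (M : ℕ) (hM : z₀ ^ 4 ≤ M) :
    Mo z₀ (s + w₁) * Mo z₀ (s + w₂) = ∑ D ∈ Finset.Icc 1 M, aa z₀ w₁ w₂ D * (D : ℂ) ^ (-s) := by
  have h1 : ∑ D ∈ Finset.Icc 1 M, aa z₀ w₁ w₂ D * (D : ℂ) ^ (-s)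
      = ∑ D ∈ (Finset.Icc 1 M).filter (fun _ => True), ∑ d ∈ D.divisorsAntidiagonal,
      ((lam z₀ d.1 : ℂ) * (d.1 : ℂ) ^ (-w₁) * (d.1 : ℂ) ^ (-s)) *
      ((lam z₀ d.2 : ℂ) * (d.2 : ℂ) ^ (-w₂) * (d.2 : ℂ) ^ (-s)) := by
    rw [Finset.filter_true_of_mem (fun _ _ => trivial)]
    exact Finset.sum_congr rfl fun D _ => AR_aa_cpow z₀ w₁ w₂ (-s) D
  rw [h1, AR_conv ⌊z₀ ^ 2⌋₊ M (AR_sq_le z₀ M hM) (fun _ => True)
    (fun d => (lam z₀ d : ℂ) * (d : ℂ) ^ (-w₁) * (d : ℂ) ^ (-s))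
    (fun d => (lam z₀ d : ℂ) * (d : ℂ) ^ (-w₂) * (d : ℂ) ^ (-s))
    (fun d hd => by simp [AR_lam_zero z₀ hz d hd])
    (fun d hd => by simp [AR_lam_zero z₀ hz d hd])]
  unfold Mo
  rw [Finset.sum_mul]
  refine Finset.sum_congr rfl fun d₁ hd₁ => ?_
  rw [Finset.mul_sum]
  refine Finset.sum_congr rfl fun d₂ hd₂ => ?_
  rw [Finset.mem_Icc] at hd₁ hd₂
  have n1 : (d₁ : ℂ) ≠ 0 := Nat.cast_ne_zero.2 (by omega)
  have n2 : (d₂ : ℂ) ≠ 0 := Nat.cast_ne_zero.2 (by omega)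
  rw [if_pos trivial, show -(s + w₁) = -w₁ + -s by ring, show -(s + w₂) = -w₂ + -s by ring,
    Complex.cpow_add _ _ n1, Complex.cpow_add _ _ n2]
  ring

/-- the inner sum as a double sum -/
private theorem AR_inner (z₀ : ℝ) (hz : 1 < z₀) (w₁ w₂ v : ℂ) (M f : ℕ) (hM : z₀ ^ 4 ≤ M) :
    ∑ D ∈ (Finset.Icc 1 M).filter (fun D => f ∣ D), aa z₀ w₁ w₂ D * (D : ℂ) ^ (-(1 + v))
    = ∑ d₁ ∈ Finset.Icc 1 ⌊z₀ ^ 2⌋₊, ∑ d₂ ∈ Finset.Icc 1 ⌊z₀ ^ 2⌋₊,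
      if f ∣ d₁ * d₂ then (lam z₀ d₁ : ℂ) * (lam z₀ d₂ : ℂ) * (d₁ : ℂ) ^ (-(1 + (v + w₁))) *
        (d₂ : ℂ) ^ (-(1 + (v + w₂))) else 0 := by
  rw [Finset.sum_congr rfl fun D _ => AR_aa_cpow z₀ w₁ w₂ (-(1 + v)) D,
    AR_conv ⌊z₀ ^ 2⌋₊ M (AR_sq_le z₀ M hM) (fun D => f ∣ D)
    (fun d => (lam z₀ d : ℂ) * (d : ℂ) ^ (-w₁) * (d : ℂ) ^ (-(1 + v)))
    (fun d => (lam z₀ d : ℂ) * (d : ℂ) ^ (-w₂) * (d : ℂ) ^ (-(1 + v)))
    (fun d hd => by simp [AR_lam_zero z₀ hz d hd])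
    (fun d hd => by simp [AR_lam_zero z₀ hz d hd])]
  refine Finset.sum_congr rfl fun d₁ hd₁ => Finset.sum_congr rfl fun d₂ hd₂ => ?_
  rw [Finset.mem_Icc] at hd₁ hd₂
  have n1 : (d₁ : ℂ) ≠ 0 := Nat.cast_ne_zero.2 (by omega)
  have n2 : (d₂ : ℂ) ≠ 0 := Nat.cast_ne_zero.2 (by omega)
  split_ifs with h
  · rw [show -(1 + (v + w₁)) = -w₁ + -(1 + v) by ring,
      show -(1 + (v + w₂)) = -w₂ + -(1 + v) by ring,
      Complex.cpow_add _ _ n1, Complex.cpow_add _ _ n2]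
    ring
  · rfl

private theorem AR_aa_zero (z₀ : ℝ) (hz : 1 < z₀) (w₁ w₂ : ℂ) (M D : ℕ) (hM : z₀ ^ 4 ≤ M)
    (hD : M < D) : aa z₀ w₁ w₂ D = 0 := by
  unfold aa
  refine Finset.sum_eq_zero fun d hd => ?_
  rw [Nat.mem_divisorsAntidiagonal] at hd
  by_cases h1 : ⌊z₀ ^ 2⌋₊ < d.1
  · simp [AR_lam_zero z₀ hz d.1 h1]
  by_cases h2 : ⌊z₀ ^ 2⌋₊ < d.2
  · simp [AR_lam_zero z₀ hz d.2 h2]
  exfalso
  have h3 : d.1 * d.2 ≤ ⌊z₀ ^ 2⌋₊ * ⌊z₀ ^ 2⌋₊ := Nat.mul_le_mul (by omega) (by omega)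
  have h4 := AR_sq_le z₀ M hM
  rw [hd.1] at h3
  omega

/-- the sum in `DiagHyp`, one term -/
private theorem AR_term (z₀ : ℝ) (hz : 1 < z₀) (w₁ w₂ z : ℂ) (M n : ℕ) (hM : z₀ ^ 4 ≤ M)
    (hn : 1 ≤ n) :
    (1 / (n : ℝ)) * ‖∑ D ∈ n.divisors, aa z₀ w₁ w₂ D * ((n / D : ℕ) : ℂ) ^ (-z)‖ ^ 2
    = (n : ℝ) ^ (-(1 + 2 * z.re)) *
      ‖∑ D ∈ n.divisors.filter (fun D => D ≤ M), aa z₀ w₁ w₂ D * (D : ℂ) ^ z‖ ^ 2 := by
  have hn0 : (n : ℝ) ≠ 0 := Nat.cast_ne_zero.2 (by omega)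
  have hnpos : (0 : ℝ) < n := Nat.cast_pos.2 (by omega)
  have e1 : ∑ D ∈ n.divisors, aa z₀ w₁ w₂ D * ((n / D : ℕ) : ℂ) ^ (-z)
      = (n : ℂ) ^ (-z) * ∑ D ∈ n.divisors.filter (fun D => D ≤ M),
        aa z₀ w₁ w₂ D * (D : ℂ) ^ z := by
    rw [Finset.mul_sum, Finset.sum_filter]
    refine Finset.sum_congr rfl fun D hD => ?_
    rw [Nat.mem_divisors] at hD
    split_ifs with h
    · have hD0 : D ≠ 0 := by
        rintro rfl
        exact hD.2 (Nat.eq_zero_of_zero_dvd hD.1)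
      have hDc : (D : ℂ) ≠ 0 := Nat.cast_ne_zero.2 hD0
      have e2 : (n : ℂ) ^ (-z) = (D : ℂ) ^ (-z) * ((n / D : ℕ) : ℂ) ^ (-z) := by
        rw [← Complex.natCast_mul_natCast_cpow, ← Nat.cast_mul, Nat.mul_div_cancel' hD.1]
      have e3 : (D : ℂ) ^ (-z) * (D : ℂ) ^ z = 1 := by
        rw [← Complex.cpow_add _ _ hDc, neg_add_cancel, Complex.cpow_zero]
      rw [e2]
      calc aa z₀ w₁ w₂ D * ((n / D : ℕ) : ℂ) ^ (-z)
          = aa z₀ w₁ w₂ D * ((n / D : ℕ) : ℂ) ^ (-z) * ((D : ℂ) ^ (-z) * (D : ℂ) ^ z) := by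
            rw [e3, mul_one]
        _ = _ := by ring
    · rw [AR_aa_zero z₀ hz w₁ w₂ M D hM (by omega), zero_mul]
  rw [e1, norm_mul, Complex.norm_natCast_cpow_of_pos (by omega), mul_pow, ← mul_assoc]
  congr 1
  rw [← Real.rpow_natCast ((n : ℝ) ^ (-z).re) 2, ← Real.rpow_mul hnpos.le, one_div,
    ← Real.rpow_neg_one, ← Real.rpow_add hnpos]
  congr 1
  simp only [Complex.neg_re, Nat.cast_ofNat]
  ring

/-- PROOF. With `z₀ = T^θ`, `L = log T`; `(n/D)^{-z} = n^{-z} D^z` and `|n^{-z}|² = n^{-2 Re z}`, so the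
sum in `DiagHyp` is `∑ n^{-s} |∑_{D∣n} c_D|²`, `s = 1 + 2 Re z`, `c_D = aa D * D^z`, `gcd_form`:
`≤ (1+L/2) ∑_{f ≤ z₀^4} f^s |∑_{f∣D} aa D D^{z-s}|²`, `z - s = -(1 + conj z)`, and
`∑_{f∣D} aa D D^{-(1+conj z)}` is the sum of `Yf_bound` with `u_i = conj z + w_i`,
`|Re u_i| ≤ (2K+1)/L`, `‖u_i‖ ≤ ‖z‖ + ‖w_i‖`. `f^{s-1} ≤ z₀^{8 Re z} ≤ e^{8θ(K+1)}`, `bf_sum` with
`F = ⌊z₀^4⌋`: `(log F)^4 ≤ 256 (log z₀)^4`. Total
`≤ C e^{CK} L (1+L‖z‖)^8 (1+L‖w₁‖)^4 (1+L‖w₂‖)^4`. -/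
theorem AR (θ : ℝ) (hθ0 : 0 < θ) (hθ1 : θ ≤ 1 / 40) : ∃ C : ℝ, 0 < C ∧ ∃ T₀ : ℝ, 1 < T₀ ∧
    ∀ T : ℝ, T₀ ≤ T → ∀ K : ℝ, 1 ≤ K → ∀ w₁ w₂ : ℂ,
    |w₁.re| ≤ K / Real.log T → |w₂.re| ≤ K / Real.log T →
    DiagHyp T K (C * Real.exp (C * K) * Real.log T * (1 + Real.log T * ‖w₁‖) ^ 4 *
      (1 + Real.log T * ‖w₂‖) ^ 4) (aa (T ^ θ) w₁ w₂) := by
  obtain ⟨C₁, hC₁, hY⟩ := Yf_bound
  obtain ⟨C₂, hC₂, hB⟩ := bf_sum
  refine ⟨1250 * C₁ ^ 2 * C₂ + 2, by positivity, max (Real.exp 1) ((2 : ℝ) ^ (1 / θ)), ?_, ?_⟩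
  · exact lt_of_lt_of_le (by rw [← Real.exp_zero]; exact Real.exp_lt_exp.2 (by norm_num))
      (le_max_left _ _)
  intro T hT K hK w₁ w₂ hw₁ hw₂
  have hTe : Real.exp 1 ≤ T := le_trans (le_max_left _ _) hT
  have hT2 : (2 : ℝ) ^ (1 / θ) ≤ T := le_trans (le_max_right _ _) hT
  have hTpos : 0 < T := lt_of_lt_of_le (Real.exp_pos _) hTe
  have hL1 : 1 ≤ Real.log T := by
    rw [Real.le_log_iff_exp_le hTpos]
    exact hTe
  intro z hzl hzu N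
  set L : ℝ := Real.log T with hL
  have hLpos : 0 < L := by linarith only [hL1]
  have hz2 : 2 ≤ T ^ θ := by
    calc (2 : ℝ) = ((2 : ℝ) ^ (1 / θ)) ^ θ := by
          rw [← Real.rpow_mul (by norm_num), one_div, inv_mul_cancel₀ hθ0.ne', Real.rpow_one]
      _ ≤ T ^ θ := Real.rpow_le_rpow (by positivity) hT2 hθ0.le
  have hlz : Real.log (T ^ θ) = θ * L := by rw [Real.log_rpow hTpos]
  set z₀ : ℝ := T ^ θ with hz₀
  have hz1 : 1 < z₀ := by linarith only [hθ0, hθ1, hz2]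
  have hz0 : 0 < z₀ := by linarith only [hθ0, hθ1, hz2]
  have hlzpos : 0 < Real.log z₀ := Real.log_pos hz1
  have hlzL : Real.log z₀ ≤ L := by
    rw [hlz]
    nlinarith only [hθ1, hL1]
  set ℓ : ℝ := Real.log z₀ with hℓ
  set M : ℕ := ⌈z₀ ^ 4⌉₊ with hMdef
  have hM4 : z₀ ^ 4 ≤ (M : ℝ) := Nat.le_ceil _
  have hz4 : (1 : ℝ) ≤ z₀ ^ 4 := one_le_pow₀ hz1.le
  have hM5 : (M : ℝ) ≤ z₀ ^ 5 := by
    have h1 : (M : ℝ) < z₀ ^ 4 + 1 := Nat.ceil_lt_add_one (by positivity)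
    have h2 : z₀ ^ 4 * 2 ≤ z₀ ^ 4 * z₀ := mul_le_mul_of_nonneg_left hz2 (by positivity)
    have h3 : z₀ ^ 5 = z₀ ^ 4 * z₀ := by ring
    linarith only [hz4, h1, h2]
  have hM2 : 2 ≤ M := by
    have h1 : (2 : ℝ) ≤ z₀ ^ 4 := by
      calc (2 : ℝ) ≤ z₀ := hz2
        _ = z₀ ^ 1 := (pow_one _).symm
        _ ≤ z₀ ^ 4 := pow_le_pow_right₀ hz1.le (by norm_num)
    exact_mod_cast le_trans h1 hM4
  have hzre : 0 < z.re := lt_of_lt_of_le (by positivity) hzl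
  have hs : 1 < 1 + 2 * z.re := by linarith only [hzre]
  have hKL : 0 ≤ K / L := by positivity
  -- the exponential factors
  have hx1 : z.re * L ≤ K + 1 := by
    rw [le_div_iff₀ hLpos] at hzu
    exact hzu
  have hu : ∀ w : ℂ, |w.re| ≤ K / L → |((starRingEnd ℂ) z + w).re| * L ≤ 2 * K + 1 := by
    intro w hw
    have h1 : |((starRingEnd ℂ) z + w).re| ≤ |z.re| + |w.re| := by
      rw [Complex.add_re, Complex.conj_re]
      exact abs_add_le _ _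
    rw [abs_of_pos hzre] at h1
    have h2 : |w.re| * L ≤ K := by
      rw [le_div_iff₀ hLpos] at hw
      exact hw
    nlinarith only [hL1, hx1, h1, h2]
  have hn : ∀ w : ℂ, 1 + ‖(starRingEnd ℂ) z + w‖ * ℓ ≤ (1 + L * ‖z‖) * (1 + L * ‖w‖) := by
    intro w
    have h1 : ‖(starRingEnd ℂ) z + w‖ ≤ ‖z‖ + ‖w‖ := by
      refine (norm_add_le _ _).trans_eq ?_
      rw [Complex.norm_conj]
    have h2 : ‖(starRingEnd ℂ) z + w‖ * ℓ ≤ (‖z‖ + ‖w‖) * L :=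
      mul_le_mul h1 hlzL hlzpos.le (by positivity)
    have h3 : 0 ≤ L * ‖z‖ * (L * ‖w‖) := by positivity
    nlinarith only [h2, h3]
  have hE : z₀ ^ (2 * |((starRingEnd ℂ) z + w₁).re| + 2 * |((starRingEnd ℂ) z + w₂).re|)
      ≤ Real.exp (θ * (8 * K + 4)) := by
    rw [Real.rpow_def_of_pos hz0, Real.exp_le_exp]
    change ℓ * _ ≤ _
    rw [hlz]
    have h1 := hu w₁ hw₁
    have h2 := hu w₂ hw₂
    have h3 : L * (2 * |((starRingEnd ℂ) z + w₁).re| + 2 * |((starRingEnd ℂ) z + w₂).re|)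
        ≤ 8 * K + 4 := by nlinarith only [h1, h2]
    calc θ * L * (2 * |((starRingEnd ℂ) z + w₁).re| + 2 * |((starRingEnd ℂ) z + w₂).re|)
        = θ * (L * (2 * |((starRingEnd ℂ) z + w₁).re| + 2 * |((starRingEnd ℂ) z + w₂).re|)) := by
          ring
      _ ≤ θ * (8 * K + 4) := mul_le_mul_of_nonneg_left h3 hθ0.le
  -- the polynomial factors
  set P : ℝ := (1 + L * ‖z‖) ^ 4 * ((1 + L * ‖w₁‖) ^ 2 * (1 + L * ‖w₂‖) ^ 2) with hP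
  have hP0 : 0 ≤ P := by positivity
  have hPle : (1 + ‖(starRingEnd ℂ) z + w₁‖ * ℓ) ^ 2 * (1 + ‖(starRingEnd ℂ) z + w₂‖ * ℓ) ^ 2
      ≤ P := by
    calc (1 + ‖(starRingEnd ℂ) z + w₁‖ * ℓ) ^ 2 * (1 + ‖(starRingEnd ℂ) z + w₂‖ * ℓ) ^ 2
        ≤ ((1 + L * ‖z‖) * (1 + L * ‖w₁‖)) ^ 2 * ((1 + L * ‖z‖) * (1 + L * ‖w₂‖)) ^ 2 := by
          apply mul_le_mul
          · exact pow_le_pow_left₀ (by positivity) (hn w₁) 2
          · exact pow_le_pow_left₀ (by positivity) (hn w₂) 2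
          · positivity
          · positivity
      _ = P := by rw [hP]; ring
  have hbf0 : ∀ f : ℕ, 0 ≤ bf f := by
    intro f
    unfold bf
    refine Finset.sum_nonneg fun g₁ _ => Finset.sum_nonneg fun g₂ _ => ?_
    split_ifs
    · positivity
    · exact le_refl _
  -- the inner sums
  have hin : ∀ f ∈ Finset.Icc 1 M,
      ‖∑ D ∈ (Finset.Icc 1 M).filter (fun D => f ∣ D),
        (aa z₀ w₁ w₂ D * (D : ℂ) ^ z) * (D : ℂ) ^ (-((1 + 2 * z.re : ℝ) : ℂ))‖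
      ≤ C₁ / ℓ ^ 2 * (sg f ^ 2 * bf f) * Real.exp (θ * (8 * K + 4)) * P := by
    intro f hf
    have hf0 : f ≠ 0 := by
      have := (Finset.mem_Icc.1 hf).1
      omega
    have e1 : ∑ D ∈ (Finset.Icc 1 M).filter (fun D => f ∣ D),
        (aa z₀ w₁ w₂ D * (D : ℂ) ^ z) * (D : ℂ) ^ (-((1 + 2 * z.re : ℝ) : ℂ))
        = ∑ D ∈ (Finset.Icc 1 M).filter (fun D => f ∣ D),
          aa z₀ w₁ w₂ D * (D : ℂ) ^ (-(1 + (starRingEnd ℂ) z)) := by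
      refine Finset.sum_congr rfl fun D hD => ?_
      have hD1 := (Finset.mem_Icc.1 (Finset.mem_filter.1 hD).1).1
      have hDc : (D : ℂ) ≠ 0 := Nat.cast_ne_zero.2 (by omega)
      rw [mul_assoc, ← Complex.cpow_add _ _ hDc]
      congr 2
      apply Complex.ext
      · simp
        ring
      · simp
    rw [e1, AR_inner z₀ hz1 w₁ w₂ _ M f hM4]
    refine (hY z₀ hz2 f hf0 _ _).trans ?_
    have q1 : 0 ≤ sg f ^ 2 * bf f := mul_nonneg (sq_nonneg _) (hbf0 f)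
    calc C₁ / ℓ ^ 2 * sg f ^ 2 * bf f *
          z₀ ^ (2 * |((starRingEnd ℂ) z + w₁).re| + 2 * |((starRingEnd ℂ) z + w₂).re|) *
          ((1 + ‖(starRingEnd ℂ) z + w₁‖ * ℓ) ^ 2 * (1 + ‖(starRingEnd ℂ) z + w₂‖ * ℓ) ^ 2)
        = (C₁ / ℓ ^ 2 * (sg f ^ 2 * bf f)) *
          z₀ ^ (2 * |((starRingEnd ℂ) z + w₁).re| + 2 * |((starRingEnd ℂ) z + w₂).re|) *
          ((1 + ‖(starRingEnd ℂ) z + w₁‖ * ℓ) ^ 2 * (1 + ‖(starRingEnd ℂ) z + w₂‖ * ℓ) ^ 2) := by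
          ring
      _ ≤ (C₁ / ℓ ^ 2 * (sg f ^ 2 * bf f)) * Real.exp (θ * (8 * K + 4)) * P := by
          apply mul_le_mul _ hPle (by positivity)
            (mul_nonneg (mul_nonneg (by positivity) q1) (Real.exp_pos _).le)
          exact mul_le_mul_of_nonneg_left hE (mul_nonneg (by positivity) q1)
  -- the weights
  have hwt : ∀ f ∈ Finset.Icc 1 M, (f : ℝ) ^ (1 + 2 * z.re)
      ≤ (f : ℝ) * Real.exp (θ * (10 * (K + 1))) := by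
    intro f hf
    have hf1 := Finset.mem_Icc.1 hf
    have hfpos : (0 : ℝ) < f := Nat.cast_pos.2 (by omega)
    rw [Real.rpow_add hfpos, Real.rpow_one]
    apply mul_le_mul_of_nonneg_left _ hfpos.le
    rw [Real.rpow_def_of_pos hfpos, Real.exp_le_exp]
    have h1 : Real.log f ≤ 5 * (θ * L) := by
      rw [← hlz, hℓ]
      calc Real.log f ≤ Real.log (z₀ ^ 5) := by
            apply Real.log_le_log hfpos
            refine le_trans ?_ hM5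
            exact_mod_cast hf1.2
        _ = 5 * Real.log z₀ := by
            rw [Real.log_pow]
            norm_num
    have h2 : 0 ≤ 2 * z.re := by linarith only [hzre]
    calc Real.log f * (2 * z.re) ≤ 5 * (θ * L) * (2 * z.re) :=
          mul_le_mul_of_nonneg_right h1 h2
      _ = θ * (10 * (z.re * L)) := by ring
      _ ≤ θ * (10 * (K + 1)) := by
          apply mul_le_mul_of_nonneg_left _ hθ0.le
          linarith only [hx1]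
  have hlogM : Real.log M ≤ 5 * ℓ := by
    rw [hℓ]
    calc Real.log M ≤ Real.log (z₀ ^ 5) := by
          apply Real.log_le_log (by positivity) hM5
      _ = 5 * Real.log z₀ := by
          rw [Real.log_pow]
          norm_num
  have hlogM0 : 0 ≤ Real.log M := Real.log_natCast_nonneg M
  have hpre : 1 + 1 / ((1 + 2 * z.re) - 1) ≤ 2 * L := by
    have h1 : 1 / ((1 + 2 * z.re) - 1) ≤ L / 2 := by
      rw [show (1 + 2 * z.re) - 1 = 2 * z.re by ring, div_le_iff₀ (by linarith only [hzre])]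
      rw [div_le_iff₀ hLpos] at hzl
      nlinarith only [hzl]
    linarith only [hL1, h1]
  set A : ℝ := C₁ / ℓ ^ 2 * Real.exp (θ * (8 * K + 4)) * P with hA
  have hA0 : 0 ≤ A := by positivity
  calc ∑ n ∈ Finset.Icc 1 N, (1 / (n : ℝ)) *
        ‖∑ D ∈ n.divisors, aa z₀ w₁ w₂ D * ((n / D : ℕ) : ℂ) ^ (-z)‖ ^ 2
      = ∑ n ∈ Finset.Icc 1 N, (n : ℝ) ^ (-(1 + 2 * z.re)) *
        ‖∑ D ∈ n.divisors.filter (fun D => D ≤ M), aa z₀ w₁ w₂ D * (D : ℂ) ^ z‖ ^ 2 := by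
        refine Finset.sum_congr rfl fun n hn' => ?_
        exact AR_term z₀ hz1 w₁ w₂ z M n hM4 (Finset.mem_Icc.1 hn').1
    _ ≤ (1 + 1 / ((1 + 2 * z.re) - 1)) * ∑ f ∈ Finset.Icc 1 M, (f : ℝ) ^ (1 + 2 * z.re) *
        ‖∑ D ∈ (Finset.Icc 1 M).filter (fun D => f ∣ D),
          (aa z₀ w₁ w₂ D * (D : ℂ) ^ z) * (D : ℂ) ^ (-((1 + 2 * z.re : ℝ) : ℂ))‖ ^ 2 :=
        gcd_form (1 + 2 * z.re) hs M N (fun D => aa z₀ w₁ w₂ D * (D : ℂ) ^ z)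
    _ ≤ (2 * L) * ∑ f ∈ Finset.Icc 1 M, (Real.exp (θ * (10 * (K + 1))) * A ^ 2) *
        ((f : ℝ) * (sg f ^ 2 * bf f) ^ 2) := by
        apply mul_le_mul hpre _ (Finset.sum_nonneg fun f _ => by positivity) (by positivity)
        refine Finset.sum_le_sum fun f hf => ?_
        calc (f : ℝ) ^ (1 + 2 * z.re) *
            ‖∑ D ∈ (Finset.Icc 1 M).filter (fun D => f ∣ D),
              (aa z₀ w₁ w₂ D * (D : ℂ) ^ z) * (D : ℂ) ^ (-((1 + 2 * z.re : ℝ) : ℂ))‖ ^ 2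
            ≤ ((f : ℝ) * Real.exp (θ * (10 * (K + 1)))) *
              (C₁ / ℓ ^ 2 * (sg f ^ 2 * bf f) * Real.exp (θ * (8 * K + 4)) * P) ^ 2 := by
              apply mul_le_mul (hwt f hf) _ (by positivity) (by positivity)
              exact pow_le_pow_left₀ (norm_nonneg _) (hin f hf) 2
          _ = (Real.exp (θ * (10 * (K + 1))) * A ^ 2) * ((f : ℝ) * (sg f ^ 2 * bf f) ^ 2) := by
              rw [hA]
              ring
    _ = (2 * L) * ((Real.exp (θ * (10 * (K + 1))) * A ^ 2) *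
          ∑ f ∈ Finset.Icc 1 M, ((f : ℝ) * (sg f ^ 2 * bf f) ^ 2)) := by
        rw [← Finset.mul_sum]
    _ ≤ (2 * L) * ((Real.exp (θ * (10 * (K + 1))) * A ^ 2) * (C₂ * (5 * ℓ) ^ 4)) := by
        apply mul_le_mul_of_nonneg_left _ (by positivity)
        apply mul_le_mul_of_nonneg_left _ (by positivity)
        refine (hB M hM2).trans ?_
        apply mul_le_mul_of_nonneg_left _ hC₂.le
        exact pow_le_pow_left₀ hlogM0 hlogM 4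
    _ = (1250 * C₁ ^ 2 * C₂) * (Real.exp (θ * (10 * (K + 1))) *
          (Real.exp (θ * (8 * K + 4))) ^ 2) * L * P ^ 2 := by
        rw [hA]
        field_simp
        ring
    _ ≤ (1250 * C₁ ^ 2 * C₂ + 2) * Real.exp ((1250 * C₁ ^ 2 * C₂ + 2) * K) * L * P ^ 2 := by
        apply mul_le_mul_of_nonneg_right _ (by positivity)
        apply mul_le_mul_of_nonneg_right _ hLpos.le
        apply mul_le_mul (by linarith only [hθ0, hθ1]) _ (by positivity) (by positivity)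
        rw [← Real.exp_nat_mul, ← Real.exp_add, Real.exp_le_exp]
        have h1 : 0 ≤ (1250 * C₁ ^ 2 * C₂) * K := by positivity
        have h2 : θ * (26 * K + 18) ≤ 1 / 40 * (26 * K + 18) :=
          mul_le_mul_of_nonneg_right hθ1 (by linarith only [hK])
        push_cast
        nlinarith only [hK, h1, h2]
    _ = (1250 * C₁ ^ 2 * C₂ + 2) * Real.exp ((1250 * C₁ ^ 2 * C₂ + 2) * K) * L *
          (1 + L * ‖w₁‖) ^ 4 * (1 + L * ‖w₂‖) ^ 4 * (1 + L * ‖z‖) ^ 8 := by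
        rw [hP]
        ring

end Pool.Agent.H14.CO

end
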