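import Pool.Agent.H15.TB1.M20
import Pool.Agent.H15.TB1.M45

/-! The parts of this file: H80.LV.Defs, H76.EHB.Ibp, H76.EHB.Lap, H76.EHB.AvA, H76.EHB.Vdc1, H76.EHB.Vdc2, H76.EHB.AvB, H76.EHB.VdcF, H35.W.KS1, H80.LV.GInt, H80.LV.HM, H80.LV.Tau4, H35.W.KSap, H80.LV.TyI, H80.LV.ErrB. -/

section

/-!
# PROJECT SP, Part II (large values): common definitions

`L = log x`, `ee(t) = exp(2 π i t)` (`Pool.Agent.H91.PK.ee`; `LSa_ee_add`, `LSa_norm_ee`, `LSa_conj_ee` in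
`H91/PK/LSa.lean`).  `gE α t n = e(n α) n^{2 π i t}`.  `VK` is the statement of Part I (helper97,
`vk_class`).
-/

set_option autoImplicit false

namespace Pool.Agent.H80.LV

open Finset
open Pool.Agent.H91.PK (ee)
open Pool.Agent.H91.EHA (Lam hR lamR)

/-- `e(n α) n^{2 π i t}` -/
noncomputable def gE (α t : ℝ) (n : ℕ) : ℂ := ee ((n : ℝ) * α + t * Real.log n)

/-- Part I: cancellation in `∑ Λ(n) n^{2 π i t}` over residue classes, `L^K' ≤ |t| ≤ x^2`. -/
def VK : Prop := ∀ (K B : ℕ) (e0 : ℝ), 0 < e0 → ∃ K' x0 : ℕ, ∀ x : ℕ, x0 ≤ x →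
  ∀ (d u z : ℕ) (t : ℝ), 1 ≤ d → (d : ℝ) ≤ Real.log x ^ B → (x : ℝ) ^ e0 ≤ z → z ≤ x ^ 2 →
    Real.log x ^ K' ≤ |t| → |t| ≤ (x : ℝ) ^ (2 : ℕ) →
    ‖∑ n ∈ (Icc 1 z).filter (fun n => n % d = u % d), ((Lam n : ℝ) : ℂ) * ee (t * Real.log n)‖
      ≤ z / Real.log x ^ K

theorem norm_gE (α t : ℝ) (n : ℕ) : ‖gE α t n‖ = 1 := by
  unfold gE
  exact Pool.Agent.H91.PK.LSa_norm_ee _

theorem gE_mul (α t : ℝ) (m n : ℕ) (hm : 1 ≤ m) (hn : 1 ≤ n) :
    gE α t (m * n) = ee ((m : ℝ) * n * α) * ee (t * Real.log m) * ee (t * Real.log n) := by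
  have hm0 : (m : ℝ) ≠ 0 := by positivity
  have hn0 : (n : ℝ) ≠ 0 := by positivity
  unfold gE
  rw [← Pool.Agent.H91.PK.LSa_ee_add, ← Pool.Agent.H91.PK.LSa_ee_add]
  congr 1
  push_cast
  rw [Real.log_mul hm0 hn0]
  ring

/-- logarithms are smaller than powers -/
theorem log_pow_le (s C : ℝ) (hs : 0 < s) (hC : 0 < C) (c : ℕ) :
    ∃ x0 : ℕ, ∀ x : ℕ, x0 ≤ x → C * Real.log x ^ c ≤ (x : ℝ) ^ s := by
  have h1 := (isLittleO_log_rpow_rpow_atTop (c : ℝ) hs).bound (c := 1 / C) (by positivity)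
  have h2 := h1.and (Filter.eventually_ge_atTop (1 : ℝ))
  have h3 := tendsto_natCast_atTop_atTop (R := ℝ) |>.eventually h2
  obtain ⟨x0, hx0⟩ := Filter.eventually_atTop.1 h3
  refine ⟨x0, fun x hx => ?_⟩
  obtain ⟨h4, h5⟩ := hx0 x hx
  have hl : 0 ≤ Real.log x := Real.log_nonneg h5
  have hp : (0 : ℝ) ≤ (x : ℝ) ^ s := Real.rpow_nonneg (by positivity) _
  rw [Real.rpow_natCast, Real.norm_eq_abs, Real.norm_eq_abs, abs_of_nonneg (by positivity),
    abs_of_nonneg hp] at h4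
  rw [div_mul_eq_mul_div, one_mul, le_div_iff₀ hC] at h4
  linarith only [h4]

/-- logarithms are large -/
theorem log_ge (C : ℝ) : ∃ x0 : ℕ, ∀ x : ℕ, x0 ≤ x → C ≤ Real.log x := by
  have h := (Real.tendsto_log_atTop.comp (tendsto_natCast_atTop_atTop (R := ℝ))).eventually
    (Filter.eventually_ge_atTop C)
  exact Filter.eventually_atTop.1 h

/-- powers are large -/
theorem pow_ge (s C : ℝ) (hs : 0 < s) : ∃ x0 : ℕ, ∀ x : ℕ, x0 ≤ x → C ≤ (x : ℝ) ^ s := by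
  have h := ((tendsto_rpow_atTop hs).comp (tendsto_natCast_atTop_atTop (R := ℝ))).eventually
    (Filter.eventually_ge_atTop C)
  exact Filter.eventually_atTop.1 h

end Pool.Agent.H80.LV

end

section

/-!
# EHB Ibp: sums with a small monotone derivative of the phase

`∑_{a<n≤b} ee(φ n) - ∫_a^b ee(φ x) dx = ∑_n ∫_{n-1}^n (ee(φ n) - ee(φ x)) dx`, at most `2π Λ (b-a)` in absolute value (mean value theorem,
`|φ'| ≤ Λ`).  And `∫_a^b ee(φ) = ∫ (2πi σ ψ ee(φ)) * 1/(2πi σ ψ)`: by parts `= [ee(φ)/(2πiσψ)]_a^b + ∫ ee(φ) ψ'/(2πiσψ²)`, at most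
`2/(2πλ) + (1/2π) ∫ (-ψ')/ψ² = 2/(2πλ) + (1/2π)(1/ψ(b) - 1/ψ(a)) ≤ 3/(2πλ) ≤ 1/λ`.
-/

set_option autoImplicit false

namespace Pool.Agent.H76.EHB

open Finset MeasureTheory
open Pool.Agent.H91.PK (ee)

theorem Ibp_ee_hasDerivAt (φ : ℝ → ℝ) (φ' x : ℝ) (h : HasDerivAt φ φ' x) :
    HasDerivAt (fun y => ee (φ y)) (2 * Real.pi * φ' * Complex.I * ee (φ x)) x := by
  unfold ee
  have h1 : HasDerivAt (fun y : ℝ => ((φ y : ℝ) : ℂ)) (φ' : ℂ) x := h.ofReal_comp
  have h2 : HasDerivAt (fun y : ℝ => 2 * (Real.pi : ℂ) * ((φ y : ℝ) : ℂ) * Complex.I)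
      (2 * (Real.pi : ℂ) * (φ' : ℂ) * Complex.I) x := (h1.const_mul _).mul_const _
  have h3 := h2.cexp
  convert h3 using 1
  ring

theorem Ibp_norm_ee (t : ℝ) : ‖ee t‖ = 1 := Pool.Agent.H91.PK.LSa_norm_ee t

theorem Ibp_norm_deriv (s t : ℝ) :
    ‖(2 * Real.pi * (s : ℂ) * Complex.I * ee t : ℂ)‖ = 2 * Real.pi * |s| := by
  rw [norm_mul, Ibp_norm_ee, norm_mul, Complex.norm_I, norm_mul, norm_mul, Complex.norm_real,
    Complex.norm_real, Complex.norm_ofNat, Real.norm_eq_abs, Real.norm_eq_abs,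
    abs_of_pos Real.pi_pos]
  ring

/-- the sum against the integral -/
theorem Ibp_sum_int (φ ψ : ℝ → ℝ) (a b : ℕ) (hab : a ≤ b) (σ Lam : ℝ) (hσ : |σ| = 1)
    (h1 : ∀ x ∈ Set.Icc (a : ℝ) b, HasDerivAt φ (σ * ψ x) x)
    (h5 : ∀ x ∈ Set.Icc (a : ℝ) b, 0 < ψ x ∧ ψ x ≤ Lam) :
    ‖∑ n ∈ Ioc a b, ee (φ n) - ∫ x in (a : ℝ)..b, ee (φ x)‖ ≤
      2 * Real.pi * Lam * ((b : ℝ) - a) := by
  have habR : (a : ℝ) ≤ b := by exact_mod_cast hab
  have hcont : ContinuousOn (fun x => ee (φ x)) (Set.Icc (a : ℝ) b) := fun x hx =>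
    (Ibp_ee_hasDerivAt φ _ x (h1 x hx)).continuousAt.continuousWithinAt
  have hsub : ∀ k ∈ Ico a b, Set.uIcc ((k : ℕ) : ℝ) ((k + 1 : ℕ) : ℝ) ⊆ Set.Icc (a : ℝ) b := by
    intro k hk
    rw [mem_Ico] at hk
    rw [Set.uIcc_of_le (by push_cast; linarith only)]
    apply Set.Icc_subset_Icc
    · exact_mod_cast hk.1
    · exact_mod_cast hk.2
  have hint : ∀ k ∈ Ico a b, IntervalIntegrable (fun x => ee (φ x)) volume ((k : ℕ) : ℝ)
      ((k + 1 : ℕ) : ℝ) := fun k hk => (hcont.mono (hsub k hk)).intervalIntegrable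
  have hI : ∑ k ∈ Ico a b, ∫ x in ((k : ℕ) : ℝ)..((k + 1 : ℕ) : ℝ), ee (φ x) =
      ∫ x in (a : ℝ)..b, ee (φ x) :=
    intervalIntegral.sum_integral_adjacent_intervals_Ico (a := fun k : ℕ => (k : ℝ)) hab
      (fun k hk => hint k (by rw [mem_Ico]; exact hk))
  have hS : ∑ n ∈ Ioc a b, ee (φ n) = ∑ k ∈ Ico a b, ee (φ ((k + 1 : ℕ) : ℝ)) := by
    rw [Finset.sum_Ico_add' (fun n : ℕ => ee (φ (n : ℝ))) a b 1]
    apply Finset.sum_congr _ (fun _ _ => rfl)
    ext x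
    simp only [mem_Ioc, mem_Ico]
    omega
  rw [hS, ← hI, ← Finset.sum_sub_distrib]
  have hterm : ∀ k ∈ Ico a b, ‖ee (φ ((k + 1 : ℕ) : ℝ)) -
      ∫ x in ((k : ℕ) : ℝ)..((k + 1 : ℕ) : ℝ), ee (φ x)‖ ≤ 2 * Real.pi * Lam := by
    intro k hk
    have e1 : ee (φ ((k + 1 : ℕ) : ℝ)) =
        ∫ x in ((k : ℕ) : ℝ)..((k + 1 : ℕ) : ℝ), ee (φ ((k + 1 : ℕ) : ℝ)) := by
      rw [intervalIntegral.integral_const]
      push_cast
      rw [show (k : ℝ) + 1 - k = 1 by ring, one_smul]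
    have e2 : ee (φ ((k + 1 : ℕ) : ℝ)) - ∫ x in ((k : ℕ) : ℝ)..((k + 1 : ℕ) : ℝ), ee (φ x) =
        ∫ x in ((k : ℕ) : ℝ)..((k + 1 : ℕ) : ℝ), (ee (φ ((k + 1 : ℕ) : ℝ)) - ee (φ x)) := by
      rw [intervalIntegral.integral_sub intervalIntegrable_const (hint k hk), ← e1]
    rw [e2]
    have hLam0 : 0 ≤ Lam := by
      have hb : (b : ℝ) ∈ Set.Icc (a : ℝ) b := ⟨habR, le_refl _⟩
      have := h5 _ hb
      linarith only [this]
    have hb := intervalIntegral.norm_integral_le_of_norm_le_const (a := ((k : ℕ) : ℝ))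
      (b := ((k + 1 : ℕ) : ℝ)) (C := 2 * Real.pi * Lam)
      (f := fun x => ee (φ ((k + 1 : ℕ) : ℝ)) - ee (φ x)) ?_
    · have e3 : |((k + 1 : ℕ) : ℝ) - ((k : ℕ) : ℝ)| = 1 := by
        push_cast
        rw [show (k : ℝ) + 1 - k = 1 by ring, abs_one]
      rw [e3, mul_one] at hb
      exact hb
    · intro x hx
      have hxI : x ∈ Set.Icc (a : ℝ) b := hsub k hk (Set.uIoc_subset_uIcc hx)
      have hk1 : ((k + 1 : ℕ) : ℝ) ∈ Set.Icc (a : ℝ) b := hsub k hk Set.right_mem_uIcc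
      have hm := (convex_Icc (a : ℝ) b).norm_image_sub_le_of_norm_hasDerivWithin_le
        (f := fun x => ee (φ x)) (f' := fun x => 2 * Real.pi * ((σ * ψ x : ℝ) : ℂ) *
          Complex.I * ee (φ x)) (C := 2 * Real.pi * Lam)
        (fun y hy => (Ibp_ee_hasDerivAt φ _ y (h1 y hy)).hasDerivWithinAt)
        (fun y hy => by
          rw [Ibp_norm_deriv, abs_mul, hσ, one_mul, abs_of_pos (h5 y hy).1]
          exact mul_le_mul_of_nonneg_left (h5 y hy).2 (by positivity)) hxI hk1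
      refine hm.trans ?_
      have h6 : ‖((k + 1 : ℕ) : ℝ) - x‖ ≤ 1 := by
        rw [Set.uIoc_of_le (by push_cast; linarith only)] at hx
        have h7 := hx.1
        have h8 := hx.2
        push_cast at h8 ⊢
        rw [Real.norm_eq_abs, abs_le]
        constructor <;> linarith only [h8, h7]
      calc 2 * Real.pi * Lam * ‖((k + 1 : ℕ) : ℝ) - x‖ ≤ 2 * Real.pi * Lam * 1 :=
            mul_le_mul_of_nonneg_left h6 (by positivity)
        _ = 2 * Real.pi * Lam := mul_one _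
  calc ‖∑ k ∈ Ico a b, (ee (φ ((k + 1 : ℕ) : ℝ)) -
        ∫ x in ((k : ℕ) : ℝ)..((k + 1 : ℕ) : ℝ), ee (φ x))‖
      ≤ ∑ k ∈ Ico a b, 2 * Real.pi * Lam := norm_sum_le_of_le _ hterm
    _ = 2 * Real.pi * Lam * ((b : ℝ) - a) := by
        rw [Finset.sum_const, Nat.card_Ico, nsmul_eq_mul, Nat.cast_sub hab]
        ring

/-- the integral -/
theorem Ibp_int (φ ψ ψ' : ℝ → ℝ) (a b : ℝ) (hab : a ≤ b) (σ lam : ℝ) (hσ : |σ| = 1)
    (hlam : 0 < lam) (h1 : ∀ x ∈ Set.Icc a b, HasDerivAt φ (σ * ψ x) x)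
    (h2 : ∀ x ∈ Set.Icc a b, HasDerivAt ψ (ψ' x) x)
    (h3 : ∀ x ∈ Set.Icc a b, ψ' x ≤ 0) (h4 : ContinuousOn ψ' (Set.Icc a b))
    (h5 : ∀ x ∈ Set.Icc a b, lam ≤ ψ x) :
    ‖∫ x in a..b, ee (φ x)‖ ≤ 1 / lam := by
  have hσ2 : σ * σ = 1 := by
    have := congrArg (fun t => t * t) hσ
    simpa [abs_mul_abs_self] using this
  have hpos : ∀ x ∈ Set.Icc a b, 0 < ψ x := fun x hx => lt_of_lt_of_le hlam (h5 x hx)
  have hψc : ContinuousOn ψ (Set.Icc a b) := fun x hx => (h2 x hx).continuousAt.continuousWithinAt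
  have hcont : ContinuousOn (fun x => ee (φ x)) (Set.Icc a b) := fun x hx =>
    (Ibp_ee_hasDerivAt φ _ x (h1 x hx)).continuousAt.continuousWithinAt
  have huIcc : Set.uIcc a b = Set.Icc a b := Set.uIcc_of_le hab
  -- derivative of 1/ψ
  have hinv : ∀ x ∈ Set.Icc a b, HasDerivAt (fun y => (ψ y)⁻¹) (-ψ' x / (ψ x) ^ 2) x :=
    fun x hx => (h2 x hx).inv (hpos x hx).ne'
  have hgc : ContinuousOn (fun x => -ψ' x / (ψ x) ^ 2) (Set.Icc a b) :=
    (h4.neg).div (hψc.pow 2) (fun x hx => by have := hpos x hx; positivity)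
  have hFTC1 : ∫ x in a..b, -ψ' x / (ψ x) ^ 2 = (ψ b)⁻¹ - (ψ a)⁻¹ :=
    intervalIntegral.integral_eq_sub_of_hasDerivAt (fun x hx => hinv x (huIcc ▸ hx))
      ((huIcc ▸ hgc : ContinuousOn _ (Set.uIcc a b)).intervalIntegrable)
  -- the main function
  set c : ℂ := (σ : ℂ) / (2 * Real.pi * Complex.I) with hc
  have hcn : ‖c‖ = 1 / (2 * Real.pi) := by
    rw [hc, norm_div, norm_mul, norm_mul, Complex.norm_real, Complex.norm_real, Complex.norm_I,
      Complex.norm_ofNat, Real.norm_eq_abs, Real.norm_eq_abs, hσ, abs_of_pos Real.pi_pos, mul_one]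
  have hc2 : ∀ s : ℝ, c * (2 * Real.pi * ((σ * s : ℝ) : ℂ) * Complex.I) = s := by
    intro s
    have hpi : (Real.pi : ℂ) ≠ 0 := by exact_mod_cast Real.pi_ne_zero
    have hI : Complex.I ≠ 0 := Complex.I_ne_zero
    rw [hc]
    push_cast
    field_simp
    have : (σ : ℂ) * σ = 1 := by exact_mod_cast hσ2
    linear_combination (s : ℂ) * this
  have hG : ∀ x ∈ Set.Icc a b, HasDerivAt (fun y => c * ee (φ y) * (((ψ y)⁻¹ : ℝ) : ℂ))
      (ee (φ x) + c * ee (φ x) * ((-ψ' x / (ψ x) ^ 2 : ℝ) : ℂ)) x := by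
    intro x hx
    have hd := ((Ibp_ee_hasDerivAt φ _ x (h1 x hx)).const_mul c).mul (hinv x hx).ofReal_comp
    have h7 := hc2 (ψ x)
    have h8 : ((ψ x : ℝ) : ℂ) * (((ψ x)⁻¹ : ℝ) : ℂ) = 1 := by
      rw [← Complex.ofReal_mul, mul_inv_cancel₀ (hpos x hx).ne', Complex.ofReal_one]
    have h9 : c * (2 * Real.pi * ((σ * ψ x : ℝ) : ℂ) * Complex.I * ee (φ x)) *
        (((ψ x)⁻¹ : ℝ) : ℂ) = ee (φ x) := by
      calc c * (2 * Real.pi * ((σ * ψ x : ℝ) : ℂ) * Complex.I * ee (φ x)) *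
        (((ψ x)⁻¹ : ℝ) : ℂ) = (c * (2 * Real.pi * ((σ * ψ x : ℝ) : ℂ) * Complex.I)) * 
          (((ψ x)⁻¹ : ℝ) : ℂ) * ee (φ x) := by ring
        _ = ee (φ x) := by rw [h7, h8, one_mul]
    rw [h9] at hd
    exact hd
  have hint1 : IntervalIntegrable (fun x => ee (φ x)) volume a b :=
    (huIcc ▸ hcont : ContinuousOn _ (Set.uIcc a b)).intervalIntegrable
  have hcont2 : ContinuousOn (fun x => c * ee (φ x) * ((-ψ' x / (ψ x) ^ 2 : ℝ) : ℂ))
      (Set.Icc a b) :=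
    (continuousOn_const.mul hcont).mul (Complex.continuous_ofReal.comp_continuousOn hgc)
  have hint2 : IntervalIntegrable (fun x => c * ee (φ x) * ((-ψ' x / (ψ x) ^ 2 : ℝ) : ℂ))
      volume a b := (huIcc ▸ hcont2 : ContinuousOn _ (Set.uIcc a b)).intervalIntegrable
  have hFTC2 : ∫ x in a..b, (ee (φ x) + c * ee (φ x) * ((-ψ' x / (ψ x) ^ 2 : ℝ) : ℂ)) =
      c * ee (φ b) * (((ψ b)⁻¹ : ℝ) : ℂ) - c * ee (φ a) * (((ψ a)⁻¹ : ℝ) : ℂ) :=
    intervalIntegral.integral_eq_sub_of_hasDerivAt (fun x hx => hG x (huIcc ▸ hx))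
      (hint1.add hint2)
  rw [intervalIntegral.integral_add hint1 hint2] at hFTC2
  have hmain : ∫ x in a..b, ee (φ x) = (c * ee (φ b) * (((ψ b)⁻¹ : ℝ) : ℂ) -
      c * ee (φ a) * (((ψ a)⁻¹ : ℝ) : ℂ)) -
      ∫ x in a..b, c * ee (φ x) * ((-ψ' x / (ψ x) ^ 2 : ℝ) : ℂ) := by
    rw [← hFTC2]; ring
  have ha : a ∈ Set.Icc a b := ⟨le_refl _, hab⟩
  have hb : b ∈ Set.Icc a b := ⟨hab, le_refl _⟩
  have hia : (ψ a)⁻¹ ≤ 1 / lam := by
    rw [← one_div]; exact one_div_le_one_div_of_le hlam (h5 a ha)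
  have hib : (ψ b)⁻¹ ≤ 1 / lam := by
    rw [← one_div]; exact one_div_le_one_div_of_le hlam (h5 b hb)
  have hia0 : 0 < (ψ a)⁻¹ := inv_pos.mpr (hpos a ha)
  have hib0 : 0 < (ψ b)⁻¹ := inv_pos.mpr (hpos b hb)
  have hbd : ∀ x : ℝ, 0 < (ψ x)⁻¹ → ‖c * ee (φ x) * (((ψ x)⁻¹ : ℝ) : ℂ)‖ =
      1 / (2 * Real.pi) * (ψ x)⁻¹ := by
    intro x hx
    rw [norm_mul, norm_mul, hcn, Ibp_norm_ee, Complex.norm_real, Real.norm_eq_abs, abs_of_pos hx,
      mul_one]
  have hI2 : ‖∫ x in a..b, c * ee (φ x) * ((-ψ' x / (ψ x) ^ 2 : ℝ) : ℂ)‖ ≤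
      1 / (2 * Real.pi) * ((ψ b)⁻¹ - (ψ a)⁻¹) := by
    rw [← hFTC1, ← intervalIntegral.integral_const_mul]
    apply intervalIntegral.norm_integral_le_of_norm_le hab
    · refine Filter.Eventually.of_forall fun x hx => ?_
      have hx' : x ∈ Set.Icc a b := Set.Ioc_subset_Icc_self hx
      rw [norm_mul, norm_mul, hcn, Ibp_norm_ee, Complex.norm_real, Real.norm_eq_abs, abs_of_nonneg,
        mul_one]
      have := h3 x hx'
      have h0 : 0 ≤ -ψ' x := by linarith only [this]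
      positivity
    · exact ((huIcc ▸ hgc : ContinuousOn _ (Set.uIcc a b)).intervalIntegrable).const_mul _
  rw [hmain]
  have hpi3 : (3 : ℝ) < Real.pi := Real.pi_gt_three
  have hq : 1 / (2 * Real.pi) ≤ 1 / 3 := by
    apply one_div_le_one_div_of_le <;> linarith only [hpi3]
  have hq0 : 0 < 1 / (2 * Real.pi) := by positivity
  calc ‖(c * ee (φ b) * (((ψ b)⁻¹ : ℝ) : ℂ) - c * ee (φ a) * (((ψ a)⁻¹ : ℝ) : ℂ)) -
      ∫ x in a..b, c * ee (φ x) * ((-ψ' x / (ψ x) ^ 2 : ℝ) : ℂ)‖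
      ≤ (‖c * ee (φ b) * (((ψ b)⁻¹ : ℝ) : ℂ)‖ + ‖c * ee (φ a) * (((ψ a)⁻¹ : ℝ) : ℂ)‖) +
        ‖∫ x in a..b, c * ee (φ x) * ((-ψ' x / (ψ x) ^ 2 : ℝ) : ℂ)‖ :=
        (norm_sub_le _ _).trans (by gcongr; exact norm_sub_le _ _)
    _ ≤ (1 / (2 * Real.pi) * (ψ b)⁻¹ + 1 / (2 * Real.pi) * (ψ a)⁻¹) +
        1 / (2 * Real.pi) * ((ψ b)⁻¹ - (ψ a)⁻¹) := by
        rw [hbd b hib0, hbd a hia0]
        gcongr
    _ = 1 / (2 * Real.pi) * (2 * (ψ b)⁻¹) := by ring
    _ ≤ 1 / 3 * (2 * (ψ b)⁻¹) := by gcongr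
    _ ≤ 1 / lam := by nlinarith only [hia, hib, hia0]

theorem first_deriv (φ ψ ψ' : ℝ → ℝ) (a b : ℕ) (hab : a ≤ b) (σ lam Lam : ℝ) (hσ : |σ| = 1)
    (hlam : 0 < lam) (h1 : ∀ x ∈ Set.Icc (a : ℝ) b, HasDerivAt φ (σ * ψ x) x)
    (h2 : ∀ x ∈ Set.Icc (a : ℝ) b, HasDerivAt ψ (ψ' x) x)
    (h3 : ∀ x ∈ Set.Icc (a : ℝ) b, ψ' x ≤ 0) (h4 : ContinuousOn ψ' (Set.Icc (a : ℝ) b))
    (h5 : ∀ x ∈ Set.Icc (a : ℝ) b, lam ≤ ψ x ∧ ψ x ≤ Lam) :
    ‖∑ n ∈ Ioc a b, ee (φ n)‖ ≤ 1 / lam + 7 * Lam * ((b : ℝ) - a) := by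
  have habR : (a : ℝ) ≤ b := by exact_mod_cast hab
  have hA := Ibp_sum_int φ ψ a b hab σ Lam hσ h1
    (fun x hx => ⟨lt_of_lt_of_le hlam (h5 x hx).1, (h5 x hx).2⟩)
  have hB := Ibp_int φ ψ ψ' a b habR σ lam hσ hlam h1 h2 h3 h4 (fun x hx => (h5 x hx).1)
  have hLam0 : 0 ≤ Lam := by
    have hb : (b : ℝ) ∈ Set.Icc (a : ℝ) b := ⟨habR, le_refl _⟩
    have := h5 _ hb
    linarith only [hlam, this, this.1, this.2]
  have hpi : 2 * Real.pi ≤ 7 := by
    have := Real.pi_lt_d2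
    linarith only [this]
  calc ‖∑ n ∈ Ioc a b, ee (φ n)‖
      = ‖(∑ n ∈ Ioc a b, ee (φ n) - ∫ x in (a : ℝ)..b, ee (φ x)) +
          ∫ x in (a : ℝ)..b, ee (φ x)‖ := by rw [sub_add_cancel]
    _ ≤ 2 * Real.pi * Lam * ((b : ℝ) - a) + 1 / lam :=
        (norm_add_le _ _).trans (add_le_add hA hB)
    _ ≤ 7 * Lam * ((b : ℝ) - a) + 1 / lam := by
        gcongr
    _ = 1 / lam + 7 * Lam * ((b : ℝ) - a) := by ring

end Pool.Agent.H76.EHB

end

section

/-!
# EHB Lap: iterated differences of `1/(x+β)`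

`LL hs β x = ∫_0^∞ exp(-(x+β) s) ∏_{h ∈ hs} (1 - exp(-h s)) ds` for `x + β > 0`, all `h > 0`.
`LL_nil`: `1/(x+β)`.  `LL_cons`: `(1 - e^{-hs}) e^{-(x+β)s} = e^{-(x+β)s} - e^{-(x+h+β)s}`.
`LL_le`, `LL_ge`: `h s e^{-hs} ≤ 1 - e^{-hs} ≤ h s` and `∫_0^∞ e^{-c s} s^J ds = J!/c^{J+1}` (`Real.integral_rpow_mul_exp_neg_mul_Ioi` or
`integral_exp_neg_mul_rpow`...).
`LL_deriv`: by induction on `hs` from `LL_cons` (derivative of `LL (h :: hs)` at `x` is the difference of the derivatives), the derivative at `x`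
is `-∫_0^∞ s exp(-(x+β)s) ∏(1 - e^{-hs}) ds ≤ 0`; it may be simplest to define `LD` by this integral, prove `LD_nil` (`1/(x+β)^2`), `LD_cons`,
`0 ≤ LD`, `HasDerivAt (LL hs β) (-LD hs β x) x`, and the continuity of `LD` by the same induction.
-/

set_option autoImplicit false

namespace Pool.Agent.H76.EHB

open MeasureTheory

noncomputable def LL (hs : List ℝ) (β x : ℝ) : ℝ :=
  ∫ s in Set.Ioi (0 : ℝ), Real.exp (-(x + β) * s) * (hs.map (fun h => 1 - Real.exp (-h * s))).prod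

noncomputable def LD (hs : List ℝ) (β x : ℝ) : ℝ :=
  ∫ s in Set.Ioi (0 : ℝ), s * (Real.exp (-(x + β) * s) * (hs.map (fun h => 1 - Real.exp (-h * s))).prod)

private lemma lap_prod_nonneg (hs : List ℝ) (hpos : ∀ g ∈ hs, 0 < g) {s : ℝ} (h0 : 0 < s) :
    0 ≤ (hs.map (fun h => 1 - Real.exp (-h * s))).prod := by
  induction hs with
  | nil => simp
  | cons a l ih =>
    rw [List.map_cons, List.prod_cons]
    have ha : 0 < a := hpos a (by simp)
    have h1 : Real.exp (-a * s) ≤ 1 := by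
      rw [Real.exp_le_one_iff]
      nlinarith only [h0, ha]
    exact mul_nonneg (by linarith) (ih (fun g hg => hpos g (by simp [hg])))

private lemma lap_prod_le_one (hs : List ℝ) (hpos : ∀ g ∈ hs, 0 < g) {s : ℝ} (h0 : 0 < s) :
    (hs.map (fun h => 1 - Real.exp (-h * s))).prod ≤ 1 := by
  induction hs with
  | nil => simp
  | cons a l ih =>
    rw [List.map_cons, List.prod_cons]
    have h1 : 0 < Real.exp (-a * s) := Real.exp_pos _
    have h2 := ih (fun g hg => hpos g (by simp [hg]))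
    have h3 := lap_prod_nonneg l (fun g hg => hpos g (by simp [hg])) h0
    have ha : 0 < a := hpos a (by simp)
    have h4 : Real.exp (-a * s) ≤ 1 := by
      rw [Real.exp_le_one_iff]
      nlinarith only [h0, ha]
    calc (1 - Real.exp (-a * s)) * (l.map (fun h => 1 - Real.exp (-h * s))).prod
        ≤ 1 * 1 := mul_le_mul (by linarith only [h1]) h2 h3 (by norm_num)
      _ = 1 := by norm_num

private lemma lap_prod_le (hs : List ℝ) (hpos : ∀ g ∈ hs, 0 < g) {s : ℝ} (h0 : 0 < s) :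
    (hs.map (fun h => 1 - Real.exp (-h * s))).prod ≤ hs.prod * s ^ hs.length := by
  induction hs with
  | nil => simp
  | cons a l ih =>
    rw [List.map_cons, List.prod_cons, List.prod_cons, List.length_cons]
    have h2 := ih (fun g hg => hpos g (by simp [hg]))
    have h3 := lap_prod_nonneg l (fun g hg => hpos g (by simp [hg])) h0
    have ha : 0 < a := hpos a (by simp)
    have h4 : 1 - Real.exp (-a * s) ≤ a * s := by
      have := Real.add_one_le_exp (-a * s)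
      nlinarith only [this]
    calc (1 - Real.exp (-a * s)) * (l.map (fun h => 1 - Real.exp (-h * s))).prod
        ≤ (a * s) * (l.prod * s ^ l.length) := mul_le_mul h4 h2 h3 (by positivity)
      _ = a * l.prod * s ^ (l.length + 1) := by ring

private lemma lap_prod_pos (hs : List ℝ) (hpos : ∀ g ∈ hs, 0 < g) : 0 < hs.prod := by
  induction hs with
  | nil => simp
  | cons a l ih =>
    rw [List.prod_cons]
    exact mul_pos (hpos a (by simp)) (ih (fun g hg => hpos g (by simp [hg])))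

private lemma lap_sum_nonneg (hs : List ℝ) (hpos : ∀ g ∈ hs, 0 < g) : 0 ≤ hs.sum := by
  induction hs with
  | nil => simp
  | cons a l ih =>
    rw [List.sum_cons]
    have := hpos a (by simp)
    have := ih (fun g hg => hpos g (by simp [hg]))
    linarith

private lemma lap_prod_ge (hs : List ℝ) (hpos : ∀ g ∈ hs, 0 < g) {s : ℝ} (h0 : 0 < s) :
    hs.prod * s ^ hs.length * Real.exp (-hs.sum * s) ≤
      (hs.map (fun h => 1 - Real.exp (-h * s))).prod := by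
  induction hs with
  | nil => simp
  | cons a l ih =>
    rw [List.map_cons, List.prod_cons, List.prod_cons, List.length_cons, List.sum_cons]
    have h2 := ih (fun g hg => hpos g (by simp [hg]))
    have hl := lap_prod_pos l (fun g hg => hpos g (by simp [hg]))
    have h3 := lap_prod_nonneg l (fun g hg => hpos g (by simp [hg])) h0
    have ha : 0 < a := hpos a (by simp)
    have h4 : a * s * Real.exp (-a * s) ≤ 1 - Real.exp (-a * s) := by
      have h5 := Real.add_one_le_exp (a * s)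
      have h6 : Real.exp (a * s) * Real.exp (-a * s) = 1 := by
        rw [← Real.exp_add]; simp
      have h7 := Real.exp_pos (-a * s)
      nlinarith only [h6, h5, h7, mul_le_mul_of_nonneg_right h5 h7.le]
    have h8 : Real.exp (-(a + l.sum) * s) = Real.exp (-a * s) * Real.exp (-l.sum * s) := by
      rw [← Real.exp_add]; ring_nf
    calc a * l.prod * s ^ (l.length + 1) * Real.exp (-(a + l.sum) * s)
        = (a * s * Real.exp (-a * s)) * (l.prod * s ^ l.length * Real.exp (-l.sum * s)) := by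
          rw [h8]; ring
      _ ≤ (1 - Real.exp (-a * s)) * (l.map (fun h => 1 - Real.exp (-h * s))).prod := by
          apply mul_le_mul h4 h2 (by positivity)
          exact le_trans (by positivity) h4

private lemma lap_cont (hs : List ℝ) :
    Continuous (fun s : ℝ => (hs.map (fun h => 1 - Real.exp (-h * s))).prod) := by
  induction hs with
  | nil => simpa using continuous_const
  | cons a l ih =>
    simp only [List.map_cons, List.prod_cons]
    fun_prop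

private lemma lap_pow_int (n : ℕ) {c : ℝ} (hc : 0 < c) :
    IntegrableOn (fun s : ℝ => s ^ n * Real.exp (-c * s)) (Set.Ioi 0) := by
  have h := integrableOn_rpow_mul_exp_neg_mul_rpow (p := 1) (s := (n : ℝ)) (b := c)
    (by have : (0 : ℝ) ≤ n := Nat.cast_nonneg n
        linarith only) one_pos hc
  refine h.congr_fun (fun s _ => ?_) measurableSet_Ioi
  simp [Real.rpow_natCast]

private lemma lap_pow_integral (n : ℕ) {c : ℝ} (hc : 0 < c) :
    ∫ s in Set.Ioi (0 : ℝ), s ^ n * Real.exp (-c * s) = (n.factorial : ℝ) / c ^ (n + 1) := by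
  have h := Real.integral_rpow_mul_exp_neg_mul_Ioi (a := (n : ℝ) + 1) (r := c) (by positivity) hc
  have h1 : ∫ s in Set.Ioi (0 : ℝ), s ^ n * Real.exp (-c * s)
      = ∫ t : ℝ in Set.Ioi 0, t ^ ((n : ℝ) + 1 - 1) * Real.exp (-(c * t)) := by
    apply setIntegral_congr_fun measurableSet_Ioi
    intro s _
    simp [Real.rpow_natCast]
  rw [h1, h, Real.Gamma_nat_eq_factorial]
  have h2 : (1 / c) ^ ((n : ℝ) + 1) = 1 / c ^ (n + 1) := by
    have : ((n : ℝ) + 1) = ((n + 1 : ℕ) : ℝ) := by push_cast; ring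
    rw [this, Real.rpow_natCast, one_div, one_div, inv_pow]
  rw [h2]
  ring

private lemma lap_int (hs : List ℝ) (hpos : ∀ g ∈ hs, 0 < g) {c : ℝ} (hc : 0 < c) :
    IntegrableOn (fun s : ℝ => Real.exp (-c * s) * (hs.map (fun h => 1 - Real.exp (-h * s))).prod)
      (Set.Ioi 0) := by
  have h := lap_pow_int 0 hc
  refine Integrable.mono' h ?_ ?_
  · exact (Continuous.aestronglyMeasurable (by
      have := lap_cont hs
      fun_prop))
  · refine (ae_restrict_iff' measurableSet_Ioi).mpr (Filter.Eventually.of_forall (fun s hs0 => ?_))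
    have h0 : 0 < s := hs0
    have h1 := lap_prod_nonneg hs hpos h0
    have h2 := lap_prod_le_one hs hpos h0
    have h3 := Real.exp_pos (-c * s)
    rw [Real.norm_of_nonneg (by positivity)]
    simp only [pow_zero, one_mul]
    nlinarith only [h2, h3]

private lemma lap_int' (hs : List ℝ) (hpos : ∀ g ∈ hs, 0 < g) {c : ℝ} (hc : 0 < c) :
    IntegrableOn (fun s : ℝ =>
      s * (Real.exp (-c * s) * (hs.map (fun h => 1 - Real.exp (-h * s))).prod)) (Set.Ioi 0) := by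
  have h := lap_pow_int 1 hc
  refine Integrable.mono' h ?_ ?_
  · exact (Continuous.aestronglyMeasurable (by
      have := lap_cont hs
      fun_prop))
  · refine (ae_restrict_iff' measurableSet_Ioi).mpr (Filter.Eventually.of_forall (fun s hs0 => ?_))
    have h0 : 0 < s := hs0
    have h1 := lap_prod_nonneg hs hpos h0
    have h2 := lap_prod_le_one hs hpos h0
    have h3 := Real.exp_pos (-c * s)
    rw [Real.norm_of_nonneg (by positivity)]
    simp only [pow_one]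
    apply mul_le_mul_of_nonneg_left _ h0.le
    nlinarith only [h2, h3]

theorem LL_nil (β x : ℝ) (hx : 0 < x + β) : LL [] β x = 1 / (x + β) := by
  have h := lap_pow_integral 0 hx
  simp only [pow_zero, one_mul, Nat.factorial_zero, Nat.cast_one, zero_add, pow_one] at h
  simpa [LL] using h

theorem LL_cons (h : ℝ) (hs : List ℝ) (β x : ℝ) (hx : 0 < x + β) (hh : 0 < h) (hpos : ∀ g ∈ hs, 0 < g) :
    LL (h :: hs) β x = LL hs β x - LL hs β (x + h) := by
  have h1 := lap_int hs hpos hx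
  have h2 := lap_int hs hpos (c := x + h + β) (by linarith only [hx, hh])
  unfold LL
  rw [← integral_sub h1 h2]
  apply setIntegral_congr_fun measurableSet_Ioi
  intro s _
  simp only [List.map_cons, List.prod_cons]
  have h3 : Real.exp (-(x + h + β) * s) = Real.exp (-(x + β) * s) * Real.exp (-h * s) := by
    rw [← Real.exp_add]; ring_nf
  rw [h3]
  ring

private lemma LD_nil (β x : ℝ) (hx : 0 < x + β) : LD [] β x = 1 / (x + β) ^ 2 := by
  have h := lap_pow_integral 1 hx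
  simp only [pow_one, Nat.factorial_one, Nat.cast_one, one_add_one_eq_two] at h
  simpa [LD] using h

private lemma LD_cons (h : ℝ) (hs : List ℝ) (β x : ℝ) (hx : 0 < x + β) (hh : 0 < h)
    (hpos : ∀ g ∈ hs, 0 < g) :
    LD (h :: hs) β x = LD hs β x - LD hs β (x + h) := by
  have h1 := lap_int' hs hpos hx
  have h2 := lap_int' hs hpos (c := x + h + β) (by linarith)
  unfold LD
  rw [← integral_sub h1 h2]
  apply setIntegral_congr_fun measurableSet_Ioi
  intro s _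
  simp only [List.map_cons, List.prod_cons]
  have h3 : Real.exp (-(x + h + β) * s) = Real.exp (-(x + β) * s) * Real.exp (-h * s) := by
    rw [← Real.exp_add]; ring_nf
  rw [h3]
  ring

theorem LL_le (hs : List ℝ) (β x : ℝ) (hx : 0 < x + β) (hpos : ∀ g ∈ hs, 0 < g) :
    LL hs β x ≤ (hs.length.factorial : ℝ) * hs.prod / (x + β) ^ (hs.length + 1) := by
  have h1 := lap_int hs hpos hx
  have h2 := (lap_pow_int hs.length hx).const_mul hs.prod
  have h3 : LL hs β x ≤ ∫ s in Set.Ioi (0 : ℝ),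
      hs.prod * (s ^ hs.length * Real.exp (-(x + β) * s)) := by
    unfold LL
    apply setIntegral_mono_on h1 h2 measurableSet_Ioi
    intro s hs0
    have h0 : 0 < s := hs0
    have h4 := lap_prod_le hs hpos h0
    have h5 := Real.exp_pos (-(x + β) * s)
    nlinarith only [h4, h5, mul_le_mul_of_nonneg_left h4 h5.le]
  rw [integral_const_mul, lap_pow_integral hs.length hx] at h3
  calc LL hs β x ≤ hs.prod * ((hs.length.factorial : ℝ) / (x + β) ^ (hs.length + 1)) := h3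
    _ = (hs.length.factorial : ℝ) * hs.prod / (x + β) ^ (hs.length + 1) := by ring

theorem LL_ge (hs : List ℝ) (β x : ℝ) (hx : 0 < x + β) (hpos : ∀ g ∈ hs, 0 < g) :
    (hs.length.factorial : ℝ) * hs.prod / (x + β + hs.sum) ^ (hs.length + 1) ≤ LL hs β x := by
  have h1 := lap_int hs hpos hx
  have hs0 := lap_sum_nonneg hs hpos
  have hx2 : 0 < x + β + hs.sum := by linarith
  have h2 := (lap_pow_int hs.length hx2).const_mul hs.prod
  have h3 : ∫ s in Set.Ioi (0 : ℝ),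
      hs.prod * (s ^ hs.length * Real.exp (-(x + β + hs.sum) * s)) ≤ LL hs β x := by
    unfold LL
    apply setIntegral_mono_on h2 h1 measurableSet_Ioi
    intro s hs0
    have h0 : 0 < s := hs0
    have h4 := lap_prod_ge hs hpos h0
    have h5 := Real.exp_pos (-(x + β) * s)
    have h6 : Real.exp (-(x + β + hs.sum) * s)
        = Real.exp (-(x + β) * s) * Real.exp (-hs.sum * s) := by
      rw [← Real.exp_add]; ring_nf
    rw [h6]
    calc hs.prod * (s ^ hs.length * (Real.exp (-(x + β) * s) * Real.exp (-hs.sum * s)))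
        = Real.exp (-(x + β) * s) * (hs.prod * s ^ hs.length * Real.exp (-hs.sum * s)) := by ring
      _ ≤ Real.exp (-(x + β) * s) * (hs.map (fun h => 1 - Real.exp (-h * s))).prod :=
          mul_le_mul_of_nonneg_left h4 h5.le
  rw [integral_const_mul, lap_pow_integral hs.length hx2] at h3
  calc (hs.length.factorial : ℝ) * hs.prod / (x + β + hs.sum) ^ (hs.length + 1)
      = hs.prod * ((hs.length.factorial : ℝ) / (x + β + hs.sum) ^ (hs.length + 1)) := by ring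
    _ ≤ LL hs β x := h3

theorem LD_nonneg (hs : List ℝ) (β x : ℝ) (hpos : ∀ g ∈ hs, 0 < g) : 0 ≤ LD hs β x := by
  unfold LD
  apply setIntegral_nonneg measurableSet_Ioi
  intro s hs0
  have h0 : 0 < s := hs0
  have h1 := lap_prod_nonneg hs hpos h0
  positivity

theorem LL_hasDerivAt (hs : List ℝ) (β x : ℝ) (hx : 0 < x + β) (hpos : ∀ g ∈ hs, 0 < g) :
    HasDerivAt (LL hs β) (-LD hs β x) x := by
  induction hs generalizing x with
  | nil =>
    rw [LD_nil β x hx]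
    have h1 : HasDerivAt (fun y : ℝ => (y + β)⁻¹) (-1 / (x + β) ^ 2) x :=
      ((hasDerivAt_id x).add_const β).inv hx.ne'
    have h2 : (LL [] β) =ᶠ[nhds x] (fun y : ℝ => (y + β)⁻¹) := by
      have h3 : ∀ᶠ y in nhds x, -β < y := lt_mem_nhds (by linarith)
      filter_upwards [h3] with y hy
      rw [LL_nil β y (by linarith), one_div]
    have h4 := h1.congr_of_eventuallyEq h2
    have h5 : -(1 / (x + β) ^ 2) = -1 / (x + β) ^ 2 := by ring
    rw [h5]
    exact h4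
  | cons a l ih =>
    have ha : 0 < a := hpos a (by simp)
    have hl : ∀ g ∈ l, 0 < g := fun g hg => hpos g (by simp [hg])
    rw [LD_cons a l β x hx ha hl]
    have h1 := ih x hx hl
    have h2 := (ih (x + a) (by linarith) hl).comp_add_const x a
    have h3 : (LL (a :: l) β) =ᶠ[nhds x] (fun y : ℝ => LL l β y - LL l β (y + a)) := by
      have h4 : ∀ᶠ y in nhds x, -β < y := lt_mem_nhds (by linarith)
      filter_upwards [h4] with y hy
      exact LL_cons a l β y (by linarith) ha hl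
    have h5 := (h1.sub h2).congr_of_eventuallyEq h3
    have h6 : -(LD l β x - LD l β (x + a)) = -LD l β x - -LD l β (x + a) := by ring
    rw [h6]
    exact h5

theorem LD_continuousOn (hs : List ℝ) (β : ℝ) (hpos : ∀ g ∈ hs, 0 < g) :
    ContinuousOn (LD hs β) (Set.Ioi (-β)) := by
  induction hs with
  | nil =>
    have h1 : ContinuousOn (fun y : ℝ => 1 / (y + β) ^ 2) (Set.Ioi (-β)) := by
      apply ContinuousOn.div continuousOn_const (by fun_prop)
      intro y hy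
      have : 0 < y + β := by
        have : -β < y := hy
        linarith
      positivity
    refine h1.congr (fun y hy => ?_)
    have : -β < y := hy
    exact LD_nil β y (by linarith)
  | cons a l ih =>
    have ha : 0 < a := hpos a (by simp)
    have hl : ∀ g ∈ l, 0 < g := fun g hg => hpos g (by simp [hg])
    have h1 := ih hl
    have h2 : ContinuousOn (fun y : ℝ => LD l β (y + a)) (Set.Ioi (-β)) := by
      refine h1.comp (by fun_prop) (fun y hy => ?_)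
      have : -β < y := hy
      show -β < y + a
      linarith
    refine (h1.sub h2).congr (fun y hy => ?_)
    have : -β < y := hy
    exact LD_cons a l β y (by linarith) ha hl

end Pool.Agent.H76.EHB

end

section

/-!
# EHB AvA: the differenced sums of `t log(x+β)`

`PH hs t β` is the iterated difference of `x ↦ t log(x+β)`; derivative `(-1)^J t LL hs β x`, `J = hs.length` (induction, `LL_nil`, `LL_cons`).
`av_base` (`J` differences already made, all `h ≥ 1`, on an interval `[a,b] ⊆ [M, 2M]`, `hs.sum ≤ M`, `0 ≤ β ≤ 1`, `t ≠ 0`): `first_deriv` with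
`ψ = |t| LL hs β`, `σ = ±1`, `λ = |t| J! ∏h/(4M)^{J+1}` (`x + β + ∑h ≤ 2M + 1 + M ≤ 4M`), `Λ = |t| J! ∏h/M^{J+1}`, `b - a ≤ M`.
-/

set_option autoImplicit false

namespace Pool.Agent.H76.EHB

open Finset
open Pool.Agent.H91.PK (ee)

/-- iterated differences of `x ↦ t log(x + β)` -/
noncomputable def PH : List ℝ → ℝ → ℝ → ℝ → ℝ
  | [], t, β, x => t * Real.log (x + β)
  | (h :: hs), t, β, x => PH hs t β (x + h) - PH hs t β x

theorem AvA_deriv (hs : List ℝ) (t β : ℝ) (hpos : ∀ g ∈ hs, 0 < g) : ∀ x : ℝ, 0 < x + β →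
    HasDerivAt (PH hs t β) ((-1) ^ hs.length * t * LL hs β x) x := by
  induction hs with
  | nil =>
    intro x hx
    have h1 : HasDerivAt (fun y : ℝ => t * Real.log (y + β)) (t * (1 / (x + β))) x := by
      have h2 : HasDerivAt (fun y : ℝ => y + β) 1 x := (hasDerivAt_id x).add_const β
      exact (h2.log hx.ne').const_mul t
    rw [LL_nil β x hx]
    simpa [PH] using h1
  | cons h hs ih =>
    intro x hx
    have hh : 0 < h := hpos h (by simp)
    have hpos' : ∀ g ∈ hs, 0 < g := fun g hg => hpos g (by simp [hg])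
    have h1 := ih hpos' (x + h) (by linarith)
    have h2 := ih hpos' x hx
    have h3 : HasDerivAt (fun y : ℝ => PH hs t β (y + h))
        ((-1) ^ hs.length * t * LL hs β (x + h)) x := by
      have h4 : HasDerivAt (fun y : ℝ => y + h) 1 x := (hasDerivAt_id x).add_const h
      have h5 := HasDerivAt.comp x h1 h4
      rw [mul_one] at h5
      exact h5
    have h6 := h3.sub h2
    rw [LL_cons h hs β x hx hh hpos', List.length_cons, pow_succ]
    have e : (-1 : ℝ) ^ hs.length * t * LL hs β (x + h) - (-1) ^ hs.length * t * LL hs β x =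
        (-1) ^ hs.length * (-1) * t * (LL hs β x - LL hs β (x + h)) := by ring
    rw [← e]
    exact h6

theorem av_base (hs : List ℝ) (t β : ℝ) (M a b : ℕ) (hM : 1 ≤ M) (ha : M ≤ a) (hb : b ≤ 2 * M)
    (hβ : 0 ≤ β) (hβ1 : β ≤ 1) (ht : t ≠ 0) (hpos : ∀ g ∈ hs, 1 ≤ g) (hsum : hs.sum ≤ M) :
    ‖∑ n ∈ Ioc a b, ee (PH hs t β n)‖
      ≤ (4 * M : ℝ) ^ (hs.length + 1) / (|t| * hs.prod)
        + 7 * (hs.length.factorial : ℝ) * |t| * hs.prod / (M : ℝ) ^ hs.length := by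
  have hM' : (1 : ℝ) ≤ M := by exact_mod_cast hM
  have hpos' : ∀ g ∈ hs, 0 < g := fun g hg => lt_of_lt_of_le one_pos (hpos g hg)
  have hprod : 0 < hs.prod := List.prod_pos hpos'
  have hsum0 : 0 ≤ hs.sum := List.sum_nonneg (fun g hg => (hpos' g hg).le)
  have ht' : 0 < |t| := abs_pos.mpr ht
  have hfac : (1 : ℝ) ≤ (hs.length.factorial : ℝ) := by exact_mod_cast Nat.succ_le_of_lt (Nat.factorial_pos _)
  have hfac0 : (0 : ℝ) < (hs.length.factorial : ℝ) := by linarith only [hfac]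
  rcases le_total a b with hab | hab
  swap
  · rw [Finset.Ioc_eq_empty_of_le hab, Finset.sum_empty, norm_zero]
    positivity
  have haR : (M : ℝ) ≤ a := by exact_mod_cast ha
  have hbR : (b : ℝ) ≤ 2 * M := by exact_mod_cast hb
  have hxpos : ∀ x ∈ Set.Icc (a : ℝ) b, (M : ℝ) ≤ x + β ∧ x + β + hs.sum ≤ 4 * M := by
    intro x hx
    exact ⟨by linarith only [hβ, haR, hx, hx.1], by linarith only [hβ1, hsum, hM', hbR, hx, hx.2]⟩
  have key := first_deriv (PH hs t β) (fun x => |t| * LL hs β x) (fun x => |t| * (-LD hs β x)) a b hab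
    ((-1) ^ hs.length * SignType.sign t)
    (|t| * ((hs.length.factorial : ℝ) * hs.prod / (4 * M) ^ (hs.length + 1)))
    (|t| * ((hs.length.factorial : ℝ) * hs.prod / (M : ℝ) ^ (hs.length + 1))) ?_ (by positivity)
    ?_ ?_ ?_ ?_ ?_
  · refine key.trans (add_le_add ?_ ?_)
    · rw [one_div, mul_div_assoc', inv_div]
      refine div_le_div_of_nonneg_left (by positivity) (by positivity) ?_
      refine mul_le_mul_of_nonneg_left ?_ ht'.le
      calc hs.prod = 1 * hs.prod := (one_mul _).symm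
        _ ≤ (hs.length.factorial : ℝ) * hs.prod := mul_le_mul_of_nonneg_right hfac hprod.le
    · have hba : (b : ℝ) - a ≤ M := by linarith only [haR, hbR]
      calc 7 * (|t| * ((hs.length.factorial : ℝ) * hs.prod / (M : ℝ) ^ (hs.length + 1))) *
            ((b : ℝ) - a)
          ≤ 7 * (|t| * ((hs.length.factorial : ℝ) * hs.prod / (M : ℝ) ^ (hs.length + 1))) * M :=
            mul_le_mul_of_nonneg_left hba (by positivity)
        _ = 7 * (hs.length.factorial : ℝ) * |t| * hs.prod / (M : ℝ) ^ hs.length := by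
            rw [pow_succ]
            field_simp
  · rw [abs_mul, abs_pow, abs_neg, abs_one, one_pow, one_mul]
    rcases lt_or_gt_of_ne ht with h | h
    · rw [sign_neg h]; simp
    · rw [sign_pos h]; simp
  · intro x hx
    have h1 := AvA_deriv hs t β hpos' x (by linarith only [hM', hxpos, hx, (hxpos x hx).1])
    have e : (-1 : ℝ) ^ hs.length * t * LL hs β x =
        (-1) ^ hs.length * (SignType.sign t : ℝ) * (|t| * LL hs β x) := by
      have h2 : (SignType.sign t : ℝ) * |t| = t := sign_mul_abs t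
      calc (-1 : ℝ) ^ hs.length * t * LL hs β x =
          (-1 : ℝ) ^ hs.length * ((SignType.sign t : ℝ) * |t|) * LL hs β x := by rw [h2]
        _ = _ := by ring
    rw [← e]
    exact h1
  · intro x hx
    exact (LL_hasDerivAt hs β x (by linarith only [hM', hxpos, hx, (hxpos x hx).1]) hpos').const_mul |t|
  · intro x hx
    have := LD_nonneg hs β x hpos'
    nlinarith only [ht', this]
  · refine ContinuousOn.mul continuousOn_const ?_
    refine ((LD_continuousOn hs β hpos').mono ?_).neg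
    intro x hx
    have := (hxpos x hx).1
    simp only [Set.mem_Ioi]
    linarith only [hM', this]
  · intro x hx
    obtain ⟨h1, h2⟩ := hxpos x hx
    have hx0 : 0 < x + β := by linarith only [hM', h1]
    constructor
    · refine mul_le_mul_of_nonneg_left ?_ ht'.le
      refine le_trans ?_ (LL_ge hs β x hx0 hpos')
      refine div_le_div_of_nonneg_left (by positivity) (by positivity) ?_
      exact pow_le_pow_left₀ (by linarith only [hM', hsum0, h1]) h2 _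
    · refine mul_le_mul_of_nonneg_left ?_ ht'.le
      refine (LL_le hs β x hx0 hpos').trans ?_
      refine div_le_div_of_nonneg_left (by positivity) (by positivity) ?_
      exact pow_le_pow_left₀ (by linarith only [hM']) h1 _

end Pool.Agent.H76.EHB

end

section

/-!
# EHB Vdc1: the inequality of Weyl and van der Corput

Put `z n = 0` outside `Ioc a b`.  `H ∑_n z_n = ∑_m ∑_{0 ≤ h < H} z_{m+h}` where `m` runs over at most `Y + H ≤ 2Y` integers; Cauchy: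
`H^2 |∑ z|^2 ≤ (Y+H) ∑_m |∑_{h<H} z_{m+h}|^2 = (Y+H) ∑_{h1,h2<H} ∑_m z_{m+h1} conj z_{m+h2}
 ≤ (Y+H) (H Y + 2 H ∑_{h=1}^{H-1} |∑_n z_{n+h} conj z_n|)`, the inner sum over `n ∈ Ioc a (b-h)`.
(Work with integers or shift; with natural numbers take `m + h` with `m` from `a + 1 - H`: use `ℤ` or replace `z_{m+h}` by
`z_{m-h}`, `m ∈ Ioc a (b + H)`.)
-/

set_option autoImplicit false

namespace Pool.Agent.H76.EHB

open Finset

private theorem vdc_shift (g : ℕ → ℂ) (c d h : ℕ) :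
    ∑ n ∈ Ioc c d, g (n + h) = ∑ m ∈ Ioc (c + h) (d + h), g m := by
  rw [← Finset.map_add_right_Ioc, Finset.sum_map]
  simp

private theorem vdc_pair (z w : ℕ → ℂ) (a b H : ℕ)
    (hw1 : ∀ n ∈ Ioc a b, w n = z n) (hw0 : ∀ n, n ∉ Ioc a b → w n = 0) (h1 h2 : ℕ)
    (h12 : h1 ≤ h2) (h2H : h2 ≤ H) :
    ∑ m ∈ Ioc a (b + H), w (m - h1) * (starRingEnd ℂ) (w (m - h2))
      = ∑ n ∈ Ioc a (b - (h2 - h1)), z (n + (h2 - h1)) * (starRingEnd ℂ) (z n) := by
  have e1 : ∑ n ∈ Ioc a (b - (h2 - h1)), z (n + (h2 - h1)) * (starRingEnd ℂ) (z n)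
      = ∑ n ∈ Ioc a (b - (h2 - h1)), (fun m => w (m - h1) * (starRingEnd ℂ) (w (m - h2))) (n + h2) := by
    refine Finset.sum_congr rfl fun n hn => ?_
    rw [mem_Ioc] at hn
    show z (n + (h2 - h1)) * (starRingEnd ℂ) (z n)
      = w (n + h2 - h1) * (starRingEnd ℂ) (w (n + h2 - h2))
    have e2 : n + h2 - h2 = n := by omega
    have e3 : n + h2 - h1 = n + (h2 - h1) := by omega
    rw [e2, e3, hw1 n (mem_Ioc.2 ⟨by omega, by omega⟩), hw1 _ (mem_Ioc.2 ⟨by omega, by omega⟩)]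
  rw [e1, vdc_shift (fun m => w (m - h1) * (starRingEnd ℂ) (w (m - h2))) _ _ h2]
  symm
  apply Finset.sum_subset
  · intro m hm
    rw [mem_Ioc] at hm ⊢
    omega
  · intro m hm hm2
    rw [mem_Ioc] at hm hm2
    by_cases hc : m - h1 ∈ Ioc a b
    · have hc2 : m - h2 ∉ Ioc a b := by
        intro hc2
        rw [mem_Ioc] at hc hc2
        apply hm2
        omega
      rw [hw0 _ hc2]; simp
    · rw [hw0 _ hc]; simp

private theorem vdc_single (z w : ℕ → ℂ) (a b H : ℕ)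
    (hw1 : ∀ n ∈ Ioc a b, w n = z n) (hw0 : ∀ n, n ∉ Ioc a b → w n = 0) (h : ℕ) (hH : h ≤ H) :
    ∑ m ∈ Ioc a (b + H), w (m - h) = ∑ n ∈ Ioc a b, z n := by
  have e1 : ∑ n ∈ Ioc a b, z n = ∑ n ∈ Ioc a b, (fun m => w (m - h)) (n + h) := by
    refine Finset.sum_congr rfl fun n hn => ?_
    show z n = w (n + h - h)
    rw [show n + h - h = n by omega, hw1 n hn]
  rw [e1, vdc_shift (fun m => w (m - h)) _ _ h]
  symm
  apply Finset.sum_subset
  · intro m hm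
    rw [mem_Ioc] at hm ⊢
    omega
  · intro m hm hm2
    rw [mem_Ioc] at hm hm2
    refine hw0 _ fun hc => ?_
    rw [mem_Ioc] at hc
    apply hm2
    omega

theorem vdc_step (z : ℕ → ℂ) (hz : ∀ n, ‖z n‖ ≤ 1) (a b Y H : ℕ) (hab : b - a ≤ Y) (hH : 1 ≤ H)
    (hHY : H ≤ Y) :
    ‖∑ n ∈ Ioc a b, z n‖ ^ 2
      ≤ 2 * (Y : ℝ) ^ 2 / H + 4 * (Y : ℝ) / H * ∑ h ∈ Icc 1 H,
          ‖∑ n ∈ Ioc a (b - h), z (n + h) * (starRingEnd ℂ) (z n)‖ := by
  classical
  set w : ℕ → ℂ := fun n => if n ∈ Ioc a b then z n else 0 with hw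
  have hw1 : ∀ n ∈ Ioc a b, w n = z n := fun n hn => by simp only [hw, if_pos hn]
  have hw0 : ∀ n, n ∉ Ioc a b → w n = 0 := fun n hn => by simp only [hw, if_neg hn]
  set C : ℕ → ℝ := fun h => ‖∑ n ∈ Ioc a (b - h), z (n + h) * (starRingEnd ℂ) (z n)‖ with hC
  have hC0 : ∀ h, 0 ≤ C h := fun h => norm_nonneg _
  set Sg : ℝ := ∑ h ∈ Icc 1 H, C h with hSg
  have hSg0 : 0 ≤ Sg := Finset.sum_nonneg fun h _ => hC0 h
  have hCz : C 0 ≤ Y := by
    simp only [hC]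
    refine (norm_sum_le _ _).trans ?_
    calc ∑ n ∈ Ioc a (b - 0), ‖z (n + 0) * (starRingEnd ℂ) (z n)‖
        ≤ ∑ n ∈ Ioc a (b - 0), (1:ℝ) := by
          refine Finset.sum_le_sum fun n _ => ?_
          rw [norm_mul, RCLike.norm_conj]
          calc ‖z (n + 0)‖ * ‖z n‖ ≤ 1 * 1 := mul_le_mul (hz _) (hz _) (norm_nonneg _) (by norm_num)
            _ = 1 := by norm_num
      _ = ((b - a : ℕ) : ℝ) := by simp
      _ ≤ Y := by exact_mod_cast hab
  -- pairs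
  set T : ℕ → ℕ → ℂ := fun h1 h2 => ∑ m ∈ Ioc a (b + H), w (m - h1) * (starRingEnd ℂ) (w (m - h2))
    with hT
  have hTle : ∀ h1 h2, h1 ≤ h2 → h2 ≤ H → ‖T h1 h2‖ = C (h2 - h1) := by
    intro h1 h2 h12 h2H
    simp only [hT, hC]
    rw [vdc_pair z w a b H hw1 hw0 h1 h2 h12 h2H]
  have hTsymm : ∀ h1 h2, ‖T h1 h2‖ = ‖T h2 h1‖ := by
    intro h1 h2
    rw [← RCLike.norm_conj (T h1 h2)]
    congr 1
    simp only [hT, map_sum, map_mul, Complex.conj_conj]
    exact Finset.sum_congr rfl fun m _ => mul_comm _ _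
  -- row sums
  have hrow : ∀ h1 ∈ range H, ∑ h2 ∈ range H, ‖T h1 h2‖ ≤ Y + 2 * Sg := by
    intro h1 hh1
    rw [mem_range] at hh1
    have hsplit : ∑ h2 ∈ range H, ‖T h1 h2‖
        = ∑ h2 ∈ range h1, ‖T h1 h2‖ + ∑ h2 ∈ Ico h1 H, ‖T h1 h2‖ := by
      rw [Finset.sum_range_add_sum_Ico _ hh1.le]
    rw [hsplit]
    have hA : ∑ h2 ∈ range h1, ‖T h1 h2‖ ≤ Sg := by
      have e : ∑ h2 ∈ range h1, ‖T h1 h2‖ = ∑ h2 ∈ range h1, C (h1 - h2) := by
        refine Finset.sum_congr rfl fun h2 hh2 => ?_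
        rw [mem_range] at hh2
        rw [hTsymm, hTle h2 h1 hh2.le hh1.le]
      rw [e]
      have e2 : ∑ h2 ∈ range h1, C (h1 - h2) = ∑ d ∈ Icc 1 h1, C d := by
        refine Finset.sum_nbij' (fun h2 => h1 - h2) (fun d => h1 - d) ?_ ?_ ?_ ?_ ?_
        · intro x hx
          rw [mem_range] at hx
          rw [mem_Icc]; omega
        · intro x hx
          rw [mem_Icc] at hx
          rw [mem_range]; omega
        · intro x hx
          rw [mem_range] at hx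
          show h1 - (h1 - x) = x
          omega
        · intro x hx
          rw [mem_Icc] at hx
          show h1 - (h1 - x) = x
          omega
        · intro x _
          rfl
      rw [e2]
      refine Finset.sum_le_sum_of_subset_of_nonneg ?_ fun h _ _ => hC0 h
      exact Finset.Icc_subset_Icc le_rfl hh1.le
    have hB : ∑ h2 ∈ Ico h1 H, ‖T h1 h2‖ ≤ Y + Sg := by
      have e : ∑ h2 ∈ Ico h1 H, ‖T h1 h2‖ = ∑ h2 ∈ Ico h1 H, C (h2 - h1) := by
        refine Finset.sum_congr rfl fun h2 hh2 => ?_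
        rw [mem_Ico] at hh2
        rw [hTle h1 h2 hh2.1 hh2.2.le]
      rw [e, Finset.sum_Ico_eq_sum_range]
      have e2 : ∑ i ∈ range (H - h1), C (h1 + i - h1) = ∑ i ∈ range (H - h1), C i :=
        Finset.sum_congr rfl fun i _ => by rw [Nat.add_sub_cancel_left]
      rw [e2]
      obtain ⟨m, hm⟩ : ∃ m, H - h1 = m + 1 := ⟨H - h1 - 1, by omega⟩
      rw [hm, Finset.sum_range_succ']
      have e3 : ∑ k ∈ range m, C (k + 1) ≤ Sg := by
        have e4 : ∑ k ∈ range m, C (k + 1) = ∑ d ∈ Ico 1 (m + 1), C d := by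
          rw [Finset.sum_Ico_eq_sum_range]
          simp [add_comm]
        rw [e4]
        refine Finset.sum_le_sum_of_subset_of_nonneg ?_ fun h _ _ => hC0 h
        intro x hx
        rw [mem_Ico] at hx
        rw [mem_Icc]; omega
      linarith only [hCz, e3]
    linarith only [hA, hB]
  -- the main identity
  have hS1 : (H : ℂ) * ∑ n ∈ Ioc a b, z n = ∑ m ∈ Ioc a (b + H), ∑ h ∈ range H, w (m - h) := by
    rw [Finset.sum_comm]
    rw [Finset.sum_congr rfl (fun h hh => vdc_single z w a b H hw1 hw0 h (by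
      rw [mem_range] at hh; exact hh.le))]
    simp
  have hS2 : ((∑ m ∈ Ioc a (b + H), ‖∑ h ∈ range H, w (m - h)‖ ^ 2 : ℝ) : ℂ)
      = ∑ h1 ∈ range H, ∑ h2 ∈ range H, T h1 h2 := by
    push_cast
    have e : ∀ m, ((‖∑ h ∈ range H, w (m - h)‖ : ℂ)) ^ 2
        = ∑ h1 ∈ range H, ∑ h2 ∈ range H, w (m - h1) * (starRingEnd ℂ) (w (m - h2)) := by
      intro m
      rw [← Complex.mul_conj']
      rw [map_sum, Finset.sum_mul_sum]
    rw [Finset.sum_congr rfl (fun m _ => e m), Finset.sum_comm]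
    refine Finset.sum_congr rfl fun h1 _ => ?_
    rw [Finset.sum_comm]
  have hS3 : ∑ m ∈ Ioc a (b + H), ‖∑ h ∈ range H, w (m - h)‖ ^ 2 ≤ H * (Y + 2 * Sg) := by
    have hnn : 0 ≤ ∑ m ∈ Ioc a (b + H), ‖∑ h ∈ range H, w (m - h)‖ ^ 2 :=
      Finset.sum_nonneg fun m _ => by positivity
    have e : ∑ m ∈ Ioc a (b + H), ‖∑ h ∈ range H, w (m - h)‖ ^ 2
        = ‖((∑ m ∈ Ioc a (b + H), ‖∑ h ∈ range H, w (m - h)‖ ^ 2 : ℝ) : ℂ)‖ := by
      rw [Complex.norm_real, Real.norm_of_nonneg hnn]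
    rw [e, hS2]
    refine (norm_sum_le _ _).trans ?_
    calc ∑ h1 ∈ range H, ‖∑ h2 ∈ range H, T h1 h2‖
        ≤ ∑ h1 ∈ range H, (Y + 2 * Sg) :=
          Finset.sum_le_sum fun h1 hh1 => (norm_sum_le _ _).trans (hrow h1 hh1)
      _ = H * (Y + 2 * Sg) := by
        rw [Finset.sum_const, card_range, nsmul_eq_mul]
  have hcs : ‖∑ m ∈ Ioc a (b + H), ∑ h ∈ range H, w (m - h)‖ ^ 2
      ≤ ((Ioc a (b + H)).card : ℝ) * ∑ m ∈ Ioc a (b + H), ‖∑ h ∈ range H, w (m - h)‖ ^ 2 := by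
    have h1 : ‖∑ m ∈ Ioc a (b + H), ∑ h ∈ range H, w (m - h)‖
        ≤ ∑ m ∈ Ioc a (b + H), ‖∑ h ∈ range H, w (m - h)‖ := norm_sum_le _ _
    have h2 : (∑ m ∈ Ioc a (b + H), ‖∑ h ∈ range H, w (m - h)‖) ^ 2
        ≤ ((Ioc a (b + H)).card : ℝ) * ∑ m ∈ Ioc a (b + H), ‖∑ h ∈ range H, w (m - h)‖ ^ 2 :=
      sq_sum_le_card_mul_sum_sq
    exact (pow_le_pow_left₀ (norm_nonneg _) h1 2).trans h2
  have hcard : ((Ioc a (b + H)).card : ℝ) ≤ 2 * Y := by
    rw [Nat.card_Ioc]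
    have : b + H - a ≤ 2 * Y := by omega
    exact_mod_cast this
  have hH0 : (0:ℝ) < H := by exact_mod_cast hH
  have hfin : (H:ℝ) ^ 2 * ‖∑ n ∈ Ioc a b, z n‖ ^ 2 ≤ 2 * Y * (H * (Y + 2 * Sg)) := by
    have e : (H:ℝ) ^ 2 * ‖∑ n ∈ Ioc a b, z n‖ ^ 2 = ‖(H : ℂ) * ∑ n ∈ Ioc a b, z n‖ ^ 2 := by
      rw [norm_mul, mul_pow, Complex.norm_natCast]
    rw [e, hS1]
    refine hcs.trans ?_
    have hnn : 0 ≤ ∑ m ∈ Ioc a (b + H), ‖∑ h ∈ range H, w (m - h)‖ ^ 2 :=
      Finset.sum_nonneg fun m _ => by positivity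
    exact mul_le_mul hcard hS3 hnn (by positivity)
  have e : 2 * (Y : ℝ) ^ 2 / H + 4 * (Y : ℝ) / H * Sg = 2 * Y * (H * (Y + 2 * Sg)) / H ^ 2 := by
    field_simp; ring
  rw [e, le_div_iff₀ (by positivity)]
  linarith only [hfin]

end Pool.Agent.H76.EHB

end

section

/-!
# EHB Vdc2: iteration

`AvS H J φ a b` is the average over `h_1, …, h_J ∈ [1, H]` of the absolute value of the sum with the `J`-fold difference of the phase.
Induction on `J` (for all `φ, a, b` with `b - a ≤ Y`): with `S = |∑ ee(φ n)|`,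
`(S/Y)^2 ≤ 2/H + 4 (1/H) ∑_h S_h/Y` (`vdc_step` with `z n = ee (φ n)`, `z(n+h) conj z n = ee(φ(n+h) - φ n)`), so
`(S/Y)^{2^{J+1}} ≤ 2^{2^J} ((2/H)^{2^J} + 4^{2^J} (1/H) ∑_h (S_h/Y)^{2^J})` (convexity; Jensen `inner_le_nnorm_mul_nnorm` or
`Finset.inner_mul_le_norm_mul_norm`, e.g. `Real.pow_arith_mean_le_arith_mean_pow`) `≤ 8^{2^J} (1/H + (1/H) ∑_h (S_h/Y)^{2^J})`, and the induction hypothesis
for each `h` (interval `Ioc a (b-h)`, length `≤ Y`).  Constants: `C_{J+1} ≤ 8^{2^J} (1 + C_J) ≤ 16^{2^{J+1}}` if `C_J = 16^{2^J}`, `C_0 ≥ 1`.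
-/

set_option autoImplicit false

namespace Pool.Agent.H76.EHB

open Finset
open Pool.Agent.H91.PK (ee)

/-- average of the differenced sums -/
noncomputable def AvS (H : ℕ) : ℕ → (ℕ → ℝ) → ℕ → ℕ → ℝ
  | 0, φ, a, b => ‖∑ n ∈ Ioc a b, ee (φ n)‖
  | (J + 1), φ, a, b => 1 / (H : ℝ) * ∑ h ∈ Icc 1 H, AvS H J (fun n => φ (n + h) - φ n) a (b - h)

theorem AvS_nonneg (H J : ℕ) (φ : ℕ → ℝ) (a b : ℕ) : 0 ≤ AvS H J φ a b := by
  induction J generalizing φ b with
  | zero => exact norm_nonneg _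
  | succ J ih =>
    unfold AvS
    apply mul_nonneg (by positivity)
    exact Finset.sum_nonneg (fun h _ => ih _ _)

theorem vdc_iter (J : ℕ) (φ : ℕ → ℝ) (a b Y H : ℕ) (hab : b - a ≤ Y) (hH : 1 ≤ H) (hHY : H ≤ Y) :
    (‖∑ n ∈ Ioc a b, ee (φ n)‖ / Y) ^ (2 ^ J) ≤ 16 ^ (2 ^ J) * (1 / (H : ℝ) + AvS H J φ a b / Y) := by
  have hH0 : (0 : ℝ) < H := by exact_mod_cast hH
  have hY0 : (0 : ℝ) < Y := by exact_mod_cast (lt_of_lt_of_le hH hHY)
  have hH1 : (1 : ℝ) ≤ H := by exact_mod_cast hH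
  induction J generalizing φ b with
  | zero =>
    simp only [pow_zero, pow_one, AvS]
    have h1 : 0 ≤ ‖∑ n ∈ Ioc a b, ee (φ n)‖ / (Y : ℝ) := by positivity
    have h2 : 0 ≤ 1 / (H : ℝ) := by positivity
    linarith only [h1, h2]
  | succ J ih =>
    have hN0 : (2 : ℕ) ^ (J + 1) = 2 * 2 ^ J := by rw [pow_succ]; ring
    rw [hN0]
    have hN1 : 1 ≤ 2 ^ J := Nat.one_le_two_pow
    generalize hN : 2 ^ J = N at ih hN1 ⊢
    set S : ℝ := ‖∑ n ∈ Ioc a b, ee (φ n)‖ with hS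
    set X : ℕ → ℝ := fun h => ‖∑ n ∈ Ioc a (b - h), ee (φ (n + h) - φ n)‖ / Y with hX
    have hX0 : ∀ h, 0 ≤ X h := fun h => by rw [hX]; positivity
    have hstep := vdc_step (fun n => ee (φ n)) (fun n => by rw [Pool.Agent.H91.PK.LSa_norm_ee]) a b Y H hab hH hHY
    have hXe : ∀ h, ‖∑ n ∈ Ioc a (b - h), ee (φ (n + h)) * (starRingEnd ℂ) (ee (φ n))‖ = Y * X h := by
      intro h
      have e1 : ∀ n, ee (φ (n + h)) * (starRingEnd ℂ) (ee (φ n)) = ee (φ (n + h) - φ n) := by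
        intro n
        rw [Pool.Agent.H91.PK.LSa_conj_ee, ← Pool.Agent.H91.PK.LSa_ee_add, sub_eq_add_neg]
      simp only [e1, hX]
      field_simp
    have h1 : (S / Y) ^ 2 ≤ 2 / H + 4 * (1 / (H : ℝ) * ∑ h ∈ Icc 1 H, X h) := by
      have h2 : S ^ 2 ≤ 2 * (Y : ℝ) ^ 2 / H + 4 * (Y : ℝ) / H * ∑ h ∈ Icc 1 H, (Y * X h) := by
        have h3 := hstep
        simp only [hXe] at h3
        exact h3
      rw [div_pow, div_le_iff₀ (by positivity)]
      refine h2.trans (le_of_eq ?_)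
      rw [← Finset.mul_sum]
      field_simp
    have hm0 : 0 ≤ 1 / (H : ℝ) * ∑ h ∈ Icc 1 H, X h :=
      mul_nonneg (by positivity) (Finset.sum_nonneg fun h _ => hX0 h)
    -- Jensen
    have hJen : (1 / (H : ℝ) * ∑ h ∈ Icc 1 H, X h) ^ N ≤ 1 / (H : ℝ) * ∑ h ∈ Icc 1 H, X h ^ N := by
      have h3 := Real.pow_arith_mean_le_arith_mean_pow (Icc 1 H) (fun _ => 1 / (H : ℝ)) X
        (fun _ _ => by positivity) (by simp [Nat.card_Icc]; field_simp) (fun h _ => hX0 h) N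
      rw [← Finset.mul_sum, ← Finset.mul_sum] at h3
      exact h3
    have hIH : ∀ h ∈ Icc 1 H, X h ^ N ≤ 16 ^ N * (1 / (H : ℝ)
        + AvS H J (fun n => φ (n + h) - φ n) a (b - h) / Y) := by
      intro h _
      exact ih (fun n => φ (n + h) - φ n) (b - h) (by omega)
    have hA : 1 / (H : ℝ) * ∑ h ∈ Icc 1 H, X h ^ N
        ≤ 16 ^ N * (1 / (H : ℝ) + AvS H (J + 1) φ a b / Y) := by
      calc 1 / (H : ℝ) * ∑ h ∈ Icc 1 H, X h ^ N
          ≤ 1 / (H : ℝ) * ∑ h ∈ Icc 1 H, 16 ^ N * (1 / (H : ℝ)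
              + AvS H J (fun n => φ (n + h) - φ n) a (b - h) / Y) :=
            mul_le_mul_of_nonneg_left (Finset.sum_le_sum hIH) (by positivity)
        _ = 16 ^ N * (1 / (H : ℝ) + AvS H (J + 1) φ a b / Y) := by
            have e7 : AvS H (J + 1) φ a b
                = 1 / (H : ℝ) * ∑ h ∈ Icc 1 H, AvS H J (fun n => φ (n + h) - φ n) a (b - h) := rfl
            have e8 : ∑ h ∈ Icc 1 H, AvS H J (fun n => φ (n + h) - φ n) a (b - h) / (Y : ℝ)
                = (∑ h ∈ Icc 1 H, AvS H J (fun n => φ (n + h) - φ n) a (b - h)) / (Y : ℝ) :=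
              (Finset.sum_div _ _ _).symm
            have e9 : ∑ _h ∈ Icc 1 H, (1 / (H : ℝ)) = 1 := by
              simp only [Finset.sum_const, Nat.card_Icc, nsmul_eq_mul]
              have : ((H + 1 - 1 : ℕ) : ℝ) = H := by simp
              rw [this]; field_simp
            rw [← Finset.mul_sum, Finset.sum_add_distrib, e8, e9, e7]
            ring
    set Z : ℝ := 1 / (H : ℝ) + AvS H (J + 1) φ a b / Y with hZ
    have hZ0 : 1 / (H : ℝ) ≤ Z := by
      rw [hZ]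
      have := AvS_nonneg H (J + 1) φ a b
      have : 0 ≤ AvS H (J + 1) φ a b / Y := by positivity
      linarith only [this]
    have hZp : 0 ≤ Z := le_trans (by positivity) hZ0
    have hinv : (1 / (H : ℝ)) ^ N ≤ 1 / (H : ℝ) := by
      have h5 : 1 / (H : ℝ) ≤ 1 := by rw [div_le_one hH0]; exact hH1
      calc (1 / (H : ℝ)) ^ N ≤ (1 / (H : ℝ)) ^ 1 := pow_le_pow_of_le_one (by positivity) h5 hN1
        _ = _ := pow_one _
    clear_value Z
    generalize (1 / (H : ℝ) * ∑ h ∈ Icc 1 H, X h) = m at h1 hm0 hJen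
    have k1 : (S / Y) ^ (2 * N) ≤ (2 / H + 4 * m) ^ N := by
      rw [pow_mul]
      exact pow_le_pow_left₀ (sq_nonneg _) h1 N
    have k2 : (2 / (H : ℝ) + 4 * m) ^ N ≤ 2 ^ (N - 1) * ((2 / (H : ℝ)) ^ N + (4 * m) ^ N) :=
      add_pow_le (by positivity) (by linarith only [hm0]) N
    have e1 : (2 / (H : ℝ)) ^ N = 2 ^ N * (1 / (H : ℝ)) ^ N := by
      rw [← mul_pow]; ring_nf
    have e10 : (2 : ℝ) ^ N ≤ 64 ^ N :=
      pow_le_pow_left₀ (by norm_num : (0 : ℝ) ≤ 2) (by norm_num : (2 : ℝ) ≤ 64) N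
    have k3 : (2 / (H : ℝ)) ^ N ≤ 64 ^ N * Z := by
      rw [e1]
      exact mul_le_mul e10 (hinv.trans hZ0) (by positivity) (by positivity)
    have e2 : (4 : ℝ) ^ N * (16 ^ N * Z) = 64 ^ N * Z := by
      rw [← mul_assoc, ← mul_pow]; norm_num
    have k4 : (4 * m) ^ N ≤ 64 ^ N * Z := by
      rw [mul_pow, ← e2]
      exact mul_le_mul_of_nonneg_left (hJen.trans hA) (by positivity)
    have e3 : (2 : ℝ) ^ N = 2 ^ (N - 1) * 2 := by
      rw [← pow_succ]; congr 1; omega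
    have k5 : (2 : ℝ) ^ (N - 1) * ((2 / (H : ℝ)) ^ N + (4 * m) ^ N) ≤ 2 ^ N * 64 ^ N * Z := by
      have h6 : (2 : ℝ) ^ (N - 1) * ((2 / (H : ℝ)) ^ N + (4 * m) ^ N)
          ≤ 2 ^ (N - 1) * (64 ^ N * Z + 64 ^ N * Z) :=
        mul_le_mul_of_nonneg_left (add_le_add k3 k4) (by positivity)
      refine h6.trans (le_of_eq ?_)
      rw [e3]; ring
    have e4 : (16 : ℝ) ^ (2 * N) = 256 ^ N := by
      rw [pow_mul]; norm_num
    have k6 : (2 : ℝ) ^ N * 64 ^ N * Z ≤ 16 ^ (2 * N) * Z := by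
      apply mul_le_mul_of_nonneg_right _ hZp
      rw [e4, ← mul_pow]
      exact pow_le_pow_left₀ (by norm_num) (by norm_num) N
    exact k1.trans (k2.trans (k5.trans k6))

end Pool.Agent.H76.EHB

end

section

/-!
# EHB AvB: averages of the differenced sums

Induction on `J'` (number of further differences), `J' = 0` is `av_base`: with `j = hs.length`; by definition of `AvS` and `PH` (`PH (h :: hs) t β n = PH hs t β (n+h) - PH hs t β n`)
`AvS H (J'+1) (PH hs) a b` is the average over `h ∈ [1,H]` of `AvS H J' (PH (h :: hs)) a (b-h)`, bounded by the induction hypothesis (`(h :: hs).prod = h * hs.prod`,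
`(h :: hs).sum + J' H ≤ hs.sum + (J'+1) H ≤ M`).  The average of `1/h` over `h ≤ H` is `≤ (1+log H)/H`, the average of `h` is `≤ H`.
-/

set_option autoImplicit false

namespace Pool.Agent.H76.EHB

open Finset
open Pool.Agent.H91.PK (ee)

theorem AvB_prod_pos (hs : List ℝ) (hpos : ∀ g ∈ hs, 1 ≤ g) : 0 < hs.prod := by
  induction hs with
  | nil => simp
  | cons h hs ih =>
    rw [List.prod_cons]
    exact mul_pos (lt_of_lt_of_le one_pos (hpos h (by simp)))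
      (ih fun g hg => hpos g (List.mem_cons_of_mem _ hg))

theorem AvB_harm (H : ℕ) : ∑ h ∈ Icc 1 H, 1 / (h : ℝ) ≤ 1 + Real.log H := by
  have h := harmonic_le_one_add_log H
  rw [harmonic_eq_sum_Icc] at h
  push_cast at h
  simpa [one_div] using h

theorem av_main (J' : ℕ) (hs : List ℝ) (t β : ℝ) (M a b H : ℕ) (hM : 1 ≤ M) (ha : M ≤ a) (hb : b ≤ 2 * M)
    (hβ : 0 ≤ β) (hβ1 : β ≤ 1) (ht : t ≠ 0) (hpos : ∀ g ∈ hs, 1 ≤ g) (hH : 1 ≤ H)
    (hsum : hs.sum + J' * H ≤ M) :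
    AvS H J' (fun n => PH hs t β n) a b
      ≤ (4 * M : ℝ) ^ (hs.length + J' + 1) / (|t| * hs.prod) * ((1 + Real.log H) / H) ^ J'
        + 7 * ((hs.length + J').factorial : ℝ) * |t| * hs.prod * (H : ℝ) ^ J' / (M : ℝ) ^ (hs.length + J') := by
  induction J' generalizing hs b with
  | zero =>
    have h0 : hs.sum ≤ M := by simpa using hsum
    have h1 := av_base hs t β M a b hM ha hb hβ hβ1 ht hpos h0
    simp only [AvS, add_zero, pow_zero, mul_one]
    exact h1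
  | succ J' ih =>
    have hH0 : (0 : ℝ) < H := by exact_mod_cast hH
    have hM0 : (0 : ℝ) < M := by exact_mod_cast hM
    have ht0 : 0 < |t| := abs_pos.mpr ht
    have hprod : 0 < hs.prod := AvB_prod_pos hs hpos
    have hlog : 0 ≤ Real.log H := Real.log_nonneg (by exact_mod_cast hH)
    have hL : 0 ≤ ((1 + Real.log H) / H) ^ J' := by positivity
    have key : ∀ h ∈ Icc 1 H,
        AvS H J' (fun n => PH hs t β ((n + h : ℕ) : ℝ) - PH hs t β n) a (b - h)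
          ≤ (4 * M : ℝ) ^ (hs.length + (J' + 1) + 1) / (|t| * hs.prod)
              * ((1 + Real.log H) / H) ^ J' * (1 / (h : ℝ))
            + 7 * ((hs.length + (J' + 1)).factorial : ℝ) * |t| * hs.prod * (H : ℝ) ^ J'
              / (M : ℝ) ^ (hs.length + (J' + 1)) * H := by
      intro h hh
      rw [mem_Icc] at hh
      have hh0 : (0 : ℝ) < h := by exact_mod_cast hh.1
      have hh1 : (1 : ℝ) ≤ h := by exact_mod_cast hh.1
      have hhH : (h : ℝ) ≤ H := by exact_mod_cast hh.2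
      have e1 : (fun n : ℕ => PH hs t β ((n + h : ℕ) : ℝ) - PH hs t β n)
          = fun n : ℕ => PH ((h : ℝ) :: hs) t β n := by
        funext n
        simp only [PH]
        push_cast
        rfl
      rw [e1]
      have h2 := ih ((h : ℝ) :: hs) (b - h) (by omega)
        (by
          intro g hg
          rcases List.mem_cons.mp hg with rfl | hg
          · exact hh1
          · exact hpos g hg)
        (by
          rw [List.sum_cons]
          push_cast at hsum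
          nlinarith only [hsum, hhH])
      rw [List.length_cons, List.prod_cons] at h2
      have e2 : hs.length + 1 + J' = hs.length + (J' + 1) := by ring
      rw [e2] at h2
      refine h2.trans (add_le_add (le_of_eq ?_) ?_)
      · field_simp
      · have h3 : 0 ≤ 7 * ((hs.length + (J' + 1)).factorial : ℝ) * |t| * hs.prod * (H : ℝ) ^ J'
              / (M : ℝ) ^ (hs.length + (J' + 1)) := by positivity
        calc 7 * ((hs.length + (J' + 1)).factorial : ℝ) * |t| * ((h : ℝ) * hs.prod) * (H : ℝ) ^ J'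
              / (M : ℝ) ^ (hs.length + (J' + 1))
            = 7 * ((hs.length + (J' + 1)).factorial : ℝ) * |t| * hs.prod * (H : ℝ) ^ J'
              / (M : ℝ) ^ (hs.length + (J' + 1)) * h := by ring
          _ ≤ _ := mul_le_mul_of_nonneg_left hhH h3
    have h4 : AvS H (J' + 1) (fun n => PH hs t β n) a b
        = 1 / (H : ℝ) * ∑ h ∈ Icc 1 H,
          AvS H J' (fun n => PH hs t β ((n + h : ℕ) : ℝ) - PH hs t β n) a (b - h) := rfl
    rw [h4]
    refine (mul_le_mul_of_nonneg_left (sum_le_sum key) (by positivity)).trans ?_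
    rw [sum_add_distrib, ← mul_sum, sum_const, Nat.card_Icc, nsmul_eq_mul, Nat.add_sub_cancel]
    have h5 : ∑ h ∈ Icc 1 H, 1 / (h : ℝ) ≤ 1 + Real.log H := AvB_harm H
    have h6 : 0 ≤ (4 * M : ℝ) ^ (hs.length + (J' + 1) + 1) / (|t| * hs.prod)
              * ((1 + Real.log H) / H) ^ J' := by positivity
    have h7 := mul_le_mul_of_nonneg_left h5 h6
    calc 1 / (H : ℝ) * ((4 * M : ℝ) ^ (hs.length + (J' + 1) + 1) / (|t| * hs.prod)
              * ((1 + Real.log H) / H) ^ J' * ∑ h ∈ Icc 1 H, 1 / (h : ℝ)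
            + H * (7 * ((hs.length + (J' + 1)).factorial : ℝ) * |t| * hs.prod * (H : ℝ) ^ J'
              / (M : ℝ) ^ (hs.length + (J' + 1)) * H))
        ≤ 1 / (H : ℝ) * ((4 * M : ℝ) ^ (hs.length + (J' + 1) + 1) / (|t| * hs.prod)
              * ((1 + Real.log H) / H) ^ J' * (1 + Real.log H)
            + H * (7 * ((hs.length + (J' + 1)).factorial : ℝ) * |t| * hs.prod * (H : ℝ) ^ J'
              / (M : ℝ) ^ (hs.length + (J' + 1)) * H)) :=
          mul_le_mul_of_nonneg_left (add_le_add h7 le_rfl) (by positivity)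
      _ = _ := by
          rw [pow_succ ((1 + Real.log H) / H) J', pow_succ (H : ℝ) J']
          field_simp

end Pool.Agent.H76.EHB

end

section

/-!
# EHB VdcF: the van der Corput bound

`low_sum`: `av_base` with `hs = []`: `|∑_{a<n≤b} ee(t log(n+β))| ≤ 4M/|t| + 7|t|` for `M ≤ a`, `b ≤ 2M`.
`vdc`: small `M` (`M ≤ M0(k0)`) by the trivial bound `≤ M`.  If `|t| ≤ M^{3/4}`: `low_sum` gives `≤ 4 M^{2/3} + 7 M^{3/4}`.
Otherwise choose the integer `J ∈ [1, k0+1]` with `M^{J-3/4} ≤ |t| ≤ M^{J+1/4}` (J = 1 covers `[M^{1/4}, M^{5/4}]`; we use it for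
`|t| ∈ [M^{3/4}, M^{5/4}]`) and `H = floor((M^{J+1/2}/|t|)^{1/J})`: `M^{J+1/2}/|t| ∈ [M^{1/4}, M^{5/4}]`, for `J = 1` in `[M^{1/4}, M^{3/4}]`, so
`M^{1/(4J)}/2 ≤ H ≤ M^{3/4}`, `J H ≤ M`.  `vdc_iter` (Y = M) and `av_main` (`hs = []`) give
`(|S|/M)^{2^J} ≤ 16^{2^J} (1/H + 4^{J+1} M^J (1+log H)^J/(|t| H^J) + 7 J! |t| H^J/M^{J+1})`, where
`M^J/(|t| H^J) ≤ 2^J M^{-1/2}` and `|t| H^J/M^{J+1} ≤ M^{-1/2}`; so the bracket is `≤ C M^{-1/(4J)}` and `|S| ≤ C M^{1 - 1/(4J 2^J)}`.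
-/

set_option autoImplicit false

namespace Pool.Agent.H76.EHB

open Finset
open Pool.Agent.H91.PK (ee)

theorem low_sum (t β : ℝ) (M a b : ℕ) (hM : 1 ≤ M) (ha : M ≤ a) (hb : b ≤ 2 * M)
    (hβ : 0 ≤ β) (hβ1 : β ≤ 1) (ht : t ≠ 0) :
    ‖∑ n ∈ Ioc a b, ee (t * Real.log (n + β))‖ ≤ 4 * M / |t| + 7 * |t| := by
  have h := av_base [] t β M a b hM ha hb hβ hβ1 ht (by simp) (by simp)
  simpa [PH] using h

/-- bracket estimate -/
private theorem VdcF_bracket (n J : ℕ) (hn : 1 ≤ n) (hJ1 : 1 ≤ J) (hJn : J ≤ n) (m T : ℝ)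
    (H : ℕ) (hm : 1 ≤ m) (hT : 0 < T) (hH : 1 ≤ H) (hHm : (H : ℝ) ≤ m)
    (hX1 : m ^ (1 / (4 * (J : ℝ))) ≤ 2 * H)
    (hlo : m ^ ((J : ℝ) + 1 / 2) ≤ T * (2 * H) ^ J)
    (hhi : T * (H : ℝ) ^ J ≤ m ^ ((J : ℝ) + 1 / 2)) :
    1 / (H : ℝ) + ((4 * m) ^ (J + 1) / T * ((1 + Real.log H) / H) ^ J
        + 7 * (J.factorial : ℝ) * T * (H : ℝ) ^ J / m ^ J) / m
      ≤ (2 + 4 ^ (n + 1) * (8 * n) ^ n + 7 * (n.factorial : ℝ)) * m ^ (-(1 / (4 * (J : ℝ)))) := by
  have hm0 : 0 < m := by linarith only [hm]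
  have hH0 : (0 : ℝ) < H := by exact_mod_cast hH
  have hJ0 : (0 : ℝ) < J := by exact_mod_cast hJ1
  have hJr : (1 : ℝ) ≤ J := by exact_mod_cast hJ1
  have hnr : (1 : ℝ) ≤ n := by exact_mod_cast hn
  have hJnr : (J : ℝ) ≤ n := by exact_mod_cast hJn
  have hexp : 1 / (4 * (J : ℝ)) ≤ 1 / 4 := by
    apply one_div_le_one_div_of_le (by norm_num) (by linarith only [hJr])
  set e := 1 / (4 * (J : ℝ)) with he
  have he0 : 0 < e := by rw [he]; positivity
  have heJ : e * J = 1 / 4 := by rw [he]; field_simp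
  -- first term
  have t1 : 1 / (H : ℝ) ≤ 2 * m ^ (-e) := by
    rw [Real.rpow_neg hm0.le, div_le_iff₀ hH0]
    have h1 : 0 < m ^ e := Real.rpow_pos_of_pos hm0 _
    rw [mul_assoc, inv_mul_eq_div, ← mul_div_assoc, le_div_iff₀ h1]
    linarith only [hX1]
  -- log
  have hlog : 1 + Real.log H ≤ 4 * J * m ^ e := by
    have h1 : Real.log H ≤ Real.log m := Real.log_le_log hH0 hHm
    have h2 : Real.log m = 4 * J * Real.log (m ^ e) := by
      rw [Real.log_rpow hm0, he]; field_simp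
    have h3 : Real.log (m ^ e) ≤ m ^ e - 1 :=
      Real.log_le_sub_one_of_pos (Real.rpow_pos_of_pos hm0 _)
    have h4 : 4 * (J : ℝ) * Real.log (m ^ e) ≤ 4 * J * (m ^ e - 1) :=
      mul_le_mul_of_nonneg_left h3 (by positivity)
    nlinarith only [hJr, hexp, he0, h1, h2, h4]
  have hlog0 : 0 ≤ 1 + Real.log H := by
    have := Real.log_nonneg (show (1 : ℝ) ≤ H by exact_mod_cast hH)
    linarith only [hexp, he0, this]
  have hlogJ : (1 + Real.log H) ^ J ≤ (4 * J) ^ J * m ^ (1 / 4 : ℝ) := by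
    calc (1 + Real.log H) ^ J ≤ (4 * J * m ^ e) ^ J := pow_le_pow_left₀ hlog0 hlog J
      _ = (4 * J) ^ J * m ^ (1 / 4 : ℝ) := by
        rw [mul_pow, ← Real.rpow_natCast (m ^ e) J, ← Real.rpow_mul hm0.le, heJ]
  -- powers of m
  have hmJ : m ^ ((J : ℝ) + 1 / 2) = m ^ J * m ^ (1 / 2 : ℝ) := by
    rw [Real.rpow_add hm0, Real.rpow_natCast]
  have hhalf : 0 < m ^ (1 / 2 : ℝ) := Real.rpow_pos_of_pos hm0 _
  have hquart : 0 < m ^ (1 / 4 : ℝ) := Real.rpow_pos_of_pos hm0 _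
  have hmJ0 : 0 < m ^ J := pow_pos hm0 J
  have hHJ0 : (0 : ℝ) < (H : ℝ) ^ J := pow_pos hH0 J
  have hle : m ^ (-(1 / 4) : ℝ) ≤ m ^ (-e) :=
    Real.rpow_le_rpow_of_exponent_le hm (by linarith only [hexp])
  have hle2 : m ^ (-(1 / 2) : ℝ) ≤ m ^ (-e) :=
    Real.rpow_le_rpow_of_exponent_le hm (by linarith only [hexp, he0])
  have hme0 : 0 < m ^ (-e) := Real.rpow_pos_of_pos hm0 _
  -- second term
  have t2 : (4 * m) ^ (J + 1) / T * ((1 + Real.log H) / H) ^ J / m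
      ≤ 4 ^ (n + 1) * (8 * n) ^ n * m ^ (-e) := by
    have h1 : (4 * m) ^ (J + 1) / T * ((1 + Real.log H) / H) ^ J / m
        = 4 ^ (J + 1) * (m ^ J / (T * (H : ℝ) ^ J)) * (1 + Real.log H) ^ J := by
      rw [div_pow, mul_pow, pow_succ m J]
      field_simp
    have h2 : m ^ J / (T * (H : ℝ) ^ J) ≤ 2 ^ J * m ^ (-(1 / 2) : ℝ) := by
      rw [div_le_iff₀ (by positivity), Real.rpow_neg hm0.le]
      rw [hmJ, mul_pow] at hlo
      have h3 : m ^ J ≤ T * (2 ^ J * (H : ℝ) ^ J) / m ^ (1 / 2 : ℝ) := by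
        rw [le_div_iff₀ hhalf]; exact hlo
      calc m ^ J ≤ T * (2 ^ J * (H : ℝ) ^ J) / m ^ (1 / 2 : ℝ) := h3
        _ = 2 ^ J * (m ^ (1 / 2 : ℝ))⁻¹ * (T * (H : ℝ) ^ J) := by
          field_simp
    rw [h1]
    have h5 : m ^ (-(1 / 2) : ℝ) * m ^ (1 / 4 : ℝ) = m ^ (-(1 / 4) : ℝ) := by
      rw [← Real.rpow_add hm0]; norm_num
    calc 4 ^ (J + 1) * (m ^ J / (T * (H : ℝ) ^ J)) * (1 + Real.log H) ^ J
        ≤ 4 ^ (J + 1) * (2 ^ J * m ^ (-(1 / 2) : ℝ)) * ((4 * J) ^ J * m ^ (1 / 4 : ℝ)) := by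
          apply mul_le_mul _ hlogJ (by positivity) (by positivity)
          exact mul_le_mul_of_nonneg_left h2 (by positivity)
      _ = 4 ^ (J + 1) * (2 * (4 * J)) ^ J * (m ^ (-(1 / 2) : ℝ) * m ^ (1 / 4 : ℝ)) := by
          rw [mul_pow 2 (4 * (J : ℝ))]; ring
      _ = 4 ^ (J + 1) * (8 * J) ^ J * m ^ (-(1 / 4) : ℝ) := by
          rw [h5]; congr 3; ring
      _ ≤ 4 ^ (n + 1) * (8 * n) ^ n * m ^ (-e) := by
          have e1 : (4 : ℝ) ^ (J + 1) ≤ 4 ^ (n + 1) := pow_le_pow_right₀ (by norm_num) (by omega)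
          have e2 : (8 * (J : ℝ)) ^ J ≤ (8 * n) ^ n := by
            calc (8 * (J : ℝ)) ^ J ≤ (8 * n) ^ J :=
                  pow_le_pow_left₀ (by positivity) (by linarith only [hJnr]) J
              _ ≤ (8 * n) ^ n := pow_le_pow_right₀ (by linarith only [hnr, hexp, he0]) hJn
          apply mul_le_mul (mul_le_mul e1 e2 (by positivity) (by positivity)) hle
            (by positivity) (by positivity)
  -- third term
  have t3 : 7 * (J.factorial : ℝ) * T * (H : ℝ) ^ J / m ^ J / m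
      ≤ 7 * (n.factorial : ℝ) * m ^ (-e) := by
    have h1 : 7 * (J.factorial : ℝ) * T * (H : ℝ) ^ J / m ^ J / m
        = 7 * (J.factorial : ℝ) * (T * (H : ℝ) ^ J / (m ^ J * m)) := by
      field_simp
    have h2 : T * (H : ℝ) ^ J / (m ^ J * m) ≤ m ^ (-(1 / 2) : ℝ) := by
      rw [div_le_iff₀ (by positivity)]
      have h3 : m ^ (-(1 / 2) : ℝ) * (m ^ J * m) = m ^ ((J : ℝ) + 1 / 2) := by
        have : m ^ J * m = m ^ ((J : ℝ) + 1) := by
          rw [Real.rpow_add hm0, Real.rpow_natCast, Real.rpow_one]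
        rw [this, ← Real.rpow_add hm0]
        congr 1; ring
      rw [h3]; exact hhi
    rw [h1]
    have h4 : (J.factorial : ℝ) ≤ n.factorial := by exact_mod_cast Nat.factorial_le hJn
    apply mul_le_mul (by linarith only [h4]) (h2.trans hle2) (by positivity) (by positivity)
  rw [add_div]
  calc _ ≤ 2 * m ^ (-e) + (4 ^ (n + 1) * (8 * n) ^ n * m ^ (-e) + 7 * (n.factorial : ℝ) * m ^ (-e)) := by
        apply add_le_add t1
        apply add_le_add t2 t3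
    _ = _ := by ring

private theorem VdcF_big (n : ℕ) (hn : 1 ≤ n) (M a b J : ℕ) (β t : ℝ) (hM : (n + 1) ^ 4 ≤ M)
    (ha : M ≤ a) (hb : b ≤ 2 * M) (hβ : 0 ≤ β) (hβ1 : β ≤ 1) (hJ1 : 1 ≤ J) (hJn : J ≤ n)
    (h1 : (M : ℝ) ^ ((J : ℝ) - 3 / 4) ≤ |t|) (h2 : |t| ≤ (M : ℝ) ^ ((J : ℝ) + 1 / 4))
    (h3 : (M : ℝ) ^ (3 / 4 : ℝ) ≤ |t|) :
    ‖∑ n ∈ Ioc a b, ee (t * Real.log (n + β))‖
      ≤ 16 * (2 + 4 ^ (n + 1) * (8 * n) ^ n + 7 * (n.factorial : ℝ))
        * (M : ℝ) ^ (1 - 1 / (4 * (n : ℝ) * 2 ^ n)) := by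
  have hM1 : 1 ≤ M := le_trans (Nat.one_le_pow _ _ (by omega)) hM
  set m : ℝ := (M : ℝ) with hmdef
  have hm : 1 ≤ m := by rw [hmdef]; exact_mod_cast hM1
  have hm0 : 0 < m := by linarith only [hm]
  set T := |t| with hTdef
  have hT : 0 < T := lt_of_lt_of_le (Real.rpow_pos_of_pos hm0 _) h3
  have ht : t ≠ 0 := abs_pos.mp hT
  have hJ0 : (0 : ℝ) < J := by exact_mod_cast hJ1
  have hJr : (1 : ℝ) ≤ J := by exact_mod_cast hJ1
  have hnr : (1 : ℝ) ≤ n := by exact_mod_cast hn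
  have hJnr : (J : ℝ) ≤ n := by exact_mod_cast hJn
  set P := m ^ ((J : ℝ) + 1 / 2) / T with hP
  have hP0 : 0 < P := by rw [hP]; positivity
  set X := P ^ (1 / (J : ℝ)) with hX
  have hXJ : X ^ J = P := by
    rw [hX, ← Real.rpow_natCast, ← Real.rpow_mul hP0.le]
    rw [one_div, inv_mul_cancel₀ hJ0.ne', Real.rpow_one]
  have hPlo : m ^ (1 / 4 : ℝ) ≤ P := by
    rw [hP, le_div_iff₀ hT]
    calc m ^ (1 / 4 : ℝ) * T ≤ m ^ (1 / 4 : ℝ) * m ^ ((J : ℝ) + 1 / 4) :=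
          mul_le_mul_of_nonneg_left h2 (by positivity)
      _ = m ^ ((J : ℝ) + 1 / 2) := by
          rw [← Real.rpow_add hm0]; congr 1; ring
  have hPhi : P ≤ m ^ (3 / 4 * (J : ℝ)) := by
    rw [hP, div_le_iff₀ hT]
    rcases Nat.lt_or_ge 1 J with hJ2 | hJ2
    · have hJ2r : (2 : ℝ) ≤ J := by exact_mod_cast hJ2
      calc m ^ ((J : ℝ) + 1 / 2) ≤ m ^ (3 / 4 * (J : ℝ) + ((J : ℝ) - 3 / 4)) :=
            Real.rpow_le_rpow_of_exponent_le hm (by linarith only [hJ2r])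
        _ = m ^ (3 / 4 * (J : ℝ)) * m ^ ((J : ℝ) - 3 / 4) := Real.rpow_add hm0 _ _
        _ ≤ m ^ (3 / 4 * (J : ℝ)) * T := mul_le_mul_of_nonneg_left h1 (by positivity)
    · have hJe : (J : ℝ) = 1 := by
        have : J = 1 := by omega
        rw [this]; norm_num
      rw [hJe]
      calc m ^ ((1 : ℝ) + 1 / 2) = m ^ (3 / 4 * (1 : ℝ)) * m ^ (3 / 4 : ℝ) := by
            rw [← Real.rpow_add hm0]; norm_num
        _ ≤ m ^ (3 / 4 * (1 : ℝ)) * T := mul_le_mul_of_nonneg_left h3 (by positivity)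
  have hXlo : m ^ (1 / (4 * (J : ℝ))) ≤ X := by
    have : m ^ (1 / (4 * (J : ℝ))) = (m ^ (1 / 4 : ℝ)) ^ (1 / (J : ℝ)) := by
      rw [← Real.rpow_mul hm0.le]; congr 1; field_simp
    rw [this, hX]
    exact Real.rpow_le_rpow (by positivity) hPlo (by positivity)
  have hXhi : X ≤ m ^ (3 / 4 : ℝ) := by
    have : m ^ (3 / 4 : ℝ) = (m ^ (3 / 4 * (J : ℝ))) ^ (1 / (J : ℝ)) := by
      rw [← Real.rpow_mul hm0.le]; congr 1; field_simp
    rw [this, hX]
    exact Real.rpow_le_rpow hP0.le hPhi (by positivity)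
  have hX1 : 1 ≤ X := le_trans (Real.one_le_rpow hm (by positivity)) hXlo
  set H := ⌊X⌋₊ with hHdef
  have hHX : (H : ℝ) ≤ X := Nat.floor_le (by linarith only [hX1])
  have hH1 : 1 ≤ H := by
    rw [hHdef]; exact Nat.le_floor (by simpa using hX1)
  have hHr : (1 : ℝ) ≤ H := by exact_mod_cast hH1
  have hX2 : X ≤ 2 * H := by
    have := Nat.lt_floor_add_one X
    rw [← hHdef] at this
    linarith only [hHr, this]
  have hm34 : m ^ (3 / 4 : ℝ) ≤ m := by
    calc m ^ (3 / 4 : ℝ) ≤ m ^ (1 : ℝ) := Real.rpow_le_rpow_of_exponent_le hm (by norm_num)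
      _ = m := Real.rpow_one m
  have hHm : (H : ℝ) ≤ m := hHX.trans (hXhi.trans hm34)
  have hHM : H ≤ M := by
    have : (H : ℝ) ≤ (M : ℝ) := hHm
    exact_mod_cast this
  have hquart : (n : ℝ) + 1 ≤ m ^ (1 / 4 : ℝ) := by
    have h4 : ((n : ℝ) + 1) ^ 4 ≤ m := by
      rw [hmdef]; exact_mod_cast hM
    calc (n : ℝ) + 1 = (((n : ℝ) + 1) ^ 4) ^ (1 / 4 : ℝ) := by
          rw [← Real.rpow_natCast, ← Real.rpow_mul (by positivity)]; norm_num
      _ ≤ m ^ (1 / 4 : ℝ) := Real.rpow_le_rpow (by positivity) h4 (by norm_num)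
  have hJH : (J : ℝ) * H ≤ M := by
    rw [← hmdef]
    calc (J : ℝ) * H ≤ m ^ (1 / 4 : ℝ) * m ^ (3 / 4 : ℝ) := by
          apply mul_le_mul (by linarith only [hJnr, hquart]) (hHX.trans hXhi) (by positivity) (by positivity)
      _ = m := by rw [← Real.rpow_add hm0]; norm_num
  have hbr := VdcF_bracket n J hn hJ1 hJn m T H hm hT hH1 hHm (hXlo.trans hX2)
    (by
      have h4 : X ^ J ≤ (2 * (H : ℝ)) ^ J := pow_le_pow_left₀ (by linarith only [hX1]) hX2 J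
      rw [hXJ, hP, div_le_iff₀ hT] at h4
      linarith only [h4])
    (by
      have h4 : (H : ℝ) ^ J ≤ X ^ J := pow_le_pow_left₀ (by positivity) hHX J
      rw [hXJ, hP, le_div_iff₀ hT] at h4
      linarith only [h4])
  have hav := av_main J [] t β M a b H hM1 ha hb hβ hβ1 ht (by simp) hH1
    (by simpa using hJH)
  simp only [List.length_nil, zero_add, List.prod_nil, mul_one] at hav
  have hit := vdc_iter J (fun k => PH [] t β k) a b M H (by omega) hH1 hHM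
  set S := ‖∑ k ∈ Ioc a b, ee (t * Real.log ((k : ℝ) + β))‖ with hS
  have hit' : (S / m) ^ (2 ^ J) ≤ 16 ^ (2 ^ J) * (1 / (H : ℝ)
      + AvS H J (fun k => PH [] t β k) a b / m) := hit
  set B : ℝ := 2 + 4 ^ (n + 1) * (8 * n) ^ n + 7 * (n.factorial : ℝ) with hB
  have hB1 : 1 ≤ B := by
    have : 0 ≤ (4 : ℝ) ^ (n + 1) * (8 * n) ^ n := by positivity
    have : 0 ≤ 7 * (n.factorial : ℝ) := by positivity
    linarith
  have hmain : (S / m) ^ (2 ^ J) ≤ 16 ^ (2 ^ J) * (B * m ^ (-(1 / (4 * (J : ℝ))))) := by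
    refine hit'.trans (mul_le_mul_of_nonneg_left ?_ (by positivity))
    refine le_trans ?_ hbr
    gcongr
  set δ := 1 / (4 * (n : ℝ) * 2 ^ n) with hδ
  have hfin : (S / m) ^ (2 ^ J) ≤ (16 * B * m ^ (-δ)) ^ (2 ^ J) := by
    refine hmain.trans ?_
    rw [mul_pow, mul_pow, mul_assoc]
    apply mul_le_mul_of_nonneg_left _ (by positivity)
    apply mul_le_mul (le_self_pow₀ hB1 (by positivity)) _ (by positivity) (by positivity)
    rw [← Real.rpow_natCast (m ^ (-δ)), ← Real.rpow_mul hm0.le]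
    apply Real.rpow_le_rpow_of_exponent_le hm
    have h4 : δ * ((2 ^ J : ℕ) : ℝ) ≤ 1 / (4 * (J : ℝ)) := by
      rw [hδ]
      push_cast
      have h5 : (2 : ℝ) ^ J ≤ 2 ^ n := pow_le_pow_right₀ (by norm_num) hJn
      rw [div_mul_eq_mul_div, one_mul, div_le_div_iff₀ (by positivity) (by positivity), one_mul]
      calc (2 : ℝ) ^ J * (4 * J) ≤ 2 ^ n * (4 * n) := by
            apply mul_le_mul h5 (by linarith only [hJnr]) (by positivity) (by positivity)
        _ = 4 * (n : ℝ) * 2 ^ n := by ring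
    linarith only [h4]
  have hfin2 : S / m ≤ 16 * B * m ^ (-δ) :=
    le_of_pow_le_pow_left₀ (by positivity) (by positivity) hfin
  rw [div_le_iff₀ hm0] at hfin2
  refine hfin2.trans (le_of_eq ?_)
  rw [mul_assoc, sub_eq_neg_add, Real.rpow_add hm0, Real.rpow_one]

private theorem VdcF_trivial (a b M : ℕ) (β t : ℝ) (ha : M ≤ a) (hb : b ≤ 2 * M) :
    ‖∑ n ∈ Ioc a b, ee (t * Real.log (n + β))‖ ≤ M := by
  have h1 : ‖∑ n ∈ Ioc a b, ee (t * Real.log (n + β))‖ ≤ ∑ n ∈ Ioc a b, (1 : ℝ) := by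
    refine (norm_sum_le _ _).trans (Finset.sum_le_sum fun n _ => ?_)
    rw [Pool.Agent.H91.PK.LSa_norm_ee]
  refine h1.trans ?_
  rw [Finset.sum_const, Nat.card_Ioc, nsmul_eq_mul, mul_one]
  exact_mod_cast (by omega : b - a ≤ M)

theorem vdc (k0 : ℕ) : ∃ δ C : ℝ, 0 < δ ∧ δ ≤ 1 ∧ 1 ≤ C ∧ ∀ (M a b : ℕ) (β t : ℝ), 1 ≤ M → M ≤ a → b ≤ 2 * M →
    0 ≤ β → β ≤ 1 → (M : ℝ) ^ (1 / 3 : ℝ) ≤ |t| → |t| ≤ (M : ℝ) ^ k0 →
    ‖∑ n ∈ Ioc a b, ee (t * Real.log (n + β))‖ ≤ C * (M : ℝ) ^ (1 - δ) := by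
  set n := k0 + 1 with hn
  have hn1 : 1 ≤ n := by omega
  have hnr : (1 : ℝ) ≤ n := by exact_mod_cast hn1
  set δ : ℝ := 1 / (4 * (n : ℝ) * 2 ^ n) with hδ
  have hδ0 : 0 < δ := by rw [hδ]; positivity
  have h2n : (1 : ℝ) ≤ 2 ^ n := one_le_pow₀ (by norm_num)
  have hδ4 : δ ≤ 1 / 4 := by
    rw [hδ]
    apply one_div_le_one_div_of_le (by norm_num)
    nlinarith only [hnr, h2n]
  set B : ℝ := 16 * (2 + 4 ^ (n + 1) * (8 * n) ^ n + 7 * (n.factorial : ℝ)) with hB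
  have hB0 : 0 ≤ B := by rw [hB]; positivity
  set M0 : ℕ := (n + 1) ^ 4 with hM0
  refine ⟨δ, B + 11 + M0, hδ0, by linarith only [hδ0, hδ4], ?_, ?_⟩
  · have : (0 : ℝ) ≤ (M0 : ℝ) := Nat.cast_nonneg _
    linarith only [hδ0, hδ4, hB0]
  intro M a b β t hM ha hb hβ hβ1 hlo hhi
  have hm : (1 : ℝ) ≤ M := by exact_mod_cast hM
  have hm0 : (0 : ℝ) < M := by linarith only [hδ0, hδ4, hm]
  have hone : (1 : ℝ) ≤ (M : ℝ) ^ (1 - δ) := Real.one_le_rpow hm (by linarith only [hδ0, hδ4])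
  have hM00 : (0 : ℝ) ≤ (M0 : ℝ) := Nat.cast_nonneg _
  have hgoal : ∀ c : ℝ, c ≤ B + 11 + M0 →
      ‖∑ n ∈ Ioc a b, ee (t * Real.log (n + β))‖ ≤ c * (M : ℝ) ^ (1 - δ) →
      ‖∑ n ∈ Ioc a b, ee (t * Real.log (n + β))‖ ≤ (B + 11 + M0) * (M : ℝ) ^ (1 - δ) := by
    intro c hc h
    exact h.trans (mul_le_mul_of_nonneg_right hc (by linarith only [hδ0, hδ4, hone]))
  have ht0 : 0 < |t| := lt_of_lt_of_le (Real.rpow_pos_of_pos hm0 _) hlo
  have ht : t ≠ 0 := abs_pos.mp ht0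
  rcases Nat.lt_or_ge M M0 with hsmall | hbig
  · -- small M
    apply hgoal M0 (by linarith only [hδ0, hδ4, hB0])
    have h1 := VdcF_trivial a b M β t ha hb
    have h2 : (M : ℝ) ≤ M0 := by exact_mod_cast hsmall.le
    calc _ ≤ (M : ℝ) := h1
      _ ≤ M0 * 1 := by linarith only [h2]
      _ ≤ M0 * (M : ℝ) ^ (1 - δ) := mul_le_mul_of_nonneg_left hone hM00
  · rcases le_or_gt |t| ((M : ℝ) ^ (3 / 4 : ℝ)) with hlow | hlarge
    · apply hgoal 11 (by linarith only [hB0])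
      have h1 := low_sum t β M a b hM ha hb hβ hβ1 ht
      have h2 : 4 * (M : ℝ) / |t| ≤ 4 * (M : ℝ) ^ (2 / 3 : ℝ) := by
        rw [div_le_iff₀ ht0]
        have h3 : (M : ℝ) = (M : ℝ) ^ (2 / 3 : ℝ) * (M : ℝ) ^ (1 / 3 : ℝ) := by
          rw [← Real.rpow_add hm0]; norm_num
        calc 4 * (M : ℝ) = 4 * ((M : ℝ) ^ (2 / 3 : ℝ) * (M : ℝ) ^ (1 / 3 : ℝ)) := by
              rw [← h3]
          _ ≤ 4 * ((M : ℝ) ^ (2 / 3 : ℝ) * |t|) := by gcongr
          _ = _ := by ring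
      have h4 : (M : ℝ) ^ (2 / 3 : ℝ) ≤ (M : ℝ) ^ (1 - δ) :=
        Real.rpow_le_rpow_of_exponent_le hm (by linarith only [hδ0, hδ4])
      have h5 : (M : ℝ) ^ (3 / 4 : ℝ) ≤ (M : ℝ) ^ (1 - δ) :=
        Real.rpow_le_rpow_of_exponent_le hm (by linarith only [hδ4])
      linarith only [hlow, h1, h2, h4, h5]
    · -- choose J
      have hM16 : 16 ≤ M := by
        refine le_trans ?_ hbig
        calc 16 = 2 ^ 4 := by norm_num
          _ ≤ (n + 1) ^ 4 := Nat.pow_le_pow_left (by omega) 4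
      have hm1 : (1 : ℝ) < M := by exact_mod_cast (by omega : 1 < M)
      have hex : ∃ J : ℕ, |t| ≤ (M : ℝ) ^ ((J : ℝ) + 1 / 4) := by
        refine ⟨k0, hhi.trans ?_⟩
        rw [← Real.rpow_natCast]
        exact Real.rpow_le_rpow_of_exponent_le hm (by linarith only [hδ0, hδ4])
      classical
      let J := Nat.find hex
      have hJ2 : |t| ≤ (M : ℝ) ^ ((J : ℝ) + 1 / 4) := Nat.find_spec hex
      have hJk : J ≤ k0 := by
        apply Nat.find_min' hex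
        refine hhi.trans ?_
        rw [← Real.rpow_natCast]
        exact Real.rpow_le_rpow_of_exponent_le hm (by linarith only [hδ0, hδ4])
      have hJ1 : 1 ≤ J := by
        by_contra hc
        have hJ0 : J = 0 := by omega
        rw [hJ0] at hJ2
        have h6 := hlarge.trans_le hJ2
        rw [Real.rpow_lt_rpow_left_iff hm1] at h6
        norm_num at h6
      have hJ3 : (M : ℝ) ^ ((J : ℝ) - 3 / 4) ≤ |t| := by
        have h6 := Nat.find_min hex (m := J - 1) (by omega)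
        push Not at h6
        have h7 : ((J - 1 : ℕ) : ℝ) + 1 / 4 = (J : ℝ) - 3 / 4 := by
          rw [Nat.cast_sub hJ1]; push_cast; ring
        rw [h7] at h6
        exact h6.le
      apply hgoal B (by linarith only [hδ0, hδ4])
      exact VdcF_big n hn1 M a b J β t hbig ha hb hβ hβ1 hJ1 (by omega) hJ3 hJ2 hlarge.le

end Pool.Agent.H76.EHB

end

section

/-!
# W KS1: sums of `(n + β)^{it}` over intervals starting anywhere

`|∑_{a < n ≤ b} ee(t log(n+β))| ≤ C K (1/|t| + x^{-δ})` for `b ≤ K`, `x^κ ≤ K ≤ x`, `1 ≤ |t| ≤ x^3`.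

Proof.  Let `k0 = ⌈8/κ⌉₊` and let `δ0, C0` be the constants of `EHB.vdc k0`; put `δ = κ δ0 / 4` or smaller
(e.g. `min (κ δ0 / 4) (κ/8)`, we may assume `κ ≤ 1`: if `κ > 1` there is no `K` once `x ≥ 2`).  The terms with
`n ≤ K^{1/2}` contribute at most `K^{1/2} + 1`.  Cut the rest into the intervals `(a', b'] ⊂ (M, 2M]` with
`M = 2^i`, `M ≥ K^{1/2}/2`, `2^i ≤ K`.  For `|t| ≥ M^{1/3}` use `vdc k0` (`|t| ≤ x^3 ≤ M^{k0}` as
`M ≥ K^{1/2}/2 ≥ x^{κ/2}/2`, for large `x`): `≤ C0 M^{1-δ0}`; for `|t| ≤ M^{1/3}` use `low_sum`: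
`≤ 4M/|t| + 7 M^{1/3}`.  The sum over `M = 2^i ≤ K` is `≤ C (K^{1-δ0}·K^{..} + K/|t| + K^{1/3})` (geometric
series; `∑ M^{1-δ0} ≤ (number of i) K^{1-δ0}`, number of `i ≤ 2 log K ≤ C K^{δ0/2}`).  Finally
`K^{-δ0/2}, K^{-1/2} ≤ x^{-δ}`.
-/

set_option autoImplicit false

namespace Pool.Agent.H35.W

open Finset
open Pool.Agent.H91.PK (ee)

private theorem KS1_triv (a b : ℕ) (β t : ℝ) :
    ‖∑ n ∈ Ioc a b, ee (t * Real.log (n + β))‖ ≤ b := by
  have h1 : ‖∑ n ∈ Ioc a b, ee (t * Real.log (n + β))‖ ≤ ∑ n ∈ Ioc a b, (1 : ℝ) := by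
    refine (norm_sum_le _ _).trans (Finset.sum_le_sum fun n _ => ?_)
    rw [Pool.Agent.H91.PK.LSa_norm_ee]
  refine h1.trans ?_
  rw [Finset.sum_const, Nat.card_Ioc, nsmul_eq_mul, mul_one]
  exact_mod_cast Nat.sub_le b a

/-- a dyadic piece -/
private theorem KS1_piece (C0 δ0 δ1 : ℝ) (k0 : ℕ) (hC0 : 1 ≤ C0) (h10 : δ1 ≤ δ0)
    (h1h : δ1 ≤ 1 / 2)
    (hv : ∀ (M a b : ℕ) (β t : ℝ), 1 ≤ M → M ≤ a → b ≤ 2 * M → 0 ≤ β → β ≤ 1 →
      (M : ℝ) ^ (1 / 3 : ℝ) ≤ |t| → |t| ≤ (M : ℝ) ^ k0 →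
      ‖∑ n ∈ Ioc a b, ee (t * Real.log (n + β))‖ ≤ C0 * (M : ℝ) ^ (1 - δ0))
    (M a b : ℕ) (β t : ℝ) (hM : 1 ≤ M) (ha : M ≤ a) (hb : b ≤ 2 * M) (hβ : 0 ≤ β) (hβ1 : β ≤ 1)
    (ht1 : 1 ≤ |t|) (ht : |t| ≤ (M : ℝ) ^ k0) :
    ‖∑ n ∈ Ioc a b, ee (t * Real.log (n + β))‖ ≤
      (C0 + 7) * (M : ℝ) ^ (1 - δ1) + 4 * M / |t| := by
  have hm : (1 : ℝ) ≤ M := by exact_mod_cast hM
  have hm0 : (0 : ℝ) < M := by linarith only [hm]
  have hp : 0 < (M : ℝ) ^ (1 - δ1) := Real.rpow_pos_of_pos hm0 _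
  have ht0 : 0 < |t| := by linarith only [ht1]
  have hq : 0 ≤ 4 * (M : ℝ) / |t| := by positivity
  rcases le_or_gt ((M : ℝ) ^ (1 / 3 : ℝ)) |t| with h | h
  · refine (hv M a b β t hM ha hb hβ hβ1 h ht).trans ?_
    have h1 : (M : ℝ) ^ (1 - δ0) ≤ (M : ℝ) ^ (1 - δ1) :=
      Real.rpow_le_rpow_of_exponent_le hm (by linarith only [h10])
    nlinarith only [hp, hq, h1, hC0]
  · refine (Pool.Agent.H76.EHB.low_sum t β M a b hM ha hb hβ hβ1 (abs_pos.1 ht0)).trans ?_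
    have h1 : (M : ℝ) ^ (1 / 3 : ℝ) ≤ (M : ℝ) ^ (1 - δ1) :=
      Real.rpow_le_rpow_of_exponent_le hm (by linarith only [h1h])
    nlinarith only [ht1, h, h1, hC0, hp]

/-- halving -/
private theorem KS1_step (C1 δ1 τ : ℝ) (hC1 : 0 ≤ C1) (h1h : δ1 ≤ 1 / 2) (hτ : 0 < τ)
    (m b : ℝ) (hm : 0 ≤ m) (hmb : m ≤ 2 / 3 * b) :
    (C1 * m ^ (1 - δ1) + 4 * m / τ) + (6 * C1 * m ^ (1 - δ1) + 8 * m / τ) ≤
      6 * C1 * b ^ (1 - δ1) + 8 * b / τ := by
  have hb : 0 ≤ b := by linarith only [hm, hmb]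
  have h1 : m ^ (1 - δ1) ≤ 5 / 6 * b ^ (1 - δ1) := by
    calc m ^ (1 - δ1) ≤ (2 / 3 * b) ^ (1 - δ1) := Real.rpow_le_rpow hm hmb (by linarith only [h1h])
      _ = (2 / 3) ^ (1 - δ1) * b ^ (1 - δ1) := Real.mul_rpow (by norm_num) hb
      _ ≤ 5 / 6 * b ^ (1 - δ1) := by
          refine mul_le_mul_of_nonneg_right ?_ (Real.rpow_nonneg hb _)
          calc (2 / 3 : ℝ) ^ (1 - δ1) ≤ (2 / 3 : ℝ) ^ (1 / 2 : ℝ) :=
                Real.rpow_le_rpow_of_exponent_ge (by norm_num) (by norm_num) (by linarith only [h1h])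
            _ ≤ 5 / 6 := by
                rw [← Real.sqrt_eq_rpow, Real.sqrt_le_left (by norm_num)]
                norm_num
  have h2 : m / τ ≤ 2 / 3 * (b / τ) := by
    rw [← mul_div_assoc]
    exact div_le_div_of_nonneg_right hmb hτ.le
  have h3 : 0 ≤ b ^ (1 - δ1) := Real.rpow_nonneg hb _
  have e1 : (C1 * m ^ (1 - δ1) + 4 * m / τ) + (6 * C1 * m ^ (1 - δ1) + 8 * m / τ) =
      7 * (C1 * m ^ (1 - δ1)) + 12 * (m / τ) := by ring
  have e2 : 6 * C1 * b ^ (1 - δ1) + 8 * b / τ = 6 * (C1 * b ^ (1 - δ1)) + 8 * (b / τ) := by ring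
  rw [e1, e2]
  have h4 : C1 * m ^ (1 - δ1) ≤ 5 / 6 * (C1 * b ^ (1 - δ1)) := by
    calc C1 * m ^ (1 - δ1) ≤ C1 * (5 / 6 * b ^ (1 - δ1)) := mul_le_mul_of_nonneg_left h1 hC1
      _ = _ := by ring
  have h5 : 0 ≤ C1 * b ^ (1 - δ1) := by positivity
  linarith only [h2, h4, h5]

/-- all intervals -/
private theorem KS1_all (C0 δ0 δ1 T : ℝ) (k0 : ℕ) (hC0 : 1 ≤ C0) (h10 : δ1 ≤ δ0)
    (h1h : δ1 ≤ 1 / 2) (hT : 3 ≤ T)
    (hv : ∀ (M a b : ℕ) (β t : ℝ), 1 ≤ M → M ≤ a → b ≤ 2 * M → 0 ≤ β → β ≤ 1 →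
      (M : ℝ) ^ (1 / 3 : ℝ) ≤ |t| → |t| ≤ (M : ℝ) ^ k0 →
      ‖∑ n ∈ Ioc a b, ee (t * Real.log (n + β))‖ ≤ C0 * (M : ℝ) ^ (1 - δ0))
    (β t : ℝ) (hβ : 0 ≤ β) (hβ1 : β ≤ 1) (ht1 : 1 ≤ |t|) (ht : |t| ≤ (T / 2) ^ k0) (b : ℕ) :
    ∀ a : ℕ, ‖∑ n ∈ Ioc a b, ee (t * Real.log (n + β))‖ ≤
      T + (6 * (C0 + 7) * (b : ℝ) ^ (1 - δ1) + 8 * b / |t|) := by
  induction b using Nat.strong_induction_on with
  | _ b ih =>
    intro a
    have ht0 : 0 < |t| := by linarith only [ht1]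
    have hG : 0 ≤ 6 * (C0 + 7) * (b : ℝ) ^ (1 - δ1) + 8 * b / |t| := by
      have h1 : 0 ≤ (b : ℝ) ^ (1 - δ1) := Real.rpow_nonneg (Nat.cast_nonneg _) _
      have h2 : 0 ≤ C0 + 7 := by linarith only [hC0]
      positivity
    rcases le_or_gt (b : ℝ) T with hbT | hbT
    · have := KS1_triv a b β t
      linarith only [hG, hbT, this]
    · have hb3 : 3 < b := by
        have : (3 : ℝ) < b := by linarith only [hT, hbT]
        exact_mod_cast this
      set M := (b + 1) / 2 with hMdef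
      have hMb : M < b := by omega
      have hM1 : 1 ≤ M := by omega
      have hb2 : b ≤ 2 * M := by omega
      have h3M : 3 * M ≤ 2 * b := by omega
      have hMr : (M : ℝ) ≤ 2 / 3 * b := by
        have : (3 : ℝ) * M ≤ 2 * b := by exact_mod_cast h3M
        linarith only [this]
      have hMT : T / 2 ≤ (M : ℝ) := by
        have : (b : ℝ) ≤ 2 * M := by exact_mod_cast hb2
        linarith only [hbT, this]
      have htM : |t| ≤ (M : ℝ) ^ k0 := ht.trans (pow_le_pow_left₀ (by linarith only [hT]) hMT k0)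
      have hstep := KS1_step (C0 + 7) δ1 |t| (by linarith only [hC0]) h1h ht0 M b (Nat.cast_nonneg _) hMr
      have hG' : 0 ≤ 6 * (C0 + 7) * (M : ℝ) ^ (1 - δ1) + 8 * M / |t| := by
        have h1 : 0 ≤ (M : ℝ) ^ (1 - δ1) := Real.rpow_nonneg (Nat.cast_nonneg _) _
        have h2 : 0 ≤ C0 + 7 := by linarith only [hC0]
        positivity
      rcases le_or_gt M a with haM | haM
      · have h := KS1_piece C0 δ0 δ1 k0 hC0 h10 h1h hv M a b β t hM1 haM hb2 hβ hβ1 ht1 htM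
        linarith only [hT, hstep, hG', h]
      · have h := KS1_piece C0 δ0 δ1 k0 hC0 h10 h1h hv M M b β t hM1 le_rfl hb2 hβ hβ1 ht1 htM
        have h' := ih M hMb a
        have e : ∑ n ∈ Ioc a b, ee (t * Real.log (n + β)) =
            ∑ n ∈ Ioc a M, ee (t * Real.log (n + β)) +
              ∑ n ∈ Ioc M b, ee (t * Real.log (n + β)) :=
          (Finset.sum_Ioc_consecutive _ haM.le hMb.le).symm
        rw [e]
        have := norm_add_le (∑ n ∈ Ioc a M, ee (t * Real.log (n + β)))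
          (∑ n ∈ Ioc M b, ee (t * Real.log (n + β)))
        linarith only [hstep, h, h', this]

theorem ks1 (kap : ℝ) (hkap : 0 < kap) : ∃ δ C : ℝ, 0 < δ ∧ δ ≤ 1 ∧ 1 ≤ C ∧ ∃ x0 : ℕ,
    ∀ x : ℕ, x0 ≤ x → ∀ (K a b : ℕ) (β t : ℝ), (x : ℝ) ^ kap ≤ K → K ≤ x → b ≤ K → 0 ≤ β → β ≤ 1 →
      1 ≤ |t| → |t| ≤ (x : ℝ) ^ (3 : ℕ) →
      ‖∑ n ∈ Ioc a b, ee (t * Real.log (n + β))‖ ≤ C * K * (1 / |t| + (x : ℝ) ^ (-δ)) := by
  obtain ⟨δ0, C0, hδ0, hδ01, hC0, hv⟩ := Pool.Agent.H76.EHB.vdc ⌈8 / kap⌉₊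
  set k0 := ⌈8 / kap⌉₊ with hk0
  set δ1 : ℝ := min δ0 (1 / 2) with hδ1
  have h10 : δ1 ≤ δ0 := min_le_left _ _
  have h1h : δ1 ≤ 1 / 2 := min_le_right _ _
  have h1p : 0 < δ1 := lt_min hδ0 (by norm_num)
  refine ⟨min (kap * δ1) 1, 6 * C0 + 51, lt_min (by positivity) one_pos, min_le_right _ _,
    by linarith only [hC0], ⌈(2 : ℝ) ^ (8 / kap)⌉₊ + 1, ?_⟩
  intro x hx K a b β t hK hKx hb hβ hβ1 ht1 ht
  have hx2 : (2 : ℝ) ^ (8 / kap) ≤ x := by
    refine (Nat.le_ceil _).trans ?_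
    exact_mod_cast (by omega : ⌈(2 : ℝ) ^ (8 / kap)⌉₊ ≤ x)
  have hx1 : (1 : ℝ) ≤ x := by exact_mod_cast (by omega : 1 ≤ x)
  have hx0 : (0 : ℝ) < x := by linarith only [hx1]
  have h2 : (2 : ℝ) ≤ (x : ℝ) ^ (kap / 8) := by
    calc (2 : ℝ) = ((2 : ℝ) ^ (8 / kap)) ^ (kap / 8) := by
          rw [← Real.rpow_mul (by norm_num)]
          have : 8 / kap * (kap / 8) = 1 := by field_simp
          rw [this, Real.rpow_one]
      _ ≤ (x : ℝ) ^ (kap / 8) := Real.rpow_le_rpow (by positivity) hx2 (by positivity)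
  have hK1 : (1 : ℝ) ≤ K := (Real.one_le_rpow hx1 hkap.le).trans hK
  have hK0 : (0 : ℝ) < K := by linarith only [hK1]
  set T : ℝ := (K : ℝ) ^ (1 / 2 : ℝ) with hT
  have hTx : (x : ℝ) ^ (kap / 2) ≤ T := by
    calc (x : ℝ) ^ (kap / 2) = ((x : ℝ) ^ kap) ^ (1 / 2 : ℝ) := by
          rw [← Real.rpow_mul hx0.le]
          congr 1
          ring
      _ ≤ T := Real.rpow_le_rpow (by positivity) hK (by norm_num)
  have hx4 : (16 : ℝ) ≤ (x : ℝ) ^ (kap / 2) := by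
    have e : (x : ℝ) ^ (kap / 2) = ((x : ℝ) ^ (kap / 8)) ^ 4 := by
      rw [← Real.rpow_natCast, ← Real.rpow_mul hx0.le]
      congr 1
      push_cast
      ring
    rw [e]
    calc (16 : ℝ) = 2 ^ 4 := by norm_num
      _ ≤ _ := pow_le_pow_left₀ (by norm_num) h2 4
  have hT3 : 3 ≤ T := by linarith only [hTx, hx4]
  have hT2 : (x : ℝ) ^ (3 * kap / 8) ≤ T / 2 := by
    have e : (x : ℝ) ^ (kap / 2) = (x : ℝ) ^ (kap / 8) * (x : ℝ) ^ (3 * kap / 8) := by
      rw [← Real.rpow_add hx0]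
      congr 1
      ring
    have h3 : 0 < (x : ℝ) ^ (3 * kap / 8) := Real.rpow_pos_of_pos hx0 _
    rw [e] at hTx
    nlinarith only [hTx, h2, h3]
  have htT : |t| ≤ (T / 2) ^ k0 := by
    refine ht.trans ?_
    calc (x : ℝ) ^ (3 : ℕ) = (x : ℝ) ^ (3 : ℝ) := by
          rw [← Real.rpow_natCast]
          norm_num
      _ ≤ (x : ℝ) ^ (3 * kap / 8 * k0) := by
          apply Real.rpow_le_rpow_of_exponent_le hx1
          have h3 : 8 / kap ≤ k0 := Nat.le_ceil _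
          rw [div_le_iff₀ hkap] at h3
          nlinarith only [h3]
      _ = ((x : ℝ) ^ (3 * kap / 8)) ^ k0 := by
          rw [← Real.rpow_natCast, ← Real.rpow_mul hx0.le]
      _ ≤ (T / 2) ^ k0 := pow_le_pow_left₀ (by positivity) hT2 k0
  have hmain := KS1_all C0 δ0 δ1 T k0 hC0 h10 h1h hT3 hv β t hβ hβ1 ht1 htT b a
  refine hmain.trans ?_
  have ht0 : 0 < |t| := by linarith only [ht1]
  have hbK : (b : ℝ) ≤ K := by exact_mod_cast hb
  have f1 : (b : ℝ) ^ (1 - δ1) ≤ (K : ℝ) ^ (1 - δ1) :=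
    Real.rpow_le_rpow (Nat.cast_nonneg _) hbK (by linarith only [h1h])
  have f2 : (b : ℝ) / |t| ≤ K / |t| := div_le_div_of_nonneg_right hbK ht0.le
  have f3 : T ≤ (K : ℝ) ^ (1 - δ1) := Real.rpow_le_rpow_of_exponent_le hK1 (by linarith only [h1h])
  have f4 : (K : ℝ) ^ (1 - δ1) ≤ K * (x : ℝ) ^ (-(min (kap * δ1) 1)) := by
    have e : (K : ℝ) ^ (1 - δ1) = K * (K : ℝ) ^ (-δ1) := by
      rw [sub_eq_add_neg, Real.rpow_add hK0, Real.rpow_one]
    rw [e]
    refine mul_le_mul_of_nonneg_left ?_ hK0.le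
    calc (K : ℝ) ^ (-δ1) ≤ ((x : ℝ) ^ kap) ^ (-δ1) :=
          Real.rpow_le_rpow_of_nonpos (by positivity) hK (by linarith only [h1p])
      _ = (x : ℝ) ^ (-(kap * δ1)) := by
          rw [← Real.rpow_mul hx0.le]
          congr 1
          ring
      _ ≤ (x : ℝ) ^ (-(min (kap * δ1) 1)) :=
          Real.rpow_le_rpow_of_exponent_le hx1 (neg_le_neg (min_le_left _ _))
  have e1 : 8 * (b : ℝ) / |t| = 8 * (b / |t|) := by ring
  rw [e1]
  have e2 : (6 * C0 + 51) * (K : ℝ) * (1 / |t| + (x : ℝ) ^ (-(min (kap * δ1) 1))) =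
      (6 * C0 + 51) * (K / |t|) +
        (6 * C0 + 51) * (K * (x : ℝ) ^ (-(min (kap * δ1) 1))) := by ring
  rw [e2]
  have g0 : 0 ≤ (K : ℝ) / |t| := by positivity
  have g1 : 0 ≤ (K : ℝ) ^ (1 - δ1) := by positivity
  have g2 : 6 * (C0 + 7) * (b : ℝ) ^ (1 - δ1) ≤ 6 * (C0 + 7) * (K : ℝ) ^ (1 - δ1) :=
    mul_le_mul_of_nonneg_left f1 (by linarith only [hC0])
  have g3 : (6 * C0 + 43) * (K : ℝ) ^ (1 - δ1) ≤
      (6 * C0 + 51) * (K * (x : ℝ) ^ (-(min (kap * δ1) 1))) :=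
    mul_le_mul (by linarith only) f4 g1 (by linarith only [hC0])
  have g4 : 8 * ((K : ℝ) / |t|) ≤ (6 * C0 + 51) * (K / |t|) :=
    mul_le_mul_of_nonneg_right (by linarith only [hC0]) g0
  linarith only [f2, f3, g2, g3, g4]

end Pool.Agent.H35.W

end

section

/-!
# LV GInt: the kernel integral

`D(u) = ∑_{n ≤ K} ee(u log n)`, `x^κ ≤ K ≤ x`.  `ks1 κ` (with `β = 0`, `a = 0`, `b = K`) gives `δ, C ≥ 1, x1` with
`|D(u)| ≤ C K (1/|u| + x^{-δ})` for `1 ≤ |u| ≤ x^3`; trivially `|D(u)| ≤ K`.  Hence for `|u| ≤ 2 x^2 ≤ x^3`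
`|D(u)| ≤ 2 C K / (1 + |u|) + C K x^{-δ}`.  For `t ∈ B`: `∫_B 1/(1+|t-s|) ds ≤ ∫_{|u| ≤ 2 x^2} du/(1+|u|) = 2 log(1 + 2 x^2) ≤ 6 L` and
`∫_B x^{-δ} ≤ x^{η - δ} ≤ 1` with `η = δ`.  So the integral is `≤ 12 C K L + C K ≤ K L^2` for large `x`.
(To avoid computing the integral one may also compare on dyadic pieces or use
`∫_0^Y du/(1+u) = log(1+Y)`, `integral_one_div_of_pos` after a shift.)
-/

set_option autoImplicit false

namespace Pool.Agent.H80.LV

open Finset MeasureTheory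
open Pool.Agent.H91.PK (ee)

private theorem GInt_log (t Y : ℝ) (hY : 0 ≤ Y) :
    ∫ s in (t - Y)..(t + Y), 1 / (1 + |t - s|) = 2 * Real.log (1 + Y) := by
  have hcont : Continuous (fun s : ℝ => 1 / (1 + |t - s|)) := by
    refine continuous_const.div (by fun_prop) fun s => ?_
    positivity
  have h1 : ∫ s in (t - Y)..t, 1 / (1 + |t - s|) = Real.log (1 + Y) := by
    have e1 : ∫ s in (t - Y)..t, 1 / (1 + |t - s|) =
        ∫ s in (t - Y)..t, (fun u : ℝ => 1 / u) (1 + t - s) := by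
      refine intervalIntegral.integral_congr fun s hs => ?_
      rw [Set.uIcc_of_le (by linarith), Set.mem_Icc] at hs
      simp only
      rw [abs_of_nonneg (by linarith)]
      congr 1
      ring
    rw [e1, intervalIntegral.integral_comp_sub_left, integral_one_div_of_pos (by linarith only)
      (by linarith only [hY])]
    congr 1
    rw [show (1 : ℝ) + t - t = 1 by ring, div_one]
    ring
  have h2 : ∫ s in t..(t + Y), 1 / (1 + |t - s|) = Real.log (1 + Y) := by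
    have e1 : ∫ s in t..(t + Y), 1 / (1 + |t - s|) =
        ∫ s in t..(t + Y), (fun u : ℝ => 1 / u) (s - (t - 1)) := by
      refine intervalIntegral.integral_congr fun s hs => ?_
      rw [Set.uIcc_of_le (by linarith), Set.mem_Icc] at hs
      simp only
      rw [abs_of_nonpos (by linarith)]
      congr 1
      ring
    rw [e1, intervalIntegral.integral_comp_sub_right, integral_one_div_of_pos (by linarith only)
      (by linarith only [hY])]
    congr 1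
    rw [show t - (t - 1) = 1 by ring, div_one]
    ring
  rw [← intervalIntegral.integral_add_adjacent_intervals (b := t)
    (hcont.intervalIntegrable _ _) (hcont.intervalIntegrable _ _), h1, h2]
  ring

theorem g_int (κ : ℝ) (hκ : 0 < κ) : ∃ η : ℝ, 0 < η ∧ η ≤ 1 ∧ ∃ x0 : ℕ, ∀ x : ℕ, x0 ≤ x →
    ∀ (K : ℕ) (B : Set ℝ), (x : ℝ) ^ κ ≤ K → K ≤ x → MeasurableSet B →
      B ⊆ Set.Icc (-((x : ℝ) ^ (2 : ℕ))) ((x : ℝ) ^ (2 : ℕ)) → volume.real B ≤ (x : ℝ) ^ η →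
      ∀ t ∈ B, ∫ s in B, ‖∑ n ∈ Icc 1 K, ee ((t - s) * Real.log n)‖ ≤ K * Real.log x ^ 2 := by
  obtain ⟨δ, C, hδ, hδ1, hC, x1, hx1⟩ := Pool.Agent.H35.W.ks1 κ hκ
  obtain ⟨x2, hx2⟩ := log_ge (13 * C)
  refine ⟨δ, hδ, hδ1, max (max x1 x2) 3, fun x hx K B hK hKx hB hBs hvol t ht => ?_⟩
  have hxx1 : x1 ≤ x := le_trans (le_trans (le_max_left _ _) (le_max_left _ _)) hx
  have hxx2 : x2 ≤ x := le_trans (le_trans (le_max_right _ _) (le_max_left _ _)) hx
  have hx3 : 3 ≤ x := le_trans (le_max_right _ _) hx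
  have hxr : (3 : ℝ) ≤ x := by exact_mod_cast hx3
  have hx0 : (0 : ℝ) < x := by linarith only [hxr]
  have hL := hx2 x hxx2
  set L : ℝ := Real.log x with hLdef
  have hL1 : 13 ≤ L := by linarith only [hC, hL]
  have hK0 : (0 : ℝ) ≤ K := Nat.cast_nonneg _
  set Y : ℝ := 2 * (x : ℝ) ^ 2 with hY
  have hY0 : 0 ≤ Y := by positivity
  have hYx : 1 + Y ≤ (x : ℝ) ^ 3 := by
    rw [hY]
    nlinarith only [hxr, sq_nonneg ((x : ℝ) - 3)]
  have hxd : 0 ≤ (x : ℝ) ^ (-δ) := Real.rpow_nonneg hx0.le _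
  -- pointwise bound
  have hpt : ∀ s ∈ B, ‖∑ n ∈ Icc 1 K, ee ((t - s) * Real.log n)‖ ≤
      2 * C * K * (1 / (1 + |t - s|)) + C * K * (x : ℝ) ^ (-δ) := by
    intro s hs
    have hs1 := hBs hs
    have ht1 := hBs ht
    rw [Set.mem_Icc] at hs1 ht1
    have habs : |t - s| ≤ Y := by
      rw [hY, abs_le]
      constructor <;> linarith only [hs1, ht1, hs1.1, hs1.2, ht1.1, ht1.2]
    rcases lt_or_ge |t - s| 1 with h | h
    · have h1 : ‖∑ n ∈ Icc 1 K, ee ((t - s) * Real.log n)‖ ≤ K := by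
        refine (norm_sum_le _ _).trans ?_
        refine (Finset.sum_le_card_nsmul _ _ 1 fun n _ =>
          (Pool.Agent.H91.PK.LSa_norm_ee _).le).trans ?_
        rw [Nat.card_Icc, nsmul_eq_mul, mul_one, Nat.add_sub_cancel]
      have h2 : 1 ≤ 2 * (1 / (1 + |t - s|)) := by
        rw [mul_one_div, le_div_iff₀ (by positivity)]
        linarith only [h]
      have h3 : (0 : ℝ) ≤ C * K * (x : ℝ) ^ (-δ) := by positivity
      have h4 : (K : ℝ) ≤ 2 * C * K * (1 / (1 + |t - s|)) := by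
        calc (K : ℝ) = K * 1 := (mul_one _).symm
          _ ≤ K * (2 * (1 / (1 + |t - s|))) := mul_le_mul_of_nonneg_left h2 hK0
          _ = 1 * (2 * K * (1 / (1 + |t - s|))) := by ring
          _ ≤ C * (2 * K * (1 / (1 + |t - s|))) :=
              mul_le_mul_of_nonneg_right hC (by positivity)
          _ = _ := by ring
      linarith only [h1, h3, h4]
    · have h1 := hx1 x hxx1 K 0 K 0 (t - s) hK hKx le_rfl le_rfl zero_le_one h
        (habs.trans (by linarith only [hYx]))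
      simp only [add_zero] at h1
      have e : Ioc 0 K = Icc 1 K := by
        ext n
        simp only [mem_Ioc, mem_Icc]
        omega
      rw [e] at h1
      refine h1.trans ?_
      have h2 : 1 / |t - s| ≤ 2 * (1 / (1 + |t - s|)) := by
        rw [mul_one_div, div_le_div_iff₀ (by linarith only [h]) (by positivity)]
        linarith only [h]
      calc C * K * (1 / |t - s| + (x : ℝ) ^ (-δ)) ≤
            C * K * (2 * (1 / (1 + |t - s|)) + (x : ℝ) ^ (-δ)) :=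
            mul_le_mul_of_nonneg_left (by linarith only [h2]) (by positivity)
        _ = _ := by ring
  have hcee : Continuous (fun s : ℝ => ‖∑ n ∈ Icc 1 K, ee ((t - s) * Real.log n)‖) := by
    unfold ee
    fun_prop
  have hcg0 : Continuous (fun s : ℝ => 1 / (1 + |t - s|)) := by
    refine continuous_const.div (by fun_prop) fun s => ?_
    positivity
  have hcg : Continuous (fun s : ℝ => 2 * C * K * (1 / (1 + |t - s|))) :=
    continuous_const.mul hcg0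
  have hi1 : IntegrableOn (fun s : ℝ => ‖∑ n ∈ Icc 1 K, ee ((t - s) * Real.log n)‖) B :=
    (hcee.continuousOn.integrableOn_Icc).mono_set hBs
  have hi2 : IntegrableOn (fun s : ℝ => 2 * C * K * (1 / (1 + |t - s|))) B :=
    (hcg.continuousOn.integrableOn_Icc).mono_set hBs
  have hi3 : IntegrableOn (fun _ : ℝ => C * K * (x : ℝ) ^ (-δ)) B :=
    (continuous_const.continuousOn.integrableOn_Icc).mono_set hBs
  refine (setIntegral_mono_on hi1 (hi2.add hi3) hB hpt).trans ?_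
  have e1 : ∫ s in B, (2 * C * K * (1 / (1 + |t - s|)) + C * K * (x : ℝ) ^ (-δ)) =
      2 * C * K * (∫ s in B, 1 / (1 + |t - s|)) + volume.real B * (C * K * (x : ℝ) ^ (-δ)) := by
    rw [integral_add hi2 hi3, integral_const_mul, setIntegral_const, smul_eq_mul]
  have e2 : ∫ s in B, 1 / (1 + |t - s|) ≤ 2 * Real.log (1 + Y) := by
    rw [← GInt_log t Y hY0, intervalIntegral.integral_of_le (by linarith only [hY0]),
      ← integral_Icc_eq_integral_Ioc]
    refine setIntegral_mono_set (hcg0.continuousOn.integrableOn_Icc)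
      (Filter.Eventually.of_forall fun s => ?_) (HasSubset.Subset.eventuallyLE ?_)
    · simp only [Pi.zero_apply]
      positivity
    · intro s hs
      have hs1 := hBs hs
      have ht1 := hBs ht
      rw [Set.mem_Icc] at hs1 ht1 ⊢
      constructor <;> linarith only [hs1, ht1, hs1.1, hs1.2, ht1.1, ht1.2]
  have e3 : Real.log (1 + Y) ≤ 3 * L := by
    calc Real.log (1 + Y) ≤ Real.log ((x : ℝ) ^ 3) := Real.log_le_log (by positivity) hYx
      _ = 3 * L := by rw [Real.log_pow, hLdef]; norm_num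
  have e4 : volume.real B * (x : ℝ) ^ (-δ) ≤ 1 := by
    calc volume.real B * (x : ℝ) ^ (-δ) ≤ (x : ℝ) ^ δ * (x : ℝ) ^ (-δ) :=
          mul_le_mul_of_nonneg_right hvol hxd
      _ = 1 := by rw [← Real.rpow_add hx0, add_neg_cancel, Real.rpow_zero]
  have e5 : 2 * C * K * (∫ s in B, 1 / (1 + |t - s|)) ≤ 2 * C * K * (2 * (3 * L)) := by
    refine mul_le_mul_of_nonneg_left ?_ (by positivity)
    linarith only [e2, e3]
  have e6 : volume.real B * (C * K * (x : ℝ) ^ (-δ)) ≤ C * K * 1 := by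
    calc volume.real B * (C * K * (x : ℝ) ^ (-δ)) = C * K * (volume.real B * (x : ℝ) ^ (-δ)) := by
          ring
      _ ≤ C * K * 1 := mul_le_mul_of_nonneg_left e4 (by positivity)
  have e7 : 12 * C * L + C ≤ L ^ 2 := by
    have : C ≤ C * L := le_mul_of_one_le_right (by linarith only [hC]) (by linarith only [hC, hL])
    nlinarith only [hC, hL]
  change ∫ s in B, (2 * C * K * (1 / (1 + |t - s|)) + C * K * (x : ℝ) ^ (-δ)) ≤ K * L ^ 2
  rw [e1]
  calc 2 * C * K * (∫ s in B, 1 / (1 + |t - s|)) + volume.real B * (C * K * (x : ℝ) ^ (-δ))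
      ≤ 2 * C * K * (2 * (3 * L)) + C * K * 1 := add_le_add e5 e6
    _ = K * (12 * C * L + C) := by ring
    _ ≤ K * L ^ 2 := mul_le_mul_of_nonneg_left e7 hK0

end Pool.Agent.H80.LV

end

section

/-!
# LV HM: the Halász-Montgomery inequality for short sets
-/

set_option autoImplicit false

namespace Pool.Agent.H80.LV

open Finset MeasureTheory
open Pool.Agent.H91.PK (ee)

theorem hm (κ : ℝ) (hκ : 0 < κ) : ∃ η : ℝ, 0 < η ∧ η ≤ 1 ∧ ∃ x0 : ℕ, ∀ x : ℕ, x0 ≤ x →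
    ∀ (K : ℕ) (a : ℕ → ℂ) (B : Set ℝ), (x : ℝ) ^ κ ≤ K → K ≤ x → MeasurableSet B →
      B ⊆ Set.Icc (-((x : ℝ) ^ (2 : ℕ))) ((x : ℝ) ^ (2 : ℕ)) → volume.real B ≤ (x : ℝ) ^ η →
      ∫ t in B, ‖∑ n ∈ Icc 1 K, a n * ee (t * Real.log n)‖ ^ 2
        ≤ K * Real.log x ^ 2 * ∑ n ∈ Icc 1 K, ‖a n‖ ^ 2 := by
  obtain ⟨η, h1, h2, x0, H⟩ := g_int κ hκ
  refine ⟨η, h1, h2, x0, fun x hx K a B hK hKx hB hb hv => ?_⟩
  exact dual_ineq B _ hB hb K a _ (by positivity) (H x hx K B hK hKx hB hb hv)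

end Pool.Agent.H80.LV

end

section

/-!
# LV Tau4: the fourth moment of the divisor function and its square over sparse sets

(1) `∑_{k ≤ y} τ(k)^4 / k ≤ (1 + log y)^16`: proved in `Pool/Agent/H70/EHC/Tau.lean` as the private theorems `tau_S_succ`,
`tau_S_pow` (copy them: `τ(mn) ≤ τ(m) τ(n)` and `∑_{m ≤ n} τ(m)^{k+1}/m ≤ (∑_{m ≤ n} τ(m)^k/m)^2`).  So
`∑_{k ≤ y} τ(k)^4 ≤ y ∑ τ(k)^4/k ≤ y (1 + log y)^16`.
(2) Cauchy-Schwarz over `S ⊆ [1,y]`: `(∑_S τ^2)^2 ≤ |S| ∑_S τ^4`.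
-/

set_option autoImplicit false

namespace Pool.Agent.H80.LV

open Finset

open scoped Pointwise in
private theorem tau_mul_le (d e : ℕ) :
    (d * e).divisors.card ≤ d.divisors.card * e.divisors.card := by
  rw [Nat.divisors_mul]
  exact card_mul_le

private noncomputable def tau_S (k n : ℕ) : ℝ := ∑ m ∈ Icc 1 n, (m.divisors.card : ℝ) ^ k / m

private theorem tau_S_nonneg (k n : ℕ) : 0 ≤ tau_S k n :=
  sum_nonneg fun _ _ => by positivity

private theorem tau_S_succ (k n : ℕ) : tau_S (k + 1) n ≤ tau_S k n ^ 2 := by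
  obtain ⟨f, hf⟩ : ∃ f : ℕ × ℕ → ℝ, f = fun p => ((p.1.divisors.card : ℝ) ^ k / p.1) *
      ((p.2.divisors.card : ℝ) ^ k / p.2) := ⟨_, rfl⟩
  have hf0 : ∀ p, 0 ≤ f p := fun p => by rw [hf]; positivity
  have h1 : tau_S k n ^ 2 = ∑ p ∈ Icc 1 n ×ˢ Icc 1 n, f p := by
    unfold tau_S
    rw [sq, sum_mul_sum, sum_product, hf]
  have h2 : ∀ m ∈ Icc 1 n, (m.divisors.card : ℝ) ^ (k + 1) / m ≤
      ∑ p ∈ ((Icc 1 n ×ˢ Icc 1 n).filter (fun p => p.1 * p.2 ∈ Icc 1 n)).filter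
        (fun p => p.1 * p.2 = m), f p := by
    intro m hm
    have hm' := mem_Icc.1 hm
    have e1 : ((Icc 1 n ×ˢ Icc 1 n).filter (fun p => p.1 * p.2 ∈ Icc 1 n)).filter
        (fun p => p.1 * p.2 = m) = m.divisorsAntidiagonal := by
      ext p
      rw [mem_filter, mem_filter, mem_product, mem_Icc, mem_Icc, Nat.mem_divisorsAntidiagonal]
      constructor
      · rintro ⟨_, h⟩
        exact ⟨h, by omega⟩
      · rintro ⟨h, _⟩
        have hp1 : 1 ≤ p.1 := Nat.one_le_iff_ne_zero.2 (by rintro h0; rw [h0, zero_mul] at h; omega)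
        have hp2 : 1 ≤ p.2 := Nat.one_le_iff_ne_zero.2 (by rintro h0; rw [h0, mul_zero] at h; omega)
        have h3 : p.1 ≤ m := h ▸ Nat.le_mul_of_pos_right _ hp2
        have h4 : p.2 ≤ m := h ▸ Nat.le_mul_of_pos_left _ hp1
        exact ⟨⟨⟨⟨hp1, by omega⟩, ⟨hp2, by omega⟩⟩, h ▸ hm⟩, h⟩
    rw [e1]
    have e2 : (m.divisors.card : ℝ) = ∑ _p ∈ m.divisorsAntidiagonal, (1:ℝ) := by
      rw [Nat.sum_divisorsAntidiagonal (fun _ _ => (1:ℝ))]
      simp
    have e3 : (m.divisors.card : ℝ) ^ (k + 1) / m =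
        ∑ _p ∈ m.divisorsAntidiagonal, (m.divisors.card : ℝ) ^ k / m := by
      rw [← mul_one ((m.divisors.card : ℝ) ^ k / m), ← mul_sum, ← e2, pow_succ]
      ring
    rw [e3]
    refine sum_le_sum fun p hp => ?_
    rw [Nat.mem_divisorsAntidiagonal] at hp
    rw [hf]
    have h5 := tau_mul_le p.1 p.2
    rw [hp.1] at h5
    have h6 : (m.divisors.card : ℝ) ≤ (p.1.divisors.card : ℝ) * (p.2.divisors.card : ℝ) := by
      exact_mod_cast h5
    have h7 : (m : ℝ) = (p.1 : ℝ) * p.2 := by rw [← hp.1]; push_cast; rfl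
    show (m.divisors.card : ℝ) ^ k / m ≤ ((p.1.divisors.card : ℝ) ^ k / p.1) *
      ((p.2.divisors.card : ℝ) ^ k / p.2)
    rw [div_mul_div_comm, ← mul_pow, ← h7]
    exact div_le_div_of_nonneg_right (pow_le_pow_left₀ (by positivity) h6 k) (by positivity)
  rw [h1]
  unfold tau_S
  calc ∑ m ∈ Icc 1 n, (m.divisors.card : ℝ) ^ (k + 1) / m
      ≤ ∑ m ∈ Icc 1 n, ∑ p ∈ ((Icc 1 n ×ˢ Icc 1 n).filter (fun p => p.1 * p.2 ∈ Icc 1 n)).filter
        (fun p => p.1 * p.2 = m), f p := sum_le_sum h2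
    _ = ∑ p ∈ (Icc 1 n ×ˢ Icc 1 n).filter (fun p => p.1 * p.2 ∈ Icc 1 n), f p :=
        sum_fiberwise_of_maps_to (fun p hp => (mem_filter.1 hp).2) f
    _ ≤ ∑ p ∈ Icc 1 n ×ˢ Icc 1 n, f p :=
        sum_le_sum_of_subset_of_nonneg (filter_subset _ _) (fun p _ _ => hf0 p)

private theorem tau_S_zero (n : ℕ) : tau_S 0 n ≤ 1 + Real.log n := by
  have h := harmonic_le_one_add_log n
  refine le_trans (le_of_eq ?_) h
  unfold tau_S
  rw [harmonic_eq_sum_Icc]
  push_cast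
  refine sum_congr rfl fun m _ => ?_
  rw [pow_zero, one_div]

private theorem tau_S_pow (n k : ℕ) : tau_S k n ≤ (1 + Real.log n) ^ (2 ^ k) := by
  induction k with
  | zero => simpa using tau_S_zero n
  | succ k ih =>
    refine (tau_S_succ k n).trans ?_
    rw [pow_succ 2 k, pow_mul]
    exact pow_le_pow_left₀ (tau_S_nonneg k n) ih 2

theorem tau4 (y : ℕ) : ∑ k ∈ Icc 1 y, (k.divisors.card : ℝ) ^ 4 ≤ y * (1 + Real.log y) ^ 16 := by
  have h := tau_S_pow y 4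
  have h1 : ∑ k ∈ Icc 1 y, (k.divisors.card : ℝ) ^ 4 ≤ y * tau_S 4 y := by
    unfold tau_S
    rw [mul_sum]
    refine sum_le_sum fun m hm => ?_
    have hm' := mem_Icc.1 hm
    have hm0 : (0:ℝ) < m := by exact_mod_cast hm'.1
    have hmy : (m:ℝ) ≤ y := by exact_mod_cast hm'.2
    rw [← mul_div_assoc, le_div_iff₀ hm0, mul_comm]
    exact mul_le_mul_of_nonneg_right hmy (by positivity)
  refine h1.trans (mul_le_mul_of_nonneg_left (h.trans (le_of_eq ?_)) (by positivity))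
  norm_num

theorem tau2_sparse (y : ℕ) (S : Finset ℕ) (hS : S ⊆ Icc 1 y) :
    (∑ k ∈ S, (k.divisors.card : ℝ) ^ 2) ^ 2 ≤ S.card * (y * (1 + Real.log y) ^ 16) := by
  have h1 : (∑ k ∈ S, (k.divisors.card : ℝ) ^ 2) ^ 2 ≤
      S.card * ∑ k ∈ S, ((k.divisors.card : ℝ) ^ 2) ^ 2 := sq_sum_le_card_mul_sum_sq
  refine h1.trans (mul_le_mul_of_nonneg_left ?_ (by positivity))
  refine le_trans ?_ (tau4 y)
  calc ∑ k ∈ S, ((k.divisors.card : ℝ) ^ 2) ^ 2 ≤ ∑ k ∈ Icc 1 y, ((k.divisors.card : ℝ) ^ 2) ^ 2 :=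
        sum_le_sum_of_subset_of_nonneg hS (fun k _ _ => by positivity)
    _ = ∑ k ∈ Icc 1 y, (k.divisors.card : ℝ) ^ 4 := sum_congr rfl fun k _ => by ring

end Pool.Agent.H80.LV

end

section

/-!
# W KSap: sums of `(n + β)^{it}` twisted by a periodic function

Proof.  Let `δ1, C` be the constants of `ks1 (kap / 2)`.  Split the sum over `n ∈ (a, b]` into the classes
`n = l + d n'`, `0 ≤ l < d`; `ψ(n) = ψ(l)` (periodicity), `log(n + β) = log d + log(n' + (l+β)/d)` for `n ≥ 1`,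
so the class contributes at most `|∑_{a' < n' ≤ b'} ee(t log(n' + (l+β)/d))|` with `(l+β)/d ∈ [0,1]`,
`b' ≤ K/d`.  (For `n' = 0`, `l > 0` treat the term `n = l` separately: one term of size `≤ 1`, or let the interval
in `ks1` start at `a' + 1` and add the term.)  Apply `ks1` with `K' = K / d + 1` (natural division), `K' ≥ x^{kap/2}`
as `d^4 ≤ K`.  The sum over `l` is `≤ d (2 + C K' (1/|t| + x^{-δ1})) ≤ 4 C K (1/|t| + x^{-δ})` with
`δ = min δ1 (kap/4)`-like (`d ≤ K^{1/4}`, so `d ≤ K · K^{-3/4}`).  For large `x`: `4 C ≤ log x`.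
-/

set_option autoImplicit false

namespace Pool.Agent.H35.W

open Finset
open Pool.Agent.H91.PK (ee)

private lemma ksap_ee_norm (r : ℝ) : ‖ee r‖ = 1 := by
  have : (2 * Real.pi * r * Complex.I : ℂ) = ((2 * Real.pi * r : ℝ) : ℂ) * Complex.I := by
    push_cast; ring
  rw [ee, this, Complex.norm_exp_ofReal_mul_I]

private lemma ksap_ee_add (r s : ℝ) : ee (r + s) = ee r * ee s := by
  rw [ee, ee, ee, ← Complex.exp_add]
  congr 1
  push_cast
  ring

private lemma ksap_per (ψ : ℕ → ℂ) (d : ℕ) (h : ∀ n, ψ (n + d) = ψ n) (l k : ℕ) :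
    ψ (l + d * k) = ψ l := by
  induction k with
  | zero => simp
  | succ k ih => rw [mul_add, mul_one, ← add_assoc, h, ih]

/-- one residue class -/
private lemma ksap_class (f : ℕ → ℂ) (hf : ∀ n, ‖f n‖ ≤ 1) (B : ℝ) (K' a b d l : ℕ) (hd : 1 ≤ d)
    (hb : b / d ≤ K') (hB : ∀ a' b' : ℕ, b' ≤ K' → ‖∑ n ∈ Ioc a' b', f n‖ ≤ B) :
    ‖∑ k ∈ (range (b + 1)).filter (fun k => a < l + d * k ∧ l + d * k ≤ b), f k‖ ≤ 1 + B := by
  set T := (range (b + 1)).filter (fun k => a < l + d * k ∧ l + d * k ≤ b) with hT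
  have e : T.erase 0 = Ioc ((a - l) / d) ((b - l) / d) := by
    ext k
    simp only [hT, mem_erase, mem_filter, mem_range, mem_Ioc]
    rw [Nat.div_lt_iff_lt_mul (by omega), Nat.le_div_iff_mul_le (by omega)]
    constructor
    · rintro ⟨h0, h1, h2, h3⟩
      rw [mul_comm d k] at h2 h3
      have : 1 ≤ k * d := Nat.mul_pos (by omega) (by omega)
      omega
    · rintro ⟨h1, h2⟩
      have hk : k ≠ 0 := by rintro rfl; simp at h1
      have h3 : k ≤ k * d := Nat.le_mul_of_pos_right k (by omega)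
      have : 1 ≤ k * d := Nat.mul_pos (by omega) (by omega)
      rw [mul_comm d k]
      omega
  have h1 : ‖∑ k ∈ T.erase 0, f k‖ ≤ B := by
    rw [e]
    exact hB _ _ ((Nat.div_le_div_right (Nat.sub_le _ _)).trans hb)
  by_cases h0 : 0 ∈ T
  · rw [← add_sum_erase _ _ h0]
    exact (norm_add_le _ _).trans (add_le_add (hf 0) h1)
  · rw [erase_eq_of_notMem h0] at h1
    linarith only [h1]

private lemma ksap_real (K d : ℕ) (y : ℝ) (hy : 4 ≤ y) (hK : y ^ 2 ≤ K) (hd : 1 ≤ d)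
    (hdK : d ^ 4 ≤ K) : y ≤ ((K / d : ℕ) : ℝ) := by
  by_contra hlt
  push Not at hlt
  have hd0 : (1 : ℝ) ≤ d := by exact_mod_cast hd
  have h1 : (K : ℝ) < d * (y + 1) := by
    have h2 : K < d * (K / d + 1) := Nat.lt_mul_div_succ K (by omega)
    have h3 : (K : ℝ) < (d : ℝ) * (((K / d : ℕ) : ℝ) + 1) := by exact_mod_cast h2
    refine h3.trans_le ?_
    gcongr
  have hKp : (16 : ℝ) ≤ K := by nlinarith only [hy, hK]
  have h4 : ((d : ℝ)) ^ 4 ≤ K := by exact_mod_cast hdK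
  have h5 : (K : ℝ) ^ 4 < (d * (y + 1)) ^ 4 := pow_lt_pow_left₀ h1 (by linarith only [hKp]) (by norm_num)
  have h6 : ((d : ℝ) * (y + 1)) ^ 4 ≤ K * (y + 1) ^ 4 := by
    rw [mul_pow]; gcongr
  have h7 : (y + 1) ^ 4 ≤ (2 * y) ^ 4 := pow_le_pow_left₀ (by linarith only [hy]) (by linarith only [hy]) 4
  have h8 : (2 * y) ^ 4 ≤ 16 * (K : ℝ) ^ 2 := by
    have : y ^ 4 ≤ (K : ℝ) ^ 2 := by
      calc y ^ 4 = (y ^ 2) ^ 2 := by ring
        _ ≤ (K : ℝ) ^ 2 := pow_le_pow_left₀ (by positivity) hK 2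
    calc (2 * y) ^ 4 = 16 * y ^ 4 := by ring
      _ ≤ 16 * (K : ℝ) ^ 2 := by linarith only [this]
  have h9 : (K : ℝ) ^ 4 < K * (16 * (K : ℝ) ^ 2) :=
    h5.trans_le (h6.trans (mul_le_mul_of_nonneg_left (h7.trans h8) (by linarith only [hKp])))
  have h10 : (K : ℝ) * (16 * (K : ℝ) ^ 2) ≤ (K : ℝ) ^ 4 := by
    have : (K : ℝ) ^ 4 = K * (K * (K : ℝ) ^ 2) := by ring
    rw [this]
    gcongr
  linarith only [h9, h10]

theorem ksap (kap : ℝ) (hkap : 0 < kap) : ∃ δ : ℝ, 0 < δ ∧ δ ≤ 1 ∧ ∃ x0 : ℕ,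
    ∀ x : ℕ, x0 ≤ x → ∀ (K d a b : ℕ) (ψ : ℕ → ℂ) (β t : ℝ), (x : ℝ) ^ kap ≤ K → K ≤ x → 1 ≤ d →
      d ^ 4 ≤ K → (∀ n, ψ (n + d) = ψ n) → (∀ n, ‖ψ n‖ ≤ 1) → b ≤ K → 0 ≤ β → β ≤ 1 →
      1 ≤ |t| → |t| ≤ (x : ℝ) ^ (3 : ℕ) →
      ‖∑ n ∈ Ioc a b, ψ n * ee (t * Real.log (n + β))‖
        ≤ K * Real.log x * (1 / |t| + (x : ℝ) ^ (-δ)) := by
  obtain ⟨δ1, C, hδ1, hδ1', hC, x1, hx1⟩ := ks1 (kap / 2) (by linarith only [hkap])
  have ev1 : ∀ᶠ x : ℕ in Filter.atTop, (4 : ℝ) ≤ (x : ℝ) ^ (kap / 2) :=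
    ((tendsto_rpow_atTop (by linarith only [hkap] : 0 < kap / 2)).comp
      tendsto_natCast_atTop_atTop).eventually_ge_atTop 4
  have ev2 : ∀ᶠ x : ℕ in Filter.atTop, C + 1 ≤ Real.log x :=
    (Real.tendsto_log_atTop.comp tendsto_natCast_atTop_atTop).eventually_ge_atTop (C + 1)
  obtain ⟨x2, hx2⟩ := Filter.eventually_atTop.1 ev1
  obtain ⟨x3, hx3⟩ := Filter.eventually_atTop.1 ev2
  refine ⟨min δ1 (kap / 2), lt_min hδ1 (by linarith), (min_le_left _ _).trans hδ1',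
    max (max x1 x2) (max x3 1), ?_⟩
  intro x hx K d a b ψ β t hK hKx hd hdK hper hψ hb hβ0 hβ1 ht1 ht2
  have hxa : x1 ≤ x := (le_max_left _ _).trans ((le_max_left _ _).trans hx)
  have hxb : x2 ≤ x := (le_max_right _ _).trans ((le_max_left _ _).trans hx)
  have hxc : x3 ≤ x := (le_max_left _ _).trans ((le_max_right _ _).trans hx)
  have hxd : 1 ≤ x := (le_max_right _ _).trans ((le_max_right _ _).trans hx)
  have hxr : (1 : ℝ) ≤ x := by exact_mod_cast hxd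
  have hdr : (1 : ℝ) ≤ d := by exact_mod_cast hd
  have hd0 : (d : ℝ) ≠ 0 := by positivity
  have hlog := hx3 x hxc
  have hy := hx2 x hxb
  set y : ℝ := (x : ℝ) ^ (kap / 2) with hydef
  have hyK : y ^ 2 ≤ K := by
    refine le_trans (le_of_eq ?_) hK
    rw [hydef, ← Real.rpow_natCast, ← Real.rpow_mul (by linarith only [hxr])]
    congr 1
    push_cast
    ring
  have hK' : y ≤ ((K / d : ℕ) : ℝ) := ksap_real K d y hy hyK hd hdK
  have hdKK : (d : ℝ) * ((K / d : ℕ) : ℝ) ≤ K := by exact_mod_cast Nat.mul_div_le K d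
  have hK'x : K / d ≤ x := (Nat.div_le_self K d).trans hKx
  set B : ℝ := C * ((K / d : ℕ) : ℝ) * (1 / |t| + (x : ℝ) ^ (-δ1)) with hBdef
  -- the sum over a class
  have hcl : ∀ l ∈ range d, ‖∑ n ∈ (Ioc a b).filter (fun n => n % d = l),
      ψ n * ee (t * Real.log (n + β))‖ ≤ 1 + B := by
    intro l hl
    have hl1 := mem_range.1 hl
    have e1 : (Ioc a b).filter (fun n => n % d = l)
        = ((range (b + 1)).filter (fun k => a < l + d * k ∧ l + d * k ≤ b)).image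
          (fun k => l + d * k) := by
      ext n
      simp only [mem_filter, mem_Ioc, mem_image, mem_range]
      constructor
      · rintro ⟨⟨h1, h2⟩, h3⟩
        have h4 : n % d + d * (n / d) = n := Nat.mod_add_div n d
        have h5 : n / d ≤ n := Nat.div_le_self n d
        refine ⟨n / d, ⟨by omega, ?_, ?_⟩, ?_⟩ <;> rw [← h3, h4] <;> assumption
      · rintro ⟨k, ⟨h1, h2, h3⟩, rfl⟩
        exact ⟨⟨h2, h3⟩, by rw [Nat.add_mul_mod_self_left, Nat.mod_eq_of_lt hl1]⟩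
    have hinj : Set.InjOn (fun k => l + d * k)
        ((range (b + 1)).filter (fun k => a < l + d * k ∧ l + d * k ≤ b) : Finset ℕ) := by
      intro u _ v _ huv
      have : d * u = d * v := by simpa using huv
      exact Nat.eq_of_mul_eq_mul_left (by omega) this
    rw [e1, sum_image hinj]
    have hβl0 : 0 ≤ ((l : ℝ) + β) / d := by positivity
    have hβl1 : ((l : ℝ) + β) / d ≤ 1 := by
      rw [div_le_one (by linarith only [hdr])]
      have : ((l + 1 : ℕ) : ℝ) ≤ d := by exact_mod_cast hl1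
      push_cast at this
      linarith only [hβ1, this]
    have e2 : ∑ k ∈ (range (b + 1)).filter (fun k => a < l + d * k ∧ l + d * k ≤ b),
        ψ (l + d * k) * ee (t * Real.log (((l + d * k : ℕ) : ℝ) + β))
        = (ψ l * ee (t * Real.log d)) *
          ∑ k ∈ (range (b + 1)).filter (fun k => a < l + d * k ∧ l + d * k ≤ b),
            ee (t * Real.log ((k : ℝ) + ((l : ℝ) + β) / d)) := by
      rw [mul_sum]
      apply sum_congr rfl
      intro k hk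
      have hk1 := (mem_filter.1 hk).2.1
      have hpos : (0 : ℝ) < l + d * k := by
        have : 0 < l + d * k := by omega
        exact_mod_cast this
      have h1 : (((l + d * k : ℕ) : ℝ) + β) = d * ((k : ℝ) + ((l : ℝ) + β) / d) := by
        push_cast
        field_simp
        ring
      have h2 : 0 < (k : ℝ) + ((l : ℝ) + β) / d := by
        have h3 : (k : ℝ) + ((l : ℝ) + β) / d = (l + d * k + β) / d := by
          field_simp
          ring
        rw [h3]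
        apply div_pos _ (by linarith only [hdr])
        linarith only [hβ0, hpos]
      rw [ksap_per ψ d hper, h1, Real.log_mul hd0 h2.ne', mul_add, ksap_ee_add]
      ring
    rw [e2, norm_mul, norm_mul, ksap_ee_norm, mul_one]
    have h3 := ksap_class (fun k => ee (t * Real.log ((k : ℝ) + ((l : ℝ) + β) / d)))
      (fun n => (ksap_ee_norm _).le) B (K / d) a b d l hd (Nat.div_le_div_right hb)
      (fun a' b' hb' => hx1 x hxa (K / d) a' b' (((l : ℝ) + β) / d) t hK' hK'x hb' hβl0 hβl1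
        ht1 ht2)
    calc ‖ψ l‖ * _ ≤ 1 * (1 + B) := mul_le_mul (hψ l) h3 (norm_nonneg _) zero_le_one
      _ = 1 + B := one_mul _
  have e3 : ∑ n ∈ Ioc a b, ψ n * ee (t * Real.log (n + β))
      = ∑ l ∈ range d, ∑ n ∈ (Ioc a b).filter (fun n => n % d = l),
        ψ n * ee (t * Real.log (n + β)) := by
    rw [sum_fiberwise_of_maps_to]
    intro n _
    exact mem_range.2 (Nat.mod_lt n (by omega))
  rw [e3]
  refine (norm_sum_le _ _).trans ((sum_le_sum hcl).trans ?_)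
  rw [sum_const, card_range, nsmul_eq_mul]
  have htp : 0 < |t| := by linarith only [ht1]
  have hmin1 : (x : ℝ) ^ (-δ1) ≤ (x : ℝ) ^ (-(min δ1 (kap / 2))) :=
    Real.rpow_le_rpow_of_exponent_le hxr (neg_le_neg (min_le_left _ _))
  have hmin2 : (x : ℝ) ^ (-(kap / 2)) ≤ (x : ℝ) ^ (-(min δ1 (kap / 2))) :=
    Real.rpow_le_rpow_of_exponent_le hxr (neg_le_neg (min_le_right _ _))
  set Z : ℝ := (x : ℝ) ^ (-(min δ1 (kap / 2))) with hZ
  have hZ0 : 0 ≤ Z := by positivity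
  have hdZ : (d : ℝ) ≤ K * Z := by
    have h1 : (d : ℝ) * y ≤ K := (mul_le_mul_of_nonneg_left hK' (by linarith only [hdr])).trans hdKK
    have h2 : (x : ℝ) ^ (-(kap / 2)) * y = 1 := by
      rw [hydef, ← Real.rpow_add (by linarith only [hxr])]; simp
    calc (d : ℝ) = (d * y) * (x : ℝ) ^ (-(kap / 2)) := by
          rw [mul_assoc, mul_comm y, h2, mul_one]
      _ ≤ K * Z := by
          apply mul_le_mul h1 hmin2 (by positivity) (Nat.cast_nonneg _)
  have hB2 : (d : ℝ) * B ≤ C * K * (1 / |t| + Z) := by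
    calc (d : ℝ) * B = C * (d * ((K / d : ℕ) : ℝ)) * (1 / |t| + (x : ℝ) ^ (-δ1)) := by
          rw [hBdef]; ring
      _ ≤ C * K * (1 / |t| + Z) := by
          gcongr
  have hKn : (0 : ℝ) ≤ K := Nat.cast_nonneg _
  have htn : 0 ≤ 1 / |t| := by positivity
  calc (d : ℝ) * (1 + B) = d + d * B := by ring
    _ ≤ K * Z + C * K * (1 / |t| + Z) := add_le_add hdZ hB2
    _ ≤ (C + 1) * (K * (1 / |t| + Z)) := by nlinarith only [hKn, htn, mul_nonneg hKn htn]
    _ ≤ Real.log x * (K * (1 / |t| + Z)) := by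
        apply mul_le_mul_of_nonneg_right hlog (by positivity)
    _ = K * Real.log x * (1 / |t| + Z) := by ring

end Pool.Agent.H35.W

end

section

/-!
# LV TyI: type I sums, pointwise

Proof.  (1) `gE (c/d) t (a b) = ee(a b c/d) ee(t log a) ee(t log b)` (`gE_mul`); `ψ(b) = ee(a b c/d)` has period `d` and norm 1;
`ksap (1/8)` with `β = 0`, `K = K`, interval `Ioc 0 j`, `j ≤ K`, gives for EVERY `j ≤ K`:
`|W(j)| ≤ K L (1/|t| + x^{-δ})`, `W(j) = ∑_{b ≤ j} gE (c/d) t (a b)` (`d^4 ≤ L^{4A} ≤ x^{1/8} ≤ K`, `x^2 ≤ x^3`).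
(2) Abel summation: `∑_{b ≤ K} log b w_b = W(K) log K - ∑_{j < K} W(j) (log(j+1) - log j)`, so it is at most
`2 log K max |W(j)| ≤ 2 K L^2 (1/|t| + x^{-δ})`.  `δ` is the one of `ksap (1/8)`, independent of `A`.  (Compare `GB/TypeI.lean`, `typeI_abel`, `ty1log`.)
-/

set_option autoImplicit false

namespace Pool.Agent.H80.LV

open Finset
open Pool.Agent.H91.PK (ee)

private theorem TyI_ee_int (k : ℤ) : ee (k : ℝ) = 1 := by
  unfold ee
  have h := Complex.exp_int_mul_two_pi_mul_I k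
  rw [← h]
  congr 1
  push_cast
  ring

/-- Abel summation with logarithms. -/
private theorem TyI_abel (w : ℕ → ℂ) (X : ℕ) :
    ∑ b ∈ Icc 1 X, ((Real.log b : ℝ) : ℂ) * w b =
      ∑ i ∈ Ico 1 X, ((Real.log (i + 1 : ℕ) - Real.log i : ℝ) : ℂ) * ∑ b ∈ Ioc i X, w b := by
  induction X with
  | zero => simp
  | succ X ih =>
    rcases Nat.eq_zero_or_pos X with rfl | hX
    · simp
    rw [Finset.sum_Icc_succ_top (by omega), ih, Finset.sum_Ico_succ_top hX]
    have h1 : ∀ i ∈ Ico 1 X, ((Real.log (i + 1 : ℕ) - Real.log i : ℝ) : ℂ) *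
        ∑ b ∈ Ioc i (X + 1), w b =
        ((Real.log (i + 1 : ℕ) - Real.log i : ℝ) : ℂ) * ∑ b ∈ Ioc i X, w b +
          ((Real.log (i + 1 : ℕ) - Real.log i : ℝ) : ℂ) * w (X + 1) := by
      intro i hi
      rw [mem_Ico] at hi
      rw [← mul_add]
      congr 1
      rw [Finset.sum_Ioc_succ_top (by omega)]
    rw [Finset.sum_congr rfl h1, Finset.sum_add_distrib, ← Finset.sum_mul]
    have h2 : ∑ i ∈ Ico 1 X, ((Real.log (i + 1 : ℕ) - Real.log i : ℝ) : ℂ) =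
        ((Real.log X : ℝ) : ℂ) := by
      rw [← Complex.ofReal_sum]
      congr 1
      have h3 := Finset.sum_Ico_sub (fun i : ℕ => Real.log i) (show 1 ≤ X from hX)
      rw [h3]
      simp
    rw [h2, Nat.Ioc_succ_singleton, Finset.sum_singleton]
    push_cast
    ring

theorem tyI : ∃ δ : ℝ, 0 < δ ∧ δ ≤ 1 ∧ ∀ A : ℕ, ∃ x0 : ℕ, ∀ x : ℕ, x0 ≤ x →
    ∀ (a K d : ℕ) (c : ℤ) (t : ℝ), 1 ≤ a → 1 ≤ d → (d : ℝ) ≤ Real.log x ^ A →
      (x : ℝ) ^ (1 / 8 : ℝ) ≤ K → K ≤ x → 1 ≤ |t| → |t| ≤ (x : ℝ) ^ (2 : ℕ) →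
      ‖∑ b ∈ Icc 1 K, gE ((c : ℝ) / d) t (a * b)‖
        ≤ K * Real.log x * (1 / |t| + (x : ℝ) ^ (-δ)) ∧
      ‖∑ b ∈ Icc 1 K, ((Real.log b : ℝ) : ℂ) * gE ((c : ℝ) / d) t (a * b)‖
        ≤ 2 * K * Real.log x ^ 2 * (1 / |t| + (x : ℝ) ^ (-δ)) := by
  obtain ⟨δ, hδ0, hδ1, x1, hx1⟩ := Pool.Agent.H35.W.ksap (1 / 8) (by norm_num)
  refine ⟨δ, hδ0, hδ1, fun A => ?_⟩
  obtain ⟨x2, hx2⟩ := log_pow_le (1 / 8) 1 (by norm_num) (by norm_num) (4 * A)
  refine ⟨max (max x1 x2) 1, ?_⟩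
  intro x hx a K d c t ha hd hdA hKbig hKx ht1 ht2
  have hxa : x1 ≤ x := (le_max_left _ _).trans ((le_max_left _ _).trans hx)
  have hxb : x2 ≤ x := (le_max_right _ _).trans ((le_max_left _ _).trans hx)
  have hxd : 1 ≤ x := (le_max_right _ _).trans hx
  have hxr : (1 : ℝ) ≤ x := by exact_mod_cast hxd
  have har : (1 : ℝ) ≤ a := by exact_mod_cast ha
  have hdr : (1 : ℝ) ≤ d := by exact_mod_cast hd
  have hlog : 0 ≤ Real.log x := Real.log_nonneg hxr
  have htp : 0 < |t| := by linarith only [ht1]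
  have hpow0 : (0 : ℝ) ≤ (x : ℝ) ^ (-δ) := Real.rpow_nonneg (by linarith only [hxr]) _
  have hKr : (1 : ℝ) ≤ K := (Real.one_le_rpow hxr (by norm_num)).trans hKbig
  have hK1 : 1 ≤ K := by exact_mod_cast hKr
  have hdK : d ^ 4 ≤ K := by
    have h1 : (d : ℝ) ^ 4 ≤ (Real.log x ^ A) ^ 4 := pow_le_pow_left₀ (by linarith only [hdr]) hdA 4
    have h2 := hx2 x hxb
    have h3 : (Real.log x ^ A) ^ 4 = 1 * Real.log x ^ (4 * A) := by
      rw [one_mul, ← pow_mul, mul_comm]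
    have h4 : ((d ^ 4 : ℕ) : ℝ) ≤ K := by
      push_cast
      exact h1.trans ((h3.le.trans h2).trans hKbig)
    exact_mod_cast h4
  -- all intervals
  have key : ∀ i : ℕ, ‖∑ b ∈ Ioc i K, gE ((c : ℝ) / d) t (a * b)‖
      ≤ K * Real.log x * (1 / |t| + (x : ℝ) ^ (-δ)) := by
    intro i
    have hterm : ∀ b ∈ Ioc i K, gE ((c : ℝ) / d) t (a * b) =
        ee (t * Real.log a) * (ee ((a : ℝ) * b * ((c : ℝ) / d)) *
          ee (t * Real.log ((b : ℝ) + 0))) := by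
      intro b hb
      rw [mem_Ioc] at hb
      rw [gE_mul _ _ a b ha (by omega), add_zero]
      ring
    rw [Finset.sum_congr rfl hterm, ← Finset.mul_sum, norm_mul, Pool.Agent.H91.PK.LSa_norm_ee,
      one_mul]
    refine hx1 x hxa K d i K (fun j => ee ((a : ℝ) * j * ((c : ℝ) / d))) 0 t hKbig hKx hd hdK
      ?_ (fun n => (Pool.Agent.H91.PK.LSa_norm_ee _).le) le_rfl le_rfl zero_le_one ht1 ?_
    · intro n
      have hd0 : (d : ℝ) ≠ 0 := by positivity
      have h1 : (a : ℝ) * ((n + d : ℕ) : ℝ) * ((c : ℝ) / d) =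
          (a : ℝ) * n * ((c : ℝ) / d) + (((a : ℤ) * c : ℤ) : ℝ) := by
        push_cast
        field_simp
      rw [h1, Pool.Agent.H91.PK.LSa_ee_add, TyI_ee_int, mul_one]
    · refine ht2.trans ?_
      exact pow_le_pow_right₀ hxr (by norm_num)
  have hB0 : 0 ≤ K * Real.log x * (1 / |t| + (x : ℝ) ^ (-δ)) := by positivity
  constructor
  · have h1 : Icc 1 K = Ioc 0 K := by
      ext b
      simp only [mem_Icc, mem_Ioc]
      omega
    rw [h1]
    exact key 0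
  · rw [TyI_abel]
    refine (norm_sum_le _ _).trans ?_
    have h1 : ∀ i ∈ Ico 1 K, ‖((Real.log (i + 1 : ℕ) - Real.log i : ℝ) : ℂ) *
        ∑ b ∈ Ioc i K, gE ((c : ℝ) / d) t (a * b)‖ ≤
        (Real.log (i + 1 : ℕ) - Real.log i) * (K * Real.log x * (1 / |t| + (x : ℝ) ^ (-δ))) := by
      intro i hi
      rw [mem_Ico] at hi
      have h2 : 0 ≤ Real.log (i + 1 : ℕ) - Real.log i := by
        have h3 : Real.log i ≤ Real.log (i + 1 : ℕ) := by
          apply Real.log_le_log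
          · exact_mod_cast hi.1
          · push_cast
            linarith only
        linarith only [h3]
      rw [norm_mul, Complex.norm_real, Real.norm_eq_abs, abs_of_nonneg h2]
      exact mul_le_mul_of_nonneg_left (key i) h2
    refine (Finset.sum_le_sum h1).trans ?_
    rw [← Finset.sum_mul, Finset.sum_Ico_sub (fun i : ℕ => Real.log i) hK1]
    have h2 : Real.log (K : ℝ) - Real.log ((1 : ℕ) : ℝ) ≤ Real.log x := by
      rw [Nat.cast_one, Real.log_one, sub_zero]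
      apply Real.log_le_log
      · linarith only [hKr]
      · exact_mod_cast hKx
    have h3 : Real.log x * (K * Real.log x * (1 / |t| + (x : ℝ) ^ (-δ))) =
        K * Real.log x ^ 2 * (1 / |t| + (x : ℝ) ^ (-δ)) := by ring
    have h4 : 0 ≤ K * Real.log x ^ 2 * (1 / |t| + (x : ℝ) ^ (-δ)) := by positivity
    calc _ ≤ Real.log x * (K * Real.log x * (1 / |t| + (x : ℝ) ^ (-δ))) :=
          mul_le_mul_of_nonneg_right h2 hB0
      _ ≤ 2 * K * Real.log x ^ 2 * (1 / |t| + (x : ℝ) ^ (-δ)) := by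
          rw [h3]
          linarith only [h4]

end Pool.Agent.H80.LV

end

section

/-!
# LV ErrB: the boundary terms of the type II sum

Proof.  `gE α t k = ee(k α) ee(t log k)`; apply `hm (1/2)` with `K = y`, `a_k = e_k ee(k α)` (`η` is the one of `hm (1/2)`):
`∫_B ≤ y L^2 ∑_{k ≤ y} e_k^2`.  `|e_k| ≤ ∑_{m ∣ k} Λ(m) |cV U (k/m)| ≤ τ(k) ∑_{m ∣ k} Λ(m) = τ(k) log k ≤ τ(k) L`
(`|cV U n| ≤ τ(n) ≤ τ(k)` for `n ∣ k`: `cV` is a sum of `|μ| ≤ 1` over a subset of the divisors; `ArithmeticFunction.vonMangoldt_sum`).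
With `S = Ioc (y - y/q - 1) y ∩ Icc 1 y`, `|S| ≤ y/q + 1 ≤ 2 y/q` (`q ≤ y`): `∑ e_k^2 ≤ L^2 ∑_S τ^2 ≤ L^2 (|S| y (1+L)^16)^{1/2}`
(`tau2_sparse`) `≤ L^2 · y (2/q)^{1/2} (1+L)^8`.  Total `≤ 1.5 y^2 L^4 (1+L)^8 / q^{1/2} ≤ x^2 L^{14} / q^{1/2}`.
-/

set_option autoImplicit false

namespace Pool.Agent.H80.LV

open Finset MeasureTheory
open Pool.Agent.H91.PK (ee cV)
open Pool.Agent.H91.EHA (Lam)

private theorem ErrB_cV (U n : ℕ) : |cV U n| ≤ (n.divisors.card : ℝ) := by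
  unfold cV
  refine (abs_sum_le_sum_abs _ _).trans ?_
  have h1 : ∀ d ∈ n.divisors.filter (fun d => U < d), |(ArithmeticFunction.moebius d : ℝ)| ≤ 1 := by
    intro d _
    have := ArithmeticFunction.abs_moebius_le_one (n := d)
    exact_mod_cast this
  refine (sum_le_sum h1).trans ?_
  rw [sum_const, nsmul_eq_mul, mul_one]
  exact_mod_cast card_filter_le _ _

private theorem ErrB_tau_le {n k : ℕ} (hk : k ≠ 0) (h : n ∣ k) :
    (n.divisors.card : ℝ) ≤ (k.divisors.card : ℝ) := by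
  exact_mod_cast card_le_card (Nat.divisors_subset_of_dvd hk h)

private theorem ErrB_e (U k : ℕ) (hk : k ≠ 0) :
    ∑ m ∈ k.divisors, |Lam m| * |cV U (k / m)| ≤ k.divisors.card * Real.log k := by
  have h1 : ∀ m ∈ k.divisors, |Lam m| * |cV U (k / m)| ≤ Lam m * (k.divisors.card : ℝ) := by
    intro m hm
    have h0 : 0 ≤ Lam m := ArithmeticFunction.vonMangoldt_nonneg
    rw [abs_of_nonneg h0]
    refine mul_le_mul_of_nonneg_left ?_ h0
    exact (ErrB_cV U (k / m)).trans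
      (ErrB_tau_le hk (Nat.div_dvd_of_dvd (Nat.dvd_of_mem_divisors hm)))
  refine (sum_le_sum h1).trans ?_
  rw [← sum_mul]
  have h2 : ∑ m ∈ k.divisors, Lam m = Real.log k := ArithmeticFunction.vonMangoldt_sum
  rw [h2, mul_comm]

private theorem ErrB_num {L : ℝ} (hL : 4 ≤ L) : 2 * (1 + L) ^ 8 ≤ L ^ 10 := by
  have h1 : (1 + L) ≤ 5 / 4 * L := by linarith only [hL]
  have h2 : (1 + L) ^ 8 ≤ (5 / 4 * L) ^ 8 := by
    apply pow_le_pow_left₀ (by linarith only [hL]) h1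
  have h3 : 2 * (5 / 4 : ℝ) ^ 8 ≤ L ^ 2 := by
    have : (16 : ℝ) ≤ L ^ 2 := by nlinarith only [hL]
    refine le_trans ?_ this
    norm_num
  calc 2 * (1 + L) ^ 8 ≤ 2 * (5 / 4 * L) ^ 8 := by linarith only [h2]
    _ = (2 * (5 / 4 : ℝ) ^ 8) * L ^ 8 := by ring
    _ ≤ L ^ 2 * L ^ 8 := by
        apply mul_le_mul_of_nonneg_right h3
        positivity
    _ = L ^ 10 := by ring

private theorem ErrB_sq (y q : ℕ) (L : ℝ) (hq : 1 ≤ q) (hqy : q ≤ y) (hL : Real.log y ≤ L)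
    (S : Finset ℕ) (hS : S ⊆ Icc 1 y) (hSc : S.card ≤ y / q + 1) :
    ∑ k ∈ S, (k.divisors.card : ℝ) ^ 2 ≤ 2 * y * (1 + L) ^ 8 / Real.sqrt q := by
  have hy1 : 1 ≤ y := hq.trans hqy
  have hly : 0 ≤ Real.log y := Real.log_nonneg (by exact_mod_cast hy1)
  have hL0 : 0 ≤ L := hly.trans hL
  have hq0 : (0 : ℝ) < q := by exact_mod_cast hq
  have hsq : 0 < Real.sqrt q := Real.sqrt_pos.2 hq0
  have h1 := tau2_sparse y S hS
  have h2 : (S.card : ℝ) ≤ 2 * y / q := by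
    have h3 : (S.card : ℝ) ≤ ((y / q : ℕ) : ℝ) + 1 := by exact_mod_cast hSc
    have h4 : ((y / q : ℕ) : ℝ) ≤ (y : ℝ) / q := Nat.cast_div_le
    have h5 : (1 : ℝ) ≤ (y : ℝ) / q := by
      rw [le_div_iff₀ hq0, one_mul]
      exact_mod_cast hqy
    have h6 : 2 * (y : ℝ) / q = (y : ℝ) / q + (y : ℝ) / q := by ring
    linarith only [h3, h4, h5, h6]
  have h3 : (1 + Real.log y) ^ 16 ≤ (1 + L) ^ 16 := by
    apply pow_le_pow_left₀ (by linarith only [hly])
    linarith only [hL]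
  have h4 : (∑ k ∈ S, (k.divisors.card : ℝ) ^ 2) ^ 2 ≤ (2 * y * (1 + L) ^ 8 / Real.sqrt q) ^ 2 := by
    refine h1.trans ?_
    rw [div_pow, Real.sq_sqrt hq0.le]
    calc (S.card : ℝ) * (y * (1 + Real.log y) ^ 16) ≤ (2 * y / q) * (y * (1 + L) ^ 16) := by
          apply mul_le_mul h2 _ (by positivity) (by positivity)
          apply mul_le_mul_of_nonneg_left h3 (by positivity)
      _ ≤ 2 * ((2 * y / q) * (y * (1 + L) ^ 16)) := by
          have : 0 ≤ (2 * (y : ℝ) / q) * (y * (1 + L) ^ 16) := by positivity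
          linarith only [this]
      _ = (2 * y * (1 + L) ^ 8) ^ 2 / q := by ring
  exact abs_le_of_sq_le_sq' h4 (by positivity) |>.2

theorem errb : ∃ η : ℝ, 0 < η ∧ η ≤ 1 ∧ ∃ x0 : ℕ, ∀ x : ℕ, x0 ≤ x →
    ∀ (U y q : ℕ) (e : ℕ → ℝ) (α : ℝ) (B : Set ℝ), (x : ℝ) ^ (1 / 2 : ℝ) ≤ y → y ≤ x →
      1 ≤ q → q ≤ y →
      (∀ k, |e k| ≤ ∑ m ∈ k.divisors, |Lam m| * |cV U (k / m)|) →
      (∀ k, k ∉ Ioc (y - y / q - 1) y → e k = 0) →
      MeasurableSet B → B ⊆ Set.Icc (-((x : ℝ) ^ (2 : ℕ))) ((x : ℝ) ^ (2 : ℕ)) →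
      volume.real B ≤ (x : ℝ) ^ η →
      ∫ t in B, ‖∑ k ∈ Icc 1 y, ((e k : ℝ) : ℂ) * gE α t k‖ ^ 2
        ≤ (x : ℝ) ^ 2 * Real.log x ^ 14 / Real.sqrt q := by
  obtain ⟨η, h1, h2, x0, H⟩ := hm (1 / 2) (by norm_num)
  obtain ⟨x1, hx1⟩ := log_ge 4
  refine ⟨η, h1, h2, max x0 (max x1 1), ?_⟩
  intro x hx U y q e α B hy hyx hq hqy he he0 hB hBs hv
  have hxx0 : x0 ≤ x := (le_max_left _ _).trans hx
  have hxx1 : x1 ≤ x := ((le_max_left _ _).trans (le_max_right _ _)).trans hx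
  have hL : 4 ≤ Real.log x := hx1 x hxx1
  have hy1 : 1 ≤ y := hq.trans hqy
  have hyR : (1 : ℝ) ≤ y := by exact_mod_cast hy1
  have hyxR : (y : ℝ) ≤ x := by exact_mod_cast hyx
  have hly : Real.log y ≤ Real.log x := Real.log_le_log (by linarith only [hyR]) hyxR
  have hq0 : (0 : ℝ) < q := by exact_mod_cast hq
  have hsq : 0 < Real.sqrt q := Real.sqrt_pos.2 hq0
  have key := H x hxx0 y (fun k => ((e k : ℝ) : ℂ) * ee ((k : ℝ) * α)) B hy hyx hB hBs hv
  have e1 : ∀ t : ℝ, ∑ k ∈ Icc 1 y, ((e k : ℝ) : ℂ) * gE α t k =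
      ∑ n ∈ Icc 1 y, (((e n : ℝ) : ℂ) * ee ((n : ℝ) * α)) * ee (t * Real.log n) := by
    intro t
    refine sum_congr rfl fun k _ => ?_
    rw [gE, Pool.Agent.H91.PK.LSa_ee_add, mul_assoc]
  simp only [e1]
  refine key.trans ?_
  have e2 : ∀ n, ‖((e n : ℝ) : ℂ) * ee ((n : ℝ) * α)‖ ^ 2 = (e n) ^ 2 := by
    intro n
    rw [norm_mul, Pool.Agent.H91.PK.LSa_norm_ee, mul_one, Complex.norm_real, Real.norm_eq_abs,
      sq_abs]
  simp only [e2]
  have e3 : ∑ n ∈ Icc 1 y, (e n) ^ 2 ≤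
      Real.log x ^ 2 * (2 * y * (1 + Real.log x) ^ 8 / Real.sqrt q) := by
    have h3 : ∑ n ∈ Icc 1 y, (e n) ^ 2 =
        ∑ n ∈ (Icc 1 y).filter (fun k => k ∈ Ioc (y - y / q - 1) y), (e n) ^ 2 := by
      rw [sum_filter]
      refine sum_congr rfl fun n _ => ?_
      by_cases hn : n ∈ Ioc (y - y / q - 1) y
      · rw [if_pos hn]
      · rw [if_neg hn, he0 n hn]
        norm_num
    rw [h3]
    have hsub : (Icc 1 y).filter (fun k => k ∈ Ioc (y - y / q - 1) y) ⊆ Icc 1 y := filter_subset _ _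
    have hc : ((Icc 1 y).filter (fun k => k ∈ Ioc (y - y / q - 1) y)).card ≤ y / q + 1 := by
      have h5 : (Icc 1 y).filter (fun k => k ∈ Ioc (y - y / q - 1) y) ⊆ Ioc (y - y / q - 1) y := by
        intro k hk
        exact (mem_filter.1 hk).2
      refine (card_le_card h5).trans ?_
      rw [Nat.card_Ioc]
      generalize y / q = w
      omega
    have h4 := ErrB_sq y q (Real.log x) hq hqy hly _ hsub hc
    refine le_trans ?_ (mul_le_mul_of_nonneg_left h4 (by positivity))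
    rw [mul_sum]
    refine sum_le_sum fun k hk => ?_
    have hk1 := mem_Icc.1 (hsub hk)
    have hk0 : k ≠ 0 := by omega
    have h5 : |e k| ≤ k.divisors.card * Real.log x := by
      refine (he k).trans ((ErrB_e U k hk0).trans ?_)
      apply mul_le_mul_of_nonneg_left _ (by positivity)
      apply Real.log_le_log
      · exact_mod_cast hk1.1
      · exact_mod_cast hk1.2.trans hyx
    calc (e k) ^ 2 = |e k| ^ 2 := (sq_abs _).symm
      _ ≤ (k.divisors.card * Real.log x) ^ 2 := pow_le_pow_left₀ (abs_nonneg _) h5 2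
      _ = Real.log x ^ 2 * (k.divisors.card : ℝ) ^ 2 := by ring
  calc (y : ℝ) * Real.log x ^ 2 * ∑ n ∈ Icc 1 y, (e n) ^ 2
      ≤ (y : ℝ) * Real.log x ^ 2 *
        (Real.log x ^ 2 * (2 * y * (1 + Real.log x) ^ 8 / Real.sqrt q)) := by
        apply mul_le_mul_of_nonneg_left e3 (by positivity)
    _ = (y : ℝ) ^ 2 * Real.log x ^ 4 * (2 * (1 + Real.log x) ^ 8) / Real.sqrt q := by ring
    _ ≤ (x : ℝ) ^ 2 * Real.log x ^ 4 * (Real.log x ^ 10) / Real.sqrt q := by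
        apply div_le_div_of_nonneg_right _ hsq.le
        apply mul_le_mul _ (ErrB_num hL) (by positivity) (by positivity)
        apply mul_le_mul_of_nonneg_right _ (by positivity)
        exact pow_le_pow_left₀ (by linarith only [hyR]) hyxR 2
    _ = (x : ℝ) ^ 2 * Real.log x ^ 14 / Real.sqrt q := by ring

end Pool.Agent.H80.LV

end
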