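import Pool.Agent.H15.TB1.M28
import Pool.Agent.H15.TB1.M30
import Pool.Agent.H15.TB1.M45

/-! The parts of this file: H88.PSI.Hux, H88.PSI.Lvk. -/

section

/-!
# PSI Hux: Huxley's large value estimate, continuous version

`dual_ineq` (`Pool.Agent.H80.LV.dual_ineq`, `Pool/Agent/H80/LV/Dual.lean`; it has `Icc 1 K` and `ee (t log n)` as here) on
`B_I = B ∩ I`, `I` an interval of length `≤ T0`, with
`G = C L (6 L M + vol(B_I) √T0)` (`ker`; `∫_I M/(1+|t-s|) ds ≤ 2 M log(1 + T0)`): for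
`T0 = (V^2/(2 C L S))^2` (`T0 ≤ X^2` as `V^2 ≤ M S` if `B` is nonempty) this gives `V^2 vol(B_I) ≤ 6 C L^2 M S + V^2 vol(B_I)/2`, and
`[-T, T]` is covered by `≤ 2 T/T0 + 1` such `I`.
-/

set_option autoImplicit false

namespace Pool.Agent.H88.PSI

open Finset MeasureTheory
open Pool.Agent.H91.PK (ee)

private theorem Hux_log (t Y : ℝ) (hY : 0 ≤ Y) :
    ∫ s in (t - Y)..(t + Y), 1 / (1 + |t - s|) = 2 * Real.log (1 + Y) := by
  have hcont : Continuous (fun s : ℝ => 1 / (1 + |t - s|)) := by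
    refine continuous_const.div (by fun_prop) fun s => ?_
    positivity
  have h1 : ∫ s in (t - Y)..t, 1 / (1 + |t - s|) = Real.log (1 + Y) := by
    have e1 : ∫ s in (t - Y)..t, 1 / (1 + |t - s|) =
        ∫ s in (t - Y)..t, (fun u : ℝ => 1 / u) (1 + t - s) := by
      refine intervalIntegral.integral_congr fun s hs => ?_
      rw [Set.uIcc_of_le (by linarith), Set.mem_Icc] at hs
      simp only
      rw [abs_of_nonneg (by linarith)]
      congr 1
      ring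
    rw [e1, intervalIntegral.integral_comp_sub_left, integral_one_div_of_pos (by linarith)
      (by linarith)]
    congr 1
    rw [show (1 : ℝ) + t - t = 1 by ring, div_one]
    ring
  have h2 : ∫ s in t..(t + Y), 1 / (1 + |t - s|) = Real.log (1 + Y) := by
    have e1 : ∫ s in t..(t + Y), 1 / (1 + |t - s|) =
        ∫ s in t..(t + Y), (fun u : ℝ => 1 / u) (s - (t - 1)) := by
      refine intervalIntegral.integral_congr fun s hs => ?_
      rw [Set.uIcc_of_le (by linarith), Set.mem_Icc] at hs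
      simp only
      rw [abs_of_nonpos (by linarith)]
      congr 1
      ring
    rw [e1, intervalIntegral.integral_comp_sub_right, integral_one_div_of_pos (by linarith)
      (by linarith)]
    congr 1
    rw [show t - (t - 1) = 1 by ring, div_one]
    ring
  rw [← intervalIntegral.integral_add_adjacent_intervals (b := t)
    (hcont.intervalIntegrable _ _) (hcont.intervalIntegrable _ _), h1, h2]
  ring

/-- Cauchy-Schwarz -/
private theorem Hux_cs (b : ℕ → ℂ) (M : ℕ) (t : ℝ) : ‖DP b M t‖ ^ 2 ≤ M * SS b M := by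
  have h1 : ‖DP b M t‖ ≤ ∑ n ∈ Icc 1 M, ‖b n‖ := by
    unfold DP
    refine (norm_sum_le _ _).trans (le_of_eq (Finset.sum_congr rfl fun n _ => ?_))
    rw [norm_mul, Pool.Agent.H91.PK.LSa_norm_ee, mul_one]
  have h2 : (∑ n ∈ Icc 1 M, ‖b n‖) ^ 2 ≤ ((Icc 1 M).card : ℝ) * ∑ n ∈ Icc 1 M, ‖b n‖ ^ 2 :=
    sq_sum_le_card_mul_sum_sq
  rw [Nat.card_Icc, Nat.add_sub_cancel] at h2
  calc ‖DP b M t‖ ^ 2 ≤ (∑ n ∈ Icc 1 M, ‖b n‖) ^ 2 := by
        gcongr
    _ ≤ _ := h2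

/-- the estimate on one short interval -/
private theorem Hux_one {C0 : ℝ} (hC0 : 1 ≤ C0)
    (hker : ∀ (X M : ℕ) (u : ℝ), 3 ≤ X → M ≤ X →
      ‖∑ n ∈ Icc 1 M, ee (u * Real.log n)‖
        ≤ C0 * Real.log X * (M / (1 + |u|) + Real.sqrt |u|))
    (X M : ℕ) (b : ℕ → ℂ) (V T T0 c : ℝ) (B : Set ℝ) (hX : 3 ≤ X) (hMX : M ≤ X) (hV : 0 < V)
    (hB : MeasurableSet B) (hBs : B ⊆ Set.Icc (-T) T) (hBc : B ⊆ Set.Icc c (c + T0))
    (hT0 : 0 < T0) (hT0X : T0 ≤ (X : ℝ) ^ 2)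
    (hT0V : 2 * C0 * Real.log X * SS b M * Real.sqrt T0 ≤ V ^ 2)
    (hBV : ∀ t ∈ B, V ≤ ‖DP b M t‖) :
    V ^ 2 * volume.real B ≤ 12 * C0 * Real.log X ^ 2 * (M * SS b M) := by
  have hXr : (3 : ℝ) ≤ X := by exact_mod_cast hX
  have hX0 : (0 : ℝ) < X := by linarith
  have hL1 : 1 ≤ Real.log X := by
    rw [Real.le_log_iff_exp_le hX0]
    linarith [Real.exp_one_lt_d9]
  set L : ℝ := Real.log X with hL
  have hS0 : 0 ≤ SS b M := Finset.sum_nonneg fun n _ => by positivity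
  have hv0 : 0 ≤ volume.real B := measureReal_nonneg
  set G : ℝ := C0 * L * (6 * L * M + volume.real B * Real.sqrt T0) with hG
  have hG0 : 0 ≤ G := by positivity
  have hcee : ∀ t : ℝ, Continuous (fun s : ℝ => ‖∑ n ∈ Icc 1 M, ee ((t - s) * Real.log n)‖) := by
    intro t
    unfold ee
    fun_prop
  have hlog : 2 * Real.log (1 + T0) ≤ 6 * L := by
    have h1 : 1 + T0 ≤ (X : ℝ) ^ 3 := by nlinarith [sq_nonneg ((X : ℝ) - 1)]
    have h2 : Real.log (1 + T0) ≤ Real.log ((X : ℝ) ^ 3) := Real.log_le_log (by linarith) h1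
    rw [Real.log_pow] at h2
    push_cast at h2
    rw [← hL] at h2
    linarith
  have hGb : ∀ t ∈ B, ∫ s in B, ‖∑ n ∈ Icc 1 M, ee ((t - s) * Real.log n)‖ ≤ G := by
    intro t ht
    have hcg0 : Continuous (fun s : ℝ => 1 / (1 + |t - s|)) := by
      refine continuous_const.div (by fun_prop) fun s => ?_
      positivity
    have hcg : Continuous (fun s : ℝ => C0 * L * M * (1 / (1 + |t - s|))) :=
      continuous_const.mul hcg0
    have hi1 : IntegrableOn (fun s : ℝ => ‖∑ n ∈ Icc 1 M, ee ((t - s) * Real.log n)‖) B :=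
      ((hcee t).continuousOn.integrableOn_Icc).mono_set hBs
    have hi2 : IntegrableOn (fun s : ℝ => C0 * L * M * (1 / (1 + |t - s|))) B :=
      (hcg.continuousOn.integrableOn_Icc).mono_set hBs
    have hi3 : IntegrableOn (fun _ : ℝ => C0 * L * Real.sqrt T0) B :=
      (continuous_const.continuousOn.integrableOn_Icc).mono_set hBs
    have hpt : ∀ s ∈ B, ‖∑ n ∈ Icc 1 M, ee ((t - s) * Real.log n)‖ ≤
        C0 * L * M * (1 / (1 + |t - s|)) + C0 * L * Real.sqrt T0 := by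
      intro s hs
      have hs1 := hBc hs
      have ht1 := hBc ht
      rw [Set.mem_Icc] at hs1 ht1
      have habs : |t - s| ≤ T0 := by
        rw [abs_le]
        constructor <;> linarith [hs1.1, hs1.2, ht1.1, ht1.2]
      have h1 := hker X M (t - s) hX hMX
      have h2 : Real.sqrt |t - s| ≤ Real.sqrt T0 := Real.sqrt_le_sqrt habs
      calc _ ≤ C0 * L * (M / (1 + |t - s|) + Real.sqrt |t - s|) := h1
        _ ≤ C0 * L * (M / (1 + |t - s|) + Real.sqrt T0) := by gcongr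
        _ = _ := by ring
    refine (setIntegral_mono_on hi1 (hi2.add hi3) hB hpt).trans ?_
    have e1 : ∫ s in B, (C0 * L * M * (1 / (1 + |t - s|)) + C0 * L * Real.sqrt T0) =
        C0 * L * M * (∫ s in B, 1 / (1 + |t - s|)) + volume.real B * (C0 * L * Real.sqrt T0) := by
      rw [integral_add hi2 hi3, integral_const_mul, setIntegral_const, smul_eq_mul]
    have e2 : ∫ s in B, 1 / (1 + |t - s|) ≤ 2 * Real.log (1 + T0) := by
      rw [← Hux_log t T0 hT0.le, intervalIntegral.integral_of_le (by linarith),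
        ← integral_Icc_eq_integral_Ioc]
      refine setIntegral_mono_set (hcg0.continuousOn.integrableOn_Icc)
        (Filter.Eventually.of_forall fun s => ?_) (HasSubset.Subset.eventuallyLE ?_)
      · simp only [Pi.zero_apply]
        positivity
      · intro s hs
        have hs1 := hBc hs
        have ht1 := hBc ht
        rw [Set.mem_Icc] at hs1 ht1 ⊢
        constructor <;> linarith [hs1.1, hs1.2, ht1.1, ht1.2]
    have e3 : C0 * L * M * (∫ s in B, 1 / (1 + |t - s|)) ≤ C0 * L * M * (6 * L) :=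
      mul_le_mul_of_nonneg_left (e2.trans hlog) (by positivity)
    rw [Pi.add_def, e1, hG]
    nlinarith [e3]
  have hd := Pool.Agent.H80.LV.dual_ineq B T hB hBs M b G hG0 hGb
  have hFc : Continuous (fun t : ℝ => ‖∑ n ∈ Icc 1 M, b n * ee (t * Real.log n)‖ ^ 2) := by
    unfold ee
    fun_prop
  have hlow : V ^ 2 * volume.real B ≤
      ∫ t in B, ‖∑ n ∈ Icc 1 M, b n * ee (t * Real.log n)‖ ^ 2 := by
    have h1 : ∫ _ in B, V ^ 2 = volume.real B * V ^ 2 := by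
      rw [setIntegral_const, smul_eq_mul]
    rw [mul_comm, ← h1]
    refine setIntegral_mono_on
      ((continuous_const.continuousOn.integrableOn_Icc (μ := volume)).mono_set hBs)
      ((hFc.continuousOn.integrableOn_Icc).mono_set hBs) hB fun t ht => ?_
    have h2 := hBV t ht
    unfold DP at h2
    gcongr
  have hfin : V ^ 2 * volume.real B ≤ G * SS b M := hlow.trans hd
  have h5 : C0 * L * SS b M * Real.sqrt T0 * volume.real B ≤ V ^ 2 / 2 * volume.real B := by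
    refine mul_le_mul_of_nonneg_right ?_ hv0
    linarith
  rw [hG] at hfin
  nlinarith [hfin, h5]

theorem huxley : ∃ C : ℝ, 1 ≤ C ∧ ∀ (X M : ℕ) (b : ℕ → ℂ) (V T : ℝ) (B : Set ℝ), 3 ≤ X → 1 ≤ M →
    M ≤ X → 0 < V → 1 ≤ T → T ≤ X → MeasurableSet B → B ⊆ Set.Icc (-T) T →
    (∀ t ∈ B, V ≤ ‖DP b M t‖) →
    volume.real B ≤ C * Real.log X ^ 6 * (M * SS b M / V ^ 2 + T * M * SS b M ^ 3 / V ^ 6) := by
  obtain ⟨C0, hC0, hker⟩ := ker
  refine ⟨96 * C0 ^ 3, ?_, fun X M b V T B hX hM hMX hV hT hTX hB hBs hBV => ?_⟩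
  · have : 1 ≤ C0 ^ 3 := one_le_pow₀ hC0
    linarith
  have hXr : (3 : ℝ) ≤ X := by exact_mod_cast hX
  have hX0 : (0 : ℝ) < X := by linarith
  have hL1 : 1 ≤ Real.log X := by
    rw [Real.le_log_iff_exp_le hX0]
    linarith [Real.exp_one_lt_d9]
  set L : ℝ := Real.log X with hL
  have hS0 : 0 ≤ SS b M := Finset.sum_nonneg fun n _ => by positivity
  have hT0 : 0 < T := by linarith
  rcases B.eq_empty_or_nonempty with hBe | ⟨t0, ht0⟩
  · rw [hBe]
    simp only [measureReal_empty]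
    positivity
  have hVMS : V ^ 2 ≤ M * SS b M := by
    refine le_trans ?_ (Hux_cs b M t0)
    have := hBV t0 ht0
    gcongr
  have hM0 : (0 : ℝ) < M := by exact_mod_cast hM
  have hS : 0 < SS b M := by
    rcases hS0.lt_or_eq with h | h
    · exact h
    · rw [← h, mul_zero] at hVMS
      exact absurd hVMS (not_le.mpr (by positivity))
  set S : ℝ := SS b M with hSdef
  -- the length of the short intervals
  set R : ℝ := V ^ 2 / (2 * C0 * L * S) with hR
  have hR0 : 0 < R := by positivity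
  set U : ℝ := R ^ 2 with hU
  have hU0 : 0 < U := by positivity
  have hsq : Real.sqrt U = R := by rw [hU, Real.sqrt_sq hR0.le]
  have hRX : R ≤ X := by
    rw [hR, div_le_iff₀ (by positivity)]
    have h1 : (M : ℝ) ≤ X := by exact_mod_cast hMX
    have h2 : M * S ≤ X * S := by gcongr
    have h3 : (1 : ℝ) ≤ 2 * C0 * L := by nlinarith
    have h4 : (X : ℝ) * S ≤ X * (2 * C0 * L * S) := by
      have : X * S * 1 ≤ X * S * (2 * C0 * L) := by gcongr
      linarith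
    linarith
  have hUX : U ≤ (X : ℝ) ^ 2 := by rw [hU]; gcongr
  have hUV : 2 * C0 * L * S * Real.sqrt U ≤ V ^ 2 := by
    rw [hsq, hR]
    apply le_of_eq
    field_simp
  -- covering
  set N : ℕ := ⌊2 * T / U⌋₊ + 1 with hN
  have hcover : B ⊆ ⋃ j ∈ Finset.range N, B ∩ Set.Icc (-T + j * U) (-T + j * U + U) := by
    intro t ht
    have h1 := hBs ht
    rw [Set.mem_Icc] at h1
    simp only [Set.mem_iUnion, Finset.mem_range, exists_prop]
    have h2 : 0 ≤ (t + T) / U := div_nonneg (by linarith [h1.1]) hU0.le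
    refine ⟨⌊(t + T) / U⌋₊, ?_, ht, ?_⟩
    · rw [hN, Nat.lt_succ_iff]
      apply Nat.floor_le_floor
      gcongr
      linarith [h1.2]
    · have h3 := Nat.floor_le h2
      have h4 := Nat.lt_floor_add_one ((t + T) / U)
      rw [le_div_iff₀ hU0] at h3
      rw [div_lt_iff₀ hU0] at h4
      rw [Set.mem_Icc]
      constructor <;> linarith
  have hone : ∀ j ∈ Finset.range N, volume.real (B ∩ Set.Icc (-T + j * U) (-T + j * U + U)) ≤
      12 * C0 * L ^ 2 * (M * S) / V ^ 2 := by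
    intro j _
    rw [le_div_iff₀ (by positivity), mul_comm]
    exact Hux_one hC0 hker X M b V T U (-T + j * U) _ hX hMX hV (hB.inter measurableSet_Icc)
      (Set.inter_subset_left.trans hBs) Set.inter_subset_right hU0 hUX hUV
      (fun t ht => hBV t ht.1)
  have hfinB : volume (⋃ j ∈ Finset.range N, B ∩ Set.Icc (-T + j * U) (-T + j * U + U)) ≠ ⊤ := by
    refine ne_of_lt (lt_of_le_of_lt (measure_mono ?_)
      (lt_of_le_of_lt (measure_mono hBs) (by
        rw [Real.volume_Icc]; exact ENNReal.ofReal_lt_top)))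
    exact Set.iUnion₂_subset fun j _ => Set.inter_subset_left
  have hvol : volume.real B ≤ N * (12 * C0 * L ^ 2 * (M * S) / V ^ 2) := by
    calc volume.real B ≤ volume.real (⋃ j ∈ Finset.range N,
          B ∩ Set.Icc (-T + j * U) (-T + j * U + U)) := measureReal_mono hcover hfinB
      _ ≤ ∑ j ∈ Finset.range N, volume.real (B ∩ Set.Icc (-T + j * U) (-T + j * U + U)) :=
          measureReal_biUnion_finset_le _ _
      _ ≤ ∑ j ∈ Finset.range N, (12 * C0 * L ^ 2 * (M * S) / V ^ 2) := Finset.sum_le_sum hone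
      _ = _ := by rw [Finset.sum_const, Finset.card_range, nsmul_eq_mul]
  have hNle : (N : ℝ) ≤ 2 * T / U + 1 := by
    rw [hN]
    push_cast
    linarith [Nat.floor_le (show 0 ≤ 2 * T / U by positivity)]
  have hUe : 2 * T / U = 8 * C0 ^ 2 * L ^ 2 * (T * S ^ 2 / V ^ 4) := by
    rw [hU, hR]
    field_simp
    ring
  have hL4 : L ^ 4 ≤ L ^ 6 := pow_le_pow_right₀ hL1 (by norm_num)
  have hL2 : L ^ 2 ≤ L ^ 6 := pow_le_pow_right₀ hL1 (by norm_num)
  have hC3 : C0 ≤ C0 ^ 3 := by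
    calc C0 = C0 ^ 1 := (pow_one _).symm
      _ ≤ C0 ^ 3 := pow_le_pow_right₀ hC0 (by norm_num)
  calc volume.real B ≤ N * (12 * C0 * L ^ 2 * (M * S) / V ^ 2) := hvol
    _ ≤ (8 * C0 ^ 2 * L ^ 2 * (T * S ^ 2 / V ^ 4) + 1) * (12 * C0 * L ^ 2 * (M * S) / V ^ 2) := by
        rw [← hUe]
        gcongr
    _ = 96 * C0 ^ 3 * L ^ 4 * (T * M * S ^ 3 / V ^ 6) + 12 * C0 * L ^ 2 * (M * S / V ^ 2) := by
        field_simp
        ring
    _ ≤ 96 * C0 ^ 3 * L ^ 6 * (T * M * S ^ 3 / V ^ 6)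
          + 96 * C0 ^ 3 * L ^ 6 * (M * S / V ^ 2) := by
        gcongr
        norm_num
    _ = _ := by ring

end Pool.Agent.H88.PSI

end

section

/-!
# PSI Lvk: large values of powers

`b = g^k` (`dp_pow` with the bound `2 N`; `M = (2 N)^k ≤ X`), `|b(n)| ≤ (2 L)^k tau(n)^k` (`prod_bd` with the constant family, `∏ i : Fin k, g = g^k`), so
`SS b M ≤ M X^(e1/8)` (`tau_eps`).  `mvt`: `V^(2k) |B| ≤ (2 T + 4 M (1 + log M)) SS`; `huxley` with `V^k`.  Constants `2^(4k)`, `L^6` are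
absorbed in `X^e1`.
-/

set_option autoImplicit false

namespace Pool.Agent.H88.PSI

open Finset MeasureTheory

private theorem Lvk_log (n : ℕ) (A δ : ℝ) (hδ : 0 < δ) :
    ∃ X0 : ℕ, ∀ X : ℕ, X0 ≤ X → A * Real.log X ^ n ≤ (X : ℝ) ^ δ := by
  have h1 := (isLittleO_log_rpow_rpow_atTop (n : ℝ) hδ).comp_tendsto tendsto_natCast_atTop_atTop
  have hc : 0 < 1 / (|A| + 1) := by positivity
  have h2 := h1.def hc
  rw [Filter.eventually_atTop] at h2
  obtain ⟨X0, hX0⟩ := h2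
  refine ⟨X0, fun X hX => ?_⟩
  have h3 := hX0 X hX
  simp only [Function.comp_apply, Real.rpow_natCast] at h3
  have h4 : (0 : ℝ) ≤ (X : ℝ) ^ δ := by positivity
  rw [Real.norm_of_nonneg h4, Real.norm_eq_abs] at h3
  have h5 : A * Real.log X ^ n ≤ |A| * |Real.log X ^ n| := by
    rw [← abs_mul]
    exact le_abs_self _
  have h6 : |A| * |Real.log X ^ n| ≤ |A| * (1 / (|A| + 1) * (X : ℝ) ^ δ) :=
    mul_le_mul_of_nonneg_left h3 (abs_nonneg _)
  have h7 : |A| * (1 / (|A| + 1) * (X : ℝ) ^ δ) = |A| / (|A| + 1) * (X : ℝ) ^ δ := by ring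
  have h8 : |A| / (|A| + 1) ≤ 1 := by
    rw [div_le_one (by positivity)]
    linarith
  have h9 : |A| / (|A| + 1) * (X : ℝ) ^ δ ≤ 1 * (X : ℝ) ^ δ := mul_le_mul_of_nonneg_right h8 h4
  linarith

/-- the second moment of the coefficients -/
private theorem Lvk_SS (k : ℕ) (e1 : ℝ) (hk : 1 ≤ k) (he1 : 0 < e1) : ∃ X0 : ℕ, ∀ X : ℕ, X0 ≤ X →
    ∀ (M : ℕ) (g : ArithmeticFunction ℂ), M ≤ X → (∀ n, ‖g n‖ ≤ 2 * Real.log X) →
      SS (⇑(g ^ k)) M ≤ M * (X : ℝ) ^ (e1 / 16) := by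
  have hk0 : (0 : ℝ) < k := by exact_mod_cast hk
  have he : 0 < e1 / (64 * k) := by positivity
  obtain ⟨C1, hC1, htau⟩ := tau_eps (e1 / (64 * k)) he
  obtain ⟨X1, hX1⟩ := Lvk_log (2 * k) ((4 * C1) ^ (2 * k) * 2 ^ (2 * k)) (e1 / 32) (by positivity)
  refine ⟨max 3 X1, fun X hX M g hM hg => ?_⟩
  have hX3 : 3 ≤ X := (le_max_left _ _).trans hX
  have hX3' : (3 : ℝ) ≤ X := by exact_mod_cast hX3
  have hXpos : (0 : ℝ) < X := by linarith
  have hL : 1 ≤ Real.log X := by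
    rw [Real.le_log_iff_exp_le hXpos]
    have := Real.exp_one_lt_d9
    linarith
  have h1 := hX1 X ((le_max_right _ _).trans hX)
  have hprod : ∀ n, ‖(g ^ k) n‖ ≤ (2 * Real.log X) ^ k * tau n ^ k := by
    intro n
    have h2 := prod_bd (fun _ : Fin k => g) (2 * Real.log X) (by linarith) (fun _ n => hg n) n
    rwa [prod_const, card_univ, Fintype.card_fin] at h2
  have hterm : ∀ n ∈ Icc 1 M, ‖(g ^ k) n‖ ^ 2 ≤ (X : ℝ) ^ (e1 / 16) := by
    intro n hn
    rw [mem_Icc] at hn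
    have hn1 : (1 : ℝ) ≤ n := by exact_mod_cast hn.1
    have hnX : (n : ℝ) ≤ X := by exact_mod_cast hn.2.trans hM
    set e := e1 / (64 * k) with hedef
    have hXe : 1 ≤ (X : ℝ) ^ e := Real.one_le_rpow (by linarith) he.le
    have hne : (n : ℝ) ^ e ≤ (X : ℝ) ^ e := Real.rpow_le_rpow (by linarith) hnX he.le
    have htn : tau n ≤ 2 * C1 * (X : ℝ) ^ e := by
      have h3 := htau n
      nlinarith
    have htn0 : 0 ≤ tau n := by
      unfold tau
      positivity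
    have h4 : tau n ^ k ≤ (2 * C1 * (X : ℝ) ^ e) ^ k := pow_le_pow_left₀ htn0 htn k
    have h5 : ‖(g ^ k) n‖ ≤ (2 * Real.log X) ^ k * (2 * C1 * (X : ℝ) ^ e) ^ k :=
      (hprod n).trans (mul_le_mul_of_nonneg_left h4 (by positivity))
    have h6 : ‖(g ^ k) n‖ ^ 2 ≤ ((2 * Real.log X) ^ k * (2 * C1 * (X : ℝ) ^ e) ^ k) ^ 2 :=
      pow_le_pow_left₀ (norm_nonneg _) h5 2
    have h7 : ((2 * Real.log X) ^ k * (2 * C1 * (X : ℝ) ^ e) ^ k) ^ 2 =
        ((4 * C1) ^ (2 * k) * Real.log X ^ (2 * k)) * ((X : ℝ) ^ e) ^ (2 * k) := by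
      rw [← mul_pow, ← mul_pow, ← mul_pow, ← pow_mul, mul_comm k 2]
      congr 1
      ring
    have h8 : ((X : ℝ) ^ e) ^ (2 * k) = (X : ℝ) ^ (e1 / 32) := by
      rw [← Real.rpow_natCast, ← Real.rpow_mul hXpos.le]
      congr 1
      rw [hedef]
      push_cast
      field_simp
      ring
    have h9 : (4 * C1) ^ (2 * k) * Real.log X ^ (2 * k) ≤ (X : ℝ) ^ (e1 / 32) := by
      refine le_trans ?_ h1
      have h10 : (1 : ℝ) ≤ 2 ^ (2 * k) := one_le_pow₀ (by norm_num)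
      have h11 : 0 ≤ (4 * C1) ^ (2 * k) := by positivity
      have h12 : (4 * C1) ^ (2 * k) ≤ (4 * C1) ^ (2 * k) * 2 ^ (2 * k) := by nlinarith
      exact mul_le_mul_of_nonneg_right h12 (by positivity)
    have h13 : (X : ℝ) ^ (e1 / 32) * (X : ℝ) ^ (e1 / 32) = (X : ℝ) ^ (e1 / 16) := by
      rw [← Real.rpow_add hXpos]
      congr 1
      ring
    calc ‖(g ^ k) n‖ ^ 2 ≤ ((4 * C1) ^ (2 * k) * Real.log X ^ (2 * k)) * ((X : ℝ) ^ e) ^ (2 * k) := by
          rw [← h7]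
          exact h6
      _ ≤ (X : ℝ) ^ (e1 / 32) * (X : ℝ) ^ (e1 / 32) := by
          rw [h8]
          exact mul_le_mul_of_nonneg_right h9 (by positivity)
      _ = _ := h13
  unfold SS
  refine (sum_le_sum hterm).trans (le_of_eq ?_)
  rw [sum_const, Nat.card_Icc, nsmul_eq_mul]
  congr 2

theorem lvk (k : ℕ) (e1 : ℝ) (hk : 1 ≤ k) (he1 : 0 < e1) : ∃ X0 : ℕ, ∀ X : ℕ, X0 ≤ X →
    ∀ (N : ℕ) (g : ArithmeticFunction ℂ) (V T : ℝ) (B : Set ℝ), 1 ≤ N → (2 * N) ^ k ≤ X →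
    (∀ n, g n ≠ 0 → n ≤ 2 * N) → (∀ n, ‖g n‖ ≤ 2 * Real.log X) → 0 < V → 1 ≤ T → T ≤ X →
    MeasurableSet B → B ⊆ Set.Icc (-T) T → (∀ t ∈ B, V ≤ ‖DP g (2 * N) t‖) →
    volume.real B ≤ (X : ℝ) ^ e1 * ((N : ℝ) ^ (2 * k) / V ^ (2 * k) +
      min (T * (N : ℝ) ^ k / V ^ (2 * k)) (T * (N : ℝ) ^ (4 * k) / V ^ (6 * k))) := by
  obtain ⟨C0, hC0, hux⟩ := huxley
  obtain ⟨X1, hX1⟩ := Lvk_SS k e1 hk he1
  obtain ⟨X2, hX2⟩ := Lvk_log 1 (8 * 4 ^ k) (e1 / 16) (by positivity)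
  obtain ⟨X3, hX3⟩ := Lvk_log 6 (C0 * 16 ^ k) (e1 / 16) (by positivity)
  refine ⟨max (max 3 X1) (max X2 X3), fun X hX N g V T B hN hNX hsupp hg hV hT hTX hBm hB hBV => ?_⟩
  have hX3a : 3 ≤ X := (le_max_left _ _).trans ((le_max_left _ _).trans hX)
  have hX1a : X1 ≤ X := (le_max_right _ _).trans ((le_max_left _ _).trans hX)
  have hX2a : X2 ≤ X := (le_max_left _ _).trans ((le_max_right _ _).trans hX)
  have hX3b : X3 ≤ X := (le_max_right _ _).trans ((le_max_right _ _).trans hX)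
  have hX3' : (3 : ℝ) ≤ X := by exact_mod_cast hX3a
  have hXpos : (0 : ℝ) < X := by linarith
  have hL : 1 ≤ Real.log X := by
    rw [Real.le_log_iff_exp_le hXpos]
    have := Real.exp_one_lt_d9
    linarith
  have h2 := hX2 X hX2a
  have h3 := hX3 X hX3b
  rw [pow_one] at h2
  set Y : ℝ := (X : ℝ) ^ (e1 / 16) with hY
  have hY1 : 1 ≤ Y := Real.one_le_rpow (by linarith) (by positivity)
  have hY0 : 0 < Y := by linarith
  have hY16 : Y ^ 16 = (X : ℝ) ^ e1 := by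
    rw [hY, ← Real.rpow_natCast, ← Real.rpow_mul hXpos.le]
    congr 1
    push_cast
    ring
  set M : ℕ := (2 * N) ^ k with hM
  have hM1 : 1 ≤ M := Nat.one_le_pow _ _ (by omega)
  have hMR : (M : ℝ) = 2 ^ k * (N : ℝ) ^ k := by
    rw [hM]
    push_cast
    rw [mul_pow]
  have hS := hX1 X hX1a M g hNX hg
  set S := SS (⇑(g ^ k)) M with hSdef
  have hS0 : 0 ≤ S := by
    rw [hSdef]
    unfold SS
    exact sum_nonneg fun n _ => by positivity
  have hDP : ∀ t, DP (⇑(g ^ k)) M t = DP g (2 * N) t ^ k := fun t => dp_pow g (2 * N) k hsupp t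
  have hVt : ∀ t ∈ B, V ^ k ≤ ‖DP (⇑(g ^ k)) M t‖ := by
    intro t ht
    rw [hDP, norm_pow]
    exact pow_le_pow_left₀ hV.le (hBV t ht) k
  have hNR : (1 : ℝ) ≤ N := by exact_mod_cast hN
  have hlogM : Real.log M ≤ Real.log X :=
    Real.log_le_log (by exact_mod_cast hM1) (by exact_mod_cast hNX)
  -- the mean value theorem
  have b1 : volume.real B ≤ (X : ℝ) ^ e1 * ((N : ℝ) ^ (2 * k) / V ^ (2 * k) +
      T * (N : ℝ) ^ k / V ^ (2 * k)) := by
    have hm := mvt (⇑(g ^ k)) M T hM1 (by linarith)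
    have hcont : Continuous fun t => ‖DP (⇑(g ^ k)) M t‖ ^ 2 := (dp_cont _ M).norm.pow 2
    have hint : IntegrableOn (fun t => ‖DP (⇑(g ^ k)) M t‖ ^ 2) (Set.Icc (-T) T) :=
      hcont.continuousOn.integrableOn_Icc
    have hfin : volume B ≠ ⊤ :=
      ne_top_of_le_ne_top (by rw [Real.volume_Icc]; exact ENNReal.ofReal_ne_top) (measure_mono hB)
    have e1' : volume.real B * V ^ (2 * k) ≤ ∫ t in B, ‖DP (⇑(g ^ k)) M t‖ ^ 2 := by
      have h4 : ∫ t in B, (V ^ (2 * k) : ℝ) = volume.real B * V ^ (2 * k) := by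
        rw [setIntegral_const, smul_eq_mul]
      rw [← h4]
      refine setIntegral_mono_on (integrableOn_const hfin) (hint.mono_set hB) hBm fun t ht => ?_
      have h5 := pow_le_pow_left₀ (by positivity) (hVt t ht) 2
      rwa [← pow_mul, mul_comm k 2] at h5
    have e2 : ∫ t in B, ‖DP (⇑(g ^ k)) M t‖ ^ 2 ≤
        ∫ t in Set.Icc (-T) T, ‖DP (⇑(g ^ k)) M t‖ ^ 2 :=
      setIntegral_mono_set hint (Filter.Eventually.of_forall fun t => by positivity)
        hB.eventuallyLE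
    have e3 : volume.real B * V ^ (2 * k) ≤ (2 * T + 4 * M * (1 + Real.log M)) * S :=
      e1'.trans (e2.trans hm)
    have e4 : (2 * T + 4 * M * (1 + Real.log M)) * S ≤
        (2 * T + 4 * M * (2 * Real.log X)) * (M * Y) := by
      refine mul_le_mul ?_ hS hS0 (by positivity)
      have h6 : (M : ℝ) * (1 + Real.log M) ≤ M * (2 * Real.log X) :=
        mul_le_mul_of_nonneg_left (by linarith) (by positivity)
      linarith
    have e5 : (2 * T + 4 * M * (2 * Real.log X)) * (M * Y) ≤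
        Y ^ 16 * ((N : ℝ) ^ (2 * k) + T * (N : ℝ) ^ k) := by
      rw [hMR]
      have a1 : (2 : ℝ) * 2 ^ k ≤ 8 * 4 ^ k * Real.log X := by
        have a2 : (2 : ℝ) ^ k ≤ 4 ^ k := pow_le_pow_left₀ (by norm_num) (by norm_num) k
        have a3 : (0 : ℝ) < 4 ^ k := by positivity
        nlinarith
      have a4 : (2 : ℝ) * 2 ^ k ≤ Y := a1.trans h2
      have a5 : Y * Y ≤ Y ^ 16 := by
        rw [← pow_two]
        exact pow_le_pow_right₀ hY1 (by norm_num)
      have a6 : (4 : ℝ) ^ k = 2 ^ k * 2 ^ k := by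
        rw [← mul_pow]
        norm_num
      have a7 : (N : ℝ) ^ (2 * k) = (N : ℝ) ^ k * (N : ℝ) ^ k := by
        rw [two_mul, pow_add]
      have a8 : 8 * (2 ^ k * 2 ^ k) * Real.log X ≤ Y := by
        rw [← a6]
        exact h2
      have p1 : 0 ≤ T * (N : ℝ) ^ k * Y := by positivity
      have p2 : 0 ≤ (N : ℝ) ^ k * (N : ℝ) ^ k * Y := by positivity
      calc (2 * T + 4 * (2 ^ k * (N : ℝ) ^ k) * (2 * Real.log X)) * (2 ^ k * (N : ℝ) ^ k * Y) =
          (2 * 2 ^ k) * (T * (N : ℝ) ^ k * Y) +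
            (8 * (2 ^ k * 2 ^ k) * Real.log X) * ((N : ℝ) ^ k * (N : ℝ) ^ k * Y) := by ring
        _ ≤ Y * (T * (N : ℝ) ^ k * Y) + Y * ((N : ℝ) ^ k * (N : ℝ) ^ k * Y) :=
            add_le_add (mul_le_mul_of_nonneg_right a4 p1) (mul_le_mul_of_nonneg_right a8 p2)
        _ = (Y * Y) * ((N : ℝ) ^ (2 * k) + T * (N : ℝ) ^ k) := by
            rw [a7]
            ring
        _ ≤ Y ^ 16 * ((N : ℝ) ^ (2 * k) + T * (N : ℝ) ^ k) :=
            mul_le_mul_of_nonneg_right a5 (by positivity)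
    rw [← hY16, ← add_div, mul_div_assoc', le_div_iff₀ (by positivity)]
    exact e3.trans (e4.trans e5)
  -- Huxley
  have b2 : volume.real B ≤ (X : ℝ) ^ e1 * ((N : ℝ) ^ (2 * k) / V ^ (2 * k) +
      T * (N : ℝ) ^ (4 * k) / V ^ (6 * k)) := by
    have hh := hux X M (⇑(g ^ k)) (V ^ k) T B hX3a hM1 hNX (by positivity) hT hTX hBm hB hVt
    rw [← hSdef, ← pow_mul, ← pow_mul, mul_comm k 2, mul_comm k 6] at hh
    refine hh.trans ?_
    have a1 : M * S ≤ 16 ^ k * Y ^ 3 * (N : ℝ) ^ (2 * k) := by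
      have c1 : M * S ≤ M * (M * Y) := mul_le_mul_of_nonneg_left hS (by positivity)
      have c2 : (M : ℝ) * (M * Y) = 4 ^ k * Y * (N : ℝ) ^ (2 * k) := by
        have c3 : (4 : ℝ) ^ k = 2 ^ k * 2 ^ k := by
          rw [← mul_pow]
          norm_num
        rw [hMR, c3, two_mul, pow_add]
        ring
      have c4 : (4 : ℝ) ^ k ≤ 16 ^ k := pow_le_pow_left₀ (by norm_num) (by norm_num) k
      have c5 : Y ≤ Y ^ 3 := le_self_pow₀ hY1 (by norm_num)
      have c6 : (4 : ℝ) ^ k * Y ≤ 16 ^ k * Y ^ 3 := mul_le_mul c4 c5 hY0.le (by positivity)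
      have c7 : 4 ^ k * Y * (N : ℝ) ^ (2 * k) ≤ 16 ^ k * Y ^ 3 * (N : ℝ) ^ (2 * k) :=
        mul_le_mul_of_nonneg_right c6 (by positivity)
      linarith
    have a2 : M * S ^ 3 ≤ 16 ^ k * Y ^ 3 * (N : ℝ) ^ (4 * k) := by
      have c1 : S ^ 3 ≤ (M * Y) ^ 3 := pow_le_pow_left₀ hS0 hS 3
      have c2 : (M : ℝ) * S ^ 3 ≤ M * (M * Y) ^ 3 := mul_le_mul_of_nonneg_left c1 (by positivity)
      have c3 : (M : ℝ) * (M * Y) ^ 3 = 16 ^ k * Y ^ 3 * (N : ℝ) ^ (4 * k) := by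
        have c4 : (16 : ℝ) ^ k = (2 ^ k) ^ 4 := by
          rw [← pow_mul, mul_comm, pow_mul]
          norm_num
        have c5 : (N : ℝ) ^ (4 * k) = ((N : ℝ) ^ k) ^ 4 := by
          rw [← pow_mul, mul_comm]
        rw [hMR, c4, c5]
        ring
      linarith
    have p1 : 0 < V ^ (2 * k) := by positivity
    have p2 : 0 < V ^ (6 * k) := by positivity
    have a3 : M * S / V ^ (2 * k) ≤ 16 ^ k * Y ^ 3 * ((N : ℝ) ^ (2 * k) / V ^ (2 * k)) := by
      rw [mul_div_assoc']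
      exact div_le_div_of_nonneg_right a1 p1.le
    have a4 : T * M * S ^ 3 / V ^ (6 * k) ≤
        16 ^ k * Y ^ 3 * (T * (N : ℝ) ^ (4 * k) / V ^ (6 * k)) := by
      rw [mul_div_assoc']
      refine div_le_div_of_nonneg_right ?_ p2.le
      have := mul_le_mul_of_nonneg_left a2 (by linarith : (0 : ℝ) ≤ T)
      linarith
    have p3 : 0 ≤ (N : ℝ) ^ (2 * k) / V ^ (2 * k) + T * (N : ℝ) ^ (4 * k) / V ^ (6 * k) := by
      positivity
    calc C0 * Real.log X ^ 6 * (M * S / V ^ (2 * k) + T * M * S ^ 3 / V ^ (6 * k)) ≤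
        C0 * Real.log X ^ 6 * (16 ^ k * Y ^ 3 * ((N : ℝ) ^ (2 * k) / V ^ (2 * k)) +
          16 ^ k * Y ^ 3 * (T * (N : ℝ) ^ (4 * k) / V ^ (6 * k))) :=
          mul_le_mul_of_nonneg_left (add_le_add a3 a4) (by positivity)
      _ = (C0 * 16 ^ k * Real.log X ^ 6) * Y ^ 3 * ((N : ℝ) ^ (2 * k) / V ^ (2 * k) +
          T * (N : ℝ) ^ (4 * k) / V ^ (6 * k)) := by ring
      _ ≤ Y * Y ^ 3 * ((N : ℝ) ^ (2 * k) / V ^ (2 * k) +
          T * (N : ℝ) ^ (4 * k) / V ^ (6 * k)) :=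
          mul_le_mul_of_nonneg_right (mul_le_mul_of_nonneg_right h3 (by positivity)) p3
      _ ≤ Y ^ 16 * ((N : ℝ) ^ (2 * k) / V ^ (2 * k) +
          T * (N : ℝ) ^ (4 * k) / V ^ (6 * k)) := by
          refine mul_le_mul_of_nonneg_right ?_ p3
          rw [← pow_succ']
          exact pow_le_pow_right₀ hY1 (by norm_num)
      _ = _ := by rw [hY16]
  rcases min_choice (T * (N : ℝ) ^ k / V ^ (2 * k)) (T * (N : ℝ) ^ (4 * k) / V ^ (6 * k)) with
    h | h
  · rw [h]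
    exact b1
  · rw [h]
    exact b2

end Pool.Agent.H88.PSI

end
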