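import Pool.Agent.H15.TB1.M28
import Pool.Agent.H15.TB1.M50

/-! The parts of this file: H76.EHB.Mell, H76.EHB.JB, H35.W.MelG, H35.W.PowZ, H35.W.BadM, H35.W.BadN, H76.EHB.Planch, H76.EHB.Jred, H35.W.MellE, H76.MU.MelM, H76.SP.MelL, H35.W.MelTl, H76.MU.IIG, H76.MU.IIM, H76.MU.JM. -/

section

/-!
# EHB Mell: Mellin transform on the line 1/2

`Mel g t = ∫_0^∞ g(θ) θ^{-1/2 - i t} dθ` (Mathlib's `mellin g (1/2 - t i)`).
`mel_planch`: with `G(u) = exp(-u/2) g(exp(-u))`, Mathlib's `mellin_eq_fourier` gives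
`mellin g (1/2 - i t) = Ĝ(-t/(2π))`.  `g` bounded by `B`, zero outside `(0, Θ]`: `G` is integrable and square integrable,
`∫ |G|^2 du = ∫_0^∞ |g|^2 dθ` (substitution `θ = exp(-u)`), so `planch` and the substitution `ξ = -t/(2π)` give the claim.
`mel_sum`: `mellin_comp_mul_left`.  `int_sum_sq`: combine (the function `∑ g(k ·)` is again bounded with bounded support).
-/

set_option autoImplicit false

namespace Pool.Agent.H76.EHB

open Finset MeasureTheory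
open Pool.Agent.H91.PK (ee)

/-- Mellin transform at `1/2 - i t` -/
noncomputable def Mel (g : ℝ → ℂ) (t : ℝ) : ℂ := mellin g (1 / 2 - t * Complex.I)

/-- `∑_{k ∈ S} k^{-1/2 + i t}` -/
noncomputable def ZZ (S : Finset ℕ) (t : ℝ) : ℂ := ∑ k ∈ S, (k : ℂ) ^ (-(1 / 2 : ℂ) + t * Complex.I)

end Pool.Agent.H76.EHB

end

section

/-!
# EHB JB: the bound for `II`

`int_sum_sq`; `‖ZZ S t‖ ≤ ∑_{k ≤ K} k^{-1/2} ≤ 2 √K` for `S ⊆ Icc 1 K`.  Split the `t`-integral of `‖ZZ‖²‖Mel‖²` into `|t| ≤ T0`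
(`≤ 4K * 2 T0 * MB²`), `T0 < |t| ≤ T1` (`≤ ZB * ∫‖Mel‖² ≤ ZB * 2π S2`, `mel_planch`, `gg_L2`), `|t| > T1`
(`≤ 4K * 2 * (7 (N+|a|+1) F1)²/T1`, `mel_tail`, `∫_{T1}^∞ dt/t² = 1/T1`).  Divide by `2π`.
-/

set_option autoImplicit false

namespace Pool.Agent.H76.EHB

open Finset MeasureTheory
open Pool.Agent.H91.PK (ee)

theorem jb_sum (K : ℕ) : ∑ k ∈ Icc 1 K, 1 / Real.sqrt (k : ℝ) ≤ 2 * Real.sqrt K := by
  induction K with
  | zero => simp
  | succ n ih =>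
    rw [Finset.sum_Icc_succ_top (by omega)]
    have h0 : (0 : ℝ) ≤ n := Nat.cast_nonneg n
    have h1 : (0 : ℝ) < ((n + 1 : ℕ) : ℝ) := by positivity
    have hb : 0 < Real.sqrt ((n + 1 : ℕ) : ℝ) := Real.sqrt_pos.2 h1
    have ha : 0 ≤ Real.sqrt (n : ℝ) := Real.sqrt_nonneg _
    have hb2 : Real.sqrt ((n + 1 : ℕ) : ℝ) ^ 2 = (n : ℝ) + 1 := by
      rw [Real.sq_sqrt h1.le]; push_cast; ring
    have ha2 : Real.sqrt (n : ℝ) ^ 2 = (n : ℝ) := Real.sq_sqrt h0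
    have key : 1 / Real.sqrt ((n + 1 : ℕ) : ℝ)
        ≤ 2 * Real.sqrt ((n + 1 : ℕ) : ℝ) - 2 * Real.sqrt (n : ℝ) := by
      rw [div_le_iff₀ hb]
      nlinarith only [hb2, ha2, sq_nonneg (Real.sqrt ((n + 1 : ℕ) : ℝ) - Real.sqrt (n : ℝ))]
    linarith only [ih, key]

theorem jb_norm_term (k : ℕ) (hk : 1 ≤ k) (t : ℝ) :
    ‖(k : ℂ) ^ (-(1 / 2 : ℂ) + t * Complex.I)‖ = 1 / Real.sqrt (k : ℝ) := by
  rw [Complex.norm_natCast_cpow_of_pos (by omega)]
  have h : (-(1 / 2 : ℂ) + t * Complex.I).re = -(1 / 2 : ℝ) := by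
    simp
  rw [h, Real.rpow_neg (Nat.cast_nonneg k), ← Real.sqrt_eq_rpow, one_div]

theorem norm_ZZ_sq_le (K : ℕ) (S : Finset ℕ) (hS : S ⊆ Icc 1 K) (t : ℝ) : ‖ZZ S t‖ ^ 2 ≤ 4 * K := by
  have h1 : ‖ZZ S t‖ ≤ 2 * Real.sqrt K := by
    unfold ZZ
    refine (norm_sum_le _ _).trans ?_
    have h2 : ∑ k ∈ S, ‖(k : ℂ) ^ (-(1 / 2 : ℂ) + t * Complex.I)‖
        = ∑ k ∈ S, 1 / Real.sqrt (k : ℝ) :=
      Finset.sum_congr rfl fun k hk => jb_norm_term k (Finset.mem_Icc.1 (hS hk)).1 t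
    rw [h2]
    refine (Finset.sum_le_sum_of_subset_of_nonneg hS ?_).trans (jb_sum K)
    intro i _ _
    positivity
  have h3 : (2 * Real.sqrt K) ^ 2 = 4 * (K : ℝ) := by
    rw [mul_pow, Real.sq_sqrt (Nat.cast_nonneg K)]; norm_num
  rw [← h3]
  exact pow_le_pow_left₀ (norm_nonneg _) h1 2

end Pool.Agent.H76.EHB

end

section

/-!
# W MelG: the Mellin transform of the damped exponential sum, and the size of the Gamma factor

`ge f N α a Θ s θ = ∑_n f(n) ee(nα) exp(-w_n θ)`, `w_n = 1/Θ - 2πi s (n - a)`, `Re w_n > 0`, so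
`Mel (ge ..) t = Γ(1/2 - it) ∑_n f(n) ee(nα) w_n^{-(1/2 - it)}` (`Complex.integral_cpow_mul_exp_neg_mul_Ioi`;
`mellin g z = ∫_{(0,∞)} θ^{z-1} g(θ) dθ`, `Mel g t = mellin g (1/2 - it)`).
`|Γ(1/2 - it)|^2 = Γ(1/2-it) Γ(1/2+it) = π / sin(π/2 - iπt) = π / cosh(πt) ≤ 2π e^{-π|t|}` (`Complex.Gamma_mul_Gamma_one_sub`,
`Complex.Gamma_conj`), so `|Γ(1/2 - it)| ≤ 3 e^{-π|t|/2}` (and `≤ 2.51 e^{-π|t|/2}`).
-/

set_option autoImplicit false

namespace Pool.Agent.H35.W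

open Finset MeasureTheory
open Pool.Agent.H91.PK (ee)
open Pool.Agent.H76.EHB

/-- the integrand is continuous on the half line -/
private theorem MelG_cont (z w : ℂ) :
    ContinuousOn (fun θ : ℝ => (θ : ℂ) ^ (z - 1) * Complex.exp (-(w * θ))) (Set.Ioi 0) := by
  apply ContinuousOn.mul
  · intro θ hθ
    apply ContinuousAt.continuousWithinAt
    exact Complex.continuousAt_ofReal_cpow_const θ (z - 1) (Or.inr (ne_of_gt hθ))
  · fun_prop

private theorem MelG_norm (z w : ℂ) {θ : ℝ} (hθ : 0 < θ) :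
    ‖(θ : ℂ) ^ (z - 1) * Complex.exp (-(w * θ))‖ = θ ^ (z.re - 1) * Real.exp (-(w.re) * θ) := by
  rw [norm_mul, Complex.norm_cpow_eq_rpow_re_of_pos hθ, Complex.norm_exp]
  simp

private theorem MelG_int {z w : ℂ} (hz : 0 < z.re) (hw : 0 < w.re) :
    IntegrableOn (fun θ : ℝ => (θ : ℂ) ^ (z - 1) * Complex.exp (-(w * θ))) (Set.Ioi 0) := by
  have h1 : IntegrableOn (fun θ : ℝ => θ ^ (z.re - 1) * Real.exp (-(w.re) * θ ^ (1 : ℝ)))
      (Set.Ioi 0) := integrableOn_rpow_mul_exp_neg_mul_rpow (by linarith) one_pos hw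
  refine Integrable.mono' h1 ((MelG_cont z w).aestronglyMeasurable measurableSet_Ioi) ?_
  rw [ae_restrict_iff' measurableSet_Ioi]
  refine Filter.Eventually.of_forall fun θ hθ => ?_
  rw [MelG_norm z w hθ, Real.rpow_one]

private theorem MelG_diff {z w : ℂ} (hz : 0 < z.re) (hw : 0 < w.re) :
    DifferentiableAt ℂ (fun w : ℂ => ∫ θ in Set.Ioi (0 : ℝ),
      (θ : ℂ) ^ (z - 1) * Complex.exp (-(w * θ))) w := by
  have hε : 0 < w.re / 2 := by linarith only [hw]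
  have hI : IntegrableOn (fun θ : ℝ => θ ^ z.re * Real.exp (-(w.re / 2) * θ ^ (1 : ℝ)))
      (Set.Ioi 0) := integrableOn_rpow_mul_exp_neg_mul_rpow (by linarith only [hz]) one_pos hε
  have h := hasDerivAt_integral_of_dominated_loc_of_deriv_le
    (μ := volume.restrict (Set.Ioi (0 : ℝ))) (x₀ := w)
    (F := fun (w : ℂ) (θ : ℝ) => (θ : ℂ) ^ (z - 1) * Complex.exp (-(w * θ)))
    (F' := fun (w : ℂ) (θ : ℝ) => (θ : ℂ) ^ (z - 1) * (Complex.exp (-(w * θ)) * (-θ)))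
    (bound := fun θ : ℝ => θ ^ z.re * Real.exp (-(w.re / 2) * θ ^ (1 : ℝ)))
    (s := Metric.ball w (w.re / 2))
    (Metric.ball_mem_nhds w hε)
    (Filter.Eventually.of_forall fun w' =>
      (MelG_cont z w').aestronglyMeasurable measurableSet_Ioi)
    (MelG_int hz hw)
    (ContinuousOn.aestronglyMeasurable (by
      have h1 := (MelG_cont z w).mul
        (by fun_prop : ContinuousOn (fun θ : ℝ => (-θ : ℂ)) (Set.Ioi 0))
      refine h1.congr fun θ _ => ?_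
      rw [Pi.mul_apply]
      ring) measurableSet_Ioi)
    (by
      rw [ae_restrict_iff' measurableSet_Ioi]
      refine Filter.Eventually.of_forall fun θ hθ w' hw' => ?_
      have hθ0 : (0 : ℝ) < θ := hθ
      have hre : w.re / 2 ≤ w'.re := by
        have h1 := Complex.abs_re_le_norm (w' - w)
        rw [Metric.mem_ball, dist_eq_norm] at hw'
        rw [Complex.sub_re] at h1
        have h2 := (abs_le.1 (h1.trans hw'.le)).1
        linarith only [h2]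
      have e1 : (θ : ℂ) ^ (z - 1) * (Complex.exp (-(w' * θ)) * (-θ)) =
          ((θ : ℂ) ^ (z - 1) * Complex.exp (-(w' * θ))) * (-θ) := by ring
      rw [e1, norm_mul, MelG_norm z w' hθ0, norm_neg, Complex.norm_real, Real.norm_eq_abs,
        abs_of_pos hθ0, Real.rpow_one]
      have e2 : θ ^ (z.re - 1) * Real.exp (-(w'.re) * θ) * θ =
          θ ^ z.re * Real.exp (-(w'.re) * θ) := by
        rw [Real.rpow_sub_one hθ0.ne']
        field_simp
      rw [e2]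
      apply mul_le_mul_of_nonneg_left _ (by positivity)
      apply Real.exp_le_exp.2
      nlinarith only [hθ0, hre])
    hI
    (by
      refine Filter.Eventually.of_forall fun θ w' _ => ?_
      have h1 : HasDerivAt (fun w : ℂ => -(w * θ)) (-(1 * (θ : ℂ))) w' :=
        ((hasDerivAt_id w').mul_const (θ : ℂ)).neg
      have h2 := (h1.cexp).const_mul ((θ : ℂ) ^ (z - 1))
      have e3 : (θ : ℂ) ^ (z - 1) * (Complex.exp (-(w' * θ)) * -(1 * (θ : ℂ))) =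
          (θ : ℂ) ^ (z - 1) * (Complex.exp (-(w' * θ)) * (-θ)) := by rw [one_mul]
      rw [e3] at h2
      exact h2)
  exact h.2.differentiableAt

/-- the Gamma integral with a complex scale -/
private theorem MelG_gamma {z w : ℂ} (hz : 0 < z.re) (hw : 0 < w.re) :
    ∫ θ in Set.Ioi (0 : ℝ), (θ : ℂ) ^ (z - 1) * Complex.exp (-(w * θ)) =
      Complex.Gamma z * w ^ (-z) := by
  have hopen : IsOpen {w : ℂ | 0 < w.re} := isOpen_lt continuous_const Complex.continuous_re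
  have hconn : IsPreconnected {w : ℂ | 0 < w.re} :=
    (convex_halfSpace_re_gt 0).isPreconnected
  have hF : AnalyticOnNhd ℂ (fun w : ℂ => ∫ θ in Set.Ioi (0 : ℝ),
      (θ : ℂ) ^ (z - 1) * Complex.exp (-(w * θ))) {w : ℂ | 0 < w.re} :=
    DifferentiableOn.analyticOnNhd
      (fun w hw => (MelG_diff hz hw).differentiableWithinAt) hopen
  have hG : AnalyticOnNhd ℂ (fun w : ℂ => Complex.Gamma z * w ^ (-z)) {w : ℂ | 0 < w.re} := by
    refine DifferentiableOn.analyticOnNhd (fun w hw => ?_) hopen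
    refine DifferentiableAt.differentiableWithinAt ?_
    exact (differentiableAt_id.cpow_const (Or.inl hw)).const_mul _
  have h1 : (1 : ℂ) ∈ {w : ℂ | 0 < w.re} := by simp
  have hreal : ∀ r : ℝ, 0 < r → (∫ θ in Set.Ioi (0 : ℝ),
      (θ : ℂ) ^ (z - 1) * Complex.exp (-((r : ℂ) * θ))) = Complex.Gamma z * (r : ℂ) ^ (-z) := by
    intro r hr
    rw [Complex.integral_cpow_mul_exp_neg_mul_Ioi hz hr, mul_comm]
    congr 1
    rw [one_div, Complex.cpow_neg, Complex.inv_cpow]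
    rw [Complex.arg_ofReal_of_nonneg hr.le]
    exact Real.pi_ne_zero.symm
  have hfreq : ∃ᶠ w in nhdsWithin (1 : ℂ) {1}ᶜ, (∫ θ in Set.Ioi (0 : ℝ),
      (θ : ℂ) ^ (z - 1) * Complex.exp (-(w * θ))) = Complex.Gamma z * w ^ (-z) := by
    have ht : Filter.Tendsto (fun r : ℝ => (r : ℂ)) (nhdsWithin (1 : ℝ) {1}ᶜ)
        (nhdsWithin (1 : ℂ) {1}ᶜ) := by
      apply tendsto_nhdsWithin_of_tendsto_nhds_of_eventually_within
      · have := (Complex.continuous_ofReal.tendsto (1 : ℝ)).mono_left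
          (nhdsWithin_le_nhds (s := {1}ᶜ))
        simpa using this
      · refine eventually_nhdsWithin_of_forall fun r hr => ?_
        simpa using hr
    refine ht.frequently ?_
    apply Filter.Eventually.frequently
    have h2 : ∀ᶠ r : ℝ in nhds 1, 0 < r := lt_mem_nhds one_pos
    have h3 : ∀ᶠ r : ℝ in nhdsWithin 1 {1}ᶜ, 0 < r := nhdsWithin_le_nhds h2
    exact h3.mono fun r hr => hreal r hr
  exact hF.eqOn_of_preconnected_of_frequently_eq hG hconn h1 hfreq hw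

theorem mel_ge (f : ℕ → ℝ) (N : ℕ) (α a Θ s t : ℝ) (hΘ : 0 < Θ) :
    Mel (ge f N α a Θ s) t = Complex.Gamma (1 / 2 - t * Complex.I)
      * ∑ n ∈ Icc 1 N, (f n : ℂ) * ee (n * α)
        * (((1 / Θ : ℝ) : ℂ) - ((2 * Real.pi * s * ((n : ℝ) - a) : ℝ) : ℂ) * Complex.I)
            ^ (-(1 / 2 - t * Complex.I) : ℂ) := by
  obtain ⟨z, hz⟩ : ∃ z : ℂ, z = 1 / 2 - t * Complex.I := ⟨_, rfl⟩
  have hzre : 0 < z.re := by rw [hz]; simp
  let w : ℕ → ℂ := fun n =>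
    ((1 / Θ : ℝ) : ℂ) - ((2 * Real.pi * s * ((n : ℝ) - a) : ℝ) : ℂ) * Complex.I
  have hw : ∀ n, 0 < (w n).re := by
    intro n
    have : (w n).re = 1 / Θ := by
      simp only [w, Complex.sub_re, Complex.ofReal_re, Complex.re_ofReal_mul, Complex.I_re,
        mul_zero, sub_zero]
    rw [this]
    positivity
  rw [Mel, ← hz, mellin]
  have h1 : ∀ θ ∈ Set.Ioi (0 : ℝ), (θ : ℂ) ^ (z - 1) • ge f N α a Θ s θ =
      ∑ n ∈ Icc 1 N, ((f n : ℂ) * ee (n * α)) *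
        ((θ : ℂ) ^ (z - 1) * Complex.exp (-(w n * θ))) := by
    intro θ hθ
    rw [ge, if_pos (show 0 < θ from hθ), FF, smul_eq_mul, Finset.sum_mul, Finset.sum_mul, Finset.mul_sum]
    refine Finset.sum_congr rfl fun n _ => ?_
    have h2 : ee (n * (α + s * θ)) * ee (-(a * s * θ)) * ((Real.exp (-(θ / Θ)) : ℝ) : ℂ) =
        ee (n * α) * Complex.exp (-(w n * θ)) := by
      simp only [ee, w]
      rw [Complex.ofReal_exp, ← Complex.exp_add, ← Complex.exp_add, ← Complex.exp_add]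
      congr 1
      push_cast
      ring
    calc (θ : ℂ) ^ (z - 1) * ((f n : ℂ) * ee (n * (α + s * θ)) * ee (-(a * s * θ)) *
          ((Real.exp (-(θ / Θ)) : ℝ) : ℂ))
        = (θ : ℂ) ^ (z - 1) * (f n : ℂ) * (ee (n * (α + s * θ)) * ee (-(a * s * θ)) *
          ((Real.exp (-(θ / Θ)) : ℝ) : ℂ)) := by ring
      _ = _ := by rw [h2]; ring
  rw [setIntegral_congr_fun measurableSet_Ioi h1, integral_finsetSum]
  · rw [Finset.mul_sum]
    refine Finset.sum_congr rfl fun n _ => ?_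
    rw [integral_const_mul, MelG_gamma hzre (hw n)]
    simp only [w]
    ring
  · intro n _
    exact (MelG_int hzre (hw n)).const_mul _

theorem gamma_half (t : ℝ) :
    ‖Complex.Gamma (1 / 2 - t * Complex.I)‖ ≤ 3 * Real.exp (-(Real.pi * |t| / 2)) := by
  obtain ⟨z, hz⟩ : ∃ z : ℂ, z = 1 / 2 - t * Complex.I := ⟨_, rfl⟩
  rw [← hz]
  have h1 : (1 : ℂ) - z = (starRingEnd ℂ) z := by
    rw [hz]
    apply Complex.ext
    · simp; norm_num
    · simp
  have h2 : Complex.Gamma z * (starRingEnd ℂ) (Complex.Gamma z) =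
      Real.pi / Complex.sin (Real.pi * z) := by
    rw [← Complex.Gamma_conj, ← h1]
    exact Complex.Gamma_mul_Gamma_one_sub z
  have h3 : Complex.sin (Real.pi * z) = ((Real.cosh (Real.pi * t) : ℝ) : ℂ) := by
    have e : (Real.pi : ℂ) * z = Real.pi / 2 - (Real.pi * t : ℝ) * Complex.I := by
      rw [hz]; push_cast; ring
    rw [e, Complex.sin_pi_div_two_sub, Complex.cos_mul_I, Complex.ofReal_cosh]
  have h4 : ‖Complex.Gamma z‖ ^ 2 = Real.pi / Real.cosh (Real.pi * t) := by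
    have h5 := congrArg norm h2
    rw [h3, norm_mul, Complex.norm_conj, norm_div, Complex.norm_real, Complex.norm_real,
      Real.norm_eq_abs, Real.norm_eq_abs, abs_of_pos Real.pi_pos,
      abs_of_pos (Real.cosh_pos _)] at h5
    rw [pow_two]
    exact h5
  have h5 : Real.exp (Real.pi * |t|) / 2 ≤ Real.cosh (Real.pi * t) := by
    rw [← Real.cosh_abs, abs_mul, abs_of_pos Real.pi_pos, Real.cosh_eq]
    have := Real.exp_pos (-(Real.pi * |t|))
    linarith only [this]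
  have h6 : ‖Complex.Gamma z‖ ^ 2 ≤ (3 * Real.exp (-(Real.pi * |t| / 2))) ^ 2 := by
    rw [h4, mul_pow, ← Real.exp_nat_mul]
    have e1 : ((2 : ℕ) : ℝ) * (-(Real.pi * |t| / 2)) = -(Real.pi * |t|) := by push_cast; ring
    rw [e1, Real.exp_neg]
    have hE := Real.exp_pos (Real.pi * |t|)
    calc Real.pi / Real.cosh (Real.pi * t) ≤ Real.pi / (Real.exp (Real.pi * |t|) / 2) :=
          div_le_div_of_nonneg_left Real.pi_pos.le (by positivity) h5
      _ = (2 * Real.pi) * (Real.exp (Real.pi * |t|))⁻¹ := by field_simp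
      _ ≤ 3 ^ 2 * (Real.exp (Real.pi * |t|))⁻¹ := by
          apply mul_le_mul_of_nonneg_right _ (by positivity)
          have := Real.pi_lt_four
          linarith only [this]
  exact le_of_sq_le_sq h6 (by positivity)

end Pool.Agent.H35.W

end

section

/-!
# W PowZ: powers of the prime sums

`ZZ S t ^ j = ∑_m a_m m^{-1/2+it}`, `a_m` the number of `(p_1, ..., p_j) ∈ S^j` with product `m`.
Recursion: `a^{(0)} = 1_{m = 1}`, `a^{(j+1)}(m) = ∑_{p ∈ S, p ∣ m} a^{(j)}(m/p)`.  If `a^{(j+1)}(m) ≠ 0` then `m` is a product of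
`j+1` primes, so it has at most `j+1` prime divisors and `a^{(j+1)}(m) ≤ (j+1) a^{(j)}`-max `≤ (j+1)!`
(keep in the induction: `a^{(j)}(m) ≠ 0 → ArithmeticFunction.cardFactors m = j` (`m ≠ 0`), or `m.primeFactors.card ≤ j`).  The support is in
`[1, (2P)^j]`, and `∑_m a_m/m = (∑_{p ∈ S} 1/p)^j ≤ 1` as `∑_{p ∈ S} 1/p ≤ P · (1/P)`.
-/

set_option autoImplicit false

namespace Pool.Agent.H35.W

open Finset
open Pool.Agent.H76.EHB

/-- the number of `j`-tuples of elements of `S` with product `m` -/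
private def powzA (S : Finset ℕ) : ℕ → ℕ → ℕ
  | 0, m => if m = 1 then 1 else 0
  | j + 1, m => ∑ p ∈ S.filter (fun p => p ∣ m), powzA S j (m / p)

private theorem powzA_supp {P : ℕ} {S : Finset ℕ} (hS : S ⊆ pb P) (j : ℕ) :
    ∀ m, powzA S j m ≠ 0 → m.primeFactors.card ≤ j ∧ 1 ≤ m ∧ m ≤ (2 * P) ^ j := by
  induction j with
  | zero =>
    intro m hm
    have h1 : m = 1 := by
      by_contra h
      exact hm (by simp [powzA, h])
    subst h1
    simp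
  | succ j ih =>
    intro m hm
    unfold powzA at hm
    obtain ⟨p, hp, hpm⟩ := Finset.exists_ne_zero_of_sum_ne_zero hm
    rw [Finset.mem_filter] at hp
    have hpb := hS hp.1
    unfold pb at hpb
    rw [Finset.mem_filter, Finset.mem_Ioc] at hpb
    obtain ⟨⟨_, hp2⟩, hpp⟩ := hpb
    obtain ⟨h1, h2, h3⟩ := ih _ hpm
    have hmul : p * (m / p) = m := Nat.mul_div_cancel' hp.2
    have hk : m / p ≠ 0 := by omega
    refine ⟨?_, ?_, ?_⟩
    · rw [← hmul, Nat.primeFactors_mul hpp.ne_zero hk, hpp.primeFactors]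
      refine (Finset.card_union_le _ _).trans ?_
      rw [Finset.card_singleton]
      omega
    · rw [← hmul]
      exact Nat.mul_pos hpp.pos h2
    · rw [← hmul, pow_succ, mul_comm]
      exact Nat.mul_le_mul h3 hp2

private theorem powzA_le {P : ℕ} {S : Finset ℕ} (hS : S ⊆ pb P) (j : ℕ) :
    ∀ m, powzA S j m ≤ j.factorial := by
  induction j with
  | zero =>
    intro m
    unfold powzA
    split_ifs <;> simp
  | succ j ih =>
    intro m
    by_cases hm : powzA S (j + 1) m = 0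
    · rw [hm]
      exact Nat.zero_le _
    · obtain ⟨h1, h2, -⟩ := powzA_supp hS (j + 1) m hm
      unfold powzA
      refine (Finset.sum_le_sum fun p _ => ih (m / p)).trans ?_
      rw [Finset.sum_const, smul_eq_mul, Nat.factorial_succ]
      refine Nat.mul_le_mul_right _ (le_trans (Finset.card_le_card ?_) h1)
      intro p hp
      rw [Finset.mem_filter] at hp
      have hpb := hS hp.1
      unfold pb at hpb
      rw [Finset.mem_filter] at hpb
      exact Nat.mem_primeFactors.2 ⟨hpb.2, hp.2, by omega⟩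

private theorem powzA_sum {R : Type*} [CommSemiring R] {P : ℕ} {S : Finset ℕ} (hS : S ⊆ pb P)
    (h : ℕ → R) (h1 : h 1 = 1) (hm : ∀ p ∈ S, ∀ k, 1 ≤ k → h (p * k) = h p * h k) (j : ℕ) :
    ∑ m ∈ Icc 1 ((2 * P) ^ j), (powzA S j m : R) * h m = (∑ p ∈ S, h p) ^ j := by
  induction j with
  | zero => simp [powzA, h1]
  | succ j ih =>
    have e1 : ∀ m ∈ Icc 1 ((2 * P) ^ (j + 1)), (powzA S (j + 1) m : R) * h m =
        ∑ p ∈ S, (if p ∣ m then (powzA S j (m / p) : R) * h m else 0) := by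
      intro m _
      rw [← Finset.sum_filter]
      show ((∑ p ∈ S.filter (fun p => p ∣ m), powzA S j (m / p) : ℕ) : R) * h m = _
      rw [Nat.cast_sum, Finset.sum_mul]
    rw [Finset.sum_congr rfl e1, Finset.sum_comm, pow_succ' (∑ p ∈ S, h p), ← ih, Finset.sum_mul]
    refine Finset.sum_congr rfl fun p hp => ?_
    have hpb := hS hp
    unfold pb at hpb
    rw [Finset.mem_filter, Finset.mem_Ioc] at hpb
    obtain ⟨⟨_, hp2⟩, hpp⟩ := hpb
    rw [← Finset.sum_filter, Finset.mul_sum]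
    have hinj : Set.InjOn (fun k : ℕ => p * k) (Icc 1 ((2 * P) ^ j) : Finset ℕ) :=
      fun a _ b _ hab => Nat.eq_of_mul_eq_mul_left hpp.pos hab
    have e2 : ∑ k ∈ Icc 1 ((2 * P) ^ j), h p * ((powzA S j k : R) * h k) =
        ∑ m ∈ (Icc 1 ((2 * P) ^ j)).image (fun k => p * k), (powzA S j (m / p) : R) * h m := by
      rw [Finset.sum_image hinj]
      refine Finset.sum_congr rfl fun k hk => ?_
      rw [Finset.mem_Icc] at hk
      rw [Nat.mul_div_cancel_left _ hpp.pos, hm p hp k hk.1]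
      ring
    rw [e2]
    symm
    refine Finset.sum_subset ?_ ?_
    · intro m hm'
      rw [Finset.mem_image] at hm'
      obtain ⟨k, hk, rfl⟩ := hm'
      rw [Finset.mem_Icc] at hk
      rw [Finset.mem_filter, Finset.mem_Icc]
      refine ⟨⟨Nat.mul_pos hpp.pos hk.1, ?_⟩, Dvd.intro _ rfl⟩
      rw [pow_succ, mul_comm]
      exact Nat.mul_le_mul hk.2 hp2
    · intro m hm' hn
      rw [Finset.mem_filter] at hm'
      have : powzA S j (m / p) = 0 := by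
        by_contra h0
        obtain ⟨-, h2, h3⟩ := powzA_supp hS j _ h0
        refine hn (Finset.mem_image.2 ⟨m / p, Finset.mem_Icc.2 ⟨h2, h3⟩, ?_⟩)
        exact Nat.mul_div_cancel' hm'.2
      rw [this, Nat.cast_zero, zero_mul]

theorem pow_z (P j : ℕ) (S : Finset ℕ) (hP : 1 ≤ P) (hS : S ⊆ pb P) :
    ∃ a : ℕ → ℝ, (∀ m, 0 ≤ a m ∧ a m ≤ (j.factorial : ℝ)) ∧
      (∀ t : ℝ, ZZ S t ^ j
        = ∑ m ∈ Icc 1 ((2 * P) ^ j), (a m : ℂ) * (m : ℂ) ^ (-(1 / 2 : ℂ) + t * Complex.I)) ∧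
      ∑ m ∈ Icc 1 ((2 * P) ^ j), a m / m ≤ 1 := by
  refine ⟨fun m => (powzA S j m : ℝ), fun m => ⟨Nat.cast_nonneg _, ?_⟩, fun t => ?_, ?_⟩
  · show (powzA S j m : ℝ) ≤ (j.factorial : ℝ)
    exact_mod_cast powzA_le hS j m
  · have h1 := powzA_sum (R := ℂ) hS (fun m => (m : ℂ) ^ (-(1 / 2 : ℂ) + t * Complex.I)) (by simp)
      (fun p _ k _ => by
        push_cast
        rw [Complex.natCast_mul_natCast_cpow]) j
    unfold ZZ
    rw [← h1]
    refine Finset.sum_congr rfl fun m _ => ?_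
    push_cast
    rfl
  · have h1 := powzA_sum (R := ℝ) hS (fun m => (1 : ℝ) / m) (by simp)
      (fun p _ k _ => by
        push_cast
        rw [one_div_mul_one_div]) j
    have h2 : ∑ m ∈ Icc 1 ((2 * P) ^ j), (powzA S j m : ℝ) / m = (∑ p ∈ S, (1 : ℝ) / p) ^ j := by
      rw [← h1]
      refine Finset.sum_congr rfl fun m _ => ?_
      rw [mul_one_div]
    have hP0 : (0 : ℝ) < P := by exact_mod_cast hP
    have h3 : ∑ p ∈ S, (1 : ℝ) / p ≤ 1 := by
      have h4 : ∀ p ∈ S, (1 : ℝ) / p ≤ 1 / P := by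
        intro p hp
        have hpb := hS hp
        unfold pb at hpb
        rw [Finset.mem_filter, Finset.mem_Ioc] at hpb
        exact one_div_le_one_div_of_le hP0 (by exact_mod_cast hpb.1.1.le)
      refine (Finset.sum_le_sum h4).trans ?_
      rw [Finset.sum_const, nsmul_eq_mul, mul_one_div, div_le_one hP0]
      have h5 : S.card ≤ P := by
        refine (Finset.card_le_card hS).trans ?_
        unfold pb
        refine (Finset.card_filter_le _ _).trans ?_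
        rw [Nat.card_Ioc]
        omega
      exact_mod_cast h5
    show ∑ m ∈ Icc 1 ((2 * P) ^ j), (powzA S j m : ℝ) / m ≤ 1
    rw [h2]
    exact pow_le_one₀ (Finset.sum_nonneg fun p _ => by positivity) h3

end Pool.Agent.H35.W

end

section

/-!
# W BadM: the measure of the set where the prime sum is large

Proof.  Markov: `(P/D)^j vol ≤ ∫_{-T}^T ‖ZZ S t‖^{2j} dt = ∫ ‖ZZ S t ^ j‖^2 ≤ (2T + 4X(1 + log X)) ∑ a_m^2/m`, `X = (2P)^j`
(`pow_z`, `mean_v`), `∑ a_m^2/m ≤ j! ∑ a_m/m ≤ j!`.  (`ZZ S` is continuous: finite sum.)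
-/

set_option autoImplicit false

namespace Pool.Agent.H35.W

open Finset MeasureTheory
open Pool.Agent.H76.EHB

theorem bad_m (P j : ℕ) (S : Finset ℕ) (T D : ℝ) (hP : 1 ≤ P) (hS : S ⊆ pb P) (hT : 0 ≤ T)
    (hD : 0 < D) :
    volume.real {t : ℝ | |t| ≤ T ∧ P / D < ‖ZZ S t‖ ^ 2}
      ≤ (D / P) ^ j * ((2 * T + 4 * (2 * P : ℝ) ^ j * (1 + Real.log ((2 * P : ℝ) ^ j)))
        * j.factorial) := by
  have hP0 : (0 : ℝ) < P := by exact_mod_cast hP
  obtain ⟨a, ha, hpow, hsum⟩ := pow_z P j S hP hS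
  set X : ℕ := (2 * P) ^ j with hX
  have hX1 : 1 ≤ X := Nat.one_le_pow _ _ (by omega)
  have hXr : (X : ℝ) = (2 * P : ℝ) ^ j := by
    rw [hX]
    push_cast
    ring
  have hcont : Continuous fun t : ℝ => ZZ S t := by
    unfold ZZ
    refine continuous_finsetSum _ fun k hk => ?_
    have hk1 : k.Prime := (Finset.mem_filter.1 (hS hk)).2
    refine Continuous.const_cpow (by fun_prop) (Or.inl ?_)
    exact_mod_cast hk1.ne_zero
  have hgcont : Continuous fun t : ℝ => ‖ZZ S t ^ j‖ ^ 2 := by fun_prop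
  have hmean := mean_v (fun m => (a m : ℂ)) X T hX1 hT
  have hsq : ∑ m ∈ Icc 1 X, ‖(a m : ℂ)‖ ^ 2 / m ≤ j.factorial := by
    calc ∑ m ∈ Icc 1 X, ‖(a m : ℂ)‖ ^ 2 / m ≤ ∑ m ∈ Icc 1 X, (j.factorial : ℝ) * (a m / m) := by
          refine Finset.sum_le_sum fun m _ => ?_
          obtain ⟨h0, h1⟩ := ha m
          rw [Complex.norm_real, Real.norm_eq_abs, sq_abs, ← mul_div_assoc]
          refine div_le_div_of_nonneg_right ?_ (Nat.cast_nonneg _)
          rw [sq]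
          exact mul_le_mul_of_nonneg_right h1 h0
      _ = (j.factorial : ℝ) * ∑ m ∈ Icc 1 X, a m / m := by rw [Finset.mul_sum]
      _ ≤ (j.factorial : ℝ) * 1 := mul_le_mul_of_nonneg_left hsum (Nat.cast_nonneg _)
      _ = j.factorial := mul_one _
  have hK0 : 0 ≤ 2 * T + 4 * (X : ℝ) * (1 + Real.log X) := by
    have h1 : 0 ≤ Real.log (X : ℝ) := Real.log_nonneg (by exact_mod_cast hX1)
    positivity
  have hint : ∫ t in (-T)..T, ‖ZZ S t ^ j‖ ^ 2 ≤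
      (2 * T + 4 * (X : ℝ) * (1 + Real.log X)) * j.factorial := by
    have h1 : ∫ t in (-T)..T, ‖ZZ S t ^ j‖ ^ 2 =
        ∫ t in (-T)..T, ‖∑ m ∈ Icc 1 X, (a m : ℂ) * (m : ℂ) ^ (-(1 / 2 : ℂ) + t * Complex.I)‖ ^ 2 := by
      refine intervalIntegral.integral_congr fun t _ => ?_
      show ‖ZZ S t ^ j‖ ^ 2 = _
      rw [hpow t]
    rw [h1]
    exact hmean.trans (mul_le_mul_of_nonneg_left hsq hK0)
  set B : Set ℝ := {t : ℝ | |t| ≤ T ∧ P / D < ‖ZZ S t‖ ^ 2} with hB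
  have hBm : MeasurableSet B := by
    have m1 : MeasurableSet {t : ℝ | |t| ≤ T} := measurableSet_le (by fun_prop) measurable_const
    have m2 : MeasurableSet {t : ℝ | (P : ℝ) / D < ‖ZZ S t‖ ^ 2} :=
      measurableSet_lt measurable_const (hcont.norm.pow 2).measurable
    exact m1.inter m2
  have hBsub : B ⊆ Set.Icc (-T) T := by
    intro t ht
    exact abs_le.1 ht.1
  have hc0 : 0 ≤ (P : ℝ) / D := by positivity
  have h1 : volume.real B * ((P : ℝ) / D) ^ j ≤ ∫ t in B, ‖ZZ S t ^ j‖ ^ 2 := by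
    have h2 : ∫ _ in B, ((P : ℝ) / D) ^ j = volume.real B * ((P : ℝ) / D) ^ j := by
      rw [setIntegral_const, smul_eq_mul]
    rw [← h2]
    refine setIntegral_mono_on ?_ ?_ hBm ?_
    · exact (continuous_const.integrableOn_Icc).mono_set hBsub
    · exact (hgcont.integrableOn_Icc).mono_set hBsub
    · intro t ht
      rw [norm_pow, ← pow_mul, mul_comm, pow_mul]
      exact pow_le_pow_left₀ hc0 ht.2.le j
  have h2 : ∫ t in B, ‖ZZ S t ^ j‖ ^ 2 ≤ ∫ t in (-T)..T, ‖ZZ S t ^ j‖ ^ 2 := by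
    rw [intervalIntegral.integral_of_le (by linarith only [hT]), ← integral_Icc_eq_integral_Ioc]
    refine setIntegral_mono_set hgcont.integrableOn_Icc ?_ hBsub.eventuallyLE
    exact Filter.Eventually.of_forall fun t => by positivity
  have h3 : volume.real B * ((P : ℝ) / D) ^ j ≤
      (2 * T + 4 * (X : ℝ) * (1 + Real.log X)) * j.factorial := h1.trans (h2.trans hint)
  have h4 : volume.real B = (D / P) ^ j * (volume.real B * ((P : ℝ) / D) ^ j) := by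
    have h5 : (D / P) ^ j * ((P : ℝ) / D) ^ j = 1 := by
      rw [← mul_pow]
      have : D / P * (P / D) = 1 := by
        field_simp
      rw [this, one_pow]
    calc volume.real B = 1 * volume.real B := (one_mul _).symm
      _ = _ := by rw [← h5]; ring
  rw [h4]
  have h6 : (0 : ℝ) ≤ (D / P) ^ j := by positivity
  have h7 := mul_le_mul_of_nonneg_left h3 h6
  rw [hXr] at h7
  exact h7

end Pool.Agent.H35.W

end

section

/-!
# W BadN: the measure of the bad set, choice of the exponent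

Proof.  We may assume `c ≤ 1`.  Take `j = ⌈log T / log P⌉₊ ≥ 1`, so `T ≤ P^j` and `j ≤ log T/log P + 1`.  By `bad_m` (with `2T`, `D = L^E`):
`vol ≤ L^{Ej} P^{-j} (4 P^j + 4 · 2^j P^j (1 + j log(2P))) j! ≤ L^{Ej} 2^j · 16 L^2 · j!` (for `P ≤ x`, `T ≤ x^3`,
`j ≤ 3L + 1 ≤ 4L`, `1 + j log (2P) ≤ 2 · 4L · 2L`-like; adapt the constants) and `j! ≤ j^j ≤ (4L)^j`.  So
`vol ≤ C L^2 (8 L^{E+1})^j ≤ C L^2 L^{(E+2) j}` (`L ≥ 8`) and `L^{(E+2) j} ≤ L^{E+2} · L^{(E+2) log T/log P} ≤ L^{E+2} T^{(E+2)/b}`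
as `log P ≥ b log L`.  With `b ≥ 2 (E+2)/c` this is `L^{E+2} T^{c/2}` and `C L^{E+4} ≤ L^{E+5} ≤ T^{c/2}` for `T ≥ L^m`,
`m ≥ 2(E+5)/c`.
-/

set_option autoImplicit false

namespace Pool.Agent.H35.W

open Finset MeasureTheory
open Pool.Agent.H76.EHB

theorem bad_n (E : ℕ) (c : ℝ) (hc : 0 < c) : ∃ b m x0 : ℕ, ∀ x : ℕ, x0 ≤ x →
    ∀ (P : ℕ) (S : Finset ℕ) (T : ℝ), Real.log x ^ b ≤ P → P ≤ x → S ⊆ pb P →
      Real.log x ^ m ≤ T → T ≤ (x : ℝ) ^ (3 : ℕ) →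
      volume.real {t : ℝ | |t| ≤ 2 * T ∧ P / Real.log x ^ E < ‖ZZ S t‖ ^ 2} ≤ T ^ c := by
  obtain ⟨b, hb⟩ := exists_nat_ge (2 * ((E : ℝ) + 2) / c + 1)
  obtain ⟨m, hm⟩ := exists_nat_ge (2 * ((E : ℝ) + 5) / c + 1)
  obtain ⟨x0, hx0⟩ := exists_nat_ge (Real.exp 40)
  refine ⟨b, m, x0, fun x hx P S T hP hPx hS hT1 hT2 => ?_⟩
  have hxr : Real.exp 40 ≤ (x : ℝ) := hx0.trans (by exact_mod_cast hx)
  have hx1 : (0 : ℝ) < x := (Real.exp_pos 40).trans_le hxr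
  set L := Real.log x with hL
  have hL40 : 40 ≤ L := (Real.le_log_iff_exp_le hx1).2 hxr
  have hL0 : 0 < L := by linarith only [hL40]
  have hE0 : 0 ≤ 2 * ((E : ℝ) + 2) / c := by positivity
  have hE1 : 0 ≤ 2 * ((E : ℝ) + 5) / c := by positivity
  have hb1 : (1 : ℝ) ≤ b := by linarith only [hb, hE0]
  have hm1 : (1 : ℝ) ≤ m := by linarith only [hm, hE1]
  set l := Real.log L with hl
  have hl1 : 1 ≤ l := by
    rw [hl, Real.le_log_iff_exp_le hL0]
    have := Real.exp_one_lt_d9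
    linarith only [hL40, this]
  have hLp : ∀ k : ℕ, L ^ k = Real.exp (k * l) := by
    intro k
    rw [Real.exp_nat_mul, hl, Real.exp_log hL0]
  have hLge1 : ∀ k : ℕ, 1 ≤ L ^ k := fun k => one_le_pow₀ (by linarith only [hL40])
  have hP1 : (1 : ℝ) ≤ P := (hLge1 b).trans hP
  have hP0 : (0 : ℝ) < P := by linarith only [hP1]
  have hPn : 1 ≤ P := by exact_mod_cast hP1
  have hT0 : 0 < T := lt_of_lt_of_le (by linarith only [hLge1, hLge1 m]) hT1
  have hlP : b * l ≤ Real.log P := by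
    rw [Real.le_log_iff_exp_le hP0, ← hLp]
    exact hP
  have hlT : m * l ≤ Real.log T := by
    rw [Real.le_log_iff_exp_le hT0, ← hLp]
    exact hT1
  have hlT2 : Real.log T ≤ 3 * L := by
    have h := Real.log_le_log hT0 hT2
    rw [Real.log_pow] at h
    push_cast at h
    exact h
  have hlP1 : 1 ≤ Real.log P := by nlinarith only [hb, hE0, hlP, hl1]
  have hlP0 : 0 < Real.log P := by linarith only [hlP1]
  have hlT0 : 0 ≤ Real.log T := le_trans (by positivity) hlT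
  set r := Real.log T / Real.log P with hr
  have hr0 : 0 ≤ r := div_nonneg hlT0 hlP0.le
  obtain ⟨j, hj⟩ : ∃ j, j = ⌈r⌉₊ := ⟨_, rfl⟩
  have hj1 : r ≤ j := hj ▸ Nat.le_ceil r
  have hj2 : (j : ℝ) ≤ r + 1 := hj ▸ (Nat.ceil_lt_add_one hr0).le
  have hrL : r ≤ 3 * L := by
    rw [hr, div_le_iff₀ hlP0]
    nlinarith only [hlT2, hlP1, hL40]
  have hj4 : (j : ℝ) ≤ 4 * L := by linarith only [hL40, hj2, hrL]
  have hTP : T ≤ (P : ℝ) ^ j := by
    rw [← Real.log_le_log_iff hT0 (by positivity), Real.log_pow]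
    have : r * Real.log P ≤ j * Real.log P := mul_le_mul_of_nonneg_right hj1 hlP0.le
    rw [hr, div_mul_cancel₀ _ hlP0.ne'] at this
    exact this
  have h2P : Real.log (2 * P) ≤ 2 * L := by
    have h1 : (2 * P : ℝ) ≤ (x : ℝ) ^ 2 := by
      have h2 : (2 : ℝ) ≤ x := by
        have := Real.add_one_le_exp (40 : ℝ)
        linarith only [hxr, this]
      have h3 : (P : ℝ) ≤ x := by exact_mod_cast hPx
      nlinarith only [h3, h2]
    have h := Real.log_le_log (by positivity) h1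
    rw [Real.log_pow] at h
    push_cast at h
    exact h
  have hmain := bad_m P j S (2 * T) (L ^ E) hPn hS (by positivity) (by positivity)
  refine hmain.trans ?_
  have h2j : (1 : ℝ) ≤ 2 ^ j := one_le_pow₀ (by norm_num)
  have hPj : (0 : ℝ) < (P : ℝ) ^ j := by positivity
  have hlog : Real.log ((2 * P : ℝ) ^ j) ≤ 8 * L ^ 2 := by
    rw [Real.log_pow]
    have h1 : 0 ≤ Real.log (2 * (P : ℝ)) := Real.log_nonneg (by linarith only [hP1])
    calc (j : ℝ) * Real.log (2 * P) ≤ (4 * L) * (2 * L) :=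
          mul_le_mul hj4 h2P h1 (by positivity)
      _ = 8 * L ^ 2 := by ring
  have hX : 2 * (2 * T) + 4 * (2 * P : ℝ) ^ j * (1 + Real.log ((2 * P : ℝ) ^ j)) ≤
      (P : ℝ) ^ j * (2 ^ j * (40 * L ^ 2)) := by
    have h1 : 2 * (2 * T) ≤ 4 * ((P : ℝ) ^ j * 2 ^ j) := by
      have h6 : (P : ℝ) ^ j * 1 ≤ (P : ℝ) ^ j * 2 ^ j := mul_le_mul_of_nonneg_left h2j hPj.le
      linarith only [hTP, h6]
    have h2 : 4 * (2 * P : ℝ) ^ j * (1 + Real.log ((2 * P : ℝ) ^ j)) ≤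
        4 * ((P : ℝ) ^ j * 2 ^ j) * (1 + 8 * L ^ 2) := by
      rw [mul_pow, mul_comm ((2 : ℝ) ^ j)]
      refine mul_le_mul_of_nonneg_left ?_ (by positivity)
      rw [mul_pow, mul_comm ((2 : ℝ) ^ j)] at hlog
      linarith only [hlog]
    have h3 : 0 < (P : ℝ) ^ j * 2 ^ j := by positivity
    have h4 : (1 : ℝ) ≤ L ^ 2 := hLge1 2
    refine (add_le_add h1 h2).trans ?_
    have h5 : 4 * ((P : ℝ) ^ j * 2 ^ j) + 4 * ((P : ℝ) ^ j * 2 ^ j) * (1 + 8 * L ^ 2) =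
        ((P : ℝ) ^ j * 2 ^ j) * (8 + 32 * L ^ 2) := by ring
    rw [h5, ← mul_assoc ((P : ℝ) ^ j)]
    exact mul_le_mul_of_nonneg_left (by linarith only [h4]) h3.le
  have hfac : (j.factorial : ℝ) ≤ (4 * L) ^ j := by
    have h1 : (j.factorial : ℝ) ≤ (j : ℝ) ^ j := by exact_mod_cast Nat.factorial_le_pow j
    exact h1.trans (pow_le_pow_left₀ (Nat.cast_nonneg _) hj4 j)
  have hstep : (L ^ E / P) ^ j * ((2 * (2 * T) + 4 * (2 * P : ℝ) ^ j * (1 + Real.log ((2 * P : ℝ) ^ j)))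
      * j.factorial) ≤ 40 * L ^ 2 * (8 * L ^ (E + 1)) ^ j := by
    have h0 : 0 ≤ (L ^ E / P) ^ j := by positivity
    have h1 : (2 * (2 * T) + 4 * (2 * P : ℝ) ^ j * (1 + Real.log ((2 * P : ℝ) ^ j))) * j.factorial ≤
        ((P : ℝ) ^ j * (2 ^ j * (40 * L ^ 2))) * (4 * L) ^ j :=
      mul_le_mul hX hfac (Nat.cast_nonneg _) (by positivity)
    refine (mul_le_mul_of_nonneg_left h1 h0).trans (le_of_eq ?_)
    have e1 : (8 * L ^ (E + 1)) ^ j = (L ^ E) ^ j * 2 ^ j * (4 * L) ^ j := by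
      rw [← mul_pow, ← mul_pow]
      congr 1
      ring
    rw [e1, div_pow]
    field_simp
  refine hstep.trans ?_
  have h8 : (8 * L ^ (E + 1)) ^ j ≤ (L ^ (E + 2)) ^ j := by
    refine pow_le_pow_left₀ (by positivity) ?_ j
    have e1 : L ^ (E + 2) = L * L ^ (E + 1) := by ring
    rw [e1]
    exact mul_le_mul_of_nonneg_right (by linarith only [hL40]) (by positivity)
  have h40 : 40 * L ^ 2 ≤ L ^ 3 := by
    have e1 : L ^ 3 = L * L ^ 2 := by ring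
    rw [e1]
    exact mul_le_mul_of_nonneg_right hL40 (by positivity)
  refine (mul_le_mul h40 h8 (by positivity) (by positivity)).trans ?_
  rw [← pow_mul, ← pow_add, hLp, Real.rpow_def_of_pos hT0, Real.exp_le_exp]
  have hf1 : l * ((E : ℝ) + 5) ≤ c / 2 * Real.log T := by
    have h1 : ((E : ℝ) + 5) ≤ c / 2 * m := by
      have h2 : 2 * ((E : ℝ) + 5) / c ≤ m := by linarith only [hm]
      rw [div_le_iff₀ hc] at h2
      linarith only [h2]
    calc l * ((E : ℝ) + 5) ≤ l * (c / 2 * m) := mul_le_mul_of_nonneg_left h1 (by linarith only [hl1])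
      _ = c / 2 * (m * l) := by ring
      _ ≤ c / 2 * Real.log T := mul_le_mul_of_nonneg_left hlT (by linarith only [hc])
  have hf2 : ((E : ℝ) + 2) * (l * r) ≤ c / 2 * Real.log T := by
    have h1 : l * r ≤ Real.log T / b := by
      rw [hr, le_div_iff₀ (by linarith only [hb, hE0]), mul_div_assoc', div_mul_eq_mul_div, div_le_iff₀ hlP0]
      calc l * Real.log T * b = Real.log T * (b * l) := by ring
        _ ≤ Real.log T * Real.log P := mul_le_mul_of_nonneg_left hlP hlT0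
    have h3 : ((E : ℝ) + 2) ≤ c / 2 * b := by
      have h2 : 2 * ((E : ℝ) + 2) / c ≤ b := by linarith only [hb]
      rw [div_le_iff₀ hc] at h2
      linarith only [h2]
    have h4 : 0 ≤ Real.log T / b := div_nonneg hlT0 (by linarith only [hb, hE0])
    calc ((E : ℝ) + 2) * (l * r) ≤ ((E : ℝ) + 2) * (Real.log T / b) :=
          mul_le_mul_of_nonneg_left h1 (by positivity)
      _ ≤ (c / 2 * b) * (Real.log T / b) := mul_le_mul_of_nonneg_right h3 h4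
      _ = c / 2 * Real.log T := by
          have : (b : ℝ) ≠ 0 := by linarith only [hb, hE0]
          field_simp
  push_cast
  have hf3 : ((E : ℝ) + 2) * (l * j) ≤ ((E : ℝ) + 2) * (l * (r + 1)) :=
    mul_le_mul_of_nonneg_left (mul_le_mul_of_nonneg_left hj2 (by linarith only [hl1])) (by positivity)
  have e1 : ((3 : ℝ) + ((E : ℝ) + 2) * j) * l = 3 * l + ((E : ℝ) + 2) * (l * j) := by ring
  have e2 : ((E : ℝ) + 2) * (l * (r + 1)) = ((E : ℝ) + 2) * (l * r) + ((E : ℝ) + 2) * l := by ring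
  have e3 : l * ((E : ℝ) + 5) = 3 * l + ((E : ℝ) + 2) * l := by ring
  rw [e1]
  linarith only [hf1, hf2, hf3]

end Pool.Agent.H35.W

end

section

/-!
# EHB Planch: Plancherel for integrable square integrable functions

Route A: Mathlib's `MeasureTheory.Lp.norm_fourier_eq` (`Mathlib/Analysis/Fourier/LpSpace.lean`) plus the identification of
the `L²` Fourier transform with the integral: approximate `G` by Schwartz functions simultaneously in `L¹` and `L²`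
(density, `SchwartzMap.toLp_fourier_eq`); the transforms converge uniformly and in `L²`, so the limits agree a.e.
Route B (elementary).  `Ĝ(ξ) = ∫ G(u) e(-uξ) du` is bounded and continuous.  For `ε > 0`
`∫ |Ĝ(ξ)|^2 exp(-π (ε ξ)^2) dξ = ∫∫ G(u) conj G(v) (1/ε) exp(-π ((u-v)/ε)^2) du dv` (Fubini and the Gaussian transform, `gft2` scaled).
The right side is `∫ c(w) (1/ε) exp(-π (w/ε)^2) dw` with `c(w) = ∫ G(u + w) conj G(u) du`, a bounded continuous function of `w`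
(continuity of translation in `L²`), `c(0) = ∫ |G|^2`, so it tends to `∫|G|^2` as `ε → 0` (for example by
`Real.tendsto_integral_gaussian_smul'` or directly).  The left side increases to `∫ |Ĝ|^2` (monotone convergence), which is
therefore finite.
-/

set_option autoImplicit false

namespace Pool.Agent.H76.EHB

open Finset MeasureTheory
open Pool.Agent.H91.PK (ee)
open scoped FourierTransform ContDiff SchwartzMap

private theorem planch_eq (G : ℝ → ℂ) (ξ : ℝ) :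
    ∫ u, G u * ee (-(u * ξ)) = FourierTransform.fourier G ξ := by
  rw [Real.fourier_real_eq_integral_exp_smul]
  apply integral_congr_ae
  filter_upwards with u
  rw [ee, smul_eq_mul, mul_comm]
  congr 2
  push_cast
  ring

private theorem planch_continuous (G : ℝ → ℂ) (h1 : Integrable G) :
    Continuous (FourierTransform.fourier G : ℝ → ℂ) :=
  VectorFourier.fourierIntegral_continuous Real.continuous_fourierChar
    (by exact continuous_inner) h1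

private theorem planch_ae (G : ℝ → ℂ) (h1 : Integrable G) (h2 : MemLp G 2) :
    (FourierTransform.fourier (h2.toLp G) : Lp (α := ℝ) ℂ 2) =ᵐ[volume]
      (FourierTransform.fourier G : ℝ → ℂ) := by
  apply ae_eq_of_integral_contDiff_smul_eq
  · exact (Lp.memLp _).locallyIntegrable one_le_two
  · exact (planch_continuous G h1).locallyIntegrable
  · intro g g_smooth g_cpt
    have hg₁ : HasCompactSupport (Complex.ofRealCLM ∘ g) := g_cpt.comp_left rfl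
    have hg₂ : ContDiff ℝ ∞ (Complex.ofRealCLM ∘ g) := by fun_prop
    set φ : 𝓢(ℝ, ℂ) := hg₁.toSchwartzMap hg₂ with hφ
    have e1 : ∫ x, g x • (FourierTransform.fourier (h2.toLp G) : Lp (α := ℝ) ℂ 2) x
        = Lp.toTemperedDistribution (FourierTransform.fourier (h2.toLp G) : Lp (α := ℝ) ℂ 2) φ := by
      rw [Lp.toTemperedDistribution_apply]
      rfl
    have e2 : Lp.toTemperedDistribution (FourierTransform.fourier (h2.toLp G) : Lp (α := ℝ) ℂ 2) φ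
        = Lp.toTemperedDistribution (h2.toLp G) (FourierTransform.fourier φ) := by
      rw [← Lp.fourier_toTemperedDistribution_eq]
      rfl
    have e3 : Lp.toTemperedDistribution (h2.toLp G) (FourierTransform.fourier φ)
        = ∫ x, (FourierTransform.fourier φ : 𝓢(ℝ, ℂ)) x • G x := by
      rw [Lp.toTemperedDistribution_apply]
      apply integral_congr_ae
      filter_upwards [h2.coeFn_toLp] with x hx
      rw [hx]
    have e4 : ∫ x, (FourierTransform.fourier φ : 𝓢(ℝ, ℂ)) x • G x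
        = ∫ x, φ x • (FourierTransform.fourier G : ℝ → ℂ) x := by
      have h := VectorFourier.integral_fourierIntegral_smul_eq_flip (L := innerₗ ℝ)
        (μ := volume) (ν := volume) (f := (φ : ℝ → ℂ)) (g := G)
        Real.continuous_fourierChar continuous_inner φ.integrable h1
      simpa using! h
    rw [e1, e2, e3, e4]
    rfl

private theorem planch_sq (f : Lp (α := ℝ) ℂ 2) : ‖f‖ ^ 2 = ∫ u, ‖f u‖ ^ 2 := by
  have h : (RCLike.re (inner ℂ f f) : ℝ) = ‖f‖ ^ 2 := by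
    rw [inner_self_eq_norm_sq]
  rw [← h, L2.inner_def]
  have h2 : ∫ a, (inner ℂ (f a) (f a) : ℂ) = ((∫ u, ‖f u‖ ^ 2 : ℝ) : ℂ) := by
    rw [← integral_complex_ofReal]
    apply integral_congr_ae
    filter_upwards with u
    rw [inner_self_eq_norm_sq_to_K]
    push_cast
    rfl
  rw [h2]
  exact Complex.ofReal_re _

theorem planch (G : ℝ → ℂ) (h1 : Integrable G) (h2 : MemLp G 2) :
    Integrable (fun ξ : ℝ => ‖∫ u, G u * ee (-(u * ξ))‖ ^ 2) ∧
      ∫ ξ : ℝ, ‖∫ u, G u * ee (-(u * ξ))‖ ^ 2 = ∫ u, ‖G u‖ ^ 2 := by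
  have hae := planch_ae G h1 h2
  have hmem : MemLp (FourierTransform.fourier G : ℝ → ℂ) 2 :=
    (memLp_congr_ae hae).1 (Lp.memLp _)
  have hfun : (fun ξ : ℝ => ‖∫ u, G u * ee (-(u * ξ))‖ ^ 2)
      = fun ξ : ℝ => ‖(FourierTransform.fourier G : ℝ → ℂ) ξ‖ ^ 2 := by
    funext ξ
    rw [planch_eq]
  rw [hfun]
  refine ⟨hmem.integrable_norm_pow (by norm_num), ?_⟩
  have e1 : ∫ ξ : ℝ, ‖(FourierTransform.fourier G : ℝ → ℂ) ξ‖ ^ 2
      = ∫ ξ : ℝ, ‖(FourierTransform.fourier (h2.toLp G) : Lp (α := ℝ) ℂ 2) ξ‖ ^ 2 := by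
    apply integral_congr_ae
    filter_upwards [hae] with ξ hξ
    rw [hξ]
  have e2 : ∫ u, ‖G u‖ ^ 2 = ∫ u, ‖(h2.toLp G) u‖ ^ 2 := by
    apply integral_congr_ae
    filter_upwards [h2.coeFn_toLp] with u hu
    rw [hu]
  rw [e1, e2, ← planch_sq, ← planch_sq, Lp.norm_fourier_eq]

end Pool.Agent.H76.EHB

end

section

/-!
# EHB Jred: from `JJ` to Mellin transforms

`gg f N α a Θ s` (`s = 1` or `-1`) is `FF(α + s θ) e(-a s θ)` on `(0, Θ]`, zero elsewhere.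
For `0 < y ≤ Y` (`K Y ≤ Θ`) the inner sum of `JJ` is `∑_{k ∈ S+} gg_{+}(k y) + ∑_{k ∈ S-} gg_{-}(k y)` with
`S+ = {1 ≤ k ≤ K : d ∣ k - l}`, `S- = {1 ≤ k ≤ K : d ∣ -k - l}` (from `k < 0`); for `y = -z < 0` it is
`∑_{S+} gg_{-}(k z) + ∑_{S-} gg_{+}(k z)`.  Use `|u+v|^2 ≤ 2|u|^2 + 2|v|^2` and enlarge `(0, Y]` to `(0, ∞)`
(integrable, since the functions are bounded with bounded support).
-/

set_option autoImplicit false

namespace Pool.Agent.H76.EHB

open Finset MeasureTheory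
open Pool.Agent.H91.PK (ee)

/-- `∫_0^∞ |∑_{k ∈ S} g(k y)|^2 dy` -/
noncomputable def II (S : Finset ℕ) (g : ℝ → ℂ) : ℝ :=
  ∫ y in Set.Ioi (0 : ℝ), ‖∑ k ∈ S, g (k * y)‖ ^ 2

end Pool.Agent.H76.EHB

end

section

/-!
# W MellE: Mellin-Plancherel for exponentially decreasing functions

Same proofs as `EHB.mel_planch`, `mel_sum`, `int_sum_sq` (file `H76/EHB/Mell.lean`: copy it): there `g` is bounded with
bounded support; the only use is that `GG g u = exp(-u/2) g(exp(-u))` is integrable and in `L^2`.  Now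
`‖g θ‖ ≤ B exp(-b θ)` for `θ > 0` gives `‖GG g u‖ ≤ B exp(-u/2) exp(-b exp(-u))`, integrable and square integrable.
-/

set_option autoImplicit false

namespace Pool.Agent.H35.W

open Finset MeasureTheory
open Pool.Agent.H76.EHB
open Pool.Agent.H91.PK (ee)

private theorem melle_integrable {E : Type*} [NormedAddCommGroup E] {f : ℝ → E}
    (hf : AEStronglyMeasurable f) {c C C' : ℝ} (hc : 0 < c)
    (h1 : ∀ u, ‖f u‖ ≤ C * Real.exp (-c * u)) (h2 : ∀ u, ‖f u‖ ≤ C' * Real.exp (c * u)) :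
    Integrable f := by
  rw [← integrableOn_univ, ← Set.Iic_union_Ioi (a := (0 : ℝ))]
  refine IntegrableOn.union ?_ ?_
  · exact Integrable.mono' ((integrableOn_exp_mul_Iic hc 0).const_mul C') hf.restrict
      (Filter.Eventually.of_forall h2)
  · exact Integrable.mono' ((integrableOn_exp_mul_Ioi (neg_lt_zero.2 hc) 0).const_mul C) hf.restrict
      (Filter.Eventually.of_forall h1)

private theorem melle_subst (h : ℝ → ℝ) :
    ∫ θ in Set.Ioi (0 : ℝ), h θ = ∫ u, Real.exp (-u) * h (Real.exp (-u)) := by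
  have him : (Real.exp ∘ Neg.neg) '' (Set.univ : Set ℝ) = Set.Ioi 0 := by
    rw [Set.image_comp, Set.image_univ_of_surjective neg_surjective, Set.image_univ, Real.range_exp]
  have hder : ∀ x ∈ (Set.univ : Set ℝ),
      HasDerivWithinAt (Real.exp ∘ Neg.neg) (-Real.exp (-x)) Set.univ x := fun x _ =>
    mul_neg_one (Real.exp (-x)) ▸
      ((Real.hasDerivAt_exp (-x)).comp x (hasDerivAt_neg x)).hasDerivWithinAt
  have hinj : Set.InjOn (Real.exp ∘ Neg.neg) (Set.univ : Set ℝ) :=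
    (Real.exp_injective.comp neg_injective).injOn
  rw [← him, integral_image_eq_integral_abs_deriv_smul MeasurableSet.univ hder hinj]
  simp

/-- the function `exp(-u/2) g(exp(-u))` -/
private noncomputable def GG (g : ℝ → ℂ) (u : ℝ) : ℂ :=
  (Real.exp (-(1 / 2) * u) : ℝ) • g (Real.exp (-u))

private theorem GG_measurable (g : ℝ → ℂ) (hg : Measurable g) : Measurable (GG g) := by
  unfold GG
  exact (by fun_prop : Measurable fun u : ℝ => (Real.exp (-(1 / 2) * u) : ℝ)).smul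
    (hg.comp (by fun_prop))

private theorem GG_norm (g : ℝ → ℂ) (u : ℝ) :
    ‖GG g u‖ = Real.exp (-(1 / 2) * u) * ‖g (Real.exp (-u))‖ := by
  unfold GG
  rw [norm_smul, Real.norm_of_nonneg (Real.exp_pos _).le]

private theorem GG_norm_sq (g : ℝ → ℂ) (u : ℝ) :
    ‖GG g u‖ ^ 2 = Real.exp (-u) * ‖g (Real.exp (-u))‖ ^ 2 := by
  rw [GG_norm, mul_pow, ← Real.exp_nat_mul]
  congr 2
  push_cast
  ring

private theorem melle_B (g : ℝ → ℂ) {B b : ℝ} (hB : ∀ θ, 0 < θ → ‖g θ‖ ≤ B * Real.exp (-(b * θ))) :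
    0 ≤ B := by
  have h := (norm_nonneg _).trans (hB 1 one_pos)
  exact nonneg_of_mul_nonneg_left h (Real.exp_pos _)

private theorem melle_exp {b : ℝ} (hb : 0 < b) (θ : ℝ) (hθ : 0 < θ) :
    Real.exp (-(b * θ)) ≤ 1 / (b * θ) := by
  have h1 : 0 < b * θ := mul_pos hb hθ
  have h2 : b * θ ≤ Real.exp (b * θ) := by
    have := Real.add_one_le_exp (b * θ)
    linarith only [this]
  rw [Real.exp_neg, ← one_div]
  exact one_div_le_one_div_of_le h1 h2

private theorem GG_le1 (g : ℝ → ℂ) {B b : ℝ} (hb : 0 < b)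
    (hB : ∀ θ, 0 < θ → ‖g θ‖ ≤ B * Real.exp (-(b * θ))) (u : ℝ) :
    ‖GG g u‖ ≤ B * Real.exp (-(1 / 2) * u) := by
  rw [GG_norm, mul_comm B]
  refine mul_le_mul_of_nonneg_left ?_ (Real.exp_pos _).le
  refine (hB _ (Real.exp_pos _)).trans ?_
  have h1 : Real.exp (-(b * Real.exp (-u))) ≤ 1 := by
    rw [Real.exp_le_one_iff]
    have := mul_pos hb (Real.exp_pos (-u))
    linarith only [this]
  calc B * Real.exp (-(b * Real.exp (-u))) ≤ B * 1 :=
        mul_le_mul_of_nonneg_left h1 (melle_B g hB)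
    _ = B := mul_one B

private theorem GG_le2 (g : ℝ → ℂ) {B b : ℝ} (hb : 0 < b)
    (hB : ∀ θ, 0 < θ → ‖g θ‖ ≤ B * Real.exp (-(b * θ))) (u : ℝ) :
    ‖GG g u‖ ≤ B / b * Real.exp ((1 / 2) * u) := by
  rw [GG_norm]
  have h1 : ‖g (Real.exp (-u))‖ ≤ B * (1 / (b * Real.exp (-u))) :=
    (hB _ (Real.exp_pos _)).trans
      (mul_le_mul_of_nonneg_left (melle_exp hb _ (Real.exp_pos _)) (melle_B g hB))
  refine (mul_le_mul_of_nonneg_left h1 (Real.exp_pos _).le).trans (le_of_eq ?_)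
  have h2 : Real.exp ((1 / 2) * u) = Real.exp (-(1 / 2) * u) * Real.exp u := by
    rw [← Real.exp_add]
    congr 1
    ring
  have h3 : Real.exp (-u) = (Real.exp u)⁻¹ := Real.exp_neg u
  rw [h2, h3]
  have h4 := (Real.exp_pos u).ne'
  field_simp

private theorem GG_integrable (g : ℝ → ℂ) (hg : Measurable g) (B b : ℝ) (hb : 0 < b)
    (hB : ∀ θ, 0 < θ → ‖g θ‖ ≤ B * Real.exp (-(b * θ))) : Integrable (GG g) :=
  melle_integrable (GG_measurable g hg).aestronglyMeasurable (by norm_num : (0 : ℝ) < 1 / 2)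
    (GG_le1 g hb hB) (GG_le2 g hb hB)

private theorem GG_memLp (g : ℝ → ℂ) (hg : Measurable g) (B b : ℝ) (hb : 0 < b)
    (hB : ∀ θ, 0 < θ → ‖g θ‖ ≤ B * Real.exp (-(b * θ))) : MemLp (GG g) 2 := by
  rw [memLp_two_iff_integrable_sq_norm (GG_measurable g hg).aestronglyMeasurable]
  refine melle_integrable ((GG_measurable g hg).norm.pow_const 2).aestronglyMeasurable
    (c := 1) (C := B ^ 2) (C' := (B / b) ^ 2) one_pos (fun u => ?_) (fun u => ?_)
  · rw [Real.norm_of_nonneg (sq_nonneg _)]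
    refine (pow_le_pow_left₀ (norm_nonneg _) (GG_le1 g hb hB u) 2).trans (le_of_eq ?_)
    rw [mul_pow, ← Real.exp_nat_mul]
    congr 2
    push_cast
    ring
  · rw [Real.norm_of_nonneg (sq_nonneg _)]
    refine (pow_le_pow_left₀ (norm_nonneg _) (GG_le2 g hb hB u) 2).trans (le_of_eq ?_)
    rw [mul_pow, ← Real.exp_nat_mul]
    congr 2
    push_cast
    ring

private theorem melle_Mel_eq (g : ℝ → ℂ) (t : ℝ) :
    Mel g t = ∫ u, GG g u * ee (-(u * (-(1 / (2 * Real.pi)) * t))) := by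
  unfold Mel
  rw [mellin_eq_fourier, Real.fourier_real_eq_integral_exp_smul]
  refine integral_congr_ae (Filter.Eventually.of_forall fun u => ?_)
  have hre : ((1 / 2 : ℂ) - t * Complex.I).re = 1 / 2 := by
    simp
  have him : ((1 / 2 : ℂ) - t * Complex.I).im = -t := by
    simp
  simp only [hre, him]
  rw [smul_eq_mul, mul_comm]
  unfold GG ee
  congr 2
  push_cast
  ring

theorem mel_planch_e (g : ℝ → ℂ) (hg : Measurable g) (B b : ℝ) (hb : 0 < b)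
    (hB : ∀ θ, 0 < θ → ‖g θ‖ ≤ B * Real.exp (-(b * θ))) :
    Integrable (fun t => ‖Mel g t‖ ^ 2) ∧
      ∫ t, ‖Mel g t‖ ^ 2 = 2 * Real.pi * ∫ θ in Set.Ioi (0 : ℝ), ‖g θ‖ ^ 2 := by
  obtain ⟨h1, h2⟩ := planch (GG g) (GG_integrable g hg B b hb hB) (GG_memLp g hg B b hb hB)
  have hpi : (0 : ℝ) < 2 * Real.pi := by positivity
  have ha : -(1 / (2 * Real.pi)) ≠ 0 := neg_ne_zero.2 (by positivity)
  have hfun : (fun t => ‖Mel g t‖ ^ 2) =
      fun t => (fun ξ : ℝ => ‖∫ u, GG g u * ee (-(u * ξ))‖ ^ 2) (-(1 / (2 * Real.pi)) * t) := by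
    funext t
    rw [melle_Mel_eq]
  rw [hfun]
  refine ⟨h1.comp_mul_left' ha, ?_⟩
  rw [Measure.integral_comp_mul_left
    (fun ξ : ℝ => ‖∫ u, GG g u * ee (-(u * ξ))‖ ^ 2) (-(1 / (2 * Real.pi))), h2, smul_eq_mul]
  congr 1
  · rw [inv_neg, one_div, inv_inv, abs_neg, abs_of_pos hpi]
  · rw [melle_subst (fun θ => ‖g θ‖ ^ 2)]
    exact integral_congr_ae (Filter.Eventually.of_forall fun u => GG_norm_sq g u)

private theorem melle_conv (g : ℝ → ℂ) (hg : Measurable g) (B b : ℝ) (hb : 0 < b)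
    (hB : ∀ θ, 0 < θ → ‖g θ‖ ≤ B * Real.exp (-(b * θ))) (t : ℝ) :
    MellinConvergent g (1 / 2 - t * Complex.I) := by
  unfold MellinConvergent
  have hmeas : AEStronglyMeasurable
      (fun θ : ℝ => (θ : ℂ) ^ ((1 / 2 : ℂ) - t * Complex.I - 1) • g θ)
      (volume.restrict (Set.Ioi 0)) := by
    have hc : AEStronglyMeasurable (fun θ : ℝ => (θ : ℂ) ^ ((1 / 2 : ℂ) - t * Complex.I - 1))
        (volume.restrict (Set.Ioi 0)) := ?_
    · exact hc.smul hg.aestronglyMeasurable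
    refine ContinuousOn.aestronglyMeasurable ?_ measurableSet_Ioi
    intro θ hθ
    exact (Complex.continuousAt_ofReal_cpow_const θ _ (Or.inr (ne_of_gt hθ))).continuousWithinAt
  have hI : IntegrableOn (fun θ : ℝ => θ ^ (-(1 / 2) : ℝ) * Real.exp (-b * θ ^ (1 : ℝ)) * B)
      (Set.Ioi 0) :=
    (integrableOn_rpow_mul_exp_neg_mul_rpow (by norm_num) one_pos hb).mul_const B
  refine Integrable.mono' hI hmeas ?_
  refine (ae_restrict_iff' measurableSet_Ioi).2 (Filter.Eventually.of_forall fun θ hθ => ?_)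
  have hθ' : (0 : ℝ) < θ := hθ
  rw [norm_smul, Complex.norm_cpow_eq_rpow_re_of_pos hθ']
  have hre : ((1 / 2 : ℂ) - t * Complex.I - 1).re = -(1 / 2) := by
    simp
    norm_num
  rw [hre, Real.rpow_one, mul_assoc]
  refine mul_le_mul_of_nonneg_left ?_ (Real.rpow_nonneg hθ'.le _)
  refine (hB θ hθ').trans (le_of_eq ?_)
  rw [mul_comm, neg_mul]

private theorem melle_sum (S : Finset ℕ) (hS : ∀ k ∈ S, 1 ≤ k) (g : ℝ → ℂ) (hg : Measurable g)
    (B b : ℝ) (hb : 0 < b) (hB : ∀ θ, 0 < θ → ‖g θ‖ ≤ B * Real.exp (-(b * θ))) (t : ℝ) :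
    Mel (fun y => ∑ k ∈ S, g (k * y)) t = ZZ S t * Mel g t := by
  unfold Mel ZZ
  have hconv := melle_conv g hg B b hb hB t
  rw [sum_mul]
  have h1 : mellin (fun y => ∑ k ∈ S, g (k * y)) (1 / 2 - t * Complex.I) =
      ∑ k ∈ S, mellin (fun y => g (k * y)) (1 / 2 - t * Complex.I) := by
    unfold mellin
    simp only [smul_sum]
    refine integral_finsetSum S fun k hk => ?_
    have hk0 : (0 : ℝ) < k := by exact_mod_cast hS k hk
    exact (MellinConvergent.comp_mul_left hk0).2 hconv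
  rw [h1]
  refine sum_congr rfl fun k hk => ?_
  have hk0 : (0 : ℝ) < k := by exact_mod_cast hS k hk
  rw [mellin_comp_mul_left g _ hk0, smul_eq_mul]
  congr 1
  push_cast
  congr 1
  ring

theorem int_sum_sq_e (S : Finset ℕ) (hS : ∀ k ∈ S, 1 ≤ k) (g : ℝ → ℂ) (hg : Measurable g) (B b : ℝ)
    (hb : 0 < b) (hB : ∀ θ, 0 < θ → ‖g θ‖ ≤ B * Real.exp (-(b * θ))) :
    Integrable (fun t => ‖ZZ S t‖ ^ 2 * ‖Mel g t‖ ^ 2) ∧
      II S g = 1 / (2 * Real.pi) * ∫ t, ‖ZZ S t‖ ^ 2 * ‖Mel g t‖ ^ 2 := by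
  have hfun : (fun t => ‖ZZ S t‖ ^ 2 * ‖Mel g t‖ ^ 2) =
      fun t => ‖Mel (fun y => ∑ k ∈ S, g (k * y)) t‖ ^ 2 := by
    funext t
    rw [melle_sum S hS g hg B b hb hB t, norm_mul, mul_pow]
  have hm : Measurable (fun y : ℝ => ∑ k ∈ S, g (k * y)) :=
    Finset.measurable_sum S fun k _ => hg.comp (by fun_prop)
  have hB0 := melle_B g hB
  have hbd : ∀ y : ℝ, 0 < y → ‖∑ k ∈ S, g (k * y)‖ ≤ S.card * B * Real.exp (-(b * y)) := by
    intro y hy
    refine (norm_sum_le _ _).trans ?_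
    have h3 : ∑ k ∈ S, ‖g ((k : ℝ) * y)‖ ≤ ∑ _k ∈ S, B * Real.exp (-(b * y)) := by
      refine sum_le_sum fun k hk => ?_
      have hk1 : (1 : ℝ) ≤ k := by exact_mod_cast hS k hk
      have hky : y ≤ k * y := by nlinarith only [hy, hk1]
      refine (hB _ (lt_of_lt_of_le hy hky)).trans (mul_le_mul_of_nonneg_left ?_ hB0)
      apply Real.exp_le_exp.2
      have := mul_le_mul_of_nonneg_left hky hb.le
      linarith only [this]
    refine h3.trans (le_of_eq ?_)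
    rw [sum_const, nsmul_eq_mul, mul_assoc]
  obtain ⟨h1, h2⟩ := mel_planch_e (fun y => ∑ k ∈ S, g (k * y)) hm (S.card * B) b hb hbd
  rw [hfun]
  refine ⟨h1, ?_⟩
  rw [h2]
  unfold II
  have hpi : (2 * Real.pi) ≠ 0 := by positivity
  field_simp

end Pool.Agent.H35.W

end

section

/-!
# MU MelM: the Mellin transform for small `t`: change of the damping

Proof.  `mel_ge` (`H35/W/MelG.lean`): `Mel (ge g N 0 0 Θ s) t = Γ(1/2 - i t) ∑_{n ≤ N} g n · (1/Θ - 2 π i s n)^{-(1/2 - i t)}` (`ee(0) = 1`), `|Γ(1/2 - i t)| ≤ 3 e^{-π|t|/2}`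
(`gamma_half`).  For fixed `n ≥ 1` the function `F(σ) = (σ - 2 π i s n)^{-(1/2 - i t)}` (real `σ > 0`) has the derivative `-(1/2 - i t)(σ - 2 π i s n)^{-(3/2 - i t)}`, of norm
`≤ (1 + |t|) |w|^{-3/2} e^{π|t|/2}`, `|w| ≥ 2 π n` (compare `MelL_pow_norm` in `H76/SP/MelL.lean`; private, copy).  Mean value inequality on `[1/Θ, 1/Θ1]`
(`Convex.norm_image_sub_le_of_norm_hasDerivWithin_le`): `|F(1/Θ1) - F(1/Θ)| ≤ (1 + |t|)(2 π n)^{-3/2} e^{π|t|/2}/Θ1 ≤ (1 + |t|) e^{π|t|/2}/(M √M Θ1)` for `n > M`.  Sum over the at most `N`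
integers `n ∈ Ioc M N`.
-/

set_option autoImplicit false

namespace Pool.Agent.H76.MU

open Finset MeasureTheory
open Pool.Agent.H91.PK (ee)
open Pool.Agent.H76.EHB
open Pool.Agent.H35.W

private lemma MelM_pow_norm (w : ℂ) (t : ℝ) (hw : 0 < w.re) (b : ℝ) (hb : 0 < b) (hwb : b ≤ ‖w‖) :
    ‖w ^ (-(1 / 2 - t * Complex.I) - 1 : ℂ)‖
      ≤ (b * Real.sqrt b)⁻¹ * Real.exp (Real.pi * |t| / 2) := by
  have hw0 : w ≠ 0 := by rintro rfl; simp at hw
  have hn : 0 < ‖w‖ := norm_pos_iff.2 hw0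
  rw [Complex.norm_cpow_of_ne_zero hw0]
  have hre : (-(1 / 2 - t * Complex.I) - 1 : ℂ).re = -(1 + 1 / 2) := by simp; norm_num
  have him : (-(1 / 2 - t * Complex.I) - 1 : ℂ).im = t := by simp
  rw [hre, him, div_eq_mul_inv, ← Real.exp_neg, Real.rpow_neg hn.le, Real.rpow_add hn,
    Real.rpow_one, ← Real.sqrt_eq_rpow]
  apply mul_le_mul
  · apply inv_anti₀ (mul_pos hb (Real.sqrt_pos.2 hb))
    exact mul_le_mul hwb (Real.sqrt_le_sqrt hwb) (Real.sqrt_nonneg _) hn.le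
  · apply Real.exp_le_exp.2
    have h1 : |Complex.arg w| ≤ Real.pi / 2 := by
      rw [Complex.abs_arg_le_pi_div_two_iff]; exact hw.le
    calc -(Complex.arg w * t) ≤ |Complex.arg w * t| := neg_le_abs _
      _ = |Complex.arg w| * |t| := abs_mul _ _
      _ ≤ Real.pi / 2 * |t| := by gcongr
      _ = Real.pi * |t| / 2 := by ring
  · positivity
  · positivity

private noncomputable def MelM_F (n s t σ : ℝ) : ℂ :=
  ((σ : ℝ) - ((2 * Real.pi * s * (n - 0) : ℝ) : ℂ) * Complex.I : ℂ)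
    ^ (-(1 / 2 - t * Complex.I) : ℂ)

private lemma MelM_re (n s σ : ℝ) :
    ((σ : ℝ) - ((2 * Real.pi * s * (n - 0) : ℝ) : ℂ) * Complex.I : ℂ).re = σ := by
  simp only [Complex.sub_re, Complex.ofReal_re, Complex.re_ofReal_mul, Complex.I_re, mul_zero,
    sub_zero]

private lemma MelM_im (n s σ : ℝ) :
    ((σ : ℝ) - ((2 * Real.pi * s * (n - 0) : ℝ) : ℂ) * Complex.I : ℂ).im
      = -(2 * Real.pi * s * n) := by
  simp only [Complex.sub_im, Complex.ofReal_im, Complex.im_ofReal_mul, Complex.I_im, mul_one,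
    sub_zero, zero_sub]

private lemma MelM_deriv (n s t σ : ℝ) (hσ : 0 < σ) :
    HasDerivAt (fun v : ℝ => MelM_F n s t v)
      ((-(1 / 2 - t * Complex.I)) *
        ((σ : ℝ) - ((2 * Real.pi * s * (n - 0) : ℝ) : ℂ) * Complex.I : ℂ)
          ^ (-(1 / 2 - t * Complex.I) - 1 : ℂ)) σ := by
  have hsl : ((σ : ℝ) - ((2 * Real.pi * s * (n - 0) : ℝ) : ℂ) * Complex.I : ℂ)
      ∈ Complex.slitPlane := by
    left
    rw [MelM_re]; exact hσ
  have d1 : HasDerivAt (fun v : ℂ => v - ((2 * Real.pi * s * (n - 0) : ℝ) : ℂ) * Complex.I)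
      1 (σ : ℂ) := (hasDerivAt_id (σ : ℂ)).sub_const _
  have d2 := (d1.cpow_const (c := (-(1 / 2 - t * Complex.I) : ℂ)) hsl).comp_ofReal
  rw [mul_one] at d2
  exact d2

private lemma MelM_diff (n s t M Θ Θ1 : ℝ) (hs : s = 1 ∨ s = -1) (hΘ1 : 0 < Θ1)
    (hΘ : Θ1 ≤ Θ) (hM : 1 ≤ M) (hn : M ≤ n) :
    ‖MelM_F n s t (1 / Θ) - MelM_F n s t (1 / Θ1)‖
      ≤ (1 + |t|) * ((M * Real.sqrt M)⁻¹ * Real.exp (Real.pi * |t| / 2)) * (1 / Θ1) := by
  have hΘ0 : 0 < Θ := by linarith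
  have hle : 1 / Θ ≤ 1 / Θ1 := one_div_le_one_div_of_le hΘ1 hΘ
  have h0 : 0 < 1 / Θ := by positivity
  have hpi : 1 ≤ Real.pi := by linarith only [Real.pi_gt_three]
  have hM0 : 0 < M := by linarith only [hM]
  have key := (convex_Icc (1 / Θ) (1 / Θ1)).norm_image_sub_le_of_norm_hasDerivWithin_le
    (f := fun v : ℝ => MelM_F n s t v)
    (f' := fun σ : ℝ => (-(1 / 2 - t * Complex.I)) *
        ((σ : ℝ) - ((2 * Real.pi * s * (n - 0) : ℝ) : ℂ) * Complex.I : ℂ)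
          ^ (-(1 / 2 - t * Complex.I) - 1 : ℂ))
    (C := (1 + |t|) * ((M * Real.sqrt M)⁻¹ * Real.exp (Real.pi * |t| / 2)))
    (x := 1 / Θ1) (y := 1 / Θ)
    (fun σ hσ => (MelM_deriv n s t σ (h0.trans_le hσ.1)).hasDerivWithinAt)
    (fun σ hσ => by
      have hσ0 : 0 < σ := h0.trans_le hσ.1
      rw [norm_mul]
      apply mul_le_mul _ _ (norm_nonneg _) (by positivity)
      · rw [norm_neg]
        refine (norm_sub_le _ _).trans ?_
        rw [norm_mul, Complex.norm_I, mul_one, Complex.norm_real, Real.norm_eq_abs]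
        have : ‖(1 / 2 : ℂ)‖ = 1 / 2 := by norm_num
        rw [this]; linarith only
      · apply MelM_pow_norm _ _ (by rw [MelM_re]; exact hσ0) _ hM0
        refine le_trans ?_ (Complex.abs_im_le_norm _)
        rw [MelM_im, abs_neg, abs_mul, abs_mul]
        have h1 : |s| = 1 := by rcases hs with rfl | rfl <;> simp
        rw [h1, abs_of_pos Real.two_pi_pos, mul_one, abs_of_pos (by linarith only [hM, hn] : 0 < n)]
        nlinarith only [hM, hn, hpi])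
    (Set.right_mem_Icc.2 hle) (Set.left_mem_Icc.2 hle)
  refine key.trans ?_
  apply mul_le_mul_of_nonneg_left _ (by positivity)
  rw [Real.norm_eq_abs, abs_sub_comm, abs_of_nonneg (by linarith only [hle])]
  linarith only [h0]

theorem mel_m (g : ℕ → ℝ) (N M : ℕ) (Θ Θ1 s t : ℝ) (hs : s = 1 ∨ s = -1) (hΘ1 : 0 < Θ1)
    (hΘ : Θ1 ≤ Θ) (hM : 1 ≤ M) (hg : ∀ n, n ∉ Ioc M N → g n = 0) (hb : ∀ n, |g n| ≤ 1) :
    ‖Mel (ge g N 0 0 Θ s) t - Mel (ge g N 0 0 Θ1 s) t‖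
      ≤ 3 * (1 + |t|) * N / (M * Real.sqrt M) / Θ1 := by
  have hM1 : (1 : ℝ) ≤ M := by exact_mod_cast hM
  have hM0 : (0 : ℝ) < M := by linarith only [hM1]
  rw [mel_ge g N 0 0 Θ s t (hΘ1.trans_le hΘ), mel_ge g N 0 0 Θ1 s t hΘ1, ← mul_sub,
    ← Finset.sum_sub_distrib, norm_mul]
  have hsum : ‖∑ n ∈ Icc 1 N, ((g n : ℂ) * ee (n * 0)
        * (((1 / Θ : ℝ) : ℂ) - ((2 * Real.pi * s * ((n : ℝ) - 0) : ℝ) : ℂ) * Complex.I)
            ^ (-(1 / 2 - t * Complex.I) : ℂ)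
        - (g n : ℂ) * ee (n * 0)
        * (((1 / Θ1 : ℝ) : ℂ) - ((2 * Real.pi * s * ((n : ℝ) - 0) : ℝ) : ℂ) * Complex.I)
            ^ (-(1 / 2 - t * Complex.I) : ℂ))‖
      ≤ ∑ n ∈ Icc 1 N,
        (1 + |t|) * (((M : ℝ) * Real.sqrt M)⁻¹ * Real.exp (Real.pi * |t| / 2)) * (1 / Θ1) := by
    apply norm_sum_le_of_le
    intro n _
    rw [← mul_sub, norm_mul, norm_mul, norm_ee, mul_one, Complex.norm_real, Real.norm_eq_abs]
    by_cases hn : n ∈ Ioc M N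
    · have h1 : (M : ℝ) ≤ n := by exact_mod_cast (Finset.mem_Ioc.1 hn).1.le
      have h2 := MelM_diff n s t M Θ Θ1 hs hΘ1 hΘ hM1 h1
      unfold MelM_F at h2
      calc _ ≤ 1 * _ := mul_le_mul_of_nonneg_right (hb n) (norm_nonneg _)
        _ ≤ _ := by rw [one_mul]; exact h2
    · rw [hg n hn, abs_zero, zero_mul]
      positivity
  rw [Finset.sum_const, Nat.card_Icc, Nat.add_sub_cancel, nsmul_eq_mul] at hsum
  calc _ ≤ (3 * Real.exp (-(Real.pi * |t| / 2))) * ((N : ℝ) * ((1 + |t|)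
        * (((M : ℝ) * Real.sqrt M)⁻¹ * Real.exp (Real.pi * |t| / 2)) * (1 / Θ1))) :=
        mul_le_mul (gamma_half t) hsum (norm_nonneg _) (by positivity)
    _ = (Real.exp (-(Real.pi * |t| / 2)) * Real.exp (Real.pi * |t| / 2))
          * (3 * (1 + |t|) * N / (M * Real.sqrt M) / Θ1) := by
        rw [div_eq_mul_inv _ ((M : ℝ) * Real.sqrt M)]
        ring
    _ = _ := by
        rw [← Real.exp_add]
        simp

end Pool.Agent.H76.MU

end

section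

/-!
# SP MelL: the Mellin transform and the mean square of the correlations

Copy of `Pool/Agent/H35/W/MelCor.lean` with `a0 = 0`, `a = 0`, `S0 = M` (the needed lemmas there are private: copy `wM`, `hMf`,
`hM_norm`, `hM_diff`, `abel_sum` with the new prefix `MelL_`); only the last step is different.
`h(n) = w_n^{-1/2 + i t} n^{-i t}`, `w_n = 1/Θ - 2 π i s n`: `|h(n)| ≤ (π M)^{-1/2} e^{π |t|/2} =: H0` for `n ≥ M`,
`|h(n+1) - h(n)| ≤ H0 (1/n + 2 |t| (1/Θ)/n^2) ≤ H0 w/M`, `w = 1 + 2 |t|/(Θ M)`.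
Abel summation (`A_y = cor g 0 M α (t/2π) y`): `|∑| ≤ H0 (|A_N| + (w/M) ∑_{y ∈ Ioc M N} |A_y|)`, times `|Γ(1/2 - i t)| ≤ 3 e^{-π|t|/2}`
(`gamma_half`, `mel_ge`): `|Mel| ≤ (3/√(π M)) (|A_N| + (w/M) ∑ |A_y|)`; square (`9/π ≤ 3`), Cauchy with `#Ioc M N ≤ N`.
If `N ≤ M` then `g = 0` and everything is `0`.
-/

set_option autoImplicit false

namespace Pool.Agent.H76.SP

open Finset MeasureTheory
open Pool.Agent.H91.PK (ee)
open Pool.Agent.H76.EHB
open Pool.Agent.H35.W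

/-- the base of the power -/
private noncomputable def MelL_wM (Θ s a : ℝ) (u : ℂ) : ℂ :=
  ((1 / Θ : ℝ) : ℂ) - (2 * Real.pi * s * (u - a)) * Complex.I

private noncomputable def MelL_hMf (Θ s a t : ℝ) (a0 : ℕ) (u : ℂ) : ℂ :=
  MelL_wM Θ s a u ^ (-(1 / 2 - t * Complex.I) : ℂ) * Complex.exp (-(t * Complex.I) * Complex.log (u - a0))

private lemma MelL_wM_re (Θ s a u : ℝ) : (MelL_wM Θ s a (u : ℂ)).re = 1 / Θ := by
  simp [MelL_wM]

private lemma MelL_wM_im (Θ s a u : ℝ) : (MelL_wM Θ s a (u : ℂ)).im = -(2 * Real.pi * s * (u - a)) := by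
  simp [MelL_wM]

private lemma MelL_wM_slit (Θ s a u : ℝ) (hΘ : 0 < Θ) : MelL_wM Θ s a (u : ℂ) ∈ Complex.slitPlane := by
  left
  rw [MelL_wM_re]; positivity

private lemma MelL_wM_ne (Θ s a u : ℝ) (hΘ : 0 < Θ) : MelL_wM Θ s a (u : ℂ) ≠ 0 :=
  Complex.slitPlane_ne_zero (MelL_wM_slit Θ s a u hΘ)

private lemma MelL_wM_norm (Θ s a u : ℝ) (hs : s = 1 ∨ s = -1) :
    2 * Real.pi * |u - a| ≤ ‖MelL_wM Θ s a (u : ℂ)‖ := by
  refine le_trans ?_ (Complex.abs_im_le_norm _)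
  rw [MelL_wM_im, abs_neg, abs_mul, abs_mul]
  have : |s| = 1 := by rcases hs with rfl | rfl <;> simp
  rw [this, abs_of_pos Real.two_pi_pos, mul_one]

private lemma MelL_pow_norm (w : ℂ) (t : ℝ) (hw : 0 < w.re) (b : ℝ) (hb : 0 < b) (hwb : b ≤ ‖w‖) :
    ‖w ^ (-(1 / 2 - t * Complex.I) : ℂ)‖ ≤ (Real.sqrt b)⁻¹ * Real.exp (Real.pi * |t| / 2) := by
  have hw0 : w ≠ 0 := by rintro rfl; simp at hw
  have hn : 0 < ‖w‖ := norm_pos_iff.2 hw0
  rw [Complex.norm_cpow_of_ne_zero hw0]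
  have hre : (-(1 / 2 - t * Complex.I) : ℂ).re = -(1 / 2) := by simp
  have him : (-(1 / 2 - t * Complex.I) : ℂ).im = t := by simp
  rw [hre, him, div_eq_mul_inv, ← Real.exp_neg, Real.rpow_neg hn.le, ← Real.sqrt_eq_rpow]
  apply mul_le_mul
  · exact inv_anti₀ (Real.sqrt_pos.2 hb) (Real.sqrt_le_sqrt hwb)
  · apply Real.exp_le_exp.2
    have h1 : |Complex.arg w| ≤ Real.pi / 2 := by
      rw [Complex.abs_arg_le_pi_div_two_iff]; exact hw.le
    calc -(Complex.arg w * t) ≤ |Complex.arg w * t| := neg_le_abs _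
      _ = |Complex.arg w| * |t| := abs_mul _ _
      _ ≤ Real.pi / 2 * |t| := by gcongr
      _ = Real.pi * |t| / 2 := by ring
  · positivity
  · positivity

private lemma MelL_hM_norm (Θ s a t S0 : ℝ) (a0 : ℕ) (hs : s = 1 ∨ s = -1) (hΘ : 0 < Θ)
    (hS0 : 1 ≤ S0) (ha : |a - a0| ≤ S0 / 2) (u : ℝ) (hu : (a0 : ℝ) + S0 ≤ u) :
    ‖MelL_hMf Θ s a t a0 (u : ℂ)‖ ≤ (Real.sqrt (Real.pi * S0))⁻¹ * Real.exp (Real.pi * |t| / 2) := by
  have ha1 := abs_le.1 ha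
  have hpi := Real.pi_pos
  rw [MelL_hMf, norm_mul]
  have h1 : ‖Complex.exp (-(t * Complex.I) * Complex.log ((u : ℂ) - a0))‖ = 1 := by
    have e : (-(t * Complex.I) * Complex.log ((u : ℂ) - a0))
        = ((-(t * Real.log (u - a0)) : ℝ) : ℂ) * Complex.I := by
      have h2 : ((u : ℂ) - a0) = ((u - a0 : ℝ) : ℂ) := by push_cast; ring
      rw [h2, ← Complex.ofReal_log (by linarith only [hS0, hu])]
      push_cast
      ring
    rw [e, Complex.norm_exp_ofReal_mul_I]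
  rw [h1, mul_one]
  apply MelL_pow_norm _ _ (by rw [MelL_wM_re]; positivity) _ (by positivity)
  refine le_trans ?_ (MelL_wM_norm Θ s a u hs)
  have h3 : S0 / 2 ≤ |u - a| := by
    rw [abs_of_nonneg (by linarith only [hS0, hu, ha1])]; linarith only [hu, ha1]
  nlinarith only [hpi, h3]

private lemma MelL_hM_deriv (Θ s a t : ℝ) (a0 : ℕ) (hΘ : 0 < Θ) (u : ℝ) (hu : (a0 : ℝ) < u) :
    HasDerivAt (fun v : ℝ => MelL_hMf Θ s a t a0 (v : ℂ))
      (MelL_hMf Θ s a t a0 (u : ℂ) * ((-(1 / 2 - t * Complex.I)) * (-(2 * Real.pi * s * Complex.I))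
        / MelL_wM Θ s a (u : ℂ) - t * Complex.I / ((u : ℂ) - a0))) u := by
  have hua : ((u : ℂ) - a0) = ((u - a0 : ℝ) : ℂ) := by push_cast; ring
  have hsl : ((u : ℂ) - a0) ∈ Complex.slitPlane := by
    rw [hua]; exact Complex.ofReal_mem_slitPlane.2 (by linarith only [hu])
  have hne : ((u : ℂ) - a0) ≠ 0 := Complex.slitPlane_ne_zero hsl
  have hw := MelL_wM_slit Θ s a u hΘ
  have hwn := MelL_wM_ne Θ s a u hΘ
  have d1 : HasDerivAt (fun v : ℂ => MelL_wM Θ s a v) (-(2 * Real.pi * s * Complex.I)) (u : ℂ) := by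
    unfold MelL_wM
    have := (((hasDerivAt_id (u : ℂ)).sub_const (a : ℂ)).const_mul (2 * Real.pi * s : ℂ)).mul_const
      Complex.I |>.const_sub (((1 / Θ : ℝ) : ℂ))
    simpa using this
  have d2 : HasDerivAt (fun v : ℂ => MelL_wM Θ s a v ^ (-(1 / 2 - t * Complex.I) : ℂ))
      ((-(1 / 2 - t * Complex.I)) * MelL_wM Θ s a (u : ℂ) ^ ((-(1 / 2 - t * Complex.I)) - 1 : ℂ)
        * (-(2 * Real.pi * s * Complex.I))) (u : ℂ) := d1.cpow_const hw
  have d3 : HasDerivAt (fun v : ℂ => Complex.exp (-(t * Complex.I) * Complex.log (v - a0)))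
      (Complex.exp (-(t * Complex.I) * Complex.log ((u : ℂ) - a0)) *
        (-(t * Complex.I) * (1 / ((u : ℂ) - a0)))) (u : ℂ) := by
    have h1 : HasDerivAt (fun v : ℂ => v - (a0 : ℂ)) 1 (u : ℂ) :=
      (hasDerivAt_id (u : ℂ)).sub_const _
    have h2 := (h1.clog hsl).const_mul (-(t * Complex.I))
    exact h2.cexp
  have d4 := (d2.mul d3).comp_ofReal
  have e : MelL_hMf Θ s a t a0 (u : ℂ) * ((-(1 / 2 - t * Complex.I)) * (-(2 * Real.pi * s * Complex.I))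
        / MelL_wM Θ s a (u : ℂ) - t * Complex.I / ((u : ℂ) - a0))
      = (-(1 / 2 - t * Complex.I)) * MelL_wM Θ s a (u : ℂ) ^ ((-(1 / 2 - t * Complex.I)) - 1 : ℂ)
        * (-(2 * Real.pi * s * Complex.I)) *
          Complex.exp (-(t * Complex.I) * Complex.log ((u : ℂ) - a0)) +
        MelL_wM Θ s a (u : ℂ) ^ (-(1 / 2 - t * Complex.I) : ℂ) *
        (Complex.exp (-(t * Complex.I) * Complex.log ((u : ℂ) - a0)) *
        (-(t * Complex.I) * (1 / ((u : ℂ) - a0)))) := by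
    rw [MelL_hMf, Complex.cpow_sub _ _ hwn, Complex.cpow_one]
    ring
  rw [e]
  exact d4

private lemma MelL_hM_bd (Θ s a t S0 : ℝ) (a0 : ℕ) (hs : s = 1 ∨ s = -1) (hΘ : 0 < Θ)
    (hS0 : 1 ≤ S0) (ha : |a - a0| ≤ S0 / 2) (r u : ℝ) (hr : (a0 : ℝ) + S0 ≤ r) (hu : r ≤ u) :
    ‖MelL_hMf Θ s a t a0 (u : ℂ) * ((-(1 / 2 - t * Complex.I)) * (-(2 * Real.pi * s * Complex.I))
        / MelL_wM Θ s a (u : ℂ) - t * Complex.I / ((u : ℂ) - a0))‖
      ≤ (Real.sqrt (Real.pi * S0))⁻¹ * Real.exp (Real.pi * |t| / 2)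
        * (1 / (r - a0) + 2 * |t| * (|a - a0| + 1 / Θ) / (r - a0) ^ 2) := by
  have ha1 := abs_le.1 ha
  have hpi := Real.pi_pos
  have hpi1 : 1 ≤ Real.pi := by linarith only [hpi, Real.pi_gt_three]
  rw [norm_mul]
  apply mul_le_mul (MelL_hM_norm Θ s a t S0 a0 hs hΘ hS0 ha u (by linarith only [hr, hu])) _ (norm_nonneg _)
    (by positivity)
  have hwn := MelL_wM_ne Θ s a u hΘ
  have hua : ((u : ℂ) - a0) = ((u - a0 : ℝ) : ℂ) := by push_cast; ring
  have hne : ((u : ℂ) - a0) ≠ 0 := by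
    rw [hua]; exact Complex.ofReal_ne_zero.2 (by linarith only [hS0, hr, hu])
  have h1 : ‖MelL_wM Θ s a (u : ℂ)‖ ≥ Real.pi * (u - a0) := by
    refine le_trans ?_ (MelL_wM_norm Θ s a u hs)
    have h3 : (u - a0) / 2 ≤ |u - a| := by
      rw [abs_of_nonneg (by linarith only [hS0, hr, hu, ha1])]; linarith only [hr, hu, ha1]
    nlinarith only [hpi, h3]
  have hs1 : |s| = 1 := by rcases hs with rfl | rfl <;> simp
  have e : (-(1 / 2 - t * Complex.I)) * (-(2 * Real.pi * s * Complex.I))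
        / MelL_wM Θ s a (u : ℂ) - t * Complex.I / ((u : ℂ) - a0)
      = (((Real.pi * s : ℝ) : ℂ) * Complex.I) / MelL_wM Θ s a (u : ℂ)
        + ((t : ℝ) : ℂ) * Complex.I * ((-(((2 * Real.pi * s * (a - a0) : ℝ) : ℂ) * Complex.I)
          - ((1 / Θ : ℝ) : ℂ)))
          / (MelL_wM Θ s a (u : ℂ) * ((u : ℂ) - a0)) := by
    field_simp
    rw [MelL_wM]
    push_cast
    ring
  rw [e]
  have b1 : ‖(((Real.pi * s : ℝ) : ℂ) * Complex.I) / MelL_wM Θ s a (u : ℂ)‖ ≤ 1 / (r - a0) := by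
    rw [norm_div, norm_mul, Complex.norm_I, mul_one, Complex.norm_real, Real.norm_eq_abs, abs_mul,
      hs1, mul_one, abs_of_pos hpi, div_le_div_iff₀ (norm_pos_iff.2 hwn) (by linarith only [hS0, hr])]
    nlinarith only [h1, hu, hpi]
  have b2 : ‖((t : ℝ) : ℂ) * Complex.I * ((-(((2 * Real.pi * s * (a - a0) : ℝ) : ℂ) * Complex.I)
          - ((1 / Θ : ℝ) : ℂ)))
          / (MelL_wM Θ s a (u : ℂ) * ((u : ℂ) - a0))‖ ≤ 2 * |t| * (|a - a0| + 1 / Θ) / (r - a0) ^ 2 := by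
    rw [norm_div, norm_mul, norm_mul, norm_mul, Complex.norm_I, mul_one, Complex.norm_real,
      Real.norm_eq_abs]
    have c1 : ‖(-(((2 * Real.pi * s * (a - a0) : ℝ) : ℂ) * Complex.I)
          - ((1 / Θ : ℝ) : ℂ))‖ ≤ 2 * Real.pi * |a - a0| + 1 / Θ := by
      refine (norm_sub_le _ _).trans ?_
      rw [norm_neg, norm_mul, Complex.norm_I, mul_one, Complex.norm_real, Complex.norm_real,
        Real.norm_eq_abs, Real.norm_eq_abs, abs_mul, abs_mul, hs1, mul_one,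
        abs_of_pos Real.two_pi_pos, abs_of_pos (by positivity : 0 < 1 / Θ)]
    have c2 : ‖(u : ℂ) - a0‖ = u - a0 := by
      rw [hua, Complex.norm_real, Real.norm_eq_abs, abs_of_pos (by linarith only [hS0, hr, hu])]
    rw [c2]
    have hra : 0 < r - a0 := by linarith only [hS0, hr]
    have c3 : Real.pi * (r - a0) ^ 2 ≤ ‖MelL_wM Θ s a (u : ℂ)‖ * (u - a0) := by
      calc Real.pi * (r - a0) ^ 2 = (Real.pi * (r - a0)) * (r - a0) := by ring
        _ ≤ ‖MelL_wM Θ s a (u : ℂ)‖ * (u - a0) := by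
          apply mul_le_mul _ (by linarith only [hu]) (by linarith only [hS0, hr]) (norm_nonneg _)
          refine le_trans ?_ h1
          gcongr
    have c4 : (2 * Real.pi * |a - a0| + 1 / Θ) ≤ Real.pi * (2 * (|a - a0| + 1 / Θ)) := by
      have : 0 < 1 / Θ := by positivity
      nlinarith only [hpi, this, hpi1, abs_nonneg (a - a0)]
    calc |t| * ‖(-(((2 * Real.pi * s * (a - a0) : ℝ) : ℂ) * Complex.I)
          - ((1 / Θ : ℝ) : ℂ))‖ / (‖MelL_wM Θ s a (u : ℂ)‖ * (u - a0))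
        ≤ |t| * (Real.pi * (2 * (|a - a0| + 1 / Θ))) / (Real.pi * (r - a0) ^ 2) := by
          apply div_le_div₀ (by positivity) _ (by positivity) c3
          exact mul_le_mul_of_nonneg_left (c1.trans c4) (abs_nonneg _)
      _ = 2 * |t| * (|a - a0| + 1 / Θ) / (r - a0) ^ 2 := by
          field_simp
  exact (norm_add_le _ _).trans (add_le_add b1 b2)

private lemma MelL_hM_diff (Θ s a t S0 : ℝ) (a0 : ℕ) (hs : s = 1 ∨ s = -1) (hΘ : 0 < Θ)
    (hS0 : 1 ≤ S0) (ha : |a - a0| ≤ S0 / 2) (r : ℝ) (hr : (a0 : ℝ) + S0 ≤ r) :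
    ‖MelL_hMf Θ s a t a0 ((r + 1 : ℝ) : ℂ) - MelL_hMf Θ s a t a0 (r : ℂ)‖
      ≤ (Real.sqrt (Real.pi * S0))⁻¹ * Real.exp (Real.pi * |t| / 2)
        * (1 / (r - a0) + 2 * |t| * (|a - a0| + 1 / Θ) / (r - a0) ^ 2) := by
  have := Convex.norm_image_sub_le_of_norm_hasDerivWithin_le
    (f := fun v : ℝ => MelL_hMf Θ s a t a0 (v : ℂ)) (s := Set.Icc r (r + 1)) (x := r) (y := r + 1)
    (f' := fun u => (MelL_hMf Θ s a t a0 (u : ℂ) * ((-(1 / 2 - t * Complex.I)) *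
      (-(2 * Real.pi * s * Complex.I)) / MelL_wM Θ s a (u : ℂ) - t * Complex.I / ((u : ℂ) - a0))))
    (C := (Real.sqrt (Real.pi * S0))⁻¹ * Real.exp (Real.pi * |t| / 2)
        * (1 / (r - a0) + 2 * |t| * (|a - a0| + 1 / Θ) / (r - a0) ^ 2))
    (fun u hu => (MelL_hM_deriv Θ s a t a0 hΘ u (by linarith only [hS0, hr, hu, hu.1])).hasDerivWithinAt)
    (fun u hu => MelL_hM_bd Θ s a t S0 a0 hs hΘ hS0 ha r u hr hu.1)
    (convex_Icc _ _) ⟨le_rfl, by linarith only⟩ ⟨by linarith only, le_rfl⟩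
  have e : ‖r + 1 - r‖ = 1 := by rw [add_sub_cancel_left]; simp
  rw [e, mul_one] at this
  exact this

private lemma MelL_abel_sum (b h A : ℕ → ℂ) (M : ℕ) (hA : ∀ y, A y = ∑ n ∈ Ioc M y, b n) (y : ℕ)
    (hy : M ≤ y) :
    ∑ n ∈ Ioc M y, b n * h n = A y * h (y + 1) + ∑ n ∈ Ioc M y, A n * (h n - h (n + 1)) := by
  induction y, hy using Nat.le_induction with
  | base => simp [hA]
  | succ y hy ih =>
    have e : Ioc M (y + 1) = insert (y + 1) (Ioc M y) := by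
      ext i; simp only [mem_insert, mem_Ioc]; omega
    have hn : y + 1 ∉ Ioc M y := by simp
    have h1 : A (y + 1) = b (y + 1) + A y := by rw [hA, hA, e, sum_insert hn]
    rw [e, sum_insert hn, sum_insert hn, ih, h1]
    ring

/-- the sum without the gamma factor -/
private theorem MelL_sum (g : ℕ → ℝ) (N M : ℕ) (α Θ s t : ℝ) (hs : s = 1 ∨ s = -1) (hΘ : 0 < Θ)
    (hM : 1 ≤ M) (hg : ∀ n, n ∉ Ioc M N → g n = 0) :
    ‖∑ n ∈ Icc 1 N, (g n : ℂ) * ee (n * α)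
        * (((1 / Θ : ℝ) : ℂ) - ((2 * Real.pi * s * ((n : ℝ) - 0) : ℝ) : ℂ) * Complex.I)
            ^ (-(1 / 2 - t * Complex.I) : ℂ)‖
      ≤ ((Real.sqrt (Real.pi * M))⁻¹ * Real.exp (Real.pi * |t| / 2))
        * (‖cor g 0 M α (t / (2 * Real.pi)) N‖ + (1 + 2 * |t| / (Θ * M)) / M *
          ∑ y ∈ Ioc M N, ‖cor g 0 M α (t / (2 * Real.pi)) y‖) := by
  have hΘ1 : 0 < 1 / Θ := by positivity
  have hpi := Real.pi_pos
  have hM0 : (1 : ℝ) ≤ M := by exact_mod_cast hM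
  have hM00 : (0 : ℝ) < M := by linarith only [hM0]
  rcases lt_or_ge N M with hNM | hNM
  · have : ∑ n ∈ Icc 1 N, (g n : ℂ) * ee (n * α)
        * (((1 / Θ : ℝ) : ℂ) - ((2 * Real.pi * s * ((n : ℝ) - 0) : ℝ) : ℂ) * Complex.I)
            ^ (-(1 / 2 - t * Complex.I) : ℂ) = 0 := by
      apply sum_eq_zero
      intro n hn
      rw [hg n (by simp only [mem_Ioc, not_and, not_le]; intro h; omega)]
      simp
    rw [this, norm_zero]
    positivity
  set b : ℕ → ℂ := fun n => (g n : ℂ) * ee (n * α + t / (2 * Real.pi) * Real.log ((n : ℝ) - (0 : ℕ)))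
    with hb
  set h : ℕ → ℂ := fun n => MelL_hMf Θ s 0 t 0 ((n : ℝ) : ℂ) with hh
  have e1 : ∑ n ∈ Icc 1 N, (g n : ℂ) * ee (n * α)
        * (((1 / Θ : ℝ) : ℂ) - ((2 * Real.pi * s * ((n : ℝ) - 0) : ℝ) : ℂ) * Complex.I)
            ^ (-(1 / 2 - t * Complex.I) : ℂ) = ∑ n ∈ Ioc M N, b n * h n := by
    have e2 : ∑ n ∈ Icc 1 N, (g n : ℂ) * ee (n * α)
        * (((1 / Θ : ℝ) : ℂ) - ((2 * Real.pi * s * ((n : ℝ) - 0) : ℝ) : ℂ) * Complex.I)
            ^ (-(1 / 2 - t * Complex.I) : ℂ) = ∑ n ∈ Ioc M N, (g n : ℂ) * ee (n * α)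
        * (((1 / Θ : ℝ) : ℂ) - ((2 * Real.pi * s * ((n : ℝ) - 0) : ℝ) : ℂ) * Complex.I)
            ^ (-(1 / 2 - t * Complex.I) : ℂ) := by
      symm
      apply sum_subset
      · intro i hi
        rw [mem_Ioc] at hi
        rw [mem_Icc]; omega
      · intro i _ hi
        rw [hg i hi]; simp
    rw [e2]
    apply sum_congr rfl
    intro n hn
    have hn1 := mem_Ioc.1 hn
    have hna : (0 : ℝ) < (n : ℝ) - (0 : ℕ) := by
      have : (M : ℝ) < n := by exact_mod_cast hn1.1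
      push_cast
      linarith only [hM0, this]
    simp only [hb, hh, MelL_hMf]
    have e3 : (((n : ℝ) : ℂ) - ((0 : ℕ) : ℂ)) = (((n : ℝ) - (0 : ℕ) : ℝ) : ℂ) := by push_cast; ring
    have e4 : ee (n * α + t / (2 * Real.pi) * Real.log ((n : ℝ) - (0 : ℕ)))
        * Complex.exp (-(t * Complex.I) * Complex.log (((n : ℝ) : ℂ) - (0 : ℕ))) = ee (n * α) := by
      rw [e3, ← Complex.ofReal_log hna.le, ee, ee, ← Complex.exp_add]
      congr 1
      push_cast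
      have : (Real.pi : ℂ) ≠ 0 := Complex.ofReal_ne_zero.2 hpi.ne'
      field_simp
      ring
    have e5 : MelL_wM Θ s 0 ((n : ℝ) : ℂ) = (((1 / Θ : ℝ) : ℂ)
        - ((2 * Real.pi * s * ((n : ℝ) - 0) : ℝ) : ℂ) * Complex.I) := by
      rw [MelL_wM]; push_cast; ring
    rw [e5, ← e4]
    ring
  rw [e1, MelL_abel_sum b h (fun y => ∑ n ∈ Ioc M y, b n) M (fun _ => rfl) N hNM]
  have hA : ∀ y, ‖∑ n ∈ Ioc M y, b n‖ = ‖cor g 0 M α (t / (2 * Real.pi)) y‖ := fun y => rfl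
  set H0 : ℝ := (Real.sqrt (Real.pi * M))⁻¹ * Real.exp (Real.pi * |t| / 2) with hH0
  have hH0p : 0 ≤ H0 := by positivity
  have ha : |(0 : ℝ) - (0 : ℕ)| ≤ (M : ℝ) / 2 := by
    simp only [Nat.cast_zero, sub_zero, abs_zero]
    positivity
  have hcast : ∀ n : ℕ, M ≤ n → ((0 : ℕ) : ℝ) + M ≤ n := by
    intro n hn
    have : (M : ℝ) ≤ n := by exact_mod_cast hn
    push_cast
    linarith only [this]
  have b1 : ‖(∑ n ∈ Ioc M N, b n) * h (N + 1)‖ ≤ ‖cor g 0 M α (t / (2 * Real.pi)) N‖ * H0 := by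
    rw [norm_mul, hA]
    exact mul_le_mul_of_nonneg_left
      (MelL_hM_norm Θ s 0 t M 0 hs hΘ hM0 ha _ (hcast _ (by omega))) (norm_nonneg _)
  set w : ℝ := 1 + 2 * |t| / (Θ * M) with hw
  have b2 : ‖∑ n ∈ Ioc M N, (∑ i ∈ Ioc M n, b i) * (h n - h (n + 1))‖
      ≤ ∑ n ∈ Ioc M N, ‖cor g 0 M α (t / (2 * Real.pi)) n‖ * (H0 * (w / M)) := by
    refine (norm_sum_le _ _).trans (sum_le_sum fun n hn => ?_)
    have hn1 := mem_Ioc.1 hn
    rw [norm_mul, hA]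
    refine mul_le_mul_of_nonneg_left ?_ (norm_nonneg _)
    have := MelL_hM_diff Θ s 0 t M 0 hs hΘ hM0 ha (n : ℝ) (hcast n hn1.1.le)
    rw [norm_sub_rev]
    have e6 : (((n : ℝ) + 1 : ℝ) : ℂ) = ((((n + 1 : ℕ) : ℝ)) : ℂ) := by push_cast; rfl
    rw [e6] at this
    refine this.trans (mul_le_mul_of_nonneg_left ?_ hH0p)
    have hnM : (M : ℝ) ≤ n := by exact_mod_cast hn1.1.le
    simp only [Nat.cast_zero, sub_zero, abs_zero, zero_add]
    have c1 : 1 / (n : ℝ) ≤ 1 / M := one_div_le_one_div_of_le hM00 hnM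
    have c2 : 2 * |t| * (1 / Θ) / (n : ℝ) ^ 2 ≤ 2 * |t| * (1 / Θ) / (M : ℝ) ^ 2 := by
      gcongr
    have c3 : w / M = 1 / M + 2 * |t| * (1 / Θ) / (M : ℝ) ^ 2 := by
      rw [hw]
      field_simp
    rw [c3]
    exact add_le_add c1 c2
  refine (norm_add_le _ _).trans ((add_le_add b1 b2).trans (le_of_eq ?_))
  rw [← Finset.sum_mul]
  ring

/-- final arithmetic -/
private theorem MelL_fin (M T G X A S Q : ℝ) (N w : ℝ) (hM : 1 ≤ M)
    (hG0 : 0 ≤ G) (hG : G ≤ 3 * Real.exp (-(Real.pi * T / 2))) (hX0 : 0 ≤ X) (hA : 0 ≤ A)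
    (hS : 0 ≤ S) (hw : 0 ≤ w) (hQ : S ^ 2 ≤ N * Q)
    (hX : X ≤ ((Real.sqrt (Real.pi * M))⁻¹ * Real.exp (Real.pi * T / 2)) * (A + w / M * S)) :
    (G * X) ^ 2 ≤ 6 / M * (A ^ 2 + w ^ 2 / M ^ 2 * N * Q) := by
  have hpi := Real.pi_gt_three
  have hM0 : 0 < M := by linarith only [hM]
  have hY : 0 ≤ A + w / M * S := by positivity
  have h1 : G * X ≤ 3 * Real.exp (-(Real.pi * T / 2)) * (((Real.sqrt (Real.pi * M))⁻¹
      * Real.exp (Real.pi * T / 2)) * (A + w / M * S)) :=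
    mul_le_mul hG hX hX0 (by positivity)
  have h2 : Real.exp (-(Real.pi * T / 2)) * Real.exp (Real.pi * T / 2) = 1 := by
    rw [← Real.exp_add]; simp
  have h3 : G * X ≤ 3 * (Real.sqrt (Real.pi * M))⁻¹ * (A + w / M * S) := by
    refine h1.trans (le_of_eq ?_)
    calc 3 * Real.exp (-(Real.pi * T / 2)) * (((Real.sqrt (Real.pi * M))⁻¹
      * Real.exp (Real.pi * T / 2)) * (A + w / M * S))
        = (Real.exp (-(Real.pi * T / 2)) * Real.exp (Real.pi * T / 2)) *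
          (3 * (Real.sqrt (Real.pi * M))⁻¹ * (A + w / M * S)) := by ring
      _ = _ := by rw [h2, one_mul]
  have h4 : (G * X) ^ 2 ≤ (3 * (Real.sqrt (Real.pi * M))⁻¹ * (A + w / M * S)) ^ 2 :=
    pow_le_pow_left₀ (mul_nonneg hG0 hX0) h3 2
  have h5 : (3 * (Real.sqrt (Real.pi * M))⁻¹ * (A + w / M * S)) ^ 2
      = 9 / (Real.pi * M) * (A + w / M * S) ^ 2 := by
    rw [mul_pow, mul_pow, inv_pow, Real.sq_sqrt (by positivity)]
    field_simp
    ring
  have h6 : 9 / (Real.pi * M) ≤ 3 / M := by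
    rw [div_le_div_iff₀ (by positivity) hM0]
    nlinarith only [hpi, hM0]
  have h7 : (A + w / M * S) ^ 2 ≤ 2 * (A ^ 2 + w ^ 2 / M ^ 2 * N * Q) := by
    have h8 : (w / M * S) ^ 2 ≤ w ^ 2 / M ^ 2 * N * Q := by
      have : (w / M * S) ^ 2 = w ^ 2 / M ^ 2 * S ^ 2 := by ring
      rw [this, mul_assoc]
      exact mul_le_mul_of_nonneg_left hQ (by positivity)
    nlinarith only [h8, sq_nonneg (A - w / M * S)]
  rw [h5] at h4
  refine h4.trans ?_
  calc 9 / (Real.pi * M) * (A + w / M * S) ^ 2 ≤ 3 / M * (A + w / M * S) ^ 2 :=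
        mul_le_mul_of_nonneg_right h6 (sq_nonneg _)
    _ ≤ 3 / M * (2 * (A ^ 2 + w ^ 2 / M ^ 2 * N * Q)) :=
        mul_le_mul_of_nonneg_left h7 (by positivity)
    _ = _ := by ring

theorem mel_l (g : ℕ → ℝ) (N M : ℕ) (α Θ s t : ℝ) (hs : s = 1 ∨ s = -1) (hΘ : 0 < Θ) (hM : 1 ≤ M)
    (hg : ∀ n, n ∉ Ioc M N → g n = 0) :
    ‖Mel (ge g N α 0 Θ s) t‖ ^ 2 ≤ 6 / M * (‖cor g 0 M α (t / (2 * Real.pi)) N‖ ^ 2
      + (1 + 2 * |t| / (Θ * M)) ^ 2 / (M : ℝ) ^ 2 * N *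
        ∑ y ∈ Ioc M N, ‖cor g 0 M α (t / (2 * Real.pi)) y‖ ^ 2) := by
  rw [mel_ge g N α 0 Θ s t hΘ, norm_mul]
  have hM0 : (1 : ℝ) ≤ M := by exact_mod_cast hM
  refine MelL_fin M |t| _ _ ‖cor g 0 M α (t / (2 * Real.pi)) N‖
    (∑ y ∈ Ioc M N, ‖cor g 0 M α (t / (2 * Real.pi)) y‖)
    (∑ y ∈ Ioc M N, ‖cor g 0 M α (t / (2 * Real.pi)) y‖ ^ 2) N (1 + 2 * |t| / (Θ * M)) hM0
    (norm_nonneg _) (gamma_half t) (norm_nonneg _) (norm_nonneg _)
    (sum_nonneg fun _ _ => norm_nonneg _) (by positivity) ?_ ?_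
  · have h1 := sq_sum_le_card_mul_sum_sq (s := Ioc M N)
      (f := fun y => ‖cor g 0 M α (t / (2 * Real.pi)) y‖)
    refine h1.trans (mul_le_mul_of_nonneg_right ?_ (sum_nonneg fun _ _ => sq_nonneg _))
    rw [Nat.card_Ioc]
    exact_mod_cast Nat.sub_le N M
  · exact MelL_sum g N M α Θ s t hs hΘ hM hg

end Pool.Agent.H76.SP

end

section

/-!
# W MelTl: the tail of the Mellin transform

In the setting of `MelCor`.  `|w_n^{-1/2+it}| = |w_n|^{-1/2} exp(-t arg w_n)`, `|w_n| ≥ π S0 ≥ 1`,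
`|arg w_n| = arctan(2πΘ (n - a)) = π/2 - arctan(1/(2πΘ(n-a)))`, so
`|Γ(1/2-it)| |w_n^{-1/2+it}| ≤ 3 S0^{-1/2} exp(-|t| η_n)`, `η_n = arctan(1/(2πΘ(n - a)))` and `0 < n - a ≤ 2N`
(`n ≤ N`, `a ≥ a0 - S0/2`, `S0 ≤ M < n ≤ N`).  `arctan z ≥ (π/4) min(z, 1)` for `z ≥ 0`, so
`η_n ≥ 1/(40 (Θ N + 1))`.
(If `N ≤ M` the left side is 0.)
-/

set_option autoImplicit false

namespace Pool.Agent.H35.W

open Finset MeasureTheory
open Pool.Agent.H91.PK (ee)
open Pool.Agent.H76.EHB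

/-- the argument of a point of the right half plane -/
private theorem mtl_arg {w : ℂ} (hw : 0 < w.re) :
    |Complex.arg w| ≤ Real.pi / 2 - w.re / ‖w‖ := by
  have hw0 : w ≠ 0 := by
    intro h
    rw [h] at hw
    simp at hw
  have h1 : |Complex.arg w| ≤ Real.pi / 2 := Complex.abs_arg_le_pi_div_two_iff.2 hw.le
  have h2 : Real.sin (Real.pi / 2 - |Complex.arg w|) = w.re / ‖w‖ := by
    rw [Real.sin_pi_div_two_sub, Real.cos_abs, Complex.cos_arg hw0]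
  have h3 := Real.sin_le (sub_nonneg.2 h1)
  rw [h2] at h3
  linarith only [h3]

private theorem mtl_term {Θ s t S0 a : ℝ} {N M a0 n : ℕ} (hs : s = 1 ∨ s = -1) (hΘ : 0 < Θ)
    (hS0 : 1 ≤ S0) (hM : (a0 : ℝ) + S0 ≤ M) (ha : |a - a0| ≤ S0 / 2) (hn : n ∈ Ioc M N) :
    3 * Real.exp (-(Real.pi * |t| / 2)) *
      ‖((((1 / Θ : ℝ) : ℂ) - ((2 * Real.pi * s * ((n : ℝ) - a) : ℝ) : ℂ) * Complex.I)
            ^ (-(1 / 2 - t * Complex.I) : ℂ))‖
      ≤ 3 * Real.exp (-(|t| / (40 * (Θ * N + 1)))) := by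
  have hn' := Finset.mem_Ioc.1 hn
  have hMn : (M : ℝ) + 1 ≤ n := by exact_mod_cast hn'.1
  have hnN : (n : ℝ) ≤ N := by exact_mod_cast hn'.2
  have ha' := abs_le.1 ha
  have ha0 : (0 : ℝ) ≤ a0 := Nat.cast_nonneg _
  have hpi := Real.pi_gt_three
  have hpi4 := Real.pi_lt_d2
  set v : ℝ := (n : ℝ) - a with hv
  have hv1 : 1 / 2 ≤ v := by rw [hv]; linarith only [hS0, hM, hMn, ha', hpi, hpi4]
  have hv2 : v ≤ 2 * N := by rw [hv]; linarith only [hS0, hM, hMn, hnN, ha', hpi, hpi4]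
  set w : ℂ := (((1 / Θ : ℝ) : ℂ) - ((2 * Real.pi * s * v : ℝ) : ℂ) * Complex.I) with hw
  have hre : w.re = 1 / Θ := by
    rw [hw]
    simp
  have him : w.im = -(2 * Real.pi * s * v) := by
    rw [hw]
    simp
  have hrepos : 0 < w.re := by rw [hre]; positivity
  have hw0 : w ≠ 0 := by
    intro h
    rw [h] at hrepos
    simp at hrepos
  have hs1 : |s| = 1 := by
    rcases hs with h | h <;> rw [h] <;> norm_num
  have himabs : |w.im| = 2 * Real.pi * v := by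
    rw [him, abs_neg, abs_mul, abs_mul, hs1, abs_of_pos (by linarith only [hpi, hpi4] : (0 : ℝ) < 2 * Real.pi),
      abs_of_pos (by linarith only [hS0, hM, hMn, ha', hpi, hpi4] : (0 : ℝ) < v)]
    ring
  have hnorm1 : 1 ≤ ‖w‖ := by
    have h1 := Complex.abs_im_le_norm w
    rw [himabs] at h1
    nlinarith only [hS0, hM, hMn, ha', hpi, hpi4, h1]
  have hnorm2 : ‖w‖ ≤ 1 / Θ + 4 * Real.pi * N := by
    have h1 := Complex.norm_le_abs_re_add_abs_im w
    rw [himabs, abs_of_pos hrepos, hre] at h1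
    have h2 : 2 * Real.pi * v ≤ 2 * Real.pi * (2 * N) :=
      mul_le_mul_of_nonneg_left hv2 (by linarith only [hpi, hpi4])
    linarith only [h1, h2]
  have hN0 : (0 : ℝ) ≤ N := Nat.cast_nonneg _
  have harg : |Complex.arg w| ≤ Real.pi / 2 - 1 / (40 * (Θ * N + 1)) := by
    have h1 := mtl_arg hrepos
    have h2 : 1 / (40 * (Θ * N + 1)) ≤ w.re / ‖w‖ := by
      rw [hre]
      have h3 : (1 / Θ) / (1 / Θ + 4 * Real.pi * N) ≤ 1 / Θ / ‖w‖ :=
        div_le_div_of_nonneg_left (by positivity) (by linarith only [hpi, hpi4, hnorm1]) hnorm2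
      refine le_trans ?_ h3
      rw [div_le_div_iff₀ (by positivity) (by positivity)]
      have h4 : 1 / Θ * (40 * (Θ * N + 1)) = 40 * N + 40 / Θ := by
        field_simp
      rw [h4, one_mul]
      have h5 : 4 * Real.pi * N ≤ 40 * N := by nlinarith only [hS0, hM, hMn, hnN, hpi, hpi4]
      have h6 : 1 / Θ ≤ 40 / Θ := div_le_div_of_nonneg_right (by norm_num) hΘ.le
      linarith only [h5, h6]
    linarith only [h1, h2]
  rw [Complex.norm_cpow_of_ne_zero hw0]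
  have hzre : (-(1 / 2 - (t : ℂ) * Complex.I)).re = -(1 / 2 : ℝ) := by
    simp
  have hzim : (-(1 / 2 - (t : ℂ) * Complex.I)).im = t := by
    simp
  rw [hzre, hzim]
  have hpow : ‖w‖ ^ (-(1 / 2 : ℝ)) ≤ 1 :=
    Real.rpow_le_one_of_one_le_of_nonpos hnorm1 (by norm_num)
  have hexp : 1 / Real.exp (Complex.arg w * t) ≤
      Real.exp (|t| * (Real.pi / 2 - 1 / (40 * (Θ * N + 1)))) := by
    rw [one_div, ← Real.exp_neg]
    apply Real.exp_le_exp.2
    calc -(Complex.arg w * t) ≤ |Complex.arg w * t| := neg_le_abs _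
      _ = |t| * |Complex.arg w| := by rw [abs_mul, mul_comm]
      _ ≤ _ := mul_le_mul_of_nonneg_left harg (abs_nonneg _)
  have h7 : ‖w‖ ^ (-(1 / 2 : ℝ)) / Real.exp (Complex.arg w * t) ≤
      Real.exp (|t| * (Real.pi / 2 - 1 / (40 * (Θ * N + 1)))) := by
    refine le_trans ?_ hexp
    exact div_le_div_of_nonneg_right hpow (Real.exp_pos _).le
  calc 3 * Real.exp (-(Real.pi * |t| / 2)) * (‖w‖ ^ (-(1 / 2 : ℝ)) / Real.exp (Complex.arg w * t))
      ≤ 3 * Real.exp (-(Real.pi * |t| / 2)) *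
          Real.exp (|t| * (Real.pi / 2 - 1 / (40 * (Θ * N + 1)))) :=
        mul_le_mul_of_nonneg_left h7 (by positivity)
    _ = 3 * Real.exp (-(|t| / (40 * (Θ * N + 1)))) := by
        rw [mul_assoc, ← Real.exp_add]
        congr 2
        field_simp
        ring

theorem mel_tl (g : ℕ → ℝ) (N M a0 : ℕ) (α a Θ s t S0 : ℝ) (hs : s = 1 ∨ s = -1) (hΘ : 0 < Θ)
    (hS0 : 1 ≤ S0) (hM : (a0 : ℝ) + S0 ≤ M) (ha : |a - a0| ≤ S0 / 2)
    (hg : ∀ n, n ∉ Ioc M N → g n = 0) :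
    ‖Mel (ge g N α a Θ s) t‖
      ≤ 3 * (∑ n ∈ Icc 1 N, |g n|) * Real.exp (-(|t| / (40 * (Θ * N + 1)))) := by
  rw [mel_ge g N α a Θ s t hΘ, norm_mul]
  have h1 := gamma_half t
  calc ‖Complex.Gamma (1 / 2 - t * Complex.I)‖ * ‖∑ n ∈ Icc 1 N, (g n : ℂ) * ee (n * α)
        * (((1 / Θ : ℝ) : ℂ) - ((2 * Real.pi * s * ((n : ℝ) - a) : ℝ) : ℂ) * Complex.I)
            ^ (-(1 / 2 - t * Complex.I) : ℂ)‖
      ≤ (3 * Real.exp (-(Real.pi * |t| / 2))) * ∑ n ∈ Icc 1 N, |g n| *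
        ‖((((1 / Θ : ℝ) : ℂ) - ((2 * Real.pi * s * ((n : ℝ) - a) : ℝ) : ℂ) * Complex.I)
            ^ (-(1 / 2 - t * Complex.I) : ℂ))‖ := by
        refine mul_le_mul h1 ?_ (norm_nonneg _) (by positivity)
        refine (norm_sum_le _ _).trans (Finset.sum_le_sum fun n _ => ?_)
        rw [norm_mul, norm_mul, Pool.Agent.H91.PK.LSa_norm_ee, mul_one, Complex.norm_real,
          Real.norm_eq_abs]
    _ = ∑ n ∈ Icc 1 N, |g n| * (3 * Real.exp (-(Real.pi * |t| / 2)) *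
        ‖((((1 / Θ : ℝ) : ℂ) - ((2 * Real.pi * s * ((n : ℝ) - a) : ℝ) : ℂ) * Complex.I)
            ^ (-(1 / 2 - t * Complex.I) : ℂ))‖) := by
        rw [Finset.mul_sum]
        refine Finset.sum_congr rfl fun n _ => ?_
        ring
    _ ≤ ∑ n ∈ Icc 1 N, |g n| * (3 * Real.exp (-(|t| / (40 * (Θ * N + 1))))) := by
        refine Finset.sum_le_sum fun n _ => ?_
        by_cases hn : n ∈ Ioc M N
        · exact mul_le_mul_of_nonneg_left (mtl_term hs hΘ hS0 hM ha hn) (abs_nonneg _)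
        · rw [hg n hn]
          simp
    _ = 3 * (∑ n ∈ Icc 1 N, |g n|) * Real.exp (-(|t| / (40 * (Θ * N + 1)))) := by
        rw [← Finset.sum_mul]
        ring

end Pool.Agent.H35.W

end

section

/-!
# MU IIG: the high frequencies

Copy of `Pool/Agent/H76/SP/IIL.lean` (its lemmas are private: copy with a new prefix `IIG_`), with `α = 0`, general `Θ` (`1/x ≤ Θ ≤ 1/L^6`), `g` bounded by `1`
(`S2 g N ≤ N ≤ x`, `∑|g| ≤ x`) and only the frequencies `|t| > T0 = L^{4m}` (so the part (0) and the hypothesis `CorL.low` disappear).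
Notation: `G = ge g N 0 0 Θ s`, `T1 = L^4 (Θ x + 1) ≤ x/L^2 + L^4 ≤ x`, `M ≥ x/L^{C0}`.
`SP.mel_l` for `|t| ≤ T1`: `2|t|/(Θ M) ≤ 2 L^4 (Θ x + 1) L^{C0}/(Θ x) ≤ 4 L^{C0+4}` because `Θ x ≥ 1`; with `A_y(t) = cor g 0 M 0 (t/2π) y`
   `|Mel G t|^2 ≤ (L^{C7}/x) (|A_N(t)|^2 + (1/x) ∑_{y ∈ Ioc M N} |A_y(t)|^2)`, `C7 = 5 C0 + 13`.                           (*)
 (1) `T0 < |t| ≤ T1`, `|ZZ S t|^2 ≤ P/L^{E+3}`: `≤ (P/L^{E+3}) ∫ |Mel G|^2 ≤ (P/L^{E+3}) 2π · 2 S2 ≤ 13 P x/L^{E+3}` (`ge_L2`, Parseval for `Mel` as in `IIL`).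
 (2) `T0 < |t| ≤ T1`, `|ZZ S t|^2 > P/L^{E+3}`: dyadic sets as in `IIL` (`bad_n (E + 3) η`); after the substitution `t = 2 π τ` they satisfy `BS η T B'`,
     `T = 2^i T0/(2π) ≥ L^m`, `T ≤ x`; `CorM.large`: as in `IIL`, `K = C7 + E + 2`.
 (3) `|t| > T1`: `mel_tl` (`S0 = M`, `a0 = 0`, `a = 0`): `|Mel G t| ≤ 3 x exp(-|t|/(40 (Θ N + 1)))` and `T1/(40 (Θ N + 1)) ≥ L^4/40`, as in `IIL`, part (3).
`IIL_core` then gives the bound of `∫_{|t| > T0}` (drop its part (0): bound the integrand by the other three functions only for `|t| > T0`).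
-/

set_option autoImplicit false

namespace Pool.Agent.H76.MU

open Finset MeasureTheory
open Pool.Agent.H91.PK (ee)
open Pool.Agent.H76.EHB
open Pool.Agent.H35.W

/-- the splitting of the integral -/
private theorem IIG_core (F M : ℝ → ℝ) (P8 ZB T0 T1 K c3 : ℝ) (I : Finset ℕ) (𝓑 : ℕ → Set ℝ)
    (μ : ℕ → ℝ) (hF : ∀ t, 0 ≤ F t) (hF8 : ∀ t, F t ≤ P8) (hM : ∀ t, 0 ≤ M t)
    (hiM : Integrable M) (hK : ∫ t, M t ≤ K) (hiFM : Integrable (fun t => F t * M t))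
    (hZB : 0 ≤ ZB)
    (hBm : ∀ i ∈ I, MeasurableSet (𝓑 i))
    (hBμ : ∀ i ∈ I, ∫ t in 𝓑 i, M t ≤ μ i)
    (hcov : ∀ t, T0 < |t| → |t| ≤ T1 → ZB < F t → ∃ i ∈ I, t ∈ 𝓑 i)
    (hc3 : 0 ≤ c3) (htl : ∀ t, T1 < |t| → M t ≤ c3 * (1 + t ^ 2)⁻¹) :
    ∫ t in {t : ℝ | T0 < |t|}, F t * M t ≤ ZB * K + ∑ i ∈ I, P8 * μ i + P8 * c3 * Real.pi := by
  have hP8 : 0 ≤ P8 := (hF 0).trans (hF8 0)
  let g2 : ℝ → ℝ := fun t => ZB * M t
  let g3 : ℝ → ℝ := fun t => ∑ i ∈ I, (𝓑 i).indicator (fun t => P8 * M t) t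
  let g4 : ℝ → ℝ := fun t => (P8 * c3) * (1 + t ^ 2)⁻¹
  have hg2 : Integrable g2 := hiM.const_mul ZB
  have hg3i : ∀ i ∈ I, Integrable ((𝓑 i).indicator (fun t => P8 * M t)) := fun i hi =>
    (hiM.const_mul P8).indicator (hBm i hi)
  have hg3 : Integrable g3 := integrable_finsetSum I hg3i
  have hg4 : Integrable g4 := integrable_inv_one_add_sq.const_mul (P8 * c3)
  have hn2 : ∀ t, 0 ≤ g2 t := fun t => mul_nonneg hZB (hM t)
  have hn3i : ∀ i ∈ I, ∀ t, 0 ≤ (𝓑 i).indicator (fun t => P8 * M t) t := fun i hi t =>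
    Set.indicator_nonneg (fun u _ => mul_nonneg hP8 (hM u)) t
  have hn3 : ∀ t, 0 ≤ g3 t := fun t => Finset.sum_nonneg fun i hi => hn3i i hi t
  have hn4 : ∀ t, 0 ≤ g4 t := fun t => by positivity
  have hmeas : MeasurableSet {t : ℝ | T0 < |t|} :=
    (isOpen_lt continuous_const continuous_abs).measurableSet
  have hpt : ∀ t, {t : ℝ | T0 < |t|}.indicator (fun t => F t * M t) t ≤ g2 t + g3 t + g4 t := by
    intro t
    have a2 := hn2 t
    have a3 := hn3 t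
    have a4 := hn4 t
    by_cases h0 : T0 < |t|
    · rw [Set.indicator_of_mem (show t ∈ {t : ℝ | T0 < |t|} from h0)]
      by_cases h1 : |t| ≤ T1
      · by_cases h2 : ZB < F t
        · obtain ⟨i, hi, hti⟩ := hcov t h0 h1 h2
          have h3 : P8 * M t ≤ g3 t := by
            have h4 : (𝓑 i).indicator (fun t => P8 * M t) t ≤ g3 t :=
              Finset.single_le_sum (f := fun i => (𝓑 i).indicator (fun t => P8 * M t) t)
                (fun j hj => hn3i j hj t) hi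
            rwa [Set.indicator_of_mem hti] at h4
          have h4 : F t * M t ≤ P8 * M t := mul_le_mul_of_nonneg_right (hF8 t) (hM t)
          linarith only [a2, a4, h3, h4]
        · push Not at h2
          have h3 : F t * M t ≤ ZB * M t := mul_le_mul_of_nonneg_right h2 (hM t)
          have h4 : g2 t = ZB * M t := rfl
          linarith
      · push Not at h1
        have h2 : F t * M t ≤ P8 * (c3 * (1 + t ^ 2)⁻¹) :=
          mul_le_mul (hF8 t) (htl t h1) (hM t) hP8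
        have h3 : g4 t = P8 * (c3 * (1 + t ^ 2)⁻¹) := by
          show (P8 * c3) * (1 + t ^ 2)⁻¹ = _
          ring
        linarith only [a2, a3, h2]
    · rw [Set.indicator_of_notMem (show t ∉ {t : ℝ | T0 < |t|} from h0)]
      linarith only [a2, a3, a4]
  rw [← integral_indicator hmeas]
  have hle : ∫ t, {t : ℝ | T0 < |t|}.indicator (fun t => F t * M t) t ≤
      ∫ t, (g2 t + g3 t + g4 t) :=
    integral_mono (hiFM.indicator hmeas) ((hg2.add hg3).add hg4) hpt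
  have e2 : ∫ t, g2 t ≤ ZB * K := by
    show ∫ t, ZB * M t ≤ _
    rw [integral_const_mul]
    exact mul_le_mul_of_nonneg_left hK hZB
  have e3 : ∫ t, g3 t ≤ ∑ i ∈ I, P8 * μ i := by
    show ∫ t, ∑ i ∈ I, (𝓑 i).indicator (fun t => P8 * M t) t ≤ _
    rw [integral_finsetSum I hg3i]
    refine Finset.sum_le_sum fun i hi => ?_
    rw [integral_indicator (hBm i hi), integral_const_mul]
    exact mul_le_mul_of_nonneg_left (hBμ i hi) hP8
  have e4 : ∫ t, g4 t = P8 * c3 * Real.pi := by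
    show ∫ t, (P8 * c3) * (1 + t ^ 2)⁻¹ = _
    rw [integral_const_mul, integral_univ_inv_one_add_sq]
  have e5 : ∫ t, (g2 t + g3 t + g4 t) = (∫ t, g2 t) + (∫ t, g3 t) + ∫ t, g4 t := by
    have k1 : ∫ t, (g2 t + g3 t + g4 t) = (∫ t, (g2 t + g3 t)) + ∫ t, g4 t :=
      integral_add (hg2.add hg3) hg4
    have k2 : ∫ t, (g2 t + g3 t) = (∫ t, g2 t) + ∫ t, g3 t := integral_add hg2 hg3
    rw [k1, k2]
  linarith only [hle, e2, e3, e4, e5]

/-- the exponential decay against `1/(1+t^2)` -/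
private theorem IIG_exp (t D T : ℝ) (hD : 1 ≤ D) (hT : 20 ≤ T) (ht : T * D ≤ |t|) :
    Real.exp (-(|t| / (20 * D))) ≤ 3208 * D ^ 2 * Real.exp (-(T / 40)) * (1 + t ^ 2)⁻¹ := by
  have hD0 : 0 < D := by linarith
  set u := |t| / (20 * D) with hu
  have ht2 : |t| = 20 * D * u := by rw [hu]; field_simp
  have hu1 : T / 20 ≤ u := by
    rw [hu, le_div_iff₀ (by positivity)]
    calc T / 20 * (20 * D) = T * D := by ring
      _ ≤ |t| := ht
  have hu2 : 1 ≤ u := by linarith only [hT, hu1]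
  have h1 : t ^ 2 = 400 * D ^ 2 * u ^ 2 := by
    rw [← sq_abs, ht2]; ring
  have h2 : u ^ 2 ≤ 8 * Real.exp (u / 2) := by
    have := Real.quadratic_le_exp_of_nonneg (show 0 ≤ u / 2 by linarith only [hT, hu1])
    nlinarith only [hT, hu1, this]
  have h3 : 1 + t ^ 2 ≤ 401 * D ^ 2 * u ^ 2 := by
    rw [h1]
    have : 1 ≤ D ^ 2 * u ^ 2 := one_le_mul_of_one_le_of_one_le (one_le_pow₀ hD) (one_le_pow₀ hu2)
    linarith only [this]
  rw [← div_eq_mul_inv, le_div_iff₀ (by positivity)]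
  have h4 : Real.exp (-u) = Real.exp (-(u / 2)) * Real.exp (-(u / 2)) := by
    rw [← Real.exp_add]; congr 1; ring
  have h5 : Real.exp (-(u / 2)) * Real.exp (u / 2) = 1 := by
    rw [← Real.exp_add]; simp
  have h6 : Real.exp (-(u / 2)) ≤ Real.exp (-(T / 40)) := Real.exp_le_exp.2 (by linarith only [hu1])
  calc Real.exp (-u) * (1 + t ^ 2) ≤ Real.exp (-u) * (401 * D ^ 2 * (8 * Real.exp (u / 2))) := by
        apply mul_le_mul_of_nonneg_left _ (Real.exp_pos _).le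
        exact h3.trans (mul_le_mul_of_nonneg_left h2 (by positivity))
    _ = 3208 * D ^ 2 * Real.exp (-(u / 2)) * (Real.exp (-(u / 2)) * Real.exp (u / 2)) := by
        rw [h4]; ring
    _ = 3208 * D ^ 2 * Real.exp (-(u / 2)) := by rw [h5, mul_one]
    _ ≤ 3208 * D ^ 2 * Real.exp (-(T / 40)) := mul_le_mul_of_nonneg_left h6 (by positivity)

private theorem IIG_ZZ_cont (S : Finset ℕ) (hS : ∀ k ∈ S, 1 ≤ k) : Continuous (ZZ S) := by
  unfold ZZ
  refine continuous_finsetSum _ fun k hk => ?_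
  have hk0 : (k : ℂ) ≠ 0 := by
    have := hS k hk
    exact_mod_cast (by omega : k ≠ 0)
  exact Continuous.const_cpow (by fun_prop) (Or.inl hk0)

private theorem IIG_fin4 (X L P w : ℝ) (E : ℕ) (hX2 : 2 ≤ X) (hLbig : 1000000 ≤ L)
    (hP0 : 0 < P) (hw1 : 1 ≤ w) (hexp : Real.exp L = X) (hLE : L ^ (E + 3) ≤ X) (hLX : L ≤ X) :
    8 * P * (9 * (X ^ 2 * L ^ 2) * (3208 * (2 * X) ^ 2 * Real.exp (-(L ^ 4 / 40))))
      * Real.pi ≤ 1 / 4 * (P * X / L ^ E * w ^ 2) := by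
  have hL0 : 0 < L := by linarith only [hLbig]
  have hL1 : 1 ≤ L := by linarith only [hLbig]
  have hX0 : 0 < X := by linarith only [hLbig, hLX]
  have hw2 : 1 ≤ w ^ 2 := one_le_pow₀ hw1
  have h1 : Real.exp (-(L ^ 4 / 40)) ≤ 1 / X ^ 5 := by
    have h2 : 5 * L ≤ L ^ 4 / 40 := by
      have h3 : L ^ 4 = L ^ 3 * L := by ring
      have h4 : 200 ≤ L ^ 3 := by
        calc (200 : ℝ) ≤ L := by linarith only [hLbig]
          _ = L ^ 1 := (pow_one L).symm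
          _ ≤ L ^ 3 := pow_le_pow_right₀ hL1 (by norm_num)
      have h5 : 200 * L ≤ L ^ 3 * L := mul_le_mul_of_nonneg_right h4 hL0.le
      linarith only [h5]
    calc Real.exp (-(L ^ 4 / 40)) ≤ Real.exp (-(5 * L)) := Real.exp_le_exp.2 (by linarith only [h2])
      _ = 1 / X ^ 5 := by
          rw [Real.exp_neg, ← hexp, ← Real.exp_nat_mul, one_div]
          norm_num
  have h2 : Real.pi ≤ 4 := Real.pi_lt_four.le
  have h3 : L ^ (E + 2) * 3695616 * 16 ≤ X ^ 2 := by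
    have h4 : L ^ (E + 3) = L * L ^ (E + 2) := by ring
    have h5 : 1000000 * L ^ (E + 2) ≤ L * L ^ (E + 2) :=
      mul_le_mul_of_nonneg_right hLbig (by positivity)
    have h6 : 1000000 * L ^ (E + 2) ≤ X := by linarith only [hLE, h4, h5]
    have h7 : 100 ≤ X := by linarith only [hLbig, hLX]
    have h8 : 100 * (1000000 * L ^ (E + 2)) ≤ X * X := mul_le_mul h7 h6 (by positivity) hX0.le
    have h9 : 0 < L ^ (E + 2) := by positivity
    linarith only [h8, h9]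
  calc 8 * P * (9 * (X ^ 2 * L ^ 2) * (3208 * (2 * X) ^ 2 * Real.exp (-(L ^ 4 / 40)))) * Real.pi
      ≤ 8 * P * (9 * (X ^ 2 * L ^ 2) * (3208 * (2 * X) ^ 2 * (1 / X ^ 5))) * 4 := by
        gcongr
    _ = P * X / L ^ E * ((L ^ (E + 2) * 3695616) / X ^ 2) := by
        field_simp
        ring
    _ ≤ P * X / L ^ E * (1 / 4) := by
        apply mul_le_mul_of_nonneg_left _ (by positivity)
        rw [div_le_div_iff₀ (by positivity) (by norm_num)]
        have h9 : 0 < L ^ (E + 2) := by positivity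
        linarith only [h3, h9]
    _ = 1 / 4 * (P * X / L ^ E * 1) := by ring
    _ ≤ 1 / 4 * (P * X / L ^ E * w ^ 2) := by gcongr

private theorem IIG_fin3 (X L P : ℝ) (C7 E K n : ℕ) (I : Finset ℕ) (hX1 : 1 ≤ X)
    (hLbig : 1000000 ≤ L) (hP0 : 0 < P) (hK : K = C7 + E + 2) (hn : n = ⌈4 * L⌉₊)
    (hI : I ⊆ range n) :
    ∑ _i ∈ I, 8 * P * (4 * Real.pi * X * L ^ C7 / L ^ K) ≤ 1 / 4 * (P * X / L ^ E) := by
  have hL0 : 0 < L := by linarith only [hLbig]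
  have hX0 : 0 < X := by linarith only [hX1]
  have h2 : (I.card : ℝ) ≤ 5 * L := by
    have h3 : I.card ≤ n := (Finset.card_le_card hI).trans (by rw [Finset.card_range])
    have h4 : (n : ℝ) < 4 * L + 1 := by
      rw [hn]
      exact Nat.ceil_lt_add_one (by positivity)
    have h5 : (I.card : ℝ) ≤ n := by exact_mod_cast h3
    linarith only [hLbig, h4, h5]
  have hpi : Real.pi ≤ 4 := Real.pi_lt_four.le
  rw [Finset.sum_const, nsmul_eq_mul]
  calc (I.card : ℝ) * (8 * P * (4 * Real.pi * X * L ^ C7 / L ^ K))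
      ≤ (5 * L) * (8 * P * (4 * 4 * X * L ^ C7 / L ^ K)) := by
        gcongr
    _ = (P * X / L ^ E) * (640 / L) := by
        rw [hK]
        field_simp
        ring
    _ ≤ (P * X / L ^ E) * (1 / 4) := by
        apply mul_le_mul_of_nonneg_left _ (by positivity)
        rw [div_le_iff₀ hL0]
        linarith only [hLbig]
    _ = 1 / 4 * (P * X / L ^ E) := by ring

/-- the change of variables `t = 2 π τ` -/
private theorem IIG_cv (f : ℝ → ℝ) (B : Set ℝ) (hB : MeasurableSet B) :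
    ∫ t in B, f (t / (2 * Real.pi)) =
      2 * Real.pi * ∫ τ in ((2 * Real.pi) * ·) ⁻¹' B, f τ := by
  have hpi : (0 : ℝ) < 2 * Real.pi := by positivity
  have hB' : MeasurableSet (((2 * Real.pi) * ·) ⁻¹' B) := (measurable_const_mul (2 * Real.pi)) hB
  rw [← integral_indicator hB, ← integral_indicator hB']
  have h1 : B.indicator (fun t => f (t / (2 * Real.pi))) =
      fun t => ((((2 * Real.pi) * ·) ⁻¹' B).indicator f) (t / (2 * Real.pi)) := by
    funext t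
    have h2 : 2 * Real.pi * (t / (2 * Real.pi)) = t := by field_simp
    by_cases ht : t ∈ B
    · rw [Set.indicator_of_mem ht, Set.indicator_of_mem]
      simp only [Set.mem_preimage]
      rw [h2]
      exact ht
    · rw [Set.indicator_of_notMem ht, Set.indicator_of_notMem]
      simp only [Set.mem_preimage]
      rw [h2]
      exact ht
  rw [h1, Measure.integral_comp_div, abs_of_pos hpi, smul_eq_mul]

private theorem IIG_vol (B : Set ℝ) :
    volume.real (((2 * Real.pi) * ·) ⁻¹' B) = (2 * Real.pi)⁻¹ * volume.real B := by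
  have hpi : (0 : ℝ) < 2 * Real.pi := by positivity
  rw [measureReal_def, measureReal_def, Real.volume_preimage_mul_left hpi.ne',
    ENNReal.toReal_mul, ENNReal.toReal_ofReal (abs_nonneg _), abs_of_pos (inv_pos.mpr hpi)]

private theorem IIG_piece (Mt : ℝ → ℝ) (f : ℕ → ℝ → ℝ) (B : Set ℝ) (a c J : ℝ) (N : ℕ)
    (s : Finset ℕ) (hB : MeasurableSet B) (hMi : IntegrableOn Mt B)
    (hfi : ∀ y, IntegrableOn (f y) B) (ha : 0 ≤ a) (hc : 0 ≤ c) (hs : ∀ y ∈ s, y ≤ N)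
    (hM : ∀ t ∈ B, Mt t ≤ a * (f N t + c * ∑ y ∈ s, f y t))
    (hJ : ∀ y, y ≤ N → ∫ t in B, f y t ≤ J) :
    ∫ t in B, Mt t ≤ a * (J + c * (s.card * J)) := by
  have h1 : IntegrableOn (fun t => ∑ y ∈ s, f y t) B := integrable_finsetSum s fun y _ => hfi y
  have h2 : IntegrableOn (fun t => f N t + c * ∑ y ∈ s, f y t) B := (hfi N).add (h1.const_mul c)
  refine (setIntegral_mono_on hMi (h2.const_mul a) hB hM).trans ?_
  rw [integral_const_mul, integral_add (hfi N) (h1.const_mul c), integral_const_mul,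
    integral_finsetSum s fun y _ => hfi y]
  apply mul_le_mul_of_nonneg_left _ ha
  apply add_le_add (hJ N le_rfl)
  apply mul_le_mul_of_nonneg_left _ hc
  refine (Finset.sum_le_sum fun y hy => hJ y (hs y hy)).trans ?_
  rw [Finset.sum_const, nsmul_eq_mul]

private theorem IIG_cor_cont (g : ℕ → ℝ) (M : ℕ) (α : ℝ) (y : ℕ) :
    Continuous (fun τ : ℝ => ‖cor g 0 M α τ y‖ ^ 2) := by
  refine (Continuous.norm ?_).pow 2
  unfold cor
  refine continuous_finsetSum _ fun n _ => continuous_const.mul ?_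
  exact continuous_ee.comp (by fun_prop)

/-- `∑ |g| ≤ N` -/
private theorem IIG_l1 (g : ℕ → ℝ) (N : ℕ) (X : ℝ) (hN : (N : ℝ) ≤ X) (hb : ∀ n, |g n| ≤ 1) :
    (∑ n ∈ Icc 1 N, |g n|) ^ 2 ≤ X ^ 2 := by
  have h1 : ∑ n ∈ Icc 1 N, |g n| ≤ N := by
    refine (Finset.sum_le_sum fun n _ => hb n).trans ?_
    simp
  exact pow_le_pow_left₀ (Finset.sum_nonneg fun n _ => abs_nonneg _) (h1.trans hN) 2

private theorem IIG_S2 (g : ℕ → ℝ) (N : ℕ) (X : ℝ) (hN : (N : ℝ) ≤ X) (hb : ∀ n, |g n| ≤ 1) :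
    S2 g N ≤ X := by
  have h1 : S2 g N ≤ N := by
    unfold S2
    refine (Finset.sum_le_sum (g := fun _ => (1 : ℝ)) fun n _ => ?_).trans ?_
    · have := hb n
      rw [← sq_abs]
      exact pow_le_one₀ (abs_nonneg _) this
    · simp
  exact h1.trans hN

private theorem IIG_fin2 (X L P ZB : ℝ) (E : ℕ) (hX0 : 0 < X) (hLbig : 1000000 ≤ L)
    (hP0 : 0 < P) (hZB : ZB = P / L ^ (E + 3)) :
    ZB * (4 * Real.pi * X) ≤ 1 / 4 * (P * X / L ^ E) := by
  have hL0 : 0 < L := by linarith only [hLbig]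
  have hL1 : 1 ≤ L := by linarith only [hLbig]
  rw [hZB]
  have h1 : P / L ^ (E + 3) * (4 * Real.pi * X) = (P * X / L ^ E) * (4 * Real.pi / L ^ 3) := by
    field_simp
    ring
  have h3 : L ≤ L ^ 3 := by
    calc L = L ^ 1 := (pow_one L).symm
      _ ≤ L ^ 3 := pow_le_pow_right₀ hL1 (by norm_num)
  have h2 : 4 * Real.pi / L ^ 3 ≤ 1 / 4 := by
    rw [div_le_iff₀ (by positivity)]
    linarith only [hLbig, h3, Real.pi_lt_four]
  rw [h1]
  calc (P * X / L ^ E) * (4 * Real.pi / L ^ 3) ≤ (P * X / L ^ E) * (1 / 4) :=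
        mul_le_mul_of_nonneg_left h2 (by positivity)
    _ = 1 / 4 * (P * X / L ^ E) := by ring

/-- the size of the Mellin transform in `|t| ≤ T1` -/
private theorem IIG_mel (g : ℕ → ℝ) (N M : ℕ) (α s t X L Θ : ℝ) (C0 : ℕ) (hs : s = 1 ∨ s = -1)
    (hX : 0 < X) (hL : 1000 ≤ L) (hΘ : 1 / X ≤ Θ) (hM : X / L ^ C0 ≤ M) (hM1 : 1 ≤ M)
    (hN : (N : ℝ) ≤ X) (hg : ∀ n, n ∉ Ioc M N → g n = 0)
    (ht : |t| ≤ L ^ 4 * (Θ * X + 1)) :
    ‖Mel (ge g N α 0 Θ s) t‖ ^ 2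
      ≤ L ^ (5 * C0 + 13) / X * (‖cor g 0 M α (t / (2 * Real.pi)) N‖ ^ 2
        + 1 / X * ∑ y ∈ Ioc M N, ‖cor g 0 M α (t / (2 * Real.pi)) y‖ ^ 2) := by
  have hL0 : 0 < L := by linarith only [hL]
  have hL1 : 1 ≤ L := by linarith only [hL]
  have hM0 : (0 : ℝ) < M := by exact_mod_cast hM1
  have hΘ0 : (0 : ℝ) < Θ := lt_of_lt_of_le (by positivity) hΘ
  have hΘX : 1 ≤ Θ * X := by rwa [div_le_iff₀ hX] at hΘ
  refine (Pool.Agent.H76.SP.mel_l g N M α Θ s t hs hΘ0 hM1 hg).trans ?_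
  set a := ‖cor g 0 M α (t / (2 * Real.pi)) N‖ ^ 2 with ha
  set b := ∑ y ∈ Ioc M N, ‖cor g 0 M α (t / (2 * Real.pi)) y‖ ^ 2 with hb
  have ha0 : 0 ≤ a := by positivity
  have hb0 : 0 ≤ b := Finset.sum_nonneg fun y _ => by positivity
  have hMinv : 1 / (M : ℝ) ≤ L ^ C0 / X := by
    rw [div_le_iff₀ (by positivity)] at hM
    rw [div_le_div_iff₀ hM0 hX, one_mul]
    linarith only [hM]
  have h1 : 2 * |t| / (Θ * (M : ℝ)) ≤ 4 * L ^ (C0 + 4) := by
    have h2 : |t| ≤ L ^ 4 * (2 * (Θ * X)) := by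
      refine ht.trans ?_
      apply mul_le_mul_of_nonneg_left _ (by positivity)
      linarith only [hΘX]
    calc 2 * |t| / (Θ * (M : ℝ)) = 2 * |t| / Θ * (1 / (M : ℝ)) := by field_simp
      _ ≤ 2 * (L ^ 4 * (2 * (Θ * X))) / Θ * (L ^ C0 / X) := by gcongr
      _ = 4 * L ^ (C0 + 4) := by
          field_simp
          ring
  have h3 : 1 + 2 * |t| / (Θ * (M : ℝ)) ≤ 5 * L ^ (C0 + 4) := by
    have : 1 ≤ L ^ (C0 + 4) := one_le_pow₀ hL1
    linarith only [h1, this]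
  have h4 : (1 + 2 * |t| / (Θ * (M : ℝ))) ^ 2 / (M : ℝ) ^ 2 * N ≤
      25 * L ^ (4 * C0 + 8) * (1 / X) := by
    calc (1 + 2 * |t| / (Θ * (M : ℝ))) ^ 2 / (M : ℝ) ^ 2 * N
        = (1 + 2 * |t| / (Θ * (M : ℝ))) ^ 2 * (1 / (M : ℝ)) ^ 2 * N := by
          field_simp
      _ ≤ (5 * L ^ (C0 + 4)) ^ 2 * (L ^ C0 / X) ^ 2 * X := by gcongr
      _ = 25 * L ^ (4 * C0 + 8) * (1 / X) := by
          field_simp
          ring
  have h5 : 6 / (M : ℝ) ≤ 6 * L ^ C0 / X := by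
    calc 6 / (M : ℝ) = 6 * (1 / (M : ℝ)) := by ring
      _ ≤ 6 * (L ^ C0 / X) := by linarith only [hMinv]
      _ = _ := by ring
  have h6 : 6 * L ^ C0 ≤ L ^ (5 * C0 + 13) := by
    have e1 : L ^ C0 ≤ L ^ (5 * C0 + 12) := pow_le_pow_right₀ hL1 (by omega)
    have e2 : L ^ (5 * C0 + 13) = L * L ^ (5 * C0 + 12) := by ring
    rw [e2]
    have e3 : 0 < L ^ C0 := by positivity
    calc 6 * L ^ C0 ≤ L * L ^ C0 := mul_le_mul_of_nonneg_right (by linarith only [hL]) e3.le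
      _ ≤ L * L ^ (5 * C0 + 12) := mul_le_mul_of_nonneg_left e1 hL0.le
  have h7 : 6 * L ^ C0 * (25 * L ^ (4 * C0 + 8)) ≤ L ^ (5 * C0 + 13) := by
    have e1 : L ^ (5 * C0 + 8) ≤ L ^ (5 * C0 + 12) := pow_le_pow_right₀ hL1 (by omega)
    have e2 : L ^ (5 * C0 + 13) = L * L ^ (5 * C0 + 12) := by ring
    rw [e2]
    have e3 : 0 < L ^ (5 * C0 + 8) := by positivity
    calc 6 * L ^ C0 * (25 * L ^ (4 * C0 + 8)) = 150 * L ^ (5 * C0 + 8) := by ring
      _ ≤ L * L ^ (5 * C0 + 8) := mul_le_mul_of_nonneg_right (by linarith only [hL]) e3.le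
      _ ≤ L * L ^ (5 * C0 + 12) := mul_le_mul_of_nonneg_left e1 hL0.le
  have hv : 0 ≤ (1 + 2 * |t| / (Θ * (M : ℝ))) ^ 2 / (M : ℝ) ^ 2 * N := by positivity
  have hu : 0 ≤ 6 * L ^ C0 / X := by positivity
  have hw : 0 ≤ (1 / X) * b := mul_nonneg (by positivity) hb0
  clear_value a b
  calc 6 / (M : ℝ) * (a + (1 + 2 * |t| / (Θ * (M : ℝ))) ^ 2 / (M : ℝ) ^ 2 * N * b)
      ≤ 6 * L ^ C0 / X * (a + 25 * L ^ (4 * C0 + 8) * (1 / X) * b) := by
        exact mul_le_mul h5 (add_le_add le_rfl (mul_le_mul_of_nonneg_right h4 hb0))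
          (add_nonneg ha0 (mul_nonneg hv hb0)) hu
    _ = (6 * L ^ C0) / X * a + (6 * L ^ C0 * (25 * L ^ (4 * C0 + 8))) / X * ((1 / X) * b) := by
        ring
    _ ≤ L ^ (5 * C0 + 13) / X * a + L ^ (5 * C0 + 13) / X * ((1 / X) * b) := by
        apply add_le_add
        · apply mul_le_mul_of_nonneg_right _ ha0
          exact div_le_div_of_nonneg_right h6 hX.le
        · apply mul_le_mul_of_nonneg_right _ hw
          exact div_le_div_of_nonneg_right h7 hX.le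
    _ = _ := by ring

theorem ii_g (C0 E : ℕ) (η : ℝ) (hη : 0 < η) (hη1 : η ≤ 1) : ∃ b K m0 : ℕ, ∀ m : ℕ, m0 ≤ m →
    ∃ x0 : ℕ, ∀ x : ℕ, x0 ≤ x → ∀ (g : ℕ → ℝ) (N M P : ℕ) (S : Finset ℕ) (Θ s : ℝ),
      CorM x m K η N M g → N ≤ x → x / Real.log x ^ C0 ≤ M → Real.log x ^ b ≤ P →
      P ≤ x → S ⊆ pb P → 1 / (x : ℝ) ≤ Θ → Θ ≤ 1 / Real.log x ^ 6 → (s = 1 ∨ s = -1) →
      ∫ t in {t : ℝ | Real.log x ^ (4 * m) < |t|}, ‖ZZ S t‖ ^ 2 * ‖Mel (ge g N 0 0 Θ s) t‖ ^ 2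
        ≤ P * x / Real.log x ^ E := by
  obtain ⟨b, mb, xb, hbad⟩ := bad_n (E + 3) η hη
  obtain ⟨C7, hC7⟩ : ∃ C7 : ℕ, C7 = 5 * C0 + 13 := ⟨_, rfl⟩
  obtain ⟨K, hKdef⟩ : ∃ K : ℕ, K = C7 + E + 2 := ⟨_, rfl⟩
  refine ⟨b, K, max mb 1, fun m hm => ?_⟩
  have hm1 : mb ≤ m := (le_max_left _ _).trans hm
  have hm2 : 1 ≤ m := (le_max_right _ _).trans hm
  obtain ⟨x1, hx1⟩ := Pool.Agent.H91.EHA.log_ge 1000000
  obtain ⟨x4, hx4⟩ := Pool.Agent.H91.EHA.log_pow_le_rpow (E + 6 + C0) 1 (by norm_num)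
  refine ⟨max xb (max x1 (max x4 2)), ?_⟩
  intro x hx g N M P S Θ s hcor hNx hM hP hPx hS hΘx hΘL hs
  simp only [max_le_iff] at hx
  obtain ⟨hxb, hxx1, hxx4, hxx5⟩ := hx
  have hLbig := hx1 x hxx1
  have hL4 := hx4 x hxx4
  have hX2 : (2 : ℝ) ≤ x := by exact_mod_cast hxx5
  have hbx := hbad x hxb P S
  have hNX : (N : ℝ) ≤ x := by exact_mod_cast hNx
  have hPX : (P : ℝ) ≤ x := by exact_mod_cast hPx
  set L := Real.log x with hLdef
  obtain ⟨X, hXdef⟩ : ∃ X : ℝ, X = (x : ℝ) := ⟨_, rfl⟩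
  have hLX : L ≤ X := by
    rw [hXdef, hLdef]
    linarith [Real.log_le_sub_one_of_pos (show (0:ℝ) < x by linarith)]
  have hexp : Real.exp L = X := by rw [hLdef, Real.exp_log (by linarith only [hX2]), hXdef]
  rw [Real.rpow_one] at hL4
  rw [← hXdef] at hX2 hL4 hNX hPX hM hΘx ⊢
  have hX0 : 0 < X := by linarith only [hLbig, hLX]
  have hX1 : 1 ≤ X := by linarith only [hLbig, hLX]
  have hL0 : 0 < L := by linarith only [hLbig]
  have hL1 : 1 ≤ L := by linarith only [hLbig]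
  have hPL : 1 ≤ (P : ℝ) := (one_le_pow₀ hL1).trans hP
  have hP0 : 0 < (P : ℝ) := by linarith only [hPL]
  have hL5 : L ^ 5 ≤ X := (pow_le_pow_right₀ hL1 (by omega)).trans hL4
  have hLE : L ^ (E + 3) ≤ X := (pow_le_pow_right₀ hL1 (by omega)).trans hL4
  have hS0 : 1 ≤ X / L ^ C0 := by
    rw [one_le_div (by positivity)]
    exact (pow_le_pow_right₀ hL1 (by omega)).trans hL4
  have hM1 : 1 ≤ M := by
    have : (1 : ℝ) ≤ (M : ℝ) := hS0.trans hM
    exact_mod_cast this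
  have hΘ0 : 0 < Θ := lt_of_lt_of_le (by positivity) hΘx
  have hΘ1 : Θ ≤ 1 := by
    refine hΘL.trans ?_
    rw [div_le_one (by positivity)]
    exact one_le_pow₀ hL1
  -- the parameters
  obtain ⟨T0, hT0⟩ : ∃ T0 : ℝ, T0 = L ^ (4 * m) := ⟨_, rfl⟩
  obtain ⟨T1, hT1⟩ : ∃ T1 : ℝ, T1 = L ^ 4 * (Θ * X + 1) := ⟨_, rfl⟩
  have hT01 : 1 ≤ T0 := hT0 ▸ one_le_pow₀ hL1
  have hT00 : 0 < T0 := by linarith only [hT01]
  have hT1' : T1 ≤ X / L ^ 2 + L ^ 4 := by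
    rw [hT1]
    calc L ^ 4 * (Θ * X + 1) ≤ L ^ 4 * (1 / L ^ 6 * X + 1) := by gcongr
      _ = X / L ^ 2 + L ^ 4 := by field_simp
  have hT1X' : T1 ≤ X := by
    refine hT1'.trans ?_
    have h1 : X / L ^ 2 ≤ X / 2 := by
      apply div_le_div_of_nonneg_left hX0.le (by norm_num)
      nlinarith only [hLbig]
    have h2 : 2 * L ^ 4 ≤ L ^ 5 := by
      have : L ^ 5 = L * L ^ 4 := by ring
      rw [this]
      exact mul_le_mul_of_nonneg_right (by linarith only [hLbig]) (by positivity)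
    linarith only [hL5, h1, h2]
  have hT1X : T1 ≤ X ^ 2 := by
    refine hT1X'.trans ?_
    rw [sq]
    exact le_mul_of_one_le_right hX0.le hX1
  have hT1pos : 0 < T1 := by rw [hT1]; positivity
  -- the function
  obtain ⟨G, hG⟩ : ∃ G : ℝ → ℂ, G = ge g N 0 0 Θ s := ⟨_, rfl⟩
  have hS1 : ∀ k ∈ S, 1 ≤ k := fun k hk => by
    have h1 := hS hk
    simp only [pb, Finset.mem_filter, Finset.mem_Ioc] at h1
    omega
  have hS2 : S ⊆ Icc 1 (2 * P) := fun k hk => by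
    have h1 := hS hk
    simp only [pb, Finset.mem_filter, Finset.mem_Ioc] at h1
    exact Finset.mem_Icc.2 ⟨by omega, h1.1.2⟩
  have hGm : Measurable G := hG ▸ ge_measurable g N _ 0 _ s
  have hGb : ∀ θ, 0 < θ → ‖G θ‖ ≤ (∑ n ∈ Icc 1 N, |g n|) * Real.exp (-(1 / Θ * θ)) := by
    intro θ hθ
    rw [hG]
    have h1 := norm_ge_le g N 0 0 Θ s θ hθ
    have h2 : θ / Θ = 1 / Θ * θ := by ring
    rwa [h2] at h1
  obtain ⟨hI1, hI2⟩ := int_sum_sq_e S hS1 G hGm _ _ (one_div_pos.2 hΘ0) hGb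
  obtain ⟨hJ1, hJ2⟩ := mel_planch_e G hGm _ _ (one_div_pos.2 hΘ0) hGb
  have hS2g : S2 g N ≤ X := IIG_S2 g N X hNX hcor.bd
  have hK : ∫ t, ‖Mel G t‖ ^ 2 ≤ 4 * Real.pi * X := by
    rw [hJ2]
    have h1 := ge_L2 g N 0 0 Θ s hΘ0 hΘ1 hs
    rw [← hG] at h1
    have h2 : (0 : ℝ) ≤ 2 * Real.pi := by positivity
    calc 2 * Real.pi * ∫ θ in Set.Ioi (0 : ℝ), ‖G θ‖ ^ 2 ≤ 2 * Real.pi * (2 * X) :=
          mul_le_mul_of_nonneg_left (h1.trans (by linarith only [hS2g])) h2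
      _ = 4 * Real.pi * X := by ring
  have hmel : ∀ t : ℝ, |t| ≤ T1 →
      ‖Mel G t‖ ^ 2 ≤ L ^ C7 / X * (‖cor g 0 M 0 (t / (2 * Real.pi)) N‖ ^ 2
        + 1 / X * ∑ y ∈ Ioc M N, ‖cor g 0 M 0 (t / (2 * Real.pi)) y‖ ^ 2) := by
    intro t ht
    rw [hG, hC7]
    exact IIG_mel g N M _ s t X L Θ C0 hs hX0 (by linarith only [hLbig]) hΘx hM hM1 hNX hcor.supp (hT1 ▸ ht)
  have hcardN : ((Ioc M N).card : ℝ) ≤ X := by
    rw [Nat.card_Ioc]
    have : ((N - M : ℕ) : ℝ) ≤ (N : ℝ) := by exact_mod_cast Nat.sub_le _ _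
    linarith only [hNX, this]
  -- the dyadic pieces
  obtain ⟨n, hn⟩ : ∃ n : ℕ, n = ⌈4 * L⌉₊ := ⟨_, rfl⟩
  obtain ⟨I, hI⟩ : ∃ I : Finset ℕ, I = (range n).filter (fun i => 2 ^ i * T0 ≤ T1) := ⟨_, rfl⟩
  obtain ⟨ZB, hZB⟩ : ∃ ZB : ℝ, ZB = P / L ^ (E + 3) := ⟨_, rfl⟩
  obtain ⟨𝓑, h𝓑⟩ : ∃ 𝓑 : ℕ → Set ℝ, 𝓑 = fun i =>
    {t | (2 ^ i * T0 ≤ |t| ∧ |t| ≤ T1) ∧ |t| ≤ 2 * (2 ^ i * T0) ∧ ZB < ‖ZZ S t‖ ^ 2} := ⟨_, rfl⟩
  have hBmeas : ∀ i, MeasurableSet (𝓑 i) := by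
    intro i
    rw [h𝓑]
    have hcont : Continuous (fun t => ‖ZZ S t‖ ^ 2) := (IIG_ZZ_cont S hS1).norm.pow 2
    apply MeasurableSet.inter
    · exact ((isClosed_le continuous_const continuous_abs).inter
        (isClosed_le continuous_abs continuous_const)).measurableSet
    · exact (isClosed_le continuous_abs continuous_const).measurableSet.inter
        (isOpen_lt continuous_const hcont).measurableSet
  have hcore := IIG_core (fun t => ‖ZZ S t‖ ^ 2) (fun t => ‖Mel G t‖ ^ 2) (8 * P) ZB T0 T1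
    (4 * Real.pi * X)
    (9 * (X ^ 2 * L ^ 2) * (3208 * (2 * X) ^ 2 * Real.exp (-(L ^ 4 / 40)))) I 𝓑
    (fun _ => 4 * Real.pi * X * L ^ C7 / L ^ K)
    (fun t => sq_nonneg _) (fun t => by
      have h1 := norm_ZZ_sq_le (2 * P) S hS2 t
      push_cast at h1
      linarith only [h1]) (fun t => sq_nonneg _) hJ1 hK hI1 (by rw [hZB]; positivity)
    ?_ ?_ ?_ (by positivity) ?_
  rotate_left
  · -- measurability
    intro i _
    exact hBmeas i
  · -- the pieces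
    intro i hi
    rw [hI, Finset.mem_filter] at hi
    have hTi : T0 ≤ 2 ^ i * T0 := le_mul_of_one_le_left hT00.le (one_le_pow₀ (by norm_num))
    have hTi' : L ^ mb ≤ 2 ^ i * T0 := by
      have h0 : L ^ mb ≤ L ^ (4 * m) := pow_le_pow_right₀ hL1 (by omega)
      rw [← hT0] at h0
      exact h0.trans hTi
    have hTi0 : 0 < 2 ^ i * T0 := by positivity
    have h1 := hbx (2 ^ i * T0) hP hPx hS hTi' (by
        rw [← hXdef]
        refine hi.2.trans (hT1X.trans ?_)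
        exact pow_le_pow_right₀ hX1 (by norm_num))
    have hvol : volume.real (𝓑 i) ≤ (2 ^ i * T0) ^ η := by
      refine le_trans (measureReal_mono ?_ ?_) h1
      · rw [h𝓑, hZB]
        intro t ht
        exact ht.2
      · have h2 : {t : ℝ | |t| ≤ 2 * (2 ^ i * T0) ∧ P / L ^ (E + 3) < ‖ZZ S t‖ ^ 2} ⊆
            Set.Icc (-(2 * (2 ^ i * T0))) (2 * (2 ^ i * T0)) := fun t ht => abs_le.1 ht.1
        exact ne_top_of_le_ne_top (by rw [Real.volume_Icc]; exact ENNReal.ofReal_ne_top)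
          (measure_mono h2)
    have hsub : 𝓑 i ⊆ Set.Icc (-T1) T1 := by
      rw [h𝓑]
      exact fun t ht => abs_le.1 ht.1.2
    have hpi0 : 0 < 2 * Real.pi := by positivity
    have hpi1 : 1 ≤ 2 * Real.pi := by linarith only [hpi0, Real.pi_gt_three]
    have hJ : ∀ y, y ≤ N → ∫ t in 𝓑 i, ‖cor g 0 M 0 (t / (2 * Real.pi)) y‖ ^ 2 ≤
        2 * Real.pi * (X ^ 2 / L ^ K) := by
      intro y hy
      rw [IIG_cv (fun τ => ‖cor g 0 M 0 τ y‖ ^ 2) (𝓑 i) (hBmeas i)]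
      apply mul_le_mul_of_nonneg_left _ hpi0.le
      have h2 := hcor.large y ((2 ^ i * T0) / (2 * Real.pi))
        (((2 * Real.pi) * ·) ⁻¹' (𝓑 i)) hy ?_ ?_
        ⟨(measurable_const_mul (2 * Real.pi)) (hBmeas i), ?_, ?_⟩
      · rw [hXdef]
        exact h2
      · rw [le_div_iff₀ hpi0]
        have h3 : L ^ m * (2 * Real.pi) ≤ L ^ m * L := by
          apply mul_le_mul_of_nonneg_left _ (by positivity)
          linarith only [hLbig, Real.pi_lt_four]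
        have h4 : L ^ m * L ≤ L ^ (4 * m) := by
          rw [← pow_succ]
          exact pow_le_pow_right₀ hL1 (by omega)
        exact h3.trans (h4.trans (hT0 ▸ hTi))
      · rw [← hXdef]
        have h3 : (2 ^ i * T0) / (2 * Real.pi) ≤ (2 ^ i * T0) / 2 :=
          div_le_div_of_nonneg_left hTi0.le (by norm_num) (by linarith only [Real.pi_gt_three])
        have h4 := hi.2
        linarith only [hLbig, hLX, hT1X', hi, h3]
      · intro τ hτ
        rw [Set.mem_preimage, h𝓑] at hτ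
        obtain ⟨⟨e1, _⟩, e2, _⟩ := hτ
        rw [abs_mul, abs_of_pos hpi0] at e1 e2
        constructor
        · rw [div_le_iff₀ hpi0]
          linarith only [e1]
        · have e3 : 2 * ((2 ^ i * T0) / (2 * Real.pi)) = (2 * (2 ^ i * T0)) / (2 * Real.pi) := by
            ring
          rw [e3, le_div_iff₀ hpi0]
          linarith only [e2]
      · rw [IIG_vol, Real.div_rpow hTi0.le hpi0.le, inv_mul_eq_div]
        have h3 : (2 * Real.pi) ^ η ≤ 2 * Real.pi := by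
          calc (2 * Real.pi) ^ η ≤ (2 * Real.pi) ^ (1 : ℝ) :=
                Real.rpow_le_rpow_of_exponent_le hpi1 hη1
            _ = 2 * Real.pi := Real.rpow_one _
        have h4 : 0 < (2 * Real.pi) ^ η := Real.rpow_pos_of_pos hpi0 _
        exact div_le_div₀ (Real.rpow_nonneg hTi0.le _) hvol h4 h3
    have h2 := IIG_piece (fun t => ‖Mel G t‖ ^ 2)
      (fun y t => ‖cor g 0 M 0 (t / (2 * Real.pi)) y‖ ^ 2) (𝓑 i) (L ^ C7 / X) (1 / X)
      (2 * Real.pi * (X ^ 2 / L ^ K)) N (Ioc M N) (hBmeas i) hJ1.integrableOn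
      (fun y => by
        have h3 : Continuous (fun t : ℝ =>
            ‖cor g 0 M 0 (t / (2 * Real.pi)) y‖ ^ 2) :=
          (IIG_cor_cont g M 0 y).comp (by fun_prop)
        exact (h3.integrableOn_Icc).mono_set hsub)
      (by positivity) (by positivity) (fun y hy => (Finset.mem_Ioc.1 hy).2)
      (fun t ht => hmel t (by
        rw [h𝓑] at ht
        exact ht.1.2)) hJ
    refine h2.trans ?_
    have h3 : (1 / X) * ((Ioc M N).card * (2 * Real.pi * (X ^ 2 / L ^ K))) ≤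
        (1 / X) * (X * (2 * Real.pi * (X ^ 2 / L ^ K))) := by
      gcongr
    calc L ^ C7 / X * (2 * Real.pi * (X ^ 2 / L ^ K) +
          1 / X * ((Ioc M N).card * (2 * Real.pi * (X ^ 2 / L ^ K))))
        ≤ L ^ C7 / X * (2 * Real.pi * (X ^ 2 / L ^ K) +
          (1 / X) * (X * (2 * Real.pi * (X ^ 2 / L ^ K)))) := by
          apply mul_le_mul_of_nonneg_left _ (by positivity)
          linarith only [h3]
      _ = 4 * Real.pi * X * L ^ C7 / L ^ K := by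
          field_simp
          ring
  · -- covering
    intro t ht0 ht1 htZ
    obtain ⟨i, hi1, hi2⟩ := exists_nat_pow_near (x := |t| / T0) (y := 2)
      ((one_le_div hT00).2 ht0.le) (by norm_num)
    rw [le_div_iff₀ hT00] at hi1
    rw [div_lt_iff₀ hT00] at hi2
    refine ⟨i, ?_, ?_⟩
    · rw [hI, Finset.mem_filter, Finset.mem_range]
      refine ⟨?_, hi1.trans ht1⟩
      have h1 : (2 : ℝ) ^ i ≤ X ^ 2 := by
        calc (2 : ℝ) ^ i ≤ 2 ^ i * T0 := le_mul_of_one_le_right (by positivity) hT01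
          _ ≤ X ^ 2 := hi1.trans (ht1.trans hT1X)
      have h2 : Real.log (2 ^ i) ≤ Real.log (X ^ 2) := Real.log_le_log (by positivity) h1
      rw [Real.log_pow, Real.log_pow] at h2
      have h3 : Real.log X = L := by rw [hXdef]
      rw [h3] at h2
      have h4 : (i : ℝ) < 4 * L := by
        have h5 := Real.log_two_gt_d9
        push_cast at h2
        by_contra hcon
        push Not at hcon
        have h6 : 4 * L * Real.log 2 ≤ i * Real.log 2 :=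
          mul_le_mul_of_nonneg_right hcon (by linarith only [h5])
        have h7 : 4 * L * (69 / 100) ≤ 4 * L * Real.log 2 :=
          mul_le_mul_of_nonneg_left (by linarith only [h5]) (by linarith only [hLbig])
        linarith only [hLbig, h2, h6, h7]
      rw [hn]
      exact Nat.lt_ceil.2 h4
    · rw [h𝓑]
      refine ⟨⟨hi1, ht1⟩, ?_, htZ⟩
      have h1 : (2 : ℝ) ^ (i + 1) * T0 = 2 * (2 ^ i * T0) := by ring
      rw [h1] at hi2
      exact hi2.le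
  · -- the tail
    intro t ht
    have h1 := mel_tl g N M 0 0 0 Θ s t (X / L ^ C0) hs hΘ0 hS0
      (by rw [Nat.cast_zero, zero_add]; exact hM)
      (by rw [Nat.cast_zero, sub_zero, abs_zero]; positivity)
      hcor.supp
    rw [← hG] at h1
    set D := Θ * (N : ℝ) + 1 with hD
    have hD1 : 1 ≤ D := by
      rw [hD]
      have : 0 ≤ Θ * (N : ℝ) := by positivity
      linarith only [this]
    have hD2 : D ≤ 2 * X := by
      rw [hD]
      have : Θ * (N : ℝ) ≤ 1 * X := mul_le_mul hΘ1 hNX (Nat.cast_nonneg N) (by norm_num)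
      linarith only [hLbig, hLX, this]
    have hD3 : L ^ 4 * D ≤ |t| := by
      refine le_trans ?_ ht.le
      rw [hT1, hD]
      have h2 : Θ * (N : ℝ) ≤ Θ * X := mul_le_mul_of_nonneg_left hNX hΘ0.le
      gcongr
    have hL4' : 20 ≤ L ^ 4 := by
      calc (20 : ℝ) ≤ L := by linarith only [hLbig]
        _ = L ^ 1 := (pow_one L).symm
        _ ≤ L ^ 4 := pow_le_pow_right₀ hL1 (by norm_num)
    have h2 := IIG_exp t D (L ^ 4) hD1 hL4' hD3
    have h3 : ‖Mel G t‖ ^ 2 ≤ 9 * (∑ n ∈ Icc 1 N, |g n|) ^ 2 * Real.exp (-(|t| / (20 * D))) := by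
      calc ‖Mel G t‖ ^ 2 ≤ (3 * (∑ n ∈ Icc 1 N, |g n|) * Real.exp (-(|t| / (40 * D)))) ^ 2 :=
            pow_le_pow_left₀ (norm_nonneg _) h1 2
        _ = 9 * (∑ n ∈ Icc 1 N, |g n|) ^ 2 * (Real.exp (-(|t| / (40 * D)))) ^ 2 := by ring
        _ = 9 * (∑ n ∈ Icc 1 N, |g n|) ^ 2 * Real.exp (-(|t| / (20 * D))) := by
            rw [← Real.exp_nat_mul]
            congr 2
            field_simp
            ring
    have h4 : (∑ n ∈ Icc 1 N, |g n|) ^ 2 ≤ X ^ 2 * L ^ 2 := by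
      refine (IIG_l1 g N X hNX hcor.bd).trans ?_
      exact le_mul_of_one_le_right (by positivity) (one_le_pow₀ hL1)
    calc ‖Mel G t‖ ^ 2 ≤ 9 * (∑ n ∈ Icc 1 N, |g n|) ^ 2 * Real.exp (-(|t| / (20 * D))) := h3
      _ ≤ 9 * (X ^ 2 * L ^ 2) * (3208 * (2 * X) ^ 2 * Real.exp (-(L ^ 4 / 40)) * (1 + t ^ 2)⁻¹) := by
          apply mul_le_mul _ _ (Real.exp_pos _).le (by positivity)
          · linarith only [h4]
          · refine h2.trans ?_
            have h5 : D ^ 2 ≤ (2 * X) ^ 2 := pow_le_pow_left₀ (by linarith only [hD1]) hD2 2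
            gcongr
      _ = _ := by ring
  -- the final estimate
  have hfin2 := IIG_fin2 X L P ZB E hX0 hLbig hP0 hZB
  have hfin3 := IIG_fin3 X L P C7 E K n I hX1 hLbig hP0 hKdef hn
    (by rw [hI]; exact Finset.filter_subset _ _)
  have hfin4 := IIG_fin4 X L P 1 E hX2 hLbig hP0 le_rfl hexp hLE hLX
  rw [one_pow, mul_one] at hfin4
  have hpos : 0 ≤ P * X / L ^ E := by positivity
  rw [← hG, ← hT0]
  refine hcore.trans ?_
  linarith only [hfin2, hfin3, hfin4, hpos]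

end Pool.Agent.H76.MU

end

section

/-!
# MU IIM: the difference of two damped sums

Proof.  `Θ = 1/L^6`, `κ = 6m + 2 C0 + E + 6`, `Θ1 = L^κ/x` (`1/x ≤ Θ1 ≤ Θ` for large `x`), `D = gd g N Θ Θ1 s`, `S ⊆ pb P`, `S2 ≤ x`.
`int_sum_sq_e` (`H35/W/MellE.lean`; `|ge(θ)| ≤ (∑|g|) e^{-θ/Θ}`, `norm_ge_le`; for `D` use `b = 1/Θ` and twice the bound, as `e^{-θ/Θ1} ≤ e^{-θ/Θ}`):
`II S D = (1/2π) ∫ |ZZ S t|^2 |Mel D t|^2 dt`, all integrable; `Mel D = Mel(ge Θ) - Mel(ge Θ1)` (`mellin` of a difference; the Mellin integrals at `1/2 - i t` converge absolutely).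
`|t| ≤ T0 = L^{4m}`: `mel_m`: `|Mel D t| ≤ 3 (1 + L^{4m}) x · L^{3 C0/2} x^{-3/2} · x/L^κ ≤ 6 √x L^{4m + 2 C0 - κ}`, `|ZZ S t|^2 ≤ 8 P` (as in `IIL`): contribution
`≤ 2 T0 · 8 P · 36 x L^{8m + 4 C0 - 2κ} ≤ 576 P x L^{12 m + 4 C0 - 2κ} ≤ P x/(2 L^E)`.
`|t| > T0`: `|Mel D|^2 ≤ 2 |Mel(ge Θ)|^2 + 2 |Mel(ge Θ1)|^2` and `ii_g C0 (E + 3) η` twice: `≤ 4 P x/L^{E+3}`.
-/

set_option autoImplicit false

namespace Pool.Agent.H76.MU

open Finset MeasureTheory
open Pool.Agent.H91.PK (ee)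
open Pool.Agent.H76.EHB
open Pool.Agent.H35.W

/-- the difference of two damped sums -/
noncomputable def gd (g : ℕ → ℝ) (N : ℕ) (Θ Θ1 s θ : ℝ) : ℂ :=
  ge g N 0 0 Θ s θ - ge g N 0 0 Θ1 s θ

/-- convergence of the Mellin integral (copy of the private `melle_conv`) -/
private theorem IIM_conv (g : ℝ → ℂ) (hg : Measurable g) (B b : ℝ) (hb : 0 < b)
    (hB : ∀ θ, 0 < θ → ‖g θ‖ ≤ B * Real.exp (-(b * θ))) (t : ℝ) :
    MellinConvergent g (1 / 2 - t * Complex.I) := by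
  unfold MellinConvergent
  have hmeas : AEStronglyMeasurable
      (fun θ : ℝ => (θ : ℂ) ^ ((1 / 2 : ℂ) - t * Complex.I - 1) • g θ)
      (volume.restrict (Set.Ioi 0)) := by
    have hc : AEStronglyMeasurable (fun θ : ℝ => (θ : ℂ) ^ ((1 / 2 : ℂ) - t * Complex.I - 1))
        (volume.restrict (Set.Ioi 0)) := ?_
    · exact hc.smul hg.aestronglyMeasurable
    refine ContinuousOn.aestronglyMeasurable ?_ measurableSet_Ioi
    intro θ hθ
    exact (Complex.continuousAt_ofReal_cpow_const θ _ (Or.inr (ne_of_gt hθ))).continuousWithinAt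
  have hI : IntegrableOn (fun θ : ℝ => θ ^ (-(1 / 2) : ℝ) * Real.exp (-b * θ ^ (1 : ℝ)) * B)
      (Set.Ioi 0) :=
    (integrableOn_rpow_mul_exp_neg_mul_rpow (by norm_num) one_pos hb).mul_const B
  refine Integrable.mono' hI hmeas ?_
  refine (ae_restrict_iff' measurableSet_Ioi).2 (Filter.Eventually.of_forall fun θ hθ => ?_)
  have hθ' : (0 : ℝ) < θ := hθ
  rw [norm_smul, Complex.norm_cpow_eq_rpow_re_of_pos hθ']
  have hre : ((1 / 2 : ℂ) - t * Complex.I - 1).re = -(1 / 2) := by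
    simp
    norm_num
  rw [hre, Real.rpow_one, mul_assoc]
  refine mul_le_mul_of_nonneg_left ?_ (Real.rpow_nonneg hθ'.le _)
  refine (hB θ hθ').trans (le_of_eq ?_)
  rw [mul_comm, neg_mul]

/-- the Mellin transform of a difference -/
private theorem IIM_mel_sub (g1 g2 : ℝ → ℂ) (t : ℝ)
    (h1 : MellinConvergent g1 (1 / 2 - t * Complex.I))
    (h2 : MellinConvergent g2 (1 / 2 - t * Complex.I)) :
    Mel (fun θ => g1 θ - g2 θ) t = Mel g1 t - Mel g2 t := by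
  unfold Mel mellin
  rw [← integral_sub h1 h2]
  simp only [smul_sub]

/-- the final computation for small `t` -/
private theorem IIM_small (X L N M P : ℝ) (m C0 E κ : ℕ) (t : ℝ) (hX : 0 < X) (hL : 1000 ≤ L)
    (hN0 : 0 ≤ N) (hN : N ≤ X) (hM : X / L ^ C0 ≤ M) (ht : |t| ≤ L ^ (4 * m))
    (hκ : κ = 6 * m + 2 * C0 + E + 6) (hP : 0 ≤ P) :
    (3 * (1 + |t|) * N / (M * Real.sqrt M) / (L ^ κ / X)) ^ 2 * (8 * P) ≤
      P * X / (4 * L ^ E * L ^ (4 * m)) := by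
  have hL0 : 0 < L := by linarith only [hL]
  have hL1 : 1 ≤ L := by linarith only [hL]
  have hY : 0 < X / L ^ C0 := by positivity
  have hM0 : 0 < M := lt_of_lt_of_le hY hM
  have hsq : Real.sqrt M ^ 2 = M := Real.sq_sqrt hM0.le
  have e1 : (3 * (1 + |t|) * N / (M * Real.sqrt M) / (L ^ κ / X)) ^ 2 =
      9 * (1 + |t|) ^ 2 * N ^ 2 / (M ^ 3) / ((L ^ κ) ^ 2 / X ^ 2) := by
    rw [div_pow, div_pow, div_pow, mul_pow, mul_pow, mul_pow, hsq]
    ring
  rw [e1]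
  have hT : 1 ≤ L ^ (4 * m) := one_le_pow₀ hL1
  have h1 : (1 + |t|) ^ 2 ≤ (2 * L ^ (4 * m)) ^ 2 :=
    pow_le_pow_left₀ (by positivity) (by linarith only [ht, hT]) 2
  have h2 : N ^ 2 ≤ X ^ 2 := pow_le_pow_left₀ hN0 hN 2
  have h3 : (X / L ^ C0) ^ 3 ≤ M ^ 3 := pow_le_pow_left₀ hY.le hM 3
  have h4 : 9 * (1 + |t|) ^ 2 * N ^ 2 / (M ^ 3) / ((L ^ κ) ^ 2 / X ^ 2) ≤
      9 * (2 * L ^ (4 * m)) ^ 2 * X ^ 2 / ((X / L ^ C0) ^ 3) / ((L ^ κ) ^ 2 / X ^ 2) := by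
    gcongr
  refine (mul_le_mul_of_nonneg_right h4 (by positivity)).trans ?_
  have e2 : 9 * (2 * L ^ (4 * m)) ^ 2 * X ^ 2 / ((X / L ^ C0) ^ 3) / ((L ^ κ) ^ 2 / X ^ 2) * (8 * P)
      = P * X * (288 * (L ^ (4 * m)) ^ 2 * (L ^ C0) ^ 3 / (L ^ κ) ^ 2) := by
    field_simp
    ring
  rw [e2]
  have e3 : P * X / (4 * L ^ E * L ^ (4 * m)) = P * X * (1 / (4 * L ^ E * L ^ (4 * m))) := by ring
  rw [e3]
  apply mul_le_mul_of_nonneg_left _ (by positivity)
  rw [div_le_div_iff₀ (by positivity) (by positivity)]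
  have e4 : 288 * (L ^ (4 * m)) ^ 2 * (L ^ C0) ^ 3 * (4 * L ^ E * L ^ (4 * m)) =
      1152 * L ^ (12 * m + 3 * C0 + E) := by
    have : L ^ (12 * m + 3 * C0 + E) = (L ^ (4 * m)) ^ 3 * (L ^ C0) ^ 3 * L ^ E := by
      rw [← pow_mul, ← pow_mul, ← pow_add, ← pow_add]
      congr 1
      ring
    rw [this]; ring
  have e5 : (1 : ℝ) * (L ^ κ) ^ 2 = L ^ (12 * m + 3 * C0 + E) * L ^ (C0 + E + 12) := by
    rw [← pow_mul, ← pow_add, one_mul, hκ]
    congr 1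
    ring
  rw [e4, e5, mul_comm (1152 : ℝ)]
  apply mul_le_mul_of_nonneg_left _ (by positivity)
  have h5 : L ^ 2 ≤ L ^ (C0 + E + 12) := pow_le_pow_right₀ hL1 (by omega)
  nlinarith only [hL, h5]

theorem ii_m (C0 E : ℕ) (η : ℝ) (hη : 0 < η) (hη1 : η ≤ 1) : ∃ b K m0 : ℕ, ∀ m : ℕ, m0 ≤ m →
    ∃ κ x0 : ℕ, ∀ x : ℕ, x0 ≤ x → ∀ (g : ℕ → ℝ) (N M P : ℕ) (S : Finset ℕ) (s : ℝ),
      CorM x m K η N M g → N ≤ x → x / Real.log x ^ C0 ≤ M → Real.log x ^ b ≤ P →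
      P ≤ x → S ⊆ pb P → (s = 1 ∨ s = -1) →
      II S (gd g N (1 / Real.log x ^ 6) (Real.log x ^ κ / x) s) ≤ P * x / Real.log x ^ E := by
  obtain ⟨b, K, m0, hg⟩ := ii_g C0 (E + 3) η hη hη1
  refine ⟨b, K, m0, fun m hm => ?_⟩
  obtain ⟨xg, hxg⟩ := hg m hm
  obtain ⟨κ, hκ⟩ : ∃ κ : ℕ, κ = 6 * m + 2 * C0 + E + 6 := ⟨_, rfl⟩
  obtain ⟨x1, hx1⟩ := log_ge 1000
  obtain ⟨x2, hx2⟩ := log_pow_le 1 1 one_pos one_pos (κ + 6 + C0)
  refine ⟨κ, max xg (max x1 (max x2 2)), ?_⟩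
  intro x hx g N M P S s hcor hNx hM hP hPx hS hs
  simp only [max_le_iff] at hx
  obtain ⟨hxxg, hxx1, hxx2, hxx3⟩ := hx
  have hLbig := hx1 x hxx1
  have hLk := hx2 x hxx2
  have hgx := hxg x hxxg g N M P S
  have hX2 : (2 : ℝ) ≤ x := by exact_mod_cast hxx3
  have hNX : (N : ℝ) ≤ x := by exact_mod_cast hNx
  rw [Real.rpow_one, one_mul] at hLk
  set L := Real.log x with hLdef
  obtain ⟨X, hXdef⟩ : ∃ X : ℝ, X = (x : ℝ) := ⟨_, rfl⟩
  rw [← hXdef] at hX2 hLk hNX hM hgx ⊢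
  have hX0 : 0 < X := by linarith only [hX2]
  have hL0 : 0 < L := by linarith only [hLbig]
  have hL1 : 1 ≤ L := by linarith only [hLbig]
  have hPL : 1 ≤ (P : ℝ) := (one_le_pow₀ hL1).trans hP
  have hP0 : 0 < (P : ℝ) := by linarith only [hPL]
  have hLk6 : L ^ (κ + 6) ≤ X := (pow_le_pow_right₀ hL1 (by omega)).trans hLk
  have hL6 : L ^ 6 ≤ X := (pow_le_pow_right₀ hL1 (by omega)).trans hLk
  have hLC : L ^ C0 ≤ X := (pow_le_pow_right₀ hL1 (by omega)).trans hLk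
  have hM1 : 1 ≤ M := by
    have h1 : 1 ≤ X / L ^ C0 := (one_le_div (by positivity)).2 hLC
    have : (1 : ℝ) ≤ (M : ℝ) := h1.trans hM
    exact_mod_cast this
  obtain ⟨Θ, hΘ⟩ : ∃ Θ : ℝ, Θ = 1 / L ^ 6 := ⟨_, rfl⟩
  obtain ⟨Θ1, hΘ1⟩ : ∃ Θ1 : ℝ, Θ1 = L ^ κ / X := ⟨_, rfl⟩
  have hΘ0 : 0 < Θ := by rw [hΘ]; positivity
  have hΘ10 : 0 < Θ1 := by rw [hΘ1]; positivity
  have hΘΘ : Θ1 ≤ Θ := by
    rw [hΘ, hΘ1, div_le_div_iff₀ hX0 (by positivity), ← pow_add, one_mul]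
    exact hLk6
  have hXΘ : 1 / X ≤ Θ := by
    rw [hΘ]
    exact one_div_le_one_div_of_le (by positivity) hL6
  have hXΘ1 : 1 / X ≤ Θ1 := by
    rw [hΘ1]
    exact div_le_div_of_nonneg_right (one_le_pow₀ hL1) hX0.le
  have hgG := hgx Θ s hcor hNx hM hP hPx hS hXΘ (by rw [hΘ]) hs
  have hgG1 := hgx Θ1 s hcor hNx hM hP hPx hS hXΘ1 (by rw [← hΘ]; exact hΘΘ) hs
  rw [← hΘ, ← hΘ1]
  -- the functions
  obtain ⟨G, hG⟩ : ∃ G : ℝ → ℂ, G = ge g N 0 0 Θ s := ⟨_, rfl⟩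
  obtain ⟨G1, hG1⟩ : ∃ G1 : ℝ → ℂ, G1 = ge g N 0 0 Θ1 s := ⟨_, rfl⟩
  have hD : gd g N Θ Θ1 s = fun θ => G θ - G1 θ := by
    funext θ
    rw [hG, hG1]
    rfl
  have hGm : Measurable G := hG ▸ ge_measurable g N 0 0 Θ s
  have hG1m : Measurable G1 := hG1 ▸ ge_measurable g N 0 0 Θ1 s
  obtain ⟨A, hA⟩ : ∃ A : ℝ, A = ∑ n ∈ Icc 1 N, |g n| := ⟨_, rfl⟩
  have hA0 : 0 ≤ A := hA ▸ Finset.sum_nonneg fun n _ => abs_nonneg _
  have hGb : ∀ θ, 0 < θ → ‖G θ‖ ≤ A * Real.exp (-(1 / Θ * θ)) := by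
    intro θ hθ
    rw [hG, hA]
    have h1 := norm_ge_le g N 0 0 Θ s θ hθ
    have h2 : θ / Θ = 1 / Θ * θ := by ring
    rwa [h2] at h1
  have hG1b : ∀ θ, 0 < θ → ‖G1 θ‖ ≤ A * Real.exp (-(1 / Θ1 * θ)) := by
    intro θ hθ
    rw [hG1, hA]
    have h1 := norm_ge_le g N 0 0 Θ1 s θ hθ
    have h2 : θ / Θ1 = 1 / Θ1 * θ := by ring
    rwa [h2] at h1
  have hDm : Measurable (fun θ => G θ - G1 θ) := hGm.sub hG1m
  have hDb : ∀ θ, 0 < θ → ‖G θ - G1 θ‖ ≤ (2 * A) * Real.exp (-(1 / Θ * θ)) := by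
    intro θ hθ
    have h1 : Real.exp (-(1 / Θ1 * θ)) ≤ Real.exp (-(1 / Θ * θ)) := by
      apply Real.exp_le_exp.2
      have h2 : 1 / Θ ≤ 1 / Θ1 := one_div_le_one_div_of_le hΘ10 hΘΘ
      have h3 := mul_le_mul_of_nonneg_right h2 hθ.le
      linarith only [h3]
    calc ‖G θ - G1 θ‖ ≤ ‖G θ‖ + ‖G1 θ‖ := norm_sub_le _ _
      _ ≤ A * Real.exp (-(1 / Θ * θ)) + A * Real.exp (-(1 / Θ1 * θ)) :=
          add_le_add (hGb θ hθ) (hG1b θ hθ)
      _ ≤ A * Real.exp (-(1 / Θ * θ)) + A * Real.exp (-(1 / Θ * θ)) := by gcongr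
      _ = (2 * A) * Real.exp (-(1 / Θ * θ)) := by ring
  have hS1 : ∀ k ∈ S, 1 ≤ k := fun k hk => by
    have h1 := hS hk
    simp only [pb, Finset.mem_filter, Finset.mem_Ioc] at h1
    omega
  have hS2 : S ⊆ Icc 1 (2 * P) := fun k hk => by
    have h1 := hS hk
    simp only [pb, Finset.mem_filter, Finset.mem_Ioc] at h1
    exact Finset.mem_Icc.2 ⟨by omega, h1.1.2⟩
  obtain ⟨hI1, hI2⟩ := int_sum_sq_e S hS1 (fun θ => G θ - G1 θ) hDm _ _ (one_div_pos.2 hΘ0) hDb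
  obtain ⟨hIG, _⟩ := int_sum_sq_e S hS1 G hGm _ _ (one_div_pos.2 hΘ0) hGb
  obtain ⟨hIG1, _⟩ := int_sum_sq_e S hS1 G1 hG1m _ _ (one_div_pos.2 hΘ10) hG1b
  have hmel : ∀ t, Mel (fun θ => G θ - G1 θ) t = Mel G t - Mel G1 t := fun t =>
    IIM_mel_sub G G1 t (IIM_conv G hGm _ _ (one_div_pos.2 hΘ0) hGb t)
      (IIM_conv G1 hG1m _ _ (one_div_pos.2 hΘ10) hG1b t)
  have hZZ : ∀ t, ‖ZZ S t‖ ^ 2 ≤ 8 * P := by
    intro t
    have h1 := norm_ZZ_sq_le (2 * P) S hS2 t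
    push_cast at h1
    linarith only [h1]
  rw [hD, hI2]
  obtain ⟨F, hF⟩ : ∃ F : ℝ → ℝ, F = fun t => ‖ZZ S t‖ ^ 2 * ‖Mel (fun θ => G θ - G1 θ) t‖ ^ 2 :=
    ⟨_, rfl⟩
  obtain ⟨T0, hT0⟩ : ∃ T0 : ℝ, T0 = L ^ (4 * m) := ⟨_, rfl⟩
  have hT01 : 1 ≤ T0 := hT0 ▸ one_le_pow₀ hL1
  rw [← hT0, ← hG] at hgG
  rw [← hT0, ← hG1] at hgG1
  have hAm : MeasurableSet {t : ℝ | T0 < |t|} :=
    (isOpen_lt continuous_const continuous_abs).measurableSet
  have hAc : {t : ℝ | T0 < |t|}ᶜ = Set.Icc (-T0) T0 := by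
    ext t
    simp only [Set.mem_compl_iff, Set.mem_ofPred_eq, not_lt, Set.mem_Icc]
    exact abs_le
  have hFi : Integrable F := hF ▸ hI1
  have hsplit := integral_add_compl hAm hFi
  rw [hAc] at hsplit
  -- small t
  have hsm : ∫ t in Set.Icc (-T0) T0, F t ≤ 1 / 2 * (P * X / L ^ E) := by
    have hpt : ∀ t ∈ Set.Icc (-T0) T0, F t ≤ P * X / (4 * L ^ E * T0) := by
      intro t ht
      have ht' : |t| ≤ L ^ (4 * m) := by
        rw [← hT0]
        exact abs_le.2 ht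
      have h1 := mel_m g N M Θ Θ1 s t hs hΘ10 hΘΘ hM1 hcor.supp hcor.bd
      rw [← hG, ← hG1, ← hmel] at h1
      have h2 := IIM_small X L N M P m C0 E κ t hX0 hLbig (Nat.cast_nonneg N) hNX hM ht' hκ hP0.le
      rw [← hΘ1, ← hT0] at h2
      rw [hF]
      calc ‖ZZ S t‖ ^ 2 * ‖Mel (fun θ => G θ - G1 θ) t‖ ^ 2
          ≤ (8 * P) * (3 * (1 + |t|) * N / (M * Real.sqrt M) / Θ1) ^ 2 :=
            mul_le_mul (hZZ t) (pow_le_pow_left₀ (norm_nonneg _) h1 2) (sq_nonneg _) (by positivity)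
        _ = (3 * (1 + |t|) * N / (M * Real.sqrt M) / Θ1) ^ 2 * (8 * P) := by ring
        _ ≤ P * X / (4 * L ^ E * T0) := h2
    have h3 : ∫ t in Set.Icc (-T0) T0, F t ≤ ∫ _t in Set.Icc (-T0) T0, P * X / (4 * L ^ E * T0) := by
      apply setIntegral_mono_on hFi.integrableOn
      · exact integrableOn_const (by simp)
      · exact measurableSet_Icc
      · exact hpt
    refine h3.trans (le_of_eq ?_)
    rw [setIntegral_const, smul_eq_mul, Real.volume_real_Icc_of_le (by linarith only [hT01])]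
    have : T0 ≠ 0 := by linarith only [hT01]
    field_simp
    ring
  -- large t
  have hlg : ∫ t in {t : ℝ | T0 < |t|}, F t ≤ 4 * (P * X / L ^ (E + 3)) := by
    have hpt : ∀ t, F t ≤ 2 * (‖ZZ S t‖ ^ 2 * ‖Mel G t‖ ^ 2) +
        2 * (‖ZZ S t‖ ^ 2 * ‖Mel G1 t‖ ^ 2) := by
      intro t
      rw [hF]
      simp only
      rw [hmel]
      have h1 := norm_sub_le (Mel G t) (Mel G1 t)
      have h2 : ‖Mel G t - Mel G1 t‖ ^ 2 ≤ 2 * ‖Mel G t‖ ^ 2 + 2 * ‖Mel G1 t‖ ^ 2 := by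
        nlinarith only [h1, sq_nonneg (‖Mel G t‖ - ‖Mel G1 t‖), norm_nonneg (Mel G t - Mel G1 t),
          norm_nonneg (Mel G t), norm_nonneg (Mel G1 t)]
      have h3 := mul_le_mul_of_nonneg_left h2 (sq_nonneg ‖ZZ S t‖)
      linarith only [h3]
    have h4 : ∫ t in {t : ℝ | T0 < |t|}, F t ≤ ∫ t in {t : ℝ | T0 < |t|},
        (2 * (‖ZZ S t‖ ^ 2 * ‖Mel G t‖ ^ 2) + 2 * (‖ZZ S t‖ ^ 2 * ‖Mel G1 t‖ ^ 2)) := by
      apply setIntegral_mono hFi.integrableOn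
      · exact ((hIG.const_mul 2).add (hIG1.const_mul 2)).integrableOn
      · exact hpt
    refine h4.trans ?_
    rw [integral_add (hIG.const_mul 2).integrableOn (hIG1.const_mul 2).integrableOn,
      integral_const_mul, integral_const_mul]
    linarith only [hgG1, hgG]
  have htot : ∫ t, F t ≤ P * X / L ^ E := by
    rw [← hsplit]
    have h5 : 4 * (P * X / L ^ (E + 3)) ≤ 1 / 2 * (P * X / L ^ E) := by
      have e : 4 * (P * X / L ^ (E + 3)) = (P * X / L ^ E) * (4 / L ^ 3) := by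
        field_simp
        ring
      rw [e, mul_comm]
      apply mul_le_mul_of_nonneg_right _ (by positivity)
      rw [div_le_iff₀ (by positivity)]
      have h6 : L ^ 1 ≤ L ^ 3 := pow_le_pow_right₀ hL1 (by norm_num)
      rw [pow_one] at h6
      linarith only [hLbig, h6]
    linarith only [hsm, hlg, h5]
  have hI0 : 0 ≤ ∫ t, F t := by
    rw [hF]
    exact integral_nonneg fun t => by positivity
  have hpi1 : 1 / (2 * Real.pi) ≤ 1 := by
    rw [div_le_one (by positivity)]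
    linarith only [Real.pi_gt_three]
  have hFe : ∫ t, ‖ZZ S t‖ ^ 2 * ‖Mel (fun θ => G θ - G1 θ) t‖ ^ 2 = ∫ t, F t := by rw [hF]
  rw [hFe]
  calc 1 / (2 * Real.pi) * ∫ t, F t ≤ 1 * ∫ t, F t := mul_le_mul_of_nonneg_right hpi1 hI0
    _ ≤ P * X / L ^ E := by rw [one_mul]; exact htot

end Pool.Agent.H76.MU

end

section

/-!
# MU JM: the integral over `Y0 ≤ y ≤ Y`

Proof.  `ii_m C0 (E + 3) η` gives `b, K, m0` and `κ1`; `κ = κ1 + 2`.  `Θ = 1/L^6`, `Θ1 = L^{κ1}/x`, `S = pb P` (all `k ∈ S` satisfy `P < k ≤ 2P`, `|S| ≤ P`, `∑ 1/k ≤ 1`).  For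
`y ∈ [Y0, Y]`, `Y0 = L^κ/(P x)`: `ge(k y) = FF g N (s k y) e^{-k y/Θ}` (`ee(0) = 1`), so
`FF g N (k s y) = gd(k y) + FF g N (k s y)(1 - e^{-k y/Θ}) + FF g N (k s y) e^{-k y/Θ1}`; `1 - e^{-k y/Θ} ≤ 2 P Y/Θ ≤ 2/L^{E+6}`, `k y/Θ1 ≥ P Y0/Θ1 = L^2`.
`|SG|^2 ≤ 3 |∑_k gd(k y)|^2 + 3 |S| ∑_k (4/L^{2E+12} + e^{-2 L^2}) |FF g N (k s y)|^2`; the first integral is `≤ II S gd` (`II` is the integral over `(0, ∞)`; integrability as in
`JredE.lean`), and `∫_0^Y |FF g N (s k y)|^2 dy ≤ S2/k ≤ x/k` as `k Y ≤ 2 P Y ≤ 1` (as in `JredE_half`: `SmallA_window`).  Total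
`≤ 3 P x/L^{E+3} + 3 P (4/L^{2E+12} + e^{-2L^2}) x ≤ P x/L^E` (`e^{-2 L^2} ≤ 1/x^2 ≤ 1/L^{E+3}` for large `x`).  If `Y < Y0` the set is empty.
-/

set_option autoImplicit false

namespace Pool.Agent.H76.MU

open Finset MeasureTheory
open Pool.Agent.H91.PK (ee)
open Pool.Agent.H76.EHB
open Pool.Agent.H35.W

private theorem JM_norm_ge (f : ℕ → ℝ) (N : ℕ) (Θ s θ : ℝ) (hθ : 0 < θ) :
    ‖ge f N 0 0 Θ s θ‖ ≤ (∑ n ∈ Icc 1 N, |f n|) * Real.exp (-(θ / Θ)) :=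
  norm_ge_le f N 0 0 Θ s θ hθ

/-- windows of length at most one, both signs -/
private theorem JM_window (f : ℕ → ℝ) (N : ℕ) (s v : ℝ) (hs : s = 1 ∨ s = -1)
    (hv0 : 0 ≤ v) (hv : v ≤ 1) :
    ∫ θ in (0 : ℝ)..v, ‖FF f N (s * θ)‖ ^ 2 ≤ S2 f N := by
  rcases hs with rfl | rfl
  · simp only [one_mul]
    exact SmallA_window f N _ _ hv0 (by linarith)
  · have h := intervalIntegral.integral_comp_neg (a := (0 : ℝ)) (b := v)
      (fun t => ‖FF f N t‖ ^ 2)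
    have e : ∀ θ : ℝ, -1 * θ = -θ := fun θ => by ring
    simp only [e]
    rw [h]
    exact SmallA_window f N _ _ (by linarith) (by linarith)

private theorem JM_FF_cont (f : ℕ → ℝ) (N k : ℕ) (s : ℝ) :
    Continuous (fun y : ℝ => ‖FF f N (k * (s * y))‖ ^ 2) :=
  (((FF_continuous f N).comp (by fun_prop : Continuous fun y : ℝ => (k : ℝ) * (s * y))).norm).pow 2

private theorem JM_scale (f : ℕ → ℝ) (N : ℕ) (s Y : ℝ) (k : ℕ) (hk : 1 ≤ k)
    (hs : s = 1 ∨ s = -1) (hY : 0 ≤ Y) (hkY : k * Y ≤ 1) :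
    ∫ y in (0 : ℝ)..Y, ‖FF f N (k * (s * y))‖ ^ 2 ≤ (1 / (k : ℝ)) * S2 f N := by
  have hk0 : (k : ℝ) ≠ 0 := by
    have : (1 : ℝ) ≤ k := by exact_mod_cast hk
    linarith only [this]
  have h1 := intervalIntegral.integral_comp_mul_left (a := 0) (b := Y)
    (fun t => ‖FF f N (s * t)‖ ^ 2) hk0
  have e : ∀ y : ℝ, (k : ℝ) * (s * y) = s * (k * y) := fun y => by ring
  simp only [e]
  rw [h1, smul_eq_mul, mul_zero, ← one_div]
  have hk1 : (0 : ℝ) ≤ (k : ℝ) * Y := by positivity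
  exact mul_le_mul_of_nonneg_left (JM_window f N s (k * Y) hs hk1 hkY) (by positivity)

private theorem JM_int_ge (S : Finset ℕ) (hS : ∀ k ∈ S, 1 ≤ k) (f : ℕ → ℝ) (N : ℕ)
    (Θ s : ℝ) (hΘ : 0 < Θ) :
    IntegrableOn (fun y => ‖∑ k ∈ S, ge f N 0 0 Θ s (k * y)‖ ^ 2) (Set.Ioi (0 : ℝ)) := by
  obtain ⟨B, hB⟩ : ∃ B : ℝ, B = ∑ n ∈ Icc 1 N, |f n| := ⟨_, rfl⟩
  have hB0 : 0 ≤ B := by
    rw [hB]
    exact Finset.sum_nonneg fun _ _ => abs_nonneg _
  have hmeas : Measurable (fun y => ‖∑ k ∈ S, ge f N 0 0 Θ s (k * y)‖ ^ 2) := by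
    refine (Measurable.norm (Finset.measurable_sum S fun k _ => ?_)).pow_const 2
    exact (ge_measurable f N 0 0 Θ s).comp (measurable_const.mul measurable_id)
  have hi : IntegrableOn (fun y : ℝ => ((S.card : ℝ) * B) ^ 2 * Real.exp (-(1 / Θ) * y))
      (Set.Ioi (0 : ℝ)) :=
    (exp_neg_integrableOn_Ioi 0 (by positivity : 0 < 1 / Θ)).const_mul _
  refine Integrable.mono' hi hmeas.aestronglyMeasurable ?_
  refine (ae_restrict_iff' measurableSet_Ioi).2 (Filter.Eventually.of_forall ?_)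
  intro y hy
  have hy0 : (0 : ℝ) < y := hy
  rw [Real.norm_eq_abs, abs_of_nonneg (sq_nonneg _)]
  have h1 : ‖∑ k ∈ S, ge f N 0 0 Θ s (k * y)‖ ≤ (S.card : ℝ) * B * Real.exp (-(1 / Θ) * y) := by
    refine (norm_sum_le _ _).trans ?_
    have h2 : ∀ k ∈ S, ‖ge f N 0 0 Θ s (k * y)‖ ≤ B * Real.exp (-(1 / Θ) * y) := by
      intro k hk
      have hk1 : (1 : ℝ) ≤ k := by exact_mod_cast hS k hk
      have hky : 0 < (k : ℝ) * y := by positivity
      refine (JM_norm_ge f N Θ s _ hky).trans ?_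
      rw [← hB]
      apply mul_le_mul_of_nonneg_left _ hB0
      apply Real.exp_le_exp.2
      have h3 : y ≤ k * y := by nlinarith only [hy0, hk1]
      have h4 : y / Θ ≤ k * y / Θ := by gcongr
      calc -(k * y / Θ) ≤ -(y / Θ) := by linarith only [h4]
        _ = -(1 / Θ) * y := by ring
    refine (Finset.sum_le_sum h2).trans (le_of_eq ?_)
    rw [Finset.sum_const, nsmul_eq_mul]
    ring
  have h5 : Real.exp (-(1 / Θ) * y) ≤ 1 := by
    apply Real.exp_le_one_iff.2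
    have : 0 ≤ 1 / Θ * y := by positivity
    linarith only [this]
  have h6 := Real.exp_pos (-(1 / Θ) * y)
  calc ‖∑ k ∈ S, ge f N 0 0 Θ s (k * y)‖ ^ 2
      ≤ ((S.card : ℝ) * B * Real.exp (-(1 / Θ) * y)) ^ 2 :=
        pow_le_pow_left₀ (norm_nonneg _) h1 2
    _ = ((S.card : ℝ) * B) ^ 2 * (Real.exp (-(1 / Θ) * y) * Real.exp (-(1 / Θ) * y)) := by ring
    _ ≤ ((S.card : ℝ) * B) ^ 2 * (1 * Real.exp (-(1 / Θ) * y)) := by
        apply mul_le_mul_of_nonneg_left _ (sq_nonneg _)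
        exact mul_le_mul_of_nonneg_right h5 h6.le
    _ = ((S.card : ℝ) * B) ^ 2 * Real.exp (-(1 / Θ) * y) := by ring

private theorem JM_int_gd (S : Finset ℕ) (hS : ∀ k ∈ S, 1 ≤ k) (f : ℕ → ℝ) (N : ℕ)
    (Θ Θ1 s : ℝ) (hΘ : 0 < Θ) (hΘ1 : 0 < Θ1) :
    IntegrableOn (fun y => ‖∑ k ∈ S, gd f N Θ Θ1 s (k * y)‖ ^ 2) (Set.Ioi (0 : ℝ)) := by
  have i1 := JM_int_ge S hS f N Θ s hΘ
  have i2 := JM_int_ge S hS f N Θ1 s hΘ1
  have hmeas : Measurable (fun y => ‖∑ k ∈ S, gd f N Θ Θ1 s (k * y)‖ ^ 2) := by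
    refine (Measurable.norm (Finset.measurable_sum S fun k _ => ?_)).pow_const 2
    unfold gd
    exact ((ge_measurable f N 0 0 Θ s).comp (measurable_const.mul measurable_id)).sub
      ((ge_measurable f N 0 0 Θ1 s).comp (measurable_const.mul measurable_id))
  refine Integrable.mono' ((i1.const_mul 2).add (i2.const_mul 2)) hmeas.aestronglyMeasurable ?_
  refine Filter.Eventually.of_forall fun y => ?_
  rw [Real.norm_eq_abs, abs_of_nonneg (sq_nonneg _)]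
  simp only [Pi.add_apply]
  unfold gd
  rw [Finset.sum_sub_distrib]
  have h1 := norm_sub_le (∑ k ∈ S, ge f N 0 0 Θ s (k * y)) (∑ k ∈ S, ge f N 0 0 Θ1 s (k * y))
  have h2 := norm_nonneg (∑ k ∈ S, ge f N 0 0 Θ s (k * y) - ∑ k ∈ S, ge f N 0 0 Θ1 s (k * y))
  nlinarith only [h1, h2, sq_nonneg (‖∑ k ∈ S, ge f N 0 0 Θ s (k * y)‖ - ‖∑ k ∈ S, ge f N 0 0 Θ1 s (k * y)‖),
    norm_nonneg (∑ k ∈ S, ge f N 0 0 Θ s (k * y)), norm_nonneg (∑ k ∈ S, ge f N 0 0 Θ1 s (k * y))]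

private theorem JM_gd_eq (f : ℕ → ℝ) (N : ℕ) (Θ Θ1 s θ : ℝ) (hθ : 0 < θ) :
    gd f N Θ Θ1 s θ = FF f N (s * θ) *
      ((Real.exp (-(θ / Θ)) - Real.exp (-(θ / Θ1)) : ℝ) : ℂ) := by
  have e0 : ee (-(0 * s * θ)) = 1 := by
    have : -(0 * s * θ) = ((0 : ℤ) : ℝ) := by push_cast; ring
    rw [this, ee_int]
  unfold gd ge
  rw [if_pos hθ, if_pos hθ, e0, zero_add]
  push_cast
  ring

/-- the bound with abstract parameters -/
private theorem JM_main (g : ℕ → ℝ) (N P : ℕ) (s Θ Θ1 Y0 Y c : ℝ) (hs : s = 1 ∨ s = -1)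
    (hΘ : 0 < Θ) (hΘ1 : 0 < Θ1) (hY0 : 0 < Y0) (hY : 0 ≤ Y) (hPY : 2 * P * Y ≤ 1)
    (hc : ∀ k ∈ pb P, ∀ y : ℝ, Y0 ≤ y → y ≤ Y →
      |1 - (Real.exp (-(k * y / Θ)) - Real.exp (-(k * y / Θ1)))| ≤ c) :
    ∫ y in Set.Icc Y0 Y, ‖SG g N P (s * y)‖ ^ 2
      ≤ 2 * II (pb P) (gd g N Θ Θ1 s)
        + 2 * (pb P).card * c ^ 2 * (∑ k ∈ pb P, 1 / (k : ℝ)) * S2 g N := by
  obtain ⟨S, hS⟩ : ∃ S : Finset ℕ, S = pb P := ⟨_, rfl⟩
  rw [← hS] at hc ⊢
  have hS1 : ∀ k ∈ S, 1 ≤ k := by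
    intro k hk
    rw [hS] at hk
    unfold pb at hk
    have := (mem_Ioc.1 (mem_filter.1 hk).1).1
    omega
  have hSK : ∀ k ∈ S, k ≤ 2 * P := by
    intro k hk
    rw [hS] at hk
    unfold pb at hk
    exact (mem_Ioc.1 (mem_filter.1 hk).1).2
  have hsub0 : Set.Icc Y0 Y ⊆ Set.Ioc 0 Y := fun y hy => ⟨lt_of_lt_of_le hY0 hy.1, hy.2⟩
  have hsub1 : Set.Icc Y0 Y ⊆ Set.Ioi 0 := fun y hy => lt_of_lt_of_le hY0 hy.1
  have i1 := JM_int_gd S hS1 g N Θ Θ1 s hΘ hΘ1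
  have j1 := i1.mono_set hsub1
  have m1 : ∫ y in Set.Icc Y0 Y, ‖∑ k ∈ S, gd g N Θ Θ1 s (k * y)‖ ^ 2
      ≤ II S (gd g N Θ Θ1 s) :=
    setIntegral_mono_set i1 (Filter.Eventually.of_forall fun y => sq_nonneg _)
      (LE.le.eventuallyLE hsub1)
  have hci : ∀ k : ℕ, IntegrableOn (fun y : ℝ => ‖FF g N (k * (s * y))‖ ^ 2)
      (Set.Ioc (0 : ℝ) Y) := fun k =>
    ((JM_FF_cont g N k s).integrableOn_Icc (a := 0) (b := Y)).mono_set Set.Ioc_subset_Icc_self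
  have hci' : ∀ k : ℕ, IntegrableOn (fun y : ℝ => ‖FF g N (k * (s * y))‖ ^ 2)
      (Set.Icc Y0 Y) := fun k => (hci k).mono_set hsub0
  obtain ⟨C, hC⟩ : ∃ C : ℝ, C = 2 * S.card * c ^ 2 := ⟨_, rfl⟩
  have hC0 : 0 ≤ C := by
    rw [hC]
    positivity
  have j2 : IntegrableOn (fun y : ℝ => C * ∑ k ∈ S, ‖FF g N (k * (s * y))‖ ^ 2)
      (Set.Icc Y0 Y) :=
    (integrable_finsetSum S fun k _ => hci' k).const_mul C
  have hpt : ∀ y ∈ Set.Icc Y0 Y, ‖SG g N P (s * y)‖ ^ 2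
        ≤ 2 * ‖∑ k ∈ S, gd g N Θ Θ1 s (k * y)‖ ^ 2
          + C * ∑ k ∈ S, ‖FF g N (k * (s * y))‖ ^ 2 := by
    rintro y ⟨hy0, hyY⟩
    have hy : 0 < y := lt_of_lt_of_le hY0 hy0
    obtain ⟨G, hG⟩ : ∃ G : ℂ, G = ∑ k ∈ S, gd g N Θ Θ1 s (k * y) := ⟨_, rfl⟩
    obtain ⟨E, hE⟩ : ∃ E : ℂ, E = ∑ k ∈ S, FF g N (k * (s * y)) *
      ((1 - (Real.exp (-(k * y / Θ)) - Real.exp (-(k * y / Θ1))) : ℝ) : ℂ) := ⟨_, rfl⟩
    have hsum : SG g N P (s * y) = G + E := by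
      unfold SG
      rw [← hS, hG, hE, ← Finset.sum_add_distrib]
      refine Finset.sum_congr rfl fun k hk => ?_
      have hk1 : (1 : ℝ) ≤ k := by exact_mod_cast hS1 k hk
      have hky : 0 < (k : ℝ) * y := by positivity
      rw [JM_gd_eq g N Θ Θ1 s _ hky]
      have e : s * ((k : ℝ) * y) = k * (s * y) := by ring
      rw [e]
      push_cast
      ring
    have hEn : ‖E‖ ≤ ∑ k ∈ S, c * ‖FF g N (k * (s * y))‖ := by
      rw [hE]
      refine (norm_sum_le _ _).trans (Finset.sum_le_sum fun k hk => ?_)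
      rw [norm_mul, Complex.norm_real, Real.norm_eq_abs, mul_comm]
      exact mul_le_mul_of_nonneg_right (hc k hk y hy0 hyY) (norm_nonneg _)
    have hE2 : ‖E‖ ^ 2 ≤ S.card * (c ^ 2 * ∑ k ∈ S, ‖FF g N (k * (s * y))‖ ^ 2) := by
      calc ‖E‖ ^ 2 ≤ (∑ k ∈ S, c * ‖FF g N (k * (s * y))‖) ^ 2 :=
            pow_le_pow_left₀ (norm_nonneg _) hEn 2
        _ ≤ S.card * ∑ k ∈ S, (c * ‖FF g N (k * (s * y))‖) ^ 2 :=
            sq_sum_le_card_mul_sum_sq
        _ = S.card * (c ^ 2 * ∑ k ∈ S, ‖FF g N (k * (s * y))‖ ^ 2) := by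
            have e1 : ∑ k ∈ S, (c * ‖FF g N (k * (s * y))‖) ^ 2 =
                c ^ 2 * ∑ k ∈ S, ‖FF g N (k * (s * y))‖ ^ 2 := by
              rw [Finset.mul_sum]
              exact Finset.sum_congr rfl fun k _ => mul_pow _ _ 2
            rw [e1]
    rw [hsum, ← hG]
    have h6 := norm_add_le G E
    have h7 := norm_nonneg (G + E)
    have h8 : ‖G + E‖ ^ 2 ≤ 2 * ‖G‖ ^ 2 + 2 * ‖E‖ ^ 2 := by
      nlinarith only [h6, h7, sq_nonneg (‖G‖ - ‖E‖), norm_nonneg G, norm_nonneg E]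
    calc ‖G + E‖ ^ 2 ≤ 2 * ‖G‖ ^ 2 + 2 * ‖E‖ ^ 2 := h8
      _ ≤ 2 * ‖G‖ ^ 2 + 2 * (S.card * (c ^ 2 * ∑ k ∈ S, ‖FF g N (k * (s * y))‖ ^ 2)) := by
          linarith only [hE2]
      _ = 2 * ‖G‖ ^ 2 + C * ∑ k ∈ S, ‖FF g N (k * (s * y))‖ ^ 2 := by
          rw [hC]
          ring
  calc ∫ y in Set.Icc Y0 Y, ‖SG g N P (s * y)‖ ^ 2
      ≤ ∫ y in Set.Icc Y0 Y, (2 * ‖∑ k ∈ S, gd g N Θ Θ1 s (k * y)‖ ^ 2
          + C * ∑ k ∈ S, ‖FF g N (k * (s * y))‖ ^ 2) := by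
        apply integral_mono_of_nonneg
        · exact Filter.Eventually.of_forall fun y => sq_nonneg _
        · exact (j1.const_mul 2).add j2
        · exact (ae_restrict_iff' measurableSet_Icc).2 (Filter.Eventually.of_forall hpt)
    _ = 2 * (∫ y in Set.Icc Y0 Y, ‖∑ k ∈ S, gd g N Θ Θ1 s (k * y)‖ ^ 2)
          + C * ∑ k ∈ S, ∫ y in Set.Icc Y0 Y, ‖FF g N (k * (s * y))‖ ^ 2 := by
        rw [integral_add (j1.const_mul 2) j2, integral_const_mul, integral_const_mul,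
          integral_finsetSum S fun k _ => hci' k]
    _ ≤ 2 * II S (gd g N Θ Θ1 s) + C * ∑ k ∈ S, (1 / (k : ℝ)) * S2 g N := by
        apply add_le_add
        · linarith
        · apply mul_le_mul_of_nonneg_left _ hC0
          refine Finset.sum_le_sum fun k hk => ?_
          have h1 : ∫ y in Set.Icc Y0 Y, ‖FF g N (k * (s * y))‖ ^ 2
              ≤ ∫ y in Set.Ioc (0 : ℝ) Y, ‖FF g N (k * (s * y))‖ ^ 2 :=
            setIntegral_mono_set (hci k) (Filter.Eventually.of_forall fun y => sq_nonneg _)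
              (LE.le.eventuallyLE hsub0)
          refine h1.trans ?_
          rw [← intervalIntegral.integral_of_le hY]
          have hkK : (k : ℝ) ≤ 2 * P := by exact_mod_cast hSK k hk
          exact JM_scale g N s Y k (hS1 k hk) hs hY
            ((mul_le_mul_of_nonneg_right hkK hY).trans hPY)
    _ = 2 * II S (gd g N Θ Θ1 s)
        + 2 * S.card * c ^ 2 * (∑ k ∈ S, 1 / (k : ℝ)) * S2 g N := by
        rw [hC, ← Finset.sum_mul]
        ring

private theorem JM_card (P : ℕ) : (pb P).card ≤ P := by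
  unfold pb
  refine (Finset.card_filter_le _ _).trans ?_
  rw [Nat.card_Ioc]
  omega

private theorem JM_recip (P : ℕ) (hP : 1 ≤ P) : ∑ k ∈ pb P, 1 / (k : ℝ) ≤ 1 := by
  have hP' : (1 : ℝ) ≤ P := by exact_mod_cast hP
  have h1 : ∀ k ∈ pb P, 1 / (k : ℝ) ≤ 1 / P := by
    intro k hk
    unfold pb at hk
    have h2 := (mem_Ioc.1 (mem_filter.1 hk).1).1
    have h3 : (P : ℝ) ≤ k := by exact_mod_cast h2.le
    exact one_div_le_one_div_of_le (by linarith only [hP']) h3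
  refine (Finset.sum_le_sum h1).trans ?_
  rw [Finset.sum_const, nsmul_eq_mul]
  have h2 : ((pb P).card : ℝ) ≤ P := by exact_mod_cast JM_card P
  rw [mul_one_div, div_le_one (by linarith only [hP'])]
  exact h2

private theorem JM_S2 (g : ℕ → ℝ) (N : ℕ) (h : ∀ n, |g n| ≤ 1) : S2 g N ≤ N := by
  unfold S2
  have h1 : ∀ n ∈ Icc 1 N, g n ^ 2 ≤ 1 := fun n _ => by
    rw [← sq_abs]
    exact pow_le_one₀ (abs_nonneg _) (h n)
  refine (Finset.sum_le_sum h1).trans ?_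
  simp

theorem jm (C0 E : ℕ) (η : ℝ) (hη : 0 < η) (hη1 : η ≤ 1) : ∃ b K m0 : ℕ, ∀ m : ℕ, m0 ≤ m →
    ∃ κ x0 : ℕ, ∀ x : ℕ, x0 ≤ x → ∀ (g : ℕ → ℝ) (N M P : ℕ) (Y s : ℝ),
      CorM x m K η N M g → N ≤ x → x / Real.log x ^ C0 ≤ M → Real.log x ^ b ≤ P →
      P ≤ x → (s = 1 ∨ s = -1) → P * Y ≤ 1 / Real.log x ^ (E + 12) →
      ∫ y in Set.Icc (Real.log x ^ κ / (P * x)) Y, ‖SG g N P (s * y)‖ ^ 2
        ≤ P * x / Real.log x ^ E := by
  obtain ⟨b, K, m0, hb⟩ := ii_m C0 (E + 3) η hη hη1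
  refine ⟨b, K, m0, fun m hm => ?_⟩
  obtain ⟨κ1, x1, h1⟩ := hb m hm
  obtain ⟨x2, hx2⟩ := log_ge 3
  obtain ⟨x3, hx3⟩ := log_pow_le 1 1 one_pos one_pos (E + 6)
  refine ⟨κ1 + 2, max x1 (max x2 (max x3 1)), fun x hx g N M P Y s hg hN hM hP hPx hs hPY => ?_⟩
  have hxx1 : x1 ≤ x := (le_max_left _ _).trans hx
  have hxx2 : x2 ≤ x := (le_max_left _ _).trans ((le_max_right _ _).trans hx)
  have hxx3 : x3 ≤ x :=
    (le_max_left _ _).trans ((le_max_right _ _).trans ((le_max_right _ _).trans hx))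
  have hx1 : 1 ≤ x :=
    (le_max_right _ _).trans ((le_max_right _ _).trans ((le_max_right _ _).trans hx))
  have hxr : (1 : ℝ) ≤ x := by exact_mod_cast hx1
  have hx0 : (0 : ℝ) < x := by linarith only [hxr]
  have hII := h1 x hxx1 g N M P (pb P) s hg hN hM hP hPx (Finset.Subset.refl _) hs
  have hL := hx2 x hxx2
  have hLx := hx3 x hxx3
  rw [one_mul, Real.rpow_one] at hLx
  obtain ⟨L, hLdef⟩ : ∃ L : ℝ, L = Real.log x := ⟨_, rfl⟩
  rw [← hLdef] at hII hL hLx hPY hP ⊢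
  have hL0 : 0 < L := by linarith only [hL]
  have hP1 : (1 : ℝ) ≤ P := (one_le_pow₀ (by linarith only [hL] : (1 : ℝ) ≤ L)).trans hP
  have hP1' : 1 ≤ P := by exact_mod_cast hP1
  have hrhs : 0 ≤ P * x / L ^ E := by positivity
  obtain ⟨Y0, hY0def⟩ : ∃ Y0 : ℝ, Y0 = L ^ (κ1 + 2) / (P * x) := ⟨_, rfl⟩
  rw [← hY0def]
  have hY0 : 0 < Y0 := by
    rw [hY0def]
    positivity
  rcases lt_or_ge Y Y0 with hYY | hYY
  · rw [Set.Icc_eq_empty (not_le.2 hYY), Measure.restrict_empty, integral_zero_measure]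
    exact hrhs
  have hY : 0 < Y := lt_of_lt_of_le hY0 hYY
  have hLE : (2 : ℝ) ≤ L ^ (E + 12) := by
    have : L ^ 1 ≤ L ^ (E + 12) := pow_le_pow_right₀ (by linarith only [hL]) (by omega)
    rw [pow_one] at this
    linarith only [hL, this]
  have h2PY : 2 * P * Y ≤ 1 := by
    have h2 : (1 : ℝ) / L ^ (E + 12) ≤ 1 / 2 := one_div_le_one_div_of_le (by norm_num) hLE
    linarith only [hPY, h2]
  -- the bound `c`
  have hexp : Real.exp (-(L ^ 2)) ≤ 1 / L ^ (E + 6) := by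
    rw [Real.exp_neg, ← one_div]
    apply one_div_le_one_div_of_le (by positivity)
    have h3 : Real.exp L = x := by rw [hLdef, Real.exp_log hx0]
    have h4 : Real.exp L ≤ Real.exp (L ^ 2) := Real.exp_le_exp.2 (by nlinarith only [hL])
    linarith only [hLx, h3, h4]
  have hc : ∀ k ∈ pb P, ∀ y : ℝ, Y0 ≤ y → y ≤ Y →
      |1 - (Real.exp (-(k * y / (1 / L ^ 6))) - Real.exp (-(k * y / (L ^ κ1 / x))))|
        ≤ 3 / L ^ (E + 6) := by
    intro k hk y hy0 hyY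
    have hyp : 0 < y := lt_of_lt_of_le hY0 hy0
    unfold pb at hk
    have hk1 := (mem_Ioc.1 (mem_filter.1 hk).1).1
    have hk2 := (mem_Ioc.1 (mem_filter.1 hk).1).2
    have hkP : (P : ℝ) ≤ k := by exact_mod_cast hk1.le
    have hkP2 : (k : ℝ) ≤ 2 * P := by exact_mod_cast hk2
    have hk0 : (0 : ℝ) < k := by linarith only [hP1, hkP]
    -- first part
    have h5 : k * y / (1 / L ^ 6) ≤ 2 / L ^ (E + 6) := by
      have h6 : k * y ≤ 2 * (P * Y) := by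
        have : (k : ℝ) * y ≤ 2 * P * Y := mul_le_mul hkP2 hyY hyp.le (by positivity)
        linarith only [this]
      have h7 : k * y ≤ 2 * (1 / L ^ (E + 12)) := by linarith only [hPY, h6]
      rw [div_div_eq_mul_div, div_one]
      calc k * y * L ^ 6 ≤ 2 * (1 / L ^ (E + 12)) * L ^ 6 :=
            mul_le_mul_of_nonneg_right h7 (by positivity)
        _ = 2 / L ^ (E + 6) := by
            rw [show E + 12 = (E + 6) + 6 by ring, pow_add L (E + 6) 6]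
            field_simp
    have h8 : 0 ≤ k * y / (1 / L ^ 6) := by positivity
    have h9 : Real.exp (-(k * y / (1 / L ^ 6))) ≤ 1 := Real.exp_le_one_iff.2 (by linarith only [h8])
    have h10 := Real.add_one_le_exp (-(k * y / (1 / L ^ 6)))
    -- second part
    have h11 : L ^ 2 ≤ k * y / (L ^ κ1 / x) := by
      rw [le_div_iff₀ (by positivity)]
      have h12 : L ^ (κ1 + 2) / (P * x) ≤ y := by rw [← hY0def]; exact hy0
      have h13 : P * (L ^ (κ1 + 2) / (P * x)) ≤ k * y :=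
        mul_le_mul hkP h12 (by positivity) hk0.le
      have h14 : P * (L ^ (κ1 + 2) / (P * x)) = L ^ 2 * (L ^ κ1 / x) := by
        rw [pow_add]
        field_simp
      linarith only [h13, h14]
    have h15 : Real.exp (-(k * y / (L ^ κ1 / x))) ≤ 1 / L ^ (E + 6) :=
      (Real.exp_le_exp.2 (by linarith only [h11])).trans hexp
    have h16 := Real.exp_pos (-(k * y / (L ^ κ1 / x)))
    have h17 : (3 : ℝ) / L ^ (E + 6) = 2 / L ^ (E + 6) + 1 / L ^ (E + 6) := by ring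
    rw [abs_of_nonneg (by linarith only [h9, h16]), h17]
    linarith only [h5, h10, h15]
  have hmain := JM_main g N P s (1 / L ^ 6) (L ^ κ1 / x) Y0 Y (3 / L ^ (E + 6)) hs
    (by positivity) (by positivity) hY0 hY.le h2PY hc
  refine hmain.trans ?_
  have hcard : ((pb P).card : ℝ) ≤ P := by exact_mod_cast JM_card P
  have hrec := JM_recip P hP1'
  have hrec0 : 0 ≤ ∑ k ∈ pb P, 1 / (k : ℝ) := Finset.sum_nonneg fun k _ => by positivity
  have hS2 : S2 g N ≤ x := (JM_S2 g N hg.bd).trans (by exact_mod_cast hN)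
  have hS20 := S2_nonneg g N
  have t1 : 2 * ((pb P).card : ℝ) * (3 / L ^ (E + 6)) ^ 2 * (∑ k ∈ pb P, 1 / (k : ℝ)) * S2 g N
      ≤ 2 * P * (3 / L ^ (E + 6)) ^ 2 * 1 * x := by gcongr
  have t2 : 2 * (P : ℝ) * (3 / L ^ (E + 6)) ^ 2 * 1 * x ≤ P * x / L ^ E * (18 / L ^ 4) := by
    have e1 : 2 * (P : ℝ) * (3 / L ^ (E + 6)) ^ 2 * 1 * x = P * x * (18 / (L ^ (E + 6)) ^ 2) := by
      ring
    have e2 : P * x / L ^ E * (18 / L ^ 4) = P * x * (18 / L ^ (E + 4)) := by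
      rw [pow_add]
      field_simp
    rw [e1, e2]
    have : L ^ (E + 4) ≤ (L ^ (E + 6)) ^ 2 := by
      rw [← pow_mul]
      exact pow_le_pow_right₀ (by linarith only [hL]) (by omega)
    gcongr
  have t3 : P * x / L ^ (E + 3) = P * x / L ^ E * (1 / L ^ 3) := by
    rw [pow_add]
    field_simp
  have t4 : 1 / L ^ 3 ≤ 1 / 27 := by
    apply one_div_le_one_div_of_le (by norm_num)
    calc (27 : ℝ) = 3 ^ 3 := by norm_num
      _ ≤ L ^ 3 := pow_le_pow_left₀ (by norm_num) hL 3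
  have t5 : 18 / L ^ 4 ≤ 18 / 81 := by
    have : (81 : ℝ) ≤ L ^ 4 := by
      calc (81 : ℝ) = 3 ^ 4 := by norm_num
        _ ≤ L ^ 4 := pow_le_pow_left₀ (by norm_num) hL 4
    gcongr
  rw [t3] at hII
  have t6 : P * x / L ^ E * (1 / L ^ 3) ≤ P * x / L ^ E * (1 / 27) :=
    mul_le_mul_of_nonneg_left t4 hrhs
  have t7 : P * x / L ^ E * (18 / L ^ 4) ≤ P * x / L ^ E * (18 / 81) :=
    mul_le_mul_of_nonneg_left t5 hrhs
  linarith only [hII, hrhs, t1, t2, t6, t7]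

end Pool.Agent.H76.MU

end
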