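import Pool.Agent.H15.TB1.M33
import Pool.Agent.H15.TB1.M53
import Pool.Agent.H15.TB1.M54

/-! The parts of this file: H14.CO.CB, H14.CO.CBL, H14.CO.U. -/

section

/-!
# CO module CB: mean square of `ζ M M` to the right of the critical line
-/

set_option autoImplicit false

namespace Pool.Agent.H14.CO

open Set MeasureTheory Complex

private theorem CB_pow (θ T : ℝ) (hθ1 : θ ≤ 1 / 40) (hT : 1 < T) :
    (T ^ θ) ^ 4 ≤ T ^ (1 / 10 : ℝ) := by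
  rw [← Real.rpow_natCast, ← Real.rpow_mul (by linarith only [hT])]
  exact Real.rpow_le_rpow_of_exponent_le hT.le (by push_cast; linarith only [hθ1])

private theorem CB_supp (θ T : ℝ) (hθ0 : 0 < θ) (hθ1 : θ ≤ 1 / 40) (hT : 1 < T) (w₁ w₂ : ℂ) (D : ℕ)
    (hD : T ^ (1 / 10 : ℝ) < D) : aa (T ^ θ) w₁ w₂ D = 0 := by
  have hz : 1 < T ^ θ := Real.one_lt_rpow hT hθ0
  refine Finset.sum_eq_zero fun d hd => ?_
  rw [Nat.mem_divisorsAntidiagonal] at hd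
  have h4 := CB_pow θ T hθ1 hT
  rcases le_or_gt ((T ^ θ) ^ 2) d.1 with h | h
  · rw [lam_eq_zero _ hz _ h]; simp
  · have h2 : (T ^ θ) ^ 2 ≤ d.2 := by
      by_contra h3
      rw [not_le] at h3
      have h5 : (D : ℝ) = d.1 * d.2 := by exact_mod_cast hd.1.symm
      have h6 : (d.1 : ℝ) * d.2 ≤ (T ^ θ) ^ 2 * (T ^ θ) ^ 2 := by gcongr
      have h7 : (T ^ θ) ^ 2 * (T ^ θ) ^ 2 = (T ^ θ) ^ 4 := by ring
      linarith only [hD, h4, h5, h6]
    rw [lam_eq_zero _ hz _ h2]; simp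

private theorem CB_cpow (L K : ℝ) (hK : 0 ≤ K / L) (w : ℂ) (hw : |w.re| ≤ K / L) (d : ℕ) (hd : 1 ≤ d) :
    ‖(d : ℂ) ^ (-w)‖ ≤ (d : ℝ) ^ (K / L) := by
  have hd0 : (0 : ℝ) < d := by exact_mod_cast hd
  have hd1 : (1 : ℝ) ≤ d := by exact_mod_cast hd
  have h1 : ((d : ℝ) : ℂ) = (d : ℂ) := by push_cast; rfl
  rw [← h1, Complex.norm_cpow_eq_rpow_re_of_pos hd0]
  refine Real.rpow_le_rpow_of_exponent_le hd1 ?_
  rw [Complex.neg_re]
  exact (neg_le_abs _).trans hw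

private theorem CB_bound (θ T K : ℝ) (hθ0 : 0 < θ) (hθ1 : θ ≤ 1 / 40) (hT : 1 < T) (hK : 0 ≤ K)
    (hTK : Real.exp K ≤ T) (w₁ w₂ : ℂ) (hw₁ : |w₁.re| ≤ K / Real.log T) (hw₂ : |w₂.re| ≤ K / Real.log T)
    (D : ℕ) : ‖aa (T ^ θ) w₁ w₂ D‖ ≤ T := by
  rcases lt_or_ge (T ^ (1 / 10 : ℝ)) D with hD | hD
  · rw [CB_supp θ T hθ0 hθ1 hT w₁ w₂ D hD, norm_zero]
    linarith only [hθ0, hθ1, hT]
  have hz : 1 < T ^ θ := Real.one_lt_rpow hT hθ0
  have hL : 0 < Real.log T := Real.log_pos hT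
  have hKL : 0 ≤ K / Real.log T := by positivity
  rcases Nat.eq_zero_or_pos D with h0 | h0
  · subst h0
    unfold aa
    simp
    linarith only [hθ0, hθ1, hT]
  have hD1 : (1 : ℝ) ≤ D := by exact_mod_cast h0
  have hterm : ∀ d ∈ D.divisorsAntidiagonal, ‖(lam (T ^ θ) d.1 : ℂ) * (d.1 : ℂ) ^ (-w₁) *
      ((lam (T ^ θ) d.2 : ℂ) * (d.2 : ℂ) ^ (-w₂))‖ ≤ (D : ℝ) ^ (K / Real.log T) := by
    intro d hd
    rw [Nat.mem_divisorsAntidiagonal] at hd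
    have h1 : 1 ≤ d.1 := by
      rcases Nat.eq_zero_or_pos d.1 with h | h
      · rw [h, zero_mul] at hd; omega
      · exact h
    have h2 : 1 ≤ d.2 := by
      rcases Nat.eq_zero_or_pos d.2 with h | h
      · rw [h, mul_zero] at hd; omega
      · exact h
    have h3 := CB_cpow _ _ hKL w₁ hw₁ d.1 h1
    have h4 := CB_cpow _ _ hKL w₂ hw₂ d.2 h2
    have h5 : ‖(lam (T ^ θ) d.1 : ℂ)‖ ≤ 1 := by
      rw [Complex.norm_real]; exact abs_lam_le _ hz _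
    have h6 : ‖(lam (T ^ θ) d.2 : ℂ)‖ ≤ 1 := by
      rw [Complex.norm_real]; exact abs_lam_le _ hz _
    rw [norm_mul, norm_mul, norm_mul]
    calc ‖(lam (T ^ θ) d.1 : ℂ)‖ * ‖(d.1 : ℂ) ^ (-w₁)‖ * (‖(lam (T ^ θ) d.2 : ℂ)‖ * ‖(d.2 : ℂ) ^ (-w₂)‖)
        ≤ 1 * (d.1 : ℝ) ^ (K / Real.log T) * (1 * (d.2 : ℝ) ^ (K / Real.log T)) := by gcongr
      _ = ((d.1 : ℝ) * d.2) ^ (K / Real.log T) := by
          rw [Real.mul_rpow (Nat.cast_nonneg _) (Nat.cast_nonneg _)]; ring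
      _ = (D : ℝ) ^ (K / Real.log T) := by
          congr 1
          exact_mod_cast hd.1
  have hcard : (D.divisorsAntidiagonal.card : ℝ) ≤ D := by
    have : D.divisorsAntidiagonal.card = D.divisors.card := by
      rw [← Nat.map_div_right_divisors, Finset.card_map]
    rw [this]
    exact_mod_cast Nat.card_divisors_le_self D
  have hT0 : 0 < T := by linarith only [hθ0, hθ1, hT]
  have hpow : (D : ℝ) ^ (K / Real.log T) ≤ Real.exp (K / 10) := by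
    calc (D : ℝ) ^ (K / Real.log T) ≤ (T ^ (1 / 10 : ℝ)) ^ (K / Real.log T) := by gcongr
      _ = Real.exp (K / 10) := by
          rw [← Real.rpow_mul hT0.le, Real.rpow_def_of_pos hT0]
          congr 1
          field_simp
  calc ‖aa (T ^ θ) w₁ w₂ D‖ ≤ ∑ d ∈ D.divisorsAntidiagonal, (D : ℝ) ^ (K / Real.log T) :=
        (norm_sum_le _ _).trans (Finset.sum_le_sum hterm)
    _ = (D.divisorsAntidiagonal.card : ℝ) * (D : ℝ) ^ (K / Real.log T) := by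
        rw [Finset.sum_const, nsmul_eq_mul]
    _ ≤ T ^ (1 / 10 : ℝ) * Real.exp (K / 10) := by
        have := hcard.trans hD
        gcongr
    _ ≤ T ^ (1 / 10 : ℝ) * T ^ (9 / 10 : ℝ) := by
        have h1 : Real.exp (K / 10) ≤ Real.exp (K * (9 / 10)) := Real.exp_le_exp.2 (by linarith only [hK])
        have h2 : Real.exp (K * (9 / 10)) = (Real.exp K) ^ (9 / 10 : ℝ) := by rw [Real.exp_mul]
        have h3 : (Real.exp K) ^ (9 / 10 : ℝ) ≤ T ^ (9 / 10 : ℝ) := by gcongr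
        rw [h2] at h1
        have h4 := h1.trans h3
        gcongr
    _ = T := by
        rw [← Real.rpow_add hT0]
        norm_num

private theorem CB_DP (θ T : ℝ) (hθ0 : 0 < θ) (hθ1 : θ ≤ 1 / 40) (hT : 1 < T) (w₁ w₂ : ℂ) (t : ℝ) :
    DP T (aa (T ^ θ) w₁ w₂) t = Mo (T ^ θ) (pt w₁ t) * Mo (T ^ θ) (pt w₂ t) := by
  have hz : 1 < T ^ θ := Real.one_lt_rpow hT hθ0
  have hfl : T ^ (1 / 10 : ℝ) < ((⌊T ^ (1 / 10 : ℝ)⌋₊ + 1 : ℕ) : ℝ) := by
    push_cast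
    exact Nat.lt_floor_add_one _
  have h1 := Mo_mul (T ^ θ) hz (1 / 2 + t * I) w₁ w₂ (⌊T ^ (1 / 10 : ℝ)⌋₊ + 1)
    ((CB_pow θ T hθ1 hT).trans hfl.le)
  have h2 : pt w₁ t = 1 / 2 + t * I + w₁ := by unfold pt; ring
  have h3 : pt w₂ t = 1 / 2 + t * I + w₂ := by unfold pt; ring
  rw [h2, h3, h1, Finset.sum_Icc_succ_top (by omega), CB_supp θ T hθ0 hθ1 hT w₁ w₂ _ hfl, zero_mul, add_zero,
    DP]

private theorem CB_mono {T K Q Q' : ℝ} {a : ℕ → ℂ} (hT : 1 < T) (hQ : Q ≤ Q') (h : DiagHyp T K Q a) :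
    DiagHyp T K Q' a := by
  intro z h1 h2 N
  have hL : 0 < Real.log T := Real.log_pos hT
  refine (h z h1 h2 N).trans ?_
  gcongr

/-- PROOF. `AB` for `a = aa (T^θ) w₁ w₂` (`DP T a t = Mo (pt w₁ t) Mo (pt w₂ t)` by `Mo_mul`,
`z₀^4 = T^{4θ} ≤ T^{1/10}`, `‖aa D‖ ≤ τ(D) D^{2K/L}`-type crude bound `≤ T` for `T ≥ T₀(K)`,
support from `lam_eq_zero`) and `AR`. -/
theorem CB (θ : ℝ) (hθ0 : 0 < θ) (hθ1 : θ ≤ 1 / 40) : ∃ C : ℝ, 0 < C ∧ ∀ K : ℝ, 1 ≤ K →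
    ∃ T₀ : ℝ, Real.exp 3200 ≤ T₀ ∧ ∀ T : ℝ, T₀ ≤ T → ∀ τ W : ℝ, T ^ (9 / 10 : ℝ) ≤ W → W ≤ T →
    ∀ w₁ w₂ : ℂ, |w₁.re| ≤ K / Real.log T → |w₂.re| ≤ K / Real.log T →
    Integrable (fun t : ℝ => ‖riemannZeta (pt (K / Real.log T : ℝ) t) *
      (Mo (T ^ θ) (pt w₁ t) * Mo (T ^ θ) (pt w₂ t))‖ ^ 2 * gw τ W t) ∧
    ∫ t : ℝ, ‖riemannZeta (pt (K / Real.log T : ℝ) t) *
      (Mo (T ^ θ) (pt w₁ t) * Mo (T ^ θ) (pt w₂ t))‖ ^ 2 * gw τ W t
      ≤ C * Real.exp (C * K) * W * Real.log T * ((1 + Real.log T * ‖w₁‖) ^ 4 *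
        (1 + Real.log T * ‖w₂‖) ^ 4) * (1 + |τ| / T) ^ 300 := by
  obtain ⟨C₁, hC₁, hAB⟩ := AB
  obtain ⟨C₂, hC₂, T₂, hT₂, hAR⟩ := AR θ hθ0 hθ1
  set C₃ := max C₂ 1 with hC₃
  have hC₃1 : 1 ≤ C₃ := le_max_right _ _
  have hC₂₃ : C₂ ≤ C₃ := le_max_left _ _
  refine ⟨C₁ * C₃ + C₁ + C₃, by positivity, fun K hK => ?_⟩
  have h7 : C₁ * K + C₃ * K ≤ (C₁ * C₃ + C₁ + C₃) * K := by
    have h0 : 0 ≤ C₁ * C₃ * K := by positivity
    calc C₁ * K + C₃ * K ≤ C₁ * K + C₃ * K + C₁ * C₃ * K := le_add_of_nonneg_right h0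
      _ = (C₁ * C₃ + C₁ + C₃) * K := by ring
  obtain ⟨T₁, hT₁, hAB⟩ := hAB K hK
  refine ⟨max T₁ (max T₂ (Real.exp K)), hT₁.trans (le_max_left _ _), fun T hT τ W hW1 hW2 w₁ w₂ hw₁ hw₂ => ?_⟩
  have hTT₁ : T₁ ≤ T := (le_max_left _ _).trans hT
  have hTT₂ : T₂ ≤ T := ((le_max_left _ _).trans (le_max_right _ _)).trans hT
  have hTK : Real.exp K ≤ T := ((le_max_right _ _).trans (le_max_right _ _)).trans hT
  have hT1 : 1 < T := lt_of_lt_of_le hT₂ hTT₂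
  have hT0 : 0 < T := by linarith only [hθ0, hθ1, hT₂, hTT₂]
  have hL3200 : 3200 ≤ Real.log T := by
    rw [Real.le_log_iff_exp_le hT0]
    exact hT₁.trans hTT₁
  have hL0 : 0 < Real.log T := by linarith only [hθ0, hθ1, hL3200]
  have hW0 : 0 < W := lt_of_lt_of_le (by positivity) hW1
  set Q := C₃ * Real.exp (C₃ * K) * Real.log T * (1 + Real.log T * ‖w₁‖) ^ 4 *
      (1 + Real.log T * ‖w₂‖) ^ 4 with hQ
  have h1 : DiagHyp T K Q (aa (T ^ θ) w₁ w₂) := by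
    refine CB_mono hT1 ?_ (hAR T hTT₂ K hK w₁ w₂ hw₁ hw₂)
    rw [hQ]
    have : C₂ * K ≤ C₃ * K := by gcongr
    have := Real.exp_le_exp.2 this
    gcongr
  have hQ1 : 1 ≤ Q := by
    have h2 : 1 ≤ Real.exp (C₃ * K) := Real.one_le_exp (by positivity)
    have h3 : 1 ≤ (1 + Real.log T * ‖w₁‖) ^ 4 := one_le_pow₀ (by linarith only [hL0, mul_nonneg hL0.le (norm_nonneg w₁)])
    have h4 : 1 ≤ (1 + Real.log T * ‖w₂‖) ^ 4 := one_le_pow₀ (by linarith only [hL0, mul_nonneg hL0.le (norm_nonneg w₂)])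
    rw [hQ]
    refine one_le_mul_of_one_le_of_one_le (one_le_mul_of_one_le_of_one_le (one_le_mul_of_one_le_of_one_le
      (one_le_mul_of_one_le_of_one_le hC₃1 h2) (by linarith only [hθ0, hθ1, hL3200])) h3) h4
  have h5 := hAB T hTT₁ Q hQ1 (aa (T ^ θ) w₁ w₂) (CB_supp θ T hθ0 hθ1 hT1 w₁ w₂)
    (CB_bound θ T K hθ0 hθ1 hT1 (by linarith only [hθ0, hθ1, hK]) hTK w₁ w₂ hw₁ hw₂) h1 τ W hW1 hW2
  simp only [CB_DP θ T hθ0 hθ1 hT1 w₁ w₂] at h5
  refine ⟨h5.1, h5.2.trans ?_⟩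
  have hPτ : (0 : ℝ) ≤ (1 + |τ| / T) ^ 300 := by positivity
  refine mul_le_mul_of_nonneg_right ?_ hPτ
  have h6 : C₁ * Real.exp (C₁ * K) * W * Q = (C₁ * C₃) * (Real.exp (C₁ * K) * Real.exp (C₃ * K)) * W * Real.log T *
      ((1 + Real.log T * ‖w₁‖) ^ 4 * (1 + Real.log T * ‖w₂‖) ^ 4) := by
    rw [hQ]; ring
  rw [h6, ← Real.exp_add]
  have h8 := Real.exp_le_exp.2 h7
  have h9 : C₁ * C₃ ≤ C₁ * C₃ + C₁ + C₃ := by linarith only [hθ0, hθ1, hC₁, hC₃1]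
  gcongr

end Pool.Agent.H14.CO

end

section

/-!
# CO module CBL: mean square of `ζ M M` to the left of the critical line
-/

set_option autoImplicit false

namespace Pool.Agent.H14.CO

open Set MeasureTheory Complex

private theorem CBL_re_pt (w : ℂ) (t : ℝ) : (pt w t).re = 1 / 2 + w.re := by
  unfold pt
  simp

private theorem CBL_continuous_pt (w : ℂ) : Continuous (fun t : ℝ => pt w t) := by
  unfold pt
  fun_prop

private theorem CBL_continuous_Mo_pt (z : ℝ) (w : ℂ) : Continuous (fun t : ℝ => Mo z (pt w t)) :=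
  (continuous_Mo z).comp (CBL_continuous_pt w)

private theorem CBL_continuous_zeta (x : ℝ) (hx : |x| ≤ 1 / 4) :
    Continuous (fun t : ℝ => riemannZeta (pt (x : ℂ) t)) := by
  rw [continuous_iff_continuousAt]
  intro t
  have hne : pt (x : ℂ) t ≠ 1 := by
    intro h
    have h1 := congrArg Complex.re h
    rw [CBL_re_pt] at h1
    simp at h1
    have := abs_le.mp hx
    linarith only [h1, this]
  exact ContinuousAt.comp (f := fun t : ℝ => pt (x : ℂ) t) (g := riemannZeta)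
    (differentiableAt_riemannZeta hne).continuousAt (CBL_continuous_pt _).continuousAt

private theorem CBL_zeta_small : ∃ C : ℝ, 0 < C ∧ ∀ x t : ℝ, |x| ≤ 1 / 4 → |t| ≤ 1 →
    ‖riemannZeta (pt (x : ℂ) t)‖ ≤ C := by
  have hK : IsCompact ((Icc (-(1 / 4) : ℝ) (1 / 4)) ×ˢ (Icc (-1 : ℝ) 1)) :=
    isCompact_Icc.prod isCompact_Icc
  have hc : ContinuousOn (fun p : ℝ × ℝ => riemannZeta (pt (p.1 : ℂ) p.2))
      ((Icc (-(1 / 4) : ℝ) (1 / 4)) ×ˢ (Icc (-1 : ℝ) 1)) := by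
    intro p hp
    have hp1 := hp.1
    rw [mem_Icc] at hp1
    have hne : pt (p.1 : ℂ) p.2 ≠ 1 := by
      intro h
      have h1 := congrArg Complex.re h
      rw [CBL_re_pt] at h1
      simp at h1
      linarith only [hp1, h1]
    apply ContinuousAt.continuousWithinAt
    have hcont : Continuous (fun p : ℝ × ℝ => pt (p.1 : ℂ) p.2) := by
      unfold pt
      fun_prop
    exact ContinuousAt.comp (f := fun p : ℝ × ℝ => pt (p.1 : ℂ) p.2) (g := riemannZeta)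
      (differentiableAt_riemannZeta hne).continuousAt hcont.continuousAt
  obtain ⟨C, hC⟩ := hK.exists_bound_of_continuousOn hc
  refine ⟨max C 1, lt_max_of_lt_right one_pos, ?_⟩
  intro x t hx ht
  have h := hC (x, t) ⟨by rw [mem_Icc]; exact abs_le.mp hx, by rw [mem_Icc]; exact abs_le.mp ht⟩
  exact h.trans (le_max_left _ _)

private theorem CBL_gauss (r : ℝ) :
    (1 + r) * Real.exp (-r ^ 2) ≤ 2 * Real.exp (-(r / 2) ^ 2) := by
  have h1 : Real.exp (-(r / 2) ^ 2) = Real.exp (3 / 4 * r ^ 2) * Real.exp (-r ^ 2) := by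
    rw [← Real.exp_add]
    congr 1
    ring
  rw [h1, ← mul_assoc]
  apply mul_le_mul_of_nonneg_right _ (Real.exp_pos _).le
  have h2 := Real.add_one_le_exp (3 / 4 * r ^ 2)
  nlinarith only [h2, sq_nonneg (r - 1 / 3)]

private theorem CBL_pow (T K t : ℝ) (hT0 : 0 < T) (hL : 0 < Real.log T)
    (hx : 0 < K / Real.log T) (hx2 : 2 * (K / Real.log T) ≤ 1) (ht0 : 0 < |t|) :
    (|t| ^ (K / Real.log T)) ^ 2 ≤ Real.exp (2 * K) * (1 + |t| / T) := by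
  have e1 : (|t| ^ (K / Real.log T)) ^ 2 = |t| ^ (2 * (K / Real.log T)) := by
    rw [← Real.rpow_natCast, ← Real.rpow_mul ht0.le]
    congr 1
    push_cast
    ring
  have e2 : |t| ^ (2 * (K / Real.log T)) ≤ (T * (1 + |t| / T)) ^ (2 * (K / Real.log T)) := by
    apply Real.rpow_le_rpow ht0.le _ (by positivity)
    rw [mul_add, mul_div_cancel₀ _ hT0.ne']
    linarith only [hT0]
  have e3 : T ^ (2 * (K / Real.log T)) = Real.exp (2 * K) := by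
    rw [Real.rpow_def_of_pos hT0]
    congr 1
    field_simp
  have e4 : (1 + |t| / T) ^ (2 * (K / Real.log T)) ≤ 1 + |t| / T := by
    have h1 : 1 ≤ 1 + |t| / T := by
      have : 0 ≤ |t| / T := by positivity
      linarith only [this]
    calc (1 + |t| / T) ^ (2 * (K / Real.log T)) ≤ (1 + |t| / T) ^ (1 : ℝ) :=
          Real.rpow_le_rpow_of_exponent_le h1 (by linarith only [hx2])
      _ = 1 + |t| / T := Real.rpow_one _
  rw [e1]
  refine e2.trans ?_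
  rw [Real.mul_rpow hT0.le (by positivity), e3]
  exact mul_le_mul_of_nonneg_left e4 (Real.exp_pos _).le

private theorem CBL_r (T τ W t : ℝ) (hW0 : 0 < W) (hWT : W ≤ T) :
    1 + |t| / T ≤ (1 + |τ| / T) * (1 + |(t - τ) / W|) := by
  have hT0 : 0 < T := hW0.trans_le hWT
  have h1 : |t| ≤ |τ| + |t - τ| := by
    calc |t| = |τ + (t - τ)| := by ring_nf
      _ ≤ |τ| + |t - τ| := abs_add_le _ _
  have h2 : |(t - τ) / W| = |t - τ| / W := by rw [abs_div, abs_of_pos hW0]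
  have h3 : |t - τ| / T ≤ |t - τ| / W :=
    div_le_div_of_nonneg_left (abs_nonneg _) hW0 hWT
  have h4 : |t| / T ≤ |τ| / T + |t - τ| / T := by
    rw [← add_div]
    exact div_le_div_of_nonneg_right h1 hT0.le
  have h5 : 0 ≤ |t - τ| / W := by positivity
  have h6 : 0 ≤ |τ| / T := by positivity
  rw [h2]
  have h7 := mul_nonneg h6 h5
  have h8 : (1 + |τ| / T) * (1 + |t - τ| / W) =
      1 + |τ| / T + |t - τ| / W + |τ| / T * (|t - τ| / W) := by ring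
  rw [h8]
  linarith only [h3, h4, h7]

private theorem CBL_g (τ W t : ℝ) :
    (1 + |(t - τ) / W|) * gw τ W t ≤ 2 * gw τ (2 * W) t := by
  have h := CBL_gauss |(t - τ) / W|
  unfold gw
  have e1 : -((t - τ) / W) ^ 2 = -|(t - τ) / W| ^ 2 := by rw [sq_abs]
  have e2 : -((t - τ) / (2 * W)) ^ 2 = -(|(t - τ) / W| / 2) ^ 2 := by
    rw [div_pow |(t - τ) / W|, sq_abs]
    ring
  rw [e1, e2]
  exact h

private theorem CBL_alg1 (C₁ C₂ K W L P Q : ℝ) :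
    (2 * C₂ ^ 2 * Real.exp (2 * K) * Q) * (C₁ * Real.exp (C₁ * K) * (2 * W) * L * P * Q ^ 300) =
      (4 * C₂ ^ 2 * C₁) * (Real.exp ((2 + C₁) * K) * (W * L * P * Q ^ 301)) := by
  rw [add_mul, Real.exp_add, pow_succ Q 300]
  generalize Q ^ 300 = R
  ring

private theorem CBL_alg2 {X Y a b C E E' W L P R : ℝ} (h1 : X ≤ a * (E * (W * L * P * R)))
    (h2 : Y ≤ b * (E * (W * L * P * R))) (h3 : a + b ≤ C) (hC : 0 ≤ C) (h4 : E ≤ E')
    (hE : 0 ≤ E) (h5 : 0 ≤ W * L * P * R) : X + Y ≤ C * E' * W * L * P * R := by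
  calc X + Y ≤ (a + b) * (E * (W * L * P * R)) := by
        rw [add_mul]
        exact add_le_add h1 h2
    _ ≤ C * (E' * (W * L * P * R)) := by
        apply mul_le_mul h3 _ (by positivity) hC
        exact mul_le_mul_of_nonneg_right h4 h5
    _ = _ := by ring

private theorem CBL_alg3 {C₃ E W L P R : ℝ} (hW : 0 ≤ W) (hL : 1 ≤ L) (hP : 1 ≤ P) (hR : 1 ≤ R)
    (hE : 1 ≤ E) : 2 * (C₃ ^ 2 * W) ≤ (2 * C₃ ^ 2) * (E * (W * L * P * R)) := by
  have h1 : 1 ≤ E * (L * P * R) := one_le_mul_of_one_le_of_one_le hE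
    (one_le_mul_of_one_le_of_one_le (one_le_mul_of_one_le_of_one_le hL hP) hR)
  have h2 : 0 ≤ 2 * (C₃ ^ 2 * W) := by positivity
  calc 2 * (C₃ ^ 2 * W) = 2 * (C₃ ^ 2 * W) * 1 := (mul_one _).symm
    _ ≤ 2 * (C₃ ^ 2 * W) * (E * (L * P * R)) := mul_le_mul_of_nonneg_left h1 h2
    _ = _ := by ring

private theorem CBL_small_aux {f g C P W : ℝ} (hf : 0 ≤ f) (h5 : f ≤ C * P)
    (hg : g ≤ 1) (h6 : P ^ 2 ≤ W) : f ^ 2 * g ≤ C ^ 2 * W := by
  calc f ^ 2 * g ≤ f ^ 2 * 1 := mul_le_mul_of_nonneg_left hg (sq_nonneg _)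
    _ = f ^ 2 := mul_one _
    _ ≤ (C * P) ^ 2 := pow_le_pow_left₀ hf h5 2
    _ = C ^ 2 * P ^ 2 := by ring
    _ ≤ C ^ 2 * W := mul_le_mul_of_nonneg_left h6 (sq_nonneg _)

private theorem CBL_big_aux {C a z m u r g g' Q E : ℝ} (ha : 0 ≤ a)
    (hg0 : 0 ≤ g) (hQ : 0 ≤ Q) (hE : 0 ≤ E)
    (h1 : a ≤ C * u * z) {v : ℝ} (h2 : u ^ 2 ≤ E * v) (h3 : v ≤ Q * r)
    (h4 : r * g ≤ 2 * g') : (a * m) ^ 2 * g ≤ (2 * C ^ 2 * E * Q) * ((z * m) ^ 2 * g') := by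
  calc (a * m) ^ 2 * g = a ^ 2 * (m ^ 2 * g) := by ring
    _ ≤ (C * u * z) ^ 2 * (m ^ 2 * g) :=
        mul_le_mul_of_nonneg_right (pow_le_pow_left₀ ha h1 2) (by positivity)
    _ = (C ^ 2 * z ^ 2 * m ^ 2 * g) * u ^ 2 := by ring
    _ ≤ (C ^ 2 * z ^ 2 * m ^ 2 * g) * (E * (Q * r)) := by
        apply mul_le_mul_of_nonneg_left _ (by positivity)
        exact h2.trans (mul_le_mul_of_nonneg_left h3 hE)
    _ = (C ^ 2 * z ^ 2 * m ^ 2 * E * Q) * (r * g) := by ring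
    _ ≤ (C ^ 2 * z ^ 2 * m ^ 2 * E * Q) * (2 * g') :=
        mul_le_mul_of_nonneg_left h4 (by positivity)
    _ = _ := by ring

/-- Left line: PROOF. Substitute `t' = t + Im w₀`-type shifts; here the statement is for
`w₀ = -K/L` (real): `chi_bound` with `x = K/L ≤ 1/4`: for `|t| ≥ 1`,
`‖ζ(pt (-K/L) t)‖² ≤ C |t|^{2K/L} ‖ζ(pt (K/L) t)‖²`, `|t|^{2K/L} ≤ e^{2K} (1+|t|/T)` if `2K ≤ L`,
`(1+|t|/T) ≤ (1+|τ|/T)(1+|t-τ|/W)` and `(1+r) e^{-r²} ≤ 2 e^{-r²/4}`, i.e.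
`(1+|t-τ|/W) gw τ W t ≤ 2 gw τ (2W) t`; then `CB` with width `2W ≤ T`. For `|t| ≤ 1`: `‖ζ‖ ≤ C`
near `1/2` (compactness), `‖Mo‖ ≤ 2 z₀^{2}`-crude: `≤ C T^{8θ} ≤ W` as `8θ ≤ 1/5`. -/
theorem CB_left (θ : ℝ) (hθ0 : 0 < θ) (hθ1 : θ ≤ 1 / 40) : ∃ C : ℝ, 0 < C ∧ ∀ K : ℝ, 1 ≤ K →
    ∃ T₀ : ℝ, Real.exp 3200 ≤ T₀ ∧ ∀ T : ℝ, T₀ ≤ T → ∀ τ W : ℝ, T ^ (9 / 10 : ℝ) ≤ W → W ≤ T / 2 →
    ∀ w₁ w₂ : ℂ, |w₁.re| ≤ K / Real.log T → |w₂.re| ≤ K / Real.log T →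
    Integrable (fun t : ℝ => ‖riemannZeta (pt (-(K / Real.log T) : ℝ) t) *
      (Mo (T ^ θ) (pt w₁ t) * Mo (T ^ θ) (pt w₂ t))‖ ^ 2 * gw τ W t) ∧
    ∫ t : ℝ, ‖riemannZeta (pt (-(K / Real.log T) : ℝ) t) *
      (Mo (T ^ θ) (pt w₁ t) * Mo (T ^ θ) (pt w₂ t))‖ ^ 2 * gw τ W t
      ≤ C * Real.exp (C * K) * W * Real.log T * ((1 + Real.log T * ‖w₁‖) ^ 4 *
        (1 + Real.log T * ‖w₂‖) ^ 4) * (1 + |τ| / T) ^ 301 := by
  obtain ⟨C₁, hC₁, hCB⟩ := CB θ hθ0 hθ1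
  obtain ⟨C₂, hC₂, hchi⟩ := chi_bound
  obtain ⟨C₃, hC₃, hsm⟩ := CBL_zeta_small
  refine ⟨4 * C₂ ^ 2 * C₁ + 2 * C₃ ^ 2 + 2 + C₁, by positivity, ?_⟩
  intro K hK
  obtain ⟨T₁, hT₁, hT⟩ := hCB K hK
  refine ⟨max T₁ (Real.exp (4 * K)), le_max_of_le_left hT₁, ?_⟩
  intro T hTT τ W hW1 hW2 w₁ w₂ hw₁ hw₂
  have hTT₁ : T₁ ≤ T := (le_max_left _ _).trans hTT
  have hTK : Real.exp (4 * K) ≤ T := (le_max_right _ _).trans hTT
  have hT0 : 0 < T := (Real.exp_pos _).trans_le hTK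
  have hL : 4 * K ≤ Real.log T := (Real.le_log_iff_exp_le hT0).mpr hTK
  have hL4 : 4 ≤ Real.log T := by linarith only [hK, hL]
  have hT1 : 1 ≤ T := by
    have h := Real.add_one_le_exp (4 * K)
    linarith only [hθ0, hθ1, hK, hTK, h]
  set L := Real.log T with hLdef
  set x := K / L with hxdef
  have hLpos : 0 < L := by linarith only [hθ0, hθ1, hK, hL]
  have hxpos : 0 < x := by positivity
  have hx4 : x ≤ 1 / 4 := by
    rw [hxdef, div_le_div_iff₀ hLpos (by norm_num)]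
    linarith only [hL]
  have hxabs : |x| ≤ 1 / 4 := by rwa [abs_of_pos hxpos]
  have hW0 : 0 < W := (Real.rpow_pos_of_pos hT0 _).trans_le hW1
  have hW1' : T ^ (9 / 10 : ℝ) ≤ 2 * W := by linarith only [hW1, hW0, Real.rpow_pos_of_pos hT0 (9 / 10 : ℝ)]
  have hW2' : 2 * W ≤ T := by linarith only [hW2]
  set FR : ℝ → ℝ := fun t => ‖riemannZeta (pt (x : ℂ) t) *
      (Mo (T ^ θ) (pt w₁ t) * Mo (T ^ θ) (pt w₂ t))‖ ^ 2 * gw τ (2 * W) t with hFR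
  set FL : ℝ → ℝ := fun t => ‖riemannZeta (pt (-x : ℝ) t) *
      (Mo (T ^ θ) (pt w₁ t) * Mo (T ^ θ) (pt w₂ t))‖ ^ 2 * gw τ W t with hFL
  set Q : ℝ := 1 + |τ| / T with hQ
  have hQ1 : 1 ≤ Q := by
    have : 0 ≤ |τ| / T := by positivity
    linarith only [this]
  set A : ℝ := 2 * C₂ ^ 2 * Real.exp (2 * K) * Q with hA
  have hA0 : 0 ≤ A := by positivity
  -- crude bound of the mollifiers
  have hz1 : 1 < T ^ θ := by
    apply Real.one_lt_rpow _ hθ0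
    have := Real.add_one_le_exp (4 * K)
    linarith only [hθ0, hθ1, hK, hTK, this]
  have hMo : ∀ w : ℂ, |w.re| ≤ x → ∀ t : ℝ, ‖Mo (T ^ θ) (pt w t)‖ ≤ T ^ (4 * θ) := by
    intro w hw t
    refine (norm_Mo_le _ hz1 _).trans ?_
    rw [← Real.rpow_mul hT0.le]
    apply Real.rpow_le_rpow_of_exponent_le hT1
    have h1 : |(pt w t).re| ≤ 1 := by
      rw [CBL_re_pt]
      have := abs_le.mp hw
      rw [abs_le]
      constructor <;> linarith only [hθ0, hθ1, hx4, this]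
    calc θ * (2 + 2 * |(pt w t).re|) ≤ θ * 4 := mul_le_mul_of_nonneg_left (by linarith only [h1]) hθ0.le
      _ = 4 * θ := by ring
  set B : ℝ := C₃ ^ 2 * W with hB
  have hB0 : 0 ≤ B := by positivity
  have hsmall : ∀ t : ℝ, |t| ≤ 1 → FL t ≤ B := by
    intro t ht
    have h1 : ‖riemannZeta (pt (-x : ℝ) t)‖ ≤ C₃ := hsm (-x) t (by rwa [abs_neg]) ht
    have h2 := hMo w₁ hw₁ t
    have h3 := hMo w₂ hw₂ t
    have h4 : gw τ W t ≤ 1 := by
      unfold gw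
      rw [Real.exp_le_one_iff]
      have := sq_nonneg ((t - τ) / W)
      linarith only [this]
    have h5 : ‖riemannZeta (pt (-x : ℝ) t) * (Mo (T ^ θ) (pt w₁ t) * Mo (T ^ θ) (pt w₂ t))‖ ≤
        C₃ * (T ^ (4 * θ) * T ^ (4 * θ)) := by
      rw [norm_mul, norm_mul]
      apply mul_le_mul h1 _ (by positivity) hC₃.le
      exact mul_le_mul h2 h3 (norm_nonneg _) (by positivity)
    have h6 : (T ^ (4 * θ) * T ^ (4 * θ)) ^ 2 ≤ W := by
      rw [← Real.rpow_add hT0, ← Real.rpow_natCast, ← Real.rpow_mul hT0.le]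
      refine le_trans ?_ hW1
      apply Real.rpow_le_rpow_of_exponent_le hT1
      push_cast
      linarith only [hθ0, hθ1]
    exact CBL_small_aux (norm_nonneg _) h5 h4 h6
  have hbig : ∀ t : ℝ, 1 ≤ |t| → FL t ≤ A * FR t := by
    intro t ht
    have hζ : ‖riemannZeta (pt (-x : ℝ) t)‖ ≤ C₂ * |t| ^ x * ‖riemannZeta (pt (x : ℂ) t)‖ := by
      have h := hchi x t hxabs ht
      have e1 : (1 / 2 - (x : ℂ) + t * I) = pt (-x : ℝ) t := by
        unfold pt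
        push_cast
        ring
      have e2 : (1 / 2 + (x : ℂ) + t * I) = pt (x : ℂ) t := by
        unfold pt
        ring
      rw [e1, e2] at h
      exact h
    have ht0 : 0 < |t| := by linarith only [hθ0, hθ1, ht]
    have hpow : (|t| ^ x) ^ 2 ≤ Real.exp (2 * K) * (1 + |t| / T) :=
      CBL_pow T K t hT0 hLpos hxpos (by linarith only [hθ0, hθ1, hx4]) ht0
    have hr : 1 + |t| / T ≤ Q * (1 + |(t - τ) / W|) := CBL_r T τ W t hW0 (by linarith only [hθ0, hθ1, hW2, hT1])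
    have hg : (1 + |(t - τ) / W|) * gw τ W t ≤ 2 * gw τ (2 * W) t := CBL_g τ W t
    set m : ℝ := ‖Mo (T ^ θ) (pt w₁ t) * Mo (T ^ θ) (pt w₂ t)‖ with hm
    set z : ℝ := ‖riemannZeta (pt (x : ℂ) t)‖ with hz
    have hgw0 : 0 ≤ gw τ W t := (Real.exp_pos _).le
    have hfl : FL t = (‖riemannZeta (pt (-x : ℝ) t)‖ * m) ^ 2 * gw τ W t := by
      rw [← norm_mul]
    have hfr : FR t = (z * m) ^ 2 * gw τ (2 * W) t := by
      rw [← norm_mul]
    rw [hfl, hfr]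
    exact CBL_big_aux (norm_nonneg _) hgw0 (zero_le_one.trans hQ1) (Real.exp_pos _).le hζ hpow hr hg
  set G : ℝ → ℝ := fun t => A * FR t + (Icc (-1 : ℝ) 1).indicator (fun _ => B) t with hG
  have hFR0 : ∀ t, 0 ≤ FR t := fun t => mul_nonneg (sq_nonneg _) (Real.exp_pos _).le
  have hFL0 : ∀ t, 0 ≤ FL t := fun t => mul_nonneg (sq_nonneg _) (Real.exp_pos _).le
  have hFG : ∀ t, FL t ≤ G t := by
    intro t
    rw [hG]
    simp only []
    by_cases ht : |t| ≤ 1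
    · rw [indicator_of_mem (by rw [mem_Icc]; exact abs_le.mp ht)]
      have := hsmall t ht
      have := mul_nonneg hA0 (hFR0 t)
      linarith
    · have h1 := hbig t (by linarith only [ht])
      have h2 : 0 ≤ (Icc (-1 : ℝ) 1).indicator (fun _ => B) t :=
        indicator_nonneg (fun _ _ => hB0) t
      linarith only [h1, h2]
  have hindint : Integrable ((Icc (-1 : ℝ) 1).indicator (fun _ => B)) := by
    rw [integrable_indicator_iff measurableSet_Icc]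
    exact integrableOn_const (by simp)
  set P : ℝ := (1 + L * ‖w₁‖) ^ 4 * (1 + L * ‖w₂‖) ^ 4 with hP
  have hP1 : 1 ≤ P := by
    have h1 : 1 ≤ 1 + L * ‖w₁‖ := by
      have : 0 ≤ L * ‖w₁‖ := by positivity
      linarith only [this]
    have h2 : 1 ≤ 1 + L * ‖w₂‖ := by
      have : 0 ≤ L * ‖w₂‖ := by positivity
      linarith only [this]
    exact one_le_mul_of_one_le_of_one_le (one_le_pow₀ h1) (one_le_pow₀ h2)
  have hE : Real.exp ((2 + C₁) * K) ≤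
      Real.exp ((4 * C₂ ^ 2 * C₁ + 2 * C₃ ^ 2 + 2 + C₁) * K) := by
    apply Real.exp_le_exp.mpr
    apply mul_le_mul_of_nonneg_right _ (by linarith only [hθ0, hθ1, hK])
    have : 0 ≤ 4 * C₂ ^ 2 * C₁ := by positivity
    have : 0 ≤ 2 * C₃ ^ 2 := by positivity
    linarith
  have hE1 : 1 ≤ Real.exp ((2 + C₁) * K) := by
    apply Real.one_le_exp
    positivity
  have hfac : (4 * C₂ ^ 2 * C₁) + (2 * C₃ ^ 2) ≤ 4 * C₂ ^ 2 * C₁ + 2 * C₃ ^ 2 + 2 + C₁ := by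
    linarith only [hθ0, hθ1, hC₁]
  have hQ301 : 1 ≤ Q ^ 301 := one_le_pow₀ hQ1
  have hR2 : 2 * B ≤ (2 * C₃ ^ 2) * (Real.exp ((2 + C₁) * K) * (W * L * P * Q ^ 301)) :=
    CBL_alg3 hW0.le (by linarith only [hL4]) hP1 hQ301 hE1
  have hpos : 0 ≤ W * L * P * Q ^ 301 :=
    mul_nonneg (mul_nonneg (mul_nonneg hW0.le hLpos.le) (zero_le_one.trans hP1))
      (zero_le_one.trans hQ301)
  have hTgt := hT T hTT₁ τ (2 * W) hW1' hW2' w₁ w₂ hw₁ hw₂
  clear hT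
  have hint : Integrable FR := hTgt.1
  have hGint : Integrable G := (hint.const_mul A).add hindint
  have hcont : Continuous FL := by
    rw [hFL]
    have h1 := CBL_continuous_zeta (-x) (by rwa [abs_neg])
    have h2 := CBL_continuous_Mo_pt (T ^ θ) w₁
    have h3 := CBL_continuous_Mo_pt (T ^ θ) w₂
    have h4 : Continuous (fun t => gw τ W t) := by
      unfold gw
      fun_prop
    exact ((h1.mul (h2.mul h3)).norm.pow 2).mul h4
  have hFLint : Integrable FL := by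
    apply hGint.mono' hcont.aestronglyMeasurable
    filter_upwards with t
    rw [Real.norm_of_nonneg (hFL0 t)]
    exact hFG t
  refine ⟨hFLint, ?_⟩
  have hI : ∫ t, FL t ≤ A * (∫ t, FR t) + 2 * B := by
    calc ∫ t, FL t ≤ ∫ t, G t := integral_mono hFLint hGint hFG
      _ = A * (∫ t, FR t) + 2 * B := by
        rw [hG, integral_add (hint.const_mul A) hindint, integral_const_mul,
          integral_indicator measurableSet_Icc, setIntegral_const]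
        simp
        norm_num
  refine hI.trans ?_
  have hbd : ∫ t, FR t ≤ C₁ * Real.exp (C₁ * K) * (2 * W) * L * P * Q ^ 300 := hTgt.2
  clear hTgt
  have hR1 : A * (∫ t, FR t) ≤ (4 * C₂ ^ 2 * C₁) * (Real.exp ((2 + C₁) * K) * (W * L * P * Q ^ 301)) :=
    (mul_le_mul_of_nonneg_left hbd hA0).trans (le_of_eq (CBL_alg1 C₁ C₂ K W L P Q))
  exact CBL_alg2 hR1 hR2 hfac (by positivity) hE (by positivity) hpos

end Pool.Agent.H14.CO

end

section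

/-!
# CO module U: mean square of `ζ M M` near the critical line
-/

set_option autoImplicit false

namespace Pool.Agent.H14.CO

open Set MeasureTheory Complex

private lemma U_line (k q : ℝ → ℝ) (hkc : Continuous k) (hk0 : ∀ y, 0 ≤ k y)
    (Φ : ℝ → ℝ → ℝ)
    (hΦc : Continuous (fun p : ℝ × ℝ => Φ p.1 p.2)) (hΦ0 : ∀ t y, 0 ≤ Φ t y)
    (B : ℝ) (hB : 0 ≤ B)
    (hI : ∀ y, Integrable (fun t => Φ t y))
    (hb : ∀ y, ∫ t, Φ t y ≤ B * q y)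
    (hk : Integrable (fun y => q y * k y)) (C4 : ℝ)
    (hC4 : ∫ y, q y * k y ≤ C4) :
    Integrable (fun t => ∫ y, k y * Φ t y) ∧ ∫ t, ∫ y, k y * Φ t y ≤ B * C4 := by
  have hFc : Continuous (fun p : ℝ × ℝ => k p.2 * Φ p.1 p.2) :=
    (hkc.comp continuous_snd).mul hΦc
  have hFm : AEStronglyMeasurable (fun p : ℝ × ℝ => k p.2 * Φ p.1 p.2)
      ((volume : Measure ℝ).prod (volume : Measure ℝ)) := hFc.aestronglyMeasurable
  have hpt : ∀ y, ∫ t, ‖k y * Φ t y‖ = k y * ∫ t, Φ t y := by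
    intro y
    rw [← integral_const_mul]
    refine integral_congr_ae (Filter.Eventually.of_forall fun t => ?_)
    simp only [Real.norm_eq_abs]
    exact abs_of_nonneg (mul_nonneg (hk0 y) (hΦ0 t y))
  have hkey : ∀ y, k y * ∫ t, Φ t y ≤ B * (q y * k y) := by
    intro y
    calc k y * ∫ t, Φ t y ≤ k y * (B * q y) :=
          mul_le_mul_of_nonneg_left (hb y) (hk0 y)
      _ = B * (q y * k y) := by ring
  have hFi : Integrable (fun p : ℝ × ℝ => k p.2 * Φ p.1 p.2)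
      ((volume : Measure ℝ).prod (volume : Measure ℝ)) := by
    rw [integrable_prod_iff' hFm]
    refine ⟨Filter.Eventually.of_forall fun y => (hI y).const_mul (k y), ?_⟩
    refine Integrable.mono' (hk.const_mul B) ?_ (Filter.Eventually.of_forall fun y => ?_)
    · exact hFm.norm.prod_swap.integral_prod_right'
    · simp only [hpt]
      rw [Real.norm_eq_abs, abs_of_nonneg (mul_nonneg (hk0 y)
        (integral_nonneg fun t => hΦ0 t y))]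
      exact hkey y
  refine ⟨hFi.integral_prod_left, ?_⟩
  have hsw : ∫ t, ∫ y, k y * Φ t y = ∫ y, ∫ t, k y * Φ t y :=
    integral_integral_swap (f := fun t y => k y * Φ t y) hFi
  rw [hsw]
  have h2 : ∫ y, ∫ t, k y * Φ t y ≤ ∫ y, B * (q y * k y) := by
    refine integral_mono ?_ (hk.const_mul B) fun y => ?_
    · exact hFi.integral_prod_right
    · change ∫ t, k y * Φ t y ≤ _
      rw [integral_const_mul]
      exact hkey y
  refine h2.trans ?_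
  rw [integral_const_mul]
  exact mul_le_mul_of_nonneg_left hC4 hB

private lemma U_shift (z₀ : ℝ) (s : ℂ) (τ W v t : ℝ) (w₁ w₂ : ℂ) :
    ‖riemannZeta (pt s (t + v)) * (Mo z₀ (pt w₁ t) * Mo z₀ (pt w₂ t))‖ ^ 2 * gw τ W t
      = ‖riemannZeta (pt s (t + v)) * (Mo z₀ (pt (w₁ - v * I) (t + v)) *
        Mo z₀ (pt (w₂ - v * I) (t + v)))‖ ^ 2 * gw (τ + v) W (t + v) := by
  have e1 : ∀ w : ℂ, pt (w - v * I) (t + v) = pt w t := by
    intro w
    unfold pt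
    push_cast
    ring
  have e2 : gw (τ + v) W (t + v) = gw τ W t := by
    unfold gw
    have : t + v - (τ + v) = t - τ := by ring
    rw [this]
  rw [e1, e1, e2]

private lemma U_norm (L K : ℝ) (hL : 0 < L) (hK : 1 ≤ K) (w₀ w : ℂ) (y : ℝ)
    (h0 : |w₀.re| ≤ K / L) :
    1 + L * ‖w - ((w₀.im + y : ℝ) : ℂ) * I‖ ≤
      (1 + L * ‖w₀ - w‖) * ((1 + K) * (K * (1 + L / K * |y|))) := by
  have e : w - ((w₀.im + y : ℝ) : ℂ) * I = (w - w₀) + (w₀.re : ℂ) + (-(y : ℂ) * I) := by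
    have h := Complex.re_add_im w₀
    push_cast
    linear_combination -h
  have hn : ‖w - ((w₀.im + y : ℝ) : ℂ) * I‖ ≤ ‖w₀ - w‖ + |w₀.re| + |y| := by
    rw [e]
    refine (norm_add_le _ _).trans ?_
    refine add_le_add ((norm_add_le _ _).trans ?_) ?_
    · rw [norm_sub_rev w w₀]
      refine add_le_add le_rfl ?_
      rw [Complex.norm_real, Real.norm_eq_abs]
    · rw [norm_mul, Complex.norm_I, mul_one, norm_neg, Complex.norm_real, Real.norm_eq_abs]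
  have hK0 : 0 < K := by linarith
  have hA : 0 ≤ L * ‖w₀ - w‖ := by positivity
  have hB : 0 ≤ L * |y| := by positivity
  have e2 : K * (1 + L / K * |y|) = K + L * |y| := by
    field_simp
  have h1 : L * |w₀.re| ≤ K := by
    calc L * |w₀.re| ≤ L * (K / L) := mul_le_mul_of_nonneg_left h0 hL.le
      _ = K := by field_simp
  have h2 : 1 + L * ‖w - ((w₀.im + y : ℝ) : ℂ) * I‖ ≤ 1 + (L * ‖w₀ - w‖ + K + L * |y|) := by
    have := mul_le_mul_of_nonneg_left hn hL.le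
    nlinarith only [h1, this]
  refine h2.trans ?_
  rw [e2]
  set A := L * ‖w₀ - w‖
  set B := L * |y|
  have h3 : 1 + A + K + B ≤ (1 + A) * ((1 + K) * (1 + B)) := by
    have i1 : 0 ≤ A * K := mul_nonneg hA hK0.le
    have i2 : 0 ≤ A * B := mul_nonneg hA hB
    have i3 : 0 ≤ K * B := mul_nonneg hK0.le hB
    have i4 : 0 ≤ A * (K * B) := mul_nonneg hA i3
    have i5 : (1 + A) * ((1 + K) * (1 + B)) =
        1 + A + K + B + (A * K + A * B + K * B + A * (K * B)) := by ring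
    rw [i5]
    linarith only [i1, i2, i3, i4]
  have h4 : (1 + A) * ((1 + K) * (1 + B)) ≤ (1 + A) * ((1 + K) * (K + B)) := by
    refine mul_le_mul_of_nonneg_left ?_ (by linarith only [hA])
    exact mul_le_mul_of_nonneg_left (by linarith only [hK]) (by linarith only [hK])
  linarith only [h3, h4]

private lemma U_exp (K : ℝ) (hK : 1 ≤ K) : ((1 + K) * K) ^ 8 ≤ Real.exp (16 * K) := by
  have hK0 : 0 < K := by linarith only [hK]
  have k1 : 1 + K ≤ Real.exp K := by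
    have := Real.add_one_le_exp K
    linarith only [this]
  have k2 : K ≤ Real.exp K := by linarith
  have j1 : (1 + K) * K ≤ Real.exp (2 * K) := by
    calc (1 + K) * K ≤ Real.exp K * Real.exp K :=
          mul_le_mul k1 k2 hK0.le (Real.exp_pos _).le
      _ = Real.exp (2 * K) := by rw [← Real.exp_add]; ring_nf
  calc ((1 + K) * K) ^ 8 ≤ (Real.exp (2 * K)) ^ 8 :=
        pow_le_pow_left₀ (by positivity) j1 8
    _ = Real.exp (16 * K) := by rw [← Real.exp_nat_mul]; congr 1; push_cast; ring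

private lemma U_pow (K X A1 A2 n1 n2 : ℝ) (hK : 1 ≤ K) (hX : 1 ≤ X) (hA1 : 0 < A1)
    (hA2 : 0 < A2) (hn1 : 0 ≤ n1) (hn2 : 0 ≤ n2)
    (h1 : n1 ≤ A1 * ((1 + K) * (K * X))) (h2 : n2 ≤ A2 * ((1 + K) * (K * X))) :
    n1 ^ 4 * n2 ^ 4 ≤ (A1 ^ 4 * A2 ^ 4) * (Real.exp (16 * K) * X ^ 30) := by
  have hK0 : 0 < K := by linarith only [hK]
  have hX0 : 0 < X := by linarith only [hX]
  have i1 : n1 ^ 4 ≤ (A1 * ((1 + K) * (K * X))) ^ 4 := pow_le_pow_left₀ hn1 h1 4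
  have i2 : n2 ^ 4 ≤ (A2 * ((1 + K) * (K * X))) ^ 4 := pow_le_pow_left₀ hn2 h2 4
  have i3 := mul_le_mul i1 i2 (pow_nonneg hn2 4) (by positivity)
  refine i3.trans ?_
  have e : (A1 * ((1 + K) * (K * X))) ^ 4 * (A2 * ((1 + K) * (K * X))) ^ 4 =
      (A1 ^ 4 * A2 ^ 4) * (((1 + K) * K) ^ 8 * X ^ 8) := by ring
  rw [e]
  refine mul_le_mul_of_nonneg_left ?_ (by positivity)
  exact mul_le_mul (U_exp K hK) (pow_le_pow_right₀ hX (by norm_num)) (by positivity)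
    (Real.exp_pos _).le

private lemma U_tau (T τ u y : ℝ) (N : ℕ) (hT : 1 ≤ T) :
    (1 + |τ + (u + y)| / T) ^ N ≤ (1 + |τ + u| / T) ^ N * (1 + |y|) ^ N := by
  rw [← mul_pow]
  refine pow_le_pow_left₀ (by positivity) ?_ N
  have hT0 : 0 < T := by linarith
  have j1 : |τ + (u + y)| ≤ |τ + u| + |y| := by
    have : τ + (u + y) = (τ + u) + y := by ring
    rw [this]
    exact abs_add_le _ _
  have j2 : |τ + (u + y)| / T ≤ |τ + u| / T + |y| := by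
    calc |τ + (u + y)| / T ≤ (|τ + u| + |y|) / T := by gcongr
      _ = |τ + u| / T + |y| / T := add_div _ _ _
      _ ≤ |τ + u| / T + |y| := by
          have := div_le_self (abs_nonneg y) hT
          linarith only [this]
  have j3 : 0 ≤ |τ + u| / T := by positivity
  have j4 : 0 ≤ |y| := abs_nonneg y
  nlinarith only [j2, j3, j4, mul_nonneg j3 j4]

private lemma U_comb (A P P' E X30 Q D Y : ℝ) (hA : 0 ≤ A) (hP : P ≤ P' * (E * X30))
    (hQ : Q ≤ D * Y) (hQ0 : 0 ≤ Q) (hP'0 : 0 ≤ P' * (E * X30)) :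
    A * P * Q ≤ (A * P' * D * E) * (X30 * Y) := by
  calc A * P * Q ≤ A * (P' * (E * X30)) * (D * Y) :=
        mul_le_mul (mul_le_mul_of_nonneg_left hP hA) hQ hQ0 (mul_nonneg hA hP'0)
    _ = _ := by ring

/-- inner bound for one line, all shifts. -/
private lemma U_inner (z₀ T L K h A τ W : ℝ) (N : ℕ) (hT : 1 ≤ T) (hL : 0 < L) (hK : 1 ≤ K)
    (hh : h = L / K) (hA : 0 ≤ A) (s : ℂ) (w₀ w₁ w₂ : ℂ)
    (h0 : |w₀.re| ≤ K / L) (h1 : |w₁.re| ≤ K / L) (h2 : |w₂.re| ≤ K / L)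
    (hCB : ∀ τ' : ℝ, ∀ v₁ v₂ : ℂ, |v₁.re| ≤ 2 * K / L → |v₂.re| ≤ 2 * K / L →
      Integrable (fun t : ℝ => ‖riemannZeta (pt s t) *
        (Mo z₀ (pt v₁ t) * Mo z₀ (pt v₂ t))‖ ^ 2 * gw τ' W t) ∧
      ∫ t : ℝ, ‖riemannZeta (pt s t) * (Mo z₀ (pt v₁ t) * Mo z₀ (pt v₂ t))‖ ^ 2 * gw τ' W t
        ≤ A * ((1 + L * ‖v₁‖) ^ 4 * (1 + L * ‖v₂‖) ^ 4) * (1 + |τ'| / T) ^ N) (y : ℝ) :
    Integrable (fun t : ℝ => ‖riemannZeta (pt s (t + (w₀.im + y))) *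
        (Mo z₀ (pt w₁ t) * Mo z₀ (pt w₂ t))‖ ^ 2 * gw τ W t) ∧
    ∫ t : ℝ, ‖riemannZeta (pt s (t + (w₀.im + y))) *
        (Mo z₀ (pt w₁ t) * Mo z₀ (pt w₂ t))‖ ^ 2 * gw τ W t
      ≤ (A * ((1 + L * ‖w₀ - w₁‖) ^ 4 * (1 + L * ‖w₀ - w₂‖) ^ 4) *
          (1 + |τ + w₀.im| / T) ^ N * Real.exp (16 * K)) *
          ((1 + h * |y|) ^ 30 * (1 + |y|) ^ N) := by
  have hK0 : 0 < K := by linarith only [hK]
  have hKL : K / L ≤ 2 * K / L := by
    rw [mul_div_assoc]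
    have : 0 ≤ K / L := by positivity
    linarith only [this]
  have hr : ∀ w : ℂ, |w.re| ≤ K / L →
      |(w - ((w₀.im + y : ℝ) : ℂ) * I).re| ≤ 2 * K / L := by
    intro w hw
    have : (w - ((w₀.im + y : ℝ) : ℂ) * I).re = w.re := by simp
    rw [this]
    exact hw.trans hKL
  obtain ⟨hI, hb⟩ := hCB (τ + (w₀.im + y)) (w₁ - ((w₀.im + y : ℝ) : ℂ) * I)
    (w₂ - ((w₀.im + y : ℝ) : ℂ) * I) (hr w₁ h1) (hr w₂ h2)
  have hfun : (fun t : ℝ => ‖riemannZeta (pt s (t + (w₀.im + y))) *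
        (Mo z₀ (pt w₁ t) * Mo z₀ (pt w₂ t))‖ ^ 2 * gw τ W t) =
      fun t => (fun t : ℝ => ‖riemannZeta (pt s t) *
        (Mo z₀ (pt (w₁ - ((w₀.im + y : ℝ) : ℂ) * I) t) *
        Mo z₀ (pt (w₂ - ((w₀.im + y : ℝ) : ℂ) * I) t))‖ ^ 2 *
        gw (τ + (w₀.im + y)) W t) (t + (w₀.im + y)) := by
    funext t
    exact U_shift z₀ s τ W (w₀.im + y) t w₁ w₂
  rw [hfun]
  refine ⟨hI.comp_add_right (w₀.im + y), ?_⟩
  refine (le_of_eq (integral_add_right_eq_self (fun t : ℝ => ‖riemannZeta (pt s t) *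
        (Mo z₀ (pt (w₁ - ((w₀.im + y : ℝ) : ℂ) * I) t) *
        Mo z₀ (pt (w₂ - ((w₀.im + y : ℝ) : ℂ) * I) t))‖ ^ 2 *
        gw (τ + (w₀.im + y)) W t) (w₀.im + y))).trans (hb.trans ?_)
  have hn1 := U_norm L K hL hK w₀ w₁ y h0
  have hn2 := U_norm L K hL hK w₀ w₂ y h0
  rw [← hh] at hn1 hn2
  have hh0 : 0 < h := by rw [hh]; positivity
  have hx : 1 ≤ 1 + h * |y| := by
    have : 0 ≤ h * |y| := by positivity
    linarith only [this]
  have hp := U_pow K (1 + h * |y|) (1 + L * ‖w₀ - w₁‖) (1 + L * ‖w₀ - w₂‖) _ _ hK hx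
    (by positivity) (by positivity) (by positivity) (by positivity) hn1 hn2
  have hq := U_tau T τ w₀.im y N hT
  exact U_comb A _ _ _ _ _ _ _ hA hp hq (by positivity) (by positivity)

private lemma U_growth : ∃ C : ℝ, 0 < C ∧ ∀ t : ℝ, ∀ z : ℂ, |z.re| ≤ 1 / 4 →
    DifferentiableAt ℂ (fun w => riemannZeta (pt w t)) z ∧
    ‖riemannZeta (pt z t)‖ ≤ (C * (2 + |t|) ^ 4) * (1 + |z.im|) ^ 4 := by
  obtain ⟨C, hC, hg⟩ := Zt_growth 1 le_rfl
  refine ⟨4 * C, by positivity, fun t z hz => ?_⟩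
  have hre : (pt z t).re = 1 / 2 + z.re := by
    simp [pt]
  have hz' := abs_le.mp hz
  have hne : pt z t ≠ 1 := by
    intro h
    have : (pt z t).re = 1 := by rw [h]; simp
    rw [hre] at this
    linarith only [hz', this, hz'.2]
  refine ⟨?_, ?_⟩
  · have h1 : DifferentiableAt ℂ riemannZeta (pt z t) := differentiableAt_riemannZeta hne
    have h2 : DifferentiableAt ℂ (fun w => pt w t) z := by
      unfold pt
      fun_prop
    exact h1.comp z h2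
  · have h1 := hg (pt z t) (by rw [hre]; linarith only [hz', hz'.1])
    rw [Zt_eq _ hne, norm_mul] at h1
    have h2 : 1 / 4 ≤ ‖pt z t - 1‖ := by
      have h3 := Complex.abs_re_le_norm (pt z t - 1)
      have h4 : (pt z t - 1).re = -(1 / 2) + z.re := by
        rw [Complex.sub_re, hre, Complex.one_re]; ring
      rw [h4] at h3
      have h5 : |(-(1 / 2) + z.re : ℝ)| = 1 / 2 - z.re := by
        rw [abs_of_nonpos (by linarith only [hz', hz'.2])]; ring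
      rw [h5] at h3
      linarith only [hz', h3, hz'.2]
    have h6 : ‖pt z t‖ ≤ 3 / 4 + |z.im| + |t| := by
      have h7 := Complex.norm_le_abs_re_add_abs_im (pt z t)
      have h8 : (pt z t).im = z.im + t := by simp [pt]
      rw [hre, h8] at h7
      have h9 : |1 / 2 + z.re| ≤ 3 / 4 := by
        rw [abs_le]; constructor <;> linarith only [hz', hz'.1, hz'.2]
      have h10 := abs_add_le z.im t
      linarith only [h7, h9, h10]
    have h11 : 1 + ‖pt z t‖ ≤ (2 + |t|) * (1 + |z.im|) := by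
      have h12 : 0 ≤ |t| := abs_nonneg t
      have h13 : 0 ≤ |z.im| := abs_nonneg _
      nlinarith only [h6, h13, h12, mul_nonneg h12 h13]
    have h14 : C * (1 + ‖pt z t‖) ^ ((1 : ℝ) + 3) ≤ C * ((2 + |t|) * (1 + |z.im|)) ^ 4 := by
      have e : ((1 : ℝ) + 3) = ((4 : ℕ) : ℝ) := by norm_num
      rw [e, Real.rpow_natCast]
      exact mul_le_mul_of_nonneg_left (pow_le_pow_left₀ (by positivity) h11 4) hC.le
    have h15 : 1 / 4 * ‖riemannZeta (pt z t)‖ ≤ C * ((2 + |t|) * (1 + |z.im|)) ^ 4 :=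
      (mul_le_mul_of_nonneg_right h2 (norm_nonneg _)).trans (h1.trans h14)
    have h16 : C * ((2 + |t|) * (1 + |z.im|)) ^ 4 = C * (2 + |t|) ^ 4 * (1 + |z.im|) ^ 4 := by
      ring
    rw [h16] at h15
    have h17 : 4 * C * (2 + |t|) ^ 4 * (1 + |z.im|) ^ 4 =
        4 * (C * (2 + |t|) ^ 4 * (1 + |z.im|) ^ 4) := by ring
    rw [h17]
    linarith only [h15]

private lemma U_ker_cont (h σ : ℝ) (hσ : σ ≠ 0) :
    Continuous (fun y : ℝ => ‖kn h (σ + y * I) / (σ + y * I)‖) := by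
  have h1 : Continuous (fun y : ℝ => ((σ : ℂ) + y * I)) := by fun_prop
  refine (Continuous.div ((differentiable_kn h).continuous.comp h1) h1 fun y => ?_).norm
  intro h0
  apply hσ
  have := congrArg Complex.re h0
  simpa using this

private lemma U_kint (k q : ℝ → ℝ) (hkc : Continuous k) (hk0 : ∀ y, 0 ≤ k y)
    (hq : ∀ y, 1 ≤ q y) (hk : Integrable (fun y => q y * k y)) (C4 : ℝ)
    (hC4 : ∫ y, q y * k y ≤ C4) : ∫ y, k y ≤ C4 := by
  have hle : ∀ y, k y ≤ q y * k y := by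
    intro y
    have := mul_le_mul_of_nonneg_right (hq y) (hk0 y)
    linarith only [this]
  have hki : Integrable k := by
    refine Integrable.mono' hk hkc.aestronglyMeasurable (Filter.Eventually.of_forall fun y => ?_)
    rw [Real.norm_eq_abs, abs_of_nonneg (hk0 y)]
    exact hle y
  exact (integral_mono hki hk hle).trans hC4

private lemma U_zcont (s : ℂ) (hs : s.re < 1 / 2) : Continuous (fun t : ℝ => riemannZeta (pt s t)) := by
  rw [continuous_iff_continuousAt]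
  intro t
  have hne : pt s t ≠ 1 := by
    intro h
    have h1 : (pt s t).re = 1 := by rw [h]; simp
    have h2 : (pt s t).re = 1 / 2 + s.re := by simp [pt]
    linarith only [hs, h1, h2]
  have h1 : ContinuousAt riemannZeta (pt s t) := (differentiableAt_riemannZeta hne).continuousAt
  have h2 : Continuous (fun t : ℝ => pt s t) := by
    unfold pt
    fun_prop
  exact ContinuousAt.comp (f := fun t : ℝ => pt s t) h1 h2.continuousAt

private lemma U_ptcont (w : ℂ) : Continuous (fun t : ℝ => pt w t) := by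
  unfold pt
  fun_prop

private lemma U_gwcont (τ W : ℝ) : Continuous (fun t : ℝ => gw τ W t) := by
  unfold gw
  fun_prop

/-- one line: the double integral. -/
private lemma U_one (z₀ τ W h σ C4 B : ℝ) (N : ℕ) (s : ℂ) (hs : s.re < 1 / 2) (w₀ w₁ w₂ : ℂ)
    (hσ : σ ≠ 0) (hh : 0 < h) (hB : 0 ≤ B)
    (hk : Integrable (fun y : ℝ => (1 + h * |y|) ^ 30 * (1 + |y|) ^ N *
      ‖kn h (σ + y * I) / (σ + y * I)‖))
    (hC4 : ∫ y : ℝ, (1 + h * |y|) ^ 30 * (1 + |y|) ^ N * ‖kn h (σ + y * I) / (σ + y * I)‖ ≤ C4)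
    (hin : ∀ y : ℝ, Integrable (fun t : ℝ => ‖riemannZeta (pt s (t + (w₀.im + y))) *
        (Mo z₀ (pt w₁ t) * Mo z₀ (pt w₂ t))‖ ^ 2 * gw τ W t) ∧
      ∫ t : ℝ, ‖riemannZeta (pt s (t + (w₀.im + y))) *
        (Mo z₀ (pt w₁ t) * Mo z₀ (pt w₂ t))‖ ^ 2 * gw τ W t
      ≤ B * ((1 + h * |y|) ^ 30 * (1 + |y|) ^ N)) :
    Integrable (fun t : ℝ => ∫ y : ℝ, ‖kn h (σ + y * I) / (σ + y * I)‖ *
      (‖riemannZeta (pt s (t + (w₀.im + y))) *
        (Mo z₀ (pt w₁ t) * Mo z₀ (pt w₂ t))‖ ^ 2 * gw τ W t)) ∧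
    (∫ t : ℝ, ∫ y : ℝ, ‖kn h (σ + y * I) / (σ + y * I)‖ *
      (‖riemannZeta (pt s (t + (w₀.im + y))) *
        (Mo z₀ (pt w₁ t) * Mo z₀ (pt w₂ t))‖ ^ 2 * gw τ W t)) ≤ B * C4 ∧
    (∫ y : ℝ, ‖kn h (σ + y * I) / (σ + y * I)‖) ≤ C4 := by
  have hkc := U_ker_cont h σ hσ
  have hΦc : Continuous (fun p : ℝ × ℝ => ‖riemannZeta (pt s (p.1 + (w₀.im + p.2))) *
        (Mo z₀ (pt w₁ p.1) * Mo z₀ (pt w₂ p.1))‖ ^ 2 * gw τ W p.1) := by
    have c1 : Continuous (fun p : ℝ × ℝ => p.1 + (w₀.im + p.2)) := by fun_prop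
    have c2 := (U_zcont s hs).comp c1
    have c3 : Continuous (fun p : ℝ × ℝ => Mo z₀ (pt w₁ p.1)) :=
      (continuous_Mo z₀).comp ((U_ptcont w₁).comp continuous_fst)
    have c4 : Continuous (fun p : ℝ × ℝ => Mo z₀ (pt w₂ p.1)) :=
      (continuous_Mo z₀).comp ((U_ptcont w₂).comp continuous_fst)
    have c5 : Continuous (fun p : ℝ × ℝ => gw τ W p.1) := (U_gwcont τ W).comp continuous_fst
    exact ((c2.mul (c3.mul c4)).norm.pow 2).mul c5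
  have hmain := U_line (fun y : ℝ => ‖kn h (σ + y * I) / (σ + y * I)‖)
    (fun y : ℝ => (1 + h * |y|) ^ 30 * (1 + |y|) ^ N) hkc (fun y => norm_nonneg _)
    (fun t y : ℝ => ‖riemannZeta (pt s (t + (w₀.im + y))) *
        (Mo z₀ (pt w₁ t) * Mo z₀ (pt w₂ t))‖ ^ 2 * gw τ W t) hΦc
    (fun t y => mul_nonneg (sq_nonneg _) (Real.exp_pos _).le) B hB
    (fun y => (hin y).1) (fun y => (hin y).2) hk C4 hC4
  refine ⟨hmain.1, hmain.2, ?_⟩
  refine U_kint (fun y : ℝ => ‖kn h (σ + y * I) / (σ + y * I)‖)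
    (fun y : ℝ => (1 + h * |y|) ^ 30 * (1 + |y|) ^ N) hkc (fun y => norm_nonneg _) ?_ hk C4 hC4
  intro y
  have h1 : 1 ≤ 1 + h * |y| := by
    have : 0 ≤ h * |y| := by positivity
    linarith only [this]
  have h2 : 1 ≤ 1 + |y| := by
    have : 0 ≤ |y| := abs_nonneg y
    linarith only [this]
  exact one_le_mul_of_one_le_of_one_le (one_le_pow₀ h1) (one_le_pow₀ h2)

private lemma U_kern_const (C3 K L h σ : ℝ) (hC3 : 0 < C3) (hK : 1 ≤ K) (hL : 16 * K ≤ L)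
    (hh : h = L / K) (h1 : K / L ≤ |σ|) (h2 : |σ| ≤ 3 * K / L) :
    C3 * Real.exp (32 * h * |σ| + σ ^ 2) * (1 + 1 / (h * |σ|)) ≤ C3 * Real.exp 97 * 2 := by
  have hK0 : 0 < K := by linarith only [hK]
  have hL0 : 0 < L := by linarith only [hK, hL]
  have hh0 : 0 < h := by rw [hh]; positivity
  have a1 : 1 ≤ h * |σ| := by
    calc (1 : ℝ) = L / K * (K / L) := by field_simp
      _ ≤ h * |σ| := by rw [hh]; exact mul_le_mul_of_nonneg_left h1 (by positivity)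
  have a2 : h * |σ| ≤ 3 := by
    calc h * |σ| ≤ L / K * (3 * K / L) := by
          rw [hh]; exact mul_le_mul_of_nonneg_left h2 (by positivity)
      _ = 3 := by field_simp
  have a3 : σ ^ 2 ≤ 1 := by
    have b1 : |σ| ≤ 1 := by
      refine h2.trans ?_
      rw [div_le_one hL0]
      linarith only [hK, hL]
    rw [← sq_abs]
    exact pow_le_one₀ (abs_nonneg σ) b1
  have a4 : 1 / (h * |σ|) ≤ 1 := by
    rw [div_le_one (by linarith only [a1])]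
    exact a1
  have a5 : Real.exp (32 * h * |σ| + σ ^ 2) ≤ Real.exp 97 := by
    apply Real.exp_le_exp.mpr
    have b1 : 32 * h * |σ| = 32 * (h * |σ|) := by ring
    rw [b1]
    linarith only [a2, a3]
  have a6 : 0 ≤ 1 / (h * |σ|) := by positivity
  refine mul_le_mul (mul_le_mul_of_nonneg_left a5 hC3.le) (by linarith only [a4]) (by linarith only [a6])
    (by positivity)

private lemma U_fin (c c' e e' W L P Q : ℝ) (hce : c * e ≤ c' * e') (hW : 0 ≤ W) (hL : 0 ≤ L)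
    (hP : 0 ≤ P) (hQ : 0 ≤ Q) : c * e * W * L * P * Q ≤ c' * e' * W * L * P * Q := by
  have h1 := mul_le_mul_of_nonneg_right hce hW
  have h2 := mul_le_mul_of_nonneg_right h1 hL
  have h3 := mul_le_mul_of_nonneg_right h2 hP
  exact mul_le_mul_of_nonneg_right h3 hQ

/-- pointwise inequality at a fixed `t`. -/
private lemma U_point (z₀ τ W h a b C4 K L : ℝ) (hK : 1 ≤ K) (hL : 16 * K ≤ L) (hh : 0 < h)
    (ha : a = -(2 * K / L)) (hb : b = 2 * K / L)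
    (w₀ w₁ w₂ : ℂ) (h0 : |w₀.re| ≤ K / L)
    (hka : (∫ y : ℝ, ‖kn h ((a - w₀.re : ℝ) + y * I) / ((a - w₀.re : ℝ) + y * I)‖) ≤ C4)
    (hkb : (∫ y : ℝ, ‖kn h ((b - w₀.re : ℝ) + y * I) / ((b - w₀.re : ℝ) + y * I)‖) ≤ C4) (t : ℝ) :
    ‖riemannZeta (pt w₀ t) * (Mo z₀ (pt w₁ t) * Mo z₀ (pt w₂ t))‖ ^ 2 * gw τ W t ≤
      C4 * (∫ y : ℝ, ‖kn h ((a - w₀.re : ℝ) + y * I) / ((a - w₀.re : ℝ) + y * I)‖ *
        (‖riemannZeta (pt (a : ℂ) (t + (w₀.im + y))) *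
        (Mo z₀ (pt w₁ t) * Mo z₀ (pt w₂ t))‖ ^ 2 * gw τ W t)) +
      C4 * (∫ y : ℝ, ‖kn h ((b - w₀.re : ℝ) + y * I) / ((b - w₀.re : ℝ) + y * I)‖ *
        (‖riemannZeta (pt (b : ℂ) (t + (w₀.im + y))) *
        (Mo z₀ (pt w₁ t) * Mo z₀ (pt w₂ t))‖ ^ 2 * gw τ W t)) := by
  have hK0 : 0 < K := by linarith only [hK]
  have hL0 : 0 < L := by linarith only [hK, hL]
  have hKL : 0 < K / L := by positivity
  have hb8 : 2 * K / L ≤ 1 / 8 := by
    rw [div_le_iff₀ hL0]; linarith only [hL]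
  have h2KL : 2 * K / L = 2 * (K / L) := by ring
  have h0' := abs_le.mp h0
  obtain ⟨C, hC, hg⟩ := U_growth
  have hzz : ∀ z : ℂ, a ≤ z.re → z.re ≤ b → |z.re| ≤ 1 / 4 := by
    intro z hz1 hz2
    rw [abs_le]
    constructor
    · linarith only [ha, hKL, hb8, h2KL, hz1]
    · linarith only [hb, hKL, hb8, h2KL, hz2]
  have hint := interp (fun w => riemannZeta (pt w t)) a b
    (fun z hz1 hz2 => (hg t z (hzz z hz1 hz2)).1) (C * (2 + |t|) ^ 4) 4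
    (fun z hz1 hz2 => (hg t z (hzz z hz1 hz2)).2) h 0 hh w₀
    (by rw [ha]; linarith only [hKL, h2KL, h0']) (by rw [hb]; linarith only [hKL, h2KL, h0'])
  have e0 : Real.exp (-2 * 0 * (w₀.re - a)) = 1 := by simp
  have e1 : Real.exp (2 * 0 * (b - w₀.re)) = 1 := by simp
  rw [e0, e1, one_mul, one_mul] at hint
  have epa : ∀ (c y : ℝ), pt ((c : ℂ) + ((w₀.im : ℂ) + (y : ℂ)) * I) t =
      pt (c : ℂ) (t + (w₀.im + y)) := by
    intro c y
    unfold pt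
    push_cast
    ring
  have hM : 0 ≤ ‖Mo z₀ (pt w₁ t) * Mo z₀ (pt w₂ t)‖ ^ 2 * gw τ W t :=
    mul_nonneg (sq_nonneg _) (Real.exp_pos _).le
  have hsplit : ∀ ζ : ℂ, ‖ζ * (Mo z₀ (pt w₁ t) * Mo z₀ (pt w₂ t))‖ ^ 2 * gw τ W t =
      ‖ζ‖ ^ 2 * (‖Mo z₀ (pt w₁ t) * Mo z₀ (pt w₂ t)‖ ^ 2 * gw τ W t) := by
    intro ζ
    rw [norm_mul ζ, mul_pow]
    ring
  have hone : ∀ c : ℝ, (∫ y : ℝ, ‖kn h ((c - w₀.re : ℝ) + y * I) / ((c - w₀.re : ℝ) + y * I)‖ *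
        (‖riemannZeta (pt (c : ℂ) (t + (w₀.im + y))) *
        (Mo z₀ (pt w₁ t) * Mo z₀ (pt w₂ t))‖ ^ 2 * gw τ W t)) =
      (∫ y : ℝ, ‖kn h ((c - w₀.re : ℝ) + y * I) / ((c - w₀.re : ℝ) + y * I)‖ *
        ‖riemannZeta (pt ((c : ℂ) + ((w₀.im : ℂ) + (y : ℂ)) * I) t)‖ ^ 2) *
        (‖Mo z₀ (pt w₁ t) * Mo z₀ (pt w₂ t)‖ ^ 2 * gw τ W t) := by
    intro c
    rw [← integral_mul_const]
    congr 1
    funext y
    rw [hsplit, epa]
    ring
  rw [hsplit, hone a, hone b]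
  have hIa : 0 ≤ ∫ y : ℝ, ‖kn h ((a - w₀.re : ℝ) + y * I) / ((a - w₀.re : ℝ) + y * I)‖ *
        ‖riemannZeta (pt ((a : ℂ) + ((w₀.im : ℂ) + (y : ℂ)) * I) t)‖ ^ 2 :=
    integral_nonneg fun y => mul_nonneg (norm_nonneg _) (sq_nonneg _)
  have hIb : 0 ≤ ∫ y : ℝ, ‖kn h ((b - w₀.re : ℝ) + y * I) / ((b - w₀.re : ℝ) + y * I)‖ *
        ‖riemannZeta (pt ((b : ℂ) + ((w₀.im : ℂ) + (y : ℂ)) * I) t)‖ ^ 2 :=
    integral_nonneg fun y => mul_nonneg (norm_nonneg _) (sq_nonneg _)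
  have j1 := mul_le_mul_of_nonneg_right hka hIa
  have j2 := mul_le_mul_of_nonneg_right hkb hIb
  have j3 := hint.trans (add_le_add j1 j2)
  have j4 := mul_le_mul_of_nonneg_right j3 hM
  refine j4.trans (le_of_eq ?_)
  ring

/-- The general upper bound (U).

PROOF. Fix `t`; `interp` for `G(w) = ζ(1/2 + it + w)` (if `1/2 + it + w = 1` could occur the strip
`|Re w| ≤ 2K/L < 1/2` avoids it), lines `a = -2K/L`, `b = 2K/L`, `lm = 0`, `h = L/K`, at `w = w₀`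
(`Re w₀ - a, b - Re w₀ ∈ [K/L, 3K/L]`, so `h|σ| ∈ [1,3]` in `kn_int`). Multiply by
`‖Mo (pt w₁ t) Mo (pt w₂ t)‖² gw τ W t`, integrate over `t` (Tonelli); for fixed `y` substitute
`t = t' - v`, `v = Im w₀ + y`: the `t`-integral becomes
`∫ ‖ζ(pt (±2K/L) t') Mo (pt (w₁ - iv) t') Mo (pt (w₂ - iv) t')‖² gw (τ+v) W t' dt'`, bounded by `CB` or
`CB_left` with `2K`; `‖w_i - iv‖ ≤ ‖w_i - w₀‖ + |Re w₀| + |y|`, so
`(1+L‖w_i-iv‖)^4 ≤ (1+L‖w_i-w₀‖)^4 (1+K)^4 (1+L|y|)^4`, `1+L|y| ≤ K(1+h|y|)`, and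
`(1+|τ+v|/T)^{301} ≤ (1+|τ+Im w₀|/T)^{301} (1+|y|)^{301}`; `kn_int` with `k = 301`. -/
theorem U (θ : ℝ) (hθ0 : 0 < θ) (hθ1 : θ ≤ 1 / 40) : ∃ C : ℝ, 0 < C ∧ ∀ K : ℝ, 1 ≤ K →
    ∃ T₀ : ℝ, Real.exp 3200 ≤ T₀ ∧ ∀ T : ℝ, T₀ ≤ T → ∀ τ W : ℝ, T ^ (9 / 10 : ℝ) ≤ W → W ≤ T / 2 →
    ∀ w₀ w₁ w₂ : ℂ, |w₀.re| ≤ K / Real.log T → |w₁.re| ≤ K / Real.log T →
    |w₂.re| ≤ K / Real.log T →
    Integrable (fun t : ℝ => ‖riemannZeta (pt w₀ t) *
      (Mo (T ^ θ) (pt w₁ t) * Mo (T ^ θ) (pt w₂ t))‖ ^ 2 * gw τ W t) ∧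
    ∫ t : ℝ, ‖riemannZeta (pt w₀ t) *
      (Mo (T ^ θ) (pt w₁ t) * Mo (T ^ θ) (pt w₂ t))‖ ^ 2 * gw τ W t
      ≤ C * Real.exp (C * K) * W * Real.log T * ((1 + Real.log T * ‖w₀ - w₁‖) ^ 4 *
        (1 + Real.log T * ‖w₀ - w₂‖) ^ 4) * (1 + |τ + w₀.im| / T) ^ 301 := by
  obtain ⟨N, hN⟩ : ∃ N : ℕ, N = 301 := ⟨_, rfl⟩
  obtain ⟨N', hN'⟩ : ∃ N' : ℕ, N' = 300 := ⟨_, rfl⟩
  have hCBs := CB θ hθ0 hθ1
  have hCLs := CB_left θ hθ0 hθ1
  rw [← hN] at hCLs ⊢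
  rw [← hN'] at hCBs
  obtain ⟨C1, hC1, h1⟩ := hCBs
  obtain ⟨C2, hC2, h2⟩ := hCLs
  obtain ⟨C3, hC3, h3⟩ := kn_int N
  have hNN : N' ≤ N := by omega
  clear hN hN'
  set Cm : ℝ := max C1 C2 with hCm
  have hCm1 : C1 ≤ Cm := le_max_left _ _
  have hCm2 : C2 ≤ Cm := le_max_right _ _
  have hCm0 : 0 < Cm := lt_of_lt_of_le hC1 hCm1
  set C4 : ℝ := C3 * Real.exp 97 * 2 with hC4
  have hC40 : 0 < C4 := by positivity
  refine ⟨2 * C4 ^ 2 * Cm + (2 * Cm + 16), by positivity, fun K hK => ?_⟩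
  have hK0 : 0 < K := by linarith only [hθ0, hθ1, hK]
  obtain ⟨T1, hT1e, hT1⟩ := h1 (2 * K) (by linarith only [hθ0, hθ1, hK])
  obtain ⟨T2, hT2e, hT2⟩ := h2 (2 * K) (by linarith only [hθ0, hθ1, hK])
  refine ⟨max (max T1 T2) (Real.exp (16 * K)), hT1e.trans ((le_max_left _ _).trans (le_max_left _ _)),
    fun T hT τ W hW1 hW2 w₀ w₁ w₂ h0 h1' h2' => ?_⟩
  have hTT1 : T1 ≤ T := ((le_max_left _ _).trans (le_max_left _ _)).trans hT
  have hTT2 : T2 ≤ T := ((le_max_right _ _).trans (le_max_left _ _)).trans hT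
  have hTe : Real.exp (16 * K) ≤ T := (le_max_right _ _).trans hT
  have hT0 : 0 < T := lt_of_lt_of_le (Real.exp_pos _) hTe
  have hLK : 16 * K ≤ Real.log T := by
    have := Real.log_le_log (Real.exp_pos _) hTe
    rwa [Real.log_exp] at this
  have hT1' : 1 ≤ T := by
    refine le_trans ?_ hTe
    have := Real.add_one_le_exp (16 * K)
    linarith only [hθ0, hθ1, hK, this]
  have hW0 : 0 < W := lt_of_lt_of_le (Real.rpow_pos_of_pos hT0 _) hW1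
  have hWT : W ≤ T := by linarith only [hθ0, hθ1, hW2, hT1']
  set L : ℝ := Real.log T with hLdef
  have hL0 : 0 < L := by linarith only [hθ0, hθ1, hK, hLK]
  set z₀ : ℝ := T ^ θ with hz₀
  set h : ℝ := L / K with hh
  have hh0 : 0 < h := by rw [hh]; positivity
  set A : ℝ := Cm * Real.exp (2 * Cm * K) * W * L with hA
  have hA0 : 0 ≤ A := by rw [hA]; positivity
  have hKLp : 0 < K / L := by positivity
  have h2KL : 2 * K / L = 2 * (K / L) := by ring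
  have h3KL : 3 * K / L = 3 * (K / L) := by ring
  -- the two line bounds
  have hexp : ∀ c : ℝ, 0 < c → c ≤ Cm → c * Real.exp (c * (2 * K)) * W * L ≤ A := by
    intro c hc0 hc
    rw [hA]
    have i1 : c * (2 * K) ≤ 2 * Cm * K := by
      calc c * (2 * K) ≤ Cm * (2 * K) := mul_le_mul_of_nonneg_right hc (by positivity)
        _ = 2 * Cm * K := by ring
    have i2 : Real.exp (c * (2 * K)) ≤ Real.exp (2 * Cm * K) := Real.exp_le_exp.mpr i1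
    have i3 : c * Real.exp (c * (2 * K)) ≤ Cm * Real.exp (2 * Cm * K) :=
      mul_le_mul hc i2 (Real.exp_pos _).le hCm0.le
    exact mul_le_mul_of_nonneg_right (mul_le_mul_of_nonneg_right i3 hW0.le) hL0.le
  have hb1 : ∀ τ' : ℝ, (1 + |τ'| / T) ^ N' ≤ (1 + |τ'| / T) ^ N := by
    intro τ'
    have : 0 ≤ |τ'| / T := by positivity
    exact pow_le_pow_right₀ (by linarith only [this]) hNN
  have hright : ∀ τ' : ℝ, ∀ v₁ v₂ : ℂ, |v₁.re| ≤ 2 * K / L → |v₂.re| ≤ 2 * K / L →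
      Integrable (fun t : ℝ => ‖riemannZeta (pt ((2 * K / L : ℝ) : ℂ) t) *
        (Mo z₀ (pt v₁ t) * Mo z₀ (pt v₂ t))‖ ^ 2 * gw τ' W t) ∧
      ∫ t : ℝ, ‖riemannZeta (pt ((2 * K / L : ℝ) : ℂ) t) *
        (Mo z₀ (pt v₁ t) * Mo z₀ (pt v₂ t))‖ ^ 2 * gw τ' W t
        ≤ A * ((1 + L * ‖v₁‖) ^ 4 * (1 + L * ‖v₂‖) ^ 4) * (1 + |τ'| / T) ^ N := by
    intro τ' v₁ v₂ hv1 hv2
    obtain ⟨i1, i2⟩ := hT1 T hTT1 τ' W hW1 hWT v₁ v₂ hv1 hv2
    refine ⟨i1, i2.trans ?_⟩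
    have i3 := hexp C1 hC1 hCm1
    refine mul_le_mul (mul_le_mul_of_nonneg_right i3 (by positivity)) (hb1 τ') (by positivity)
      (by positivity)
  have hleft : ∀ τ' : ℝ, ∀ v₁ v₂ : ℂ, |v₁.re| ≤ 2 * K / L → |v₂.re| ≤ 2 * K / L →
      Integrable (fun t : ℝ => ‖riemannZeta (pt ((-(2 * K / L) : ℝ) : ℂ) t) *
        (Mo z₀ (pt v₁ t) * Mo z₀ (pt v₂ t))‖ ^ 2 * gw τ' W t) ∧
      ∫ t : ℝ, ‖riemannZeta (pt ((-(2 * K / L) : ℝ) : ℂ) t) *
        (Mo z₀ (pt v₁ t) * Mo z₀ (pt v₂ t))‖ ^ 2 * gw τ' W t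
        ≤ A * ((1 + L * ‖v₁‖) ^ 4 * (1 + L * ‖v₂‖) ^ 4) * (1 + |τ'| / T) ^ N := by
    intro τ' v₁ v₂ hv1 hv2
    obtain ⟨i1, i2⟩ := hT2 T hTT2 τ' W hW1 hW2 v₁ v₂ hv1 hv2
    refine ⟨i1, i2.trans ?_⟩
    have i3 := hexp C2 hC2 hCm2
    exact mul_le_mul_of_nonneg_right (mul_le_mul_of_nonneg_right i3 (by positivity))
      (by positivity)
  clear_value L z₀ h A Cm C4
  have h0' := abs_le.mp h0
  -- the kernel constants
  have hσa : ∀ σ : ℝ, σ = -(2 * K / L) - w₀.re → K / L ≤ |σ| ∧ |σ| ≤ 3 * K / L := by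
    intro σ hσ
    have : |σ| = 2 * K / L + w₀.re := by
      rw [hσ, abs_of_nonpos (by linarith only [hKLp, h2KL, h0'])]; ring
    rw [this]
    constructor <;> linarith only [h2KL, h0', h3KL]
  have hσb : ∀ σ : ℝ, σ = 2 * K / L - w₀.re → K / L ≤ |σ| ∧ |σ| ≤ 3 * K / L := by
    intro σ hσ
    have : |σ| = 2 * K / L - w₀.re := by
      rw [hσ, abs_of_nonneg (by linarith only [hKLp, h2KL, h0'])]
    rw [this]
    constructor <;> linarith only [h2KL, h0', h3KL]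
  obtain ⟨ha1, ha2⟩ := hσa _ rfl
  obtain ⟨hb1', hb2'⟩ := hσb _ rfl
  have hane : -(2 * K / L) - w₀.re ≠ 0 := by
    intro h
    rw [h, abs_zero] at ha1
    linarith only [hKLp, ha1]
  have hbne : 2 * K / L - w₀.re ≠ 0 := by
    intro h
    rw [h, abs_zero] at hb1'
    linarith only [hKLp, hb1']
  obtain ⟨ka1, ka2⟩ := h3 h (-(2 * K / L) - w₀.re) hh0 hane
  obtain ⟨kb1, kb2⟩ := h3 h (2 * K / L - w₀.re) hh0 hbne
  have ka3 := ka2.trans (U_kern_const C3 K L h _ hC3 hK hLK hh ha1 ha2)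
  have kb3 := kb2.trans (U_kern_const C3 K L h _ hC3 hK hLK hh hb1' hb2')
  rw [← hC4] at ka3 kb3
  set B : ℝ := A * ((1 + L * ‖w₀ - w₁‖) ^ 4 * (1 + L * ‖w₀ - w₂‖) ^ 4) *
          (1 + |τ + w₀.im| / T) ^ N * Real.exp (16 * K) with hB
  have hB0 : 0 ≤ B := by rw [hB]; positivity
  clear_value B
  have hb8 : 2 * K / L ≤ 1 / 8 := by
    rw [div_le_iff₀ hL0]; linarith only [hLK]
  obtain ⟨ia1, ia2, ia3⟩ := U_one z₀ τ W h (-(2 * K / L) - w₀.re) C4 B N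
    ((-(2 * K / L) : ℝ) : ℂ) (by rw [Complex.ofReal_re]; linarith only [hθ0, hθ1, hKLp, h2KL]) w₀ w₁ w₂ hane hh0 hB0 ka1 ka3
    (fun y => by rw [hB]; exact U_inner z₀ T L K h A τ W N hT1' hL0 hK hh hA0 _ w₀ w₁ w₂ h0 h1' h2' hleft y)
  obtain ⟨ib1, ib2, ib3⟩ := U_one z₀ τ W h (2 * K / L - w₀.re) C4 B N
    ((2 * K / L : ℝ) : ℂ) (by rw [Complex.ofReal_re]; linarith only [hθ0, hθ1, hb8]) w₀ w₁ w₂ hbne hh0 hB0 kb1 kb3
    (fun y => by rw [hB]; exact U_inner z₀ T L K h A τ W N hT1' hL0 hK hh hA0 _ w₀ w₁ w₂ h0 h1' h2' hright y)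
  have hpt := U_point z₀ τ W h (-(2 * K / L)) (2 * K / L) C4 K L hK hLK hh0 rfl rfl w₀ w₁ w₂ h0
    ia3 ib3
  have hsum := (ia1.const_mul C4).add (ib1.const_mul C4)
  have hFc : Continuous (fun t : ℝ => ‖riemannZeta (pt w₀ t) *
      (Mo z₀ (pt w₁ t) * Mo z₀ (pt w₂ t))‖ ^ 2 * gw τ W t) := by
    have c2 := U_zcont w₀ (by linarith only [hθ0, hθ1, h2KL, h0', hb8])
    have c3 : Continuous (fun t : ℝ => Mo z₀ (pt w₁ t)) :=
      (continuous_Mo z₀).comp (U_ptcont w₁)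
    have c4 : Continuous (fun t : ℝ => Mo z₀ (pt w₂ t)) :=
      (continuous_Mo z₀).comp (U_ptcont w₂)
    exact ((c2.mul (c3.mul c4)).norm.pow 2).mul (U_gwcont τ W)
  have hF0 : ∀ t : ℝ, 0 ≤ ‖riemannZeta (pt w₀ t) *
      (Mo z₀ (pt w₁ t) * Mo z₀ (pt w₂ t))‖ ^ 2 * gw τ W t :=
    fun t => mul_nonneg (sq_nonneg _) (Real.exp_pos _).le
  have hFi : Integrable (fun t : ℝ => ‖riemannZeta (pt w₀ t) *
      (Mo z₀ (pt w₁ t) * Mo z₀ (pt w₂ t))‖ ^ 2 * gw τ W t) := by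
    refine Integrable.mono' hsum hFc.aestronglyMeasurable
      (Filter.Eventually.of_forall fun t => ?_)
    rw [Real.norm_eq_abs, abs_of_nonneg (hF0 t)]
    exact hpt t
  refine ⟨hFi, ?_⟩
  have hle := integral_mono hFi hsum hpt
  rw [integral_add' (ia1.const_mul C4) (ib1.const_mul C4), integral_const_mul,
    integral_const_mul] at hle
  have hle2 := hle.trans (add_le_add (mul_le_mul_of_nonneg_left ia2 hC40.le)
    (mul_le_mul_of_nonneg_left ib2 hC40.le))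
  refine hle2.trans ?_
  have hfin : C4 * (B * C4) + C4 * (B * C4) =
      (2 * C4 ^ 2 * Cm) * (Real.exp (2 * Cm * K) * Real.exp (16 * K)) * W * L *
      ((1 + L * ‖w₀ - w₁‖) ^ 4 * (1 + L * ‖w₀ - w₂‖) ^ 4) * (1 + |τ + w₀.im| / T) ^ N := by
    rw [hB, hA]; ring
  rw [hfin, ← Real.exp_add]
  have hc1 : 2 * C4 ^ 2 * Cm ≤ 2 * C4 ^ 2 * Cm + (2 * Cm + 16) := by linarith only [hθ0, hθ1, hC1, hCm1]
  have hc2 : Real.exp (2 * Cm * K + 16 * K) ≤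
      Real.exp ((2 * C4 ^ 2 * Cm + (2 * Cm + 16)) * K) := by
    apply Real.exp_le_exp.mpr
    have : 0 ≤ 2 * C4 ^ 2 * Cm * K := by positivity
    have e1 : (2 * C4 ^ 2 * Cm + (2 * Cm + 16)) * K =
        2 * C4 ^ 2 * Cm * K + (2 * Cm * K + 16 * K) := by ring
    rw [e1]
    linarith only [this]
  have hc3 := mul_le_mul hc1 hc2 (Real.exp_pos _).le (by positivity)
  exact U_fin _ _ _ _ _ _ _ _ hc3 hW0.le hL0.le (by positivity) (by positivity)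

end Pool.Agent.H14.CO

end
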