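import Pool.Agent.H15.TB1.M28
import Pool.Agent.H15.TB1.M59

/-! The parts of this file: H88.PSI.BoxL, H88.E58.Tp. -/

section

/-!
# PSI BoxL: the integral over a small set, given a bound for the longest factor

`i` with `N i` maximal: `N i ≥ (X/2^r)^(1/r) ≥ X^(1/7)`, so `hp` applies to it.  `G = ∏_{i' ≠ i} g i'` (`dp_prod`),
`K' = ∏_{i' ≠ i} 2 N i'`, `X^(1/3) ≤ K' ≤ X` (`N i ≤ X^(11/24)`, `X ≤ 2^r ∏ N`, `∏ N ≤ 3X`).  `Pool.Agent.H80.LV.hm (1/3)`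
(`Pool/Agent/H80/LV/HM.lean`; it has the same sums): `∫_B |DP G K'|^2 ≤ K' L^2 SS G K'`, `SS G K' ≤ K' L^C` (`prod_bd`, `tau_mom`).
`∫_B FF^2 ≤ (N i/L^K)^2 K'^2 L^(C+2) ≤ 4^r 9 X^2 L^(C+2-2K) ≤ X^2/L^A` for `K` large.
-/

set_option autoImplicit false

namespace Pool.Agent.H88.PSI

open Finset MeasureTheory

/-- the longest factor is long -/
theorem BoxL_long {X r : ℕ} {N : Fin r → ℕ} (hr : r ≤ 6) (hX : 2 ≤ X)
    (hP : X ≤ 2 ^ r * ∏ i, N i) (h1 : ∀ i, 1 ≤ N i) :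
    ∃ i : Fin r, (X : ℝ) ^ (1 / 6 : ℝ) ≤ 2 * N i := by
  have hne : (univ : Finset (Fin r)).Nonempty := by
    by_contra hcon
    rw [not_nonempty_iff_eq_empty] at hcon
    rw [hcon, prod_empty] at hP
    have hr0 : r = 0 := by
      by_contra h
      have : (⟨0, Nat.pos_of_ne_zero h⟩ : Fin r) ∈ (univ : Finset (Fin r)) := mem_univ _
      rw [hcon] at this
      exact absurd this (notMem_empty _)
    rw [hr0] at hP
    omega
  obtain ⟨i, _, hi⟩ := exists_max_image univ N hne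
  refine ⟨i, ?_⟩
  have h2 : X ≤ (2 * N i) ^ 6 := by
    calc X ≤ 2 ^ r * ∏ i, N i := hP
      _ ≤ 2 ^ r * ∏ _j : Fin r, N i := by
          apply Nat.mul_le_mul_left
          exact prod_le_prod' fun j _ => hi j (mem_univ _)
      _ = (2 * N i) ^ r := by
          rw [prod_const, card_univ, Fintype.card_fin, mul_pow]
      _ ≤ (2 * N i) ^ 6 := Nat.pow_le_pow_right (by have := h1 i; omega) hr
  have h3 : (X : ℝ) ≤ (2 * N i : ℝ) ^ (6 : ℝ) := by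
    rw [show (6 : ℝ) = ((6 : ℕ) : ℝ) by norm_num, Real.rpow_natCast]
    exact_mod_cast h2
  calc (X : ℝ) ^ (1 / 6 : ℝ) ≤ ((2 * N i : ℝ) ^ (6 : ℝ)) ^ (1 / 6 : ℝ) :=
        Real.rpow_le_rpow (by positivity) h3 (by norm_num)
    _ = 2 * N i := by
        rw [← Real.rpow_mul (by positivity)]
        norm_num

end Pool.Agent.H88.PSI

end

section

/-!
# E58 Tp: the first moment over a small set, given a bound for the longest factor

`κ = 1/200`, `I = {i : N i ≥ X^κ}`, `L = log X`.  For `i ∈ I` let `k i = ⌊(11/24) L/log (N i)⌋₊` (so `1 ≤ k i ≤ 100`): `(N i)^(k i) ≤ X^(11/24) < (N i)^(k i + 1)`, hence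
`(N i)^(k i) ≥ X^(11/48)` and `1/(2 k i) ≥ (12/11) log (N i)/L`.  `X ≤ 64 ∏ N i` gives `∑_{i ∈ I} log (N i)/L ≥ 1 - 6κ - log 64/L`, so
`Σ := ∑_{i ∈ I} 1/(2 k i) ≥ 24/23`; `θ := 1/Σ ≤ 23/24`.

`Pool.Agent.H80.LV.hm (1/5)` (the `η` of the theorem comes from it) for `(g i)^(k i)` (`dp_pow`, length `(2 N i)^(k i)`, coefficients by `prod_bd`, moments by `tau_mom`):
`∫_B ‖F_i‖^(2 k i) ≤ (N i)^(2 k i) L^C`.  Hoelder (`ENNReal.lintegral_prod_norm_pow_le`, or its Bochner version, weights `θ/(2 k i)` with sum `1`):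
`∫_B ∏_{i ∈ I} ‖F_i‖^θ ≤ ∏_{i ∈ I} (∫_B ‖F_i‖^(2 k i))^(θ/(2 k i)) ≤ (∏_{i ∈ I} N i)^θ L^C'`.
`FF = ∏_{i ∉ I} ‖F_i‖ ∏_{i ∈ I} ‖F_i‖^(1-θ) ‖F_i‖^θ`; `‖F_i‖ ≤ 2 L N i` (`box_tr`) and for the longest factor `i0` (`BoxL_long`: `N i0 ≥ X^(1/7)`)
`‖F_i0‖^(1-θ) ≤ (N i0)^(1-θ) L^(-K/24)`.  Total `≤ ∏ N i L^(C'+6) 2^6 L^(-K/24) ≤ X/L^A` for `K` large.
-/

set_option autoImplicit false

namespace Pool.Agent.H88.E58

open Finset MeasureTheory
open Pool.Agent.H88.PSI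

/-- Hoelder for finitely many functions -/
private theorem Tp_holder {ι : Type*} (s : Finset ι) {B : Set ℝ} {a b : ℝ} (hB : MeasurableSet B)
    (hsub : B ⊆ Set.Icc a b) (G : ι → ℝ → ℝ) (hG : ∀ i ∈ s, Continuous (G i))
    (h0 : ∀ i ∈ s, ∀ t, 0 ≤ G i t) (p : ι → ℝ) (hp : ∑ i ∈ s, p i = 1) (hp0 : ∀ i ∈ s, 0 ≤ p i) :
    ∫ t in B, ∏ i ∈ s, G i t ^ p i ≤ ∏ i ∈ s, (∫ t in B, G i t) ^ p i := by
  have hint : ∀ i ∈ s, IntegrableOn (G i) B := fun i hi =>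
    ((hG i hi).continuousOn.integrableOn_compact isCompact_Icc).mono_set hsub
  have hcont : Continuous (fun t => ∏ i ∈ s, G i t ^ p i) :=
    continuous_finsetProd s fun i hi => (hG i hi).rpow_const (fun t => Or.inr (hp0 i hi))
  have hintP : IntegrableOn (fun t => ∏ i ∈ s, G i t ^ p i) B :=
    (hcont.continuousOn.integrableOn_compact isCompact_Icc).mono_set hsub
  have hI0 : ∀ i ∈ s, 0 ≤ ∫ t in B, G i t := fun i hi =>
    setIntegral_nonneg hB fun t _ => h0 i hi t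
  rw [← ENNReal.ofReal_le_ofReal_iff (Finset.prod_nonneg fun i hi => Real.rpow_nonneg (hI0 i hi) _)]
  rw [ofReal_integral_eq_lintegral_ofReal hintP
    (ae_of_all _ fun t => Finset.prod_nonneg fun i hi => Real.rpow_nonneg (h0 i hi t) _)]
  rw [ENNReal.ofReal_prod_of_nonneg fun i hi => Real.rpow_nonneg (hI0 i hi) _]
  have h1 : ∀ t, ENNReal.ofReal (∏ i ∈ s, G i t ^ p i) = ∏ i ∈ s, ENNReal.ofReal (G i t) ^ p i := by
    intro t
    rw [ENNReal.ofReal_prod_of_nonneg fun i hi => Real.rpow_nonneg (h0 i hi t) _]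
    refine prod_congr rfl fun i hi => ?_
    rw [ENNReal.ofReal_rpow_of_nonneg (h0 i hi t) (hp0 i hi)]
  have h2 : ∏ i ∈ s, ENNReal.ofReal ((∫ t in B, G i t) ^ p i) =
      ∏ i ∈ s, (∫⁻ t in B, ENNReal.ofReal (G i t)) ^ p i := by
    refine prod_congr rfl fun i hi => ?_
    rw [← ENNReal.ofReal_rpow_of_nonneg (hI0 i hi) (hp0 i hi),
      ofReal_integral_eq_lintegral_ofReal (hint i hi) (ae_of_all _ fun t => h0 i hi t)]
  rw [h2]
  simp only [h1]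
  exact ENNReal.lintegral_prod_norm_pow_le s
    (fun i hi => ((hG i hi).measurable.ennreal_ofReal).aemeasurable) hp hp0

private theorem Tp_SS {X k M : ℕ} {f : ArithmeticFunction ℂ} (hbd : ∀ n, ‖f n‖ ≤ 2 * Real.log X)
    (hL : 1 ≤ Real.log X) (hM : M ^ k ≤ X) :
    SS (⇑(f ^ k)) (M ^ k) ≤ ((M ^ k : ℕ) : ℝ) * (2 * Real.log X) ^ (2 * k + 2 ^ (2 * k)) := by
  set L := Real.log X with hLdef
  have hG : ∀ n, ‖(f ^ k) n‖ ^ 2 ≤ (2 * L) ^ (2 * k) * tau n ^ (2 * k) := by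
    intro n
    have h1 := prod_bd (fun _ : Fin k => f) (2 * L) (by linarith) (fun _ n => hbd n) n
    rw [prod_const, card_univ, Fintype.card_fin] at h1
    calc ‖(f ^ k) n‖ ^ 2 ≤ ((2 * L) ^ k * tau n ^ k) ^ 2 :=
          pow_le_pow_left₀ (norm_nonneg _) h1 2
      _ = (2 * L) ^ (2 * k) * tau n ^ (2 * k) := by
          rw [mul_pow, ← pow_mul, ← pow_mul, mul_comm k 2]
  unfold SS
  calc ∑ n ∈ Icc 1 (M ^ k), ‖(f ^ k) n‖ ^ 2
      ≤ ∑ n ∈ Icc 1 (M ^ k), (2 * L) ^ (2 * k) * tau n ^ (2 * k) := sum_le_sum fun n _ => hG n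
    _ = (2 * L) ^ (2 * k) * ∑ n ∈ Icc 1 (M ^ k), tau n ^ (2 * k) := by rw [mul_sum]
    _ ≤ (2 * L) ^ (2 * k) * (((M ^ k : ℕ) : ℝ) * (1 + Real.log ((M ^ k : ℕ) : ℝ)) ^ (2 ^ (2 * k))) :=
        mul_le_mul_of_nonneg_left (tau_mom (2 * k) (M ^ k)) (by positivity)
    _ ≤ (2 * L) ^ (2 * k) * (((M ^ k : ℕ) : ℝ) * (2 * L) ^ (2 ^ (2 * k))) := by
        apply mul_le_mul_of_nonneg_left _ (by positivity)
        apply mul_le_mul_of_nonneg_left _ (by positivity)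
        have h0 : 0 ≤ Real.log ((M ^ k : ℕ) : ℝ) := Real.log_natCast_nonneg _
        apply pow_le_pow_left₀ (by linarith)
        have : Real.log ((M ^ k : ℕ) : ℝ) ≤ L := by
          rcases Nat.eq_zero_or_pos (M ^ k) with h | h
          · rw [h, Nat.cast_zero, Real.log_zero]
            linarith
          · exact Real.log_le_log (by exact_mod_cast h) (by exact_mod_cast hM)
        linarith
    _ = ((M ^ k : ℕ) : ℝ) * (2 * L) ^ (2 * k + 2 ^ (2 * k)) := by rw [pow_add]; ring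

private theorem Tp_mom {X k N0 EE : ℕ} {f : ArithmeticFunction ℂ} {B : Set ℝ} (hk : k ≤ 100)
    (hEE : EE = 402 + 2 ^ 200) (hbd : ∀ n, ‖f n‖ ≤ 2 * Real.log X) (hL : 2 ≤ Real.log X)
    (hsupp : ∀ n, f n ≠ 0 → n ≤ 2 * N0) (hM : (2 * N0) ^ k ≤ X)
    (hhm : ∫ t in B, ‖DP (⇑(f ^ k)) ((2 * N0) ^ k) t‖ ^ 2 ≤
      (((2 * N0) ^ k : ℕ) : ℝ) * Real.log X ^ 2 * SS (⇑(f ^ k)) ((2 * N0) ^ k)) :
    ∫ t in B, ‖DP (⇑f) (2 * N0) t‖ ^ (2 * k) ≤ (N0 : ℝ) ^ (2 * k) * Real.log X ^ (2 * EE) := by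
  have h1 : ∀ t, ‖DP (⇑(f ^ k)) ((2 * N0) ^ k) t‖ ^ 2 = ‖DP (⇑f) (2 * N0) t‖ ^ (2 * k) := by
    intro t
    rw [dp_pow f (2 * N0) k hsupp t, norm_pow, ← pow_mul, mul_comm k 2]
  simp only [h1] at hhm
  refine hhm.trans ?_
  have h2 := Tp_SS hbd (by linarith) hM
  set L := Real.log X with hLdef
  have hL0 : 0 < L := by linarith
  have hexp : 2 * k + 2 + (2 * k + 2 ^ (2 * k)) ≤ EE := by
    have h3 : 2 ^ (2 * k) ≤ 2 ^ 200 := Nat.pow_le_pow_right (by norm_num) (by omega)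
    rw [hEE]
    omega
  calc (((2 * N0) ^ k : ℕ) : ℝ) * L ^ 2 * SS (⇑(f ^ k)) ((2 * N0) ^ k)
      ≤ (((2 * N0) ^ k : ℕ) : ℝ) * L ^ 2 *
        ((((2 * N0) ^ k : ℕ) : ℝ) * (2 * L) ^ (2 * k + 2 ^ (2 * k))) :=
        mul_le_mul_of_nonneg_left h2 (by positivity)
    _ = (N0 : ℝ) ^ (2 * k) * (2 ^ (2 * k) * L ^ 2 * (2 * L) ^ (2 * k + 2 ^ (2 * k))) := by
        push_cast
        rw [mul_pow 2 (N0 : ℝ) k, pow_mul' (N0 : ℝ) 2 k, pow_mul' (2 : ℝ) 2 k]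
        ring
    _ ≤ (N0 : ℝ) ^ (2 * k) *
        ((2 * L) ^ (2 * k) * (2 * L) ^ 2 * (2 * L) ^ (2 * k + 2 ^ (2 * k))) := by
        apply mul_le_mul_of_nonneg_left _ (by positivity)
        apply mul_le_mul_of_nonneg_right _ (by positivity)
        apply mul_le_mul _ _ (by positivity) (by positivity)
        · exact pow_le_pow_left₀ (by norm_num) (by linarith) _
        · exact pow_le_pow_left₀ hL0.le (by linarith) _
    _ = (N0 : ℝ) ^ (2 * k) * (2 * L) ^ (2 * k + 2 + (2 * k + 2 ^ (2 * k))) := by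
        rw [pow_add (2 * L) (2 * k + 2), pow_add (2 * L) (2 * k) 2]
    _ ≤ (N0 : ℝ) ^ (2 * k) * (2 * L) ^ EE := by
        apply mul_le_mul_of_nonneg_left _ (by positivity)
        exact pow_le_pow_right₀ (by linarith) hexp
    _ ≤ (N0 : ℝ) ^ (2 * k) * (L ^ 2) ^ EE := by
        apply mul_le_mul_of_nonneg_left _ (by positivity)
        apply pow_le_pow_left₀ (by positivity)
        nlinarith
    _ = (N0 : ℝ) ^ (2 * k) * L ^ (2 * EE) := by rw [← pow_mul]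

/-- the choice of the power -/
private theorem Tp_k {X N : ℕ} (hL : 0 < Real.log X) (h1 : (X : ℝ) ^ (1 / 200 : ℝ) ≤ N)
    (h2 : (N : ℝ) ≤ (X : ℝ) ^ (11 / 24 : ℝ)) (h3 : (2 : ℝ) ^ 100 ≤ (X : ℝ) ^ (13 / 24 : ℝ)) :
    ∃ k : ℕ, 1 ≤ k ∧ k ≤ 100 ∧ (X : ℝ) ^ (1 / 5 : ℝ) ≤ (((2 * N) ^ k : ℕ) : ℝ) ∧ (2 * N) ^ k ≤ X ∧
      12 / 11 * (Real.log N / Real.log X) ≤ 1 / (2 * (k : ℝ)) := by
  have hX0 : (0 : ℝ) < X := by
    rcases Nat.eq_zero_or_pos X with h | h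
    · rw [h, Nat.cast_zero, Real.log_zero] at hL
      exact absurd hL (lt_irrefl 0)
    · exact_mod_cast h
  have hN0 : (0 : ℝ) < N := lt_of_lt_of_le (by positivity) h1
  obtain ⟨L, hLd⟩ : ∃ L, L = Real.log X := ⟨_, rfl⟩
  obtain ⟨l, hld⟩ : ∃ l, l = Real.log N := ⟨_, rfl⟩
  have e1 := Real.log_le_log (by positivity) h1
  have e2 := Real.log_le_log hN0 h2
  rw [Real.log_rpow hX0, ← hLd, ← hld] at e1
  rw [Real.log_rpow hX0, ← hLd, ← hld] at e2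
  rw [← hLd] at hL
  have hl : 0 < l := by linarith
  obtain ⟨k, hk⟩ : ∃ k, k = ⌊11 / 24 * L / l⌋₊ := ⟨_, rfl⟩
  have k1 : (k : ℝ) ≤ 11 / 24 * L / l := by
    rw [hk]
    exact Nat.floor_le (by positivity)
  have k2 : 11 / 24 * L / l < k + 1 := by
    rw [hk]
    exact Nat.lt_floor_add_one _
  rw [le_div_iff₀ hl] at k1
  rw [div_lt_iff₀ hl] at k2
  have hk1 : 1 ≤ k := by
    rw [hk]
    apply Nat.le_floor
    rw [Nat.cast_one, le_div_iff₀ hl]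
    linarith
  have hk1' : (1 : ℝ) ≤ k := by exact_mod_cast hk1
  have hk100 : k ≤ 100 := by
    by_contra hcon
    push Not at hcon
    have h4 : (101 : ℝ) ≤ k := by exact_mod_cast hcon
    nlinarith
  have hkl : 11 / 48 * L ≤ k * l := by nlinarith
  have hexp : (N : ℝ) ^ k = Real.exp (k * l) := by
    rw [Real.exp_nat_mul, hld, Real.exp_log hN0]
  have hup : (N : ℝ) ^ k ≤ (X : ℝ) ^ (11 / 24 : ℝ) := by
    rw [hexp, Real.rpow_def_of_pos hX0, ← hLd]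
    apply Real.exp_le_exp.2
    linarith
  have hlow : (X : ℝ) ^ (1 / 5 : ℝ) ≤ (N : ℝ) ^ k := by
    rw [hexp, Real.rpow_def_of_pos hX0, ← hLd]
    apply Real.exp_le_exp.2
    linarith
  refine ⟨k, hk1, hk100, ?_, ?_, ?_⟩
  · push_cast
    refine hlow.trans ?_
    apply pow_le_pow_left₀ hN0.le
    linarith
  · have h4 : ((2 * N : ℝ)) ^ k ≤ X := by
      calc ((2 * N : ℝ)) ^ k = 2 ^ k * (N : ℝ) ^ k := mul_pow _ _ _
        _ ≤ 2 ^ 100 * (X : ℝ) ^ (11 / 24 : ℝ) :=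
            mul_le_mul (pow_le_pow_right₀ (by norm_num) hk100) hup (by positivity) (by positivity)
        _ ≤ (X : ℝ) ^ (13 / 24 : ℝ) * (X : ℝ) ^ (11 / 24 : ℝ) :=
            mul_le_mul_of_nonneg_right h3 (by positivity)
        _ = X := by
            rw [← Real.rpow_add hX0]
            norm_num
    exact_mod_cast h4
  · rw [← hLd, ← hld, ← mul_div_assoc, div_le_div_iff₀ hL (by positivity)]
    nlinarith

private theorem Tp_sum {X r : ℕ} {N : Fin r → ℕ} (hr : r ≤ 6) (hL : 420 ≤ Real.log X)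
    (hP : X ≤ 2 ^ r * ∏ i, N i) (h1 : ∀ i, 1 ≤ N i) (I : Finset (Fin r))
    (hI : ∀ i, i ∉ I → (N i : ℝ) ≤ (X : ℝ) ^ (1 / 200 : ℝ)) :
    24 / 25 * Real.log X ≤ ∑ i ∈ I, Real.log (N i) := by
  have hX0 : (0 : ℝ) < X := by
    rcases Nat.eq_zero_or_pos X with h | h
    · rw [h, Nat.cast_zero, Real.log_zero] at hL
      linarith
    · exact_mod_cast h
  have hN0 : ∀ i, (0 : ℝ) < N i := fun i => by exact_mod_cast h1 i
  have h2 : (X : ℝ) ≤ 2 ^ r * ∏ i, (N i : ℝ) := by exact_mod_cast hP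
  have h3 := Real.log_le_log hX0 h2
  rw [Real.log_mul (by positivity) (Finset.prod_ne_zero_iff.2 fun i _ => (hN0 i).ne'),
    Real.log_prod (fun i _ => (hN0 i).ne'), Real.log_pow] at h3
  have h4 : ∑ i, Real.log (N i) = ∑ i ∈ I, Real.log (N i) + ∑ i ∈ Iᶜ, Real.log (N i) :=
    (sum_add_sum_compl I _).symm
  have h5 : ∑ i ∈ Iᶜ, Real.log (N i) ≤ ∑ _i ∈ Iᶜ, 1 / 200 * Real.log X := by
    refine sum_le_sum fun i hi => ?_
    rw [mem_compl] at hi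
    have h6 := Real.log_le_log (hN0 i) (hI i hi)
    rwa [Real.log_rpow hX0] at h6
  have h6 : (Iᶜ.card : ℝ) ≤ 6 := by
    have h7 : Iᶜ.card ≤ 6 := by
      refine (card_le_univ _).trans ?_
      rwa [Fintype.card_fin]
    exact_mod_cast h7
  rw [sum_const, nsmul_eq_mul] at h5
  have h7 : (Iᶜ.card : ℝ) * (1 / 200 * Real.log X) ≤ 6 * (1 / 200 * Real.log X) :=
    mul_le_mul_of_nonneg_right h6 (by positivity)
  have h8 : (r : ℝ) * Real.log 2 ≤ 6 * 0.7 := by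
    have h9 : (r : ℝ) ≤ 6 := by exact_mod_cast hr
    have h10 := Real.log_two_lt_d9
    have h11 : 0 ≤ Real.log 2 := Real.log_nonneg (by norm_num)
    nlinarith
  linarith

theorem tp58 : ∃ η : ℝ, 0 < η ∧ ∀ A : ℕ, ∃ K X0 : ℕ, ∀ X : ℕ, X0 ≤ X →
    ∀ (r : ℕ) (N : Fin r → ℕ) (g : Fin r → ArithmeticFunction ℂ) (B : Set ℝ),
    Box X N g → X ≤ 2 ^ r * ∏ i, N i → MeasurableSet B →
    B ⊆ Set.Icc (-(X : ℝ)) X → volume.real B ≤ (X : ℝ) ^ η →
    (∀ i, (X : ℝ) ^ (1 / 7 : ℝ) ≤ N i → ∀ t ∈ B, ‖DP (g i) (2 * N i) t‖ ≤ N i / Real.log X ^ K) →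
    ∫ t in B, FF N g t ≤ X / Real.log X ^ A := by
  classical
  obtain ⟨η, hη0, hη1, x0, hhm⟩ := Pool.Agent.H80.LV.hm (1 / 5) (by norm_num)
  refine ⟨η, hη0, fun A => ?_⟩
  obtain ⟨EE, hEE⟩ : ∃ EE : ℕ, EE = 402 + 2 ^ 200 := ⟨_, rfl⟩
  obtain ⟨x1, hx1⟩ := Pool.Agent.H80.LV.log_ge 420
  obtain ⟨x2, hx2⟩ := Pool.Agent.H80.LV.pow_ge (1 / 6 - 1 / 7) 2 (by norm_num)
  obtain ⟨x3, hx3⟩ := Pool.Agent.H80.LV.pow_ge (13 / 24) (2 ^ 100) (by norm_num)
  refine ⟨24 * (A + 2 * EE + 7), max 2 (max x0 (max x1 (max x2 x3))), fun X hX => ?_⟩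
  have hXa : 2 ≤ X := (le_max_left _ _).trans hX
  have hX' := (le_max_right _ _).trans hX
  have hX0 : x0 ≤ X := (le_max_left _ _).trans hX'
  have hX'' := (le_max_right _ _).trans hX'
  have hL420 := hx1 X ((le_max_left _ _).trans hX'')
  have hX3 := (le_max_right _ _).trans hX''
  have hp2 := hx2 X ((le_max_left _ _).trans hX3)
  have hp3 := hx3 X ((le_max_right _ _).trans hX3)
  clear hX hX' hX'' hX3
  intro r N g B hBox hP hBm hBsub hBvol hp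
  obtain ⟨K1, hK1⟩ : ∃ K1, K1 = A + 2 * EE + 7 := ⟨_, rfl⟩
  rw [← hK1] at hp
  have hXr : (0 : ℝ) < X := by exact_mod_cast (show 0 < X by omega)
  have hXr1 : (1 : ℝ) ≤ X := by exact_mod_cast (show 1 ≤ X by omega)
  obtain ⟨i0, hi0⟩ := BoxL_long hBox.hr hXa hP hBox.one
  have hN0 : ∀ i, (0 : ℝ) < N i := fun i => by exact_mod_cast hBox.one i
  have hi7 : (X : ℝ) ^ (1 / 7 : ℝ) ≤ N i0 := by
    have h1 : (X : ℝ) ^ (1 / 6 : ℝ) = (X : ℝ) ^ (1 / 7 : ℝ) * (X : ℝ) ^ (1 / 6 - 1 / 7 : ℝ) := by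
      rw [← Real.rpow_add hXr]
      norm_num
    rw [h1] at hi0
    have h2 : (X : ℝ) ^ (1 / 7 : ℝ) * 2 ≤ (X : ℝ) ^ (1 / 7 : ℝ) * (X : ℝ) ^ (1 / 6 - 1 / 7 : ℝ) :=
      mul_le_mul_of_nonneg_left hp2 (by positivity)
    linarith
  obtain ⟨I, hI⟩ : ∃ I : Finset (Fin r), I = univ.filter (fun i => (X : ℝ) ^ (1 / 200 : ℝ) ≤ N i) :=
    ⟨_, rfl⟩
  have hmemI : ∀ i, i ∈ I ↔ (X : ℝ) ^ (1 / 200 : ℝ) ≤ N i := fun i => by
    rw [hI, mem_filter]
    simp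
  have hi0I : i0 ∈ I := by
    rw [hmemI]
    exact (Real.rpow_le_rpow_of_exponent_le hXr1 (by norm_num)).trans hi7
  obtain ⟨L, hLd⟩ : ∃ L, L = Real.log X := ⟨_, rfl⟩
  have hL420' : 420 ≤ L := by rw [hLd]; exact hL420
  have hL0 : 0 < L := by linarith
  have hL1 : 1 ≤ L := by linarith
  have hk : ∀ i : Fin r, ∃ k : ℕ, i ∈ I → (1 ≤ k ∧ k ≤ 100 ∧
      (X : ℝ) ^ (1 / 5 : ℝ) ≤ (((2 * N i) ^ k : ℕ) : ℝ) ∧ (2 * N i) ^ k ≤ X ∧
      12 / 11 * (Real.log (N i) / Real.log X) ≤ 1 / (2 * (k : ℝ))) := by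
    intro i
    by_cases h : i ∈ I
    · obtain ⟨k, hk⟩ := Tp_k (X := X) (N := N i) (by linarith) ((hmemI i).1 h) (hBox.top i) hp3
      exact ⟨k, fun _ => hk⟩
    · exact ⟨0, fun h' => absurd h' h⟩
  choose k hk using hk
  obtain ⟨Sg, hSg⟩ : ∃ Sg, Sg = ∑ i ∈ I, 1 / (2 * (k i : ℝ)) := ⟨_, rfl⟩
  have hSg1 : 24 / 23 ≤ Sg := by
    have h1 := Tp_sum hBox.hr hL420 hP hBox.one I (fun i hi => by
      rw [hmemI] at hi
      exact (not_le.1 hi).le)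
    have h2 : ∑ i ∈ I, 12 / 11 * (Real.log (N i) / Real.log X) ≤ Sg := by
      rw [hSg]
      exact sum_le_sum fun i hi => (hk i hi).2.2.2.2
    rw [← mul_sum, ← sum_div, ← hLd] at h2
    have h3 : 24 / 25 ≤ (∑ i ∈ I, Real.log (N i)) / L := by
      rw [le_div_iff₀ hL0, hLd]
      exact h1
    linarith
  obtain ⟨θ, hθ⟩ : ∃ θ, θ = 1 / Sg := ⟨_, rfl⟩
  have hSg0 : 0 < Sg := by linarith
  have hθ0 : 0 < θ := by rw [hθ]; positivity
  have hθS : θ * Sg = 1 := by rw [hθ]; field_simp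
  have hθ1 : θ ≤ 23 / 24 := by
    rw [hθ, div_le_div_iff₀ hSg0 (by norm_num)]
    linarith
  have h1θ : 0 < 1 - θ := by linarith
  have hpsum : ∑ i ∈ I, θ / (2 * (k i : ℝ)) = 1 := by
    rw [← hθS, hSg, mul_sum]
    refine sum_congr rfl fun i _ => ?_
    ring
  have hppos : ∀ i ∈ I, 0 ≤ θ / (2 * (k i : ℝ)) := fun i _ => by positivity
  -- the pointwise bound
  obtain ⟨d, hd⟩ : ∃ d : Fin r → ℝ, d = fun i =>
      if i = i0 then (1 / L ^ (24 * K1)) ^ (1 - θ) else 2 * L := ⟨_, rfl⟩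
  have hd0 : ∀ i, 0 ≤ d i := fun i => by
    rw [hd]
    dsimp only
    split_ifs
    · positivity
    · positivity
  have hsplit : ∀ y : ℝ, 0 ≤ y → y = y ^ (1 - θ) * y ^ θ := by
    intro y hy
    rw [← Real.rpow_add_of_nonneg hy h1θ.le hθ0.le]
    rw [sub_add_cancel, Real.rpow_one]
  have hF1 : ∀ t ∈ B, ∀ i ∈ I, ‖DP (g i) (2 * N i) t‖ ≤
      d i * (N i : ℝ) ^ (1 - θ) * ‖DP (g i) (2 * N i) t‖ ^ θ := by
    intro t ht i hi
    have hy := norm_nonneg (DP (g i) (2 * N i) t)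
    have e1 := hsplit _ hy
    have e2 : ‖DP (g i) (2 * N i) t‖ ^ (1 - θ) ≤ d i * (N i : ℝ) ^ (1 - θ) := by
      rw [hd]
      dsimp only
      split_ifs with hii
      · subst hii
        rw [← Real.mul_rpow (by positivity) (hN0 i).le]
        apply Real.rpow_le_rpow hy _ h1θ.le
        have e3 := hp i hi7 t ht
        rw [← hLd] at e3
        rw [one_div_mul_eq_div]
        exact e3
      · have e3 := box_tr hBox i t
        rw [← hLd] at e3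
        have e4 := Real.rpow_le_rpow hy e3 h1θ.le
        rw [Real.mul_rpow (by positivity) (hN0 i).le] at e4
        refine e4.trans ?_
        apply mul_le_mul_of_nonneg_right _ (by positivity)
        calc (2 * L) ^ (1 - θ) ≤ (2 * L) ^ (1 : ℝ) :=
              Real.rpow_le_rpow_of_exponent_le (by linarith) (by linarith)
          _ = 2 * L := Real.rpow_one _
    calc ‖DP (g i) (2 * N i) t‖ = ‖DP (g i) (2 * N i) t‖ ^ (1 - θ) *
          ‖DP (g i) (2 * N i) t‖ ^ θ := e1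
      _ ≤ _ := mul_le_mul_of_nonneg_right e2 (Real.rpow_nonneg hy _)
  have hF2 : ∀ t, ∀ i ∈ Iᶜ, ‖DP (g i) (2 * N i) t‖ ≤ d i * N i := by
    intro t i hi
    rw [mem_compl] at hi
    have hii : i ≠ i0 := by
      rintro rfl
      exact hi hi0I
    rw [hd]
    dsimp only
    rw [if_neg hii, hLd]
    exact box_tr hBox i t
  obtain ⟨Cst, hCst⟩ : ∃ Cst : ℝ, Cst = (∏ i, d i) *
      ((∏ i ∈ I, (N i : ℝ) ^ (1 - θ)) * ∏ i ∈ Iᶜ, (N i : ℝ)) := ⟨_, rfl⟩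
  have hCst0 : 0 ≤ Cst := by
    rw [hCst]
    refine mul_nonneg (prod_nonneg fun i _ => hd0 i) (mul_nonneg (prod_nonneg fun i _ => ?_)
      (prod_nonneg fun i _ => (hN0 i).le))
    exact Real.rpow_nonneg (hN0 i).le _
  have hpt : ∀ t ∈ B, FF N g t ≤ Cst * ∏ i ∈ I, ‖DP (g i) (2 * N i) t‖ ^ θ := by
    intro t ht
    unfold FF
    rw [← prod_mul_prod_compl I (fun i => ‖DP (g i) (2 * N i) t‖)]
    have e1 : ∏ i ∈ I, ‖DP (g i) (2 * N i) t‖ ≤
        ∏ i ∈ I, (d i * (N i : ℝ) ^ (1 - θ) * ‖DP (g i) (2 * N i) t‖ ^ θ) :=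
      prod_le_prod (fun i _ => norm_nonneg _) (hF1 t ht)
    have e2 : ∏ i ∈ Iᶜ, ‖DP (g i) (2 * N i) t‖ ≤ ∏ i ∈ Iᶜ, (d i * N i) :=
      prod_le_prod (fun i _ => norm_nonneg _) (hF2 t)
    refine (mul_le_mul e1 e2 (prod_nonneg fun i _ => norm_nonneg _)
      ((prod_nonneg fun i _ => norm_nonneg _).trans e1)).trans (le_of_eq ?_)
    rw [hCst, prod_mul_distrib, prod_mul_distrib, prod_mul_distrib, ← prod_mul_prod_compl I d]
    ring
  -- integration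
  have hcontF : ∀ i, Continuous (fun t => ‖DP (g i) (2 * N i) t‖) := fun i => (dp_cont _ _).norm
  have hintFF : IntegrableOn (fun t => FF N g t) B :=
    ((ff_cont N g).continuousOn.integrableOn_compact isCompact_Icc).mono_set hBsub
  have hcontP : Continuous (fun t => ∏ i ∈ I, ‖DP (g i) (2 * N i) t‖ ^ θ) :=
    continuous_finsetProd I fun i _ => (hcontF i).rpow_const (fun t => Or.inr hθ0.le)
  have hintP : IntegrableOn (fun t => ∏ i ∈ I, ‖DP (g i) (2 * N i) t‖ ^ θ) B :=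
    (hcontP.continuousOn.integrableOn_compact isCompact_Icc).mono_set hBsub
  have hstep1 : ∫ t in B, FF N g t ≤ Cst * ∫ t in B, ∏ i ∈ I, ‖DP (g i) (2 * N i) t‖ ^ θ := by
    rw [← integral_const_mul]
    exact setIntegral_mono_on hintFF (hintP.const_mul _) hBm hpt
  have hstep2 : ∫ t in B, ∏ i ∈ I, ‖DP (g i) (2 * N i) t‖ ^ θ ≤
      ∏ i ∈ I, (∫ t in B, ‖DP (g i) (2 * N i) t‖ ^ (2 * k i)) ^ (θ / (2 * (k i : ℝ))) := by
    have h1 := Tp_holder I hBm hBsub (fun i t => ‖DP (g i) (2 * N i) t‖ ^ (2 * k i))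
      (fun i _ => (hcontF i).pow _) (fun i _ t => by positivity)
      (fun i => θ / (2 * (k i : ℝ))) hpsum hppos
    refine le_trans (le_of_eq ?_) h1
    congr 1
    ext t
    refine prod_congr rfl fun i hi => ?_
    have hki : (1 : ℝ) ≤ k i := by exact_mod_cast (hk i hi).1
    rw [← Real.rpow_natCast, ← Real.rpow_mul (norm_nonneg _)]
    congr 1
    push_cast
    field_simp
  have hstep3 : ∏ i ∈ I, (∫ t in B, ‖DP (g i) (2 * N i) t‖ ^ (2 * k i)) ^ (θ / (2 * (k i : ℝ))) ≤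
      ∏ i ∈ I, ((N i : ℝ) ^ θ * L ^ ((2 * EE : ℕ) * (θ / (2 * (k i : ℝ))))) := by
    refine prod_le_prod (fun i _ => Real.rpow_nonneg
      (setIntegral_nonneg hBm fun t _ => by positivity) _) fun i hi => ?_
    obtain ⟨k1, k2, k3, k4, k5⟩ := hk i hi
    have hki : (1 : ℝ) ≤ k i := by exact_mod_cast k1
    have hBsub' : B ⊆ Set.Icc (-((X : ℝ) ^ (2 : ℕ))) ((X : ℝ) ^ (2 : ℕ)) := by
      intro t ht
      have h1 := hBsub ht
      have h2 : (X : ℝ) ≤ (X : ℝ) ^ (2 : ℕ) := by nlinarith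
      exact ⟨by linarith [h1.1], by linarith [h1.2]⟩
    have hHM := hhm X hX0 ((2 * N i) ^ k i) (⇑(g i ^ k i)) B k3 k4 hBm hBsub' hBvol
    have hM := Tp_mom k2 hEE (hBox.bd i) (by linarith) (fun n hn => (hBox.supp i n hn).2.le) k4 hHM
    rw [← hLd] at hM
    have h1 := Real.rpow_le_rpow (setIntegral_nonneg hBm fun t _ => by positivity) hM
      (hppos i hi)
    refine h1.trans (le_of_eq ?_)
    rw [Real.mul_rpow (by positivity) (by positivity), ← Real.rpow_natCast (N i : ℝ),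
      ← Real.rpow_mul (hN0 i).le, ← Real.rpow_natCast L, ← Real.rpow_mul hL0.le]
    congr 2
    push_cast
    field_simp
  have hprodL : ∏ i ∈ I, L ^ (((2 * EE : ℕ) : ℝ) * (θ / (2 * (k i : ℝ)))) = L ^ (2 * EE) := by
    rw [← Real.rpow_sum_of_pos hL0, ← mul_sum, hpsum, mul_one, Real.rpow_natCast]
  have hprodN : (∏ i ∈ I, (N i : ℝ) ^ (1 - θ)) * (∏ i ∈ I, (N i : ℝ) ^ θ) = ∏ i ∈ I, (N i : ℝ) := by
    rw [← prod_mul_distrib]
    exact prod_congr rfl fun i _ => (hsplit _ (hN0 i).le).symm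
  have htotal : ∫ t in B, FF N g t ≤ (∏ i, d i) * ((∏ i, (N i : ℝ)) * L ^ (2 * EE)) := by
    refine hstep1.trans ((mul_le_mul_of_nonneg_left (hstep2.trans hstep3) hCst0).trans
      (le_of_eq ?_))
    rw [prod_mul_distrib, hprodL, hCst, ← prod_mul_prod_compl I (fun i => (N i : ℝ)), ← hprodN]
    ring
  refine htotal.trans ?_
  -- the product of the `d i`
  have hdi0 : d i0 ≤ 1 / L ^ K1 := by
    rw [hd]
    dsimp only
    rw [if_pos rfl]
    have e1 : (1 : ℝ) / L ^ (24 * K1) = (1 / L ^ K1) ^ 24 := by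
      rw [one_div_pow, ← pow_mul, mul_comm 24 K1]
    have e2 : (0 : ℝ) < 1 / L ^ K1 := by positivity
    have e3 : (1 : ℝ) / L ^ K1 ≤ 1 := by
      rw [div_le_one (by positivity)]
      exact one_le_pow₀ hL1
    have e4 : ((1 : ℝ) / L ^ K1) ^ 24 ≤ 1 := pow_le_one₀ e2.le e3
    rw [e1]
    calc (((1 : ℝ) / L ^ K1) ^ 24) ^ (1 - θ) ≤ (((1 : ℝ) / L ^ K1) ^ 24) ^ (((24 : ℕ) : ℝ)⁻¹) := by
          apply Real.rpow_le_rpow_of_exponent_ge (by positivity) e4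
          push_cast
          linarith
      _ = 1 / L ^ K1 := Real.pow_rpow_inv_natCast e2.le (by norm_num)
  have hdprod : ∏ i, d i ≤ 1 / L ^ K1 * (2 * L) ^ 6 := by
    rw [← mul_prod_erase univ d (mem_univ i0)]
    refine mul_le_mul hdi0 ?_ (prod_nonneg fun i _ => hd0 i) (by positivity)
    have e1 : ∏ i ∈ univ.erase i0, d i = ∏ _i ∈ univ.erase i0, (2 * L) := by
      refine prod_congr rfl fun i hi => ?_
      rw [hd]
      dsimp only
      rw [if_neg (mem_erase.1 hi).1]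
    rw [e1, prod_const]
    apply pow_le_pow_right₀ (by linarith)
    refine (card_le_univ _).trans ?_
    rw [Fintype.card_fin]
    exact hBox.hr
  have hNprod : ∏ i, (N i : ℝ) ≤ 3 * X := by exact_mod_cast hBox.prod
  have hNprod0 : 0 ≤ ∏ i, (N i : ℝ) := prod_nonneg fun i _ => (hN0 i).le
  calc (∏ i, d i) * ((∏ i, (N i : ℝ)) * L ^ (2 * EE))
      ≤ (1 / L ^ K1 * (2 * L) ^ 6) * ((3 * X) * L ^ (2 * EE)) := by
        refine mul_le_mul hdprod ?_ (by positivity) (by positivity)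
        exact mul_le_mul_of_nonneg_right hNprod (by positivity)
    _ = X * (192 * L ^ (6 + 2 * EE)) / L ^ K1 := by
        rw [pow_add]
        ring
    _ ≤ X * (L * L ^ (6 + 2 * EE)) / L ^ K1 := by
        apply div_le_div_of_nonneg_right _ (by positivity)
        apply mul_le_mul_of_nonneg_left _ hXr.le
        apply mul_le_mul_of_nonneg_right _ (by positivity)
        linarith
    _ = X / L ^ A := by
        have e1 : L ^ K1 = L ^ A * (L * L ^ (6 + 2 * EE)) := by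
          rw [← pow_succ', ← pow_add, hK1]
          congr 1
          ring
        rw [e1]
        field_simp
    _ = X / Real.log X ^ A := by rw [hLd]

end Pool.Agent.H88.E58

end
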