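import Pool.Agent.H15.TB1.M59
import Pool.Agent.H15.TB1.M60
import Pool.Agent.H15.TB1.M61

/-! The parts of this file: H88.PSI.Lvs, H88.PSI.BoxM, H76.VKT.PSum. -/

section

/-!
# PSI Lvs: large values of one factor, exponents

Choose `k` with `N^k ∈ [X^(2/3-e), X^(1-e)]`: `k = 2` if `N > X^(1/3)` (then `X^(2/3) < N^2 ≤ X^(11/12) ≤ X^(1-e)`), otherwise the least `k`
with `N^k ≥ X^(2/3-e)` (then `N^k < X^(2/3-e) N ≤ X^(1-e)`); `k ≤ 1/κ + 1`, so `X0` = the maximum of the `X0` of `lvk k (e δ/8)` (`lvk k (δ/2)`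
for `lvl`) over these `k`, and `2^k X^(1-e) ≤ X`.  Write `N^k = X^u`, `u ∈ [2/3-e, 1-e]`, `V = N^σ`.  Exponents in `lvk`:
* first term: `2u(1-σ)`;
* second: `5/6 - e + u(1-2σ)`, `5/6 - e + u(4-6σ)`.

`lvs`: `σ = s - eδ/4`.  First: `2u(1-σ) ≤ 2(1-e)(1-s+eδ/4) ≤ 2-2s - (3/2) e δ`.  Second: the smaller one is `≤ 2-2σ-e/2`:
for `σ ≤ 1/2`: `5/6-e+(1-2σ)`; for `1/2 ≤ σ ≤ 3/4`: `2-2σ-(5/6-e)-u(1-2σ) ≥ 1/2+2e-σ(2/3+2e) ≥ e/2`; for `3/4 ≤ σ ≤ 1`:
`2-2σ-(5/6-e)-u(4-6σ) ≥ -3/2+5e+σ(2-6e) ≥ e/2`.  And `2-2σ-e/2 = 2-2s+eδ/2-e/2 ≤ 2-2s-(9/8)eδ - e/16`-ish (`δ ≤ 1/4`).  Total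
`X^(eδ/8) (X^(2-2s-3eδ/2) + X^(2-2s-9eδ/8-..)) ≤ X^(2-2s-eδ)`.

`lvl`: `σ = 1-δ`: first `≤ 2δ`; second (Huxley) `5/6-e-2u+6uδ ≤ 5/6-4/3+2e+6δ < 0`.  Total `≤ X^(3δ)`.
-/

set_option autoImplicit false

namespace Pool.Agent.H88.PSI

open Finset MeasureTheory

private theorem lvs_k {x n e κ : ℝ} {K : ℕ} (hx : 3 ≤ x) (hn : 1 ≤ n) (he : 0 < e)
    (he' : e ≤ 1 / 100) (hK : 1 ≤ κ * K) (h1 : x ^ κ ≤ n)
    (h2 : n ≤ x ^ (11 / 24 : ℝ)) : ∃ j : ℕ, j < K + 2 ∧ x ^ (2 / 3 - e) ≤ n ^ (j + 1) ∧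
      n ^ (j + 1) ≤ x ^ (1 - e) := by
  have hx0 : 0 < x := by linarith
  have hx1 : 1 < x := by linarith
  have hn0 : 0 < n := by linarith
  by_cases h3 : x ^ (1 / 3 : ℝ) < n
  · refine ⟨1, by omega, ?_, ?_⟩
    · calc x ^ (2 / 3 - e) ≤ x ^ (1 / 3 + 1 / 3 : ℝ) :=
            Real.rpow_le_rpow_of_exponent_le hx1.le (by linarith)
        _ = x ^ (1 / 3 : ℝ) * x ^ (1 / 3 : ℝ) := Real.rpow_add hx0 _ _
        _ ≤ n * n := mul_le_mul h3.le h3.le (Real.rpow_nonneg hx0.le _) hn0.le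
        _ = n ^ (1 + 1) := by ring
    · calc n ^ (1 + 1) = n * n := by ring
        _ ≤ x ^ (11 / 24 : ℝ) * x ^ (11 / 24 : ℝ) :=
            mul_le_mul h2 h2 hn0.le (Real.rpow_nonneg hx0.le _)
        _ = x ^ (11 / 24 + 11 / 24 : ℝ) := (Real.rpow_add hx0 _ _).symm
        _ ≤ x ^ (1 - e) := Real.rpow_le_rpow_of_exponent_le hx1.le (by linarith)
  · push Not at h3
    have hex : ∃ k : ℕ, x ^ (2 / 3 - e) ≤ n ^ k := by
      refine ⟨K, ?_⟩
      calc x ^ (2 / 3 - e) ≤ x ^ (κ * K) :=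
            Real.rpow_le_rpow_of_exponent_le hx1.le (by linarith)
        _ = (x ^ κ) ^ K := by rw [Real.rpow_mul hx0.le, Real.rpow_natCast]
        _ ≤ n ^ K := pow_le_pow_left₀ (Real.rpow_nonneg hx0.le _) h1 K
    classical
    have hle : Nat.find hex ≤ K := by
      refine Nat.find_min' hex ?_
      calc x ^ (2 / 3 - e) ≤ x ^ (κ * K) :=
            Real.rpow_le_rpow_of_exponent_le hx1.le (by linarith)
        _ = (x ^ κ) ^ K := by rw [Real.rpow_mul hx0.le, Real.rpow_natCast]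
        _ ≤ n ^ K := pow_le_pow_left₀ (Real.rpow_nonneg hx0.le _) h1 K
    have hne : Nat.find hex ≠ 0 := by
      intro h0
      have h4 := Nat.find_spec hex
      rw [h0, pow_zero] at h4
      have h5 : 1 < x ^ (2 / 3 - e) := Real.one_lt_rpow hx1 (by linarith)
      linarith
    obtain ⟨j, hj⟩ := Nat.exists_eq_succ_of_ne_zero hne
    refine ⟨j, by omega, ?_, ?_⟩
    · have h4 := Nat.find_spec hex
      rw [hj] at h4
      exact h4
    · have h5 : ¬ x ^ (2 / 3 - e) ≤ n ^ j := Nat.find_min hex (by omega)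
      push Not at h5
      calc n ^ (j + 1) = n ^ j * n := pow_succ _ _
        _ ≤ x ^ (2 / 3 - e) * x ^ (1 / 3 : ℝ) :=
            mul_le_mul h5.le h3 hn0.le (Real.rpow_nonneg hx0.le _)
        _ = x ^ (2 / 3 - e + 1 / 3) := (Real.rpow_add hx0 _ _).symm
        _ = x ^ (1 - e) := by congr 1; ring

private theorem lvs_core (e e1 κ : ℝ) (he : 0 < e) (he' : e ≤ 1 / 100) (he1 : 0 < e1)
    (hκ : 0 < κ) : ∃ X0 : ℕ, ∀ X : ℕ, X0 ≤ X → 3 ≤ X ∧
    ∀ (N : ℕ) (g : ArithmeticFunction ℂ) (σ T : ℝ) (B : Set ℝ),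
    (X : ℝ) ^ κ ≤ N → (N : ℝ) ≤ (X : ℝ) ^ (11 / 24 : ℝ) →
    (∀ n, g n ≠ 0 → n ≤ 2 * N) → (∀ n, ‖g n‖ ≤ 2 * Real.log X) →
    1 ≤ T → T ≤ (X : ℝ) ^ (5 / 6 - e) → MeasurableSet B → B ⊆ Set.Icc (-T) T →
    (∀ t ∈ B, (N : ℝ) ^ σ ≤ ‖DP g (2 * N) t‖) →
    ∃ u : ℝ, 2 / 3 - e ≤ u ∧ u ≤ 1 - e ∧ volume.real B ≤ (X : ℝ) ^ e1 *
      ((X : ℝ) ^ (2 * u * (1 - σ)) + min ((X : ℝ) ^ (5 / 6 - e + u * (1 - 2 * σ)))
        ((X : ℝ) ^ (5 / 6 - e + u * (4 - 6 * σ)))) := by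
  choose f hf using fun j : ℕ => lvk (j + 1) e1 (by omega) he1
  set K : ℕ := ⌈1 / κ⌉₊ with hK
  have hK1 : 1 ≤ κ * K := by
    have h1 : 1 / κ ≤ K := Nat.le_ceil _
    rw [div_le_iff₀ hκ] at h1
    linarith
  refine ⟨max (∑ j ∈ range (K + 2), f j) (max 3 ⌈((2 : ℝ) ^ (K + 2)) ^ (1 / e)⌉₊),
    fun X hX => ?_⟩
  have hX1 : ∑ j ∈ range (K + 2), f j ≤ X := (le_max_left _ _).trans hX
  have hX3 : 3 ≤ X := (le_max_left _ _).trans ((le_max_right _ _).trans hX)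
  have hX2 : ⌈((2 : ℝ) ^ (K + 2)) ^ (1 / e)⌉₊ ≤ X :=
    (le_max_right _ _).trans ((le_max_right _ _).trans hX)
  refine ⟨hX3, fun N g σ T B h1 h2 hg hg' hT hT' hB hBT hV => ?_⟩
  set x : ℝ := (X : ℝ) with hx
  have hx3 : 3 ≤ x := by
    rw [hx]
    exact_mod_cast hX3
  have hx0 : 0 < x := by linarith
  have hx1 : 1 < x := by linarith
  have hN1 : (1 : ℝ) ≤ N := (Real.one_le_rpow hx1.le hκ.le).trans h1
  have hN0 : (0 : ℝ) < N := by linarith
  have hN : 1 ≤ N := by exact_mod_cast hN1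
  obtain ⟨j, hj, k1, k2⟩ := lvs_k hx3 hN1 he he' hK1 h1 h2
  have hfX : f j ≤ X := (single_le_sum (fun i _ => Nat.zero_le (f i)) (mem_range.2 hj)).trans hX1
  have h2e : (2 : ℝ) ^ (K + 2) ≤ x ^ e := by
    have h3 : ((2 : ℝ) ^ (K + 2)) ^ (1 / e) ≤ x := (Nat.le_ceil _).trans (by rw [hx]; exact_mod_cast hX2)
    have h4 : (((2 : ℝ) ^ (K + 2)) ^ (1 / e)) ^ e ≤ x ^ e :=
      Real.rpow_le_rpow (by positivity) h3 he.le
    rwa [← Real.rpow_mul (by positivity), one_div_mul_cancel he.ne', Real.rpow_one] at h4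
  have hpow : (2 * N) ^ (j + 1) ≤ X := by
    have h3 : ((2 * N : ℕ) : ℝ) ^ (j + 1) ≤ x := by
      push_cast
      rw [mul_pow]
      calc (2 : ℝ) ^ (j + 1) * (N : ℝ) ^ (j + 1) ≤ 2 ^ (K + 2) * x ^ (1 - e) :=
            mul_le_mul (pow_le_pow_right₀ (by norm_num) (by omega)) k2 (by positivity)
              (by positivity)
        _ ≤ x ^ e * x ^ (1 - e) := mul_le_mul_of_nonneg_right h2e (Real.rpow_nonneg hx0.le _)
        _ = x := by rw [← Real.rpow_add hx0]; simp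
    rw [hx] at h3
    exact_mod_cast h3
  have hTX : T ≤ x := by
    refine hT'.trans ?_
    calc x ^ (5 / 6 - e) ≤ x ^ (1 : ℝ) := Real.rpow_le_rpow_of_exponent_le hx1.le (by linarith)
      _ = x := Real.rpow_one x
  have hV0 : 0 < (N : ℝ) ^ σ := Real.rpow_pos_of_pos hN0 _
  have main := hf j X hfX N g ((N : ℝ) ^ σ) T B hN hpow hg hg' hV0 hT hTX hB hBT hV
  obtain ⟨u, hu⟩ : ∃ u : ℝ, x ^ u = (N : ℝ) ^ (j + 1) :=
    ⟨Real.logb x ((N : ℝ) ^ (j + 1)), Real.rpow_logb hx0 hx1.ne' (by positivity)⟩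
  have u1 : 2 / 3 - e ≤ u := by
    rw [← hu] at k1
    exact (Real.rpow_le_rpow_left_iff hx1).1 k1
  have u2 : u ≤ 1 - e := by
    rw [← hu] at k2
    exact (Real.rpow_le_rpow_left_iff hx1).1 k2
  -- the powers of `N` and `V`
  have pN : ∀ m : ℕ, (N : ℝ) ^ (m * (j + 1)) = x ^ (m * u) := by
    intro m
    rw [mul_comm m, pow_mul, ← hu, ← Real.rpow_natCast, ← Real.rpow_mul hx0.le, mul_comm u]
  have pV : ∀ m : ℕ, ((N : ℝ) ^ σ) ^ (m * (j + 1)) = x ^ (m * u * σ) := by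
    intro m
    rw [← Real.rpow_natCast, ← Real.rpow_mul hN0.le, mul_comm σ, Real.rpow_mul hN0.le,
      Real.rpow_natCast, pN, ← Real.rpow_mul hx0.le]
  have p1 : (N : ℝ) ^ (j + 1) = x ^ (1 * u) := by rw [one_mul, hu]
  refine ⟨u, u1, u2, main.trans ?_⟩
  refine mul_le_mul_of_nonneg_left (add_le_add ?_ (min_le_min ?_ ?_)) (Real.rpow_nonneg hx0.le _)
  · rw [pN, pV, ← Real.rpow_sub hx0]
    refine le_of_eq ?_
    congr 1
    push_cast
    ring
  · rw [p1, pV]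
    calc T * x ^ (1 * u) / x ^ (((2 : ℕ) : ℝ) * u * σ)
        ≤ x ^ (5 / 6 - e) * x ^ (1 * u) / x ^ (((2 : ℕ) : ℝ) * u * σ) := by gcongr
      _ = x ^ (5 / 6 - e + u * (1 - 2 * σ)) := by
        rw [← Real.rpow_add hx0, ← Real.rpow_sub hx0]
        congr 1
        push_cast
        ring
  · rw [pN, pV]
    calc T * x ^ (((4 : ℕ) : ℝ) * u) / x ^ (((6 : ℕ) : ℝ) * u * σ)
        ≤ x ^ (5 / 6 - e) * x ^ (((4 : ℕ) : ℝ) * u) / x ^ (((6 : ℕ) : ℝ) * u * σ) := by gcongr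
      _ = x ^ (5 / 6 - e + u * (4 - 6 * σ)) := by
        rw [← Real.rpow_add hx0, ← Real.rpow_sub hx0]
        congr 1
        push_cast
        ring

private theorem lvs_two {c : ℝ} (hc : 0 < c) : ∃ X0 : ℕ, ∀ X : ℕ, X0 ≤ X → 2 ≤ (X : ℝ) ^ c := by
  refine ⟨⌈(2 : ℝ) ^ (1 / c)⌉₊, fun X hX => ?_⟩
  have h3 : (2 : ℝ) ^ (1 / c) ≤ X := (Nat.le_ceil _).trans (by exact_mod_cast hX)
  have h4 : ((2 : ℝ) ^ (1 / c)) ^ c ≤ (X : ℝ) ^ c := Real.rpow_le_rpow (by positivity) h3 hc.le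
  rwa [← Real.rpow_mul (by norm_num), one_div_mul_cancel hc.ne', Real.rpow_one] at h4

theorem lvl (e δ κ : ℝ) (he : 0 < e) (he' : e ≤ 1 / 100) (hδ : 0 < δ) (hδ' : δ ≤ 1 / 50) (hκ : 0 < κ) :
    ∃ X0 : ℕ, ∀ X : ℕ, X0 ≤ X → ∀ (N : ℕ) (g : ArithmeticFunction ℂ) (T : ℝ) (B : Set ℝ),
    (X : ℝ) ^ κ ≤ N → (N : ℝ) ≤ (X : ℝ) ^ (11 / 24 : ℝ) →
    (∀ n, g n ≠ 0 → n ≤ 2 * N) → (∀ n, ‖g n‖ ≤ 2 * Real.log X) →
    1 ≤ T → T ≤ (X : ℝ) ^ (5 / 6 - e) → MeasurableSet B → B ⊆ Set.Icc (-T) T →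
    (∀ t ∈ B, (N : ℝ) ^ (1 - δ) ≤ ‖DP g (2 * N) t‖) →
    volume.real B ≤ (X : ℝ) ^ (3 * δ) := by
  obtain ⟨X1, h1⟩ := lvs_core e (δ / 2) κ he he' (by positivity) hκ
  obtain ⟨X2, h2⟩ := lvs_two (c := δ / 2) (by positivity)
  refine ⟨max X1 X2, fun X hX N g T B hN hN' hg hg' hT hT' hB hBT hV => ?_⟩
  obtain ⟨hX3, h3⟩ := h1 X ((le_max_left _ _).trans hX)
  have h4 := h2 X ((le_max_right _ _).trans hX)
  obtain ⟨u, u1, u2, hb⟩ := h3 N g (1 - δ) T B hN hN' hg hg' hT hT' hB hBT hV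
  set x : ℝ := (X : ℝ) with hx
  have hx3 : 3 ≤ x := by
    rw [hx]
    exact_mod_cast hX3
  have hx0 : 0 < x := by linarith
  have hx1 : 1 ≤ x := by linarith
  have b1 : x ^ (2 * u * (1 - (1 - δ))) ≤ x ^ (2 * δ) := by
    refine Real.rpow_le_rpow_of_exponent_le hx1 ?_
    nlinarith
  have b2 : min (x ^ (5 / 6 - e + u * (1 - 2 * (1 - δ))))
      (x ^ (5 / 6 - e + u * (4 - 6 * (1 - δ)))) ≤ x ^ (2 * δ) := by
    refine (min_le_right _ _).trans (Real.rpow_le_rpow_of_exponent_le hx1 ?_)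
    nlinarith
  calc volume.real B ≤ x ^ (δ / 2) * (x ^ (2 * δ) + x ^ (2 * δ)) :=
        hb.trans (mul_le_mul_of_nonneg_left (add_le_add b1 b2) (Real.rpow_nonneg hx0.le _))
    _ = 2 * x ^ (δ / 2 + 2 * δ) := by
        rw [← two_mul, mul_left_comm, ← Real.rpow_add hx0]
    _ ≤ x ^ (δ / 2) * x ^ (δ / 2 + 2 * δ) :=
        mul_le_mul_of_nonneg_right h4 (Real.rpow_nonneg hx0.le _)
    _ = x ^ (3 * δ) := by
        rw [← Real.rpow_add hx0]
        congr 1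
        ring

end Pool.Agent.H88.PSI

end

section

/-!
# PSI BoxM: the measure of the set where the product is `> X^(1-δ)`

`cov` with `κ = 4δ`, `s = 1` (`X^(s-κ/4) = X^(1-δ)`), then `lvl` with `4δ ≤ 1/50` and `κ := δ/6`: `≤ 6 X^(12 δ) ≤ X^(13 δ)`.
-/

set_option autoImplicit false

namespace Pool.Agent.H88.PSI

open Finset MeasureTheory

theorem box_m (e δ : ℝ) (he : 0 < e) (he' : e ≤ 1 / 100) (hδ : 0 < δ) (hδ' : δ ≤ 1 / 200) :
    ∃ X0 : ℕ, ∀ X : ℕ, X0 ≤ X → ∀ (r : ℕ) (N : Fin r → ℕ) (g : Fin r → ArithmeticFunction ℂ) (T : ℝ),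
    Box X N g → 1 ≤ T → T ≤ (X : ℝ) ^ (5 / 6 - e) →
    volume.real {t : ℝ | |t| ≤ T ∧ (X : ℝ) ^ (1 - δ) < FF N g t} ≤ (X : ℝ) ^ (13 * δ) := by
  classical
  obtain ⟨X1, h1⟩ := cov (4 * δ) (by positivity) (by linarith)
  obtain ⟨X2, h2⟩ := lvl e (4 * δ) (δ / 6) he he' (by positivity) (by linarith) (by positivity)
  obtain ⟨X3, h3⟩ : ∃ X3 : ℕ, ∀ X : ℕ, X3 ≤ X → (6 : ℝ) ≤ (X : ℝ) ^ δ := by
    have h4 := (tendsto_rpow_atTop hδ).comp tendsto_natCast_atTop_atTop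
    exact Filter.eventually_atTop.1 (h4.eventually (Filter.eventually_ge_atTop 6))
  refine ⟨X1 + X2 + X3 + 1, fun X hX r N g T hB hT hT' => ?_⟩
  have hX0 : (0 : ℝ) < X := by
    have : 0 < X := by omega
    exact_mod_cast this
  set B : Fin r → Set ℝ := fun i => if (X : ℝ) ^ (δ / 6) ≤ N i then
    {t | t ∈ Set.Icc (-T) T ∧ (N i : ℝ) ^ (1 - 4 * δ) ≤ ‖DP (g i) (2 * N i) t‖} else ∅ with hBd
  have hsub : {t : ℝ | |t| ≤ T ∧ (X : ℝ) ^ (1 - δ) < FF N g t} ⊆ ⋃ i, B i := by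
    rintro t ⟨ht, hF⟩
    obtain ⟨i, hi1, hi2⟩ := h1 X (by omega) r N (fun i => ‖DP (g i) (2 * N i) t‖) 1 hB.hr hB.one
      hB.prod (fun i => norm_nonneg _) (fun i => box_tr hB i t) (by norm_num) (by linarith)
      (by
        have h5 : 1 - 4 * δ / 4 = 1 - δ := by ring
        rw [h5]
        exact hF)
    rw [Set.mem_iUnion]
    refine ⟨i, ?_⟩
    simp only [hBd]
    have h6 : 4 * δ / 24 = δ / 6 := by ring
    rw [h6] at hi1
    rw [if_pos hi1]
    exact ⟨abs_le.1 ht, hi2⟩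
  have hBi : ∀ i, volume.real (B i) ≤ (X : ℝ) ^ (12 * δ) := by
    intro i
    simp only [hBd]
    by_cases h5 : (X : ℝ) ^ (δ / 6) ≤ N i
    · rw [if_pos h5]
      have h6 : 3 * (4 * δ) = 12 * δ := by ring
      have h7 := h2 X (by omega) (N i) (g i) T
        {t | t ∈ Set.Icc (-T) T ∧ (N i : ℝ) ^ (1 - 4 * δ) ≤ ‖DP (g i) (2 * N i) t‖} h5 (hB.top i)
        (fun n hn => (hB.supp i n hn).2.le) (hB.bd i) hT hT'
        (measurableSet_Icc.inter (measurableSet_le measurable_const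
          (dp_cont _ _).norm.measurable)) (fun t ht => ht.1) (fun t ht => ht.2)
      rwa [h6] at h7
    · rw [if_neg h5, measureReal_empty]
      positivity
  have hBsub : ∀ i, B i ⊆ Set.Icc (-T) T := by
    intro i t ht
    simp only [hBd] at ht
    by_cases h5 : (X : ℝ) ^ (δ / 6) ≤ N i
    · rw [if_pos h5] at ht
      exact ht.1
    · rw [if_neg h5] at ht
      exact absurd ht (Set.notMem_empty _)
  have hfin : volume (⋃ i, B i) ≠ ⊤ := by
    refine ne_top_of_le_ne_top ?_ (measure_mono (Set.iUnion_subset hBsub))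
    rw [Real.volume_Icc]
    exact ENNReal.ofReal_ne_top
  calc volume.real {t : ℝ | |t| ≤ T ∧ (X : ℝ) ^ (1 - δ) < FF N g t}
      ≤ volume.real (⋃ i, B i) := measureReal_mono hsub hfin
    _ ≤ ∑ i, volume.real (B i) := measureReal_iUnion_fintype_le _
    _ ≤ ∑ _i : Fin r, (X : ℝ) ^ (12 * δ) := Finset.sum_le_sum fun i _ => hBi i
    _ = r * (X : ℝ) ^ (12 * δ) := by
      rw [Finset.sum_const, Finset.card_univ, Fintype.card_fin, nsmul_eq_mul]
    _ ≤ (X : ℝ) ^ δ * (X : ℝ) ^ (12 * δ) := by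
      refine mul_le_mul_of_nonneg_right ?_ (by positivity)
      have h5 : (r : ℝ) ≤ 6 := by exact_mod_cast hB.hr
      exact h5.trans (h3 X (by omega))
    _ = (X : ℝ) ^ (13 * δ) := by
      rw [← Real.rpow_add hX0]
      congr 1
      ring

end Pool.Agent.H88.PSI

end

section

/-!
# VKT (H97/VK of helper97 with the parameter `T0.t` in place of `9/10`, `t1` in place of `19/20`) PSum: partial sums of `χ(n) n^{it}` for all `v > y`

Proof.  Split `n ≤ v` into classes modulo `d`: `n = d m + r`, `0 ≤ r < d`, `log n = log d + log (m + r/d)`, `χ(n) = χ(r)`.  The terms with `m = 0` contribute at most `d`.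
The others form `∑_{m ∈ Ioc 0 b} ee(t log(m + r/d))`, `b = (v - r)/d ≤ v`, up to a constant factor of modulus one.
`v ≤ x`: `vk_exp (A + B + 2)` with `K = v` (`v ≥ Yx x + 1 > exp(L9 x)`): at most `v (100/|t| + L^{-A-B-2})` per class.
`v > x`: `H35.W.ks1 1` with its `x` equal to `v` and `K = v` (`|t| ≤ x^3 ≤ v^3`): at most `C v (1/|t| + v^{-δ})` per class.
Sum over `d ≤ L^B` classes; `K' = A + B + 2`; `d ≤ L^B ≤ v/L^{A+1}`.
-/

set_option autoImplicit false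

namespace Pool.Agent.H76.VKT

open Finset
open Pool.Agent.H91.PK (ee)

private lemma psum_ee_norm (r : ℝ) : ‖ee r‖ = 1 := by
  have : (2 * Real.pi * r * Complex.I : ℂ) = ((2 * Real.pi * r : ℝ) : ℂ) * Complex.I := by
    push_cast; ring
  rw [ee, this, Complex.norm_exp_ofReal_mul_I]

private lemma psum_ee_add (r s : ℝ) : ee (r + s) = ee r * ee s := by
  rw [ee, ee, ee, ← Complex.exp_add]
  congr 1
  push_cast
  ring

private lemma psum_per (ψ : ℕ → ℂ) (d : ℕ) (h : ∀ n, ψ (n + d) = ψ n) (l k : ℕ) :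
    ψ (l + d * k) = ψ l := by
  induction k with
  | zero => simp
  | succ k ih => rw [mul_add, mul_one, ← add_assoc, h, ih]

/-- one residue class -/
private lemma psum_class (f : ℕ → ℂ) (hf : ∀ n, ‖f n‖ ≤ 1) (B : ℝ) (K' a b d l : ℕ) (hd : 1 ≤ d)
    (hb : b / d ≤ K') (hB : ∀ a' b' : ℕ, b' ≤ K' → ‖∑ n ∈ Ioc a' b', f n‖ ≤ B) :
    ‖∑ k ∈ (range (b + 1)).filter (fun k => a < l + d * k ∧ l + d * k ≤ b), f k‖ ≤ 1 + B := by
  set T := (range (b + 1)).filter (fun k => a < l + d * k ∧ l + d * k ≤ b) with hT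
  have e : T.erase 0 = Ioc ((a - l) / d) ((b - l) / d) := by
    ext k
    simp only [hT, mem_erase, mem_filter, mem_range, mem_Ioc]
    rw [Nat.div_lt_iff_lt_mul (by omega), Nat.le_div_iff_mul_le (by omega)]
    constructor
    · rintro ⟨h0, h1, h2, h3⟩
      rw [mul_comm d k] at h2 h3
      have : 1 ≤ k * d := Nat.mul_pos (by omega) (by omega)
      omega
    · rintro ⟨h1, h2⟩
      have hk : k ≠ 0 := by rintro rfl; simp at h1
      have h3 : k ≤ k * d := Nat.le_mul_of_pos_right k (by omega)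
      have : 1 ≤ k * d := Nat.mul_pos (by omega) (by omega)
      rw [mul_comm d k]
      omega
  have h1 : ‖∑ k ∈ T.erase 0, f k‖ ≤ B := by
    rw [e]
    exact hB _ _ ((Nat.div_le_div_right (Nat.sub_le _ _)).trans hb)
  by_cases h0 : 0 ∈ T
  · rw [← add_sum_erase _ _ h0]
    exact (norm_add_le _ _).trans (add_le_add (hf 0) h1)
  · rw [erase_eq_of_notMem h0] at h1
    linarith only [h1]

/-- all residue classes -/
private lemma psum_core (ψ : ℕ → ℂ) (d v : ℕ) (t B : ℝ) (hd : 1 ≤ d) (hper : ∀ n, ψ (n + d) = ψ n)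
    (hψ : ∀ n, ‖ψ n‖ ≤ 1)
    (hB : ∀ (β : ℝ) (a' b' : ℕ), 0 ≤ β → β ≤ 1 → b' ≤ v →
      ‖∑ n ∈ Ioc a' b', ee (t * Real.log (n + β))‖ ≤ B) :
    ‖∑ n ∈ Icc 1 v, ψ n * ee (t * Real.log n)‖ ≤ d * (1 + B) := by
  have hdr : (1 : ℝ) ≤ d := by exact_mod_cast hd
  have hd0 : (d : ℝ) ≠ 0 := by positivity
  have hcl : ∀ l ∈ range d, ‖∑ n ∈ (Ioc 0 v).filter (fun n => n % d = l),
      ψ n * ee (t * Real.log n)‖ ≤ 1 + B := by
    intro l hl
    have hl1 := mem_range.1 hl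
    have e1 : (Ioc 0 v).filter (fun n => n % d = l)
        = ((range (v + 1)).filter (fun k => 0 < l + d * k ∧ l + d * k ≤ v)).image
          (fun k => l + d * k) := by
      ext n
      simp only [mem_filter, mem_Ioc, mem_image, mem_range]
      constructor
      · rintro ⟨⟨h1, h2⟩, h3⟩
        have h4 : n % d + d * (n / d) = n := Nat.mod_add_div n d
        have h5 : n / d ≤ n := Nat.div_le_self n d
        refine ⟨n / d, ⟨by omega, ?_, ?_⟩, ?_⟩ <;> rw [← h3, h4] <;> assumption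
      · rintro ⟨k, ⟨h1, h2, h3⟩, rfl⟩
        exact ⟨⟨h2, h3⟩, by rw [Nat.add_mul_mod_self_left, Nat.mod_eq_of_lt hl1]⟩
    have hinj : Set.InjOn (fun k => l + d * k)
        ((range (v + 1)).filter (fun k => 0 < l + d * k ∧ l + d * k ≤ v) : Finset ℕ) := by
      intro u _ w _ huw
      have : d * u = d * w := by simpa using huw
      exact Nat.eq_of_mul_eq_mul_left (by omega) this
    rw [e1, sum_image hinj]
    have hβl0 : 0 ≤ (l : ℝ) / d := by positivity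
    have hβl1 : (l : ℝ) / d ≤ 1 := by
      rw [div_le_one (by linarith only [hdr])]
      exact_mod_cast hl1.le
    have e2 : ∑ k ∈ (range (v + 1)).filter (fun k => 0 < l + d * k ∧ l + d * k ≤ v),
        ψ (l + d * k) * ee (t * Real.log ((l + d * k : ℕ) : ℝ))
        = (ψ l * ee (t * Real.log d)) *
          ∑ k ∈ (range (v + 1)).filter (fun k => 0 < l + d * k ∧ l + d * k ≤ v),
            ee (t * Real.log ((k : ℝ) + (l : ℝ) / d)) := by
      rw [mul_sum]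
      apply sum_congr rfl
      intro k hk
      have hk1 := (mem_filter.1 hk).2.1
      have hpos : (0 : ℝ) < l + d * k := by
        have : 0 < l + d * k := by omega
        exact_mod_cast this
      have h1 : ((l + d * k : ℕ) : ℝ) = d * ((k : ℝ) + (l : ℝ) / d) := by
        push_cast
        field_simp
        ring
      have h2 : 0 < (k : ℝ) + (l : ℝ) / d := by
        have h3 : (k : ℝ) + (l : ℝ) / d = (l + d * k) / d := by
          field_simp
          ring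
        rw [h3]
        exact div_pos hpos (by linarith only [hdr])
      rw [psum_per ψ d hper, h1, Real.log_mul hd0 h2.ne', mul_add, psum_ee_add]
      ring
    rw [e2, norm_mul, norm_mul, psum_ee_norm, mul_one]
    have h3 := psum_class (fun k => ee (t * Real.log ((k : ℝ) + (l : ℝ) / d)))
      (fun n => (psum_ee_norm _).le) B v 0 v d l hd (Nat.div_le_self v d)
      (fun a' b' hb' => hB ((l : ℝ) / d) a' b' hβl0 hβl1 hb')
    calc ‖ψ l‖ * _ ≤ 1 * (1 + B) := mul_le_mul (hψ l) h3 (norm_nonneg _) zero_le_one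
      _ = 1 + B := one_mul _
  have e0 : Icc 1 v = Ioc 0 v := by
    ext n; simp only [mem_Icc, mem_Ioc]; omega
  have e3 : ∑ n ∈ Ioc 0 v, ψ n * ee (t * Real.log n)
      = ∑ l ∈ range d, ∑ n ∈ (Ioc 0 v).filter (fun n => n % d = l),
        ψ n * ee (t * Real.log n) := by
    rw [sum_fiberwise_of_maps_to]
    intro n _
    exact mem_range.2 (Nat.mod_lt n (by omega))
  rw [e0, e3]
  refine (norm_sum_le _ _).trans ((sum_le_sum hcl).trans ?_)
  rw [sum_const, card_range, nsmul_eq_mul]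

private lemma psum_tendL : Filter.Tendsto (fun x : ℕ => Real.log x) Filter.atTop Filter.atTop :=
  Real.tendsto_log_atTop.comp tendsto_natCast_atTop_atTop

/-- powers of `log x` against `exp ((log x)^{9/10})` -/
private lemma psum_ev1 [T0] (N : ℕ) : ∀ᶠ x : ℕ in Filter.atTop,
    2 * Real.log x ^ N ≤ Real.exp (Real.log x ^ T0.t) := by
  have h1 : Filter.Tendsto (fun u : ℝ => u ^ T0.t) Filter.atTop Filter.atTop :=
    tendsto_rpow_atTop (by have := T0.lo; linarith only [this])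
  have h2 := (Real.isLittleO_pow_exp_atTop (n := 2 * N)).comp_tendsto h1
  have h3 := (h2.bound (show (0 : ℝ) < 1 / 2 by norm_num))
  have h4 := psum_tendL.eventually h3
  filter_upwards [h4, psum_tendL.eventually_ge_atTop 1] with x hx hL
  simp only [Function.comp_def, Real.norm_eq_abs] at hx
  have hL0 : 0 ≤ Real.log x := by linarith only [hL]
  rw [abs_of_nonneg (by positivity), abs_of_nonneg (by positivity)] at hx
  have h5 : Real.log x ^ N ≤ (Real.log x ^ T0.t) ^ (2 * N) := by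
    rw [← Real.rpow_natCast (Real.log x ^ T0.t), ← Real.rpow_mul hL0, ← Real.rpow_natCast]
    apply Real.rpow_le_rpow_of_exponent_le hL
    push_cast
    have : (0 : ℝ) ≤ N := Nat.cast_nonneg N
    have hlo := T0.lo
    nlinarith only [hlo]
  linarith only [hx, h5]

/-- powers of `log x` against powers of `x` -/
private lemma psum_ev2 (N : ℕ) (δ : ℝ) (hδ : 0 < δ) : ∀ᶠ x : ℕ in Filter.atTop,
    (x : ℝ) ^ (-δ) ≤ 1 / Real.log x ^ N := by
  have h1 : Filter.Tendsto (fun u : ℝ => δ * u) Filter.atTop Filter.atTop :=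
    Filter.tendsto_id.const_mul_atTop hδ
  have h2 := (Real.isLittleO_pow_exp_atTop (n := N)).comp_tendsto h1
  have h3 := (h2.bound (show (0 : ℝ) < δ ^ N by positivity))
  have h4 := psum_tendL.eventually h3
  filter_upwards [h4, psum_tendL.eventually_ge_atTop 1, Filter.eventually_ge_atTop 1] with x hx hL hx1
  simp only [Function.comp_def, Real.norm_eq_abs] at hx
  have hL0 : 0 < Real.log x := by linarith only [hL]
  have hx0 : (0 : ℝ) < x := by exact_mod_cast hx1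
  rw [abs_of_nonneg (by positivity), abs_of_nonneg (by positivity), mul_pow] at hx
  have h5 : Real.log x ^ N ≤ Real.exp (δ * Real.log x) := le_of_mul_le_mul_left hx (by positivity)
  have h6 : (x : ℝ) ^ (-δ) = (Real.exp (δ * Real.log x))⁻¹ := by
    rw [← Real.exp_neg, Real.rpow_def_of_pos hx0]
    congr 1
    ring
  rw [h6, ← one_div]
  exact one_div_le_one_div_of_le (by positivity) h5

theorem psum_h [T0] (h_vk_exp : vk_exp_P)  (A B : ℕ) : ∃ K' x0 : ℕ, ∀ x : ℕ, x0 ≤ x → ∀ (d : ℕ) (χ : DirichletCharacter ℂ d) (t : ℝ) (v : ℕ),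
    1 ≤ d → (d : ℝ) ≤ Real.log x ^ B → Real.log x ^ K' ≤ |t| → |t| ≤ (x : ℝ) ^ (3 : ℕ) → Yx x + 1 ≤ v →
    ‖∑ n ∈ Icc 1 v, χ (n : ZMod d) * ee (t * Real.log n)‖ ≤ v / Real.log x ^ A := by
  obtain ⟨x1, hx1⟩ := h_vk_exp (A + B + 2)
  obtain ⟨δ, C, hδ, hδ1, hC, x2, hx2⟩ := Pool.Agent.H35.W.ks1 1 one_pos
  obtain ⟨x3, hx3⟩ := Filter.eventually_atTop.1 (psum_ev1 (A + B + 2))
  obtain ⟨x4, hx4⟩ := Filter.eventually_atTop.1 (psum_ev2 (A + B + 2) δ hδ)
  obtain ⟨x5, hx5⟩ := Filter.eventually_atTop.1 (psum_tendL.eventually_ge_atTop (4 * C + 202))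
  refine ⟨A + B + 2, max (max (max x1 x2) (max x3 x4)) (max x5 1), ?_⟩
  intro x hx d χ t v hd hdL ht1 ht2 hv
  have hxa : x1 ≤ x := (le_max_left _ _).trans ((le_max_left _ _).trans ((le_max_left _ _).trans hx))
  have hxb : x2 ≤ x := (le_max_right _ _).trans ((le_max_left _ _).trans ((le_max_left _ _).trans hx))
  have hxc : x3 ≤ x := (le_max_left _ _).trans ((le_max_right _ _).trans ((le_max_left _ _).trans hx))
  have hxd : x4 ≤ x := (le_max_right _ _).trans ((le_max_right _ _).trans ((le_max_left _ _).trans hx))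
  have hxe : x5 ≤ x := (le_max_left _ _).trans ((le_max_right _ _).trans hx)
  have hxf : 1 ≤ x := (le_max_right _ _).trans ((le_max_right _ _).trans hx)
  have h3 := hx3 x hxc
  have h4 := hx4 x hxd
  have hL := hx5 x hxe
  have hxr : (1 : ℝ) ≤ x := by exact_mod_cast hxf
  set L := Real.log x with hLdef
  have hL1 : (202 : ℝ) ≤ L := by linarith only [hC, hL]
  have hL0 : (0 : ℝ) < L := by linarith only [hC, hL]
  have hLp : ∀ n : ℕ, 0 < L ^ n := fun n => pow_pos hL0 n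
  have hvy : Real.exp (L ^ T0.t) ≤ v := by
    have h5 : Real.exp (L9 x) < (Yx x : ℝ) + 1 := Nat.lt_floor_add_one _
    have h6 : ((Yx x : ℝ) + 1) ≤ v := by exact_mod_cast hv
    exact h5.le.trans h6
  have hv0 : (0 : ℝ) < v := (Real.exp_pos _).trans_le hvy
  have ht0 : 1 ≤ |t| := (one_le_pow₀ (by linarith only [hC, hL] : (1 : ℝ) ≤ L)).trans ht1
  have htp : 0 < |t| := by linarith only [ht0]
  have hti : 1 / |t| ≤ 1 / L ^ (A + B + 2) := one_div_le_one_div_of_le (hLp _) ht1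
  have key : ∀ (β : ℝ) (a' b' : ℕ), 0 ≤ β → β ≤ 1 → b' ≤ v →
      ‖∑ n ∈ Ioc a' b', ee (t * Real.log (n + β))‖ ≤ v * ((2 * C + 101) / L ^ (A + B + 2)) := by
    intro β a' b' hβ0 hβ1 hb'
    rcases le_or_gt v x with hvx | hvx
    · refine (hx1 x hxa v a' b' β t hvy hvx hb' hβ0 hβ1 ht0 ht2).trans ?_
      apply mul_le_mul_of_nonneg_left _ hv0.le
      calc 100 / |t| + 1 / L ^ (A + B + 2) = 100 * (1 / |t|) + 1 / L ^ (A + B + 2) := by ring
        _ ≤ 100 * (1 / L ^ (A + B + 2)) + 1 / L ^ (A + B + 2) := by linarith only [hti]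
        _ = 101 / L ^ (A + B + 2) := by ring
        _ ≤ (2 * C + 101) / L ^ (A + B + 2) := by
          apply div_le_div_of_nonneg_right _ (hLp _).le
          linarith only [hC]
    · have hxv : (x : ℝ) ≤ v := by exact_mod_cast hvx.le
      have ht3 : |t| ≤ (v : ℝ) ^ (3 : ℕ) := ht2.trans (pow_le_pow_left₀ (by linarith only [hxr]) hxv 3)
      refine (hx2 v (hxb.trans hvx.le) v a' b' β t (by rw [Real.rpow_one]) le_rfl hb' hβ0 hβ1 ht0
        ht3).trans ?_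
      have h7 : (v : ℝ) ^ (-δ) ≤ (x : ℝ) ^ (-δ) :=
        Real.rpow_le_rpow_of_nonpos (by linarith only [hxr]) hxv (by linarith only [hδ])
      have h8 : 1 / |t| + (v : ℝ) ^ (-δ) ≤ 2 * (1 / L ^ (A + B + 2)) := by linarith only [h4, hti, h7]
      calc C * v * (1 / |t| + (v : ℝ) ^ (-δ)) ≤ C * v * (2 * (1 / L ^ (A + B + 2))) := by
            apply mul_le_mul_of_nonneg_left h8 (by positivity)
        _ = v * ((2 * C) / L ^ (A + B + 2)) := by ring
        _ ≤ v * ((2 * C + 101) / L ^ (A + B + 2)) := by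
          apply mul_le_mul_of_nonneg_left _ hv0.le
          apply div_le_div_of_nonneg_right _ (hLp _).le
          linarith only
  have hmain := psum_core (fun n => χ (n : ZMod d)) d v t _ hd (fun n => by simp)
    (fun n => DirichletCharacter.norm_le_one _ _) key
  refine hmain.trans ?_
  have hd0 : (0 : ℝ) ≤ d := Nat.cast_nonneg _
  have hvL : 2 * L ^ (A + B + 2) ≤ v := h3.trans hvy
  have hC0 : 0 ≤ (2 * C + 101) / L ^ (A + B + 2) := div_nonneg (by linarith only [hC]) (hLp _).le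
  have h9 : (d : ℝ) * (1 + v * ((2 * C + 101) / L ^ (A + B + 2))) ≤
      L ^ B * (1 + v * ((2 * C + 101) / L ^ (A + B + 2))) := by
    apply mul_le_mul_of_nonneg_right hdL
    positivity
  refine h9.trans ?_
  rw [le_div_iff₀ (hLp _)]
  have e1 : L ^ (A + B + 2) = L ^ A * L ^ B * L ^ 2 := by
    rw [pow_add, pow_add]
  have e2 : L ^ B * (1 + v * ((2 * C + 101) / L ^ (A + B + 2))) * L ^ A
      = L ^ A * L ^ B + v * ((2 * C + 101) / L ^ 2) := by
    rw [e1]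
    have hA := (hLp A).ne'
    have hB := (hLp B).ne'
    field_simp
  rw [e2]
  have h10 : L ^ A * L ^ B ≤ v / 2 := by
    have h11 : (1 : ℝ) ≤ L ^ 2 := one_le_pow₀ (by linarith only [hC, hL])
    have h12 : 0 ≤ L ^ A * L ^ B := by positivity
    rw [e1] at hvL
    nlinarith only [hvL, h11, h12]
  have h13 : (2 * C + 101) / L ^ 2 ≤ 1 / 2 := by
    rw [div_le_iff₀ (hLp 2)]
    nlinarith only [hC, hL]
  nlinarith only [h10, h13]

end Pool.Agent.H76.VKT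

end
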