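import Pool.Agent.H15.TB1.M61

/-! The parts of this file: H88.E58.Lv, H88.E58.Bs. -/

section

/-!
# E58 Lv: measure of the large value set of one factor, `T ≤ X^(3/8-e)`

Same proof as `Pool/Agent/H88/PSI/Lvs.lean` with other numbers.  Let `N = X^ν`, `κ ≤ ν ≤ 11/24`; `k` maximal with `k ν ≤ 1/2 - e/2` (fixed range of `k`:
`1 ≤ k ≤ 1/κ`; the constants `2^k` are absorbed), `u = k ν`, so that `1/4 - e/4 < u ≤ 1/2 - e/2`.  With `V = N^(s-eδ/4)` and `e1` small (`e1 = eδ/100`), `lvk` gives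
`vol ≤ X^e1 (X^(2u(1-s) + u e δ/2) + X^(3/8 - e + min (u(1-2s)) (u(4-6s)) + 3 u e δ/2))`.
First term: `2u(1-s) + u e δ/2 + e1 ≤ (1-s) - e(1-s) + eδ/4 + e1`, and `e (1-s) ≥ e δ`: `≤ 1 - s - 3eδ/4 + e1`.  Second term: for `s ≤ 3/4` use `u(1-2s)`:
`3/8 - e + u(1-2s) - (1-s)` is increasing in `s`, for `s ≥ 3/4` use `u(4-6s)`: `3/8 - e + u(4-6s) - (1-s)` is decreasing in `s` (`u > 1/6`);
at `s = 3/4` both are `1/8 - e - u/2 ≤ -7e/8`.  (`δ ≤ 1/4`, so `3uδe/2 + e1 + eδ/2 ≤ 7e/8 - ...`.)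
-/

set_option autoImplicit false

namespace Pool.Agent.H88.E58

open Finset MeasureTheory
open Pool.Agent.H88.PSI

private theorem Lv_k {x n e κ : ℝ} {K : ℕ} (hx : 3 ≤ x) (hn : 1 ≤ n) (he : 0 < e)
    (he' : e ≤ 1 / 100) (hK : 1 ≤ κ * K) (h1 : x ^ κ ≤ n)
    (h2 : n ≤ x ^ (11 / 24 : ℝ)) : ∃ j : ℕ, j < K + 2 ∧ x ^ (1 / 4 - e / 4) ≤ n ^ (j + 1) ∧
      n ^ (j + 1) ≤ x ^ (1 / 2 - e / 2) := by
  have hx0 : 0 < x := by linarith
  have hx1 : 1 < x := by linarith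
  have hn0 : 0 < n := by linarith
  have hKx : x ^ (1 / 2 - e / 2) < n ^ K := by
    calc x ^ (1 / 2 - e / 2) < x ^ (κ * K) :=
          Real.rpow_lt_rpow_of_exponent_lt hx1 (by linarith)
      _ = (x ^ κ) ^ K := by rw [Real.rpow_mul hx0.le, Real.rpow_natCast]
      _ ≤ n ^ K := pow_le_pow_left₀ (Real.rpow_nonneg hx0.le _) h1 K
  have hex : ∃ k : ℕ, x ^ (1 / 2 - e / 2) < n ^ k := ⟨K, hKx⟩
  classical
  have hle : Nat.find hex ≤ K := Nat.find_min' hex hKx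
  have hspec := Nat.find_spec hex
  have hne : 2 ≤ Nat.find hex := by
    by_contra hcon
    have h3 : n ^ Nat.find hex ≤ n ^ 1 := pow_le_pow_right₀ hn (by omega)
    have h4 : x ^ (11 / 24 : ℝ) ≤ x ^ (1 / 2 - e / 2) :=
      Real.rpow_le_rpow_of_exponent_le hx1.le (by linarith)
    rw [pow_one] at h3
    linarith
  obtain ⟨j, hj⟩ := Nat.exists_eq_add_of_le hne
  have hj' : Nat.find hex = (j + 1) + 1 := by omega
  have h5 : ¬ x ^ (1 / 2 - e / 2) < n ^ (j + 1) := Nat.find_min hex (by omega)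
  push Not at h5
  refine ⟨j, by omega, ?_, h5⟩
  have h6 : x ^ (1 / 2 - e / 2) ≤ (n ^ (j + 1)) ^ 2 := by
    rw [← pow_mul]
    refine hspec.le.trans (pow_le_pow_right₀ hn ?_)
    omega
  have h7 : (x ^ (1 / 4 - e / 4)) ^ 2 = x ^ (1 / 2 - e / 2) := by
    rw [← Real.rpow_natCast, ← Real.rpow_mul hx0.le]
    congr 1
    push_cast
    ring
  rw [← h7] at h6
  exact (pow_le_pow_iff_left₀ (Real.rpow_nonneg hx0.le _) (by positivity) two_ne_zero).1 h6

private theorem Lv_core (e e1 κ : ℝ) (he : 0 < e) (he' : e ≤ 1 / 100) (he1 : 0 < e1)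
    (hκ : 0 < κ) : ∃ X0 : ℕ, ∀ X : ℕ, X0 ≤ X → 3 ≤ X ∧
    ∀ (N : ℕ) (g : ArithmeticFunction ℂ) (σ T : ℝ) (B : Set ℝ),
    (X : ℝ) ^ κ ≤ N → (N : ℝ) ≤ (X : ℝ) ^ (11 / 24 : ℝ) →
    (∀ n, g n ≠ 0 → n ≤ 2 * N) → (∀ n, ‖g n‖ ≤ 2 * Real.log X) →
    1 ≤ T → T ≤ (X : ℝ) ^ (3 / 8 - e) → MeasurableSet B → B ⊆ Set.Icc (-T) T →
    (∀ t ∈ B, (N : ℝ) ^ σ ≤ ‖DP g (2 * N) t‖) →
    ∃ u : ℝ, 1 / 4 - e / 4 ≤ u ∧ u ≤ 1 / 2 - e / 2 ∧ volume.real B ≤ (X : ℝ) ^ e1 *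
      ((X : ℝ) ^ (2 * u * (1 - σ)) + min ((X : ℝ) ^ (3 / 8 - e + u * (1 - 2 * σ)))
        ((X : ℝ) ^ (3 / 8 - e + u * (4 - 6 * σ)))) := by
  choose f hf using fun j : ℕ => lvk (j + 1) e1 (by omega) he1
  set K : ℕ := ⌈1 / κ⌉₊ with hK
  have hK1 : 1 ≤ κ * K := by
    have h1 : 1 / κ ≤ K := Nat.le_ceil _
    rw [div_le_iff₀ hκ] at h1
    linarith
  refine ⟨max (∑ j ∈ range (K + 2), f j) (max 3 ⌈((2 : ℝ) ^ (K + 2)) ^ (1 / e)⌉₊),
    fun X hX => ?_⟩
  have hX1 : ∑ j ∈ range (K + 2), f j ≤ X := (le_max_left _ _).trans hX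
  have hX3 : 3 ≤ X := (le_max_left _ _).trans ((le_max_right _ _).trans hX)
  have hX2 : ⌈((2 : ℝ) ^ (K + 2)) ^ (1 / e)⌉₊ ≤ X :=
    (le_max_right _ _).trans ((le_max_right _ _).trans hX)
  refine ⟨hX3, fun N g σ T B h1 h2 hg hg' hT hT' hB hBT hV => ?_⟩
  set x : ℝ := (X : ℝ) with hx
  have hx3 : 3 ≤ x := by
    rw [hx]
    exact_mod_cast hX3
  have hx0 : 0 < x := by linarith
  have hx1 : 1 < x := by linarith
  have hN1 : (1 : ℝ) ≤ N := (Real.one_le_rpow hx1.le hκ.le).trans h1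
  have hN0 : (0 : ℝ) < N := by linarith
  have hN : 1 ≤ N := by exact_mod_cast hN1
  obtain ⟨j, hj, k1, k2⟩ := Lv_k hx3 hN1 he he' hK1 h1 h2
  have hfX : f j ≤ X := (single_le_sum (fun i _ => Nat.zero_le (f i)) (mem_range.2 hj)).trans hX1
  have h2e : (2 : ℝ) ^ (K + 2) ≤ x ^ e := by
    have h3 : ((2 : ℝ) ^ (K + 2)) ^ (1 / e) ≤ x := (Nat.le_ceil _).trans (by rw [hx]; exact_mod_cast hX2)
    have h4 : (((2 : ℝ) ^ (K + 2)) ^ (1 / e)) ^ e ≤ x ^ e :=
      Real.rpow_le_rpow (by positivity) h3 he.le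
    rwa [← Real.rpow_mul (by positivity), one_div_mul_cancel he.ne', Real.rpow_one] at h4
  have hpow : (2 * N) ^ (j + 1) ≤ X := by
    have h3 : ((2 * N : ℕ) : ℝ) ^ (j + 1) ≤ x := by
      push_cast
      rw [mul_pow]
      calc (2 : ℝ) ^ (j + 1) * (N : ℝ) ^ (j + 1) ≤ 2 ^ (K + 2) * x ^ (1 / 2 - e / 2) :=
            mul_le_mul (pow_le_pow_right₀ (by norm_num) (by omega)) k2 (by positivity)
              (by positivity)
        _ ≤ x ^ e * x ^ (1 / 2 - e / 2) := mul_le_mul_of_nonneg_right h2e (Real.rpow_nonneg hx0.le _)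
        _ = x ^ (e + (1 / 2 - e / 2)) := (Real.rpow_add hx0 _ _).symm
        _ ≤ x ^ (1 : ℝ) := Real.rpow_le_rpow_of_exponent_le hx1.le (by linarith)
        _ = x := Real.rpow_one x
    rw [hx] at h3
    exact_mod_cast h3
  have hTX : T ≤ x := by
    refine hT'.trans ?_
    calc x ^ (3 / 8 - e) ≤ x ^ (1 : ℝ) := Real.rpow_le_rpow_of_exponent_le hx1.le (by linarith)
      _ = x := Real.rpow_one x
  have hV0 : 0 < (N : ℝ) ^ σ := Real.rpow_pos_of_pos hN0 _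
  have main := hf j X hfX N g ((N : ℝ) ^ σ) T B hN hpow hg hg' hV0 hT hTX hB hBT hV
  obtain ⟨u, hu⟩ : ∃ u : ℝ, x ^ u = (N : ℝ) ^ (j + 1) :=
    ⟨Real.logb x ((N : ℝ) ^ (j + 1)), Real.rpow_logb hx0 hx1.ne' (by positivity)⟩
  have u1 : 1 / 4 - e / 4 ≤ u := by
    rw [← hu] at k1
    exact (Real.rpow_le_rpow_left_iff hx1).1 k1
  have u2 : u ≤ 1 / 2 - e / 2 := by
    rw [← hu] at k2
    exact (Real.rpow_le_rpow_left_iff hx1).1 k2
  -- the powers of `N` and `V`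
  have pN : ∀ m : ℕ, (N : ℝ) ^ (m * (j + 1)) = x ^ (m * u) := by
    intro m
    rw [mul_comm m, pow_mul, ← hu, ← Real.rpow_natCast, ← Real.rpow_mul hx0.le, mul_comm u]
  have pV : ∀ m : ℕ, ((N : ℝ) ^ σ) ^ (m * (j + 1)) = x ^ (m * u * σ) := by
    intro m
    rw [← Real.rpow_natCast, ← Real.rpow_mul hN0.le, mul_comm σ, Real.rpow_mul hN0.le,
      Real.rpow_natCast, pN, ← Real.rpow_mul hx0.le]
  have p1 : (N : ℝ) ^ (j + 1) = x ^ (1 * u) := by rw [one_mul, hu]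
  refine ⟨u, u1, u2, main.trans ?_⟩
  refine mul_le_mul_of_nonneg_left (add_le_add ?_ (min_le_min ?_ ?_)) (Real.rpow_nonneg hx0.le _)
  · rw [pN, pV, ← Real.rpow_sub hx0]
    refine le_of_eq ?_
    congr 1
    push_cast
    ring
  · rw [p1, pV]
    calc T * x ^ (1 * u) / x ^ (((2 : ℕ) : ℝ) * u * σ)
        ≤ x ^ (3 / 8 - e) * x ^ (1 * u) / x ^ (((2 : ℕ) : ℝ) * u * σ) := by gcongr
      _ = x ^ (3 / 8 - e + u * (1 - 2 * σ)) := by
        rw [← Real.rpow_add hx0, ← Real.rpow_sub hx0]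
        congr 1
        push_cast
        ring
  · rw [pN, pV]
    calc T * x ^ (((4 : ℕ) : ℝ) * u) / x ^ (((6 : ℕ) : ℝ) * u * σ)
        ≤ x ^ (3 / 8 - e) * x ^ (((4 : ℕ) : ℝ) * u) / x ^ (((6 : ℕ) : ℝ) * u * σ) := by gcongr
      _ = x ^ (3 / 8 - e + u * (4 - 6 * σ)) := by
        rw [← Real.rpow_add hx0, ← Real.rpow_sub hx0]
        congr 1
        push_cast
        ring

private theorem Lv_two {c : ℝ} (hc : 0 < c) : ∃ X0 : ℕ, ∀ X : ℕ, X0 ≤ X → 2 ≤ (X : ℝ) ^ c := by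
  refine ⟨⌈(2 : ℝ) ^ (1 / c)⌉₊, fun X hX => ?_⟩
  have h3 : (2 : ℝ) ^ (1 / c) ≤ X := (Nat.le_ceil _).trans (by exact_mod_cast hX)
  have h4 : ((2 : ℝ) ^ (1 / c)) ^ c ≤ (X : ℝ) ^ c := Real.rpow_le_rpow (by positivity) h3 hc.le
  rwa [← Real.rpow_mul (by norm_num), one_div_mul_cancel hc.ne', Real.rpow_one] at h4

theorem lv58 (e δ κ : ℝ) (he : 0 < e) (he' : e ≤ 1 / 100) (hδ : 0 < δ) (hδ' : δ ≤ 1 / 4) (hκ : 0 < κ) :
    ∃ X0 : ℕ, ∀ X : ℕ, X0 ≤ X → ∀ (N : ℕ) (g : ArithmeticFunction ℂ) (s T : ℝ) (B : Set ℝ),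
    (X : ℝ) ^ κ ≤ N → (N : ℝ) ≤ (X : ℝ) ^ (11 / 24 : ℝ) →
    (∀ n, g n ≠ 0 → n ≤ 2 * N) → (∀ n, ‖g n‖ ≤ 2 * Real.log X) → 1 / 2 ≤ s → s ≤ 1 - δ →
    1 ≤ T → T ≤ (X : ℝ) ^ (3 / 8 - e) → MeasurableSet B → B ⊆ Set.Icc (-T) T →
    (∀ t ∈ B, (N : ℝ) ^ (s - e * δ / 4) ≤ ‖DP g (2 * N) t‖) →
    volume.real B ≤ (X : ℝ) ^ (1 - s - e * δ / 2) := by
  obtain ⟨X1, h1⟩ := Lv_core e (e * δ / 8) κ he he' (by positivity) hκ
  obtain ⟨X2, h2⟩ := Lv_two (c := e * δ / 8) (by positivity)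
  refine ⟨max X1 X2, fun X hX N g s T B hN hN' hg hg' hs hs' hT hT' hB hBT hV => ?_⟩
  obtain ⟨hX3, h3⟩ := h1 X ((le_max_left _ _).trans hX)
  have h4 := h2 X ((le_max_right _ _).trans hX)
  obtain ⟨u, u1, u2, hb⟩ := h3 N g (s - e * δ / 4) T B hN hN' hg hg' hT hT' hB hBT hV
  set x : ℝ := (X : ℝ) with hx
  have hx3 : 3 ≤ x := by
    rw [hx]
    exact_mod_cast hX3
  have hx0 : 0 < x := by linarith
  have hx1 : 1 ≤ x := by linarith
  have hed : 0 < e * δ := by positivity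
  have hed1 : e * δ ≤ e / 4 := by nlinarith
  have hed2 : e * δ ≤ 1 / 400 := by linarith
  set σ : ℝ := s - e * δ / 4 with hσ
  have b1 : x ^ (2 * u * (1 - σ)) ≤ x ^ (1 - s - 3 / 4 * (e * δ)) := by
    refine Real.rpow_le_rpow_of_exponent_le hx1 ?_
    have : 0 ≤ 1 - σ := by rw [hσ]; linarith
    have a1 : u * (1 - σ) ≤ (1 / 2 - e / 2) * (1 - σ) := mul_le_mul_of_nonneg_right u2 this
    have a2 : (1 / 2 - e / 2) * (1 - σ) =
        (1 - s + e * δ / 4 - e * (1 - s) - e * (e * δ) / 4) / 2 := by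
      rw [hσ]; ring
    have a3 : e * δ ≤ e * (1 - s) := mul_le_mul_of_nonneg_left (by linarith) he.le
    have a4 : 0 ≤ e * (e * δ) := by positivity
    linarith
  have b2 : min (x ^ (3 / 8 - e + u * (1 - 2 * σ))) (x ^ (3 / 8 - e + u * (4 - 6 * σ))) ≤
      x ^ (1 - s - 3 / 4 * (e * δ)) := by
    have hgoal : 1 - σ - e * δ ≤ 1 - s - 3 / 4 * (e * δ) := by
      rw [hσ]
      linarith
    rcases le_total σ (1 / 2) with c1 | c1
    · refine (min_le_left _ _).trans (Real.rpow_le_rpow_of_exponent_le hx1 (le_trans ?_ hgoal))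
      have a1 : u * (1 - 2 * σ) ≤ (1 / 2) * (1 - 2 * σ) :=
        mul_le_mul_of_nonneg_right (by linarith) (by linarith)
      linarith
    rcases le_total σ (3 / 4) with c2 | c2
    · refine (min_le_left _ _).trans (Real.rpow_le_rpow_of_exponent_le hx1 (le_trans ?_ hgoal))
      have a1 : (1 / 4 - e / 4) * (2 * σ - 1) ≤ u * (2 * σ - 1) :=
        mul_le_mul_of_nonneg_right u1 (by linarith)
      have a2 : (1 / 2 + e / 2) * σ ≤ (1 / 2 + e / 2) * (3 / 4) :=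
        mul_le_mul_of_nonneg_left c2 (by linarith)
      nlinarith
    · refine (min_le_right _ _).trans (Real.rpow_le_rpow_of_exponent_le hx1 (le_trans ?_ hgoal))
      have a1 : (1 / 4 - e / 4) * (6 * σ - 4) ≤ u * (6 * σ - 4) :=
        mul_le_mul_of_nonneg_right u1 (by linarith)
      have a2 : (1 / 2 - 3 / 2 * e) * (3 / 4) ≤ (1 / 2 - 3 / 2 * e) * σ :=
        mul_le_mul_of_nonneg_left c2 (by linarith)
      nlinarith
  calc volume.real B ≤ x ^ (e * δ / 8) * (x ^ (1 - s - 3 / 4 * (e * δ)) +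
        x ^ (1 - s - 3 / 4 * (e * δ))) := by
        refine hb.trans (mul_le_mul_of_nonneg_left (add_le_add b1 b2) (Real.rpow_nonneg hx0.le _))
    _ = 2 * x ^ (1 - s - e * δ / 2 - e * δ / 8) := by
        rw [← two_mul, mul_left_comm, ← Real.rpow_add hx0]
        congr 2
        ring
    _ ≤ x ^ (e * δ / 8) * x ^ (1 - s - e * δ / 2 - e * δ / 8) :=
        mul_le_mul_of_nonneg_right h4 (Real.rpow_nonneg hx0.le _)
    _ = x ^ (1 - s - e * δ / 2) := by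
        rw [← Real.rpow_add hx0]
        congr 1
        ring

end Pool.Agent.H88.E58

end

section

/-!
# E58 Bs: the part of the integral where the product is `≤ X^(1-δ)`

Same proof as `Pool/Agent/H88/PSI/BoxS.lean` with other numbers: `κ = eδ/4`, `η = (1/2-δ)/m1 ≤ κ/4` with `m1 : ℕ` fixed, `s_m = 1/2 + m η` (`s_{m1} = 1-δ`).
`{FF ≤ X^(1/2)}`: `≤ 2 T X^(1/2) ≤ 2 X^(7/8)`.  `B_m = {|t| ≤ T, X^(s_{m-1}) < FF ≤ X^(s_m)}`: by `cov` (`s = s_m`, `box_tr`)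
`B_m` is covered by the `r ≤ 6` sets `{t ∈ B_m, X^(κ/24) ≤ N i, (N i)^(s_m-κ) ≤ ‖F_i(t)‖}`, each of measure `≤ X^(1-s_m-eδ/2)` (`lv58` with the `κ` of
`lv58` := `eδ/96`), so `∫_{B_m} FF ≤ 6 X^(1-eδ/2)`; sum over `m ≤ m1`.
-/

set_option autoImplicit false

namespace Pool.Agent.H88.E58

open Finset MeasureTheory
open Pool.Agent.H88.PSI

private theorem Bs_large (a : ℝ) (ha : 0 < a) (c : ℝ) :
    ∃ X0 : ℕ, ∀ X : ℕ, X0 ≤ X → c ≤ (X : ℝ) ^ a := by
  have h := (tendsto_rpow_atTop ha).comp tendsto_natCast_atTop_atTop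
  obtain ⟨X0, hX0⟩ := (Filter.tendsto_atTop_atTop.mp h) c
  exact ⟨X0, fun X hX => hX0 X hX⟩

theorem bs58 (e δ : ℝ) (he : 0 < e) (he' : e ≤ 1 / 100) (hδ : 0 < δ) (hδ' : δ ≤ 1 / 4) :
    ∃ X0 : ℕ, ∀ X : ℕ, X0 ≤ X → ∀ (r : ℕ) (N : Fin r → ℕ) (g : Fin r → ArithmeticFunction ℂ) (T : ℝ),
    Box X N g → 1 ≤ T → T ≤ (X : ℝ) ^ (3 / 8 - e) →
    ∫ t in {t : ℝ | |t| ≤ T ∧ FF N g t ≤ (X : ℝ) ^ (1 - δ)}, FF N g t
      ≤ (X : ℝ) ^ (1 - e * δ / 4) := by
  set κ : ℝ := e * δ / 4 with hκd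
  have hκ : 0 < κ := by positivity
  have hed : e * δ ≤ 1 / 400 := by
    calc e * δ ≤ (1 / 100) * (1 / 4) := mul_le_mul he' hδ' hδ.le (by norm_num)
      _ = 1 / 400 := by norm_num
  have hκ' : κ ≤ 1 / 4 := by rw [hκd]; linarith
  obtain ⟨m1, hm1⟩ := exists_nat_gt ((1 / 2 - δ) * 4 / κ)
  have hm0 : (0 : ℝ) < m1 := by
    have : 0 ≤ (1 / 2 - δ) * 4 / κ := by
      apply div_nonneg _ hκ.le
      linarith
    linarith
  set η : ℝ := (1 / 2 - δ) / m1 with hη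
  have hη0 : 0 ≤ η := div_nonneg (by linarith) hm0.le
  have hη1 : η ≤ κ / 4 := by
    rw [hη, div_le_iff₀ hm0]
    rw [div_lt_iff₀ hκ] at hm1
    linarith
  obtain ⟨X1, hcov⟩ := cov κ hκ hκ'
  obtain ⟨X2, hlvs⟩ := lv58 e δ (κ / 24) he he' hδ hδ' (by positivity)
  obtain ⟨X3, hX3⟩ := Bs_large (e * δ / 4) (by positivity) (6 * m1 + 2)
  refine ⟨max (max X1 X2) (max X3 1), ?_⟩
  intro X hX r N g T hB hT hT'
  have hXa : X1 ≤ X := le_trans (le_trans (le_max_left _ _) (le_max_left _ _)) hX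
  have hXb : X2 ≤ X := le_trans (le_trans (le_max_right _ _) (le_max_left _ _)) hX
  have hXc : X3 ≤ X := le_trans (le_trans (le_max_left _ _) (le_max_right _ _)) hX
  have hXd : 1 ≤ X := le_trans (le_trans (le_max_right _ _) (le_max_right _ _)) hX
  have hx1 : (1 : ℝ) ≤ X := by exact_mod_cast hXd
  have hx0 : (0 : ℝ) < X := by linarith
  set s : ℕ → ℝ := fun m => 1 / 2 + m * η with hs
  have hs0 : ∀ m, 1 / 2 ≤ s m := fun m => by
    have : 0 ≤ (m : ℝ) * η := by positivity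
    simp only [hs]
    linarith
  have hsm1 : s m1 = 1 - δ := by
    simp only [hs, hη]
    field_simp
    ring
  have hsle : ∀ m, m ≤ m1 → s m ≤ 1 - δ := by
    intro m hm
    rw [← hsm1]
    simp only [hs]
    have : (m : ℝ) ≤ m1 := by exact_mod_cast hm
    nlinarith
  set C : ℕ → Fin r → Set ℝ := fun m i => {t : ℝ | |t| ≤ T ∧ (X : ℝ) ^ (κ / 24) ≤ N i ∧
    (N i : ℝ) ^ (s m - κ) ≤ ‖DP (g i) (2 * N i) t‖} with hC
  have hCm : ∀ m i, MeasurableSet (C m i) := by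
    intro m i
    have h1 : MeasurableSet {t : ℝ | |t| ≤ T} :=
      measurableSet_le continuous_abs.measurable measurable_const
    have h3 : MeasurableSet {t : ℝ | (N i : ℝ) ^ (s m - κ) ≤ ‖DP (g i) (2 * N i) t‖} :=
      measurableSet_le measurable_const (dp_cont _ _).norm.measurable
    exact h1.inter ((MeasurableSet.const _).inter h3)
  have hCI : ∀ m i, C m i ⊆ Set.Icc (-T) T := by
    intro m i t ht
    exact abs_le.mp ht.1
  have hCv : ∀ m i, m ≤ m1 → volume.real (C m i) ≤ (X : ℝ) ^ (1 - s m - e * δ / 2) := by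
    intro m i hm
    by_cases hN : (X : ℝ) ^ (κ / 24) ≤ N i
    · refine hlvs X hXb (N i) (g i) (s m) T (C m i) hN (hB.top i) ?_ (hB.bd i) (hs0 m)
        (hsle m hm) hT hT' (hCm m i) (hCI m i) ?_
      · intro n hn
        exact (hB.supp i n hn).2.le
      · intro t ht
        exact ht.2.2
    · have : C m i = ∅ := by
        ext t
        simp only [hC, Set.mem_ofPred_eq, Set.mem_empty_iff_false, iff_false]
        exact fun h => hN h.2.1
      rw [this, measureReal_empty]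
      positivity
  set F : ℝ → ℝ := FF N g with hF
  have hFc : Continuous F := ff_cont N g
  have hF0 : ∀ t, 0 ≤ F t := ff_nonneg N g
  set h : ℝ → ℝ := fun t => (X : ℝ) ^ (1 / 2 : ℝ) + ∑ m ∈ Icc 1 m1, ∑ i : Fin r,
    (C m i).indicator (fun _ => (X : ℝ) ^ (s m)) t with hh
  have hind0 : ∀ m i t, 0 ≤ (C m i).indicator (fun _ => (X : ℝ) ^ (s m)) t := by
    intro m i t
    exact Set.indicator_nonneg (fun _ _ => by positivity) t
  have hh0 : ∀ t, 0 ≤ h t := fun t =>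
    add_nonneg (by positivity) (sum_nonneg fun m _ => sum_nonneg fun i _ => hind0 m i t)
  have key : ∀ t, |t| ≤ T → F t ≤ (X : ℝ) ^ (1 - δ) → F t ≤ h t := by
    intro t ht hFt
    by_cases h1 : F t ≤ (X : ℝ) ^ (1 / 2 : ℝ)
    · simp only [hh]
      have h3 : 0 ≤ ∑ m ∈ Icc 1 m1, ∑ i : Fin r,
        (C m i).indicator (fun _ => (X : ℝ) ^ (s m)) t :=
        sum_nonneg fun m _ => sum_nonneg fun i _ => hind0 m i t
      linarith
    · have hex : ∃ m, F t ≤ (X : ℝ) ^ s m := ⟨m1, by rw [hsm1]; exact hFt⟩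
      classical
      set m := Nat.find hex with hm
      have hP : F t ≤ (X : ℝ) ^ s m := Nat.find_spec hex
      have hmle : m ≤ m1 := Nat.find_min' hex (by rw [hsm1]; exact hFt)
      have hm1' : 1 ≤ m := by
        by_contra h0
        have h0' : m = 0 := by omega
        rw [h0'] at hP
        simp only [hs, Nat.cast_zero, zero_mul, add_zero] at hP
        exact h1 hP
      have hPn : ¬ F t ≤ (X : ℝ) ^ s (m - 1) := Nat.find_min hex (by omega)
      rw [not_le] at hPn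
      have hsm : s m - κ / 4 ≤ s (m - 1) := by
        simp only [hs]
        have : ((m - 1 : ℕ) : ℝ) = m - 1 := by
          rw [Nat.cast_sub hm1', Nat.cast_one]
        rw [this]
        linarith
      have hlt : (X : ℝ) ^ (s m - κ / 4) < ∏ i, ‖DP (g i) (2 * N i) t‖ :=
        lt_of_le_of_lt (Real.rpow_le_rpow_of_exponent_le hx1 hsm) hPn
      obtain ⟨i, hi1, hi2⟩ := hcov X hXa r N (fun i => ‖DP (g i) (2 * N i) t‖) (s m) hB.hr
        hB.one hB.prod (fun i => norm_nonneg _) (fun i => box_tr hB i t) (hs0 m)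
        (by have := hsle m hmle; linarith) hlt
      have htC : t ∈ C m i := ⟨ht, hi1, hi2⟩
      have h2 : F t ≤ (X : ℝ) ^ (s m) := hP
      have h0X : 0 ≤ (X : ℝ) ^ (1 / 2 : ℝ) := by positivity
      have h3 : (X : ℝ) ^ (s m) ≤ ∑ i : Fin r,
          (C m i).indicator (fun _ => (X : ℝ) ^ (s m)) t := by
        have h4 := single_le_sum (s := univ) (f := fun i : Fin r =>
          (C m i).indicator (fun _ => (X : ℝ) ^ (s m)) t)
          (fun i _ => hind0 m i t) (mem_univ i)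
        simp only [Set.indicator_of_mem htC] at h4
        exact h4
      have h5 : ∑ i : Fin r, (C m i).indicator (fun _ => (X : ℝ) ^ (s m)) t ≤
          ∑ m ∈ Icc 1 m1, ∑ i : Fin r,
            (C m i).indicator (fun _ => (X : ℝ) ^ (s m)) t :=
        single_le_sum (f := fun m => ∑ i : Fin r,
          (C m i).indicator (fun _ => (X : ℝ) ^ (s m)) t)
          (fun m _ => sum_nonneg fun i _ => hind0 m i t) (mem_Icc.mpr ⟨hm1', hmle⟩)
      simp only [hh]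
      linarith
  -- integration
  set E : Set ℝ := {t : ℝ | |t| ≤ T ∧ F t ≤ (X : ℝ) ^ (1 - δ)} with hE
  have hEm : MeasurableSet E :=
    (measurableSet_le continuous_abs.measurable measurable_const).inter
      (measurableSet_le hFc.measurable measurable_const)
  have hEI : E ⊆ Set.Icc (-T) T := fun t ht => abs_le.mp ht.1
  have hFi : IntegrableOn (fun t => F t) (Set.Icc (-T) T) :=
    hFc.continuousOn.integrableOn_Icc
  have hci : ∀ c : ℝ, IntegrableOn (fun _ : ℝ => c) (Set.Icc (-T) T) := fun c =>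
    continuous_const.continuousOn.integrableOn_Icc
  have hii : ∀ m i, IntegrableOn ((C m i).indicator (fun _ => (X : ℝ) ^ (s m)))
      (Set.Icc (-T) T) := fun m i => (hci _).indicator (hCm m i)
  have hsi : IntegrableOn (fun t => ∑ m ∈ Icc 1 m1, ∑ i : Fin r,
      (C m i).indicator (fun _ => (X : ℝ) ^ (s m)) t) (Set.Icc (-T) T) := by
    apply integrable_finsetSum
    intro m _
    apply integrable_finsetSum
    intro i _
    exact hii m i
  have hhi : IntegrableOn h (Set.Icc (-T) T) := (hci _).add hsi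
  have step1 : ∫ t in E, F t ≤ ∫ t in E, h t :=
    setIntegral_mono_on (hFi.mono_set hEI) (hhi.mono_set hEI) hEm
      (fun t ht => key t ht.1 ht.2)
  have step2 : ∫ t in E, h t ≤ ∫ t in Set.Icc (-T) T, h t :=
    setIntegral_mono_set hhi (Filter.Eventually.of_forall hh0)
      (Filter.Eventually.of_forall hEI)
  have hvolI : volume.real (Set.Icc (-T) T) = 2 * T := by
    rw [Real.volume_real_Icc_of_le (by linarith)]
    ring
  have step3 : ∫ t in Set.Icc (-T) T, h t = 2 * T * (X : ℝ) ^ (1 / 2 : ℝ) + ∑ m ∈ Icc 1 m1, ∑ i : Fin r,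
      volume.real (C m i) * (X : ℝ) ^ (s m) := by
    simp only [hh]
    rw [integral_add (hci _) hsi, setIntegral_const, hvolI, smul_eq_mul]
    congr 1
    rw [integral_finsetSum]
    · refine sum_congr rfl fun m _ => ?_
      rw [integral_finsetSum]
      · refine sum_congr rfl fun i _ => ?_
        rw [setIntegral_indicator (hCm m i), Set.inter_eq_right.mpr (hCI m i),
          setIntegral_const, smul_eq_mul]
      · intro i _
        exact hii m i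
    · intro m _
      apply integrable_finsetSum
      intro i _
      exact hii m i
  have step4 : ∑ m ∈ Icc 1 m1, ∑ i : Fin r, volume.real (C m i) * (X : ℝ) ^ (s m) ≤
      6 * m1 * (X : ℝ) ^ (1 - e * δ / 2) := by
    calc ∑ m ∈ Icc 1 m1, ∑ i : Fin r, volume.real (C m i) * (X : ℝ) ^ (s m)
        ≤ ∑ m ∈ Icc 1 m1, ∑ _i : Fin r, (X : ℝ) ^ (1 - e * δ / 2) := by
          refine sum_le_sum fun m hm => sum_le_sum fun i _ => ?_
          have hm' := (mem_Icc.mp hm).2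
          calc volume.real (C m i) * (X : ℝ) ^ (s m)
              ≤ (X : ℝ) ^ (1 - s m - e * δ / 2) * (X : ℝ) ^ (s m) :=
                mul_le_mul_of_nonneg_right (hCv m i hm') (by positivity)
            _ = (X : ℝ) ^ (1 - e * δ / 2) := by
                rw [← Real.rpow_add hx0]
                congr 1
                ring
      _ = m1 * (r * (X : ℝ) ^ (1 - e * δ / 2)) := by
          rw [sum_const, sum_const, Nat.card_Icc, card_univ, Fintype.card_fin, nsmul_eq_mul,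
            nsmul_eq_mul, Nat.add_sub_cancel]
      _ ≤ 6 * m1 * (X : ℝ) ^ (1 - e * δ / 2) := by
          have hr : (r : ℝ) ≤ 6 := by exact_mod_cast hB.hr
          have hp : 0 ≤ (X : ℝ) ^ (1 - e * δ / 2) := by positivity
          have := mul_le_mul_of_nonneg_right hr hp
          nlinarith
  have step5 : 2 * T * (X : ℝ) ^ (1 / 2 : ℝ) ≤ 2 * (X : ℝ) ^ (1 - e * δ / 2) := by
    have h1 : T * (X : ℝ) ^ (1 / 2 : ℝ) ≤ (X : ℝ) ^ (3 / 8 - e) * (X : ℝ) ^ (1 / 2 : ℝ) :=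
      mul_le_mul_of_nonneg_right hT' (by positivity)
    have h2 : (X : ℝ) ^ (3 / 8 - e) * (X : ℝ) ^ (1 / 2 : ℝ) = (X : ℝ) ^ (3 / 8 - e + 1 / 2) := by
      rw [Real.rpow_add hx0]
    have h3 : (X : ℝ) ^ (3 / 8 - e + 1 / 2) ≤ (X : ℝ) ^ (1 - e * δ / 2) :=
      Real.rpow_le_rpow_of_exponent_le hx1 (by linarith)
    linarith
  calc ∫ t in E, F t ≤ 2 * T * (X : ℝ) ^ (1 / 2 : ℝ) + ∑ m ∈ Icc 1 m1, ∑ i : Fin r,
      volume.real (C m i) * (X : ℝ) ^ (s m) := by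
        rw [← step3]
        exact step1.trans step2
    _ ≤ 2 * (X : ℝ) ^ (1 - e * δ / 2) + 6 * m1 * (X : ℝ) ^ (1 - e * δ / 2) := add_le_add step5 step4
    _ = (6 * m1 + 2) * (X : ℝ) ^ (1 - e * δ / 2) := by ring
    _ ≤ (X : ℝ) ^ (e * δ / 4) * (X : ℝ) ^ (1 - e * δ / 2) :=
        mul_le_mul_of_nonneg_right (hX3 X hXc) (by positivity)
    _ = (X : ℝ) ^ (1 - e * δ / 4) := by
        rw [← Real.rpow_add hx0]
        congr 1
        ring

end Pool.Agent.H88.E58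

end
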