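import Pool.Agent.H15.TB1.M50
import Pool.Agent.H15.TB1.M51
import Pool.Agent.H15.TB1.M59

/-! The parts of this file: H80.LV.BoxB, H80.LV.TyII. -/

section

/-!
# LV BoxB: one box of the type II sum

Proof.  If `N ≤ U` the inner sum is empty.  Otherwise `x^{1/8} ≤ U ≤ N ≤ x` (`1 ≤ v1`: if `v1 = 0` the outer sum is empty).
`gE_mul`: `gE α t (m n) = ee(m n c/d) ee(t log m) ee(t log n)`, and `ee(m n c/d) = ee(u n c/d)` if `m % d = u`.  So the sum is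
`∑_{u < d} A_u(t) C_u(t)`, `A_u(t) = ∑_{m ∈ Ioc v0 v1, m % d = u} Λ(m) ee(t log m)`, `C_u(t) = ∑_{n ∈ Icc 1 N} a_n ee(t log n)`,
`a_n = cV U n ee(u n c/d)` for `n > U` and `0` otherwise, `|a_n| ≤ τ(n)`.
`A_u` = the difference of the sums over `Icc 1 v1` and `Icc 1 v0`; by `VK K3 A (1/8)` (`v0 ≥ U ≥ x^{1/8}`, `v1 ≤ x^2`)
`|A_u(t)| ≤ 2 v1 / L^{K3}`.  `hm (1/8)`: `∫_B |C_u|^2 ≤ N L^2 ∑_{n ≤ N} τ(n)^2 ≤ N^2 L^2 (log N + 1)^3 ≤ N^2 L^6` (`Msq_tau_sq`).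
Cauchy: `|∑_u A_u C_u|^2 ≤ d ∑_u |A_u|^2 |C_u|^2 ≤ d (2 v1/L^{K3})^2 ∑_u |C_u|^2`, so the integral is
`≤ 4 d^2 (v1 N)^2 L^{6 - 2 K3} ≤ 4 x^2 L^{2A + 6 - 2 K3} ≤ x^2/L^K` with `K3 = K + A + 4`.  (`η` is the one of `hm (1/8)`.)
-/

set_option autoImplicit false

namespace Pool.Agent.H80.LV

open Finset MeasureTheory
open Pool.Agent.H91.PK (ee cV)
open Pool.Agent.H91.EHA (Lam)

private theorem BoxB_ee_int (k : ℤ) : ee (k : ℝ) = 1 := by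
  unfold Pool.Agent.H91.PK.ee
  have h : (2 * Real.pi * ((k : ℝ) : ℂ) * Complex.I : ℂ) = (k : ℂ) * (2 * Real.pi * Complex.I) := by
    push_cast
    ring
  rw [h]
  exact Complex.exp_int_mul_two_pi_mul_I k

private theorem BoxB_ee_class (d m u n : ℕ) (c : ℤ) (hd : 1 ≤ d) (hu : m % d = u) :
    ee ((m : ℝ) * n * ((c : ℝ) / d)) = ee ((u : ℝ) * n * ((c : ℝ) / d)) := by
  have hd0 : (d : ℝ) ≠ 0 := by positivity
  obtain ⟨q, hq⟩ : ∃ q : ℕ, m = d * q + u := ⟨m / d, by rw [← hu]; exact (Nat.div_add_mod m d).symm⟩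
  have h1 : (m : ℝ) = (d : ℝ) * q + u := by exact_mod_cast hq
  have h2 : (m : ℝ) * n * ((c : ℝ) / d) =
      (((q : ℤ) * (n : ℤ) * c : ℤ) : ℝ) + (u : ℝ) * n * ((c : ℝ) / d) := by
    rw [h1]
    push_cast
    field_simp
  rw [h2, Pool.Agent.H91.PK.LSa_ee_add, BoxB_ee_int, one_mul]

private noncomputable def BoxB_A (v0 v1 d u : ℕ) (t : ℝ) : ℂ :=
  ∑ m ∈ (Ioc v0 v1).filter (fun m => m % d = u), ((Lam m : ℝ) : ℂ) * ee (t * Real.log m)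

private noncomputable def BoxB_a (U d u : ℕ) (c : ℤ) (n : ℕ) : ℂ :=
  if U < n then ((cV U n : ℝ) : ℂ) * ee ((u : ℝ) * n * ((c : ℝ) / d)) else 0

private noncomputable def BoxB_C (U N d u : ℕ) (c : ℤ) (t : ℝ) : ℂ :=
  ∑ n ∈ Icc 1 N, BoxB_a U d u c n * ee (t * Real.log n)

private theorem BoxB_split (U N v0 v1 d : ℕ) (c : ℤ) (hd : 1 ≤ d) (t : ℝ) :
    ∑ m ∈ Ioc v0 v1, ((Lam m : ℝ) : ℂ) *
          ∑ n ∈ Ioc U N, ((cV U n : ℝ) : ℂ) * gE ((c : ℝ) / d) t (m * n) =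
      ∑ u ∈ range d, BoxB_A v0 v1 d u t * BoxB_C U N d u c t := by
  have h1 : ∑ m ∈ Ioc v0 v1, ((Lam m : ℝ) : ℂ) *
          ∑ n ∈ Ioc U N, ((cV U n : ℝ) : ℂ) * gE ((c : ℝ) / d) t (m * n) =
      ∑ u ∈ range d, ∑ m ∈ (Ioc v0 v1).filter (fun m => m % d = u), ((Lam m : ℝ) : ℂ) *
          ∑ n ∈ Ioc U N, ((cV U n : ℝ) : ℂ) * gE ((c : ℝ) / d) t (m * n) := by
    rw [Finset.sum_fiberwise_of_maps_to]
    intro m _
    rw [mem_range]
    exact Nat.mod_lt _ hd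
  rw [h1]
  apply sum_congr rfl
  intro u _
  unfold BoxB_A
  rw [sum_mul]
  apply sum_congr rfl
  intro m hm
  rw [mem_filter, mem_Ioc] at hm
  obtain ⟨⟨hm1, _⟩, hm2⟩ := hm
  rw [mul_assoc]
  congr 1
  unfold BoxB_C
  rw [mul_sum]
  have h2 : (Ioc U N) = (Icc 1 N).filter (fun n => U < n) := by
    ext n
    simp only [mem_filter, mem_Ioc, mem_Icc]
    constructor
    · rintro ⟨h3, h4⟩
      exact ⟨⟨by omega, h4⟩, h3⟩
    · rintro ⟨⟨_, h4⟩, h3⟩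
      exact ⟨h3, h4⟩
  rw [h2, sum_filter]
  apply sum_congr rfl
  intro n hn
  rw [mem_Icc] at hn
  unfold BoxB_a
  split_ifs with h3
  · rw [gE_mul _ _ _ _ (by omega) hn.1, BoxB_ee_class d m u n c hd hm2]
    ring
  · simp

private theorem BoxB_cont_ee (s : ℝ) : Continuous (fun t : ℝ => ee (t * s)) := by
  unfold Pool.Agent.H91.PK.ee
  fun_prop

private theorem BoxB_cont_C (U N d u : ℕ) (c : ℤ) : Continuous (BoxB_C U N d u c) := by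
  unfold BoxB_C
  apply continuous_finsetSum
  intro n _
  exact continuous_const.mul (BoxB_cont_ee _)

private theorem BoxB_cont_A (v0 v1 d u : ℕ) : Continuous (BoxB_A v0 v1 d u) := by
  unfold BoxB_A
  apply continuous_finsetSum
  intro n _
  exact continuous_const.mul (BoxB_cont_ee _)

private theorem BoxB_A_le (hVK : VK) (K3 A : ℕ) : ∃ K' x0 : ℕ, ∀ x : ℕ, x0 ≤ x →
    ∀ (v0 v1 d u : ℕ) (t : ℝ), 1 ≤ d → (d : ℝ) ≤ Real.log x ^ A → u < d →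
      (x : ℝ) ^ (1 / 8 : ℝ) ≤ v0 → v0 ≤ v1 → v1 ≤ x ^ 2 → 0 ≤ Real.log x →
      Real.log x ^ K' ≤ |t| → |t| ≤ (x : ℝ) ^ (2 : ℕ) →
      ‖BoxB_A v0 v1 d u t‖ ≤ 2 * v1 / Real.log x ^ K3 := by
  obtain ⟨K', x0, H⟩ := hVK K3 A (1 / 8) (by norm_num)
  refine ⟨K', x0, fun x hx v0 v1 d u t hd hdL hu hv0 hv hv1 hL ht1 ht2 => ?_⟩
  have hv' : (v0 : ℝ) ≤ v1 := by exact_mod_cast hv
  have e1 := H x hx d u v1 t hd hdL (hv0.trans hv') hv1 ht1 ht2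
  have e2 := H x hx d u v0 t hd hdL hv0 (hv.trans hv1) ht1 ht2
  rw [Nat.mod_eq_of_lt hu] at e1 e2
  have h1 : BoxB_A v0 v1 d u t =
      ∑ n ∈ (Icc 1 v1).filter (fun n => n % d = u), ((Lam n : ℝ) : ℂ) * ee (t * Real.log n) -
      ∑ n ∈ (Icc 1 v0).filter (fun n => n % d = u), ((Lam n : ℝ) : ℂ) * ee (t * Real.log n) := by
    unfold BoxB_A
    rw [eq_sub_iff_add_eq, ← sum_union]
    · apply sum_congr _ (fun _ _ => rfl)
      ext n
      simp only [mem_union, mem_filter, mem_Ioc, mem_Icc]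
      constructor
      · rintro (⟨⟨h3, h4⟩, h5⟩ | ⟨⟨h3, h4⟩, h5⟩)
        · exact ⟨⟨by omega, h4⟩, h5⟩
        · exact ⟨⟨h3, by omega⟩, h5⟩
      · rintro ⟨⟨h3, h4⟩, h5⟩
        by_cases h6 : n ≤ v0
        · exact Or.inr ⟨⟨h3, h6⟩, h5⟩
        · exact Or.inl ⟨⟨by omega, h4⟩, h5⟩
    · rw [Finset.disjoint_left]
      intro n h3 h4
      rw [mem_filter, mem_Ioc] at h3
      rw [mem_filter, mem_Icc] at h4
      omega
  rw [h1]
  have hLp : (0 : ℝ) ≤ Real.log x ^ K3 := pow_nonneg hL _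
  calc _ ≤ _ := norm_sub_le _ _
    _ ≤ (v1 : ℝ) / Real.log x ^ K3 + (v0 : ℝ) / Real.log x ^ K3 := add_le_add e1 e2
    _ ≤ (v1 : ℝ) / Real.log x ^ K3 + (v1 : ℝ) / Real.log x ^ K3 := by
        gcongr
    _ = 2 * v1 / Real.log x ^ K3 := by ring

private theorem BoxB_a_sq (U N d u : ℕ) (c : ℤ) (hU : 1 ≤ U) (hN : 1 ≤ N) :
    ∑ n ∈ Icc 1 N, ‖BoxB_a U d u c n‖ ^ 2 ≤ N * (Real.log N + 1) ^ 3 := by
  have h := Pool.Agent.H91.PK.cV_sq_all U N hU hN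
  refine le_trans (le_of_eq ?_) h
  have h2 : (Ioc U N) = (Icc 1 N).filter (fun n => U < n) := by
    ext n
    simp only [mem_filter, mem_Ioc, mem_Icc]
    constructor
    · rintro ⟨h3, h4⟩
      exact ⟨⟨by omega, h4⟩, h3⟩
    · rintro ⟨⟨_, h4⟩, h3⟩
      exact ⟨h3, h4⟩
  rw [h2, sum_filter]
  apply sum_congr rfl
  intro n _
  unfold BoxB_a
  split_ifs with h3
  · rw [norm_mul, Pool.Agent.H91.PK.LSa_norm_ee, mul_one, Complex.norm_real, Real.norm_eq_abs,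
      sq_abs]
  · simp

theorem boxb (hVK : VK) : ∃ η : ℝ, 0 < η ∧ η ≤ 1 ∧ ∀ K A : ℕ, ∃ K' x0 : ℕ, ∀ x : ℕ, x0 ≤ x →
    ∀ (U N v0 v1 d : ℕ) (c : ℤ) (B : Set ℝ), 1 ≤ d → (d : ℝ) ≤ Real.log x ^ A →
      (x : ℝ) ^ (1 / 8 : ℝ) ≤ U → U ≤ v0 → v0 ≤ v1 → v1 ≤ x ^ 2 → N * v1 ≤ x →
      MeasurableSet B → (∀ t ∈ B, Real.log x ^ K' ≤ |t| ∧ |t| ≤ (x : ℝ) ^ (2 : ℕ)) →
      volume.real B ≤ (x : ℝ) ^ η →
      ∫ t in B, ‖∑ m ∈ Ioc v0 v1, ((Lam m : ℝ) : ℂ) *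
          ∑ n ∈ Ioc U N, ((cV U n : ℝ) : ℂ) * gE ((c : ℝ) / d) t (m * n)‖ ^ 2
        ≤ (x : ℝ) ^ 2 / Real.log x ^ K := by
  obtain ⟨η, hη0, hη1, x1, Hhm⟩ := hm (1 / 8) (by norm_num)
  refine ⟨η, hη0, hη1, fun K A => ?_⟩
  obtain ⟨K', x2, HA⟩ := BoxB_A_le hVK (K + A + 4) A
  obtain ⟨x3, HL⟩ := log_ge 4
  refine ⟨K', max (max x1 x2) (max x3 1), fun x hx U N v0 v1 d c B hd hdL hU hUv hv hv1 hNv hBm hB hBv => ?_⟩
  have hx1 : x1 ≤ x := le_trans (le_trans (le_max_left _ _) (le_max_left _ _)) hx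
  have hx2 : x2 ≤ x := le_trans (le_trans (le_max_right _ _) (le_max_left _ _)) hx
  have hx3 : x3 ≤ x := le_trans (le_trans (le_max_left _ _) (le_max_right _ _)) hx
  have hx4 : 1 ≤ x := le_trans (le_trans (le_max_right _ _) (le_max_right _ _)) hx
  have hL := HL x hx3
  set L := Real.log x with hLdef
  have hL0 : 0 < L := by linarith only [hL]
  have hxr : (1 : ℝ) ≤ x := by exact_mod_cast hx4
  have hU1 : 1 ≤ U := by
    have h1 : (1 : ℝ) ≤ (x : ℝ) ^ (1 / 8 : ℝ) := Real.one_le_rpow hxr (by norm_num)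
    exact_mod_cast h1.trans hU
  rcases Nat.lt_or_ge U N with hUN | hUN
  swap
  · have h1 : Ioc U N = ∅ := Finset.Ioc_eq_empty (by omega)
    simp only [h1, sum_empty, mul_zero, sum_const_zero, norm_zero]
    norm_num
    positivity
  have hN1 : 1 ≤ N := by omega
  have hv11 : 1 ≤ v1 := by omega
  have hNx : N ≤ x := le_trans (Nat.le_mul_of_pos_right N (by omega)) hNv
  have hBsub : B ⊆ Set.Icc (-((x : ℝ) ^ (2 : ℕ))) ((x : ℝ) ^ (2 : ℕ)) := by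
    intro t ht
    have h1 := (hB t ht).2
    rw [abs_le] at h1
    exact h1
  have hKN : (x : ℝ) ^ (1 / 8 : ℝ) ≤ N := by
    have : (U : ℝ) ≤ N := by exact_mod_cast hUN.le
    linarith only [hU, this]
  have hint : ∀ f : ℝ → ℝ, Continuous f → IntegrableOn f B := by
    intro f hf
    exact (hf.continuousOn.integrableOn_compact isCompact_Icc).mono_set hBsub
  set M : ℝ := 2 * v1 / L ^ (K + A + 4) with hM
  have hM0 : 0 ≤ M := by positivity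
  have hpt : ∀ t ∈ B, ‖∑ m ∈ Ioc v0 v1, ((Lam m : ℝ) : ℂ) *
          ∑ n ∈ Ioc U N, ((cV U n : ℝ) : ℂ) * gE ((c : ℝ) / d) t (m * n)‖ ^ 2 ≤
      M ^ 2 * d * ∑ u ∈ range d, ‖BoxB_C U N d u c t‖ ^ 2 := by
    intro t ht
    rw [BoxB_split U N v0 v1 d c hd t]
    have h1 : ‖∑ u ∈ range d, BoxB_A v0 v1 d u t * BoxB_C U N d u c t‖ ≤
        M * ∑ u ∈ range d, ‖BoxB_C U N d u c t‖ := by
      rw [mul_sum]
      refine (norm_sum_le _ _).trans (sum_le_sum fun u hu => ?_)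
      rw [norm_mul]
      apply mul_le_mul_of_nonneg_right _ (norm_nonneg _)
      rw [mem_range] at hu
      have hU' : (x : ℝ) ^ (1 / 8 : ℝ) ≤ v0 := by
        have : (U : ℝ) ≤ v0 := by exact_mod_cast hUv
        linarith only [hU, this]
      exact HA x hx2 v0 v1 d u t hd hdL hu hU' hv hv1 hL0.le (hB t ht).1 (hB t ht).2
    have h2 : (∑ u ∈ range d, ‖BoxB_C U N d u c t‖) ^ 2 ≤
        d * ∑ u ∈ range d, ‖BoxB_C U N d u c t‖ ^ 2 := by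
      have h3 := sq_sum_le_card_mul_sum_sq (s := range d) (f := fun u => ‖BoxB_C U N d u c t‖)
      rwa [card_range] at h3
    calc _ ≤ (M * ∑ u ∈ range d, ‖BoxB_C U N d u c t‖) ^ 2 :=
          pow_le_pow_left₀ (norm_nonneg _) h1 2
      _ = M ^ 2 * (∑ u ∈ range d, ‖BoxB_C U N d u c t‖) ^ 2 := by ring
      _ ≤ M ^ 2 * (d * ∑ u ∈ range d, ‖BoxB_C U N d u c t‖ ^ 2) :=
          mul_le_mul_of_nonneg_left h2 (by positivity)
      _ = _ := by ring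
  have hcontF : Continuous (fun t : ℝ => ‖∑ m ∈ Ioc v0 v1, ((Lam m : ℝ) : ℂ) *
          ∑ n ∈ Ioc U N, ((cV U n : ℝ) : ℂ) * gE ((c : ℝ) / d) t (m * n)‖ ^ 2) := by
    have h1 : (fun t : ℝ => ‖∑ m ∈ Ioc v0 v1, ((Lam m : ℝ) : ℂ) *
          ∑ n ∈ Ioc U N, ((cV U n : ℝ) : ℂ) * gE ((c : ℝ) / d) t (m * n)‖ ^ 2) =
        (fun t : ℝ => ‖∑ u ∈ range d, BoxB_A v0 v1 d u t * BoxB_C U N d u c t‖ ^ 2) := by
      funext t
      rw [BoxB_split U N v0 v1 d c hd t]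
    rw [h1]
    apply Continuous.pow
    apply Continuous.norm
    apply continuous_finsetSum
    intro u _
    exact (BoxB_cont_A _ _ _ _).mul (BoxB_cont_C _ _ _ _ _)
  have hcontC : ∀ u, Continuous (fun t : ℝ => ‖BoxB_C U N d u c t‖ ^ 2) := fun u =>
    ((BoxB_cont_C U N d u c).norm).pow 2
  have hcontG : Continuous (fun t : ℝ => M ^ 2 * d * ∑ u ∈ range d, ‖BoxB_C U N d u c t‖ ^ 2) := by
    apply continuous_const.mul
    apply continuous_finsetSum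
    intro u _
    exact hcontC u
  have h5 : ∀ u ∈ range d, ∫ t in B, ‖BoxB_C U N d u c t‖ ^ 2 ≤ (N : ℝ) ^ 2 * L ^ 6 := by
    intro u _
    have h6 := Hhm x hx1 N (BoxB_a U d u c) B hKN (by exact_mod_cast hNx) hBm hBsub hBv
    have h7 := BoxB_a_sq U N d u c hU1 hN1
    have hlogN0 : 0 ≤ Real.log N := Real.log_nonneg (by exact_mod_cast hN1)
    have hlogN : Real.log N ≤ L := by
      rw [hLdef]
      exact Real.log_le_log (by positivity) (by exact_mod_cast hNx)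
    have h8 : (Real.log N + 1) ^ 3 ≤ L ^ 4 := by
      calc (Real.log N + 1) ^ 3 ≤ (L + 1) ^ 3 := by gcongr
        _ ≤ L ^ 4 := by
            nlinarith only [hL, hL0, pow_nonneg hL0.le 3, mul_nonneg hL0.le hL0.le,
              mul_nonneg (sub_nonneg.2 hL) (pow_nonneg hL0.le 3),
              mul_nonneg (sub_nonneg.2 hL) (pow_nonneg hL0.le 2),
              mul_nonneg (sub_nonneg.2 hL) hL0.le]
    calc ∫ t in B, ‖BoxB_C U N d u c t‖ ^ 2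
        ≤ N * L ^ 2 * ∑ n ∈ Icc 1 N, ‖BoxB_a U d u c n‖ ^ 2 := h6
      _ ≤ N * L ^ 2 * (N * L ^ 4) := by
          apply mul_le_mul_of_nonneg_left _ (by positivity)
          exact h7.trans (mul_le_mul_of_nonneg_left h8 (by positivity))
      _ = (N : ℝ) ^ 2 * L ^ 6 := by ring
  have h9 : ∫ t in B, M ^ 2 * d * ∑ u ∈ range d, ‖BoxB_C U N d u c t‖ ^ 2 ≤
      M ^ 2 * d * (d * ((N : ℝ) ^ 2 * L ^ 6)) := by
    rw [integral_const_mul]
    apply mul_le_mul_of_nonneg_left _ (by positivity)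
    rw [integral_finsetSum _ (fun u _ => hint _ (hcontC u))]
    calc ∑ u ∈ range d, ∫ t in B, ‖BoxB_C U N d u c t‖ ^ 2
        ≤ ∑ u ∈ range d, (N : ℝ) ^ 2 * L ^ 6 := sum_le_sum h5
      _ = d * ((N : ℝ) ^ 2 * L ^ 6) := by
          rw [sum_const, card_range, nsmul_eq_mul]
  calc ∫ t in B, ‖∑ m ∈ Ioc v0 v1, ((Lam m : ℝ) : ℂ) *
          ∑ n ∈ Ioc U N, ((cV U n : ℝ) : ℂ) * gE ((c : ℝ) / d) t (m * n)‖ ^ 2
      ≤ ∫ t in B, M ^ 2 * d * ∑ u ∈ range d, ‖BoxB_C U N d u c t‖ ^ 2 :=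
        setIntegral_mono_on (hint _ hcontF) (hint _ hcontG) hBm hpt
    _ ≤ M ^ 2 * d * (d * ((N : ℝ) ^ 2 * L ^ 6)) := h9
    _ ≤ (x : ℝ) ^ 2 / L ^ K := by
        have hNv' : ((N : ℝ) * v1) ^ 2 ≤ (x : ℝ) ^ 2 := by
          have : (N : ℝ) * v1 ≤ x := by exact_mod_cast hNv
          gcongr
        have hd2 : (d : ℝ) ^ 2 ≤ (L ^ A) ^ 2 := by
          gcongr
        have e1 : M ^ 2 * d * (d * ((N : ℝ) ^ 2 * L ^ 6)) =
            4 * (d : ℝ) ^ 2 * ((N : ℝ) * v1) ^ 2 * L ^ 6 / (L ^ (K + A + 4)) ^ 2 := by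
          rw [hM]
          field_simp
          ring
        rw [e1]
        have e2 : 4 * (d : ℝ) ^ 2 * ((N : ℝ) * v1) ^ 2 * L ^ 6 ≤
            4 * (L ^ A) ^ 2 * (x : ℝ) ^ 2 * L ^ 6 := by
          gcongr
        rw [div_le_div_iff₀ (by positivity) (by positivity)]
        calc 4 * (d : ℝ) ^ 2 * ((N : ℝ) * v1) ^ 2 * L ^ 6 * L ^ K
            ≤ 4 * (L ^ A) ^ 2 * (x : ℝ) ^ 2 * L ^ 6 * L ^ K :=
              mul_le_mul_of_nonneg_right e2 (by positivity)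
          _ ≤ (x : ℝ) ^ 2 * (L ^ (K + A + 4)) ^ 2 := by
              have e3 : (x : ℝ) ^ 2 * (L ^ (K + A + 4)) ^ 2 =
                  (L ^ A) ^ 2 * (x : ℝ) ^ 2 * L ^ 6 * L ^ K * (L ^ K * L ^ 2) := by
                ring
              rw [e3]
              have e4 : (4 : ℝ) ≤ L ^ K * L ^ 2 := by
                have : (1 : ℝ) ≤ L ^ K := one_le_pow₀ (by linarith only [hL])
                nlinarith only [hL, this]
              have e5 : 0 ≤ (L ^ A) ^ 2 * (x : ℝ) ^ 2 * L ^ 6 * L ^ K := by positivity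
              nlinarith only [e4, e5]

end Pool.Agent.H80.LV

end

section

/-!
# LV TyII: the type II sum

Proof.  `q = ⌈L^{2K+40}⌉₊` (`2q ≤ x^{1/8} ≤ U`, `q ≤ y`), `box_dec y U q` with `lam = Lam`, `cc = cV U`.
For `j < J` the box sum is `boxb` (`K5 = K + 2(2K + 44)`) with `v0 = v j`, `v1 = v (j+1) ≤ 2 y ≤ x^2`, `N = y / v (j+1)` (`N v1 ≤ y ≤ x`):
each `∫_B |.|^2 ≤ x^2/L^{K5}`; `J ≤ 4 q L + 1 ≤ L^{2K+43}`; Cauchy: `∫ |∑_{j<J}|^2 ≤ J ∑_j ∫ ≤ J^2 x^2/L^{K5} ≤ x^2/L^{K+2}`.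
`errb` for the rest: `x^2 L^{14}/q^{1/2} ≤ x^2 L^{14 - K - 20}`.  `|a + b|^2 ≤ 2|a|^2 + 2|b|^2`.  `η` = the least of the two.
(If `y < U` the sum is empty; but `U^4 ≤ x`, `x^{1/2} ≤ y` exclude this.)  `K'` is the one of `boxb`.
-/

set_option autoImplicit false

namespace Pool.Agent.H80.LV

open Finset MeasureTheory
open Pool.Agent.H91.PK (ee cV)
open Pool.Agent.H91.EHA (Lam)

theorem TyII_cont (α : ℝ) (n : ℕ) : Continuous (fun t : ℝ => gE α t n) := by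
  unfold gE ee
  fun_prop

theorem TyII_int (F : ℝ → ℂ) (hF : Continuous F) (B : Set ℝ) (Y : ℝ)
    (hY : ∀ t ∈ B, |t| ≤ Y) : IntegrableOn (fun t => ‖F t‖ ^ 2) B := by
  have h1 : IntegrableOn (fun t => ‖F t‖ ^ 2) (Set.Icc (-Y) Y) :=
    (hF.norm.pow 2).continuousOn.integrableOn_compact isCompact_Icc
  exact h1.mono_set fun t ht => abs_le.1 (hY t ht)

/-- the box sum as a function of `t` -/
noncomputable def TyII_box (U N v0 v1 : ℕ) (α t : ℝ) : ℂ :=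
  ∑ m ∈ Ioc v0 v1, ((Lam m : ℝ) : ℂ) * ∑ n ∈ Ioc U N, ((cV U n : ℝ) : ℂ) * gE α t (m * n)

theorem TyII_box_cont (U N v0 v1 : ℕ) (α : ℝ) : Continuous (fun t => TyII_box U N v0 v1 α t) := by
  unfold TyII_box
  refine continuous_finsetSum _ fun m _ => continuous_const.mul ?_
  exact continuous_finsetSum _ fun n _ => continuous_const.mul (TyII_cont α _)

/-- Cauchy for a sum of `J` functions -/
theorem TyII_cauchy (B : Set ℝ) (hB : MeasurableSet B) (J : ℕ) (F : ℕ → ℝ → ℂ)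
    (hF : ∀ j, Continuous (F j)) (Y : ℝ) (hY : ∀ t ∈ B, |t| ≤ Y) (C : ℝ)
    (hC : ∀ j ∈ range J, ∫ t in B, ‖F j t‖ ^ 2 ≤ C) :
    ∫ t in B, ‖∑ j ∈ range J, F j t‖ ^ 2 ≤ (J : ℝ) ^ 2 * C := by
  have h1 : ∫ t in B, ‖∑ j ∈ range J, F j t‖ ^ 2 ≤ ∫ t in B, (J : ℝ) * ∑ j ∈ range J, ‖F j t‖ ^ 2 := by
    refine setIntegral_mono_on ?_ ?_ hB ?_
    · exact TyII_int _ (continuous_finsetSum _ fun j _ => hF j) B Y hY
    · refine Integrable.const_mul ?_ _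
      exact integrable_finsetSum _ fun j _ => TyII_int _ (hF j) B Y hY
    · intro t _
      have h2 : ‖∑ j ∈ range J, F j t‖ ≤ ∑ j ∈ range J, ‖F j t‖ := norm_sum_le _ _
      have h3 := sq_sum_le_card_mul_sum_sq (s := range J) (f := fun j => ‖F j t‖)
      rw [card_range] at h3
      exact (pow_le_pow_left₀ (norm_nonneg _) h2 2).trans h3
  refine h1.trans ?_
  rw [integral_const_mul, integral_finsetSum _ fun j _ => TyII_int _ (hF j) B Y hY]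
  have h4 : ∑ j ∈ range J, ∫ t in B, ‖F j t‖ ^ 2 ≤ (J : ℝ) * C := by
    calc ∑ j ∈ range J, ∫ t in B, ‖F j t‖ ^ 2 ≤ ∑ j ∈ range J, C := sum_le_sum hC
      _ = (J : ℝ) * C := by rw [sum_const, card_range, nsmul_eq_mul]
  calc (J : ℝ) * ∑ j ∈ range J, ∫ t in B, ‖F j t‖ ^ 2 ≤ J * (J * C) :=
        mul_le_mul_of_nonneg_left h4 (Nat.cast_nonneg _)
    _ = (J : ℝ) ^ 2 * C := by ring

theorem TyII_two (B : Set ℝ) (hB : MeasurableSet B) (F G H : ℝ → ℂ) (hF : Continuous F)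
    (hG : Continuous G) (hFG : ∀ t, H t = F t + G t) (Y : ℝ) (hY : ∀ t ∈ B, |t| ≤ Y) :
    ∫ t in B, ‖H t‖ ^ 2 ≤ 2 * (∫ t in B, ‖F t‖ ^ 2) + 2 * (∫ t in B, ‖G t‖ ^ 2) := by
  have i1 : IntegrableOn (fun t => 2 * ‖F t‖ ^ 2) B := (TyII_int F hF B Y hY).const_mul 2
  have i2 : IntegrableOn (fun t => 2 * ‖G t‖ ^ 2) B := (TyII_int G hG B Y hY).const_mul 2
  have h1 : ∫ t in B, ‖H t‖ ^ 2 ≤ ∫ t in B, (2 * ‖F t‖ ^ 2 + 2 * ‖G t‖ ^ 2) := by
    refine setIntegral_mono_on ?_ (i1.add i2) hB ?_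
    · have : H = fun t => F t + G t := funext hFG
      rw [this]
      exact TyII_int _ (hF.add hG) B Y hY
    · intro t _
      rw [hFG]
      have h2 := norm_add_le (F t) (G t)
      have h3 : ‖F t + G t‖ ^ 2 ≤ (‖F t‖ + ‖G t‖) ^ 2 := pow_le_pow_left₀ (norm_nonneg _) h2 2
      nlinarith only [h3, sq_nonneg (‖F t‖ - ‖G t‖)]
  refine h1.trans (le_of_eq ?_)
  have k : ∫ t in B, (2 * ‖F t‖ ^ 2 + 2 * ‖G t‖ ^ 2)
      = (∫ t in B, 2 * ‖F t‖ ^ 2) + ∫ t in B, 2 * ‖G t‖ ^ 2 := integral_add i1 i2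
  rw [k, integral_const_mul, integral_const_mul]

theorem tyII (hVK : VK) : ∃ η : ℝ, 0 < η ∧ η ≤ 1 ∧ ∀ K A : ℕ, ∃ K' x0 : ℕ, ∀ x : ℕ, x0 ≤ x →
    ∀ (U y d : ℕ) (c : ℤ) (B : Set ℝ), 1 ≤ d → (d : ℝ) ≤ Real.log x ^ A →
      (x : ℝ) ^ (1 / 8 : ℝ) ≤ U → U ^ 4 ≤ x → (x : ℝ) ^ (1 / 2 : ℝ) ≤ y → y ≤ x →
      MeasurableSet B → (∀ t ∈ B, Real.log x ^ K' ≤ |t| ∧ |t| ≤ (x : ℝ) ^ (2 : ℕ)) →
      volume.real B ≤ (x : ℝ) ^ η →
      ∫ t in B, ‖∑ m ∈ Ioc U y, ((Lam m : ℝ) : ℂ) *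
          ∑ n ∈ Ioc U (y / m), ((cV U n : ℝ) : ℂ) * gE ((c : ℝ) / d) t (m * n)‖ ^ 2
        ≤ (x : ℝ) ^ 2 / Real.log x ^ K := by
  obtain ⟨η1, h1a, h1b, H1⟩ := boxb hVK
  obtain ⟨η2, h2a, h2b, x2, H2⟩ := errb
  have he1 : min η1 η2 ≤ η1 := min_le_left _ _
  have he2 : min η1 η2 ≤ η2 := min_le_right _ _
  refine ⟨min η1 η2, by positivity, by linarith only [h1b, he1], fun K A => ?_⟩
  generalize min η1 η2 = η at he1 he2
  obtain ⟨K', x1, H1⟩ := H1 (K + 2 * (2 * K + 44)) A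
  obtain ⟨x3, H3⟩ := log_ge 100
  obtain ⟨x4, H4⟩ := log_pow_le (1 / 8) 4 (by norm_num) (by norm_num) (2 * K + 40)
  refine ⟨K', x1 + x2 + x3 + x4 + 2, ?_⟩
  intro x hx U y d c B hd hdA hU hU4 hy hyx hB hBT hv
  have hL : 100 ≤ Real.log x := H3 x (by omega)
  have H4' := H4 x (by omega)
  have H1' := H1 x (by omega)
  have H2' := H2 x (by omega)
  set L := Real.log x with hLdef
  have hL0 : 0 < L := by linarith only [hL]
  have hL1 : 1 ≤ L := by linarith only [hL]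
  have hxN : 2 ≤ x := by omega
  have hx1 : (1 : ℝ) ≤ (x : ℝ) := by exact_mod_cast (by omega : 1 ≤ x)
  have hx0 : (0 : ℝ) < (x : ℝ) := by linarith only [hx1]
  have hLp : ∀ k : ℕ, 1 ≤ L ^ k := fun k => one_le_pow₀ hL1
  have hBx : ∀ t ∈ B, |t| ≤ (x : ℝ) ^ (2 : ℕ) := fun t ht => (hBT t ht).2
  have hv1 : volume.real B ≤ (x : ℝ) ^ η1 :=
    hv.trans (Real.rpow_le_rpow_of_exponent_le hx1 he1)
  have hv2 : volume.real B ≤ (x : ℝ) ^ η2 :=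
    hv.trans (Real.rpow_le_rpow_of_exponent_le hx1 he2)
  set α : ℝ := (c : ℝ) / d with hα
  -- the parameter q
  set Q : ℝ := L ^ (2 * K + 40) with hQ
  have hQ1 : 1 ≤ Q := hLp _
  set q := ⌈Q⌉₊ with hq
  have hq1 : Q ≤ (q : ℝ) := Nat.le_ceil _
  have hq2 : (q : ℝ) ≤ 2 * Q := by
    have := Nat.ceil_lt_add_one (show 0 ≤ Q by linarith only [hQ1])
    linarith only [hQ1, this]
  have hqpos : 1 ≤ q := by
    have : (1 : ℝ) ≤ (q : ℝ) := by linarith only [hQ1, hq1]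
    exact_mod_cast this
  have hqU : 2 * q ≤ U := by
    have h1 : ((2 * q : ℕ) : ℝ) ≤ (U : ℝ) := by
      push_cast
      linarith only [hU, H4', hq2]
    exact_mod_cast h1
  have hUpos : 1 ≤ U := by omega
  have hUy : U ≤ y := by
    have h1 : (U : ℝ) ^ 2 ≤ (x : ℝ) ^ (1 / 2 : ℝ) := by
      have h2 : ((U : ℝ) ^ 2) ^ 2 ≤ (x : ℝ) := by
        have h3 : ((U ^ 4 : ℕ) : ℝ) ≤ (x : ℝ) := by exact_mod_cast hU4
        push_cast at h3
        calc ((U : ℝ) ^ 2) ^ 2 = (U : ℝ) ^ 4 := by ring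
          _ ≤ (x : ℝ) := h3
      have h4 : ((x : ℝ) ^ (1 / 2 : ℝ)) ^ 2 = x := by
        rw [← Real.rpow_natCast, ← Real.rpow_mul hx0.le]
        norm_num
      have h5 : 0 ≤ (x : ℝ) ^ (1 / 2 : ℝ) := Real.rpow_nonneg hx0.le _
      rw [← h4] at h2
      exact le_of_sq_le_sq h2 h5
    have h6 : (U : ℝ) ≤ (U : ℝ) ^ 2 := by
      have : (1 : ℝ) ≤ (U : ℝ) := by exact_mod_cast hUpos
      nlinarith only [hU, H4', hQ1]
    have h7 : (U : ℝ) ≤ (y : ℝ) := by linarith only [hy, h1, h6]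
    exact_mod_cast h7
  have hqy : q ≤ y := by omega
  obtain ⟨J, v, e, hJ, hvU, hvlt, hvy, he, he0, hid⟩ :=
    box_dec y U q hqpos hqU hUy Lam (cV U)
  -- the number of boxes
  have hJL : (J : ℝ) ≤ L ^ (2 * K + 42) := by
    have hy1 : (1 : ℝ) ≤ (y : ℝ) := by exact_mod_cast (by omega : 1 ≤ y)
    have h1 : Real.log y ≤ L := Real.log_le_log (by linarith only [hy1]) (by exact_mod_cast hyx)
    have h0 : 0 ≤ Real.log (y : ℝ) := Real.log_nonneg hy1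
    have h2 : 4 * (q : ℝ) * Real.log y ≤ 4 * (2 * Q) * L := by gcongr
    have h3 : L ^ (2 * K + 42) = Q * L * L := by rw [hQ]; ring
    have h4 : 1 ≤ Q * L := one_le_mul_of_one_le_of_one_le hQ1 hL1
    rw [h3]
    nlinarith only [hL, hQ1, hJ, h2]
  have hJ0 : (0 : ℝ) ≤ (J : ℝ) := Nat.cast_nonneg _
  -- the boxes
  have hbox : ∀ j ∈ range J, ∫ t in B, ‖TyII_box U (y / v (j + 1)) (v j) (v (j + 1)) α t‖ ^ 2
      ≤ (x : ℝ) ^ 2 / L ^ (K + 2 * (2 * K + 44)) := by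
    intro j hj
    rw [mem_range] at hj
    have h1 := hvy j hj
    refine H1' U (y / v (j + 1)) (v j) (v (j + 1)) d c B hd hdA hU (hvU j) (hvlt j).le ?_ ?_ hB hBT hv1
    · calc v (j + 1) ≤ 2 * y := h1
        _ ≤ x * x := Nat.mul_le_mul hxN hyx
        _ = x ^ 2 := by ring
    · exact (Nat.div_mul_le_self _ _).trans hyx
  have hA := TyII_cauchy B hB J (fun j t => TyII_box U (y / v (j + 1)) (v j) (v (j + 1)) α t)
    (fun j => TyII_box_cont _ _ _ _ _) _ hBx _ hbox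
  have hE := H2' U y q e α B hy hyx hqpos hqy he he0 hB (fun t ht => abs_le.1 (hBx t ht)) hv2
  have hH : ∀ t : ℝ, ∑ m ∈ Ioc U y, ((Lam m : ℝ) : ℂ) *
          ∑ n ∈ Ioc U (y / m), ((cV U n : ℝ) : ℂ) * gE α t (m * n)
      = ∑ j ∈ range J, TyII_box U (y / v (j + 1)) (v j) (v (j + 1)) α t
        + ∑ k ∈ Icc 1 y, ((e k : ℝ) : ℂ) * gE α t k := by
    intro t
    rw [hid (fun k => gE α t k)]
    rfl
  have hfin := TyII_two B hB (fun t => ∑ j ∈ range J, TyII_box U (y / v (j + 1)) (v j) (v (j + 1)) α t)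
    (fun t => ∑ k ∈ Icc 1 y, ((e k : ℝ) : ℂ) * gE α t k) _
    (continuous_finsetSum _ fun j _ => TyII_box_cont _ _ _ _ _)
    (continuous_finsetSum _ fun k _ => continuous_const.mul (TyII_cont α k)) hH _ hBx
  refine hfin.trans ?_
  have hA2 : ∫ t in B, ‖∑ j ∈ range J, TyII_box U (y / v (j + 1)) (v j) (v (j + 1)) α t‖ ^ 2
      ≤ (x : ℝ) ^ 2 / L ^ (K + 4) := by
    refine hA.trans ?_
    have h1 : (J : ℝ) ^ 2 ≤ L ^ (4 * K + 84) := by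
      calc (J : ℝ) ^ 2 ≤ (L ^ (2 * K + 42)) ^ 2 := pow_le_pow_left₀ hJ0 hJL 2
        _ = L ^ (4 * K + 84) := by rw [← pow_mul]; congr 1; ring
    calc (J : ℝ) ^ 2 * ((x : ℝ) ^ 2 / L ^ (K + 2 * (2 * K + 44)))
        ≤ L ^ (4 * K + 84) * ((x : ℝ) ^ 2 / L ^ (K + 2 * (2 * K + 44))) :=
          mul_le_mul_of_nonneg_right h1 (by positivity)
      _ = (x : ℝ) ^ 2 / L ^ (K + 4) := by
          have h2 : L ^ (K + 2 * (2 * K + 44)) = L ^ (4 * K + 84) * L ^ (K + 4) := by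
            rw [← pow_add]; congr 1; ring
          rw [h2]
          field_simp
  have hE2 : ∫ t in B, ‖∑ k ∈ Icc 1 y, ((e k : ℝ) : ℂ) * gE α t k‖ ^ 2
      ≤ (x : ℝ) ^ 2 / L ^ (K + 4) := by
    refine hE.trans ?_
    have h1 : L ^ (K + 20) ≤ Real.sqrt q := by
      apply Real.le_sqrt_of_sq_le
      calc (L ^ (K + 20)) ^ 2 = Q := by rw [hQ, ← pow_mul]; congr 1; ring
        _ ≤ q := hq1
    calc (x : ℝ) ^ 2 * L ^ 14 / Real.sqrt q ≤ (x : ℝ) ^ 2 * L ^ 14 / L ^ (K + 20) := by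
          apply div_le_div_of_nonneg_left (by positivity) (by positivity) h1
      _ ≤ (x : ℝ) ^ 2 * L ^ 16 / L ^ (K + 20) := by
          apply div_le_div_of_nonneg_right _ (by positivity)
          apply mul_le_mul_of_nonneg_left _ (by positivity)
          exact pow_le_pow_right₀ hL1 (by norm_num)
      _ = (x : ℝ) ^ 2 / L ^ (K + 4) := by
          have h2 : L ^ (K + 20) = L ^ 16 * L ^ (K + 4) := by ring
          rw [h2]
          field_simp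
  have hlast : 4 * ((x : ℝ) ^ 2 / L ^ (K + 4)) ≤ (x : ℝ) ^ 2 / L ^ K := by
    have h1 : (x : ℝ) ^ 2 / L ^ (K + 4) = (x : ℝ) ^ 2 / L ^ K * (1 / L ^ 4) := by
      rw [pow_add]
      field_simp
    have h2 : 1 / L ^ 4 ≤ 1 / 4 := by
      apply one_div_le_one_div_of_le (by norm_num)
      calc (4 : ℝ) ≤ L := by linarith only [hL]
        _ = L ^ 1 := (pow_one L).symm
        _ ≤ L ^ 4 := pow_le_pow_right₀ hL1 (by norm_num)
    have h3 : 0 ≤ (x : ℝ) ^ 2 / L ^ K := by positivity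
    rw [h1]
    nlinarith only [h2, h3]
  linarith only [hA2, hE2, hlast]

end Pool.Agent.H80.LV

end
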