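import Pool.Agent.H15.TB1.M36
import Pool.Agent.H15.TB1.M64

/-! The parts of this file: H14.CO.GoodC. -/

section

/-!
# CO: the `|M|²`-mass integral of the supremum weight
-/

set_option autoImplicit false

namespace Pool.Agent.H14.CO

open Set MeasureTheory Complex

/-- the density -/
noncomputable def gM (z₀ t : ℝ) : ℝ := ‖Mo z₀ (pt 0 t)‖ ^ 2

theorem gM_nonneg (z₀ t : ℝ) : 0 ≤ gM z₀ t := by unfold gM; positivity

theorem continuous_gM (z₀ : ℝ) : Continuous (gM z₀) := by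
  unfold gM
  have h1 : Continuous fun t : ℝ => pt 0 t := by unfold pt; fun_prop
  exact (((continuous_Mo z₀).comp h1).norm).pow 2

theorem continuous_gw (τ W : ℝ) : Continuous (gw τ W) := by
  unfold gw; fun_prop

/-- one line -/
theorem line_mass (θ : ℝ) (hθ0 : 0 < θ) (hθ1 : θ ≤ 1 / 40) : ∃ C : ℝ, 0 < C ∧ ∀ G : ℝ, 1 ≤ G →
    ∃ T₀ : ℝ, Real.exp 3200 ≤ T₀ ∧ ∀ T : ℝ, T₀ ≤ T → ∀ τ W : ℝ, T ^ (9 / 10 : ℝ) ≤ W → W ≤ T / 2 →
    T ≤ τ → τ ≤ 2 * T → ∀ x : ℝ, |x| = 8 * (G / Real.log T) →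
    Integrable (fun t : ℝ => (∫ y : ℝ, qk (G / Real.log T) y *
      ‖riemannZeta (pt (x : ℝ) (t + y))‖ ^ 2) * (gM (T ^ θ) t * gM (T ^ θ) t) * gw τ W t) ∧
    ∫ t : ℝ, (∫ y : ℝ, qk (G / Real.log T) y *
      ‖riemannZeta (pt (x : ℝ) (t + y))‖ ^ 2) * (gM (T ^ θ) t * gM (T ^ θ) t) * gw τ W t
      ≤ C * Real.exp (C * G) * (W * Real.log T) := by
  obtain ⟨C, hC, hU⟩ := U θ hθ0 hθ1
  obtain ⟨k, hk⟩ : ∃ k : ℕ, k = 301 := ⟨_, rfl⟩
  rw [← hk] at hU
  obtain ⟨Cq, hCq, hq⟩ := qk_moment k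
  set C' : ℝ := max (C * 9 ^ 8 * 40320 * 3 ^ k * Cq) (8 * C + 1) with hC'
  have hC'1 : C * 9 ^ 8 * 40320 * 3 ^ k * Cq ≤ C' := le_max_left _ _
  have hC'2 : 8 * C + 1 ≤ C' := le_max_right _ _
  refine ⟨C', by linarith only [hθ0, hθ1, hC, hC'2], ?_⟩
  intro G hG
  obtain ⟨T₁, hT₁e, hUT⟩ := hU (8 * G) (by linarith only [hθ0, hθ1, hG])
  refine ⟨max T₁ (Real.exp (32 * G)), le_max_of_le_left hT₁e, ?_⟩
  intro T hT τ W hW1 hW2 hτ1 hτ2 x hx
  have hTa : T₁ ≤ T := (le_max_left _ _).trans hT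
  have hTb : Real.exp (32 * G) ≤ T := (le_max_right _ _).trans hT
  have hT0 : 0 < T := (Real.exp_pos _).trans_le hTb
  have hT1 : 1 ≤ T := (Real.one_le_exp (by positivity)).trans hTb
  set L := Real.log T with hL
  have hLG : 32 * G ≤ L := by rw [hL, Real.le_log_iff_exp_le hT0]; exact hTb
  have hL0 : 0 < L := by linarith only [hθ0, hθ1, hG, hLG]
  have hW0 : 0 < W := (Real.rpow_pos_of_pos hT0 _).trans_le hW1
  set R := G / L with hR
  have hR0 : 0 < R := by positivity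
  have hx4 : |x| ≤ 1 / 4 := by
    rw [hx, hR, mul_div_assoc', div_le_iff₀ hL0]; linarith only [hLG]
  set z₀ := T ^ θ
  set Φ : ℝ → ℝ → ℝ := fun t y => qk R y * ‖riemannZeta (pt (x : ℝ) (t + y))‖ ^ 2 *
    (gM z₀ t * gM z₀ t) * gw τ W t with hΦ
  have hΦ0 : ∀ t y, 0 ≤ Φ t y := by
    intro t y
    have h1 := qk_nonneg R y hR0
    have h2 := gM_nonneg z₀ t
    have h3 : 0 ≤ gw τ W t := (Real.exp_pos _).le
    simp only [hΦ]
    positivity
  have hcont : Continuous (Function.uncurry Φ) := by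
    have h1 := (continuous_zeta_line x hx4).comp (continuous_fst.add continuous_snd :
      Continuous fun p : ℝ × ℝ => p.1 + p.2)
    have h2 := (continuous_qk R hR0).comp (continuous_snd : Continuous fun p : ℝ × ℝ => p.2)
    have h3 := (continuous_gM z₀).comp (continuous_fst : Continuous fun p : ℝ × ℝ => p.1)
    have h4 := (continuous_gw τ W).comp (continuous_fst : Continuous fun p : ℝ × ℝ => p.1)
    have h5 : Function.uncurry Φ = fun p : ℝ × ℝ => qk R p.2 *
        ‖riemannZeta (pt (x : ℝ) (p.1 + p.2))‖ ^ 2 * (gM z₀ p.1 * gM z₀ p.1) * gw τ W p.1 := by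
      funext p
      simp only [hΦ, Function.uncurry]
    rw [h5]
    have h6 : Continuous fun p : ℝ × ℝ => ‖riemannZeta (pt (x : ℝ) (p.1 + p.2 : ℝ))‖ ^ 2 :=
      (h1.norm).pow 2
    have h7 : Continuous fun p : ℝ × ℝ => ‖riemannZeta (pt (x : ℝ) (p.1 + p.2))‖ ^ 2 := by
      exact_mod_cast h6
    exact ((h2.mul h7).mul (h3.mul h3)).mul h4
  -- for fixed `y`
  have hfix : ∀ y : ℝ, Integrable (fun t => Φ t y) ∧ ∫ t, Φ t y ≤
      (C * Real.exp (C * (8 * G)) * W * L * (9 * G) ^ 8 * 3 ^ k) *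
        (qk R y * ((1 + |y| / R) ^ 8 * (1 + |y|) ^ k)) := by
    intro y
    have hre : ((x : ℂ) + y * I).re = x := by simp
    have him : ((x : ℂ) + y * I).im = y := by simp
    have hxK : |((x : ℂ) + y * I).re| ≤ 8 * G / L := by
      rw [hre, hx, hR, mul_div_assoc]
    have h0K : |(0 : ℂ).re| ≤ 8 * G / L := by
      rw [Complex.zero_re, abs_zero]; positivity
    obtain ⟨u1, u2⟩ := hUT T hTa τ W hW1 hW2 (x + y * I) 0 0 hxK h0K h0K
    have e1 : ∀ t, Φ t y = qk R y * (‖riemannZeta (pt (x + y * I) t) *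
        (Mo z₀ (pt 0 t) * Mo z₀ (pt 0 t))‖ ^ 2 * gw τ W t) := by
      intro t
      have : pt ((x : ℂ) + y * I) t = pt (x : ℝ) (t + y) := by unfold pt; push_cast; ring
      simp only [hΦ, gM]
      rw [this, norm_mul, norm_mul]
      ring
    have hfe : (fun t => Φ t y) = fun t => qk R y * (‖riemannZeta (pt (x + y * I) t) *
        (Mo z₀ (pt 0 t) * Mo z₀ (pt 0 t))‖ ^ 2 * gw τ W t) := funext e1
    refine ⟨by rw [hfe]; exact u1.const_mul _, ?_⟩
    rw [hfe, integral_const_mul]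
    have hq0 := qk_nonneg R y hR0
    rw [sub_zero, him] at u2
    have b1 : 1 + L * ‖(x : ℂ) + y * I‖ ≤ 9 * G * (1 + |y| / R) := by
      have c1 : ‖(x : ℂ) + y * I‖ ≤ 8 * R + |y| := by
        refine (Complex.norm_le_abs_re_add_abs_im _).trans ?_
        rw [hre, him, hx]
      have c2 : L * (8 * R + |y|) = 8 * G + G * (|y| / R) := by
        rw [hR]; field_simp
      have c3 : 0 ≤ |y| / R := by positivity
      have c4 := mul_le_mul_of_nonneg_left c1 hL0.le
      rw [c2] at c4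
      nlinarith only [hG, c3, c4]
    have b2 : 1 + |τ + y| / T ≤ 3 * (1 + |y|) := by
      have d1 : |τ + y| ≤ 2 * T + |y| := by
        refine (abs_add_le _ _).trans ?_
        rw [abs_of_nonneg (by linarith only [hθ0, hθ1, hτ1, hT1] : 0 ≤ τ)]
        linarith only [hτ2]
      have d2 : |τ + y| / T ≤ 2 + |y| := by
        rw [div_le_iff₀ hT0]
        nlinarith only [hT1, d1, abs_nonneg y]
      linarith only [d2, abs_nonneg y]
    have b0 : 0 ≤ 1 + L * ‖(x : ℂ) + y * I‖ := by positivity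
    have b0' : 0 ≤ 1 + |τ + y| / T := by positivity
    calc qk R y * ∫ t, ‖riemannZeta (pt (x + y * I) t) *
          (Mo z₀ (pt 0 t) * Mo z₀ (pt 0 t))‖ ^ 2 * gw τ W t
        ≤ qk R y * (C * Real.exp (C * (8 * G)) * W * L * ((1 + L * ‖(x : ℂ) + y * I‖) ^ 4 *
          (1 + L * ‖(x : ℂ) + y * I‖) ^ 4) * (1 + |τ + y| / T) ^ k) :=
          mul_le_mul_of_nonneg_left u2 hq0
      _ ≤ qk R y * (C * Real.exp (C * (8 * G)) * W * L * ((9 * G * (1 + |y| / R)) ^ 4 *
          (9 * G * (1 + |y| / R)) ^ 4) * (3 * (1 + |y|)) ^ k) := by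
          gcongr
      _ = _ := by
          rw [mul_pow 3 (1 + |y|) k]
          generalize (1 + |y|) ^ k = P
          generalize (3 : ℝ) ^ k = P2
          ring
  have hmeas : AEStronglyMeasurable (Function.uncurry Φ) (volume.prod volume) :=
    hcont.aestronglyMeasurable
  have hqi := (hq R hR0).1
  have hprod : Integrable (Function.uncurry Φ) (volume.prod volume) := by
    rw [integrable_prod_iff' hmeas]
    refine ⟨Filter.Eventually.of_forall fun y => (hfix y).1, ?_⟩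
    refine (hqi.const_mul (C * Real.exp (C * (8 * G)) * W * L * (9 * G) ^ 8 * 3 ^ k)).mono' ?_ ?_
    · exact hmeas.norm.prod_swap.integral_prod_right'
    · refine Filter.Eventually.of_forall fun y => ?_
      have h1 : ∀ t, ‖Function.uncurry Φ (t, y)‖ = Φ t y := by
        intro t
        simp only [Function.uncurry]
        rw [Real.norm_eq_abs, abs_of_nonneg (hΦ0 t y)]
      simp_rw [h1]
      rw [Real.norm_eq_abs, abs_of_nonneg (integral_nonneg fun t => hΦ0 t y)]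
      exact (hfix y).2
  have hswap : ∫ t, ∫ y, Φ t y = ∫ y, ∫ t, Φ t y := integral_integral_swap hprod
  have hinner : ∀ t, (∫ y, Φ t y) = (∫ y : ℝ, qk R y * ‖riemannZeta (pt (x : ℝ) (t + y))‖ ^ 2) *
      (gM z₀ t * gM z₀ t) * gw τ W t := by
    intro t
    simp only [hΦ]
    rw [integral_mul_const, integral_mul_const]
  have hint := hprod.integral_prod_left
  simp only [Function.uncurry] at hint
  constructor
  · refine hint.congr (Filter.Eventually.of_forall fun t => ?_)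
    exact hinner t
  · rw [← integral_congr_ae (Filter.Eventually.of_forall hinner), hswap]
    calc ∫ y, ∫ t, Φ t y ≤ ∫ y, (C * Real.exp (C * (8 * G)) * W * L * (9 * G) ^ 8 * 3 ^ k) *
          (qk R y * ((1 + |y| / R) ^ 8 * (1 + |y|) ^ k)) := by
          apply integral_mono_of_nonneg
            (Filter.Eventually.of_forall fun y => integral_nonneg fun t => hΦ0 t y)
            (hqi.const_mul _) (Filter.Eventually.of_forall fun y => (hfix y).2)
      _ ≤ (C * Real.exp (C * (8 * G)) * W * L * (9 * G) ^ 8 * 3 ^ k) * Cq := by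
          rw [integral_const_mul]
          exact mul_le_mul_of_nonneg_left (hq R hR0).2 (by positivity)
      _ ≤ C' * Real.exp (C' * G) * (W * L) := by
          have f1 : G ^ 8 ≤ 40320 * Real.exp G := by
            have := Real.pow_div_factorial_le_exp G (by linarith only [hθ0, hθ1, hG]) 8
            rw [div_le_iff₀ (by positivity)] at this
            have h8 : ((Nat.factorial 8 : ℕ) : ℝ) = 40320 := by norm_num [Nat.factorial]
            rw [h8] at this
            linarith only [this]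
          have f2 : Real.exp (C * (8 * G)) * Real.exp G ≤ Real.exp (C' * G) := by
            rw [← Real.exp_add]
            apply Real.exp_le_exp.2
            nlinarith only [hC'2, hG]
          calc (C * Real.exp (C * (8 * G)) * W * L * (9 * G) ^ 8 * 3 ^ k) * Cq
              = (C * 9 ^ 8 * 3 ^ k * Cq) * (Real.exp (C * (8 * G)) * G ^ 8) * (W * L) := by
                rw [mul_pow]
                generalize (3 : ℝ) ^ k = P2
                ring
            _ ≤ (C * 9 ^ 8 * 3 ^ k * Cq) * (Real.exp (C * (8 * G)) * (40320 * Real.exp G)) *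
                (W * L) := by gcongr
            _ = (C * 9 ^ 8 * 40320 * 3 ^ k * Cq) * (Real.exp (C * (8 * G)) * Real.exp G) *
                (W * L) := by
                generalize (3 : ℝ) ^ k = P2
                ring
            _ ≤ C' * Real.exp (C' * G) * (W * L) := by
                gcongr

/-- the mass integral -/
theorem Q_mass (θ : ℝ) (hθ0 : 0 < θ) (hθ1 : θ ≤ 1 / 40) : ∃ C : ℝ, 0 < C ∧ ∀ G : ℝ, 1 ≤ G →
    ∃ T₀ : ℝ, Real.exp 3200 ≤ T₀ ∧ ∀ T : ℝ, T₀ ≤ T → ∀ τ W : ℝ, T ^ (9 / 10 : ℝ) ≤ W → W ≤ T / 2 →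
    T ≤ τ → τ ≤ 2 * T →
    Measurable (Qf (G / Real.log T)) ∧ (∀ t, 0 ≤ Qf (G / Real.log T) t) ∧
    IntegrableOn (fun t : ℝ => (Qf (G / Real.log T) t * gM (T ^ θ) t) * gM (T ^ θ) t)
      (Icc (τ - W) (τ + W)) ∧
    ∫ t in Icc (τ - W) (τ + W), (Qf (G / Real.log T) t * gM (T ^ θ) t) * gM (T ^ θ) t
      ≤ C * Real.exp (C * G) * (W * Real.log T) := by
  obtain ⟨C, hC, hl⟩ := line_mass θ hθ0 hθ1
  refine ⟨Real.exp 1 * 2 * C + C, by positivity, ?_⟩
  intro G hG
  obtain ⟨T₁, hT₁e, hlT⟩ := hl G hG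
  refine ⟨max T₁ (Real.exp (32 * G)), le_max_of_le_left hT₁e, ?_⟩
  intro T hT τ W hW1 hW2 hτ1 hτ2
  have hTa : T₁ ≤ T := (le_max_left _ _).trans hT
  have hTb : Real.exp (32 * G) ≤ T := (le_max_right _ _).trans hT
  have hT0 : 0 < T := (Real.exp_pos _).trans_le hTb
  set L := Real.log T with hL
  have hLG : 32 * G ≤ L := by rw [hL, Real.le_log_iff_exp_le hT0]; exact hTb
  have hL0 : 0 < L := by linarith only [hθ0, hθ1, hG, hLG]
  have hW0 : 0 < W := (Real.rpow_pos_of_pos hT0 _).trans_le hW1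
  set R := G / L with hR
  have hR0 : 0 < R := by positivity
  have hx1 : |-(8 * R)| = 8 * R := by rw [abs_neg, abs_of_pos (by positivity)]
  have hx2 : |8 * R| = 8 * R := abs_of_pos (by positivity)
  have h8 : 8 * R ≤ 1 / 4 := by rw [hR, mul_div_assoc', div_le_iff₀ hL0]; linarith only [hLG]
  have hsplit : ∀ t, Qf R t = (∫ y : ℝ, qk R y * ‖riemannZeta (pt (-(8 * R) : ℝ) (t + y))‖ ^ 2) +
      ∫ y : ℝ, qk R y * ‖riemannZeta (pt (8 * R : ℝ) (t + y))‖ ^ 2 := by
    intro t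
    rw [Qf, ← integral_add (integrable_qz R _ t hR0 (by rw [hx1]; exact h8))
      (integrable_qz R _ t hR0 (by rw [hx2]; exact h8))]
    congr 1
    funext y
    ring
  have hmeas1 : ∀ x : ℝ, |x| ≤ 1 / 4 → Measurable fun t : ℝ =>
      ∫ y : ℝ, qk R y * ‖riemannZeta (pt (x : ℝ) (t + y))‖ ^ 2 := by
    intro x hx
    have h1 := (continuous_zeta_line x hx).comp (continuous_fst.add continuous_snd :
      Continuous fun p : ℝ × ℝ => p.1 + p.2)
    have h2 := (continuous_qk R hR0).comp (continuous_snd : Continuous fun p : ℝ × ℝ => p.2)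
    have h6 : Continuous fun p : ℝ × ℝ => ‖riemannZeta (pt (x : ℝ) (p.1 + p.2 : ℝ))‖ ^ 2 :=
      (h1.norm).pow 2
    have h7 : Continuous fun p : ℝ × ℝ => ‖riemannZeta (pt (x : ℝ) (p.1 + p.2))‖ ^ 2 := by
      exact_mod_cast h6
    have h8 : Continuous fun p : ℝ × ℝ => qk R p.2 *
      ‖riemannZeta (pt (x : ℝ) (p.1 + p.2))‖ ^ 2 := h2.mul h7
    have h9 := (h8.stronglyMeasurable).integral_prod_right' (ν := (volume : Measure ℝ))
    exact h9.measurable
  have hQm : Measurable (Qf R) := by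
    have : Qf R = fun t => (∫ y : ℝ, qk R y * ‖riemannZeta (pt (-(8 * R) : ℝ) (t + y))‖ ^ 2) +
      ∫ y : ℝ, qk R y * ‖riemannZeta (pt (8 * R : ℝ) (t + y))‖ ^ 2 := funext hsplit
    rw [this]
    exact (hmeas1 _ (by rw [hx1]; exact h8)).add (hmeas1 _ (by rw [hx2]; exact h8))
  have hQ0 : ∀ t, 0 ≤ Qf R t := by
    intro t
    rw [Qf]
    apply integral_nonneg
    intro y
    have := qk_nonneg R y hR0
    show 0 ≤ qk R y * (‖riemannZeta (pt (-(8 * R) : ℝ) (t + y))‖ ^ 2 +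
      ‖riemannZeta (pt (8 * R : ℝ) (t + y))‖ ^ 2)
    positivity
  refine ⟨hQm, hQ0, ?_⟩
  obtain ⟨a1, a2⟩ := hlT T hTa τ W hW1 hW2 hτ1 hτ2 (-(8 * R)) hx1
  obtain ⟨b1, b2⟩ := hlT T hTa τ W hW1 hW2 hτ1 hτ2 (8 * R) hx2
  have hfe : ∀ t, (Qf R t * gM (T ^ θ) t) * gM (T ^ θ) t * gw τ W t =
      (∫ y : ℝ, qk R y * ‖riemannZeta (pt (-(8 * R) : ℝ) (t + y))‖ ^ 2) *
        (gM (T ^ θ) t * gM (T ^ θ) t) * gw τ W t +
      (∫ y : ℝ, qk R y * ‖riemannZeta (pt (8 * R : ℝ) (t + y))‖ ^ 2) *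
        (gM (T ^ θ) t * gM (T ^ θ) t) * gw τ W t := by
    intro t
    rw [hsplit t]
    ring
  have hI : Integrable fun t => (Qf R t * gM (T ^ θ) t) * gM (T ^ θ) t * gw τ W t := by
    rw [funext hfe]
    exact a1.add b1
  have hM : ∫ t, (Qf R t * gM (T ^ θ) t) * gM (T ^ θ) t * gw τ W t ≤
      2 * (C * Real.exp (C * G) * (W * L)) := by
    rw [funext hfe, integral_add a1 b1]
    linarith only [a2, b2]
  have hg := continuous_gM (T ^ θ)
  obtain ⟨r1, r2⟩ := interval_of_gauss (fun t => (Qf R t * gM (T ^ θ) t) * gM (T ^ θ) t)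
    (fun t => mul_nonneg (mul_nonneg (hQ0 t) (gM_nonneg _ t)) (gM_nonneg _ t)) τ W _ hW0
    ((hQm.mul hg.measurable).mul hg.measurable).aestronglyMeasurable hI hM
  refine ⟨r1, r2.trans ?_⟩
  have e1 : Real.exp (C * G) ≤ Real.exp ((Real.exp 1 * 2 * C + C) * G) := by
    apply Real.exp_le_exp.2
    have : 0 ≤ Real.exp 1 * 2 * C := by positivity
    nlinarith only [hG, this]
  calc Real.exp 1 * (2 * (C * Real.exp (C * G) * (W * L)))
      = (Real.exp 1 * 2 * C) * Real.exp (C * G) * (W * L) := by ring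
    _ ≤ (Real.exp 1 * 2 * C + C) * Real.exp ((Real.exp 1 * 2 * C + C) * G) * (W * L) := by
        have hWL : 0 ≤ W * L := by positivity
        apply mul_le_mul_of_nonneg_right _ hWL
        apply mul_le_mul (by linarith only [hC]) e1 (Real.exp_pos _).le (by positivity)

end Pool.Agent.H14.CO

end
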