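import Pool.Agent.H15.TB1.M46
import Pool.Agent.H15.TB1.M47
import Pool.Agent.H15.TB1.M62
import Pool.Agent.H15.TB1.M69
import Pool.Agent.H15.TB1.M70
import Pool.Agent.H15.TB1.M71
import Pool.Agent.H15.TB1.M72
import Pool.Agent.H15.TB1.M73

/-! The parts of this file: H76.VKT.FkUp, H76.VKT.Exp, H76.VKT.Chain, H97.VK.Chain, H88.PSI.PtB, H88.E58.Bx, H88.E58.Pc, H97.VK.VkChi, H97.VK.VkClass. -/

section

/-!
# VKT (H97/VK of helper97 with the parameter `T0.t` in place of `9/10`, `t1` in place of `19/20`) FkUp: bounds for the series of `Λ(n) ψ(n) (log n)^k`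

Proof.  `Lk_succ_eq` (`EHA/SwF.lean`): `Lk (k+1) = ∑_{i ≤ k} C(k,i) Lk i · Fk (k-i)`; solve for `Fk k` and use strong induction on `k`, `lk_low`, `lk_up`:
`‖Fk k‖ ≤ (LL^7/c) (C L9^{k+1} LL^{k+2} + ∑_{1≤i≤k} C(k,i) C L9^i LL^{i+1} · C' L9^{k-i+1} LL^{20(k-i+1)}) ≤ C'' L9^{k+1} LL^{20(k+1)}`
(`7 + k + 2 ≤ 20(k+1)`, `7 + i + 1 + 20(k-i+1) ≤ 20(k+1)` for `i ≥ 1`).
-/

set_option autoImplicit false

namespace Pool.Agent.H76.VKT

open Finset
open Pool.Agent.H91.EHA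

theorem fk_up_h [T0] (h_lk_low : lk_low_P) (h_lk_up : lk_up_P)  (k B : ℕ) : ∃ C : ℝ, 1 ≤ C ∧ ∃ K' x0 : ℕ, ∀ x : ℕ, x0 ≤ x → ∀ (d : ℕ) (χ : DirichletCharacter ℂ d) (s : ℂ),
    1 ≤ d → (d : ℝ) ≤ Real.log x ^ B → 1 + 1 / (4 * Real.log x) ≤ s.re → s.re ≤ 2 →
    Real.log x ^ K' ≤ |s.im| → |s.im| ≤ 3 * (x : ℝ) ^ (3 : ℕ) →
    ‖Fk (qm x d) (ch x χ) k s‖ ≤ C * L9 x ^ (k + 1) * LL x ^ (20 * (k + 1)) := by
  induction k using Nat.strong_induction_on with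
  | _ k ih =>
  have hlk : ∀ i : ℕ, ∃ C : ℝ, 1 ≤ C ∧ ∃ K' x0 : ℕ, ∀ x : ℕ, x0 ≤ x →
      ∀ (d : ℕ) (χ : DirichletCharacter ℂ d) (s : ℂ),
      1 ≤ d → (d : ℝ) ≤ Real.log x ^ B → 1 + 1 / (4 * Real.log x) ≤ s.re → s.re ≤ 2 →
      Real.log x ^ K' ≤ |s.im| → |s.im| ≤ 6 * (x : ℝ) ^ (3 : ℕ) →
      ‖Lk (qm x d) (ch x χ) i s‖ ≤ C * L9 x ^ i * LL x ^ (i + 1) := fun i => h_lk_up i B
  have hfk : ∀ j : ℕ, ∃ C : ℝ, 1 ≤ C ∧ ∃ K' x0 : ℕ, j < k → ∀ x : ℕ, x0 ≤ x →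
      ∀ (d : ℕ) (χ : DirichletCharacter ℂ d) (s : ℂ),
      1 ≤ d → (d : ℝ) ≤ Real.log x ^ B → 1 + 1 / (4 * Real.log x) ≤ s.re → s.re ≤ 2 →
      Real.log x ^ K' ≤ |s.im| → |s.im| ≤ 3 * (x : ℝ) ^ (3 : ℕ) →
      ‖Fk (qm x d) (ch x χ) j s‖ ≤ C * L9 x ^ (j + 1) * LL x ^ (20 * (j + 1)) := by
    intro j
    rcases lt_or_ge j k with h | h
    · obtain ⟨C, hC, K', x0, hx⟩ := ih j h
      exact ⟨C, hC, K', x0, fun _ => hx⟩
    · exact ⟨1, le_rfl, 0, 0, fun h' => absurd h' (by omega)⟩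
  choose CL hCL KL xL hL using hlk
  choose CF hCF KF xF hF using hfk
  obtain ⟨c, hc, hc1, K0, xc, hlow⟩ := h_lk_low B
  obtain ⟨xe, hxe⟩ := yx_ev
  obtain ⟨S, hS⟩ : ∃ S : ℝ, S = CL (k + 1) +
      ∑ i ∈ range k, (k.choose (i + 1) : ℝ) * (CL (i + 1) * CF (k - (i + 1))) := ⟨_, rfl⟩
  have hS1 : 1 ≤ S := by
    rw [hS]
    have h1 : 0 ≤ ∑ i ∈ range k, (k.choose (i + 1) : ℝ) * (CL (i + 1) * CF (k - (i + 1))) :=
      sum_nonneg fun i _ => mul_nonneg (by positivity)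
        (mul_nonneg (by linarith only [hCL, hCL (i + 1)]) (by linarith only [hCF, hCF (k - (i + 1))]))
    linarith only [h1, hCL, hCL (k + 1)]
  refine ⟨S / c, ?_, K0 + ∑ i ∈ range (k + 2), KL i + ∑ i ∈ range (k + 2), KF i,
    xc + xe + ∑ i ∈ range (k + 2), xL i + ∑ i ∈ range (k + 2), xF i, ?_⟩
  · rw [le_div_iff₀ hc]; linarith
  intro x hx d χ s hd hdB hs1 hs2 him1 him2
  have hxL : ∀ i, i < k + 2 → xL i ≤ x := by
    intro i hi
    have h1 : xL i ≤ ∑ i ∈ range (k + 2), xL i :=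
      single_le_sum (f := xL) (fun _ _ => Nat.zero_le _) (mem_range.2 hi)
    omega
  have hxF : ∀ i, i < k + 2 → xF i ≤ x := by
    intro i hi
    have h1 : xF i ≤ ∑ i ∈ range (k + 2), xF i :=
      single_le_sum (f := xF) (fun _ _ => Nat.zero_le _) (mem_range.2 hi)
    omega
  obtain ⟨-, -, -, hLL1, hL91, hlog1, -⟩ := hxe x (by omega)
  have himp : ∀ K : ℕ, K ≤ K0 + ∑ i ∈ range (k + 2), KL i + ∑ i ∈ range (k + 2), KF i →
      Real.log x ^ K ≤ |s.im| := fun K hK =>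
    (pow_le_pow_right₀ hlog1 hK).trans him1
  have hKL : ∀ i, i < k + 2 → Real.log x ^ KL i ≤ |s.im| := by
    intro i hi
    refine himp _ ?_
    have h1 : KL i ≤ ∑ i ∈ range (k + 2), KL i :=
      single_le_sum (f := KL) (fun _ _ => Nat.zero_le _) (mem_range.2 hi)
    omega
  have hKF : ∀ i, i < k + 2 → Real.log x ^ KF i ≤ |s.im| := by
    intro i hi
    refine himp _ ?_
    have h1 : KF i ≤ ∑ i ∈ range (k + 2), KF i :=
      single_le_sum (f := KF) (fun _ _ => Nat.zero_le _) (mem_range.2 hi)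
    omega
  have hx3 : (0:ℝ) ≤ (x : ℝ) ^ (3 : ℕ) := by positivity
  have him6 : |s.im| ≤ 6 * (x : ℝ) ^ (3 : ℕ) := by linarith only [him2, hx3]
  have hs : 1 < s.re := by
    have h1 : 0 < 1 / (4 * Real.log x) := by positivity
    linarith only [hs1, h1]
  have hLi : ∀ i, i < k + 2 →
      ‖Lk (qm x d) (ch x χ) i s‖ ≤ CL i * L9 x ^ i * LL x ^ (i + 1) := fun i hi =>
    hL i x (hxL i hi) d χ s hd hdB hs1 hs2 (hKL i hi) him6
  have hFi : ∀ j, j < k →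
      ‖Fk (qm x d) (ch x χ) j s‖ ≤ CF j * L9 x ^ (j + 1) * LL x ^ (20 * (j + 1)) := fun j hj =>
    hF j hj x (hxF j (by omega)) d χ s hd hdB hs1 hs2 (hKF j (by omega)) him2
  have hlow' := hlow x (by omega) d χ s hd hdB hs1 hs2 (himp K0 (by omega)) him2
  obtain ⟨a, ha⟩ : ∃ a, a = L9 x := ⟨_, rfl⟩
  obtain ⟨l, hl⟩ : ∃ l, l = LL x := ⟨_, rfl⟩
  rw [← ha] at hL91
  rw [← hl] at hLL1
  simp only [← ha, ← hl] at hLi hFi hlow' ⊢
  have ha0 : 0 < a := by linarith only [hL91]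
  have hl0 : 0 < l := by linarith only [hLL1]
  have heq := Lk_succ_eq (qm x d) (ch x χ) k s hs
  rw [Finset.sum_range_succ'] at heq
  simp only [Nat.choose_zero_right, Nat.cast_one, one_mul, Nat.sub_zero] at heq
  have h1 : Lk (qm x d) (ch x χ) 0 s * Fk (qm x d) (ch x χ) k s =
      Lk (qm x d) (ch x χ) (k + 1) s -
      ∑ i ∈ range k, (k.choose (i + 1) : ℂ) * (Lk (qm x d) (ch x χ) (i + 1) s *
        Fk (qm x d) (ch x χ) (k - (i + 1)) s) := by
    rw [heq]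
    ring
  have h2 : ‖Lk (qm x d) (ch x χ) (k + 1) s‖ ≤ CL (k + 1) * (a ^ (k + 1) * l ^ (20 * k + 13)) := by
    refine (hLi (k + 1) (by omega)).trans ?_
    rw [mul_assoc]
    refine mul_le_mul_of_nonneg_left ?_ (by linarith only [hCL, hCL (k + 1)])
    exact mul_le_mul_of_nonneg_left (pow_le_pow_right₀ hLL1 (by omega)) (by positivity)
  have h3 : ∀ i ∈ range k, ‖(k.choose (i + 1) : ℂ) * (Lk (qm x d) (ch x χ) (i + 1) s *
        Fk (qm x d) (ch x χ) (k - (i + 1)) s)‖ ≤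
      (k.choose (i + 1) : ℝ) * (CL (i + 1) * CF (k - (i + 1))) *
        (a ^ (k + 1) * l ^ (20 * k + 13)) := by
    intro i hi
    rw [mem_range] at hi
    rw [norm_mul, norm_mul, Complex.norm_natCast, mul_assoc]
    refine mul_le_mul_of_nonneg_left ?_ (by positivity)
    have hA := hLi (i + 1) (by omega)
    have hB := hFi (k - (i + 1)) (by omega)
    have hc1' := hCL (i + 1)
    have hc2' := hCF (k - (i + 1))
    calc ‖Lk (qm x d) (ch x χ) (i + 1) s‖ * ‖Fk (qm x d) (ch x χ) (k - (i + 1)) s‖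
        ≤ (CL (i + 1) * a ^ (i + 1) * l ^ (i + 1 + 1)) *
          (CF (k - (i + 1)) * a ^ (k - (i + 1) + 1) * l ^ (20 * (k - (i + 1) + 1))) :=
          mul_le_mul hA hB (norm_nonneg _) (by positivity)
      _ = CL (i + 1) * CF (k - (i + 1)) * (a ^ ((i + 1) + (k - (i + 1) + 1)) *
          l ^ ((i + 1 + 1) + 20 * (k - (i + 1) + 1))) := by
          rw [pow_add a (i + 1), pow_add l (i + 1 + 1)]; ring
      _ ≤ CL (i + 1) * CF (k - (i + 1)) * (a ^ (k + 1) * l ^ (20 * k + 13)) := by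
          refine mul_le_mul_of_nonneg_left ?_ (mul_nonneg (by linarith only [hc1']) (by linarith only [hc2']))
          rw [show (i + 1) + (k - (i + 1) + 1) = k + 1 by omega]
          exact mul_le_mul_of_nonneg_left (pow_le_pow_right₀ hLL1 (by omega)) (by positivity)
  have h4 : ‖Lk (qm x d) (ch x χ) 0 s‖ * ‖Fk (qm x d) (ch x χ) k s‖ ≤
      S * (a ^ (k + 1) * l ^ (20 * k + 13)) := by
    rw [← norm_mul, h1]
    refine (norm_sub_le _ _).trans ?_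
    rw [hS, add_mul, sum_mul]
    exact add_le_add h2 ((norm_sum_le _ _).trans (sum_le_sum h3))
  have h5 : c / l ^ 7 * ‖Fk (qm x d) (ch x χ) k s‖ ≤ S * (a ^ (k + 1) * l ^ (20 * k + 13)) :=
    (mul_le_mul_of_nonneg_right hlow' (norm_nonneg _)).trans h4
  have h6 : ‖Fk (qm x d) (ch x χ) k s‖ ≤ (S * (a ^ (k + 1) * l ^ (20 * k + 13))) / (c / l ^ 7) := by
    rw [le_div_iff₀ (by positivity), mul_comm]
    exact h5
  refine h6.trans (le_of_eq ?_)
  rw [show 20 * (k + 1) = (20 * k + 13) + 7 by ring, pow_add l (20 * k + 13) 7]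
  field_simp

end Pool.Agent.H76.VKT

end

section

/-!
# VKT (H97/VK of helper97 with the parameter `T0.t` in place of `9/10`, `t1` in place of `19/20`) Exp: saving every power of `log x` for `K ≥ exp((log x)^{9/10})`

Proof.  Let `L = log x`, `M0 = K / L^{A+2}`.  The terms `n ≤ M0` contribute at most `K / L^{A+2} + 1`.  Cut `(M0, b]` into `≤ (A+2) log L/log 2 + 2 ≤ L` intervals
`(a', b'] ⊂ (M, 2M]`, `M ≥ M0/2 ≥ exp(L^{9/10}/2)`, `M ≤ K`.
Block with `|t| ≤ M^{1/3}`: `EHB.low_sum`: `≤ 4 M/|t| + 7 M^{1/3}`.  Block with `M^{1/3} ≤ |t| ≤ M^{12}`: `EHB.vdc 12`: `≤ C0 M^{1-δ0}`.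
Block with `|t| > M^{12}`: let `κ = ⌈log|t|/(4 log M)⌉₊ ≥ 4` (as `|t| > M^{12}` the quotient is `> 3`); then `M^{4κ-4} ≤ |t| ≤ M^{4κ}`, `κ ≤ 3L/(4·L^{9/10}/2) + 1 ≤ 3 L^{1/10}`,
and `(Cκ)^C ≤ L^{C} ≤ M`: `vexp`: `≤ C M exp(-c L^{9/10}/(2·9 L^{2/10})) ≤ C M exp(-c' L^{7/10}) ≤ M/L^{A+2}` for large `x`.
The `M = M0 2^i` sum to at most `4K`; so the total is `≤ 16 K/|t| + K/L^A`.
-/

set_option autoImplicit false

namespace Pool.Agent.H76.VKT

open Finset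
open Pool.Agent.H91.PK (ee)

private theorem Exp_triv (a b : ℕ) (β t : ℝ) :
    ‖∑ n ∈ Ioc a b, ee (t * Real.log (n + β))‖ ≤ b := by
  have h1 : ‖∑ n ∈ Ioc a b, ee (t * Real.log (n + β))‖ ≤ ∑ n ∈ Ioc a b, (1 : ℝ) := by
    refine (norm_sum_le _ _).trans (Finset.sum_le_sum fun n _ => ?_)
    rw [Pool.Agent.H91.PK.LSa_norm_ee]
  refine h1.trans ?_
  rw [Finset.sum_const, Nat.card_Ioc, nsmul_eq_mul, mul_one]
  exact_mod_cast Nat.sub_le b a

/-- dyadic induction -/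
private theorem Exp_all (T E β t : ℝ) (hT : 3 ≤ T) (hE : 0 ≤ E)
    (h : ∀ M a b : ℕ, T / 2 ≤ M → M ≤ a → b ≤ 2 * M →
      ‖∑ n ∈ Ioc a b, ee (t * Real.log (n + β))‖ ≤ E * M) (b : ℕ) :
    ∀ a : ℕ, ‖∑ n ∈ Ioc a b, ee (t * Real.log (n + β))‖ ≤ T + 2 * E * b := by
  induction b using Nat.strong_induction_on with
  | _ b ih =>
    intro a
    have hG : 0 ≤ 2 * E * (b : ℝ) := by positivity
    rcases le_or_gt (b : ℝ) T with hbT | hbT
    · have := Exp_triv a b β t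
      linarith only [hG, hbT, this]
    · have hb3 : 3 < b := by
        have : (3 : ℝ) < b := by linarith
        exact_mod_cast this
      set M := (b + 1) / 2 with hMdef
      have hMb : M < b := by omega
      have hM1 : 1 ≤ M := by omega
      have hb2 : b ≤ 2 * M := by omega
      have h3M : 3 * M ≤ 2 * b := by omega
      have hMr : (M : ℝ) ≤ 2 / 3 * b := by
        have : (3 : ℝ) * M ≤ 2 * b := by exact_mod_cast h3M
        linarith only [this]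
      have hMT : T / 2 ≤ (M : ℝ) := by
        have : (b : ℝ) ≤ 2 * M := by exact_mod_cast hb2
        linarith only [hbT, this]
      have hEM : E * (M : ℝ) ≤ E * (2 / 3 * b) := mul_le_mul_of_nonneg_left hMr hE
      rcases le_or_gt M a with haM | haM
      · have h := h M a b hMT haM hb2
        nlinarith only [hT, hG, hEM, h]
      · have h := h M M b hMT le_rfl hb2
        have h' := ih M hMb a
        have e : ∑ n ∈ Ioc a b, ee (t * Real.log (n + β)) =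
            ∑ n ∈ Ioc a M, ee (t * Real.log (n + β)) +
              ∑ n ∈ Ioc M b, ee (t * Real.log (n + β)) :=
          (Finset.sum_Ioc_consecutive _ haM.le hMb.le).symm
        rw [e]
        have := norm_add_le (∑ n ∈ Ioc a M, ee (t * Real.log (n + β)))
          (∑ n ∈ Ioc M b, ee (t * Real.log (n + β)))
        nlinarith only [hEM, h, h', this]

/-- exponentials beat powers -/
private theorem Exp_ev (D s c e : ℝ) (hc : 0 < c) (he : 0 < e) :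
    ∀ᶠ L : ℝ in Filter.atTop, D * L ^ s ≤ Real.exp (c * L ^ e) := by
  have h1 := isLittleO_rpow_exp_pos_mul_atTop (s / e) hc
  have hD : 0 < 1 / (|D| + 1) := by positivity
  have h2 := h1.def hD
  have h3 := (tendsto_rpow_atTop he).eventually h2
  filter_upwards [h3, Filter.eventually_ge_atTop 1] with L hL hL1
  have hL0 : 0 ≤ L := by linarith only [hL1]
  rw [← Real.rpow_mul hL0] at hL
  have e1 : e * (s / e) = s := by field_simp
  rw [e1, Real.norm_of_nonneg (Real.rpow_nonneg hL0 _), Real.norm_of_nonneg (Real.exp_pos _).le,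
    div_mul_eq_mul_div, le_div_iff₀ (by positivity), one_mul] at hL
  have h0 : 0 ≤ L ^ s := Real.rpow_nonneg hL0 _
  calc D * L ^ s ≤ (|D| + 1) * L ^ s :=
        mul_le_mul_of_nonneg_right (by linarith only [le_abs_self D]) h0
    _ = L ^ s * (|D| + 1) := mul_comm _ _
    _ ≤ _ := hL

theorem vk_exp_h [T0] (h_vexp : Pool.Agent.H97.VK.vexp_P)  (A : ℕ) : ∃ x0 : ℕ, ∀ x : ℕ, x0 ≤ x → ∀ (K a b : ℕ) (β t : ℝ),
    Real.exp (Real.log x ^ T0.t) ≤ K → K ≤ x → b ≤ K → 0 ≤ β → β ≤ 1 →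
    1 ≤ |t| → |t| ≤ (x : ℝ) ^ (3 : ℕ) →
    ‖∑ n ∈ Ioc a b, ee (t * Real.log (n + β))‖ ≤ K * (100 / |t| + 1 / Real.log x ^ A) := by
  have hlo := T0.lo
  have hhi := T0.hi
  obtain ⟨c, C, hc, hC, hve⟩ := h_vexp
  obtain ⟨δ0, C0, hδ0, hδ01, hC0, hv⟩ := Pool.Agent.H76.EHB.vdc 12
  have key : ∀ᶠ L : ℝ in Filter.atTop,
      1 ≤ L ∧ 4 * L ^ (A : ℝ) ≤ Real.exp (1 / 2 * L ^ T0.t) ∧
      28 * L ^ (A : ℝ) ≤ Real.exp (1 / 3 * L ^ T0.t) ∧
      4 * C0 * L ^ (A : ℝ) ≤ Real.exp (δ0 / 2 * L ^ T0.t) ∧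
      (3 * C) ^ C * L ^ (C * (1 - T0.t)) ≤ Real.exp (1 / 2 * L ^ T0.t) ∧
      4 * C * L ^ (A : ℝ) ≤ Real.exp (c / 18 * L ^ (3 * T0.t - 2)) := by
    filter_upwards [Filter.eventually_ge_atTop 1,
      Exp_ev 4 A (1 / 2) T0.t (by norm_num) (by linarith only [hlo, hhi]),
      Exp_ev 28 A (1 / 3) T0.t (by norm_num) (by linarith only [hlo, hhi]),
      Exp_ev (4 * C0) A (δ0 / 2) T0.t (by positivity) (by linarith only [hlo, hhi]),
      Exp_ev ((3 * C) ^ C) (C * (1 - T0.t)) (1 / 2) T0.t (by norm_num) (by linarith only [hlo, hhi]),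
      Exp_ev (4 * C) A (c / 18) (3 * T0.t - 2) (by positivity) (by linarith only [hlo])] with L h1 h2 h3 h4 h5 h6
    exact ⟨h1, h2, h3, h4, h5, h6⟩
  have key2 := (Real.tendsto_log_atTop.comp tendsto_natCast_atTop_atTop).eventually key
  obtain ⟨x0, hx0⟩ := Filter.eventually_atTop.1 key2
  refine ⟨x0, ?_⟩
  intro x hx K a b β t hK hKx hb hβ hβ1 ht1 ht
  obtain ⟨hL1, k1, k2, k3, k4, k5⟩ := hx0 x hx
  simp only [Function.comp_apply] at hL1 k1 k2 k3 k4 k5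
  set L := Real.log x with hLdef
  rw [Real.rpow_natCast] at k1 k2 k3 k5
  have hL0 : 0 < L := by linarith only [hlo, hhi, hL1]
  have hLA : 0 < L ^ A := by positivity
  have hxpos : (0 : ℝ) < x := by
    rcases Nat.eq_zero_or_pos x with h | h
    · rw [hLdef, h] at hL0
      simp at hL0
    · exact_mod_cast h
  have ht0 : 0 < |t| := by linarith only [hlo, hhi, ht1]
  set Q := L ^ T0.t with hQ
  have hQ1 : 1 ≤ Q := Real.one_le_rpow hL1 (by linarith only [hlo, hhi])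
  have hK0 : (0 : ℝ) < K := lt_of_lt_of_le (Real.exp_pos _) hK
  have hKe : Real.exp (Q / 2) * (4 * L ^ A) ≤ K := by
    calc Real.exp (Q / 2) * (4 * L ^ A) ≤ Real.exp (Q / 2) * Real.exp (1 / 2 * Q) :=
          mul_le_mul_of_nonneg_left k1 (Real.exp_pos _).le
      _ = Real.exp Q := by rw [← Real.exp_add]; congr 1; ring
      _ ≤ K := hK
  set T : ℝ := K / (2 * L ^ A) with hT
  have hT2 : Real.exp (Q / 2) ≤ T / 2 := by
    rw [hT, div_div, le_div_iff₀ (by positivity)]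
    calc Real.exp (Q / 2) * (2 * L ^ A * 2) = Real.exp (Q / 2) * (4 * L ^ A) := by ring
      _ ≤ K := hKe
  have hT3 : 3 ≤ T := by
    have h1 : Q / 2 + 1 ≤ Real.exp (Q / 2) := Real.add_one_le_exp _
    linarith only [hQ1, hT2, h1]
  set E : ℝ := 1 / (4 * L ^ A) + 4 / |t| with hE
  have hE0 : 0 ≤ E := by positivity
  have hpiece : ∀ M a b : ℕ, T / 2 ≤ M → M ≤ a → b ≤ 2 * M →
      ‖∑ n ∈ Ioc a b, ee (t * Real.log (n + β))‖ ≤ E * M := by
    intro M a b hM ha hb2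
    have hMe : Real.exp (Q / 2) ≤ M := hT2.trans hM
    have hM0 : (0 : ℝ) < M := lt_of_lt_of_le (Real.exp_pos _) hMe
    have hM1r : (1 : ℝ) ≤ M := by
      have h1 : Q / 2 + 1 ≤ Real.exp (Q / 2) := Real.add_one_le_exp _
      linarith only [hlo, hhi, hT3, hM]
    have hM1 : 1 ≤ M := by exact_mod_cast hM1r
    have hlogM : Q / 2 ≤ Real.log M := (Real.le_log_iff_exp_le hM0).2 hMe
    have hlogM0 : 0 < Real.log M := by linarith only [hlo, hhi, hQ1, hlogM]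
    have hpow : ∀ s : ℝ, 0 ≤ s → Real.exp (s * (Q / 2)) ≤ (M : ℝ) ^ s := by
      intro s hs
      rw [Real.rpow_def_of_pos hM0]
      apply Real.exp_le_exp.2
      nlinarith only [hlo, hhi, hlogM, hs]
    have hEM : E * M = M / (4 * L ^ A) + 4 * M / |t| := by rw [hE]; ring
    have h4t : 0 ≤ 4 * (M : ℝ) / |t| := by positivity
    rw [hEM]
    rcases le_or_gt ((M : ℝ) ^ (1 / 3 : ℝ)) |t| with h | h
    · rcases le_or_gt |t| ((M : ℝ) ^ 12) with h12 | h12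
      · refine (hv M a b β t hM1 ha hb2 hβ hβ1 h h12).trans ?_
        have e1 : (M : ℝ) ^ (1 - δ0) = M / (M : ℝ) ^ δ0 := by
          rw [Real.rpow_sub hM0, Real.rpow_one]
        have hp := hpow δ0 hδ0.le
        have hp0 : 0 < (M : ℝ) ^ δ0 := Real.rpow_pos_of_pos hM0 _
        have k3' : 4 * C0 * L ^ A ≤ (M : ℝ) ^ δ0 := by
          refine k3.trans ?_
          have : δ0 / 2 * Q = δ0 * (Q / 2) := by ring
          rw [this]
          exact hp
        have h1 : C0 * (M : ℝ) ^ (1 - δ0) ≤ M / (4 * L ^ A) := by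
          rw [e1, ← mul_div_assoc, div_le_div_iff₀ hp0 (by positivity)]
          calc C0 * (M : ℝ) * (4 * L ^ A) = M * (4 * C0 * L ^ A) := by ring
            _ ≤ M * (M : ℝ) ^ δ0 := mul_le_mul_of_nonneg_left k3' hM0.le
        linarith only [h4t, h1]
      · -- large frequency
        set q : ℝ := Real.log |t| / (4 * Real.log M) with hq
        have hlogt : 12 * Real.log M < Real.log |t| := by
          have h1 := Real.log_lt_log (by positivity) h12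
          rw [Real.log_pow] at h1
          exact_mod_cast h1
        have hq3 : 3 < q := by
          rw [hq, lt_div_iff₀ (by positivity)]
          linarith only [hlogt]
        set κ := ⌈q⌉₊ with hκ
        have hκ4 : 4 ≤ κ := by
          have : 3 < κ := Nat.lt_ceil.2 (by exact_mod_cast hq3)
          omega
        have hκq : q ≤ κ := Nat.le_ceil q
        have hκq1 : (κ : ℝ) < q + 1 := Nat.ceil_lt_add_one (by linarith only [hlo, hhi, hq3])
        have hlogt3 : Real.log |t| ≤ 3 * L := by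
          have h1 := Real.log_le_log ht0 ht
          rw [Real.log_pow] at h1
          exact_mod_cast h1
        have hR1 : 1 ≤ L ^ (1 - T0.t) := Real.one_le_rpow hL1 (by linarith only [hhi])
        have hκR : (κ : ℝ) ≤ 3 * L ^ (1 - T0.t) := by
          have h1 : q ≤ 3 / 2 * L ^ (1 - T0.t) := by
            rw [hq, div_le_iff₀ (by positivity)]
            have h2 : L = L ^ (1 - T0.t) * Q := by
              rw [hQ, ← Real.rpow_add hL0]
              rw [show 1 - T0.t + T0.t = 1 by ring, Real.rpow_one]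
            have h3 : 0 < L ^ (1 - T0.t) := by linarith only [hlo, hhi, hR1]
            calc Real.log |t| ≤ 3 * L := hlogt3
              _ = 3 * (L ^ (1 - T0.t) * Q) := by rw [← h2]
              _ ≤ 3 / 2 * L ^ (1 - T0.t) * (4 * Real.log M) := by nlinarith only [hlogM, hlo, hhi, hR1]
          linarith only [hlo, hhi, hq3, hκq1, h1]
        have hκ0 : (0 : ℝ) < κ := by
          have : 0 < κ := by omega
          exact_mod_cast this
        have hCκ : (C * κ) ^ C ≤ (M : ℝ) := by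
          refine le_trans ?_ hMe
          have e0 : Real.exp (Q / 2) = Real.exp (1 / 2 * Q) := by congr 1; ring
          rw [e0]
          refine le_trans ?_ k4
          calc (C * κ) ^ C ≤ (3 * C * L ^ (1 - T0.t)) ^ C := by
                apply Real.rpow_le_rpow (by positivity) _ (by linarith only [hlo, hhi, hC])
                nlinarith only [hκR, hlo, hhi, hC]
            _ = (3 * C) ^ C * (L ^ (1 - T0.t)) ^ C := Real.mul_rpow (by linarith only [hlo, hhi, hC]) (by linarith only [hlo, hhi, hq3, hκq, hκR])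
            _ = (3 * C) ^ C * L ^ (C * (1 - T0.t)) := by
                rw [← Real.rpow_mul hL0.le]
                congr 2
                ring
        have hlow : (M : ℝ) ^ (4 * κ - 4) ≤ |t| := by
          rw [← Real.log_le_log_iff (by positivity) ht0, Real.log_pow]
          have h1 : ((4 * κ - 4 : ℕ) : ℝ) = 4 * κ - 4 := by
            rw [Nat.cast_sub (by omega)]
            push_cast
            ring
          rw [h1]
          have h2 : (4 * (κ : ℝ) - 4) ≤ 4 * q := by linarith only [hκq1]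
          have h3 : 4 * q * Real.log M = Real.log |t| := by
            rw [hq]
            field_simp
          nlinarith only [hκq1, h3, hlo, hhi, hQ1, hlogM]
        have hupp : |t| ≤ (M : ℝ) ^ (4 * κ) := by
          rw [← Real.log_le_log_iff ht0 (by positivity), Real.log_pow]
          push_cast
          have h3 : 4 * q * Real.log M = Real.log |t| := by
            rw [hq]
            field_simp
          nlinarith only [hκq, h3, hlo, hhi, hQ1, hlogM]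
        refine (hve κ M a b β t hκ4 hCκ ha hb2 hβ hβ1 hlow hupp).trans ?_
        have e1 : (M : ℝ) ^ (1 - c / (κ : ℝ) ^ 2) = M / (M : ℝ) ^ (c / (κ : ℝ) ^ 2) := by
          rw [Real.rpow_sub hM0, Real.rpow_one]
        have hp0 : 0 < (M : ℝ) ^ (c / (κ : ℝ) ^ 2) := Real.rpow_pos_of_pos hM0 _
        have hp : 4 * C * L ^ A ≤ (M : ℝ) ^ (c / (κ : ℝ) ^ 2) := by
          refine k5.trans ((Real.exp_le_exp.2 ?_).trans (hpow _ (by positivity)))
          have hW0 : 0 < L ^ (3 * T0.t - 2) := Real.rpow_pos_of_pos hL0 _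
          have h9 : (κ : ℝ) ^ 2 ≤ 9 * L ^ (2 * (1 - T0.t)) := by
            calc (κ : ℝ) ^ 2 ≤ (3 * L ^ (1 - T0.t)) ^ 2 := pow_le_pow_left₀ hκ0.le hκR 2
              _ = 9 * (L ^ (1 - T0.t)) ^ 2 := by ring
              _ = 9 * L ^ (2 * (1 - T0.t)) := by
                  rw [← Real.rpow_natCast, ← Real.rpow_mul hL0.le]
                  congr 2
                  push_cast
                  ring
          have hQW : Q = L ^ (3 * T0.t - 2) * L ^ (2 * (1 - T0.t)) := by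
            rw [hQ, ← Real.rpow_add hL0]
            congr 1
            ring
          rw [div_mul_eq_mul_div, div_mul_eq_mul_div, div_le_div_iff₀ (by norm_num) (by positivity)]
          have h10 : L ^ (3 * T0.t - 2) * (κ : ℝ) ^ 2 ≤ 9 * Q := by
            rw [hQW]
            calc L ^ (3 * T0.t - 2) * (κ : ℝ) ^ 2 ≤ L ^ (3 * T0.t - 2) * (9 * L ^ (2 * (1 - T0.t))) :=
                  mul_le_mul_of_nonneg_left h9 hW0.le
              _ = _ := by ring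
          calc c * L ^ (3 * T0.t - 2) * (κ : ℝ) ^ 2 = c * (L ^ (3 * T0.t - 2) * (κ : ℝ) ^ 2) := by ring
            _ ≤ c * (9 * Q) := mul_le_mul_of_nonneg_left h10 hc.le
            _ = c * (Q / 2) * 18 := by ring
        have h1 : C * (M : ℝ) ^ (1 - c / (κ : ℝ) ^ 2) ≤ M / (4 * L ^ A) := by
          rw [e1, ← mul_div_assoc, div_le_div_iff₀ hp0 (by positivity)]
          calc C * (M : ℝ) * (4 * L ^ A) = M * (4 * C * L ^ A) := by ring
            _ ≤ M * (M : ℝ) ^ (c / (κ : ℝ) ^ 2) := mul_le_mul_of_nonneg_left hp hM0.le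
        linarith only [h4t, h1]
    · refine (Pool.Agent.H76.EHB.low_sum t β M a b hM1 ha hb2 hβ hβ1 (abs_pos.1 ht0)).trans ?_
      have e1 : (M : ℝ) ^ (1 / 3 : ℝ) * (M : ℝ) ^ (2 / 3 : ℝ) = M := by
        rw [← Real.rpow_add hM0]
        norm_num
      have hp := hpow (2 / 3) (by norm_num)
      have k2' : 28 * L ^ A ≤ (M : ℝ) ^ (2 / 3 : ℝ) := by
        refine k2.trans ?_
        have : 1 / 3 * Q = 2 / 3 * (Q / 2) := by ring
        rw [this]
        exact hp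
      have hp1 : 0 < (M : ℝ) ^ (1 / 3 : ℝ) := Real.rpow_pos_of_pos hM0 _
      have h1 : 7 * |t| ≤ M / (4 * L ^ A) := by
        rw [le_div_iff₀ (by positivity)]
        calc 7 * |t| * (4 * L ^ A) = |t| * (28 * L ^ A) := by ring
          _ ≤ (M : ℝ) ^ (1 / 3 : ℝ) * (M : ℝ) ^ (2 / 3 : ℝ) :=
              mul_le_mul h.le k2' (by positivity) hp1.le
          _ = M := e1
      linarith only [h1]
  have hmain := Exp_all T E β t hT3 hE0 hpiece b a
  refine hmain.trans ?_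
  have hbK : (b : ℝ) ≤ K := by exact_mod_cast hb
  have e1 : T = K * (1 / 2 * (1 / L ^ A)) := by rw [hT]; ring
  have e2 : 2 * E * b ≤ 2 * E * K := mul_le_mul_of_nonneg_left hbK (by positivity)
  have e3 : 2 * E * K = K * (1 / 2 * (1 / L ^ A)) + 8 * (K / |t|) := by rw [hE]; ring
  have e4 : (K : ℝ) * (100 / |t| + 1 / L ^ A) = 100 * (K / |t|) + K * (1 / L ^ A) := by ring
  rw [e4]
  have e5 : 0 ≤ (K : ℝ) / |t| := by positivity
  linarith only [e1, e2, e3, e5]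

end Pool.Agent.H76.VKT

end

section

set_option autoImplicit false

namespace Pool.Agent.H76.VKT

open Finset
open Pool.Agent.H91.EHA
open Pool.Agent.H91.PK (ee)

theorem vk_exp [T0] (A : ℕ) : ∃ x0 : ℕ, ∀ x : ℕ, x0 ≤ x → ∀ (K a b : ℕ) (β t : ℝ),
    Real.exp (Real.log x ^ T0.t) ≤ K → K ≤ x → b ≤ K → 0 ≤ β → β ≤ 1 →
    1 ≤ |t| → |t| ≤ (x : ℝ) ^ (3 : ℕ) →
    ‖∑ n ∈ Ioc a b, ee (t * Real.log (n + β))‖ ≤ K * (100 / |t| + 1 / Real.log x ^ A) :=
  vk_exp_h Pool.Agent.H97.VK.vexp A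

theorem psum [T0] (A B : ℕ) : ∃ K' x0 : ℕ, ∀ x : ℕ, x0 ≤ x → ∀ (d : ℕ) (χ : DirichletCharacter ℂ d) (t : ℝ) (v : ℕ),
    1 ≤ d → (d : ℝ) ≤ Real.log x ^ B → Real.log x ^ K' ≤ |t| → |t| ≤ (x : ℝ) ^ (3 : ℕ) → Yx x + 1 ≤ v →
    ‖∑ n ∈ Icc 1 v, χ (n : ZMod d) * ee (t * Real.log n)‖ ≤ v / Real.log x ^ A :=
  psum_h vk_exp A B

theorem rtw [T0] (A B : ℕ) : ∃ K' D x0 : ℕ, ∀ x : ℕ, x0 ≤ x → ∀ (d : ℕ) (χ : DirichletCharacter ℂ d) (t : ℝ) (u : ℕ),
    1 ≤ d → (d : ℝ) ≤ Real.log x ^ B → Real.log x ^ K' ≤ |t| → |t| ≤ (x : ℝ) ^ (3 : ℕ) → D * (LL x * L9 x) ≤ Real.log u →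
    ‖∑ n ∈ Icc 1 u, ch x χ (n : ZMod (qm x d)) * ee (t * Real.log n)‖ ≤ u / Real.log x ^ A :=
  rtw_h psum A B

theorem lk_up [T0] (k B : ℕ) : ∃ C : ℝ, 1 ≤ C ∧ ∃ K' x0 : ℕ, ∀ x : ℕ, x0 ≤ x → ∀ (d : ℕ) (χ : DirichletCharacter ℂ d) (s : ℂ),
    1 ≤ d → (d : ℝ) ≤ Real.log x ^ B → 1 + 1 / (4 * Real.log x) ≤ s.re → s.re ≤ 2 →
    Real.log x ^ K' ≤ |s.im| → |s.im| ≤ 6 * (x : ℝ) ^ (3 : ℕ) →
    ‖Lk (qm x d) (ch x χ) k s‖ ≤ C * L9 x ^ k * LL x ^ (k + 1) :=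
  lk_up_h rtw k B

theorem lk_low [T0] (B : ℕ) : ∃ c : ℝ, 0 < c ∧ c ≤ 1 ∧ ∃ K' x0 : ℕ, ∀ x : ℕ, x0 ≤ x → ∀ (d : ℕ) (χ : DirichletCharacter ℂ d) (s : ℂ),
    1 ≤ d → (d : ℝ) ≤ Real.log x ^ B → 1 + 1 / (4 * Real.log x) ≤ s.re → s.re ≤ 2 →
    Real.log x ^ K' ≤ |s.im| → |s.im| ≤ 3 * (x : ℝ) ^ (3 : ℕ) →
    c / LL x ^ 7 ≤ ‖Lk (qm x d) (ch x χ) 0 s‖ :=
  lk_low_h lk_up zy_up B

theorem fk_up [T0] (k B : ℕ) : ∃ C : ℝ, 1 ≤ C ∧ ∃ K' x0 : ℕ, ∀ x : ℕ, x0 ≤ x → ∀ (d : ℕ) (χ : DirichletCharacter ℂ d) (s : ℂ),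
    1 ≤ d → (d : ℝ) ≤ Real.log x ^ B → 1 + 1 / (4 * Real.log x) ≤ s.re → s.re ≤ 2 →
    Real.log x ^ K' ≤ |s.im| → |s.im| ≤ 3 * (x : ℝ) ^ (3 : ℕ) →
    ‖Fk (qm x d) (ch x χ) k s‖ ≤ C * L9 x ^ (k + 1) * LL x ^ (20 * (k + 1)) :=
  fk_up_h lk_low lk_up k B

theorem sm_sharp_w [T0] (t1 : ℝ) (ht1' : T0.t < t1) (k κ B : ℕ) (hκ : 1 ≤ κ) : ∃ C : ℝ, 1 ≤ C ∧ ∃ K' x0 : ℕ, ∀ x : ℕ, x0 ≤ x →
    ∀ (d : ℕ) (χ : DirichletCharacter ℂ d) (t : ℝ) (v z : ℕ), 1 ≤ d → (d : ℝ) ≤ Real.log x ^ B →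
    Real.exp (Real.log x ^ t1) ≤ z → z ≤ x ^ 2 → v ≤ z → Real.log x ^ K' ≤ |t| → |t| ≤ (x : ℝ) ^ (2 : ℕ) →
    ‖∑ n ∈ Icc 1 v, ((Lam n * Real.log n ^ k : ℝ) : ℂ) * ch x χ (n : ZMod (qm x d)) * ee (t * Real.log n)‖ ≤
      C * z * (L9 x ^ (k + 1) * LL x ^ (20 * (k + 1)) * Real.log x ^ (3 * κ) +
        Real.log (2 * z) ^ (k + 1) / Real.log x ^ κ) :=
  sm_sharp_w_h fk_up t1 ht1' k κ B hκ

theorem vk_chi_w [T0] (t1 : ℝ) (ht1' : T0.t < t1) (K B : ℕ) : ∃ K' x0 : ℕ, ∀ x : ℕ, x0 ≤ x →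
    ∀ (d : ℕ) (χ : DirichletCharacter ℂ d) (t : ℝ) (z : ℕ), 1 ≤ d → (d : ℝ) ≤ Real.log x ^ B →
    Real.exp (Real.log x ^ t1) ≤ z → z ≤ x ^ 2 → Real.log x ^ K' ≤ |t| → |t| ≤ (x : ℝ) ^ (2 : ℕ) →
    ‖∑ n ∈ Icc 1 z, ((Lam n : ℝ) : ℂ) * χ (n : ZMod d) * ee (t * Real.log n)‖ ≤ z / Real.log x ^ K :=
  vk_chi_w_h sm_sharp_w t1 ht1' K B

end Pool.Agent.H76.VKT

end

section

set_option autoImplicit false

namespace Pool.Agent.H97.VK

open Finset
open Pool.Agent.H91.EHA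
open Pool.Agent.H91.PK (ee)

theorem psum (A B : ℕ) : ∃ K' x0 : ℕ, ∀ x : ℕ, x0 ≤ x → ∀ (d : ℕ) (χ : DirichletCharacter ℂ d) (t : ℝ) (v : ℕ),
    1 ≤ d → (d : ℝ) ≤ Real.log x ^ B → Real.log x ^ K' ≤ |t| → |t| ≤ (x : ℝ) ^ (3 : ℕ) → Yx x + 1 ≤ v →
    ‖∑ n ∈ Icc 1 v, χ (n : ZMod d) * ee (t * Real.log n)‖ ≤ v / Real.log x ^ A :=
  @Pool.Agent.H76.VKT.psum ⟨9 / 10, by norm_num, by norm_num⟩ A B

theorem vk_chi_w (K B : ℕ) : ∃ K' x0 : ℕ, ∀ x : ℕ, x0 ≤ x →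
    ∀ (d : ℕ) (χ : DirichletCharacter ℂ d) (t : ℝ) (z : ℕ), 1 ≤ d → (d : ℝ) ≤ Real.log x ^ B →
    Real.exp (Real.log x ^ (19 / 20 : ℝ)) ≤ z → z ≤ x ^ 2 → Real.log x ^ K' ≤ |t| → |t| ≤ (x : ℝ) ^ (2 : ℕ) →
    ‖∑ n ∈ Icc 1 z, ((Lam n : ℝ) : ℂ) * χ (n : ZMod d) * ee (t * Real.log n)‖ ≤ z / Real.log x ^ K :=
  @Pool.Agent.H76.VKT.vk_chi_w ⟨9 / 10, by norm_num, by norm_num⟩ (19 / 20)
    (show (9 / 10 : ℝ) < 19 / 20 by norm_num) K B

theorem fk_up (k B : ℕ) : ∃ C : ℝ, 1 ≤ C ∧ ∃ K' x0 : ℕ, ∀ x : ℕ, x0 ≤ x → ∀ (d : ℕ) (χ : DirichletCharacter ℂ d) (s : ℂ),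
    1 ≤ d → (d : ℝ) ≤ Real.log x ^ B → 1 + 1 / (4 * Real.log x) ≤ s.re → s.re ≤ 2 →
    Real.log x ^ K' ≤ |s.im| → |s.im| ≤ 3 * (x : ℝ) ^ (3 : ℕ) →
    ‖Fk (qm x d) (ch x χ) k s‖ ≤ C * L9 x ^ (k + 1) * LL x ^ (20 * (k + 1)) :=
  @Pool.Agent.H76.VKT.fk_up ⟨9 / 10, by norm_num, by norm_num⟩ k B

end Pool.Agent.H97.VK

end

section

/-!
# PSI PtB: pointwise bound for the factors of all kinds (maximum of the constants of `mu_b`, `sm_b`)
-/

set_option autoImplicit false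

namespace Pool.Agent.H88.PSI

theorem pt_b (K B : ℕ) : ∃ K' X0 : ℕ, ∀ X : ℕ, X0 ≤ X →
    ∀ (d : ℕ) (χ : DirichletCharacter ℂ d) (k : Fin 3) (j : ℕ) (t : ℝ), 1 ≤ d →
    (d : ℝ) ≤ Real.log X ^ B →
    (X : ℝ) ^ (1 / 7 : ℝ) ≤ (2 : ℝ) ^ j → (2 : ℝ) ^ j ≤ X → Real.log X ^ K' ≤ |t| → |t| ≤ X →
    ‖DP (tw χ (pc k j)) (2 * 2 ^ j) t‖ ≤ (2 : ℝ) ^ j / Real.log X ^ K := by
  obtain ⟨K1, X1, h1⟩ := mu_b_h Pool.Agent.H97.VK.vk_chi_w K B
  obtain ⟨K2, X2, h2⟩ := sm_b_h Pool.Agent.H97.VK.psum K B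
  obtain ⟨X3, h3⟩ := Pool.Agent.H80.LV.log_ge 1
  refine ⟨max K1 K2, max (max X1 X2) X3, ?_⟩
  intro X hX d χ k j t hd hdB hj1 hj2 ht1 ht2
  simp only [max_le_iff] at hX
  obtain ⟨⟨hX1, hX2⟩, hX3⟩ := hX
  have hL := h3 X hX3
  by_cases hk : k = 2
  · subst hk
    exact h1 X hX1 d χ j t hd hdB hj1 hj2 ((pow_le_pow_right₀ hL (le_max_left _ _)).trans ht1) ht2
  · exact h2 X hX2 d χ k j t hk hd hdB hj1 hj2 ((pow_le_pow_right₀ hL (le_max_right _ _)).trans ht1) ht2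

end Pool.Agent.H88.PSI

end

section

/-!
# E58 Bx: first moment of the Dirichlet polynomial of a box of type II

As `Pool/Agent/H88/PSI/BoxI.lean` (`box_i`), with `bs58`, `box_m`, `tp58`, `pt_b`.
-/

set_option autoImplicit false

namespace Pool.Agent.H88.E58

open Finset MeasureTheory
open Pool.Agent.H88.PSI

theorem box58 (e : ℝ) (he : 0 < e) (he' : e ≤ 1 / 100) (A : ℕ) : ∃ K' X0 : ℕ, ∀ X : ℕ, X0 ≤ X →
    ∀ (r N : ℕ) (κ : Fin r → Fin 3) (j : Fin r → ℕ), r ≤ 6 →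
    (∀ i, (2 : ℝ) ^ j i ≤ (X : ℝ) ^ (11 / 24 : ℝ)) →
    ∏ i, 2 ^ j i ≤ 3 * X → X ≤ 2 ^ r * ∏ i, 2 ^ j i → 2 ^ r * ∏ i, 2 ^ j i ≤ N →
    ∫ t in {t : ℝ | Real.log X ^ K' ≤ |t| ∧ |t| ≤ (X : ℝ) ^ (3 / 8 - e)},
      ‖DP (tw (1 : DirichletCharacter ℂ 1) (Pp κ j)) N t‖ ≤ X / Real.log X ^ A := by
  obtain ⟨η, hη, HL⟩ := tp58
  obtain ⟨K, X1, HL⟩ := HL (A + 1)
  obtain ⟨K', X2, HP⟩ := pt_b K 0
  set δ : ℝ := min (η / 13) (1 / 200) with hδdef
  have hδ : 0 < δ := lt_min (by positivity) (by norm_num)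
  have hδ1 : 13 * δ ≤ η := by have := min_le_left (η / 13) (1 / 200 : ℝ); rw [← hδdef] at this; linarith
  have hδ2 : δ ≤ 1 / 200 := min_le_right _ _
  obtain ⟨X3, HS⟩ := bs58 e δ he he' hδ (by linarith)
  obtain ⟨X4, HM⟩ := box_m e δ he he' hδ hδ2
  obtain ⟨X5, H5⟩ := Pool.Agent.H80.LV.log_pow_le (e * δ / 4) 2 (by positivity) (by norm_num) A
  obtain ⟨X6, H6⟩ := Pool.Agent.H80.LV.log_ge 2
  refine ⟨K', max (max (max X1 X2) (max X3 X4)) (max (max X5 X6) 3), ?_⟩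
  intro X hX r N κ j hr hj1 hj2 hj3 hN
  simp only [max_le_iff] at hX
  obtain ⟨⟨⟨hX1, hX2⟩, hX3, hX4⟩, ⟨hX5, hX6⟩, hX7⟩ := hX
  have hXr : (3 : ℝ) ≤ X := by exact_mod_cast hX7
  have hX0 : (0 : ℝ) < X := by linarith
  have hL := H6 X hX6
  set χ : DirichletCharacter ℂ 1 := 1 with hχ
  have hbox := BoxI_box X hX7 χ κ j hr hj1 hj2
  set T : ℝ := (X : ℝ) ^ (3 / 8 - e) with hT
  have hT1 : 1 ≤ T := Real.one_le_rpow (by linarith) (by linarith)
  have hT2 : T ≤ (X : ℝ) ^ (5 / 6 - e) :=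
    Real.rpow_le_rpow_of_exponent_le (by linarith) (by linarith)
  have hTX : T ≤ X := by
    rw [hT]; nth_rewrite 2 [← Real.rpow_one (X : ℝ)]
    exact Real.rpow_le_rpow_of_exponent_le (by linarith) (by linarith)
  set F : ℝ → ℝ := FF (fun i => 2 ^ j i) (fun i => tw χ (pc (κ i) (j i))) with hF
  have hFc : Continuous F := ff_cont _ _
  have hF0 : ∀ t, 0 ≤ F t := ff_nonneg _ _
  set S : Set ℝ := {t : ℝ | Real.log X ^ K' ≤ |t| ∧ |t| ≤ T} with hS
  set B1 : Set ℝ := {t : ℝ | |t| ≤ T ∧ F t ≤ (X : ℝ) ^ (1 - δ)} with hB1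
  set B2 : Set ℝ := {t : ℝ | (Real.log X ^ K' ≤ |t| ∧ |t| ≤ T) ∧ (X : ℝ) ^ (1 - δ) < F t} with hB2
  have mS : MeasurableSet S := by
    apply MeasurableSet.inter
    · exact measurableSet_le measurable_const continuous_abs.measurable
    · exact measurableSet_le continuous_abs.measurable measurable_const
  have mB1 : MeasurableSet B1 := by
    apply MeasurableSet.inter
    · exact measurableSet_le continuous_abs.measurable measurable_const
    · exact measurableSet_le hFc.measurable measurable_const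
  have mB2 : MeasurableSet B2 := by
    apply MeasurableSet.inter mS
    exact measurableSet_lt measurable_const hFc.measurable
  have hint : IntegrableOn (fun t => F t) (Set.Icc (-T) T) :=
    hFc.continuousOn.integrableOn_compact isCompact_Icc
  have sB1 : B1 ⊆ Set.Icc (-T) T := fun t ht => abs_le.1 ht.1
  have sB2 : B2 ⊆ Set.Icc (-T) T := fun t ht => abs_le.1 ht.1.2
  have i1 : IntegrableOn (fun t => F t) B1 := hint.mono_set sB1
  have i2 : IntegrableOn (fun t => F t) B2 := hint.mono_set sB2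
  have hSsub : S ⊆ B1 ∪ B2 := by
    intro t ht
    by_cases h : F t ≤ (X : ℝ) ^ (1 - δ)
    · exact Or.inl ⟨ht.2, h⟩
    · exact Or.inr ⟨ht, not_le.1 h⟩
  have e1 : ∫ t in S, ‖DP (tw χ (Pp κ j)) N t‖ = ∫ t in S, F t := by
    apply setIntegral_congr_fun mS
    intro t _
    show ‖DP (tw χ (Pp κ j)) N t‖ = F t
    rw [BoxI_ff N le_rfl χ κ j hN t]
  have e2 : ∫ t in S, F t ≤ ∫ t in B1 ∪ B2, F t := by
    apply setIntegral_mono_set (i1.union i2)
    · exact Filter.Eventually.of_forall fun t => hF0 t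
    · exact hSsub.eventuallyLE
  have e3 : ∫ t in B1 ∪ B2, F t ≤ (∫ t in B1, F t) + ∫ t in B2, F t := by
    have hd1 : Disjoint B1 B2 := by
      rw [Set.disjoint_left]
      intro t h1 h2
      exact absurd h1.2 (not_le.2 h2.2)
    rw [setIntegral_union hd1 mB2 i1 i2]
  have e4 : ∫ t in B1, F t ≤ (X : ℝ) ^ (1 - e * δ / 4) := HS X hX3 r _ _ T hbox hT1 le_rfl
  have e5 : ∫ t in B2, F t ≤ X / Real.log X ^ (A + 1) := by
    apply HL X hX1 r _ _ B2 hbox hj3 mB2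
    · intro t ht
      have := sB2 ht
      exact ⟨by linarith [this.1], by linarith [this.2]⟩
    · have h1 : volume.real B2 ≤ volume.real {t : ℝ | |t| ≤ T ∧ (X : ℝ) ^ (1 - δ) < F t} := by
        apply measureReal_mono
        · intro t ht
          exact ⟨ht.1.2, ht.2⟩
        · have : {t : ℝ | |t| ≤ T ∧ (X : ℝ) ^ (1 - δ) < F t} ⊆ Set.Icc (-T) T := fun t ht => abs_le.1 ht.1
          exact ne_top_of_le_ne_top (by rw [Real.volume_Icc]; exact ENNReal.ofReal_ne_top) (measure_mono this)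
      have h2 := HM X hX4 r _ _ T hbox hT1 hT2
      refine (h1.trans h2).trans ?_
      exact Real.rpow_le_rpow_of_exponent_le (by linarith) hδ1
    · intro i hi t ht
      have h3 := HP X hX2 1 χ (κ i) (j i) t le_rfl (by simp) (by push_cast at hi; exact hi) ?_ ht.1.1 ?_
      · push_cast
        exact h3
      · refine (hj1 i).trans ?_
        nth_rewrite 2 [← Real.rpow_one (X : ℝ)]
        exact Real.rpow_le_rpow_of_exponent_le (by linarith) (by norm_num)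
      · exact ht.1.2.trans hTX
  have hLp : (0 : ℝ) < Real.log X ^ A := by positivity
  have e6 : (X : ℝ) ^ (1 - e * δ / 4) ≤ (X : ℝ) / Real.log X ^ A / 2 := by
    have h1 := H5 X hX5
    have h2 : (X : ℝ) ^ (1 - e * δ / 4) * (X : ℝ) ^ (e * δ / 4) = (X : ℝ) := by
      rw [← Real.rpow_add hX0]
      rw [show (1 - e * δ / 4 + e * δ / 4 : ℝ) = 1 by ring, Real.rpow_one]
    rw [div_div, le_div_iff₀ (by positivity)]
    calc (X : ℝ) ^ (1 - e * δ / 4) * (Real.log X ^ A * 2)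
        ≤ (X : ℝ) ^ (1 - e * δ / 4) * (X : ℝ) ^ (e * δ / 4) :=
          mul_le_mul_of_nonneg_left (by linarith) (by positivity)
      _ = X := h2
  have e7 : (X : ℝ) / Real.log X ^ (A + 1) ≤ (X : ℝ) / Real.log X ^ A / 2 := by
    rw [div_div]
    apply div_le_div_of_nonneg_left (by positivity) (by positivity)
    rw [pow_succ]
    exact mul_le_mul_of_nonneg_left hL hLp.le
  rw [e1]
  linarith

end Pool.Agent.H88.E58

end

section

/-!
# E58 Pc: one dyadic piece of type II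

If `∏ 2^(j i) > 3X` or `2^r ∏ 2^(j i) < X` then both sums vanish.  Else `box58` with `e/2` and `A + 1`, `dif` with `T0 = L^K'`, `T = X^(3/8-e/2)`,
`k = ⌈1/e⌉ + 2`; `∑ ‖f‖ ≤ 200 X (2L)^6 (1 + log 200X)^64` (`prod_bd`, `tau_mom`).
-/

set_option autoImplicit false

namespace Pool.Agent.H88.E58

open Finset MeasureTheory
open Pool.Agent.H88.PSI

/-- only the values on the window matter -/
theorem sw_congr {ψ : ℝ → ℝ} {g : ℝ → ℂ} (h : Bump ψ g) (f f' : ℕ → ℂ) (N : ℕ) (x η : ℝ) (hx : 0 < x)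
    (hη : 0 < η) (hf : ∀ n : ℕ, x < n → (n : ℝ) < x * Real.exp η → f n = f' n) :
    sw ψ f N x η = sw ψ f' N x η := by
  unfold sw
  refine sum_congr rfl fun n hn => ?_
  by_cases h0 : ψ ((Real.log n - Real.log x) / η) = 0
  · rw [h0]; simp
  · obtain ⟨h1, h2⟩ := h.supp _ h0
    have hn0 : (0 : ℝ) < n := by exact_mod_cast (mem_Icc.1 hn).1
    rw [lt_div_iff₀ hη, zero_mul] at h1
    rw [div_lt_iff₀ hη, one_mul] at h2
    rw [hf n ?_ ?_]
    · exact (Real.log_lt_log_iff hx hn0).1 (by linarith)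
    · rw [← Real.log_lt_log_iff hn0 (by positivity), Real.log_mul hx.ne' (Real.exp_pos _).ne',
        Real.log_exp]
      linarith

theorem sw_zero {ψ : ℝ → ℝ} {g : ℝ → ℂ} (h : Bump ψ g) (f : ℕ → ℂ) (N : ℕ) (x η : ℝ) (hx : 0 < x)
    (hη : 0 < η) (hf : ∀ n : ℕ, x < n → (n : ℝ) < x * Real.exp η → f n = 0) :
    sw ψ f N x η = 0 := by
  rw [sw_congr h f (fun _ => 0) N x η hx hη hf]
  unfold sw
  simp

theorem cc_tw (f : ArithmeticFunction ℝ) : cc f = ⇑(tw (1 : DirichletCharacter ℂ 1) f) := by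
  funext n
  show ((f n : ℝ) : ℂ) = ((f n : ℝ) : ℂ) * (1 : DirichletCharacter ℂ 1) (n : ZMod 1)
  have h1 : (1 : DirichletCharacter ℂ 1) (n : ZMod 1) = 1 := by
    have : (n : ZMod 1) = 1 := Subsingleton.elim _ _
    rw [this, map_one]
  rw [h1, mul_one]

private theorem Pc_supp {r : ℕ} (κ : Fin r → Fin 3) (j : Fin r → ℕ) (n : ℕ) (hn : cc (Pp κ j) n ≠ 0) :
    ∏ i, 2 ^ j i ≤ n ∧ n ≤ 2 ^ r * ∏ i, 2 ^ j i := by
  have hsup : ∀ i n, tw (1 : DirichletCharacter ℂ 1) (pc (κ i) (j i)) n ≠ 0 →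
      2 ^ j i ≤ n ∧ n < 2 * 2 ^ j i := by
    intro i n hn
    have h3 : pc (κ i) (j i) n ≠ 0 := by
      intro h0
      apply hn
      show (((pc (κ i) (j i)) n : ℝ) : ℂ) * (1 : DirichletCharacter ℂ 1) (n : ZMod 1) = 0
      rw [h0]; simp
    unfold pc seg at h3
    simp only [ArithmeticFunction.coe_mk] at h3
    split_ifs at h3 with h4
    · refine ⟨h4.2.1, ?_⟩
      have := h4.2.2
      rw [pow_succ] at this
      omega
    · exact absurd rfl h3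
  have e1 : tw (1 : DirichletCharacter ℂ 1) (Pp κ j) = ∏ i, tw (1 : DirichletCharacter ℂ 1) (pc (κ i) (j i)) := by
    unfold Pp
    exact tw_prod 1 univ _ (by omega)
  have e2 : ∏ i : Fin r, (2 * 2 ^ j i) = 2 ^ r * ∏ i, 2 ^ j i := by
    rw [prod_mul_distrib]; simp
  rw [cc_tw, e1] at hn
  have h1 := prod_supp (fun i => tw (1 : DirichletCharacter ℂ 1) (pc (κ i) (j i))) (fun i => 2 ^ j i)
    hsup n hn
  rw [e2] at h1
  exact h1

private theorem Pc_S : ∃ X0 : ℕ, ∀ X : ℕ, X0 ≤ X → ∀ (r : ℕ) (κ : Fin r → Fin 3) (j : Fin r → ℕ),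
    r ≤ 6 → (∀ i, (2 : ℝ) ^ j i ≤ (X : ℝ) ^ (11 / 24 : ℝ)) → ∏ i, 2 ^ j i ≤ 3 * X →
    ∑ n ∈ Icc 1 (200 * X), ‖cc (Pp κ j) n‖ ≤ X * Real.log X ^ 100 := by
  obtain ⟨X1, H1⟩ := Pool.Agent.H80.LV.log_ge (200 * 2 ^ 6 * 2 ^ 64)
  refine ⟨max X1 200, fun X hX r κ j hr hj1 hj2 => ?_⟩
  have hX1 : X1 ≤ X := (le_max_left _ _).trans hX
  have hX2 : 200 ≤ X := (le_max_right _ _).trans hX
  have hL := H1 X hX1
  have hXr : (200 : ℝ) ≤ X := by exact_mod_cast hX2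
  have hX0 : (0 : ℝ) < X := by linarith
  set L := Real.log X with hLd
  have hL1 : 1 ≤ L := le_trans (by norm_num) hL
  have hbox := BoxI_box X (by omega) (1 : DirichletCharacter ℂ 1) κ j hr hj1 hj2
  have e1 : tw (1 : DirichletCharacter ℂ 1) (Pp κ j) = ∏ i, tw (1 : DirichletCharacter ℂ 1) (pc (κ i) (j i)) := by
    unfold Pp
    exact tw_prod 1 univ _ (by omega)
  have hpt : ∀ n ∈ Icc 1 (200 * X), ‖cc (Pp κ j) n‖ ≤ (2 * L) ^ 6 * tau n ^ 6 := by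
    intro n hn
    rw [cc_tw, e1]
    refine (prod_bd _ (2 * L) (by linarith) hbox.bd n).trans ?_
    have ht : 1 ≤ tau n := by
      unfold tau
      have : 0 < n.divisors.card := card_pos.2 ⟨1, Nat.one_mem_divisors.2 (by
        have := (mem_Icc.1 hn).1; omega)⟩
      exact_mod_cast this
    exact mul_le_mul (pow_le_pow_right₀ (by linarith) hr) (pow_le_pow_right₀ ht hr)
      (by positivity) (by positivity)
  have hlog : 1 + Real.log ((200 * X : ℕ) : ℝ) ≤ 2 * (2 * L) := by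
    have h1 : Real.log ((200 * X : ℕ) : ℝ) ≤ Real.log ((X : ℝ) ^ 2) := by
      apply Real.log_le_log
      · push_cast; positivity
      · push_cast; nlinarith
    rw [Real.log_pow] at h1
    push_cast at h1 ⊢
    linarith
  calc ∑ n ∈ Icc 1 (200 * X), ‖cc (Pp κ j) n‖
      ≤ ∑ n ∈ Icc 1 (200 * X), (2 * L) ^ 6 * tau n ^ 6 := sum_le_sum hpt
    _ = (2 * L) ^ 6 * ∑ n ∈ Icc 1 (200 * X), tau n ^ 6 := by rw [mul_sum]
    _ ≤ (2 * L) ^ 6 * (((200 * X : ℕ) : ℝ) * (1 + Real.log ((200 * X : ℕ) : ℝ)) ^ (2 ^ 6)) :=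
        mul_le_mul_of_nonneg_left (tau_mom 6 _) (by positivity)
    _ ≤ (2 * L) ^ 6 * ((200 * X) * (2 * (2 * L)) ^ 64) := by
        apply mul_le_mul_of_nonneg_left _ (by positivity)
        push_cast
        apply mul_le_mul_of_nonneg_left _ (by positivity)
        push_cast at hlog
        have h0 : 0 ≤ Real.log (200 * (X : ℝ)) := Real.log_nonneg (by linarith)
        exact pow_le_pow_left₀ (by linarith) hlog 64
    _ = X * (200 * 2 ^ 6 * 2 ^ 64 * 2 ^ 64 * L ^ 70) := by ring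
    _ ≤ X * (L * L * L ^ 70) := by
        apply mul_le_mul_of_nonneg_left _ (by positivity)
        apply mul_le_mul_of_nonneg_right _ (by positivity)
        exact mul_le_mul hL (le_trans (by norm_num) hL) (by positivity) (by linarith)
    _ = X * L ^ 72 := by ring
    _ ≤ X * L ^ 100 := by
        apply mul_le_mul_of_nonneg_left _ (by positivity)
        exact pow_le_pow_right₀ hL1 (by norm_num)

theorem pc58 {ψ : ℝ → ℝ} {g : ℝ → ℂ} (h : Bump ψ g) (e : ℝ) (he : 0 < e) (he' : e ≤ 1 / 100) (A : ℕ) :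
    ∃ A0 : ℕ, ∀ A1 : ℕ, A0 ≤ A1 → ∃ X0 : ℕ, ∀ X : ℕ, X0 ≤ X →
    ∀ (r : ℕ) (κ : Fin r → Fin 3) (j : Fin r → ℕ) (x η : ℝ), r ≤ 6 →
    (∀ i, (2 : ℝ) ^ j i ≤ (X : ℝ) ^ (11 / 24 : ℝ)) → (X : ℝ) ≤ x → x ≤ 2 * X →
    (X : ℝ) ^ (-(3 / 8) + e) / 4 ≤ η → η ≤ 1 / Real.log X ^ A1 →
    ‖sw ψ (cc (Pp κ j)) (200 * X) x η - sw ψ (cc (Pp κ j)) (200 * X) x (1 / Real.log X ^ A1)‖
      ≤ X / Real.log X ^ A := by
  obtain ⟨k, hk⟩ : ∃ k : ℕ, k = ⌈1 / e⌉₊ + 2 := ⟨_, rfl⟩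
  obtain ⟨C, hC1, hC⟩ := dif h k (by omega)
  obtain ⟨K', X1, hB⟩ := box58 (e / 2) (by positivity) (by linarith) (A + 1)
  obtain ⟨X2, hS⟩ := Pc_S
  refine ⟨2 * K' + A + 104, fun A1 hA1 => ?_⟩
  obtain ⟨X3, H3⟩ := Pool.Agent.H80.LV.log_ge (3 * C + 10)
  obtain ⟨X4, H4⟩ := Pool.Agent.H80.LV.log_pow_le (1 / 4) 1 (by norm_num) (by norm_num) K'
  obtain ⟨X5, H5⟩ := Pool.Agent.H80.LV.log_pow_le (1 / 8) (4 ^ k) (by norm_num) (by positivity)
    (A + 102)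
  refine ⟨max (max X1 X2) (max (max X3 X4) (max X5 200)), fun X hX r κ j x η hr hj hx1 hx2 hη1 hη2 => ?_⟩
  simp only [max_le_iff] at hX
  obtain ⟨⟨hX1, hX2⟩, ⟨hX3, hX4⟩, hX5, hX6⟩ := hX
  have hXr : (200 : ℝ) ≤ X := by exact_mod_cast hX6
  have hX0 : (0 : ℝ) < X := by linarith
  have hx0 : 0 < x := by linarith
  have hL := H3 X hX3
  set L := Real.log X with hLd
  have hL1 : 1 ≤ L := by linarith
  have hL0 : 0 < L := by linarith
  have hη0 : 0 < η := lt_of_lt_of_le (by positivity) hη1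
  set η1 : ℝ := 1 / L ^ A1 with hη1d
  have hη1p : 0 < η1 := by positivity
  have hη1s : η1 ≤ 1 / 10 := by
    rw [hη1d]
    apply one_div_le_one_div_of_le (by norm_num)
    have : L ^ 1 ≤ L ^ A1 := pow_le_pow_right₀ hL1 (by omega)
    linarith
  have hexp : Real.exp (1 / 10) ≤ 3 / 2 := by
    have h1 := Real.exp_bound' (x := 1 / 10) (by norm_num) (by norm_num) (n := 2) (by norm_num)
    refine h1.trans ?_
    norm_num [Finset.sum_range_succ, Nat.factorial]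
  have hwin : ∀ η' : ℝ, η' ≤ η1 → x * Real.exp η' ≤ 3 * X := by
    intro η' hη'
    have h1 : Real.exp η' ≤ 3 / 2 := (Real.exp_le_exp.2 (hη'.trans hη1s)).trans hexp
    have h2 : x * Real.exp η' ≤ (2 * X) * (3 / 2) := mul_le_mul hx2 h1 (Real.exp_pos _).le (by positivity)
    linarith
  have hnn : 0 ≤ (X : ℝ) / L ^ A := by positivity
  by_cases c1 : ∏ i, 2 ^ j i ≤ 3 * X
  swap
  · have hz : ∀ η' : ℝ, 0 < η' → η' ≤ η1 → sw ψ (cc (Pp κ j)) (200 * X) x η' = 0 := by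
      intro η' h1 h2
      apply sw_zero h _ _ _ _ hx0 h1
      intro n h3 h4
      by_contra h5
      have h6 := (Pc_supp κ j n h5).1
      have h7 := hwin η' h2
      have h8 : (n : ℝ) < 3 * X := lt_of_lt_of_le h4 h7
      have h9 : n < 3 * X := by exact_mod_cast h8
      omega
    rw [hz η hη0 hη2, hz η1 hη1p le_rfl, sub_zero, norm_zero]
    exact hnn
  by_cases c2 : X ≤ 2 ^ r * ∏ i, 2 ^ j i
  swap
  · have hz : ∀ η' : ℝ, 0 < η' → sw ψ (cc (Pp κ j)) (200 * X) x η' = 0 := by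
      intro η' h1
      apply sw_zero h _ _ _ _ hx0 h1
      intro n h3 h4
      by_contra h5
      have h6 := (Pc_supp κ j n h5).2
      have h8 : (X : ℝ) < n := lt_of_le_of_lt hx1 h3
      have h9 : X < n := by exact_mod_cast h8
      omega
    rw [hz η hη0, hz η1 hη1p, sub_zero, norm_zero]
    exact hnn
  have hN : 2 ^ r * ∏ i, 2 ^ j i ≤ 200 * X := by
    have hr1 : 2 ^ r ≤ 2 ^ 6 := Nat.pow_le_pow_right (by norm_num) hr
    calc 2 ^ r * ∏ i, 2 ^ j i ≤ 2 ^ 6 * (3 * X) := Nat.mul_le_mul hr1 c1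
      _ ≤ 200 * X := by omega
  set T0 : ℝ := L ^ K' with hT0
  set T : ℝ := (X : ℝ) ^ (3 / 8 - e / 2) with hT
  have hT01 : 1 ≤ T0 := one_le_pow₀ hL1
  have hT0T : T0 ≤ T := by
    have h1 := H4 X hX4
    have h2 : (X : ℝ) ^ (1 / 4 : ℝ) ≤ T := Real.rpow_le_rpow_of_exponent_le (by linarith) (by linarith)
    linarith
  have hT1 : 1 ≤ T := hT01.trans hT0T
  have hD := hC (cc (Pp κ j)) (200 * X) x η η1 T0 T hη0 hη2 hT01 hT0T
  have hB' := hB X hX1 r (200 * X) κ j hr hj c1 c2 hN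
  rw [← cc_tw] at hB'
  have hS' := hS X hX2 r κ j hr hj c1
  set S := ∑ n ∈ Icc 1 (200 * X), ‖cc (Pp κ j) n‖ with hSd
  have hS0 : 0 ≤ S := sum_nonneg fun _ _ => norm_nonneg _
  -- first term
  have t1 : T0 ^ 2 * η1 * S ≤ X / L ^ (A + 1) := by
    have h1 : T0 ^ 2 * η1 * S ≤ T0 ^ 2 * η1 * (X * L ^ 100) :=
      mul_le_mul_of_nonneg_left hS' (by positivity)
    refine h1.trans ?_
    rw [hT0, hη1d, ← pow_mul, le_div_iff₀ (by positivity)]
    have h2 : L ^ (K' * 2) * L ^ 100 * L ^ (A + 1) ≤ L ^ A1 := by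
      rw [← pow_add, ← pow_add]
      exact pow_le_pow_right₀ hL1 (by omega)
    calc L ^ (K' * 2) * (1 / L ^ A1) * (X * L ^ 100) * L ^ (A + 1)
        = X * (L ^ (K' * 2) * L ^ 100 * L ^ (A + 1)) / L ^ A1 := by ring
      _ ≤ X * L ^ A1 / L ^ A1 := by
          apply div_le_div_of_nonneg_right _ (by positivity)
          exact mul_le_mul_of_nonneg_left h2 hX0.le
      _ = X := by field_simp
  -- third term
  have t3 : S * T / (η * T) ^ k ≤ X / L ^ (A + 1) := by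
    have h1 : (X : ℝ) ^ (e / 2) / 4 ≤ η * T := by
      have h2 : (X : ℝ) ^ (-(3 / 8) + e) / 4 * T ≤ η * T := mul_le_mul_of_nonneg_right hη1 (by positivity)
      have h3 : (X : ℝ) ^ (-(3 / 8) + e) * T = (X : ℝ) ^ (e / 2) := by
        rw [hT, ← Real.rpow_add hX0]
        congr 1
        ring
      calc (X : ℝ) ^ (e / 2) / 4 = (X : ℝ) ^ (-(3 / 8) + e) / 4 * T := by rw [← h3]; ring
        _ ≤ _ := h2
    have h2 : (X : ℝ) ^ (1 / 2 : ℝ) / 4 ^ k ≤ (η * T) ^ k := by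
      have h3 : ((X : ℝ) ^ (e / 2) / 4) ^ k ≤ (η * T) ^ k := pow_le_pow_left₀ (by positivity) h1 k
      refine le_trans ?_ h3
      rw [div_pow]
      apply div_le_div_of_nonneg_right _ (by positivity)
      rw [← Real.rpow_natCast, ← Real.rpow_mul hX0.le]
      apply Real.rpow_le_rpow_of_exponent_le (by linarith)
      have h4 : 1 / e ≤ (k : ℝ) := by
        rw [hk]
        push_cast
        have := Nat.le_ceil (1 / e)
        linarith
      rw [div_le_iff₀ he] at h4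
      nlinarith
    have h3 : S * T ≤ X * L ^ 100 * (X : ℝ) ^ (3 / 8 : ℝ) := by
      apply mul_le_mul hS' _ (by positivity) (by positivity)
      exact Real.rpow_le_rpow_of_exponent_le (by linarith) (by linarith)
    have h5 := H5 X hX5
    have h6 : (X : ℝ) ^ (1 / 2 : ℝ) = (X : ℝ) ^ (3 / 8 : ℝ) * (X : ℝ) ^ (1 / 8 : ℝ) := by
      rw [← Real.rpow_add hX0]
      norm_num
    have h7 : 0 < (η * T) ^ k := by positivity
    rw [div_le_div_iff₀ h7 (by positivity)]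
    calc S * T * L ^ (A + 1) ≤ X * L ^ 100 * (X : ℝ) ^ (3 / 8 : ℝ) * L ^ (A + 1) :=
          mul_le_mul_of_nonneg_right h3 (by positivity)
      _ = X * ((X : ℝ) ^ (3 / 8 : ℝ) * L ^ (A + 101)) := by
          rw [show A + 101 = 100 + (A + 1) by ring, pow_add L 100]
          ring
      _ ≤ X * ((X : ℝ) ^ (3 / 8 : ℝ) * ((X : ℝ) ^ (1 / 8 : ℝ) / 4 ^ k)) := by
          apply mul_le_mul_of_nonneg_left _ hX0.le
          apply mul_le_mul_of_nonneg_left _ (by positivity)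
          rw [le_div_iff₀ (by positivity)]
          have h8 : L ^ (A + 101) ≤ L ^ (A + 102) := pow_le_pow_right₀ hL1 (by omega)
          have h9 : (0 : ℝ) < 4 ^ k := by positivity
          nlinarith
      _ = X * ((X : ℝ) ^ (1 / 2 : ℝ) / 4 ^ k) := by rw [h6]; ring
      _ ≤ X * (η * T) ^ k := mul_le_mul_of_nonneg_left h2 hX0.le
  -- second term
  have t2 : ∫ t in {t : ℝ | T0 ≤ |t| ∧ |t| ≤ T}, ‖DP (cc (Pp κ j)) (200 * X) t‖ ≤ X / L ^ (A + 1) := hB'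
  refine hD.trans ?_
  have h8 : (X : ℝ) / L ^ A = L * (X / L ^ (A + 1)) := by
    rw [pow_succ]
    field_simp
  have h9 : 0 ≤ (X : ℝ) / L ^ (A + 1) := by positivity
  rw [h8]
  calc C * (T0 ^ 2 * η1 * S + (∫ t in {t : ℝ | T0 ≤ |t| ∧ |t| ≤ T}, ‖DP (cc (Pp κ j)) (200 * X) t‖)
        + S * T / (η * T) ^ k)
      ≤ C * (X / L ^ (A + 1) + X / L ^ (A + 1) + X / L ^ (A + 1)) :=
        mul_le_mul_of_nonneg_left (by linarith) (by linarith)
    _ = (3 * C) * (X / L ^ (A + 1)) := by ring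
    _ ≤ L * (X / L ^ (A + 1)) := mul_le_mul_of_nonneg_right (by linarith) h9

end Pool.Agent.H88.E58

end

section

/-!
# VK VkChi: twisted sums over primes, from the form with `z ≥ exp ((log x)^(19/20))` (VkChiW)
-/

set_option autoImplicit false

namespace Pool.Agent.H97.VK

open Finset
open Pool.Agent.H91.PK
open Pool.Agent.H91.EHA

theorem vk_chi (K B : ℕ) (e0 : ℝ) (he : 0 < e0) : ∃ K' x0 : ℕ, ∀ x : ℕ, x0 ≤ x →
    ∀ (d : ℕ) (χ : DirichletCharacter ℂ d) (t : ℝ) (z : ℕ), 1 ≤ d → (d : ℝ) ≤ Real.log x ^ B →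
    (x : ℝ) ^ e0 ≤ z → z ≤ x ^ 2 → Real.log x ^ K' ≤ |t| → |t| ≤ (x : ℝ) ^ (2 : ℕ) →
    ‖∑ n ∈ Icc 1 z, ((Lam n : ℝ) : ℂ) * χ (n : ZMod d) * ee (t * Real.log n)‖ ≤ z / Real.log x ^ K := by
  obtain ⟨K', x0, h⟩ := vk_chi_w K B
  have h1 : ∀ᶠ x : ℕ in Filter.atTop, (1 / e0) ^ 20 + 1 ≤ Real.log x :=
    (Real.tendsto_log_atTop.comp tendsto_natCast_atTop_atTop).eventually
      (Filter.eventually_ge_atTop _)
  obtain ⟨x1, hx1⟩ := Filter.eventually_atTop.1 h1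
  refine ⟨K', max (max x0 x1) 2, fun x hx d χ t z hd hdB hz1 hz2 ht1 ht2 => ?_⟩
  have hxa : x0 ≤ x := ((le_max_left _ _).trans (le_max_left _ _)).trans hx
  have hxb : x1 ≤ x := ((le_max_right _ _).trans (le_max_left _ _)).trans hx
  have hxc : 2 ≤ x := (le_max_right _ _).trans hx
  refine h x hxa d χ t z hd hdB (le_trans ?_ hz1) hz2 ht1 ht2
  have hL := hx1 x hxb
  have hx0 : (0 : ℝ) < x := by exact_mod_cast (by omega : 0 < x)
  have hi0 : 0 < 1 / e0 := by positivity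
  have hy1 : 0 < Real.log x := by
    have : 0 < (1 / e0) ^ 20 := by positivity
    linarith only [hL, this]
  set y : ℝ := Real.log x with hy
  have h3 : y = y ^ (19 / 20 : ℝ) * y ^ (1 / 20 : ℝ) := by
    rw [← Real.rpow_add hy1]
    norm_num
  have h4 : 1 / e0 ≤ y ^ (1 / 20 : ℝ) := by
    have h5 : ((1 / e0) ^ 20) ^ (1 / 20 : ℝ) ≤ y ^ (1 / 20 : ℝ) :=
      Real.rpow_le_rpow (by positivity) (by linarith only [hL]) (by norm_num)
    refine le_trans (le_of_eq ?_) h5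
    rw [← Real.rpow_natCast, ← Real.rpow_mul hi0.le]
    norm_num
  have h6 : 1 ≤ y ^ (1 / 20 : ℝ) * e0 := by
    rw [div_le_iff₀ he] at h4
    exact h4
  have h7 : 0 ≤ y ^ (19 / 20 : ℝ) := by positivity
  have h8 : y ^ (19 / 20 : ℝ) ≤ y * e0 := by
    calc y ^ (19 / 20 : ℝ) = y ^ (19 / 20 : ℝ) * 1 := (mul_one _).symm
      _ ≤ y ^ (19 / 20 : ℝ) * (y ^ (1 / 20 : ℝ) * e0) := mul_le_mul_of_nonneg_left h6 h7
      _ = y * e0 := by
        conv_rhs => rw [h3]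
        ring
  rw [Real.rpow_def_of_pos hx0]
  exact Real.exp_le_exp.2 h8

end Pool.Agent.H97.VK

end

section

/-!
# VK VkClass: the same in residue classes (main theorem of Part I)

Proof.  `(u,d) = 1`: orthogonality (Mathlib `DirichletCharacter.sum_char_inv_mul_char_eq`, compare `swk1_orth` in `EHA/SwK1.lean`):
`∑_{n ≡ u} Λ(n) ee(t log n) = (1/φ(d)) ∑_χ χ(u)^{-1} ∑_{n≤z} Λ(n) χ(n) ee(t log n)`, at most `φ(d)` characters, `vk_chi K B e0`.
`(u,d) > 1`: every `n ≡ u mod d` has a common factor with `d`, so `Λ(n) ≠ 0` only for powers of the primes `p ∣ d`: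
at most `∑_{p ∣ d} log z ≤ d · log z ≤ z/L^K` (`DiA_psi_noncoprime` in `PK/DiA.lean`, or directly).
-/

set_option autoImplicit false

namespace Pool.Agent.H97.VK

open Finset
open Pool.Agent.H91.EHA
open Pool.Agent.H91.PK (ee)

theorem VkClass_orth {z d u : ℕ} (hd : 1 ≤ d) (hu : Nat.Coprime u d) (f : ℕ → ℂ) :
    (d.totient : ℂ) * ∑ n ∈ (Icc 1 z).filter (fun n => n % d = u % d), f n =
      ∑ χ : DirichletCharacter ℂ d, χ ((u : ZMod d)⁻¹) *
        ∑ n ∈ Icc 1 z, f n * χ (n : ZMod d) := by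
  have : NeZero d := ⟨by omega⟩
  have hun : IsUnit (u : ZMod d) := (ZMod.isUnit_iff_coprime u d).mpr hu
  simp only [mul_sum]
  rw [sum_comm, sum_filter]
  refine sum_congr rfl fun n _ => ?_
  have h1 : ∀ χ : DirichletCharacter ℂ d,
      χ ((u : ZMod d)⁻¹) * (f n * χ (n : ZMod d))
      = (χ ((u : ZMod d)⁻¹) * χ (n : ZMod d)) * f n := by
    intro χ; ring
  simp only [h1]
  rw [← sum_mul, DirichletCharacter.sum_char_inv_mul_char_eq ℂ hun]
  have hiff : ((u : ZMod d) = (n : ZMod d)) ↔ n % d = u % d := by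
    rw [eq_comm]
    exact ZMod.natCast_eq_natCast_iff' n u d
  by_cases h : n % d = u % d
  · rw [if_pos h, if_pos (hiff.mpr h)]
  · rw [if_neg h, if_neg (fun h' => h (hiff.mp h'))]
    simp

theorem VkClass_norm_ee (t : ℝ) : ‖ee t‖ = 1 := by
  unfold ee
  rw [show (2 * Real.pi * t * Complex.I : ℂ) = ((2 * Real.pi * t : ℝ) : ℂ) * Complex.I by
    push_cast; ring]
  exact Complex.norm_exp_ofReal_mul_I _

theorem VkClass_norm_char_le {d : ℕ} (χ : DirichletCharacter ℂ d) (a : ZMod d) : ‖χ a‖ ≤ 1 :=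
  DirichletCharacter.norm_le_one χ a

theorem VkClass_large (K B : ℕ) (e0 : ℝ) (he : 0 < e0) : ∃ x0 : ℕ, ∀ x : ℕ, x0 ≤ x →
    1 ≤ Real.log x ∧ 2 * Real.log x ^ (B + 1 + K) ≤ (x : ℝ) ^ e0 := by
  have h1 : (fun x : ℝ => Real.log x ^ ((B + 1 + K : ℕ) : ℝ)) =o[Filter.atTop]
      fun x : ℝ => x ^ e0 := isLittleO_log_rpow_rpow_atTop _ he
  have h2 := h1.bound (show (0 : ℝ) < 1 / 2 by norm_num)
  have h3 : ∀ᶠ x : ℝ in Filter.atTop, 1 ≤ Real.log x ∧
      2 * Real.log x ^ (B + 1 + K) ≤ x ^ e0 := by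
    filter_upwards [h2, Real.tendsto_log_atTop.eventually_ge_atTop 1,
      Filter.eventually_ge_atTop 0] with x hx hx1 hx0
    refine ⟨hx1, ?_⟩
    rw [Real.rpow_natCast, Real.norm_of_nonneg (by positivity),
      Real.norm_of_nonneg (Real.rpow_nonneg hx0 _)] at hx
    linarith
  have h4 := tendsto_natCast_atTop_atTop.eventually h3
  obtain ⟨x0, hx0⟩ := Filter.eventually_atTop.1 h4
  exact ⟨x0, fun x hx => hx0 x hx⟩

theorem VkClass_noncop {z d u : ℕ} (hz : 1 ≤ z) (hd : 1 ≤ d) (hu : ¬ Nat.Coprime u d)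
    (t : ℝ) :
    ‖∑ n ∈ (Icc 1 z).filter (fun n => n % d = u % d),
      ((Lam n : ℝ) : ℂ) * ee (t * Real.log n)‖ ≤ d * Real.log z := by
  have h1 : ‖∑ n ∈ (Icc 1 z).filter (fun n => n % d = u % d),
      ((Lam n : ℝ) : ℂ) * ee (t * Real.log n)‖ ≤
      ∑ n ∈ (Icc 1 z).filter (fun n => n % d = u % d), ArithmeticFunction.vonMangoldt n := by
    refine (norm_sum_le _ _).trans (sum_le_sum fun n _ => ?_)
    rw [norm_mul, VkClass_norm_ee, mul_one, Complex.norm_real, Lam,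
      Real.norm_of_nonneg ArithmeticFunction.vonMangoldt_nonneg]
  have h2 : ∑ n ∈ (Icc 1 z).filter (fun n => n % d = u % d), ArithmeticFunction.vonMangoldt n ≤
      ∑ n ∈ (Icc 1 z).filter (fun n => ¬ Nat.Coprime n d), ArithmeticFunction.vonMangoldt n := by
    refine sum_le_sum_of_subset_of_nonneg ?_ (fun _ _ _ => ArithmeticFunction.vonMangoldt_nonneg)
    intro n hn
    rw [mem_filter] at hn ⊢
    refine ⟨hn.1, fun hc => hu ?_⟩
    have h3 : Nat.gcd n d = Nat.gcd u d := Nat.ModEq.gcd_eq hn.2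
    rw [Nat.Coprime, ← h3]
    exact hc
  have h4 := Pool.Agent.H91.PK.DiA_psi_noncoprime (N := z) (d := d) hz hd
  have h5 : (d.primeFactors.card : ℝ) ≤ d := by
    have : d.primeFactors.card ≤ (Icc 1 d).card := by
      refine card_le_card fun p hp => ?_
      rw [mem_Icc]
      exact ⟨(Nat.prime_of_mem_primeFactors hp).one_le,
        Nat.le_of_dvd hd (Nat.dvd_of_mem_primeFactors hp)⟩
    rw [Nat.card_Icc, Nat.add_sub_cancel] at this
    exact_mod_cast this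
  calc _ ≤ _ := h1
    _ ≤ _ := h2
    _ ≤ _ := h4
    _ ≤ _ := mul_le_mul_of_nonneg_right h5 (Real.log_natCast_nonneg z)

theorem vk_class (K B : ℕ) (e0 : ℝ) (he : 0 < e0) : ∃ K' x0 : ℕ, ∀ x : ℕ, x0 ≤ x →
    ∀ (d u z : ℕ) (t : ℝ), 1 ≤ d → (d : ℝ) ≤ Real.log x ^ B →
    (x : ℝ) ^ e0 ≤ z → z ≤ x ^ 2 → Real.log x ^ K' ≤ |t| → |t| ≤ (x : ℝ) ^ (2 : ℕ) →
    ‖∑ n ∈ (Icc 1 z).filter (fun n => n % d = u % d), ((Lam n : ℝ) : ℂ) * ee (t * Real.log n)‖ ≤
      z / Real.log x ^ K := by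
  obtain ⟨K', x1, hchi⟩ := vk_chi K B e0 he
  obtain ⟨x2, hlarge⟩ := VkClass_large K B e0 he
  refine ⟨K', max (max x1 x2) 1, fun x hx d u z t hd hdB hz1 hz2 ht1 ht2 => ?_⟩
  have hx1 : x1 ≤ x := ((le_max_left _ _).trans (le_max_left _ _)).trans hx
  have hx2 : x2 ≤ x := ((le_max_right _ _).trans (le_max_left _ _)).trans hx
  have hx3 : 1 ≤ x := (le_max_right _ _).trans hx
  obtain ⟨hL1, hL2⟩ := hlarge x hx2
  have hL0 : 0 < Real.log x := by linarith only [hL1]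
  have hLK : 0 < Real.log x ^ K := pow_pos hL0 K
  have hz0 : (0 : ℝ) ≤ z := Nat.cast_nonneg z
  by_cases hu : Nat.Coprime u d
  · have : NeZero d := ⟨by omega⟩
    have horth := VkClass_orth (z := z) hd hu (fun n => ((Lam n : ℝ) : ℂ) * ee (t * Real.log n))
    have hphi : (0 : ℝ) < d.totient := by exact_mod_cast Nat.totient_pos.2 hd
    have h1 : (d.totient : ℝ) * ‖∑ n ∈ (Icc 1 z).filter (fun n => n % d = u % d),
        ((Lam n : ℝ) : ℂ) * ee (t * Real.log n)‖ ≤ d.totient * (z / Real.log x ^ K) := by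
      have h2 : (d.totient : ℝ) * ‖∑ n ∈ (Icc 1 z).filter (fun n => n % d = u % d),
          ((Lam n : ℝ) : ℂ) * ee (t * Real.log n)‖ =
          ‖(d.totient : ℂ) * ∑ n ∈ (Icc 1 z).filter (fun n => n % d = u % d),
          ((Lam n : ℝ) : ℂ) * ee (t * Real.log n)‖ := by
        rw [norm_mul, Complex.norm_natCast]
      rw [h2, horth]
      have h3 : ∀ χ : DirichletCharacter ℂ d, ‖χ ((u : ZMod d)⁻¹) *
          ∑ n ∈ Icc 1 z, ((Lam n : ℝ) : ℂ) * ee (t * Real.log n) * χ (n : ZMod d)‖ ≤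
          z / Real.log x ^ K := by
        intro χ
        have h4 := hchi x hx1 d χ t z hd hdB hz1 hz2 ht1 ht2
        have h5 : ∑ n ∈ Icc 1 z, ((Lam n : ℝ) : ℂ) * ee (t * Real.log n) * χ (n : ZMod d) =
            ∑ n ∈ Icc 1 z, ((Lam n : ℝ) : ℂ) * χ (n : ZMod d) * ee (t * Real.log n) :=
          sum_congr rfl fun n _ => by ring
        rw [norm_mul, h5]
        calc _ ≤ 1 * ‖∑ n ∈ Icc 1 z, ((Lam n : ℝ) : ℂ) * χ (n : ZMod d) *
              ee (t * Real.log n)‖ :=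
              mul_le_mul_of_nonneg_right (VkClass_norm_char_le χ _) (norm_nonneg _)
          _ ≤ _ := by rw [one_mul]; exact h4
      have h6 : (Finset.univ : Finset (DirichletCharacter ℂ d)).card = d.totient := by
        rw [card_univ, ← Nat.card_eq_fintype_card,
          DirichletCharacter.card_eq_totient_of_hasEnoughRootsOfUnity ℂ d]
      calc _ ≤ ∑ χ : DirichletCharacter ℂ d, ‖χ ((u : ZMod d)⁻¹) *
            ∑ n ∈ Icc 1 z, ((Lam n : ℝ) : ℂ) * ee (t * Real.log n) * χ (n : ZMod d)‖ :=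
            norm_sum_le _ _
        _ ≤ ∑ _χ : DirichletCharacter ℂ d, (z / Real.log x ^ K : ℝ) :=
            sum_le_sum fun χ _ => h3 χ
        _ = _ := by rw [sum_const, h6, nsmul_eq_mul]
    exact le_of_mul_le_mul_left h1 hphi
  · have hz3 : (1 : ℝ) ≤ z := by
      have h1 : (1 : ℝ) ≤ (x : ℝ) ^ e0 :=
        Real.one_le_rpow (by exact_mod_cast hx3) he.le
      linarith only [hz1, h1]
    have hz4 : 1 ≤ z := by exact_mod_cast hz3
    have h1 := VkClass_noncop (z := z) (d := d) (u := u) hz4 hd hu t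
    have h2 : Real.log z ≤ 2 * Real.log x := by
      have h3 : (z : ℝ) ≤ (x : ℝ) ^ 2 := by exact_mod_cast hz2
      have h4 := Real.log_le_log (by linarith only [hz3]) h3
      rwa [Real.log_pow, Nat.cast_ofNat] at h4
    rw [le_div_iff₀ hLK]
    have hlz : 0 ≤ Real.log z := Real.log_natCast_nonneg z
    calc ‖∑ n ∈ (Icc 1 z).filter (fun n => n % d = u % d),
          ((Lam n : ℝ) : ℂ) * ee (t * Real.log n)‖ * Real.log x ^ K
        ≤ (d * Real.log z) * Real.log x ^ K := mul_le_mul_of_nonneg_right h1 hLK.le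
      _ ≤ (Real.log x ^ B * (2 * Real.log x)) * Real.log x ^ K := by
          refine mul_le_mul_of_nonneg_right ?_ hLK.le
          exact mul_le_mul hdB h2 hlz (pow_nonneg hL0.le B)
      _ = 2 * Real.log x ^ (B + 1 + K) := by rw [pow_add, pow_add]; ring
      _ ≤ (x : ℝ) ^ e0 := hL2
      _ ≤ z := hz1

end Pool.Agent.H97.VK

end
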