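import Pool.Agent.H15.TB1.M84

/-! The parts of this file: H76.MU.VkA, H76.MU.VkB. -/

section

/-!
# MU VkA: variant of `H97/VK/SmSh.lean` (helper97, helper59) with `log z` in the second term

Copy of that file; the only changes: `H = (3 log z)^{k+1}` instead of `(3 L)^{k+1}`, and `5 L^{4κ} ≤ z` instead of `x^{e0} ≤ z`.
-/

set_option autoImplicit false

namespace Pool.Agent.H76.MU.VKA

open Finset
open Pool.Agent.H91.EHA
open Pool.Agent.H91.PK (ee)
open Pool.Agent.H97.VK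

private noncomputable def smA (x k : ℕ) {d : ℕ} (χ : DirichletCharacter ℂ d) (t : ℝ) (n : ℕ) : ℂ :=
  ((Lam n * Real.log n ^ k : ℝ) : ℂ) * ch x χ (n : ZMod (qm x d)) * ee (t * Real.log n)

private theorem smA_ee (t : ℝ) (n : ℕ) (hn : n ≠ 0) :
    ee (t * Real.log n) = (n : ℂ) ^ (2 * Real.pi * t * Complex.I : ℂ) := by
  have hn0 : (n : ℂ) ≠ 0 := by exact_mod_cast hn
  unfold ee
  rw [Complex.cpow_def_of_ne_zero hn0, ← Complex.natCast_log]
  congr 1
  push_cast
  ring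

private theorem smA_term (x k : ℕ) {d : ℕ} (χ : DirichletCharacter ℂ d) (t : ℝ) (s : ℂ) (n : ℕ) :
    LSeries.term (smA x k χ t) s n =
      LSeries.term (fun n => ((Lam n * Real.log n ^ k : ℝ) : ℂ) * ch x χ (n : ZMod (qm x d)))
        (s - 2 * Real.pi * t * Complex.I) n := by
  rcases Nat.eq_zero_or_pos n with rfl | hn
  · simp
  · have hn1 : n ≠ 0 := by omega
    have hn0 : (n : ℂ) ≠ 0 := by exact_mod_cast hn1
    rw [LSeries.term_of_ne_zero hn1, LSeries.term_of_ne_zero hn1, Complex.cpow_sub _ _ hn0]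
    unfold smA
    rw [smA_ee t n hn1]
    have h1 : (n : ℂ) ^ s ≠ 0 := by
      rw [Complex.cpow_def_of_ne_zero hn0]; exact Complex.exp_ne_zero _
    have h2 : (n : ℂ) ^ (2 * Real.pi * t * Complex.I : ℂ) ≠ 0 := by
      rw [Complex.cpow_def_of_ne_zero hn0]; exact Complex.exp_ne_zero _
    field_simp

private theorem smA_LSeries (x k : ℕ) {d : ℕ} (χ : DirichletCharacter ℂ d) (t : ℝ) (s : ℂ) :
    LSeries (smA x k χ t) s = Fk (qm x d) (ch x χ) k (s - 2 * Real.pi * t * Complex.I) := by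
  unfold Fk LSeries
  exact tsum_congr fun n => smA_term x k χ t s n

private theorem smA_summable (x k : ℕ) {d : ℕ} (χ : DirichletCharacter ℂ d) (t : ℝ) (s : ℂ)
    (hs : 1 < s.re) : LSeriesSummable (smA x k χ t) s := by
  have h := Fk_summable (qm x d) (ch x χ) k (s - 2 * Real.pi * t * Complex.I) (by
    have : (s - 2 * Real.pi * t * Complex.I).re = s.re := by simp
    rw [this]; exact hs)
  unfold LSeriesSummable at *
  refine h.congr fun n => ?_
  exact (smA_term x k χ t s n).symm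

private theorem smA_norm (x k : ℕ) {d : ℕ} (χ : DirichletCharacter ℂ d) (t : ℝ) (n : ℕ) :
    ‖smA x k χ t n‖ ≤ Real.log n ^ (k + 1) := by
  have hlog : 0 ≤ Real.log n := Real.log_natCast_nonneg n
  have hLam : Lam n ≤ Real.log n := ArithmeticFunction.vonMangoldt_le_log
  have hLam0 : 0 ≤ Lam n := ArithmeticFunction.vonMangoldt_nonneg
  unfold smA
  rw [norm_mul, norm_mul, Pool.Agent.H91.PK.LSa_norm_ee, mul_one, Complex.norm_real,
    Real.norm_eq_abs, abs_of_nonneg (mul_nonneg hLam0 (pow_nonneg hlog k))]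
  calc Lam n * Real.log n ^ k * ‖ch x χ (n : ZMod (qm x d))‖
      ≤ Lam n * Real.log n ^ k * 1 :=
        mul_le_mul_of_nonneg_left (ch_norm_le x χ _) (mul_nonneg hLam0 (pow_nonneg hlog k))
    _ ≤ Real.log n * Real.log n ^ k * 1 := by
        refine mul_le_mul_of_nonneg_right ?_ (by norm_num)
        exact mul_le_mul_of_nonneg_right hLam (pow_nonneg hlog k)
    _ = Real.log n ^ (k + 1) := by ring

/-- `(log n)^m ≤ m! (1/c)^m n^c` -/
private theorem sm_logpow (m n : ℕ) (hn : 1 ≤ n) (c : ℝ) (hc : 0 < c) :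
    Real.log n ^ m ≤ (m.factorial : ℝ) * (1 / c) ^ m * (n : ℝ) ^ c := by
  have hn0 : (0 : ℝ) < n := by exact_mod_cast hn
  have hlog : 0 ≤ Real.log n := Real.log_natCast_nonneg n
  have h1 : (c * Real.log n) ^ m / (m.factorial : ℝ) ≤ Real.exp (c * Real.log n) :=
    Real.pow_div_factorial_le_exp _ (by positivity) m
  have h2 : Real.exp (c * Real.log n) = (n : ℝ) ^ c := by
    rw [Real.rpow_def_of_pos hn0, mul_comm]
  rw [h2, div_le_iff₀ (by positivity)] at h1
  have h3 : Real.log n ^ m = (1 / c) ^ m * (c * Real.log n) ^ m := by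
    rw [← mul_pow]
    congr 1
    field_simp
  rw [h3]
  calc (1 / c) ^ m * (c * Real.log n) ^ m ≤ (1 / c) ^ m * ((n : ℝ) ^ c * (m.factorial : ℝ)) :=
        mul_le_mul_of_nonneg_left h1 (by positivity)
    _ = _ := by ring

private theorem sm_B2 (x k : ℕ) {d : ℕ} (χ : DirichletCharacter ℂ d) (t : ℝ) (L : ℝ) (hL : 1 ≤ L)
    (s : ℂ) (hs : s.re = 1 + 1 / (4 * L)) :
    ‖LSeries (smA x k χ t) s‖ ≤ ((k + 1).factorial : ℝ) * 9 ^ (k + 2) * L ^ (k + 2) := by
  set c : ℝ := 1 / (8 * L) with hc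
  have hc0 : 0 < c := by positivity
  set M : ℝ := ((k + 1).factorial : ℝ) * (1 / c) ^ (k + 1) with hM
  have hM0 : 0 ≤ M := by positivity
  set G : ℕ → ℝ := fun n => M * (1 / (n : ℝ) ^ (1 + c)) with hG
  have hGs : Summable G := (Real.summable_one_div_nat_rpow.mpr (by linarith only [hc0])).mul_left M
  have hle : ∀ n, ‖LSeries.term (smA x k χ t) s n‖ ≤ G n := by
    intro n
    rw [LSeries.norm_term_eq]
    split_ifs with h0
    · simp only [hG]; positivity
    · have hn1 : 1 ≤ n := by omega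
      have hn0 : (0 : ℝ) < n := by exact_mod_cast hn1
      have hpow : (0 : ℝ) < (n : ℝ) ^ s.re := Real.rpow_pos_of_pos hn0 _
      rw [div_le_iff₀ hpow]
      calc ‖smA x k χ t n‖ ≤ Real.log n ^ (k + 1) := smA_norm x k χ t n
        _ ≤ M * (n : ℝ) ^ c := sm_logpow (k + 1) n hn1 c hc0
        _ = G n * (n : ℝ) ^ s.re := by
            simp only [hG]
            have e : (n : ℝ) ^ s.re = (n : ℝ) ^ (1 + c) * (n : ℝ) ^ c := by
              rw [← Real.rpow_add hn0]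
              congr 1
              rw [hs, hc]
              field_simp
              ring
            rw [e]
            have h3 : (n : ℝ) ^ (1 + c) ≠ 0 := (Real.rpow_pos_of_pos hn0 _).ne'
            field_simp
  have h1 : ‖LSeries (smA x k χ t) s‖ ≤ ∑' n, G n := by
    unfold LSeries
    exact tsum_of_norm_bounded hGs.hasSum hle
  have h2 : ∑' n, G n ≤ M * (1 + 1 / c) := by
    rw [hGs.tsum_eq_zero_add]
    have e0 : G 0 = 0 := by
      simp only [hG, Nat.cast_zero]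
      rw [Real.zero_rpow (by linarith only [hc0])]
      simp
    rw [e0, zero_add]
    simp only [hG]
    rw [tsum_mul_left]
    refine mul_le_mul_of_nonneg_left ?_ hM0
    have := Pool.Agent.H91.PK.zeta_bound hc0
    push_cast
    exact this
  have e1 : 1 / c = 8 * L := by rw [hc]; field_simp
  calc ‖LSeries (smA x k χ t) s‖ ≤ M * (1 + 1 / c) := h1.trans h2
    _ = ((k + 1).factorial : ℝ) * ((8 * L) ^ (k + 1) * (1 + 8 * L)) := by
        rw [hM, e1]; ring
    _ ≤ ((k + 1).factorial : ℝ) * ((9 * L) ^ (k + 1) * (9 * L)) := by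
        refine mul_le_mul_of_nonneg_left ?_ (by positivity)
        refine mul_le_mul ?_ (by linarith only [hL]) (by positivity) (by positivity)
        exact pow_le_pow_left₀ (by positivity) (by linarith only [hL]) _
    _ = _ := by rw [← pow_succ, mul_pow]; ring

private theorem sm_ev (κ : ℕ) (e0 : ℝ) (he : 0 < e0) : ∃ x0 : ℕ, ∀ x : ℕ, x0 ≤ x →
    4 * Real.log x ^ (4 * κ) ≤ (x : ℝ) ^ e0 ∧ 2 ≤ Real.log x ∧ 4 ≤ x := by
  have h1 : ∀ᶠ x : ℝ in Filter.atTop, 4 * Real.log x ^ (4 * κ) ≤ x ^ e0 := by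
    have h := isLittleO_log_rpow_rpow_atTop (((4 * κ : ℕ) : ℝ)) he
    have h2 := h.def (show (0 : ℝ) < 1 / 4 by norm_num)
    filter_upwards [h2, Filter.eventually_ge_atTop (1 : ℝ)] with x hx hx1
    have hlog : 0 ≤ Real.log x := Real.log_nonneg hx1
    have hp : 0 ≤ x ^ e0 := Real.rpow_nonneg (by linarith only [hx1]) _
    rw [Real.rpow_natCast, Real.norm_of_nonneg (pow_nonneg hlog _), Real.norm_of_nonneg hp] at hx
    linarith only [hx]
  have h2 : ∀ᶠ x : ℝ in Filter.atTop, 2 ≤ Real.log x := Real.tendsto_log_atTop.eventually_ge_atTop 2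
  have h3 := (tendsto_natCast_atTop_atTop (R := ℝ)).eventually (h1.and h2)
  obtain ⟨x0, hx0⟩ := Filter.eventually_atTop.mp h3
  refine ⟨max x0 4, fun x hx => ?_⟩
  have := hx0 x (le_trans (le_max_left _ _) hx)
  exact ⟨this.1, this.2, le_trans (le_max_right _ _) hx⟩

theorem sm_sharp1 (k κ B : ℕ) (hκ : 1 ≤ κ) : ∃ C : ℝ, 1 ≤ C ∧ ∃ K' x0 : ℕ, ∀ x : ℕ, x0 ≤ x →
    ∀ (d : ℕ) (χ : DirichletCharacter ℂ d) (t : ℝ) (v z : ℕ), 1 ≤ d → (d : ℝ) ≤ Real.log x ^ B →
    5 * Real.log x ^ (4 * κ) ≤ z → z ≤ x ^ 2 → v ≤ z → Real.log x ^ K' ≤ |t| →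
    |t| ≤ (x : ℝ) ^ (2 : ℕ) →
    ‖∑ n ∈ Icc 1 v, ((Lam n * Real.log n ^ k : ℝ) : ℂ) * ch x χ (n : ZMod (qm x d)) * ee (t * Real.log n)‖ ≤
      C * z * (L9 x ^ (k + 1) * LL x ^ (20 * (k + 1)) * Real.log x ^ (3 * κ) +
        Real.log z ^ (k + 1) / Real.log x ^ κ) := by
  obtain ⟨C1, hC1, K1, x1, hfk⟩ := fk_up k B
  obtain ⟨C2, hC2, hsm⟩ := smooth_two
  obtain ⟨C3, hC3, hsh⟩ := smooth_to_sharp
  obtain ⟨x2, hyx⟩ := yx_ev
  obtain ⟨x3, hev⟩ := sm_ev κ 1 one_pos
  set C4 : ℝ := ((k + 1).factorial : ℝ) * 9 ^ (k + 2) with hC4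
  have hC40 : 0 ≤ C4 := by positivity
  refine ⟨C3 * (24 * C2 * (C1 + C4) + 2 * 3 ^ (k + 1)) + 1, by
    have : 0 ≤ C3 * (24 * C2 * (C1 + C4) + 2 * 3 ^ (k + 1)) := by positivity
    linarith only [this], max K1 (k + 2), max x1 (max x2 x3), ?_⟩
  intro x hx d χ t v z hd hdB hxz hzx hvz hKt htx
  have hx1 : x1 ≤ x := le_trans (le_max_left _ _) hx
  have hx2 : x2 ≤ x := le_trans (le_trans (le_max_left _ _) (le_max_right _ _)) hx
  have hx3 : x3 ≤ x := le_trans (le_trans (le_max_right _ _) (le_max_right _ _)) hx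
  obtain ⟨-, -, -, hLL, hL9, -, -⟩ := hyx x hx2
  obtain ⟨-, hL2, hx4⟩ := hev x hx3
  set L : ℝ := Real.log x with hLdef
  have hL1 : 1 ≤ L := by linarith only [hL2]
  have hxr : (4 : ℝ) ≤ x := by exact_mod_cast hx4
  have hx0 : (0 : ℝ) < x := by linarith only [hxr]
  set W : ℝ := L9 x ^ (k + 1) * LL x ^ (20 * (k + 1)) with hW
  have hW1 : 1 ≤ W := by
    rw [hW]
    calc (1 : ℝ) = 1 * 1 := by ring
      _ ≤ _ := mul_le_mul (one_le_pow₀ hL9) (one_le_pow₀ hLL) (by norm_num) (by positivity)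
  have hz0 : (0 : ℝ) ≤ z := Nat.cast_nonneg _
  have hz5 : (5 : ℝ) ≤ z := by
    have : (1 : ℝ) ≤ L ^ (4 * κ) := one_le_pow₀ hL1
    linarith only [hxz, this]
  obtain ⟨lz, hlz⟩ : ∃ lz : ℝ, lz = Real.log z := ⟨_, rfl⟩
  have hlz0 : 0 ≤ lz := by rw [hlz]; exact Real.log_nonneg (by linarith only [hz5])
  rw [← hlz]
  have hRHS0 : 0 ≤ (z : ℝ) * (W * L ^ (3 * κ) + lz ^ (k + 1) / L ^ κ) := by positivity
  have hsum : ∑ n ∈ Icc 1 v, ((Lam n * Real.log n ^ k : ℝ) : ℂ) * ch x χ (n : ZMod (qm x d)) *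
      ee (t * Real.log n) = ∑ n ∈ Icc 1 v, smA x k χ t n := rfl
  rw [hsum]
  suffices hmain : ‖∑ n ∈ Icc 1 v, smA x k χ t n‖ ≤
      C3 * (24 * C2 * (C1 + C4) + 2 * 3 ^ (k + 1)) * (z * (W * L ^ (3 * κ) + lz ^ (k + 1) / L ^ κ)) by
    calc ‖∑ n ∈ Icc 1 v, smA x k χ t n‖ ≤ _ := hmain
      _ ≤ (C3 * (24 * C2 * (C1 + C4) + 2 * 3 ^ (k + 1)) + 1) *
          (z * (W * L ^ (3 * κ) + lz ^ (k + 1) / L ^ κ)) :=
        mul_le_mul_of_nonneg_right (by linarith only) hRHS0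
      _ = _ := by ring
  rcases Nat.lt_or_ge v 2 with hv | hv
  · have h0 : ∑ n ∈ Icc 1 v, smA x k χ t n = 0 := by
      refine Finset.sum_eq_zero fun n hn => ?_
      rw [Finset.mem_Icc] at hn
      have hn1 : n = 1 := by omega
      subst hn1
      unfold smA Lam
      simp
    rw [h0, norm_zero]
    positivity
  -- main case
  have hpi : (3 : ℝ) < Real.pi := Real.pi_gt_three
  have hpi4 : Real.pi ≤ 4 := Real.pi_le_four
  set T : ℝ := Real.pi * |t| with hT
  have hKt1 : L ^ K1 ≤ |t| := (pow_le_pow_right₀ hL1 (le_max_left _ _)).trans hKt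
  have hKt2 : L ^ (k + 2) ≤ |t| := (pow_le_pow_right₀ hL1 (le_max_right _ _)).trans hKt
  have ht1 : 1 ≤ |t| := (one_le_pow₀ hL1).trans hKt1
  have htT : |t| ≤ T := by rw [hT]; nlinarith only [hpi, ht1]
  have hT1 : 1 ≤ T := ht1.trans htT
  set β : ℝ := 1 + 1 / (4 * L) with hβ
  have hβ1 : 1 < β := by rw [hβ]; have : 0 < 1 / (4 * L) := by positivity
                         linarith only [this]
  have hβ2 : β ≤ 2 := by
    rw [hβ]
    have : 1 / (4 * L) ≤ 1 := by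
      rw [div_le_one (by positivity)]; linarith only [hL2]
    linarith only [this]
  have hsummable : LSeriesSummable (smA x k χ t) (β : ℂ) :=
    smA_summable x k χ t _ (by simpa using hβ1)
  have hB1 : ∀ τ : ℝ, |τ| ≤ T → ‖LSeries (smA x k χ t) (β + τ * Complex.I)‖ ≤ C1 * W := by
    intro τ hτ
    rw [smA_LSeries]
    have hre : ((β : ℂ) + τ * Complex.I - 2 * Real.pi * t * Complex.I).re = β := by simp
    have him : ((β : ℂ) + τ * Complex.I - 2 * Real.pi * t * Complex.I).im = τ - 2 * Real.pi * t := by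
      simp
    have habs2 : |2 * Real.pi * t| = 2 * T := by
      rw [hT, abs_mul, abs_of_pos (by positivity : (0 : ℝ) < 2 * Real.pi)]; ring
    have hlow : T ≤ |τ - 2 * Real.pi * t| := by
      have := abs_sub_abs_le_abs_sub (2 * Real.pi * t) τ
      rw [habs2, abs_sub_comm] at this
      linarith only [hτ, this]
    have hup : |τ - 2 * Real.pi * t| ≤ 3 * T := by
      have := abs_sub τ (2 * Real.pi * t)
      rw [habs2] at this
      linarith only [hτ, this]
    have := hfk x hx1 d χ ((β : ℂ) + τ * Complex.I - 2 * Real.pi * t * Complex.I) hd hdB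
      (by rw [hre]) (by rw [hre]; exact hβ2) (by rw [him]; linarith only [hKt1, htT, hlow])
      (by
        rw [him]
        refine hup.trans ?_
        rw [hT]
        have h5 : Real.pi * |t| ≤ (x : ℝ) * (x : ℝ) ^ 2 :=
          mul_le_mul (by linarith only [hxr, hpi4]) htx (abs_nonneg _) (by linarith only [hxr])
        calc 3 * (Real.pi * |t|) ≤ 3 * ((x : ℝ) * (x : ℝ) ^ 2) := by linarith only [h5]
          _ = 3 * (x : ℝ) ^ (3 : ℕ) := by ring)
    rw [hW, ← mul_assoc]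
    exact this
  have hB2 : ∀ τ : ℝ, ‖LSeries (smA x k χ t) (β + τ * Complex.I)‖ ≤ C4 * L ^ (k + 2) := by
    intro τ
    exact sm_B2 x k χ t L hL1 _ (by simp [hβ])
  have hBB : C1 * W + C4 * L ^ (k + 2) / T ^ 2 ≤ (C1 + C4) * W := by
    have h1 : L ^ (k + 2) ≤ T ^ 2 := by
      calc L ^ (k + 2) ≤ T := hKt2.trans htT
        _ ≤ T ^ 2 := by nlinarith only [hpi, ht1, htT]
    have h2 : C4 * L ^ (k + 2) / T ^ 2 ≤ C4 := by
      rw [div_le_iff₀ (by positivity)]
      exact mul_le_mul_of_nonneg_left h1 hC40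
    have h3 : C4 ≤ C4 * W := by nlinarith only [hC40, hW1]
    nlinarith only [h2, h3]
  have hzx2 : (z : ℝ) ≤ (x : ℝ) ^ 2 := by exact_mod_cast hzx
  have hS : ∀ N : ℕ, 1 ≤ N → N ≤ 2 * v →
      ‖∑ n ∈ Icc 1 N, smA x k χ t n * ((Pool.Agent.H91.PK.om ((n : ℝ) / N) : ℝ) : ℂ)‖ ≤
        6 * C2 * (C1 + C4) * z * W := by
    intro N hN1 hN2
    have h := hsm (smA x k χ t) β (C1 * W) (C4 * L ^ (k + 2)) T hβ1 hβ2 hsummable (by positivity)
      (by positivity) hT1 hB1 hB2 N hN1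
    have hN0 : (0 : ℝ) < N := by exact_mod_cast hN1
    have hN2z : (N : ℝ) ≤ 2 * z := by
      have : N ≤ 2 * z := hN2.trans (by omega)
      exact_mod_cast this
    have hNx : (N : ℝ) ≤ (x : ℝ) ^ 3 := by nlinarith only [hz5, hzx2, hN2z, hxr]
    have hNβ : (N : ℝ) ^ β ≤ 3 * N := by
      rw [hβ, Real.rpow_add hN0, Real.rpow_one]
      have h6 : (N : ℝ) ^ (1 / (4 * L)) ≤ 3 := by
        calc (N : ℝ) ^ (1 / (4 * L)) ≤ ((x : ℝ) ^ 3) ^ (1 / (4 * L)) :=
              Real.rpow_le_rpow hN0.le hNx (by positivity)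
          _ = Real.exp (3 / 4) := by
              rw [Real.rpow_def_of_pos (by positivity), Real.log_pow, ← hLdef]
              congr 1
              have : L ≠ 0 := by positivity
              push_cast
              field_simp
          _ ≤ Real.exp 1 := Real.exp_le_exp.mpr (by norm_num)
          _ ≤ 3 := by have := Real.exp_one_lt_d9; linarith only [this]
      nlinarith only [h6]
    calc _ ≤ C2 * (N : ℝ) ^ β * (C1 * W + C4 * L ^ (k + 2) / T ^ 2) := h
      _ ≤ C2 * (3 * N) * ((C1 + C4) * W) := by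
          refine mul_le_mul (mul_le_mul_of_nonneg_left hNβ (by linarith only [hC2])) hBB (by positivity)
            (by positivity)
      _ ≤ C2 * (3 * (2 * z)) * ((C1 + C4) * W) := by
          refine mul_le_mul_of_nonneg_right ?_ (by positivity)
          refine mul_le_mul_of_nonneg_left ?_ (by linarith only [hC2])
          linarith only [hN2z]
      _ = _ := by ring
  have hA : ∀ u w : ℕ, u ≤ w → w ≤ 2 * v → ∑ n ∈ Ioc u w, ‖smA x k χ t n‖ ≤
      (3 * lz) ^ (k + 1) * ((w : ℝ) - u + 1) := by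
    intro u w huw hw
    have h1 : ∑ n ∈ Ioc u w, ‖smA x k χ t n‖ ≤ ∑ _n ∈ Ioc u w, (3 * lz) ^ (k + 1) := by
      refine Finset.sum_le_sum fun n hn => ?_
      rw [Finset.mem_Ioc] at hn
      refine (smA_norm x k χ t n).trans ?_
      refine pow_le_pow_left₀ (Real.log_natCast_nonneg n) ?_ _
      have hn0 : (0 : ℝ) < n := by exact_mod_cast (by omega : 0 < n)
      have hn2z : (n : ℝ) ≤ 2 * z := by
        have : n ≤ 2 * z := by omega
        exact_mod_cast this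
      have hnx : (n : ℝ) ≤ (z : ℝ) ^ 3 := by
        have h9 : (2 : ℝ) ≤ (z : ℝ) ^ 2 := by nlinarith only [hz5]
        calc (n : ℝ) ≤ 2 * z := hn2z
          _ ≤ (z : ℝ) ^ 2 * z := mul_le_mul_of_nonneg_right h9 hz0
          _ = (z : ℝ) ^ 3 := by ring
      calc Real.log n ≤ Real.log ((z : ℝ) ^ 3) := Real.log_le_log hn0 hnx
        _ = 3 * lz := by rw [Real.log_pow, hlz]; push_cast; ring
    refine h1.trans ?_
    rw [Finset.sum_const, Nat.card_Ioc, nsmul_eq_mul, Nat.cast_sub huw, mul_comm]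
    refine mul_le_mul_of_nonneg_left (by linarith only) (by positivity)
  have hLκ : 1 ≤ L ^ κ := one_le_pow₀ hL1
  have hLL2 : 2 ≤ L ^ κ := by
    calc (2 : ℝ) ≤ L := hL2
      _ = L ^ 1 := (pow_one L).symm
      _ ≤ L ^ κ := pow_le_pow_right₀ hL1 hκ
  have hfin := hsh (smA x k χ t) (6 * C2 * (C1 + C4) * z * W) ((3 * lz) ^ (k + 1)) 1 v (1 / L ^ κ)
    (by positivity) (by positivity) le_rfl hv (by positivity)
    (by rw [div_le_div_iff₀ (by positivity) (by norm_num)]; linarith only [hLL2]) hS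
    (fun u w huw hw => hA u w huw hw)
  have e3 : 1 / (1 / L ^ κ) ^ 3 = L ^ (3 * κ) := by
    rw [div_pow, one_pow, one_div_one_div, ← pow_mul, mul_comm]
  rw [e3] at hfin
  have hlogv : Real.log v ≤ 3 * L := by
    have hv0 : (0 : ℝ) < v := by exact_mod_cast (by omega : 0 < v)
    have hvx : (v : ℝ) ≤ (x : ℝ) ^ 3 := by
      have : (v : ℝ) ≤ z := by exact_mod_cast hvz
      nlinarith only [hz5, hzx2, this, hxr]
    calc Real.log v ≤ Real.log ((x : ℝ) ^ 3) := Real.log_le_log hv0 hvx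
      _ = 3 * L := by rw [Real.log_pow]; push_cast; ring
  have hL3 : L ≤ L ^ (3 * κ) := by
    calc L = L ^ 1 := (pow_one L).symm
      _ ≤ L ^ (3 * κ) := pow_le_pow_right₀ hL1 (by omega)
  have hzL : 4 * L ^ (3 * κ) ≤ z / L ^ κ := by
    rw [le_div_iff₀ (by positivity)]
    calc 4 * L ^ (3 * κ) * L ^ κ = 4 * L ^ (4 * κ) := by
          rw [mul_assoc, ← pow_add]; congr 2; ring
      _ ≤ 5 * L ^ (4 * κ) := by
          have : (0 : ℝ) ≤ L ^ (4 * κ) := by positivity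
          linarith only [this]
      _ ≤ z := hxz
  have hvz' : (v : ℝ) ≤ z := by exact_mod_cast hvz
  have hb1 : L ^ (3 * κ) + Real.log v ≤ 4 * L ^ (3 * κ) := by linarith only [hlogv, hL3]
  have hb2 : 1 / L ^ κ * v + Real.log v + 1 * L ^ (3 * κ) ≤ 2 * (z / L ^ κ) := by
    have : 1 / L ^ κ * v ≤ z / L ^ κ := by
      rw [one_div, inv_mul_eq_div]
      exact div_le_div_of_nonneg_right hvz' (by positivity)
    linarith only [hlogv, hL3, hzL, this]
  have e4 : 1 / L ^ κ * (v : ℝ) + Real.log v + 1 / (1 / L ^ κ) ^ 3 =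
      1 / L ^ κ * v + Real.log v + 1 * L ^ (3 * κ) := by rw [e3, one_mul]
  refine hfin.trans ?_
  calc C3 * (6 * C2 * (C1 + C4) * z * W * (L ^ (3 * κ) + Real.log v) +
        (3 * lz) ^ (k + 1) * (1 / L ^ κ * v + Real.log v + L ^ (3 * κ)))
      ≤ C3 * (6 * C2 * (C1 + C4) * z * W * (4 * L ^ (3 * κ)) +
        (3 * lz) ^ (k + 1) * (2 * (z / L ^ κ))) := by
        refine mul_le_mul_of_nonneg_left (add_le_add ?_ ?_) hC3.le
        · exact mul_le_mul_of_nonneg_left hb1 (by positivity)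
        · refine mul_le_mul_of_nonneg_left ?_ (by positivity)
          rw [one_mul] at hb2
          exact hb2
    _ = C3 * (24 * C2 * (C1 + C4)) * (z * (W * L ^ (3 * κ))) +
        C3 * (2 * 3 ^ (k + 1)) * (z * (lz ^ (k + 1) / L ^ κ)) := by
        rw [mul_pow]; ring
    _ ≤ C3 * (24 * C2 * (C1 + C4) + 2 * 3 ^ (k + 1)) * (z * (W * L ^ (3 * κ))) +
        C3 * (24 * C2 * (C1 + C4) + 2 * 3 ^ (k + 1)) * (z * (lz ^ (k + 1) / L ^ κ)) := by
        refine add_le_add ?_ ?_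
        · refine mul_le_mul_of_nonneg_right ?_ (by positivity)
          refine mul_le_mul_of_nonneg_left ?_ hC3.le
          have : (0 : ℝ) ≤ 2 * 3 ^ (k + 1) := by positivity
          linarith only [this]
        · refine mul_le_mul_of_nonneg_right ?_ (by positivity)
          refine mul_le_mul_of_nonneg_left ?_ hC3.le
          have : (0 : ℝ) ≤ 24 * C2 * (C1 + C4) := by positivity
          linarith only [this]
    _ = _ := by ring

end Pool.Agent.H76.MU.VKA

end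

section

/-!
# MU VkB: the hypothesis `VK1`

Variant of `H97/VK/VkChi.lean` (helper97, helper61): `sm_sharp1 k κ B` with `κ = K + 2`, `k = 60 κ + 20 K + 58`; `log z ≥ L^(19/20)`.
-/

set_option autoImplicit false

namespace Pool.Agent.H76.MU

open Finset
open Pool.Agent.H91.EHA
open Pool.Agent.H91.PK (ee)
open Pool.Agent.H97.VK

private theorem VkChi_abel (f : ℕ → ℂ) (g : ℕ → ℝ) (M : ℝ) (w z : ℕ) (hwz : w < z)
    (hM : ∀ v ≤ z, ‖∑ n ∈ Icc 1 v, f n‖ ≤ M) (hg0 : ∀ n, w < n → 0 ≤ g n)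
    (hg : ∀ n, w < n → g (n + 1) ≤ g n) :
    ‖∑ n ∈ Ioc w z, (g n : ℂ) * f n‖ ≤ 2 * M * g (w + 1) := by
  have key : ∀ m : ℕ, w + 1 ≤ m → m ≤ z →
      ‖∑ n ∈ Ioc w m, (g n : ℂ) * f n - (g m : ℂ) * ∑ n ∈ Icc 1 m, f n‖ ≤
        M * (2 * g (w + 1) - g m) := by
    intro m hm
    induction m, hm using Nat.le_induction with
    | base =>
      intro hz
      rw [sum_Ioc_succ_top le_rfl, Ioc_self, sum_empty, zero_add,
        sum_Icc_succ_top (show 1 ≤ w + 1 by omega)]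
      have h1 : (g (w + 1) : ℂ) * f (w + 1) -
          (g (w + 1) : ℂ) * (∑ k ∈ Icc 1 w, f k + f (w + 1)) =
          -((g (w + 1) : ℂ) * ∑ k ∈ Icc 1 w, f k) := by ring
      rw [h1, norm_neg, norm_mul, Complex.norm_real, Real.norm_of_nonneg (hg0 _ (by omega))]
      have h2 := hM w (by omega)
      have h3 := hg0 (w + 1) (by omega)
      nlinarith only [h2, h3]
    | succ m hm ih =>
      intro hz
      have h1 := ih (by omega)
      rw [sum_Ioc_succ_top (show w ≤ m by omega), sum_Icc_succ_top (show 1 ≤ m + 1 by omega)]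
      have h2 : ∑ k ∈ Ioc w m, (g k : ℂ) * f k + (g (m + 1) : ℂ) * f (m + 1) -
          (g (m + 1) : ℂ) * (∑ k ∈ Icc 1 m, f k + f (m + 1)) =
          (∑ k ∈ Ioc w m, (g k : ℂ) * f k - (g m : ℂ) * ∑ k ∈ Icc 1 m, f k) +
          ((g m - g (m + 1) : ℝ) : ℂ) * ∑ k ∈ Icc 1 m, f k := by
        push_cast; ring
      rw [h2]
      refine (norm_add_le _ _).trans ?_
      rw [norm_mul, Complex.norm_real, Real.norm_of_nonneg (by linarith only [hg, hm, hg m (by omega)])]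
      have h3 := hM m (by omega)
      have h4 := hg m (by omega)
      nlinarith only [h1, h3, h4]
  have h1 := key z (by omega) le_rfl
  have h2 : ∑ n ∈ Ioc w z, (g n : ℂ) * f n =
      (∑ n ∈ Ioc w z, (g n : ℂ) * f n - (g z : ℂ) * ∑ n ∈ Icc 1 z, f n) +
      (g z : ℂ) * ∑ n ∈ Icc 1 z, f n := by ring
  rw [h2]
  refine (norm_add_le _ _).trans ?_
  rw [norm_mul, Complex.norm_real, Real.norm_of_nonneg (hg0 z hwz)]
  have h3 := hM z le_rfl
  have h4 := hg0 z hwz
  nlinarith only [h1, h3, h4]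

private theorem VkB_ev (K k κ : ℕ) (A : ℝ) : ∃ x0 : ℕ, ∀ x : ℕ, x0 ≤ x →
    (Real.log (Real.log x)) ^ (20 * (k + 1)) ≤ Real.log x ∧ A ≤ Real.log x ∧ 1 ≤ Real.log x ∧
    16 * Real.log x ^ (K + 1) ≤ Real.exp (Real.log x ^ (19 / 20 : ℝ) / 2) ∧
    Real.log x ^ (9 / 10 : ℝ) ≤ Real.log x ^ (19 / 20 : ℝ) / 2 ∧
    5 * Real.log x ^ (4 * κ) ≤ Real.exp (Real.log x ^ (19 / 20 : ℝ)) := by
  have h1 : ∀ᶠ u : ℝ in Filter.atTop, Real.log u ^ (20 * (k + 1)) ≤ u := by
    have h := (Real.isLittleO_pow_log_id_atTop (n := 20 * (k + 1))).bound (show (0 : ℝ) < 1 by norm_num)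
    filter_upwards [h, Filter.eventually_ge_atTop (1 : ℝ)] with u hu hu1
    have hl : 0 ≤ Real.log u := Real.log_nonneg hu1
    rw [Real.norm_of_nonneg (by positivity), one_mul, id, Real.norm_of_nonneg (by linarith)] at hu
    exact hu
  have h2 : ∀ᶠ u : ℝ in Filter.atTop, A ≤ u := Filter.eventually_ge_atTop A
  have h3 : ∀ᶠ u : ℝ in Filter.atTop, 1 ≤ u := Filter.eventually_ge_atTop 1
  have hpow : ∀ (c : ℝ) (m : ℕ), 0 < c → ∀ᶠ u : ℝ in Filter.atTop,
      16 * u ^ m ≤ Real.exp (c * u ^ (19 / 20 : ℝ)) := by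
    intro c m hc
    have h := (isLittleO_pow_exp_pos_mul_atTop (2 * m) hc).bound
      (show (0 : ℝ) < 1 / 16 by norm_num)
    have h' := (tendsto_rpow_atTop (show (0 : ℝ) < 19 / 20 by norm_num)).eventually h
    filter_upwards [h', Filter.eventually_ge_atTop (1 : ℝ)] with u hu hu1
    have hu0 : 0 ≤ u := by linarith only [hu1]
    rw [Real.norm_of_nonneg (by positivity), Real.norm_of_nonneg (by positivity)] at hu
    have e1 : u ^ m ≤ (u ^ (19 / 20 : ℝ)) ^ (2 * m) := by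
      rw [pow_mul]
      refine pow_le_pow_left₀ hu0 ?_ m
      rw [← Real.rpow_natCast (u ^ (19 / 20 : ℝ)) 2, ← Real.rpow_mul hu0]
      calc u = u ^ (1 : ℝ) := (Real.rpow_one u).symm
        _ ≤ u ^ (19 / 20 * ((2 : ℕ) : ℝ)) := Real.rpow_le_rpow_of_exponent_le hu1 (by norm_num)
    linarith only [hu, e1]
  have h4 := hpow (1 / 2) (K + 1) (by norm_num)
  have h6 := hpow 1 (4 * κ) (by norm_num)
  have h5 : ∀ᶠ u : ℝ in Filter.atTop, u ^ (9 / 10 : ℝ) ≤ u ^ (19 / 20 : ℝ) / 2 := by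
    have h := (tendsto_rpow_atTop (show (0 : ℝ) < 1 / 20 by norm_num)).eventually_ge_atTop 2
    filter_upwards [h, Filter.eventually_ge_atTop (1 : ℝ)] with u hu hu1
    have e1 : u ^ (9 / 10 : ℝ) * u ^ (1 / 20 : ℝ) = u ^ (19 / 20 : ℝ) := by
      rw [← Real.rpow_add (by linarith)]
      norm_num
    have e2 : 0 ≤ u ^ (9 / 10 : ℝ) := by positivity
    rw [← e1]
    nlinarith only [hu, e2]
  have hlog : Filter.Tendsto (fun x : ℕ => Real.log (x : ℝ)) Filter.atTop Filter.atTop :=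
    Real.tendsto_log_atTop.comp tendsto_natCast_atTop_atTop
  have h := hlog.eventually (h1.and (h2.and (h3.and (h4.and (h5.and h6)))))
  rw [Filter.eventually_atTop] at h
  obtain ⟨x0, hx0⟩ := h
  refine ⟨x0, fun x hx => ?_⟩
  obtain ⟨g1, g2, g3, g4, g5, g6⟩ := hx0 x hx
  refine ⟨g1, g2, g3, ?_, g5, ?_⟩
  · rw [div_eq_inv_mul, ← one_div]; exact g4
  · rw [one_mul] at g6
    have : (0 : ℝ) ≤ Real.log x ^ (4 * κ) := by positivity
    linarith only [g6, this]

private theorem VkB_pow (K k κ : ℕ) (hκ : κ = K + 2) (hk : k = 60 * κ + 20 * K + 58)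
    (L LL9 lz : ℝ) (hL : 1 ≤ L) (hLL : LL9 ^ (20 * (k + 1)) ≤ L)
    (hz1 : L ^ (19 / 20 : ℝ) ≤ lz) (hz2 : lz ≤ 2 * L) :
    (L ^ (9 / 10 : ℝ)) ^ (k + 1) * LL9 ^ (20 * (k + 1)) * L ^ (3 * κ) + lz ^ (k + 1) / L ^ κ ≤
      3 * lz ^ k / L ^ (K + 1) := by
  have hL0 : 0 < L := by linarith only [hL]
  obtain ⟨l, hl⟩ : ∃ l : ℝ, l = L ^ (1 / 20 : ℝ) := ⟨_, rfl⟩
  have hl1 : 1 ≤ l := by rw [hl]; exact Real.one_le_rpow hL (by norm_num)
  have e1 : l ^ 20 = L := by
    rw [hl, ← Real.rpow_natCast, ← Real.rpow_mul hL0.le]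
    norm_num
  have e2 : L ^ (9 / 10 : ℝ) = l ^ 18 := by
    rw [hl, ← Real.rpow_natCast, ← Real.rpow_mul hL0.le]
    norm_num
  have e3 : L ^ (19 / 20 : ℝ) = l ^ 19 := by
    rw [hl, ← Real.rpow_natCast, ← Real.rpow_mul hL0.le]
    norm_num
  have hlz : (l ^ 19) ^ k ≤ lz ^ k := by
    rw [← e3]
    exact pow_le_pow_left₀ (by positivity) hz1 k
  have hlz0 : 0 ≤ lz := le_trans (by positivity) hz1
  have h1 : (L ^ (9 / 10 : ℝ)) ^ (k + 1) * LL9 ^ (20 * (k + 1)) * L ^ (3 * κ) ≤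
      lz ^ k / L ^ (K + 1) := by
    rw [le_div_iff₀ (by positivity)]
    calc (L ^ (9 / 10 : ℝ)) ^ (k + 1) * LL9 ^ (20 * (k + 1)) * L ^ (3 * κ) * L ^ (K + 1)
        ≤ (L ^ (9 / 10 : ℝ)) ^ (k + 1) * L * L ^ (3 * κ) * L ^ (K + 1) := by gcongr
      _ = l ^ (18 * (k + 1) + 20 + 20 * (3 * κ) + 20 * (K + 1)) := by
          rw [e2, ← e1]
          ring
      _ ≤ l ^ (19 * k) := pow_le_pow_right₀ hl1 (by omega)
      _ = (l ^ 19) ^ k := by rw [pow_mul]
      _ ≤ lz ^ k := hlz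
  have h2 : lz ^ (k + 1) / L ^ κ ≤ 2 * lz ^ k / L ^ (K + 1) := by
    rw [div_le_div_iff₀ (by positivity) (by positivity)]
    calc lz ^ (k + 1) * L ^ (K + 1) = lz * (lz ^ k * L ^ (K + 1)) := by ring
      _ ≤ (2 * L) * (lz ^ k * L ^ (K + 1)) := mul_le_mul_of_nonneg_right hz2 (by positivity)
      _ = 2 * lz ^ k * L ^ κ := by rw [hκ]; ring
  have h3 : 3 * lz ^ k / L ^ (K + 1) = lz ^ k / L ^ (K + 1) + 2 * lz ^ k / L ^ (K + 1) := by ring
  rw [h3]
  exact add_le_add h1 h2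

private theorem VkChi_lam_le {n z : ℕ} (hn : 1 ≤ n) (hz : n ≤ z) : Lam n ≤ Real.log z :=
  (ArithmeticFunction.vonMangoldt_le_log).trans
    (Real.log_le_log (by exact_mod_cast hn) (by exact_mod_cast hz))

private theorem VkChi_lam_nonneg (n : ℕ) : 0 ≤ Lam n := ArithmeticFunction.vonMangoldt_nonneg

private theorem VkChi_card (y : ℕ) : ((primorial y).primeFactors.card : ℝ) ≤ y := by
  have h : (primorial y).primeFactors ⊆ Icc 1 y := by
    intro p hp
    have hpp := Nat.prime_of_mem_primeFactors hp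
    have hd := Nat.dvd_of_mem_primeFactors hp
    unfold primorial at hd
    rw [Prime.dvd_finsetProd_iff hpp.prime] at hd
    obtain ⟨q, hq, hpq⟩ := hd
    simp only [mem_filter, mem_range] at hq
    have h2 := (Nat.prime_dvd_prime_iff_eq hpp hq.2).1 hpq
    rw [mem_Icc]
    exact ⟨hpp.one_lt.le, by omega⟩
  have h2 := card_le_card h
  rw [Nat.card_Icc] at h2
  have h3 : (primorial y).primeFactors.card ≤ y := by omega
  exact_mod_cast h3

theorem vk_chi1 (K B : ℕ) : ∃ K' x0 : ℕ, ∀ x : ℕ, x0 ≤ x →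
    ∀ (d : ℕ) (χ : DirichletCharacter ℂ d) (t : ℝ) (z : ℕ), 1 ≤ d → (d : ℝ) ≤ Real.log x ^ B →
    Real.exp (Real.log x ^ (19 / 20 : ℝ)) ≤ z → z ≤ x ^ 2 → Real.log x ^ K' ≤ |t| → |t| ≤ (x : ℝ) ^ (2 : ℕ) →
    ‖∑ n ∈ Icc 1 z, ((Lam n : ℝ) : ℂ) * χ (n : ZMod d) * ee (t * Real.log n)‖ ≤ z / Real.log x ^ K := by
  obtain ⟨κ, hκ⟩ : ∃ κ : ℕ, κ = K + 2 := ⟨_, rfl⟩
  obtain ⟨k, hk⟩ : ∃ k : ℕ, k = 60 * κ + 20 * K + 58 := ⟨_, rfl⟩
  obtain ⟨C, hC, K', x1, hmain⟩ := VKA.sm_sharp1 k κ B (by omega)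
  obtain ⟨x2, hev⟩ := VkB_ev K k κ (12 * C * 2 ^ k)
  obtain ⟨x3, hyx⟩ := yx_ev
  refine ⟨K', max (max x1 x2) (max x3 3), fun x hx d χ t z hd hdB hz1 hz2 ht1 ht2 => ?_⟩
  have hx1 : x1 ≤ x := le_trans (le_trans (le_max_left _ _) (le_max_left _ _)) hx
  have hx2 : x2 ≤ x := le_trans (le_trans (le_max_right _ _) (le_max_left _ _)) hx
  have hx3 : x3 ≤ x := le_trans (le_trans (le_max_left _ _) (le_max_right _ _)) hx
  have hx4 : 3 ≤ x := le_trans (le_trans (le_max_right _ _) (le_max_right _ _)) hx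
  obtain ⟨hv1, hv2, hv3, hv4, hv5, hv6⟩ := hev x hx2
  have hLL0 : 0 ≤ LL x := by
    have := (hyx x hx3).2.2.2.1
    linarith only [this]
  have hxpos : (0 : ℝ) < x := by
    have : (3 : ℝ) ≤ x := by exact_mod_cast hx4
    linarith only [this]
  obtain ⟨L, hL⟩ : ∃ L : ℝ, L = Real.log x := ⟨_, rfl⟩
  obtain ⟨G, hG⟩ : ∃ G : ℝ, G = L ^ (19 / 20 : ℝ) := ⟨_, rfl⟩
  rw [← hL] at hv1 hv2 hv3 hv4 hv5 hv6 hz1 ⊢
  rw [← hG] at hv4 hv5 hv6 hz1
  have hL0 : 0 < L := by linarith only [hv3]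
  have hG0 : 0 < G := by rw [hG]; positivity
  -- size of z
  have hze : Real.exp G ≤ z := hz1
  have hzpos : (0 : ℝ) < z := lt_of_lt_of_le (Real.exp_pos _) hze
  have hlogz1 : G ≤ Real.log z := by
    rw [Real.le_log_iff_exp_le hzpos]; exact hze
  have hlogz2 : Real.log z ≤ 2 * L := by
    have h : (z : ℝ) ≤ (x : ℝ) ^ 2 := by exact_mod_cast hz2
    have h2 := Real.log_le_log hzpos h
    rw [Real.log_pow] at h2
    rw [hL]
    exact_mod_cast h2
  have hlogz0 : 0 < Real.log z := lt_of_lt_of_le (by positivity) hlogz1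
  have hz1' : 1 ≤ z := by
    have : 0 < z := by exact_mod_cast hzpos
    omega
  -- the cut
  obtain ⟨w, hw⟩ : ∃ w : ℕ, w = Nat.sqrt z := ⟨_, rfl⟩
  have hw1 : w * w ≤ z := by rw [hw]; exact Nat.sqrt_le z
  have hw2 : z < (w + 1) * (w + 1) := by rw [hw]; exact Nat.lt_succ_sqrt z
  have hexp0 : (0 : ℝ) < Real.exp (G / 2) := Real.exp_pos _
  have hexp2 : Real.exp G = Real.exp (G / 2) * Real.exp (G / 2) := by
    rw [← Real.exp_add]; congr 1; ring
  have hLK : 1 ≤ L ^ (K + 1) := one_le_pow₀ hv3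
  have hw3 : Real.exp (G / 2) < (w : ℝ) + 1 := by
    have h1 : (z : ℝ) < ((w : ℝ) + 1) * ((w : ℝ) + 1) := by exact_mod_cast hw2
    have h2 : Real.exp (G / 2) * Real.exp (G / 2) < ((w : ℝ) + 1) * ((w : ℝ) + 1) := by
      rw [← hexp2]; linarith only [hz1, h1]
    have h3 : (0 : ℝ) ≤ w := Nat.cast_nonneg _
    exact lt_of_mul_self_lt_mul_self₀ (by linarith only) h2
  have hw4 : 8 * L ^ (K + 1) ≤ w := by linarith only [hv4, hLK, hw3]
  have hwR1 : (8 : ℝ) ≤ w := by linarith only [hv4, hLK, hw3]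
  have hw5 : 8 ≤ w := by exact_mod_cast hwR1
  have hwz : w < z := by nlinarith only [hw5, hw1]
  have hlogw : Real.log z / 2 ≤ Real.log ((w + 1 : ℕ) : ℝ) := by
    have h1 : (z : ℝ) ≤ ((w + 1 : ℕ) : ℝ) ^ 2 := by
      have h2 : (z : ℝ) < ((w + 1 : ℕ) : ℝ) * ((w + 1 : ℕ) : ℝ) := by exact_mod_cast hw2
      rw [sq]; exact h2.le
    have h2 := Real.log_le_log hzpos h1
    rw [Real.log_pow] at h2
    push_cast at h2 ⊢
    linarith only [h2]
  -- the three parts
  obtain ⟨b, hb⟩ : ∃ b : ℕ → ℂ, b = fun n => ((Lam n : ℝ) : ℂ) * χ (n : ZMod d) * ee (t * Real.log n) :=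
    ⟨_, rfl⟩
  obtain ⟨b', hb'⟩ : ∃ b' : ℕ → ℂ, b' = fun n =>
    ((Lam n : ℝ) : ℂ) * ch x χ (n : ZMod (qm x d)) * ee (t * Real.log n) := ⟨_, rfl⟩
  have hsplit : ∑ n ∈ Icc 1 z, ((Lam n : ℝ) : ℂ) * χ (n : ZMod d) * ee (t * Real.log n) =
      ∑ n ∈ Icc 1 z, (b n - b' n) + (∑ n ∈ Icc 1 w, b' n + ∑ n ∈ Ioc w z, b' n) := by
    have h1 : ∑ n ∈ Icc 1 w, b' n + ∑ n ∈ Ioc w z, b' n = ∑ n ∈ Icc 1 z, b' n := by
      have h2 : Icc 1 w = Ioc 0 w := by ext a; simp only [mem_Icc, mem_Ioc]; omega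
      have h3 : Icc 1 z = Ioc 0 z := by ext a; simp only [mem_Icc, mem_Ioc]; omega
      rw [h2, h3]
      exact sum_Ioc_consecutive _ (Nat.zero_le _) hwz.le
    rw [h1, sum_sub_distrib, hb]
    ring
  have hp1 : ‖∑ n ∈ Icc 1 z, (b n - b' n)‖ ≤ z / (4 * L ^ K) := by
    calc ‖∑ n ∈ Icc 1 z, (b n - b' n)‖ ≤ ∑ n ∈ Icc 1 z, ‖b n - b' n‖ := norm_sum_le _ _
      _ ≤ ∑ n ∈ Icc 1 z, (if ¬ Nat.Coprime n (primorial (Yx x)) then Lam n else 0) := by
          apply sum_le_sum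
          intro n hn
          rw [hb, hb']
          simp only [ch_apply x hd χ n]
          by_cases hc : n.Coprime (primorial (Yx x))
          · rw [if_pos hc, if_neg (not_not.2 hc), sub_self, norm_zero]
          · rw [if_neg hc, if_pos hc, mul_zero, zero_mul, sub_zero]
            rw [norm_mul, norm_mul, Complex.norm_real, Pool.Agent.H91.PK.LSa_norm_ee, mul_one,
              Real.norm_of_nonneg (VkChi_lam_nonneg n)]
            have h1 : ‖χ (n : ZMod d)‖ ≤ 1 := χ.norm_le_one _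
            nlinarith only [h1, VkChi_lam_nonneg n]
      _ = ∑ n ∈ (Icc 1 z).filter (fun n => ¬ Nat.Coprime n (primorial (Yx x))), Lam n := by
          rw [sum_filter]
      _ ≤ ((primorial (Yx x)).primeFactors.card : ℝ) * Real.log z :=
          Pool.Agent.H91.PK.DiA_psi_noncoprime hz1' (primorial_pos _)
      _ ≤ (Yx x : ℝ) * (2 * L) := by
          apply mul_le_mul (VkChi_card _) hlogz2 hlogz0.le (Nat.cast_nonneg _)
      _ ≤ Real.exp (G / 2) * (2 * L) := by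
          apply mul_le_mul_of_nonneg_right _ (by positivity)
          refine (Nat.floor_le (Real.exp_pos _).le).trans ?_
          apply Real.exp_le_exp.2
          unfold L9
          rw [← hL]
          exact hv5
      _ ≤ z / (4 * L ^ K) := by
          rw [le_div_iff₀ (by positivity)]
          calc Real.exp (G / 2) * (2 * L) * (4 * L ^ K)
              = Real.exp (G / 2) * (8 * L ^ (K + 1)) := by ring
            _ ≤ Real.exp (G / 2) * Real.exp (G / 2) := by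
                apply mul_le_mul_of_nonneg_left _ hexp0.le
                linarith only [hv4, hLK]
            _ = Real.exp G := hexp2.symm
            _ ≤ z := hze
  have hp2 : ‖∑ n ∈ Icc 1 w, b' n‖ ≤ z / (4 * L ^ K) := by
    calc ‖∑ n ∈ Icc 1 w, b' n‖ ≤ ∑ n ∈ Icc 1 w, ‖b' n‖ := norm_sum_le _ _
      _ ≤ ∑ _n ∈ Icc 1 w, (2 * L) := by
          apply sum_le_sum
          intro n hn
          rw [mem_Icc] at hn
          rw [hb']
          simp only
          rw [norm_mul, norm_mul, Complex.norm_real, Pool.Agent.H91.PK.LSa_norm_ee, mul_one,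
              Real.norm_of_nonneg (VkChi_lam_nonneg n)]
          have h1 := ch_norm_le x χ (n : ZMod (qm x d))
          have h2 := VkChi_lam_le hn.1 (hn.2.trans hwz.le)
          have h3 := VkChi_lam_nonneg n
          nlinarith only [hlogz2, h2, h1, h3]
      _ = w * (2 * L) := by simp
      _ ≤ z / (4 * L ^ K) := by
          rw [le_div_iff₀ (by positivity)]
          have h1 : (w : ℝ) * w ≤ z := by exact_mod_cast hw1
          calc (w : ℝ) * (2 * L) * (4 * L ^ K) = w * (8 * L ^ (K + 1)) := by ring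
            _ ≤ w * w := mul_le_mul_of_nonneg_left hw4 (Nat.cast_nonneg _)
            _ ≤ z := h1
  have hp3 : ‖∑ n ∈ Ioc w z, b' n‖ ≤ z / (2 * L ^ K) := by
    obtain ⟨M, hMdef⟩ : ∃ M : ℝ, M = C * z * (L9 x ^ (k + 1) * LL x ^ (20 * (k + 1)) *
      Real.log x ^ (3 * κ) + Real.log z ^ (k + 1) / Real.log x ^ κ) := ⟨_, rfl⟩
    have h1 := VkChi_abel (fun n => ((Lam n * Real.log n ^ k : ℝ) : ℂ) *
        ch x χ (n : ZMod (qm x d)) * ee (t * Real.log n))
      (fun n => (Real.log n ^ k)⁻¹) M w z hwz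
      (fun v hv => by
        rw [hMdef]
        exact hmain x hx1 d χ t v z hd hdB (by rw [← hL]; linarith only [hz1, hv6]) hz2 hv ht1 ht2)
      (fun n hn => by
        have : 0 ≤ Real.log (n : ℝ) := Real.log_natCast_nonneg n
        positivity)
      (fun n hn => by
        have h2 : (1 : ℝ) < n := by
          have : 1 < n := by omega
          exact_mod_cast this
        have h3 : 0 < Real.log (n : ℝ) := Real.log_pos h2
        have h4 : Real.log (n : ℝ) ≤ Real.log ((n + 1 : ℕ) : ℝ) := by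
          apply Real.log_le_log (by linarith only [h2])
          push_cast; linarith only
        apply inv_anti₀ (by positivity)
        exact pow_le_pow_left₀ h3.le h4 _)
    have h2 : ∑ n ∈ Ioc w z, b' n = ∑ n ∈ Ioc w z, (((Real.log n ^ k)⁻¹ : ℝ) : ℂ) *
        (((Lam n * Real.log n ^ k : ℝ) : ℂ) *
        ch x χ (n : ZMod (qm x d)) * ee (t * Real.log n)) := by
      apply sum_congr rfl
      intro n hn
      rw [mem_Ioc] at hn
      have h2 : (1 : ℝ) < n := by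
        have : 1 < n := by omega
        exact_mod_cast this
      have h3 : Real.log (n : ℝ) ≠ 0 := (Real.log_pos h2).ne'
      have h4 : (((Real.log n ^ k)⁻¹ : ℝ) : ℂ) * ((Lam n * Real.log n ^ k : ℝ) : ℂ) =
          ((Lam n : ℝ) : ℂ) := by
        rw [← Complex.ofReal_mul]
        congr 1
        field_simp
      rw [hb']
      simp only
      rw [← mul_assoc, ← mul_assoc, h4]
    rw [h2]
    refine h1.trans ?_
    have hM0 : 0 ≤ M := by
      rw [hMdef]
      have h3 : 0 ≤ L9 x := by unfold L9; rw [← hL]; positivity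
      rw [← hL]
      positivity
    have h3 : ((Real.log ((w + 1 : ℕ) : ℝ)) ^ k)⁻¹ ≤ ((Real.log z / 2) ^ k)⁻¹ := by
      apply inv_anti₀ (by positivity)
      exact pow_le_pow_left₀ (by positivity) hlogw _
    have h4 : M ≤ C * z * (3 * Real.log z ^ k / L ^ (K + 1)) := by
      rw [hMdef]
      apply mul_le_mul_of_nonneg_left _ (by positivity)
      unfold L9
      rw [← hL]
      exact VkB_pow K k κ hκ hk L (LL x) (Real.log z) hv3 (by unfold LL; rw [← hL]; exact hv1)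
        (by rw [← hG]; exact hlogz1) hlogz2
    calc 2 * M * ((Real.log ((w + 1 : ℕ) : ℝ)) ^ k)⁻¹
        ≤ 2 * (C * z * (3 * Real.log z ^ k / L ^ (K + 1))) * ((Real.log z / 2) ^ k)⁻¹ := by
          apply mul_le_mul (by linarith only [h4]) h3 (by positivity) (by positivity)
      _ = (6 * C * 2 ^ k) * z / L ^ (K + 1) := by
          rw [div_pow]
          field_simp
          ring
      _ ≤ (L / 2) * z / L ^ (K + 1) := by
          apply div_le_div_of_nonneg_right _ (by positivity)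
          apply mul_le_mul_of_nonneg_right _ hzpos.le
          linarith only [hv2]
      _ = z / (2 * L ^ K) := by
          rw [pow_succ]
          field_simp
  rw [hsplit]
  calc ‖∑ n ∈ Icc 1 z, (b n - b' n) + (∑ n ∈ Icc 1 w, b' n + ∑ n ∈ Ioc w z, b' n)‖
      ≤ ‖∑ n ∈ Icc 1 z, (b n - b' n)‖ + (‖∑ n ∈ Icc 1 w, b' n‖ + ‖∑ n ∈ Ioc w z, b' n‖) :=
        (norm_add_le _ _).trans (add_le_add_right (norm_add_le _ _) _)
    _ ≤ z / (4 * L ^ K) + (z / (4 * L ^ K) + z / (2 * L ^ K)) :=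
        add_le_add hp1 (add_le_add hp2 hp3)
    _ = z / L ^ K := by
        field_simp
        ring

theorem vk1 : VK1 := by
  intro K
  obtain ⟨K', x0, h⟩ := vk_chi1 K 0
  refine ⟨K', x0, fun x hx z t hz1 hz2 ht1 ht2 => ?_⟩
  have h1 := h x hx 1 1 t z le_rfl (by simp) hz1 hz2 ht1 ht2
  refine le_trans (le_of_eq ?_) h1
  congr 1
  refine sum_congr rfl fun n _ => ?_
  have h2 : (1 : DirichletCharacter ℂ 1) (n : ZMod 1) = 1 :=
    MulChar.one_apply (isUnit_of_subsingleton _)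
  rw [h2, mul_one]

end Pool.Agent.H76.MU

end
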