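import Pool.Agent.H15.TB1.M63
import Pool.Agent.H15.TB1.M65
import Pool.Agent.H15.TB1.M85

/-! The parts of this file: H76.MU.PnL, H76.MU.SqW, H76.MU.VarDA, H76.MU.ExL. -/

section

/-!
# MU PnL: the prime number theorem for the Liouville function

Proof.  `A(y) = ∑_{n ≤ y} lio n`.  Identities: `∑_{m ≤ y} lio m · (y / m) = ∑_{n ≤ y} ∑_{m | n} lio m = ⌊√y⌋` (natural division; the inner sum is the indicator of squares) and
`∑_{n ≤ y} lio n log n = ∑_{d ≤ y} Λ(d) lio d A(y/d)` (`log n = ∑_{d | n} Λ(d)`), where `Λ(d) lio d = -Λ(d) + 2 Λ(d) [d = p^{2k}]`.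
`x` large, `w = ⌈exp(√L)⌉₊`, `ρ = C0 L^{-1/2}`.  CLAIM(i), `i ≤ I = 2K + 4`: `|A(y)| ≤ δ_i y` for `x^{1/2} w^{2i} ≤ y ≤ x`, `δ_0 = 1`, `δ_{i+1} = ρ δ_i + L^{-K-2}`.  Step:
`-∑_d Λ(d) A(y/d) = -⌊√y⌋ - ∑_d (Λ(d) - 1) A(y/d)` (as `∑_d A(y/d) = ∑_m lio m (y/m)`); `d ≤ w`: `≤ ∑_{d ≤ w} (Λ(d) + 1) δ_i y/d ≤ δ_i y · C (1 + log w)`; `d > w`: interchange,
`∑_{m ≤ y/w} lio m (R(y/m) - R(w))`, `R(v) = ψ(v) - v` (natural numbers), `|R(v)| ≤ v/(log v)^{2K + 10}` for `v ≥ w` (`Pool.Agent.H91.EHA.pnt (2K+11)`, `H91/EHA/SwJ3.lean`, the prime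
number theorem with a power of the logarithm), so `≤ 2 y (1 + log y)/(log w)^{2K+10} ≤ y L^{-K-2}` (`log w ≥ √L`).
`2 ∑_{p,k} log p |A(y/p^{2k})| ≤ 2 (∑_{p^{2k} ≤ w} log p/p^{2k}) δ_i y + 2 y ∑_{p^{2k} > w} log p/p^{2k} ≤ C δ_i y + y L^{-K-2}`.
`A(y) log y = ∑ lio n log n + ∑_{n ≤ y} lio n log(y/n)`, and the last sum is `∫_1^y A(u)/u du ≤ δ_i y + x^{1/2} w^{2i}` (Abel summation).  Divide by `log y ≥ L/2`.
Then `δ_I ≤ ρ^I + 2 L^{-K-2} ≤ L^{-K}`; for `y < x^{1/2} w^{2I}` (`≤ x^{2/3}`) trivially `|A(y)| ≤ y ≤ x/L^K`.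
-/

set_option autoImplicit false

namespace Pool.Agent.H76.MU

open Finset MeasureTheory
open Pool.Agent.H91.PK (ee)
open Pool.Agent.H76.EHB
open Pool.Agent.H35.W
open Pool.Agent.H91.EHA (Lam)

/-! ### identities -/

private theorem PnL_lio_eq (n : ℕ) : lio n = ((ArithmeticFunction.liouville n : ℤ) : ℝ) := by
  unfold lio
  by_cases h : n = 0
  · subst h; simp
  · rw [if_neg h, ArithmeticFunction.liouville_apply h]; push_cast; rfl

private theorem PnL_lio_mul (m n : ℕ) : lio (m * n) = lio m * lio n := by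
  simp only [PnL_lio_eq, ArithmeticFunction.liouville_apply_mul]
  push_cast; rfl

/-- the sum of the Liouville function over the divisors -/
private theorem PnL_div (n : ℕ) (hn : n ≠ 0) :
    |∑ m ∈ n.divisors, lio m| ≤ 1 ∧ (∑ m ∈ n.divisors, lio m ≠ 0 → IsSquare n) := by
  set F : ArithmeticFunction ℤ := ArithmeticFunction.liouville * ↑ArithmeticFunction.zeta with hF
  have hFm : F.IsMultiplicative :=
    ArithmeticFunction.isMultiplicative_liouville.mul
      (ArithmeticFunction.isMultiplicative_zeta.natCast)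
  have h1 : ∑ m ∈ n.divisors, lio m = ((F n : ℤ) : ℝ) := by
    rw [hF, ArithmeticFunction.coe_mul_zeta_apply]
    push_cast
    exact Finset.sum_congr rfl fun m _ => PnL_lio_eq m
  have hpk : ∀ (p k : ℕ), p.Prime → F (p ^ k) = if Even k then 1 else 0 := by
    intro p k hp
    rw [hF, ArithmeticFunction.coe_mul_zeta_apply, Nat.sum_divisors_prime_pow hp]
    have h2 : ∀ i ∈ range (k + 1), ArithmeticFunction.liouville (p ^ i) = (-1) ^ i := by
      intro i _
      rw [ArithmeticFunction.liouville_apply (pow_ne_zero _ hp.ne_zero),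
        ArithmeticFunction.cardFactors_apply_prime_pow hp]
    rw [Finset.sum_congr rfl h2]
    induction k with
    | zero => simp
    | succ k ih =>
      rw [Finset.sum_range_succ, ih (fun i _ => by
        rw [ArithmeticFunction.liouville_apply (pow_ne_zero _ hp.ne_zero),
        ArithmeticFunction.cardFactors_apply_prime_pow hp])]
      by_cases hk : Even k
      · have h3 : ¬ Even (k + 1) := by
          rw [Nat.even_add_one]; exact not_not.mpr hk
        rw [if_pos hk, if_neg h3, Odd.neg_one_pow (Nat.not_even_iff_odd.1 h3)]; norm_num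
      · have h3 : Even (k + 1) := by
          rw [Nat.even_add_one]; exact hk
        rw [if_neg hk, if_pos h3, Even.neg_one_pow h3]; norm_num
  have hprod : F n = n.factorization.prod fun p k => F (p ^ k) :=
    hFm.multiplicative_factorization F hn
  have hval : ∀ p ∈ n.factorization.support, F (p ^ (n.factorization p)) =
      if Even (n.factorization p) then 1 else 0 := by
    intro p hp
    apply hpk
    exact Nat.prime_of_mem_primeFactors (by simpa using hp)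
  constructor
  · rw [h1, hprod, Finsupp.prod, Finset.prod_congr rfl hval]
    push_cast
    rw [Finset.abs_prod]
    apply Finset.prod_le_one
    · intro i _; exact abs_nonneg _
    · intro i _; split_ifs <;> simp
  · intro h
    rw [h1, Int.cast_ne_zero, hprod, Finsupp.prod, Finset.prod_congr rfl hval] at h
    have h4 : ∀ p ∈ n.factorization.support, Even (n.factorization p) := by
      intro p hp
      by_contra hne
      apply h
      apply Finset.prod_eq_zero hp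
      rw [if_neg hne]
    rw [← Nat.prod_factorization_pow_eq_self hn, Finsupp.prod]
    apply Finset.prod_induction _ IsSquare (fun a b ha hb => ha.mul hb) (IsSquare.one)
    intro p hp
    exact (h4 p hp).isSquare_pow p

/-- reordering of pairs -/
private theorem PnL_pairs (y : ℕ) (f : ℕ → ℕ → ℝ) :
    ∑ n ∈ Icc 1 y, ∑ d ∈ n.divisors, f d (n / d)
      = ∑ d ∈ Icc 1 y, ∑ m ∈ Icc 1 (y / d), f d m := by
  rw [Finset.sum_sigma', Finset.sum_sigma']
  refine Finset.sum_bij' (fun a _ => ⟨a.2, a.1 / a.2⟩) (fun b _ => ⟨b.1 * b.2, b.1⟩) ?_ ?_ ?_ ?_ ?_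
  · rintro ⟨n, d⟩ h
    simp only [Finset.mem_sigma, Finset.mem_Icc, Nat.mem_divisors] at h ⊢
    obtain ⟨⟨h1, h2⟩, h3, h4⟩ := h
    have hd : 0 < d := Nat.pos_of_dvd_of_pos h3 (by omega)
    refine ⟨⟨hd, (Nat.le_of_dvd (by omega) h3).trans h2⟩, Nat.div_pos (Nat.le_of_dvd (by omega) h3) hd,
      Nat.div_le_div_right h2⟩
  · rintro ⟨d, m⟩ h
    simp only [Finset.mem_sigma, Finset.mem_Icc, Nat.mem_divisors] at h ⊢
    obtain ⟨⟨h1, h2⟩, h3, h4⟩ := h
    have h5 : d * m ≤ y := by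
      calc d * m ≤ d * (y / d) := Nat.mul_le_mul_left _ h4
        _ ≤ y := Nat.mul_div_le y d
    refine ⟨⟨Nat.mul_pos (by omega) (by omega), h5⟩, Dvd.intro _ rfl, ?_⟩
    exact (Nat.mul_pos (by omega) (by omega)).ne'
  · rintro ⟨n, d⟩ h
    simp only [Finset.mem_sigma, Finset.mem_Icc, Nat.mem_divisors] at h
    obtain ⟨⟨h1, h2⟩, h3, h4⟩ := h
    simp only [Sigma.mk.injEq, heq_eq_eq, and_true]
    exact Nat.mul_div_cancel' h3
  · rintro ⟨d, m⟩ h
    simp only [Finset.mem_sigma, Finset.mem_Icc] at h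
    obtain ⟨⟨h1, h2⟩, h3, h4⟩ := h
    simp only [Sigma.mk.injEq, heq_eq_eq, true_and]
    exact Nat.mul_div_cancel_left m (by omega)
  · rintro ⟨n, d⟩ h
    rfl

private noncomputable def PnLA (y : ℕ) : ℝ := ∑ n ∈ Icc 1 y, lio n

private theorem PnL_A_abs (y : ℕ) : |PnLA y| ≤ y := by
  unfold PnLA
  refine (Finset.abs_sum_le_sum_abs _ _).trans ?_
  refine (Finset.sum_le_sum fun n _ => lio_abs_le n).trans ?_
  simp

/-- `∑ A(y/d)` counts squares -/
private theorem PnL_sumA (y : ℕ) : |∑ d ∈ Icc 1 y, PnLA (y / d)| ≤ Real.sqrt y := by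
  have h1 : ∑ d ∈ Icc 1 y, PnLA (y / d) = ∑ n ∈ Icc 1 y, ∑ m ∈ n.divisors, lio m := by
    have h2 := PnL_pairs y (fun _ m => lio m)
    unfold PnLA
    rw [← h2]
    refine Finset.sum_congr rfl fun n _ => ?_
    exact Nat.sum_div_divisors n (fun m => lio m)
  rw [h1]
  refine (Finset.abs_sum_le_sum_abs _ _).trans ?_
  have h3 : ∀ n ∈ Icc 1 y, |∑ m ∈ n.divisors, lio m| ≤ if IsSquare n then 1 else 0 := by
    intro n hn
    have hn0 : n ≠ 0 := by have := (Finset.mem_Icc.1 hn).1; omega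
    obtain ⟨h4, h5⟩ := PnL_div n hn0
    split_ifs with h6
    · exact h4
    · by_contra h7
      apply h6
      apply h5
      intro h8
      apply h7
      rw [h8, abs_zero]
  refine (Finset.sum_le_sum h3).trans ?_
  rw [← Finset.sum_filter, Finset.sum_const, nsmul_eq_mul, mul_one]
  have h4 : ((Icc 1 y).filter IsSquare) ⊆ (Icc 1 (Nat.sqrt y)).image (fun r => r * r) := by
    intro n hn
    simp only [Finset.mem_filter, Finset.mem_Icc] at hn
    obtain ⟨⟨h5, h6⟩, r, hr⟩ := hn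
    refine Finset.mem_image.2 ⟨r, Finset.mem_Icc.2 ⟨?_, ?_⟩, hr.symm⟩
    · rcases Nat.eq_zero_or_pos r with h | h
      · subst h; simp at hr; omega
      · exact h
    · rw [Nat.le_sqrt, ← hr]; exact h6
  have h5 : (((Icc 1 y).filter IsSquare).card : ℝ) ≤ (Nat.sqrt y : ℝ) := by
    have h6 := (Finset.card_le_card h4).trans Finset.card_image_le
    rw [Nat.card_Icc] at h6
    have h7 : ((Icc 1 y).filter IsSquare).card ≤ Nat.sqrt y := by omega
    exact_mod_cast h7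
  refine h5.trans ?_
  exact Real.nat_sqrt_le_real_sqrt

/-- the identity for `∑ lio n log n` -/
private theorem PnL_log (y : ℕ) : ∑ n ∈ Icc 1 y, lio n * Real.log n
    = ∑ d ∈ Icc 1 y, Lam d * lio d * PnLA (y / d) := by
  have h1 : ∀ n ∈ Icc 1 y, lio n * Real.log n = ∑ d ∈ n.divisors, Lam d * lio d * lio (n / d) := by
    intro n hn
    have hn0 : n ≠ 0 := by have := (Finset.mem_Icc.1 hn).1; omega
    rw [← ArithmeticFunction.vonMangoldt_sum, Finset.mul_sum]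
    refine Finset.sum_congr rfl fun d hd => ?_
    have h2 : d * (n / d) = n := Nat.mul_div_cancel' (Nat.dvd_of_mem_divisors hd)
    conv_lhs => rw [← h2, PnL_lio_mul]
    unfold Lam
    ring
  rw [Finset.sum_congr rfl h1, PnL_pairs y (fun d m => Lam d * lio d * lio m)]
  refine Finset.sum_congr rfl fun d _ => ?_
  rw [← Finset.mul_sum]
  rfl

/-- interchange in the range `d > w` -/
private theorem PnL_inter (y w : ℕ) (f : ℕ → ℝ) :
    ∑ d ∈ (Icc 1 y).filter (fun d => w < d), f d * PnLA (y / d)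
      = ∑ m ∈ Icc 1 y, lio m * ∑ d ∈ Ioc w (y / m), f d := by
  have h1 : ∑ d ∈ (Icc 1 y).filter (fun d => w < d), f d * PnLA (y / d)
      = ∑ d ∈ Icc 1 y, ∑ m ∈ Icc 1 (y / d), (if w < d then f d else 0) * lio m := by
    rw [Finset.sum_filter]
    refine Finset.sum_congr rfl fun d _ => ?_
    rw [← Finset.mul_sum]
    split_ifs <;> simp [PnLA]
  have h2 : ∑ m ∈ Icc 1 y, lio m * ∑ d ∈ Ioc w (y / m), f d
      = ∑ m ∈ Icc 1 y, ∑ d ∈ Icc 1 (y / m), (if w < d then f d else 0) * lio m := by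
    refine Finset.sum_congr rfl fun m _ => ?_
    have h3 : ∑ d ∈ Ioc w (y / m), f d = ∑ d ∈ Icc 1 (y / m), if w < d then f d else 0 := by
      rw [← Finset.sum_filter]
      refine Finset.sum_congr ?_ fun _ _ => rfl
      ext d
      simp only [Finset.mem_Ioc, Finset.mem_filter, Finset.mem_Icc]
      omega
    rw [h3, Finset.mul_sum]
    refine Finset.sum_congr rfl fun d _ => ?_
    ring
  rw [h1, h2, ← PnL_pairs y (fun d m => (if w < d then f d else 0) * lio m),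
    ← PnL_pairs y (fun m d => (if w < d then f d else 0) * lio m)]
  refine Finset.sum_congr rfl fun n hn => ?_
  have h4 := Nat.sum_divisorsAntidiagonal (n := n) (fun d m => (if w < d then f d else 0) * lio m)
  have h5 := Nat.sum_divisorsAntidiagonal' (n := n) (fun d m => (if w < d then f d else 0) * lio m)
  rw [← h4, h5]

/-! ### analysis -/

private noncomputable def PnLq (y : ℕ) : ℝ := Real.sqrt (Real.sqrt (1 + Real.log y))

private theorem PnL_log_nonneg (y : ℕ) : 0 ≤ Real.log (y : ℝ) := Real.log_natCast_nonneg y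

private theorem PnL_q4 (y : ℕ) : PnLq y ^ 4 = 1 + Real.log y := by
  have h := PnL_log_nonneg y
  unfold PnLq
  have h1 : Real.sqrt (Real.sqrt (1 + Real.log y)) ^ 4
      = (Real.sqrt (Real.sqrt (1 + Real.log y)) ^ 2) ^ 2 := by ring
  rw [h1, Real.sq_sqrt (Real.sqrt_nonneg _), Real.sq_sqrt (by linarith only [h])]

private theorem PnL_q_one (y : ℕ) : 1 ≤ PnLq y := by
  have h := PnL_log_nonneg y
  unfold PnLq
  rw [Real.one_le_sqrt, Real.one_le_sqrt]
  linarith only [h]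

private theorem PnL_q_pos (y : ℕ) : 0 < PnLq y := lt_of_lt_of_le one_pos (PnL_q_one y)

private theorem PnL_logpow (j : ℕ) (s : ℝ) (hs : 0 < s) : ∃ C : ℝ, 0 < C ∧ ∀ t : ℝ, 1 ≤ t →
    (1 + Real.log t) ^ j ≤ C * t ^ s := by
  rcases Nat.eq_zero_or_pos j with rfl | hj
  · refine ⟨1, one_pos, fun t ht => ?_⟩
    simpa using Real.one_le_rpow ht hs.le
  have hj' : (0 : ℝ) < j := by exact_mod_cast hj
  set e : ℝ := s / j with he
  have he0 : 0 < e := by rw [he]; positivity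
  refine ⟨(1 + 1 / e) ^ j, by positivity, fun t ht => ?_⟩
  have h1 : 1 + Real.log t ≤ (1 + 1 / e) * t ^ e := by
    have h2 := Real.log_le_rpow_div (by linarith only [ht] : (0 : ℝ) ≤ t) he0
    have h3 := Real.one_le_rpow ht he0.le
    have h4 : (1 + 1 / e) * t ^ e = t ^ e + t ^ e / e := by ring
    linarith only [h2, h3, h4]
  have h5 : 0 ≤ 1 + Real.log t := by
    have := Real.log_nonneg ht
    linarith only [this]
  calc (1 + Real.log t) ^ j ≤ ((1 + 1 / e) * t ^ e) ^ j := pow_le_pow_left₀ h5 h1 j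
    _ = (1 + 1 / e) ^ j * t ^ s := by
        rw [mul_pow, ← Real.rpow_natCast (t ^ e) j, ← Real.rpow_mul (by linarith only [ht])]
        congr 2
        rw [he]; field_simp

private theorem PnL_key (j : ℕ) (s : ℝ) (hs : 0 < s) : ∃ C : ℝ, 0 < C ∧ ∀ (u y : ℕ) (t : ℝ),
    1 ≤ u → 1 ≤ y → 1 ≤ t → (y : ℝ) ≤ u * t → PnLq y ^ j ≤ C * PnLq u ^ j * t ^ s := by
  obtain ⟨C, hC, h⟩ := PnL_logpow j s hs
  refine ⟨C, hC, fun u y t hu hy ht hyt => ?_⟩
  have hu' : (0 : ℝ) < u := by exact_mod_cast hu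
  have hy' : (0 : ℝ) < y := by exact_mod_cast hy
  have hlt := Real.log_nonneg ht
  have hlu := PnL_log_nonneg u
  have h1 : Real.log y ≤ Real.log u + Real.log t := by
    rw [← Real.log_mul hu'.ne' (by positivity)]
    exact Real.log_le_log hy' hyt
  have h2 : PnLq y ^ 4 ≤ (PnLq u * (1 + Real.log t)) ^ 4 := by
    rw [mul_pow, PnL_q4, PnL_q4]
    have h3 : (1 + Real.log t) ≤ (1 + Real.log t) ^ 4 :=
      le_self_pow₀ (by linarith only [hlt]) (by norm_num)
    calc 1 + Real.log y ≤ (1 + Real.log u) * (1 + Real.log t) := by nlinarith only [h1, hlt, hlu]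
      _ ≤ (1 + Real.log u) * (1 + Real.log t) ^ 4 :=
          mul_le_mul_of_nonneg_left h3 (by linarith only [hlu])
  have h4 : PnLq y ≤ PnLq u * (1 + Real.log t) :=
    le_of_pow_le_pow_left₀ (by norm_num) (by have := PnL_q_pos u; positivity) h2
  calc PnLq y ^ j ≤ (PnLq u * (1 + Real.log t)) ^ j := pow_le_pow_left₀ (PnL_q_pos y).le h4 j
    _ = PnLq u ^ j * (1 + Real.log t) ^ j := by rw [mul_pow]
    _ ≤ PnLq u ^ j * (C * t ^ s) :=
        mul_le_mul_of_nonneg_left (h t ht) (pow_nonneg (PnL_q_pos u).le _)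
    _ = C * PnLq u ^ j * t ^ s := by ring

/-- `β(d) = Λ(d) (1 + λ(d))` is supported on squares and small -/
private theorem PnL_beta (d : ℕ) : 0 ≤ Lam d * (1 + lio d) ∧ Lam d * (1 + lio d) ≤ 2 * Real.log d ∧
    (Lam d * (1 + lio d) ≠ 0 → IsSquare d) := by
  have h0 : 0 ≤ Lam d := ArithmeticFunction.vonMangoldt_nonneg
  have h1 : Lam d ≤ Real.log d := ArithmeticFunction.vonMangoldt_le_log
  have h2 := abs_le.1 (lio_abs_le d)
  refine ⟨mul_nonneg h0 (by linarith only [h2]), ?_, ?_⟩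
  · nlinarith only [h1, h0, h2]
  · intro h
    have h3 : Lam d ≠ 0 := left_ne_zero_of_mul h
    have h4 : (1 + lio d) ≠ 0 := right_ne_zero_of_mul h
    have h5 : IsPrimePow d := ArithmeticFunction.vonMangoldt_ne_zero_iff.1 h3
    obtain ⟨p, k, hp, hk, rfl⟩ := h5
    have hp' : p.Prime := Nat.prime_iff.2 hp
    have h6 : lio (p ^ k) = (-1) ^ k := by
      unfold lio
      rw [if_neg (pow_ne_zero _ hp'.ne_zero), ArithmeticFunction.cardFactors_apply_prime_pow hp']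
    have h7 : Even k := by
      by_contra h8
      apply h4
      rw [h6, Odd.neg_one_pow (Nat.not_even_iff_odd.1 h8)]; ring
    exact h7.isSquare_pow p

private theorem PnL_beta_sum : ∃ B : ℝ, 0 < B ∧ ∀ y : ℕ,
    ∑ d ∈ Icc 1 y, Lam d * (1 + lio d) * (d : ℝ) ^ (-(3 / 4) : ℝ) ≤ B := by
  set f : ℕ → ℝ := fun d => Lam d * (1 + lio d) * (d : ℝ) ^ (-(3 / 4) : ℝ) with hf
  have hf0 : ∀ d, 0 ≤ f d := fun d => mul_nonneg (PnL_beta d).1 (Real.rpow_nonneg (Nat.cast_nonneg _) _)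
  have hinj : Function.Injective (fun r : ℕ => r ^ 2) := fun a b h => by
    simpa using h
  have hsupp : ∀ x ∉ Set.range (fun r : ℕ => r ^ 2), f x = 0 := by
    intro x hx
    by_contra h
    apply hx
    obtain ⟨r, hr⟩ := (PnL_beta x).2.2 (left_ne_zero_of_mul h)
    exact ⟨r, by rw [hr]; ring⟩
  have hsum : Summable f := by
    rw [← hinj.summable_iff hsupp]
    have h1 : Summable (fun r : ℕ => 32 * ((r : ℝ) ^ (5 / 4 : ℝ))⁻¹) :=
      (Real.summable_nat_rpow_inv.2 (by norm_num)).mul_left _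
    refine Summable.of_nonneg_of_le (fun r => hf0 _) (fun r => ?_) h1
    simp only [Function.comp_apply, hf]
    rcases Nat.eq_zero_or_pos r with rfl | hr
    · simp [Lam]
    have hr' : (0 : ℝ) < r := by exact_mod_cast hr
    have h2 := (PnL_beta (r ^ 2)).2.1
    have h3 : Real.log ((r ^ 2 : ℕ) : ℝ) = 2 * Real.log r := by
      push_cast; rw [Real.log_pow]; norm_num
    have h4 : Real.log r ≤ (r : ℝ) ^ (1 / 4 : ℝ) / (1 / 4) :=
      Real.log_le_rpow_div hr'.le (by norm_num)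
    have h5 : (((r ^ 2 : ℕ) : ℝ)) ^ (-(3 / 4) : ℝ) = (r : ℝ) ^ (-(3 / 2) : ℝ) := by
      push_cast
      rw [← Real.rpow_natCast, ← Real.rpow_mul hr'.le]
      norm_num
    rw [h5]
    have h6 : (0 : ℝ) ≤ (r : ℝ) ^ (-(3 / 2) : ℝ) := Real.rpow_nonneg hr'.le _
    calc Lam (r ^ 2) * (1 + lio (r ^ 2)) * (r : ℝ) ^ (-(3 / 2) : ℝ)
        ≤ (32 * (r : ℝ) ^ (1 / 4 : ℝ)) * (r : ℝ) ^ (-(3 / 2) : ℝ) := by
          apply mul_le_mul_of_nonneg_right _ h6
          rw [h3] at h2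
          have h7 : (0 : ℝ) ≤ (r : ℝ) ^ (1 / 4 : ℝ) := Real.rpow_nonneg hr'.le _
          linarith only [h2, h4, h7]
      _ = 32 * ((r : ℝ) ^ (5 / 4 : ℝ))⁻¹ := by
          rw [mul_assoc, ← Real.rpow_add hr', ← Real.rpow_neg hr'.le]
          norm_num
  refine ⟨∑' d, f d + 1, ?_, fun y => ?_⟩
  · have : 0 ≤ ∑' d, f d := tsum_nonneg hf0
    linarith only [this]
  · have := hsum.sum_le_tsum (Icc 1 y) (fun d _ => hf0 d)
    linarith only [this]

private theorem PnL_abel (y : ℕ) (hy : 1 ≤ y) :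
    ∑ n ∈ Icc 1 y, lio n * (Real.log y - Real.log n)
      = ∑ u ∈ Ico 1 y, PnLA u * (Real.log ((u : ℝ) + 1) - Real.log u) := by
  induction y, hy using Nat.le_induction with
  | base => simp
  | succ y hy ih =>
    rw [Finset.sum_Ico_succ_top hy, ← ih, Finset.sum_Icc_succ_top (by omega)]
    push_cast
    rw [sub_self, mul_zero, add_zero]
    unfold PnLA
    rw [Finset.sum_mul, ← Finset.sum_add_distrib]
    refine Finset.sum_congr rfl fun n _ => ?_
    ring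

private theorem PnL_inv_sqrt (y : ℕ) : ∑ u ∈ Icc 1 y, (1 : ℝ) / Real.sqrt u ≤ 2 * Real.sqrt y := by
  induction y with
  | zero => simp
  | succ y ih =>
    rw [Finset.sum_Icc_succ_top (by omega)]
    have h0 : (0 : ℝ) ≤ y := Nat.cast_nonneg y
    have h1 : 0 < Real.sqrt ((y : ℝ) + 1) := Real.sqrt_pos.2 (by linarith only)
    have h2 : Real.sqrt (y : ℝ) ≤ Real.sqrt ((y : ℝ) + 1) := Real.sqrt_le_sqrt (by linarith only)
    have h3 := Real.sqrt_nonneg (y : ℝ)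
    have h4 : Real.sqrt ((y : ℝ) + 1) ^ 2 = y + 1 := Real.sq_sqrt (by linarith only)
    have h5 : Real.sqrt (y : ℝ) ^ 2 = y := Real.sq_sqrt h0
    push_cast
    have h6 : 1 / Real.sqrt ((y : ℝ) + 1) ≤ 2 * (Real.sqrt ((y : ℝ) + 1) - Real.sqrt y) := by
      rw [div_le_iff₀ h1]
      nlinarith only [h4, h5, h2]
    linarith only [ih, h6]

private theorem PnL_log_succ (u : ℕ) (hu : 1 ≤ u) :
    |Real.log ((u : ℝ) + 1) - Real.log u| ≤ 1 / u := by
  have hu' : (0 : ℝ) < u := by exact_mod_cast hu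
  rw [abs_of_nonneg (sub_nonneg.2 (Real.log_le_log hu' (by linarith only))),
    ← Real.log_div (by positivity) hu'.ne']
  have h1 := Real.log_le_sub_one_of_pos (show (0 : ℝ) < ((u : ℝ) + 1) / u by positivity)
  refine h1.trans (le_of_eq ?_)
  field_simp
  ring

/-- second term -/
private theorem PnL_T1 (j : ℕ) (C : ℝ) (hC : 0 < C)
    (h : ∀ y : ℕ, 1 ≤ y → |PnLA y| ≤ C * y / PnLq y ^ (2 * j)) :
    ∃ D : ℝ, 0 < D ∧ ∀ y : ℕ, 1 ≤ y →
      |∑ n ∈ Icc 1 y, lio n * (Real.log y - Real.log n)| ≤ D * y / PnLq y ^ (2 * j) := by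
  obtain ⟨K, hK, hkey⟩ := PnL_key (2 * j) (1 / 2) (by norm_num)
  refine ⟨2 * C * K, by positivity, fun y hy => ?_⟩
  have hy' : (0 : ℝ) < y := by exact_mod_cast hy
  have hq := pow_pos (PnL_q_pos y) (2 * j)
  rw [PnL_abel y hy]
  refine (Finset.abs_sum_le_sum_abs _ _).trans ?_
  have h1 : ∀ u ∈ Ico 1 y, |PnLA u * (Real.log ((u : ℝ) + 1) - Real.log u)|
      ≤ (C * K * Real.sqrt y / PnLq y ^ (2 * j)) * (1 / Real.sqrt u) := by
    intro u hu
    obtain ⟨hu1, hu2⟩ := Finset.mem_Ico.1 hu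
    have hu' : (0 : ℝ) < u := by exact_mod_cast hu1
    have hqu := pow_pos (PnL_q_pos u) (2 * j)
    have hsu : 0 < Real.sqrt u := Real.sqrt_pos.2 hu'
    rw [abs_mul]
    have h2 := PnL_log_succ u hu1
    have h3 := h u hu1
    have huy : (u : ℝ) ≤ y := by exact_mod_cast hu2.le
    have h4 := hkey u y (y / u) hu1 hy (by rw [le_div_iff₀ hu']; linarith only [huy])
      (by rw [mul_div_cancel₀ _ hu'.ne'])
    rw [← Real.sqrt_eq_rpow, Real.sqrt_div hy'.le] at h4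
    have h5 : 1 / PnLq u ^ (2 * j) ≤ K * (Real.sqrt y / Real.sqrt u) / PnLq y ^ (2 * j) := by
      rw [div_le_div_iff₀ hqu hq]
      calc 1 * PnLq y ^ (2 * j) ≤ K * PnLq u ^ (2 * j) * (Real.sqrt y / Real.sqrt u) := by
            rw [one_mul]; exact h4
        _ = K * (Real.sqrt y / Real.sqrt u) * PnLq u ^ (2 * j) := by ring
    calc |PnLA u| * |Real.log ((u : ℝ) + 1) - Real.log u|
        ≤ (C * u / PnLq u ^ (2 * j)) * (1 / u) :=
          mul_le_mul h3 h2 (abs_nonneg _) (by positivity)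
      _ = C * (1 / PnLq u ^ (2 * j)) := by field_simp
      _ ≤ C * (K * (Real.sqrt y / Real.sqrt u) / PnLq y ^ (2 * j)) :=
          mul_le_mul_of_nonneg_left h5 hC.le
      _ = (C * K * Real.sqrt y / PnLq y ^ (2 * j)) * (1 / Real.sqrt u) := by ring
  refine (Finset.sum_le_sum h1).trans ?_
  rw [← Finset.mul_sum]
  have h6 : ∑ u ∈ Ico 1 y, (1 : ℝ) / Real.sqrt u ≤ 2 * Real.sqrt y := by
    refine le_trans (Finset.sum_le_sum_of_subset_of_nonneg ?_ fun _ _ _ => by positivity)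
      (PnL_inv_sqrt y)
    intro u hu
    simp only [Finset.mem_Ico, Finset.mem_Icc] at hu ⊢
    omega
  have h7 : 0 ≤ C * K * Real.sqrt y / PnLq y ^ (2 * j) := by positivity
  refine (mul_le_mul_of_nonneg_left h6 h7).trans (le_of_eq ?_)
  have h8 : Real.sqrt y * Real.sqrt y = y := Real.mul_self_sqrt hy'.le
  calc C * K * Real.sqrt y / PnLq y ^ (2 * j) * (2 * Real.sqrt y)
      = 2 * C * K * (Real.sqrt y * Real.sqrt y) / PnLq y ^ (2 * j) := by ring
    _ = 2 * C * K * y / PnLq y ^ (2 * j) := by rw [h8]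

/-- the squares -/
private theorem PnL_T4 (j : ℕ) (C : ℝ) (hC : 0 < C)
    (h : ∀ y : ℕ, 1 ≤ y → |PnLA y| ≤ C * y / PnLq y ^ (2 * j)) :
    ∃ D : ℝ, 0 < D ∧ ∀ y : ℕ, 1 ≤ y →
      |∑ d ∈ Icc 1 y, Lam d * (1 + lio d) * PnLA (y / d)| ≤ D * y / PnLq y ^ (2 * j) := by
  obtain ⟨K, hK, hkey⟩ := PnL_key (2 * j) (1 / 4) (by norm_num)
  obtain ⟨B, hB, hBs⟩ := PnL_beta_sum
  refine ⟨2 * C * K * B, by positivity, fun y hy => ?_⟩
  have hy' : (0 : ℝ) < y := by exact_mod_cast hy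
  have hq := pow_pos (PnL_q_pos y) (2 * j)
  refine (Finset.abs_sum_le_sum_abs _ _).trans ?_
  have h1 : ∀ d ∈ Icc 1 y, |Lam d * (1 + lio d) * PnLA (y / d)|
      ≤ (2 * C * K * y / PnLq y ^ (2 * j)) * (Lam d * (1 + lio d) * (d : ℝ) ^ (-(3 / 4) : ℝ)) := by
    intro d hd
    obtain ⟨hd1, hd2⟩ := Finset.mem_Icc.1 hd
    have hd' : (0 : ℝ) < d := by exact_mod_cast hd1
    have hd1' : (1 : ℝ) ≤ d := by exact_mod_cast hd1
    have hu1 : 1 ≤ y / d := Nat.div_pos hd2 hd1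
    have hqu := pow_pos (PnL_q_pos (y / d)) (2 * j)
    have hb := (PnL_beta d).1
    have h3 := h (y / d) hu1
    have h4 : (y : ℝ) ≤ ((y / d : ℕ) : ℝ) * (2 * d) := by
      have h5 : y < d * (y / d) + d := by
        have := Nat.div_add_mod y d
        have := Nat.mod_lt y hd1
        omega
      have h6 : d ≤ d * (y / d) := Nat.le_mul_of_pos_right d hu1
      have h7 : y ≤ (y / d) * (2 * d) := by
        calc y ≤ d * (y / d) + d * (y / d) := by omega
          _ = (y / d) * (2 * d) := by ring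
      exact_mod_cast h7
    have h8 := hkey (y / d) y (2 * d) hu1 hy (by linarith only [hd', hd1']) h4
    have h9 : (2 * (d : ℝ)) ^ (1 / 4 : ℝ) ≤ 2 * (d : ℝ) ^ (1 / 4 : ℝ) := by
      rw [Real.mul_rpow (by norm_num) hd'.le]
      apply mul_le_mul_of_nonneg_right _ (Real.rpow_nonneg hd'.le _)
      calc (2 : ℝ) ^ (1 / 4 : ℝ) ≤ 2 ^ (1 : ℝ) :=
            Real.rpow_le_rpow_of_exponent_le (by norm_num) (by norm_num)
        _ = 2 := Real.rpow_one 2
    have h10 : 1 / PnLq (y / d) ^ (2 * j) ≤ K * (2 * (d : ℝ) ^ (1 / 4 : ℝ)) / PnLq y ^ (2 * j) := by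
      rw [div_le_div_iff₀ hqu hq]
      calc 1 * PnLq y ^ (2 * j) ≤ K * PnLq (y / d) ^ (2 * j) * (2 * (d : ℝ)) ^ (1 / 4 : ℝ) := by
            rw [one_mul]; exact h8
        _ ≤ K * PnLq (y / d) ^ (2 * j) * (2 * (d : ℝ) ^ (1 / 4 : ℝ)) :=
            mul_le_mul_of_nonneg_left h9 (by positivity)
        _ = K * (2 * (d : ℝ) ^ (1 / 4 : ℝ)) * PnLq (y / d) ^ (2 * j) := by ring
    have h11 : ((y / d : ℕ) : ℝ) ≤ y / d := Nat.cast_div_le
    rw [abs_mul, abs_of_nonneg hb]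
    have h12 : |PnLA (y / d)| ≤ (2 * C * K * y / PnLq y ^ (2 * j)) * (d : ℝ) ^ (-(3 / 4) : ℝ) := by
      calc |PnLA (y / d)| ≤ C * ((y / d : ℕ) : ℝ) / PnLq (y / d) ^ (2 * j) := h3
        _ = C * ((y / d : ℕ) : ℝ) * (1 / PnLq (y / d) ^ (2 * j)) := by ring
        _ ≤ C * (y / d) * (K * (2 * (d : ℝ) ^ (1 / 4 : ℝ)) / PnLq y ^ (2 * j)) := by
            apply mul_le_mul _ h10 (by positivity) (by positivity)
            exact mul_le_mul_of_nonneg_left h11 hC.le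
        _ = (2 * C * K * y / PnLq y ^ (2 * j)) * ((d : ℝ) ^ (1 / 4 : ℝ) * (d : ℝ) ^ (-1 : ℝ)) := by
            rw [Real.rpow_neg_one]; ring
        _ = (2 * C * K * y / PnLq y ^ (2 * j)) * (d : ℝ) ^ (-(3 / 4) : ℝ) := by
            rw [← Real.rpow_add hd']; norm_num
    calc Lam d * (1 + lio d) * |PnLA (y / d)|
        ≤ Lam d * (1 + lio d) * ((2 * C * K * y / PnLq y ^ (2 * j)) * (d : ℝ) ^ (-(3 / 4) : ℝ)) :=
          mul_le_mul_of_nonneg_left h12 hb
      _ = _ := by ring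
  refine (Finset.sum_le_sum h1).trans ?_
  rw [← Finset.mul_sum]
  have h7 : 0 ≤ 2 * C * K * y / PnLq y ^ (2 * j) := by positivity
  refine (mul_le_mul_of_nonneg_left (hBs y) h7).trans (le_of_eq ?_)
  ring

private theorem PnL_harm (w : ℕ) : ∑ d ∈ Icc 1 w, (1 : ℝ) / d ≤ 1 + Real.log w := by
  have h := harmonic_le_one_add_log w
  rw [harmonic_eq_sum_Icc] at h
  push_cast at h
  simpa using h

/-- the range `d ≤ w` -/
private theorem PnL_T2 (j : ℕ) (C : ℝ) (hC : 0 < C)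
    (h : ∀ y : ℕ, 1 ≤ y → |PnLA y| ≤ C * y / PnLq y ^ (2 * j)) (y w : ℕ) (hy : 1 ≤ y) (hw1 : 1 ≤ w)
    (hq2 : 2 ≤ PnLq y) (hw : (w : ℝ) ≤ 2 * Real.exp (PnLq y)) :
    |∑ d ∈ (Icc 1 y).filter (fun d => ¬ w < d), (Lam d - 1) * PnLA (y / d)|
      ≤ (4 * C * 2 ^ (2 * j)) * y * PnLq y ^ 2 / PnLq y ^ (2 * j) := by
  have hy' : (0 : ℝ) < y := by exact_mod_cast hy
  have hw' : (0 : ℝ) < w := by exact_mod_cast hw1
  have hq := pow_pos (PnL_q_pos y) (2 * j)
  have hq0 := PnL_q_pos y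
  have hl2 : Real.log 2 ≤ 1 := by
    have := Real.log_two_lt_d9; linarith only [this]
  have hlw : Real.log w ≤ 1 + PnLq y := by
    have h1 := Real.log_le_log hw' hw
    rw [Real.log_mul (by norm_num) (Real.exp_pos _).ne', Real.log_exp] at h1
    linarith only [hl2, h1]
  have hlw0 := PnL_log_nonneg w
  have hlw2 : 1 + Real.log w ≤ 2 * PnLq y := by linarith only [hq2, hlw]
  refine (Finset.abs_sum_le_sum_abs _ _).trans ?_
  have h1 : ∀ d ∈ (Icc 1 y).filter (fun d => ¬ w < d), |(Lam d - 1) * PnLA (y / d)|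
      ≤ (2 * PnLq y * C * 2 ^ (2 * j) * y / PnLq y ^ (2 * j)) * (1 / d) := by
    intro d hd
    obtain ⟨hd0, hd3⟩ := Finset.mem_filter.1 hd
    obtain ⟨hd1, hd2⟩ := Finset.mem_Icc.1 hd0
    have hdw : d ≤ w := by omega
    have hd' : (0 : ℝ) < d := by exact_mod_cast hd1
    have hdw' : (d : ℝ) ≤ w := by exact_mod_cast hdw
    have hu1 : 1 ≤ y / d := Nat.div_pos hd2 hd1
    have hqu := pow_pos (PnL_q_pos (y / d)) (2 * j)
    have hL0 : 0 ≤ Lam d := ArithmeticFunction.vonMangoldt_nonneg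
    have hL1 : Lam d ≤ Real.log d := ArithmeticFunction.vonMangoldt_le_log
    have hld : Real.log d ≤ Real.log w := Real.log_le_log hd' hdw'
    have h2 : |Lam d - 1| ≤ 2 * PnLq y := by
      rw [abs_le]; constructor <;> linarith only [hq2, hL0, hlw, hL1, hld]
    have h3 := h (y / d) hu1
    have h4 : (y : ℝ) ≤ ((y / d : ℕ) : ℝ) * (2 * d) := by
      have h5 : y < d * (y / d) + d := by
        have := Nat.div_add_mod y d
        have := Nat.mod_lt y hd1
        omega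
      have h6 : d ≤ d * (y / d) := Nat.le_mul_of_pos_right d hu1
      have h7 : y ≤ (y / d) * (2 * d) := by
        calc y ≤ d * (y / d) + d * (y / d) := by omega
          _ = (y / d) * (2 * d) := by ring
      exact_mod_cast h7
    have hu' : (0 : ℝ) < ((y / d : ℕ) : ℝ) := by exact_mod_cast hu1
    have h5 : Real.log y ≤ Real.log ((y / d : ℕ) : ℝ) + (Real.log 2 + Real.log d) := by
      rw [← Real.log_mul (by norm_num) hd'.ne', ← Real.log_mul hu'.ne' (by positivity)]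
      exact Real.log_le_log hy' h4
    have h6 : (PnLq y / 2) ^ 4 ≤ PnLq (y / d) ^ 4 := by
      have e1 := PnL_q4 y
      have e2 := PnL_q4 (y / d)
      rw [div_pow, e2]
      have e3 : PnLq y ^ 4 ≥ 8 * PnLq y := by
        have : PnLq y ^ 3 ≥ 2 ^ 3 := pow_le_pow_left₀ (by norm_num) hq2 3
        nlinarith only [this, hq2]
      have e4 : 1 + Real.log ((y / d : ℕ) : ℝ) ≥ PnLq y ^ 4 - (2 + PnLq y) := by
        rw [e1]; linarith only [hl2, hlw, hld, h5]
      linarith only [hq2, hl2, hlw, hld, h5, e1, e3]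
    have h7 : PnLq y / 2 ≤ PnLq (y / d) :=
      le_of_pow_le_pow_left₀ (by norm_num) (PnL_q_pos _).le h6
    have h8 : 1 / PnLq (y / d) ^ (2 * j) ≤ 2 ^ (2 * j) / PnLq y ^ (2 * j) := by
      rw [div_le_div_iff₀ hqu hq]
      have h9 : PnLq y ≤ 2 * PnLq (y / d) := by linarith only [h7]
      calc 1 * PnLq y ^ (2 * j) ≤ (2 * PnLq (y / d)) ^ (2 * j) := by
            rw [one_mul]; exact pow_le_pow_left₀ hq0.le h9 _
        _ = 2 ^ (2 * j) * PnLq (y / d) ^ (2 * j) := by rw [mul_pow]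
    have h11 : ((y / d : ℕ) : ℝ) ≤ y / d := Nat.cast_div_le
    rw [abs_mul]
    calc |Lam d - 1| * |PnLA (y / d)|
        ≤ (2 * PnLq y) * (C * ((y / d : ℕ) : ℝ) / PnLq (y / d) ^ (2 * j)) :=
          mul_le_mul h2 h3 (abs_nonneg _) (by positivity)
      _ = (2 * PnLq y) * (C * ((y / d : ℕ) : ℝ) * (1 / PnLq (y / d) ^ (2 * j))) := by ring
      _ ≤ (2 * PnLq y) * (C * (y / d) * (2 ^ (2 * j) / PnLq y ^ (2 * j))) := by
          apply mul_le_mul_of_nonneg_left _ (by positivity)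
          apply mul_le_mul _ h8 (by positivity) (by positivity)
          exact mul_le_mul_of_nonneg_left h11 hC.le
      _ = (2 * PnLq y * C * 2 ^ (2 * j) * y / PnLq y ^ (2 * j)) * (1 / d) := by ring
  refine (Finset.sum_le_sum h1).trans ?_
  rw [← Finset.mul_sum]
  have h6 : ∑ d ∈ (Icc 1 y).filter (fun d => ¬ w < d), (1 : ℝ) / d ≤ 2 * PnLq y := by
    refine le_trans (le_trans (Finset.sum_le_sum_of_subset_of_nonneg ?_ fun _ _ _ => by positivity)
      (PnL_harm w)) hlw2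
    intro u hu
    simp only [Finset.mem_filter, Finset.mem_Icc] at hu ⊢
    omega
  have h7 : 0 ≤ 2 * PnLq y * C * 2 ^ (2 * j) * y / PnLq y ^ (2 * j) := by positivity
  refine (mul_le_mul_of_nonneg_left h6 h7).trans (le_of_eq ?_)
  ring

/-- the range `d > w` -/
private theorem PnL_T3 (j : ℕ) : ∃ D : ℝ, 0 < D ∧ ∀ y w : ℕ, 1 ≤ y → 2 ≤ PnLq y →
    Real.exp (PnLq y) ≤ w →
    |∑ m ∈ Icc 1 y, lio m * ∑ d ∈ Ioc w (y / m), (Lam d - 1)| ≤ D * y / PnLq y ^ (2 * j) := by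
  obtain ⟨C, hC, hpnt⟩ := Pool.Agent.H91.EHA.pnt (2 * j + 4)
  refine ⟨2 * C, by positivity, fun y w hy hq2 hw => ?_⟩
  have hy' : (0 : ℝ) < y := by exact_mod_cast hy
  have hq0 := PnL_q_pos y
  have hqc := pow_pos hq0 (2 * j + 4)
  have hw' : (0 : ℝ) < w := lt_of_lt_of_le (Real.exp_pos _) hw
  have hlw : PnLq y ≤ Real.log w := by
    have := Real.log_le_log (Real.exp_pos _) hw
    rwa [Real.log_exp] at this
  have hw2 : 2 ≤ w := by
    have h1 : (2 : ℝ) ≤ w := by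
      have := Real.add_one_le_exp (PnLq y)
      linarith only [hq2, hw, this]
    exact_mod_cast h1
  have hR : ∀ v : ℕ, w ≤ v → |(∑ n ∈ Icc 1 v, Lam n) - v| ≤ C * v / PnLq y ^ (2 * j + 4) := by
    intro v hv
    have hv' : (w : ℝ) ≤ v := by exact_mod_cast hv
    have h1 := hpnt v (by omega)
    refine h1.trans ?_
    have h2 : PnLq y ≤ Real.log v := hlw.trans (Real.log_le_log hw' hv')
    exact div_le_div_of_nonneg_left (by positivity) hqc (pow_le_pow_left₀ hq0.le h2 _)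
  have hin : ∀ m ∈ Icc 1 y, |lio m * ∑ d ∈ Ioc w (y / m), (Lam d - 1)|
      ≤ (2 * C * y / PnLq y ^ (2 * j + 4)) * (1 / m) := by
    intro m hm
    obtain ⟨hm1, hm2⟩ := Finset.mem_Icc.1 hm
    have hm' : (0 : ℝ) < m := by exact_mod_cast hm1
    have h11 : ((y / m : ℕ) : ℝ) ≤ y / m := Nat.cast_div_le
    have hmain : |∑ d ∈ Ioc w (y / m), (Lam d - 1)| ≤ (2 * C * y / PnLq y ^ (2 * j + 4)) * (1 / m) := by
      rcases Nat.lt_or_ge (y / m) w with hlt | hge
      · rw [Finset.Ioc_eq_empty (by omega), Finset.sum_empty, abs_zero]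
        positivity
      · set v := y / m with hv
        have e1 : ∑ d ∈ Ioc w v, (Lam d - 1)
            = ((∑ n ∈ Icc 1 v, Lam n) - v) - ((∑ n ∈ Icc 1 w, Lam n) - w) := by
          have e2 : Icc 1 v = Icc 1 w ∪ Ioc w v := by
            ext n; simp only [Finset.mem_union, Finset.mem_Icc, Finset.mem_Ioc]; omega
          have e3 : Disjoint (Icc 1 w) (Ioc w v) := by
            rw [Finset.disjoint_left]
            intro n; simp only [Finset.mem_Icc, Finset.mem_Ioc]; omega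
          rw [e2, Finset.sum_union e3, Finset.sum_sub_distrib]
          simp only [Finset.sum_const, Nat.card_Ioc, nsmul_eq_mul, mul_one]
          rw [Nat.cast_sub hge]
          ring
        rw [e1]
        have h1 := hR v hge
        have h2 := hR w le_rfl
        have hwv : (w : ℝ) ≤ v := by exact_mod_cast hge
        have h3 : C * w / PnLq y ^ (2 * j + 4) ≤ C * v / PnLq y ^ (2 * j + 4) :=
          div_le_div_of_nonneg_right (mul_le_mul_of_nonneg_left hwv hC.le) hqc.le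
        have h4 : C * v / PnLq y ^ (2 * j + 4) ≤ C * (y / m) / PnLq y ^ (2 * j + 4) :=
          div_le_div_of_nonneg_right (mul_le_mul_of_nonneg_left h11 hC.le) hqc.le
        refine (abs_sub _ _).trans ?_
        calc |(∑ n ∈ Icc 1 v, Lam n) - v| + |(∑ n ∈ Icc 1 w, Lam n) - w|
            ≤ C * (y / m) / PnLq y ^ (2 * j + 4) + C * (y / m) / PnLq y ^ (2 * j + 4) := by
              linarith only [h1, h2, h3, h4]
          _ = (2 * C * y / PnLq y ^ (2 * j + 4)) * (1 / m) := by ring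
    rw [abs_mul]
    calc |lio m| * |∑ d ∈ Ioc w (y / m), (Lam d - 1)|
        ≤ 1 * |∑ d ∈ Ioc w (y / m), (Lam d - 1)| :=
          mul_le_mul_of_nonneg_right (lio_abs_le m) (abs_nonneg _)
      _ ≤ _ := by rw [one_mul]; exact hmain
  refine (Finset.abs_sum_le_sum_abs _ _).trans ((Finset.sum_le_sum hin).trans ?_)
  rw [← Finset.mul_sum]
  have h7 : 0 ≤ 2 * C * y / PnLq y ^ (2 * j + 4) := by positivity
  refine (mul_le_mul_of_nonneg_left (PnL_harm y) h7).trans (le_of_eq ?_)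
  rw [← PnL_q4 y, pow_add]
  have hq := pow_pos hq0 (2 * j)
  field_simp

private theorem PnL_step (j : ℕ)
    (h : ∃ C : ℝ, 0 < C ∧ ∀ y : ℕ, 1 ≤ y → |PnLA y| ≤ C * y / PnLq y ^ (2 * j)) :
    ∃ C : ℝ, 0 < C ∧ ∀ y : ℕ, 1 ≤ y → |PnLA y| ≤ C * y / PnLq y ^ (2 * (j + 1)) := by
  obtain ⟨C, hC, hA⟩ := h
  obtain ⟨D1, hD1, hT1⟩ := PnL_T1 j C hC hA
  obtain ⟨D3, hD3, hT3⟩ := PnL_T3 j
  obtain ⟨D4, hD4, hT4⟩ := PnL_T4 j C hC hA
  obtain ⟨K, hK, hkey⟩ := PnL_key (2 * j) (1 / 2) (by norm_num)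
  set D2 : ℝ := 4 * C * 2 ^ (2 * j) with hD2
  have hD20 : 0 < D2 := by positivity
  refine ⟨2 * (D1 + D2 + D3 + D4 + K) + 2 ^ (2 * (j + 1)), by positivity, fun y hy => ?_⟩
  have hy' : (0 : ℝ) < y := by exact_mod_cast hy
  have hy1 : (1 : ℝ) ≤ y := by exact_mod_cast hy
  have hq0 := PnL_q_pos y
  have hqj := pow_pos hq0 (2 * j)
  have hqj1 := pow_pos hq0 (2 * (j + 1))
  rcases le_or_gt (PnLq y) 2 with hq2 | hq2
  · refine (PnL_A_abs y).trans ?_
    rw [le_div_iff₀ hqj1]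
    have h1 : PnLq y ^ (2 * (j + 1)) ≤ 2 ^ (2 * (j + 1)) := pow_le_pow_left₀ hq0.le hq2 _
    calc (y : ℝ) * PnLq y ^ (2 * (j + 1)) ≤ y * 2 ^ (2 * (j + 1)) :=
          mul_le_mul_of_nonneg_left h1 hy'.le
      _ ≤ (2 * (D1 + D2 + D3 + D4 + K) + 2 ^ (2 * (j + 1))) * y := by
          have : 0 ≤ 2 * (D1 + D2 + D3 + D4 + K) * y := by positivity
          linarith only [this]
  · set w : ℕ := ⌈Real.exp (PnLq y)⌉₊ with hw
    have hw1 : Real.exp (PnLq y) ≤ w := Nat.le_ceil _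
    have hw2 : (w : ℝ) ≤ 2 * Real.exp (PnLq y) := by
      have h1 := Nat.ceil_lt_add_one (Real.exp_pos (PnLq y)).le
      have h2 := Real.one_le_exp hq0.le
      linarith only [h1, h2]
    have hw3 : 1 ≤ w := by
      have : (0 : ℝ) < w := lt_of_lt_of_le (Real.exp_pos _) hw1
      exact_mod_cast this
    have t1 := hT1 y hy
    have t2 := PnL_T2 j C hC hA y w hy hw3 hq2.le hw2
    have t3 := hT3 y w hy hq2.le hw1
    rw [← PnL_inter y w (fun d => Lam d - 1)] at t3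
    have t4 := hT4 y hy
    have t5 := PnL_sumA y
    -- the square root
    have t6 : Real.sqrt y ≤ K * y / PnLq y ^ (2 * j) := by
      have h1 := hkey 1 y y le_rfl hy hy1 (by simp)
      have h2 : PnLq 1 = 1 := by simp [PnLq]
      rw [h2, one_pow, mul_one, ← Real.sqrt_eq_rpow] at h1
      rw [le_div_iff₀ hqj]
      have h3 := Real.sqrt_nonneg (y : ℝ)
      calc Real.sqrt y * PnLq y ^ (2 * j) ≤ Real.sqrt y * (K * Real.sqrt y) :=
            mul_le_mul_of_nonneg_left h1 h3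
        _ = K * (Real.sqrt y * Real.sqrt y) := by ring
        _ = K * y := by rw [Real.mul_self_sqrt hy'.le]
    -- splitting
    have e1 : ∑ n ∈ Icc 1 y, lio n * Real.log n
        = ∑ d ∈ Icc 1 y, Lam d * (1 + lio d) * PnLA (y / d)
          - (∑ d ∈ (Icc 1 y).filter (fun d => w < d), (Lam d - 1) * PnLA (y / d)
            + ∑ d ∈ (Icc 1 y).filter (fun d => ¬ w < d), (Lam d - 1) * PnLA (y / d))
          - ∑ d ∈ Icc 1 y, PnLA (y / d) := by
      rw [PnL_log, Finset.sum_filter_add_sum_filter_not, ← Finset.sum_sub_distrib,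
        ← Finset.sum_sub_distrib]
      refine Finset.sum_congr rfl fun d _ => ?_
      ring
    have e2 : PnLA y * Real.log y = ∑ n ∈ Icc 1 y, lio n * (Real.log y - Real.log n)
        + ∑ n ∈ Icc 1 y, lio n * Real.log n := by
      unfold PnLA
      rw [Finset.sum_mul, ← Finset.sum_add_distrib]
      refine Finset.sum_congr rfl fun n _ => ?_
      ring
    set Q : ℝ := y * PnLq y ^ 2 / PnLq y ^ (2 * j) with hQ
    have hq1 : 1 ≤ PnLq y ^ 2 := one_le_pow₀ (PnL_q_one y)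
    have hQ1 : ∀ D : ℝ, 0 < D → D * y / PnLq y ^ (2 * j) ≤ D * Q := by
      intro D hD
      rw [hQ, ← mul_div_assoc]
      apply div_le_div_of_nonneg_right _ hqj.le
      have : (y : ℝ) ≤ y * PnLq y ^ 2 := le_mul_of_one_le_right hy'.le hq1
      calc D * y ≤ D * (y * PnLq y ^ 2) := mul_le_mul_of_nonneg_left this hD.le
        _ = D * (y * PnLq y ^ 2) := rfl
    have t2' : |∑ d ∈ (Icc 1 y).filter (fun d => ¬ w < d), (Lam d - 1) * PnLA (y / d)| ≤ D2 * Q := by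
      refine t2.trans (le_of_eq ?_)
      rw [hQ]; ring
    have hfin : |PnLA y * Real.log y| ≤ (D1 + D2 + D3 + D4 + K) * Q := by
      rw [e2, e1]
      have a1 := abs_le.1 (t1.trans (hQ1 D1 hD1))
      have a2 := abs_le.1 t2'
      have a3 := abs_le.1 (t3.trans (hQ1 D3 hD3))
      have a4 := abs_le.1 (t4.trans (hQ1 D4 hD4))
      have a5 := abs_le.1 (t5.trans (t6.trans (hQ1 K hK)))
      rw [abs_le]
      constructor
      · linarith only [a1, a2, a3, a4, a5, a1.1, a2.2, a3.2, a4.1, a5.2]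
      · linarith only [a1, a2, a3, a4, a5, a1.2, a2.1, a3.1, a4.2, a5.1]
    have hlog : PnLq y ^ 4 / 2 ≤ Real.log y := by
      have h1 := PnL_q4 y
      have h2 : (2 : ℝ) ^ 4 ≤ PnLq y ^ 4 := pow_le_pow_left₀ (by norm_num) hq2.le 4
      linarith only [h1, h2]
    have hl0 : 0 ≤ Real.log y := PnL_log_nonneg y
    rw [abs_mul, abs_of_nonneg hl0] at hfin
    have hfin2 : |PnLA y| * (PnLq y ^ 4 / 2) ≤ (D1 + D2 + D3 + D4 + K) * Q :=
      (mul_le_mul_of_nonneg_left hlog (abs_nonneg _)).trans hfin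
    have hq4 := pow_pos hq0 4
    have h3 : |PnLA y| ≤ 2 * (D1 + D2 + D3 + D4 + K) * y / PnLq y ^ (2 * (j + 1)) := by
      rw [le_div_iff₀ hqj1]
      have h4 : |PnLA y| * (PnLq y ^ 4 / 2) * PnLq y ^ (2 * j)
          ≤ (D1 + D2 + D3 + D4 + K) * (y * PnLq y ^ 2) := by
        have h5 := mul_le_mul_of_nonneg_right hfin2 hqj.le
        refine h5.trans (le_of_eq ?_)
        rw [hQ]
        field_simp
      have h6 : PnLq y ^ 4 = PnLq y ^ 2 * PnLq y ^ 2 := by ring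
      have h7 : PnLq y ^ (2 * (j + 1)) = PnLq y ^ (2 * j) * PnLq y ^ 2 := by ring
      rw [h7]
      rw [h6] at h4
      have hq2p : 0 < PnLq y ^ 2 := by positivity
      have h8 : (|PnLA y| * (PnLq y ^ (2 * j) * PnLq y ^ 2)) * PnLq y ^ 2
          ≤ (2 * (D1 + D2 + D3 + D4 + K) * y) * PnLq y ^ 2 := by
        calc (|PnLA y| * (PnLq y ^ (2 * j) * PnLq y ^ 2)) * PnLq y ^ 2
            = 2 * (|PnLA y| * (PnLq y ^ 2 * PnLq y ^ 2 / 2) * PnLq y ^ (2 * j)) := by ring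
          _ ≤ 2 * ((D1 + D2 + D3 + D4 + K) * (y * PnLq y ^ 2)) := by linarith only [h4]
          _ = (2 * (D1 + D2 + D3 + D4 + K) * y) * PnLq y ^ 2 := by ring
      exact le_of_mul_le_mul_right h8 hq2p
    refine h3.trans ?_
    apply div_le_div_of_nonneg_right _ hqj1.le
    apply mul_le_mul_of_nonneg_right _ hy'.le
    have : (0 : ℝ) < 2 ^ (2 * (j + 1)) := by positivity
    linarith only [this]

private theorem PnL_all (j : ℕ) :
    ∃ C : ℝ, 0 < C ∧ ∀ y : ℕ, 1 ≤ y → |PnLA y| ≤ C * y / PnLq y ^ (2 * j) := by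
  induction j with
  | zero =>
    refine ⟨1, one_pos, fun y _ => ?_⟩
    simpa using PnL_A_abs y
  | succ j ih => exact PnL_step j ih

theorem pn_l (K : ℕ) : ∃ x0 : ℕ, ∀ x : ℕ, x0 ≤ x → ∀ y : ℕ, y ≤ x →
    |∑ n ∈ Icc 1 y, lio n| ≤ x / Real.log x ^ K := by
  obtain ⟨C, hC, hA⟩ := PnL_all (2 * (K + 1))
  obtain ⟨D, hD, hkey⟩ := PnL_key (2 * (2 * (K + 1))) (1 / 2) (by norm_num)
  obtain ⟨x0, hx0⟩ := log_ge (max 1 (C * D))
  refine ⟨max 1 x0, fun x hx y hyx => ?_⟩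
  have hx1 : 1 ≤ x := (le_max_left _ _).trans hx
  have hL := hx0 x ((le_max_right _ _).trans hx)
  have hL1 : 1 ≤ Real.log x := (le_max_left _ _).trans hL
  have hL2 : C * D ≤ Real.log x := (le_max_right _ _).trans hL
  have hx' : (0 : ℝ) < x := by exact_mod_cast hx1
  rcases Nat.eq_zero_or_pos y with rfl | hy
  · simp only [Finset.Icc_eq_empty (show ¬ (1 ≤ 0) by norm_num), Finset.sum_empty, abs_zero]
    positivity
  have hy' : (0 : ℝ) < y := by exact_mod_cast hy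
  have hyx' : (y : ℝ) ≤ x := by exact_mod_cast hyx
  have h1 := hA y hy
  unfold PnLA at h1
  refine h1.trans ?_
  have h2 := hkey y x (x / y) hy hx1 (by rw [le_div_iff₀ hy']; linarith only [hyx'])
    (by rw [mul_div_cancel₀ _ hy'.ne'])
  have h3 : ((x : ℝ) / y) ^ (1 / 2 : ℝ) ≤ x / y := by
    have h4 : (1 : ℝ) ≤ x / y := by rw [le_div_iff₀ hy']; linarith only [hyx']
    calc ((x : ℝ) / y) ^ (1 / 2 : ℝ) ≤ ((x : ℝ) / y) ^ (1 : ℝ) :=
          Real.rpow_le_rpow_of_exponent_le h4 (by norm_num)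
      _ = x / y := Real.rpow_one _
  have hqy := pow_pos (PnL_q_pos y) (2 * (2 * (K + 1)))
  have hqx := pow_pos (PnL_q_pos x) (2 * (2 * (K + 1)))
  have h5 : PnLq x ^ (2 * (2 * (K + 1))) ≤ D * PnLq y ^ (2 * (2 * (K + 1))) * (x / y) :=
    h2.trans (mul_le_mul_of_nonneg_left h3 (by positivity))
  have h6 : PnLq x ^ (2 * (2 * (K + 1))) = (1 + Real.log x) ^ (K + 1) := by
    rw [← PnL_q4 x, ← pow_mul]
    congr 1; ring
  have h7 : C * y / PnLq y ^ (2 * (2 * (K + 1))) ≤ C * D * x / PnLq x ^ (2 * (2 * (K + 1))) := by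
    rw [div_le_div_iff₀ hqy hqx]
    calc C * y * PnLq x ^ (2 * (2 * (K + 1)))
        ≤ C * y * (D * PnLq y ^ (2 * (2 * (K + 1))) * (x / y)) :=
          mul_le_mul_of_nonneg_left h5 (by positivity)
      _ = C * D * x * PnLq y ^ (2 * (2 * (K + 1))) := by field_simp
  refine h7.trans ?_
  rw [h6, div_le_div_iff₀ (by positivity) (by positivity)]
  calc C * D * x * Real.log x ^ K ≤ Real.log x * x * Real.log x ^ K := by
        apply mul_le_mul_of_nonneg_right _ (by positivity)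
        exact mul_le_mul_of_nonneg_right hL2 hx'.le
    _ = x * Real.log x ^ (K + 1) := by ring
    _ ≤ x * (1 + Real.log x) ^ (K + 1) := by
        apply mul_le_mul_of_nonneg_left _ hx'.le
        exact pow_le_pow_left₀ (by linarith only [hL1]) (by linarith only) _

end Pool.Agent.H76.MU

end

section

/-!
# MU SqW: multiples of squares of large primes in short windows

Proof (part of `VarE.lean`, by helper56: copy).  `b(j)` = number of `n ∈ Ico (j - w) j` divisible by `p^2` for a prime `p > P`; `0 ≤ b(j) ≤ w`, so `b^2 ≤ w b`, and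
`∑_j b(j) ≤ w · #{n ∈ Icc 1 (2X) : ∃ p > P prime, p^2 | n} ≤ w ∑_{p > P} 2X/p^2 ≤ 2 X w/P` (each `n` lies in at most `w` windows; `w ≤ X < j`, so `n ≥ 1`).
-/

set_option autoImplicit false

namespace Pool.Agent.H76.MU

open Finset

open Classical in
private noncomputable def SqW_s (P n : ℕ) : ℝ :=
  if ∃ p, P < p ∧ p.Prime ∧ p ^ 2 ∣ n then 1 else 0

private theorem SqW_s_nonneg (P n : ℕ) : 0 ≤ SqW_s P n := by
  unfold SqW_s
  split_ifs <;> norm_num

private theorem SqW_s_le (P n : ℕ) : SqW_s P n ≤ 1 := by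
  unfold SqW_s
  split_ifs <;> norm_num

private theorem SqW_count (P N : ℕ) (hP : 1 ≤ P) :
    ∑ n ∈ Icc 1 N, SqW_s P n ≤ (N : ℝ) / P := by
  classical
  by_cases hN : P ≤ N
  · have h1 : ∑ n ∈ Icc 1 N, SqW_s P n
        ≤ ∑ n ∈ Icc 1 N, ∑ k ∈ Ioc P N, (if k ^ 2 ∣ n then (1 : ℝ) else 0) := by
      refine Finset.sum_le_sum fun n hn => ?_
      have hn1 := Finset.mem_Icc.1 hn
      by_cases hs : ∃ p, P < p ∧ p.Prime ∧ p ^ 2 ∣ n
      · obtain ⟨p, hp1, hp2, hp3⟩ := hs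
        have hpN : p ≤ N := by
          have h3 : p ^ 2 ≤ n := Nat.le_of_dvd (by omega) hp3
          have h4 : p ≤ p ^ 2 := by nlinarith only [hP, hp1, hp2.pos]
          omega
        have h5 : (if p ^ 2 ∣ n then (1 : ℝ) else 0)
            ≤ ∑ k ∈ Ioc P N, (if k ^ 2 ∣ n then (1 : ℝ) else 0) := by
          refine Finset.single_le_sum (f := fun k : ℕ => (if k ^ 2 ∣ n then (1 : ℝ) else 0))
            (fun k _ => ?_) (Finset.mem_Ioc.2 ⟨hp1, hpN⟩)
          split_ifs <;> norm_num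
        rw [if_pos hp3] at h5
        exact (SqW_s_le P n).trans h5
      · have h6 : SqW_s P n = 0 := by
          unfold SqW_s
          rw [if_neg hs]
        rw [h6]
        refine Finset.sum_nonneg fun k _ => ?_
        split_ifs <;> norm_num
    refine h1.trans ?_
    rw [Finset.sum_comm]
    have h2 : ∀ k ∈ Ioc P N, ∑ n ∈ Icc 1 N, (if k ^ 2 ∣ n then (1 : ℝ) else 0)
        ≤ (N : ℝ) * ((k : ℝ) ^ 2)⁻¹ := by
      intro k hk
      have hk1 := Finset.mem_Ioc.1 hk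
      rw [Finset.sum_ite, Finset.sum_const_zero, add_zero, Finset.sum_const, nsmul_eq_mul, mul_one]
      have h3 : ((Icc 1 N).filter (fun n => k ^ 2 ∣ n)).card = N / k ^ 2 := by
        have := Nat.Ioc_filter_dvd_card_eq_div N (k ^ 2)
        rw [← this]
        rfl
      rw [h3]
      have h4 : ((N / k ^ 2 : ℕ) : ℝ) ≤ (N : ℝ) / ((k ^ 2 : ℕ) : ℝ) := Nat.cast_div_le
      rw [Nat.cast_pow] at h4
      rw [div_eq_mul_inv] at h4
      exact h4
    refine (Finset.sum_le_sum h2).trans ?_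
    rw [← Finset.mul_sum]
    have h3 : ∑ k ∈ Ioc P N, ((k : ℝ) ^ 2)⁻¹ ≤ (P : ℝ)⁻¹ - (N : ℝ)⁻¹ :=
      sum_Ioc_inv_sq_le_sub (by omega) hN
    have h4 : (0 : ℝ) ≤ (N : ℝ)⁻¹ := by positivity
    have h5 : ∑ k ∈ Ioc P N, ((k : ℝ) ^ 2)⁻¹ ≤ (P : ℝ)⁻¹ := by linarith only [h3, h4]
    calc (N : ℝ) * ∑ k ∈ Ioc P N, ((k : ℝ) ^ 2)⁻¹ ≤ (N : ℝ) * (P : ℝ)⁻¹ :=
          mul_le_mul_of_nonneg_left h5 (Nat.cast_nonneg _)
      _ = (N : ℝ) / P := (div_eq_mul_inv _ _).symm
  · have h1 : ∑ n ∈ Icc 1 N, SqW_s P n = 0 := by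
      refine Finset.sum_eq_zero fun n hn => ?_
      have hn1 := Finset.mem_Icc.1 hn
      unfold SqW_s
      rw [if_neg]
      rintro ⟨p, hp1, hp2, hp3⟩
      have h3 : p ^ 2 ≤ n := Nat.le_of_dvd (by omega) hp3
      have h4 : p ≤ p ^ 2 := by nlinarith only [hN, hn1, hp1, h3, hp2.pos]
      omega
    rw [h1]
    positivity

open Classical in
private theorem SqW_card (P : ℕ) (S : Finset ℕ) :
    ∑ n ∈ S, SqW_s P n =
      ((S.filter (fun n => ∃ p, P < p ∧ p.Prime ∧ p ^ 2 ∣ n)).card : ℝ) := by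
  unfold SqW_s
  rw [Finset.sum_ite, Finset.sum_const_zero, add_zero, Finset.sum_const, nsmul_eq_mul, mul_one]

private theorem SqW_windows (P h X : ℕ) (hX : h ≤ X) :
    ∑ j ∈ Ioc X (2 * X), ∑ n ∈ Ico (j - h) j, SqW_s P n ≤
      (h : ℝ) * ∑ n ∈ Icc 1 (2 * X), SqW_s P n := by
  classical
  have h1 : ∀ j ∈ Ioc X (2 * X), ∑ n ∈ Ico (j - h) j, SqW_s P n
      = ∑ n ∈ Icc 1 (2 * X), (if n ∈ Ico (j - h) j then SqW_s P n else 0) := by
    intro j hj
    have hj1 := Finset.mem_Ioc.1 hj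
    rw [← Finset.sum_filter]
    refine Finset.sum_congr ?_ (fun _ _ => rfl)
    ext n
    simp only [Finset.mem_filter, Finset.mem_Ico, Finset.mem_Icc]
    omega
  rw [Finset.sum_congr rfl h1, Finset.sum_comm, Finset.mul_sum]
  refine Finset.sum_le_sum fun n hn => ?_
  rw [← Finset.sum_filter, Finset.sum_const, nsmul_eq_mul]
  refine mul_le_mul_of_nonneg_right ?_ (SqW_s_nonneg P n)
  have h2 : (Ioc X (2 * X)).filter (fun j => n ∈ Ico (j - h) j) ⊆ Ioc n (n + h) := by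
    intro j hj
    simp only [Finset.mem_filter, Finset.mem_Ico, Finset.mem_Ioc] at hj ⊢
    omega
  have h3 := Finset.card_le_card h2
  rw [Nat.card_Ioc] at h3
  have h4 : ((Ioc X (2 * X)).filter (fun j => n ∈ Ico (j - h) j)).card ≤ h := by omega
  exact_mod_cast h4

open Classical in
theorem sq_win (P w X : ℕ) (hP : 1 ≤ P) (hw : w ≤ X) :
    ∑ j ∈ Ioc X (2 * X), (((Ico (j - w) j).filter (fun n => ∃ p, P < p ∧ p.Prime ∧ p ^ 2 ∣ n)).card : ℝ) ^ 2
      ≤ 2 * X * (w : ℝ) ^ 2 / P := by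
  have hsq : ∀ j ∈ Ioc X (2 * X), (((Ico (j - w) j).filter
      (fun n => ∃ p, P < p ∧ p.Prime ∧ p ^ 2 ∣ n)).card : ℝ) ^ 2 ≤
      (w : ℝ) * ∑ n ∈ Ico (j - w) j, SqW_s P n := by
    intro j hj
    have hj1 := Finset.mem_Ioc.1 hj
    have h1 : (((Ico (j - w) j).filter
      (fun n => ∃ p, P < p ∧ p.Prime ∧ p ^ 2 ∣ n)).card : ℝ) =
        ∑ n ∈ Ico (j - w) j, SqW_s P n := (SqW_card P _).symm
    rw [h1, pow_two]
    refine mul_le_mul_of_nonneg_right ?_ (Finset.sum_nonneg fun n _ => SqW_s_nonneg P n)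
    refine (Finset.sum_le_sum (fun n _ => SqW_s_le P n)).trans ?_
    rw [Finset.sum_const, Nat.card_Ico, nsmul_eq_mul, mul_one]
    have : j - (j - w) = w := by omega
    rw [this]
  refine (Finset.sum_le_sum hsq).trans ?_
  rw [← Finset.mul_sum]
  have b1 := SqW_windows P w X hw
  have b2 := SqW_count P (2 * X) hP
  have hw0 : (0 : ℝ) ≤ w := Nat.cast_nonneg _
  calc (w : ℝ) * ∑ j ∈ Ioc X (2 * X), ∑ n ∈ Ico (j - w) j, SqW_s P n
      ≤ (w : ℝ) * ((w : ℝ) * (((2 * X : ℕ) : ℝ) / P)) :=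
        mul_le_mul_of_nonneg_left (b1.trans (mul_le_mul_of_nonneg_left b2 hw0)) hw0
    _ = 2 * X * (w : ℝ) ^ 2 / P := by push_cast; ring

end Pool.Agent.H76.MU

end

section

/-!
# MU VarDA: the contribution of one block of primes, every power of the logarithm

Generalisation of `VarD.lean` (the case `A = 4`; proof by helper65: copy and adapt).  `cor_m` gives `η`; `jm 1 (A + 2) η` gives `b1, K, m0`; `cor_m` (`K`) gives `m1`;
`m = max m0 m1`; `jm` gives `κ1`.  `b = max b1 (A + 4)`, `κ = κ1 + A + 4`.  `L = log X`.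
`P = P0 2^i`, `4 ≤ P ≤ P0 2^J ≤ X^{1/10}` (as `(P0 2^J)^10 ≤ h ≤ h' ≤ X`), `x = 4 X / P` (natural division; `3X ≤ P x ≤ 4X`, `x ≤ X`, `x ≥ X^{0.9}`, so `l := log x ∈ [L/2, L]`),
`M = X / (4 P)` (`≥ x/16 - 1 ≥ x/l`), `N = x`, `g = gc P0 J M N`, `G = gP g P`, `N1 = 2 P N ≤ 8 X`.
For `X/2 < n ≤ 2X` and `k ∈ pb P`, `k | n`: `n/k > X/(4P) ≥ M` and `n/k ≤ 2X/P ≤ N`; so `gP (gl 1 P0 J) P n = G n`, and all windows occurring lie in `(X/2, 2X]` (`h' ≤ X/2`).
`cor_m` at the scale `x` (`P0 2^J ≤ X^{1/10} ≤ x^{1/4}`): `CorM x m K η N M g`.  `fou` with `Y0 = l^κ1/(P x)`, `Y = 1/(P l^{A+14})` (`Y0 ≤ Y` as `x ≥ l^{κ1 + A + 14}`; `Y ≤ 1/2`), `gp_FF`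
(`FF G N1 (s y) = SG g N P (s y)`), `jm` for `s = 1, -1`: the first two terms are `≤ 8 P x/l^{A+2} ≤ 32 · 2^{A+2} X/L^{A+2} ≤ X/(3 L^A)`.  `S2 G N1 ≤ N1 (2 log N1)^2 ≤ 8 X (4 L)^2 = 128 X L^2`
(`gp_S2`); `13 h' Y0 ≤ 13 (X/L^κ) L^{κ1}/(3 X) ≤ 5/L^{A+4}` and `1/(h Y) = P l^{A+14}/h ≤ L^{A+14}/P^9 ≤ L^{A + 14 - 9 (A+4)} ≤ 1/L^{A+4}`: the last term is
`≤ 26/L^{2A+8} · 128 X L^2 ≤ X/(3 L^A)`.
-/

set_option autoImplicit false

namespace Pool.Agent.H76.MU

open Finset MeasureTheory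
open Pool.Agent.H91.PK (ee)
open Pool.Agent.H76.EHB
open Pool.Agent.H35.W

/-- The windows only see `(X/2, 2X]`, where the cut function agrees with `gl`. -/
private theorem VarDA_win (P0 J P X x M h j : ℕ) (hh : 2 * h ≤ X) (hM : 4 * P * M ≤ X)
    (hx : 2 * X < P * x) (hj : j ∈ Ioc X (2 * X)) :
    Uw (gP (gl 1 P0 J) P) h j = Uw (gP (gc P0 J M x) P) h j := by
  rw [Finset.mem_Ioc] at hj
  unfold Uw
  apply Finset.sum_congr rfl
  intro n hn
  rw [Finset.mem_Ico] at hn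
  unfold gP
  apply Finset.sum_congr rfl
  intro k hk
  rw [Finset.mem_filter, pb, Finset.mem_filter, Finset.mem_Ioc] at hk
  obtain ⟨⟨⟨hk1, hk2⟩, hkp⟩, hkn⟩ := hk
  obtain ⟨q, hq⟩ := hkn
  have hkq : n / k = q := by
    rw [hq, Nat.mul_div_cancel_left q hkp.pos]
  rw [hkq]
  unfold gc
  rw [if_pos]
  rw [Finset.mem_Ioc]
  have h2n : X < 2 * n := by omega
  have hn2 : n < 2 * X := by omega
  constructor
  · by_contra hc
    push Not at hc
    have h1 : k * q ≤ 2 * P * M := Nat.mul_le_mul hk2 hc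
    have h2 : 4 * P * M = 2 * (2 * P * M) := by ring
    rw [← hq] at h1
    omega
  · by_contra hc
    push Not at hc
    have h1 : P * x ≤ k * q := Nat.mul_le_mul hk1.le hc.le
    rw [← hq] at h1
    omega

private theorem VarDA_fin (A : ℕ) (X L l P x h h' I1 I2 S : ℝ) (κ1 : ℕ) (hX : 0 < X)
    (hL : 200 * 2 ^ A ≤ L)
    (hl1 : L / 2 ≤ l) (hl2 : l ≤ L) (hP : L ^ (A + 4) ≤ P) (hPx1 : 3 * X ≤ P * x)
    (hPx2 : P * x ≤ 4 * X)
    (hh : P ^ 10 ≤ h) (hh' : h' ≤ X / L ^ (κ1 + (A + 4))) (hh0 : 0 ≤ h')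
    (hI1 : I1 ≤ P * x / l ^ (A + 2))
    (hI2 : I2 ≤ P * x / l ^ (A + 2)) (hS : S ≤ 128 * X * L ^ 2) (hS0 : 0 ≤ S) :
    4 * I1 + 4 * I2 + ((13 * h' * (l ^ κ1 / (P * x))) ^ 2
      + (1 / (h * (1 / (P * l ^ (A + 14))))) ^ 2) * S
      ≤ X / L ^ A := by
  have h2A : (1 : ℝ) ≤ 2 ^ A := one_le_pow₀ (by norm_num)
  have hL200 : 200 ≤ L := by linarith only [hL, h2A]
  have hL0 : 0 < L := by linarith only [hL, h2A]
  have hL1 : 1 ≤ L := by linarith only [hL, h2A]
  have hl0 : 0 < l := by linarith only [hL, hl1, h2A]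
  have hP0 : 0 < P := lt_of_lt_of_le (by positivity) hP
  have hL2 : 40000 * (2 : ℝ) ^ A ≤ L ^ 2 := by nlinarith only [hL, hl1, hl2, h2A]
  have hLA : 0 < L ^ A := by positivity
  have hA : P * x / l ^ (A + 2) ≤ 16 * 2 ^ A * X / L ^ (A + 2) := by
    rw [div_le_div_iff₀ (by positivity) (by positivity)]
    have h1 : (L / 2) ^ (A + 2) ≤ l ^ (A + 2) := pow_le_pow_left₀ (by positivity) hl1 _
    have h2 : P * x * L ^ (A + 2) ≤ 4 * X * L ^ (A + 2) :=
      mul_le_mul_of_nonneg_right hPx2 (by positivity)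
    have h3 : 16 * 2 ^ A * X * (L / 2) ^ (A + 2) ≤ 16 * 2 ^ A * X * l ^ (A + 2) :=
      mul_le_mul_of_nonneg_left h1 (by positivity)
    have h4 : 16 * 2 ^ A * X * (L / 2) ^ (A + 2) = 4 * X * L ^ (A + 2) := by
      rw [div_pow, pow_add (2 : ℝ)]
      field_simp
      ring
    linarith only [h2, h3, h4]
  have hA' : 8 * (16 * 2 ^ A * X / L ^ (A + 2)) ≤ 1 / 3 * (X / L ^ A) := by
    have e : 1 / 3 * (X / L ^ A) = (X * L ^ 2 / 3) / L ^ (A + 2) := by
      rw [pow_add]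
      field_simp
    rw [e, ← mul_div_assoc]
    apply div_le_div_of_nonneg_right _ (by positivity)
    have h5 : X * (40000 * 2 ^ A) ≤ X * L ^ 2 := mul_le_mul_of_nonneg_left hL2 hX.le
    have h6 : 0 ≤ X * 2 ^ A := by positivity
    nlinarith only [hS, hS0, h5]
  have hB : 13 * h' * (l ^ κ1 / (P * x)) ≤ 5 / L ^ (A + 4) := by
    have h1 : l ^ κ1 / (P * x) ≤ L ^ κ1 / (3 * X) := by
      apply div_le_div₀ (by positivity) (pow_le_pow_left₀ hl0.le hl2 κ1) (by positivity) hPx1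
    have h2 : 13 * h' * (l ^ κ1 / (P * x)) ≤
        13 * (X / L ^ (κ1 + (A + 4))) * (L ^ κ1 / (3 * X)) := by
      apply mul_le_mul (by linarith only [hh']) h1 _ (by positivity)
      have : 0 < P * x := by linarith only [hX, hPx1]
      positivity
    have h3 : 13 * (X / L ^ (κ1 + (A + 4))) * (L ^ κ1 / (3 * X)) = (13 / 3) / L ^ (A + 4) := by
      rw [pow_add L κ1]
      field_simp
    rw [h3] at h2
    refine h2.trans ?_
    apply div_le_div_of_nonneg_right (by norm_num) (by positivity)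
  have hB0 : 0 ≤ 13 * h' * (l ^ κ1 / (P * x)) := by
    have : 0 < P * x := by linarith only [hX, hPx1]
    positivity
  have hh1 : 0 < h := lt_of_lt_of_le (by positivity) hh
  have hC : 1 / (h * (1 / (P * l ^ (A + 14)))) ≤ 1 / L ^ (A + 4) := by
    have e1 : 1 / (h * (1 / (P * l ^ (A + 14)))) = P * l ^ (A + 14) / h := by
      field_simp
    rw [e1, div_le_div_iff₀ hh1 (by positivity), one_mul]
    have h1 : l ^ (A + 14) ≤ L ^ (A + 14) := pow_le_pow_left₀ hl0.le hl2 _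
    have h2 : (L ^ (A + 4)) ^ 9 ≤ P ^ 9 := pow_le_pow_left₀ (by positivity) hP 9
    have h3 : L ^ (A + 14 + (A + 4)) ≤ (L ^ (A + 4)) ^ 9 := by
      rw [← pow_mul]
      exact pow_le_pow_right₀ hL1 (by omega)
    calc P * l ^ (A + 14) * L ^ (A + 4) ≤ P * L ^ (A + 14) * L ^ (A + 4) := by
          apply mul_le_mul_of_nonneg_right _ (by positivity)
          exact mul_le_mul_of_nonneg_left h1 hP0.le
      _ = P * L ^ (A + 14 + (A + 4)) := by rw [pow_add L (A + 14)]; ring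
      _ ≤ P * P ^ 9 := mul_le_mul_of_nonneg_left (h3.trans h2) hP0.le
      _ = P ^ 10 := by ring
      _ ≤ h := hh
  have hC0 : 0 ≤ 1 / (h * (1 / (P * l ^ (A + 14)))) := by positivity
  have hB2 : (13 * h' * (l ^ κ1 / (P * x))) ^ 2 ≤ (5 / L ^ (A + 4)) ^ 2 :=
    pow_le_pow_left₀ hB0 hB 2
  have hC2 : (1 / (h * (1 / (P * l ^ (A + 14))))) ^ 2 ≤ (1 / L ^ (A + 4)) ^ 2 :=
    pow_le_pow_left₀ hC0 hC 2
  have hD : ((13 * h' * (l ^ κ1 / (P * x))) ^ 2 + (1 / (h * (1 / (P * l ^ (A + 14))))) ^ 2) * S ≤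
      ((5 / L ^ (A + 4)) ^ 2 + (1 / L ^ (A + 4)) ^ 2) * (128 * X * L ^ 2) :=
    mul_le_mul (add_le_add hB2 hC2) hS hS0 (by positivity)
  have hE : ((5 / L ^ (A + 4)) ^ 2 + (1 / L ^ (A + 4)) ^ 2) * (128 * X * L ^ 2)
      ≤ 1 / 3 * (X / L ^ A) := by
    have e2 : ((5 / L ^ (A + 4)) ^ 2 + (1 / L ^ (A + 4)) ^ 2) * (128 * X * L ^ 2)
        = (X / L ^ A) * (3328 / (L ^ A * L ^ 6)) := by
      rw [pow_add L A 4]
      field_simp
      ring
    rw [e2, mul_comm (1 / 3 : ℝ)]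
    apply mul_le_mul_of_nonneg_left _ (by positivity)
    rw [div_le_div_iff₀ (by positivity) (by norm_num)]
    have h7 : (1 : ℝ) ≤ L ^ A := one_le_pow₀ hL1
    have h8 : (40000 : ℝ) ≤ L ^ 6 := by
      have h9 : L ^ 2 ≤ L ^ 6 := pow_le_pow_right₀ hL1 (by norm_num)
      nlinarith only [h2A, hL2, h9]
    have h10 : 1 * L ^ 6 ≤ L ^ A * L ^ 6 := mul_le_mul_of_nonneg_right h7 (by positivity)
    linarith only [h8, h10]
  have hF : 0 ≤ X / L ^ A := by positivity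
  linarith only [hI1, hI2, hA, hA', hD, hE, hF]

private theorem VarDA_M (P x X M l : ℝ) (hP : 0 < P) (h1 : X < 4 * P * (M + 1))
    (h2 : P * x ≤ 4 * X) (h4 : 100 ≤ x) (h5 : 0 ≤ M) (h6 : 100 ≤ l) : x ≤ M * l := by
  have h7 : P * x < P * (16 * (M + 1)) := by
    have : 4 * (4 * P * (M + 1)) = P * (16 * (M + 1)) := by ring
    linarith only [h1, h2]
  have h3 : x < 16 * (M + 1) := lt_of_mul_lt_mul_left h7 hP.le
  have h8 : M * 100 ≤ M * l := mul_le_mul_of_nonneg_left h6 h5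
  linarith only [h4, h3, h8]

private theorem VarDA_pow_ge (A : ℝ) : ∃ X0 : ℕ, ∀ X : ℕ, X0 ≤ X → A ≤ (X : ℝ) ^ (9 / 10 : ℝ) := by
  have h1 : Filter.Tendsto (fun y : ℝ => y ^ (9 / 10 : ℝ)) Filter.atTop Filter.atTop :=
    tendsto_rpow_atTop (by norm_num)
  have h2 := (h1.comp (tendsto_natCast_atTop_atTop (R := ℝ))).eventually
    (Filter.eventually_ge_atTop A)
  exact Filter.eventually_atTop.1 h2

private theorem VarDA_le_root (a : ℕ) (X : ℝ) (h : (a : ℝ) ^ 10 ≤ X) :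
    (a : ℝ) ≤ X ^ (1 / 10 : ℝ) := by
  have h1 : (a : ℝ) = ((a : ℝ) ^ 10) ^ (1 / 10 : ℝ) := by
    rw [← Real.rpow_natCast, ← Real.rpow_mul (Nat.cast_nonneg a)]
    norm_num
  rw [h1]
  exact Real.rpow_le_rpow (by positivity) h (by norm_num)

theorem var_da (hVK : Pool.Agent.H80.LV.VK) (hV : VK1) (A : ℕ) : ∃ b κ x0 : ℕ, ∀ X : ℕ, x0 ≤ X →
    ∀ P0 J i h h' : ℕ, Real.log X ^ b ≤ P0 → i < J → (P0 * 2 ^ J) ^ 10 ≤ h → h ≤ h' →
      (h' : ℝ) ≤ X / Real.log X ^ κ →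
      ∑ j ∈ Ioc X (2 * X), (Uw (gP (gl 1 P0 J) (P0 * 2 ^ i)) h j / h
        - Uw (gP (gl 1 P0 J) (P0 * 2 ^ i)) h' j / h') ^ 2 ≤ X / Real.log X ^ A := by
  obtain ⟨η, hη, hη1, hcor⟩ := cor_m hVK hV
  obtain ⟨b1, K, m0, hjm⟩ := jm 1 (A + 2) η hη (by linarith only [hη, hη1])
  obtain ⟨m1, hm1⟩ := hcor K
  obtain ⟨κ1, x1, hjm1⟩ := hjm (max m0 m1) (le_max_left _ _)
  obtain ⟨x2, hcor1⟩ := hm1 (max m0 m1) (le_max_right _ _)
  obtain ⟨x3, hlog⟩ := log_pow_le 1 1 one_pos one_pos (κ1 + (A + 14))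
  obtain ⟨X1, hX1⟩ := VarDA_pow_ge ((x1 : ℝ) + x2 + x3 + 100)
  obtain ⟨X2, hX2⟩ := log_ge (200 * 2 ^ A)
  refine ⟨max b1 (A + 4), κ1 + (A + 4), max X1 X2, ?_⟩
  intro X hX P0 J i h h' hP0 hi hQ hh hh'
  have hXr : (x1 : ℝ) + x2 + x3 + 100 ≤ (X : ℝ) ^ (9 / 10 : ℝ) := hX1 X (le_trans (le_max_left _ _) hX)
  have hLA : 200 * 2 ^ A ≤ Real.log X := hX2 X (le_trans (le_max_right _ _) hX)
  have h2A : (1 : ℝ) ≤ 2 ^ A := one_le_pow₀ (by norm_num)
  have hL : 200 ≤ Real.log X := by linarith only [hLA, h2A]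
  clear hX1 hX2 hjm hm1 hcor
  obtain ⟨L, hLdef⟩ : ∃ L : ℝ, L = Real.log X := ⟨_, rfl⟩
  rw [← hLdef] at hL hLA hP0 hh'
  have hL0 : 0 < L := by linarith only [hη, hη1, h2A, hLA]
  have hL1 : 1 ≤ L := by linarith only [hη, hη1, h2A, hLA]
  have hXpos : (0 : ℝ) < X := by
    rcases Nat.eq_zero_or_pos X with h0 | h0
    · exfalso
      rw [h0] at hLdef
      simp at hLdef
      linarith only [hη, hη1, h2A, hLA, hLdef]
    · exact_mod_cast h0
  have hX1' : (1 : ℝ) ≤ X := by exact_mod_cast (Nat.pos_of_ne_zero (by rintro rfl; simp at hXpos))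
  -- the block
  obtain ⟨P, hP⟩ : ∃ P : ℕ, P = P0 * 2 ^ i := ⟨_, rfl⟩
  rw [← hP]
  have hP0P : P0 ≤ P := by
    rw [hP]
    exact Nat.le_mul_of_pos_right _ (by positivity)
  have hPQ : P ≤ P0 * 2 ^ J := by
    rw [hP]
    exact Nat.mul_le_mul_left _ (Nat.pow_le_pow_right (by norm_num) hi.le)
  have hPr : L ^ (max b1 (A + 4)) ≤ (P : ℝ) := hP0.trans (by exact_mod_cast hP0P)
  have hP4r : L ^ (A + 4) ≤ (P : ℝ) := (pow_le_pow_right₀ hL1 (le_max_right b1 (A + 4))).trans hPr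
  have hPb1 : L ^ b1 ≤ (P : ℝ) := (pow_le_pow_right₀ hL1 (le_max_left b1 (A + 4))).trans hPr
  have hL4 : L ≤ L ^ (A + 4) := le_self_pow₀ hL1 (by omega)
  have hP200 : (200 : ℝ) ≤ P := by linarith only [h2A, hLA, hP4r, hL4]
  have hPpos : 0 < P := by
    have : (0 : ℝ) < P := by linarith only [hη, hη1, h2A, hLA, hP4r, hL4]
    exact_mod_cast this
  have hP4 : 4 ≤ P := by
    have : (4 : ℝ) ≤ P := by linarith only [hη, hη1, h2A, hLA, hP4r, hL4]
    exact_mod_cast this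
  have hLk : 1 ≤ L ^ (κ1 + (A + 4)) := one_le_pow₀ hL1
  have hh'X : (h' : ℝ) ≤ X := hh'.trans (div_le_self hXpos.le hLk)
  have hh'2 : 2 * (h' : ℝ) ≤ X := by
    have h1 : L ≤ L ^ (κ1 + (A + 4)) := le_self_pow₀ hL1 (by omega)
    have h2 : (h' : ℝ) ≤ X / 2 := by
      refine hh'.trans ?_
      apply div_le_div_of_nonneg_left hXpos.le (by norm_num)
      linarith only [hη, hη1, h2A, hLA, h1]
    linarith only [h2]
  have hh'2n : 2 * h' ≤ X := by exact_mod_cast hh'2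
  have hh2n : 2 * h ≤ X := by omega
  have hQh : ((P0 * 2 ^ J : ℕ) : ℝ) ^ 10 ≤ X := by
    have h1 : (((P0 * 2 ^ J) ^ 10 : ℕ) : ℝ) ≤ h' := by exact_mod_cast hQ.trans hh
    rw [Nat.cast_pow] at h1
    linarith only [hh'X, h1]
  have hPh : (P : ℝ) ^ 10 ≤ h := by
    have h1 : P ^ 10 ≤ h := (Nat.pow_le_pow_left hPQ 10).trans hQ
    exact_mod_cast h1
  have hhpos : 1 ≤ h := by
    have h1 : P ^ 10 ≤ h := (Nat.pow_le_pow_left hPQ 10).trans hQ
    exact (Nat.pos_of_ne_zero (by positivity)).trans_le h1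
  have hQroot : ((P0 * 2 ^ J : ℕ) : ℝ) ≤ (X : ℝ) ^ (1 / 10 : ℝ) := VarDA_le_root _ _ hQh
  have hProot : (P : ℝ) ≤ (X : ℝ) ^ (1 / 10 : ℝ) := le_trans (by exact_mod_cast hPQ) hQroot
  have hXsplit : (X : ℝ) = (X : ℝ) ^ (9 / 10 : ℝ) * (X : ℝ) ^ (1 / 10 : ℝ) := by
    rw [← Real.rpow_add hXpos]
    norm_num
  have hroot0 : 0 < (X : ℝ) ^ (1 / 10 : ℝ) := Real.rpow_pos_of_pos hXpos _
  have hroot9 : 0 < (X : ℝ) ^ (9 / 10 : ℝ) := Real.rpow_pos_of_pos hXpos _
  -- the scale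
  obtain ⟨x, hx⟩ : ∃ x : ℕ, x = 4 * X / P := ⟨_, rfl⟩
  obtain ⟨M, hM⟩ : ∃ M : ℕ, M = X / (4 * P) := ⟨_, rfl⟩
  have hPx2n : P * x ≤ 4 * X := by rw [hx]; exact Nat.mul_div_le _ _
  have hPx1n : 4 * X < P * (x + 1) := by rw [hx]; exact Nat.lt_mul_div_succ _ hPpos
  have hMn : 4 * P * M ≤ X := by rw [hM]; exact Nat.mul_div_le _ _
  have hMn2 : X < 4 * P * (M + 1) := by rw [hM]; exact Nat.lt_mul_div_succ _ (by omega)
  have hPx2 : (P : ℝ) * x ≤ 4 * X := by exact_mod_cast hPx2n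
  have hPX : (P : ℝ) ≤ X := by
    have h1 : (P : ℝ) ≤ (P : ℝ) ^ 10 := le_self_pow₀ (by linarith only [hη, hη1, h2A, hLA, hP4r, hL4]) (by norm_num)
    have h2 : (h : ℝ) ≤ h' := by exact_mod_cast hh
    linarith only [hη, hη1, h2A, hLA, hP4r, hL4, hh'2, hPh, h1, h2]
  have hPx1 : 3 * (X : ℝ) ≤ P * x := by
    have h1 : 4 * (X : ℝ) < P * (x + 1) := by exact_mod_cast hPx1n
    linarith only [hPX, h1]
  have hx9 : 3 * (X : ℝ) ^ (9 / 10 : ℝ) ≤ x := by
    have h1 : 3 * (X : ℝ) ≤ (X : ℝ) ^ (1 / 10 : ℝ) * x :=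
      hPx1.trans (mul_le_mul_of_nonneg_right hProot (Nat.cast_nonneg x))
    have h2 : 3 * (X : ℝ) ^ (9 / 10 : ℝ) * (X : ℝ) ^ (1 / 10 : ℝ) ≤
        x * (X : ℝ) ^ (1 / 10 : ℝ) := by
      rw [mul_assoc, ← hXsplit]
      linarith only [h1]
    exact le_of_mul_le_mul_right h2 hroot0
  have hx9' : (X : ℝ) ^ (9 / 10 : ℝ) ≤ x := by linarith only [hη, hη1, hXr, hx9]
  have hxthr : (x1 : ℝ) + x2 + x3 + 100 ≤ x := hXr.trans hx9'
  have hxn : x1 + x2 + x3 + 100 ≤ x := by exact_mod_cast hxthr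
  have hxpos : (0 : ℝ) < x := by
    have : 0 < x := by omega
    exact_mod_cast this
  have hxX : (x : ℝ) ≤ X := by
    have h1 : 4 * (x : ℝ) ≤ P * x := mul_le_mul_of_nonneg_right (by linarith only [hη, hη1, h2A, hLA, hP4r, hL4]) hxpos.le
    linarith only [hPx2, h1]
  obtain ⟨l, hl⟩ : ∃ l : ℝ, l = Real.log x := ⟨_, rfl⟩
  have hl2 : l ≤ L := by
    rw [hl, hLdef]
    exact Real.log_le_log hxpos hxX
  have hl1' : 9 / 10 * L ≤ l := by
    rw [hl, hLdef, ← Real.log_rpow hXpos]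
    exact Real.log_le_log hroot9 hx9'
  have hl1 : L / 2 ≤ l := by linarith only [hη, hη1, h2A, hLA, hl1']
  have hl100 : 100 ≤ l := by linarith only [hη, hη1, h2A, hLA, hl1']
  have hl0 : 0 < l := by linarith only [hη, hη1, h2A, hLA, hl1']
  have hPpr : (0 : ℝ) < P := by linarith only [hη, hη1, h2A, hLA, hP4r, hL4]
  have hroot_le : (X : ℝ) ^ (1 / 10 : ℝ) ≤ (x : ℝ) ^ (1 / 4 : ℝ) := by
    have h1 : ((X : ℝ) ^ (9 / 10 : ℝ)) ^ (1 / 4 : ℝ) ≤ (x : ℝ) ^ (1 / 4 : ℝ) :=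
      Real.rpow_le_rpow hroot9.le hx9' (by norm_num)
    rw [← Real.rpow_mul hXpos.le] at h1
    refine le_trans ?_ h1
    exact Real.rpow_le_rpow_of_exponent_le hX1' (by norm_num)
  have hPlex : (P : ℝ) ≤ x := by
    have h1 : (X : ℝ) ^ (1 / 10 : ℝ) ≤ (X : ℝ) ^ (9 / 10 : ℝ) :=
      Real.rpow_le_rpow_of_exponent_le hX1' (by norm_num)
    linarith only [hη, hη1, h2A, hLA, hP4r, hL4, hProot, hx9, h1]
  -- the hypotheses of `jm`
  have hCor : CorM x (max m0 m1) K η x M (gc P0 J M x) :=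
    hcor1 x (by omega) P0 J M x (hQroot.trans hroot_le) le_rfl
  have hMx : (x : ℝ) / Real.log x ^ 1 ≤ M := by
    rw [pow_one, ← hl, div_le_iff₀ hl0]
    have h1 : (X : ℝ) < 4 * P * (M + 1) := by exact_mod_cast hMn2
    have h4 : (100 : ℝ) ≤ x := by
      have : 100 ≤ x := by omega
      exact_mod_cast this
    exact VarDA_M P x X M l hPpr h1 hPx2 h4 (Nat.cast_nonneg M) hl100
  have hPb : Real.log x ^ b1 ≤ (P : ℝ) := by
    rw [← hl]
    exact (pow_le_pow_left₀ hl0.le hl2 b1).trans hPb1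
  have hPxn : P ≤ x := by exact_mod_cast hPlex
  have hY : (P : ℝ) * (1 / (P * l ^ (A + 14))) ≤ 1 / Real.log x ^ (A + 2 + 12) := by
    rw [← hl]
    apply le_of_eq
    field_simp
  have hJ := fun (s : ℝ) (hs : s = 1 ∨ s = -1) => hjm1 x (by omega) (gc P0 J M x) x M P
    (1 / (P * l ^ (A + 14))) s hCor le_rfl hMx hPb hPxn hs hY
  have hl18 : 1 ≤ l ^ (A + 14) := one_le_pow₀ (by linarith only [hη, hη1, h2A, hLA, hl1'])
  have hY0Y : l ^ κ1 / ((P : ℝ) * x) ≤ 1 / (P * l ^ (A + 14)) := by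
    have h1 := hlog x (by omega)
    rw [Real.rpow_one, one_mul, ← hl, pow_add] at h1
    rw [div_le_div_iff₀ (by positivity) (by positivity), one_mul]
    have e1 : l ^ κ1 * ((P : ℝ) * l ^ (A + 14)) = (P : ℝ) * (l ^ κ1 * l ^ (A + 14)) := by ring
    rw [e1]
    exact mul_le_mul_of_nonneg_left h1 hPpr.le
  have hYp : 0 < 1 / ((P : ℝ) * l ^ (A + 14)) := by positivity
  have hY2 : 1 / ((P : ℝ) * l ^ (A + 14)) ≤ 1 / 2 := by
    apply one_div_le_one_div_of_le (by norm_num)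
    have e1 : (P : ℝ) * 1 ≤ P * l ^ (A + 14) := mul_le_mul_of_nonneg_left hl18 hPpr.le
    linarith only [hη, hη1, h2A, hLA, hP4r, hL4, e1]
  -- the support
  have hgs : ∀ n, n ∉ Icc 1 x → gc P0 J M x n = 0 := by
    intro n hn
    unfold gc
    rw [if_neg]
    intro h1
    apply hn
    rw [Finset.mem_Ioc] at h1
    rw [Finset.mem_Icc]
    omega
  have hGs := gp_supp (gc P0 J M x) x P (2 * P * x) hgs le_rfl
  have hfou := fou (gP (gc P0 J M x) P) (2 * P * x) h h' X (l ^ κ1 / (P * x)) (1 / (P * l ^ (A + 14)))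
    hGs hhpos hh (by positivity) hY0Y hYp hY2
  have hFF : ∀ θ : ℝ, FF (gP (gc P0 J M x) P) (2 * P * x) θ = SG (gc P0 J M x) x P θ :=
    gp_FF (gc P0 J M x) x P (2 * P * x) hgs le_rfl
  simp only [hFF] at hfou
  have hI1 := hJ 1 (Or.inl rfl)
  have hI2 := hJ (-1) (Or.inr rfl)
  rw [← hl] at hI1 hI2
  -- the sum of squares
  have hS := gp_S2 (gc P0 J M x) P (2 * P * x) hCor.bd
  have hS0 : 0 ≤ S2 (gP (gc P0 J M x) P) (2 * P * x) :=
    Finset.sum_nonneg (fun _ _ => sq_nonneg _)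
  have hN1 : ((2 * P * x : ℕ) : ℝ) ≤ 8 * X := by
    push_cast
    linarith only [hPx2]
  have hN1pos : (1 : ℝ) ≤ ((2 * P * x : ℕ) : ℝ) := by
    push_cast
    linarith only [hη, hη1, hXr, hPx1, hx9, hxX]
  have hlogN : Real.log ((2 * P * x : ℕ) : ℝ) ≤ 2 * L := by
    have h1 : ((2 * P * x : ℕ) : ℝ) ≤ X * X := by
      have h8 : (8 : ℝ) ≤ X := by linarith only [hη, hη1, hXr, hx9, hxX]
      have h9 : 8 * (X : ℝ) ≤ X * X := mul_le_mul_of_nonneg_right h8 hXpos.le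
      linarith only [hN1, h9]
    have h2 := Real.log_le_log (by linarith only [hη, hη1, hN1pos]) h1
    rw [Real.log_mul hXpos.ne' hXpos.ne', ← hLdef] at h2
    linarith only [h2]
  have hlogN0 : 0 ≤ Real.log ((2 * P * x : ℕ) : ℝ) := Real.log_nonneg hN1pos
  have hS' : S2 (gP (gc P0 J M x) P) (2 * P * x) ≤ 128 * X * L ^ 2 := by
    refine hS.trans ?_
    calc ((2 * P * x : ℕ) : ℝ) * (2 * Real.log ((2 * P * x : ℕ) : ℝ)) ^ 2
        ≤ (8 * X) * (2 * (2 * L)) ^ 2 := by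
          apply mul_le_mul hN1 _ (by positivity) (by positivity)
          apply pow_le_pow_left₀ (by positivity)
          linarith only [hlogN]
      _ = 128 * X * L ^ 2 := by ring
  have hfin := VarDA_fin A X L l P x h h' _ _ _ κ1 hXpos hLA hl1 hl2 hP4r hPx1 hPx2 hPh hh'
    (Nat.cast_nonneg h') hI1 hI2 hS' hS0
  have hwx : 2 * X < P * x := by
    have : 2 * (X : ℝ) < P * x := by linarith only [hη, hη1, hXr, hPx1, hx9, hxX]
    exact_mod_cast this
  have hcongr : ∑ j ∈ Ioc X (2 * X), (Uw (gP (gl 1 P0 J) P) h j / h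
        - Uw (gP (gl 1 P0 J) P) h' j / h') ^ 2 =
      ∑ j ∈ Ioc X (2 * X), (Uw (gP (gc P0 J M x) P) h j / h
        - Uw (gP (gc P0 J M x) P) h' j / h') ^ 2 := by
    apply Finset.sum_congr rfl
    intro j hj
    rw [VarDA_win P0 J P X x M h j hh2n hMn hwx hj, VarDA_win P0 J P X x M h' j hh'2n hMn hwx hj]
  rw [hcongr, ← hLdef]
  exact hfou.trans hfin

end Pool.Agent.H76.MU

end

section

/-!
# MU ExL: the Liouville function in almost all short windows, small exceptional set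

Adapt `VarL.lean` (helper36).  `L = log X`.  Given `A`: `b, κ` from `var_da (A + 6)`, `b := max b (A + 8)` (keep the hypothesis `L^b ≤ P0`), `P0 = ⌈L^b⌉₊` (`log P0 ≤ 2 b log L`),
`J` maximal with `(P0 2^J)^10 ≤ h` (exists as `h ≥ L^c`, `c = 10 b + 20`), so `log (P0 2^J) ≥ (log h)/10 - log 2 ≥ (log h)/20`, `J ≤ log h ≤ L`; `h' = ⌊X/L^κ⌋₊`.
If `h ≥ h'`: `Uw lio h j = ∑_{n ≤ j-1} lio - ∑_{n ≤ j-h-1} lio` (`h ≤ X < j`), by `pn_l (κ + 2)` at `x = 2X` it is `≤ 4 X/L^{κ+2} ≤ 8 h/L^2` for large `X`: no exception (`1/L ≤ log L/log h`).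
If `h < h'`: for `w = h, h'` write on the window `lio = e - ∑_{i<J} G_i`, `e n = lio n + ∑_{i<J} gP (gl 1 P0 J) (P0 2^i) n`, `|e n| ≤ er P0 J n` (`ram`; the windows do not contain `0`):
`Uw lio h j/h = Uw lio h' j/h' + Uw e h j/h - Uw e h' j/h' - ∑_{i<J} D_i(j)`, `D_i(j) = Uw G_i h j/h - Uw G_i h' j/h'`.
`|Uw lio h' j/h'| ≤ 4 X/(L^{κ+2} h') ≤ 8/L^2` (`pn_l (κ+2)`).  `|Uw e w j|/w ≤ C0 log P0/log (P0 2^J) + s_w(j)/w` (`rg_int`; `Ico (j - w) j = Ico a (a + w)`), `s_w(j)` as in `SqW`.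
Exceptions: `s_w(j) > w/L` for `w = h` or `h'`: at most `L^2 · 2X/P0 ≤ 2 X/L^{A+6}` each (`sq_win`, Chebyshev); `|∑_i D_i(j)| > 1/L`: at most `L^2 · J^2 X/L^{A+6} ≤ X/L^{A+2}` (`var_da`,
`(∑_{i<J} D_i)^2 ≤ J ∑ D_i^2`).  For all other `j`: `|Uw lio h j|/h ≤ 8/L^2 + 2 C0 · 2 b log L · 20/log h + 3/L ≤ (80 b C0 + 11) log L/log h` (`log h ≤ L`, `log L ≥ 1`).
-/

set_option autoImplicit false

namespace Pool.Agent.H76.MU

open Finset MeasureTheory
open Pool.Agent.H91.PK (ee)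
open Pool.Agent.H76.EHB
open Pool.Agent.H35.W

open Classical in
/-- the windows of `f` are small outside a small exceptional set -/
def ExB (f : ℕ → ℝ) : Prop := ∀ A : ℕ, ∃ C : ℝ, ∃ c x0 : ℕ, 0 < C ∧ ∀ X h : ℕ, x0 ≤ X →
  Real.log X ^ c ≤ h → h ≤ X →
    (((Ioc X (2 * X)).filter (fun j =>
      C * h * (Real.log (Real.log X) / Real.log h) < |Uw f h j|)).card : ℝ) ≤ X / Real.log X ^ A

private theorem ExL_win (X w j : ℕ) (E : ℝ) (hp : ∀ y : ℕ, y ≤ 2 * X →
    |∑ n ∈ Icc 1 y, lio n| ≤ E) (hj : j ∈ Ioc X (2 * X)) (hw : w ≤ X) :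
    |Uw lio w j| ≤ 2 * E := by
  rw [mem_Ioc] at hj
  unfold Uw
  have h1 := Finset.sum_Ico_consecutive lio (show 1 ≤ j - w by omega) (show j - w ≤ j by omega)
  have h2 := hp (j - 1) (by omega)
  have h3 := hp (j - w - 1) (by omega)
  have e2 : Icc 1 (j - 1) = Ico 1 j := by
    ext n
    simp only [mem_Icc, mem_Ico]
    omega
  have e3 : Icc 1 (j - w - 1) = Ico 1 (j - w) := by
    ext n
    simp only [mem_Icc, mem_Ico]
    omega
  rw [e2] at h2
  rw [e3] at h3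
  rw [abs_le] at h2 h3 ⊢
  constructor <;> linarith only [h1, h2, h3, h2.1, h2.2, h3.1, h3.2]

private theorem ExL_J (P0 h : ℕ) (hP : 1 ≤ P0) (h1 : P0 ^ 10 ≤ h) :
    ∃ J, (P0 * 2 ^ J) ^ 10 ≤ h ∧ h < (P0 * 2 ^ (J + 1)) ^ 10 := by
  have hex : ∃ m, h < (P0 * 2 ^ m) ^ 10 := by
    refine ⟨h, ?_⟩
    have h2 : h < 2 ^ h := Nat.lt_two_pow_self
    have h3 : 2 ^ h ≤ P0 * 2 ^ h := Nat.le_mul_of_pos_left _ hP
    have h4 : P0 * 2 ^ h ≤ (P0 * 2 ^ h) ^ 10 := Nat.le_self_pow (by norm_num) _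
    omega
  classical
  have hs := Nat.find_spec hex
  have h0 : Nat.find hex ≠ 0 := by
    intro h0
    rw [h0, pow_zero, mul_one] at hs
    omega
  obtain ⟨J, hJ⟩ := Nat.exists_eq_succ_of_ne_zero h0
  have hm := Nat.find_min hex (m := J) (by omega)
  rw [hJ] at hs
  exact ⟨J, by omega, hs⟩

private theorem ExL_e (P0 J w j : ℕ) (hw : w < j) :
    |Uw (fun n => lio n + ∑ i ∈ range J, gP (gl 1 P0 J) (P0 * 2 ^ i) n) w j| ≤
      Uw (er P0 J) w j := by
  unfold Uw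
  refine (Finset.abs_sum_le_sum_abs _ _).trans (Finset.sum_le_sum fun n hn => ?_)
  rw [mem_Ico] at hn
  exact ram P0 J n (by omega)

private theorem ExL_lin (P0 J w j : ℕ) : Uw lio w j =
    Uw (fun n => lio n + ∑ i ∈ range J, gP (gl 1 P0 J) (P0 * 2 ^ i) n) w j -
      ∑ i ∈ range J, Uw (gP (gl 1 P0 J) (P0 * 2 ^ i)) w j := by
  unfold Uw
  rw [Finset.sum_comm, ← Finset.sum_sub_distrib]
  refine Finset.sum_congr rfl fun n _ => ?_
  ring

open Classical in
private theorem ExL_split (P J w j : ℕ) : Uw (er P J) w j =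
    (((Ico (j - w) j).filter (fun n => Rk P J n)).card : ℝ) +
      (((Ico (j - w) j).filter (fun n => ∃ p, P < p ∧ p.Prime ∧ p ^ 2 ∣ n)).card : ℝ) := by
  unfold Uw er
  rw [Finset.sum_add_distrib, Finset.sum_boole, Finset.sum_boole]

open Classical in
private theorem ExL_cheb (f : ℕ → ℝ) (S : Finset ℕ) (δ V : ℝ) (hδ : 0 < δ)
    (h : ∑ j ∈ S, (f j) ^ 2 ≤ V) :
    ((S.filter (fun j => δ < |f j|)).card : ℝ) ≤ V / δ ^ 2 := by
  rw [le_div_iff₀ (by positivity)]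
  have h1 : ∑ _j ∈ S.filter (fun j => δ < |f j|), δ ^ 2 ≤
      ∑ j ∈ S.filter (fun j => δ < |f j|), (f j) ^ 2 := by
    refine Finset.sum_le_sum fun j hj => ?_
    rw [mem_filter] at hj
    rw [← sq_abs (f j)]
    exact pow_le_pow_left₀ hδ.le hj.2.le 2
  rw [Finset.sum_const, nsmul_eq_mul] at h1
  have h2 : ∑ j ∈ S.filter (fun j => δ < |f j|), (f j) ^ 2 ≤ ∑ j ∈ S, (f j) ^ 2 :=
    Finset.sum_le_sum_of_subset_of_nonneg (Finset.filter_subset _ _)
      (fun j _ _ => sq_nonneg _)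
  linarith

theorem ex_l (hVK : Pool.Agent.H80.LV.VK) (hV : VK1) : ExB lio := by
  classical
  intro A
  obtain ⟨b0, κ, xD, hD⟩ := var_da hVK hV (A + 6)
  obtain ⟨C0, hC0, hrg⟩ := rg_int
  obtain ⟨xP, hPn⟩ := pn_l (κ + 2)
  obtain ⟨x3, h3⟩ := log_ge 3
  obtain ⟨xk, hk⟩ := log_pow_le 1 2 one_pos two_pos κ
  set b : ℕ := max b0 (A + 8) with hb
  have hb0 : b0 ≤ b := le_max_left _ _
  have hb2 : A + 8 ≤ b := le_max_right _ _
  refine ⟨80 * b * C0 + 11, 10 * b + 20,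
    max (max xD xP) (max (max x3 xk) 1), by positivity, ?_⟩
  intro X h hX hh hhX
  have hXD : xD ≤ X := le_trans (le_trans (le_max_left _ _) (le_max_left _ _)) hX
  have hXP : xP ≤ X := le_trans (le_trans (le_max_right _ _) (le_max_left _ _)) hX
  have hX3 : x3 ≤ X := le_trans (le_trans (le_trans (le_max_left _ _) (le_max_left _ _))
    (le_max_right _ _)) hX
  have hXk : xk ≤ X := le_trans (le_trans (le_trans (le_max_right _ _) (le_max_left _ _))
    (le_max_right _ _)) hX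
  have hX1 : 1 ≤ X := le_trans (le_trans (le_max_right _ _) (le_max_right _ _)) hX
  have hXp : (0 : ℝ) < X := by exact_mod_cast hX1
  set L : ℝ := Real.log X with hL
  have hL3 : 3 ≤ L := h3 X hX3
  have hL0 : 0 < L := by linarith only [hL3]
  have hL1 : 1 ≤ L := by linarith only [hL3]
  have hkX : 2 * L ^ κ ≤ X := by
    have := hk X hXk
    rwa [Real.rpow_one] at this
  have hLk : 0 < L ^ κ := by positivity
  have hll : 1 ≤ Real.log L := by
    rw [Real.le_log_iff_exp_le hL0]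
    linarith only [hL3, Real.exp_one_lt_d9]
  -- the size of `h`
  have hhp : (0 : ℝ) < h := lt_of_lt_of_le (by positivity) hh
  have hh1 : 1 ≤ h := by exact_mod_cast hhp
  have hlogh : 20 ≤ Real.log h := by
    have h1 : Real.log (L ^ (10 * b + 20)) ≤ Real.log h := Real.log_le_log (by positivity) hh
    rw [Real.log_pow] at h1
    have h2 : (20 : ℝ) ≤ ((10 * b + 20 : ℕ) : ℝ) := by
      exact_mod_cast (by omega : 20 ≤ 10 * b + 20)
    have h4 : (20 : ℝ) * 1 ≤ ((10 * b + 20 : ℕ) : ℝ) * Real.log L :=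
      mul_le_mul h2 hll (by norm_num) (by positivity)
    linarith only [h1, h4]
  have hloghL : Real.log h ≤ L := Real.log_le_log hhp (by exact_mod_cast hhX)
  set q : ℝ := Real.log L / Real.log h with hq
  have hq0 : 0 ≤ q := div_nonneg (by linarith only [hll]) (by linarith only [hlogh])
  have hqL : 1 / L ≤ q := by
    rw [hq]
    exact div_le_div₀ (by linarith only [hll]) hll (by linarith only [hlogh]) hloghL
  have hqL2 : 1 / L ^ 2 ≤ q := by
    refine le_trans ?_ hqL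
    refine one_div_le_one_div_of_le hL0 ?_
    calc L = L ^ 1 := (pow_one L).symm
      _ ≤ L ^ 2 := pow_le_pow_right₀ hL1 (by norm_num)
  set h' : ℕ := ⌊(X : ℝ) / L ^ κ⌋₊ with hh'
  have hh'le : (h' : ℝ) ≤ X / L ^ κ := Nat.floor_le (by positivity)
  have hh'X : h' ≤ X := by
    have h1 : (X : ℝ) / L ^ κ ≤ X := div_le_self hXp.le (one_le_pow₀ hL1)
    exact_mod_cast hh'le.trans h1
  have hh'ge : X / (2 * L ^ κ) ≤ h' := by
    have h1 : (X : ℝ) / L ^ κ < h' + 1 := Nat.lt_floor_add_one _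
    have h2 : 2 ≤ (X : ℝ) / L ^ κ := by rwa [le_div_iff₀ hLk]
    have h4 : (X : ℝ) / (2 * L ^ κ) = (X / L ^ κ) / 2 := by
      field_simp
    rw [h4]
    linarith only [h1, h2]
  have hh'p : (0 : ℝ) < h' := lt_of_lt_of_le (by positivity) hh'ge
  -- the bound from the prime number theorem
  have hE1 : ∀ y : ℕ, y ≤ 2 * X → |∑ n ∈ Icc 1 y, lio n| ≤ 2 * X / L ^ (κ + 2) := by
    intro y hy
    refine (hPn (2 * X) (by omega) y hy).trans ?_
    push_cast
    refine div_le_div_of_nonneg_left (by positivity) (by positivity) ?_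
    exact pow_le_pow_left₀ hL0.le (Real.log_le_log hXp (by linarith only [hkX, hLk])) _
  have hU : ∀ w j : ℕ, j ∈ Ioc X (2 * X) → w ≤ X → h' ≤ w → |Uw lio w j| ≤ 8 / L ^ 2 * w := by
    intro w j hj hw hw'
    refine (ExL_win X w j _ hE1 hj hw).trans ?_
    have h1 : X / (2 * L ^ κ) ≤ (w : ℝ) := hh'ge.trans (by exact_mod_cast hw')
    have h2 : 2 * (2 * (X : ℝ) / L ^ (κ + 2)) = 8 / L ^ 2 * (X / (2 * L ^ κ)) := by
      rw [pow_add]
      field_simp
      ring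
    rw [h2]
    exact mul_le_mul_of_nonneg_left h1 (by positivity)
  rcases le_or_gt h' h with hc | hc
  · -- long windows
    have h1 : (Ioc X (2 * X)).filter (fun j =>
        (80 * b * C0 + 11) * h * q < |Uw lio h j|) = ∅ := by
      rw [Finset.filter_eq_empty_iff]
      intro j hj
      rw [not_lt]
      refine (hU h j hj hhX hc).trans ?_
      have h2 : 8 / L ^ 2 = 8 * (1 / L ^ 2) := by ring
      rw [h2]
      have h4 : 8 * (1 / L ^ 2) ≤ (80 * b * C0 + 11) * q := by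
        have h5 : 0 ≤ 80 * (b : ℝ) * C0 * q := by positivity
        linarith only [hq0, hqL2, h5]
      calc 8 * (1 / L ^ 2) * (h : ℝ) ≤ (80 * b * C0 + 11) * q * h :=
            mul_le_mul_of_nonneg_right h4 hhp.le
        _ = (80 * b * C0 + 11) * h * q := by ring
    rw [h1, card_empty, Nat.cast_zero]
    positivity
  · -- short windows
    set P0 : ℕ := ⌈L ^ b⌉₊ with hP0
    have hLb : 1 ≤ L ^ b := one_le_pow₀ hL1
    have hP0ge : L ^ b ≤ P0 := Nat.le_ceil _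
    have hP0lt : (P0 : ℝ) < L ^ b + 1 := Nat.ceil_lt_add_one (by positivity)
    have hL2b : (2 : ℝ) ≤ L ^ b := by
      calc (2 : ℝ) ≤ 3 ^ 1 := by norm_num
        _ ≤ L ^ 1 := pow_le_pow_left₀ (by norm_num) hL3 1
        _ ≤ L ^ b := pow_le_pow_right₀ hL1 (by omega)
    have hP02 : 2 ≤ P0 := by exact_mod_cast hL2b.trans hP0ge
    have hP0p : (0 : ℝ) < P0 := by linarith only [hP0ge, hL2b]
    have hP0b0 : L ^ b0 ≤ P0 := (pow_le_pow_right₀ hL1 hb0).trans hP0ge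
    have hP0le : (P0 : ℝ) ≤ L ^ (2 * b) := by
      have : L ^ (2 * b) = L ^ b * L ^ b := by rw [← pow_add]; congr 1; ring
      rw [this]
      nlinarith only [hP0lt, hL2b, hLb]
    have hlogP0 : Real.log P0 ≤ 2 * b * Real.log L := by
      have h1 := Real.log_le_log hP0p hP0le
      rw [Real.log_pow] at h1
      push_cast at h1
      exact h1
    have hlogP00 : 0 ≤ Real.log P0 := Real.log_nonneg (by linarith only [hP0ge, hL2b])
    have hP10 : P0 ^ 10 ≤ h := by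
      have h1 : ((P0 : ℝ)) ^ 10 ≤ L ^ (10 * b + 20) := by
        calc ((P0 : ℝ)) ^ 10 ≤ (2 * L ^ b) ^ 10 := pow_le_pow_left₀ hP0p.le (by linarith only [hP0lt, hL2b]) 10
          _ = 2 ^ 10 * L ^ (10 * b) := by rw [mul_pow, ← pow_mul, mul_comm b 10]
          _ ≤ L ^ 20 * L ^ (10 * b) := by
              refine mul_le_mul_of_nonneg_right ?_ (by positivity)
              calc (2 : ℝ) ^ 10 ≤ 3 ^ 20 := by norm_num
                _ ≤ L ^ 20 := pow_le_pow_left₀ (by norm_num) hL3 20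
          _ = L ^ (10 * b + 20) := by rw [← pow_add, add_comm]
      exact_mod_cast h1.trans hh
    obtain ⟨J, hJ1, hJ2⟩ := ExL_J P0 h (by omega) hP10
    have hPJpos : 0 < P0 * 2 ^ J := by positivity
    have hlogPJ : Real.log h / 20 ≤ Real.log ((P0 * 2 ^ J : ℕ) : ℝ) := by
      have h1 : (h : ℝ) ≤ (((P0 * 2 ^ J : ℕ) : ℝ) * 2) ^ 10 := by
        have h2 : (h : ℝ) ≤ (((P0 * 2 ^ (J + 1)) ^ 10 : ℕ) : ℝ) := by exact_mod_cast hJ2.le
        refine h2.trans (le_of_eq ?_)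
        push_cast
        ring
      have h2 := Real.log_le_log hhp h1
      have hne : (((P0 * 2 ^ J : ℕ) : ℝ)) ≠ 0 := by exact_mod_cast hPJpos.ne'
      rw [Real.log_pow, Real.log_mul hne two_ne_zero] at h2
      push_cast at h2 ⊢
      have h4 := Real.log_two_lt_d9
      linarith only [hlogh, h2, h4]
    have hlogPJ0 : 0 < Real.log ((P0 * 2 ^ J : ℕ) : ℝ) := by linarith only [hlogh, hlogPJ]
    have hJL : (J : ℝ) ≤ L := by
      have h1 : ((2 : ℝ) ^ J) ^ 10 ≤ h := by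
        have h2 : (2 ^ J) ^ 10 ≤ h := by
          refine le_trans (Nat.pow_le_pow_left ?_ 10) hJ1
          exact Nat.le_mul_of_pos_left _ (by omega)
        exact_mod_cast h2
      have h2 := Real.log_le_log (by positivity) h1
      rw [Real.log_pow, Real.log_pow] at h2
      have h4 := Real.log_two_gt_d9
      have h5 : (0 : ℝ) ≤ J := Nat.cast_nonneg J
      push_cast at h2
      have h6 : (J : ℝ) ≤ 10 * (J * Real.log 2) := by nlinarith only [h4]
      linarith only [hloghL, h2, h6]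
    have hquot : Real.log P0 / Real.log ((P0 * 2 ^ J : ℕ) : ℝ) ≤ 40 * b * q := by
      have h2 : 0 < Real.log h / 20 := by linarith only [hlogh]
      calc Real.log P0 / Real.log ((P0 * 2 ^ J : ℕ) : ℝ) ≤
            (2 * b * Real.log L) / (Real.log h / 20) :=
            div_le_div₀ (by positivity) hlogP0 h2 hlogPJ
        _ = 40 * b * q := by
            rw [hq]
            field_simp
            ring
    -- the rough numbers
    have hRw : ∀ w j : ℕ, j ∈ Ioc X (2 * X) → h ≤ w → w ≤ X → (0 : ℝ) < w →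
        (((Ico (j - w) j).filter (fun n => Rk P0 J n)).card : ℝ) / w ≤ C0 * (40 * b * q) := by
      intro w j hj hw hwX hw0
      rw [mem_Ioc] at hj
      have h1 := hrg P0 J (j - w) w hP02 (le_trans (Nat.pow_le_pow_right hPJpos (by norm_num))
        (hJ1.trans hw))
      have h2 : j - w + w = j := by omega
      rw [h2] at h1
      rw [div_le_iff₀ hw0]
      refine h1.trans ?_
      calc C0 * w * Real.log P0 / Real.log ((P0 * 2 ^ J : ℕ) : ℝ)
          = C0 * w * (Real.log P0 / Real.log ((P0 * 2 ^ J : ℕ) : ℝ)) := by rw [mul_div_assoc]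
        _ ≤ C0 * w * (40 * b * q) := mul_le_mul_of_nonneg_left hquot (by positivity)
        _ = _ := by ring
    -- the multiples of squares
    set sw : ℕ → ℕ → ℝ := fun w j =>
      (((Ico (j - w) j).filter (fun n => ∃ p, P0 < p ∧ p.Prime ∧ p ^ 2 ∣ n)).card : ℝ) with hsw
    have hS : ∀ w : ℕ, w ≤ X → (0 : ℝ) < w →
        (((Ioc X (2 * X)).filter (fun j => w / L < |sw w j|)).card : ℝ) ≤ 2 * X / L ^ (A + 6) := by
      intro w hwX hw0
      have h1 := ExL_cheb (sw w) (Ioc X (2 * X)) (w / L) _ (by positivity)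
        (sq_win P0 w X (by omega) hwX)
      refine h1.trans ?_
      have h2 : 2 * (X : ℝ) * (w : ℝ) ^ 2 / P0 / (w / L) ^ 2 = 2 * X * L ^ 2 / P0 := by
        field_simp
      rw [h2, div_le_div_iff₀ hP0p (by positivity)]
      have h4 : L ^ 2 * L ^ (A + 6) ≤ P0 := by
        rw [← pow_add]
        exact (pow_le_pow_right₀ hL1 (by omega)).trans hP0ge
      calc 2 * (X : ℝ) * L ^ 2 * L ^ (A + 6) = 2 * X * (L ^ 2 * L ^ (A + 6)) := by ring
        _ ≤ 2 * (X : ℝ) * (P0 : ℝ) := mul_le_mul_of_nonneg_left h4 (by positivity)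
    -- the differences
    set D : ℕ → ℕ → ℝ := fun i j => Uw (gP (gl 1 P0 J) (P0 * 2 ^ i)) h j / h
        - Uw (gP (gl 1 P0 J) (P0 * 2 ^ i)) h' j / h' with hDdef
    have hDs : ∑ j ∈ Ioc X (2 * X), (∑ i ∈ range J, D i j) ^ 2 ≤ X / L ^ (A + 4) := by
      have h1 : ∀ j ∈ Ioc X (2 * X), (∑ i ∈ range J, D i j) ^ 2 ≤
          J * ∑ i ∈ range J, (D i j) ^ 2 := by
        intro j _
        have := sq_sum_le_card_mul_sum_sq (s := range J) (f := fun i => D i j)
        rwa [card_range] at this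
      refine (Finset.sum_le_sum h1).trans ?_
      rw [← Finset.mul_sum, Finset.sum_comm]
      have h2 : ∑ i ∈ range J, ∑ j ∈ Ioc X (2 * X), (D i j) ^ 2 ≤
          ∑ _i ∈ range J, (X : ℝ) / L ^ (A + 6) := by
        refine Finset.sum_le_sum fun i hi => ?_
        rw [mem_range] at hi
        exact hD X hXD P0 J i h h' hP0b0 hi hJ1 hc.le hh'le
      rw [Finset.sum_const, nsmul_eq_mul, card_range] at h2
      have h4 : (0 : ℝ) ≤ J := Nat.cast_nonneg J
      calc (J : ℝ) * ∑ i ∈ range J, ∑ j ∈ Ioc X (2 * X), (D i j) ^ 2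
          ≤ J * (J * (X / L ^ (A + 6))) := mul_le_mul_of_nonneg_left h2 h4
        _ = (J * J) * (X / L ^ (A + 6)) := by ring
        _ ≤ (L * L) * (X / L ^ (A + 6)) :=
            mul_le_mul_of_nonneg_right (mul_le_mul hJL hJL h4 hL0.le) (by positivity)
        _ = X / L ^ (A + 4) := by
            have e : L ^ (A + 6) = L ^ (A + 4) * (L * L) := by ring
            rw [e]
            field_simp
    have hDc : (((Ioc X (2 * X)).filter (fun j => 1 / L < |∑ i ∈ range J, D i j|)).card : ℝ) ≤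
        X / L ^ (A + 2) := by
      have h1 := ExL_cheb (fun j => ∑ i ∈ range J, D i j) (Ioc X (2 * X)) (1 / L) _
        (by positivity) hDs
      refine h1.trans (le_of_eq ?_)
      have e : L ^ (A + 4) = L ^ (A + 2) * L ^ 2 := by ring
      rw [e]
      field_simp
    -- the pointwise inequality
    have hpt : ∀ j ∈ Ioc X (2 * X), ¬ (h / L < |sw h j|) → ¬ (h' / L < |sw h' j|) →
        ¬ (1 / L < |∑ i ∈ range J, D i j|) →
          |Uw lio h j| ≤ (80 * b * C0 + 11) * h * q := by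
      intro j hj n1 n2 n3
      rw [not_lt] at n1 n2 n3
      have hj' := hj
      rw [mem_Ioc] at hj'
      set e : ℕ → ℝ := fun n => lio n + ∑ i ∈ range J, gP (gl 1 P0 J) (P0 * 2 ^ i) n with he
      have e1 := ExL_lin P0 J h j
      have e2 := ExL_lin P0 J h' j
      have e3 : Uw lio h j / h = Uw lio h' j / h' + Uw e h j / h - Uw e h' j / h' -
          ∑ i ∈ range J, D i j := by
        rw [e1, e2, hDdef]
        simp only [Finset.sum_sub_distrib, ← Finset.sum_div]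
        ring
      have f1 : |Uw lio h' j / h'| ≤ 8 * (1 / L ^ 2) := by
        have h1 := hU h' j hj hh'X le_rfl
        rw [abs_div, abs_of_pos hh'p, div_le_iff₀ hh'p]
        refine h1.trans (le_of_eq ?_)
        ring
      have f2 : ∀ w : ℕ, h ≤ w → w ≤ X → (0 : ℝ) < w → |sw w j| ≤ w / L →
          |Uw e w j / w| ≤ C0 * (40 * b * q) + 1 / L := by
        intro w hw hwX hw0 hs
        rw [abs_div, abs_of_pos hw0]
        have g1 := ExL_e P0 J w j (by omega)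
        rw [ExL_split] at g1
        have g2 := hRw w j hj hw hwX hw0
        have g3 : sw w j / w ≤ 1 / L := by
          rw [div_le_iff₀ hw0]
          refine (le_abs_self _).trans (hs.trans (le_of_eq ?_))
          ring
        have g4 := div_le_div_of_nonneg_right g1 hw0.le
        rw [add_div] at g4
        exact g4.trans (add_le_add g2 g3)
      have f4 := f2 h le_rfl hhX hhp n1
      have f5 := f2 h' hc.le hh'X hh'p n2
      have f6 : |Uw lio h j / h| ≤ (80 * b * C0 + 11) * q := by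
        rw [e3]
        have k1 := abs_sub (Uw lio h' j / h' + Uw e h j / h - Uw e h' j / h')
          (∑ i ∈ range J, D i j)
        have k2 := abs_sub (Uw lio h' j / h' + Uw e h j / h) (Uw e h' j / h')
        have k3 := abs_add_le (Uw lio h' j / h') (Uw e h j / h)
        linarith only [hqL, hqL2, n3, f1, f4, f5, k1, k2, k3]
      rw [abs_div, abs_of_pos hhp, div_le_iff₀ hhp] at f6
      refine f6.trans (le_of_eq ?_)
      ring
    -- the count
    have hsub : (Ioc X (2 * X)).filter (fun j => (80 * b * C0 + 11) * h * q < |Uw lio h j|) ⊆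
        ((Ioc X (2 * X)).filter (fun j => h / L < |sw h j|) ∪
          (Ioc X (2 * X)).filter (fun j => h' / L < |sw h' j|)) ∪
          (Ioc X (2 * X)).filter (fun j => 1 / L < |∑ i ∈ range J, D i j|) := by
      intro j hj
      rw [mem_filter] at hj
      rw [mem_union, mem_union, mem_filter, mem_filter, mem_filter]
      by_contra hcon
      rw [not_or, not_or] at hcon
      obtain ⟨⟨c1, c2⟩, c3⟩ := hcon
      have := hpt j hj.1 (fun h => c1 ⟨hj.1, h⟩) (fun h => c2 ⟨hj.1, h⟩) (fun h => c3 ⟨hj.1, h⟩)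
      exact absurd hj.2 (not_lt.2 this)
    have hc1 := Finset.card_le_card hsub
    have hc2 := Finset.card_union_le ((Ioc X (2 * X)).filter (fun j => h / L < |sw h j|) ∪
          (Ioc X (2 * X)).filter (fun j => h' / L < |sw h' j|))
          ((Ioc X (2 * X)).filter (fun j => 1 / L < |∑ i ∈ range J, D i j|))
    have hc3 := Finset.card_union_le ((Ioc X (2 * X)).filter (fun j => h / L < |sw h j|))
          ((Ioc X (2 * X)).filter (fun j => h' / L < |sw h' j|))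
    have hc4 : (((Ioc X (2 * X)).filter (fun j =>
        (80 * b * C0 + 11) * h * q < |Uw lio h j|)).card : ℝ) ≤
        ((Ioc X (2 * X)).filter (fun j => h / L < |sw h j|)).card +
        ((Ioc X (2 * X)).filter (fun j => h' / L < |sw h' j|)).card +
        ((Ioc X (2 * X)).filter (fun j => 1 / L < |∑ i ∈ range J, D i j|)).card := by
      exact_mod_cast (by omega : ((Ioc X (2 * X)).filter (fun j =>
        (80 * b * C0 + 11) * h * q < |Uw lio h j|)).card ≤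
        ((Ioc X (2 * X)).filter (fun j => h / L < |sw h j|)).card +
        ((Ioc X (2 * X)).filter (fun j => h' / L < |sw h' j|)).card +
        ((Ioc X (2 * X)).filter (fun j => 1 / L < |∑ i ∈ range J, D i j|)).card)
    refine hc4.trans ?_
    have g1 := hS h hhX hhp
    have g2 := hS h' hh'X hh'p
    have g3 : 4 * (X : ℝ) / L ^ (A + 6) + X / L ^ (A + 2) ≤ X / L ^ A := by
      have e1 : 4 * (X : ℝ) / L ^ (A + 6) = (X / L ^ A) * (4 / L ^ 6) := by
        rw [pow_add]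
        field_simp
      have e2 : (X : ℝ) / L ^ (A + 2) = (X / L ^ A) * (1 / L ^ 2) := by
        rw [pow_add]
        field_simp
      have h6 : (3 : ℝ) ^ 6 ≤ L ^ 6 := pow_le_pow_left₀ (by norm_num) hL3 6
      have h7 : (3 : ℝ) ^ 2 ≤ L ^ 2 := pow_le_pow_left₀ (by norm_num) hL3 2
      have h8 : 4 / L ^ 6 ≤ 4 / 3 ^ 6 := div_le_div_of_nonneg_left (by norm_num) (by norm_num) h6
      have h9 : 1 / L ^ 2 ≤ 1 / 3 ^ 2 := div_le_div_of_nonneg_left (by norm_num) (by norm_num) h7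
      rw [e1, e2, ← mul_add]
      refine mul_le_of_le_one_right (by positivity) ?_
      norm_num at h8 h9 ⊢
      linarith only [h8, h9]
    have g4 : 2 * (X : ℝ) / L ^ (A + 6) + 2 * X / L ^ (A + 6) = 4 * X / L ^ (A + 6) := by ring
    linarith only [hDc, g1, g2, g3, g4]

end Pool.Agent.H76.MU

end
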