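import Pool.Agent.H15.TB1.M52
import Pool.Agent.H15.TB1.M77
import Pool.Agent.H15.TB1.M88

/-! The parts of this file: H14.CO.Zeros, H14.CO.Core2, H14.CO.Final. -/

section

/-!
# CO module Zeros: the family of zeros and points used in the test function
-/

set_option autoImplicit false

namespace Pool.Agent.H14.CO

open Set MeasureTheory Complex

private theorem Zeros_contMo (z₀ : ℝ) : Continuous (fun t : ℝ => ‖Mo z₀ (pt 0 t)‖ ^ 2) := by
  have h : Continuous (fun t : ℝ => Mo z₀ (pt 0 t)) := by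
    unfold Mo pt
    refine continuous_finsetSum _ (fun d hd => ?_)
    refine Continuous.mul continuous_const ?_
    have hd1 : 1 ≤ d := (Finset.mem_Icc.1 hd).1
    have hd0 : (d : ℂ) ≠ 0 := by
      exact_mod_cast (by omega : d ≠ 0)
    refine Continuous.const_cpow (by fun_prop) (Or.inl hd0)
  exact h.norm.pow 2

/-- enumeration of a finset -/
private theorem Zeros_enum {α : Type*} [Inhabited α] (S : Finset α) :
    ∃ e : ℕ → α, (∀ i < S.card, e i ∈ S) ∧ (∀ i < S.card, ∀ j < S.card, i ≠ j → e i ≠ e j) ∧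
      ∀ f : α → ℝ, ∑ i ∈ Finset.range S.card, f (e i) = ∑ a ∈ S, f a := by
  classical
  let e : ℕ → α := fun i => if h : i < S.card then (S.equivFin.symm ⟨i, h⟩ : α) else default
  refine ⟨e, ?_, ?_, ?_⟩
  · intro i hi
    simp only [e, dif_pos hi]
    exact (S.equivFin.symm ⟨i, hi⟩).2
  · intro i hi j hj hij h
    simp only [e, dif_pos hi, dif_pos hj] at h
    have h1 := Subtype.ext h
    have h2 := S.equivFin.symm.injective h1
    exact hij (by simpa using congrArg Fin.val h2)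
  · intro f
    rw [Finset.sum_range]
    rw [← Finset.sum_coe_sort S f]
    refine Fintype.sum_equiv S.equivFin.symm _ _ ?_
    intro i
    simp only [e, dif_pos i.2]

/-- packing -/
private theorem Zeros_pack (n : ℕ) (t : ℕ → ℝ) (a b s : ℝ) (hs : 0 < s) (hab' : a ≤ b)
    (h1 : ∀ i < n, a ≤ t i ∧ t i ≤ b)
    (h2 : ∀ i < n, ∀ j < n, i ≠ j → s ≤ |t i - t j|) : (n : ℝ) ≤ (b - a) / s + 1 := by
  rcases Nat.eq_zero_or_pos n with h0 | h0
  · subst h0
    have : 0 ≤ (b - a) / s := div_nonneg (by linarith) hs.le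
    simp; linarith only [this]
  · have hinj : Set.InjOn (fun i => ⌊(t i - a) / s⌋₊) (Finset.range n : Finset ℕ) := by
      intro i hi j hj hij
      by_contra hne
      have hi' : i < n := by simpa using hi
      have hj' : j < n := by simpa using hj
      have h3 := h2 i hi' j hj' hne
      simp only at hij
      have hi0 : 0 ≤ (t i - a) / s := div_nonneg (by linarith only [(h1 i hi').1]) hs.le
      have hj0 : 0 ≤ (t j - a) / s := div_nonneg (by linarith only [(h1 j hj').1]) hs.le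
      have e1 := Nat.floor_le hi0
      have e2 := Nat.lt_floor_add_one ((t i - a) / s)
      have e3 := Nat.floor_le hj0
      have e4 := Nat.lt_floor_add_one ((t j - a) / s)
      rw [hij] at e1 e2
      have e5 : |(t i - a) / s - (t j - a) / s| < 1 := by
        rw [abs_lt]; constructor <;> linarith only [e1, e4, e2, e3]
      have e6 : (t i - a) / s - (t j - a) / s = (t i - t j) / s := by ring
      rw [e6, abs_div, abs_of_pos hs, div_lt_one hs] at e5
      linarith only [h3, e5]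
    have hmap : ∀ i ∈ Finset.range n, ⌊(t i - a) / s⌋₊ ∈ Finset.range (⌊(b - a) / s⌋₊ + 1) := by
      intro i hi
      have hi' : i < n := by simpa using hi
      rw [Finset.mem_range, Nat.lt_succ_iff]
      exact Nat.floor_le_floor (div_le_div_of_nonneg_right (by linarith only [h1, hi', (h1 i hi').2]) hs.le)
    have hcard := Finset.card_le_card_of_injOn _ hmap hinj
    rw [Finset.card_range, Finset.card_range] at hcard
    have hab : 0 ≤ (b - a) / s := div_nonneg (by linarith only [hab']) hs.le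
    have := Nat.floor_le hab
    have h4 : (n : ℝ) ≤ (⌊(b - a) / s⌋₊ : ℝ) + 1 := by exact_mod_cast hcard
    linarith only [this, h4]

/-- PROOF. `good_set` (with constants `G, c`) and `select` with `g = ‖Mo (pt 0 ·)‖²`,
`a = τ - W`, `ℓ = 4G/L`, `n = ⌈2W/ℓ⌉`; `2 ℓ ∑ g(t_j) ≥ c W L`, so
`∑ ≥ c W L²/(8G)`. -/
theorem zeros_local (θ : ℝ) (hθ0 : 0 < θ) (hθ1 : θ ≤ 1 / 40) : ∃ G c : ℝ, 1 ≤ G ∧ 0 < c ∧
    ∃ T₀ : ℝ, Real.exp 3200 ≤ T₀ ∧ ∀ T : ℝ, T₀ ≤ T → ∀ τ : ℝ, T ≤ τ → τ ≤ 2 * T →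
    ∃ (n : ℕ) (t : ℕ → ℝ) (ρ : ℕ → ℂ),
      (∀ i < n, |t i - τ| ≤ T ^ (9 / 10 : ℝ) ∧ riemannZeta (ρ i) = 0 ∧ 1 / 2 ≤ (ρ i).re ∧
        ‖ρ i - pt 0 (t i)‖ ≤ G / Real.log T) ∧
      (∀ i < n, ∀ j < n, i ≠ j → 4 * G / Real.log T ≤ |t i - t j|) ∧
      c * T ^ (9 / 10 : ℝ) * Real.log T ^ 2
        ≤ ∑ i ∈ Finset.range n, ‖Mo (T ^ θ) (pt 0 (t i))‖ ^ 2 := by
  obtain ⟨G, c, hG, hc, T₀, hT₀, H⟩ := good_set θ hθ0 hθ1
  refine ⟨G, c / (8 * G), hG, by positivity, T₀, hT₀, ?_⟩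
  intro T hT τ hτ1 hτ2
  obtain ⟨Gd, hGm, hGs, hGi, hGz⟩ := H T hT τ hτ1 hτ2
  have hTe : Real.exp 3200 ≤ T := hT₀.trans hT
  have hT0 : 0 < T := (Real.exp_pos _).trans_le hTe
  have hL : 3200 ≤ Real.log T := by
    rw [Real.le_log_iff_exp_le hT0]; exact hTe
  have hL0 : 0 < Real.log T := by linarith only [hL]
  have hG0 : 0 < G := by linarith only [hG]
  set W : ℝ := T ^ (9 / 10 : ℝ) with hW
  have hW0 : 0 < W := by positivity
  set ℓ : ℝ := 4 * G / Real.log T with hℓ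
  have hℓ0 : 0 < ℓ := by positivity
  have hsub : Gd ⊆ Icc (τ - W) (τ - W + (⌈2 * W / ℓ⌉₊ : ℕ) * ℓ) := by
    refine hGs.trans (Icc_subset_Icc le_rfl ?_)
    have h1 := Nat.le_ceil (2 * W / ℓ)
    have h2 : 2 * W / ℓ * ℓ = 2 * W := div_mul_cancel₀ _ hℓ0.ne'
    nlinarith only [hθ1, hℓ0, h1, h2]
  obtain ⟨S, t, hS1, hS2, hS3⟩ := select (fun t => ‖Mo (T ^ θ) (pt 0 t)‖ ^ 2)
    (Zeros_contMo _) (fun t => by positivity) Gd hGm (τ - W) ℓ hℓ0 _ hsub
  obtain ⟨e, he1, he2, he3⟩ := Zeros_enum S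
  choose! ρ hρ using hGz
  refine ⟨S.card, fun i => t (e i), fun i => ρ (t (e i)), ?_, ?_, ?_⟩
  · intro i hi
    have h1 := (hS1 _ (he1 i hi)).2
    obtain ⟨h2, h3, h4⟩ := hρ _ h1
    refine ⟨?_, h2, h3, h4⟩
    have h5 := hGs h1
    rw [abs_le]
    constructor
    · linarith only [h5.1]
    · linarith only [h5, h5.2]
  · intro i hi j hj hij
    exact hS2 _ (he1 i hi) _ (he1 j hj) (he2 i hi j hj hij)
  · rw [he3 (fun j => ‖Mo (T ^ θ) (pt 0 (t j))‖ ^ 2)]
    have h1 := hGi.trans hS3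
    have h2 : c / (8 * G) * W * Real.log T ^ 2 = (c * W * Real.log T) / (2 * ℓ) := by
      rw [hℓ]; field_simp; ring
    rw [h2, div_le_iff₀ (by positivity)]
    linarith only [hGi, hS3]

/-- The global family: windows `τ_k = T + 3 k W`, `k < ⌊T/(3W)⌋`, `W = T^{9/10}`; the intervals
`[τ_k - W, τ_k + W]` are at distance `≥ W`. The number of windows is between `T/(6W)` and `T/(3W)`.
The last clause is `ensum_local` summed over the windows (`K₀ = 2`). -/
theorem zeros_global (θ : ℝ) (hθ0 : 0 < θ) (hθ1 : θ ≤ 1 / 40) : ∃ G c C : ℝ, 1 ≤ G ∧ 0 < c ∧ 0 < C ∧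
    ∃ T₀ : ℝ, Real.exp 3200 ≤ T₀ ∧ ∀ T : ℝ, T₀ ≤ T →
    ∃ (n : ℕ) (t : ℕ → ℝ) (ρ : ℕ → ℂ),
      (∀ i < n, T / 2 ≤ t i ∧ t i ≤ 3 * T ∧ riemannZeta (ρ i) = 0 ∧ 1 / 2 ≤ (ρ i).re ∧
        ‖ρ i - pt 0 (t i)‖ ≤ G / Real.log T) ∧
      (∀ i < n, ∀ j < n, i ≠ j → 1 / Real.log T ≤ |(ρ i).im - (ρ j).im|) ∧
      c * T * Real.log T ^ 2 ≤ ∑ i ∈ Finset.range n, ‖Mo (T ^ θ) (pt 0 (t i))‖ ^ 2 ∧
      (n : ℝ) ≤ 4 * T * Real.log T ∧
      ∀ z : ℂ, z.re = 2 / Real.log T →
        ∑ i ∈ Finset.range n, ‖Mo (T ^ θ) (pt 0 (t i))‖ ^ 2 *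
            ‖riemannZeta (ρ i + z) * Mo (T ^ θ) (pt 0 (t i) + z)‖ ^ 2
          ≤ C * T * Real.log T ^ 2 * (1 + Real.log T * ‖z‖) ^ 4 * (1 + ‖z‖) ^ 301 := by
  obtain ⟨G, c, hG, hc, T₁, hT₁, H⟩ := zeros_local θ hθ0 hθ1
  obtain ⟨C, hC, T₂, hT₂, HE⟩ := ensum_local θ hθ0 hθ1 G 2 hG le_rfl
  have hG0 : 0 < G := by linarith only [hθ0, hG]
  refine ⟨G, c / 6, C, hG, by positivity, hC, max (max T₁ T₂) ((4 * G) ^ 2),
    hT₁.trans ((le_max_left _ _).trans (le_max_left _ _)), ?_⟩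
  intro T hT
  have hTT1 : T₁ ≤ T := ((le_max_left _ _).trans (le_max_left _ _)).trans hT
  have hTT2 : T₂ ≤ T := ((le_max_right _ _).trans (le_max_left _ _)).trans hT
  have hTG : (4 * G) ^ 2 ≤ T := (le_max_right _ _).trans hT
  have hTe : Real.exp 3200 ≤ T := hT₁.trans hTT1
  have hT0 : 0 < T := (Real.exp_pos _).trans_le hTe
  have hL : 3200 ≤ Real.log T := by
    rw [Real.le_log_iff_exp_le hT0]; exact hTe
  have hL0 : 0 < Real.log T := by linarith only [hθ0, hθ1, hL]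
  have hT1 : 1 ≤ T := by
    have : (1 : ℝ) ≤ Real.exp 3200 := Real.one_le_exp (by norm_num)
    linarith only [hT₁, hTT1, this]
  set L : ℝ := Real.log T with hLdef
  set W : ℝ := T ^ (9 / 10 : ℝ) with hW
  have hW0 : 0 < W := by positivity
  -- W ≤ T / 1000
  have hWT : 1000 * W ≤ T := by
    have h1 : T = T ^ (9 / 10 : ℝ) * T ^ (1 / 10 : ℝ) := by
      rw [← Real.rpow_add hT0]; norm_num
    have h2 : (1000 : ℝ) ≤ T ^ (1 / 10 : ℝ) := by
      have h3 : Real.exp (Real.log T * (1 / 10)) = T ^ (1 / 10 : ℝ) := by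
        rw [Real.rpow_def_of_pos hT0]
      rw [← h3]
      have h4 : (999 : ℝ) + 1 ≤ Real.exp 999 ∨ True := Or.inr trivial
      have h5 : Real.log T * (1 / 10) + 1 ≤ Real.exp (Real.log T * (1 / 10)) :=
        Real.add_one_le_exp _
      have h6 : (320 : ℝ) ≤ Real.log T * (1 / 10) := by
        have : (3200 : ℝ) ≤ Real.log T := hL
        linarith only [hL]
      have h7 : Real.exp 320 ≤ Real.exp (Real.log T * (1 / 10)) := Real.exp_le_exp.2 h6
      have h8 : Real.exp 320 = Real.exp 160 * Real.exp 160 := by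
        rw [← Real.exp_add]; norm_num
      have h9 : (160 : ℝ) + 1 ≤ Real.exp 160 := Real.add_one_le_exp _
      have h10 : (161 : ℝ) * 161 ≤ Real.exp 160 * Real.exp 160 := by
        apply mul_le_mul <;> linarith only [h9]
      linarith only [h7, h8, h10]
    calc 1000 * W = W * 1000 := by ring
      _ ≤ W * T ^ (1 / 10 : ℝ) := by gcongr
      _ = T := by rw [hW]; exact h1.symm
  have hWG : 4 * G ≤ W := by
    have h1 : (4 * G) ≤ T ^ (1 / 2 : ℝ) := by
      have h2 : ((4 * G) ^ 2) ^ (1 / 2 : ℝ) = 4 * G := by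
        rw [← Real.sqrt_eq_rpow, Real.sqrt_sq (by positivity)]
      rw [← h2]
      exact Real.rpow_le_rpow (by positivity) hTG (by norm_num)
    exact h1.trans (Real.rpow_le_rpow_of_exponent_le hT1 (by norm_num))
  -- windows
  set N : ℕ := ⌊T / (3 * W)⌋₊ with hN
  have hNle : (N : ℝ) ≤ T / (3 * W) := Nat.floor_le (by positivity)
  have hNle' : (N : ℝ) * (3 * W) ≤ T := by
    rwa [le_div_iff₀ (by positivity)] at hNle
  have hNge : T / (6 * W) ≤ (N : ℝ) := by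
    have h1 := Nat.lt_floor_add_one (T / (3 * W))
    have h2 : 1 ≤ T / (6 * W) := by
      rw [le_div_iff₀ (by positivity)]; linarith only [hG, hWT, hWG]
    have h3 : T / (3 * W) = T / (6 * W) + T / (6 * W) := by field_simp; ring
    rw [← hN] at h1
    linarith only [h1, h2, h3]
  have hτ1 : ∀ k : ℕ, T ≤ T + 3 * k * W := by
    intro k
    have : 0 ≤ 3 * (k : ℝ) * W := by positivity
    linarith only [this]
  have hτ2 : ∀ k : ℕ, k < N → T + 3 * k * W ≤ 2 * T := by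
    intro k hk
    have h1 : (k : ℝ) ≤ N := by exact_mod_cast hk.le
    nlinarith only [hW0, hNle', h1]
  have HH : ∀ k : ℕ, ∃ (n : ℕ) (t : ℕ → ℝ) (ρ : ℕ → ℂ), k < N →
      ((∀ i < n, |t i - (T + 3 * k * W)| ≤ T ^ (9 / 10 : ℝ) ∧ riemannZeta (ρ i) = 0 ∧
          1 / 2 ≤ (ρ i).re ∧ ‖ρ i - pt 0 (t i)‖ ≤ G / Real.log T) ∧
      (∀ i < n, ∀ j < n, i ≠ j → 4 * G / Real.log T ≤ |t i - t j|) ∧
      c * T ^ (9 / 10 : ℝ) * Real.log T ^ 2
        ≤ ∑ i ∈ Finset.range n, ‖Mo (T ^ θ) (pt 0 (t i))‖ ^ 2) := by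
    intro k
    by_cases hk : k < N
    · obtain ⟨n, t, ρ, h⟩ := H T hTT1 _ (hτ1 k) (hτ2 k hk)
      exact ⟨n, t, ρ, fun _ => h⟩
    · exact ⟨0, fun _ => 0, fun _ => 0, fun h => absurd h hk⟩
  choose nn tt rr HH using HH
  let S : Finset (Σ _ : ℕ, ℕ) := (Finset.range N).sigma (fun k => Finset.range (nn k))
  obtain ⟨e, he1, he2, he3⟩ := Zeros_enum S
  have hS : ∀ a ∈ S, a.1 < N ∧ a.2 < nn a.1 := by
    intro a ha
    simpa [S] using ha
  let tf : (Σ _ : ℕ, ℕ) → ℝ := fun a => tt a.1 a.2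
  let rf : (Σ _ : ℕ, ℕ) → ℂ := fun a => rr a.1 a.2
  have hsep : ∀ a ∈ S, ∀ b ∈ S, a ≠ b → 4 * G / L ≤ |tf a - tf b| := by
    intro a ha b hb hab
    obtain ⟨ha1, ha2⟩ := hS a ha
    obtain ⟨hb1, hb2⟩ := hS b hb
    have hfar : ∀ k l : ℕ, ∀ i j : ℕ, k < l → l < N → i < nn k → j < nn l →
        4 * G / L ≤ |tt k i - tt l j| := by
      intro k l i j hkl hl hi hj
      have h1 := ((HH k (hkl.trans hl)).1 i hi).1
      have h2 := ((HH l hl).1 j hj).1
      rw [← hW] at h1 h2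
      rw [abs_le] at h1 h2
      have h3 : (k : ℝ) + 1 ≤ l := by exact_mod_cast hkl
      have h4 : 3 * (k : ℝ) * W + 3 * W ≤ 3 * l * W := by nlinarith only [hW0, h3]
      have h5 : W ≤ tt l j - tt k i := by linarith only [h1, h2, h4, h1.2, h2.1]
      have h6 : 4 * G / L ≤ W := by
        rw [div_le_iff₀ hL0]
        nlinarith only [hL, hW0, hWG]
      rw [abs_sub_comm]
      exact h6.trans (h5.trans (le_abs_self _))
    obtain ⟨k, i⟩ := a
    obtain ⟨l, j⟩ := b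
    simp only [tf] at *
    rcases lt_trichotomy k l with h | h | h
    · exact hfar k l i j h hb1 ha2 hb2
    · subst h
      refine (HH k ha1).2.1 i ha2 j hb2 ?_
      rintro rfl
      exact hab rfl
    · rw [abs_sub_comm]
      exact hfar l k j i h ha1 hb2 ha2
  have hbd : ∀ a ∈ S, T / 2 ≤ tf a ∧ tf a ≤ 3 * T := by
    intro a ha
    obtain ⟨ha1, ha2⟩ := hS a ha
    have h1 := ((HH a.1 ha1).1 a.2 ha2).1
    rw [← hW, abs_le] at h1
    have h2 := hτ1 a.1
    have h3 := hτ2 a.1 ha1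
    constructor
    · simp only [tf]; linarith only [hWT, h1, h2]
    · simp only [tf]; linarith only [hθ0, hθ1, hG, hWT, h1, h3, h1.2]
  refine ⟨S.card, fun i => tf (e i), fun i => rf (e i), ?_, ?_, ?_, ?_, ?_⟩
  · intro i hi
    have ha := he1 i hi
    obtain ⟨ha1, ha2⟩ := hS _ ha
    obtain ⟨h1, h2, h3, h4⟩ := (HH _ ha1).1 _ ha2
    exact ⟨(hbd _ ha).1, (hbd _ ha).2, h2, h3, h4⟩
  · intro i hi j hj hij
    have ha := he1 i hi
    have hb := he1 j hj
    have h0 := hsep _ ha _ hb (he2 i hi j hj hij)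
    obtain ⟨ha1, ha2⟩ := hS _ ha
    obtain ⟨hb1, hb2⟩ := hS _ hb
    have h1 := ((HH _ ha1).1 _ ha2).2.2.2
    have h2 := ((HH _ hb1).1 _ hb2).2.2.2
    have himpt : ∀ (r : ℂ) (t : ℝ), ‖r - pt 0 t‖ ≤ G / L → |r.im - t| ≤ G / L := by
      intro r t h
      have h3 := Complex.abs_im_le_norm (r - pt 0 t)
      have h4 : (r - pt 0 t).im = r.im - t := by simp [pt]
      rw [h4] at h3
      exact h3.trans h
    have h3 := himpt _ _ h1
    have h4 := himpt _ _ h2
    change 1 / L ≤ |(rr (e i).1 (e i).2).im - (rr (e j).1 (e j).2).im|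
    have h5 : |tf (e i) - tf (e j)| ≤ |(rr (e i).1 (e i).2).im - (rr (e j).1 (e j).2).im|
        + G / L + G / L := by
      have e1 : tf (e i) - tf (e j) = ((rr (e i).1 (e i).2).im - (rr (e j).1 (e j).2).im)
          - ((rr (e i).1 (e i).2).im - tf (e i)) + ((rr (e j).1 (e j).2).im - tf (e j)) := by ring
      rw [e1]
      refine (abs_add_le _ _).trans ?_
      refine add_le_add ((abs_sub _ _).trans (add_le_add le_rfl h3)) h4
    have h6 : 4 * G / L = 4 * (G / L) := by ring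
    have h7 : 1 / L ≤ G / L := by gcongr
    rw [h6] at h0
    have h8 : 0 < G / L := by positivity
    linarith only [h0, h5, h7, h8]
  · rw [he3 (fun a => ‖Mo (T ^ θ) (pt 0 (tf a))‖ ^ 2)]
    rw [Finset.sum_sigma]
    have h1 : ∀ k ∈ Finset.range N, c * W * L ^ 2 ≤
        ∑ i ∈ Finset.range (nn k), ‖Mo (T ^ θ) (pt 0 (tf ⟨k, i⟩))‖ ^ 2 := by
      intro k hk
      exact (HH k (Finset.mem_range.1 hk)).2.2
    refine le_trans ?_ (Finset.sum_le_sum h1)
    rw [Finset.sum_const, Finset.card_range, nsmul_eq_mul]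
    have h2 : c / 6 * T * L ^ 2 = T / (6 * W) * (c * W * L ^ 2) := by
      field_simp
    rw [h2]
    gcongr
  · have h1 := Zeros_pack S.card (fun i => tf (e i)) (T / 2) (3 * T) (4 * G / L) (by positivity)
      (by linarith only [hG, hWT, hWG])
      (fun i hi => hbd _ (he1 i hi))
      (fun i hi j hj hij => hsep _ (he1 i hi) _ (he1 j hj) (he2 i hi j hj hij))
    have h2 : (3 * T - T / 2) / (4 * G / L) = (5 / 8) * (T * L) / G := by
      field_simp; ring
    have h3 : (5 / 8) * (T * L) / G ≤ (5 / 8) * (T * L) := div_le_self (by positivity) hG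
    have h4 : 1 ≤ T * L := by nlinarith only [hG, hL, hWT, hWG]
    rw [h2] at h1
    linarith only [hθ0, h1, h3, h4]
  · intro z hz
    rw [he3 (fun a => ‖Mo (T ^ θ) (pt 0 (tf a))‖ ^ 2 *
            ‖riemannZeta (rf a + z) * Mo (T ^ θ) (pt 0 (tf a) + z)‖ ^ 2)]
    rw [Finset.sum_sigma]
    have h1 : ∀ k ∈ Finset.range N,
        ∑ i ∈ Finset.range (nn k), ‖Mo (T ^ θ) (pt 0 (tf ⟨k, i⟩))‖ ^ 2 *
            ‖riemannZeta (rf ⟨k, i⟩ + z) * Mo (T ^ θ) (pt 0 (tf ⟨k, i⟩) + z)‖ ^ 2 ≤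
        C * W * L ^ 2 * (1 + L * ‖z‖) ^ 4 * (1 + ‖z‖) ^ 301 := by
      intro k hk
      have hk' := Finset.mem_range.1 hk
      have h2 := hτ1 k
      have h3 := hτ2 k hk'
      refine HE T hTT2 (T + 3 * k * W) W le_rfl (by linarith only [hG, hWT, hWG]) ?_ (Finset.range (nn k)) (tt k) (rr k)
        ?_ ?_ z hz
      · rw [abs_of_nonneg (by linarith only [hG, hWT, hWG, h2])]; linarith only [hG, hWT, hWG, h3]
      · intro i hi
        obtain ⟨g1, g2, g3, g4⟩ := (HH k hk').1 i (Finset.mem_range.1 hi)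
        exact ⟨g1, g3, g4⟩
      · intro i hi j hj hij
        have g1 := (HH k hk').2.1 i (Finset.mem_range.1 hi) j (Finset.mem_range.1 hj) hij
        refine le_trans ?_ g1
        gcongr
        linarith only [hG]
    refine (Finset.sum_le_sum h1).trans ?_
    rw [Finset.sum_const, Finset.card_range, nsmul_eq_mul]
    have hP0 : 0 ≤ (1 + ‖z‖) ^ 301 := by positivity
    generalize (1 + ‖z‖) ^ 301 = P at hP0 ⊢
    have hQ0 : 0 ≤ (1 + L * ‖z‖) ^ 4 := by positivity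
    generalize (1 + L * ‖z‖) ^ 4 = Q at hQ0 ⊢
    have h2 : (N : ℝ) * (C * W * L ^ 2 * Q * P) = (N * (3 * W)) / 3 * (C * L ^ 2 * Q * P) := by ring
    have h3 : C * T * L ^ 2 * Q * P = T * (C * L ^ 2 * Q * P) := by ring
    rw [h2, h3]
    have h4 : 0 ≤ C * L ^ 2 * Q * P := by positivity
    refine mul_le_mul_of_nonneg_right ?_ h4
    linarith only [hNle', hT0]

end Pool.Agent.H14.CO

end

section

/-!
# CO module Core2: the lower bound of constant order
-/

set_option autoImplicit false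

namespace Pool.Agent.H14.CO

open Set MeasureTheory Complex Pool.Agent.H95.GC

theorem core2 (κ : ℝ) (hκ0 : 0 < κ) (hκ1 : κ ≤ 1) : ∃ c : ℝ, 0 < c ∧ ∀ A : ℝ, 0 < A →
    ∃ T₀ : ℝ, 1 ≤ T₀ ∧ ∀ T : ℝ, T₀ ≤ T →
    ∀ n : ℝ, 0 ≤ n → n ≤ A * Real.log T → ∀ δ : ℝ, 1 / (40 * T) ≤ δ → δ ≤ 1 / (20 * T) →
    c * Real.log T / T ≤ ∫ u in n..(n + (1 + κ) * Real.log T),
      (M (Real.exp u) (δ * Real.exp u)) ^ 2 * Real.exp (-u) := by
  set θ : ℝ := κ / 40 with hθ
  have hθ0 : 0 < θ := by positivity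
  have hθ1 : θ ≤ 1 / 40 := by rw [hθ]; linarith only [hκ1]
  obtain ⟨G, c₁, C₁, hG, hc₁, hC₁, T₁, hT₁e, hzer⟩ := zeros_global θ hθ0 hθ1
  obtain ⟨C₂, hC₂, T₂, hT₂e, hen⟩ := energy θ κ C₁ G hθ0 hθ1 hκ0 hκ1 hC₁ hG
  refine ⟨c₁ ^ 2 / (320 ^ 2 * C₂), by positivity, ?_⟩
  intro A hA
  set B : ℝ := 8 / κ * (A + 60) with hBdef
  have hBκ : B * κ = 8 * (A + 60) := by rw [hBdef]; field_simp
  have hB480 : 480 ≤ B := by
    rw [hBdef, div_mul_eq_mul_div, le_div_iff₀ hκ0]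
    linarith only [hκ1, hA]
  have hB1 : 1 ≤ B := by linarith only [hB480]
  obtain ⟨Cp, hCp, hpair⟩ := pair_one B hB1
  obtain ⟨Cl, hCl, hleft⟩ := az_left B hB1
  obtain ⟨Cr, hCr, hright⟩ := az_right B hB1
  set D : ℝ := 4 * Cp + 24 * (Cl * 4 ^ (B + 3)) * (A + 1) + 6144 * Cr with hD
  have hD0 : 0 < D := by positivity
  refine ⟨max (max T₁ T₂) (max (max (Real.exp (4 * G)) (Real.exp (256 / κ))) (max 100 (320 * D / c₁))),
    le_max_of_le_right (le_max_of_le_right (le_max_of_le_left (by norm_num))), ?_⟩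
  intro T hT n hn hnA δ hδ1 hδ2
  have hTa : T₁ ≤ T := (le_max_left _ _).trans ((le_max_left _ _).trans hT)
  have hTb : T₂ ≤ T := (le_max_right _ _).trans ((le_max_left _ _).trans hT)
  have hTc : Real.exp (4 * G) ≤ T :=
    (le_max_left _ _).trans ((le_max_left _ _).trans ((le_max_right _ _).trans hT))
  have hTd : Real.exp (256 / κ) ≤ T :=
    (le_max_right _ _).trans ((le_max_left _ _).trans ((le_max_right _ _).trans hT))
  have hTe : 100 ≤ T := (le_max_left _ _).trans ((le_max_right _ _).trans ((le_max_right _ _).trans hT))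
  have hTf : 320 * D / c₁ ≤ T :=
    (le_max_right _ _).trans ((le_max_right _ _).trans ((le_max_right _ _).trans hT))
  have hT0 : 0 < T := by linarith only [hTe]
  have hT1 : 1 < T := by linarith only [hTe]
  set L := Real.log T with hL
  have hexpL : Real.exp L = T := Real.exp_log hT0
  have hLG : 4 * G ≤ L := by rw [hL, Real.le_log_iff_exp_le hT0]; exact hTc
  have hLκ : 256 / κ ≤ L := by rw [hL, Real.le_log_iff_exp_le hT0]; exact hTd
  have hL1 : 1 ≤ L := by linarith only [hG, hLG]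
  have hLT : L ≤ T := by
    have := Real.log_le_sub_one_of_pos hT0
    linarith only [hκ1, hθ, hθ0, this]
  set h := κ * L / 256 with hh
  have hh1 : 1 ≤ h := by
    rw [div_le_iff₀ hκ0] at hLκ
    rw [hh, le_div_iff₀ (by norm_num)]; linarith only [hLκ]
  have hhpos : 0 < h := by linarith only [hh1]
  set z₀ := T ^ θ with hz₀
  have hz1 : 1 < z₀ := Real.one_lt_rpow hT1 hθ0
  have hz0 : 0 < z₀ := by linarith only [hz1]
  have hlogz : Real.log z₀ = κ * L / 40 := by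
    rw [hz₀, Real.log_rpow hT0, hθ]; ring
  have hzk : ∀ k : ℕ, k ≤ 5 → z₀ ^ k ≤ T := by
    intro k hk
    calc z₀ ^ k = Real.exp (k * (κ * L / 40)) := by
          rw [← hlogz, Real.exp_nat_mul, Real.exp_log hz0]
      _ ≤ Real.exp L := by
          apply Real.exp_le_exp.2
          have hk' : (k : ℝ) ≤ 5 := by exact_mod_cast hk
          have hk0 : (0 : ℝ) ≤ k := Nat.cast_nonneg k
          have h1 : κ * L ≤ L := mul_le_of_le_one_left (by linarith only [hL1]) hκ1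
          have h2 : 0 ≤ κ * L := by positivity
          have h3 := mul_le_mul_of_nonneg_right hk' h2
          have h4 : (k : ℝ) * (κ * L / 40) = k * (κ * L) / 40 := by ring
          rw [h4]
          linarith only [h1, h3, hL1]
      _ = T := hexpL
  have hδ0 : 0 < δ := lt_of_lt_of_le (by positivity) hδ1
  have hδT : δ ≤ 1 / 2000 := by
    refine hδ2.trans ?_
    rw [div_le_div_iff₀ (by positivity) (by norm_num)]
    linarith only [hTe]
  have hδ1' : δ ≤ 1 := by linarith only [hδ0, hδT]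
  have hδ2' : δ ≤ 1 / 2 := by linarith only [hδT]
  -- the family
  obtain ⟨n₀, t, ρ, hf1, hf2, hf3, hf4, hf5⟩ := hzer T hTa
  have hFam : Fam θ G C₁ T n₀ t ρ := ⟨hf1, hf2, hf5⟩
  set ν : ℝ := n + L * (1 + 3 * κ / 10) with hν
  set n' : ℝ := n + (1 + κ) * L with hn'
  have hκL : 0 ≤ κ * L := by positivity
  have hnn' : n ≤ n' := by
    have h1 : (1 + κ) * L = L + κ * L := by ring
    rw [hn', h1]; linarith only [hκL, hL1]
  have hn'0 : 0 ≤ n' := hn.trans hnn'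
  -- zeros: sizes
  have hρ : ∀ i < n₀, riemannZeta (ρ i) = 0 ∧ 1 / 2 ≤ (ρ i).re ∧ (ρ i).re < 1 ∧ 1 ≤ |(ρ i).im| ∧
      ‖ρ i‖ ≤ 4 * T := by
    intro i hi
    obtain ⟨a1, a2, a3, a4, a5⟩ := hf1 i hi
    obtain ⟨b1, b2, b3, b4⟩ := hFam.re_lt hLG hG hi
    rw [abs_le] at b4
    refine ⟨a3, a4, b2, ?_, ?_⟩
    · rw [abs_of_nonneg (by linarith only [hTe, a1, b4])]; linarith only [hTe, a1, b4]
    · refine (Complex.norm_le_abs_re_add_abs_im _).trans ?_
      rw [abs_of_nonneg (by linarith only [a4] : (0 : ℝ) ≤ (ρ i).re),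
        abs_of_nonneg (by linarith only [hTe, hδT, a1, b4] : (0 : ℝ) ≤ (ρ i).im)]
      linarith only [hTe, a2, b2, b4]
  have hn₀ : (n₀ : ℝ) ≤ 4 * T ^ 2 := by
    refine hf4.trans ?_
    have h1 := mul_le_mul_of_nonneg_left hLT (show 0 ≤ 4 * T by positivity)
    calc 4 * T * L ≤ 4 * T * T := h1
      _ = 4 * T ^ 2 := by ring
  set e : ℝ := Real.exp (-(A + 60) * L) with he
  have he0 : 0 < e := Real.exp_pos _
  have heA : e * Real.exp (A * L) = 1 / T ^ 60 := by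
    rw [he, ← Real.exp_add]
    have : -(A + 60) * L + A * L = -((60 : ℕ) * L) := by push_cast; ring
    rw [this, Real.exp_neg, Real.exp_nat_mul, hexpL, one_div]
  have heT : e ≤ 1 / T ^ 60 := by
    rw [← heA]
    refine le_mul_of_one_le_right he0.le (Real.one_le_exp (by positivity))
  have hν1 : ν - 2 * Real.log z₀ - 32 * h = n + L * (1 + κ / 8) := by
    rw [hν, hlogz, hh]; ring
  have hν2 : ν - n' + 32 * h = -(23 / 40) * (κ * L) := by
    rw [hν, hn', hh]; ring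
  -- the pairing
  set F := Ft z₀ h ν n₀ t ρ with hF
  have hFint : Integrable (fun u : ℝ => (g δ u : ℂ) * F u) ∧
      ‖(∫ u : ℝ, (g δ u : ℂ) * F u) - ∑ i ∈ Finset.range n₀,
        ((‖Mo z₀ (pt 0 (t i))‖ ^ 2 : ℝ) : ℂ) * Wt δ (ρ i)‖ ≤ 4 * Cp * T ^ 4 * e := by
    have hp : ∀ i ∈ Finset.range n₀, Integrable (fun u : ℝ => (g δ u : ℂ) *
        (Complex.exp (-ρ i * u) * Am z₀ h ν (pt 0 (t i)) (ρ i) u)) ∧
        ‖(∫ u : ℝ, (g δ u : ℂ) * (Complex.exp (-ρ i * u) * Am z₀ h ν (pt 0 (t i)) (ρ i) u)) -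
          Mo z₀ (pt 0 (t i)) * Wt δ (ρ i)‖ ≤ Cp * T * e := by
      intro i hi
      obtain ⟨r1, r2, r3, r4, r5⟩ := hρ i (Finset.mem_range.1 hi)
      obtain ⟨p1, p2⟩ := hpair z₀ h ν δ hz1 hh1 hδ0 hδ2' (pt 0 (t i)) (ρ i)
        (by rw [pt_zero_re]; norm_num) r2 r3 r4
      refine ⟨p1, p2.trans ?_⟩
      have q1 : Real.exp (-B * (ν - 2 * Real.log z₀) + 32 * h * B) ≤ e := by
        apply Real.exp_le_exp.2
        have : -B * (ν - 2 * Real.log z₀) + 32 * h * B =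
            -B * (ν - 2 * Real.log z₀ - 32 * h) := by ring
        rw [this, hν1]
        have q2 : B * (n + L * (1 + κ / 8)) = B * n + B * L + B * κ * L / 8 := by ring
        have q3 : 0 ≤ B * n := by positivity
        have q4 : 0 ≤ B * L := by positivity
        rw [hBκ] at q2
        linarith only [q2, q3, q4]
      calc Cp * z₀ ^ 2 * δ * Real.exp (-B * (ν - 2 * Real.log z₀) + 32 * h * B)
          ≤ Cp * T * 1 * e := by
            have := hzk 2 (by norm_num)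
            gcongr
        _ = Cp * T * e := by ring
    have hpt : ∀ u : ℝ, (g δ u : ℂ) * F u = ∑ i ∈ Finset.range n₀,
        (starRingEnd ℂ) (Mo z₀ (pt 0 (t i))) * ((g δ u : ℂ) *
          (Complex.exp (-ρ i * u) * Am z₀ h ν (pt 0 (t i)) (ρ i) u)) := by
      intro u
      rw [hF, Ft, Finset.mul_sum]
      exact Finset.sum_congr rfl fun i _ => by ring
    have hfun : (fun u : ℝ => (g δ u : ℂ) * F u) = fun u => ∑ i ∈ Finset.range n₀,
        (starRingEnd ℂ) (Mo z₀ (pt 0 (t i))) * ((g δ u : ℂ) *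
          (Complex.exp (-ρ i * u) * Am z₀ h ν (pt 0 (t i)) (ρ i) u)) := funext hpt
    constructor
    · rw [hfun]
      exact integrable_finsetSum _ fun i hi => (hp i hi).1.const_mul _
    · rw [hfun, integral_finsetSum _ fun i hi => (hp i hi).1.const_mul _,
        ← Finset.sum_sub_distrib]
      calc _ ≤ ∑ i ∈ Finset.range n₀, T * (Cp * T * e) := by
            refine (norm_sum_le _ _).trans (Finset.sum_le_sum fun i hi => ?_)
            rw [integral_const_mul]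
            have m1 : ((‖Mo z₀ (pt 0 (t i))‖ ^ 2 : ℝ) : ℂ) =
                (starRingEnd ℂ) (Mo z₀ (pt 0 (t i))) * Mo z₀ (pt 0 (t i)) := by
              rw [RCLike.conj_mul]
              push_cast; rfl
            rw [m1, mul_assoc, ← mul_sub, norm_mul, RCLike.norm_conj]
            have m2 : ‖Mo z₀ (pt 0 (t i))‖ ≤ T := by
              refine (norm_Mo_le z₀ hz1 _).trans ?_
              rw [pt_zero_re, abs_of_pos (by norm_num : (0 : ℝ) < 1 / 2)]
              have := hzk 3 (by norm_num)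
              rw [← Real.rpow_natCast] at this
              refine le_trans (le_of_eq ?_) this
              congr 1
              norm_num
            exact mul_le_mul m2 (hp i hi).2 (norm_nonneg _) hT0.le
        _ = (n₀ : ℝ) * (T * (Cp * T * e)) := by
            rw [Finset.sum_const, nsmul_eq_mul, Finset.card_range]
        _ ≤ 4 * T ^ 2 * (T * (Cp * T * e)) :=
            mul_le_mul_of_nonneg_right hn₀ (by positivity)
        _ = _ := by ring
  obtain ⟨hFi, hFs⟩ := hFint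
  -- lower bound of the diagonal
  have hdiag : c₁ * L ^ 2 / 160 ≤ ‖∑ i ∈ Finset.range n₀,
        ((‖Mo z₀ (pt 0 (t i))‖ ^ 2 : ℝ) : ℂ) * Wt δ (ρ i)‖ := by
    refine le_trans ?_ (Complex.re_le_norm _)
    rw [Complex.re_sum]
    have d1 : ∀ i ∈ Finset.range n₀, ‖Mo z₀ (pt 0 (t i))‖ ^ 2 * (δ / 4) ≤
        (((‖Mo z₀ (pt 0 (t i))‖ ^ 2 : ℝ) : ℂ) * Wt δ (ρ i)).re := by
      intro i hi
      obtain ⟨r1, r2, r3, r4, r5⟩ := hρ i (Finset.mem_range.1 hi)
      rw [Complex.re_ofReal_mul]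
      apply mul_le_mul_of_nonneg_left _ (by positivity)
      apply Wt_re δ hδ0 hδ2'
      calc ‖ρ i‖ * δ ≤ (4 * T) * (1 / (20 * T)) := mul_le_mul r5 hδ2 hδ0.le (by positivity)
        _ = 1 / 5 := by field_simp; norm_num
        _ ≤ 1 / 4 := by norm_num
    refine le_trans ?_ (Finset.sum_le_sum d1)
    rw [← Finset.sum_mul]
    calc c₁ * L ^ 2 / 160 = (c₁ * T * L ^ 2) * (1 / (40 * T) / 4) := by field_simp; norm_num
      _ ≤ (∑ i ∈ Finset.range n₀, ‖Mo z₀ (pt 0 (t i))‖ ^ 2) * (δ / 4) := by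
          refine mul_le_mul hf3 (by linarith only [hδ1]) (by positivity) ?_
          exact Finset.sum_nonneg fun i _ => by positivity
  -- left and right parts
  have hlp : ‖∫ u in Ioc (-1 : ℝ) n, (g δ u : ℂ) * F u‖ ≤
      24 * (Cl * 4 ^ (B + 3)) * (A + 1) * T ^ 7 * (1 / T ^ 60) := by
    have k1 : ∀ i < n₀, ∀ r : ℝ, ν - n - 2 * Real.log z₀ ≤ r →
        ‖az h r (ρ i)‖ ≤ Cl * 4 ^ (B + 3) * T ^ 3 * e := by
      intro i hi r hr
      obtain ⟨r1, r2, r3, r4, r5⟩ := hρ i hi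
      refine (hleft h r hh1 (ρ i) r1 r2 r3 r4).trans ?_
      have s1 : ‖ρ i‖ ^ (B + 3) ≤ 4 ^ (B + 3) * (Real.exp (B * L) * T ^ 3) := by
        calc ‖ρ i‖ ^ (B + 3) ≤ (4 * T) ^ (B + 3) :=
              Real.rpow_le_rpow (norm_nonneg _) r5 (by linarith only [hB480])
          _ = 4 ^ (B + 3) * T ^ (B + 3) := Real.mul_rpow (by norm_num) hT0.le
          _ = _ := by
              congr 1
              rw [Real.rpow_add hT0, Real.rpow_def_of_pos hT0, ← hL, mul_comm L B]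
              congr 1
              rw [← Real.rpow_natCast]; norm_num
      have s2 : Real.exp (-B * r + 32 * h * B) ≤ Real.exp (-(B * L)) * e := by
        rw [he, ← Real.exp_add]
        apply Real.exp_le_exp.2
        have s3 : B * (ν - n - 2 * Real.log z₀ - 32 * h) ≤ B * (r - 32 * h) :=
          mul_le_mul_of_nonneg_left (by linarith only [hr]) (by linarith only [hB480])
        have s4 : ν - n - 2 * Real.log z₀ - 32 * h = L * (1 + κ / 8) := by linarith only [hh, hlogz, hν]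
        rw [s4] at s3
        have s5 : B * (L * (1 + κ / 8)) = B * L + B * κ * L / 8 := by ring
        rw [s5, hBκ] at s3
        linarith only [s3]
      calc Cl * ‖ρ i‖ ^ (B + 3) * Real.exp (-B * r + 32 * h * B)
          ≤ Cl * (4 ^ (B + 3) * (Real.exp (B * L) * T ^ 3)) * (Real.exp (-(B * L)) * e) := by
            gcongr
        _ = Cl * 4 ^ (B + 3) * T ^ 3 * e * (Real.exp (B * L) * Real.exp (-(B * L))) := by ring
        _ = _ := by
            rw [← Real.exp_add, add_neg_cancel, Real.exp_zero, mul_one]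
    refine (left_part z₀ h ν δ n _ hz1 hδ0 hδ1' hn n₀ t ρ
      (fun i hi => ⟨(hρ i hi).2.1, (hρ i hi).2.2.1⟩) k1).trans ?_
    have k2 : Real.exp n + 1 ≤ 2 * Real.exp (A * L) := by
      have := Real.exp_le_exp.2 hnA
      have := Real.one_le_exp (show 0 ≤ A * L by positivity)
      linarith
    have k3 : n + 1 ≤ (A + 1) * T := by
      have h1 : A * L ≤ A * T := mul_le_mul_of_nonneg_left hLT hA.le
      have h2 : (A + 1) * T = A * T + T := by ring
      rw [h2]; linarith only [h1, hnA, hT1]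
    have k5 := hzk 5 (by norm_num)
    calc _ ≤ (4 * T ^ 2 * (3 * T * (Cl * 4 ^ (B + 3) * T ^ 3 * e))) * (2 * Real.exp (A * L)) *
          ((A + 1) * T) := by gcongr
      _ = 24 * (Cl * 4 ^ (B + 3)) * (A + 1) * T ^ 7 * (e * Real.exp (A * L)) := by ring
      _ = _ := by rw [heA]
  have hrp : ‖∫ u in Ioi n', (g δ u : ℂ) * F u‖ ≤ 6144 * Cr * T ^ 9 * (1 / T ^ 60) := by
    have k1 : ∀ i < n₀, ∀ r : ℝ, r ≤ ν - n' →
        ‖az h r (ρ i)‖ ≤ (256 * Cr * T ^ 4 * e) * Real.exp (2 * (r - (ν - n'))) := by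
      intro i hi r hr
      obtain ⟨r1, r2, r3, r4, r5⟩ := hρ i hi
      refine (hright h r hh1 (ρ i) r1 r2 r3 r4).trans ?_
      have s1 : ‖ρ i‖ ^ 4 ≤ 256 * T ^ 4 := by
        calc ‖ρ i‖ ^ 4 ≤ (4 * T) ^ 4 := pow_le_pow_left₀ (norm_nonneg _) r5 4
          _ = _ := by ring
      have s2 : Real.exp (B * r + 32 * h * B) ≤ e * Real.exp (2 * (r - (ν - n'))) := by
        rw [he, ← Real.exp_add]
        apply Real.exp_le_exp.2
        have s3 : B * (r - (ν - n')) ≤ 2 * (r - (ν - n')) :=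
          mul_le_mul_of_nonpos_right (by linarith only [hB480]) (by linarith only [hr])
        have s4 : B * r + 32 * h * B = B * (r - (ν - n')) + B * (ν - n' + 32 * h) := by ring
        rw [s4, hν2]
        have s5 : B * (-(23 / 40) * (κ * L)) = -(23 / 40) * (B * κ) * L := by ring
        rw [s5, hBκ]
        have s6 : 0 ≤ (A + 60) * L := by positivity
        linarith only [hG, hn, hnA, hLG, s3]
      calc Cr * ‖ρ i‖ ^ 4 * Real.exp (B * r + 32 * h * B)
          ≤ Cr * (256 * T ^ 4) * (e * Real.exp (2 * (r - (ν - n')))) := by gcongr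
        _ = _ := by ring
    refine (right_part z₀ h ν δ n' _ hz1 hδ0 hδ1' hn'0 n₀ t ρ (by positivity)
      (fun i hi => ⟨(hρ i hi).2.1, (hρ i hi).2.2.1⟩) k1).trans ?_
    have k2 : Real.exp n' ≤ Real.exp (A * L) * T ^ 2 := by
      have : Real.exp (A * L) * T ^ 2 = Real.exp (A * L + 2 * L) := by
        rw [Real.exp_add]
        congr 1
        calc T ^ 2 = Real.exp L ^ 2 := by rw [hexpL]
          _ = Real.exp (2 * L) := by rw [← Real.exp_nat_mul]; norm_num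
      rw [this]
      apply Real.exp_le_exp.2
      have h1 : κ * L ≤ L := mul_le_of_le_one_left (by linarith only [hL1]) hκ1
      have h2 : (1 + κ) * L = L + κ * L := by ring
      rw [hn', h2]
      linarith only [h1, hnA]
    have k5 := hzk 5 (by norm_num)
    calc _ ≤ (4 * T ^ 2 * (3 * T * (256 * Cr * T ^ 4 * e))) * (2 * (Real.exp (A * L) * T ^ 2)) := by
          gcongr
      _ = 6144 * Cr * T ^ 9 * (e * Real.exp (A * L)) := by ring
      _ = _ := by rw [heA]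
  -- total of the small terms
  have hTpow : ∀ k : ℕ, k ≤ 9 → T ^ k * (1 / T ^ 60) ≤ 1 / T := by
    intro k hk
    rw [mul_one_div, div_le_div_iff₀ (by positivity) hT0, one_mul, ← pow_succ]
    exact pow_le_pow_right₀ hT1.le (by omega)
  have hsmall : 4 * Cp * T ^ 4 * e + 24 * (Cl * 4 ^ (B + 3)) * (A + 1) * T ^ 7 * (1 / T ^ 60) +
      6144 * Cr * T ^ 9 * (1 / T ^ 60) ≤ c₁ * L ^ 2 / 320 := by
    have t1 : 4 * Cp * T ^ 4 * e ≤ 4 * Cp * (1 / T) := by
      calc 4 * Cp * T ^ 4 * e ≤ 4 * Cp * T ^ 4 * (1 / T ^ 60) := by gcongr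
        _ = 4 * Cp * (T ^ 4 * (1 / T ^ 60)) := by ring
        _ ≤ _ := mul_le_mul_of_nonneg_left (hTpow 4 (by norm_num)) (by positivity)
    have t2 : 24 * (Cl * 4 ^ (B + 3)) * (A + 1) * T ^ 7 * (1 / T ^ 60) ≤
        24 * (Cl * 4 ^ (B + 3)) * (A + 1) * (1 / T) := by
      calc _ = 24 * (Cl * 4 ^ (B + 3)) * (A + 1) * (T ^ 7 * (1 / T ^ 60)) := by ring
        _ ≤ _ := mul_le_mul_of_nonneg_left (hTpow 7 (by norm_num)) (by positivity)
    have t3 : 6144 * Cr * T ^ 9 * (1 / T ^ 60) ≤ 6144 * Cr * (1 / T) := by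
      calc _ = 6144 * Cr * (T ^ 9 * (1 / T ^ 60)) := by ring
        _ ≤ _ := mul_le_mul_of_nonneg_left (hTpow 9 (by norm_num)) (by positivity)
    have t4 : D * (1 / T) ≤ c₁ / 320 := by
      rw [mul_one_div, div_le_div_iff₀ hT0 (by norm_num)]
      rw [div_le_iff₀ hc₁] at hTf
      linarith only [hTf]
    have t5 : c₁ / 320 ≤ c₁ * L ^ 2 / 320 := by
      have : (1 : ℝ) ≤ L ^ 2 := one_le_pow₀ hL1
      have := mul_le_mul_of_nonneg_left this hc₁.le
      linarith only [this]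
    have t6 : D * (1 / T) = 4 * Cp * (1 / T) + 24 * (Cl * 4 ^ (B + 3)) * (A + 1) * (1 / T) +
        6144 * Cr * (1 / T) := by rw [hD]; ring
    linarith only [t1, t2, t3, t4, t5]
  -- the middle part
  have hmid : c₁ * L ^ 2 / 320 ≤ ‖∫ u in Ioc n n', (g δ u : ℂ) * F u‖ := by
    have hsp := split_int δ n n' hδ0 hδ1' hn hnn' F hFi
    set Sg := ∑ i ∈ Finset.range n₀, ((‖Mo z₀ (pt 0 (t i))‖ ^ 2 : ℝ) : ℂ) * Wt δ (ρ i) with hSg
    set I1 := ∫ u in Ioc (-1 : ℝ) n, (g δ u : ℂ) * F u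
    set I2 := ∫ u in Ioc n n', (g δ u : ℂ) * F u
    set I3 := ∫ u in Ioi n', (g δ u : ℂ) * F u
    set I0 := ∫ u : ℝ, (g δ u : ℂ) * F u
    have u1 : Sg = (Sg - I0) + (I1 + I2 + I3) := by rw [← hsp]; ring
    have u2 : ‖Sg‖ ≤ ‖Sg - I0‖ + (‖I1‖ + ‖I2‖ + ‖I3‖) := by
      calc ‖Sg‖ = ‖(Sg - I0) + (I1 + I2 + I3)‖ := by rw [← u1]
        _ ≤ ‖Sg - I0‖ + ‖I1 + I2 + I3‖ := norm_add_le _ _
        _ ≤ _ := by
            have := norm_add_le (I1 + I2) I3
            have := norm_add_le I1 I2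
            linarith
    rw [norm_sub_rev] at u2
    linarith only [hsmall, hdiag, hlp, hrp, hFs, u2]
  have hm := mid_part δ n n' hδ0 hδ1' hnn' F (continuous_Ft z₀ h ν hhpos n₀ t ρ
    (fun i hi => ⟨(hρ i hi).1, (hρ i hi).2.1, (hρ i hi).2.2.1⟩))
  have hE := hen T hTb n₀ t ρ hFam ν n hn (by
    have h1 : κ * L ≤ L := mul_le_of_le_one_left (by linarith only [hL1]) hκ1
    have h2 : L * (1 + 3 * κ / 10) = L + 3 / 10 * (κ * L) := by ring
    rw [hν, h2]
    linarith only [h1, hL1])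
  set I := ∫ u in n..n', g δ u ^ 2 * Real.exp (-u) with hI
  have hI0 : 0 ≤ I := intervalIntegral.integral_nonneg hnn' fun u _ => by positivity
  have hfin : (c₁ * L ^ 2 / 320) ^ 2 ≤ I * (C₂ * T * L ^ 3) :=
    (pow_le_pow_left₀ (by positivity) hmid 2).trans (hm.trans (mul_le_mul_of_nonneg_left hE hI0))
  show c₁ ^ 2 / (320 ^ 2 * C₂) * L / T ≤ I
  have hL0 : 0 < L := by linarith only [hG, hLG]
  have hP : 0 < C₂ * T * L ^ 3 := by positivity
  have hfin2 : (c₁ * L ^ 2 / 320) ^ 2 / (C₂ * T * L ^ 3) ≤ I := by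
    rw [div_le_iff₀ hP]; exact hfin
  refine le_trans (le_of_eq ?_) hfin2
  field_simp

end Pool.Agent.H14.CO

end

section

/-!
# CO module Final: the theorem in terms of the variance `V(X;H)`
-/

set_option autoImplicit false

namespace Pool.Agent.H14.CO

open Set MeasureTheory Complex Pool.Agent.H95.GC

/-- (i) `∫_N^{N T^{1+κ}} V(X; X/T)/(X/T) dX/X ≥ c log T`; (ii) some `X` in the window and some
`H ∈ [X/T, 4X/T]` have `V(X; H/m) ≥ c H/m²` for all `m ≥ 1`. -/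
theorem final (κ : ℝ) (hκ0 : 0 < κ) : ∃ c : ℝ, 0 < c ∧ ∀ A : ℝ, 0 < A →
    ∃ T₀ : ℝ, 1 ≤ T₀ ∧ ∀ T : ℝ, T₀ ≤ T → ∀ N : ℝ, 1 ≤ N → N ≤ T ^ A →
      c * Real.log T ≤ ∫ X in N..(N * T ^ (1 + κ)), V X (X / T) / (X / T) / X ∧
      ∃ X H : ℝ, N ≤ X ∧ X ≤ N * T ^ (1 + κ) ∧ X / T ≤ H ∧ H ≤ 4 * (X / T) ∧
        ∀ m : ℕ, 1 ≤ m → c * H / (m : ℝ) ^ 2 ≤ V X (H / m) := by
  have hκ' : 0 < min κ 1 := lt_min hκ0 one_pos
  obtain ⟨c₀, hc₀, hcore⟩ := core2 (min κ 1) hκ' (min_le_right _ _)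
  refine ⟨c₀ / 2, by positivity, ?_⟩
  intro A hA
  obtain ⟨T₁, hT₁, h1⟩ := final_i κ (min κ 1) c₀ hκ' (min_le_left _ _) hc₀ hcore A hA
  obtain ⟨T₂, hT₂, h2⟩ := final_ii κ (min κ 1) c₀ hκ' (min_le_left _ _) (min_le_right _ _) hc₀
    hcore A hA
  refine ⟨max T₁ T₂, hT₁.trans (le_max_left _ _), ?_⟩
  intro T hT N hN1 hNA
  refine ⟨?_, h2 T ((le_max_right _ _).trans hT) N hN1 hNA⟩
  refine le_trans ?_ (h1 T ((le_max_left _ _).trans hT) N hN1 hNA)
  have hT1 : 1 ≤ T := hT₁.trans ((le_max_left _ _).trans hT)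
  have hlog : 0 ≤ Real.log T := Real.log_nonneg hT1
  have : c₀ / 2 ≤ 10 * c₀ := by linarith only [hc₀]
  exact mul_le_mul_of_nonneg_right this hlog

end Pool.Agent.H14.CO

end
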